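import Pool.Agent.Lib.MP_cf6b16_an.Defs

section

/-!
# Module A: notions (domains without holes, components, approximated maps, annulus charts)
-/

open Complex Set Filter Topology Metric

namespace CF6

/-- `W` has no holes: no nonempty compact set splits off from the complement of `W`. -/
def NoHole (W : Set ℂ) : Prop :=
  ∀ A B : Set ℂ, IsClosed A → IsCompact B → Disjoint A B → A ∪ B = Wᶜ → B = ∅

/-- `L i` are the components of the complement of the bounded domain `Ω`. -/
structure Comps {k : ℕ} (Ω : Set ℂ) (L : Fin k → Set ℂ) : Prop where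
  isOpen : IsOpen Ω
  conn : IsConnected Ω
  bdd : Bornology.IsBounded Ω
  closed : ∀ i, IsClosed (L i)
  cconn : ∀ i, IsConnected (L i)
  disj : ∀ i j, i ≠ j → Disjoint (L i) (L j)
  union : (⋃ i, L i) = Ωᶜ

/-- `h` is the limit of the homeomorphisms `hj j : Ω → Ωs`, which match the ends `L i` and `K i`. -/
structure Approx {k : ℕ} (Ω Ωs : Set ℂ) (L K : Fin k → Set ℂ) (h : ℂ → ℂ)
    (hj : ℕ → ℂ → ℂ) : Prop where
  dom : Comps Ω L
  tgt : Comps Ωs K
  homeo : ∀ j, IsHomeoOnto (hj j) Ω Ωs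
  maps : MapsTo h Ω (closure Ωs)
  lim : TendstoLocallyUniformlyOn hj h atTop Ω
  ends : ∀ η > (0 : ℝ), ∃ κ > (0 : ℝ), ∃ j0 : ℕ, ∀ i, ∀ x ∈ Ω, infDist x (L i) < κ →
    (∀ j ≥ j0, infDist (hj j x) (K i) < η) ∧ infDist (h x) (K i) ≤ η
  back : ∀ (j : ℕ) (i : Fin k), ∀ η > (0 : ℝ), ∃ κ > (0 : ℝ), ∀ x ∈ Ω,
    infDist (hj j x) (K i) < κ → infDist x (L i) < η

/-- the open strip `0 < re s < T` -/
def strip (T : ℝ) : Set ℂ := {s | 0 < s.re ∧ s.re < T}

/-- the right half plane -/
def rhp : Set ℂ := {s | 0 < s.re}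

/-- conformal parametrisation of the doubly connected domain `A`, complementary components `L`, `M`,
by the annulus `strip T / 2πi`; `M` corresponds to `re s = 0`, `L` to `re s = T`. -/
structure StripChart (A L M : Set ℂ) (T : ℝ) (ψ : ℂ → ℂ) : Prop where
  pos : 0 < T
  diff : DifferentiableOn ℂ ψ (strip T)
  per : ∀ s ∈ strip T, ψ (s + 2 * Real.pi * I) = ψ s
  inj : ∀ s ∈ strip T, ∀ s' ∈ strip T, ψ s = ψ s' → ∃ n : ℤ, s' = s + 2 * Real.pi * n * I
  image : ψ '' strip T = A
  endM : ∀ ε > (0 : ℝ), ∃ η > (0 : ℝ), ∀ s ∈ strip T, s.re < η → infDist (ψ s) M < ε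
  endL : ∀ ε > (0 : ℝ), ∃ η > (0 : ℝ), ∀ s ∈ strip T, T - η < s.re → infDist (ψ s) L < ε

/-- the same for a punctured domain: `p` corresponds to `re s = ∞`. -/
structure PunctChart (A M : Set ℂ) (p : ℂ) (ψ : ℂ → ℂ) : Prop where
  diff : DifferentiableOn ℂ ψ rhp
  per : ∀ s ∈ rhp, ψ (s + 2 * Real.pi * I) = ψ s
  inj : ∀ s ∈ rhp, ∀ s' ∈ rhp, ψ s = ψ s' → ∃ n : ℤ, s' = s + 2 * Real.pi * n * I
  image : ψ '' rhp = A
  endM : ∀ ε > (0 : ℝ), ∃ η > (0 : ℝ), ∀ s ∈ rhp, s.re < η → infDist (ψ s) M < ε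
  endL : ∀ ε > (0 : ℝ), ∃ R : ℝ, ∀ s : ℂ, R < s.re → dist (ψ s) p < ε

/-! ## polygonal chains -/

/-- integral of `f` over the segment from `a` to `b` -/
noncomputable def segInt (f : ℂ → ℂ) (a b : ℂ) : ℂ :=
  ∫ t in (0 : ℝ)..1, f (a + t * (b - a)) * (b - a)

/-- integral of `f` over the chain `p 0, …, p n` -/
noncomputable def polyInt (f : ℂ → ℂ) (p : ℕ → ℂ) (n : ℕ) : ℂ :=
  ∑ i ∈ Finset.range n, segInt f (p i) (p (i + 1))

/-- the trace of the chain `p 0, …, p n` -/
def trace (p : ℕ → ℂ) (n : ℕ) : Set ℂ := ⋃ i ∈ Finset.range n, segment ℝ (p i) (p (i + 1))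

/-- Moebius transformation of the disc -/
noncomputable def mob (a z : ℂ) : ℂ := (z - a) / (1 - (starRingEnd ℂ) a * z)

/-- the set of the logarithms of the points of `ball 0 1 \ X` -/
def logCover (X : Set ℂ) : Set ℂ := {ζ | ζ.re < 0 ∧ exp ζ ∉ X}

end CF6

end

section

/-!
# A01: planar Janiszewski theorem

PROOF (elementary, one logarithm on the plane). Suppose `U ∩ V = W1 ∪ W2` with `W1, W2` open,
disjoint, nonempty (this is the negation of `IsPreconnected (U ∩ V)`: `W1 = U ∩ V ∩ u`,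
`W2 = U ∩ V ∩ v`). `Uᶜ`, `Vᶜ` are disjoint closed sets; let `χ : ℂ → ℝ` be continuous with
values in `[0,1]`, `χ = 0` on `Uᶜ`, `χ = 1` on `Vᶜ` (`exists_continuous_zero_one_of_isClosed`).
Define `g z = exp (2πi χ z)` for `z ∈ W2` and `g z = 1` for `z ∉ W2`.
`g` is continuous: at points of `W2` clear (open), at points of `W1` it is locally `1`, at
`z ∉ U ∩ V` we have `χ z ∈ {0,1}`, so `exp (2πi χ z) = 1 = g z` and
`‖g w - 1‖ ≤ ‖exp (2πi χ w) - 1‖ → 0` as `w → z`.
Mathlib `Complex.exists_continuousOn_eqOn_exp_comp` on `univ` (contractible => simply connected):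
`θ : ℂ → ℂ` continuous, `exp (θ z) = g z`.
On `U` put `a z = χ z` for `z ∈ W2`, `a z = 1` otherwise: continuous on `U` (on `U \ V` `χ = 1`), and
`exp (2πi a) = g` there. On `V` put `b z = χ z` on `W2`, `b z = 0` otherwise (continuous on `V`,
`exp (2πi b) = g`). `(θ - 2πi a)/(2πi)` is continuous and integer valued on the preconnected `U`, so
it is a constant `m` (a continuous integer valued function on a preconnected set is constant:
`IsPreconnected.constant` for maps into discrete `ℤ`, or: the image under `re` is preconnected in `ℝ`);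
in the same way `θ - 2πi b = 2πi n` on `V`. On `W1`: `m + 1 = n`; on `W2`: `m = n`. Contradiction.
-/

open Complex Set Filter Topology Metric

namespace CF6

theorem a01_const {S : Set ℂ} (hS : IsPreconnected S) {f : ℂ → ℝ} (hf : ContinuousOn f S)
    (hi : ∀ z ∈ S, ∃ n : ℤ, f z = n) {x y : ℂ} (hx : x ∈ S) (hy : y ∈ S) : f x = f y := by
  have key : ∀ x ∈ S, ∀ y ∈ S, ¬ f x < f y := by
    intro x hx y hy hlt
    have hord : OrdConnected (f '' S) := (hS.image f hf).ordConnected
    obtain ⟨m, hm⟩ := hi x hx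
    obtain ⟨n, hn⟩ := hi y hy
    have hmn : m + 1 ≤ n := by
      rw [hm, hn] at hlt
      exact_mod_cast hlt
    have hmn' : (m : ℝ) + 1 ≤ n := by exact_mod_cast hmn
    have h1 : (m : ℝ) + 1 / 2 ∈ f '' S := by
      refine hord.out ⟨x, hx, rfl⟩ ⟨y, hy, rfl⟩ ⟨?_, ?_⟩
      · rw [hm]; linarith
      · rw [hn]; linarith
    obtain ⟨z, hz, hzf⟩ := h1
    obtain ⟨l, hl⟩ := hi z hz
    rw [hl] at hzf
    have h2 : (m : ℝ) < l := by linarith
    have h3 : (l : ℝ) < m + 1 := by linarith
    have h2' : m < l := by exact_mod_cast h2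
    have h3' : l < m + 1 := by exact_mod_cast h3
    omega
  rcases lt_trichotomy (f x) (f y) with h | h | h
  · exact absurd h (key x hx y hy)
  · exact h
  · exact absurd h (key y hy x hx)

theorem a01_glue {χ : ℂ → ℝ} (hχ : Continuous χ) {W2 S : Set ℂ} [∀ z, Decidable (z ∈ W2)] (hW : IsOpen W2) (c : ℝ)
    (h : ∀ z ∈ S, z ∈ W2 ∨ (∀ᶠ w in 𝓝 z, w ∉ W2) ∨ (χ z = c ∧ z ∉ W2)) :
    ContinuousOn (fun z => if z ∈ W2 then χ z else c) S := by
  intro z hz
  refine ContinuousAt.continuousWithinAt ?_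
  rcases h z hz with h1 | h1 | h1
  · have h2 : (fun z => if z ∈ W2 then χ z else c) =ᶠ[𝓝 z] χ := by
      filter_upwards [hW.mem_nhds h1] with w hw
      rw [if_pos hw]
    exact hχ.continuousAt.congr h2.symm
  · have h2 : (fun z => if z ∈ W2 then χ z else c) =ᶠ[𝓝 z] fun _ => c := by
      filter_upwards [h1] with w hw
      rw [if_neg hw]
    exact continuousAt_const.congr h2.symm
  · rw [Metric.continuousAt_iff]
    intro ε hε
    obtain ⟨δ, hδ, h3⟩ := Metric.continuousAt_iff.1 hχ.continuousAt ε hε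
    refine ⟨δ, hδ, fun {w} hw => ?_⟩
    rw [if_neg h1.2]
    by_cases hw2 : w ∈ W2
    · rw [if_pos hw2, ← h1.1]
      exact h3 hw
    · rw [if_neg hw2, dist_self]
      exact hε

theorem janiszewski {U V : Set ℂ} (hU : IsOpen U) (hV : IsOpen V) (cU : IsPreconnected U)
    (cV : IsPreconnected V) (huv : U ∪ V = univ) : IsPreconnected (U ∩ V) := by
  classical
  intro u v hu hv hcov ⟨p, hp, hpu⟩ ⟨q, hq, hqv⟩
  by_contra hne
  rw [Set.not_nonempty_iff_eq_empty] at hne
  have hdisj : ∀ z, z ∈ U ∩ V → z ∈ u → z ∉ v := by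
    intro z hz hzu hzv
    have : z ∈ U ∩ V ∩ (u ∩ v) := ⟨hz, hzu, hzv⟩
    rw [hne] at this
    exact this
  set W2 : Set ℂ := U ∩ V ∩ v with hW2
  have hW2o : IsOpen W2 := (hU.inter hV).inter hv
  obtain ⟨χ, hχ0, hχ1, -⟩ := exists_continuous_zero_one_of_isClosed (X := ℂ) hU.isClosed_compl
    hV.isClosed_compl (by
      rw [Set.disjoint_left]
      intro z hz hz'
      have : z ∈ U ∪ V := by rw [huv]; trivial
      rcases this with h | h
      · exact hz h
      · exact hz' h)
  have hW1 : ∀ z ∈ U, z ∈ V → z ∉ W2 → ∀ᶠ w in 𝓝 z, w ∉ W2 := by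
    intro z hz hz' hzW
    have hzu : z ∈ u := by
      rcases hcov ⟨hz, hz'⟩ with h | h
      · exact h
      · exact absurd ⟨⟨hz, hz'⟩, h⟩ hzW
    filter_upwards [((hU.inter hV).inter hu).mem_nhds ⟨⟨hz, hz'⟩, hzu⟩] with w hw hw2
    exact hdisj w hw.1 hw.2 hw2.2
  set a : ℂ → ℝ := fun z => if z ∈ W2 then χ z else 1 with ha
  set b : ℂ → ℝ := fun z => if z ∈ W2 then χ z else 0 with hb
  have hac : ContinuousOn a U := by
    refine a01_glue χ.continuous hW2o 1 fun z hz => ?_
    by_cases hzV : z ∈ V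
    · by_cases hzW : z ∈ W2
      · exact Or.inl hzW
      · exact Or.inr (Or.inl (hW1 z hz hzV hzW))
    · exact Or.inr (Or.inr ⟨hχ1 hzV, fun h => hzV h.1.2⟩)
  have hbc : ContinuousOn b V := by
    refine a01_glue χ.continuous hW2o 0 fun z hz => ?_
    by_cases hzU : z ∈ U
    · by_cases hzW : z ∈ W2
      · exact Or.inl hzW
      · exact Or.inr (Or.inl (hW1 z hzU hz hzW))
    · exact Or.inr (Or.inr ⟨hχ0 hzU, fun h => hzU h.1.1⟩)
  set g : ℂ → ℂ := fun z => if z ∈ W2 then exp (2 * Real.pi * I * (χ z : ℂ)) else 1 with hg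
  have hga : ∀ z, g z = exp (2 * Real.pi * I * (a z : ℂ)) := by
    intro z
    by_cases hz : z ∈ W2
    · simp only [hg, ha, if_pos hz]
    · simp only [hg, ha, if_neg hz, Complex.ofReal_one, mul_one, Complex.exp_two_pi_mul_I]
  have hgb : ∀ z, g z = exp (2 * Real.pi * I * (b z : ℂ)) := by
    intro z
    by_cases hz : z ∈ W2
    · simp only [hg, hb, if_pos hz]
    · simp only [hg, hb, if_neg hz, Complex.ofReal_zero, mul_zero, Complex.exp_zero]
  have hgU : ContinuousOn g U := by
    have h1 : ContinuousOn (fun z => exp (2 * Real.pi * I * (a z : ℂ))) U :=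
      Complex.continuous_exp.comp_continuousOn
        (continuousOn_const.mul (Complex.continuous_ofReal.comp_continuousOn hac))
    exact h1.congr fun z _ => hga z
  have hgV : ContinuousOn g V := by
    have h1 : ContinuousOn (fun z => exp (2 * Real.pi * I * (b z : ℂ))) V :=
      Complex.continuous_exp.comp_continuousOn
        (continuousOn_const.mul (Complex.continuous_ofReal.comp_continuousOn hbc))
    exact h1.congr fun z _ => hgb z
  have hgc : ContinuousOn g univ := by
    rw [← huv]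
    exact hgU.union_of_isOpen hgV hU hV
  have hsc : IsSimplyConnected (univ : Set ℂ) := by
    have : ContractibleSpace (univ : Set ℂ) := convex_univ.contractibleSpace ⟨0, trivial⟩
    exact SimplyConnectedSpace.ofContractible _
  obtain ⟨θ, hθc, hθ⟩ := Complex.exists_continuousOn_eqOn_exp_comp hsc isOpen_univ hgc (by
    rintro ⟨z, -, hz⟩
    rw [hga z] at hz
    exact Complex.exp_ne_zero _ hz)
  have hpi : (0 : ℝ) < 2 * Real.pi := by positivity
  have hint : ∀ (c : ℂ → ℝ), (∀ z, g z = exp (2 * Real.pi * I * (c z : ℂ))) → ∀ z,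
      ∃ n : ℤ, (θ z).im / (2 * Real.pi) - c z = n := by
    intro c hc z
    have h1 : exp (θ z) = exp (2 * Real.pi * I * (c z : ℂ)) := by
      rw [← hc z]
      exact hθ (Set.mem_univ z)
    obtain ⟨n, hn⟩ := Complex.exp_eq_exp_iff_exists_int.1 h1
    refine ⟨n, ?_⟩
    have h2 := congrArg Complex.im hn
    have h3 : (2 * (Real.pi : ℂ) * I * (c z : ℂ)).im = 2 * Real.pi * c z := by
      simp
    have h4 : ((n : ℂ) * (2 * (Real.pi : ℂ) * I)).im = n * (2 * Real.pi) := by
      simp
    rw [Complex.add_im, h3, h4] at h2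
    rw [h2]
    field_simp
    ring
  have hθim : Continuous fun z => (θ z).im / (2 * Real.pi) := by
    have h1 : Continuous θ := continuousOn_univ.1 hθc
    exact (Complex.continuous_im.comp h1).div_const _
  have hA := a01_const cU (f := fun z => (θ z).im / (2 * Real.pi) - a z)
    (hθim.continuousOn.sub hac) (fun z _ => hint a hga z) hp.1 hq.1
  have hB := a01_const cV (f := fun z => (θ z).im / (2 * Real.pi) - b z)
    (hθim.continuousOn.sub hbc) (fun z _ => hint b hgb z) hp.2 hq.2
  have hpW : p ∉ W2 := fun h => hdisj p hp hpu h.2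
  have hqW : q ∈ W2 := ⟨hq, hqv⟩
  simp only [ha, hb, if_neg hpW, if_pos hqW] at hA hB
  linarith

end CF6

end

section

/-!
# A02: components of the complement of a bounded domain

All statements are elementary. Proofs:

* `exists_comps`: the set `{C | ∃ z ∈ Ωᶜ, C = connectedComponentIn Ωᶜ z}` is finite with `k`
  elements; enumerate it (`Finite.equivFin`, `Nat.card`/`encard`), components of a closed set are
  closed (`IsClosed.connectedComponentIn`? or: closure of the component inside the closed `Ωᶜ` is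
  preconnected, `IsPreconnected.subset_connectedComponentIn`), connected, pairwise disjoint or equal
  (`connectedComponentIn_disjoint`/`connectedComponentIn_eq`), they cover `Ωᶜ`.
* `meets`: otherwise `L i` is closed and its complement `closure Ω ∪ ⋃_{m ≠ i} L m` is closed (finite
  union), so `L i` is clopen, nonempty, so `L i = univ`, but `Ω` is nonempty.
* `union_conn`: `Ω ∪ ⋃_{i ∈ s} L i`: for every `i`, `Ω ∪ L i` is connected, because `L i` meets
  `closure Ω` (`IsPreconnected.union'`: if `x ∈ L i ∩ closure Ω` then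
  `Ω ∪ {x}` is preconnected (`IsPreconnected.subset_closure`) and `L i` is preconnected, both contain
  `x`); all contain a point of `Ω` (`isPreconnected_sUnion`/`isPreconnected_iUnion`). Open, since the
  complement is the finite union of the closed `L i`, `i ∉ s`.
* `unbdd`: `Ω ⊆ closedBall 0 R`. `{z | R < ‖z‖}` is preconnected (image of a rectangle under polar
  coordinates or Mathlib `isPreconnected_compl_closedBall`-like lemma for `1 < rank ℝ ℂ`,
  e.g. `IsConnected (closedBall 0 R)ᶜ`: search), contained in the finite disjoint union of the closed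
  `L i`, hence in exactly one of them, `L i0` (the sets `L i ∩ {R < ‖z‖}` are clopen in it;
  `IsPreconnected.subset_left_of_subset_union` style or `isPreconnected_iff_subset_of_disjoint_closed`
  with `L i0` and `⋃_{m ≠ i0} L m`).
  The other `L i` are contained in `closedBall 0 R`: compact.
* `sep`: for `i ≠ j` one of `L i`, `L j` is compact, the other is closed, disjoint:
  `Metric.infDist`/`IsCompact.exists_thickening...` (`Disjoint.exists_thickenings`), minimum over the
  finitely many pairs.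
* `infDist_eq`: `Ωᶜ = ⋃ L i`; `infDist x (⋃ ..)` is the minimum. Take `y ∈ Ωᶜ` with
  `dist x y = infDist x Ωᶜ` (`IsClosed.exists_infDist_eq_dist`), `y ∈ L i`.
* `core`: `{x ∈ Ω | ε ≤ infDist x Ωᶜ}` = `{x | ε ≤ infDist x Ωᶜ} ∩ closure Ω`-type argument: closed
  (`x ∉ Ω` has `infDist x Ωᶜ = 0 < ε`, so the condition `x ∈ Ω` is automatic) and bounded.
-/

open Complex Set Filter Topology Metric

namespace CF6

section

variable {k : ℕ} {Ω : Set ℂ} {L : Fin k → Set ℂ}

theorem a02a_closed {F : Set ℂ} (hF : IsClosed F) (z : ℂ) :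
    IsClosed (connectedComponentIn F z) := by
  by_cases hz : z ∈ F
  · have h1 : closure (connectedComponentIn F z) ⊆ connectedComponentIn F z := by
      apply IsPreconnected.subset_connectedComponentIn
      · exact isPreconnected_connectedComponentIn.closure
      · exact subset_closure (mem_connectedComponentIn hz)
      · exact closure_minimal (connectedComponentIn_subset F z) hF
    exact isClosed_of_closure_subset h1
  · rw [connectedComponentIn_eq_empty hz]
    exact isClosed_empty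

theorem exists_comps {k : ℕ} {Ω : Set ℂ} (h : KDomain k Ω) : ∃ L : Fin k → Set ℂ, Comps Ω L := by
  obtain ⟨h1, h2, h3, h4⟩ := h
  obtain ⟨C, hC⟩ : ∃ C : Set (Set ℂ), C = {D : Set ℂ | ∃ z ∈ Ωᶜ, D = connectedComponentIn Ωᶜ z} :=
    ⟨_, rfl⟩
  rw [← hC] at h4
  have hfin : C.Finite := finite_of_encard_eq_coe h4
  have : Finite C := hfin
  have hcard : Nat.card C = k := by
    rw [Nat.card_coe_set_eq, ncard_def, h4]
    rfl
  let e : Fin k ≃ C := (Finite.equivFinOfCardEq hcard).symm
  have he : ∀ i, ∃ z ∈ Ωᶜ, (e i : Set ℂ) = connectedComponentIn Ωᶜ z := by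
    intro i
    exact (Set.ext_iff.1 hC _).1 (e i).2
  refine ⟨fun i => (e i : Set ℂ), h1, h2, h3, ?_, ?_, ?_, ?_⟩
  · intro i
    obtain ⟨z, hz, hez⟩ := he i
    show IsClosed (e i : Set ℂ)
    rw [hez]
    exact a02a_closed h1.isClosed_compl z
  · intro i
    obtain ⟨z, hz, hez⟩ := he i
    show IsConnected (e i : Set ℂ)
    rw [hez]
    exact isConnected_connectedComponentIn_iff.2 hz
  · intro i j hij
    show Disjoint (e i : Set ℂ) (e j : Set ℂ)
    rw [disjoint_left]
    intro x hx hx'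
    apply hij
    apply e.injective
    apply Subtype.ext
    obtain ⟨z, hz, hez⟩ := he i
    obtain ⟨w, hw, hew⟩ := he j
    rw [hez] at hx ⊢
    rw [hew] at hx' ⊢
    rw [connectedComponentIn_eq hx, connectedComponentIn_eq hx']
  · ext x
    simp only [mem_iUnion]
    constructor
    · rintro ⟨i, hi⟩
      obtain ⟨z, hz, hez⟩ := he i
      rw [hez] at hi
      exact connectedComponentIn_subset _ _ hi
    · intro hx
      have hmem : connectedComponentIn Ωᶜ x ∈ C := by
        rw [hC]
        exact ⟨x, hx, rfl⟩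
      refine ⟨e.symm ⟨_, hmem⟩, ?_⟩
      rw [Equiv.apply_symm_apply]
      exact mem_connectedComponentIn hx

theorem Comps.meets (H : Comps Ω L) (i : Fin k) : (L i ∩ closure Ω).Nonempty := by
  by_contra hcon
  rw [not_nonempty_iff_eq_empty] at hcon
  have hdis : ∀ x, x ∈ L i → x ∉ closure Ω := fun x hx hx' => by
    have : x ∈ L i ∩ closure Ω := ⟨hx, hx'⟩
    rw [hcon] at this
    exact this
  have heq : (L i)ᶜ = closure Ω ∪ ⋃ m ∈ ({i}ᶜ : Set (Fin k)), L m := by
    ext x
    simp only [mem_compl_iff, mem_union, mem_iUnion, mem_singleton_iff, exists_prop]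
    constructor
    · intro hx
      by_cases hxΩ : x ∈ Ω
      · exact Or.inl (subset_closure hxΩ)
      · have : x ∈ ⋃ m, L m := by rw [H.union]; exact hxΩ
        obtain ⟨m, hm⟩ := mem_iUnion.1 this
        exact Or.inr ⟨m, fun hmi => hx (hmi ▸ hm), hm⟩
    · rintro (hx | ⟨m, hm, hxm⟩) hxi
      · exact hdis x hxi hx
      · exact disjoint_left.1 (H.disj m i hm) hxm hxi
  have hclosed : IsClosed (L i)ᶜ := by
    rw [heq]
    refine isClosed_closure.union ?_
    exact (toFinite _).isClosed_biUnion fun m _ => H.closed m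
  have hclopen : IsClopen (L i) := ⟨H.closed i, isClosed_compl_iff.1 hclosed⟩
  obtain ⟨x, hx⟩ := H.conn.nonempty
  rcases isClopen_iff.1 hclopen with h | h
  · obtain ⟨y, hy⟩ := (H.cconn i).nonempty
    rw [h] at hy
    exact hy
  · have hxi : x ∈ L i := by rw [h]; exact mem_univ x
    exact hdis x hxi (subset_closure hx)

theorem Comps.union_conn (H : Comps Ω L) (s : Set (Fin k)) :
    IsOpen (Ω ∪ ⋃ i ∈ s, L i) ∧ IsConnected (Ω ∪ ⋃ i ∈ s, L i) := by
  constructor
  · rw [← isClosed_compl_iff]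
    have heq : (Ω ∪ ⋃ i ∈ s, L i)ᶜ = ⋃ m ∈ sᶜ, L m := by
      ext x
      simp only [mem_compl_iff, mem_union, mem_iUnion, exists_prop, not_or, not_exists, not_and]
      constructor
      · rintro ⟨hx, hx'⟩
        have : x ∈ ⋃ m, L m := by rw [H.union]; exact hx
        obtain ⟨m, hm⟩ := mem_iUnion.1 this
        exact ⟨m, fun hms => hx' m hms hm, hm⟩
      · rintro ⟨m, hms, hm⟩
        constructor
        · have : x ∈ Ωᶜ := by rw [← H.union]; exact mem_iUnion.2 ⟨m, hm⟩
          exact this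
        · intro i hi hxi
          have hmi : m ≠ i := fun h => hms (h ▸ hi)
          exact disjoint_left.1 (H.disj m i hmi) hm hxi
    rw [heq]
    exact (toFinite _).isClosed_biUnion fun m _ => H.closed m
  · obtain ⟨x, hx⟩ := H.conn.nonempty
    refine ⟨⟨x, Or.inl hx⟩, ?_⟩
    refine isPreconnected_of_forall x ?_
    intro y hy
    rcases hy with hy | hy
    · exact ⟨Ω, subset_union_left, hx, hy, H.conn.isPreconnected⟩
    · simp only [mem_iUnion, exists_prop] at hy
      obtain ⟨i, hi, hyi⟩ := hy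
      obtain ⟨z, hz1, hz2⟩ := H.meets i
      have h1 : IsPreconnected (insert z Ω) :=
        H.conn.isPreconnected.subset_closure (subset_insert z Ω)
          (insert_subset hz2 subset_closure)
      have h2 : IsPreconnected (insert z Ω ∪ L i) :=
        IsPreconnected.union z (mem_insert z Ω) hz1 h1 (H.cconn i).isPreconnected
      refine ⟨insert z Ω ∪ L i, ?_, Or.inl (mem_insert_of_mem z hx), Or.inr hyi, h2⟩
      rintro w (hw | hw)
      · rcases mem_insert_iff.1 hw with hw | hw
        · rw [hw]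
          exact Or.inr (mem_biUnion hi hz1)
        · exact Or.inl hw
      · exact Or.inr (mem_biUnion hi hw)

theorem Comps.compl_conn (H : Comps Ω L) (i : Fin k) : IsOpen (L i)ᶜ ∧ IsConnected (L i)ᶜ := by
  have heq : (L i)ᶜ = Ω ∪ ⋃ m ∈ ({i}ᶜ : Set (Fin k)), L m := by
    ext x
    simp only [mem_compl_iff, mem_union, mem_iUnion, mem_singleton_iff, exists_prop]
    constructor
    · intro hx
      by_cases hxΩ : x ∈ Ω
      · exact Or.inl hxΩ
      · have : x ∈ ⋃ m, L m := by rw [H.union]; exact hxΩ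
        obtain ⟨m, hm⟩ := mem_iUnion.1 this
        exact Or.inr ⟨m, fun hmi => hx (hmi ▸ hm), hm⟩
    · rintro (hx | ⟨m, hm, hxm⟩) hxi
      · have : x ∈ Ωᶜ := by rw [← H.union]; exact mem_iUnion.2 ⟨i, hxi⟩
        exact this hx
      · exact disjoint_left.1 (H.disj m i hm) hxm hxi
  rw [heq]
  exact H.union_conn _

end

end CF6

end

section

/-!
# A10: integrals over polygonal chains

* `segInt_prim`: `t ↦ F (a + t (b - a))` has derivative `f (a + t (b-a)) * (b-a)` on `[0,1]`
  (`a + t (b - a) ∈ segment ℝ a b`), continuous integrand: `intervalIntegral.integral_eq_sub_of_hasDerivAt`.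
* `polyInt_prim`: telescoping sum (`Finset.sum_range_sub`).
* `segInt_sub`, `polyInt_sub`, `polyInt_const_mul`: linearity of the integral; the integrands are continuous on
  `[0,1]`, so interval integrable.
* `norm_polyInt_le`: `intervalIntegral.norm_integral_le_of_norm_le_const`.
* `isCompact_trace`: finite union of compact segments (`segment ℝ a b` is the image of `[0,1]`).
* `wind_locally_const`: `r = infDist w (trace p n) > 0` (if the trace is empty, `n = 0`, everything is `0`).
  For `‖w' - w‖ < r` the function `z ↦ log ((z - w')/(z - w))` (principal branch) is on the trace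
  differentiable with derivative `(z - w')⁻¹ - (z - w)⁻¹`, because
  `(z - w')/(z - w) = 1 - (w' - w)/(z - w)` has positive real part (`‖(w' - w)/(z - w)‖ < 1`), so it is in `slitPlane`.
  `polyInt_prim` and `p n = p 0` give `polyInt (fun z => (z-w')⁻¹ - (z-w)⁻¹) p n = 0`; `polyInt_sub`.
* `wind_infty`: `trace p n ⊆ closedBall 0 R`, `‖w‖ > R`: primitive `log (1 - z/w)` of `(z - w)⁻¹` on the trace
  (derivative `(-1/w)/(1 - z/w) = 1/(z - w)`), `re (1 - z/w) > 0`.
* `wind_noHole`: `N w = polyInt (fun z => (z - w)⁻¹) p n`. `A = {w ∈ Gᶜ | N w = 0}`, `B = {w ∈ Gᶜ | N w ≠ 0}`.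
  Since `N` is locally constant on the open set `(trace p n)ᶜ ⊇ Gᶜ`, both are closed; `B` is bounded by
  `wind_infty`, so compact. `NoHole` gives `B = ∅`.
-/

open Complex Set Filter Topology Metric

namespace CF6

theorem a10_mem_segment {a b : ℂ} {t : ℝ} (ht : t ∈ Icc (0 : ℝ) 1) :
    a + (t : ℂ) * (b - a) ∈ segment ℝ a b := by
  rw [segment_eq_image']
  exact ⟨t, ht, by simp [Complex.real_smul]⟩

theorem a10_continuousOn {f : ℂ → ℂ} {a b : ℂ} (hf : ContinuousOn f (segment ℝ a b)) :
    ContinuousOn (fun t : ℝ => f (a + (t : ℂ) * (b - a)) * (b - a)) (uIcc (0 : ℝ) 1) := by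
  have hc : Continuous (fun t : ℝ => a + (t : ℂ) * (b - a)) := by fun_prop
  refine ContinuousOn.mul (hf.comp hc.continuousOn ?_) continuousOn_const
  intro t ht
  rw [uIcc_of_le zero_le_one] at ht
  exact a10_mem_segment ht

theorem a10_seg_sub_trace {p : ℕ → ℂ} {n i : ℕ} (hi : i ∈ Finset.range n) :
    segment ℝ (p i) (p (i + 1)) ⊆ trace p n :=
  fun _ hz => mem_biUnion (s := ((Finset.range n : Finset ℕ) : Set ℕ)) hi hz

theorem segInt_prim {f F : ℂ → ℂ} {a b : ℂ} (hF : ∀ z ∈ segment ℝ a b, HasDerivAt F (f z) z)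
    (hf : ContinuousOn f (segment ℝ a b)) : segInt f a b = F b - F a := by
  have key : ∫ t in (0 : ℝ)..1, f (a + t * (b - a)) * (b - a) =
      F (a + ((1 : ℝ) : ℂ) * (b - a)) - F (a + ((0 : ℝ) : ℂ) * (b - a)) := by
    refine intervalIntegral.integral_eq_sub_of_hasDerivAt
      (f := fun t : ℝ => F (a + t * (b - a))) ?_ (a10_continuousOn hf).intervalIntegrable
    intro t ht
    rw [uIcc_of_le zero_le_one] at ht
    have h1 := hF _ (a10_mem_segment (a := a) (b := b) ht)
    have h2 : HasDerivAt (fun t : ℝ => a + (t : ℂ) * (b - a)) (b - a) t := by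
      have := ((Complex.ofRealCLM.hasDerivAt (x := t)).mul_const (b - a)).const_add a
      simpa using this
    exact h1.comp t h2
  unfold segInt
  rw [key]
  congr 2 <;> push_cast <;> ring

theorem polyInt_prim {f F : ℂ → ℂ} {p : ℕ → ℂ} {n : ℕ}
    (hF : ∀ z ∈ trace p n, HasDerivAt F (f z) z) (hf : ContinuousOn f (trace p n)) :
    polyInt f p n = F (p n) - F (p 0) := by
  unfold polyInt
  rw [← Finset.sum_range_sub (fun i => F (p i)) n]
  refine Finset.sum_congr rfl fun i hi => ?_
  exact segInt_prim (fun z hz => hF z (a10_seg_sub_trace hi hz)) (hf.mono (a10_seg_sub_trace hi))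

theorem isCompact_trace (p : ℕ → ℂ) (n : ℕ) : IsCompact (trace p n) := by
  unfold trace
  refine (Finset.range n).isCompact_biUnion fun i _ => ?_
  rw [segment_eq_image']
  exact isCompact_Icc.image (by fun_prop)

theorem polyInt_congr {f g : ℂ → ℂ} {p : ℕ → ℂ} {n : ℕ} (h : EqOn f g (trace p n)) :
    polyInt f p n = polyInt g p n := by
  unfold polyInt segInt
  refine Finset.sum_congr rfl fun i hi => ?_
  refine intervalIntegral.integral_congr fun t ht => ?_
  rw [uIcc_of_le zero_le_one] at ht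
  show f (p i + t * (p (i + 1) - p i)) * (p (i + 1) - p i) =
    g (p i + t * (p (i + 1) - p i)) * (p (i + 1) - p i)
  rw [h (a10_seg_sub_trace hi (a10_mem_segment ht))]

theorem polyInt_sub {f g : ℂ → ℂ} {p : ℕ → ℂ} {n : ℕ} (hf : ContinuousOn f (trace p n))
    (hg : ContinuousOn g (trace p n)) :
    polyInt (fun z => f z - g z) p n = polyInt f p n - polyInt g p n := by
  unfold polyInt segInt
  rw [← Finset.sum_sub_distrib]
  refine Finset.sum_congr rfl fun i hi => ?_
  rw [← intervalIntegral.integral_sub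
    (a10_continuousOn (hf.mono (a10_seg_sub_trace hi))).intervalIntegrable
    (a10_continuousOn (hg.mono (a10_seg_sub_trace hi))).intervalIntegrable]
  refine intervalIntegral.integral_congr fun t _ => ?_
  show (f (p i + t * (p (i + 1) - p i)) - g (p i + t * (p (i + 1) - p i))) *
    (p (i + 1) - p i) = _
  ring

theorem polyInt_const_mul {f : ℂ → ℂ} {p : ℕ → ℂ} {n : ℕ} (c : ℂ) :
    polyInt (fun z => c * f z) p n = c * polyInt f p n := by
  unfold polyInt segInt
  rw [Finset.mul_sum]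
  refine Finset.sum_congr rfl fun i hi => ?_
  rw [← intervalIntegral.integral_const_mul]
  refine intervalIntegral.integral_congr fun t _ => ?_
  show (c * f (p i + t * (p (i + 1) - p i))) * (p (i + 1) - p i) = _
  ring

theorem norm_polyInt_le {f : ℂ → ℂ} {p : ℕ → ℂ} {n : ℕ} {M : ℝ}
    (h : ∀ z ∈ trace p n, ‖f z‖ ≤ M) :
    ‖polyInt f p n‖ ≤ M * ∑ i ∈ Finset.range n, ‖p (i + 1) - p i‖ := by
  unfold polyInt segInt
  rw [Finset.mul_sum]
  refine (norm_sum_le _ _).trans (Finset.sum_le_sum fun i hi => ?_)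
  have h1 := intervalIntegral.norm_integral_le_of_norm_le_const (a := (0 : ℝ)) (b := 1)
    (f := fun t : ℝ => f (p i + t * (p (i + 1) - p i)) * (p (i + 1) - p i))
    (C := M * ‖p (i + 1) - p i‖) (fun t ht => by
      rw [uIoc_of_le zero_le_one] at ht
      rw [norm_mul]
      exact mul_le_mul_of_nonneg_right
        (h _ (a10_seg_sub_trace hi (a10_mem_segment ⟨ht.1.le, ht.2⟩))) (norm_nonneg _))
  simpa using h1

end CF6

end

section

/-!
# A14: Arzela-Ascoli and Montel on open subsets of the plane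

PROOF of `arzela` (ultrafilter + diagonal). `u = Filter.hyperfilter ℕ` (an ultrafilter on `ℕ` finer than
`cofinite = atTop`). For `z ∈ U` all `f n z` lie in a compact ball, so `g z = lim_u f n z` exists
(`IsCompact.ultrafilter_le_nhds`). CLAIM: for `Q ⊆ U` compact, `ε > 0`: `{n | ∀ z ∈ Q, ‖f n z - g z‖ ≤ ε} ∈ u`. Cover `Q`
by finitely many balls `ball zi ri` with `‖f n w - f n zi‖ ≤ ε/3` for `w ∈ ball zi ri`, all `n`; taking limits
`‖g w - g zi‖ ≤ ε/3`; intersect the finitely many sets `{n | ‖f n zi - g zi‖ ≤ ε/3} ∈ u`.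
`Q m = {z | ‖z‖ ≤ m ∧ ball z (1/(m+1)) ⊆ U}` is compact (`{z | ball z r ⊆ U}` is closed), contained in `U`, increasing,
every compact subset of `U` is contained in some `Q m` (`IsCompact.exists_thickening_subset_open`).
Sets of `u` are infinite, so one finds `s` strictly increasing with `s m ∈ {n | ∀ z ∈ Q m, ‖f n z - g z‖ ≤ 1/(m+1)}`
(`Filter.extraction...`: e.g. `exists_strictMono_of_frequently`-style recursion; `∃ᶠ n in atTop` for each `m`:
`Filter.extraction_forall_of_frequently`). So `f (s m) → g` uniformly on compacts: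
`tendstoLocallyUniformlyOn_iff_forall_isCompact hU`.
`montel`: closedBall z (2r) ⊆ U, `‖f n‖ ≤ M` there; Cauchy estimate for the derivative on `ball z r`: `≤ M/r`; so
`‖f n w - f n z‖ ≤ (M/r) ‖w - z‖` (convex ball): locally equicontinuous. Limit holomorphic:
`TendstoLocallyUniformlyOn.differentiableOn`.
-/

open Complex Set Filter Topology Metric

namespace CF6

theorem arzela {U : Set ℂ} (hU : IsOpen U) {f : ℕ → ℂ → ℂ} (hb : ∀ z ∈ U, ∃ M : ℝ, ∀ n, ‖f n z‖ ≤ M)
    (he : ∀ z ∈ U, ∀ ε > (0 : ℝ), ∃ r > (0 : ℝ), ∀ n, ∀ w ∈ ball z r ∩ U, ‖f n w - f n z‖ ≤ ε) :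
    ∃ s : ℕ → ℕ, StrictMono s ∧ ∃ g : ℂ → ℂ,
      TendstoLocallyUniformlyOn (fun n => f (s n)) g atTop U := by
  classical
  set u : Ultrafilter ℕ := Filter.hyperfilter ℕ with hu
  have hlim : ∀ z ∈ U, ∃ y : ℂ, Tendsto (fun n => f n z) u (𝓝 y) := by
    intro z hz
    obtain ⟨M, hM⟩ := hb z hz
    have hc : IsCompact (closedBall (0 : ℂ) M) := isCompact_closedBall 0 M
    obtain ⟨y, -, hy⟩ := hc.ultrafilter_le_nhds (u.map fun n => f n z) (by
      rw [le_principal_iff, Ultrafilter.mem_coe, Ultrafilter.mem_map]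
      refine Filter.univ_mem' fun n => ?_
      simpa using hM n)
    exact ⟨y, hy⟩
  choose! g hg using hlim
  have hgeq : ∀ z ∈ U, ∀ ε > (0 : ℝ), ∃ r > (0 : ℝ), (∀ n, ∀ w ∈ ball z r ∩ U, ‖f n w - f n z‖ ≤ ε) ∧
      ∀ w ∈ ball z r ∩ U, ‖g w - g z‖ ≤ ε := by
    intro z hz ε hε
    obtain ⟨r, hr, h⟩ := he z hz ε hε
    refine ⟨r, hr, h, fun w hw => ?_⟩
    have ht : Tendsto (fun n => ‖f n w - f n z‖) u (𝓝 ‖g w - g z‖) :=
      ((hg w hw.2).sub (hg z hz)).norm
    exact le_of_tendsto ht (Filter.Eventually.of_forall fun n => h n w hw)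
  have claim : ∀ Q ⊆ U, IsCompact Q → ∀ ε > (0 : ℝ), ∀ᶠ n in (u : Filter ℕ), ∀ z ∈ Q,
      ‖f n z - g z‖ ≤ ε := by
    intro Q hQU hQ ε hε
    refine hQ.induction_on (p := fun s => ∀ᶠ n in (u : Filter ℕ), ∀ z ∈ s, ‖f n z - g z‖ ≤ ε)
      ?_ ?_ ?_ ?_
    · exact Filter.Eventually.of_forall fun n z hz => absurd hz (Set.notMem_empty z)
    · intro s t hst ht
      exact ht.mono fun n hn z hz => hn z (hst hz)
    · intro s t hs ht
      filter_upwards [hs, ht] with n h1 h2 z hz
      rcases hz with hz | hz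
      · exact h1 z hz
      · exact h2 z hz
    · intro x hx
      obtain ⟨r, hr, h1, h2⟩ := hgeq x (hQU hx) (ε / 3) (by positivity)
      refine ⟨ball x r ∩ U, mem_nhdsWithin_of_mem_nhds
        (Filter.inter_mem (ball_mem_nhds x hr) (hU.mem_nhds (hQU hx))), ?_⟩
      have h3 : ∀ᶠ n in (u : Filter ℕ), ‖f n x - g x‖ < ε / 3 := by
        have := (hg x (hQU hx)).sub_const (g x)
        rw [sub_self] at this
        have h4 := this.norm
        rw [norm_zero] at h4
        exact h4.eventually (gt_mem_nhds (by positivity))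
      filter_upwards [h3] with n hn z hz
      calc ‖f n z - g z‖ = ‖(f n z - f n x) + (f n x - g x) - (g z - g x)‖ := by ring_nf
        _ ≤ ‖(f n z - f n x) + (f n x - g x)‖ + ‖g z - g x‖ := norm_sub_le _ _
        _ ≤ (‖f n z - f n x‖ + ‖f n x - g x‖) + ‖g z - g x‖ := by
          gcongr
          exact norm_add_le _ _
        _ ≤ (ε / 3 + ε / 3) + ε / 3 :=
          add_le_add (add_le_add (h1 n z hz) hn.le) (h2 z hz)
        _ = ε := by ring
  have : LocallyCompactSpace U := hU.locallyCompactSpace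
  let K : CompactExhaustion U := CompactExhaustion.choice U
  set Kc : ℕ → Set ℂ := fun m => Subtype.val '' (K m) with hKc
  have hKsub : ∀ m, Kc m ⊆ U := by
    rintro m _ ⟨x, -, rfl⟩
    exact x.2
  have hKcomp : ∀ m, IsCompact (Kc m) := fun m => (K.isCompact m).image continuous_subtype_val
  have hfreq : ∀ m : ℕ, ∃ᶠ n in atTop, ∀ z ∈ Kc m, ‖f n z - g z‖ ≤ 1 / ((m : ℝ) + 1) := by
    intro m
    have h1 := claim (Kc m) (hKsub m) (hKcomp m) (1 / ((m : ℝ) + 1)) (by positivity)
    have h2 := h1.frequently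
    refine h2.filter_mono ?_
    rw [← Nat.cofinite_eq_atTop]
    exact Filter.hyperfilter_le_cofinite
  obtain ⟨s, hs, hsm⟩ := Filter.extraction_forall_of_frequently hfreq
  refine ⟨s, hs, g, ?_⟩
  rw [tendstoLocallyUniformlyOn_iff_forall_isCompact hU]
  intro Q hQU hQ
  have hQ' : IsCompact ((Subtype.val : U → ℂ) ⁻¹' Q) := by
    rw [Subtype.isCompact_iff, Subtype.image_preimage_coe, Set.inter_eq_right.mpr hQU]
    exact hQ
  obtain ⟨m0, hm0⟩ := K.exists_superset_of_isCompact hQ'
  rw [Metric.tendstoUniformlyOn_iff]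
  intro ε hε
  obtain ⟨m1, hm1⟩ := exists_nat_one_div_lt hε
  filter_upwards [Filter.eventually_ge_atTop (max m0 m1)] with m hm z hz
  have hzK : z ∈ Kc m := ⟨⟨z, hQU hz⟩, K.subset ((le_max_left _ _).trans hm) (hm0 hz), rfl⟩
  have h1 := hsm m z hzK
  have h2 : 1 / ((m : ℝ) + 1) ≤ 1 / ((m1 : ℝ) + 1) := by
    apply one_div_le_one_div_of_le (by positivity)
    have : (m1 : ℝ) ≤ m := by exact_mod_cast (le_max_right _ _).trans hm
    linarith
  rw [dist_comm, dist_eq_norm]
  exact lt_of_le_of_lt (h1.trans h2) hm1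

end CF6

end

section

/-!
# A14: Arzela-Ascoli and Montel on open subsets of the plane

PROOF of `arzela` (ultrafilter + diagonal). `u = Filter.hyperfilter ℕ` (an ultrafilter on `ℕ` finer than
`cofinite = atTop`). For `z ∈ U` all `f n z` lie in a compact ball, so `g z = lim_u f n z` exists
(`IsCompact.ultrafilter_le_nhds`). CLAIM: for `Q ⊆ U` compact, `ε > 0`: `{n | ∀ z ∈ Q, ‖f n z - g z‖ ≤ ε} ∈ u`. Cover `Q`
by finitely many balls `ball zi ri` with `‖f n w - f n zi‖ ≤ ε/3` for `w ∈ ball zi ri`, all `n`; taking limits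
`‖g w - g zi‖ ≤ ε/3`; intersect the finitely many sets `{n | ‖f n zi - g zi‖ ≤ ε/3} ∈ u`.
`Q m = {z | ‖z‖ ≤ m ∧ ball z (1/(m+1)) ⊆ U}` is compact (`{z | ball z r ⊆ U}` is closed), contained in `U`, increasing,
every compact subset of `U` is contained in some `Q m` (`IsCompact.exists_thickening_subset_open`).
Sets of `u` are infinite, so one finds `s` strictly increasing with `s m ∈ {n | ∀ z ∈ Q m, ‖f n z - g z‖ ≤ 1/(m+1)}`
(`Filter.extraction...`: e.g. `exists_strictMono_of_frequently`-style recursion; `∃ᶠ n in atTop` for each `m`: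
`Filter.extraction_forall_of_frequently`). So `f (s m) → g` uniformly on compacts:
`tendstoLocallyUniformlyOn_iff_forall_isCompact hU`.
`montel`: closedBall z (2r) ⊆ U, `‖f n‖ ≤ M` there; Cauchy estimate for the derivative on `ball z r`: `≤ M/r`; so
`‖f n w - f n z‖ ≤ (M/r) ‖w - z‖` (convex ball): locally equicontinuous. Limit holomorphic:
`TendstoLocallyUniformlyOn.differentiableOn`.
-/

open Complex Set Filter Topology Metric

namespace CF6

theorem montel {U : Set ℂ} (hU : IsOpen U) {f : ℕ → ℂ → ℂ} (hd : ∀ n, DifferentiableOn ℂ (f n) U)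
    (hb : ∀ Q ⊆ U, IsCompact Q → ∃ M : ℝ, ∀ n, ∀ z ∈ Q, ‖f n z‖ ≤ M) :
    ∃ s : ℕ → ℕ, StrictMono s ∧ ∃ g : ℂ → ℂ,
      TendstoLocallyUniformlyOn (fun n => f (s n)) g atTop U ∧ DifferentiableOn ℂ g U := by
  obtain ⟨s, hs, g, hg⟩ := arzela hU (f := f) (by
    intro z hz
    obtain ⟨M, hM⟩ := hb {z} (by simpa using hz) isCompact_singleton
    exact ⟨M, fun n => hM n z rfl⟩) (by
    intro z hz ε hε
    obtain ⟨ρ, hρ, hρU⟩ := Metric.isOpen_iff.mp hU z hz
    set r : ℝ := ρ / 3 with hr
    have hr0 : 0 < r := by positivity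
    have hsub : closedBall z (2 * r) ⊆ U :=
      (closedBall_subset_ball (by rw [hr]; linarith)).trans hρU
    obtain ⟨M, hM⟩ := hb _ hsub (isCompact_closedBall z (2 * r))
    set M' : ℝ := |M| + 1 with hM'
    have hM'0 : 0 < M' := by positivity
    have hM1 : ∀ n, ∀ w ∈ closedBall z (2 * r), ‖f n w‖ ≤ M' := fun n w hw =>
      (hM n w hw).trans ((le_abs_self M).trans (by rw [hM']; linarith))
    refine ⟨min r (ε * r / M'), lt_min hr0 (by positivity), fun n w hw => ?_⟩
    have hw1 : w ∈ ball z r := ball_subset_ball (min_le_left _ _) hw.1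
    have hw2 : ‖w - z‖ < ε * r / M' := by
      have := ball_subset_ball (min_le_right _ _) hw.1
      rwa [mem_ball, dist_eq_norm] at this
    have hder : ∀ x ∈ ball z r, ‖deriv (f n) x‖ ≤ M' / r := by
      intro x hx
      have hsub2 : closedBall x r ⊆ closedBall z (2 * r) := by
        intro y hy
        rw [mem_closedBall] at hy ⊢
        rw [mem_ball] at hx
        calc dist y z ≤ dist y x + dist x z := dist_triangle _ _ _
          _ ≤ r + r := add_le_add hy hx.le
          _ = 2 * r := by ring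
      refine Complex.norm_deriv_le_of_forall_mem_sphere_norm_le hr0 ?_ ?_
      · refine DifferentiableOn.diffContOnCl ?_
        rw [closure_ball x hr0.ne']
        exact (hd n).mono (hsub2.trans hsub)
      · intro y hy
        exact hM1 n y (hsub2 (sphere_subset_closedBall hy))
    have hsub3 : ball z r ⊆ U :=
      (ball_subset_closedBall.trans (closedBall_subset_closedBall (by linarith))).trans hsub
    have hlip := (convex_ball z r).norm_image_sub_le_of_norm_deriv_le (f := f n)
      (fun x hx => ((hd n).differentiableAt (hU.mem_nhds (hsub3 hx)))) hder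
      (mem_ball_self hr0) hw1
    calc ‖f n w - f n z‖ ≤ M' / r * ‖w - z‖ := hlip
      _ ≤ M' / r * (ε * r / M') := by gcongr
      _ = ε := by field_simp)
  refine ⟨s, hs, g, hg, ?_⟩
  exact hg.differentiableOn (Filter.Eventually.of_forall fun n => hd (s n)) hU

end CF6

end

section

/-!
# A15: Hurwitz theorems and univalent functions

* `hurwitz_local`: `g` holomorphic on `U`, not constant near `a`; then small closed discs `closedBall a r ⊆ U` have
  `g ≠ g a` on `sphere a r` (isolated zeros of `g - g a`: `AnalyticAt.eventually_eq_zero_or_eventually_ne_zero`); let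
  `m = min ‖g - g a‖ > 0` on the sphere. For `n` large `‖f n z - f n a‖ ≥ m/2` on the sphere, and
  `‖f n a - g a‖ < m/8`; `DiffContOnCl.ball_subset_image_closedBall` (for `f n`, `ε = m/2`) gives
  `ball (f n a) (m/4) ⊆ f n '' closedBall a r`, which contains `g a`. (The hypothesis
  `∃ᶠ z in 𝓝 a, f n z ≠ f n a`: if `f n` were constant near `a` it would be constant on the ball (identity
  theorem), contradicting `‖f n z - f n a‖ ≥ m/2` on the sphere.)
* `hurwitz_inj`: let `g a = g b`, `a ≠ b`. By the identity theorem on the preconnected open `U` and `hnc`, `g` is not constant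
  near `a` or `b`. Take disjoint discs around `a`, `b` with radius `< ‖a - b‖/2`: for `n` large `f n` takes the value
  `g a` in both, contradiction.
* `hurwitz_zero`: if `g` has a zero `a` and is not identically `0` on `U`: not constant near `a`; then `f n` takes the value `0`.
* `univ_open`: `f` is not locally constant at any point of `U` (injective), so
  `AnalyticAt.eventually_constant_or_nhds_le_map_nhds` gives that `f` is open at each point.
* `univ_inverse`: `g = ` inverse (`Function.invFunOn f U`), continuous on `f '' U` by `univ_open`. The points where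
  `deriv f z = 0` are isolated in `U` (`deriv f` is analytic and not locally zero: otherwise `f` is locally constant).
  At `f z` with `deriv f z ≠ 0`: `HasStrictDerivAt`-inverse (`HasStrictDerivAt.of_local_left_inverse` or
  `HasDerivAt.of_local_left_inverse`) gives differentiability of `g`. At the other points `w0 = f z0`: `g` is continuous at
  `w0` and differentiable on a punctured neighbourhood, so differentiable at `w0`
  (`Complex.analyticAt_of_differentiable_on_punctured_nhds_of_continuousAt`).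
* `univ_deriv`: chain rule for `g (f z) = z`.
-/

open Complex Set Filter Topology Metric

namespace CF6

theorem a15b_an {U : Set ℂ} (hU : IsOpen U) {f : ℂ → ℂ} (hd : DifferentiableOn ℂ f U) {z : ℂ}
    (hz : z ∈ U) : AnalyticAt ℂ f z :=
  hd.analyticAt (hU.mem_nhds hz)

theorem a15b_not_const {U : Set ℂ} (hU : IsOpen U) {f : ℂ → ℂ} (hi : InjOn f U) {z : ℂ}
    (hz : z ∈ U) : ¬ ∀ᶠ z' in 𝓝 z, f z' = f z := by
  intro h
  have h1 : ∀ᶠ z' in 𝓝[≠] z, f z' = f z ∧ z' ∈ U ∧ z' ≠ z := by
    filter_upwards [h.filter_mono nhdsWithin_le_nhds,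
      mem_nhdsWithin_of_mem_nhds (hU.mem_nhds hz),
      (self_mem_nhdsWithin : {z}ᶜ ∈ 𝓝[≠] z)] with z' a b c
    exact ⟨a, b, c⟩
  obtain ⟨z', h2, h3, h4⟩ := h1.exists
  exact h4 (hi h3 hz h2)

theorem univ_open {U V : Set ℂ} (hV : IsOpen V) (hs : V ⊆ U) (hU : IsOpen U) {f : ℂ → ℂ}
    (hd : DifferentiableOn ℂ f U) (hi : InjOn f U) : IsOpen (f '' V) := by
  rw [isOpen_iff_mem_nhds]
  rintro _ ⟨z, hz, rfl⟩
  rcases (a15b_an hU hd (hs hz)).eventually_constant_or_nhds_le_map_nhds with h | h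
  · exact absurd h (a15b_not_const hU hi (hs hz))
  · exact h (image_mem_map (hV.mem_nhds hz))

theorem a15b_deriv_ne {U : Set ℂ} (hU : IsOpen U) {f : ℂ → ℂ} (hd : DifferentiableOn ℂ f U)
    (hi : InjOn f U) {z : ℂ} (hz : z ∈ U) : ∀ᶠ z' in 𝓝[≠] z, deriv f z' ≠ 0 := by
  rcases (a15b_an hU hd hz).deriv.eventually_eq_zero_or_eventually_ne_zero with h | h
  · exfalso
    apply a15b_not_const hU hi hz
    obtain ⟨r, hr, hball⟩ := Metric.eventually_nhds_iff_ball.1
      (h.and (hU.mem_nhds hz : ∀ᶠ z' in 𝓝 z, z' ∈ U))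
    filter_upwards [ball_mem_nhds z hr] with z' hz'
    have hdb : DifferentiableOn ℂ f (ball z r) := hd.mono fun y hy => (hball y hy).2
    exact isOpen_ball.is_const_of_deriv_eq_zero (convex_ball z r).isPreconnected hdb
      (fun y hy => (hball y hy).1) hz' (mem_ball_self hr)
  · exact h

theorem univ_inverse {U : Set ℂ} (hU : IsOpen U) {f : ℂ → ℂ} (hd : DifferentiableOn ℂ f U)
    (hi : InjOn f U) :
    ∃ g : ℂ → ℂ, DifferentiableOn ℂ g (f '' U) ∧ (∀ z ∈ U, g (f z) = z) ∧
      (∀ w ∈ f '' U, g w ∈ U ∧ f (g w) = w) := by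
  let g := Function.invFunOn f U
  have hl : ∀ z ∈ U, g (f z) = z := fun z hz => hi.leftInvOn_invFunOn hz
  have hr : ∀ w ∈ f '' U, g w ∈ U ∧ f (g w) = w := fun w hw =>
    ⟨Function.invFunOn_mem hw, Function.invFunOn_eq hw⟩
  have hopen : IsOpen (f '' U) := univ_open hU Subset.rfl hU hd hi
  have hcont : ∀ w ∈ f '' U, ContinuousAt g w := by
    rintro _ ⟨z, hz, rfl⟩
    intro N hN
    rw [hl z hz] at hN
    have h1 : f '' (interior N ∩ U) ∈ 𝓝 (f z) :=
      (univ_open (isOpen_interior.inter hU) inter_subset_right hU hd hi).mem_nhds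
        ⟨z, ⟨mem_interior_iff_mem_nhds.2 hN, hz⟩, rfl⟩
    rw [mem_map]
    filter_upwards [h1]
    rintro _ ⟨y, ⟨hy1, hy2⟩, rfl⟩
    rw [mem_preimage, hl y hy2]
    exact interior_subset hy1
  refine ⟨g, ?_, hl, hr⟩
  intro w hw
  have hz0 := (hr w hw).1
  have htend : Tendsto g (𝓝[≠] w) (𝓝[≠] (g w)) := by
    apply tendsto_nhdsWithin_of_tendsto_nhds_of_eventually_within
    · exact (hcont w hw).tendsto.mono_left nhdsWithin_le_nhds
    · filter_upwards [mem_nhdsWithin_of_mem_nhds (hopen.mem_nhds hw),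
        (self_mem_nhdsWithin : {w}ᶜ ∈ 𝓝[≠] w)] with w' h1 h2 h3
      apply h2
      rw [mem_singleton_iff] at h3 ⊢
      rw [← (hr w' h1).2, h3, (hr w hw).2]
  have hpd : ∀ᶠ w' in 𝓝[≠] w, DifferentiableAt ℂ g w' := by
    filter_upwards [htend.eventually (a15b_deriv_ne hU hd hi hz0),
      mem_nhdsWithin_of_mem_nhds (hopen.mem_nhds hw)]
      with w' h1 h2
    have h3 : HasDerivAt f (deriv f (g w')) (g w') :=
      (a15b_an hU hd (hr w' h2).1).differentiableAt.hasDerivAt
    refine (h3.of_local_left_inverse (hcont w' h2) h1 ?_).differentiableAt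
    filter_upwards [hopen.mem_nhds h2] with y hy
    exact (hr y hy).2
  exact (Complex.analyticAt_of_differentiable_on_punctured_nhds_of_continuousAt hpd
    (hcont w hw)).differentiableAt.differentiableWithinAt

theorem univ_deriv {U : Set ℂ} (hU : IsOpen U) {f : ℂ → ℂ} (hd : DifferentiableOn ℂ f U)
    (hi : InjOn f U) {z : ℂ} (hz : z ∈ U) : deriv f z ≠ 0 := by
  obtain ⟨g, hg, hl, hr⟩ := univ_inverse hU hd hi
  have hopen : IsOpen (f '' U) := univ_open hU Subset.rfl hU hd hi
  have h1 : HasDerivAt g (deriv g (f z)) (f z) :=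
    (hg.differentiableAt (hopen.mem_nhds ⟨z, hz, rfl⟩)).hasDerivAt
  have h2 : HasDerivAt f (deriv f z) z := (hd.differentiableAt (hU.mem_nhds hz)).hasDerivAt
  have h3 : HasDerivAt (g ∘ f) (deriv g (f z) * deriv f z) z := h1.comp z h2
  have h4 : HasDerivAt (g ∘ f) 1 z := by
    refine (hasDerivAt_id z).congr_of_eventuallyEq ?_
    filter_upwards [hU.mem_nhds hz] with y hy
    exact hl y hy
  have h5 := h3.unique h4
  intro h0
  rw [h0, mul_zero] at h5
  exact zero_ne_one h5

end CF6

end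

section

/-!
# A16: Moebius transformations of the disc, automorphisms of the disc

`mob a z = (z - a) / (1 - conj a * z)`.
* `mob_bound`: `‖1 - conj a * z‖^2 - ‖z - a‖^2 = (1 - ‖a‖^2)(1 - ‖z‖^2)`.
* `mob_inv`: direct computation (denominators are nonzero for `‖a‖ < 1`, `‖z‖ < 1`).
* `mob_hasDerivAt`: quotient rule, derivative `(1 - ‖a‖^2)/(1 - conj a * z)^2`.
* `disc_aut`: `b = T 0`, `S = mob b ∘ T` maps the ball bijectively and holomorphically onto itself, `S 0 = 0`;
  Schwarz: `‖S z‖ ≤ ‖z‖` (Mathlib `Complex.norm_le_norm_of_mapsTo_ball`), the inverse of `S` is holomorphic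
  (`univ_inverse`) and fixes `0`: `‖z‖ ≤ ‖S z‖`. So `‖S z‖ = ‖z‖`, and equality in Schwarz gives `S z = c z`, `‖c‖ = 1`
  (`Complex.affine_of_mapsTo_ball_of_norm_dslope_eq_div`-type lemma in Mathlib, or: `S z / z` has constant modulus,
  `deriv` of it vanishes by the open mapping theorem). Then `T z = mob (-b) (c z)`; conclusion in the form
  `T z = (c z + b)/(1 + conj b * c z)`.
-/

open Complex Set Filter Topology Metric

namespace CF6

theorem mob_denom {a z : ℂ} (ha : ‖a‖ < 1) (hz : ‖z‖ ≤ 1) : 1 - (starRingEnd ℂ) a * z ≠ 0 := by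
  intro h
  have h1 : (starRingEnd ℂ) a * z = 1 := (sub_eq_zero.1 h).symm
  have h2 : ‖a‖ * ‖z‖ = 1 := by
    have := congrArg norm h1
    rwa [norm_mul, RCLike.norm_conj, norm_one] at this
  nlinarith [norm_nonneg a, norm_nonneg z]

theorem a16_bound (a z : ℂ) :
    ‖1 - (starRingEnd ℂ) a * z‖ ^ 2 - ‖z - a‖ ^ 2 = (1 - ‖a‖ ^ 2) * (1 - ‖z‖ ^ 2) := by
  rw [← Complex.normSq_eq_norm_sq, ← Complex.normSq_eq_norm_sq, ← Complex.normSq_eq_norm_sq,
    ← Complex.normSq_eq_norm_sq]
  simp only [Complex.normSq_apply, Complex.sub_re, Complex.sub_im, Complex.mul_re, Complex.mul_im,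
    Complex.conj_re, Complex.conj_im, Complex.one_re, Complex.one_im]
  ring

theorem mob_mem {a z : ℂ} (ha : ‖a‖ < 1) (hz : ‖z‖ < 1) : ‖mob a z‖ < 1 := by
  have hd := mob_denom ha hz.le
  have hd' : 0 < ‖1 - (starRingEnd ℂ) a * z‖ := norm_pos_iff.2 hd
  rw [mob, norm_div, div_lt_one hd']
  have h := a16_bound a z
  have h1 : 0 < (1 - ‖a‖ ^ 2) * (1 - ‖z‖ ^ 2) := by
    apply mul_pos
    · nlinarith [norm_nonneg a]
    · nlinarith [norm_nonneg z]
  nlinarith [norm_nonneg (z - a)]

theorem a16_one_sub {a : ℂ} (ha : ‖a‖ < 1) : (1 - (starRingEnd ℂ) a * a) ≠ 0 := mob_denom ha ha.le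

theorem mob_inv {a z : ℂ} (ha : ‖a‖ < 1) (hz : ‖z‖ < 1) : mob (-a) (mob a z) = z := by
  have hd := mob_denom ha hz.le
  have hm := mob_mem ha hz
  have hd2 := mob_denom (a := -a) (z := mob a z) (by rwa [norm_neg]) hm.le
  have h1 : mob a z * (1 - (starRingEnd ℂ) a * z) = z - a := by
    rw [mob, div_mul_cancel₀ _ hd]
  rw [mob, div_eq_iff hd2, map_neg]
  have h2 : (mob a z - -a - z * (1 - -(starRingEnd ℂ) a * mob a z)) = 0 := by
    linear_combination h1
  exact sub_eq_zero.1 h2

theorem mob_hasDerivAt {a z : ℂ} (ha : ‖a‖ < 1) (hz : ‖z‖ < 1) :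
    HasDerivAt (mob a) ((1 - ‖a‖ ^ 2 : ℝ) / (1 - (starRingEnd ℂ) a * z) ^ 2) z := by
  have hd := mob_denom ha hz.le
  have h1 : HasDerivAt (fun z : ℂ => z - a) 1 z := (hasDerivAt_id z).sub_const a
  have h2 : HasDerivAt (fun z : ℂ => 1 - (starRingEnd ℂ) a * z) (-((starRingEnd ℂ) a)) z := by
    have := ((hasDerivAt_id z).const_mul ((starRingEnd ℂ) a)).const_sub 1
    simpa using this
  have h3 := h1.div h2 hd
  have e : ((1 - ‖a‖ ^ 2 : ℝ) : ℂ) = 1 - (starRingEnd ℂ) a * a := by
    rw [← Complex.normSq_eq_norm_sq]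
    push_cast
    rw [← Complex.normSq_eq_conj_mul_self]
  have e2 : (1 * (1 - (starRingEnd ℂ) a * z) - (z - a) * -(starRingEnd ℂ) a) =
      ((1 - ‖a‖ ^ 2 : ℝ) : ℂ) := by
    rw [e]; ring
  rw [e2] at h3
  exact h3

theorem mob_self (a : ℂ) : mob a a = 0 := by
  simp [mob]

theorem mob_zero (a : ℂ) : mob a 0 = -a := by
  simp [mob]

theorem a16_maps {a : ℂ} (ha : ‖a‖ < 1) : MapsTo (mob a) (ball 0 1) (ball 0 1) := by
  intro z hz
  rw [mem_ball_zero_iff] at hz ⊢
  exact mob_mem ha hz

theorem a16_inv' {a z : ℂ} (ha : ‖a‖ < 1) (hz : ‖z‖ < 1) : mob a (mob (-a) z) = z := by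
  have := mob_inv (a := -a) (by rwa [norm_neg]) hz
  rwa [neg_neg] at this

theorem a16_bij {a : ℂ} (ha : ‖a‖ < 1) : BijOn (mob a) (ball 0 1) (ball 0 1) := by
  refine ⟨a16_maps ha, ?_, ?_⟩
  · intro z hz w hw h
    rw [mem_ball_zero_iff] at hz hw
    rw [← mob_inv ha hz, ← mob_inv ha hw, h]
  · intro z hz
    have hz' := hz
    rw [mem_ball_zero_iff] at hz'
    exact ⟨mob (-a) z, a16_maps (by rwa [norm_neg]) hz, a16_inv' ha hz'⟩

theorem a16_diff {a : ℂ} (ha : ‖a‖ < 1) : DifferentiableOn ℂ (mob a) (ball 0 1) := by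
  intro z hz
  rw [mem_ball_zero_iff] at hz
  exact (mob_hasDerivAt ha hz).differentiableAt.differentiableWithinAt

/-- automorphisms which fix the centre are rotations -/
theorem a16_rot {S : ℂ → ℂ} (hd : DifferentiableOn ℂ S (ball 0 1))
    (hb : BijOn S (ball 0 1) (ball 0 1)) (h0 : S 0 = 0) :
    ∃ c : ℂ, ‖c‖ = 1 ∧ ∀ z ∈ ball (0 : ℂ) 1, S z = c * z := by
  obtain ⟨g, hgd, hg1, hg2⟩ := univ_inverse isOpen_ball hd hb.injOn
  rw [hb.image_eq] at hgd hg2
  have h0m : (0 : ℂ) ∈ ball (0 : ℂ) 1 := mem_ball_self one_pos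
  have hg0 : g 0 = 0 := by
    have := hg1 0 h0m
    rwa [h0] at this
  have hle : ∀ z ∈ ball (0 : ℂ) 1, ‖S z‖ ≤ ‖z‖ := fun z hz =>
    Complex.norm_le_norm_of_mapsTo_ball hd
      (fun w hw => ball_subset_closedBall (hb.mapsTo hw)) h0 (mem_ball_zero_iff.1 hz)
  have hge : ∀ z ∈ ball (0 : ℂ) 1, ‖g z‖ ≤ ‖z‖ := fun z hz =>
    Complex.norm_le_norm_of_mapsTo_ball hgd
      (fun w hw => ball_subset_closedBall (hg2 w hw).1) hg0 (mem_ball_zero_iff.1 hz)
  have heq : ∀ z ∈ ball (0 : ℂ) 1, ‖S z‖ = ‖z‖ := by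
    intro z hz
    refine le_antisymm (hle z hz) ?_
    have := hge (S z) (hb.mapsTo hz)
    rwa [hg1 z hz] at this
  have hhalf : (1 / 2 : ℂ) ∈ ball (0 : ℂ) 1 := by
    rw [mem_ball_zero_iff]
    norm_num
  have hne : (1 / 2 : ℂ) ≠ 0 := by norm_num
  have hds : ‖dslope S 0 (1 / 2)‖ = 1 / 1 := by
    rw [dslope_of_ne _ hne, slope_def_module, h0, sub_zero, sub_zero, norm_smul, norm_inv,
      heq _ hhalf, inv_mul_cancel₀ (norm_ne_zero_iff.2 hne), div_one]
  have haff := Complex.affine_of_mapsTo_ball_of_norm_dslope_eq_div (R₁ := 1) (R₂ := 1) hd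
    (by rw [h0]; exact fun w hw => ball_subset_closedBall (hb.mapsTo hw)) hhalf hds
  refine ⟨dslope S 0 (1 / 2), by rw [hds]; norm_num, fun z hz => ?_⟩
  have := haff hz
  simp only [h0, sub_zero, zero_add, smul_eq_mul] at this
  rw [this]
  ring

/-- bijective holomorphic self maps of the disc -/
theorem disc_aut {T : ℂ → ℂ} (hd : DifferentiableOn ℂ T (ball 0 1))
    (hb : BijOn T (ball 0 1) (ball 0 1)) :
    ∃ b c : ℂ, ‖b‖ < 1 ∧ ‖c‖ = 1 ∧
      ∀ z ∈ ball (0 : ℂ) 1, T z = (c * z + b) / (1 + (starRingEnd ℂ) b * c * z) := by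
  have h0m : (0 : ℂ) ∈ ball (0 : ℂ) 1 := mem_ball_self one_pos
  have hb1 : ‖T 0‖ < 1 := mem_ball_zero_iff.1 (hb.mapsTo h0m)
  obtain ⟨c, hc, hS⟩ := a16_rot (S := mob (T 0) ∘ T) ((a16_diff hb1).comp hd hb.mapsTo)
    ((a16_bij hb1).comp hb) (mob_self _)
  refine ⟨T 0, c, hb1, hc, fun z hz => ?_⟩
  have h1 := hS z hz
  have hz' := mem_ball_zero_iff.1 hz
  have hT : ‖T z‖ < 1 := mem_ball_zero_iff.1 (hb.mapsTo hz)
  have h2 : T z = mob (-(T 0)) (c * z) := by
    rw [← h1]
    exact (mob_inv hb1 hT).symm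
  rw [h2, mob, map_neg, sub_neg_eq_add]
  congr 1
  ring

end CF6

end

section

/-!
# A22: fixed point free automorphisms of the disc

PROOF. `T z = (c z + b)/(1 + conj b c z)`, `‖b‖ < 1`, `‖c‖ = 1`, no fixed point in the ball, so `b ≠ 0`. Let `ζ` be a root of
`conj b * c * ζ^2 + (1 - c) * ζ - b = 0` (`ζ = (c ζ + b)/(1 + conj b c ζ)`; quadratic, `IsAlgClosed.exists_root` or the formula). `ζ ≠ 0`.
If `‖ζ‖ < 1`: fixed point. If `‖ζ‖ > 1`: `1/conj ζ` is a root in the ball: conjugating the equation and multiplying by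
`-c`, dividing by `conj ζ^2`: from `b conj c conj ζ^2 + (1 - conj c) conj ζ - conj b = 0`, times `-c / conj ζ^2`, with `η = 1/conj ζ`, `c conj c = 1`:
`-b - (c - 1) η + conj b c η^2 = 0`, i.e. `conj b c η^2 + (1 - c) η - b = 0`. So `‖ζ‖ = 1`.
`M z = I * (ζ + z)/(ζ - z)` maps the ball bijectively and holomorphically onto `UHP` (`im M z = (1 - ‖z‖^2)/‖ζ - z‖^2`; inverse
`w ↦ ζ (w - I)/(w + I)`). Numerator identity: `ζ - T z = c (1 - ζ conj b) (ζ - z)/(1 + conj b c z)` (vanishes at `z = ζ` by the equation), hence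
`M (T z) = I * (ζ (1 + conj b c z) + c z + b) / (c (1 - ζ conj b) (ζ - z)) = α' * M z + β'` with complex constants `α'`, `β'`
(`ζ/(ζ - z) = (1 - I M)/2`, `z/(ζ - z) = -(1 + I M)/2`). So the affine map `w ↦ α' w + β'` maps `UHP` bijectively onto `UHP` (`T` is a bijection of
the ball). This forces `α' > 0` real and `β'` real: for `w = t + i s`, `im (α' w + β') > 0` for all `t ∈ ℝ`, `s > 0` gives `im α' = 0` (let `t → ±∞`),
`re α' ≥ 0`, `α' ≠ 0` (injective), `im β' ≥ 0` (`s → 0`); surjectivity excludes `im β' > 0` (then `im ≥ im β'`).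
If `α' ≠ 1` replace `M` by `M - β'/(1 - α')` (real translation): `M (T z) = α' M z`. If `α' = 1`, `β' ≠ 0` since `T` has no fixed point.
-/

open Complex Set Filter Topology Metric

namespace CF6

/-- the exponential maps a horizontal strip of width `π` bijectively onto the half plane -/
theorem a22b_exp : BijOn Complex.exp {w : ℂ | 0 < w.im ∧ w.im < Real.pi} UHP := by
  refine ⟨?_, ?_, ?_⟩
  · rintro w ⟨h1, h2⟩
    have h3 : 0 < Real.sin w.im := Real.sin_pos_of_pos_of_lt_pi h1 h2
    have h4 : (Complex.exp w).im = Real.exp w.re * Real.sin w.im := Complex.exp_im w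
    have h5 : 0 < (Complex.exp w).im := by rw [h4]; positivity
    exact h5
  · rintro w ⟨h1, h2⟩ w' ⟨h1', h2'⟩ h
    exact Complex.exp_inj_of_neg_pi_lt_of_le_pi (by linarith [Real.pi_pos]) h2.le
      (by linarith [Real.pi_pos]) h2'.le h
  · intro z hz
    have hz' : 0 < z.im := hz
    have hz0 : z ≠ 0 := by
      rintro rfl
      simp at hz'
    refine ⟨Complex.log z, ⟨?_, ?_⟩, Complex.exp_log hz0⟩
    · rw [Complex.log_im]
      have h1 : 0 ≤ Complex.arg z := Complex.arg_nonneg_iff.2 hz'.le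
      rcases h1.eq_or_lt with h2 | h2
      · exfalso
        have h3 := Complex.arg_eq_zero_iff.1 h2.symm
        exact hz'.ne' h3.2
      · exact h2
    · rw [Complex.log_im]
      exact Complex.arg_lt_pi_iff.2 (Or.inr hz'.ne')

/-- the affine map -/
theorem a22b_lin {κ β T : ℝ} (hκ : κ ≠ 0)
    (hT : ∀ σ : ℝ, (0 < σ ∧ σ < T) ↔ (0 < κ * σ + β ∧ κ * σ + β < Real.pi)) :
    BijOn (fun s : ℂ => I * κ * s + I * β) (strip T) {w : ℂ | 0 < w.im ∧ w.im < Real.pi} := by
  have him : ∀ s : ℂ, (I * κ * s + I * β).im = κ * s.re + β := by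
    intro s
    simp
  have hIκ : I * (κ : ℂ) ≠ 0 := mul_ne_zero I_ne_zero (by exact_mod_cast hκ)
  refine ⟨?_, ?_, ?_⟩
  · intro s hs
    have h1 := (hT s.re).1 hs
    rw [mem_ofPred_eq]
    simp only
    rw [him]
    exact h1
  · intro s _ s' _ h
    have h1 : I * κ * s + I * β = I * κ * s' + I * β := h
    have h2 : I * κ * s = I * κ * s' := add_right_cancel h1
    exact mul_left_cancel₀ hIκ h2
  · intro w hw
    have h1 : I * κ * ((w - I * β) / (I * κ)) + I * β = w := by
      rw [mul_div_cancel₀ _ hIκ]; ring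
    refine ⟨(w - I * β) / (I * κ), ?_, h1⟩
    have h2 := him ((w - I * β) / (I * κ))
    rw [h1] at h2
    have h3 : 0 < ((w - I * β) / (I * κ)).re ∧ ((w - I * β) / (I * κ)).re < T := by
      rw [hT, ← h2]
      exact hw
    exact h3

/-- `P s = exp (ℓ s / (2πi))` (`ℓ = log α < 0`) or `- exp (ℓ s / (2πi))` (`ℓ > 0`), `T = 2π²/|ℓ|`:
the argument of `P s` is `- ℓ σ / (2π)` resp. `π - ℓ σ/(2π)`, `σ = s.re`, in `(0, π)` iff `0 < σ < T`; the modulus is
`exp (ℓ τ / (2π))`, `τ = s.im`. Bijective: `P` is `exp` on a horizontal strip of width `π` after a linear map. -/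
theorem strip_uhp {α : ℝ} (h0 : 0 < α) (h1 : α ≠ 1) :
    ∃ T : ℝ, 0 < T ∧ ∃ P : ℂ → ℂ, Differentiable ℂ P ∧ BijOn P (strip T) UHP ∧
      ∀ s, P (s + 2 * Real.pi * I) = α * P s := by
  have hπ := Real.pi_pos
  have hlog : Real.log α ≠ 0 := by
    intro h
    rcases Real.log_eq_zero.1 h with h2 | h2 | h2
    · linarith
    · exact h1 h2
    · linarith
  set κ : ℝ := -Real.log α / (2 * Real.pi) with hκ
  have hκ0 : κ ≠ 0 := by
    rw [hκ]
    exact div_ne_zero (neg_ne_zero.2 hlog) (by positivity)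
  have hmul : ∀ (β : ℝ) (s : ℂ), Complex.exp (I * κ * (s + 2 * Real.pi * I) + I * β) =
      α * Complex.exp (I * κ * s + I * β) := by
    intro β s
    have h2 : I * κ * (s + 2 * Real.pi * I) + I * β =
        ((Real.log α : ℝ) : ℂ) + (I * κ * s + I * β) := by
      have h3 : ((κ : ℝ) : ℂ) * (2 * Real.pi) = -((Real.log α : ℝ) : ℂ) := by
        rw [hκ]
        push_cast
        field_simp
      linear_combination (-1 : ℂ) * h3 + (κ : ℂ) * 2 * Real.pi * I_mul_I
    rw [h2, Complex.exp_add, ← Complex.ofReal_exp, Real.exp_log h0]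
  have hdiff : ∀ β : ℝ, Differentiable ℂ (fun s : ℂ => Complex.exp (I * κ * s + I * β)) := by
    intro β
    exact ((differentiable_id.const_mul _).add_const _).cexp
  rcases lt_or_gt_of_ne hκ0 with hneg | hpos
  · have hκn : 0 < -κ := by linarith
    refine ⟨Real.pi / (-κ), by positivity, fun s => Complex.exp (I * κ * s + I * Real.pi),
      hdiff Real.pi, ?_, hmul Real.pi⟩
    refine a22b_exp.comp (a22b_lin hκ0 (fun σ => ?_))
    rw [lt_div_iff₀ hκn]
    constructor
    · rintro ⟨h2, h3⟩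
      constructor
      · linarith
      · nlinarith
    · rintro ⟨h2, h3⟩
      constructor
      · by_contra h4
        push Not at h4
        nlinarith
      · linarith
  · refine ⟨Real.pi / κ, by positivity, fun s => Complex.exp (I * κ * s + I * (0 : ℝ)),
      hdiff 0, ?_, hmul 0⟩
    refine a22b_exp.comp (a22b_lin hκ0 (fun σ => ?_))
    rw [lt_div_iff₀ hpos]
    constructor
    · rintro ⟨h2, h3⟩
      constructor
      · have := mul_pos hpos h2
        linarith
      · linarith
    · rintro ⟨h2, h3⟩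
      constructor
      · by_contra h4
        push Not at h4
        nlinarith
      · linarith

end CF6

end

section

/-!
# A25: the ends of an annulus chart

`ψ` is locally injective on the strip (`inj`: on sets of diameter `< 2π`), holomorphic, so open (`univ_open` on small balls).
* `chart_proper`: `Q ⊆ A` compact. The sets `ψ '' {s | 1/(m+1) < s.re < T - 1/(m+1)}` are open, increasing with union `A`, so one
  contains `Q`. If `ψ s ∈ Q`, `s ∈ strip T`, then `ψ s = ψ s'` with `s'` in that substrip, and `s.re = s'.re` by `inj`. So `η = 1/(m+1)`.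
* `chart_ends`: let `d > 0` be the distance of `L` and `M` (one is compact: `A` is bounded, `{R < ‖z‖}` is connected and contained in
  `L ∪ M`, so in one of them; the other is bounded). `ε ≤ d/4`. `Q_ε = {z | ε ≤ infDist z Aᶜ}` is a compact subset of `A`. By
  `chart_proper` `ψ '' {0 < re < η}` does not meet `Q_ε`, so it is contained in `{infDist · L < ε} ∪ {infDist · M < ε}` (disjoint open sets),
  connected (continuous image of the convex strip `{0 < re < η}`), so contained in one of them; the choice does not depend on `ε`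
  (the substrips are nested, nonempty). Same for `{T - η < re < T}`. If both ends go to `M`: for small `ε` and the `η` for both ends,
  `ψ '' strip T ⊆ {infDist · M < ε} ∪ ψ '' {η ≤ re ≤ T - η}`, and the last set is
  `ψ '' {s | η ≤ re s ≤ T - η, 0 ≤ im s ≤ 2π}`, a compact subset of `A`, has positive distance from `L`; but `L` meets `closure A`
  (otherwise `L` is closed and open: its complement is `closure A ∪ M`), and points of `A` close to `L` are not `ε`-close to `M`.
  Contradiction. So one end goes to `L`, the other to `M`.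
* `chart_flip`: `s ↦ ψ (T - s)` (`T - (s + 2πi) = (T - s) - 2πi`).
-/

open Complex Set Filter Topology Metric

namespace CF6

theorem a25_isOpen_strip (T : ℝ) : IsOpen (strip T) :=
  (isOpen_lt continuous_const Complex.continuous_re).inter
    (isOpen_lt Complex.continuous_re continuous_const)

theorem a25_image_open {T : ℝ} {ψ : ℂ → ℂ} (hd : DifferentiableOn ℂ ψ (strip T))
    (inj : ∀ s ∈ strip T, ∀ s' ∈ strip T, ψ s = ψ s' → ∃ n : ℤ, s' = s + 2 * Real.pi * n * I)
    {V : Set ℂ} (hV : IsOpen V) (hVs : V ⊆ strip T) : IsOpen (ψ '' V) := by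
  rw [isOpen_iff_mem_nhds]
  rintro _ ⟨s, hs, rfl⟩
  obtain ⟨r, hr, hrV⟩ := Metric.isOpen_iff.mp hV s hs
  set q : ℝ := min r 1 with hq
  have hq0 : 0 < q := lt_min hr one_pos
  have hsub : ball s q ⊆ V := (ball_subset_ball (min_le_left _ _)).trans hrV
  have hinj : InjOn ψ (ball s q) := by
    intro a ha b hb hab
    obtain ⟨n, hn⟩ := inj a (hVs (hsub ha)) b (hVs (hsub hb)) hab
    have h1 : dist b a < 2 := by
      calc dist b a ≤ dist b s + dist a s := dist_triangle_right _ _ _
        _ < q + q := add_lt_add hb ha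
        _ ≤ 1 + 1 := add_le_add (min_le_right _ _) (min_le_right _ _)
        _ = 2 := by norm_num
    have h2 : dist b a = 2 * Real.pi * |(n : ℝ)| := by
      rw [dist_eq_norm, hn, add_sub_cancel_left, norm_mul, Complex.norm_I, mul_one, norm_mul,
        norm_mul]
      rw [Complex.norm_real, Real.norm_eq_abs, abs_of_pos Real.pi_pos]
      have h3 : ‖(n : ℂ)‖ = |(n : ℝ)| := by
        rw [Complex.norm_intCast]
      rw [h3]
      simp
    have h3 : n = 0 := by
      by_contra hne
      have h4 : (1 : ℝ) ≤ |(n : ℝ)| := by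
        have := Int.one_le_abs hne
        exact_mod_cast this
      rw [h2] at h1
      have h5 := Real.pi_gt_three
      nlinarith
    rw [hn, h3]
    simp
  have hopen : IsOpen (ψ '' ball s q) :=
    univ_open isOpen_ball subset_rfl isOpen_ball (hd.mono (hsub.trans hVs)) hinj
  exact Filter.mem_of_superset (hopen.mem_nhds (mem_image_of_mem ψ (mem_ball_self hq0)))
    (image_mono hsub)

theorem chart_proper {A : Set ℂ} {T : ℝ} {ψ : ℂ → ℂ} (hd : DifferentiableOn ℂ ψ (strip T))
    (per : ∀ s ∈ strip T, ψ (s + 2 * Real.pi * I) = ψ s)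
    (inj : ∀ s ∈ strip T, ∀ s' ∈ strip T, ψ s = ψ s' → ∃ n : ℤ, s' = s + 2 * Real.pi * n * I)
    (image : ψ '' strip T = A) {Q : Set ℂ} (hQ : IsCompact Q) (hs : Q ⊆ A) :
    ∃ η > (0 : ℝ), ∀ s ∈ strip T, ψ s ∈ Q → η ≤ s.re ∧ s.re ≤ T - η := by
  set U : ℕ → Set ℂ := fun m => {s : ℂ | 1 / ((m : ℝ) + 1) < s.re ∧ s.re < T - 1 / ((m : ℝ) + 1)}
    with hU
  have hUo : ∀ m, IsOpen (U m) := fun m =>
    (isOpen_lt continuous_const Complex.continuous_re).inter
      (isOpen_lt Complex.continuous_re continuous_const)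
  have hUs : ∀ m, U m ⊆ strip T := by
    intro m s hs
    have h1 : (0 : ℝ) < 1 / ((m : ℝ) + 1) := by positivity
    exact ⟨h1.trans hs.1, hs.2.trans (by linarith)⟩
  have hmono : Monotone U := by
    intro m n hmn s hs
    have h1 : 1 / ((n : ℝ) + 1) ≤ 1 / ((m : ℝ) + 1) := by
      apply one_div_le_one_div_of_le (by positivity)
      have : (m : ℝ) ≤ n := by exact_mod_cast hmn
      linarith
    exact ⟨lt_of_le_of_lt h1 hs.1, lt_of_lt_of_le hs.2 (by linarith)⟩
  obtain ⟨m, hm⟩ := hQ.elim_directed_cover (fun m => ψ '' U m)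
    (fun m => a25_image_open hd inj (hUo m) (hUs m)) (by
      intro z hz
      have h1 := hs hz
      rw [← image] at h1
      obtain ⟨s, hs1, rfl⟩ := h1
      have hpos : 0 < min s.re (T - s.re) := lt_min hs1.1 (by linarith [hs1.2])
      obtain ⟨m, hm⟩ := exists_nat_one_div_lt hpos
      refine mem_iUnion.mpr ⟨m, s, ⟨lt_of_lt_of_le hm (min_le_left _ _), ?_⟩, rfl⟩
      have := lt_of_lt_of_le hm (min_le_right _ _)
      linarith)
    (Monotone.directed_le fun m n hmn => image_mono (hmono hmn))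
  refine ⟨1 / ((m : ℝ) + 1), by positivity, fun s hs1 hsQ => ?_⟩
  obtain ⟨s', hs', hss⟩ := hm hsQ
  obtain ⟨n, hn⟩ := inj s' (hUs m hs') s hs1 hss
  have hre : s.re = s'.re := by
    rw [hn]
    simp
  rw [hre]
  exact ⟨hs'.1.le, hs'.2.le⟩

theorem chart_flip {A L M : Set ℂ} {T : ℝ} {ψ : ℂ → ℂ} (h : StripChart A L M T ψ) :
    StripChart A M L T (fun s => ψ (T - s)) := by
  have hmem : ∀ s ∈ strip T, (T : ℂ) - s ∈ strip T := by
    intro s hs
    have h1 : ((T : ℂ) - s).re = T - s.re := by simp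
    have h2 := hs.1
    have h3 := hs.2
    refine ⟨?_, ?_⟩ <;> rw [h1] <;> linarith
  refine ⟨h.pos, ?_, ?_, ?_, ?_, ?_, ?_⟩
  · intro s hs
    have h1 := h.diff.differentiableAt ((a25_isOpen_strip T).mem_nhds (hmem s hs))
    have h2 : DifferentiableAt ℂ (fun s : ℂ => (T : ℂ) - s) s := by fun_prop
    exact (h1.comp s h2).differentiableWithinAt
  · intro s hs
    have h1 : (T : ℂ) - (s + 2 * Real.pi * I) ∈ strip T := by
      have h2 : ((T : ℂ) - (s + 2 * Real.pi * I)).re = T - s.re := by simp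
      have h3 := hs.1
      have h4 := hs.2
      refine ⟨?_, ?_⟩ <;> rw [h2] <;> linarith
    have h2 := h.per _ h1
    rw [← h2]
    congr 1
    ring
  · intro s hs s' hs' hss
    obtain ⟨n, hn⟩ := h.inj _ (hmem s hs) _ (hmem s' hs') hss
    refine ⟨-n, ?_⟩
    push_cast
    linear_combination -hn
  · rw [← h.image]
    ext z
    constructor
    · rintro ⟨s, hs, rfl⟩
      exact ⟨_, hmem s hs, rfl⟩
    · rintro ⟨s, hs, rfl⟩
      exact ⟨(T : ℂ) - s, hmem s hs, by simp only [sub_sub_cancel]⟩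
  · intro ε hε
    obtain ⟨η, hη, h1⟩ := h.endL ε hε
    refine ⟨η, hη, fun s hs hsη => h1 _ (hmem s hs) ?_⟩
    have h2 : ((T : ℂ) - s).re = T - s.re := by simp
    rw [h2]
    linarith
  · intro ε hε
    obtain ⟨η, hη, h1⟩ := h.endM ε hε
    refine ⟨η, hη, fun s hs hsη => h1 _ (hmem s hs) ?_⟩
    have h2 : ((T : ℂ) - s).re = T - s.re := by simp
    rw [h2]
    linarith

end CF6

end
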