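import Pool.Agent.Lib.MP_cf6b16_an.Defs

section

/-!
# MP_cf6b16_an, module K (interior regularisation), definitions
-/

set_option autoImplicit false

open MeasureTheory Metric Set Filter Topology
open scoped ContDiff ENNReal ComplexConjugate

namespace CF6

/-- `f` is continuous on `U` and has the weak partial derivatives `fx`, `fy`, which are square
integrable on compact subsets of `U`. -/
structure Sob {E : Type*} [NormedAddCommGroup E] [NormedSpace ℝ E] (U : Set ℂ)
    (f fx fy : ℂ → E) : Prop where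
  cont : ContinuousOn f U
  lx : ∀ K, K ⊆ U → IsCompact K → MemLp fx 2 (volume.restrict K)
  ly : ∀ K, K ⊆ U → IsCompact K → MemLp fy 2 (volume.restrict K)
  wx : ∀ φ : ℂ → ℝ, ContDiff ℝ ∞ φ → HasCompactSupport φ → tsupport φ ⊆ U →
    ∫ z, (fderiv ℝ φ z 1) • f z = - ∫ z, φ z • fx z
  wy : ∀ φ : ℂ → ℝ, ContDiff ℝ ∞ φ → HasCompactSupport φ → tsupport φ ⊆ U →
    ∫ z, (fderiv ℝ φ z Complex.I) • f z = - ∫ z, φ z • fy z

/-- Dirichlet energy on `U`, values in a normed space (`en` of `Defs.lean` is the case `E = ℂ`). -/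
noncomputable def enE {E : Type*} [NormedAddCommGroup E] (U : Set ℂ) (fx fy : ℂ → E) : ℝ≥0∞ :=
  ∫⁻ z in U, (‖fx z‖ₑ ^ 2 + ‖fy z‖ₑ ^ 2)

/-- Jacobian of a complex valued map with partial derivatives `fx`, `fy`. -/
noncomputable def jac (fx fy : ℂ → ℂ) (z : ℂ) : ℝ := (conj (fx z) * fy z).im

/-- `F` is a proper monotone map of `U` onto `V`: continuous, preimages of compact sets are compact,
preimages of points are connected (and not empty). -/
structure PMap (U V : Set ℂ) (F : ℂ → ℂ) : Prop where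
  cont : ContinuousOn F U
  maps : MapsTo F U V
  proper : ∀ K, K ⊆ V → IsCompact K → IsCompact (U ∩ F ⁻¹' K)
  fib : ∀ y ∈ V, IsConnected (U ∩ F ⁻¹' {y})

/-- `ψ` is a conformal map of the open set `V` onto `W`. -/
structure ConfMap (V W : Set ℂ) (ψ : ℂ → ℂ) : Prop where
  diff : DifferentiableOn ℂ ψ V
  inj : InjOn ψ V
  image : ψ '' V = W

/-- Poisson integral of the values of `b` on the unit circle. -/
noncomputable def poi {E : Type*} [NormedAddCommGroup E] [NormedSpace ℝ E] (b : ℂ → E) (w : ℂ) : E :=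
  Real.circleAverage (fun z => poissonKernel 0 w z • b z) 0 1

/-- the standard mollifier of radius `r` -/
noncomputable def bump (r : ℝ) (hr : 0 < r) : ContDiffBump (0 : ℂ) := ⟨r / 2, r, by positivity, by linarith⟩

/-- mollification of `u` at scale `r` -/
noncomputable def moll {E : Type*} [NormedAddCommGroup E] [NormedSpace ℝ E] (r : ℝ) (hr : 0 < r) (u : ℂ → E) (x : ℂ) : E :=
  ∫ y, (bump r hr).normed volume (x - y) • u y

/-- first partial derivative of `f ∘ ψ`, `ψ` holomorphic -/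
noncomputable def pbx {E : Type*} [NormedAddCommGroup E] [NormedSpace ℝ E] (ψ : ℂ → ℂ) (fx fy : ℂ → E) (z : ℂ) : E :=
  (deriv ψ z).re • fx (ψ z) + (deriv ψ z).im • fy (ψ z)

/-- second partial derivative of `f ∘ ψ`, `ψ` holomorphic -/
noncomputable def pby {E : Type*} [NormedAddCommGroup E] [NormedSpace ℝ E] (ψ : ℂ → ℂ) (fx fy : ℂ → E) (z : ℂ) : E :=
  (-(deriv ψ z).im) • fx (ψ z) + (deriv ψ z).re • fy (ψ z)

/-- the field `(A, B)` is in `L²_loc(U)` and weakly divergence free -/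
structure DivFree (U : Set ℂ) (A B : ℂ → ℝ) : Prop where
  lA : ∀ K, K ⊆ U → IsCompact K → MemLp A 2 (volume.restrict K)
  lB : ∀ K, K ⊆ U → IsCompact K → MemLp B 2 (volume.restrict K)
  w : ∀ φ : ℂ → ℝ, ContDiff ℝ ∞ φ → HasCompactSupport φ → tsupport φ ⊆ U →
    ∫ z, (A z * fderiv ℝ φ z 1 + B z * fderiv ℝ φ z Complex.I) = 0

/-- a locally finite family of discs with disjoint closures in `V` -/
structure DiscFam (V : Set ℂ) {ι : Type} (c : ι → ℂ) (r : ι → ℝ) : Prop where
  pos : ∀ i, 0 < r i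
  sub : ∀ i, closedBall (c i) (r i) ⊆ V
  disj : ∀ i j, i ≠ j → Disjoint (closedBall (c i) (r i)) (closedBall (c j) (r j))
  fin : ∀ K, K ⊆ V → IsCompact K → {i | (closedBall (c i) (r i) ∩ K).Nonempty}.Finite

end CF6

end

section

set_option autoImplicit false

open MeasureTheory Metric Set Filter Topology
open scoped ContDiff ENNReal ComplexConjugate

namespace CF6

theorem l1_ae_diff {U : Set ℂ} {f : ℂ → ℂ}
    (hf : ∀ z ∈ U, ∃ (K : NNReal), ∃ t ∈ 𝓝 z, LipschitzOnWith K f t) :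
    ∀ᵐ z, z ∈ U → DifferentiableAt ℝ f z := by
  have h0 : volume {z | z ∈ U ∧ ¬ DifferentiableAt ℝ f z} = 0 := by
    refine measure_null_of_locally_null _ fun z hz => ?_
    obtain ⟨K, t, ht, hK⟩ := hf z hz.1
    refine ⟨{z | z ∈ U ∧ ¬ DifferentiableAt ℝ f z} ∩ interior t,
      inter_mem self_mem_nhdsWithin (mem_nhdsWithin_of_mem_nhds (interior_mem_nhds.2 ht)), ?_⟩
    have h1 := hK.ae_differentiableWithinAt_of_mem (μ := (volume : Measure ℂ))
    refine measure_mono_null (fun w hw => ?_) (ae_iff.1 h1)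
    intro hcon
    have hwt : t ∈ 𝓝 w := mem_interior_iff_mem_nhds.1 hw.2
    exact hw.1.2 ((hcon (mem_of_mem_nhds hwt)).differentiableAt hwt)
  rw [ae_iff]
  convert h0 using 2
  ext z
  simp

theorem l1_line {U : Set ℂ} {f : ℂ → ℂ}
    (hf : ∀ z ∈ U, ∃ (K : NNReal), ∃ t ∈ 𝓝 z, LipschitzOnWith K f t) {l : ℝ → ℂ} {e : ℂ}
    (hl : ∀ t, HasDerivAt l e t) (hlip : LipschitzWith 1 l)
    (hd : ∀ᵐ t : ℝ, l t ∈ U → DifferentiableAt ℝ f (l t)) {a b : ℝ} (hab : a ≤ b)
    (hseg : ∀ t ∈ Icc a b, l t ∈ U) :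
    IntervalIntegrable (fun t => fderiv ℝ f (l t) e) volume a b ∧
      f (l b) - f (l a) = ∫ t in a..b, fderiv ℝ f (l t) e := by
  have hloc : LocallyLipschitzOn (Icc a b) (fun t => f (l t)) := by
    intro t0 ht0
    obtain ⟨K, u, hu, hK⟩ := hf _ (hseg t0 ht0)
    refine ⟨K, l ⁻¹' u, mem_nhdsWithin_of_mem_nhds (hlip.continuous.continuousAt hu), ?_⟩
    have := hK.comp (hlip.lipschitzOnWith (s := l ⁻¹' u)) (mapsTo_preimage l u)
    rwa [mul_one] at this
  obtain ⟨C, hC⟩ := hloc.exists_lipschitzOnWith_of_compact isCompact_Icc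
  have hm : Measurable (fun t => fderiv ℝ f (l t) e) :=
    (measurable_fderiv_apply_const ℝ f e).comp hlip.continuous.measurable
  -- derivative of the slice
  have hder : ∀ᵐ t : ℝ, t ∈ uIcc a b → HasDerivAt (fun t => f (l t)) (fderiv ℝ f (l t) e) t := by
    filter_upwards [hd] with t ht htm
    rw [uIcc_of_le hab] at htm
    exact (ht (hseg t htm)).hasFDerivAt.comp_hasDerivAt t (hl t)
  have hbd : ∀ᵐ t : ℝ, t ∈ Ioo a b → ‖fderiv ℝ f (l t) e‖ ≤ C := by
    filter_upwards [hder] with t ht htm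
    have hmem : Icc a b ∈ 𝓝 t := Icc_mem_nhds htm.1 htm.2
    have h1 := ht (by rw [uIcc_of_le hab]; exact Ioo_subset_Icc_self htm)
    have h2 := norm_deriv_le_of_lipschitzOn hmem hC
    rwa [h1.deriv] at h2
  have hI : IntervalIntegrable (fun t => fderiv ℝ f (l t) e) volume a b := by
    rw [intervalIntegrable_iff_integrableOn_Ioo_of_le hab]
    refine Measure.integrableOn_of_bounded (M := C) (by
      rw [Real.volume_Ioo]; exact ENNReal.ofReal_ne_top) hm.aestronglyMeasurable ?_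
    rw [ae_restrict_iff' measurableSet_Ioo]
    exact hbd
  refine ⟨hI, ?_⟩
  have key : ∀ L : ℂ →L[ℝ] ℝ, L (f (l b) - f (l a)) = L (∫ t in a..b, fderiv ℝ f (l t) e) := by
    intro L
    have hac : AbsolutelyContinuousOnInterval (fun t => L (f (l t))) a b := by
      refine LipschitzOnWith.absolutelyContinuousOnInterval (K := ‖L‖₊ * C) ?_
      rw [uIcc_of_le hab]
      exact (L.lipschitz.lipschitzOnWith (s := univ)).comp hC (mapsTo_univ _ _)
    have h1 := hac.integral_deriv_eq_sub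
    rw [map_sub, ← h1, ← L.intervalIntegral_comp_comm hI]
    refine intervalIntegral.integral_congr_ae ?_
    filter_upwards [hder] with t ht htm
    have h2 := ht (uIoc_subset_uIcc htm)
    exact (L.hasFDerivAt.comp_hasDerivAt t h2).deriv
  exact Complex.ext (key Complex.reCLM) (key Complex.imCLM)

theorem l1_fubini {P : ℝ × ℝ → ℂ} (hP : MeasurePreserving P (volume.prod volume) volume)
    {Q : ℂ → Prop} (hQ : ∀ᵐ z, Q z) : ∀ᵐ s : ℝ, ∀ᵐ t : ℝ, Q (P (s, t)) :=
  Measure.ae_ae_of_ae_prod (hP.quasiMeasurePreserving.ae hQ)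

theorem l1_hor (y t : ℝ) : HasDerivAt (fun t : ℝ => (⟨t, y⟩ : ℂ)) 1 t := by
  have h : (fun t : ℝ => (⟨t, y⟩ : ℂ)) = fun t : ℝ => (t : ℂ) + y * Complex.I := by
    funext s
    exact Complex.mk_eq_add_mul_I s y
  rw [h]
  exact (Complex.ofRealCLM.hasDerivAt (x := t)).add_const _

theorem l1_ver (x t : ℝ) : HasDerivAt (fun t : ℝ => (⟨x, t⟩ : ℂ)) Complex.I t := by
  have h : (fun t : ℝ => (⟨x, t⟩ : ℂ)) = fun t : ℝ => (x : ℂ) + t * Complex.I := by
    funext s
    exact Complex.mk_eq_add_mul_I x s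
  rw [h]
  have := ((Complex.ofRealCLM.hasDerivAt (x := t)).mul_const Complex.I).const_add (x : ℂ)
  simpa using this

theorem l1_hor_lip (y : ℝ) : LipschitzWith 1 (fun t : ℝ => (⟨t, y⟩ : ℂ)) := by
  refine LipschitzWith.of_dist_le_mul fun s t => ?_
  rw [NNReal.coe_one, one_mul, dist_eq_norm, dist_eq_norm]
  have : (⟨s, y⟩ : ℂ) - ⟨t, y⟩ = ((s - t : ℝ) : ℂ) := by
    apply Complex.ext <;> simp
  rw [this, Complex.norm_real]

theorem l1_ver_lip (x : ℝ) : LipschitzWith 1 (fun t : ℝ => (⟨x, t⟩ : ℂ)) := by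
  refine LipschitzWith.of_dist_le_mul fun s t => ?_
  rw [NNReal.coe_one, one_mul, dist_eq_norm, dist_eq_norm]
  have : (⟨x, s⟩ : ℂ) - ⟨x, t⟩ = ((s - t : ℝ) : ℂ) * Complex.I := by
    apply Complex.ext <;> simp
  rw [this, norm_mul, Complex.norm_real, Complex.norm_I, mul_one]

/-- L1. Locally Lipschitz functions are in `ACL2`.
PROOF. Measurability: `measurable_fderiv_apply_const` (or `measurable_fderiv`). `hor`: by Rademacher's theorem (`LipschitzWith.ae_differentiableAt`, `LipschitzOnWith.ae_differentiableWithinAt_of_mem_real`/`exists_lipschitzOnWith...`;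
extend a Lipschitz function from a small ball, countably many balls cover `U`) `f` is differentiable at a.e. point of `U`, so by Fubini for a.e. `y` it is differentiable at `(t,y)` for a.e. `t` with `(t,y) ∈ U`.
On a segment `[a,b] × {y} ⊆ U` the function `t ↦ f(t,y)` is Lipschitz (compactness: locally Lipschitz on a compact interval), hence absolutely continuous; its derivative at a.e. `t` is `fderiv ℝ f (t,y) 1`, which is bounded there, and the fundamental theorem of calculus
(`AbsolutelyContinuousOnInterval.integral_deriv_eq_sub` for real and imaginary parts) gives the identity. -/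
theorem acl2_of_locallyLipschitz {U : Set ℂ} (hU : IsOpen U) {f : ℂ → ℂ}
    (hf : ∀ z ∈ U, ∃ (K : NNReal), ∃ t ∈ 𝓝 z, LipschitzOnWith K f t)
    (hen : en U (fun z => fderiv ℝ f z 1) (fun z => fderiv ℝ f z Complex.I) < ⊤) :
    ACL2 U f (fun z => fderiv ℝ f z 1) (fun z => fderiv ℝ f z Complex.I) := by
  refine ⟨?_, (measurable_fderiv_apply_const ℝ f 1).aestronglyMeasurable,
    (measurable_fderiv_apply_const ℝ f Complex.I).aestronglyMeasurable, hen, ?_, ?_⟩
  · intro z hz
    obtain ⟨K, t, ht, hK⟩ := hf z hz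
    exact (hK.continuousOn.continuousAt ht).continuousWithinAt
  · have hP : MeasurePreserving (fun p : ℝ × ℝ => (⟨p.2, p.1⟩ : ℂ)) (volume.prod volume) volume :=
      (Complex.volume_preserving_equiv_real_prod.symm).comp
        (Measure.measurePreserving_swap (μ := (volume : Measure ℝ)) (ν := (volume : Measure ℝ)))
    filter_upwards [l1_fubini hP (l1_ae_diff hf)] with y hy a b hab hseg
    exact l1_line hf (l1_hor y) (l1_hor_lip y) hy hab hseg
  · have hP : MeasurePreserving (fun p : ℝ × ℝ => (⟨p.1, p.2⟩ : ℂ)) (volume.prod volume) volume :=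
      Complex.volume_preserving_equiv_real_prod.symm
    filter_upwards [l1_fubini hP (l1_ae_diff hf)] with x hx a b hab hseg
    exact l1_line hf (l1_ver x) (l1_ver_lip x) hx hab hseg

/-- L2. chain rule for a holomorphic function after a locally Lipschitz map, energy density. -/
theorem fderiv_comp_holo {Φ b : ℂ → ℂ} {z : ℂ} (hb : DifferentiableAt ℝ b z) (hΦ : DifferentiableAt ℂ Φ (b z)) :
    fderiv ℝ (fun w => Φ (b w)) z 1 = deriv Φ (b z) * fderiv ℝ b z 1 ∧
    fderiv ℝ (fun w => Φ (b w)) z Complex.I = deriv Φ (b z) * fderiv ℝ b z Complex.I := by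
  have h1 : HasFDerivAt (fun w => Φ (b w))
      (((fderiv ℂ Φ (b z)).restrictScalars ℝ).comp (fderiv ℝ b z)) z :=
    (hΦ.hasFDerivAt.restrictScalars ℝ).comp z hb.hasFDerivAt
  rw [h1.fderiv]
  have h2 : ∀ v : ℂ, fderiv ℂ Φ (b z) v = deriv Φ (b z) * v := by
    intro v
    have : fderiv ℂ Φ (b z) (v • (1 : ℂ)) = v • fderiv ℂ Φ (b z) 1 := map_smul _ _ _
    rw [smul_eq_mul, mul_one] at this
    rw [this, fderiv_apply_one_eq_deriv, smul_eq_mul, mul_comm]
  constructor
  · change fderiv ℂ Φ (b z) (fderiv ℝ b z 1) = _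
    exact h2 _
  · change fderiv ℂ Φ (b z) (fderiv ℝ b z Complex.I) = _
    exact h2 _

end CF6

end

section

set_option autoImplicit false

open MeasureTheory Metric Set Filter Topology
open scoped ContDiff ENNReal ComplexConjugate

namespace CF6

variable {E : Type*} [NormedAddCommGroup E] [NormedSpace ℝ E] [CompleteSpace E]

theorem s04a_lintegral_bump (r : ℝ) (hr : 0 < r) :
    ∫⁻ z, ‖(bump r hr).normed volume z‖ₑ = 1 := by
  have h1 := (bump r hr).integral_normed (μ := volume)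
  have hint : Integrable ((bump r hr).normed volume) volume := (bump r hr).integrable_normed
  rw [← ofReal_integral_norm_eq_lintegral_enorm hint]
  have h2 : (fun z => ‖(bump r hr).normed volume z‖) = (bump r hr).normed volume := by
    funext z
    exact Real.norm_of_nonneg ((bump r hr).nonneg_normed z)
  rw [h2, h1, ENNReal.ofReal_one]

theorem s04a_jensen {f g : ℂ → ℝ≥0∞} (hf : AEMeasurable f volume) (hg : AEMeasurable g volume)
    (h1 : ∫⁻ y, f y = 1) : (∫⁻ y, f y * g y) ^ 2 ≤ ∫⁻ y, f y * g y ^ 2 := by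
  have hH := ENNReal.lintegral_mul_le_Lp_mul_Lq (μ := (volume : Measure ℂ))
    (p := 2) (q := 2) (Real.HolderConjugate.two_two)
    (f := fun y => f y ^ (1 / 2 : ℝ)) (g := fun y => f y ^ (1 / 2 : ℝ) * g y)
    (hf.pow_const _) ((hf.pow_const _).mul hg)
  have e1 : ∀ y, f y ^ (1 / 2 : ℝ) * (f y ^ (1 / 2 : ℝ) * g y) = f y * g y := by
    intro y
    rw [← mul_assoc, ← ENNReal.rpow_add_of_nonneg _ _ (by norm_num) (by norm_num)]
    norm_num
  have e2 : ∀ y, (f y ^ (1 / 2 : ℝ)) ^ (2 : ℝ) = f y := by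
    intro y
    rw [← ENNReal.rpow_mul]
    norm_num
  have e3 : ∀ y, (f y ^ (1 / 2 : ℝ) * g y) ^ (2 : ℝ) = f y * g y ^ 2 := by
    intro y
    rw [ENNReal.mul_rpow_of_nonneg _ _ (by norm_num), e2 y]
    norm_num
  simp only [Pi.mul_apply, e1, e2, e3, h1] at hH
  rw [ENNReal.one_rpow, one_mul] at hH
  calc (∫⁻ y, f y * g y) ^ 2 ≤ ((∫⁻ y, f y * g y ^ 2) ^ (1 / (2 : ℝ))) ^ 2 := by gcongr
    _ = ∫⁻ y, f y * g y ^ 2 := by
      rw [← ENNReal.rpow_natCast, ← ENNReal.rpow_mul]
      norm_num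

omit [CompleteSpace E] in
theorem s04a_contr {w : ℂ → E} (hw : AEStronglyMeasurable w volume) (r : ℝ) (hr : 0 < r) :
    ∫⁻ x, ‖moll r hr w x‖ₑ ^ 2 ≤ ∫⁻ y, ‖w y‖ₑ ^ 2 := by
  have hρc : Continuous ((bump r hr).normed volume) := (bump r hr).continuous_normed
  have h1 : ∀ x, ‖moll r hr w x‖ₑ ^ 2 ≤
      ∫⁻ y, ‖(bump r hr).normed volume (x - y)‖ₑ * ‖w y‖ₑ ^ 2 := by
    intro x
    have h2 : ‖moll r hr w x‖ₑ ≤ ∫⁻ y, ‖(bump r hr).normed volume (x - y)‖ₑ * ‖w y‖ₑ := by
      refine (enorm_integral_le_lintegral_enorm _).trans (le_of_eq ?_)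
      refine lintegral_congr fun y => ?_
      rw [enorm_smul]
    have h3 : ∫⁻ y, ‖(bump r hr).normed volume (x - y)‖ₑ = 1 := by
      rw [lintegral_sub_left_eq_self (fun y => ‖(bump r hr).normed volume y‖ₑ) x,
        s04a_lintegral_bump]
    calc ‖moll r hr w x‖ₑ ^ 2
        ≤ (∫⁻ y, ‖(bump r hr).normed volume (x - y)‖ₑ * ‖w y‖ₑ) ^ 2 := by gcongr
      _ ≤ _ := s04a_jensen
        (by exact ((hρc.comp (continuous_const.sub continuous_id)).enorm).aemeasurable)
        hw.enorm h3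
  calc ∫⁻ x, ‖moll r hr w x‖ₑ ^ 2
      ≤ ∫⁻ x, ∫⁻ y, ‖(bump r hr).normed volume (x - y)‖ₑ * ‖w y‖ₑ ^ 2 := lintegral_mono h1
    _ = ∫⁻ y, ∫⁻ x, ‖(bump r hr).normed volume (x - y)‖ₑ * ‖w y‖ₑ ^ 2 := by
      have hA : AEMeasurable (fun a : ℂ × ℂ => ‖(bump r hr).normed volume (a.1 - a.2)‖ₑ)
          ((volume : Measure ℂ).prod volume) :=
        ((hρc.comp (continuous_fst.sub continuous_snd)).enorm).aemeasurable
      have hB : AEMeasurable (fun a : ℂ × ℂ => ‖w a.2‖ₑ ^ 2)
          ((volume : Measure ℂ).prod volume) := (hw.enorm.pow_const 2).comp_snd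
      exact lintegral_lintegral_swap (hA.mul hB)
    _ = ∫⁻ y, ‖w y‖ₑ ^ 2 := by
      refine lintegral_congr fun y => ?_
      have hm : AEMeasurable (fun x => ‖(bump r hr).normed volume (x - y)‖ₑ) volume :=
        ((hρc.comp (continuous_id.sub continuous_const)).enorm).aemeasurable
      rw [lintegral_mul_const'' _ hm]
      rw [lintegral_sub_right_eq_self (fun x => ‖(bump r hr).normed volume x‖ₑ) y,
        s04a_lintegral_bump, one_mul]

omit [CompleteSpace E] in
theorem s04a_conv (r : ℝ) (hr : 0 < r) (w : ℂ → E) :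
    moll r hr w = MeasureTheory.convolution ((bump r hr).normed volume) w
      (ContinuousLinearMap.lsmul ℝ ℝ) volume := by
  funext x
  rw [convolution_lsmul_swap]
  rfl

theorem s04a_cont {v : ℂ → E} (hv : Continuous v) (hs : HasCompactSupport v) {ε : ℝ≥0∞}
    (hε : 0 < ε) :
    ∃ r₀ > 0, ∀ (r : ℝ) (hr : 0 < r), r < r₀ → ∫⁻ z, ‖moll r hr v z - v z‖ₑ ^ 2 ≤ ε := by
  by_cases hεt : ε = ⊤
  · exact ⟨1, one_pos, fun _ _ _ => hεt ▸ le_top⟩
  set K : Set ℂ := cthickening 1 (tsupport v) with hK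
  have hKc : IsCompact K := hs.isCompact.cthickening
  have hKV : volume K ≠ ⊤ := hKc.measure_ne_top
  have hε' : 0 < ε.toReal := ENNReal.toReal_pos hε.ne' hεt
  set V : ℝ := (volume K).toReal with hV
  have hV0 : 0 ≤ V := ENNReal.toReal_nonneg
  obtain ⟨t, ht0, ht⟩ : ∃ t : ℝ, 0 < t ∧ t ^ 2 * V ≤ ε.toReal := by
    refine ⟨min 1 (ε.toReal / (V + 1)), lt_min one_pos (by positivity), ?_⟩
    set t := min 1 (ε.toReal / (V + 1)) with htd
    have h1 : t ≤ 1 := min_le_left _ _
    have h2 : t ≤ ε.toReal / (V + 1) := min_le_right _ _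
    have h0 : 0 ≤ t := (lt_min one_pos (by positivity)).le
    rw [le_div_iff₀ (by positivity)] at h2
    nlinarith
  have huc : UniformContinuous v := hs.uniformContinuous_of_continuous hv
  obtain ⟨δ, hδ, hδ'⟩ := Metric.uniformContinuous_iff.1 huc t ht0
  refine ⟨min δ 1, lt_min hδ one_pos, fun r hr hrr => ?_⟩
  have hrδ : r < δ := hrr.trans_le (min_le_left _ _)
  have hr1 : r < 1 := hrr.trans_le (min_le_right _ _)
  have hb1 : ∀ x, ‖moll r hr v x - v x‖ ≤ t := by
    intro x
    rw [s04a_conv, ← dist_eq_norm]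
    refine (bump r hr).dist_normed_convolution_le hv.aestronglyMeasurable ?_
    intro y hy
    have hy' : dist y x < r := hy
    exact (hδ' (hy'.trans hrδ)).le
  have hb2 : ∀ x, x ∉ K → moll r hr v x - v x = 0 := by
    intro x hx
    have hz : ∀ y, dist y x < 1 → v y = 0 := by
      intro y hy
      by_contra hne
      apply hx
      rw [hK]
      exact mem_cthickening_of_dist_le x y 1 _ (subset_tsupport v hne)
        (by rw [dist_comm]; exact hy.le)
    have h1 : dist (moll r hr v x) (v x) ≤ 0 := by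
      rw [s04a_conv]
      refine (bump r hr).dist_normed_convolution_le hv.aestronglyMeasurable ?_
      intro y hy
      have hy' : dist y x < r := hy
      rw [hz y (hy'.trans hr1), hz x (by rw [dist_self]; exact one_pos), dist_self]
    exact sub_eq_zero.2 (dist_le_zero.1 h1)
  have hpt : ∀ x, ‖moll r hr v x - v x‖ₑ ^ 2 ≤
      K.indicator (fun _ => ENNReal.ofReal (t ^ 2)) x := by
    intro x
    by_cases hx : x ∈ K
    · rw [Set.indicator_of_mem hx, ← ofReal_norm, ← ENNReal.ofReal_pow (norm_nonneg _)]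
      apply ENNReal.ofReal_le_ofReal
      exact pow_le_pow_left₀ (norm_nonneg _) (hb1 x) 2
    · rw [hb2 x hx]
      simp
  calc ∫⁻ z, ‖moll r hr v z - v z‖ₑ ^ 2
      ≤ ∫⁻ x, K.indicator (fun _ => ENNReal.ofReal (t ^ 2)) x := lintegral_mono hpt
    _ = ENNReal.ofReal (t ^ 2) * volume K := by
      rw [lintegral_indicator_const hKc.measurableSet]
    _ = ENNReal.ofReal (t ^ 2 * V) := by
      rw [ENNReal.ofReal_mul (by positivity), hV, ENNReal.ofReal_toReal hKV]
    _ ≤ ENNReal.ofReal ε.toReal := ENNReal.ofReal_le_ofReal ht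
    _ = ε := ENNReal.ofReal_toReal hεt

theorem s04a_three (a b c : ℝ≥0∞) : (a + b + c) ^ 2 ≤ 3 * (a ^ 2 + (b ^ 2 + c ^ 2)) := by
  by_cases ha : a = ⊤
  · subst ha; simp
  by_cases hb : b = ⊤
  · subst hb; simp
  by_cases hc : c = ⊤
  · subst hc; simp
  lift a to NNReal using ha
  lift b to NNReal using hb
  lift c to NNReal using hc
  have h : (a + b + c) ^ 2 ≤ 3 * (a ^ 2 + (b ^ 2 + c ^ 2)) := by
    rw [← NNReal.coe_le_coe]
    push_cast
    nlinarith [sq_nonneg ((a : ℝ) - b), sq_nonneg ((b : ℝ) - c), sq_nonneg ((a : ℝ) - c)]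
  exact_mod_cast h

/-- S04a. L² convergence of mollifications.
PROOF. Let `η > 0`. Density: a continuous `v` with compact support and `‖u - v‖_2 < η` (`MemLp.exists_hasCompactSupport_eLpNorm_sub_le`).
`moll r` is a contraction of `L²`: `‖moll r w x‖² ≤ ∫ ρ_r(x-y) ‖w y‖² dy` (Jensen / Cauchy-Schwarz) and Fubini (`∫ ρ_r = 1`). For `v`:
uniform continuity, supports in a fixed compact set. Hence `limsup ‖moll r u - u‖_2 ≤ 2 η`. -/
theorem moll_tendsto_L2 {u : ℂ → E} (hu : MemLp u 2 volume) {η : ℝ≥0∞} (hη : 0 < η) :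
    ∃ r₀ > 0, ∀ (r : ℝ) (hr : 0 < r), r < r₀ → ∫⁻ z, ‖moll r hr u z - u z‖ₑ ^ 2 ≤ η := by
  by_cases hηt : η = ⊤
  · exact ⟨1, one_pos, fun _ _ _ => hηt ▸ le_top⟩
  set q : ℝ≥0∞ := η / 9 with hq
  have hq0 : q ≠ 0 := (ENNReal.div_pos hη.ne' (by norm_num)).ne'
  have hq9 : 9 * q = η := ENNReal.mul_div_cancel (by norm_num) (by norm_num)
  have hqt : q ≠ ⊤ := by
    intro h
    rw [h] at hq9
    exact hηt (by rw [← hq9]; simp)
  have hsq0 : q ^ (1 / 2 : ℝ) ≠ 0 := by
    rw [Ne, ENNReal.rpow_eq_zero_iff]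
    push Not
    exact ⟨fun h => absurd h hq0, fun h => absurd h hqt⟩
  obtain ⟨v, hvs, hve, hvc, hvm⟩ :=
    hu.exists_hasCompactSupport_eLpNorm_sub_le (by norm_num) hsq0
  have hsub : MemLp (fun z => u z - v z) 2 volume := hu.sub hvm
  have huv : ∫⁻ z, ‖u z - v z‖ₑ ^ 2 ≤ q := by
    have h1 := eLpNorm_nnreal_pow_eq_lintegral (μ := (volume : Measure ℂ)) (f := u - v)
      (p := 2) (by norm_num)
    have h2 : ∫⁻ z, ‖u z - v z‖ₑ ^ 2 = (eLpNorm (u - v) 2 volume) ^ (2 : ℝ) := by
      have h3 : ((2 : NNReal) : ℝ) = (2 : ℝ) := by norm_num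
      rw [h3] at h1
      have h4 : ((2 : NNReal) : ℝ≥0∞) = 2 := by norm_num
      rw [h4] at h1
      rw [h1]
      refine lintegral_congr fun z => ?_
      rw [Pi.sub_apply]
      norm_num
    rw [h2]
    calc (eLpNorm (u - v) 2 volume) ^ (2 : ℝ) ≤ (q ^ (1 / 2 : ℝ)) ^ (2 : ℝ) := by gcongr
      _ = q := by
        rw [← ENNReal.rpow_mul]
        norm_num
  obtain ⟨r₀, hr₀, hv2⟩ := s04a_cont hvc hvs (pos_iff_ne_zero.2 hq0)
  refine ⟨r₀, hr₀, fun r hr hrr => ?_⟩
  have hli : ∀ w : ℂ → E, MemLp w 2 volume → LocallyIntegrable w volume := fun w hw =>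
    hw.locallyIntegrable (by norm_num)
  have hρs : HasCompactSupport ((bump r hr).normed volume) := (bump r hr).hasCompactSupport_normed
  have hρc : Continuous ((bump r hr).normed volume) := (bump r hr).continuous_normed
  have hcont : ∀ w : ℂ → E, MemLp w 2 volume → Continuous (moll r hr w) := by
    intro w hw
    rw [s04a_conv]
    exact hρs.continuous_convolution_left _ hρc (hli w hw)
  have hadd : ∀ z, moll r hr u z = moll r hr (fun z => u z - v z) z + moll r hr v z := by
    intro z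
    have h1 : u = (fun z => u z - v z) + v := by
      funext z
      simp
    conv_lhs => rw [h1]
    rw [s04a_conv, s04a_conv, s04a_conv]
    have h2 := ConvolutionExistsAt.distrib_add
      (hρs.convolutionExists_left (ContinuousLinearMap.lsmul ℝ ℝ) hρc (hli _ hsub) z)
      (hρs.convolutionExists_left (ContinuousLinearMap.lsmul ℝ ℝ) hρc (hli _ hvm) z)
    exact h2
  have hpt : ∀ z, ‖moll r hr u z - u z‖ₑ ^ 2 ≤
      3 * (‖moll r hr (fun z => u z - v z) z‖ₑ ^ 2 +
        (‖moll r hr v z - v z‖ₑ ^ 2 + ‖u z - v z‖ₑ ^ 2)) := by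
    intro z
    have h1 : moll r hr u z - u z =
        moll r hr (fun z => u z - v z) z + (moll r hr v z - v z) + (v z - u z) := by
      rw [hadd z]
      abel
    have h2 : ‖moll r hr u z - u z‖ₑ ≤ ‖moll r hr (fun z => u z - v z) z‖ₑ +
        ‖moll r hr v z - v z‖ₑ + ‖u z - v z‖ₑ := by
      rw [h1, ← enorm_neg (u z - v z), neg_sub]
      exact (enorm_add_le _ _).trans (add_le_add_left (enorm_add_le _ _) _)
    exact (pow_le_pow_left' h2 2).trans (s04a_three _ _ _)
  have hm1 : AEMeasurable (fun z => ‖moll r hr v z - v z‖ₑ ^ 2) volume :=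
    ((((hcont v hvm).sub hvc).enorm).aemeasurable).pow_const 2
  have hm2 : AEMeasurable (fun z => ‖u z - v z‖ₑ ^ 2) volume :=
    hsub.aestronglyMeasurable.enorm.pow_const 2
  calc ∫⁻ z, ‖moll r hr u z - u z‖ₑ ^ 2
      ≤ ∫⁻ z, 3 * (‖moll r hr (fun z => u z - v z) z‖ₑ ^ 2 +
        (‖moll r hr v z - v z‖ₑ ^ 2 + ‖u z - v z‖ₑ ^ 2)) := lintegral_mono hpt
    _ = 3 * ((∫⁻ z, ‖moll r hr (fun z => u z - v z) z‖ₑ ^ 2) +
        ((∫⁻ z, ‖moll r hr v z - v z‖ₑ ^ 2) + ∫⁻ z, ‖u z - v z‖ₑ ^ 2)) := by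
      have hm3 : AEMeasurable (fun z => ‖moll r hr v z - v z‖ₑ ^ 2 + ‖u z - v z‖ₑ ^ 2) volume :=
        hm1.add hm2
      rw [lintegral_const_mul' _ _ (by norm_num), lintegral_add_right' _ hm3,
        lintegral_add_right' _ hm2]
    _ ≤ 3 * (q + (q + q)) := by
      gcongr
      · exact (s04a_contr hsub.aestronglyMeasurable r hr).trans huv
      · exact hv2 r hr hrr
    _ = 9 * q := by ring
    _ = η := hq9

end CF6

end

section

set_option autoImplicit false

open MeasureTheory Metric Set Filter Topology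
open scoped ContDiff ENNReal ComplexConjugate

namespace CF6

variable {E : Type*} [NormedAddCommGroup E] [NormedSpace ℝ E] [CompleteSpace E]

omit [CompleteSpace E] in
theorem s04c_moll_eq (r : ℝ) (hr : 0 < r) (u : ℂ → E) (x : ℂ) :
    moll r hr u x
      = (MeasureTheory.convolution ((bump r hr).normed volume) u (ContinuousLinearMap.lsmul ℝ ℝ) volume) x := by
  rw [convolution_eq_swap]
  rfl

/-- S04c. uniform convergence of mollifications at the points of a compact set near which `u` is continuous: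
if `u` is continuous on the open set `U` and `K ⊆ U` is compact then `moll r u → u` uniformly on `K`. -/
theorem moll_tendsto_unif {u : ℂ → E} (hu : LocallyIntegrable u) {U K : Set ℂ} (hU : IsOpen U) (hc : ContinuousOn u U)
    (hK : IsCompact K) (hKU : K ⊆ U) {η : ℝ} (hη : 0 < η) :
    ∃ r₀ > 0, ∀ (r : ℝ) (hr : 0 < r), r < r₀ → ∀ z ∈ K, ‖moll r hr u z - u z‖ ≤ η := by
  obtain ⟨δ, hδ, hδU⟩ := hK.exists_cthickening_subset_open hU hKU
  have hcomp : IsCompact (cthickening δ K) := hK.cthickening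
  have huc : UniformContinuousOn u (cthickening δ K) :=
    hcomp.uniformContinuousOn_of_continuous (hc.mono hδU)
  rw [Metric.uniformContinuousOn_iff_le] at huc
  obtain ⟨δ', hδ', h⟩ := huc η hη
  refine ⟨min δ δ', lt_min hδ hδ', fun r hr hrr z hz => ?_⟩
  rw [← dist_eq_norm, s04c_moll_eq]
  apply ContDiffBump.dist_normed_convolution_le hu.aestronglyMeasurable
  intro x hx
  have hx' : dist x z < r := by simpa [bump] using hx
  have h1 : r < δ := hrr.trans_le (min_le_left _ _)
  have h2 : r < δ' := hrr.trans_le (min_le_right _ _)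
  apply h
  · exact closedBall_subset_cthickening hz δ (mem_closedBall.mpr (by linarith))
  · exact self_subset_cthickening K hz
  · linarith

end CF6

end

section

set_option autoImplicit false

open MeasureTheory Metric Set Filter Topology
open scoped ContDiff ENNReal ComplexConjugate

namespace CF6

/-- S10a. truncation functions: smooth, `T = 0` near `[-ε/2, ε/2]`, `0 ≤ T' ≤ 1`, `|T t - t| ≤ ε` for all `t`, `T' = 1` for `|t| ≥ ε`.
PROOF. `T t = ∫_0^t θ(s) ds`, `θ` smooth, `0 ≤ θ ≤ 1`, `θ = 0` on `|s| ≤ 2ε/3`, `θ = 1` for `|s| ≥ ε` (e.g. `θ s = 1 - bump s` with a `ContDiffBump`, or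
`Real.smoothTransition`). -/
theorem exists_trunc {ε : ℝ} (hε : 0 < ε) : ∃ T : ℝ → ℝ, ContDiff ℝ ∞ T ∧ (∀ t, |t| ≤ ε / 2 → T t = 0) ∧
    (∀ t, 0 ≤ deriv T t ∧ deriv T t ≤ 1) ∧ (∀ t, |T t - t| ≤ ε) ∧ (∀ t, ε ≤ |t| → deriv T t = 1) ∧
    (∀ t, |t| ≤ ε / 2 → deriv T t = 0) := by
  let b : ContDiffBump (0 : ℝ) := ⟨ε / 2, ε, by positivity, by linarith⟩
  have hb1 : ∀ s : ℝ, |s| ≤ ε / 2 → b s = 1 := by
    intro s hs
    apply b.one_of_mem_closedBall
    rw [mem_closedBall, dist_zero_right]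
    exact hs
  have hb0 : ∀ s : ℝ, ε ≤ |s| → b s = 0 := by
    intro s hs
    apply b.zero_of_le_dist
    rw [dist_zero_right]
    exact hs
  have hbn : ∀ s : ℝ, 0 ≤ b s := fun s => b.nonneg
  have hbl : ∀ s : ℝ, b s ≤ 1 := fun s => b.le_one
  have hbc : Continuous b := b.continuous
  have hbd : ContDiff ℝ ∞ b := b.contDiff
  let θ : ℝ → ℝ := fun s => 1 - b s
  have hθc : Continuous θ := continuous_const.sub hbc
  have hθd : ContDiff ℝ ∞ θ := contDiff_const.sub hbd
  let T : ℝ → ℝ := fun t => ∫ s in (0 : ℝ)..t, θ s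
  have hT : ∀ t, HasDerivAt T (θ t) t := fun t => (hθc.integral_hasStrictDerivAt 0 t).hasDerivAt
  have hderiv : ∀ t, deriv T t = θ t := fun t => (hT t).deriv
  have hderiv' : deriv T = θ := funext hderiv
  refine ⟨T, ?_, ?_, ?_, ?_, ?_, ?_⟩
  · rw [contDiff_infty_iff_deriv]
    refine ⟨fun t => (hT t).differentiableAt, ?_⟩
    rw [hderiv']
    exact hθd
  · intro t ht
    have h1 : ∫ s in (0 : ℝ)..t, θ s = ∫ s in (0 : ℝ)..t, (0 : ℝ) := by
      refine intervalIntegral.integral_congr (fun s hs => ?_)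
      have h2 : |s| ≤ |t| := by
        rcases le_total 0 t with h | h
        · rw [uIcc_of_le h] at hs
          rw [abs_of_nonneg hs.1, abs_of_nonneg h]
          exact hs.2
        · rw [uIcc_of_ge h] at hs
          rw [abs_of_nonpos hs.2, abs_of_nonpos h]
          linarith [hs.1]
      simp only [θ]
      rw [hb1 s (h2.trans ht), sub_self]
    change ∫ s in (0 : ℝ)..t, θ s = 0
    rw [h1, intervalIntegral.integral_zero]
  · intro t
    rw [hderiv]
    simp only [θ]
    constructor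
    · linarith [hbl t]
    · linarith [hbn t]
  · intro t
    have h1 : T t - t = - ∫ s in (0 : ℝ)..t, b s := by
      have h2 : T t = ∫ s in (0 : ℝ)..t, (1 - b s) := rfl
      rw [h2, intervalIntegral.integral_sub (intervalIntegrable_const)
        (hbc.intervalIntegrable _ _), intervalIntegral.integral_const]
      simp
    rw [h1, abs_neg]
    have small : ∀ r : ℝ, |r| ≤ ε → |∫ s in (0 : ℝ)..r, b s| ≤ ε := by
      intro r hr
      have h3 := intervalIntegral.norm_integral_le_of_norm_le_const (a := 0) (b := r) (C := 1)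
        (f := fun s => b s) (fun s _ => by
          rw [Real.norm_eq_abs, abs_of_nonneg (hbn s)]; exact hbl s)
      rw [Real.norm_eq_abs, sub_zero, one_mul] at h3
      exact h3.trans hr
    by_cases ht : |t| ≤ ε
    · exact small t ht
    · have ht' : ε < |t| := not_le.1 ht
      obtain ⟨r, hr, hr0⟩ : ∃ r : ℝ, |r| ≤ ε ∧ ∫ s in r..t, b s = 0 := by
        rcases le_total 0 t with h | h
        · rw [abs_of_nonneg h] at ht'
          refine ⟨ε, by rw [abs_of_pos hε], ?_⟩
          have h4 : ∫ s in ε..t, b s = ∫ s in ε..t, (0 : ℝ) := by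
            refine intervalIntegral.integral_congr (fun s hs => ?_)
            rw [uIcc_of_le ht'.le] at hs
            exact hb0 s (hs.1.trans (le_abs_self s))
          rw [h4, intervalIntegral.integral_zero]
        · rw [abs_of_nonpos h] at ht'
          refine ⟨-ε, by rw [abs_neg, abs_of_pos hε], ?_⟩
          have h4 : ∫ s in (-ε)..t, b s = ∫ s in (-ε)..t, (0 : ℝ) := by
            refine intervalIntegral.integral_congr (fun s hs => ?_)
            rw [uIcc_of_ge (by linarith)] at hs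
            refine hb0 s ?_
            have := neg_le_abs s
            linarith [hs.2]
          rw [h4, intervalIntegral.integral_zero]
      have h5 := intervalIntegral.integral_add_adjacent_intervals
        (hbc.intervalIntegrable (μ := volume) 0 r) (hbc.intervalIntegrable (μ := volume) r t)
      rw [hr0, add_zero] at h5
      rw [← h5]
      exact small r hr
  · intro t ht
    rw [hderiv]
    simp only [θ]
    rw [hb0 t ht, sub_zero]
  · intro t ht
    rw [hderiv]
    simp only [θ]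
    rw [hb1 t ht, sub_self]

end CF6

end
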