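import Pool.Agent.Lib.MP_cf6b16_an.Defs
import Pool.Agent.Lib.MP_cf6b16_an.K1

section

/-! # Module I of MP_cf6b16_an (assembly): definitions -/

open Complex MeasureTheory Set Filter Topology Metric
open scoped ENNReal

namespace CF6

/-- the part of `Ω` over the collar `S` and over `K` -/
def dom (Ω S K : Set ℂ) (h : ℂ → ℂ) : Set ℂ := {x | x ∈ Ω ∧ h x ∈ S ∪ K}

/-- Output of the cell theorem near one component: `F` maps `dom Ω S K h` bijectively onto the
collar `S`, matches `h` at the other end, tends to `K` at `L`; `e` is its energy bound. -/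
structure CellOut (Ω Ωs K L : Set ℂ) (h : ℂ → ℂ) (e : ℝ≥0∞) (S : Set ℂ) (F fx fy : ℂ → ℂ) :
    Prop where
  Sopen : IsOpen S
  Ssub : S ⊆ Ωs
  SK : IsOpen (S ∪ K)
  bij : BijOn F (dom Ω S K h) S
  acl : ACL2 (dom Ω S K h) F fx fy
  energy : en (dom Ω S K h) fx fy ≤ e
  glue : ∀ x ∈ Ω, h x ∉ S ∪ K → ∀ η > (0 : ℝ), ∃ δ > (0 : ℝ), ∀ y ∈ dom Ω S K h,
    ‖y - x‖ < δ → ‖F y - h y‖ < η
  proper : ∀ η > (0 : ℝ), ∃ κ > (0 : ℝ), ∀ x ∈ dom Ω S K h, infDist x L < κ → infDist (F x) K < η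

/-- What the assembly needs to know about a deformation `h` (limit of the homeomorphisms `hj`). -/
structure Deform {k : ℕ} (Ω Ωs : Set ℂ) (L Ks : Fin k → Set ℂ) (h hx hy : ℂ → ℂ)
    (hj : ℕ → ℂ → ℂ) : Prop where
  Oopen : IsOpen Ω
  Oconn : IsConnected Ω
  Obdd : Bornology.IsBounded Ω
  Oopen' : IsOpen Ωs
  Oconn' : IsConnected Ωs
  Obdd' : Bornology.IsBounded Ωs
  Lcl : ∀ i, IsClosed (L i)
  Lconn : ∀ i, IsConnected (L i)
  Lun : ⋃ i, L i = Ωᶜ
  Ldis : ∀ i j, i ≠ j → Disjoint (L i) (L j)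
  Kcl : ∀ i, IsClosed (Ks i)
  Kconn : ∀ i, IsConnected (Ks i)
  Kun : ⋃ i, Ks i = Ωsᶜ
  Kdis : ∀ i j, i ≠ j → Disjoint (Ks i) (Ks j)
  acl : ACL2 Ω h hx hy
  maps : MapsTo h Ω (closure Ωs)
  fib : ∀ y ∈ Ωs, IsConnected (Ω ∩ h ⁻¹' {y})
  pre : ∀ B ⊆ Ωs, IsOpen B → IsPreconnected B → IsPreconnected (Ω ∩ h ⁻¹' B)
  near : ∀ i, ∀ η > (0 : ℝ), ∃ κ > (0 : ℝ), ∀ x ∈ Ω, infDist x (L i) < κ →
    infDist (h x) (Ks i) < η
  homeo : ∀ j, IsHomeoOnto (hj j) Ω Ωs
  sense : ∀ j, SensePreserving (hj j) Ω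
  lim : TendstoLocallyUniformlyOn hj h atTop Ω
  close : ∀ Q ⊆ Ωs, IsCompact Q → ∀ η > (0 : ℝ), ∃ j, ∀ x ∈ Ω, hj j x ∈ Q → ‖hj j x - h x‖ < η

end CF6

end

section

/-! # Module I, row I2: the glued map is a proper monotone map

`G` as in I1. maps: if `x ∈ A i` then `G x ∈ S i ⊆ Ωs`; otherwise `G x = h x ∈ closure Ωs` and `h x ∉ ⋃ Ks i = Ωsᶜ`, so `h x ∈ Ωs`.
proper: `Q ⊆ Ωs` compact. `Ω ∩ G ⁻¹' Q` is bounded; it is closed in `ℂ`: let `x_n ∈ Ω`, `G x_n ∈ Q`, `x_n → x`. If `x ∈ Ω`: continuity. If `x ∈ Ωᶜ = ⋃ L i`, `x ∈ L i`: then `infDist x_n (L i) → 0`.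
`near` gives `infDist (h x_n) (Ks i) → 0`. Let `η = ` distance of `Q` to `⋃ Ks` (positive). If `G x_n = h x_n` infinitely often: contradiction to `h x_n = G x_n ∈ Q`. Otherwise (subsequence, fixed `m`) `x_n ∈ A m`, `h x_n ∈ S m ∪ Ks m`;
if `m = i`: `CellOut.proper` gives `infDist (G x_n) (Ks i) → 0`, contradiction; if `m ≠ i`: `h x_n ∈ S m ∪ Ks m` stays away from `Ks i` (hypothesis `hsep`), contradiction to `near`.
fibres: `y ∈ Ωs`. If `y ∈ S i`: a point `x` with `G x = y` is in `A i` (otherwise: in `A m`, `m ≠ i`, `G x ∈ S m` disjoint from `S i`; or `G x = h x ∉ S i`), so the fibre is the one point set given by `bij`.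
If `y` is in no `S i`: `G x = y` iff `h x = y` (`h x = y ∈ Ωs` and not in any `S i`, nor in `Ks i`, so `x ∉ A i`), so the fibre is the one of `h`, connected by `D.fib`. -/

open Complex MeasureTheory Set Filter Topology Metric
open scoped ENNReal

namespace CF6

theorem pmap_glue {k : ℕ} {Ω Ωs : Set ℂ} {Ks L : Fin k → Set ℂ} {h hx hy : ℂ → ℂ}
    {hj : ℕ → ℂ → ℂ} (D : Deform Ω Ωs L Ks h hx hy hj) {e : Fin k → ℝ≥0∞} {S : Fin k → Set ℂ}
    {F fx fy : Fin k → ℂ → ℂ}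
    (hc : ∀ i, CellOut Ω Ωs (Ks i) (L i) h (e i) (S i) (F i) (fx i) (fy i))
    (hdis : ∀ i j, i ≠ j → Disjoint (S i ∪ Ks i) (S j ∪ Ks j))
    (hsep : ∀ i j, i ≠ j → ∃ c > (0 : ℝ), ∀ w ∈ S i ∪ Ks i, c ≤ infDist w (Ks j))
    {G : ℂ → ℂ} (hG : ContinuousOn G Ω)
    (h1 : ∀ i, ∀ x ∈ dom Ω (S i) (Ks i) h, G x = F i x)
    (h2 : ∀ x ∈ Ω, (∀ i, h x ∉ S i ∪ Ks i) → G x = h x) : PMap Ω Ωs G := by
  -- on the cells
  have hcell : ∀ i, ∀ x ∈ dom Ω (S i) (Ks i) h, G x ∈ S i := by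
    intro i x hx
    rw [h1 i x hx]
    exact (hc i).bij.mapsTo hx
  have hKs : ∀ w, w ∉ Ωs ↔ ∃ i, w ∈ Ks i := by
    intro w
    rw [← Set.mem_compl_iff, ← D.Kun, Set.mem_iUnion]
  have halt : ∀ x ∈ Ω, (∃ i, x ∈ dom Ω (S i) (Ks i) h) ∨ (∀ i, h x ∉ S i ∪ Ks i) := by
    intro x hx
    by_cases hex : ∃ i, h x ∈ S i ∪ Ks i
    · obtain ⟨i, hi⟩ := hex
      exact Or.inl ⟨i, hx, hi⟩
    · exact Or.inr fun i hi => hex ⟨i, hi⟩
  refine ⟨hG, ?_, ?_, ?_⟩
  · -- maps
    intro x hx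
    rcases halt x hx with ⟨i, hi⟩ | hno
    · exact (hc i).Ssub (hcell i x hi)
    · rw [h2 x hx hno]
      by_contra hne
      obtain ⟨i, hi⟩ := (hKs _).1 hne
      exact hno i (Or.inr hi)
  · -- proper
    intro Q hQ hQc
    refine Metric.isCompact_of_isClosed_isBounded ?_ (D.Obdd.subset Set.inter_subset_left)
    refine isClosed_of_closure_subset fun x hx => ?_
    by_cases hxΩ : x ∈ Ω
    · refine ⟨hxΩ, ?_⟩
      have hcw : ContinuousWithinAt G (Ω ∩ G ⁻¹' Q) x := (hG x hxΩ).mono Set.inter_subset_left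
      have hm : MapsTo G (Ω ∩ G ⁻¹' Q) Q := fun z hz => hz.2
      have h3 := hcw.mem_closure hx hm
      rwa [hQc.isClosed.closure_eq] at h3
    · exfalso
      have hxL : x ∈ ⋃ i, L i := by
        rw [D.Lun]
        exact hxΩ
      obtain ⟨i, hxi⟩ := Set.mem_iUnion.1 hxL
      -- Q stays away from `Ks i`
      have hη : ∃ η > (0 : ℝ), ∀ q ∈ Q, η ≤ infDist q (Ks i) := by
        rcases Q.eq_empty_or_nonempty with hQe | hQn
        · refine ⟨1, one_pos, fun q hq => ?_⟩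
          rw [hQe] at hq
          exact absurd hq (Set.notMem_empty q)
        · obtain ⟨q0, hq0, hmin⟩ := hQc.exists_isMinOn hQn
            (continuous_infDist_pt (Ks i)).continuousOn
          refine ⟨infDist q0 (Ks i), ?_, fun q hq => hmin hq⟩
          have hq0K : q0 ∉ Ks i := fun hk => (hKs q0).2 ⟨i, hk⟩ (hQ hq0)
          exact ((D.Kcl i).notMem_iff_infDist_pos (D.Kconn i).nonempty).1 hq0K
      obtain ⟨η, hη0, hηQ⟩ := hη
      have hev : ∀ κ > (0 : ℝ), ∀ᶠ x' in 𝓝 x, infDist x' (L i) < κ := by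
        intro κ hκ
        filter_upwards [Metric.ball_mem_nhds x hκ] with x' hx'
        exact (infDist_le_dist_of_mem hxi).trans_lt (Metric.mem_ball.1 hx')
      have hnear : ∀ δ > (0 : ℝ), ∀ᶠ x' in 𝓝 x, x' ∈ Ω → infDist (h x') (Ks i) < δ := by
        intro δ hδ
        obtain ⟨κ, hκ, hκ'⟩ := D.near i δ hδ
        filter_upwards [hev κ hκ] with x' hx' hx'Ω
        exact hκ' x' hx'Ω hx'
      have hF : ∀ᶠ x' in 𝓝 x, x' ∈ dom Ω (S i) (Ks i) h → infDist (F i x') (Ks i) < η := by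
        obtain ⟨κ, hκ, hκ'⟩ := (hc i).proper η hη0
        filter_upwards [hev κ hκ] with x' hx' hx'd
        exact hκ' x' hx'd hx'
      have hother : ∀ m, ∀ᶠ x' in 𝓝 x, x' ∈ dom Ω (S m) (Ks m) h → m = i := by
        intro m
        by_cases hmi : m = i
        · exact Filter.Eventually.of_forall fun _ _ => hmi
        · obtain ⟨c, hc0, hc1⟩ := hsep m i hmi
          filter_upwards [hnear c hc0] with x' hx' hx'd
          exact absurd (hc1 _ hx'd.2) (not_le.2 (hx' hx'd.1))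
      have hall := Filter.eventually_all.2 hother
      have hfin : ∀ᶠ x' in 𝓝 x, ¬ (x' ∈ Ω ∩ G ⁻¹' Q) := by
        filter_upwards [hnear η hη0, hF, hall] with x' a1 a2 a3 hx'
        obtain ⟨hx'Ω, hx'Q⟩ := hx'
        have hx'Q' : G x' ∈ Q := hx'Q
        rcases halt x' hx'Ω with ⟨m, hm⟩ | hno
        · have hmi := a3 m hm
          subst hmi
          have h3 := a2 hm
          rw [← h1 m x' hm] at h3
          exact absurd (hηQ _ hx'Q') (not_le.2 h3)
        · have h3 := a1 hx'Ω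
          rw [← h2 x' hx'Ω hno] at h3
          exact absurd (hηQ _ hx'Q') (not_le.2 h3)
      exact (mem_closure_iff_frequently.1 hx) hfin
  · -- fibres
    intro y hy
    by_cases hyS : ∃ i, y ∈ S i
    · obtain ⟨i, hyi⟩ := hyS
      obtain ⟨x0, hx0, hx0y⟩ := (hc i).bij.surjOn hyi
      have hfib : Ω ∩ G ⁻¹' {y} = {x0} := by
        ext x
        constructor
        · rintro ⟨hxΩ, hxy⟩
          have hxy' : G x = y := hxy
          rcases halt x hxΩ with ⟨m, hm⟩ | hno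
          · have hSm := hcell m x hm
            rw [hxy'] at hSm
            have hmi : m = i := by
              by_contra hne
              exact Set.disjoint_left.1 (hdis m i hne) (Or.inl hSm) (Or.inl hyi)
            subst hmi
            rw [h1 m x hm] at hxy'
            exact (hc m).bij.injOn hm hx0 (by rw [hxy', hx0y])
          · rw [h2 x hxΩ hno] at hxy'
            exact absurd (Or.inl (by rw [hxy']; exact hyi)) (hno i)
        · intro hx
          have hx' : x = x0 := hx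
          rw [hx']
          exact ⟨hx0.1, by
            have h3 : G x0 = y := by rw [h1 i x0 hx0, hx0y]
            exact h3⟩
      rw [hfib]
      exact isConnected_singleton
    · have hfib : Ω ∩ G ⁻¹' {y} = Ω ∩ h ⁻¹' {y} := by
        ext x
        constructor
        · rintro ⟨hxΩ, hxy⟩
          have hxy' : G x = y := hxy
          rcases halt x hxΩ with ⟨m, hm⟩ | hno
          · have hSm := hcell m x hm
            rw [hxy'] at hSm
            exact absurd ⟨m, hSm⟩ hyS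
          · rw [h2 x hxΩ hno] at hxy'
            exact ⟨hxΩ, hxy'⟩
        · rintro ⟨hxΩ, hxy⟩
          have hxy' : h x = y := hxy
          have hno : ∀ i, h x ∉ S i ∪ Ks i := by
            intro i hi
            rw [hxy'] at hi
            rcases hi with hi | hi
            · exact hyS ⟨i, hi⟩
            · exact (hKs y).2 ⟨i, hi⟩ hy
          have h3 : G x = y := by rw [h2 x hxΩ hno, hxy']
          exact ⟨hxΩ, h3⟩
      rw [hfib]
      exact D.fib y hy

end CF6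

end
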