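import Pool.Agent.Lib.MP_cf6b16_an.F1
import Pool.Agent.Lib.MP_cf6b16_an.A1
import Pool.Agent.Lib.MP_cf6b16_an.I1

section

/-! # Definitions of MP_cf6b16_an shared by the modules C, D, E, G, N -/

open Complex MeasureTheory Set Filter Topology Metric
open scoped ENNReal

namespace CF6

/-- two sided Koebe estimate below height `y1`, constant `C0` -/
def Koebe (C0 y1 : ℝ) (K : Set ℂ) (Φ : ℂ → ℂ) : Prop :=
  ∀ u : ℂ, 0 < u.im → u.im ≤ y1 →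
    ‖deriv Φ u‖ * u.im ≤ C0 * infDist (Φ u) K ∧ infDist (Φ u) K ≤ C0 * (‖deriv Φ u‖ * u.im)

/-- the situation near one nondegenerate component `K` of the complement of the target -/
structure LimData (Ω K : Set ℂ) (ρ : ℂ → ℂ) (h g : ℂ → ℂ) (hj : ℕ → ℂ → ℂ) : Prop where
  Oopen : IsOpen Ω
  Oconn : IsConnected Ω
  chj : ∀ j, ContinuousOn (hj j) Ω
  avoid : ∀ j, MapsTo (hj j) Ω Kᶜ
  lim : TendstoLocallyUniformlyOn hj h atTop Ω
  glim : TendstoLocallyUniformlyOn (fun j x => ρ (hj j x)) g atTop Ω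
  nonconst : ∃ x ∈ Ω, h x ∉ K

/-- C7: the normalised map `ht`, constant on the fibres of `g` over the unit circle; `O` = hidden set -/
structure Normal (Ω K O : Set ℂ) (h g ht : ℂ → ℂ) : Prop where
  Oopen : IsOpen O
  Osub : O ⊆ Ω
  Og : ∀ x ∈ O, ‖g x‖ = 1
  Oconst : ∀ x ∈ O, ∀ᶠ y in 𝓝 x, g y = g x ∧ ht y = ht x
  eqh : ∀ x ∈ Ω, x ∉ O → ht x = h x
  cont : ContinuousOn ht Ω
  fib : ∀ x ∈ Ω, ∀ y ∈ Ω, ‖g x‖ = 1 → g x = g y → ht x = ht y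
  fib' : ∀ x ∈ Ω, ht x ∈ K ↔ ‖g x‖ = 1

/-- arc length along the curve `u = x + i τ(x)` -/
noncomputable def arcA (Φ : ℂ → ℂ) (τ : ℝ → ℝ) (x : ℝ) : ℝ :=
  ∫ s in (0 : ℝ)..x, ‖deriv Φ (s + τ s * I)‖ * ‖(1 + deriv τ s * I : ℂ)‖

/-- admissible depth functions -/
structure Depth (c r : ℝ) (τ : ℝ → ℝ) : Prop where
  smooth : ContDiff ℝ 2 τ
  per : ∀ x, τ (x + 2 * Real.pi) = τ x
  pos : ∀ x, 0 < τ x
  le : ∀ x, τ x ≤ r
  slope : ∀ x, |deriv τ x| ≤ c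

/-- the weighted push inequality for the curve `τ` -/
def PushIneq (Φ : ℂ → ℂ) (E : Set ℝ) (p : ℝ → ℂ) (τ : ℝ → ℝ) (C ε : ℝ) : Prop :=
  ∀ (a b : ℝ) (u q : ℝ → ℂ) (O : Set ℝ) (m : ℝ → ℝ), PathData Φ a b u q O →
    (∀ s ∈ Icc a b, (u s).im ≤ τ (u s).re) → (u a).im = τ (u a).re → (u b).im = τ (u b).re →
    IntervalIntegrable m volume a b → (∀ s, 0 ≤ m s) →
    (∀ s s', a ≤ s → s ≤ s' → s' ≤ b → ‖q s' - q s‖ ≤ ∫ t in s..s', m t) →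
    (∀ s ∈ Icc a b, s ∉ O → (u s).im = 0 → (u s).re ∈ E → q s = p (u s).re) →
    ∀ om : ℝ → ℝ, (∀ s, (u s).im = 0 ∧ (u s).re ∈ E ∧ s ∉ O → om s = 1 + C * ε) →
      (∀ s, ¬ ((u s).im = 0 ∧ (u s).re ∈ E ∧ s ∉ O) → om s = C) →
      |arcA Φ τ (u b).re - arcA Φ τ (u a).re| ≤ ∫ t in a..b, om t * m t

/-- the collar below the curve `τ`, in the `u` plane and in the target -/
def below (τ : ℝ → ℝ) : Set ℂ := {u | 0 < u.im ∧ u.im < τ u.re}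

def collar (Φ : ℂ → ℂ) (τ : ℝ → ℝ) : Set ℂ := Φ '' below τ

/-- one period of a set `X` invariant under `z ↦ z + 2πi` -/
def per1 (X : Set ℂ) : Set ℂ := X ∩ {z | 0 < z.im ∧ z.im < 2 * Real.pi}

/-- conformal or anticonformal covering of `A` by the `2πi`-periodic open set `X`. -/
structure Chart (X A : Set ℂ) (ψ : ℂ → ℂ) : Prop where
  Xopen : IsOpen X
  Xper : ∀ z, z ∈ X ↔ z + 2 * Real.pi * I ∈ X
  conf : DifferentiableOn ℂ ψ X ∨ DifferentiableOn ℂ (fun z => ψ ((starRingEnd ℂ) z))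
    ((starRingEnd ℂ) '' X)
  per : ∀ z ∈ X, ψ (z + 2 * Real.pi * I) = ψ z
  inj : ∀ z ∈ X, ∀ w ∈ X, ψ z = ψ w → ∃ n : ℤ, w = z + n * (2 * Real.pi * I)
  image : ψ '' X = A

/-- `G` = lift of `g` (log coordinate of the collar) over the strip; boundary values on the curve `τ`. -/
structure StripG (Ω A L : Set ℂ) (g : ℂ → ℂ) (τ : ℝ → ℝ) (T : ℝ) (ψ G : ℂ → ℂ) (α0 : ℝ → ℝ) :
    Prop where
  Tpos : 0 < T
  chart : Chart (strip T) A ψ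
  Gcont : ContinuousOn G {z | 0 ≤ z.re ∧ z.re < T}
  Gexp : ∀ z ∈ strip T, exp (I * G z) = g (ψ z)
  G0 : ∀ z ∈ strip T, 0 ≤ (G z).im
  Glt : ∀ z ∈ strip T, (G z).im < τ (G z).re
  Gper : ∀ z : ℂ, 0 ≤ z.re → z.re < T → G (z + 2 * Real.pi * I) = G z + 2 * Real.pi
  Gbd : ∀ θ : ℝ, G (θ * I) = α0 θ + τ (α0 θ) * I
  acont : Continuous α0
  amono : Monotone α0
  aper : ∀ θ, α0 (θ + 2 * Real.pi) = α0 θ + 2 * Real.pi
  tendL : ∀ η > (0 : ℝ), ∃ d > (0 : ℝ), ∀ z ∈ strip T, T - d < z.re → infDist (ψ z) L < η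
  cpt : ∃ Q ⊆ Ω, IsCompact Q ∧ ∃ d > (0 : ℝ), ∀ z ∈ strip T, z.re < d → ψ z ∈ Q

/-- pull back to the strip: `H = f ∘ ψ` with derivatives `Ht` (direction 1), `Hs` (direction I),
periodic; energies over preimages of sets agree. -/
structure Pull (X A : Set ℂ) (ψ f fx fy H Ht Hs : ℂ → ℂ) : Prop where
  eq : ∀ z ∈ X, H z = f (ψ z)
  mt : Measurable Ht
  ms : Measurable Hs
  pt : ∀ z, Ht (z + 2 * Real.pi * I) = Ht z
  ps : ∀ z, Hs (z + 2 * Real.pi * I) = Hs z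
  acl : ∀ R : ℝ, ACL2 (X ∩ {z | |z.im| < R}) H Ht Hs
  en : ∀ E : Set ℂ, MeasurableSet E → en (per1 X ∩ ψ ⁻¹' E) Ht Hs = en (A ∩ E) fx fy

end CF6

end

section

/-!
# Data of a cell in strip coordinates (for the boundary extension), and of the cell of a point component
-/

open Complex MeasureTheory Set Filter Topology Metric
open scoped ENNReal ComplexConjugate

namespace CF6

/-- the target curve `u = x + i τ(x)`: only what is needed for the boundary extension -/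
structure CurveData (Φ : ℂ → ℂ) (τ : ℝ → ℝ) : Prop where
  cτ : Continuous τ
  per : ∀ x, τ (x + 2 * Real.pi) = τ x
  pos : ∀ x, 0 < τ x
  lip : ∀ x y, |τ x - τ y| ≤ |x - y|
  cΦ : ContinuousOn Φ UHP
  perΦ : ∀ u ∈ UHP, Φ (u + 2 * Real.pi) = Φ u
  injΦ : ∀ u ∈ UHP, ∀ v ∈ UHP, Φ u = Φ v → ∃ m : ℤ, v = u + 2 * Real.pi * m

/-- `U` is the lift (to the half plane coordinate) of a monotone map of the annulus `strip T / 2 π i`
onto the collar below the curve `τ`; `Re z → 0` corresponds to the curve. -/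
structure CellData (τ : ℝ → ℝ) (T : ℝ) (U : ℂ → ℂ) : Prop where
  T0 : 0 < T
  cU : ContinuousOn U (strip T)
  per : ∀ z ∈ strip T, U (z + 2 * Real.pi * Complex.I) = U z + 2 * Real.pi
  lo : ∀ z ∈ strip T, 0 ≤ (U z).im ∧ (U z).im < τ (U z).re
  bd : ∀ η > (0 : ℝ), ∃ d > (0 : ℝ), ∀ z ∈ strip T, z.re < d → τ (U z).re - (U z).im < η
  mc : ∃ κ > (0 : ℝ), ∀ B : Set ℂ, IsOpen B → (∀ u, u ∈ B ↔ u + 2 * Real.pi ∈ B) →
    (∀ u ∈ B, 0 < u.im ∧ τ u.re - κ < u.im ∧ u.im < τ u.re) →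
    IsConnected ((fun u => Complex.exp (Complex.I * u)) '' B) →
    IsConnected ((fun z => Complex.exp (-conj z)) '' {z | z ∈ strip T ∧ U z ∈ B})

/-- the `u` coordinate of a punctured disc: `u = x + i y ↦ q + y exp (i x)` -/
noncomputable def pol (q : ℂ) (u : ℂ) : ℂ := q + u.im * exp (I * u.re)

/-- the cell of a point component `q`: `X = strip T` or the right half plane, `Hb` = boundary extension
of `h ∘ ψ`. -/
structure PointG (Ω A L : Set ℂ) (q : ℂ) (ρ0 : ℝ) (X : Set ℂ) (h ψ Hb : ℂ → ℂ) (α0 : ℝ → ℝ) :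
    Prop where
  pos : 0 < ρ0
  Xf : (∃ T > (0 : ℝ), X = strip T) ∨ X = rhp
  chart : Chart X A ψ
  Hcont : ContinuousOn Hb {z | z ∈ X ∨ z.re = 0}
  Heq : ∀ z ∈ X, Hb z = h (ψ z)
  Hbd : ∀ θ : ℝ, Hb (θ * I) = q + ρ0 * exp (I * α0 θ)
  Hlt : ∀ z ∈ X, dist (Hb z) q < ρ0
  acont : Continuous α0
  amono : Monotone α0
  aper : ∀ θ, α0 (θ + 2 * Real.pi) = α0 θ + 2 * Real.pi
  tendL : ∀ η > (0 : ℝ), ∃ a : ℝ, (a : ℂ) ∈ X ∧ ∀ z ∈ X, a < z.re → infDist (ψ z) L < η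
  cpt : ∃ Q ⊆ Ω, IsCompact Q ∧ ∃ d > (0 : ℝ), ∀ z ∈ X, z.re < d → ψ z ∈ Q

end CF6

end
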