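import Pool.Agent.Lib.MP_cf6b16_an.A1
import Pool.Agent.Lib.MP_cf6b16_an.DefsB

section

/-!
# A02: components of the complement of a bounded domain

All statements are elementary. Proofs:

* `exists_comps`: the set `{C | ∃ z ∈ Ωᶜ, C = connectedComponentIn Ωᶜ z}` is finite with `k`
  elements; enumerate it (`Finite.equivFin`, `Nat.card`/`encard`), components of a closed set are
  closed (`IsClosed.connectedComponentIn`? or: closure of the component inside the closed `Ωᶜ` is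
  preconnected, `IsPreconnected.subset_connectedComponentIn`), connected, pairwise disjoint or equal
  (`connectedComponentIn_disjoint`/`connectedComponentIn_eq`), they cover `Ωᶜ`.
* `meets`: otherwise `L i` is closed and its complement `closure Ω ∪ ⋃_{m ≠ i} L m` is closed (finite
  union), so `L i` is clopen, nonempty, so `L i = univ`, but `Ω` is nonempty.
* `union_conn`: `Ω ∪ ⋃_{i ∈ s} L i`: for every `i`, `Ω ∪ L i` is connected, because `L i` meets
  `closure Ω` (`IsPreconnected.union'`: if `x ∈ L i ∩ closure Ω` then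
  `Ω ∪ {x}` is preconnected (`IsPreconnected.subset_closure`) and `L i` is preconnected, both contain
  `x`); all contain a point of `Ω` (`isPreconnected_sUnion`/`isPreconnected_iUnion`). Open, since the
  complement is the finite union of the closed `L i`, `i ∉ s`.
* `unbdd`: `Ω ⊆ closedBall 0 R`. `{z | R < ‖z‖}` is preconnected (image of a rectangle under polar
  coordinates or Mathlib `isPreconnected_compl_closedBall`-like lemma for `1 < rank ℝ ℂ`,
  e.g. `IsConnected (closedBall 0 R)ᶜ`: search), contained in the finite disjoint union of the closed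
  `L i`, hence in exactly one of them, `L i0` (the sets `L i ∩ {R < ‖z‖}` are clopen in it;
  `IsPreconnected.subset_left_of_subset_union` style or `isPreconnected_iff_subset_of_disjoint_closed`
  with `L i0` and `⋃_{m ≠ i0} L m`).
  The other `L i` are contained in `closedBall 0 R`: compact.
* `sep`: for `i ≠ j` one of `L i`, `L j` is compact, the other is closed, disjoint:
  `Metric.infDist`/`IsCompact.exists_thickening...` (`Disjoint.exists_thickenings`), minimum over the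
  finitely many pairs.
* `infDist_eq`: `Ωᶜ = ⋃ L i`; `infDist x (⋃ ..)` is the minimum. Take `y ∈ Ωᶜ` with
  `dist x y = infDist x Ωᶜ` (`IsClosed.exists_infDist_eq_dist`), `y ∈ L i`.
* `core`: `{x ∈ Ω | ε ≤ infDist x Ωᶜ}` = `{x | ε ≤ infDist x Ωᶜ} ∩ closure Ω`-type argument: closed
  (`x ∉ Ω` has `infDist x Ωᶜ = 0 < ε`, so the condition `x ∈ Ω` is automatic) and bounded.
-/

open Complex Set Filter Topology Metric

namespace CF6

section

variable {k : ℕ} {Ω : Set ℂ} {L : Fin k → Set ℂ}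

theorem a02_outer {R : ℝ} (hR : 0 < R) : IsPreconnected {z : ℂ | R < ‖z‖} := by
  have h1 : {z : ℂ | R < ‖z‖} = exp '' {w : ℂ | Real.log R < w.re} := by
    ext z
    constructor
    · intro hz
      have hz' : R < ‖z‖ := hz
      have hz0 : z ≠ 0 := by
        rintro rfl
        rw [norm_zero] at hz'
        linarith
      refine ⟨log z, ?_, exp_log hz0⟩
      change Real.log R < (log z).re
      rw [log_re]
      exact Real.log_lt_log hR hz'
    · rintro ⟨w, hw, rfl⟩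
      change R < ‖exp w‖
      rw [norm_exp]
      have hw' : Real.log R < w.re := hw
      exact (Real.log_lt_iff_lt_exp hR).1 hw'
  rw [h1]
  refine IsPreconnected.image ?_ _ continuous_exp.continuousOn
  exact (convex_halfSpace_re_gt (Real.log R)).isPreconnected

theorem a02_sub (H : Comps Ω L) (i : Fin k) : L i ⊆ Ωᶜ := by
  rw [← H.union]
  exact Set.subset_iUnion L i

theorem Comps.unbdd (H : Comps Ω L) :
    ∃ i0, ¬ Bornology.IsBounded (L i0) ∧ ∀ i, i ≠ i0 → IsCompact (L i) := by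
  obtain ⟨R0, hR0⟩ := H.bdd.subset_closedBall (0 : ℂ)
  set R : ℝ := max R0 1 with hR
  have hRpos : 0 < R := lt_of_lt_of_le one_pos (le_max_right _ _)
  have hE := a02_outer hRpos
  have hEsub : ∀ z : ℂ, R < ‖z‖ → z ∈ ⋃ i, L i := by
    intro z hz
    rw [H.union]
    intro hzΩ
    have h1 := hR0 hzΩ
    rw [mem_closedBall_zero_iff] at h1
    have h2 := le_max_left R0 1
    linarith
  have hz0 : R < ‖((R + 1 : ℝ) : ℂ)‖ := by
    rw [Complex.norm_real, Real.norm_of_nonneg (by linarith)]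
    linarith
  obtain ⟨i0, hi0⟩ := Set.mem_iUnion.1 (hEsub _ hz0)
  have hcl : IsClosed (⋃ m : {m : Fin k // m ≠ i0}, L m.1) :=
    isClosed_iUnion_of_finite fun m => H.closed m.1
  have hsub : {z : ℂ | R < ‖z‖} ⊆ L i0 := by
    rcases isPreconnected_iff_subset_of_disjoint_closed.1 hE (L i0) _ (H.closed i0) hcl (by
      intro z hz
      obtain ⟨i, hi⟩ := Set.mem_iUnion.1 (hEsub z hz)
      by_cases hii : i = i0
      · left
        rw [← hii]
        exact hi
      · right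
        exact Set.mem_iUnion.2 ⟨⟨i, hii⟩, hi⟩) (by
      rw [Set.eq_empty_iff_forall_notMem]
      rintro z ⟨-, hz1, hz2⟩
      obtain ⟨m, hm⟩ := Set.mem_iUnion.1 hz2
      exact Set.disjoint_left.1 (H.disj i0 m.1 (Ne.symm m.2)) hz1 hm) with h | h
    · exact h
    · exfalso
      obtain ⟨m, hm⟩ := Set.mem_iUnion.1 (h hz0)
      exact Set.disjoint_left.1 (H.disj i0 m.1 (Ne.symm m.2)) hi0 hm
  refine ⟨i0, ?_, ?_⟩
  · intro hb
    obtain ⟨r, hr⟩ := hb.subset_closedBall (0 : ℂ)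
    have h1 : R < ‖((max R r + 1 : ℝ) : ℂ)‖ := by
      rw [Complex.norm_real, Real.norm_of_nonneg (by linarith [le_max_left R r])]
      linarith [le_max_left R r]
    have h2 := hr (hsub h1)
    rw [mem_closedBall_zero_iff, Complex.norm_real,
      Real.norm_of_nonneg (by linarith [le_max_left R r])] at h2
    linarith [le_max_right R r]
  · intro i hi
    refine Metric.isCompact_of_isClosed_isBounded (H.closed i) ?_
    refine (isBounded_closedBall (x := (0 : ℂ)) (r := R)).subset fun z hz => ?_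
    rw [mem_closedBall_zero_iff]
    by_contra hlt
    push Not at hlt
    exact Set.disjoint_left.1 (H.disj i i0 hi) hz (hsub hlt)

theorem a02_min {ι : Type*} [Finite ι] (D : ι → ℝ) (hD : ∀ i, 0 < D i) : ∃ d > (0 : ℝ), ∀ i, d ≤ D i := by
  rcases isEmpty_or_nonempty ι with h | h
  · exact ⟨1, one_pos, fun i => (IsEmpty.false i).elim⟩
  · obtain ⟨i0, hi0⟩ := Finite.exists_min D
    exact ⟨D i0, hD i0, hi0⟩

theorem a02_pair {A B : Set ℂ} (hA : IsCompact A) (hB : IsClosed B) (hBn : B.Nonempty)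
    (hd : Disjoint A B) : ∃ d > (0 : ℝ), ∀ x ∈ A, ∀ y ∈ B, d ≤ dist x y := by
  rcases A.eq_empty_or_nonempty with h0 | h0
  · exact ⟨1, one_pos, fun x hx => absurd hx (by rw [h0]; exact Set.notMem_empty x)⟩
  · obtain ⟨x0, hx0, hmin⟩ := hA.exists_isMinOn h0 (continuous_infDist_pt B).continuousOn
    refine ⟨infDist x0 B, (hB.notMem_iff_infDist_pos hBn).1 (Set.disjoint_left.1 hd hx0), ?_⟩
    intro x hx y hy
    exact (isMinOn_iff.1 hmin x hx).trans (infDist_le_dist_of_mem hy)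

theorem Comps.sep (H : Comps Ω L) :
    ∃ d > (0 : ℝ), ∀ i j, i ≠ j → ∀ x ∈ L i, ∀ y ∈ L j, d ≤ dist x y := by
  obtain ⟨i0, -, hc⟩ := H.unbdd
  have key : ∀ p : Fin k × Fin k, ∃ d > (0 : ℝ), p.1 ≠ p.2 → ∀ x ∈ L p.1, ∀ y ∈ L p.2, d ≤ dist x y := by
    rintro ⟨i, j⟩
    by_cases hij : i = j
    · exact ⟨1, one_pos, fun h => absurd hij h⟩
    · by_cases hi : i = i0
      · have hj : j ≠ i0 := fun h => hij (hi.trans h.symm)
        obtain ⟨d, hd, h1⟩ := a02_pair (hc j hj) (H.closed i) (H.cconn i).nonempty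
          (H.disj j i (Ne.symm hij))
        exact ⟨d, hd, fun _ x hx y hy => by
          rw [dist_comm]
          exact h1 y hy x hx⟩
      · obtain ⟨d, hd, h1⟩ := a02_pair (hc i hi) (H.closed j) (H.cconn j).nonempty (H.disj i j hij)
        exact ⟨d, hd, fun _ => h1⟩
  choose D hD hD' using key
  obtain ⟨d, hd, hdD⟩ := a02_min D hD
  exact ⟨d, hd, fun i j hij x hx y hy => (hdD (i, j)).trans (hD' (i, j) hij x hx y hy)⟩

theorem a02_compl_nonempty {Ω : Set ℂ} (hb : Bornology.IsBounded Ω) : (Ωᶜ).Nonempty := by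
  rw [Set.nonempty_compl]
  rintro rfl
  exact NormedSpace.unbounded_univ ℝ ℂ hb

theorem Comps.infDist_eq (H : Comps Ω L) (x : ℂ) :
    (∃ i, infDist x Ωᶜ = infDist x (L i)) ∧ ∀ i, infDist x Ωᶜ ≤ infDist x (L i) := by
  have h2 : ∀ i, infDist x Ωᶜ ≤ infDist x (L i) := fun i =>
    infDist_le_infDist_of_subset (a02_sub H i) (H.cconn i).nonempty
  refine ⟨?_, h2⟩
  obtain ⟨y, hy, hxy⟩ := H.isOpen.isClosed_compl.exists_infDist_eq_dist (a02_compl_nonempty H.bdd) x
  have hy' : y ∈ ⋃ i, L i := by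
    rw [H.union]
    exact hy
  obtain ⟨i, hi⟩ := Set.mem_iUnion.1 hy'
  refine ⟨i, le_antisymm (h2 i) ?_⟩
  rw [hxy]
  exact infDist_le_dist_of_mem hi

theorem Comps.core (H : Comps Ω L) {ε : ℝ} (hε : 0 < ε) :
    IsCompact {x | ε ≤ infDist x Ωᶜ} ∧ {x | ε ≤ infDist x Ωᶜ} ⊆ Ω := by
  have hQs : {y | ε ≤ infDist y Ωᶜ} ⊆ Ω := by
    intro y hy
    by_contra hyn
    have h1 : infDist y Ωᶜ = 0 := infDist_zero_of_mem hyn
    have h2 : ε ≤ infDist y Ωᶜ := hy
    linarith
  refine ⟨Metric.isCompact_of_isClosed_isBounded ?_ (H.bdd.subset hQs), hQs⟩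
  exact isClosed_le continuous_const (continuous_infDist_pt _)

theorem a02_meets_frontier {T Ωs : Set ℂ} (hT : IsPreconnected T) (ho : IsOpen Ωs) {w y : ℂ}
    (hw : w ∈ T) (hwO : w ∈ Ωs) (hy : y ∈ T) (hyO : y ∉ Ωs) : ∃ p ∈ T, p ∈ frontier Ωs := by
  by_contra hno
  push Not at hno
  have hcl : ∀ z ∈ T, z ∉ Ωs → z ∉ closure Ωs := by
    intro z hz hzO hzc
    refine hno z hz ?_
    rw [ho.frontier_eq]
    exact ⟨hzc, hzO⟩
  obtain ⟨z, -, hz1, hz2⟩ := hT Ωs (closure Ωs)ᶜ ho isClosed_closure.isOpen_compl (by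
    intro z hz
    by_cases hzO : z ∈ Ωs
    · exact Or.inl hzO
    · exact Or.inr (hcl z hz hzO)) ⟨w, hw, hwO⟩ ⟨y, hy, hcl y hy hyO⟩
  exact hz2 (subset_closure hz1)

/-- for points of the closure of a bounded domain the two distance functions agree -/
theorem infDist_frontier {Ωs : Set ℂ} (ho : IsOpen Ωs) (hb : Bornology.IsBounded Ωs)
    (hn : Ωs.Nonempty) {w : ℂ} (hw : w ∈ closure Ωs) : infDist w (frontier Ωs) = infDist w Ωsᶜ := by
  have hcn := a02_compl_nonempty hb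
  have hsub : frontier Ωs ⊆ Ωsᶜ := by
    rw [ho.frontier_eq]
    exact fun z hz => hz.2
  by_cases hwO : w ∈ Ωs
  · obtain ⟨y, hy, hxy⟩ := ho.isClosed_compl.exists_infDist_eq_dist hcn w
    have hseg : IsPreconnected (segment ℝ w y) := (convex_segment w y).isPreconnected
    obtain ⟨p, hp, hpf⟩ := a02_meets_frontier hseg ho (left_mem_segment ℝ w y) hwO
      (right_mem_segment ℝ w y) hy
    have hwp : dist w p ≤ dist w y := by
      have h1 : segment ℝ w y ⊆ closedBall w (dist w y) :=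
        (convex_closedBall w (dist w y)).segment_subset (mem_closedBall_self dist_nonneg)
          (by rw [mem_closedBall, dist_comm])
      have h2 := h1 hp
      rw [mem_closedBall, dist_comm] at h2
      exact h2
    refine le_antisymm ?_ (infDist_le_infDist_of_subset hsub ⟨p, hpf⟩)
    rw [hxy]
    exact (infDist_le_dist_of_mem hpf).trans hwp
  · have hwf : w ∈ frontier Ωs := by
      rw [ho.frontier_eq]
      exact ⟨hw, hwO⟩
    rw [infDist_zero_of_mem hwf, infDist_zero_of_mem (show w ∈ Ωsᶜ from hwO)]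

end

end CF6

end

section

/-!
# A03: the ends of a bounded `k`-connected domain are connected

PROOF. Let `d` be the constant of `Comps.sep`, `ε0 = d / 2`. For `0 < ε ≤ ε0` let
`N = {x | infDist x (L i) < ε} = thickening ε (L i)`. It is open and connected (union of the balls
`ball p ε`, `p ∈ L i`, each meets the connected set `L i`: `isPreconnected_sUnion`-type argument, or
`IsConnected.thickening` if present). `N` does not meet `L m`, `m ≠ i`
(`infDist x (L i) < d/2`, `x ∈ L m` would give points at distance `< d`). Hence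
`N ∩ (L i)ᶜ = {x ∈ Ω | infDist x (L i) < ε}`. `N ∪ (L i)ᶜ = univ`; `janiszewski` with `compl_conn`.
Nonempty: a point of `L i ∩ closure Ω` (`Comps.meets`) has points of `Ω` at distance `< ε`.
-/

open Complex Set Filter Topology Metric

namespace CF6

section

variable {k : ℕ} {Ω : Set ℂ} {L : Fin k → Set ℂ}

theorem isConnected_thick {X : Set ℂ} (hX : IsConnected X) {ε : ℝ} (hε : 0 < ε) :
    IsOpen {x | infDist x X < ε} ∧ IsConnected {x | infDist x X < ε} := by
  refine ⟨isOpen_lt (continuous_infDist_pt _) continuous_const, ?_⟩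
  have hsub : X ⊆ {x | infDist x X < ε} := by
    intro x hx
    change infDist x X < ε
    rw [infDist_zero_of_mem hx]
    exact hε
  obtain ⟨p0, hp0⟩ := hX.nonempty
  refine ⟨⟨p0, hsub hp0⟩, isPreconnected_of_forall p0 ?_⟩
  intro y hy
  obtain ⟨q, hq, hyq⟩ := (infDist_lt_iff hX.nonempty).1 (show infDist y X < ε from hy)
  refine ⟨X ∪ ball q ε, ?_, Or.inl hp0, Or.inr hyq, ?_⟩
  · refine Set.union_subset hsub ?_
    intro z hz
    exact lt_of_le_of_lt (infDist_le_dist_of_mem hq) hz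
  · exact IsPreconnected.union q hq (mem_ball_self hε) hX.isPreconnected
      (convex_ball q ε).isPreconnected

theorem a03_subset (H : Comps Ω L) (i : Fin k) : L i ⊆ Ωᶜ := by
  rw [← H.union]
  exact Set.subset_iUnion L i

/-- the small collars are disjoint and connected -/
theorem Comps.ends (H : Comps Ω L) :
    ∃ ε0 > (0 : ℝ), (∀ i j, i ≠ j → ∀ x, infDist x (L i) < ε0 → ε0 ≤ infDist x (L j)) ∧
      ∀ i, ∀ ε : ℝ, 0 < ε → ε ≤ ε0 → IsConnected {x | x ∈ Ω ∧ infDist x (L i) < ε} := by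
  obtain ⟨d, hd, hsep⟩ := H.sep
  refine ⟨d / 2, by positivity, ?_, ?_⟩
  · intro i j hij x hx
    by_contra hlt
    push Not at hlt
    obtain ⟨p, hp, hxp⟩ := (infDist_lt_iff (H.cconn i).nonempty).1 hx
    obtain ⟨q, hq, hxq⟩ := (infDist_lt_iff (H.cconn j).nonempty).1 hlt
    have h1 := hsep i j hij p hp q hq
    have h2 := dist_triangle p x q
    rw [dist_comm p x] at h2
    linarith
  · intro i ε hε hεd
    obtain ⟨hNo, hNc⟩ := isConnected_thick (H.cconn i) hε
    obtain ⟨hCo, hCc⟩ := H.compl_conn i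
    have hset : {x | x ∈ Ω ∧ infDist x (L i) < ε} = {x | infDist x (L i) < ε} ∩ (L i)ᶜ := by
      ext x
      constructor
      · rintro ⟨hx, hx'⟩
        exact ⟨hx', fun hxi => a03_subset H i hxi hx⟩
      · rintro ⟨hx, hx'⟩
        refine ⟨?_, hx⟩
        by_contra hxO
        have h1 : x ∈ ⋃ m, L m := by
          rw [H.union]
          exact hxO
        obtain ⟨m, hm⟩ := Set.mem_iUnion.1 h1
        have hmi : i ≠ m := by
          rintro rfl
          exact hx' hm
        obtain ⟨p, hp, hxp⟩ := (infDist_lt_iff (H.cconn i).nonempty).1 (show infDist x (L i) < ε from hx)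
        have h2 := hsep i m hmi p hp x hm
        rw [dist_comm] at h2
        linarith
    have hun : {x | infDist x (L i) < ε} ∪ (L i)ᶜ = univ := by
      rw [Set.eq_univ_iff_forall]
      intro x
      by_cases hx : x ∈ L i
      · left
        change infDist x (L i) < ε
        rw [infDist_zero_of_mem hx]
        exact hε
      · right
        exact hx
    refine ⟨?_, ?_⟩
    · obtain ⟨p, hp, hp'⟩ := H.meets i
      obtain ⟨q, hq, hpq⟩ := Metric.mem_closure_iff.1 hp' ε hε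
      refine ⟨q, hq, ?_⟩
      refine lt_of_le_of_lt (infDist_le_dist_of_mem hp) ?_
      rw [dist_comm]
      exact hpq
    · rw [hset]
      exact janiszewski hNo hCo hNc.isPreconnected hCc.isPreconnected hun

/-- iterated Janiszewski: removing the components which an open connected set contains or misses -/
theorem Comps.inter_conn (H : Comps Ω L) {O : Set ℂ} (hO : IsOpen O) (cO : IsConnected O)
    (h : ∀ i, L i ⊆ O ∨ Disjoint (L i) O) : IsConnected (O ∩ Ω) := by
  have key : ∀ s : Finset (Fin k), IsOpen (O \ ⋃ i ∈ s, L i) ∧ IsPreconnected (O \ ⋃ i ∈ s, L i) := by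
    intro s
    induction s using Finset.induction_on with
    | empty =>
      simp only [Finset.notMem_empty, Set.iUnion_false, Set.iUnion_empty, Set.diff_empty]
      exact ⟨hO, cO.isPreconnected⟩
    | insert i s his ih =>
      obtain ⟨ih1, ih2⟩ := ih
      have hset : O \ ⋃ j ∈ insert i s, L j = (O \ ⋃ j ∈ s, L j) ∩ (L i)ᶜ := by
        ext x
        simp only [Finset.mem_insert, Set.mem_diff, Set.mem_iUnion, Set.mem_inter_iff, Set.mem_compl_iff,
          not_exists]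
        constructor
        · rintro ⟨h1, h2⟩
          exact ⟨⟨h1, fun j hj => h2 j (Or.inr hj)⟩, h2 i (Or.inl rfl)⟩
        · rintro ⟨⟨h1, h2⟩, h3⟩
          refine ⟨h1, fun j hj => ?_⟩
          rcases hj with rfl | hj
          · exact h3
          · exact h2 j hj
      rw [hset]
      refine ⟨ih1.inter (H.closed i).isOpen_compl, ?_⟩
      rcases h i with hi | hi
      · refine janiszewski ih1 (H.closed i).isOpen_compl ih2 (H.compl_conn i).2.isPreconnected ?_
        rw [Set.eq_univ_iff_forall]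
        intro x
        by_cases hx : x ∈ L i
        · left
          refine ⟨hi hx, ?_⟩
          intro hx'
          obtain ⟨j, hj⟩ := Set.mem_iUnion.1 hx'
          obtain ⟨hjs, hxj⟩ := Set.mem_iUnion.1 hj
          have hij : i ≠ j := by
            rintro rfl
            exact his hjs
          exact Set.disjoint_left.1 (H.disj i j hij) hx hxj
        · right
          exact hx
      · have h3 : (O \ ⋃ j ∈ s, L j) ∩ (L i)ᶜ = O \ ⋃ j ∈ s, L j := by
          rw [Set.inter_eq_left]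
          intro x hx hxi
          exact Set.disjoint_left.1 hi hxi hx.1
        rw [h3]
        exact ih2
  have hfin : O \ ⋃ i ∈ (Finset.univ : Finset (Fin k)), L i = O ∩ Ω := by
    simp only [Finset.mem_univ, Set.iUnion_true]
    rw [H.union, Set.diff_compl]
  refine ⟨?_, ?_⟩
  · by_contra hne
    rw [Set.not_nonempty_iff_eq_empty] at hne
    have hOeq : O = ⋃ i ∈ {i : Fin k | L i ⊆ O}, L i := by
      ext x
      constructor
      · intro hx
        have hx' : x ∈ ⋃ i, L i := by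
          rw [H.union]
          intro hxΩ
          have : x ∈ O ∩ Ω := ⟨hx, hxΩ⟩
          rw [hne] at this
          exact this
        obtain ⟨i, hi⟩ := Set.mem_iUnion.1 hx'
        refine Set.mem_biUnion (x := i) ?_ hi
        rcases h i with hi' | hi'
        · exact hi'
        · exact absurd hx (Set.disjoint_left.1 hi' hi)
      · intro hx
        obtain ⟨i, hi, hxi⟩ := Set.mem_iUnion₂.1 hx
        exact hi hxi
    have hcl : IsClosed O := by
      rw [hOeq]
      exact Set.Finite.isClosed_biUnion (Set.toFinite _) fun i _ => H.closed i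
    have huniv : O = univ := IsClopen.eq_univ ⟨hcl, hO⟩ cO.nonempty
    obtain ⟨x, hx⟩ := H.conn.nonempty
    have : x ∈ O ∩ Ω := ⟨by rw [huniv]; trivial, hx⟩
    rw [hne] at this
    exact this
  · rw [← hfin]
    exact (key Finset.univ).2

end

end CF6

end

section

/-!
# A04: elementary facts on `IsHomeoOnto`

* `inverse`: take the `g` of the definition.
* `compact_preimage`: `Ω ∩ f ⁻¹' Q = g '' Q` and `g` is continuous on `Q ⊆ Ωs`.
* `conn_preimage`: `Ω ∩ f ⁻¹' B = g '' B`.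
* `proper`: `Q = {y | ε ≤ infDist y Ωsᶜ}` is a compact subset of `Ωs` (closed, bounded since it is
  contained in `Ωs` for `ε > 0`), so `Ω ∩ f ⁻¹' Q` is a compact subset of the open set `Ω` and has
  positive distance `κ` from `Ωᶜ` (if it is nonempty). (`Ω` bounded is needed: otherwise `Ω = univ`,
  `infDist x ∅ = 0`, is a counterexample.)
-/

open Complex Set Filter Topology Metric

namespace CF6

theorem IsHomeoOnto.inverse {f : ℂ → ℂ} {Ω Ωs : Set ℂ} (h : IsHomeoOnto f Ω Ωs) :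
    ∃ g : ℂ → ℂ, IsHomeoOnto g Ωs Ω ∧ InvOn g f Ω Ωs ∧ MapsTo g Ωs Ω := by
  obtain ⟨hc, hb, g, hg, hinv⟩ := h
  have hgm : MapsTo g Ωs Ω := by
    intro y hy
    obtain ⟨x, hx, rfl⟩ := hb.surjOn hy
    rw [hinv.1 hx]
    exact hx
  exact ⟨g, ⟨hg, hinv.symm.bijOn hgm hb.mapsTo, f, hc, hinv.symm⟩, hinv, hgm⟩

theorem a04_preimage {f : ℂ → ℂ} {Ω Ωs Q : Set ℂ} (hs : Q ⊆ Ωs)
    {g : ℂ → ℂ} (hinv : InvOn g f Ω Ωs) (hgm : MapsTo g Ωs Ω) : Ω ∩ f ⁻¹' Q = g '' Q := by
  ext x
  constructor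
  · rintro ⟨hx, hx'⟩
    exact ⟨f x, hx', hinv.1 hx⟩
  · rintro ⟨y, hy, rfl⟩
    refine ⟨hgm (hs hy), ?_⟩
    change f (g y) ∈ Q
    rw [hinv.2 (hs hy)]
    exact hy

theorem IsHomeoOnto.compact_preimage {f : ℂ → ℂ} {Ω Ωs Q : Set ℂ} (h : IsHomeoOnto f Ω Ωs)
    (hQ : IsCompact Q) (hs : Q ⊆ Ωs) : IsCompact (Ω ∩ f ⁻¹' Q) := by
  obtain ⟨g, hg, hinv, hgm⟩ := h.inverse
  rw [a04_preimage hs hinv hgm]
  exact hQ.image_of_continuousOn (hg.1.mono hs)

theorem IsHomeoOnto.conn_preimage {f : ℂ → ℂ} {Ω Ωs B : Set ℂ} (h : IsHomeoOnto f Ω Ωs)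
    (hB : IsPreconnected B) (hs : B ⊆ Ωs) : IsPreconnected (Ω ∩ f ⁻¹' B) := by
  obtain ⟨g, hg, hinv, hgm⟩ := h.inverse
  rw [a04_preimage hs hinv hgm]
  exact hB.image g (hg.1.mono hs)

theorem IsHomeoOnto.proper {f : ℂ → ℂ} {Ω Ωs : Set ℂ} (h : IsHomeoOnto f Ω Ωs) (hO : IsOpen Ω)
    (hb : Bornology.IsBounded Ω) (hbs : Bornology.IsBounded Ωs) {ε : ℝ} (hε : 0 < ε) :
    ∃ κ > (0 : ℝ), ∀ x ∈ Ω, infDist x Ωᶜ < κ → infDist (f x) Ωsᶜ < ε := by
  have hne : (Ωᶜ).Nonempty := by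
    rw [Set.nonempty_compl]
    rintro rfl
    exact NormedSpace.unbounded_univ ℝ ℂ hb
  have hQs : {y | ε ≤ infDist y Ωsᶜ} ⊆ Ωs := by
    intro y hy
    by_contra hyn
    have h1 : infDist y Ωsᶜ = 0 := infDist_zero_of_mem hyn
    have h2 : ε ≤ infDist y Ωsᶜ := hy
    linarith
  have hQc : IsCompact {y | ε ≤ infDist y Ωsᶜ} := by
    refine Metric.isCompact_of_isClosed_isBounded ?_ (hbs.subset hQs)
    exact isClosed_le continuous_const (continuous_infDist_pt _)
  have hP := h.compact_preimage hQc hQs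
  have hPsub : Ω ∩ f ⁻¹' {y | ε ≤ infDist y Ωsᶜ} ⊆ Ω := Set.inter_subset_left
  rcases (Ω ∩ f ⁻¹' {y | ε ≤ infDist y Ωsᶜ}).eq_empty_or_nonempty with h0 | h0
  · refine ⟨1, one_pos, fun x hx _ => ?_⟩
    by_contra hge
    push Not at hge
    have h1 : x ∈ Ω ∩ f ⁻¹' {y | ε ≤ infDist y Ωsᶜ} := ⟨hx, hge⟩
    rw [h0] at h1
    exact h1
  · obtain ⟨x0, hx0, hmin⟩ := hP.exists_isMinOn h0 ((continuous_infDist_pt Ωᶜ).continuousOn)
    have hpos : 0 < infDist x0 Ωᶜ := by
      have h1 : x0 ∉ Ωᶜ := fun h2 => h2 (hPsub hx0)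
      exact (hO.isClosed_compl.notMem_iff_infDist_pos hne).1 h1
    refine ⟨infDist x0 Ωᶜ, hpos, fun x hx hxκ => ?_⟩
    by_contra hge
    push Not at hge
    have h1 := isMinOn_iff.1 hmin x ⟨hx, hge⟩
    linarith

end CF6

end

section

/-!
# A05: a homeomorphism matches the ends

PROOF. `half_match`: Let `ε0`, `ε0'` be the constants of `Comps.ends` for `L` and `K`.
Fix `i`. For `0 < ε ≤ ε0'` take `κ ≤ ε0` from `IsHomeoOnto.proper`; `E_κ = {x ∈ Ω | infDist x (L i) < κ}`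
is connected and for `x ∈ E_κ`: `infDist x Ωᶜ ≤ infDist x (L i) < κ`, so
`infDist (f x) Ωsᶜ < ε`, i.e. `infDist (f x) (K m) < ε` for some `m` (`infDist_eq`). The sets
`{y | infDist y (K m) < ε}` are open and pairwise disjoint (`ε ≤ ε0'`), `f '' E_κ` is connected, so it is
contained in exactly one of them, `m = m(ε, κ)`. `m` does not depend on `ε`, `κ` because the `E_κ` decrease
and are nonempty (compare with the value at `ε0'`, `κ0`: for smaller `ε, κ ≤ κ0` a point `x ∈ E_κ` has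
`infDist (f x) (K m) < ε` and `infDist (f x) (K m0) < ε0'`, so `m = m0` by disjointness). `σ i = m0`.
`matching`: apply `half_match` to `f` and to the inverse `g` (`σ`, `τ`). `τ (σ i) = i`: take `ε ≤ ε0` and
`κ` with `infDist y (K (σ i)) < κ → infDist (g y) (L (τ (σ i))) < ε`, then `x ∈ Ω` close to `L i` with
`infDist x (L i) < ε0`, `infDist (f x) (K (σ i)) < κ`; `g (f x) = x` is `ε0`-close to both `L i` and
`L (τ (σ i))`. Similarly `σ (τ m) = m`. The second statement of `matching` is `half_match` for `g` at `σ i`.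
-/

open Complex Set Filter Topology Metric

namespace CF6

section

variable {k : ℕ} {Ω Ωs : Set ℂ} {L K : Fin k → Set ℂ}

theorem a05_one (H' : Comps Ωs K) {ε0' : ℝ}
    (sep' : ∀ i j, i ≠ j → ∀ x, infDist x (K i) < ε0' → ε0' ≤ infDist x (K j)) {ε : ℝ} (hε : ε ≤ ε0')
    {S : Set ℂ} (hS : IsConnected S) (h : ∀ y ∈ S, infDist y Ωsᶜ < ε) :
    ∃ m, ∀ y ∈ S, infDist y (K m) < ε := by
  obtain ⟨y0, hy0⟩ := hS.nonempty
  obtain ⟨i, hi⟩ := (H'.infDist_eq y0).1
  refine ⟨i, ?_⟩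
  have hUo : IsOpen {z : ℂ | infDist z (K i) < ε} :=
    isOpen_lt (continuous_infDist_pt _) continuous_const
  have hVo : IsOpen (⋃ m : {m : Fin k // m ≠ i}, {z : ℂ | infDist z (K m.1) < ε}) :=
    isOpen_iUnion fun m => isOpen_lt (continuous_infDist_pt _) continuous_const
  have hdisj : Disjoint {z : ℂ | infDist z (K i) < ε}
      (⋃ m : {m : Fin k // m ≠ i}, {z : ℂ | infDist z (K m.1) < ε}) := by
    rw [Set.disjoint_left]
    intro z hz hz'
    obtain ⟨m, hm'⟩ := Set.mem_iUnion.1 hz'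
    have h1 := sep' i m.1 (Ne.symm m.2) z (lt_of_lt_of_le hz hε)
    have h2 : infDist z (K m.1) < ε := hm'
    linarith
  have hsub : S ⊆ {z : ℂ | infDist z (K i) < ε} ∪
      (⋃ m : {m : Fin k // m ≠ i}, {z : ℂ | infDist z (K m.1) < ε}) := by
    intro y hy
    have h1 := h y hy
    obtain ⟨m, hm'⟩ := (H'.infDist_eq y).1
    rw [hm'] at h1
    by_cases hmi : m = i
    · left
      rw [← hmi]
      exact h1
    · right
      exact Set.mem_iUnion.2 ⟨⟨m, hmi⟩, h1⟩
  have hne : (S ∩ {z : ℂ | infDist z (K i) < ε}).Nonempty := by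
    refine ⟨y0, hy0, ?_⟩
    have h1 := h y0 hy0
    rw [hi] at h1
    exact h1
  exact fun y hy => hS.isPreconnected.subset_left_of_subset_union hUo hVo hdisj hsub hne hy

theorem half_match (H : Comps Ω L) (H' : Comps Ωs K) {f : ℂ → ℂ} (hf : IsHomeoOnto f Ω Ωs) :
    ∃ σ : Fin k → Fin k, ∀ i, ∀ ε > (0 : ℝ), ∃ κ > (0 : ℝ), ∀ x ∈ Ω, infDist x (L i) < κ →
      infDist (f x) (K (σ i)) < ε := by
  obtain ⟨ε0', hε0', sep', -⟩ := H'.ends
  obtain ⟨ε0, hε0, -, conn⟩ := H.ends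
  have key : ∀ i, ∀ ε : ℝ, 0 < ε → ε ≤ ε0' → ∃ m : Fin k, ∃ κ > (0 : ℝ), ∀ x ∈ Ω, infDist x (L i) < κ →
      infDist (f x) (K m) < ε := by
    intro i ε hε hε'
    obtain ⟨κ1, hκ1, hprop⟩ := hf.proper H.isOpen H.bdd H'.bdd (ε := ε) hε
    have hκ0 : 0 < min κ1 ε0 := lt_min hκ1 hε0
    have hE := conn i (min κ1 ε0) hκ0 (min_le_right _ _)
    have himg : IsConnected (f '' {x | x ∈ Ω ∧ infDist x (L i) < min κ1 ε0}) :=
      hE.image f (hf.1.mono fun y hy => hy.1)
    obtain ⟨m, hm⟩ := a05_one H' sep' hε' himg (by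
      rintro _ ⟨y, hy, rfl⟩
      exact hprop y hy.1 (lt_of_le_of_lt ((H.infDist_eq y).2 i) (lt_of_lt_of_le hy.2 (min_le_left _ _))))
    exact ⟨m, min κ1 ε0, hκ0, fun x hx hxi => hm (f x) ⟨x, ⟨hx, hxi⟩, rfl⟩⟩
  choose σ κ0 hκ0 hσ using fun i => key i ε0' hε0' le_rfl
  refine ⟨σ, fun i ε hε => ?_⟩
  obtain ⟨m, κ1, hκ1, hm⟩ := key i (min ε ε0') (lt_min hε hε0') (min_le_right _ _)
  obtain ⟨x0, hx0, hx0'⟩ := (conn i (min (min (κ0 i) κ1) ε0) (lt_min (lt_min (hκ0 i) hκ1) hε0)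
    (min_le_right _ _)).nonempty
  have h1 := hσ i x0 hx0 (lt_of_lt_of_le hx0' ((min_le_left _ _).trans (min_le_left _ _)))
  have h2 := hm x0 hx0 (lt_of_lt_of_le hx0' ((min_le_left _ _).trans (min_le_right _ _)))
  have hmσ : m = σ i := by
    by_contra hne
    have h3 := sep' (σ i) m (Ne.symm hne) (f x0) h1
    have h4 := lt_of_lt_of_le h2 (min_le_right ε ε0')
    linarith
  refine ⟨κ1, hκ1, fun x hx hxi => ?_⟩
  rw [← hmσ]
  exact lt_of_lt_of_le (hm x hx hxi) (min_le_left _ _)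

theorem a05_inv (H : Comps Ω L) {f g : ℂ → ℂ}
    (hgf : ∀ x ∈ Ω, g (f x) = x) (hf : MapsTo f Ω Ωs) {σ τ : Fin k → Fin k}
    (hσ : ∀ i, ∀ ε > (0 : ℝ), ∃ κ > (0 : ℝ), ∀ x ∈ Ω, infDist x (L i) < κ → infDist (f x) (K (σ i)) < ε)
    (hτ : ∀ i, ∀ ε > (0 : ℝ), ∃ κ > (0 : ℝ), ∀ x ∈ Ωs, infDist x (K i) < κ → infDist (g x) (L (τ i)) < ε)
    (i : Fin k) : τ (σ i) = i := by
  obtain ⟨ε0, hε0, sep, conn⟩ := H.ends
  obtain ⟨κ, hκ, h1⟩ := hτ (σ i) ε0 hε0
  obtain ⟨κ', hκ', h2⟩ := hσ i κ hκ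
  obtain ⟨x0, hx0, hx0'⟩ := (conn i (min κ' ε0) (lt_min hκ' hε0) (min_le_right _ _)).nonempty
  have h3 := h1 (f x0) (hf hx0) (h2 x0 hx0 (lt_of_lt_of_le hx0' (min_le_left _ _)))
  rw [hgf x0 hx0] at h3
  by_contra hne
  have h4 := sep i (τ (σ i)) (Ne.symm hne) x0 (lt_of_lt_of_le hx0' (min_le_right _ _))
  linarith

theorem matching (H : Comps Ω L) (H' : Comps Ωs K) {f : ℂ → ℂ} (hf : IsHomeoOnto f Ω Ωs) :
    ∃ σ : Equiv.Perm (Fin k),
      (∀ i, ∀ ε > (0 : ℝ), ∃ κ > (0 : ℝ), ∀ x ∈ Ω, infDist x (L i) < κ →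
        infDist (f x) (K (σ i)) < ε) ∧
      (∀ i, ∀ ε > (0 : ℝ), ∃ κ > (0 : ℝ), ∀ x ∈ Ω, infDist (f x) (K (σ i)) < κ →
        infDist x (L i) < ε) := by
  obtain ⟨g, hg, hinv, -⟩ := hf.inverse
  obtain ⟨σ, hσ⟩ := half_match H H' hf
  obtain ⟨τ, hτ⟩ := half_match H' H hg
  have hfm : MapsTo f Ω Ωs := hf.2.1.mapsTo
  have hgm : MapsTo g Ωs Ω := hg.2.1.mapsTo
  have h1 : ∀ i, τ (σ i) = i := a05_inv H (fun x hx => hinv.1 hx) hfm hσ hτ
  have h2 : ∀ i, σ (τ i) = i := a05_inv H' (fun x hx => hinv.2 hx) hgm hτ hσ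
  refine ⟨⟨σ, τ, h1, h2⟩, hσ, fun i ε hε => ?_⟩
  obtain ⟨κ, hκ, h3⟩ := hτ (σ i) ε hε
  refine ⟨κ, hκ, fun x hx hxi => ?_⟩
  have h4 := h3 (f x) (hfm hx) hxi
  rw [hinv.1 hx, h1 i] at h4
  exact h4

end

end CF6

end

section

/-!
# A06: from the official definition to `Approx`

PROOF. `exists_comps` for `Ω` and `Ωs` gives `L`, `K0`. `matching` gives `σ j` for every `hj j`.
There are finitely many permutations, so some `σ0` occurs for infinitely many `j`: a strictly increasing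
`s` with `σ (s j) = σ0` (e.g. `Nat.exists_strictMono_subsequence`, or `Filter.Frequently.extraction`
from `∃ᶠ j in atTop, σ j = σ0`, which follows from finiteness: `Filter.frequently...`).
Put `K i = K0 (σ0 i)` (`Comps Ωs K`: easy reindexing lemma `Comps.perm`).
`lim`: composition with `s` (`tendsto s atTop`). `back`: second part of `matching`.
`ends` (`approx_ends`): let `δ w = infDist w Ωsᶜ`; for `x ∈ Ω`: `del Ω Ωs (hj j) x = δ (hj j x)` and
`del Ω Ωs h x = δ (h x)` by `infDist_frontier` (`hj j x ∈ Ωs`, `h x ∈ closure Ωs`).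
Let `ε0'` be the constant of `Comps.ends` for `K`, `ε0` for `L`. WLOG `η ≤ ε0'` (replace by min).
`del (hj j) → del h` uniformly on `closure Ω`: `j0` with `|δ (hj j x) - δ (h x)| < η/4` for `j ≥ j0`,
`x ∈ Ω`. `IsHomeoOnto.proper` for `hj j0`: `κ ≤ ε0` with `infDist x Ωᶜ < κ → δ (hj j0 x) < η/4`.
So for such `x`: `δ (h x) < η/2` and `δ (hj j x) < 3η/4 < η` for all `j ≥ j0`. Fix `i`, `j ≥ j0`.
`E = {x ∈ Ω | infDist x (L i) < κ}` is connected, `infDist x Ωᶜ ≤ infDist x (L i)`, so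
`hj j '' E` is connected and contained in the union of the disjoint open sets
`{y | infDist y (K m) < η}`, hence in one of them. It is the one with `m = i`, because by matching
for the points of `E` very close to `L i` the image is `η`-close to `K i` (`E` contains points
arbitrarily close to `L i`, `Comps.ends`). Finally `infDist (h x) (K i) ≤ η` by continuity of `infDist`
(`hj j x → h x`).
-/

open Complex Set Filter Topology Metric

namespace CF6

section

variable {k : ℕ} {Ω Ωs : Set ℂ} {L K : Fin k → Set ℂ}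

theorem Comps.perm (H : Comps Ω L) (σ : Equiv.Perm (Fin k)) : Comps Ω (fun i => L (σ i)) where
  isOpen := H.isOpen
  conn := H.conn
  bdd := H.bdd
  closed i := H.closed (σ i)
  cconn i := H.cconn (σ i)
  disj i j hij := H.disj (σ i) (σ j) fun h => hij (σ.injective h)
  union := by
    rw [σ.surjective.iUnion_comp (fun i => L i)]
    exact H.union

theorem a06_del {f : ℂ → ℂ} (ho : IsOpen Ωs) (hb : Bornology.IsBounded Ωs) (hn : Ωs.Nonempty) {x : ℂ}
    (hx : x ∈ Ω) (hf : f x ∈ closure Ωs) : del Ω Ωs f x = infDist (f x) Ωsᶜ := by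
  unfold del
  rw [if_pos hx]
  exact infDist_frontier ho hb hn hf

theorem approx_ends (H : Comps Ω L) (H' : Comps Ωs K) {h : ℂ → ℂ} {hj : ℕ → ℂ → ℂ}
    (hh : ∀ j, IsHomeoOnto (hj j) Ω Ωs) (hm : MapsTo h Ω (closure Ωs)) (hd : CDelta Ω Ωs hj h)
    (ma : ∀ j i, ∀ ε > (0 : ℝ), ∃ κ > (0 : ℝ), ∀ x ∈ Ω, infDist x (L i) < κ →
      infDist (hj j x) (K i) < ε) :
    ∀ η > (0 : ℝ), ∃ κ > (0 : ℝ), ∃ j0 : ℕ, ∀ i, ∀ x ∈ Ω, infDist x (L i) < κ →
      (∀ j ≥ j0, infDist (hj j x) (K i) < η) ∧ infDist (h x) (K i) ≤ η := by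
  intro η hη
  obtain ⟨ε0', hε0', sep', -⟩ := H'.ends
  obtain ⟨ε0, hε0, -, conn⟩ := H.ends
  set η' : ℝ := min η ε0' with hη'
  have hη'0 : 0 < η' := lt_min hη hε0'
  have hη'1 : η' ≤ η := min_le_left _ _
  have hη'2 : η' ≤ ε0' := min_le_right _ _
  have ho := H'.isOpen
  have hb := H'.bdd
  have hn := H'.conn.nonempty
  have hu := (Metric.tendstoUniformlyOn_iff.1 hd.2) (η' / 4) (by positivity)
  obtain ⟨j0, hj0⟩ := eventually_atTop.1 hu
  have hclose : ∀ j ≥ j0, ∀ x ∈ Ω, |infDist (h x) Ωsᶜ - infDist (hj j x) Ωsᶜ| < η' / 4 := by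
    intro j hj' x hx
    have h1 := hj0 j hj' x (subset_closure hx)
    rw [a06_del ho hb hn hx (hm hx), a06_del ho hb hn hx (subset_closure ((hh j).2.1.mapsTo hx)),
      Real.dist_eq] at h1
    exact h1
  obtain ⟨κ1, hκ1, hprop⟩ := (hh j0).proper H.isOpen H.bdd hb (ε := η' / 4) (by positivity)
  refine ⟨min κ1 ε0, lt_min hκ1 hε0, j0, ?_⟩
  intro i x hx hxi
  have hκ0 : 0 < min κ1 ε0 := lt_min hκ1 hε0
  have hE := conn i (min κ1 ε0) hκ0 (min_le_right _ _)
  have key : ∀ j ≥ j0, ∀ y, y ∈ Ω → infDist y (L i) < min κ1 ε0 → infDist (hj j y) (K i) < η' := by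
    intro j hjj
    have hsmall : ∀ y, y ∈ Ω → infDist y (L i) < min κ1 ε0 → infDist (hj j y) Ωsᶜ < η' := by
      intro y hy hyi
      have h1 : infDist y Ωᶜ < κ1 :=
        lt_of_le_of_lt ((H.infDist_eq y).2 i) (lt_of_lt_of_le hyi (min_le_left _ _))
      have h2 := hprop y hy h1
      have h3 := abs_lt.1 (hclose j0 le_rfl y hy)
      have h4 := abs_lt.1 (hclose j hjj y hy)
      linarith [h3.1, h3.2, h4.1, h4.2]
    set E : Set ℂ := {y | y ∈ Ω ∧ infDist y (L i) < min κ1 ε0} with hEdef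
    have himg : IsPreconnected (hj j '' E) :=
      hE.isPreconnected.image (hj j) ((hh j).1.mono fun y hy => hy.1)
    have hUo : IsOpen {z : ℂ | infDist z (K i) < η'} :=
      isOpen_lt (continuous_infDist_pt _) continuous_const
    have hVo : IsOpen (⋃ m : {m : Fin k // m ≠ i}, {z : ℂ | infDist z (K m.1) < η'}) :=
      isOpen_iUnion fun m => isOpen_lt (continuous_infDist_pt _) continuous_const
    have hdisj : Disjoint {z : ℂ | infDist z (K i) < η'}
        (⋃ m : {m : Fin k // m ≠ i}, {z : ℂ | infDist z (K m.1) < η'}) := by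
      rw [Set.disjoint_left]
      intro z hz hz'
      obtain ⟨m, hm'⟩ := Set.mem_iUnion.1 hz'
      have h1 := sep' i m.1 (Ne.symm m.2) z (lt_of_lt_of_le hz hη'2)
      have h2 : infDist z (K m.1) < η' := hm'
      linarith
    have hsub : hj j '' E ⊆ {z : ℂ | infDist z (K i) < η'} ∪
        (⋃ m : {m : Fin k // m ≠ i}, {z : ℂ | infDist z (K m.1) < η'}) := by
      rintro _ ⟨y, hy, rfl⟩
      have h1 := hsmall y hy.1 hy.2
      obtain ⟨m, hm'⟩ := (H'.infDist_eq (hj j y)).1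
      rw [hm'] at h1
      by_cases hmi : m = i
      · left
        rw [← hmi]
        exact h1
      · right
        exact Set.mem_iUnion.2 ⟨⟨m, hmi⟩, h1⟩
    obtain ⟨κ2, hκ2, hma⟩ := ma j i η' hη'0
    obtain ⟨y0, hy0, hy0'⟩ := (conn i (min (min κ1 ε0) κ2) (lt_min hκ0 hκ2)
      ((min_le_left _ _).trans (min_le_right _ _))).nonempty
    have hne : (hj j '' E ∩ {z : ℂ | infDist z (K i) < η'}).Nonempty :=
      ⟨hj j y0, ⟨y0, ⟨hy0, lt_of_lt_of_le hy0' (min_le_left _ _)⟩, rfl⟩,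
        hma y0 hy0 (lt_of_lt_of_le hy0' (min_le_right _ _))⟩
    have hfin := himg.subset_left_of_subset_union hUo hVo hdisj hsub hne
    intro y hy hyi
    exact hfin ⟨y, ⟨hy, hyi⟩, rfl⟩
  refine ⟨fun j hjj => lt_of_lt_of_le (key j hjj x hx hxi) hη'1, ?_⟩
  have hlim : Tendsto (fun j => infDist (hj j x) (K i)) atTop (𝓝 (infDist (h x) (K i))) :=
    ((continuous_infDist_pt (K i)).tendsto (h x)).comp (hd.1.tendsto_at hx)
  refine le_of_tendsto hlim ?_
  filter_upwards [eventually_ge_atTop j0] with j hjj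
  exact (key j hjj x hx hxi).le.trans hη'1

theorem exists_approx {k : ℕ} {Ω Ωs : Set ℂ} (h1 : KDomain k Ω) (h2 : KDomain k Ωs) {h : ℂ → ℂ}
    {hj : ℕ → ℂ → ℂ} (hh : ∀ j, IsHomeoOnto (hj j) Ω Ωs) (hm : MapsTo h Ω (closure Ωs))
    (hd : CDelta Ω Ωs hj h) :
    ∃ (L K : Fin k → Set ℂ) (s : ℕ → ℕ), StrictMono s ∧
      Approx Ω Ωs L K h (fun j => hj (s j)) := by
  obtain ⟨L, HL⟩ := exists_comps h1
  obtain ⟨K0, HK⟩ := exists_comps h2
  choose σ hσ1 hσ2 using fun j => matching HL HK (hh j)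
  obtain ⟨σ0, hσ0⟩ := Finite.exists_infinite_fiber σ
  have hfreq : ∃ᶠ j in atTop, σ j = σ0 := by
    rw [Nat.frequently_atTop_iff_infinite]
    exact Set.infinite_coe_iff.1 hσ0
  obtain ⟨s, hs, hsσ⟩ := extraction_of_frequently_atTop hfreq
  have hK := HK.perm σ0
  have hd' : CDelta Ω Ωs (fun j => hj (s j)) h := by
    refine ⟨?_, ?_⟩
    · intro u hu x hx
      obtain ⟨t, ht, h3⟩ := hd.1 u hu x hx
      exact ⟨t, ht, hs.tendsto_atTop.eventually h3⟩
    · intro u hu
      exact hs.tendsto_atTop.eventually (hd.2 u hu)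
  have ma : ∀ j i, ∀ ε > (0 : ℝ), ∃ κ > (0 : ℝ), ∀ x ∈ Ω, infDist x (L i) < κ →
      infDist (hj (s j) x) (K0 (σ0 i)) < ε := by
    intro j i ε hε
    have h3 := hσ1 (s j) i ε hε
    rw [hsσ j] at h3
    exact h3
  refine ⟨L, fun i => K0 (σ0 i), s, hs, ⟨HL, hK, fun j => hh (s j), hm, hd'.1,
    approx_ends HL hK (fun j => hh (s j)) hm hd' ma, ?_⟩⟩
  intro j i η hη
  have h3 := hσ2 (s j) i η hη
  rw [hsσ j] at h3
  exact h3

end

end CF6

end

section

/-!
# A07: monotonicity (MC): preimages of connected sets are connected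

PROOFS.
* `core`: `ends` with `η = c/2` gives `κ`, `j0`. If `x ∈ Ω`, `infDist x Ωᶜ < κ`, then
  `infDist x (L i) < κ` for some `i` (`Comps.infDist_eq`) and so
  `infDist (h x) Ωsᶜ ≤ infDist (h x) (K i) ≤ c/2 < c`, same for `hj j x`, `j ≥ j0`.
* `cont`: locally uniform limit of continuous maps (`TendstoLocallyUniformlyOn.continuousOn`).
* `unif`: `Q ⊆ Ω` compact: `tendstoLocallyUniformlyOn_iff_tendstoUniformlyOn_of_compact` after `mono`.
* `compact_preimage`: let `c > 0` be the distance of `Q` to `Ωsᶜ` (if `Q` is empty trivial). `Ω ∩ h⁻¹' Q` is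
  contained in the compact set `C = {x | κ ≤ infDist x Ωᶜ} ⊆ Ω` (`core`, `Comps.core`), and
  `Ω ∩ h⁻¹' Q = C ∩ h⁻¹' Q` is closed (`ContinuousOn.preimage_isClosed_of_isClosed`).
* `mc`: let `x, y ∈ Ω ∩ h⁻¹' B`. `B` is open and connected, hence path connected: a path from `h x` to `h y`
  in `B`, `P` = its range (compact, connected). `ρ > 0` with `cthickening ρ P ⊆ B`
  (`IsCompact.exists_cthickening_subset_open`); the compact set `cthickening ρ P` has distance `c > 0`
  from `Ωsᶜ`. `κ`, `j0` from `core`, `C` as above; `j ≥ j0` with `‖hj j z - h z‖ < ρ/2` for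
  `z ∈ C ∪ {x, y}`. `P' = segment ℝ (hj j x) (h x) ∪ P ∪ segment ℝ (h y) (hj j y)` is connected and contained
  in `cthickening (ρ/2) P ⊆ B ⊆ Ωs`. `D = Ω ∩ (hj j)⁻¹' P'` is preconnected (`conn_preimage`), contains `x, y`.
  For `z ∈ D`: `hj j z ∈ cthickening ρ P`, so `infDist (hj j z) Ωsᶜ ≥ c`, `z ∈ C`, so
  `‖h z - hj j z‖ < ρ/2`, `h z ∈ cthickening ρ P ⊆ B`. So `D ⊆ Ω ∩ h⁻¹' B`.
  Conclude by `isPreconnected_of_forall_pair`.
* `surj`: `xj = ` preimage of `q` under `hj j`; by `core` (`c = infDist q Ωsᶜ > 0`, `q` fixed)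
  `xj ∈ C` compact for `j ≥ j0`; a subsequence converges to `x ∈ C`; `h x = lim hj j xj = q` (uniform
  convergence on `C` and continuity of `h`).
* `mc_compact`: `Q ⊆ Ωs` compact connected. `F = Ω ∩ h⁻¹' Q` compact, nonempty by `surj`. If `F` is not
  preconnected: `F ⊆ u ∪ v`, `u, v` open, `F ∩ u`, `F ∩ v` nonempty, `F ∩ (u ∩ v) = ∅`. WLOG `u ∩ v = ∅`
  (`F ∩ vᶜ = F ∩ u`.. compact sets `F \ v`, `F \ u` are disjoint: separate them by disjoint open sets).
  `Br = {w | infDist w Q < r}` is open connected (`isConnected_thick`), contained in `Ωs` for small `r`,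
  `Ω ∩ h⁻¹' Br` is preconnected by `mc` and contains `F`. Claim: `Ω ∩ h⁻¹' Br ⊆ u ∪ v` for some small `r`:
  the compact sets `Dr = Ω ∩ h⁻¹' (cthickening r Q)` (`compact_preimage`) decrease to `F` as `r → 0`
  (`IsCompact.elim_directed_family_closed_of_isCompact` or by sequences). Contradiction with `mc`.
-/

open Complex Set Filter Topology Metric

namespace CF6

section

variable {k : ℕ} {Ω Ωs : Set ℂ} {L K : Fin k → Set ℂ} {h : ℂ → ℂ} {hj : ℕ → ℂ → ℂ}

theorem a07a_compl_nonempty {O : Set ℂ} (h : Bornology.IsBounded O) : Oᶜ.Nonempty := by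
  by_contra hcon
  rw [Set.not_nonempty_iff_eq_empty, Set.compl_empty_iff] at hcon
  rw [hcon] at h
  exact NoncompactSpace.noncompact_univ (X := ℂ)
    (Metric.isCompact_of_isClosed_isBounded isClosed_univ h)

/-- a compact subset of a bounded open set has positive distance from the complement -/
theorem a07a_dist {O Q : Set ℂ} (hO : IsOpen O) (hb : Bornology.IsBounded O) (hQ : IsCompact Q)
    (hs : Q ⊆ O) : ∃ c > (0 : ℝ), ∀ w ∈ Q, c ≤ infDist w Oᶜ := by
  rcases Q.eq_empty_or_nonempty with rfl | hne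
  · exact ⟨1, one_pos, fun w hw => absurd hw (Set.notMem_empty w)⟩
  · obtain ⟨w₀, hw₀, hmin⟩ := hQ.exists_isMinOn hne (continuous_infDist_pt Oᶜ).continuousOn
    refine ⟨infDist w₀ Oᶜ, ?_, fun w hw => hmin hw⟩
    have h1 : w₀ ∉ Oᶜ := fun h => h (hs hw₀)
    exact (hO.isClosed_compl.notMem_iff_infDist_pos (a07a_compl_nonempty hb)).1 h1

theorem Approx.core (H : Approx Ω Ωs L K h hj) {c : ℝ} (hc : 0 < c) :
    ∃ κ > (0 : ℝ), ∃ j0 : ℕ, ∀ x ∈ Ω, infDist x Ωᶜ < κ →
      infDist (h x) Ωsᶜ < c ∧ ∀ j ≥ j0, infDist (hj j x) Ωsᶜ < c := by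
  obtain ⟨κ, hκ, j0, hends⟩ := H.ends (c / 2) (half_pos hc)
  refine ⟨κ, hκ, j0, fun x hx hxκ => ?_⟩
  obtain ⟨i, hi⟩ := (H.dom.infDist_eq x).1
  obtain ⟨h1, h2⟩ := hends i x hx (by rw [← hi]; exact hxκ)
  refine ⟨?_, fun j hjj => ?_⟩
  · have h3 := (H.tgt.infDist_eq (h x)).2 i
    linarith
  · have h3 := (H.tgt.infDist_eq (hj j x)).2 i
    have h4 := h1 j hjj
    linarith

theorem Approx.cont (H : Approx Ω Ωs L K h hj) : ContinuousOn h Ω :=
  H.lim.continuousOn (Filter.Eventually.frequently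
    (Filter.Eventually.of_forall fun j => (H.homeo j).1))

theorem Approx.unif (H : Approx Ω Ωs L K h hj) {Q : Set ℂ} (hQ : IsCompact Q) (hs : Q ⊆ Ω)
    {ε : ℝ} (hε : 0 < ε) : ∃ j0 : ℕ, ∀ j ≥ j0, ∀ x ∈ Q, dist (hj j x) (h x) < ε := by
  have h1 := (tendstoLocallyUniformlyOn_iff_tendstoUniformlyOn_of_compact hQ).1 (H.lim.mono hs)
  obtain ⟨j0, h2⟩ := eventually_atTop.1 (Metric.tendstoUniformlyOn_iff.1 h1 ε hε)
  refine ⟨j0, fun j hjj x hx => ?_⟩
  rw [dist_comm]
  exact h2 j hjj x hx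

theorem Approx.compact_preimage (H : Approx Ω Ωs L K h hj) {Q : Set ℂ} (hQ : IsCompact Q)
    (hs : Q ⊆ Ωs) : IsCompact (Ω ∩ h ⁻¹' Q) := by
  obtain ⟨c, hc, hcw⟩ := a07a_dist H.tgt.isOpen H.tgt.bdd hQ hs
  obtain ⟨κ, hκ, j0, hcore⟩ := H.core hc
  obtain ⟨hC1, hC2⟩ := H.dom.core hκ
  have h1 : Ω ∩ h ⁻¹' Q = {x | κ ≤ infDist x Ωᶜ} ∩ h ⁻¹' Q := by
    ext x
    constructor
    · rintro ⟨hx, hxQ⟩
      refine ⟨?_, hxQ⟩
      by_contra hcon
      exact absurd (hcw _ hxQ) (not_le.2 (hcore x hx (not_le.1 hcon)).1)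
    · rintro ⟨hx, hxQ⟩
      exact ⟨hC2 hx, hxQ⟩
  rw [h1]
  exact hC1.of_isClosed_subset
    ((H.cont.mono hC2).preimage_isClosed_of_isClosed hC1.isClosed hQ.isClosed)
    Set.inter_subset_left

theorem Approx.surj (H : Approx Ω Ωs L K h hj) : SurjOn h Ω Ωs := by
  intro q hq
  have h1 : ∀ j, ∃ x ∈ Ω, hj j x = q := fun j => (H.homeo j).2.1.surjOn hq
  choose x hx hxq using h1
  have hc : 0 < infDist q Ωsᶜ :=
    (H.tgt.isOpen.isClosed_compl.notMem_iff_infDist_pos (a07a_compl_nonempty H.tgt.bdd)).1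
      (fun h => h hq)
  obtain ⟨κ, hκ, j0, hcore⟩ := H.core hc
  obtain ⟨hC1, hC2⟩ := H.dom.core hκ
  have hmem : ∀ n, x (n + j0) ∈ {x | κ ≤ infDist x Ωᶜ} := by
    intro n
    by_contra hcon
    have h2 := (hcore _ (hx (n + j0)) (not_le.1 hcon)).2 (n + j0) (Nat.le_add_left _ _)
    rw [hxq] at h2
    exact lt_irrefl _ h2
  obtain ⟨a, ha, φ, hφ, hlim⟩ := hC1.tendsto_subseq hmem
  refine ⟨a, hC2 ha, ?_⟩
  have t1 : Tendsto (fun n => h (x (φ n + j0))) atTop (𝓝 (h a)) := by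
    have h2 : Tendsto (fun n => x (φ n + j0)) atTop (𝓝[Ω] a) :=
      tendsto_nhdsWithin_iff.2 ⟨hlim, Filter.Eventually.of_forall fun n => hx _⟩
    exact (H.cont a (hC2 ha)).tendsto.comp h2
  have t2 : Tendsto (fun n => h (x (φ n + j0))) atTop (𝓝 q) := by
    rw [Metric.tendsto_atTop]
    intro ε hε
    obtain ⟨j1, hj1⟩ := H.unif hC1 hC2 hε
    refine ⟨j1, fun n hn => ?_⟩
    have h2 := hj1 (φ n + j0) (by have := hφ.id_le n; simp only [id] at this; omega) _ (hmem (φ n))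
    rw [hxq, dist_comm] at h2
    exact h2
  exact tendsto_nhds_unique t1 t2

end

end CF6

end

section

/-!
# A07: monotonicity (MC): preimages of connected sets are connected

PROOFS.
* `core`: `ends` with `η = c/2` gives `κ`, `j0`. If `x ∈ Ω`, `infDist x Ωᶜ < κ`, then
  `infDist x (L i) < κ` for some `i` (`Comps.infDist_eq`) and so
  `infDist (h x) Ωsᶜ ≤ infDist (h x) (K i) ≤ c/2 < c`, same for `hj j x`, `j ≥ j0`.
* `cont`: locally uniform limit of continuous maps (`TendstoLocallyUniformlyOn.continuousOn`).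
* `unif`: `Q ⊆ Ω` compact: `tendstoLocallyUniformlyOn_iff_tendstoUniformlyOn_of_compact` after `mono`.
* `compact_preimage`: let `c > 0` be the distance of `Q` to `Ωsᶜ` (if `Q` is empty trivial). `Ω ∩ h⁻¹' Q` is
  contained in the compact set `C = {x | κ ≤ infDist x Ωᶜ} ⊆ Ω` (`core`, `Comps.core`), and
  `Ω ∩ h⁻¹' Q = C ∩ h⁻¹' Q` is closed (`ContinuousOn.preimage_isClosed_of_isClosed`).
* `mc`: let `x, y ∈ Ω ∩ h⁻¹' B`. `B` is open and connected, hence path connected: a path from `h x` to `h y`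
  in `B`, `P` = its range (compact, connected). `ρ > 0` with `cthickening ρ P ⊆ B`
  (`IsCompact.exists_cthickening_subset_open`); the compact set `cthickening ρ P` has distance `c > 0`
  from `Ωsᶜ`. `κ`, `j0` from `core`, `C` as above; `j ≥ j0` with `‖hj j z - h z‖ < ρ/2` for
  `z ∈ C ∪ {x, y}`. `P' = segment ℝ (hj j x) (h x) ∪ P ∪ segment ℝ (h y) (hj j y)` is connected and contained
  in `cthickening (ρ/2) P ⊆ B ⊆ Ωs`. `D = Ω ∩ (hj j)⁻¹' P'` is preconnected (`conn_preimage`), contains `x, y`.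
  For `z ∈ D`: `hj j z ∈ cthickening ρ P`, so `infDist (hj j z) Ωsᶜ ≥ c`, `z ∈ C`, so
  `‖h z - hj j z‖ < ρ/2`, `h z ∈ cthickening ρ P ⊆ B`. So `D ⊆ Ω ∩ h⁻¹' B`.
  Conclude by `isPreconnected_of_forall_pair`.
* `surj`: `xj = ` preimage of `q` under `hj j`; by `core` (`c = infDist q Ωsᶜ > 0`, `q` fixed)
  `xj ∈ C` compact for `j ≥ j0`; a subsequence converges to `x ∈ C`; `h x = lim hj j xj = q` (uniform
  convergence on `C` and continuity of `h`).
* `mc_compact`: `Q ⊆ Ωs` compact connected. `F = Ω ∩ h⁻¹' Q` compact, nonempty by `surj`. If `F` is not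
  preconnected: `F ⊆ u ∪ v`, `u, v` open, `F ∩ u`, `F ∩ v` nonempty, `F ∩ (u ∩ v) = ∅`. WLOG `u ∩ v = ∅`
  (`F ∩ vᶜ = F ∩ u`.. compact sets `F \ v`, `F \ u` are disjoint: separate them by disjoint open sets).
  `Br = {w | infDist w Q < r}` is open connected (`isConnected_thick`), contained in `Ωs` for small `r`,
  `Ω ∩ h⁻¹' Br` is preconnected by `mc` and contains `F`. Claim: `Ω ∩ h⁻¹' Br ⊆ u ∪ v` for some small `r`:
  the compact sets `Dr = Ω ∩ h⁻¹' (cthickening r Q)` (`compact_preimage`) decrease to `F` as `r → 0`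
  (`IsCompact.elim_directed_family_closed_of_isCompact` or by sequences). Contradiction with `mc`.
-/

open Complex Set Filter Topology Metric

namespace CF6

section

variable {k : ℕ} {Ω Ωs : Set ℂ} {L K : Fin k → Set ℂ} {h : ℂ → ℂ} {hj : ℕ → ℂ → ℂ}

theorem a07b_compl_nonempty {O : Set ℂ} (h : Bornology.IsBounded O) : Oᶜ.Nonempty := by
  by_contra hcon
  rw [Set.not_nonempty_iff_eq_empty, Set.compl_empty_iff] at hcon
  rw [hcon] at h
  exact NoncompactSpace.noncompact_univ (X := ℂ)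
    (Metric.isCompact_of_isClosed_isBounded isClosed_univ h)

/-- a compact subset of a bounded open set has positive distance from the complement -/
theorem a07b_dist {O Q : Set ℂ} (hO : IsOpen O) (hb : Bornology.IsBounded O) (hQ : IsCompact Q)
    (hs : Q ⊆ O) : ∃ c > (0 : ℝ), ∀ w ∈ Q, c ≤ infDist w Oᶜ := by
  rcases Q.eq_empty_or_nonempty with rfl | hne
  · exact ⟨1, one_pos, fun w hw => absurd hw (Set.notMem_empty w)⟩
  · obtain ⟨w₀, hw₀, hmin⟩ := hQ.exists_isMinOn hne (continuous_infDist_pt Oᶜ).continuousOn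
    refine ⟨infDist w₀ Oᶜ, ?_, fun w hw => hmin hw⟩
    have h1 : w₀ ∉ Oᶜ := fun h => h (hs hw₀)
    exact (hO.isClosed_compl.notMem_iff_infDist_pos (a07b_compl_nonempty hb)).1 h1

theorem Approx.mc (H : Approx Ω Ωs L K h hj) {B : Set ℂ} (hB : IsOpen B) (cB : IsPreconnected B)
    (hs : B ⊆ Ωs) : IsPreconnected (Ω ∩ h ⁻¹' B) := by
  refine isPreconnected_of_forall_pair ?_
  rintro x ⟨hxΩ, hx⟩ y ⟨hyΩ, hy⟩
  have cB' : IsConnected B := ⟨⟨h x, hx⟩, cB⟩
  have pB : IsPathConnected B := hB.isConnected_iff_isPathConnected.1 cB'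
  obtain ⟨γ, hγ⟩ := pB.joinedIn (h x) hx (h y) hy
  set P : Set ℂ := range γ with hP
  have hPc : IsCompact P := isCompact_range γ.continuous
  have hPn : IsConnected P := isConnected_range γ.continuous
  have hPB : P ⊆ B := by
    rintro _ ⟨t, rfl⟩
    exact hγ t
  have hxP : h x ∈ P := ⟨0, γ.source⟩
  have hyP : h y ∈ P := ⟨1, γ.target⟩
  obtain ⟨ρ, hρ, hρB⟩ := hPc.exists_cthickening_subset_open hB hPB
  obtain ⟨c, hc, hcw⟩ := a07b_dist H.tgt.isOpen H.tgt.bdd hPc.cthickening (hρB.trans hs)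
  obtain ⟨κ, hκ, j0, hcore⟩ := H.core hc
  obtain ⟨hC1, hC2⟩ := H.dom.core hκ
  set C : Set ℂ := {z | κ ≤ infDist z Ωᶜ} with hC
  have hC' : IsCompact (C ∪ {x, y}) := hC1.union (Set.toFinite _).isCompact
  have hC'' : C ∪ {x, y} ⊆ Ω := by
    rintro z (hz | hz)
    · exact hC2 hz
    · rcases hz with rfl | hz
      · exact hxΩ
      · rw [Set.mem_singleton_iff.1 hz]
        exact hyΩ
  obtain ⟨j1, hj1⟩ := H.unif hC' hC'' (half_pos hρ)
  obtain ⟨j, hjj0, hjj1⟩ : ∃ j, j0 ≤ j ∧ j1 ≤ j := ⟨max j0 j1, le_max_left _ _, le_max_right _ _⟩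
  have hdx : dist (hj j x) (h x) < ρ / 2 := hj1 j hjj1 x (Or.inr (Or.inl rfl))
  have hdy : dist (hj j y) (h y) < ρ / 2 := hj1 j hjj1 y (Or.inr (Or.inr rfl))
  set P' : Set ℂ := segment ℝ (hj j x) (h x) ∪ (P ∪ segment ℝ (hj j y) (h y)) with hP'
  have hP'n : IsPreconnected P' := by
    refine IsPreconnected.union (h x) (right_mem_segment ℝ _ _) (Or.inl hxP)
      (convex_segment _ _).isPreconnected ?_
    exact IsPreconnected.union (h y) hyP (right_mem_segment ℝ _ _) hPn.isPreconnected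
      (convex_segment _ _).isPreconnected
  have hseg : ∀ a b : ℂ, b ∈ P → dist a b < ρ / 2 → segment ℝ a b ⊆ cthickening (ρ / 2) P := by
    intro a b hb hab z hz
    have h1 : z ∈ closedBall b (dist a b) := segment_subset_closedBall_right a b hz
    exact mem_cthickening_of_dist_le z b _ P hb ((mem_closedBall.1 h1).trans hab.le)
  have hP'th : P' ⊆ cthickening (ρ / 2) P := by
    refine Set.union_subset (hseg _ _ hxP hdx) (Set.union_subset ?_ (hseg _ _ hyP hdy))
    exact self_subset_cthickening P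
  have hth : cthickening (ρ / 2) P ⊆ cthickening ρ P := cthickening_mono (by linarith) P
  refine ⟨Ω ∩ (hj j) ⁻¹' P', ?_, ⟨hxΩ, Or.inl (left_mem_segment ℝ _ _)⟩,
    ⟨hyΩ, Or.inr (Or.inr (left_mem_segment ℝ _ _))⟩,
    (H.homeo j).conn_preimage hP'n ((hP'th.trans (hth.trans hρB)).trans hs)⟩
  rintro z ⟨hzΩ, hz⟩
  have h1 : hj j z ∈ cthickening (ρ / 2) P := hP'th hz
  have hzC : z ∈ C := by
    by_contra hcon
    have h2 : infDist z Ωᶜ < κ := not_le.1 hcon
    have h3 := (hcore z hzΩ h2).2 j hjj0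
    exact absurd (hcw _ (hth h1)) (not_le.2 h3)
  have h2 : dist (hj j z) (h z) < ρ / 2 := hj1 j hjj1 z (Or.inl hzC)
  refine ⟨hzΩ, hρB ?_⟩
  have h3 : h z ∈ cthickening (ρ / 2) (cthickening (ρ / 2) P) :=
    mem_cthickening_of_dist_le (h z) (hj j z) _ _ h1 (by rw [dist_comm]; exact h2.le)
  have h4 := cthickening_cthickening_subset (by positivity : (0 : ℝ) ≤ ρ / 2)
    (by positivity : (0 : ℝ) ≤ ρ / 2) P h3
  rwa [add_halves] at h4

theorem Approx.mc_compact (H : Approx Ω Ωs L K h hj) {Q : Set ℂ} (hQ : IsCompact Q)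
    (cQ : IsConnected Q) (hs : Q ⊆ Ωs) : IsConnected (Ω ∩ h ⁻¹' Q) := by
  have hF := H.compact_preimage hQ hs
  refine ⟨?_, ?_⟩
  · obtain ⟨q, hq⟩ := cQ.nonempty
    obtain ⟨x, hx, hxq⟩ := H.surj (hs hq)
    exact ⟨x, hx, by rw [Set.mem_preimage, hxq]; exact hq⟩
  rw [isPreconnected_closed_iff]
  intro t t' ht ht' hsub hne hne'
  by_contra hcon
  rw [Set.not_nonempty_iff_eq_empty] at hcon
  have hA : IsCompact ((Ω ∩ h ⁻¹' Q) ∩ t) := hF.inter_right ht
  have hA' : IsCompact ((Ω ∩ h ⁻¹' Q) ∩ t') := hF.inter_right ht'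
  have hdis : Disjoint ((Ω ∩ h ⁻¹' Q) ∩ t) ((Ω ∩ h ⁻¹' Q) ∩ t') := by
    rw [Set.disjoint_left]
    rintro z ⟨hz, hzt⟩ ⟨_, hzt'⟩
    have : z ∈ (Ω ∩ h ⁻¹' Q) ∩ (t ∩ t') := ⟨hz, hzt, hzt'⟩
    rw [hcon] at this
    exact this
  obtain ⟨u, u', hu, hu', hAu, hAu', huu⟩ := SeparatedNhds.of_isCompact_isCompact hA hA' hdis
  obtain ⟨r₀, hr₀, hr₀s⟩ := hQ.exists_cthickening_subset_open H.tgt.isOpen hs
  have hpos : ∀ n : ℕ, 0 < r₀ / (n + 1) := fun n => by positivity
  have hle : ∀ n : ℕ, r₀ / (n + 1) ≤ r₀ := fun n => by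
    rw [div_le_iff₀ (by positivity)]
    nlinarith [(Nat.cast_nonneg n : (0 : ℝ) ≤ n)]
  -- the preimages of small neighbourhoods of `Q`
  have hsmall : ∃ n : ℕ, Ω ∩ h ⁻¹' (cthickening (r₀ / (n + 1)) Q) ⊆ u ∪ u' := by
    by_contra hno
    push Not at hno
    have hD : ∀ n : ℕ, IsCompact (Ω ∩ h ⁻¹' (cthickening (r₀ / (n + 1)) Q)) := fun n =>
      H.compact_preimage hQ.cthickening ((cthickening_mono (hle n) Q).trans hr₀s)
    have hDu : ∀ n : ℕ, IsCompact
        ((Ω ∩ h ⁻¹' (cthickening (r₀ / (n + 1)) Q)) \ (u ∪ u')) := fun n =>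
      (hD n).diff (hu.union hu')
    have h1 : (⋂ n : ℕ, (Ω ∩ h ⁻¹' (cthickening (r₀ / (n + 1)) Q)) \ (u ∪ u')).Nonempty := by
      refine IsCompact.nonempty_iInter_of_sequence_nonempty_isCompact_isClosed _ ?_ ?_ (hDu 0)
        (fun n => (hDu n).isClosed)
      · rintro n z ⟨⟨hz1, hz2⟩, hz3⟩
        refine ⟨⟨hz1, cthickening_mono ?_ Q hz2⟩, hz3⟩
        push_cast
        gcongr
        linarith
      · intro n
        obtain ⟨z, hz1, hz2⟩ := Set.not_subset.1 (hno n)
        exact ⟨z, hz1, hz2⟩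
    obtain ⟨z, hz⟩ := h1
    rw [Set.mem_iInter] at hz
    have h2 : h z ∈ Q := by
      have h3 : h z ∈ closure Q := by
        rw [Metric.mem_closure_iff_infDist_zero cQ.nonempty]
        refine le_antisymm ?_ infDist_nonneg
        refine le_of_forall_pos_le_add fun ε hε => ?_
        obtain ⟨n, hn⟩ := exists_nat_gt (r₀ / ε)
        have h4 : h z ∈ cthickening (r₀ / (n + 1)) Q := (hz n).1.2
        rw [mem_cthickening_iff] at h4
        have h5 : infDist (h z) Q ≤ r₀ / (n + 1) := by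
          unfold infDist
          exact ENNReal.toReal_le_of_le_ofReal (hpos n).le h4
        have h6 : r₀ / (n + 1) ≤ ε := by
          rw [div_le_iff₀ (by positivity)]
          rw [div_lt_iff₀ hε] at hn
          nlinarith
        linarith
      rwa [hQ.isClosed.closure_eq] at h3
    have h3 : z ∈ Ω ∩ h ⁻¹' Q := ⟨(hz 0).1.1, h2⟩
    apply (hz 0).2
    rcases hsub h3 with h4 | h4
    · exact Or.inl (hAu ⟨h3, h4⟩)
    · exact Or.inr (hAu' ⟨h3, h4⟩)
  obtain ⟨n, hn⟩ := hsmall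
  obtain ⟨hBo, hBc⟩ := isConnected_thick cQ (hpos n)
  have hBsub : {w | infDist w Q < r₀ / (n + 1)} ⊆ cthickening (r₀ / (n + 1)) Q := by
    intro w hw
    exact thickening_subset_cthickening _ _ ((mem_thickening_iff_infDist_lt cQ.nonempty).2 hw)
  have hpre := H.mc hBo hBc.isPreconnected
    (hBsub.trans ((cthickening_mono (hle n) Q).trans hr₀s))
  have hFB : ∀ z ∈ Ω ∩ h ⁻¹' Q, z ∈ Ω ∩ h ⁻¹' {w | infDist w Q < r₀ / (n + 1)} := by
    rintro z ⟨hz1, hz2⟩
    refine ⟨hz1, ?_⟩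
    change infDist (h z) Q < r₀ / (n + 1)
    rw [infDist_zero_of_mem (show h z ∈ Q from hz2)]
    exact hpos n
  obtain ⟨a, ha, hat⟩ := hne
  obtain ⟨b, hb, hbt⟩ := hne'
  obtain ⟨z, _, hzu, hzu'⟩ := hpre u u' hu hu' (fun z hz => hn ⟨hz.1, hBsub hz.2⟩)
    ⟨a, hFB a ha, hAu ⟨ha, hat⟩⟩ ⟨b, hFB b hb, hAu' ⟨hb, hbt⟩⟩
  exact Set.disjoint_left.1 huu hzu hzu'

end

end CF6

end

section

/-!
# A08: preimages of collars are doubly connected

Situation: `S ⊆ Ωs`, `S ∪ K i` open and connected, `T = (S ∪ K i)ᶜ` connected (closed). Note that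
`⋃_{m ≠ i} K m ⊆ T`. (In `collar_conn` `T` may be empty: there use
`∀ y ∉ S ∪ K i, ρ ≤ dist w y` instead of `ρ ≤ infDist w T`.) Put `A = Ω ∩ h⁻¹' (S ∪ K i)`.

`sepT`: `K i` and `T` have positive distance: if `K i` is compact clear; otherwise `K i` is the
unbounded component, `K i ⊇ {‖z‖ > R}` (complement of a large ball minus.. : `Ωs ∪` other `K m` is bounded
and its complement is `K i`), so `T ⊆ (K i)ᶜ` is bounded and closed, compact.

`near`: by `ends` with `η < ` that distance: `κ > 0` with `x ∈ Ω`, `infDist x (L i) < κ → h x ∉ T`, so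
`x ∈ A`.

`open_conn`: `U = A ∪ L i`.
 Open: `A` is open (`h` continuous on the open `Ω`, `S ∪ K i` open); `{x | infDist x (L i) < κ} ⊆ U` for small
 `κ` (points of this set outside `Ω ∪ L i` are in other `L m`, excluded for small `κ`).
 Connected: suppose `U ⊆ P ∪ Q` open sets, `U ∩ P ∩ Q = ∅`, `L i ⊆ P` (as `L i` is connected, WLOG), `x ∈ U ∩ Q`.
 So `x ∈ A`, `h x ∈ S ∪ K i`. Let `p ∈ K i` and let `P1` be the range of a path in the open connected
 set `S ∪ K i` from `h x` to `p`. `X1 = P1 ∪ K i` is connected; `ρ > 0` small: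
 `B = {w | infDist w X1 < ρ}` is open connected and `infDist w T ≥ ρ` for `w ∈ B` (the compact `P1` has
 positive distance to the closed `T`, and `sepT`). `B ∩ Ωs` is connected: `Comps.inter_conn` (`K i ⊆ B`,
 `K m ⊆ T` disjoint from `B`). For `j` large: `hj j x ∈ B ∩ Ωs` (`hj j x → h x ∈ P1`).
 `D = Ω ∩ (hj j)⁻¹' (B ∩ Ωs)` preconnected. Claim `D ⊆ A`: for `z ∈ D`, `infDist (hj j z) T ≥ ρ`. Take
 `κ, j0` from `ends` with `η < ρ`, `j ≥ j0`: if `infDist z (L m) < κ` with `m ≠ i` then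
 `infDist (hj j z) (K m) < η < ρ`, contradiction to `K m ⊆ T`; if `infDist z (L i) < κ` then `z ∈ A` by `near`;
 otherwise `z` is in the compact set `{κ ≤ infDist · Ωᶜ}` where `‖hj j - h‖ < ρ/2` (`j` large), so
 `h z ∉ T`, `h z ∈ S ∪ K i`. `D` contains `x` and points arbitrarily close to `L i` (points `y ∈ Ωs` close to
 `K i`, `y ∈ B`, exist since `K i` meets `closure Ωs`; by `back` their preimages under `hj j` are close to `L i`).
 `N = {z | infDist z (L i) < κ'} ⊆ U` is connected, contains `L i`, so `N ⊆ P`; `D` meets `N`, so `D ∪ N ⊆ P`,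
 `x ∈ P`. Contradiction.
 `A = U ∩ (L i)ᶜ`: `janiszewski` with `Comps.compl_conn` gives `A` preconnected.

`compl_conn'`: `M = Uᶜ = (Ω ∩ h⁻¹' T) ∪ ⋃_{m ≠ i} L m` is preconnected: suppose `M ⊆ OA ∪ OB`, open, disjoint
 (M is closed; from a separation of `M` in the sense of `IsPreconnected` pass to the disjoint closed sets
 `M \ OB`, `M \ OA` and normality), `a ∈ M ∩ OA`, `b ∈ M ∩ OB`. `R = (OA ∪ OB)ᶜ` closed, disjoint from `M`, so
 `R ⊆ U`. Claim 1: `∃ ρ > 0, ∀ z ∈ R ∩ Ω, ρ ≤ infDist (h z) T`. Otherwise `zn ∈ R ∩ Ω` with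
 `infDist (h zn) T → 0`; subsequence `zn → z ∈ R ∩ closure Ω`. If `z ∈ Ω`: `h z ∈ T`, so `z ∈ M`, contradiction. If
 `z ∉ Ω`: `z ∈ L m`, `m = i` (as `L m ⊆ M` for `m ≠ i`), so `infDist zn (L i) → 0`, so `infDist (h zn) (K i) → 0`,
 contradiction to `sepT`. Decrease `ρ`: `ρ < dist (K i, T)/2`.
 `O = {w | infDist w T < ρ/2}` is open connected, `K m ⊆ T ⊆ O` for `m ≠ i`, `K i` disjoint from `O`;
 `Comps.inter_conn`: `O ∩ Ωs` is connected (in particular nonempty). For `j ∈ ℕ` let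
 `Mj = (Ω ∩ (hj j)⁻¹' (O ∩ Ωs)) ∪ ⋃_{m ≠ i} L m`. `Mj` is preconnected: `L m`, `m ≠ i`, is connected and
 meets the closure of the preconnected set `Ω ∩ (hj j)⁻¹' (O ∩ Ωs)`, which contains
 `{x ∈ Ω | infDist x (L m) < κ(j)}` (matching: from `ends`, only for `j ≥ j0`, `η = ρ/2`:
 `infDist (hj j x) (K m) < ρ/2`, `K m ⊆ T`); `Comps.meets`. Claim 2: `Mj ⊆ OA ∪ OB` for large `j`: let `z ∈ Mj ∩ R`;
 `z ∈ Ω` and `infDist (hj j z) T < ρ/2`. `κ, j0` from `ends` for `η = ρ/2`; also `κ` so small that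
 `infDist z (L m) < κ` is impossible for `z ∈ R ∩ closure Ω`, `m ≠ i` (`R ∩ closure Ω` is compact, disjoint from `L m`).
 If `infDist z (L i) < κ`: `infDist (hj j z) (K i) < ρ/2`, so `dist (K i, T) ≤ ρ`, contradiction. Otherwise `z` is in
 the compact set `{κ ≤ infDist · Ωᶜ}`, `‖hj j z - h z‖ < ρ/2`, `infDist (h z) T < ρ`, contradiction to claim 1.
 `a, b ∈ Mj` for large `j`: if `a ∈ L m` clear; if `a ∈ Ω`, `h a ∈ T`, `hj j a → h a`, so
 `infDist (hj j a) T < ρ/2` eventually. Contradiction to the preconnectedness of `Mj`.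
-/

open Complex Set Filter Topology Metric

namespace CF6

section

variable {k : ℕ} {Ω Ωs : Set ℂ} {L K : Fin k → Set ℂ} {h : ℂ → ℂ} {hj : ℕ → ℂ → ℂ}

theorem a08_dist {A B : Set ℂ} (hA : IsCompact A) (hB : IsClosed B) (hd : ∀ x ∈ A, x ∉ B) :
    ∃ d > (0 : ℝ), ∀ x ∈ A, ∀ y ∈ B, d ≤ dist x y := by
  rcases A.eq_empty_or_nonempty with hAe | hAn
  · exact ⟨1, one_pos, fun x hx => by rw [hAe] at hx; exact absurd hx (Set.notMem_empty x)⟩
  rcases B.eq_empty_or_nonempty with hBe | hBn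
  · exact ⟨1, one_pos, fun x _ y hy => by rw [hBe] at hy; exact absurd hy (Set.notMem_empty y)⟩
  obtain ⟨x0, hx0, hmin⟩ := hA.exists_isMinOn hAn
    (continuous_infDist_pt B).continuousOn
  refine ⟨infDist x0 B, (hB.notMem_iff_infDist_pos hBn).1 (hd x0 hx0), fun x hx y hy => ?_⟩
  exact (hmin hx : infDist x0 B ≤ infDist x B).trans (infDist_le_dist_of_mem hy)

theorem sepT (H' : Comps Ωs K) (i : Fin k) {S : Set ℂ} (hS : S ⊆ Ωs) (oS : IsOpen (S ∪ K i)) :
    ∃ d > (0 : ℝ), ∀ x ∈ K i, ∀ y ∉ S ∪ K i, d ≤ dist x y := by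
  have _ := hS
  have hT : IsClosed (S ∪ K i)ᶜ := oS.isClosed_compl
  obtain ⟨i0, _, hc⟩ := H'.unbdd
  by_cases hi : i = i0
  · have hb : Bornology.IsBounded (S ∪ K i)ᶜ := by
      have hb1 : Bornology.IsBounded (⋃ m : Fin k, if m = i then (∅ : Set ℂ) else K m) := by
        rw [Bornology.isBounded_iUnion]
        intro m
        by_cases hm : m = i
        · rw [if_pos hm]
          exact Bornology.isBounded_empty
        · rw [if_neg hm]
          exact (hc m (fun h => hm (h.trans hi.symm))).isBounded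
      refine (H'.bdd.union hb1).subset ?_
      intro x hx
      by_cases hxΩ : x ∈ Ωs
      · exact Or.inl hxΩ
      · right
        have h1 : x ∈ ⋃ m, K m := by
          rw [H'.union]
          exact hxΩ
        obtain ⟨m, hm⟩ := Set.mem_iUnion.1 h1
        refine Set.mem_iUnion.2 ⟨m, ?_⟩
        have hmi : m ≠ i := by
          rintro rfl
          exact hx (Or.inr hm)
        rw [if_neg hmi]
        exact hm
    have hTc : IsCompact (S ∪ K i)ᶜ := Metric.isCompact_of_isClosed_isBounded hT hb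
    obtain ⟨d, hd, h1⟩ := a08_dist hTc (H'.closed i) (fun x hx hxK => hx (Or.inr hxK))
    exact ⟨d, hd, fun x hx y hy => by rw [dist_comm]; exact h1 y hy x hx⟩
  · obtain ⟨d, hd, h1⟩ := a08_dist (hc i hi) hT (fun x hx hxT => hxT (Or.inr hx))
    exact ⟨d, hd, fun x hx y hy => h1 x hx y hy⟩

theorem Approx.near (H : Approx Ω Ωs L K h hj) (i : Fin k) {S : Set ℂ} (hS : S ⊆ Ωs)
    (oS : IsOpen (S ∪ K i)) :
    ∃ κ > (0 : ℝ), ∀ x ∈ Ω, infDist x (L i) < κ → h x ∈ S ∪ K i := by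
  obtain ⟨d, hd, h1⟩ := sepT H.tgt i hS oS
  obtain ⟨κ, hκ, j0, h2⟩ := H.ends (d / 2) (by positivity)
  refine ⟨κ, hκ, fun x hx hxL => ?_⟩
  by_contra hcon
  have h3 := (h2 i x hx hxL).2
  have h4 : d ≤ infDist (h x) (K i) := by
    rw [Metric.le_infDist (H.tgt.cconn i).nonempty]
    intro y hy
    rw [dist_comm]
    exact h1 y hy (h x) hcon
  linarith

theorem Approx.collar_isOpen (H : Approx Ω Ωs L K h hj) (i : Fin k) {S : Set ℂ} (hS : S ⊆ Ωs)
    (oS : IsOpen (S ∪ K i)) :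
    IsOpen (Ω ∩ h ⁻¹' (S ∪ K i)) ∧ IsOpen ((Ω ∩ h ⁻¹' (S ∪ K i)) ∪ L i) := by
  have hA : IsOpen (Ω ∩ h ⁻¹' (S ∪ K i)) := H.cont.isOpen_inter_preimage H.dom.isOpen oS
  refine ⟨hA, ?_⟩
  obtain ⟨κ, hκ, h1⟩ := H.near i hS oS
  obtain ⟨d, hd, h2⟩ := H.dom.sep
  rw [Metric.isOpen_iff]
  rintro x (hx | hx)
  · obtain ⟨ε, hε, h3⟩ := Metric.isOpen_iff.1 hA x hx
    exact ⟨ε, hε, h3.trans Set.subset_union_left⟩
  · refine ⟨min κ d, lt_min hκ hd, ?_⟩
    intro y hy
    rw [Metric.mem_ball] at hy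
    by_cases hyΩ : y ∈ Ω
    · left
      refine ⟨hyΩ, h1 y hyΩ ?_⟩
      exact lt_of_le_of_lt (infDist_le_dist_of_mem hx) (lt_of_lt_of_le hy (min_le_left _ _))
    · right
      have h4 : y ∈ ⋃ m, L m := by
        rw [H.dom.union]
        exact hyΩ
      obtain ⟨m, hm⟩ := Set.mem_iUnion.1 h4
      by_cases hmi : m = i
      · rw [← hmi]
        exact hm
      · exfalso
        have h5 := h2 m i hmi y hm x hx
        have h6 := lt_of_lt_of_le hy (min_le_right κ d)
        linarith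

end

end CF6

end

section

/-!
# A08: preimages of collars are doubly connected

Situation: `S ⊆ Ωs`, `S ∪ K i` open and connected, `T = (S ∪ K i)ᶜ` connected (closed). Note that
`⋃_{m ≠ i} K m ⊆ T`. (In `collar_conn` `T` may be empty: there use
`∀ y ∉ S ∪ K i, ρ ≤ dist w y` instead of `ρ ≤ infDist w T`.) Put `A = Ω ∩ h⁻¹' (S ∪ K i)`.

`sepT`: `K i` and `T` have positive distance: if `K i` is compact clear; otherwise `K i` is the
unbounded component, `K i ⊇ {‖z‖ > R}` (complement of a large ball minus.. : `Ωs ∪` other `K m` is bounded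
and its complement is `K i`), so `T ⊆ (K i)ᶜ` is bounded and closed, compact.

`near`: by `ends` with `η < ` that distance: `κ > 0` with `x ∈ Ω`, `infDist x (L i) < κ → h x ∉ T`, so
`x ∈ A`.

`open_conn`: `U = A ∪ L i`.
 Open: `A` is open (`h` continuous on the open `Ω`, `S ∪ K i` open); `{x | infDist x (L i) < κ} ⊆ U` for small
 `κ` (points of this set outside `Ω ∪ L i` are in other `L m`, excluded for small `κ`).
 Connected: suppose `U ⊆ P ∪ Q` open sets, `U ∩ P ∩ Q = ∅`, `L i ⊆ P` (as `L i` is connected, WLOG), `x ∈ U ∩ Q`.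
 So `x ∈ A`, `h x ∈ S ∪ K i`. Let `p ∈ K i` and let `P1` be the range of a path in the open connected
 set `S ∪ K i` from `h x` to `p`. `X1 = P1 ∪ K i` is connected; `ρ > 0` small:
 `B = {w | infDist w X1 < ρ}` is open connected and `infDist w T ≥ ρ` for `w ∈ B` (the compact `P1` has
 positive distance to the closed `T`, and `sepT`). `B ∩ Ωs` is connected: `Comps.inter_conn` (`K i ⊆ B`,
 `K m ⊆ T` disjoint from `B`). For `j` large: `hj j x ∈ B ∩ Ωs` (`hj j x → h x ∈ P1`).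
 `D = Ω ∩ (hj j)⁻¹' (B ∩ Ωs)` preconnected. Claim `D ⊆ A`: for `z ∈ D`, `infDist (hj j z) T ≥ ρ`. Take
 `κ, j0` from `ends` with `η < ρ`, `j ≥ j0`: if `infDist z (L m) < κ` with `m ≠ i` then
 `infDist (hj j z) (K m) < η < ρ`, contradiction to `K m ⊆ T`; if `infDist z (L i) < κ` then `z ∈ A` by `near`;
 otherwise `z` is in the compact set `{κ ≤ infDist · Ωᶜ}` where `‖hj j - h‖ < ρ/2` (`j` large), so
 `h z ∉ T`, `h z ∈ S ∪ K i`. `D` contains `x` and points arbitrarily close to `L i` (points `y ∈ Ωs` close to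
 `K i`, `y ∈ B`, exist since `K i` meets `closure Ωs`; by `back` their preimages under `hj j` are close to `L i`).
 `N = {z | infDist z (L i) < κ'} ⊆ U` is connected, contains `L i`, so `N ⊆ P`; `D` meets `N`, so `D ∪ N ⊆ P`,
 `x ∈ P`. Contradiction.
 `A = U ∩ (L i)ᶜ`: `janiszewski` with `Comps.compl_conn` gives `A` preconnected.

`compl_conn'`: `M = Uᶜ = (Ω ∩ h⁻¹' T) ∪ ⋃_{m ≠ i} L m` is preconnected: suppose `M ⊆ OA ∪ OB`, open, disjoint
 (M is closed; from a separation of `M` in the sense of `IsPreconnected` pass to the disjoint closed sets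
 `M \ OB`, `M \ OA` and normality), `a ∈ M ∩ OA`, `b ∈ M ∩ OB`. `R = (OA ∪ OB)ᶜ` closed, disjoint from `M`, so
 `R ⊆ U`. Claim 1: `∃ ρ > 0, ∀ z ∈ R ∩ Ω, ρ ≤ infDist (h z) T`. Otherwise `zn ∈ R ∩ Ω` with
 `infDist (h zn) T → 0`; subsequence `zn → z ∈ R ∩ closure Ω`. If `z ∈ Ω`: `h z ∈ T`, so `z ∈ M`, contradiction. If
 `z ∉ Ω`: `z ∈ L m`, `m = i` (as `L m ⊆ M` for `m ≠ i`), so `infDist zn (L i) → 0`, so `infDist (h zn) (K i) → 0`,
 contradiction to `sepT`. Decrease `ρ`: `ρ < dist (K i, T)/2`.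
 `O = {w | infDist w T < ρ/2}` is open connected, `K m ⊆ T ⊆ O` for `m ≠ i`, `K i` disjoint from `O`;
 `Comps.inter_conn`: `O ∩ Ωs` is connected (in particular nonempty). For `j ∈ ℕ` let
 `Mj = (Ω ∩ (hj j)⁻¹' (O ∩ Ωs)) ∪ ⋃_{m ≠ i} L m`. `Mj` is preconnected: `L m`, `m ≠ i`, is connected and
 meets the closure of the preconnected set `Ω ∩ (hj j)⁻¹' (O ∩ Ωs)`, which contains
 `{x ∈ Ω | infDist x (L m) < κ(j)}` (matching: from `ends`, only for `j ≥ j0`, `η = ρ/2`:
 `infDist (hj j x) (K m) < ρ/2`, `K m ⊆ T`); `Comps.meets`. Claim 2: `Mj ⊆ OA ∪ OB` for large `j`: let `z ∈ Mj ∩ R`;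
 `z ∈ Ω` and `infDist (hj j z) T < ρ/2`. `κ, j0` from `ends` for `η = ρ/2`; also `κ` so small that
 `infDist z (L m) < κ` is impossible for `z ∈ R ∩ closure Ω`, `m ≠ i` (`R ∩ closure Ω` is compact, disjoint from `L m`).
 If `infDist z (L i) < κ`: `infDist (hj j z) (K i) < ρ/2`, so `dist (K i, T) ≤ ρ`, contradiction. Otherwise `z` is in
 the compact set `{κ ≤ infDist · Ωᶜ}`, `‖hj j z - h z‖ < ρ/2`, `infDist (h z) T < ρ`, contradiction to claim 1.
 `a, b ∈ Mj` for large `j`: if `a ∈ L m` clear; if `a ∈ Ω`, `h a ∈ T`, `hj j a → h a`, so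
 `infDist (hj j a) T < ρ/2` eventually. Contradiction to the preconnectedness of `Mj`.
-/

open Complex Set Filter Topology Metric

namespace CF6

section

variable {k : ℕ} {Ω Ωs : Set ℂ} {L K : Fin k → Set ℂ} {h : ℂ → ℂ} {hj : ℕ → ℂ → ℂ}

/-- nearby points: `infDist` version of the existence of close points -/
private theorem a08b_exists_lt {X : Set ℂ} (hX : X.Nonempty) {w : ℂ} {r : ℝ} (h : infDist w X < r) :
    ∃ v ∈ X, dist w v < r := (infDist_lt_iff hX).1 h

/-- a point of the domain near a boundary component -/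
private theorem a08b_point {Ω : Set ℂ} {L : Fin k → Set ℂ} (H : Comps Ω L) (i : Fin k) {r : ℝ}
    (hr : 0 < r) : ∃ x ∈ Ω, infDist x (L i) < r := by
  obtain ⟨q, hq, hqc⟩ := H.meets i
  obtain ⟨x, hx, hxq⟩ := Metric.mem_closure_iff.1 hqc r hr
  refine ⟨x, hx, (infDist_le_dist_of_mem hq).trans_lt ?_⟩
  rwa [dist_comm]

/-- a thin neighbourhood of `L i` is contained in the collar -/
private theorem a08b_thin (H : Approx Ω Ωs L K h hj) (i : Fin k) {S : Set ℂ} (hS : S ⊆ Ωs)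
    (oS : IsOpen (S ∪ K i)) :
    ∃ κ > (0 : ℝ), (∀ x ∈ Ω, infDist x (L i) < κ → h x ∈ S ∪ K i) ∧
      {z | infDist z (L i) < κ} ⊆ (Ω ∩ h ⁻¹' (S ∪ K i)) ∪ L i := by
  obtain ⟨κ, hκ, h1⟩ := H.near i hS oS
  obtain ⟨ε0, hε0, h2, -⟩ := H.dom.ends
  refine ⟨min κ ε0, lt_min hκ hε0, fun x hx hxi => h1 x hx (hxi.trans_le (min_le_left _ _)), ?_⟩
  intro z hz
  have hz' : infDist z (L i) < min κ ε0 := hz
  by_cases hzΩ : z ∈ Ω
  · exact Or.inl ⟨hzΩ, h1 z hzΩ (hz'.trans_le (min_le_left _ _))⟩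
  · have h3 : z ∈ ⋃ m, L m := by
      rw [H.dom.union]
      exact hzΩ
    obtain ⟨m, hm⟩ := Set.mem_iUnion.1 h3
    by_cases hmi : m = i
    · subst hmi
      exact Or.inr hm
    · exfalso
      have h4 := h2 i m (fun e => hmi e.symm) z (hz'.trans_le (min_le_right _ _))
      rw [infDist_zero_of_mem hm] at h4
      exact absurd hε0 (not_lt.2 h4)

/-- each point of the collar is joined to the thin neighbourhood -/
private theorem a08b_join (H : Approx Ω Ωs L K h hj) (i : Fin k) {S : Set ℂ} (hS : S ⊆ Ωs)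
    (oS : IsOpen (S ∪ K i)) (cS : IsConnected (S ∪ K i)) {κ₀ : ℝ} (hκ₀ : 0 < κ₀)
    (hnear : ∀ x ∈ Ω, infDist x (L i) < κ₀ → h x ∈ S ∪ K i) {x : ℂ} (hx : x ∈ Ω)
    (hxS : h x ∈ S ∪ K i) :
    ∃ D ⊆ Ω ∩ h ⁻¹' (S ∪ K i), IsPreconnected D ∧ x ∈ D ∧ ∃ z ∈ D, infDist z (L i) < κ₀ := by
  obtain ⟨p, hp⟩ := (H.tgt.cconn i).nonempty
  have hpS : p ∈ S ∪ K i := Or.inr hp
  have hpath : IsPathConnected (S ∪ K i) := (oS.isConnected_iff_isPathConnected).1 cS
  have hJ := hpath.joinedIn (h x) hxS p hpS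
  set P1 : Set ℂ := Set.range hJ.somePath with hP1
  have hP1S : P1 ⊆ S ∪ K i := by
    rintro _ ⟨t, rfl⟩
    exact hJ.somePath_mem t
  have hP1c : IsCompact P1 := isCompact_range hJ.somePath.continuous
  have hP1x : h x ∈ P1 := ⟨0, hJ.somePath.source⟩
  have hP1p : p ∈ P1 := ⟨1, hJ.somePath.target⟩
  have hP1conn : IsConnected P1 := isConnected_range hJ.somePath.continuous
  set X1 : Set ℂ := P1 ∪ K i with hX1
  have hX1conn : IsConnected X1 :=
    IsConnected.union ⟨p, hP1p, hp⟩ hP1conn (H.tgt.cconn i)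
  have hX1ne : X1.Nonempty := hX1conn.nonempty
  obtain ⟨d, hd, hsep⟩ := sepT H.tgt i hS oS
  obtain ⟨ρ1, hρ1, hthick⟩ := hP1c.exists_thickening_subset_open oS hP1S
  set ρ := min d ρ1 / 2 with hρ
  have hρ0 : 0 < ρ := half_pos (lt_min hd hρ1)
  have hρd : 2 * ρ ≤ d := by
    have := min_le_left d ρ1
    linarith
  have hρ1' : 2 * ρ ≤ ρ1 := by
    have := min_le_right d ρ1
    linarith
  have hX1T : ∀ v ∈ X1, ∀ y ∉ S ∪ K i, 2 * ρ ≤ dist v y := by
    rintro v (hv | hv) y hy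
    · by_contra hcon
      push Not at hcon
      apply hy
      apply hthick
      rw [mem_thickening_iff]
      exact ⟨v, hv, by rw [dist_comm]; exact hcon.trans_le hρ1'⟩
    · exact hρd.trans (hsep v hv y hy)
  set B : Set ℂ := {w | infDist w X1 < ρ} with hB
  obtain ⟨oB, cB⟩ := isConnected_thick hX1conn hρ0
  have hBT : ∀ w ∈ B, ∀ y ∉ S ∪ K i, ρ ≤ dist w y := by
    intro w hw y hy
    obtain ⟨v, hv, hvw⟩ := a08b_exists_lt hX1ne hw
    have h1 := hX1T v hv y hy
    have h2 := dist_triangle v w y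
    rw [dist_comm v w] at h2
    linarith
  have hBS : B ⊆ S ∪ K i := by
    intro w hw
    by_contra hcon
    have := hBT w hw w hcon
    rw [dist_self] at this
    linarith
  have hKT : ∀ m, m ≠ i → ∀ y ∈ K m, y ∉ S ∪ K i := by
    rintro m hm y hy (hyS | hyK)
    · have h1 : y ∈ Ωsᶜ := by
        rw [← H.tgt.union]
        exact Set.mem_iUnion.2 ⟨m, hy⟩
      exact h1 (hS hyS)
    · exact Set.disjoint_left.1 (H.tgt.disj m i hm) hy hyK
  have hBconn : IsConnected (B ∩ Ωs) := by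
    refine H.tgt.inter_conn oB cB fun m => ?_
    by_cases hm : m = i
    · subst hm
      left
      intro w hw
      change infDist w X1 < ρ
      have hwX : w ∈ X1 := Or.inr hw
      rw [infDist_zero_of_mem hwX]
      exact hρ0
    · right
      rw [Set.disjoint_left]
      intro y hy hyB
      exact hKT m hm y hy (hBS hyB)
  -- the constants from `ends`
  obtain ⟨κ, hκ, j0, hends⟩ := H.ends ρ hρ0
  set κ' := min κ κ₀ with hκ'
  have hκ'0 : 0 < κ' := lt_min hκ hκ₀
  obtain ⟨hQc, hQs⟩ := H.dom.core hκ'0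
  obtain ⟨j1, hj1⟩ := H.unif hQc hQs hρ0
  obtain ⟨j2, hj2⟩ := H.unif (isCompact_singleton (x := x)) (Set.singleton_subset_iff.2 hx) hρ0
  set j := max j0 (max j1 j2) with hjdef
  have hj0 : j0 ≤ j := le_max_left _ _
  have hj1' : j1 ≤ j := (le_max_left _ _).trans (le_max_right _ _)
  have hj2' : j2 ≤ j := (le_max_right _ _).trans (le_max_right _ _)
  have hhom := H.homeo j
  have hmaps : MapsTo (hj j) Ω Ωs := hhom.2.1.mapsTo
  refine ⟨Ω ∩ (hj j) ⁻¹' (B ∩ Ωs), ?_, hhom.conn_preimage hBconn.isPreconnected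
    Set.inter_subset_right, ?_, ?_⟩
  · rintro z ⟨hz, hzB, -⟩
    refine ⟨hz, ?_⟩
    by_cases hzi : infDist z (L i) < κ'
    · exact hnear z hz (hzi.trans_le (min_le_right _ _))
    · have hall : ∀ m, κ' ≤ infDist z (L m) := by
        intro m
        by_cases hm : m = i
        · subst hm
          exact not_lt.1 hzi
        · by_contra hcon
          push Not at hcon
          have h1 := (hends m z hz (hcon.trans_le (min_le_left _ _))).1 j hj0
          obtain ⟨y, hy, hyd⟩ := a08b_exists_lt (H.tgt.cconn m).nonempty h1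
          have h2 := hBT _ hzB y (hKT m hm y hy)
          linarith
      have hzQ : z ∈ {x | κ' ≤ infDist x Ωᶜ} := by
        obtain ⟨m, hm⟩ := (H.dom.infDist_eq z).1
        change κ' ≤ infDist z Ωᶜ
        rw [hm]
        exact hall m
      have h1 := hj1 j hj1' z hzQ
      by_contra hcon
      have h2 := hBT _ hzB (h z) hcon
      linarith
  · refine ⟨hx, ?_, hmaps hx⟩
    have h1 := hj2 j hj2' x rfl
    have hhX : h x ∈ X1 := Or.inl hP1x
    exact (infDist_le_dist_of_mem hhX).trans_lt h1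
  · obtain ⟨κb, hκb, hback⟩ := H.back j i κ₀ hκ₀
    obtain ⟨y, hy, hyd⟩ := a08b_point H.tgt i (lt_min hκb hρ0)
    obtain ⟨z, hz, rfl⟩ := hhom.2.1.surjOn hy
    refine ⟨z, ⟨hz, ?_, hy⟩, hback z hz (hyd.trans_le (min_le_left _ _))⟩
    exact (infDist_le_infDist_of_subset Set.subset_union_right (H.tgt.cconn i).nonempty).trans_lt
      (hyd.trans_le (min_le_right _ _))

theorem Approx.collar_conn (H : Approx Ω Ωs L K h hj) (i : Fin k) {S : Set ℂ} (hS : S ⊆ Ωs)
    (oS : IsOpen (S ∪ K i)) (cS : IsConnected (S ∪ K i)) :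
    IsConnected ((Ω ∩ h ⁻¹' (S ∪ K i)) ∪ L i) ∧ IsConnected (Ω ∩ h ⁻¹' (S ∪ K i)) := by
  obtain ⟨κ, hκ, hnear, hthin⟩ := a08b_thin H i hS oS
  obtain ⟨oN, cN⟩ := isConnected_thick (H.dom.cconn i) hκ
  have hLN : L i ⊆ {z | infDist z (L i) < κ} := fun z hz => by
    change infDist z (L i) < κ
    rw [infDist_zero_of_mem hz]
    exact hκ
  obtain ⟨p, hp⟩ := (H.dom.cconn i).nonempty
  have hU : IsPreconnected ((Ω ∩ h ⁻¹' (S ∪ K i)) ∪ L i) := by
    refine isPreconnected_of_forall p fun y hy => ?_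
    rcases hy with hy | hy
    · obtain ⟨D, hDs, hDc, hyD, z, hzD, hzN⟩ := a08b_join H i hS oS cS hκ hnear hy.1 hy.2
      refine ⟨D ∪ {z | infDist z (L i) < κ}, Set.union_subset (hDs.trans Set.subset_union_left) hthin,
        Or.inr (hLN hp), Or.inl hyD, ?_⟩
      exact IsPreconnected.union z hzD hzN hDc cN.isPreconnected
    · exact ⟨L i, Set.subset_union_right, hp, hy, (H.dom.cconn i).isPreconnected⟩
  have oU := (H.collar_isOpen i hS oS).2
  obtain ⟨oC, cC⟩ := H.dom.compl_conn i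
  have hA : (Ω ∩ h ⁻¹' (S ∪ K i)) = ((Ω ∩ h ⁻¹' (S ∪ K i)) ∪ L i) ∩ (L i)ᶜ := by
    ext z
    constructor
    · intro hz
      refine ⟨Or.inl hz, fun hzL => ?_⟩
      have : z ∈ Ωᶜ := by
        rw [← H.dom.union]
        exact Set.mem_iUnion.2 ⟨i, hzL⟩
      exact this hz.1
    · rintro ⟨hz | hz, hz'⟩
      · exact hz
      · exact absurd hz hz'
  refine ⟨⟨⟨p, Or.inr hp⟩, hU⟩, ?_, ?_⟩
  · obtain ⟨x, hx, hxd⟩ := a08b_point H.dom i hκ
    exact ⟨x, hx, hnear x hx hxd⟩
  · rw [hA]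
    refine janiszewski oU oC hU cC.isPreconnected ?_
    rw [Set.eq_univ_iff_forall]
    intro z
    by_cases hz : z ∈ L i
    · exact Or.inl (Or.inr hz)
    · exact Or.inr hz

end

end CF6

end

section

/-!
# A08: preimages of collars are doubly connected

Situation: `S ⊆ Ωs`, `S ∪ K i` open and connected, `T = (S ∪ K i)ᶜ` connected (closed). Note that
`⋃_{m ≠ i} K m ⊆ T`. (In `collar_conn` `T` may be empty: there use
`∀ y ∉ S ∪ K i, ρ ≤ dist w y` instead of `ρ ≤ infDist w T`.) Put `A = Ω ∩ h⁻¹' (S ∪ K i)`.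

`sepT`: `K i` and `T` have positive distance: if `K i` is compact clear; otherwise `K i` is the
unbounded component, `K i ⊇ {‖z‖ > R}` (complement of a large ball minus.. : `Ωs ∪` other `K m` is bounded
and its complement is `K i`), so `T ⊆ (K i)ᶜ` is bounded and closed, compact.

`near`: by `ends` with `η < ` that distance: `κ > 0` with `x ∈ Ω`, `infDist x (L i) < κ → h x ∉ T`, so
`x ∈ A`.

`open_conn`: `U = A ∪ L i`.
 Open: `A` is open (`h` continuous on the open `Ω`, `S ∪ K i` open); `{x | infDist x (L i) < κ} ⊆ U` for small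
 `κ` (points of this set outside `Ω ∪ L i` are in other `L m`, excluded for small `κ`).
 Connected: suppose `U ⊆ P ∪ Q` open sets, `U ∩ P ∩ Q = ∅`, `L i ⊆ P` (as `L i` is connected, WLOG), `x ∈ U ∩ Q`.
 So `x ∈ A`, `h x ∈ S ∪ K i`. Let `p ∈ K i` and let `P1` be the range of a path in the open connected
 set `S ∪ K i` from `h x` to `p`. `X1 = P1 ∪ K i` is connected; `ρ > 0` small:
 `B = {w | infDist w X1 < ρ}` is open connected and `infDist w T ≥ ρ` for `w ∈ B` (the compact `P1` has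
 positive distance to the closed `T`, and `sepT`). `B ∩ Ωs` is connected: `Comps.inter_conn` (`K i ⊆ B`,
 `K m ⊆ T` disjoint from `B`). For `j` large: `hj j x ∈ B ∩ Ωs` (`hj j x → h x ∈ P1`).
 `D = Ω ∩ (hj j)⁻¹' (B ∩ Ωs)` preconnected. Claim `D ⊆ A`: for `z ∈ D`, `infDist (hj j z) T ≥ ρ`. Take
 `κ, j0` from `ends` with `η < ρ`, `j ≥ j0`: if `infDist z (L m) < κ` with `m ≠ i` then
 `infDist (hj j z) (K m) < η < ρ`, contradiction to `K m ⊆ T`; if `infDist z (L i) < κ` then `z ∈ A` by `near`;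
 otherwise `z` is in the compact set `{κ ≤ infDist · Ωᶜ}` where `‖hj j - h‖ < ρ/2` (`j` large), so
 `h z ∉ T`, `h z ∈ S ∪ K i`. `D` contains `x` and points arbitrarily close to `L i` (points `y ∈ Ωs` close to
 `K i`, `y ∈ B`, exist since `K i` meets `closure Ωs`; by `back` their preimages under `hj j` are close to `L i`).
 `N = {z | infDist z (L i) < κ'} ⊆ U` is connected, contains `L i`, so `N ⊆ P`; `D` meets `N`, so `D ∪ N ⊆ P`,
 `x ∈ P`. Contradiction.
 `A = U ∩ (L i)ᶜ`: `janiszewski` with `Comps.compl_conn` gives `A` preconnected.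

`compl_conn'`: `M = Uᶜ = (Ω ∩ h⁻¹' T) ∪ ⋃_{m ≠ i} L m` is preconnected: suppose `M ⊆ OA ∪ OB`, open, disjoint
 (M is closed; from a separation of `M` in the sense of `IsPreconnected` pass to the disjoint closed sets
 `M \ OB`, `M \ OA` and normality), `a ∈ M ∩ OA`, `b ∈ M ∩ OB`. `R = (OA ∪ OB)ᶜ` closed, disjoint from `M`, so
 `R ⊆ U`. Claim 1: `∃ ρ > 0, ∀ z ∈ R ∩ Ω, ρ ≤ infDist (h z) T`. Otherwise `zn ∈ R ∩ Ω` with
 `infDist (h zn) T → 0`; subsequence `zn → z ∈ R ∩ closure Ω`. If `z ∈ Ω`: `h z ∈ T`, so `z ∈ M`, contradiction. If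
 `z ∉ Ω`: `z ∈ L m`, `m = i` (as `L m ⊆ M` for `m ≠ i`), so `infDist zn (L i) → 0`, so `infDist (h zn) (K i) → 0`,
 contradiction to `sepT`. Decrease `ρ`: `ρ < dist (K i, T)/2`.
 `O = {w | infDist w T < ρ/2}` is open connected, `K m ⊆ T ⊆ O` for `m ≠ i`, `K i` disjoint from `O`;
 `Comps.inter_conn`: `O ∩ Ωs` is connected (in particular nonempty). For `j ∈ ℕ` let
 `Mj = (Ω ∩ (hj j)⁻¹' (O ∩ Ωs)) ∪ ⋃_{m ≠ i} L m`. `Mj` is preconnected: `L m`, `m ≠ i`, is connected and
 meets the closure of the preconnected set `Ω ∩ (hj j)⁻¹' (O ∩ Ωs)`, which contains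
 `{x ∈ Ω | infDist x (L m) < κ(j)}` (matching: from `ends`, only for `j ≥ j0`, `η = ρ/2`:
 `infDist (hj j x) (K m) < ρ/2`, `K m ⊆ T`); `Comps.meets`. Claim 2: `Mj ⊆ OA ∪ OB` for large `j`: let `z ∈ Mj ∩ R`;
 `z ∈ Ω` and `infDist (hj j z) T < ρ/2`. `κ, j0` from `ends` for `η = ρ/2`; also `κ` so small that
 `infDist z (L m) < κ` is impossible for `z ∈ R ∩ closure Ω`, `m ≠ i` (`R ∩ closure Ω` is compact, disjoint from `L m`).
 If `infDist z (L i) < κ`: `infDist (hj j z) (K i) < ρ/2`, so `dist (K i, T) ≤ ρ`, contradiction. Otherwise `z` is in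
 the compact set `{κ ≤ infDist · Ωᶜ}`, `‖hj j z - h z‖ < ρ/2`, `infDist (h z) T < ρ`, contradiction to claim 1.
 `a, b ∈ Mj` for large `j`: if `a ∈ L m` clear; if `a ∈ Ω`, `h a ∈ T`, `hj j a → h a`, so
 `infDist (hj j a) T < ρ/2` eventually. Contradiction to the preconnectedness of `Mj`.
-/

open Complex Set Filter Topology Metric

namespace CF6

section

variable {k : ℕ} {Ω Ωs : Set ℂ} {L K : Fin k → Set ℂ} {h : ℂ → ℂ} {hj : ℕ → ℂ → ℂ}

/-- positive lower bound on a compact set -/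
private theorem a08c_lb {C : Set ℂ} (hC : IsCompact C) {f : ℂ → ℝ} (hf : ContinuousOn f C)
    (hp : ∀ z ∈ C, 0 < f z) : ∃ κ > (0 : ℝ), ∀ z ∈ C, κ ≤ f z := by
  rcases C.eq_empty_or_nonempty with rfl | hne
  · exact ⟨1, one_pos, by simp⟩
  · obtain ⟨z0, hz0, hmin⟩ := hC.exists_isMinOn hne hf
    exact ⟨f z0, hp z0 hz0, fun z hz => hmin hz⟩

theorem Approx.collar_compl_conn (H : Approx Ω Ωs L K h hj) (i : Fin k) {S : Set ℂ} (hS : S ⊆ Ωs)
    (oS : IsOpen (S ∪ K i)) (cT : IsConnected (S ∪ K i)ᶜ) :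
    IsConnected ((Ω ∩ h ⁻¹' (S ∪ K i)) ∪ L i)ᶜ := by
  classical
  set T : Set ℂ := (S ∪ K i)ᶜ with hT
  have clT : IsClosed T := oS.isClosed_compl
  have neT : T.Nonempty := cT.nonempty
  set M : Set ℂ := ((Ω ∩ h ⁻¹' (S ∪ K i)) ∪ L i)ᶜ with hM
  have clM : IsClosed M := (H.collar_isOpen i hS oS).2.isClosed_compl
  have LΩ : ∀ m, ∀ x ∈ L m, x ∉ Ω := by
    intro m x hx
    have : x ∈ Ωᶜ := by rw [← H.dom.union]; exact mem_iUnion.2 ⟨m, hx⟩
    exact this
  have KΩ : ∀ m, ∀ x ∈ K m, x ∉ Ωs := by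
    intro m x hx
    have : x ∈ Ωsᶜ := by rw [← H.tgt.union]; exact mem_iUnion.2 ⟨m, hx⟩
    exact this
  have hLM : ∀ m, m ≠ i → L m ⊆ M := by
    intro m hm x hx hx'
    rcases hx' with ⟨h1, _⟩ | h1
    · exact LΩ m x hx h1
    · exact (disjoint_left.1 (H.dom.disj m i hm)) hx h1
  have hKT : ∀ m, m ≠ i → K m ⊆ T := by
    intro m hm x hx hx'
    rcases hx' with h1 | h1
    · exact KΩ m x hx (hS h1)
    · exact (disjoint_left.1 (H.tgt.disj m i hm)) hx h1
  have hΩM : ∀ x ∈ Ω, h x ∈ T → x ∈ M := by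
    intro x hx hxT hx'
    rcases hx' with ⟨_, h1⟩ | h1
    · exact hxT h1
    · exact LΩ i x h1 hx
  have hMcase : ∀ x ∈ M, (x ∈ Ω ∧ h x ∈ T) ∨ ∃ m, m ≠ i ∧ x ∈ L m := by
    intro x hx
    by_cases hxΩ : x ∈ Ω
    · exact Or.inl ⟨hxΩ, fun h1 => hx (Or.inl ⟨hxΩ, h1⟩)⟩
    · right
      have : x ∈ ⋃ m, L m := by rw [H.dom.union]; exact hxΩ
      obtain ⟨m, hm⟩ := mem_iUnion.1 this
      exact ⟨m, fun h0 => hx (Or.inr (h0 ▸ hm)), hm⟩
  have neM : M.Nonempty := by
    obtain ⟨t, ht⟩ := neT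
    by_cases htΩ : t ∈ Ωs
    · obtain ⟨x, hx, rfl⟩ := H.surj htΩ
      exact ⟨x, hΩM x hx ht⟩
    · have : t ∈ ⋃ m, K m := by rw [H.tgt.union]; exact htΩ
      obtain ⟨m, hm⟩ := mem_iUnion.1 this
      have hmi : m ≠ i := by
        rintro rfl
        exact ht (Or.inr hm)
      obtain ⟨y, hy⟩ := (H.dom.cconn m).nonempty
      exact ⟨y, hLM m hmi hy⟩
  refine ⟨neM, ?_⟩
  rw [isPreconnected_closed_iff]
  intro t t' ct ct' hsub hA hB
  by_contra hno
  rw [not_nonempty_iff_eq_empty] at hno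
  have hdis : Disjoint (M ∩ t) (M ∩ t') := by
    rw [disjoint_left]
    intro x hx hx'
    have : x ∈ M ∩ (t ∩ t') := ⟨hx.1, hx.2, hx'.2⟩
    rw [hno] at this
    exact this
  obtain ⟨OA, OB, oA, oB, hAO, hBO, hAB⟩ := normal_separation (clM.inter ct) (clM.inter ct') hdis
  have hMO : M ⊆ OA ∪ OB := by
    intro x hx
    rcases hsub hx with h1 | h1
    · exact Or.inl (hAO ⟨hx, h1⟩)
    · exact Or.inr (hBO ⟨hx, h1⟩)
  obtain ⟨a, haM, hat⟩ := hA
  obtain ⟨b, hbM, hbt⟩ := hB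
  have haO : a ∈ OA := hAO ⟨haM, hat⟩
  have hbO : b ∈ OB := hBO ⟨hbM, hbt⟩
  set R : Set ℂ := (OA ∪ OB)ᶜ with hR
  have clR : IsClosed R := (oA.union oB).isClosed_compl
  have hRM : ∀ x ∈ R, x ∉ M := fun x hx hxM => hx (hMO hxM)
  -- points of `R` are far from the other components
  have cR : IsCompact (closure Ω ∩ R) := H.dom.bdd.isCompact_closure.inter_right clR
  obtain ⟨κ2, hκ2, hκ2'⟩ := a08c_lb cR (f := fun z => infDist z M) (continuous_infDist_pt M).continuousOn
    (fun z hz => (clM.notMem_iff_infDist_pos neM).1 (hRM z hz.2))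
  have hκ2L : ∀ m, m ≠ i → ∀ z ∈ Ω, z ∈ R → κ2 ≤ infDist z (L m) := by
    intro m hm z hz hzR
    exact (hκ2' z ⟨subset_closure hz, hzR⟩).trans
      (infDist_le_infDist_of_subset (hLM m hm) (H.dom.cconn m).nonempty)
  have hnear : ∀ κ ≤ κ2, ∀ z ∈ Ω, z ∈ R → infDist z Ωᶜ < κ → infDist z (L i) < κ := by
    intro κ hκ z hz hzR hlt
    obtain ⟨m, hm⟩ := (H.dom.infDist_eq z).1
    by_cases hmi : m = i
    · rw [← hmi, ← hm]
      exact hlt
    · have := hκ2L m hmi z hz hzR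
      linarith
  -- claim 1
  obtain ⟨d, hd, hd'⟩ := sepT H.tgt i hS oS
  obtain ⟨κ3, hκ3, j3, hκ3'⟩ := H.ends (d / 4) (by positivity)
  have hκ' : 0 < min κ2 κ3 := lt_min hκ2 hκ3
  have cQ1 : IsCompact ({x | min κ2 κ3 ≤ infDist x Ωᶜ} ∩ R) := (H.dom.core hκ').1.inter_right clR
  have sQ1 : {x | min κ2 κ3 ≤ infDist x Ωᶜ} ∩ R ⊆ Ω := inter_subset_left.trans (H.dom.core hκ').2
  obtain ⟨ρ2, hρ2, hρ2'⟩ := a08c_lb cQ1 (f := fun z => infDist (h z) T)
    ((continuous_infDist_pt T).comp_continuousOn (H.cont.mono sQ1))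
    (fun z hz => (clT.notMem_iff_infDist_pos neT).1 fun hzT => hRM z hz.2 (hΩM z (sQ1 hz) hzT))
  set ρ : ℝ := min ρ2 (d / 2) with hρdef
  have hρ : 0 < ρ := lt_min hρ2 (by positivity)
  have hρd : ρ ≤ d / 2 := min_le_right _ _
  have claim1 : ∀ z ∈ Ω, z ∈ R → ρ ≤ infDist (h z) T := by
    intro z hz hzR
    by_cases hfar : min κ2 κ3 ≤ infDist z Ωᶜ
    · exact (min_le_left _ _).trans (hρ2' z ⟨hfar, hzR⟩)
    · have h1 : infDist z (L i) < min κ2 κ3 := hnear _ (min_le_left _ _) z hz hzR (not_le.1 hfar)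
      have h2 : infDist (h z) (K i) ≤ d / 4 := (hκ3' i z hz (h1.trans_le (min_le_right _ _))).2
      have h3 : infDist (h z) (K i) < d / 2 := by linarith
      obtain ⟨x, hx, hxd⟩ := (infDist_lt_iff (H.tgt.cconn i).nonempty).1 h3
      refine hρd.trans ((le_infDist neT).2 fun y hy => ?_)
      have h4 := hd' x hx y hy
      have h5 := dist_triangle x (h z) y
      rw [dist_comm x (h z)] at h5
      linarith
  -- the collar of `T`
  obtain ⟨oO, cO⟩ := isConnected_thick cT (ε := ρ / 2) (by positivity)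
  set O : Set ℂ := {x | infDist x T < ρ / 2} with hO
  have hTO : T ⊆ O := by
    intro x hx
    show infDist x T < ρ / 2
    rw [infDist_zero_of_mem hx]
    positivity
  have cOΩ : IsConnected (O ∩ Ωs) := by
    refine H.tgt.inter_conn oO cO fun m => ?_
    by_cases hmi : m = i
    · right
      subst hmi
      rw [disjoint_left]
      intro x hx hxO
      have h1 : infDist x T < ρ / 2 := hxO
      have h2 : d ≤ infDist x T := (le_infDist neT).2 fun y hy => hd' x hx y hy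
      linarith
    · exact Or.inl ((hKT m hmi).trans hTO)
  set G : ℕ → Set ℂ := fun j => Ω ∩ (hj j) ⁻¹' (O ∩ Ωs) with hG
  have cG : ∀ j, IsPreconnected (G j) := fun j =>
    (H.homeo j).conn_preimage cOΩ.isPreconnected inter_subset_right
  obtain ⟨κ1, hκ1, j1, hκ1'⟩ := H.ends (ρ / 2) (by positivity)
  have hκ : 0 < min κ2 κ1 := lt_min hκ2 hκ1
  obtain ⟨j2, hj2⟩ := H.unif (H.dom.core hκ).1 (H.dom.core hκ).2 (ε := ρ / 2) (by positivity)
  -- claim 2
  have claim2 : ∀ j, j1 ≤ j → j2 ≤ j → G j ⊆ OA ∪ OB := by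
    intro j hj1 hj2' z hz
    by_contra hzR
    have hzR' : z ∈ R := hzR
    obtain ⟨hzΩ, hzO, -⟩ := hz
    have hzO' : infDist (hj j z) T < ρ / 2 := hzO
    by_cases hfar : min κ2 κ1 ≤ infDist z Ωᶜ
    · have h1 := hj2 j hj2' z hfar
      have h2 := claim1 z hzΩ hzR'
      have h3 : infDist (h z) T ≤ infDist (hj j z) T + dist (h z) (hj j z) := infDist_le_infDist_add_dist
      rw [dist_comm] at h1
      linarith
    · have h1 : infDist z (L i) < min κ2 κ1 := hnear _ (min_le_left _ _) z hzΩ hzR' (not_le.1 hfar)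
      have h2 := (hκ1' i z hzΩ (h1.trans_le (min_le_right _ _))).1 j hj1
      obtain ⟨x, hx, hxd⟩ := (infDist_lt_iff (H.tgt.cconn i).nonempty).1 h2
      obtain ⟨y, hy, hyd⟩ := (infDist_lt_iff neT).1 hzO'
      have h4 := hd' x hx y hy
      have h5 := dist_triangle x (hj j z) y
      rw [dist_comm x (hj j z)] at h5
      linarith
  -- the other components touch `G j`
  have claim3 : ∀ j, j1 ≤ j → ∀ m, m ≠ i → ∃ x ∈ L m, x ∈ closure (G j) := by
    intro j hj1 m hm
    obtain ⟨x, hx, hxc⟩ := H.dom.meets m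
    refine ⟨x, hx, Metric.mem_closure_iff.2 fun ε hε => ?_⟩
    obtain ⟨y, hy, hyd⟩ := Metric.mem_closure_iff.1 hxc (min ε κ1) (lt_min hε hκ1)
    refine ⟨y, ⟨hy, ?_, (H.homeo j).2.1.mapsTo hy⟩, hyd.trans_le (min_le_left _ _)⟩
    have h1 : infDist y (L m) < κ1 := by
      refine (infDist_le_dist_of_mem hx).trans_lt ?_
      rw [dist_comm]
      exact hyd.trans_le (min_le_right _ _)
    have h2 := (hκ1' m y hy h1).1 j hj1
    exact (infDist_le_infDist_of_subset (hKT m hm) (H.tgt.cconn m).nonempty).trans_lt h2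
  have side : ∀ P Q : Set ℂ, IsOpen P → IsOpen Q → Disjoint P Q → M ⊆ P ∪ Q → ∀ j, j1 ≤ j → G j ⊆ P →
      ∀ m, m ≠ i → L m ⊆ P := by
    intro P Q oP oQ hPQ hMPQ j hj1 hGP m hm
    rcases (H.dom.cconn m).isPreconnected.subset_or_subset oP oQ hPQ ((hLM m hm).trans hMPQ) with h1 | h1
    · exact h1
    · exfalso
      obtain ⟨x, hx, hxc⟩ := claim3 j hj1 m hm
      obtain ⟨y, hyQ, hyG⟩ := mem_closure_iff.1 hxc Q oQ (h1 hx)
      exact (disjoint_left.1 hPQ) (hGP hyG) hyQ
  have large : ∀ x ∈ M, ∃ jx, ∀ j, jx ≤ j → x ∈ G j ∨ ∃ m, m ≠ i ∧ x ∈ L m := by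
    intro x hx
    rcases hMcase x hx with ⟨h1, h2⟩ | h1
    · obtain ⟨jx, hjx⟩ := H.unif (isCompact_singleton (x := x)) (singleton_subset_iff.2 h1) (ε := ρ / 2)
        (by positivity)
      refine ⟨jx, fun j hj' => Or.inl ⟨h1, ?_, (H.homeo j).2.1.mapsTo h1⟩⟩
      exact (infDist_le_dist_of_mem h2).trans_lt (hjx j hj' x rfl)
    · exact ⟨0, fun _ _ => Or.inr h1⟩
  obtain ⟨ja, hja⟩ := large a haM
  obtain ⟨jb, hjb⟩ := large b hbM
  set J : ℕ := max (max ja jb) (max j1 j2) with hJ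
  have hJ1 : j1 ≤ J := (le_max_left _ _).trans (le_max_right _ _)
  have hJ2 : j2 ≤ J := (le_max_right _ _).trans (le_max_right _ _)
  have hJa : ja ≤ J := (le_max_left _ _).trans (le_max_left _ _)
  have hJb : jb ≤ J := (le_max_right _ _).trans (le_max_left _ _)
  rcases (cG J).subset_or_subset oA oB hAB (claim2 J hJ1 hJ2) with h1 | h1
  · have h2 := side OA OB oA oB hAB hMO J hJ1 h1
    have hbA : b ∈ OA := by
      rcases hjb J hJb with h3 | ⟨m, hm, h3⟩
      · exact h1 h3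
      · exact h2 m hm h3
    exact (disjoint_left.1 hAB) hbA hbO
  · have h2 := side OB OA oB oA hAB.symm (by rw [union_comm]; exact hMO) J hJ1 h1
    have haB : a ∈ OB := by
      rcases hja J hJa with h3 | ⟨m, hm, h3⟩
      · exact h1 h3
      · exact h2 m hm h3
    exact (disjoint_left.1 hAB) haO haB

end

end CF6

end

section

/-!
# A10: integrals over polygonal chains

* `segInt_prim`: `t ↦ F (a + t (b - a))` has derivative `f (a + t (b-a)) * (b-a)` on `[0,1]`
  (`a + t (b - a) ∈ segment ℝ a b`), continuous integrand: `intervalIntegral.integral_eq_sub_of_hasDerivAt`.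
* `polyInt_prim`: telescoping sum (`Finset.sum_range_sub`).
* `segInt_sub`, `polyInt_sub`, `polyInt_const_mul`: linearity of the integral; the integrands are continuous on
  `[0,1]`, so interval integrable.
* `norm_polyInt_le`: `intervalIntegral.norm_integral_le_of_norm_le_const`.
* `isCompact_trace`: finite union of compact segments (`segment ℝ a b` is the image of `[0,1]`).
* `wind_locally_const`: `r = infDist w (trace p n) > 0` (if the trace is empty, `n = 0`, everything is `0`).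
  For `‖w' - w‖ < r` the function `z ↦ log ((z - w')/(z - w))` (principal branch) is on the trace
  differentiable with derivative `(z - w')⁻¹ - (z - w)⁻¹`, because
  `(z - w')/(z - w) = 1 - (w' - w)/(z - w)` has positive real part (`‖(w' - w)/(z - w)‖ < 1`), so it is in `slitPlane`.
  `polyInt_prim` and `p n = p 0` give `polyInt (fun z => (z-w')⁻¹ - (z-w)⁻¹) p n = 0`; `polyInt_sub`.
* `wind_infty`: `trace p n ⊆ closedBall 0 R`, `‖w‖ > R`: primitive `log (1 - z/w)` of `(z - w)⁻¹` on the trace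
  (derivative `(-1/w)/(1 - z/w) = 1/(z - w)`), `re (1 - z/w) > 0`.
* `wind_noHole`: `N w = polyInt (fun z => (z - w)⁻¹) p n`. `A = {w ∈ Gᶜ | N w = 0}`, `B = {w ∈ Gᶜ | N w ≠ 0}`.
  Since `N` is locally constant on the open set `(trace p n)ᶜ ⊇ Gᶜ`, both are closed; `B` is bounded by
  `wind_infty`, so compact. `NoHole` gives `B = ∅`.
-/

open Complex Set Filter Topology Metric

namespace CF6

theorem a10b_slit {z : ℂ} (h : ‖z - 1‖ < 1) : z ∈ slitPlane := by
  left
  have h1 : |(z - 1).re| ≤ ‖z - 1‖ := Complex.abs_re_le_norm _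
  have h2 : (z - 1).re = z.re - 1 := by simp
  rw [h2] at h1
  have h3 := (abs_le.mp h1).1
  linarith

theorem a10b_cont {p : ℕ → ℂ} {n : ℕ} {w : ℂ} (hw : w ∉ trace p n) :
    ContinuousOn (fun z => (z - w)⁻¹) (trace p n) := by
  refine ContinuousOn.inv₀ (by fun_prop) ?_
  intro z hz h
  rw [sub_eq_zero] at h
  exact hw (h ▸ hz)

theorem wind_locally_const {p : ℕ → ℂ} {n : ℕ} (hc : p n = p 0) {w : ℂ} (hw : w ∉ trace p n) :
    ∀ᶠ w' in 𝓝 w, polyInt (fun z => (z - w')⁻¹) p n = polyInt (fun z => (z - w)⁻¹) p n := by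
  have hcl : IsClosed (trace p n) := (isCompact_trace p n).isClosed
  obtain ⟨r, hr, hball⟩ := Metric.isOpen_iff.mp hcl.isOpen_compl w hw
  have hfar : ∀ z ∈ trace p n, r ≤ ‖z - w‖ := by
    intro z hz
    by_contra hlt
    push Not at hlt
    exact hball (by rwa [mem_ball, dist_eq_norm]) hz
  filter_upwards [Metric.ball_mem_nhds w hr] with w' hw'
  rw [mem_ball, dist_eq_norm] at hw'
  have hw'' : w' ∉ trace p n := by
    intro h
    have := hfar w' h
    linarith
  have key : polyInt (fun z => (z - w')⁻¹ - (z - w)⁻¹) p n = 0 := by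
    have h1 : ∀ z ∈ trace p n, HasDerivAt (fun z => log ((z - w') / (z - w)))
        ((z - w')⁻¹ - (z - w)⁻¹) z := by
      intro z hz
      have hzw : z - w ≠ 0 := by
        intro h
        rw [sub_eq_zero] at h
        exact hw (h ▸ hz)
      have hzw' : z - w' ≠ 0 := by
        intro h
        rw [sub_eq_zero] at h
        exact hw'' (h ▸ hz)
      have hslit : (z - w') / (z - w) ∈ slitPlane := by
        apply a10b_slit
        have h2 : (z - w') / (z - w) - 1 = (w - w') / (z - w) := by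
          field_simp
          ring
        rw [h2, norm_div, div_lt_one (norm_pos_iff.mpr hzw), norm_sub_rev]
        exact lt_of_lt_of_le hw' (hfar z hz)
      have h3 : HasDerivAt (fun z : ℂ => (z - w') / (z - w))
          ((1 * (z - w) - (z - w') * 1) / (z - w) ^ 2) z :=
        ((hasDerivAt_id z).sub_const w').div ((hasDerivAt_id z).sub_const w) hzw
      have h4 := h3.clog hslit
      convert h4 using 1
      field_simp
    have h5 := polyInt_prim h1 ((a10b_cont hw'').sub (a10b_cont hw))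
    rw [h5, hc, sub_self]
  rw [polyInt_sub (a10b_cont hw'') (a10b_cont hw)] at key
  exact sub_eq_zero.mp key

theorem wind_infty {p : ℕ → ℂ} {n : ℕ} (hc : p n = p 0) :
    ∃ R : ℝ, ∀ w : ℂ, R < ‖w‖ → w ∉ trace p n ∧ polyInt (fun z => (z - w)⁻¹) p n = 0 := by
  obtain ⟨R, hR⟩ := (isCompact_trace p n).isBounded.exists_norm_le
  refine ⟨max R 0, fun w hw => ?_⟩
  have hwR : R < ‖w‖ := lt_of_le_of_lt (le_max_left _ _) hw
  have hw0 : 0 < ‖w‖ := lt_of_le_of_lt (le_max_right _ _) hw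
  have hwne : w ≠ 0 := norm_pos_iff.mp hw0
  have hnot : w ∉ trace p n := fun h => absurd (hR w h) (not_le.mpr hwR)
  refine ⟨hnot, ?_⟩
  have h1 : ∀ z ∈ trace p n, HasDerivAt (fun z => log (1 - z / w)) ((z - w)⁻¹) z := by
    intro z hz
    have hzw : z - w ≠ 0 := by
      intro h
      rw [sub_eq_zero] at h
      exact hnot (h ▸ hz)
    have hslit : 1 - z / w ∈ slitPlane := by
      apply a10b_slit
      have h2 : 1 - z / w - 1 = -(z / w) := by ring
      rw [h2, norm_neg, norm_div, div_lt_one hw0]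
      exact lt_of_le_of_lt (hR z hz) hwR
    have h3 : HasDerivAt (fun z : ℂ => 1 - z / w) (-(1 / w)) z :=
      ((hasDerivAt_id z).div_const w).const_sub 1
    have h4 := h3.clog hslit
    convert h4 using 1
    have h5 : 1 - z / w ≠ 0 := Complex.slitPlane_ne_zero hslit
    have h6 : w - z ≠ 0 := by
      intro h
      apply hzw
      linear_combination -h
    have h7 : 1 - z / w = (w - z) / w := by field_simp
    rw [h7]
    field_simp
    ring
  have h5 := polyInt_prim h1 (a10b_cont hnot)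
  rw [h5, hc, sub_self]

theorem wind_noHole {G : Set ℂ} (hG : IsOpen G) (hn : NoHole G) {p : ℕ → ℂ} {n : ℕ}
    (hp : trace p n ⊆ G) (hc : p n = p 0) : ∀ w ∉ G, polyInt (fun z => (z - w)⁻¹) p n = 0 := by
  obtain ⟨N, hN⟩ : ∃ N : ℂ → ℂ, N = fun w => polyInt (fun z => (z - w)⁻¹) p n := ⟨_, rfl⟩
  have hNw : ∀ w, N w = polyInt (fun z => (z - w)⁻¹) p n := fun w => by rw [hN]
  have hloc : ∀ w ∉ trace p n, ∀ᶠ w' in 𝓝 w, N w' = N w := by
    intro w hw
    simp only [hNw]
    exact wind_locally_const hc hw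
  have hA : IsClosed {w | w ∉ G ∧ N w = 0} := by
    rw [← isOpen_compl_iff, isOpen_iff_mem_nhds]
    intro w hw
    by_cases hwG : w ∈ G
    · filter_upwards [hG.mem_nhds hwG] with w' hw' hh
      exact hh.1 hw'
    · have hN0 : N w ≠ 0 := fun h => hw ⟨hwG, h⟩
      filter_upwards [hloc w (fun h => hwG (hp h))] with w' hw' hh
      exact hN0 (hw' ▸ hh.2)
  have hB : IsClosed {w | w ∉ G ∧ N w ≠ 0} := by
    rw [← isOpen_compl_iff, isOpen_iff_mem_nhds]
    intro w hw
    by_cases hwG : w ∈ G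
    · filter_upwards [hG.mem_nhds hwG] with w' hw' hh
      exact hh.1 hw'
    · have hN0 : N w = 0 := by
        by_contra h
        exact hw ⟨hwG, h⟩
      filter_upwards [hloc w (fun h => hwG (hp h))] with w' hw' hh
      exact hh.2 (hw'.trans hN0)
  obtain ⟨R, hR⟩ := wind_infty hc
  have hBb : Bornology.IsBounded {w | w ∉ G ∧ N w ≠ 0} := by
    refine (Metric.isBounded_closedBall (x := (0 : ℂ)) (r := R)).subset ?_
    intro w hw
    rw [mem_closedBall, dist_zero_right]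
    by_contra h
    push Not at h
    exact hw.2 ((hNw w).trans (hR w h).2)
  have hBc : IsCompact {w | w ∉ G ∧ N w ≠ 0} := Metric.isCompact_of_isClosed_isBounded hB hBb
  have hdis : Disjoint {w | w ∉ G ∧ N w = 0} {w | w ∉ G ∧ N w ≠ 0} := by
    rw [Set.disjoint_left]
    intro w h1 h2
    exact h2.2 h1.2
  have hun : {w | w ∉ G ∧ N w = 0} ∪ {w | w ∉ G ∧ N w ≠ 0} = Gᶜ := by
    ext w
    constructor
    · rintro (h | h)
      · exact h.1
      · exact h.1
    · intro h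
      by_cases h0 : N w = 0
      · exact Or.inl ⟨h, h0⟩
      · exact Or.inr ⟨h, h0⟩
  have hempty := hn _ _ hA hBc hdis hun
  intro w hw
  rw [← hNw]
  by_contra h0
  have h1 : w ∈ {w | w ∉ G ∧ N w ≠ 0} := ⟨hw, h0⟩
  rw [hempty] at h1
  exact h1

end CF6

end

section

/-!
# A11: holomorphic dependence on a parameter

* `differentiableOn_param`: for `z0 ∈ W` take `closedBall z0 r ⊆ W`. `Φ` is bounded by `M` on the compact
  `closedBall z0 r ×ˢ Icc 0 1`. For `z ∈ ball z0 (r/2)` the Cauchy estimate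
  (`Complex.norm_deriv_le_of_forall_mem_sphere_norm_le`) gives `‖∂z Φ z t‖ ≤ 2M/r`. Use
  `intervalIntegral.hasDerivAt_integral_of_dominated_loc_of_deriv_le` (measurability of
  `t ↦ deriv (fun z => Φ z t) z0` on `[0,1]`: it is a pointwise limit of the continuous functions
  `t ↦ m (Φ (z0 + 1/m) t - Φ z0 t)`, `aestronglyMeasurable_of_tendsto_ae`), or: Morera
  (`Complex.IsConservativeOn`, Fubini), or: uniform limits of Riemann sums and
  `TendstoLocallyUniformlyOn.differentiableOn`.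
* `differentiableOn_polyInt`: finite sum, `segInt` is the integral of
  `Φ z (p i + t (p (i+1) - p i)) * (p (i+1) - p i)`.
* `continuousOn_dslope2`: at `(a, b)`, `a ≠ b`: locally `dslope f x y = (y - x)⁻¹ • (f y - f x)`. At `(a, a)`: for
  `ε > 0` take a ball `ball a r ⊆ G` with `‖deriv f z - deriv f a‖ ≤ ε` (`deriv f` is continuous on `G`); for
  `x ≠ y` in the ball `‖f y - f x - deriv f a * (y - x)‖ ≤ ε ‖y - x‖` (mean value inequality on the convex ball,
  `Convex.norm_image_sub_le_of_norm_deriv_le` for `z ↦ f z - deriv f a * z`), and for `x = y` directly.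
-/

open Complex Set Filter Topology Metric

namespace CF6

theorem differentiableOn_param {W : Set ℂ} (hW : IsOpen W) {Φ : ℂ → ℝ → ℂ}
    (hc : ContinuousOn (Function.uncurry Φ) (W ×ˢ Icc (0 : ℝ) 1))
    (hd : ∀ t ∈ Icc (0 : ℝ) 1, DifferentiableOn ℂ (fun z => Φ z t) W) :
    DifferentiableOn ℂ (fun z => ∫ t in (0 : ℝ)..1, Φ z t) W := by
  intro z0 hz0
  refine DifferentiableAt.differentiableWithinAt ?_
  obtain ⟨r, hr, hrW⟩ := Metric.nhds_basis_closedBall.mem_iff.mp (hW.mem_nhds hz0)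
  have hKc : IsCompact (closedBall z0 r ×ˢ Icc (0 : ℝ) 1) :=
    (isCompact_closedBall z0 r).prod isCompact_Icc
  obtain ⟨M, hM⟩ := hKc.exists_bound_of_continuousOn
    (hc.mono (prod_mono hrW Subset.rfl))
  have hIoc : Set.uIoc (0 : ℝ) 1 = Ioc 0 1 := uIoc_of_le zero_le_one
  have hsub : Ioc (0 : ℝ) 1 ⊆ Icc 0 1 := Ioc_subset_Icc_self
  have hcz : ∀ z ∈ W, ContinuousOn (Φ z) (Icc (0 : ℝ) 1) := by
    intro z hz
    exact hc.comp (f := fun t : ℝ => (z, t)) (by fun_prop) (fun t ht => ⟨hz, ht⟩)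
  have hmeas : ∀ z ∈ W, MeasureTheory.AEStronglyMeasurable (Φ z)
      (MeasureTheory.volume.restrict (Set.uIoc (0 : ℝ) 1)) := by
    intro z hz
    rw [hIoc]
    exact ((hcz z hz).mono hsub).aestronglyMeasurable measurableSet_Ioc
  have hr2 : 0 < r / 2 := by positivity
  have hder := intervalIntegral.hasDerivAt_integral_of_dominated_loc_of_deriv_le
    (𝕜 := ℂ) (μ := MeasureTheory.volume) (a := 0) (b := 1) (F := Φ)
    (F' := fun z t => deriv (fun z => Φ z t) z) (x₀ := z0) (s := ball z0 (r / 2))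
    (bound := fun _ => M / (r / 2)) (ball_mem_nhds z0 hr2) ?_ ?_ ?_ ?_ ?_ ?_
  · exact hder.2.differentiableAt
  · filter_upwards [hW.mem_nhds hz0] with z hz using hmeas z hz
  · exact ((hcz z0 hz0).mono (by rw [uIcc_of_le zero_le_one])).intervalIntegrable
  · set u : ℕ → ℂ := fun m => ((r / 2 / ((m : ℝ) + 1) : ℝ) : ℂ) with hu
    have hu0 : ∀ m, u m ≠ 0 := by
      intro m
      rw [hu]
      simp only [ne_eq, ofReal_eq_zero]
      positivity
    have hun : ∀ m, ‖u m‖ ≤ r := by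
      intro m
      rw [hu]
      simp only [norm_real, Real.norm_eq_abs]
      rw [abs_of_pos (by positivity)]
      have h1 : (1 : ℝ) ≤ (m : ℝ) + 1 := by
        have : (0 : ℝ) ≤ m := Nat.cast_nonneg m
        linarith
      have h2 : r / 2 / ((m : ℝ) + 1) ≤ r / 2 := div_le_self hr2.le h1
      linarith
    have hzu : ∀ m, z0 + u m ∈ W := by
      intro m
      refine hrW ?_
      rw [mem_closedBall, dist_eq_norm]
      simpa using hun m
    have hut : Tendsto u atTop (𝓝 0) := by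
      have h1 : Tendsto (fun m : ℕ => r / 2 / ((m : ℝ) + 1)) atTop (𝓝 0) :=
        (tendsto_const_nhds (x := r / 2)).div_atTop
          (tendsto_atTop_add_const_right _ _ tendsto_natCast_atTop_atTop)
      have h2 := (continuous_ofReal.tendsto (0 : ℝ)).comp h1
      rw [ofReal_zero] at h2
      exact h2
    refine aestronglyMeasurable_of_tendsto_ae (u := atTop)
      (f := fun (m : ℕ) t => (u m)⁻¹ * (Φ (z0 + u m) t - Φ z0 t)) ?_ ?_
    · intro m
      exact ((hmeas _ (hzu m)).sub (hmeas _ hz0)).const_mul _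
    · rw [hIoc]
      refine (MeasureTheory.ae_restrict_iff' measurableSet_Ioc).mpr (Eventually.of_forall ?_)
      intro t ht
      have hdt : HasDerivAt (fun z => Φ z t) (deriv (fun z => Φ z t) z0) z0 :=
        ((hd t (hsub ht)).differentiableAt (hW.mem_nhds hz0)).hasDerivAt
      rw [hasDerivAt_iff_tendsto_slope] at hdt
      have h3 : Tendsto (fun m => z0 + u m) atTop (𝓝[≠] z0) := by
        refine tendsto_nhdsWithin_iff.mpr ⟨?_, Eventually.of_forall fun m => ?_⟩
        · simpa using hut.const_add z0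
        · simp [hu0 m]
      refine (hdt.comp h3).congr fun m => ?_
      simp [slope_def_field, div_eq_inv_mul]
  · refine Eventually.of_forall fun t ht z hz => ?_
    rw [hIoc] at ht
    have hsub2 : closedBall z (r / 2) ⊆ closedBall z0 r := by
      refine closedBall_subset_closedBall' ?_
      have := mem_ball.mp hz
      linarith
    have hdc : DiffContOnCl ℂ (fun z => Φ z t) (ball z (r / 2)) :=
      (hd t (hsub ht)).diffContOnCl_ball (hsub2.trans hrW)
    refine norm_deriv_le_of_forall_mem_sphere_norm_le hr2 hdc ?_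
    intro w hw
    exact hM (w, t) ⟨hsub2 (sphere_subset_closedBall hw), hsub ht⟩
  · exact intervalIntegrable_const
  · refine Eventually.of_forall fun t ht z hz => ?_
    rw [hIoc] at ht
    have hzW : z ∈ W := by
      refine hrW (ball_subset_closedBall (ball_subset_ball ?_ hz))
      linarith
    exact ((hd t (hsub ht)).differentiableAt (hW.mem_nhds hzW)).hasDerivAt

theorem a11_mem_seg (a b : ℂ) {t : ℝ} (ht : t ∈ Icc (0 : ℝ) 1) :
    a + t * (b - a) ∈ segment ℝ a b := by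
  rw [segment_eq_image']
  exact ⟨t, ht, by simp [Complex.real_smul]⟩

theorem differentiableOn_polyInt {W : Set ℂ} (hW : IsOpen W) {Φ : ℂ → ℂ → ℂ} {p : ℕ → ℂ} {n : ℕ}
    (hc : ContinuousOn (Function.uncurry Φ) (W ×ˢ trace p n))
    (hd : ∀ w ∈ trace p n, DifferentiableOn ℂ (fun z => Φ z w) W) :
    DifferentiableOn ℂ (fun z => polyInt (Φ z) p n) W := by
  unfold polyInt
  refine DifferentiableOn.fun_sum fun i hi => ?_
  have hmem : ∀ t ∈ Icc (0 : ℝ) 1, p i + t * (p (i + 1) - p i) ∈ trace p n := by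
    intro t ht
    unfold trace
    rw [mem_iUnion₂]
    exact ⟨i, hi, a11_mem_seg _ _ ht⟩
  unfold segInt
  refine differentiableOn_param (Φ := fun z t => Φ z (p i + t * (p (i + 1) - p i)) *
    (p (i + 1) - p i)) hW ?_ ?_
  · refine ContinuousOn.mul ?_ continuousOn_const
    have h1 : ContinuousOn (fun q : ℂ × ℝ => (q.1, p i + q.2 * (p (i + 1) - p i)))
        (W ×ˢ Icc (0 : ℝ) 1) := by fun_prop
    exact hc.comp h1 (fun q hq => ⟨hq.1, hmem q.2 hq.2⟩)
  · intro t ht
    exact (hd _ (hmem t ht)).mul_const _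

theorem continuousOn_dslope2 {G : Set ℂ} (hG : IsOpen G) {f : ℂ → ℂ}
    (hf : DifferentiableOn ℂ f G) :
    ContinuousOn (fun q : ℂ × ℂ => dslope f q.1 q.2) (G ×ˢ G) := by
  rintro ⟨a, b⟩ ⟨ha, hb⟩
  simp only at ha hb
  refine ContinuousAt.continuousWithinAt ?_
  by_cases hab : a = b
  · subst hab
    have hdc : ContinuousAt (deriv f) a :=
      ((hf.deriv hG).continuousOn.continuousAt (hG.mem_nhds ha))
    rw [Metric.continuousAt_iff]
    intro ε hε
    rw [Metric.continuousAt_iff] at hdc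
    obtain ⟨δ1, hδ1, h1⟩ := hdc (ε / 2) (by positivity)
    obtain ⟨δ2, hδ2, h2⟩ := Metric.isOpen_iff.mp hG a ha
    refine ⟨min δ1 δ2, lt_min hδ1 hδ2, ?_⟩
    rintro ⟨x, y⟩ hxy
    rw [Prod.dist_eq, max_lt_iff] at hxy
    simp only at hxy
    set B := ball a (min δ1 δ2) with hB
    have hx : x ∈ B := hxy.1
    have hy : y ∈ B := hxy.2
    have hBG : B ⊆ G := (ball_subset_ball (min_le_right _ _)).trans h2
    have hBd : ∀ z ∈ B, ‖deriv f z - deriv f a‖ ≤ ε / 2 := by
      intro z hz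
      have := h1 (x := z) ((mem_ball.mp hz).trans_le (min_le_left _ _))
      rw [dist_eq_norm] at this
      exact this.le
    have hlt : ε / 2 < ε := by linarith
    simp only [dslope_same]
    rw [dist_eq_norm]
    by_cases hne : y = x
    · subst hne
      rw [dslope_same]
      exact (hBd y hy).trans_lt hlt
    · rw [dslope_of_ne _ hne, slope_def_field]
      have hmv : ‖(f y - deriv f a * y) - (f x - deriv f a * x)‖ ≤ ε / 2 * ‖y - x‖ := by
        refine Convex.norm_image_sub_le_of_norm_hasDerivWithin_le (𝕜 := ℂ)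
          (f := fun z => f z - deriv f a * z)
          (f' := fun z => deriv f z - deriv f a * 1) (s := B) ?_ ?_ (convex_ball _ _) hx hy
        · intro z hz
          have h3 : HasDerivAt f (deriv f z) z :=
            (hf.differentiableAt (hG.mem_nhds (hBG hz))).hasDerivAt
          exact (h3.sub ((hasDerivAt_id z).const_mul (deriv f a))).hasDerivWithinAt
        · intro z hz
          rw [mul_one]
          exact hBd z hz
      have hyx : y - x ≠ 0 := sub_ne_zero.mpr hne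
      have h4 : (f y - f x) / (y - x) - deriv f a =
          ((f y - deriv f a * y) - (f x - deriv f a * x)) / (y - x) := by
        field_simp
        ring
      rw [h4, norm_div]
      refine lt_of_le_of_lt ?_ hlt
      rw [div_le_iff₀ (norm_pos_iff.mpr hyx)]
      exact hmv
  · have hfa : ContinuousAt f a := hf.continuousOn.continuousAt (hG.mem_nhds ha)
    have hfb : ContinuousAt f b := hf.continuousOn.continuousAt (hG.mem_nhds hb)
    have hne : ∀ᶠ q : ℂ × ℂ in 𝓝 (a, b), q.1 ≠ q.2 := by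
      have : IsOpen {q : ℂ × ℂ | q.1 ≠ q.2} := isOpen_ne_fun continuous_fst continuous_snd
      exact this.mem_nhds hab
    have hcont : ContinuousAt (fun q : ℂ × ℂ => (f q.2 - f q.1) / (q.2 - q.1)) (a, b) := by
      refine ContinuousAt.div ?_ ?_ ?_
      · exact (ContinuousAt.comp (f := Prod.snd) (g := f) hfb continuousAt_snd).sub
          (ContinuousAt.comp (f := Prod.fst) (g := f) hfa continuousAt_fst)
      · fun_prop
      · exact sub_ne_zero.mpr (Ne.symm hab)
    refine hcont.congr ?_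
    filter_upwards [hne] with q hq
    rw [dslope_of_ne _ (Ne.symm hq), slope_def_field]

end CF6

end

section

/-!
# A12: Cauchy's theorem in domains without holes (Dixon's proof)

PROOF of `cauchy_noHole`. If `n = 0` trivial. `N w = polyInt (fun z => (z - w)⁻¹) p n`.
`D = {w | w ∉ trace p n ∧ N w = 0}` is open (`isCompact_trace`, `wind_locally_const`) and contains `Gᶜ`
(`wind_noHole`), so `G ∪ D = univ`.
For a holomorphic `F` on `G` put `h1 z = polyInt (fun w => dslope F w z) p n` (differentiable on `G` by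
`differentiableOn_polyInt` with `Φ z w = dslope F w z`, `continuousOn_dslope2` composed with swap, and
`differentiableOn_dslope`), `h2 z = polyInt (fun w => F w / (w - z)) p n` (differentiable on `(trace p n)ᶜ`,
`differentiableOn_polyInt`). For `z ∈ G ∩ D`: on the trace `dslope F w z = (F w - F z)/(w - z)` (as `w ≠ z`), so
`h1 z = h2 z - F z * N z = h2 z`. `h = h1` on `G`, `h = h2` on `Gᶜ ⊆ D`: then `h = h1` on the open `G`, `h = h2` on the open
`D`, so `h` is entire. For `‖z‖` large `z ∈ D` (`wind_infty`) and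
`‖h z‖ ≤ M * length / (‖z‖ - R) → 0` (`norm_polyInt_le`). Liouville
(`Differentiable.apply_eq_of_tendsto_cocompact`): `h = 0`.
`G` is not contained in `trace p n` (otherwise `G = trace p n` is compact and open, nonempty, so `univ`
is compact). Take `z1 ∈ G \ trace p n` and `F w = (w - z1) * f w`: `0 = h1 z1 = h2 z1 - F z1 * N z1 =
polyInt (fun w => (w - z1) * f w / (w - z1)) p n = polyInt f p n`.
-/

open Complex Set Filter Topology Metric

namespace CF6

theorem a12_dslope_ne {F : ℂ → ℂ} {w z : ℂ} (h : w ≠ z) :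
    dslope F w z = F w / (w - z) - F z * (w - z)⁻¹ := by
  rw [dslope_of_ne _ h.symm, slope_def_field]
  have h1 : z - w ≠ 0 := sub_ne_zero.mpr h.symm
  have h2 : w - z ≠ 0 := sub_ne_zero.mpr h
  have h3 : z - w = -(w - z) := by ring
  rw [h3]
  field_simp
  ring

theorem dixon {G : Set ℂ} (hG : IsOpen G) (hn : NoHole G) {F : ℂ → ℂ}
    (hF : DifferentiableOn ℂ F G) {p : ℕ → ℂ} {n : ℕ} (hp : trace p n ⊆ G) (hc : p n = p 0) :
    ∀ z ∈ G, polyInt (fun w => dslope F w z) p n = 0 := by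
  classical
  have hcomp := isCompact_trace p n
  have htO : IsOpen (trace p n)ᶜ := hcomp.isClosed.isOpen_compl
  set N : ℂ → ℂ := fun w => polyInt (fun z => (z - w)⁻¹) p n with hN
  set D : Set ℂ := {w | w ∉ trace p n ∧ N w = 0} with hD
  have hDo : IsOpen D := by
    rw [isOpen_iff_mem_nhds]
    rintro w ⟨hw1, hw2⟩
    filter_upwards [htO.mem_nhds hw1, wind_locally_const hc hw1] with w' h1 h2
    exact ⟨h1, by rw [hN]; simp only; rw [h2]; exact hw2⟩
  have hcov : ∀ w, w ∉ G → w ∈ D := fun w hw =>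
    ⟨fun h => hw (hp h), wind_noHole hG hn hp hc w hw⟩
  set h1 : ℂ → ℂ := fun z => polyInt (fun w => dslope F w z) p n with hh1
  set h2 : ℂ → ℂ := fun z => polyInt (fun w => F w / (w - z)) p n with hh2
  have hFt : ContinuousOn F (trace p n) := hF.continuousOn.mono hp
  have hd1 : DifferentiableOn ℂ h1 G := by
    refine differentiableOn_polyInt (Φ := fun z w => dslope F w z) hG ?_ ?_
    · have hh := (continuousOn_dslope2 hG hF).comp (t := G ×ˢ G)
        (f := fun q : ℂ × ℂ => (q.2, q.1)) (s := G ×ˢ trace p n)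
        continuous_swap.continuousOn (fun q hq => ⟨hp hq.2, hq.1⟩)
      exact hh
    · intro w hw
      exact (Complex.differentiableOn_dslope (hG.mem_nhds (hp hw))).mpr hF
  have hd2 : DifferentiableOn ℂ h2 (trace p n)ᶜ := by
    refine differentiableOn_polyInt (Φ := fun z w => F w / (w - z)) htO ?_ ?_
    · have hne : ∀ q ∈ (trace p n)ᶜ ×ˢ trace p n, q.2 - q.1 ≠ 0 := by
        rintro ⟨z, w⟩ ⟨hz, hw⟩ h
        simp only at h hz hw
        exact hz (by rwa [← sub_eq_zero.mp h])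
      refine ContinuousOn.div (f := fun q : ℂ × ℂ => F q.2) (g := fun q : ℂ × ℂ => q.2 - q.1) ?_
        (by fun_prop) hne
      exact hFt.comp continuousOn_snd (fun q hq => hq.2)
    · intro w hw
      refine DifferentiableOn.div (by fun_prop) (by fun_prop) ?_
      intro z hz h
      exact hz (by rwa [← sub_eq_zero.mp h])
  have heq : ∀ z ∈ D, h1 z = h2 z := by
    rintro z ⟨hz1, hz2⟩
    have hne : ∀ w ∈ trace p n, w ≠ z := fun w hw h => hz1 (h ▸ hw)
    have hci : ContinuousOn (fun w => (w - z)⁻¹) (trace p n) :=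
      ContinuousOn.inv₀ (by fun_prop) (fun w hw => sub_ne_zero.mpr (hne w hw))
    have e1 : h1 z = polyInt (fun w => F w / (w - z) - F z * (w - z)⁻¹) p n :=
      polyInt_congr fun w hw => a12_dslope_ne (hne w hw)
    rw [e1, polyInt_sub, polyInt_const_mul]
    · have : polyInt (fun w => (w - z)⁻¹) p n = 0 := hz2
      rw [this, mul_zero, sub_zero]
    · exact hFt.div (by fun_prop) (fun w hw => sub_ne_zero.mpr (hne w hw))
    · exact continuousOn_const.mul hci
  set h : ℂ → ℂ := fun z => if z ∈ G then h1 z else h2 z with hh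
  have hGval : ∀ z ∈ G, h z = h1 z := fun z hz => by rw [hh]; simp only [if_pos hz]
  have hDval : ∀ z ∈ D, h z = h2 z := by
    intro z hz
    by_cases hzG : z ∈ G
    · rw [hGval z hzG, heq z hz]
    · rw [hh]; simp only [if_neg hzG]
  have hdiff : Differentiable ℂ h := by
    intro z
    by_cases hz : z ∈ G
    · have h3 : DifferentiableAt ℂ h1 z := (hd1 z hz).differentiableAt (hG.mem_nhds hz)
      refine h3.congr_of_eventuallyEq ?_
      filter_upwards [hG.mem_nhds hz] with w hw using hGval w hw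
    · have hzD := hcov z hz
      have h3 : DifferentiableAt ℂ h2 z :=
        (hd2 z hzD.1).differentiableAt (htO.mem_nhds hzD.1)
      refine h3.congr_of_eventuallyEq ?_
      filter_upwards [hDo.mem_nhds hzD] with w hw using hDval w hw
  obtain ⟨M, hM⟩ := hcomp.exists_bound_of_continuousOn hFt
  obtain ⟨R, hR⟩ := hcomp.isBounded.exists_norm_le
  obtain ⟨R', hR'⟩ := wind_infty (p := p) (n := n) hc
  have htend : Tendsto h (cocompact ℂ) (𝓝 0) := by
    set ℓ : ℝ := ∑ i ∈ Finset.range n, ‖p (i + 1) - p i‖ with hℓ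
    have hnorm : Tendsto (fun z : ℂ => |M| / (‖z‖ - R) * ℓ) (cocompact ℂ) (𝓝 0) := by
      have h4 : Tendsto (fun z : ℂ => ‖z‖ - R) (cocompact ℂ) atTop :=
        tendsto_atTop_add_const_right _ _ (tendsto_norm_cocompact_atTop)
      have h5 := (h4.const_div_atTop |M|).mul_const ℓ
      simpa using h5
    refine squeeze_zero_norm' ?_ hnorm
    have h6 : ∀ᶠ z : ℂ in cocompact ℂ, max R R' < ‖z‖ :=
      (tendsto_norm_cocompact_atTop (E := ℂ)).eventually_gt_atTop _
    filter_upwards [h6] with z hz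
    have hz1 : R < ‖z‖ := (le_max_left _ _).trans_lt hz
    have hz2 : R' < ‖z‖ := (le_max_right _ _).trans_lt hz
    have hzD : z ∈ D := hR' z hz2
    rw [hDval z hzD]
    refine norm_polyInt_le ?_
    intro w hw
    rw [norm_div]
    have h7 : ‖z‖ - R ≤ ‖w - z‖ := by
      have h8 := norm_sub_norm_le z w
      have h9 := hR w hw
      rw [norm_sub_rev] at h8
      linarith
    have h10 : 0 < ‖z‖ - R := by linarith
    exact div_le_div₀ (abs_nonneg _) ((hM w hw).trans (le_abs_self _)) h10 h7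
  intro z hz
  have hfin := hdiff.apply_eq_of_tendsto_cocompact z htend
  rw [hGval z hz] at hfin
  exact hfin

theorem cauchy_noHole {G : Set ℂ} (hG : IsOpen G) (hn : NoHole G) {f : ℂ → ℂ}
    (hf : DifferentiableOn ℂ f G) {p : ℕ → ℂ} {n : ℕ} (hp : trace p n ⊆ G) (hc : p n = p 0) :
    polyInt f p n = 0 := by
  rcases Nat.eq_zero_or_pos n with h0 | hpos
  · subst h0
    simp [polyInt]
  have hne : p 0 ∈ trace p n := by
    unfold trace
    rw [mem_iUnion₂]
    exact ⟨0, Finset.mem_range.mpr hpos, left_mem_segment ℝ _ _⟩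
  have hex : ∃ z1 ∈ G, z1 ∉ trace p n := by
    by_contra hcon
    push Not at hcon
    have hEq : G = trace p n := Subset.antisymm hcon hp
    have hclopen : IsClopen G := ⟨by rw [hEq]; exact (isCompact_trace p n).isClosed, hG⟩
    have huniv : G = univ := hclopen.eq_univ ⟨p 0, hp hne⟩
    have hcu : IsCompact (univ : Set ℂ) := by
      rw [← huniv, hEq]
      exact isCompact_trace p n
    exact noncompact_univ ℂ hcu
  obtain ⟨z1, hz1, hz2⟩ := hex
  have h1 := dixon hG hn (F := fun w => (w - z1) * f w)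
    ((by fun_prop : DifferentiableOn ℂ (fun w : ℂ => w - z1) G).mul hf) hp hc z1 hz1
  rw [← h1]
  refine polyInt_congr fun w hw => ?_
  have hwz : w ≠ z1 := fun h => hz2 (h ▸ hw)
  rw [a12_dslope_ne hwz]
  have h3 : w - z1 ≠ 0 := sub_ne_zero.mpr hwz
  rw [sub_self, zero_mul, zero_mul, sub_zero, mul_div_cancel_left₀ _ h3]

end CF6

end

section

/-!
# A13: primitives and logarithms on domains without holes

* `exists_chain`: `z0 ∈ G`; `C = {z ∈ G | ∃ p n, p 0 = z0 ∧ p n = z ∧ trace p n ⊆ G}` is open and closed in `G`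
  (append one segment inside a ball; `p' = fun i => if i ≤ n then p i else z'`, `trace p' (n+1) = trace p n ∪ segment`),
  contains `z0`; `IsPreconnected.subset_of_closure_inter_subset` or `isPreconnected_iff_subset_of_disjoint`.
* `exists_primitive`: `F z = polyInt f p n` for a chosen chain. Independence: chains `p` (length `n`), `q` (length `m`)
  from `z0` to `z`: the closed chain `r i = p i` (`i ≤ n`), `r (n + i) = q (m - i)`; `polyInt f r (n+m) = polyInt f p n - polyInt f q m`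
  (`segInt f b a = - segInt f a b` by substitution `t ↦ 1 - t`), `cauchy_noHole`. For `z1 ∈ G`, `ball z1 r ⊆ G`, `z ∈ ball z1 r`:
  `F z = F z1 + segInt f z1 z`; a primitive `P` of `f` on the ball (`DifferentiableOn.isExactOn_ball`) gives
  `F z = F z1 + P z - P z1`, so `HasDerivAt F (f z1) z1`.
* `holo_log`: `F` = primitive of `deriv g / g` (`DifferentiableOn.deriv`); `exp (-F) * g` has derivative `0` on `G`, so it is
  constant `c ≠ 0` on the connected open `G` (`IsOpen.is_const_of_deriv_eq_zero`); `ℓ = F + log c`.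
* `noHole_of_conn`: complement closed, connected, unbounded => no hole. (`A ∪ B = Gᶜ` disjoint closed: `B = ∅` or
  `A = ∅`, and in the second case `Gᶜ = B` is compact.) Also for `Gᶜ = ∅`.
* `noHole_ball`: complement `{1 ≤ ‖z‖}` connected (star shaped from infinity; or: closure of `{1 < ‖z‖}`), unbounded.
-/

open Complex Set Filter Topology Metric

namespace CF6

theorem a13_mem_trace {p : ℕ → ℂ} {n : ℕ} {z : ℂ} :
    z ∈ trace p n ↔ ∃ i, i < n ∧ z ∈ segment ℝ (p i) (p (i + 1)) := by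
  unfold trace
  simp only [mem_iUnion, Finset.mem_range, exists_prop]

/-- append one segment to a chain -/
theorem a13_extend {G : Set ℂ} {p : ℕ → ℂ} {n : ℕ} (hp : trace p n ⊆ G) {z : ℂ}
    (hz : segment ℝ (p n) z ⊆ G) :
    ∃ p' : ℕ → ℂ, p' 0 = p 0 ∧ p' (n + 1) = z ∧ trace p' (n + 1) ⊆ G ∧
      ∀ f : ℂ → ℂ, polyInt f p' (n + 1) = polyInt f p n + segInt f (p n) z := by
  refine ⟨fun i => if i ≤ n then p i else z, by simp, by simp, ?_, ?_⟩
  · intro w hw
    obtain ⟨i, hi, hw⟩ := a13_mem_trace.mp hw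
    rcases Nat.lt_succ_iff_lt_or_eq.mp hi with h | h
    · simp only [if_pos (show i ≤ n by omega), if_pos (show i + 1 ≤ n by omega)] at hw
      exact hp (a13_mem_trace.mpr ⟨i, h, hw⟩)
    · subst h
      simp only [if_pos le_rfl, if_neg (show ¬ i + 1 ≤ i by omega)] at hw
      exact hz hw
  · intro f
    unfold polyInt
    rw [Finset.sum_range_succ]
    congr 1
    · refine Finset.sum_congr rfl fun i hi => ?_
      have hi' := Finset.mem_range.mp hi
      simp only [if_pos (show i ≤ n by omega), if_pos (show i + 1 ≤ n by omega)]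
    · simp only [if_pos le_rfl, if_neg (show ¬ n + 1 ≤ n by omega)]

theorem exists_chain {G : Set ℂ} (hG : IsOpen G) (cG : IsPreconnected G) {z0 z : ℂ} (h0 : z0 ∈ G)
    (hz : z ∈ G) : ∃ (p : ℕ → ℂ) (n : ℕ), p 0 = z0 ∧ p n = z ∧ trace p n ⊆ G := by
  obtain ⟨C, hC⟩ : ∃ C : Set ℂ, C = {z | z ∈ G ∧ ∃ (p : ℕ → ℂ) (n : ℕ), p 0 = z0 ∧ p n = z ∧
    trace p n ⊆ G} := ⟨_, rfl⟩
  have hmem : ∀ z, z ∈ C ↔ z ∈ G ∧ ∃ (p : ℕ → ℂ) (n : ℕ), p 0 = z0 ∧ p n = z ∧
    trace p n ⊆ G := by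
    intro z; rw [hC]; rfl
  have hstep : ∀ z1 z2, z1 ∈ C → z2 ∈ G → segment ℝ z1 z2 ⊆ G → z2 ∈ C := by
    intro z1 z2 h1 h2 h3
    obtain ⟨_, p, n, hp0, hpn, hp⟩ := (hmem z1).mp h1
    obtain ⟨p', h4, h5, h6, _⟩ := a13_extend hp (z := z2) (by rw [hpn]; exact h3)
    exact (hmem z2).mpr ⟨h2, p', n + 1, h4.trans hp0, h5, h6⟩
  have hopen : IsOpen C := by
    rw [Metric.isOpen_iff]
    intro z1 h1
    obtain ⟨r, hr, hball⟩ := Metric.isOpen_iff.mp hG z1 ((hmem z1).mp h1).1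
    refine ⟨r, hr, fun z2 h2 => ?_⟩
    exact hstep z1 z2 h1 (hball h2)
      (((convex_ball z1 r).segment_subset (mem_ball_self hr) h2).trans hball)
  have hsub : G ⊆ C := by
    refine cG.subset_of_closure_inter_subset hopen
      ⟨z0, h0, (hmem z0).mpr ⟨h0, fun _ => z0, 0, rfl, rfl, ?_⟩⟩ ?_
    · intro w hw
      obtain ⟨i, hi, _⟩ := a13_mem_trace.mp hw
      omega
    · rintro z2 ⟨h2, h3⟩
      obtain ⟨r, hr, hball⟩ := Metric.isOpen_iff.mp hG z2 h3
      obtain ⟨z1, h4, h5⟩ := Metric.mem_closure_iff.mp h2 r hr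
      refine hstep z1 z2 h4 h3 (((convex_ball z2 r).segment_subset ?_ (mem_ball_self hr)).trans hball)
      rw [mem_ball, dist_comm]
      exact h5
  exact ((hmem z).mp (hsub hz)).2

theorem a13_segInt_symm (f : ℂ → ℂ) (a b : ℂ) : segInt f b a = - segInt f a b := by
  unfold segInt
  have h := intervalIntegral.integral_comp_sub_left (a := (0 : ℝ)) (b := 1)
    (fun t : ℝ => f (a + t * (b - a)) * (b - a)) 1
  rw [sub_self, sub_zero] at h
  rw [← h, ← intervalIntegral.integral_neg]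
  refine intervalIntegral.integral_congr fun t _ => ?_
  show f (b + t * (a - b)) * (a - b) = -(f (a + ((1 - t : ℝ) : ℂ) * (b - a)) * (b - a))
  have h2 : a + ((1 - t : ℝ) : ℂ) * (b - a) = b + t * (a - b) := by
    push_cast
    ring
  rw [h2]
  ring

/-- independence of the chain -/
theorem a13_indep {G : Set ℂ} (hG : IsOpen G) (hn : NoHole G) {f : ℂ → ℂ}
    (hf : DifferentiableOn ℂ f G) {p q : ℕ → ℂ} {n m : ℕ} (hp : trace p n ⊆ G)
    (hq : trace q m ⊆ G) (h0 : p 0 = q 0) (h1 : p n = q m) : polyInt f p n = polyInt f q m := by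
  obtain ⟨r, hr⟩ : ∃ r : ℕ → ℂ, r = fun i => if i ≤ n then p i else q (m + n - i) := ⟨_, rfl⟩
  have hr1 : ∀ i, i ≤ n → r i = p i := fun i hi => by
    rw [hr]
    exact if_pos hi
  have hr2 : ∀ i, i ≤ m → r (n + i) = q (m - i) := by
    intro i hi
    rcases Nat.eq_zero_or_pos i with h | h
    · subst h
      rw [Nat.add_zero, hr1 n le_rfl, h1, Nat.sub_zero]
    · rw [hr]
      show (if n + i ≤ n then p (n + i) else q (m + n - (n + i))) = _
      rw [if_neg (by omega)]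
      congr 1
      omega
  have htr : trace r (n + m) ⊆ G := by
    intro w hw
    obtain ⟨i, hi, hw⟩ := a13_mem_trace.mp hw
    by_cases h : i < n
    · rw [hr1 i (by omega), hr1 (i + 1) (by omega)] at hw
      exact hp (a13_mem_trace.mpr ⟨i, h, hw⟩)
    · obtain ⟨j, rfl⟩ := Nat.exists_eq_add_of_le (not_lt.mp h)
      rw [hr2 j (by omega), show n + j + 1 = n + (j + 1) by ring, hr2 (j + 1) (by omega),
        segment_symm] at hw
      refine hq (a13_mem_trace.mpr ⟨m - (j + 1), by omega, ?_⟩)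
      rwa [show m - (j + 1) + 1 = m - j by omega]
  have hcl : r (n + m) = r 0 := by
    rw [hr2 m le_rfl, hr1 0 (Nat.zero_le _), Nat.sub_self, h0]
  have h2 := cauchy_noHole hG hn hf htr hcl
  have h3 : polyInt f r (n + m) = polyInt f p n - polyInt f q m := by
    unfold polyInt
    rw [Finset.sum_range_add, sub_eq_add_neg]
    congr 1
    · refine Finset.sum_congr rfl fun i hi => ?_
      have hi' := Finset.mem_range.mp hi
      rw [hr1 i (by omega), hr1 (i + 1) (by omega)]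
    · rw [← Finset.sum_range_reflect, ← Finset.sum_neg_distrib]
      refine Finset.sum_congr rfl fun i hi => ?_
      have hi' := Finset.mem_range.mp hi
      rw [hr2 (m - 1 - i) (by omega), show n + (m - 1 - i) + 1 = n + (m - i) by omega,
        hr2 (m - i) (by omega), a13_segInt_symm]
      rw [show m - (m - 1 - i) = i + 1 by omega, show m - (m - i) = i by omega]
  rw [h2] at h3
  exact (sub_eq_zero.mp h3.symm)

theorem exists_primitive {G : Set ℂ} (hG : IsOpen G) (cG : IsConnected G) (hn : NoHole G)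
    {f : ℂ → ℂ} (hf : DifferentiableOn ℂ f G) : ∃ F : ℂ → ℂ, ∀ z ∈ G, HasDerivAt F (f z) z := by
  obtain ⟨z0, h0⟩ := cG.nonempty
  have hex : ∀ z, z ∈ G → ∃ (p : ℕ → ℂ) (n : ℕ), p 0 = z0 ∧ p n = z ∧ trace p n ⊆ G :=
    fun z hz => exists_chain hG cG.isPreconnected h0 hz
  choose! p n hp using hex
  refine ⟨fun z => polyInt f (p z) (n z), fun z1 hz1 => ?_⟩
  obtain ⟨r, hr, hball⟩ := Metric.isOpen_iff.mp hG z1 hz1
  obtain ⟨P, hP⟩ := (hf.mono hball).isExactOn_ball
  have heq : (fun z => polyInt f (p z) (n z)) =ᶠ[𝓝 z1]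
      fun z => polyInt f (p z1) (n z1) + (P z - P z1) := by
    filter_upwards [Metric.ball_mem_nhds z1 hr] with z hz
    obtain ⟨a0, an, atr⟩ := hp z1 hz1
    obtain ⟨b0, bn, btr⟩ := hp z (hball hz)
    have hseg : segment ℝ (p z1 (n z1)) z ⊆ ball z1 r := by
      rw [an]
      exact (convex_ball z1 r).segment_subset (mem_ball_self hr) hz
    obtain ⟨p', c0, cn, ctr, cint⟩ := a13_extend atr (hseg.trans hball)
    have h1 := a13_indep hG hn hf btr ctr (b0.trans (a0.symm.trans c0.symm)) (bn.trans cn.symm)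
    rw [h1, cint f]
    congr 1
    rw [segInt_prim (F := P) (fun w hw => hP w (hseg hw))
      (hf.continuousOn.mono (hseg.trans hball)), an]
  have hd : HasDerivAt (fun z => polyInt f (p z1) (n z1) + (P z - P z1)) (f z1) z1 :=
    ((hP z1 (mem_ball_self hr)).sub_const (P z1)).const_add _
  exact hd.congr_of_eventuallyEq heq

end CF6

end

section

/-!
# A13: primitives and logarithms on domains without holes

* `exists_chain`: `z0 ∈ G`; `C = {z ∈ G | ∃ p n, p 0 = z0 ∧ p n = z ∧ trace p n ⊆ G}` is open and closed in `G`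
  (append one segment inside a ball; `p' = fun i => if i ≤ n then p i else z'`, `trace p' (n+1) = trace p n ∪ segment`),
  contains `z0`; `IsPreconnected.subset_of_closure_inter_subset` or `isPreconnected_iff_subset_of_disjoint`.
* `exists_primitive`: `F z = polyInt f p n` for a chosen chain. Independence: chains `p` (length `n`), `q` (length `m`)
  from `z0` to `z`: the closed chain `r i = p i` (`i ≤ n`), `r (n + i) = q (m - i)`; `polyInt f r (n+m) = polyInt f p n - polyInt f q m`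
  (`segInt f b a = - segInt f a b` by substitution `t ↦ 1 - t`), `cauchy_noHole`. For `z1 ∈ G`, `ball z1 r ⊆ G`, `z ∈ ball z1 r`:
  `F z = F z1 + segInt f z1 z`; a primitive `P` of `f` on the ball (`DifferentiableOn.isExactOn_ball`) gives
  `F z = F z1 + P z - P z1`, so `HasDerivAt F (f z1) z1`.
* `holo_log`: `F` = primitive of `deriv g / g` (`DifferentiableOn.deriv`); `exp (-F) * g` has derivative `0` on `G`, so it is
  constant `c ≠ 0` on the connected open `G` (`IsOpen.is_const_of_deriv_eq_zero`); `ℓ = F + log c`.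
* `noHole_of_conn`: complement closed, connected, unbounded => no hole. (`A ∪ B = Gᶜ` disjoint closed: `B = ∅` or
  `A = ∅`, and in the second case `Gᶜ = B` is compact.) Also for `Gᶜ = ∅`.
* `noHole_ball`: complement `{1 ≤ ‖z‖}` connected (star shaped from infinity; or: closure of `{1 < ‖z‖}`), unbounded.
-/

open Complex Set Filter Topology Metric

namespace CF6

theorem holo_log {G : Set ℂ} (hG : IsOpen G) (cG : IsConnected G) (hn : NoHole G)
    {g : ℂ → ℂ} (hg : DifferentiableOn ℂ g G) (h0 : ∀ z ∈ G, g z ≠ 0) :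
    ∃ ℓ : ℂ → ℂ, DifferentiableOn ℂ ℓ G ∧ ∀ z ∈ G, exp (ℓ z) = g z := by
  obtain ⟨F, hF⟩ := exists_primitive hG cG hn (f := fun z => deriv g z / g z)
    ((hg.deriv hG).div hg h0)
  have hd : ∀ z ∈ G, HasDerivAt (fun z => exp (-F z) * g z) 0 z := by
    intro z hz
    have h1 : HasDerivAt g (deriv g z) z := (hg.differentiableAt (hG.mem_nhds hz)).hasDerivAt
    have h2 : HasDerivAt (fun z => exp (-F z) * g z)
        (exp (-F z) * (-(deriv g z / g z)) * g z + exp (-F z) * deriv g z) z :=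
      ((hF z hz).neg.cexp).mul h1
    convert h2 using 1
    have := h0 z hz
    field_simp
    ring
  obtain ⟨z0, hz0⟩ := cG.nonempty
  have hconst : ∀ z ∈ G, exp (-F z) * g z = exp (-F z0) * g z0 := by
    intro z hz
    exact hG.is_const_of_deriv_eq_zero cG.isPreconnected
      (f := fun z => exp (-F z) * g z)
      (fun w hw => (hd w hw).differentiableAt.differentiableWithinAt)
      (fun w hw => (hd w hw).deriv) hz hz0
  have hc0 : exp (-F z0) * g z0 ≠ 0 := mul_ne_zero (exp_ne_zero _) (h0 z0 hz0)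
  refine ⟨fun z => F z + log (exp (-F z0) * g z0), ?_, ?_⟩
  · exact fun z hz => ((hF z hz).add_const _).differentiableAt.differentiableWithinAt
  · intro z hz
    rw [exp_add, exp_log hc0, ← hconst z hz, ← mul_assoc, ← exp_add, add_neg_cancel, exp_zero,
      one_mul]

theorem noHole_of_conn {G : Set ℂ} (hc : IsPreconnected Gᶜ) (hb : ¬ Bornology.IsBounded Gᶜ) :
    NoHole G := by
  intro A B hA hB hAB hun
  rcases isPreconnected_iff_subset_of_disjoint_closed.mp hc A B hA hB.isClosed hun.ge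
    (by rw [hAB.inter_eq, inter_empty]) with h | h
  · rw [← hun] at h
    rw [Set.eq_empty_iff_forall_notMem]
    intro x hx
    exact (Set.disjoint_left.mp hAB) (h (Or.inr hx)) hx
  · exact absurd (hB.isBounded.subset h) hb

theorem noHole_ball : NoHole (ball (0 : ℂ) 1) := by
  apply noHole_of_conn
  · have h1 : (ball (0 : ℂ) 1)ᶜ = (fun q : ℝ × ℝ => (q.1 : ℂ) * exp (q.2 * I)) ''
        (Ici (1 : ℝ) ×ˢ (univ : Set ℝ)) := by
      ext z
      constructor
      · intro hz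
        rw [mem_compl_iff, mem_ball, dist_zero_right, not_lt] at hz
        exact ⟨(‖z‖, arg z), ⟨hz, mem_univ _⟩, Complex.norm_mul_exp_arg_mul_I z⟩
      · rintro ⟨⟨r, t⟩, ⟨hr, _⟩, rfl⟩
        rw [mem_compl_iff, mem_ball, dist_zero_right, not_lt]
        have hr' : (1 : ℝ) ≤ r := hr
        show 1 ≤ ‖(r : ℂ) * exp (t * I)‖
        rw [norm_mul, Complex.norm_exp_ofReal_mul_I, mul_one, Complex.norm_real, Real.norm_eq_abs,
          abs_of_nonneg (by linarith)]
        exact hr'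
    rw [h1]
    refine IsPreconnected.image ?_ _ (by fun_prop)
    exact (isPreconnected_Ici).prod isPreconnected_univ
  · intro h
    refine NormedSpace.unbounded_univ ℝ ℂ ?_
    have h2 := h.union (Metric.isBounded_ball (x := (0 : ℂ)) (r := 1))
    rwa [Set.compl_union_self] at h2

end CF6

end

section

/-!
# A15: Hurwitz theorems and univalent functions

* `hurwitz_local`: `g` holomorphic on `U`, not constant near `a`; then small closed discs `closedBall a r ⊆ U` have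
  `g ≠ g a` on `sphere a r` (isolated zeros of `g - g a`: `AnalyticAt.eventually_eq_zero_or_eventually_ne_zero`); let
  `m = min ‖g - g a‖ > 0` on the sphere. For `n` large `‖f n z - f n a‖ ≥ m/2` on the sphere, and
  `‖f n a - g a‖ < m/8`; `DiffContOnCl.ball_subset_image_closedBall` (for `f n`, `ε = m/2`) gives
  `ball (f n a) (m/4) ⊆ f n '' closedBall a r`, which contains `g a`. (The hypothesis
  `∃ᶠ z in 𝓝 a, f n z ≠ f n a`: if `f n` were constant near `a` it would be constant on the ball (identity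
  theorem), contradicting `‖f n z - f n a‖ ≥ m/2` on the sphere.)
* `hurwitz_inj`: let `g a = g b`, `a ≠ b`. By the identity theorem on the preconnected open `U` and `hnc`, `g` is not constant
  near `a` or `b`. Take disjoint discs around `a`, `b` with radius `< ‖a - b‖/2`: for `n` large `f n` takes the value
  `g a` in both, contradiction.
* `hurwitz_zero`: if `g` has a zero `a` and is not identically `0` on `U`: not constant near `a`; then `f n` takes the value `0`.
* `univ_open`: `f` is not locally constant at any point of `U` (injective), so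
  `AnalyticAt.eventually_constant_or_nhds_le_map_nhds` gives that `f` is open at each point.
* `univ_inverse`: `g = ` inverse (`Function.invFunOn f U`), continuous on `f '' U` by `univ_open`. The points where
  `deriv f z = 0` are isolated in `U` (`deriv f` is analytic and not locally zero: otherwise `f` is locally constant).
  At `f z` with `deriv f z ≠ 0`: `HasStrictDerivAt`-inverse (`HasStrictDerivAt.of_local_left_inverse` or
  `HasDerivAt.of_local_left_inverse`) gives differentiability of `g`. At the other points `w0 = f z0`: `g` is continuous at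
  `w0` and differentiable on a punctured neighbourhood, so differentiable at `w0`
  (`Complex.analyticAt_of_differentiable_on_punctured_nhds_of_continuousAt`).
* `univ_deriv`: chain rule for `g (f z) = z`.
-/

open Complex Set Filter Topology Metric

namespace CF6

theorem a15_const {U : Set ℂ} (hU : IsOpen U) (cU : IsPreconnected U) {g : ℂ → ℂ}
    (hg : DifferentiableOn ℂ g U) {a : ℂ} (ha : a ∈ U) (h : ∀ᶠ z in 𝓝 a, g z = g a) :
    ∀ z ∈ U, g z = g a := by
  have h1 : AnalyticOnNhd ℂ g U := hg.analyticOnNhd hU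
  have h2 : AnalyticOnNhd ℂ (fun _ : ℂ => g a) U := analyticOnNhd_const
  exact fun z hz => h1.eqOn_of_preconnected_of_eventuallyEq h2 cU ha h hz

theorem hurwitz_local {U : Set ℂ} (hU : IsOpen U) {f : ℕ → ℂ → ℂ} {g : ℂ → ℂ}
    (hd : ∀ n, DifferentiableOn ℂ (f n) U) (hl : TendstoLocallyUniformlyOn f g atTop U) {a : ℂ}
    (ha : a ∈ U) (hnc : ¬ ∀ᶠ z in 𝓝 a, g z = g a) {ρ : ℝ} (hρ : 0 < ρ) :
    ∀ᶠ n in atTop, ∃ z ∈ closedBall a ρ ∩ U, f n z = g a := by
  have hg : DifferentiableOn ℂ g U := hl.differentiableOn (Eventually.of_forall hd) hU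
  have han : AnalyticAt ℂ (fun z => g z - g a) a :=
    (hg.analyticAt (hU.mem_nhds ha)).sub analyticAt_const
  have hne : ∀ᶠ z in 𝓝[≠] a, g z - g a ≠ 0 := by
    rcases han.eventually_eq_zero_or_eventually_ne_zero with h | h
    · exact absurd (h.mono (fun z hz => sub_eq_zero.1 hz)) hnc
    · exact h
  obtain ⟨r0, hr0, hr0'⟩ := Metric.mem_nhdsWithin_iff.1 hne
  obtain ⟨r1, hr1, hr1'⟩ := Metric.isOpen_iff.1 hU a ha
  obtain ⟨r, hr, hrr0, hrr1, hrρ⟩ : ∃ r : ℝ, 0 < r ∧ r < r0 ∧ r < r1 ∧ r ≤ ρ := by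
    refine ⟨min (min r0 r1) ρ / 2, by positivity, ?_, ?_, ?_⟩
    · have : min (min r0 r1) ρ ≤ r0 := (min_le_left _ _).trans (min_le_left _ _)
      linarith
    · have : min (min r0 r1) ρ ≤ r1 := (min_le_left _ _).trans (min_le_right _ _)
      linarith
    · have : min (min r0 r1) ρ ≤ ρ := min_le_right _ _
      linarith
  have hcb1 : closedBall a r ⊆ ball a r1 := closedBall_subset_ball hrr1
  have hcbU : closedBall a r ⊆ U := hcb1.trans hr1'
  obtain ⟨z0, hz0, hz0min⟩ := (isCompact_sphere a r).exists_isMinOn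
    (NormedSpace.sphere_nonempty.2 hr.le)
    ((hg.continuousOn.mono (sphere_subset_closedBall.trans hcbU)).sub continuousOn_const).norm
    (f := fun z => ‖g z - g a‖)
  have hm : 0 < ‖g z0 - g a‖ := by
    rw [norm_pos_iff]
    have h1 : dist z0 a = r := mem_sphere.1 hz0
    refine hr0' ⟨by rw [mem_ball, h1]; exact hrr0, ?_⟩
    intro h2
    rw [mem_singleton_iff] at h2
    rw [h2, dist_self] at h1
    exact hr.ne h1
  set m : ℝ := ‖g z0 - g a‖ with hmdef
  have hlb : ∀ z ∈ sphere a r, m ≤ ‖g z - g a‖ := fun z hz => hz0min hz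
  have hunif : TendstoUniformlyOn f g atTop (closedBall a r) :=
    (tendstoLocallyUniformlyOn_iff_forall_isCompact hU).1 hl _ hcbU (isCompact_closedBall a r)
  rw [Metric.tendstoUniformlyOn_iff] at hunif
  filter_upwards [hunif (m / 8) (by positivity)] with n hn
  have haB : a ∈ closedBall a r := mem_closedBall_self hr.le
  have hsph : ∀ z ∈ sphere a r, m / 2 ≤ ‖f n z - f n a‖ := by
    intro z hz
    have h1 := hn z (sphere_subset_closedBall hz)
    have h2 := hn a haB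
    rw [dist_eq_norm] at h1 h2
    have h3 := hlb z hz
    have h4 : g z - g a = (g z - f n z) + (f n z - f n a) - (g a - f n a) := by ring
    have h5 : ‖g z - g a‖ ≤ ‖g z - f n z‖ + ‖f n z - f n a‖ + ‖g a - f n a‖ := by
      rw [h4]
      exact (norm_sub_le _ _).trans (add_le_add (norm_add_le _ _) le_rfl)
    linarith
  have hfreq : ∃ᶠ z in 𝓝 a, f n z ≠ f n a := by
    intro hcon
    have hcon' : ∀ᶠ z in 𝓝 a, f n z = f n a := hcon.mono (fun z hz => not_not.1 hz)
    have h1 := a15_const isOpen_ball (convex_ball a r1).isPreconnected ((hd n).mono hr1')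
      (mem_ball_self hr1) hcon'
    obtain ⟨z, hz⟩ := (NormedSpace.sphere_nonempty (x := a)).2 hr.le
    have h2 := hsph z hz
    rw [h1 z (hcb1 (sphere_subset_closedBall hz)), sub_self, norm_zero] at h2
    linarith
  have hdc : DiffContOnCl ℂ (f n) (ball a r) := by
    refine DifferentiableOn.diffContOnCl ?_
    rw [closure_ball a hr.ne']
    exact (hd n).mono hcbU
  have hsub := hdc.ball_subset_image_closedBall hr hsph hfreq
  have hga : g a ∈ ball (f n a) (m / 2 / 2) := by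
    rw [mem_ball]
    have := hn a haB
    linarith
  obtain ⟨z, hz, hzf⟩ := hsub hga
  exact ⟨z, ⟨closedBall_subset_closedBall hrρ hz, hcbU hz⟩, hzf⟩

theorem hurwitz_inj {U : Set ℂ} (hU : IsOpen U) (cU : IsPreconnected U) {f : ℕ → ℂ → ℂ}
    {g : ℂ → ℂ} (hd : ∀ n, DifferentiableOn ℂ (f n) U) (hi : ∀ n, InjOn (f n) U)
    (hl : TendstoLocallyUniformlyOn f g atTop U) (hnc : ∃ z ∈ U, ∃ w ∈ U, g z ≠ g w) :
    InjOn g U := by
  have hg : DifferentiableOn ℂ g U := hl.differentiableOn (Eventually.of_forall hd) hU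
  have hloc : ∀ a ∈ U, ¬ ∀ᶠ z in 𝓝 a, g z = g a := by
    intro a ha h
    obtain ⟨z, hz, w, hw, hzw⟩ := hnc
    have h1 := a15_const hU cU hg ha h
    exact hzw ((h1 z hz).trans (h1 w hw).symm)
  intro a ha b hb hab
  by_contra hne
  have hpos : 0 < dist a b := dist_pos.2 hne
  have h1 := hurwitz_local hU hd hl ha (hloc a ha) (ρ := dist a b / 3) (by positivity)
  have h2 := hurwitz_local hU hd hl hb (hloc b hb) (ρ := dist a b / 3) (by positivity)
  obtain ⟨n, ⟨z, ⟨hz, hzU⟩, hfz⟩, ⟨w, ⟨hw, hwU⟩, hfw⟩⟩ := (h1.and h2).exists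
  have hzw : z = w := hi n hzU hwU (by rw [hfz, hfw, hab])
  subst hzw
  rw [mem_closedBall] at hz hw
  have h3 := dist_triangle a z b
  rw [dist_comm a z] at h3
  linarith

theorem hurwitz_zero {U : Set ℂ} (hU : IsOpen U) (cU : IsPreconnected U) {f : ℕ → ℂ → ℂ}
    {g : ℂ → ℂ} (hd : ∀ n, DifferentiableOn ℂ (f n) U) (h0 : ∀ n, ∀ z ∈ U, f n z ≠ 0)
    (hl : TendstoLocallyUniformlyOn f g atTop U) (hnz : ∃ z ∈ U, g z ≠ 0) :
    ∀ z ∈ U, g z ≠ 0 := by
  have hg : DifferentiableOn ℂ g U := hl.differentiableOn (Eventually.of_forall hd) hU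
  intro a ha h
  have hloc : ¬ ∀ᶠ z in 𝓝 a, g z = g a := by
    intro h'
    obtain ⟨z, hz, hzne⟩ := hnz
    exact hzne ((a15_const hU cU hg ha h' z hz).trans h)
  obtain ⟨n, z, ⟨_, hzU⟩, hfz⟩ := (hurwitz_local hU hd hl ha hloc one_pos).exists
  exact h0 n z hzU (hfz.trans h)

end CF6

end

section

/-!
# A17: Riemann mapping theorem for domains without holes, steps 1 and 2

* `exists_inj_disc`: `a ∉ W`; `ℓ` with `exp (ℓ z) = z - a` on `W` (`holo_log`), `f z = exp (ℓ z / 2)`, `f z ^ 2 = z - a`; `f` is injective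
  and holomorphic on `W`, `f z ≠ 0`, and `f z = - f w` is impossible (then `z = w`, `f z = 0`). `f '' W` is open
  (`univ_open`): `ball (f z0) r ⊆ f '' W`, hence `ball (-f z0) r` is disjoint from `f '' W`: `‖f z + f z0‖ ≥ r` on `W`.
  `g z = r / (2 * (f z + f z0))`: injective, `‖g z‖ ≤ 1/2`. Result `mob (g z0) ∘ g`.
  (Compare Mathlib `Mathlib/Analysis/Complex/RiemannMapping.lean`, where this is done with `IsSimplyConnected`.)
* `koebe_step`: `f : W → disc` injective holomorphic, `f z0 = 0`, `w0 ∈ ball 0 1`, `w0 ∉ f '' W`. `F = mob w0 ∘ f` has no zero; `ℓ` with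
  `exp (ℓ) = F`; `S = exp (ℓ/2)`, `S^2 = F`, `S : W → disc` injective (`F` is). `G = mob (S z0) ∘ S`: `G z0 = 0`, injective,
  holomorphic. With `s = S z0`, `s^2 = F z0 = -w0`, `0 < ‖s‖ < 1` (`w0 ≠ 0` because `f z0 = 0 ≠ w0`):
  `deriv F z0 = (1 - ‖w0‖^2) * deriv f z0`, `deriv F z0 = 2 s * deriv S z0`, `deriv G z0 = deriv S z0 / (1 - ‖s‖^2)`.
  So `‖deriv G z0‖ = ‖deriv f z0‖ (1 - ‖s‖^4)/(2 ‖s‖ (1 - ‖s‖^2)) = ‖deriv f z0‖ (1 + ‖s‖^2)/(2 ‖s‖) > ‖deriv f z0‖`
  (`deriv f z0 ≠ 0`, `univ_deriv`).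
* `rmt`: `𝓕 = {f holomorphic, injective on W, maps W to the ball, f z0 = 0}` is nonempty. `‖deriv f z0‖ ≤ 1/r` for `ball z0 r ⊆ W`
  (Schwarz `Complex.norm_deriv_le_div_of_mapsTo_ball`). Let `m` be the supremum, `fn ∈ 𝓕` with `‖deriv fn z0‖ → m`; `montel` gives a
  subsequence `→ f`; `deriv fn z0 → deriv f z0` (`TendstoLocallyUniformlyOn.deriv`), so `‖deriv f z0‖ = m > 0`, `f` not constant, injective
  by `hurwitz_inj`, `‖f‖ ≤ 1` and `< 1` by the open mapping theorem (`univ_open`: `f '' W` is open and contained in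
  `closedBall 0 1`, interior). `f ∈ 𝓕`. If `f '' W ≠ ball 0 1`, `koebe_step` contradicts the maximality. `ψ` = inverse of `f`
  (`univ_inverse`).
-/

open Complex Set Filter Topology Metric

namespace CF6

theorem exists_inj_disc {W : Set ℂ} (hW : IsOpen W) (cW : IsConnected W) (hn : NoHole W)
    (hne : W ≠ univ) {z0 : ℂ} (hz0 : z0 ∈ W) :
    ∃ f : ℂ → ℂ, DifferentiableOn ℂ f W ∧ InjOn f W ∧ MapsTo f W (ball 0 1) ∧ f z0 = 0 := by
  obtain ⟨a, ha⟩ := (ne_univ_iff_exists_notMem W).mp hne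
  obtain ⟨ℓ, hℓd, hℓ⟩ := holo_log hW cW hn (g := fun z => z - a) (by fun_prop) (by
    intro z hz h
    rw [sub_eq_zero] at h
    rw [h] at hz
    exact ha hz)
  set f : ℂ → ℂ := fun z => exp (ℓ z / 2) with hf
  have hff : ∀ z ∈ W, f z ^ 2 = z - a := by
    intro z hz
    rw [hf, ← Complex.exp_nat_mul, ← hℓ z hz]
    congr 1
    push_cast
    ring
  have hf0 : ∀ z, f z ≠ 0 := fun z => Complex.exp_ne_zero _
  have hfi : InjOn f W := by
    intro z hz w hw hzw
    have h1 : z - a = w - a := by rw [← hff z hz, ← hff w hw, hzw]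
    exact sub_left_injective h1
  have hfd : DifferentiableOn ℂ f W := fun z hz => ((hℓd z hz).div_const 2).cexp
  have hneg : ∀ z ∈ W, ∀ w ∈ W, f z ≠ -f w := by
    intro z hz w hw h
    have h1 : z - a = w - a := by rw [← hff z hz, ← hff w hw, h, neg_sq]
    have h2 : z = w := sub_left_injective h1
    rw [h2] at h
    exact hf0 w (self_eq_neg.mp h)
  have hopen : IsOpen (f '' W) := univ_open hW subset_rfl hW hfd hfi
  obtain ⟨r, hr, hball⟩ := Metric.isOpen_iff.mp hopen (f z0) (mem_image_of_mem f hz0)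
  have hfar : ∀ z ∈ W, r ≤ ‖f z + f z0‖ := by
    intro z hz
    by_contra h
    push Not at h
    have h1 : -f z ∈ ball (f z0) r := by
      rw [mem_ball, dist_eq_norm]
      calc ‖-f z - f z0‖ = ‖-(f z + f z0)‖ := by ring_nf
        _ = ‖f z + f z0‖ := norm_neg _
        _ < r := h
    obtain ⟨w, hw, hwz⟩ := hball h1
    exact hneg w hw z hz hwz
  have hne0 : ∀ z ∈ W, f z + f z0 ≠ 0 := by
    intro z hz h
    have := hfar z hz
    rw [h, norm_zero] at this
    linarith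
  set g : ℂ → ℂ := fun z => (r : ℂ) / (2 * (f z + f z0)) with hg
  have hgd : DifferentiableOn ℂ g W := by
    intro z hz
    refine DifferentiableWithinAt.div (by fun_prop) ?_ (mul_ne_zero two_ne_zero (hne0 z hz))
    exact ((hfd z hz).add_const _).const_mul _
  have hgn : ∀ z ∈ W, ‖g z‖ < 1 := by
    intro z hz
    rw [hg]
    simp only [norm_div, norm_mul, Complex.norm_real, Real.norm_eq_abs, abs_of_pos hr]
    have h1 := hfar z hz
    have h2 : ‖(2 : ℂ)‖ = 2 := by simp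
    rw [h2, div_lt_one (by linarith)]
    linarith
  have hgi : InjOn g W := by
    intro z hz w hw hzw
    apply hfi hz hw
    have hr' : (r : ℂ) ≠ 0 := by exact_mod_cast hr.ne'
    have h1 := hne0 z hz
    have h2 := hne0 w hw
    rw [hg] at hzw
    simp only at hzw
    field_simp at hzw
    linear_combination -hzw
  refine ⟨fun z => mob (g z0) (g z), ?_, ?_, ?_, mob_self _⟩
  · intro z hz
    have h1 := (mob_hasDerivAt (hgn z0 hz0) (hgn z hz)).differentiableAt
    have h2 := (hgd.differentiableAt (hW.mem_nhds hz))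
    exact (h1.comp z h2).differentiableWithinAt
  · intro z hz w hw hzw
    apply hgi hz hw
    have := congrArg (mob (-(g z0))) hzw
    rwa [mob_inv (hgn z0 hz0) (hgn z hz), mob_inv (hgn z0 hz0) (hgn w hw)] at this
  · intro z hz
    rw [mem_ball_zero_iff]
    exact mob_mem (hgn z0 hz0) (hgn z hz)

end CF6

end

section

/-!
# A17: Riemann mapping theorem for domains without holes, steps 1 and 2

* `exists_inj_disc`: `a ∉ W`; `ℓ` with `exp (ℓ z) = z - a` on `W` (`holo_log`), `f z = exp (ℓ z / 2)`, `f z ^ 2 = z - a`; `f` is injective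
  and holomorphic on `W`, `f z ≠ 0`, and `f z = - f w` is impossible (then `z = w`, `f z = 0`). `f '' W` is open
  (`univ_open`): `ball (f z0) r ⊆ f '' W`, hence `ball (-f z0) r` is disjoint from `f '' W`: `‖f z + f z0‖ ≥ r` on `W`.
  `g z = r / (2 * (f z + f z0))`: injective, `‖g z‖ ≤ 1/2`. Result `mob (g z0) ∘ g`.
  (Compare Mathlib `Mathlib/Analysis/Complex/RiemannMapping.lean`, where this is done with `IsSimplyConnected`.)
* `koebe_step`: `f : W → disc` injective holomorphic, `f z0 = 0`, `w0 ∈ ball 0 1`, `w0 ∉ f '' W`. `F = mob w0 ∘ f` has no zero; `ℓ` with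
  `exp (ℓ) = F`; `S = exp (ℓ/2)`, `S^2 = F`, `S : W → disc` injective (`F` is). `G = mob (S z0) ∘ S`: `G z0 = 0`, injective,
  holomorphic. With `s = S z0`, `s^2 = F z0 = -w0`, `0 < ‖s‖ < 1` (`w0 ≠ 0` because `f z0 = 0 ≠ w0`):
  `deriv F z0 = (1 - ‖w0‖^2) * deriv f z0`, `deriv F z0 = 2 s * deriv S z0`, `deriv G z0 = deriv S z0 / (1 - ‖s‖^2)`.
  So `‖deriv G z0‖ = ‖deriv f z0‖ (1 - ‖s‖^4)/(2 ‖s‖ (1 - ‖s‖^2)) = ‖deriv f z0‖ (1 + ‖s‖^2)/(2 ‖s‖) > ‖deriv f z0‖`
  (`deriv f z0 ≠ 0`, `univ_deriv`).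
* `rmt`: `𝓕 = {f holomorphic, injective on W, maps W to the ball, f z0 = 0}` is nonempty. `‖deriv f z0‖ ≤ 1/r` for `ball z0 r ⊆ W`
  (Schwarz `Complex.norm_deriv_le_div_of_mapsTo_ball`). Let `m` be the supremum, `fn ∈ 𝓕` with `‖deriv fn z0‖ → m`; `montel` gives a
  subsequence `→ f`; `deriv fn z0 → deriv f z0` (`TendstoLocallyUniformlyOn.deriv`), so `‖deriv f z0‖ = m > 0`, `f` not constant, injective
  by `hurwitz_inj`, `‖f‖ ≤ 1` and `< 1` by the open mapping theorem (`univ_open`: `f '' W` is open and contained in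
  `closedBall 0 1`, interior). `f ∈ 𝓕`. If `f '' W ≠ ball 0 1`, `koebe_step` contradicts the maximality. `ψ` = inverse of `f`
  (`univ_inverse`).
-/

open Complex Set Filter Topology Metric

namespace CF6

theorem koebe_step {W : Set ℂ} (hW : IsOpen W) (cW : IsConnected W) (hn : NoHole W)
    {z0 : ℂ} (hz0 : z0 ∈ W) {f : ℂ → ℂ} (hd : DifferentiableOn ℂ f W) (hi : InjOn f W)
    (hm : MapsTo f W (ball 0 1)) (h0 : f z0 = 0) {w0 : ℂ} (hw0 : w0 ∈ ball (0 : ℂ) 1)
    (hw1 : w0 ∉ f '' W) :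
    ∃ G : ℂ → ℂ, DifferentiableOn ℂ G W ∧ InjOn G W ∧ MapsTo G W (ball 0 1) ∧ G z0 = 0 ∧
      ‖deriv f z0‖ < ‖deriv G z0‖ := by
  have hw0' : ‖w0‖ < 1 := by simpa using hw0
  have hm' : ∀ z ∈ W, ‖f z‖ < 1 := fun z hz => by simpa using hm hz
  set F : ℂ → ℂ := fun z => mob w0 (f z) with hF
  have hFd : DifferentiableOn ℂ F W := by
    intro z hz
    have h1 := (mob_hasDerivAt hw0' (hm' z hz)).differentiableAt
    have h2 := (hd.differentiableAt (hW.mem_nhds hz))
    exact (h1.comp z h2).differentiableWithinAt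
  have hFi : InjOn F W := by
    intro z hz w hw hzw
    apply hi hz hw
    have := congrArg (mob (-w0)) hzw
    rwa [hF, mob_inv hw0' (hm' z hz), mob_inv hw0' (hm' w hw)] at this
  have hF0 : ∀ z ∈ W, F z ≠ 0 := by
    intro z hz h
    apply hw1
    refine ⟨z, hz, ?_⟩
    have h1 : mob w0 (f z) = mob w0 w0 := by rw [mob_self]; exact h
    have := congrArg (mob (-w0)) h1
    rwa [mob_inv hw0' (hm' z hz), mob_inv hw0' hw0'] at this
  have hF1 : ∀ z ∈ W, ‖F z‖ < 1 := fun z hz => mob_mem hw0' (hm' z hz)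
  obtain ⟨ℓ, hℓd, hℓ⟩ := holo_log hW cW hn hFd hF0
  set S : ℂ → ℂ := fun z => exp (ℓ z / 2) with hS
  have hSd : DifferentiableOn ℂ S W := by
    intro z hz
    exact ((hℓd z hz).div_const 2).cexp
  have hSS : ∀ z ∈ W, S z ^ 2 = F z := by
    intro z hz
    rw [hS, ← Complex.exp_nat_mul, ← hℓ z hz]
    congr 1
    push_cast
    ring
  have hSi : InjOn S W := by
    intro z hz w hw hzw
    apply hFi hz hw
    rw [← hSS z hz, ← hSS w hw, hzw]
  have hS1 : ∀ z ∈ W, ‖S z‖ < 1 := by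
    intro z hz
    have h1 := hF1 z hz
    rw [← hSS z hz, norm_pow] at h1
    by_contra hcon
    push Not at hcon
    have := one_le_pow₀ (n := 2) hcon
    linarith
  set s : ℂ := S z0 with hs
  have hs1 : ‖s‖ < 1 := hS1 z0 hz0
  have hs2 : s ^ 2 = -w0 := by
    rw [hs, hSS z0 hz0, hF]
    simp only
    rw [h0, mob_zero]
  have hw00 : w0 ≠ 0 := by
    rintro rfl
    exact hw1 ⟨z0, hz0, h0⟩
  have hs0 : s ≠ 0 := by
    intro h
    rw [h] at hs2
    apply hw00
    simpa using hs2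
  set G : ℂ → ℂ := fun z => mob s (S z) with hG
  have hGd : DifferentiableOn ℂ G W := by
    intro z hz
    have h1 := (mob_hasDerivAt hs1 (hS1 z hz)).differentiableAt
    have h2 := (hSd.differentiableAt (hW.mem_nhds hz))
    exact (h1.comp z h2).differentiableWithinAt
  refine ⟨G, hGd, ?_, ?_, ?_, ?_⟩
  · intro z hz w hw hzw
    apply hSi hz hw
    have := congrArg (mob (-s)) hzw
    rwa [hG, mob_inv hs1 (hS1 z hz), mob_inv hs1 (hS1 w hw)] at this
  · intro z hz
    have := mob_mem hs1 (hS1 z hz)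
    simpa using this
  · rw [hG]
    exact mob_self s
  · have hfz : HasDerivAt f (deriv f z0) z0 :=
      (hd.differentiableAt (hW.mem_nhds hz0)).hasDerivAt
    have hSz : HasDerivAt S (deriv S z0) z0 :=
      (hSd.differentiableAt (hW.mem_nhds hz0)).hasDerivAt
    have hFz : HasDerivAt F ((1 - ‖w0‖ ^ 2 : ℝ) * deriv f z0) z0 := by
      have h1 : HasDerivAt (mob w0) ((1 - ‖w0‖ ^ 2 : ℝ) /
          (1 - (starRingEnd ℂ) w0 * f z0) ^ 2) (f z0) := mob_hasDerivAt hw0' (hm' z0 hz0)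
      have h2 : HasDerivAt F ((1 - ‖w0‖ ^ 2 : ℝ) /
          (1 - (starRingEnd ℂ) w0 * f z0) ^ 2 * deriv f z0) z0 := HasDerivAt.comp z0 h1 hfz
      rw [h0, mul_zero, sub_zero, one_pow, div_one] at h2
      exact h2
    have hFz' : HasDerivAt F (2 * s * deriv S z0) z0 := by
      have h1 := hSz.pow 2
      have h2 : HasDerivAt (fun z => S z ^ 2) (2 * s * deriv S z0) z0 := by
        have h3 := hSz.fun_pow 2
        simpa using h3
      refine h2.congr_of_eventuallyEq ?_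
      filter_upwards [hW.mem_nhds hz0] with z hz
      exact (hSS z hz).symm
    have hFF : ((1 - ‖w0‖ ^ 2 : ℝ) : ℂ) * deriv f z0 = 2 * s * deriv S z0 := hFz.unique hFz'
    have hGz : HasDerivAt G (((1 - ‖s‖ ^ 2 : ℝ) : ℂ) / (1 - (starRingEnd ℂ) s * s) ^ 2 *
        deriv S z0) z0 := by
      have h1 : HasDerivAt (mob s) (((1 - ‖s‖ ^ 2 : ℝ) : ℂ) /
          (1 - (starRingEnd ℂ) s * s) ^ 2) (S z0) := mob_hasDerivAt hs1 hs1
      exact HasDerivAt.comp z0 h1 hSz
    have hss : (starRingEnd ℂ) s * s = ((‖s‖ ^ 2 : ℝ) : ℂ) := by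
      rw [← Complex.normSq_eq_conj_mul_self, Complex.normSq_eq_norm_sq]
    set p : ℝ := ‖s‖ with hp
    have hp0 : 0 < p := norm_pos_iff.mpr hs0
    have hp1 : p < 1 := hs1
    have hp2 : 0 < 1 - p ^ 2 := by nlinarith
    have hwp : ‖w0‖ = p ^ 2 := by
      rw [hp, ← norm_pow, hs2, norm_neg]
    have hSn : ‖deriv S z0‖ = (1 - p ^ 4) * ‖deriv f z0‖ / (2 * p) := by
      have h1 := congrArg norm hFF
      rw [norm_mul, norm_mul, norm_mul, Complex.norm_real, hwp] at h1
      have h2 : ‖(1 - (p ^ 2) ^ 2 : ℝ)‖ = 1 - p ^ 4 := by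
        rw [Real.norm_eq_abs, abs_of_nonneg (by nlinarith)]
        ring
      rw [h2, ← hp] at h1
      rw [h1]
      have : ‖(2 : ℂ)‖ = 2 := by simp
      rw [this]
      field_simp
    have hGn : ‖deriv G z0‖ = ‖deriv S z0‖ / (1 - p ^ 2) := by
      rw [hGz.deriv, hss, norm_mul, norm_div, norm_pow, Complex.norm_real,
        ← Complex.ofReal_one, ← Complex.ofReal_sub, Complex.norm_real, Real.norm_eq_abs,
        abs_of_pos hp2]
      field_simp
    have hfpos : 0 < ‖deriv f z0‖ := norm_pos_iff.mpr (univ_deriv hW hd hi hz0)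
    rw [hGn, hSn, lt_div_iff₀ hp2, lt_div_iff₀ (by positivity)]
    have : 0 < (1 - p ^ 2) * (1 - p) ^ 2 := by
      have : 0 < 1 - p := by linarith
      positivity
    nlinarith [mul_pos this hfpos]

end CF6

end

section

/-!
# A18: Riemann mapping theorem (proof: see the header of A17)
-/

open Complex Set Filter Topology Metric

namespace CF6

theorem rmt' {W : Set ℂ} (hW : IsOpen W) (cW : IsConnected W) (hn : NoHole W)
    (hne : W ≠ univ) {z0 : ℂ} (hz0 : z0 ∈ W) :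
    ∃ f : ℂ → ℂ, DifferentiableOn ℂ f W ∧ InjOn f W ∧ f '' W = ball 0 1 ∧ f z0 = 0 := by
  classical
  set S : Set ℝ := {x | ∃ f : ℂ → ℂ, (DifferentiableOn ℂ f W ∧ InjOn f W ∧
    MapsTo f W (ball 0 1) ∧ f z0 = 0) ∧ x = ‖deriv f z0‖} with hS
  obtain ⟨f0, hf0⟩ := exists_inj_disc hW cW hn hne hz0
  have hmem0 : ‖deriv f0 z0‖ ∈ S := ⟨f0, hf0, rfl⟩
  have hne' : S.Nonempty := ⟨_, hmem0⟩
  obtain ⟨r, hr, hrW⟩ := Metric.isOpen_iff.mp hW z0 hz0
  have hbdd : BddAbove S := by
    refine ⟨1 / r, ?_⟩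
    rintro x ⟨f, ⟨hd, -, hm, h0⟩, rfl⟩
    refine Complex.norm_deriv_le_div_of_mapsTo_ball (hd.mono hrW) ?_ hr
    rw [h0]
    exact (hm.mono_left hrW).mono_right ball_subset_closedBall
  obtain ⟨u, -, hut, huS⟩ := exists_seq_tendsto_sSup hne' hbdd
  choose fn hfn hfnu using huS
  obtain ⟨s, hs, g, hg, hgd⟩ := montel hW (fun n => (hfn n).1) (by
    intro Q hQ _
    refine ⟨1, fun n z hz => ?_⟩
    have := (hfn n).2.2.1 (hQ hz)
    rw [mem_ball_zero_iff] at this
    exact this.le)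
  have hder : Tendsto (fun n => deriv (fn (s n)) z0) atTop (𝓝 (deriv g z0)) := by
    have h1 := hg.deriv (Filter.Eventually.of_forall fun n => (hfn (s n)).1) hW
    exact h1.tendsto_at hz0
  have hm : ‖deriv g z0‖ = sSup S := by
    have h1 : Tendsto (fun n => ‖deriv (fn (s n)) z0‖) atTop (𝓝 ‖deriv g z0‖) := hder.norm
    have h2 : Tendsto (fun n => u (s n)) atTop (𝓝 (sSup S)) := hut.comp hs.tendsto_atTop
    refine tendsto_nhds_unique h1 (h2.congr fun n => ?_)
    exact hfnu (s n)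
  have hpos : 0 < ‖deriv g z0‖ := by
    rw [hm]
    exact lt_of_lt_of_le (norm_pos_iff.mpr (univ_deriv hW hf0.1 hf0.2.1 hz0)) (le_csSup hbdd hmem0)
  have hnc : ∃ z ∈ W, ∃ w ∈ W, g z ≠ g w := by
    by_contra hcon
    push Not at hcon
    have h1 : g =ᶠ[𝓝 z0] fun _ => g z0 := by
      filter_upwards [hW.mem_nhds hz0] with z hz
      exact hcon z hz z0 hz0
    rw [h1.deriv_eq, deriv_const, norm_zero] at hpos
    exact lt_irrefl _ hpos
  have hgi : InjOn g W :=
    hurwitz_inj hW cW.isPreconnected (fun n => (hfn (s n)).1) (fun n => (hfn (s n)).2.1) hg hnc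
  have hg0 : g z0 = 0 := by
    have h1 := hg.tendsto_at hz0
    refine tendsto_nhds_unique h1 ?_
    refine tendsto_const_nhds.congr fun n => ?_
    exact ((hfn (s n)).2.2.2).symm
  have hgle : ∀ z ∈ W, ‖g z‖ ≤ 1 := by
    intro z hz
    have h1 := (hg.tendsto_at hz).norm
    refine le_of_tendsto h1 (Filter.Eventually.of_forall fun n => ?_)
    have := (hfn (s n)).2.2.1 hz
    rw [mem_ball_zero_iff] at this
    exact this.le
  have hopen : IsOpen (g '' W) := univ_open hW subset_rfl hW hgd hgi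
  have hsub : g '' W ⊆ ball 0 1 := by
    have h1 : g '' W ⊆ closedBall 0 1 := by
      rintro _ ⟨z, hz, rfl⟩
      rw [mem_closedBall_zero_iff]
      exact hgle z hz
    have h2 := interior_mono h1
    rwa [hopen.interior_eq, interior_closedBall _ one_ne_zero] at h2
  refine ⟨g, hgd, hgi, ?_, hg0⟩
  refine subset_antisymm hsub fun w0 hw0 => ?_
  by_contra hw1
  obtain ⟨G, hGd, hGi, hGm, hG0, hlt⟩ :=
    koebe_step hW cW hn hz0 hgd hgi (fun z hz => hsub (mem_image_of_mem g hz)) hg0 hw0 hw1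
  have hGS : ‖deriv G z0‖ ∈ S := ⟨G, ⟨hGd, hGi, hGm, hG0⟩, rfl⟩
  have := le_csSup hbdd hGS
  rw [← hm] at this
  exact absurd hlt (not_lt.mpr this)

/-- Riemann mapping theorem -/
theorem rmt {W : Set ℂ} (hW : IsOpen W) (cW : IsConnected W) (hn : NoHole W)
    (hne : W ≠ univ) {z0 : ℂ} (hz0 : z0 ∈ W) :
    ∃ ψ : ℂ → ℂ, DifferentiableOn ℂ ψ (ball 0 1) ∧ InjOn ψ (ball 0 1) ∧ ψ '' ball 0 1 = W ∧
      ψ 0 = z0 := by
  obtain ⟨f, hd, hi, hf, h0⟩ := rmt' hW cW hn hne hz0
  obtain ⟨g, hg, hgl, hgr⟩ := univ_inverse hW hd hi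
  rw [hf] at hg hgr
  refine ⟨g, hg, ?_, ?_, ?_⟩
  · intro x hx y hy hxy
    rw [← (hgr x hx).2, ← (hgr y hy).2, hxy]
  · ext w
    constructor
    · rintro ⟨x, hx, rfl⟩
      exact (hgr x hx).1
    · intro hw
      exact ⟨f w, hf ▸ mem_image_of_mem f hw, hgl w hw⟩
  · rw [← h0, hgl z0 hz0]

end CF6

end

section

/-!
# A18: Riemann mapping theorem (proof: see the header of A17)
-/

open Complex Set Filter Topology Metric

namespace CF6

theorem a18b_convex {S : Set ℂ} (hS : IsOpen S) (hc : Convex ℝ S) (hne : S.Nonempty) {g : ℂ → ℂ}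
    (hg : ContinuousOn g S) (h0 : ∀ z ∈ S, g z ≠ 0) :
    ∃ ℓ : ℂ → ℂ, ContinuousOn ℓ S ∧ ∀ z ∈ S, exp (ℓ z) = g z := by
  have hcon : ContractibleSpace S := hc.contractibleSpace hne
  have hsc : IsSimplyConnected S := by
    show SimplyConnectedSpace S
    infer_instance
  obtain ⟨ℓ, h1, h2⟩ := Complex.exists_continuousOn_eqOn_exp_comp hsc hS hg (by
    rintro ⟨z, hz, h⟩
    exact h0 z hz h)
  exact ⟨ℓ, h1, fun z hz => h2 hz⟩

/-- continuous logarithms: `W` is homeomorphic to the disc, or the plane; Mathlib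
`Complex.exists_continuousOn_eqOn_exp_comp` for `g ∘ ψ` on `ball 0 1` (convex, hence simply connected),
then compose with the inverse of `ψ` (`univ_inverse`, continuous). -/
theorem cont_log {W : Set ℂ} (hW : IsOpen W) (cW : IsConnected W) (hn : NoHole W) {g : ℂ → ℂ}
    (hg : ContinuousOn g W) (h0 : ∀ z ∈ W, g z ≠ 0) :
    ∃ ℓ : ℂ → ℂ, ContinuousOn ℓ W ∧ ∀ z ∈ W, exp (ℓ z) = g z := by
  by_cases hne : W = univ
  · exact a18b_convex hW (by rw [hne]; exact convex_univ) cW.nonempty hg h0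
  · obtain ⟨z0, hz0⟩ := cW.nonempty
    obtain ⟨ψ, hd, hi, him, _⟩ := rmt hW cW hn hne hz0
    obtain ⟨ρ, hρ, hl, hr⟩ := univ_inverse isOpen_ball hd hi
    rw [him] at hρ hr
    have hmaps : MapsTo ψ (ball 0 1) W := fun z hz => him ▸ mem_image_of_mem ψ hz
    obtain ⟨ℓ, h1, h2⟩ := a18b_convex (g := fun z => g (ψ z)) isOpen_ball (convex_ball (0 : ℂ) 1)
      ⟨0, mem_ball_self one_pos⟩ (hg.comp hd.continuousOn hmaps) (fun z hz => h0 _ (hmaps hz))
    refine ⟨fun z => ℓ (ρ z), h1.comp hρ.continuousOn (fun z hz => (hr z hz).1), ?_⟩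
    intro z hz
    rw [h2 _ (hr z hz).1, (hr z hz).2]

end CF6

end

section

/-!
# A19: existence of the Riemann map of the complement of a continuum

UNBOUNDED `K`: `Kᶜ` is open, connected, `NoHole` (`noHole_of_conn`), not `univ`. `rmt`: `F : ball 0 1 → Kᶜ`, inverse `ρ` (`univ_inverse`),
`Φ u = F (exp (I * u))`; for `u ∈ UHP`: `‖exp (I u)‖ = exp (-im u) < 1`. `at0`: `w0 = F 0`. `logs`: `(F - k)/(F - k')` is holomorphic and nonvanishing
on the ball (`F ζ ∉ K`), `holo_log` with `noHole_ball` gives `ℓ`, `Λ u = ℓ (exp (I * u))`. `log1`: the same for `F - k`.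
`right`: `ρ w = ζ ≠ 0`, `u = -I * log ζ`, `exp (I u) = ζ`, `im u = - log ‖ζ‖ > 0`.

BOUNDED `K` (compact): `k0 ∈ K`, `G = {w | w = 0 ∨ k0 + w⁻¹ ∉ K}`.
 * open: at `w ≠ 0` by continuity of the inverse and closedness of `K`; at `0`: `K ⊆ closedBall k0 R`, so `0 < ‖w‖ < 1/R` implies
   `‖w⁻¹‖ > R`, `k0 + w⁻¹ ∉ K`.
 * connected: `G \ {0}` is the image of the connected `Kᶜ` under `v ↦ (v - k0)⁻¹` (continuous, `v ≠ k0` as `k0 ∈ K`); `0` is in its closure.
 * `NoHole G`: `A` closed, `B` compact, disjoint, `A ∪ B = Gᶜ`; `0 ∉ B`. `B' = (fun w => k0 + w⁻¹) '' B` is compact,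
   `A' = {k0} ∪ {v | v ∈ K ∧ v ≠ k0 ∧ (v - k0)⁻¹ ∈ A}` is closed (a limit point `v ≠ k0` is in `K` and `(v - k0)⁻¹ ∈ A`),
   disjoint, `A' ∪ B' = K`. `K` connected and `k0 ∈ A'`: `B' = ∅`, `B = ∅`.
 * `G ≠ univ`: `k1 ∈ K`, `k1 ≠ k0`, `(k1 - k0)⁻¹ ∉ G`.
 `rmt` with `z0 = 0`: `F : ball → G`, `F 0 = 0`; inverse `g`. `Φ u = k0 + (F (exp (I u)))⁻¹`, `ρ w = g ((w - k0)⁻¹)`.
 `mem`: `F ζ ∈ G`, `F ζ ≠ 0` for `ζ ≠ 0`. `at0`, second alternative: `exp (I u) → 0`, so `F → 0`, `Φ → ∞`.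
 `logs`: `(Φ - k)/(Φ - k') = ((k0 - k) F + 1)/((k0 - k') F + 1)` at `ζ = exp (I u)`; both factors are holomorphic and
 nonvanishing on the ball (`(k0 - k) F ζ + 1 = 0` implies `k0 + (F ζ)⁻¹ = k ∈ K`, `F ζ ≠ 0`, contradiction). `log1` is vacuous.
-/

open Complex Set Filter Topology Metric

namespace CF6

theorem a19_exp_mem {u : ℂ} (hu : u ∈ UHP) : exp (I * u) ∈ ball (0 : ℂ) 1 := by
  rw [mem_ball_zero_iff, Complex.norm_exp]
  have h1 : (I * u).re = -u.im := by simp
  have h2 : 0 < u.im := hu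
  rw [h1, ← Real.exp_zero]
  exact Real.exp_lt_exp.mpr (by linarith)

theorem a19_exp_period (u : ℂ) : exp (I * (u + 2 * Real.pi)) = exp (I * u) := by
  have h1 : I * (u + 2 * Real.pi) = I * u + 2 * Real.pi * I := by ring
  rw [h1]
  exact Complex.exp_periodic _

theorem a19_exists_log {ζ : ℂ} (hζ : ζ ∈ ball (0 : ℂ) 1) (h0 : ζ ≠ 0) :
    ∃ u ∈ UHP, exp (I * u) = ζ := by
  refine ⟨-I * log ζ, ?_, ?_⟩
  · have h1 : (-I * log ζ).im = -(Real.log ‖ζ‖) := by
      simp [Complex.log_re]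
    have h2 : Real.log ‖ζ‖ < 0 := by
      apply Real.log_neg (norm_pos_iff.mpr h0)
      simpa using hζ
    change 0 < (-I * log ζ).im
    rw [h1]
    linarith
  · have h1 : I * (-I * log ζ) = log ζ := by
      have := Complex.I_mul_I
      linear_combination (-log ζ) * this
    rw [h1, Complex.exp_log h0]

theorem a19_conn_ball : IsConnected (ball (0 : ℂ) 1) :=
  ⟨⟨0, mem_ball_self one_pos⟩, (convex_ball (0 : ℂ) 1).isPreconnected⟩

theorem a19_log {h : ℂ → ℂ} (hd : DifferentiableOn ℂ h (ball 0 1))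
    (h0 : ∀ z ∈ ball (0 : ℂ) 1, h z ≠ 0) :
    ∃ Λ : ℂ → ℂ, DifferentiableOn ℂ Λ UHP ∧
      (∀ u ∈ UHP, exp (Λ u) = h (exp (I * u))) ∧ ∀ u ∈ UHP, Λ (u + 2 * Real.pi) = Λ u := by
  obtain ⟨ℓ, hℓd, hℓ⟩ := holo_log isOpen_ball a19_conn_ball noHole_ball hd h0
  refine ⟨fun u => ℓ (exp (I * u)), ?_, ?_, ?_⟩
  · intro u hu
    have h1 := (hℓd.differentiableAt (isOpen_ball.mem_nhds (a19_exp_mem hu)))
    have h2 : DifferentiableAt ℂ (fun u : ℂ => exp (I * u)) u := by fun_prop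
    exact (h1.comp u h2).differentiableWithinAt
  · intro u hu
    exact hℓ _ (a19_exp_mem hu)
  · intro u _
    simp only [a19_exp_period]

theorem exists_collar_unbounded {K : Set ℂ} (hK : IsClosed K) (cK : IsConnected K)
    (nK : K.Nontrivial) (hb : ¬ Bornology.IsBounded K) (hc : IsConnected Kᶜ) :
    ∃ Φ ρ : ℂ → ℂ, Collar K Φ ρ := by
  obtain ⟨z0, hz0⟩ := hc.nonempty
  have hnh : NoHole Kᶜ := noHole_of_conn (by rw [compl_compl]; exact cK.isPreconnected)
    (by rw [compl_compl]; exact hb)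
  have hne : Kᶜ ≠ univ := by
    rw [Ne, compl_univ_iff]
    exact nK.nonempty.ne_empty
  obtain ⟨F, hFd, hFi, hFim, hF0⟩ := rmt hK.isOpen_compl hc hnh hne hz0
  obtain ⟨ρ, hρd, hρl, hρr⟩ := univ_inverse isOpen_ball hFd hFi
  rw [hFim] at hρd hρr
  have hmem : ∀ ζ ∈ ball (0 : ℂ) 1, F ζ ∉ K := by
    intro ζ hζ
    have : F ζ ∈ Kᶜ := hFim ▸ mem_image_of_mem F hζ
    exact this
  refine ⟨fun u => F (exp (I * u)), ρ, ⟨hK, cK, nK, ?_, hρd, ?_, ?_, ?_, ?_, ?_, ?_, ?_, ?_⟩⟩
  · intro u hu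
    have h1 := (hFd.differentiableAt (isOpen_ball.mem_nhds (a19_exp_mem hu)))
    have h2 : DifferentiableAt ℂ (fun u : ℂ => exp (I * u)) u := by fun_prop
    exact (h1.comp u h2).differentiableWithinAt
  · intro u hu
    exact hmem _ (a19_exp_mem hu)
  · intro u hu
    exact hρl _ (a19_exp_mem hu)
  · intro w hw
    exact (hρr w hw).1
  · intro w hw w' hw' h
    rw [← (hρr w hw).2, ← (hρr w' hw').2, h]
  · intro w hw h0
    obtain ⟨u, hu, hue⟩ := a19_exists_log (hρr w hw).1 h0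
    refine ⟨u, hu, ?_⟩
    change F (exp (I * u)) = w
    rw [hue]
    exact (hρr w hw).2
  · left
    exact ⟨F 0, hmem 0 (mem_ball_self one_pos), hρl 0 (mem_ball_self one_pos)⟩
  · intro k hk k' hk'
    have hne1 : ∀ z ∈ ball (0 : ℂ) 1, ∀ x ∈ K, F z - x ≠ 0 := by
      intro z hz x hx h
      rw [sub_eq_zero] at h
      exact hmem z hz (h ▸ hx)
    exact a19_log (h := fun z => (F z - k) / (F z - k'))
      ((hFd.sub_const k).div (hFd.sub_const k') fun z hz => hne1 z hz k' hk')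
      fun z hz => div_ne_zero (hne1 z hz k hk) (hne1 z hz k' hk')
  · intro _ k hk
    exact a19_log (h := fun z => F z - k) (hFd.sub_const k) fun z hz h => by
      rw [sub_eq_zero] at h
      exact hmem z hz (h ▸ hk)

end CF6

end

section

/-!
# A19: existence of the Riemann map of the complement of a continuum

UNBOUNDED `K`: `Kᶜ` is open, connected, `NoHole` (`noHole_of_conn`), not `univ`. `rmt`: `F : ball 0 1 → Kᶜ`, inverse `ρ` (`univ_inverse`),
`Φ u = F (exp (I * u))`; for `u ∈ UHP`: `‖exp (I u)‖ = exp (-im u) < 1`. `at0`: `w0 = F 0`. `logs`: `(F - k)/(F - k')` is holomorphic and nonvanishing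
on the ball (`F ζ ∉ K`), `holo_log` with `noHole_ball` gives `ℓ`, `Λ u = ℓ (exp (I * u))`. `log1`: the same for `F - k`.
`right`: `ρ w = ζ ≠ 0`, `u = -I * log ζ`, `exp (I u) = ζ`, `im u = - log ‖ζ‖ > 0`.

BOUNDED `K` (compact): `k0 ∈ K`, `G = {w | w = 0 ∨ k0 + w⁻¹ ∉ K}`.
 * open: at `w ≠ 0` by continuity of the inverse and closedness of `K`; at `0`: `K ⊆ closedBall k0 R`, so `0 < ‖w‖ < 1/R` implies
   `‖w⁻¹‖ > R`, `k0 + w⁻¹ ∉ K`.
 * connected: `G \ {0}` is the image of the connected `Kᶜ` under `v ↦ (v - k0)⁻¹` (continuous, `v ≠ k0` as `k0 ∈ K`); `0` is in its closure.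
 * `NoHole G`: `A` closed, `B` compact, disjoint, `A ∪ B = Gᶜ`; `0 ∉ B`. `B' = (fun w => k0 + w⁻¹) '' B` is compact,
   `A' = {k0} ∪ {v | v ∈ K ∧ v ≠ k0 ∧ (v - k0)⁻¹ ∈ A}` is closed (a limit point `v ≠ k0` is in `K` and `(v - k0)⁻¹ ∈ A`),
   disjoint, `A' ∪ B' = K`. `K` connected and `k0 ∈ A'`: `B' = ∅`, `B = ∅`.
 * `G ≠ univ`: `k1 ∈ K`, `k1 ≠ k0`, `(k1 - k0)⁻¹ ∉ G`.
 `rmt` with `z0 = 0`: `F : ball → G`, `F 0 = 0`; inverse `g`. `Φ u = k0 + (F (exp (I u)))⁻¹`, `ρ w = g ((w - k0)⁻¹)`.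
 `mem`: `F ζ ∈ G`, `F ζ ≠ 0` for `ζ ≠ 0`. `at0`, second alternative: `exp (I u) → 0`, so `F → 0`, `Φ → ∞`.
 `logs`: `(Φ - k)/(Φ - k') = ((k0 - k) F + 1)/((k0 - k') F + 1)` at `ζ = exp (I u)`; both factors are holomorphic and
 nonvanishing on the ball (`(k0 - k) F ζ + 1 = 0` implies `k0 + (F ζ)⁻¹ = k ∈ K`, `F ζ ≠ 0`, contradiction). `log1` is vacuous.
-/

open Complex Set Filter Topology Metric

namespace CF6

theorem inv_domain {K : Set ℂ} (hK : IsCompact K) (cK : IsConnected K)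
    (nK : K.Nontrivial) (hc : IsConnected Kᶜ) {k0 : ℂ} (h0 : k0 ∈ K) :
    IsOpen {w : ℂ | w = 0 ∨ k0 + w⁻¹ ∉ K} ∧ IsConnected {w : ℂ | w = 0 ∨ k0 + w⁻¹ ∉ K} ∧
      NoHole {w : ℂ | w = 0 ∨ k0 + w⁻¹ ∉ K} ∧ {w : ℂ | w = 0 ∨ k0 + w⁻¹ ∉ K} ≠ univ := by
  have hKc : IsClosed K := hK.isClosed
  obtain ⟨R0, hR0⟩ := hK.isBounded.subset_closedBall k0
  set R : ℝ := max R0 1 with hR
  have hR1 : 0 < R := lt_of_lt_of_le one_pos (le_max_right _ _)
  have hKR : ∀ x ∈ K, ‖x - k0‖ ≤ R := by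
    intro x hx
    have := hR0 hx
    rw [mem_closedBall, dist_eq_norm] at this
    exact this.trans (le_max_left _ _)
  have hsmall : ∀ w : ℂ, w ≠ 0 → ‖w‖ < 1 / R → k0 + w⁻¹ ∉ K := by
    intro w hw hwR hcon
    have h1 := hKR _ hcon
    rw [add_sub_cancel_left, norm_inv] at h1
    have hw0 : 0 < ‖w‖ := norm_pos_iff.mpr hw
    rw [lt_div_iff₀ hR1] at hwR
    rw [inv_le_iff_one_le_mul₀ hw0] at h1
    linarith [mul_comm R ‖w‖]
  refine ⟨?_, ?_, ?_, ?_⟩
  · rw [isOpen_iff_mem_nhds]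
    intro w hw
    by_cases hw0 : w = 0
    · subst hw0
      filter_upwards [ball_mem_nhds (0 : ℂ) (show 0 < 1 / R by positivity)] with x hx
      by_cases hx0 : x = 0
      · exact Or.inl hx0
      · exact Or.inr (hsmall x hx0 (by simpa using hx))
    · have h1 : k0 + w⁻¹ ∉ K := by
        rcases hw with h | h
        · exact absurd h hw0
        · exact h
      have hcont : ContinuousAt (fun x : ℂ => k0 + x⁻¹) w :=
        continuousAt_const.add (continuousAt_inv₀ hw0)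
      filter_upwards [hcont.preimage_mem_nhds (hKc.isOpen_compl.mem_nhds h1)] with x hx
      exact Or.inr hx
  · have hG' : IsConnected ((fun v : ℂ => (v - k0)⁻¹) '' Kᶜ) := by
      refine hc.image _ ?_
      refine ContinuousOn.inv₀ (by fun_prop) ?_
      intro v hv h
      rw [sub_eq_zero] at h
      exact hv (h ▸ h0)
    refine hG'.subset_closure ?_ ?_
    · rintro _ ⟨v, hv, rfl⟩
      right
      rw [inv_inv, add_sub_cancel]
      exact hv
    · intro w hw
      by_cases hw0 : w = 0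
      · subst hw0
        rw [Metric.mem_closure_iff]
        intro ε hε
        set b : ℝ := min (ε / 2) (1 / (2 * R)) with hb
        have hb0 : 0 < b := lt_min (by positivity) (by positivity)
        have hbn : ‖(b : ℂ)‖ = b := by
          rw [Complex.norm_real, Real.norm_eq_abs, abs_of_pos hb0]
        have hbne : (b : ℂ) ≠ 0 := by exact_mod_cast hb0.ne'
        refine ⟨(b : ℂ), ⟨k0 + (b : ℂ)⁻¹, ?_, ?_⟩, ?_⟩
        · refine hsmall _ hbne ?_
          rw [hbn]
          refine lt_of_le_of_lt (min_le_right _ _) ?_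
          apply one_div_lt_one_div_of_lt hR1
          linarith
        · simp only [add_sub_cancel_left, inv_inv]
        · rw [dist_zero_left, hbn]
          exact lt_of_le_of_lt (min_le_left _ _) (by linarith)
      · have h1 : k0 + w⁻¹ ∉ K := by
          rcases hw with h | h
          · exact absurd h hw0
          · exact h
        apply subset_closure
        exact ⟨k0 + w⁻¹, h1, by simp only [add_sub_cancel_left, inv_inv]⟩
  · intro A B hA hB hAB hunion
    have hmemc : ∀ w, w ∈ A ∪ B ↔ (w ≠ 0 ∧ k0 + w⁻¹ ∈ K) := by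
      intro w
      rw [hunion, mem_compl_iff, mem_ofPred_eq, not_or, not_not]
    have hB0 : ∀ w ∈ B, w ≠ 0 := fun w hw => ((hmemc w).mp (Or.inr hw)).1
    set B' : Set ℂ := (fun w : ℂ => k0 + w⁻¹) '' B with hB'
    set A' : Set ℂ := {v | v = k0 ∨ (v ∈ K ∧ v ≠ k0 ∧ (v - k0)⁻¹ ∈ A)} with hA'
    have hB'c : IsCompact B' := by
      refine hB.image_of_continuousOn ?_
      exact continuousOn_const.add (continuousOn_id.inv₀ hB0)
    have hA'c : IsClosed A' := by
      rw [← isOpen_compl_iff, isOpen_iff_mem_nhds]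
      intro v hv
      have hv1 : v ≠ k0 := fun h => hv (Or.inl h)
      by_cases hvK : v ∈ K
      · have hvA : (v - k0)⁻¹ ∉ A := fun h => hv (Or.inr ⟨hvK, hv1, h⟩)
        have hcont : ContinuousAt (fun x : ℂ => (x - k0)⁻¹) v :=
          (continuousAt_id.sub continuousAt_const).inv₀ (sub_ne_zero.mpr hv1)
        filter_upwards [hcont.preimage_mem_nhds (hA.isOpen_compl.mem_nhds hvA),
          isOpen_ne.mem_nhds hv1] with x hx hx1
        rintro (h | ⟨-, -, h⟩)
        · exact hx1 h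
        · exact hx h
      · filter_upwards [hKc.isOpen_compl.mem_nhds hvK] with x hx
        rintro (h | ⟨h, -, -⟩)
        · exact hx (h ▸ h0)
        · exact hx h
    have hcover : K ⊆ A' ∪ B' := by
      intro v hv
      by_cases hv1 : v = k0
      · exact Or.inl (Or.inl hv1)
      · have h1 : (v - k0)⁻¹ ∈ A ∪ B := by
          rw [hmemc]
          refine ⟨inv_ne_zero (sub_ne_zero.mpr hv1), ?_⟩
          rw [inv_inv, add_sub_cancel]
          exact hv
        rcases h1 with h1 | h1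
        · exact Or.inl (Or.inr ⟨hv, hv1, h1⟩)
        · refine Or.inr ⟨_, h1, ?_⟩
          simp only [inv_inv, add_sub_cancel]
    by_contra hBne
    obtain ⟨b, hb⟩ := nonempty_iff_ne_empty.mpr hBne
    have hbK : k0 + b⁻¹ ∈ K := ((hmemc b).mp (Or.inr hb)).2
    obtain ⟨v, hvK, hvA, hvB⟩ := isPreconnected_closed_iff.mp cK.isPreconnected A' B' hA'c
      hB'c.isClosed hcover ⟨k0, h0, Or.inl rfl⟩ ⟨_, hbK, ⟨b, hb, rfl⟩⟩
    obtain ⟨w, hw, hwv⟩ := hvB
    simp only at hwv
    have hw0 := hB0 w hw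
    rcases hvA with h | ⟨-, -, h⟩
    · rw [h] at hwv
      have : w⁻¹ = 0 := by linear_combination hwv
      exact inv_ne_zero hw0 this
    · rw [← hwv, add_sub_cancel_left, inv_inv] at h
      exact Set.disjoint_left.mp hAB h hw
  · obtain ⟨k1, hk1, hk⟩ := nK.exists_ne k0
    intro huniv
    have h1 : (k1 - k0)⁻¹ ∈ {w : ℂ | w = 0 ∨ k0 + w⁻¹ ∉ K} := huniv ▸ mem_univ _
    rcases h1 with h1 | h1
    · exact inv_ne_zero (sub_ne_zero.mpr hk) h1
    · rw [inv_inv, add_sub_cancel] at h1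
      exact h1 hk1

end CF6

end

section

/-!
# A19: existence of the Riemann map of the complement of a continuum

UNBOUNDED `K`: `Kᶜ` is open, connected, `NoHole` (`noHole_of_conn`), not `univ`. `rmt`: `F : ball 0 1 → Kᶜ`, inverse `ρ` (`univ_inverse`),
`Φ u = F (exp (I * u))`; for `u ∈ UHP`: `‖exp (I u)‖ = exp (-im u) < 1`. `at0`: `w0 = F 0`. `logs`: `(F - k)/(F - k')` is holomorphic and nonvanishing
on the ball (`F ζ ∉ K`), `holo_log` with `noHole_ball` gives `ℓ`, `Λ u = ℓ (exp (I * u))`. `log1`: the same for `F - k`.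
`right`: `ρ w = ζ ≠ 0`, `u = -I * log ζ`, `exp (I u) = ζ`, `im u = - log ‖ζ‖ > 0`.

BOUNDED `K` (compact): `k0 ∈ K`, `G = {w | w = 0 ∨ k0 + w⁻¹ ∉ K}`.
 * open: at `w ≠ 0` by continuity of the inverse and closedness of `K`; at `0`: `K ⊆ closedBall k0 R`, so `0 < ‖w‖ < 1/R` implies
   `‖w⁻¹‖ > R`, `k0 + w⁻¹ ∉ K`.
 * connected: `G \ {0}` is the image of the connected `Kᶜ` under `v ↦ (v - k0)⁻¹` (continuous, `v ≠ k0` as `k0 ∈ K`); `0` is in its closure.
 * `NoHole G`: `A` closed, `B` compact, disjoint, `A ∪ B = Gᶜ`; `0 ∉ B`. `B' = (fun w => k0 + w⁻¹) '' B` is compact,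
   `A' = {k0} ∪ {v | v ∈ K ∧ v ≠ k0 ∧ (v - k0)⁻¹ ∈ A}` is closed (a limit point `v ≠ k0` is in `K` and `(v - k0)⁻¹ ∈ A`),
   disjoint, `A' ∪ B' = K`. `K` connected and `k0 ∈ A'`: `B' = ∅`, `B = ∅`.
 * `G ≠ univ`: `k1 ∈ K`, `k1 ≠ k0`, `(k1 - k0)⁻¹ ∉ G`.
 `rmt` with `z0 = 0`: `F : ball → G`, `F 0 = 0`; inverse `g`. `Φ u = k0 + (F (exp (I u)))⁻¹`, `ρ w = g ((w - k0)⁻¹)`.
 `mem`: `F ζ ∈ G`, `F ζ ≠ 0` for `ζ ≠ 0`. `at0`, second alternative: `exp (I u) → 0`, so `F → 0`, `Φ → ∞`.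
 `logs`: `(Φ - k)/(Φ - k') = ((k0 - k) F + 1)/((k0 - k') F + 1)` at `ζ = exp (I u)`; both factors are holomorphic and
 nonvanishing on the ball (`(k0 - k) F ζ + 1 = 0` implies `k0 + (F ζ)⁻¹ = k ∈ K`, `F ζ ≠ 0`, contradiction). `log1` is vacuous.
-/

open Complex Set Filter Topology Metric

namespace CF6

theorem exists_collar_bounded {K : Set ℂ} (hK : IsCompact K) (cK : IsConnected K)
    (nK : K.Nontrivial) (hc : IsConnected Kᶜ) : ∃ Φ ρ : ℂ → ℂ, Collar K Φ ρ := by
  obtain ⟨k0, h0⟩ := nK.nonempty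
  obtain ⟨oG, cG, nG, neG⟩ := inv_domain hK cK nK hc h0
  set G : Set ℂ := {w : ℂ | w = 0 ∨ k0 + w⁻¹ ∉ K} with hG
  have h0G : (0 : ℂ) ∈ G := Or.inl rfl
  obtain ⟨F, hFd, hFi, hFim, hF0⟩ := rmt oG cG nG neG h0G
  obtain ⟨g, hgd, hgl, hgr⟩ := univ_inverse isOpen_ball hFd hFi
  rw [hFim] at hgd hgr
  have hz : (0 : ℂ) ∈ ball (0 : ℂ) 1 := mem_ball_self one_pos
  have hFG : ∀ ζ ∈ ball (0 : ℂ) 1, F ζ ∈ G := fun ζ hζ => hFim ▸ mem_image_of_mem F hζ
  have hFne : ∀ ζ ∈ ball (0 : ℂ) 1, ζ ≠ 0 → F ζ ≠ 0 := by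
    intro ζ hζ hne h
    exact hne (hFi hζ hz (by rw [h, hF0]))
  have hFK : ∀ ζ ∈ ball (0 : ℂ) 1, F ζ ≠ 0 → k0 + (F ζ)⁻¹ ∉ K := by
    intro ζ hζ hne
    rcases hFG ζ hζ with h | h
    · exact absurd h hne
    · exact h
  have hexp : ∀ u : ℂ, exp (I * u) ≠ 0 := fun u => Complex.exp_ne_zero _
  have hFu : ∀ u ∈ UHP, F (exp (I * u)) ≠ 0 := fun u hu => hFne _ (a19_exp_mem hu) (hexp u)
  have hinvG : ∀ w ∉ K, (w - k0)⁻¹ ∈ G := by
    intro w hw
    right
    rw [inv_inv, add_sub_cancel]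
    exact hw
  have hwk : ∀ w ∉ K, w - k0 ≠ 0 := by
    intro w hw h
    rw [sub_eq_zero] at h
    exact hw (h ▸ h0)
  have hnz : ∀ k ∈ K, ∀ z ∈ ball (0 : ℂ) 1, (k0 - k) * F z + 1 ≠ 0 := by
    intro k hk z hz' h
    have hF1 : F z ≠ 0 := by
      intro h2
      rw [h2, mul_zero, zero_add] at h
      exact one_ne_zero h
    apply hFK z hz' hF1
    have : k0 + (F z)⁻¹ = k := by
      field_simp
      linear_combination h
    rw [this]
    exact hk
  refine ⟨fun u => k0 + (F (exp (I * u)))⁻¹, fun w => g ((w - k0)⁻¹),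
    ⟨hK.isClosed, cK, nK, ?_, ?_, ?_, ?_, ?_, ?_, ?_, ?_, ?_, ?_⟩⟩
  · intro u hu
    have h1 := (hFd.differentiableAt (isOpen_ball.mem_nhds (a19_exp_mem hu)))
    have h2 : DifferentiableAt ℂ (fun u : ℂ => exp (I * u)) u := by fun_prop
    have h3 : DifferentiableAt ℂ (fun u : ℂ => F (exp (I * u))) u := h1.comp u h2
    exact ((h3.inv (hFu u hu)).const_add k0).differentiableWithinAt
  · intro w hw
    have h1 := (hgd.differentiableAt (oG.mem_nhds (hinvG w hw)))
    have h2 : DifferentiableAt ℂ (fun w : ℂ => (w - k0)⁻¹) w :=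
      (differentiableAt_id.sub_const k0).inv (hwk w hw)
    exact (h1.comp w h2).differentiableWithinAt
  · intro u hu
    exact hFK _ (a19_exp_mem hu) (hFu u hu)
  · intro u hu
    simp only [add_sub_cancel_left, inv_inv]
    exact hgl _ (a19_exp_mem hu)
  · intro w hw
    exact (hgr _ (hinvG w hw)).1
  · intro w hw w' hw' h
    simp only at h
    have h1 : (w - k0)⁻¹ = (w' - k0)⁻¹ := by
      rw [← (hgr _ (hinvG w hw)).2, ← (hgr _ (hinvG w' hw')).2, h]
    have h2 := inv_injective h1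
    exact sub_left_injective h2
  · intro w hw hne
    obtain ⟨u, hu, hue⟩ := a19_exists_log (hgr _ (hinvG w hw)).1 hne
    refine ⟨u, hu, ?_⟩
    change k0 + (F (exp (I * u)))⁻¹ = w
    rw [hue, (hgr _ (hinvG w hw)).2, inv_inv, add_sub_cancel]
  · right
    refine ⟨hK.isBounded, fun R => ?_⟩
    set R' : ℝ := |R| + 1 + ‖k0‖ with hR'
    have hR'0 : 0 < R' := by positivity
    have hcont : ContinuousAt F 0 :=
      (hFd.differentiableAt (isOpen_ball.mem_nhds hz)).continuousAt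
    obtain ⟨δ, hδ, hδF⟩ := Metric.continuousAt_iff.mp hcont (1 / R') (by positivity)
    refine ⟨max 0 (-Real.log δ), fun u hu => ?_⟩
    have hu0 : u ∈ UHP := lt_of_le_of_lt (le_max_left _ _) hu
    have hu1 : ‖exp (I * u)‖ < δ := by
      rw [Complex.norm_exp]
      have h1 : (I * u).re = -u.im := by simp
      rw [h1]
      calc Real.exp (-u.im) < Real.exp (Real.log δ) := by
            apply Real.exp_lt_exp.mpr
            have := lt_of_le_of_lt (le_max_right 0 (-Real.log δ)) hu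
            linarith
        _ = δ := Real.exp_log hδ
    have h2 := hδF (x := exp (I * u)) (by rwa [dist_zero_right])
    rw [hF0, dist_zero_right] at h2
    have h3 : 0 < ‖F (exp (I * u))‖ := norm_pos_iff.mpr (hFu u hu0)
    have h4 : R' < ‖(F (exp (I * u)))⁻¹‖ := by
      rw [norm_inv]
      rw [lt_div_iff₀ hR'0] at h2
      rw [lt_inv_comm₀ hR'0 h3, ← one_div]
      rw [lt_div_iff₀ hR'0]
      exact h2
    have h5 : ‖(F (exp (I * u)))⁻¹‖ ≤ ‖k0 + (F (exp (I * u)))⁻¹‖ + ‖k0‖ := by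
      calc ‖(F (exp (I * u)))⁻¹‖ = ‖(k0 + (F (exp (I * u)))⁻¹) - k0‖ := by ring_nf
        _ ≤ _ := norm_sub_le _ _
    have h6 := le_abs_self R
    change R < ‖k0 + (F (exp (I * u)))⁻¹‖
    linarith
  · intro k hk k' hk'
    obtain ⟨Λ, hΛ1, hΛ2, hΛ3⟩ := a19_log
      (h := fun z => ((k0 - k) * F z + 1) / ((k0 - k') * F z + 1))
      (((hFd.const_mul (k0 - k)).add_const 1).div ((hFd.const_mul (k0 - k')).add_const 1)
        fun z hz' => hnz k' hk' z hz')
      fun z hz' => div_ne_zero (hnz k hk z hz') (hnz k' hk' z hz')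
    refine ⟨Λ, hΛ1, fun u hu => ?_, hΛ3⟩
    rw [hΛ2 u hu]
    have h1 := hFu u hu
    have h2 := hnz k hk _ (a19_exp_mem hu)
    have h3 := hnz k' hk' _ (a19_exp_mem hu)
    have h4 : k0 + (F (exp (I * u)))⁻¹ - k' = ((k0 - k') * F (exp (I * u)) + 1) /
        F (exp (I * u)) := by
      field_simp
      ring
    have h5 : k0 + (F (exp (I * u)))⁻¹ - k = ((k0 - k) * F (exp (I * u)) + 1) /
        F (exp (I * u)) := by
      field_simp
      ring
    rw [h4, h5, div_div_div_cancel_right₀ h1]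
  · intro hb
    exact absurd hK.isBounded hb

theorem exists_collar {K : Set ℂ} (hK : IsClosed K) (cK : IsConnected K)
    (nK : K.Nontrivial) (hc : IsConnected Kᶜ) : ∃ Φ ρ : ℂ → ℂ, Collar K Φ ρ := by
  by_cases hb : Bornology.IsBounded K
  · exact exists_collar_bounded (Metric.isCompact_of_isClosed_isBounded hK hb) cK nK hc
  · exact exists_collar_unbounded hK cK nK hb hc

end CF6

end

section

/-!
# A20: limits of the maps `ρ ∘ hj` (statements `exists_limData`, `LimData.basic` of Iface)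

* `exists_limData`: `f j x = ρ (hj j x)`, bounded by `1`. Locally equicontinuous: let `x ∈ Ω`, `ε > 0`. Take `ball x r1 ⊆ Ω`,
  `R` with `‖hj j z‖ ≤ R` for `z ∈ ball x r1`, all `j` (locally uniform convergence, finitely many exceptions are continuous).
  `wolff hK R ε` gives `d`. There is `r ≤ r1` with `dist (hj j z) (hj j z') ≤ d` for `z, z' ∈ ball x r`, all `j` (equicontinuity of a
  locally uniformly convergent sequence: for `j ≥ j0` via `h`, for `j < j0` by continuity). `S = hj j '' ball x r` is preconnected,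
  contained in `Kᶜ ∩ closedBall 0 R`. So `dist (ρ (hj j z)) (ρ (hj j x)) ≤ ε`. `arzela`.
* `LimData.basic`: `h`, `g` continuous as locally uniform limits (`hj j` and `ρ ∘ hj j` are continuous, `dRho`). `‖g‖ ≤ 1`. If `h x ∉ K`:
  `ρ (hj j x) → ρ (h x)` by continuity of `ρ` at `h x` (`Kᶜ` open), `‖ρ (h x)‖ < 1`. If `‖g x‖ < 1` then `h x ∉ K`: `ζ = g x`. Claim `ζ ∈ ρ '' Kᶜ`
  or `hj j x → ∞` (impossible). `ζ ≠ 0`: `u = -I * log ζ ∈ UHP`, `ρ (Φ u) = ζ`. `ζ = 0`: `at0`; first alternative clear; otherwise (no `w0`)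
  all `ρ (hj j x) ≠ 0`, `hj j x = Φ uj` (`right`), `‖ρ (hj j x)‖ = exp (- im uj) → 0`, `im uj → ∞`, `‖hj j x‖ → ∞`. When `ζ = ρ w1`, `w1 ∉ K`: the inverse of
  the injective holomorphic `ρ` is continuous at `ζ` (`univ_inverse` on the open `Kᶜ`, whose image is open), so `hj j x → w1`, `h x = w1 ∉ K`.
-/

open Complex MeasureTheory Set Filter Topology Metric

namespace CF6

theorem a20_equi {Ω : Set ℂ} (hO : IsOpen Ω) {h : ℂ → ℂ} {hj : ℕ → ℂ → ℂ}
    (chj : ∀ j, ContinuousOn (hj j) Ω) (lim : TendstoLocallyUniformlyOn hj h atTop Ω)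
    {x : ℂ} (hx : x ∈ Ω) {δ : ℝ} (hδ : 0 < δ) :
    ∀ᶠ z in 𝓝 x, ∀ j, dist (hj j z) (hj j x) ≤ δ := by
  have hcont : ContinuousOn h Ω := lim.continuousOn (Filter.Frequently.of_forall chj)
  have hxa : ContinuousAt h x := hcont.continuousAt (hO.mem_nhds hx)
  obtain ⟨t, ht, htn⟩ := Metric.tendstoLocallyUniformlyOn_iff.mp lim (δ / 3) (by positivity) x hx
  rw [hO.nhdsWithin_eq hx] at ht
  obtain ⟨j0, hj0⟩ := Filter.eventually_atTop.mp htn
  have h1 : ∀ᶠ z in 𝓝 x, dist (h z) (h x) < δ / 3 :=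
    hxa.eventually (ball_mem_nhds (h x) (by positivity))
  have h2 : ∀ᶠ z in 𝓝 x, ∀ j ∈ Finset.range j0, dist (hj j z) (hj j x) < δ := by
    rw [Filter.eventually_all_finset]
    intro j _
    exact ((chj j).continuousAt (hO.mem_nhds hx)).eventually (ball_mem_nhds _ hδ)
  filter_upwards [h1, h2, ht] with z hz1 hz2 hzt j
  by_cases hjj : j < j0
  · exact (hz2 j (Finset.mem_range.mpr hjj)).le
  · push Not at hjj
    have h3 := hj0 j hjj z hzt
    have h4 := hj0 j hjj x (mem_of_mem_nhds ht)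
    calc dist (hj j z) (hj j x) ≤ dist (hj j z) (h z) + dist (h z) (h x) + dist (h x) (hj j x) :=
          dist_triangle4 _ _ _ _
      _ ≤ δ / 3 + δ / 3 + δ / 3 := by
          rw [dist_comm (hj j z) (h z)]
          exact add_le_add (add_le_add h3.le hz1.le) h4.le
      _ = δ := by ring

theorem exists_limData_thm {Ω K : Set ℂ} {Φ ρ : ℂ → ℂ} (hK : Collar K Φ ρ) (hO : IsOpen Ω)
    (hc : IsConnected Ω) (h : ℂ → ℂ) (hj : ℕ → ℂ → ℂ) (chj : ∀ j, ContinuousOn (hj j) Ω)
    (avoid : ∀ j, MapsTo (hj j) Ω Kᶜ) (lim : TendstoLocallyUniformlyOn hj h atTop Ω)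
    (nc : ∃ x ∈ Ω, h x ∉ K)
    (wolff : ∀ (R : ℝ), ∀ η > (0 : ℝ), ∃ d > (0 : ℝ), ∀ S ⊆ Kᶜ ∩ closedBall 0 R, IsPreconnected S →
      (∀ x ∈ S, ∀ y ∈ S, dist x y ≤ d) → ∀ x ∈ S, ∀ y ∈ S, dist (ρ x) (ρ y) ≤ η) :
    ∃ (s : ℕ → ℕ) (g : ℂ → ℂ), StrictMono s ∧ LimData Ω K ρ h g (fun j => hj (s j)) := by
  obtain ⟨s, hs, g, hg⟩ := arzela hO (f := fun j x => ρ (hj j x)) (by
    intro z hz
    refine ⟨1, fun n => ?_⟩
    have := hK.maps (avoid n hz)
    rw [mem_ball_zero_iff] at this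
    exact this.le) (by
    intro x hx ε hε
    obtain ⟨B, hB⟩ := (lim.tendsto_at hx).norm.bddAbove_range
    obtain ⟨d, hd, hwd⟩ := wolff (B + 1) ε hε
    have hev : ∀ᶠ z in 𝓝 x, (∀ j, dist (hj j z) (hj j x) ≤ min (d / 2) 1) ∧ z ∈ Ω :=
      (a20_equi hO chj lim hx (lt_min (by positivity) one_pos)).and (hO.mem_nhds hx)
    obtain ⟨r, hr, hball⟩ := Metric.eventually_nhds_iff_ball.mp hev
    refine ⟨r, hr, fun n w hw => ?_⟩
    rw [← dist_eq_norm]
    refine hwd (hj n '' ball x r) ?_ ?_ ?_ _ (mem_image_of_mem _ hw.1) _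
      (mem_image_of_mem _ (mem_ball_self hr))
    · rintro _ ⟨z, hz, rfl⟩
      refine ⟨avoid n (hball z hz).2, ?_⟩
      rw [mem_closedBall_zero_iff]
      have h1 : ‖hj n x‖ ≤ B := hB (mem_range_self n)
      have h2 := ((hball z hz).1 n).trans (min_le_right _ _)
      rw [dist_eq_norm] at h2
      calc ‖hj n z‖ = ‖hj n x + (hj n z - hj n x)‖ := by ring_nf
        _ ≤ ‖hj n x‖ + ‖hj n z - hj n x‖ := norm_add_le _ _
        _ ≤ B + 1 := add_le_add h1 h2
    · exact (convex_ball x r).isPreconnected.image _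
        ((chj n).mono fun z hz => (hball z hz).2)
    · rintro _ ⟨z, hz, rfl⟩ _ ⟨z', hz', rfl⟩
      have h1 := ((hball z hz).1 n).trans (min_le_left _ _)
      have h2 := ((hball z' hz').1 n).trans (min_le_left _ _)
      calc dist (hj n z) (hj n z') ≤ dist (hj n z) (hj n x) + dist (hj n z') (hj n x) :=
            dist_triangle_right _ _ _
        _ ≤ d / 2 + d / 2 := add_le_add h1 h2
        _ = d := by ring)
  refine ⟨s, g, hs, hO, hc, fun j => chj (s j), fun j => avoid (s j), ?_, hg, nc⟩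
  intro u hu x hx
  obtain ⟨t, ht, h1⟩ := lim u hu x hx
  exact ⟨t, ht, hs.tendsto_atTop.eventually h1⟩

end CF6

end

section

/-!
# A20: limits of the maps `ρ ∘ hj` (statements `exists_limData`, `LimData.basic` of Iface)

* `exists_limData`: `f j x = ρ (hj j x)`, bounded by `1`. Locally equicontinuous: let `x ∈ Ω`, `ε > 0`. Take `ball x r1 ⊆ Ω`,
  `R` with `‖hj j z‖ ≤ R` for `z ∈ ball x r1`, all `j` (locally uniform convergence, finitely many exceptions are continuous).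
  `wolff hK R ε` gives `d`. There is `r ≤ r1` with `dist (hj j z) (hj j z') ≤ d` for `z, z' ∈ ball x r`, all `j` (equicontinuity of a
  locally uniformly convergent sequence: for `j ≥ j0` via `h`, for `j < j0` by continuity). `S = hj j '' ball x r` is preconnected,
  contained in `Kᶜ ∩ closedBall 0 R`. So `dist (ρ (hj j z)) (ρ (hj j x)) ≤ ε`. `arzela`.
* `LimData.basic`: `h`, `g` continuous as locally uniform limits (`hj j` and `ρ ∘ hj j` are continuous, `dRho`). `‖g‖ ≤ 1`. If `h x ∉ K`: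
  `ρ (hj j x) → ρ (h x)` by continuity of `ρ` at `h x` (`Kᶜ` open), `‖ρ (h x)‖ < 1`. If `‖g x‖ < 1` then `h x ∉ K`: `ζ = g x`. Claim `ζ ∈ ρ '' Kᶜ`
  or `hj j x → ∞` (impossible). `ζ ≠ 0`: `u = -I * log ζ ∈ UHP`, `ρ (Φ u) = ζ`. `ζ = 0`: `at0`; first alternative clear; otherwise (no `w0`)
  all `ρ (hj j x) ≠ 0`, `hj j x = Φ uj` (`right`), `‖ρ (hj j x)‖ = exp (- im uj) → 0`, `im uj → ∞`, `‖hj j x‖ → ∞`. When `ζ = ρ w1`, `w1 ∉ K`: the inverse of
  the injective holomorphic `ρ` is continuous at `ζ` (`univ_inverse` on the open `Kᶜ`, whose image is open), so `hj j x → w1`, `h x = w1 ∉ K`.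
-/

open Complex MeasureTheory Set Filter Topology Metric

namespace CF6

theorem a20b_exists_log {ζ : ℂ} (hζ : ‖ζ‖ < 1) (h0 : ζ ≠ 0) :
    ∃ u ∈ UHP, exp (I * u) = ζ := by
  refine ⟨-I * log ζ, ?_, ?_⟩
  · have h1 : (-I * log ζ).im = -(Real.log ‖ζ‖) := by
      simp [Complex.log_re]
    have h2 : Real.log ‖ζ‖ < 0 := Real.log_neg (norm_pos_iff.mpr h0) hζ
    change 0 < (-I * log ζ).im
    rw [h1]
    linarith
  · have h1 : I * (-I * log ζ) = log ζ := by
      have := Complex.I_mul_I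
      linear_combination (-log ζ) * this
    rw [h1, Complex.exp_log h0]

theorem limData_basic_thm {Ω K : Set ℂ} {Φ ρ : ℂ → ℂ} (hK : Collar K Φ ρ) {h g : ℂ → ℂ}
    {hj : ℕ → ℂ → ℂ} (H : LimData Ω K ρ h g hj) :
    ContinuousOn h Ω ∧ ContinuousOn g Ω ∧ (∀ x ∈ Ω, ‖g x‖ ≤ 1) ∧
      (∀ x ∈ Ω, h x ∈ K ↔ ‖g x‖ = 1) ∧ (∀ x ∈ Ω, h x ∉ K → ρ (h x) = g x) := by
  have hop : IsOpen Kᶜ := hK.closed.isOpen_compl
  have hle : ∀ x ∈ Ω, ‖g x‖ ≤ 1 := by
    intro x hx
    refine le_of_tendsto (H.glim.tendsto_at hx).norm (Filter.Eventually.of_forall fun n => ?_)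
    have := hK.maps (H.avoid n hx)
    rw [mem_ball_zero_iff] at this
    exact this.le
  have key1 : ∀ x ∈ Ω, h x ∉ K → ρ (h x) = g x := by
    intro x hx hxK
    have hc : ContinuousAt ρ (h x) := (hK.dRho.differentiableAt (hop.mem_nhds hxK)).continuousAt
    have h1 : Tendsto (fun j => ρ (hj j x)) atTop (𝓝 (ρ (h x))) :=
      hc.tendsto.comp (H.lim.tendsto_at hx)
    exact tendsto_nhds_unique h1 (H.glim.tendsto_at hx)
  have key2 : ∀ x ∈ Ω, ‖g x‖ < 1 → h x ∉ K := by
    intro x hx hgx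
    have hlimx := H.lim.tendsto_at hx
    have hglimx : Tendsto (fun j => ρ (hj j x)) atTop (𝓝 (g x)) := H.glim.tendsto_at hx
    have hex : ∃ w1, w1 ∉ K ∧ ρ w1 = g x := by
      by_cases h0 : g x = 0
      · rcases hK.at0 with ⟨w0, hw0, hw0'⟩ | ⟨-, hfar⟩
        · exact ⟨w0, hw0, by rw [hw0', h0]⟩
        · by_contra hcon
          push Not at hcon
          have hne : ∀ j, ρ (hj j x) ≠ 0 := by
            intro j hj0
            exact hcon _ (H.avoid j hx) (by rw [hj0, h0])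
          choose u hu hΦ using fun j => hK.right (hj j x) (H.avoid j hx) (hne j)
          obtain ⟨y, hy⟩ := hfar (‖h x‖ + 1)
          have h1 : Tendsto (fun j => ‖ρ (hj j x)‖) atTop (𝓝 0) := by
            have := hglimx.norm
            rwa [h0, norm_zero] at this
          have h2 : ∀ᶠ j in atTop, ‖ρ (hj j x)‖ < Real.exp (-y) :=
            h1.eventually (gt_mem_nhds (Real.exp_pos _))
          have h3 : ∀ᶠ j in atTop, ‖hj j x‖ < ‖h x‖ + 1 :=
            hlimx.norm.eventually (gt_mem_nhds (by linarith))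
          obtain ⟨j, hj2, hj3⟩ := (h2.and h3).exists
          have h4 : ρ (hj j x) = exp (I * u j) := by
            have := hK.left (u j) (hu j)
            rwa [hΦ j] at this
          rw [h4, Complex.norm_exp, Real.exp_lt_exp] at hj2
          have h5 : (I * u j).re = -(u j).im := by simp
          rw [h5] at hj2
          have h6 := hy (u j) (by linarith)
          rw [hΦ j] at h6
          linarith
      · obtain ⟨u, hu, hue⟩ := a20b_exists_log hgx h0
        exact ⟨Φ u, hK.mem u hu, by rw [hK.left u hu, hue]⟩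
    obtain ⟨w1, hw1, hρw1⟩ := hex
    obtain ⟨g', hg'd, hg'l, -⟩ := univ_inverse hop hK.dRho hK.inj
    have hopen : IsOpen (ρ '' Kᶜ) := univ_open hop subset_rfl hop hK.dRho hK.inj
    have hmem : g x ∈ ρ '' Kᶜ := ⟨w1, hw1, hρw1⟩
    have hc : ContinuousAt g' (g x) := (hg'd.differentiableAt (hopen.mem_nhds hmem)).continuousAt
    have h1 : Tendsto (fun j => g' (ρ (hj j x))) atTop (𝓝 (g' (g x))) := hc.tendsto.comp hglimx
    have h2 : Tendsto (fun j => hj j x) atTop (𝓝 (g' (g x))) :=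
      h1.congr fun j => hg'l _ (H.avoid j hx)
    have h3 : h x = g' (g x) := tendsto_nhds_unique hlimx h2
    rw [h3, ← hρw1, hg'l w1 hw1]
    exact hw1
  refine ⟨H.lim.continuousOn (Filter.Frequently.of_forall H.chj),
    H.glim.continuousOn (Filter.Frequently.of_forall fun j =>
      hK.dRho.continuousOn.comp (H.chj j) (H.avoid j)), hle, ?_, key1⟩
  intro x hx
  constructor
  · intro hxK
    by_contra hne
    exact key2 x hx (lt_of_le_of_ne (hle x hx) hne) hxK
  · intro h1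
    by_contra hxK
    have h2 := hK.maps hxK
    rw [mem_ball_zero_iff, key1 x hx hxK, h1] at h2
    exact lt_irrefl _ h2

end CF6

end

section

/-!
# A21: the logarithmic cover of `ball 0 1 \ X`, `0 ∈ X`

`logCover X = {ζ | ζ.re < 0 ∧ exp ζ ∉ X}`; `‖exp ζ‖ = exp ζ.re < 1`. It is invariant under `ζ ↦ ζ ± 2πi`.
* `logCover_strip`: `X ⊆ closedBall 0 r1`, `0 < r1 < 1` (X compact in the ball). So `{ζ | log r1 < ζ.re < 0} ⊆ logCover X`.
* `logCover_conn`: `Λ = {ζ | ζ.re = t}` with `log r1 < t < 0` is connected (a line), contained in `C = logCover X`. Suppose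
  `C ⊆ P ∪ Q` open, `C ∩ P ∩ Q = ∅`; WLOG `Λ ⊆ P`. `B = {z ∈ ball 0 1 \ X | ∀ ζ, exp ζ = z → ζ ∈ P}`. `B` contains the circle
  `‖z‖ = exp t` (nonempty). CLAIM: every `z1 ∈ ball 0 1 \ X` has a ball `D = ball z1 r ⊆ ball 0 1 \ X`, `r ≤ ‖z1‖`, such that either
  `D ⊆ B` or `D ∩ B = ∅`. For `ζ1` with `exp ζ1 = z1` the set `D(ζ1) = {ζ1 + log (z/z1) | z ∈ D}` (principal branch, `re (z/z1) > 0`) is
  connected, contained in `C`, contains `ζ1`; the logarithms of `z ∈ D` are exactly `ζ1 + log (z/z1) + 2πi n`. If `z1 ∈ B`, all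
  `ζ1 + 2πi n ∈ P`, so all `D(ζ1 + 2πi n) ⊆ P` (connected, in `C`): `D ⊆ B`. If `z1 ∉ B` some logarithm `ζ1 ∈ Q`, so `D(ζ1) ⊆ Q`, `D ∩ B = ∅`.
  So `B` and its complement in the connected `ball 0 1 \ X` are open: `B` is everything. Hence `C ⊆ P`, `C ∩ Q = ∅`.
* `logCover_noHole`: let `A ∪ B = (logCover X)ᶜ`, `A` closed, `B` compact, disjoint. `H = {ζ | 0 ≤ ζ.re} ⊆ A ∪ B` is connected and unbounded,
  so `H ⊆ A` (preconnected in the disjoint union of closed sets; not contained in the bounded `B`). So `B ⊆ {ζ | exp ζ ∈ X}`, and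
  `J = exp '' B ⊆ X \ {0}` is compact. `X \ J` is closed: let `zn ∈ X \ J → z`, and suppose `z = exp ζ`, `ζ ∈ B`. Then
  `ζn = ζ + log (zn / z) → ζ` has `exp ζn = zn ∈ X`, so `ζn ∈ (logCover X)ᶜ`, `ζn ∉ B` (as `zn ∉ J`), so `ζn ∈ A`, `ζ ∈ A`: contradiction.
  `X` connected, `0 ∈ X \ J`: `J = ∅`, `B = ∅`.
-/

open Complex Set Filter Topology Metric

namespace CF6

theorem logCover_isOpen {X : Set ℂ} (hX : IsClosed X) : IsOpen (logCover X) := by
  have h1 : IsOpen {ζ : ℂ | ζ.re < 0} := isOpen_lt continuous_re continuous_const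
  have h2 : IsOpen (exp ⁻¹' Xᶜ) := hX.isOpen_compl.preimage continuous_exp
  exact h1.inter h2

theorem logCover_add {X : Set ℂ} (n : ℤ) {ζ : ℂ} :
    ζ + 2 * Real.pi * n * I ∈ logCover X ↔ ζ ∈ logCover X := by
  have h1 : exp (ζ + 2 * Real.pi * n * I) = exp ζ := by
    have h := (Complex.exp_periodic.int_mul n) ζ
    rw [← h]
    congr 1
    ring
  have h2 : (ζ + 2 * Real.pi * n * I).re = ζ.re := by
    have : (2 * Real.pi * n * I : ℂ) = ((2 * Real.pi * n : ℝ) : ℂ) * I := by push_cast; ring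
    rw [this, add_re, re_ofReal_mul, I_re, mul_zero, add_zero]
  unfold logCover
  rw [mem_ofPred_eq, mem_ofPred_eq, h1, h2]

theorem logCover_image {X : Set ℂ} (h0 : (0 : ℂ) ∈ X) : exp '' logCover X = ball 0 1 \ X := by
  ext z
  constructor
  · rintro ⟨ζ, ⟨h1, h2⟩, rfl⟩
    refine ⟨?_, h2⟩
    rw [mem_ball_zero_iff, norm_exp]
    exact Real.exp_lt_one_iff.2 h1
  · rintro ⟨h1, h2⟩
    have hz : z ≠ 0 := fun h => h2 (h ▸ h0)
    refine ⟨log z, ⟨?_, ?_⟩, exp_log hz⟩
    · rw [log_re]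
      rw [mem_ball_zero_iff] at h1
      exact Real.log_neg (norm_pos_iff.2 hz) h1
    · rwa [exp_log hz]

theorem logCover_strip {X : Set ℂ} (hX : IsCompact X) (hs : X ⊆ ball 0 1) :
    ∃ t < (0 : ℝ), ∀ ζ : ℂ, t < ζ.re → ζ.re < 0 → ζ ∈ logCover X := by
  obtain ⟨r, hr0, hr1, hr⟩ : ∃ r : ℝ, 0 < r ∧ r < 1 ∧ ∀ x ∈ X, ‖x‖ ≤ r := by
    rcases X.eq_empty_or_nonempty with h | h
    · exact ⟨1 / 2, by norm_num, by norm_num, fun x hx => by rw [h] at hx; exact hx.elim⟩
    · obtain ⟨x, hx, hmax⟩ := hX.exists_isMaxOn h continuous_norm.continuousOn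
      have hx1 : ‖x‖ < 1 := mem_ball_zero_iff.1 (hs hx)
      refine ⟨max ‖x‖ (1 / 2), lt_max_of_lt_right (by norm_num), max_lt hx1 (by norm_num),
        fun y hy => (hmax hy).trans (le_max_left _ _)⟩
  refine ⟨Real.log r, Real.log_neg hr0 hr1, fun ζ h1 h2 => ⟨h2, fun h3 => ?_⟩⟩
  have h4 := hr _ h3
  rw [norm_exp] at h4
  have h5 : r < Real.exp ζ.re := (Real.log_lt_iff_lt_exp hr0).1 h1
  linarith

theorem logCover_noHole {X : Set ℂ} (hX : IsCompact X) (hs : X ⊆ ball 0 1) (h0 : (0 : ℂ) ∈ X)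
    (cX : IsConnected X) : NoHole (logCover X) := by
  intro A B hA hB hAB hU
  have hdis : ∀ ζ, ζ ∈ A → ζ ∈ B → False := fun ζ h1 h2 => Set.disjoint_left.1 hAB h1 h2
  have hcompl : ∀ ζ, ζ ∉ logCover X → ζ ∈ A ∨ ζ ∈ B := by
    intro ζ hζ
    have : ζ ∈ A ∪ B := by rw [hU]; exact hζ
    exact this
  have hmem : ∀ ζ, ζ ∈ A ∪ B → ζ ∉ logCover X := by
    intro ζ hζ
    rw [hU] at hζ
    exact hζ
  -- the right half plane
  have hHc : IsPreconnected {ζ : ℂ | 0 ≤ ζ.re} := by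
    have : Convex ℝ {ζ : ℂ | 0 ≤ ζ.re} := convex_halfSpace_re_ge 0
    exact this.isPreconnected
  have hHs : {ζ : ℂ | 0 ≤ ζ.re} ⊆ A ∪ B := by
    intro ζ hζ
    refine hcompl ζ fun h => ?_
    have h1 : (0 : ℝ) ≤ ζ.re := hζ
    linarith [h.1]
  have hHA : {ζ : ℂ | 0 ≤ ζ.re} ⊆ A := by
    rcases isPreconnected_iff_subset_of_disjoint_closed.1 hHc A B hA hB.isClosed hHs
      (by
        rw [Set.disjoint_iff_inter_eq_empty.1 hAB, inter_empty]) with h | h
    · exact h
    · exfalso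
      obtain ⟨R, hR⟩ := hB.isBounded.exists_norm_le
      have h1 : ((|R| + 1 : ℝ) : ℂ) ∈ B := by
        refine h ?_
        rw [mem_ofPred_eq, ofReal_re]
        positivity
      have h2 := hR _ h1
      rw [norm_real, Real.norm_eq_abs, abs_of_nonneg (by positivity)] at h2
      have := le_abs_self R
      linarith
  have hBX : ∀ ζ ∈ B, exp ζ ∈ X := by
    intro ζ hζ
    by_contra hcon
    refine hmem ζ (Or.inr hζ) ⟨?_, hcon⟩
    by_contra hre
    exact hdis ζ (hHA (not_lt.1 hre)) hζ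
  have hJ : IsCompact (exp '' B) := hB.image continuous_exp
  have hK : IsClosed (X \ exp '' B) := by
    refine isClosed_of_closure_subset fun z hz => ?_
    have hzX : z ∈ X := closure_minimal sdiff_subset hX.isClosed hz
    refine ⟨hzX, ?_⟩
    rintro ⟨ζ, hζB, rfl⟩
    have hζA : ζ ∈ closure A := by
      rw [mem_closure_iff_nhds]
      intro U hUn
      have hmap : exp '' U ∈ 𝓝 (exp ζ) := by
        rw [← (hasStrictDerivAt_exp ζ).map_nhds_eq (exp_ne_zero ζ)]
        exact image_mem_map hUn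
      obtain ⟨w, ⟨ξ, hξU, hξw⟩, hwX, hwJ⟩ := mem_closure_iff_nhds.1 hz _ hmap
      refine ⟨ξ, hξU, ?_⟩
      have hξ : ξ ∉ logCover X := fun h => h.2 (by rw [hξw]; exact hwX)
      rcases hcompl ξ hξ with h | h
      · exact h
      · exact absurd ⟨ξ, h, hξw⟩ hwJ
    rw [hA.closure_eq] at hζA
    exact hdis ζ hζA hζB
  rcases isPreconnected_iff_subset_of_disjoint_closed.1 cX.isPreconnected (exp '' B)
    (X \ exp '' B) hJ.isClosed hK (fun x hx => by
      by_cases h : x ∈ exp '' B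
      · exact Or.inl h
      · exact Or.inr ⟨hx, h⟩) (by
      ext x
      simp only [mem_inter_iff, Set.mem_sdiff, mem_empty_iff_false, iff_false]
      tauto) with h | h
  · obtain ⟨ζ, _, h1⟩ := h h0
    exact absurd h1 (exp_ne_zero ζ)
  · by_contra hne
    obtain ⟨ζ, hζ⟩ := nonempty_iff_ne_empty.2 hne
    exact (h (hBX ζ hζ)).2 ⟨ζ, hζ, rfl⟩

end CF6

end

section

/-!
# A21: the logarithmic cover of `ball 0 1 \ X`, `0 ∈ X`

`logCover X = {ζ | ζ.re < 0 ∧ exp ζ ∉ X}`; `‖exp ζ‖ = exp ζ.re < 1`. It is invariant under `ζ ↦ ζ ± 2πi`.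
* `logCover_strip`: `X ⊆ closedBall 0 r1`, `0 < r1 < 1` (X compact in the ball). So `{ζ | log r1 < ζ.re < 0} ⊆ logCover X`.
* `logCover_conn`: `Λ = {ζ | ζ.re = t}` with `log r1 < t < 0` is connected (a line), contained in `C = logCover X`. Suppose
  `C ⊆ P ∪ Q` open, `C ∩ P ∩ Q = ∅`; WLOG `Λ ⊆ P`. `B = {z ∈ ball 0 1 \ X | ∀ ζ, exp ζ = z → ζ ∈ P}`. `B` contains the circle
  `‖z‖ = exp t` (nonempty). CLAIM: every `z1 ∈ ball 0 1 \ X` has a ball `D = ball z1 r ⊆ ball 0 1 \ X`, `r ≤ ‖z1‖`, such that either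
  `D ⊆ B` or `D ∩ B = ∅`. For `ζ1` with `exp ζ1 = z1` the set `D(ζ1) = {ζ1 + log (z/z1) | z ∈ D}` (principal branch, `re (z/z1) > 0`) is
  connected, contained in `C`, contains `ζ1`; the logarithms of `z ∈ D` are exactly `ζ1 + log (z/z1) + 2πi n`. If `z1 ∈ B`, all
  `ζ1 + 2πi n ∈ P`, so all `D(ζ1 + 2πi n) ⊆ P` (connected, in `C`): `D ⊆ B`. If `z1 ∉ B` some logarithm `ζ1 ∈ Q`, so `D(ζ1) ⊆ Q`, `D ∩ B = ∅`.
  So `B` and its complement in the connected `ball 0 1 \ X` are open: `B` is everything. Hence `C ⊆ P`, `C ∩ Q = ∅`.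
* `logCover_noHole`: let `A ∪ B = (logCover X)ᶜ`, `A` closed, `B` compact, disjoint. `H = {ζ | 0 ≤ ζ.re} ⊆ A ∪ B` is connected and unbounded,
  so `H ⊆ A` (preconnected in the disjoint union of closed sets; not contained in the bounded `B`). So `B ⊆ {ζ | exp ζ ∈ X}`, and
  `J = exp '' B ⊆ X \ {0}` is compact. `X \ J` is closed: let `zn ∈ X \ J → z`, and suppose `z = exp ζ`, `ζ ∈ B`. Then
  `ζn = ζ + log (zn / z) → ζ` has `exp ζn = zn ∈ X`, so `ζn ∈ (logCover X)ᶜ`, `ζn ∉ B` (as `zn ∉ J`), so `ζn ∈ A`, `ζ ∈ A`: contradiction.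
  `X` connected, `0 ∈ X \ J`: `J = ∅`, `B = ∅`.
-/

open Complex Set Filter Topology Metric

namespace CF6

theorem a21b_mem {X : Set ℂ} {ζ : ℂ} : ζ ∈ logCover X ↔ exp ζ ∈ ball (0 : ℂ) 1 \ X := by
  rw [Set.mem_sdiff, mem_ball_zero_iff, Complex.norm_exp, Real.exp_lt_one_iff]
  rfl

theorem logCover_conn {X : Set ℂ} (hX : IsCompact X) (hs : X ⊆ ball 0 1) (h0 : (0 : ℂ) ∈ X)
    (hc : IsConnected (ball 0 1 \ X)) : IsConnected (logCover X) := by
  obtain ⟨t0, ht0, ht⟩ := logCover_strip hX hs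
  apply IsPathConnected.isConnected
  set t : ℝ := t0 / 2 with htdef
  have hline : ∀ ζ : ℂ, ζ.re = t → ζ ∈ logCover X := fun ζ hζ =>
    ht ζ (by rw [hζ]; linarith) (by rw [hζ]; linarith)
  have htC : (t : ℂ) ∈ logCover X := hline _ (Complex.ofReal_re t)
  refine ⟨(t : ℂ), htC, fun {y} hy => ?_⟩
  have hop : IsOpen (ball (0 : ℂ) 1 \ X) := isOpen_ball.sdiff hX.isClosed
  have hpc : IsPathConnected (ball (0 : ℂ) 1 \ X) := (hop.isConnected_iff_isPathConnected).1 hc
  obtain ⟨γ, hγ⟩ := hpc.joinedIn (exp y) (a21b_mem.1 hy) (exp (t : ℂ)) (a21b_mem.1 htC)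
  have hne : ∀ u, γ u ≠ 0 := fun u h => (hγ u).2 (h ▸ h0)
  let γ' : C(unitInterval, {z : ℂ // z ≠ 0}) :=
    ⟨fun u => ⟨γ u, hne u⟩, by fun_prop⟩
  obtain ⟨Γ, hΓ, hΓ0⟩ := Complex.isCoveringMap_exp.exists_path_lifts γ' y (by
    apply Subtype.ext
    change γ 0 = exp y
    exact γ.source)
  have hexp : ∀ u, exp (Γ u) = γ u := fun u => by
    have := congrFun hΓ u
    exact congrArg Subtype.val this
  have hΓC : ∀ u, Γ u ∈ logCover X := fun u => a21b_mem.2 (by rw [hexp]; exact hγ u)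
  have h1 : JoinedIn (logCover X) y (Γ 1) := ⟨⟨Γ, hΓ0, rfl⟩, hΓC⟩
  have hre : (Γ 1).re = t := by
    have h2 := hexp 1
    rw [γ.target] at h2
    have h3 := congrArg norm h2
    rw [Complex.norm_exp, Complex.norm_exp, Complex.ofReal_re] at h3
    exact Real.exp_injective h3
  have h2 : JoinedIn (logCover X) (Γ 1) (t : ℂ) := by
    apply JoinedIn.of_segment_subset
    rintro z ⟨a, b, -, -, hab, rfl⟩
    apply hline
    rw [Complex.add_re, Complex.smul_re, Complex.smul_re, hre, Complex.ofReal_re,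
      smul_eq_mul, smul_eq_mul, ← add_mul, hab, one_mul]
  exact (h1.trans h2).symm

end CF6

end

section

/-!
# A22: fixed point free automorphisms of the disc

PROOF. `T z = (c z + b)/(1 + conj b c z)`, `‖b‖ < 1`, `‖c‖ = 1`, no fixed point in the ball, so `b ≠ 0`. Let `ζ` be a root of
`conj b * c * ζ^2 + (1 - c) * ζ - b = 0` (`ζ = (c ζ + b)/(1 + conj b c ζ)`; quadratic, `IsAlgClosed.exists_root` or the formula). `ζ ≠ 0`.
If `‖ζ‖ < 1`: fixed point. If `‖ζ‖ > 1`: `1/conj ζ` is a root in the ball: conjugating the equation and multiplying by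
`-c`, dividing by `conj ζ^2`: from `b conj c conj ζ^2 + (1 - conj c) conj ζ - conj b = 0`, times `-c / conj ζ^2`, with `η = 1/conj ζ`, `c conj c = 1`:
`-b - (c - 1) η + conj b c η^2 = 0`, i.e. `conj b c η^2 + (1 - c) η - b = 0`. So `‖ζ‖ = 1`.
`M z = I * (ζ + z)/(ζ - z)` maps the ball bijectively and holomorphically onto `UHP` (`im M z = (1 - ‖z‖^2)/‖ζ - z‖^2`; inverse
`w ↦ ζ (w - I)/(w + I)`). Numerator identity: `ζ - T z = c (1 - ζ conj b) (ζ - z)/(1 + conj b c z)` (vanishes at `z = ζ` by the equation), hence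
`M (T z) = I * (ζ (1 + conj b c z) + c z + b) / (c (1 - ζ conj b) (ζ - z)) = α' * M z + β'` with complex constants `α'`, `β'`
(`ζ/(ζ - z) = (1 - I M)/2`, `z/(ζ - z) = -(1 + I M)/2`). So the affine map `w ↦ α' w + β'` maps `UHP` bijectively onto `UHP` (`T` is a bijection of
the ball). This forces `α' > 0` real and `β'` real: for `w = t + i s`, `im (α' w + β') > 0` for all `t ∈ ℝ`, `s > 0` gives `im α' = 0` (let `t → ±∞`),
`re α' ≥ 0`, `α' ≠ 0` (injective), `im β' ≥ 0` (`s → 0`); surjectivity excludes `im β' > 0` (then `im ≥ im β'`).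
If `α' ≠ 1` replace `M` by `M - β'/(1 - α')` (real translation): `M (T z) = α' M z`. If `α' = 1`, `β' ≠ 0` since `T` has no fixed point.
-/

open Complex Set Filter Topology Metric

namespace CF6

theorem a22a_cayley_im {ζ z : ℂ} (hζ : ‖ζ‖ = 1) (hz : ‖z‖ < 1) :
    0 < (I * (ζ + z) / (ζ - z)).im := by
  have hne : ζ - z ≠ 0 := by
    intro h
    have : ζ = z := sub_eq_zero.mp h
    rw [this] at hζ
    linarith
  have hpos : 0 < normSq (ζ - z) := normSq_pos.mpr hne
  have h1 : (I * (ζ + z) / (ζ - z)).im = (normSq ζ - normSq z) / normSq (ζ - z) := by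
    rw [Complex.div_im, ← sub_div]
    congr 1
    simp only [Complex.mul_im, Complex.mul_re, Complex.I_re, Complex.I_im, Complex.add_re,
      Complex.add_im, Complex.sub_re, Complex.sub_im, Complex.normSq_apply]
    ring
  rw [h1]
  refine div_pos ?_ hpos
  rw [Complex.normSq_eq_norm_sq, Complex.normSq_eq_norm_sq, hζ]
  nlinarith [norm_nonneg z]

theorem a22a_cayley_bij {ζ : ℂ} (hζ : ‖ζ‖ = 1) :
    DifferentiableOn ℂ (fun z => I * (ζ + z) / (ζ - z)) (ball 0 1) ∧
      BijOn (fun z => I * (ζ + z) / (ζ - z)) (ball 0 1) UHP := by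
  have hne : ∀ z ∈ ball (0 : ℂ) 1, ζ - z ≠ 0 := by
    intro z hz h
    have h1 : ζ = z := sub_eq_zero.mp h
    rw [mem_ball_zero_iff, ← h1] at hz
    linarith
  have hζ0 : ζ ≠ 0 := by
    intro h
    rw [h, norm_zero] at hζ
    exact zero_ne_one hζ
  refine ⟨?_, ?_, ?_, ?_⟩
  · intro z hz
    refine DifferentiableAt.differentiableWithinAt ?_
    exact (((differentiableAt_const ζ).add differentiableAt_id).const_mul I).div
      ((differentiableAt_const ζ).sub differentiableAt_id) (hne z hz)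
  · intro z hz
    exact a22a_cayley_im hζ (mem_ball_zero_iff.mp hz)
  · intro z hz z' hz' h
    have h1 := hne z hz
    have h2 := hne z' hz'
    simp only [] at h
    rw [div_eq_div_iff h1 h2] at h
    have h3 : I * (2 * ζ) * (z - z') = 0 := by linear_combination h
    have h4 : z - z' = 0 := by
      rcases mul_eq_zero.mp h3 with h5 | h5
      · exact absurd h5 (mul_ne_zero I_ne_zero (mul_ne_zero two_ne_zero hζ0))
      · exact h5
    exact sub_eq_zero.mp h4
  · intro w hw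
    have hw' : 0 < w.im := hw
    have hwI : w + I ≠ 0 := by
      intro h
      have := congrArg Complex.im h
      simp at this
      linarith
    refine ⟨ζ * (w - I) / (w + I), ?_, ?_⟩
    · rw [mem_ball_zero_iff, norm_div, norm_mul, hζ, one_mul, div_lt_one (norm_pos_iff.mpr hwI)]
      have h1 : ‖w - I‖ ^ 2 < ‖w + I‖ ^ 2 := by
        rw [← Complex.normSq_eq_norm_sq, ← Complex.normSq_eq_norm_sq, Complex.normSq_apply,
          Complex.normSq_apply]
        simp only [Complex.add_re, Complex.add_im, Complex.sub_re, Complex.sub_im, Complex.I_re,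
          Complex.I_im]
        nlinarith
      exact lt_of_pow_lt_pow_left₀ 2 (norm_nonneg _) h1
    · have h2 : ζ - ζ * (w - I) / (w + I) = 2 * I * ζ / (w + I) := by
        field_simp
        ring
      have h3 : ζ + ζ * (w - I) / (w + I) = 2 * w * ζ / (w + I) := by
        field_simp
        ring
      simp only []
      rw [h2, h3]
      field_simp

theorem a22a_affine {a' b' : ℂ} (h1 : ∀ w ∈ UHP, a' * w + b' ∈ UHP)
    (h2 : ∀ w ∈ UHP, ∃ w' ∈ UHP, a' * w' + b' = w) :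
    ∃ a b : ℝ, 0 < a ∧ a' = a ∧ b' = b := by
  have key : ∀ t s : ℝ, 0 < s → 0 < a'.im * t + a'.re * s + b'.im := by
    intro t s hs
    have h3 : (⟨t, s⟩ : ℂ) ∈ UHP := hs
    have h4 : 0 < (a' * ⟨t, s⟩ + b').im := h1 _ h3
    simp only [Complex.add_im, Complex.mul_im] at h4
    linarith
  have him : a'.im = 0 := by
    by_contra hne
    have := key (-(a'.re + b'.im + 1) / a'.im) 1 one_pos
    rw [mul_div_cancel₀ _ hne] at this
    linarith
  have hb0 : 0 ≤ b'.im := by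
    by_contra hlt
    push Not at hlt
    have h3 := key 0 1 one_pos
    rw [him] at h3
    have hre : 0 < a'.re := by linarith
    have h4 := key 0 (-b'.im / (2 * a'.re)) (div_pos (by linarith) (by linarith))
    rw [him] at h4
    have h5 : a'.re * (-b'.im / (2 * a'.re)) = -b'.im / 2 := by
      field_simp
    rw [h5] at h4
    linarith
  have hre0 : 0 ≤ a'.re := by
    by_contra hlt
    push Not at hlt
    have h4 := key 0 ((b'.im + 1) / (-a'.re)) (div_pos (by linarith) (by linarith))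
    rw [him] at h4
    have h5 : a'.re * ((b'.im + 1) / (-a'.re)) = -(b'.im + 1) := by
      have : a'.re ≠ 0 := hlt.ne
      field_simp
    rw [h5] at h4
    linarith
  have hb1 : b'.im = 0 := by
    by_contra hne
    have hpos : 0 < b'.im := lt_of_le_of_ne hb0 (Ne.symm hne)
    have h3 : (⟨0, b'.im / 2⟩ : ℂ) ∈ UHP := by
      change 0 < b'.im / 2
      linarith
    obtain ⟨w', hw', h4⟩ := h2 _ h3
    have h5 := congrArg Complex.im h4
    simp only [Complex.add_im, Complex.mul_im, him, zero_mul, add_zero] at h5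
    have h6 : 0 ≤ a'.re * w'.im := mul_nonneg hre0 (le_of_lt hw')
    linarith
  have h3 := key 0 1 one_pos
  rw [him, hb1] at h3
  refine ⟨a'.re, b'.re, by linarith, ?_, ?_⟩
  · apply Complex.ext
    · simp
    · simp [him]
  · apply Complex.ext
    · simp
    · simp [hb1]

theorem a22a_root {T : ℂ → ℂ} {b c : ℂ} (hb : ‖b‖ < 1) (hc : ‖c‖ = 1)
    (hT : ∀ z ∈ ball (0 : ℂ) 1, T z = (c * z + b) / (1 + (starRingEnd ℂ) b * c * z))
    (nf : ∀ z ∈ ball (0 : ℂ) 1, T z ≠ z) :
    ∃ ζ : ℂ, ‖ζ‖ = 1 ∧ (starRingEnd ℂ) b * c * ζ ^ 2 + (1 - c) * ζ - b = 0 := by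
  have hc0 : c ≠ 0 := by
    intro h
    rw [h, norm_zero] at hc
    exact zero_ne_one hc
  have hcc : c * (starRingEnd ℂ) c = 1 := by
    rw [Complex.mul_conj, Complex.normSq_eq_norm_sq, hc]
    norm_num
  have hb0 : b ≠ 0 := by
    intro h
    apply nf 0 (mem_ball_self one_pos)
    rw [hT 0 (mem_ball_self one_pos), h]
    simp
  have hbb0 : (starRingEnd ℂ) b ≠ 0 := by
    rwa [map_ne_zero]
  have hden : ∀ z : ℂ, ‖z‖ < 1 → 1 + (starRingEnd ℂ) b * c * z ≠ 0 := by
    intro z hz h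
    have h1 : (starRingEnd ℂ) b * c * z = -1 := by linear_combination h
    have h2 := congrArg norm h1
    rw [norm_mul, norm_mul, Complex.norm_conj, hc, norm_neg, norm_one, mul_one] at h2
    nlinarith [norm_nonneg b, norm_nonneg z]
  -- no root in the ball
  have hroot : ∀ z : ℂ, ‖z‖ < 1 → (starRingEnd ℂ) b * c * z ^ 2 + (1 - c) * z - b ≠ 0 := by
    intro z hz h
    apply nf z (mem_ball_zero_iff.mpr hz)
    rw [hT z (mem_ball_zero_iff.mpr hz), div_eq_iff (hden z hz)]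
    linear_combination -h
  obtain ⟨s, hs⟩ := IsAlgClosed.exists_eq_mul_self
    (discrim ((starRingEnd ℂ) b * c) (1 - c) (-b))
  obtain ⟨ζ, hζ⟩ := exists_quadratic_eq_zero (mul_ne_zero hbb0 hc0) ⟨s, hs⟩
  have hζ' : (starRingEnd ℂ) b * c * ζ ^ 2 + (1 - c) * ζ - b = 0 := by
    linear_combination hζ
  refine ⟨ζ, ?_, hζ'⟩
  rcases lt_trichotomy ‖ζ‖ 1 with h | h | h
  · exact absurd hζ' (hroot ζ h)
  · exact h
  · exfalso
    have hζ0 : (starRingEnd ℂ) ζ ≠ 0 := by
      rw [map_ne_zero]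
      intro h0
      rw [h0, norm_zero] at h
      linarith
    have h1 := congrArg (starRingEnd ℂ) hζ'
    simp only [map_sub, map_add, map_mul, map_pow, map_one, map_zero, Complex.conj_conj] at h1
    apply hroot ((starRingEnd ℂ) ζ)⁻¹
    · rw [norm_inv, Complex.norm_conj]
      exact inv_lt_one_of_one_lt₀ h
    · have h2 : ((starRingEnd ℂ) ζ)⁻¹ ^ 2 * (-c) * (b * (starRingEnd ℂ) c * (starRingEnd ℂ) ζ ^ 2 +
          (1 - (starRingEnd ℂ) c) * (starRingEnd ℂ) ζ - (starRingEnd ℂ) b) = 0 := by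
        rw [h1, mul_zero]
      have h3 : ((starRingEnd ℂ) ζ)⁻¹ ^ 2 * (-c) * (b * (starRingEnd ℂ) c * (starRingEnd ℂ) ζ ^ 2 +
          (1 - (starRingEnd ℂ) c) * (starRingEnd ℂ) ζ - (starRingEnd ℂ) b) =
          -(c * (starRingEnd ℂ) c) * b - (c - c * (starRingEnd ℂ) c) * ((starRingEnd ℂ) ζ)⁻¹ +
          (starRingEnd ℂ) b * c * ((starRingEnd ℂ) ζ)⁻¹ ^ 2 := by
        field_simp
        ring
      rw [h3, hcc] at h2
      linear_combination h2

theorem aut_classify {T : ℂ → ℂ} {b c : ℂ} (hb : ‖b‖ < 1) (hc : ‖c‖ = 1)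
    (hT : ∀ z ∈ ball (0 : ℂ) 1, T z = (c * z + b) / (1 + (starRingEnd ℂ) b * c * z))
    (bT : BijOn T (ball 0 1) (ball 0 1)) (nf : ∀ z ∈ ball (0 : ℂ) 1, T z ≠ z) :
    ∃ M : ℂ → ℂ, DifferentiableOn ℂ M (ball 0 1) ∧ BijOn M (ball 0 1) UHP ∧
      ((∃ α : ℝ, 0 < α ∧ α ≠ 1 ∧ ∀ z ∈ ball (0 : ℂ) 1, M (T z) = α * M z) ∨
        ∃ β : ℝ, β ≠ 0 ∧ ∀ z ∈ ball (0 : ℂ) 1, M (T z) = M z + β) := by
  obtain ⟨ζ, hζ, hroot⟩ := a22a_root hb hc hT nf
  obtain ⟨hdM, hbM⟩ := a22a_cayley_bij hζ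
  have hc0 : c ≠ 0 := by
    intro h
    rw [h, norm_zero] at hc
    exact zero_ne_one hc
  have hζ0 : ζ ≠ 0 := by
    intro h
    rw [h, norm_zero] at hζ
    exact zero_ne_one hζ
  have hden : ∀ z : ℂ, ‖z‖ < 1 → 1 + (starRingEnd ℂ) b * c * z ≠ 0 := by
    intro z hz h
    have h1 : (starRingEnd ℂ) b * c * z = -1 := by linear_combination h
    have h2 := congrArg norm h1
    rw [norm_mul, norm_mul, Complex.norm_conj, hc, norm_neg, norm_one, mul_one] at h2
    nlinarith [norm_nonneg b, norm_nonneg z]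
  have hden2 : 1 - (starRingEnd ℂ) b * ζ ≠ 0 := by
    intro h
    have h1 : (starRingEnd ℂ) b * ζ = 1 := by linear_combination -h
    have h2 := congrArg norm h1
    rw [norm_mul, Complex.norm_conj, hζ, norm_one, mul_one] at h2
    linarith
  have hne : ∀ z ∈ ball (0 : ℂ) 1, ζ - z ≠ 0 := by
    intro z hz h
    have h1 : ζ = z := sub_eq_zero.mp h
    rw [mem_ball_zero_iff, ← h1] at hz
    linarith
  set M0 : ℂ → ℂ := fun z => I * (ζ + z) / (ζ - z) with hM0
  set a' : ℂ := (ζ + b + c * (1 + (starRingEnd ℂ) b * ζ) * ζ) /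
    (2 * (c * (1 - (starRingEnd ℂ) b * ζ)) * ζ) with ha'
  set b' : ℂ := I * (ζ + b - c * (1 + (starRingEnd ℂ) b * ζ) * ζ) /
    (2 * (c * (1 - (starRingEnd ℂ) b * ζ)) * ζ) with hb'
  have haff : ∀ z ∈ ball (0 : ℂ) 1, M0 (T z) = a' * M0 z + b' := by
    intro z hz
    have h1 := hden z (mem_ball_zero_iff.mp hz)
    have h2 := hne z hz
    have h3 : ζ - T z = c * (1 - (starRingEnd ℂ) b * ζ) * (ζ - z) /
        (1 + (starRingEnd ℂ) b * c * z) := by
      rw [hT z hz, eq_div_iff h1, sub_mul, div_mul_cancel₀ _ h1]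
      linear_combination hroot
    have h4 : ζ + T z = ((ζ + b) + c * (1 + (starRingEnd ℂ) b * ζ) * z) /
        (1 + (starRingEnd ℂ) b * c * z) := by
      rw [hT z hz, eq_div_iff h1, add_mul, div_mul_cancel₀ _ h1]
      ring
    have h5 : M0 (T z) = I * ((ζ + b) + c * (1 + (starRingEnd ℂ) b * ζ) * z) /
        (c * (1 - (starRingEnd ℂ) b * ζ) * (ζ - z)) := by
      simp only [hM0]
      rw [h3, h4, mul_div_assoc', div_div_div_cancel_right₀ h1]
    rw [h5, ha', hb']
    simp only [hM0]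
    field_simp
    ring
  have hm : MapsTo T (ball 0 1) (ball 0 1) := bT.mapsTo
  obtain ⟨a, β, ha, haa, hββ⟩ := a22a_affine (a' := a') (b' := b')
    (fun w hw => by
      obtain ⟨z, hz, hzw⟩ := hbM.surjOn hw
      have h1 := haff z hz
      have h2 : M0 z = w := hzw
      rw [h2] at h1
      rw [← h1]
      exact hbM.mapsTo (hm hz))
    (fun w hw => by
      obtain ⟨z', hz', hzw⟩ := hbM.surjOn hw
      obtain ⟨z, hz, hzz⟩ := bT.surjOn hz'
      refine ⟨M0 z, hbM.mapsTo hz, ?_⟩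
      rw [← haff z hz, hzz]
      exact hzw)
  rw [haa, hββ] at haff
  by_cases h1 : a = 1
  · refine ⟨M0, hdM, hbM, Or.inr ⟨β, ?_, fun z hz => ?_⟩⟩
    · intro h0
      have h2 := haff 0 (mem_ball_self one_pos)
      rw [h1, h0, Complex.ofReal_one, one_mul, Complex.ofReal_zero, add_zero] at h2
      exact nf 0 (mem_ball_self one_pos)
        (hbM.injOn (hm (mem_ball_self one_pos)) (mem_ball_self one_pos) h2)
    · rw [haff z hz, h1, Complex.ofReal_one, one_mul]
  · have h1' : (1 : ℝ) - a ≠ 0 := fun h => h1 (by linarith)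
    refine ⟨fun z => M0 z - ((β / (1 - a) : ℝ) : ℂ), hdM.sub_const _, ⟨?_, ?_, ?_⟩,
      Or.inl ⟨a, ha, h1, fun z hz => ?_⟩⟩
    · intro z hz
      change 0 < (M0 z - ((β / (1 - a) : ℝ) : ℂ)).im
      rw [Complex.sub_im, Complex.ofReal_im, sub_zero]
      exact hbM.mapsTo hz
    · intro z hz z' hz' h
      apply hbM.injOn hz hz'
      simp only [] at h
      exact sub_left_injective h
    · intro w hw
      have hw' : w + ((β / (1 - a) : ℝ) : ℂ) ∈ UHP := by
        change 0 < (w + ((β / (1 - a) : ℝ) : ℂ)).im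
        rw [Complex.add_im, Complex.ofReal_im, add_zero]
        exact hw
      obtain ⟨z, hz, hzw⟩ := hbM.surjOn hw'
      refine ⟨z, hz, ?_⟩
      have h2 : M0 z = w + ((β / (1 - a) : ℝ) : ℂ) := hzw
      simp only []
      rw [h2]
      ring
    · simp only []
      rw [haff z hz]
      push_cast
      have h2 : (1 : ℂ) - (a : ℂ) ≠ 0 := by
        exact_mod_cast h1'
      field_simp
      ring

end CF6

end

section

/-!
# A23: the parabolic case forces a point component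

PROOF. `E = ball 0 1 \ X`. `G` is holomorphic and injective on the right half plane, `G (s + 2πi) = G s + 2πi ε`
(`ε = ±1`), `exp ∘ G` maps `rhp` onto `E`. Define `Ψ` on the punctured disc by `Ψ (exp (-s)) = exp (G s)` (well defined,
holomorphic: locally `s = - log`; e.g. `Ψ ζ = exp (G (- log ζ))`; near a point of the cut use another branch, the value is the
same by periodicity; Mathlib: `Function.Periodic.cuspFunction` may be used instead). `Ψ` is injective on the punctured disc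
(`exp (G s) = exp (G s')` gives `G s' = G s + 2πi n = G (s + 2πi ε n)`, `s' = s + 2πi ε n`), bounded by `1`, so it extends to a
holomorphic function `Ψ` on `ball 0 1` (`Complex.differentiableOn_update_limUnder_of_bddAbove`), `p = Ψ 0`.
`p ∉ E`: if `p = Ψ ζ1`, `0 < ‖ζ1‖ < 1`: `Ψ` is not locally constant at `0` and `ζ1`, so (open mapping,
`AnalyticAt.eventually_constant_or_nhds_le_map_nhds`) `Ψ (ball 0 r)` and `Ψ (ball ζ1 r)` (disjoint balls) are neighbourhoods
of `p`; a value `q ≠ p` in both (not attained only at `0`) is attained at two points of the punctured disc. Contradiction.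
`‖p‖ ≤ 1` by continuity and `Ψ (ball 0 1)` is open (open mapping) and contained in `closedBall 0 1`, so in `ball 0 1`. So `p ∈ X`.
`Ψ (ball 0 1) = E ∪ {p}` is open, so `{p} = X ∩ (E ∪ {p})` is open in `X`; it is closed; `X` connected: `X = {p}`.
-/

open Complex Set Filter Topology Metric

namespace CF6

theorem a23_int {G : ℂ → ℂ} {e : ℤ}
    (hp : ∀ s ∈ rhp, G (s + 2 * Real.pi * I) = G s + 2 * Real.pi * e * I) :
    ∀ (n : ℤ), ∀ s ∈ rhp, G (s + 2 * Real.pi * n * I) = G s + 2 * Real.pi * e * n * I := by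
  have hre : ∀ (n : ℤ) (s : ℂ), s ∈ rhp → s + 2 * Real.pi * n * I ∈ rhp := by
    intro n s hs
    change 0 < (s + 2 * Real.pi * n * I).re
    have h1 : (s + 2 * Real.pi * n * I).re = s.re := by simp
    rw [h1]
    exact hs
  intro n
  induction n using Int.induction_on with
  | zero => intro s _; simp
  | succ k ih =>
    intro s hs
    have h1 := hp _ (hre k s hs)
    have h2 : s + 2 * Real.pi * ((k : ℤ) : ℂ) * I + 2 * Real.pi * I =
        s + 2 * Real.pi * (((k : ℤ) + 1 : ℤ) : ℂ) * I := by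
      push_cast
      ring
    rw [h2] at h1
    rw [h1, ih s hs]
    push_cast
    ring
  | pred k ih =>
    intro s hs
    have h1 := hp _ (hre (-(k : ℤ) - 1) s hs)
    have h2 : s + 2 * Real.pi * ((-(k : ℤ) - 1 : ℤ) : ℂ) * I + 2 * Real.pi * I =
        s + 2 * Real.pi * ((-(k : ℤ) : ℤ) : ℂ) * I := by
      push_cast
      ring
    rw [h2, ih s hs] at h1
    have h3 : G (s + 2 * Real.pi * ((-(k : ℤ) - 1 : ℤ) : ℂ) * I) =
        G s + 2 * Real.pi * e * ((-(k : ℤ) : ℤ) : ℂ) * I - 2 * Real.pi * e * I := by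
      rw [h1]
      ring
    rw [h3]
    push_cast
    ring

theorem a23_rhp_re (n : ℤ) (s : ℂ) : (s + 2 * Real.pi * n * I).re = s.re := by simp

/-- `exp (G s)` depends only on `exp (-s)`, and conversely -/
theorem a23_iff {G : ℂ → ℂ} (hi : InjOn G rhp) {e : ℤ} (he : e = 1 ∨ e = -1)
    (hp : ∀ s ∈ rhp, G (s + 2 * Real.pi * I) = G s + 2 * Real.pi * e * I) {s s' : ℂ}
    (hs : s ∈ rhp) (hs' : s' ∈ rhp) : exp (G s) = exp (G s') ↔ exp (-s) = exp (-s') := by
  have hint := a23_int hp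
  have hee : (e : ℂ) * e = 1 := by
    rcases he with rfl | rfl <;> norm_num
  constructor
  · intro h
    obtain ⟨n, hn⟩ := Complex.exp_eq_exp_iff_exists_int.1 h
    -- `G s = G s' + n * (2 π i)`
    have h1 : s' + 2 * Real.pi * ((e * n : ℤ) : ℂ) * I ∈ rhp := by
      change 0 < (s' + 2 * Real.pi * ((e * n : ℤ) : ℂ) * I).re
      rw [a23_rhp_re]
      exact hs'
    have h2 : G (s' + 2 * Real.pi * ((e * n : ℤ) : ℂ) * I) = G s := by
      rw [hint (e * n) s' hs', hn]
      push_cast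
      have h3 : 2 * (Real.pi : ℂ) * e * (e * n) * I = 2 * Real.pi * n * I * (e * e) := by ring
      rw [h3, hee]
      ring
    have h3 := hi h1 hs h2
    rw [← h3, neg_add, Complex.exp_add]
    have h4 : exp (-(2 * Real.pi * ((e * n : ℤ) : ℂ) * I)) = 1 := by
      rw [Complex.exp_eq_one_iff]
      refine ⟨-(e * n), ?_⟩
      push_cast
      ring
    rw [h4, mul_one]
  · intro h
    obtain ⟨n, hn⟩ := Complex.exp_eq_exp_iff_exists_int.1 h
    have h1 : s' = s + 2 * Real.pi * (n : ℂ) * I := by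
      have : s' = s + n * (2 * Real.pi * I) := by linear_combination hn
      rw [this]
      ring
    rw [h1, hint n s hs, Complex.exp_add]
    have h4 : exp (2 * Real.pi * e * n * I) = 1 := by
      rw [Complex.exp_eq_one_iff]
      refine ⟨e * n, ?_⟩
      push_cast
      ring
    rw [h4, mul_one]

theorem a23_log_mem {z : ℂ} (h0 : z ≠ 0) (h1 : ‖z‖ < 1) : -log z ∈ rhp := by
  change 0 < (-log z).re
  rw [neg_re, Complex.log_re]
  have := Real.log_neg (norm_pos_iff.2 h0) h1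
  linarith

theorem parabolic_point {X : Set ℂ} (hX : IsClosed X) (hs : X ⊆ ball 0 1) (cX : IsConnected X)
    {G : ℂ → ℂ} (hG : DifferentiableOn ℂ G rhp) (hi : InjOn G rhp)
    (im : (fun s => exp (G s)) '' rhp = ball 0 1 \ X)
    {e : ℤ} (he : e = 1 ∨ e = -1)
    (hp : ∀ s ∈ rhp, G (s + 2 * Real.pi * I) = G s + 2 * Real.pi * e * I) : X.Subsingleton := by
  have hopen : IsOpen rhp := isOpen_lt continuous_const Complex.continuous_re
  set Ψ : ℂ → ℂ := fun z => exp (G (-log z)) with hΨ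
  have hval : ∀ z : ℂ, z ≠ 0 → ‖z‖ < 1 → ∀ s ∈ rhp, exp (-s) = z → Ψ z = exp (G s) := by
    intro z h0 h1 s hs' hz
    refine (a23_iff hi he hp (a23_log_mem h0 h1) hs').2 ?_
    rw [neg_neg, Complex.exp_log h0, hz]
  have hmem : ∀ z : ℂ, z ≠ 0 → ‖z‖ < 1 → Ψ z ∈ ball (0 : ℂ) 1 \ X := by
    intro z h0 h1
    rw [← im]
    exact ⟨-log z, a23_log_mem h0 h1, rfl⟩
  -- injectivity
  have hinj : ∀ z z' : ℂ, z ≠ 0 → ‖z‖ < 1 → z' ≠ 0 → ‖z'‖ < 1 → Ψ z = Ψ z' → z = z' := by
    intro z z' h0 h1 h0' h1' h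
    have h2 := (a23_iff hi he hp (a23_log_mem h0 h1) (a23_log_mem h0' h1')).1 h
    rwa [neg_neg, neg_neg, Complex.exp_log h0, Complex.exp_log h0'] at h2
  -- differentiability
  have hdiff : ∀ z₀ : ℂ, z₀ ≠ 0 → ‖z₀‖ < 1 → DifferentiableAt ℂ Ψ z₀ := by
    intro z₀ h0 h1
    set Lg : ℂ → ℂ := fun z => -log (z / z₀) - log z₀ with hLg
    have hL0 : Lg z₀ = -log z₀ := by
      simp only [hLg, div_self h0, Complex.log_one, neg_zero, zero_sub]
    have hLd : DifferentiableAt ℂ Lg z₀ := by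
      have h2 : DifferentiableAt ℂ (fun z : ℂ => log (z / z₀)) z₀ := by
        refine DifferentiableAt.clog ?_ ?_
        · fun_prop
        · rw [div_self h0]
          exact Complex.one_mem_slitPlane
      exact (h2.neg).sub_const _
    have hexp : ∀ z : ℂ, z ≠ 0 → exp (-Lg z) = z := by
      intro z hz
      simp only [hLg]
      rw [neg_sub, sub_neg_eq_add, Complex.exp_add, Complex.exp_log h0,
        Complex.exp_log (div_ne_zero hz h0)]
      field_simp
    have hLm : ∀ z : ℂ, z ≠ 0 → ‖z‖ < 1 → Lg z ∈ rhp := by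
      intro z hz hz1
      change 0 < (Lg z).re
      have h2 : ‖exp (-Lg z)‖ = ‖z‖ := by rw [hexp z hz]
      rw [Complex.norm_exp, neg_re] at h2
      have h3 : Real.exp (-(Lg z).re) < 1 := by rw [h2]; exact hz1
      have h4 := Real.exp_lt_one_iff.1 h3
      linarith
    have hev : ∀ᶠ z in 𝓝 z₀, Ψ z = exp (G (Lg z)) := by
      have h2 : ∀ᶠ z in 𝓝 z₀, z ≠ 0 := isOpen_ne.mem_nhds h0
      have h3 : ∀ᶠ z in 𝓝 z₀, ‖z‖ < 1 :=
        (isOpen_lt continuous_norm continuous_const).mem_nhds h1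
      filter_upwards [h2, h3] with z hz hz1
      exact hval z hz hz1 _ (hLm z hz hz1) (hexp z hz)
    have hGd : DifferentiableAt ℂ G (Lg z₀) :=
      (hG _ (hLm z₀ h0 h1)).differentiableAt (hopen.mem_nhds (hLm z₀ h0 h1))
    have h5 : DifferentiableAt ℂ (fun z => exp (G (Lg z))) z₀ := (hGd.comp z₀ hLd).cexp
    exact h5.congr_of_eventuallyEq hev
  -- extension
  set Φ : ℂ → ℂ := Function.update Ψ 0 (limUnder (𝓝[≠] 0) Ψ) with hΦ
  have hΦd : DifferentiableOn ℂ Φ (ball 0 1) := by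
    refine Complex.differentiableOn_update_limUnder_of_bddAbove (ball_mem_nhds _ one_pos) ?_ ?_
    · intro z hz
      exact (hdiff z (fun h => hz.2 h) (by simpa using hz.1)).differentiableWithinAt
    · refine ⟨1, ?_⟩
      rintro _ ⟨z, hz, rfl⟩
      have h1 := (hmem z (fun h => hz.2 h) (by simpa using hz.1)).1
      rw [mem_ball_zero_iff] at h1
      exact h1.le
  have hΦe : ∀ z : ℂ, z ≠ 0 → Φ z = Ψ z := fun z hz => Function.update_of_ne hz _ _
  have hΦinj : ∀ z z' : ℂ, z ≠ 0 → ‖z‖ < 1 → z' ≠ 0 → ‖z'‖ < 1 → Φ z = Φ z' → z = z' := by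
    intro z z' h0 h1 h0' h1' h
    rw [hΦe z h0, hΦe z' h0'] at h
    exact hinj z z' h0 h1 h0' h1' h
  -- open mapping
  have hmap : ∀ s ⊆ ball (0 : ℂ) 1, IsOpen s → IsOpen (Φ '' s) := by
    have han : AnalyticOnNhd ℂ Φ (ball 0 1) := hΦd.analyticOnNhd isOpen_ball
    rcases han.is_constant_or_isOpen (convex_ball (0 : ℂ) 1).isPreconnected with h | h
    · exfalso
      obtain ⟨w, hw⟩ := h
      have h1 : ‖(1 / 2 : ℂ)‖ < 1 := by norm_num
      have h2 : ‖(-1 / 2 : ℂ)‖ < 1 := by norm_num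
      have h3 := hΦinj (1 / 2) (-1 / 2) (by norm_num) h1 (by norm_num) h2
        ((hw _ (by rw [mem_ball_zero_iff]; exact h1)).trans
          (hw _ (by rw [mem_ball_zero_iff]; exact h2)).symm)
      norm_num at h3
    · exact h
  set p := Φ 0 with hpdef
  have hE : ∀ z : ℂ, z ≠ 0 → ‖z‖ < 1 → Φ z ∈ ball (0 : ℂ) 1 \ X := fun z h0 h1 => by
    rw [hΦe z h0]
    exact hmem z h0 h1
  -- `p` is not a value of the punctured disc
  have hpE : p ∉ ball (0 : ℂ) 1 \ X := by
    intro hpE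
    rw [← im] at hpE
    obtain ⟨s, hs', hsp⟩ := hpE
    simp only at hsp
    set z₁ := exp (-s) with hz₁
    have hz0 : z₁ ≠ 0 := Complex.exp_ne_zero _
    have hz1 : ‖z₁‖ < 1 := by
      rw [hz₁, Complex.norm_exp, neg_re, Real.exp_lt_one_iff]
      have : 0 < s.re := hs'
      linarith
    have hp1 : Φ z₁ = p := by
      rw [hΦe z₁ hz0, hval z₁ hz0 hz1 s hs' rfl, hsp]
    obtain ⟨r, hr, hrz, hr1, hr2⟩ : ∃ r : ℝ, 0 < r ∧ 2 * r ≤ ‖z₁‖ ∧ ball (0 : ℂ) r ⊆ ball 0 1 ∧
        ball z₁ r ⊆ ball 0 1 := by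
      have h2 : 0 < ‖z₁‖ := norm_pos_iff.2 hz0
      refine ⟨min (‖z₁‖ / 2) (1 - ‖z₁‖), by
        refine lt_min (by positivity) (by linarith), ?_, ?_, ?_⟩
      · have := min_le_left (‖z₁‖ / 2) (1 - ‖z₁‖)
        linarith
      · refine ball_subset_ball ?_
        have := min_le_right (‖z₁‖ / 2) (1 - ‖z₁‖)
        linarith
      · intro y hy
        rw [mem_ball, dist_eq_norm] at hy
        rw [mem_ball_zero_iff]
        have h3 := min_le_right (‖z₁‖ / 2) (1 - ‖z₁‖)
        have h4 : ‖y‖ ≤ ‖y - z₁‖ + ‖z₁‖ := by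
          have := norm_add_le (y - z₁) z₁
          rwa [sub_add_cancel] at this
        linarith
    have hdis : Disjoint (ball (0 : ℂ) r) (ball z₁ r) := by
      refine ball_disjoint_ball ?_
      rw [dist_comm, dist_zero_right]
      linarith
    have ho : IsOpen (Φ '' ball 0 r ∩ Φ '' ball z₁ r) :=
      (hmap _ hr1 isOpen_ball).inter (hmap _ hr2 isOpen_ball)
    have hpo : p ∈ Φ '' ball 0 r ∩ Φ '' ball z₁ r :=
      ⟨⟨0, mem_ball_self hr, rfl⟩, ⟨z₁, mem_ball_self hr, hp1⟩⟩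
    -- another point
    obtain ⟨q, hq, hqp⟩ : ∃ q ∈ Φ '' ball 0 r ∩ Φ '' ball z₁ r, q ≠ p := by
      have h2 : (Φ '' ball 0 r ∩ Φ '' ball z₁ r) ∩ {p}ᶜ ∈ 𝓝[≠] p :=
        inter_mem (mem_nhdsWithin_of_mem_nhds (ho.mem_nhds hpo)) self_mem_nhdsWithin
      obtain ⟨q, hq⟩ := (Filter.NeBot.nonempty_of_mem inferInstance h2 :
        ((Φ '' ball 0 r ∩ Φ '' ball z₁ r) ∩ {p}ᶜ).Nonempty)
      exact ⟨q, hq.1, hq.2⟩
    obtain ⟨⟨a, ha, haq⟩, ⟨b, hb, hbq⟩⟩ := hq
    have ha0 : a ≠ 0 := by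
      rintro rfl
      exact hqp haq.symm
    have hb0 : b ≠ 0 := by
      rintro rfl
      exact Set.disjoint_left.1 hdis (mem_ball_self hr) hb
    have hab := hΦinj a b ha0 (by simpa using hr1 ha) hb0 (by simpa using hr2 hb)
      (haq.trans hbq.symm)
    rw [hab] at ha
    exact Set.disjoint_left.1 hdis ha hb
  -- the image of the disc
  have himg : Φ '' ball 0 1 = (ball (0 : ℂ) 1 \ X) ∪ {p} := by
    ext y
    constructor
    · rintro ⟨z, hz, rfl⟩
      by_cases hz0 : z = 0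
      · right
        rw [hz0]
        rfl
      · left
        exact hE z hz0 (by simpa using hz)
    · rintro (hy | hy)
      · rw [← im] at hy
        obtain ⟨s, hs', hsy⟩ := hy
        have hz1 : ‖exp (-s)‖ < 1 := by
          rw [Complex.norm_exp, neg_re, Real.exp_lt_one_iff]
          have : 0 < s.re := hs'
          linarith
        refine ⟨exp (-s), by rw [mem_ball_zero_iff]; exact hz1, ?_⟩
        rw [hΦe _ (Complex.exp_ne_zero _), hval _ (Complex.exp_ne_zero _) hz1 s hs' rfl]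
        exact hsy
      · rw [Set.mem_singleton_iff.1 hy]
        exact ⟨0, mem_ball_self one_pos, rfl⟩
  have hO : IsOpen ((ball (0 : ℂ) 1 \ X) ∪ {p}) := by
    rw [← himg]
    exact hmap _ Subset.rfl isOpen_ball
  have hpc : p ∈ closedBall (0 : ℂ) 1 := by
    have hc : ContinuousAt Φ 0 :=
      (hΦd.differentiableAt (ball_mem_nhds _ one_pos)).continuousAt
    have h2 : Tendsto Φ (𝓝[≠] 0) (𝓝 p) := hc.tendsto.mono_left nhdsWithin_le_nhds
    refine isClosed_closedBall.mem_of_tendsto h2 ?_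
    have h3 : ball (0 : ℂ) 1 ∈ 𝓝[≠] (0 : ℂ) := mem_nhdsWithin_of_mem_nhds (ball_mem_nhds _ one_pos)
    filter_upwards [h3, self_mem_nhdsWithin] with z hz hz0
    exact ball_subset_closedBall (hE z hz0 (by simpa using hz)).1
  have hpb : p ∈ ball (0 : ℂ) 1 := by
    have h2 : (ball (0 : ℂ) 1 \ X) ∪ {p} ⊆ closedBall 0 1 := by
      rintro y (hy | hy)
      · exact ball_subset_closedBall hy.1
      · rw [Set.mem_singleton_iff.1 hy]
        exact hpc
    have h3 : (ball (0 : ℂ) 1 \ X) ∪ {p} ⊆ interior (closedBall (0 : ℂ) 1) :=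
      interior_maximal h2 hO
    rw [interior_closedBall _ one_ne_zero] at h3
    exact h3 (Or.inr rfl)
  have hpX : p ∈ X := by
    by_contra h
    exact hpE ⟨hpb, h⟩
  -- conclusion
  have hall : ∀ x ∈ X, x = p := by
    intro x hx
    by_contra hxp
    have h2 := cX.isPreconnected _ _ hO (isOpen_compl_singleton (x := p)) (fun y _ => by
      by_cases hy : y = p
      · exact Or.inl (Or.inr hy)
      · exact Or.inr hy) ⟨p, hpX, Or.inr rfl⟩ ⟨x, hx, hxp⟩
    obtain ⟨y, hy, hy1, hy2⟩ := h2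
    rcases hy1 with hy1 | hy1
    · exact hy1.2 hy
    · exact hy2 hy1
  intro x hx y hy
  rw [hall x hx, hall y hy]

end CF6

end

section

/-!
# A24: uniformisation of `ball 0 1 \ X`, `X` a nontrivial continuum containing `0`

PROOF. `C = logCover X` is open, connected, without holes, not `univ`. `rmt`: `F : ball 0 1 → C`, inverse `g` (`univ_inverse`).
`T z = g (F z + 2πi)` is a holomorphic bijection of the ball (`logCover_add`), without fixed points (`F (T z) = F z + 2πi ≠ F z`).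
`disc_aut`, `aut_classify`: `M`.
Case `M (T z) = α M z`: `strip_uhp` gives `T0, P`. `N` = inverse of `M` on `UHP` (`univ_inverse`), `G s = F (N (P s))` on `strip T0`. It is holomorphic,
bijective onto `C`, and `G (s + 2πi) = F (N (α P s)) = F (T (N (P s))) = G s + 2πi` since `M (T (N w)) = α w`.
Case `M (T z) = M z + β`: let `P s = β s/(2πi)` if `β < 0`, `P s = - β s/(2πi)` if `β > 0` (`im (s/i) = - re s`): a bijection of `rhp` onto `UHP`
with `P (s + 2πi) = P s ± β`. `G s = F (N (P s))`, `G (s + 2πi) = G s ± 2πi` (for the minus sign: `M (T z) = M z + β` at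
`z = N (w - β)` gives `N w = T (N (w - β))`). `exp ∘ G` maps `rhp` onto `ball 0 1 \ X`; `parabolic_point`: `X` is a
subsingleton, contradiction.
-/

open Complex Set Filter Topology Metric

namespace CF6

theorem a24_add {X : Set ℂ} {ζ : ℂ} (h : ζ ∈ logCover X) : ζ + 2 * Real.pi * I ∈ logCover X := by
  have := (logCover_add (X := X) 1 (ζ := ζ)).2 h
  simpa using this

theorem a24_sub {X : Set ℂ} {ζ : ℂ} (h : ζ ∈ logCover X) : ζ - 2 * Real.pi * I ∈ logCover X := by
  have := (logCover_add (X := X) (-1) (ζ := ζ)).2 h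
  have e : ζ + 2 * Real.pi * ((-1 : ℤ) : ℂ) * I = ζ - 2 * Real.pi * I := by
    push_cast; ring
  rwa [e] at this

/-- the inverse of a bijective holomorphic map -/
theorem a24_inv {U V : Set ℂ} (hU : IsOpen U) {M : ℂ → ℂ} (hd : DifferentiableOn ℂ M U)
    (hb : BijOn M U V) : ∃ N : ℂ → ℂ, DifferentiableOn ℂ N V ∧ BijOn N V U ∧
      (∀ z ∈ U, N (M z) = z) ∧ ∀ w ∈ V, M (N w) = w := by
  obtain ⟨N, h1, h2, h3⟩ := univ_inverse hU hd hb.injOn
  rw [hb.image_eq] at h1 h3
  refine ⟨N, h1, ⟨fun w hw => (h3 w hw).1, ?_, ?_⟩, h2, fun w hw => (h3 w hw).2⟩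
  · intro w hw w' hw' h
    rw [← (h3 w hw).2, ← (h3 w' hw').2, h]
  · intro z hz
    exact ⟨M z, hb.mapsTo hz, h2 z hz⟩

theorem a24_halfplane {γ : ℝ} (hγ : 0 < γ) :
    DifferentiableOn ℂ (fun s : ℂ => (γ * I) * s) rhp ∧
      BijOn (fun s : ℂ => (γ * I) * s) rhp UHP := by
  have hne : (γ * I : ℂ) ≠ 0 := mul_ne_zero (by exact_mod_cast hγ.ne') I_ne_zero
  have him : ∀ s : ℂ, ((γ * I : ℂ) * s).im = γ * s.re := fun s => by
    simp [Complex.mul_im, Complex.mul_re]
  refine ⟨(differentiable_const _ |>.mul differentiable_id).differentiableOn, ?_, ?_, ?_⟩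
  · intro s hs
    change 0 < ((γ * I : ℂ) * s).im
    rw [him]
    exact mul_pos hγ hs
  · intro s _ s' _ h
    exact mul_left_cancel₀ hne h
  · intro w hw
    refine ⟨(γ * I : ℂ)⁻¹ * w, ?_, ?_⟩
    · change 0 < ((γ * I : ℂ)⁻¹ * w).re
      have h1 := him ((γ * I : ℂ)⁻¹ * w)
      rw [mul_inv_cancel_left₀ hne] at h1
      have hw' : 0 < w.im := hw
      rw [h1] at hw'
      exact pos_of_mul_pos_right hw' hγ.le
    · change (γ * I : ℂ) * ((γ * I : ℂ)⁻¹ * w) = w
      rw [mul_inv_cancel_left₀ hne]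

theorem exists_strip_map {X : Set ℂ} (hX : IsCompact X) (hs : X ⊆ ball 0 1) (h0 : (0 : ℂ) ∈ X)
    (cX : IsConnected X) (nX : X.Nontrivial) (hc : IsConnected (ball 0 1 \ X)) :
    ∃ T : ℝ, 0 < T ∧ ∃ G : ℂ → ℂ, DifferentiableOn ℂ G (strip T) ∧ BijOn G (strip T) (logCover X) ∧
      ∀ s ∈ strip T, G (s + 2 * Real.pi * I) = G s + 2 * Real.pi * I := by
  have oC := logCover_isOpen hX.isClosed
  have cC := logCover_conn hX hs h0 hc
  have nC := logCover_noHole hX hs h0 cX
  have huC : logCover X ≠ univ := by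
    intro h
    have h1 : (0 : ℂ) ∈ logCover X := h ▸ mem_univ _
    exact lt_irrefl _ h1.1
  obtain ⟨z0, hz0⟩ := cC.nonempty
  obtain ⟨F, hFd, hFi, hFim, -⟩ := rmt oC cC nC huC hz0
  have hFb : BijOn F (ball 0 1) (logCover X) := hFim ▸ hFi.bijOn_image
  obtain ⟨g, hgd, hgb, hgF, hFg⟩ := a24_inv isOpen_ball hFd hFb
  let T : ℂ → ℂ := fun z => g (F z + 2 * Real.pi * I)
  have hFT : ∀ z ∈ ball (0 : ℂ) 1, F (T z) = F z + 2 * Real.pi * I := fun z hz =>
    hFg _ (a24_add (hFb.mapsTo hz))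
  have hTm : MapsTo T (ball 0 1) (ball 0 1) := fun z hz => hgb.mapsTo (a24_add (hFb.mapsTo hz))
  have hTd : DifferentiableOn ℂ T (ball 0 1) :=
    hgd.comp (hFd.add_const _) fun z hz => a24_add (hFb.mapsTo hz)
  have hTb : BijOn T (ball 0 1) (ball 0 1) := by
    refine ⟨hTm, ?_, ?_⟩
    · intro z hz z' hz' h
      have h1 := hFT z hz
      rw [h, hFT z' hz'] at h1
      exact (hFi hz' hz (add_right_cancel h1)).symm
    · intro y hy
      have h1 := a24_sub (hFb.mapsTo hy)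
      refine ⟨g (F y - 2 * Real.pi * I), hgb.mapsTo h1, ?_⟩
      change g (F (g (F y - 2 * Real.pi * I)) + 2 * Real.pi * I) = y
      rw [hFg _ h1, sub_add_cancel, hgF y hy]
  have hpi : (2 * Real.pi * I : ℂ) ≠ 0 := by
    have : (Real.pi : ℂ) ≠ 0 := by exact_mod_cast Real.pi_ne_zero
    simp [this]
  have nf : ∀ z ∈ ball (0 : ℂ) 1, T z ≠ z := by
    intro z hz h
    have h1 := hFT z hz
    rw [h] at h1
    exact hpi (left_eq_add.1 h1)
  obtain ⟨b, c, hb, hcn, hform⟩ := disc_aut hTd hTb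
  obtain ⟨M, hMd, hMb, hM⟩ := aut_classify hb hcn hform hTb nf
  obtain ⟨N, hNd, hNb, hNM, hMN⟩ := a24_inv isOpen_ball hMd hMb
  rcases hM with ⟨α, hα0, hα1, hα⟩ | ⟨β, hβ0, hβ⟩
  · obtain ⟨T0, hT0, P, hPd, hPb, hP⟩ := strip_uhp hα0 hα1
    refine ⟨T0, hT0, fun s => F (N (P s)), ?_, ?_, ?_⟩
    · exact hFd.comp (hNd.comp hPd.differentiableOn hPb.mapsTo)
        (hNb.mapsTo.comp hPb.mapsTo)
    · exact hFb.comp (hNb.comp hPb)
    · intro s hs'
      have hw := hPb.mapsTo hs'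
      have hz := hNb.mapsTo hw
      change F (N (P (s + 2 * Real.pi * I))) = F (N (P s)) + 2 * Real.pi * I
      rw [hP s]
      have h1 := hα _ hz
      rw [hMN _ hw] at h1
      rw [← h1, hNM _ (hTm hz), hFT _ hz]
  · exfalso
    have key : ∀ (γ : ℝ) (e : ℤ), 0 < γ → (e = 1 ∨ e = -1) →
        (∀ s ∈ rhp, N ((γ * I) * (s + 2 * Real.pi * I)) = N ((γ * I) * s + (e : ℂ) * β)) →
        False := by
      intro γ e hγ he hper
      obtain ⟨hQd, hQb⟩ := a24_halfplane hγ
      let G : ℂ → ℂ := fun s => F (N ((γ * I) * s))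
      have hGd : DifferentiableOn ℂ G rhp :=
        hFd.comp (hNd.comp hQd hQb.mapsTo) (hNb.mapsTo.comp hQb.mapsTo)
      have hGb : BijOn G rhp (logCover X) := hFb.comp (hNb.comp hQb)
      have him : (fun s => exp (G s)) '' rhp = ball 0 1 \ X := by
        rw [← logCover_image h0, ← hGb.image_eq, image_image]
      refine nX.not_subsingleton (parabolic_point hX.isClosed hs cX hGd hGb.injOn him he ?_)
      intro s hs'
      change F (N ((γ * I) * (s + 2 * Real.pi * I))) = F (N ((γ * I) * s)) + 2 * Real.pi * e * I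
      rw [hper s hs']
      have hw := hQb.mapsTo hs'
      have hw' : (γ * I) * s ∈ UHP := hw
      have hz := hNb.mapsTo hw'
      rcases he with rfl | rfl
      · have h1 := hβ _ hz
        rw [hMN _ hw'] at h1
        have h2 : (γ * I) * s + ((1 : ℤ) : ℂ) * β = M (T (N ((γ * I) * s))) := by
          rw [h1]; push_cast; ring
        rw [h2, hNM _ (hTm hz), hFT _ hz]
        push_cast; ring
      · have hu : (γ * I) * s + ((-1 : ℤ) : ℂ) * β ∈ UHP := by
          change 0 < ((γ * I) * s + ((-1 : ℤ) : ℂ) * β).im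
          have h3 : 0 < ((γ * I) * s).im := hw'
          have h4 : ((γ * I) * s + ((-1 : ℤ) : ℂ) * β).im = ((γ * I) * s).im := by
            rw [Complex.add_im]
            simp
          rw [h4]
          exact h3
        have hz2 := hNb.mapsTo hu
        have h1 := hβ _ hz2
        rw [hMN _ hu] at h1
        have h2 : M (T (N ((γ * I) * s + ((-1 : ℤ) : ℂ) * β))) = (γ * I) * s := by
          rw [h1]; push_cast; ring
        have h3 : T (N ((γ * I) * s + ((-1 : ℤ) : ℂ) * β)) = N ((γ * I) * s) := by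
          have h5 := hNM _ (hTm hz2)
          rw [h2] at h5
          exact h5.symm
        have h4 := hFT _ hz2
        rw [h3] at h4
        rw [h4]
        push_cast; ring
    have hpi0 : (0 : ℝ) < 2 * Real.pi := by positivity
    have hcast : ((2 : ℂ) * (Real.pi : ℂ)) ≠ 0 := by
      have : (Real.pi : ℂ) ≠ 0 := by exact_mod_cast Real.pi_ne_zero
      simp [this]
    rcases lt_or_gt_of_ne hβ0 with hneg | hpos
    · refine key (-β / (2 * Real.pi)) 1 (div_pos (by linarith) hpi0) (Or.inl rfl) ?_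
      intro s _
      congr 1
      push_cast
      field_simp
      ring_nf
      rw [I_sq]
      ring
    · refine key (β / (2 * Real.pi)) (-1) (div_pos hpos hpi0) (Or.inr rfl) ?_
      intro s _
      congr 1
      push_cast
      field_simp
      ring_nf
      rw [I_sq]
      ring

end CF6

end

section

/-!
# A25: the ends of an annulus chart

`ψ` is locally injective on the strip (`inj`: on sets of diameter `< 2π`), holomorphic, so open (`univ_open` on small balls).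
* `chart_proper`: `Q ⊆ A` compact. The sets `ψ '' {s | 1/(m+1) < s.re < T - 1/(m+1)}` are open, increasing with union `A`, so one
  contains `Q`. If `ψ s ∈ Q`, `s ∈ strip T`, then `ψ s = ψ s'` with `s'` in that substrip, and `s.re = s'.re` by `inj`. So `η = 1/(m+1)`.
* `chart_ends`: let `d > 0` be the distance of `L` and `M` (one is compact: `A` is bounded, `{R < ‖z‖}` is connected and contained in
  `L ∪ M`, so in one of them; the other is bounded). `ε ≤ d/4`. `Q_ε = {z | ε ≤ infDist z Aᶜ}` is a compact subset of `A`. By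
  `chart_proper` `ψ '' {0 < re < η}` does not meet `Q_ε`, so it is contained in `{infDist · L < ε} ∪ {infDist · M < ε}` (disjoint open sets),
  connected (continuous image of the convex strip `{0 < re < η}`), so contained in one of them; the choice does not depend on `ε`
  (the substrips are nested, nonempty). Same for `{T - η < re < T}`. If both ends go to `M`: for small `ε` and the `η` for both ends,
  `ψ '' strip T ⊆ {infDist · M < ε} ∪ ψ '' {η ≤ re ≤ T - η}`, and the last set is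
  `ψ '' {s | η ≤ re s ≤ T - η, 0 ≤ im s ≤ 2π}`, a compact subset of `A`, has positive distance from `L`; but `L` meets `closure A`
  (otherwise `L` is closed and open: its complement is `closure A ∪ M`), and points of `A` close to `L` are not `ε`-close to `M`.
  Contradiction. So one end goes to `L`, the other to `M`.
* `chart_flip`: `s ↦ ψ (T - s)` (`T - (s + 2πi) = (T - s) - 2πi`).
-/

open Complex Set Filter Topology Metric

namespace CF6

theorem a25b_strip_add {T : ℝ} {s : ℂ} (hs : s ∈ strip T) (n : ℤ) :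
    s + 2 * Real.pi * n * I ∈ strip T := by
  have h1 : (s + 2 * Real.pi * n * I).re = s.re := by simp
  unfold strip at hs ⊢
  rw [Set.mem_ofPred_eq] at hs ⊢
  rw [h1]
  exact hs

theorem a25b_per {T : ℝ} {ψ : ℂ → ℂ} (per : ∀ s ∈ strip T, ψ (s + 2 * Real.pi * I) = ψ s)
    {s : ℂ} (hs : s ∈ strip T) (n : ℤ) : ψ (s + 2 * Real.pi * n * I) = ψ s := by
  induction n using Int.induction_on with
  | zero => simp
  | succ k ih =>
    have h1 := per _ (a25b_strip_add hs (k : ℤ))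
    rw [ih] at h1
    rw [← h1]
    congr 1
    push_cast
    ring
  | pred k ih =>
    have h1 := per _ (a25b_strip_add hs (-(k : ℤ) - 1))
    rw [← h1, ← ih]
    congr 1
    push_cast
    ring

theorem a25b_reduce {T : ℝ} {ψ : ℂ → ℂ} (per : ∀ s ∈ strip T, ψ (s + 2 * Real.pi * I) = ψ s)
    {s : ℂ} (hs : s ∈ strip T) :
    ∃ s' ∈ strip T, s'.re = s.re ∧ 0 ≤ s'.im ∧ s'.im ≤ 2 * Real.pi ∧ ψ s' = ψ s := by
  have hpi : 0 < 2 * Real.pi := Real.two_pi_pos
  set n : ℤ := ⌊s.im / (2 * Real.pi)⌋ with hn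
  have h1 : (n : ℝ) ≤ s.im / (2 * Real.pi) := Int.floor_le _
  have h2 : s.im / (2 * Real.pi) < n + 1 := Int.lt_floor_add_one _
  rw [le_div_iff₀ hpi] at h1
  rw [div_lt_iff₀ hpi] at h2
  refine ⟨s + 2 * Real.pi * ((-n : ℤ) : ℂ) * I, a25b_strip_add hs (-n), ?_, ?_, ?_,
    a25b_per per hs (-n)⟩
  · simp
  · have h3 : (s + 2 * Real.pi * ((-n : ℤ) : ℂ) * I).im = s.im - n * (2 * Real.pi) := by
      simp
      ring
    rw [h3]
    linarith
  · have h3 : (s + 2 * Real.pi * ((-n : ℤ) : ℂ) * I).im = s.im - n * (2 * Real.pi) := by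
      simp
      ring
    rw [h3]
    linarith

theorem a25b_flip_mem {T : ℝ} {s : ℂ} (hs : s ∈ strip T) : (T : ℂ) - s ∈ strip T := by
  obtain ⟨h1, h2⟩ := hs
  have h3 : ((T : ℂ) - s).re = T - s.re := by simp
  refine ⟨?_, ?_⟩
  · rw [h3]
    linarith
  · rw [h3]
    linarith

theorem a25b_left {A L M : Set ℂ} {T : ℝ} {ψ : ℂ → ℂ} (hA : IsOpen A)
    (bA : Bornology.IsBounded A) (hL : IsClosed L) (hM : IsClosed M) (nL : L.Nonempty)
    (nM : M.Nonempty) (dis : Disjoint L M) (un : L ∪ M = Aᶜ) (hT : 0 < T)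
    (hd : DifferentiableOn ℂ ψ (strip T)) (per : ∀ s ∈ strip T, ψ (s + 2 * Real.pi * I) = ψ s)
    (inj : ∀ s ∈ strip T, ∀ s' ∈ strip T, ψ s = ψ s' → ∃ n : ℤ, s' = s + 2 * Real.pi * n * I)
    (image : ψ '' strip T = A) :
    (∀ ε > (0 : ℝ), ∃ η > (0 : ℝ), ∀ s ∈ strip T, s.re < η → infDist (ψ s) M < ε) ∨
      (∀ ε > (0 : ℝ), ∃ η > (0 : ℝ), ∀ s ∈ strip T, s.re < η → infDist (ψ s) L < ε) := by
  have hmem : ∀ s ∈ strip T, ψ s ∈ A := fun s hs => image ▸ mem_image_of_mem ψ hs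
  -- a uniform lower bound
  have hdelta : ∃ δ > (0 : ℝ), ∀ z ∈ A, 2 * δ ≤ infDist z L + infDist z M := by
    have hcont : Continuous fun z => infDist z L + infDist z M :=
      (continuous_infDist_pt L).add (continuous_infDist_pt M)
    have hcpt : IsCompact (closure A) := bA.isCompact_closure
    rcases (closure A).eq_empty_or_nonempty with he | hne
    · refine ⟨1, one_pos, fun z hz => ?_⟩
      have := subset_closure hz
      rw [he] at this
      exact absurd this (notMem_empty z)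
    · obtain ⟨z0, _, hmin⟩ := hcpt.exists_isMinOn hne hcont.continuousOn
      have hpos : 0 < infDist z0 L + infDist z0 M := by
        by_contra hle
        push Not at hle
        have h1 : infDist z0 L = 0 := le_antisymm
          (by linarith [infDist_nonneg (x := z0) (s := M)]) infDist_nonneg
        have h2 : infDist z0 M = 0 := le_antisymm
          (by linarith [infDist_nonneg (x := z0) (s := L)]) infDist_nonneg
        have h3 := (hL.mem_iff_infDist_zero nL).mpr h1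
        have h4 := (hM.mem_iff_infDist_zero nM).mpr h2
        exact Set.disjoint_left.mp dis h3 h4
      refine ⟨(infDist z0 L + infDist z0 M) / 2, by linarith, fun z hz => ?_⟩
      have := hmin (subset_closure hz)
      simp only [Set.mem_ofPred_eq] at this
      linarith
  obtain ⟨δ, hδ, hδA⟩ := hdelta
  have nAc : (Aᶜ : Set ℂ).Nonempty := by
    rw [← un]
    exact nL.mono subset_union_left
  -- the points near the end are near `L` or near `M`
  have hnear : ∀ ε > (0 : ℝ), ∃ η > (0 : ℝ), ∀ s ∈ strip T, s.re < η →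
      infDist (ψ s) L < ε ∨ infDist (ψ s) M < ε := by
    intro ε hε
    have hQc : IsCompact {z : ℂ | ε ≤ infDist z Aᶜ} := by
      refine Metric.isCompact_of_isClosed_isBounded
        (isClosed_le continuous_const (continuous_infDist_pt _)) (bA.subset fun z hz => ?_)
      by_contra hzA
      have h1 : infDist z Aᶜ = 0 := infDist_zero_of_mem hzA
      have h2 : ε ≤ infDist z Aᶜ := hz
      linarith
    have hQs : {z : ℂ | ε ≤ infDist z Aᶜ} ⊆ A := by
      intro z hz
      by_contra hzA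
      have h1 : infDist z Aᶜ = 0 := infDist_zero_of_mem hzA
      have h2 : ε ≤ infDist z Aᶜ := hz
      linarith
    obtain ⟨η, hη, hprop⟩ := chart_proper hd per inj image hQc hQs
    refine ⟨η, hη, fun s hs hsη => ?_⟩
    have h1 : ψ s ∉ {z : ℂ | ε ≤ infDist z Aᶜ} := by
      intro h
      have := (hprop s hs h).1
      linarith
    rw [Set.mem_ofPred_eq, not_le, infDist_lt_iff nAc] at h1
    obtain ⟨w, hw, hdw⟩ := h1
    rw [← un] at hw
    rcases hw with hw | hw
    · exact Or.inl ((infDist_le_dist_of_mem hw).trans_lt hdw)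
    · exact Or.inr ((infDist_le_dist_of_mem hw).trans_lt hdw)
  -- connectedness
  obtain ⟨η₀, hη₀, hη₀s⟩ := hnear δ hδ
  set E : Set ℂ := {s | 0 < s.re ∧ s.re < min η₀ T} with hE
  have hEs : E ⊆ strip T := fun s hs => ⟨hs.1, hs.2.trans_le (min_le_right _ _)⟩
  have hEc : IsPreconnected E := by
    have h1 : Convex ℝ E := by
      have h2 : E = {s : ℂ | 0 < s.re} ∩ {s | s.re < min η₀ T} := rfl
      rw [h2]
      exact (convex_halfSpace_re_gt 0).inter (convex_halfSpace_re_lt _)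
    exact h1.isPreconnected
  have himg : IsPreconnected (ψ '' E) := hEc.image ψ (hd.continuousOn.mono hEs)
  set UL : Set ℂ := {z | infDist z L < δ} ∩ A with hUL
  set UM : Set ℂ := {z | infDist z M < δ} ∩ A with hUM
  have hULo : IsOpen UL := (isOpen_lt (continuous_infDist_pt L) continuous_const).inter hA
  have hUMo : IsOpen UM := (isOpen_lt (continuous_infDist_pt M) continuous_const).inter hA
  have hdisj : ∀ z ∈ A, infDist z L < δ → infDist z M < δ → False := by
    intro z hz h1 h2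
    have := hδA z hz
    linarith
  have hUd : Disjoint UL UM := by
    rw [Set.disjoint_left]
    intro z hz hz'
    exact hdisj z hz.2 hz.1 hz'.1
  have hsub : ψ '' E ⊆ UL ∪ UM := by
    rintro _ ⟨s, hs, rfl⟩
    have h1 := hη₀s s (hEs hs) (hs.2.trans_le (min_le_left _ _))
    rcases h1 with h1 | h1
    · exact Or.inl ⟨h1, hmem s (hEs hs)⟩
    · exact Or.inr ⟨h1, hmem s (hEs hs)⟩
  have hmin0 : 0 < min η₀ T := lt_min hη₀ hT
  rcases IsPreconnected.subset_or_subset hULo hUMo hUd hsub himg with h | h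
  · right
    intro ε hε
    obtain ⟨η, hη, hηs⟩ := hnear (min ε δ) (lt_min hε hδ)
    refine ⟨min η (min η₀ T), lt_min hη hmin0, fun s hs hsη => ?_⟩
    have h1 : ψ s ∈ UL := h (mem_image_of_mem ψ ⟨hs.1, hsη.trans_le (min_le_right _ _)⟩)
    rcases hηs s hs (hsη.trans_le (min_le_left _ _)) with h2 | h2
    · exact h2.trans_le (min_le_left _ _)
    · exact (hdisj _ h1.2 h1.1 (h2.trans_le (min_le_right _ _))).elim
  · left
    intro ε hε
    obtain ⟨η, hη, hηs⟩ := hnear (min ε δ) (lt_min hε hδ)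
    refine ⟨min η (min η₀ T), lt_min hη hmin0, fun s hs hsη => ?_⟩
    have h1 : ψ s ∈ UM := h (mem_image_of_mem ψ ⟨hs.1, hsη.trans_le (min_le_right _ _)⟩)
    rcases hηs s hs (hsη.trans_le (min_le_left _ _)) with h2 | h2
    · exact (hdisj _ h1.2 (h2.trans_le (min_le_right _ _)) h1.1).elim
    · exact h2.trans_le (min_le_left _ _)

theorem a25b_both {A L M : Set ℂ} {T : ℝ} {ψ : ℂ → ℂ} (hL : IsClosed L) (hM : IsClosed M)
    (nL : L.Nonempty) (nM : M.Nonempty) (dis : Disjoint L M) (un : L ∪ M = Aᶜ)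
    (hd : DifferentiableOn ℂ ψ (strip T)) (per : ∀ s ∈ strip T, ψ (s + 2 * Real.pi * I) = ψ s)
    (image : ψ '' strip T = A)
    (h1 : ∀ ε > (0 : ℝ), ∃ η > (0 : ℝ), ∀ s ∈ strip T, s.re < η → infDist (ψ s) M < ε)
    (h2 : ∀ ε > (0 : ℝ), ∃ η > (0 : ℝ), ∀ s ∈ strip T, T - η < s.re → infDist (ψ s) M < ε) :
    False := by
  -- `L` meets the closure of `A`
  have hx : ∃ x ∈ L, x ∈ closure A := by
    by_contra hne
    push Not at hne
    have hLo : IsOpen L := by
      rw [← isClosed_compl_iff]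
      have h3 : Lᶜ = closure A ∪ M := by
        ext z
        constructor
        · intro hz
          by_cases hzA : z ∈ A
          · exact Or.inl (subset_closure hzA)
          · have h4 : z ∈ L ∪ M := by
              rw [un]
              exact hzA
            rcases h4 with h4 | h4
            · exact absurd h4 hz
            · exact Or.inr h4
        · rintro (hz | hz) hzL
          · exact hne z hzL hz
          · exact Set.disjoint_left.mp dis hzL hz
      rw [h3]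
      exact isClosed_closure.union hM
    rcases isClopen_iff.mp ⟨hL, hLo⟩ with h3 | h3
    · rw [h3] at nL
      exact Set.not_nonempty_empty nL
    · obtain ⟨y, hy⟩ := nM
      exact Set.disjoint_left.mp dis (h3 ▸ mem_univ y) hy
  obtain ⟨x, hxL, hxA⟩ := hx
  have hxM : x ∉ M := fun h => Set.disjoint_left.mp dis hxL h
  have hm : 0 < infDist x M := (hM.notMem_iff_infDist_pos nM).mp hxM
  set m : ℝ := infDist x M with hmdef
  obtain ⟨η₁, hη₁, hs1⟩ := h1 (m / 2) (by linarith)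
  obtain ⟨η₂, hη₂, hs2⟩ := h2 (m / 2) (by linarith)
  set R : Set ℂ := Icc η₁ (T - η₂) ×ℂ Icc 0 (2 * Real.pi) with hR
  have hRc : IsCompact R := isCompact_Icc.reProdIm isCompact_Icc
  have hRs : R ⊆ strip T := by
    intro s hs
    rw [hR, mem_reProdIm] at hs
    exact ⟨by linarith [hs.1.1], by linarith [hs.1.2]⟩
  have hKc : IsCompact (ψ '' R) := hRc.image_of_continuousOn (hd.continuousOn.mono hRs)
  have hxK : x ∉ ψ '' R := by
    intro h
    have h3 : x ∈ A := by
      rw [← image]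
      exact image_mono hRs h
    have h4 : x ∈ Aᶜ := by
      rw [← un]
      exact Or.inl hxL
    exact h4 h3
  have hopen : IsOpen ((ψ '' R)ᶜ ∩ ball x (m / 4)) := hKc.isClosed.isOpen_compl.inter isOpen_ball
  obtain ⟨z, ⟨hzK, hzb⟩, hzA⟩ := mem_closure_iff.mp hxA _ hopen
    ⟨hxK, mem_ball_self (by linarith)⟩
  rw [← image] at hzA
  obtain ⟨s, hs, rfl⟩ := hzA
  have hzM : m / 2 ≤ infDist (ψ s) M := by
    have h3 : infDist x M ≤ infDist (ψ s) M + dist x (ψ s) := infDist_le_infDist_add_dist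
    rw [mem_ball, dist_comm] at hzb
    rw [← hmdef] at h3
    linarith
  obtain ⟨s', hs', hre, him0, him1, hψ⟩ := a25b_reduce per hs
  apply hzK
  refine ⟨s', ?_, hψ⟩
  rw [hR, mem_reProdIm]
  refine ⟨⟨?_, ?_⟩, him0, him1⟩
  · rw [hre]
    by_contra hlt
    push Not at hlt
    linarith [hs1 s hs hlt]
  · rw [hre]
    by_contra hlt
    push Not at hlt
    linarith [hs2 s hs hlt]

theorem chart_ends {A L M : Set ℂ} {T : ℝ} {ψ : ℂ → ℂ} (hA : IsOpen A) (cA : IsConnected A)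
    (bA : Bornology.IsBounded A) (hL : IsClosed L) (hM : IsClosed M) (cL : IsConnected L)
    (cM : IsConnected M) (dis : Disjoint L M) (un : L ∪ M = Aᶜ) (hT : 0 < T)
    (hd : DifferentiableOn ℂ ψ (strip T)) (per : ∀ s ∈ strip T, ψ (s + 2 * Real.pi * I) = ψ s)
    (inj : ∀ s ∈ strip T, ∀ s' ∈ strip T, ψ s = ψ s' → ∃ n : ℤ, s' = s + 2 * Real.pi * n * I)
    (image : ψ '' strip T = A) : ∃ ψ' : ℂ → ℂ, StripChart A L M T ψ' := by
  have hd' : DifferentiableOn ℂ (fun s => ψ (T - s)) (strip T) := by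
    intro s hs
    exact DifferentiableWithinAt.comp s (hd _ (a25b_flip_mem hs))
      ((differentiableAt_const _).sub differentiableAt_id).differentiableWithinAt
      (fun s hs => a25b_flip_mem hs)
  have per' : ∀ s ∈ strip T, ψ (T - (s + 2 * Real.pi * I)) = ψ (T - s) := by
    intro s hs
    have h1 := a25b_per per (a25b_flip_mem hs) (-1)
    rw [← h1]
    congr 1
    push_cast
    ring
  have inj' : ∀ s ∈ strip T, ∀ s' ∈ strip T, ψ (T - s) = ψ (T - s') →
      ∃ n : ℤ, s' = s + 2 * Real.pi * n * I := by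
    intro s hs s' hs' h
    obtain ⟨n, hn⟩ := inj _ (a25b_flip_mem hs) _ (a25b_flip_mem hs') h
    refine ⟨-n, ?_⟩
    push_cast
    linear_combination -hn
  have image' : (fun s => ψ (T - s)) '' strip T = A := by
    rw [← image]
    ext z
    constructor
    · rintro ⟨s, hs, rfl⟩
      exact ⟨T - s, a25b_flip_mem hs, rfl⟩
    · rintro ⟨s, hs, rfl⟩
      refine ⟨T - s, a25b_flip_mem hs, ?_⟩
      simp
  have hright : ∀ N : Set ℂ, (∀ ε > (0 : ℝ), ∃ η > (0 : ℝ), ∀ s ∈ strip T, s.re < η →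
      infDist (ψ (T - s)) N < ε) →
      ∀ ε > (0 : ℝ), ∃ η > (0 : ℝ), ∀ s ∈ strip T, T - η < s.re → infDist (ψ s) N < ε := by
    intro N h ε hε
    obtain ⟨η, hη, hs⟩ := h ε hε
    refine ⟨η, hη, fun s hs' hre => ?_⟩
    have h1 := hs (T - s) (a25b_flip_mem hs') (by
      simp
      linarith)
    simpa using h1
  have hleft : ∀ N : Set ℂ, (∀ ε > (0 : ℝ), ∃ η > (0 : ℝ), ∀ s ∈ strip T, s.re < η →
      infDist (ψ s) N < ε) →
      ∀ ε > (0 : ℝ), ∃ η > (0 : ℝ), ∀ s ∈ strip T, T - η < s.re → infDist (ψ (T - s)) N < ε := by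
    intro N h ε hε
    obtain ⟨η, hη, hs⟩ := h ε hε
    refine ⟨η, hη, fun s hs' hre => ?_⟩
    exact hs (T - s) (a25b_flip_mem hs') (by
      simp
      linarith)
  rcases a25b_left hA bA hL hM cL.nonempty cM.nonempty dis un hT hd per inj image with h1 | h1
  · rcases a25b_left (ψ := fun s => ψ (T - s)) hA bA hL hM cL.nonempty cM.nonempty dis un hT
      hd' per' inj' image' with h2 | h2
    · exact (a25b_both hL hM cL.nonempty cM.nonempty dis un hd per image h1 (hright M h2)).elim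
    · exact ⟨ψ, hT, hd, per, inj, image, h1, hright L h2⟩
  · rcases a25b_left (ψ := fun s => ψ (T - s)) hA bA hL hM cL.nonempty cM.nonempty dis un hT
      hd' per' inj' image' with h2 | h2
    · exact ⟨fun s => ψ (T - s), hT, hd', per', inj', image', h2, hleft L h1⟩
    · exact (a25b_both hM hL cM.nonempty cL.nonempty dis.symm (by rw [union_comm]; exact un)
        hd per image h1 (hright L h2)).elim

end CF6

end

section

/-!
# A26: uniformisation of doubly connected domains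

`fill_domain`: `A` open connected bounded, `Aᶜ = X ∪ Y`, closed connected disjoint, `X` compact, `Y` not bounded. `U = Yᶜ = A ∪ X` is
open, bounded, connected (`X` meets `closure A`: otherwise `X` is closed and open), without holes (`noHole_of_conn`), not `univ`.
`rmt` with `a ∈ X`: `F : ball → U`, `F 0 = a`, inverse `g`. `X1 = g '' X` is compact, connected, contained in the ball, contains `0`,
`ball 0 1 \ X1 = g '' A` connected.
`exists_chart`: exactly one of `L`, `M` is bounded (`{R < ‖z‖} ⊆ Aᶜ` connected). Call it `X`, the other `Y`; `X` nontrivial, so is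
`X1`. `exists_strip_map`: `T, G`; `ψ = F ∘ exp ∘ G`. periodic, `inj`: `exp (G s) = exp (G s')` gives `G s' = G s + 2πi n = G (s + 2πi n)`, `image` from
`logCover_image`. Then `chart_ends`.
`exists_chart_punct`: `L = {p}`; `L` is bounded, so `X = L`, `Y = M`; `X1 = {0}`, `ψ s = F (exp (-s))`. `endL`: `exp (-s) → 0`. `endM`: `Q = {z | ε ≤ infDist z M}`
is a compact subset of `U = Mᶜ` (bounded), so `g '' Q` is compact in the ball, contained in `closedBall 0 r`, `r < 1`; if `exp (-re s) > r` then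
`F (exp (-s)) ∉ Q`.
-/

open Complex Set Filter Topology Metric

namespace CF6

/-- the union is the complement of `Y` -/
theorem a26a_union {A X Y : Set ℂ} (dis : Disjoint X Y) (un : X ∪ Y = Aᶜ) : A ∪ X = Yᶜ := by
  ext z
  constructor
  · rintro (hz | hz) hzY
    · have h1 : z ∈ Aᶜ := un ▸ Or.inr hzY
      exact h1 hz
    · exact Set.disjoint_left.1 dis hz hzY
  · intro hz
    by_cases hzA : z ∈ A
    · exact Or.inl hzA
    · have h1 : z ∈ X ∪ Y := by rw [un]; exact hzA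
      rcases h1 with h1 | h1
      · exact Or.inr h1
      · exact absurd h1 hz

theorem a26a_meets {A X Y : Set ℂ} (hX : IsCompact X) (hY : IsClosed Y) (cX : IsConnected X)
    (cY : IsConnected Y) (dis : Disjoint X Y) (un : X ∪ Y = Aᶜ) : (X ∩ closure A).Nonempty := by
  by_contra hne
  have hemp : ∀ z, z ∈ X → z ∉ closure A := fun z hz hz' => hne ⟨z, hz, hz'⟩
  have hXc : Xᶜ = closure A ∪ Y := by
    ext z
    constructor
    · intro hz
      by_cases hzA : z ∈ A
      · exact Or.inl (subset_closure hzA)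
      · have h1 : z ∈ X ∪ Y := by rw [un]; exact hzA
        rcases h1 with h1 | h1
        · exact absurd h1 hz
        · exact Or.inr h1
    · rintro (hz | hz) hzX
      · exact hemp z hzX hz
      · exact Set.disjoint_left.1 dis hzX hz
  have hXo : IsOpen X := by
    rw [← isClosed_compl_iff, hXc]
    exact isClosed_closure.union hY
  have hclopen : IsClopen X := ⟨hX.isClosed, hXo⟩
  rcases isClopen_iff.1 hclopen with h | h
  · exact cX.nonempty.ne_empty h
  · obtain ⟨y, hy⟩ := cY.nonempty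
    exact Set.disjoint_left.1 dis (h ▸ Set.mem_univ y) hy

theorem a26a_conn {A X Y : Set ℂ} (cA : IsConnected A)
    (hX : IsCompact X) (hY : IsClosed Y) (cX : IsConnected X)
    (cY : IsConnected Y) (dis : Disjoint X Y) (un : X ∪ Y = Aᶜ) : IsConnected Yᶜ := by
  have hm := a26a_meets hX hY cX cY dis un
  have h1 : IsConnected (A ∪ (X ∩ closure A)) :=
    cA.subset_closure Set.subset_union_left
      (Set.union_subset subset_closure Set.inter_subset_right)
  have h2 : IsConnected ((A ∪ (X ∩ closure A)) ∪ X) := by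
    refine IsConnected.union ?_ h1 cX
    obtain ⟨z, hz⟩ := hm
    exact ⟨z, Or.inr hz, hz.1⟩
  have h3 : (A ∪ (X ∩ closure A)) ∪ X = Yᶜ := by
    rw [← a26a_union dis un, Set.union_assoc]
    congr 1
    exact Set.union_eq_self_of_subset_left Set.inter_subset_left
  rwa [h3] at h2

theorem fill_domain {A X Y : Set ℂ} (hA : IsOpen A) (cA : IsConnected A)
    (bA : Bornology.IsBounded A) (hX : IsCompact X) (hY : IsClosed Y) (cX : IsConnected X)
    (cY : IsConnected Y) (dis : Disjoint X Y) (un : X ∪ Y = Aᶜ) (bY : ¬ Bornology.IsBounded Y)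
    {a : ℂ} (ha : a ∈ X) :
    ∃ F g : ℂ → ℂ, DifferentiableOn ℂ F (ball 0 1) ∧ InjOn F (ball 0 1) ∧ F '' ball 0 1 = Yᶜ ∧
      F 0 = a ∧ DifferentiableOn ℂ g Yᶜ ∧ (∀ z ∈ ball (0 : ℂ) 1, g (F z) = z) ∧
      (∀ w ∈ Yᶜ, g w ∈ ball (0 : ℂ) 1 ∧ F (g w) = w) ∧ IsCompact (g '' X) ∧
      IsConnected (g '' X) ∧ ball 0 1 \ g '' X = g '' A ∧ IsConnected (ball 0 1 \ g '' X) ∧
      (0 : ℂ) ∈ g '' X := by
  have hU : A ∪ X = Yᶜ := a26a_union dis un
  have hAU : A ⊆ Yᶜ := hU ▸ Set.subset_union_left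
  have hXU : X ⊆ Yᶜ := hU ▸ Set.subset_union_right
  have hUo : IsOpen Yᶜ := hY.isOpen_compl
  have hUc : IsConnected Yᶜ := a26a_conn cA hX hY cX cY dis un
  have hn : NoHole Yᶜ := noHole_of_conn (by rw [compl_compl]; exact cY.isPreconnected)
    (by rw [compl_compl]; exact bY)
  have hne : Yᶜ ≠ univ := by
    intro h
    obtain ⟨y, hy⟩ := cY.nonempty
    have h1 : y ∈ Yᶜ := h ▸ Set.mem_univ y
    exact h1 hy
  obtain ⟨F, hFd, hFi, hFim, hF0⟩ := rmt hUo hUc hn hne (hXU ha)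
  obtain ⟨g, hgd, hgl, hgr⟩ := univ_inverse isOpen_ball hFd hFi
  rw [hFim] at hgd hgr
  have hdisAX : ∀ z ∈ A, z ∉ X := by
    intro z hz hzX
    have h1 : z ∈ Aᶜ := un ▸ Or.inl hzX
    exact h1 hz
  have hdiff : ball 0 1 \ g '' X = g '' A := by
    ext z
    constructor
    · rintro ⟨hz, hzX⟩
      have h1 : F z ∈ A ∪ X := by rw [hU, ← hFim]; exact Set.mem_image_of_mem F hz
      rcases h1 with h1 | h1
      · exact ⟨F z, h1, hgl z hz⟩
      · exact absurd ⟨F z, h1, hgl z hz⟩ hzX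
    · rintro ⟨w, hw, rfl⟩
      refine ⟨(hgr w (hAU hw)).1, ?_⟩
      rintro ⟨x, hx, hxw⟩
      have h1 : x = w := by
        rw [← (hgr x (hXU hx)).2, hxw, (hgr w (hAU hw)).2]
      exact hdisAX w hw (h1 ▸ hx)
  refine ⟨F, g, hFd, hFi, hFim, hF0, hgd, hgl, hgr, ?_, ?_, hdiff, ?_, ?_⟩
  · exact hX.image_of_continuousOn (hgd.continuousOn.mono hXU)
  · exact cX.image g (hgd.continuousOn.mono hXU)
  · rw [hdiff]
    exact cA.image g (hgd.continuousOn.mono hAU)
  · refine ⟨a, ha, ?_⟩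
    rw [← hF0]
    exact hgl 0 (mem_ball_self one_pos)

end CF6

end

section

/-!
# A26: uniformisation of doubly connected domains

`fill_domain`: `A` open connected bounded, `Aᶜ = X ∪ Y`, closed connected disjoint, `X` compact, `Y` not bounded. `U = Yᶜ = A ∪ X` is
open, bounded, connected (`X` meets `closure A`: otherwise `X` is closed and open), without holes (`noHole_of_conn`), not `univ`.
`rmt` with `a ∈ X`: `F : ball → U`, `F 0 = a`, inverse `g`. `X1 = g '' X` is compact, connected, contained in the ball, contains `0`,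
`ball 0 1 \ X1 = g '' A` connected.
`exists_chart`: exactly one of `L`, `M` is bounded (`{R < ‖z‖} ⊆ Aᶜ` connected). Call it `X`, the other `Y`; `X` nontrivial, so is
`X1`. `exists_strip_map`: `T, G`; `ψ = F ∘ exp ∘ G`. periodic, `inj`: `exp (G s) = exp (G s')` gives `G s' = G s + 2πi n = G (s + 2πi n)`, `image` from
`logCover_image`. Then `chart_ends`.
`exists_chart_punct`: `L = {p}`; `L` is bounded, so `X = L`, `Y = M`; `X1 = {0}`, `ψ s = F (exp (-s))`. `endL`: `exp (-s) → 0`. `endM`: `Q = {z | ε ≤ infDist z M}`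
is a compact subset of `U = Mᶜ` (bounded), so `g '' Q` is compact in the ball, contained in `closedBall 0 r`, `r < 1`; if `exp (-re s) > r` then
`F (exp (-s)) ∉ Q`.
-/

open Complex Set Filter Topology Metric

namespace CF6

theorem a26b_outer_conn (R : ℝ) (hR : 0 < R) : IsPreconnected {z : ℂ | R < ‖z‖} := by
  have h1 : {z : ℂ | R < ‖z‖} = exp '' {ζ : ℂ | Real.log R < ζ.re} := by
    ext z
    constructor
    · intro hz
      have hz0 : z ≠ 0 := by
        rintro rfl
        have : R < 0 := by simpa using hz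
        linarith
      refine ⟨log z, ?_, exp_log hz0⟩
      show Real.log R < (log z).re
      rw [log_re]
      exact Real.log_lt_log hR hz
    · rintro ⟨ζ, hζ, rfl⟩
      show R < ‖exp ζ‖
      rw [norm_exp, ← Real.exp_log hR]
      exact Real.exp_lt_exp.2 hζ
  rw [h1]
  exact ((convex_halfSpace_re_gt _).isPreconnected).image _ continuous_exp.continuousOn

theorem a26b_unbdd {A L M : Set ℂ} (bA : Bornology.IsBounded A) (un : L ∪ M = Aᶜ)
    (bL : Bornology.IsBounded L) : ¬ Bornology.IsBounded M := by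
  intro bM
  have h1 : Bornology.IsBounded (A ∪ (L ∪ M)) := bA.union (bL.union bM)
  rw [un, union_compl_self] at h1
  exact NormedSpace.unbounded_univ ℝ ℂ h1

theorem a26b_one {A L M : Set ℂ} (bA : Bornology.IsBounded A) (hL : IsClosed L) (hM : IsClosed M)
    (dis : Disjoint L M) (un : L ∪ M = Aᶜ) (bL : ¬ Bornology.IsBounded L) :
    Bornology.IsBounded M := by
  by_contra bM
  obtain ⟨R, hR⟩ := (isBounded_iff_forall_norm_le.1 bA)
  set R' := max R 1 with hR'
  have hR'0 : 0 < R' := lt_of_lt_of_le one_pos (le_max_right _ _)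
  have hsub : {z : ℂ | R' < ‖z‖} ⊆ L ∪ M := by
    intro z hz
    rw [un]
    intro hzA
    have h1 := hR z hzA
    have h2 : R' < ‖z‖ := hz
    have h3 : R ≤ R' := le_max_left _ _
    linarith
  have key : ∀ S : Set ℂ, ¬ Bornology.IsBounded S → ({z : ℂ | R' < ‖z‖} ∩ S).Nonempty := by
    intro S hS
    by_contra hne
    rw [not_nonempty_iff_eq_empty] at hne
    refine hS (isBounded_iff_forall_norm_le.2 ⟨R', fun z hz => ?_⟩)
    by_contra hlt
    have : z ∈ {z : ℂ | R' < ‖z‖} ∩ S := ⟨not_le.1 hlt, hz⟩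
    rw [hne] at this
    exact this
  have h1 := isPreconnected_closed_iff.1 (a26b_outer_conn R' hR'0) L M hL hM hsub (key L bL) (key M bM)
  obtain ⟨z, _, hzL, hzM⟩ := h1
  exact disjoint_left.1 dis hzL hzM

theorem a26b_core {A X Y : Set ℂ} (hA : IsOpen A) (cA : IsConnected A)
    (bA : Bornology.IsBounded A) (hX : IsCompact X) (hY : IsClosed Y) (cX : IsConnected X)
    (cY : IsConnected Y) (dis : Disjoint X Y) (un : X ∪ Y = Aᶜ) (bY : ¬ Bornology.IsBounded Y)
    (nX : X.Nontrivial) :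
    ∃ T : ℝ, 0 < T ∧ ∃ ψ : ℂ → ℂ, DifferentiableOn ℂ ψ (strip T) ∧
      (∀ s ∈ strip T, ψ (s + 2 * Real.pi * I) = ψ s) ∧
      (∀ s ∈ strip T, ∀ s' ∈ strip T, ψ s = ψ s' → ∃ n : ℤ, s' = s + 2 * Real.pi * n * I) ∧
      ψ '' strip T = A := by
  obtain ⟨a, ha⟩ := cX.nonempty
  obtain ⟨F, g, hF, iF, imF, F0, hg, gF, Fg, cgX, congX, hgA, conn, h0⟩ :=
    fill_domain hA cA bA hX hY cX cY dis un bY ha
  have hXY : X ⊆ Yᶜ := fun x hx hxY => disjoint_left.1 dis hx hxY
  have hAY : A ⊆ Yᶜ := by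
    intro x hx hxY
    have : x ∈ Aᶜ := by rw [← un]; exact Or.inr hxY
    exact this hx
  have hsub : g '' X ⊆ ball 0 1 := by
    rintro _ ⟨x, hx, rfl⟩
    exact (Fg x (hXY hx)).1
  have nX1 : (g '' X).Nontrivial := by
    obtain ⟨x, hx, y, hy, hxy⟩ := nX
    refine ⟨g x, mem_image_of_mem g hx, g y, mem_image_of_mem g hy, fun h => hxy ?_⟩
    rw [← (Fg x (hXY hx)).2, ← (Fg y (hXY hy)).2, h]
  obtain ⟨T, hT, G, hG, bG, pG⟩ := exists_strip_map cgX hsub h0 congX nX1 conn
  have hmaps : ∀ s ∈ strip T, exp (G s) ∈ ball (0 : ℂ) 1 \ g '' X := by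
    intro s hs
    rw [← logCover_image h0]
    exact mem_image_of_mem exp (bG.mapsTo hs)
  have hstrip : ∀ s ∈ strip T, ∀ n : ℤ, s + 2 * Real.pi * n * I ∈ strip T := by
    intro s hs n
    have : (s + 2 * Real.pi * n * I).re = s.re := by simp
    exact ⟨by rw [this]; exact hs.1, by rw [this]; exact hs.2⟩
  have pGn : ∀ n : ℕ, ∀ s ∈ strip T, G (s + 2 * Real.pi * n * I) = G s + 2 * Real.pi * n * I := by
    intro n
    induction n with
    | zero => intro s _; simp
    | succ n ih =>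
      intro s hs
      have h1 : s + 2 * Real.pi * ((n + 1 : ℕ) : ℂ) * I = (s + 2 * Real.pi * n * I) + 2 * Real.pi * I := by
        push_cast; ring
      have h2 : s + 2 * Real.pi * (n : ℂ) * I ∈ strip T := by
        have := hstrip s hs (n : ℤ)
        simpa using this
      rw [h1, pG _ h2, ih s hs]
      push_cast; ring
  have pGz : ∀ n : ℤ, ∀ s ∈ strip T, G (s + 2 * Real.pi * n * I) = G s + 2 * Real.pi * n * I := by
    intro n s hs
    obtain ⟨m, rfl | rfl⟩ := n.eq_nat_or_neg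
    · have := pGn m s hs
      simpa using this
    · have h2 : s + 2 * Real.pi * ((-(m : ℤ) : ℤ) : ℂ) * I ∈ strip T := hstrip s hs _
      have h3 := pGn m _ h2
      have h4 : s + 2 * Real.pi * ((-(m : ℤ) : ℤ) : ℂ) * I + 2 * Real.pi * (m : ℂ) * I = s := by
        push_cast; ring
      rw [h4] at h3
      rw [h3]
      push_cast; ring
  refine ⟨T, hT, fun s => F (exp (G s)), ?_, ?_, ?_, ?_⟩
  · refine hF.comp (hG.cexp) ?_
    intro s hs
    exact (hmaps s hs).1
  · intro s hs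
    show F (exp (G (s + 2 * Real.pi * I))) = F (exp (G s))
    rw [pG s hs, exp_add, exp_two_pi_mul_I, mul_one]
  · intro s hs s' hs' h
    have h1 : exp (G s) = exp (G s') := iF (hmaps s hs).1 (hmaps s' hs').1 h
    obtain ⟨n, hn⟩ := exp_eq_exp_iff_exists_int.1 h1.symm
    refine ⟨n, ?_⟩
    refine bG.injOn hs' (hstrip s hs n) ?_
    rw [pGz n s hs, hn]
    ring
  · have h1 : (fun s => F (exp (G s))) '' strip T = F '' (exp '' (G '' strip T)) := by
      rw [image_image, image_image]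
    rw [h1, bG.image_eq, logCover_image h0, hgA, image_image]
    have h2 : ∀ x ∈ A, F (g x) = x := fun x hx => (Fg x (hAY hx)).2
    rw [image_congr h2, image_id']

theorem exists_chart {A L M : Set ℂ} (hA : IsOpen A) (cA : IsConnected A)
    (bA : Bornology.IsBounded A) (hL : IsClosed L) (hM : IsClosed M) (cL : IsConnected L)
    (cM : IsConnected M) (dis : Disjoint L M) (un : L ∪ M = Aᶜ) (nL : L.Nontrivial)
    (nM : M.Nontrivial) : ∃ T : ℝ, ∃ ψ : ℂ → ℂ, StripChart A L M T ψ := by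
  have key : ∃ T : ℝ, 0 < T ∧ ∃ ψ : ℂ → ℂ, DifferentiableOn ℂ ψ (strip T) ∧
      (∀ s ∈ strip T, ψ (s + 2 * Real.pi * I) = ψ s) ∧
      (∀ s ∈ strip T, ∀ s' ∈ strip T, ψ s = ψ s' → ∃ n : ℤ, s' = s + 2 * Real.pi * n * I) ∧
      ψ '' strip T = A := by
    by_cases bL : Bornology.IsBounded L
    · exact a26b_core hA cA bA (Metric.isCompact_of_isClosed_isBounded hL bL) hM cL cM dis un
        (a26b_unbdd bA un bL) nL
    · have bM := a26b_one bA hL hM dis un bL
      exact a26b_core hA cA bA (Metric.isCompact_of_isClosed_isBounded hM bM) hL cM cL dis.symm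
        (by rw [union_comm]; exact un) bL nM
  obtain ⟨T, hT, ψ, hd, per, inj, image⟩ := key
  obtain ⟨ψ', h⟩ := chart_ends hA cA bA hL hM cL cM dis un hT hd per inj image
  exact ⟨T, ψ', h⟩

theorem exists_chart_punct {A M : Set ℂ} {p : ℂ} (hA : IsOpen A) (cA : IsConnected A)
    (bA : Bornology.IsBounded A) (hM : IsClosed M) (cM : IsConnected M) (dis : p ∉ M)
    (un : {p} ∪ M = Aᶜ) : ∃ ψ : ℂ → ℂ, PunctChart A M p ψ := by
  have bM : ¬ Bornology.IsBounded M := a26b_unbdd bA un Bornology.isBounded_singleton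
  obtain ⟨F, g, hF, iF, imF, F0, hg, gF, Fg, cgX, congX, hgA, conn, h0⟩ :=
    fill_domain hA cA bA (isCompact_singleton (x := p)) hM isConnected_singleton cM
      (disjoint_singleton_left.2 dis) un bM (mem_singleton p)
  rw [image_singleton] at h0 hgA
  rw [← mem_singleton_iff.1 h0] at hgA
  have hAM : A ⊆ Mᶜ := by
    intro x hx hxM
    have : x ∈ Aᶜ := by rw [← un]; exact Or.inr hxM
    exact this hx
  have hball : ∀ s ∈ rhp, exp (-s) ∈ ball (0 : ℂ) 1 := by
    intro s hs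
    have hs' : 0 < s.re := hs
    rw [mem_ball_zero_iff, norm_exp, neg_re]
    rw [← Real.exp_zero]
    exact Real.exp_lt_exp.2 (by linarith)
  refine ⟨fun s => F (exp (-s)), ?_, ?_, ?_, ?_, ?_, ?_⟩
  · exact hF.comp (differentiable_id.neg.cexp.differentiableOn) hball
  · intro s _
    show F (exp (-(s + 2 * Real.pi * I))) = F (exp (-s))
    rw [neg_add, exp_add, exp_neg (2 * Real.pi * I), exp_two_pi_mul_I, inv_one, mul_one]
  · intro s hs s' hs' h
    have h1 : exp (-s) = exp (-s') := iF (hball s hs) (hball s' hs') h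
    obtain ⟨n, hn⟩ := exp_eq_exp_iff_exists_int.1 h1
    refine ⟨n, ?_⟩
    have h2 : s' = -(-s') := by ring
    have h3 : -s' = -s - n * (2 * Real.pi * I) := by rw [hn]; ring
    rw [h2, h3]
    ring
  · have h1 : (fun s : ℂ => exp (-s)) '' rhp = ball 0 1 \ {0} := by
      ext z
      constructor
      · rintro ⟨s, hs, rfl⟩
        exact ⟨hball s hs, exp_ne_zero _⟩
      · rintro ⟨hz, hz0⟩
        have hz0' : z ≠ 0 := hz0
        refine ⟨-log z, ?_, by simp only [neg_neg, exp_log hz0']⟩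
        show 0 < (-log z).re
        rw [neg_re, log_re]
        have h2 : ‖z‖ < 1 := mem_ball_zero_iff.1 hz
        have h3 := Real.log_neg (norm_pos_iff.2 hz0') h2
        linarith
    have h2 : (fun s => F (exp (-s))) '' rhp = F '' ((fun s : ℂ => exp (-s)) '' rhp) := by
      rw [image_image]
    rw [h2, h1, hgA, image_image]
    have h3 : ∀ x ∈ A, F (g x) = x := fun x hx => (Fg x (hAM hx)).2
    rw [image_congr h3, image_id']
  · intro ε hε
    have hQM : {z : ℂ | ε ≤ infDist z M} ⊆ Mᶜ := by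
      intro z hz hzM
      have h1 : ε ≤ infDist z M := hz
      rw [infDist_zero_of_mem hzM] at h1
      linarith
    have hQc : IsClosed {z : ℂ | ε ≤ infDist z M} :=
      isClosed_le continuous_const (continuous_infDist_pt M)
    have hMb : Bornology.IsBounded Mᶜ := by
      refine (bA.union (Bornology.isBounded_singleton (x := p))).subset ?_
      intro z hz
      by_cases hzA : z ∈ A
      · exact Or.inl hzA
      · have h1 : z ∈ ({p} : Set ℂ) ∪ M := by rw [un]; exact hzA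
        rcases h1 with h1 | h1
        · exact Or.inr h1
        · exact absurd h1 hz
    have hQ : IsCompact {z : ℂ | ε ≤ infDist z M} :=
      Metric.isCompact_of_isClosed_isBounded hQc (hMb.subset hQM)
    have hgQ : IsCompact (g '' {z : ℂ | ε ≤ infDist z M}) :=
      hQ.image_of_continuousOn (hg.continuousOn.mono hQM)
    obtain ⟨r, hr1, hr⟩ : ∃ r : ℝ, r < 1 ∧ ∀ w ∈ g '' {z : ℂ | ε ≤ infDist z M}, ‖w‖ ≤ r := by
      rcases (g '' {z : ℂ | ε ≤ infDist z M}).eq_empty_or_nonempty with he | hne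
      · refine ⟨0, one_pos, ?_⟩
        rw [he]
        intro w hw
        exact absurd hw (notMem_empty w)
      · obtain ⟨w, hw, hmax⟩ := hgQ.exists_isMaxOn hne continuous_norm.continuousOn
        refine ⟨‖w‖, ?_, fun w' hw' => hmax hw'⟩
        obtain ⟨z, hz, rfl⟩ := hw
        exact mem_ball_zero_iff.1 (Fg z (hQM hz)).1
    set r' := max r (1 / 2) with hr'
    have hr'1 : r' < 1 := max_lt hr1 (by norm_num)
    have hr'0 : 0 < r' := lt_of_lt_of_le (by norm_num) (le_max_right _ _)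
    refine ⟨-Real.log r', ?_, ?_⟩
    · have := Real.log_neg hr'0 hr'1
      linarith
    · intro s hs hsη
      by_contra hcon
      have hQs : F (exp (-s)) ∈ {z : ℂ | ε ≤ infDist z M} := not_lt.1 hcon
      have h1 := hr _ (mem_image_of_mem g hQs)
      rw [gF _ (hball s hs), norm_exp, neg_re] at h1
      have h2 : r' < Real.exp (-s.re) := by
        rw [← Real.exp_log hr'0]
        exact Real.exp_lt_exp.2 (by linarith)
      have h3 : r ≤ r' := le_max_left _ _
      linarith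
  · intro ε hε
    have hcont : ContinuousAt F 0 :=
      (hF.differentiableAt (isOpen_ball.mem_nhds (mem_ball_self one_pos))).continuousAt
    obtain ⟨δ, hδ, hδ'⟩ := Metric.continuousAt_iff.1 hcont ε hε
    refine ⟨-Real.log δ, ?_⟩
    intro s hs
    have h1 : dist (exp (-s)) 0 < δ := by
      rw [dist_zero_right, norm_exp, neg_re, ← Real.exp_log hδ]
      exact Real.exp_lt_exp.2 (by linarith)
    have h2 := hδ' h1
    rw [F0] at h2
    exact h2

end CF6

end

section

/-!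
# A27: charts of the preimages of collars

`A = Ω ∩ h⁻¹' (S ∪ K i)`, `M = (A ∪ L i)ᶜ`. `collar_isOpen`, `collar_conn`, `collar_compl_conn`: `A` open connected, `M` closed connected, disjoint
from `L i`, `L i ∪ M = Aᶜ` (`A ∩ L i = ∅` since `A ⊆ Ω`). Bounded as a subset of `Ω`. `M` nontrivial: two points of
`(S ∪ K i)ᶜ ∩ Ωs` have (`Approx.surj`) different preimages in `Ω`, not in `A ∪ L i`.
-/

open Complex Set Filter Topology Metric

namespace CF6

section

variable {k : ℕ} {Ω Ωs : Set ℂ} {L K : Fin k → Set ℂ} {h : ℂ → ℂ} {hj : ℕ → ℂ → ℂ}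

theorem Approx.a27_disj (H : Approx Ω Ωs L K h hj) (i : Fin k) (W : Set ℂ) :
    L i ∪ ((Ω ∩ W) ∪ L i)ᶜ = (Ω ∩ W)ᶜ := by
  have hL : ∀ x ∈ L i, x ∉ Ω := by
    intro x hx
    have : x ∈ ⋃ m, L m := mem_iUnion.2 ⟨i, hx⟩
    rw [H.dom.union] at this
    exact this
  ext x
  simp only [mem_union, mem_compl_iff, mem_inter_iff]
  constructor
  · rintro (hx | hx)
    · exact fun h1 => hL x hx h1.1
    · exact fun h1 => hx (Or.inl h1)
  · intro hx
    by_cases h1 : x ∈ L i
    · exact Or.inl h1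
    · right
      rintro (h2 | h2)
      · exact hx h2
      · exact h1 h2

theorem Approx.strip_chart (H : Approx Ω Ωs L K h hj) (i : Fin k) {S : Set ℂ} (hS : S ⊆ Ωs)
    (oS : IsOpen (S ∪ K i)) (cS : IsConnected (S ∪ K i)) (cT : IsConnected (S ∪ K i)ᶜ)
    (nT : ((S ∪ K i)ᶜ ∩ Ωs).Nontrivial) (nL : (L i).Nontrivial) :
    ∃ T : ℝ, ∃ ψ : ℂ → ℂ, StripChart (Ω ∩ h ⁻¹' (S ∪ K i)) (L i)
      ((Ω ∩ h ⁻¹' (S ∪ K i)) ∪ L i)ᶜ T ψ := by
  have hop := H.collar_isOpen i hS oS
  refine exists_chart hop.1 (H.collar_conn i hS oS cS).2 (H.dom.bdd.subset inter_subset_left)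
    (H.dom.closed i) hop.2.isClosed_compl (H.dom.cconn i) (H.collar_compl_conn i hS oS cT)
    ?_ (H.a27_disj i _) nL ?_
  · rw [Set.disjoint_left]
    exact fun x hx hx' => hx' (Or.inr hx)
  · obtain ⟨a, ha, b, hb, hab⟩ := nT
    obtain ⟨x, hx, rfl⟩ := H.surj ha.2
    obtain ⟨y, hy, rfl⟩ := H.surj hb.2
    have hL : ∀ x ∈ Ω, x ∉ L i := by
      intro x hx hx'
      have : x ∈ ⋃ m, L m := mem_iUnion.2 ⟨i, hx'⟩
      rw [H.dom.union] at this
      exact this hx
    refine ⟨x, ?_, y, ?_, fun e => hab (by rw [e])⟩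
    · rintro (h1 | h1)
      · exact ha.1 h1.2
      · exact hL x hx h1
    · rintro (h1 | h1)
      · exact hb.1 h1.2
      · exact hL y hy h1

theorem Approx.punct_chart (H : Approx Ω Ωs L K h hj) (i : Fin k) {S : Set ℂ} (hS : S ⊆ Ωs)
    (oS : IsOpen (S ∪ K i)) (cS : IsConnected (S ∪ K i)) (cT : IsConnected (S ∪ K i)ᶜ)
    {p : ℂ} (hp : L i = {p}) :
    ∃ ψ : ℂ → ℂ, PunctChart (Ω ∩ h ⁻¹' (S ∪ K i)) ((Ω ∩ h ⁻¹' (S ∪ K i)) ∪ L i)ᶜ p ψ := by
  have hop := H.collar_isOpen i hS oS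
  refine exists_chart_punct hop.1 (H.collar_conn i hS oS cS).2
    (H.dom.bdd.subset inter_subset_left) hop.2.isClosed_compl (H.collar_compl_conn i hS oS cT)
    ?_ ?_
  · intro hp'
    exact hp' (Or.inr (by rw [hp]; exact mem_singleton p))
  · have := H.a27_disj i (h ⁻¹' (S ∪ K i))
    rw [hp] at this ⊢
    exact this

end

end CF6

end

section

/-!
# A28a: tools for annulus charts

* `StripChart.local`: on `ball s0 1 ∩ strip T` the map `ψ` is injective (`inj`: `s' = s + 2πi n` with `‖s' - s‖ < 2` forces `n = 0`), so `univ_deriv`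
  gives `deriv ψ s ≠ 0` and `univ_open` that images of open subsets of the strip are open (write `V` as a union of
  `V ∩ ball s 1`).
* `StripChart.descend`: define `F' x = F (s)` for a chosen `s ∈ strip T` with `ψ s = x` (`image`); independent of the choice by `inj` and
  periodicity (induction on `n`, both signs). Continuous at `x = ψ s`: for a neighbourhood `N` of `F s`, `{s' ∈ strip T | F s' ∈ N}` contains
  an open neighbourhood of `s`, whose image is open.
* `StripChart.near_M`: `x ∈ M`, `x ∉ L`, `L ∪ M = Aᶜ`. `ε = infDist x L / 2 > 0` (`L` closed, nonempty); `endL`: `η1` with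
  `T - η1 < re s → infDist (ψ s) L < ε`, so `dist (ψ s) x > ε`. `Q = ψ '' {s | min η (T/2) ≤ s.re ≤ T - min η1 (T/2), 0 ≤ s.im ≤ 2π}` is compact, contained in `A`,
  `x ∉ A`, so it has positive distance from `x`; every `s` of the strip with real part in that interval is congruent to a point of the box.
* `StripChart.near_L`: the same, ends exchanged (`chart_flip`).
* the same for `PunctChart` (`near_M`).
-/

open Complex Set Filter Topology Metric

namespace CF6

theorem a28a_zero {s s' : ℂ} {n : ℤ} (h : s' = s + 2 * Real.pi * n * I) (hd : dist s s' < 2) :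
    n = 0 := by
  by_contra hn
  have h1 : s' - s = ((2 * Real.pi * n : ℝ) : ℂ) * I := by
    rw [h]; push_cast; ring
  have h2 : dist s s' = |2 * Real.pi * n| := by
    rw [dist_comm, dist_eq_norm, h1, norm_mul, Complex.norm_I, mul_one, Complex.norm_real,
      Real.norm_eq_abs]
  have h3 : (1 : ℝ) ≤ |(n : ℝ)| := by
    have : (1 : ℤ) ≤ |n| := Int.one_le_abs hn
    exact_mod_cast this
  have h4 : 2 < dist s s' := by
    rw [h2, abs_mul, abs_of_pos (by positivity : (0 : ℝ) < 2 * Real.pi)]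
    have := Real.pi_gt_three
    nlinarith
  linarith

theorem a28a_inj {W : Set ℂ} {ψ : ℂ → ℂ}
    (inj : ∀ s ∈ W, ∀ s' ∈ W, ψ s = ψ s' → ∃ n : ℤ, s' = s + 2 * Real.pi * n * I) (s : ℂ) :
    InjOn ψ (ball s 1 ∩ W) := by
  rintro a ⟨ha, haW⟩ b ⟨hb, hbW⟩ hab
  obtain ⟨n, hn⟩ := inj a haW b hbW hab
  have hd : dist a b < 2 := by
    have h1 := dist_triangle_right a b s
    rw [mem_ball] at ha hb
    linarith
  have := a28a_zero hn hd
  subst this
  rw [hn]
  simp

theorem a28a_local {W : Set ℂ} (hW : IsOpen W) {ψ : ℂ → ℂ} (hd : DifferentiableOn ℂ ψ W)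
    (inj : ∀ s ∈ W, ∀ s' ∈ W, ψ s = ψ s' → ∃ n : ℤ, s' = s + 2 * Real.pi * n * I) :
    (∀ s ∈ W, deriv ψ s ≠ 0) ∧ (∀ s ∈ W, InjOn ψ (ball s 1 ∩ W)) ∧
      ∀ V ⊆ W, IsOpen V → IsOpen (ψ '' V) := by
  refine ⟨fun s hs => ?_, fun s _ => a28a_inj inj s, fun V hV hVo => ?_⟩
  · exact univ_deriv (isOpen_ball.inter hW) (hd.mono inter_subset_right) (a28a_inj inj s)
      ⟨mem_ball_self one_pos, hs⟩
  · have h1 : V = ⋃ s ∈ V, V ∩ ball s 1 := by
      ext x
      simp only [mem_iUnion, mem_inter_iff, exists_prop]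
      constructor
      · intro hx
        exact ⟨x, hx, hx, mem_ball_self one_pos⟩
      · rintro ⟨s, _, hx, _⟩
        exact hx
    rw [h1, image_iUnion₂]
    refine isOpen_biUnion fun s _ => ?_
    refine univ_open (U := ball s 1 ∩ W) (hVo.inter isOpen_ball) ?_ (isOpen_ball.inter hW)
      (hd.mono inter_subset_right) (a28a_inj inj s)
    rintro x ⟨hx, hx'⟩
    exact ⟨hx', hV hx⟩

theorem a28a_per {E : Type*} {W : Set ℂ} (hW : ∀ s ∈ W, ∀ n : ℤ, s + 2 * Real.pi * n * I ∈ W)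
    {F : ℂ → E} (per : ∀ s ∈ W, F (s + 2 * Real.pi * I) = F s) (n : ℤ) :
    ∀ s ∈ W, F (s + 2 * Real.pi * n * I) = F s := by
  induction n using Int.induction_on with
  | zero => intro s _; simp
  | succ n ih =>
    intro s hs
    have h1 := per (s + 2 * Real.pi * (n : ℤ) * I) (hW s hs _)
    rw [ih s hs] at h1
    rw [← h1]
    congr 1
    push_cast
    ring
  | pred n ih =>
    intro s hs
    have h1 := per (s + 2 * Real.pi * ((-(n : ℤ) - 1 : ℤ) : ℂ) * I) (hW s hs _)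
    rw [← h1, ← ih s hs]
    congr 1
    push_cast
    ring

theorem a28a_descend {E : Type*} [TopologicalSpace E] {W A : Set ℂ} (hWo : IsOpen W)
    (hW : ∀ s ∈ W, ∀ n : ℤ, s + 2 * Real.pi * n * I ∈ W) {ψ : ℂ → ℂ}
    (hd : DifferentiableOn ℂ ψ W)
    (inj : ∀ s ∈ W, ∀ s' ∈ W, ψ s = ψ s' → ∃ n : ℤ, s' = s + 2 * Real.pi * n * I)
    (image : ψ '' W = A) {F : ℂ → E} (hF : ContinuousOn F W)
    (per : ∀ s ∈ W, F (s + 2 * Real.pi * I) = F s) :
    ∃ F' : ℂ → E, ContinuousOn F' A ∧ ∀ s ∈ W, F' (ψ s) = F s := by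
  classical
  have hex : ∀ x : ℂ, ∃ y : E, ∀ s ∈ W, ψ s = x → y = F s := by
    intro x
    by_cases hx : ∃ s ∈ W, ψ s = x
    · obtain ⟨s, hs, hsx⟩ := hx
      refine ⟨F s, fun s' hs' hsx' => ?_⟩
      obtain ⟨n, hn⟩ := inj s hs s' hs' (hsx.trans hsx'.symm)
      rw [hn, a28a_per hW per n s hs]
    · exact ⟨F 0, fun s hs hsx => absurd ⟨s, hs, hsx⟩ hx⟩
  choose F' hF' using hex
  have hval : ∀ s ∈ W, F' (ψ s) = F s := fun s hs => hF' (ψ s) s hs rfl
  refine ⟨F', ?_, hval⟩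
  rw [← image]
  rintro _ ⟨s, hs, rfl⟩
  refine ContinuousAt.continuousWithinAt ?_
  intro N hN
  rw [hval s hs] at hN
  have h1 : F ⁻¹' N ∈ 𝓝 s := (hF.continuousAt (hWo.mem_nhds hs)).preimage_mem_nhds hN
  obtain ⟨V, hV1, hV2, hV3⟩ := _root_.mem_nhds_iff.mp (inter_mem h1 (hWo.mem_nhds hs))
  have h2 : IsOpen (ψ '' V) :=
    (a28a_local hWo hd inj).2.2 V (fun x hx => (hV1 hx).2) hV2
  refine Filter.mem_map.mpr (Filter.mem_of_superset (h2.mem_nhds ⟨s, hV3, rfl⟩) ?_)
  rintro _ ⟨s', hs', rfl⟩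
  show F' (ψ s') ∈ N
  rw [hval s' (hV1 hs').2]
  exact (hV1 hs').1

theorem a28a_near {W A : Set ℂ} {ψ : ℂ → ℂ} (hc : ContinuousOn ψ W)
    (hW : ∀ s ∈ W, ∀ n : ℤ, s + 2 * Real.pi * n * I ∈ W)
    (per : ∀ s ∈ W, ψ (s + 2 * Real.pi * I) = ψ s) (image : ψ '' W = A) {a b : ℝ}
    (hbox : ∀ s : ℂ, a ≤ s.re → s.re ≤ b → s ∈ W) {x : ℂ} (hx : x ∉ A) :
    ∃ r > (0 : ℝ), ∀ s : ℂ, a ≤ s.re → s.re ≤ b → r ≤ dist (ψ s) x := by
  have hK : IsCompact (Icc a b ×ℂ Icc 0 (2 * Real.pi)) := isCompact_Icc.reProdIm isCompact_Icc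
  have hKW : (Icc a b ×ℂ Icc 0 (2 * Real.pi)) ⊆ W := fun s hs => hbox s hs.1.1 hs.1.2
  have hQ : IsCompact (ψ '' (Icc a b ×ℂ Icc 0 (2 * Real.pi))) :=
    hK.image_of_continuousOn (hc.mono hKW)
  have hmem : ∀ s : ℂ, a ≤ s.re → s.re ≤ b → ψ s ∈ ψ '' (Icc a b ×ℂ Icc 0 (2 * Real.pi)) := by
    intro s h1 h2
    have hp : (0 : ℝ) < 2 * Real.pi := by positivity
    set n : ℤ := -⌊s.im / (2 * Real.pi)⌋ with hn
    refine ⟨s + 2 * Real.pi * n * I, ?_, a28a_per hW per n s (hbox s h1 h2)⟩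
    have hre : (s + 2 * Real.pi * n * I).re = s.re := by simp
    have him : (s + 2 * Real.pi * n * I).im = s.im + 2 * Real.pi * n := by simp
    refine ⟨?_, ?_⟩
    · show (s + 2 * Real.pi * n * I).re ∈ Icc a b
      rw [hre]
      exact ⟨h1, h2⟩
    · show (s + 2 * Real.pi * n * I).im ∈ Icc 0 (2 * Real.pi)
      rw [him, hn]
      push_cast
      have h3 := Int.floor_le (s.im / (2 * Real.pi))
      have h4 := Int.lt_floor_add_one (s.im / (2 * Real.pi))
      have h5 : s.im = 2 * Real.pi * (s.im / (2 * Real.pi)) := by field_simp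
      constructor
      · have := mul_le_mul_of_nonneg_left h3 hp.le
        linarith
      · have := mul_lt_mul_of_pos_left h4 hp
        linarith
  have hxQ : x ∉ ψ '' (Icc a b ×ℂ Icc 0 (2 * Real.pi)) := by
    intro h
    apply hx
    rw [← image]
    exact image_mono hKW h
  rcases (ψ '' (Icc a b ×ℂ Icc 0 (2 * Real.pi))).eq_empty_or_nonempty with he | hne
  · refine ⟨1, one_pos, fun s h1 h2 => ?_⟩
    have := hmem s h1 h2
    rw [he] at this
    exact absurd this (notMem_empty _)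
  · refine ⟨infDist x (ψ '' (Icc a b ×ℂ Icc 0 (2 * Real.pi))),
      (hQ.isClosed.notMem_iff_infDist_pos hne).mp hxQ, fun s h1 h2 => ?_⟩
    rw [dist_comm]
    exact infDist_le_dist_of_mem (hmem s h1 h2)

theorem a28a_strip_open (T : ℝ) : IsOpen (strip T) :=
  (isOpen_lt continuous_const Complex.continuous_re).inter
    (isOpen_lt Complex.continuous_re continuous_const)

theorem a28a_rhp_open : IsOpen rhp := isOpen_lt continuous_const Complex.continuous_re

theorem a28a_strip_per (T : ℝ) : ∀ s ∈ strip T, ∀ n : ℤ, s + 2 * Real.pi * n * I ∈ strip T := by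
  rintro s ⟨h1, h2⟩ n
  have : (s + 2 * Real.pi * n * I).re = s.re := by simp
  exact ⟨by rw [this]; exact h1, by rw [this]; exact h2⟩

theorem a28a_rhp_per : ∀ s ∈ rhp, ∀ n : ℤ, s + 2 * Real.pi * n * I ∈ rhp := by
  intro s h1 n
  have : (s + 2 * Real.pi * n * I).re = s.re := by simp
  show 0 < (s + 2 * Real.pi * n * I).re
  rw [this]
  exact h1

theorem StripChart.local {A L M : Set ℂ} {T : ℝ} {ψ : ℂ → ℂ} (h : StripChart A L M T ψ) :
    (∀ s ∈ strip T, deriv ψ s ≠ 0) ∧ (∀ s ∈ strip T, InjOn ψ (ball s 1 ∩ strip T)) ∧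
      ∀ V ⊆ strip T, IsOpen V → IsOpen (ψ '' V) :=
  a28a_local (a28a_strip_open T) h.diff h.inj

theorem StripChart.descend {E : Type*} [TopologicalSpace E] {A L M : Set ℂ} {T : ℝ} {ψ : ℂ → ℂ}
    (h : StripChart A L M T ψ) {F : ℂ → E} (hF : ContinuousOn F (strip T))
    (per : ∀ s ∈ strip T, F (s + 2 * Real.pi * I) = F s) :
    ∃ F' : ℂ → E, ContinuousOn F' A ∧ ∀ s ∈ strip T, F' (ψ s) = F s :=
  a28a_descend (a28a_strip_open T) (a28a_strip_per T) h.diff h.inj h.image hF per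

theorem StripChart.near_M {A L M : Set ℂ} {T : ℝ} {ψ : ℂ → ℂ} (h : StripChart A L M T ψ)
    (hL : IsClosed L) (nL : L.Nonempty) (un : L ∪ M = Aᶜ) {x : ℂ} (hx : x ∈ M) (hx' : x ∉ L) {η : ℝ}
    (hη : 0 < η) : ∃ r > (0 : ℝ), ∀ s ∈ strip T, dist (ψ s) x < r → s.re < η := by
  have hε : 0 < infDist x L / 2 := half_pos ((hL.notMem_iff_infDist_pos nL).mp hx')
  obtain ⟨η1, hη1, hL1⟩ := h.endL _ hε
  have hxA : x ∉ A := by
    have : x ∈ Aᶜ := by rw [← un]; exact Or.inr hx
    exact this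
  obtain ⟨r, hr, hr1⟩ := a28a_near h.diff.continuousOn (a28a_strip_per T) h.per h.image
    (a := η) (b := T - η1) (fun s h1 h2 => ⟨by linarith, by linarith⟩) hxA
  refine ⟨min r (infDist x L / 2), lt_min hr hε, fun s hs hd => ?_⟩
  by_contra hcon
  push Not at hcon
  by_cases h2 : s.re ≤ T - η1
  · have := hr1 s hcon h2
    have := min_le_left r (infDist x L / 2)
    linarith
  · push Not at h2
    have h3 := hL1 s hs h2
    have h4 : infDist x L ≤ infDist (ψ s) L + dist x (ψ s) := infDist_le_infDist_add_dist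
    rw [dist_comm x (ψ s)] at h4
    have := min_le_right r (infDist x L / 2)
    linarith

theorem StripChart.near_L {A L M : Set ℂ} {T : ℝ} {ψ : ℂ → ℂ} (h : StripChart A L M T ψ)
    (hM : IsClosed M) (nM : M.Nonempty) (un : L ∪ M = Aᶜ) {x : ℂ} (hx : x ∈ L) (hx' : x ∉ M) {η : ℝ}
    (hη : 0 < η) : ∃ r > (0 : ℝ), ∀ s ∈ strip T, dist (ψ s) x < r → T - η < s.re := by
  obtain ⟨r, hr, hr1⟩ := (chart_flip h).near_M hM nM (by rw [union_comm]; exact un) hx hx' hη
  refine ⟨r, hr, fun s hs hd => ?_⟩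
  have h1 : ((T : ℂ) - s) ∈ strip T := by
    obtain ⟨h2, h3⟩ := hs
    refine ⟨?_, ?_⟩
    · show 0 < ((T : ℂ) - s).re
      simp only [Complex.sub_re, Complex.ofReal_re]
      linarith
    · show ((T : ℂ) - s).re < T
      simp only [Complex.sub_re, Complex.ofReal_re]
      linarith
  have h4 := hr1 _ h1 (by
    show dist (ψ ((T : ℂ) - ((T : ℂ) - s))) x < r
    rw [sub_sub_cancel]
    exact hd)
  simp only [Complex.sub_re, Complex.ofReal_re] at h4
  linarith

theorem PunctChart.local {A M : Set ℂ} {p : ℂ} {ψ : ℂ → ℂ} (h : PunctChart A M p ψ) :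
    (∀ s ∈ rhp, deriv ψ s ≠ 0) ∧ (∀ s ∈ rhp, InjOn ψ (ball s 1 ∩ rhp)) ∧
      ∀ V ⊆ rhp, IsOpen V → IsOpen (ψ '' V) :=
  a28a_local a28a_rhp_open h.diff h.inj

theorem PunctChart.descend {E : Type*} [TopologicalSpace E] {A M : Set ℂ} {p : ℂ} {ψ : ℂ → ℂ}
    (h : PunctChart A M p ψ) {F : ℂ → E} (hF : ContinuousOn F rhp)
    (per : ∀ s ∈ rhp, F (s + 2 * Real.pi * I) = F s) :
    ∃ F' : ℂ → E, ContinuousOn F' A ∧ ∀ s ∈ rhp, F' (ψ s) = F s :=
  a28a_descend a28a_rhp_open a28a_rhp_per h.diff h.inj h.image hF per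

theorem PunctChart.near_M {A M : Set ℂ} {p : ℂ} {ψ : ℂ → ℂ} (h : PunctChart A M p ψ)
    (un : {p} ∪ M = Aᶜ) {x : ℂ} (hx : x ∈ M) (hx' : x ≠ p) {η : ℝ}
    (hη : 0 < η) : ∃ r > (0 : ℝ), ∀ s ∈ rhp, dist (ψ s) x < r → s.re < η := by
  have hε : 0 < dist x p / 2 := half_pos (dist_pos.mpr hx')
  obtain ⟨R, hR⟩ := h.endL _ hε
  have hxA : x ∉ A := by
    have : x ∈ Aᶜ := by rw [← un]; exact Or.inr hx
    exact this
  obtain ⟨r, hr, hr1⟩ := a28a_near h.diff.continuousOn a28a_rhp_per h.per h.image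
    (a := η) (b := R) (fun s h1 _ => by show 0 < s.re; linarith) hxA
  refine ⟨min r (dist x p / 2), lt_min hr hε, fun s hs hd => ?_⟩
  by_contra hcon
  push Not at hcon
  by_cases h2 : s.re ≤ R
  · have := hr1 s hcon h2
    have := min_le_left r (dist x p / 2)
    linarith
  · push Not at h2
    have h3 := hR s h2
    have h4 : dist x p ≤ dist x (ψ s) + dist (ψ s) p := dist_triangle _ _ _
    rw [dist_comm x (ψ s)] at h4
    have := min_le_right r (dist x p / 2)
    linarith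

end CF6

end

section

/-!
# A28b: boundary behaviour of `h ∘ ψ`

`A = Ω ∩ h⁻¹' (S ∪ K i)`, `M = (A ∪ L i)ᶜ`, `ψ` a chart.
* `bdry_M`: otherwise there are `sn ∈ strip T`, `re sn → 0`, `infDist (h (ψ sn)) (S ∪ K i)ᶜ ≥ ε`. `xn = ψ sn ∈ A ⊆ Ω` bounded; a subsequence converges to
  `x ∈ closure Ω`; `infDist xn M → 0` (`endM`), so `x ∈ M` (closed: complement of the open `A ∪ L i`, `collar_isOpen`; nonempty). If `x ∈ Ω`: `h x ∉ S ∪ K i`
  (as `x ∉ A`), `h xn → h x`, contradiction. If `x ∉ Ω`: `x ∈ L m` for some `m`, `m ≠ i` (`x ∈ M` is not in `L i`); `infDist xn (L m) → 0`, `ends`: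
  `infDist (h xn) (K m) → 0`, and `K m ⊆ (S ∪ K i)ᶜ` (disjoint from `K i` and from `Ωs ⊇ S`). Contradiction.
* `bdry_L`: `endL` and `ends`.
* `punct` versions in the same way.
-/

open Complex Set Filter Topology Metric

namespace CF6

section

variable {k : ℕ} {Ω Ωs : Set ℂ} {L K : Fin k → Set ℂ} {h : ℂ → ℂ} {hj : ℕ → ℂ → ℂ}

theorem a28b_M (H : Approx Ω Ωs L K h hj) (i : Fin k) {S : Set ℂ} (hS : S ⊆ Ωs)
    (oS : IsOpen (S ∪ K i)) (nM : ((Ω ∩ h ⁻¹' (S ∪ K i)) ∪ L i)ᶜ.Nonempty) {ε : ℝ} (hε : 0 < ε) :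
    ∃ δ > (0 : ℝ), ∀ x ∈ Ω ∩ h ⁻¹' (S ∪ K i),
      infDist x ((Ω ∩ h ⁻¹' (S ∪ K i)) ∪ L i)ᶜ < δ → infDist (h x) (S ∪ K i)ᶜ < ε := by
  obtain ⟨A, hA⟩ : ∃ A : Set ℂ, A = Ω ∩ h ⁻¹' (S ∪ K i) := ⟨_, rfl⟩
  rw [← hA] at nM ⊢
  have hcl : IsClosed (A ∪ L i)ᶜ := by
    rw [hA]
    exact (H.collar_isOpen i hS oS).2.isClosed_compl
  by_contra hcon
  push Not at hcon
  have hpos : ∀ n : ℕ, (0 : ℝ) < 1 / ((n : ℝ) + 1) := fun n => by positivity
  choose x hxA hxM hxε using fun n : ℕ => hcon _ (hpos n)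
  have hxΩ : ∀ n, x n ∈ Ω := fun n => by
    have := hxA n
    rw [hA] at this
    exact this.1
  obtain ⟨a, -, φ, hφ, hlim⟩ := tendsto_subseq_of_bounded H.dom.bdd hxΩ
  have hM0 : Tendsto (fun n => infDist (x n) (A ∪ L i)ᶜ) atTop (𝓝 0) :=
    squeeze_zero (fun n => infDist_nonneg) (fun n => (hxM n).le)
      tendsto_one_div_add_atTop_nhds_zero_nat
  have haM : a ∈ (A ∪ L i)ᶜ := by
    rw [hcl.mem_iff_infDist_zero nM]
    have h1 : Tendsto (fun n => infDist (x (φ n)) (A ∪ L i)ᶜ) atTop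
        (𝓝 (infDist a (A ∪ L i)ᶜ)) := ((continuous_infDist_pt _).tendsto a).comp hlim
    exact tendsto_nhds_unique h1 (hM0.comp hφ.tendsto_atTop)
  by_cases haΩ : a ∈ Ω
  · have haA : a ∉ A := fun hc => haM (Or.inl hc)
    have hha : h a ∈ (S ∪ K i)ᶜ := by
      intro hc
      apply haA
      rw [hA]
      exact ⟨haΩ, hc⟩
    have hcont : ContinuousWithinAt h Ω a := H.cont a haΩ
    have hlimw : Tendsto (fun n => x (φ n)) atTop (𝓝[Ω] a) :=
      tendsto_nhdsWithin_iff.2 ⟨hlim, Eventually.of_forall fun n => hxΩ _⟩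
    have h2 : Tendsto (fun n => h (x (φ n))) atTop (𝓝 (h a)) := hcont.tendsto.comp hlimw
    have h3 : Tendsto (fun n => infDist (h (x (φ n))) (S ∪ K i)ᶜ) atTop
        (𝓝 (infDist (h a) (S ∪ K i)ᶜ)) := ((continuous_infDist_pt _).tendsto _).comp h2
    rw [infDist_zero_of_mem hha] at h3
    obtain ⟨n, hn⟩ := (h3.eventually (gt_mem_nhds hε)).exists
    exact absurd (hxε (φ n)) (not_le.2 hn)
  · have haU : a ∈ ⋃ m, L m := by
      rw [H.dom.union]
      exact haΩ
    obtain ⟨m, hm⟩ := mem_iUnion.1 haU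
    have hmi : m ≠ i := by
      rintro rfl
      exact haM (Or.inr hm)
    obtain ⟨κ, hκ, j0, hj0⟩ := H.ends (ε / 2) (by positivity)
    have h1 : Tendsto (fun n => infDist (x (φ n)) (L m)) atTop (𝓝 (infDist a (L m))) :=
      ((continuous_infDist_pt _).tendsto a).comp hlim
    rw [infDist_zero_of_mem hm] at h1
    obtain ⟨n, hn⟩ := (h1.eventually (gt_mem_nhds hκ)).exists
    have h2 := (hj0 m _ (hxΩ (φ n)) hn).2
    have hKm : K m ⊆ (S ∪ K i)ᶜ := by
      intro y hy hc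
      rcases hc with hc | hc
      · have hy' : y ∈ Ωsᶜ := by
          rw [← H.tgt.union]
          exact mem_iUnion.2 ⟨m, hy⟩
        exact hy' (hS hc)
      · exact disjoint_left.1 (H.tgt.disj m i hmi) hy hc
    have h3 : infDist (h (x (φ n))) (S ∪ K i)ᶜ ≤ infDist (h (x (φ n))) (K m) :=
      infDist_le_infDist_of_subset hKm (H.tgt.cconn m).nonempty
    have h4 := hxε (φ n)
    linarith

theorem a28b_L (H : Approx Ω Ωs L K h hj) (i : Fin k) {ε : ℝ} (hε : 0 < ε) :
    ∃ κ > (0 : ℝ), ∀ x ∈ Ω, infDist x (L i) < κ → infDist (h x) (K i) < ε := by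
  obtain ⟨κ, hκ, j0, hj0⟩ := H.ends (ε / 2) (by positivity)
  refine ⟨κ, hκ, fun x hx hxL => ?_⟩
  have := (hj0 i x hx hxL).2
  linarith

theorem Approx.bdry_M (H : Approx Ω Ωs L K h hj) (i : Fin k) {S : Set ℂ} (hS : S ⊆ Ωs)
    (oS : IsOpen (S ∪ K i)) {T : ℝ} {ψ : ℂ → ℂ}
    (ch : StripChart (Ω ∩ h ⁻¹' (S ∪ K i)) (L i) ((Ω ∩ h ⁻¹' (S ∪ K i)) ∪ L i)ᶜ T ψ)
    (nM : ((Ω ∩ h ⁻¹' (S ∪ K i)) ∪ L i)ᶜ.Nonempty) {ε : ℝ} (hε : 0 < ε) :
    ∃ η > (0 : ℝ), ∀ s ∈ strip T, s.re < η → infDist (h (ψ s)) (S ∪ K i)ᶜ < ε := by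
  obtain ⟨δ, hδ, h1⟩ := a28b_M H i hS oS nM hε
  obtain ⟨η, hη, h2⟩ := ch.endM δ hδ
  refine ⟨η, hη, fun s hs hsη => h1 _ ?_ (h2 s hs hsη)⟩
  rw [← ch.image]
  exact mem_image_of_mem ψ hs

theorem Approx.bdry_L (H : Approx Ω Ωs L K h hj) (i : Fin k) {S : Set ℂ} {T : ℝ} {ψ : ℂ → ℂ}
    (ch : StripChart (Ω ∩ h ⁻¹' (S ∪ K i)) (L i) ((Ω ∩ h ⁻¹' (S ∪ K i)) ∪ L i)ᶜ T ψ)
    {ε : ℝ} (hε : 0 < ε) :
    ∃ η > (0 : ℝ), ∀ s ∈ strip T, T - η < s.re → infDist (h (ψ s)) (K i) < ε := by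
  obtain ⟨κ, hκ, h1⟩ := a28b_L H i hε
  obtain ⟨η, hη, h2⟩ := ch.endL κ hκ
  refine ⟨η, hη, fun s hs hsη => h1 _ ?_ (h2 s hs hsη)⟩
  have h3 : ψ s ∈ Ω ∩ h ⁻¹' (S ∪ K i) := by
    rw [← ch.image]
    exact mem_image_of_mem ψ hs
  exact h3.1

theorem Approx.bdry_M_punct (H : Approx Ω Ωs L K h hj) (i : Fin k) {S : Set ℂ} (hS : S ⊆ Ωs)
    (oS : IsOpen (S ∪ K i)) {p : ℂ} {ψ : ℂ → ℂ} (hp : L i = {p})
    (ch : PunctChart (Ω ∩ h ⁻¹' (S ∪ K i)) ((Ω ∩ h ⁻¹' (S ∪ K i)) ∪ L i)ᶜ p ψ)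
    (nM : ((Ω ∩ h ⁻¹' (S ∪ K i)) ∪ L i)ᶜ.Nonempty) {ε : ℝ} (hε : 0 < ε) :
    ∃ η > (0 : ℝ), ∀ s ∈ rhp, s.re < η → infDist (h (ψ s)) (S ∪ K i)ᶜ < ε := by
  obtain ⟨δ, hδ, h1⟩ := a28b_M H i hS oS nM hε
  obtain ⟨η, hη, h2⟩ := ch.endM δ hδ
  refine ⟨η, hη, fun s hs hsη => h1 _ ?_ (h2 s hs hsη)⟩
  rw [← ch.image]
  exact mem_image_of_mem ψ hs

theorem Approx.bdry_L_punct (H : Approx Ω Ωs L K h hj) (i : Fin k) {S : Set ℂ} {p : ℂ}
    {ψ : ℂ → ℂ} (hp : L i = {p})
    (ch : PunctChart (Ω ∩ h ⁻¹' (S ∪ K i)) ((Ω ∩ h ⁻¹' (S ∪ K i)) ∪ L i)ᶜ p ψ)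
    {ε : ℝ} (hε : 0 < ε) :
    ∃ R : ℝ, ∀ s ∈ rhp, R < s.re → infDist (h (ψ s)) (K i) < ε := by
  obtain ⟨κ, hκ, h1⟩ := a28b_L H i hε
  obtain ⟨R, h2⟩ := ch.endL κ hκ
  refine ⟨R, fun s hs hsR => h1 _ ?_ ?_⟩
  · have h3 : ψ s ∈ Ω ∩ h ⁻¹' (S ∪ K i) := by
      rw [← ch.image]
      exact mem_image_of_mem ψ hs
    exact h3.1
  · rw [hp, infDist_singleton]
    exact h2 s hsR

end

end CF6

end
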