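import Pool.Agent.Lib.MP_cf6b16_an.DefsB

section

/-!
# Module E: the push inequality (helper68)

`Φ : UHP → Kᶜ` is the `2π`-periodic chart of the collar, `τ` a depth function, `Γ' = Φ(x + i τ(x))`.
-/

open Complex MeasureTheory Set Filter Topology Metric intervalIntegral

namespace CF6

/-- the point of the curve over `x` -/
noncomputable def pt (τ : ℝ → ℝ) (x : ℝ) : ℂ := x + τ x * I

/-- distance of the curve point over `x` to `K` -/
noncomputable def wd (K : Set ℂ) (Φ : ℂ → ℂ) (τ : ℝ → ℝ) (x : ℝ) : ℝ := infDist (Φ (pt τ x)) K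

/-- `τ` is the depth function at scale `s`: `≈ s + ε min(dist(x,E), κ/ε)`. -/
structure TauFor (E : Set ℝ) (ε κ s : ℝ) (τ : ℝ → ℝ) : Prop where
  depth : Depth ε (6 * κ) τ
  ge : ∀ x, s ≤ τ x
  ge' : ∀ x, ε * infDist x E ≤ κ → ε * infDist x E ≤ τ x
  ge2 : ∀ x, ε * infDist x E ≤ κ → s + ε * infDist x E ≤ τ x
  le' : ∀ x, τ x ≤ 5 * s + ε * infDist x E

end CF6

end

section

open Complex MeasureTheory Set Filter Topology Metric intervalIntegral

namespace CF6

/-- E.2a (about 60 lines) `Φ` is injective modulo `2π`, hence injective on boxes of width `≤ 2π` and `Φ' ≠ 0`. -/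
theorem inj_mod {K : Set ℂ} {Φ ρ : ℂ → ℂ} (hK : Collar K Φ ρ) :
    (∀ u ∈ UHP, ∀ u' ∈ UHP, Φ u = Φ u' → ∃ n : ℤ, u' = u + 2 * Real.pi * n) ∧
    (∀ u ∈ UHP, deriv Φ u ≠ 0) ∧ (∀ u ∈ UHP, Φ (u + 2 * Real.pi) = Φ u) := by
  have hopen : IsOpen UHP := isOpen_lt continuous_const Complex.continuous_im
  refine ⟨?_, ?_, ?_⟩
  · intro u hu u' hu' h
    have h1 : exp (I * u') = exp (I * u) := by
      rw [← hK.left u hu, ← hK.left u' hu', h]
    rw [Complex.exp_eq_exp_iff_exists_int] at h1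
    obtain ⟨n, hn⟩ := h1
    refine ⟨n, ?_⟩
    have : I * u' = I * (u + 2 * Real.pi * n) := by rw [hn]; ring
    exact mul_left_cancel₀ Complex.I_ne_zero this
  · intro u hu h0
    have hd : HasDerivAt Φ (deriv Φ u) u :=
      (hK.dPhi.differentiableAt (hopen.mem_nhds hu)).hasDerivAt
    have hr : HasDerivAt ρ (deriv ρ (Φ u)) (Φ u) :=
      (hK.dRho.differentiableAt (hK.closed.isOpen_compl.mem_nhds (hK.mem u hu))).hasDerivAt
    have hc := hr.comp u hd
    have he : HasDerivAt (fun v : ℂ => exp (I * v)) (exp (I * u) * (I * 1)) u :=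
      ((hasDerivAt_id u).const_mul I).cexp
    have heq : (ρ ∘ Φ) =ᶠ[𝓝 u] fun v : ℂ => exp (I * v) := by
      filter_upwards [hopen.mem_nhds hu] with v hv
      exact hK.left v hv
    have h2 := (hc.congr_of_eventuallyEq heq.symm).unique he
    rw [h0, mul_zero] at h2
    exact mul_ne_zero (exp_ne_zero _) (by simp) h2.symm
  · intro u hu
    have hu2 : u + 2 * Real.pi ∈ UHP := by
      have : (u + 2 * Real.pi).im = u.im := by simp
      change 0 < (u + 2 * Real.pi).im
      rw [this]; exact hu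
    apply hK.inj (hK.mem _ hu2) (hK.mem _ hu)
    rw [hK.left _ hu2, hK.left _ hu, Complex.exp_eq_exp_iff_exists_int]
    exact ⟨1, by push_cast; ring⟩

end CF6

end

section

open Complex MeasureTheory Set Filter Topology Metric intervalIntegral

namespace CF6

private lemma e1e_det (c : ℂ) :
    (((ContinuousLinearMap.toSpanSingleton ℂ c : ℂ →L[ℂ] ℂ).restrictScalars ℝ : ℂ →L[ℝ] ℂ)).det =
      ‖c‖ ^ 2 := by
  have h1 : (((ContinuousLinearMap.toSpanSingleton ℂ c : ℂ →L[ℂ] ℂ).restrictScalars ℝ :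
      ℂ →L[ℝ] ℂ) : ℂ →ₗ[ℝ] ℂ) = Algebra.lmul ℝ ℂ c := by
    ext z
    simp [mul_comm]
  have h2 : LinearMap.det (Algebra.lmul ℝ ℂ c) = Complex.normSq c := by
    have := Algebra.norm_complex_apply c
    rwa [Algebra.norm_apply] at this
  rw [ContinuousLinearMap.det, h1, h2, Complex.normSq_eq_norm_sq]

private lemma e1e_annulus (q : ℂ) (a b : ℝ) (ha : 0 < a) (hab : a < b) :
    ∫⁻ w : ℂ, (if a < ‖w - q‖ ∧ ‖w - q‖ < b then ENNReal.ofReal (1 / ‖w - q‖ ^ 2) else 0) =
      ENNReal.ofReal (2 * Real.pi * Real.log (b / a)) := by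
  rw [lintegral_sub_right_eq_self
    (fun w : ℂ => if a < ‖w‖ ∧ ‖w‖ < b then ENNReal.ofReal (1 / ‖w‖ ^ 2) else 0) q]
  rw [← Complex.lintegral_comp_polarCoord_symm]
  have hpi := Real.pi_pos
  have ht : polarCoord.target = Ioi (0 : ℝ) ×ˢ Ioo (-Real.pi) Real.pi := rfl
  set g : ℝ → ENNReal := fun r => (Ioo a b).indicator (fun r => ENNReal.ofReal (1 / r)) r with hg
  have hgm : Measurable g := by
    apply Measurable.indicator _ measurableSet_Ioo
    fun_prop
  have e1 : ∫⁻ p in polarCoord.target, ENNReal.ofReal p.1 •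
      (if a < ‖Complex.polarCoord.symm p‖ ∧ ‖Complex.polarCoord.symm p‖ < b then
        ENNReal.ofReal (1 / ‖Complex.polarCoord.symm p‖ ^ 2) else 0) =
      ∫⁻ p in polarCoord.target, g p.1 := by
    apply setLIntegral_congr_fun (by rw [ht]; exact measurableSet_Ioi.prod measurableSet_Ioo)
    intro p hp
    have hp0 : 0 < p.1 := by rw [ht] at hp; exact hp.1
    simp only [Complex.norm_polarCoord_symm, abs_of_pos hp0, hg]
    by_cases hc : a < p.1 ∧ p.1 < b
    · rw [if_pos hc, indicator_of_mem (show p.1 ∈ Ioo a b from hc), smul_eq_mul,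
        ← ENNReal.ofReal_mul hp0.le]
      congr 1
      field_simp
    · rw [if_neg hc, indicator_of_notMem (show p.1 ∉ Ioo a b from hc), smul_zero]
  rw [e1, ht, Measure.volume_eq_prod, ← Measure.prod_restrict,
    lintegral_prod (fun p : ℝ × ℝ => g p.1) (hgm.comp measurable_fst).aemeasurable]
  simp only [lintegral_const, Measure.restrict_apply MeasurableSet.univ, univ_inter,
    Real.volume_Ioo]
  rw [lintegral_mul_const _ hgm]
  have e2 : ∫⁻ r in Ioi (0 : ℝ), g r = ENNReal.ofReal (Real.log (b / a)) := by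
    rw [hg, setLIntegral_indicator measurableSet_Ioo,
      inter_eq_left.2 (fun r hr => mem_Ioi.2 (ha.trans hr.1)), restrict_Ioo_eq_restrict_Ioc,
      ← ofReal_integral_eq_lintegral_ofReal]
    · rw [← intervalIntegral.integral_of_le hab.le, integral_one_div_of_pos ha (ha.trans hab)]
    · have hii : IntervalIntegrable (fun x : ℝ => 1 / x) volume a b := by
        apply ContinuousOn.intervalIntegrable
        rw [uIcc_of_le hab.le]
        intro x hx
        have : x ≠ 0 := (ha.trans_le hx.1).ne'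
        exact (continuousAt_const.div continuousAt_id this).continuousWithinAt
      exact (intervalIntegrable_iff_integrableOn_Ioc_of_le hab.le).1 hii
    · filter_upwards [ae_restrict_mem measurableSet_Ioc] with r hr
      have : 0 < r := ha.trans hr.1
      simp only [Pi.zero_apply]
      positivity
  rw [e2, ← ENNReal.ofReal_mul (Real.log_nonneg (by rw [le_div_iff₀ ha]; linarith))]
  congr 1
  ring

/-- E.3 (about 120 lines) logarithmic area (C4): change of variables by the injective holomorphic `Φ` on a box of width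
`≤ 2π`, then `∫_{a<|w-q|<b} |w-q|^{-2} = 2π log(b/a)` (polar coordinates). -/
theorem log_area {K : Set ℂ} {Φ ρ : ℂ → ℂ} (hK : Collar K Φ ρ) (x0 x1 y : ℝ) (h0 : x0 ≤ x1)
    (h1 : x1 - x0 ≤ 2 * Real.pi) (hy : 0 < y) (q : ℂ) (a b : ℝ) (ha : 0 < a) (hab : a < b) :
    ∫⁻ x in Ioo x0 x1, ∫⁻ t in Ioo 0 y, (if a < ‖Φ (x + t * I) - q‖ ∧ ‖Φ (x + t * I) - q‖ < b
      then ENNReal.ofReal (‖deriv Φ (x + t * I)‖ ^ 2 / ‖Φ (x + t * I) - q‖ ^ 2) else 0) ≤
      ENNReal.ofReal (2 * Real.pi * Real.log (b / a)) := by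
  obtain ⟨hinj, -, -⟩ := inj_mod hK
  have hopen : IsOpen UHP := isOpen_lt continuous_const Complex.continuous_im
  set S : Set ℂ := {z | z.re ∈ Ioo x0 x1 ∧ z.im ∈ Ioo 0 y} with hS
  have hSo : IsOpen S := (isOpen_Ioo.preimage Complex.continuous_re).inter
    (isOpen_Ioo.preimage Complex.continuous_im)
  have hSU : S ⊆ UHP := fun z hz => hz.2.1
  have hder : ∀ z ∈ S, HasDerivAt Φ (deriv Φ z) z := fun z hz =>
    (hK.dPhi.differentiableAt (hopen.mem_nhds (hSU hz))).hasDerivAt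
  have hinjS : InjOn Φ S := by
    intro z hz z' hz' heq
    obtain ⟨n, hn⟩ := hinj z (hSU hz) z' (hSU hz') heq
    have hre : z'.re = z.re + 2 * Real.pi * n := by
      rw [hn]
      simp
    have hn0 : n = 0 := by
      by_contra hne
      have h2 : (1 : ℝ) ≤ |(n : ℝ)| := by
        have := Int.one_le_abs hne
        exact_mod_cast this
      have h3 : |z'.re - z.re| < x1 - x0 := by
        rw [abs_lt]
        constructor <;> linarith [hz.1.1, hz.1.2, hz'.1.1, hz'.1.2]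
      rw [hre, add_sub_cancel_left, abs_mul, abs_of_pos (by positivity : (0 : ℝ) < 2 * Real.pi)] at h3
      nlinarith [Real.pi_pos]
    rw [hn, hn0]
    simp
  -- the integrand on the plane
  set G : ℂ → ENNReal := fun w =>
    if a < ‖w - q‖ ∧ ‖w - q‖ < b then ENNReal.ofReal (1 / ‖w - q‖ ^ 2) else 0 with hG
  have hcv := lintegral_image_eq_lintegral_abs_det_fderiv_mul volume hSo.measurableSet
    (f := Φ) (f' := fun z => ((ContinuousLinearMap.toSpanSingleton ℂ (deriv Φ z) :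
      ℂ →L[ℂ] ℂ).restrictScalars ℝ : ℂ →L[ℝ] ℂ))
    (fun z hz => ((hder z hz).hasFDerivAt.restrictScalars ℝ).hasFDerivWithinAt) hinjS G
  have hle : ∫⁻ z in S, ENNReal.ofReal (‖deriv Φ z‖ ^ 2) * G (Φ z) ≤
      ENNReal.ofReal (2 * Real.pi * Real.log (b / a)) := by
    have e1 : ∫⁻ z in S, ENNReal.ofReal (‖deriv Φ z‖ ^ 2) * G (Φ z) = ∫⁻ w in Φ '' S, G w := by
      rw [hcv]
      apply lintegral_congr
      intro z
      rw [e1e_det, abs_of_nonneg (by positivity)]
    rw [e1]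
    exact (setLIntegral_le_lintegral _ _).trans (e1e_annulus q a b ha hab).le
  refine le_trans (le_of_eq ?_) hle
  -- pass to the product
  have hmp := Complex.volume_preserving_equiv_real_prod.symm
  rw [← hmp.setLIntegral_comp_preimage_emb measurableEquivRealProd.symm.measurableEmbedding]
  have hpre : (measurableEquivRealProd.symm ⁻¹' S : Set (ℝ × ℝ)) = Ioo x0 x1 ×ˢ Ioo 0 y := by
    ext p
    simp [hS, measurableEquivRealProd_symm_apply]
  rw [hpre, Measure.volume_eq_prod, ← Measure.prod_restrict, lintegral_prod]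
  · apply setLIntegral_congr_fun measurableSet_Ioo
    intro x _
    apply setLIntegral_congr_fun measurableSet_Ioo
    intro t _
    have hz : (measurableEquivRealProd.symm (x, t) : ℂ) = x + t * I := by
      rw [measurableEquivRealProd_symm_apply]
      exact (Complex.mk_eq_add_mul_I x t)
    simp only [hz, hG]
    split_ifs with hc
    · rw [← ENNReal.ofReal_mul (by positivity)]
      congr 1
      ring
    · simp
  · rw [Measure.prod_restrict, ← Measure.volume_eq_prod]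
    have hGm : Measurable G := by
      apply Measurable.ite
      · have hm0 : Measurable fun w : ℂ => ‖w - q‖ := by fun_prop
        exact (measurableSet_lt measurable_const hm0).inter (measurableSet_lt hm0 measurable_const)
      · fun_prop
      · exact measurable_const
    have hc1 : ContinuousOn Φ S := fun z hz => (hder z hz).continuousAt.continuousWithinAt
    have hc2 : ContinuousOn (deriv Φ) S :=
      ((hK.dPhi.deriv hopen).continuousOn).mono hSU
    have hm : AEMeasurable (fun z => ENNReal.ofReal (‖deriv Φ z‖ ^ 2) * G (Φ z))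
        (volume.restrict S) := by
      apply AEMeasurable.mul
      · exact ((hc2.norm.pow 2).aemeasurable hSo.measurableSet).ennreal_ofReal
      · exact hGm.comp_aemeasurable (hc1.aemeasurable hSo.measurableSet)
    have hmp2 : MeasurePreserving (measurableEquivRealProd.symm : ℝ × ℝ → ℂ)
        (volume.restrict (Ioo x0 x1 ×ˢ Ioo 0 y)) (volume.restrict S) := by
      rw [← hpre]
      exact hmp.restrict_preimage hSo.measurableSet
    exact hm.comp_quasiMeasurePreserving hmp2.quasiMeasurePreserving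

end CF6

end

section

open Complex MeasureTheory Set Filter Topology Metric intervalIntegral

namespace CF6

private lemma tau_int_bounds {f : ℝ → ℝ} (hf : Continuous f) {x s m M : ℝ} (hs : 0 < s)
    (hm : ∀ t ∈ Icc x (x + s), m ≤ f t) (hM : ∀ t ∈ Icc x (x + s), f t ≤ M) :
    s * m ≤ (∫ t in x..x + s, f t) ∧ (∫ t in x..x + s, f t) ≤ s * M := by
  have hxs : x ≤ x + s := by linarith
  constructor
  · have h2 : (∫ _ in x..x + s, m) ≤ ∫ t in x..x + s, f t :=
      intervalIntegral.integral_mono_on hxs (continuous_const.intervalIntegrable _ _)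
        (hf.intervalIntegrable _ _) hm
    simpa using h2
  · have h2 : (∫ t in x..x + s, f t) ≤ ∫ _ in x..x + s, M :=
      intervalIntegral.integral_mono_on hxs (hf.intervalIntegrable _ _)
        (continuous_const.intervalIntegrable _ _) hM
    simpa using h2

private lemma tau_hasDeriv {f : ℝ → ℝ} (hf : Continuous f) (s x : ℝ) :
    HasDerivAt (fun y => ∫ t in y..y + s, f t) (f (x + s) - f x) x := by
  have h : (fun y => ∫ t in y..y + s, f t) =
      fun y => (∫ t in (0 : ℝ)..y + s, f t) - ∫ t in (0 : ℝ)..y, f t := by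
    funext y
    rw [intervalIntegral.integral_interval_sub_left (hf.intervalIntegrable _ _)
      (hf.intervalIntegrable _ _)]
  rw [h]
  have h1 : HasDerivAt (fun y => ∫ t in (0 : ℝ)..y, f t) (f x) x :=
    intervalIntegral.integral_hasDerivAt_right (hf.intervalIntegrable _ _)
      (hf.stronglyMeasurableAtFilter _ _) hf.continuousAt
  have h2 : HasDerivAt (fun y => ∫ t in (0 : ℝ)..y, f t) (f (x + s)) (x + s) :=
    intervalIntegral.integral_hasDerivAt_right (hf.intervalIntegrable _ _)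
      (hf.stronglyMeasurableAtFilter _ _) hf.continuousAt
  exact (h2.comp_add_const x s).sub h1

/-- E.6 (about 120 lines). `ϱ = min(dist(·,E), κ/ε)`, `τ(x) = 3s + ε s⁻² ∫_0^s ∫_0^s ϱ(x + a + b) da db`. -/
theorem exists_tau {E : Set ℝ} (hE : E.Nonempty) (hp : ∀ x, x ∈ E ↔ x + 2 * Real.pi ∈ E)
    {ε κ s : ℝ} (hε : 0 < ε) (hε1 : ε ≤ 1) (hκ : 0 < κ) (hs : 0 < s) (hsκ : s ≤ κ) :
    ∃ τ : ℝ → ℝ, TauFor E ε κ s τ := by
  set ϱ : ℝ → ℝ := fun x => min (infDist x E) (κ / ε) with hϱ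
  have hc : Continuous ϱ := (continuous_infDist_pt E).min continuous_const
  have hlip : ∀ x y, |ϱ x - ϱ y| ≤ |x - y| := by
    intro x y
    have h1 : |infDist x E - infDist y E| ≤ |x - y| := by
      have := (lipschitz_infDist_pt E).dist_le_mul x y
      simpa [Real.dist_eq] using this
    exact (abs_min_sub_min_le_max _ _ _ _).trans (by simpa using h1)
  have h0 : ∀ x, 0 ≤ ϱ x := fun x => le_min infDist_nonneg (by positivity)
  have hle : ∀ x, ϱ x ≤ κ / ε := fun x => min_le_right _ _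
  have hdist : ∀ x, infDist (x + 2 * Real.pi) E = infDist x E := by
    have hdist1 : ∀ x, infDist (x + 2 * Real.pi) E ≤ infDist x E := by
      intro x
      rw [le_infDist hE]
      intro y hy
      have := infDist_le_dist_of_mem (x := x + 2 * Real.pi) ((hp y).1 hy)
      rwa [Real.dist_eq, add_sub_add_right_eq_sub, ← Real.dist_eq] at this
    intro x
    apply le_antisymm (hdist1 x)
    rw [le_infDist hE]
    intro y hy
    have hy' : y - 2 * Real.pi ∈ E := (hp _).2 (by rwa [sub_add_cancel])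
    have := infDist_le_dist_of_mem (x := x) hy'
    rw [Real.dist_eq] at this ⊢
    rwa [show x - (y - 2 * Real.pi) = x + 2 * Real.pi - y by ring] at this
  have hper : ∀ x, ϱ (x + 2 * Real.pi) = ϱ x := by
    intro x
    simp only [hϱ, hdist]
  set R : ℝ → ℝ := fun x => ∫ t in x..x + s, ϱ t with hR
  have hRd : ∀ x, HasDerivAt R (ϱ (x + s) - ϱ x) x := tau_hasDeriv hc s
  have hRc : Continuous R := continuous_iff_continuousAt.2 fun x => (hRd x).continuousAt
  have hRper : ∀ x, R (x + 2 * Real.pi) = R x := by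
    intro x
    simp only [hR]
    rw [show x + 2 * Real.pi + s = x + s + 2 * Real.pi by ring,
      ← intervalIntegral.integral_comp_add_right (fun t => ϱ t)]
    simp only [hper]
  set G : ℝ → ℝ := fun x => ∫ t in x..x + s, R t with hG
  have hGd : ∀ x, HasDerivAt G (R (x + s) - R x) x := tau_hasDeriv hRc s
  have hGper : ∀ x, G (x + 2 * Real.pi) = G x := by
    intro x
    simp only [hG]
    rw [show x + 2 * Real.pi + s = x + s + 2 * Real.pi by ring,
      ← intervalIntegral.integral_comp_add_right (fun t => R t)]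
    simp only [hRper]
  -- bounds
  have bR : ∀ x, s * (ϱ x - s) ≤ R x ∧ R x ≤ s * (ϱ x + s) := by
    intro x
    apply tau_int_bounds hc hs
    · intro t ht
      have := abs_le.1 (hlip t x)
      rw [abs_of_nonneg (by linarith [ht.1] : 0 ≤ t - x)] at this
      linarith [this.1, ht.2]
    · intro t ht
      have := abs_le.1 (hlip t x)
      rw [abs_of_nonneg (by linarith [ht.1] : 0 ≤ t - x)] at this
      linarith [this.2, ht.2]
  have bR' : ∀ x, s * 0 ≤ R x ∧ R x ≤ s * (κ / ε) := fun x =>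
    tau_int_bounds hc hs (fun t _ => h0 t) (fun t _ => hle t)
  have bG : ∀ x, s * (s * (ϱ x - 2 * s)) ≤ G x ∧ G x ≤ s * (s * (ϱ x + 2 * s)) := by
    intro x
    apply tau_int_bounds hRc hs
    · intro t ht
      have := abs_le.1 (hlip t x)
      rw [abs_of_nonneg (by linarith [ht.1] : 0 ≤ t - x)] at this
      refine le_trans ?_ (bR t).1
      apply mul_le_mul_of_nonneg_left _ hs.le
      linarith [this.1, ht.2]
    · intro t ht
      have := abs_le.1 (hlip t x)
      rw [abs_of_nonneg (by linarith [ht.1] : 0 ≤ t - x)] at this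
      refine le_trans (bR t).2 ?_
      apply mul_le_mul_of_nonneg_left _ hs.le
      linarith [this.2, ht.2]
  have bG' : ∀ x, s * (s * 0) ≤ G x ∧ G x ≤ s * (s * (κ / ε)) := fun x =>
    tau_int_bounds hRc hs (fun t _ => (bR' t).1) (fun t _ => (bR' t).2)
  have bRd : ∀ x, |R (x + s) - R x| ≤ s * s := by
    intro x
    have h1 : R (x + s) = ∫ t in x..x + s, ϱ (t + s) := by
      simp only [hR]
      rw [← intervalIntegral.integral_comp_add_right (fun t => ϱ t)]
    have h2 : R (x + s) - R x = ∫ t in x..x + s, (ϱ (t + s) - ϱ t) := by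
      rw [h1, intervalIntegral.integral_sub]
      · exact (hc.comp (continuous_add_const s)).intervalIntegrable _ _
      · exact hc.intervalIntegrable _ _
    rw [h2]
    have h3 := tau_int_bounds (f := fun t => ϱ (t + s) - ϱ t) (x := x) (m := -s) (M := s)
      ((hc.comp (continuous_add_const s)).sub hc) hs
      (fun t _ => by
        have := abs_le.1 (hlip (t + s) t)
        rw [add_sub_cancel_left, abs_of_pos hs] at this
        exact this.1)
      (fun t _ => by
        have := abs_le.1 (hlip (t + s) t)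
        rw [add_sub_cancel_left, abs_of_pos hs] at this
        exact this.2)
    rw [abs_le]
    constructor <;> nlinarith [h3.1, h3.2]
  set k : ℝ := ε / (s * s) with hk
  have hkpos : 0 < k := by positivity
  have hks : k * (s * s) = ε := by rw [hk]; field_simp
  have hcont2 : ContDiff ℝ 2 G := by
    have e1 : deriv G = fun x => R (x + s) - R x := funext fun x => (hGd x).deriv
    have e2 : deriv R = fun x => ϱ (x + s) - ϱ x := funext fun x => (hRd x).deriv
    have c1 : ContDiff ℝ 1 R := by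
      rw [contDiff_one_iff_deriv]
      refine ⟨fun x => (hRd x).differentiableAt, ?_⟩
      rw [e2]
      exact (hc.comp (continuous_add_const s)).sub hc
    have : ContDiff ℝ (1 + 1) G := by
      rw [contDiff_succ_iff_deriv]
      refine ⟨fun x => (hGd x).differentiableAt, by intro h; simp at h, ?_⟩
      rw [e1]
      exact (c1.comp (contDiff_id.add contDiff_const)).sub c1
    norm_num at this
    exact this
  have hval : ∀ x, 3 * s + k * G x ≥ s + ε * ϱ x ∧ 3 * s + k * G x ≤ 5 * s + ε * ϱ x ∧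
      3 * s ≤ 3 * s + k * G x ∧ 3 * s + k * G x ≤ 6 * κ := by
    intro x
    have a1 := mul_le_mul_of_nonneg_left (bG x).1 hkpos.le
    have a2 := mul_le_mul_of_nonneg_left (bG x).2 hkpos.le
    have a3 := mul_le_mul_of_nonneg_left (bG' x).1 hkpos.le
    have a4 := mul_le_mul_of_nonneg_left (bG' x).2 hkpos.le
    have e1 : k * (s * (s * (ϱ x - 2 * s))) = ε * ϱ x - 2 * (ε * s) := by
      rw [← hks]; ring
    have e2 : k * (s * (s * (ϱ x + 2 * s))) = ε * ϱ x + 2 * (ε * s) := by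
      rw [← hks]; ring
    have e4 : k * (s * (s * (κ / ε))) = κ := by
      have : k * (s * (s * (κ / ε))) = (k * (s * s)) * (κ / ε) := by ring
      rw [this, hks]; field_simp
    rw [e1] at a1
    rw [e2] at a2
    rw [e4] at a4
    have e5 : ε * s ≤ s := by nlinarith
    simp only [mul_zero] at a3
    refine ⟨by linarith, by linarith, by linarith, by linarith⟩
  refine ⟨fun x => 3 * s + k * G x, ⟨⟨?_, ?_, ?_, ?_, ?_⟩, ?_, ?_, ?_, ?_⟩⟩
  · exact contDiff_const.add (contDiff_const.mul hcont2)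
  · intro x
    simp only [hGper]
  · intro x
    have := (hval x).2.2.1
    linarith
  · intro x
    exact (hval x).2.2.2
  · intro x
    have hd : HasDerivAt (fun x => 3 * s + k * G x) (k * (R (x + s) - R x)) x :=
      ((hGd x).const_mul k).const_add _
    rw [hd.deriv, abs_mul, abs_of_pos hkpos]
    calc k * |R (x + s) - R x| ≤ k * (s * s) := mul_le_mul_of_nonneg_left (bRd x) hkpos.le
      _ = ε := hks
  · intro x
    have := (hval x).2.2.1
    linarith
  · intro x hx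
    have h1 := (hval x).1
    have h2 : ϱ x = infDist x E := by
      simp only [hϱ]
      apply min_eq_left
      rw [le_div_iff₀ hε]
      linarith
    rw [h2] at h1
    linarith
  · intro x hx
    have h1 := (hval x).1
    have h2 : ϱ x = infDist x E := by
      simp only [hϱ]
      apply min_eq_left
      rw [le_div_iff₀ hε]
      linarith
    rw [h2] at h1
    linarith
  · intro x
    have h1 := (hval x).2.1
    have h2 : ϱ x ≤ infDist x E := min_le_left _ _
    have h3 := mul_le_mul_of_nonneg_left h2 hε.le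
    linarith

end CF6

end

section

open Complex MeasureTheory Set Filter Topology Metric

namespace CF6

/-- E.7a (about 60 lines): points over `[α1,α2]`, between the two curves at scales `ε² s` and `s`, lie in cones of opening `4/ε`
at points of `E ∩ [α1,α2]`; so all directions there are `η`-close to `e α1`, together with the ball of radius `Im/4`. -/
theorem cone_region {Φ : ℂ → ℂ} {E : Set ℝ} {p e : ℝ → ℂ} (hEc : IsClosed E)
    (hU : UIsogonal Φ E p e) {ε : ℝ} (hε : 0 < ε) (hε1 : ε ≤ 1 / 10) (η : ℝ) (hη : 0 < η) :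
    ∃ κ0 > (0 : ℝ), ∀ κ s : ℝ, 0 < κ → κ < κ0 → 0 < s → s ≤ κ → ∀ τ' τ : ℝ → ℝ,
      TauFor E ε κ (ε ^ 2 * s) τ' → TauFor E ε κ s τ → ∀ α1 ∈ E, ∀ α2 ∈ E, α1 ≤ α2 →
      α2 - α1 ≤ κ / ε → ∀ θ ∈ Icc α1 α2, ∀ y : ℝ, τ' θ ≤ y → y ≤ max (τ θ) (τ' θ) →
      ∀ u : ℂ, ‖u - (θ + y * I)‖ ≤ y / 4 → 0 < u.im ∧ deriv Φ u ≠ 0 ∧
        ‖deriv Φ u / ‖deriv Φ u‖ - e α1‖ ≤ η := by
  obtain ⟨δ, hδ, hiso⟩ := hU (4 / ε) (by positivity) (η / 4) (by positivity)
  refine ⟨δ / 10, by positivity, ?_⟩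
  intro κ s hκ hκδ hs hsκ τ' τ hτ' hτ α1 h1 α2 h2 h12 hd θ hθ y hy1 hy2 u hu
  have hne : E.Nonempty := ⟨α1, h1⟩
  obtain ⟨α, hα, hαd⟩ := hEc.exists_infDist_eq_dist hne θ
  have hd1 : infDist θ E ≤ θ - α1 := by
    have := infDist_le_dist_of_mem (x := θ) h1
    rwa [Real.dist_eq, abs_of_nonneg (by linarith [hθ.1])] at this
  have hd2 : θ - α1 ≤ κ / ε := by linarith [hθ.2]
  have hd3 : infDist θ E ≤ κ / ε := hd1.trans hd2
  have hd4 : ε * infDist θ E ≤ κ := by
    rw [le_div_iff₀ hε] at hd3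
    linarith
  have hd5 : ε * infDist θ E ≤ y := (hτ'.ge' θ hd4).trans hy1
  have hy0 : 0 < y := lt_of_lt_of_le (hτ'.depth.pos θ) hy1
  have hy3 : y ≤ 6 * κ := hy2.trans (max_le (hτ.depth.le θ) (hτ'.depth.le θ))
  have a1 : |(u - (θ + y * I)).re| ≤ y / 4 := (abs_re_le_norm _).trans hu
  have a2 : |(u - (θ + y * I)).im| ≤ y / 4 := (abs_im_le_norm _).trans hu
  simp only [sub_re, add_re, ofReal_re, mul_re, I_re, mul_zero, ofReal_im, I_im, mul_one,
    sub_self, add_zero, sub_im, add_im, mul_im, zero_add] at a1 a2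
  have a3 := abs_le.1 a2
  have a4 : 0 < u.im := by linarith [a3.1]
  rw [Real.dist_eq] at hαd
  have a5 : |θ - α| ≤ y / ε := by
    rw [le_div_iff₀ hε, ← hαd]
    linarith
  have a6 : |u.re - α| ≤ 4 / ε * u.im := by
    have b1 : |u.re - α| ≤ |u.re - θ| + |θ - α| := abs_sub_le _ _ _
    have b2 : y / 4 + y / ε ≤ 4 / ε * (3 * y / 4) := by
      rw [div_add_div _ _ (by norm_num) hε.ne', div_mul_div_comm, div_le_div_iff₀ (by positivity)
        (by positivity)]
      nlinarith [mul_pos hy0 hε]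
    have b3 : 4 / ε * (3 * y / 4) ≤ 4 / ε * u.im :=
      mul_le_mul_of_nonneg_left (by linarith [a3.1]) (by positivity)
    linarith
  obtain ⟨-, c1, c2⟩ := hiso α hα u a4 (by linarith [a3.2]) a6
  -- the common point of the cones
  set w : ℂ := α1 + κ * I with hw
  have hwi : w.im = κ := by simp [hw]
  have hwr : w.re = α1 := by simp [hw]
  obtain ⟨-, d1, d2⟩ := hiso α1 h1 w (by rw [hwi]; exact hκ) (by rw [hwi]; linarith)
    (by rw [hwr, hwi, sub_self, abs_zero]; positivity)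
  have a7 : |α1 - α| ≤ 4 / ε * κ := by
    have b1 : |α1 - α| ≤ |α1 - θ| + |θ - α| := abs_sub_le _ _ _
    have b2 : |α1 - θ| ≤ κ / ε := by
      rw [abs_sub_comm, abs_of_nonneg (by linarith [hθ.1])]
      exact hd2
    have b3 : |θ - α| ≤ κ / ε := by rw [← hαd]; exact hd3
    have b4 : 4 / ε * κ = 4 * (κ / ε) := by ring
    have b5 : 0 ≤ κ / ε := by positivity
    linarith
  obtain ⟨-, -, d3⟩ := hiso α hα w (by rw [hwi]; exact hκ) (by rw [hwi]; linarith)
    (by rw [hwr, hwi]; exact a7)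
  refine ⟨a4, c1, ?_⟩
  have e1 : deriv Φ u / ‖deriv Φ u‖ - e α1 = (deriv Φ u / ‖deriv Φ u‖ - e α) -
      (deriv Φ w / ‖deriv Φ w‖ - e α) + (deriv Φ w / ‖deriv Φ w‖ - e α1) := by ring
  rw [e1]
  refine (norm_add_le _ _).trans ?_
  have e2 := norm_sub_le (deriv Φ u / ‖deriv Φ u‖ - e α) (deriv Φ w / ‖deriv Φ w‖ - e α)
  linarith

end CF6

end

section

open Complex MeasureTheory Set Filter Topology Metric intervalIntegral

namespace CF6

theorem e1n_pow {t : ℂ} (ht : ‖t‖ = 1) (n : ℕ) : ‖t ^ n - 1‖ ≤ n * ‖t - 1‖ := by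
  induction n with
  | zero => simp
  | succ n ih =>
    have h1 : t ^ (n + 1) - 1 = t ^ n * (t - 1) + (t ^ n - 1) := by ring
    rw [h1]
    refine (norm_add_le _ _).trans ?_
    rw [norm_mul, norm_pow, ht, one_pow, one_mul]
    push_cast
    linarith

theorem e1n_dir {z w e : ℂ} {η : ℝ} (hz : z ≠ 0) (hw : w ≠ 0)
    (h1 : ‖z / ‖z‖ - e‖ ≤ η) (h2 : ‖w / ‖w‖ - e‖ ≤ η) :
    ‖(z / w) / ‖z / w‖ - 1‖ ≤ 2 * η := by
  have hz' : (‖z‖ : ℂ) ≠ 0 := by exact_mod_cast (norm_pos_iff.2 hz).ne'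
  have hw' : (‖w‖ : ℂ) ≠ 0 := by exact_mod_cast (norm_pos_iff.2 hw).ne'
  have h3 : (z / w) / ‖z / w‖ - 1 = (z / ‖z‖ - w / ‖w‖) / (w / ‖w‖) := by
    rw [norm_div]
    push_cast
    field_simp
  have h4 : ‖w / (‖w‖ : ℂ)‖ = 1 := by
    rw [norm_div, Complex.norm_real, norm_norm, div_self (norm_pos_iff.2 hw).ne']
  rw [h3, norm_div, h4, div_one]
  calc ‖z / ‖z‖ - w / ‖w‖‖ = ‖(z / ‖z‖ - e) - (w / ‖w‖ - e)‖ := by congr 1; ring
    _ ≤ ‖z / ‖z‖ - e‖ + ‖w / ‖w‖ - e‖ := norm_sub_le _ _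
    _ ≤ 2 * η := by linarith

theorem e1n_re {z : ℂ} {δ : ℝ} {N : ℕ} (hz : z ≠ 0) (h1 : ‖z / ‖z‖ - 1‖ ≤ δ)
    (h2 : N * δ < 1) : 0 < (z ^ N).re := by
  have hz' : 0 < ‖z‖ := norm_pos_iff.2 hz
  have hzc : (‖z‖ : ℂ) ≠ 0 := by exact_mod_cast hz'.ne'
  set t := z / (‖z‖ : ℂ) with ht
  have h4 : ‖t‖ = 1 := by
    rw [ht, norm_div, Complex.norm_real, norm_norm, div_self hz'.ne']
  have h5 : z ^ N = ((‖z‖ ^ N : ℝ) : ℂ) * t ^ N := by
    rw [ht, div_pow]
    push_cast
    field_simp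
  have h6 : ‖t ^ N - 1‖ < 1 := by
    refine lt_of_le_of_lt (e1n_pow h4 N) (lt_of_le_of_lt ?_ h2)
    exact mul_le_mul_of_nonneg_left h1 (Nat.cast_nonneg N)
  have h7 : 0 < (t ^ N).re := by
    have h8 := (Complex.abs_re_le_norm (t ^ N - 1)).trans_lt h6
    rw [Complex.sub_re, Complex.one_re, abs_lt] at h8
    linarith [h8.1]
  rw [h5, Complex.re_ofReal_mul]
  positivity

theorem e1n_cayley {P : ℂ} (h : 0 < P.re) : ‖(P - 1) / (P + 1)‖ < 1 := by
  have h1 : P + 1 ≠ 0 := by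
    intro h2
    have h3 := congrArg Complex.re h2
    simp at h3
    linarith
  rw [norm_div, div_lt_one (norm_pos_iff.2 h1)]
  apply lt_of_pow_lt_pow_left₀ 2 (norm_nonneg _)
  rw [← Complex.normSq_eq_norm_sq, ← Complex.normSq_eq_norm_sq, Complex.normSq_apply,
    Complex.normSq_apply]
  simp
  nlinarith

/-- E.7b (about 120 lines): if the direction of `Φ'` is `η`-close to a constant unit number on `closedBall u0 r`, `η ≤ 1/4`, then
`|Φ''/Φ'|(u0) ≤ 8η/r` (log Φ' has small imaginary part on the ball; Borel-Caratheodory). -/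
theorem log_deriv_bound {Φ : ℂ → ℂ} {u0 e : ℂ} {r η : ℝ} (hr : 0 < r) (hη : 0 < η)
    (hη1 : η ≤ 1 / 4) (he : ‖e‖ = 1) (hΦ : DifferentiableOn ℂ Φ (ball u0 (2 * r)))
    (hd : ∀ u ∈ closedBall u0 r, deriv Φ u ≠ 0 ∧ ‖deriv Φ u / ‖deriv Φ u‖ - e‖ ≤ η) :
    ‖deriv (deriv Φ) u0‖ ≤ 16 * η / r * ‖deriv Φ u0‖ := by
  have hu0 : u0 ∈ closedBall u0 r := mem_closedBall_self hr.le
  have hD0 := (hd u0 hu0).1
  have hDd : DifferentiableOn ℂ (deriv Φ) (ball u0 (2 * r)) := hΦ.deriv isOpen_ball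
  set N : ℕ := ⌊1 / (4 * η)⌋₊ with hN
  have hx1 : 1 ≤ 1 / (4 * η) := by
    rw [le_div_iff₀ (by positivity)]; linarith
  have hN1 : 1 ≤ N := by
    rw [hN]
    exact Nat.le_floor (by exact_mod_cast hx1)
  have hN2 : (N : ℝ) ≤ 1 / (4 * η) := Nat.floor_le (by positivity)
  have hN3 : 1 / (4 * η) < N + 1 := Nat.lt_floor_add_one _
  have hNR : (1 : ℝ) ≤ N := by exact_mod_cast hN1
  have hN4 : (N : ℝ) * (2 * η) < 1 := by
    have h1 : (N : ℝ) * (4 * η) ≤ 1 := by
      rwa [le_div_iff₀ (by positivity)] at hN2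
    nlinarith
  have hN5 : 1 ≤ 8 * η * N := by
    have h1 : 1 < (N + 1) * (4 * η) := by
      rwa [div_lt_iff₀ (by positivity)] at hN3
    nlinarith
  have hsub : ball u0 r ⊆ ball u0 (2 * r) := ball_subset_ball (by linarith)
  set P : ℂ → ℂ := fun u => (deriv Φ u / deriv Φ u0) ^ N with hP
  have hPre : ∀ u ∈ ball u0 r, 0 < (P u).re := by
    intro u hu
    have h1 := hd u (ball_subset_closedBall hu)
    exact e1n_re (div_ne_zero h1.1 hD0) (e1n_dir h1.1 hD0 h1.2 (hd u0 hu0).2) hN4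
  have hP0 : P u0 = 1 := by
    rw [hP]
    simp only
    rw [div_self hD0, one_pow]
  have hPd : DifferentiableOn ℂ P (ball u0 r) :=
    ((hDd.mono hsub).div_const _).pow N
  have hPne : ∀ u ∈ ball u0 r, P u + 1 ≠ 0 := by
    intro u hu h2
    have h3 := congrArg Complex.re h2
    have h4 := hPre u hu
    simp at h3
    linarith
  set q : ℂ → ℂ := fun u => (P u - 1) / (P u + 1) with hq
  have hqd : DifferentiableOn ℂ q (ball u0 r) :=
    (hPd.sub_const 1).div (hPd.add_const 1) hPne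
  have hq0 : q u0 = 0 := by
    rw [hq]
    simp only
    rw [hP0]; simp
  have hmaps : MapsTo q (ball u0 r) (ball (q u0) 1) := by
    intro u hu
    rw [hq0, mem_ball_zero_iff]
    exact e1n_cayley (hPre u hu)
  have hkey : ‖deriv q u0‖ ≤ 1 / r :=
    Complex.norm_deriv_le_div_of_mapsTo_ball hqd (hmaps.mono_right ball_subset_closedBall) hr
  have hDat : HasDerivAt (deriv Φ) (deriv (deriv Φ) u0) u0 :=
    ((hDd u0 (mem_ball_self (by linarith))).differentiableAt
      (isOpen_ball.mem_nhds (mem_ball_self (by linarith)))).hasDerivAt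
  have hPat : HasDerivAt P (N * (deriv (deriv Φ) u0 / deriv Φ u0)) u0 := by
    have h1 := (hDat.div_const (deriv Φ u0)).pow N
    have h2 : (N : ℂ) * (deriv Φ u0 / deriv Φ u0) ^ (N - 1) *
        (deriv (deriv Φ) u0 / deriv Φ u0) = N * (deriv (deriv Φ) u0 / deriv Φ u0) := by
      rw [div_self hD0, one_pow, mul_one]
    rw [← h2]
    exact h1
  have hqat : HasDerivAt q ((N * (deriv (deriv Φ) u0 / deriv Φ u0)) / 2) u0 := by
    have h1 := (hPat.sub_const 1).div (hPat.add_const 1) (hPne u0 (mem_ball_self hr))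
    have h2 : ((N * (deriv (deriv Φ) u0 / deriv Φ u0)) * (P u0 + 1) -
        (P u0 - 1) * (N * (deriv (deriv Φ) u0 / deriv Φ u0))) / (P u0 + 1) ^ 2 =
        (N * (deriv (deriv Φ) u0 / deriv Φ u0)) / 2 := by
      rw [hP0]; ring
    rw [← h2]
    exact h1
  rw [hqat.deriv, norm_div, norm_mul, norm_div, Complex.norm_natCast] at hkey
  have hDpos : 0 < ‖deriv Φ u0‖ := norm_pos_iff.2 hD0
  have h2n : ‖(2 : ℂ)‖ = 2 := by simp
  rw [h2n] at hkey
  have hNpos : (0 : ℝ) < N := by linarith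
  have h3 : ‖deriv (deriv Φ) u0‖ / ‖deriv Φ u0‖ ≤ 16 * η / r := by
    have h4 : (N : ℝ) * (‖deriv (deriv Φ) u0‖ / ‖deriv Φ u0‖) ≤ 2 / r := by
      have h5 : (N : ℝ) * (‖deriv (deriv Φ) u0‖ / ‖deriv Φ u0‖) / 2 * 2 ≤ 1 / r * 2 :=
        mul_le_mul_of_nonneg_right hkey (by norm_num)
      calc (N : ℝ) * (‖deriv (deriv Φ) u0‖ / ‖deriv Φ u0‖)
          = (N : ℝ) * (‖deriv (deriv Φ) u0‖ / ‖deriv Φ u0‖) / 2 * 2 := by ring
        _ ≤ 1 / r * 2 := h5
        _ = 2 / r := by ring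
    have h6 : (2 : ℝ) / r ≤ N * (16 * η / r) := by
      calc (2 : ℝ) / r = 2 * 1 / r := by ring
        _ ≤ 2 * (8 * η * N) / r := by
            apply div_le_div_of_nonneg_right _ hr.le
            linarith
        _ = N * (16 * η / r) := by ring
    exact le_of_mul_le_mul_left (h4.trans h6) hNpos
  rwa [div_le_iff₀ hDpos] at h3

end CF6

end

section

open Complex MeasureTheory Set Filter Topology Metric intervalIntegral

namespace CF6

/-- E.7c (about 100 lines): radial comparison `|Φ'(θ+iτ)| ≤ (1+Cε)|Φ'(θ+iτ')|` (and conversely), with `η = ε²`, from E.7b,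
`log(τ/τ') ≤ log(6/ε²)`. -/
theorem radial_compare : ∃ C : ℝ, 1 ≤ C ∧ ∀ (Φ : ℂ → ℂ), DifferentiableOn ℂ Φ UHP →
    ∀ ε : ℝ, 0 < ε → C * ε ≤ 1 → ∀ (e : ℂ) (θ t' t : ℝ), ‖e‖ = 1 → 0 < t' → t' ≤ t →
    t ≤ 10 / ε ^ 2 * t' →
    (∀ y ∈ Icc t' t, ∀ u : ℂ, ‖u - (θ + y * I)‖ ≤ y / 4 → 0 < u.im ∧ deriv Φ u ≠ 0 ∧
        ‖deriv Φ u / ‖deriv Φ u‖ - e‖ ≤ ε ^ 2) →
    ‖deriv Φ (θ + t * I)‖ ≤ (1 + C * ε) * ‖deriv Φ (θ + t' * I)‖ := by
  refine ⟨1024, by norm_num, ?_⟩
  intro Φ hΦ ε hε hCε e θ t' t he ht' htt ht hdir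
  have hopen : IsOpen UHP := isOpen_lt continuous_const Complex.continuous_im
  have hε1 : ε ≤ 1 / 1024 := by linarith
  have hε2 : ε ^ 2 ≤ 1 / 4 := by nlinarith
  have ht0 : 0 < t := ht'.trans_le htt
  obtain ⟨L, hL⟩ : ∃ L : ℝ, L = Real.log (t / t') := ⟨_, rfl⟩
  have hL0 : 0 ≤ L := by
    rw [hL]
    exact Real.log_nonneg (by rw [le_div_iff₀ ht']; linarith)
  have hexpL : Real.exp L = t / t' := by
    rw [hL, Real.exp_log (by positivity)]
  obtain ⟨f, hf⟩ : ∃ f : ℝ → ℂ, f = fun s => deriv Φ (θ + ((t' * Real.exp s : ℝ) : ℂ) * I) := ⟨_, rfl⟩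
  obtain ⟨f', hf'⟩ : ∃ f' : ℝ → ℂ, f' = fun s =>
      deriv (deriv Φ) (θ + ((t' * Real.exp s : ℝ) : ℂ) * I) * (((t' * Real.exp s : ℝ) : ℂ) * I) :=
    ⟨_, rfl⟩
  have hdd : DifferentiableOn ℂ (deriv Φ) UHP := hΦ.deriv hopen
  have hpos : ∀ s : ℝ, 0 < t' * Real.exp s := fun s => mul_pos ht' (Real.exp_pos s)
  have hmem : ∀ s : ℝ, (θ + ((t' * Real.exp s : ℝ) : ℂ) * I) ∈ UHP := by
    intro s
    have h1 : (θ + ((t' * Real.exp s : ℝ) : ℂ) * I).im = t' * Real.exp s := by
      simp only [Complex.add_im, Complex.ofReal_im, Complex.mul_im, Complex.ofReal_re, Complex.I_im,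
        Complex.I_re, mul_one, mul_zero, add_zero, zero_add]
    show 0 < (θ + ((t' * Real.exp s : ℝ) : ℂ) * I).im
    rw [h1]
    exact hpos s
  have hder : ∀ s : ℝ, HasDerivAt f (f' s) s := by
    intro s
    have h1 : HasDerivAt (fun s : ℝ => ((t' * Real.exp s : ℝ) : ℂ)) ((t' * Real.exp s : ℝ) : ℂ) s :=
      ((Real.hasDerivAt_exp s).const_mul t').ofReal_comp
    have h2 : HasDerivAt (fun s : ℝ => (θ : ℂ) + ((t' * Real.exp s : ℝ) : ℂ) * I)
        (((t' * Real.exp s : ℝ) : ℂ) * I) s := (h1.mul_const I).const_add _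
    have h3 : HasDerivAt (deriv Φ) (deriv (deriv Φ) (θ + ((t' * Real.exp s : ℝ) : ℂ) * I))
        (θ + ((t' * Real.exp s : ℝ) : ℂ) * I) :=
      (hdd.differentiableAt (hopen.mem_nhds (hmem s))).hasDerivAt
    rw [hf, hf']
    exact HasDerivAt.comp_of_eq s h3 h2 rfl
  have hbound : ∀ s ∈ Ico (0 : ℝ) L, ‖f' s‖ ≤ 64 * ε ^ 2 * ‖f s‖ + 0 := by
    intro s hs
    obtain ⟨y, hy⟩ : ∃ y : ℝ, y = t' * Real.exp s := ⟨_, rfl⟩
    have hy0 : 0 < y := by rw [hy]; exact hpos s
    have hyI : y ∈ Icc t' t := by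
      constructor
      · rw [hy]
        have := Real.one_le_exp hs.1
        nlinarith
      · rw [hy]
        have h1 : Real.exp s ≤ Real.exp L := Real.exp_le_exp.2 hs.2.le
        rw [hexpL, le_div_iff₀ ht'] at h1
        linarith
    have h2 := log_deriv_bound (Φ := Φ) (u0 := θ + y * I) (e := e) (r := y / 4) (η := ε ^ 2)
      (by linarith) (by positivity) hε2 he (hΦ.mono (by
        intro u hu
        rw [mem_ball, dist_eq_norm] at hu
        have h3 := Complex.abs_im_le_norm (u - (θ + y * I))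
        have h4 : (u - (θ + y * I)).im = u.im - y := by simp
        rw [h4] at h3
        have h5 := (abs_le.1 h3).1
        show 0 < u.im
        linarith)) (by
        intro u hu
        rw [mem_closedBall, dist_eq_norm] at hu
        exact (hdir y hyI u hu).2)
    rw [hf, hf', add_zero]
    simp only
    rw [← hy, norm_mul, norm_mul, Complex.norm_I, mul_one, Complex.norm_real, Real.norm_of_nonneg hy0.le]
    calc ‖deriv (deriv Φ) (θ + y * I)‖ * y ≤ (16 * ε ^ 2 / (y / 4) * ‖deriv Φ (θ + y * I)‖) * y :=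
          mul_le_mul_of_nonneg_right h2 hy0.le
      _ = 64 * ε ^ 2 * ‖deriv Φ (θ + y * I)‖ := by
        field_simp
        ring
  have hgr := norm_le_gronwallBound_of_norm_deriv_right_le (f := f) (f' := f') (δ := ‖f 0‖)
    (K := 64 * ε ^ 2) (ε := 0) (a := 0) (b := L)
    (fun s _ => (hder s).continuousAt.continuousWithinAt)
    (fun s _ => (hder s).hasDerivWithinAt) le_rfl hbound L
    (right_mem_Icc.2 hL0)
  rw [gronwallBound_ε0, sub_zero] at hgr
  have e1 : f L = deriv Φ (θ + t * I) := by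
    rw [hf]
    simp only
    rw [hexpL, mul_div_cancel₀ _ ht'.ne']
  have e0 : f 0 = deriv Φ (θ + t' * I) := by
    rw [hf]
    simp only
    rw [Real.exp_zero, mul_one]
  rw [e1, e0] at hgr
  refine hgr.trans ?_
  rw [mul_comm]
  refine mul_le_mul_of_nonneg_right ?_ (norm_nonneg _)
  -- `exp (64 ε² L) ≤ 1 + 1024 ε`
  have hLb : L ≤ 8 / ε := by
    have h1 : t / t' ≤ (4 / ε) ^ 2 := by
      rw [div_le_iff₀ ht']
      refine ht.trans (mul_le_mul_of_nonneg_right ?_ ht'.le)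
      rw [div_pow]
      exact div_le_div_of_nonneg_right (by norm_num) (by positivity)
    have h2 : L ≤ Real.log ((4 / ε) ^ 2) := by
      rw [hL]
      exact Real.log_le_log (by positivity) h1
    rw [Real.log_pow] at h2
    have h3 : Real.log (4 / ε) ≤ 4 / ε - 1 := Real.log_le_sub_one_of_pos (by positivity)
    have h4 : (8 : ℝ) / ε = 2 * (4 / ε) := by ring
    push_cast at h2
    linarith
  have hx : 64 * ε ^ 2 * L ≤ 512 * ε := by
    calc 64 * ε ^ 2 * L ≤ 64 * ε ^ 2 * (8 / ε) := mul_le_mul_of_nonneg_left hLb (by positivity)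
      _ = 512 * ε := by
        field_simp
        ring
  have hx1 : |512 * ε| ≤ 1 := by
    rw [abs_of_pos (by positivity)]
    linarith
  calc Real.exp (64 * ε ^ 2 * L) ≤ Real.exp (512 * ε) := Real.exp_le_exp.2 hx
    _ ≤ 1 + 1024 * ε := by
      have h1 := Real.abs_exp_sub_one_le hx1
      rw [abs_of_pos (show 0 < 512 * ε by positivity)] at h1
      have h2 := (abs_le.1 h1).2
      linarith

end CF6

end

section

open Complex MeasureTheory Set Filter Topology Metric intervalIntegral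

namespace CF6

/-- E.7e (about 120 lines): a curve along which `Φ'` has almost constant direction: chord ≥ (1 - Cε) length. -/
theorem chord_length : ∃ C : ℝ, 1 ≤ C ∧ ∀ (Φ : ℂ → ℂ), DifferentiableOn ℂ Φ UHP →
    ∀ ε : ℝ, 0 < ε → C * ε ≤ 1 → ∀ (τ : ℝ → ℝ) (r : ℝ), Depth ε r τ → ∀ (e : ℂ), ‖e‖ = 1 →
    ∀ α1 α2 : ℝ, α1 ≤ α2 →
    (∀ θ ∈ Icc α1 α2, ‖deriv Φ (pt τ θ) / ‖deriv Φ (pt τ θ)‖ - e‖ ≤ ε) →
    (∫ θ in α1..α2, ‖deriv Φ (pt τ θ)‖) ≤ (1 + C * ε) * ‖Φ (pt τ α2) - Φ (pt τ α1)‖ := by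
  refine ⟨4, by norm_num, ?_⟩
  intro Φ hΦ ε hε hCε τ r hτ e he α1 α2 hα hdir
  have hopen : IsOpen UHP := isOpen_lt continuous_const Complex.continuous_im
  have hptm : ∀ θ, pt τ θ ∈ UHP := by
    intro θ
    show 0 < (pt τ θ).im
    have : (pt τ θ).im = τ θ := by simp [pt]
    rw [this]
    exact hτ.pos θ
  have hτd : Differentiable ℝ τ := hτ.smooth.differentiable (by norm_num)
  have hτc' : Continuous (deriv τ) := hτ.smooth.continuous_deriv (by norm_num)
  have hptc : Continuous (pt τ) := by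
    have := hτd.continuous
    unfold pt
    fun_prop
  have hDc : Continuous (fun θ => deriv Φ (pt τ θ)) :=
    (hΦ.deriv hopen).continuousOn.comp_continuous hptc hptm
  have hder : ∀ θ : ℝ, HasDerivAt (fun θ => Φ (pt τ θ))
      (deriv Φ (pt τ θ) * (1 + deriv τ θ * I)) θ := by
    intro θ
    have h1 : HasDerivAt Φ (deriv Φ (pt τ θ)) (pt τ θ) :=
      ((hΦ _ (hptm θ)).differentiableAt (hopen.mem_nhds (hptm θ))).hasDerivAt
    have h2 : HasDerivAt (pt τ) (1 + deriv τ θ * I) θ := by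
      have h3 : HasDerivAt (fun x : ℝ => (x : ℂ)) 1 θ := by
        simpa using (hasDerivAt_id θ).ofReal_comp
      have h4 : HasDerivAt (fun x : ℝ => (τ x : ℂ)) ((deriv τ θ : ℝ) : ℂ) θ :=
        (hτd θ).hasDerivAt.ofReal_comp
      exact h3.add (h4.mul_const I)
    exact h1.comp θ h2
  have hγc : Continuous (fun θ => deriv Φ (pt τ θ) * (1 + deriv τ θ * I)) := by
    fun_prop
  have hint : (∫ θ in α1..α2, deriv Φ (pt τ θ) * (1 + deriv τ θ * I)) =
      Φ (pt τ α2) - Φ (pt τ α1) :=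
    integral_eq_sub_of_hasDerivAt (fun θ _ => hder θ) (hγc.intervalIntegrable _ _)
  have hnc : Continuous (fun θ => ‖deriv Φ (pt τ θ)‖) := hDc.norm
  have hnc' : Continuous (fun θ => ((‖deriv Φ (pt τ θ)‖ : ℝ) : ℂ) * e) := by fun_prop
  have hdiff : (∫ θ in α1..α2, (deriv Φ (pt τ θ) * (1 + deriv τ θ * I) -
      ((‖deriv Φ (pt τ θ)‖ : ℝ) : ℂ) * e)) =
      (Φ (pt τ α2) - Φ (pt τ α1)) - ((∫ θ in α1..α2, ‖deriv Φ (pt τ θ)‖ : ℝ) : ℂ) * e := by
    rw [intervalIntegral.integral_sub (hγc.intervalIntegrable _ _) (hnc'.intervalIntegrable _ _),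
      hint, intervalIntegral.integral_mul_const, intervalIntegral.integral_ofReal]
  have hpoint : ∀ θ ∈ Icc α1 α2, ‖deriv Φ (pt τ θ) * (1 + deriv τ θ * I) -
      ((‖deriv Φ (pt τ θ)‖ : ℝ) : ℂ) * e‖ ≤ 2 * ε * ‖deriv Φ (pt τ θ)‖ := by
    intro θ hθ
    have h1 : ‖deriv Φ (pt τ θ) - ((‖deriv Φ (pt τ θ)‖ : ℝ) : ℂ) * e‖ ≤
        ε * ‖deriv Φ (pt τ θ)‖ := by
      rcases eq_or_ne (deriv Φ (pt τ θ)) 0 with h0 | h0
      · rw [h0]
        simp
      · have h2 := hdir θ hθ
        have h3 : deriv Φ (pt τ θ) - ((‖deriv Φ (pt τ θ)‖ : ℝ) : ℂ) * e =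
            ((‖deriv Φ (pt τ θ)‖ : ℝ) : ℂ) *
              (deriv Φ (pt τ θ) / ‖deriv Φ (pt τ θ)‖ - e) := by
          have h4 : ((‖deriv Φ (pt τ θ)‖ : ℝ) : ℂ) ≠ 0 := by
            exact_mod_cast norm_ne_zero_iff.2 h0
          field_simp
        rw [h3, norm_mul, Complex.norm_real, norm_norm, mul_comm]
        exact mul_le_mul_of_nonneg_right h2 (norm_nonneg _)
    have h5 : deriv Φ (pt τ θ) * (1 + deriv τ θ * I) - ((‖deriv Φ (pt τ θ)‖ : ℝ) : ℂ) * e =
        (deriv Φ (pt τ θ) - ((‖deriv Φ (pt τ θ)‖ : ℝ) : ℂ) * e) +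
          deriv Φ (pt τ θ) * (deriv τ θ * I) := by ring
    have h6 : ‖deriv Φ (pt τ θ) * (((deriv τ θ : ℝ) : ℂ) * I)‖ ≤ ε * ‖deriv Φ (pt τ θ)‖ := by
      rw [norm_mul, norm_mul, Complex.norm_I, mul_one, Complex.norm_real, Real.norm_eq_abs, mul_comm]
      exact mul_le_mul_of_nonneg_right (hτ.slope θ) (norm_nonneg _)
    rw [h5]
    refine (norm_add_le _ _).trans ?_
    linarith
  have hnn : 0 ≤ ∫ θ in α1..α2, ‖deriv Φ (pt τ θ)‖ :=
    intervalIntegral.integral_nonneg hα (fun θ _ => norm_nonneg _)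
  have hbound : ‖(Φ (pt τ α2) - Φ (pt τ α1)) -
      ((∫ θ in α1..α2, ‖deriv Φ (pt τ θ)‖ : ℝ) : ℂ) * e‖ ≤
      2 * ε * ∫ θ in α1..α2, ‖deriv Φ (pt τ θ)‖ := by
    rw [← hdiff, ← intervalIntegral.integral_const_mul]
    refine (intervalIntegral.norm_integral_le_integral_norm hα).trans ?_
    refine intervalIntegral.integral_mono_on hα ?_ ?_ hpoint
    · exact ((hγc.sub hnc').norm).intervalIntegrable _ _
    · exact (hnc.const_mul _).intervalIntegrable _ _
  have hlen : ‖((∫ θ in α1..α2, ‖deriv Φ (pt τ θ)‖ : ℝ) : ℂ) * e‖ =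
      ∫ θ in α1..α2, ‖deriv Φ (pt τ θ)‖ := by
    rw [norm_mul, he, mul_one, Complex.norm_real, Real.norm_eq_abs, abs_of_nonneg hnn]
  have htri : (∫ θ in α1..α2, ‖deriv Φ (pt τ θ)‖) ≤ ‖Φ (pt τ α2) - Φ (pt τ α1)‖ +
      2 * ε * ∫ θ in α1..α2, ‖deriv Φ (pt τ θ)‖ := by
    have h1 : ‖((∫ θ in α1..α2, ‖deriv Φ (pt τ θ)‖ : ℝ) : ℂ) * e‖ ≤
        ‖Φ (pt τ α2) - Φ (pt τ α1)‖ + ‖(Φ (pt τ α2) - Φ (pt τ α1)) -
          ((∫ θ in α1..α2, ‖deriv Φ (pt τ θ)‖ : ℝ) : ℂ) * e‖ := by
      have h2 := norm_sub_le (Φ (pt τ α2) - Φ (pt τ α1)) ((Φ (pt τ α2) - Φ (pt τ α1)) -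
          ((∫ θ in α1..α2, ‖deriv Φ (pt τ θ)‖ : ℝ) : ℂ) * e)
      rwa [sub_sub_cancel] at h2
    rw [hlen] at h1
    linarith
  have hε4 : ε ≤ 1 / 4 := by linarith
  have hch : 0 ≤ ‖Φ (pt τ α2) - Φ (pt τ α1)‖ := norm_nonneg _
  set S := ∫ θ in α1..α2, ‖deriv Φ (pt τ θ)‖ with hS
  have h7 : (1 - 2 * ε) * S ≤ ‖Φ (pt τ α2) - Φ (pt τ α1)‖ := by linarith
  have h8 : (1 + 4 * ε) * ((1 - 2 * ε) * S) ≤
      (1 + 4 * ε) * ‖Φ (pt τ α2) - Φ (pt τ α1)‖ :=
    mul_le_mul_of_nonneg_left h7 (by linarith)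
  have h9 : 0 ≤ (2 * ε * (1 - 4 * ε)) * S :=
    mul_nonneg (mul_nonneg (by linarith) (by linarith)) hnn
  nlinarith

end CF6

end
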