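import Pool.Agent.Lib.MP_cf6b16_an.A1
import Pool.Agent.Lib.MP_cf6b16_an.DefsB
import Pool.Agent.Lib.MP_cf6b16_an.DE1

section

/-!
# C1: Bloch's theorem (constant 1/48)

PROOF. `m z = (R - ‖z - a‖) * ‖deriv f z‖` is continuous on the compact `closedBall a R` (`deriv f` is continuous on `U`,
`DifferentiableOn.deriv`); let `z1` be a maximum point, `m z1 ≥ m a = R ‖deriv f a‖`. If `m z1 = 0` then `deriv f a = 0` and the ball is
empty. Otherwise `t = (R - ‖z1 - a‖)/2 > 0`, `A = ‖deriv f z1‖ > 0`, `2 t A = m z1`. For `z ∈ closedBall z1 t`: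
`R - ‖z - a‖ ≥ t`, so `‖deriv f z‖ ≤ m z1 / t = 2 A`. `g z = deriv f z - deriv f z1` is holomorphic on `ball z1 t`, `‖g‖ ≤ 3A < 4A`, `g z1 = 0`: Schwarz
(`Complex.dist_le_div_mul_dist_of_mapsTo_ball` into `ball 0 (4A)`): `‖g z‖ ≤ 4 A ‖z - z1‖ / t`. On `closedBall z1 (t/8)`: `‖g‖ ≤ A/2`, and the mean value
inequality for `f z - deriv f z1 * z` (convex ball, `Convex.norm_image_sub_le_of_norm_deriv_le`) gives for `‖z - z1‖ = t/8`:
`‖f z - f z1‖ ≥ A t/8 - (A/2) t/8 = A t/16`. `DiffContOnCl.ball_subset_image_closedBall` with radius `t/8`, `ε = A t/16`: the image contains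
`ball (f z1) (A t/32)`, and `A t / 32 = m z1 / 64 ≥ R ‖deriv f a‖ / 64`.
-/

open Complex Set Filter Topology Metric

namespace CF6

theorem bloch {U : Set ℂ} (hU : IsOpen U) {f : ℂ → ℂ} (hf : DifferentiableOn ℂ f U) {a : ℂ}
    {R : ℝ} (hR : 0 < R) (hs : closedBall a R ⊆ U) :
    ∃ c : ℂ, ball c (R * ‖deriv f a‖ / 64) ⊆ f '' closedBall a R := by
  have hdf : DifferentiableOn ℂ (deriv f) U := hf.deriv hU
  have hcont : ContinuousOn (fun z => (R - ‖z - a‖) * ‖deriv f z‖) (closedBall a R) := by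
    apply ContinuousOn.mul
    · fun_prop
    · exact (hdf.continuousOn.mono hs).norm
  obtain ⟨z1, hz1, hmax⟩ := (isCompact_closedBall a R).exists_isMaxOn
    ⟨a, mem_closedBall_self hR.le⟩ hcont
  have hmax' : ∀ z ∈ closedBall a R,
      (R - ‖z - a‖) * ‖deriv f z‖ ≤ (R - ‖z1 - a‖) * ‖deriv f z1‖ := fun z hz => hmax hz
  have hma : R * ‖deriv f a‖ ≤ (R - ‖z1 - a‖) * ‖deriv f z1‖ := by
    have := hmax' a (mem_closedBall_self hR.le)
    simpa using this
  obtain ⟨t, ht⟩ : ∃ t : ℝ, t = (R - ‖z1 - a‖) / 2 := ⟨_, rfl⟩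
  obtain ⟨A, hA⟩ : ∃ A : ℝ, A = ‖deriv f z1‖ := ⟨_, rfl⟩
  have hA0 : 0 ≤ A := hA ▸ norm_nonneg _
  have hRt : R - ‖z1 - a‖ = 2 * t := by rw [ht]; ring
  rw [← hA, hRt] at hma
  rw [← hA, hRt] at hmax'
  by_cases h0 : t * A ≤ 0
  · refine ⟨0, ?_⟩
    rw [ball_eq_empty.mpr]
    · exact empty_subset _
    · nlinarith
  have h0' : 0 < t * A := not_le.mp h0
  have hz1R : ‖z1 - a‖ ≤ R := by simpa [dist_eq_norm] using hz1
  have htnn : 0 ≤ t := by rw [ht]; linarith
  have htpos : 0 < t := by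
    rcases htnn.lt_or_eq with h | h
    · exact h
    · rw [← h] at h0'; simp at h0'
  have hApos : 0 < A := by
    rcases hA0.lt_or_eq with h | h
    · exact h
    · rw [← h] at h0'; simp at h0'
  have hin : ∀ z ∈ closedBall z1 t, z ∈ closedBall a R ∧ t ≤ R - ‖z - a‖ := by
    intro z hz
    have h1 : ‖z - z1‖ ≤ t := by simpa [dist_eq_norm] using hz
    have h2 : ‖z - a‖ ≤ ‖z1 - a‖ + ‖z - z1‖ := by
      have : z - a = (z1 - a) + (z - z1) := by ring
      rw [this]; exact norm_add_le _ _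
    refine ⟨?_, by linarith⟩
    rw [mem_closedBall, dist_eq_norm]; linarith
  have hb : ∀ z ∈ closedBall z1 t, ‖deriv f z‖ ≤ 2 * A := by
    intro z hz
    obtain ⟨h3, h5⟩ := hin z hz
    have h4 := hmax' z h3
    have h6 : t * ‖deriv f z‖ ≤ (R - ‖z - a‖) * ‖deriv f z‖ :=
      mul_le_mul_of_nonneg_right h5 (norm_nonneg _)
    have h7 : t * ‖deriv f z‖ ≤ t * (2 * A) := by nlinarith
    exact le_of_mul_le_mul_left h7 htpos
  have hsch : ∀ z ∈ ball z1 t, dist (deriv f z) (deriv f z1) ≤ 3 * A / t * dist z z1 := by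
    intro z hz
    refine Complex.dist_le_div_mul_dist_of_mapsTo_ball (hdf.mono ?_) ?_ hz
    · intro w hw; exact hs (hin w (ball_subset_closedBall hw)).1
    · intro w hw
      rw [mem_closedBall, dist_eq_norm]
      have := hb w (ball_subset_closedBall hw)
      calc ‖deriv f w - deriv f z1‖ ≤ ‖deriv f w‖ + ‖deriv f z1‖ := norm_sub_le _ _
        _ ≤ 3 * A := by rw [← hA]; linarith
  have hsch2 : ∀ z ∈ closedBall z1 (t / 8), ‖deriv f z - deriv f z1‖ ≤ A / 2 := by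
    intro z hz
    have hz' : dist z z1 ≤ t / 8 := hz
    have h1 := hsch z (by rw [mem_ball]; linarith)
    rw [dist_eq_norm] at h1
    have h2 : 3 * A / t * dist z z1 ≤ 3 * A / t * (t / 8) :=
      mul_le_mul_of_nonneg_left hz' (by positivity)
    have h3 : 3 * A / t * (t / 8) = 3 * A / 8 := by field_simp
    linarith
  have hdiff : ∀ z ∈ closedBall z1 (t / 8), DifferentiableAt ℂ f z := by
    intro z hz
    have hz' : dist z z1 ≤ t / 8 := hz
    refine hf.differentiableAt (hU.mem_nhds (hs (hin z ?_).1))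
    rw [mem_closedBall]; linarith
  have hmv : ∀ z ∈ closedBall z1 (t / 8),
      ‖(f z - deriv f z1 * z) - (f z1 - deriv f z1 * z1)‖ ≤ A / 2 * ‖z - z1‖ := by
    intro z hz
    refine Convex.norm_image_sub_le_of_norm_deriv_le
      (f := fun z => f z - deriv f z1 * z) (s := closedBall z1 (t / 8)) ?_ ?_
      (convex_closedBall _ _) (mem_closedBall_self (by positivity)) hz
    · intro w hw
      exact (hdiff w hw).sub (by fun_prop)
    · intro w hw
      have : deriv (fun z => f z - deriv f z1 * z) w = deriv f w - deriv f z1 := by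
        have h1 : HasDerivAt (fun z => f z - deriv f z1 * z) (deriv f w - deriv f z1 * 1) w :=
          (hdiff w hw).hasDerivAt.sub ((hasDerivAt_id w).const_mul _)
        rw [h1.deriv, mul_one]
      rw [this]
      exact hsch2 w hw
  have hsph : ∀ z ∈ sphere z1 (t / 8), A * t / 16 ≤ ‖f z - f z1‖ := by
    intro z hz
    have hz1' : ‖z - z1‖ = t / 8 := by simpa [dist_eq_norm] using hz
    have h1 := hmv z (sphere_subset_closedBall hz)
    rw [hz1'] at h1
    have h2 : deriv f z1 * (z - z1) = (f z - f z1)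
        - ((f z - deriv f z1 * z) - (f z1 - deriv f z1 * z1)) := by ring
    have h3 : ‖deriv f z1 * (z - z1)‖ ≤ ‖f z - f z1‖
        + ‖(f z - deriv f z1 * z) - (f z1 - deriv f z1 * z1)‖ := by
      rw [h2]; exact norm_sub_le _ _
    rw [norm_mul, hz1', ← hA] at h3
    nlinarith
  have hfreq : ∃ᶠ z in 𝓝 z1, f z ≠ f z1 := by
    have hne : deriv f z1 ≠ 0 := by
      intro h; rw [h, norm_zero] at hA; linarith
    have hd := (hdiff z1 (mem_closedBall_self (by positivity))).hasDerivAt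
    exact ((hd.eventually_ne hne).frequently).filter_mono nhdsWithin_le_nhds
  have hdc : DiffContOnCl ℂ f (ball z1 (t / 8)) := by
    apply DifferentiableOn.diffContOnCl
    rw [closure_ball _ (by positivity)]
    intro z hz
    exact (hdiff z hz).differentiableWithinAt
  have hfin := hdc.ball_subset_image_closedBall (by positivity) hsph hfreq
  refine ⟨f z1, (ball_subset_ball ?_).trans (hfin.trans (image_mono ?_))⟩
  · nlinarith
  · intro z hz
    have hz' : dist z z1 ≤ t / 8 := hz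
    exact (hin z (by rw [mem_closedBall]; linarith)).1

end CF6

end

section

/-!
# C2: first Koebe inequality (Schwarz-Pick)

* `collar_chain`: differentiate `ρ (Φ u) = exp (I u)` (`left`; `Kᶜ` and `UHP` are open).
* `koebe_dist`: `w = Φ u ∉ K`, `r = infDist w K > 0`, `ball w r ⊆ Kᶜ`. `T = mob (ρ w) ∘ ρ` maps `ball w r` into `ball 0 1`, `T w = 0`
  (`maps`, `mob_mem`, `mob_self`), so `‖deriv T w‖ ≤ 1/r` (`Complex.norm_deriv_le_div_of_mapsTo_ball`), and
  `deriv T w = deriv ρ w / (1 - ‖ρ w‖^2)` (`mob_hasDerivAt` at `a = z = ρ w`). `‖ρ w‖ = exp (-y)`, `y = u.im`, and by `collar_chain`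
  `‖deriv ρ w‖ ‖deriv Φ u‖ = exp (-y)`. So `r exp (-y) ≤ ‖deriv Φ u‖ (1 - exp (-2y))`, `r ≤ ‖deriv Φ u‖ (exp y - exp (-y)) ≤ 3 y ‖deriv Φ u‖` for
  `0 < y ≤ 1` (`exp y - exp (-y) ≤ 3 y`: convex function of `y`, value `< 3` at `1`; or `exp y ≤ 1 + y + y^2`).
-/

open Complex Set Filter Topology Metric

namespace CF6

theorem collar_chain {K : Set ℂ} {Φ ρ : ℂ → ℂ} (hK : Collar K Φ ρ) {u : ℂ} (hu : 0 < u.im) :
    deriv ρ (Φ u) * deriv Φ u = I * exp (I * u) := by
  have hUo : IsOpen UHP := isOpen_lt continuous_const Complex.continuous_im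
  have hΦd : HasDerivAt Φ (deriv Φ u) u :=
    (hK.dPhi.differentiableAt (hUo.mem_nhds hu)).hasDerivAt
  have hKo : IsOpen Kᶜ := hK.closed.isOpen_compl
  have hρd : HasDerivAt ρ (deriv ρ (Φ u)) (Φ u) :=
    (hK.dRho.differentiableAt (hKo.mem_nhds (hK.mem u hu))).hasDerivAt
  have h1 : HasDerivAt (ρ ∘ Φ) (deriv ρ (Φ u) * deriv Φ u) u := hρd.comp u hΦd
  have h2 : HasDerivAt (fun z => exp (I * z)) (exp (I * u) * (I * 1)) u :=
    ((hasDerivAt_id u).const_mul I).cexp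
  have h3 : (ρ ∘ Φ) =ᶠ[𝓝 u] (fun z => exp (I * z)) := by
    filter_upwards [hUo.mem_nhds hu] with z hz using hK.left z hz
  have h4 := h1.unique (h2.congr_of_eventuallyEq h3)
  rw [h4]; ring

theorem koebe_dist {K : Set ℂ} {Φ ρ : ℂ → ℂ} (hK : Collar K Φ ρ) {u : ℂ} (hu : 0 < u.im)
    (h1 : u.im ≤ 1) : infDist (Φ u) K ≤ 3 * (‖deriv Φ u‖ * u.im) := by
  have hKo : IsOpen Kᶜ := hK.closed.isOpen_compl
  obtain ⟨w, hw⟩ : ∃ w, w = Φ u := ⟨_, rfl⟩
  have hwK : w ∉ K := hw ▸ hK.mem u hu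
  obtain ⟨r, hr⟩ : ∃ r, r = infDist w K := ⟨_, rfl⟩
  have hr0 : 0 < r := hr ▸ (hK.closed.notMem_iff_infDist_pos hK.conn.nonempty).1 hwK
  have hball : ball w r ⊆ Kᶜ := hr ▸ ball_infDist_subset_compl
  have hρw : ρ w = exp (I * u) := hw ▸ hK.left u hu
  have hnρ : ‖ρ w‖ = Real.exp (-u.im) := by
    rw [hρw, Complex.norm_exp]; congr 1; simp
  have hlt : ‖ρ w‖ < 1 := by
    have := hK.maps hwK
    rwa [mem_ball_zero_iff] at this
  have hTd : DifferentiableOn ℂ (mob (ρ w) ∘ ρ) (ball w r) :=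
    (a16_diff hlt).comp (hK.dRho.mono hball) (fun z hz => hK.maps (hball hz))
  have hTm : MapsTo (mob (ρ w) ∘ ρ) (ball w r) (closedBall ((mob (ρ w) ∘ ρ) w) 1) := by
    intro z hz
    have h0 : (mob (ρ w) ∘ ρ) w = 0 := mob_self _
    rw [h0]
    exact ball_subset_closedBall (a16_maps hlt (hK.maps (hball hz)))
  have hsch := Complex.norm_deriv_le_div_of_mapsTo_ball hTd hTm hr0
  have hρd : HasDerivAt ρ (deriv ρ w) w :=
    (hK.dRho.differentiableAt (hKo.mem_nhds hwK)).hasDerivAt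
  have hder := ((mob_hasDerivAt (a := ρ w) (z := ρ w) hlt hlt).comp w hρd).deriv
  obtain ⟨q, hq⟩ : ∃ q : ℝ, q = 1 - ‖ρ w‖ ^ 2 := ⟨_, rfl⟩
  have hq0 : 0 < q := by
    rw [hq]; nlinarith [norm_nonneg (ρ w)]
  have hden : (1 - (starRingEnd ℂ) (ρ w) * ρ w : ℂ) = (q : ℂ) := by
    rw [Complex.conj_mul', hq]; push_cast; rfl
  rw [hden, ← hq] at hder
  rw [hder, norm_mul, norm_div, norm_pow, Complex.norm_real, Real.norm_eq_abs,
    abs_of_pos hq0] at hsch
  have h5 : r * ‖deriv ρ w‖ ≤ q := by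
    have e1 : q / q ^ 2 = 1 / q := by field_simp
    rw [e1] at hsch
    rw [div_mul_eq_mul_div, one_mul, div_le_div_iff₀ hq0 hr0] at hsch
    linarith
  have hch := congrArg norm (collar_chain hK hu)
  rw [norm_mul, norm_mul, Complex.norm_I, one_mul, ← hw, ← hρw, hnρ] at hch
  have h6 : r * Real.exp (-u.im) ≤ q * ‖deriv Φ u‖ := by
    rw [← hch]
    calc r * (‖deriv ρ w‖ * ‖deriv Φ u‖) = (r * ‖deriv ρ w‖) * ‖deriv Φ u‖ := by ring
      _ ≤ q * ‖deriv Φ u‖ := mul_le_mul_of_nonneg_right h5 (norm_nonneg _)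
  have hee : Real.exp (-u.im) * Real.exp u.im = 1 := by
    rw [← Real.exp_add]; simp
  have h7 : r ≤ (Real.exp u.im - Real.exp (-u.im)) * ‖deriv Φ u‖ := by
    have h8 := mul_le_mul_of_nonneg_right h6 (Real.exp_pos u.im).le
    have e2 : r * Real.exp (-u.im) * Real.exp u.im = r := by
      rw [mul_assoc, hee, mul_one]
    have e3 : q * Real.exp u.im = Real.exp u.im - Real.exp (-u.im) := by
      rw [hq, hnρ]
      linear_combination (-Real.exp (-u.im)) * hee
    rw [e2] at h8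
    calc r ≤ q * ‖deriv Φ u‖ * Real.exp u.im := h8
      _ = (q * Real.exp u.im) * ‖deriv Φ u‖ := by ring
      _ = _ := by rw [e3]
  have hy : |u.im| ≤ 1 := by rw [abs_of_pos hu]; exact h1
  have h9 := (abs_le.mp (Real.abs_exp_sub_one_sub_id_le hy)).2
  have h10 : 1 + (-u.im) ≤ Real.exp (-u.im) := by
    have := Real.add_one_le_exp (-u.im)
    linarith
  have h11 : Real.exp u.im - Real.exp (-u.im) ≤ 3 * u.im := by nlinarith
  rw [← hw, ← hr]
  calc r ≤ (Real.exp u.im - Real.exp (-u.im)) * ‖deriv Φ u‖ := h7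
    _ ≤ 3 * u.im * ‖deriv Φ u‖ := mul_le_mul_of_nonneg_right h11 (norm_nonneg _)
    _ = _ := by ring

end CF6

end

section

/-!
# C3: second Koebe inequality (Bloch)

PROOF. `Λ` = `hK.logs k hk k' hk'`: `exp (Λ u) = (Φ u - k)/(Φ u - k')`, `Λ (u + 2π) = Λ u`. Differentiating:
`deriv Λ u = deriv Φ u * (k - k') / ((Φ u - k)(Φ u - k'))`. Let `0 < R < u.im`; `closedBall u R ⊆ UHP`; `bloch`: `ball c (R ‖deriv Λ u‖/64) ⊆ Λ '' UHP`.
If this radius were `> π`, then `c - π I` and `c + π I` would be values `Λ u1`, `Λ u2`, `Λ u2 = Λ u1 + 2 π I`, so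
`(Φ u1 - k)/(Φ u1 - k') = (Φ u2 - k)/(Φ u2 - k')`, cross multiply: `(Φ u1 - Φ u2)(k - k') = 0`, `Φ u1 = Φ u2`, `exp (I u1) = exp (I u2)` (`left`), `u2 = u1 + 2π n`,
`Λ u2 = Λ u1` (periodicity, induction on `n : ℤ`; `u + 2πn ∈ UHP`), contradiction. So `R ‖deriv Λ u‖ ≤ 64 π` for all `R < u.im`, `u.im ‖deriv Λ u‖ ≤ 64 π`.
`‖Φ u - k'‖ ≤ ‖Φ u - k‖ + ‖k - k'‖ ≤ 2 ‖k - k'‖`, so `‖deriv Φ u‖ u.im ≤ 64 π ‖Φ u - k‖ ‖Φ u - k'‖/‖k - k'‖ ≤ 128 π ‖Φ u - k‖`.
-/

open Complex Set Filter Topology Metric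

namespace CF6

theorem koebe_deriv {K : Set ℂ} {Φ ρ : ℂ → ℂ} (hK : Collar K Φ ρ) {u : ℂ} (hu : 0 < u.im)
    {k k' : ℂ} (hk : k ∈ K) (hk' : k' ∈ K) (hkk : k ≠ k') (h : ‖Φ u - k‖ ≤ ‖k - k'‖) :
    ‖deriv Φ u‖ * u.im ≤ 128 * Real.pi * ‖Φ u - k‖ := by
  obtain ⟨Λ, hΛd, hΛe, hΛp⟩ := hK.logs k hk k' hk'
  have hUo : IsOpen UHP := isOpen_lt continuous_const Complex.continuous_im
  have huU : u ∈ UHP := hu
  have hΦd : HasDerivAt Φ (deriv Φ u) u :=
    (hK.dPhi.differentiableAt (hUo.mem_nhds huU)).hasDerivAt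
  have hΛd' : HasDerivAt Λ (deriv Λ u) u :=
    (hΛd.differentiableAt (hUo.mem_nhds huU)).hasDerivAt
  have hne : ∀ v ∈ UHP, ∀ x ∈ K, Φ v - x ≠ 0 := by
    intro v hv x hx h0
    exact hK.mem v hv (by rw [sub_eq_zero.mp h0]; exact hx)
  have hk1 := hne u huU k hk
  have hk2 := hne u huU k' hk'
  have hder : deriv Λ u * ((Φ u - k) * (Φ u - k')) = deriv Φ u * (k - k') := by
    have h1 : HasDerivAt (fun z => exp (Λ z)) (exp (Λ u) * deriv Λ u) u := hΛd'.cexp
    have h2 : HasDerivAt (fun z => (Φ z - k) / (Φ z - k'))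
        ((deriv Φ u * (Φ u - k') - (Φ u - k) * deriv Φ u) / (Φ u - k') ^ 2) u :=
      (hΦd.sub_const k).div (hΦd.sub_const k') hk2
    have h3 : (fun z => exp (Λ z)) =ᶠ[𝓝 u] (fun z => (Φ z - k) / (Φ z - k')) := by
      filter_upwards [hUo.mem_nhds huU] with z hz using hΛe z hz
    have h4 := h1.unique (h2.congr_of_eventuallyEq h3)
    rw [hΛe u huU] at h4
    field_simp at h4
    linear_combination h4
  have hper1 : ∀ n : ℕ, ∀ v ∈ UHP, Λ (v + n * (2 * Real.pi)) = Λ v := by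
    intro n
    induction n with
    | zero => intro v _; simp
    | succ n ih =>
      intro v hv
      have h1 : v + n * (2 * Real.pi) ∈ UHP := by
        show 0 < (v + n * (2 * Real.pi)).im
        have : (v + n * (2 * Real.pi) : ℂ).im = v.im := by simp
        rw [this]; exact hv
      have h2 := hΛp _ h1
      rw [ih v hv] at h2
      rw [← h2]; congr 1; push_cast; ring
  have hper : ∀ n : ℤ, ∀ v ∈ UHP, Λ (v + n * (2 * Real.pi)) = Λ v := by
    intro n v hv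
    obtain ⟨m, hm | hm⟩ := n.eq_nat_or_neg
    · rw [hm]; exact_mod_cast hper1 m v hv
    · have h1 : v + n * (2 * Real.pi) ∈ UHP := by
        show 0 < (v + n * (2 * Real.pi)).im
        have : (v + n * (2 * Real.pi) : ℂ).im = v.im := by simp
        rw [this]; exact hv
      have h2 := hper1 m _ h1
      rw [← h2]; congr 1; rw [hm]; push_cast; ring
  have hbl : ∀ R : ℝ, 0 < R → R < u.im → R * ‖deriv Λ u‖ ≤ 64 * Real.pi := by
    intro R hR hRu
    have hsub : closedBall u R ⊆ UHP := by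
      intro z hz
      have h1 : ‖z - u‖ ≤ R := by simpa [dist_eq_norm] using hz
      have h2 : |(z - u).im| ≤ ‖z - u‖ := Complex.abs_im_le_norm _
      have h3 := abs_le.mp (h2.trans h1)
      rw [Complex.sub_im] at h3
      show 0 < z.im
      linarith [h3.1]
    obtain ⟨c, hc⟩ := bloch hUo hΛd hR hsub
    by_contra hcon
    have hpi : Real.pi < R * ‖deriv Λ u‖ / 64 := by
      have := not_le.mp hcon
      linarith
    have hnI : ‖(Real.pi : ℂ) * I‖ = Real.pi := by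
      rw [norm_mul, Complex.norm_I, mul_one, Complex.norm_real, Real.norm_eq_abs,
        abs_of_pos Real.pi_pos]
    obtain ⟨u1, hu1, e1⟩ := hc (show c - Real.pi * I ∈ ball c _ by
      rw [mem_ball, dist_eq_norm]
      have : c - Real.pi * I - c = -(Real.pi * I) := by ring
      rw [this, norm_neg, hnI]; exact hpi)
    obtain ⟨u2, hu2, e2⟩ := hc (show c + Real.pi * I ∈ ball c _ by
      rw [mem_ball, dist_eq_norm]
      have : c + Real.pi * I - c = (Real.pi * I) := by ring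
      rw [this, hnI]; exact hpi)
    have hU1 := hsub hu1
    have hU2 := hsub hu2
    have e3 : Λ u2 = Λ u1 + 2 * Real.pi * I := by rw [e1, e2]; ring
    have e4 : exp (Λ u2) = exp (Λ u1) := by
      rw [e3, Complex.exp_add, Complex.exp_two_pi_mul_I, mul_one]
    rw [hΛe u1 hU1, hΛe u2 hU2] at e4
    have n1 := hne u1 hU1 k' hk'
    have n2 := hne u2 hU2 k' hk'
    rw [div_eq_div_iff n2 n1] at e4
    have e5 : (Φ u1 - Φ u2) * (k - k') = 0 := by linear_combination -e4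
    have e6 : Φ u1 = Φ u2 := by
      rcases mul_eq_zero.mp e5 with h5 | h5
      · exact sub_eq_zero.mp h5
      · exact absurd (sub_eq_zero.mp h5) hkk
    have e7 : exp (I * u1) = exp (I * u2) := by
      rw [← hK.left u1 hU1, ← hK.left u2 hU2, e6]
    obtain ⟨n, hn⟩ := Complex.exp_eq_exp_iff_exists_int.mp e7
    have e8 : u1 = u2 + n * (2 * Real.pi) := by
      have hI : I * (u1 - (u2 + n * (2 * Real.pi))) = 0 := by linear_combination hn
      rcases mul_eq_zero.mp hI with h8 | h8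
      · exact absurd h8 Complex.I_ne_zero
      · exact sub_eq_zero.mp h8
    have e9 : Λ u1 = Λ u2 := by rw [e8]; exact hper n u2 hU2
    have e10 : (2 * Real.pi : ℂ) * I = 0 := by linear_combination -e3 - e9
    simp at e10
  have hfull : u.im * ‖deriv Λ u‖ ≤ 64 * Real.pi := by
    by_contra hcon
    have hcon' := not_le.mp hcon
    have hp : 0 < ‖deriv Λ u‖ := by
      by_contra h0
      have h00 : ‖deriv Λ u‖ = 0 := le_antisymm (not_lt.mp h0) (norm_nonneg _)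
      rw [h00, mul_zero] at hcon'
      have := Real.pi_pos
      linarith
    have hlt : 64 * Real.pi / ‖deriv Λ u‖ < u.im := (div_lt_iff₀ hp).mpr hcon'
    have h1 := hbl ((64 * Real.pi / ‖deriv Λ u‖ + u.im) / 2)
      (by have := Real.pi_pos; positivity) (by linarith)
    have h2 : (64 * Real.pi / ‖deriv Λ u‖ + u.im) / 2 * ‖deriv Λ u‖
        = (64 * Real.pi + u.im * ‖deriv Λ u‖) / 2 := by field_simp
    rw [h2] at h1
    linarith
  have hn := congrArg norm hder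
  rw [norm_mul, norm_mul, norm_mul] at hn
  have hkk0 : 0 < ‖k - k'‖ := norm_pos_iff.mpr (sub_ne_zero.mpr hkk)
  have htri : ‖Φ u - k'‖ ≤ 2 * ‖k - k'‖ := by
    have : Φ u - k' = (Φ u - k) + (k - k') := by ring
    have h1 : ‖Φ u - k'‖ ≤ ‖Φ u - k‖ + ‖k - k'‖ := by rw [this]; exact norm_add_le _ _
    linarith
  have hfin : (‖deriv Φ u‖ * u.im) * ‖k - k'‖ ≤ (128 * Real.pi * ‖Φ u - k‖) * ‖k - k'‖ := by
    calc (‖deriv Φ u‖ * u.im) * ‖k - k'‖ = (‖deriv Φ u‖ * ‖k - k'‖) * u.im := by ring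
      _ = (u.im * ‖deriv Λ u‖) * (‖Φ u - k‖ * ‖Φ u - k'‖) := by rw [← hn]; ring
      _ ≤ (64 * Real.pi) * (‖Φ u - k‖ * ‖Φ u - k'‖) :=
          mul_le_mul_of_nonneg_right hfull (by positivity)
      _ ≤ (64 * Real.pi) * (‖Φ u - k‖ * (2 * ‖k - k'‖)) := by
          have := Real.pi_pos
          gcongr
      _ = _ := by ring
  exact le_of_mul_le_mul_right hfin hkk0

end CF6

end

section

/-!
# C4: bounded `K`: the points close to the boundary of the disc are mapped close to `K`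

* `collar_infty`: `K ⊆ ball 0 R0`, `R0 > 0`. `f ζ = ρ (ζ⁻¹)` is holomorphic, injective and bounded by `1` on `{0 < ‖ζ‖ < 1/R0}`; it extends to a holomorphic
  `F` on `ball 0 (1/R0)` (`Complex.differentiableOn_update_limUnder_of_bddAbove`). `F` is not constant, so its image is open
  (`AnalyticOnNhd.is_constant_or_isOpen`) and contained in `closedBall 0 1` (continuity at `0`), hence in its interior `ball 0 1`. On the compact
  `closedBall 0 (1/(2 R0))` the continuous `‖F‖` has a maximum `c < 1`. `R = 2 R0`.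
* `collar_near`: `R, c` from `collar_infty`. `Q = {w | d ≤ infDist w K ∧ ‖w‖ ≤ R}` is a compact subset of `Kᶜ`, so `‖ρ‖ ≤ c2 < 1` on `Q`. Choose `y1 > 0` with
  `exp (-y1) > max c c2`. If `0 < u.im ≤ y1` and `infDist (Φ u) K ≥ d` then `‖ρ (Φ u)‖ ≤ max c c2` but `‖ρ (Φ u)‖ = exp (- u.im) ≥ exp (-y1)`.
-/

open Complex Set Filter Topology Metric

namespace CF6

theorem collar_infty {K : Set ℂ} {Φ ρ : ℂ → ℂ} (hK : Collar K Φ ρ) (hb : Bornology.IsBounded K) :
    ∃ R c : ℝ, c < 1 ∧ ∀ w : ℂ, R < ‖w‖ → w ∉ K ∧ ‖ρ w‖ ≤ c := by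
  obtain ⟨R1, hR1⟩ := hb.subset_ball (0 : ℂ)
  obtain ⟨R0, hR0⟩ : ∃ R0 : ℝ, R0 = max R1 1 := ⟨_, rfl⟩
  have hR0p : 0 < R0 := by rw [hR0]; exact lt_of_lt_of_le one_pos (le_max_right _ _)
  have hKb : ∀ w : ℂ, R0 < ‖w‖ → w ∉ K := by
    intro w hw hwK
    have h1 := hR1 hwK
    rw [mem_ball_zero_iff] at h1
    have h2 : R1 ≤ R0 := by rw [hR0]; exact le_max_left _ _
    linarith
  have hKo : IsOpen Kᶜ := hK.closed.isOpen_compl
  -- maximum of `‖ρ‖` on the sphere
  have hcs : ContinuousOn (fun w => ‖ρ w‖) (sphere (0 : ℂ) (2 * R0)) := by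
    refine (hK.dRho.continuousOn.mono ?_).norm
    intro w hw
    refine hKb w ?_
    rw [mem_sphere_zero_iff_norm] at hw
    rw [hw]; linarith
  have hne : (sphere (0 : ℂ) (2 * R0)).Nonempty := NormedSpace.sphere_nonempty.mpr (by positivity)
  obtain ⟨w0, hw0, hmax⟩ := (isCompact_sphere (0 : ℂ) (2 * R0)).exists_isMaxOn hne hcs
  have hw0K : w0 ∉ K := by
    refine hKb w0 ?_
    rw [mem_sphere_zero_iff_norm] at hw0
    rw [hw0]; linarith
  have hc1 : ‖ρ w0‖ < 1 := by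
    have := hK.maps hw0K
    rwa [mem_ball_zero_iff] at this
  refine ⟨2 * R0, ‖ρ w0‖, hc1, ?_⟩
  -- the extension of `ρ (ζ⁻¹)`
  have hin : ∀ ζ : ℂ, ζ ∈ ball (0 : ℂ) (1 / R0) \ {0} → ζ⁻¹ ∉ K := by
    intro ζ hζ
    have h1 : ‖ζ‖ < 1 / R0 := by simpa using hζ.1
    have h2 : 0 < ‖ζ‖ := norm_pos_iff.mpr hζ.2
    refine hKb _ ?_
    rw [norm_inv, lt_inv_comm₀ hR0p h2]
    simpa using h1
  have hfd : DifferentiableOn ℂ (fun ζ => ρ (ζ⁻¹)) (ball (0 : ℂ) (1 / R0) \ {0}) := by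
    intro ζ hζ
    have h1 : DifferentiableAt ℂ ρ (ζ⁻¹) :=
      hK.dRho.differentiableAt (hKo.mem_nhds (hin ζ hζ))
    have h2 : DifferentiableAt ℂ (fun z : ℂ => z⁻¹) ζ := differentiableAt_inv hζ.2
    exact (h1.comp ζ h2).differentiableWithinAt
  have hbd : BddAbove (norm ∘ (fun ζ => ρ (ζ⁻¹)) '' (ball (0 : ℂ) (1 / R0) \ {0})) := by
    refine ⟨1, ?_⟩
    rintro _ ⟨ζ, hζ, rfl⟩
    have := hK.maps (hin ζ hζ)
    rw [mem_ball_zero_iff] at this
    exact this.le
  have hFd := Complex.differentiableOn_update_limUnder_of_bddAbove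
    (ball_mem_nhds (0 : ℂ) (by positivity : (0 : ℝ) < 1 / R0)) hfd hbd
  obtain ⟨F, hF⟩ : ∃ F : ℂ → ℂ, F = Function.update (fun ζ => ρ (ζ⁻¹)) 0
    (limUnder (𝓝[≠] (0 : ℂ)) (fun ζ => ρ (ζ⁻¹))) := ⟨_, rfl⟩
  rw [← hF] at hFd
  have hFe : ∀ ζ : ℂ, ζ ≠ 0 → F ζ = ρ (ζ⁻¹) := by
    intro ζ hζ
    rw [hF, Function.update_of_ne hζ]
  have hsub : closedBall (0 : ℂ) (1 / (2 * R0)) ⊆ ball (0 : ℂ) (1 / R0) := by
    apply closedBall_subset_ball
    rw [div_lt_div_iff₀ (by positivity) hR0p]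
    linarith
  have hdc : DiffContOnCl ℂ F (ball (0 : ℂ) (1 / (2 * R0))) := by
    apply DifferentiableOn.diffContOnCl
    rw [closure_ball _ (by positivity)]
    exact hFd.mono hsub
  have hfr : ∀ z ∈ frontier (ball (0 : ℂ) (1 / (2 * R0))), ‖F z‖ ≤ ‖ρ w0‖ := by
    intro z hz
    rw [frontier_ball _ (by positivity), mem_sphere_zero_iff_norm] at hz
    have hz0 : z ≠ 0 := by
      intro h; rw [h, norm_zero] at hz
      have : (0 : ℝ) < 1 / (2 * R0) := by positivity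
      linarith
    rw [hFe z hz0]
    apply hmax
    show z⁻¹ ∈ sphere (0 : ℂ) (2 * R0)
    rw [mem_sphere_zero_iff_norm, norm_inv, hz]
    simp
  intro w hw
  have hwpos : 0 < ‖w‖ := by linarith
  have hw0' : w ≠ 0 := norm_pos_iff.mp hwpos
  refine ⟨hKb w (by linarith), ?_⟩
  have h1 : w⁻¹ ∈ closure (ball (0 : ℂ) (1 / (2 * R0))) := by
    rw [closure_ball _ (by positivity), mem_closedBall_zero_iff, norm_inv, ← one_div]
    exact one_div_le_one_div_of_le (by positivity) hw.le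
  have h2 := Complex.norm_le_of_forall_mem_frontier_norm_le isBounded_ball hdc hfr h1
  rw [hFe _ (inv_ne_zero hw0'), inv_inv] at h2
  exact h2

theorem collar_near {K : Set ℂ} {Φ ρ : ℂ → ℂ} (hK : Collar K Φ ρ) (hb : Bornology.IsBounded K)
    {d : ℝ} (hd : 0 < d) :
    ∃ y1 > (0 : ℝ), ∀ u : ℂ, 0 < u.im → u.im ≤ y1 → infDist (Φ u) K < d := by
  obtain ⟨R, c, hc1, hRc⟩ := collar_infty hK hb
  have hKo : IsOpen Kᶜ := hK.closed.isOpen_compl
  obtain ⟨Q, hQ⟩ : ∃ Q : Set ℂ, Q = {w | d ≤ infDist w K} ∩ closedBall 0 R := ⟨_, rfl⟩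
  have hQc : IsCompact Q := by
    rw [hQ]
    exact (isCompact_closedBall (0 : ℂ) R).inter_left
      (isClosed_le continuous_const (continuous_infDist_pt K))
  have hQK : Q ⊆ Kᶜ := by
    intro w hw hwK
    rw [hQ] at hw
    have h1 : d ≤ infDist w K := hw.1
    rw [infDist_zero_of_mem hwK] at h1
    linarith
  obtain ⟨c2, hc2, hQ2⟩ : ∃ c2 : ℝ, c2 < 1 ∧ ∀ w ∈ Q, ‖ρ w‖ ≤ c2 := by
    rcases Q.eq_empty_or_nonempty with he | hne
    · exact ⟨0, one_pos, by rw [he]; simp⟩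
    · obtain ⟨w0, hw0, hmax⟩ := hQc.exists_isMaxOn hne ((hK.dRho.continuousOn.mono hQK).norm)
      refine ⟨‖ρ w0‖, ?_, fun w hw => hmax hw⟩
      have := hK.maps (hQK hw0)
      rwa [mem_ball_zero_iff] at this
  obtain ⟨m, hm⟩ : ∃ m : ℝ, m = max 0 (max c c2) := ⟨_, rfl⟩
  have hm1 : m < 1 := by rw [hm]; exact max_lt one_pos (max_lt hc1 hc2)
  have hm0 : 0 ≤ m := by rw [hm]; exact le_max_left _ _
  have hcm : c ≤ m := by rw [hm]; exact (le_max_left _ _).trans (le_max_right _ _)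
  have hc2m : c2 ≤ m := by rw [hm]; exact (le_max_right _ _).trans (le_max_right _ _)
  have hs0 : 0 < (1 + m) / 2 := by linarith
  refine ⟨-Real.log ((1 + m) / 2), ?_, ?_⟩
  · have := Real.log_neg hs0 (by linarith)
    linarith
  intro u hu huy
  by_contra hcon
  have hcon' : d ≤ infDist (Φ u) K := not_lt.mp hcon
  have hn : ‖ρ (Φ u)‖ = Real.exp (-u.im) := by
    rw [hK.left u hu, Complex.norm_exp]; congr 1; simp
  have h1 : (1 + m) / 2 ≤ ‖ρ (Φ u)‖ := by
    rw [hn]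
    calc (1 + m) / 2 = Real.exp (Real.log ((1 + m) / 2)) := (Real.exp_log hs0).symm
      _ ≤ Real.exp (-u.im) := Real.exp_le_exp.mpr (by linarith)
  have h2 : ‖ρ (Φ u)‖ ≤ m := by
    by_cases hR : R < ‖Φ u‖
    · exact ((hRc _ hR).2).trans hcm
    · refine (hQ2 _ ?_).trans hc2m
      rw [hQ]
      refine ⟨hcon', ?_⟩
      rw [mem_closedBall_zero_iff]; exact not_lt.mp hR
  linarith

end CF6

end

section

/-!
# C5: the two sided Koebe estimate

PROOF. `C0 = 128 π ≥ 3`. `k ∈ K` with `infDist (Φ u) K = dist (Φ u) k` (`IsClosed.exists_infDist_eq_dist`); `Φ u ∉ K`, so it is positive.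
`K` not bounded: `y1 = 1`; there is `k' ∈ K` with `‖k - k'‖ ≥ ‖Φ u - k‖`, `k' ≠ k`. `K` bounded: `k1 ≠ k2` in `K`, `D = ‖k1 - k2‖`,
`y1 = min 1 (collar_near for d = D/2)`; one of `k1, k2` has distance `≥ D/2 > ‖Φ u - k‖` from `k`. `koebe_deriv` and `koebe_dist`.
-/

open Complex Set Filter Topology Metric

namespace CF6

theorem exists_koebe_thm : ∃ C0 : ℝ, 1 ≤ C0 ∧ ∀ (K : Set ℂ) (Φ ρ : ℂ → ℂ), Collar K Φ ρ →
    ∃ y1 > 0, Koebe C0 y1 K Φ := by
  have hpi := Real.pi_gt_three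
  refine ⟨128 * Real.pi, by linarith, ?_⟩
  intro K Φ ρ hK
  have hne := hK.conn.nonempty
  -- it suffices to find a far point of `K`
  have main : ∀ y1 : ℝ, 0 < y1 → y1 ≤ 1 → (∀ u : ℂ, 0 < u.im → u.im ≤ y1 → ∀ k ∈ K,
      infDist (Φ u) K = dist (Φ u) k → ∃ k' ∈ K, k ≠ k' ∧ ‖Φ u - k‖ ≤ ‖k - k'‖) →
      Koebe (128 * Real.pi) y1 K Φ := by
    intro y1 hy0 hy1 hfar u hu huy
    obtain ⟨k, hkK, hk⟩ := hK.closed.exists_infDist_eq_dist hne (Φ u)
    obtain ⟨k', hk'K, hkk, hle⟩ := hfar u hu huy k hkK hk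
    constructor
    · rw [hk, dist_eq_norm]
      exact koebe_deriv hK hu hkK hk'K hkk hle
    · have h1 := koebe_dist hK hu (huy.trans hy1)
      have h2 : 0 ≤ ‖deriv Φ u‖ * u.im := by positivity
      nlinarith
  by_cases hb : Bornology.IsBounded K
  · obtain ⟨k1, hk1, k2, hk2, h12⟩ := hK.nontriv
    have hD : 0 < ‖k1 - k2‖ := norm_pos_iff.mpr (sub_ne_zero.mpr h12)
    obtain ⟨y1, hy1, hnear⟩ := collar_near hK hb (d := ‖k1 - k2‖ / 2) (by linarith)
    refine ⟨min 1 y1, lt_min one_pos hy1, main _ (lt_min one_pos hy1) (min_le_left _ _) ?_⟩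
    intro u hu huy k hkK hk
    have h1 := hnear u hu (huy.trans (min_le_right _ _))
    rw [hk, dist_eq_norm] at h1
    have htri : ‖k1 - k2‖ ≤ ‖k - k1‖ + ‖k - k2‖ := by
      have e : k1 - k2 = (k - k2) - (k - k1) := by ring
      rw [e]
      have := norm_sub_le (k - k2) (k - k1)
      linarith
    rcases le_total (‖k1 - k2‖ / 2) ‖k - k1‖ with h2 | h2
    · refine ⟨k1, hk1, ?_, by linarith⟩
      rintro rfl
      rw [sub_self, norm_zero] at h2
      linarith
    · have h3 : ‖k1 - k2‖ / 2 ≤ ‖k - k2‖ := by linarith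
      refine ⟨k2, hk2, ?_, by linarith⟩
      rintro rfl
      rw [sub_self, norm_zero] at h3
      linarith
  · refine ⟨1, one_pos, main 1 one_pos le_rfl ?_⟩
    intro u hu huy k hkK hk
    have h1 : ∃ k' ∈ K, ‖Φ u - k‖ + 1 < dist k' k := by
      by_contra hcon
      apply hb
      refine (isBounded_closedBall (x := k) (r := ‖Φ u - k‖ + 1)).subset ?_
      intro x hx
      rw [mem_closedBall]
      by_contra h2
      exact hcon ⟨x, hx, not_le.mp h2⟩
    obtain ⟨k', hk', h2⟩ := h1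
    rw [dist_comm, dist_eq_norm] at h2
    refine ⟨k', hk', ?_, by linarith⟩
    rintro rfl
    rw [sub_self, norm_zero] at h2
    have := norm_nonneg (Φ u - k)
    linarith

end CF6

end

section

/-!
# C6: length estimates for curves crossing an annulus

PROOF. `s1` = last time in `[a,b]` with `‖γ t - q‖ ≤ d` (compact set, `IsCompact.exists_isGreatest`), `s2` = first time in `[s1, b]` with
`m ≤ ‖γ t - q‖`. Then `s1 < s2`, `‖γ s1 - q‖ = d`, `‖γ s2 - q‖ = m` (only `≤`, `≥` are needed), and `d < ‖γ t - q‖ < m` on `Ioo s1 s2`. `F t = log ‖γ t - q‖`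
(resp. `‖γ t - q‖`) is continuous on `[s1,s2]`, differentiable inside with `|F'| ≤ ‖γ' t‖/‖γ t - q‖` (resp. `≤ ‖γ' t‖`), so
`F s2 - F s1 ≤ ∫ over (s1,s2)` (e.g. `intervalIntegral.integral_eq_sub_of_hasDerivAt_of_le`, or
`image_sub_le_..`); pass to `lintegral` (`ofReal_integral_eq_lintegral_ofReal`, monotonicity in the domain `Ioo s1 s2 ⊆ Ioo a b`).
-/

open Complex MeasureTheory Set Filter Topology Metric

open scoped ENNReal

namespace CF6

/-- a crossing of the interval `(d,m)` -/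
theorem c6_cross {r : ℝ → ℝ} {a b d m : ℝ} (hab : a ≤ b) (hr : ContinuousOn r (Icc a b))
    (hdm : d < m) (ha : r a ≤ d) (hb : m ≤ r b) :
    ∃ s1 s2 : ℝ, a ≤ s1 ∧ s1 < s2 ∧ s2 ≤ b ∧ r s1 ≤ d ∧ m ≤ r s2 ∧
      (∀ t ∈ Ioo s1 s2, d < r t ∧ r t < m) ∧ ∀ t ∈ Icc s1 s2, d ≤ r t ∧ r t ≤ m := by
  have hA : IsCompact (Icc a b ∩ r ⁻¹' Iic d) :=
    isCompact_Icc.of_isClosed_subset (hr.preimage_isClosed_of_isClosed isClosed_Icc isClosed_Iic)
      inter_subset_left
  obtain ⟨s1, hs1⟩ := hA.exists_isGreatest ⟨a, left_mem_Icc.mpr hab, ha⟩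
  have hr1 : ContinuousOn r (Icc s1 b) := hr.mono (Icc_subset_Icc hs1.1.1.1 le_rfl)
  have hB : IsCompact (Icc s1 b ∩ r ⁻¹' Ici m) :=
    isCompact_Icc.of_isClosed_subset (hr1.preimage_isClosed_of_isClosed isClosed_Icc isClosed_Ici)
      inter_subset_left
  obtain ⟨s2, hs2⟩ := hB.exists_isLeast ⟨b, right_mem_Icc.mpr hs1.1.1.2, hb⟩
  have h1 : r s1 ≤ d := hs1.1.2
  have h2 : m ≤ r s2 := hs2.1.2
  have h12 : s1 < s2 := by
    rcases hs2.1.1.1.eq_or_lt with h | h
    · exfalso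
      rw [← h] at h2
      linarith
    · exact h
  have hoo : ∀ t ∈ Ioo s1 s2, d < r t ∧ r t < m := by
    intro t ht
    constructor
    · by_contra hcon
      push Not at hcon
      exact absurd (hs1.2 ⟨⟨hs1.1.1.1.trans ht.1.le, ht.2.le.trans hs2.1.1.2⟩, hcon⟩)
        (not_le.mpr ht.1)
    · by_contra hcon
      push Not at hcon
      exact absurd (hs2.2 ⟨⟨ht.1.le, ht.2.le.trans hs2.1.1.2⟩, hcon⟩) (not_le.mpr ht.2)
  refine ⟨s1, s2, hs1.1.1.1, h12, hs2.1.1.2, h1, h2, hoo, ?_⟩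
  have hr2 : ContinuousOn r (Icc s1 s2) := hr.mono (Icc_subset_Icc hs1.1.1.1 hs2.1.1.2)
  have hcl : IsClosed (Icc s1 s2 ∩ r ⁻¹' Icc d m) :=
    hr2.preimage_isClosed_of_isClosed isClosed_Icc isClosed_Icc
  have hsub0 : closure (Ioo s1 s2) ⊆ Icc s1 s2 ∩ r ⁻¹' Icc d m :=
    closure_minimal
      (fun t ht => ⟨Ioo_subset_Icc_self ht, (hoo t ht).1.le, (hoo t ht).2.le⟩) hcl
  have hsub : Icc s1 s2 ⊆ Icc s1 s2 ∩ r ⁻¹' Icc d m := by
    rwa [closure_Ioo h12.ne] at hsub0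
  intro t ht
  exact (hsub ht).2

theorem c6_lint {γ : ℝ → ℂ} {a b : ℝ} {q : ℂ} {d m : ℝ} {s1 s2 : ℝ} (h1 : a ≤ s1)
    (h12 : s1 < s2) (h2 : s2 ≤ b) (hoo : ∀ t ∈ Ioo s1 s2, d < ‖γ t - q‖ ∧ ‖γ t - q‖ < m)
    {w : ℝ → ℝ} (hw : ContinuousOn w (Icc s1 s2)) (hw0 : ∀ t ∈ Icc s1 s2, 0 ≤ w t) {c : ℝ}
    (hc : c ≤ ∫ t in s1..s2, w t) :
    ENNReal.ofReal c ≤ ∫⁻ t in Ioo a b,
      (if d < ‖γ t - q‖ ∧ ‖γ t - q‖ < m then ENNReal.ofReal (w t) else 0) := by
  have hint : IntegrableOn w (Ioo s1 s2) :=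
    (hw.integrableOn_Icc).mono_set Ioo_subset_Icc_self
  calc ENNReal.ofReal c ≤ ENNReal.ofReal (∫ t in s1..s2, w t) := ENNReal.ofReal_le_ofReal hc
    _ = ENNReal.ofReal (∫ t in Ioo s1 s2, w t) := by
        rw [intervalIntegral.integral_of_le h12.le, integral_Ioc_eq_integral_Ioo]
    _ = ∫⁻ t in Ioo s1 s2, ENNReal.ofReal (w t) := by
        apply ofReal_integral_eq_lintegral_ofReal hint
        filter_upwards [ae_restrict_mem measurableSet_Ioo] with t ht
        exact hw0 t (Ioo_subset_Icc_self ht)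
    _ = ∫⁻ t in Ioo s1 s2,
          (if d < ‖γ t - q‖ ∧ ‖γ t - q‖ < m then ENNReal.ofReal (w t) else 0) := by
        apply setLIntegral_congr_fun measurableSet_Ioo
        intro t ht
        simp only [if_pos (hoo t ht)]
    _ ≤ _ := lintegral_mono_set (Ioo_subset_Ioo h1 h2)

theorem radial_log {γ γ' : ℝ → ℂ} {a b : ℝ} (hab : a ≤ b)
    (hd : ∀ t ∈ Icc a b, HasDerivAt γ (γ' t) t) (hc : ContinuousOn γ' (Icc a b)) {q : ℂ} {d m : ℝ}
    (hd0 : 0 < d) (hdm : d < m) (ha : ‖γ a - q‖ ≤ d) (hb : m ≤ ‖γ b - q‖) :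
    ENNReal.ofReal (Real.log (m / d)) ≤ ∫⁻ t in Ioo a b,
      (if d < ‖γ t - q‖ ∧ ‖γ t - q‖ < m then ENNReal.ofReal (‖γ' t‖ / ‖γ t - q‖) else 0) := by
  have hγ : ContinuousOn γ (Icc a b) := fun t ht => (hd t ht).continuousAt.continuousWithinAt
  obtain ⟨s1, s2, h1, h12, h2, hr1, hr2, hoo, hcc⟩ :=
    c6_cross (r := fun t => ‖γ t - q‖) hab ((hγ.sub continuousOn_const).norm) hdm ha hb
  have hsub : Icc s1 s2 ⊆ Icc a b := Icc_subset_Icc h1 h2
  have hγ2 : ContinuousOn (fun t => γ t - q) (Icc s1 s2) := (hγ.mono hsub).sub continuousOn_const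
  have hpos : ∀ t ∈ Icc s1 s2, 0 < ‖γ t - q‖ := fun t ht => hd0.trans_le (hcc t ht).1
  have hw : ContinuousOn (fun t => ‖γ' t‖ / ‖γ t - q‖) (Icc s1 s2) :=
    (hc.mono hsub).norm.div hγ2.norm (fun t ht => (hpos t ht).ne')
  refine c6_lint h1 h12 h2 hoo hw (fun t _ => by positivity) ?_
  -- the function `F = (1/2) log ‖γ - q‖^2`
  have hF : ∀ t ∈ uIcc s1 s2, HasDerivAt (fun t => Real.log (‖γ t - q‖ ^ 2))
      ((2 * inner ℝ (γ t - q) (γ' t)) / ‖γ t - q‖ ^ 2) t := by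
    intro t ht
    rw [uIcc_of_le h12.le] at ht
    have e1 : HasDerivAt (fun t => γ t - q) (γ' t) t := (hd t (hsub ht)).sub_const q
    exact (e1.norm_sq).log (pow_ne_zero 2 (hpos t ht).ne')
  have hFc : ContinuousOn (fun t => (2 * inner ℝ (γ t - q) (γ' t)) / ‖γ t - q‖ ^ 2) (Icc s1 s2) :=
    (continuousOn_const.mul (hγ2.inner (hc.mono hsub))).div (hγ2.norm.pow 2)
      (fun t ht => pow_ne_zero 2 (hpos t ht).ne')
  have hFi : IntervalIntegrable (fun t => (2 * inner ℝ (γ t - q) (γ' t)) / ‖γ t - q‖ ^ 2)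
      volume s1 s2 := by
    apply ContinuousOn.intervalIntegrable
    rwa [uIcc_of_le h12.le]
  have hFTC := intervalIntegral.integral_eq_sub_of_hasDerivAt hF hFi
  have hle : ∫ t in s1..s2, (2 * inner ℝ (γ t - q) (γ' t)) / ‖γ t - q‖ ^ 2 ≤
      ∫ t in s1..s2, 2 * (‖γ' t‖ / ‖γ t - q‖) := by
    apply intervalIntegral.integral_mono_on h12.le hFi
    · apply ContinuousOn.intervalIntegrable
      rw [uIcc_of_le h12.le]
      exact continuousOn_const.mul hw
    · intro t ht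
      have hp := hpos t ht
      have hin : inner ℝ (γ t - q) (γ' t) ≤ ‖γ t - q‖ * ‖γ' t‖ := real_inner_le_norm _ _
      rw [div_le_iff₀ (by positivity)]
      have : 2 * (‖γ' t‖ / ‖γ t - q‖) * ‖γ t - q‖ ^ 2 = 2 * (‖γ t - q‖ * ‖γ' t‖) := by
        field_simp
      rw [this]
      linarith
  rw [hFTC, intervalIntegral.integral_const_mul] at hle
  have hm0 : 0 < m := hd0.trans hdm
  have e1 : Real.log (m ^ 2) ≤ Real.log (‖γ s2 - q‖ ^ 2) :=
    Real.log_le_log (by positivity) (by gcongr)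
  have e2 : Real.log (‖γ s1 - q‖ ^ 2) ≤ Real.log (d ^ 2) :=
    Real.log_le_log (pow_pos (hpos s1 (left_mem_Icc.mpr h12.le)) 2) (by gcongr)
  have e3 : Real.log (m ^ 2) = 2 * Real.log m := by rw [Real.log_pow]; norm_num
  have e4 : Real.log (d ^ 2) = 2 * Real.log d := by rw [Real.log_pow]; norm_num
  rw [Real.log_div hm0.ne' hd0.ne']
  linarith

theorem radial_len {γ γ' : ℝ → ℂ} {a b : ℝ} (hab : a ≤ b)
    (hd : ∀ t ∈ Icc a b, HasDerivAt γ (γ' t) t) (hc : ContinuousOn γ' (Icc a b)) {q : ℂ} {d m : ℝ}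
    (hd0 : 0 < d) (hdm : d < m)
    (h : (‖γ a - q‖ ≤ d ∧ m ≤ ‖γ b - q‖) ∨ (‖γ b - q‖ ≤ d ∧ m ≤ ‖γ a - q‖)) :
    ENNReal.ofReal (m - d) ≤ ∫⁻ t in Ioo a b,
      (if d < ‖γ t - q‖ ∧ ‖γ t - q‖ < m then ENNReal.ofReal ‖γ' t‖ else 0) := by
  have hγ : ContinuousOn γ (Icc a b) := fun t ht => (hd t ht).continuousAt.continuousWithinAt
  have hr : ContinuousOn (fun t => ‖γ t - q‖) (Icc a b) := (hγ.sub continuousOn_const).norm
  obtain ⟨s1, s2, h1, h12, h2, hoo, hdiff⟩ : ∃ s1 s2 : ℝ, a ≤ s1 ∧ s1 < s2 ∧ s2 ≤ b ∧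
      (∀ t ∈ Ioo s1 s2, d < ‖γ t - q‖ ∧ ‖γ t - q‖ < m) ∧
      m - d ≤ |‖γ s2 - q‖ - ‖γ s1 - q‖| := by
    rcases h with ⟨ha, hb⟩ | ⟨hb, ha⟩
    · obtain ⟨s1, s2, h1, h12, h2, hr1, hr2, hoo, -⟩ :=
        c6_cross (r := fun t => ‖γ t - q‖) hab hr hdm ha hb
      exact ⟨s1, s2, h1, h12, h2, hoo, le_trans (by linarith) (le_abs_self _)⟩
    · obtain ⟨s1, s2, h1, h12, h2, hr1, hr2, hoo, -⟩ :=
        c6_cross (r := fun t => -‖γ t - q‖) (d := -m) (m := -d) hab hr.neg (by linarith)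
          (by linarith) (by linarith)
      refine ⟨s1, s2, h1, h12, h2, fun t ht => ?_, ?_⟩
      · have := hoo t ht
        constructor <;> linarith [this.1, this.2]
      · refine le_trans ?_ (neg_le_abs _)
        linarith
  have hsub : Icc s1 s2 ⊆ Icc a b := Icc_subset_Icc h1 h2
  have hw : ContinuousOn (fun t => ‖γ' t‖) (Icc s1 s2) := (hc.mono hsub).norm
  refine c6_lint h1 h12 h2 hoo hw (fun t _ => norm_nonneg _) ?_
  have hFTC : ∫ t in s1..s2, γ' t = γ s2 - γ s1 := by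
    apply intervalIntegral.integral_eq_sub_of_hasDerivAt
    · intro t ht
      rw [uIcc_of_le h12.le] at ht
      exact hd t (hsub ht)
    · apply ContinuousOn.intervalIntegrable
      rw [uIcc_of_le h12.le]
      exact hc.mono hsub
  calc m - d ≤ |‖γ s2 - q‖ - ‖γ s1 - q‖| := hdiff
    _ ≤ ‖(γ s2 - q) - (γ s1 - q)‖ := abs_norm_sub_norm_le _ _
    _ = ‖∫ t in s1..s2, γ' t‖ := by rw [hFTC]; congr 1; ring
    _ ≤ ∫ t in s1..s2, ‖γ' t‖ := intervalIntegral.norm_integral_le_integral_norm h12.le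

end CF6

end

section

/-!
# C7: `ρ` is proper up to infinity

PROOF of `rho_proper`. Bounded; closed: let `wn` be in the set, `wn → w`. A subsequence has `ρ wn → ζ`, `‖ζ‖ ≤ c < 1`. CLAIM: `ζ = ρ w1` for some `w1 ∉ K`. If `ζ ≠ 0`:
`u = -I * log ζ ∈ UHP`, `w1 = Φ u`. If `ζ = 0`: if some `w0 ∉ K` has `ρ w0 = 0`, done; otherwise (`at0`) `Φ u → ∞` as `u.im → ∞`, all `ρ wn ≠ 0`, so `wn = Φ un` (`right`) with
`exp (- un.im) = ‖ρ wn‖ → 0`, `‖wn‖ → ∞`, contradiction to `‖wn‖ ≤ R`. Since `ρ` is injective and holomorphic on the open `Kᶜ`, its inverse is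
continuous at `ζ` (`univ_inverse`; the image is open): `wn → w1`, so `w = w1 ∉ K`; `‖w‖ ≤ R`, `‖ρ w‖ ≤ c` by continuity.
`phi_of_rho`: `ρ (Φ u) = exp (I u) = ρ w`, `inj`, `mem`.
`rho_unif`: for the compact `Q = {w ∉ K, ‖w‖ ≤ R, ‖ρ w‖ ≤ c}` contained in the open `Kᶜ` where `ρ` is continuous: cover `Q` by balls `ball w (r w / 2)` with
`ball w (r w) ⊆ Kᶜ`, `‖ρ w' - ρ w‖ < ε/2` on it; finite subcover.
-/

open Complex Set Filter Topology Metric

namespace CF6

theorem phi_of_rho {K : Set ℂ} {Φ ρ : ℂ → ℂ} (hK : Collar K Φ ρ) {w u : ℂ} (hw : w ∉ K)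
    (hu : exp (I * u) = ρ w) (hi : 0 < u.im) : Φ u = w :=
  hK.inj (hK.mem u hi) hw ((hK.left u hi).trans hu)

theorem c7_norm_exp (u : ℂ) : ‖exp (I * u)‖ = Real.exp (-u.im) := by
  rw [Complex.norm_exp]
  simp

/-- every point of the punctured disc is a value of `ρ` -/
theorem c7_mem_image {K : Set ℂ} {Φ ρ : ℂ → ℂ} (hK : Collar K Φ ρ) {ζ : ℂ} (h0 : ζ ≠ 0)
    (h1 : ‖ζ‖ < 1) : ζ ∈ ρ '' Kᶜ := by
  have hexp : exp (I * (-I * Complex.log ζ)) = ζ := by
    have : I * (-I * Complex.log ζ) = Complex.log ζ := by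
      rw [← mul_assoc, mul_neg, I_mul_I, neg_neg, one_mul]
    rw [this, Complex.exp_log h0]
  have him : 0 < (-I * Complex.log ζ).im := by
    have h2 : (-I * Complex.log ζ).im = -Real.log ‖ζ‖ := by
      simp [Complex.mul_im, Complex.log_re]
    rw [h2]
    have := Real.log_neg (norm_pos_iff.mpr h0) h1
    linarith
  exact ⟨Φ (-I * Complex.log ζ), hK.mem _ him, by rw [hK.left _ him, hexp]⟩

theorem rho_proper {K : Set ℂ} {Φ ρ : ℂ → ℂ} (hK : Collar K Φ ρ) {c : ℝ} (hc : c < 1) (R : ℝ) :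
    IsCompact {w | w ∉ K ∧ ‖w‖ ≤ R ∧ ‖ρ w‖ ≤ c} := by
  have hopen : IsOpen Kᶜ := hK.closed.isOpen_compl
  obtain ⟨g, hg, hl, hr⟩ := univ_inverse hopen hK.dRho hK.inj
  obtain ⟨c', hc'1, hc'2⟩ : ∃ c' : ℝ, (∀ ζ : ℂ, c' ≤ ‖ζ‖ → ‖ζ‖ ≤ c → ζ ∈ ρ '' Kᶜ) ∧
      ∀ w, w ∉ K → ‖w‖ ≤ R → c' ≤ ‖ρ w‖ := by
    rcases hK.at0 with ⟨w0, hw0, hw0'⟩ | ⟨hb, hR⟩
    · refine ⟨0, fun ζ _ h2 => ?_, fun w _ _ => norm_nonneg _⟩
      by_cases hζ : ζ = 0
      · exact ⟨w0, hw0, by rw [hw0', hζ]⟩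
      · exact c7_mem_image hK hζ (h2.trans_lt hc)
    · obtain ⟨y, hy⟩ := hR R
      by_cases h0 : ∃ w0 ∉ K, ρ w0 = 0
      · obtain ⟨w0, hw0, hw0'⟩ := h0
        refine ⟨0, fun ζ _ h2 => ?_, fun w _ _ => norm_nonneg _⟩
        by_cases hζ : ζ = 0
        · exact ⟨w0, hw0, by rw [hw0', hζ]⟩
        · exact c7_mem_image hK hζ (h2.trans_lt hc)
      · push Not at h0
        refine ⟨Real.exp (-y), fun ζ h1 h2 => ?_, fun w hw hwR => ?_⟩
        · exact c7_mem_image hK (norm_pos_iff.mp ((Real.exp_pos _).trans_le h1)) (h2.trans_lt hc)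
        · obtain ⟨u, hu, rfl⟩ := hK.right w hw (h0 w hw)
          rw [hK.left u hu, c7_norm_exp]
          apply Real.exp_le_exp.mpr
          by_contra hcon
          push Not at hcon
          exact absurd (hy u (by linarith)) (not_lt.mpr hwR)
  have hA : IsCompact {ζ : ℂ | c' ≤ ‖ζ‖ ∧ ‖ζ‖ ≤ c} := by
    have h1 : {ζ : ℂ | c' ≤ ‖ζ‖ ∧ ‖ζ‖ ≤ c} = {ζ : ℂ | c' ≤ ‖ζ‖} ∩ closedBall 0 c := by
      ext ζ
      simp
    rw [h1, inter_comm]
    exact (isCompact_closedBall (0 : ℂ) c).inter_right (isClosed_le continuous_const continuous_norm)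
  have hAsub : {ζ : ℂ | c' ≤ ‖ζ‖ ∧ ‖ζ‖ ≤ c} ⊆ ρ '' Kᶜ := fun ζ hζ => hc'1 ζ hζ.1 hζ.2
  have himg : IsCompact (g '' {ζ : ℂ | c' ≤ ‖ζ‖ ∧ ‖ζ‖ ≤ c}) :=
    hA.image_of_continuousOn (hg.continuousOn.mono hAsub)
  have heq : {w | w ∉ K ∧ ‖w‖ ≤ R ∧ ‖ρ w‖ ≤ c} =
      (g '' {ζ : ℂ | c' ≤ ‖ζ‖ ∧ ‖ζ‖ ≤ c}) ∩ closedBall 0 R := by
    ext w
    constructor
    · rintro ⟨h1, h2, h3⟩
      exact ⟨⟨ρ w, ⟨hc'2 w h1 h2, h3⟩, hl w h1⟩, by simpa using h2⟩
    · rintro ⟨⟨ζ, hζ, rfl⟩, h2⟩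
      have := hr ζ (hAsub hζ)
      refine ⟨this.1, by simpa using h2, ?_⟩
      rw [this.2]
      exact hζ.2
  rw [heq]
  exact himg.inter_right isClosed_closedBall

theorem rho_unif {K : Set ℂ} {Φ ρ : ℂ → ℂ} (hK : Collar K Φ ρ) {c : ℝ} (hc : c < 1) (R : ℝ)
    {ε : ℝ} (hε : 0 < ε) :
    ∃ r > (0 : ℝ), ∀ w, w ∉ K → ‖w‖ ≤ R → ‖ρ w‖ ≤ c → ∀ w', dist w' w < r →
      w' ∉ K ∧ dist (ρ w') (ρ w) < ε := by
  have hopen : IsOpen Kᶜ := hK.closed.isOpen_compl
  have hS := rho_proper hK hc R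
  have hsub : {w | w ∉ K ∧ ‖w‖ ≤ R ∧ ‖ρ w‖ ≤ c} ⊆ Kᶜ := fun w hw => hw.1
  obtain ⟨δ, hδ, hδs⟩ := hS.exists_thickening_subset_open hopen hsub
  have hcont : ∀ w ∈ {w | w ∉ K ∧ ‖w‖ ≤ R ∧ ‖ρ w‖ ≤ c}, ContinuousAt ρ w := fun w hw =>
    (hK.dRho.differentiableAt (hopen.mem_nhds hw.1)).continuousAt
  have hu := hS.uniformContinuousAt_of_continuousAt ρ hcont (Metric.dist_mem_uniformity hε)
  obtain ⟨r, hr, hrs⟩ := Metric.mem_uniformity_dist.mp hu
  refine ⟨min δ r, lt_min hδ hr, fun w h1 h2 h3 w' hw' => ⟨?_, ?_⟩⟩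
  · exact hδs (Metric.mem_thickening_iff.mpr ⟨w, ⟨h1, h2, h3⟩, hw'.trans_le (min_le_left _ _)⟩)
  · have := hrs (a := w) (b := w') (by rw [dist_comm]; exact hw'.trans_le (min_le_right _ _))
      ⟨h1, h2, h3⟩
    rw [dist_comm]
    exact this

/-- the points over a fixed height are far from the points which are closer to the circle. `Φ` is `2π`-periodic
(`phi_of_rho`), so `{Φ (x + y I)}` is the compact image of `[0, 2π]`; it is contained in the open set
`{w ∉ K | ‖ρ w‖ < exp (-y')}`, `y' < y`: positive thickening. -/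
theorem top_far {K : Set ℂ} {Φ ρ : ℂ → ℂ} (hK : Collar K Φ ρ) {y y' : ℝ} (hy' : 0 < y')
    (hy : y' < y) :
    ∃ m > (0 : ℝ), ∀ x : ℝ, ∀ q, (q ∈ K ∨ Real.exp (-y') ≤ ‖ρ q‖) → m ≤ ‖Φ (x + y * I) - q‖ := by
  have hopen : IsOpen Kᶜ := hK.closed.isOpen_compl
  have him : ∀ x : ℝ, ((x : ℂ) + y * I) ∈ UHP := fun x => by
    show 0 < ((x : ℂ) + y * I).im
    simp
    linarith
  have hW : IsOpen (Kᶜ ∩ ρ ⁻¹' {ζ | ‖ζ‖ < Real.exp (-y')}) :=
    hK.dRho.continuousOn.isOpen_inter_preimage hopen (isOpen_lt continuous_norm continuous_const)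
  have hUopen : IsOpen UHP := isOpen_lt continuous_const Complex.continuous_im
  have hT : IsCompact ((fun x : ℝ => Φ ((x : ℂ) + y * I)) '' Icc 0 (2 * Real.pi)) := by
    apply isCompact_Icc.image_of_continuousOn
    intro x _
    have h1 : ContinuousAt Φ ((x : ℂ) + y * I) :=
      (hK.dPhi.differentiableAt (hUopen.mem_nhds (him x))).continuousAt
    have h2 : ContinuousAt (fun x : ℝ => (x : ℂ) + y * I) x := by fun_prop
    exact (ContinuousAt.comp (f := fun x : ℝ => (x : ℂ) + y * I) h1 h2).continuousWithinAt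
  have hTsub : ((fun x : ℝ => Φ ((x : ℂ) + y * I)) '' Icc 0 (2 * Real.pi)) ⊆
      Kᶜ ∩ ρ ⁻¹' {ζ | ‖ζ‖ < Real.exp (-y')} := by
    rintro _ ⟨x, _, rfl⟩
    refine ⟨hK.mem _ (him x), ?_⟩
    show ‖ρ (Φ ((x : ℂ) + y * I))‖ < Real.exp (-y')
    rw [hK.left _ (him x), c7_norm_exp]
    apply Real.exp_lt_exp.mpr
    simp
    exact hy
  obtain ⟨δ, hδ, hδs⟩ := hT.exists_thickening_subset_open hW hTsub
  refine ⟨δ, hδ, fun x q hq => ?_⟩
  have hmem : Φ ((x : ℂ) + y * I) ∈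
      ((fun x : ℝ => Φ ((x : ℂ) + y * I)) '' Icc 0 (2 * Real.pi)) := by
    refine ⟨toIcoMod Real.two_pi_pos 0 x, ?_, ?_⟩
    · have := toIcoMod_mem_Ico Real.two_pi_pos 0 x
      rw [zero_add] at this
      exact Ico_subset_Icc_self this
    · show Φ (((toIcoMod Real.two_pi_pos 0 x : ℝ) : ℂ) + y * I) = Φ ((x : ℂ) + y * I)
      refine phi_of_rho hK (hK.mem _ (him x)) ?_ (him _)
      rw [hK.left _ (him x)]
      have h3 : x = toIcoMod Real.two_pi_pos 0 x + toIcoDiv Real.two_pi_pos 0 x • (2 * Real.pi) :=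
        (toIcoMod_add_toIcoDiv_zsmul Real.two_pi_pos 0 x).symm
      have h4 : I * ((x : ℂ) + y * I) = I * (((toIcoMod Real.two_pi_pos 0 x : ℝ) : ℂ) + y * I) +
          (toIcoDiv Real.two_pi_pos 0 x : ℂ) * (2 * Real.pi * I) := by
        conv_lhs => rw [h3]
        push_cast
        simp only [zsmul_eq_mul]
        push_cast
        ring
      rw [h4, Complex.exp_add, Complex.exp_int_mul_two_pi_mul_I, mul_one]
  by_contra hcon
  push Not at hcon
  have hq' : q ∈ Kᶜ ∩ ρ ⁻¹' {ζ | ‖ζ‖ < Real.exp (-y')} := by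
    apply hδs
    refine Metric.mem_thickening_iff.mpr ⟨_, hmem, ?_⟩
    rw [dist_comm, dist_eq_norm]
    exact hcon
  rcases hq with h | h
  · exact hq'.1 h
  · exact absurd hq'.2 (not_lt.mpr h)

end CF6

end

section

/-!
# C8a: connected sets in the punctured plane sweep an angle

* `abs_arg_cont`: `|arg z| = arccos (z.re / ‖z‖)` for `z ≠ 0` (`Complex.abs_arg`-type lemmas; `cos (arg z) = re/‖z‖`, `|arg z| ∈ [0, π]`), so `z ↦ |arg (z / z1)|` is continuous on
  `{z ≠ 0}`.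
* `sweep`: intermediate values on the preconnected `C` (`IsPreconnected.intermediate_value`) between `z1` (value `0`) and `z2`.
* `chord_arg`: `‖exp (i a) - 1‖ ≤ |a|` with `a = arg (z2/z1)`, after dividing by `z1/‖z1‖`.
-/

open Complex Set Filter Topology Metric

namespace CF6

theorem abs_arg_cont {z1 : ℂ} (h1 : z1 ≠ 0) :
    ContinuousOn (fun z : ℂ => |(z / z1).arg|) {z | z ≠ 0} := by
  have hEq : ∀ z ∈ {z : ℂ | z ≠ 0}, |(z / z1).arg| = InnerProductGeometry.angle z z1 :=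
    fun z hz => (Complex.angle_eq_abs_arg hz h1).symm
  refine ContinuousOn.congr ?_ hEq
  intro z hz
  have h2 := InnerProductGeometry.continuousAt_angle (x := (z, z1)) hz h1
  have h3 : ContinuousAt (fun z : ℂ => (z, z1)) z := by fun_prop
  exact (ContinuousAt.comp (f := fun z : ℂ => (z, z1)) h2 h3).continuousWithinAt

theorem sweep {C : Set ℂ} (hC : IsPreconnected C) (h0 : ∀ z ∈ C, z ≠ 0) {z1 z2 : ℂ} (h1 : z1 ∈ C)
    (h2 : z2 ∈ C) {θ : ℝ} (hθ : 0 ≤ θ) (hθ' : θ ≤ |(z2 / z1).arg|) :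
    ∃ z ∈ C, |(z / z1).arg| = θ := by
  have hne1 : z1 ≠ 0 := h0 z1 h1
  have hcont : ContinuousOn (fun z : ℂ => |(z / z1).arg|) C :=
    (abs_arg_cont hne1).mono (fun z hz => h0 z hz)
  have hiv := hC.intermediate_value h1 h2 hcont
  have hmem : θ ∈ Icc (|(z1 / z1).arg|) (|(z2 / z1).arg|) := by
    rw [div_self hne1, Complex.arg_one, abs_zero]
    exact ⟨hθ, hθ'⟩
  obtain ⟨z, hz, hzθ⟩ := hiv hmem
  exact ⟨z, hz, hzθ⟩

theorem chord_arg {z1 z2 : ℂ} (h1 : z1 ≠ 0) (h2 : z2 ≠ 0) :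
    ‖z2 / ‖z2‖ - z1 / ‖z1‖‖ ≤ |(z2 / z1).arg| := by
  have hn1 : 0 < ‖z1‖ := norm_pos_iff.mpr h1
  have hn2 : 0 < ‖z2‖ := norm_pos_iff.mpr h2
  have e1 : ‖z1 / (‖z1‖ : ℂ)‖ = 1 := by
    rw [norm_div, Complex.norm_real, norm_norm, div_self hn1.ne']
  have e2 : ‖z2 / (‖z2‖ : ℂ)‖ = 1 := by
    rw [norm_div, Complex.norm_real, norm_norm, div_self hn2.ne']
  have h3 := Complex.norm_sub_le_angle e2 e1
  refine h3.trans (le_of_eq ?_)
  rw [← Complex.angle_eq_abs_arg h2 h1]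
  have e3 : z1 / (‖z1‖ : ℂ) = (‖z1‖⁻¹ : ℝ) • z1 := by
    rw [Complex.real_smul]; push_cast; rw [div_eq_inv_mul]
  have e4 : z2 / (‖z2‖ : ℂ) = (‖z2‖⁻¹ : ℝ) • z2 := by
    rw [Complex.real_smul]; push_cast; rw [div_eq_inv_mul]
  rw [e3, e4, InnerProductGeometry.angle_smul_right_of_pos _ _ (inv_pos.mpr hn1),
    InnerProductGeometry.angle_smul_left_of_pos _ _ (inv_pos.mpr hn2)]

end CF6

end

section

/-!
# C8b: Wolff's lemma, sets close to the circle

PROOF. `yt = - log (1 - η/4)`, `yb = - log (1 - η/8)`, `0 < yb < yt`. `top_far` gives `m > 0` with `m ≤ ‖Φ (x + yt I) - q‖` for all `x : ℝ` and all `q ∉ K` with `‖ρ q‖ ≥ 1 - η/8`.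
`A = 3η/4 < 1`, `B = 4 π yt / A + 1`, `d = m exp (-B)`, so `log (m/d) = B`. Let `S` be as in the statement and suppose `x, y ∈ S`, `dist (ρ x) (ρ y) > η`.
`z1 = ρ x`, `z2 = ρ y`: norms in `(1 - η/8, 1)`, so `‖z2/‖z2‖ - z1/‖z1‖‖ ≥ η - 2 η/8 = A`, `|arg (z2/z1)| ≥ A` (`chord_arg`). `α1 = arg z1`. `C = ρ '' S` is preconnected, `0 ∉ C`.
For `θ ∈ (0, A)` (`sweep`): `w ∈ S` with `|arg (ρ w / z1)| = θ`; so `ρ w = ‖ρ w‖ exp (i (α1 ± θ))`, `w = Φ (α1 ± θ + yw I)` with `yw = - log ‖ρ w‖ ∈ (0, yb)` (`phi_of_rho`). `q = x`: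
`‖w - q‖ ≤ d`, and `‖Φ (α1 ± θ + yt I) - q‖ ≥ m`. `radial_log` for `γ t = Φ (α1 ± θ + t I)` on `[yw, yt]` (`γ' t = deriv Φ (..) * I`), then `2ab ≤ t a² + b²/t` pointwise,
integration over `θ ∈ (0, A)` and `log_area`.
-/

open Complex MeasureTheory Set Filter Topology Metric

open scoped ENNReal

namespace CF6

theorem c8b_meas {K : Set ℂ} {Φ ρ : ℂ → ℂ} (hK : Collar K Φ ρ) (q : ℂ) (d m yt : ℝ) :
    Measurable (fun s : ℝ => ∫⁻ t in Ioo 0 yt,
      (if d < ‖Φ (s + t * I) - q‖ ∧ ‖Φ (s + t * I) - q‖ < m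
      then ENNReal.ofReal (‖deriv Φ (s + t * I)‖ ^ 2 / ‖Φ (s + t * I) - q‖ ^ 2) else 0)) := by
  classical
  set P : Set (ℝ × ℝ) := {p | 0 < p.2} with hP
  have hPo : IsOpen P := isOpen_lt continuous_const continuous_snd
  have hmap : MapsTo (fun p : ℝ × ℝ => (p.1 : ℂ) + p.2 * I) P UHP := by
    intro p hp
    have hp' : 0 < p.2 := hp
    simpa [UHP] using hp'
  have hcm : Continuous (fun p : ℝ × ℝ => (p.1 : ℂ) + p.2 * I) := by fun_prop
  have hUo : IsOpen UHP := isOpen_lt continuous_const Complex.continuous_im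
  set N : ℝ × ℝ → ℝ := P.piecewise (fun p => ‖Φ (p.1 + p.2 * I) - q‖) (fun _ => 0) with hNdef
  set D : ℝ × ℝ → ℝ := P.piecewise (fun p => ‖deriv Φ (p.1 + p.2 * I)‖) (fun _ => 0) with hDdef
  have hN : Measurable N := by
    apply ContinuousOn.measurable_piecewise
    · exact ((hK.dPhi.continuousOn.comp hcm.continuousOn hmap).sub continuousOn_const).norm
    · exact continuousOn_const
    · exact hPo.measurableSet
  have hD : Measurable D := by
    apply ContinuousOn.measurable_piecewise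
    · exact ((hK.dPhi.deriv hUo).continuousOn.comp hcm.continuousOn hmap).norm
    · exact continuousOn_const
    · exact hPo.measurableSet
  have hh : Measurable (fun p : ℝ × ℝ => if d < N p ∧ N p < m then
      ENNReal.ofReal (D p ^ 2 / N p ^ 2) else 0) := by
    apply Measurable.ite
    · exact (measurableSet_lt measurable_const hN).inter (measurableSet_lt hN measurable_const)
    · exact ((hD.pow_const 2).div (hN.pow_const 2)).ennreal_ofReal
    · exact measurable_const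
  have h2 := hh.lintegral_prod_right' (ν := volume.restrict (Ioo 0 yt))
  have e : (fun s : ℝ => ∫⁻ t in Ioo 0 yt,
      (if d < ‖Φ (s + t * I) - q‖ ∧ ‖Φ (s + t * I) - q‖ < m
      then ENNReal.ofReal (‖deriv Φ (s + t * I)‖ ^ 2 / ‖Φ (s + t * I) - q‖ ^ 2) else 0)) =
      fun s : ℝ => ∫⁻ t in Ioo 0 yt, (if d < N (s, t) ∧ N (s, t) < m then
      ENNReal.ofReal (D (s, t) ^ 2 / N (s, t) ^ 2) else 0) := by
    funext s
    apply setLIntegral_congr_fun measurableSet_Ioo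
    intro t ht
    have hm : ((s, t) : ℝ × ℝ) ∈ P := ht.1
    have e1 : N (s, t) = ‖Φ (s + t * I) - q‖ := by
      rw [hNdef, Set.piecewise_eq_of_mem _ _ _ hm]
    have e2 : D (s, t) = ‖deriv Φ (s + t * I)‖ := by
      rw [hDdef, Set.piecewise_eq_of_mem _ _ _ hm]
    simp only [e1, e2]
  rw [e]
  exact h2

theorem c8b_line {K : Set ℂ} {Φ ρ : ℂ → ℂ} (hK : Collar K Φ ρ) {q : ℂ} {d m yw yt s l : ℝ}
    (hd : 0 < d) (hdm : d < m) (hyw : 0 < yw) (hy : yw ≤ yt)
    (h1 : ‖Φ (s + yw * I) - q‖ ≤ d) (h2 : m ≤ ‖Φ (s + yt * I) - q‖) (hl : 0 < l) :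
    ENNReal.ofReal (Real.log (m / d)) ≤ ENNReal.ofReal (1 / (2 * l)) *
      (∫⁻ t in Ioo 0 yt,
      (if d < ‖Φ (s + t * I) - q‖ ∧ ‖Φ (s + t * I) - q‖ < m
      then ENNReal.ofReal (‖deriv Φ (s + t * I)‖ ^ 2 / ‖Φ (s + t * I) - q‖ ^ 2) else 0)) +
      ENNReal.ofReal (l * yt / 2) := by
  have hUo : IsOpen UHP := isOpen_lt continuous_const Complex.continuous_im
  have hmem : ∀ t : ℝ, 0 < t → (s : ℂ) + t * I ∈ UHP := by
    intro t ht
    simpa [UHP] using ht
  have hcm : Continuous (fun t : ℝ => (s : ℂ) + t * I) := by fun_prop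
  have h3 := radial_log (γ := fun t : ℝ => Φ (s + t * I))
    (γ' := fun t : ℝ => deriv Φ (s + t * I) * I) (a := yw) (b := yt) hy ?_ ?_ (q := q) hd hdm
    h1 h2
  · refine h3.trans ((lintegral_mono_set (Ioo_subset_Ioo_left hyw.le)).trans ?_)
    have h4 : ∀ t : ℝ, (if d < ‖Φ (s + t * I) - q‖ ∧ ‖Φ (s + t * I) - q‖ < m then
        ENNReal.ofReal (‖deriv Φ (s + t * I) * I‖ / ‖Φ (s + t * I) - q‖) else 0) ≤
        ENNReal.ofReal (1 / (2 * l)) * (if d < ‖Φ (s + t * I) - q‖ ∧ ‖Φ (s + t * I) - q‖ < m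
      then ENNReal.ofReal (‖deriv Φ (s + t * I)‖ ^ 2 / ‖Φ (s + t * I) - q‖ ^ 2) else 0) +
      ENNReal.ofReal (l / 2) := by
      intro t
      split_ifs with hc
      · rw [norm_mul, Complex.norm_I, mul_one, ← div_pow,
          ← ENNReal.ofReal_mul (by positivity), ← ENNReal.ofReal_add (by positivity) (by positivity)]
        apply ENNReal.ofReal_le_ofReal
        set a := ‖deriv Φ (s + t * I)‖ / ‖Φ (s + t * I) - q‖ with ha
        have h5 : a ≤ 1 / (2 * l) * a ^ 2 + l / 2 ↔ 0 ≤ (a - l) ^ 2 / (2 * l) := by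
          have e : 1 / (2 * l) * a ^ 2 + l / 2 - a = (a - l) ^ 2 / (2 * l) := by
            field_simp
            ring
          rw [← e, sub_nonneg]
        rw [h5]
        positivity
      · exact bot_le
    refine (lintegral_mono h4).trans ?_
    rw [lintegral_add_right _ measurable_const,
      lintegral_const_mul' _ _ ENNReal.ofReal_ne_top, setLIntegral_const, Real.volume_Ioo,
      ← ENNReal.ofReal_mul (by positivity)]
    apply add_le_add le_rfl
    apply ENNReal.ofReal_le_ofReal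
    apply le_of_eq
    ring
  · intro t ht
    have hm := hmem t (hyw.trans_le ht.1)
    have h5 := (hK.dPhi.differentiableAt (hUo.mem_nhds hm)).hasDerivAt
    have h6 : HasDerivAt (fun t : ℝ => (s : ℂ) + (t : ℂ) * I) I t := by
      have h7 := ((Complex.ofRealCLM.hasDerivAt (x := t)).mul_const I).const_add (s : ℂ)
      simpa using h7
    exact HasDerivAt.comp t h5 h6
  · have h5 : ContinuousOn (deriv Φ) UHP := (hK.dPhi.deriv hUo).continuousOn
    refine (h5.comp hcm.continuousOn ?_).mul continuousOn_const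
    intro t ht
    exact hmem t (hyw.trans_le ht.1)

theorem c8b_angle {z z1 : ℂ} (hz : z ≠ 0) (h1 : z1 ≠ 0) :
    exp (I * (((z1.arg + (z / z1).arg : ℝ) : ℂ) + ((- Real.log ‖z‖ : ℝ) : ℂ) * I)) = z := by
  have e1 : I * (((z1.arg + (z / z1).arg : ℝ) : ℂ) + ((- Real.log ‖z‖ : ℝ) : ℂ) * I) =
      (Real.log ‖z‖ : ℂ) + (z1.arg : ℂ) * I + ((z / z1).arg : ℂ) * I := by
    push_cast
    linear_combination (- (Real.log ‖z‖ : ℂ)) * Complex.I_sq
  have hz' : ‖z‖ ≠ 0 := norm_ne_zero_iff.mpr hz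
  have h1' : ‖z1‖ ≠ 0 := norm_ne_zero_iff.mpr h1
  rw [e1, Complex.exp_add, Complex.exp_add, ← Complex.ofReal_exp, Real.exp_log (by positivity)]
  have h2 := Complex.norm_mul_exp_arg_mul_I z1
  have h3 := Complex.norm_mul_exp_arg_mul_I (z / z1)
  have h4 : (z / z1) * z1 = z := div_mul_cancel₀ _ h1
  have h1'' : (‖z1‖ : ℂ) ≠ 0 := by exact_mod_cast h1'
  have h5 : exp ((z1.arg : ℂ) * I) = z1 / ‖z1‖ := by
    rw [eq_div_iff h1'', mul_comm]
    exact h2
  have hz'' : ((‖z / z1‖ : ℝ) : ℂ) ≠ 0 := by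
    rw [norm_div]
    exact_mod_cast div_ne_zero hz' h1'
  have h6 : exp (((z / z1).arg : ℂ) * I) = (z / z1) / ((‖z / z1‖ : ℝ) : ℂ) := by
    rw [eq_div_iff hz'', mul_comm]
    exact h3
  rw [h5, h6, norm_div]
  have hz3 : (‖z‖ : ℂ) ≠ 0 := by exact_mod_cast hz'
  push_cast
  field_simp

theorem wolff_thin {K : Set ℂ} {Φ ρ : ℂ → ℂ} (hK : Collar K Φ ρ) {η : ℝ} (hη : 0 < η)
    (hη1 : η < 1) :
    ∃ d > (0 : ℝ), ∀ S ⊆ Kᶜ, IsPreconnected S → (∀ x ∈ S, ∀ y ∈ S, dist x y ≤ d) →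
      (∀ x ∈ S, 1 - η / 8 < ‖ρ x‖) → ∀ x ∈ S, ∀ y ∈ S, dist (ρ x) (ρ y) ≤ η := by
  have hπ := Real.pi_pos
  set yt : ℝ := - Real.log (1 - η / 4) with hyt
  set yb : ℝ := - Real.log (1 - η / 8) with hyb
  have hyb0 : 0 < yb := by
    have := Real.log_neg (x := 1 - η / 8) (by linarith) (by linarith)
    linarith
  have hybt : yb < yt := by
    have := Real.log_lt_log (x := 1 - η / 4) (y := 1 - η / 8) (by linarith) (by linarith)
    linarith
  have heb : Real.exp (- yb) = 1 - η / 8 := by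
    rw [hyb, neg_neg, Real.exp_log (by linarith)]
  obtain ⟨m, hm0, hm⟩ := top_far hK hyb0 hybt
  set A : ℝ := 3 * η / 4 with hA
  have hA0 : 0 < A := by positivity
  set B : ℝ := 4 * Real.pi * yt / A + 1 with hB
  have hyt0 : 0 < yt := hyb0.trans hybt
  have hB0 : 0 < B := by positivity
  set d : ℝ := m * Real.exp (- B) with hd
  have hd0 : 0 < d := by positivity
  have hdm : d < m := by
    have : Real.exp (- B) < 1 := Real.exp_lt_one_iff.mpr (by linarith)
    rw [hd]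
    nlinarith
  have hlog : Real.log (m / d) = B := by
    rw [hd, div_mul_cancel_left₀ hm0.ne', ← Real.exp_neg, neg_neg, Real.log_exp]
  refine ⟨d, hd0, ?_⟩
  intro S hSK hS hdiam hthin x hx y hy
  by_contra hcon
  rw [not_le] at hcon
  have hnorm : ∀ w ∈ S, ‖ρ w‖ < 1 := by
    intro w hw
    have := hK.maps (hSK hw)
    simpa using this
  have hne : ∀ w ∈ S, ρ w ≠ 0 := by
    intro w hw h0
    have := hthin w hw
    rw [h0, norm_zero] at this
    linarith
  have hx0 := hne x hx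
  have hy0 := hne y hy
  -- the angle
  have hnn : ∀ z : ℂ, z ≠ 0 → ‖z / ‖z‖ - z‖ = |1 - ‖z‖| := by
    intro z hz
    have hz' : (‖z‖ : ℂ) ≠ 0 := by exact_mod_cast norm_ne_zero_iff.mpr hz
    have e : z / ‖z‖ - z = (z / ‖z‖) * (1 - ‖z‖) := by
      field_simp
    rw [e, norm_mul, norm_div, Complex.norm_real, norm_norm,
      div_self (norm_ne_zero_iff.mpr hz), one_mul]
    have e2 : (1 - (‖z‖ : ℂ)) = ((1 - ‖z‖ : ℝ) : ℂ) := by push_cast; rfl
    rw [e2, Complex.norm_real, Real.norm_eq_abs]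
  have hang : A ≤ |(ρ y / ρ x).arg| := by
    refine le_trans ?_ (chord_arg hx0 hy0)
    have h1 := hnn _ hx0
    have h2 := hnn _ hy0
    have h3 := hthin x hx
    have h4 := hthin y hy
    have h5 := hnorm x hx
    have h6 := hnorm y hy
    rw [abs_of_pos (by linarith)] at h1 h2
    have h7 : dist (ρ x) (ρ y) ≤ ‖ρ x / ‖ρ x‖ - ρ x‖ +
        ‖ρ y / ‖ρ y‖ - ρ x / ‖ρ x‖‖ + ‖ρ y / ‖ρ y‖ - ρ y‖ := by
      have e : ρ x - ρ y = - (ρ x / ‖ρ x‖ - ρ x) - (ρ y / ‖ρ y‖ - ρ x / ‖ρ x‖) +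
        (ρ y / ‖ρ y‖ - ρ y) := by ring
      rw [dist_eq_norm, e]
      refine (norm_add_le _ _).trans (add_le_add ((norm_sub_le _ _).trans ?_) le_rfl)
      rw [norm_neg]
    rw [h1, h2] at h7
    rw [hA]
    linarith
  set α : ℝ := (ρ x).arg with hα
  set H : ℝ → ℝ≥0∞ := fun s : ℝ => ∫⁻ t in Ioo 0 yt,
      (if d < ‖Φ (s + t * I) - x‖ ∧ ‖Φ (s + t * I) - x‖ < m
      then ENNReal.ofReal (‖deriv Φ (s + t * I)‖ ^ 2 / ‖Φ (s + t * I) - x‖ ^ 2) else 0) with hH
  have hHm : Measurable H := c8b_meas hK x d m yt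
  set l : ℝ := 2 * Real.pi / A with hl
  have hl0 : 0 < l := by positivity
  -- the estimate on the lines
  have hline : ∀ θ ∈ Ioo 0 A, ENNReal.ofReal B ≤
      ENNReal.ofReal (1 / (2 * l)) * (H (α + θ) + H (α - θ)) + ENNReal.ofReal (l * yt / 2) := by
    intro θ hθ
    have hC : IsPreconnected (ρ '' S) := hS.image ρ (hK.dRho.continuousOn.mono hSK)
    have hC0 : ∀ z ∈ ρ '' S, z ≠ 0 := by
      rintro z ⟨w, hw, rfl⟩
      exact hne w hw
    obtain ⟨z, ⟨w, hw, rfl⟩, hzθ⟩ := sweep hC hC0 (mem_image_of_mem ρ hx) (mem_image_of_mem ρ hy)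
      hθ.1.le (hθ.2.le.trans hang)
    have hwn := hthin w hw
    have hwn1 := hnorm w hw
    have hyw0 : 0 < - Real.log ‖ρ w‖ := by
      have := Real.log_neg (x := ‖ρ w‖) (by linarith) hwn1
      linarith
    have hywb : - Real.log ‖ρ w‖ < yb := by
      have := Real.log_lt_log (x := 1 - η / 8) (y := ‖ρ w‖) (by linarith) hwn
      linarith
    have hΦ : Φ (((α + (ρ w / ρ x).arg : ℝ) : ℂ) + ((- Real.log ‖ρ w‖ : ℝ) : ℂ) * I) = w := by
      apply phi_of_rho hK (hSK hw)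
      · exact c8b_angle (hne w hw) hx0
      · simpa using hyw0
    have h1 : ‖Φ (((α + (ρ w / ρ x).arg : ℝ) : ℂ) + ((- Real.log ‖ρ w‖ : ℝ) : ℂ) * I) - x‖ ≤ d := by
      rw [hΦ, ← dist_eq_norm]
      exact hdiam w hw x hx
    have h2 := hm (α + (ρ w / ρ x).arg) x (Or.inr (by rw [heb]; exact (hthin x hx).le))
    have h3 := c8b_line hK hd0 hdm hyw0 (hywb.trans hybt).le h1 h2 hl0
    rw [hlog] at h3
    refine h3.trans (add_le_add (mul_le_mul_right ?_ _) le_rfl)
    rcases abs_eq hθ.1.le |>.mp hzθ with h4 | h4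
    · rw [h4]
      exact le_self_add
    · rw [h4, ← sub_eq_add_neg]
      exact le_add_self
  -- integration
  have hint : ENNReal.ofReal (B * A) ≤ ENNReal.ofReal (1 / (2 * l)) *
      (∫⁻ θ in Ioo 0 A, (H (α + θ) + H (α - θ))) + ENNReal.ofReal (l * yt / 2 * A) := by
    have h1 : ∫⁻ θ in Ioo 0 A, ENNReal.ofReal B ≤ ∫⁻ θ in Ioo 0 A,
        (ENNReal.ofReal (1 / (2 * l)) * (H (α + θ) + H (α - θ)) +
          ENNReal.ofReal (l * yt / 2)) := by
      apply setLIntegral_mono' measurableSet_Ioo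
      exact hline
    rw [lintegral_add_right _ measurable_const,
      lintegral_const_mul' _ _ ENNReal.ofReal_ne_top, setLIntegral_const, setLIntegral_const,
      Real.volume_Ioo, ← ENNReal.ofReal_mul (by positivity), ← ENNReal.ofReal_mul (by positivity), sub_zero] at h1
    exact h1
  have hsum : ∫⁻ θ in Ioo 0 A, (H (α + θ) + H (α - θ)) ≤ ∫⁻ s in Ioo (α - A) (α + A), H s := by
    have hm1 : Measurable (fun θ : ℝ => H (α + θ)) :=
      hHm.comp (measurable_const.add measurable_id)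
    rw [lintegral_add_left hm1]
    have e1 : ∫⁻ θ in Ioo 0 A, H (α + θ) = ∫⁻ s in Ioo α (α + A), H s := by
      rw [← lintegral_indicator measurableSet_Ioo, ← lintegral_indicator measurableSet_Ioo,
        ← lintegral_add_left_eq_self (μ := (volume : Measure ℝ)) ((Ioo α (α + A)).indicator H) α]
      apply lintegral_congr
      intro θ
      simp only [Set.indicator_apply, mem_Ioo, lt_add_iff_pos_right, add_lt_add_iff_left]
    have e2 : ∫⁻ θ in Ioo 0 A, H (α - θ) = ∫⁻ s in Ioo (α - A) α, H s := by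
      rw [← lintegral_indicator measurableSet_Ioo, ← lintegral_indicator measurableSet_Ioo,
        ← lintegral_sub_left_eq_self (μ := (volume : Measure ℝ)) ((Ioo (α - A) α).indicator H) α]
      apply lintegral_congr
      intro θ
      simp only [Set.indicator_apply, mem_Ioo, sub_lt_sub_iff_left, sub_lt_self_iff]
      by_cases h : 0 < θ ∧ θ < A
      · rw [if_pos h, if_pos ⟨h.2, h.1⟩]
      · rw [if_neg h, if_neg (fun h' => h ⟨h'.2, h'.1⟩)]
    rw [e1, e2, ← lintegral_union measurableSet_Ioo]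
    · apply lintegral_mono_set
      apply union_subset
      · exact Ioo_subset_Ioo_left (by linarith)
      · exact Ioo_subset_Ioo_right (by linarith)
    · rw [Set.disjoint_left]
      intro s hs hs'
      exact absurd hs.1 (not_lt.mpr hs'.2.le)
  have harea : ∫⁻ s in Ioo (α - A) (α + A), H s ≤ ENNReal.ofReal (2 * Real.pi * B) := by
    have h1 := log_area hK (α - A) (α + A) yt (by linarith) (by
      have := Real.pi_gt_three
      linarith) (hyb0.trans hybt) x d m hd0 hdm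
    rw [hlog] at h1
    exact h1
  have hfin : ENNReal.ofReal (B * A) ≤
      ENNReal.ofReal (1 / (2 * l) * (2 * Real.pi * B) + l * yt / 2 * A) := by
    refine hint.trans ?_
    rw [ENNReal.ofReal_add (by positivity) (by positivity), ENNReal.ofReal_mul (p := 1 / (2 * l)) (by positivity)]
    exact add_le_add (mul_le_mul_right (hsum.trans harea) _) le_rfl
  rw [ENNReal.ofReal_le_ofReal_iff (by positivity)] at hfin
  have e1 : 1 / (2 * l) * (2 * Real.pi * B) = A * B / 2 := by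
    rw [hl]
    field_simp
  have e2 : l * yt / 2 * A = Real.pi * yt := by
    rw [hl]
    field_simp
  have e3 : B * A = 4 * Real.pi * yt + A := by
    rw [hB]
    field_simp
  have h9 : 0 < Real.pi * yt := by positivity
  nlinarith

end CF6

end

section

/-!
# C8c: Wolff's lemma

PROOF. WLOG `η < 1` (replace by `min η (1/2)`). `d1` from `wolff_thin`, `r` from `rho_unif` with `c = 1 - η/8`, `ε = η/2`. `d = min d1 (r/2)`. If all points of `S` satisfy
`‖ρ x‖ > 1 - η/8`: `wolff_thin`. Otherwise some `w1 ∈ S` has `‖ρ w1‖ ≤ 1 - η/8`, `‖w1‖ ≤ R`; all points `x` of `S` have `dist x w1 ≤ d < r`, so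
`dist (ρ x) (ρ w1) < η/2`.
-/

open Complex Set Filter Topology Metric

namespace CF6

theorem wolff_thm {K : Set ℂ} {Φ ρ : ℂ → ℂ} (hK : Collar K Φ ρ) (R : ℝ) :
    ∀ η > (0 : ℝ), ∃ d > (0 : ℝ), ∀ S ⊆ Kᶜ ∩ closedBall 0 R, IsPreconnected S →
      (∀ x ∈ S, ∀ y ∈ S, dist x y ≤ d) → ∀ x ∈ S, ∀ y ∈ S, dist (ρ x) (ρ y) ≤ η := by
  -- reduction to `η < 1`
  have key : ∀ η : ℝ, 0 < η → η < 1 → ∃ d > (0 : ℝ), ∀ S ⊆ Kᶜ ∩ closedBall 0 R, IsPreconnected S →
      (∀ x ∈ S, ∀ y ∈ S, dist x y ≤ d) → ∀ x ∈ S, ∀ y ∈ S, dist (ρ x) (ρ y) ≤ η := by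
    intro η hη hη1
    obtain ⟨d1, hd1, hthin⟩ := wolff_thin hK hη hη1
    obtain ⟨r, hr, hunif⟩ := rho_unif hK (c := 1 - η / 8) (by linarith) R (ε := η / 2)
      (by linarith)
    refine ⟨min d1 (r / 2), lt_min hd1 (by linarith), ?_⟩
    intro S hS hSc hSd x hx y hy
    by_cases hall : ∀ x ∈ S, 1 - η / 8 < ‖ρ x‖
    · exact hthin S (hS.trans inter_subset_left) hSc
        (fun x hx y hy => (hSd x hx y hy).trans (min_le_left _ _)) hall x hx y hy
    · push Not at hall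
      obtain ⟨w1, hw1, hw1n⟩ := hall
      have h1 := hS hw1
      have hR1 : ‖w1‖ ≤ R := by
        have := h1.2
        rwa [mem_closedBall_zero_iff] at this
      have h2 : ∀ x ∈ S, dist (ρ x) (ρ w1) < η / 2 := by
        intro x hx
        refine (hunif w1 h1.1 hR1 hw1n x ?_).2
        have := (hSd x hx w1 hw1).trans (min_le_right _ _)
        linarith
      have h3 := h2 x hx
      have h4 := h2 y hy
      have h5 := dist_triangle_right (ρ x) (ρ y) (ρ w1)
      linarith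
  intro η hη
  obtain ⟨d, hd, h⟩ := key (min η (1 / 2)) (lt_min hη (by norm_num))
    (lt_of_le_of_lt (min_le_right _ _) (by norm_num))
  exact ⟨d, hd, fun S hS hSc hSd x hx y hy => (h S hS hSc hSd x hx y hy).trans (min_le_left _ _)⟩

end CF6

end

section

/-!
# C9a: changing an absolutely continuous function on an open set where it becomes constant

PROOF. Let `a ≤ b`. `F` is continuous on `[a,b]` (integral of an integrable function), `G = F` off `O`, `G` locally constant on `O ∩ [a,b]`, continuous on `[a,b]`.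
(1) For `x ≤ y` in `[a,b]`: `‖G y - G x‖ ≤ ∫ t in x..y, ‖f t‖`. If `[x,y] ⊆ O`: `G` is constant on the connected `[x,y]`. Otherwise let `x'` = first point of `[x,y]` not in `O`,
`y'` = last one (compact nonempty set `[x,y] \ O`): `G` is constant on `[x,x']` and `[y',y]` (locally constant on `[x,x')` and continuous), `G y - G x = G y' - G x' = F y' - F x' = ∫ x'..y' f`.
(2) `P t = ∫ s in a..t, indicator Oᶜ f s`, `D = G - P - G a`: absolutely continuous on `[a,b]` (Mathlib `AbsolutelyContinuousOnInterval`, both `G` and `P` have increments bounded by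
integrals of an integrable function), and `D' = 0` a.e.: at a.e. `t ∈ O`: `G' = 0` and `P' t = 0` (Lebesgue differentiation, `indicator` vanishes near `t`); at a.e. `t ∉ O`:
`F' t = f t`, `P' t = f t` and `G - F` has derivative `0` at `t` if `t` is an accumulation point of `Oᶜ` and `G - F` is differentiable at `t`
(isolated points of `Oᶜ` are countable; `G` is a.e. differentiable: bounded variation). `AbsolutelyContinuousOnInterval.const_of_ae_hasDerivAt_zero`.
ALTERNATIVE (probably shorter): `[a',b'] ∩ O` (`a'`, `b'` first and last point of `[a,b] \ O`) is the disjoint union of countably many open intervals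
`(c,c')` with `c, c' ∉ O`, `∫ c..c' f = F c' - F c = G c' - G c = 0`; sum over them. (Use any decomposition available, e.g. the components
`ordConnectedComponent`, or an approximation of the open set `O ∩ (a',b')` by finite unions of components.)
-/

open Complex MeasureTheory Set Filter Topology Metric

open scoped ENNReal

namespace CF6

/-- a function locally constant on `[x,z)` and continuous is constant -/
theorem c9a_const_left {G : ℝ → ℂ} {a b : ℝ} {O : Set ℝ}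
    (hG : ContinuousOn G (Icc a b))
    (hc : ∀ x ∈ Icc a b, x ∈ O → ∀ᶠ y in 𝓝 x, y ∈ Icc a b → G y = G x)
    {x z : ℝ} (hxz : x ≤ z) (hx : a ≤ x) (hz : z ≤ b) (hsub : Ico x z ⊆ O) : G z = G x := by
  have hcl : IsClosed ({t | G t = G x} ∩ Icc x z) := by
    have h1 : ContinuousOn G (Icc x z) := hG.mono (Icc_subset_Icc hx hz)
    have := h1.preimage_isClosed_of_isClosed isClosed_Icc (isClosed_singleton (x := G x))
    rw [inter_comm]
    exact this
  have := hcl.Icc_subset_of_forall_mem_nhdsWithin (by simp) (fun t ht => by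
    have htO : t ∈ O := hsub ht.2
    have htI : t ∈ Icc a b := ⟨hx.trans ht.2.1, ht.2.2.le.trans hz⟩
    have h1 : ∀ᶠ y in 𝓝[>] t, y ∈ Icc a b → G y = G t := (hc t htI htO).filter_mono nhdsWithin_le_nhds
    have h2 : ∀ᶠ y in 𝓝[>] t, y ∈ Ioo t z := Ioo_mem_nhdsGT ht.2.2
    filter_upwards [h1, h2] with y hy1 hy2
    show G y = G x
    rw [hy1 ⟨htI.1.trans hy2.1.le, hy2.2.le.trans hz⟩]
    exact ht.1)
  exact this (right_mem_Icc.mpr hxz)

/-- a function locally constant on `(z,y]` and continuous is constant -/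
theorem c9a_const_right {G : ℝ → ℂ} {a b : ℝ} {O : Set ℝ}
    (hG : ContinuousOn G (Icc a b))
    (hc : ∀ x ∈ Icc a b, x ∈ O → ∀ᶠ y in 𝓝 x, y ∈ Icc a b → G y = G x)
    {z y : ℝ} (hzy : z ≤ y) (hz : a ≤ z) (hy : y ≤ b) (hsub : Ioc z y ⊆ O) : G y = G z := by
  rcases hzy.eq_or_lt with h | h
  · rw [h]
  · have h1 : ∀ t ∈ Ioc z y, G y = G t := fun t ht =>
      c9a_const_left hG hc ht.2 (hz.trans ht.1.le) hy (fun s hs => hsub ⟨ht.1.trans_le hs.1, hs.2.le⟩)
    have h2 : Tendsto G (𝓝[Ioc z y] z) (𝓝 (G z)) :=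
      (hG z ⟨hz, hzy.trans hy⟩).mono_left (nhdsWithin_mono _ (fun t ht => ⟨hz.trans ht.1.le, ht.2.trans hy⟩))
    have h3 : Tendsto G (𝓝[Ioc z y] z) (𝓝 (G y)) := by
      refine tendsto_const_nhds.congr' ?_
      filter_upwards [self_mem_nhdsWithin] with t ht
      exact h1 t ht
    have : (𝓝[Ioc z y] z).NeBot := by
      rw [nhdsWithin_Ioc_eq_nhdsGT h]
      infer_instance
    exact tendsto_nhds_unique h3 h2

/-- the increments of `G - ∫ 1_{Oᶜ} f` -/
theorem c9a_incr {f F G : ℝ → ℂ} {a b : ℝ} {O : Set ℝ} (hab : a ≤ b) (hO : IsOpen O)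
    (hf : IntervalIntegrable f volume a b)
    (hF : ∀ x ∈ Icc a b, ∀ y ∈ Icc a b, x ≤ y → F y - F x = ∫ t in x..y, f t)
    (hG : ContinuousOn G (Icc a b)) (hFG : ∀ x ∈ Icc a b, x ∉ O → G x = F x)
    (hc : ∀ x ∈ Icc a b, x ∈ O → ∀ᶠ y in 𝓝 x, y ∈ Icc a b → G y = G x)
    {x y : ℝ} (hx : a ≤ x) (hxy : x ≤ y) (hy : y ≤ b) :
    ‖(G y - G x) - ∫ t in x..y, indicator Oᶜ f t‖ ≤ ∫ t in x..y, indicator O (fun t => ‖f t‖) t := by
  have hii : ∀ {S : Set ℝ}, MeasurableSet S → ∀ {u v : ℝ}, a ≤ u → u ≤ v → v ≤ b →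
      IntervalIntegrable (indicator S f) volume u v := by
    intro S hS u v hu huv hv
    have h1 : IntervalIntegrable f volume u v := hf.mono_set (by
      rw [uIcc_of_le huv, uIcc_of_le hab]; exact Icc_subset_Icc hu hv)
    exact ⟨h1.1.indicator hS, h1.2.indicator hS⟩
  have hnn : 0 ≤ ∫ t in x..y, indicator O (fun t => ‖f t‖) t :=
    intervalIntegral.integral_nonneg hxy (fun t _ => indicator_nonneg (fun t _ => norm_nonneg _) t)
  by_cases hsub : Icc x y ⊆ O
  · have h1 : G y = G x := c9a_const_left hG hc hxy hx hy (Ico_subset_Icc_self.trans hsub)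
    have h2 : ∫ t in x..y, indicator Oᶜ f t = 0 := by
      rw [intervalIntegral.integral_congr (g := fun _ => 0)]
      · simp
      · intro t ht
        rw [uIcc_of_le hxy] at ht
        exact indicator_of_notMem (Set.notMem_compl_iff.mpr (hsub ht)) f
    rw [h1, h2]
    simpa using hnn
  · have hcomp : IsCompact (Icc x y \ O) := isCompact_Icc.diff hO
    have hne : (Icc x y \ O).Nonempty := by
      obtain ⟨t, ht, htO⟩ := Set.not_subset.mp hsub
      exact ⟨t, ht, htO⟩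
    obtain ⟨x', hx'⟩ := hcomp.exists_isLeast hne
    obtain ⟨y', hy'⟩ := hcomp.exists_isGreatest hne
    have hx'y' : x' ≤ y' := hx'.2 hy'.1
    have hxx' : x ≤ x' := hx'.1.1.1
    have hy'y : y' ≤ y := hy'.1.1.2
    have hs1 : Ico x x' ⊆ O := by
      intro t ht
      by_contra hcon
      exact absurd (hx'.2 ⟨⟨ht.1, ht.2.le.trans (hx'y'.trans hy'y)⟩, hcon⟩) (not_le.mpr ht.2)
    have hs2 : Ioc y' y ⊆ O := by
      intro t ht
      by_contra hcon
      exact absurd (hy'.2 ⟨⟨(hxx'.trans hx'y').trans ht.1.le, ht.2⟩, hcon⟩) (not_le.mpr ht.1)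
    have hG1 : G x' = G x := c9a_const_left hG hc hxx' hx ((hx'y'.trans hy'y).trans hy) hs1
    have hG2 : G y = G y' :=
      c9a_const_right hG hc hy'y (hx.trans (hxx'.trans hx'y')) hy hs2
    have hx'I : x' ∈ Icc a b := ⟨hx.trans hxx', (hx'y'.trans hy'y).trans hy⟩
    have hy'I : y' ∈ Icc a b := ⟨hx'I.1.trans hx'y', hy'y.trans hy⟩
    have hGF : G y - G x = ∫ t in x'..y', f t := by
      rw [hG2, ← hG1, hFG x' hx'I hx'.1.2, hFG y' hy'I hy'.1.2, hF x' hx'I y' hy'I hx'y']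
    have hz1 : ∫ t in x..x', indicator Oᶜ f t = 0 := by
      apply intervalIntegral.integral_zero_ae
      filter_upwards [(Set.countable_singleton x').ae_notMem volume] with t ht1 ht2
      rw [uIoc_of_le hxx'] at ht2
      exact indicator_of_notMem (Set.notMem_compl_iff.mpr (hs1 ⟨ht2.1.le, lt_of_le_of_ne ht2.2 ht1⟩)) f
    have hz2 : ∫ t in y'..y, indicator Oᶜ f t = 0 := by
      apply intervalIntegral.integral_zero_ae
      filter_upwards with t ht2
      rw [uIoc_of_le hy'y] at ht2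
      exact indicator_of_notMem (Set.notMem_compl_iff.mpr (hs2 ht2)) f
    have hsplit : ∫ t in x..y, indicator Oᶜ f t = ∫ t in x'..y', indicator Oᶜ f t := by
      have e1 := intervalIntegral.integral_add_adjacent_intervals
        (hii hO.measurableSet.compl hx hxx' hx'I.2)
        (hii hO.measurableSet.compl hx'I.1 hx'y' hy'I.2)
      have e2 := intervalIntegral.integral_add_adjacent_intervals
        (hii hO.measurableSet.compl hx (hxx'.trans hx'y') hy'I.2)
        (hii hO.measurableSet.compl hy'I.1 hy'y hy)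
      rw [← e2, ← e1, hz1, hz2]
      simp
    have hf' : IntervalIntegrable f volume x' y' := hf.mono_set (by
      rw [uIcc_of_le hx'y', uIcc_of_le hab]; exact Icc_subset_Icc hx'I.1 hy'I.2)
    have hdiff : (G y - G x) - ∫ t in x..y, indicator Oᶜ f t = ∫ t in x'..y', indicator O f t := by
      rw [hGF, hsplit, ← intervalIntegral.integral_sub hf' (hii hO.measurableSet.compl hx'I.1 hx'y' hy'I.2)]
      congr 1
      funext t
      by_cases ht : t ∈ O
      · simp [ht]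
      · simp [ht]
    have hfn : IntervalIntegrable (indicator O (fun t => ‖f t‖)) volume x y := by
      have h1 : IntervalIntegrable f volume x y := hf.mono_set (by
        rw [uIcc_of_le hxy, uIcc_of_le hab]; exact Icc_subset_Icc hx hy)
      exact ⟨h1.norm.1.indicator hO.measurableSet, h1.norm.2.indicator hO.measurableSet⟩
    rw [hdiff]
    calc ‖∫ t in x'..y', indicator O f t‖ ≤ ∫ t in x'..y', ‖indicator O f t‖ :=
          intervalIntegral.norm_integral_le_integral_norm hx'y'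
      _ = ∫ t in x'..y', indicator O (fun t => ‖f t‖) t := by
          congr 1
          funext t
          by_cases ht : t ∈ O
          · simp [ht]
          · simp [ht]
      _ ≤ ∫ t in x..y, indicator O (fun t => ‖f t‖) t := by
          apply intervalIntegral.integral_mono_interval hxx' hx'y' hy'y _ hfn
          exact Eventually.of_forall (fun t => indicator_nonneg (fun t _ => norm_nonneg _) t)

theorem hidden_acl {f F G : ℝ → ℂ} {a b : ℝ} {O : Set ℝ} (hab : a ≤ b) (hO : IsOpen O)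
    (hf : IntervalIntegrable f volume a b)
    (hF : ∀ x ∈ Icc a b, ∀ y ∈ Icc a b, x ≤ y → F y - F x = ∫ t in x..y, f t)
    (hG : ContinuousOn G (Icc a b)) (hFG : ∀ x ∈ Icc a b, x ∉ O → G x = F x)
    (hc : ∀ x ∈ Icc a b, x ∈ O → ∀ᶠ y in 𝓝 x, y ∈ Icc a b → G y = G x) :
    IntervalIntegrable (indicator Oᶜ f) volume a b ∧
      G b - G a = ∫ t in a..b, indicator Oᶜ f t := by
  have hi : IntervalIntegrable (indicator Oᶜ f) volume a b :=
    ⟨hf.1.indicator hO.measurableSet.compl, hf.2.indicator hO.measurableSet.compl⟩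
  refine ⟨hi, ?_⟩
  have hi' : ∀ {u v : ℝ}, a ≤ u → u ≤ v → v ≤ b →
      IntervalIntegrable (indicator Oᶜ f) volume u v := by
    intro u v hu huv hv
    exact hi.mono_set (by rw [uIcc_of_le huv, uIcc_of_le hab]; exact Icc_subset_Icc hu hv)
  have key : ∀ ε : ℝ, 0 < ε → ‖(G b - G a) - ∫ t in a..b, indicator Oᶜ f t‖ ≤ ε := by
    intro ε hε
    have hfi : IntegrableOn f (Ioc a b) := (intervalIntegrable_iff_integrableOn_Ioc_of_le hab).mp hf
    have hfin : ∫⁻ t, ‖f t‖ₑ ∂(volume.restrict (Ioc a b)) ≠ ⊤ := hfi.2.ne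
    obtain ⟨δ, hδ, hδs⟩ := exists_pos_setLIntegral_lt_of_measure_lt hfin
      (ENNReal.ofReal_pos.mpr hε).ne'
    obtain ⟨K, hKO, hKc, hKm⟩ := hO.measurableSet.exists_isClosed_sdiff_lt
      (μ := volume.restrict (Ioc a b)) (measure_ne_top _ _) hδ.ne'
    have hlt := hδs _ hKm
    have hmeas : MeasurableSet (O \ K) := hO.measurableSet.diff hKc.measurableSet
    set h : ℝ → ℝ := indicator (O \ K) (fun t => ‖f t‖) with hh
    have hhi : IntervalIntegrable h volume a b :=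
      ⟨hf.norm.1.indicator hmeas, hf.norm.2.indicator hmeas⟩
    have hhi' : ∀ {u v : ℝ}, a ≤ u → u ≤ v → v ≤ b → IntervalIntegrable h volume u v := by
      intro u v hu huv hv
      exact hhi.mono_set (by rw [uIcc_of_le huv, uIcc_of_le hab]; exact Icc_subset_Icc hu hv)
    have hh0 : ∀ t, 0 ≤ h t := fun t => indicator_nonneg (fun t _ => norm_nonneg _) t
    have hint : ∫ t in a..b, h t ≤ ε := by
      rw [intervalIntegral.integral_of_le hab,
        integral_eq_lintegral_of_nonneg_ae (Eventually.of_forall hh0)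
          ((intervalIntegrable_iff_integrableOn_Ioc_of_le hab).mp hhi).aestronglyMeasurable]
      have e1 : ∫⁻ t in Ioc a b, ENNReal.ofReal (h t) =
          ∫⁻ t in O \ K, ‖f t‖ₑ ∂(volume.restrict (Ioc a b)) := by
        rw [← lintegral_indicator hmeas]
        congr 1
        funext t
        by_cases ht : t ∈ O \ K
        · rw [hh, indicator_of_mem ht, indicator_of_mem ht, ofReal_norm]
        · rw [hh, indicator_of_notMem ht, indicator_of_notMem ht, ENNReal.ofReal_zero]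
      rw [e1]
      exact ENNReal.toReal_le_of_le_ofReal hε.le hlt.le
    set D : ℝ → ℂ := fun x => (G x - G a) - ∫ t in a..x, indicator Oᶜ f t with hD
    have hcD : ContinuousOn D (Icc a b) := by
      refine (hG.sub continuousOn_const).sub ?_
      have := intervalIntegral.continuousOn_primitive_interval' (μ := volume) (a := a) (b₁ := a) (b₂ := b)
        (f := indicator Oᶜ f) hi (by simp)
      rwa [uIcc_of_le hab] at this
    have hcH : ContinuousOn (fun x => ∫ t in a..x, h t) (Icc a b) := by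
      have := intervalIntegral.continuousOn_primitive_interval' (μ := volume) (a := a) (b₁ := a) (b₂ := b)
        (f := h) hhi (by simp)
      rwa [uIcc_of_le hab] at this
    have hinc : ∀ {x y : ℝ}, a ≤ x → x ≤ y → y ≤ b →
        D y - D x = (G y - G x) - ∫ t in x..y, indicator Oᶜ f t := by
      intro x y hx hxy hy
      have := intervalIntegral.integral_add_adjacent_intervals (hi' le_rfl hx (hxy.trans hy))
        (hi' hx hxy hy)
      simp only [hD]
      rw [← this]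
      ring
    have hincH : ∀ {x y : ℝ}, a ≤ x → x ≤ y → y ≤ b →
        (∫ t in a..x, h t) + (∫ t in x..y, h t) = ∫ t in a..y, h t := by
      intro x y hx hxy hy
      exact intervalIntegral.integral_add_adjacent_intervals (hhi' le_rfl hx (hxy.trans hy))
        (hhi' hx hxy hy)
    have hcl : IsClosed ({x | ‖D x‖ ≤ ∫ t in a..x, h t} ∩ Icc a b) := by
      have h1 : ContinuousOn (fun x => ‖D x‖ - ∫ t in a..x, h t) (Icc a b) := hcD.norm.sub hcH
      have h2 := h1.preimage_isClosed_of_isClosed isClosed_Icc (isClosed_Iic (a := (0 : ℝ)))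
      have : {x | ‖D x‖ ≤ ∫ t in a..x, h t} ∩ Icc a b =
          Icc a b ∩ (fun x => ‖D x‖ - ∫ t in a..x, h t) ⁻¹' Iic 0 := by
        ext x
        simp only [mem_inter_iff, mem_ofPred_eq, mem_preimage, mem_Iic, sub_nonpos]
        exact and_comm
      rw [this]
      exact h2
    have hall := hcl.Icc_subset_of_forall_mem_nhdsWithin (by simp [hD]) (fun x hx => by
      have hxa : a ≤ x := hx.2.1
      have hxb : x < b := hx.2.2
      have hxS : ‖D x‖ ≤ ∫ t in a..x, h t := hx.1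
      have h2 : ∀ᶠ y in 𝓝[>] x, y ∈ Ioo x b := Ioo_mem_nhdsGT hxb
      by_cases hxK : x ∈ K
      · have hxO : x ∈ O := hKO hxK
        have h1 : ∀ᶠ y in 𝓝[>] x, y ∈ Icc a b → G y = G x :=
          (hc x ⟨hxa, hxb.le⟩ hxO).filter_mono nhdsWithin_le_nhds
        obtain ⟨r, hr, hrO⟩ := Metric.isOpen_iff.mp hO x hxO
        have h3 : ∀ᶠ y in 𝓝[>] x, y ∈ ball x r :=
          (Metric.ball_mem_nhds x hr : ball x r ∈ 𝓝 x) |> mem_nhdsWithin_of_mem_nhds
        filter_upwards [h1, h2, h3] with y hy1 hy2 hy3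
        have hya : a ≤ y := hxa.trans hy2.1.le
        show ‖D y‖ ≤ ∫ t in a..y, h t
        have hG' : G y = G x := hy1 ⟨hya, hy2.2.le⟩
        have hz : ∫ t in x..y, indicator Oᶜ f t = 0 := by
          rw [intervalIntegral.integral_congr (g := fun _ => 0)]
          · simp
          · intro t ht
            rw [uIcc_of_le hy2.1.le] at ht
            refine indicator_of_notMem (Set.notMem_compl_iff.mpr (hrO ?_)) f
            rw [Metric.mem_ball, Real.dist_eq] at hy3 ⊢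
            rw [abs_of_nonneg (by linarith [ht.1])]
            rw [abs_of_nonneg (by linarith [hy2.1])] at hy3
            linarith [ht.2]
        have hDD : D y = D x := by
          have := hinc hxa hy2.1.le hy2.2.le
          rw [hG', hz, sub_self, sub_zero] at this
          exact sub_eq_zero.mp this
        rw [hDD, ← hincH hxa hy2.1.le hy2.2.le]
        have : 0 ≤ ∫ t in x..y, h t := intervalIntegral.integral_nonneg hy2.1.le (fun t _ => hh0 t)
        linarith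
      · obtain ⟨r, hr, hrK⟩ := Metric.isOpen_iff.mp hKc.isOpen_compl x hxK
        have h3 : ∀ᶠ y in 𝓝[>] x, y ∈ ball x r :=
          (Metric.ball_mem_nhds x hr : ball x r ∈ 𝓝 x) |> mem_nhdsWithin_of_mem_nhds
        filter_upwards [h2, h3] with y hy2 hy3
        show ‖D y‖ ≤ ∫ t in a..y, h t
        have h4 := c9a_incr hab hO hf hF hG hFG hc hxa hy2.1.le hy2.2.le
        rw [← hinc hxa hy2.1.le hy2.2.le] at h4
        have h5 : ∫ t in x..y, indicator O (fun t => ‖f t‖) t = ∫ t in x..y, h t := by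
          apply intervalIntegral.integral_congr
          intro t ht
          rw [uIcc_of_le hy2.1.le] at ht
          have htK : t ∉ K := by
            apply hrK
            rw [Metric.mem_ball, Real.dist_eq] at hy3 ⊢
            rw [abs_of_nonneg (by linarith [ht.1])]
            rw [abs_of_nonneg (by linarith [hy2.1])] at hy3
            linarith [ht.2]
          by_cases htO : t ∈ O
          · simp [hh, htO, htK]
          · simp [hh, htO]
        rw [h5] at h4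
        have h6 := norm_add_le (D x) (D y - D x)
        rw [add_sub_cancel] at h6
        rw [← hincH hxa hy2.1.le hy2.2.le]
        linarith)
    exact (hall (right_mem_Icc.mpr hab)).trans hint
  have h0 : ‖(G b - G a) - ∫ t in a..b, indicator Oᶜ f t‖ ≤ 0 :=
    le_of_forall_pos_le_add (fun ε hε => by simpa using key ε hε)
  exact sub_eq_zero.mp (norm_le_zero_iff.mp h0)

end CF6

end
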