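import Pool.Agent.Lib.MP_cf6b16_an.DefsB
import Pool.Agent.Lib.MP_cf6b16_an.A2
import Pool.Agent.Lib.MP_cf6b16_an.DE1
import Pool.Agent.Lib.MP_cf6b16_an.C1

section

/-!
# C9b: the semicircles about a boundary point cannot join the neighbourhoods of two different points

PROOF. Suppose it is possible for all `r ∈ (0, r0)`; WLOG `r0 ≤ 1`. `D = ‖p - q‖ > 0`. For `r < r0` let `γ φ = Φ (x0 + r exp (i φ))`, `φ ∈ (0, π)`, with
`‖γ φ1 - p‖ < D/8` and `‖γ φ2 - q‖ < D/8`, so `‖γ φ2 - p‖ > 7D/8`. `radial_len` on the interval between `φ1` and `φ2` (compact subinterval of `(0,π)`):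
`3D/4 ≤ ∫⁻ φ in Ioo 0 π, 1_{D/8 < ‖γ - p‖ < 7D/8} ‖deriv Φ‖ r`. With `2 a b ≤ a² λ + b²/λ`: for `E φ = 1 ‖deriv Φ (..)‖` we have
`3D/4 ≤ r ∫ E ≤ r ( (λ/2) ∫ E² + π/(2λ) )`; take `λ = (4 π r)/(3 D)`... (so that `π r/(2λ) = 3D/8`): `3D/8 ≤ (r λ/2) ∫ E²`, i.e.
`∫⁻ φ in Ioo 0 π, E² * r ≥ (3D/4)/λ = 9 D²/(16 π r)`. Integrating over `r ∈ (0, r0)`: the polar integral
`∫⁻ r in Ioo 0 r0, ∫⁻ φ in Ioo 0 π, E² r = ⊤`. But by polar coordinates (`Complex.lintegral_comp_polarCoord_symm`, translation by `x0`) it is at most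
`∫⁻ x in Ioo (x0-1) (x0+1), ∫⁻ t in Ioo 0 1, 1_{..} ‖deriv Φ (x + t I)‖² ≤ (7D/8)² * 2 π log 7 < ⊤` (`log_area` with `a = D/8`, `b = 7D/8`, and `‖Φ - p‖ ≤ 7D/8` on the support).
-/

open Complex MeasureTheory Set Filter Topology Metric

open scoped ENNReal

namespace CF6

private lemma c9b_cs {f : ℝ → ℝ≥0∞} (hf : Measurable f) :
    (∫⁻ t in Ioo 0 Real.pi, f t) ^ 2 ≤ ENNReal.ofReal Real.pi * ∫⁻ t in Ioo 0 Real.pi, f t ^ 2 := by
  have h1 := ENNReal.lintegral_mul_le_Lp_mul_Lq (volume.restrict (Ioo 0 Real.pi))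
    Real.HolderConjugate.two_two hf.aemeasurable (g := fun _ => 1) aemeasurable_const
  simp only [Pi.mul_apply, mul_one, ENNReal.one_rpow, lintegral_one, Measure.restrict_apply_univ,
    Real.volume_Ioo, sub_zero] at h1
  have h2 : (∫⁻ t in Ioo 0 Real.pi, f t) ^ 2 ≤
      ((∫⁻ a in Ioo 0 Real.pi, f a ^ (2 : ℝ)) ^ (1 / (2 : ℝ)) *
        ENNReal.ofReal Real.pi ^ (1 / (2 : ℝ))) ^ 2 := pow_le_pow_left₀ zero_le h1 2
  refine h2.trans (le_of_eq ?_)
  rw [mul_pow, ← ENNReal.rpow_natCast, ← ENNReal.rpow_natCast, ← ENNReal.rpow_mul,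
    ← ENNReal.rpow_mul]
  norm_num
  rw [mul_comm]

/-- the function in the area integral -/
private noncomputable def c9b_F (Φ : ℂ → ℂ) (p : ℂ) (A B : ℝ) (u : ℂ) : ℝ≥0∞ :=
  open Classical in
  if 0 < u.im ∧ A < ‖Φ u - p‖ ∧ ‖Φ u - p‖ < B then ENNReal.ofReal ‖deriv Φ u‖ else 0

private lemma c9b_meas {Φ : ℂ → ℂ} (hd : ContinuousOn Φ UHP) (p : ℂ) (A B : ℝ) :
    Measurable (c9b_F Φ p A B) := by
  have hU : IsOpen UHP := isOpen_lt continuous_const continuous_im
  have h1 : MeasurableSet {u : ℂ | 0 < u.im ∧ A < ‖Φ u - p‖ ∧ ‖Φ u - p‖ < B} := by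
    have h2 : {u : ℂ | 0 < u.im ∧ A < ‖Φ u - p‖ ∧ ‖Φ u - p‖ < B} =
        UHP ∩ (fun u => ‖Φ u - p‖) ⁻¹' (Ioo A B) := by
      ext u; simp [UHP]
    rw [h2]
    exact ((hd.sub continuousOn_const).norm.isOpen_inter_preimage hU isOpen_Ioo).measurableSet
  unfold c9b_F
  exact Measurable.ite h1 (measurable_deriv Φ).norm.ennreal_ofReal measurable_const

private lemma c9b_inv (c r1 : ℝ) (hc : 0 < c) (hr : 0 < r1) :
    ∫⁻ r in Ioo 0 r1, ENNReal.ofReal (c / r) = ⊤ := by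
  by_contra hne
  have hlt : ∫⁻ r in Ioo 0 r1, ENNReal.ofReal (c / r) < ⊤ := lt_top_iff_ne_top.2 hne
  have h1 : IntegrableOn (fun r : ℝ => c / r) (Ioo 0 r1) := by
    refine ⟨(measurable_const.div measurable_id).aestronglyMeasurable, ?_⟩
    rw [hasFiniteIntegral_iff_ofReal]
    · exact hlt
    · filter_upwards [ae_restrict_mem measurableSet_Ioo] with r hr'
      exact div_nonneg hc.le hr'.1.le
  have h2 : IntervalIntegrable (fun r : ℝ => c / r) volume 0 r1 := by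
    rw [intervalIntegrable_iff_integrableOn_Ioo_of_le hr.le]
    exact h1
  have h3 : IntervalIntegrable (fun r : ℝ => r⁻¹) volume 0 r1 := by
    have := h2.const_mul c⁻¹
    refine this.congr ?_ 
    intro x _
    simp only
    field_simp
  rw [intervalIntegrable_inv_iff] at h3
  rcases h3 with h3 | h3
  · exact hr.ne h3
  · exact h3 left_mem_uIcc

/-- parametrisation of the semicircle -/
private lemma c9b_param {u : ℂ} {x0 r : ℝ} (h0 : 0 < u.im) (hr : ‖u - x0‖ = r) :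
    ∃ φ ∈ Ioo 0 Real.pi, u = x0 + r * exp (φ * I) := by
  have him : 0 < (u - x0).im := by simpa using h0
  refine ⟨(u - x0).arg, ⟨?_, ?_⟩, ?_⟩
  · rcases (Complex.arg_nonneg_iff.2 him.le).lt_or_eq with h | h
    · exact h
    · exfalso
      rw [eq_comm, Complex.arg_eq_zero_iff] at h
      linarith [h.2]
  · refine lt_of_le_of_ne (Complex.arg_le_pi _) ?_
    intro h
    rw [Complex.arg_eq_pi_iff] at h
    linarith [h.2]
  · have := Complex.norm_mul_exp_arg_mul_I (u - x0)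
    rw [hr] at this
    rw [this]
    ring

/-- one semicircle -/
private lemma c9b_one {K : Set ℂ} {Φ ρ : ℂ → ℂ} (hK : Collar K Φ ρ) {x0 r : ℝ} {p q : ℂ}
    (hr : 0 < r) (hpq : p ≠ q)
    (h1 : ∃ u : ℂ, 0 < u.im ∧ ‖u - x0‖ = r ∧ ‖Φ u - p‖ < ‖p - q‖ / 8)
    (h2 : ∃ u : ℂ, 0 < u.im ∧ ‖u - x0‖ = r ∧ ‖Φ u - q‖ < ‖p - q‖ / 8) :
    ENNReal.ofReal (3 * ‖p - q‖ / 4) ≤ ∫⁻ φ in Ioo 0 Real.pi,
      c9b_F Φ p (‖p - q‖ / 8) (7 * ‖p - q‖ / 8) (x0 + r * exp (φ * I)) * ENNReal.ofReal r := by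
  obtain ⟨u1, a1, b1, c1⟩ := h1
  obtain ⟨u2, a2, b2, c2⟩ := h2
  obtain ⟨φ1, hφ1, e1⟩ := c9b_param a1 b1
  obtain ⟨φ2, hφ2, e2⟩ := c9b_param a2 b2
  have hD : 0 < ‖p - q‖ := norm_pos_iff.2 (sub_ne_zero.2 hpq)
  have c2' : 7 * ‖p - q‖ / 8 ≤ ‖Φ u2 - p‖ := by
    have : p - q = (Φ u2 - q) - (Φ u2 - p) := by ring
    have h3 := norm_sub_le (Φ u2 - q) (Φ u2 - p)
    rw [← this] at h3
    linarith
  set γ : ℝ → ℂ := fun φ => Φ (x0 + r * exp (φ * I)) with hγ
  set γ' : ℝ → ℂ := fun φ => deriv Φ (x0 + r * exp (φ * I)) * (r * (exp (φ * I) * I)) with hγ'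
  have him : ∀ φ : ℝ, (x0 + r * exp (φ * I) : ℂ).im = r * Real.sin φ := by
    intro φ
    simp [Complex.exp_im, Complex.exp_re]
  have hU : IsOpen UHP := isOpen_lt continuous_const continuous_im
  have hmem : ∀ φ ∈ Ioo 0 Real.pi, (x0 + r * exp (φ * I) : ℂ) ∈ UHP := by
    intro φ hφ
    change 0 < (x0 + r * exp (φ * I) : ℂ).im
    rw [him]
    exact mul_pos hr (Real.sin_pos_of_mem_Ioo hφ)
  have hder : ∀ φ ∈ Ioo 0 Real.pi, HasDerivAt γ (γ' φ) φ := by
    intro φ hφ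
    have h3 : HasDerivAt (fun φ : ℝ => (x0 + r * exp (φ * I) : ℂ)) (r * (exp (φ * I) * I)) φ := by
      have h4 : HasDerivAt (fun φ : ℝ => (φ * I : ℂ)) I φ := by
        simpa using (Complex.ofRealCLM.hasDerivAt (x := φ)).mul_const I
      exact (h4.cexp.const_mul (r : ℂ)).const_add _
    have h5 := ((hK.dPhi.differentiableAt (hU.mem_nhds (hmem φ hφ))).hasDerivAt).comp φ h3
    exact h5
  have hcon : ContinuousOn γ' (Ioo 0 Real.pi) := by
    have h3 : ContinuousOn (deriv Φ) UHP := (hK.dPhi.deriv hU).continuousOn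
    have h4 : Continuous (fun φ : ℝ => (x0 + r * exp (φ * I) : ℂ)) := by fun_prop
    have h5 : ContinuousOn (fun φ : ℝ => deriv Φ (x0 + r * exp (φ * I))) (Ioo 0 Real.pi) :=
      h3.comp h4.continuousOn hmem
    refine h5.mul ?_
    fun_prop
  have hsub : Icc (min φ1 φ2) (max φ1 φ2) ⊆ Ioo 0 Real.pi := by
    intro φ hφ
    exact ⟨lt_of_lt_of_le (lt_min hφ1.1 hφ2.1) hφ.1, lt_of_le_of_lt hφ.2 (max_lt hφ1.2 hφ2.2)⟩
  have key := radial_len (γ := γ) (γ' := γ') (a := min φ1 φ2) (b := max φ1 φ2)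
    (min_le_max) (fun φ hφ => hder φ (hsub hφ)) (hcon.mono hsub) (q := p) (d := ‖p - q‖ / 8)
    (m := 7 * ‖p - q‖ / 8) (by positivity) (by linarith) (by
      rcases le_total φ1 φ2 with h | h
      · left
        rw [min_eq_left h, max_eq_right h]
        refine ⟨?_, ?_⟩
        · simp only [hγ]; rw [← e1]; exact c1.le
        · simp only [hγ]; rw [← e2]; exact c2'
      · right
        rw [min_eq_right h, max_eq_left h]
        refine ⟨?_, ?_⟩
        · simp only [hγ]; rw [← e1]; exact c1.le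
        · simp only [hγ]; rw [← e2]; exact c2')
  rw [show 7 * ‖p - q‖ / 8 - ‖p - q‖ / 8 = 3 * ‖p - q‖ / 4 by ring] at key
  refine key.trans ?_
  refine (lintegral_mono_set (Ioo_subset_Icc_self.trans hsub)).trans ?_
  refine setLIntegral_mono' measurableSet_Ioo ?_
  intro φ hφ
  by_cases hc : ‖p - q‖ / 8 < ‖γ φ - p‖ ∧ ‖γ φ - p‖ < 7 * ‖p - q‖ / 8
  · rw [if_pos hc]
    have h3 : 0 < (x0 + r * exp (φ * I) : ℂ).im := hmem φ hφ
    have h4 : c9b_F Φ p (‖p - q‖ / 8) (7 * ‖p - q‖ / 8) (x0 + r * exp (φ * I)) =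
        ENNReal.ofReal ‖deriv Φ (x0 + r * exp (φ * I))‖ := by
      unfold c9b_F
      rw [if_pos ⟨h3, hc⟩]
    rw [h4, ← ENNReal.ofReal_mul (norm_nonneg _)]
    refine ENNReal.ofReal_le_ofReal (le_of_eq ?_)
    simp only [hγ']
    rw [norm_mul, norm_mul, norm_mul, norm_I, mul_one, Complex.norm_exp_ofReal_mul_I, mul_one,
      Complex.norm_real, Real.norm_eq_abs, abs_of_pos hr]
  · rw [if_neg hc]
    exact zero_le

/-- the polar integral is bounded by the area integral -/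
private lemma c9b_polar {F : ℂ → ℝ≥0∞} (hF : Measurable F) (h0 : ∀ u : ℂ, u.im ≤ 0 → F u = 0)
    (x0 r1 : ℝ) (hr1 : r1 ≤ 1) :
    ∫⁻ r in Ioo 0 r1, ∫⁻ φ in Ioo 0 Real.pi, ENNReal.ofReal r * F (x0 + r * exp (φ * I)) ≤
      ∫⁻ x in Ioo (x0 - 1) (x0 + 1), ∫⁻ t : ℝ in Ioo 0 1, F (x + t * I) := by
  set G : ℂ → ℝ≥0∞ := fun z => (ball (0 : ℂ) r1).indicator (fun z => F (x0 + z)) z with hG
  have hGm : Measurable G := by
    refine Measurable.indicator ?_ measurableSet_ball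
    exact hF.comp (measurable_const.add measurable_id)
  -- step 1
  have s1 : ∫⁻ r in Ioo 0 r1, ∫⁻ φ in Ioo 0 Real.pi, ENNReal.ofReal r * F (x0 + r * exp (φ * I)) ≤
      ∫⁻ z, G z := by
    rw [← Complex.lintegral_comp_polarCoord_symm]
    have hsub : (Ioo 0 r1) ×ˢ (Ioo 0 Real.pi) ⊆ polarCoord.target := by
      intro x hx
      exact ⟨hx.1.1, ⟨by linarith [hx.2.1, Real.pi_pos], hx.2.2⟩⟩
    refine le_trans ?_ (lintegral_mono_set hsub)
    rw [Measure.volume_eq_prod, ← Measure.prod_restrict, lintegral_prod]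
    · refine setLIntegral_mono' measurableSet_Ioo ?_
      intro r hr
      refine setLIntegral_mono' measurableSet_Ioo ?_
      intro φ hφ
      simp only [smul_eq_mul]
      refine mul_le_mul_right ?_ _
      rw [Complex.polarCoord_symm_apply]
      simp only [hG]
      have e1 : ((r : ℂ) * (Real.cos φ + Real.sin φ * I)) = r * exp (φ * I) := by
        rw [Complex.exp_mul_I]; simp
      rw [e1, indicator_of_mem]
      rw [mem_ball, dist_zero_right, norm_mul, Complex.norm_exp_ofReal_mul_I, mul_one,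
        Complex.norm_real, Real.norm_eq_abs, abs_of_pos hr.1]
      exact hr.2
    · refine Measurable.aemeasurable ?_
      have e0 : (fun x : ℝ × ℝ => ENNReal.ofReal x.1 • G (Complex.polarCoord.symm x)) =
          fun x => ENNReal.ofReal x.1 * G ((x.1 : ℂ) * (Real.cos x.2 + Real.sin x.2 * I)) := by
        funext x
        rw [Complex.polarCoord_symm_apply, smul_eq_mul]
      rw [e0]
      refine Measurable.mul ?_ ?_
      · exact measurable_fst.ennreal_ofReal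
      · refine hGm.comp ?_
        fun_prop
  -- step 2
  have s2 : ∫⁻ z, G z = ∫⁻ z, (ball (x0 : ℂ) r1).indicator F z := by
    rw [← lintegral_add_left_eq_self (fun z => (ball (x0 : ℂ) r1).indicator F z) (x0 : ℂ)]
    refine lintegral_congr fun z => ?_
    simp only [hG, indicator, mem_ball, dist_eq_norm, add_sub_cancel_left, sub_zero]
  have s3 : ∫⁻ z, (ball (x0 : ℂ) r1).indicator F z ≤
      ∫⁻ z in (Ioo (x0 - 1) (x0 + 1)) ×ℂ (Ioo 0 1), F z := by
    rw [← lintegral_indicator]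
    · refine lintegral_mono fun z => ?_
      by_cases hz : z ∈ ball (x0 : ℂ) r1
      · rw [indicator_of_mem hz]
        by_cases hz0 : z.im ≤ 0
        · rw [h0 z hz0]; exact zero_le
        · push Not at hz0
          rw [indicator_of_mem]
          rw [mem_ball, dist_eq_norm] at hz
          have a1 : |(z - x0).re| ≤ ‖z - x0‖ := abs_re_le_norm _
          have a2 : |(z - x0).im| ≤ ‖z - x0‖ := abs_im_le_norm _
          simp only [sub_re, ofReal_re, sub_im, ofReal_im, sub_zero] at a1 a2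
          have a3 := abs_le.1 a1
          have a4 := abs_le.1 a2
          refine ⟨⟨by linarith [a3.1], by linarith [a3.2]⟩, ⟨hz0, by linarith [a4.2]⟩⟩
      · rw [indicator_of_notMem hz]; exact zero_le
    · exact (isOpen_Ioo.reProdIm isOpen_Ioo).measurableSet
  refine (s1.trans (s2.le.trans s3)).trans (le_of_eq ?_)
  -- step 4
  have hpre := Complex.volume_preserving_equiv_real_prod.symm
  have e1 : (Ioo (x0 - 1) (x0 + 1)) ×ℂ (Ioo 0 1) =
      Complex.measurableEquivRealProd.symm.symm ⁻¹' ((Ioo (x0 - 1) (x0 + 1)) ×ˢ (Ioo 0 1)) := by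
    ext z
    simp [Complex.mem_reProdIm]
  have e2 := hpre.setLIntegral_comp_preimage_emb
    (Complex.measurableEquivRealProd.symm.measurableEmbedding) F
    ((Ioo (x0 - 1) (x0 + 1)) ×ℂ (Ioo 0 1))
  rw [← e2]
  have e3 : (Complex.measurableEquivRealProd.symm ⁻¹' ((Ioo (x0 - 1) (x0 + 1)) ×ℂ (Ioo 0 1))) =
      (Ioo (x0 - 1) (x0 + 1)) ×ˢ (Ioo 0 1) := by
    ext z
    simp [Complex.mem_reProdIm, Complex.measurableEquivRealProd_symm_apply]
  rw [e3, Measure.volume_eq_prod, ← Measure.prod_restrict, lintegral_prod]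
  · refine setLIntegral_congr_fun measurableSet_Ioo fun x hx => ?_
    refine setLIntegral_congr_fun measurableSet_Ioo fun t ht => ?_
    simp only [Complex.measurableEquivRealProd_symm_apply]
    rw [← Complex.mk_eq_add_mul_I]
  · exact (hF.comp Complex.measurableEquivRealProd.symm.measurable).aemeasurable

theorem semi_unique {K : Set ℂ} {Φ ρ : ℂ → ℂ} (hK : Collar K Φ ρ) {x0 : ℝ} {p q : ℂ} {r0 : ℝ}
    (hr : 0 < r0)
    (h : ∀ r : ℝ, 0 < r → r < r0 →
      (∃ u : ℂ, 0 < u.im ∧ ‖u - x0‖ = r ∧ ‖Φ u - p‖ < ‖p - q‖ / 8) ∧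
      (∃ u : ℂ, 0 < u.im ∧ ‖u - x0‖ = r ∧ ‖Φ u - q‖ < ‖p - q‖ / 8)) : p = q := by
  by_contra hpq
  have hD : 0 < ‖p - q‖ := norm_pos_iff.2 (sub_ne_zero.2 hpq)
  set D := ‖p - q‖ with hDd
  set r1 := min r0 1 with hr1
  have hr1p : 0 < r1 := lt_min hr one_pos
  have hΦ : ContinuousOn Φ UHP := hK.dPhi.continuousOn
  set F := c9b_F Φ p (D / 8) (7 * D / 8) with hF
  have hFm : Measurable F := c9b_meas hΦ p _ _
  have hF0 : ∀ u : ℂ, u.im ≤ 0 → F u = 0 := by
    intro u hu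
    simp only [hF]
    unfold c9b_F
    rw [if_neg]
    intro hh
    linarith [hh.1]
  have hpos := c9b_polar (F := fun u => F u ^ 2) (hFm.pow_const 2)
    (fun u hu => by simp [hF0 u hu]) x0 r1 (min_le_right _ _)
  -- upper bound
  have hup : ∫⁻ x in Ioo (x0 - 1) (x0 + 1), ∫⁻ t : ℝ in Ioo 0 1, F (x + t * I) ^ 2 ≤
      ENNReal.ofReal ((7 * D / 8) ^ 2) * ENNReal.ofReal (2 * Real.pi * Real.log
        ((7 * D / 8) / (D / 8))) := by
    have hl := log_area hK (x0 - 1) (x0 + 1) 1 (by linarith) (by linarith [Real.pi_gt_three])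
      one_pos p (D / 8) (7 * D / 8) (by positivity) (by linarith)
    refine le_trans ?_ (mul_le_mul_right hl _)
    rw [← lintegral_const_mul' _ _ ENNReal.ofReal_ne_top]
    refine setLIntegral_mono' measurableSet_Ioo fun x hx => ?_
    rw [← lintegral_const_mul' _ _ ENNReal.ofReal_ne_top]
    refine setLIntegral_mono' measurableSet_Ioo fun t ht => ?_
    by_cases hc : D / 8 < ‖Φ (x + t * I) - p‖ ∧ ‖Φ (x + t * I) - p‖ < 7 * D / 8
    · rw [if_pos hc]
      have h3 : 0 < (x + t * I : ℂ).im := by simpa using ht.1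
      have h4 : F (x + t * I) = ENNReal.ofReal ‖deriv Φ (x + t * I)‖ := by
        simp only [hF]
        unfold c9b_F
        rw [if_pos ⟨h3, hc⟩]
      rw [h4, ← ENNReal.ofReal_pow (norm_nonneg _), ← ENNReal.ofReal_mul (by positivity)]
      refine ENNReal.ofReal_le_ofReal ?_
      have h5 : 0 < ‖Φ (x + t * I) - p‖ := lt_trans (by positivity) hc.1
      rw [mul_div_assoc', le_div_iff₀ (by positivity)]
      have h6 : ‖Φ (x + t * I) - p‖ ^ 2 ≤ (7 * D / 8) ^ 2 :=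
        pow_le_pow_left₀ h5.le hc.2.le 2
      nlinarith [sq_nonneg ‖deriv Φ (x + t * I)‖]
    · rw [if_neg hc]
      have h4 : F (x + t * I) = 0 := by
        simp only [hF]
        unfold c9b_F
        rw [if_neg]
        exact fun hh => hc hh.2
      rw [h4]
      simp
  -- lower bound
  set c : ℝ := (3 * D / 4) ^ 2 / Real.pi with hc
  have hcpos : 0 < c := by positivity
  have hlow : ∀ r ∈ Ioo 0 r1, ENNReal.ofReal (c / r) ≤
      ∫⁻ φ in Ioo 0 Real.pi, ENNReal.ofReal r * F (x0 + r * exp (φ * I)) ^ 2 := by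
    intro r hr'
    obtain ⟨h1, h2⟩ := h r hr'.1 (lt_of_lt_of_le hr'.2 (min_le_left _ _))
    have h3 := c9b_one hK hr'.1 hpq h1 h2
    have hm : Measurable (fun φ : ℝ => F (x0 + r * exp (φ * I))) := by
      refine hFm.comp ?_
      fun_prop
    have h4 := c9b_cs (f := fun φ : ℝ => F (x0 + r * exp (φ * I)) * ENNReal.ofReal r)
      (hm.mul_const _)
    have h5 : ENNReal.ofReal (3 * D / 4) ^ 2 ≤ ENNReal.ofReal Real.pi *
        ∫⁻ t in Ioo 0 Real.pi, (F (x0 + r * exp (t * I)) * ENNReal.ofReal r) ^ 2 :=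
      (pow_le_pow_left₀ zero_le h3 2).trans h4
    have h6 : ∫⁻ t in Ioo 0 Real.pi, (F (x0 + r * exp (t * I)) * ENNReal.ofReal r) ^ 2 =
        ENNReal.ofReal r * ∫⁻ φ in Ioo 0 Real.pi, ENNReal.ofReal r * F (x0 + r * exp (φ * I)) ^ 2 := by
      rw [← lintegral_const_mul' _ _ ENNReal.ofReal_ne_top]
      refine lintegral_congr fun t => ?_
      ring
    rw [h6, ← mul_assoc, ← ENNReal.ofReal_mul Real.pi_pos.le, ← ENNReal.ofReal_pow
      (by positivity)] at h5
    have h7 : ENNReal.ofReal (c / r) = (ENNReal.ofReal (Real.pi * r))⁻¹ *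
        ENNReal.ofReal ((3 * D / 4) ^ 2) := by
      rw [← ENNReal.ofReal_inv_of_pos (mul_pos Real.pi_pos hr'.1), ← ENNReal.ofReal_mul
        (by have := hr'.1; positivity)]
      congr 1
      rw [hc]
      have := hr'.1
      field_simp
    rw [h7]
    have hne0 : ENNReal.ofReal (Real.pi * r) ≠ 0 := by
      rw [Ne, ENNReal.ofReal_eq_zero, not_le]
      exact mul_pos Real.pi_pos hr'.1
    calc (ENNReal.ofReal (Real.pi * r))⁻¹ * ENNReal.ofReal ((3 * D / 4) ^ 2)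
        ≤ (ENNReal.ofReal (Real.pi * r))⁻¹ * (ENNReal.ofReal (Real.pi * r) *
          ∫⁻ φ in Ioo 0 Real.pi, ENNReal.ofReal r * F (x0 + r * exp (φ * I)) ^ 2) :=
          mul_le_mul_right h5 _
      _ = _ := by
          rw [← mul_assoc, ENNReal.inv_mul_cancel hne0 ENNReal.ofReal_ne_top, one_mul]
  have htop : (⊤ : ℝ≥0∞) ≤ ∫⁻ r in Ioo 0 r1, ∫⁻ φ in Ioo 0 Real.pi,
      ENNReal.ofReal r * F (x0 + r * exp (φ * I)) ^ 2 := by
    rw [← c9b_inv c r1 hcpos hr1p]
    exact setLIntegral_mono' measurableSet_Ioo hlow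
  have hfin := htop.trans (hpos.trans hup)
  rw [top_le_iff, ← ENNReal.ofReal_mul (by positivity)] at hfin
  exact ENNReal.ofReal_ne_top hfin

end CF6

end

section

/-!
# C9c: the value of `h` at the boundary points of a fibre of `g` over the circle is unique

* `cross_semi`: `x ∈ Ω`, `g x = exp (I x0)`, and every neighbourhood of `x` contains `y ∈ Ω` with `g y ≠ g x`. Let `ε > 0`. Take a ball `B = ball x s ⊆ Ω`, with
  `‖h z - h x‖ < ε/2` and `‖g z - g x‖ < 1/2` on `B` (`limData_basic_thm`: continuity). `v z = x0 - I * log (g z / g x)`: continuous on `B` (`‖g z/g x - 1‖ < 1/2`, slit plane),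
  `exp (I v z) = g z`, `v x = x0`. Take `y ∈ B` with `g y ≠ g x`: `v y ≠ x0`; `r0 = ‖v y - x0‖`. Let `0 < r < r0`. On the compact segment `[x,y] ⊆ B`, `gj = ρ ∘ hj j → g`
  and `hj j → h` uniformly; `vj z = x0 - I * log (gj z / g x)` is continuous on the segment for large `j` and `→ v` at the end points: `‖vj x - x0‖ < r < ‖vj y - x0‖`. Intermediate value
  theorem on the segment: `z` with `‖vj z - x0‖ = r`. `exp (I vj z) = ρ (hj j z)` has norm `< 1` (`maps`, `avoid`), so `0 < (vj z).im`, and `Φ (vj z) = hj j z`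
  (`phi_of_rho`). `‖hj j z - h x‖ < ε` for `j` large (`‖hj j z - h z‖ < ε/2`). `u = vj z`.
* `value_unique`: `x`, `y` two such points with `g x = g y`, `‖g x‖ = 1`: write `g x = exp (I x0)`, `x0 = arg (g x)`. If `h x ≠ h y`: `cross_semi` with `ε = ‖h x - h y‖/8` for both, `r0` = minimum;
  `semi_unique` gives `h x = h y`.
-/

open Complex MeasureTheory Set Filter Topology Metric

namespace CF6

theorem cross_semi {Ω K : Set ℂ} {Φ ρ : ℂ → ℂ} (hK : Collar K Φ ρ) {h g : ℂ → ℂ}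
    {hj : ℕ → ℂ → ℂ} (H : LimData Ω K ρ h g hj) {x : ℂ} (hx : x ∈ Ω) {x0 : ℝ}
    (hg : g x = exp (I * x0)) (hb : x ∈ closure {y | y ∈ Ω ∧ g y ≠ g x}) {ε : ℝ} (hε : 0 < ε) :
    ∃ r0 > (0 : ℝ), ∀ r : ℝ, 0 < r → r < r0 →
      ∃ u : ℂ, 0 < u.im ∧ ‖u - x0‖ = r ∧ ‖Φ u - h x‖ < ε := by
  obtain ⟨hhc, hgc, -, -, -⟩ := limData_basic_thm hK H
  have hgx0 : g x ≠ 0 := by rw [hg]; exact Complex.exp_ne_zero _
  have hgx1 : ‖g x‖ = 1 := by
    rw [hg, Complex.norm_exp]
    simp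
  have e1 : ∀ᶠ z in 𝓝 x, ‖h z - h x‖ < ε / 2 := by
    have := (hhc.continuousAt (H.Oopen.mem_nhds hx)).tendsto
    rw [tendsto_iff_norm_sub_tendsto_zero] at this
    exact this.eventually_lt_const (by linarith)
  have e2 : ∀ᶠ z in 𝓝 x, ‖g z - g x‖ < 1 / 2 := by
    have := (hgc.continuousAt (H.Oopen.mem_nhds hx)).tendsto
    rw [tendsto_iff_norm_sub_tendsto_zero] at this
    exact this.eventually_lt_const (by norm_num)
  obtain ⟨s, hs, hsB⟩ := Metric.eventually_nhds_iff_ball.1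
    ((e1.and e2).and (H.Oopen.mem_nhds hx : ∀ᶠ z in 𝓝 x, z ∈ Ω))
  obtain ⟨y, ⟨hyO, hyg⟩, hyB⟩ := Metric.mem_closure_iff.1 hb s hs
  rw [dist_comm, ← mem_ball] at hyB
  -- the logarithm
  set lg : ℂ → ℂ := fun w => x0 - I * log (w / g x) with hlg
  have hslit : ∀ w : ℂ, ‖w - g x‖ < 1 → w / g x ∈ slitPlane := by
    intro w hw
    have h1 : w / g x - 1 = (w - g x) / g x := by field_simp
    have h2 : ‖w / g x - 1‖ < 1 := by
      rw [h1, norm_div, hgx1, div_one]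
      exact hw
    have h3 := Complex.mem_slitPlane_of_norm_lt_one h2
    rwa [add_sub_cancel] at h3
  have hlgexp : ∀ w : ℂ, w ≠ 0 → exp (I * lg w) = w := by
    intro w hw
    have h1 : I * lg w = I * x0 + log (w / g x) := by
      simp only [hlg]
      have := I_mul_I
      linear_combination (-log (w / g x)) * this
    rw [h1, Complex.exp_add, Complex.exp_log (div_ne_zero hw hgx0), ← hg]
    field_simp
  have hlgc : ∀ w : ℂ, ‖w - g x‖ < 1 → ContinuousAt lg w := by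
    intro w hw
    have h1 : ContinuousAt (fun w => w / g x) w := continuousAt_id.div_const _
    exact continuousAt_const.sub (continuousAt_const.mul (h1.clog (hslit w hw)))
  have hne : ∀ w : ℂ, ‖w - g x‖ < 1 → w ≠ 0 := by
    rintro w hw rfl
    rw [zero_sub, norm_neg, hgx1] at hw
    exact lt_irrefl _ hw
  have hlgx : lg (g x) = x0 := by
    simp only [hlg]
    rw [div_self hgx0, Complex.log_one, mul_zero, sub_zero]
  have hyB1 : ‖g y - g x‖ < 1 := by
    have := (hsB y hyB).1.2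
    linarith
  have hlgy : lg (g y) ≠ x0 := by
    intro h1
    have h2 := hlgexp (g y) (hne _ hyB1)
    rw [h1, ← hg] at h2
    exact hyg h2.symm
  refine ⟨‖lg (g y) - x0‖, norm_pos_iff.2 (sub_ne_zero.2 hlgy), fun r hr0 hr => ?_⟩
  have hsegB : segment ℝ x y ⊆ ball x s := (convex_ball x s).segment_subset (mem_ball_self hs) hyB
  have hsegO : segment ℝ x y ⊆ Ω := fun z hz => (hsB z (hsegB hz)).2
  have hsegc : IsCompact (segment ℝ x y) := by
    rw [segment_eq_image_lineMap]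
    exact isCompact_Icc.image AffineMap.lineMap_continuous
  have u1 := Metric.tendstoUniformlyOn_iff.1
    ((tendstoLocallyUniformlyOn_iff_forall_isCompact H.Oopen).1 H.lim _ hsegO hsegc) (ε / 2)
    (by linarith)
  have u2 := Metric.tendstoUniformlyOn_iff.1
    ((tendstoLocallyUniformlyOn_iff_forall_isCompact H.Oopen).1 H.glim _ hsegO hsegc) (1 / 2)
    (by norm_num)
  have l1 : Tendsto (fun j => ‖lg (ρ (hj j x)) - x0‖) atTop (𝓝 0) := by
    have h1 : Tendsto (fun j => lg (ρ (hj j x))) atTop (𝓝 (lg (g x))) :=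
      (hlgc (g x) (by simp)).tendsto.comp (H.glim.tendsto_at hx)
    rw [hlgx, tendsto_iff_norm_sub_tendsto_zero] at h1
    exact h1
  have l2 : Tendsto (fun j => ‖lg (ρ (hj j y)) - x0‖) atTop (𝓝 ‖lg (g y) - x0‖) :=
    (((hlgc (g y) hyB1).tendsto.comp (H.glim.tendsto_at hyO)).sub_const _).norm
  obtain ⟨j, ⟨⟨hj1, hj2⟩, hj3⟩, hj4⟩ := (((u1.and u2).and (l1.eventually_lt_const hr0)).and
    (l2.eventually_const_lt hr)).exists
  have hcl : ∀ z ∈ segment ℝ x y, ‖ρ (hj j z) - g x‖ < 1 := by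
    intro z hz
    have h1 := hj2 z hz
    rw [dist_comm, dist_eq_norm] at h1
    have h2 := (hsB z (hsegB hz)).1.2
    calc ‖ρ (hj j z) - g x‖ = ‖(ρ (hj j z) - g z) + (g z - g x)‖ := by ring_nf
      _ ≤ ‖ρ (hj j z) - g z‖ + ‖g z - g x‖ := norm_add_le _ _
      _ < 1 := by linarith
  have hcont : ContinuousOn (fun z => ‖lg (ρ (hj j z)) - x0‖) (segment ℝ x y) := by
    refine ContinuousOn.norm (ContinuousOn.sub ?_ continuousOn_const)
    intro z hz
    have h1 : ContinuousWithinAt (fun z => ρ (hj j z)) (segment ℝ x y) z :=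
      (hK.dRho.continuousOn.comp ((H.chj j).mono hsegO) (fun z hz => H.avoid j (hsegO hz))) z hz
    exact ContinuousAt.comp_continuousWithinAt (f := fun z => ρ (hj j z)) (g := lg)
      (hlgc _ (hcl z hz)) h1
  obtain ⟨z, hz, hzr⟩ := (convex_segment x y).isPreconnected.intermediate_value
    (left_mem_segment ℝ x y) (right_mem_segment ℝ x y) hcont ⟨hj3.le, hj4.le⟩
  have hzK := H.avoid j (hsegO hz)
  have hexp := hlgexp _ (hne _ (hcl z hz))
  have him : 0 < (lg (ρ (hj j z))).im := by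
    have h1 := hK.maps hzK
    rw [mem_ball_zero_iff, ← hexp, Complex.norm_exp] at h1
    have h2 : (I * lg (ρ (hj j z))).re = -(lg (ρ (hj j z))).im := by simp
    rw [h2, Real.exp_lt_one_iff] at h1
    linarith
  refine ⟨lg (ρ (hj j z)), him, hzr, ?_⟩
  rw [phi_of_rho hK hzK hexp him]
  have h1 := hj1 z hz
  rw [dist_comm, dist_eq_norm] at h1
  have h2 := (hsB z (hsegB hz)).1.1
  calc ‖hj j z - h x‖ = ‖(hj j z - h z) + (h z - h x)‖ := by ring_nf
    _ ≤ ‖hj j z - h z‖ + ‖h z - h x‖ := norm_add_le _ _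
    _ < ε := by linarith

theorem value_unique {Ω K : Set ℂ} {Φ ρ : ℂ → ℂ} (hK : Collar K Φ ρ) {h g : ℂ → ℂ}
    {hj : ℕ → ℂ → ℂ} (H : LimData Ω K ρ h g hj) {x y : ℂ} (hx : x ∈ Ω) (hy : y ∈ Ω)
    (h1 : ‖g x‖ = 1) (hxy : g x = g y) (bx : x ∈ closure {z | z ∈ Ω ∧ g z ≠ g x})
    (by' : y ∈ closure {z | z ∈ Ω ∧ g z ≠ g y}) : h x = h y := by
  by_contra hne
  have hgx : g x = exp (I * ((g x).arg : ℝ)) := by
    conv_lhs => rw [← Complex.norm_mul_exp_arg_mul_I (g x), h1, ofReal_one, one_mul, mul_comm]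
  have hpos : 0 < ‖h x - h y‖ / 8 := by
    have := norm_pos_iff.2 (sub_ne_zero.2 hne)
    linarith
  obtain ⟨r1, hr1, H1⟩ := cross_semi hK H hx hgx bx hpos
  obtain ⟨r2, hr2, H2⟩ := cross_semi hK H hy (x0 := (g x).arg) (by rw [← hxy]; exact hgx) by' hpos
  refine hne (semi_unique hK (x0 := (g x).arg) (lt_min hr1 hr2) fun r hr hr' => ⟨?_, ?_⟩)
  · exact H1 r hr (hr'.trans_le (min_le_left _ _))
  · exact H2 r hr (hr'.trans_le (min_le_right _ _))

end CF6

end

section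

/-!
# C9d: the normalised map (topological part)

DEFINITION. `bd ζ = {y | y ∈ Ω ∧ g y = ζ ∧ y ∈ closure {z | z ∈ Ω ∧ g z ≠ ζ}}`. For `x ∈ Ω` with `‖g x‖ = 1`, `bd (g x)` is nonempty: otherwise `Ω ∩ g⁻¹' {g x}` is open (each of its points has a
neighbourhood in `Ω` on which `g = g x`) and closed in the connected `Ω` (continuity), so it is `Ω`, contradicting `H.nonconst` (there `‖g‖ < 1`).
`p ζ = h (y)` for a chosen `y ∈ bd ζ` (`0` if empty); `ht x = if ‖g x‖ = 1 then p (g x) else h x`; `O = {x | x ∈ Ω ∧ ‖g x‖ = 1 ∧ ∀ᶠ y in 𝓝 x, g y = g x}`.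
* `Oopen`: `eventually_eventually_nhds`, `Ω` open. `Oconst`: clear. `eqh`: if `‖g x‖ ≠ 1` clear; otherwise `x ∉ O` means `x ∈ bd (g x)`, and `value_unique` gives `h x = p (g x)`.
* `fib`: clear. `fib'`: if `‖g x‖ = 1`, `ht x = h y` with `‖g y‖ = 1`, so `∈ K` (`limData_basic_thm`); otherwise `ht x = h x ∉ K`.
* `cont` at `x ∈ Ω`: `x ∈ O`: locally constant. `‖g x‖ < 1`: `ht = h` near `x`. Otherwise `ht x = h x`; for `ε > 0` take a ball `B = ball x s ⊆ Ω` with `‖h z - h x‖ < ε` on `B`. Let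
  `z ∈ B`. If `z ∉ O`, `ht z = h z`. If `z ∈ O`: the segment from `z` to `x` lies in `B`; if `g` is constant `= g z` on it then `g x = g z`, `ht z = p (g z) = p (g x) = ht x = h x`
  (`x ∉ O`, so `eqh`). Otherwise let `z'` be the last point of the segment (from `z`) such that `g = g z` on `[z, z']` (closed condition): `z' ∈ bd (g z)`, `ht z = p (g z) = h z'`, within `ε` of `h x`.
-/

open Complex MeasureTheory Set Filter Topology Metric

namespace CF6

/-- boundary points of the fibre of `g` over `ζ` -/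
private def c9d_bd (Ω : Set ℂ) (g : ℂ → ℂ) (ζ : ℂ) : Set ℂ :=
  {y | y ∈ Ω ∧ g y = ζ ∧ y ∈ closure {z | z ∈ Ω ∧ g z ≠ ζ}}

private lemma c9d_open {Ω : Set ℂ} {g : ℂ → ℂ} (hO : IsOpen Ω) (hg : ContinuousOn g Ω) (ζ : ℂ) :
    IsOpen {z | z ∈ Ω ∧ g z ≠ ζ} :=
  hg.isOpen_inter_preimage hO isOpen_ne

private lemma c9d_meet {Ω : Set ℂ} {g : ℂ → ℂ} (hO : IsOpen Ω) (hg : ContinuousOn g Ω) {ζ : ℂ}
    {S : Set ℂ} (hS : IsPreconnected S) (hSO : S ⊆ Ω) {z x : ℂ} (hz : z ∈ S) (hgz : g z = ζ)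
    (hx : x ∈ S) (hgx : g x ≠ ζ ∨ x ∈ c9d_bd Ω g ζ) : (S ∩ c9d_bd Ω g ζ).Nonempty := by
  rcases hgx with hgx | hgx
  · by_contra hne
    rw [not_nonempty_iff_eq_empty] at hne
    have hno : ∀ y ∈ S, g y = ζ → y ∉ closure {z | z ∈ Ω ∧ g z ≠ ζ} := by
      intro y hy hgy hcl
      have : y ∈ S ∩ c9d_bd Ω g ζ := ⟨hy, hSO hy, hgy, hcl⟩
      rw [hne] at this
      exact this
    have hcov : S ⊆ (closure {z | z ∈ Ω ∧ g z ≠ ζ})ᶜ ∪ {z | z ∈ Ω ∧ g z ≠ ζ} := by
      intro y hy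
      by_cases h : g y = ζ
      · exact Or.inl (hno y hy h)
      · exact Or.inr ⟨hSO hy, h⟩
    obtain ⟨w, hw, hw1, hw2⟩ := hS _ _ isClosed_closure.isOpen_compl (c9d_open hO hg ζ) hcov
      ⟨z, hz, hno z hz hgz⟩ ⟨x, hx, hSO hx, hgx⟩
    exact hw1 (subset_closure hw2)
  · exact ⟨x, hx, hgx⟩

theorem exists_normal_top {Ω K : Set ℂ} {Φ ρ : ℂ → ℂ} (hK : Collar K Φ ρ) {h g : ℂ → ℂ}
    {hj : ℕ → ℂ → ℂ} (H : LimData Ω K ρ h g hj) :
    ∃ (ht : ℂ → ℂ) (O : Set ℂ), Normal Ω K O h g ht := by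
  classical
  obtain ⟨ch, cg, gle, hKg, -⟩ := limData_basic_thm hK H
  have hne : ∀ x ∈ Ω, ‖g x‖ = 1 → (c9d_bd Ω g (g x)).Nonempty := by
    intro x hx h1
    obtain ⟨z, hz, hzK⟩ := H.nonconst
    have hgz : g z ≠ g x := by
      intro he
      apply hzK
      rw [hKg z hz, he, h1]
    obtain ⟨w, -, hw⟩ := c9d_meet H.Oopen cg H.Oconn.isPreconnected Subset.rfl hx rfl hz
      (Or.inl hgz)
    exact ⟨w, hw⟩
  have hun : ∀ ζ : ℂ, ‖ζ‖ = 1 → ∀ x ∈ c9d_bd Ω g ζ, ∀ y ∈ c9d_bd Ω g ζ, h x = h y := by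
    intro ζ hζ x hx y hy
    refine value_unique hK H hx.1 hy.1 (by rw [hx.2.1]; exact hζ) (by rw [hx.2.1, hy.2.1]) ?_ ?_
    · rw [hx.2.1]; exact hx.2.2
    · rw [hy.2.1]; exact hy.2.2
  set p : ℂ → ℂ := fun ζ => if hz : (c9d_bd Ω g ζ).Nonempty then h hz.some else 0 with hp
  have hpv : ∀ ζ : ℂ, ‖ζ‖ = 1 → ∀ y ∈ c9d_bd Ω g ζ, p ζ = h y := by
    intro ζ hζ y hy
    have hz : (c9d_bd Ω g ζ).Nonempty := ⟨y, hy⟩
    simp only [hp, hz, dif_pos]
    exact hun ζ hζ _ hz.some_mem _ hy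
  set ht : ℂ → ℂ := fun x => if ‖g x‖ = 1 then p (g x) else h x with hht
  set O : Set ℂ := {x | x ∈ Ω ∧ ‖g x‖ = 1 ∧ ∀ᶠ y in 𝓝 x, g y = g x} with hO
  have htp : ∀ x, ‖g x‖ = 1 → ht x = p (g x) := by
    intro x hx; simp only [hht, hx, if_true]
  have hth : ∀ x, ‖g x‖ ≠ 1 → ht x = h x := by
    intro x hx; simp only [hht, hx, if_false]
  have hbd : ∀ x ∈ Ω, x ∉ O → ‖g x‖ = 1 → x ∈ c9d_bd Ω g (g x) := by
    intro x hx hxO h1
    refine ⟨hx, rfl, ?_⟩
    have h2 : ∃ᶠ y in 𝓝 x, g y ≠ g x := by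
      intro h3
      apply hxO
      refine ⟨hx, h1, ?_⟩
      filter_upwards [h3] with y hy
      by_contra h4
      exact hy h4
    rw [mem_closure_iff_frequently]
    exact (h2.and_eventually (H.Oopen.mem_nhds hx)).mono fun y hy => ⟨hy.2, hy.1⟩
  have heq : ∀ x ∈ Ω, x ∉ O → ht x = h x := by
    intro x hx hxO
    by_cases h1 : ‖g x‖ = 1
    · rw [htp x h1]
      exact hpv _ h1 x (hbd x hx hxO h1)
    · exact hth x h1
  refine ⟨ht, O, ?_, ?_, ?_, ?_, ?_, ?_, ?_, ?_⟩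
  · rw [isOpen_iff_mem_nhds]
    intro x hx
    have h1 := hx.2.2.eventually_nhds
    filter_upwards [h1, H.Oopen.mem_nhds hx.1] with y hy hyO
    have h2 : g y = g x := hy.self_of_nhds
    refine ⟨hyO, by rw [h2]; exact hx.2.1, ?_⟩
    filter_upwards [hy] with z hz
    rw [hz, h2]
  · exact fun x hx => hx.1
  · exact fun x hx => hx.2.1
  · intro x hx
    filter_upwards [hx.2.2] with y hy
    refine ⟨hy, ?_⟩
    rw [htp x hx.2.1, htp y (by rw [hy]; exact hx.2.1), hy]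
  · exact heq
  · -- continuity
    refine fun x hx => ContinuousAt.continuousWithinAt ?_
    by_cases hxO : x ∈ O
    · have : ht =ᶠ[𝓝 x] fun _ => ht x := by
        filter_upwards [hxO.2.2] with y hy
        rw [htp x hxO.2.1, htp y (by rw [hy]; exact hxO.2.1), hy]
      exact continuousAt_const.congr this.symm
    · rw [Metric.continuousAt_iff]
      intro ε hε
      have hcx : ContinuousAt h x := ch.continuousAt (H.Oopen.mem_nhds hx)
      obtain ⟨s1, hs1, hb1⟩ := Metric.continuousAt_iff.1 hcx ε hε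
      obtain ⟨s2, hs2, hb2⟩ := Metric.isOpen_iff.1 H.Oopen x hx
      refine ⟨min s1 s2, lt_min hs1 hs2, ?_⟩
      intro z hz
      rw [heq x hx hxO]
      have hzΩ : z ∈ Ω := hb2 (lt_of_lt_of_le hz (min_le_right _ _))
      by_cases hzO : z ∈ O
      · have hseg : segment ℝ z x ⊆ ball x (min s1 s2) :=
          (convex_ball x _).segment_subset hz (mem_ball_self (lt_min hs1 hs2))
        have hsegO : segment ℝ z x ⊆ Ω := fun w hw =>
          hb2 (ball_subset_ball (min_le_right _ _) (hseg hw))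
        have hor : g x ≠ g z ∨ x ∈ c9d_bd Ω g (g z) := by
          by_cases he : g x = g z
          · right
            rw [← he]
            exact hbd x hx hxO (by rw [he]; exact hzO.2.1)
          · exact Or.inl he
        obtain ⟨w, hw, hw'⟩ := c9d_meet H.Oopen cg (convex_segment z x).isPreconnected hsegO
          (left_mem_segment ℝ z x) rfl (right_mem_segment ℝ z x) hor
        rw [htp z hzO.2.1, hpv _ hzO.2.1 w hw']
        exact hb1 (ball_subset_ball (min_le_left _ _) (hseg hw))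
      · rw [heq z hzΩ hzO]
        exact hb1 (lt_of_lt_of_le hz (min_le_left _ _))
  · intro x hx y hy h1 hxy
    rw [htp x h1, htp y (by rw [← hxy]; exact h1), hxy]
  · intro x hx
    by_cases h1 : ‖g x‖ = 1
    · refine ⟨fun _ => h1, fun _ => ?_⟩
      obtain ⟨y, hy⟩ := hne x hx h1
      rw [htp x h1, hpv _ h1 y hy, hKg y hy.1, hy.2.1]
      exact h1
    · rw [hth x h1]
      exact hKg x hx

end CF6

end

section

/-!
# C9e: the normalised map is in `ACL2`

PROOF. `ht, O` from `exists_normal_top`. `mx, my`: indicator of the measurable `Oᶜ` (`O` open). `fin`: the integrand is smaller. `hor`: for a.e. `y` (those of `ha.hor`) and `a ≤ b` with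
`{(t,y) : t ∈ [a,b]} ⊆ Ω`: `hidden_acl` with `f t = hx ⟨t,y⟩`, `F t = h ⟨t,y⟩`, `G t = ht ⟨t,y⟩`, `O' = {t | ⟨t,y⟩ ∈ O}` (open; preimage under the continuous `t ↦ ⟨t,y⟩`).
`hF` for subintervals `[x,y'] ⊆ [a,b]` from `ha.hor`. `indicator O'ᶜ f t = indicator Oᶜ hx ⟨t,y⟩`. `ver` in the same way.
-/

open Complex MeasureTheory Set Filter Topology Metric

namespace CF6

theorem exists_normal_thm {Ω K : Set ℂ} {Φ ρ : ℂ → ℂ} (hK : Collar K Φ ρ) {h g : ℂ → ℂ}
    {hj : ℕ → ℂ → ℂ} (H : LimData Ω K ρ h g hj) (hx hy : ℂ → ℂ) (ha : ACL2 Ω h hx hy) :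
    ∃ (ht : ℂ → ℂ) (O : Set ℂ), Normal Ω K O h g ht ∧
      ACL2 Ω ht (indicator Oᶜ hx) (indicator Oᶜ hy) := by
  obtain ⟨ht, O, N⟩ := exists_normal_top hK H
  refine ⟨ht, O, N, ?_⟩
  have hOm : MeasurableSet Oᶜ := N.Oopen.measurableSet.compl
  constructor
  · exact N.cont
  · exact ha.mx.indicator hOm
  · exact ha.my.indicator hOm
  · refine lt_of_le_of_lt (lintegral_mono ?_) ha.fin
    intro z
    have e1 : ‖indicator Oᶜ hx z‖ₑ ≤ ‖hx z‖ₑ := by
      by_cases hz : z ∈ Oᶜ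
      · rw [indicator_of_mem hz]
      · rw [indicator_of_notMem hz]; simp
    have e2 : ‖indicator Oᶜ hy z‖ₑ ≤ ‖hy z‖ₑ := by
      by_cases hz : z ∈ Oᶜ
      · rw [indicator_of_mem hz]
      · rw [indicator_of_notMem hz]; simp
    exact add_le_add (pow_le_pow_left₀ zero_le e1 2) (pow_le_pow_left₀ zero_le e2 2)
  · filter_upwards [ha.hor] with y hyy a b hab hin
    have hcont : Continuous (fun t : ℝ => (⟨t, y⟩ : ℂ)) := by
      have : (fun t : ℝ => (⟨t, y⟩ : ℂ)) = fun t : ℝ => (t : ℂ) + y * I := by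
        funext t; apply Complex.ext <;> simp
      rw [this]; fun_prop
    exact hidden_acl (f := fun t => hx ⟨t, y⟩) (F := fun t => h ⟨t, y⟩)
      (G := fun t => ht ⟨t, y⟩) (O := {t : ℝ | (⟨t, y⟩ : ℂ) ∈ O}) hab
      (N.Oopen.preimage hcont) (hyy a b hab hin).1
      (fun x hx' y' hy' hle =>
        (hyy x y' hle (fun t ht' => hin t ⟨hx'.1.trans ht'.1, ht'.2.trans hy'.2⟩)).2)
      (N.cont.comp hcont.continuousOn (fun t ht' => hin t ht'))
      (fun x hx' hxO => N.eqh _ (hin x hx') hxO)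
      (fun x hx' hxO => by
        have h1 := N.Oconst _ hxO
        have h2 := hcont.continuousAt.eventually h1
        filter_upwards [h2] with t ht' _
        exact ht'.2)
  · filter_upwards [ha.ver] with x hxx a b hab hin
    have hcont : Continuous (fun t : ℝ => (⟨x, t⟩ : ℂ)) := by
      have : (fun t : ℝ => (⟨x, t⟩ : ℂ)) = fun t : ℝ => (x : ℂ) + t * I := by
        funext t; apply Complex.ext <;> simp
      rw [this]; fun_prop
    exact hidden_acl (f := fun t => hy ⟨x, t⟩) (F := fun t => h ⟨x, t⟩)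
      (G := fun t => ht ⟨x, t⟩) (O := {t : ℝ | (⟨x, t⟩ : ℂ) ∈ O}) hab
      (N.Oopen.preimage hcont) (hxx a b hab hin).1
      (fun x' hx' y' hy' hle =>
        (hxx x' y' hle (fun t ht' => hin t ⟨hx'.1.trans ht'.1, ht'.2.trans hy'.2⟩)).2)
      (N.cont.comp hcont.continuousOn (fun t ht' => hin t ht'))
      (fun x' hx' hxO => N.eqh _ (hin x' hx') hxO)
      (fun x' hx' hxO => by
        have h1 := N.Oconst _ hxO
        have h2 := hcont.continuousAt.eventually h1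
        filter_upwards [h2] with t ht' _
        exact ht'.2)

end CF6

end
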