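import Pool.Agent.Lib.MP_cf6b16_an.Defs

section

/-!
# Module D, second half: isogonality from a free sector (helper68)

Everything is stated for the rescaled functions at a boundary point `x`.
Coordinates: `Φ : UHP → Kᶜ`, `U` the local inverse of `Φ` near `x` in the coordinate `w ↦ p + e w`.
-/

open Complex MeasureTheory Set Filter Topology Metric

namespace CF6

/-- Cayley transform, upper half plane to the disc -/
noncomputable def cay (Z : ℂ) : ℂ := (Z - I) / (Z + I)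

/-- inverse Cayley transform -/
noncomputable def icay (ξ : ℂ) : ℂ := I * (1 + ξ) / (1 - ξ)

/-- closed hyperbolic discs about `I` -/
def HD (R : ℝ) : Set ℂ := {Z | 0 < Z.im ∧ ‖cay Z‖ ≤ R}

/-- the input of the rescaling argument -/
structure Sector (K : Set ℂ) (Φ U : ℂ → ℂ) (x : ℝ) (p e : ℂ) (C0 y1 : ℝ) : Prop where
  he : ‖e‖ = 1
  hp : p ∈ K
  C0pos : 0 < C0
  y1pos : 0 < y1
  dPhi : DifferentiableOn ℂ Φ UHP
  mem : ∀ u ∈ UHP, Φ u ∉ K
  koebe : ∀ u : ℂ, 0 < u.im → u.im ≤ y1 → ∀ k ∈ K, ‖deriv Φ u‖ * u.im ≤ C0 * ‖Φ u - k‖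
  free : ∀ η > (0 : ℝ), ∃ r > (0 : ℝ), ∀ w : ℂ, ‖w‖ < r → η * ‖w‖ < w.im → p + e * w ∉ K
  dense : ∀ η > (0 : ℝ), ∃ r > (0 : ℝ), ∀ s : ℝ, 0 < s → s < r → ∀ t : ℝ, |t| ≤ s →
    ∃ k ∈ K, ‖p + e * t - k‖ ≤ η * s
  Udiff : ∀ η > (0 : ℝ), ∃ r > (0 : ℝ), ∀ w : ℂ, ‖w‖ < r → η * ‖w‖ < w.im →
    DifferentiableAt ℂ U w ∧ 0 < (U w).im ∧ Φ (U w) = p + e * w
  Ulim : ∀ η > (0 : ℝ), Tendsto U (𝓝[{w : ℂ | η * ‖w‖ < w.im}] 0) (𝓝 (x : ℂ))
  Uinv : ∃ r > (0 : ℝ), ∀ u : ℂ, 0 < u.im → ‖u - x‖ < r → ∀ w : ℂ, Φ u = p + e * w → U w = u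

/-- scales -/
noncomputable def scl (r0 : ℝ) (m : ℕ) : ℝ := r0 * (1 / 4) ^ m

/-- `q_m = -1/(U(i r_m) - x)`, a point of the half plane tending to infinity -/
noncomputable def qm (U : ℂ → ℂ) (x r0 : ℝ) (m : ℕ) : ℂ := -1 / (U (I * scl r0 m) - x)

/-- the automorphism `B_m(Z) = x - 1/(Re q_m + Im q_m Z)` of the half plane -/
noncomputable def Bm (U : ℂ → ℂ) (x r0 : ℝ) (m : ℕ) (Z : ℂ) : ℂ :=
  x - 1 / ((qm U x r0 m).re + (qm U x r0 m).im * Z)

/-- `f_m = (Φ ∘ B_m - p)/(e r_m)` -/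
noncomputable def fm (Φ U : ℂ → ℂ) (x : ℝ) (p e : ℂ) (r0 : ℝ) (m : ℕ) (Z : ℂ) : ℂ :=
  (Φ (Bm U x r0 m Z) - p) / (e * scl r0 m)

/-- `h_m`, the inverse of `f_m` -/
noncomputable def hm (U : ℂ → ℂ) (x r0 : ℝ) (m : ℕ) (w : ℂ) : ℂ :=
  (-1 / (U (scl r0 m * w) - x) - (qm U x r0 m).re) / (qm U x r0 m).im

end CF6

end

section

open Complex MeasureTheory Set Filter Topology Metric

namespace CF6

/-- D2.a (about 60 lines, pure algebra) -/
theorem cay_facts :
    (∀ Z : ℂ, 0 < Z.im → ‖cay Z‖ < 1 ∧ icay (cay Z) = Z) ∧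
    (∀ ξ : ℂ, ‖ξ‖ < 1 → 0 < (icay ξ).im ∧ cay (icay ξ) = ξ) ∧
    (∀ ξ : ℂ, ‖ξ‖ < 1 → (icay ξ).im = (1 - ‖ξ‖ ^ 2) / ‖1 - ξ‖ ^ 2) ∧
    (∀ Z : ℂ, 0 < Z.im → HasDerivAt cay (2 * I / (Z + I) ^ 2) Z) ∧
    (∀ ξ : ℂ, ‖ξ‖ < 1 → HasDerivAt icay (2 * I / (1 - ξ) ^ 2) ξ) ∧
    cay I = 0 ∧ icay 0 = I := by
  have hZI : ∀ Z : ℂ, 0 < Z.im → Z + I ≠ 0 := by
    intro Z hZ h
    have h1 := congrArg Complex.im h
    simp at h1
    linarith
  have hxi : ∀ ξ : ℂ, ‖ξ‖ < 1 → 1 - ξ ≠ 0 := by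
    intro ξ hξ h
    have h1 : ξ = 1 := (sub_eq_zero.1 h).symm
    rw [h1, norm_one] at hξ
    exact lt_irrefl _ hξ
  have him : ∀ ξ : ℂ, ‖ξ‖ < 1 → (icay ξ).im = (1 - ‖ξ‖ ^ 2) / ‖1 - ξ‖ ^ 2 := by
    intro ξ hξ
    unfold icay
    rw [Complex.div_im, Complex.sq_norm, Complex.sq_norm, ← sub_div]
    congr 1
    rw [Complex.normSq_apply]
    simp
    ring
  have hpos : ∀ ξ : ℂ, ‖ξ‖ < 1 → 0 < (icay ξ).im := by
    intro ξ hξ
    rw [him ξ hξ]
    have h1 : 0 < ‖1 - ξ‖ := norm_pos_iff.2 (hxi ξ hξ)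
    have h2 : ‖ξ‖ ^ 2 < 1 := by
      rw [sq_lt_one_iff₀ (norm_nonneg _)]
      exact hξ
    exact div_pos (by linarith) (by positivity)
  refine ⟨?_, ?_, him, ?_, ?_, ?_, ?_⟩
  · intro Z hZ
    have h1 := hZI Z hZ
    constructor
    · unfold cay
      rw [norm_div, div_lt_one (norm_pos_iff.2 h1)]
      rw [← sq_lt_sq₀ (norm_nonneg _) (norm_nonneg _), Complex.sq_norm, Complex.sq_norm,
        Complex.normSq_apply, Complex.normSq_apply]
      simp
      nlinarith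
    · unfold icay cay
      have h2 : 1 + (Z - I) / (Z + I) = 2 * Z / (Z + I) := by
        field_simp
        ring
      have h3 : 1 - (Z - I) / (Z + I) = 2 * I / (Z + I) := by
        field_simp
        ring
      rw [h2, h3]
      field_simp
  · intro ξ hξ
    refine ⟨hpos ξ hξ, ?_⟩
    have h1 := hxi ξ hξ
    unfold icay cay
    have h2 : I * (1 + ξ) / (1 - ξ) - I = 2 * I * ξ / (1 - ξ) := by
      field_simp
      ring
    have h3 : I * (1 + ξ) / (1 - ξ) + I = 2 * I / (1 - ξ) := by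
      field_simp
      ring
    rw [h2, h3]
    field_simp
  · intro Z hZ
    have h1 := hZI Z hZ
    have h2 : HasDerivAt (fun z : ℂ => (z - I) / (z + I))
        ((1 * (Z + I) - (Z - I) * 1) / (Z + I) ^ 2) Z :=
      ((hasDerivAt_id Z).sub_const I).div ((hasDerivAt_id Z).add_const I) h1
    have h3 : (1 * (Z + I) - (Z - I) * 1) / (Z + I) ^ 2 = 2 * I / (Z + I) ^ 2 := by
      congr 1
      ring
    rw [h3] at h2
    exact h2
  · intro ξ hξ
    have h1 := hxi ξ hξ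
    have h2 : HasDerivAt (fun z : ℂ => I * (1 + z) / (1 - z))
        ((I * 1 * (1 - ξ) - I * (1 + ξ) * (-1)) / (1 - ξ) ^ 2) ξ := by
      have h4 : HasDerivAt (fun z : ℂ => I * (1 + z)) (I * 1) ξ :=
        ((hasDerivAt_id ξ).const_add 1).const_mul I
      have h5 : HasDerivAt (fun z : ℂ => 1 - z) (-1) ξ := (hasDerivAt_id ξ).const_sub 1
      exact h4.div h5 h1
    have h3 : (I * 1 * (1 - ξ) - I * (1 + ξ) * (-1)) / (1 - ξ) ^ 2 = 2 * I / (1 - ξ) ^ 2 := by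
      congr 1
      ring
    rw [h3] at h2
    exact h2
  · unfold cay
    simp
  · unfold icay
    simp

end CF6

end

section

open Complex MeasureTheory Set Filter Topology Metric

namespace CF6

/-- hyperbolic discs are Euclidean discs -/
theorem d2b_eq (R : ℝ) (h0 : 0 ≤ R) (h1 : R < 1) :
    HD R = closedBall ((((1 + R ^ 2) / (1 - R ^ 2) : ℝ) : ℂ) * I) (2 * R / (1 - R ^ 2)) := by
  have hR2 : 0 < 1 - R ^ 2 := by nlinarith
  have hρ : 0 ≤ 2 * R / (1 - R ^ 2) := by positivity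
  have hcρ : 0 < (1 + R ^ 2) / (1 - R ^ 2) - 2 * R / (1 - R ^ 2) := by
    rw [← sub_div]
    apply div_pos _ hR2
    nlinarith [mul_pos (sub_pos.2 h1) (sub_pos.2 h1)]
  have hsq : ((1 + R ^ 2) / (1 - R ^ 2)) ^ 2 - (2 * R / (1 - R ^ 2)) ^ 2 = 1 := by
    field_simp
    ring
  set c : ℝ := (1 + R ^ 2) / (1 - R ^ 2) with hc
  set ρ : ℝ := 2 * R / (1 - R ^ 2) with hρd
  have hc1 : c * (1 - R ^ 2) = 1 + R ^ 2 := by rw [hc]; field_simp
  ext Z
  have hball : Z ∈ closedBall ((c : ℂ) * I) ρ ↔ Z.re ^ 2 + (Z.im - c) ^ 2 ≤ ρ ^ 2 := by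
    rw [mem_closedBall, dist_eq_norm, ← sq_le_sq₀ (norm_nonneg _) hρ,
      ← Complex.normSq_eq_norm_sq, Complex.normSq_apply]
    simp
    constructor <;> intro h <;> nlinarith
  rw [hball]
  have hHD : Z ∈ HD R ↔ 0 < Z.im ∧
      Z.re ^ 2 + (Z.im - 1) ^ 2 ≤ R ^ 2 * (Z.re ^ 2 + (Z.im + 1) ^ 2) := by
    constructor
    · rintro ⟨h2, h3⟩
      refine ⟨h2, ?_⟩
      have h4 : Z + I ≠ 0 := by
        intro h
        have h5 := congrArg Complex.im h
        simp at h5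
        linarith
      rw [cay, norm_div, div_le_iff₀ (norm_pos_iff.2 h4)] at h3
      have h5 := pow_le_pow_left₀ (norm_nonneg _) h3 2
      rw [mul_pow, ← Complex.normSq_eq_norm_sq, ← Complex.normSq_eq_norm_sq,
        Complex.normSq_apply, Complex.normSq_apply] at h5
      simp at h5
      nlinarith
    · rintro ⟨h2, h3⟩
      refine ⟨h2, ?_⟩
      have h4 : Z + I ≠ 0 := by
        intro h
        have h5 := congrArg Complex.im h
        simp at h5
        linarith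
      rw [cay, norm_div, div_le_iff₀ (norm_pos_iff.2 h4),
        ← sq_le_sq₀ (norm_nonneg _) (by positivity),
        mul_pow, ← Complex.normSq_eq_norm_sq, ← Complex.normSq_eq_norm_sq,
        Complex.normSq_apply, Complex.normSq_apply]
      simp
      nlinarith
  rw [hHD]
  have hkey : Z.re ^ 2 + (Z.im - c) ^ 2 - ρ ^ 2 = Z.re ^ 2 + Z.im ^ 2 + 1 - 2 * c * Z.im := by
    linear_combination hsq
  have hkey2 : Z.re ^ 2 + (Z.im - 1) ^ 2 - R ^ 2 * (Z.re ^ 2 + (Z.im + 1) ^ 2) =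
      (1 - R ^ 2) * (Z.re ^ 2 + Z.im ^ 2 + 1 - 2 * c * Z.im) := by
    linear_combination (2 * Z.im) * hc1
  constructor
  · rintro ⟨_, h3⟩
    have h4 : (1 - R ^ 2) * (Z.re ^ 2 + Z.im ^ 2 + 1 - 2 * c * Z.im) ≤ 0 := by
      rw [← hkey2]; linarith
    have h5 : Z.re ^ 2 + Z.im ^ 2 + 1 - 2 * c * Z.im ≤ 0 := by
      by_contra h6
      push Not at h6
      have := mul_pos hR2 h6
      linarith
    linarith
  · intro h3
    have h5 : Z.re ^ 2 + Z.im ^ 2 + 1 - 2 * c * Z.im ≤ 0 := by linarith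
    have h6 : (Z.im - c) ^ 2 ≤ ρ ^ 2 := by nlinarith [sq_nonneg Z.re]
    have h7 := abs_le_of_sq_le_sq h6 hρ
    rw [abs_le] at h7
    refine ⟨by linarith [h7.1], ?_⟩
    have h8 : (1 - R ^ 2) * (Z.re ^ 2 + Z.im ^ 2 + 1 - 2 * c * Z.im) ≤ 0 :=
      mul_nonpos_of_nonneg_of_nonpos hR2.le h5
    linarith

/-- D2.b (about 60 lines). `HD R` is convex (a Euclidean disc), compact, and its points have height
and modulus bounded from above and below; conversely cones truncated to `1 ≤ |Z| ≤ 8` lie in some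
`HD R`. -/
theorem HD_facts (R : ℝ) (h0 : 0 ≤ R) (h1 : R < 1) :
    IsCompact (HD R) ∧ Convex ℝ (HD R) ∧ I ∈ HD R ∧
      (∀ Z ∈ HD R, (1 - R) / (1 + R) ≤ Z.im ∧ ‖Z‖ ≤ (1 + R) / (1 - R)) := by
  have hR2 : 0 < 1 - R ^ 2 := by nlinarith
  have heq := d2b_eq R h0 h1
  refine ⟨?_, ?_, ⟨?_, ?_⟩, ?_⟩
  · rw [heq]; exact isCompact_closedBall _ _
  · rw [heq]; exact convex_closedBall _ _
  · simp
  · rw [cay, sub_self, zero_div, norm_zero]; exact h0
  · intro Z hZ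
    rw [heq, mem_closedBall, dist_eq_norm] at hZ
    have hR1 : 0 < 1 - R := by linarith
    have hR1' : 0 < 1 + R := by linarith
    have hf : 1 - R ^ 2 = (1 - R) * (1 + R) := by ring
    have h3 : (1 + R ^ 2) / (1 - R ^ 2) - 2 * R / (1 - R ^ 2) = (1 - R) / (1 + R) := by
      rw [hf]; field_simp; ring
    have h4 : (1 + R ^ 2) / (1 - R ^ 2) + 2 * R / (1 - R ^ 2) = (1 + R) / (1 - R) := by
      rw [hf]; field_simp; ring
    constructor
    · have h5 := (Complex.abs_im_le_norm _).trans hZ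
      simp only [Complex.sub_im, Complex.mul_im, Complex.ofReal_re, Complex.I_im, mul_one,
        Complex.ofReal_im, Complex.I_re, mul_zero, add_zero] at h5
      rw [abs_le] at h5
      linarith [h5.1]
    · have h6 : ‖Z‖ ≤ ‖Z - (((1 + R ^ 2) / (1 - R ^ 2) : ℝ) : ℂ) * I‖ +
          ‖(((1 + R ^ 2) / (1 - R ^ 2) : ℝ) : ℂ) * I‖ := by
        calc ‖Z‖ = ‖(Z - (((1 + R ^ 2) / (1 - R ^ 2) : ℝ) : ℂ) * I) +
            (((1 + R ^ 2) / (1 - R ^ 2) : ℝ) : ℂ) * I‖ := by congr 1; ring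
          _ ≤ _ := norm_add_le _ _
      have h7 : ‖(((1 + R ^ 2) / (1 - R ^ 2) : ℝ) : ℂ) * I‖ = (1 + R ^ 2) / (1 - R ^ 2) := by
        rw [norm_mul, Complex.norm_I, mul_one, Complex.norm_real, Real.norm_of_nonneg]
        positivity
      rw [h7] at h6
      linarith

end CF6

end

section

open Complex MeasureTheory Set Filter Topology Metric

namespace CF6

/-- D2.c (about 40 lines) -/
theorem mem_HD_of_bounds (a b : ℝ) (ha : 0 < a) (hb : 0 < b) :
    ∃ R : ℝ, 0 ≤ R ∧ R < 1 ∧ ∀ Z : ℂ, a ≤ Z.im → ‖Z‖ ≤ b → Z ∈ HD R := by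
  refine ⟨Real.sqrt (max (1 - 4 * a / (b + 1) ^ 2) 0), Real.sqrt_nonneg _, ?_, ?_⟩
  · have h1 : max (1 - 4 * a / (b + 1) ^ 2) 0 < 1 := by
      refine max_lt ?_ one_pos
      have : 0 < 4 * a / (b + 1) ^ 2 := by positivity
      linarith
    calc Real.sqrt (max (1 - 4 * a / (b + 1) ^ 2) 0) < Real.sqrt 1 :=
          Real.sqrt_lt_sqrt (le_max_right _ _) h1
      _ = 1 := Real.sqrt_one
  · intro Z hZ hZb
    have hZim : 0 < Z.im := lt_of_lt_of_le ha hZ
    refine ⟨hZim, ?_⟩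
    have h1 : Z + I ≠ 0 := by
      intro h
      have h1 := congrArg Complex.im h
      simp at h1
      linarith
    have h2 : 0 < ‖Z + I‖ := norm_pos_iff.2 h1
    have h3 : ‖Z + I‖ ≤ b + 1 := by
      calc ‖Z + I‖ ≤ ‖Z‖ + ‖I‖ := norm_add_le _ _
        _ ≤ b + 1 := by rw [Complex.norm_I]; linarith
    have h4 : ‖cay Z‖ ^ 2 = 1 - 4 * Z.im / ‖Z + I‖ ^ 2 := by
      unfold cay
      rw [norm_div, div_pow]
      have h5 : ‖Z - I‖ ^ 2 = ‖Z + I‖ ^ 2 - 4 * Z.im := by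
        rw [Complex.sq_norm, Complex.sq_norm, Complex.normSq_apply, Complex.normSq_apply]
        simp
        ring
      rw [h5]
      field_simp
    refine Real.le_sqrt_of_sq_le ?_
    rw [h4]
    refine le_trans ?_ (le_max_left _ _)
    have h5 : ‖Z + I‖ ^ 2 ≤ (b + 1) ^ 2 := pow_le_pow_left₀ h2.le h3 2
    have h6 : 4 * a / (b + 1) ^ 2 ≤ 4 * Z.im / ‖Z + I‖ ^ 2 := by
      refine div_le_div₀ (by positivity) (by linarith) (by positivity) h5
    linarith

end CF6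

end

section

open Complex MeasureTheory Set Filter Topology Metric

namespace CF6

/-- D2.1 (about 60 lines) choice of `r0`: all `U(i r_m)` are defined and `q_m → ∞` in the half plane. -/
theorem exists_r0 {K : Set ℂ} {Φ U : ℂ → ℂ} {x : ℝ} {p e : ℂ} {C0 y1 : ℝ}
    (S : Sector K Φ U x p e C0 y1) :
    ∃ r0 > (0 : ℝ), (∀ m, 0 < (qm U x r0 m).im) ∧
      Tendsto (fun m => ‖qm U x r0 m‖) atTop atTop := by
  obtain ⟨r, hr, hU⟩ := S.Udiff (1 / 2) (by norm_num)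
  have hpos : ∀ m : ℕ, 0 < scl (r / 2) m := by
    intro m
    unfold scl
    positivity
  have hle : ∀ m : ℕ, scl (r / 2) m < r := by
    intro m
    unfold scl
    have h1 : ((1 : ℝ) / 4) ^ m ≤ 1 := pow_le_one₀ (by norm_num) (by norm_num)
    nlinarith
  have hnorm : ∀ m : ℕ, ‖I * (scl (r / 2) m : ℂ)‖ = scl (r / 2) m := by
    intro m
    rw [norm_mul, Complex.norm_I, one_mul, Complex.norm_real, Real.norm_of_nonneg (hpos m).le]
  have him : ∀ m : ℕ, (I * (scl (r / 2) m : ℂ)).im = scl (r / 2) m := by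
    intro m
    simp
  have hcone : ∀ m : ℕ, 1 / 2 * ‖I * (scl (r / 2) m : ℂ)‖ < (I * (scl (r / 2) m : ℂ)).im := by
    intro m
    rw [hnorm, him]
    linarith [hpos m]
  have hUim : ∀ m : ℕ, 0 < (U (I * (scl (r / 2) m : ℂ)) - x).im := by
    intro m
    have h1 := (hU (I * (scl (r / 2) m : ℂ)) (by rw [hnorm]; exact hle m) (hcone m)).2.1
    simpa using h1
  refine ⟨r / 2, by linarith, ?_, ?_⟩
  · intro m
    unfold qm
    have h1 := hUim m
    have h2 : (U (I * (scl (r / 2) m : ℂ)) - x) ≠ 0 := by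
      intro h3
      rw [h3] at h1
      simp at h1
    rw [neg_div, Complex.neg_im, one_div, Complex.inv_im, neg_div, neg_neg]
    exact div_pos h1 (Complex.normSq_pos.2 h2)
  · have h1 : Tendsto (fun m : ℕ => I * (scl (r / 2) m : ℂ)) atTop
        (𝓝[{w : ℂ | 1 / 2 * ‖w‖ < w.im}] 0) := by
      rw [tendsto_nhdsWithin_iff]
      refine ⟨?_, Eventually.of_forall hcone⟩
      have h2 : Tendsto (fun m : ℕ => scl (r / 2) m) atTop (𝓝 0) := by
        unfold scl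
        have := (tendsto_pow_atTop_nhds_zero_of_lt_one (r := (1 / 4 : ℝ)) (by norm_num)
          (by norm_num)).const_mul (r / 2)
        simpa using this
      rw [tendsto_zero_iff_norm_tendsto_zero]
      exact h2.congr (fun m => (hnorm m).symm)
    have h2 := (S.Ulim (1 / 2) (by norm_num)).comp h1
    have h3 : Tendsto (fun m : ℕ => ‖U (I * (scl (r / 2) m : ℂ)) - x‖) atTop (𝓝 0) := by
      have h4 := (h2.sub_const (x : ℂ)).norm
      simpa [Function.comp_def] using h4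
    have h4 : Tendsto (fun m : ℕ => ‖U (I * (scl (r / 2) m : ℂ)) - x‖) atTop (𝓝[>] 0) := by
      rw [tendsto_nhdsWithin_iff]
      refine ⟨h3, Eventually.of_forall (fun m => ?_)⟩
      have h5 := hUim m
      refine norm_pos_iff.2 (fun h6 => ?_)
      rw [h6] at h5
      simp at h5
    refine (tendsto_inv_nhdsGT_zero.comp h4).congr (fun m => ?_)
    unfold qm
    rw [Function.comp_apply, norm_div, norm_neg, norm_one, one_div]

end CF6

end

section

open Complex MeasureTheory Set Filter Topology Metric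

namespace CF6

/-- D2.2 (about 100 lines). For `q → ∞` in the half plane and `Z ∈ HD R`: `|Re q + Im q Z| ≥ c_R |q|`
(if `|Re q| ≤ A Im q` then `≥ Im q · Im Z`, else `≥ |Re q| - Im q |Z| ≥ |Re q|/2`). -/
theorem Bm_facts {K : Set ℂ} {Φ U : ℂ → ℂ} {x : ℝ} {p e : ℂ} {C0 y1 r0 : ℝ}
    (S : Sector K Φ U x p e C0 y1) (hq : ∀ m, 0 < (qm U x r0 m).im)
    (hq' : Tendsto (fun m => ‖qm U x r0 m‖) atTop atTop) (R : ℝ) (h0 : 0 ≤ R) (h1 : R < 1)
    (δ : ℝ) (hδ : 0 < δ) :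
    ∀ᶠ m in atTop, ∀ Z ∈ HD R, 0 < (Bm U x r0 m Z).im ∧ ‖Bm U x r0 m Z - x‖ < δ ∧
      HasDerivAt (Bm U x r0 m)
        ((qm U x r0 m).im / ((qm U x r0 m).re + (qm U x r0 m).im * Z) ^ 2) Z ∧
      ‖((qm U x r0 m).im / ((qm U x r0 m).re + (qm U x r0 m).im * Z) ^ 2 : ℂ)‖ =
        (Bm U x r0 m Z).im / Z.im := by
  obtain ⟨-, -, -, hHD⟩ := HD_facts R h0 h1
  set c : ℝ := (1 - R) / (1 + R) with hc
  set M : ℝ := (1 + R) / (1 - R) with hM
  have hcpos : 0 < c := div_pos (by linarith) (by linarith)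
  have hMpos : 0 < M := div_pos (by linarith) (by linarith)
  filter_upwards [hq'.eventually_gt_atTop ((1 + (M + 1) / c) / δ)] with m hm Z hZ
  obtain ⟨hz1, hz2⟩ := hHD Z hZ
  have hZim : 0 < Z.im := lt_of_lt_of_le hcpos hz1
  have hb := hq m
  have hBm : Bm U x r0 m = fun Z => (x : ℂ) - 1 / ((qm U x r0 m).re + (qm U x r0 m).im * Z) := rfl
  rw [hBm]
  set q := qm U x r0 m with hqdef
  set W : ℂ := (q.re : ℂ) + (q.im : ℂ) * Z with hW
  have hWim : W.im = q.im * Z.im := by simp [hW]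
  have hWpos : 0 < W.im := by rw [hWim]; positivity
  have hW0 : W ≠ 0 := by
    intro h
    rw [h] at hWpos
    simp at hWpos
  have hWn : 0 < ‖W‖ := norm_pos_iff.mpr hW0
  have hlow1 : q.im * c ≤ ‖W‖ := by
    calc q.im * c ≤ q.im * Z.im := mul_le_mul_of_nonneg_left hz1 hb.le
      _ = W.im := hWim.symm
      _ ≤ |W.im| := le_abs_self _
      _ ≤ ‖W‖ := Complex.abs_im_le_norm _
  have hlow2 : |q.re| ≤ ‖W‖ + q.im * M := by
    have e1 : (q.re : ℂ) = W - (q.im : ℂ) * Z := by rw [hW]; ring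
    have e2 : |q.re| = ‖(q.re : ℂ)‖ := by rw [Complex.norm_real, Real.norm_eq_abs]
    rw [e2, e1]
    refine (norm_sub_le _ _).trans ?_
    rw [norm_mul, Complex.norm_real, Real.norm_eq_abs, abs_of_pos hb]
    have := mul_le_mul_of_nonneg_left hz2 hb.le
    linarith
  have hqn : ‖q‖ ≤ ‖W‖ * (1 + (M + 1) / c) := by
    have e1 := Complex.norm_le_abs_re_add_abs_im q
    rw [abs_of_pos hb] at e1
    have e2 : q.im ≤ ‖W‖ / c := by
      rw [le_div_iff₀ hcpos]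
      exact hlow1
    calc ‖q‖ ≤ ‖W‖ + q.im * M + q.im := by linarith
      _ = ‖W‖ + q.im * (M + 1) := by ring
      _ ≤ ‖W‖ + ‖W‖ / c * (M + 1) := by
        have := mul_le_mul_of_nonneg_right e2 (by positivity : (0 : ℝ) ≤ M + 1)
        linarith
      _ = ‖W‖ * (1 + (M + 1) / c) := by ring
  have hfac : 0 < 1 + (M + 1) / c := by positivity
  have hBim : ((x : ℂ) - 1 / W).im = W.im / ‖W‖ ^ 2 := by
    rw [← Complex.normSq_eq_norm_sq]
    simp [Complex.inv_im]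
    ring
  refine ⟨?_, ?_, ?_, ?_⟩
  · change 0 < ((x : ℂ) - 1 / W).im
    rw [hBim]
    positivity
  · change ‖(x : ℂ) - 1 / W - x‖ < δ
    have e1 : (x : ℂ) - 1 / W - x = -(1 / W) := by ring
    rw [e1, norm_neg, norm_div, norm_one, div_lt_iff₀ hWn]
    rw [div_lt_iff₀ hδ] at hm
    have e2 : 1 + (M + 1) / c < ‖W‖ * (1 + (M + 1) / c) * δ :=
      lt_of_lt_of_le hm (mul_le_mul_of_nonneg_right hqn hδ.le)
    have e3 : (1 + (M + 1) / c) * 1 < (1 + (M + 1) / c) * (δ * ‖W‖) := by linarith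
    exact lt_of_mul_lt_mul_left e3 hfac.le
  · have e1 : HasDerivAt (fun Z : ℂ => (q.re : ℂ) + (q.im : ℂ) * Z) ((q.im : ℂ) * 1) Z :=
      ((hasDerivAt_id Z).const_mul (q.im : ℂ)).const_add _
    have e2 := (e1.inv hW0).const_sub (x : ℂ)
    have e3 : (fun Z => (x : ℂ) - 1 / ((q.re : ℂ) + (q.im : ℂ) * Z)) =
        fun Z => (x : ℂ) - ((fun Z : ℂ => (q.re : ℂ) + (q.im : ℂ) * Z)⁻¹) Z := by
      funext Z
      simp
    rw [e3]
    refine e2.congr_deriv ?_
    rw [← hW]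
    ring
  · change _ = ((x : ℂ) - 1 / W).im / Z.im
    rw [hBim, hWim, norm_div, norm_pow, Complex.norm_real, Real.norm_eq_abs, abs_of_pos hb]
    field_simp

end CF6

end

section

open Complex MeasureTheory Set Filter Topology Metric

namespace CF6

/-- D2.3 (about 100 lines) Harnack. On the segment from `Z1` to `Z2` (inside the convex `HD R`) the function
`Φ ∘ B_m - k` satisfies `|f'| ≤ C0 |f| / Im Z` by `koebe` and `Bm_facts`; Gronwall
(`norm_le_gronwallBound_of_norm_deriv_right_le`). -/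
theorem fm_harnack {K : Set ℂ} {Φ U : ℂ → ℂ} {x : ℝ} {p e : ℂ} {C0 y1 r0 : ℝ}
    (S : Sector K Φ U x p e C0 y1) (hq : ∀ m, 0 < (qm U x r0 m).im)
    (hq' : Tendsto (fun m => ‖qm U x r0 m‖) atTop atTop) (R : ℝ) (h0 : 0 ≤ R) (h1 : R < 1) :
    ∃ C > (0 : ℝ), ∀ᶠ m in atTop, ∀ Z1 ∈ HD R, ∀ Z2 ∈ HD R, ∀ k ∈ K,
      ‖Φ (Bm U x r0 m Z2) - k‖ ≤ C * ‖Φ (Bm U x r0 m Z1) - k‖ := by
  obtain ⟨-, hconv, -, hbd⟩ := HD_facts R h0 h1
  obtain ⟨A, hA⟩ : ∃ A : ℝ, A = C0 * ((1 + R) / (1 - R)) * (2 * ((1 + R) / (1 - R))) := ⟨_, rfl⟩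
  have hRr : 0 < (1 + R) / (1 - R) := div_pos (by linarith) (by linarith)
  refine ⟨Real.exp A, Real.exp_pos _, ?_⟩
  filter_upwards [Bm_facts S hq hq' R h0 h1 y1 S.y1pos] with m hB
  intro Z1 hZ1 Z2 hZ2 k hk
  -- the path
  have hseg : ∀ t ∈ Icc (0 : ℝ) 1, Z1 + (t : ℂ) * (Z2 - Z1) ∈ HD R := by
    intro t ht
    have h2 := hconv hZ1 hZ2 (a := 1 - t) (b := t) (by linarith [ht.2]) ht.1 (by ring)
    have h3 : (1 - t) • Z1 + t • Z2 = Z1 + (t : ℂ) * (Z2 - Z1) := by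
      rw [Complex.real_smul, Complex.real_smul]
      push_cast
      ring
    rwa [h3] at h2
  obtain ⟨f, hf⟩ : ∃ f : ℝ → ℂ, f = fun t : ℝ => Φ (Bm U x r0 m (Z1 + (t : ℂ) * (Z2 - Z1))) - k :=
    ⟨_, rfl⟩
  obtain ⟨f', hf'⟩ : ∃ f' : ℝ → ℂ, f' = fun t : ℝ =>
      deriv Φ (Bm U x r0 m (Z1 + (t : ℂ) * (Z2 - Z1))) *
        ((qm U x r0 m).im / ((qm U x r0 m).re + (qm U x r0 m).im *
          (Z1 + (t : ℂ) * (Z2 - Z1))) ^ 2 * (Z2 - Z1)) := ⟨_, rfl⟩
  have hder : ∀ t ∈ Icc (0 : ℝ) 1, HasDerivAt f (f' t) t := by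
    intro t ht
    obtain ⟨b1, -, b3, -⟩ := hB _ (hseg t ht)
    have h2 : HasDerivAt (fun t : ℝ => Z1 + (t : ℂ) * (Z2 - Z1)) (1 * (Z2 - Z1)) t :=
      ((Complex.ofRealCLM.hasDerivAt (x := t)).mul_const (Z2 - Z1)).const_add Z1
    have h3 := HasDerivAt.comp_of_eq t b3 h2 rfl
    have h4 : HasDerivAt Φ (deriv Φ (Bm U x r0 m (Z1 + (t : ℂ) * (Z2 - Z1))))
        (Bm U x r0 m (Z1 + (t : ℂ) * (Z2 - Z1))) := by
      have hopen : IsOpen UHP := isOpen_lt continuous_const Complex.continuous_im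
      exact (S.dPhi.differentiableAt (hopen.mem_nhds b1)).hasDerivAt
    have h5 := HasDerivAt.comp_of_eq t h4 h3 rfl
    have h6 := h5.sub_const k
    rw [hf, hf']
    rw [one_mul] at h6
    exact h6
  have hbound : ∀ t ∈ Ico (0 : ℝ) 1, ‖f' t‖ ≤ A * ‖f t‖ + 0 := by
    intro t ht
    have ht' : t ∈ Icc (0 : ℝ) 1 := ⟨ht.1, ht.2.le⟩
    obtain ⟨b1, b2, -, b4⟩ := hB _ (hseg t ht')
    obtain ⟨d1, -⟩ := hbd _ (hseg t ht')
    have hZpos : 0 < (Z1 + (t : ℂ) * (Z2 - Z1)).im := (hseg t ht').1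
    have hy : (Bm U x r0 m (Z1 + (t : ℂ) * (Z2 - Z1))).im ≤ y1 := by
      have h2 : (Bm U x r0 m (Z1 + (t : ℂ) * (Z2 - Z1)) - x).im =
          (Bm U x r0 m (Z1 + (t : ℂ) * (Z2 - Z1))).im := by simp
      rw [← h2]
      exact (Complex.im_le_norm _).trans b2.le
    have hk2 := S.koebe _ b1 hy k hk
    have hdist : ‖Z2 - Z1‖ ≤ 2 * ((1 + R) / (1 - R)) := by
      have h2 := norm_sub_le Z2 Z1
      have h3 := (hbd _ hZ1).2
      have h4 := (hbd _ hZ2).2
      linarith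
    have hinv : 1 / (Z1 + (t : ℂ) * (Z2 - Z1)).im ≤ (1 + R) / (1 - R) := by
      rw [div_le_div_iff₀ hZpos (by linarith)]
      rw [div_le_iff₀ (by linarith)] at d1
      linarith
    rw [add_zero, hf', hf]
    simp only
    rw [norm_mul, norm_mul, b4]
    have h3 : ‖deriv Φ (Bm U x r0 m (Z1 + (t : ℂ) * (Z2 - Z1)))‖ *
        ((Bm U x r0 m (Z1 + (t : ℂ) * (Z2 - Z1))).im / (Z1 + (t : ℂ) * (Z2 - Z1)).im *
          ‖Z2 - Z1‖) =
        (‖deriv Φ (Bm U x r0 m (Z1 + (t : ℂ) * (Z2 - Z1)))‖ *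
        (Bm U x r0 m (Z1 + (t : ℂ) * (Z2 - Z1))).im) *
          (1 / (Z1 + (t : ℂ) * (Z2 - Z1)).im * ‖Z2 - Z1‖) := by ring
    rw [h3, hA]
    have h4 : 1 / (Z1 + (t : ℂ) * (Z2 - Z1)).im * ‖Z2 - Z1‖ ≤
        (1 + R) / (1 - R) * (2 * ((1 + R) / (1 - R))) :=
      mul_le_mul hinv hdist (norm_nonneg _) hRr.le
    have h5 : 0 ≤ 1 / (Z1 + (t : ℂ) * (Z2 - Z1)).im * ‖Z2 - Z1‖ := by positivity
    calc _ ≤ (C0 * ‖Φ (Bm U x r0 m (Z1 + (t : ℂ) * (Z2 - Z1))) - k‖) *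
          ((1 + R) / (1 - R) * (2 * ((1 + R) / (1 - R)))) :=
          mul_le_mul hk2 h4 h5 (mul_nonneg S.C0pos.le (norm_nonneg _))
      _ = _ := by ring
  have hgr := norm_le_gronwallBound_of_norm_deriv_right_le (f := f) (f' := f') (δ := ‖f 0‖)
    (K := A) (ε := 0) (a := 0) (b := 1)
    (fun t ht => (hder t ht).continuousAt.continuousWithinAt)
    (fun t ht => (hder t ⟨ht.1, ht.2.le⟩).hasDerivWithinAt) le_rfl hbound 1
    (right_mem_Icc.2 zero_le_one)
  rw [gronwallBound_ε0] at hgr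
  have e1 : f 1 = Φ (Bm U x r0 m Z2) - k := by
    rw [hf]
    simp
  have e0 : f 0 = Φ (Bm U x r0 m Z1) - k := by
    rw [hf]
    simp
  rw [e1, e0] at hgr
  simp only [sub_zero, mul_one] at hgr
  rw [mul_comm] at hgr
  exact hgr

end CF6

end

section

open Complex MeasureTheory Set Filter Topology Metric

namespace CF6

theorem d2g_scl_pos {r0 : ℝ} (hr0 : 0 < r0) (m : ℕ) : 0 < scl r0 m := by
  unfold scl; positivity

theorem d2g_scl_lim (r0 : ℝ) : Tendsto (fun m => scl r0 m) atTop (𝓝 0) := by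
  have h1 : Tendsto (fun m : ℕ => (1 / 4 : ℝ) ^ m) atTop (𝓝 0) :=
    tendsto_pow_atTop_nhds_zero_of_lt_one (by norm_num) (by norm_num)
  have h2 := h1.const_mul r0
  rw [mul_zero] at h2
  exact h2

theorem d2g_Bm_I {U : ℂ → ℂ} {x r0 : ℝ} {m : ℕ} (hq : 0 < (qm U x r0 m).im) :
    Bm U x r0 m I = U (I * scl r0 m) := by
  unfold Bm
  rw [Complex.re_add_im]
  have hne : U (I * scl r0 m) - x ≠ 0 := by
    intro h
    rw [qm, h, div_zero] at hq
    simp at hq
  rw [qm]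
  field_simp
  ring

/-- D2.4 (about 100 lines) `f_m` maps `HD R` into the half plane: `f_m(i) = i`, `|f_m| ≤ C` (Harnack with `k = p`);
if `f_m(Z)` is not in the half plane, there is a point on the segment with `f_m(Z') = t` real (intermediate
value theorem), `dense` gives `k ∈ K` with `|f_m(Z') - (k-p)/(e r_m)| ≤ η C`, but Harnack gives
`|i - (k-p)/(e r_m)| ≤ C η C < 1/2`, and `free` (`η = 1/4`) forbids `k` there. -/
theorem fm_upper {K : Set ℂ} {Φ U : ℂ → ℂ} {x : ℝ} {p e : ℂ} {C0 y1 r0 : ℝ}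
    (S : Sector K Φ U x p e C0 y1) (hr0 : 0 < r0) (hq : ∀ m, 0 < (qm U x r0 m).im)
    (hq' : Tendsto (fun m => ‖qm U x r0 m‖) atTop atTop) (R : ℝ) (h0 : 0 ≤ R) (h1 : R < 1) :
    ∀ᶠ m in atTop, fm Φ U x p e r0 m I = I ∧ (∀ Z ∈ HD R, 0 < (fm Φ U x p e r0 m Z).im ∧
      DifferentiableAt ℂ (fm Φ U x p e r0 m) Z) := by
  obtain ⟨hcomp, hconv, hI, hbd⟩ := HD_facts R h0 h1
  obtain ⟨C1, hC1, hH⟩ := fm_harnack S hq hq' R h0 h1
  set C : ℝ := max C1 1 with hC
  have hCpos : 0 < C := lt_of_lt_of_le hC1 (le_max_left _ _)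
  have hC1' : 1 ≤ C := le_max_right _ _
  obtain ⟨r1, hr1, hU⟩ := S.Udiff (1 / 2) (by norm_num)
  obtain ⟨r2, hr2, hfree⟩ := S.free (1 / 4) (by norm_num)
  obtain ⟨r3, hr3, hdense⟩ := S.dense (1 / (4 * C ^ 2)) (by positivity)
  have hB := Bm_facts S hq hq' R h0 h1 1 one_pos
  have hs1 : ∀ᶠ m in atTop, scl r0 m < r1 := (d2g_scl_lim r0).eventually_lt_const hr1
  have hs2 : ∀ᶠ m in atTop, scl r0 m < r2 / 2 :=
    (d2g_scl_lim r0).eventually_lt_const (by positivity)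
  have hs3 : ∀ᶠ m in atTop, scl r0 m < r3 / C :=
    (d2g_scl_lim r0).eventually_lt_const (by positivity)
  have hene : e ≠ 0 := by
    intro h
    have := S.he
    rw [h, norm_zero] at this
    exact zero_ne_one this
  filter_upwards [hH, hB, hs1, hs2, hs3] with m hHm hBm hm1 hm2 hm3
  have hs := d2g_scl_pos hr0 m
  set s : ℝ := scl r0 m with hsdef
  have hsne : (s : ℂ) ≠ 0 := by exact_mod_cast hs.ne'
  have hesne : e * (s : ℂ) ≠ 0 := mul_ne_zero hene hsne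
  have hIs : ‖I * (s : ℂ)‖ = s := by
    rw [norm_mul, Complex.norm_I, one_mul, Complex.norm_real, Real.norm_of_nonneg hs.le]
  have hIsim : (I * (s : ℂ)).im = s := by simp
  have hΦI : Φ (Bm U x r0 m I) = p + e * (I * s) := by
    rw [d2g_Bm_I (hq m)]
    exact (hU (I * s) (by rw [hIs]; exact hm1) (by rw [hIs, hIsim]; linarith)).2.2
  have hfI : fm Φ U x p e r0 m I = I := by
    unfold fm
    rw [hΦI, ← hsdef]
    field_simp
    ring
  have hdiff : ∀ Z ∈ HD R, DifferentiableAt ℂ (fm Φ U x p e r0 m) Z := by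
    intro Z hZ
    obtain ⟨hb1, _, hb3, _⟩ := hBm Z hZ
    have hopen : IsOpen UHP := isOpen_lt continuous_const Complex.continuous_im
    have h2 : DifferentiableAt ℂ Φ (Bm U x r0 m Z) :=
      (S.dPhi _ hb1).differentiableAt (hopen.mem_nhds hb1)
    have h3 : DifferentiableAt ℂ (fun Z => Φ (Bm U x r0 m Z)) Z :=
      DifferentiableAt.comp Z h2 hb3.differentiableAt
    exact (h3.sub_const p).div_const _
  refine ⟨hfI, fun Z hZ => ⟨?_, hdiff Z hZ⟩⟩
  by_contra hneg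
  push Not at hneg
  have hseg : segment ℝ I Z ⊆ HD R := hconv.segment_subset hI hZ
  have hcont : ContinuousOn (fun W => (fm Φ U x p e r0 m W).im) (segment ℝ I Z) :=
    Complex.continuous_im.comp_continuousOn
      (fun W hW => (hdiff W (hseg hW)).continuousAt.continuousWithinAt)
  have hivt := (convex_segment I Z).isPreconnected.intermediate_value
    (right_mem_segment ℝ I Z) (left_mem_segment ℝ I Z) hcont
  have hmem0 : (0 : ℝ) ∈ Icc ((fm Φ U x p e r0 m Z).im) ((fm Φ U x p e r0 m I).im) := by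
    refine ⟨hneg, ?_⟩
    rw [hfI, Complex.I_im]
    exact zero_le_one
  obtain ⟨Z', hZ', hZ'0⟩ := hivt hmem0
  have hZ'R : Z' ∈ HD R := hseg hZ'
  have hZ'0' : (fm Φ U x p e r0 m Z').im = 0 := hZ'0
  set t : ℝ := (fm Φ U x p e r0 m Z').re with ht
  have hft : fm Φ U x p e r0 m Z' = (t : ℂ) := by
    apply Complex.ext
    · simp [ht]
    · simp [hZ'0']
  have hΦZ : Φ (Bm U x r0 m Z') = p + e * ((t * s : ℝ) : ℂ) := by
    have h2 : fm Φ U x p e r0 m Z' * (e * s) = Φ (Bm U x r0 m Z') - p := by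
      unfold fm
      rw [← hsdef]
      exact div_mul_cancel₀ _ hesne
    rw [hft] at h2
    push_cast
    linear_combination -h2
  have hnormI : ‖Φ (Bm U x r0 m I) - p‖ = s := by
    rw [hΦI, add_sub_cancel_left, norm_mul, S.he, one_mul, hIs]
  have hnormZ : ‖Φ (Bm U x r0 m Z') - p‖ = |t * s| := by
    rw [hΦZ, add_sub_cancel_left, norm_mul, S.he, one_mul, Complex.norm_real, Real.norm_eq_abs]
  have htC : |t * s| ≤ C * s := by
    have h2 := hHm I hI Z' hZ'R p S.hp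
    rw [hnormI, hnormZ] at h2
    exact h2.trans (mul_le_mul_of_nonneg_right (le_max_left _ _) hs.le)
  have hCs : C * s < r3 := by
    rw [lt_div_iff₀ hCpos] at hm3
    linarith
  obtain ⟨k, hk, hk2⟩ := hdense (C * s) (by positivity) hCs (t * s) htC
  rw [← hΦZ] at hk2
  have h3 := hHm Z' hZ'R I hI k hk
  have h4 : ‖Φ (Bm U x r0 m I) - k‖ ≤ s / 4 := by
    have h5 : C1 * ‖Φ (Bm U x r0 m Z') - k‖ ≤ C * (1 / (4 * C ^ 2) * (C * s)) :=
      mul_le_mul (le_max_left _ _) hk2 (norm_nonneg _) hCpos.le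
    have h6 : C * (1 / (4 * C ^ 2) * (C * s)) = s / 4 := by field_simp
    linarith
  rw [hΦI] at h4
  set w : ℂ := (k - p) / e with hw
  have hkw : p + e * w = k := by
    rw [hw, mul_div_cancel₀ _ hene]; ring
  have h5 : ‖I * (s : ℂ) - w‖ ≤ s / 4 := by
    have h6 : p + e * (I * s) - k = e * (I * s - w) := by
      rw [← hkw]; ring
    rw [h6, norm_mul, S.he, one_mul] at h4
    exact h4
  have h6 : s - s / 4 ≤ w.im := by
    have h7 := (Complex.abs_im_le_norm _).trans h5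
    rw [Complex.sub_im, hIsim, abs_le] at h7
    linarith [h7.2]
  have h7 : ‖w‖ ≤ s + s / 4 := by
    calc ‖w‖ = ‖I * (s : ℂ) - (I * (s : ℂ) - w)‖ := by congr 1; ring
      _ ≤ ‖I * (s : ℂ)‖ + ‖I * (s : ℂ) - w‖ := norm_sub_le _ _
      _ ≤ s + s / 4 := by rw [hIs]; linarith
  exact hfree w (by linarith) (by linarith) (hkw ▸ hk)

end CF6

end

section

open Complex MeasureTheory Set Filter Topology Metric

namespace CF6

theorem d2h_im_neg_inv (v : ℂ) (hv : 0 < v.im) : 0 < (-1 / v).im := by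
  have h : -1 / v = -v⁻¹ := by rw [neg_div, one_div]
  rw [h, Complex.neg_im, Complex.inv_im]
  have hn : 0 < Complex.normSq v := Complex.normSq_pos.mpr (by
    intro h0
    rw [h0] at hv
    simp at hv)
  rw [neg_div, neg_neg]
  positivity

theorem d2h_scl (r0 : ℝ) (hr0 : 0 < r0) (c : ℝ) (hc : 0 < c) :
    ∀ᶠ m in atTop, 0 < scl r0 m ∧ scl r0 m < c := by
  have h1 : Tendsto (fun m : ℕ => r0 * (1 / 4 : ℝ) ^ m) atTop (𝓝 (r0 * 0)) :=
    (tendsto_pow_atTop_nhds_zero_of_lt_one (by norm_num) (by norm_num)).const_mul r0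
  rw [mul_zero] at h1
  filter_upwards [(tendsto_order.mp h1).2 c hc] with m hm
  exact ⟨by unfold scl; positivity, hm⟩

/-- D2.5 (about 100 lines) the inverse maps. -/
theorem hm_facts {K : Set ℂ} {Φ U : ℂ → ℂ} {x : ℝ} {p e : ℂ} {C0 y1 r0 : ℝ}
    (S : Sector K Φ U x p e C0 y1) (hr0 : 0 < r0) (hq : ∀ m, 0 < (qm U x r0 m).im)
    (hq' : Tendsto (fun m => ‖qm U x r0 m‖) atTop atTop) (R : ℝ) (h0 : 0 ≤ R) (h1 : R < 1) :
    ∀ᶠ m in atTop, hm U x r0 m I = I ∧ (∀ w ∈ HD R, 0 < (hm U x r0 m w).im ∧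
      DifferentiableAt ℂ (hm U x r0 m) w ∧ fm Φ U x p e r0 m (hm U x r0 m w) = w) ∧
      (∀ Z ∈ HD R, hm U x r0 m (fm Φ U x p e r0 m Z) = Z) := by
  obtain ⟨-, -, -, hHD⟩ := HD_facts R h0 h1
  set c : ℝ := (1 - R) / (1 + R) with hc
  set M : ℝ := (1 + R) / (1 - R) with hM
  have hcpos : 0 < c := div_pos (by linarith) (by linarith)
  have hMpos : 0 < M := div_pos (by linarith) (by linarith)
  obtain ⟨r1, hr1, hU1⟩ := S.Udiff (c / (2 * M)) (by positivity)
  obtain ⟨r2, hr2, hU2⟩ := S.Uinv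
  have he : e ≠ 0 := by
    intro h
    have := S.he
    rw [h] at this
    simp at this
  filter_upwards [d2h_scl r0 hr0 (r1 / M) (by positivity),
    Bm_facts S hq hq' R h0 h1 r2 hr2] with m hm1 hm2
  obtain ⟨ha, ha1⟩ := hm1
  have hqm := hq m
  set q := qm U x r0 m with hqdef
  have hqim : (q.im : ℂ) ≠ 0 := by
    norm_cast
    exact hqm.ne'
  have hac : ((scl r0 m : ℝ) : ℂ) ≠ 0 := by
    norm_cast
    exact ha.ne'
  refine ⟨?_, ?_, ?_⟩
  · have e1 : hm U x r0 m I = (q - q.re) / q.im := by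
      rw [hqdef]
      unfold hm qm
      rw [mul_comm I]
    rw [e1, div_eq_iff hqim]
    nth_rewrite 1 [← Complex.re_add_im q]
    ring
  · intro w hw
    obtain ⟨hw1, hw2⟩ := hHD w hw
    have hnw : ‖((scl r0 m : ℝ) : ℂ) * w‖ = scl r0 m * ‖w‖ := by
      rw [norm_mul, Complex.norm_real, Real.norm_eq_abs, abs_of_pos ha]
    have him : (((scl r0 m : ℝ) : ℂ) * w).im = scl r0 m * w.im := by simp
    have b1 : ‖((scl r0 m : ℝ) : ℂ) * w‖ < r1 := by
      rw [hnw]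
      rw [lt_div_iff₀ hMpos] at ha1
      calc scl r0 m * ‖w‖ ≤ scl r0 m * M := by
            apply mul_le_mul_of_nonneg_left hw2 ha.le
        _ < r1 := ha1
    have b2 : c / (2 * M) * ‖((scl r0 m : ℝ) : ℂ) * w‖ < (((scl r0 m : ℝ) : ℂ) * w).im := by
      rw [hnw, him]
      have : c / (2 * M) * ‖w‖ < w.im := by
        calc c / (2 * M) * ‖w‖ ≤ c / (2 * M) * M := by
              apply mul_le_mul_of_nonneg_left hw2 (by positivity)
          _ = c / 2 := by field_simp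
          _ < w.im := by linarith
      calc c / (2 * M) * (scl r0 m * ‖w‖) = scl r0 m * (c / (2 * M) * ‖w‖) := by ring
        _ < scl r0 m * w.im := mul_lt_mul_of_pos_left this ha
    obtain ⟨d1, d2, d3⟩ := hU1 _ b1 b2
    have d4 : 0 < (U (scl r0 m * w) - x).im := by simpa using d2
    have d5 : U (scl r0 m * w) - x ≠ 0 := by
      intro h
      rw [h] at d4
      simp at d4
    refine ⟨?_, ?_, ?_⟩
    · have e1 : hm U x r0 m w = (-1 / (U (scl r0 m * w) - x) - q.re) / q.im := rfl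
      rw [e1, Complex.div_ofReal_im, Complex.sub_im, Complex.ofReal_im, sub_zero]
      exact div_pos (d2h_im_neg_inv _ d4) hqm
    · have e2 : DifferentiableAt ℂ (fun w => U (scl r0 m * w)) w :=
        DifferentiableAt.comp w d1 (differentiableAt_id.const_mul _)
      have e3 : DifferentiableAt ℂ (fun w => (-1 / (U (scl r0 m * w) - x) - q.re) / q.im) w := by
        apply DifferentiableAt.div_const
        apply DifferentiableAt.sub_const
        apply DifferentiableAt.div (differentiableAt_const _) (e2.sub_const _) d5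
      exact e3
    · have e1 : hm U x r0 m w = (-1 / (U (scl r0 m * w) - x) - q.re) / q.im := rfl
      have e2 : Bm U x r0 m (hm U x r0 m w) = U (scl r0 m * w) := by
        unfold Bm
        rw [← hqdef, e1, mul_div_cancel₀ _ hqim, add_sub_cancel, neg_div, one_div_neg_eq_neg_one_div,
          one_div_one_div]
        ring
      unfold fm
      rw [e2, d3]
      field_simp
      ring
  · intro Z hZ
    obtain ⟨k1, k2, -, -⟩ := hm2 Z hZ
    have e1 : U (scl r0 m * fm Φ U x p e r0 m Z) = Bm U x r0 m Z := by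
      apply hU2 _ k1 k2
      unfold fm
      field_simp
      ring
    unfold hm
    rw [e1, ← hqdef]
    unfold Bm
    rw [← hqdef]
    have e3 : (-1 / ((x : ℂ) - 1 / (↑q.re + ↑q.im * Z) - x) : ℂ) = ↑q.re + ↑q.im * Z := by
      rw [sub_sub_cancel_left, neg_div_neg_eq, one_div_one_div]
    rw [e3, add_sub_cancel_left, mul_div_cancel_left₀ _ hqim]

end CF6

end

section

open Complex MeasureTheory Set Filter Topology Metric

namespace CF6

/-- Schwarz type estimate: a map of the disc of radius `R` into the unit disc whose derivative at `0` has modulus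
at least `R` is almost linear -/
theorem D2i_slope {g : ℂ → ℂ} {R : ℝ} (hR : 0 < R) (hR1 : R < 1)
    (hd : DifferentiableOn ℂ g (ball 0 R)) (hm : MapsTo g (ball 0 R) (ball 0 1)) (h0 : g 0 = 0)
    (hlow : R ≤ ‖deriv g 0‖) {ξ : ℂ} (hξ : ξ ∈ ball (0 : ℂ) R) :
    ‖dslope g 0 ξ - deriv g 0‖ * (1 - ‖ξ‖ / R) ≤ (1 / R) * (2 * (‖ξ‖ / R) * (1 / R ^ 3 - 1)) := by
  have hm' : MapsTo g (ball 0 R) (closedBall (g 0) 1) := by
    intro z hz
    rw [h0]
    exact ball_subset_closedBall (hm hz)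
  obtain ⟨a, ha⟩ : ∃ a, a = deriv g 0 := ⟨_, rfl⟩
  rw [← ha] at hlow ⊢
  have hapos : 0 < ‖a‖ := lt_of_lt_of_le hR hlow
  have ha0 : a ≠ 0 := norm_pos_iff.1 hapos
  have hale : ‖a‖ ≤ 1 / R := by
    rw [ha]
    exact norm_deriv_le_div_of_mapsTo_ball hd hm' hR
  obtain ⟨δ, hδ⟩ : ∃ δ : ℝ, δ = 1 / R ^ 3 - 1 := ⟨_, rfl⟩
  have hR3 : R ^ 3 < 1 := pow_lt_one₀ hR.le hR1 (by norm_num)
  have hδpos : 0 < δ := by
    rw [hδ, sub_pos, lt_div_iff₀ (by positivity)]
    linarith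
  -- the quotient
  have hkd : DifferentiableOn ℂ (dslope g 0) (ball 0 R) :=
    (differentiableOn_dslope (ball_mem_nhds 0 hR)).2 hd
  have hkn : ∀ z ∈ ball (0 : ℂ) R, ‖dslope g 0 z / a‖ < 1 + δ := by
    intro z hz
    have h1 : ‖dslope g 0 z‖ ≤ 1 / R := norm_dslope_le_div_of_mapsTo_ball hd hm' hz
    rw [norm_div, div_lt_iff₀ hapos, hδ]
    have h2 : (1 + (1 / R ^ 3 - 1)) * ‖a‖ = ‖a‖ / R ^ 3 := by ring
    rw [h2, lt_div_iff₀ (by positivity)]
    calc ‖dslope g 0 z‖ * R ^ 3 ≤ 1 / R * R ^ 3 := mul_le_mul_of_nonneg_right h1 (by positivity)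
      _ = R ^ 2 := by field_simp
      _ < R := by nlinarith
      _ ≤ ‖a‖ := hlow
  obtain ⟨φ, hφ⟩ : ∃ φ : ℂ → ℂ, φ = fun z => (1 + (δ : ℂ)) - dslope g 0 z / a := ⟨_, rfl⟩
  have hφre : ∀ z ∈ ball (0 : ℂ) R, 0 < (φ z).re := by
    intro z hz
    have h1 := hkn z hz
    have h2 : (dslope g 0 z / a).re ≤ ‖dslope g 0 z / a‖ := Complex.re_le_norm _
    rw [hφ]
    simp only [Complex.sub_re, Complex.add_re, Complex.one_re, Complex.ofReal_re]
    linarith
  have hφd : DifferentiableOn ℂ φ (ball 0 R) := by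
    rw [hφ]
    exact (differentiableOn_const _).sub (hkd.div_const a)
  have hden : ∀ z ∈ ball (0 : ℂ) R, φ z + δ ≠ 0 := by
    intro z hz h1
    have h2 := congrArg Complex.re h1
    simp at h2
    linarith [hφre z hz]
  obtain ⟨w, hw⟩ : ∃ w : ℂ → ℂ, w = fun z => (φ z - δ) / (φ z + δ) := ⟨_, rfl⟩
  have hwd : DifferentiableOn ℂ w (ball 0 R) := by
    rw [hw]
    exact (hφd.sub_const _).div (hφd.add_const _) hden
  have hφ0 : φ 0 = δ := by
    rw [hφ]
    simp only [dslope_same]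
    rw [← ha, div_self ha0]
    ring
  have hw0 : w 0 = 0 := by
    rw [hw]
    simp only [hφ0, sub_self, zero_div]
  have hsq : ∀ z ∈ ball (0 : ℂ) R, ‖φ z - δ‖ ≤ ‖φ z + δ‖ := by
    intro z hz
    rw [← sq_le_sq₀ (norm_nonneg _) (norm_nonneg _), ← Complex.normSq_eq_norm_sq,
      ← Complex.normSq_eq_norm_sq, Complex.normSq_apply, Complex.normSq_apply]
    simp only [Complex.sub_re, Complex.add_re, Complex.ofReal_re, Complex.sub_im, Complex.add_im,
      Complex.ofReal_im]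
    nlinarith [hφre z hz]
  have hwm : MapsTo w (ball 0 R) (closedBall (w 0) 1) := by
    intro z hz
    rw [hw0, mem_closedBall, dist_zero_right, hw, norm_div]
    exact div_le_one_of_le₀ (hsq z hz) (norm_nonneg _)
  have hsch := dist_le_div_mul_dist_of_mapsTo_ball hwd hwm hξ
  rw [hw0, dist_zero_right, dist_zero_right] at hsch
  obtain ⟨s, hs⟩ : ∃ s, s = ‖ξ‖ / R := ⟨_, rfl⟩
  have hs0 : 0 ≤ s := by rw [hs]; positivity
  have hsch2 : ‖φ ξ - δ‖ ≤ s * ‖φ ξ + δ‖ := by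
    have h1 : ‖w ξ‖ * ‖φ ξ + δ‖ = ‖φ ξ - δ‖ := by
      rw [hw, norm_div, div_mul_cancel₀]
      exact norm_ne_zero_iff.2 (hden ξ hξ)
    rw [← h1]
    refine mul_le_mul_of_nonneg_right ?_ (norm_nonneg _)
    rw [hs]
    calc ‖w ξ‖ ≤ 1 / R * ‖ξ‖ := hsch
      _ = ‖ξ‖ / R := by ring
  have htri : ‖φ ξ + δ‖ ≤ ‖φ ξ - δ‖ + 2 * δ := by
    have h1 : φ ξ + δ = (φ ξ - δ) + (2 * δ : ℝ) := by push_cast; ring
    rw [h1]
    refine (norm_add_le _ _).trans ?_
    rw [Complex.norm_real, Real.norm_of_nonneg (by positivity)]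
  have hfin : ‖φ ξ - δ‖ * (1 - s) ≤ 2 * s * δ := by nlinarith
  have heq : dslope g 0 ξ - a = -(a * (φ ξ - δ)) := by
    rw [hφ]
    field_simp
    ring
  rw [heq, norm_neg, norm_mul, ← hs, ← hδ]
  calc ‖a‖ * ‖φ ξ - δ‖ * (1 - s) = ‖a‖ * (‖φ ξ - δ‖ * (1 - s)) := by ring
    _ ≤ ‖a‖ * (2 * s * δ) := mul_le_mul_of_nonneg_left hfin (norm_nonneg _)
    _ ≤ 1 / R * (2 * s * δ) := mul_le_mul_of_nonneg_right hale (by positivity)

/-- the two maps have inverse derivatives and almost isometric ones -/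
theorem D2i_deriv {f g : ℂ → ℂ} {R : ℝ} (hR : 0 < R)
    (hf : DifferentiableOn ℂ f (ball 0 R)) (hf1 : MapsTo f (ball 0 R) (ball 0 1)) (hf0 : f 0 = 0)
    (hg : DifferentiableOn ℂ g (ball 0 R)) (hg1 : MapsTo g (ball 0 R) (ball 0 1)) (hg0 : g 0 = 0)
    (hgf : ∀ ξ ∈ ball (0 : ℂ) R, g (f ξ) = ξ) :
    deriv g 0 * deriv f 0 = 1 ∧ R ≤ ‖deriv g 0‖ ∧ ‖deriv g 0‖ ≤ 1 / R ∧ R ≤ ‖deriv f 0‖ := by
  have h0 : (0 : ℂ) ∈ ball (0 : ℂ) R := by simpa using hR
  have hfm : MapsTo f (ball 0 R) (closedBall (f 0) 1) := by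
    intro z hz
    rw [hf0]
    exact ball_subset_closedBall (hf1 hz)
  have hgm : MapsTo g (ball 0 R) (closedBall (g 0) 1) := by
    intro z hz
    rw [hg0]
    exact ball_subset_closedBall (hg1 hz)
  have hfd : HasDerivAt f (deriv f 0) 0 :=
    (hf.differentiableAt (isOpen_ball.mem_nhds h0)).hasDerivAt
  have hgd : HasDerivAt g (deriv g 0) (f 0) := by
    rw [hf0]
    exact (hg.differentiableAt (isOpen_ball.mem_nhds h0)).hasDerivAt
  have h1 : HasDerivAt (g ∘ f) (deriv g 0 * deriv f 0) 0 := hgd.comp 0 hfd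
  have h2 : HasDerivAt (fun z : ℂ => z) (deriv g 0 * deriv f 0) 0 := by
    refine h1.congr_of_eventuallyEq ?_
    filter_upwards [isOpen_ball.mem_nhds h0] with z hz
    exact (hgf z hz).symm
  have h3 : deriv g 0 * deriv f 0 = 1 := h2.unique (hasDerivAt_id 0)
  have h4 : ‖deriv f 0‖ ≤ 1 / R := norm_deriv_le_div_of_mapsTo_ball hf hfm hR
  have h5 : ‖deriv g 0‖ ≤ 1 / R := norm_deriv_le_div_of_mapsTo_ball hg hgm hR
  have h6 : ‖deriv g 0‖ * ‖deriv f 0‖ = 1 := by rw [← norm_mul, h3, norm_one]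
  refine ⟨h3, ?_, h5, ?_⟩
  · have h7 : 1 ≤ ‖deriv g 0‖ * (1 / R) := h6.symm.le.trans
      (mul_le_mul_of_nonneg_left h4 (norm_nonneg _))
    rw [mul_one_div, le_div_iff₀ hR] at h7
    linarith
  · have h7 : 1 ≤ (1 / R) * ‖deriv f 0‖ := h6.symm.le.trans
      (mul_le_mul_of_nonneg_right h5 (norm_nonneg _))
    rw [one_div, inv_mul_eq_div, le_div_iff₀ hR] at h7
    linarith

/-- almost linearity, with the derivative -/
theorem D2i_half {g : ℂ → ℂ} {R R0 R1 B : ℝ} (hR : 0 < R) (hR1 : R < 1) (h01 : R0 < R1) (h0 : 0 < R0)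
    (h1R : R1 < R)
    (hd : DifferentiableOn ℂ g (ball 0 R)) (hm : MapsTo g (ball 0 R) (ball 0 1)) (hg0 : g 0 = 0)
    (hlow : R ≤ ‖deriv g 0‖)
    (hB : (1 / R) * (2 * (R1 / R) * (1 / R ^ 3 - 1)) ≤ B * (1 - R1 / R)) :
    ∀ ξ ∈ ball (0 : ℂ) R0, ‖g ξ - deriv g 0 * ξ‖ ≤ B ∧
      ‖deriv g ξ - deriv g 0‖ ≤ B / ((R1 - R0) / 2) := by
  have hR3 : R ^ 3 < 1 := pow_lt_one₀ hR.le hR1 (by norm_num)
  have hδ : 0 < 1 / R ^ 3 - 1 := by
    rw [sub_pos, lt_div_iff₀ (by positivity)]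
    linarith
  have hs1 : 0 < 1 - R1 / R := by
    rw [sub_pos, div_lt_one hR]
    exact h1R
  have hR1pos : 0 < R1 := h0.trans h01
  have hBpos : 0 ≤ B := by
    by_contra hcon
    push Not at hcon
    have h2 : 0 < (1 / R) * (2 * (R1 / R) * (1 / R ^ 3 - 1)) := by positivity
    nlinarith
  have key : ∀ ξ ∈ ball (0 : ℂ) R1, ‖g ξ - deriv g 0 * ξ‖ ≤ B := by
    intro ξ hξ
    have hξ1 : ‖ξ‖ < R1 := by simpa using hξ
    have hξR : ξ ∈ ball (0 : ℂ) R := by
      simp only [mem_ball, dist_zero_right]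
      linarith
    have h2 := D2i_slope hR hR1 hd hm hg0 hlow hξR
    have hle : ‖ξ‖ / R ≤ R1 / R := div_le_div_of_nonneg_right hξ1.le hR.le
    have h3 : ‖dslope g 0 ξ - deriv g 0‖ * (1 - R1 / R) ≤ B * (1 - R1 / R) := by
      calc ‖dslope g 0 ξ - deriv g 0‖ * (1 - R1 / R)
          ≤ ‖dslope g 0 ξ - deriv g 0‖ * (1 - ‖ξ‖ / R) :=
            mul_le_mul_of_nonneg_left (by linarith) (norm_nonneg _)
        _ ≤ (1 / R) * (2 * (‖ξ‖ / R) * (1 / R ^ 3 - 1)) := h2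
        _ ≤ (1 / R) * (2 * (R1 / R) * (1 / R ^ 3 - 1)) := by
            refine mul_le_mul_of_nonneg_left ?_ (by positivity)
            exact mul_le_mul_of_nonneg_right (by linarith) hδ.le
        _ ≤ B * (1 - R1 / R) := hB
    have h4 : ‖dslope g 0 ξ - deriv g 0‖ ≤ B := le_of_mul_le_mul_right h3 hs1
    have h5 : g ξ - deriv g 0 * ξ = ξ * (dslope g 0 ξ - deriv g 0) := by
      have h6 := sub_smul_dslope g 0 ξ
      rw [hg0, sub_zero, sub_zero, smul_eq_mul] at h6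
      rw [← h6]
      ring
    rw [h5, norm_mul]
    calc ‖ξ‖ * ‖dslope g 0 ξ - deriv g 0‖ ≤ 1 * B :=
          mul_le_mul (by linarith) h4 (norm_nonneg _) (by norm_num)
      _ = B := one_mul B
  intro ξ hξ
  have hξ0 : ‖ξ‖ < R0 := by simpa using hξ
  refine ⟨key ξ (ball_subset_ball h01.le hξ), ?_⟩
  have hρ : 0 < (R1 - R0) / 2 := by linarith
  have hsub : closedBall ξ ((R1 - R0) / 2) ⊆ ball (0 : ℂ) R1 := by
    intro z hz
    rw [mem_closedBall, dist_eq_norm] at hz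
    rw [mem_ball, dist_zero_right]
    have : ‖z‖ ≤ ‖z - ξ‖ + ‖ξ‖ := by
      have := norm_add_le (z - ξ) ξ
      simpa using this
    linarith
  have hdD : DifferentiableOn ℂ (fun z => g z - deriv g 0 * z) (ball 0 R) :=
    hd.sub ((differentiableOn_const _).mul differentiableOn_id)
  have hdc : DiffContOnCl ℂ (fun z => g z - deriv g 0 * z) (ball ξ ((R1 - R0) / 2)) := by
    refine DifferentiableOn.diffContOnCl ?_
    rw [closure_ball _ hρ.ne']
    exact hdD.mono (hsub.trans (ball_subset_ball h1R.le))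
  have hc := norm_deriv_le_of_forall_mem_sphere_norm_le hρ hdc
    (fun z hz => key z (hsub (sphere_subset_closedBall hz)))
  have hξR : ξ ∈ ball (0 : ℂ) R := by
    simp only [mem_ball, dist_zero_right]
    linarith
  have hda : DifferentiableAt ℂ g ξ := hd.differentiableAt (isOpen_ball.mem_nhds hξR)
  have hder : deriv (fun z => g z - deriv g 0 * z) ξ = deriv g ξ - deriv g 0 := by
    have h7 : HasDerivAt (fun z => g z - deriv g 0 * z) (deriv g ξ - deriv g 0 * 1) ξ :=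
      hda.hasDerivAt.sub ((hasDerivAt_id ξ).const_mul _)
    rw [h7.deriv, mul_one]
  rw [hder] at hc
  exact hc

/-- choice of the radius -/
theorem D2i_radius {R1 B : ℝ} (_hR1 : 0 < R1) (hR1' : R1 < 1) (hB : 0 < B) :
    ∃ R : ℝ, R1 < R ∧ R < 1 ∧ (1 / R) * (2 * (R1 / R) * (1 / R ^ 3 - 1)) ≤ B * (1 - R1 / R) := by
  have hcont : ContinuousAt (fun R : ℝ => B * (1 - R1 / R) -
      (1 / R) * (2 * (R1 / R) * (1 / R ^ 3 - 1))) 1 := by
    have h1 : (1 : ℝ) ≠ 0 := one_ne_zero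
    have h2 : ContinuousAt (fun R : ℝ => R1 / R) 1 := continuousAt_const.div continuousAt_id h1
    have h3 : ContinuousAt (fun R : ℝ => 1 / R) 1 := continuousAt_const.div continuousAt_id h1
    have h4 : ContinuousAt (fun R : ℝ => 1 / R ^ 3) 1 :=
      continuousAt_const.div (continuousAt_id.pow 3) (by simp)
    exact (continuousAt_const.mul (continuousAt_const.sub h2)).sub
      (h3.mul ((continuousAt_const.mul h2).mul (h4.sub continuousAt_const)))
  have hval : 0 < B * (1 - R1 / 1) - (1 / 1) * (2 * (R1 / 1) * (1 / 1 ^ 3 - 1)) := by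
    have : 0 < B * (1 - R1) := mul_pos hB (by linarith)
    simpa using this
  have hev := hcont.eventually (lt_mem_nhds hval)
  obtain ⟨ε, hε, hball⟩ := Metric.eventually_nhds_iff.1 hev
  obtain ⟨R, hRdef⟩ : ∃ R : ℝ, R = max ((R1 + 1) / 2) (1 - ε / 2) := ⟨_, rfl⟩
  have h5 : R < 1 := by
    rw [hRdef]
    exact max_lt (by linarith) (by linarith)
  have h6 : 1 - ε / 2 ≤ R := by rw [hRdef]; exact le_max_right _ _
  have h7 : (R1 + 1) / 2 ≤ R := by rw [hRdef]; exact le_max_left _ _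
  refine ⟨R, by linarith, h5, ?_⟩
  have h8 := hball (y := R) (by rw [Real.dist_eq, abs_lt]; constructor <;> linarith)
  linarith

/-- D2.6 (about 120 lines) Let `F_m`, `G_m` be inverse to each other on `ball 0 R`, `m ≥ m_R`, with values in the unit
disc, `F_m 0 = 0`. Then `|F_m(ξ)| ≤ |ξ|/R`, `|G_m(ξ)| ≤ |ξ|/R` (Schwarz), so `R ≤ |G_m(ξ)/ξ| ≤ 1/R`, and `G_m(ξ)/ξ` is almost
constant: Schwarz-Pick (or Borel-Caratheodory) for `R G_m(ξ)/ξ`. -/
theorem rigid_limit (F G : ℕ → ℂ → ℂ)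
    (hF : ∀ R : ℝ, 0 < R → R < 1 → ∀ᶠ m in atTop, DifferentiableOn ℂ (F m) (ball 0 R) ∧
      MapsTo (F m) (ball 0 R) (ball 0 1) ∧ F m 0 = 0 ∧ ∀ ξ ∈ ball (0 : ℂ) R, G m (F m ξ) = ξ)
    (hG : ∀ R : ℝ, 0 < R → R < 1 → ∀ᶠ m in atTop, DifferentiableOn ℂ (G m) (ball 0 R) ∧
      MapsTo (G m) (ball 0 R) (ball 0 1) ∧ G m 0 = 0 ∧ ∀ ξ ∈ ball (0 : ℂ) R, F m (G m ξ) = ξ) :
    Tendsto (fun m => ‖deriv (G m) 0‖) atTop (𝓝 1) ∧
      (∀ R : ℝ, 0 < R → R < 1 → ∀ η > (0 : ℝ), ∀ᶠ m in atTop, ∀ ξ ∈ ball (0 : ℂ) R,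
        ‖G m ξ - deriv (G m) 0 * ξ‖ ≤ η ∧ ‖deriv (G m) ξ - deriv (G m) 0‖ ≤ η ∧
        ‖F m ξ - (deriv (G m) 0)⁻¹ * ξ‖ ≤ η ∧ ‖deriv (F m) ξ - (deriv (G m) 0)⁻¹‖ ≤ η) := by
  constructor
  · rw [Metric.tendsto_atTop]
    intro ε hε
    -- choose `R < 1` with `1 - ε < R` and `1/R < 1 + ε`
    obtain ⟨R, hRdef⟩ : ∃ R : ℝ, R = 1 / (1 + ε / 2) := ⟨_, rfl⟩
    have hR : 0 < R := by rw [hRdef]; positivity
    have hR1 : R < 1 := by
      rw [hRdef, div_lt_one (by positivity)]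
      linarith
    have hinv : 1 / R = 1 + ε / 2 := by rw [hRdef, one_div_one_div]
    have hlow : 1 - ε < R := by
      rw [hRdef, lt_div_iff₀ (by positivity)]
      nlinarith
    obtain ⟨N, hN⟩ := eventually_atTop.1 ((hF R hR hR1).and (hG R hR hR1))
    refine ⟨N, fun m hm => ?_⟩
    obtain ⟨⟨a1, a2, a3, a4⟩, b1, b2, b3, -⟩ := hN m hm
    obtain ⟨-, h1, h2, -⟩ := D2i_deriv hR a1 a2 a3 b1 b2 b3 a4
    rw [hinv] at h2
    rw [Real.dist_eq, abs_lt]
    constructor <;> linarith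
  · intro R0 hR0 hR01 η hη
    obtain ⟨R1, hR1def⟩ : ∃ R1 : ℝ, R1 = (R0 + 1) / 2 := ⟨_, rfl⟩
    have h01 : R0 < R1 := by linarith
    have h11 : R1 < 1 := by linarith
    obtain ⟨B, hBdef⟩ : ∃ B : ℝ, B = min η (η * ((R1 - R0) / 2)) := ⟨_, rfl⟩
    have hρ : 0 < (R1 - R0) / 2 := by linarith
    have hB : 0 < B := by
      rw [hBdef]
      exact lt_min hη (mul_pos hη hρ)
    have hB1 : B ≤ η := by rw [hBdef]; exact min_le_left _ _
    have hB2 : B / ((R1 - R0) / 2) ≤ η := by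
      rw [div_le_iff₀ hρ, hBdef]
      exact min_le_right _ _
    obtain ⟨R, h1R, hR1, hbd⟩ := D2i_radius (hR0.trans h01) h11 hB
    have hR : 0 < R := (hR0.trans h01).trans h1R
    filter_upwards [hF R hR hR1, hG R hR hR1] with m hFm hGm
    obtain ⟨a1, a2, a3, a4⟩ := hFm
    obtain ⟨b1, b2, b3, b4⟩ := hGm
    obtain ⟨h1, h2, -, h4⟩ := D2i_deriv hR a1 a2 a3 b1 b2 b3 a4
    have hinv : (deriv (G m) 0)⁻¹ = deriv (F m) 0 := inv_eq_of_mul_eq_one_right h1
    intro ξ hξ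
    obtain ⟨c1, c2⟩ := D2i_half hR hR1 h01 hR0 h1R b1 b2 b3 h2 hbd ξ hξ
    obtain ⟨c3, c4⟩ := D2i_half hR hR1 h01 hR0 h1R a1 a2 a3 h4 hbd ξ hξ
    rw [hinv]
    exact ⟨c1.trans hB1, c2.trans hB2, c3.trans hB1, c4.trans hB2⟩

end CF6

end

section

open Complex MeasureTheory Set Filter Topology Metric

namespace CF6

/-- a perturbed contraction tends to zero -/
theorem D2n_contract (x δ : ℕ → ℝ) (hx : ∀ m, 0 ≤ x m) (hδ : Tendsto δ atTop (𝓝 0))
    (h : ∀ᶠ m in atTop, x (m + 1) ≤ x m / 2 + δ m) : Tendsto x atTop (𝓝 0) := by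
  rw [Metric.tendsto_atTop]
  intro ε hε
  have h1 : ∀ᶠ m in atTop, δ m < ε / 4 := hδ.eventually (gt_mem_nhds (by linarith))
  obtain ⟨N, hN⟩ := eventually_atTop.1 (h.and h1)
  have key : ∀ k : ℕ, x (N + k) ≤ ε / 2 + (1 / 2 : ℝ) ^ k * x N := by
    intro k
    induction k with
    | zero => simp; linarith
    | succ k ih =>
      obtain ⟨h2, h3⟩ := hN (N + k) (by omega)
      have h4 : N + (k + 1) = N + k + 1 := by ring
      rw [h4, pow_succ]
      linarith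
  have h2 : Tendsto (fun k : ℕ => (1 / 2 : ℝ) ^ k * x N) atTop (𝓝 0) := by
    have := (tendsto_pow_atTop_nhds_zero_of_lt_one (r := (1 / 2 : ℝ)) (by norm_num)
      (by norm_num)).mul_const (x N)
    simpa using this
  obtain ⟨K, hK⟩ := eventually_atTop.1 (h2.eventually (gt_mem_nhds (show (0 : ℝ) < ε / 2 by linarith)))
  refine ⟨N + K, fun n hn => ?_⟩
  obtain ⟨k, rfl⟩ : ∃ k, n = N + k := ⟨n - N, by omega⟩
  have h3 := hK k (by omega)
  have h4 := key k
  rw [Real.dist_eq, sub_zero, abs_of_nonneg (hx _)]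
  linarith

/-- D2.11 (about 80 lines), pure sequences. -/
theorem growth (E q H : ℕ → ℂ) (hE : Tendsto E atTop (𝓝 (-1)))
    (hH : Tendsto (fun m => H m - icay (-(3 / 5) * E m)) atTop (𝓝 0))
    (hq : ∀ m, 0 < (q m).im) (hrec : ∀ᶠ m in atTop, q (m + 1) = (q m).re + (q m).im * H m) :
    Tendsto (fun m => (q m).im) atTop atTop ∧
      Tendsto (fun m => (q (m + 1)).im / (q m).im) atTop (𝓝 4) ∧
      Tendsto (fun m => (q m).re / (q m).im) atTop (𝓝 0) := by
  -- the limit of `H`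
  have hic : Tendsto (fun m => icay (-(3 / 5) * E m)) atTop (𝓝 (4 * I)) := by
    have h1 : Tendsto (fun m => -(3 / 5) * E m) atTop (𝓝 (-(3 / 5) * (-1))) := hE.const_mul _
    have h2 : Tendsto (fun m => I * (1 + -(3 / 5) * E m) / (1 - -(3 / 5) * E m)) atTop
        (𝓝 (I * (1 + -(3 / 5) * (-1)) / (1 - -(3 / 5) * (-1)))) := by
      refine Tendsto.div ((h1.const_add 1).const_mul I) (h1.const_sub 1) ?_
      norm_num
    have h3 : (I * (1 + -(3 / 5) * (-1)) / (1 - -(3 / 5) * (-1)) : ℂ) = 4 * I := by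
      norm_num
      ring
    rw [h3] at h2
    exact h2
  have hHl : Tendsto H atTop (𝓝 (4 * I)) := by
    have := hH.add hic
    simpa using this
  have hre : Tendsto (fun m => (H m).re) atTop (𝓝 0) := by
    have := (Complex.continuous_re.tendsto (4 * I)).comp hHl
    simpa [Function.comp_def] using this
  have him : Tendsto (fun m => (H m).im) atTop (𝓝 4) := by
    have := (Complex.continuous_im.tendsto (4 * I)).comp hHl
    simpa [Function.comp_def] using this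
  -- the recursion in real and imaginary parts
  have hrim : ∀ᶠ m in atTop, (q (m + 1)).im = (q m).im * (H m).im := by
    filter_upwards [hrec] with m hm
    rw [hm]
    simp
  have hrre : ∀ᶠ m in atTop, (q (m + 1)).re = (q m).re + (q m).im * (H m).re := by
    filter_upwards [hrec] with m hm
    rw [hm]
    simp
  refine ⟨?_, ?_, ?_⟩
  · -- `Im q` is at least doubled
    have h1 : ∀ᶠ m in atTop, 2 * (q m).im ≤ (q (m + 1)).im := by
      filter_upwards [hrim, him.eventually (lt_mem_nhds (show (2 : ℝ) < 4 by norm_num))] with m h2 h3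
      rw [h2]
      nlinarith [hq m]
    obtain ⟨N, hN⟩ := eventually_atTop.1 h1
    have key : ∀ k : ℕ, (2 : ℝ) ^ k * (q N).im ≤ (q (N + k)).im := by
      intro k
      induction k with
      | zero => simp
      | succ k ih =>
        have h4 := hN (N + k) (by omega)
        have h5 : N + (k + 1) = N + k + 1 := by ring
        rw [h5, pow_succ]
        linarith
    have h2 : Tendsto (fun k : ℕ => (2 : ℝ) ^ k * (q N).im) atTop atTop :=
      (tendsto_pow_atTop_atTop_of_one_lt (by norm_num)).atTop_mul_const (hq N)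
    have h3 : Tendsto (fun k : ℕ => (q (N + k)).im) atTop atTop := tendsto_atTop_mono key h2
    have h4 : Tendsto (fun k : ℕ => (q (k + N)).im) atTop atTop := by
      refine h3.congr (fun k => ?_)
      rw [Nat.add_comm]
    exact (tendsto_add_atTop_iff_nat (f := fun m => (q m).im) N).1 h4
  · refine him.congr' ?_
    filter_upwards [hrim] with m hm
    rw [hm, mul_div_cancel_left₀ _ (hq m).ne']
  · have hx : Tendsto (fun m => |(q m).re / (q m).im|) atTop (𝓝 0) := by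
      refine D2n_contract _ (fun m => |(H m).re|) (fun m => abs_nonneg _) ?_ ?_
      · have := hre.abs
        simpa using this
      · filter_upwards [hrim, hrre, him.eventually (lt_mem_nhds (show (2 : ℝ) < 4 by norm_num))]
          with m h1 h2 h3
        have h4 : (q (m + 1)).re / (q (m + 1)).im = ((q m).re / (q m).im + (H m).re) / (H m).im := by
          rw [h1, h2]
          have h5 := (hq m).ne'
          have h6 : (H m).im ≠ 0 := by linarith
          field_simp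
        rw [h4, abs_div, abs_of_pos (show 0 < (H m).im by linarith)]
        have h5 := abs_add_le ((q m).re / (q m).im) (H m).re
        rw [div_le_iff₀ (by linarith)]
        have h6 := abs_nonneg ((q m).re / (q m).im)
        have h7 := abs_nonneg (H m).re
        nlinarith
    exact (tendsto_zero_iff_abs_tendsto_zero _).2 hx

end CF6

end
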