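import Pool.Agent.Lib.MP_cf6b16_an.DefsB
import Pool.Agent.Lib.MP_cf6b16_an.DE1
import Pool.Agent.Lib.MP_cf6b16_an.DE2

section

/-!
# Module D, first half: a free sector from a path with a derivative at a contact time (helper68)
-/

open Complex MeasureTheory Set Filter Topology Metric

namespace CF6

/-- The closed curve `c` on `[0,1]` has the same winding number about `a` and `b`:
`(c - a)/(c - b)` has a closed continuous logarithm. -/
def SameWind (c : ℝ → ℂ) (a b : ℂ) : Prop :=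
  (∀ t ∈ Icc (0 : ℝ) 1, c t ≠ a ∧ c t ≠ b) ∧ ∃ l : ℝ → ℂ, ContinuousOn l (Icc 0 1) ∧ l 0 = l 1 ∧
    ∀ t ∈ Icc (0 : ℝ) 1, exp (l t) * (c t - b) = c t - a

/-- finite area near the boundary -/
def FinArea (Φ : ℂ → ℂ) : Prop := ∃ y > (0 : ℝ), volume (Φ '' {u | 0 < u.im ∧ u.im < y}) < ⊤

/-- The normalised situation: `p = 0`, derivative `1` (curves `c n` = normalised closed curves, parameter changed so
that the contact part is `c n t = Q n (s1 + 2 t (s2 - s1))`). `K` is the normalised set. -/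
structure Closing (K : Set ℂ) (R a b t0 : ℝ) (q : ℝ → ℂ) (Q : ℕ → ℝ → ℂ) (c : ℕ → ℝ → ℂ)
    (s1 s2 : ℕ → ℝ) : Prop where
  Rpos : 0 < R
  h0K : (0 : ℂ) ∈ K
  hab : a < t0 ∧ t0 < b
  q0 : q t0 = 0
  hd : HasDerivAt q 1 t0
  lin : ∀ t ∈ Icc a b, ‖q t - (t - t0)‖ ≤ (1 / 10) * |t - t0|
  cQ : ∀ n, ContinuousOn (Q n) (Icc a b)
  lim : TendstoUniformlyOn Q q atTop (Icc a b)
  cc : ∀ n, ContinuousOn (c n) (Icc 0 1) ∧ c n 0 = c n 1
  cK : ∀ n, ∀ t ∈ Icc (0 : ℝ) 1, c n t ∉ K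
  same : ∀ n, ∀ k ∈ K, ∀ k' ∈ K, SameWind (c n) k k'
  hs1 : ∃ d > (0 : ℝ), ∀ n, a ≤ s1 n ∧ s1 n ≤ t0 - d
  hs2 : ∃ d > (0 : ℝ), ∀ n, t0 + d ≤ s2 n ∧ s2 n ≤ b
  cpart : ∀ n, ∀ t ∈ Icc (0 : ℝ) (1 / 2), c n t = Q n (s1 n + 2 * t * (s2 n - s1 n))
  cout : ∀ n, ∀ t ∈ Icc (1 / 2 : ℝ) 1, R ≤ ‖c n t‖

end CF6

end

section

open Complex MeasureTheory Set Filter Topology Metric

namespace CF6

/-- D1.1 (about 30 lines) -/
theorem SameWind.equiv (c : ℝ → ℂ) :
    (∀ a, (∀ t ∈ Icc (0 : ℝ) 1, c t ≠ a) → SameWind c a a) ∧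
    (∀ a b, SameWind c a b → SameWind c b a) ∧
    (∀ a b d, SameWind c a b → SameWind c b d → SameWind c a d) := by
  refine ⟨?_, ?_, ?_⟩
  · intro a ha
    refine ⟨fun t ht => ⟨ha t ht, ha t ht⟩, fun _ => 0, continuousOn_const, rfl, fun t _ => ?_⟩
    rw [Complex.exp_zero, one_mul]
  · rintro a b ⟨h1, l, hl, h01, hexp⟩
    refine ⟨fun t ht => ⟨(h1 t ht).2, (h1 t ht).1⟩, fun t => -l t, hl.neg, by simp only; rw [h01],
      fun t ht => ?_⟩
    rw [← hexp t ht, Complex.exp_neg, inv_mul_cancel_left₀ (Complex.exp_ne_zero _)]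
  · rintro a b d ⟨h1, l, hl, h01, hexp⟩ ⟨h1', l', hl', h01', hexp'⟩
    refine ⟨fun t ht => ⟨(h1 t ht).1, (h1' t ht).2⟩, fun t => l t + l' t, hl.add hl',
      by simp only; rw [h01, h01'], fun t ht => ?_⟩
    rw [Complex.exp_add, mul_assoc, hexp' t ht, hexp t ht]

end CF6

end

section

open Complex MeasureTheory Set Filter Topology Metric

namespace CF6

theorem d1b_near {c : ℝ → ℂ} (hc : ContinuousOn c (Icc 0 1)) (h01 : c 0 = c 1) {x : ℂ}
    (hx : ∀ t ∈ Icc (0 : ℝ) 1, c t ≠ x) : ∀ᶠ y in 𝓝 x, SameWind c x y := by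
  have hcn : ContinuousOn (fun t => ‖c t - x‖) (Icc 0 1) := (hc.sub continuousOn_const).norm
  obtain ⟨t0, ht0, hmin⟩ := isCompact_Icc.exists_isMinOn (nonempty_Icc.2 (zero_le_one (α := ℝ))) hcn
  have hδ : 0 < ‖c t0 - x‖ := norm_pos_iff.2 (sub_ne_zero.2 (hx t0 ht0))
  filter_upwards [ball_mem_nhds x hδ] with y hy
  rw [mem_ball, dist_eq_norm] at hy
  have hlt : ∀ t ∈ Icc (0 : ℝ) 1, ‖y - x‖ < ‖c t - x‖ := fun t ht =>
    lt_of_lt_of_le hy (hmin ht)
  have hne0 : ∀ t ∈ Icc (0 : ℝ) 1, c t - x ≠ 0 := fun t ht => sub_ne_zero.2 (hx t ht)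
  have hney : ∀ t ∈ Icc (0 : ℝ) 1, c t ≠ y := by
    intro t ht h
    have := hlt t ht
    rw [h] at this
    exact lt_irrefl _ this
  have heq : ∀ t ∈ Icc (0 : ℝ) 1, (c t - y) / (c t - x) = 1 + -((y - x) / (c t - x)) := by
    intro t ht
    have := hne0 t ht
    field_simp
    ring
  have hslit : ∀ t ∈ Icc (0 : ℝ) 1, (c t - y) / (c t - x) ∈ slitPlane := by
    intro t ht
    rw [heq t ht]
    apply mem_slitPlane_of_norm_lt_one
    rw [norm_neg, norm_div, div_lt_one (norm_pos_iff.2 (hne0 t ht))]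
    exact hlt t ht
  refine ⟨fun t ht => ⟨hx t ht, hney t ht⟩, fun t => -log ((c t - y) / (c t - x)), ?_, ?_, ?_⟩
  · exact (((hc.sub continuousOn_const).div (hc.sub continuousOn_const) hne0).clog hslit).neg
  · simp only [h01]
  · intro t ht
    have h1 : (c t - y) / (c t - x) ≠ 0 :=
      div_ne_zero (sub_ne_zero.2 (hney t ht)) (hne0 t ht)
    rw [exp_neg, exp_log h1, inv_div, div_mul_cancel₀ _ (sub_ne_zero.2 (hney t ht))]

/-- D1.2 (about 60 lines) for `b` close to `a` (closer than the curve) use the principal logarithm of `(c-a)/(c-b)`; then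
`IsPreconnected` via the open equivalence classes. -/
theorem sameWind_of_preconnected {c : ℝ → ℂ} (hc : ContinuousOn c (Icc 0 1)) (h01 : c 0 = c 1)
    {X : Set ℂ} (hX : IsPreconnected X) (hav : ∀ t ∈ Icc (0 : ℝ) 1, c t ∉ X) {a b : ℂ}
    (ha : a ∈ X) (hb : b ∈ X) : SameWind c a b := by
  obtain ⟨_, hsymm, htrans⟩ := SameWind.equiv c
  refine hX.induction₂ (SameWind c) (fun x hx => ?_) (fun x y z _ _ _ h1 h2 => htrans x y z h1 h2)
    (fun x y _ _ h => hsymm x y h) ha hb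
  exact (d1b_near hc h01 (fun t ht h => hav t ht (h ▸ hx))).filter_mono nhdsWithin_le_nhds

end CF6

end

section

open Complex MeasureTheory Set Filter Topology Metric

namespace CF6

theorem d1c_const {l L : ℝ → ℂ} {a b : ℝ} (hab : a ≤ b) (hl : ContinuousOn l (Icc a b))
    (hL : ContinuousOn L (Icc a b)) (he : ∀ t ∈ Icc a b, exp (l t) = exp (L t)) :
    l a - L a = l b - L b := by
  have hn : ∀ t ∈ Icc a b, ∃ n : ℤ, l t - L t = n * (2 * Real.pi * I) := by
    intro t ht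
    obtain ⟨n, hn⟩ := exp_eq_exp_iff_exists_int.1 (he t ht)
    exact ⟨n, by rw [hn]; ring⟩
  have hcont : ContinuousOn (fun t => (l t - L t).im) (Icc a b) :=
    continuous_im.comp_continuousOn (hl.sub hL)
  have him : ∀ t, ∀ n : ℤ, l t - L t = n * (2 * Real.pi * I) → (l t - L t).im = n * (2 * Real.pi) := by
    intro t n h
    rw [h]
    simp
  obtain ⟨n, hn1⟩ := hn a (left_mem_Icc.2 hab)
  obtain ⟨m, hm1⟩ := hn b (right_mem_Icc.2 hab)
  have hpi := Real.pi_pos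
  have key : ∀ k j : ℤ, ¬ ((j : ℝ) * (2 * Real.pi) = (k + 1 / 2) * (2 * Real.pi)) := by
    intro k j h
    have h1 : (j : ℝ) = k + 1 / 2 := mul_right_cancel₀ (by positivity) h
    have h2 : (2 * j : ℝ) = 2 * k + 1 := by rw [h1]; ring
    have h3 : 2 * j = 2 * k + 1 := by exact_mod_cast h2
    omega
  have hnm : n = m := by
    rcases lt_trichotomy n m with h | h | h
    · exfalso
      have h1 : (n : ℝ) + 1 ≤ m := by exact_mod_cast h
      have h2 := intermediate_value_Icc hab hcont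
      have h3 : ((n : ℝ) + 1 / 2) * (2 * Real.pi) ∈ Icc ((l a - L a).im) ((l b - L b).im) := by
        rw [him a n hn1, him b m hm1]
        constructor
        · exact mul_le_mul_of_nonneg_right (by linarith) (by positivity)
        · exact mul_le_mul_of_nonneg_right (by linarith) (by positivity)
      obtain ⟨t, ht, hte⟩ := h2 h3
      obtain ⟨j, hj⟩ := hn t ht
      have h4 : (l t - L t).im = ((n : ℝ) + 1 / 2) * (2 * Real.pi) := hte
      rw [him t j hj] at h4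
      exact key n j h4
    · exact h
    · exfalso
      have h1 : (m : ℝ) + 1 ≤ n := by exact_mod_cast h
      have h2 := intermediate_value_Icc' hab hcont
      have h3 : ((m : ℝ) + 1 / 2) * (2 * Real.pi) ∈ Icc ((l b - L b).im) ((l a - L a).im) := by
        rw [him a n hn1, him b m hm1]
        constructor
        · exact mul_le_mul_of_nonneg_right (by linarith) (by positivity)
        · exact mul_le_mul_of_nonneg_right (by linarith) (by positivity)
      obtain ⟨t, ht, hte⟩ := h2 h3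
      obtain ⟨j, hj⟩ := hn t ht
      have h4 : (l t - L t).im = ((m : ℝ) + 1 / 2) * (2 * Real.pi) := hte
      rw [him t j hj] at h4
      exact key m j h4
  rw [hn1, hm1, hnm]

theorem d1c_diff {u v : ℂ} (h : exp u = exp v) (k : ℤ) (h1 : (2 * k - 2 : ℝ) * Real.pi < (u - v).im)
    (h2 : (u - v).im < (2 * k + 2 : ℝ) * Real.pi) : u - v = k * (2 * Real.pi * I) := by
  obtain ⟨n, hn⟩ := exp_eq_exp_iff_exists_int.1 h
  have h3 : u - v = n * (2 * Real.pi * I) := by rw [hn]; ring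
  have h4 : (u - v).im = n * (2 * Real.pi) := by rw [h3]; simp
  have hpi := Real.pi_pos
  rw [h4] at h1 h2
  have h5 : (2 * k - 2 : ℝ) < 2 * n := by
    have : (2 * k - 2 : ℝ) * Real.pi < (2 * n : ℝ) * Real.pi := by linarith
    exact lt_of_mul_lt_mul_right this hpi.le
  have h6 : (2 * n : ℝ) < 2 * k + 2 := by
    have : (2 * n : ℝ) * Real.pi < (2 * k + 2 : ℝ) * Real.pi := by linarith
    exact lt_of_mul_lt_mul_right this hpi.le
  have h7 : 2 * k - 2 < 2 * n := by exact_mod_cast h5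
  have h8 : 2 * n < 2 * k + 2 := by exact_mod_cast h6
  have h9 : n = k := by omega
  rw [h3, h9]

/-- D1.3 (about 120 lines). `F = (c - iy)/(c + iy)`: off `[ta,tb]` use `log F` (`|F - 1| < 1`), on `[ta,tb]` use
`log(c - iy) - log(c + iy)` (principal logarithms in the lower / upper half plane); at `tb` they agree, at `ta` they differ by `2 π i`. -/
theorem not_sameWind_of_crossing {c : ℝ → ℂ} (hc : ContinuousOn c (Icc 0 1)) (h01 : c 0 = c 1)
    {y ta tb : ℝ} (hy : 0 < y) (h0 : 0 ≤ ta) (hab : ta < tb) (h1 : tb ≤ 1)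
    (hout : ∀ t ∈ Icc (0 : ℝ) 1, t ≤ ta ∨ tb ≤ t → 3 * y < ‖c t‖)
    (hin : ∀ t ∈ Icc ta tb, |(c t).im| < y) (hta : (c ta).re < 0) (htb : 0 < (c tb).re) :
    ¬ SameWind c (I * y) (-(I * y)) := by
  rintro ⟨hne, l, hl, hl01, hle⟩
  have hpi := Real.pi_pos
  have hp : ∀ t ∈ Icc (0 : ℝ) 1, c t + I * y ≠ 0 := by
    intro t ht h
    exact (hne t ht).2 (eq_neg_of_add_eq_zero_left h)
  have hm : ∀ t ∈ Icc (0 : ℝ) 1, c t - I * y ≠ 0 := by
    intro t ht h
    exact (hne t ht).1 (sub_eq_zero.1 h)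
  have hF : ∀ t ∈ Icc (0 : ℝ) 1, exp (l t) = (c t - I * y) / (c t + I * y) := by
    intro t ht
    rw [eq_div_iff (hp t ht)]
    have := hle t ht
    rwa [sub_neg_eq_add] at this
  have hF0 : ∀ t ∈ Icc (0 : ℝ) 1, (c t - I * y) / (c t + I * y) ≠ 0 := fun t ht =>
    div_ne_zero (hm t ht) (hp t ht)
  have hre : ∀ t ∈ Icc (0 : ℝ) 1, t ≤ ta ∨ tb ≤ t → 0 < ((c t - I * y) / (c t + I * y)).re := by
    intro t ht h
    have h2 := hout t ht h
    have h3 : 2 * y < ‖c t + I * y‖ := by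
      have h4 : ‖c t‖ ≤ ‖c t + I * y‖ + ‖I * (y : ℂ)‖ := by
        have h5 := norm_sub_le (c t + I * y) (I * y)
        rwa [add_sub_cancel_right] at h5
      have h5 : ‖I * (y : ℂ)‖ = y := by
        rw [norm_mul, norm_I, one_mul, norm_real, Real.norm_of_nonneg hy.le]
      linarith
    have h6 : (c t - I * y) / (c t + I * y) = 1 + (-(2 * (I * y)) / (c t + I * y)) := by
      rw [eq_comm, ← div_self (hp t ht), ← add_div]
      congr 1
      ring
    have h7 : ‖-(2 * (I * (y : ℂ))) / (c t + I * y)‖ < 1 := by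
      rw [norm_div, norm_neg, norm_mul, norm_mul, norm_I, norm_real, Real.norm_of_nonneg hy.le,
        div_lt_one (by linarith)]
      simpa using h3
    have h8 := abs_re_le_norm (-(2 * (I * (y : ℂ))) / (c t + I * y))
    have h9 := (abs_lt.1 (lt_of_le_of_lt h8 h7)).1
    rw [h6, add_re, one_re]
    linarith
  have hslit : ∀ t ∈ Icc (0 : ℝ) 1, t ≤ ta ∨ tb ≤ t →
      (c t - I * y) / (c t + I * y) ∈ slitPlane := fun t ht h =>
    mem_slitPlane_iff.2 (Or.inl (hre t ht h))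
  have hcF : ContinuousOn (fun t => (c t - I * y) / (c t + I * y)) (Icc 0 1) :=
    (hc.sub continuousOn_const).div (hc.add continuousOn_const) hp
  -- the two logarithms
  set L1 : ℝ → ℂ := fun t => log ((c t - I * y) / (c t + I * y)) with hL1
  set L2 : ℝ → ℂ := fun t => log (c t - I * y) - log (c t + I * y) with hL2
  have hsub1 : Icc 0 ta ⊆ Icc (0 : ℝ) 1 := Icc_subset_Icc le_rfl (hab.le.trans h1)
  have hsub2 : Icc tb 1 ⊆ Icc (0 : ℝ) 1 := Icc_subset_Icc (h0.trans hab.le) le_rfl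
  have hsub3 : Icc ta tb ⊆ Icc (0 : ℝ) 1 := Icc_subset_Icc h0 h1
  have hA := d1c_const (l := l) (L := L1) h0 (hl.mono hsub1)
    ((hcF.mono hsub1).clog (fun t ht => hslit t (hsub1 ht) (Or.inl ht.2)))
    (fun t ht => by rw [hF t (hsub1 ht), hL1, exp_log (hF0 t (hsub1 ht))])
  have hB := d1c_const (l := l) (L := L1) h1 (hl.mono hsub2)
    ((hcF.mono hsub2).clog (fun t ht => hslit t (hsub2 ht) (Or.inr ht.1)))
    (fun t ht => by rw [hF t (hsub2 ht), hL1, exp_log (hF0 t (hsub2 ht))])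
  have himm : ∀ t ∈ Icc ta tb, (c t - I * y).im < 0 := by
    intro t ht
    have h2 := abs_lt.1 (hin t ht)
    simp
    linarith [h2.2]
  have himp : ∀ t ∈ Icc ta tb, 0 < (c t + I * y).im := by
    intro t ht
    have h2 := abs_lt.1 (hin t ht)
    simp
    linarith [h2.1]
  have heL2 : ∀ t ∈ Icc ta tb, exp (L2 t) = (c t - I * y) / (c t + I * y) := by
    intro t ht
    rw [hL2]
    simp only
    rw [exp_sub, exp_log (hm t (hsub3 ht)), exp_log (hp t (hsub3 ht))]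
  have hC := d1c_const (l := l) (L := L2) hab.le (hl.mono hsub3)
    ((((hc.mono hsub3).sub continuousOn_const).clog
      (fun t ht => mem_slitPlane_iff.2 (Or.inr (himm t ht).ne))).sub
      (((hc.mono hsub3).add continuousOn_const).clog
      (fun t ht => mem_slitPlane_iff.2 (Or.inr (himp t ht).ne'))))
    (fun t ht => by rw [hF t (hsub3 ht), heL2 t ht])
  have hta' : ta ∈ Icc ta tb := left_mem_Icc.2 hab.le
  have htb' : tb ∈ Icc ta tb := right_mem_Icc.2 hab.le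
  have hL1im : ∀ t ∈ Icc (0 : ℝ) 1, t ≤ ta ∨ tb ≤ t → |(L1 t).im| < Real.pi / 2 := by
    intro t ht h
    rw [hL1]
    simp only
    rw [log_im, abs_arg_lt_pi_div_two_iff]
    exact Or.inl (hre t ht h)
  have hL2im : ∀ t, (L2 t).im = arg (c t - I * y) - arg (c t + I * y) := by
    intro t
    rw [hL2]
    simp only
    rw [sub_im, log_im, log_im]
  -- at tb
  have hb0 : L2 tb - L1 tb = ((0 : ℤ) : ℂ) * (2 * Real.pi * I) := by
    have h2 := abs_lt.1 (hL1im tb (hsub3 htb') (Or.inr le_rfl))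
    have h3 : |arg (c tb - I * y)| < Real.pi / 2 := by
      rw [abs_arg_lt_pi_div_two_iff]
      left
      simpa using htb
    have h4 : |arg (c tb + I * y)| < Real.pi / 2 := by
      rw [abs_arg_lt_pi_div_two_iff]
      left
      simpa using htb
    have h5 : arg (c tb - I * y) < 0 := arg_neg_iff.2 (himm tb htb')
    have h6 : 0 ≤ arg (c tb + I * y) := arg_nonneg_iff.2 (himp tb htb').le
    have h3' := abs_lt.1 h3
    have h4' := abs_lt.1 h4
    apply d1c_diff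
    · rw [heL2 tb htb', hL1]
      simp only
      rw [exp_log (hF0 tb (hsub3 htb'))]
    · rw [sub_im, hL2im]
      push_cast
      linarith [h2.1, h2.2, h3'.1, h4'.2]
    · rw [sub_im, hL2im]
      push_cast
      linarith [h2.1, h2.2, h3'.1, h4'.2]
  -- at ta
  have ha0 : L2 ta - L1 ta = ((-1 : ℤ) : ℂ) * (2 * Real.pi * I) := by
    have h2 := abs_lt.1 (hL1im ta (hsub3 hta') (Or.inl le_rfl))
    have h3 : arg (c ta - I * y) < -(Real.pi / 2) := by
      rw [← not_le, neg_pi_div_two_le_arg_iff]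
      rintro (h | h)
      · have : 0 ≤ (c ta).re := by simpa using h
        linarith
      · linarith [himm ta hta']
    have h4 : Real.pi / 2 < arg (c ta + I * y) := by
      rw [← not_le, arg_le_pi_div_two_iff]
      rintro (h | h)
      · have : 0 ≤ (c ta).re := by simpa using h
        linarith
      · linarith [himp ta hta']
    have h5 := neg_pi_lt_arg (c ta - I * y)
    have h6 := arg_le_pi (c ta + I * y)
    apply d1c_diff
    · rw [heL2 ta hta', hL1]
      simp only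
      rw [exp_log (hF0 ta (hsub3 hta'))]
    · rw [sub_im, hL2im]
      push_cast
      linarith [h2.1, h2.2]
    · rw [sub_im, hL2im]
      push_cast
      linarith [h2.1, h2.2]
  have hL01 : L1 0 = L1 1 := by
    rw [hL1]
    simp only
    rw [h01]
  have hzero : (2 * Real.pi * I : ℂ) = 0 := by
    have e1 : L2 tb = L1 tb := by
      rw [Int.cast_zero, zero_mul] at hb0
      exact sub_eq_zero.1 hb0
    have e2 : L2 ta = L1 ta - 2 * Real.pi * I := by
      have := ha0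
      push_cast at this
      linear_combination this
    rw [hl01, hL01] at hA
    rw [e2, e1] at hC
    linear_combination hC + hB + hA
  exact two_pi_I_ne_zero hzero

end CF6

end

section

open Complex MeasureTheory Set Filter Topology Metric

namespace CF6

theorem d1h_seg {w : ℂ} {σ η : ℝ} (hσ : σ = 1 ∨ σ = -1) (hη1 : η < 1) (hη : 0 < η)
    (hw : η * ‖w‖ < σ * w.im) {z : ℂ} (hz : z ∈ segment ℝ w (σ * (I * ‖w‖))) :
    ‖z‖ ≤ ‖w‖ ∧ η * ‖z‖ < σ * z.im := by
  have hw0 : 0 < ‖w‖ := by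
    rw [norm_pos_iff]
    rintro rfl
    simp at hw
  have hσσ : σ * σ = 1 := by rcases hσ with h | h <;> rw [h] <;> norm_num
  have hnσ : ‖(σ : ℂ)‖ = 1 := by
    rw [Complex.norm_real, Real.norm_eq_abs]
    rcases hσ with h | h <;> rw [h] <;> norm_num
  have hn : ‖(σ : ℂ) * (I * ‖w‖)‖ = ‖w‖ := by
    rw [norm_mul, norm_mul, hnσ, Complex.norm_I, one_mul, one_mul, Complex.norm_real, norm_norm]
  have him : ((σ : ℂ) * (I * ‖w‖)).im = σ * ‖w‖ := by simp
  obtain ⟨θ, θ', h0, h0', h1, rfl⟩ := hz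
  have hzn : ‖θ • w + θ' • ((σ : ℂ) * (I * ‖w‖))‖ ≤ ‖w‖ := by
    refine (norm_add_le _ _).trans ?_
    rw [norm_smul, norm_smul, hn, Real.norm_eq_abs, Real.norm_eq_abs, abs_of_nonneg h0,
      abs_of_nonneg h0', ← add_mul, h1, one_mul]
  refine ⟨hzn, ?_⟩
  have h2 : (θ • w + θ' • ((σ : ℂ) * (I * ‖w‖))).im = θ * w.im + θ' * (σ * ‖w‖) := by
    rw [Complex.add_im, Complex.smul_im, Complex.smul_im, him, smul_eq_mul, smul_eq_mul]
  rw [h2]
  have h3 : σ * (θ * w.im + θ' * (σ * ‖w‖)) = θ * (σ * w.im) + θ' * ‖w‖ := by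
    linear_combination θ' * ‖w‖ * hσσ
  rw [h3]
  have h4 : η * ‖w‖ < ‖w‖ := by nlinarith
  have h5 : η * ‖θ • w + θ' • ((σ : ℂ) * (I * ‖w‖))‖ ≤ η * ‖w‖ :=
    mul_le_mul_of_nonneg_left hzn hη.le
  have h6 : θ = 1 - θ' := by linarith
  rcases h0'.eq_or_lt with h7 | h7
  · rw [← h7] at h6 ⊢
    rw [h6]
    rw [← h7] at h5
    rw [h6] at h5
    linarith
  · have h8 : θ * (η * ‖w‖) ≤ θ * (σ * w.im) := mul_le_mul_of_nonneg_left hw.le h0
    have h9 : θ' * (η * ‖w‖) < θ' * ‖w‖ := mul_lt_mul_of_pos_left h4 h7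
    have h10 : θ * (η * ‖w‖) + θ' * (η * ‖w‖) = η * ‖w‖ := by rw [← add_mul, h1, one_mul]
    linarith

theorem d1h_vert {σ y y' : ℝ} (hσ : σ = 1 ∨ σ = -1) (hy : 0 < y) (hy' : 0 < y') {z : ℂ}
    (hz : z ∈ segment ℝ ((σ : ℂ) * (I * y)) (σ * (I * y'))) :
    z.re = 0 ∧ 0 < σ * z.im ∧ ‖z‖ ≤ max y y' := by
  have hσσ : σ * σ = 1 := by rcases hσ with h | h <;> rw [h] <;> norm_num
  have hnσ : ‖(σ : ℂ)‖ = 1 := by
    rw [Complex.norm_real, Real.norm_eq_abs]
    rcases hσ with h | h <;> rw [h] <;> norm_num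
  obtain ⟨θ, θ', h0, h0', h1, rfl⟩ := hz
  have h2 : θ • ((σ : ℂ) * (I * y)) + θ' • ((σ : ℂ) * (I * y')) =
      σ * (I * ((θ * y + θ' * y' : ℝ) : ℂ)) := by
    simp only [Complex.real_smul]
    push_cast
    ring
  have hpos : 0 < θ * y + θ' * y' := by
    rcases h0'.eq_or_lt with h7 | h7
    · rw [← h7] at h1 ⊢
      have : θ = 1 := by linarith
      rw [this]
      linarith
    · have := mul_pos h7 hy'
      have := mul_nonneg h0 hy.le
      linarith
  rw [h2]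
  refine ⟨by simp, ?_, ?_⟩
  · have : ((σ : ℂ) * (I * ((θ * y + θ' * y' : ℝ) : ℂ))).im = σ * (θ * y + θ' * y') := by simp
    rw [this, ← mul_assoc, hσσ, one_mul]
    exact hpos
  · rw [norm_mul, norm_mul, hnσ, Complex.norm_I, one_mul, one_mul, Complex.norm_real,
      Real.norm_eq_abs, abs_of_pos hpos]
    have h3 : θ * y ≤ θ * max y y' := mul_le_mul_of_nonneg_left (le_max_left _ _) h0
    have h4 : θ' * y' ≤ θ' * max y y' := mul_le_mul_of_nonneg_left (le_max_right _ _) h0'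
    have h5 : θ * max y y' + θ' * max y y' = max y y' := by rw [← add_mul, h1, one_mul]
    linarith

theorem d1h_compact (a b : ℂ) : IsCompact (segment ℝ a b) := by
  rw [segment_eq_image']
  exact isCompact_Icc.image (by fun_prop)

/-- D1.8 (about 150 lines). Free sector: a point `w` of the sector is joined to `σ i y0` inside the sector, away from `c n` for
large `n` (inside the ball of radius `R` the curve satisfies `|Im| ≤ (η/2) |w| + ε_n`), so `w ∈ K` is impossible. -/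
theorem free_sector {K : Set ℂ} {R a b t0 : ℝ} {q : ℝ → ℂ} {Q c : ℕ → ℝ → ℂ} {s1 s2 : ℕ → ℝ}
    (H : Closing K R a b t0 q Q c s1 s2) {y0 σ : ℝ} (hy : 0 < y0) (hyR : 10 * y0 < R)
    (hyd : ∀ n, 10 * y0 < t0 - s1 n ∧ 10 * y0 < s2 n - t0) (hσ : σ = 1 ∨ σ = -1)
    (hf : ∃ᶠ n in atTop, ∀ k ∈ K, ¬ SameWind (c n) (σ * (I * y0)) k) (η : ℝ) (hη : 0 < η) :
    ∃ r > (0 : ℝ), ∀ w : ℂ, ‖w‖ < r → η * ‖w‖ < σ * w.im → w ∉ K := by
  obtain ⟨η1, hη1⟩ : ∃ η1 : ℝ, η1 = min η (1 / 2) := ⟨_, rfl⟩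
  have hη1p : 0 < η1 := by rw [hη1]; exact lt_min hη (by norm_num)
  have hη1' : η1 < 1 := by
    rw [hη1]
    exact lt_of_le_of_lt (min_le_right _ _) (by norm_num)
  have hη1η : η1 ≤ η := by rw [hη1]; exact min_le_left _ _
  have hlin : ∀ᶠ t in 𝓝 t0, ‖q t - q t0 - (t - t0) • (1 : ℂ)‖ ≤ η1 / 2 * ‖t - t0‖ :=
    (hasDerivAt_iff_isLittleO.mp H.hd).def (by positivity)
  obtain ⟨d, hd, hlin⟩ := Metric.eventually_nhds_iff.mp hlin
  refine ⟨min (d / 2) y0, lt_min (by positivity) hy, fun w hw hws hwK => ?_⟩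
  have hwd : ‖w‖ < d / 2 := lt_of_lt_of_le hw (min_le_left _ _)
  have hwy : ‖w‖ < y0 := lt_of_lt_of_le hw (min_le_right _ _)
  have hws1 : η1 * ‖w‖ < σ * w.im :=
    lt_of_le_of_lt (mul_le_mul_of_nonneg_right hη1η (norm_nonneg _)) hws
  have hw0 : 0 < ‖w‖ := by
    rw [norm_pos_iff]
    rintro rfl
    simp at hws
  have hσabs : |σ| = 1 := by rcases hσ with h | h <;> rw [h] <;> norm_num
  obtain ⟨X, hXdef⟩ : ∃ X : Set ℂ, X = segment ℝ w (σ * (I * ‖w‖)) ∪
    segment ℝ ((σ : ℂ) * (I * (‖w‖ : ℝ))) (σ * (I * y0)) := ⟨_, rfl⟩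
  have hX1 : IsPreconnected X := by
    rw [hXdef]
    exact IsPreconnected.union _ (right_mem_segment ℝ _ _) (left_mem_segment ℝ _ _)
      (convex_segment _ _).isPreconnected (convex_segment _ _).isPreconnected
  have hX2 : IsCompact X := by
    rw [hXdef]
    exact (d1h_compact _ _).union (d1h_compact _ _)
  have hXn : ∀ z ∈ X, ‖z‖ ≤ y0 ∧ 0 < σ * z.im := by
    intro z hz
    rw [hXdef] at hz
    rcases hz with hz | hz
    · obtain ⟨h1, h2⟩ := d1h_seg hσ hη1' hη1p hws1 hz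
      exact ⟨by linarith, lt_of_le_of_lt (by positivity) h2⟩
    · obtain ⟨_, h2, h3⟩ := d1h_vert hσ hw0 hy hz
      exact ⟨h3.trans (max_le hwy.le le_rfl), h2⟩
  have hqX : ∀ s ∈ Icc a b, q s ∉ X := by
    intro s hs hsX
    have h1 := (hXn _ hsX).2
    have h2 := H.lin s hs
    by_cases hst : s = t0
    · rw [hst, H.q0, Complex.zero_im, mul_zero] at h1
      exact lt_irrefl _ h1
    have hst' : 0 < |s - t0| := abs_pos.mpr (sub_ne_zero.mpr hst)
    rw [hXdef] at hsX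
    rcases hsX with hz | hz
    · obtain ⟨h3, h4⟩ := d1h_seg hσ hη1' hη1p hws1 hz
      have h5 : |s - t0| ≤ ‖q s‖ + 1 / 10 * |s - t0| := by
        have h6 : ((s : ℂ) - t0) = q s - (q s - (s - t0)) := by ring
        have h7 : ‖((s : ℂ) - t0)‖ = |s - t0| := by
          rw [← Complex.ofReal_sub, Complex.norm_real, Real.norm_eq_abs]
        rw [← h7]
        calc ‖((s : ℂ) - t0)‖ = ‖q s - (q s - (s - t0))‖ := by rw [← h6]
          _ ≤ ‖q s‖ + ‖q s - (s - t0)‖ := norm_sub_le _ _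
          _ ≤ _ := by
            rw [h7]
            linarith
      have h6 : dist s t0 < d := by
        rw [Real.dist_eq]
        linarith
      have h7 := hlin h6
      rw [H.q0, sub_zero, Real.norm_eq_abs] at h7
      have h8 : |(q s).im| ≤ η1 / 2 * |s - t0| := by
        have h9 := (Complex.abs_im_le_norm (q s - (s - t0) • (1 : ℂ))).trans h7
        have h10 : (q s - (s - t0) • (1 : ℂ)).im = (q s).im := by simp
        rwa [h10] at h9
      have h9 : σ * (q s).im ≤ |(q s).im| := by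
        calc σ * (q s).im ≤ |σ * (q s).im| := le_abs_self _
          _ = |(q s).im| := by rw [abs_mul, hσabs, one_mul]
      have h10 : η1 / 2 * |s - t0| ≤ η1 * ‖q s‖ := by nlinarith
      linarith
    · obtain ⟨h3, _, _⟩ := d1h_vert hσ hw0 hy hz
      have h4 : |s - t0| ≤ ‖q s - (s - t0)‖ := by
        have h5 := Complex.abs_re_le_norm (q s - (s - t0))
        have h6 : (q s - (s - t0)).re = -(s - t0) := by
          simp [h3]
        rwa [h6, abs_neg] at h5
      linarith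
  have hqc : ContinuousOn q (Icc a b) := H.lim.continuousOn (Frequently.of_forall H.cQ)
  have hdisj : Disjoint (q '' Icc a b) X := by
    rw [Set.disjoint_left]
    rintro _ ⟨s, hs, rfl⟩
    exact hqX s hs
  obtain ⟨ε, hε, hdis⟩ := hdisj.exists_thickenings (isCompact_Icc.image_of_continuousOn hqc)
    hX2.isClosed
  have hev : ∀ᶠ n in atTop, ∀ s ∈ Icc a b, dist (q s) (Q n s) < ε :=
    Metric.tendstoUniformlyOn_iff.mp H.lim ε hε
  obtain ⟨n, hn1, hn2⟩ := (hf.and_eventually hev).exists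
  obtain ⟨d1, hd1, hs1⟩ := H.hs1
  obtain ⟨d2, hd2, hs2⟩ := H.hs2
  refine hn1 w hwK ?_
  refine sameWind_of_preconnected (H.cc n).1 (H.cc n).2 hX1 ?_ ?_ ?_
  · intro t ht htX
    rcases le_total t (1 / 2) with h | h
    · rw [H.cpart n t ⟨ht.1, h⟩] at htX
      have h1 := hs1 n
      have h2 := hs2 n
      have h3 : s1 n + 2 * t * (s2 n - s1 n) ∈ Icc a b := by
        have h4 : 0 ≤ s2 n - s1 n := by linarith
        have h5 : 0 ≤ 2 * t := by linarith [ht.1]
        constructor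
        · have := mul_nonneg h5 h4
          linarith
        · have h6 : 2 * t * (s2 n - s1 n) ≤ 1 * (s2 n - s1 n) :=
            mul_le_mul_of_nonneg_right (by linarith) h4
          linarith
      have h4 := hn2 _ h3
      refine (Set.disjoint_left.mp hdis) ?_ (Metric.self_subset_thickening hε _ htX)
      rw [Metric.mem_thickening_iff]
      exact ⟨_, mem_image_of_mem q h3, by rw [dist_comm]; exact h4⟩
    · have h1 := H.cout n t ⟨h, ht.2⟩
      have h2 := (hXn _ htX).1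
      linarith
  · rw [hXdef]
    exact Or.inr (right_mem_segment ℝ _ _)
  · rw [hXdef]
    exact Or.inl (left_mem_segment ℝ _ _)

end CF6

end

section

open Complex MeasureTheory Set Filter Topology Metric

namespace CF6

/-- D1.9 (about 120 lines). Descent: from `σ i y` go straight towards `-σ i y` until the curve `c n` is hit (it is hit, otherwise
`SameWind (iy) (-iy)`); before that no point of `K` is met; the hitting point is `Q n t` with `t → t0`. -/
theorem descent {K : Set ℂ} {R a b t0 : ℝ} {q : ℝ → ℂ} {Q c : ℕ → ℝ → ℂ} {s1 s2 : ℕ → ℝ}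
    (H : Closing K R a b t0 q Q c s1 s2) {y0 σ : ℝ} (hy : 0 < y0) (hyR : 10 * y0 < R)
    (hyd : ∀ n, 10 * y0 < t0 - s1 n ∧ 10 * y0 < s2 n - t0) (hσ : σ = 1 ∨ σ = -1)
    (hf : ∃ᶠ n in atTop, ∀ k ∈ K, ¬ SameWind (c n) (σ * (I * y0)) k) (y : ℝ) (h0 : 0 < y)
    (h1 : y < y0) (δ : ℝ) (hδ : 0 < δ) :
    ∃ᶠ n in atTop, ∃ t ∈ Icc a b, |t - t0| < δ ∧ ∃ S : Set ℂ, IsPreconnected S ∧ Disjoint S K ∧
      (σ * (I * y) : ℂ) ∈ S ∧ Q n t ∈ S ∧ S ⊆ closedBall 0 y := by
  classical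
  obtain ⟨ε, hε, hε1, hε2⟩ : ∃ ε > (0 : ℝ), ε ≤ y / 10 ∧ ε ≤ δ / 2 :=
    ⟨min (y / 10) (δ / 2), by positivity, min_le_left _ _, min_le_right _ _⟩
  have hlim := Metric.tendstoUniformlyOn_iff.1 H.lim ε hε
  refine (hf.and_eventually hlim).mono ?_
  rintro n ⟨hn1, hn2⟩
  obtain ⟨da, hda, hda'⟩ := H.hs1
  obtain ⟨db, hdb, hdb'⟩ := H.hs2
  have hs1a : a ≤ s1 n := (hda' n).1
  have hs1t : s1 n < t0 := by have := (hda' n).2; linarith
  have hs2b : s2 n ≤ b := (hdb' n).2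
  have hs2t : t0 < s2 n := by have := (hdb' n).1; linarith
  obtain ⟨hyd1, hyd2⟩ := hyd n
  have hσ1 : |σ| = 1 := by
    rcases hσ with rfl | rfl <;> simp
  -- estimates for `Q n`
  have hQ : ∀ t ∈ Icc a b, ‖Q n t - ((t : ℂ) - t0)‖ ≤ (1 / 10) * |t - t0| + ε := by
    intro t ht
    have e1 := H.lin t ht
    have e2 := hn2 t ht
    rw [dist_comm, dist_eq_norm] at e2
    have e3 : ‖Q n t - ((t : ℂ) - t0)‖ ≤ ‖Q n t - q t‖ + ‖q t - ((t : ℂ) - t0)‖ :=
      norm_sub_le_norm_sub_add_norm_sub _ _ _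
    linarith
  have hQre : ∀ t ∈ Icc a b, |(Q n t).re - (t - t0)| ≤ (1 / 10) * |t - t0| + ε := by
    intro t ht
    have e1 := (Complex.abs_re_le_norm (Q n t - ((t : ℂ) - t0))).trans (hQ t ht)
    simpa using e1
  have hQim : ∀ t ∈ Icc a b, |(Q n t).im| ≤ (1 / 10) * |t - t0| + ε := by
    intro t ht
    have e1 := (Complex.abs_im_le_norm (Q n t - ((t : ℂ) - t0))).trans (hQ t ht)
    simpa using e1
  have hQnorm : ∀ t ∈ Icc a b, (9 / 10) * |t - t0| - ε ≤ ‖Q n t‖ := by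
    intro t ht
    have e1 := hQ t ht
    have e2 : ‖((t : ℂ) - t0)‖ = |t - t0| := by
      rw [← Complex.ofReal_sub, Complex.norm_real, Real.norm_eq_abs]
    have e3 : ‖((t : ℂ) - t0)‖ ≤ ‖((t : ℂ) - t0) - Q n t‖ + ‖Q n t‖ := by
      have := norm_add_le (((t : ℂ) - t0) - Q n t) (Q n t)
      rwa [sub_add_cancel] at this
    rw [norm_sub_rev ((t : ℂ) - t0) (Q n t)] at e3
    linarith
  have hnorm : ∀ h : ℝ, ‖(σ * (I * h) : ℂ)‖ = |h| := by
    intro h
    rw [norm_mul, norm_mul, Complex.norm_I, Complex.norm_real, Complex.norm_real,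
      Real.norm_eq_abs, Real.norm_eq_abs, hσ1, one_mul, one_mul]
  have htime : ∀ τ ∈ Icc (0 : ℝ) (1 / 2), s1 n + 2 * τ * (s2 n - s1 n) ∈ Icc a b := by
    intro τ hτ
    have e1 : 0 ≤ 2 * τ * (s2 n - s1 n) := mul_nonneg (by linarith [hτ.1]) (by linarith)
    have e2 : 2 * τ * (s2 n - s1 n) ≤ 1 * (s2 n - s1 n) :=
      mul_le_mul_of_nonneg_right (by linarith [hτ.2]) (by linarith)
    exact ⟨by linarith, by linarith⟩
  -- hits of the imaginary axis
  have hΓ : ∀ h : ℝ, |h| ≤ y0 → ∀ τ ∈ Icc (0 : ℝ) 1, c n τ = σ * (I * h) →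
      ∃ t ∈ Icc a b, Q n t = σ * (I * h) ∧ |t - t0| < δ ∧ |h| < y := by
    intro h hh τ hτ hcτ
    have hτ2 : τ ≤ 1 / 2 := by
      by_contra hcon
      push Not at hcon
      have e1 := H.cout n τ ⟨hcon.le, hτ.2⟩
      rw [hcτ, hnorm] at e1
      linarith
    have e2 := H.cpart n τ ⟨hτ.1, hτ2⟩
    have e3 := htime τ ⟨hτ.1, hτ2⟩
    refine ⟨s1 n + 2 * τ * (s2 n - s1 n), e3, by rw [← e2, hcτ], ?_⟩
    set t := s1 n + 2 * τ * (s2 n - s1 n) with ht
    have e4 := hQre t e3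
    have e5 := hQim t e3
    rw [← e2, hcτ] at e4 e5
    have e6 : (σ * (I * h) : ℂ).re = 0 := by simp
    have e7 : (σ * (I * h) : ℂ).im = σ * h := by simp
    rw [e6, zero_sub, abs_neg] at e4
    rw [e7, abs_mul, hσ1, one_mul] at e5
    constructor <;> linarith
  -- the curve
  have hcc := (H.cc n).1
  have hc01 := (H.cc n).2
  have hcross : ¬ SameWind (c n) (I * y) (-(I * y)) := by
    have hD : 0 < 2 * (s2 n - s1 n) := by linarith
    have hDne : s2 n - s1 n ≠ 0 := by linarith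
    refine not_sameWind_of_crossing (ta := (t0 - 4 * y - s1 n) / (2 * (s2 n - s1 n)))
      (tb := (t0 + 4 * y - s1 n) / (2 * (s2 n - s1 n))) hcc hc01 h0 ?_ ?_ ?_ ?_ ?_ ?_ ?_
    · exact div_nonneg (by linarith) hD.le
    · exact div_lt_div_of_pos_right (by linarith) hD
    · rw [div_le_one hD]
      linarith
    · intro τ hτ hor
      rcases le_or_gt τ (1 / 2) with h2 | h2
      · have e1 := H.cpart n τ ⟨hτ.1, h2⟩
        have e2 := htime τ ⟨hτ.1, h2⟩
        have e3 := hQnorm _ e2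
        rw [← e1] at e3
        have e4 : 4 * y ≤ |s1 n + 2 * τ * (s2 n - s1 n) - t0| := by
          rcases hor with h3 | h3
          · rw [le_div_iff₀ hD] at h3
            rw [abs_sub_comm]
            refine le_trans ?_ (le_abs_self _)
            linarith
          · rw [div_le_iff₀ hD] at h3
            refine le_trans ?_ (le_abs_self _)
            linarith
        linarith
      · have e1 := H.cout n τ ⟨h2.le, hτ.2⟩
        linarith
    · intro τ hτ
      have e0 : 0 ≤ τ := le_trans (div_nonneg (by linarith) hD.le) hτ.1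
      have e0' : τ ≤ 1 / 2 := by
        refine hτ.2.trans ?_
        rw [div_le_iff₀ hD]
        linarith
      have e1 := H.cpart n τ ⟨e0, e0'⟩
      have e2 := htime τ ⟨e0, e0'⟩
      have e3 := hQim _ e2
      rw [← e1] at e3
      have h3 := hτ.1
      have h4 := hτ.2
      rw [div_le_iff₀ hD] at h3
      rw [le_div_iff₀ hD] at h4
      have e4 : |s1 n + 2 * τ * (s2 n - s1 n) - t0| ≤ 4 * y := by
        rw [abs_le]
        constructor <;> linarith
      linarith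
    · have e0 : 0 ≤ (t0 - 4 * y - s1 n) / (2 * (s2 n - s1 n)) := div_nonneg (by linarith) hD.le
      have e0' : (t0 - 4 * y - s1 n) / (2 * (s2 n - s1 n)) ≤ 1 / 2 := by
        rw [div_le_iff₀ hD]
        linarith
      have e1 := H.cpart n _ ⟨e0, e0'⟩
      have e2 := htime _ ⟨e0, e0'⟩
      have e3 := hQre _ e2
      rw [← e1] at e3
      have e4 : s1 n + 2 * ((t0 - 4 * y - s1 n) / (2 * (s2 n - s1 n))) * (s2 n - s1 n) =
          t0 - 4 * y := by
        field_simp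
        ring
      rw [e4] at e3
      have e5 : t0 - 4 * y - t0 = -(4 * y) := by ring
      rw [e5, abs_neg, abs_of_pos (by linarith : 0 < 4 * y)] at e3
      have := (abs_le.1 e3).2
      linarith
    · have e0 : 0 ≤ (t0 + 4 * y - s1 n) / (2 * (s2 n - s1 n)) := div_nonneg (by linarith) hD.le
      have e0' : (t0 + 4 * y - s1 n) / (2 * (s2 n - s1 n)) ≤ 1 / 2 := by
        rw [div_le_iff₀ hD]
        linarith
      have e1 := H.cpart n _ ⟨e0, e0'⟩
      have e2 := htime _ ⟨e0, e0'⟩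
      have e3 := hQre _ e2
      rw [← e1] at e3
      have e4 : s1 n + 2 * ((t0 + 4 * y - s1 n) / (2 * (s2 n - s1 n))) * (s2 n - s1 n) =
          t0 + 4 * y := by
        field_simp
        ring
      rw [e4] at e3
      have e5 : t0 + 4 * y - t0 = 4 * y := by ring
      rw [e5, abs_of_pos (by linarith : 0 < 4 * y)] at e3
      have := (abs_le.1 e3).1
      linarith
  -- the set of hits
  have hline : Continuous fun h : ℝ => (σ * (I * h) : ℂ) := by fun_prop
  have hΓc : IsCompact (c n '' Icc 0 1) := isCompact_Icc.image_of_continuousOn hcc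
  have hZc : IsCompact (Icc (-y) y ∩ (fun h : ℝ => (σ * (I * h) : ℂ)) ⁻¹' (c n '' Icc 0 1)) :=
    isCompact_Icc.inter_right (hΓc.isClosed.preimage hline)
  have hZne : (Icc (-y) y ∩ (fun h : ℝ => (σ * (I * h) : ℂ)) ⁻¹' (c n '' Icc 0 1)).Nonempty := by
    by_contra hcon
    rw [Set.not_nonempty_iff_eq_empty] at hcon
    apply hcross
    refine sameWind_of_preconnected hcc hc01
      (X := (fun h : ℝ => (σ * (I * h) : ℂ)) '' Icc (-y) y)
      (isPreconnected_Icc.image _ hline.continuousOn) ?_ ?_ ?_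
    · rintro τ hτ ⟨h, hh, hh'⟩
      have : h ∈ Icc (-y) y ∩ (fun h : ℝ => (σ * (I * h) : ℂ)) ⁻¹' (c n '' Icc 0 1) :=
        ⟨hh, τ, hτ, hh'.symm⟩
      rw [hcon] at this
      exact this
    · rcases hσ with rfl | rfl
      · exact ⟨y, ⟨by linarith, le_rfl⟩, by simp⟩
      · exact ⟨-y, ⟨le_rfl, by linarith⟩, by simp⟩
    · rcases hσ with rfl | rfl
      · exact ⟨-y, ⟨le_rfl, by linarith⟩, by simp⟩
      · exact ⟨y, ⟨by linarith, le_rfl⟩, by simp⟩
  obtain ⟨hs, hhs, hhs'⟩ := hZc.exists_isMaxOn hZne continuousOn_id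
  obtain ⟨hsy, τ, hτ, hτc⟩ := hhs
  have hsy' : |hs| ≤ y := abs_le.2 hsy
  obtain ⟨t, ht, hQt, htδ, _⟩ := hΓ hs (hsy'.trans h1.le) τ hτ hτc
  refine ⟨t, ht, htδ, (fun h : ℝ => (σ * (I * h) : ℂ)) '' Icc hs y,
    isPreconnected_Icc.image _ hline.continuousOn, ?_, ⟨y, ⟨hsy.2, le_rfl⟩, rfl⟩,
    ⟨hs, ⟨le_rfl, hsy.2⟩, hQt.symm⟩, ?_⟩
  · rw [Set.disjoint_left]
    rintro _ ⟨h, hh, rfl⟩ hk
    have hne : hs < h := by
      rcases eq_or_lt_of_le hh.1 with h2 | h2
      · exfalso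
        rw [← h2] at hk
        exact H.cK n τ hτ (by rw [hτc]; exact hk)
      · exact h2
    refine hn1 _ hk ?_
    refine sameWind_of_preconnected hcc hc01
      (X := (fun h : ℝ => (σ * (I * h) : ℂ)) '' Icc h y0)
      (isPreconnected_Icc.image _ hline.continuousOn) ?_
      ⟨y0, ⟨by linarith [hh.2], le_rfl⟩, rfl⟩ ⟨h, ⟨le_rfl, by linarith [hh.2]⟩, rfl⟩
    rintro τ' hτ' ⟨h', hh', hh''⟩
    have e0 : -y ≤ h' := by linarith [hsy.1, hh'.1]
    have e1 : |h'| ≤ y0 := abs_le.2 ⟨by linarith, hh'.2⟩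
    obtain ⟨_, _, _, _, e2⟩ := hΓ h' e1 τ' hτ' hh''.symm
    have e3 : h' ∈ Icc (-y) y := ⟨e0, (abs_lt.1 e2).2.le⟩
    have e4 : h' ≤ hs := hhs' ⟨e3, τ', hτ', hh''.symm⟩
    linarith [hh'.1]
  · rintro _ ⟨h, hh, rfl⟩
    rw [mem_closedBall_zero_iff, hnorm, abs_le]
    exact ⟨by linarith [hsy.1, hh.1], hh.2⟩

end CF6

end

section

open Complex MeasureTheory Set Filter Topology Metric

namespace CF6

/-- D1.10 (about 150 lines) `U(w) = x - i log(ρ(p + e w) e^{-ix})`. -/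
theorem sector_mk {K : Set ℂ} {Φ ρ : ℂ → ℂ} (hK : Collar K Φ ρ) {C0 y1 : ℝ} (hC : 0 < C0)
    (hy : 0 < y1) (hKo : Koebe C0 y1 K Φ) {x : ℝ} {p e : ℂ} (he : ‖e‖ = 1) (hp : p ∈ K)
    (free : ∀ η > (0 : ℝ), ∃ r > (0 : ℝ), ∀ w : ℂ, ‖w‖ < r → η * ‖w‖ < w.im → p + e * w ∉ K)
    (dense : ∀ η > (0 : ℝ), ∃ r > (0 : ℝ), ∀ s : ℝ, 0 < s → s < r → ∀ t : ℝ, |t| ≤ s →
      ∃ k ∈ K, ‖p + e * t - k‖ ≤ η * s)
    (lim : ∀ η > (0 : ℝ), Tendsto (fun w => ρ (p + e * w)) (𝓝[{w : ℂ | η * ‖w‖ < w.im}] 0)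
      (𝓝 (exp (I * x)))) :
    ∃ U : ℂ → ℂ, Sector K Φ U x p e C0 y1 := by
  have hex : exp (I * x) ≠ 0 := exp_ne_zero _
  have hnx : ‖exp (I * x)‖ = 1 := by rw [mul_comm, norm_exp_ofReal_mul_I]
  have hprod : exp (I * x) * exp (-(I * x)) = 1 := by rw [← exp_add, add_neg_cancel, exp_zero]
  set U : ℂ → ℂ := fun w => x - I * log (ρ (p + e * w) * exp (-(I * x))) with hU
  -- the values near `1`
  have hnear : ∀ w : ℂ, dist (ρ (p + e * w)) (exp (I * x)) < 1 →
      ρ (p + e * w) * exp (-(I * x)) ∈ slitPlane ∧ ρ (p + e * w) ≠ 0 := by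
    intro w hw
    have hn2 : ‖exp (-(I * x))‖ = 1 := by
      have : -(I * (x : ℂ)) = ((-x : ℝ) : ℂ) * I := by push_cast; ring
      rw [this, norm_exp_ofReal_mul_I]
    have h1 : ‖ρ (p + e * w) * exp (-(I * x)) - 1‖ < 1 := by
      have h2 : ρ (p + e * w) * exp (-(I * x)) - 1 =
          (ρ (p + e * w) - exp (I * x)) * exp (-(I * x)) := by
        rw [sub_mul, hprod]
      rw [h2, norm_mul, hn2, mul_one, ← dist_eq_norm]
      exact hw
    refine ⟨?_, ?_⟩
    · rw [mem_slitPlane_iff]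
      left
      have h2 := abs_re_le_norm (ρ (p + e * w) * exp (-(I * x)) - 1)
      rw [sub_re, one_re] at h2
      have h3 := (abs_le.mp h2).1
      linarith
    · intro h0
      rw [h0, zero_mul, zero_sub, norm_neg, norm_one] at h1
      exact lt_irrefl _ h1
  have hexpU : ∀ w : ℂ, ρ (p + e * w) ≠ 0 → exp (I * U w) = ρ (p + e * w) := by
    intro w hw
    have h1 : I * U w = I * x + log (ρ (p + e * w) * exp (-(I * x))) := by
      rw [hU]
      linear_combination (-log (ρ (p + e * w) * exp (-(I * x)))) * I_mul_I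
    rw [h1, exp_add, exp_log (mul_ne_zero hw (exp_ne_zero _))]
    linear_combination ρ (p + e * w) * hprod
  refine ⟨U, ⟨he, hp, hC, hy, hK.dPhi, hK.mem, ?_, free, dense, ?_, ?_, ?_⟩⟩
  · intro u hu hu1 k hk
    refine (hKo u hu hu1).1.trans (mul_le_mul_of_nonneg_left ?_ hC.le)
    rw [← dist_eq_norm]
    exact infDist_le_dist_of_mem hk
  · intro η hη
    obtain ⟨r1, hr1, hfree⟩ := free η hη
    obtain ⟨r2, hr2, hlim⟩ := Metric.tendsto_nhdsWithin_nhds.mp (lim η hη) 1 one_pos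
    refine ⟨min r1 r2, lt_min hr1 hr2, fun w hw hw2 => ?_⟩
    have hnK : p + e * w ∉ K := hfree w (lt_of_lt_of_le hw (min_le_left _ _)) hw2
    have hd : dist (ρ (p + e * w)) (exp (I * x)) < 1 := by
      refine hlim hw2 ?_
      rw [dist_zero_right]
      exact lt_of_lt_of_le hw (min_le_right _ _)
    obtain ⟨hs, h0⟩ := hnear w hd
    have hlt1 : ‖ρ (p + e * w)‖ < 1 := by
      have := hK.maps hnK
      rwa [mem_ball, dist_zero_right] at this
    have him : 0 < (U w).im := by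
      have h1 : ‖exp (I * U w)‖ < 1 := by rw [hexpU w h0]; exact hlt1
      rw [norm_exp, Real.exp_lt_one_iff] at h1
      have h2 : (I * U w).re = -(U w).im := by simp
      rw [h2] at h1
      linarith
    refine ⟨?_, him, ?_⟩
    · have hρd : DifferentiableAt ℂ ρ (p + e * w) :=
        (hK.dRho (p + e * w) hnK).differentiableAt (hK.closed.isOpen_compl.mem_nhds hnK)
      have h1 : DifferentiableAt ℂ (fun w => ρ (p + e * w)) w :=
        DifferentiableAt.comp w (f := fun w => p + e * w) hρd (by fun_prop)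
      rw [hU]
      exact (differentiableAt_const _).sub
        ((differentiableAt_const _).mul ((h1.mul (differentiableAt_const _)).clog hs))
    · refine hK.inj (hK.mem _ him) hnK ?_
      rw [hK.left _ him, hexpU w h0]
  · intro η hη
    have h1 : Tendsto (fun w => ρ (p + e * w) * exp (-(I * x))) (𝓝[{w : ℂ | η * ‖w‖ < w.im}] 0)
        (𝓝 1) := by
      have := (lim η hη).mul_const (exp (-(I * x)))
      rwa [hprod] at this
    have h2 : Tendsto (fun w => log (ρ (p + e * w) * exp (-(I * x))))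
        (𝓝[{w : ℂ | η * ‖w‖ < w.im}] 0) (𝓝 0) := by
      have h3 := h1.clog (by simp)
      rwa [log_one] at h3
    have h3 := (tendsto_const_nhds (x := (x : ℂ))).sub (h2.const_mul I)
    rwa [mul_zero, sub_zero] at h3
  · refine ⟨Real.pi, Real.pi_pos, fun u hu hux w hw => ?_⟩
    have h1 : ρ (p + e * w) = exp (I * u) := by rw [← hw, hK.left u hu]
    have h2 : ρ (p + e * w) * exp (-(I * x)) = exp (I * (u - x)) := by
      rw [h1, ← exp_add]
      ring_nf
    have h3 := abs_re_le_norm (u - x)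
    have h4 : |(u - x).re| < Real.pi := lt_of_le_of_lt h3 hux
    have h5 : (I * (u - x)).im = (u - x).re := by simp
    show (x : ℂ) - I * log (ρ (p + e * w) * exp (-(I * x))) = u
    rw [h2, log_exp (by rw [h5]; exact (abs_lt.mp h4).1) (by rw [h5]; exact (abs_lt.mp h4).2.le)]
    linear_combination (-(u - x)) * I_mul_I

end CF6

end

section

open Complex MeasureTheory Set Filter Topology Metric

namespace CF6

/-- D1.12 (about 60 lines) density of `K` near the line, from the density of the contact times. -/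
theorem dense_of_times {K : Set ℂ} {q : ℝ → ℂ} {t0 : ℝ} {v : ℂ} {Z : Set ℝ}
    (hd : HasDerivAt q v t0) (hv : v ≠ 0) (hqK : ∀ t ∈ Z, q t ∈ K)
    (dens : ∀ η > (0 : ℝ), ∃ r > (0 : ℝ), ∀ x y : ℝ, x < y → |x - t0| < r → |y - t0| < r →
      η * (|x - t0| + |y - t0|) ≤ y - x → (Z ∩ Ioo x y).Nonempty) (e : ℂ)
    (he : e = v / ‖v‖ ∨ e = -(v / ‖v‖)) :
    ∀ η > (0 : ℝ), ∃ r > (0 : ℝ), ∀ s : ℝ, 0 < s → s < r → ∀ t : ℝ, |t| ≤ s →
      ∃ k ∈ K, ‖q t0 + e * t - k‖ ≤ η * s := by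
  intro η hη
  have hv0 : 0 < ‖v‖ := norm_pos_iff.2 hv
  obtain ⟨σ, hσ, hσ1⟩ : ∃ σ : ℝ, e = v * ((σ / ‖v‖ : ℝ) : ℂ) ∧ |σ| = 1 := by
    rcases he with h | h
    · refine ⟨1, ?_, by simp⟩
      rw [h]
      push_cast
      ring
    · refine ⟨-1, ?_, by simp⟩
      rw [h]
      push_cast
      ring
  obtain ⟨η1, hη1d⟩ : ∃ η1 : ℝ, η1 = η / (2 * ‖v‖) := ⟨_, rfl⟩
  have hη1 : 0 < η1 := by rw [hη1d]; positivity
  obtain ⟨A, hA⟩ : ∃ A : ℝ, A = 1 / ‖v‖ + η1 := ⟨_, rfl⟩
  have hA0 : 0 < A := by rw [hA]; positivity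
  obtain ⟨r1, hr1, hdens⟩ := dens (η1 / A) (by positivity)
  have hlo := (hasDerivAt_iff_isLittleO.1 hd).def (show 0 < η / 2 / A by positivity)
  obtain ⟨r2, hr2, hlo2⟩ := Metric.eventually_nhds_iff.1 hlo
  refine ⟨min (r1 / A) (r2 / A), lt_min (by positivity) (by positivity), ?_⟩
  intro s hs hsr t ht
  have hs1 : s * A < r1 := by
    have := hsr.trans_le (min_le_left _ _)
    rwa [lt_div_iff₀ hA0] at this
  have hs2 : s * A < r2 := by
    have := hsr.trans_le (min_le_right _ _)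
    rwa [lt_div_iff₀ hA0] at this
  obtain ⟨τ, hτ⟩ : ∃ τ : ℝ, τ = t0 + σ / ‖v‖ * t := ⟨_, rfl⟩
  have hττ : |τ - t0| ≤ s / ‖v‖ := by
    rw [hτ, add_sub_cancel_left, abs_mul, abs_div, hσ1, abs_norm]
    calc 1 / ‖v‖ * |t| ≤ 1 / ‖v‖ * s := mul_le_mul_of_nonneg_left ht (by positivity)
      _ = s / ‖v‖ := by ring
  have hAs : s * A = s / ‖v‖ + η1 * s := by
    rw [hA]
    ring
  have hη1s : 0 < η1 * s := by positivity
  have habs : ∀ y : ℝ, |y - τ| ≤ η1 * s → |y - t0| ≤ s * A := by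
    intro y hy
    have h1 : y - t0 = (y - τ) + (τ - t0) := by ring
    rw [h1, hAs]
    have := abs_add_le (y - τ) (τ - t0)
    linarith
  have hx := habs (τ - η1 * s) (by
    rw [sub_sub_cancel_left, abs_neg, abs_of_pos hη1s])
  have hy := habs (τ + η1 * s) (by
    rw [add_sub_cancel_left, abs_of_pos hη1s])
  obtain ⟨t', ht'Z, ht'1, ht'2⟩ := hdens (τ - η1 * s) (τ + η1 * s) (by linarith)
    (hx.trans_lt hs1) (hy.trans_lt hs1) (by
      have h1 : |τ - η1 * s - t0| + |τ + η1 * s - t0| ≤ 2 * (s * A) := by linarith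
      calc η1 / A * (|τ - η1 * s - t0| + |τ + η1 * s - t0|)
          ≤ η1 / A * (2 * (s * A)) := mul_le_mul_of_nonneg_left h1 (by positivity)
        _ = 2 * η1 * s := by field_simp
        _ = _ := by ring)
  have ht'τ : |t' - τ| ≤ η1 * s := by
    rw [abs_le]
    constructor <;> linarith
  have ht't0 := habs t' ht'τ
  refine ⟨q t', hqK t' ht'Z, ?_⟩
  have h2 := hlo2 (y := t') (by
    rw [Real.dist_eq]
    exact ht't0.trans_lt hs2)
  rw [Complex.real_smul, Real.norm_eq_abs] at h2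
  have h3 : q t0 + e * t - q t' =
      -(q t' - q t0 - ((t' - t0 : ℝ) : ℂ) * v) - ((t' - τ : ℝ) : ℂ) * v := by
    rw [hσ, hτ]
    push_cast
    ring
  rw [h3]
  refine (norm_sub_le _ _).trans ?_
  rw [norm_neg, norm_mul, Complex.norm_real, Real.norm_eq_abs]
  have h4 : η / 2 / A * |t' - t0| ≤ η / 2 * s := by
    calc η / 2 / A * |t' - t0| ≤ η / 2 / A * (s * A) :=
          mul_le_mul_of_nonneg_left ht't0 (by positivity)
      _ = η / 2 * s := by field_simp
  have h5 : |t' - τ| * ‖v‖ ≤ η / 2 * s := by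
    calc |t' - τ| * ‖v‖ ≤ η1 * s * ‖v‖ := mul_le_mul_of_nonneg_right ht'τ hv0.le
      _ = η / 2 * s := by
        rw [hη1d]
        field_simp
  linarith

end CF6

end

section

open Complex MeasureTheory Set Filter Topology Metric

namespace CF6

/-- D2.7 (about 60 lines) transfer: `F_m = cay ∘ f_m ∘ icay`, `G_m = cay ∘ h_m ∘ icay` satisfy the hypotheses of `rigid_limit`. -/
theorem transfer_hyp {K : Set ℂ} {Φ U : ℂ → ℂ} {x : ℝ} {p e : ℂ} {C0 y1 r0 : ℝ}
    (S : Sector K Φ U x p e C0 y1) (hr0 : 0 < r0) (hq : ∀ m, 0 < (qm U x r0 m).im)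
    (hq' : Tendsto (fun m => ‖qm U x r0 m‖) atTop atTop) :
    (∀ R : ℝ, 0 < R → R < 1 → ∀ᶠ m in atTop,
      DifferentiableOn ℂ (fun ξ => cay (fm Φ U x p e r0 m (icay ξ))) (ball 0 R) ∧
      MapsTo (fun ξ => cay (fm Φ U x p e r0 m (icay ξ))) (ball 0 R) (ball 0 1) ∧
      (fun ξ => cay (fm Φ U x p e r0 m (icay ξ))) 0 = 0 ∧
      ∀ ξ ∈ ball (0 : ℂ) R, (fun ξ => cay (hm U x r0 m (icay ξ)))
        ((fun ξ => cay (fm Φ U x p e r0 m (icay ξ))) ξ) = ξ) ∧
    (∀ R : ℝ, 0 < R → R < 1 → ∀ᶠ m in atTop,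
      DifferentiableOn ℂ (fun ξ => cay (hm U x r0 m (icay ξ))) (ball 0 R) ∧
      MapsTo (fun ξ => cay (hm U x r0 m (icay ξ))) (ball 0 R) (ball 0 1) ∧
      (fun ξ => cay (hm U x r0 m (icay ξ))) 0 = 0 ∧
      ∀ ξ ∈ ball (0 : ℂ) R, (fun ξ => cay (fm Φ U x p e r0 m (icay ξ)))
        ((fun ξ => cay (hm U x r0 m (icay ξ))) ξ) = ξ) := by
  obtain ⟨c1, c2, -, c4, c5, c6, c7⟩ := cay_facts
  have hHD : ∀ R : ℝ, R < 1 → ∀ ξ ∈ ball (0 : ℂ) R, icay ξ ∈ HD R ∧ ‖ξ‖ < 1 := by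
    intro R hR ξ hξ
    have h1 : ‖ξ‖ < R := by simpa using hξ
    have h2 : ‖ξ‖ < 1 := h1.trans hR
    refine ⟨⟨(c2 ξ h2).1, ?_⟩, h2⟩
    rw [(c2 ξ h2).2]
    exact h1.le
  have hcomp : ∀ (f : ℂ → ℂ) (R : ℝ), R < 1 →
      (∀ Z ∈ HD R, 0 < (f Z).im ∧ DifferentiableAt ℂ f Z) → f I = I →
      DifferentiableOn ℂ (fun ξ => cay (f (icay ξ))) (ball 0 R) ∧
      MapsTo (fun ξ => cay (f (icay ξ))) (ball 0 R) (ball 0 1) ∧
      (fun ξ => cay (f (icay ξ))) 0 = 0 := by
    intro f R hR hf hI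
    refine ⟨?_, ?_, ?_⟩
    · intro ξ hξ
      obtain ⟨h1, h2⟩ := hHD R hR ξ hξ
      obtain ⟨h3, h4⟩ := hf _ h1
      have h5 : DifferentiableAt ℂ icay ξ := (c5 ξ h2).differentiableAt
      have h6 : DifferentiableAt ℂ cay (f (icay ξ)) := (c4 _ h3).differentiableAt
      have h7 : DifferentiableAt ℂ (fun ξ => f (icay ξ)) ξ := DifferentiableAt.comp ξ h4 h5
      exact (DifferentiableAt.comp ξ h6 h7).differentiableWithinAt
    · intro ξ hξ
      obtain ⟨h1, h2⟩ := hHD R hR ξ hξ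
      rw [mem_ball, dist_zero_right]
      exact (c1 _ (hf _ h1).1).1
    · show cay (f (icay 0)) = 0
      rw [c7, hI, c6]
  constructor
  · intro R hR0 hR1
    filter_upwards [fm_upper S hr0 hq hq' R hR0.le hR1, hm_facts S hr0 hq hq' R hR0.le hR1]
      with m hf hh
    obtain ⟨hfI, hf2⟩ := hf
    obtain ⟨-, -, hh3⟩ := hh
    obtain ⟨a1, a2, a3⟩ := hcomp _ R hR1 hf2 hfI
    refine ⟨a1, a2, a3, ?_⟩
    intro ξ hξ
    obtain ⟨h1, h2⟩ := hHD R hR1 ξ hξ
    show cay (hm U x r0 m (icay (cay (fm Φ U x p e r0 m (icay ξ))))) = ξ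
    rw [(c1 _ (hf2 _ h1).1).2, hh3 _ h1, (c2 ξ h2).2]
  · intro R hR0 hR1
    filter_upwards [hm_facts S hr0 hq hq' R hR0.le hR1] with m hh
    obtain ⟨hhI, hh2, -⟩ := hh
    obtain ⟨a1, a2, a3⟩ := hcomp _ R hR1 (fun Z hZ => ⟨(hh2 Z hZ).1, (hh2 Z hZ).2.1⟩) hhI
    refine ⟨a1, a2, a3, ?_⟩
    intro ξ hξ
    obtain ⟨h1, h2⟩ := hHD R hR1 ξ hξ
    show cay (fm Φ U x p e r0 m (icay (cay (hm U x r0 m (icay ξ))))) = ξ
    rw [(c1 _ (hh2 _ h1).1).2, (hh2 _ h1).2.2, (c2 ξ h2).2]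

end CF6

end

section

open Complex MeasureTheory Set Filter Topology Metric

namespace CF6

/-- D2.8 (about 60 lines) exact recursion between consecutive scales. -/
theorem hm_succ {K : Set ℂ} {Φ U : ℂ → ℂ} {x : ℝ} {p e : ℂ} {C0 y1 r0 : ℝ}
    (S : Sector K Φ U x p e C0 y1) (hr0 : 0 < r0) (hq : ∀ m, 0 < (qm U x r0 m).im)
    (hq' : Tendsto (fun m => ‖qm U x r0 m‖) atTop atTop) :
    ∀ᶠ m in atTop,
      qm U x r0 (m + 1) = (qm U x r0 m).re + (qm U x r0 m).im * hm U x r0 m (I / 4) ∧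
      deriv (hm U x r0 (m + 1)) I =
        deriv (hm U x r0 m) (I / 4) / (4 * (hm U x r0 m (I / 4)).im) := by
  refine Eventually.of_forall (fun m => ?_)
  have hscl : (scl r0 (m + 1) : ℂ) = (scl r0 m : ℂ) / 4 := by
    unfold scl
    push_cast
    rw [pow_succ]
    ring
  have him : ((qm U x r0 m).im : ℂ) ≠ 0 := by
    exact_mod_cast (hq m).ne'
  have h1 : qm U x r0 (m + 1) = (qm U x r0 m).re + (qm U x r0 m).im * hm U x r0 m (I / 4) := by
    have h2 : (I * scl r0 (m + 1) : ℂ) = (scl r0 m : ℂ) * (I / 4) := by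
      rw [hscl]
      ring
    have h3 : qm U x r0 (m + 1) = -1 / (U ((scl r0 m : ℂ) * (I / 4)) - x) := by
      rw [qm, h2]
    unfold hm
    rw [mul_div_cancel₀ _ him, h3]
    ring
  refine ⟨h1, ?_⟩
  have h4 : (qm U x r0 (m + 1)).im = (qm U x r0 m).im * (hm U x r0 m (I / 4)).im := by
    have := congrArg Complex.im h1
    simpa using this
  have hne : ((hm U x r0 m (I / 4)).im : ℂ) ≠ 0 := by
    have h5 := hq (m + 1)
    rw [h4] at h5
    have h6 : (hm U x r0 m (I / 4)).im ≠ 0 := by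
      intro h7
      rw [h7, mul_zero] at h5
      exact lt_irrefl _ h5
    exact_mod_cast h6
  have hfun : hm U x r0 (m + 1) = fun w => ((qm U x r0 m).im / (qm U x r0 (m + 1)).im : ℂ) *
      hm U x r0 m ((1 / 4) * w) +
      (((qm U x r0 m).re - (qm U x r0 (m + 1)).re) / (qm U x r0 (m + 1)).im : ℂ) := by
    funext w
    have h5 : (scl r0 (m + 1) : ℂ) * w = (scl r0 m : ℂ) * ((1 / 4) * w) := by
      rw [hscl]
      ring
    have h6 : ((qm U x r0 (m + 1)).im : ℂ) ≠ 0 := by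
      exact_mod_cast (hq (m + 1)).ne'
    unfold hm
    rw [h5]
    field_simp
    ring
  have hder : deriv (hm U x r0 (m + 1)) I =
      ((qm U x r0 m).im / (qm U x r0 (m + 1)).im : ℂ) * ((1 / 4) * deriv (hm U x r0 m) (I / 4)) := by
    rw [hfun, deriv_add_const, deriv_const_mul_field, deriv_comp_mul_left, smul_eq_mul]
    congr 3
    ring
  rw [hder, h4]
  push_cast
  field_simp

end CF6

end

section

open Complex MeasureTheory Set Filter Topology Metric

namespace CF6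

theorem d2l_quarter : cay (I / 4) = -(3 / 5) := by
  unfold cay
  have h : (I / 4 + I : ℂ) ≠ 0 := by
    intro h
    have := congrArg Complex.im h
    norm_num at this
  rw [div_eq_iff h]
  ring

theorem d2l_alg (g ζ E' : ℂ) (hζ : ‖ζ‖ < 1) (D : ℂ)
    (hD : g = (2 * I / (icay ζ + I) ^ 2) * D * (2 * I / (1 - (-(3 / 5))) ^ 2))
    (hE : E' = D / (4 * (icay ζ).im)) (him : (icay ζ).im = (1 - ‖ζ‖ ^ 2) / ‖1 - ζ‖ ^ 2) :
    E' = g * (16 / 25) * (starRingEnd ℂ (1 - ζ)) / ((1 - ζ) * ((1 - ‖ζ‖ ^ 2 : ℝ) : ℂ)) := by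
  have h1 : (1 - ζ) ≠ 0 := by
    intro h
    have : ζ = 1 := by linear_combination -h
    rw [this] at hζ
    simp at hζ
  have h2 : icay ζ + I = 2 * I / (1 - ζ) := by
    unfold icay
    field_simp
    ring
  have h3 : ((1 - ‖ζ‖ ^ 2 : ℝ) : ℂ) ≠ 0 := by
    norm_cast
    have := norm_nonneg ζ
    nlinarith
  have h4 : ((‖1 - ζ‖ ^ 2 : ℝ) : ℂ) = (1 - ζ) * starRingEnd ℂ (1 - ζ) := by
    rw [Complex.mul_conj, Complex.normSq_eq_norm_sq]
  have h5 : starRingEnd ℂ (1 - ζ) ≠ 0 := by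
    rw [Ne, map_eq_zero]
    exact h1
  have hI2 : (I : ℂ) ^ 2 = -1 := Complex.I_sq
  have h6 : g = D * (25 / 64) * (1 - ζ) ^ 2 := by
    rw [hD, h2]
    have hI : (I : ℂ) ≠ 0 := Complex.I_ne_zero
    field_simp
    ring_nf
    try rw [hI2]
    try ring
  rw [hE, him, h6]
  have h7 : (((1 - ‖ζ‖ ^ 2) / ‖1 - ζ‖ ^ 2 : ℝ) : ℂ) =
      ((1 - ‖ζ‖ ^ 2 : ℝ) : ℂ) / ((1 - ζ) * starRingEnd ℂ (1 - ζ)) := by
    rw [Complex.ofReal_div, h4]
  rw [h7]
  set s : ℂ := ((1 - ‖ζ‖ ^ 2 : ℝ) : ℂ) with hs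
  set c : ℂ := starRingEnd ℂ (1 - ζ) with hc
  field_simp
  ring

/-- D2.9 (about 120 lines) With `E_m = h_m'(i) = G_m'(0)`: `E_{m+1} - (5 E_m + 3)/(3 E_m + 5) → 0`,
`h_m(i/4) - icay (-3/5 E_m) → 0` (from `rigid_limit` at `ξ = cay (i/4) = -3/5`). -/
theorem recursion {K : Set ℂ} {Φ U : ℂ → ℂ} {x : ℝ} {p e : ℂ} {C0 y1 r0 : ℝ}
    (S : Sector K Φ U x p e C0 y1) (hr0 : 0 < r0) (hq : ∀ m, 0 < (qm U x r0 m).im)
    (hq' : Tendsto (fun m => ‖qm U x r0 m‖) atTop atTop) :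
    Tendsto (fun m => ‖deriv (hm U x r0 m) I‖) atTop (𝓝 1) ∧
    Tendsto (fun m => deriv (hm U x r0 (m + 1)) I -
      (5 * deriv (hm U x r0 m) I + 3) / (3 * deriv (hm U x r0 m) I + 5)) atTop (𝓝 0) ∧
    Tendsto (fun m => hm U x r0 m (I / 4) - icay (-(3 / 5) * deriv (hm U x r0 m) I))
      atTop (𝓝 0) := by
  obtain ⟨c1, c2, c3, c4, c5, c6, c7⟩ := cay_facts
  obtain ⟨tF, tG⟩ := transfer_hyp S hr0 hq hq'
  obtain ⟨lim1, lim2⟩ := rigid_limit (fun m ξ => cay (fm Φ U x p e r0 m (icay ξ)))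
    (fun m ξ => cay (hm U x r0 m (icay ξ))) tF tG
  set G : ℕ → ℂ → ℂ := fun m ξ => cay (hm U x r0 m (icay ξ)) with hG
  set E : ℕ → ℂ := fun m => deriv (hm U x r0 m) I with hEdef
  have hq4 : cay (I / 4) = -(3 / 5) := d2l_quarter
  have hI4 : 0 < (I / 4 : ℂ).im := by norm_num
  have hi4 : icay (-(3 / 5)) = I / 4 := by
    rw [← hq4]
    exact (c1 _ hI4).2
  have hn35 : ‖(-(3 / 5) : ℂ)‖ = 3 / 5 := by
    rw [norm_neg]; norm_num
  have hmem4 : (I / 4 : ℂ) ∈ HD (3 / 5) := ⟨hI4, by rw [hq4, hn35]⟩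
  have hmemI : (I : ℂ) ∈ HD (3 / 5) := ⟨by norm_num, by rw [c6]; norm_num⟩
  have hev := hm_facts S hr0 hq hq' (3 / 5) (by norm_num) (by norm_num)
  -- derivative at the origin
  have hE0 : ∀ᶠ m in atTop, deriv (G m) 0 = E m := by
    filter_upwards [hev] with m hm
    obtain ⟨h1, h2, -⟩ := hm
    have d1 : HasDerivAt (hm U x r0 m) (E m) (icay 0) := by
      rw [c7]
      exact (h2 I hmemI).2.1.hasDerivAt
    have d2 := (d1.comp (0 : ℂ) (c5 0 (by simp)))
    have d3 : HasDerivAt cay (2 * I / (hm U x r0 m (icay 0) + I) ^ 2) (hm U x r0 m (icay 0)) := by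
      apply c4
      rw [c7, h1]
      norm_num
    have d4 := d3.comp (0 : ℂ) d2
    have d5 : deriv (G m) 0 = 2 * I / (hm U x r0 m (icay 0) + I) ^ 2 * (E m * (2 * I / (1 - 0) ^ 2)) :=
      d4.deriv
    rw [d5, c7, h1]
    have hI : (I : ℂ) ≠ 0 := Complex.I_ne_zero
    have : (I + I : ℂ) = 2 * I := by ring
    rw [this]
    field_simp
    ring
  have L1 : Tendsto (fun m => ‖E m‖) atTop (𝓝 1) := by
    refine lim1.congr' ?_
    filter_upwards [hE0] with m hm
    rw [hm]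
  -- values at -3/5
  have hball : (-(3 / 5) : ℂ) ∈ ball (0 : ℂ) (4 / 5) := by
    rw [mem_ball_zero_iff, hn35]
    norm_num
  have lz : Tendsto (fun m => G m (-(3 / 5)) - E m * (-(3 / 5))) atTop (𝓝 0) := by
    rw [Metric.tendsto_atTop]
    intro ε hε
    have := lim2 (4 / 5) (by norm_num) (by norm_num) (ε / 2) (by positivity)
    obtain ⟨N, hN⟩ := eventually_atTop.mp (this.and hE0)
    refine ⟨N, fun m hm => ?_⟩
    obtain ⟨a, b⟩ := hN m hm
    have := (a _ hball).1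
    rw [b] at this
    rw [dist_zero_right]
    linarith
  have ld : Tendsto (fun m => deriv (G m) (-(3 / 5)) - E m) atTop (𝓝 0) := by
    rw [Metric.tendsto_atTop]
    intro ε hε
    have := lim2 (4 / 5) (by norm_num) (by norm_num) (ε / 2) (by positivity)
    obtain ⟨N, hN⟩ := eventually_atTop.mp (this.and hE0)
    refine ⟨N, fun m hm => ?_⟩
    obtain ⟨a, b⟩ := hN m hm
    have := (a _ hball).2.1
    rw [b] at this
    rw [dist_zero_right]
    linarith
  -- exact formulas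
  have hform : ∀ᶠ m in atTop, ‖G m (-(3 / 5))‖ < 1 ∧ hm U x r0 m (I / 4) = icay (G m (-(3 / 5))) ∧
      E (m + 1) = deriv (G m) (-(3 / 5)) * (16 / 25) *
        (starRingEnd ℂ (1 - G m (-(3 / 5)))) /
          ((1 - G m (-(3 / 5))) * ((1 - ‖G m (-(3 / 5))‖ ^ 2 : ℝ) : ℂ)) := by
    filter_upwards [hev, hm_succ S hr0 hq hq'] with m hm hs
    obtain ⟨h1, h2, -⟩ := hm
    obtain ⟨f1, f2, -⟩ := h2 _ hmem4
    have g1 : G m (-(3 / 5)) = cay (hm U x r0 m (I / 4)) := by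
      simp only [hG]
      rw [hi4]
    have g2 : ‖G m (-(3 / 5))‖ < 1 := by
      rw [g1]
      exact (c1 _ f1).1
    have g3 : hm U x r0 m (I / 4) = icay (G m (-(3 / 5))) := by
      rw [g1]
      exact (c1 _ f1).2.symm
    refine ⟨g2, g3, ?_⟩
    have d1 : HasDerivAt (hm U x r0 m) (deriv (hm U x r0 m) (I / 4)) (icay (-(3 / 5))) := by
      rw [hi4]
      exact f2.hasDerivAt
    have d2 := (d1.comp (-(3 / 5) : ℂ) (c5 (-(3 / 5)) (by rw [hn35]; norm_num)))
    have d3 : HasDerivAt cay (2 * I / (hm U x r0 m (icay (-(3 / 5))) + I) ^ 2)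
        (hm U x r0 m (icay (-(3 / 5)))) := by
      apply c4
      rw [hi4]
      exact f1
    have d4 := d3.comp (-(3 / 5) : ℂ) d2
    have d5 : deriv (G m) (-(3 / 5)) = 2 * I / (hm U x r0 m (icay (-(3 / 5))) + I) ^ 2 *
        (deriv (hm U x r0 m) (I / 4) * (2 * I / (1 - (-(3 / 5))) ^ 2)) :=
      d4.deriv
    apply d2l_alg (deriv (G m) (-(3 / 5))) (G m (-(3 / 5))) (E (m + 1)) g2
      (deriv (hm U x r0 m) (I / 4))
    · rw [d5, hi4, g3]
      ring
    · rw [← g3]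
      exact hs.2
    · exact c3 _ g2
  have hbdd : ∀ᶠ m in atTop, E m ∈ closedBall (0 : ℂ) 2 := by
    filter_upwards [(tendsto_order.mp L1).2 2 (by norm_num)] with m hm
    rw [mem_closedBall_zero_iff]
    exact hm.le
  have hult : ∀ g : Ultrafilter ℕ, (g : Filter ℕ) ≤ atTop → ∃ Es : ℂ, ‖Es‖ = 1 ∧
      Tendsto E g (𝓝 Es) ∧ Tendsto (fun m => G m (-(3 / 5))) g (𝓝 (Es * (-(3 / 5)))) ∧
      Tendsto (fun m => deriv (G m) (-(3 / 5))) g (𝓝 Es) := by
    intro g hg
    have hmem : (closedBall (0 : ℂ) 2) ∈ g.map E := hg hbdd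
    obtain ⟨Es, -, hEs⟩ := (isCompact_closedBall (0 : ℂ) 2).ultrafilter_le_nhds' (g.map E) hmem
    have t1 : Tendsto E g (𝓝 Es) := hEs
    refine ⟨Es, ?_, t1, ?_, ?_⟩
    · exact tendsto_nhds_unique t1.norm (L1.mono_left hg)
    · have := (lz.mono_left hg).add (t1.mul_const (-(3 / 5)))
      rw [zero_add] at this
      refine this.congr (fun m => ?_)
      ring
    · have := (ld.mono_left hg).add t1
      rw [zero_add] at this
      refine this.congr (fun m => ?_)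
      ring
  refine ⟨L1, ?_, ?_⟩
  · rw [tendsto_iff_ultrafilter]
    intro g hg
    obtain ⟨Es, n1, t1, t2, t3⟩ := hult g hg
    have hz : ‖Es * (-(3 / 5))‖ = 3 / 5 := by rw [norm_mul, n1, hn35, one_mul]
    have hz1 : (1 : ℂ) - Es * (-(3 / 5)) ≠ 0 := by
      intro h
      have h2 : Es * (-(3 / 5)) = 1 := by linear_combination -h
      rw [h2] at hz
      norm_num at hz
    have hconj : Es * starRingEnd ℂ Es = 1 := by
      rw [Complex.mul_conj, Complex.normSq_eq_norm_sq, n1]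
      norm_num
    have hden : (3 * Es + 5 : ℂ) ≠ 0 := by
      intro h
      apply hz1
      linear_combination h / 5
    have u1 : Tendsto (fun m => E (m + 1)) g (𝓝 (Es * (16 / 25) *
        (starRingEnd ℂ (1 - Es * (-(3 / 5)))) /
          ((1 - Es * (-(3 / 5))) * ((1 - ‖Es * (-(3 / 5))‖ ^ 2 : ℝ) : ℂ)))) := by
      have v1 : Tendsto (fun m => deriv (G m) (-(3 / 5)) * (16 / 25) *
        (starRingEnd ℂ (1 - G m (-(3 / 5)))) /
          ((1 - G m (-(3 / 5))) * ((1 - ‖G m (-(3 / 5))‖ ^ 2 : ℝ) : ℂ))) g (𝓝 (Es * (16 / 25) *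
        (starRingEnd ℂ (1 - Es * (-(3 / 5)))) /
          ((1 - Es * (-(3 / 5))) * ((1 - ‖Es * (-(3 / 5))‖ ^ 2 : ℝ) : ℂ)))) := by
        have w1 : Tendsto (fun m => (1 : ℂ) - G m (-(3 / 5))) g (𝓝 (1 - Es * (-(3 / 5)))) :=
          tendsto_const_nhds.sub t2
        have w2 : Tendsto (fun m => starRingEnd ℂ (1 - G m (-(3 / 5)))) g
            (𝓝 (starRingEnd ℂ (1 - Es * (-(3 / 5))))) :=
          (Complex.continuous_conj.tendsto _).comp w1
        have w3 : Tendsto (fun m => ((1 - ‖G m (-(3 / 5))‖ ^ 2 : ℝ) : ℂ)) g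
            (𝓝 ((1 - ‖Es * (-(3 / 5))‖ ^ 2 : ℝ) : ℂ)) :=
          (Complex.continuous_ofReal.tendsto _).comp (tendsto_const_nhds.sub (t2.norm.pow 2))
        apply ((t3.mul_const _).mul w2).div (w1.mul w3)
        apply mul_ne_zero hz1
        rw [hz]
        norm_num
      refine v1.congr' ?_
      filter_upwards [hg hform] with m hm
      exact hm.2.2.symm
    have u2 : Tendsto (fun m => (5 * E m + 3) / (3 * E m + 5)) g
        (𝓝 ((5 * Es + 3) / (3 * Es + 5))) :=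
      ((t1.const_mul 5).add_const 3).div ((t1.const_mul 3).add_const 5) hden
    have u3 := u1.sub u2
    have hval : Es * (16 / 25) * (starRingEnd ℂ (1 - Es * (-(3 / 5)))) /
          ((1 - Es * (-(3 / 5))) * ((1 - ‖Es * (-(3 / 5))‖ ^ 2 : ℝ) : ℂ)) -
          (5 * Es + 3) / (3 * Es + 5) = 0 := by
      rw [hz, sub_eq_zero]
      have e1 : starRingEnd ℂ (1 - Es * (-(3 / 5))) = 1 + (3 / 5) * starRingEnd ℂ Es := by
        rw [map_sub, map_mul, map_one, map_neg, map_div₀]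
        have a3 : starRingEnd ℂ (3 : ℂ) = 3 := Complex.conj_ofNat 3
        have a5 : starRingEnd ℂ (5 : ℂ) = 5 := Complex.conj_ofNat 5
        rw [a3, a5]
        ring
      have e2 : (((1 - (3 / 5 : ℝ) ^ 2 : ℝ)) : ℂ) = 16 / 25 := by
        push_cast
        norm_num
      rw [e1, e2]
      have e3 : (1 - Es * (-(3 / 5)) : ℂ) = (3 * Es + 5) / 5 := by ring
      rw [e3]
      have e4 : Es * (16 / 25) * (1 + (3 / 5) * starRingEnd ℂ Es) = (16 / 25) * (5 * Es + 3) / 5 := by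
        linear_combination (16 / 25) * (3 / 5) * hconj
      rw [e4, div_eq_div_iff (mul_ne_zero (div_ne_zero hden (by norm_num)) (by norm_num)) hden]
      ring
    rw [hval] at u3
    exact u3
  · rw [tendsto_iff_ultrafilter]
    intro g hg
    obtain ⟨Es, n1, t1, t2, t3⟩ := hult g hg
    have hz : ‖Es * (-(3 / 5))‖ < 1 := by
      rw [norm_mul, n1, hn35]
      norm_num
    have hcont := (c5 _ hz).continuousAt
    have v1 : Tendsto (fun m => hm U x r0 m (I / 4)) g (𝓝 (icay (Es * (-(3 / 5))))) := by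
      refine (hcont.tendsto.comp t2).congr' ?_
      filter_upwards [hg hform] with m hm
      exact hm.2.1.symm
    have v2 : Tendsto (fun m => icay (-(3 / 5) * E m)) g (𝓝 (icay (Es * (-(3 / 5))))) := by
      refine (hcont.tendsto.comp (t1.mul_const (-(3 / 5)))).congr (fun m => ?_)
      simp only [Function.comp]
      rw [mul_comm]
    have v3 := v1.sub v2
    rw [sub_self] at v3
    exact v3

end CF6

end

section

open Complex MeasureTheory Set Filter Topology Metric intervalIntegral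

namespace CF6

/-- E.8 (about 100 lines). -/
theorem exists_clusters {E : Set ℝ} (hEc : IsClosed E) (hEi : interior E = ∅)
    (hp : ∀ x, x ∈ E ↔ x + 2 * Real.pi ∈ E) {d : ℝ} (hd : 0 < d) :
    ∃ g > (0 : ℝ), ∃ cl : ℝ → ℤ, ∀ α ∈ E, ∀ β ∈ E, (cl α = cl β → |α - β| ≤ d) ∧
      (cl α ≠ cl β → g ≤ |α - β|) := by
  have hpi : 0 < 2 * Real.pi := by positivity
  have hper : ∀ (k : ℤ) (x : ℝ), (x + k * (2 * Real.pi) ∈ E) ↔ x ∈ E := by
    intro k x
    have h : Function.Periodic (fun y => y ∈ E) (2 * Real.pi) := fun y => propext (hp y).symm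
    have := h.int_mul k x
    exact iff_of_eq this
  -- mesh
  obtain ⟨n, hn⟩ := exists_nat_gt (4 * Real.pi / d)
  have hnpos : (0 : ℝ) < n := lt_of_le_of_lt (by positivity) hn
  have hn0 : 0 < n := by exact_mod_cast hnpos
  set h : ℝ := 2 * Real.pi / n with hh
  have hhpos : 0 < h := by positivity
  have hh2 : 2 * h ≤ d := by
    rw [div_lt_iff₀ hd] at hn
    rw [hh, mul_div_assoc', div_le_iff₀ hnpos]
    linarith
  have hnh : (n : ℝ) * h = 2 * Real.pi := by rw [hh]; field_simp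
  -- a gap point in every mesh interval
  have hgap : ∀ i : ℤ, ∃ q : ℝ, q ∈ Ioo (i * h) ((i + 1) * h) ∧ q ∉ E := by
    intro i
    by_contra hcon
    push Not at hcon
    have hsub : Ioo ((i : ℝ) * h) ((i + 1) * h) ⊆ interior E :=
      interior_maximal (fun x hx => hcon x hx) isOpen_Ioo
    rw [hEi] at hsub
    have hne : (Ioo ((i : ℝ) * h) ((i + 1) * h)).Nonempty := by
      rw [nonempty_Ioo]; nlinarith
    obtain ⟨x, hx⟩ := hne
    exact hsub hx
  choose q hq hqE using hgap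
  have hrad : ∀ i : ℤ, ∃ r > 0, ∀ x ∈ E, r ≤ |x - q i| := by
    intro i
    have : Eᶜ ∈ 𝓝 (q i) := hEc.isOpen_compl.mem_nhds (hqE i)
    obtain ⟨r, hr, hb⟩ := Metric.mem_nhds_iff.1 this
    refine ⟨r, hr, fun x hx => ?_⟩
    by_contra hcon
    push Not at hcon
    exact hb (by rw [Metric.mem_ball, Real.dist_eq]; exact hcon) hx
  choose r hr hrE using hrad
  obtain ⟨g, hg, hgr⟩ : ∃ g > (0 : ℝ), ∀ i ∈ Finset.Ico (0 : ℤ) n, g ≤ r i := by
    have : ∀ᶠ g in 𝓝[>] (0 : ℝ), ∀ i ∈ Finset.Ico (0 : ℤ) n, g ≤ r i := by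
      rw [Filter.eventually_all_finset]
      intro i _
      filter_upwards [Ioo_mem_nhdsGT (hr i)] with x hx
      exact hx.2.le
    obtain ⟨g, hg1, hg2⟩ := (this.and self_mem_nhdsWithin).exists
    exact ⟨g, hg2, hg1⟩
  have hnz : (0 : ℤ) < n := by exact_mod_cast hn0
  let p : ℤ → ℝ := fun j => q (j % n) + (j / n : ℤ) * (2 * Real.pi)
  have hjdecomp : ∀ j : ℤ, (j : ℝ) = ((j % n : ℤ) : ℝ) + ((j / n : ℤ) : ℝ) * n := by
    intro j
    have := Int.emod_add_mul_ediv j n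
    have h2 : ((j % n + n * (j / n) : ℤ) : ℝ) = (j : ℝ) := by rw [this]
    push_cast at h2
    linarith
  have hpIoo : ∀ j : ℤ, p j ∈ Ioo (j * h) ((j + 1) * h) := by
    intro j
    have h1 := hq (j % n)
    have h2 := hjdecomp j
    have h3 : (j : ℝ) * h = ((j % n : ℤ) : ℝ) * h + ((j / n : ℤ) : ℝ) * (2 * Real.pi) := by
      rw [← hnh]; rw [h2]; push_cast; ring_nf
    constructor
    · change _ < q (j % n) + (j / n : ℤ) * (2 * Real.pi)
      rw [h3]; linarith [h1.1]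
    · change q (j % n) + (j / n : ℤ) * (2 * Real.pi) < _
      have : ((j : ℝ) + 1) * h = j * h + h := by ring
      rw [this, h3]; nlinarith [h1.2]
  have hpE : ∀ j : ℤ, ∀ x ∈ E, g ≤ |x - p j| := by
    intro j x hx
    have h1 : x + ((-(j / n) : ℤ) : ℝ) * (2 * Real.pi) ∈ E := (hper _ x).2 hx
    have h2 := hrE (j % n) _ h1
    have h3 := hgr (j % n) (by
      rw [Finset.mem_Ico]
      exact ⟨Int.emod_nonneg _ hnz.ne', Int.emod_lt_of_pos _ hnz⟩)
    have h4 : x + ((-(j / n) : ℤ) : ℝ) * (2 * Real.pi) - q (j % n) = x - p j := by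
      change _ = x - (q (j % n) + (j / n : ℤ) * (2 * Real.pi))
      push_cast; ring
    rw [h4] at h2
    exact h3.trans h2
  have hpmono : StrictMono p := by
    apply strictMono_int_of_lt_succ
    intro j
    have h1 := (hpIoo j).2
    have h2 := (hpIoo (j + 1)).1
    push_cast at h2
    linarith
  have hcl : ∀ x : ℝ, ∃ j : ℤ, p j ≤ x ∧ x < p (j + 1) := by
    intro x
    set k := ⌊x / h⌋ with hk
    have k1 : (k : ℝ) * h ≤ x := by
      have := Int.floor_le (x / h)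
      rwa [le_div_iff₀ hhpos] at this
    have k2 : x < (k + 1) * h := by
      have := Int.lt_floor_add_one (x / h)
      rwa [div_lt_iff₀ hhpos] at this
    by_cases hx : p k ≤ x
    · refine ⟨k, hx, ?_⟩
      have := (hpIoo (k + 1)).1
      push_cast at this
      linarith
    · push Not at hx
      refine ⟨k - 1, ?_, ?_⟩
      · have := (hpIoo (k - 1)).2
        push_cast at this
        have h5 : ((k : ℝ) - 1 + 1) * h = k * h := by ring
        rw [h5] at this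
        linarith
      · rw [sub_add_cancel]; exact hx
  choose cl hcl1 hcl2 using hcl
  have hlt : ∀ α ∈ E, ∀ β ∈ E, cl α < cl β → g ≤ |α - β| := by
    intro α hα β hβ hlt
    have h1 := hcl2 α
    have h2 := hcl1 β
    have h3 : p (cl α + 1) ≤ p (cl β) := hpmono.monotone (by omega)
    have h4 := hpE (cl α + 1) α hα
    rw [abs_sub_comm, abs_of_nonneg (by linarith)] at h4
    rw [abs_sub_comm, abs_of_nonneg (by linarith)]
    linarith
  refine ⟨g, hg, cl, fun α hα β hβ => ⟨fun heq => ?_, fun hne => ?_⟩⟩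
  · have a1 := hcl1 α
    have a2 := hcl2 α
    have b1 := hcl1 β
    have b2 := hcl2 β
    rw [← heq] at b1 b2
    have c1 := (hpIoo (cl α)).1
    have c2 := (hpIoo (cl α + 1)).2
    push_cast at c2
    have c3 : ((cl α : ℝ) + 1 + 1) * h = cl α * h + 2 * h := by ring
    rw [c3] at c2
    rw [abs_le]
    constructor <;> linarith
  · rcases lt_or_gt_of_ne hne with h1 | h1
    · exact hlt α hα β hβ h1
    · rw [abs_sub_comm]
      exact hlt β hβ α hα h1

end CF6

end
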