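import Pool.Agent.Lib.MP_cf6b16_an.A2
import Pool.Agent.Lib.MP_cf6b16_an.DE1
import Pool.Agent.Lib.MP_cf6b16_an.C1
import Pool.Agent.Lib.MP_cf6b16_an.DE2
import Pool.Agent.Lib.MP_cf6b16_an.DE3

section

/-! # Interface names of module C (helper68) -/

open Complex MeasureTheory Set Filter Topology Metric

namespace CF6

theorem exists_koebe : ∃ C0 : ℝ, 1 ≤ C0 ∧ ∀ (K : Set ℂ) (Φ ρ : ℂ → ℂ), Collar K Φ ρ →
    ∃ y1 > 0, Koebe C0 y1 K Φ := exists_koebe_thm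

/-- C5 (Wolff) -/
theorem wolff {K : Set ℂ} {Φ ρ : ℂ → ℂ} (hK : Collar K Φ ρ) (R : ℝ) :
    ∀ η > (0 : ℝ), ∃ d > (0 : ℝ), ∀ S ⊆ Kᶜ ∩ closedBall 0 R, IsPreconnected S →
      (∀ x ∈ S, ∀ y ∈ S, dist x y ≤ d) → ∀ x ∈ S, ∀ y ∈ S, dist (ρ x) (ρ y) ≤ η :=
  wolff_thm hK R

/-- first consequences -/
theorem LimData.basic {Ω K : Set ℂ} {Φ ρ : ℂ → ℂ} (hK : Collar K Φ ρ) {h g : ℂ → ℂ}
    {hj : ℕ → ℂ → ℂ} (H : LimData Ω K ρ h g hj) :
    ContinuousOn h Ω ∧ ContinuousOn g Ω ∧ (∀ x ∈ Ω, ‖g x‖ ≤ 1) ∧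
      (∀ x ∈ Ω, h x ∈ K ↔ ‖g x‖ = 1) ∧ (∀ x ∈ Ω, h x ∉ K → ρ (h x) = g x) :=
  limData_basic_thm hK H

end CF6

end

section

open Complex MeasureTheory Set Filter Topology Metric

namespace CF6

/-- D1.4 (about 30 lines) by `Collar.logs`: curves which lift to closed curves in the half plane do not distinguish the
points of `K`. -/
theorem sameWind_of_lift {K : Set ℂ} {Φ ρ : ℂ → ℂ} (hK : Collar K Φ ρ) {l : ℝ → ℂ}
    (hl : ContinuousOn l (Icc 0 1)) (h01 : l 0 = l 1) (hp : ∀ t ∈ Icc (0 : ℝ) 1, 0 < (l t).im)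
    {k k' : ℂ} (hk : k ∈ K) (hk' : k' ∈ K) (p e : ℂ) (he : e ≠ 0) :
    SameWind (fun t => (Φ (l t) - p) / e) ((k - p) / e) ((k' - p) / e) := by
  obtain ⟨Λ, hΛ, hexp, -⟩ := hK.logs k hk k' hk'
  have hne : ∀ t ∈ Icc (0 : ℝ) 1, ∀ κ ∈ K, Φ (l t) ≠ κ := by
    intro t ht κ hκ h
    exact hK.mem (l t) (hp t ht) (h ▸ hκ)
  have hne' : ∀ t ∈ Icc (0 : ℝ) 1, ∀ κ ∈ K, (Φ (l t) - p) / e ≠ (κ - p) / e := by
    intro t ht κ hκ h
    rw [div_left_inj' he] at h
    exact hne t ht κ hκ (sub_left_injective h)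
  refine ⟨fun t ht => ⟨hne' t ht k hk, hne' t ht k' hk'⟩, fun t => Λ (l t), ?_, ?_, ?_⟩
  · exact hΛ.continuousOn.comp hl (fun t ht => hp t ht)
  · simp only
    rw [h01]
  · intro t ht
    simp only
    have h1 : Φ (l t) - k' ≠ 0 := sub_ne_zero.2 (hne t ht k' hk')
    rw [hexp (l t) (hp t ht)]
    field_simp
    ring

end CF6

end

section

open Complex MeasureTheory Set Filter Topology Metric

namespace CF6

theorem d1g_cross {K : Set ℂ} {R a b t0 : ℝ} {q : ℝ → ℂ} {Q c : ℕ → ℝ → ℂ} {s1 s2 : ℕ → ℝ}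
    (H : Closing K R a b t0 q Q c s1 s2) {d1 d2 : ℝ} (hd1 : ∀ n, a ≤ s1 n ∧ s1 n ≤ t0 - d1)
    (hd2 : ∀ n, t0 + d2 ≤ s2 n ∧ s2 n ≤ b) {y : ℝ} (hy : 0 < y) (h1 : 5 * y < d1) (h2 : 5 * y < d2)
    (h3 : 3 * y < R) : ∀ᶠ n in atTop, ¬ SameWind (c n) (I * y) (-(I * y)) := by
  filter_upwards [Metric.tendstoUniformlyOn_iff.1 H.lim (2 / 5 * y) (by positivity)] with n hn
  have hs1 := hd1 n
  have hs2 := hd2 n
  have hlen : 0 < 2 * (s2 n - s1 n) := by linarith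
  have hsub : ∀ s, s1 n ≤ s → s ≤ s2 n → s ∈ Icc a b := fun s h h' =>
    ⟨hs1.1.trans h, h'.trans hs2.2⟩
  have hclose : ∀ s, s1 n ≤ s → s ≤ s2 n →
      ‖Q n s - ((s - t0 : ℝ) : ℂ)‖ < 1 / 10 * |s - t0| + 2 / 5 * y := by
    intro s h h'
    have e1 := hn s (hsub s h h')
    have e2 := H.lin s (hsub s h h')
    rw [dist_comm, dist_eq_norm] at e1
    have e3 : Q n s - ((s - t0 : ℝ) : ℂ) = (Q n s - q s) + (q s - ((s : ℂ) - t0)) := by
      push_cast
      ring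
    rw [e3]
    have e4 := norm_add_le (Q n s - q s) (q s - ((s : ℂ) - t0))
    linarith
  set ta : ℝ := (t0 - 5 * y - s1 n) / (2 * (s2 n - s1 n)) with hta
  set tb : ℝ := (t0 + 5 * y - s1 n) / (2 * (s2 n - s1 n)) with htb
  have hta0 : 0 ≤ ta := div_nonneg (by linarith) hlen.le
  have hab : ta < tb := by
    rw [hta, htb]
    exact div_lt_div_of_pos_right (by linarith) hlen
  have htb1 : tb ≤ 1 / 2 := by
    rw [htb, div_le_iff₀ hlen]
    linarith
  have hsta : s1 n + 2 * ta * (s2 n - s1 n) = t0 - 5 * y := by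
    have : ta * (2 * (s2 n - s1 n)) = t0 - 5 * y - s1 n := div_mul_cancel₀ _ hlen.ne'
    linarith
  have hstb : s1 n + 2 * tb * (s2 n - s1 n) = t0 + 5 * y := by
    have : tb * (2 * (s2 n - s1 n)) = t0 + 5 * y - s1 n := div_mul_cancel₀ _ hlen.ne'
    linarith
  have hmono : ∀ t t' : ℝ, t ≤ t' →
      s1 n + 2 * t * (s2 n - s1 n) ≤ s1 n + 2 * t' * (s2 n - s1 n) := by
    intro t t' h
    have := mul_le_mul_of_nonneg_right h hlen.le
    linarith
  have hend : s1 n + 2 * (1 / 2) * (s2 n - s1 n) = s2 n := by ring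
  have hbeg : s1 n + 2 * 0 * (s2 n - s1 n) = s1 n := by ring
  have hbig : ∀ s, s1 n ≤ s → s ≤ s2 n → 5 * y ≤ |s - t0| → 3 * y < ‖Q n s‖ := by
    intro s h h' h5
    have e1 := hclose s h h'
    have e2 : |s - t0| ≤ ‖Q n s‖ + ‖Q n s - ((s - t0 : ℝ) : ℂ)‖ := by
      have e3 := norm_sub_le (Q n s) (Q n s - ((s - t0 : ℝ) : ℂ))
      rw [sub_sub_cancel, norm_real, Real.norm_eq_abs] at e3
      exact e3
    linarith
  refine not_sameWind_of_crossing (H.cc n).1 (H.cc n).2 hy hta0 hab (by linarith) ?_ ?_ ?_ ?_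
  · intro t ht hor
    rcases le_total t (1 / 2) with ht2 | ht2
    · rw [H.cpart n t ⟨ht.1, ht2⟩]
      have g1 := hmono 0 t ht.1
      have g2 := hmono t (1 / 2) ht2
      rw [hbeg] at g1
      rw [hend] at g2
      apply hbig _ g1 g2
      rcases hor with h | h
      · have g3 := hmono t ta h
        rw [hsta] at g3
        rw [abs_of_nonpos (by linarith)]
        linarith
      · have g3 := hmono tb t h
        rw [hstb] at g3
        rw [abs_of_nonneg (by linarith)]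
        linarith
    · have := H.cout n t ⟨ht2, ht.2⟩
      linarith
  · intro t ht
    have ht2 : t ≤ 1 / 2 := ht.2.trans htb1
    have ht0 : 0 ≤ t := hta0.trans ht.1
    rw [H.cpart n t ⟨ht0, ht2⟩]
    have g1 := hmono 0 t ht0
    have g2 := hmono t (1 / 2) ht2
    rw [hbeg] at g1
    rw [hend] at g2
    have g3 := hmono ta t ht.1
    have g4 := hmono t tb ht.2
    rw [hsta] at g3
    rw [hstb] at g4
    have e1 := hclose _ g1 g2
    have e2 : |s1 n + 2 * t * (s2 n - s1 n) - t0| ≤ 5 * y := by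
      rw [abs_le]
      constructor <;> linarith
    have e3 := abs_im_le_norm (Q n (s1 n + 2 * t * (s2 n - s1 n)) -
      ((s1 n + 2 * t * (s2 n - s1 n) - t0 : ℝ) : ℂ))
    rw [sub_im, ofReal_im, sub_zero] at e3
    linarith
  · have ht2 : ta ≤ 1 / 2 := hab.le.trans htb1
    rw [H.cpart n ta ⟨hta0, ht2⟩, hsta]
    have e1 := hclose (t0 - 5 * y) (by linarith) (by linarith)
    have e2 : |t0 - 5 * y - t0| = 5 * y := by
      rw [abs_of_nonpos (by linarith)]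
      ring
    have e3 := abs_re_le_norm (Q n (t0 - 5 * y) - ((t0 - 5 * y - t0 : ℝ) : ℂ))
    rw [sub_re, ofReal_re] at e3
    have e4 := (abs_le.1 e3).2
    linarith
  · rw [H.cpart n tb ⟨hta0.trans hab.le, htb1⟩, hstb]
    have e1 := hclose (t0 + 5 * y) (by linarith) (by linarith)
    have e2 : |t0 + 5 * y - t0| = 5 * y := by
      rw [abs_of_nonneg (by linarith)]
      ring
    have e3 := abs_re_le_norm (Q n (t0 + 5 * y) - ((t0 + 5 * y - t0 : ℝ) : ℂ))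
    rw [sub_re, ofReal_re] at e3
    have e4 := (abs_le.1 e3).1
    linarith

/-- D1.7 (about 100 lines). One of the two sides: there are a sign `σ` and `y0 > 0` such that for infinitely many `n`
the point `σ i y0` is not `SameWind` to the points of `K` (crossing lemma D1.3 at height `y0` and transitivity). -/
theorem exists_side {K : Set ℂ} {R a b t0 : ℝ} {q : ℝ → ℂ} {Q c : ℕ → ℝ → ℂ} {s1 s2 : ℕ → ℝ}
    (H : Closing K R a b t0 q Q c s1 s2) :
    ∃ y1 > (0 : ℝ), ∀ y0 : ℝ, 0 < y0 → y0 < y1 → ∃ σ : ℝ, (σ = 1 ∨ σ = -1) ∧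
      ∃ᶠ n in atTop, ∀ k ∈ K, ¬ SameWind (c n) (σ * (I * y0)) k := by
  obtain ⟨d1, hd1, hs1⟩ := H.hs1
  obtain ⟨d2, hd2, hs2⟩ := H.hs2
  have hR := H.Rpos
  refine ⟨min (min (d1 / 5) (d2 / 5)) (R / 3), by positivity, fun y hy hy1 => ?_⟩
  rw [lt_min_iff, lt_min_iff] at hy1
  have hcross := d1g_cross H hs1 hs2 hy (by linarith [hy1.1.1]) (by linarith [hy1.1.2])
    (by linarith [hy1.2])
  have hor : ∀ᶠ n in atTop, (∀ k ∈ K, ¬ SameWind (c n) (I * y) k) ∨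
      (∀ k ∈ K, ¬ SameWind (c n) (-(I * y)) k) := by
    filter_upwards [hcross] with n hn
    by_contra hcon
    push Not at hcon
    obtain ⟨⟨k, hk, h1⟩, ⟨k', hk', h2⟩⟩ := hcon
    obtain ⟨_, hsymm, htrans⟩ := SameWind.equiv (c n)
    exact hn (htrans _ _ _ h1 (htrans _ _ _ (H.same n k hk k' hk') (hsymm _ _ h2)))
  by_cases hfreq : ∃ᶠ n in atTop, ∀ k ∈ K, ¬ SameWind (c n) (I * y) k
  · refine ⟨1, Or.inl rfl, ?_⟩
    rw [ofReal_one, one_mul]
    exact hfreq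
  · refine ⟨-1, Or.inr rfl, ?_⟩
    rw [ofReal_neg, ofReal_one, neg_one_mul]
    rw [not_frequently] at hfreq
    apply Eventually.frequently
    filter_upwards [hfreq, hor] with n h1 h2
    exact h2.resolve_left h1

end CF6

end

section

open Complex MeasureTheory Set Filter Topology Metric

namespace CF6

/-- D1.11 (about 80 lines) the limit along the sector from the limit along the axis, by `wolff`. -/
theorem sector_limit {K : Set ℂ} {Φ ρ : ℂ → ℂ} (hK : Collar K Φ ρ) {x : ℝ} {p e : ℂ}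
    (he : ‖e‖ = 1)
    (free : ∀ η > (0 : ℝ), ∃ r > (0 : ℝ), ∀ w : ℂ, ‖w‖ < r → η * ‖w‖ < w.im → p + e * w ∉ K)
    (lim : Tendsto (fun y : ℝ => ρ (p + e * (I * y))) (𝓝[>] 0) (𝓝 (exp (I * x)))) :
    ∀ η > (0 : ℝ), Tendsto (fun w => ρ (p + e * w)) (𝓝[{w : ℂ | η * ‖w‖ < w.im}] 0)
      (𝓝 (exp (I * x))) := by
  intro η hη
  rw [Metric.tendsto_nhdsWithin_nhds]
  intro ε hε
  obtain ⟨r, hr, hfree⟩ := free η hη
  obtain ⟨δ1, hδ1, hlim⟩ := (Metric.tendsto_nhdsWithin_nhds.1 lim) (ε / 2) (by linarith)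
  obtain ⟨d, hd, hw⟩ := wolff hK (‖p‖ + 1) (ε / 3) (by linarith)
  refine ⟨min (min r δ1) (min (d / 2) 1), by positivity, ?_⟩
  intro w hw1 hw2
  rw [dist_zero_right] at hw2
  have a1 : ‖w‖ < r := hw2.trans_le ((min_le_left _ _).trans (min_le_left _ _))
  have a2 : ‖w‖ < δ1 := hw2.trans_le ((min_le_left _ _).trans (min_le_right _ _))
  have a3 : ‖w‖ < d / 2 := hw2.trans_le ((min_le_right _ _).trans (min_le_left _ _))
  have a4 : ‖w‖ < 1 := hw2.trans_le ((min_le_right _ _).trans (min_le_right _ _))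
  have hw1' : η * ‖w‖ < w.im := hw1
  have hw0 : 0 < ‖w‖ := by
    rw [norm_pos_iff]
    intro h
    rw [h] at hw1'
    simp at hw1'
  have him : w.im ≤ ‖w‖ := Complex.im_le_norm w
  have hη1 : η < 1 := by
    by_contra h
    push Not at h
    nlinarith
  have hIn : ‖I * ((‖w‖ : ℝ) : ℂ)‖ = ‖w‖ := by
    rw [norm_mul, Complex.norm_I, one_mul, Complex.norm_real, norm_norm]
  have hIim : (I * ((‖w‖ : ℝ) : ℂ)).im = ‖w‖ := by simp
  -- the segment
  have hseg : ∀ z ∈ segment ℝ w (I * ((‖w‖ : ℝ) : ℂ)), ‖z‖ ≤ ‖w‖ ∧ η * ‖z‖ < z.im := by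
    rintro z ⟨a, b, ha, hb, hab, rfl⟩
    have h1 : ‖a • w + b • (I * ((‖w‖ : ℝ) : ℂ))‖ ≤ a * ‖w‖ + b * ‖w‖ := by
      refine (norm_add_le _ _).trans ?_
      rw [norm_smul, norm_smul, hIn, Real.norm_of_nonneg ha, Real.norm_of_nonneg hb]
    have h2 : (a • w + b • (I * ((‖w‖ : ℝ) : ℂ))).im = a * w.im + b * ‖w‖ := by
      rw [Complex.add_im, Complex.smul_im, Complex.smul_im, hIim, smul_eq_mul, smul_eq_mul]
    constructor
    · calc _ ≤ a * ‖w‖ + b * ‖w‖ := h1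
        _ = ‖w‖ := by rw [← add_mul, hab, one_mul]
    · rw [h2]
      have h3 : η * ‖a • w + b • (I * ((‖w‖ : ℝ) : ℂ))‖ ≤ η * (a * ‖w‖ + b * ‖w‖) :=
        mul_le_mul_of_nonneg_left h1 hη.le
      have h4 : η * (a * ‖w‖ + b * ‖w‖) = a * (η * ‖w‖) + b * (η * ‖w‖) := by ring
      have h5 : η * ‖w‖ < ‖w‖ := by nlinarith
      rcases eq_or_lt_of_le ha with h6 | h6
      · have h7 : b = 1 := by linarith
        rw [← h6, h7] at h3 ⊢
        rw [← h6, h7] at h4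
        linarith
      · have h8 : a * (η * ‖w‖) < a * w.im := mul_lt_mul_of_pos_left hw1' h6
        have h9 : b * (η * ‖w‖) ≤ b * ‖w‖ := mul_le_mul_of_nonneg_left h5.le hb
        linarith
  have hS := hw ((fun z => p + e * z) '' segment ℝ w (I * ((‖w‖ : ℝ) : ℂ))) ?_ ?_ ?_
    (p + e * w) (mem_image_of_mem _ (left_mem_segment ℝ _ _))
    (p + e * (I * ((‖w‖ : ℝ) : ℂ))) (mem_image_of_mem _ (right_mem_segment ℝ _ _))
  · have h3 := hlim (x := ‖w‖) hw0 (by rw [dist_zero_right, norm_norm]; exact a2)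
    calc dist (ρ (p + e * w)) (exp (I * x)) ≤
        dist (ρ (p + e * w)) (ρ (p + e * (I * ((‖w‖ : ℝ) : ℂ)))) +
          dist (ρ (p + e * (I * ((‖w‖ : ℝ) : ℂ)))) (exp (I * x)) := dist_triangle _ _ _
      _ < ε := by linarith
  · rintro _ ⟨z, hz, rfl⟩
    obtain ⟨h1, h2⟩ := hseg z hz
    refine ⟨hfree z (h1.trans_lt a1) h2, ?_⟩
    rw [mem_closedBall, dist_zero_right]
    refine (norm_add_le _ _).trans ?_
    rw [norm_mul, he, one_mul]
    linarith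
  · refine ((convex_segment w (I * ((‖w‖ : ℝ) : ℂ))).isPreconnected).image _ ?_
    exact (by fun_prop : Continuous fun z : ℂ => p + e * z).continuousOn
  · rintro _ ⟨z, hz, rfl⟩ _ ⟨z', hz', rfl⟩
    rw [dist_eq_norm]
    have h1 : p + e * z - (p + e * z') = e * (z - z') := by ring
    simp only
    rw [h1, norm_mul, he, one_mul]
    have h2 := (hseg z hz).1
    have h3 := (hseg z' hz').1
    have h4 := norm_sub_le z z'
    linarith

end CF6

end

section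

open Complex MeasureTheory Set Filter Topology Metric

namespace CF6

theorem d2p_dir {e κ D : ℂ} {c ε : ℝ} (he : ‖e‖ = 1) (hc : 0 < c) (hκ : ‖κ - 1‖ ≤ ε / 2)
    (hε : ε ≤ 1) (hD : D = e * c * κ) : D ≠ 0 ∧ ‖D / ‖D‖ - e‖ ≤ ε := by
  have hκ0 : κ ≠ 0 := by
    intro h
    rw [h, zero_sub, norm_neg, norm_one] at hκ
    linarith
  have he0 : e ≠ 0 := by
    intro h
    rw [h, norm_zero] at he
    linarith
  have hc0 : (c : ℂ) ≠ 0 := by exact_mod_cast hc.ne'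
  have hnκ : ‖κ‖ ≠ 0 := norm_ne_zero_iff.mpr hκ0
  have hnκ' : (‖κ‖ : ℂ) ≠ 0 := by exact_mod_cast hnκ
  refine ⟨by rw [hD]; exact mul_ne_zero (mul_ne_zero he0 hc0) hκ0, ?_⟩
  have hnD : ‖D‖ = c * ‖κ‖ := by
    rw [hD, norm_mul, norm_mul, he, one_mul, Complex.norm_real, Real.norm_eq_abs, abs_of_pos hc]
  have h1 : D / ‖D‖ - e = e * (κ / ‖κ‖ - 1) := by
    rw [hnD, hD]
    push_cast
    field_simp
  rw [h1, norm_mul, he, one_mul]
  have h2 : κ / ‖κ‖ - 1 = (κ / ‖κ‖ - κ) + (κ - 1) := by ring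
  rw [h2]
  refine (norm_add_le _ _).trans ?_
  have h3 : κ / ‖κ‖ - κ = κ / ‖κ‖ * (1 - ‖κ‖) := by field_simp
  have h4 : ‖κ / ‖κ‖ - κ‖ ≤ ‖κ - 1‖ := by
    rw [h3, norm_mul, norm_div, Complex.norm_real, norm_norm, div_self hnκ, one_mul]
    have h5 : (1 - (‖κ‖ : ℂ)) = ((1 - ‖κ‖ : ℝ) : ℂ) := by push_cast; rfl
    rw [h5, Complex.norm_real, Real.norm_eq_abs]
    have h6 := abs_norm_sub_norm_le (1 : ℂ) κ
    rw [norm_one, norm_sub_rev] at h6
    exact h6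
  linarith

/-- D2.13 (about 150 lines) end of the proof. For `u = x + v`, `|Re v| ≤ L Im v`, put `Z' = -1/v`, choose `m` with
`Im q_m ≤ |Z'| < Im q_{m+1} ≤ 8 Im q_m`, `Z = (Z' - Re q_m)/Im q_m ∈ HD R_L`, `u = B_m(Z)`. Then `Φ(u) = p + e r_m f_m(Z)` and
`Φ'(u) = e r_m f_m'(Z) Z'^2 / Im q_m = e r_m Im q_m (1 + o(1))`. -/
theorem isogonal_end {K : Set ℂ} {Φ U : ℂ → ℂ} {x : ℝ} {p e : ℂ} {C0 y1 r0 : ℝ}
    (S : Sector K Φ U x p e C0 y1) (hr0 : 0 < r0) (hq : ∀ m, 0 < (qm U x r0 m).im)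
    (hq' : Tendsto (fun m => ‖qm U x r0 m‖) atTop atTop)
    (hf : ∀ R : ℝ, 0 ≤ R → R < 1 → ∀ η > (0 : ℝ), ∀ᶠ m in atTop, ∀ Z ∈ HD R,
      ‖fm Φ U x p e r0 m Z + 1 / Z‖ ≤ η ∧ ‖deriv (fm Φ U x p e r0 m) Z - 1 / Z ^ 2‖ ≤ η)
    (g1 : Tendsto (fun m => (qm U x r0 m).im) atTop atTop)
    (g2 : Tendsto (fun m => (qm U x r0 (m + 1)).im / (qm U x r0 m).im) atTop (𝓝 4))
    (g3 : Tendsto (fun m => (qm U x r0 m).re / (qm U x r0 m).im) atTop (𝓝 0)) :
    Isogonal Φ x p e := by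
  intro L hL η hη
  obtain ⟨A, hA⟩ : ∃ A : ℝ, A = 1 + L := ⟨_, rfl⟩
  have hA1 : 1 < A := by linarith
  have hA0 : 0 < A := by linarith
  obtain ⟨R, hR0, hR1, hR⟩ := mem_HD_of_bounds (1 / A) 9 (by positivity) (by norm_num)
  obtain ⟨η0, hη0⟩ : ∃ η0 : ℝ, η0 = min η 1 := ⟨_, rfl⟩
  have hη0p : 0 < η0 := by rw [hη0]; exact lt_min hη one_pos
  have hη01 : η0 ≤ 1 := by rw [hη0]; exact min_le_right _ _
  have hη0η : η0 ≤ η := by rw [hη0]; exact min_le_left _ _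
  have e1 := hf R hR0 hR1 (η0 / 256) (by positivity)
  have e2 := Bm_facts S hq hq' R hR0 hR1 1 one_pos
  have e3 : ∀ᶠ m in atTop, (qm U x r0 (m + 1)).im ≤ 8 * (qm U x r0 m).im := by
    filter_upwards [g2.eventually_lt_const (show (4 : ℝ) < 8 by norm_num)] with m hm
    rw [div_lt_iff₀ (hq m)] at hm
    exact hm.le
  have e4 : ∀ᶠ m in atTop, |(qm U x r0 m).re / (qm U x r0 m).im| ≤ η0 / (16 * A) := by
    have h1 := g3.abs
    rw [abs_zero] at h1
    exact h1.eventually_le_const (by positivity)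
  have e5 : ∀ᶠ m in atTop, scl r0 m * (1 + A) ≤ η := by
    have h1 : Tendsto (fun m => scl r0 m * (1 + A)) atTop (𝓝 (r0 * 0 * (1 + A))) := by
      unfold scl
      exact ((tendsto_pow_atTop_nhds_zero_of_lt_one (by norm_num) (by norm_num)).const_mul
        r0).mul_const _
    rw [mul_zero, zero_mul] at h1
    exact h1.eventually_le_const hη
  obtain ⟨M, hM⟩ := eventually_atTop.mp (e1.and (e2.and (e3.and (e4.and e5))))
  have hQM := hq M
  refine ⟨1 / (A * (qm U x r0 M).im), by positivity, fun u hu hud hcone => ?_⟩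
  obtain ⟨v, hv⟩ : ∃ v : ℂ, v = u - x := ⟨_, rfl⟩
  have hvim : v.im = u.im := by rw [hv]; simp
  have hvre : v.re = u.re - x := by rw [hv]; simp
  have hv0 : v ≠ 0 := by
    intro h
    rw [h, Complex.zero_im] at hvim
    linarith
  have hnv : 0 < ‖v‖ := norm_pos_iff.mpr hv0
  have hnvA : ‖v‖ ≤ A * u.im := by
    have h1 := Complex.norm_le_abs_re_add_abs_im v
    rw [hvim, hvre, abs_of_pos hu] at h1
    rw [hA]
    linarith
  obtain ⟨Z', hZ'⟩ : ∃ Z' : ℂ, Z' = -1 / v := ⟨_, rfl⟩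
  have hnZ' : ‖Z'‖ = 1 / ‖v‖ := by rw [hZ', norm_div, norm_neg, norm_one]
  have hZ'0 : Z' ≠ 0 := by
    rw [hZ']
    exact div_ne_zero (by norm_num) hv0
  have hbig : (qm U x r0 M).im ≤ ‖Z'‖ := by
    rw [hnZ', le_div_iff₀ hnv]
    rw [lt_div_iff₀ (by positivity)] at hud
    have h1 : (qm U x r0 M).im * ‖v‖ ≤ (qm U x r0 M).im * (A * u.im) :=
      mul_le_mul_of_nonneg_left hnvA hQM.le
    linarith
  -- the scale
  have hex : ∃ m, M ≤ m ∧ ‖Z'‖ < (qm U x r0 (m + 1)).im := by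
    obtain ⟨N, hN⟩ := (g1.eventually_gt_atTop ‖Z'‖).exists_forall_of_atTop
    exact ⟨max M N, le_max_left _ _, hN _ (by have := le_max_right M N; omega)⟩
  obtain ⟨m, hMm, hm1, hm2⟩ : ∃ m, M ≤ m ∧ (qm U x r0 m).im ≤ ‖Z'‖ ∧
      ‖Z'‖ < (qm U x r0 (m + 1)).im := by
    classical
    refine ⟨Nat.find hex, (Nat.find_spec hex).1, ?_, (Nat.find_spec hex).2⟩
    rcases (Nat.find_spec hex).1.eq_or_lt with h | h
    · rw [← h]; exact hbig
    · have h1 := Nat.find_min hex (m := Nat.find hex - 1) (by omega)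
      push Not at h1
      have h2 := h1 (by omega)
      rwa [show Nat.find hex - 1 + 1 = Nat.find hex by omega] at h2
  obtain ⟨f1, f2, f3, f4, f5⟩ := hM m hMm
  obtain ⟨Q, hQ⟩ : ∃ Q : ℝ, Q = (qm U x r0 m).im := ⟨_, rfl⟩
  obtain ⟨b, hb⟩ : ∃ b : ℝ, b = (qm U x r0 m).re := ⟨_, rfl⟩
  rw [← hQ] at hm1 f3 f4
  rw [← hb] at f4
  have hQ0 : 0 < Q := by rw [hQ]; exact hq m
  have hQc : (Q : ℂ) ≠ 0 := by exact_mod_cast hQ0.ne'
  obtain ⟨Z, hZ⟩ : ∃ Z : ℂ, Z = (Z' - b) / Q := ⟨_, rfl⟩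
  have hbQ : (b : ℂ) + Q * Z = Z' := by
    rw [hZ]
    field_simp
    ring
  have hZ'im : Z'.im = u.im / ‖v‖ ^ 2 := by
    rw [hZ', Complex.div_im]
    simp only [Complex.neg_im, Complex.one_im, neg_zero, zero_mul, zero_div, Complex.neg_re,
      Complex.one_re, neg_mul, one_mul, zero_sub]
    rw [hvim, Complex.normSq_eq_norm_sq]
    ring
  have hZim : Z.im = Z'.im / Q := by
    rw [hZ, Complex.div_ofReal_im, Complex.sub_im, Complex.ofReal_im, sub_zero]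
  have hQv : Q * ‖v‖ ≤ 1 := by
    rw [hnZ', le_div_iff₀ hnv] at hm1
    exact hm1
  have hZim1 : 1 / A ≤ Z.im := by
    rw [hZim, hZ'im, div_div, div_le_div_iff₀ hA0 (by positivity)]
    have h1 : ‖v‖ ^ 2 * Q ≤ ‖v‖ := by
      calc ‖v‖ ^ 2 * Q = ‖v‖ * (Q * ‖v‖) := by ring
        _ ≤ ‖v‖ * 1 := mul_le_mul_of_nonneg_left hQv hnv.le
        _ = ‖v‖ := mul_one _
    linarith [mul_comm u.im A]
  have hZim0 : 0 < Z.im := lt_of_lt_of_le (by positivity) hZim1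
  have hZ0 : Z ≠ 0 := by
    intro h
    rw [h, Complex.zero_im] at hZim0
    exact lt_irrefl _ hZim0
  have hnbQ : ‖(b : ℂ) / Q‖ ≤ η0 / (16 * A) := by
    rw [← Complex.ofReal_div, Complex.norm_real, Real.norm_eq_abs]
    exact f4
  have hZ'Q : ‖Z' / Q‖ ≤ 8 := by
    rw [norm_div, Complex.norm_real, Real.norm_eq_abs, abs_of_pos hQ0, div_le_iff₀ hQ0]
    linarith
  have hη2 : η0 / (16 * A) ≤ 1 := by
    rw [div_le_one (by positivity)]
    linarith
  have hnZ : ‖Z‖ ≤ 9 := by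
    have h1 : Z = Z' / Q - b / Q := by rw [hZ]; ring
    rw [h1]
    refine (norm_sub_le _ _).trans ?_
    linarith
  have hZHD := hR Z hZim1 hnZ
  obtain ⟨a1, a2⟩ := f1 Z hZHD
  obtain ⟨b1, b2, b3, b4⟩ := f2 Z hZHD
  rw [← hQ, ← hb] at b3 b4
  have hBu : Bm U x r0 m Z = u := by
    unfold Bm
    rw [← hQ, ← hb, hbQ, hZ', hv]
    have h1 : u - x ≠ 0 := by rw [← hv]; exact hv0
    field_simp
    ring
  rw [hbQ] at b3
  have hnZinv : ‖1 / Z‖ ≤ A := by
    rw [norm_div, norm_one, div_le_iff₀ (norm_pos_iff.mpr hZ0)]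
    have h1 : Z.im ≤ ‖Z‖ := (le_abs_self _).trans (Complex.abs_im_le_norm Z)
    rw [div_le_iff₀ hA0] at hZim1
    exact (hZim1.trans (mul_le_mul_of_nonneg_right h1 hA0.le)).trans_eq (mul_comm _ _)
  have hscl : 0 < scl r0 m := by
    unfold scl
    positivity
  have he0 : e ≠ 0 := by
    intro h
    have := S.he
    rw [h, norm_zero] at this
    linarith
  have hsclc : (scl r0 m : ℂ) ≠ 0 := by exact_mod_cast hscl.ne'
  have hfmZ : fm Φ U x p e r0 m Z = (Φ u - p) / (e * scl r0 m) := by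
    unfold fm
    rw [hBu]
  have part1 : ‖Φ u - p‖ ≤ η := by
    have h1 : Φ u - p = e * scl r0 m * fm Φ U x p e r0 m Z := by
      rw [hfmZ]
      field_simp
    rw [h1, norm_mul, norm_mul, S.he, one_mul, Complex.norm_real, Real.norm_eq_abs,
      abs_of_pos hscl]
    have h2 : ‖fm Φ U x p e r0 m Z‖ ≤ 1 + A := by
      have h3 : fm Φ U x p e r0 m Z = (fm Φ U x p e r0 m Z + 1 / Z) - 1 / Z := by ring
      rw [h3]
      refine (norm_sub_le _ _).trans ?_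
      linarith
    exact (mul_le_mul_of_nonneg_left h2 hscl.le).trans f5
  have huU : u ∈ UHP := hu
  have hUo : IsOpen UHP := isOpen_lt continuous_const Complex.continuous_im
  have hΦu : HasDerivAt Φ (deriv Φ u) u := (S.dPhi.differentiableAt (hUo.mem_nhds huU)).hasDerivAt
  have hdfm : deriv (fm Φ U x p e r0 m) Z = deriv Φ u * (Q / Z' ^ 2) / (e * scl r0 m) := by
    have h1 : HasDerivAt (fun Z => Φ (Bm U x r0 m Z)) (deriv Φ u * (Q / Z' ^ 2)) Z := by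
      have h2 : HasDerivAt Φ (deriv Φ u) (Bm U x r0 m Z) := by rw [hBu]; exact hΦu
      exact h2.comp Z b3
    exact ((h1.sub_const p).div_const (e * scl r0 m)).deriv
  obtain ⟨κ, hκ⟩ : ∃ κ : ℂ, κ = deriv (fm Φ U x p e r0 m) Z * (Z' / Q) ^ 2 := ⟨_, rfl⟩
  have hD : deriv Φ u = e * ((scl r0 m * Q : ℝ) : ℂ) * κ := by
    rw [hκ, hdfm]
    push_cast
    field_simp
  have hκ1 : ‖κ - 1‖ ≤ η0 / 2 := by
    have h1 : κ - 1 = (deriv (fm Φ U x p e r0 m) Z - 1 / Z ^ 2) * (Z' / Q) ^ 2 +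
        (2 * (b / Q) * (1 / Z) + (b / Q) ^ 2 * (1 / Z) ^ 2) := by
      have h2 : Z' / Q = Z + b / Q := by
        rw [hZ]
        field_simp
        ring
      rw [hκ, h2]
      field_simp
      ring
    rw [h1]
    have h3 : ‖(deriv (fm Φ U x p e r0 m) Z - 1 / Z ^ 2) * (Z' / Q) ^ 2‖ ≤ η0 / 256 * 8 ^ 2 := by
      rw [norm_mul, norm_pow]
      exact mul_le_mul a2 (pow_le_pow_left₀ (norm_nonneg _) hZ'Q 2) (by positivity)
        (by positivity)
    have h4 : ‖(b : ℂ) / Q‖ * ‖1 / Z‖ ≤ η0 / 16 := by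
      calc ‖(b : ℂ) / Q‖ * ‖1 / Z‖ ≤ η0 / (16 * A) * A :=
            mul_le_mul hnbQ hnZinv (norm_nonneg _) (by positivity)
        _ = η0 / 16 := by field_simp
    have h5 : ‖2 * ((b : ℂ) / Q) * (1 / Z)‖ ≤ η0 / 8 := by
      rw [norm_mul, norm_mul, Complex.norm_ofNat]
      linarith
    have h6 : ‖((b : ℂ) / Q) ^ 2 * (1 / Z) ^ 2‖ ≤ η0 / 16 := by
      rw [← mul_pow, norm_pow, norm_mul]
      have h7 : 0 ≤ ‖(b : ℂ) / Q‖ * ‖1 / Z‖ := by positivity
      have h9 : ‖(b : ℂ) / Q‖ * ‖1 / Z‖ ≤ 1 := h4.trans (by linarith)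
      rw [pow_two]
      exact (mul_le_of_le_one_left h7 h9).trans h4
    refine (norm_add_le _ _).trans ?_
    have h8 := norm_add_le (2 * ((b : ℂ) / Q) * (1 / Z)) (((b : ℂ) / Q) ^ 2 * (1 / Z) ^ 2)
    linarith
  obtain ⟨c1, c2⟩ := d2p_dir S.he (mul_pos hscl hQ0) hκ1 hη01 hD
  exact ⟨part1, c1, c2.trans hη0η⟩

end CF6

end

section

/-!
# Module D, third part: almost every contact point is isogonal, Egorov (helper68)
-/

open Complex MeasureTheory Set Filter Topology Metric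

open scoped ENNReal

namespace CF6

/-- `ζ = e^{ix}` is isogonal with value `p` -/
def IsoAt (Φ : ℂ → ℂ) (ζ p : ℂ) : Prop :=
  ∃ (x : ℝ) (e : ℂ), ζ = exp (I * x) ∧ ‖e‖ = 1 ∧ Isogonal Φ x p e

/-- the cone of opening `L` at `x`, truncated at height `1/(n+1)` -/
def cone (x : ℝ) (L n : ℕ) : Set ℂ := {u | 0 < u.im ∧ u.im < 1 / (n + 1) ∧ |u.re - x| < L * u.im}

/-- oscillation of `Φ` and of the direction of `Φ'` over the truncated cone -/
noncomputable def osc (Φ : ℂ → ℂ) (L n : ℕ) (x : ℝ) : ℝ≥0∞ :=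
  ⨆ u ∈ cone x L n, ⨆ u' ∈ cone x L n,
    (edist (Φ u) (Φ u') + edist (deriv Φ u / ‖deriv Φ u‖) (deriv Φ u' / ‖deriv Φ u'‖))

end CF6

end

section

open Complex MeasureTheory Set Filter Topology Metric

open scoped ENNReal

namespace CF6

/-- D3.1 (about 80 lines). The truncated cones are open in `x`, so `osc` is lower semicontinuous, hence measurable. -/
theorem measurable_osc (Φ : ℂ → ℂ) (L n : ℕ) : Measurable (osc Φ L n) := by
  refine measurable_of_Ioi (fun a => IsOpen.measurableSet ?_)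
  rw [isOpen_iff_mem_nhds]
  intro x hx
  have hx' : a < osc Φ L n x := hx
  unfold osc at hx'
  rw [lt_iSup_iff] at hx'
  obtain ⟨u, hx'⟩ := hx'
  rw [lt_iSup_iff] at hx'
  obtain ⟨hu, hx'⟩ := hx'
  rw [lt_iSup_iff] at hx'
  obtain ⟨u', hx'⟩ := hx'
  rw [lt_iSup_iff] at hx'
  obtain ⟨hu', hx'⟩ := hx'
  have hopen : ∀ v ∈ cone x L n, ∀ᶠ y in 𝓝 x, v ∈ cone y L n := by
    rintro v ⟨h1, h2, h3⟩
    have hc : Continuous (fun y : ℝ => |v.re - y|) := by fun_prop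
    filter_upwards [hc.continuousAt.eventually (gt_mem_nhds h3)] with y hy
    exact ⟨h1, h2, hy⟩
  filter_upwards [hopen u hu, hopen u' hu'] with y hy hy'
  refine lt_of_lt_of_le hx' ?_
  exact le_iSup₂_of_le u hy (le_iSup₂_of_le u' hy' le_rfl)

end CF6

end

section

open Complex MeasureTheory Set Filter Topology Metric

open scoped ENNReal

namespace CF6

theorem d3b_le {Φ : ℂ → ℂ} {L n : ℕ} {x : ℝ} {u u' : ℂ} (hu : u ∈ cone x L n)
    (hu' : u' ∈ cone x L n) : edist (Φ u) (Φ u') ≤ osc Φ L n x ∧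
      edist (deriv Φ u / ‖deriv Φ u‖) (deriv Φ u' / ‖deriv Φ u'‖) ≤ osc Φ L n x := by
  have h1 : edist (Φ u) (Φ u') + edist (deriv Φ u / ‖deriv Φ u‖) (deriv Φ u' / ‖deriv Φ u'‖) ≤
      osc Φ L n x := le_iSup₂_of_le u hu (le_iSup₂_of_le u' hu' le_rfl)
  exact ⟨le_self_add.trans h1, le_add_self.trans h1⟩

/-- the test points -/
noncomputable def d3bPt (x : ℝ) (m : ℕ) : ℂ := ⟨x, 1 / (2 * (m + 1))⟩

theorem d3b_mem (x : ℝ) {L n m : ℕ} (hL : 0 < L) (hnm : n ≤ m) : d3bPt x m ∈ cone x L n := by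
  have hm : (0 : ℝ) < m + 1 := by positivity
  have hn : (0 : ℝ) < n + 1 := by positivity
  have him : (d3bPt x m).im = 1 / (2 * (m + 1)) := rfl
  have hre : (d3bPt x m).re = x := rfl
  refine ⟨?_, ?_, ?_⟩
  · rw [him]
    positivity
  · rw [him]
    have h1 : (n : ℝ) + 1 ≤ m + 1 := by exact_mod_cast Nat.succ_le_succ hnm
    exact one_div_lt_one_div_of_lt hn (by linarith)
  · rw [him, hre, sub_self, abs_zero]
    have : (0 : ℝ) < L := by exact_mod_cast hL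
    positivity

theorem d3b_uhp {x : ℝ} {L n : ℕ} {u : ℂ} (hu : u ∈ cone x L n) : u ∈ UHP := hu.1

/-- D3.2 (about 100 lines). Isogonality = the oscillations tend to `0` (completeness; `Φ' ≠ 0` by injectivity; apexes of the
cones: the closed cone of opening `L` is in the open cone of opening `L+1`). -/
theorem isogonal_iff_osc {K : Set ℂ} {Φ ρ : ℂ → ℂ} (hK : Collar K Φ ρ) (x : ℝ) :
    (∃ p e : ℂ, ‖e‖ = 1 ∧ Isogonal Φ x p e) ↔
      ∀ L : ℕ, Tendsto (fun n => osc Φ L n x) atTop (𝓝 0) := by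
  have hder := (inj_mod hK).2.1
  constructor
  · rintro ⟨p, e, -, hiso⟩ L
    rw [ENNReal.tendsto_atTop_zero]
    intro ε hε
    obtain ⟨η, hη0, hηε⟩ : ∃ η : ℝ, 0 < η ∧ 4 * ENNReal.ofReal η ≤ ε := by
      rcases eq_or_ne ε ⊤ with rfl | htop
      · exact ⟨1, one_pos, le_top⟩
      · have hε' : 0 < ε.toReal := ENNReal.toReal_pos hε.ne' htop
        refine ⟨ε.toReal / 4, by positivity, ?_⟩
        rw [ENNReal.ofReal_div_of_pos (by norm_num), ENNReal.ofReal_toReal htop,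
          show ENNReal.ofReal 4 = 4 by simp]
        exact (ENNReal.mul_div_cancel (by norm_num) (by norm_num)).le
    obtain ⟨δ, hδ0, hδ⟩ := hiso ((L : ℝ) + 1) (by positivity) η hη0
    obtain ⟨N, hN⟩ := exists_nat_one_div_lt hδ0
    refine ⟨N, fun n hn => ?_⟩
    have hcone : ∀ u ∈ cone x L n, ‖Φ u - p‖ ≤ η ∧ ‖deriv Φ u / ‖deriv Φ u‖ - e‖ ≤ η := by
      rintro u ⟨h1, h2, h3⟩
      have h4 : u.im < δ := by
        refine h2.trans (lt_of_le_of_lt ?_ hN)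
        have h5 : (N : ℝ) + 1 ≤ n + 1 := by exact_mod_cast Nat.succ_le_succ hn
        exact one_div_le_one_div_of_le (by positivity) h5
      have h6 := hδ u h1 h4 (by nlinarith)
      exact ⟨h6.1, h6.2.2⟩
    have hed : ∀ z w : ℂ, ‖z - w‖ ≤ η → edist z w ≤ ENNReal.ofReal η := by
      intro z w hzw
      rw [edist_dist, dist_eq_norm]
      exact ENNReal.ofReal_le_ofReal hzw
    refine (iSup₂_le (fun u hu => iSup₂_le (fun u' hu' => ?_))).trans hηε
    obtain ⟨a1, a2⟩ := hcone u hu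
    obtain ⟨b1, b2⟩ := hcone u' hu'
    have c1 : edist (Φ u) (Φ u') ≤ ENNReal.ofReal η + ENNReal.ofReal η :=
      (edist_triangle_right _ _ p).trans (add_le_add (hed _ _ a1) (hed _ _ b1))
    have c2 : edist (deriv Φ u / ‖deriv Φ u‖) (deriv Φ u' / ‖deriv Φ u'‖) ≤
        ENNReal.ofReal η + ENNReal.ofReal η :=
      (edist_triangle_right _ _ e).trans (add_le_add (hed _ _ a2) (hed _ _ b2))
    refine (add_le_add c1 c2).trans (le_of_eq ?_)
    ring
  · intro h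
    have hcau : ∀ (f : ℂ → ℂ), (∀ (L n : ℕ) (u u' : ℂ), u ∈ cone x L n → u' ∈ cone x L n →
        edist (f u) (f u') ≤ osc Φ L n x) → ∃ p : ℂ,
        Tendsto (fun m => f (d3bPt x m)) atTop (𝓝 p) := by
      intro f hf
      refine cauchySeq_tendsto_of_complete ?_
      rw [EMetric.cauchySeq_iff]
      intro ε hε
      obtain ⟨N, hN⟩ := ((h 1).eventually (gt_mem_nhds hε)).exists
      exact ⟨N, fun m hm m' hm' => lt_of_le_of_lt
        (hf 1 N _ _ (d3b_mem x one_pos hm) (d3b_mem x one_pos hm')) hN⟩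
    obtain ⟨p, hp⟩ := hcau Φ (fun L n u u' hu hu' => (d3b_le hu hu').1)
    obtain ⟨e, he⟩ := hcau (fun u => deriv Φ u / ‖deriv Φ u‖)
      (fun L n u u' hu hu' => (d3b_le hu hu').2)
    have hlimle : ∀ (f : ℂ → ℂ) (q : ℂ), (∀ (L n : ℕ) (u u' : ℂ), u ∈ cone x L n →
        u' ∈ cone x L n → edist (f u) (f u') ≤ osc Φ L n x) →
        Tendsto (fun m => f (d3bPt x m)) atTop (𝓝 q) → ∀ (L n : ℕ), 0 < L → ∀ u ∈ cone x L n,
        edist (f u) q ≤ osc Φ L n x := by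
      intro f q hf hq L n hL u hu
      have h1 : Tendsto (fun m => edist (f u) (f (d3bPt x m))) atTop (𝓝 (edist (f u) q)) :=
        tendsto_const_nhds.edist hq
      refine le_of_tendsto h1 ?_
      filter_upwards [eventually_ge_atTop n] with m hm
      exact hf L n _ _ hu (d3b_mem x hL hm)
    have hnorm : ‖e‖ = 1 := by
      have h1 : Tendsto (fun m => ‖deriv Φ (d3bPt x m) / ‖deriv Φ (d3bPt x m)‖‖) atTop (𝓝 ‖e‖) :=
        he.norm
      have h2 : (fun m => ‖deriv Φ (d3bPt x m) / ‖deriv Φ (d3bPt x m)‖‖) = fun _ => (1 : ℝ) := by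
        funext m
        have h3 : deriv Φ (d3bPt x m) ≠ 0 :=
          hder _ (d3b_uhp (d3b_mem x (L := 1) one_pos (Nat.zero_le m)))
        rw [norm_div, Complex.norm_real, norm_norm, div_self (norm_ne_zero_iff.2 h3)]
      rw [h2] at h1
      exact (tendsto_nhds_unique h1 tendsto_const_nhds)
    refine ⟨p, e, hnorm, ?_⟩
    intro L hL η hη
    obtain ⟨L', hL'⟩ := exists_nat_gt L
    have hL'0 : 0 < L' := by exact_mod_cast hL.trans hL'
    have hη' : 0 < ENNReal.ofReal η := by simpa using hη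
    obtain ⟨N, hN⟩ := ((h L').eventually (gt_mem_nhds hη')).exists
    refine ⟨1 / ((N : ℝ) + 1), by positivity, fun u hu0 hu1 hu2 => ?_⟩
    have hu : u ∈ cone x L' N := ⟨hu0, hu1, lt_of_le_of_lt hu2 (by nlinarith)⟩
    have h1 := (hlimle Φ p (fun L n u u' hu hu' => (d3b_le hu hu').1) hp L' N hL'0 u hu).trans hN.le
    have h2 := (hlimle (fun u => deriv Φ u / ‖deriv Φ u‖) e
      (fun L n u u' hu hu' => (d3b_le hu hu').2) he L' N hL'0 u hu).trans hN.le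
    rw [edist_dist, ENNReal.ofReal_le_ofReal_iff hη.le, dist_eq_norm] at h1 h2
    exact ⟨h1, hder u hu0, h2⟩

end CF6

end

section

open Complex MeasureTheory Set Filter Topology Metric

open scoped ENNReal

namespace CF6

/-- D3.3 (about 60 lines) uniform version. -/
theorem uisogonal_of_osc {K : Set ℂ} {Φ ρ : ℂ → ℂ} (hK : Collar K Φ ρ) {E : Set ℝ}
    (h : ∀ L : ℕ, ∀ η > (0 : ℝ≥0∞), ∃ N : ℕ, ∀ n ≥ N, ∀ x ∈ E, osc Φ L n x ≤ η) :
    ∃ p e : ℝ → ℂ, (∀ x ∈ E, ‖e x‖ = 1) ∧ UIsogonal Φ E p e := by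
  have hder := (inj_mod hK).2.1
  have hx : ∀ x ∈ E, ∃ p e : ℂ, ‖e‖ = 1 ∧ Isogonal Φ x p e := by
    intro x hx
    refine (isogonal_iff_osc hK x).2 (fun L => ?_)
    rw [ENNReal.tendsto_atTop_zero]
    intro ε hε
    obtain ⟨N, hN⟩ := h L ε hε
    exact ⟨N, fun n hn => hN n hn x hx⟩
  have hx' : ∀ x : ℝ, ∃ pe : ℂ × ℂ, x ∈ E → ‖pe.2‖ = 1 ∧ Isogonal Φ x pe.1 pe.2 := by
    intro x
    by_cases hxE : x ∈ E
    · obtain ⟨p, e, h1, h2⟩ := hx x hxE
      exact ⟨(p, e), fun _ => ⟨h1, h2⟩⟩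
    · exact ⟨(0, 0), fun h => absurd h hxE⟩
  choose pe hpe using hx'
  refine ⟨fun x => (pe x).1, fun x => (pe x).2, fun x hxE => (hpe x hxE).1, ?_⟩
  intro L hL η hη
  obtain ⟨L', hL'⟩ := exists_nat_gt L
  have hL'0 : 0 < L' := by exact_mod_cast hL.trans hL'
  have hη' : 0 < ENNReal.ofReal (η / 2) := by
    rw [ENNReal.ofReal_pos]
    positivity
  obtain ⟨N, hN⟩ := h L' _ hη'
  refine ⟨1 / ((N : ℝ) + 1), by positivity, fun x hxE u hu0 hu1 hu2 => ?_⟩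
  have hu : u ∈ cone x L' N := ⟨hu0, hu1, lt_of_le_of_lt hu2 (by nlinarith)⟩
  have hosc := hN N le_rfl x hxE
  obtain ⟨δ, hδ0, hδ⟩ := (hpe x hxE).2 1 one_pos (η / 2) (by positivity)
  obtain ⟨m, hm⟩ := exists_nat_one_div_lt hδ0
  have hv : d3bPt x (max m N) ∈ cone x L' N := d3b_mem x hL'0 (le_max_right _ _)
  have hvim : (d3bPt x (max m N)).im = 1 / (2 * (((max m N : ℕ) : ℝ) + 1)) := rfl
  have hvre : (d3bPt x (max m N)).re = x := rfl
  have hvδ : (d3bPt x (max m N)).im < δ := by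
    rw [hvim]
    refine lt_of_le_of_lt ?_ hm
    have h5 : (m : ℝ) ≤ ((max m N : ℕ) : ℝ) := by exact_mod_cast le_max_left m N
    refine one_div_le_one_div_of_le (by positivity) ?_
    have h6 : (0 : ℝ) ≤ ((max m N : ℕ) : ℝ) := Nat.cast_nonneg _
    linarith
  have h3 := hδ (d3bPt x (max m N)) hv.1 hvδ (by
    rw [hvre, sub_self, abs_zero, one_mul]
    exact hv.1.le)
  obtain ⟨h4, h5⟩ := d3b_le (Φ := Φ) hu hv
  have h4' := h4.trans hosc
  have h5' := h5.trans hosc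
  rw [edist_dist, ENNReal.ofReal_le_ofReal_iff (by positivity), dist_eq_norm] at h4' h5'
  refine ⟨?_, hder u hu0, ?_⟩
  · calc ‖Φ u - (pe x).1‖ ≤ ‖Φ u - Φ (d3bPt x (max m N))‖ +
          ‖Φ (d3bPt x (max m N)) - (pe x).1‖ := norm_sub_le_norm_sub_add_norm_sub _ _ _
      _ ≤ η / 2 + η / 2 := add_le_add h4' h3.1
      _ = η := by ring
  · calc ‖deriv Φ u / ‖deriv Φ u‖ - (pe x).2‖ ≤
          ‖deriv Φ u / ‖deriv Φ u‖ -
            deriv Φ (d3bPt x (max m N)) / ‖deriv Φ (d3bPt x (max m N))‖‖ +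
          ‖deriv Φ (d3bPt x (max m N)) / ‖deriv Φ (d3bPt x (max m N))‖ - (pe x).2‖ :=
          norm_sub_le_norm_sub_add_norm_sub _ _ _
      _ ≤ η / 2 + η / 2 := add_le_add h5' h3.2.2
      _ = η := by ring

end CF6

end

section

open Complex MeasureTheory Set Filter Topology Metric

open scoped ENNReal

namespace CF6

/-- one variable version -/
theorem d3f_one {U : Set ℝ} (hU : IsOpen U) {f f' : ℝ → ℂ}
    (h : ∀ a b : ℝ, a ≤ b → Icc a b ⊆ U → IntervalIntegrable f' volume a b ∧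
      f b - f a = ∫ t in a..b, f' t) (p : ℂ) :
    ∀ᵐ t : ℝ, t ∈ U → f t = p → f' t = 0 := by
  -- the derivative
  have hder : ∀ᵐ t : ℝ, t ∈ U → HasDerivAt f (f' t) t := by
    have h1 : ∀ q : ℚ × ℚ, ∀ᵐ t : ℝ, Icc (q.1 : ℝ) q.2 ⊆ U → t ∈ Ioo (q.1 : ℝ) q.2 →
        HasDerivAt f (f' t) t := by
      intro q
      by_cases hq : Icc (q.1 : ℝ) q.2 ⊆ U
      · by_cases hle : (q.1 : ℝ) ≤ q.2
        · obtain ⟨hi, -⟩ := h q.1 q.2 hle hq
          filter_upwards [hi.ae_hasDerivAt_integral] with t ht _ htI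
          have h2 := ht (by rw [uIcc_of_le hle]; exact Ioo_subset_Icc_self htI) (q.1 : ℝ)
            (by rw [uIcc_of_le hle]; exact left_mem_Icc.2 hle)
          have h3 : HasDerivAt (fun x => f q.1 + ∫ t in (q.1 : ℝ)..x, f' t) (f' t) t :=
            h2.const_add _
          refine h3.congr_of_eventuallyEq ?_
          filter_upwards [Ioo_mem_nhds htI.1 htI.2] with x hx
          have h4 := (h q.1 x hx.1.le ((Icc_subset_Icc_right hx.2.le).trans hq)).2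
          rw [← h4]
          ring
        · exact Eventually.of_forall (fun t _ ht => absurd (ht.1.trans ht.2).le hle)
      · exact Eventually.of_forall (fun t h' => absurd h' hq)
    rw [← ae_all_iff] at h1
    filter_upwards [h1] with t ht htU
    obtain ⟨ε, hε, hball⟩ := Metric.isOpen_iff.1 hU t htU
    obtain ⟨q1, hq1, hq1'⟩ := exists_rat_btwn (show t - ε < t by linarith)
    obtain ⟨q2, hq2, hq2'⟩ := exists_rat_btwn (show t < t + ε by linarith)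
    refine ht (q1, q2) ?_ ⟨hq1', hq2⟩
    intro x hx
    apply hball
    rw [Metric.mem_ball, Real.dist_eq, abs_lt]
    constructor
    · have := hx.1
      simp only at this
      linarith
    · have := hx.2
      simp only at this
      linarith
  -- isolated points
  have hiso : ∀ᵐ t : ℝ, t ∉ {x ∈ {t | t ∈ U ∧ f t = p} |
      𝓝[{t | t ∈ U ∧ f t = p} ∩ Ioi x] x = ⊥} :=
    (countable_setOfPred_isolated_right_within).ae_notMem volume
  filter_upwards [hder, hiso] with t ht hti htU htp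
  by_contra hne
  have h1 := (ht htU).eventually_ne (c := p) hne
  apply hti
  refine ⟨⟨htU, htp⟩, ?_⟩
  rw [eventually_nhdsWithin_iff] at h1
  rw [← eventually_false_iff_eq_bot]
  filter_upwards [mem_nhdsWithin_of_mem_nhds h1, self_mem_nhdsWithin] with z hz hzs
  exact hz (ne_of_gt hzs.2) hzs.1.2

/-- one direction, Fubini -/
theorem d3f_null {N : Set ℂ} (hN : MeasurableSet N) (e : ℝ × ℝ → ℂ)
    (he : MeasurePreserving e volume volume)
    (hs : ∀ᵐ y : ℝ, ∀ᵐ t : ℝ, e (y, t) ∉ N) : volume N = 0 := by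
  rw [← he.measure_preimage hN.nullMeasurableSet]
  rw [Measure.volume_eq_prod]
  rw [Measure.measure_prod_null (he.measurable hN)]
  filter_upwards [hs] with y hy
  have h1 := measure_eq_zero_iff_ae_notMem.2 (show ∀ᵐ t : ℝ, t ∉ Prod.mk y ⁻¹' (e ⁻¹' N) from hy)
  exact h1

theorem d3f_mp1 : MeasurePreserving (fun p : ℝ × ℝ => (⟨p.1, p.2⟩ : ℂ)) volume volume :=
  Complex.volume_preserving_equiv_real_prod.symm

theorem d3f_mp2 : MeasurePreserving (fun p : ℝ × ℝ => (⟨p.2, p.1⟩ : ℂ)) volume volume :=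
  d3f_mp1.comp (Measure.measurePreserving_swap (μ := volume) (ν := volume))

/-- a line version for one direction -/
theorem d3f_dir {Ω : Set ℂ} (hO : IsOpen Ω) {h hx : ℂ → ℂ} (hc : ContinuousOn h Ω)
    (mx : AEStronglyMeasurable hx (volume.restrict Ω)) (p : ℂ) (e : ℝ × ℝ → ℂ)
    (he : MeasurePreserving e volume volume) (hce : Continuous e)
    (hl : ∀ᵐ y : ℝ, ∀ a b : ℝ, a ≤ b → (∀ t ∈ Icc a b, e (y, t) ∈ Ω) →
      IntervalIntegrable (fun t => hx (e (y, t))) volume a b ∧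
      h (e (y, b)) - h (e (y, a)) = ∫ t in a..b, hx (e (y, t))) :
    ∀ᵐ z ∂(volume.restrict Ω), h z = p → hx z = 0 := by
  obtain ⟨g, hg, hgx⟩ := mx
  have hgm : Measurable g := hg.measurable
  have hΩm : MeasurableSet Ω := hO.measurableSet
  have hlev : MeasurableSet (Ω ∩ h ⁻¹' {p}) := by
    have h1 : IsOpen (Ω ∩ h ⁻¹' {p}ᶜ) := hc.isOpen_inter_preimage hO isClosed_singleton.isOpen_compl
    have h2 : Ω ∩ h ⁻¹' {p} = Ω ∩ (Ω ∩ h ⁻¹' {p}ᶜ)ᶜ := by
      ext z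
      simp only [mem_inter_iff, mem_preimage, mem_singleton_iff, mem_compl_iff]
      tauto
    rw [h2]
    exact hΩm.inter h1.measurableSet.compl
  have hNm : MeasurableSet ((Ω ∩ h ⁻¹' {p}) ∩ g ⁻¹' {0}ᶜ) :=
    hlev.inter (hgm (measurableSet_singleton 0).compl)
  -- transfer of the a.e. equality to the lines
  have hgl : ∀ᵐ y : ℝ, ∀ᵐ t : ℝ, e (y, t) ∈ Ω → hx (e (y, t)) = g (e (y, t)) := by
    have h1 : ∀ᵐ z : ℂ, z ∈ Ω → hx z = g z := (ae_restrict_iff' hΩm).1 hgx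
    have h2 : ∀ᵐ q : ℝ × ℝ, e q ∈ Ω → hx (e q) = g (e q) := he.quasiMeasurePreserving.ae h1
    rw [Measure.volume_eq_prod] at h2
    exact Measure.ae_ae_of_ae_prod h2
  have hnull : volume ((Ω ∩ h ⁻¹' {p}) ∩ g ⁻¹' {0}ᶜ) = 0 := by
    refine d3f_null hNm e he ?_
    filter_upwards [hl, hgl] with y hy hgy
    have hcy : Continuous (fun t : ℝ => e (y, t)) := hce.comp (by fun_prop)
    have hU : IsOpen {t : ℝ | e (y, t) ∈ Ω} := hO.preimage hcy
    have h1 := d3f_one hU (f := fun t => h (e (y, t))) (f' := fun t => hx (e (y, t)))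
      (fun a b hab hs => hy a b hab hs) p
    filter_upwards [h1, hgy] with t ht hgt
    rintro ⟨⟨hz, hzp⟩, hz0⟩
    apply hz0
    have h2 := ht hz hzp
    show g (e (y, t)) = 0
    rw [← hgt hz]
    exact h2
  have h3 := measure_eq_zero_iff_ae_notMem.1 hnull
  filter_upwards [ae_restrict_of_ae h3, hgx, ae_restrict_mem hΩm] with z hz hzg hzΩ hzp
  by_contra hne
  apply hz
  refine ⟨⟨hzΩ, hzp⟩, ?_⟩
  show g z ∉ ({0} : Set ℂ)
  rw [← hzg]
  exact hne

/-- D3.6 (about 80 lines) the derivatives vanish almost everywhere on a level set. -/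
theorem deriv_zero_on_level {Ω : Set ℂ} (hO : IsOpen Ω) {h hx hy : ℂ → ℂ} (ha : ACL2 Ω h hx hy)
    (p : ℂ) : ∀ᵐ z ∂(volume.restrict Ω), h z = p → hx z = 0 ∧ hy z = 0 := by
  have h1 := d3f_dir hO ha.cont ha.mx p (fun q : ℝ × ℝ => (⟨q.2, q.1⟩ : ℂ)) d3f_mp2
    (by
      have : (fun q : ℝ × ℝ => (⟨q.2, q.1⟩ : ℂ)) = fun q : ℝ × ℝ => (q.2 : ℂ) + q.1 * I := by
        funext q
        apply Complex.ext <;> simp
      rw [this]
      fun_prop) ha.hor
  have h2 := d3f_dir hO ha.cont ha.my p (fun q : ℝ × ℝ => (⟨q.1, q.2⟩ : ℂ)) d3f_mp1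
    (by
      have : (fun q : ℝ × ℝ => (⟨q.1, q.2⟩ : ℂ)) = fun q : ℝ × ℝ => (q.1 : ℂ) + q.2 * I := by
        funext q
        apply Complex.ext <;> simp
      rw [this]
      fun_prop) ha.ver
  filter_upwards [h1, h2] with z hz1 hz2 hzp
  exact ⟨hz1 hzp, hz2 hzp⟩

end CF6

end

section

open Complex MeasureTheory Set Filter Topology Metric

open scoped ENNReal

namespace CF6

theorem d3g_periodic {K : Set ℂ} {Φ ρ : ℂ → ℂ} (hK : Collar K Φ ρ) {u : ℂ} (hu : u ∈ UHP) :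
    Φ (u + (2 * Real.pi : ℝ)) = Φ u := by
  have hu' : u + (2 * Real.pi : ℝ) ∈ UHP := by
    have h1 : 0 < u.im := hu
    show 0 < (u + ((2 * Real.pi : ℝ) : ℂ)).im
    rw [Complex.add_im, Complex.ofReal_im, add_zero]
    exact h1
  refine hK.inj (hK.mem _ hu') (hK.mem _ hu) ?_
  rw [hK.left _ hu', hK.left _ hu]
  have h2 : I * (u + (2 * Real.pi : ℝ)) = I * u + 2 * Real.pi * I := by
    push_cast
    ring
  rw [h2]
  exact Complex.exp_periodic _

theorem d3g_mem {u : ℂ} (hu : u ∈ UHP) (c : ℝ) : u + (c : ℂ) ∈ UHP := by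
  have h1 : 0 < u.im := hu
  show 0 < (u + (c : ℂ)).im
  rw [Complex.add_im, Complex.ofReal_im, add_zero]
  exact h1

theorem d3g_deriv {Φ : ℂ → ℂ} {c : ℝ} (hc : ∀ u ∈ UHP, Φ (u + (c : ℂ)) = Φ u) {u : ℂ}
    (hu : u ∈ UHP) : deriv Φ (u + (c : ℂ)) = deriv Φ u := by
  have hopen : IsOpen UHP := isOpen_lt continuous_const Complex.continuous_im
  have h1 : (fun v => Φ (v + (c : ℂ))) =ᶠ[𝓝 u] Φ := by
    filter_upwards [hopen.mem_nhds hu] with v hv
    exact hc v hv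
  have h2 := h1.deriv_eq
  rwa [deriv_comp_add_const] at h2

theorem d3g_osc_le {Φ : ℂ → ℂ} {c : ℝ} (hc : ∀ u ∈ UHP, Φ (u + (c : ℂ)) = Φ u) (L n : ℕ) (x : ℝ) :
    osc Φ L n (x + c) ≤ osc Φ L n x := by
  have hsub : ∀ u ∈ cone (x + c) L n, u + ((-c : ℝ) : ℂ) ∈ cone x L n := by
    rintro u ⟨h1, h2, h3⟩
    refine ⟨?_, ?_, ?_⟩
    · rw [Complex.add_im, Complex.ofReal_im, add_zero]
      exact h1
    · rw [Complex.add_im, Complex.ofReal_im, add_zero]
      exact h2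
    · rw [Complex.add_im, Complex.ofReal_im, add_zero, Complex.add_re, Complex.ofReal_re]
      have h4 : u.re + -c - x = u.re - (x + c) := by ring
      rw [h4]
      exact h3
  have hval : ∀ u ∈ cone (x + c) L n, Φ (u + ((-c : ℝ) : ℂ)) = Φ u ∧
      deriv Φ (u + ((-c : ℝ) : ℂ)) = deriv Φ u := by
    rintro u ⟨h1, -, -⟩
    have hu : u ∈ UHP := h1
    have hu' : u + ((-c : ℝ) : ℂ) ∈ UHP := d3g_mem hu (-c)
    have h2 := hc _ hu'
    have h3 := d3g_deriv hc hu'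
    have h4 : u + ((-c : ℝ) : ℂ) + (c : ℂ) = u := by
      push_cast
      ring
    rw [h4] at h2 h3
    exact ⟨h2.symm, h3.symm⟩
  refine iSup₂_le (fun u hu => iSup₂_le (fun u' hu' => ?_))
  obtain ⟨e1, e2⟩ := hval u hu
  obtain ⟨e3, e4⟩ := hval u' hu'
  refine le_iSup₂_of_le (u + ((-c : ℝ) : ℂ)) (hsub u hu)
    (le_iSup₂_of_le (u' + ((-c : ℝ) : ℂ)) (hsub u' hu') ?_)
  rw [e1, e2, e3, e4]

theorem d3g_osc_periodic {K : Set ℂ} {Φ ρ : ℂ → ℂ} (hK : Collar K Φ ρ) (L n : ℕ) :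
    Function.Periodic (osc Φ L n) (2 * Real.pi) := by
  intro x
  refine le_antisymm (d3g_osc_le (fun u hu => d3g_periodic hK hu) L n x) ?_
  have hc : ∀ u ∈ UHP, Φ (u + ((-(2 * Real.pi) : ℝ) : ℂ)) = Φ u := by
    intro u hu
    have h1 := d3g_periodic hK (d3g_mem hu (-(2 * Real.pi)))
    have h2 : u + ((-(2 * Real.pi) : ℝ) : ℂ) + ((2 * Real.pi : ℝ) : ℂ) = u := by
      push_cast
      ring
    rw [h2] at h1
    exact h1.symm
  have h3 := d3g_osc_le hc L n (x + 2 * Real.pi)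
  have h4 : x + 2 * Real.pi + -(2 * Real.pi) = x := by ring
  rwa [h4] at h3

theorem d3g_osc_anti (Φ : ℂ → ℂ) (L : ℕ) (x : ℝ) : Antitone (fun n => osc Φ L n x) := by
  intro n m hnm
  have hsub : cone x L m ⊆ cone x L n := by
    rintro u ⟨h1, h2, h3⟩
    refine ⟨h1, h2.trans_le ?_, h3⟩
    have h4 : (n : ℝ) + 1 ≤ m + 1 := by exact_mod_cast Nat.succ_le_succ hnm
    exact one_div_le_one_div_of_le (by positivity) h4
  exact iSup₂_le (fun u hu => iSup₂_le (fun u' hu' =>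
    le_iSup₂_of_le u (hsub hu) (le_iSup₂_of_le u' (hsub hu') le_rfl)))

/-- D3.7 (about 150 lines) Egorov on the circle. `μ` finite measure on `[0,2π)`, no atoms, a.e. point is isogonal: there is a closed `2π`-periodic
set `E` with empty interior, uniformly isogonal, `μ` small off `E`. (Egorov for every `L`, inner regularity, remove small neighbourhoods
of the rational points.) -/
theorem egorov_circle {K : Set ℂ} {Φ ρ : ℂ → ℂ} (hK : Collar K Φ ρ) (μ : Measure ℝ)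
    [IsFiniteMeasure μ] (hat : ∀ x, μ {x} = 0) (hs : μ (Ico 0 (2 * Real.pi))ᶜ = 0)
    (hiso : ∀ᵐ x ∂μ, ∃ p e : ℂ, ‖e‖ = 1 ∧ Isogonal Φ x p e) (ε : ℝ) (hε : 0 < ε) :
    ∃ (E : Set ℝ) (p e : ℝ → ℂ), IsClosed E ∧ interior E = ∅ ∧
      (∀ x, x ∈ E ↔ x + 2 * Real.pi ∈ E) ∧ (∀ x ∈ E, ‖e x‖ = 1) ∧ UIsogonal Φ E p e ∧
      μ Eᶜ ≤ ENNReal.ofReal ε := by
  have hε4 : ENNReal.ofReal ε / 4 ≠ 0 := by
    refine (ENNReal.div_pos (by simpa using hε) (by norm_num)).ne'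
  obtain ⟨δ, hδpos, hδsum⟩ := ENNReal.exists_pos_sum_of_countable hε4 (ℕ × ℕ)
  let η : ℕ → ℝ≥0∞ := fun k => ((k : ℝ≥0∞) + 1)⁻¹
  have hηpos : ∀ k, 0 < η k := fun k => ENNReal.inv_pos.2 (by finiteness)
  -- the bad sets
  have hbad : ∀ q : ℕ × ℕ, ∃ N : ℕ, μ {x | η q.2 < osc Φ q.1 N x} ≤ δ q := by
    intro q
    have hm : ∀ N, MeasurableSet {x | η q.2 < osc Φ q.1 N x} := fun N =>
      measurableSet_lt measurable_const (measurable_osc Φ q.1 N)
    have hanti : Antitone (fun N => {x | η q.2 < osc Φ q.1 N x}) := by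
      intro n m hnm x hx
      exact lt_of_lt_of_le (show η q.2 < osc Φ q.1 m x from hx) (d3g_osc_anti Φ q.1 x hnm)
    have h0 : μ (⋂ N, {x | η q.2 < osc Φ q.1 N x}) = 0 := by
      have h1 : ∀ᵐ x ∂μ, x ∉ ⋂ N, {x | η q.2 < osc Φ q.1 N x} := by
        filter_upwards [hiso] with x hx hmem
        have h2 := (isogonal_iff_osc hK x).1 hx q.1
        obtain ⟨N, hN⟩ := (h2.eventually (gt_mem_nhds (hηpos q.2))).exists
        exact absurd (Set.mem_iInter.1 hmem N) (not_lt.2 hN.le)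
      exact measure_eq_zero_iff_ae_notMem.2 h1
    have hlim := tendsto_measure_iInter_atTop (μ := μ)
      (fun N => (hm N).nullMeasurableSet) hanti ⟨0, measure_ne_top _ _⟩
    rw [h0] at hlim
    have hδq : (0 : ℝ≥0∞) < δ q := by exact_mod_cast hδpos q
    obtain ⟨N, hN⟩ := (hlim.eventually (gt_mem_nhds hδq)).exists
    exact ⟨N, hN.le⟩
  choose N hN using hbad
  let G : Set ℝ := {x | ∀ q : ℕ × ℕ, osc Φ q.1 (N q) x ≤ η q.2}
  have hGm : MeasurableSet G := by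
    have h1 : G = ⋂ q : ℕ × ℕ, {x | osc Φ q.1 (N q) x ≤ η q.2} := by
      ext x
      simp only [G, Set.mem_ofPred_eq, Set.mem_iInter]
    rw [h1]
    exact MeasurableSet.iInter (fun q =>
      measurableSet_le (measurable_osc Φ q.1 (N q)) measurable_const)
  have hGc : μ Gᶜ ≤ ENNReal.ofReal ε / 4 := by
    have h1 : Gᶜ ⊆ ⋃ q : ℕ × ℕ, {x | η q.2 < osc Φ q.1 (N q) x} := by
      intro x hx
      by_contra hcon
      apply hx
      intro q
      by_contra h2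
      exact hcon (Set.mem_iUnion.2 ⟨q, not_le.1 h2⟩)
    calc μ Gᶜ ≤ μ (⋃ q : ℕ × ℕ, {x | η q.2 < osc Φ q.1 (N q) x}) := measure_mono h1
      _ ≤ ∑' q : ℕ × ℕ, μ {x | η q.2 < osc Φ q.1 (N q) x} := measure_iUnion_le _
      _ ≤ ∑' q : ℕ × ℕ, (δ q : ℝ≥0∞) := ENNReal.tsum_le_tsum hN
      _ ≤ ENNReal.ofReal ε / 4 := hδsum.le
  have hGper : ∀ (x : ℝ) (k : ℤ), x ∈ G → x + k • (2 * Real.pi) ∈ G := by
    intro x k hx q
    have h1 := (d3g_osc_periodic hK q.1 (N q)).zsmul k x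
    show osc Φ q.1 (N q) (x + k • (2 * Real.pi)) ≤ η q.2
    rw [h1]
    exact hx q
  -- the rational points and their translates
  let A : Set ℝ := Set.range (fun r : ℚ × ℤ => (r.1 : ℝ) + r.2 • (2 * Real.pi))
  have hA0 : μ A = 0 := by
    have hc : A.Countable := Set.countable_range _
    have : NullSingletonClass μ := ⟨hat⟩
    exact hc.measure_zero μ
  obtain ⟨V, hAV, hVo, hVμ⟩ := A.exists_isOpen_lt_of_lt (μ := μ) (ENNReal.ofReal ε / 4)
    (by rw [hA0]; exact pos_iff_ne_zero.2 hε4)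
  -- the compact set
  have hGI : MeasurableSet (G ∩ Ico 0 (2 * Real.pi)) := hGm.inter measurableSet_Ico
  obtain ⟨F, hFG, hFc, hFμ⟩ := hGI.exists_isCompact_sdiff_lt (μ := μ) (measure_ne_top _ _) hε4
  have hF'c : IsCompact (F \ V) := hFc.diff hVo
  let E : Set ℝ := (fun x : ℝ => (x : AddCircle (2 * Real.pi))) ⁻¹'
    ((fun x : ℝ => (x : AddCircle (2 * Real.pi))) '' (F \ V))
  have hcont : Continuous (fun x : ℝ => (x : AddCircle (2 * Real.pi))) :=
    AddCircle.continuous_mk' _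
  have hEclosed : IsClosed E := (hF'c.image hcont).isClosed.preimage hcont
  have hEmem : ∀ x ∈ E, ∃ y ∈ F \ V, ∃ k : ℤ, x = y + k • (2 * Real.pi) := by
    intro x hx
    obtain ⟨y, hy, hyx⟩ := hx
    have h1 : ((x - y : ℝ) : AddCircle (2 * Real.pi)) = 0 := by
      rw [AddCircle.coe_sub]
      exact sub_eq_zero.2 hyx.symm
    obtain ⟨k, hk⟩ := AddCircle.coe_eq_zero_iff (2 * Real.pi) |>.1 h1
    exact ⟨y, hy, k, by rw [hk]; ring⟩
  have hEG : E ⊆ G := by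
    intro x hx
    obtain ⟨y, hy, k, rfl⟩ := hEmem x hx
    exact hGper y k (hFG hy.1).1
  have hEint : interior E = ∅ := by
    by_contra hne
    obtain ⟨z, hz⟩ := Set.nonempty_iff_ne_empty.2 hne
    obtain ⟨r, hr⟩ := Rat.denseRange_cast.exists_mem_open isOpen_interior ⟨z, hz⟩
    obtain ⟨y, hy, k, hyk⟩ := hEmem (r : ℝ) (interior_subset hr)
    apply hy.2
    apply hAV
    refine ⟨(r, -k), ?_⟩
    show (r : ℝ) + (-k) • (2 * Real.pi) = y
    rw [hyk, neg_smul]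
    ring
  have hosc : ∀ L : ℕ, ∀ η' > (0 : ℝ≥0∞), ∃ N : ℕ, ∀ n ≥ N, ∀ x ∈ E, osc Φ L n x ≤ η' := by
    intro L η' hη'
    obtain ⟨k, hk⟩ := ENNReal.exists_inv_nat_lt hη'.ne'
    refine ⟨N (L, k), fun n hn x hx => ?_⟩
    calc osc Φ L n x ≤ osc Φ L (N (L, k)) x := d3g_osc_anti Φ L x hn
      _ ≤ η k := hEG hx (L, k)
      _ ≤ ((k : ℝ≥0∞))⁻¹ := ENNReal.inv_le_inv.2 le_self_add
      _ ≤ η' := hk.le
  obtain ⟨p, e, he, hue⟩ := uisogonal_of_osc hK hosc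
  refine ⟨E, p, e, hEclosed, hEint, ?_, he, hue, ?_⟩
  · intro x
    simp only [E, Set.mem_preimage, AddCircle.coe_add_period]
  · have hsub : Eᶜ ⊆ ((Ico 0 (2 * Real.pi))ᶜ ∪ Gᶜ) ∪ (((G ∩ Ico 0 (2 * Real.pi)) \ F) ∪ V) := by
      intro x hx
      by_cases h1 : x ∈ Ico 0 (2 * Real.pi)
      · by_cases h2 : x ∈ G
        · by_cases h3 : x ∈ F
          · by_cases h4 : x ∈ V
            · exact Or.inr (Or.inr h4)
            · exact absurd (show x ∈ E from ⟨x, ⟨h3, h4⟩, rfl⟩) hx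
          · exact Or.inr (Or.inl ⟨⟨h2, h1⟩, h3⟩)
        · exact Or.inl (Or.inr h2)
      · exact Or.inl (Or.inl h1)
    calc μ Eᶜ ≤ μ (((Ico 0 (2 * Real.pi))ᶜ ∪ Gᶜ) ∪ (((G ∩ Ico 0 (2 * Real.pi)) \ F) ∪ V)) :=
          measure_mono hsub
      _ ≤ (μ (Ico 0 (2 * Real.pi))ᶜ + μ Gᶜ) + (μ ((G ∩ Ico 0 (2 * Real.pi)) \ F) + μ V) :=
          (measure_union_le _ _).trans (add_le_add (measure_union_le _ _) (measure_union_le _ _))
      _ ≤ (0 + ENNReal.ofReal ε / 4) + (ENNReal.ofReal ε / 4 + ENNReal.ofReal ε / 4) := by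
          rw [hs]
          exact add_le_add (add_le_add le_rfl hGc) (add_le_add hFμ.le hVμ.le)
      _ ≤ (ENNReal.ofReal ε / 4 + ENNReal.ofReal ε / 4) +
          (ENNReal.ofReal ε / 4 + ENNReal.ofReal ε / 4) :=
          add_le_add (add_le_add bot_le le_rfl) le_rfl
      _ = ENNReal.ofReal ε := by
          have h5 : ENNReal.ofReal ε = ENNReal.ofReal ε / 4 * 4 := by
            rw [ENNReal.div_mul_cancel (by norm_num) (by norm_num)]
          conv_rhs => rw [h5]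
          ring

end CF6

end
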