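import Pool.Agent.Lib.MP_cf6b16_an.DE1
import Pool.Agent.Lib.MP_cf6b16_an.DE2
import Pool.Agent.Lib.MP_cf6b16_an.DE3

section

open Complex MeasureTheory Set Filter Topology Metric

namespace CF6

theorem d1e_det (c : ℂ) :
    |((ContinuousLinearMap.toSpanSingleton ℂ c).restrictScalars ℝ : ℂ →L[ℝ] ℂ).det| = ‖c‖ ^ 2 := by
  have h1 : (((ContinuousLinearMap.toSpanSingleton ℂ c).restrictScalars ℝ : ℂ →L[ℝ] ℂ) :
      ℂ →ₗ[ℝ] ℂ) = Algebra.lmul ℝ ℂ c := by
    ext <;> simp [mul_comm]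
  have h2 : ((ContinuousLinearMap.toSpanSingleton ℂ c).restrictScalars ℝ : ℂ →L[ℝ] ℂ).det =
      normSq c := by
    rw [ContinuousLinearMap.det, h1, ← Algebra.norm_apply, Algebra.norm_complex_apply]
  rw [h2, abs_of_nonneg (normSq_nonneg _), normSq_eq_norm_sq]

theorem d1e_fubini (F : ℂ → ENNReal) (hF : Measurable F) (s1 : ℝ) :
    ∫⁻ ζ in {ζ : ℂ | ζ.re < s1 ∧ 0 < ζ.im ∧ ζ.im < Real.pi}, F ζ =
      ∫⁻ s in Iio s1, ∫⁻ θ in Ioo 0 Real.pi, F (s + θ * I) := by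
  have hmp := Complex.volume_preserving_equiv_real_prod.symm
  have h1 := hmp.setLIntegral_comp_preimage_emb (MeasurableEquiv.measurableEmbedding _) F
    {ζ : ℂ | ζ.re < s1 ∧ 0 < ζ.im ∧ ζ.im < Real.pi}
  have h2 : (Complex.measurableEquivRealProd.symm ⁻¹'
      {ζ : ℂ | ζ.re < s1 ∧ 0 < ζ.im ∧ ζ.im < Real.pi}) = Iio s1 ×ˢ Ioo 0 Real.pi := by
    ext ⟨a, b⟩
    rfl
  rw [← h1, h2, Measure.volume_eq_prod, ← Measure.prod_restrict, lintegral_prod]
  · refine lintegral_congr fun s => lintegral_congr fun θ => ?_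
    congr 1
    apply Complex.ext <;> simp [Complex.measurableEquivRealProd]
  · exact (hF.comp (MeasurableEquiv.measurable _)).aemeasurable

theorem d1e_small {G : ℝ → ENNReal} {s1 : ℝ} (hG : ∫⁻ s in Iio s1, G s < ⊤) {ε : ENNReal}
    (hε : ε ≠ 0) : ∃ s, s < s1 ∧ G s ≤ ε := by
  by_contra hcon
  push Not at hcon
  have h1 : ∫⁻ _ in Iio s1, ε ≤ ∫⁻ s in Iio s1, G s :=
    setLIntegral_mono' measurableSet_Iio fun s hs => (hcon s hs).le
  rw [setLIntegral_const, Real.volume_Iio, ENNReal.mul_top hε] at h1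
  exact absurd hG (not_lt.mpr h1)

theorem d1e_arc {D Ψ : ℂ → ℂ} {s δ θ θ' : ℝ} (hδ : 0 < δ)
    (hd : ∀ t ∈ Ioo (0 : ℝ) Real.pi, HasDerivAt Ψ (D (s + t * I)) (s + t * I))
    (hc : ContinuousOn (fun t : ℝ => D (s + t * I)) (Ioo 0 Real.pi))
    (hG : ∫⁻ t in Ioo 0 Real.pi, ENNReal.ofReal (‖D (s + t * I)‖ ^ 2) ≤
      ENNReal.ofReal (δ ^ 2 / Real.pi))
    (hθ : θ ∈ Ioo (0 : ℝ) Real.pi) (hθ' : θ' ∈ Ioo (0 : ℝ) Real.pi) (hle : θ ≤ θ') :
    ‖Ψ (s + θ' * I) - Ψ (s + θ * I)‖ ≤ δ := by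
  have hπ := Real.pi_pos
  have hsub : uIcc θ θ' ⊆ Ioo 0 Real.pi := by
    rw [uIcc_of_le hle]
    exact fun t ht => ⟨lt_of_lt_of_le hθ.1 ht.1, lt_of_le_of_lt ht.2 hθ'.2⟩
  have hc' : ContinuousOn (fun t : ℝ => D (s + t * I)) (uIcc θ θ') := hc.mono hsub
  have hline : ∀ t : ℝ, HasDerivAt (fun t : ℝ => (s : ℂ) + t * I) I t := by
    intro t
    have := ((Complex.ofRealCLM.hasDerivAt (x := t)).mul_const I).const_add (s : ℂ)
    simpa using this
  have h1 : ∫ t in θ..θ', D (s + t * I) * I = Ψ (s + θ' * I) - Ψ (s + θ * I) := by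
    refine intervalIntegral.integral_eq_sub_of_hasDerivAt
      (f := fun t : ℝ => Ψ (s + t * I)) ?_ (hc'.mul continuousOn_const).intervalIntegrable
    intro t ht
    exact (hd t (hsub ht)).comp t (hline t)
  rw [← h1]
  have h2 : ‖∫ t in θ..θ', D (s + t * I) * I‖ ≤ ∫ t in θ..θ', ‖D (s + t * I)‖ := by
    refine (intervalIntegral.norm_integral_le_integral_norm hle).trans (le_of_eq ?_)
    refine intervalIntegral.integral_congr fun t _ => ?_
    show ‖D (s + t * I) * I‖ = ‖D (s + t * I)‖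
    rw [norm_mul, Complex.norm_I, mul_one]
  have hi2 : IntervalIntegrable (fun t : ℝ => ‖D (s + t * I)‖ ^ 2) volume θ θ' :=
    (hc'.norm.pow 2).intervalIntegrable
  have h3 : ∫ t in θ..θ', ‖D (s + t * I)‖ ≤
      ∫ t in θ..θ', (Real.pi / (2 * δ) * ‖D (s + t * I)‖ ^ 2 + δ / (2 * Real.pi)) := by
    refine intervalIntegral.integral_mono_on hle hc'.norm.intervalIntegrable
      ((hi2.const_mul _).add intervalIntegrable_const) fun t _ => ?_
    have h4 : Real.pi / (2 * δ) * ‖D (s + t * I)‖ ^ 2 + δ / (2 * Real.pi) - ‖D (s + t * I)‖ =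
        (Real.pi * ‖D (s + t * I)‖ - δ) ^ 2 / (2 * δ * Real.pi) := by
      field_simp
      ring
    have h5 : 0 ≤ (Real.pi * ‖D (s + t * I)‖ - δ) ^ 2 / (2 * δ * Real.pi) := by positivity
    linarith
  have h4 : ∫ t in θ..θ', (Real.pi / (2 * δ) * ‖D (s + t * I)‖ ^ 2 + δ / (2 * Real.pi)) =
      Real.pi / (2 * δ) * (∫ t in θ..θ', ‖D (s + t * I)‖ ^ 2) +
        (θ' - θ) * (δ / (2 * Real.pi)) := by
    rw [intervalIntegral.integral_add (hi2.const_mul _) intervalIntegrable_const,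
      intervalIntegral.integral_const_mul, intervalIntegral.integral_const, smul_eq_mul]
  have h5 : ∫ t in θ..θ', ‖D (s + t * I)‖ ^ 2 ≤ δ ^ 2 / Real.pi := by
    rw [intervalIntegral.integral_of_le hle]
    have h6 : ENNReal.ofReal (∫ t in Ioc θ θ', ‖D (s + t * I)‖ ^ 2) =
        ∫⁻ t in Ioc θ θ', ENNReal.ofReal (‖D (s + t * I)‖ ^ 2) := by
      refine ofReal_integral_eq_lintegral_ofReal ?_ (Eventually.of_forall fun t => by positivity)
      exact (intervalIntegrable_iff_integrableOn_Ioc_of_le hle).mp hi2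
    have h7 : ∫⁻ t in Ioc θ θ', ENNReal.ofReal (‖D (s + t * I)‖ ^ 2) ≤
        ∫⁻ t in Ioo 0 Real.pi, ENNReal.ofReal (‖D (s + t * I)‖ ^ 2) :=
      lintegral_mono_set fun t ht => ⟨lt_trans hθ.1 ht.1, lt_of_le_of_lt ht.2 hθ'.2⟩
    rw [← h6] at h7
    exact (ENNReal.ofReal_le_ofReal_iff (by positivity)).mp (h7.trans hG)
  have h6 : Real.pi / (2 * δ) * (∫ t in θ..θ', ‖D (s + t * I)‖ ^ 2) ≤ δ / 2 := by
    calc Real.pi / (2 * δ) * (∫ t in θ..θ', ‖D (s + t * I)‖ ^ 2)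
        ≤ Real.pi / (2 * δ) * (δ ^ 2 / Real.pi) := mul_le_mul_of_nonneg_left h5 (by positivity)
      _ = δ / 2 := by field_simp
  have h7 : (θ' - θ) * (δ / (2 * Real.pi)) ≤ δ / 2 := by
    calc (θ' - θ) * (δ / (2 * Real.pi)) ≤ Real.pi * (δ / (2 * Real.pi)) :=
          mul_le_mul_of_nonneg_right (by linarith [hθ.1, hθ'.2]) (by positivity)
      _ = δ / 2 := by field_simp
  linarith

theorem d1e_log {v : ℂ} (hv : 0 < v.im) :
    exp (log v) = v ∧ (log v).re = Real.log ‖v‖ ∧ 0 < (log v).im ∧ (log v).im < Real.pi := by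
  have hv0 : v ≠ 0 := by
    rintro rfl
    simp at hv
  refine ⟨exp_log hv0, Complex.log_re v, ?_, ?_⟩
  · rw [Complex.log_im]
    refine lt_of_le_of_ne (Complex.arg_nonneg_iff.mpr hv.le) fun h => ?_
    exact hv.ne' (Complex.arg_eq_zero_iff.mp h.symm).2
  · rw [Complex.log_im, Complex.arg_lt_pi_iff]
    exact Or.inr hv.ne'

/-- D1.5 (about 150 lines), Courant-Lebesgue: `Φ` is injective on the half disc of radius `< π` (`Collar.left`), so
`∫∫ |Φ'|² = area < ∞`; polar coordinates; Cauchy-Schwarz. -/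
theorem short_semicircle {K : Set ℂ} {Φ ρ : ℂ → ℂ} (hK : Collar K Φ ρ) (hA : FinArea Φ) (x : ℝ)
    (δ r0 : ℝ) (hδ : 0 < δ) (hr0 : 0 < r0) :
    ∃ r : ℝ, 0 < r ∧ r < r0 ∧ ∀ u u' : ℂ, 0 < u.im → 0 < u'.im → ‖u - x‖ = r → ‖u' - x‖ = r →
      ‖Φ u - Φ u'‖ ≤ δ := by
  obtain ⟨y, hy, hvol⟩ := hA
  obtain ⟨r1, hr1⟩ : ∃ r1 : ℝ, r1 = min r0 (min y 1) := ⟨_, rfl⟩
  have hr1p : 0 < r1 := by rw [hr1]; exact lt_min hr0 (lt_min hy one_pos)
  have hr1r : r1 ≤ r0 := by rw [hr1]; exact min_le_left _ _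
  have hr1y : r1 ≤ y := by rw [hr1]; exact (min_le_right _ _).trans (min_le_left _ _)
  have hr11 : r1 ≤ 1 := by rw [hr1]; exact (min_le_right _ _).trans (min_le_right _ _)
  obtain ⟨inj1, -, -⟩ := inj_mod hK
  obtain ⟨S, hS⟩ : ∃ S : Set ℂ, S = {ζ : ℂ | ζ.re < Real.log r1 ∧ 0 < ζ.im ∧
    ζ.im < Real.pi} := ⟨_, rfl⟩
  have hSmem : ∀ ζ, ζ ∈ S ↔ ζ.re < Real.log r1 ∧ 0 < ζ.im ∧ ζ.im < Real.pi := by
    intro ζ
    rw [hS]
    rfl
  have hSo : IsOpen S := by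
    rw [hS]
    exact (isOpen_lt Complex.continuous_re continuous_const).inter
      ((isOpen_lt continuous_const Complex.continuous_im).inter
        (isOpen_lt Complex.continuous_im continuous_const))
  have hUo : IsOpen UHP := isOpen_lt continuous_const Complex.continuous_im
  have hpt : ∀ ζ ∈ S, 0 < (x + exp ζ : ℂ).im ∧ ‖exp ζ‖ < r1 := by
    intro ζ hζ
    obtain ⟨h1, h2, h3⟩ := (hSmem ζ).mp hζ
    constructor
    · rw [Complex.add_im, Complex.ofReal_im, zero_add, Complex.exp_im]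
      exact mul_pos (Real.exp_pos _) (Real.sin_pos_of_pos_of_lt_pi h2 h3)
    · rw [Complex.norm_exp]
      rwa [Real.lt_log_iff_exp_lt hr1p] at h1
  obtain ⟨Ψ, hΨ⟩ : ∃ Ψ : ℂ → ℂ, Ψ = fun ζ => Φ (x + exp ζ) := ⟨_, rfl⟩
  have hΨd : DifferentiableOn ℂ Ψ S := by
    rw [hΨ]
    intro ζ hζ
    have h1 : DifferentiableAt ℂ Φ (x + exp ζ) :=
      hK.dPhi.differentiableAt (hUo.mem_nhds (hpt ζ hζ).1)
    have h2 : DifferentiableAt ℂ (fun ζ : ℂ => (x : ℂ) + exp ζ) ζ := by fun_prop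
    exact (h1.comp ζ h2).differentiableWithinAt
  have hΨi : InjOn Ψ S := by
    intro ζ hζ ζ' hζ' h
    rw [hΨ] at h
    obtain ⟨a1, a2⟩ := hpt ζ hζ
    obtain ⟨b1, b2⟩ := hpt ζ' hζ'
    obtain ⟨n, hn⟩ := inj1 _ a1 _ b1 h
    have h1 : exp ζ' - exp ζ = 2 * Real.pi * n := by linear_combination hn
    have h2 : ‖exp ζ' - exp ζ‖ < 2 := by
      refine lt_of_le_of_lt (norm_sub_le _ _) ?_
      linarith
    have hn0 : n = 0 := by
      by_contra hne
      rw [h1] at h2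
      have h3 : ‖(2 * Real.pi * n : ℂ)‖ = 2 * Real.pi * |(n : ℝ)| := by
        rw [norm_mul, norm_mul, Complex.norm_ofNat, Complex.norm_real, Real.norm_eq_abs,
          abs_of_pos Real.pi_pos, Complex.norm_intCast]
      rw [h3] at h2
      have h4 : (1 : ℝ) ≤ |(n : ℝ)| := by exact_mod_cast Int.one_le_abs hne
      have h5 := Real.pi_gt_three
      nlinarith
    rw [hn0, Int.cast_zero, mul_zero, sub_eq_zero] at h1
    obtain ⟨_, c2, c3⟩ := (hSmem ζ).mp hζ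
    obtain ⟨_, d2, d3⟩ := (hSmem ζ').mp hζ'
    exact Complex.exp_inj_of_neg_pi_lt_of_le_pi (by linarith [Real.pi_pos]) c3.le
      (by linarith [Real.pi_pos]) d3.le h1.symm
  have hΨD : ∀ ζ ∈ S, HasDerivAt Ψ (deriv Ψ ζ) ζ := fun ζ hζ =>
    (hΨd.differentiableAt (hSo.mem_nhds hζ)).hasDerivAt
  have harea : ∫⁻ ζ in S, ENNReal.ofReal (‖deriv Ψ ζ‖ ^ 2) = volume (Ψ '' S) := by
    rw [← lintegral_abs_det_fderiv_eq_addHaar_image volume hSo.measurableSet
      (f' := fun ζ => (ContinuousLinearMap.toSpanSingleton ℂ (deriv Ψ ζ)).restrictScalars ℝ)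
      (fun ζ hζ => ((hΨD ζ hζ).hasFDerivAt.restrictScalars ℝ).hasFDerivWithinAt) hΨi]
    refine lintegral_congr fun ζ => ?_
    rw [d1e_det]
  have hfin : ∫⁻ ζ in S, ENNReal.ofReal (‖deriv Ψ ζ‖ ^ 2) < ⊤ := by
    rw [harea]
    refine lt_of_le_of_lt (measure_mono ?_) hvol
    rintro _ ⟨ζ, hζ, rfl⟩
    rw [hΨ]
    obtain ⟨a1, a2⟩ := hpt ζ hζ
    refine mem_image_of_mem Φ ⟨a1, ?_⟩
    rw [Complex.add_im, Complex.ofReal_im, zero_add]
    exact lt_of_le_of_lt ((le_abs_self _).trans (Complex.abs_im_le_norm _))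
      (lt_of_lt_of_le a2 hr1y)
  have hmeas : Measurable (fun ζ : ℂ => ENNReal.ofReal (‖deriv Ψ ζ‖ ^ 2)) :=
    ((measurable_deriv Ψ).norm.pow_const 2).ennreal_ofReal
  rw [hS, d1e_fubini _ hmeas] at hfin
  have hε : ENNReal.ofReal (δ ^ 2 / Real.pi) ≠ 0 := by
    rw [Ne, ENNReal.ofReal_eq_zero, not_le]
    have := Real.pi_pos
    positivity
  obtain ⟨s, hs, hG⟩ := d1e_small hfin hε
  have hSline : ∀ t ∈ Ioo (0 : ℝ) Real.pi, (s + t * I : ℂ) ∈ S := by
    intro t ht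
    rw [hSmem]
    simp only [Complex.add_re, Complex.ofReal_re, Complex.mul_re, Complex.I_re, mul_zero,
      Complex.ofReal_im, Complex.I_im, mul_one, sub_self, add_zero, Complex.add_im,
      Complex.mul_im, zero_add]
    exact ⟨hs, ht.1, ht.2⟩
  have hcD : ContinuousOn (fun t : ℝ => deriv Ψ (s + t * I)) (Ioo 0 Real.pi) :=
    (hΨd.deriv hSo).continuousOn.comp (by fun_prop) hSline
  have hd' : ∀ t ∈ Ioo (0 : ℝ) Real.pi, HasDerivAt Ψ (deriv Ψ (s + t * I)) (s + t * I) :=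
    fun t ht => hΨD _ (hSline t ht)
  refine ⟨Real.exp s, Real.exp_pos _, ?_, ?_⟩
  · rw [Real.lt_log_iff_exp_lt hr1p] at hs
    exact lt_of_lt_of_le hs hr1r
  · intro u u' hu hu' hnu hnu'
    have key : ∀ v : ℂ, 0 < v.im → ‖v - x‖ = Real.exp s → ∃ θ ∈ Ioo (0 : ℝ) Real.pi,
        Φ v = Ψ (s + θ * I) := by
      intro v hv hnv
      have hv' : 0 < (v - x).im := by simpa using hv
      obtain ⟨a1, a2, a3, a4⟩ := d1e_log hv'
      refine ⟨(log (v - x)).im, ⟨a3, a4⟩, ?_⟩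
      have h1 : (s : ℂ) + (log (v - x)).im * I = log (v - x) := by
        apply Complex.ext
        · simp [a2, hnv]
        · simp
      rw [hΨ]
      show Φ v = Φ (x + exp (s + (log (v - x)).im * I))
      rw [h1, a1]
      congr 1
      ring
    obtain ⟨θ, hθ, e1⟩ := key u hu hnu
    obtain ⟨θ', hθ', e2⟩ := key u' hu' hnu'
    rw [e1, e2]
    rcases le_total θ θ' with h | h
    · rw [norm_sub_rev]
      exact d1e_arc hδ hd' hcD hG hθ hθ' h
    · exact d1e_arc hδ hd' hcD hG hθ' hθ h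

end CF6

end

section

open Complex MeasureTheory Set Filter Topology Metric

namespace CF6

/-- an open semicircle is path connected -/
theorem d1f_semi (x r : ℝ) (hr : 0 < r) (z0 : ℂ) (h0 : 0 < z0.im) (h1 : ‖z0 - x‖ = r) :
    JoinedIn {z : ℂ | 0 < z.im ∧ ‖z - x‖ = r} z0 (x + r * I) := by
  have hv : ∀ t ∈ Icc (0 : ℝ) 1, 0 < (((1 - t : ℝ) : ℂ) * (z0 - x) + (t : ℂ) * (r * I)).im := by
    intro t ht
    have h2 : (((1 - t : ℝ) : ℂ) * (z0 - x) + (t : ℂ) * (r * I)).im = (1 - t) * z0.im + t * r := by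
      simp
    rw [h2]
    rcases eq_or_lt_of_le ht.1 with h3 | h3
    · rw [← h3]
      simpa using h0
    · have h4 : 0 ≤ (1 - t) * z0.im := mul_nonneg (by linarith [ht.2]) h0.le
      have h5 : 0 < t * r := mul_pos h3 hr
      linarith
  have hv0 : ∀ t ∈ Icc (0 : ℝ) 1, ((1 - t : ℝ) : ℂ) * (z0 - x) + (t : ℂ) * (r * I) ≠ 0 := by
    intro t ht h2
    have := hv t ht
    rw [h2] at this
    simp at this
  have hcv : Continuous fun t : ℝ => ((1 - t : ℝ) : ℂ) * (z0 - x) + (t : ℂ) * (r * I) := by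
    fun_prop
  refine JoinedIn.ofLine (f := fun t : ℝ => (x : ℂ) +
    ((r / ‖((1 - t : ℝ) : ℂ) * (z0 - x) + (t : ℂ) * (r * I)‖ : ℝ) : ℂ) *
      (((1 - t : ℝ) : ℂ) * (z0 - x) + (t : ℂ) * (r * I))) ?_ ?_ ?_ ?_
  · refine continuousOn_const.add (ContinuousOn.mul ?_ hcv.continuousOn)
    refine Complex.continuous_ofReal.comp_continuousOn ?_
    exact continuousOn_const.div hcv.norm.continuousOn (fun t ht => norm_ne_zero_iff.2 (hv0 t ht))
  · simp [h1, hr.ne']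
  · simp [abs_of_pos hr, hr.ne']
  · rintro _ ⟨t, ht, rfl⟩
    have h3 : 0 < ‖((1 - t : ℝ) : ℂ) * (z0 - x) + (t : ℂ) * (r * I)‖ :=
      norm_pos_iff.2 (hv0 t ht)
    constructor
    · change 0 < ((x : ℂ) + ((r / ‖((1 - t : ℝ) : ℂ) * (z0 - x) + (t : ℂ) * (r * I)‖ : ℝ) : ℂ) *
        (((1 - t : ℝ) : ℂ) * (z0 - x) + (t : ℂ) * (r * I))).im
      rw [Complex.add_im, Complex.ofReal_im, zero_add, Complex.im_ofReal_mul]
      exact mul_pos (div_pos hr h3) (hv t ht)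
    · change ‖(x : ℂ) + ((r / ‖((1 - t : ℝ) : ℂ) * (z0 - x) + (t : ℂ) * (r * I)‖ : ℝ) : ℂ) *
        (((1 - t : ℝ) : ℂ) * (z0 - x) + (t : ℂ) * (r * I)) - x‖ = r
      rw [add_sub_cancel_left, norm_mul, Complex.norm_real, Real.norm_eq_abs,
        abs_of_pos (div_pos hr h3), div_mul_cancel₀ _ h3.ne']

/-- D1.6 (about 200 lines). `t1 < t1' < t2' < t2` with `u t1, u t1', u t2', u t2` real, `u t1 ≠ u t1'`, `u t2' ≠ u t2`, `q ≠ p` on
`[t1,t1'] ∪ [t2',t2]`. Semicircles `|u - u t_i| = r_i` with `Φ`-diameter less than a quarter of `min |q - p|` (D1.5), `r_i` less than `|u t_i - u t_i'|/2`; for large `n` the curve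
`un n` crosses them at times `s1 ∈ [t1,t1']`, `s2 ∈ [t2',t2]`. Close up along the semicircles and one fixed path between two fixed points
of the semicircles; `Φ(fixed path)` is compact in `Kᶜ`, `p ∈ K`. -/
theorem closed_curves {K : Set ℂ} {Φ ρ : ℂ → ℂ} (hK : Collar K Φ ρ) (hA : FinArea Φ) {a b : ℝ}
    {u q : ℝ → ℂ} {un : ℕ → ℝ → ℂ} (cu : ContinuousOn u (Icc a b)) (cq : ContinuousOn q (Icc a b))
    (hun : ∀ n, ContinuousOn (un n) (Icc a b) ∧ ∀ s ∈ Icc a b, 0 < (un n s).im)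
    (hlim : TendstoUniformlyOn un u atTop (Icc a b))
    (hlim' : TendstoUniformlyOn (fun n s => Φ (un n s)) q atTop (Icc a b))
    {p : ℂ} (hp : p ∈ K) {t1 t1' t2' t2 : ℝ} (h0 : a ≤ t1) (h1 : t1 < t1') (h2 : t1' < t2')
    (h3 : t2' < t2) (h4 : t2 ≤ b) (r1 : (u t1).im = 0) (r1' : (u t1').im = 0)
    (r2' : (u t2').im = 0) (r2 : (u t2).im = 0) (d1 : u t1 ≠ u t1') (d2 : u t2' ≠ u t2)
    (q1 : ∀ t ∈ Icc t1 t1', q t ≠ p) (q2 : ∀ t ∈ Icc t2' t2, q t ≠ p) :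
    ∃ R > (0 : ℝ), ∀ᶠ n in atTop, ∃ s1 ∈ Icc t1 t1', ∃ s2 ∈ Icc t2' t2, ∃ l : ℝ → ℂ,
      ContinuousOn l (Icc 0 1) ∧ l 0 = l 1 ∧ (∀ t ∈ Icc (0 : ℝ) 1, 0 < (l t).im) ∧
      (∀ t ∈ Icc (0 : ℝ) (1 / 2), l t = un n (s1 + 2 * t * (s2 - s1))) ∧
      (∀ t ∈ Icc (1 / 2 : ℝ) 1, R ≤ ‖Φ (l t) - p‖) := by
  -- the minimum of `‖q - p‖`
  have hsub1 : Icc t1 t1' ⊆ Icc a b := Icc_subset_Icc h0 (by linarith)
  have hsub2 : Icc t2' t2 ⊆ Icc a b := Icc_subset_Icc (by linarith) h4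
  obtain ⟨m, hm, hm1, hm2⟩ : ∃ m > (0 : ℝ), (∀ t ∈ Icc t1 t1', m ≤ ‖q t - p‖) ∧
      ∀ t ∈ Icc t2' t2, m ≤ ‖q t - p‖ := by
    have e1 : ContinuousOn (fun t => ‖q t - p‖) (Icc t1 t1') :=
      ((cq.mono hsub1).sub continuousOn_const).norm
    have e2 : ContinuousOn (fun t => ‖q t - p‖) (Icc t2' t2) :=
      ((cq.mono hsub2).sub continuousOn_const).norm
    obtain ⟨x1, hx1, hx1'⟩ := isCompact_Icc.exists_isMinOn (nonempty_Icc.2 h1.le) e1
    obtain ⟨x2, hx2, hx2'⟩ := isCompact_Icc.exists_isMinOn (nonempty_Icc.2 h3.le) e2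
    refine ⟨min ‖q x1 - p‖ ‖q x2 - p‖, lt_min (norm_pos_iff.2 (sub_ne_zero.2 (q1 x1 hx1)))
      (norm_pos_iff.2 (sub_ne_zero.2 (q2 x2 hx2))), fun t ht => ?_, fun t ht => ?_⟩
    · exact (min_le_left _ _).trans (hx1' ht)
    · exact (min_le_right _ _).trans (hx2' ht)
  have hu1 : u t1 = ((u t1).re : ℂ) := Complex.ext (by simp) (by simp [r1])
  have hu2 : u t2 = ((u t2).re : ℂ) := Complex.ext (by simp) (by simp [r2])
  have hD1 : 0 < ‖u t1' - u t1‖ := norm_pos_iff.2 (sub_ne_zero.2 d1.symm)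
  have hD2 : 0 < ‖u t2' - u t2‖ := norm_pos_iff.2 (sub_ne_zero.2 d2)
  obtain ⟨ra, hra, hra', hsa⟩ := short_semicircle hK hA (u t1).re (m / 4) (‖u t1' - u t1‖ / 2)
    (by positivity) (by positivity)
  obtain ⟨rb, hrb, hrb', hsb⟩ := short_semicircle hK hA (u t2).re (m / 4) (‖u t2' - u t2‖ / 2)
    (by positivity) (by positivity)
  -- the fixed path
  have hPb : ∀ t : ℝ, t ∈ Icc (0 : ℝ) 1 → 0 < (((1 - t : ℝ) : ℂ) * ((u t2).re + rb * I) +
      (t : ℂ) * ((u t1).re + ra * I)).im := by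
    intro t ht
    have h5 : (((1 - t : ℝ) : ℂ) * ((u t2).re + rb * I) +
      (t : ℂ) * ((u t1).re + ra * I)).im = (1 - t) * rb + t * ra := by
      simp
    rw [h5]
    rcases eq_or_lt_of_le ht.1 with h6 | h6
    · rw [← h6]
      simpa using hrb
    · have h7 : 0 ≤ (1 - t) * rb := mul_nonneg (by linarith [ht.2]) hrb.le
      have h8 : 0 < t * ra := mul_pos h6 hra
      linarith
  have hcPb : Continuous fun t : ℝ => (((1 - t : ℝ) : ℂ) * ((u t2).re + rb * I) +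
      (t : ℂ) * ((u t1).re + ra * I)) := by fun_prop
  obtain ⟨m', hm', hm1'⟩ : ∃ m' > (0 : ℝ), ∀ t ∈ Icc (0 : ℝ) 1,
      m' ≤ ‖Φ (((1 - t : ℝ) : ℂ) * ((u t2).re + rb * I) + (t : ℂ) * ((u t1).re + ra * I)) - p‖ := by
    have e1 : ContinuousOn (fun t : ℝ => ‖Φ (((1 - t : ℝ) : ℂ) * ((u t2).re + rb * I) +
        (t : ℂ) * ((u t1).re + ra * I)) - p‖) (Icc (0 : ℝ) 1) :=
      ((hK.dPhi.continuousOn.comp hcPb.continuousOn (fun t ht => hPb t ht)).sub
        continuousOn_const).norm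
    obtain ⟨x1, hx1, hx1'⟩ := isCompact_Icc.exists_isMinOn (nonempty_Icc.2 zero_le_one) e1
    refine ⟨_, norm_pos_iff.2 (sub_ne_zero.2 ?_), fun t ht => hx1' ht⟩
    intro h5
    exact hK.mem _ (hPb x1 hx1) (by rw [h5]; exact hp)
  refine ⟨min (m / 2) m', lt_min (by positivity) hm', ?_⟩
  have hl1 := Metric.tendstoUniformlyOn_iff.1 hlim
  have hl2 := Metric.tendstoUniformlyOn_iff.1 hlim' (m / 8) (by positivity)
  filter_upwards [hl1 ra hra, hl1 rb hrb, hl1 (‖u t1' - u t1‖ / 2) (by positivity),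
    hl1 (‖u t2' - u t2‖ / 2) (by positivity), hl2] with n n1 n2 n3 n4 n5
  have cun := (hun n).1
  -- crossing times
  obtain ⟨s1, hs1, hs1'⟩ : ∃ s1 ∈ Icc t1 t1', ‖un n s1 - (u t1).re‖ = ra := by
    have e1 : ContinuousOn (fun s => ‖un n s - (u t1).re‖) (Icc t1 t1') :=
      ((cun.mono hsub1).sub continuousOn_const).norm
    have e2 : ‖un n t1 - (u t1).re‖ ≤ ra := by
      have := n1 t1 (hsub1 (left_mem_Icc.2 h1.le))
      rw [dist_comm, dist_eq_norm] at this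
      rw [← hu1]
      exact this.le
    have e3 : ra ≤ ‖un n t1' - (u t1).re‖ := by
      have h5 := n3 t1' (hsub1 (right_mem_Icc.2 h1.le))
      rw [dist_eq_norm] at h5
      rw [← hu1]
      have h6 : ‖u t1' - u t1‖ ≤ ‖u t1' - un n t1'‖ + ‖un n t1' - u t1‖ := norm_sub_le_norm_sub_add_norm_sub _ _ _
      linarith
    exact intermediate_value_Icc h1.le e1 ⟨e2, e3⟩
  obtain ⟨s2, hs2, hs2'⟩ : ∃ s2 ∈ Icc t2' t2, ‖un n s2 - (u t2).re‖ = rb := by
    have e1 : ContinuousOn (fun s => ‖un n s - (u t2).re‖) (Icc t2' t2) :=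
      ((cun.mono hsub2).sub continuousOn_const).norm
    have e2 : ‖un n t2 - (u t2).re‖ ≤ rb := by
      have := n2 t2 (hsub2 (right_mem_Icc.2 h3.le))
      rw [dist_comm, dist_eq_norm] at this
      rw [← hu2]
      exact this.le
    have e3 : rb ≤ ‖un n t2' - (u t2).re‖ := by
      have h5 := n4 t2' (hsub2 (left_mem_Icc.2 h3.le))
      rw [dist_eq_norm] at h5
      rw [← hu2]
      have h6 : ‖u t2' - u t2‖ ≤ ‖u t2' - un n t2'‖ + ‖un n t2' - u t2‖ := norm_sub_le_norm_sub_add_norm_sub _ _ _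
      linarith
    exact intermediate_value_Icc' h3.le e1 ⟨e2, e3⟩
  have hs1ab := hsub1 hs1
  have hs2ab := hsub2 hs2
  have hs12 : s1 < s2 := by linarith [hs1.2, hs2.1]
  have him1 := (hun n).2 s1 hs1ab
  have him2 := (hun n).2 s2 hs2ab
  -- the values at the crossing times
  have hv1 : m / 2 + m / 4 ≤ ‖Φ (un n s1) - p‖ := by
    have h5 := n5 s1 hs1ab
    rw [dist_eq_norm] at h5
    have h6 := hm1 s1 hs1
    have h7 : ‖q s1 - p‖ ≤ ‖q s1 - Φ (un n s1)‖ + ‖Φ (un n s1) - p‖ := norm_sub_le_norm_sub_add_norm_sub _ _ _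
    linarith
  have hv2 : m / 2 + m / 4 ≤ ‖Φ (un n s2) - p‖ := by
    have h5 := n5 s2 hs2ab
    rw [dist_eq_norm] at h5
    have h6 := hm2 s2 hs2
    have h7 : ‖q s2 - p‖ ≤ ‖q s2 - Φ (un n s2)‖ + ‖Φ (un n s2) - p‖ := norm_sub_le_norm_sub_add_norm_sub _ _ _
    linarith
  -- the path
  have hJ : JoinedIn {z : ℂ | 0 < z.im ∧ min (m / 2) m' ≤ ‖Φ z - p‖} (un n s2) (un n s1) := by
    have j1 : JoinedIn {z : ℂ | 0 < z.im ∧ min (m / 2) m' ≤ ‖Φ z - p‖} (un n s2)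
        ((u t2).re + rb * I) := by
      refine (d1f_semi _ rb hrb _ him2 hs2').mono ?_
      rintro z ⟨hz1, hz2⟩
      refine ⟨hz1, (min_le_left _ _).trans ?_⟩
      have h5 := hsb (un n s2) z him2 hz1 hs2' hz2
      have h7 : ‖Φ (un n s2) - p‖ ≤ ‖Φ (un n s2) - Φ z‖ + ‖Φ z - p‖ := norm_sub_le_norm_sub_add_norm_sub _ _ _
      linarith
    have j3 : JoinedIn {z : ℂ | 0 < z.im ∧ min (m / 2) m' ≤ ‖Φ z - p‖} (un n s1)
        ((u t1).re + ra * I) := by
      refine (d1f_semi _ ra hra _ him1 hs1').mono ?_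
      rintro z ⟨hz1, hz2⟩
      refine ⟨hz1, (min_le_left _ _).trans ?_⟩
      have h5 := hsa (un n s1) z him1 hz1 hs1' hz2
      have h7 : ‖Φ (un n s1) - p‖ ≤ ‖Φ (un n s1) - Φ z‖ + ‖Φ z - p‖ := norm_sub_le_norm_sub_add_norm_sub _ _ _
      linarith
    have j2 : JoinedIn {z : ℂ | 0 < z.im ∧ min (m / 2) m' ≤ ‖Φ z - p‖} ((u t2).re + rb * I)
        ((u t1).re + ra * I) := by
      refine JoinedIn.ofLine hcPb.continuousOn (by simp) (by simp) ?_
      rintro _ ⟨t, ht, rfl⟩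
      exact ⟨hPb t ht, (min_le_right _ _).trans (hm1' t ht)⟩
    exact (j1.trans j2).trans j3.symm
  obtain ⟨γ, hγ⟩ := hJ
  have hcl : ∀ t : ℝ, s1 + 2 * max 0 (min t (1 / 2)) * (s2 - s1) ∈ Icc a b := by
    intro t
    have h5 : 0 ≤ max 0 (min t (1 / 2)) := le_max_left _ _
    have h6 : max 0 (min t (1 / 2)) ≤ 1 / 2 := max_le (by norm_num) (min_le_right _ _)
    constructor
    · have : 0 ≤ 2 * max 0 (min t (1 / 2)) * (s2 - s1) :=
        mul_nonneg (by linarith) (by linarith)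
      linarith [hs1ab.1]
    · have : 2 * max 0 (min t (1 / 2)) * (s2 - s1) ≤ 1 * (s2 - s1) :=
        mul_le_mul_of_nonneg_right (by linarith) (by linarith)
      linarith [hs2ab.2]
  have hcA : Continuous fun t : ℝ => un n (s1 + 2 * max 0 (min t (1 / 2)) * (s2 - s1)) :=
    cun.comp_continuous (by fun_prop) hcl
  have hcB : Continuous fun t : ℝ => γ.extend (2 * t - 1) :=
    γ.continuous_extend.comp (by fun_prop)
  refine ⟨s1, hs1, s2, hs2, fun t => if t ≤ 1 / 2 then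
    un n (s1 + 2 * max 0 (min t (1 / 2)) * (s2 - s1)) else γ.extend (2 * t - 1), ?_, ?_, ?_, ?_, ?_⟩
  · refine (Continuous.if_le hcA hcB continuous_id continuous_const ?_).continuousOn
    intro t ht
    simp only [id] at ht
    rw [ht]
    norm_num
  · simp only
    rw [if_pos (by norm_num : (0 : ℝ) ≤ 1 / 2), if_neg (by norm_num : ¬ (1 : ℝ) ≤ 1 / 2)]
    norm_num
  · intro t ht
    by_cases h5 : t ≤ 1 / 2
    · simp only [if_pos h5]
      exact (hun n).2 _ (hcl t)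
    · simp only [if_neg h5]
      push Not at h5
      have h6 : (2 * t - 1) ∈ Icc (0 : ℝ) 1 := ⟨by linarith, by linarith [ht.2]⟩
      rw [Path.extend_apply _ h6]
      exact (hγ ⟨2 * t - 1, h6⟩).1
  · intro t ht
    simp only [if_pos ht.2]
    rw [min_eq_left ht.2, max_eq_right ht.1]
  · intro t ht
    have h6 : (2 * t - 1) ∈ Icc (0 : ℝ) 1 := ⟨by linarith [ht.1], by linarith [ht.2]⟩
    have h7 : (if t ≤ 1 / 2 then
        un n (s1 + 2 * max 0 (min t (1 / 2)) * (s2 - s1)) else γ.extend (2 * t - 1)) =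
        γ ⟨2 * t - 1, h6⟩ := by
      by_cases h5 : t ≤ 1 / 2
      · have h8 : t = 1 / 2 := le_antisymm h5 ht.1
        subst h8
        rw [if_pos le_rfl]
        have h9 : (⟨2 * (1 / 2) - 1, h6⟩ : Icc (0 : ℝ) 1) = 0 := by
          apply Subtype.ext
          norm_num
        rw [h9, γ.source]
        norm_num
      · rw [if_neg h5, Path.extend_apply _ h6]
    simp only
    rw [h7]
    exact (hγ ⟨2 * t - 1, h6⟩).2

end CF6

end

section

open Complex MeasureTheory Set Filter Topology Metric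

namespace CF6

theorem d2m_real1 (x : ℕ → ℝ)
    (hT : Tendsto (fun m => x (m + 1) - (30 + 34 * x m) / (34 + 30 * x m)) atTop (𝓝 0))
    (hev : ∀ᶠ m in atTop, x m < -1 / 15) (δ : ℝ) (hδ : 0 < δ) :
    ∀ᶠ m in atTop, x m < -1 + δ := by
  by_contra hcon
  rw [Filter.not_eventually] at hcon
  have h1 : ∀ᶠ m in atTop, |x (m + 1) - (30 + 34 * x m) / (34 + 30 * x m)| < δ / 10 := by
    have := (tendsto_order.mp (hT.abs)).2 (δ / 10) (by simp; positivity)
    simpa using this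
  obtain ⟨N, hN⟩ := eventually_atTop.mp (h1.and hev)
  obtain ⟨m0, hm0, hx0⟩ := (frequently_atTop.mp hcon) N
  rw [not_lt] at hx0
  have key : ∀ k : ℕ, -1 + δ + k * (δ / 10) ≤ x (m0 + k) := by
    intro k
    induction k with
    | zero => simpa using hx0
    | succ k ih =>
      obtain ⟨a1, a2⟩ := hN (m0 + k) (by omega)
      set t := x (m0 + k) with ht
      have ht1 : -1 + δ ≤ t := by
        have : (0 : ℝ) ≤ k * (δ / 10) := by positivity
        linarith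
      have hD : 0 < 34 + 30 * t := by linarith
      have e1 : (30 + 34 * t) / (34 + 30 * t) - t = 30 * (1 - t ^ 2) / (34 + 30 * t) := by
        field_simp
        ring
      have e2 : 30 * δ / 34 ≤ 30 * (1 - t ^ 2) / (34 + 30 * t) := by
        rw [div_le_div_iff₀ (by norm_num) hD]
        have b1 : δ ≤ 1 - t ^ 2 := by nlinarith
        nlinarith
      have e3 : x (m0 + (k + 1)) = x (m0 + k + 1) := by rw [add_assoc]
      rw [e3]
      have e4 := (abs_lt.mp a1).1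
      push_cast
      linarith
  obtain ⟨k, hk⟩ := exists_nat_gt (1 / (δ / 10))
  have h2 := key k
  have h3 := (hN (m0 + k) (by omega)).2
  have h4 : 1 < k * (δ / 10) := by
    rw [div_lt_iff₀ (by positivity)] at hk
    exact hk
  linarith

theorem d2m_real2 (x : ℕ → ℝ) (q H : ℕ → ℂ)
    (hT : Tendsto (fun m => x (m + 1) - (30 + 34 * x m) / (34 + 30 * x m)) atTop (𝓝 0))
    (hI : Tendsto (fun m => (H m).im - 16 / (34 + 30 * x m)) atTop (𝓝 0))
    (hHb : ∀ᶠ m in atTop, ‖H m‖ ≤ 5)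
    (hq : ∀ m, 0 < (q m).im) (hrec : ∀ᶠ m in atTop, q (m + 1) = (q m).re + (q m).im * H m)
    (hinf : Tendsto (fun m => ‖q m‖) atTop atTop) :
    ∀ᶠ m in atTop, x m < -1 / 15 := by
  by_contra hcon
  rw [Filter.not_eventually] at hcon
  have h1 : ∀ᶠ m in atTop, |x (m + 1) - (30 + 34 * x m) / (34 + 30 * x m)| < 1 / 10 := by
    have := (tendsto_order.mp (hT.abs)).2 (1 / 10) (by norm_num)
    simpa using this
  have h2 : ∀ᶠ m in atTop, |(H m).im - 16 / (34 + 30 * x m)| < 1 / 100 := by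
    have := (tendsto_order.mp (hI.abs)).2 (1 / 100) (by norm_num)
    simpa using this
  obtain ⟨N, hN⟩ := eventually_atTop.mp (h1.and (h2.and (hHb.and hrec)))
  obtain ⟨m0, hm0, hx0⟩ := (frequently_atTop.mp hcon) N
  rw [not_lt] at hx0
  have key : ∀ k : ℕ, -1 / 15 ≤ x (m0 + k) ∧
      |(q (m0 + k)).re| + 11 * (q (m0 + k)).im ≤ |(q m0).re| + 11 * (q m0).im := by
    intro k
    induction k with
    | zero => exact ⟨by simpa using hx0, le_refl _⟩
    | succ k ih =>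
      obtain ⟨a1, a2, a3, a4⟩ := hN (m0 + k) (by omega)
      obtain ⟨i1, i2⟩ := ih
      set t := x (m0 + k) with ht
      have hD : 0 < 34 + 30 * t := by linarith
      have e3 : m0 + (k + 1) = m0 + k + 1 := by rw [add_assoc]
      rw [e3]
      constructor
      · have e1 : 13 / 15 ≤ (30 + 34 * t) / (34 + 30 * t) := by
          rw [div_le_div_iff₀ (by norm_num) hD]
          linarith
        have e4 := (abs_lt.mp a1).1
        linarith
      · have hp := hq (m0 + k)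
        have r1 : (q (m0 + k + 1)).re = (q (m0 + k)).re + (q (m0 + k)).im * (H (m0 + k)).re := by
          rw [a4]; simp
        have r2 : (q (m0 + k + 1)).im = (q (m0 + k)).im * (H (m0 + k)).im := by
          rw [a4]; simp
        have r3 : |(H (m0 + k)).re| ≤ 5 := (Complex.abs_re_le_norm _).trans a3
        have r4 : (H (m0 + k)).im ≤ 51 / 100 := by
          have e4 := (abs_lt.mp a2).2
          have e5 : 16 / (34 + 30 * t) ≤ 1 / 2 := by
            rw [div_le_div_iff₀ hD (by norm_num)]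
            linarith
          linarith
        have r5 : |(q (m0 + k + 1)).re| ≤ |(q (m0 + k)).re| + 5 * (q (m0 + k)).im := by
          rw [r1]
          refine (abs_add_le _ _).trans ?_
          rw [abs_mul, abs_of_pos hp]
          nlinarith
        have r6 : (q (m0 + k + 1)).im ≤ 51 / 100 * (q (m0 + k)).im := by
          rw [r2]; nlinarith
        linarith
  have hbd : ∀ m ≥ m0, ‖q m‖ ≤ |(q m0).re| + 11 * (q m0).im := by
    intro m hm
    obtain ⟨k, rfl⟩ := Nat.exists_eq_add_of_le hm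
    have := (key k).2
    have h3 := Complex.norm_le_abs_re_add_abs_im (q (m0 + k))
    rw [abs_of_pos (hq (m0 + k))] at h3
    have := hq (m0 + k)
    linarith
  obtain ⟨M, hM⟩ := eventually_atTop.mp (hinf.eventually_gt_atTop (|(q m0).re| + 11 * (q m0).im))
  have h3 := hM (max m0 M) (le_max_right _ _)
  have h4 := hbd (max m0 M) (le_max_left _ _)
  linarith

theorem d2m_reT (E : ℂ) : ((5 * E + 3) / (3 * E + 5)).re =
    (30 + 34 * E.re + 15 * (‖E‖ ^ 2 - 1)) / (34 + 30 * E.re + 9 * (‖E‖ ^ 2 - 1)) := by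
  rw [← Complex.normSq_eq_norm_sq, Complex.div_re, ← add_div]
  congr 1
  · simp [Complex.normSq_apply]; ring
  · simp [Complex.normSq_apply]; ring

theorem d2m_imC (E : ℂ) : (icay (-(3 / 5) * E)).im =
    (16 - 9 * (‖E‖ ^ 2 - 1)) / (34 + 30 * E.re + 9 * (‖E‖ ^ 2 - 1)) := by
  have h : icay (-(3 / 5) * E) = (I * (5 - 3 * E)) / (5 + 3 * E) := by
    unfold icay
    have e1 : (1 : ℂ) - -(3 / 5) * E = (5 + 3 * E) / 5 := by ring
    have e2 : I * (1 + -(3 / 5) * E) = (I * (5 - 3 * E)) / 5 := by ring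
    rw [e1, e2, div_div_div_cancel_right₀ (by norm_num)]
  rw [h, ← Complex.normSq_eq_norm_sq, Complex.div_im, ← sub_div]
  congr 1
  · simp [Complex.normSq_apply]; ring
  · simp [Complex.normSq_apply]; ring

theorem d2m_quot (a b c e s : ℕ → ℝ) (hs : Tendsto s atTop (𝓝 0))
    (hden : ∀ᶠ m in atTop, 3 ≤ e m ∧ 3 ≤ e m + 9 * s m) (hnum : ∀ᶠ m in atTop, |a m| ≤ 100)
    (hden2 : ∀ᶠ m in atTop, |e m| ≤ 100) (κ : ℝ)
    (hb : ∀ m, b m = (a m + κ * s m) / (e m + 9 * s m)) (hc : ∀ m, c m = a m / e m) :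
    Tendsto (fun m => b m - c m) atTop (𝓝 0) := by
  have h0 : Tendsto (fun m => |s m| * ((|κ| * 100 + 900) / 9)) atTop (𝓝 0) := by
    have := hs.abs.mul_const ((|κ| * 100 + 900) / 9)
    simpa using this
  apply squeeze_zero_norm' _ h0
  filter_upwards [hden, hnum, hden2] with m h1 h2 h3
  obtain ⟨h1a, h1b⟩ := h1
  have e1 : b m - c m = s m * (κ * e m - 9 * a m) / ((e m + 9 * s m) * e m) := by
    rw [hb, hc]
    have k1 : e m ≠ 0 := by positivity
    have k2 : e m + 9 * s m ≠ 0 := by positivity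
    rw [div_sub_div _ _ k2 k1]
    congr 1
    ring
  rw [e1, Real.norm_eq_abs, abs_div, abs_mul]
  have hd : 9 ≤ |(e m + 9 * s m) * e m| := by
    rw [abs_of_pos (by positivity)]
    nlinarith
  have hn : |κ * e m - 9 * a m| ≤ |κ| * 100 + 900 := by
    calc |κ * e m - 9 * a m| ≤ |κ * e m| + |9 * a m| := abs_sub _ _
      _ ≤ |κ| * 100 + 900 := by
        rw [abs_mul, abs_mul, abs_of_pos (by norm_num : (0 : ℝ) < 9)]
        have := abs_nonneg κ
        nlinarith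
  rw [← mul_div_assoc]
  apply div_le_div₀
  · positivity
  · apply mul_le_mul_of_nonneg_left hn (abs_nonneg _)
  · norm_num
  · exact hd

/-- D2.10 (about 120 lines), pure sequences. `T(E) = (5E+3)/(3E+5)` on the unit circle has the attracting fixed point
`1` and the repelling fixed point `-1`: if `Re E ≥ -1/15` then `Re T(E) ≥ 13/15`. While `Re E_m ≥ -1/15`, the heights
`Im q_m` shrink by a factor `≤ 0.51` and `|Re q_{m+1} - Re q_m| ≤ C Im q_m`, so `q_m` would stay bounded. Hence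
`Re E_m < -1/15` for all large `m`, and then `E_m → -1` (otherwise finitely many steps lead to `Re ≥ -1/15`). -/
theorem dynamics (E q H : ℕ → ℂ) (hE : Tendsto (fun m => ‖E m‖) atTop (𝓝 1))
    (hT : Tendsto (fun m => E (m + 1) - (5 * E m + 3) / (3 * E m + 5)) atTop (𝓝 0))
    (hH : Tendsto (fun m => H m - icay (-(3 / 5) * E m)) atTop (𝓝 0))
    (hq : ∀ m, 0 < (q m).im) (hrec : ∀ᶠ m in atTop, q (m + 1) = (q m).re + (q m).im * H m)
    (hinf : Tendsto (fun m => ‖q m‖) atTop atTop) :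
    Tendsto E atTop (𝓝 (-1)) := by
  have hs : Tendsto (fun m => ‖E m‖ ^ 2 - 1) atTop (𝓝 0) := by
    have := (hE.pow 2).sub_const 1
    simpa using this
  have hb : ∀ᶠ m in atTop, ‖E m‖ < 101 / 100 := (tendsto_order.mp hE).2 _ (by norm_num)
  have hb' : ∀ᶠ m in atTop, 99 / 100 < ‖E m‖ := (tendsto_order.mp hE).1 _ (by norm_num)
  have hre : ∀ m, |(E m).re| ≤ ‖E m‖ := fun m => Complex.abs_re_le_norm _
  have hden : ∀ᶠ m in atTop, 3 ≤ 34 + 30 * (E m).re ∧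
      3 ≤ 34 + 30 * (E m).re + 9 * (‖E m‖ ^ 2 - 1) := by
    filter_upwards [hb, hb'] with m h1 h2
    have := (abs_le.mp (hre m)).1
    constructor
    · linarith
    · nlinarith
  have hden2 : ∀ᶠ m in atTop, |34 + 30 * (E m).re| ≤ 100 := by
    filter_upwards [hb] with m h1
    have := abs_le.mp (hre m)
    rw [abs_le]
    constructor <;> linarith [this.1, this.2]
  have hnum : ∀ᶠ m in atTop, |30 + 34 * (E m).re| ≤ 100 := by
    filter_upwards [hb] with m h1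
    have := abs_le.mp (hre m)
    rw [abs_le]
    constructor <;> linarith [this.1, this.2]
  -- real parts
  have hT1 : Tendsto (fun m => (E (m + 1)).re - (30 + 34 * (E m).re) / (34 + 30 * (E m).re))
      atTop (𝓝 0) := by
    have t1 : Tendsto (fun m => (E (m + 1) - (5 * E m + 3) / (3 * E m + 5)).re) atTop (𝓝 0) := by
      exact (Complex.continuous_re.tendsto' 0 0 (by simp)).comp hT
    have t2 := d2m_quot (fun m => 30 + 34 * (E m).re)
      (fun m => ((5 * E m + 3) / (3 * E m + 5)).re)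
      (fun m => (30 + 34 * (E m).re) / (34 + 30 * (E m).re)) (fun m => 34 + 30 * (E m).re)
      (fun m => ‖E m‖ ^ 2 - 1) hs hden hnum hden2 15 (fun m => d2m_reT (E m)) (fun m => rfl)
    have t3 := t1.add t2
    rw [add_zero] at t3
    refine t3.congr (fun m => ?_)
    simp only [Complex.sub_re]
    ring
  have hI1 : Tendsto (fun m => (H m).im - 16 / (34 + 30 * (E m).re)) atTop (𝓝 0) := by
    have t1 : Tendsto (fun m => (H m - icay (-(3 / 5) * E m)).im) atTop (𝓝 0) := by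
      exact (Complex.continuous_im.tendsto' 0 0 (by simp)).comp hH
    have t2 := d2m_quot (fun _ => 16)
      (fun m => (icay (-(3 / 5) * E m)).im)
      (fun m => 16 / (34 + 30 * (E m).re)) (fun m => 34 + 30 * (E m).re)
      (fun m => ‖E m‖ ^ 2 - 1) hs hden (Eventually.of_forall (fun m => by norm_num)) hden2 (-9)
      (fun m => by rw [d2m_imC]; ring) (fun m => rfl)
    have t3 := t1.add t2
    rw [add_zero] at t3
    refine t3.congr (fun m => ?_)
    simp only [Complex.sub_im]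
    ring
  have hHb : ∀ᶠ m in atTop, ‖H m‖ ≤ 5 := by
    have t1 : ∀ᶠ m in atTop, ‖H m - icay (-(3 / 5) * E m)‖ < 1 / 10 := by
      have := (tendsto_order.mp hH.norm).2 (1 / 10) (by norm_num)
      exact this
    filter_upwards [t1, hb] with m h1 h2
    have h3 : ‖icay (-(3 / 5) * E m)‖ ≤ 45 / 10 := by
      unfold icay
      rw [norm_div, norm_mul, Complex.norm_I, one_mul]
      have h4 : ‖-(3 / 5) * E m‖ ≤ 61 / 100 := by
        rw [norm_mul]
        have : ‖(-(3 / 5) : ℂ)‖ = 3 / 5 := by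
          rw [norm_neg]; norm_num
        rw [this]
        nlinarith
      have h5 : ‖1 + -(3 / 5) * E m‖ ≤ 161 / 100 := by
        refine (norm_add_le _ _).trans ?_
        rw [norm_one]
        linarith
      have h6 : 39 / 100 ≤ ‖1 - -(3 / 5) * E m‖ := by
        have := norm_sub_norm_le (1 : ℂ) (-(3 / 5) * E m)
        rw [norm_one] at this
        linarith
      rw [div_le_iff₀ (by linarith)]
      linarith
    calc ‖H m‖ = ‖(H m - icay (-(3 / 5) * E m)) + icay (-(3 / 5) * E m)‖ := by ring_nf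
      _ ≤ ‖H m - icay (-(3 / 5) * E m)‖ + ‖icay (-(3 / 5) * E m)‖ := norm_add_le _ _
      _ ≤ 5 := by linarith
  have hev := d2m_real2 (fun m => (E m).re) q H hT1 hI1 hHb hq hrec hinf
  have hlim := d2m_real1 (fun m => (E m).re) hT1 hev
  rw [Metric.tendsto_atTop]
  intro ε hε
  have c1 := hlim (ε ^ 2 / 4) (by positivity)
  have c2 : ∀ᶠ m in atTop, ‖E m‖ ^ 2 - 1 < ε ^ 2 / 4 := (tendsto_order.mp hs).2 _ (by positivity)
  obtain ⟨N, hN⟩ := eventually_atTop.mp (c1.and c2)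
  refine ⟨N, fun m hm => ?_⟩
  obtain ⟨d1, d2⟩ := hN m hm
  rw [dist_eq_norm, sub_neg_eq_add]
  have d3 : ‖E m + 1‖ ^ 2 = ‖E m‖ ^ 2 + 1 + 2 * (E m).re := by
    rw [← Complex.normSq_eq_norm_sq, ← Complex.normSq_eq_norm_sq, Complex.normSq_apply,
      Complex.normSq_apply]
    simp
    ring
  have d4 : ‖E m + 1‖ ^ 2 < ε ^ 2 := by
    rw [d3]
    nlinarith
  exact lt_of_pow_lt_pow_left₀ 2 hε.le d4

end CF6

end

section

open Complex MeasureTheory Set Filter Topology Metric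

namespace CF6

/-- conjugation by the Cayley transform: the chain rule -/
theorem D2o_chain (f : ℂ → ℂ) (c : ℂ) (hc : ‖c‖ < 1) (hf : DifferentiableAt ℂ f (icay c))
    (hpos : 0 < (f (icay c)).im) :
    deriv (fun ξ => cay (f (icay ξ))) c =
      2 * I / (f (icay c) + I) ^ 2 * (deriv f (icay c) * (2 * I / (1 - c) ^ 2)) := by
  obtain ⟨-, -, -, c4, c5, -, -⟩ := cay_facts
  have h1 : HasDerivAt (fun ξ => f (icay ξ)) (deriv f (icay c) * (2 * I / (1 - c) ^ 2)) c :=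
    HasDerivAt.comp c hf.hasDerivAt (c5 c hc)
  have h2 := HasDerivAt.comp_of_eq c (c4 _ hpos) h1 rfl
  exact h2.deriv

/-- the estimates -/
theorem D2o_est {Z W c b D d : ℂ} {κ ε η : ℝ} (hκ : 0 < κ) (hκ1 : κ ≤ 1)
    (hη : 0 < η) (hεη : ε ≤ η * κ ^ 4 / 20) (hc : ‖c‖ ≤ 1 - κ) (hb : ‖b‖ ≤ 1 - κ)
    (hZ : Z = icay c) (hW : W = icay b) (hbc : ‖b + c‖ ≤ ε) (hD : ‖D + 1‖ ≤ ε)
    (hd : D = 2 * I / (W + I) ^ 2 * (d * (2 * I / (1 - c) ^ 2))) :
    ‖W + 1 / Z‖ ≤ η ∧ ‖d - 1 / Z ^ 2‖ ≤ η := by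
  have hκ2 : κ ^ 4 ≤ κ ^ 2 := pow_le_pow_of_le_one hκ.le hκ1 (by norm_num)
  have hε0 : 0 ≤ ε := (norm_nonneg _).trans hD
  have n1 : κ ≤ ‖1 - c‖ := by
    have := norm_sub_norm_le (1 : ℂ) c
    rw [norm_one] at this
    linarith
  have n2 : κ ≤ ‖1 + c‖ := by
    have := norm_sub_norm_le (1 : ℂ) (-c)
    rw [norm_one, norm_neg, sub_neg_eq_add] at this
    linarith
  have n3 : κ ≤ ‖1 - b‖ := by
    have := norm_sub_norm_le (1 : ℂ) b
    rw [norm_one] at this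
    linarith
  have z1 : 1 - c ≠ 0 := norm_pos_iff.1 (hκ.trans_le n1)
  have z2 : 1 + c ≠ 0 := norm_pos_iff.1 (hκ.trans_le n2)
  have z3 : 1 - b ≠ 0 := norm_pos_iff.1 (hκ.trans_le n3)
  have hI : (I : ℂ) ≠ 0 := Complex.I_ne_zero
  have hI2 : (I : ℂ) ^ 2 = -1 := Complex.I_sq
  have hZinv : 1 / Z = -(I * (1 - c) / (1 + c)) := by
    rw [hZ]
    unfold icay
    field_simp
    linear_combination hI2
  have e1 : W + 1 / Z = 2 * I * (b + c) / ((1 - b) * (1 + c)) := by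
    rw [hZinv, hW]
    unfold icay
    field_simp
    ring
  have hWI : W + I = 2 * I / (1 - b) := by
    rw [hW]
    unfold icay
    field_simp
    ring
  have e2 : d = D * (1 - c) ^ 2 / (1 - b) ^ 2 := by
    rw [hd, hWI]
    field_simp
  have e3 : d - 1 / Z ^ 2 = (1 - c) ^ 2 * ((D + 1) / (1 - b) ^ 2 -
      (b + c) * (-b + c + 2) / ((1 - b) ^ 2 * (1 + c) ^ 2)) := by
    have h1 : 1 / Z ^ 2 = (1 / Z) ^ 2 := by
      rw [one_div_pow]
    rw [h1, hZinv, e2, neg_sq, div_pow, mul_pow, hI2]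
    field_simp
    ring
  constructor
  · rw [e1, norm_div, norm_mul, norm_mul, norm_mul, Complex.norm_I, mul_one, Complex.norm_ofNat]
    have h1 : κ ^ 2 ≤ ‖1 - b‖ * ‖1 + c‖ := by
      calc κ ^ 2 = κ * κ := by ring
        _ ≤ _ := mul_le_mul n3 n2 hκ.le (norm_nonneg _)
    rw [div_le_iff₀ (lt_of_lt_of_le (by positivity) h1)]
    have h2 : η * κ ^ 4 ≤ η * κ ^ 2 := mul_le_mul_of_nonneg_left hκ2 hη.le
    have h3 : η * κ ^ 2 ≤ η * (‖1 - b‖ * ‖1 + c‖) := mul_le_mul_of_nonneg_left h1 hη.le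
    have h4 : 0 < η * κ ^ 4 := by positivity
    linarith
  · rw [e3, norm_mul, norm_pow]
    have h1 : ‖1 - c‖ ≤ 2 := by
      calc ‖1 - c‖ ≤ ‖(1 : ℂ)‖ + ‖c‖ := norm_sub_le _ _
        _ ≤ 2 := by rw [norm_one]; linarith
    have h2 : ‖1 - c‖ ^ 2 ≤ 4 := by
      have := norm_nonneg (1 - c)
      nlinarith
    have h3 : ‖(D + 1) / (1 - b) ^ 2‖ ≤ ε / κ ^ 4 := by
      rw [norm_div, norm_pow]
      have h4 : κ ^ 4 ≤ ‖1 - b‖ ^ 2 := hκ2.trans (pow_le_pow_left₀ hκ.le n3 2)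
      exact div_le_div₀ hε0 hD (by positivity) h4
    have h4 : ‖(b + c) * (-b + c + 2) / ((1 - b) ^ 2 * (1 + c) ^ 2)‖ ≤ ε * 4 / κ ^ 4 := by
      rw [norm_div, norm_mul, norm_mul, norm_pow, norm_pow]
      have h5 : κ ^ 4 ≤ ‖1 - b‖ ^ 2 * ‖1 + c‖ ^ 2 := by
        calc κ ^ 4 = κ ^ 2 * κ ^ 2 := by ring
          _ ≤ _ := mul_le_mul (pow_le_pow_left₀ hκ.le n3 2) (pow_le_pow_left₀ hκ.le n2 2)
            (by positivity) (by positivity)
      have h6 : ‖-b + c + 2‖ ≤ 4 := by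
        calc ‖-b + c + 2‖ ≤ ‖-b + c‖ + ‖(2 : ℂ)‖ := norm_add_le _ _
          _ ≤ (‖-b‖ + ‖c‖) + ‖(2 : ℂ)‖ := by
            have := norm_add_le (-b) c
            linarith
          _ ≤ 4 := by
            rw [norm_neg, Complex.norm_ofNat]
            linarith
      exact div_le_div₀ (by positivity) (mul_le_mul hbc h6 (norm_nonneg _) hε0)
        (by positivity) h5
    have h5 : ‖(D + 1) / (1 - b) ^ 2 - (b + c) * (-b + c + 2) / ((1 - b) ^ 2 * (1 + c) ^ 2)‖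
        ≤ ε / κ ^ 4 + ε * 4 / κ ^ 4 := (norm_sub_le _ _).trans (add_le_add h3 h4)
    have h6 : ε / κ ^ 4 + ε * 4 / κ ^ 4 ≤ η / 4 := by
      rw [← add_div, div_le_iff₀ (by positivity)]
      linarith
    calc _ ≤ 4 * (η / 4) := mul_le_mul h2 (h5.trans h6) (norm_nonneg _) (by norm_num)
      _ = η := by ring

/-- D2.12 (about 80 lines) `f_m → -1/Z` with derivatives, uniformly on `HD R`. -/
theorem fm_tendsto {K : Set ℂ} {Φ U : ℂ → ℂ} {x : ℝ} {p e : ℂ} {C0 y1 r0 : ℝ}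
    (S : Sector K Φ U x p e C0 y1) (hr0 : 0 < r0) (hq : ∀ m, 0 < (qm U x r0 m).im)
    (hq' : Tendsto (fun m => ‖qm U x r0 m‖) atTop atTop)
    (hE : Tendsto (fun m => deriv (hm U x r0 m) I) atTop (𝓝 (-1))) (R : ℝ) (h0 : 0 ≤ R)
    (h1 : R < 1) (η : ℝ) (hη : 0 < η) :
    ∀ᶠ m in atTop, ∀ Z ∈ HD R, ‖fm Φ U x p e r0 m Z + 1 / Z‖ ≤ η ∧
      ‖deriv (fm Φ U x p e r0 m) Z - 1 / Z ^ 2‖ ≤ η := by
  obtain ⟨c1, c2, -, -, -, -, c7⟩ := cay_facts
  obtain ⟨R1, hR1⟩ : ∃ R1 : ℝ, R1 = (1 + R) / 2 := ⟨_, rfl⟩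
  have hR1a : R < R1 := by linarith
  have hR1b : R1 < 1 := by linarith
  have hR1c : 0 < R1 := by linarith
  obtain ⟨κ, hκd⟩ : ∃ κ : ℝ, κ = 1 - R1 := ⟨_, rfl⟩
  have hκ : 0 < κ := by linarith
  have hκ1 : κ ≤ 1 := by linarith
  obtain ⟨ε, hεd⟩ : ∃ ε : ℝ, ε = min (R1 - R) (η * κ ^ 4 / 20) := ⟨_, rfl⟩
  have hε : 0 < ε := by
    rw [hεd]
    exact lt_min (by linarith) (by positivity)
  have hε1 : ε ≤ R1 - R := by rw [hεd]; exact min_le_left _ _
  have hε2 : ε ≤ η * κ ^ 4 / 20 := by rw [hεd]; exact min_le_right _ _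
  obtain ⟨t1, t2⟩ := transfer_hyp S hr0 hq hq'
  obtain ⟨-, hrig⟩ := rigid_limit (fun m ξ => cay (fm Φ U x p e r0 m (icay ξ)))
    (fun m ξ => cay (hm U x r0 m (icay ξ))) t1 t2
  have hinv : Tendsto (fun m => (deriv (hm U x r0 m) I)⁻¹) atTop (𝓝 (-1)) := by
    have := hE.inv₀ (by norm_num)
    have h3 : ((-1 : ℂ))⁻¹ = -1 := by norm_num
    rwa [h3] at this
  have hinv2 : ∀ᶠ m in atTop, ‖(deriv (hm U x r0 m) I)⁻¹ - (-1)‖ < ε / 2 := by
    have := (Metric.tendsto_nhds.1 hinv) (ε / 2) (by linarith)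
    filter_upwards [this] with m hm
    rwa [dist_eq_norm] at hm
  filter_upwards [hrig R1 hR1c hR1b (ε / 2) (by linarith), hinv2,
    fm_upper S hr0 hq hq' R h0 h1, hm_facts S hr0 hq hq' R h0 h1] with m hm1 hm2 hm3 hm4
  obtain ⟨hfI, hf⟩ := hm3
  obtain ⟨hhI, hh, -⟩ := hm4
  have hIH : I ∈ HD R := by
    refine ⟨by simp, ?_⟩
    unfold cay
    simp [h0]
  have hG0 : deriv (fun ξ => cay (hm U x r0 m (icay ξ))) 0 = deriv (hm U x r0 m) I := by
    have h5 := hh I hIH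
    have h6 := D2o_chain (hm U x r0 m) 0 (by simp) (by rw [c7]; exact h5.2.1)
      (by rw [c7]; exact h5.1)
    rw [h6, c7, hhI]
    have h7 : (I + I : ℂ) ≠ 0 := by
      rw [← two_mul]
      simp
    have hI : (I : ℂ) ≠ 0 := Complex.I_ne_zero
    rw [sub_zero, one_pow, div_one, ← two_mul]
    field_simp
  intro Z hZ
  obtain ⟨hZpos, hZc⟩ := hZ
  have hc1 : ‖cay Z‖ < R1 := lt_of_le_of_lt hZc hR1a
  have hic : icay (cay Z) = Z := (c1 Z hZpos).2
  obtain ⟨-, -, g3, g4⟩ := hm1 (cay Z) (by simpa using hc1)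
  have hfZ := hf Z ⟨hZpos, hZc⟩
  rw [hG0] at g3 g4
  have hch := D2o_chain (fm Φ U x p e r0 m) (cay Z) (hc1.trans hR1b)
    (by rw [hic]; exact hfZ.2) (by rw [hic]; exact hfZ.1)
  rw [hic] at hch
  simp only [hic] at g3
  have hbc : ‖cay (fm Φ U x p e r0 m Z) + cay Z‖ ≤ ε := by
    have h5 : cay (fm Φ U x p e r0 m Z) + cay Z =
        (cay (fm Φ U x p e r0 m Z) - (deriv (hm U x r0 m) I)⁻¹ * cay Z) +
          ((deriv (hm U x r0 m) I)⁻¹ - (-1)) * cay Z := by ring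
    rw [h5]
    refine (norm_add_le _ _).trans ?_
    have h6 : ‖((deriv (hm U x r0 m) I)⁻¹ - (-1)) * cay Z‖ ≤ ε / 2 := by
      rw [norm_mul]
      have h7 := norm_nonneg ((deriv (hm U x r0 m) I)⁻¹ - (-1))
      have h8 : ‖cay Z‖ ≤ 1 := by linarith
      nlinarith
    linarith
  have hD : ‖deriv (fun ξ => cay (fm Φ U x p e r0 m (icay ξ))) (cay Z) + 1‖ ≤ ε := by
    have h5 : deriv (fun ξ => cay (fm Φ U x p e r0 m (icay ξ))) (cay Z) + 1 =
        (deriv (fun ξ => cay (fm Φ U x p e r0 m (icay ξ))) (cay Z) -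
          (deriv (hm U x r0 m) I)⁻¹) + ((deriv (hm U x r0 m) I)⁻¹ - (-1)) := by ring
    rw [h5]
    refine (norm_add_le _ _).trans ?_
    linarith
  have hb : ‖cay (fm Φ U x p e r0 m Z)‖ ≤ 1 - κ := by
    have h5 : cay (fm Φ U x p e r0 m Z) = (cay (fm Φ U x p e r0 m Z) + cay Z) - cay Z := by ring
    rw [h5]
    refine (norm_sub_le _ _).trans ?_
    linarith
  exact D2o_est hκ hκ1 hη hε2 (by linarith) hb hic.symm ((c1 _ hfZ.1).2).symm hbc hD hch

end CF6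

end

section

open Complex MeasureTheory Set Filter Topology Metric intervalIntegral

namespace CF6

private lemma contact_left {a b : ℝ} {O : Set ℝ} (hO : IsOpen O) (hsub : O ⊆ Ioo a b) {s : ℝ}
    (hs : s ∈ O) : ∃ c ∈ Icc a b, c ∉ O ∧ c < s ∧ Ioc c s ⊆ O := by
  have hsab := hsub hs
  have haO : a ∉ O := fun h => lt_irrefl a (hsub h).1
  have hcomp : IsCompact (Icc a s ∩ Oᶜ) := isCompact_Icc.inter_right hO.isClosed_compl
  obtain ⟨c, hc, hc'⟩ := hcomp.exists_isGreatest ⟨a, ⟨le_rfl, hsab.1.le⟩, haO⟩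
  have hcs : c < s := lt_of_le_of_ne hc.1.2 (fun h => hc.2 (h ▸ hs))
  refine ⟨c, ⟨hc.1.1, hcs.le.trans hsab.2.le⟩, hc.2, hcs, ?_⟩
  intro x hx
  by_contra hxO
  have := hc' ⟨⟨hc.1.1.trans hx.1.le, hx.2⟩, hxO⟩
  linarith [hx.1]

private lemma contact_const {a b : ℝ} {O : Set ℝ} {f : ℝ → ℂ}
    (hf : ContinuousOn f (Icc a b)) (hconst : ∀ s ∈ O, ∀ᶠ s' in 𝓝 s, f s' = f s) {c s : ℝ}
    (hc : c ∈ Icc a b) (hcs : c < s) (hs : s ∈ Icc a b) (hcO : Ioc c s ⊆ O) : f c = f s := by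
  have h1 : ∀ c' ∈ Ioc c s, f c' = f s := by
    intro c' hc'
    have h2 : ContinuousOn f (Icc c' s) := hf.mono (Icc_subset_Icc (hc.1.trans hc'.1.le) hs.2)
    have h3 : ∀ x ∈ Ico c' s, HasDerivWithinAt f 0 (Ici x) x := by
      intro x hx
      have hx' : x ∈ O := hcO ⟨lt_of_lt_of_le hc'.1 hx.1, hx.2.le⟩
      have h4 : HasDerivAt f 0 x :=
        (hasDerivAt_const x (f x)).congr_of_eventuallyEq (hconst x hx')
      exact h4.hasDerivWithinAt
    exact (constant_of_has_deriv_right_zero h2 h3 s ⟨hc'.2, le_rfl⟩).symm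
  have h5 : Tendsto f (𝓝[Ioc c s] c) (𝓝 (f c)) :=
    (hf c hc).mono_left (nhdsWithin_mono c (fun x hx => ⟨hc.1.trans hx.1.le, hx.2.trans hs.2⟩))
  have h6 : Tendsto f (𝓝[Ioc c s] c) (𝓝 (f s)) := by
    apply tendsto_const_nhds.congr'
    filter_upwards [self_mem_nhdsWithin] with x hx
    exact (h1 x hx).symm
  have hne : (𝓝[Ioc c s] c).NeBot := by
    rw [nhdsWithin_Ioc_eq_nhdsGT hcs]
    infer_instance
  exact tendsto_nhds_unique h5 h6

/-- E.4a (about 60 lines): contact points have `q ∈ K`. -/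
theorem PathData.contact {K : Set ℂ} {Φ ρ : ℂ → ℂ} (hK : Collar K Φ ρ) {a b : ℝ} {u q : ℝ → ℂ}
    {O : Set ℝ} (H : PathData Φ a b u q O) : ∀ s ∈ Icc a b, (u s).im = 0 → q s ∈ K := by
  have main : ∀ s ∈ Icc a b, s ∉ O → (u s).im = 0 → q s ∈ K := by
    intro s hs hsO him
    by_contra hq
    obtain ⟨un, hun, hlim, hΦ⟩ := H.approx
    have h1 : Tendsto (fun n => Φ (un n s)) atTop (𝓝 (q s)) :=
      hΦ s hs hsO (fun _ => s) (fun _ => hs) tendsto_const_nhds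
    have h2 : Tendsto (fun n => ρ (Φ (un n s))) atTop (𝓝 (ρ (q s))) :=
      ((hK.dRho.differentiableAt (hK.closed.isOpen_compl.mem_nhds hq)).continuousAt.tendsto).comp h1
    have h3 : Tendsto (fun n => un n s) atTop (𝓝 (u s)) := hlim.tendsto_at hs
    have h4 : Tendsto (fun n => exp (I * un n s)) atTop (𝓝 (exp (I * u s))) :=
      (Complex.continuous_exp.tendsto _).comp (h3.const_mul I)
    have h5 : (fun n => ρ (Φ (un n s))) = fun n => exp (I * un n s) := by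
      funext n
      exact hK.left _ ((hun n).2 s hs)
    rw [h5] at h2
    have h6 := tendsto_nhds_unique h2 h4
    have h7 : ‖exp (I * u s)‖ = 1 := by
      rw [Complex.norm_exp]
      have : (I * u s).re = 0 := by simp [him]
      rw [this, Real.exp_zero]
    have h8 := hK.maps hq
    rw [mem_ball_zero_iff, h6, h7] at h8
    exact lt_irrefl _ h8
  intro s hs him
  by_cases hsO : s ∈ O
  · obtain ⟨c, hc, hcO, hcs, hcsO⟩ := contact_left H.Oopen H.Osub hsO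
    have e1 : u c = u s := contact_const H.cu (fun s hs => (H.Oconst s hs).mono fun _ h => h.1)
      hc hcs hs hcsO
    have e2 : q c = q s := contact_const H.cq (fun s hs => (H.Oconst s hs).mono fun _ h => h.2)
      hc hcs hs hcsO
    rw [← e2]
    exact main c hc hcO (by rw [e1]; exact him)
  · exact main s hs hsO him

end CF6

end
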