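import Pool.Agent.Lib.MP_cf6b16_an.DE2
import Pool.Agent.Lib.MP_cf6b16_an.DE3
import Pool.Agent.Lib.MP_cf6b16_an.DE4
import Pool.Agent.Lib.MP_cf6b16_an.DE5

section

open Complex MeasureTheory Set Filter Topology Metric

namespace CF6

/-- D2 main theorem. -/
theorem isogonal_of_sector {K : Set ℂ} {Φ U : ℂ → ℂ} {x : ℝ} {p e : ℂ} {C0 y1 : ℝ}
    (S : Sector K Φ U x p e C0 y1) : Isogonal Φ x p e := by
  obtain ⟨r0, hr0, hq, hq'⟩ := exists_r0 S
  have hrec := hm_succ S hr0 hq hq'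
  obtain ⟨hE1, hE2, hE3⟩ := recursion S hr0 hq hq'
  have hE : Tendsto (fun m => deriv (hm U x r0 m) I) atTop (𝓝 (-1)) :=
    dynamics _ (qm U x r0) (fun m => hm U x r0 m (I / 4)) hE1 hE2 hE3 hq
      (hrec.mono fun m h => h.1) hq'
  obtain ⟨g1, g2, g3⟩ := growth _ (qm U x r0) (fun m => hm U x r0 m (I / 4)) hE hE3 hq
    (hrec.mono fun m h => h.1)
  exact isogonal_end S hr0 hq hq'
    (fun R h0 h1 η hη => fm_tendsto S hr0 hq hq' hE R h0 h1 η hη) g1 g2 g3

end CF6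

end

section

open Complex MeasureTheory Set Filter Topology Metric

namespace CF6

/-- contact values belong to `K` -/
private lemma contact_mem {K : Set ℂ} {Φ ρ : ℂ → ℂ} (hK : Collar K Φ ρ)
    {a b t : ℝ} {u q : ℝ → ℂ} {un : ℕ → ℝ → ℂ} (ht : t ∈ Icc a b)
    (hun : ∀ n, ContinuousOn (un n) (Icc a b) ∧ ∀ s ∈ Icc a b, 0 < (un n s).im)
    (hlim : TendstoUniformlyOn un u atTop (Icc a b))
    (hlim' : TendstoUniformlyOn (fun n s => Φ (un n s)) q atTop (Icc a b))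
    (h0 : (u t).im = 0) : q t ∈ K := by
  by_contra hq
  have h1 : Tendsto (fun n => un n t) atTop (𝓝 (u t)) := hlim.tendsto_at ht
  have h2 : Tendsto (fun n => Φ (un n t)) atTop (𝓝 (q t)) := hlim'.tendsto_at ht
  have hcont : ContinuousAt ρ (q t) :=
    (hK.dRho.continuousOn).continuousAt (hK.closed.isOpen_compl.mem_nhds hq)
  have h3 : Tendsto (fun n => ρ (Φ (un n t))) atTop (𝓝 (ρ (q t))) := hcont.tendsto.comp h2
  have h4 : Tendsto (fun n => exp (I * un n t)) atTop (𝓝 (exp (I * u t))) :=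
    ((continuous_exp.comp (continuous_const.mul continuous_id)).tendsto (u t)).comp h1
  have h5 : (fun n => ρ (Φ (un n t))) = fun n => exp (I * un n t) := by
    funext n
    exact hK.left _ ((hun n).2 t ht)
  rw [h5] at h3
  have h6 := tendsto_nhds_unique h3 h4
  have h7 : ‖ρ (q t)‖ < 1 := by simpa using hK.maps hq
  rw [h6, Complex.norm_exp] at h7
  simp [h0] at h7

private lemma choose_times {a b t0 : ℝ} (hat : a < t0) (htb : t0 < b) {q : ℝ → ℂ} {Z : Set ℝ}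
    {v : ℂ} (hd : HasDerivAt q v t0) (hv : v ≠ 0)
    (dens : ∀ η > (0 : ℝ), ∃ r > (0 : ℝ), ∀ x y : ℝ, x < y → |x - t0| < r → |y - t0| < r →
      η * (|x - t0| + |y - t0|) ≤ y - x → (Z ∩ Ioo x y).Nonempty) :
    ∃ s > (0 : ℝ), a ≤ t0 - s ∧ t0 + s ≤ b ∧
      (∀ t, |t - t0| ≤ s → ‖q t - q t0 - v * (t - t0)‖ ≤ (1 / 10) * ‖v‖ * |t - t0|) ∧
      ∃ t1 ∈ Z, ∃ t1' ∈ Z, ∃ t2' ∈ Z, ∃ t2 ∈ Z, t0 - s < t1 ∧ t1 < t0 - 3 * s / 4 ∧
        t0 - s / 2 < t1' ∧ t1' < t0 - s / 4 ∧ t0 + s / 4 < t2' ∧ t2' < t0 + s / 2 ∧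
        t0 + 3 * s / 4 < t2 ∧ t2 < t0 + s := by
  have hv' : 0 < ‖v‖ := norm_pos_iff.2 hv
  obtain ⟨r, hr, hdens⟩ := dens (1 / 10) (by norm_num)
  have h1 := (hasDerivAt_iff_isLittleO.1 hd).bound (show (0 : ℝ) < (1 / 10) * ‖v‖ by positivity)
  obtain ⟨d, hd0, hd1⟩ := Metric.eventually_nhds_iff.1 h1
  obtain ⟨s, hs0, hs1⟩ : ∃ s : ℝ, 0 < s ∧ s < min (min r d) (min (t0 - a) (b - t0)) := by
    have : 0 < min (min r d) (min (t0 - a) (b - t0)) := by
      refine lt_min (lt_min hr hd0) (lt_min (by linarith) (by linarith))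
    exact exists_between this
  have hs2 : s < r := lt_of_lt_of_le hs1 ((min_le_left _ _).trans (min_le_left _ _))
  have hs3 : s < d := lt_of_lt_of_le hs1 ((min_le_left _ _).trans (min_le_right _ _))
  have hs4 : s < t0 - a := lt_of_lt_of_le hs1 ((min_le_right _ _).trans (min_le_left _ _))
  have hs5 : s < b - t0 := lt_of_lt_of_le hs1 ((min_le_right _ _).trans (min_le_right _ _))
  refine ⟨s, hs0, by linarith, by linarith, ?_, ?_⟩
  · intro t ht
    have := hd1 (y := t) (by rw [Real.dist_eq]; linarith)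
    rw [Real.norm_eq_abs] at this
    have h2 : q t - q t0 - v * ((t : ℂ) - t0) = q t - q t0 - (t - t0) • v := by
      rw [real_smul]; push_cast; ring
    rw [h2]
    exact this
  · obtain ⟨t1, h1Z, h11, h12⟩ := hdens (t0 - s) (t0 - 3 * s / 4) (by linarith)
      (by rw [abs_lt]; constructor <;> linarith) (by rw [abs_lt]; constructor <;> linarith)
      (by
        rw [show t0 - s - t0 = -s by ring, abs_neg, abs_of_pos hs0,
          show t0 - 3 * s / 4 - t0 = -(3 * s / 4) by ring, abs_neg, abs_of_pos (by linarith)]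
        linarith)
    obtain ⟨t1', h1Z', h11', h12'⟩ := hdens (t0 - s / 2) (t0 - s / 4) (by linarith)
      (by rw [abs_lt]; constructor <;> linarith) (by rw [abs_lt]; constructor <;> linarith)
      (by
        rw [show t0 - s / 2 - t0 = -(s / 2) by ring, abs_neg, abs_of_pos (by linarith),
          show t0 - s / 4 - t0 = -(s / 4) by ring, abs_neg, abs_of_pos (by linarith)]
        linarith)
    obtain ⟨t2', h2Z', h21', h22'⟩ := hdens (t0 + s / 4) (t0 + s / 2) (by linarith)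
      (by rw [abs_lt]; constructor <;> linarith) (by rw [abs_lt]; constructor <;> linarith)
      (by
        rw [show t0 + s / 2 - t0 = (s / 2) by ring, abs_of_pos (by linarith),
          show t0 + s / 4 - t0 = (s / 4) by ring, abs_of_pos (by linarith)]
        linarith)
    obtain ⟨t2, h2Z, h21, h22⟩ := hdens (t0 + 3 * s / 4) (t0 + s) (by linarith)
      (by rw [abs_lt]; constructor <;> linarith) (by rw [abs_lt]; constructor <;> linarith)
      (by
        rw [show t0 + s - t0 = s by ring, abs_of_pos hs0,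
          show t0 + 3 * s / 4 - t0 = (3 * s / 4) by ring, abs_of_pos (by linarith)]
        linarith)
    exact ⟨t1, h1Z, t1', h1Z', t2', h2Z', t2, h2Z, h11, h12, h11', h12', h21', h22', h21, h22⟩

private lemma u_ne {q u : ℝ → ℂ} {v : ℂ} {t0 s t t' : ℝ} (hv : v ≠ 0)
    (hlin : ∀ t, |t - t0| ≤ s → ‖q t - q t0 - v * (t - t0)‖ ≤ (1 / 10) * ‖v‖ * |t - t0|)
    (ht : |t - t0| ≤ s) (ht' : |t' - t0| ≤ s) (hs : 0 < s) (h : s / 4 ≤ t' - t)
    (fib : exp (I * u t) = exp (I * u t') → q t = q t') : u t ≠ u t' := by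
  intro he
  have h1 := fib (by rw [he])
  have hv' : 0 < ‖v‖ := norm_pos_iff.2 hv
  have e1 : v * ((t' - t : ℝ) : ℂ) = (q t - q t0 - v * (t - t0)) - (q t' - q t0 - v * (t' - t0)) := by
    rw [h1]; push_cast; ring
  have e2 : ‖v‖ * |t' - t| ≤ (1 / 10) * ‖v‖ * |t - t0| + (1 / 10) * ‖v‖ * |t' - t0| := by
    have := congrArg norm e1
    rw [norm_mul, Complex.norm_real, Real.norm_eq_abs] at this
    rw [this]
    exact (norm_sub_le _ _).trans (add_le_add (hlin t ht) (hlin t' ht'))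
  rw [abs_of_pos (by linarith : 0 < t' - t)] at e2
  have e3 : ‖v‖ * (t' - t) ≤ ‖v‖ * ((1 / 5) * s) := by
    nlinarith
  have e4 := le_of_mul_le_mul_left e3 hv'
  linarith

/-- D1.13 (about 250 lines) assembly: choose the four contact times, normalise (`t ↦ t0 + (t - t0)/|v|`, `w ↦ (w - p)/v̂`),
build `Closing`, apply D1.7 - D1.12 and `isogonal_of_sector`. -/
theorem isogonal_of_path' {K : Set ℂ} {Φ ρ : ℂ → ℂ} (hK : Collar K Φ ρ) (hA : FinArea Φ)
    {a b t0 : ℝ}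
    (hat : a < t0) (htb : t0 < b) {u q : ℝ → ℂ} {Z : Set ℝ} {un : ℕ → ℝ → ℂ}
    (cu : ContinuousOn u (Icc a b)) (cq : ContinuousOn q (Icc a b))
    (hun : ∀ n, ContinuousOn (un n) (Icc a b) ∧ ∀ s ∈ Icc a b, 0 < (un n s).im)
    (hlim : TendstoUniformlyOn un u atTop (Icc a b))
    (hlim' : TendstoUniformlyOn (fun n s => Φ (un n s)) q atTop (Icc a b))
    {v : ℂ} (hd : HasDerivAt q v t0) (hv : v ≠ 0) (hZ : Z ⊆ Icc a b)
    (hZ0 : ∀ t ∈ Z, (u t).im = 0) (ht0 : t0 ∈ Z)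
    (dens : ∀ η > (0 : ℝ), ∃ r > (0 : ℝ), ∀ x y : ℝ, x < y → |x - t0| < r → |y - t0| < r →
      η * (|x - t0| + |y - t0|) ≤ y - x → (Z ∩ Ioo x y).Nonempty)
    (fib : ∀ t ∈ Z, ∀ t' ∈ Z, exp (I * u t) = exp (I * u t') → q t = q t') :
    ∃ e : ℂ, ‖e‖ = 1 ∧ Isogonal Φ (u t0).re (q t0) e := by
  have hqK : ∀ t ∈ Z, q t ∈ K := fun t ht => contact_mem hK (hZ ht) hun hlim hlim' (hZ0 t ht)
  have hv' : 0 < ‖v‖ := norm_pos_iff.2 hv
  obtain ⟨s, hs, has, hsb, hlin, t1, h1Z, t1', h1Z', t2', h2Z', t2, h2Z, b1, b2, b3, b4, b5, b6,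
    b7, b8⟩ := choose_times hat htb hd hv dens
  set p := q t0 with hp
  have hpK : p ∈ K := hqK t0 ht0
  have d1 : u t1 ≠ u t1' := u_ne hv hlin (by rw [abs_le]; constructor <;> linarith)
    (by rw [abs_le]; constructor <;> linarith) hs (by linarith) (fib t1 h1Z t1' h1Z')
  have d2 : u t2' ≠ u t2 := u_ne hv hlin (by rw [abs_le]; constructor <;> linarith)
    (by rw [abs_le]; constructor <;> linarith) hs (by linarith) (fib t2' h2Z' t2 h2Z)
  have hne : ∀ t, |t - t0| ≤ s → t ≠ t0 → q t ≠ p := by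
    intro t ht hne he
    have h1 := hlin t ht
    rw [he, sub_self, zero_sub, norm_neg, norm_mul, show ((t : ℂ) - t0) = ((t - t0 : ℝ) : ℂ) by
      push_cast; ring, Complex.norm_real, Real.norm_eq_abs] at h1
    have h2 : 0 < |t - t0| := abs_pos.2 (sub_ne_zero.2 hne)
    have h3 : 0 < ‖v‖ * |t - t0| := by positivity
    nlinarith
  obtain ⟨R, hR, hev⟩ := closed_curves hK hA (a := a) (b := b) (u := u) (q := q) (un := un) cu cq
    hun hlim hlim' hpK (t1 := t1) (t1' := t1') (t2' := t2') (t2 := t2)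
    (by linarith) (by linarith) (by linarith) (by linarith) (by linarith) (hZ0 _ h1Z)
    (hZ0 _ h1Z') (hZ0 _ h2Z') (hZ0 _ h2Z) d1 d2
    (fun t ht => hne t (by rw [abs_le]; constructor <;> linarith [ht.1, ht.2])
      (by linarith [ht.1, ht.2] : t < t0).ne)
    (fun t ht => hne t (by rw [abs_le]; constructor <;> linarith [ht.1, ht.2])
      (by linarith [ht.1, ht.2] : t0 < t).ne')
  obtain ⟨N, hN⟩ := eventually_atTop.1 hev
  have hN' : ∀ n, ∃ s1 ∈ Icc t1 t1', ∃ s2 ∈ Icc t2' t2, ∃ l : ℝ → ℂ,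
      ContinuousOn l (Icc 0 1) ∧ l 0 = l 1 ∧ (∀ t ∈ Icc (0 : ℝ) 1, 0 < (l t).im) ∧
      (∀ t ∈ Icc (0 : ℝ) (1 / 2), l t = un (n + N) (s1 + 2 * t * (s2 - s1))) ∧
      (∀ t ∈ Icc (1 / 2 : ℝ) 1, R ≤ ‖Φ (l t) - p‖) := fun n => hN (n + N) (by omega)
  choose s1 hs1 s2 hs2 l cl hl01 hlp hl1 hl2 using hN'
  -- the normalised situation
  set K' : Set ℂ := {w | p + v * w ∈ K} with hK'
  set q' : ℝ → ℂ := fun t => (q t - p) / v with hq'
  set Q : ℕ → ℝ → ℂ := fun n t => (Φ (un (n + N) t) - p) / v with hQ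
  set c : ℕ → ℝ → ℂ := fun n t => (Φ (l n t) - p) / v with hc
  have hΦc : ContinuousOn Φ UHP := hK.dPhi.continuousOn
  have hsub : Icc (t0 - s) (t0 + s) ⊆ Icc a b := Icc_subset_Icc has hsb
  have H : Closing K' (R / ‖v‖) (t0 - s) (t0 + s) t0 q' Q c s1 s2 := by
    refine ⟨by positivity, by simpa [hK'] using hpK, ⟨by linarith, by linarith⟩, by simp [hq', hp],
      ?_, ?_, ?_, ?_, ?_, ?_, ?_, ?_, ?_, ?_, ?_⟩
    · have := (hd.sub_const p).div_const v
      rwa [div_self hv] at this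
    · intro t ht
      have h1 := hlin t (by rw [abs_le]; constructor <;> linarith [ht.1, ht.2])
      have h2 : q' t - (t - t0) = (q t - p - v * (t - t0)) / v := by
        simp only [hq']; field_simp
      rw [h2, norm_div, div_le_iff₀ hv']
      linarith
    · intro n
      refine ContinuousOn.div_const (ContinuousOn.sub ?_ continuousOn_const) _
      exact hΦc.comp (((hun _).1).mono hsub) (fun t ht => (hun _).2 t (hsub ht))
    · have h1 : TendstoUniformlyOn (fun n s => Φ (un (n + N) s)) q atTop (Icc (t0 - s) (t0 + s)) := by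
        intro V hV
        have h2 := (hlim'.mono hsub) V hV
        exact (tendsto_add_atTop_nat N).eventually h2
      rw [Metric.tendstoUniformlyOn_iff] at h1 ⊢
      intro ε hε
      filter_upwards [h1 (ε * ‖v‖) (by positivity)] with n hn t ht
      have h2 := hn t ht
      rw [dist_eq_norm] at h2 ⊢
      have h3 : q' t - Q n t = (q t - Φ (un (n + N) t)) / v := by
        simp only [hq', hQ]; field_simp; ring
      rw [h3, norm_div, div_lt_iff₀ hv']
      exact h2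
    · intro n
      refine ⟨ContinuousOn.div_const (ContinuousOn.sub ?_ continuousOn_const) _, ?_⟩
      · exact hΦc.comp (cl n) (fun t ht => hlp n t ht)
      · simp only [hc, hl01 n]
    · intro n t ht
      simp only [hK', hc, mem_setOf_eq]
      rw [mul_div_cancel₀ _ hv]
      rw [show p + (Φ (l n t) - p) = Φ (l n t) by ring]
      exact hK.mem _ (hlp n t ht)
    · intro n k hk k' hk'
      have := sameWind_of_lift hK (cl n) (hl01 n) (hlp n) hk hk' p v hv
      simpa [hc, hv] using this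
    · exact ⟨s / 4, by positivity, fun n => ⟨by linarith [(hs1 n).1], by linarith [(hs1 n).2]⟩⟩
    · exact ⟨s / 4, by positivity, fun n => ⟨by linarith [(hs2 n).1], by linarith [(hs2 n).2]⟩⟩
    · intro n t ht
      simp only [hc, hQ, hl1 n t ht]
    · intro n t ht
      simp only [hc, norm_div]
      exact div_le_div_of_nonneg_right (hl2 n t ht) hv'.le
  obtain ⟨y1, hy1, hside⟩ := exists_side H
  obtain ⟨y0, hy0, hy0'⟩ : ∃ y0 : ℝ, 0 < y0 ∧ y0 < min (min y1 (R / ‖v‖ / 10)) (s / 40) :=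
    exists_between (lt_min (lt_min hy1 (by positivity)) (by positivity))
  have c1 : y0 < y1 := lt_of_lt_of_le hy0' ((min_le_left _ _).trans (min_le_left _ _))
  have c2 : 10 * y0 < R / ‖v‖ := by
    have := lt_of_lt_of_le hy0' ((min_le_left _ _).trans (min_le_right _ _))
    linarith
  have c3 : y0 < s / 40 := lt_of_lt_of_le hy0' (min_le_right _ _)
  have c4 : ∀ n, 10 * y0 < t0 - s1 n ∧ 10 * y0 < s2 n - t0 := fun n =>
    ⟨by linarith [(hs1 n).2], by linarith [(hs2 n).1]⟩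
  obtain ⟨σ, hσ, hfr⟩ := hside y0 hy0 c1
  have hfree := fun η hη => free_sector H hy0 c2 c4 hσ hfr η hη
  have hdesc := fun y h0 h1 δ hδ => descent H hy0 c2 c4 hσ hfr y h0 h1 δ hδ
  have hσ2 : σ * σ = 1 := by rcases hσ with h | h <;> rw [h] <;> norm_num
  have hσ2' : (σ : ℂ) * σ = 1 := by exact_mod_cast congrArg (fun x : ℝ => (x : ℂ)) hσ2
  have hσn : ‖(σ : ℂ)‖ = 1 := by
    rw [Complex.norm_real, Real.norm_eq_abs]; rcases hσ with h | h <;> rw [h] <;> norm_num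
  set e : ℂ := σ * (v / ‖v‖) with he
  have hvn : (‖v‖ : ℂ) ≠ 0 := by exact_mod_cast hv'.ne'
  have hen : ‖e‖ = 1 := by
    rw [he, norm_mul, hσn, norm_div, Complex.norm_real, norm_norm, one_mul, div_self hv'.ne']
  have hee : e = v / ‖v‖ ∨ e = -(v / ‖v‖) := by
    rcases hσ with h | h
    · left; rw [he, h]; simp
    · right; rw [he, h]; simp
  have hew : ∀ w : ℂ, e * w = v * (σ * w / ‖v‖) := fun w => by rw [he]; field_simp
  have hfree' : ∀ η > (0 : ℝ), ∃ r > (0 : ℝ), ∀ w : ℂ, ‖w‖ < r → η * ‖w‖ < w.im →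
      p + e * w ∉ K := by
    intro η hη
    obtain ⟨r, hr, hr'⟩ := hfree η hη
    refine ⟨r * ‖v‖, by positivity, fun w hw hw' => ?_⟩
    have h1 : ‖(σ * w / ‖v‖ : ℂ)‖ = ‖w‖ / ‖v‖ := by
      rw [norm_div, norm_mul, hσn, one_mul, Complex.norm_real, norm_norm]
    have h2 : σ * (σ * w / ‖v‖ : ℂ).im = w.im / ‖v‖ := by
      rw [show (σ * w / ‖v‖ : ℂ) = ((σ / ‖v‖ : ℝ) : ℂ) * w by push_cast; ring,
        Complex.im_ofReal_mul]
      rw [← mul_assoc, ← mul_div_assoc, hσ2]; ring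
    have h3 := hr' (σ * w / ‖v‖) (by rw [h1, div_lt_iff₀ hv']; exact hw)
      (by rw [h1, h2, ← mul_div_assoc]; exact (div_lt_div_iff_of_pos_right hv').2 hw')
    rw [hew]
    exact h3
  have hdense := dense_of_times hd hv hqK dens e hee
  -- the limit along the axis
  have hu0 : ((u t0).re : ℂ) = u t0 := by
    apply Complex.ext <;> simp [hZ0 t0 ht0]
  have haxis : Tendsto (fun y : ℝ => ρ (p + e * (I * y))) (𝓝[>] 0)
      (𝓝 (exp (I * (u t0).re))) := by
    rw [Metric.tendsto_nhds]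
    intro η hη
    obtain ⟨d, hd0, hW⟩ := wolff hK (‖p‖ + 1) (η / 2) (by positivity)
    have hexp : ContinuousAt (fun z : ℂ => exp (I * z)) (u t0) :=
      (continuous_exp.comp (continuous_const.mul continuous_id)).continuousAt
    obtain ⟨δ1, hδ1, hδ1'⟩ := Metric.continuousAt_iff.1 hexp (η / 2) (by positivity)
    have hcu : ContinuousAt u t0 := cu.continuousAt (Icc_mem_nhds hat htb)
    obtain ⟨δ, hδ, hδ'⟩ := Metric.continuousAt_iff.1 hcu (δ1 / 2) (by positivity)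
    have hun' := (Metric.tendstoUniformlyOn_iff.1 hlim) (δ1 / 2) (by positivity)
    obtain ⟨N1, hN1⟩ := eventually_atTop.1 hun'
    have hev : ∀ᶠ y : ℝ in 𝓝[>] 0, y < y0 * ‖v‖ ∧ y < 1 ∧ 2 * y < d := by
      have : ∀ᶠ y : ℝ in 𝓝 0, y < y0 * ‖v‖ ∧ y < 1 ∧ 2 * y < d := by
        refine (eventually_lt_nhds (by positivity)).and ((eventually_lt_nhds one_pos).and ?_)
        filter_upwards [eventually_lt_nhds (show (0 : ℝ) < d / 2 by positivity)] with y hy
        linarith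
      exact nhdsWithin_le_nhds this
    filter_upwards [hev, self_mem_nhdsWithin] with y ⟨h1, h2, h3⟩ hy
    have hy : 0 < y := hy
    have hfq := hdesc (y / ‖v‖) (by positivity) (by rw [div_lt_iff₀ hv']; exact h1) δ hδ
    obtain ⟨n, ⟨t, ht, htd, S, hS, hSK, hS1, hS2, hS3⟩, hn⟩ :=
      (hfq.and_eventually (eventually_ge_atTop N1)).exists
    have htab : t ∈ Icc a b := hsub ht
    have hpre : IsPreconnected ((fun w => p + v * w) '' S) :=
      hS.image _ (by fun_prop)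
    have hnorm : ∀ w ∈ S, ‖v * w‖ ≤ y := by
      intro w hw
      have h4 := hS3 hw
      rw [mem_closedBall, dist_zero_right, le_div_iff₀ hv'] at h4
      rw [norm_mul, mul_comm]
      exact h4
    have hsubK : (fun w => p + v * w) '' S ⊆ Kᶜ ∩ closedBall 0 (‖p‖ + 1) := by
      rintro _ ⟨w, hw, rfl⟩
      refine ⟨fun hk => (Set.disjoint_left.1 hSK hw) hk, ?_⟩
      rw [mem_closedBall, dist_zero_right]
      have := norm_add_le p (v * w)
      linarith [hnorm w hw]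
    have hdiam : ∀ x ∈ (fun w => p + v * w) '' S, ∀ y ∈ (fun w => p + v * w) '' S,
        dist x y ≤ d := by
      rintro _ ⟨w, hw, rfl⟩ _ ⟨w', hw', rfl⟩
      rw [dist_eq_norm]
      have : p + v * w - (p + v * w') = v * w - v * w' := by ring
      simp only [this]
      have h5 := norm_sub_le (v * w) (v * w')
      linarith [hnorm w hw, hnorm w' hw']
    have hmem1 : p + e * (I * y) ∈ (fun w => p + v * w) '' S := by
      refine ⟨_, hS1, ?_⟩
      simp only
      rw [hew]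
      push_cast
      field_simp
    have hmem2 : Φ (un (n + N) t) ∈ (fun w => p + v * w) '' S := by
      refine ⟨_, hS2, ?_⟩
      simp only [hQ]
      rw [mul_div_cancel₀ _ hv]
      ring
    have hd1 := hW _ hsubK hpre hdiam _ hmem1 _ hmem2
    rw [hK.left _ ((hun (n + N)).2 t htab)] at hd1
    have hd2 : dist (exp (I * un (n + N) t)) (exp (I * u t0)) < η / 2 := by
      apply hδ1'
      have e1 := hN1 (n + N) (by omega) t htab
      have e2 := hδ' (x := t) (by rw [Real.dist_eq]; exact htd)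
      rw [dist_comm] at e1
      linarith [dist_triangle (un (n + N) t) (u t) (u t0)]
    rw [hu0]
    linarith [dist_triangle (ρ (p + e * (I * y))) (exp (I * un (n + N) t)) (exp (I * u t0))]
  have hlim2 := sector_limit hK hen hfree' haxis
  obtain ⟨C0, hC0, hKo⟩ := exists_koebe
  obtain ⟨y2, hy2, hKo2⟩ := hKo K Φ ρ hK
  obtain ⟨U, hU⟩ := sector_mk hK (by linarith) hy2 hKo2 hen hpK hfree' hdense hlim2
  exact ⟨e, hen, isogonal_of_sector hU⟩

end CF6

end

section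

open Complex MeasureTheory Set Filter Topology Metric

open scoped ENNReal

namespace CF6

/-- density points in the form needed for `isogonal_of_path'` -/
private theorem D3d_density (S : Set ℝ) : ∀ᵐ t : ℝ, t ∈ S → ∀ η > (0 : ℝ), ∃ r > (0 : ℝ),
    ∀ x y : ℝ, x < y → |x - t| < r → |y - t| < r → η * (|x - t| + |y - t|) ≤ y - x →
      (S ∩ Ioo x y).Nonempty := by
  have h0 := ae_imp_of_ae_restrict (Besicovitch.ae_tendsto_measure_inter_div (volume : Measure ℝ) S)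
  filter_upwards [h0] with t ht htS η hη
  have h1 := ht htS
  set η' : ℝ := min η 1 with hη'
  have hη'0 : 0 < η' := lt_min hη one_pos
  have hη'1 : η' ≤ 1 := min_le_right _ _
  have h2 : ∀ᶠ r in 𝓝[>] (0 : ℝ), ENNReal.ofReal (1 - η' / 4) <
      volume (S ∩ closedBall t r) / volume (closedBall t r) := by
    refine h1.eventually (lt_mem_nhds ?_)
    rw [← ENNReal.ofReal_one]
    exact (ENNReal.ofReal_lt_ofReal_iff one_pos).2 (by linarith)
  obtain ⟨r0, hr0, hr⟩ := mem_nhdsGT_iff_exists_Ioo_subset.1 h2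
  have hr0' : 0 < r0 := hr0
  refine ⟨r0, hr0', fun x y hxy hx hy hle => ?_⟩
  by_contra hemp
  rw [Set.not_nonempty_iff_eq_empty] at hemp
  set R : ℝ := max |x - t| |y - t| with hR
  have hRpos : 0 < R := by
    by_contra hneg
    rw [not_lt] at hneg
    have e1 : |x - t| ≤ 0 := (le_max_left _ _).trans hneg
    have e2 : |y - t| ≤ 0 := (le_max_right _ _).trans hneg
    have e3 : x - t = 0 := abs_nonpos_iff.1 e1
    have e4 : y - t = 0 := abs_nonpos_iff.1 e2
    linarith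
  have hRr : R < r0 := max_lt hx hy
  have h3 : ENNReal.ofReal (1 - η' / 4) <
      volume (S ∩ closedBall t R) / volume (closedBall t R) := hr ⟨hRpos, hRr⟩
  have hxR : |x - t| ≤ R := le_max_left _ _
  have hyR : |y - t| ≤ R := le_max_right _ _
  obtain ⟨hx1, hx2⟩ := abs_le.1 hxR
  obtain ⟨hy1, hy2⟩ := abs_le.1 hyR
  have hRle : R ≤ |x - t| + |y - t| := by
    rw [hR]
    exact max_le (by linarith [abs_nonneg (y - t)]) (by linarith [abs_nonneg (x - t)])
  have hlen : η' * R ≤ y - x := by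
    have e1 : η' * R ≤ η * R := mul_le_mul_of_nonneg_right (min_le_left _ _) hRpos.le
    have e2 : η * R ≤ η * (|x - t| + |y - t|) := mul_le_mul_of_nonneg_left hRle hη.le
    linarith
  have hsub : S ∩ closedBall t R ⊆ Icc (t - R) x ∪ Icc y (t + R) := by
    rintro z ⟨hzS, hzR⟩
    rw [Real.closedBall_eq_Icc] at hzR
    by_cases hz : z ≤ x
    · exact Or.inl ⟨hzR.1, hz⟩
    · by_cases hz2 : y ≤ z
      · exact Or.inr ⟨hz2, hzR.2⟩
      · exfalso
        have : z ∈ S ∩ Ioo x y := ⟨hzS, not_le.1 hz, not_le.1 hz2⟩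
        rw [hemp] at this
        exact this
  have hvol : volume (S ∩ closedBall t R) ≤ ENNReal.ofReal ((1 - η' / 4) * (2 * R)) := by
    calc volume (S ∩ closedBall t R) ≤ volume (Icc (t - R) x ∪ Icc y (t + R)) := measure_mono hsub
      _ ≤ volume (Icc (t - R) x) + volume (Icc y (t + R)) := measure_union_le _ _
      _ = ENNReal.ofReal (x - (t - R)) + ENNReal.ofReal (t + R - y) := by
          rw [Real.volume_Icc, Real.volume_Icc]
      _ = ENNReal.ofReal (x - (t - R) + (t + R - y)) :=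
          (ENNReal.ofReal_add (by linarith) (by linarith)).symm
      _ ≤ ENNReal.ofReal ((1 - η' / 4) * (2 * R)) := by
          refine ENNReal.ofReal_le_ofReal ?_
          nlinarith [mul_pos hη'0 hRpos]
  have hball : volume (closedBall t R) = ENNReal.ofReal (2 * R) := Real.volume_closedBall t R
  rw [hball] at h3
  have h4 : volume (S ∩ closedBall t R) / ENNReal.ofReal (2 * R) ≤ ENNReal.ofReal (1 - η' / 4) := by
    rw [ENNReal.div_le_iff (by
      rw [Ne, ENNReal.ofReal_eq_zero, not_le]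
      positivity) ENNReal.ofReal_ne_top, ← ENNReal.ofReal_mul (by linarith)]
    exact hvol
  exact absurd h3 (not_lt.2 h4)

/-- almost everywhere differentiability along the line -/
private theorem D3d_deriv {Ω : Set ℂ} (hΩ : IsOpen Ω) {h : ℂ → ℂ} (z0 e : ℂ) (d : ℝ → ℂ)
    (hd : ∀ a b : ℝ, a ≤ b → (∀ t ∈ Icc a b, z0 + t * e ∈ Ω) →
      IntervalIntegrable d volume a b ∧ h (z0 + b * e) - h (z0 + a * e) = ∫ t in a..b, d t) :
    ∀ᵐ t : ℝ, z0 + t * e ∈ Ω → HasDerivAt (fun s : ℝ => h (z0 + s * e)) (d t) t := by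
  have h1 : ∀ᵐ t : ℝ, ∀ p : ℚ × ℚ, (p.1 : ℝ) ≤ p.2 →
      (∀ s ∈ Icc (p.1 : ℝ) p.2, z0 + s * e ∈ Ω) → t ∈ Ioo (p.1 : ℝ) p.2 →
        HasDerivAt (fun s : ℝ => h (z0 + s * e)) (d t) t := by
    rw [ae_all_iff]
    rintro ⟨a, b⟩
    by_cases hab : (a : ℝ) ≤ b ∧ ∀ s ∈ Icc (a : ℝ) b, z0 + s * e ∈ Ω
    · have h2 := (hd a b hab.1 hab.2).1.ae_hasDerivAt_integral
      filter_upwards [h2] with t ht _ _ htab
      have htI : t ∈ uIcc (a : ℝ) b := by
        rw [uIcc_of_le hab.1]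
        exact Ioo_subset_Icc_self htab
      have h3 := ht htI a left_mem_uIcc
      have h4 : HasDerivAt (fun s : ℝ => h (z0 + (a : ℝ) * e) + ∫ x in (a : ℝ)..s, d x) (d t) t :=
        h3.const_add _
      refine h4.congr_of_eventuallyEq ?_
      filter_upwards [Ioo_mem_nhds htab.1 htab.2] with s hs
      have h5 := (hd a s hs.1.le (fun x hx => hab.2 x ⟨hx.1, hx.2.trans hs.2.le⟩)).2
      rw [← h5]
      ring
    · refine Filter.Eventually.of_forall fun t g1 g2 => absurd ⟨g1, g2⟩ hab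
  filter_upwards [h1] with t ht htΩ
  have hcont : Continuous fun s : ℝ => z0 + s * e := by fun_prop
  have h2 : (fun s : ℝ => z0 + s * e) ⁻¹' Ω ∈ 𝓝 t := (hΩ.preimage hcont).mem_nhds htΩ
  obtain ⟨ε, hε, hball⟩ := Metric.mem_nhds_iff.1 h2
  obtain ⟨a, ha1, ha2⟩ := exists_rat_btwn (show t - ε < t by linarith)
  obtain ⟨b, hb1, hb2⟩ := exists_rat_btwn (show t < t + ε by linarith)
  refine ht (a, b) (by linarith) (fun s hs => hball ?_) ⟨ha2, hb1⟩
  rw [Real.ball_eq_Ioo]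
  exact ⟨lt_of_lt_of_le ha1 hs.1, lt_of_le_of_lt hs.2 hb2⟩

/-- the local lift near the point `c0` of the unit circle -/
private noncomputable def D3dL (x0 : ℝ) (c0 w : ℂ) : ℂ := x0 - I * log (w / c0)

private theorem D3d_ball {c0 w : ℂ} (hc0 : ‖c0‖ = 1) (hw : w ∈ closedBall c0 (1 / 2)) :
    w / c0 ∈ slitPlane ∧ w ≠ 0 := by
  have hc : c0 ≠ 0 := by
    intro h
    rw [h, norm_zero] at hc0
    exact zero_ne_one hc0
  rw [mem_closedBall, dist_eq_norm] at hw
  have h1 : ‖(w - c0) / c0‖ < 1 := by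
    rw [norm_div, hc0, div_one]
    linarith
  have h2 : w / c0 = 1 + (w - c0) / c0 := by
    field_simp
    ring
  constructor
  · rw [h2]
    exact mem_slitPlane_of_norm_lt_one h1
  · rintro rfl
    rw [zero_sub, norm_neg, hc0] at hw
    norm_num at hw

private theorem D3d_exp {x0 : ℝ} {c0 w : ℂ} (hc0 : ‖c0‖ = 1) (hx0 : exp (I * x0) = c0)
    (hw : w ∈ closedBall c0 (1 / 2)) : exp (I * D3dL x0 c0 w) = w := by
  obtain ⟨h1, h2⟩ := D3d_ball hc0 hw
  have hc : c0 ≠ 0 := by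
    rw [← hx0]
    exact exp_ne_zero _
  have h3 : I * D3dL x0 c0 w = I * x0 + log (w / c0) := by
    rw [D3dL, mul_sub, ← mul_assoc, I_mul_I]
    ring
  rw [h3, exp_add, hx0, exp_log (div_ne_zero h2 hc)]
  field_simp

private theorem D3d_im {x0 : ℝ} {c0 w : ℂ} (hc0 : ‖c0‖ = 1) :
    (D3dL x0 c0 w).im = -Real.log ‖w‖ := by
  rw [D3dL, sub_im, ofReal_im, mul_im, I_re, I_im, log_re, norm_div, hc0, div_one]
  ring

private theorem D3d_cont {x0 : ℝ} {c0 : ℂ} (hc0 : ‖c0‖ = 1) :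
    ContinuousOn (D3dL x0 c0) (closedBall c0 (1 / 2)) := by
  refine ContinuousOn.sub continuousOn_const (ContinuousOn.mul continuousOn_const ?_)
  exact ContinuousOn.clog (by fun_prop) (fun w hw => (D3d_ball hc0 hw).1)

/-- D3.4 (about 250 lines). One line `t ↦ z0 + t e`. `h`, `ht`, `g` along the line; at almost every time `t` with
`‖g‖ = 1`, not hidden, derivative `≠ 0`: `h(z0 + t e)` has the derivative `d t` (Lebesgue), `t` is a density point of the non hidden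
contact times; local lifts `u = x - i log(g e^{-ix})`, `un = x - i log(ρ(hj) e^{-ix})`; `isogonal_of_path'`. -/
theorem iso_line {Ω K O : Set ℂ} {Φ ρ : ℂ → ℂ} (hK : Collar K Φ ρ) (hA : FinArea Φ)
    {h g ht : ℂ → ℂ} {hj : ℕ → ℂ → ℂ} (H : LimData Ω K ρ h g hj) (hn : Normal Ω K O h g ht)
    (z0 e : ℂ) (he : ‖e‖ = 1) (d : ℝ → ℂ)
    (hd : ∀ a b : ℝ, a ≤ b → (∀ t ∈ Icc a b, z0 + t * e ∈ Ω) →
      IntervalIntegrable d volume a b ∧ h (z0 + b * e) - h (z0 + a * e) = ∫ t in a..b, d t) :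
    ∀ᵐ t : ℝ, z0 + t * e ∈ Ω → ‖g (z0 + t * e)‖ = 1 → z0 + t * e ∉ O → d t ≠ 0 →
      IsoAt Φ (g (z0 + t * e)) (ht (z0 + t * e)) := by
  obtain ⟨hbh, hbg, hbn, hbK, hbρ⟩ := H.basic hK
  have hcont : Continuous fun s : ℝ => z0 + s * e := by fun_prop
  filter_upwards [D3d_density {t : ℝ | z0 + t * e ∈ Ω ∧ ‖g (z0 + t * e)‖ = 1 ∧ z0 + t * e ∉ O},
    D3d_deriv H.Oopen z0 e d hd] with t0 hdens hder htΩ htg htO hdne
  have hdens' := hdens ⟨htΩ, htg, htO⟩
  have hder' := hder htΩ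
  set c0 : ℂ := g (z0 + t0 * e) with hc0
  set x0 : ℝ := arg c0 with hx0
  have hexp0 : exp (I * x0) = c0 := by
    have := norm_mul_exp_arg_mul_I c0
    rw [htg, ofReal_one, one_mul] at this
    rw [mul_comm]
    exact this
  -- the interval
  have hnh : {t : ℝ | z0 + t * e ∈ Ω ∧ g (z0 + t * e) ∈ ball c0 (1 / 4)} ∈ 𝓝 t0 := by
    have h1 : (fun s : ℝ => z0 + s * e) ⁻¹' Ω ∈ 𝓝 t0 := (H.Oopen.preimage hcont).mem_nhds htΩ
    have h2 : ContinuousAt (fun s : ℝ => g (z0 + s * e)) t0 := by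
      have h3 : ContinuousAt g (z0 + t0 * e) := hbg.continuousAt (H.Oopen.mem_nhds htΩ)
      exact ContinuousAt.comp (f := fun s : ℝ => z0 + s * e) (x := t0) h3 hcont.continuousAt
    have h3 : ∀ᶠ s : ℝ in 𝓝 t0, g (z0 + s * e) ∈ ball c0 (1 / 4) :=
      h2.eventually (ball_mem_nhds _ (by norm_num))
    filter_upwards [h1, h3] with s g1 g2
    exact ⟨g1, g2⟩
  obtain ⟨ε, hε, hball⟩ := Metric.mem_nhds_iff.1 hnh
  set a : ℝ := t0 - ε / 2 with ha
  set b : ℝ := t0 + ε / 2 with hb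
  have hab : ∀ s ∈ Icc a b, z0 + s * e ∈ Ω ∧ g (z0 + s * e) ∈ ball c0 (1 / 4) := by
    intro s hs
    refine hball ?_
    rw [Real.ball_eq_Ioo]
    exact ⟨by linarith [hs.1], by linarith [hs.2]⟩
  have hat : a < t0 := by linarith
  have htb : t0 < b := by linarith
  have hmaps : MapsTo (fun s : ℝ => z0 + s * e) (Icc a b) Ω := fun s hs => (hab s hs).1
  have hcpt : IsCompact ((fun s : ℝ => z0 + s * e) '' Icc a b) :=
    isCompact_Icc.image hcont
  have hsubΩ : (fun s : ℝ => z0 + s * e) '' Icc a b ⊆ Ω := by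
    rintro _ ⟨s, hs, rfl⟩
    exact (hab s hs).1
  -- uniform limits along the line
  have hlimh : TendstoUniformlyOn (fun j (s : ℝ) => hj j (z0 + s * e)) (fun s => h (z0 + s * e))
      atTop (Icc a b) := by
    have h1 := (tendstoLocallyUniformlyOn_iff_forall_isCompact H.Oopen).1 H.lim _ hsubΩ hcpt
    exact (h1.comp (fun s : ℝ => z0 + s * e)).mono (subset_preimage_image _ _)
  have hlimg : TendstoUniformlyOn (fun j (s : ℝ) => ρ (hj j (z0 + s * e)))
      (fun s => g (z0 + s * e)) atTop (Icc a b) := by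
    have h1 := (tendstoLocallyUniformlyOn_iff_forall_isCompact H.Oopen).1 H.glim _ hsubΩ hcpt
    exact (h1.comp (fun s : ℝ => z0 + s * e)).mono (subset_preimage_image _ _)
  obtain ⟨N, hN⟩ := eventually_atTop.1 (Metric.tendstoUniformlyOn_iff.1 hlimg (1 / 4) (by norm_num))
  have hgb : ∀ s ∈ Icc a b, g (z0 + s * e) ∈ closedBall c0 (1 / 2) := fun s hs =>
    ball_subset_closedBall (ball_subset_ball (by norm_num) (hab s hs).2)
  have hρb : ∀ n, ∀ s ∈ Icc a b, ρ (hj (n + N) (z0 + s * e)) ∈ closedBall c0 (1 / 2) := by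
    intro n s hs
    have h1 := hN (n + N) (Nat.le_add_left _ _) s hs
    have h2 := (hab s hs).2
    rw [mem_ball] at h2
    rw [mem_closedBall]
    have h3 := dist_triangle (ρ (hj (n + N) (z0 + s * e))) (g (z0 + s * e)) c0
    rw [dist_comm] at h1
    linarith
  have hρlt : ∀ n, ∀ s ∈ Icc a b, ‖ρ (hj (n + N) (z0 + s * e))‖ < 1 := by
    intro n s hs
    have h1 := hK.maps (H.avoid (n + N) (hab s hs).1)
    rwa [mem_ball_zero_iff] at h1
  have him : ∀ n, ∀ s ∈ Icc a b, 0 < (D3dL x0 c0 (ρ (hj (n + N) (z0 + s * e)))).im := by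
    intro n s hs
    rw [D3d_im htg]
    have h1 := (D3d_ball htg (hρb n s hs)).2
    have h2 := Real.log_neg (norm_pos_iff.2 h1) (hρlt n s hs)
    linarith
  have hΦ : ∀ n, ∀ s ∈ Icc a b,
      Φ (D3dL x0 c0 (ρ (hj (n + N) (z0 + s * e)))) = hj (n + N) (z0 + s * e) := by
    intro n s hs
    have h1 : D3dL x0 c0 (ρ (hj (n + N) (z0 + s * e))) ∈ UHP := him n s hs
    refine hK.inj (hK.mem _ h1) (H.avoid (n + N) (hab s hs).1) ?_
    rw [hK.left _ h1]
    exact D3d_exp htg hexp0 (hρb n s hs)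
  have cq : ContinuousOn (fun s : ℝ => h (z0 + s * e)) (Icc a b) :=
    hbh.comp hcont.continuousOn hmaps
  have cu : ContinuousOn (fun s : ℝ => D3dL x0 c0 (g (z0 + s * e))) (Icc a b) :=
    (D3d_cont htg).comp (hbg.comp hcont.continuousOn hmaps) hgb
  have hρc : ContinuousOn ρ Kᶜ := hK.dRho.continuousOn
  have cun : ∀ n, ContinuousOn (fun s : ℝ => D3dL x0 c0 (ρ (hj (n + N) (z0 + s * e)))) (Icc a b) := by
    intro n
    refine (D3d_cont htg).comp ?_ (hρb n)
    refine hρc.comp ((H.chj (n + N)).comp hcont.continuousOn hmaps) ?_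
    intro s hs
    exact H.avoid (n + N) (hab s hs).1
  have hlim : TendstoUniformlyOn (fun n (s : ℝ) => D3dL x0 c0 (ρ (hj (n + N) (z0 + s * e))))
      (fun s => D3dL x0 c0 (g (z0 + s * e))) atTop (Icc a b) := by
    have huc : UniformContinuousOn (D3dL x0 c0) (closedBall c0 (1 / 2)) :=
      (isCompact_closedBall c0 (1 / 2)).uniformContinuousOn_of_continuous (D3d_cont htg)
    have h1 : TendstoUniformlyOn (fun n (s : ℝ) => ρ (hj (n + N) (z0 + s * e)))
        (fun s => g (z0 + s * e)) atTop (Icc a b) := fun V hV =>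
      (tendsto_add_atTop_nat N).eventually (hlimg V hV)
    exact huc.comp_tendstoUniformlyOn_eventually (Filter.Eventually.of_forall hρb) hgb h1
  have hlim' : TendstoUniformlyOn
      (fun n (s : ℝ) => Φ (D3dL x0 c0 (ρ (hj (n + N) (z0 + s * e)))))
      (fun s => h (z0 + s * e)) atTop (Icc a b) := by
    have h1 : TendstoUniformlyOn (fun n (s : ℝ) => hj (n + N) (z0 + s * e))
        (fun s => h (z0 + s * e)) atTop (Icc a b) := fun V hV =>
      (tendsto_add_atTop_nat N).eventually (hlimh V hV)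
    refine h1.congr (Filter.Eventually.of_forall fun n s hs => ?_)
    exact (hΦ n s hs).symm
  have him0 : ∀ s ∈ Icc a b, ‖g (z0 + s * e)‖ = 1 → (D3dL x0 c0 (g (z0 + s * e))).im = 0 := by
    intro s hs h1
    rw [D3d_im htg, h1, Real.log_one, neg_zero]
  have hmain := isogonal_of_path' hK hA hat htb (u := fun s : ℝ => D3dL x0 c0 (g (z0 + s * e)))
    (q := fun s : ℝ => h (z0 + s * e))
    (Z := {s : ℝ | s ∈ Icc a b ∧ ‖g (z0 + s * e)‖ = 1 ∧ z0 + s * e ∉ O})
    (un := fun n (s : ℝ) => D3dL x0 c0 (ρ (hj (n + N) (z0 + s * e))))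
    cu cq (fun n => ⟨cun n, him n⟩) hlim hlim' hder' hdne (fun s hs => hs.1)
    (fun s hs => him0 s hs.1 hs.2.1) ⟨⟨hat.le, htb.le⟩, htg, htO⟩ (by
      intro η hη
      obtain ⟨r, hr, hr2⟩ := hdens' η hη
      refine ⟨min r (ε / 2), lt_min hr (by positivity), fun x y hxy hx hy hle => ?_⟩
      obtain ⟨s, hs, hs2⟩ := hr2 x y hxy (hx.trans_le (min_le_left _ _))
        (hy.trans_le (min_le_left _ _)) hle
      have hx' := abs_lt.1 (hx.trans_le (min_le_right _ _))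
      have hy' := abs_lt.1 (hy.trans_le (min_le_right _ _))
      refine ⟨s, ⟨⟨?_, ?_⟩, hs.2⟩, hs2⟩
      · linarith [hx'.1, hs2.1]
      · linarith [hy'.2, hs2.2]) (by
      intro t ht1 t' ht2 heq
      rw [D3d_exp htg hexp0 (hgb t ht1.1), D3d_exp htg hexp0 (hgb t' ht2.1)] at heq
      have h1 := hn.fib _ (hab t ht1.1).1 _ (hab t' ht2.1).1 ht1.2.1 heq
      rw [hn.eqh _ (hab t ht1.1).1 ht1.2.2, hn.eqh _ (hab t' ht2.1).1 ht2.2.2] at h1
      exact h1)
  obtain ⟨e', he', hiso⟩ := hmain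
  have ht0I : t0 ∈ Icc a b := ⟨hat.le, htb.le⟩
  refine ⟨(D3dL x0 c0 (g (z0 + t0 * e))).re, e', ?_, he', ?_⟩
  · have h1 : (((D3dL x0 c0 (g (z0 + t0 * e))).re : ℝ) : ℂ) = D3dL x0 c0 (g (z0 + t0 * e)) := by
      apply Complex.ext
      · rw [ofReal_re]
      · rw [ofReal_im, him0 t0 ht0I htg]
    rw [h1]
    exact (D3d_exp htg hexp0 (hgb t0 ht0I)).symm
  · rw [hn.eqh _ htΩ htO]
    exact hiso

end CF6

end

section

open Complex MeasureTheory Set Filter Topology Metric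

open scoped ENNReal

namespace CF6

/-! ### null sets and slices -/

theorem d3e_ver_slice {N : Set ℂ} (hN : volume N = 0) :
    ∀ᵐ x : ℝ, ∀ᵐ t : ℝ, (⟨x, t⟩ : ℂ) ∉ N := by
  have h1 : ∀ᵐ z : ℂ, z ∉ N := measure_eq_zero_iff_ae_notMem.1 hN
  have h2 : ∀ᵐ p : ℝ × ℝ, Complex.measurableEquivRealProd.symm p ∉ N :=
    (Complex.volume_preserving_equiv_real_prod.symm).quasiMeasurePreserving.ae h1
  exact Measure.ae_ae_of_ae_prod h2

theorem d3e_hor_slice {N : Set ℂ} (hN : volume N = 0) :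
    ∀ᵐ y : ℝ, ∀ᵐ t : ℝ, (⟨t, y⟩ : ℂ) ∉ N := by
  have h1 : ∀ᵐ z : ℂ, z ∉ N := measure_eq_zero_iff_ae_notMem.1 hN
  have h2 : ∀ᵐ p : ℝ × ℝ, Complex.measurableEquivRealProd.symm p ∉ N :=
    (Complex.volume_preserving_equiv_real_prod.symm).quasiMeasurePreserving.ae h1
  have h3 : ∀ᵐ p : ℝ × ℝ, Complex.measurableEquivRealProd.symm p.swap ∉ N :=
    (Measure.measurePreserving_swap (μ := (volume : Measure ℝ))
      (ν := (volume : Measure ℝ))).quasiMeasurePreserving.ae h2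
  exact Measure.ae_ae_of_ae_prod h3

theorem d3e_ver_null {B : Set ℂ} (hB : MeasurableSet B)
    (h : ∀ᵐ x : ℝ, ∀ᵐ t : ℝ, (⟨x, t⟩ : ℂ) ∉ B) : volume B = 0 := by
  rw [← (Complex.volume_preserving_equiv_real_prod.symm).measure_preimage hB.nullMeasurableSet]
  refine Measure.measure_prod_null_of_ae_null
    (Complex.measurableEquivRealProd.symm.measurable hB) ?_
  filter_upwards [h] with x hx
  exact measure_eq_zero_iff_ae_notMem.2 hx

theorem d3e_hor_null {B : Set ℂ} (hB : MeasurableSet B)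
    (h : ∀ᵐ y : ℝ, ∀ᵐ t : ℝ, (⟨t, y⟩ : ℂ) ∉ B) : volume B = 0 := by
  rw [← (Complex.volume_preserving_equiv_real_prod.symm).measure_preimage hB.nullMeasurableSet]
  have hm := Complex.measurableEquivRealProd.symm.measurable hB
  have e1 := (Measure.measurePreserving_swap (μ := (volume : Measure ℝ))
    (ν := (volume : Measure ℝ))).measure_preimage hm.nullMeasurableSet
  rw [Measure.volume_eq_prod, ← e1]
  refine Measure.measure_prod_null_of_ae_null (measurable_swap hm) ?_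
  filter_upwards [h] with x hx
  exact measure_eq_zero_iff_ae_notMem.2 hx

/-- convergence to zero is a measurable condition -/
theorem d3e_meas {α : Type*} [MeasurableSpace α] (f : ℕ → α → ℝ≥0∞) (hf : ∀ n, Measurable (f n)) :
    MeasurableSet {z | Tendsto (fun n => f n z) atTop (𝓝 0)} := by
  have h1 : {z | Tendsto (fun n => f n z) atTop (𝓝 0)} =
      {z | limsup (fun n => f n z) atTop = 0} := by
    ext z
    simp only [Set.mem_ofPred_eq]
    constructor
    · intro h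
      exact h.limsup_eq
    · intro h
      exact tendsto_of_le_liminf_of_limsup_le zero_le h.le
  rw [h1]
  exact (Measurable.limsup hf) (measurableSet_singleton 0)

/-! ### periodicity -/

theorem d3e_per {K : Set ℂ} {Φ ρ : ℂ → ℂ} (hK : Collar K Φ ρ) (k : ℤ) (u : ℂ) (hu : 0 < u.im) :
    Φ (u + k * (2 * Real.pi)) = Φ u := by
  have him : (u + k * (2 * Real.pi)).im = u.im := by
    simp
  have hu' : u + k * (2 * Real.pi) ∈ UHP := by
    change 0 < (u + k * (2 * Real.pi)).im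
    rw [him]
    exact hu
  refine hK.inj (hK.mem _ hu') (hK.mem _ hu) ?_
  rw [hK.left _ hu', hK.left _ hu]
  rw [Complex.exp_eq_exp_iff_exists_int]
  exact ⟨k, by ring⟩

theorem d3e_per_deriv {K : Set ℂ} {Φ ρ : ℂ → ℂ} (hK : Collar K Φ ρ) (k : ℤ) (u : ℂ)
    (hu : 0 < u.im) : deriv Φ (u + k * (2 * Real.pi)) = deriv Φ u := by
  rw [← deriv_comp_add_const]
  refine EventuallyEq.deriv_eq ?_
  have h1 : {z : ℂ | 0 < z.im} ∈ 𝓝 u := (isOpen_lt continuous_const Complex.continuous_im).mem_nhds hu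
  filter_upwards [h1] with z hz
  exact d3e_per hK k z hz

theorem d3e_iso_per {K : Set ℂ} {Φ ρ : ℂ → ℂ} (hK : Collar K Φ ρ) (k : ℤ) (x : ℝ) (p e : ℂ)
    (h : Isogonal Φ x p e) : Isogonal Φ (x + k * (2 * Real.pi)) p e := by
  intro L hL η hη
  obtain ⟨δ, hδ, H⟩ := h L hL η hη
  refine ⟨δ, hδ, fun u hu hu' hux => ?_⟩
  have him : (u + (-k : ℤ) * (2 * Real.pi)).im = u.im := by simp
  have hre : (u + (-k : ℤ) * (2 * Real.pi)).re = u.re - k * (2 * Real.pi) := by
    simp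
    ring
  have e1 := H (u + (-k : ℤ) * (2 * Real.pi)) (by rw [him]; exact hu) (by rw [him]; exact hu') (by
    rw [him, hre]
    have : u.re - k * (2 * Real.pi) - x = u.re - (x + k * (2 * Real.pi)) := by ring
    rw [this]
    exact hux)
  rw [d3e_per hK _ _ hu, d3e_per_deriv hK _ _ hu] at e1
  exact e1

theorem d3e_iso_lim {Φ : ℂ → ℂ} {x : ℝ} {p e : ℂ} (h : Isogonal Φ x p e) :
    Tendsto (fun n : ℕ => Φ (x + I * (1 / ((n : ℝ) + 1) : ℝ))) atTop (𝓝 p) := by
  rw [Metric.tendsto_atTop]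
  intro ε hε
  obtain ⟨δ, hδ, H⟩ := h 1 one_pos (ε / 2) (by positivity)
  obtain ⟨N, hN⟩ := exists_nat_one_div_lt hδ
  refine ⟨N, fun n hn => ?_⟩
  have him : ((x : ℂ) + I * (1 / ((n : ℝ) + 1) : ℝ)).im = 1 / ((n : ℝ) + 1) := by
    rw [Complex.add_im, Complex.ofReal_im, Complex.I_mul_im, Complex.ofReal_re, zero_add]
  have hre : ((x : ℂ) + I * (1 / ((n : ℝ) + 1) : ℝ)).re = x := by
    rw [Complex.add_re, Complex.ofReal_re, Complex.I_mul_re, Complex.ofReal_im, neg_zero, add_zero]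
  have hpos : (0 : ℝ) < 1 / ((n : ℝ) + 1) := by positivity
  have hlt : 1 / ((n : ℝ) + 1) < δ := by
    refine lt_of_le_of_lt ?_ hN
    have : (N : ℝ) ≤ n := by exact_mod_cast hn
    exact one_div_le_one_div_of_le (by positivity) (by linarith)
  have e1 := (H _ (by rw [him]; exact hpos) (by rw [him]; exact hlt) (by
    rw [him, hre, sub_self, abs_zero, one_mul]
    exact hpos.le)).1
  rw [dist_eq_norm]
  linarith

/-- `IsoAt` in terms of the argument -/
theorem d3e_isoAt_iff {K : Set ℂ} {Φ ρ : ℂ → ℂ} (hK : Collar K Φ ρ) (ζ p : ℂ) (hζ : ‖ζ‖ = 1) :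
    IsoAt Φ ζ p ↔ (∀ L : ℕ, Tendsto (fun n => osc Φ L n (arg ζ)) atTop (𝓝 0)) ∧
      Tendsto (fun n : ℕ => edist (Φ (arg ζ + I * (1 / ((n : ℝ) + 1) : ℝ))) p) atTop (𝓝 0) := by
  have hζ' : ζ = exp (I * arg ζ) := by
    have h1 := Complex.norm_mul_exp_arg_mul_I ζ
    rw [hζ, Complex.ofReal_one, one_mul] at h1
    rw [mul_comm]
    exact h1.symm
  rw [← isogonal_iff_osc hK, ← tendsto_iff_edist_tendsto_0]
  constructor
  · rintro ⟨x, e, hx, he, hiso⟩
    have h1 : exp (I * arg ζ) = exp (I * x) := by rw [← hζ', hx]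
    rw [Complex.exp_eq_exp_iff_exists_int] at h1
    obtain ⟨k, hk⟩ := h1
    have h2 : arg ζ = x + k * (2 * Real.pi) := by
      have h3 : (arg ζ : ℂ) = ((x + k * (2 * Real.pi) : ℝ) : ℂ) := by
        have h4 : I * (arg ζ : ℂ) = I * ((x + k * (2 * Real.pi) : ℝ) : ℂ) := by
          rw [hk]
          push_cast
          ring
        exact mul_left_cancel₀ Complex.I_ne_zero h4
      exact_mod_cast h3
    have h5 := d3e_iso_per hK k x p e hiso
    rw [← h2] at h5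
    exact ⟨⟨p, e, he, h5⟩, d3e_iso_lim h5⟩
  · rintro ⟨⟨p', e, he, hiso⟩, hlim⟩
    have h1 := tendsto_nhds_unique hlim (d3e_iso_lim hiso)
    rw [h1]
    exact ⟨arg ζ, e, hζ', he, hiso⟩

/-- Fubini step for a family of parallel lines -/
theorem d3e_fub {Ω O : Set ℂ} {K : Set ℂ} {Φ ρ g ht hx : ℂ → ℂ} (hK : Collar K Φ ρ)
    (hΩ : IsOpen Ω) (hO : IsOpen O) (cg : ContinuousOn g Ω) (cht : ContinuousOn ht Ω)
    (hm : AEStronglyMeasurable hx (volume.restrict Ω)) (φ : ℝ → ℝ → ℂ)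
    (hs : ∀ N : Set ℂ, volume N = 0 → ∀ᵐ y : ℝ, ∀ᵐ t : ℝ, φ y t ∉ N)
    (hf : ∀ B : Set ℂ, MeasurableSet B → (∀ᵐ y : ℝ, ∀ᵐ t : ℝ, φ y t ∉ B) → volume B = 0)
    (h : ∀ᵐ y : ℝ, ∀ᵐ t : ℝ, φ y t ∈ Ω → ‖g (φ y t)‖ = 1 → φ y t ∉ O → hx (φ y t) ≠ 0 →
      IsoAt Φ (g (φ y t)) (ht (φ y t))) :
    ∀ᵐ z ∂(volume.restrict Ω), ‖g z‖ = 1 → z ∉ O → hx z ≠ 0 → IsoAt Φ (g z) (ht z) := by
  obtain ⟨hx', hm', hxx'⟩ := hm
  -- the measurable version of the exceptional set
  have hgm : Measurable (fun z : Ω => g z) :=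
    (continuousOn_iff_continuous_domRestrict.1 cg).measurable
  have htm : Measurable (fun z : Ω => ht z) :=
    (continuousOn_iff_continuous_domRestrict.1 cht).measurable
  have hxm : Measurable (fun z : Ω => hx' z) := hm'.measurable.comp measurable_subtype_coe
  have hargm : Measurable (fun z : Ω => arg (g z)) := Complex.measurable_arg.comp hgm
  have hA1 : MeasurableSet {z : Ω | ‖g z‖ = 1} := hgm.norm (measurableSet_singleton 1)
  have hA2 : MeasurableSet {z : Ω | (z : ℂ) ∉ O} := (measurable_subtype_coe hO.measurableSet).compl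
  have hA3 : MeasurableSet {z : Ω | hx' z ≠ 0} := (hxm (measurableSet_singleton 0)).compl
  have hA4 : MeasurableSet {z : Ω | ∀ L : ℕ,
      Tendsto (fun n => osc Φ L n (arg (g z))) atTop (𝓝 0)} := by
    have e1 : {z : Ω | ∀ L : ℕ, Tendsto (fun n => osc Φ L n (arg (g z))) atTop (𝓝 0)} =
        ⋂ L : ℕ, {z : Ω | Tendsto (fun n => osc Φ L n (arg (g z))) atTop (𝓝 0)} := by
      ext z
      simp
    rw [e1]
    exact MeasurableSet.iInter fun L =>
      d3e_meas (fun n (z : Ω) => osc Φ L n (arg (g z))) fun n => (measurable_osc Φ L n).comp hargm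
  have hA5 : MeasurableSet {z : Ω | Tendsto (fun n : ℕ =>
      edist (Φ (arg (g z) + I * (1 / ((n : ℝ) + 1) : ℝ))) (ht z)) atTop (𝓝 0)} := by
    refine d3e_meas (fun (n : ℕ) (z : Ω) =>
      edist (Φ (arg (g z) + I * (1 / ((n : ℝ) + 1) : ℝ))) (ht z)) fun n => ?_
    have e1 : Continuous fun x : ℝ => Φ (x + I * (1 / ((n : ℝ) + 1) : ℝ)) := by
      refine hK.dPhi.continuousOn.comp_continuous (by fun_prop) fun x => ?_
      change 0 < ((x : ℂ) + I * (1 / ((n : ℝ) + 1) : ℝ)).im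
      rw [Complex.add_im, Complex.ofReal_im, Complex.I_mul_im, Complex.ofReal_re, zero_add]
      positivity
    exact (e1.measurable.comp hargm).edist htm
  set B' : Set ℂ := Subtype.val '' ({z : Ω | ‖g z‖ = 1} ∩ {z : Ω | (z : ℂ) ∉ O} ∩
    {z : Ω | hx' z ≠ 0} ∩ ({z : Ω | ∀ L : ℕ,
      Tendsto (fun n => osc Φ L n (arg (g z))) atTop (𝓝 0)} ∩ {z : Ω | Tendsto (fun n : ℕ =>
      edist (Φ (arg (g z) + I * (1 / ((n : ℝ) + 1) : ℝ))) (ht z)) atTop (𝓝 0)})ᶜ) with hB'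
  have hB'm : MeasurableSet B' :=
    hΩ.measurableSet.subtype_image (((hA1.inter hA2).inter hA3).inter (hA4.inter hA5).compl)
  have hB'iff : ∀ z, z ∈ B' → z ∈ Ω ∧ ‖g z‖ = 1 ∧ z ∉ O ∧ hx' z ≠ 0 ∧ ¬ IsoAt Φ (g z) (ht z) := by
    rintro _ ⟨z, ⟨⟨⟨h1, h2⟩, h3⟩, h4⟩, rfl⟩
    refine ⟨z.2, h1, h2, h3, fun h5 => h4 ?_⟩
    exact (d3e_isoAt_iff hK _ _ h1).1 h5
  have hB'iff' : ∀ z, z ∈ Ω → ‖g z‖ = 1 → z ∉ O → hx' z ≠ 0 → ¬ IsoAt Φ (g z) (ht z) → z ∈ B' := by
    intro z hz h1 h2 h3 h4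
    refine ⟨⟨z, hz⟩, ⟨⟨⟨h1, h2⟩, h3⟩, fun h5 => h4 ?_⟩, rfl⟩
    exact (d3e_isoAt_iff hK _ _ h1).2 h5
  have hN : volume {z | z ∈ Ω ∧ hx z ≠ hx' z} = 0 := by
    have h1 := (ae_restrict_iff' hΩ.measurableSet).1 hxx'
    refine measure_mono_null ?_ (ae_iff.1 h1)
    rintro z ⟨hz1, hz2⟩ hz3
    exact hz2 (hz3 hz1)
  have hB'0 : volume B' = 0 := by
    refine hf B' hB'm ?_
    filter_upwards [h, hs _ hN] with y h1 h2
    filter_upwards [h1, h2] with t h3 h4 h5
    obtain ⟨g1, g2, g3, g4, g5⟩ := hB'iff _ h5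
    refine g5 (h3 g1 g2 g3 ?_)
    intro h6
    exact h4 ⟨g1, by rw [h6]; exact g4.symm⟩
  rw [ae_restrict_iff' hΩ.measurableSet]
  filter_upwards [measure_eq_zero_iff_ae_notMem.1 hB'0, measure_eq_zero_iff_ae_notMem.1 hN] with z
    h1 h2 hz h3 h4 h5
  by_contra h6
  refine h1 (hB'iff' z hz h3 h4 ?_ h6)
  intro h7
  exact h2 ⟨hz, by rw [h7]; exact h5⟩

/-- D3.5 (about 120 lines) Fubini; the exceptional set is null measurable by D3.1, D3.2. -/
theorem ae_iso {Ω K O : Set ℂ} {Φ ρ : ℂ → ℂ} (hK : Collar K Φ ρ) (hA : FinArea Φ)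
    {h g ht : ℂ → ℂ} {hj : ℕ → ℂ → ℂ} (H : LimData Ω K ρ h g hj) (hx hy : ℂ → ℂ)
    (ha : ACL2 Ω h hx hy) (hn : Normal Ω K O h g ht) :
    ∀ᵐ z ∂(volume.restrict Ω), ‖g z‖ = 1 → z ∉ O → (hx z ≠ 0 ∨ hy z ≠ 0) →
      IsoAt Φ (g z) (ht z) := by
  have cg : ContinuousOn g Ω := (LimData.basic hK H).2.1
  have h1 : ∀ᵐ z ∂(volume.restrict Ω), ‖g z‖ = 1 → z ∉ O → hx z ≠ 0 → IsoAt Φ (g z) (ht z) := by
    refine d3e_fub hK H.Oopen hn.Oopen cg hn.cont ha.mx (fun y t => ⟨t, y⟩)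
      (fun N hN => d3e_hor_slice hN) (fun B hB hB' => d3e_hor_null hB hB') ?_
    filter_upwards [ha.hor] with y hy'
    have e0 : ∀ t : ℝ, ((⟨0, y⟩ : ℂ) + t * 1 : ℂ) = ⟨t, y⟩ := by
      intro t
      apply Complex.ext <;> simp
    have e1 := iso_line hK hA H hn ⟨0, y⟩ 1 (by simp) (fun t => hx ⟨t, y⟩) (by
      intro a b hab hin
      simp only [e0] at hin ⊢
      exact hy' a b hab hin)
    simp only [e0] at e1
    exact e1
  have h2 : ∀ᵐ z ∂(volume.restrict Ω), ‖g z‖ = 1 → z ∉ O → hy z ≠ 0 → IsoAt Φ (g z) (ht z) := by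
    refine d3e_fub hK H.Oopen hn.Oopen cg hn.cont ha.my (fun x t => ⟨x, t⟩)
      (fun N hN => d3e_ver_slice hN) (fun B hB hB' => d3e_ver_null hB hB') ?_
    filter_upwards [ha.ver] with x hx'
    have e0 : ∀ t : ℝ, ((⟨x, 0⟩ : ℂ) + t * I : ℂ) = ⟨x, t⟩ := by
      intro t
      apply Complex.ext <;> simp
    have e1 := iso_line hK hA H hn ⟨x, 0⟩ I (by simp) (fun t => hy ⟨x, t⟩) (by
      intro a b hab hin
      simp only [e0] at hin ⊢
      exact hx' a b hab hin)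
    simp only [e0] at e1
    exact e1
  filter_upwards [h1, h2] with z z1 z2 z3 z4 z5
  rcases z5 with z5 | z5
  · exact z1 z3 z4 z5
  · exact z2 z3 z4 z5

end CF6

end
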