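import Pool.Agent.Lib.MP_cf6b16_an.DE1

section

open Complex MeasureTheory Set Filter Topology Metric intervalIntegral

namespace CF6

private lemma harnack_aux {C0 : ℝ} (h0 : 1 ≤ C0) {K : Set ℂ} {Φ ρ : ℂ → ℂ} (hK : Collar K Φ ρ)
    {y1 : ℝ} (hk : Koebe C0 y1 K Φ) {u v w : ℂ} (hu : 0 < u.im) (hy : 2 * u.im ≤ y1)
    (hv : ‖v - u‖ ≤ u.im / 2) (hw : ‖w - u‖ ≤ u.im / 2) (hvw : ‖w - v‖ ≤ u.im / 2)
    {k : ℂ} (hkK : k ∈ K) : ‖Φ w - k‖ ≤ Real.exp C0 * ‖Φ v - k‖ := by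
  have hopen : IsOpen UHP := isOpen_lt continuous_const Complex.continuous_im
  let γ : ℝ → ℂ := fun t => v + t * (w - v)
  have hγ : ∀ t ∈ Icc (0 : ℝ) 1, u.im / 2 ≤ (γ t).im ∧ (γ t).im ≤ y1 := by
    intro t ht
    have h1 : ‖γ t - u‖ ≤ u.im / 2 := by
      have h2 : γ t - u = ((1 - t : ℝ) : ℂ) * (v - u) + ((t : ℝ) : ℂ) * (w - u) := by
        simp only [γ]; push_cast; ring
      rw [h2]
      calc _ ≤ ‖((1 - t : ℝ) : ℂ) * (v - u)‖ + ‖((t : ℝ) : ℂ) * (w - u)‖ := norm_add_le _ _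
        _ = (1 - t) * ‖v - u‖ + t * ‖w - u‖ := by
          rw [norm_mul, norm_mul, Complex.norm_real, Complex.norm_real, Real.norm_eq_abs,
            Real.norm_eq_abs, abs_of_nonneg (by linarith [ht.2] : 0 ≤ 1 - t),
            abs_of_nonneg ht.1]
        _ ≤ (1 - t) * (u.im / 2) + t * (u.im / 2) := by
          have h3 : 0 ≤ 1 - t := by linarith [ht.2]
          exact add_le_add (mul_le_mul_of_nonneg_left hv h3) (mul_le_mul_of_nonneg_left hw ht.1)
        _ = u.im / 2 := by ring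
    have h2 : |(γ t - u).im| ≤ u.im / 2 := (Complex.abs_im_le_norm _).trans h1
    rw [Complex.sub_im, abs_le] at h2
    constructor <;> linarith [h2.1, h2.2]
  have hγU : ∀ t ∈ Icc (0 : ℝ) 1, γ t ∈ UHP := fun t ht => by
    have := (hγ t ht).1
    change 0 < (γ t).im
    linarith
  have hder : ∀ t ∈ Icc (0 : ℝ) 1, HasDerivAt (fun s => Φ (γ s) - k) (deriv Φ (γ t) * (w - v)) t := by
    intro t ht
    have h1 : HasDerivAt Φ (deriv Φ (γ t)) (γ t) :=
      (hK.dPhi.differentiableAt (hopen.mem_nhds (hγU t ht))).hasDerivAt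
    have h2 : HasDerivAt γ (w - v) t := by
      have h3 : HasDerivAt (fun s : ℝ => (s : ℂ)) 1 t := Complex.ofRealCLM.hasDerivAt
      have h4 := (h3.mul_const (w - v)).const_add v
      rw [one_mul] at h4
      exact h4
    exact (h1.comp_of_eq t h2 rfl).sub_const k
  have hb := norm_le_gronwallBound_of_norm_deriv_right_le (E := ℂ)
    (f := fun s => Φ (γ s) - k) (f' := fun t => deriv Φ (γ t) * (w - v))
    (δ := ‖Φ v - k‖) (K := C0) (ε := 0) (a := 0) (b := 1)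
    (fun t ht => (hder t ht).continuousAt.continuousWithinAt)
    (fun t ht => (hder t ⟨ht.1, ht.2.le⟩).hasDerivWithinAt)
    (by simp [γ])
    (by
      intro t ht
      have ht' : t ∈ Icc (0 : ℝ) 1 := ⟨ht.1, ht.2.le⟩
      obtain ⟨g1, g2⟩ := hγ t ht'
      have g3 : 0 < (γ t).im := hγU t ht'
      have g4 := (hk (γ t) g3 g2).1
      have g5 : infDist (Φ (γ t)) K ≤ ‖Φ (γ t) - k‖ := by
        have := infDist_le_dist_of_mem (x := Φ (γ t)) hkK
        rwa [dist_eq_norm] at this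
      rw [norm_mul, add_zero]
      have g6 : ‖deriv Φ (γ t)‖ * ‖w - v‖ ≤ ‖deriv Φ (γ t)‖ * (γ t).im :=
        mul_le_mul_of_nonneg_left (hvw.trans g1) (norm_nonneg _)
      refine g6.trans (g4.trans ?_)
      exact mul_le_mul_of_nonneg_left g5 (by linarith))
    1 (by simp)
  rw [gronwallBound_ε0] at hb
  have h1 : γ 1 = w := by simp [γ]
  simp only [h1] at hb
  rw [mul_comm]
  simpa using hb

/-- E.1 (about 120 lines). Harnack: `‖Φ'(u)‖ Im u ≤ C0 ‖Φ(u) - k‖` for every `k ∈ K`; Gronwall along segments; infimum over `k`. -/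
theorem harnack_u (C0 : ℝ) (h0 : 1 ≤ C0) : ∃ C : ℝ, 1 ≤ C ∧ ∀ (K : Set ℂ) (Φ ρ : ℂ → ℂ),
    Collar K Φ ρ → ∀ y1 > 0, Koebe C0 y1 K Φ → ∀ u u' : ℂ, 0 < u.im → 2 * u.im ≤ y1 →
    ‖u' - u‖ ≤ u.im / 2 →
    (∀ k ∈ K, ‖Φ u' - k‖ ≤ C * ‖Φ u - k‖ ∧ ‖Φ u - k‖ ≤ C * ‖Φ u' - k‖) ∧
    infDist (Φ u') K ≤ C * infDist (Φ u) K ∧ infDist (Φ u) K ≤ C * infDist (Φ u') K ∧
    ‖deriv Φ u'‖ ≤ C * ‖deriv Φ u‖ ∧ ‖deriv Φ u‖ ≤ C * ‖deriv Φ u'‖ := by
  have he : 1 ≤ Real.exp C0 := Real.one_le_exp (by linarith)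
  have hc1 : Real.exp C0 ≤ 2 * C0 ^ 2 * Real.exp C0 := by
    have : 1 ≤ 2 * C0 ^ 2 := by nlinarith
    nlinarith
  refine ⟨2 * C0 ^ 2 * Real.exp C0, he.trans hc1, ?_⟩
  intro K Φ ρ hK y1 hy1 hk u u' hu hy hd
  have hz : ‖u - u‖ ≤ u.im / 2 := by rw [sub_self, norm_zero]; linarith
  have hd' : ‖u - u'‖ ≤ u.im / 2 := by rw [norm_sub_rev]; exact hd
  have A1 : ∀ k ∈ K, ‖Φ u' - k‖ ≤ Real.exp C0 * ‖Φ u - k‖ := fun k hkK =>
    harnack_aux h0 hK hk hu hy hz hd hd hkK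
  have A2 : ∀ k ∈ K, ‖Φ u - k‖ ≤ Real.exp C0 * ‖Φ u' - k‖ := fun k hkK =>
    harnack_aux h0 hK hk hu hy hd hz hd' hkK
  have hne : K.Nonempty := hK.nontriv.nonempty
  have gen : ∀ x y : ℂ, (∀ k ∈ K, ‖x - k‖ ≤ Real.exp C0 * ‖y - k‖) →
      infDist x K ≤ Real.exp C0 * infDist y K := by
    intro x y h
    have hpos : 0 < Real.exp C0 := Real.exp_pos _
    rw [← div_le_iff₀' hpos, le_infDist hne]
    intro k hkK
    rw [div_le_iff₀' hpos, dist_eq_norm]
    refine le_trans ?_ (h k hkK)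
    have := infDist_le_dist_of_mem (x := x) hkK
    rwa [dist_eq_norm] at this
  have B1 := gen (Φ u') (Φ u) A1
  have B2 := gen (Φ u) (Φ u') A2
  have him : |(u' - u).im| ≤ u.im / 2 := (Complex.abs_im_le_norm _).trans hd
  rw [Complex.sub_im, abs_le] at him
  have hu' : 0 < u'.im := by linarith [him.1]
  have hy' : u'.im ≤ y1 := by linarith [him.2]
  obtain ⟨k1, k2⟩ := hk u hu (by linarith)
  obtain ⟨k3, k4⟩ := hk u' hu' hy'
  have hi1 := infDist_nonneg (x := Φ u) (s := K)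
  have hi2 := infDist_nonneg (x := Φ u') (s := K)
  have hC0 : 0 ≤ C0 := by linarith
  have hE : 0 ≤ Real.exp C0 := (Real.exp_pos _).le
  refine ⟨fun k hkK => ⟨(A1 k hkK).trans ?_, (A2 k hkK).trans ?_⟩, B1.trans ?_, B2.trans ?_, ?_, ?_⟩
  · exact mul_le_mul_of_nonneg_right hc1 (norm_nonneg _)
  · exact mul_le_mul_of_nonneg_right hc1 (norm_nonneg _)
  · exact mul_le_mul_of_nonneg_right hc1 hi1
  · exact mul_le_mul_of_nonneg_right hc1 hi2
  · -- ‖Φ'(u')‖ u'.im ≤ C0 d(u') ≤ C0 e d(u) ≤ C0^2 e ‖Φ'(u)‖ u.im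
    have e1 : ‖deriv Φ u'‖ * u'.im ≤ C0 * (Real.exp C0 * (C0 * (‖deriv Φ u‖ * u.im))) :=
      k3.trans (mul_le_mul_of_nonneg_left
        (B1.trans (mul_le_mul_of_nonneg_left k2 hE)) hC0)
    have e2 : ‖deriv Φ u'‖ * (u.im / 2) ≤ ‖deriv Φ u'‖ * u'.im :=
      mul_le_mul_of_nonneg_left (by linarith [him.1]) (norm_nonneg _)
    have e3 : ‖deriv Φ u'‖ * (u.im / 2) ≤
        (2 * C0 ^ 2 * Real.exp C0 * ‖deriv Φ u‖) * (u.im / 2) := by
      calc _ ≤ _ := e2.trans e1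
        _ = _ := by ring
    exact le_of_mul_le_mul_right e3 (by linarith)
  · have e1 : ‖deriv Φ u‖ * u.im ≤ C0 * (Real.exp C0 * (C0 * (‖deriv Φ u'‖ * u'.im))) :=
      k1.trans (mul_le_mul_of_nonneg_left
        (B2.trans (mul_le_mul_of_nonneg_left k4 hE)) hC0)
    have e2 : C0 * (Real.exp C0 * (C0 * (‖deriv Φ u'‖ * u'.im))) ≤
        C0 * (Real.exp C0 * (C0 * (‖deriv Φ u'‖ * (2 * u.im)))) := by
      have : ‖deriv Φ u'‖ * u'.im ≤ ‖deriv Φ u'‖ * (2 * u.im) :=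
        mul_le_mul_of_nonneg_left (by linarith [him.2]) (norm_nonneg _)
      exact mul_le_mul_of_nonneg_left (mul_le_mul_of_nonneg_left
        (mul_le_mul_of_nonneg_left this hC0) hE) hC0
    have e3 : ‖deriv Φ u‖ * u.im ≤ (2 * C0 ^ 2 * Real.exp C0 * ‖deriv Φ u'‖) * u.im := by
      calc _ ≤ _ := e1.trans e2
        _ = _ := by ring
    exact le_of_mul_le_mul_right e3 hu

end CF6

end

section

open Complex MeasureTheory Set Filter Topology Metric intervalIntegral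

namespace CF6

/-- E.2b (about 120 lines) quantitative separation. `Φ'` is almost constant on `closedBall u (c Im u)` (Cauchy estimate and
E.1), so `Φ(ball u (c Im u))` contains a ball of radius `c' infDist (Φ u) K`; injectivity modulo `2π`. -/
theorem sep_u (C0 : ℝ) (h0 : 1 ≤ C0) (lam : ℝ) (hl : 0 < lam) : ∃ c > (0 : ℝ),
    ∀ (K : Set ℂ) (Φ ρ : ℂ → ℂ), Collar K Φ ρ → ∀ y1 > 0, y1 ≤ 1 → Koebe C0 y1 K Φ →
    ∀ u u' : ℂ, 0 < u.im → 2 * u.im ≤ y1 → 0 < u'.im →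
    (∀ n : ℤ, lam * u.im ≤ ‖u' - u - 2 * Real.pi * n‖) → c * infDist (Φ u) K ≤ ‖Φ u' - Φ u‖ := by
  obtain ⟨C, hC1, hH⟩ := harnack_u C0 h0
  have hC0 : (0 : ℝ) < C0 := by linarith
  set κ : ℝ := min (1 / (8 * (2 * C + 1))) (lam / 2) with hκ
  have hκpos : 0 < κ := lt_min (by positivity) (by positivity)
  have hκ1 : κ ≤ 1 / (8 * (2 * C + 1)) := min_le_left _ _
  have hκ2 : κ ≤ lam / 2 := min_le_right _ _
  have hκ3 : κ ≤ 1 / 24 := hκ1.trans (by
    apply one_div_le_one_div_of_le (by norm_num)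
    linarith)
  refine ⟨3 / 4 * κ / C0, by positivity, ?_⟩
  intro K Φ ρ hK y1 hy1 _ hko u u' hu hu2 hu' hsep
  obtain ⟨hinj, hd0, -⟩ := inj_mod hK
  have hopen : IsOpen UHP := isOpen_lt continuous_const Complex.continuous_im
  have hmem : ∀ z : ℂ, ‖z - u‖ < u.im → z ∈ UHP := by
    intro z hz
    have h1 : |(z - u).im| ≤ ‖z - u‖ := Complex.abs_im_le_norm _
    rw [Complex.sub_im, abs_le] at h1
    show 0 < z.im
    linarith [h1.1]
  have hder : ∀ z : ℂ, ‖z - u‖ < u.im → HasDerivAt Φ (deriv Φ z) z := fun z hz =>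
    (hK.dPhi.differentiableAt (hopen.mem_nhds (hmem z hz))).hasDerivAt
  set a : ℂ := deriv Φ u with ha
  have ha0 : a ≠ 0 := hd0 u hu
  have hapos : 0 < ‖a‖ := norm_pos_iff.2 ha0
  set R : ℝ := u.im / 2 with hR
  have hRpos : 0 < R := by positivity
  -- bound for the derivative
  have hDb : ∀ z : ℂ, ‖z - u‖ ≤ u.im / 2 → ‖deriv Φ z‖ ≤ C * ‖a‖ := fun z hz =>
    (hH K Φ ρ hK y1 hy1 hko u z hu hu2 hz).2.2.2.1
  have hDd : DifferentiableOn ℂ (deriv Φ) (ball u R) := by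
    apply (hK.dPhi.deriv hopen).mono
    intro z hz
    rw [mem_ball, dist_eq_norm] at hz
    exact hmem z (by linarith)
  have hmaps : MapsTo (deriv Φ) (ball u R) (closedBall (deriv Φ u) ((2 * C + 1) * ‖a‖)) := by
    intro z hz
    rw [mem_ball, dist_eq_norm] at hz
    rw [mem_closedBall, dist_eq_norm]
    calc ‖deriv Φ z - deriv Φ u‖ ≤ ‖deriv Φ z‖ + ‖deriv Φ u‖ := norm_sub_le _ _
      _ ≤ C * ‖a‖ + ‖a‖ := add_le_add (hDb z hz.le) le_rfl
      _ ≤ (2 * C + 1) * ‖a‖ := by nlinarith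
  set r : ℝ := κ * u.im with hr
  have hrpos : 0 < r := by positivity
  have hrR : r < R := by
    rw [hr, hR]
    nlinarith
  have hnear : ∀ z ∈ closedBall u r, ‖deriv Φ z - a‖ ≤ 1 / 4 * ‖a‖ := by
    intro z hz
    have hzb : z ∈ ball u R := closedBall_subset_ball hrR hz
    have h1 := Complex.dist_le_div_mul_dist_of_mapsTo_ball hDd hmaps hzb
    rw [dist_eq_norm] at h1
    refine h1.trans ?_
    have h2 : dist z u ≤ κ * u.im := hz
    calc (2 * C + 1) * ‖a‖ / R * dist z u ≤ (2 * C + 1) * ‖a‖ / R * (κ * u.im) := by gcongr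
      _ = 2 * (2 * C + 1) * κ * ‖a‖ := by
        rw [hR]
        field_simp
      _ ≤ 1 / 4 * ‖a‖ := by
        apply mul_le_mul_of_nonneg_right _ hapos.le
        have h3 : κ * (8 * (2 * C + 1)) ≤ 1 := by
          rwa [le_div_iff₀ (by positivity)] at hκ1
        linarith
  obtain ⟨c1, hc1⟩ : ∃ c1 : NNReal, (c1 : ℝ) = 1 / 4 * ‖a‖ := ⟨⟨1 / 4 * ‖a‖, by positivity⟩, rfl⟩
  have happ : ApproximatesLinearOn Φ (ContinuousLinearMap.toSpanSingleton ℂ a) (closedBall u r)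
      c1 := by
    intro x hx y hy
    have hg : ∀ z ∈ closedBall u r, HasDerivWithinAt (fun z => Φ z - a * z) (deriv Φ z - a)
        (closedBall u r) z := by
      intro z hz
      rw [mem_closedBall, dist_eq_norm] at hz
      have h1 := hder z (by linarith)
      have h2 : HasDerivAt (fun z : ℂ => a * z) a z := by
        simpa using (hasDerivAt_id z).const_mul a
      exact (h1.sub h2).hasDerivWithinAt
    have h2 := (convex_closedBall u r).norm_image_sub_le_of_norm_hasDerivWithin_le hg hnear hy hx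
    have e : Φ x - Φ y - (ContinuousLinearMap.toSpanSingleton ℂ a) (x - y) =
        Φ x - a * x - (Φ y - a * y) := by
      simp only [ContinuousLinearMap.toSpanSingleton_apply, smul_eq_mul]
      ring
    rw [e, hc1]
    exact h2
  let sy : (ContinuousLinearMap.toSpanSingleton ℂ a : ℂ →L[ℂ] ℂ).NonlinearRightInverse :=
    { toFun := fun w => w / a
      nnnorm := ⟨‖a‖⁻¹, by positivity⟩
      bound' := fun w => by
        show ‖w / a‖ ≤ ‖a‖⁻¹ * ‖w‖
        rw [norm_div, div_eq_inv_mul]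
      right_inv' := fun w => by
        simp only [ContinuousLinearMap.toSpanSingleton_apply, smul_eq_mul]
        exact div_mul_cancel₀ w ha0 }
  have hsurj := happ.surjOn_closedBall_of_nonlinearRightInverse sy hrpos.le (b := u)
    (subset_refl (closedBall u r))
  have hsn : (sy.nnnorm : ℝ) = ‖a‖⁻¹ := rfl
  have hrad : (((sy.nnnorm : ℝ)⁻¹ - (c1 : ℝ)) * r) = 3 / 4 * ‖a‖ * r := by
    rw [hsn, hc1, inv_inv]
    ring
  rw [hrad] at hsurj
  by_contra hcon
  push Not at hcon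
  have hko2 := (hko u hu (by linarith)).2
  have hlt : ‖Φ u' - Φ u‖ ≤ 3 / 4 * ‖a‖ * r := by
    refine hcon.le.trans ?_
    calc 3 / 4 * κ / C0 * infDist (Φ u) K ≤ 3 / 4 * κ / C0 * (C0 * (‖deriv Φ u‖ * u.im)) := by
          gcongr
      _ = 3 / 4 * ‖a‖ * r := by
          rw [hr, ha]
          field_simp
  obtain ⟨z, hz, hzz⟩ := hsurj (show Φ u' ∈ closedBall (Φ u) (3 / 4 * ‖a‖ * r) by
    rw [mem_closedBall, dist_eq_norm]; exact hlt)
  rw [mem_closedBall, dist_eq_norm] at hz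
  have hzU : z ∈ UHP := hmem z (by linarith)
  obtain ⟨n, hn⟩ := hinj z hzU u' hu' hzz
  have h5 := hsep n
  rw [hn] at h5
  have e : z + 2 * Real.pi * n - u - 2 * Real.pi * n = z - u := by ring
  rw [e] at h5
  have h6 : κ * u.im ≤ lam / 2 * u.im := mul_le_mul_of_nonneg_right hκ2 hu.le
  have h7 : 0 < lam * u.im := by positivity
  linarith

end CF6

end

section

open Complex MeasureTheory Set Filter Topology Metric intervalIntegral

namespace CF6

/-- E.2c (about 80 lines) bilipschitz near a point: `|Φ u' - Φ u| ≥ c |Φ'(u)| |u' - u|` for `|u' - u| ≤ c Im u`. -/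
theorem bilip_u (C0 : ℝ) (h0 : 1 ≤ C0) : ∃ c > (0 : ℝ), c ≤ 1 / 2 ∧
    ∀ (K : Set ℂ) (Φ ρ : ℂ → ℂ), Collar K Φ ρ → ∀ y1 > 0, Koebe C0 y1 K Φ →
    ∀ u u' : ℂ, 0 < u.im → 2 * u.im ≤ y1 → ‖u' - u‖ ≤ c * u.im →
    ‖deriv Φ u‖ * ‖u' - u‖ ≤ 2 * ‖Φ u' - Φ u‖ := by
  obtain ⟨C, hC1, hC⟩ := harnack_u C0 h0
  have hCpos : 0 < C := by linarith
  refine ⟨1 / (12 * C), by positivity, ?_, ?_⟩
  · rw [div_le_div_iff₀ (by positivity) (by norm_num)]; linarith
  intro K Φ ρ hK y1 hy1 hk u u' hu hy hd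
  have hopen : IsOpen UHP := isOpen_lt continuous_const Complex.continuous_im
  by_cases hz : deriv Φ u = 0
  · rw [hz, norm_zero, zero_mul]; positivity
  have hzp : 0 < ‖deriv Φ u‖ := norm_pos_iff.2 hz
  have hball : ball u (u.im / 2) ⊆ UHP := by
    intro v hv
    rw [mem_ball, dist_eq_norm] at hv
    have h2 : |(v - u).im| ≤ u.im / 2 := (Complex.abs_im_le_norm _).trans hv.le
    rw [Complex.sub_im, abs_le] at h2
    change 0 < v.im
    linarith [h2.1]
  have hdd : DifferentiableOn ℂ (deriv Φ) (ball u (u.im / 2)) :=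
    (hK.dPhi.deriv hopen).mono hball
  have hmaps : MapsTo (deriv Φ) (ball u (u.im / 2)) (ball (deriv Φ u) (3 * C * ‖deriv Φ u‖)) := by
    intro v hv
    rw [mem_ball, dist_eq_norm] at hv ⊢
    have h1 := (hC K Φ ρ hK y1 hy1 hk u v hu hy hv.le).2.2.2.1
    calc ‖deriv Φ v - deriv Φ u‖ ≤ ‖deriv Φ v‖ + ‖deriv Φ u‖ := norm_sub_le _ _
      _ ≤ C * ‖deriv Φ u‖ + ‖deriv Φ u‖ := by linarith
      _ < 3 * C * ‖deriv Φ u‖ := by nlinarith
  have hsch : ∀ v ∈ ball u (u.im / 2), ‖deriv Φ v - deriv Φ u‖ ≤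
      3 * C * ‖deriv Φ u‖ / (u.im / 2) * ‖v - u‖ := by
    intro v hv
    have := Complex.dist_le_div_mul_dist_of_mapsTo_ball hdd
      (hmaps.mono_right ball_subset_closedBall) hv
    simpa [dist_eq_norm] using this
  set r : ℝ := 1 / (12 * C) * u.im with hr
  have hr0 : 0 < r := by positivity
  have hr2 : r < u.im / 2 := by
    have h1 : 1 / (12 * C) ≤ 1 / 12 := by
      rw [div_le_div_iff₀ (by positivity) (by norm_num)]; linarith
    have h2 : r ≤ 1 / 12 * u.im := mul_le_mul_of_nonneg_right h1 hu.le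
    linarith
  have hsub : closedBall u r ⊆ ball u (u.im / 2) := closedBall_subset_ball hr2
  have hmv := (convex_closedBall u r).norm_image_sub_le_of_norm_hasDerivWithin_le
    (f := fun v => Φ v - deriv Φ u * v) (f' := fun v => deriv Φ v - deriv Φ u)
    (C := ‖deriv Φ u‖ / 2) (x := u) (y := u')
    (fun v hv => by
      have h1 : HasDerivAt Φ (deriv Φ v) v :=
        (hK.dPhi.differentiableAt (hopen.mem_nhds (hball (hsub hv)))).hasDerivAt
      have h2 : HasDerivAt (fun v => deriv Φ u * v) (deriv Φ u) v := by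
        simpa using (hasDerivAt_id v).const_mul (deriv Φ u)
      exact (h1.sub h2).hasDerivWithinAt)
    (fun v hv => by
      refine (hsch v (hsub hv)).trans ?_
      rw [mem_closedBall, dist_eq_norm] at hv
      have h1 : 3 * C * ‖deriv Φ u‖ / (u.im / 2) * ‖v - u‖ ≤
          3 * C * ‖deriv Φ u‖ / (u.im / 2) * r :=
        mul_le_mul_of_nonneg_left hv (by positivity)
      refine h1.trans (le_of_eq ?_)
      rw [hr]; field_simp; norm_num)
    (mem_closedBall_self hr0.le) (by rw [mem_closedBall, dist_eq_norm]; exact hd)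
  have e1 : Φ u' - deriv Φ u * u' - (Φ u - deriv Φ u * u) =
      (Φ u' - Φ u) - deriv Φ u * (u' - u) := by ring
  rw [e1] at hmv
  have e2 : ‖deriv Φ u * (u' - u)‖ - ‖Φ u' - Φ u‖ ≤ ‖(Φ u' - Φ u) - deriv Φ u * (u' - u)‖ := by
    have := norm_sub_norm_le (deriv Φ u * (u' - u)) (Φ u' - Φ u)
    rwa [norm_sub_rev (deriv Φ u * (u' - u))] at this
  rw [norm_mul] at e2
  linarith

end CF6

end

section

open Complex MeasureTheory Set Filter Topology Metric intervalIntegral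

namespace CF6

/-- E.4b (about 100 lines) one radius: if `θ` is not a hidden value and the path passes over `θ` inside `[s0,s1]`,
then for every ball `B(Q, δ)` containing `q [s0,s1]` the radial segment under `θ` comes `2δ`-close to `Q`: there is `t ∈ (0, 2 τ θ)` with `‖Φ(θ + i t) - Q‖ < 2 δ`. (Approximating curves `un n` pass over `θ` at
times `s_n`, subsequence `s_n → s`, `Φ(un n s_n) → q s`, `Im (un n s_n) < 2 τ θ`.) -/
theorem radius_hit {K : Set ℂ} {Φ ρ : ℂ → ℂ} (hK : Collar K Φ ρ) {a b : ℝ} {u q : ℝ → ℂ}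
    {O : Set ℝ} (H : PathData Φ a b u q O) {τ : ℝ → ℝ} (hτc : Continuous τ) (hτ : ∀ x, 0 < τ x)
    (hdepth : ∀ s ∈ Icc a b, (u s).im ≤ τ (u s).re) {s0 s1 θ : ℝ} (h0 : s0 ∈ Icc a b)
    (h1 : s1 ∈ Icc a b) (h01 : s0 ≤ s1)
    (hθ : ((u s0).re < θ ∧ θ < (u s1).re) ∨ ((u s1).re < θ ∧ θ < (u s0).re))
    (hid : ∀ s ∈ O, (u s).re ≠ θ) {Q : ℂ} {δ : ℝ} (hδ : 0 < δ)
    (hQ : ∀ s ∈ Icc s0 s1, ‖q s - Q‖ ≤ δ) :
    ∃ t : ℝ, 0 < t ∧ t < 2 * τ θ ∧ ‖Φ (θ + t * I) - Q‖ < 2 * δ := by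
  by_contra hcon
  push Not at hcon
  obtain ⟨un, hun, hlim, hΦ⟩ := H.approx
  have hab := H.le
  -- for large n there is a time where the real part is θ
  have hs0 : Tendsto (fun n => (un n s0).re) atTop (𝓝 (u s0).re) :=
    (Complex.continuous_re.tendsto _).comp (hlim.tendsto_at h0)
  have hs1 : Tendsto (fun n => (un n s1).re) atTop (𝓝 (u s1).re) :=
    (Complex.continuous_re.tendsto _).comp (hlim.tendsto_at h1)
  have hsub : Icc s0 s1 ⊆ Icc a b := Icc_subset_Icc h0.1 h1.2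
  have hex : ∀ᶠ n in atTop, ∃ s ∈ Icc s0 s1, (un n s).re = θ := by
    have hcont : ∀ n, ContinuousOn (fun s => (un n s).re) (Icc s0 s1) := fun n =>
      Complex.continuous_re.comp_continuousOn ((hun n).1.mono hsub)
    rcases hθ with ⟨g1, g2⟩ | ⟨g1, g2⟩
    · filter_upwards [hs0.eventually (gt_mem_nhds g1), hs1.eventually (lt_mem_nhds g2)] with n k1 k2
      exact intermediate_value_Icc h01 (hcont n) ⟨k1.le, k2.le⟩
    · filter_upwards [hs1.eventually (gt_mem_nhds g1), hs0.eventually (lt_mem_nhds g2)] with n k1 k2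
      exact intermediate_value_Icc' h01 (hcont n) ⟨k1.le, k2.le⟩
  obtain ⟨N, hN⟩ := eventually_atTop.1 hex
  have hex2 : ∀ n, ∃ s ∈ Icc s0 s1, N ≤ n → (un n s).re = θ := by
    intro n
    by_cases h : N ≤ n
    · obtain ⟨s, hs, hs'⟩ := hN n h
      exact ⟨s, hs, fun _ => hs'⟩
    · exact ⟨s0, ⟨le_rfl, h01⟩, fun h' => absurd h' h⟩
  choose σ hσ hσθ using hex2
  obtain ⟨s, hs, φ, hφ, hlimσ⟩ := isCompact_Icc.tendsto_subseq hσ
  have hsab : s ∈ Icc a b := hsub hs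
  -- the modified full sequence
  classical
  let sn : ℕ → ℝ := fun m => if m ∈ Set.range φ then σ m else s
  have hsn : ∀ m, sn m ∈ Icc s0 s1 := by
    intro m
    by_cases h : m ∈ Set.range φ
    · simp only [sn, h, if_true]; exact hσ m
    · simp only [sn, h, if_false]; exact hs
  have hsnφ : ∀ n, sn (φ n) = σ (φ n) := by
    intro n
    simp only [sn, Set.mem_range_self, if_true]
  have hsnlim : Tendsto sn atTop (𝓝 s) := by
    rw [Metric.tendsto_atTop]
    intro ε hε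
    rw [Metric.tendsto_atTop] at hlimσ
    obtain ⟨n0, hn0⟩ := hlimσ ε hε
    refine ⟨φ n0, fun m hm => ?_⟩
    by_cases h : m ∈ Set.range φ
    · obtain ⟨n, rfl⟩ := h
      have : n0 ≤ n := hφ.le_iff_le.1 hm
      rw [hsnφ]
      exact hn0 n this
    · simp only [sn, h, if_false, dist_self]; exact hε
  -- un n (sn n) tends to u s
  have hulim : Tendsto (fun n => un n (sn n)) atTop (𝓝 (u s)) := by
    have h1 : Tendsto sn atTop (𝓝[Icc a b] s) :=
      tendsto_nhdsWithin_of_tendsto_nhds_of_eventually_within _ hsnlim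
        (Eventually.of_forall fun n => hsub (hsn n))
    exact hlim.tendsto_comp (H.cu s hsab) h1
  have hre : (u s).re = θ := by
    have h1 : Tendsto (fun n => (un (φ n) (sn (φ n))).re) atTop (𝓝 (u s).re) :=
      (Complex.continuous_re.tendsto _).comp (hulim.comp hφ.tendsto_atTop)
    have h2 : Tendsto (fun n => (un (φ n) (sn (φ n))).re) atTop (𝓝 θ) := by
      apply tendsto_const_nhds.congr'
      filter_upwards [eventually_ge_atTop N] with n hn
      rw [hsnφ, hσθ (φ n) (hn.trans (hφ.id_le n))]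
    exact tendsto_nhds_unique h1 h2
  have hsO : s ∉ O := fun h => hid s h hre
  have hΦlim := hΦ s hsab hsO sn (fun n => hsub (hsn n)) hsnlim
  have him : Tendsto (fun n => (un n (sn n)).im) atTop (𝓝 (u s).im) :=
    (Complex.continuous_im.tendsto _).comp hulim
  have himlt : (u s).im < 2 * τ θ := by
    have := hdepth s hsab
    rw [hre] at this
    linarith [hτ θ]
  have hfar : ∀ᶠ n in atTop, 2 * δ ≤ ‖Φ (un (φ n) (sn (φ n))) - Q‖ := by
    filter_upwards [eventually_ge_atTop N,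
      (him.comp hφ.tendsto_atTop).eventually (gt_mem_nhds himlt)] with n hn hn2
    have e1 : (un (φ n) (sn (φ n))).re = θ := by
      rw [hsnφ, hσθ (φ n) (hn.trans (hφ.id_le n))]
    have e2 : un (φ n) (sn (φ n)) = (θ : ℂ) + ((un (φ n) (sn (φ n))).im : ℂ) * I := by
      conv_lhs => rw [← Complex.re_add_im (un (φ n) (sn (φ n))), e1]
    rw [e2]
    exact hcon _ ((hun (φ n)).2 _ (hsub (hsn (φ n)))) hn2
  have hlimn : Tendsto (fun n => ‖Φ (un (φ n) (sn (φ n))) - Q‖) atTop (𝓝 ‖q s - Q‖) :=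
    ((hΦlim.comp hφ.tendsto_atTop).sub_const Q).norm
  have hge : 2 * δ ≤ ‖q s - Q‖ := ge_of_tendsto hlimn hfar
  have := hQ s hs
  linarith

end CF6

end

section

open Complex MeasureTheory Set Filter Topology Metric intervalIntegral

namespace CF6

private theorem E1h_log_cross {g g' : ℝ → ℂ} {t0 t1 : ℝ} (h01 : t0 ≤ t1)
    (hg : ∀ t ∈ Icc t0 t1, HasDerivAt g (g' t) t) (hg' : ContinuousOn g' (Icc t0 t1)) {a b : ℝ}
    (ha : 0 < a) (hab : a < b) (h0 : ‖g t0‖ ≤ a) (h1 : b ≤ ‖g t1‖) :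
    ∃ t' t'' : ℝ, t0 ≤ t' ∧ t' < t'' ∧ t'' ≤ t1 ∧ (∀ t ∈ Ioo t' t'', a < ‖g t‖ ∧ ‖g t‖ < b) ∧
      ENNReal.ofReal (Real.log (b / a)) ≤ ∫⁻ t in Ioo t' t'', ENNReal.ofReal (‖g' t‖ / ‖g t‖) := by
  have hgc : ContinuousOn g (Icc t0 t1) := fun t ht => (hg t ht).continuousAt.continuousWithinAt
  have hnc : ContinuousOn (fun t => ‖g t‖) (Icc t0 t1) := hgc.norm
  -- first time the norm is `≥ b`
  obtain ⟨t'', ⟨ht''1, ht''b⟩, hmin⟩ : ∃ t'' ∈ Icc t0 t1 ∩ (fun t => ‖g t‖) ⁻¹' Ici b,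
      ∀ t ∈ Icc t0 t1 ∩ (fun t => ‖g t‖) ⁻¹' Ici b, t'' ≤ t := by
    have hc : IsCompact (Icc t0 t1 ∩ (fun t => ‖g t‖) ⁻¹' Ici b) :=
      isCompact_Icc.of_isClosed_subset (hnc.preimage_isClosed_of_isClosed isClosed_Icc isClosed_Ici)
        inter_subset_left
    exact hc.exists_isLeast ⟨t1, ⟨h01, le_rfl⟩, h1⟩ |>.imp fun t ht => ⟨ht.1, fun s hs => ht.2 hs⟩
  have hsub : Icc t0 t'' ⊆ Icc t0 t1 := Icc_subset_Icc le_rfl ht''1.2
  -- last time before with norm `≤ a`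
  obtain ⟨t', ⟨ht'1, ht'a⟩, hmax⟩ : ∃ t' ∈ Icc t0 t'' ∩ (fun t => ‖g t‖) ⁻¹' Iic a,
      ∀ t ∈ Icc t0 t'' ∩ (fun t => ‖g t‖) ⁻¹' Iic a, t ≤ t' := by
    have hc : IsCompact (Icc t0 t'' ∩ (fun t => ‖g t‖) ⁻¹' Iic a) :=
      isCompact_Icc.of_isClosed_subset
        ((hnc.mono hsub).preimage_isClosed_of_isClosed isClosed_Icc isClosed_Iic) inter_subset_left
    exact hc.exists_isGreatest ⟨t0, ⟨le_rfl, ht''1.1⟩, h0⟩ |>.imp
      fun t ht => ⟨ht.1, fun s hs => ht.2 hs⟩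
  simp only [mem_preimage, mem_Ici, mem_Iic] at ht''b ht'a
  have hlt : t' < t'' := by
    rcases lt_or_eq_of_le ht'1.2 with h | h
    · exact h
    · rw [h] at ht'a
      linarith
  have hin : ∀ t ∈ Ioo t' t'', a < ‖g t‖ ∧ ‖g t‖ < b := by
    intro t ht
    constructor
    · by_contra hcon
      push Not at hcon
      exact absurd (hmax t ⟨⟨ht'1.1.trans ht.1.le, ht.2.le⟩, hcon⟩) (not_le.2 ht.1)
    · by_contra hcon
      push Not at hcon
      exact absurd (hmin t ⟨⟨ht'1.1.trans ht.1.le, ht.2.le.trans ht''1.2⟩, hcon⟩) (not_le.2 ht.2)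
  have hsub2 : Icc t' t'' ⊆ Icc t0 t1 := Icc_subset_Icc ht'1.1 ht''1.2
  have hge : ∀ t ∈ Icc t' t'', a ≤ ‖g t‖ := by
    intro t ht
    have hc2 : ContinuousOn (fun t => ‖g t‖) (Icc t' t'') := hnc.mono hsub2
    have hcl : closure (Ioo t' t'') = Icc t' t'' := closure_Ioo hlt.ne
    have : Icc t' t'' ⊆ Icc t' t'' ∩ (fun t => ‖g t‖) ⁻¹' Ici a := by
      have hcl2 := hc2.preimage_isClosed_of_isClosed isClosed_Icc (isClosed_Ici (a := a))
      rw [← hcl]
      refine (closure_minimal (fun s hs => ?_) (hcl ▸ hcl2)).trans (by rw [hcl])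
      rw [hcl]
      exact ⟨Ioo_subset_Icc_self hs, (hin s hs).1.le⟩
    exact (this ht).2
  refine ⟨t', t'', ht'1.1, hlt, ht''1.2, hin, ?_⟩
  have hne : ∀ t ∈ Icc t' t'', ‖g t‖ ≠ 0 := fun t ht => (ha.trans_le (hge t ht)).ne'
  have hder : ∀ t ∈ uIcc t' t'', HasDerivAt (fun t => Real.log (‖g t‖ ^ 2))
      (2 * inner ℝ (g t) (g' t) / ‖g t‖ ^ 2) t := by
    intro t ht
    rw [uIcc_of_le hlt.le] at ht
    exact ((hg t (hsub2 ht)).norm_sq).log (pow_ne_zero 2 (hne t ht))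
  have hc' : ContinuousOn (fun t => 2 * inner ℝ (g t) (g' t) / ‖g t‖ ^ 2) (Icc t' t'') := by
    refine ContinuousOn.div ?_ ((hnc.mono hsub2).pow 2) fun t ht => pow_ne_zero 2 (hne t ht)
    exact continuousOn_const.mul (ContinuousOn.inner (𝕜 := ℝ) (hgc.mono hsub2) (hg'.mono hsub2))
  have hint : IntervalIntegrable (fun t => 2 * inner ℝ (g t) (g' t) / ‖g t‖ ^ 2) volume t' t'' := by
    rw [← uIcc_of_le hlt.le] at hc'
    exact hc'.intervalIntegrable
  have hc2 : ContinuousOn (fun t => ‖g' t‖ / ‖g t‖) (Icc t' t'') :=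
    ((hg'.mono hsub2).norm).div (hnc.mono hsub2) hne
  have hint2 : IntervalIntegrable (fun t => ‖g' t‖ / ‖g t‖) volume t' t'' := by
    rw [← uIcc_of_le hlt.le] at hc2
    exact hc2.intervalIntegrable
  have hFTC := integral_eq_sub_of_hasDerivAt hder hint
  have hle : ∫ t in t'..t'', (2 * inner ℝ (g t) (g' t) / ‖g t‖ ^ 2) ≤
      ∫ t in t'..t'', 2 * (‖g' t‖ / ‖g t‖) := by
    refine integral_mono_on hlt.le hint (hint2.const_mul 2) fun t ht => ?_
    have h3 : 0 < ‖g t‖ := ha.trans_le (hge t ht)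
    have h4 := real_inner_le_norm (g t) (g' t)
    rw [div_le_iff₀ (by positivity)]
    calc 2 * inner ℝ (g t) (g' t) ≤ 2 * (‖g t‖ * ‖g' t‖) := by linarith
      _ = 2 * (‖g' t‖ / ‖g t‖) * ‖g t‖ ^ 2 := by field_simp
  rw [hFTC, intervalIntegral.integral_const_mul] at hle
  simp only [Real.log_pow, Nat.cast_ofNat] at hle
  have h5 : Real.log (b / a) ≤ ∫ t in t'..t'', (‖g' t‖ / ‖g t‖) := by
    have hb0 : 0 < b := ha.trans hab
    rw [Real.log_div hb0.ne' ha.ne']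
    have h6 : Real.log b ≤ Real.log ‖g t''‖ := Real.log_le_log hb0 ht''b
    have h7 : Real.log ‖g t'‖ ≤ Real.log a :=
      Real.log_le_log (ha.trans_le (hge t' ⟨le_rfl, hlt.le⟩)) ht'a
    linarith
  rw [integral_of_le hlt.le, integral_Ioc_eq_integral_Ioo] at h5
  refine (ENNReal.ofReal_le_ofReal h5).trans ?_
  rw [ofReal_integral_eq_lintegral_ofReal]
  · exact (hint2.1.mono_set (by exact Ioo_subset_Ioc_self))
  · exact ae_of_all _ fun t => by positivity


private theorem E1h_countable {O : Set ℝ} {u q : ℝ → ℂ}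
    (h : ∀ s ∈ O, ∀ᶠ s' in 𝓝 s, u s' = u s ∧ q s' = q s) :
    {θ : ℝ | ∃ s ∈ O, (u s).re = θ}.Countable := by
  refine (countable_range fun r : ℚ => (u (r : ℝ)).re).mono ?_
  rintro θ ⟨s, hs, rfl⟩
  obtain ⟨V, hV, hVo, hsV⟩ := _root_.mem_nhds_iff.1 (h s hs)
  obtain ⟨r, hr⟩ := Rat.denseRange_cast (𝕜 := ℝ) |>.exists_mem_open hVo ⟨s, hsV⟩
  exact ⟨r, by simp only [(hV hr).1]⟩

private theorem E1h_infDist_pos {K : Set ℂ} {Φ ρ : ℂ → ℂ} (hK : Collar K Φ ρ) {u : ℂ}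
    (hu : 0 < u.im) : 0 < infDist (Φ u) K := by
  have h1 := hK.mem u hu
  rcases infDist_nonneg (x := Φ u) (s := K) |>.lt_or_eq with h | h
  · exact h
  · exact absurd ((hK.closed.mem_iff_infDist_zero hK.conn.nonempty).2 h.symm) h1

/-- E.4c (about 200 lines) CROSSING LEMMA. If the path crosses the interval `[α, α + lam τ(α)]` then its `q`-diameter is
at least `c wd(α)`. (Otherwise every radius over the interval, except countably many (values of `u` on the components of `O`),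
goes from `|Φ - Q| ≥ c2 w` at height `4 τ` (E.2b) to `|Φ - Q| < 2 c w`; integrate `|Φ'|/|Φ-Q|`, Cauchy-Schwarz and E.3.) -/
theorem crossing (C0 : ℝ) (h0 : 1 ≤ C0) (lam : ℝ) (hl : 0 < lam) (hl1 : lam ≤ 1) : ∃ c > (0 : ℝ),
    ∀ (K : Set ℂ) (Φ ρ : ℂ → ℂ), Collar K Φ ρ → ∀ y1 > 0, y1 ≤ 1 → Koebe C0 y1 K Φ →
    ∀ (a b : ℝ) (u q : ℝ → ℂ) (O : Set ℝ), PathData Φ a b u q O →
    ∀ τ : ℝ → ℝ, Depth (1 / 10) (y1 / 20) τ → (∀ s ∈ Icc a b, (u s).im ≤ τ (u s).re) →
    ∀ α s0 s1 : ℝ, s0 ∈ Icc a b → s1 ∈ Icc a b → s0 ≤ s1 →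
    (((u s0).re ≤ α ∧ α + lam * τ α ≤ (u s1).re) ∨ ((u s1).re ≤ α ∧ α + lam * τ α ≤ (u s0).re)) →
    ∃ s ∈ Icc s0 s1, ∃ s' ∈ Icc s0 s1, c * wd K Φ τ α ≤ ‖q s - q s'‖ := by
  obtain ⟨CH, hCH1, hH⟩ := harnack_u C0 h0
  obtain ⟨cs, hcs, hS⟩ := sep_u C0 h0 (1 / 2) (by norm_num)
  have hCH0 : 0 < CH := by linarith
  set L : ℝ := 10 * Real.pi / lam + 1 with hLd
  have hpi := Real.pi_pos
  have hL : 0 < L := by positivity
  set M : ℝ := Real.exp L with hMd
  have hM1 : 1 < M := by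
    rw [hMd]
    exact Real.one_lt_exp_iff.2 hL
  set c2 : ℝ := cs / (2 * CH ^ 5) with hc2d
  have hc2 : 0 < c2 := by positivity
  refine ⟨c2 / (2 * M), by positivity, ?_⟩
  intro K Φ ρ hK y1 hy1 hy11 hKo a b u q O H τ hτ hdepth α s0 s1 hs0 hs1 h01 hcr
  by_contra hcon
  push Not at hcon
  set T : ℝ := τ α with hTd
  have hT : 0 < T := hτ.pos α
  have hTy : T ≤ y1 / 20 := hτ.le α
  set w : ℝ := wd K Φ τ α with hwd
  have hptim : (pt τ α).im = T := by simp [pt, hTd]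
  have hw : 0 < w := E1h_infDist_pos hK (by rw [hptim]; exact hT)
  set δ : ℝ := c2 / (2 * M) * w with hδd
  have hδ : 0 < δ := by positivity
  set Q : ℂ := q s0 with hQd
  have hQ : ∀ s ∈ Icc s0 s1, ‖q s - Q‖ ≤ δ := fun s hs =>
    (hcon s hs s0 ⟨le_rfl, h01⟩).le
  have hτc : Continuous τ := hτ.smooth.continuous
  have hτd : Differentiable ℝ τ := hτ.smooth.differentiable (by norm_num)
  have hlip : ∀ x y : ℝ, |τ y - τ x| ≤ 1 / 10 * |y - x| := fun x y => by
    have := Convex.norm_image_sub_le_of_norm_deriv_le (f := τ) (C := 1 / 10) (s := univ)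
      (fun x _ => hτd x) (fun x _ => hτ.slope x) convex_univ (mem_univ x) (mem_univ y)
    simpa only [Real.norm_eq_abs] using this
  -- the interval
  set J : Set ℝ := Ioo α (α + lam * T) with hJd
  have hlT : 0 < lam * T := by positivity
  have hlT1 : lam * T ≤ T := mul_le_of_le_one_left hT.le hl1
  set A : ℝ := 2 * δ with hAd
  set B : ℝ := c2 * w with hBd
  have hA : 0 < A := by positivity
  have hBA : B / A = M := by
    rw [hBd, hAd, hδd]
    field_simp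
  have hAB : A < B := by
    have : B = M * A := by rw [← hBA]; field_simp
    rw [this]
    exact lt_mul_of_one_lt_left hA hM1
  -- for every good `θ`
  have key : ∀ θ ∈ J, (∀ s ∈ O, (u s).re ≠ θ) →
      ENNReal.ofReal L ≤ ∫⁻ t in Ioo 0 (5 * T), (if A < ‖Φ (θ + t * I) - Q‖ ∧ ‖Φ (θ + t * I) - Q‖ < B
        then ENNReal.ofReal (‖deriv Φ (θ + t * I)‖ / ‖Φ (θ + t * I) - Q‖) else 0) := by
    intro θ hθ hid
    have hθ1 : α < θ := hθ.1
    have hθ2 : θ < α + lam * T := hθ.2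
    have hτθ : |τ θ - T| ≤ 1 / 10 * T := by
      refine (hlip α θ).trans ?_
      have : |θ - α| ≤ T := by rw [abs_of_pos (by linarith)]; linarith
      linarith
    rw [abs_le] at hτθ
    obtain ⟨t, ht0, ht1, ht2⟩ := radius_hit hK H hτc hτ.pos hdepth (θ := θ) hs0 hs1 h01
      (hcr.imp (fun h => ⟨h.1.trans_lt hθ1, hθ2.trans_le h.2⟩)
        (fun h => ⟨h.1.trans_lt hθ1, hθ2.trans_le h.2⟩)) hid hδ hQ
    have hpos : 0 < τ θ := hτ.pos θ
    -- Harnack chain
    have step : ∀ x x' y y' : ℝ, 0 < y → 2 * y ≤ y1 → |x' - x| + |y' - y| ≤ y / 2 →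
        infDist (Φ (x + y * I)) K ≤ CH * infDist (Φ (x' + y' * I)) K := by
      intro x x' y y' hy hy2 hxy
      have hn : ‖((x' : ℂ) + y' * I) - (x + y * I)‖ ≤ y / 2 := by
        have h1 : ((x' : ℂ) + y' * I) - (x + y * I) = ((x' - x : ℝ) : ℂ) + ((y' - y : ℝ) : ℂ) * I := by
          push_cast
          ring
        rw [h1]
        refine (norm_add_le _ _).trans ?_
        rw [norm_mul, norm_I, mul_one, norm_real, norm_real, Real.norm_eq_abs, Real.norm_eq_abs]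
        exact hxy
      have him : ((x : ℂ) + y * I).im = y := by simp
      exact (hH K Φ ρ hK y1 hy1 hKo (x + y * I) (x' + y' * I) (by rw [him]; exact hy)
        (by rw [him]; exact hy2) (by rw [him]; exact hn)).2.2.1
    have e1 := step α α T (3 / 2 * T) hT (by linarith)
      (by rw [sub_self, abs_zero, zero_add, abs_of_pos (by linarith)]; linarith)
    have e2 := step α α (3 / 2 * T) (9 / 4 * T) (by linarith) (by linarith)
      (by rw [sub_self, abs_zero, zero_add, abs_of_pos (by linarith)]; linarith)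
    have e3 := step α α (9 / 4 * T) (27 / 8 * T) (by linarith) (by linarith)
      (by rw [sub_self, abs_zero, zero_add, abs_of_pos (by linarith)]; linarith)
    have e4 := step α θ (27 / 8 * T) (27 / 8 * T) (by linarith) (by linarith)
      (by rw [sub_self, abs_zero, add_zero, abs_of_pos (by linarith)]; linarith)
    have e5 := step θ θ (27 / 8 * T) (4 * τ θ) (by linarith) (by linarith)
      (by rw [sub_self, abs_zero, zero_add, abs_of_pos (by linarith)]; linarith)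
    set D5 : ℝ := infDist (Φ ((θ : ℂ) + ((4 * τ θ : ℝ) : ℂ) * I)) K with hD5
    have hw5 : w ≤ CH ^ 5 * D5 := by
      have hw0 : w = infDist (Φ ((α : ℂ) + (T : ℂ) * I)) K := by
        rw [hwd, wd, pt]
      rw [hw0]
      calc infDist (Φ ((α : ℂ) + (T : ℂ) * I)) K ≤ _ := e1
        _ ≤ CH * (CH * _) := mul_le_mul_of_nonneg_left e2 hCH0.le
        _ ≤ CH * (CH * (CH * _)) := mul_le_mul_of_nonneg_left
            (mul_le_mul_of_nonneg_left e3 hCH0.le) hCH0.le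
        _ ≤ CH * (CH * (CH * (CH * _))) := mul_le_mul_of_nonneg_left
            (mul_le_mul_of_nonneg_left (mul_le_mul_of_nonneg_left e4 hCH0.le) hCH0.le) hCH0.le
        _ ≤ CH * (CH * (CH * (CH * (CH * D5)))) := mul_le_mul_of_nonneg_left
            (mul_le_mul_of_nonneg_left (mul_le_mul_of_nonneg_left
              (mul_le_mul_of_nonneg_left e5 hCH0.le) hCH0.le) hCH0.le) hCH0.le
        _ = CH ^ 5 * D5 := by ring
    have him4 : ((θ : ℂ) + ((4 * τ θ : ℝ) : ℂ) * I).im = 4 * τ θ := by simp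
    have himt : ((θ : ℂ) + (t : ℂ) * I).im = t := by simp
    have hsep := hS K Φ ρ hK y1 hy1 hy11 hKo ((θ : ℂ) + ((4 * τ θ : ℝ) : ℂ) * I) ((θ : ℂ) + (t : ℂ) * I)
      (by rw [him4]; linarith) (by rw [him4]; linarith) (by rw [himt]; exact ht0) (fun n => by
        rw [him4]
        refine le_trans ?_ (abs_im_le_norm _)
        have : (((θ : ℂ) + (t : ℂ) * I) - ((θ : ℂ) + ((4 * τ θ : ℝ) : ℂ) * I) - 2 * Real.pi * n).im =
            t - 4 * τ θ := by
          simp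
        rw [this, abs_of_neg (by linarith)]
        linarith)
    have hend : B ≤ ‖Φ ((θ : ℂ) + ((4 * τ θ : ℝ) : ℂ) * I) - Q‖ := by
      have h1 : cs * D5 ≤ ‖Φ ((θ : ℂ) + (t : ℂ) * I) - Q‖ +
          ‖Φ ((θ : ℂ) + ((4 * τ θ : ℝ) : ℂ) * I) - Q‖ := by
        refine hsep.trans ?_
        have h2 : Φ ((θ : ℂ) + (t : ℂ) * I) - Φ ((θ : ℂ) + ((4 * τ θ : ℝ) : ℂ) * I) =
          (Φ ((θ : ℂ) + (t : ℂ) * I) - Q) - (Φ ((θ : ℂ) + ((4 * τ θ : ℝ) : ℂ) * I) - Q) := by ring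
        rw [h2]
        exact norm_sub_le _ _
      have h3 : 2 * B ≤ cs * D5 := by
        rw [hBd, hc2d]
        calc 2 * (cs / (2 * CH ^ 5) * w) ≤ 2 * (cs / (2 * CH ^ 5) * (CH ^ 5 * D5)) := by gcongr
          _ = cs * D5 := by field_simp
      linarith
    have hderiv : ∀ t' : ℝ, 0 < t' → HasDerivAt (fun t' : ℝ => Φ ((θ : ℂ) + (t' : ℂ) * I) - Q)
        (deriv Φ ((θ : ℂ) + (t' : ℂ) * I) * I) t' := by
      intro t' ht'
      have hmem : ((θ : ℂ) + (t' : ℂ) * I) ∈ UHP := by simp [UHP, ht']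
      have hopen : IsOpen UHP := isOpen_lt continuous_const continuous_im
      have h1 : HasDerivAt Φ (deriv Φ ((θ : ℂ) + (t' : ℂ) * I)) ((θ : ℂ) + (t' : ℂ) * I) :=
        (hK.dPhi.differentiableAt (hopen.mem_nhds hmem)).hasDerivAt
      have h2 : HasDerivAt (fun t' : ℝ => (θ : ℂ) + (t' : ℂ) * I) I t' := by
        have := ((hasDerivAt_id (t' : ℂ)).mul_const I).const_add (θ : ℂ)
        simpa using this.comp_ofReal
      exact (h1.comp t' h2).sub_const Q
    have hcd : ContinuousOn (fun t' : ℝ => deriv Φ ((θ : ℂ) + (t' : ℂ) * I) * I) (Icc t (4 * τ θ)) := by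
      have hopen : IsOpen UHP := isOpen_lt continuous_const continuous_im
      refine ContinuousOn.mul ?_ continuousOn_const
      refine (hK.dPhi.deriv hopen).continuousOn.comp (by fun_prop) fun t' ht' => ?_
      change 0 < ((θ : ℂ) + (t' : ℂ) * I).im
      simp only [add_im, ofReal_im, mul_im, ofReal_re, I_im, mul_one, I_re,
        mul_zero, add_zero, zero_add]
      exact ht0.trans_le ht'.1
    obtain ⟨t', t'', h1, h2, h3, h4, h5⟩ := E1h_log_cross (t0 := t) (t1 := 4 * τ θ) (by linarith)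
      (fun t' ht' => hderiv t' (ht0.trans_le ht'.1)) hcd hA hAB ht2.le hend
    rw [hBA, hMd, Real.log_exp] at h5
    refine h5.trans ?_
    refine le_trans ?_ (lintegral_mono_set (s := Ioo t' t'') (t := Ioo 0 (5 * T)) ?_)
    · refine le_of_eq (setLIntegral_congr_fun measurableSet_Ioo fun x hx => ?_)
      simp only [norm_mul, norm_I, mul_one]
      rw [if_pos (h4 x hx)]
    · exact Ioo_subset_Ioo (by linarith) (by linarith)
  -- a pointwise inequality
  have key2 : ∀ θ ∈ J, (∀ s ∈ O, (u s).re ≠ θ) →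
      ENNReal.ofReal L ≤ ENNReal.ofReal (5 * T / (2 * L)) *
        (∫⁻ t in Ioo 0 (5 * T), (if A < ‖Φ (θ + t * I) - Q‖ ∧ ‖Φ (θ + t * I) - Q‖ < B
          then ENNReal.ofReal (‖deriv Φ (θ + t * I)‖ ^ 2 / ‖Φ (θ + t * I) - Q‖ ^ 2) else 0)) +
        ENNReal.ofReal (L / 2) := by
    intro θ hθ hid
    refine (key θ hθ hid).trans ?_
    have hpt : ∀ t : ℝ, (if A < ‖Φ (θ + t * I) - Q‖ ∧ ‖Φ (θ + t * I) - Q‖ < B
        then ENNReal.ofReal (‖deriv Φ (θ + t * I)‖ / ‖Φ (θ + t * I) - Q‖) else 0) ≤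
        ENNReal.ofReal (5 * T / (2 * L)) * (if A < ‖Φ (θ + t * I) - Q‖ ∧ ‖Φ (θ + t * I) - Q‖ < B
          then ENNReal.ofReal (‖deriv Φ (θ + t * I)‖ ^ 2 / ‖Φ (θ + t * I) - Q‖ ^ 2) else 0) +
        ENNReal.ofReal (L / (10 * T)) := by
      intro t
      split_ifs with hc
      · rw [← ENNReal.ofReal_mul (by positivity), ← ENNReal.ofReal_add (by positivity) (by positivity)]
        refine ENNReal.ofReal_le_ofReal ?_
        rw [← div_pow]
        set g := ‖deriv Φ (θ + t * I)‖ / ‖Φ (θ + t * I) - Q‖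
        have : 0 ≤ 5 * T / (2 * L) * (g - L / (5 * T)) ^ 2 := by positivity
        have h2 : 5 * T / (2 * L) * (g - L / (5 * T)) ^ 2 =
          5 * T / (2 * L) * g ^ 2 + L / (10 * T) - g := by
          field_simp
          ring
        linarith
      · exact zero_le
    refine (lintegral_mono hpt).trans ?_
    rw [lintegral_add_right _ measurable_const, lintegral_const_mul' _ _ ENNReal.ofReal_ne_top]
    refine add_le_add le_rfl ?_
    rw [setLIntegral_const, Real.volume_Ioo, ← ENNReal.ofReal_mul (by positivity)]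
    refine ENNReal.ofReal_le_ofReal (le_of_eq ?_)
    field_simp
    ring
  -- integrate over `θ`
  have hae : ∀ᵐ θ : ℝ, ∀ s ∈ O, (u s).re ≠ θ := by
    have hcnt := E1h_countable (q := q) H.Oconst
    have := hcnt.measure_zero volume
    rw [measure_eq_zero_iff_ae_notMem] at this
    filter_upwards [this] with θ hθ s hs he
    exact hθ ⟨s, hs, he⟩
  have hint : ∫⁻ θ in J, ENNReal.ofReal L ≤ ∫⁻ θ in J, (ENNReal.ofReal (5 * T / (2 * L)) *
        (∫⁻ t in Ioo 0 (5 * T), (if A < ‖Φ (θ + t * I) - Q‖ ∧ ‖Φ (θ + t * I) - Q‖ < B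
          then ENNReal.ofReal (‖deriv Φ (θ + t * I)‖ ^ 2 / ‖Φ (θ + t * I) - Q‖ ^ 2) else 0)) +
        ENNReal.ofReal (L / 2)) := by
    refine lintegral_mono_ae ?_
    rw [ae_restrict_iff' measurableSet_Ioo]
    filter_upwards [hae] with θ hθ hJ
    exact key2 θ hJ hθ
  rw [lintegral_add_right _ measurable_const, lintegral_const_mul' _ _ ENNReal.ofReal_ne_top,
    setLIntegral_const, setLIntegral_const, hJd, Real.volume_Ioo] at hint
  have hlog := log_area hK α (α + lam * T) (5 * T) (by linarith) (by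
    have : lam * T ≤ 1 := by linarith
    have := Real.pi_gt_three
    linarith) (by linarith) Q A B hA hAB
  rw [hBA, hMd, Real.log_exp] at hlog
  have hfin := hint.trans (add_le_add_left (mul_le_mul_right hlog _) _)
  have e0 : α + lam * T - α = lam * T := by ring
  rw [e0, ← ENNReal.ofReal_mul (by positivity), ← ENNReal.ofReal_mul (by positivity),
    ← ENNReal.ofReal_mul (by positivity), ← ENNReal.ofReal_add (by positivity) (by positivity),
    ENNReal.ofReal_le_ofReal_iff (by positivity)] at hfin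
  have e1 : 5 * T / (2 * L) * (2 * Real.pi * L) = 5 * T * Real.pi := by field_simp
  rw [e1] at hfin
  have e2 : L * (lam * T) = (10 * Real.pi + lam) * T := by
    rw [hLd]
    field_simp
  have e3 : L / 2 * (lam * T) = (10 * Real.pi + lam) * T / 2 := by
    rw [← e2]
    ring
  rw [e2, e3] at hfin
  have e4 : (10 * Real.pi + lam) * T = 10 * (T * Real.pi) + lam * T := by ring
  have e5 : 5 * T * Real.pi = 5 * (T * Real.pi) := by ring
  rw [e4, e5] at hfin
  linarith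

end CF6

end

section

open Complex MeasureTheory Set Filter Topology Metric intervalIntegral

namespace CF6

/-- E.5a (about 60 lines): `arcA` increments and `wd` over steps of size `≤ τ`. -/
theorem step_bounds (C0 : ℝ) (h0 : 1 ≤ C0) : ∃ C : ℝ, 1 ≤ C ∧
    ∀ (K : Set ℂ) (Φ ρ : ℂ → ℂ), Collar K Φ ρ → ∀ y1 > 0, y1 ≤ 1 → Koebe C0 y1 K Φ →
    ∀ τ : ℝ → ℝ, Depth (1 / 10) (y1 / 20) τ → ∀ α β : ℝ, |β - α| ≤ τ α →
    |arcA Φ τ β - arcA Φ τ α| ≤ C * wd K Φ τ α ∧ wd K Φ τ β ≤ C * wd K Φ τ α ∧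
      wd K Φ τ α ≤ C * wd K Φ τ β ∧
      |arcA Φ τ β - arcA Φ τ α| ≤ C * (‖deriv Φ (pt τ α)‖ * |β - α|) := by
  obtain ⟨C, hC1, hC⟩ := harnack_u C0 h0
  have hCpos : 0 < C := by linarith
  have hC4 : 1 ≤ C ^ 4 := one_le_pow₀ hC1
  refine ⟨2 * C ^ 4 * C0, by nlinarith, ?_⟩
  intro K Φ ρ hK y1 hy1 hy1' hk τ hτ α β hαβ
  have hopen : IsOpen UHP := isOpen_lt continuous_const Complex.continuous_im
  have hτd : Differentiable ℝ τ := hτ.smooth.differentiable (by norm_num)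
  have hlip : ∀ x y, |τ x - τ y| ≤ 1 / 10 * |x - y| := by
    intro x y
    have := (convex_univ (𝕜 := ℝ) (E := ℝ)).norm_image_sub_le_of_norm_deriv_le
      (f := τ) (C := 1 / 10) (x := y) (y := x)
      (fun z _ => hτd z) (fun z _ => by rw [Real.norm_eq_abs]; exact hτ.slope z)
      (mem_univ _) (mem_univ _)
    simpa [Real.norm_eq_abs] using this
  have hτα := hτ.pos α
  have him : ∀ x, (pt τ x).im = τ x := by intro x; simp [pt]
  -- one step
  have one : ∀ x x', |x - x'| ≤ τ α / 4 → |x' - α| ≤ τ α →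
      wd K Φ τ x ≤ C * wd K Φ τ x' ∧ wd K Φ τ x' ≤ C * wd K Φ τ x ∧
      ‖deriv Φ (pt τ x)‖ ≤ C * ‖deriv Φ (pt τ x')‖ := by
    intro x x' hx hx'
    have h1 : 9 / 10 * τ α ≤ τ x' := by
      have := abs_le.1 (hlip x' α)
      linarith [this.1]
    have h2 : ‖pt τ x - pt τ x'‖ ≤ (pt τ x').im / 2 := by
      have e : pt τ x - pt τ x' = ((x - x' : ℝ) : ℂ) + ((τ x - τ x' : ℝ) : ℂ) * I := by
        simp only [pt]; push_cast; ring
      rw [e, him]
      calc _ ≤ ‖((x - x' : ℝ) : ℂ)‖ + ‖((τ x - τ x' : ℝ) : ℂ) * I‖ := norm_add_le _ _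
        _ = |x - x'| + |τ x - τ x'| := by
          rw [norm_mul, Complex.norm_I, mul_one, Complex.norm_real, Complex.norm_real,
            Real.norm_eq_abs, Real.norm_eq_abs]
        _ ≤ |x - x'| + 1 / 10 * |x - x'| := by linarith [hlip x x']
        _ ≤ τ x' / 2 := by linarith
    have h3 : 0 < (pt τ x').im := by rw [him]; exact hτ.pos x'
    have h4 : 2 * (pt τ x').im ≤ y1 := by rw [him]; linarith [hτ.le x']
    obtain ⟨-, k1, k2, k3, -⟩ := hC K Φ ρ hK y1 hy1 hk (pt τ x') (pt τ x) h3 h4 h2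
    exact ⟨k1, k2, k3⟩
  -- four steps
  have four : ∀ x, |x - α| ≤ τ α → wd K Φ τ x ≤ C ^ 4 * wd K Φ τ α ∧
      wd K Φ τ α ≤ C ^ 4 * wd K Φ τ x ∧ ‖deriv Φ (pt τ x)‖ ≤ C ^ 4 * ‖deriv Φ (pt τ α)‖ := by
    intro x hx
    let z : ℝ → ℝ := fun i => α + i / 4 * (x - α)
    have hz : ∀ i, 0 ≤ i → i ≤ 3 → |z (i + 1) - z i| ≤ τ α / 4 ∧ |z i - α| ≤ τ α := by
      intro i hi hi3
      constructor
      · have : z (i + 1) - z i = 1 / 4 * (x - α) := by simp only [z]; ring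
        rw [this, abs_mul, abs_of_pos (by norm_num : (0 : ℝ) < 1 / 4)]
        linarith
      · have : z i - α = i / 4 * (x - α) := by simp only [z]; ring
        rw [this, abs_mul, abs_of_nonneg (by positivity : (0 : ℝ) ≤ i / 4)]
        calc i / 4 * |x - α| ≤ 1 * |x - α| :=
              mul_le_mul_of_nonneg_right (by linarith) (abs_nonneg _)
          _ ≤ τ α := by linarith
    have hz0 : z 0 = α := by simp [z]
    have hz4 : z (3 + 1) = x := by simp only [z]; ring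
    obtain ⟨a1, b1, c1⟩ := one _ _ (hz 0 (by norm_num) (by norm_num)).1 (hz 0 (by norm_num) (by norm_num)).2
    obtain ⟨a2, b2, c2⟩ := one _ _ (hz 1 (by norm_num) (by norm_num)).1 (hz 1 (by norm_num) (by norm_num)).2
    obtain ⟨a3, b3, c3⟩ := one _ _ (hz 2 (by norm_num) (by norm_num)).1 (hz 2 (by norm_num) (by norm_num)).2
    obtain ⟨a4, b4, c4⟩ := one _ _ (hz 3 (by norm_num) (by norm_num)).1 (hz 3 (by norm_num) (by norm_num)).2
    rw [hz4] at a4 b4 c4
    rw [hz0, show (0 : ℝ) + 1 = 1 by norm_num] at a1 b1 c1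
    rw [show (1 : ℝ) + 1 = 2 by norm_num] at a2 b2 c2
    rw [show (2 : ℝ) + 1 = 3 by norm_num] at a3 b3 c3
    have pw : ∀ v w1 w2 w3 w4 : ℝ, w1 ≤ C * v → w2 ≤ C * w1 → w3 ≤ C * w2 → w4 ≤ C * w3 →
        w4 ≤ C ^ 4 * v := by
      intro v w1 w2 w3 w4 h1 h2 h3 h4
      calc w4 ≤ C * w3 := h4
        _ ≤ C * (C * w2) := mul_le_mul_of_nonneg_left h3 hCpos.le
        _ ≤ C * (C * (C * w1)) :=
          mul_le_mul_of_nonneg_left (mul_le_mul_of_nonneg_left h2 hCpos.le) hCpos.le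
        _ ≤ C * (C * (C * (C * v))) :=
          mul_le_mul_of_nonneg_left (mul_le_mul_of_nonneg_left
            (mul_le_mul_of_nonneg_left h1 hCpos.le) hCpos.le) hCpos.le
        _ = C ^ 4 * v := by ring
    exact ⟨pw _ _ _ _ _ a1 a2 a3 a4, pw _ _ _ _ _ b4 b3 b2 b1, pw _ _ _ _ _ c1 c2 c3 c4⟩
  have hwd : ∀ x, 0 ≤ wd K Φ τ x := fun x => infDist_nonneg
  -- the arc length function
  set f : ℝ → ℝ := fun s => ‖deriv Φ (s + τ s * I)‖ * ‖(1 + deriv τ s * I : ℂ)‖ with hf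
  have hfc : Continuous f := by
    have c1 : Continuous fun s : ℝ => ((s : ℂ) + τ s * I) :=
      Complex.continuous_ofReal.add
        ((Complex.continuous_ofReal.comp hτ.smooth.continuous).mul continuous_const)
    have c2 : ContinuousOn (deriv Φ) UHP := (hK.dPhi.deriv hopen).continuousOn
    have c3 : Continuous fun s : ℝ => deriv Φ ((s : ℂ) + τ s * I) := by
      apply c2.comp_continuous c1
      intro s
      change 0 < ((s : ℂ) + τ s * I).im
      have : ((s : ℂ) + τ s * I).im = τ s := by simp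
      rw [this]; exact hτ.pos s
    have c4 : Continuous (deriv τ) := hτ.smooth.continuous_deriv (by norm_num)
    exact c3.norm.mul ((continuous_const.add
      ((Complex.continuous_ofReal.comp c4).mul continuous_const)).norm)
  have harc : arcA Φ τ β - arcA Φ τ α = ∫ s in α..β, f s := by
    have := intervalIntegral.integral_interval_sub_left (hfc.intervalIntegrable 0 β)
      (hfc.intervalIntegrable 0 α) (μ := volume)
    exact this
  have hslope : ∀ s, ‖(1 + deriv τ s * I : ℂ)‖ ≤ 2 := by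
    intro s
    calc ‖(1 + deriv τ s * I : ℂ)‖ ≤ ‖(1 : ℂ)‖ + ‖((deriv τ s : ℝ) : ℂ) * I‖ := norm_add_le _ _
      _ = 1 + |deriv τ s| := by
        rw [norm_one, norm_mul, Complex.norm_I, mul_one, Complex.norm_real, Real.norm_eq_abs]
      _ ≤ 2 := by linarith [hτ.slope s]
  have hfb : ∀ s ∈ Set.uIoc α β, ‖f s‖ ≤ 2 * C ^ 4 * ‖deriv Φ (pt τ α)‖ := by
    intro s hs
    have h1 : |s - α| ≤ τ α := by
      have : |s - α| ≤ |β - α| := Set.abs_sub_left_of_mem_uIcc (Set.uIoc_subset_uIcc hs)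
      exact this.trans hαβ
    have h2 := (four s h1).2.2
    rw [Real.norm_eq_abs, abs_of_nonneg (by positivity)]
    calc f s ≤ (C ^ 4 * ‖deriv Φ (pt τ α)‖) * 2 :=
          mul_le_mul h2 (hslope s) (norm_nonneg _) (by positivity)
      _ = _ := by ring
  have hint : |arcA Φ τ β - arcA Φ τ α| ≤ 2 * C ^ 4 * ‖deriv Φ (pt τ α)‖ * |β - α| := by
    rw [harc]
    have := intervalIntegral.norm_integral_le_of_norm_le_const hfb
    rwa [Real.norm_eq_abs] at this
  have hkα := (hk (pt τ α) (by rw [him]; exact hτα) (by rw [him]; linarith [hτ.le α])).1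
  rw [him] at hkα
  obtain ⟨f1, f2, f3⟩ := four β hαβ
  have hbig : C ^ 4 ≤ 2 * C ^ 4 * C0 := by nlinarith
  refine ⟨?_, f1.trans (mul_le_mul_of_nonneg_right hbig (hwd _)),
    f2.trans (mul_le_mul_of_nonneg_right hbig (hwd _)), ?_⟩
  · calc _ ≤ _ := hint
      _ ≤ 2 * C ^ 4 * ‖deriv Φ (pt τ α)‖ * τ α := mul_le_mul_of_nonneg_left hαβ (by positivity)
      _ = 2 * C ^ 4 * (‖deriv Φ (pt τ α)‖ * τ α) := by ring
      _ ≤ 2 * C ^ 4 * (C0 * wd K Φ τ α) := mul_le_mul_of_nonneg_left hkα (by positivity)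
      _ = _ := by ring
  · calc _ ≤ _ := hint
      _ = 2 * C ^ 4 * 1 * (‖deriv Φ (pt τ α)‖ * |β - α|) := by ring
      _ ≤ 2 * C ^ 4 * C0 * (‖deriv Φ (pt τ α)‖ * |β - α|) := by
        apply mul_le_mul_of_nonneg_right _ (by positivity)
        exact mul_le_mul_of_nonneg_left h0 (by positivity)

end CF6

end
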