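import Pool.Agent.Lib.MP_cf6b16_an.DE1

section

open Complex MeasureTheory Set Filter Topology Metric intervalIntegral

namespace CF6

theorem e1p_open : IsOpen UHP := isOpen_lt continuous_const Complex.continuous_im

theorem e1p_path (α y : ℝ) : HasDerivAt (fun y : ℝ => (α + y * I : ℂ)) I y := by
  have h1 : HasDerivAt (fun y : ℝ => (y : ℂ)) 1 y := Complex.ofRealCLM.hasDerivAt
  have h2 := (h1.mul_const I).const_add (α : ℂ)
  rw [one_mul] at h2
  exact h2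

theorem e1p_im (α y : ℝ) : ((α + y * I : ℂ)).im = y := by simp

theorem e1p_one {Φ : ℂ → ℂ} (hΦ : DifferentiableOn ℂ Φ UHP) (α y : ℝ) (hy : 0 < y) :
    HasDerivAt (fun y : ℝ => Φ (α + y * I)) (deriv Φ (α + y * I) * I) y := by
  have hmem : (α + y * I : ℂ) ∈ UHP := by
    change 0 < (α + y * I : ℂ).im
    rw [e1p_im]; exact hy
  have h1 : HasDerivAt Φ (deriv Φ (α + y * I)) (α + y * I) :=
    (hΦ.differentiableAt (e1p_open.mem_nhds hmem)).hasDerivAt
  exact HasDerivAt.comp y h1 (e1p_path α y)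

theorem e1p_ball (α y : ℝ) (hy : 0 < y) : ball (α + y * I : ℂ) (2 * (y / 4)) ⊆ UHP := by
  intro u hu
  have h1 : |(u - (α + y * I)).im| ≤ ‖u - (α + y * I)‖ := Complex.abs_im_le_norm _
  have h2 : ‖u - (α + y * I)‖ < 2 * (y / 4) := by rw [← dist_eq_norm]; exact mem_ball.1 hu
  rw [Complex.sub_im, e1p_im] at h1
  have h3 := (abs_le.1 h1).1
  change 0 < u.im
  linarith

/-- `‖Φ'(α+iy)‖² y` is nondecreasing. -/
theorem e1p_mono {Φ : ℂ → ℂ} (hΦ : DifferentiableOn ℂ Φ UHP) {e : ℂ} {α t : ℝ} (he : ‖e‖ = 1)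
    (hd : ∀ y : ℝ, 0 < y → y ≤ t → ∀ u : ℂ, ‖u - (α + y * I)‖ ≤ y / 4 → 0 < u.im ∧ deriv Φ u ≠ 0 ∧
        ‖deriv Φ u / ‖deriv Φ u‖ - e‖ ≤ 1 / 200) (y : ℝ) (hy : 0 < y) (hyt : y ≤ t) :
    ‖deriv Φ (α + y * I)‖ ^ 2 * y ≤ ‖deriv Φ (α + t * I)‖ ^ 2 * t := by
  have hΦ' : DifferentiableOn ℂ (deriv Φ) UHP := hΦ.deriv e1p_open
  have hder : ∀ z : ℝ, 0 < z → HasDerivAt (fun z : ℝ => ‖deriv Φ (α + z * I)‖ ^ 2 * z)
      (2 * inner ℝ (deriv Φ (α + z * I)) (deriv (deriv Φ) (α + z * I) * I) * z +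
        ‖deriv Φ (α + z * I)‖ ^ 2 * 1) z := fun z hz =>
    ((e1p_one hΦ' α z hz).norm_sq).mul (hasDerivAt_id z)
  have hmono : MonotoneOn (fun z : ℝ => ‖deriv Φ (α + z * I)‖ ^ 2 * z) (Icc y t) := by
    refine monotoneOn_of_deriv_nonneg (convex_Icc y t) ?_ ?_ ?_
    · intro z hz
      exact (hder z (hy.trans_le hz.1)).continuousAt.continuousWithinAt
    · intro z hz
      rw [interior_Icc] at hz
      exact (hder z (hy.trans hz.1)).differentiableAt.differentiableWithinAt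
    · intro z hz
      rw [interior_Icc] at hz
      have hz0 : 0 < z := hy.trans hz.1
      rw [(hder z hz0).deriv]
      have h1 : ‖deriv (deriv Φ) (α + z * I)‖ ≤ 16 * (1 / 200) / (z / 4) * ‖deriv Φ (α + z * I)‖ := by
        refine log_deriv_bound (e := e) (by positivity) (by norm_num) (by norm_num) he
          (hΦ.mono (e1p_ball α z hz0)) ?_
        intro u hu
        have h2 := hd z hz0 hz.2.le u (by rw [← dist_eq_norm]; exact mem_closedBall.1 hu)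
        exact h2.2
      have h3 := abs_real_inner_le_norm (deriv Φ (α + z * I)) (deriv (deriv Φ) (α + z * I) * I)
      rw [norm_mul, Complex.norm_I, mul_one] at h3
      have h4 := (abs_le.1 h3).1
      set A := ‖deriv Φ (α + z * I)‖
      set B := ‖deriv (deriv Φ) (α + z * I)‖
      have hA : 0 ≤ A := norm_nonneg _
      have h5 : B * z ≤ 8 / 25 * A := by
        calc B * z ≤ (16 * (1 / 200) / (z / 4) * A) * z := mul_le_mul_of_nonneg_right h1 hz0.le
          _ = 8 / 25 * A := by field_simp; ring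
      have h6 : -(A * B) * z ≤ inner ℝ (deriv Φ (α + z * I)) (deriv (deriv Φ) (α + z * I) * I) * z :=
        mul_le_mul_of_nonneg_right h4 hz0.le
      have h7 : A * (B * z) ≤ A * (8 / 25 * A) := mul_le_mul_of_nonneg_left h5 hA
      nlinarith [sq_nonneg A]
  exact hmono (left_mem_Icc.2 hyt) (right_mem_Icc.2 hyt) hyt

/-- E.7d (about 100 lines): end points, `‖Φ(α + i t') - p‖ ≤ C ε wd`, `t' ≤ 5 ε² s`, `s ≤ t ≤ 5 s`. By E.7b (`η = 1/200`, `r = y/4`)
`|Φ'(α+iy)| ≤ |Φ'(α+it)| (t/y)^{0.32}` for `y ≤ t`; integrate over `0 < y < t'`; `‖Φ'(α+it)‖ t ≤ C0 infDist`. -/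
theorem end_compare (C0 : ℝ) (h0 : 1 ≤ C0) : ∃ C : ℝ, 1 ≤ C ∧ ∀ (K : Set ℂ) (Φ ρ : ℂ → ℂ),
    Collar K Φ ρ → ∀ y1 > 0, Koebe C0 y1 K Φ → ∀ ε : ℝ, 0 < ε → C * ε ≤ 1 →
    ∀ (e p : ℂ) (α t' t s : ℝ), ‖e‖ = 1 → 0 < t' → t' ≤ 5 * ε ^ 2 * s → s ≤ t → t ≤ 5 * s →
    5 * s ≤ y1 →
    (∀ y : ℝ, 0 < y → y ≤ t → ∀ u : ℂ, ‖u - (α + y * I)‖ ≤ y / 4 → 0 < u.im ∧ deriv Φ u ≠ 0 ∧
        ‖deriv Φ u / ‖deriv Φ u‖ - e‖ ≤ 1 / 200) →
    Tendsto (fun y : ℝ => Φ (α + y * I)) (𝓝[>] 0) (𝓝 p) →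
    ‖Φ (α + t' * I) - p‖ ≤ C * ε * infDist (Φ (α + t * I)) K := by
  refine ⟨5 * C0, by linarith, ?_⟩
  intro K Φ ρ hK y1 _ hKo ε hε hCε e p α t' t s he ht' ht's hst ht5 h5 hd hlim
  have hs0 : 0 < s := by
    by_contra hs
    have : 5 * ε ^ 2 * s ≤ 0 := mul_nonpos_of_nonneg_of_nonpos (by positivity) (by linarith)
    linarith
  have ht0 : 0 < t := hs0.trans_le hst
  have hε5 : 5 * ε ≤ 1 := by nlinarith
  have htt : t' ≤ t := by
    have h1 : 5 * ε ^ 2 ≤ 1 := by nlinarith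
    have h2 : 5 * ε ^ 2 * s ≤ 1 * s := mul_le_mul_of_nonneg_right h1 hs0.le
    linarith
  set D : ℝ := ‖deriv Φ (α + t * I)‖ with hD
  have hD0 : 0 ≤ D := norm_nonneg _
  set M : ℝ := D * Real.sqrt t with hM
  have hM0 : 0 ≤ M := by positivity
  have hsq : ∀ y : ℝ, 0 < y → y ≤ t → ‖deriv Φ (α + y * I)‖ ≤ M / Real.sqrt y := by
    intro y hy hyt
    rw [le_div_iff₀ (Real.sqrt_pos.2 hy)]
    have h1 := e1p_mono hK.dPhi he hd y hy hyt
    refine le_of_pow_le_pow_left₀ (n := 2) (by norm_num) hM0 ?_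
    rw [mul_pow, Real.sq_sqrt hy.le, hM, mul_pow, Real.sq_sqrt ht0.le]
    exact h1
  have key : ∀ δ : ℝ, 0 < δ → δ ≤ t' → ‖Φ (α + t' * I) - Φ (α + δ * I)‖ ≤ 2 * M * Real.sqrt t' := by
    intro δ hδ hδt
    have h1 := image_norm_le_of_norm_deriv_right_le_deriv_boundary'
      (f := fun y : ℝ => Φ (α + y * I) - Φ (α + δ * I)) (f' := fun y => deriv Φ (α + y * I) * I)
      (a := δ) (b := t') (B := fun y => 2 * M * Real.sqrt y) (B' := fun y => 2 * M * (1 / (2 * Real.sqrt y)))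
      (fun y hy => ((e1p_one hK.dPhi α y (hδ.trans_le hy.1)).sub_const _).continuousAt.continuousWithinAt)
      (fun y hy => ((e1p_one hK.dPhi α y (hδ.trans_le hy.1)).sub_const _).hasDerivWithinAt)
      (by simp only [sub_self, norm_zero]; positivity)
      (fun y hy => (((Real.hasDerivAt_sqrt (hδ.trans_le hy.1).ne').const_mul (2 * M))).continuousAt.continuousWithinAt)
      (fun y hy => (((Real.hasDerivAt_sqrt (hδ.trans_le hy.1).ne').const_mul (2 * M))).hasDerivWithinAt)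
      (fun y hy => by
        have hy0 : 0 < y := hδ.trans_le hy.1
        have h2 := hsq y hy0 (hy.2.le.trans htt)
        have h3 : 0 < Real.sqrt y := Real.sqrt_pos.2 hy0
        rw [norm_mul, Complex.norm_I, mul_one]
        refine h2.trans (le_of_eq ?_)
        field_simp)
    exact h1 (right_mem_Icc.2 hδt)
  have hlim2 : ‖Φ (α + t' * I) - p‖ ≤ 2 * M * Real.sqrt t' := by
    refine le_of_tendsto ((tendsto_const_nhds.sub hlim).norm) ?_
    filter_upwards [Ioc_mem_nhdsGT ht'] with δ hδ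
    exact key δ hδ.1 hδ.2
  refine hlim2.trans ?_
  have h1 := (hKo (α + t * I) (by rw [e1p_im]; exact ht0) (by rw [e1p_im]; linarith)).1
  rw [e1p_im] at h1
  have h2 : Real.sqrt t' ≤ 5 / 2 * ε * Real.sqrt t := by
    have h3 : t' ≤ (5 / 2 * ε) ^ 2 * t := by
      have h4 : 5 * ε ^ 2 * s ≤ 5 * ε ^ 2 * t := mul_le_mul_of_nonneg_left hst (by positivity)
      have h5 : 0 ≤ ε ^ 2 * t := by positivity
      nlinarith
    calc Real.sqrt t' ≤ Real.sqrt ((5 / 2 * ε) ^ 2 * t) := Real.sqrt_le_sqrt h3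
      _ = 5 / 2 * ε * Real.sqrt t := by
        rw [Real.sqrt_mul (by positivity), Real.sqrt_sq (by positivity)]
  have h3 : Real.sqrt t * Real.sqrt t = t := Real.mul_self_sqrt ht0.le
  calc 2 * M * Real.sqrt t' ≤ 2 * M * (5 / 2 * ε * Real.sqrt t) := mul_le_mul_of_nonneg_left h2 (by positivity)
    _ = 5 * ε * (D * (Real.sqrt t * Real.sqrt t)) := by rw [hM]; ring
    _ = 5 * ε * (D * t) := by rw [h3]
    _ ≤ 5 * ε * (C0 * infDist (Φ (α + t * I)) K) := mul_le_mul_of_nonneg_left h1 (by positivity)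
    _ = 5 * C0 * ε * infDist (Φ (α + t * I)) K := by ring

end CF6

end

section

open Complex MeasureTheory Set Filter Topology Metric

namespace CF6

private lemma pt_im {c r : ℝ} {τ : ℝ → ℝ} (hτ : Depth c r τ) (x : ℝ) : 0 < (pt τ x).im := by
  simpa [pt] using hτ.pos x

private lemma pt_cont {c r : ℝ} {τ : ℝ → ℝ} (hτ : Depth c r τ) : Continuous (pt τ) := by
  unfold pt
  exact continuous_ofReal.add ((continuous_ofReal.comp hτ.smooth.continuous).mul continuous_const)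

private lemma dPhi_cont {Φ : ℂ → ℂ} (hd : DifferentiableOn ℂ Φ UHP) {c r : ℝ} {τ : ℝ → ℝ}
    (hτ : Depth c r τ) : Continuous (fun x => deriv Φ (pt τ x)) := by
  have hU : IsOpen UHP := isOpen_lt continuous_const continuous_im
  have h1 : ContinuousOn (deriv Φ) UHP := (hd.deriv hU).continuousOn
  exact h1.comp_continuous (pt_cont hτ) (fun x => pt_im hτ x)

private lemma arc_cont {Φ : ℂ → ℂ} (hd : DifferentiableOn ℂ Φ UHP) {c r : ℝ} {τ : ℝ → ℝ}
    (hτ : Depth c r τ) :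
    Continuous (fun s : ℝ => ‖deriv Φ (s + τ s * I)‖ * ‖(1 + deriv τ s * I : ℂ)‖) := by
  have h1 := (dPhi_cont hd hτ).norm
  have h2 : Continuous (deriv τ) := hτ.smooth.continuous_deriv (by norm_num)
  refine h1.mul ?_
  exact (continuous_const.add ((continuous_ofReal.comp h2).mul continuous_const)).norm

private lemma arc_sub {Φ : ℂ → ℂ} (hd : DifferentiableOn ℂ Φ UHP) {c r : ℝ} {τ : ℝ → ℝ}
    (hτ : Depth c r τ) (x y : ℝ) : arcA Φ τ y - arcA Φ τ x =
      ∫ s in x..y, ‖deriv Φ (s + τ s * I)‖ * ‖(1 + deriv τ s * I : ℂ)‖ := by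
  unfold arcA
  exact intervalIntegral.integral_interval_sub_left ((arc_cont hd hτ).intervalIntegrable _ _)
    ((arc_cont hd hτ).intervalIntegrable _ _)

/-- E.7 (MID) (about 120 lines) assembly. -/
theorem mid (C0 : ℝ) (h0 : 1 ≤ C0) : ∃ C : ℝ, 1 ≤ C ∧ ∀ (K : Set ℂ) (Φ ρ : ℂ → ℂ),
    Collar K Φ ρ → ∀ y1 > 0, Koebe C0 y1 K Φ → ∀ (E : Set ℝ) (p e : ℝ → ℂ), IsClosed E →
    (∀ x, x ∈ E ↔ x + 2 * Real.pi ∈ E) → (∀ x ∈ E, ‖e x‖ = 1) → UIsogonal Φ E p e →
    ∀ ε : ℝ, 0 < ε → C * ε < 1 → ∃ κ0 > (0 : ℝ), ∀ κ : ℝ, 0 < κ → κ < κ0 → ∀ s : ℝ, 0 < s →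
    s ≤ κ → ∀ τ : ℝ → ℝ, TauFor E ε κ s τ → ∀ α1 ∈ E, ∀ α2 ∈ E, |α1 - α2| ≤ κ / ε →
    |arcA Φ τ α1 - arcA Φ τ α2| ≤ (1 + C * ε) * ‖p α1 - p α2‖ +
      C * ε * (wd K Φ τ α1 + wd K Φ τ α2) := by
  obtain ⟨Cr, hCr, hrad⟩ := radial_compare
  obtain ⟨Ce, hCe, hend⟩ := end_compare C0 h0
  obtain ⟨Cc, hCc, hcho⟩ := chord_length
  set C : ℝ := 3 * (1 + Cr + Cc) + 8 * Ce + 10 with hC
  have hC10 : 10 ≤ C := by rw [hC]; linarith
  refine ⟨C, by linarith, ?_⟩
  intro K Φ ρ hK y1 hy1 hKo E p e hEc hEp he hU ε hε hCε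
  have hε10 : ε ≤ 1 / 10 := by
    have := mul_le_mul_of_nonneg_right hC10 hε.le
    linarith
  have hCrε : Cr * ε ≤ 1 := (mul_le_mul_of_nonneg_right (show Cr ≤ C by rw [hC]; linarith)
    hε.le).trans hCε.le
  have hCeε : Ce * ε ≤ 1 := (mul_le_mul_of_nonneg_right (show Ce ≤ C by rw [hC]; linarith)
    hε.le).trans hCε.le
  have hCcε : Cc * ε ≤ 1 := (mul_le_mul_of_nonneg_right (show Cc ≤ C by rw [hC]; linarith)
    hε.le).trans hCε.le
  obtain ⟨κ1, hκ1, hcone⟩ := cone_region hEc hU hε hε10 (ε ^ 2) (by positivity)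
  obtain ⟨δ, hδ, hiso⟩ := hU 1 one_pos (1 / 200) (by norm_num)
  refine ⟨min κ1 (min (δ / 10) (y1 / 5)), lt_min hκ1 (lt_min (by positivity) (by positivity)), ?_⟩
  intro κ hκ hκ' s hs hsκ τ hτ
  have k1 : κ < κ1 := lt_of_lt_of_le hκ' (min_le_left _ _)
  have k2 : κ < δ / 10 := lt_of_lt_of_le hκ' ((min_le_right _ _).trans (min_le_left _ _))
  have k3 : κ < y1 / 5 := lt_of_lt_of_le hκ' ((min_le_right _ _).trans (min_le_right _ _))
  have hε2 : ε ^ 2 ≤ 1 / 100 := by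
    have := pow_le_pow_left₀ hε.le hε10 2
    linarith
  have hε2' : ε ^ 2 ≤ ε := by
    rw [pow_two]
    exact mul_le_of_le_one_left hε.le (by linarith)
  -- the ends
  have hends : ∀ τ' : ℝ → ℝ, TauFor E ε κ (ε ^ 2 * s) τ' → ∀ α ∈ E,
      ‖Φ (pt τ' α) - p α‖ ≤ Ce * ε * wd K Φ τ α := by
    intro τ' hτ' α hα
    have t1 : τ' α ≤ 5 * ε ^ 2 * s := by
      have := hτ'.le' α
      rw [infDist_zero_of_mem hα] at this
      linarith
    have t2 : τ α ≤ 5 * s := by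
      have := hτ.le' α
      rw [infDist_zero_of_mem hα] at this
      linarith
    have hreg : ∀ y : ℝ, 0 < y → y ≤ τ α → ∀ u : ℂ, ‖u - (α + y * I)‖ ≤ y / 4 → 0 < u.im ∧
        deriv Φ u ≠ 0 ∧ ‖deriv Φ u / ‖deriv Φ u‖ - e α‖ ≤ 1 / 200 := by
      intro y hy hyt u hu
      have h1 : |(u - (α + y * I)).re| ≤ y / 4 := (abs_re_le_norm _).trans hu
      have h2 : |(u - (α + y * I)).im| ≤ y / 4 := (abs_im_le_norm _).trans hu
      simp only [sub_re, add_re, ofReal_re, mul_re, I_re, mul_zero, ofReal_im, I_im, mul_one,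
        sub_self, add_zero, sub_im, add_im, mul_im, zero_add] at h1 h2
      have h3 := abs_le.1 h2
      have h4 : 0 < u.im := by linarith [h3.1]
      refine ⟨h4, ?_⟩
      have := hiso α hα u h4 (by linarith [h3.2]) (by linarith [h3.1])
      exact ⟨this.2.1, this.2.2⟩
    have hlim : Tendsto (fun y : ℝ => Φ (α + y * I)) (𝓝[>] 0) (𝓝 (p α)) := by
      rw [Metric.tendsto_nhds]
      intro η hη
      obtain ⟨δ', hδ', hiso'⟩ := hU 1 one_pos (η / 2) (by positivity)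
      have : ∀ᶠ y : ℝ in 𝓝[>] 0, y < δ' := nhdsWithin_le_nhds (eventually_lt_nhds hδ')
      filter_upwards [this, self_mem_nhdsWithin] with y hy hy0
      have hy0 : 0 < y := hy0
      have := (hiso' α hα (α + y * I) (by simpa using hy0) (by simpa using hy)
        (by simpa using hy0.le)).1
      rw [dist_eq_norm]
      linarith
    exact hend K Φ ρ hK y1 hy1 hKo ε hε hCeε (e α) (p α) α (τ' α) (τ α) s (he α hα)
      (hτ'.depth.pos α) t1 (hτ.ge α) t2 (by linarith) hreg hlim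
  -- ordered case
  have main : ∀ α1 ∈ E, ∀ α2 ∈ E, α1 ≤ α2 → α2 - α1 ≤ κ / ε →
      |arcA Φ τ α2 - arcA Φ τ α1| ≤ (1 + C * ε) * ‖p α1 - p α2‖ +
      C * ε * (wd K Φ τ α1 + wd K Φ τ α2) := by
    intro α1 h1 α2 h2 h12 hd
    have hEn : E.Nonempty := ⟨α1, h1⟩
    obtain ⟨τ', hτ'⟩ := exists_tau hEn hEp hε (by linarith) hκ
      (show 0 < ε ^ 2 * s by positivity)
      ((mul_le_of_le_one_left hs.le (by linarith)).trans hsκ)
    have hcr := hcone κ s hκ k1 hs hsκ τ' τ hτ' hτ α1 h1 α2 h2 h12 hd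
    have hdist : ∀ θ ∈ Icc α1 α2, ε * infDist θ E ≤ κ := by
      intro θ hθ
      have h3 : infDist θ E ≤ θ - α1 := by
        have := infDist_le_dist_of_mem (x := θ) h1
        rwa [Real.dist_eq, abs_of_nonneg (by linarith [hθ.1])] at this
      have h4 : θ - α1 ≤ κ / ε := by linarith [hθ.2]
      have h5 : infDist θ E ≤ κ / ε := h3.trans h4
      rw [le_div_iff₀ hε] at h5
      linarith
    have hle : ∀ θ ∈ Icc α1 α2, τ' θ ≤ τ θ ∧ τ θ ≤ 10 / ε ^ 2 * τ' θ := by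
      intro θ hθ
      have a1 := hτ'.le' θ
      have a2 := hτ.ge2 θ (hdist θ hθ)
      have a3 := hτ.le' θ
      have a4 := hτ'.ge2 θ (hdist θ hθ)
      have a5 : 0 ≤ ε * infDist θ E := mul_nonneg hε.le infDist_nonneg
      have a6 : ε ^ 2 * s ≤ 1 / 100 * s := mul_le_mul_of_nonneg_right hε2 hs.le
      refine ⟨by linarith, ?_⟩
      rw [div_mul_eq_mul_div, le_div_iff₀ (by positivity)]
      have a7 : τ θ * ε ^ 2 ≤ (5 * s + ε * infDist θ E) * ε ^ 2 :=
        mul_le_mul_of_nonneg_right a3 (sq_nonneg ε)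
      have a8 : ε * infDist θ E * ε ^ 2 ≤ ε * infDist θ E * 1 :=
        mul_le_mul_of_nonneg_left (by linarith) a5
      have a9 : (5 * s + ε * infDist θ E) * ε ^ 2 =
        5 * (ε ^ 2 * s) + ε * infDist θ E * ε ^ 2 := by ring
      have a10 : 0 < ε ^ 2 * s := by positivity
      linarith
    have hI : ∀ θ ∈ Icc α1 α2, ‖deriv Φ (pt τ θ)‖ ≤ (1 + Cr * ε) * ‖deriv Φ (pt τ' θ)‖ := by
      intro θ hθ
      refine hrad Φ hK.dPhi ε hε hCrε (e α1) θ (τ' θ) (τ θ) (he α1 h1) (hτ'.depth.pos θ)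
        (hle θ hθ).1 (hle θ hθ).2 ?_
      intro y hy u hu
      exact hcr θ hθ y hy.1 (hy.2.trans (le_max_left _ _)) u hu
    have hchord := hcho Φ hK.dPhi ε hε hCcε τ' (6 * κ) hτ'.depth (e α1) (he α1 h1) α1 α2 h12
      (by
        intro θ hθ
        have hp := hτ'.depth.pos θ
        have := (hcr θ hθ (τ' θ) le_rfl (le_max_right _ _) (θ + τ' θ * I)
          (by rw [sub_self, norm_zero]; positivity)).2.2
        exact this.trans hε2')
    have hbound : arcA Φ τ α2 - arcA Φ τ α1 ≤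
        (1 + ε) * ((1 + Cr * ε) * ∫ θ in α1..α2, ‖deriv Φ (pt τ' θ)‖) := by
      rw [arc_sub hK.dPhi hτ.depth, ← intervalIntegral.integral_const_mul,
        ← intervalIntegral.integral_const_mul]
      refine intervalIntegral.integral_mono_on h12 ((arc_cont hK.dPhi hτ.depth).intervalIntegrable _ _)
        (((dPhi_cont hK.dPhi hτ'.depth).norm.const_mul _).const_mul _ |>.intervalIntegrable _ _) ?_
      intro θ hθ
      have n1 : ‖(1 + deriv τ θ * I : ℂ)‖ ≤ 1 + ε := by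
        refine (norm_add_le _ _).trans ?_
        rw [norm_one, norm_mul, norm_I, mul_one, Complex.norm_real, Real.norm_eq_abs]
        linarith [hτ.depth.slope θ]
      have n2 := hI θ hθ
      calc ‖deriv Φ (θ + τ θ * I)‖ * ‖(1 + deriv τ θ * I : ℂ)‖
          ≤ ((1 + Cr * ε) * ‖deriv Φ (pt τ' θ)‖) * (1 + ε) :=
            mul_le_mul n2 n1 (norm_nonneg _) (by positivity)
        _ = _ := by ring
    have hpos : 0 ≤ arcA Φ τ α2 - arcA Φ τ α1 := by
      rw [arc_sub hK.dPhi hτ.depth]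
      exact intervalIntegral.integral_nonneg h12 fun θ _ => by positivity
    rw [abs_of_nonneg hpos]
    have e1 := hends τ' hτ' α1 h1
    have e2 := hends τ' hτ' α2 h2
    have w1 : 0 ≤ wd K Φ τ α1 := infDist_nonneg
    have w2 : 0 ≤ wd K Φ τ α2 := infDist_nonneg
    have e3 : ‖Φ (pt τ' α2) - Φ (pt τ' α1)‖ ≤
        ‖p α1 - p α2‖ + Ce * ε * (wd K Φ τ α1 + wd K Φ τ α2) := by
      have : Φ (pt τ' α2) - Φ (pt τ' α1) =
          (Φ (pt τ' α2) - p α2) - (Φ (pt τ' α1) - p α1) + (p α2 - p α1) := by ring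
      rw [this]
      refine (norm_add_le _ _).trans ?_
      have h3 := norm_sub_le (Φ (pt τ' α2) - p α2) (Φ (pt τ' α1) - p α1)
      rw [norm_sub_rev (p α2) (p α1)]
      linarith
    set N := ‖p α1 - p α2‖ with hN
    have hN0 : 0 ≤ N := norm_nonneg _
    set W := wd K Φ τ α1 + wd K Φ τ α2 with hW
    have hW0 : 0 ≤ W := by positivity
    have f1 : (1 + ε) * ((1 + Cr * ε) * ∫ θ in α1..α2, ‖deriv Φ (pt τ' θ)‖) ≤
        (1 + ε) * ((1 + Cr * ε) * ((1 + Cc * ε) * (N + Ce * ε * W))) := by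
      refine mul_le_mul_of_nonneg_left (mul_le_mul_of_nonneg_left (hchord.trans ?_) (by positivity))
        (by positivity)
      exact mul_le_mul_of_nonneg_left e3 (by positivity)
    refine (hbound.trans f1).trans ?_
    have g1 : (1 + ε) * ((1 + Cr * ε) * (1 + Cc * ε)) ≤ 1 + 3 * (1 + Cr + Cc) * ε := by
      have a1 : 0 ≤ Cr * ε := by positivity
      have a2 : 0 ≤ Cc * ε := by positivity
      have hε1 : ε ≤ 1 := by linarith
      have b1 : (Cr * ε) * (Cc * ε) ≤ Cr * ε := mul_le_of_le_one_right a1 hCcε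
      have b2 : ε * (Cr * ε) ≤ Cr * ε := mul_le_of_le_one_left a1 hε1
      have b3 : ε * (Cc * ε) ≤ Cc * ε := mul_le_of_le_one_left a2 hε1
      have b4 : ε * ((Cr * ε) * (Cc * ε)) ≤ Cr * ε :=
        (mul_le_of_le_one_left (mul_nonneg a1 a2) hε1).trans b1
      have b5 : (1 + ε) * ((1 + Cr * ε) * (1 + Cc * ε)) = 1 + ε + Cr * ε + Cc * ε +
        (Cr * ε) * (Cc * ε) + ε * (Cr * ε) + ε * (Cc * ε) + ε * ((Cr * ε) * (Cc * ε)) := by ring
      have b6 : 1 + 3 * (1 + Cr + Cc) * ε = 1 + 3 * ε + 3 * (Cr * ε) + 3 * (Cc * ε) := by ring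
      have b7 : Cr * ε + (Cr * ε + Cr * ε + Cr * ε) = 4 * (Cr * ε) := by ring
      have b8 : (Cr * ε) * (Cc * ε) ≤ Cc * ε := mul_le_of_le_one_left a2 hCrε
      rw [b5, b6]
      linarith
    have g2 : (1 + ε) * ((1 + Cr * ε) * (1 + Cc * ε)) ≤ 8 := by
      have a1 : 0 ≤ Cr * ε := by positivity
      have a2 : 0 ≤ Cc * ε := by positivity
      have b1 : (1 + Cr * ε) * (1 + Cc * ε) ≤ 2 * 2 :=
        mul_le_mul (by linarith) (by linarith) (by linarith) (by norm_num)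
      have b2 : (1 + ε) * ((1 + Cr * ε) * (1 + Cc * ε)) ≤ 2 * (2 * 2) :=
        mul_le_mul (by linarith) b1 (by positivity) (by norm_num)
      linarith
    have g3 : (1 + ε) * ((1 + Cr * ε) * ((1 + Cc * ε) * (N + Ce * ε * W))) =
        ((1 + ε) * ((1 + Cr * ε) * (1 + Cc * ε))) * N +
        ((1 + ε) * ((1 + Cr * ε) * (1 + Cc * ε))) * (Ce * ε * W) := by ring
    rw [g3]
    refine add_le_add ?_ ?_
    · refine mul_le_mul_of_nonneg_right (g1.trans ?_) hN0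
      have g6 : 3 * (1 + Cr + Cc) * ε ≤ C * ε :=
        mul_le_mul_of_nonneg_right (by rw [hC]; linarith) hε.le
      linarith
    · have g4 : ((1 + ε) * ((1 + Cr * ε) * (1 + Cc * ε))) * (Ce * ε * W) ≤ 8 * (Ce * ε * W) :=
        mul_le_mul_of_nonneg_right g2 (by positivity)
      refine g4.trans ?_
      have g5 : 8 * (Ce * ε * W) = (8 * Ce) * ε * W := by ring
      rw [g5]
      refine mul_le_mul_of_nonneg_right (mul_le_mul_of_nonneg_right ?_ hε.le) hW0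
      rw [hC]
      linarith
  intro α1 h1 α2 h2 hd
  rcases le_total α1 α2 with h | h
  · rw [abs_sub_comm]
    refine main α1 h1 α2 h2 h ?_
    rw [abs_sub_comm, abs_of_nonneg (by linarith)] at hd
    exact hd
  · rw [norm_sub_rev, add_comm (wd K Φ τ α1)]
    refine main α2 h2 α1 h1 h ?_
    rw [abs_of_nonneg (by linarith)] at hd
    exact hd

end CF6

end
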