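import Pool.Agent.Lib.MP_cf6b16_an.DE1
import Pool.Agent.Lib.MP_cf6b16_an.DE3
import Pool.Agent.Lib.MP_cf6b16_an.DE4
import Pool.Agent.Lib.MP_cf6b16_an.DE5
import Pool.Agent.Lib.MP_cf6b16_an.DE7
import Pool.Agent.Lib.MP_cf6b16_an.DE8

section

open Complex MeasureTheory Set Filter Topology Metric

open scoped ENNReal

namespace CF6

/-- local coordinate of the disc at `e^{ix}` -/
private noncomputable def D3hL (x : ℝ) (ζ : ℂ) : ℂ := -I * Complex.log (ζ * exp (-(I * x)))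

private theorem D3h_mul_ne {x : ℝ} {ζ : ℂ} (h : ‖ζ - exp (I * x)‖ < 1) : 0 < (ζ * exp (-(I * x))).re := by
  have h1 : ‖ζ * exp (-(I * x)) - 1‖ < 1 := by
    have h2 : ζ * exp (-(I * x)) - 1 = (ζ - exp (I * x)) * exp (-(I * x)) := by
      rw [sub_mul, ← Complex.exp_add]; simp
    have h3 : ‖exp (-(I * (x : ℂ)))‖ = 1 := by
      rw [show -(I * (x : ℂ)) = ((-x : ℝ) : ℂ) * I by push_cast; ring]
      exact Complex.norm_exp_ofReal_mul_I _
    rw [h2, norm_mul, h3, mul_one]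
    exact h
  have h2 := (Complex.abs_re_le_norm (ζ * exp (-(I * x)) - 1)).trans_lt h1
  rw [Complex.sub_re, Complex.one_re, abs_lt] at h2
  linarith [h2.1]

private theorem D3h_exp {x : ℝ} {ζ : ℂ} (h : ‖ζ - exp (I * x)‖ < 1) : exp (I * (x + D3hL x ζ)) = ζ := by
  have h1 := D3h_mul_ne h
  have h2 : ζ * exp (-(I * x)) ≠ 0 := by
    intro h3
    rw [h3] at h1
    simp at h1
  have h3 : I * (x + D3hL x ζ) = I * x + Complex.log (ζ * exp (-(I * x))) := by
    unfold D3hL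
    rw [mul_add, ← mul_assoc, mul_neg, I_mul_I]
    ring
  rw [h3, Complex.exp_add, Complex.exp_log h2, mul_comm, mul_assoc, ← Complex.exp_add]
  simp

private theorem D3h_cont {x : ℝ} {ζ : ℂ} (h : ‖ζ - exp (I * x)‖ < 1) : ContinuousAt (D3hL x) ζ := by
  unfold D3hL
  refine ContinuousAt.mul continuousAt_const ?_
  refine ContinuousAt.clog (by fun_prop) (Or.inl (D3h_mul_ne h))

private theorem D3h_zero (x : ℝ) : D3hL x (exp (I * x)) = 0 := by
  unfold D3hL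
  rw [← Complex.exp_add]
  simp

/-- D3.8 (about 60 lines): at an isogonal contact value the normalised map takes the isogonal value. (If `M = g⁻¹(e^{ix})` is not empty, it has a boundary point
`z` in `Ω`, points `z' → z` with `g z' ≠ g z`; for `r → 0` the segments `[z,z']` meet `Φ`(semicircle of radius `r`) (closure); the semicircle of small
`Φ`-diameter (D1.5) meets the cone at `x`, so `Φ`(semicircle) → `p`; hence `ht z = h z = p`.) -/
theorem ht_eq_of_isogonal {Ω K O : Set ℂ} {Φ ρ : ℂ → ℂ} (hK : Collar K Φ ρ) (hA : FinArea Φ)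
    {h g ht : ℂ → ℂ} {hj : ℕ → ℂ → ℂ} (H : LimData Ω K ρ h g hj) (hn : Normal Ω K O h g ht)
    {x : ℝ} {p e : ℂ} (he : ‖e‖ = 1) (hI : Isogonal Φ x p e) {z : ℂ} (hz : z ∈ Ω)
    (hg : g z = exp (I * x)) : ht z = p := by
  obtain ⟨ch, cg, g1, hgK, hρ⟩ := H.basic hK
  have hn1 : ‖exp (I * (x : ℂ))‖ = 1 := by
    rw [mul_comm]; exact Complex.norm_exp_ofReal_mul_I _
  have hEx : ∃ z0 ∈ Ω, g z0 = exp (I * x) ∧ ∃ᶠ w in 𝓝 z0, g w ≠ exp (I * x) := by
    by_contra hc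
    push Not at hc
    have hc' : ∀ z0 ∈ Ω, g z0 = exp (I * x) → ∀ᶠ w in 𝓝 z0, g w = exp (I * x) := by
      intro z0 hz0 h0
      have := hc z0 hz0 h0
      simpa using this
    have hM : IsOpen {w | w ∈ Ω ∧ g w = exp (I * x)} := by
      rw [isOpen_iff_mem_nhds]
      rintro w ⟨hw, hw'⟩
      filter_upwards [H.Oopen.mem_nhds hw, hc' w hw hw'] with v h1 h2 using ⟨h1, h2⟩
    have hN : IsOpen {w | w ∈ Ω ∧ g w ≠ exp (I * x)} := by
      rw [isOpen_iff_mem_nhds]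
      rintro w ⟨hw, hw'⟩
      have h1 := (cg.continuousAt (H.Oopen.mem_nhds hw)).eventually_ne hw'
      filter_upwards [H.Oopen.mem_nhds hw, h1] with v h1 h2 using ⟨h1, h2⟩
    have hU : Ω ⊆ {w | w ∈ Ω ∧ g w = exp (I * x)} ∪ {w | w ∈ Ω ∧ g w ≠ exp (I * x)} := by
      intro w hw
      by_cases hw' : g w = exp (I * x)
      · exact Or.inl ⟨hw, hw'⟩
      · exact Or.inr ⟨hw, hw'⟩
    obtain ⟨y, hy, hy'⟩ := H.nonconst
    have hy2 : g y ≠ exp (I * x) := by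
      intro h2
      apply hy'
      rw [hgK y hy, h2, hn1]
    obtain ⟨w, hw, h1, h2⟩ := H.Oconn.isPreconnected _ _ hM hN hU ⟨z, hz, hz, hg⟩ ⟨y, hy, hy, hy2⟩
    exact h2.2 h1.2
  obtain ⟨z0, hz0, hg0, hfr⟩ := hEx
  have hz0O : z0 ∉ O := by
    intro hO
    have h1 := hn.Oconst z0 hO
    obtain ⟨w, h2, h3⟩ := (hfr.and_eventually h1).exists
    exact h2 (h3.1.trans hg0)
  rw [hn.fib z hz z0 hz0 (by rw [hg, hn1]) (by rw [hg, hg0]), hn.eqh z0 hz0 hz0O]
  by_contra hne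
  have hd0 : 0 < ‖h z0 - p‖ := norm_pos_iff.2 (sub_ne_zero.2 hne)
  set δ : ℝ := ‖h z0 - p‖ / 5 with hδ
  have hδ0 : 0 < δ := by positivity
  -- the small disc
  have hch := ch.continuousAt (H.Oopen.mem_nhds hz0)
  have hcg := cg.continuousAt (H.Oopen.mem_nhds hz0)
  obtain ⟨s, hs, hs1⟩ : ∃ s > 0, closedBall z0 s ⊆ {w | w ∈ Ω ∧ ‖h w - h z0‖ < δ ∧ ‖g w - g z0‖ < 1 / 2} := by
    have h1 : {w | w ∈ Ω ∧ ‖h w - h z0‖ < δ ∧ ‖g w - g z0‖ < 1 / 2} ∈ 𝓝 z0 := by
      have e1 := Metric.tendsto_nhds.1 hch δ hδ0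
      have e2 := Metric.tendsto_nhds.1 hcg (1 / 2) (by norm_num)
      filter_upwards [H.Oopen.mem_nhds hz0, e1, e2] with w a1 a2 a3
      rw [dist_eq_norm] at a2 a3
      exact ⟨a1, a2, a3⟩
    exact Metric.nhds_basis_closedBall.mem_iff.1 h1
  obtain ⟨z1, hz1, hz1s⟩ := (hfr.and_eventually (Metric.closedBall_mem_nhds z0 hs)).exists
  have hz1g : ‖g z1 - exp (I * x)‖ < 1 := by
    have := (hs1 hz1s).2.2
    rw [hg0] at this; linarith
  have hL1 : 0 < ‖D3hL x (g z1)‖ := by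
    rw [norm_pos_iff]
    intro h0
    have h2 := D3h_exp hz1g
    rw [h0, add_zero] at h2
    exact hz1 h2.symm
  obtain ⟨δI, hδI, hIs⟩ := hI 1 one_pos δ hδ0
  obtain ⟨r, hr, hr0, hsemi⟩ := short_semicircle hK hA x δ (min δI ‖D3hL x (g z1)‖) hδ0 (lt_min hδI hL1)
  have hrI := hr0.trans_le (min_le_left _ _)
  have hrL := hr0.trans_le (min_le_right _ _)
  -- large j
  have hcomp : IsCompact (closedBall z0 s) := isCompact_closedBall _ _
  have hsub : closedBall z0 s ⊆ Ω := fun w hw => (hs1 hw).1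
  have u1 : ∀ᶠ j in atTop, ∀ w ∈ closedBall z0 s, dist (h w) (hj j w) < δ :=
    Metric.tendstoUniformlyOn_iff.1 ((tendstoLocallyUniformlyOn_iff_forall_isCompact H.Oopen).1 H.lim _ hsub hcomp) δ hδ0
  have u2 : ∀ᶠ j in atTop, ∀ w ∈ closedBall z0 s, dist (g w) (ρ (hj j w)) < 1 / 2 :=
    Metric.tendstoUniformlyOn_iff.1 ((tendstoLocallyUniformlyOn_iff_forall_isCompact H.Oopen).1 H.glim _ hsub hcomp)
      (1 / 2) (by norm_num)
  have hlimg : ∀ w ∈ Ω, Tendsto (fun j => ρ (hj j w)) atTop (𝓝 (g w)) := fun w hw => H.glim.tendsto_at hw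
  have u3 : ∀ᶠ j in atTop, ‖D3hL x (ρ (hj j z0))‖ < r := by
    have h1 : Tendsto (fun j => ‖D3hL x (ρ (hj j z0))‖) atTop (𝓝 ‖D3hL x (g z0)‖) :=
      ((D3h_cont (x := x) (ζ := g z0) (by rw [hg0]; simp)).tendsto.comp (hlimg z0 hz0)).norm
    rw [hg0, D3h_zero, norm_zero] at h1
    exact h1.eventually_lt_const hr
  have u4 : ∀ᶠ j in atTop, r < ‖D3hL x (ρ (hj j z1))‖ := by
    have h1 : Tendsto (fun j => ‖D3hL x (ρ (hj j z1))‖) atTop (𝓝 ‖D3hL x (g z1)‖) :=
      ((D3h_cont hz1g).tendsto.comp (hlimg z1 (hsub hz1s))).norm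
    exact h1.eventually_const_lt hrL
  obtain ⟨j, a1, a2, a3, a4⟩ := (u1.and (u2.and (u3.and u4))).exists
  have hnear : ∀ w ∈ closedBall z0 s, ‖ρ (hj j w) - exp (I * x)‖ < 1 := by
    intro w hw
    have b1 := (hs1 hw).2.2
    have b2 := a2 w hw
    rw [dist_comm, dist_eq_norm] at b2
    rw [hg0] at b1
    calc ‖ρ (hj j w) - exp (I * x)‖ = ‖(ρ (hj j w) - g w) + (g w - exp (I * x))‖ := by congr 1; ring
      _ ≤ ‖ρ (hj j w) - g w‖ + ‖g w - exp (I * x)‖ := norm_add_le _ _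
      _ < 1 := by linarith
  have hcont : ContinuousOn (fun w => ‖D3hL x (ρ (hj j w))‖) (closedBall z0 s) := by
    intro w hw
    have b1 : ContinuousAt (hj j) w := (H.chj j).continuousAt (H.Oopen.mem_nhds (hsub hw))
    have b2 : ContinuousAt ρ (hj j w) :=
      (hK.dRho.differentiableAt (hK.closed.isOpen_compl.mem_nhds (H.avoid j (hsub hw)))).continuousAt
    have b3 : ContinuousAt (fun w => ρ (hj j w)) w := ContinuousAt.comp (g := ρ) b2 b1
    have b4 : ContinuousAt (fun w => D3hL x (ρ (hj j w))) w :=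
      ContinuousAt.comp (g := D3hL x) (f := fun w => ρ (hj j w)) (D3h_cont (hnear w hw)) b3
    exact b4.norm.continuousWithinAt
  have hpre : IsPreconnected (closedBall z0 s) := (convex_closedBall z0 s).isPreconnected
  obtain ⟨w, hw, hwr⟩ := hpre.intermediate_value (mem_closedBall_self hs.le) hz1s hcont ⟨a3.le, a4.le⟩
  simp only at hwr
  set u : ℂ := x + D3hL x (ρ (hj j w)) with hu
  have hue : exp (I * u) = ρ (hj j w) := D3h_exp (hnear w hw)
  have hρ1 : ‖ρ (hj j w)‖ < 1 := by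
    have := hK.maps (H.avoid j (hsub hw))
    rwa [mem_ball_zero_iff] at this
  have huim : 0 < u.im := by
    have h1 : ‖exp (I * u)‖ < 1 := by rw [hue]; exact hρ1
    rw [Complex.norm_exp, Real.exp_lt_one_iff] at h1
    simp at h1
    exact h1
  have hΦu : Φ u = hj j w := by
    refine hK.inj (hK.mem u huim) (H.avoid j (hsub hw)) ?_
    rw [hK.left u huim, hue]
  have hur : ‖u - x‖ = r := by
    rw [hu, add_sub_cancel_left]; exact hwr
  have hv : ‖Φ (x + r * I) - p‖ ≤ δ := by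
    refine (hIs (x + r * I) ?_ ?_ ?_).1
    · simpa using hr
    · simpa using hrI
    · simpa using hr.le
  have hsv : ‖Φ u - Φ (x + r * I)‖ ≤ δ := by
    refine hsemi u (x + r * I) huim (by simpa using hr) hur ?_
    rw [add_sub_cancel_left]
    simp [abs_of_pos hr]
  have c1 : ‖h z0 - h w‖ < δ := by
    rw [norm_sub_rev]; exact (hs1 hw).2.1
  have c2 : ‖h w - hj j w‖ < δ := by
    have := a1 w hw
    rwa [dist_eq_norm] at this
  have c3 : h z0 - p = (h z0 - h w) + (h w - hj j w) + (Φ u - Φ (x + r * I)) + (Φ (x + r * I) - p) := by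
    rw [hΦu]; ring
  have c4 : ‖h z0 - p‖ ≤ ‖h z0 - h w‖ + ‖h w - hj j w‖ + ‖Φ u - Φ (x + r * I)‖ + ‖Φ (x + r * I) - p‖ := by
    rw [c3]
    exact (norm_add_le _ _).trans (add_le_add_left ((norm_add_le _ _).trans (add_le_add_left (norm_add_le _ _) _)) _)
  have c5 : ‖h z0 - p‖ = 5 * δ := by rw [hδ]; ring
  linarith

end CF6

end

section

open Complex MeasureTheory Set Filter Topology Metric intervalIntegral

namespace CF6

/-- the greedy sequence -/
noncomputable def e1j_seq (τ : ℝ → ℝ) (lam α : ℝ) : ℕ → ℝ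
  | 0 => α
  | k + 1 => e1j_seq τ lam α k + lam * τ (e1j_seq τ lam α k)

theorem e1j_succ (τ : ℝ → ℝ) (lam α : ℝ) (k : ℕ) :
    e1j_seq τ lam α (k + 1) = e1j_seq τ lam α k + lam * τ (e1j_seq τ lam α k) := rfl

theorem e1j_mono {τ : ℝ → ℝ} {lam : ℝ} (hl : 0 < lam) (hτ : ∀ x, 0 < τ x) (α : ℝ) :
    Monotone (e1j_seq τ lam α) := by
  refine monotone_nat_of_le_succ fun k => ?_
  rw [e1j_succ]
  have := mul_pos hl (hτ (e1j_seq τ lam α k))
  linarith

/-- the greedy sequence is unbounded -/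
theorem e1j_unbdd {τ : ℝ → ℝ} {lam : ℝ} (hl : 0 < lam) (hτ : ∀ x, 0 < τ x) (hc : Continuous τ)
    (α β : ℝ) (hab : α ≤ β) : ∃ n, β < e1j_seq τ lam α n := by
  by_contra hcon
  push Not at hcon
  obtain ⟨x, hx, hx'⟩ := isCompact_Icc.exists_isMinOn (nonempty_Icc.2 hab) hc.continuousOn
  have h1 : ∀ n : ℕ, α + n * (lam * τ x) ≤ e1j_seq τ lam α n := by
    intro n
    induction n with
    | zero => simp [e1j_seq]
    | succ n ih =>
      rw [e1j_succ]
      have h2 : e1j_seq τ lam α n ∈ Icc α β := by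
        refine ⟨?_, hcon n⟩
        exact e1j_mono hl hτ α (Nat.zero_le n)
      have h3 : τ x ≤ τ (e1j_seq τ lam α n) := hx' h2
      have h4 : lam * τ x ≤ lam * τ (e1j_seq τ lam α n) := mul_le_mul_of_nonneg_left h3 hl.le
      push_cast
      linarith
  obtain ⟨n, hn⟩ := exists_nat_gt ((β - α) / (lam * τ x))
  have h5 : 0 < lam * τ x := mul_pos hl (hτ x)
  rw [div_lt_iff₀ h5] at hn
  have := h1 n
  have := hcon n
  linarith

/-- increments on a subinterval -/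
theorem e1j_inc {a b : ℝ} {q : ℝ → ℂ} {m : ℝ → ℝ} (hm : IntervalIntegrable m volume a b)
    (hm0 : ∀ s, 0 ≤ m s)
    (hq : ∀ s s', a ≤ s → s ≤ s' → s' ≤ b → ‖q s' - q s‖ ≤ ∫ t in s..s', m t)
    {s0 s1 : ℝ} (h0 : a ≤ s0) (h01 : s0 ≤ s1) (h1 : s1 ≤ b) {s s' : ℝ} (hs : s ∈ Icc s0 s1)
    (hs' : s' ∈ Icc s0 s1) : ‖q s - q s'‖ ≤ ∫ t in s0..s1, m t := by
  have hmi : IntervalIntegrable m volume s0 s1 := by
    refine hm.mono_set ?_
    rw [uIcc_of_le h01, uIcc_of_le (by linarith)]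
    exact Icc_subset_Icc h0 h1
  have key : ∀ x y : ℝ, x ∈ Icc s0 s1 → y ∈ Icc s0 s1 → x ≤ y → ‖q y - q x‖ ≤ ∫ t in s0..s1, m t := by
    intro x y hx hy hxy
    refine (hq x y (by linarith [hx.1]) hxy (by linarith [hy.2])).trans ?_
    exact integral_mono_interval hx.1 hxy hy.2 (Eventually.of_forall fun t => hm0 t) hmi
  rcases le_total s s' with h | h
  · rw [norm_sub_rev]
    exact key s s' hs hs' h
  · exact key s' s hs' hs h

/-- the sum over disjoint crossings -/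
theorem e1j_sum {a b c lam : ℝ} {u q : ℝ → ℂ} {m W τ : ℝ → ℝ} (hl : 0 < lam) (hτ : ∀ x, 0 < τ x)
    (cu : ContinuousOn u (Icc a b)) (hm : IntervalIntegrable m volume a b) (hm0 : ∀ s, 0 ≤ m s)
    (hq : ∀ s s', a ≤ s → s ≤ s' → s' ≤ b → ‖q s' - q s‖ ≤ ∫ t in s..s', m t)
    (hcr : ∀ α s0 s1 : ℝ, s0 ∈ Icc a b → s1 ∈ Icc a b → s0 ≤ s1 →
      (((u s0).re ≤ α ∧ α + lam * τ α ≤ (u s1).re) ∨
        ((u s1).re ≤ α ∧ α + lam * τ α ≤ (u s0).re)) →
      ∃ s ∈ Icc s0 s1, ∃ s' ∈ Icc s0 s1, c * W α ≤ ‖q s - q s'‖) (α : ℝ) (N : ℕ) :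
    ∀ s0 s1 : ℝ, s0 ∈ Icc a b → s1 ∈ Icc a b → s0 ≤ s1 →
      (((u s0).re ≤ α ∧ e1j_seq τ lam α N ≤ (u s1).re) ∨
        ((u s1).re ≤ α ∧ e1j_seq τ lam α N ≤ (u s0).re)) →
      c * ∑ k ∈ Finset.range N, W (e1j_seq τ lam α k) ≤ ∫ t in s0..s1, m t := by
  induction N with
  | zero =>
    intro s0 s1 _ _ h01 _
    rw [Finset.sum_range_zero, mul_zero]
    exact integral_nonneg h01 fun t _ => hm0 t
  | succ N ih =>
    intro s0 s1 hs0 hs1 h01 hd
    have hsub : Icc s0 s1 ⊆ Icc a b := Icc_subset_Icc hs0.1 hs1.2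
    have hcre : ContinuousOn (fun s => (u s).re) (Icc s0 s1) :=
      Complex.continuous_re.comp_continuousOn (cu.mono hsub)
    have hαN : α ≤ e1j_seq τ lam α N := e1j_mono hl hτ α (Nat.zero_le N)
    have hN1 : e1j_seq τ lam α N ≤ e1j_seq τ lam α (N + 1) := e1j_mono hl hτ α (Nat.le_succ N)
    have hint : ∀ x y : ℝ, x ∈ Icc a b → y ∈ Icc a b → x ≤ y → IntervalIntegrable m volume x y := by
      intro x y hx hy hxy
      refine hm.mono_set ?_
      rw [uIcc_of_le hxy, uIcc_of_le (by linarith [hx.1, hy.2])]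
      exact Icc_subset_Icc hx.1 hy.2
    rw [Finset.sum_range_succ, mul_add]
    rcases hd with ⟨e1, e2⟩ | ⟨e1, e2⟩
    · obtain ⟨T, hT, hT'⟩ : ∃ T ∈ Icc s0 s1, (u T).re = e1j_seq τ lam α N :=
        intermediate_value_Icc h01 hcre ⟨by linarith, by linarith⟩
      have hTab := hsub hT
      have i1 := ih s0 T hs0 hTab hT.1 (Or.inl ⟨e1, hT'.ge⟩)
      obtain ⟨s, hs, s', hs', hss⟩ := hcr (e1j_seq τ lam α N) T s1 hTab hs1 hT.2
        (Or.inl ⟨hT'.le, by rw [← e1j_succ]; exact e2⟩)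
      have i2 := e1j_inc hm hm0 hq hTab.1 hT.2 hs1.2 hs hs'
      have i3 := integral_add_adjacent_intervals (hint s0 T hs0 hTab hT.1) (hint T s1 hTab hs1 hT.2)
      linarith
    · obtain ⟨T, hT, hT'⟩ : ∃ T ∈ Icc s0 s1, (u T).re = e1j_seq τ lam α N :=
        intermediate_value_Icc' h01 hcre ⟨by linarith, by linarith⟩
      have hTab := hsub hT
      have i1 := ih T s1 hTab hs1 hT.2 (Or.inr ⟨e1, hT'.ge⟩)
      obtain ⟨s, hs, s', hs', hss⟩ := hcr (e1j_seq τ lam α N) s0 T hs0 hTab hT.1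
        (Or.inr ⟨hT'.le, by rw [← e1j_succ]; exact e2⟩)
      have i2 := e1j_inc hm hm0 hq hs0.1 hT.1 hTab.2 hs hs'
      have i3 := integral_add_adjacent_intervals (hint s0 T hs0 hTab hT.1) (hint T s1 hTab hs1 hT.2)
      linarith

/-- the greedy estimate with abstract `A`, `W` -/
theorem e1j_main {a b c lam C' : ℝ} {u q : ℝ → ℂ} {m W A τ : ℝ → ℝ} (hc : 0 < c) (hl : 0 < lam)
    (hl1 : lam ≤ 1) (hC' : 1 ≤ C') (hτ : ∀ x, 0 < τ x) (hcτ : Continuous τ) (hW : ∀ x, 0 ≤ W x)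
    (cu : ContinuousOn u (Icc a b)) (hm : IntervalIntegrable m volume a b) (hm0 : ∀ s, 0 ≤ m s)
    (hq : ∀ s s', a ≤ s → s ≤ s' → s' ≤ b → ‖q s' - q s‖ ≤ ∫ t in s..s', m t)
    (hcr : ∀ α s0 s1 : ℝ, s0 ∈ Icc a b → s1 ∈ Icc a b → s0 ≤ s1 →
      (((u s0).re ≤ α ∧ α + lam * τ α ≤ (u s1).re) ∨
        ((u s1).re ≤ α ∧ α + lam * τ α ≤ (u s0).re)) →
      ∃ s ∈ Icc s0 s1, ∃ s' ∈ Icc s0 s1, c * W α ≤ ‖q s - q s'‖)
    (hA : ∀ α β : ℝ, |β - α| ≤ τ α → |A β - A α| ≤ C' * W α ∧ W β ≤ C' * W α)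
    (α β : ℝ) (hαβ : α + lam * τ α ≤ β) (s0 s1 : ℝ) (hs0 : s0 ∈ Icc a b) (hs1 : s1 ∈ Icc a b)
    (h01 : s0 ≤ s1) (hd : ((u s0).re = α ∧ (u s1).re = β) ∨ ((u s1).re = α ∧ (u s0).re = β)) :
    |A β - A α| + W α + W β ≤ (((C' + 2 * C' ^ 2 + 1) / c) + 1) * ∫ t in s0..s1, m t := by
  classical
  have hlτ : ∀ x, 0 < lam * τ x := fun x => mul_pos hl (hτ x)
  have hab : α ≤ β := by linarith [hlτ α]
  obtain ⟨n, hn, hn'⟩ : ∃ n, β < e1j_seq τ lam α n ∧ ∀ k < n, e1j_seq τ lam α k ≤ β := by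
    have hex := e1j_unbdd hl hτ hcτ α β hab
    exact ⟨Nat.find hex, Nat.find_spec hex, fun k hk => not_lt.1 (Nat.find_min hex hk)⟩
  have hn0 : n ≠ 0 := by
    rintro rfl
    exact absurd hn (not_lt.2 hab)
  have hn1 : n ≠ 1 := by
    rintro rfl
    exact absurd hn (not_lt.2 hαβ)
  obtain ⟨N, rfl⟩ : ∃ N, n = N + 1 + 1 := ⟨n - 2, by omega⟩
  have hN : e1j_seq τ lam α (N + 1) ≤ β := hn' (N + 1) (by omega)
  set S : ℝ := ∑ k ∈ Finset.range (N + 1), W (e1j_seq τ lam α k) with hS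
  have hsum : c * S ≤ ∫ t in s0..s1, m t := by
    refine e1j_sum hl hτ cu hm hm0 hq hcr α (N + 1) s0 s1 hs0 hs1 h01 ?_
    rcases hd with ⟨e1, e2⟩ | ⟨e1, e2⟩
    · exact Or.inl ⟨e1.le, by rw [e2]; exact hN⟩
    · exact Or.inr ⟨e1.le, by rw [e2]; exact hN⟩
  have hstep : ∀ k, |e1j_seq τ lam α (k + 1) - e1j_seq τ lam α k| ≤ τ (e1j_seq τ lam α k) := by
    intro k
    rw [e1j_succ, add_sub_cancel_left, abs_of_pos (hlτ _)]
    calc lam * τ (e1j_seq τ lam α k) ≤ 1 * τ (e1j_seq τ lam α k) :=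
          mul_le_mul_of_nonneg_right hl1 (hτ _).le
      _ = τ (e1j_seq τ lam α k) := one_mul _
  have hterm : ∀ k ∈ Finset.range (N + 1), W (e1j_seq τ lam α k) ≤ S := fun k hk =>
    Finset.single_le_sum (f := fun k => W (e1j_seq τ lam α k)) (fun i _ => hW _) hk
  have hWα : W α ≤ S := hterm 0 (Finset.mem_range.2 (Nat.succ_pos N))
  have hWN : W (e1j_seq τ lam α N) ≤ S := hterm N (Finset.mem_range.2 (Nat.lt_succ_self N))
  have hS0 : 0 ≤ S := (hW α).trans hWα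
  have hWN1 : W (e1j_seq τ lam α (N + 1)) ≤ C' * S :=
    (hA _ _ (hstep N)).2.trans (mul_le_mul_of_nonneg_left hWN (by linarith))
  have hlast : |β - e1j_seq τ lam α (N + 1)| ≤ τ (e1j_seq τ lam α (N + 1)) := by
    rw [abs_of_nonneg (by linarith)]
    have h1 : β < e1j_seq τ lam α (N + 1) + lam * τ (e1j_seq τ lam α (N + 1)) := by
      rw [← e1j_succ]; exact hn
    have h2 : lam * τ (e1j_seq τ lam α (N + 1)) ≤ 1 * τ (e1j_seq τ lam α (N + 1)) :=
      mul_le_mul_of_nonneg_right hl1 (hτ _).le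
    linarith
  obtain ⟨hl1', hl2'⟩ := hA _ _ hlast
  have hWβ : W β ≤ C' * (C' * S) :=
    hl2'.trans (mul_le_mul_of_nonneg_left hWN1 (by linarith))
  have hAβ : |A β - A (e1j_seq τ lam α (N + 1))| ≤ C' * (C' * S) :=
    hl1'.trans (mul_le_mul_of_nonneg_left hWN1 (by linarith))
  have hAα : |A (e1j_seq τ lam α (N + 1)) - A α| ≤ C' * S := by
    have h1 : A (e1j_seq τ lam α (N + 1)) - A α =
        ∑ k ∈ Finset.range (N + 1), (A (e1j_seq τ lam α (k + 1)) - A (e1j_seq τ lam α k)) := by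
      rw [Finset.sum_range_sub (fun k => A (e1j_seq τ lam α k))]
      rfl
    rw [h1]
    refine (Finset.abs_sum_le_sum_abs _ _).trans ?_
    rw [hS, Finset.mul_sum]
    exact Finset.sum_le_sum fun k _ => (hA _ _ (hstep k)).1
  have hAA : |A β - A α| ≤ C' * (C' * S) + C' * S := by
    have h1 : A β - A α = (A β - A (e1j_seq τ lam α (N + 1))) +
        (A (e1j_seq τ lam α (N + 1)) - A α) := by ring
    rw [h1]
    exact (abs_add_le _ _).trans (add_le_add hAβ hAα)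
  have hI0 : 0 ≤ ∫ t in s0..s1, m t := integral_nonneg h01 fun t _ => hm0 t
  have h2 : |A β - A α| + W α + W β ≤ (C' + 2 * C' ^ 2 + 1) * S := by
    nlinarith
  have h3 : S ≤ (∫ t in s0..s1, m t) / c := by
    rw [le_div_iff₀ hc, mul_comm]
    exact hsum
  have h4 : 0 ≤ C' + 2 * C' ^ 2 + 1 := by positivity
  calc |A β - A α| + W α + W β ≤ (C' + 2 * C' ^ 2 + 1) * S := h2
    _ ≤ (C' + 2 * C' ^ 2 + 1) * ((∫ t in s0..s1, m t) / c) := mul_le_mul_of_nonneg_left h3 h4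
    _ = ((C' + 2 * C' ^ 2 + 1) / c) * ∫ t in s0..s1, m t := by ring
    _ ≤ (((C' + 2 * C' ^ 2 + 1) / c) + 1) * ∫ t in s0..s1, m t :=
      mul_le_mul_of_nonneg_right (by linarith) hI0

/-- E.5b (about 200 lines) greedy sum. If the real parts of the ends differ by at least `lam τ(α)`, `α` = real part of the lower
end point, then `|ΔA| + wd + wd' ≤ C ∫ m`. Steps `a_0 = α`, `a_{k+1} = a_k + lam τ(a_k)`, hitting times, E.4c on disjoint time intervals. -/
theorem long_path (C0 : ℝ) (h0 : 1 ≤ C0) (lam : ℝ) (hl : 0 < lam) (hl1 : lam ≤ 1 / 2) :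
    ∃ C : ℝ, 1 ≤ C ∧
    ∀ (K : Set ℂ) (Φ ρ : ℂ → ℂ), Collar K Φ ρ → ∀ y1 > 0, y1 ≤ 1 → Koebe C0 y1 K Φ →
    ∀ (a b : ℝ) (u q : ℝ → ℂ) (O : Set ℝ) (m : ℝ → ℝ), PathData Φ a b u q O →
    ∀ τ : ℝ → ℝ, Depth (1 / 10) (y1 / 20) τ → (∀ s ∈ Icc a b, (u s).im ≤ τ (u s).re) →
    IntervalIntegrable m volume a b → (∀ s, 0 ≤ m s) →
    (∀ s s', a ≤ s → s ≤ s' → s' ≤ b → ‖q s' - q s‖ ≤ ∫ t in s..s', m t) →
    ∀ s0 s1 : ℝ, s0 ∈ Icc a b → s1 ∈ Icc a b → s0 ≤ s1 →
    lam * τ (min (u s0).re (u s1).re) ≤ |(u s1).re - (u s0).re| →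
    |arcA Φ τ (u s1).re - arcA Φ τ (u s0).re| + wd K Φ τ (u s0).re + wd K Φ τ (u s1).re ≤
      C * ∫ t in s0..s1, m t := by
  obtain ⟨c, hc, hcross⟩ := crossing C0 h0 lam hl (by linarith)
  obtain ⟨C', hC', hstep⟩ := step_bounds C0 h0
  refine ⟨((C' + 2 * C' ^ 2 + 1) / c) + 1, ?_, ?_⟩
  · have : 0 ≤ (C' + 2 * C' ^ 2 + 1) / c := by positivity
    linarith
  intro K Φ ρ hK y1 hy1 hy1' hKo a b u q O m hP τ hτ hut hm hm0 hq s0 s1 hs0 hs1 h01 hlen
  have key : ∀ α β : ℝ, α + lam * τ α ≤ β →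
      (((u s0).re = α ∧ (u s1).re = β) ∨ ((u s1).re = α ∧ (u s0).re = β)) →
      |arcA Φ τ β - arcA Φ τ α| + wd K Φ τ α + wd K Φ τ β ≤
        (((C' + 2 * C' ^ 2 + 1) / c) + 1) * ∫ t in s0..s1, m t := by
    intro α β hαβ hd
    refine e1j_main (u := u) (q := q) (τ := τ) (W := wd K Φ τ) (A := arcA Φ τ) hc hl
      (by linarith) hC' hτ.pos hτ.smooth.continuous (fun x => infDist_nonneg) hP.cu hm hm0 hq ?_ ?_ α β hαβ s0 s1 hs0 hs1 h01 hd
    · intro α' s0' s1' h1 h2 h3 h4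
      exact hcross K Φ ρ hK y1 hy1 hy1' hKo a b u q O hP τ hτ hut α' s0' s1' h1 h2 h3 h4
    · intro α' β' h1
      obtain ⟨h2, h3, _, _⟩ := hstep K Φ ρ hK y1 hy1 hy1' hKo τ hτ α' β' h1
      exact ⟨h2, h3⟩
  rcases le_total (u s0).re (u s1).re with h | h
  · rw [min_eq_left h, abs_of_nonneg (by linarith)] at hlen
    exact key _ _ (by linarith) (Or.inl ⟨rfl, rfl⟩)
  · rw [min_eq_right h, abs_of_nonpos (by linarith)] at hlen
    have h1 := key (u s1).re (u s0).re (by linarith) (Or.inr ⟨rfl, rfl⟩)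
    rw [abs_sub_comm]
    linarith

end CF6

end

section

open Complex MeasureTheory Set Filter Topology Metric intervalIntegral

namespace CF6

/-- depth functions are Lipschitz -/
theorem e1k_lip {c r : ℝ} {τ : ℝ → ℝ} (hτ : Depth c r τ) (x y : ℝ) :
    |τ y - τ x| ≤ c * |y - x| := by
  have h := Convex.norm_image_sub_le_of_norm_deriv_le (f := τ) (C := c) (s := univ) (x := x) (y := y)
    (fun z _ => (hτ.smooth.differentiable (by norm_num)) z)
    (fun z _ => by rw [Real.norm_eq_abs]; exact hτ.slope z) convex_univ (mem_univ _) (mem_univ _)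
  rwa [Real.norm_eq_abs, Real.norm_eq_abs] at h

/-- E.5c (about 120 lines) short paths starting on the curve. If the start lies on the curve, then `|ΔA| ≤ C ∫ m` when the end
lies on the curve, and `|ΔA| + wd + wd' ≤ C ∫ m` when the end is a contact point. (Long: E.5b. Short: E.2c, E.2b resp. `dist(Φ, K)`.) -/
theorem from_curve (C0 : ℝ) (h0 : 1 ≤ C0) : ∃ C : ℝ, 1 ≤ C ∧
    ∀ (K : Set ℂ) (Φ ρ : ℂ → ℂ), Collar K Φ ρ → ∀ y1 > 0, y1 ≤ 1 → Koebe C0 y1 K Φ →
    ∀ (a b : ℝ) (u q : ℝ → ℂ) (O : Set ℝ) (m : ℝ → ℝ), PathData Φ a b u q O →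
    ∀ τ : ℝ → ℝ, Depth (1 / 10) (y1 / 20) τ → (∀ s ∈ Icc a b, (u s).im ≤ τ (u s).re) →
    IntervalIntegrable m volume a b → (∀ s, 0 ≤ m s) →
    (∀ s s', a ≤ s → s ≤ s' → s' ≤ b → ‖q s' - q s‖ ≤ ∫ t in s..s', m t) →
    ∀ s0 s1 : ℝ, s0 ∈ Icc a b → s1 ∈ Icc a b → s0 ≤ s1 →
    (((u s0).im = τ (u s0).re ∧ (u s1).im = τ (u s1).re) →
      |arcA Φ τ (u s1).re - arcA Φ τ (u s0).re| ≤ C * ∫ t in s0..s1, m t) ∧
    ((((u s0).im = τ (u s0).re ∧ (u s1).im = 0) ∨ ((u s0).im = 0 ∧ (u s1).im = τ (u s1).re)) →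
      |arcA Φ τ (u s1).re - arcA Φ τ (u s0).re| + wd K Φ τ (u s0).re + wd K Φ τ (u s1).re ≤
        C * ∫ t in s0..s1, m t) := by
  obtain ⟨c, hc, hc1, hbil⟩ := bilip_u C0 h0
  obtain ⟨C', hC', hstep⟩ := step_bounds C0 h0
  obtain ⟨Cl, hCl, hlong⟩ := long_path C0 h0 (c / 2) (by positivity) (by linarith)
  refine ⟨Cl + 2 * C' + (C' ^ 2 + 2 * C' + 1), ?_, ?_⟩
  · nlinarith
  intro K Φ ρ hK y1 hy1 hy1' hKo a b u q O m hP τ hτ hut hm hm0 hq s0 s1 hs0 hs1 h01
  have hI0 : 0 ≤ ∫ t in s0..s1, m t := integral_nonneg h01 fun t _ => hm0 t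
  have hC'2 : 0 ≤ C' ^ 2 := sq_nonneg _
  have hq01 : ‖q s1 - q s0‖ ≤ ∫ t in s0..s1, m t := hq s0 s1 hs0.1 h01 hs1.2
  have hptu : ∀ s, (u s).im = τ (u s).re → u s = pt τ (u s).re := by
    intro s hs
    refine Complex.ext ?_ ?_
    · simp [pt]
    · simp [pt, hs]
  have hqu : ∀ s ∈ Icc a b, (u s).im = τ (u s).re → q s = Φ (pt τ (u s).re) := by
    intro s hs hs'
    rw [hP.inner s hs (by rw [hs']; exact hτ.pos _), ← hptu s hs']
  have hmax : ∀ X Y : ℝ, X ≤ Cl * Y → 0 ≤ Y → X ≤ (Cl + 2 * C' + (C' ^ 2 + 2 * C' + 1)) * Y := by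
    intro X Y hX hY
    have : 0 ≤ (2 * C' + (C' ^ 2 + 2 * C' + 1)) * Y := mul_nonneg (by linarith) hY
    nlinarith
  -- bilipschitz estimate for two points of the curve
  have hshort : ∀ α β : ℝ, |β - α| < c / 2 * τ α →
      |arcA Φ τ β - arcA Φ τ α| ≤ 2 * C' * ‖Φ (pt τ β) - Φ (pt τ α)‖ := by
    intro α β hαβ
    have hτα := hτ.pos α
    have h1 : |β - α| ≤ τ α := by nlinarith
    obtain ⟨_, _, _, h2⟩ := hstep K Φ ρ hK y1 hy1 hy1' hKo τ hτ α β h1
    have himα : (pt τ α).im = τ α := by simp [pt]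
    have hreα : (pt τ α).re = α := by simp [pt]
    have himβ : (pt τ β).im = τ β := by simp [pt]
    have hreβ : (pt τ β).re = β := by simp [pt]
    have h3 : ‖pt τ β - pt τ α‖ ≤ c * (pt τ α).im := by
      have h4 := Complex.norm_le_abs_re_add_abs_im (pt τ β - pt τ α)
      rw [Complex.sub_re, Complex.sub_im, himα, hreα, himβ, hreβ] at h4
      have h5 := e1k_lip hτ α β
      rw [himα]
      have : 0 ≤ |β - α| := abs_nonneg _
      nlinarith
    have h4 : |β - α| ≤ ‖pt τ β - pt τ α‖ := by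
      have h5 := Complex.abs_re_le_norm (pt τ β - pt τ α)
      rwa [Complex.sub_re, hreα, hreβ] at h5
    have h5 := hbil K Φ ρ hK y1 hy1 hKo (pt τ α) (pt τ β) (by rw [himα]; exact hτα)
      (by rw [himα]; have := hτ.le α; linarith) h3
    have h6 : ‖deriv Φ (pt τ α)‖ * |β - α| ≤ 2 * ‖Φ (pt τ β) - Φ (pt τ α)‖ :=
      (mul_le_mul_of_nonneg_left h4 (norm_nonneg _)).trans h5
    calc |arcA Φ τ β - arcA Φ τ α| ≤ C' * (‖deriv Φ (pt τ α)‖ * |β - α|) := h2
      _ ≤ C' * (2 * ‖Φ (pt τ β) - Φ (pt τ α)‖) := mul_le_mul_of_nonneg_left h6 (by linarith)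
      _ = 2 * C' * ‖Φ (pt τ β) - Φ (pt τ α)‖ := by ring
  -- short steps with one end on the curve
  have hend : ∀ α β xc : ℝ, |β - α| < c / 2 * τ α → (xc = α ∨ xc = β) →
      |arcA Φ τ β - arcA Φ τ α| + wd K Φ τ α + wd K Φ τ β ≤
        (C' ^ 2 + 2 * C' + 1) * wd K Φ τ xc := by
    intro α β xc hαβ hxc
    have hτα := hτ.pos α
    have h1 : |β - α| ≤ τ α := by nlinarith
    obtain ⟨g1, g2, g3, _⟩ := hstep K Φ ρ hK y1 hy1 hy1' hKo τ hτ α β h1
    have w1 : 0 ≤ wd K Φ τ α := infDist_nonneg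
    have w2 : 0 ≤ wd K Φ τ β := infDist_nonneg
    rcases hxc with rfl | rfl
    · nlinarith [mul_nonneg hC'2 w1]
    · have g4 : C' * wd K Φ τ α ≤ C' * (C' * wd K Φ τ xc) :=
        mul_le_mul_of_nonneg_left g3 (by linarith)
      nlinarith [mul_nonneg hC'2 w2]
  rcases le_or_gt (c / 2 * τ (min (u s0).re (u s1).re)) |(u s1).re - (u s0).re| with hL | hS
  · have h1 := hlong K Φ ρ hK y1 hy1 hy1' hKo a b u q O m hP τ hτ hut hm hm0 hq s0 s1 hs0 hs1 h01 hL
    have w1 : 0 ≤ wd K Φ τ (u s0).re := infDist_nonneg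
    have w2 : 0 ≤ wd K Φ τ (u s1).re := infDist_nonneg
    exact ⟨fun _ => hmax _ _ (by linarith) hI0, fun _ => hmax _ _ h1 hI0⟩
  · have hfin : ∀ X Y : ℝ, 0 ≤ Y → X ≤ 2 * C' * Y → X ≤ (Cl + 2 * C' + (C' ^ 2 + 2 * C' + 1)) * Y := by
      intro X Y hY hX
      have : 0 ≤ (Cl + (C' ^ 2 + 2 * C' + 1)) * Y := mul_nonneg (by linarith) hY
      nlinarith
    have hfin' : ∀ X Y : ℝ, 0 ≤ Y → X ≤ (C' ^ 2 + 2 * C' + 1) * Y →
        X ≤ (Cl + 2 * C' + (C' ^ 2 + 2 * C' + 1)) * Y := by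
      intro X Y hY hX
      have : 0 ≤ (Cl + 2 * C') * Y := mul_nonneg (by linarith) hY
      nlinarith
    constructor
    · rintro ⟨e0, e1⟩
      refine hfin _ _ hI0 ?_
      have q0 := hqu s0 hs0 e0
      have q1 := hqu s1 hs1 e1
      rw [q0, q1] at hq01
      rcases le_total (u s0).re (u s1).re with h | h
      · rw [min_eq_left h] at hS
        exact (hshort _ _ hS).trans (mul_le_mul_of_nonneg_left hq01 (by linarith))
      · rw [min_eq_right h, abs_sub_comm] at hS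
        rw [abs_sub_comm]
        rw [norm_sub_rev] at hq01
        exact (hshort _ _ hS).trans (mul_le_mul_of_nonneg_left hq01 (by linarith))
    · intro hd
      -- the distance at the end on the curve
      obtain ⟨xc, hxc, hw⟩ : ∃ xc : ℝ, (xc = (u s0).re ∨ xc = (u s1).re) ∧
          wd K Φ τ xc ≤ ∫ t in s0..s1, m t := by
        rcases hd with ⟨e0, e1⟩ | ⟨e0, e1⟩
        · refine ⟨(u s0).re, Or.inl rfl, le_trans ?_ hq01⟩
          have hk := hP.contact hK s1 hs1 e1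
          have h1 := infDist_le_dist_of_mem (x := Φ (pt τ (u s0).re)) hk
          rw [dist_eq_norm, ← hqu s0 hs0 e0, norm_sub_rev] at h1
          rw [wd, ← hqu s0 hs0 e0]
          exact h1
        · refine ⟨(u s1).re, Or.inr rfl, le_trans ?_ hq01⟩
          have hk := hP.contact hK s0 hs0 e0
          have h1 := infDist_le_dist_of_mem (x := Φ (pt τ (u s1).re)) hk
          rw [dist_eq_norm, ← hqu s1 hs1 e1] at h1
          rw [wd, ← hqu s1 hs1 e1]
          exact h1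
      refine hfin' _ _ hI0 ?_
      have hC3 : 0 ≤ C' ^ 2 + 2 * C' + 1 := by linarith
      rcases le_total (u s0).re (u s1).re with h | h
      · rw [min_eq_left h] at hS
        exact (hend _ _ xc hS hxc).trans (mul_le_mul_of_nonneg_left hw hC3)
      · rw [min_eq_right h, abs_sub_comm] at hS
        rw [abs_sub_comm]
        have h1 := (hend _ _ xc hS hxc.symm).trans (mul_le_mul_of_nonneg_left hw hC3)
        linarith

end CF6

end

section

open Complex MeasureTheory Set Filter Topology Metric intervalIntegral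

namespace CF6

private lemma chain_compact (Zt : Set ℝ) (hZ : IsCompact Zt) (cl : ℝ → ℤ) (δ : ℝ) (hδ : 0 < δ)
    (hloc : ∀ t ∈ Zt, ∀ t' ∈ Zt, |t - t'| ≤ δ → cl t = cl t') (p : ℤ → Prop) :
    IsCompact {s | s ∈ Zt ∧ p (cl s)} := by
  have h : {s | s ∈ Zt ∧ p (cl s)} = Zt ∩ closure {s | s ∈ Zt ∧ p (cl s)} := by
    apply Set.Subset.antisymm
    · intro x hx
      exact ⟨hx.1, subset_closure hx⟩
    · rintro x ⟨hx, hxc⟩
      rw [Metric.mem_closure_iff] at hxc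
      obtain ⟨y, hy, hxy⟩ := hxc δ hδ
      have := hloc x hx y hy.1 (by rw [Real.dist_eq] at hxy; exact hxy.le)
      refine ⟨hx, ?_⟩
      rw [this]
      exact hy.2
  rw [h]
  exact hZ.inter_right isClosed_closure

/-- E.9 (about 200 lines), pure real analysis. `A` and `W ≥ 0` are functions of time, `Zt` the compact set of good contact times,
`cl` its cluster function; inside a cluster `|ΔA| ≤ (1+c)∫m + c(W+W')`, between different clusters (no good time in between) and from the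
ends to the good times `|ΔA| + W + W' ≤ C1 ∫ m`. Then `|A(b)-A(a)| ≤ ∫ om m`. Induction over time slots of length `(b-a)/N`. -/
theorem chain (a b : ℝ) (hab : a ≤ b) (A W m om : ℝ → ℝ) (Zt : Set ℝ) (hZ : IsCompact Zt)
    (hZs : Zt ⊆ Icc a b) (cl : ℝ → ℤ) (c C1 C2 : ℝ) (hc : 0 < c) (hc1 : c ≤ 1) (hC1 : 1 ≤ C1)
    (hC2 : 3 * C1 + 3 ≤ C2) (hW : ∀ t, 0 ≤ W t) (hm : IntervalIntegrable m volume a b)
    (hm0 : ∀ s, 0 ≤ m s)
    (hloc : ∃ N : ℕ, 0 < N ∧ ∀ t ∈ Zt, ∀ t' ∈ Zt, |t - t'| ≤ (b - a) / N → cl t = cl t')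
    (h1 : ∀ t ∈ Zt, ∀ t' ∈ Zt, t ≤ t' → cl t = cl t' →
      |A t' - A t| ≤ (1 + c) * (∫ s in t..t', m s) + c * (W t + W t'))
    (h2 : ∀ t ∈ Zt, ∀ t' ∈ Zt, t ≤ t' → cl t ≠ cl t' →
      |A t' - A t| + W t + W t' ≤ C1 * ∫ s in t..t', m s)
    (h3 : ∀ t ∈ Zt, |A t - A a| + W t ≤ C1 * (∫ s in a..t, m s) ∧
      |A b - A t| + W t ≤ C1 * (∫ s in t..b, m s))
    (h4 : Zt = ∅ → |A b - A a| ≤ C1 * ∫ s in a..b, m s)
    (hom : ∀ s ∈ Zt, om s = 1 + c) (hom' : ∀ s, s ∉ Zt → C2 ≤ om s)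
    (homi : IntervalIntegrable (fun s => om s * m s) volume a b) :
    |A b - A a| ≤ ∫ s in a..b, om s * m s := by
  -- integral comparison
  have mi : ∀ x y, a ≤ x → x ≤ y → y ≤ b → IntervalIntegrable m volume x y := by
    intro x y hx hxy hy
    apply hm.mono_set
    rw [uIcc_of_le hxy, uIcc_of_le hab]
    exact Icc_subset_Icc hx hy
  have oi : ∀ x y, a ≤ x → x ≤ y → y ≤ b →
      IntervalIntegrable (fun s => om s * m s) volume x y := by
    intro x y hx hxy hy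
    apply homi.mono_set
    rw [uIcc_of_le hxy, uIcc_of_le hab]
    exact Icc_subset_Icc hx hy
  have omge : ∀ s, 1 + c ≤ om s := by
    intro s
    by_cases hs : s ∈ Zt
    · rw [hom s hs]
    · have := hom' s hs
      linarith
  have I1 : ∀ x y, a ≤ x → x ≤ y → y ≤ b →
      (1 + c) * (∫ s in x..y, m s) ≤ ∫ s in x..y, om s * m s := by
    intro x y hx hxy hy
    rw [← intervalIntegral.integral_const_mul]
    apply intervalIntegral.integral_mono_on hxy ((mi x y hx hxy hy).const_mul _) (oi x y hx hxy hy)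
    intro s _
    exact mul_le_mul_of_nonneg_right (omge s) (hm0 s)
  have I2 : ∀ x y, a ≤ x → x ≤ y → y ≤ b → (∀ s ∈ Ioo x y, s ∉ Zt) →
      C1 * (∫ s in x..y, m s) ≤ ∫ s in x..y, om s * m s := by
    intro x y hx hxy hy hfree
    rw [← intervalIntegral.integral_const_mul]
    apply intervalIntegral.integral_mono_on_of_le_Ioo hxy ((mi x y hx hxy hy).const_mul _)
      (oi x y hx hxy hy)
    intro s hs
    have := hom' s (hfree s hs)
    exact mul_le_mul_of_nonneg_right (by linarith) (hm0 s)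
  have Iadd : ∀ x y z, a ≤ x → x ≤ y → y ≤ z → z ≤ b →
      (∫ s in x..y, om s * m s) + (∫ s in y..z, om s * m s) = ∫ s in x..z, om s * m s := by
    intro x y z hx hxy hyz hz
    exact intervalIntegral.integral_add_adjacent_intervals (oi x y hx hxy (hyz.trans hz))
      (oi y z (hx.trans hxy) hyz hz)
  -- trivial cases
  rcases hab.eq_or_lt with rfl | hlt
  · simp
  by_cases hne : Zt.Nonempty
  swap
  · have he : Zt = ∅ := Set.not_nonempty_iff_eq_empty.1 hne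
    exact (h4 he).trans (I2 a b le_rfl hab le_rfl (by intro s _; rw [he]; exact Set.notMem_empty s))
  obtain ⟨N, hN, hloc⟩ := hloc
  set δ : ℝ := (b - a) / N with hδdef
  have hNr : (0 : ℝ) < N := by exact_mod_cast hN
  have hδ : 0 < δ := div_pos (by linarith) hNr
  -- the invariant
  let R : ℝ → Prop := fun t => ∃ t0 ∈ Zt, t0 ≤ t ∧ cl t0 = cl t ∧
    |A t0 - A a| + W t0 ≤ ∫ s in a..t0, om s * m s
  -- consequence of the invariant
  have Rcons : ∀ t ∈ Zt, R t → |A t - A a| ≤ (∫ s in a..t, om s * m s) + c * W t := by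
    rintro t ht ⟨t0, ht0, hle, hcl, hb⟩
    have e1 := h1 t0 ht0 t ht hle hcl
    have e2 := I1 t0 t (hZs ht0).1 hle (hZs ht).2
    have e3 := Iadd a t0 t le_rfl (hZs ht0).1 hle (hZs ht).2
    have e4 : |A t - A a| ≤ |A t - A t0| + |A t0 - A a| := abs_sub_le _ _ _
    have e5 : c * W t0 ≤ W t0 := by nlinarith [hW t0]
    have e6 : c * (W t0 + W t) = c * W t0 + c * W t := by ring
    linarith
  obtain ⟨zmin, hzmin, hzmin'⟩ := hZ.exists_isLeast hne
  obtain ⟨zmax, hzmax, hzmax'⟩ := hZ.exists_isGreatest hne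
  have step : ∀ t ∈ Zt, (∀ s ∈ Zt, s < t - δ → R s) → R t := by
    intro t ht ih
    by_cases hB : ({s | s ∈ Zt ∧ cl s ≠ cl t} ∩ Iic t).Nonempty
    · have hBc : IsCompact ({s | s ∈ Zt ∧ cl s ≠ cl t} ∩ Iic t) :=
        (chain_compact Zt hZ cl δ hδ hloc (fun k => k ≠ cl t)).inter_right isClosed_Iic
      obtain ⟨s, hs, hs'⟩ := hBc.exists_isGreatest hB
      have hst : s ≤ t := hs.2
      have hDc : IsCompact ({u | u ∈ Zt ∧ cl u = cl t} ∩ Ici s) :=
        (chain_compact Zt hZ cl δ hδ hloc (fun k => k = cl t)).inter_right isClosed_Ici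
      obtain ⟨u, hu, hu'⟩ := hDc.exists_isLeast ⟨t, ⟨ht, rfl⟩, hst⟩
      have hut : u ≤ t := hu' ⟨⟨ht, rfl⟩, hst⟩
      have hsu : s ≤ u := hu.2
      have hsuc : cl s ≠ cl u := by
        rw [hu.1.2]; exact hs.1.2
      have hgap : s < u - δ := by
        by_contra hcon
        push Not at hcon
        apply hsuc
        apply hloc s hs.1.1 u hu.1.1
        rw [abs_sub_comm, abs_of_nonneg (by linarith)]
        linarith
      have hfree : ∀ x ∈ Ioo s u, x ∉ Zt := by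
        rintro x ⟨hx1, hx2⟩ hxZ
        by_cases hxc : cl x = cl t
        · have := hu' ⟨⟨hxZ, hxc⟩, hx1.le⟩
          linarith
        · have := hs' ⟨⟨hxZ, hxc⟩, (hx2.le.trans hut)⟩
          linarith
      have hRs := Rcons s hs.1.1 (ih s hs.1.1 (by linarith))
      have g1 := h2 s hs.1.1 u hu.1.1 hsu hsuc
      have g2 := I2 s u (hZs hs.1.1).1 hsu (hZs hu.1.1).2 hfree
      have g3 := Iadd a s u le_rfl (hZs hs.1.1).1 hsu (hZs hu.1.1).2
      have g4 : |A u - A a| ≤ |A u - A s| + |A s - A a| := abs_sub_le _ _ _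
      have g5 : c * W s ≤ W s := by nlinarith [hW s]
      exact ⟨u, hu.1.1, hut, hu.1.2, by linarith⟩
    · have hz : zmin ≤ t := hzmin' ht
      have hcl : cl zmin = cl t := by
        by_contra hcon
        exact hB ⟨zmin, ⟨hzmin, hcon⟩, hz⟩
      refine ⟨zmin, hzmin, hz, hcl, ?_⟩
      refine (h3 zmin hzmin).1.trans (I2 a zmin le_rfl (hZs hzmin).1 (hZs hzmin).2 ?_)
      rintro x ⟨_, hx2⟩ hxZ
      have := hzmin' hxZ
      linarith
  have key : ∀ n : ℕ, ∀ t ∈ Zt, t ≤ a + n * δ → R t := by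
    intro n
    induction n with
    | zero =>
      intro t ht htn
      apply step t ht
      intro s hs hst
      have := (hZs hs).1
      simp at htn
      linarith
    | succ n ih =>
      intro t ht htn
      apply step t ht
      intro s hs hst
      apply ih s hs
      push_cast at htn
      linarith
  have hlast : R zmax := by
    apply key N zmax hzmax
    have : (N : ℝ) * δ = b - a := by
      rw [hδdef]; field_simp
    have h2 := (hZs hzmax).2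
    linarith
  have g0 := Rcons zmax hzmax hlast
  have g1 := (h3 zmax hzmax).2
  have g2 := I2 zmax b (hZs hzmax).1 (hZs hzmax).2 le_rfl (by
    rintro x ⟨hx1, _⟩ hxZ
    have := hzmax' hxZ
    linarith)
  have g3 := Iadd a zmax b le_rfl (hZs hzmax).1 (hZs hzmax).2 le_rfl
  have g4 : |A b - A a| ≤ |A b - A zmax| + |A zmax - A a| := abs_sub_le _ _ _
  have g5 : c * W zmax ≤ W zmax := by nlinarith [hW zmax]
  linarith

end CF6

end

section

open Complex MeasureTheory Set Filter Topology Metric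

namespace CF6

private lemma Depth.mono {c c' r r' : ℝ} {τ : ℝ → ℝ} (h : Depth c r τ) (hc : c ≤ c') (hr : r ≤ r') :
    Depth c' r' τ :=
  ⟨h.smooth, h.per, h.pos, fun x => (h.le x).trans hr, fun x => (h.slope x).trans hc⟩

/-- E.10 (about 200 lines) assembly: choose `κ` (MID, `6κ ≤ r`, `6 κ ≤ y1/20`), clusters with `d = κ/ε`, `s ≪ g`, then `chain` with
`A t = arcA (u t).re`, `W t = C (wd (u t).re)`, `Zt = {t ∈ Icc a b | (u t).im = 0 ∧ (u t).re ∈ E}`; E.5b, E.5c. -/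
theorem exists_curve' (C0 : ℝ) (h0 : 1 ≤ C0) (B : ℝ) : ∃ C : ℝ, 1 ≤ C ∧ B ≤ C ∧
    ∀ (K : Set ℂ) (Φ ρ : ℂ → ℂ), Collar K Φ ρ → ∀ y1 > 0, y1 ≤ 1 → Koebe C0 y1 K Φ → ∀ (E : Set ℝ) (p e : ℝ → ℂ),
    IsClosed E → interior E = ∅ → E.Nonempty →
    (∀ x, x ∈ E ↔ x + 2 * Real.pi ∈ E) → (∀ x ∈ E, ‖e x‖ = 1) → UIsogonal Φ E p e →
    ∀ ε : ℝ, 0 < ε → C * ε < 1 → ∀ r : ℝ, 0 < r →
    ∃ τ : ℝ → ℝ, Depth ε r τ ∧ PushIneq Φ E p τ C ε := by
  obtain ⟨Cm, hCm1, hmid⟩ := mid C0 h0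
  obtain ⟨Cl, hCl1, hlong⟩ := long_path C0 h0 (1 / 2) (by norm_num) le_rfl
  obtain ⟨Cf, hCf1, hfrom⟩ := from_curve C0 h0
  set C1 : ℝ := Cl + Cf with hC1
  have hB := abs_nonneg B
  set C : ℝ := Cm + 3 * C1 + 10 + |B| with hC
  have hC10 : 10 ≤ C := by rw [hC]; linarith
  refine ⟨C, by linarith, by rw [hC]; linarith [le_abs_self B], ?_⟩
  intro K Φ ρ hK y1 hy1 hy1' hKo E p e hEc hEi hEn hEp he hU ε hε hCε r hr
  have hε10 : ε < 1 / 10 := by
    by_contra h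
    push Not at h
    nlinarith
  have hCmε : Cm * ε < 1 := by nlinarith
  obtain ⟨κ0, hκ0, hmid'⟩ := hmid K Φ ρ hK y1 hy1 hKo E p e hEc hEp he hU ε hε hCmε
  obtain ⟨κ, hκ, hκ'⟩ : ∃ κ : ℝ, 0 < κ ∧ κ < min κ0 (min (r / 6) (y1 / 120)) :=
    exists_between (lt_min hκ0 (lt_min (by positivity) (by positivity)))
  have k1 : κ < κ0 := lt_of_lt_of_le hκ' (min_le_left _ _)
  have k2 : κ < r / 6 := lt_of_lt_of_le hκ' ((min_le_right _ _).trans (min_le_left _ _))
  have k3 : κ < y1 / 120 := lt_of_lt_of_le hκ' ((min_le_right _ _).trans (min_le_right _ _))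
  obtain ⟨g, hg, cl, hcl⟩ := exists_clusters hEc hEi hEp (d := κ / ε) (by positivity)
  set s : ℝ := min κ (g / 5) with hs
  have hs0 : 0 < s := lt_min hκ (by positivity)
  have hsκ : s ≤ κ := min_le_left _ _
  have hsg : s ≤ g / 5 := min_le_right _ _
  obtain ⟨τ, hτ⟩ := exists_tau hEn hEp hε (by linarith) hκ hs0 hsκ
  have hD : Depth (1 / 10) (y1 / 20) τ := hτ.depth.mono hε10.le (by linarith)
  refine ⟨τ, hτ.depth.mono le_rfl (by linarith), ?_⟩
  intro a b u q O m hP hdep hua hub hm hm0 hqm hqp om hom hom'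
  set Zt : Set ℝ := {t | t ∈ Icc a b ∧ (u t).im = 0 ∧ (u t).re ∈ E ∧ t ∉ O} with hZt
  have hZs : Zt ⊆ Icc a b := fun t ht => ht.1
  have hZc : IsCompact Zt := by
    have h1 : IsClosed (Icc a b ∩ u ⁻¹' {z : ℂ | z.im = 0 ∧ z.re ∈ E}) := by
      refine hP.cu.preimage_isClosed_of_isClosed isClosed_Icc ?_
      exact (isClosed_eq continuous_im continuous_const).inter (hEc.preimage continuous_re)
    have h2 : Zt = (Icc a b ∩ u ⁻¹' {z : ℂ | z.im = 0 ∧ z.re ∈ E}) ∩ Oᶜ := by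
      ext t
      simp only [hZt, mem_ofPred_eq, mem_inter_iff, mem_preimage, mem_compl_iff]
      tauto
    rw [h2]
    exact isCompact_Icc.of_isClosed_subset (h1.inter hP.Oopen.isClosed_compl)
      (fun t ht => ht.1.1)
  set om' : ℝ → ℝ := fun t => open Classical in if t ∈ Zt then 1 + C * ε else C with hom'd
  have homeq : ∀ t ∈ Icc a b, om t = om' t := by
    intro t ht
    by_cases hz : t ∈ Zt
    · rw [hom t ⟨hz.2.1, hz.2.2.1, hz.2.2.2⟩]
      simp [hom'd, hz]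
    · have : ¬ ((u t).im = 0 ∧ (u t).re ∈ E ∧ t ∉ O) := fun h => hz ⟨ht, h⟩
      rw [hom' t this]
      simp [hom'd, hz]
  have hint : ∫ t in a..b, om t * m t = ∫ t in a..b, om' t * m t := by
    refine intervalIntegral.integral_congr fun t ht => ?_
    rw [uIcc_of_le hP.le] at ht
    simp only [homeq t ht]
  rw [hint]
  have hC1' : 1 + C * ε ≤ C := by linarith
  have homi : IntervalIntegrable (fun s => om' s * m s) volume a b := by
    refine (hm.const_mul C).mono_fun ?_ ?_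
    · refine AEStronglyMeasurable.mul ?_ ((intervalIntegrable_iff.1 hm).aestronglyMeasurable)
      refine Measurable.aestronglyMeasurable ?_
      exact Measurable.ite hZc.isClosed.measurableSet measurable_const measurable_const
    · refine ae_of_all _ fun t => ?_
      simp only [norm_mul, Real.norm_eq_abs]
      refine mul_le_mul_of_nonneg_right ?_ (abs_nonneg _)
      by_cases hz : t ∈ Zt
      · simp only [hom'd, hz, if_true]
        rw [abs_of_pos (by positivity), abs_of_pos (by linarith)]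
        exact hC1'
      · simp only [hom'd, hz, if_false]
        exact le_rfl
  have hq' : ∀ t ∈ Zt, q t = p (u t).re := fun t ht => hqp t ht.1 ht.2.2.2 ht.2.1 ht.2.2.1
  refine chain a b hP.le (fun t => arcA Φ τ (u t).re) (fun t => wd K Φ τ (u t).re) m om' Zt hZc hZs
    (fun t => cl (u t).re) (C * ε) C1 C (by positivity) hCε.le (by linarith) (by rw [hC]; linarith)
    (fun t => infDist_nonneg) hm hm0 ?_ ?_ ?_ ?_ ?_ ?_ ?_ homi
  · -- clusters are locally constant in time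
    have huc := isCompact_Icc.uniformContinuousOn_of_continuous hP.cu
    rw [Metric.uniformContinuousOn_iff] at huc
    obtain ⟨δ, hδ, hδ'⟩ := huc g hg
    obtain ⟨N, hN⟩ := exists_nat_gt ((b - a) / δ)
    have hN0 : 0 < N + 1 := Nat.succ_pos N
    refine ⟨N + 1, hN0, fun t ht t' ht' htt => ?_⟩
    by_contra hne
    have h1 := (hcl _ ht.2.2.1 _ ht'.2.2.1).2 hne
    have h2 : dist t t' < δ := by
      rw [Real.dist_eq]
      refine lt_of_le_of_lt htt ?_
      rw [div_lt_iff₀ (by positivity)]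
      rw [div_lt_iff₀ hδ] at hN
      push_cast
      nlinarith
    have h3 := hδ' t ht.1 t' ht'.1 h2
    rw [dist_eq_norm] at h3
    have h4 : |(u t).re - (u t').re| ≤ ‖u t - u t'‖ := by
      rw [← sub_re]; exact abs_re_le_norm _
    linarith
  · intro t ht t' ht' htt hc
    have h1 := (hcl _ ht.2.2.1 _ ht'.2.2.1).1 hc
    have h2 := hmid' κ hκ k1 s hs0 hsκ τ hτ _ ht.2.2.1 _ ht'.2.2.1 h1
    rw [← hq' t ht, ← hq' t' ht'] at h2
    have h3 := hqm t t' ht.1.1 htt ht'.1.2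
    have h4 : ‖q t - q t'‖ = ‖q t' - q t‖ := norm_sub_rev _ _
    have h5 : |arcA Φ τ (u t').re - arcA Φ τ (u t).re| = |arcA Φ τ (u t).re - arcA Φ τ (u t').re| :=
      abs_sub_comm _ _
    have w1 : 0 ≤ wd K Φ τ (u t).re := infDist_nonneg
    have w2 : 0 ≤ wd K Φ τ (u t').re := infDist_nonneg
    have h6 : Cm * ε ≤ C * ε := by
      refine mul_le_mul_of_nonneg_right ?_ hε.le
      rw [hC]; linarith
    rw [h5]
    refine h2.trans ?_
    rw [h4]
    have h7 : (1 + Cm * ε) * ‖q t' - q t‖ ≤ (1 + C * ε) * ∫ s in t..t', m s := by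
      refine mul_le_mul (by linarith) h3 (norm_nonneg _) (by positivity)
    have h8 : Cm * ε * (wd K Φ τ (u t).re + wd K Φ τ (u t').re) ≤
        C * ε * (wd K Φ τ (u t).re + wd K Φ τ (u t').re) :=
      mul_le_mul_of_nonneg_right h6 (by positivity)
    linarith
  · intro t ht t' ht' htt hc
    have h1 := (hcl _ ht.2.2.1 _ ht'.2.2.1).2 hc
    have hmin : min (u t).re (u t').re ∈ E := by
      rcases min_choice (u t).re (u t').re with h | h <;> rw [h]
      · exact ht.2.2.1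
      · exact ht'.2.2.1
    have h2 : τ (min (u t).re (u t').re) ≤ 5 * s := by
      have := hτ.le' (min (u t).re (u t').re)
      rw [infDist_zero_of_mem hmin] at this
      linarith
    have h3 := hlong K Φ ρ hK y1 hy1 hy1' hKo a b u q O m hP τ hD hdep hm hm0 hqm t t' ht.1 ht'.1
      htt (by rw [abs_sub_comm]; linarith)
    refine h3.trans ?_
    refine mul_le_mul_of_nonneg_right (by linarith) ?_
    exact intervalIntegral.integral_nonneg htt fun s _ => hm0 s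
  · intro t ht
    have ha : a ∈ Icc a b := ⟨le_rfl, hP.le⟩
    have hb : b ∈ Icc a b := ⟨hP.le, le_rfl⟩
    have w1 : 0 ≤ wd K Φ τ (u a).re := infDist_nonneg
    have w2 : 0 ≤ wd K Φ τ (u b).re := infDist_nonneg
    have i1 : 0 ≤ ∫ s in a..t, m s := intervalIntegral.integral_nonneg ht.1.1 fun s _ => hm0 s
    have i2 : 0 ≤ ∫ s in t..b, m s := intervalIntegral.integral_nonneg ht.1.2 fun s _ => hm0 s
    have h1 := (hfrom K Φ ρ hK y1 hy1 hy1' hKo a b u q O m hP τ hD hdep hm hm0 hqm a t ha ht.1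
      ht.1.1).2 (Or.inl ⟨hua, ht.2.1⟩)
    have h2 := (hfrom K Φ ρ hK y1 hy1 hy1' hKo a b u q O m hP τ hD hdep hm hm0 hqm t b ht.1 hb
      ht.1.2).2 (Or.inr ⟨ht.2.1, hub⟩)
    have h3 : Cf * (∫ s in a..t, m s) ≤ C1 * ∫ s in a..t, m s :=
      mul_le_mul_of_nonneg_right (by linarith) i1
    have h4 : Cf * (∫ s in t..b, m s) ≤ C1 * ∫ s in t..b, m s :=
      mul_le_mul_of_nonneg_right (by linarith) i2
    constructor <;> linarith
  · intro _
    have ha : a ∈ Icc a b := ⟨le_rfl, hP.le⟩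
    have hb : b ∈ Icc a b := ⟨hP.le, le_rfl⟩
    have i1 : 0 ≤ ∫ s in a..b, m s := intervalIntegral.integral_nonneg hP.le fun s _ => hm0 s
    have h1 := (hfrom K Φ ρ hK y1 hy1 hy1' hKo a b u q O m hP τ hD hdep hm hm0 hqm a b ha hb
      hP.le).1 ⟨hua, hub⟩
    refine h1.trans (mul_le_mul_of_nonneg_right (by linarith) i1)
  · intro t ht
    simp [hom'd, ht]
  · intro t ht
    simp [hom'd, ht]

end CF6

end
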