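import Pool.Agent.Lib.MP_cf6b16_an.DE1
import Pool.Agent.Lib.MP_cf6b16_an.DE5
import Pool.Agent.Lib.MP_cf6b16_an.DE6
import Pool.Agent.Lib.MP_cf6b16_an.DE9

section

open Complex MeasureTheory Set Filter Topology Metric

open scoped ENNReal

namespace CF6

/-- one period -/
theorem d3i_period {K : Set ℂ} {Φ ρ : ℂ → ℂ} (hK : Collar K Φ ρ) {x : ℝ} {p e : ℂ}
    (h : Isogonal Φ x p e) : Isogonal Φ (x - 2 * Real.pi) p e := by
  obtain ⟨-, -, hper⟩ := inj_mod hK
  intro L hL η hη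
  obtain ⟨δ, hδ, hd⟩ := h L hL η hη
  refine ⟨δ, hδ, fun u hu hu2 hu3 => ?_⟩
  have him : (u + 2 * Real.pi : ℂ).im = u.im := by simp
  have hre : (u + 2 * Real.pi : ℂ).re = u.re + 2 * Real.pi := by simp
  have h1 := hd (u + 2 * Real.pi) (by rw [him]; exact hu) (by rw [him]; exact hu2) (by
    rw [him, hre]
    have : u.re + 2 * Real.pi - x = u.re - (x - 2 * Real.pi) := by ring
    rw [this]
    exact hu3)
  have h2 : Φ (u + 2 * Real.pi) = Φ u := hper u hu
  have h3 : deriv Φ (u + 2 * Real.pi) = deriv Φ u := by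
    have h4 : (fun z => Φ (z + 2 * Real.pi)) =ᶠ[𝓝 u] Φ := by
      have h5 : UHP ∈ 𝓝 u := (isOpen_lt continuous_const Complex.continuous_im).mem_nhds hu
      filter_upwards [h5] with z hz
      exact hper z hz
    rw [← h4.deriv_eq, deriv_comp_add_const]
  rw [h2, h3] at h1
  exact h1

/-- the other direction -/
theorem d3i_period' {K : Set ℂ} {Φ ρ : ℂ → ℂ} (hK : Collar K Φ ρ) {x : ℝ} {p e : ℂ}
    (h : Isogonal Φ x p e) : Isogonal Φ (x + 2 * Real.pi) p e := by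
  obtain ⟨-, -, hper⟩ := inj_mod hK
  intro L hL η hη
  obtain ⟨δ, hδ, hd⟩ := h L hL η hη
  refine ⟨δ, hδ, fun u hu hu2 hu3 => ?_⟩
  have him : (u - 2 * Real.pi : ℂ).im = u.im := by simp
  have hre : (u - 2 * Real.pi : ℂ).re = u.re - 2 * Real.pi := by simp
  have h1 := hd (u - 2 * Real.pi) (by rw [him]; exact hu) (by rw [him]; exact hu2) (by
    rw [him, hre]
    have : u.re - 2 * Real.pi - x = u.re - (x + 2 * Real.pi) := by ring
    rw [this]
    exact hu3)
  have hper' : ∀ z : ℂ, 0 < z.im → Φ (z - 2 * Real.pi) = Φ z := by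
    intro z hz
    have h6 := hper (z - 2 * Real.pi) (by show 0 < (z - 2 * Real.pi : ℂ).im; simpa using hz)
    rw [sub_add_cancel] at h6
    exact h6.symm
  have h2 : Φ (u - 2 * Real.pi) = Φ u := hper' u hu
  have h3 : deriv Φ (u - 2 * Real.pi) = deriv Φ u := by
    have h4 : (fun z => Φ (z - 2 * Real.pi)) =ᶠ[𝓝 u] Φ := by
      have h5 : UHP ∈ 𝓝 u := (isOpen_lt continuous_const Complex.continuous_im).mem_nhds hu
      filter_upwards [h5] with z hz
      exact hper' z hz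
    rw [← h4.deriv_eq, deriv_comp_sub_const]
  rw [h2, h3] at h1
  exact h1

/-- integer multiples -/
theorem d3i_int {K : Set ℂ} {Φ ρ : ℂ → ℂ} (hK : Collar K Φ ρ) {x : ℝ} {p e : ℂ}
    (h : Isogonal Φ x p e) (n : ℤ) : Isogonal Φ (x + n * (2 * Real.pi)) p e := by
  induction n using Int.induction_on with
  | zero => simpa using h
  | succ i ih =>
    have := d3i_period' hK ih
    have h2 : x + ((i : ℤ) + 1 : ℤ) * (2 * Real.pi) = x + (i : ℤ) * (2 * Real.pi) + 2 * Real.pi := by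
      push_cast
      ring
    rw [h2]
    exact this
  | pred i ih =>
    have := d3i_period hK ih
    have h2 : x + ((-(i : ℤ) - 1 : ℤ) : ℝ) * (2 * Real.pi) =
        x + ((-(i : ℤ) : ℤ) : ℝ) * (2 * Real.pi) - 2 * Real.pi := by
      push_cast
      ring
    rw [h2]
    exact this

/-- D3.9 (about 150 lines) assembly: `μ` = image of `(|hx|² + |hy|²) dz` on the non hidden contact set under the angle of `g`. -/
theorem exists_goodSet' {Ω K O : Set ℂ} {Φ ρ : ℂ → ℂ} (hK : Collar K Φ ρ) (hA : FinArea Φ)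
    {h g ht : ℂ → ℂ}
    {hj : ℕ → ℂ → ℂ} (H : LimData Ω K ρ h g hj) (hx hy : ℂ → ℂ) (ha : ACL2 Ω h hx hy)
    (hn : Normal Ω K O h g ht) (ε : ℝ) (hε : 0 < ε) :
    ∃ (E : Set ℝ) (p e : ℝ → ℂ), IsClosed E ∧ interior E = ∅ ∧
      (∀ x, x ∈ E ↔ x + 2 * Real.pi ∈ E) ∧ (∀ x ∈ E, ‖e x‖ = 1) ∧ UIsogonal Φ E p e ∧
      (∀ z ∈ Ω, ∀ x ∈ E, g z = exp (I * x) → ht z = p x) ∧
      en ({z | z ∈ Ω ∧ ‖g z‖ = 1 ∧ ∀ x ∈ E, g z ≠ exp (I * x)} \ O) hx hy ≤ ENNReal.ofReal ε := by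
  classical
  obtain ⟨-, hgc, -, -, -⟩ := H.basic hK
  have hΩ : IsOpen Ω := H.Oopen
  have hΩm : MeasurableSet Ω := hΩ.measurableSet
  -- the contact set
  set S : Set ℂ := {z | z ∈ Ω ∧ ‖g z‖ = 1} \ O with hSdef
  have hSm : MeasurableSet S := by
    have h1 : IsOpen (Ω ∩ g ⁻¹' {w | ‖w‖ ≠ 1}) :=
      hgc.isOpen_inter_preimage hΩ (isOpen_ne_fun continuous_norm continuous_const)
    have h2 : {z | z ∈ Ω ∧ ‖g z‖ = 1} = Ω \ (Ω ∩ g ⁻¹' {w | ‖w‖ ≠ 1}) := by
      ext z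
      simp only [mem_setOf_eq, mem_diff, mem_inter_iff, mem_preimage, not_and, not_not, ne_eq]
      tauto
    rw [hSdef, h2]
    exact (hΩm.diff h1.measurableSet).diff hn.Oopen.measurableSet
  have hSΩ : S ⊆ Ω := fun z hz => hz.1.1
  -- weight
  set w : ℂ → ℝ≥0∞ := fun z => ‖hx z‖ₑ ^ 2 + ‖hy z‖ₑ ^ 2 with hw
  have hwm : AEMeasurable w (volume.restrict Ω) := by
    exact (ha.mx.enorm.pow_const 2).add (ha.my.enorm.pow_const 2)
  set ν : Measure ℂ := (volume.restrict S).withDensity w with hν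
  have hνfin : IsFiniteMeasure ν := by
    apply isFiniteMeasure_withDensity
    refine ne_of_lt (lt_of_le_of_lt ?_ ha.fin)
    exact lintegral_mono_set hSΩ
  -- the angle
  set G : ℂ → ℂ := Ω.indicator g with hG
  have hGm : Measurable G := by
    have : G = Ω.piecewise g (fun _ => 0) := by
      ext z
      by_cases hz : z ∈ Ω <;> simp [hG, hz]
    rw [this]
    exact hgc.measurable_piecewise continuousOn_const hΩm
  set ang : ℂ → ℝ := fun z => if 0 ≤ (G z).arg then (G z).arg else (G z).arg + 2 * Real.pi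
    with hang
  have hangm : Measurable ang := by
    have h1 : Measurable (fun z => (G z).arg) := Complex.measurable_arg.comp hGm
    exact Measurable.ite (measurableSet_le measurable_const h1) h1 (h1.add_const _)
  have hang0 : ∀ z, ang z ∈ Ico 0 (2 * Real.pi) := by
    intro z
    have h1 := Complex.neg_pi_lt_arg (G z)
    have h2 := Complex.arg_le_pi (G z)
    have h3 := Real.pi_pos
    rw [hang]
    simp only
    split_ifs with h4
    · exact ⟨h4, by linarith⟩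
    · push Not at h4
      exact ⟨by linarith, by linarith⟩
  have hangg : ∀ z ∈ Ω, ‖g z‖ = 1 → g z = exp (I * ang z) := by
    intro z hz hz1
    have hGz : G z = g z := by simp [hG, hz]
    have h1 := Complex.norm_mul_exp_arg_mul_I (g z)
    rw [hz1] at h1
    simp only [ofReal_one, one_mul] at h1
    rw [hang]
    simp only
    rw [hGz]
    split_ifs with h4
    · rw [mul_comm]
      exact h1.symm
    · rw [mul_comm]
      push_cast
      rw [add_mul, Complex.exp_add, Complex.exp_two_pi_mul_I, mul_one]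
      exact h1.symm
  set μ : Measure ℝ := ν.map ang with hμ
  have hμfin : IsFiniteMeasure μ := Measure.isFiniteMeasure_map ν ang
  have hνapp : ∀ A : Set ℂ, MeasurableSet A → ν A = ∫⁻ z in A ∩ S, w z := by
    intro A hAm
    rw [hν, withDensity_apply _ hAm, Measure.restrict_restrict hAm]
  -- no atoms
  have hat : ∀ x, μ {x} = 0 := by
    intro x
    rw [hμ, Measure.map_apply hangm (measurableSet_singleton x),
      hνapp _ (hangm (measurableSet_singleton x))]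
    by_cases hemp : (ang ⁻¹' {x} ∩ S).Nonempty
    · obtain ⟨z0, hz0, hz0S⟩ := hemp
      have hconst : ∀ z ∈ ang ⁻¹' {x} ∩ S, h z = h z0 := by
        intro z hz
        have hz1 : ang z = x := hz.1
        have hz2 : ang z0 = x := hz0
        have hgz : g z = g z0 := by
          rw [hangg z hz.2.1.1 hz.2.1.2, hangg z0 hz0S.1.1 hz0S.1.2, hz1, hz2]
        rw [← hn.eqh z hz.2.1.1 hz.2.2, ← hn.eqh z0 hz0S.1.1 hz0S.2]
        exact hn.fib z hz.2.1.1 z0 hz0S.1.1 hz.2.1.2 hgz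
      have hz := deriv_zero_on_level hΩ ha (h z0)
      have hsub : ang ⁻¹' {x} ∩ S ⊆ Ω := fun z hz => hSΩ hz.2
      have hmS : MeasurableSet (ang ⁻¹' {x} ∩ S) :=
        (hangm (measurableSet_singleton x)).inter hSm
      have h1 : ∀ᵐ z ∂(volume.restrict (ang ⁻¹' {x} ∩ S)), w z = 0 := by
        have h2 := ae_restrict_of_ae_restrict_of_subset hsub hz
        filter_upwards [h2, ae_restrict_mem hmS] with z hz1 hz2
        obtain ⟨h3, h4⟩ := hz1 (hconst z hz2)
        simp [hw, h3, h4]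
      rw [lintegral_congr_ae h1]
      simp
    · rw [not_nonempty_iff_eq_empty.1 hemp]
      simp
  have hs : μ (Ico 0 (2 * Real.pi))ᶜ = 0 := by
    rw [hμ, Measure.map_apply hangm measurableSet_Ico.compl]
    have : ang ⁻¹' (Ico 0 (2 * Real.pi))ᶜ = ∅ := by
      ext z
      simp only [mem_preimage, mem_compl_iff, mem_empty_iff_false, iff_false, not_not]
      exact hang0 z
    rw [this]
    simp
  -- almost every angle is isogonal
  have hPm : MeasurableSet {x : ℝ | ∃ p e : ℂ, ‖e‖ = 1 ∧ Isogonal Φ x p e} := by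
    have h1 : {x : ℝ | ∃ p e : ℂ, ‖e‖ = 1 ∧ Isogonal Φ x p e} =
        ⋂ L : ℕ, {x | Tendsto (fun n => osc Φ L n x) atTop (𝓝 0)} := by
      ext x
      rw [mem_iInter]
      exact isogonal_iff_osc hK x
    rw [h1]
    exact MeasurableSet.iInter (fun L => measurableSet_tendsto (𝓝 0)
      (fun n => measurable_osc Φ L n))
  have hiso : ∀ᵐ x ∂μ, ∃ p e : ℂ, ‖e‖ = 1 ∧ Isogonal Φ x p e := by
    rw [hμ, ae_map_iff hangm.aemeasurable hPm]
    have h1 := ae_iso hK hA H hx hy ha hn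
    have h2 := ae_restrict_of_ae_restrict_of_subset hSΩ h1
    have hwS : AEMeasurable w (volume.restrict S) :=
      hwm.mono_measure (Measure.restrict_mono hSΩ le_rfl)
    rw [hν, ae_withDensity_iff' hwS]
    filter_upwards [h2, ae_restrict_mem hSm] with z hz1 hz2 hz3
    have h3 : hx z ≠ 0 ∨ hy z ≠ 0 := by
      by_contra hcon
      push Not at hcon
      apply hz3
      simp [hw, hcon.1, hcon.2]
    obtain ⟨x, e, hx1, he, hI⟩ := hz1 hz2.1.2 hz2.2 h3
    have h4 := hangg z hz2.1.1 hz2.1.2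
    rw [hx1] at h4
    obtain ⟨n, hn1⟩ := Complex.exp_eq_exp_iff_exists_int.1 h4
    have h5 : ang z = x + (-n : ℤ) * (2 * Real.pi) := by
      have h6 : (x : ℂ) = ang z + n * (2 * Real.pi) := by
        have h7 : I * (x : ℂ) = I * (ang z + n * (2 * Real.pi)) := by
          rw [hn1]
          ring
        exact mul_left_cancel₀ I_ne_zero h7
      have h8 : x = ang z + n * (2 * Real.pi) := by
        exact_mod_cast h6
      rw [h8]
      push_cast
      ring
    refine ⟨ht z, e, he, ?_⟩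
    rw [h5]
    exact d3i_int hK hI (-n)
  obtain ⟨E, p, e, hEc, hEi, hEp, hEe, hEU, hEμ⟩ := egorov_circle hK μ hat hs hiso ε hε
  refine ⟨E, p, e, hEc, hEi, hEp, hEe, hEU, ?_, ?_⟩
  · intro z hz x hxE hgz
    have hI : Isogonal Φ x (p x) (e x) := by
      intro L hL η hη
      obtain ⟨δ, hδ, hd⟩ := hEU L hL η hη
      exact ⟨δ, hδ, fun u hu hu2 hu3 => hd x hxE u hu hu2 hu3⟩
    exact ht_eq_of_isogonal hK hA H hn (hEe x hxE) hI hz hgz
  · refine le_trans ?_ hEμ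
    rw [hμ, Measure.map_apply hangm hEc.measurableSet.compl,
      hνapp _ (hangm hEc.measurableSet.compl)]
    unfold en
    apply lintegral_mono_set
    rintro z ⟨⟨hz1, hz2, hz3⟩, hz4⟩
    refine ⟨?_, ⟨hz1, hz2⟩, hz4⟩
    intro hzE
    exact hz3 (ang z) hzE (hangg z hz1 hz2)

end CF6

end

section

open Complex MeasureTheory Set Filter Topology Metric intervalIntegral

namespace CF6

/-- E.11 (about 60 lines) the case of an empty good set: `τ` constant, E.5c. -/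
theorem exists_curve_empty (C0 : ℝ) (h0 : 1 ≤ C0) : ∃ C : ℝ, 1 ≤ C ∧ ∀ (K : Set ℂ) (Φ ρ : ℂ → ℂ),
    Collar K Φ ρ → ∀ y1 > 0, y1 ≤ 1 → Koebe C0 y1 K Φ → ∀ (p : ℝ → ℂ),
    ∀ ε : ℝ, 0 < ε → C * ε < 1 → ∀ r : ℝ, 0 < r →
    ∃ τ : ℝ → ℝ, Depth ε r τ ∧ PushIneq Φ ∅ p τ C ε := by
  obtain ⟨C, hC1, hC⟩ := from_curve C0 h0
  refine ⟨C, hC1, fun K Φ ρ hK y1 hy1 hy1' hKo p ε hε hCε r hr => ?_⟩
  have hpos : 0 < min r (y1 / 20) := lt_min hr (by positivity)
  refine ⟨fun _ => min r (y1 / 20), ?_, ?_⟩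
  · exact ⟨contDiff_const, fun _ => rfl, fun _ => hpos, fun _ => min_le_left _ _,
      fun x => by simpa using hε.le⟩
  · intro a b u q O m hP hle hua hub hm hm0 hq _ om _ hom
    have hD : Depth (1 / 10) (y1 / 20) (fun _ => min r (y1 / 20)) :=
      ⟨contDiff_const, fun _ => rfl, fun _ => hpos, fun _ => min_le_right _ _,
        fun x => by simp⟩
    have h1 := (hC K Φ ρ hK y1 hy1 hy1' hKo a b u q O m hP _ hD hle hm hm0 hq a b
      (left_mem_Icc.2 hP.le) (right_mem_Icc.2 hP.le) hP.le).1 ⟨hua, hub⟩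
    have h2 : (∫ t in a..b, om t * m t) = C * ∫ t in a..b, m t := by
      rw [← intervalIntegral.integral_const_mul]
      refine intervalIntegral.integral_congr (fun t _ => ?_)
      have h3 := hom t (by
        rintro ⟨-, h4, -⟩
        exact h4)
      simp only [h3]
    rw [h2]
    exact h1

end CF6

end

section

/-! # Modules D, E: the interface theorems (helper68) -/

open Complex MeasureTheory Set Filter Topology Metric intervalIntegral

open scoped ENNReal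

namespace CF6

theorem isogonal_of_path {K : Set ℂ} {Φ ρ : ℂ → ℂ} (hK : Collar K Φ ρ) (hA : FinArea Φ)
    {a b t0 : ℝ}
    (hat : a < t0) (htb : t0 < b) {u q : ℝ → ℂ} {Z : Set ℝ} {un : ℕ → ℝ → ℂ}
    (cu : ContinuousOn u (Icc a b)) (cq : ContinuousOn q (Icc a b))
    (hun : ∀ n, ContinuousOn (un n) (Icc a b) ∧ ∀ s ∈ Icc a b, 0 < (un n s).im)
    (hlim : TendstoUniformlyOn un u atTop (Icc a b))
    (hlim' : TendstoUniformlyOn (fun n s => Φ (un n s)) q atTop (Icc a b))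
    {v : ℂ} (hd : HasDerivAt q v t0) (hv : v ≠ 0) (hZ : Z ⊆ Icc a b)
    (hZ0 : ∀ t ∈ Z, (u t).im = 0) (ht0 : t0 ∈ Z)
    (dens : ∀ η > (0 : ℝ), ∃ r > (0 : ℝ), ∀ x y : ℝ, x < y → |x - t0| < r → |y - t0| < r →
      η * (|x - t0| + |y - t0|) ≤ y - x → (Z ∩ Ioo x y).Nonempty)
    (fib : ∀ t ∈ Z, ∀ t' ∈ Z, exp (I * u t) = exp (I * u t') → q t = q t') :
    ∃ e : ℂ, ‖e‖ = 1 ∧ Isogonal Φ (u t0).re (q t0) e :=
  isogonal_of_path' hK hA hat htb cu cq hun hlim hlim' hd hv hZ hZ0 ht0 dens fib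

/-- D, domain level, with Egorov: the good set `E`. -/
theorem exists_goodSet {Ω K O : Set ℂ} {Φ ρ : ℂ → ℂ} (hK : Collar K Φ ρ) (hA : FinArea Φ)
    {h g ht : ℂ → ℂ}
    {hj : ℕ → ℂ → ℂ} (H : LimData Ω K ρ h g hj) (hx hy : ℂ → ℂ) (ha : ACL2 Ω h hx hy)
    (hn : Normal Ω K O h g ht) (ε : ℝ) (hε : 0 < ε) :
    ∃ (E : Set ℝ) (p e : ℝ → ℂ), IsClosed E ∧ interior E = ∅ ∧
      (∀ x, x ∈ E ↔ x + 2 * Real.pi ∈ E) ∧ (∀ x ∈ E, ‖e x‖ = 1) ∧ UIsogonal Φ E p e ∧
      (∀ z ∈ Ω, ∀ x ∈ E, g z = exp (I * x) → ht z = p x) ∧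
      en ({z | z ∈ Ω ∧ ‖g z‖ = 1 ∧ ∀ x ∈ E, g z ≠ exp (I * x)} \ O) hx hy ≤ ENNReal.ofReal ε :=
  exists_goodSet' hK hA H hx hy ha hn ε hε

theorem exists_curve (C0 : ℝ) : ∃ C : ℝ, 1 ≤ C ∧ ∀ (K : Set ℂ) (Φ ρ : ℂ → ℂ), Collar K Φ ρ →
    ∀ y1 > 0, Koebe C0 y1 K Φ → ∀ (E : Set ℝ) (p e : ℝ → ℂ), IsClosed E → interior E = ∅ →
    (∀ x, x ∈ E ↔ x + 2 * Real.pi ∈ E) → (∀ x ∈ E, ‖e x‖ = 1) → UIsogonal Φ E p e →
    ∀ ε : ℝ, 0 < ε → C * ε < 1 → ∀ r : ℝ, 0 < r →
    ∃ τ : ℝ → ℝ, Depth ε r τ ∧ PushIneq Φ E p τ C ε := by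
  obtain ⟨Ce, hCe, hemp⟩ := exists_curve_empty (max C0 1) (le_max_right _ _)
  obtain ⟨C, hC, hCeC, hcur⟩ := exists_curve' (max C0 1) (le_max_right _ _) Ce
  refine ⟨C, hC, ?_⟩
  intro K Φ ρ hK y1 hy1 hKo E p e hEc hEi hEp he hU ε hε hCε r hr
  have hKo' : Koebe (max C0 1) (min y1 1) K Φ := by
    intro u hu hu'
    obtain ⟨h1, h2⟩ := hKo u hu (hu'.trans (min_le_left _ _))
    refine ⟨h1.trans (mul_le_mul_of_nonneg_right (le_max_left _ _) infDist_nonneg),
      h2.trans (mul_le_mul_of_nonneg_right (le_max_left _ _) (by positivity))⟩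
  have hy : 0 < min y1 1 := lt_min hy1 one_pos
  rcases E.eq_empty_or_nonempty with h | h
  · subst h
    have hCe' : Ce * ε < 1 := lt_of_le_of_lt (mul_le_mul_of_nonneg_right hCeC hε.le) hCε
    obtain ⟨τ, hτ, hP⟩ := hemp K Φ ρ hK _ hy (min_le_right _ _) hKo' p ε hε hCe' r hr
    refine ⟨τ, hτ, ?_⟩
    intro a b u q O m hD hdep hua hub hm hm0 hqm hqp om hom hom'
    have h1 := hP a b u q O m hD hdep hua hub hm hm0 hqm hqp (fun _ => Ce)
      (fun s hs => absurd hs.2.1 (notMem_empty _)) (fun s _ => rfl)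
    refine h1.trans ?_
    have h2 : om = fun _ => C := by
      funext s
      exact hom' s (fun hs => absurd hs.2.1 (notMem_empty _))
    rw [h2, intervalIntegral.integral_const_mul, intervalIntegral.integral_const_mul]
    exact mul_le_mul_of_nonneg_right hCeC (intervalIntegral.integral_nonneg hD.le fun s _ => hm0 s)
  · exact hcur K Φ ρ hK _ hy (min_le_right _ _) hKo' E p e hEc hEi h hEp he hU ε hε hCε r hr

end CF6

end
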