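import Mathlib

section

/-!
# Definitions for MP_cf6b16_an (homeomorphic versus deformation energy infima)
-/

open Complex MeasureTheory Set Filter Topology Metric

open scoped ENNReal ContDiff

namespace CF6

/-- `c : ℝ → ℂ`, considered on `[0,1]`, is a closed curve with winding number `n` about `w`. -/
def Winds (c : ℝ → ℂ) (w : ℂ) (n : ℤ) : Prop :=
  ∃ θ : ℝ → ℝ, ContinuousOn θ (Icc 0 1) ∧
    (∀ t ∈ Icc (0 : ℝ) 1, c t ≠ w ∧ c t - w = ‖c t - w‖ * exp (θ t * I)) ∧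
    θ 1 = θ 0 + 2 * Real.pi * n

/-- the circle of radius `r` about `z`, positively oriented, on `[0,1]`. -/
noncomputable def circ (z : ℂ) (r : ℝ) (t : ℝ) : ℂ := z + r * exp (2 * Real.pi * t * I)

/-- `f` preserves the orientation on `Ω`: images of small circles about `z` wind once about `f z`. -/
def SensePreserving (f : ℂ → ℂ) (Ω : Set ℂ) : Prop :=
  ∀ z ∈ Ω, ∀ r : ℝ, 0 < r → closedBall z r ⊆ Ω → Winds (fun t => f (circ z r t)) (f z) 1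

/-- `f` is a homeomorphism of `Ω` onto `Ωs`. -/
def IsHomeoOnto (f : ℂ → ℂ) (Ω Ωs : Set ℂ) : Prop :=
  ContinuousOn f Ω ∧ BijOn f Ω Ωs ∧ ∃ g : ℂ → ℂ, ContinuousOn g Ωs ∧ InvOn g f Ω Ωs

/-- `D` is the weak derivative of `f` on the open set `U` (both locally integrable). -/
def IsWeakDeriv (U : Set ℂ) (f : ℂ → ℂ) (D : ℂ → ℂ →L[ℝ] ℂ) : Prop :=
  LocallyIntegrableOn f U ∧ LocallyIntegrableOn D U ∧
  ∀ φ : ℂ → ℝ, ContDiff ℝ ∞ φ → HasCompactSupport φ → tsupport φ ⊆ U → ∀ e : ℂ,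
    ∫ z in U, (fderiv ℝ φ z e) • f z = - ∫ z in U, φ z • D z e

/-- the Dirichlet energy `∫_U |D|^2`, Hilbert-Schmidt norm. -/
noncomputable def energy (U : Set ℂ) (D : ℂ → ℂ →L[ℝ] ℂ) : ℝ≥0∞ :=
  ∫⁻ z in U, (‖D z 1‖ₑ ^ 2 + ‖D z I‖ₑ ^ 2)

/-- `f` lies in the Sobolev space `W^{1,2}(U)`, with weak derivative `D`. -/
def W12 (U : Set ℂ) (f : ℂ → ℂ) (D : ℂ → ℂ →L[ℝ] ℂ) : Prop :=
  IsWeakDeriv U f D ∧ (∫⁻ z in U, ‖f z‖ₑ ^ 2) < ⊤ ∧ energy U D < ⊤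

/-- `Ω` is a bounded `k`-connected domain. -/
def KDomain (k : ℕ) (Ω : Set ℂ) : Prop :=
  IsOpen Ω ∧ IsConnected Ω ∧ Bornology.IsBounded Ω ∧
    {C : Set ℂ | ∃ z ∈ Ωᶜ, C = connectedComponentIn Ωᶜ z}.encard = k

/-- the distance function `δ_f` on the closure of `Ω`. -/
noncomputable def del (Ω Ωs : Set ℂ) (f : ℂ → ℂ) (z : ℂ) : ℝ :=
  open Classical in if z ∈ Ω then infDist (f z) (frontier Ωs) else 0

/-- `cδ`-uniform convergence. -/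
def CDelta (Ω Ωs : Set ℂ) (hj : ℕ → ℂ → ℂ) (h : ℂ → ℂ) : Prop :=
  TendstoLocallyUniformlyOn hj h atTop Ω ∧
    TendstoUniformlyOn (fun j => del Ω Ωs (hj j)) (del Ω Ωs h) atTop (closure Ω)

/-- `h`, with weak derivative `D`, is a deformation of `Ω` onto `Ωs`. -/
def IsDeformation (Ω Ωs : Set ℂ) (h : ℂ → ℂ) (D : ℂ → ℂ →L[ℝ] ℂ) : Prop :=
  MapsTo h Ω (closure Ωs) ∧ W12 Ω h D ∧ (∀ᵐ z ∂(volume.restrict Ω), 0 ≤ (D z).det) ∧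
    (∫⁻ z in Ω, ENNReal.ofReal (D z).det) ≤ volume Ωs ∧
    ∃ hj : ℕ → ℂ → ℂ, (∀ j, IsHomeoOnto (hj j) Ω Ωs ∧ SensePreserving (hj j) Ω) ∧
      CDelta Ω Ωs hj h

/-- the infimum of the energies of homeomorphisms. -/
noncomputable def EH (Ω Ωs : Set ℂ) : ℝ≥0∞ :=
  sInf {e | ∃ f D, IsHomeoOnto f Ω Ωs ∧ SensePreserving f Ω ∧ W12 Ω f D ∧ e = energy Ω D}

/-- the infimum of the energies of deformations. -/
noncomputable def ED (Ω Ωs : Set ℂ) : ℝ≥0∞ :=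
  sInf {e | ∃ h D, IsDeformation Ω Ωs h D ∧ e = energy Ω D}

/-- Line form of `W^{1,2}_loc` for a continuous function with square integrable derivatives along the axes. -/
structure ACL2 (U : Set ℂ) (f fx fy : ℂ → ℂ) : Prop where
  cont : ContinuousOn f U
  mx : AEStronglyMeasurable fx (volume.restrict U)
  my : AEStronglyMeasurable fy (volume.restrict U)
  fin : (∫⁻ z in U, (‖fx z‖ₑ ^ 2 + ‖fy z‖ₑ ^ 2)) < ⊤
  hor : ∀ᵐ y : ℝ, ∀ a b : ℝ, a ≤ b → (∀ t ∈ Icc a b, (⟨t, y⟩ : ℂ) ∈ U) →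
    IntervalIntegrable (fun t => fx ⟨t, y⟩) volume a b ∧
      f ⟨b, y⟩ - f ⟨a, y⟩ = ∫ t in a..b, fx ⟨t, y⟩
  ver : ∀ᵐ x : ℝ, ∀ a b : ℝ, a ≤ b → (∀ t ∈ Icc a b, (⟨x, t⟩ : ℂ) ∈ U) →
    IntervalIntegrable (fun t => fy ⟨x, t⟩) volume a b ∧
      f ⟨x, b⟩ - f ⟨x, a⟩ = ∫ t in a..b, fy ⟨x, t⟩

/-- energy of the pair of derivatives along the axes -/
noncomputable def en (U : Set ℂ) (fx fy : ℂ → ℂ) : ℝ≥0∞ :=
  ∫⁻ z in U, (‖fx z‖ₑ ^ 2 + ‖fy z‖ₑ ^ 2)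

end CF6

end

section

/-!
# Intermediate notions for MP_cf6b16_an: target collars, path data, isogonality, limit data
-/

open Complex MeasureTheory Set Filter Topology Metric

open scoped ENNReal

namespace CF6

/-- the open upper half plane as a subset of `ℂ` -/
def UHP : Set ℂ := {u | 0 < u.im}

/-- Riemann map of the complement of the continuum `K` in the sphere, in the coordinate `u`
(`Φ u = φ (exp (i u))`), and its inverse `ρ = φ⁻¹ : Kᶜ → ball 0 1`. -/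
structure Collar (K : Set ℂ) (Φ ρ : ℂ → ℂ) : Prop where
  closed : IsClosed K
  conn : IsConnected K
  nontriv : K.Nontrivial
  dPhi : DifferentiableOn ℂ Φ UHP
  dRho : DifferentiableOn ℂ ρ Kᶜ
  mem : ∀ u ∈ UHP, Φ u ∉ K
  left : ∀ u ∈ UHP, ρ (Φ u) = exp (I * u)
  maps : MapsTo ρ Kᶜ (ball 0 1)
  inj : InjOn ρ Kᶜ
  right : ∀ w ∉ K, ρ w ≠ 0 → ∃ u ∈ UHP, Φ u = w
  at0 : (∃ w0 ∉ K, ρ w0 = 0) ∨
    (Bornology.IsBounded K ∧ ∀ R : ℝ, ∃ y : ℝ, ∀ u : ℂ, y < u.im → R < ‖Φ u‖)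
  logs : ∀ k ∈ K, ∀ k' ∈ K, ∃ Λ : ℂ → ℂ, DifferentiableOn ℂ Λ UHP ∧
    (∀ u ∈ UHP, exp (Λ u) = (Φ u - k) / (Φ u - k')) ∧ ∀ u ∈ UHP, Λ (u + 2 * Real.pi) = Λ u
  log1 : ¬ Bornology.IsBounded K → ∀ k ∈ K, ∃ Λ : ℂ → ℂ, DifferentiableOn ℂ Λ UHP ∧
    (∀ u ∈ UHP, exp (Λ u) = Φ u - k) ∧ ∀ u ∈ UHP, Λ (u + 2 * Real.pi) = Λ u

/-- `u` is the lift of `g ∘ γ`, `q = h ∘ γ` for a path `γ` (parameter in `[a,b]`), `O` is the union of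
the hidden intervals; `un` are the lifts of the approximating curves. -/
structure PathData (Φ : ℂ → ℂ) (a b : ℝ) (u q : ℝ → ℂ) (O : Set ℝ) : Prop where
  le : a ≤ b
  cu : ContinuousOn u (Icc a b)
  cq : ContinuousOn q (Icc a b)
  im0 : ∀ s ∈ Icc a b, 0 ≤ (u s).im
  inner : ∀ s ∈ Icc a b, 0 < (u s).im → q s = Φ (u s)
  Oopen : IsOpen O
  Osub : O ⊆ Ioo a b
  Ou : ∀ s ∈ O, (u s).im = 0
  Oconst : ∀ s ∈ O, ∀ᶠ s' in 𝓝 s, u s' = u s ∧ q s' = q s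
  approx : ∃ un : ℕ → ℝ → ℂ, (∀ n, ContinuousOn (un n) (Icc a b) ∧
      ∀ s ∈ Icc a b, 0 < (un n s).im) ∧
    TendstoUniformlyOn un u atTop (Icc a b) ∧
    ∀ s ∈ Icc a b, s ∉ O → ∀ sn : ℕ → ℝ, (∀ n, sn n ∈ Icc a b) → Tendsto sn atTop (𝓝 s) →
      Tendsto (fun n => Φ (un n (sn n))) atTop (𝓝 (q s))

/-- `Φ` is isogonal at the boundary point `x` with boundary value `p` and direction `e`. -/
def Isogonal (Φ : ℂ → ℂ) (x : ℝ) (p e : ℂ) : Prop :=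
  ∀ L > (0 : ℝ), ∀ η > (0 : ℝ), ∃ δ > (0 : ℝ), ∀ u : ℂ, 0 < u.im → u.im < δ →
    |u.re - x| ≤ L * u.im →
    ‖Φ u - p‖ ≤ η ∧ deriv Φ u ≠ 0 ∧ ‖deriv Φ u / ‖deriv Φ u‖ - e‖ ≤ η

/-- uniform isogonality on a set `E` of boundary points. -/
def UIsogonal (Φ : ℂ → ℂ) (E : Set ℝ) (p e : ℝ → ℂ) : Prop :=
  ∀ L > (0 : ℝ), ∀ η > (0 : ℝ), ∃ δ > (0 : ℝ), ∀ x ∈ E, ∀ u : ℂ, 0 < u.im → u.im < δ →
    |u.re - x| ≤ L * u.im →
    ‖Φ u - p x‖ ≤ η ∧ deriv Φ u ≠ 0 ∧ ‖deriv Φ u / ‖deriv Φ u‖ - e x‖ ≤ η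

end CF6

end
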