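import Mathlib

section

/-! # Module F of MP_cf6b16_an: definitions (strip kernel, minimiser) -/

open Complex MeasureTheory Set Filter Topology Metric intervalIntegral
open scoped ENNReal

namespace CF6

/-- Poisson kernel of the strip `0 < t < T`, Dirichlet at `0`, Neumann at `T` -/
noncomputable def pk (T t s : ℝ) : ℝ :=
  1 / (2 * T) * (Real.sin (Real.pi * t / (2 * T)) * Real.cosh (Real.pi * s / (2 * T))) /
    (Real.cosh (Real.pi * s / (2 * T)) ^ 2 - Real.cos (Real.pi * t / (2 * T)) ^ 2)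

/-- the minimiser with boundary values `B` -/
noncomputable def lam (T : ℝ) (B : ℝ → ℝ) (t θ : ℝ) : ℝ := ∫ s, pk T t s * B (θ - s)

/-- energy of the minimiser over one period of `t0 < t < T` -/
noncomputable def elam (T : ℝ) (B : ℝ → ℝ) (t0 : ℝ) : ℝ≥0∞ :=
  ∫⁻ t in Ioo t0 T, ∫⁻ θ in Ioo 0 (2 * Real.pi),
    (‖deriv (fun t => lam T B t θ) t‖ₑ ^ 2 + ‖deriv (fun θ => lam T B t θ) θ‖ₑ ^ 2)

/-- cost of moving between two good points on a common good line -/
noncomputable def segCost (mt mθ : ℝ → ℝ → ℝ) (x y : ℝ × ℝ) : ℝ :=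
  open Classical in
  if x.2 = y.2 then |∫ t in x.1..y.1, mt t x.2| else |∫ θ in x.2..y.2, mθ x.1 θ|

/-- continuous, nondecreasing, quasi-periodic boundary function of period length `L` -/
structure QP (L : ℝ) (B : ℝ → ℝ) : Prop where
  cont : Continuous B
  mono : Monotone B
  per : ∀ θ, B (θ + 2 * Real.pi) = B θ + L

/-- real Fourier coefficients of the periodic part -/
noncomputable def ac (L : ℝ) (B : ℝ → ℝ) (n : ℕ) : ℝ :=
  1 / Real.pi * ∫ θ in (0 : ℝ)..(2 * Real.pi), (B θ - L * θ / (2 * Real.pi)) * Real.cos (n * θ)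

noncomputable def bs (L : ℝ) (B : ℝ → ℝ) (n : ℕ) : ℝ :=
  1 / Real.pi * ∫ θ in (0 : ℝ)..(2 * Real.pi), (B θ - L * θ / (2 * Real.pi)) * Real.sin (n * θ)

/-- the `n`-th mode factor, `n ≥ 1` -/
noncomputable def mode (L : ℝ) (B : ℝ → ℝ) (n : ℕ) : ℝ := ac L B n ^ 2 + bs L B n ^ 2

/-- the trigonometric test function -/
noncomputable def LamN (T L : ℝ) (B : ℝ → ℝ) (N : ℕ) (t θ : ℝ) : ℝ :=
  L * θ / (2 * Real.pi) + ∑ n ∈ Finset.Icc 1 N,
    (ac L B n * Real.cos (n * θ) + bs L B n * Real.sin (n * θ)) *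
      (Real.cosh (n * (T - t)) / Real.cosh (n * T))

/-- `Im (1 / sinh (b - i a)) = cosh b sin a / (sinh^2 b + sin^2 a)` -/
noncomputable def LcF (T : ℝ) (B : ℝ → ℝ) (ζ : ℂ) : ℂ :=
  ∫ x : ℝ, (B x : ℂ) / (2 * T * Complex.sinh (Real.pi * (ζ - x) / (2 * T)))


end CF6

end

section

/-! # Module F of MP_cf6b16_an, row FC2 : measurability of the McShane function

On the product of the subtypes Tg x Thg the function is continuous in each variable separately (h1,h2 and continuity of the integral): measurable_uncurry_of_continuous_of_measurable. Extend by 0 (MeasurableEmbedding of the subtypes, Measurable.piecewise).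
-/

open Complex MeasureTheory Set Filter Topology Metric intervalIntegral
open scoped ENNReal

namespace CF6

theorem mcshane_meas {T : ℝ} (mt mθ : ℝ → ℝ → ℝ) (Tg Θg : Set ℝ) (hTg : Tg ⊆ Ioo 0 T)
    (mTg : MeasurableSet Tg) (mΘg : MeasurableSet Θg)
    (iT : ∀ t ∈ Tg, ∀ x y : ℝ, IntervalIntegrable (mθ t) volume x y)
    (iΘ : ∀ θ ∈ Θg, ∀ x ∈ Ico 0 T, IntervalIntegrable (fun t => mt t θ) volume 0 x)
    (f : ℝ → ℝ → ℝ)
    (h1 : ∀ t ∈ Tg, ∀ x ∈ Θg, ∀ y ∈ Θg, x ≤ y → |f t y - f t x| ≤ ∫ s in x..y, mθ t s)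
    (h2 : ∀ θ ∈ Θg, ∀ x ∈ Tg, ∀ y ∈ Tg, x ≤ y → |f y θ - f x θ| ≤ ∫ s in x..y, mt s θ) :
    ∃ f' : ℝ → ℝ → ℝ, Measurable (Function.uncurry f') ∧ ∀ t ∈ Tg, ∀ x ∈ Θg, f' t x = f t x := by
  set u : Tg → Θg → ℝ := fun t x => f t x with hu
  have hc1 : ∀ t : Tg, Continuous (u t) := by
    intro t
    have hG : Continuous fun b => ∫ s in (0 : ℝ)..b, mθ t s :=
      intervalIntegral.continuous_primitive (fun a b => iT t t.2 a b) 0
    have hle : ∀ x y : Θg, |u t y - u t x| ≤
        |(∫ s in (0 : ℝ)..y, mθ t s) - ∫ s in (0 : ℝ)..x, mθ t s| := by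
      intro x y
      rcases le_total (x : ℝ) y with h | h
      · rw [intervalIntegral.integral_interval_sub_left (iT t t.2 _ _) (iT t t.2 _ _)]
        exact (h1 t t.2 x x.2 y y.2 h).trans (le_abs_self _)
      · rw [abs_sub_comm (u t y), abs_sub_comm (∫ s in (0 : ℝ)..y, mθ t s),
          intervalIntegral.integral_interval_sub_left (iT t t.2 _ _) (iT t t.2 _ _)]
        exact (h1 t t.2 y y.2 x x.2 h).trans (le_abs_self _)
    rw [continuous_iff_continuousAt]
    intro x
    rw [ContinuousAt, tendsto_iff_dist_tendsto_zero]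
    have hlim : Tendsto (fun y : Θg => |(∫ s in (0 : ℝ)..y, mθ t s) - ∫ s in (0 : ℝ)..x, mθ t s|)
        (𝓝 x) (𝓝 0) := by
      have h3 : Continuous fun y : Θg =>
          |(∫ s in (0 : ℝ)..y, mθ t s) - ∫ s in (0 : ℝ)..x, mθ t s| :=
        ((hG.comp continuous_subtype_val).sub continuous_const).abs
      have h4 := h3.tendsto x
      simpa using h4
    refine squeeze_zero (fun y => dist_nonneg) (fun y => ?_) hlim
    rw [Real.dist_eq]
    exact hle x y
  have hc2 : ∀ x : Θg, Continuous (fun t : Tg => u t x) := by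
    intro θ
    rw [continuous_iff_continuousAt]
    intro x
    have hx := hTg x.2
    obtain ⟨b, hb1, hb2⟩ := exists_between hx.2
    have hint : IntervalIntegrable (fun t => mt t θ) volume 0 b :=
      iΘ θ θ.2 b ⟨by linarith [hx.1], hb2⟩
    have hF : ContinuousOn (fun y => ∫ s in (0 : ℝ)..y, mt s θ) (uIcc 0 b) :=
      intervalIntegral.continuousOn_primitive_interval' hint left_mem_uIcc
    have hFx : ContinuousAt (fun y => ∫ s in (0 : ℝ)..y, mt s θ) x := by
      apply hF.continuousAt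
      rw [uIcc_of_le (by linarith [hx.1])]
      exact Icc_mem_nhds hx.1 hb1
    have hle : ∀ y : Tg, |u y θ - u x θ| ≤
        |(∫ s in (0 : ℝ)..y, mt s θ) - ∫ s in (0 : ℝ)..x, mt s θ| := by
      intro y
      have hy := hTg y.2
      have i1 := iΘ θ θ.2 x ⟨hx.1.le, hx.2⟩
      have i2 := iΘ θ θ.2 y ⟨hy.1.le, hy.2⟩
      rcases le_total (x : ℝ) y with h | h
      · rw [intervalIntegral.integral_interval_sub_left i2 i1]
        exact (h2 θ θ.2 x x.2 y y.2 h).trans (le_abs_self _)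
      · rw [abs_sub_comm (u y θ), abs_sub_comm (∫ s in (0 : ℝ)..y, mt s θ),
          intervalIntegral.integral_interval_sub_left i1 i2]
        exact (h2 θ θ.2 y y.2 x x.2 h).trans (le_abs_self _)
    rw [ContinuousAt, tendsto_iff_dist_tendsto_zero]
    have hlim : Tendsto (fun y : Tg => |(∫ s in (0 : ℝ)..y, mt s θ) - ∫ s in (0 : ℝ)..x, mt s θ|)
        (𝓝 x) (𝓝 0) := by
      have h3 : ContinuousAt (fun y : Tg =>
          |(∫ s in (0 : ℝ)..y, mt s θ) - ∫ s in (0 : ℝ)..x, mt s θ|) x := by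
        apply ContinuousAt.abs
        apply ContinuousAt.sub _ continuousAt_const
        exact ContinuousAt.comp (f := ((↑) : Tg → ℝ)) hFx continuous_subtype_val.continuousAt
      have h4 := h3.tendsto
      simpa using h4
    refine squeeze_zero (fun y => dist_nonneg) (fun y => ?_) hlim
    rw [Real.dist_eq]
    exact hle y
  have hm : Measurable (Function.uncurry u) :=
    measurable_uncurry_of_continuous_of_measurable hc2 (fun t => (hc1 t).measurable)
  have hemb : MeasurableEmbedding (Prod.map ((↑) : Tg → ℝ) ((↑) : Θg → ℝ)) :=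
    (MeasurableEmbedding.subtype_coe mTg).prodMap (MeasurableEmbedding.subtype_coe mΘg)
  refine ⟨fun t x => Function.extend (Prod.map ((↑) : Tg → ℝ) ((↑) : Θg → ℝ))
    (Function.uncurry u) (fun _ => 0) (t, x), ?_, ?_⟩
  · exact hemb.measurable_extend hm measurable_const
  · intro t ht x hx
    have h3 := hemb.injective.extend_apply (Function.uncurry u) (fun _ => (0 : ℝ))
      (⟨t, ht⟩, ⟨x, hx⟩)
    exact h3

end CF6

end
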