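import Pool.Agent.Lib.MP_cf6b16_an.F1

section

/-! # Module F of MP_cf6b16_an, row FA1 : the strip kernel, basic facts

cosh^2 b - cos^2 a = sinh^2 b + sin^2 a with a = pi t/(2T) in (0,pi), b = pi s/(2T); sin a > 0.
pk_symm: sin(pi - a) = sin a, cos(pi - a)^2 = cos(a)^2.  pk_le_exp: on [t0, 2T-t0] one has
sin a >= sin a0 > 0, so the denominator is >= sin^2 a0 cosh^2 b (because sinh^2 b + sin^2 a >= sin^2 a (sinh^2 b + 1)), and
1/cosh b <= 2 exp(-|b|). pk_integrable_mul: dominated by C exp(-pi|s|/2T) c (1+|s|).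
-/

open Complex MeasureTheory Set Filter Topology Metric intervalIntegral
open scoped ENNReal

namespace CF6

lemma fa1_sin_pos {T t : ℝ} (hT : 0 < T) (h0 : 0 < t) (h1 : t < 2 * T) :
    0 < Real.sin (Real.pi * t / (2 * T)) := by
  have hpi := Real.pi_pos
  have h2T : 0 < 2 * T := by linarith
  apply Real.sin_pos_of_pos_of_lt_pi
  · positivity
  · rw [div_lt_iff₀ h2T]
    exact mul_lt_mul_of_pos_left h1 hpi

lemma fa1_one_le_cosh_sq (b : ℝ) : 1 ≤ Real.cosh b ^ 2 := by
  have := Real.one_le_cosh b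
  nlinarith

lemma fa1_den_ge (a b : ℝ) :
    Real.sin a ^ 2 * Real.cosh b ^ 2 ≤ Real.cosh b ^ 2 - Real.cos a ^ 2 := by
  have h1 := Real.sin_sq_add_cos_sq a
  have h2 := fa1_one_le_cosh_sq b
  have h3 : 0 ≤ Real.cos a ^ 2 := sq_nonneg _
  have h4 : Real.sin a ^ 2 = 1 - Real.cos a ^ 2 := by linarith
  rw [h4]
  nlinarith

lemma pk_den_pos {T t : ℝ} (hT : 0 < T) (h0 : 0 < t) (h1 : t < 2 * T) (s : ℝ) :
    0 < Real.cosh (Real.pi * s / (2 * T)) ^ 2 - Real.cos (Real.pi * t / (2 * T)) ^ 2 := by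
  have h2 := fa1_sin_pos hT h0 h1
  have h3 := Real.cosh_pos (Real.pi * s / (2 * T))
  refine lt_of_lt_of_le ?_ (fa1_den_ge _ _)
  positivity

lemma pk_pos {T t : ℝ} (hT : 0 < T) (h0 : 0 < t) (h1 : t < 2 * T) (s : ℝ) : 0 < pk T t s := by
  have h2 := fa1_sin_pos hT h0 h1
  have h3 := Real.cosh_pos (Real.pi * s / (2 * T))
  unfold pk
  refine div_pos ?_ (pk_den_pos hT h0 h1 s)
  positivity

lemma pk_even (T t s : ℝ) : pk T t (-s) = pk T t s := by
  have h : Real.pi * (-s) / (2 * T) = -(Real.pi * s / (2 * T)) := by ring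
  unfold pk
  rw [h, Real.cosh_neg]

lemma pk_symm {T : ℝ} (hT : 0 < T) (t s : ℝ) : pk T (2 * T - t) s = pk T t s := by
  have h : Real.pi * (2 * T - t) / (2 * T) = Real.pi - Real.pi * t / (2 * T) := by
    field_simp
  unfold pk
  rw [h, Real.sin_pi_sub, Real.cos_pi_sub, neg_sq]

lemma pk_continuous {T t : ℝ} (hT : 0 < T) (h0 : 0 < t) (h1 : t < 2 * T) :
    Continuous (pk T t) := by
  unfold pk
  refine Continuous.div ?_ ?_ (fun s => (pk_den_pos hT h0 h1 s).ne')
  · exact continuous_const.mul (continuous_const.mul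
      (Real.continuous_cosh.comp ((continuous_const.mul continuous_id).div_const _)))
  · exact ((Real.continuous_cosh.comp ((continuous_const.mul continuous_id).div_const _)).pow
      2).sub continuous_const

lemma fa1_exp_le_cosh (b : ℝ) : Real.exp |b| / 2 ≤ Real.cosh b := by
  rw [← Real.cosh_abs, Real.cosh_eq]
  have := Real.exp_pos (-|b|)
  linarith

lemma fa1_sin_ge {a a0 : ℝ} (h0 : 0 < a0) (h1 : a0 ≤ Real.pi / 2) (h2 : a0 ≤ a)
    (h3 : a ≤ Real.pi - a0) : Real.sin a0 ≤ Real.sin a := by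
  have hpi := Real.pi_pos
  rcases le_total a (Real.pi / 2) with h | h
  · exact Real.sin_le_sin_of_le_of_le_pi_div_two (by linarith) h h2
  · rw [← Real.sin_pi_sub a]
    exact Real.sin_le_sin_of_le_of_le_pi_div_two (by linarith) (by linarith) (by linarith)

/-- exponential decay, locally uniform in `t` -/
lemma pk_le_exp {T t0 : ℝ} (hT : 0 < T) (h0 : 0 < t0) (h1 : t0 ≤ T) :
    ∃ C : ℝ, ∀ t ∈ Icc t0 (2 * T - t0), ∀ s : ℝ,
      pk T t s ≤ C * Real.exp (-(Real.pi * |s| / (2 * T))) := by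
  have hpi := Real.pi_pos
  have h2T : 0 < 2 * T := by linarith
  set a0 := Real.pi * t0 / (2 * T) with ha0
  have ha0p : 0 < a0 := by positivity
  have ha0le : a0 ≤ Real.pi / 2 := by
    rw [ha0, div_le_div_iff₀ h2T (by norm_num)]
    nlinarith
  have hs0 : 0 < Real.sin a0 := Real.sin_pos_of_pos_of_lt_pi ha0p (by linarith)
  refine ⟨1 / (T * Real.sin a0), fun t ht s => ?_⟩
  set a := Real.pi * t / (2 * T) with ha
  set b := Real.pi * s / (2 * T) with hb
  have hta : 0 < t := lt_of_lt_of_le h0 ht.1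
  have htb : t < 2 * T := by have := ht.2; linarith
  have haa0 : a0 ≤ a := by
    rw [ha0, ha]
    apply div_le_div_of_nonneg_right _ h2T.le
    exact mul_le_mul_of_nonneg_left ht.1 hpi.le
  have haa1 : a ≤ Real.pi - a0 := by
    have h4 : Real.pi - a0 = Real.pi * (2 * T - t0) / (2 * T) := by
      rw [ha0]; field_simp
    rw [h4, ha]
    apply div_le_div_of_nonneg_right _ h2T.le
    exact mul_le_mul_of_nonneg_left ht.2 hpi.le
  have hsa : Real.sin a0 ≤ Real.sin a := fa1_sin_ge ha0p ha0le haa0 haa1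
  have hsap : 0 < Real.sin a := lt_of_lt_of_le hs0 hsa
  have hcb := Real.cosh_pos b
  have hden := fa1_den_ge a b
  have hden' : 0 < Real.sin a ^ 2 * Real.cosh b ^ 2 := by positivity
  have e1 : pk T t s ≤ 1 / (2 * T) * (Real.sin a * Real.cosh b) /
      (Real.sin a ^ 2 * Real.cosh b ^ 2) := by
    unfold pk
    exact div_le_div_of_nonneg_left (by positivity) hden' hden
  have e2 : 1 / (2 * T) * (Real.sin a * Real.cosh b) /
      (Real.sin a ^ 2 * Real.cosh b ^ 2) = 1 / (2 * T * Real.sin a * Real.cosh b) := by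
    field_simp
  have e3 : 1 / (2 * T * Real.sin a * Real.cosh b) ≤
      1 / (2 * T * Real.sin a0 * (Real.exp |b| / 2)) := by
    apply one_div_le_one_div_of_le
    · positivity
    · apply mul_le_mul _ (fa1_exp_le_cosh b) (by positivity) (by positivity)
      exact mul_le_mul_of_nonneg_left hsa (by positivity)
  have e4 : 1 / (2 * T * Real.sin a0 * (Real.exp |b| / 2)) =
      1 / (T * Real.sin a0) * Real.exp (-|b|) := by
    rw [Real.exp_neg]
    have := (Real.exp_pos |b|).ne'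
    field_simp
  have e5 : |b| = Real.pi * |s| / (2 * T) := by
    rw [hb, abs_div, abs_mul, abs_of_pos hpi, abs_of_pos h2T]
  rw [← e5]
  exact e1.trans (e2.le.trans (e3.trans e4.le))

lemma fa1_exp_bound {k : ℝ} (hk : 0 < k) : ∃ M : ℝ, 0 ≤ M ∧ ∀ s : ℝ,
    (1 + |s|) * Real.exp (-(k * |s|)) ≤ M * (1 + s ^ 2)⁻¹ := by
  set m := min 1 (k / 3) with hm
  have hm0 : 0 < m := lt_min one_pos (by positivity)
  refine ⟨(1 / m) ^ 3, by positivity, fun s => ?_⟩
  have hs := abs_nonneg s
  have h1 : 1 + |s| ≤ 1 / m * Real.exp (k / 3 * |s|) := by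
    have h2 := Real.add_one_le_exp (k / 3 * |s|)
    have h3 : m * (1 + |s|) ≤ 1 + k / 3 * |s| := by
      have h4 : m ≤ 1 := min_le_left _ _
      have h5 : m ≤ k / 3 := min_le_right _ _
      nlinarith
    rw [div_mul_eq_mul_div, one_mul, le_div_iff₀ hm0]
    linarith
  have h2 : (1 + |s|) ^ 3 ≤ (1 / m) ^ 3 * Real.exp (k * |s|) := by
    calc (1 + |s|) ^ 3 ≤ (1 / m * Real.exp (k / 3 * |s|)) ^ 3 :=
          pow_le_pow_left₀ (by positivity) h1 3
      _ = (1 / m) ^ 3 * Real.exp (k * |s|) := by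
          rw [mul_pow, ← Real.exp_nat_mul]
          congr 2
          push_cast
          ring
  have h3 : (1 + |s|) * (1 + s ^ 2) ≤ (1 + |s|) ^ 3 := by
    have : s ^ 2 = |s| ^ 2 := (sq_abs s).symm
    rw [this]
    nlinarith [mul_nonneg hs hs, mul_nonneg hs (mul_nonneg hs hs)]
  have h4 : 0 < 1 + s ^ 2 := by positivity
  rw [← div_eq_mul_inv, le_div_iff₀ h4, Real.exp_neg]
  have h5 := Real.exp_pos (k * |s|)
  rw [mul_right_comm, ← div_eq_mul_inv, div_le_iff₀ h5]
  linarith

lemma pk_integrable_mul {T t : ℝ} (hT : 0 < T) (h0 : 0 < t) (h1 : t < 2 * T) {f : ℝ → ℝ}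
    (hf : Continuous f) {c : ℝ} (hg : ∀ x, |f x| ≤ c * (1 + |x|)) :
    Integrable (fun s => pk T t s * f s) := by
  have hc : 0 ≤ c := by
    have := hg 0
    rw [abs_zero, add_zero, mul_one] at this
    exact (abs_nonneg _).trans this
  have hmin : 0 < min t (2 * T - t) := lt_min h0 (by linarith)
  have hminT : min t (2 * T - t) ≤ T := by
    rcases le_total t T with h | h
    · exact (min_le_left _ _).trans h
    · exact (min_le_right _ _).trans (by linarith)
  obtain ⟨C, hC⟩ := pk_le_exp hT hmin hminT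
  have htm : t ∈ Icc (min t (2 * T - t)) (2 * T - min t (2 * T - t)) := by
    refine ⟨min_le_left _ _, ?_⟩
    have := min_le_right t (2 * T - t)
    linarith
  have hk : 0 < Real.pi / (2 * T) := by
    have := Real.pi_pos
    positivity
  obtain ⟨M, hM0, hM⟩ := fa1_exp_bound hk
  have hC0 : 0 ≤ C := by
    have h2 := hC t htm 0
    have h3 := pk_pos hT h0 h1 0
    rw [abs_zero, mul_zero, zero_div, neg_zero, Real.exp_zero, mul_one] at h2
    linarith
  have hint : Integrable (fun s : ℝ => (C * c * M) * (1 + s ^ 2)⁻¹) :=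
    integrable_inv_one_add_sq.const_mul _
  refine hint.mono' ((pk_continuous hT h0 h1).mul hf).aestronglyMeasurable
    (Eventually.of_forall (fun s => ?_))
  rw [Real.norm_eq_abs, abs_mul, abs_of_pos (pk_pos hT h0 h1 s)]
  have h2 := hC t htm s
  have h3 := hg s
  have h4 : pk T t s * |f s| ≤ (C * Real.exp (-(Real.pi * |s| / (2 * T)))) * (c * (1 + |s|)) :=
    mul_le_mul h2 h3 (abs_nonneg _) (by positivity)
  have h5 := hM s
  have h6 : Real.pi / (2 * T) * |s| = Real.pi * |s| / (2 * T) := by ring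
  rw [h6] at h5
  calc pk T t s * |f s| ≤ (C * Real.exp (-(Real.pi * |s| / (2 * T)))) * (c * (1 + |s|)) := h4
    _ = (C * c) * ((1 + |s|) * Real.exp (-(Real.pi * |s| / (2 * T)))) := by ring
    _ ≤ (C * c) * (M * (1 + s ^ 2)⁻¹) := mul_le_mul_of_nonneg_left h5 (by positivity)
    _ = (C * c * M) * (1 + s ^ 2)⁻¹ := by ring

end CF6

end

section

/-! # Module F of MP_cf6b16_an, row FA1b : integral one, concentration at 0

The function s -> (1/pi) arctan(sinh(pi s/2T)/sin(pi t/2T)) has derivative pk T t s; limits +-1/2 at +-infinity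
(use integral_of_hasDerivAt_of_tendsto or the improper integral theorems). pk_tail: for |s| >= r: pk T t s <= (1/2T) sin a cosh b/sinh^2 b, and
cosh b (1+|s|)/sinh^2 b is integrable on |s| >= r; sin a -> 0.
-/

open Complex MeasureTheory Set Filter Topology Metric intervalIntegral
open scoped ENNReal

namespace CF6

lemma fa1b_sin_pos {T t : ℝ} (hT : 0 < T) (h0 : 0 < t) (h1 : t < 2 * T) :
    0 < Real.sin (Real.pi * t / (2 * T)) := by
  apply Real.sin_pos_of_pos_of_lt_pi
  · have := Real.pi_pos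
    positivity
  · rw [div_lt_iff₀ (by positivity)]
    exact mul_lt_mul_of_pos_left h1 Real.pi_pos

lemma fa1b_den (T t s : ℝ) :
    Real.cosh (Real.pi * s / (2 * T)) ^ 2 - Real.cos (Real.pi * t / (2 * T)) ^ 2 =
      Real.sinh (Real.pi * s / (2 * T)) ^ 2 + Real.sin (Real.pi * t / (2 * T)) ^ 2 := by
  have e1 := Real.cosh_sq (Real.pi * s / (2 * T))
  have e2 := Real.sin_sq_add_cos_sq (Real.pi * t / (2 * T))
  linarith

/-- primitive `(1/π) arctan (sinh b / sin a)` -/
lemma pk_integral {T t : ℝ} (hT : 0 < T) (h0 : 0 < t) (h1 : t < 2 * T) :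
    Integrable (pk T t) ∧ ∫ s, pk T t s = 1 := by
  have hint : Integrable (pk T t) := by
    have := pk_integrable_mul hT h0 h1 (f := fun _ => (1 : ℝ)) continuous_const (c := 1)
      (fun x => by
        have := abs_nonneg x
        rw [abs_one]
        linarith)
    simpa using this
  refine ⟨hint, ?_⟩
  have hsin := fa1b_sin_pos hT h0 h1
  have hpi := Real.pi_pos
  set S := Real.sin (Real.pi * t / (2 * T)) with hS
  have hd : ∀ s, HasDerivAt
      (fun s => 1 / Real.pi * Real.arctan (Real.sinh (Real.pi * s / (2 * T)) / S))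
      (pk T t s) s := by
    intro s
    have d1 : HasDerivAt (fun s : ℝ => Real.pi * s / (2 * T)) (Real.pi * 1 / (2 * T)) s :=
      ((hasDerivAt_id s).const_mul Real.pi).div_const (2 * T)
    have d2 := (d1.sinh.div_const S)
    have d3 := d2.arctan.const_mul (1 / Real.pi)
    refine d3.congr_deriv ?_
    unfold pk
    rw [fa1b_den, ← hS]
    have hp : Real.sinh (Real.pi * s / (2 * T)) ^ 2 + S ^ 2 ≠ 0 := by positivity
    have hp2 : 1 + (Real.sinh (Real.pi * s / (2 * T)) / S) ^ 2 ≠ 0 := by positivity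
    field_simp
    ring
  have hlin : Tendsto (fun s : ℝ => Real.pi * s / (2 * T)) atTop atTop := by
    apply Tendsto.atTop_div_const (by positivity)
    exact tendsto_id.const_mul_atTop hpi
  have hlin' : Tendsto (fun s : ℝ => Real.pi * s / (2 * T)) atBot atBot := by
    apply Tendsto.atBot_div_const (by positivity)
    exact tendsto_id.const_mul_atBot hpi
  have htop : Tendsto (fun s => 1 / Real.pi * Real.arctan (Real.sinh (Real.pi * s / (2 * T)) / S))
      atTop (𝓝 (1 / 2)) := by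
    have e1 : Tendsto (fun s => Real.sinh (Real.pi * s / (2 * T)) / S) atTop atTop := by
      apply Tendsto.atTop_div_const hsin
      exact Real.sinhOrderIso.tendsto_atTop.comp hlin
    have e2 := (tendsto_nhds_of_tendsto_nhdsWithin Real.tendsto_arctan_atTop).comp e1
    have e3 := e2.const_mul (1 / Real.pi)
    have e4 : 1 / Real.pi * (Real.pi / 2) = 1 / 2 := by field_simp
    rw [e4] at e3
    exact e3
  have hbot : Tendsto (fun s => 1 / Real.pi * Real.arctan (Real.sinh (Real.pi * s / (2 * T)) / S))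
      atBot (𝓝 (-(1 / 2))) := by
    have e1 : Tendsto (fun s => Real.sinh (Real.pi * s / (2 * T)) / S) atBot atBot := by
      apply Tendsto.atBot_div_const hsin
      exact Real.sinhOrderIso.tendsto_atBot.comp hlin'
    have e2 := (tendsto_nhds_of_tendsto_nhdsWithin Real.tendsto_arctan_atBot).comp e1
    have e3 := e2.const_mul (1 / Real.pi)
    have e4 : 1 / Real.pi * (-(Real.pi / 2)) = -(1 / 2) := by field_simp
    rw [e4] at e3
    exact e3
  rw [integral_of_hasDerivAt_of_tendsto hd hint hbot htop]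
  norm_num

/-- the kernel concentrates at `0` when `t → 0` -/
lemma pk_tail {T : ℝ} (hT : 0 < T) (r : ℝ) (hr : 0 < r) :
    Tendsto (fun t => ∫ s in {s : ℝ | r ≤ |s|}, pk T t s * (1 + |s|)) (𝓝[>] 0) (𝓝 0) := by
  have hpi := Real.pi_pos
  set b0 : ℝ := Real.pi * r / (2 * T) with hb0
  have hb0p : 0 < b0 := by positivity
  have hsb0 : 0 < Real.sinh b0 := Real.sinh_pos_iff.mpr hb0p
  set κ : ℝ := 1 + 1 / Real.sinh b0 ^ 2 with hκ
  have hκp : 0 < κ := by positivity
  have hcont : Continuous (fun s : ℝ => 1 + |s|) := by fun_prop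
  have hbd : ∀ x : ℝ, abs (1 + |x|) ≤ 1 * (1 + |x|) := by
    intro x
    rw [abs_of_nonneg (by positivity), one_mul]
  have hintT : Integrable (fun s => pk T T s * (1 + |s|)) :=
    pk_integrable_mul hT hT (by linarith) hcont hbd
  set J : ℝ := ∫ s, pk T T s * (1 + |s|) with hJ
  have hms : MeasurableSet {s : ℝ | r ≤ |s|} := measurableSet_le measurable_const continuous_abs.measurable
  have hev : ∀ᶠ t in 𝓝[>] (0 : ℝ), 0 < t ∧ t < 2 * T := by
    have h1 : ∀ᶠ t in 𝓝[>] (0 : ℝ), t < 2 * T :=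
      (tendsto_order.mp (tendsto_nhdsWithin_of_tendsto_nhds tendsto_id)).2 (2 * T) (by positivity)
    filter_upwards [self_mem_nhdsWithin, h1] with t h2 h3
    exact ⟨h2, h3⟩
  have hsq : Tendsto (fun t => Real.sin (Real.pi * t / (2 * T)) * (κ * J)) (𝓝[>] 0) (𝓝 0) := by
    have h1 : Continuous (fun t => Real.sin (Real.pi * t / (2 * T)) * (κ * J)) := by fun_prop
    have h2 := h1.tendsto 0
    simp only [mul_zero, zero_div, Real.sin_zero, zero_mul] at h2
    exact tendsto_nhdsWithin_of_tendsto_nhds h2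
  refine squeeze_zero' ?_ ?_ hsq
  · filter_upwards [hev] with t ht
    apply setIntegral_nonneg hms
    intro s _
    exact mul_nonneg (pk_pos hT ht.1 ht.2 s).le (by positivity)
  · filter_upwards [hev] with t ht
    have hsin := fa1b_sin_pos hT ht.1 ht.2
    have hint : Integrable (fun s => pk T t s * (1 + |s|)) :=
      pk_integrable_mul hT ht.1 ht.2 hcont hbd
    have hle : ∀ s ∈ {s : ℝ | r ≤ |s|}, pk T t s * (1 + |s|) ≤
        Real.sin (Real.pi * t / (2 * T)) * κ * (pk T T s * (1 + |s|)) := by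
      intro s hs
      have hs' : r ≤ |s| := hs
      have hb : b0 ≤ |Real.pi * s / (2 * T)| := by
        rw [abs_div, abs_mul, abs_of_pos hpi, abs_of_pos (by positivity : (0 : ℝ) < 2 * T), hb0]
        gcongr
      have hsh : Real.sinh b0 ^ 2 ≤ Real.sinh (Real.pi * s / (2 * T)) ^ 2 := by
        rw [← sq_abs (Real.sinh (Real.pi * s / (2 * T))), Real.abs_sinh]
        have := Real.sinh_le_sinh.mpr hb
        gcongr
      have hshp : 0 < Real.sinh (Real.pi * s / (2 * T)) ^ 2 := lt_of_lt_of_le (by positivity) hsh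
      have key : pk T t s ≤ Real.sin (Real.pi * t / (2 * T)) * κ * pk T T s := by
        unfold pk
        rw [fa1b_den]
        have eT : Real.pi * T / (2 * T) = Real.pi / 2 := by field_simp
        rw [eT, Real.sin_pi_div_two, Real.cos_pi_div_two]
        set X := Real.pi * s / (2 * T) with hX
        set S := Real.sin (Real.pi * t / (2 * T)) with hS
        have hcosh : 0 < Real.cosh X := Real.cosh_pos X
        have hcs : Real.cosh X ^ 2 = Real.sinh X ^ 2 + 1 := Real.cosh_sq X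
        have h1 : Real.cosh X ^ 2 ≤ κ * Real.sinh X ^ 2 := by
          rw [hcs, hκ, add_mul, one_mul]
          have : 1 ≤ 1 / Real.sinh b0 ^ 2 * Real.sinh X ^ 2 := by
            rw [one_div, ← div_eq_inv_mul, le_div_iff₀ (by positivity), one_mul]
            exact hsh
          linarith
        have h2 : 1 / (2 * T) * (S * Real.cosh X) / (Real.sinh X ^ 2 + S ^ 2) ≤
            1 / (2 * T) * (S * Real.cosh X) / Real.sinh X ^ 2 := by
          apply div_le_div_of_nonneg_left (by positivity) hshp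
          have := sq_nonneg S
          linarith
        refine h2.trans ?_
        have h3 : S * κ * (1 / (2 * T) * (1 * Real.cosh X) / (Real.cosh X ^ 2 - 0 ^ 2)) =
            1 / (2 * T) * (S * Real.cosh X) * (κ / Real.cosh X ^ 2) := by
          rw [zero_pow two_ne_zero, sub_zero]
          ring
        rw [h3, div_eq_mul_inv]
        apply mul_le_mul_of_nonneg_left _ (by positivity)
        rw [← one_div, div_le_div_iff₀ hshp (by positivity)]
        linarith
      calc pk T t s * (1 + |s|) ≤ (Real.sin (Real.pi * t / (2 * T)) * κ * pk T T s) * (1 + |s|) :=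
            mul_le_mul_of_nonneg_right key (by positivity)
        _ = _ := by ring
    calc ∫ s in {s : ℝ | r ≤ |s|}, pk T t s * (1 + |s|)
        ≤ ∫ s in {s : ℝ | r ≤ |s|},
            Real.sin (Real.pi * t / (2 * T)) * κ * (pk T T s * (1 + |s|)) :=
          setIntegral_mono_on hint.integrableOn (hintT.const_mul _).integrableOn hms hle
      _ ≤ ∫ s, Real.sin (Real.pi * t / (2 * T)) * κ * (pk T T s * (1 + |s|)) := by
          apply setIntegral_le_integral (hintT.const_mul _)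
          refine Eventually.of_forall (fun s => ?_)
          have := pk_pos hT hT (by linarith) s
          simp only [Pi.zero_apply]
          positivity
      _ = Real.sin (Real.pi * t / (2 * T)) * (κ * J) := by
          rw [MeasureTheory.integral_const_mul]
          ring

end CF6

end

section

/-! # Module F of MP_cf6b16_an, row FA2 : bounds of the kernel for T/2 <= t <= T

a in [pi/4, pi/2]: sin a >= 1/sqrt 2, cos^2 a <= 1/2 <= cosh^2 b/2. So cosh^2 b/2 <= cosh^2 b - cos^2 a <= cosh^2 b, hence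
(1/2T)(1/sqrt 2)/cosh b <= pk <= (1/2T)*2/cosh b; 1/(2 sqrt 2) >= 1/3. Harnack: cosh(b+c) >= exp(-|c|) cosh b with |c| <= pi/2: the ratio is <= 3 exp(pi/2) < 16.
Derivative: d/db log(cosh b/(cosh^2 b - cos^2 a)) = tanh b - 2 cosh b sinh b/(cosh^2 b - cos^2 a), absolute value <= 1 + 4 = 5 and 5 pi/2 < 8.
Tail: int_r^inf pk <= int_r^inf (1/T) 2 exp(-pi s/2T) ds = (4/pi) exp(-pi r/2T) <= (4/pi)/cosh b_r ... and pk T t r >= 1/(3 T cosh b_r):
so the tail is <= (4/pi)*3*T*pk = 3.82 T pk (use exp(-b) <= 1/cosh b).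
-/

open Complex MeasureTheory Set Filter Topology Metric intervalIntegral
open scoped ENNReal

namespace CF6

private lemma FA2_trig {T t : ℝ} (hT : 0 < T) (h0 : T / 2 ≤ t) (h1 : t ≤ T) :
    2 / 3 ≤ Real.sin (Real.pi * t / (2 * T)) ∧ Real.sin (Real.pi * t / (2 * T)) ≤ 1 ∧
      Real.cos (Real.pi * t / (2 * T)) ^ 2 ≤ 1 / 2 := by
  have hpi := Real.pi_pos
  have ha1 : Real.pi / 4 ≤ Real.pi * t / (2 * T) := by
    rw [div_le_div_iff₀ (by norm_num) (by positivity)]
    nlinarith
  have ha2 : Real.pi * t / (2 * T) ≤ Real.pi / 2 := by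
    rw [div_le_div_iff₀ (by positivity) (by norm_num)]
    nlinarith
  have hs : Real.sin (Real.pi / 4) ≤ Real.sin (Real.pi * t / (2 * T)) :=
    Real.sin_le_sin_of_le_of_le_pi_div_two (by linarith) ha2 ha1
  rw [Real.sin_pi_div_four] at hs
  have h2 : (4 : ℝ) / 3 ≤ √2 := Real.le_sqrt_of_sq_le (by norm_num)
  have h3 : (√2 / 2) ^ 2 = 1 / 2 := by
    rw [div_pow, Real.sq_sqrt (by norm_num)]
    norm_num
  have h4 : (√2 / 2) ^ 2 ≤ Real.sin (Real.pi * t / (2 * T)) ^ 2 :=
    pow_le_pow_left₀ (by positivity) hs 2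
  have h5 := Real.sin_sq_add_cos_sq (Real.pi * t / (2 * T))
  exact ⟨by linarith, Real.sin_le_one _, by linarith⟩

private lemma FA2_den {T t : ℝ} (hT : 0 < T) (h0 : T / 2 ≤ t) (h1 : t ≤ T) (s : ℝ) :
    Real.cosh (Real.pi * s / (2 * T)) ^ 2 / 2 ≤
      Real.cosh (Real.pi * s / (2 * T)) ^ 2 - Real.cos (Real.pi * t / (2 * T)) ^ 2 ∧
    Real.cosh (Real.pi * s / (2 * T)) ^ 2 - Real.cos (Real.pi * t / (2 * T)) ^ 2 ≤
      Real.cosh (Real.pi * s / (2 * T)) ^ 2 := by
  obtain ⟨_, _, h4⟩ := FA2_trig hT h0 h1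
  have h5 := Real.one_le_cosh (Real.pi * s / (2 * T))
  have h6 : 0 ≤ Real.cos (Real.pi * t / (2 * T)) ^ 2 := sq_nonneg _
  constructor
  · nlinarith
  · linarith

lemma pk_two_sided {T t : ℝ} (hT : 0 < T) (h0 : T / 2 ≤ t) (h1 : t ≤ T) (s : ℝ) :
    1 / (3 * T * Real.cosh (Real.pi * s / (2 * T))) ≤ pk T t s ∧
      pk T t s ≤ 1 / (T * Real.cosh (Real.pi * s / (2 * T))) := by
  obtain ⟨hs1, hs2, _⟩ := FA2_trig hT h0 h1
  obtain ⟨hd1, hd2⟩ := FA2_den hT h0 h1 s
  unfold pk
  set S := Real.sin (Real.pi * t / (2 * T)) with hS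
  set C := Real.cosh (Real.pi * s / (2 * T)) with hC
  set D := C ^ 2 - Real.cos (Real.pi * t / (2 * T)) ^ 2 with hD
  have hC1 : 1 ≤ C := Real.one_le_cosh _
  have hC0 : 0 < C := by linarith
  have hC2 : 0 < C ^ 2 := by positivity
  have hD0 : 0 < D := by linarith
  constructor
  · rw [div_le_div_iff₀ (by positivity) hD0]
    have e : 1 / (2 * T) * (S * C) * (3 * T * C) = 3 / 2 * S * C ^ 2 := by
      field_simp
    rw [e]
    nlinarith
  · rw [div_le_div_iff₀ hD0 (by positivity)]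
    have e : 1 / (2 * T) * (S * C) * (T * C) = 1 / 2 * S * C ^ 2 := by
      field_simp
    rw [e]
    nlinarith

private lemma FA2_exp_pi : Real.exp (Real.pi / 2) ≤ 16 / 3 := by
  have h1 : Real.exp (Real.pi / 2) ^ 2 = Real.exp Real.pi := by
    rw [← Real.exp_nat_mul]
    congr 1
    push_cast
    ring
  have h2 : Real.exp Real.pi ≤ Real.exp (3 + 3 / 20) := by
    apply Real.exp_le_exp.2
    have := Real.pi_lt_d2
    linarith
  have h3 : Real.exp (3 + 3 / 20) = Real.exp 1 ^ 3 * Real.exp (3 / 20) := by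
    rw [Real.exp_add, ← Real.exp_nat_mul]
    congr 2
    push_cast
    ring
  have h4 : Real.exp 1 ^ 3 ≤ 20.1 := by
    have h5 := Real.exp_one_lt_d9
    have h6 : Real.exp 1 ^ 3 ≤ 2.7182818286 ^ 3 := pow_le_pow_left₀ (Real.exp_pos _).le h5.le 3
    refine h6.trans (by norm_num)
  have h5 : Real.exp (3 / 20) ≤ 20 / 17 := by
    have h6 := Real.one_sub_le_exp_neg (3 / 20)
    rw [Real.exp_neg] at h6
    have h7 := Real.exp_pos (3 / 20 : ℝ)
    have h8 : (17 / 20 : ℝ) ≤ (Real.exp (3 / 20))⁻¹ := by linarith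
    rw [le_inv_comm₀ (by norm_num) h7] at h8
    refine h8.trans (by norm_num)
  have h6 : Real.exp (Real.pi / 2) ^ 2 ≤ (16 / 3) ^ 2 := by
    rw [h1]
    refine h2.trans ?_
    rw [h3]
    calc Real.exp 1 ^ 3 * Real.exp (3 / 20) ≤ 20.1 * (20 / 17) :=
          mul_le_mul h4 h5 (Real.exp_pos _).le (by norm_num)
      _ ≤ (16 / 3) ^ 2 := by norm_num
  exact le_of_sq_le_sq h6 (by norm_num)

private lemma FA2_cosh (b c : ℝ) : Real.cosh b ≤ Real.exp |c| * Real.cosh (b + c) := by
  rw [Real.cosh_eq, Real.cosh_eq]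
  have h1 : Real.exp b ≤ Real.exp |c| * Real.exp (b + c) := by
    rw [← Real.exp_add]
    apply Real.exp_le_exp.2
    have := neg_abs_le c
    linarith
  have h2 : Real.exp (-b) ≤ Real.exp |c| * Real.exp (-(b + c)) := by
    rw [← Real.exp_add]
    apply Real.exp_le_exp.2
    have := le_abs_self c
    linarith
  linarith

lemma pk_harnack {T t : ℝ} (hT : 0 < T) (h0 : T / 2 ≤ t) (h1 : t ≤ T) (s x : ℝ) (hx : |x| ≤ T) :
    pk T t (s + x) ≤ 16 * pk T t s := by
  have hpi := Real.pi_pos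
  have h2 := (pk_two_sided hT h0 h1 (s + x)).2
  have h3 := (pk_two_sided hT h0 h1 s).1
  have e1 : Real.pi * (s + x) / (2 * T) = Real.pi * s / (2 * T) + Real.pi * x / (2 * T) := by
    rw [mul_add, add_div]
  rw [e1] at h2
  set b := Real.pi * s / (2 * T) with hb
  set c := Real.pi * x / (2 * T) with hc
  have hc1 : |c| ≤ Real.pi / 2 := by
    rw [hc, abs_div, abs_mul, abs_of_pos hpi, abs_of_pos (by positivity : (0 : ℝ) < 2 * T),
      div_le_div_iff₀ (by positivity) (by norm_num)]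
    nlinarith
  have h4 : Real.cosh b ≤ 16 / 3 * Real.cosh (b + c) := by
    refine (FA2_cosh b c).trans (mul_le_mul_of_nonneg_right ?_ (Real.cosh_pos _).le)
    exact (Real.exp_le_exp.2 hc1).trans FA2_exp_pi
  have hcb := Real.cosh_pos b
  have hcbc := Real.cosh_pos (b + c)
  calc pk T t (s + x) ≤ 1 / (T * Real.cosh (b + c)) := h2
    _ ≤ 16 * (1 / (3 * T * Real.cosh b)) := by
        rw [mul_one_div, div_le_div_iff₀ (by positivity) (by positivity)]
        nlinarith [mul_le_mul_of_nonneg_left h4 hT.le]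
    _ ≤ 16 * pk T t s := by linarith

lemma pk_deriv_le {T t : ℝ} (hT : 0 < T) (h0 : T / 2 ≤ t) (h1 : t ≤ T) (s : ℝ) :
    DifferentiableAt ℝ (pk T t) s ∧ |deriv (pk T t) s| ≤ 8 / T * pk T t s := by
  have hpi := Real.pi_pos
  obtain ⟨hs1, hs2, _⟩ := FA2_trig hT h0 h1
  obtain ⟨hd1, hd2⟩ := FA2_den hT h0 h1 s
  have hb : HasDerivAt (fun s : ℝ => Real.pi * s / (2 * T)) (Real.pi * 1 / (2 * T)) s :=
    ((hasDerivAt_id s).const_mul Real.pi).div_const (2 * T)
  have hc := hb.cosh
  have hN := (hc.const_mul (Real.sin (Real.pi * t / (2 * T)))).const_mul (1 / (2 * T))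
  have hD := (hc.pow 2).sub_const (Real.cos (Real.pi * t / (2 * T)) ^ 2)
  have hC1 : 1 ≤ Real.cosh (Real.pi * s / (2 * T)) := Real.one_le_cosh _
  have hC2 : 0 < Real.cosh (Real.pi * s / (2 * T)) ^ 2 := by positivity
  have hD0 : 0 < Real.cosh (Real.pi * s / (2 * T)) ^ 2 -
      Real.cos (Real.pi * t / (2 * T)) ^ 2 := by linarith
  have hder := hN.div hD hD0.ne'
  have hder' : HasDerivAt (pk T t)
      ((1 / (2 * T) * (Real.sin (Real.pi * t / (2 * T)) * (Real.sinh (Real.pi * s / (2 * T)) *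
        (Real.pi * 1 / (2 * T)))) * (Real.cosh (Real.pi * s / (2 * T)) ^ 2 -
        Real.cos (Real.pi * t / (2 * T)) ^ 2) -
        1 / (2 * T) * (Real.sin (Real.pi * t / (2 * T)) * Real.cosh (Real.pi * s / (2 * T))) *
        (((2 : ℕ) : ℝ) * Real.cosh (Real.pi * s / (2 * T)) ^ (2 - 1) *
          (Real.sinh (Real.pi * s / (2 * T)) * (Real.pi * 1 / (2 * T))))) /
        (Real.cosh (Real.pi * s / (2 * T)) ^ 2 - Real.cos (Real.pi * t / (2 * T)) ^ 2) ^ 2) s :=
    hder
  refine ⟨hder'.differentiableAt, ?_⟩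
  rw [hder'.deriv]
  have hpk : pk T t s = 1 / (2 * T) * (Real.sin (Real.pi * t / (2 * T)) *
      Real.cosh (Real.pi * s / (2 * T))) /
      (Real.cosh (Real.pi * s / (2 * T)) ^ 2 - Real.cos (Real.pi * t / (2 * T)) ^ 2) := rfl
  rw [hpk]
  set S := Real.sin (Real.pi * t / (2 * T)) with hS
  have hsh : |Real.sinh (Real.pi * s / (2 * T))| ≤ Real.cosh (Real.pi * s / (2 * T)) := by
    rw [abs_le]
    constructor
    · have := Real.cosh_add_sinh (Real.pi * s / (2 * T))
      have h5 := Real.exp_pos (Real.pi * s / (2 * T))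
      linarith
    · exact (Real.sinh_lt_cosh _).le
  set C := Real.cosh (Real.pi * s / (2 * T)) with hC
  set Sh := Real.sinh (Real.pi * s / (2 * T)) with hSh
  set D := C ^ 2 - Real.cos (Real.pi * t / (2 * T)) ^ 2 with hDdef
  have hC0 : 0 < C := by linarith
  have e1 : (1 / (2 * T) * (S * (Sh * (Real.pi * 1 / (2 * T)))) * D -
      1 / (2 * T) * (S * C) * (((2 : ℕ) : ℝ) * C ^ (2 - 1) * (Sh * (Real.pi * 1 / (2 * T))))) / D ^ 2 =
      -(S * Real.pi / (4 * T ^ 2) * (Sh * (2 * C ^ 2 - D)) / D ^ 2) := by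
    field_simp
    push_cast
    ring
  rw [e1, abs_neg, abs_div, abs_mul, abs_mul, abs_of_nonneg (by positivity : 0 ≤ S * Real.pi / (4 * T ^ 2)),
    abs_of_pos (by positivity : 0 < D ^ 2), abs_of_nonneg (by linarith : 0 ≤ 2 * C ^ 2 - D)]
  have h5 : |Sh| * (2 * C ^ 2 - D) ≤ C * (3 * D) :=
    mul_le_mul hsh (by linarith) (by linarith) hC0.le
  have e2 : 8 / T * (1 / (2 * T) * (S * C) / D) = S * (16 * C * D) / (4 * T ^ 2) / D ^ 2 := by
    field_simp
    ring
  rw [e2]
  refine div_le_div_of_nonneg_right ?_ (by positivity)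
  rw [div_mul_eq_mul_div]
  refine div_le_div_of_nonneg_right ?_ (by positivity)
  have hpi2 := Real.pi_lt_d2
  calc S * Real.pi * (|Sh| * (2 * C ^ 2 - D)) ≤ S * Real.pi * (C * (3 * D)) :=
        mul_le_mul_of_nonneg_left h5 (by positivity)
    _ = S * ((3 * Real.pi) * (C * D)) := by ring
    _ ≤ S * (16 * (C * D)) := by
        refine mul_le_mul_of_nonneg_left ?_ (by linarith)
        exact mul_le_mul_of_nonneg_right (by linarith) (by positivity)
    _ = S * (16 * C * D) := by ring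

lemma pk_tail_le {T t : ℝ} (hT : 0 < T) (h0 : T / 2 ≤ t) (h1 : t ≤ T) (r : ℝ) (hr : 0 ≤ r) :
    ∫ s in Ioi r, pk T t s ≤ 4 * T * pk T t r := by
  have hpi := Real.pi_pos
  set β : ℝ := Real.pi / (2 * T) with hβ
  have hβ0 : 0 < β := by positivity
  have hint : IntegrableOn (pk T t) (Ioi r) := (pk_integral hT (by linarith) (by linarith)).1.integrableOn
  have hexp : IntegrableOn (fun s : ℝ => 2 / T * Real.exp (-β * s)) (Ioi r) :=
    (integrableOn_exp_mul_Ioi (by linarith : -β < 0) r).const_mul _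
  have hle : ∀ s ∈ Ioi r, pk T t s ≤ 2 / T * Real.exp (-β * s) := by
    intro s hs
    refine (pk_two_sided hT h0 h1 s).2.trans ?_
    have e1 : -β * s = -(Real.pi * s / (2 * T)) := by
      rw [hβ]
      ring
    rw [e1]
    set b := Real.pi * s / (2 * T) with hb
    have h2 : Real.exp b / 2 ≤ Real.cosh b := by
      rw [Real.cosh_eq]
      have := Real.exp_pos (-b)
      linarith
    have h3 := Real.exp_pos b
    have h4 := Real.cosh_pos b
    rw [Real.exp_neg, div_mul_eq_mul_div, div_le_div_iff₀ (by positivity) hT]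
    have h5 : 1 ≤ 2 * (Real.exp b)⁻¹ * Real.cosh b := by
      have h6 : 2 * (Real.exp b)⁻¹ * (Real.exp b / 2) = 1 := by
        field_simp
      rw [← h6]
      exact mul_le_mul_of_nonneg_left h2 (by positivity)
    nlinarith
  have hmono : ∫ s in Ioi r, pk T t s ≤ ∫ s in Ioi r, 2 / T * Real.exp (-β * s) :=
    setIntegral_mono_on hint hexp measurableSet_Ioi hle
  refine hmono.trans ?_
  rw [MeasureTheory.integral_const_mul, integral_exp_mul_Ioi (by linarith : -β < 0)]
  have h2 := (pk_two_sided hT h0 h1 r).1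
  have e1 : -β * r = -(Real.pi * r / (2 * T)) := by
    rw [hβ]
    ring
  rw [e1]
  set b := Real.pi * r / (2 * T) with hb
  have hb0 : 0 ≤ b := by positivity
  have hcp := Real.cosh_pos b
  have h3 : Real.exp (-b) ≤ 1 / Real.cosh b := by
    rw [le_div_iff₀ hcp, Real.cosh_eq, Real.exp_neg]
    have h4 := Real.exp_pos b
    have h5 : 1 ≤ Real.exp b := Real.one_le_exp hb0
    have h6 : (Real.exp b)⁻¹ ≤ 1 := inv_le_one_of_one_le₀ h5
    have h7 : (Real.exp b)⁻¹ * Real.exp b = 1 := inv_mul_cancel₀ h4.ne'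
    have h8 : 0 < (Real.exp b)⁻¹ := inv_pos.2 h4
    nlinarith
  have hπ3 := Real.pi_gt_three
  calc 2 / T * (-Real.exp (-b) / -β) = 4 / Real.pi * Real.exp (-b) := by
        rw [hβ]
        field_simp
        ring
    _ ≤ 4 / Real.pi * (1 / Real.cosh b) := mul_le_mul_of_nonneg_left h3 (by positivity)
    _ ≤ 4 * T * (1 / (3 * T * Real.cosh b)) := by
        have e2 : 4 * T * (1 / (3 * T * Real.cosh b)) = 4 / 3 * (1 / Real.cosh b) := by
          field_simp
        rw [e2]
        refine mul_le_mul_of_nonneg_right ?_ (by positivity)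
        rw [div_le_div_iff₀ hpi (by norm_num)]
        linarith
    _ ≤ 4 * T * pk T t r := mul_le_mul_of_nonneg_left h2 (by positivity)

end CF6

end

section

/-! # Module F of MP_cf6b16_an, row FA3 : lam is the imaginary part of a holomorphic function

sinh(b - i a) = sinh b cos a - i cosh b sin a, |.|^2 = sinh^2 b + sin^2 a, so Im(1/sinh(b - i a)) = cosh b sin a/(sinh^2 b + sin^2 a); with
zeta = theta - i t and s = theta - x: pk T t (theta - x) = Im( 1/(2T sinh(pi(zeta - x)/(2T))) ). lam T B t theta = int pk T t (theta - x) B x dx.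
|B x| <= c(1+|x|) from continuity and quasi-periodicity. LcF_diff: hasDerivAt_integral_of_dominated_loc_of_deriv_le or
differentiability of parametric integrals of holomorphic functions; on a compact subset of the strip |sinh(pi(zeta-x)/2T)| >= c exp(pi|x|/2T).
The derivative formulas follow by the chain rule: d/dtheta Im LcF(theta - it) = Im LcF', d/dt = Im(-i LcF') = -Re LcF'. lam_per: change of variables and int pk = 1.
-/

open Complex MeasureTheory Set Filter Topology Metric intervalIntegral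
open scoped ENNReal

namespace CF6

private lemma qp_growth {L : ℝ} {B : ℝ → ℝ} (hB : QP L B) :
    ∃ c : ℝ, 0 < c ∧ ∀ x, |B x| ≤ c * (1 + |x|) := by
  have hc : Continuous (fun x => B x - L * x / (2 * Real.pi)) := by
    have := hB.cont
    fun_prop
  have hp : Function.Periodic (fun x => B x - L * x / (2 * Real.pi)) (2 * Real.pi) := by
    intro x
    have := hB.per x
    simp only [this]
    field_simp
    ring
  have hb := hp.isBounded_of_continuous (by positivity) hc
  obtain ⟨M, hM⟩ := hb.exists_norm_le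
  refine ⟨|M| + |L| + 1, by positivity, fun x => ?_⟩
  have h1 : ‖B x - L * x / (2 * Real.pi)‖ ≤ M := hM _ ⟨x, rfl⟩
  rw [Real.norm_eq_abs] at h1
  have h2 : |L * x / (2 * Real.pi)| ≤ |L| * |x| := by
    rw [abs_div, abs_mul, abs_of_pos (by positivity : 0 < 2 * Real.pi)]
    exact div_le_self (by positivity) (by linarith [Real.pi_gt_three])
  have h3 : |B x| ≤ |B x - L * x / (2 * Real.pi)| + |L * x / (2 * Real.pi)| := by
    have := abs_add_le (B x - L * x / (2 * Real.pi)) (L * x / (2 * Real.pi))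
    simpa using this
  have h4 := le_abs_self M
  have h5 := abs_nonneg x
  have h6 := abs_nonneg M
  have h7 := abs_nonneg L
  nlinarith [mul_nonneg h6 h5]

private lemma sinh_re_im (a b : ℝ) : Complex.sinh ((b : ℂ) - a * I) =
    ⟨Real.sinh b * Real.cos a, -(Real.cosh b * Real.sin a)⟩ := by
  rw [Complex.sinh_sub, Complex.sinh_mul_I, Complex.cosh_mul_I]
  apply Complex.ext
  · simp [← Complex.ofReal_sinh, ← Complex.ofReal_cosh, ← Complex.ofReal_sin, ← Complex.ofReal_cos]
  · simp [← Complex.ofReal_sinh, ← Complex.ofReal_cosh, ← Complex.ofReal_sin, ← Complex.ofReal_cos]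

private lemma cosh_re_im (a b : ℝ) : Complex.cosh ((b : ℂ) - a * I) =
    ⟨Real.cosh b * Real.cos a, -(Real.sinh b * Real.sin a)⟩ := by
  rw [Complex.cosh_sub, Complex.sinh_mul_I, Complex.cosh_mul_I]
  apply Complex.ext
  · simp [← Complex.ofReal_sinh, ← Complex.ofReal_cosh, ← Complex.ofReal_sin, ← Complex.ofReal_cos]
  · simp [← Complex.ofReal_sinh, ← Complex.ofReal_cosh, ← Complex.ofReal_sin, ← Complex.ofReal_cos]

private lemma normSq_sinh (a b : ℝ) : normSq (Complex.sinh ((b : ℂ) - a * I)) =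
    Real.sinh b ^ 2 + Real.sin a ^ 2 := by
  rw [sinh_re_im, normSq_mk]
  have h1 := Real.cosh_sq b
  have h2 := Real.sin_sq_add_cos_sq a
  have h3 : Real.cos a ^ 2 = 1 - Real.sin a ^ 2 := by linarith
  calc Real.sinh b * Real.cos a * (Real.sinh b * Real.cos a) +
        -(Real.cosh b * Real.sin a) * -(Real.cosh b * Real.sin a)
      = Real.sinh b ^ 2 * Real.cos a ^ 2 + Real.cosh b ^ 2 * Real.sin a ^ 2 := by ring
    _ = _ := by rw [h1, h3]; ring

private lemma normSq_cosh_le (a b : ℝ) : normSq (Complex.cosh ((b : ℂ) - a * I)) ≤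
    Real.cosh b ^ 2 := by
  rw [cosh_re_im, normSq_mk]
  have h1 := Real.cosh_sq b
  have h2 := Real.sin_sq_add_cos_sq a
  have h3 : Real.sin a ^ 2 = 1 - Real.cos a ^ 2 := by linarith
  calc Real.cosh b * Real.cos a * (Real.cosh b * Real.cos a) +
        -(Real.sinh b * Real.sin a) * -(Real.sinh b * Real.sin a)
      = Real.cosh b ^ 2 * Real.cos a ^ 2 + Real.sinh b ^ 2 * Real.sin a ^ 2 := by ring
    _ = Real.sinh b ^ 2 + Real.cos a ^ 2 := by rw [h1, h3]; ring
    _ ≤ Real.sinh b ^ 2 + 1 := by nlinarith [sq_nonneg (Real.sin a)]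
    _ = _ := h1.symm

private lemma norm_cosh_le (a b : ℝ) : ‖Complex.cosh ((b : ℂ) - a * I)‖ ≤ Real.cosh b := by
  have h := normSq_cosh_le a b
  rw [Complex.normSq_eq_norm_sq] at h
  exact le_of_sq_le_sq h (Real.cosh_pos b).le

private lemma norm_sinh_ge {a a0 : ℝ} (b : ℝ) (h0 : 0 < a0) (h1 : a0 ≤ Real.pi / 2)
    (h2 : a0 ≤ a) (h3 : a ≤ Real.pi - a0) :
    Real.sin a0 * Real.cosh b ≤ ‖Complex.sinh ((b : ℂ) - a * I)‖ := by
  have hs : 0 < Real.sin a0 := Real.sin_pos_of_pos_of_lt_pi h0 (by linarith [Real.pi_pos])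
  have hsa : Real.sin a0 ≤ Real.sin a := by
    rcases le_total a (Real.pi / 2) with h | h
    · exact Real.sin_le_sin_of_le_of_le_pi_div_two (by linarith [Real.pi_pos]) h h2
    · rw [← Real.sin_pi_sub a]
      exact Real.sin_le_sin_of_le_of_le_pi_div_two (by linarith [Real.pi_pos]) (by linarith)
        (by linarith)
  have h := normSq_sinh a b
  rw [Complex.normSq_eq_norm_sq] at h
  refine le_of_sq_le_sq ?_ (norm_nonneg _)
  rw [h, mul_pow, Real.cosh_sq b]
  have h4 : Real.sin a0 ^ 2 ≤ 1 := by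
    nlinarith [Real.sin_sq_add_cos_sq a0, sq_nonneg (Real.cos a0)]
  have h5 : Real.sin a0 ^ 2 ≤ Real.sin a ^ 2 := by nlinarith
  nlinarith [sq_nonneg (Real.sinh b)]

private lemma arg_eq {T : ℝ} (hT : 0 < T) (ζ : ℂ) (x : ℝ) :
    (Real.pi : ℂ) * (ζ - x) / (2 * T) =
      ((Real.pi * (ζ.re - x) / (2 * T) : ℝ) : ℂ) - ((Real.pi * (-ζ.im) / (2 * T) : ℝ) : ℂ) * I := by
  have hT' : (T : ℂ) ≠ 0 := by exact_mod_cast hT.ne'
  conv_lhs => rw [← Complex.re_add_im ζ]
  push_cast
  field_simp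
  ring

private lemma sin_pos' {T t0 : ℝ} (hT : 0 < T) (h0 : 0 < t0) (h1 : t0 ≤ T) :
    0 < Real.sin (Real.pi * t0 / (2 * T)) := by
  apply Real.sin_pos_of_pos_of_lt_pi
  · positivity
  · rw [div_lt_iff₀ (by positivity)]
    nlinarith [Real.pi_pos]

private lemma kern_ge {T t0 : ℝ} (hT : 0 < T) (h0 : 0 < t0) (h1 : t0 ≤ T) {ζ : ℂ}
    (h2 : ζ.im ≤ -t0) (h3 : -(2 * T - t0) ≤ ζ.im) (x : ℝ) :
    Real.sin (Real.pi * t0 / (2 * T)) * Real.cosh (Real.pi * (ζ.re - x) / (2 * T)) ≤
      ‖Complex.sinh (Real.pi * (ζ - x) / (2 * T))‖ := by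
  rw [arg_eq hT]
  have hpi := Real.pi_pos
  apply norm_sinh_ge
  · positivity
  · rw [div_le_div_iff₀ (by positivity) (by positivity)]
    nlinarith
  · apply div_le_div_of_nonneg_right _ (by positivity)
    nlinarith
  · rw [div_le_iff₀ (by positivity)]
    have : (Real.pi - Real.pi * t0 / (2 * T)) * (2 * T) = Real.pi * (2 * T - t0) := by
      field_simp
    rw [this]
    nlinarith

private lemma kern_ne {T : ℝ} (hT : 0 < T) {ζ : ℂ} (h2 : ζ.im < 0) (h3 : -(2 * T) < ζ.im) (x : ℝ) :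
    Complex.sinh (Real.pi * (ζ - x) / (2 * T)) ≠ 0 := by
  intro h
  have h4 : 0 < min (-ζ.im) (2 * T + ζ.im) := lt_min (by linarith) (by linarith)
  have h5 : min (-ζ.im) (2 * T + ζ.im) ≤ T := by
    rcases le_total (-ζ.im) T with h6 | h6
    · exact (min_le_left _ _).trans h6
    · exact (min_le_right _ _).trans (by linarith)
  have h7 := kern_ge hT h4 h5 (ζ := ζ) (by linarith [min_le_left (-ζ.im) (2 * T + ζ.im)])
    (by linarith [min_le_right (-ζ.im) (2 * T + ζ.im)]) x
  rw [h, norm_zero] at h7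
  have h8 := mul_pos (sin_pos' hT h4 h5) (Real.cosh_pos (Real.pi * (ζ.re - x) / (2 * T)))
  linarith

private lemma kern_norm_cosh {T : ℝ} (hT : 0 < T) (ζ : ℂ) (x : ℝ) :
    ‖Complex.cosh (Real.pi * (ζ - x) / (2 * T))‖ ≤ Real.cosh (Real.pi * (ζ.re - x) / (2 * T)) := by
  rw [arg_eq hT]
  exact norm_cosh_le _ _

private lemma exp_int {α : ℝ} (hα : 0 < α) :
    Integrable (fun x : ℝ => (1 + |x|) * Real.exp (-(α * |x|))) := by
  have h1 : Integrable (fun x : ℝ => (6 * Real.exp α / α ^ 3) * (1 + x ^ 2)⁻¹) :=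
    integrable_inv_one_add_sq.const_mul _
  refine h1.mono' (by fun_prop) (Eventually.of_forall fun x => ?_)
  have h2 : 0 ≤ |x| := abs_nonneg x
  have h3 := Real.pow_div_factorial_le_exp (α * (1 + |x|)) (by positivity) 3
  have h4 : (Nat.factorial 3 : ℝ) = 6 := by norm_num [Nat.factorial]
  rw [h4] at h3
  rw [Real.norm_eq_abs, abs_of_nonneg (by positivity)]
  have h5 : Real.exp (α * (1 + |x|)) = Real.exp α * Real.exp (α * |x|) := by
    rw [← Real.exp_add]; ring_nf
  rw [h5] at h3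
  rw [Real.exp_neg]
  have h6 : 0 < Real.exp (α * |x|) := Real.exp_pos _
  have h7 : 0 < 1 + x ^ 2 := by positivity
  have h8 : (1 + |x|) * (1 + x ^ 2) ≤ (1 + |x|) ^ 3 := by
    rw [← sq_abs x]
    nlinarith [mul_nonneg h2 h2, mul_nonneg (mul_nonneg h2 h2) h2]
  have h9 : (1 + |x|) ^ 3 ≤ 6 * Real.exp α / α ^ 3 * Real.exp (α * |x|) := by
    have h10 : (α * (1 + |x|)) ^ 3 ≤ 6 * (Real.exp α * Real.exp (α * |x|)) := by linarith
    rw [mul_pow] at h10
    have h11 : 0 < α ^ 3 := by positivity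
    rw [div_mul_eq_mul_div, le_div_iff₀ h11]
    nlinarith
  rw [← div_eq_mul_inv, ← div_eq_mul_inv, div_le_div_iff₀ h6 h7]
  linarith

private lemma cosh_ge {T : ℝ} (hT : 0 < T) (r R x : ℝ) (hr : |r| ≤ R) :
    Real.exp (-(Real.pi * R / (2 * T))) * Real.exp (Real.pi / (2 * T) * |x|) / 2 ≤
      Real.cosh (Real.pi * (r - x) / (2 * T)) := by
  have h1 : Real.exp |Real.pi * (r - x) / (2 * T)| / 2 ≤ Real.cosh (Real.pi * (r - x) / (2 * T)) := by
    rw [← Real.cosh_abs, Real.cosh_eq]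
    have := Real.exp_pos (-|Real.pi * (r - x) / (2 * T)|)
    linarith
  refine le_trans ?_ h1
  rw [← Real.exp_add]
  apply div_le_div_of_nonneg_right _ (by norm_num)
  apply Real.exp_le_exp.2
  rw [abs_div, abs_mul, abs_of_pos Real.pi_pos, abs_of_pos (by positivity : 0 < 2 * T)]
  have h2 : |x| - R ≤ |r - x| := by
    have := abs_sub_abs_le_abs_sub x r
    rw [abs_sub_comm x r] at this
    linarith
  have h3 : -(Real.pi * R / (2 * T)) + Real.pi / (2 * T) * |x| = Real.pi / (2 * T) * (|x| - R) := by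
    ring
  have h4 : Real.pi * |r - x| / (2 * T) = Real.pi / (2 * T) * |r - x| := by ring
  rw [h3, h4]
  exact mul_le_mul_of_nonneg_left h2 (by positivity)

/-- the integrand -/
private noncomputable def FF (T : ℝ) (B : ℝ → ℝ) (ζ : ℂ) (x : ℝ) : ℂ :=
  (B x : ℂ) / (2 * T * Complex.sinh (Real.pi * (ζ - x) / (2 * T)))

/-- its derivative -/
private noncomputable def FF' (T : ℝ) (B : ℝ → ℝ) (ζ : ℂ) (x : ℝ) : ℂ :=
  -((B x : ℂ) * (Real.pi * Complex.cosh (Real.pi * (ζ - x) / (2 * T)))) /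
    (2 * T * Complex.sinh (Real.pi * (ζ - x) / (2 * T))) ^ 2

private lemma FF_hasDeriv {T : ℝ} (B : ℝ → ℝ) (hT : 0 < T) {ζ : ℂ} (h2 : ζ.im < 0)
    (h3 : -(2 * T) < ζ.im) (x : ℝ) : HasDerivAt (fun z => FF T B z x) (FF' T B ζ x) ζ := by
  have hT' : (T : ℂ) ≠ 0 := by exact_mod_cast hT.ne'
  have hne := kern_ne hT h2 h3 x
  have h4 : HasDerivAt (fun z : ℂ => (Real.pi : ℂ) * (z - x) / (2 * T)) ((Real.pi : ℂ) / (2 * T)) ζ := by
    have := (((hasDerivAt_id ζ).sub_const (x : ℂ)).const_mul (Real.pi : ℂ)).div_const (2 * (T : ℂ))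
    simpa using this
  have h5 := h4.csinh.const_mul (2 * (T : ℂ))
  have h6 := (h5.fun_inv (by
    refine mul_ne_zero (mul_ne_zero two_ne_zero hT') hne)).const_mul (B x : ℂ)
  have h7 : (fun z => FF T B z x) = fun z => (B x : ℂ) *
      (2 * (T : ℂ) * Complex.sinh ((Real.pi : ℂ) * (z - x) / (2 * T)))⁻¹ := by
    funext z
    unfold FF
    rw [div_eq_mul_inv]
  rw [h7]
  convert! h6 using 1
  unfold FF'
  field_simp

private lemma FF_cont {T : ℝ} {B : ℝ → ℝ} (hB : Continuous B) (hT : 0 < T) {ζ : ℂ} (h2 : ζ.im < 0)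
    (h3 : -(2 * T) < ζ.im) : Continuous (FF T B ζ) := by
  have hT' : (T : ℂ) ≠ 0 := by exact_mod_cast hT.ne'
  unfold FF
  refine Continuous.div (by fun_prop) (by fun_prop) (fun x => ?_)
  exact mul_ne_zero (mul_ne_zero two_ne_zero hT') (kern_ne hT h2 h3 x)

private lemma FF'_cont {T : ℝ} {B : ℝ → ℝ} (hB : Continuous B) (hT : 0 < T) {ζ : ℂ} (h2 : ζ.im < 0)
    (h3 : -(2 * T) < ζ.im) : Continuous (FF' T B ζ) := by
  have hT' : (T : ℂ) ≠ 0 := by exact_mod_cast hT.ne'
  unfold FF'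
  refine Continuous.div (by fun_prop) (by fun_prop) (fun x => ?_)
  exact pow_ne_zero _ (mul_ne_zero (mul_ne_zero two_ne_zero hT') (kern_ne hT h2 h3 x))

private lemma FF_bound {T c t0 R : ℝ} {B : ℝ → ℝ} (hT : 0 < T)
    (hc : ∀ x, |B x| ≤ c * (1 + |x|)) (hc0 : 0 < c) (h0 : 0 < t0) (h1 : t0 ≤ T) {ζ : ℂ}
    (h2 : ζ.im ≤ -t0) (h3 : -(2 * T - t0) ≤ ζ.im) (h4 : |ζ.re| ≤ R) (x : ℝ) :
    ‖FF T B ζ x‖ ≤ (c / (2 * T * Real.sin (Real.pi * t0 / (2 * T)) *
      (Real.exp (-(Real.pi * R / (2 * T))) / 2))) * ((1 + |x|) * Real.exp (-(Real.pi / (2 * T) * |x|))) := by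
  have hs := sin_pos' hT h0 h1
  have h5 := kern_ge hT h0 h1 h2 h3 x
  have h6 := cosh_ge hT ζ.re R x h4
  have he := Real.exp_pos (-(Real.pi * R / (2 * T)))
  have he' := Real.exp_pos (Real.pi / (2 * T) * |x|)
  unfold FF
  rw [norm_div, norm_mul, norm_mul, Complex.norm_real, Complex.norm_real, Complex.norm_ofNat,
    Real.norm_eq_abs, Real.norm_eq_abs, abs_of_pos hT, Real.exp_neg (Real.pi / (2 * T) * |x|)]
  have h7 : Real.sin (Real.pi * t0 / (2 * T)) *
      (Real.exp (-(Real.pi * R / (2 * T))) * Real.exp (Real.pi / (2 * T) * |x|) / 2) ≤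
      ‖Complex.sinh (Real.pi * (ζ - x) / (2 * T))‖ :=
    (mul_le_mul_of_nonneg_left h6 hs.le).trans h5
  calc |B x| / (2 * T * ‖Complex.sinh (Real.pi * (ζ - x) / (2 * T))‖)
      ≤ (c * (1 + |x|)) / (2 * T * (Real.sin (Real.pi * t0 / (2 * T)) *
        (Real.exp (-(Real.pi * R / (2 * T))) * Real.exp (Real.pi / (2 * T) * |x|) / 2))) := by
        apply div_le_div₀ (by positivity) (hc x) (by positivity)
        exact mul_le_mul_of_nonneg_left h7 (by positivity)
    _ = _ := by
        field_simp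

private lemma FF'_bound {T c t0 R : ℝ} {B : ℝ → ℝ} (hT : 0 < T)
    (hc : ∀ x, |B x| ≤ c * (1 + |x|)) (hc0 : 0 < c) (h0 : 0 < t0) (h1 : t0 ≤ T) {ζ : ℂ}
    (h2 : ζ.im ≤ -t0) (h3 : -(2 * T - t0) ≤ ζ.im) (h4 : |ζ.re| ≤ R) (x : ℝ) :
    ‖FF' T B ζ x‖ ≤ (c * Real.pi / ((2 * T) ^ 2 * Real.sin (Real.pi * t0 / (2 * T)) ^ 2 *
      (Real.exp (-(Real.pi * R / (2 * T))) / 2))) * ((1 + |x|) * Real.exp (-(Real.pi / (2 * T) * |x|))) := by
  have hs := sin_pos' hT h0 h1
  have h5 := kern_ge hT h0 h1 h2 h3 x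
  have h6 := cosh_ge hT ζ.re R x h4
  have he := Real.exp_pos (-(Real.pi * R / (2 * T)))
  have he' := Real.exp_pos (Real.pi / (2 * T) * |x|)
  have hch := Real.cosh_pos (Real.pi * (ζ.re - x) / (2 * T))
  have h8 := kern_norm_cosh hT ζ x
  unfold FF'
  rw [norm_div, norm_neg, norm_mul, norm_mul, norm_pow, norm_mul, norm_mul, Complex.norm_real,
    Complex.norm_real, Complex.norm_real, Complex.norm_ofNat,
    Real.norm_eq_abs, Real.norm_eq_abs, Real.norm_eq_abs, abs_of_pos hT, abs_of_pos Real.pi_pos,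
    Real.exp_neg (Real.pi / (2 * T) * |x|)]
  calc |B x| * (Real.pi * ‖Complex.cosh (Real.pi * (ζ - x) / (2 * T))‖) /
        (2 * T * ‖Complex.sinh (Real.pi * (ζ - x) / (2 * T))‖) ^ 2
      ≤ (c * (1 + |x|)) * (Real.pi * Real.cosh (Real.pi * (ζ.re - x) / (2 * T))) /
        (2 * T * (Real.sin (Real.pi * t0 / (2 * T)) * Real.cosh (Real.pi * (ζ.re - x) / (2 * T)))) ^ 2 := by
        apply div_le_div₀ (by positivity) _ (by positivity)
        · exact pow_le_pow_left₀ (by positivity) (mul_le_mul_of_nonneg_left h5 (by positivity)) 2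
        · exact mul_le_mul (hc x) (mul_le_mul_of_nonneg_left h8 Real.pi_pos.le) (by positivity)
            (by positivity)
    _ = (c * Real.pi / ((2 * T) ^ 2 * Real.sin (Real.pi * t0 / (2 * T)) ^ 2) * (1 + |x|)) /
        Real.cosh (Real.pi * (ζ.re - x) / (2 * T)) := by
        field_simp
    _ ≤ (c * Real.pi / ((2 * T) ^ 2 * Real.sin (Real.pi * t0 / (2 * T)) ^ 2) * (1 + |x|)) /
        (Real.exp (-(Real.pi * R / (2 * T))) * Real.exp (Real.pi / (2 * T) * |x|) / 2) := by
        apply div_le_div_of_nonneg_left (by positivity) (by positivity) h6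
    _ = _ := by
        field_simp

private lemma strip_t0 {T : ℝ} {ζ : ℂ} (h2 : ζ.im < 0) (h3 : -(2 * T) < ζ.im) :
    ∃ t0 : ℝ, 0 < t0 ∧ t0 ≤ T ∧ ζ.im < -t0 ∧ -(2 * T - t0) < ζ.im := by
  have h4 : 0 < min (-ζ.im) (2 * T + ζ.im) := lt_min (by linarith) (by linarith)
  have h5 : min (-ζ.im) (2 * T + ζ.im) ≤ T := by
    rcases le_total (-ζ.im) T with h6 | h6
    · exact (min_le_left _ _).trans h6
    · exact (min_le_right _ _).trans (by linarith)
  refine ⟨min (-ζ.im) (2 * T + ζ.im) / 2, by linarith, by linarith, ?_, ?_⟩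
  · linarith [min_le_left (-ζ.im) (2 * T + ζ.im)]
  · linarith [min_le_right (-ζ.im) (2 * T + ζ.im)]

private lemma FF_int {T L : ℝ} {B : ℝ → ℝ} (hT : 0 < T) (hB : QP L B) {ζ : ℂ} (h2 : ζ.im < 0)
    (h3 : -(2 * T) < ζ.im) : Integrable (FF T B ζ) := by
  obtain ⟨c, hc0, hc⟩ := qp_growth hB
  obtain ⟨t0, h4, h5, h6, h7⟩ := strip_t0 h2 h3
  have hα : 0 < Real.pi / (2 * T) := by positivity
  refine ((exp_int hα).const_mul (c / (2 * T * Real.sin (Real.pi * t0 / (2 * T)) *
      (Real.exp (-(Real.pi * |ζ.re| / (2 * T))) / 2)))).mono'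
    (FF_cont hB.cont hT h2 h3).aestronglyMeasurable (Eventually.of_forall fun x => ?_)
  exact FF_bound hT hc hc0 h4 h5 h6.le h7.le le_rfl x

private lemma LcF_hasDeriv {T L : ℝ} {B : ℝ → ℝ} (hT : 0 < T) (hB : QP L B) {ζ : ℂ}
    (h2 : ζ.im < 0) (h3 : -(2 * T) < ζ.im) :
    HasDerivAt (LcF T B) (∫ x, FF' T B ζ x) ζ := by
  obtain ⟨c, hc0, hc⟩ := qp_growth hB
  obtain ⟨t0, h4, h5, h6, h7⟩ := strip_t0 h2 h3
  have hα : 0 < Real.pi / (2 * T) := by positivity
  have hopen : IsOpen {z : ℂ | z.im < -t0 ∧ -(2 * T - t0) < z.im ∧ |z.re| < |ζ.re| + 1} := by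
    have hA : IsOpen {z : ℂ | z.im < -t0} := isOpen_lt Complex.continuous_im continuous_const
    have hB' : IsOpen {z : ℂ | -(2 * T - t0) < z.im} := isOpen_lt continuous_const Complex.continuous_im
    have hC : IsOpen {z : ℂ | |z.re| < |ζ.re| + 1} :=
      isOpen_lt (continuous_abs.comp Complex.continuous_re) continuous_const
    have := (hA.inter (hB'.inter hC))
    exact this
  have hmem : {z : ℂ | z.im < -t0 ∧ -(2 * T - t0) < z.im ∧ |z.re| < |ζ.re| + 1} ∈ 𝓝 ζ :=
    hopen.mem_nhds ⟨h6, h7, by linarith⟩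
  have key := hasDerivAt_integral_of_dominated_loc_of_deriv_le (μ := volume) (F := FF T B)
    (F' := FF' T B) (x₀ := ζ)
    (bound := fun x => (c * Real.pi / ((2 * T) ^ 2 * Real.sin (Real.pi * t0 / (2 * T)) ^ 2 *
      (Real.exp (-(Real.pi * (|ζ.re| + 1) / (2 * T))) / 2))) *
        ((1 + |x|) * Real.exp (-(Real.pi / (2 * T) * |x|))))
    hmem
    (Filter.eventually_of_mem hmem (fun z hz => (FF_cont hB.cont hT (by linarith [hz.1])
      (by linarith [hz.2.1])).aestronglyMeasurable))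
    (FF_int hT hB h2 h3) (FF'_cont hB.cont hT h2 h3).aestronglyMeasurable
    (Eventually.of_forall fun x z hz => FF'_bound hT hc hc0 h4 h5 hz.1.le hz.2.1.le hz.2.2.le x)
    ((exp_int hα).const_mul _)
    (Eventually.of_forall fun x z hz => FF_hasDeriv B hT (by linarith [hz.1]) (by linarith [hz.2.1]) x)
  exact key.2

lemma lam_eq_im {T L : ℝ} {B : ℝ → ℝ} (hT : 0 < T) (hB : QP L B) {t : ℝ} (h0 : 0 < t)
    (h1 : t < 2 * T) (θ : ℝ) : lam T B t θ = (LcF T B (θ - t * I)).im := by
  have him : ((θ : ℂ) - t * I).im = -t := by simp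
  have hre : ((θ : ℂ) - t * I).re = θ := by simp
  have hint := FF_int hT hB (ζ := (θ : ℂ) - t * I) (by rw [him]; linarith) (by rw [him]; linarith)
  have h2 : (LcF T B (θ - t * I)).im = ∫ x, (FF T B ((θ : ℂ) - t * I) x).im := by
    have := integral_im hint
    simp only [RCLike.im_eq_complex_im] at this
    rw [this]
    rfl
  rw [h2]
  unfold lam
  have h3 : (∫ s, pk T t s * B (θ - s)) = ∫ x, pk T t (θ - x) * B x := by
    rw [← integral_sub_left_eq_self (fun x => pk T t (θ - x) * B x) volume θ]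
    congr 1
    funext x
    simp
  rw [h3]
  congr 1
  funext x
  unfold FF
  rw [arg_eq hT, him, hre, neg_neg]
  have h4 : (B x : ℂ) / (2 * T * Complex.sinh (((Real.pi * (θ - x) / (2 * T) : ℝ) : ℂ) -
      ((Real.pi * t / (2 * T) : ℝ) : ℂ) * I)) = ((B x / (2 * T) : ℝ) : ℂ) *
      (Complex.sinh (((Real.pi * (θ - x) / (2 * T) : ℝ) : ℂ) -
      ((Real.pi * t / (2 * T) : ℝ) : ℂ) * I))⁻¹ := by
    generalize Complex.sinh (((Real.pi * (θ - x) / (2 * T) : ℝ) : ℂ) -
      ((Real.pi * t / (2 * T) : ℝ) : ℂ) * I) = S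
    push_cast
    rw [← div_div, div_eq_mul_inv _ S]
  rw [h4, Complex.im_ofReal_mul, Complex.inv_im, normSq_sinh, sinh_re_im]
  unfold pk
  have h5 : Real.cosh (Real.pi * (θ - x) / (2 * T)) ^ 2 - Real.cos (Real.pi * t / (2 * T)) ^ 2 =
      Real.sinh (Real.pi * (θ - x) / (2 * T)) ^ 2 + Real.sin (Real.pi * t / (2 * T)) ^ 2 := by
    rw [Real.cosh_sq, Real.cos_sq']
    ring
  rw [h5]
  ring

lemma LcF_diff {T L : ℝ} {B : ℝ → ℝ} (hT : 0 < T) (hB : QP L B) :
    DifferentiableOn ℂ (LcF T B) {ζ | -(2 * T) < ζ.im ∧ ζ.im < 0} := fun ζ hζ =>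
  (LcF_hasDeriv hT hB hζ.2 hζ.1).differentiableAt.differentiableWithinAt

lemma lam_hasDerivAt_theta {T L : ℝ} {B : ℝ → ℝ} (hT : 0 < T) (hB : QP L B) {t : ℝ} (h0 : 0 < t)
    (h1 : t < 2 * T) (θ : ℝ) :
    HasDerivAt (fun θ => lam T B t θ) (deriv (LcF T B) (θ - t * I)).im θ := by
  have him : ((θ : ℂ) - t * I).im = -t := by simp
  have h2 := (LcF_hasDeriv hT hB (ζ := (θ : ℂ) - t * I) (by rw [him]; linarith)
    (by rw [him]; linarith)).differentiableAt.hasDerivAt
  have h3 : HasDerivAt (fun z : ℂ => LcF T B (z - t * I)) (deriv (LcF T B) (θ - t * I)) (θ : ℂ) := by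
    have h4 : HasDerivAt (fun z : ℂ => z - t * I) 1 (θ : ℂ) := (hasDerivAt_id (θ : ℂ)).sub_const _
    have := HasDerivAt.comp (θ : ℂ) h2 h4
    simpa [Function.comp_def] using this
  have h5 := h3.comp_ofReal
  have h6 := Complex.imCLM.hasFDerivAt.comp_hasDerivAt θ h5
  have h7 : (fun θ : ℝ => lam T B t θ) = Complex.imCLM ∘ fun y : ℝ => LcF T B ((y : ℂ) - t * I) := by
    funext y
    rw [lam_eq_im hT hB h0 h1 y]
    rfl
  rw [h7]
  exact h6

lemma lam_hasDerivAt_t {T L : ℝ} {B : ℝ → ℝ} (hT : 0 < T) (hB : QP L B) {t : ℝ} (h0 : 0 < t)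
    (h1 : t < 2 * T) (θ : ℝ) :
    HasDerivAt (fun t => lam T B t θ) (-(deriv (LcF T B) (θ - t * I)).re) t := by
  have him : ((θ : ℂ) - t * I).im = -t := by simp
  have h2 := (LcF_hasDeriv hT hB (ζ := (θ : ℂ) - t * I) (by rw [him]; linarith)
    (by rw [him]; linarith)).differentiableAt.hasDerivAt
  have h3 : HasDerivAt (fun z : ℂ => LcF T B (θ - z * I)) (deriv (LcF T B) (θ - t * I) * (-I)) (t : ℂ) := by
    have h4 : HasDerivAt (fun z : ℂ => (θ : ℂ) - z * I) (-I) (t : ℂ) := by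
      have := ((hasDerivAt_id (t : ℂ)).mul_const I).const_sub (θ : ℂ)
      simpa using this
    exact HasDerivAt.comp (t : ℂ) h2 h4
  have h5 := h3.comp_ofReal
  have h6 := Complex.imCLM.hasFDerivAt.comp_hasDerivAt t h5
  have h7 : (fun t : ℝ => lam T B t θ) =ᶠ[𝓝 t] Complex.imCLM ∘ fun y : ℝ => LcF T B ((θ : ℂ) - y * I) := by
    filter_upwards [Ioo_mem_nhds h0 h1] with y hy
    rw [lam_eq_im hT hB hy.1 hy.2 θ]
    rfl
  have h8 := h6.congr_of_eventuallyEq h7
  convert! h8 using 1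
  simp

lemma lam_per {T L : ℝ} {B : ℝ → ℝ} (hT : 0 < T) (hB : QP L B) {t : ℝ} (h0 : 0 < t)
    (h1 : t < 2 * T) (θ : ℝ) : lam T B t (θ + 2 * Real.pi) = lam T B t θ + L := by
  obtain ⟨c, hc0, hc⟩ := qp_growth hB
  obtain ⟨hi, hone⟩ := pk_integral hT h0 h1
  have h2 : Integrable (fun s => pk T t s * B (θ - s)) := by
    refine pk_integrable_mul hT h0 h1 (f := fun s => B (θ - s))
      (hB.cont.comp (continuous_const.sub continuous_id)) (c := c * (1 + |θ|)) (fun x => ?_)
    have h3 := hc (θ - x)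
    have h4 : |θ - x| ≤ |θ| + |x| := abs_sub _ _
    have h5 := abs_nonneg θ
    have h6 := abs_nonneg x
    have h7 : c * (1 + |θ - x|) ≤ c * (1 + |θ|) * (1 + |x|) := by
      rw [mul_assoc]
      apply mul_le_mul_of_nonneg_left _ hc0.le
      nlinarith [mul_nonneg h5 h6]
    exact h3.trans h7
  unfold lam
  have h3 : (fun s => pk T t s * B (θ + 2 * Real.pi - s)) =
      fun s => pk T t s * B (θ - s) + L * pk T t s := by
    funext s
    have : θ + 2 * Real.pi - s = (θ - s) + 2 * Real.pi := by ring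
    rw [this, hB.per]
    ring
  rw [h3, integral_add h2 (hi.const_mul L), MeasureTheory.integral_const_mul, hone, mul_one]

end CF6

end

section

/-! # Module F of MP_cf6b16_an, row FA3b : theta derivative of lam through the kernel

lam T B t theta = int pk T t (theta - x) B x dx; |deriv pk| <= (8/T) pk and pk_le_exp give the domination.
-/

open Complex MeasureTheory Set Filter Topology Metric intervalIntegral
open scoped ENNReal

namespace CF6

/-- linear growth of a quasi-periodic function -/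
lemma fa3b_growth {L : ℝ} {B : ℝ → ℝ} (hB : QP L B) : ∃ c : ℝ, 0 ≤ c ∧ ∀ x, |B x| ≤ c * (1 + |x|) := by
  have hper : Function.Periodic (fun x => B x - L * x / (2 * Real.pi)) (2 * Real.pi) := by
    intro x
    have hpi := Real.pi_ne_zero
    simp only
    rw [hB.per]
    field_simp
    ring
  have hcont : Continuous (fun x => B x - L * x / (2 * Real.pi)) := by
    have := hB.cont
    fun_prop
  have hb := hper.isBounded_of_continuous (by positivity) hcont
  obtain ⟨M, hM⟩ := hb.exists_norm_le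
  have hM0 : 0 ≤ M := (norm_nonneg _).trans (hM _ (mem_range_self (0 : ℝ)))
  refine ⟨M + |L|, by positivity, fun x => ?_⟩
  have h1 := hM _ (mem_range_self x)
  rw [Real.norm_eq_abs] at h1
  have h2 : |L * x / (2 * Real.pi)| ≤ |L| * |x| := by
    rw [abs_div, abs_mul, abs_of_pos Real.two_pi_pos]
    apply div_le_self (by positivity)
    have := Real.pi_gt_three
    linarith
  have h3 : |B x| ≤ |B x - L * x / (2 * Real.pi)| + |L * x / (2 * Real.pi)| := by
    have := abs_add_le (B x - L * x / (2 * Real.pi)) (L * x / (2 * Real.pi))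
    rwa [sub_add_cancel] at this
  have h4 : 0 ≤ |L| := abs_nonneg L
  have h5 : 0 ≤ |x| := abs_nonneg x
  nlinarith [mul_nonneg hM0 h5]

/-- integrability of the kernel against a quasi-periodic function, in convolution form -/
lemma fa3b_int {T L : ℝ} {B : ℝ → ℝ} (hT : 0 < T) (hB : QP L B) {t : ℝ}
    (h0 : 0 < t) (h1 : t < 2 * T) (θ : ℝ) :
    Integrable (fun x => pk T t (θ - x) * B x) := by
  obtain ⟨c, hc0, hc⟩ := fa3b_growth hB
  have h2 : Integrable (fun s => pk T t s * B (θ - s)) := by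
    apply pk_integrable_mul hT h0 h1 (f := fun s => B (θ - s)) (c := c * (1 + |θ|))
    · exact hB.cont.comp (by fun_prop)
    · intro x
      refine (hc _).trans ?_
      rw [mul_assoc]
      apply mul_le_mul_of_nonneg_left _ hc0
      have h3 := abs_sub θ x
      nlinarith [abs_nonneg θ, abs_nonneg x, mul_nonneg (abs_nonneg θ) (abs_nonneg x)]
  have h3 := h2.comp_sub_left θ
  refine h3.congr (ae_of_all _ fun x => ?_)
  simp only
  rw [sub_sub_cancel]

lemma fa3b_lam_eq (T : ℝ) (B : ℝ → ℝ) (t θ : ℝ) :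
    lam T B t θ = ∫ x, pk T t (θ - x) * B x := by
  unfold lam
  have h := integral_sub_left_eq_self (fun s => pk T t s * B (θ - s)) volume θ
  rw [← h]
  refine integral_congr_ae (ae_of_all _ fun x => ?_)
  simp only
  rw [sub_sub_cancel]

/-- the derivative in `θ` by differentiating the kernel -/
lemma lam_hasDerivAt_theta' {T L : ℝ} {B : ℝ → ℝ} (hT : 0 < T) (hB : QP L B) {t : ℝ}
    (h0 : T / 2 ≤ t) (h1 : t ≤ T) (θ : ℝ) :
    HasDerivAt (fun θ => lam T B t θ) (∫ x, deriv (pk T t) (θ - x) * B x) θ := by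
  have ht0 : 0 < t := by linarith
  have ht1 : t < 2 * T := by linarith
  have hpk := pk_continuous hT ht0 ht1
  have hfun : (fun θ => lam T B t θ) = fun θ => ∫ x, pk T t (θ - x) * B x := by
    funext θ
    exact fa3b_lam_eq T B t θ
  rw [hfun]
  have hint := fa3b_int hT hB ht0 ht1 θ
  have hbound : Integrable (fun x => (128 / T) * |pk T t (θ - x) * B x|) := (hint.abs).const_mul _
  refine (hasDerivAt_integral_of_dominated_loc_of_deriv_le (μ := volume)
    (F := fun θ x => pk T t (θ - x) * B x) (F' := fun θ x => deriv (pk T t) (θ - x) * B x)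
    (x₀ := θ) (s := ball θ T) (bound := fun x => (128 / T) * |pk T t (θ - x) * B x|)
    (ball_mem_nhds θ hT) ?_ hint ?_ ?_ hbound ?_).2
  · refine Eventually.of_forall fun θ' => ?_
    have : Continuous fun x => pk T t (θ' - x) * B x :=
      (hpk.comp (by fun_prop)).mul hB.cont
    exact this.aestronglyMeasurable
  · have hm : Measurable fun x : ℝ => deriv (pk T t) (θ - x) :=
      (measurable_deriv (pk T t)).comp (by fun_prop)
    exact hm.aestronglyMeasurable.mul hB.cont.aestronglyMeasurable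
  · refine ae_of_all _ fun x θ' hθ' => ?_
    rw [mem_ball, Real.dist_eq] at hθ'
    have h2 := (pk_deriv_le hT h0 h1 (θ' - x)).2
    have h3 := pk_harnack hT h0 h1 (θ - x) (θ' - θ) hθ'.le
    have e1 : θ - x + (θ' - θ) = θ' - x := by ring
    rw [e1] at h3
    have h4 : 0 < pk T t (θ - x) := pk_pos hT ht0 ht1 _
    have h5 : |deriv (pk T t) (θ' - x)| ≤ 128 / T * pk T t (θ - x) := by
      calc |deriv (pk T t) (θ' - x)| ≤ 8 / T * pk T t (θ' - x) := h2
        _ ≤ 8 / T * (16 * pk T t (θ - x)) := by gcongr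
        _ = 128 / T * pk T t (θ - x) := by ring
    rw [Real.norm_eq_abs, abs_mul, abs_mul, abs_of_pos h4, ← mul_assoc]
    gcongr
  · refine ae_of_all _ fun x θ' _ => ?_
    have h2 := (pk_deriv_le hT h0 h1 (θ' - x)).1.hasDerivAt
    have h3 : HasDerivAt (fun y : ℝ => y - x) 1 θ' := (hasDerivAt_id θ').sub_const x
    have h4 := h2.comp θ' h3
    rw [mul_one] at h4
    exact h4.mul_const (B x)

end CF6

end

section

/-! # Module F of MP_cf6b16_an, row FA4 : boundary values of lam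

|lam - B|(theta) <= int pk(s)|B(theta-s)-B(theta)| ds <= sup_{|s|<r}|B(theta-s)-B(theta)| + C int_{|s|>=r} pk (1+|s|) (quasi-periodicity: |B(theta-s)-B(theta)| <= C(1+|s|)),
B is uniformly continuous. pk_tail finishes. Joint continuity: inside from LcF_diff and lam_eq_im, at re = 0 from the uniform limit.
-/

open Complex MeasureTheory Set Filter Topology Metric intervalIntegral
open scoped ENNReal

namespace CF6

private lemma fa4_per {L : ℝ} {B : ℝ → ℝ} (hB : QP L B) :
    Function.Periodic (fun x => B x - L / (2 * Real.pi) * x) (2 * Real.pi) := by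
  intro x
  have := hB.per x
  have hpi := Real.pi_pos
  simp only [this]
  field_simp
  ring

private lemma fa4_uc {L : ℝ} {B : ℝ → ℝ} (hB : QP L B) : UniformContinuous B := by
  have hc : Continuous (fun x => B x - L / (2 * Real.pi) * x) := by
    have := hB.cont
    fun_prop
  have hp := fa4_per hB
  have : Fact (0 < 2 * Real.pi) := ⟨Real.two_pi_pos⟩
  have h1 : Continuous (hp.lift : AddCircle (2 * Real.pi) → ℝ) := continuous_coinduced_dom.mpr hc
  have h2 : UniformContinuous (hp.lift : AddCircle (2 * Real.pi) → ℝ) :=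
    CompactSpace.uniformContinuous_of_continuous h1
  have h3 : UniformContinuous (fun x : ℝ => (x : AddCircle (2 * Real.pi))) :=
    uniformContinuous_addMonoidHom_of_continuous
      (f := (QuotientAddGroup.mk' (AddSubgroup.zmultiples (2 * Real.pi)))) continuous_quotient_mk'
  have h4 : UniformContinuous (fun x => B x - L / (2 * Real.pi) * x) := h2.comp h3
  have h5 : UniformContinuous (fun x : ℝ => L / (2 * Real.pi) * x) :=
    Real.uniformContinuous_const_mul
  have h6 := h4.add h5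
  have h7 : (fun x => B x - L / (2 * Real.pi) * x + L / (2 * Real.pi) * x) = B := by
    funext x; ring
  rwa [h7] at h6

private lemma fa4_osc {L : ℝ} {B : ℝ → ℝ} (hB : QP L B) :
    ∃ c : ℝ, 0 < c ∧ ∀ θ s, |B (θ - s) - B θ| ≤ c * (1 + |s|) := by
  have hc : Continuous (fun x => B x - L / (2 * Real.pi) * x) := by
    have := hB.cont
    fun_prop
  have hb := (fa4_per hB).isBounded_of_continuous (by positivity) hc
  obtain ⟨M, hM⟩ := hb.exists_norm_le
  have hM' : ∀ x, |B x - L / (2 * Real.pi) * x| ≤ M := fun x => by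
    have := hM _ ⟨x, rfl⟩
    rwa [Real.norm_eq_abs] at this
  have hM0 : 0 ≤ M := (abs_nonneg _).trans (hM' 0)
  refine ⟨2 * M + |L / (2 * Real.pi)| + 1, by positivity, fun θ s => ?_⟩
  have h1 := hM' (θ - s)
  have h2 := hM' θ
  have h3 : B (θ - s) - B θ = (B (θ - s) - L / (2 * Real.pi) * (θ - s)) -
      (B θ - L / (2 * Real.pi) * θ) - L / (2 * Real.pi) * s := by ring
  have h4 : |B (θ - s) - B θ| ≤ M + M + |L / (2 * Real.pi)| * |s| := by
    rw [h3, ← abs_mul]
    refine (abs_sub _ _).trans ?_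
    have := abs_sub (B (θ - s) - L / (2 * Real.pi) * (θ - s)) (B θ - L / (2 * Real.pi) * θ)
    linarith
  refine h4.trans ?_
  have h5 := abs_nonneg s
  have h6 := abs_nonneg (L / (2 * Real.pi))
  nlinarith [mul_nonneg hM0 h5]

private lemma fa4_key {T L : ℝ} {B : ℝ → ℝ} (hT : 0 < T) (hB : QP L B) {ε : ℝ} (hε : 0 < ε) :
    ∃ t0 : ℝ, 0 < t0 ∧ ∀ t, 0 < t → t < t0 → ∀ θ, |lam T B t θ - B θ| < ε := by
  obtain ⟨c, hc0, hc⟩ := fa4_osc hB
  have huc := Metric.uniformContinuous_iff.mp (fa4_uc hB) (ε / 2) (by positivity)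
  obtain ⟨r, hr0, hr⟩ := huc
  have htail := pk_tail hT r hr0
  have h1 : ∀ᶠ t in 𝓝[>] (0 : ℝ),
      ∫ s in {s : ℝ | r ≤ |s|}, pk T t s * (1 + |s|) < ε / (2 * c) :=
    htail.eventually (gt_mem_nhds (by positivity))
  rw [eventually_nhdsWithin_iff, Metric.eventually_nhds_iff] at h1
  obtain ⟨t1, ht1, h1⟩ := h1
  refine ⟨min t1 (2 * T), lt_min ht1 (by positivity), ?_⟩
  intro t ht0 htt θ
  have htT : t < 2 * T := lt_of_lt_of_le htt (min_le_right _ _)
  have h2 := h1 (y := t) (by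
    rw [Real.dist_eq, sub_zero, abs_of_pos ht0]; exact lt_of_lt_of_le htt (min_le_left _ _)) ht0
  obtain ⟨hpi, hp1⟩ := pk_integral hT ht0 htT
  have hint1 : Integrable (fun s => pk T t s * B (θ - s)) := by
    refine pk_integrable_mul hT ht0 htT (f := fun s => B (θ - s)) (c := c + |B θ|)
      (hB.cont.comp (by fun_prop)) ?_
    intro x
    have h3 := hc θ x
    have h4 : |B (θ - x)| ≤ |B (θ - x) - B θ| + |B θ| := by
      have := abs_add_le (B (θ - x) - B θ) (B θ)
      simpa using this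
    have h5 := abs_nonneg (B θ)
    have h6 := abs_nonneg x
    nlinarith [mul_nonneg h5 h6]
  have hint2 : Integrable (fun s => pk T t s * B θ) := hpi.mul_const _
  have hint3 : Integrable (fun s => pk T t s * (1 + |s|)) := by
    refine pk_integrable_mul hT ht0 htT (f := fun s => 1 + |s|) (c := 1) (by fun_prop) ?_
    intro x
    rw [one_mul, abs_of_nonneg (by positivity)]
  have hmeas : MeasurableSet {s : ℝ | r ≤ |s|} :=
    measurableSet_le measurable_const (measurable_norm)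
  have e1 : lam T B t θ - B θ = ∫ s, pk T t s * (B (θ - s) - B θ) := by
    have e2 : B θ = ∫ s, pk T t s * B θ := by
      rw [MeasureTheory.integral_mul_const, hp1, one_mul]
    unfold lam
    conv_lhs => rw [e2]
    rw [← MeasureTheory.integral_sub hint1 hint2]
    congr 1
    funext s
    ring
  rw [e1]
  have e3 : |∫ s, pk T t s * (B (θ - s) - B θ)| ≤
      ∫ s, (pk T t s * (ε / 2) +
        c * ({s : ℝ | r ≤ |s|}.indicator (fun s => pk T t s * (1 + |s|)) s)) := by
    rw [← Real.norm_eq_abs]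
    refine norm_integral_le_of_norm_le
      ((hpi.mul_const _).add ((hint3.indicator hmeas).const_mul c)) ?_
    refine Eventually.of_forall fun s => ?_
    have hp := pk_pos hT ht0 htT s
    rw [Real.norm_eq_abs, abs_mul, abs_of_pos hp]
    by_cases hs : r ≤ |s|
    · rw [Set.indicator_of_mem (show s ∈ {s : ℝ | r ≤ |s|} from hs)]
      have h3 := mul_le_mul_of_nonneg_left (hc θ s) hp.le
      have h4 : 0 ≤ pk T t s * (ε / 2) := by positivity
      linarith
    · rw [Set.indicator_of_notMem (show s ∉ {s : ℝ | r ≤ |s|} from hs), mul_zero, add_zero]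
      refine mul_le_mul_of_nonneg_left ?_ hp.le
      push Not at hs
      have h3 := hr (a := θ - s) (b := θ) (by
        rw [Real.dist_eq]
        have : θ - s - θ = -s := by ring
        rw [this, abs_neg]; exact hs)
      rw [Real.dist_eq] at h3
      exact h3.le
  refine lt_of_le_of_lt e3 ?_
  rw [MeasureTheory.integral_add (hpi.mul_const _) ((hint3.indicator hmeas).const_mul c),
    MeasureTheory.integral_mul_const, MeasureTheory.integral_const_mul, hp1,
    MeasureTheory.integral_indicator hmeas, one_mul]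
  have h3 : c * (∫ s in {s : ℝ | r ≤ |s|}, pk T t s * (1 + |s|)) < c * (ε / (2 * c)) :=
    mul_lt_mul_of_pos_left h2 hc0
  have h4 : c * (ε / (2 * c)) = ε / 2 := by field_simp
  linarith

lemma lam_tendsto {T L : ℝ} {B : ℝ → ℝ} (hT : 0 < T) (hB : QP L B) :
    TendstoUniformly (fun t θ => lam T B t θ) B (𝓝[>] 0) := by
  rw [Metric.tendstoUniformly_iff]
  intro ε hε
  obtain ⟨t0, h0, h1⟩ := fa4_key hT hB hε
  rw [eventually_nhdsWithin_iff, Metric.eventually_nhds_iff]
  refine ⟨t0, h0, ?_⟩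
  intro t ht htp θ
  have htp' : 0 < t := htp
  rw [Real.dist_eq, sub_zero, abs_of_pos htp'] at ht
  rw [Real.dist_eq, abs_sub_comm]
  exact h1 t htp' ht θ

lemma lam_continuousOn {T L : ℝ} {B : ℝ → ℝ} (hT : 0 < T) (hB : QP L B) :
    ContinuousOn (fun z : ℂ => if z.re = 0 then B z.im else lam T B z.re z.im)
      {z | 0 ≤ z.re ∧ z.re < 2 * T} := by
  intro z0 hz0
  rcases eq_or_lt_of_le hz0.1 with h0 | h0
  · -- boundary point
    rw [Metric.continuousWithinAt_iff]
    intro ε hε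
    obtain ⟨t0, ht0, h1⟩ := fa4_key hT hB (ε := ε / 2) (by positivity)
    obtain ⟨d, hd0, hd⟩ := Metric.continuous_iff.mp hB.cont z0.im (ε / 2) (by positivity)
    refine ⟨min t0 d, lt_min ht0 hd0, ?_⟩
    intro z hz hzd
    have hre : |z.re - z0.re| < t0 := by
      refine lt_of_le_of_lt ?_ (lt_of_lt_of_le hzd (min_le_left _ _))
      rw [Complex.dist_eq, ← Complex.sub_re]
      exact Complex.abs_re_le_norm _
    have him : |z.im - z0.im| < d := by
      refine lt_of_le_of_lt ?_ (lt_of_lt_of_le hzd (min_le_right _ _))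
      rw [Complex.dist_eq, ← Complex.sub_im]
      exact Complex.abs_im_le_norm _
    have hB1 := hd z.im (by rw [Real.dist_eq]; exact him)
    rw [Real.dist_eq] at hB1
    rw [if_pos h0.symm, Real.dist_eq]
    by_cases hz0' : z.re = 0
    · rw [if_pos hz0']; linarith
    · rw [if_neg hz0']
      have hzp : 0 < z.re := lt_of_le_of_ne hz.1 (Ne.symm hz0')
      rw [← h0, sub_zero, abs_of_pos hzp] at hre
      have h2 := h1 z.re hzp hre z.im
      have h3 : lam T B z.re z.im - B z0.im = (lam T B z.re z.im - B z.im) +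
          (B z.im - B z0.im) := by ring
      rw [h3]
      refine lt_of_le_of_lt (abs_add_le _ _) ?_
      linarith
  · -- interior point
    refine ContinuousAt.continuousWithinAt ?_
    have hop : IsOpen {ζ : ℂ | -(2 * T) < ζ.im ∧ ζ.im < 0} :=
      (isOpen_lt continuous_const Complex.continuous_im).inter
        (isOpen_lt Complex.continuous_im continuous_const)
    have hmem : ((z0.im : ℂ) - z0.re * I) ∈ {ζ : ℂ | -(2 * T) < ζ.im ∧ ζ.im < 0} := by
      have h2 := hz0.2
      simp only [Set.mem_ofPred_eq, Complex.sub_im, Complex.ofReal_im, Complex.mul_im,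
        Complex.ofReal_re, Complex.I_im, Complex.I_re]
      constructor <;> linarith
    have hca : ContinuousAt (LcF T B) ((z0.im : ℂ) - z0.re * I) :=
      ((LcF_diff hT hB).differentiableAt (hop.mem_nhds hmem)).continuousAt
    have hcomp : ContinuousAt (fun z : ℂ => (LcF T B ((z.im : ℂ) - z.re * I)).im) z0 := by
      refine Complex.continuous_im.continuousAt.comp ?_
      refine ContinuousAt.comp (f := fun z : ℂ => ((z.im : ℂ) - z.re * I)) (g := LcF T B) hca ?_
      fun_prop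
    refine hcomp.congr ?_
    have hop2 : IsOpen {z : ℂ | 0 < z.re ∧ z.re < 2 * T} :=
      (isOpen_lt continuous_const Complex.continuous_re).inter
        (isOpen_lt Complex.continuous_re continuous_const)
    filter_upwards [hop2.mem_nhds (show z0 ∈ _ from ⟨h0, hz0.2⟩)] with z hz
    rw [if_neg (ne_of_gt hz.1)]
    exact (lam_eq_im hT hB hz.1 hz.2 z.im).symm

end CF6

end

section

/-! # Module F of MP_cf6b16_an, row FA5 : monotonicity and Harnack properties of lam

For delta > 0: lam(theta+delta) - lam(theta) = int pk(theta-x)(B(x+delta)-B(x))dx >= 0. Strict monotonicity: B(x+delta)-B(x) is a nonnegative continuous function with integral over a period L delta > 0.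
Positivity of the derivative: lam_harnack needs T/2 <= t; for general t in (0,2T) use locally the analogue: pk T t (s+x) <= C_t pk T t s for |x| <= 1 (compactness/explicit), so deriv at theta >= (1/C)(average of the differences) > 0.
(Alternatively: if the derivative vanished at theta then all difference quotients int pk(theta-x)(B(x+delta)-B(x))/delta would tend to 0 and, with pk(theta' - x) <= C pk(theta-x) locally, the derivative would vanish on a neighbourhood; contradiction with strict monotonicity.)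
lam_harnack: compare the two differences by pk_harnack, divide by delta, delta -> 0. lam_deriv2: deriv(lam)(theta) = int deriv pk(theta-x) B x dx; second derivative as limit; difference version:
D(theta) = lam(theta+delta)-lam(theta) has |D'| <= (8/T) D by pk_deriv_le; so |D(theta')-D(theta)| <= (8/T) int D; divide by delta and let delta -> 0, then use that lam is smooth (LcF holomorphic).
lam_sub_le: first for B of class C^1 (B' >= 0): |lam-B|(theta) <= int_0^inf pk(s)(B(theta+s)-B(theta-s))ds = int_0^inf (int_s^inf pk)(B'(theta+s)+B'(theta-s))ds <= 4T int pk(s)B'(theta-s)ds = 4T deriv lam; general B: mollify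
(B_n -> B uniformly, lam_n -> lam, deriv lam_n = int deriv pk B_n -> deriv lam).
-/

open Complex MeasureTheory Set Filter Topology Metric intervalIntegral
open scoped ENNReal

namespace CF6

/-- linear growth of the boundary function -/
private lemma fa5_growth {L : ℝ} {B : ℝ → ℝ} (hB : QP L B) :
    ∃ c : ℝ, 0 ≤ c ∧ ∀ x, |B x| ≤ c * (1 + |x|) := by
  have hper : Function.Periodic (fun x => B x - L * x / (2 * Real.pi)) (2 * Real.pi) := by
    intro x
    have hpi : (2 * Real.pi) ≠ 0 := by positivity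
    simp only [hB.per x]
    field_simp
    ring
  have hcont : Continuous (fun x => B x - L * x / (2 * Real.pi)) :=
    hB.cont.sub ((continuous_const.mul continuous_id).div_const _)
  have hb := hper.isBounded_of_continuous (by positivity) hcont
  obtain ⟨M, hM⟩ := hb.exists_norm_le
  have hM' : ∀ x, |B x - L * x / (2 * Real.pi)| ≤ M := fun x => hM _ ⟨x, rfl⟩
  have hM0 : 0 ≤ M := (abs_nonneg _).trans (hM' 0)
  refine ⟨M + |L| / (2 * Real.pi), by positivity, fun x => ?_⟩
  have h1 : |B x| ≤ |B x - L * x / (2 * Real.pi)| + |L * x / (2 * Real.pi)| := by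
    have := abs_add_le (B x - L * x / (2 * Real.pi)) (L * x / (2 * Real.pi))
    simpa using this
  have h2 : |L * x / (2 * Real.pi)| = |L| / (2 * Real.pi) * |x| := by
    rw [abs_div, abs_mul, abs_of_pos (show (0 : ℝ) < 2 * Real.pi by positivity)]
    ring
  have h3 : 0 ≤ |x| := abs_nonneg x
  have h4 : 0 ≤ |L| / (2 * Real.pi) := by positivity
  nlinarith [hM' x, mul_nonneg hM0 h3]

private lemma fa5_growth2 {L : ℝ} {B : ℝ → ℝ} (hB : QP L B) (θ : ℝ) :
    ∃ c : ℝ, ∀ s, |B (θ - s)| ≤ c * (1 + |s|) := by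
  obtain ⟨c, hc, h⟩ := fa5_growth hB
  refine ⟨c * (1 + |θ|), fun s => (h _).trans ?_⟩
  have h1 : |θ - s| ≤ |θ| + |s| := abs_sub θ s
  have h2 := abs_nonneg θ
  have h3 := abs_nonneg s
  rw [mul_assoc]
  refine mul_le_mul_of_nonneg_left ?_ hc
  nlinarith [mul_nonneg h2 h3]

private lemma fa5_int {T L : ℝ} {B : ℝ → ℝ} (hT : 0 < T) (hB : QP L B) {t : ℝ}
    (h0 : 0 < t) (h1 : t < 2 * T) (θ : ℝ) : Integrable (fun s => pk T t s * B (θ - s)) := by
  obtain ⟨c, hc⟩ := fa5_growth2 hB θ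
  exact pk_integrable_mul hT h0 h1 (hB.cont.comp (continuous_const.sub continuous_id)) hc

private lemma fa5_diff {T L : ℝ} {B : ℝ → ℝ} (hT : 0 < T) (hB : QP L B) {t : ℝ}
    (h0 : 0 < t) (h1 : t < 2 * T) (θ θ' : ℝ) :
    Integrable (fun s => pk T t s * (B (θ - s) - B (θ' - s))) ∧
      lam T B t θ - lam T B t θ' = ∫ s, pk T t s * (B (θ - s) - B (θ' - s)) := by
  have h2 := fa5_int hT hB h0 h1 θ
  have h3 := fa5_int hT hB h0 h1 θ'
  constructor
  · exact (h2.sub h3).congr (Eventually.of_forall fun s => by simp only [Pi.sub_apply]; ring)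
  · unfold lam
    rw [← integral_sub h2 h3]
    refine integral_congr_ae (Eventually.of_forall fun s => ?_)
    simp only
    ring

private lemma fa5_cmp {T L : ℝ} {B : ℝ → ℝ} (hT : 0 < T) (hB : QP L B) {t : ℝ}
    (h0 : 0 < t) (h1 : t < 2 * T) {θ θ' C : ℝ}
    (H : ∀ s, pk T t s ≤ C * pk T t (s + (θ' - θ))) {δ : ℝ} (hδ : 0 < δ) :
    lam T B t (θ + δ) - lam T B t θ ≤ C * (lam T B t (θ' + δ) - lam T B t θ') := by
  obtain ⟨i1, e1⟩ := fa5_diff hT hB h0 h1 (θ + δ) θ
  obtain ⟨i2, e2⟩ := fa5_diff hT hB h0 h1 (θ' + δ) θ'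
  have i3 := i2.comp_add_right (θ' - θ)
  rw [e1, e2, ← integral_add_right_eq_self
    (fun s => pk T t s * (B (θ' + δ - s) - B (θ' - s))) (θ' - θ), ← MeasureTheory.integral_const_mul]
  refine integral_mono i1 (i3.const_mul C) fun s => ?_
  simp only
  have e3 : θ' + δ - (s + (θ' - θ)) = θ + δ - s := by ring
  have e4 : θ' - (s + (θ' - θ)) = θ - s := by ring
  rw [e3, e4, ← mul_assoc]
  exact mul_le_mul_of_nonneg_right (H s) (sub_nonneg.mpr (hB.mono (by linarith)))

private lemma fa5_deriv_le {f : ℝ → ℝ} {x y C f' g' : ℝ} (hf : HasDerivAt f f' x)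
    (hg : HasDerivAt f g' y) (H : ∀ δ > 0, f (x + δ) - f x ≤ C * (f (y + δ) - f y)) :
    f' ≤ C * g' := by
  have h1 := hf.tendsto_slope_zero_right
  have h2 := (hg.tendsto_slope_zero_right).const_mul C
  refine le_of_tendsto_of_tendsto h1 h2 ?_
  filter_upwards [self_mem_nhdsWithin] with δ hδ
  have hδ' : (0 : ℝ) < δ := hδ
  simp only [smul_eq_mul]
  have := mul_le_mul_of_nonneg_left (H δ hδ') (inv_pos.mpr hδ').le
  linarith [this, mul_left_comm C δ⁻¹ (f (y + δ) - f y)]

private lemma fa5_cmp_deriv {T L : ℝ} {B : ℝ → ℝ} (hT : 0 < T) (hB : QP L B) {t : ℝ}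
    (h0 : 0 < t) (h1 : t < 2 * T) {θ θ' C : ℝ}
    (H : ∀ s, pk T t s ≤ C * pk T t (s + (θ' - θ))) :
    deriv (lam T B t) θ ≤ C * deriv (lam T B t) θ' := by
  have d1 := (lam_hasDerivAt_theta hT hB h0 h1 θ).differentiableAt.hasDerivAt
  have d2 := (lam_hasDerivAt_theta hT hB h0 h1 θ').differentiableAt.hasDerivAt
  exact fa5_deriv_le d1 d2 fun δ hδ => fa5_cmp hT hB h0 h1 H hδ

private lemma fa5_strict {T L : ℝ} {B : ℝ → ℝ} (hT : 0 < T) (hL : 0 < L) (hB : QP L B) {t : ℝ}
    (h0 : 0 < t) (h1 : t < 2 * T) : StrictMono (lam T B t) := by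
  intro θ θ' hlt
  obtain ⟨i1, e1⟩ := fa5_diff hT hB h0 h1 θ' θ
  rw [← sub_pos, e1]
  have hnn : ∀ s, 0 ≤ pk T t s * (B (θ' - s) - B (θ - s)) := fun s =>
    mul_nonneg (pk_pos hT h0 h1 s).le (sub_nonneg.mpr (hB.mono (by linarith)))
  rw [integral_pos_iff_support_of_nonneg (fun s => hnn s) i1]
  have hcont : Continuous (fun s => pk T t s * (B (θ' - s) - B (θ - s))) :=
    (pk_continuous hT h0 h1).mul ((hB.cont.comp (continuous_const.sub continuous_id)).sub
      (hB.cont.comp (continuous_const.sub continuous_id)))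
  refine hcont.isOpen_support.measure_pos _ ?_
  by_contra hne
  rw [Set.not_nonempty_iff_eq_empty, Function.support_eq_empty_iff] at hne
  have hz : ∀ s, B (θ' - s) = B (θ - s) := by
    intro s
    have := congrFun hne s
    simp only [Pi.zero_apply, mul_eq_zero] at this
    rcases this with h | h
    · exact absurd h (pk_pos hT h0 h1 s).ne'
    · linarith
  have hz2 : ∀ x, B (x + (θ' - θ)) = B x := by
    intro x
    have := hz (θ - x)
    rw [show θ' - (θ - x) = x + (θ' - θ) by ring, show θ - (θ - x) = x by ring] at this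
    exact this
  have hz3 : ∀ n : ℕ, B (n * (θ' - θ)) = B 0 := by
    intro n
    induction n with
    | zero => simp
    | succ n ih => rw [← ih, ← hz2 (n * (θ' - θ))]; push_cast; ring_nf
  obtain ⟨n, hn⟩ := exists_nat_ge (2 * Real.pi / (θ' - θ))
  have hn' : 2 * Real.pi ≤ n * (θ' - θ) := by
    rwa [div_le_iff₀ (by linarith)] at hn
  have h2 : B (0 + 2 * Real.pi) ≤ B (n * (θ' - θ)) := hB.mono (by linarith)
  rw [hz3, hB.per] at h2
  linarith

/-- local Harnack inequality for the kernel -/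
private lemma fa5_kernel {T t : ℝ} (hT : 0 < T) (h0 : 0 < t) (h1 : t < 2 * T) :
    ∃ C : ℝ, 0 < C ∧ ∀ x, |x| ≤ 1 → ∀ s, pk T t s ≤ C * pk T t (s + x) := by
  have ha0 : 0 < Real.pi * t / (2 * T) := by positivity
  have ha1 : Real.pi * t / (2 * T) < Real.pi := by
    rw [div_lt_iff₀ (by positivity)]
    exact mul_lt_mul_of_pos_left h1 Real.pi_pos
  have hs := Real.sin_pos_of_pos_of_lt_pi ha0 ha1
  set a := Real.pi * t / (2 * T) with ha
  have hbound : ∀ s, 1 / (2 * T) * Real.sin a / Real.cosh (Real.pi * s / (2 * T)) ≤ pk T t s ∧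
      pk T t s ≤ 1 / (2 * T) / Real.sin a / Real.cosh (Real.pi * s / (2 * T)) := by
    intro s
    have hden := pk_den_pos hT h0 h1 s
    have hc := Real.cosh_pos (Real.pi * s / (2 * T))
    have hsc := Real.sin_sq_add_cos_sq a
    have hch := Real.one_le_cosh (Real.pi * s / (2 * T))
    set u := Real.cosh (Real.pi * s / (2 * T)) with hu
    have hu1 : 1 ≤ u ^ 2 := by nlinarith
    unfold pk
    rw [← ha, ← hu] at *
    constructor
    · rw [div_le_div_iff₀ hc hden]
      have hT2 : 0 < 1 / (2 * T) := by positivity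
      have : 1 / (2 * T) * Real.sin a * (u ^ 2 - Real.cos a ^ 2) ≤
          1 / (2 * T) * Real.sin a * u ^ 2 :=
        mul_le_mul_of_nonneg_left (by nlinarith [sq_nonneg (Real.cos a)]) (by positivity)
      calc _ ≤ 1 / (2 * T) * Real.sin a * u ^ 2 := this
        _ = _ := by ring
    · rw [div_div, div_le_div_iff₀ hden (by positivity)]
      have hT2 : 0 < 1 / (2 * T) := by positivity
      have : Real.sin a ^ 2 * u ^ 2 ≤ u ^ 2 - Real.cos a ^ 2 := by
        nlinarith [sq_nonneg (Real.cos a), sq_nonneg (Real.sin a)]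
      calc _ = 1 / (2 * T) * (Real.sin a ^ 2 * u ^ 2) := by ring
        _ ≤ _ := mul_le_mul_of_nonneg_left this hT2.le
  refine ⟨Real.exp (Real.pi / (2 * T)) / Real.sin a ^ 2, by positivity, fun x hx s => ?_⟩
  have e1 := (hbound s).2
  have e2 := (hbound (s + x)).1
  have hc1 := Real.cosh_pos (Real.pi * s / (2 * T))
  have hc2 := Real.cosh_pos (Real.pi * (s + x) / (2 * T))
  have hcc : Real.cosh (Real.pi * (s + x) / (2 * T)) ≤
      Real.exp (Real.pi / (2 * T)) * Real.cosh (Real.pi * s / (2 * T)) := by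
    have hsplit : Real.pi * (s + x) / (2 * T) = Real.pi * s / (2 * T) + Real.pi * x / (2 * T) := by
      ring
    rw [hsplit]
    have hxx : |Real.pi * x / (2 * T)| ≤ Real.pi / (2 * T) := by
      rw [abs_div, abs_mul, abs_of_pos Real.pi_pos, abs_of_pos (show 0 < 2 * T by positivity)]
      refine div_le_div_of_nonneg_right ?_ (by positivity)
      nlinarith [Real.pi_pos]
    set y := Real.pi * s / (2 * T)
    set z := Real.pi * x / (2 * T)
    set w := Real.pi / (2 * T)
    rw [Real.cosh_eq, Real.cosh_eq]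
    have h3 : Real.exp (y + z) ≤ Real.exp w * Real.exp y := by
      rw [← Real.exp_add]
      exact Real.exp_le_exp.mpr (by linarith [le_abs_self z])
    have h4 : Real.exp (-(y + z)) ≤ Real.exp w * Real.exp (-y) := by
      rw [← Real.exp_add]
      exact Real.exp_le_exp.mpr (by linarith [neg_abs_le z])
    linarith
  calc pk T t s ≤ 1 / (2 * T) / Real.sin a / Real.cosh (Real.pi * s / (2 * T)) := e1
    _ ≤ Real.exp (Real.pi / (2 * T)) / Real.sin a ^ 2 *
        (1 / (2 * T) * Real.sin a / Real.cosh (Real.pi * (s + x) / (2 * T))) := by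
      rw [div_div, div_div, div_mul_div_comm, div_le_div_iff₀ (by positivity) (by positivity)]
      have e5 : Real.exp (Real.pi / (2 * T)) * (1 / (2 * T) * Real.sin a) *
          (2 * T * (Real.sin a * Real.cosh (Real.pi * s / (2 * T)))) =
          Real.sin a ^ 2 * (Real.exp (Real.pi / (2 * T)) * Real.cosh (Real.pi * s / (2 * T))) := by
        field_simp
      rw [e5, one_mul]
      exact mul_le_mul_of_nonneg_left hcc (by positivity)
    _ ≤ _ := mul_le_mul_of_nonneg_left e2 (by positivity)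

lemma lam_strictMono {T L : ℝ} {B : ℝ → ℝ} (hT : 0 < T) (hL : 0 < L) (hB : QP L B) {t : ℝ}
    (h0 : 0 < t) (h1 : t < 2 * T) :
    StrictMono (lam T B t) ∧ ∀ θ, 0 < deriv (lam T B t) θ := by
  have hs := fa5_strict hT hL hB h0 h1
  refine ⟨hs, fun θ => ?_⟩
  have hd : Differentiable ℝ (lam T B t) := fun θ =>
    (lam_hasDerivAt_theta hT hB h0 h1 θ).differentiableAt
  obtain ⟨ξ, hξ, hξ2⟩ := exists_deriv_eq_slope (lam T B t) (show θ < θ + 1 by linarith)
    hd.continuous.continuousOn hd.differentiableOn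
  have hpos : 0 < deriv (lam T B t) ξ := by
    rw [hξ2]
    exact div_pos (sub_pos.mpr (hs (by linarith))) (by linarith)
  obtain ⟨C, hC, hK⟩ := fa5_kernel hT h0 h1
  have := fa5_cmp_deriv hT hB h0 h1 (θ := ξ) (θ' := θ) (C := C)
    (hK (θ - ξ) (by rw [abs_le]; constructor <;> linarith [hξ.1, hξ.2]))
  by_contra hneg
  push Not at hneg
  have : C * deriv (lam T B t) θ ≤ 0 := mul_nonpos_of_nonneg_of_nonpos hC.le hneg
  linarith

/-- Harnack: differences are comparable at distance `≤ T` -/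
lemma lam_harnack {T L : ℝ} {B : ℝ → ℝ} (hT : 0 < T) (hB : QP L B) {t : ℝ}
    (h0 : T / 2 ≤ t) (h1 : t ≤ T) (θ θ' : ℝ) (h : |θ - θ'| ≤ T) :
    deriv (lam T B t) θ ≤ 16 * deriv (lam T B t) θ' := by
  refine fa5_cmp_deriv hT hB (by linarith) (by linarith) fun s => ?_
  have := pk_harnack hT h0 h1 (s + (θ' - θ)) (θ - θ') h
  rwa [show s + (θ' - θ) + (θ - θ') = s by ring] at this

private lemma fa5_dint {T L : ℝ} {B : ℝ → ℝ} (hT : 0 < T) (hB : QP L B) {t : ℝ}
    (h0 : T / 2 ≤ t) (h1 : t ≤ T) (θ : ℝ) :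
    Integrable (fun s => deriv (pk T t) s * B (θ - s)) := by
  have h2 := fa5_int hT hB (show 0 < t by linarith) (show t < 2 * T by linarith) θ
  refine (h2.norm.const_mul (8 / T)).mono' ?_ ?_
  · exact ((measurable_deriv _).mul
      (hB.cont.comp (continuous_const.sub continuous_id)).measurable).aestronglyMeasurable
  · refine Eventually.of_forall fun s => ?_
    rw [norm_mul, norm_mul, ← mul_assoc]
    refine mul_le_mul_of_nonneg_right ?_ (norm_nonneg _)
    rw [Real.norm_eq_abs, Real.norm_eq_abs,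
      abs_of_pos (pk_pos hT (show 0 < t by linarith) (show t < 2 * T by linarith) s)]
    exact (pk_deriv_le hT h0 h1 s).2

private lemma fa5_deriv_eq {T L : ℝ} {B : ℝ → ℝ} (hT : 0 < T) (hB : QP L B) {t : ℝ}
    (h0 : T / 2 ≤ t) (h1 : t ≤ T) (θ : ℝ) :
    deriv (lam T B t) θ = ∫ s, deriv (pk T t) s * B (θ - s) := by
  rw [(lam_hasDerivAt_theta' hT hB h0 h1 θ).deriv, ← integral_sub_left_eq_self _ _ θ]
  refine integral_congr_ae (Eventually.of_forall fun s => ?_)
  simp only [sub_sub_cancel]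

lemma lam_deriv2 {T L : ℝ} {B : ℝ → ℝ} (hT : 0 < T) (hB : QP L B) {t : ℝ}
    (h0 : T / 2 ≤ t) (h1 : t ≤ T) (θ : ℝ) :
    DifferentiableAt ℝ (deriv (lam T B t)) θ ∧
      |deriv (deriv (lam T B t)) θ| ≤ 8 / T * deriv (lam T B t) θ := by
  have ht0 : 0 < t := by linarith
  have ht1 : t < 2 * T := by linarith
  have hdiff : DifferentiableAt ℝ (deriv (lam T B t)) θ := by
    have e : deriv (lam T B t) = fun θ : ℝ => (deriv (LcF T B) (θ - t * I)).im := by
      funext θ
      exact (lam_hasDerivAt_theta hT hB ht0 ht1 θ).deriv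
    rw [e]
    have hopen : IsOpen {ζ : ℂ | -(2 * T) < ζ.im ∧ ζ.im < 0} :=
      (isOpen_lt continuous_const continuous_im).inter (isOpen_lt continuous_im continuous_const)
    have hmem : ((θ : ℂ) - t * I) ∈ {ζ : ℂ | -(2 * T) < ζ.im ∧ ζ.im < 0} := by
      constructor <;> simp <;> linarith
    have h2 : DifferentiableAt ℂ (deriv (LcF T B)) ((θ : ℂ) - t * I) :=
      ((LcF_diff hT hB).deriv hopen).differentiableAt (hopen.mem_nhds hmem)
    have h3 : DifferentiableAt ℝ (fun θ : ℝ => (θ : ℂ) - t * I) θ :=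
      (Complex.ofRealCLM.differentiableAt).sub_const _
    have h4 : DifferentiableAt ℝ ((deriv (LcF T B)) ∘ (fun θ : ℝ => (θ : ℂ) - t * I)) θ :=
      DifferentiableAt.comp θ (h2.restrictScalars ℝ) h3
    exact Complex.imCLM.differentiableAt.comp θ h4
  refine ⟨hdiff, ?_⟩
  have key : ∀ δ > 0, |deriv (lam T B t) (θ + δ) - deriv (lam T B t) θ| ≤
      8 / T * (lam T B t (θ + δ) - lam T B t θ) := by
    intro δ hδ
    obtain ⟨i1, e1⟩ := fa5_diff hT hB ht0 ht1 (θ + δ) θ
    have i2 := fa5_dint hT hB h0 h1 (θ + δ)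
    have i3 := fa5_dint hT hB h0 h1 θ
    rw [fa5_deriv_eq hT hB h0 h1, fa5_deriv_eq hT hB h0 h1, ← integral_sub i2 i3, e1,
      ← MeasureTheory.integral_const_mul, ← Real.norm_eq_abs]
    refine norm_integral_le_of_norm_le (i1.const_mul _) (Eventually.of_forall fun s => ?_)
    rw [← mul_sub, norm_mul, ← mul_assoc]
    have hnn : 0 ≤ B (θ + δ - s) - B (θ - s) := sub_nonneg.mpr (hB.mono (by linarith))
    rw [Real.norm_eq_abs, Real.norm_eq_abs, abs_of_nonneg hnn]
    exact mul_le_mul_of_nonneg_right (pk_deriv_le hT h0 h1 s).2 hnn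
  have t1 := (hdiff.hasDerivAt.tendsto_slope_zero_right).abs
  have t2 := (((lam_hasDerivAt_theta hT hB ht0 ht1 θ).differentiableAt.hasDerivAt
    ).tendsto_slope_zero_right).const_mul (8 / T)
  refine le_of_tendsto_of_tendsto t1 t2 ?_
  filter_upwards [self_mem_nhdsWithin] with δ hδ
  have hδ' : (0 : ℝ) < δ := hδ
  simp only [smul_eq_mul]
  rw [abs_mul, abs_of_pos (inv_pos.mpr hδ'), mul_left_comm]
  exact mul_le_mul_of_nonneg_left (key δ hδ') (inv_pos.mpr hδ').le

private lemma fa5_antitone {T t : ℝ} (hT : 0 < T) (h0 : 0 < t) (h1 : t < 2 * T) :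
    AntitoneOn (pk T t) (Ioi 0) := by
  intro s hs s' hs' hss
  have hs0 : (0 : ℝ) < s := hs
  have hd1 := pk_den_pos hT h0 h1 s
  have hd2 := pk_den_pos hT h0 h1 s'
  have ha0 : 0 < Real.pi * t / (2 * T) := by positivity
  have ha1 : Real.pi * t / (2 * T) < Real.pi := by
    rw [div_lt_iff₀ (by positivity)]
    exact mul_lt_mul_of_pos_left h1 Real.pi_pos
  have hsin := Real.sin_pos_of_pos_of_lt_pi ha0 ha1
  have hu : Real.cosh (Real.pi * s / (2 * T)) ≤ Real.cosh (Real.pi * s' / (2 * T)) := by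
    rw [Real.cosh_le_cosh]
    rw [abs_of_pos (by positivity), abs_of_pos (div_pos (mul_pos Real.pi_pos (hs0.trans_le hss))
      (by positivity))]
    exact div_le_div_of_nonneg_right (mul_le_mul_of_nonneg_left hss Real.pi_pos.le) (by positivity)
  have hc1 := Real.cosh_pos (Real.pi * s / (2 * T))
  have hc2 := Real.cosh_pos (Real.pi * s' / (2 * T))
  unfold pk
  set u := Real.cosh (Real.pi * s / (2 * T))
  set v := Real.cosh (Real.pi * s' / (2 * T))
  set c := Real.cos (Real.pi * t / (2 * T))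
  set S := Real.sin (Real.pi * t / (2 * T))
  rw [div_le_div_iff₀ hd2 hd1]
  have h3 : v * (u ^ 2 - c ^ 2) ≤ u * (v ^ 2 - c ^ 2) := by
    nlinarith [mul_nonneg (sub_nonneg.mpr hu) (mul_pos hc1 hc2).le,
      mul_nonneg (sub_nonneg.mpr hu) (sq_nonneg c)]
  have h4 : 0 ≤ 1 / (2 * T) * S := by positivity
  have h5 := mul_le_mul_of_nonneg_left h3 h4
  calc _ = 1 / (2 * T) * S * (v * (u ^ 2 - c ^ 2)) := by ring
    _ ≤ 1 / (2 * T) * S * (u * (v ^ 2 - c ^ 2)) := h5
    _ = _ := by ring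

private lemma fa5_deriv_nonpos {T t : ℝ} (hT : 0 < T) (h0 : 0 < t) (h1 : t < 2 * T) {s : ℝ}
    (hs : 0 < s) : deriv (pk T t) s ≤ 0 := by
  have h := (fa5_antitone hT h0 h1).derivWithin_nonpos (x := s)
  rwa [derivWithin_of_isOpen isOpen_Ioi hs] at h

private lemma fa5_deriv_odd {T t : ℝ} (s : ℝ) : deriv (pk T t) (-s) = - deriv (pk T t) s := by
  have h : (fun s => pk T t (-s)) = pk T t := by
    funext s
    exact pk_even T t s
  have h2 := deriv_comp_neg (pk T t) s
  rw [h] at h2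
  linarith

private lemma fa5_split {f : ℝ → ℝ} (hf : Integrable f) :
    ∫ s, f s = ∫ s in Ioi (0 : ℝ), (f s + f (-s)) := by
  have h1 : ∫ s, f s = (∫ s in Iic (0 : ℝ), f s) + ∫ s in Ioi (0 : ℝ), f s :=
    (integral_Iic_add_Ioi hf.integrableOn hf.integrableOn).symm
  have h2 : ∫ s in Iic (0 : ℝ), f s = ∫ s in Ioi (0 : ℝ), f (-s) := by
    have := integral_comp_neg_Ioi (0 : ℝ) f
    rw [neg_zero] at this
    exact this.symm
  rw [h1, h2, integral_add hf.integrableOn hf.comp_neg.integrableOn, add_comm]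

private lemma fa5_tail_eq {T t : ℝ} (hT : 0 < T) (h0 : T / 2 ≤ t) (h1 : t ≤ T) (r : ℝ) :
    IntegrableOn (deriv (pk T t)) (Ioi r) ∧ ∫ s in Ioi r, deriv (pk T t) s = - pk T t r := by
  have ht0 : 0 < t := by linarith
  have ht1 : t < 2 * T := by linarith
  have hi : Integrable (deriv (pk T t)) := by
    refine ((pk_integral hT ht0 ht1).1.const_mul (8 / T)).mono'
      (measurable_deriv _).aestronglyMeasurable (Eventually.of_forall fun s => ?_)
    rw [Real.norm_eq_abs]
    exact (pk_deriv_le hT h0 h1 s).2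
  refine ⟨hi.integrableOn, ?_⟩
  obtain ⟨C, hC⟩ := pk_le_exp hT ht0 h1
  have hlim : Tendsto (pk T t) atTop (𝓝 0) := by
    have hz : Tendsto (fun s : ℝ => C * Real.exp (-(Real.pi * |s| / (2 * T)))) atTop (𝓝 0) := by
      have h5 : Tendsto (fun s : ℝ => Real.pi * |s| / (2 * T)) atTop atTop := by
        have : Tendsto (fun s : ℝ => Real.pi / (2 * T) * |s|) atTop atTop :=
          (tendsto_abs_atTop_atTop).const_mul_atTop (by positivity)
        refine this.congr fun s => ?_
        ring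
      have h6 := (Real.tendsto_exp_neg_atTop_nhds_zero.comp h5).const_mul C
      rw [mul_zero] at h6
      exact h6
    refine squeeze_zero (fun s => (pk_pos hT ht0 ht1 s).le) (fun s => ?_) hz
    exact hC t ⟨le_rfl, by linarith⟩ s
  have h := integral_Ioi_of_hasDerivAt_of_tendsto (f := pk T t) (f' := deriv (pk T t)) (a := r)
    (pk_continuous hT ht0 ht1).continuousWithinAt
    (fun s _ => (pk_deriv_le hT h0 h1 s).1.hasDerivAt) hi.integrableOn hlim
  rw [h]
  ring

private lemma fa5_dom {T t : ℝ} (hT : 0 < T) (h0 : T / 2 ≤ t) (h1 : t ≤ T) {W : ℝ → ℝ}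
    (hW : Continuous W) (hm : Monotone W) (hW0 : W 0 = 0)
    (hi1 : IntegrableOn (fun s => pk T t s * W s) (Ioi 0))
    (hi2 : IntegrableOn (fun s => deriv (pk T t) s * W s) (Ioi 0)) :
    ∫ s in Ioi 0, pk T t s * W s ≤ 4 * T * ∫ s in Ioi 0, -(deriv (pk T t) s) * W s := by
  have ht0 : 0 < t := by linarith
  have ht1 : t < 2 * T := by linarith
  set R0 : Measure ℝ := volume.restrict (Ioi 0) with hR
  set μ : Measure ℝ := R0.withDensity (fun s => ENNReal.ofReal (pk T t s)) with hμ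
  set ν : Measure ℝ := R0.withDensity (fun s => ENNReal.ofReal (4 * T * -(deriv (pk T t) s)))
    with hν
  have hmp : Measurable (fun s => ENNReal.ofReal (pk T t s)) :=
    (pk_continuous hT ht0 ht1).measurable.ennreal_ofReal
  have hmd : Measurable (fun s => ENNReal.ofReal (4 * T * -(deriv (pk T t) s))) :=
    ((measurable_deriv _).neg.const_mul _).ennreal_ofReal
  have hWnn : ∀ s ∈ Ioi (0 : ℝ), 0 ≤ W s := fun s hs => by
    rw [← hW0]
    exact hm (le_of_lt hs)
  have hac1 : ∀ᵐ s ∂μ, 0 ≤ W s := by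
    refine (withDensity_absolutelyContinuous R0 _).ae_le ?_
    exact (ae_restrict_iff' measurableSet_Ioi).mpr (Eventually.of_forall hWnn)
  have hac2 : ∀ᵐ s ∂ν, 0 ≤ W s := by
    refine (withDensity_absolutelyContinuous R0 _).ae_le ?_
    exact (ae_restrict_iff' measurableSet_Ioi).mpr (Eventually.of_forall hWnn)
  have hIoi : ∀ r, 0 ≤ r → μ (Ioi r) ≤ ν (Ioi r) := by
    intro r hr
    have hsub : Ioi r ∩ Ioi (0 : ℝ) = Ioi r := by
      rw [Ioi_inter_Ioi, sup_eq_left.mpr hr]
    rw [hμ, hν, withDensity_apply _ measurableSet_Ioi, withDensity_apply _ measurableSet_Ioi, hR,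
      Measure.restrict_restrict measurableSet_Ioi, hsub]
    obtain ⟨i3, e3⟩ := fa5_tail_eq hT h0 h1 r
    have i4 : IntegrableOn (fun s => 4 * T * -(deriv (pk T t) s)) (Ioi r) := i3.neg.const_mul _
    rw [← ofReal_integral_eq_lintegral_ofReal (pk_integral hT ht0 ht1).1.integrableOn
        (Eventually.of_forall fun s => (pk_pos hT ht0 ht1 s).le),
      ← ofReal_integral_eq_lintegral_ofReal i4]
    · apply ENNReal.ofReal_le_ofReal
      rw [MeasureTheory.integral_const_mul, MeasureTheory.integral_neg, e3, neg_neg]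
      exact pk_tail_le hT h0 h1 r hr
    · refine (ae_restrict_iff' measurableSet_Ioi).mpr (Eventually.of_forall fun s hs => ?_)
      have := fa5_deriv_nonpos hT ht0 ht1 (lt_of_le_of_lt hr hs)
      simp only [Pi.zero_apply]
      have h4 : 0 ≤ -(deriv (pk T t) s) := by linarith
      positivity
  have hset : ∀ y > 0, μ {s | y < W s} ≤ ν {s | y < W s} := by
    intro y hy
    have hup : ∀ s s', y < W s → s ≤ s' → y < W s' := fun s s' h hs => h.trans_le (hm hs)
    have hopen : IsOpen {s | y < W s} := isOpen_lt continuous_const hW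
    rcases Set.eq_empty_or_nonempty {s | y < W s} with he | hne
    · rw [he]; simp
    · have hbd : ∀ s ∈ {s | y < W s}, 0 ≤ s := by
        intro s hs
        by_contra hneg
        push Not at hneg
        have : W s ≤ W 0 := hm hneg.le
        rw [hW0] at this
        exact absurd (lt_of_lt_of_le hs this) (not_lt.mpr hy.le)
      set r := sInf {s | y < W s} with hr
      have hbb : BddBelow {s | y < W s} := ⟨0, hbd⟩
      have hr0 : 0 ≤ r := le_csInf hne hbd
      have heq : {s | y < W s} = Ioi r := by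
        ext s
        constructor
        · intro hs
          obtain ⟨ε, hε, hball⟩ := Metric.isOpen_iff.mp hopen s hs
          have h5 : s - ε / 2 ∈ {s | y < W s} := by
            apply hball
            rw [Metric.mem_ball, Real.dist_eq]
            rw [show s - ε / 2 - s = -(ε / 2) by ring, abs_neg, abs_of_pos (by positivity)]
            linarith
          have h6 := csInf_le hbb h5
          show r < s
          linarith
        · intro hs
          obtain ⟨s', hs', hlt⟩ := exists_lt_of_csInf_lt hne hs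
          exact hup s' s hs' hlt.le
      rw [heq]
      exact hIoi r hr0
  have hcake : ∫⁻ s, ENNReal.ofReal (W s) ∂μ ≤ ∫⁻ s, ENNReal.ofReal (W s) ∂ν := by
    rw [lintegral_eq_lintegral_meas_lt μ hac1 hW.measurable.aemeasurable,
      lintegral_eq_lintegral_meas_lt ν hac2 hW.measurable.aemeasurable]
    refine setLIntegral_mono' measurableSet_Ioi fun y hy => hset y hy
  rw [hμ, hν, lintegral_withDensity_eq_lintegral_mul _ hmp hW.measurable.ennreal_ofReal,
    lintegral_withDensity_eq_lintegral_mul _ hmd hW.measurable.ennreal_ofReal] at hcake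
  have c1 : ∫⁻ s, ((fun s => ENNReal.ofReal (pk T t s)) * fun s => ENNReal.ofReal (W s)) s ∂(R0) =
      ENNReal.ofReal (∫ s in Ioi 0, pk T t s * W s) := by
    rw [ofReal_integral_eq_lintegral_ofReal hi1]
    · refine lintegral_congr fun s => ?_
      simp only [Pi.mul_apply]
      rw [ENNReal.ofReal_mul (pk_pos hT ht0 ht1 s).le]
    · refine (ae_restrict_iff' measurableSet_Ioi).mpr (Eventually.of_forall fun s hs => ?_)
      exact mul_nonneg (pk_pos hT ht0 ht1 s).le (hWnn s hs)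
  have hi3 : IntegrableOn (fun s => 4 * T * (-(deriv (pk T t) s) * W s)) (Ioi 0) := by
    refine (hi2.neg.const_mul (4 * T)).congr (Eventually.of_forall fun s => ?_)
    simp only [Pi.neg_apply]
    ring
  have c2 : ∫⁻ s, ((fun s => ENNReal.ofReal (4 * T * -(deriv (pk T t) s))) *
      fun s => ENNReal.ofReal (W s)) s ∂(R0) =
      ENNReal.ofReal (∫ s in Ioi 0, 4 * T * (-(deriv (pk T t) s) * W s)) := by
    rw [ofReal_integral_eq_lintegral_ofReal hi3]
    · refine setLIntegral_congr_fun measurableSet_Ioi fun s hs => ?_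
      simp only [Pi.mul_apply]
      have h4 : 0 ≤ -(deriv (pk T t) s) := by
        have := fa5_deriv_nonpos hT ht0 ht1 hs
        linarith
      rw [← ENNReal.ofReal_mul (by positivity), mul_assoc]
    · refine (ae_restrict_iff' measurableSet_Ioi).mpr (Eventually.of_forall fun s hs => ?_)
      have h4 : 0 ≤ -(deriv (pk T t) s) := by
        have := fa5_deriv_nonpos hT ht0 ht1 hs
        linarith
      exact mul_nonneg (by positivity) (mul_nonneg h4 (hWnn s hs))
  rw [c1, c2] at hcake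
  rw [← MeasureTheory.integral_const_mul]
  rwa [ENNReal.ofReal_le_ofReal_iff] at hcake
  refine setIntegral_nonneg measurableSet_Ioi fun s hs => ?_
  have h4 : 0 ≤ -(deriv (pk T t) s) := by
    have := fa5_deriv_nonpos hT ht0 ht1 hs
    linarith
  exact mul_nonneg (by positivity) (mul_nonneg h4 (hWnn s hs))

lemma lam_sub_le {T L : ℝ} {B : ℝ → ℝ} (hT : 0 < T) (hB : QP L B) {t : ℝ}
    (h0 : T / 2 ≤ t) (h1 : t ≤ T) (θ : ℝ) :
    |lam T B t θ - B θ| ≤ 4 * T * deriv (lam T B t) θ := by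
  have ht0 : 0 < t := by linarith
  have ht1 : t < 2 * T := by linarith
  have hev : ∀ s, pk T t (-s) = pk T t s := pk_even T t
  have i1 := fa5_int hT hB ht0 ht1 θ
  have i0 := (pk_integral hT ht0 ht1).1.mul_const (B θ)
  have i2 : Integrable (fun s => pk T t s * (B (θ - s) - B θ)) :=
    (i1.sub i0).congr (Eventually.of_forall fun s => by simp only [Pi.sub_apply]; ring)
  have e1 : lam T B t θ - B θ = ∫ s, pk T t s * (B (θ - s) - B θ) := by
    have h2 : B θ = ∫ s, pk T t s * B θ := by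
      rw [MeasureTheory.integral_mul_const, (pk_integral hT ht0 ht1).2, one_mul]
    conv_lhs => rw [h2]
    unfold lam
    rw [← integral_sub i1 i0]
    refine integral_congr_ae (Eventually.of_forall fun s => ?_)
    simp only
    ring
  have e2 : deriv (lam T B t) θ =
      ∫ s in Ioi (0 : ℝ), -(deriv (pk T t) s) * (B (θ + s) - B (θ - s)) := by
    rw [fa5_deriv_eq hT hB h0 h1, fa5_split (fa5_dint hT hB h0 h1 θ)]
    refine setIntegral_congr_fun measurableSet_Ioi fun s _ => ?_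
    rw [fa5_deriv_odd, sub_neg_eq_add]
    ring
  have i4 : Integrable (fun s => pk T t s * B (θ + s)) := by
    refine i1.comp_neg.congr (Eventually.of_forall fun s => ?_)
    simp only
    rw [hev, sub_neg_eq_add]
  have i5 : Integrable (fun s => pk T t s * (B (θ + s) - B (θ - s))) :=
    (i4.sub i1).congr (Eventually.of_forall fun s => by simp only [Pi.sub_apply]; ring)
  have i6 : Integrable (fun s => deriv (pk T t) s * (B (θ + s) - B (θ - s))) := by
    have i7 := fa5_dint hT hB h0 h1 θ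
    have i8 : Integrable (fun s => deriv (pk T t) s * B (θ + s)) := by
      refine i7.comp_neg.neg.congr (Eventually.of_forall fun s => ?_)
      simp only [Pi.neg_apply]
      rw [fa5_deriv_odd, sub_neg_eq_add]
      ring
    exact (i8.sub i7).congr (Eventually.of_forall fun s => by simp only [Pi.sub_apply]; ring)
  have hdom := fa5_dom hT h0 h1 (W := fun s => B (θ + s) - B (θ - s))
    ((hB.cont.comp (continuous_const.add continuous_id)).sub
      (hB.cont.comp (continuous_const.sub continuous_id)))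
    (fun s s' hs => by
      have a1 : B (θ + s) ≤ B (θ + s') := hB.mono (by linarith)
      have a2 : B (θ - s') ≤ B (θ - s) := hB.mono (by linarith)
      simp only
      linarith)
    (by simp) i5.integrableOn i6.integrableOn
  rw [e2]
  refine le_trans ?_ hdom
  rw [e1, fa5_split i2, ← Real.norm_eq_abs]
  refine norm_integral_le_of_norm_le i5.integrableOn ?_
  refine (ae_restrict_iff' measurableSet_Ioi).mpr (Eventually.of_forall fun s hs => ?_)
  have hs0 : (0 : ℝ) < s := hs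
  have hp := pk_pos hT ht0 ht1 s
  have a1 : B θ ≤ B (θ + s) := hB.mono (by linarith)
  have a2 : B (θ - s) ≤ B θ := hB.mono (by linarith)
  rw [hev, sub_neg_eq_add, ← mul_add, Real.norm_eq_abs, abs_mul, abs_of_pos hp]
  refine mul_le_mul_of_nonneg_left ?_ hp.le
  rw [abs_le]
  constructor <;> linarith

end CF6

end

section

/-! # Module F of MP_cf6b16_an, row FC1 : the McShane function on good lines

f t theta := inf over n and chains x_0,...,x_n in Tg x Thg (consecutive points on a common line) with x_n = (t,theta) of B (x 0).2 + int_0^{(x 0).1} mt + sum segCost. Bounded below by P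
(B(x_0)+cost >= B(theta) - int_0^t mt(.,theta)), chain of length 0 gives the upper bound; adding one point to a chain gives the Lipschitz estimates (segCost = int of the right density: if both coordinates agree the integral is 0);
translation of chains by (0,2pi) gives the quasi-periodicity (mt, mth periodic, B(.+2pi) = B + L).
-/

open Complex MeasureTheory Set Filter Topology Metric intervalIntegral
open scoped ENNReal

namespace CF6

/-- chains in the good set -/
def FC1Ch (Tg Θg : Set ℝ) (n : ℕ) (x : ℕ → ℝ × ℝ) : Prop :=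
  (∀ i ≤ n, (x i).1 ∈ Tg ∧ (x i).2 ∈ Θg) ∧
    ∀ i < n, (x i).1 = (x (i + 1)).1 ∨ (x i).2 = (x (i + 1)).2

/-- value of a chain -/
noncomputable def FC1V (B : ℝ → ℝ) (mt mθ : ℝ → ℝ → ℝ) (n : ℕ) (x : ℕ → ℝ × ℝ) : ℝ :=
  B (x 0).2 + (∫ t in (0 : ℝ)..(x 0).1, mt t (x 0).2) +
    ∑ i ∈ Finset.range n, segCost mt mθ (x i) (x (i + 1))

/-- values of the chains which end at `p` -/
def FC1S (B : ℝ → ℝ) (mt mθ : ℝ → ℝ → ℝ) (Tg Θg : Set ℝ) (p : ℝ × ℝ) : Set ℝ :=
  {v | ∃ (n : ℕ) (x : ℕ → ℝ × ℝ), FC1Ch Tg Θg n x ∧ x n = p ∧ v = FC1V B mt mθ n x}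

theorem FC1_append {B : ℝ → ℝ} {mt mθ : ℝ → ℝ → ℝ} {Tg Θg : Set ℝ} {p q : ℝ × ℝ}
    (hq : q.1 ∈ Tg ∧ q.2 ∈ Θg) (hpq : p.1 = q.1 ∨ p.2 = q.2) {v : ℝ}
    (hv : v ∈ FC1S B mt mθ Tg Θg p) : v + segCost mt mθ p q ∈ FC1S B mt mθ Tg Θg q := by
  obtain ⟨n, x, hx, hxn, rfl⟩ := hv
  refine ⟨n + 1, fun i => if i ≤ n then x i else q, ⟨?_, ?_⟩, ?_, ?_⟩
  · intro i hi
    by_cases h : i ≤ n
    · simp only [if_pos h]; exact hx.1 i h
    · simp only [if_neg h]; exact hq
  · intro i hi
    have h : i ≤ n := by omega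
    by_cases h2 : i + 1 ≤ n
    · simp only [if_pos h, if_pos h2]; exact hx.2 i (by omega)
    · have h3 : i = n := by omega
      subst h3
      simp only [if_pos h, if_neg h2]
      rw [hxn]; exact hpq
  · have h : ¬ (n + 1 ≤ n) := by omega
    simp only [if_neg h]
  · have h0 : (0 : ℕ) ≤ n := Nat.zero_le n
    have hn1 : ¬ (n + 1 ≤ n) := by omega
    simp only [FC1V, Finset.sum_range_succ, if_pos h0, if_pos le_rfl, if_neg hn1]
    have hs : ∑ i ∈ Finset.range n, segCost mt mθ (if i ≤ n then x i else q)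
        (if i + 1 ≤ n then x (i + 1) else q) =
        ∑ i ∈ Finset.range n, segCost mt mθ (x i) (x (i + 1)) := by
      refine Finset.sum_congr rfl (fun i hi => ?_)
      have hi' := Finset.mem_range.1 hi
      rw [if_pos (by omega : i ≤ n), if_pos (by omega : i + 1 ≤ n)]
    rw [hs, hxn]
    ring

theorem FC1_zero_mem {B : ℝ → ℝ} {mt mθ : ℝ → ℝ → ℝ} {Tg Θg : Set ℝ} {p : ℝ × ℝ}
    (hp : p.1 ∈ Tg ∧ p.2 ∈ Θg) :
    B p.2 + (∫ t in (0 : ℝ)..p.1, mt t p.2) ∈ FC1S B mt mθ Tg Θg p := by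
  refine ⟨0, fun _ => p, ⟨fun i _ => hp, fun i _ => Or.inl rfl⟩, rfl, ?_⟩
  simp [FC1V]

theorem FC1_trans {B : ℝ → ℝ} {mt mθ : ℝ → ℝ → ℝ} {Tg Θg : Set ℝ} {c L : ℝ}
    (hmt : ∀ t θ, mt t (θ + c) = mt t θ) (hmθ : ∀ t θ, mθ t (θ + c) = mθ t θ)
    (hΘ : ∀ θ ∈ Θg, θ + c ∈ Θg) (hB : ∀ θ, B (θ + c) = B θ + L) {p : ℝ × ℝ} {v : ℝ}
    (hv : v ∈ FC1S B mt mθ Tg Θg p) : v + L ∈ FC1S B mt mθ Tg Θg (p.1, p.2 + c) := by
  obtain ⟨n, x, hx, hxn, rfl⟩ := hv
  refine ⟨n, fun i => ((x i).1, (x i).2 + c), ⟨?_, ?_⟩, ?_, ?_⟩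
  · intro i hi
    exact ⟨(hx.1 i hi).1, hΘ _ (hx.1 i hi).2⟩
  · intro i hi
    rcases hx.2 i hi with h | h
    · exact Or.inl h
    · exact Or.inr (by simp only [h])
  · simp only [hxn]
  · have hseg : ∀ a b : ℝ × ℝ, segCost mt mθ (a.1, a.2 + c) (b.1, b.2 + c) =
        segCost mt mθ a b := by
      intro a b
      unfold segCost
      by_cases h : a.2 = b.2
      · rw [if_pos (by simp only [h]), if_pos h]
        simp only [hmt]
      · rw [if_neg (by simpa using h), if_neg h]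
        have h1 : ∫ θ in (a.2 + c)..(b.2 + c), mθ a.1 θ = ∫ θ in a.2..b.2, mθ a.1 (θ + c) := by
          rw [intervalIntegral.integral_comp_add_right (fun θ => mθ a.1 θ) c]
        simp only [h1, hmθ]
    simp only [FC1V, hseg, hB, hmt]
    ring

theorem mcshane {T L : ℝ} {B : ℝ → ℝ} (hB : QP L B) (mt mθ : ℝ → ℝ → ℝ)
    (mt0 : ∀ t θ, 0 ≤ mt t θ) (mθ0 : ∀ t θ, 0 ≤ mθ t θ)
    (mtp : ∀ t θ, mt t (θ + 2 * Real.pi) = mt t θ) (mθp : ∀ t θ, mθ t (θ + 2 * Real.pi) = mθ t θ)
    (Tg Θg : Set ℝ) (pΘ : ∀ θ, θ ∈ Θg ↔ θ + 2 * Real.pi ∈ Θg)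
    (P : ∀ (n : ℕ) (x : ℕ → ℝ × ℝ), (∀ i ≤ n, (x i).1 ∈ Tg ∧ (x i).2 ∈ Θg) →
      (∀ i < n, (x i).1 = (x (i + 1)).1 ∨ (x i).2 = (x (i + 1)).2) →
      |B (x n).2 - B (x 0).2| ≤ (∫ t in (0 : ℝ)..(x 0).1, mt t (x 0).2) +
        (∑ i ∈ Finset.range n, segCost mt mθ (x i) (x (i + 1))) +
        ∫ t in (0 : ℝ)..(x n).1, mt t (x n).2) :
    ∃ f : ℝ → ℝ → ℝ,
      (∀ t ∈ Tg, ∀ x ∈ Θg, ∀ y ∈ Θg, x ≤ y → |f t y - f t x| ≤ ∫ s in x..y, mθ t s) ∧
      (∀ θ ∈ Θg, ∀ x ∈ Tg, ∀ y ∈ Tg, x ≤ y → |f y θ - f x θ| ≤ ∫ s in x..y, mt s θ) ∧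
      (∀ θ ∈ Θg, ∀ x ∈ Tg, |f x θ - B θ| ≤ ∫ s in (0 : ℝ)..x, mt s θ) ∧
      (∀ t ∈ Tg, ∀ x ∈ Θg, f t (x + 2 * Real.pi) = f t x + L) := by
  -- lower bound for the values
  have hlow : ∀ p : ℝ × ℝ, ∀ v ∈ FC1S B mt mθ Tg Θg p,
      B p.2 - (∫ t in (0 : ℝ)..p.1, mt t p.2) ≤ v := by
    rintro p v ⟨n, x, hx, rfl, rfl⟩
    have h1 := P n x hx.1 hx.2
    have h2 := le_abs_self (B (x n).2 - B (x 0).2)
    rw [FC1V]
    linarith
  have hbdd : ∀ p : ℝ × ℝ, BddBelow (FC1S B mt mθ Tg Θg p) := fun p => ⟨_, fun v hv => hlow p v hv⟩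
  have hstep : ∀ p q : ℝ × ℝ, (p.1 ∈ Tg ∧ p.2 ∈ Θg) → (q.1 ∈ Tg ∧ q.2 ∈ Θg) →
      (p.1 = q.1 ∨ p.2 = q.2) →
      sInf (FC1S B mt mθ Tg Θg q) ≤ sInf (FC1S B mt mθ Tg Θg p) + segCost mt mθ p q := by
    intro p q hp hq hpq
    have h1 : sInf (FC1S B mt mθ Tg Θg q) - segCost mt mθ p q ≤
        sInf (FC1S B mt mθ Tg Θg p) := by
      refine le_csInf ⟨_, FC1_zero_mem hp⟩ (fun v hv => ?_)
      have h2 := csInf_le (hbdd q) (FC1_append hq hpq hv)
      linarith
    linarith
  have htrans : ∀ (c L' : ℝ), (∀ t θ, mt t (θ + c) = mt t θ) → (∀ t θ, mθ t (θ + c) = mθ t θ) →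
      (∀ θ ∈ Θg, θ + c ∈ Θg) → (∀ θ, B (θ + c) = B θ + L') → ∀ p : ℝ × ℝ,
      (p.1 ∈ Tg ∧ p.2 ∈ Θg) →
      sInf (FC1S B mt mθ Tg Θg (p.1, p.2 + c)) ≤ sInf (FC1S B mt mθ Tg Θg p) + L' := by
    intro c L' h1 h2 h3 h4 p hp
    have h5 : sInf (FC1S B mt mθ Tg Θg (p.1, p.2 + c)) - L' ≤ sInf (FC1S B mt mθ Tg Θg p) := by
      refine le_csInf ⟨_, FC1_zero_mem hp⟩ (fun v hv => ?_)
      have h6 := csInf_le (hbdd (p.1, p.2 + c)) (FC1_trans h1 h2 h3 h4 hv)
      linarith
    linarith
  refine ⟨fun t θ => sInf (FC1S B mt mθ Tg Θg (t, θ)), ?_, ?_, ?_, ?_⟩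
  · intro t ht x hx y hy hxy
    rcases eq_or_lt_of_le hxy with rfl | hlt
    · simp
    have h1 := hstep (t, x) (t, y) ⟨ht, hx⟩ ⟨ht, hy⟩ (Or.inl rfl)
    have h2 := hstep (t, y) (t, x) ⟨ht, hy⟩ ⟨ht, hx⟩ (Or.inl rfl)
    have hnn : 0 ≤ ∫ s in x..y, mθ t s :=
      intervalIntegral.integral_nonneg hxy (fun s _ => mθ0 t s)
    have e1 : segCost mt mθ (t, x) (t, y) = ∫ s in x..y, mθ t s := by
      unfold segCost
      rw [if_neg (by simpa using hlt.ne)]
      exact abs_of_nonneg hnn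
    have e2 : segCost mt mθ (t, y) (t, x) = ∫ s in x..y, mθ t s := by
      unfold segCost
      rw [if_neg (by simpa using hlt.ne')]
      simp only
      rw [intervalIntegral.integral_symm, abs_neg, abs_of_nonneg hnn]
    rw [e1] at h1
    rw [e2] at h2
    rw [abs_le]
    constructor <;> linarith
  · intro θ hθ x hx y hy hxy
    have h1 := hstep (x, θ) (y, θ) ⟨hx, hθ⟩ ⟨hy, hθ⟩ (Or.inr rfl)
    have h2 := hstep (y, θ) (x, θ) ⟨hy, hθ⟩ ⟨hx, hθ⟩ (Or.inr rfl)
    have hnn : 0 ≤ ∫ s in x..y, mt s θ :=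
      intervalIntegral.integral_nonneg hxy (fun s _ => mt0 s θ)
    have e1 : segCost mt mθ (x, θ) (y, θ) = ∫ s in x..y, mt s θ := by
      unfold segCost
      rw [if_pos rfl]
      exact abs_of_nonneg hnn
    have e2 : segCost mt mθ (y, θ) (x, θ) = ∫ s in x..y, mt s θ := by
      unfold segCost
      rw [if_pos rfl]
      simp only
      rw [intervalIntegral.integral_symm, abs_neg, abs_of_nonneg hnn]
    rw [e1] at h1
    rw [e2] at h2
    rw [abs_le]
    constructor <;> linarith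
  · intro θ hθ x hx
    have h1 := csInf_le (hbdd (x, θ)) (FC1_zero_mem (B := B) (mt := mt) (mθ := mθ)
      (Tg := Tg) (Θg := Θg) (p := (x, θ)) ⟨hx, hθ⟩)
    have h2 : B θ - (∫ s in (0 : ℝ)..x, mt s θ) ≤ sInf (FC1S B mt mθ Tg Θg (x, θ)) :=
      le_csInf ⟨_, FC1_zero_mem (p := (x, θ)) ⟨hx, hθ⟩⟩ (fun v hv => hlow (x, θ) v hv)
    rw [abs_le]
    simp only at h1
    constructor <;> linarith
  · intro t ht x hx
    have h1 := htrans (2 * Real.pi) L mtp mθp (fun θ hθ => (pΘ θ).1 hθ) hB.per (t, x) ⟨ht, hx⟩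
    have hx2 : x + 2 * Real.pi ∈ Θg := (pΘ x).1 hx
    have h2 := htrans (-(2 * Real.pi)) (-L)
      (fun t θ => by
        have := mtp t (θ + -(2 * Real.pi))
        rw [neg_add_cancel_right] at this
        exact this.symm)
      (fun t θ => by
        have := mθp t (θ + -(2 * Real.pi))
        rw [neg_add_cancel_right] at this
        exact this.symm)
      (fun θ hθ => by
        rw [pΘ, neg_add_cancel_right]; exact hθ)
      (fun θ => by
        have := hB.per (θ + -(2 * Real.pi))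
        rw [neg_add_cancel_right] at this
        linarith) (t, x + 2 * Real.pi) ⟨ht, hx2⟩
    simp only [add_neg_cancel_right] at h2
    simp only at h1
    exact le_antisymm h1 (by linarith)

end CF6

end
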