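import Mathlib
import Pool.Agent.Lib.MP_cf6b16_an.F1
import Pool.Agent.Lib.MP_cf6b16_an.F2

section

/-! # Module F of MP_cf6b16_an, row FB0 : Fourier transform of the kernel

Contour shift: with `ff T m z = exp (i m z) / sinh (π z / (2T))` the integral over the line
`Im z = y` does not depend on `y ∈ (-2T, 0)`, and `pk` is a combination of `ff` on the lines
`Im z = -t` and `Im z = t - 2T`.
-/

open Complex MeasureTheory Set Filter Topology Metric intervalIntegral
open scoped ENNReal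

namespace CF6

private noncomputable def ff (T m : ℝ) (z : ℂ) : ℂ :=
  Complex.exp (I * m * z) / Complex.sinh (Real.pi * z / (2 * T))

private lemma fb_sinh (x y : ℝ) :
    Complex.sinh (x + y * I) = ((Real.sinh x * Real.cos y : ℝ) : ℂ) +
      ((Real.cosh x * Real.sin y : ℝ) : ℂ) * I := by
  rw [Complex.sinh_add, Complex.sinh_mul_I, Complex.cosh_mul_I]
  push_cast
  ring

private lemma fb_sinh_ge (x y : ℝ) :
    Real.cosh x * |Real.sin y| ≤ ‖Complex.sinh (x + y * I)‖ := by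
  have h := Complex.abs_im_le_norm (Complex.sinh (x + y * I))
  rw [fb_sinh] at h ⊢
  simp only [Complex.add_im, Complex.ofReal_im, Complex.mul_im, Complex.ofReal_re, Complex.I_im,
    Complex.I_re, mul_one, mul_zero, add_zero, zero_add] at h
  rw [abs_mul, abs_of_pos (Real.cosh_pos x)] at h
  exact h

private lemma fb_pkT {T : ℝ} (hT : 0 < T) (x : ℝ) :
    pk T T x = 1 / (2 * T) / Real.cosh (Real.pi * x / (2 * T)) := by
  have h1 : Real.pi * T / (2 * T) = Real.pi / 2 := by field_simp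
  have hc := Real.cosh_pos (Real.pi * x / (2 * T))
  unfold pk
  rw [h1, Real.sin_pi_div_two, Real.cos_pi_div_two]
  field_simp
  ring

private lemma fb_arg {T : ℝ} (_ : 0 < T) (x y : ℝ) :
    (Real.pi * ((x : ℂ) + y * I) / (2 * T) : ℂ) =
      ((Real.pi * x / (2 * T) : ℝ) : ℂ) + ((Real.pi * y / (2 * T) : ℝ) : ℂ) * I := by
  push_cast
  ring

private lemma fb_sin_ne {T y : ℝ} (hT : 0 < T) (h0 : -(2 * T) < y) (h1 : y < 0) :
    Real.sin (Real.pi * y / (2 * T)) < 0 := by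
  apply Real.sin_neg_of_neg_of_neg_pi_lt
  · apply div_neg_of_neg_of_pos _ (by positivity)
    nlinarith [Real.pi_pos]
  · rw [lt_div_iff₀ (by positivity)]
    nlinarith [Real.pi_pos]

private lemma fb_norm {T m x y δ : ℝ} (hT : 0 < T) (hδ : 0 < δ)
    (hs : δ ≤ |Real.sin (Real.pi * y / (2 * T))|) (hy : |y| ≤ 2 * T) :
    ‖ff T m (x + y * I)‖ ≤ Real.exp (|m| * (2 * T)) * (2 * T) / δ * pk T T x := by
  have hc := Real.cosh_pos (Real.pi * x / (2 * T))
  unfold ff
  rw [norm_div, fb_arg hT, Complex.norm_exp]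
  have h1 : (I * m * ((x : ℂ) + y * I)).re = -(m * y) := by
    simp [Complex.mul_re, Complex.mul_im]
  rw [h1, fb_pkT hT]
  have h2 : Real.cosh (Real.pi * x / (2 * T)) * δ ≤
      ‖Complex.sinh (((Real.pi * x / (2 * T) : ℝ) : ℂ) + ((Real.pi * y / (2 * T) : ℝ) : ℂ) * I)‖ :=
    (mul_le_mul_of_nonneg_left hs hc.le).trans (fb_sinh_ge _ _)
  have h3 : Real.exp (-(m * y)) ≤ Real.exp (|m| * (2 * T)) := by
    apply Real.exp_le_exp.2
    have : -(m * y) ≤ |m| * |y| := by
      rw [← abs_mul]; exact neg_le_abs _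
    exact this.trans (mul_le_mul_of_nonneg_left hy (abs_nonneg _))
  calc _ ≤ Real.exp (|m| * (2 * T)) / (Real.cosh (Real.pi * x / (2 * T)) * δ) := by
        gcongr
    _ = _ := by
        field_simp

private lemma fb_diff {T m : ℝ} {z : ℂ} (hT : 0 < T) (h0 : -(2 * T) < z.im) (h1 : z.im < 0) :
    DifferentiableAt ℂ (ff T m) z := by
  have hs : Complex.sinh (Real.pi * z / (2 * T)) ≠ 0 := by
    have := fb_sinh_ge (Real.pi * z.re / (2 * T)) (Real.pi * z.im / (2 * T))
    have h2 := fb_arg hT z.re z.im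
    rw [Complex.re_add_im] at h2
    rw [h2]
    intro h
    rw [h, norm_zero] at this
    have hc := Real.cosh_pos (Real.pi * z.re / (2 * T))
    have h3 := abs_pos.2 (fb_sin_ne hT h0 h1).ne
    nlinarith
  unfold ff
  apply DifferentiableAt.div
  · fun_prop
  · fun_prop
  · exact hs

private lemma fb_cont {T m y : ℝ} (hT : 0 < T) (h0 : -(2 * T) < y) (h1 : y < 0) :
    Continuous (fun x : ℝ => ff T m (x + y * I)) := by
  rw [continuous_iff_continuousAt]
  intro x
  have h : ContinuousAt (ff T m) ((x : ℂ) + y * I) := by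
    apply (fb_diff hT _ _).continuousAt <;> simpa
  exact ContinuousAt.comp (f := fun x : ℝ => (x : ℂ) + y * I) h (by fun_prop)

private lemma fb_int {T m y : ℝ} (hT : 0 < T) (h0 : -(2 * T) < y) (h1 : y < 0) :
    Integrable (fun x : ℝ => ff T m (x + y * I)) := by
  have hδ := abs_pos.2 (fb_sin_ne hT h0 h1).ne
  refine Integrable.mono' (((pk_integral hT hT (by linarith : T < 2 * T)).1).const_mul
    (Real.exp (|m| * (2 * T)) * (2 * T) / |Real.sin (Real.pi * y / (2 * T))|))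
    (fb_cont hT h0 h1).aestronglyMeasurable (Eventually.of_forall fun x => ?_)
  exact fb_norm hT hδ le_rfl (by rw [abs_of_neg h1]; linarith)

private lemma fb_shift {T m y1 y2 : ℝ} (hT : 0 < T) (h0 : -(2 * T) < y1) (h1 : y1 < 0)
    (h0' : -(2 * T) < y2) (h1' : y2 < 0) :
    ∫ x : ℝ, ff T m (x + y1 * I) = ∫ x : ℝ, ff T m (x + y2 * I) := by
  have hsub : ∀ y ∈ Set.uIcc y1 y2, -(2 * T) < y ∧ y < 0 := by
    intro y hy
    rw [mem_uIcc] at hy
    rcases hy with hy | hy <;> constructor <;> linarith [hy.1, hy.2]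
  -- uniform lower bound
  obtain ⟨δ, hδ, hδs⟩ : ∃ δ : ℝ, 0 < δ ∧
      ∀ y ∈ Set.uIcc y1 y2, δ ≤ |Real.sin (Real.pi * y / (2 * T))| := by
    obtain ⟨y0, hy0, hmin⟩ := (isCompact_uIcc (a := y1) (b := y2)).exists_isMinOn
      ⟨y1, left_mem_uIcc⟩ (f := fun y : ℝ => |Real.sin (Real.pi * y / (2 * T))|)
      (by fun_prop)
    exact ⟨_, abs_pos.2 (fb_sin_ne hT (hsub y0 hy0).1 (hsub y0 hy0).2).ne, fun y hy => hmin hy⟩
  have hrect : ∀ R : ℝ, (∫ x : ℝ in (-R)..R, ff T m (x + y1 * I)) -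
      (∫ x : ℝ in (-R)..R, ff T m (x + y2 * I)) =
      I • (∫ y : ℝ in y1..y2, ff T m (((-R : ℝ) : ℂ) + y * I)) -
        I • (∫ y : ℝ in y1..y2, ff T m ((R : ℂ) + y * I)) := by
    intro R
    have := Complex.integral_boundary_rect_eq_zero_of_differentiableOn (ff T m)
      (⟨-R, y1⟩ : ℂ) ⟨R, y2⟩ (by
        intro z hz
        apply DifferentiableAt.differentiableWithinAt
        have := hsub z.im hz.2
        exact fb_diff hT this.1 this.2)
    simp only at this
    linear_combination this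
  have hv : ∀ R : ℝ, ‖∫ y : ℝ in y1..y2, ff T m ((R : ℂ) + y * I)‖ ≤
      Real.exp (|m| * (2 * T)) * (2 * T) / δ * pk T T R * |y2 - y1| := by
    intro R
    apply intervalIntegral.norm_integral_le_of_norm_le_const
    intro y hy
    have hy' := uIoc_subset_uIcc hy
    have := hsub y hy'
    exact fb_norm hT hδ (hδs y hy') (by rw [abs_of_neg this.2]; linarith)
  have hpk0 : Tendsto (fun R : ℝ => pk T T R) atTop (𝓝 0) := by
    obtain ⟨C, hC⟩ := pk_le_exp hT hT le_rfl
    have hC' : ∀ s : ℝ, pk T T s ≤ C * Real.exp (-(Real.pi * |s| / (2 * T))) :=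
      fun s => hC T ⟨le_rfl, by linarith⟩ s
    have h2 : Tendsto (fun s : ℝ => C * Real.exp (-(Real.pi * |s| / (2 * T)))) atTop (𝓝 0) := by
      rw [show (0 : ℝ) = C * 0 by ring]
      apply Tendsto.const_mul
      apply Real.tendsto_exp_neg_atTop_nhds_zero.comp
      have : (fun s : ℝ => Real.pi * |s| / (2 * T)) = fun s : ℝ => (Real.pi / (2 * T)) * |s| := by
        ext s; ring
      rw [this]
      exact Tendsto.const_mul_atTop (by positivity) tendsto_abs_atTop_atTop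
    exact squeeze_zero (fun s => (pk_pos hT hT (by linarith) s).le) hC' h2
  have hvt : Tendsto (fun R : ℝ => ∫ y : ℝ in y1..y2, ff T m ((R : ℂ) + y * I)) atTop (𝓝 0) := by
    apply squeeze_zero_norm hv
    have := ((hpk0.const_mul (Real.exp (|m| * (2 * T)) * (2 * T) / δ)).mul_const |y2 - y1|)
    simpa using this
  have hvt' : Tendsto (fun R : ℝ => ∫ y : ℝ in y1..y2, ff T m (((-R : ℝ) : ℂ) + y * I)) atTop
      (𝓝 0) := by
    apply squeeze_zero_norm (a := fun R => Real.exp (|m| * (2 * T)) * (2 * T) / δ *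
      pk T T R * |y2 - y1|)
    · intro R
      have := hv (-R)
      rwa [pk_even] at this
    · have := ((hpk0.const_mul (Real.exp (|m| * (2 * T)) * (2 * T) / δ)).mul_const |y2 - y1|)
      simpa using this
  have hl := intervalIntegral_tendsto_integral (fb_int (m := m) hT h0 h1)
    tendsto_neg_atTop_atBot tendsto_id
  have hl' := intervalIntegral_tendsto_integral (fb_int (m := m) hT h0' h1')
    tendsto_neg_atTop_atBot tendsto_id
  have hd := hl.sub hl'
  have hd0 : Tendsto (fun R : ℝ => I • (∫ y : ℝ in y1..y2, ff T m (((-R : ℝ) : ℂ) + y * I)) -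
        I • (∫ y : ℝ in y1..y2, ff T m ((R : ℂ) + y * I))) atTop (𝓝 0) := by
    have := (hvt'.const_smul I).sub (hvt.const_smul I)
    simpa using this
  have he : (fun R : ℝ => I • (∫ y : ℝ in y1..y2, ff T m (((-R : ℝ) : ℂ) + y * I)) -
        I • (∫ y : ℝ in y1..y2, ff T m ((R : ℂ) + y * I))) = fun R : ℝ =>
      (∫ x : ℝ in (-R)..(id R), ff T m (x + y1 * I)) -
      (∫ x : ℝ in (-R)..(id R), ff T m (x + y2 * I)) := by
    ext R; rw [id, hrect R]
  rw [he] at hd0
  exact sub_eq_zero.1 (tendsto_nhds_unique hd hd0)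

/-- the kernel as a combination of the values of `1 / sinh` -/
private lemma fb_pk {T t : ℝ} (hT : 0 < T) (h0 : 0 < t) (h1 : t < 2 * T) (s : ℝ) :
    (pk T t s : ℂ) = 1 / (4 * T * I) * (1 / Complex.sinh (Real.pi * ((s : ℂ) + (-t : ℝ) * I) /
      (2 * T)) + 1 / Complex.sinh (Real.pi * ((s : ℂ) + (t - 2 * T : ℝ) * I) / (2 * T))) := by
  rw [fb_arg hT, fb_arg hT]
  have e1 : Real.pi * -t / (2 * T) = -(Real.pi * t / (2 * T)) := by ring
  have e2 : Real.pi * (t - 2 * T) / (2 * T) = Real.pi * t / (2 * T) - Real.pi := by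
    field_simp
  rw [e1, e2, fb_sinh, fb_sinh, Real.cos_neg, Real.sin_neg, Real.cos_sub_pi, Real.sin_sub_pi]
  have hden := pk_den_pos hT h0 h1 s
  unfold pk
  set b := Real.pi * s / (2 * T)
  set a := Real.pi * t / (2 * T)
  have hsb : Real.sinh b ^ 2 = Real.cosh b ^ 2 - 1 := by
    have := Real.cosh_sq b; linarith
  have hsa : Real.sin a ^ 2 = 1 - Real.cos a ^ 2 := by
    have := Real.sin_sq_add_cos_sq a; linarith
  have hD : (Real.sinh b * Real.cos a) ^ 2 + (Real.cosh b * Real.sin a) ^ 2 =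
      Real.cosh b ^ 2 - Real.cos a ^ 2 := by
    rw [mul_pow, mul_pow, hsb, hsa]; ring
  set p := Real.sinh b * Real.cos a with hp
  set q := Real.cosh b * Real.sin a with hq
  have hpq : 0 < p ^ 2 + q ^ 2 := by rw [hD]; exact hden
  rw [← hD]
  have n1 : ((p : ℂ) - q * I) ≠ 0 := by
    intro h
    have h2 := congrArg Complex.re h
    have h3 := congrArg Complex.im h
    simp at h2 h3
    rw [h2, h3] at hpq
    norm_num at hpq
  have n2 : ((p : ℂ) + q * I) ≠ 0 := by
    intro h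
    have h2 := congrArg Complex.re h
    have h3 := congrArg Complex.im h
    simp at h2 h3
    rw [h2, h3] at hpq
    norm_num at hpq
  have hTc : (T : ℂ) ≠ 0 := by exact_mod_cast hT.ne'
  have hpqc : ((p : ℂ) ^ 2 + (q : ℂ) ^ 2) ≠ 0 := by exact_mod_cast hpq.ne'
  have hprod : ((p : ℂ) - q * I) * ((p : ℂ) + q * I) = (p : ℂ) ^ 2 + (q : ℂ) ^ 2 := by
    linear_combination -(q : ℂ) ^ 2 * Complex.I_sq
  have hsin : (Real.sin a : ℝ) * Real.cosh b = q := by rw [hq]; ring
  have e3 : ((Real.sinh b * -Real.cos a : ℝ) : ℂ) = -(p : ℂ) := by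
    rw [hp]; push_cast; ring
  have e4 : ((Real.cosh b * -Real.sin a : ℝ) : ℂ) = -(q : ℂ) := by
    rw [hq]; push_cast; ring
  rw [e3, e4, hsin]
  have e5 : (p : ℂ) + -(q : ℂ) * I = (p : ℂ) - q * I := by ring
  have e6 : -(p : ℂ) + -(q : ℂ) * I = -((p : ℂ) + q * I) := by ring
  rw [e5, e6]
  push_cast
  have e7 : (1 : ℂ) / ((p : ℂ) - q * I) + 1 / -((p : ℂ) + q * I) =
      2 * q * I / ((p : ℂ) ^ 2 + (q : ℂ) ^ 2) := by
    rw [← hprod]
    field_simp
    ring
  rw [e7]
  field_simp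
  ring

private lemma fb_const {T : ℝ} (hT : 0 < T) (n : ℕ) :
    ∃ K : ℂ, ∀ t : ℝ, 0 < t → t < 2 * T →
      ((∫ s, pk T t s * Real.cos (n * s) : ℝ) : ℂ) = K * Real.cosh (n * (T - t)) := by
  refine ⟨1 / (4 * T * I) * (Real.exp (-(n * T)) * (∫ x : ℝ, ff T n (x + (-T : ℝ) * I)) +
    Real.exp (n * T) * (∫ x : ℝ, ff T (-n) (x + (-T : ℝ) * I))), fun t h0 h1 => ?_⟩
  have hy1 : -(2 * T) < -t := by linarith
  have hy1' : -t < 0 := by linarith
  have hy2 : -(2 * T) < t - 2 * T := by linarith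
  have hy2' : t - 2 * T < 0 := by linarith
  have hTa : -(2 * T) < -T := by linarith
  have hTb : -T < 0 := by linarith
  have key : ∀ s : ℝ, ((pk T t s * Real.cos (n * s) : ℝ) : ℂ) =
      1 / (4 * T * I) * (1 / 2) * (
        Real.exp (-(n * t)) * ff T n (s + (-t : ℝ) * I) +
        Real.exp (-(n * (2 * T - t))) * ff T n (s + (t - 2 * T : ℝ) * I) +
        Real.exp (n * t) * ff T (-n) (s + (-t : ℝ) * I) +
        Real.exp (n * (2 * T - t)) * ff T (-n) (s + (t - 2 * T : ℝ) * I)) := by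
    intro s
    have hcos : ((Real.cos (n * s) : ℝ) : ℂ) =
        (Complex.exp (I * n * s) + Complex.exp (-(I * n * s))) / 2 := by
      rw [Complex.ofReal_cos, Complex.cos]
      push_cast
      congr 2
      · congr 1; ring
      · congr 1; ring
    have g1 : Complex.exp (I * n * s) = Real.exp (-(n * t)) *
        Complex.exp (I * ((n : ℝ) : ℂ) * (s + (-t : ℝ) * I)) := by
      rw [Complex.ofReal_exp, ← Complex.exp_add]
      congr 1
      push_cast
      linear_combination (n : ℂ) * t * Complex.I_sq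
    have g2 : Complex.exp (I * n * s) = Real.exp (-(n * (2 * T - t))) *
        Complex.exp (I * ((n : ℝ) : ℂ) * (s + (t - 2 * T : ℝ) * I)) := by
      rw [Complex.ofReal_exp, ← Complex.exp_add]
      congr 1
      push_cast
      linear_combination -(n : ℂ) * (t - 2 * T) * Complex.I_sq
    have g3 : Complex.exp (-(I * n * s)) = Real.exp (n * t) *
        Complex.exp (I * ((-n : ℝ) : ℂ) * (s + (-t : ℝ) * I)) := by
      rw [Complex.ofReal_exp, ← Complex.exp_add]
      congr 1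
      push_cast
      linear_combination -(n : ℂ) * t * Complex.I_sq
    have g4 : Complex.exp (-(I * n * s)) = Real.exp (n * (2 * T - t)) *
        Complex.exp (I * ((-n : ℝ) : ℂ) * (s + (t - 2 * T : ℝ) * I)) := by
      rw [Complex.ofReal_exp, ← Complex.exp_add]
      congr 1
      push_cast
      linear_combination (n : ℂ) * (t - 2 * T) * Complex.I_sq
    rw [Complex.ofReal_mul, fb_pk hT h0 h1, hcos]
    unfold ff
    set S1 := Complex.sinh (Real.pi * ((s : ℂ) + (-t : ℝ) * I) / (2 * T))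
    set S2 := Complex.sinh (Real.pi * ((s : ℂ) + (t - 2 * T : ℝ) * I) / (2 * T))
    set E1 := Complex.exp (I * ((n : ℝ) : ℂ) * (s + (-t : ℝ) * I))
    set E2 := Complex.exp (I * ((n : ℝ) : ℂ) * (s + (t - 2 * T : ℝ) * I))
    set E3 := Complex.exp (I * ((-n : ℝ) : ℂ) * (s + (-t : ℝ) * I))
    set E4 := Complex.exp (I * ((-n : ℝ) : ℂ) * (s + (t - 2 * T : ℝ) * I))
    set P := Complex.exp (I * n * s)
    set Q := Complex.exp (-(I * n * s))
    have r1 : (Real.exp (-(n * t)) : ℂ) * (E1 / S1) = P / S1 := by rw [g1]; ring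
    have r2 : (Real.exp (-(n * (2 * T - t))) : ℂ) * (E2 / S2) = P / S2 := by rw [g2]; ring
    have r3 : (Real.exp (n * t) : ℂ) * (E3 / S1) = Q / S1 := by rw [g3]; ring
    have r4 : (Real.exp (n * (2 * T - t)) : ℂ) * (E4 / S2) = Q / S2 := by rw [g4]; ring
    rw [r1, r2, r3, r4]
    ring
  rw [← integral_complex_ofReal]
  simp_rw [key]
  rw [MeasureTheory.integral_const_mul]
  have i1 := fb_int (m := n) hT hy1 hy1'
  have i2 := fb_int (m := n) hT hy2 hy2'
  have i3 := fb_int (m := -n) hT hy1 hy1'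
  have i4 := fb_int (m := -n) hT hy2 hy2'
  have h12 : Integrable (fun s : ℝ => (Real.exp (-(n * t)) : ℂ) * ff T n (s + (-t : ℝ) * I) +
        Real.exp (-(n * (2 * T - t))) * ff T n (s + (t - 2 * T : ℝ) * I)) :=
    (i1.const_mul _).add (i2.const_mul _)
  have h123 : Integrable (fun s : ℝ => (Real.exp (-(n * t)) : ℂ) * ff T n (s + (-t : ℝ) * I) +
        Real.exp (-(n * (2 * T - t))) * ff T n (s + (t - 2 * T : ℝ) * I) +
        Real.exp (n * t) * ff T (-n) (s + (-t : ℝ) * I)) :=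
    h12.add (i3.const_mul _)
  rw [MeasureTheory.integral_add h123 (i4.const_mul _),
    MeasureTheory.integral_add h12 (i3.const_mul _),
    MeasureTheory.integral_add (i1.const_mul _) (i2.const_mul _),
    MeasureTheory.integral_const_mul, MeasureTheory.integral_const_mul,
    MeasureTheory.integral_const_mul, MeasureTheory.integral_const_mul,
    fb_shift (m := n) hT hy1 hy1' hTa hTb, fb_shift (m := n) hT hy2 hy2' hTa hTb,
    fb_shift (m := -n) hT hy1 hy1' hTa hTb, fb_shift (m := -n) hT hy2 hy2' hTa hTb]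
  set J1 := ∫ x : ℝ, ff T n (x + (-T : ℝ) * I)
  set J2 := ∫ x : ℝ, ff T (-n) (x + (-T : ℝ) * I)
  have hc1 : (Real.exp (-(n * t)) : ℂ) + Real.exp (-(n * (2 * T - t))) =
      2 * Real.exp (-(n * T)) * Real.cosh (n * (T - t)) := by
    rw [Real.cosh_eq]
    have a1 : Real.exp (-(n * t)) = Real.exp (-(n * T)) * Real.exp (n * (T - t)) := by
      rw [← Real.exp_add]; congr 1; ring
    have a2 : Real.exp (-(n * (2 * T - t))) = Real.exp (-(n * T)) * Real.exp (-(n * (T - t))) := by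
      rw [← Real.exp_add]; congr 1; ring
    rw [a1, a2]; push_cast; ring
  have hc2 : (Real.exp (n * t) : ℂ) + Real.exp (n * (2 * T - t)) =
      2 * Real.exp (n * T) * Real.cosh (n * (T - t)) := by
    rw [Real.cosh_eq]
    have a1 : Real.exp (n * t) = Real.exp (n * T) * Real.exp (-(n * (T - t))) := by
      rw [← Real.exp_add]; congr 1; ring
    have a2 : Real.exp (n * (2 * T - t)) = Real.exp (n * T) * Real.exp (n * (T - t)) := by
      rw [← Real.exp_add]; congr 1; ring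
    rw [a1, a2]; push_cast; ring
  linear_combination (1 / (4 * T * I) * (1 / 2) * J1) * hc1 + (1 / (4 * T * I) * (1 / 2) * J2) * hc2

/-- `∫ pk(T,t,s) cos(ns) ds = cosh(n(T-t))/cosh(nT)` -/
lemma pk_fourier {T t : ℝ} (hT : 0 < T) (h0 : 0 < t) (h1 : t < 2 * T) (n : ℕ) :
    ∫ s, pk T t s * Real.cos (n * s) = Real.cosh (n * (T - t)) / Real.cosh (n * T) := by
  obtain ⟨K, hK⟩ := fb_const hT n
  -- limit as `t → 0`
  have hlim : Tendsto (fun t : ℝ => ∫ s, pk T t s * Real.cos (n * s)) (𝓝[>] 0) (𝓝 1) := by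
    rw [Metric.tendsto_nhds]
    intro ε hε
    obtain ⟨r, hr, hrs⟩ : ∃ r > 0, ∀ s : ℝ, |s| < r → |Real.cos (n * s) - 1| < ε / 2 := by
      have hc : ContinuousAt (fun s : ℝ => Real.cos (n * s)) 0 := by fun_prop
      rw [Metric.continuousAt_iff] at hc
      obtain ⟨r, hr, h⟩ := hc (ε / 2) (by linarith)
      refine ⟨r, hr, fun s hs => ?_⟩
      have := h (x := s) (by simpa using hs)
      simpa [Real.dist_eq] using this
    have htail := (Metric.tendsto_nhds.1 (pk_tail hT r hr)) (ε / 4) (by linarith)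
    have hIoo : ∀ᶠ t : ℝ in 𝓝[>] 0, t ∈ Ioo (0 : ℝ) (2 * T) :=
      Ioo_mem_nhdsGT (by linarith)
    filter_upwards [htail, hIoo] with t ht htI
    obtain ⟨hi, h1i⟩ := pk_integral hT htI.1 htI.2
    have hpos := fun s => pk_pos hT htI.1 htI.2 s
    have hic : Integrable (fun s => pk T t s * Real.cos (n * s)) := by
      refine Integrable.mono' hi ?_ (Eventually.of_forall fun s => ?_)
      · exact ((pk_continuous hT htI.1 htI.2).mul (by fun_prop)).aestronglyMeasurable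
      · rw [Real.norm_eq_abs, abs_mul, abs_of_pos (hpos s)]
        exact mul_le_of_le_one_right (hpos s).le (Real.abs_cos_le_one _)
    have hdiff : ∫ s, pk T t s * Real.cos (n * s) - pk T t s =
        (∫ s, pk T t s * Real.cos (n * s)) - 1 := by
      rw [MeasureTheory.integral_sub hic hi, h1i]
    rw [Real.dist_eq, ← hdiff]
    have hmeas : MeasurableSet {s : ℝ | r ≤ |s|} :=
      measurableSet_le measurable_const measurable_norm
    have hil : Integrable (fun s => pk T t s * (1 + |s|)) :=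
      pk_integrable_mul hT htI.1 htI.2 (c := 1) (by fun_prop) (fun x => by
        rw [abs_of_nonneg (by positivity), one_mul])
    have hbound : ∀ s, |pk T t s * Real.cos (n * s) - pk T t s| ≤
        ε / 2 * pk T t s + 2 * ({s : ℝ | r ≤ |s|}.indicator (fun s => pk T t s * (1 + |s|)) s) := by
      intro s
      have e : pk T t s * Real.cos (n * s) - pk T t s = pk T t s * (Real.cos (n * s) - 1) := by ring
      rw [e, abs_mul, abs_of_pos (hpos s)]
      by_cases hs : r ≤ |s|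
      · rw [indicator_of_mem (show s ∈ {s : ℝ | r ≤ |s|} from hs)]
        have h2 : |Real.cos (n * s) - 1| ≤ 2 := by
          rw [abs_le]; constructor <;> linarith [Real.neg_one_le_cos (n * s), Real.cos_le_one (n * s)]
        have h3 := hpos s
        have h4 := abs_nonneg s
        nlinarith [mul_le_mul_of_nonneg_left h2 h3.le, mul_nonneg h3.le h4, mul_pos hε h3]
      · rw [indicator_of_notMem (show s ∉ {s : ℝ | r ≤ |s|} from hs)]
        have := (hrs s (not_le.1 hs)).le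
        nlinarith [mul_le_mul_of_nonneg_left this (hpos s).le]
    have hint2 : Integrable (fun s => ε / 2 * pk T t s +
        2 * ({s : ℝ | r ≤ |s|}.indicator (fun s => pk T t s * (1 + |s|)) s)) :=
      (hi.const_mul _).add ((hil.indicator hmeas).const_mul _)
    calc |∫ s, pk T t s * Real.cos (n * s) - pk T t s|
        ≤ ∫ s, |pk T t s * Real.cos (n * s) - pk T t s| := abs_integral_le_integral_abs
      _ ≤ ∫ s, (ε / 2 * pk T t s +
        2 * ({s : ℝ | r ≤ |s|}.indicator (fun s => pk T t s * (1 + |s|)) s)) :=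
          integral_mono (hic.sub hi).abs hint2 hbound
      _ = ε / 2 + 2 * ∫ s in {s : ℝ | r ≤ |s|}, pk T t s * (1 + |s|) := by
          rw [MeasureTheory.integral_add (hi.const_mul _) ((hil.indicator hmeas).const_mul _),
            MeasureTheory.integral_const_mul, MeasureTheory.integral_const_mul, h1i,
            MeasureTheory.integral_indicator hmeas]
          ring
      _ < ε := by
          rw [Real.dist_eq, sub_zero] at ht
          have := (le_abs_self _).trans_lt ht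
          linarith
  have hlim2 : Tendsto (fun t : ℝ => K * ((Real.cosh (n * (T - t)) : ℝ) : ℂ)) (𝓝[>] 0)
      (𝓝 (K * ((Real.cosh (n * (T - 0)) : ℝ) : ℂ))) := by
    apply Tendsto.mono_left _ nhdsWithin_le_nhds
    apply Continuous.tendsto
    fun_prop
  have hlim3 : Tendsto (fun t : ℝ => K * ((Real.cosh (n * (T - t)) : ℝ) : ℂ)) (𝓝[>] 0)
      (𝓝 ((1 : ℝ) : ℂ)) := by
    refine Tendsto.congr' ?_ ((Complex.continuous_ofReal.tendsto 1).comp hlim)
    have hIoo : ∀ᶠ t : ℝ in 𝓝[>] 0, t ∈ Ioo (0 : ℝ) (2 * T) :=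
      Ioo_mem_nhdsGT (by linarith)
    filter_upwards [hIoo] with t ht
    exact hK t ht.1 ht.2
  have hKe := tendsto_nhds_unique hlim2 hlim3
  rw [sub_zero] at hKe
  have hcT : (Real.cosh (n * T) : ℂ) ≠ 0 := by exact_mod_cast (Real.cosh_pos (n * T)).ne'
  have hfin := hK t h0 h1
  have : ((∫ s, pk T t s * Real.cos (n * s) : ℝ) : ℂ) =
      ((Real.cosh (n * (T - t)) / Real.cosh (n * T) : ℝ) : ℂ) := by
    rw [hfin, Complex.ofReal_div, eq_div_iff hcT]
    have h9 : K * (Real.cosh (n * T) : ℂ) = 1 := by simpa using hKe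
    linear_combination (Real.cosh (n * (T - t)) : ℂ) * h9
  exact_mod_cast this

end CF6

end

section

/-! # Module F of MP_cf6b16_an, row FB1 : Fourier coefficients of lam

lam T B t theta - L theta/2pi = int pk(s) (B(theta-s) - L(theta-s)/2pi) ds (pk even, integral one). Fubini and the addition theorem for cos(n(theta-s)+ns), the sine part of the kernel vanishes by evenness;
int over a period is translation invariant for the periodic function b(theta) = B theta - L theta/2pi.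
-/

open Complex MeasureTheory Set Filter Topology Metric intervalIntegral
open scoped ENNReal

namespace CF6

/-- the periodic part of `B` -/
noncomputable def fb1b (L : ℝ) (B : ℝ → ℝ) (θ : ℝ) : ℝ := B θ - L * θ / (2 * Real.pi)

lemma fb1b_cont {L : ℝ} {B : ℝ → ℝ} (hB : QP L B) : Continuous (fb1b L B) := by
  unfold fb1b
  have := hB.cont
  fun_prop

lemma fb1b_per {L : ℝ} {B : ℝ → ℝ} (hB : QP L B) : Function.Periodic (fb1b L B) (2 * Real.pi) := by
  intro θ
  unfold fb1b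
  rw [hB.per]
  have := Real.pi_pos
  field_simp
  ring

lemma fb1b_bdd {L : ℝ} {B : ℝ → ℝ} (hB : QP L B) : ∃ M : ℝ, ∀ θ, |fb1b L B θ| ≤ M := by
  have h := (fb1b_per hB).isBounded_of_continuous (by have := Real.pi_pos; positivity) (fb1b_cont hB)
  obtain ⟨M, hM⟩ := h.exists_norm_le
  exact ⟨M, fun θ => hM _ ⟨θ, rfl⟩⟩

lemma fb1_odd {T t : ℝ} (g : ℝ → ℝ) (hg : ∀ s, g (-s) = - g s) :
    ∫ s, pk T t s * g s = 0 := by
  have h1 : ∫ s, pk T t s * g s = ∫ s, pk T t (-s) * g (-s) :=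
    (MeasureTheory.integral_neg_eq_self (fun s => pk T t s * g s) volume).symm
  have h2 : ∫ s, pk T t (-s) * g (-s) = - ∫ s, pk T t s * g s := by
    rw [← MeasureTheory.integral_neg]
    congr 1
    funext s
    rw [hg, pk_even]
    ring
  linarith

lemma fb1_lam {T L : ℝ} {B : ℝ → ℝ} (hT : 0 < T) (hB : QP L B) {t : ℝ} (h0 : 0 < t)
    (h1 : t < 2 * T) (θ : ℝ) :
    lam T B t θ - L * θ / (2 * Real.pi) = ∫ s, pk T t s * fb1b L B (θ - s) := by
  have hpi := Real.pi_pos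
  obtain ⟨hint, hone⟩ := pk_integral hT h0 h1
  obtain ⟨M, hM⟩ := fb1b_bdd hB
  have hM0 : 0 ≤ M := (abs_nonneg _).trans (hM 0)
  have i1 : Integrable (fun s => pk T t s * fb1b L B (θ - s)) := by
    have hc : Continuous (fun s => fb1b L B (θ - s)) := (fb1b_cont hB).comp (by fun_prop)
    apply pk_integrable_mul hT h0 h1 hc (c := M)
    intro x
    have := abs_nonneg x
    have := hM (θ - x)
    nlinarith
  have i2 : Integrable (fun s => pk T t s * s) := by
    apply pk_integrable_mul hT h0 h1 continuous_id (c := 1)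
    intro x
    simp only [id_eq]
    linarith
  have e1 : ∀ s, pk T t s * B (θ - s) = pk T t s * fb1b L B (θ - s) +
      (L * θ / (2 * Real.pi) * pk T t s - L / (2 * Real.pi) * (pk T t s * s)) := by
    intro s
    unfold fb1b
    ring
  have e2 : lam T B t θ = (∫ s, pk T t s * fb1b L B (θ - s)) +
      (L * θ / (2 * Real.pi) * (∫ s, pk T t s) - L / (2 * Real.pi) * ∫ s, pk T t s * s) := by
    have j1 : Integrable (fun s => L * θ / (2 * Real.pi) * pk T t s) := hint.const_mul _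
    have j2 : Integrable (fun s => L / (2 * Real.pi) * (pk T t s * s)) := i2.const_mul _
    have j3 : Integrable (fun s => L * θ / (2 * Real.pi) * pk T t s -
        L / (2 * Real.pi) * (pk T t s * s)) := j1.sub j2
    unfold lam
    simp_rw [e1]
    rw [MeasureTheory.integral_add i1 j3, MeasureTheory.integral_sub j1 j2,
      MeasureTheory.integral_const_mul, MeasureTheory.integral_const_mul]
  have e3 : ∫ s, pk T t s * s = 0 := fb1_odd (fun s => s) (fun s => rfl)
  rw [e2, hone, e3]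
  ring

lemma fb1_swap {T L : ℝ} {B : ℝ → ℝ} (hT : 0 < T) (hB : QP L B) {t : ℝ} (h0 : 0 < t)
    (h1 : t < 2 * T) (c : ℝ → ℝ) (hc : Continuous c) (hc1 : ∀ x, |c x| ≤ 1) :
    ∫ θ in (0 : ℝ)..(2 * Real.pi), (lam T B t θ - L * θ / (2 * Real.pi)) * c θ =
      ∫ s, pk T t s * ∫ θ in (0 : ℝ)..(2 * Real.pi), fb1b L B (θ - s) * c θ := by
  obtain ⟨hint, hone⟩ := pk_integral hT h0 h1
  obtain ⟨M, hM⟩ := fb1b_bdd hB
  have hM0 : 0 ≤ M := (abs_nonneg _).trans (hM 0)
  have e1 : ∀ θ, (lam T B t θ - L * θ / (2 * Real.pi)) * c θ =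
      ∫ s, pk T t s * (fb1b L B (θ - s) * c θ) := by
    intro θ
    rw [fb1_lam hT hB h0 h1, ← MeasureTheory.integral_mul_const]
    congr 1
    funext s
    ring
  have e2 : ∀ s, pk T t s * ∫ θ in (0 : ℝ)..(2 * Real.pi), fb1b L B (θ - s) * c θ =
      ∫ θ in (0 : ℝ)..(2 * Real.pi), pk T t s * (fb1b L B (θ - s) * c θ) := by
    intro s
    rw [intervalIntegral.integral_const_mul]
  simp_rw [e1, e2]
  apply intervalIntegral_integral_swap
  have hfin : IsFiniteMeasure (volume.restrict (Set.uIoc (0 : ℝ) (2 * Real.pi))) := by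
    constructor
    rw [Measure.restrict_apply_univ, Set.uIoc]
    exact measure_Ioc_lt_top
  have hdom : Integrable (fun z : ℝ × ℝ => (M : ℝ) * pk T t z.2)
      ((volume.restrict (Set.uIoc (0 : ℝ) (2 * Real.pi))).prod volume) :=
    Integrable.mul_prod (integrable_const M) hint
  refine hdom.mono' ?_ ?_
  · have hcont : Continuous (Function.uncurry
        (fun θ s => pk T t s * (fb1b L B (θ - s) * c θ))) := by
      have k1 : Continuous (fun z : ℝ × ℝ => pk T t z.2) :=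
        (pk_continuous hT h0 h1).comp continuous_snd
      have k2 : Continuous (fun z : ℝ × ℝ => fb1b L B (z.1 - z.2)) :=
        (fb1b_cont hB).comp (by fun_prop)
      have k3 : Continuous (fun z : ℝ × ℝ => c z.1) := hc.comp continuous_fst
      exact k1.mul (k2.mul k3)
    exact hcont.aestronglyMeasurable
  · refine Eventually.of_forall (fun z => ?_)
    simp only [Function.uncurry]
    rw [Real.norm_eq_abs, abs_mul, abs_mul, abs_of_pos (pk_pos hT h0 h1 z.2)]
    have k1 := hM (z.1 - z.2)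
    have k2 := hc1 z.1
    have k3 := pk_pos hT h0 h1 z.2
    have k4 : |fb1b L B (z.1 - z.2)| * |c z.1| ≤ M * 1 :=
      mul_le_mul k1 k2 (abs_nonneg _) hM0
    nlinarith

lemma fb1_shift {L : ℝ} {B : ℝ → ℝ} (hB : QP L B) (g : ℝ → ℝ)
    (hg : Function.Periodic g (2 * Real.pi)) (s : ℝ) :
    ∫ θ in (0 : ℝ)..(2 * Real.pi), fb1b L B (θ - s) * g θ =
      ∫ θ in (0 : ℝ)..(2 * Real.pi), fb1b L B θ * g (θ + s) := by
  have h0 : ∫ θ in (0 : ℝ)..(2 * Real.pi), fb1b L B (θ - s) * g θ =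
      ∫ θ in (0 : ℝ)..(2 * Real.pi), (fun φ => fb1b L B φ * g (φ + s)) (θ - s) := by
    apply intervalIntegral.integral_congr
    intro θ _
    simp
  rw [h0, intervalIntegral.integral_comp_sub_right (fun φ => fb1b L B φ * g (φ + s)) s]
  have hper : Function.Periodic (fun φ => fb1b L B φ * g (φ + s)) (2 * Real.pi) := by
    intro φ
    simp only
    rw [fb1b_per hB, add_right_comm, hg]
  have h2 := hper.intervalIntegral_add_eq (0 - s) 0
  rw [zero_add] at h2
  rw [← h2]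
  congr 1
  ring

lemma fb1_cos_per (n : ℕ) : Function.Periodic (fun θ : ℝ => Real.cos (n * θ)) (2 * Real.pi) := by
  intro θ
  simp only
  rw [mul_add]
  exact Real.cos_add_nat_mul_two_pi _ n

lemma fb1_sin_per (n : ℕ) : Function.Periodic (fun θ : ℝ => Real.sin (n * θ)) (2 * Real.pi) := by
  intro θ
  simp only
  rw [mul_add]
  exact Real.sin_add_nat_mul_two_pi _ n

lemma fb1_int_cos {T t : ℝ} (hT : 0 < T) (h0 : 0 < t) (h1 : t < 2 * T) (n : ℕ) :
    Integrable (fun s => pk T t s * Real.cos (n * s)) := by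
  apply pk_integrable_mul hT h0 h1 (by fun_prop) (c := 1)
  intro x
  have := Real.abs_cos_le_one (n * x)
  have := abs_nonneg x
  linarith

lemma fb1_int_sin {T t : ℝ} (hT : 0 < T) (h0 : 0 < t) (h1 : t < 2 * T) (n : ℕ) :
    Integrable (fun s => pk T t s * Real.sin (n * s)) := by
  apply pk_integrable_mul hT h0 h1 (by fun_prop) (c := 1)
  intro x
  have := Real.abs_sin_le_one (n * x)
  have := abs_nonneg x
  linarith

lemma fb1_sin_zero {T t : ℝ} (n : ℕ) : ∫ s, pk T t s * Real.sin (n * s) = 0 :=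
  fb1_odd (fun s => Real.sin (n * s)) (fun s => by rw [mul_neg, Real.sin_neg])

lemma ac_lam {T L : ℝ} {B : ℝ → ℝ} (hT : 0 < T) (hB : QP L B) {t : ℝ} (h0 : 0 < t)
    (h1 : t < 2 * T) (n : ℕ) :
    ac L (lam T B t) n = ac L B n * (Real.cosh (n * (T - t)) / Real.cosh (n * T)) := by
  have hbc := fb1b_cont hB
  have e0 : ∀ s, ∫ θ in (0 : ℝ)..(2 * Real.pi), fb1b L B (θ - s) * Real.cos (n * θ) =
      (∫ θ in (0 : ℝ)..(2 * Real.pi), fb1b L B θ * Real.cos (n * θ)) * Real.cos (n * s) -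
      (∫ θ in (0 : ℝ)..(2 * Real.pi), fb1b L B θ * Real.sin (n * θ)) * Real.sin (n * s) := by
    intro s
    rw [fb1_shift hB (fun θ => Real.cos (n * θ)) (fb1_cos_per n) s]
    rw [← intervalIntegral.integral_mul_const, ← intervalIntegral.integral_mul_const,
      ← intervalIntegral.integral_sub]
    · congr 1
      funext θ
      rw [mul_add, Real.cos_add]
      ring
    · apply Continuous.intervalIntegrable
      fun_prop
    · apply Continuous.intervalIntegrable
      fun_prop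
  have key := fb1_swap hT hB h0 h1 (fun θ => Real.cos (n * θ)) (by fun_prop)
    (fun x => Real.abs_cos_le_one _)
  simp_rw [e0] at key
  have e1 : ∀ s, pk T t s *
      ((∫ θ in (0 : ℝ)..(2 * Real.pi), fb1b L B θ * Real.cos (n * θ)) * Real.cos (n * s) -
      (∫ θ in (0 : ℝ)..(2 * Real.pi), fb1b L B θ * Real.sin (n * θ)) * Real.sin (n * s)) =
      (∫ θ in (0 : ℝ)..(2 * Real.pi), fb1b L B θ * Real.cos (n * θ)) *
        (pk T t s * Real.cos (n * s)) -
      (∫ θ in (0 : ℝ)..(2 * Real.pi), fb1b L B θ * Real.sin (n * θ)) *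
        (pk T t s * Real.sin (n * s)) := by
    intro s
    ring
  simp_rw [e1] at key
  rw [MeasureTheory.integral_sub ((fb1_int_cos hT h0 h1 n).const_mul _)
    ((fb1_int_sin hT h0 h1 n).const_mul _), MeasureTheory.integral_const_mul,
    MeasureTheory.integral_const_mul, fb1_sin_zero, pk_fourier hT h0 h1, mul_zero, sub_zero] at key
  unfold ac
  rw [key, mul_assoc]
  rfl

lemma bs_lam {T L : ℝ} {B : ℝ → ℝ} (hT : 0 < T) (hB : QP L B) {t : ℝ} (h0 : 0 < t)
    (h1 : t < 2 * T) (n : ℕ) :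
    bs L (lam T B t) n = bs L B n * (Real.cosh (n * (T - t)) / Real.cosh (n * T)) := by
  have hbc := fb1b_cont hB
  have e0 : ∀ s, ∫ θ in (0 : ℝ)..(2 * Real.pi), fb1b L B (θ - s) * Real.sin (n * θ) =
      (∫ θ in (0 : ℝ)..(2 * Real.pi), fb1b L B θ * Real.sin (n * θ)) * Real.cos (n * s) +
      (∫ θ in (0 : ℝ)..(2 * Real.pi), fb1b L B θ * Real.cos (n * θ)) * Real.sin (n * s) := by
    intro s
    rw [fb1_shift hB (fun θ => Real.sin (n * θ)) (fb1_sin_per n) s]
    rw [← intervalIntegral.integral_mul_const, ← intervalIntegral.integral_mul_const,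
      ← intervalIntegral.integral_add]
    · congr 1
      funext θ
      rw [mul_add, Real.sin_add]
      ring
    · apply Continuous.intervalIntegrable
      fun_prop
    · apply Continuous.intervalIntegrable
      fun_prop
  have key := fb1_swap hT hB h0 h1 (fun θ => Real.sin (n * θ)) (by fun_prop)
    (fun x => Real.abs_sin_le_one _)
  simp_rw [e0] at key
  have e1 : ∀ s, pk T t s *
      ((∫ θ in (0 : ℝ)..(2 * Real.pi), fb1b L B θ * Real.sin (n * θ)) * Real.cos (n * s) +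
      (∫ θ in (0 : ℝ)..(2 * Real.pi), fb1b L B θ * Real.cos (n * θ)) * Real.sin (n * s)) =
      (∫ θ in (0 : ℝ)..(2 * Real.pi), fb1b L B θ * Real.sin (n * θ)) *
        (pk T t s * Real.cos (n * s)) +
      (∫ θ in (0 : ℝ)..(2 * Real.pi), fb1b L B θ * Real.cos (n * θ)) *
        (pk T t s * Real.sin (n * s)) := by
    intro s
    ring
  simp_rw [e1] at key
  rw [MeasureTheory.integral_add ((fb1_int_cos hT h0 h1 n).const_mul _)
    ((fb1_int_sin hT h0 h1 n).const_mul _), MeasureTheory.integral_const_mul,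
    MeasureTheory.integral_const_mul, fb1_sin_zero, pk_fourier hT h0 h1, mul_zero, add_zero] at key
  unfold bs
  rw [key, mul_assoc]
  rfl

end CF6

end

section

/-! # Module F of MP_cf6b16_an, row FB2 : energy density by Parseval

For fixed t the functions lam_theta - L/2pi and lam_t are smooth, 2pi-periodic. Coefficients of lam_theta: integration by parts from FB1 (n b_n, -n a_n); coefficients of lam_t: differentiate FB1 in t under the integral:
-n sinh(n(T-t))/cosh(nT) times a_n, b_n; the mean of lam_t over a period is 0 (derivative of the mean of lam, which is constant in t: FB1 for n = 0).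
Parseval: int_0^{2pi} f^2 = 2pi mean^2 + pi sum (a_n^2+b_n^2) (from tsum_sq_fourierCoeffOn / hasSum_sq_fourierCoeff). Sum: n^2(sinh^2+cosh^2) = n^2 cosh(2n(T-t)).
-/

open Complex MeasureTheory Set Filter Topology Metric intervalIntegral
open scoped ENNReal

namespace CF6

lemma FB2_open (T : ℝ) : IsOpen {ζ : ℂ | -(2 * T) < ζ.im ∧ ζ.im < 0} :=
  (isOpen_lt continuous_const Complex.continuous_im).inter
    (isOpen_lt Complex.continuous_im continuous_const)

lemma FB2_cont {T L : ℝ} {B : ℝ → ℝ} (hT : 0 < T) (hB : QP L B) :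
    ContinuousOn (deriv (LcF T B)) {ζ : ℂ | -(2 * T) < ζ.im ∧ ζ.im < 0} :=
  ((LcF_diff hT hB).deriv (FB2_open T)).continuousOn

lemma FB2_mem {T t : ℝ} (h0 : 0 < t) (h1 : t < 2 * T) (θ : ℝ) :
    ((θ : ℂ) - t * I) ∈ {ζ : ℂ | -(2 * T) < ζ.im ∧ ζ.im < 0} := by
  constructor <;> simp <;> linarith

lemma FB2_F {T L : ℝ} {B : ℝ → ℝ} (hT : 0 < T) (hB : QP L B) {t : ℝ} (h0 : 0 < t)
    (h1 : t < 2 * T) : Continuous (fun θ : ℝ => deriv (LcF T B) (θ - t * I)) :=
  (FB2_cont hT hB).comp_continuous (by fun_prop) (fun θ => FB2_mem h0 h1 θ)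

lemma FB2_pos : (0 : ℝ) < 2 * Real.pi := by positivity

lemma FB2_coef {F : ℝ → ℂ} (hF : Continuous F) (n : ℤ) :
    fourierCoeffOn FB2_pos F n = (1 / (2 * Real.pi) : ℂ) *
      ((∫ θ in (0:ℝ)..(2 * Real.pi), F θ * (Real.cos (n * θ) : ℂ)) -
        I * ∫ θ in (0:ℝ)..(2 * Real.pi), F θ * (Real.sin (n * θ) : ℂ)) := by
  rw [fourierCoeffOn_eq_integral, ← intervalIntegral.integral_const_mul,
    ← intervalIntegral.integral_sub (by apply Continuous.intervalIntegrable; fun_prop)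
      (by apply Continuous.intervalIntegrable; fun_prop)]
  rw [Complex.real_smul]
  congr 1
  · push_cast; simp
  · refine intervalIntegral.integral_congr fun θ _ => ?_
    simp only [smul_eq_mul]
    rw [fourier_coe_apply]
    have h1 : 2 * (Real.pi : ℂ) * I * ((-n : ℤ) : ℂ) * (θ : ℂ) / ((2 * Real.pi - 0 : ℝ) : ℂ) =
        -((n * θ : ℝ) : ℂ) * I := by
      have : (Real.pi : ℂ) ≠ 0 := by exact_mod_cast Real.pi_ne_zero
      push_cast
      rw [sub_zero]
      field_simp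
    rw [h1, Complex.exp_mul_I, Complex.cos_neg, Complex.sin_neg, ← Complex.ofReal_cos,
      ← Complex.ofReal_sin]
    ring

lemma FB2_parseval {F : ℝ → ℂ} (hF : Continuous F) :
    HasSum (fun n : ℕ => (‖∫ θ in (0:ℝ)..(2 * Real.pi), F θ * (Real.cos (n * θ) : ℂ)‖ ^ 2 +
       ‖∫ θ in (0:ℝ)..(2 * Real.pi), F θ * (Real.sin (n * θ) : ℂ)‖ ^ 2) / Real.pi)
      ((∫ θ in (0:ℝ)..(2 * Real.pi), ‖F θ‖ ^ 2) +
        ‖∫ θ in (0:ℝ)..(2 * Real.pi), F θ‖ ^ 2 / (2 * Real.pi)) := by
  have hL2 : MemLp F 2 (volume.restrict (Ioc 0 (2 * Real.pi))) := by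
    obtain ⟨C, hC⟩ := (isCompact_Icc (a := (0 : ℝ)) (b := 2 * Real.pi)).exists_bound_of_continuousOn
      hF.continuousOn
    refine MemLp.of_bound hF.aestronglyMeasurable C ?_
    refine (ae_restrict_iff' measurableSet_Ioc).2 (Eventually.of_forall fun x hx => ?_)
    exact hC x (Ioc_subset_Icc_self hx)
  have h := (hasSum_sq_fourierCoeffOn FB2_pos hL2).nat_add_neg.mul_left (2 * Real.pi)
  have hpi : Real.pi ≠ 0 := Real.pi_ne_zero
  have k1 : (fun n : ℕ => (‖∫ θ in (0:ℝ)..(2 * Real.pi), F θ * (Real.cos (n * θ) : ℂ)‖ ^ 2 +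
       ‖∫ θ in (0:ℝ)..(2 * Real.pi), F θ * (Real.sin (n * θ) : ℂ)‖ ^ 2) / Real.pi) =
      fun n : ℕ => 2 * Real.pi * (‖fourierCoeffOn FB2_pos F (n : ℤ)‖ ^ 2 +
        ‖fourierCoeffOn FB2_pos F (-(n : ℤ))‖ ^ 2) := by
    funext n
    rw [FB2_coef hF, FB2_coef hF]
    set C := ∫ θ in (0:ℝ)..(2 * Real.pi), F θ * (Real.cos (n * θ) : ℂ) with hC
    set S := ∫ θ in (0:ℝ)..(2 * Real.pi), F θ * (Real.sin (n * θ) : ℂ) with hS
    have e1 : (∫ θ in (0:ℝ)..(2 * Real.pi), F θ * (Real.cos (((n : ℤ) : ℝ) * θ) : ℂ)) = C := by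
      rw [hC]; simp
    have e2 : (∫ θ in (0:ℝ)..(2 * Real.pi), F θ * (Real.sin (((n : ℤ) : ℝ) * θ) : ℂ)) = S := by
      rw [hS]; simp
    have e3 : (∫ θ in (0:ℝ)..(2 * Real.pi), F θ * (Real.cos (((-(n : ℤ) : ℤ) : ℝ) * θ) : ℂ)) = C := by
      rw [hC]; congr 1; funext θ
      push_cast
      rw [neg_mul, Complex.cos_neg]
    have e4 : (∫ θ in (0:ℝ)..(2 * Real.pi), F θ * (Real.sin (((-(n : ℤ) : ℤ) : ℝ) * θ) : ℂ)) = -S := by
      rw [hS, ← intervalIntegral.integral_neg]; congr 1; funext θ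
      push_cast
      rw [neg_mul, Complex.sin_neg, mul_neg]
    rw [e1, e2, e3, e4]
    have h5 : ‖C - I * S‖ * ‖C - I * S‖ + ‖C + I * S‖ * ‖C + I * S‖ =
        2 * (‖C‖ * ‖C‖ + ‖S‖ * ‖S‖) := by
      have := parallelogram_law_with_norm ℝ C (I * S)
      rw [norm_mul I S, Complex.norm_I, one_mul] at this
      linarith
    have h6 : ‖(1 / (2 * Real.pi) : ℂ)‖ = 1 / (2 * Real.pi) := by
      rw [norm_div, norm_one, norm_mul, Complex.norm_real, Real.norm_eq_abs,
        abs_of_pos Real.pi_pos]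
      simp
    rw [norm_mul, norm_mul, h6, mul_neg, sub_neg_eq_add, mul_pow, mul_pow]
    have h7 : 2 * Real.pi * ((1 / (2 * Real.pi)) ^ 2 * ‖C - I * S‖ ^ 2 +
        (1 / (2 * Real.pi)) ^ 2 * ‖C + I * S‖ ^ 2) = (‖C - I * S‖ * ‖C - I * S‖ +
          ‖C + I * S‖ * ‖C + I * S‖) / (2 * Real.pi) := by
      field_simp
    rw [h7, h5]
    field_simp
  have k2 : (∫ θ in (0:ℝ)..(2 * Real.pi), ‖F θ‖ ^ 2) +
        ‖∫ θ in (0:ℝ)..(2 * Real.pi), F θ‖ ^ 2 / (2 * Real.pi) =
      2 * Real.pi * ((2 * Real.pi - 0)⁻¹ • (∫ θ in (0:ℝ)..(2 * Real.pi), ‖F θ‖ ^ 2) +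
        ‖fourierCoeffOn FB2_pos F 0‖ ^ 2) := by
    rw [FB2_coef hF]
    simp only [Int.cast_zero, zero_mul, Real.cos_zero, Real.sin_zero, Complex.ofReal_one,
      Complex.ofReal_zero, mul_one, mul_zero, intervalIntegral.integral_zero, sub_zero]
    rw [norm_mul, norm_div, norm_one, norm_mul, Complex.norm_real, Real.norm_eq_abs,
        abs_of_pos Real.pi_pos, smul_eq_mul]
    simp only [Complex.norm_ofNat]
    field_simp
  rw [k1, k2]
  exact h

/-- the periodic part -/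
lemma FB2_gpart {T L : ℝ} {B : ℝ → ℝ} (hT : 0 < T) (hB : QP L B) {t : ℝ} (h0 : 0 < t)
    (h1 : t < 2 * T) (θ : ℝ) :
    HasDerivAt (fun θ => lam T B t θ - L * θ / (2 * Real.pi))
      ((deriv (LcF T B) (θ - t * I)).im - L / (2 * Real.pi)) θ := by
  refine (lam_hasDerivAt_theta hT hB h0 h1 θ).sub ?_
  have h := ((hasDerivAt_id θ).const_mul L).div_const (2 * Real.pi)
  simpa using h

lemma FB2_gcont {T L : ℝ} {B : ℝ → ℝ} (hT : 0 < T) (hB : QP L B) {t : ℝ} (h0 : 0 < t)
    (h1 : t < 2 * T) : Continuous fun θ : ℝ => (deriv (LcF T B) (θ - t * I)).im :=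
  Complex.continuous_im.comp (FB2_F hT hB h0 h1)

lemma FB2_lcont {T L : ℝ} {B : ℝ → ℝ} (hT : 0 < T) (hB : QP L B) {t : ℝ} (h0 : 0 < t)
    (h1 : t < 2 * T) : Continuous fun θ : ℝ => lam T B t θ :=
  continuous_iff_continuousAt.2 fun θ => (lam_hasDerivAt_theta hT hB h0 h1 θ).continuousAt

lemma FB2_int_cos {n : ℕ} (hn : n ≠ 0) : ∫ θ in (0:ℝ)..(2 * Real.pi), Real.cos (n * θ) = 0 := by
  have hn' : (n : ℝ) ≠ 0 := by exact_mod_cast hn
  have h : ∀ θ : ℝ, HasDerivAt (fun θ : ℝ => Real.sin (n * θ) / n) (Real.cos (n * θ)) θ := by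
    intro θ
    have := (((hasDerivAt_id θ).const_mul (n : ℝ)).sin).div_const (n : ℝ)
    refine this.congr_deriv ?_
    simp only [id_eq, mul_one]
    field_simp
  rw [intervalIntegral.integral_eq_sub_of_hasDerivAt (fun θ _ => h θ)
    (by apply Continuous.intervalIntegrable; fun_prop)]
  have : Real.sin (n * (2 * Real.pi)) = 0 := by
    rw [show (n : ℝ) * (2 * Real.pi) = ((2 * n : ℕ) : ℝ) * Real.pi by push_cast; ring]
    exact Real.sin_nat_mul_pi _
  rw [this]
  simp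

lemma FB2_int_sin (n : ℕ) : ∫ θ in (0:ℝ)..(2 * Real.pi), Real.sin (n * θ) = 0 := by
  rcases Nat.eq_zero_or_pos n with rfl | hn
  · simp
  have hn' : (n : ℝ) ≠ 0 := by exact_mod_cast hn.ne'
  have h : ∀ θ : ℝ, HasDerivAt (fun θ : ℝ => -Real.cos (n * θ) / n) (Real.sin (n * θ)) θ := by
    intro θ
    have := ((((hasDerivAt_id θ).const_mul (n : ℝ)).cos).neg).div_const (n : ℝ)
    refine this.congr_deriv ?_
    simp only [id_eq, mul_one]
    field_simp
  rw [intervalIntegral.integral_eq_sub_of_hasDerivAt (fun θ _ => h θ)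
    (by apply Continuous.intervalIntegrable; fun_prop)]
  have : Real.cos (n * (2 * Real.pi)) = 1 := Real.cos_nat_mul_two_pi n
  rw [this]
  simp

lemma FB2_gc {T L : ℝ} {B : ℝ → ℝ} (hT : 0 < T) (hB : QP L B) {t : ℝ} (h0 : 0 < t)
    (h1 : t < 2 * T) (n : ℕ) :
    ∫ θ in (0:ℝ)..(2 * Real.pi), (deriv (LcF T B) (θ - t * I)).im * Real.cos (n * θ) =
      n * (Real.pi * bs L (lam T B t) n) + (if n = 0 then L else 0) := by
  have hpi : Real.pi ≠ 0 := Real.pi_ne_zero
  have hg := FB2_gcont hT hB h0 h1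
  have hl := FB2_lcont hT hB h0 h1
  have hv : ∀ θ : ℝ, HasDerivAt (fun θ : ℝ => Real.cos (n * θ)) (-(n * Real.sin (n * θ))) θ := by
    intro θ
    have := ((hasDerivAt_id θ).const_mul (n : ℝ)).cos
    refine this.congr_deriv ?_
    simp only [id_eq, mul_one]
    ring
  have key := intervalIntegral.integral_deriv_mul_eq_sub (a := 0) (b := 2 * Real.pi)
    (fun θ _ => FB2_gpart hT hB h0 h1 θ) (fun θ _ => hv θ)
    (by apply Continuous.intervalIntegrable; fun_prop)
    (by apply Continuous.intervalIntegrable; fun_prop)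
  have hp : lam T B t (2 * Real.pi) = lam T B t 0 + L := by
    have := lam_per hT hB h0 h1 0
    rwa [zero_add] at this
  rw [Real.cos_nat_mul_two_pi, hp, intervalIntegral.integral_add
    (by apply Continuous.intervalIntegrable; fun_prop)
    (by apply Continuous.intervalIntegrable; fun_prop)] at key
  have e1 : ∫ θ in (0:ℝ)..(2 * Real.pi), (lam T B t θ - L * θ / (2 * Real.pi)) *
      -(n * Real.sin (n * θ)) = -(n * (Real.pi * bs L (lam T B t) n)) := by
    unfold bs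
    rw [← mul_assoc Real.pi, mul_one_div_cancel hpi, one_mul,
      ← intervalIntegral.integral_const_mul, ← intervalIntegral.integral_neg]
    refine intervalIntegral.integral_congr fun θ _ => ?_
    ring
  have e2 : ∫ θ in (0:ℝ)..(2 * Real.pi), ((deriv (LcF T B) (θ - t * I)).im - L / (2 * Real.pi)) *
      Real.cos (n * θ) = (∫ θ in (0:ℝ)..(2 * Real.pi),
        (deriv (LcF T B) (θ - t * I)).im * Real.cos (n * θ)) -
        L / (2 * Real.pi) * ∫ θ in (0:ℝ)..(2 * Real.pi), Real.cos (n * θ) := by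
    rw [← intervalIntegral.integral_const_mul, ← intervalIntegral.integral_sub
      (by apply Continuous.intervalIntegrable; fun_prop)
      (by apply Continuous.intervalIntegrable; fun_prop)]
    refine intervalIntegral.integral_congr fun θ _ => ?_
    ring
  rw [e1, e2] at key
  have e3 : L / (2 * Real.pi) * (∫ θ in (0:ℝ)..(2 * Real.pi), Real.cos (n * θ)) =
      if n = 0 then L else 0 := by
    split_ifs with hn
    · subst hn
      simp
    · rw [FB2_int_cos hn, mul_zero]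
  rw [e3] at key
  have e4 : (lam T B t 0 + L - L * (2 * Real.pi) / (2 * Real.pi)) * 1 -
      (lam T B t 0 - L * 0 / (2 * Real.pi)) * Real.cos (n * 0) = 0 := by
    rw [mul_zero, mul_zero, Real.cos_zero]
    field_simp
    ring
  rw [e4] at key
  linarith

lemma FB2_gs {T L : ℝ} {B : ℝ → ℝ} (hT : 0 < T) (hB : QP L B) {t : ℝ} (h0 : 0 < t)
    (h1 : t < 2 * T) (n : ℕ) :
    ∫ θ in (0:ℝ)..(2 * Real.pi), (deriv (LcF T B) (θ - t * I)).im * Real.sin (n * θ) =
      -(n * (Real.pi * ac L (lam T B t) n)) := by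
  have hpi : Real.pi ≠ 0 := Real.pi_ne_zero
  have hg := FB2_gcont hT hB h0 h1
  have hl := FB2_lcont hT hB h0 h1
  have hv : ∀ θ : ℝ, HasDerivAt (fun θ : ℝ => Real.sin (n * θ)) (n * Real.cos (n * θ)) θ := by
    intro θ
    have := ((hasDerivAt_id θ).const_mul (n : ℝ)).sin
    refine this.congr_deriv ?_
    simp only [id_eq, mul_one]
    ring
  have key := intervalIntegral.integral_deriv_mul_eq_sub (a := 0) (b := 2 * Real.pi)
    (fun θ _ => FB2_gpart hT hB h0 h1 θ) (fun θ _ => hv θ)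
    (by apply Continuous.intervalIntegrable; fun_prop)
    (by apply Continuous.intervalIntegrable; fun_prop)
  have hs : Real.sin (n * (2 * Real.pi)) = 0 := by
    rw [show (n : ℝ) * (2 * Real.pi) = ((2 * n : ℕ) : ℝ) * Real.pi by push_cast; ring]
    exact Real.sin_nat_mul_pi _
  rw [hs, intervalIntegral.integral_add
    (by apply Continuous.intervalIntegrable; fun_prop)
    (by apply Continuous.intervalIntegrable; fun_prop)] at key
  have e1 : ∫ θ in (0:ℝ)..(2 * Real.pi), (lam T B t θ - L * θ / (2 * Real.pi)) *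
      (n * Real.cos (n * θ)) = n * (Real.pi * ac L (lam T B t) n) := by
    unfold ac
    rw [← mul_assoc Real.pi, mul_one_div_cancel hpi, one_mul,
      ← intervalIntegral.integral_const_mul]
    refine intervalIntegral.integral_congr fun θ _ => ?_
    ring
  have e2 : ∫ θ in (0:ℝ)..(2 * Real.pi), ((deriv (LcF T B) (θ - t * I)).im - L / (2 * Real.pi)) *
      Real.sin (n * θ) = (∫ θ in (0:ℝ)..(2 * Real.pi),
        (deriv (LcF T B) (θ - t * I)).im * Real.sin (n * θ)) -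
        L / (2 * Real.pi) * ∫ θ in (0:ℝ)..(2 * Real.pi), Real.sin (n * θ) := by
    rw [← intervalIntegral.integral_const_mul, ← intervalIntegral.integral_sub
      (by apply Continuous.intervalIntegrable; fun_prop)
      (by apply Continuous.intervalIntegrable; fun_prop)]
    refine intervalIntegral.integral_congr fun θ _ => ?_
    ring
  rw [e1, e2, FB2_int_sin] at key
  simp only [mul_zero, Real.sin_zero, sub_zero] at key
  linarith

/-- derivative of the coefficient integrals in `t`, `w` a continuous weight -/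
lemma FB2_dt {T L : ℝ} {B : ℝ → ℝ} (hT : 0 < T) (hB : QP L B) {t : ℝ} (h0 : 0 < t)
    (h1 : t < 2 * T) {w : ℝ → ℝ} (hw : Continuous w) :
    HasDerivAt (fun τ => ∫ θ in (0:ℝ)..(2 * Real.pi), (lam T B τ θ - L * θ / (2 * Real.pi)) * w θ)
      (∫ θ in (0:ℝ)..(2 * Real.pi), -(deriv (LcF T B) (θ - t * I)).re * w θ) t := by
  obtain ⟨r, hr, hr0, hr1⟩ : ∃ r : ℝ, 0 < r ∧ 0 < t - r ∧ t + r < 2 * T := by
    refine ⟨min (t / 2) ((2 * T - t) / 2), ?_, ?_, ?_⟩
    · exact lt_min (by linarith) (by linarith)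
    · have := min_le_left (t / 2) ((2 * T - t) / 2); linarith
    · have := min_le_right (t / 2) ((2 * T - t) / 2); linarith
  have hK : IsCompact ((Icc (t - r) (t + r)) ×ˢ (Icc (0 : ℝ) (2 * Real.pi))) :=
    isCompact_Icc.prod isCompact_Icc
  have hcont : ContinuousOn (fun p : ℝ × ℝ => -(deriv (LcF T B) (p.2 - p.1 * I)).re * w p.2)
      ((Icc (t - r) (t + r)) ×ˢ (Icc (0 : ℝ) (2 * Real.pi))) := by
    refine ContinuousOn.mul (ContinuousOn.neg ?_) (by fun_prop)
    refine Complex.continuous_re.comp_continuousOn ?_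
    refine (FB2_cont hT hB).comp (by fun_prop) ?_
    rintro ⟨τ, θ⟩ ⟨hτ, _⟩
    exact FB2_mem (by linarith [hτ.1]) (by linarith [hτ.2]) θ
  obtain ⟨M, hM⟩ := hK.exists_bound_of_continuousOn hcont
  have hIoo : Ioo (t - r) (t + r) ∈ 𝓝 t := Ioo_mem_nhds (by linarith) (by linarith)
  refine (intervalIntegral.hasDerivAt_integral_of_dominated_loc_of_deriv_le
    (F := fun τ θ => (lam T B τ θ - L * θ / (2 * Real.pi)) * w θ)
    (F' := fun τ θ => -(deriv (LcF T B) (θ - τ * I)).re * w θ) (s := Ioo (t - r) (t + r))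
    (bound := fun _ => M) hIoo ?_ ?_ ?_ ?_ ?_ ?_).2
  · filter_upwards [hIoo] with τ hτ
    have hl := FB2_lcont hT hB (t := τ) (by linarith [hτ.1]) (by linarith [hτ.2])
    refine Continuous.aestronglyMeasurable ?_
    fun_prop
  · have hl := FB2_lcont hT hB h0 h1
    apply Continuous.intervalIntegrable
    fun_prop
  · have hl : Continuous fun θ : ℝ => (deriv (LcF T B) (θ - t * I)).re :=
      Complex.continuous_re.comp (FB2_F hT hB h0 h1)
    refine Continuous.aestronglyMeasurable ?_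
    fun_prop
  · refine Eventually.of_forall fun θ hθ τ hτ => ?_
    rw [uIoc_of_le FB2_pos.le] at hθ
    exact hM (τ, θ) ⟨Ioo_subset_Icc_self hτ, Ioc_subset_Icc_self hθ⟩
  · exact intervalIntegrable_const
  · refine Eventually.of_forall fun θ _ τ hτ => ?_
    exact ((lam_hasDerivAt_t hT hB (by linarith [hτ.1]) (by linarith [hτ.2]) θ).sub_const _).mul_const _

lemma FB2_dcosh {T t : ℝ} (n : ℕ) (c : ℝ) :
    HasDerivAt (fun τ => c * (Real.cosh (n * (T - τ)) / Real.cosh (n * T)))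
      (-(n * (c * (Real.sinh (n * (T - t)) / Real.cosh (n * T))))) t := by
  have h := ((((hasDerivAt_id t).const_sub T).const_mul (n : ℝ)).cosh.div_const
    (Real.cosh (n * T))).const_mul c
  refine h.congr_deriv ?_
  simp only [id_eq]
  ring

lemma FB2_hc {T L : ℝ} {B : ℝ → ℝ} (hT : 0 < T) (hB : QP L B) {t : ℝ} (h0 : 0 < t)
    (h1 : t < 2 * T) (n : ℕ) :
    ∫ θ in (0:ℝ)..(2 * Real.pi), -(deriv (LcF T B) (θ - t * I)).re * Real.cos (n * θ) =
      -(n * (Real.pi * ac L B n * (Real.sinh (n * (T - t)) / Real.cosh (n * T)))) := by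
  have hpi : Real.pi ≠ 0 := Real.pi_ne_zero
  have k1 := FB2_dt hT hB h0 h1 (w := fun θ => Real.cos (n * θ)) (by fun_prop)
  have k2 : HasDerivAt (fun τ => ∫ θ in (0:ℝ)..(2 * Real.pi),
      (lam T B τ θ - L * θ / (2 * Real.pi)) * Real.cos (n * θ))
      (-(n * (Real.pi * ac L B n * (Real.sinh (n * (T - t)) / Real.cosh (n * T))))) t := by
    refine (FB2_dcosh n (Real.pi * ac L B n)).congr_of_eventuallyEq ?_
    filter_upwards [Ioo_mem_nhds h0 h1] with τ hτ
    have h := ac_lam hT hB hτ.1 hτ.2 n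
    rw [mul_assoc, ← h]
    unfold ac
    rw [← mul_assoc Real.pi, mul_one_div_cancel hpi, one_mul]
  exact k1.unique k2

lemma FB2_hs {T L : ℝ} {B : ℝ → ℝ} (hT : 0 < T) (hB : QP L B) {t : ℝ} (h0 : 0 < t)
    (h1 : t < 2 * T) (n : ℕ) :
    ∫ θ in (0:ℝ)..(2 * Real.pi), -(deriv (LcF T B) (θ - t * I)).re * Real.sin (n * θ) =
      -(n * (Real.pi * bs L B n * (Real.sinh (n * (T - t)) / Real.cosh (n * T)))) := by
  have hpi : Real.pi ≠ 0 := Real.pi_ne_zero
  have k1 := FB2_dt hT hB h0 h1 (w := fun θ => Real.sin (n * θ)) (by fun_prop)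
  have k2 : HasDerivAt (fun τ => ∫ θ in (0:ℝ)..(2 * Real.pi),
      (lam T B τ θ - L * θ / (2 * Real.pi)) * Real.sin (n * θ))
      (-(n * (Real.pi * bs L B n * (Real.sinh (n * (T - t)) / Real.cosh (n * T))))) t := by
    refine (FB2_dcosh n (Real.pi * bs L B n)).congr_of_eventuallyEq ?_
    filter_upwards [Ioo_mem_nhds h0 h1] with τ hτ
    have h := bs_lam hT hB hτ.1 hτ.2 n
    rw [mul_assoc, ← h]
    unfold bs
    rw [← mul_assoc Real.pi, mul_one_div_cancel hpi, one_mul]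
  exact k1.unique k2

lemma FB2_enorm (x y : ℝ) : ‖x‖ₑ ^ 2 + ‖y‖ₑ ^ 2 = ENNReal.ofReal (x ^ 2 + y ^ 2) := by
  rw [ENNReal.ofReal_add (sq_nonneg _) (sq_nonneg _), Real.enorm_eq_ofReal_abs,
    Real.enorm_eq_ofReal_abs, ← ENNReal.ofReal_pow (abs_nonneg _),
    ← ENNReal.ofReal_pow (abs_nonneg _), sq_abs, sq_abs]

/-- norm of an integral of `F` against a real weight -/
lemma FB2_normint {F : ℝ → ℂ} (hF : Continuous F) {w : ℝ → ℝ} (hw : Continuous w) :
    ‖∫ θ in (0:ℝ)..(2 * Real.pi), F θ * (w θ : ℂ)‖ ^ 2 =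
      (∫ θ in (0:ℝ)..(2 * Real.pi), -(F θ).re * w θ) ^ 2 +
        (∫ θ in (0:ℝ)..(2 * Real.pi), (F θ).im * w θ) ^ 2 := by
  have hint : IntervalIntegrable (fun θ => F θ * (w θ : ℂ)) volume 0 (2 * Real.pi) := by
    apply Continuous.intervalIntegrable; fun_prop
  have e1 : (∫ θ in (0:ℝ)..(2 * Real.pi), F θ * (w θ : ℂ)).re =
      ∫ θ in (0:ℝ)..(2 * Real.pi), (F θ).re * w θ := by
    have := Complex.reCLM.intervalIntegral_comp_comm hint
    simp only [Complex.reCLM_apply] at this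
    rw [← this]
    refine intervalIntegral.integral_congr fun θ _ => ?_
    simp
  have e2 : (∫ θ in (0:ℝ)..(2 * Real.pi), F θ * (w θ : ℂ)).im =
      ∫ θ in (0:ℝ)..(2 * Real.pi), (F θ).im * w θ := by
    have := Complex.imCLM.intervalIntegral_comp_comm hint
    simp only [Complex.imCLM_apply] at this
    rw [← this]
    refine intervalIntegral.integral_congr fun θ _ => ?_
    simp
  have e3 : (∫ θ in (0:ℝ)..(2 * Real.pi), -(F θ).re * w θ) =
      -∫ θ in (0:ℝ)..(2 * Real.pi), (F θ).re * w θ := by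
    rw [← intervalIntegral.integral_neg]
    refine intervalIntegral.integral_congr fun θ _ => ?_
    ring
  rw [Complex.sq_norm, Complex.normSq_apply, e1, e2, e3]
  ring

lemma energy_density {T L : ℝ} {B : ℝ → ℝ} (hT : 0 < T) (hB : QP L B) {t : ℝ} (h0 : 0 < t)
    (h1 : t < 2 * T) :
    (∫⁻ θ in Ioo 0 (2 * Real.pi), (‖deriv (fun t => lam T B t θ) t‖ₑ ^ 2 +
      ‖deriv (fun θ => lam T B t θ) θ‖ₑ ^ 2)) =
    ENNReal.ofReal (L ^ 2 / (2 * Real.pi)) + ∑' n : ℕ, ENNReal.ofReal (Real.pi * n ^ 2 *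
      mode L B n * (Real.cosh (2 * n * (T - t)) / Real.cosh (n * T) ^ 2)) := by
  have hpi : Real.pi ≠ 0 := Real.pi_ne_zero
  have hpi0 : 0 < Real.pi := Real.pi_pos
  set F : ℝ → ℂ := fun θ => deriv (LcF T B) (θ - t * I) with hFdef
  have hF : Continuous F := FB2_F hT hB h0 h1
  have hint : Integrable (fun θ => ‖F θ‖ ^ 2) (volume.restrict (Ioo 0 (2 * Real.pi))) := by
    have h : IntegrableOn (fun θ => ‖F θ‖ ^ 2) (Icc 0 (2 * Real.pi)) :=
      (Continuous.continuousOn (by fun_prop)).integrableOn_Icc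
    exact h.mono_set Ioo_subset_Icc_self
  have e1 : (∫⁻ θ in Ioo 0 (2 * Real.pi), (‖deriv (fun t => lam T B t θ) t‖ₑ ^ 2 +
      ‖deriv (fun θ => lam T B t θ) θ‖ₑ ^ 2)) =
      ENNReal.ofReal (∫ θ in (0:ℝ)..(2 * Real.pi), ‖F θ‖ ^ 2) := by
    rw [intervalIntegral.integral_of_le FB2_pos.le, integral_Ioc_eq_integral_Ioo,
      ofReal_integral_eq_lintegral_ofReal hint (Eventually.of_forall fun _ => sq_nonneg _)]
    refine lintegral_congr fun θ => ?_
    rw [(lam_hasDerivAt_t hT hB h0 h1 θ).deriv, (lam_hasDerivAt_theta hT hB h0 h1 θ).deriv,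
      FB2_enorm, Complex.sq_norm, Complex.normSq_apply]
    congr 1
    ring
  set v : ℕ → ℝ := fun n => Real.pi * n ^ 2 *
      mode L B n * (Real.cosh (2 * n * (T - t)) / Real.cosh (n * T) ^ 2) with hv
  have hv0 : ∀ n, 0 ≤ v n := by
    intro n
    have hm : 0 ≤ mode L B n := by unfold mode; positivity
    have hc := (Real.cosh_pos (2 * n * (T - t))).le
    simp only [hv]
    positivity
  have k := FB2_parseval hF
  have k1 : ∀ n : ℕ, (‖∫ θ in (0:ℝ)..(2 * Real.pi), F θ * (Real.cos (n * θ) : ℂ)‖ ^ 2 +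
       ‖∫ θ in (0:ℝ)..(2 * Real.pi), F θ * (Real.sin (n * θ) : ℂ)‖ ^ 2) / Real.pi =
       v n + (if n = 0 then L ^ 2 / Real.pi else 0) := by
    intro n
    rw [FB2_normint hF (w := fun θ => Real.cos (n * θ)) (by fun_prop),
      FB2_normint hF (w := fun θ => Real.sin (n * θ)) (by fun_prop)]
    rw [FB2_hc hT hB h0 h1 n, FB2_hs hT hB h0 h1 n, FB2_gc hT hB h0 h1 n, FB2_gs hT hB h0 h1 n,
      ac_lam hT hB h0 h1 n, bs_lam hT hB h0 h1 n]
    have hch : Real.cosh (2 * n * (T - t)) = Real.cosh (n * (T - t)) ^ 2 +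
        Real.sinh (n * (T - t)) ^ 2 := by
      rw [mul_assoc, Real.cosh_two_mul]
    have hcp : Real.cosh (n * T) ≠ 0 := (Real.cosh_pos _).ne'
    simp only [hv, mode]
    rw [hch]
    split_ifs with hn
    · subst hn
      simp
    · field_simp
      ring
  have k2 : ‖∫ θ in (0:ℝ)..(2 * Real.pi), F θ‖ ^ 2 = L ^ 2 := by
    have h2 := FB2_normint hF (w := fun θ => Real.cos ((0 : ℕ) * θ)) (by fun_prop)
    rw [FB2_hc hT hB h0 h1 0, FB2_gc hT hB h0 h1 0] at h2
    simpa using h2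
  rw [k2] at k
  have k3 : HasSum v ((∫ θ in (0:ℝ)..(2 * Real.pi), ‖F θ‖ ^ 2) + L ^ 2 / (2 * Real.pi) -
      L ^ 2 / Real.pi) := by
    have h3 : HasSum (fun n : ℕ => if n = 0 then L ^ 2 / Real.pi else 0) (L ^ 2 / Real.pi) := by
      have := hasSum_ite_eq (0 : ℕ) (L ^ 2 / Real.pi)
      exact this
    have h4 := k.sub h3
    have h5 : (fun n : ℕ => (‖∫ θ in (0:ℝ)..(2 * Real.pi), F θ * (Real.cos (n * θ) : ℂ)‖ ^ 2 +
       ‖∫ θ in (0:ℝ)..(2 * Real.pi), F θ * (Real.sin (n * θ) : ℂ)‖ ^ 2) / Real.pi -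
       (if n = 0 then L ^ 2 / Real.pi else 0)) = v := by
      funext n
      rw [k1 n]
      ring
    rw [h5] at h4
    exact h4
  rw [e1, ← ENNReal.ofReal_tsum_of_nonneg hv0 k3.summable, k3.tsum_eq,
    ← ENNReal.ofReal_add (by positivity) (k3.tsum_eq ▸ tsum_nonneg hv0)]
  congr 1
  field_simp
  ring

end CF6

end

section

/-! # Module F of MP_cf6b16_an, row FB3 : total energy and its distribution

Integrate energy_density over t (lintegral_tsum). The density is a nonincreasing function e(t) of t in (0,T] (cosh(2n(T-t)) decreasing), so (1/sigma) int_{T-sigma}^T e <= (1/T) int_0^T e, and e(t) <= (1/t) int_0^t e.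
int_0^T n^2 cosh(2n(T-t))/cosh^2(nT) dt = n sinh(2nT)/(2cosh^2(nT)) = n tanh(nT).
-/

open Complex MeasureTheory Set Filter Topology Metric intervalIntegral
open scoped ENNReal

namespace CF6

private lemma fb3_sinh (n : ℕ) {σ T : ℝ} (h0 : 0 ≤ σ) (h1 : σ ≤ T) :
    T * Real.sinh (2 * n * σ) ≤ σ * Real.sinh (2 * n * T) := by
  have hT : 0 ≤ T := h0.trans h1
  set g : ℝ → ℝ := fun x => σ * Real.sinh (T * x) - T * Real.sinh (σ * x) with hg
  have hd : ∀ x, HasDerivAt g (σ * (Real.cosh (T * x) * T) - T * (Real.cosh (σ * x) * σ)) x := by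
    intro x
    have a1 : HasDerivAt (fun x : ℝ => T * x) T x := by
      simpa using (hasDerivAt_id x).const_mul T
    have a2 : HasDerivAt (fun x : ℝ => σ * x) σ x := by
      simpa using (hasDerivAt_id x).const_mul σ
    have b1 := (a1.sinh).const_mul σ
    have b2 := (a2.sinh).const_mul T
    exact b1.sub b2
  have hmono : MonotoneOn g (Ici 0) := by
    apply monotoneOn_of_deriv_nonneg (convex_Ici 0)
    · exact (continuous_iff_continuousAt.2 fun x => (hd x).continuousAt).continuousOn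
    · intro x _
      exact (hd x).differentiableAt.differentiableWithinAt
    · intro x hx
      rw [(hd x).deriv]
      have hx0 : 0 ≤ x := by
        have := interior_subset hx
        simpa using this
      have : Real.cosh (σ * x) ≤ Real.cosh (T * x) := by
        rw [Real.cosh_le_cosh]
        rw [abs_of_nonneg (by positivity), abs_of_nonneg (by positivity)]
        exact mul_le_mul_of_nonneg_right h1 hx0
      have h2 : 0 ≤ σ * T * (Real.cosh (T * x) - Real.cosh (σ * x)) :=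
        mul_nonneg (mul_nonneg h0 hT) (sub_nonneg.2 this)
      linarith [h2, show σ * (Real.cosh (T * x) * T) - T * (Real.cosh (σ * x) * σ) =
        σ * T * (Real.cosh (T * x) - Real.cosh (σ * x)) by ring]
  have h2n : (0 : ℝ) ≤ 2 * n := by positivity
  have := hmono (a := 0) (b := 2 * n) (by simp) h2n h2n
  simp only [hg, mul_zero, Real.sinh_zero, sub_zero] at this
  have e1 : T * (2 * (n : ℝ)) = 2 * n * T := by ring
  have e2 : σ * (2 * (n : ℝ)) = 2 * n * σ := by ring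
  rw [e1, e2] at this
  linarith

private lemma fb3_int (n : ℕ) {σ T : ℝ} (h0 : 0 ≤ σ) :
    ∫ t in (T - σ)..T, (n : ℝ) ^ 2 * Real.cosh (2 * n * (T - t)) = n * Real.sinh (2 * n * σ) / 2 := by
  have hd : ∀ t ∈ uIcc (T - σ) T, HasDerivAt (fun t => -(n * Real.sinh (2 * n * (T - t)) / 2))
      ((n : ℝ) ^ 2 * Real.cosh (2 * n * (T - t))) t := by
    intro t _
    have a1 : HasDerivAt (fun t : ℝ => 2 * (n : ℝ) * (T - t)) (2 * (n : ℝ) * (0 - 1)) t :=
      ((hasDerivAt_const t T).sub (hasDerivAt_id t)).const_mul _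
    have b1 := (((a1.sinh).const_mul (n : ℝ)).div_const 2).neg
    exact b1.congr_deriv (by ring)
  rw [integral_eq_sub_of_hasDerivAt hd]
  · simp
  · apply Continuous.intervalIntegrable
    fun_prop

private lemma fb3_gen {T L : ℝ} {B : ℝ → ℝ} (hT : 0 < T) (hB : QP L B) (σ : ℝ) (h0 : 0 ≤ σ)
    (h1 : σ ≤ T) : elam T B (T - σ) = ENNReal.ofReal (L ^ 2 / (2 * Real.pi) * σ) +
      ∑' n : ℕ, ENNReal.ofReal (Real.pi * mode L B n *
        (n * Real.sinh (2 * n * σ) / 2 / Real.cosh (n * T) ^ 2)) := by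
  have hmode : ∀ n, 0 ≤ mode L B n := fun n => by unfold mode; positivity
  have e1 : elam T B (T - σ) = ∫⁻ t in Ioo (T - σ) T, (ENNReal.ofReal (L ^ 2 / (2 * Real.pi)) +
      ∑' n : ℕ, ENNReal.ofReal (Real.pi * n ^ 2 *
      mode L B n * (Real.cosh (2 * n * (T - t)) / Real.cosh (n * T) ^ 2))) := by
    unfold elam
    apply setLIntegral_congr_fun measurableSet_Ioo
    intro t ht
    exact energy_density hT hB (by linarith [ht.1]) (by linarith [ht.2])
  rw [e1, lintegral_add_left measurable_const, lintegral_tsum]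
  · congr 1
    · rw [setLIntegral_const, Real.volume_Ioo, ← ENNReal.ofReal_mul (by positivity)]
      congr 1
      ring
    · congr 1
      ext n
      rw [restrict_Ioo_eq_restrict_Ioc]
      rw [← ofReal_integral_eq_lintegral_ofReal]
      · rw [← intervalIntegral.integral_of_le (by linarith)]
        congr 1
        have : ∀ t : ℝ, Real.pi * (n : ℝ) ^ 2 * mode L B n *
            (Real.cosh (2 * n * (T - t)) / Real.cosh (n * T) ^ 2) =
            (Real.pi * mode L B n / Real.cosh (n * T) ^ 2) *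
              ((n : ℝ) ^ 2 * Real.cosh (2 * n * (T - t))) := by
          intro t; ring
        simp_rw [this]
        rw [intervalIntegral.integral_const_mul, fb3_int n h0]
        ring
      · apply Continuous.integrableOn_Ioc
        fun_prop (disch := positivity)
      · refine Eventually.of_forall fun t => ?_
        have := hmode n
        have := Real.cosh_pos (2 * n * (T - t))
        simp only [Pi.zero_apply]
        positivity
  · intro n
    apply Measurable.aemeasurable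
    apply ENNReal.measurable_ofReal.comp
    apply Continuous.measurable
    fun_prop (disch := positivity)

theorem elam_tail {T L : ℝ} {B : ℝ → ℝ} (hT : 0 < T) (hB : QP L B) (σ : ℝ) (h0 : 0 ≤ σ)
    (h1 : σ ≤ T) : elam T B (T - σ) ≤ ENNReal.ofReal (σ / T) * elam T B 0 := by
  have hmode : ∀ n, 0 ≤ mode L B n := fun n => by unfold mode; positivity
  have e0 := fb3_gen hT hB T hT.le le_rfl
  rw [sub_self] at e0
  rw [fb3_gen hT hB σ h0 h1, e0, mul_add, ← ENNReal.tsum_mul_left]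
  refine add_le_add ?_ (ENNReal.tsum_le_tsum fun n => ?_)
  · rw [← ENNReal.ofReal_mul (by positivity)]
    apply ENNReal.ofReal_le_ofReal
    apply le_of_eq
    field_simp
  · rw [← ENNReal.ofReal_mul (by positivity)]
    apply ENNReal.ofReal_le_ofReal
    have hs := fb3_sinh n h0 h1
    have hm := hmode n
    have hc : 0 < Real.cosh (n * T) ^ 2 := by positivity
    rw [div_mul_eq_mul_div, le_div_iff₀ hT]
    have key : 0 ≤ (Real.pi * mode L B n * n / 2 / Real.cosh (n * T) ^ 2) *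
        (σ * Real.sinh (2 * n * T) - T * Real.sinh (2 * n * σ)) :=
      mul_nonneg (by positivity) (by linarith)
    have e : σ * (Real.pi * mode L B n * (n * Real.sinh (2 * n * T) / 2 / Real.cosh (n * T) ^ 2)) -
        Real.pi * mode L B n * (n * Real.sinh (2 * n * σ) / 2 / Real.cosh (n * T) ^ 2) * T =
        (Real.pi * mode L B n * n / 2 / Real.cosh (n * T) ^ 2) *
        (σ * Real.sinh (2 * n * T) - T * Real.sinh (2 * n * σ)) := by ring
    linarith

/-- energy on the circle `t`: at most the mean over `(0,t)` -/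
theorem energy_density_le {T L : ℝ} {B : ℝ → ℝ} (hT : 0 < T) (hB : QP L B) {t : ℝ} (h0 : 0 < t)
    (h1 : t ≤ T) :
    (∫⁻ θ in Ioo 0 (2 * Real.pi), (‖deriv (fun t => lam T B t θ) t‖ₑ ^ 2 +
      ‖deriv (fun θ => lam T B t θ) θ‖ₑ ^ 2)) ≤ ENNReal.ofReal (1 / t) * elam T B 0 := by
  have hmode : ∀ n, 0 ≤ mode L B n := fun n => by unfold mode; positivity
  set e : ℝ → ℝ≥0∞ := fun t => ∫⁻ θ in Ioo 0 (2 * Real.pi),
    (‖deriv (fun t => lam T B t θ) t‖ₑ ^ 2 + ‖deriv (fun θ => lam T B t θ) θ‖ₑ ^ 2) with he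
  have hanti : ∀ s, 0 < s → s ≤ t → e t ≤ e s := by
    intro s hs hst
    simp only [he]
    rw [energy_density hT hB h0 (by linarith), energy_density hT hB hs (by linarith)]
    refine add_le_add le_rfl (ENNReal.tsum_le_tsum fun n => ?_)
    apply ENNReal.ofReal_le_ofReal
    have hm := hmode n
    have : Real.cosh (2 * n * (T - t)) ≤ Real.cosh (2 * n * (T - s)) := by
      rw [Real.cosh_le_cosh, abs_of_nonneg (by have : 0 ≤ T - t := by linarith
                                               positivity),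
        abs_of_nonneg (by have : 0 ≤ T - s := by linarith
                          positivity)]
      apply mul_le_mul_of_nonneg_left (by linarith) (by positivity)
    gcongr
  have hlow : ENNReal.ofReal t * e t ≤ elam T B 0 := by
    calc ENNReal.ofReal t * e t = ∫⁻ _ in Ioo 0 t, e t := by
          rw [setLIntegral_const, Real.volume_Ioo, sub_zero, mul_comm]
      _ ≤ ∫⁻ s in Ioo 0 t, e s := by
          apply setLIntegral_mono' measurableSet_Ioo
          intro s hs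
          exact hanti s hs.1 hs.2.le
      _ ≤ ∫⁻ s in Ioo 0 T, e s := by
          apply lintegral_mono_set
          exact Ioo_subset_Ioo le_rfl h1
      _ = elam T B 0 := rfl
  calc e t = ENNReal.ofReal (1 / t) * (ENNReal.ofReal t * e t) := by
        rw [← mul_assoc, ← ENNReal.ofReal_mul (by positivity), one_div,
          inv_mul_cancel₀ h0.ne', ENNReal.ofReal_one, one_mul]
    _ ≤ ENNReal.ofReal (1 / t) * elam T B 0 := mul_le_mul_right hlow _

theorem elam_eq {T L : ℝ} {B : ℝ → ℝ} (hT : 0 < T) (hB : QP L B) :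
    elam T B 0 = ENNReal.ofReal (L ^ 2 * T / (2 * Real.pi)) +
      ∑' n : ℕ, ENNReal.ofReal (Real.pi * n * Real.tanh (n * T) * mode L B n) := by
  have e0 := fb3_gen hT hB T hT.le le_rfl
  rw [sub_self] at e0
  rw [e0]
  congr 1
  · congr 1
    ring
  · congr 1
    ext n
    congr 1
    have hc : Real.cosh (n * T) ≠ 0 := (Real.cosh_pos _).ne'
    rw [show 2 * (n : ℝ) * T = 2 * (n * T) by ring, Real.sinh_two_mul, Real.tanh_eq_sinh_div_cosh]
    field_simp

end CF6

end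

section

/-! # Module F of MP_cf6b16_an, row FB4a : integration by parts inequality for dominated functions

Extend f from S to F(x) = sInf { f y + |int_x^y m| : y in S cap [a,b] } : |F(x)-F(x')| <= |int_x^x' m|, F = f on S (density of S). F is absolutely continuous (AbsolutelyContinuousOnInterval, compare with
IntervalIntegrable.absolutelyContinuousOnInterval_intervalIntegral), |F'| <= m a.e. (Lebesgue differentiation), integral_mul_deriv_eq_deriv_mul. Or a direct Riemann sum proof with partition points in S.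
-/

open Complex MeasureTheory Set Filter Topology Metric intervalIntegral
open scoped ENNReal

namespace CF6

private lemma fb4a_exists {a b u v : ℝ} {S : Set ℝ} (hS : volume (Icc a b \ S) = 0) (hu : a ≤ u)
    (huv : u < v) (hv : v ≤ b) : ∃ y ∈ S, u < y ∧ y < v := by
  by_contra hcon
  push Not at hcon
  have hsub : Ioo u v ⊆ Icc a b \ S := fun y hy =>
    ⟨⟨by linarith [hy.1], by linarith [hy.2]⟩, fun hyS => absurd hy.2 (not_lt.2 (hcon y hyS hy.1))⟩
  have h0 : volume (Ioo u v) = 0 := measure_mono_null hsub hS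
  rw [Real.volume_Ioo, ENNReal.ofReal_eq_zero] at h0
  linarith

private lemma fb4a_sub {a b : ℝ} {m : ℝ → ℝ} (hm : IntervalIntegrable m volume a b)
    {x y : ℝ} (hx : x ∈ Icc a b) (hy : y ∈ Icc a b) :
    (∫ t in a..y, m t) - ∫ t in a..x, m t = ∫ t in x..y, m t := by
  have hab : a ≤ b := hx.1.trans hx.2
  have h1 : ∀ z ∈ Icc a b, IntervalIntegrable m volume a z := by
    intro z hz
    refine hm.mono_set ?_
    rw [uIcc_of_le hz.1, uIcc_of_le hab]
    exact Icc_subset_Icc_right hz.2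
  exact integral_interval_sub_left (h1 y hy) (h1 x hx)

private lemma fb4a_lip {a b : ℝ} {S : Set ℝ} {m f : ℝ → ℝ}
    (hm : IntervalIntegrable m volume a b)
    (h : ∀ x ∈ S, ∀ y ∈ S, a ≤ x → x ≤ y → y ≤ b → |f y - f x| ≤ ∫ t in x..y, m t)
    {x y : ℝ} (hx : x ∈ S ∩ Icc a b) (hy : y ∈ S ∩ Icc a b) :
    |f x - f y| ≤ |(∫ t in a..x, m t) - ∫ t in a..y, m t| := by
  rcases le_total x y with hxy | hxy
  · have h1 := h x hx.1 y hy.1 hx.2.1 hxy hy.2.2
    rw [← fb4a_sub hm hx.2 hy.2] at h1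
    rw [abs_sub_comm (f x), abs_sub_comm (∫ t in a..x, m t)]
    exact h1.trans (le_abs_self _)
  · have h1 := h y hy.1 x hx.1 hy.2.1 hxy hx.2.2
    rw [← fb4a_sub hm hy.2 hx.2] at h1
    exact h1.trans (le_abs_self _)

private lemma fb4a_ext {a b : ℝ} {S : Set ℝ} {m f : ℝ → ℝ}
    (hm : IntervalIntegrable m volume a b)
    (h : ∀ x ∈ S, ∀ y ∈ S, a ≤ x → x ≤ y → y ≤ b → |f y - f x| ≤ ∫ t in x..y, m t) :
    ∃ F : ℝ → ℝ, (∀ x ∈ S ∩ Icc a b, F x = f x) ∧
      ∀ x y, |F x - F y| ≤ |(∫ t in a..x, m t) - ∫ t in a..y, m t| := by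
  set G : ℝ → ℝ := fun x => ∫ t in a..x, m t with hG
  set T : Set ℝ := S ∩ Icc a b with hT
  have hinv : ∀ t ∈ G '' T, Function.invFunOn G T t ∈ T ∧ G (Function.invFunOn G T t) = t := by
    rintro t ⟨x, hx, hxt⟩
    exact ⟨Function.invFunOn_mem ⟨x, hx, hxt⟩, Function.invFunOn_eq ⟨x, hx, hxt⟩⟩
  have hlip : LipschitzOnWith 1 (fun t => f (Function.invFunOn G T t)) (G '' T) := by
    refine LipschitzOnWith.of_dist_le_mul fun t ht s hs => ?_
    rw [NNReal.coe_one, one_mul, Real.dist_eq, Real.dist_eq]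
    have h1 := fb4a_lip hm h (hinv t ht).1 (hinv s hs).1
    have h2 : (∫ t in a..(Function.invFunOn G T t), m t) = t := (hinv t ht).2
    have h3 : (∫ t in a..(Function.invFunOn G T s), m t) = s := (hinv s hs).2
    rw [h2, h3] at h1
    exact h1
  obtain ⟨g, hg, hgE⟩ := hlip.extend_real
  refine ⟨fun x => g (G x), fun x hx => ?_, fun x y => ?_⟩
  · have h1 : f (Function.invFunOn G T (G x)) = g (G x) := hgE ⟨x, hx, rfl⟩
    change g (G x) = f x
    rw [← h1]
    have h2 := fb4a_lip hm h (hinv (G x) ⟨x, hx, rfl⟩).1 hx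
    have h3 : (∫ t in a..(Function.invFunOn G T (G x)), m t) = G x :=
      (hinv (G x) ⟨x, hx, rfl⟩).2
    rw [h3] at h2
    have h4 : |G x - ∫ t in a..x, m t| = 0 := by
      rw [hG]
      simp
    rw [h4] at h2
    have h5 := abs_nonpos_iff.1 h2
    linarith
  · have h1 := hg.dist_le_mul (G x) (G y)
    rw [NNReal.coe_one, one_mul, Real.dist_eq, Real.dist_eq] at h1
    exact h1

private lemma fb4a_slope {F G : ℝ → ℝ} (hFG : ∀ x y, |F x - F y| ≤ |G x - G y|) {x F' G' : ℝ}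
    (hF : HasDerivAt F F' x) (hG : HasDerivAt G G' x) : |F'| ≤ |G'| := by
  have h1 := (hasDerivAt_iff_tendsto_slope.1 hF).abs
  have h2 := (hasDerivAt_iff_tendsto_slope.1 hG).abs
  refine le_of_tendsto_of_tendsto h1 h2 (Eventually.of_forall fun y => ?_)
  simp only [slope_def_field, abs_div]
  exact div_le_div_of_nonneg_right (hFG y x) (abs_nonneg _)

private lemma fb4a_nonneg {a b : ℝ} {S : Set ℝ} (hS : volume (Icc a b \ S) = 0)
    {m f : ℝ → ℝ} (hm : IntervalIntegrable m volume a b)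
    (h : ∀ x ∈ S, ∀ y ∈ S, a ≤ x → x ≤ y → y ≤ b → |f y - f x| ≤ ∫ t in x..y, m t)
    {x : ℝ} (hx : x ∈ S) (hax : a ≤ x) (hxb : x < b)
    (hG : HasDerivAt (fun x => ∫ t in a..x, m t) (m x) x) : 0 ≤ m x := by
  by_contra hneg
  push Not at hneg
  have h1 := (hasDerivAt_iff_tendsto_slope.1 hG).eventually_lt_const hneg
  have h2 : ∀ᶠ y in 𝓝[>] x, slope (fun x => ∫ t in a..x, m t) x y < 0 :=
    h1.filter_mono (nhdsWithin_mono x fun y hy => ne_of_gt hy)
  obtain ⟨u, hu, husub⟩ := mem_nhdsGT_iff_exists_Ioo_subset.1 h2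
  obtain ⟨y, hyS, hy1, hy2⟩ := fb4a_exists hS hax (lt_min hu hxb) (min_le_right u b)
  have h3 : slope (fun x => ∫ t in a..x, m t) x y < 0 :=
    husub ⟨hy1, hy2.trans_le (min_le_left _ _)⟩
  have hyb : y ≤ b := hy2.le.trans (min_le_right _ _)
  have h4 := (abs_nonneg _).trans (h x hx y hyS hax hy1.le hyb)
  rw [← fb4a_sub hm ⟨hax, hxb.le⟩ ⟨hax.trans hy1.le, hyb⟩] at h4
  rw [slope_def_field] at h3
  have h5 : 0 ≤ ((∫ t in a..y, m t) - ∫ t in a..x, m t) / (y - x) :=
    div_nonneg h4 (by linarith)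
  linarith

/-- integration by parts inequality for a function dominated by `∫ m` on a set of full measure -/
lemma ac_ibp {a b : ℝ} (hab : a ≤ b) {S : Set ℝ} (hS : volume (Icc a b \ S) = 0) (ha : a ∈ S)
    (hb : b ∈ S) {m f φ : ℝ → ℝ} (hm : IntervalIntegrable m volume a b)
    (h : ∀ x ∈ S, ∀ y ∈ S, a ≤ x → x ≤ y → y ≤ b → |f y - f x| ≤ ∫ t in x..y, m t)
    (hφ : ContDiff ℝ 1 φ) :
    |φ b * f b - φ a * f a - ∫ x in a..b, deriv φ x * f x| ≤ ∫ x in a..b, |φ x| * m x := by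
  obtain ⟨F, hFf, hFG⟩ := fb4a_ext hm h
  have hGac : AbsolutelyContinuousOnInterval (fun x => ∫ t in a..x, m t) a b :=
    hm.absolutelyContinuousOnInterval_intervalIntegral left_mem_uIcc
  have hFac : AbsolutelyContinuousOnInterval F a b := by
    rw [absolutelyContinuousOnInterval_iff] at hGac ⊢
    intro ε hε
    obtain ⟨δ, hδ, hd⟩ := hGac ε hε
    refine ⟨δ, hδ, fun E hE hs => lt_of_le_of_lt (Finset.sum_le_sum fun i _ => ?_) (hd E hE hs)⟩
    rw [Real.dist_eq, Real.dist_eq]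
    exact hFG _ _
  have hφac : AbsolutelyContinuousOnInterval φ a b :=
    hφ.contDiffOn.absolutelyContinuousOnInterval
  have hFa : F a = f a := hFf a ⟨ha, left_mem_Icc.2 hab⟩
  have hFb : F b = f b := hFf b ⟨hb, right_mem_Icc.2 hab⟩
  have haeS : ∀ᵐ t, t ∉ Icc a b \ S := measure_eq_zero_iff_ae_notMem.1 hS
  have hint : ∫ x in a..b, deriv φ x * f x = ∫ x in a..b, deriv φ x * F x := by
    refine integral_congr_ae ?_
    filter_upwards [haeS] with t ht hmem
    rw [uIoc_of_le hab] at hmem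
    have h1 : t ∈ Icc a b := ⟨hmem.1.le, hmem.2⟩
    have h2 : t ∈ S := by
      by_contra hc
      exact ht ⟨h1, hc⟩
    rw [hFf t ⟨h2, h1⟩]
  have hibp := hφac.integral_mul_deriv_eq_deriv_mul hFac
  rw [hint, ← hFa, ← hFb, ← hibp, ← Real.norm_eq_abs]
  refine norm_integral_le_of_norm_le hab ?_ (hm.continuousOn_mul hφ.continuous.abs.continuousOn)
  have hbne : ∀ᵐ t : ℝ, t ≠ b := by
    have : ({b} : Set ℝ)ᶜ ∈ ae (volume : Measure ℝ) := compl_mem_ae_iff.2 (measure_singleton b)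
    exact this
  filter_upwards [haeS, hFac.ae_differentiableAt, hm.ae_hasDerivAt_integral, hbne]
    with t ht hd hG htb hmem
  have h1 : t ∈ Icc a b := ⟨hmem.1.le, hmem.2⟩
  have h1' : t ∈ uIcc a b := by rwa [uIcc_of_le hab]
  have h2 : t ∈ S := by
    by_contra hc
    exact ht ⟨h1, hc⟩
  have hG' := hG h1' a left_mem_uIcc
  have h3 := fb4a_slope hFG (hd h1').hasDerivAt hG'
  have h4 := fb4a_nonneg hS hm h h2 h1.1 (lt_of_le_of_ne h1.2 htb) hG'
  rw [abs_of_nonneg h4] at h3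
  rw [norm_mul, Real.norm_eq_abs, Real.norm_eq_abs]
  exact mul_le_mul_of_nonneg_left h3 (abs_nonneg _)

end CF6

end

section

/-! # Module F of MP_cf6b16_an, row FB4b : lower bound of the energy of a competitor

Write Lam = LamN T L B N: smooth, Lam_tt + Lam_thth = 0, Lam_t(T,.) = 0, Lam(t,theta+2pi) = Lam + L.
(i) for t in Tg, choose x0 in Thg: ac_ibp on [x0,x0+2pi] with phi = Lam_theta(t,.): |Lam_theta(t,x0) L - int Lam_thth(t,.) f(t,.)| <= int |Lam_theta| mth. (x0 may be taken independent of t; the integral over [x0,x0+2pi] of the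
   NOT periodic function f: keep [x0,x0+2pi] throughout, all final integrals of periodic functions can be moved to (0,2pi).)
(ii) for theta in Thg: ac_ibp on [delta,T-delta'] with phi = Lam_t(.,theta), then limits delta, delta' -> 0 (f(t,theta) -> B theta by h3; at T: Lam_t(T,theta) = 0, Lam_t(t,theta) = O(T-t), f(t,theta) grows at most like (int m) which is O(sqrt(T-t))... bounded because mt(.,theta) is square
   integrable for a.e. theta): |-Lam_t(0,theta)B(theta) - int Lam_tt f| <= int |Lam_t| mt.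
(iii) integrate (i) over t and (ii) over theta in [x0,x0+2pi], add: the interior terms cancel: J := L int_0^T Lam_theta(t,x0)dt - int Lam_t(0,theta)B(theta) dtheta satisfies |J| <= int int (|Lam_t|mt + |Lam_theta|mth) <= (int int |D Lam|^2)^{1/2} (int int m^2)^{1/2}.
(iv) J = int int |D Lam|^2 =: e_N = L^2T/2pi + sum pi n tanh(nT) mode n (explicit computation, orthogonality of sines and cosines; or (i),(ii) as equalities for f = Lam and int Lam_t(0,.)(B - Lam(0,.)) = 0).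
So e_N^2 <= e_N int int m^2.
-/

open Complex MeasureTheory Set Filter Topology Metric intervalIntegral
open scoped ENNReal

namespace CF6

/-! ### trigonometric integrals -/

lemma FB4b_sin_two_pi (j : ℤ) : Real.sin ((j : ℝ) * (2 * Real.pi)) = 0 := by
  have := Real.sin_int_mul_pi (2 * j)
  rw [← this]
  push_cast
  ring_nf

lemma FB4b_cos_two_pi (j : ℤ) : Real.cos ((j : ℝ) * (2 * Real.pi)) = 1 := by
  exact Real.cos_int_mul_two_pi j

lemma FB4b_int_cos {j : ℤ} (hj : j ≠ 0) :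
    ∫ θ in (0 : ℝ)..(2 * Real.pi), Real.cos ((j : ℝ) * θ) = 0 := by
  have hj' : (j : ℝ) ≠ 0 := by exact_mod_cast hj
  rw [intervalIntegral.integral_comp_mul_left (fun x => Real.cos x) hj', integral_cos,
    mul_zero, Real.sin_zero, FB4b_sin_two_pi]
  simp

lemma FB4b_int_sin (j : ℤ) :
    ∫ θ in (0 : ℝ)..(2 * Real.pi), Real.sin ((j : ℝ) * θ) = 0 := by
  by_cases hj : j = 0
  · subst hj; simp
  have hj' : (j : ℝ) ≠ 0 := by exact_mod_cast hj
  rw [intervalIntegral.integral_comp_mul_left (fun x => Real.sin x) hj', integral_sin,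
    mul_zero, Real.cos_zero, FB4b_cos_two_pi]
  simp

lemma FB4b_ii {f : ℝ → ℝ} (hf : Continuous f) (a b : ℝ) : IntervalIntegrable f volume a b :=
  hf.intervalIntegrable a b

lemma FB4b_cc {n k : ℕ} (hn : 1 ≤ n) (_hk : 1 ≤ k) :
    ∫ θ in (0 : ℝ)..(2 * Real.pi), Real.cos (n * θ) * Real.cos (k * θ) =
      if n = k then Real.pi else 0 := by
  have e : ∀ θ : ℝ, Real.cos (n * θ) * Real.cos (k * θ) =
      (1 / 2) * Real.cos (((n - k : ℤ) : ℝ) * θ) + (1 / 2) * Real.cos (((n + k : ℤ) : ℝ) * θ) := by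
    intro θ
    have h1 : (((n - k : ℤ) : ℝ) * θ) = n * θ - k * θ := by push_cast; ring
    have h2 : (((n + k : ℤ) : ℝ) * θ) = n * θ + k * θ := by push_cast; ring
    rw [h1, h2, Real.cos_sub, Real.cos_add]
    ring
  simp_rw [e]
  rw [intervalIntegral.integral_add (FB4b_ii (by fun_prop) _ _) (FB4b_ii (by fun_prop) _ _),
    intervalIntegral.integral_const_mul, intervalIntegral.integral_const_mul,
    FB4b_int_cos (j := (n + k : ℤ)) (by omega)]
  by_cases h : n = k
  · subst h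
    simp
  · rw [FB4b_int_cos (j := (n - k : ℤ)) (by omega), if_neg h]
    simp

lemma FB4b_ss {n k : ℕ} (hn : 1 ≤ n) (_hk : 1 ≤ k) :
    ∫ θ in (0 : ℝ)..(2 * Real.pi), Real.sin (n * θ) * Real.sin (k * θ) =
      if n = k then Real.pi else 0 := by
  have e : ∀ θ : ℝ, Real.sin (n * θ) * Real.sin (k * θ) =
      (1 / 2) * Real.cos (((n - k : ℤ) : ℝ) * θ) - (1 / 2) * Real.cos (((n + k : ℤ) : ℝ) * θ) := by
    intro θ
    have h1 : (((n - k : ℤ) : ℝ) * θ) = n * θ - k * θ := by push_cast; ring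
    have h2 : (((n + k : ℤ) : ℝ) * θ) = n * θ + k * θ := by push_cast; ring
    rw [h1, h2, Real.cos_sub, Real.cos_add]
    ring
  simp_rw [e]
  rw [intervalIntegral.integral_sub (FB4b_ii (by fun_prop) _ _) (FB4b_ii (by fun_prop) _ _),
    intervalIntegral.integral_const_mul, intervalIntegral.integral_const_mul,
    FB4b_int_cos (j := (n + k : ℤ)) (by omega)]
  by_cases h : n = k
  · subst h
    simp
  · rw [FB4b_int_cos (j := (n - k : ℤ)) (by omega), if_neg h]
    simp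

lemma FB4b_sc (n k : ℕ) :
    ∫ θ in (0 : ℝ)..(2 * Real.pi), Real.sin (n * θ) * Real.cos (k * θ) = 0 := by
  have e : ∀ θ : ℝ, Real.sin (n * θ) * Real.cos (k * θ) =
      (1 / 2) * Real.sin (((n - k : ℤ) : ℝ) * θ) + (1 / 2) * Real.sin (((n + k : ℤ) : ℝ) * θ) := by
    intro θ
    have h1 : (((n - k : ℤ) : ℝ) * θ) = n * θ - k * θ := by push_cast; ring
    have h2 : (((n + k : ℤ) : ℝ) * θ) = n * θ + k * θ := by push_cast; ring
    rw [h1, h2, Real.sin_sub, Real.sin_add]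
    ring
  simp_rw [e]
  rw [intervalIntegral.integral_add (FB4b_ii (by fun_prop) _ _) (FB4b_ii (by fun_prop) _ _),
    intervalIntegral.integral_const_mul, intervalIntegral.integral_const_mul,
    FB4b_int_sin, FB4b_int_sin]
  simp

lemma FB4b_uu (x y x' y' : ℝ) {n k : ℕ} (hn : 1 ≤ n) (hk : 1 ≤ k) :
    ∫ θ in (0 : ℝ)..(2 * Real.pi), (x * Real.cos (n * θ) + y * Real.sin (n * θ)) *
      (x' * Real.cos (k * θ) + y' * Real.sin (k * θ)) =
      if n = k then Real.pi * (x * x' + y * y') else 0 := by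
  have e : ∀ θ : ℝ, (x * Real.cos (n * θ) + y * Real.sin (n * θ)) *
      (x' * Real.cos (k * θ) + y' * Real.sin (k * θ)) =
      (x * x') * (Real.cos (n * θ) * Real.cos (k * θ)) +
      (y * y') * (Real.sin (n * θ) * Real.sin (k * θ)) +
      (y * x') * (Real.sin (n * θ) * Real.cos (k * θ)) +
      (x * y') * (Real.sin (k * θ) * Real.cos (n * θ)) := by
    intro θ; ring
  simp_rw [e]
  rw [intervalIntegral.integral_add (FB4b_ii (by fun_prop) _ _) (FB4b_ii (by fun_prop) _ _),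
    intervalIntegral.integral_add (FB4b_ii (by fun_prop) _ _) (FB4b_ii (by fun_prop) _ _),
    intervalIntegral.integral_add (FB4b_ii (by fun_prop) _ _) (FB4b_ii (by fun_prop) _ _),
    intervalIntegral.integral_const_mul, intervalIntegral.integral_const_mul,
    intervalIntegral.integral_const_mul, intervalIntegral.integral_const_mul,
    FB4b_cc hn hk, FB4b_ss hn hk, FB4b_sc, FB4b_sc]
  by_cases h : n = k
  · rw [if_pos h, if_pos h]; ring
  · rw [if_neg h, if_neg h]; ring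

lemma FB4b_parseval (N : ℕ) (c : ℝ) (x y : ℕ → ℝ) :
    ∫ θ in (0 : ℝ)..(2 * Real.pi), (c + ∑ n ∈ Finset.Icc 1 N,
      (x n * Real.cos (n * θ) + y n * Real.sin (n * θ))) ^ 2 =
      2 * Real.pi * c ^ 2 + ∑ n ∈ Finset.Icc 1 N, Real.pi * (x n ^ 2 + y n ^ 2) := by
  have e : ∀ θ : ℝ, (c + ∑ n ∈ Finset.Icc 1 N,
      (x n * Real.cos (n * θ) + y n * Real.sin (n * θ))) ^ 2 =
      c ^ 2 + (2 * c) * (∑ n ∈ Finset.Icc 1 N, (x n * Real.cos (n * θ) + y n * Real.sin (n * θ))) +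
      ∑ n ∈ Finset.Icc 1 N, ∑ k ∈ Finset.Icc 1 N,
        (x n * Real.cos (n * θ) + y n * Real.sin (n * θ)) *
        (x k * Real.cos (k * θ) + y k * Real.sin (k * θ)) := by
    intro θ
    rw [← Finset.sum_mul_sum]
    ring
  simp_rw [e]
  rw [intervalIntegral.integral_add (FB4b_ii (by fun_prop) _ _) (FB4b_ii (by fun_prop) _ _),
    intervalIntegral.integral_add (FB4b_ii (by fun_prop) _ _) (FB4b_ii (by fun_prop) _ _),
    intervalIntegral.integral_const_mul,
    intervalIntegral.integral_finsetSum (fun n _ => FB4b_ii (by fun_prop) _ _),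
    intervalIntegral.integral_finsetSum (fun n _ => FB4b_ii (by fun_prop) _ _)]
  have h0 : ∀ n ∈ Finset.Icc 1 N, ∫ θ in (0 : ℝ)..(2 * Real.pi),
      (x n * Real.cos (n * θ) + y n * Real.sin (n * θ)) = 0 := by
    intro n hn
    have hn1 : 1 ≤ n := (Finset.mem_Icc.1 hn).1
    rw [intervalIntegral.integral_add (FB4b_ii (by fun_prop) _ _) (FB4b_ii (by fun_prop) _ _),
      intervalIntegral.integral_const_mul, intervalIntegral.integral_const_mul]
    have h1 := FB4b_int_cos (j := (n : ℤ)) (by omega)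
    have h2 := FB4b_int_sin (n : ℤ)
    rw [Int.cast_natCast] at h1 h2
    rw [h1, h2]
    ring
  rw [Finset.sum_eq_zero h0]
  have h1 : ∀ n ∈ Finset.Icc 1 N, ∫ θ in (0 : ℝ)..(2 * Real.pi), ∑ k ∈ Finset.Icc 1 N,
        (x n * Real.cos (n * θ) + y n * Real.sin (n * θ)) *
        (x k * Real.cos (k * θ) + y k * Real.sin (k * θ)) = Real.pi * (x n ^ 2 + y n ^ 2) := by
    intro n hn
    rw [intervalIntegral.integral_finsetSum (fun k _ => FB4b_ii (by fun_prop) _ _)]
    rw [Finset.sum_congr rfl (fun k hk => FB4b_uu (x n) (y n) (x k) (y k)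
      (Finset.mem_Icc.1 hn).1 (Finset.mem_Icc.1 hk).1)]
    rw [Finset.sum_ite_eq, if_pos hn]
    ring
  rw [Finset.sum_congr rfl h1]
  simp

/-! ### the inequality on a line -/

lemma FB4b_sub {m : ℝ → ℝ} {a b : ℝ} (hm : IntervalIntegrable m volume a b) (hab : a ≤ b)
    {x y : ℝ} (hx : x ∈ Icc a b) (hy : y ∈ Icc a b) : IntervalIntegrable m volume x y :=
  hm.mono_set (Set.uIcc_subset_uIcc (by rw [Set.uIcc_of_le hab]; exact hx)
    (by rw [Set.uIcc_of_le hab]; exact hy))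

/-- extension to the right end point -/
lemma FB4b_ext {S : Set ℝ} {m f : ℝ → ℝ} {a b : ℝ} (hm : IntervalIntegrable m volume a b)
    (hab : a ≤ b) (hm0 : ∀ x, 0 ≤ m x) (hS : S ⊆ Icc a b) (hne : S.Nonempty)
    (h : ∀ x ∈ S, ∀ y ∈ S, x ≤ y → |f y - f x| ≤ ∫ s in x..y, m s) :
    ∃ v, ∀ y ∈ S, |v - f y| ≤ ∫ s in y..b, m s := by
  have hbI : b ∈ Icc a b := ⟨hab, le_refl b⟩
  have key : ∀ y ∈ S, ∀ y' ∈ S, f y - (∫ s in y..b, m s) ≤ f y' + ∫ s in y'..b, m s := by
    intro y hy y' hy'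
    have p1 : 0 ≤ ∫ s in y..b, m s :=
      intervalIntegral.integral_nonneg (hS hy).2 (fun s _ => hm0 s)
    have p2 : 0 ≤ ∫ s in y'..b, m s :=
      intervalIntegral.integral_nonneg (hS hy').2 (fun s _ => hm0 s)
    rcases le_total y y' with hle | hle
    · have h1 := abs_le.1 (h y hy y' hy' hle)
      have h2 := intervalIntegral.integral_add_adjacent_intervals
        (FB4b_sub hm hab (hS hy) (hS hy')) (FB4b_sub hm hab (hS hy') hbI)
      linarith [h1.1]
    · have h1 := abs_le.1 (h y' hy' y hy hle)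
      have h2 := intervalIntegral.integral_add_adjacent_intervals
        (FB4b_sub hm hab (hS hy') (hS hy)) (FB4b_sub hm hab (hS hy) hbI)
      linarith [h1.2]
  let A : Set ℝ := (fun y => f y + ∫ s in y..b, m s) '' S
  have hAne : A.Nonempty := hne.image _
  have hAb : BddBelow A := by
    obtain ⟨y, hy⟩ := hne
    refine ⟨f y - ∫ s in y..b, m s, ?_⟩
    rintro _ ⟨y', hy', rfl⟩
    exact key y hy y' hy'
  refine ⟨sInf A, fun y hy => ?_⟩
  rw [abs_le]
  constructor
  · have : f y - (∫ s in y..b, m s) ≤ sInf A := by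
      refine le_csInf hAne ?_
      rintro _ ⟨y', hy', rfl⟩
      exact key y hy y' hy'
    linarith
  · have : sInf A ≤ f y + ∫ s in y..b, m s := csInf_le hAb ⟨y, hy, rfl⟩
    linarith

lemma FB4b_line2 {T : ℝ} (hT : 0 < T) {Tg : Set ℝ} (hTg : Tg ⊆ Ioo 0 T)
    (fT : volume (Ioo 0 T \ Tg) = 0) {m f : ℝ → ℝ} (β : ℝ)
    (hm : IntervalIntegrable m volume 0 T) (hm0 : ∀ t, 0 ≤ m t)
    (h2 : ∀ x ∈ Tg, ∀ y ∈ Tg, x ≤ y → |f y - f x| ≤ ∫ s in x..y, m s)
    (h3 : ∀ x ∈ Tg, |f x - β| ≤ ∫ s in (0 : ℝ)..x, m s) {φ : ℝ → ℝ}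
    (hφ : ContDiff ℝ 1 φ) (hφT : φ T = 0) :
    |-(φ 0 * β) - ∫ x in (0 : ℝ)..T, deriv φ x * f x| ≤ ∫ x in (0 : ℝ)..T, |φ x| * m x := by
  classical
  have hne : Tg.Nonempty := by
    by_contra hemp
    rw [Set.not_nonempty_iff_eq_empty] at hemp
    rw [hemp, Set.sdiff_empty, Real.volume_Ioo, sub_zero, ENNReal.ofReal_eq_zero] at fT
    linarith
  obtain ⟨v, hv⟩ := FB4b_ext hm hT.le hm0 (hTg.trans Set.Ioo_subset_Icc_self) hne h2
  let g : ℝ → ℝ := fun t => if t = 0 then β else if t = T then v else f t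
  have g0 : g 0 = β := if_pos rfl
  have gT : g T = v := by
    show (if T = 0 then β else if T = T then v else f T) = v
    rw [if_neg hT.ne', if_pos rfl]
  have gg : ∀ t, t ≠ 0 → t ≠ T → g t = f t := by
    intro t h0 h1
    show (if t = 0 then β else if t = T then v else f t) = f t
    rw [if_neg h0, if_neg h1]
  have gTg : ∀ t ∈ Tg, g t = f t := fun t ht => gg t (hTg ht).1.ne' (hTg ht).2.ne
  have hI : ∀ x ∈ Icc 0 T, ∀ y ∈ Icc 0 T, IntervalIntegrable m volume x y :=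
    fun x hx y hy => FB4b_sub hm hT.le hx hy
  have m0 : (0 : ℝ) ∈ Icc 0 T := ⟨le_refl _, hT.le⟩
  have mT : T ∈ Icc 0 T := ⟨hT.le, le_refl _⟩
  have hmain := ac_ibp (a := 0) (b := T) hT.le (S := Tg ∪ {0, T}) (m := m) (f := g) (φ := φ)
    (by
      refine measure_mono_null ?_ fT
      rintro x ⟨hx, hxS⟩
      have hx0 : x ≠ 0 := fun h => hxS (Or.inr (by rw [h]; exact Set.mem_insert _ _))
      have hxT : x ≠ T := fun h => hxS (Or.inr (by rw [h]; exact Set.mem_insert_of_mem _ rfl))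
      exact ⟨⟨lt_of_le_of_ne hx.1 (Ne.symm hx0), lt_of_le_of_ne hx.2 hxT⟩,
        fun h => hxS (Or.inl h)⟩)
    (Or.inr (Set.mem_insert _ _)) (Or.inr (Set.mem_insert_of_mem _ rfl)) hm
    (by
      intro x hx y hy h0x hxy hyT
      rcases eq_or_lt_of_le hxy with rfl | hlt
      · simp
      · rcases hx with hx | hx
        · have hx' := hTg hx
          have ex := gTg x hx
          rcases hy with hy | hy
          · rw [gTg y hy, ex]; exact h2 x hx y hy hxy
          · rcases hy with hy | hy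
            · rw [hy] at hlt
              exact absurd hlt (not_lt.2 h0x)
            · rw [Set.mem_singleton_iff.1 hy, gT, ex]; exact hv x hx
        · have hx0 : x = 0 := by
            rcases hx with hx | hx
            · exact hx
            · rw [Set.mem_singleton_iff.1 hx] at hlt
              exact absurd hlt (not_lt.2 hyT)
          rw [hx0, g0]
          rcases hy with hy | hy
          · rw [gTg y hy]; exact h3 y hy
          · rcases hy with hy | hy
            · rw [hy, hx0] at hlt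
              exact absurd hlt (lt_irrefl _)
            · rw [Set.mem_singleton_iff.1 hy, gT]
              obtain ⟨z, hz⟩ := hne
              have hz' := hTg hz
              have hzI : z ∈ Icc 0 T := ⟨hz'.1.le, hz'.2.le⟩
              have e1 := intervalIntegral.integral_add_adjacent_intervals
                (hI 0 m0 z hzI) (hI z hzI T mT)
              rw [← e1]
              have e2 : v - β = (f z - β) + (v - f z) := by ring
              rw [e2]
              exact (abs_add_le _ _).trans (add_le_add (h3 z hz) (hv z hz)))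
    hφ
  rw [hφT, g0, zero_mul, zero_sub] at hmain
  have e3 : ∫ x in (0 : ℝ)..T, deriv φ x * g x = ∫ x in (0 : ℝ)..T, deriv φ x * f x := by
    apply intervalIntegral.integral_congr_ae
    have hT0 : ∀ᵐ x : ℝ, x ≠ T := by
      rw [ae_iff]
      simp
    filter_upwards [hT0] with x hxT hx
    rw [Set.uIoc_of_le hT.le] at hx
    rw [gg x hx.1.ne' hxT]
  rw [e3] at hmain
  exact hmain

lemma FB4b_line1 {Θg : Set ℝ} (fΘ : volume Θgᶜ = 0)
    (pΘ : ∀ θ, θ ∈ Θg ↔ θ + 2 * Real.pi ∈ Θg) {m f : ℝ → ℝ} {L : ℝ} (hf : Measurable f)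
    (hm : ∀ x y : ℝ, IntervalIntegrable m volume x y)
    (h1 : ∀ x ∈ Θg, ∀ y ∈ Θg, x ≤ y → |f y - f x| ≤ ∫ s in x..y, m s)
    (h4 : ∀ x ∈ Θg, f (x + 2 * Real.pi) = f x + L) {φ : ℝ → ℝ}
    (hφ : ContDiff ℝ 1 φ) (hφp : ∀ x, φ (x + 2 * Real.pi) = φ x) :
    |φ 0 * L - ∫ x in (0 : ℝ)..(2 * Real.pi), deriv φ x * f x| ≤
      ∫ x in (0 : ℝ)..(2 * Real.pi), |φ x| * m x := by
  have hae : ∀ᵐ x : ℝ, x ∈ Θg := by
    rw [ae_iff]; exact fΘ
  have hdense : Dense Θg := Measure.dense_of_ae hae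
  obtain ⟨y0, hy0⟩ := hdense.nonempty
  have hpm : Continuous (fun y => ∫ s in y0..y, m s) := intervalIntegral.continuous_primitive hm y0
  have hfI : ∀ a b : ℝ, IntervalIntegrable f volume a b := by
    intro a b
    have hg : Continuous (fun y => |f y0| + |∫ s in y0..y, m s|) := by fun_prop
    refine (hg.intervalIntegrable a b).mono_fun' hf.aestronglyMeasurable.restrict ?_
    have hae2 : ∀ᵐ y ∂(volume.restrict (Set.uIoc a b)), y ∈ Θg := ae_restrict_of_ae hae
    filter_upwards [hae2] with y hy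
    rw [Real.norm_eq_abs]
    have e1 : f y = f y0 + (f y - f y0) := by ring
    have e2 : |f y - f y0| ≤ |∫ s in y0..y, m s| := by
      rcases le_total y0 y with hle | hle
      · exact (h1 y0 hy0 y hy hle).trans (le_abs_self _)
      · rw [abs_sub_comm, intervalIntegral.integral_symm, abs_neg]
        exact (h1 y hy y0 hy0 hle).trans (le_abs_self _)
    calc |f y| = |f y0 + (f y - f y0)| := by rw [← e1]
      _ ≤ |f y0| + |f y - f y0| := abs_add_le _ _
      _ ≤ _ := by linarith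
  have hφ' : Continuous (deriv φ) := hφ.continuous_deriv (le_refl 1)
  have hI1 : ∀ a b : ℝ, IntervalIntegrable (fun x => deriv φ x * f x) volume a b :=
    fun a b => (hfI a b).continuousOn_mul hφ'.continuousOn
  have hI2 : ∀ a b : ℝ, IntervalIntegrable (fun x => |φ x| * m x) volume a b :=
    fun a b => (hm a b).continuousOn_mul (hφ.continuous.abs).continuousOn
  have hcont : ∀ h : ℝ → ℝ, (∀ a b : ℝ, IntervalIntegrable h volume a b) →
      Continuous (fun x => ∫ s in x..(x + 2 * Real.pi), h s) := by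
    intro h hh
    have e1 : (fun x => ∫ s in x..(x + 2 * Real.pi), h s) =
        fun x => (∫ s in (0 : ℝ)..(x + 2 * Real.pi), h s) - ∫ s in (0 : ℝ)..x, h s := by
      funext x
      rw [intervalIntegral.integral_interval_sub_left (hh _ _) (hh _ _)]
    rw [e1]
    have c1 := intervalIntegral.continuous_primitive hh 0
    exact (c1.comp (continuous_id.add continuous_const)).sub c1
  have hineq : Θg ⊆ {x | |φ x * L - ∫ s in x..(x + 2 * Real.pi), deriv φ s * f s| ≤
      ∫ s in x..(x + 2 * Real.pi), |φ s| * m s} := by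
    intro x hx
    have hπ : 0 < 2 * Real.pi := by positivity
    have hx2 : x + 2 * Real.pi ∈ Θg := (pΘ x).1 hx
    have h5 := ac_ibp (a := x) (b := x + 2 * Real.pi) (by linarith) (S := Θg) (m := m) (f := f)
      (φ := φ) (measure_mono_null (fun z hz => hz.2) fΘ) hx hx2 (hm _ _)
      (fun p hp q hq _ hpq _ => h1 p hp q hq hpq) hφ
    rw [hφp, h4 x hx] at h5
    have e1 : φ x * (f x + L) - φ x * f x = φ x * L := by ring
    rw [e1] at h5
    exact h5
  have hclosed : IsClosed {x | |φ x * L - ∫ s in x..(x + 2 * Real.pi), deriv φ s * f s| ≤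
      ∫ s in x..(x + 2 * Real.pi), |φ s| * m s} :=
    isClosed_le (((hφ.continuous.mul continuous_const).sub (hcont _ hI1)).abs) (hcont _ hI2)
  have h6 := closure_minimal hineq hclosed
  rw [hdense.closure_eq] at h6
  have h7 := h6 (Set.mem_univ 0)
  simp only [Set.mem_ofPred_eq, zero_add] at h7
  exact h7

/-! ### the inequality for general test functions -/

lemma FB4b_iv {a b : ℝ} (hab : a ≤ b) (h : ℝ → ℝ) :
    ∫ x in a..b, h x = ∫ x in Ioo a b, h x := by
  rw [intervalIntegral.integral_of_le hab, integral_Ioc_eq_integral_Ioo]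

lemma FB4b_main {T L : ℝ} {B : ℝ → ℝ} (hT : 0 < T) (hBc : Continuous B) (mt mθ f : ℝ → ℝ → ℝ)
    (hmt : Measurable (Function.uncurry mt)) (hmθ : Measurable (Function.uncurry mθ))
    (hf : Measurable (Function.uncurry f))
    (mt0 : ∀ t θ, 0 ≤ mt t θ) (mθ0 : ∀ t θ, 0 ≤ mθ t θ)
    (fin : (∫⁻ t in Ioo 0 T, ∫⁻ θ in Ioo 0 (2 * Real.pi),
      (ENNReal.ofReal (mt t θ) ^ 2 + ENNReal.ofReal (mθ t θ) ^ 2)) < ⊤)
    (Tg Θg : Set ℝ) (hTg : Tg ⊆ Ioo 0 T) (fT : volume (Ioo 0 T \ Tg) = 0)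
    (fΘ : volume Θgᶜ = 0) (pΘ : ∀ θ, θ ∈ Θg ↔ θ + 2 * Real.pi ∈ Θg)
    (iT : ∀ t ∈ Tg, ∀ x y : ℝ, IntervalIntegrable (mθ t) volume x y)
    (h1 : ∀ t ∈ Tg, ∀ x ∈ Θg, ∀ y ∈ Θg, x ≤ y → |f t y - f t x| ≤ ∫ s in x..y, mθ t s)
    (h2 : ∀ θ ∈ Θg, ∀ x ∈ Tg, ∀ y ∈ Tg, x ≤ y → |f y θ - f x θ| ≤ ∫ s in x..y, mt s θ)
    (h3 : ∀ θ ∈ Θg, ∀ x ∈ Tg, |f x θ - B θ| ≤ ∫ s in (0 : ℝ)..x, mt s θ)
    (h4 : ∀ t ∈ Tg, ∀ x ∈ Θg, f t (x + 2 * Real.pi) = f t x + L)
    (P Q R : ℝ → ℝ → ℝ) (hP : Continuous (Function.uncurry P))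
    (hQ : Continuous (Function.uncurry Q)) (hR : Continuous (Function.uncurry R))
    (hP1 : ∀ θ, ContDiff ℝ 1 (fun t => P t θ)) (hPR : ∀ θ t, deriv (fun t => P t θ) t = R t θ)
    (hQ1 : ∀ t, ContDiff ℝ 1 (fun θ => Q t θ)) (hQR : ∀ t θ, deriv (fun θ => Q t θ) θ = -R t θ)
    (hPT : ∀ θ, P T θ = 0) (hQp : ∀ t θ, Q t (θ + 2 * Real.pi) = Q t θ) :
    L * (∫ t in (0 : ℝ)..T, Q t 0) - ∫ θ in (0 : ℝ)..(2 * Real.pi), P 0 θ * B θ ≤
      (∫ t in (0 : ℝ)..T, ∫ θ in (0 : ℝ)..(2 * Real.pi), (P t θ ^ 2 + Q t θ ^ 2)) / 2 +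
      (∫⁻ t in Ioo 0 T, ∫⁻ θ in Ioo 0 (2 * Real.pi),
        (ENNReal.ofReal (mt t θ) ^ 2 + ENNReal.ofReal (mθ t θ) ^ 2)).toReal / 2 := by
  have hπ : (0 : ℝ) < 2 * Real.pi := by positivity
  set μ : Measure ℝ := volume.restrict (Ioo 0 T) with hμ
  set ν : Measure ℝ := volume.restrict (Ioo 0 (2 * Real.pi)) with hν
  have ivT : ∀ h : ℝ → ℝ, ∫ x in (0 : ℝ)..T, h x = ∫ x, h x ∂μ := fun h => FB4b_iv hT.le h
  have ivπ : ∀ h : ℝ → ℝ, ∫ x in (0 : ℝ)..(2 * Real.pi), h x = ∫ x, h x ∂ν :=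
    fun h => FB4b_iv hπ.le h
  have hbox : ∀ᵐ p ∂(μ.prod ν), p ∈ Icc 0 T ×ˢ Icc 0 (2 * Real.pi) := by
    have h5 : ∀ᵐ p ∂(μ.prod ν), p ∈ Ioo 0 T ×ˢ Ioo 0 (2 * Real.pi) := by
      rw [hμ, hν, Measure.prod_restrict]
      exact ae_restrict_mem (measurableSet_Ioo.prod measurableSet_Ioo)
    filter_upwards [h5] with p hp
    exact ⟨Ioo_subset_Icc_self hp.1, Ioo_subset_Icc_self hp.2⟩
  have hbd : ∀ F : ℝ × ℝ → ℝ, Continuous F → ∃ C : ℝ, ∀ᵐ p ∂(μ.prod ν), ‖F p‖ ≤ C := by
    intro F hF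
    obtain ⟨C, hC⟩ := (isCompact_Icc.prod isCompact_Icc :
      IsCompact (Icc 0 T ×ˢ Icc 0 (2 * Real.pi))).exists_bound_of_continuousOn hF.continuousOn
    refine ⟨C, ?_⟩
    filter_upwards [hbox] with p hp
    exact hC p hp
  have hcI : ∀ F : ℝ × ℝ → ℝ, Continuous F → Integrable F (μ.prod ν) := by
    intro F hF
    obtain ⟨C, hC⟩ := hbd F hF
    exact Integrable.of_bound hF.aestronglyMeasurable C hC
  have hmulI : ∀ F G : ℝ × ℝ → ℝ, Continuous F → Integrable G (μ.prod ν) →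
      Integrable (fun p => F p * G p) (μ.prod ν) := by
    intro F G hF hG
    obtain ⟨C, hC⟩ := hbd F hF
    exact hG.bdd_mul hF.aestronglyMeasurable hC
  -- the energy of the competitor
  have hmt' : Measurable (fun p : ℝ × ℝ => mt p.1 p.2) := hmt
  have hmθ' : Measurable (fun p : ℝ × ℝ => mθ p.1 p.2) := hmθ
  have hf' : Measurable (fun p : ℝ × ℝ => f p.1 p.2) := hf
  have hof : ∀ p : ℝ × ℝ, ENNReal.ofReal (mt p.1 p.2 ^ 2 + mθ p.1 p.2 ^ 2) =
      ENNReal.ofReal (mt p.1 p.2) ^ 2 + ENNReal.ofReal (mθ p.1 p.2) ^ 2 := by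
    intro p
    rw [ENNReal.ofReal_add (by positivity) (by positivity), ENNReal.ofReal_pow (mt0 _ _),
      ENNReal.ofReal_pow (mθ0 _ _)]
  have hEprod : ∫⁻ p, ENNReal.ofReal (mt p.1 p.2 ^ 2 + mθ p.1 p.2 ^ 2) ∂(μ.prod ν) =
      ∫⁻ t in Ioo 0 T, ∫⁻ θ in Ioo 0 (2 * Real.pi),
        (ENNReal.ofReal (mt t θ) ^ 2 + ENNReal.ofReal (mθ t θ) ^ 2) := by
    rw [lintegral_prod]
    · refine lintegral_congr (fun t => lintegral_congr (fun θ => hof (t, θ)))
    · exact (((hmt'.pow_const 2).add (hmθ'.pow_const 2)).ennreal_ofReal).aemeasurable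
  have hW : Integrable (fun p : ℝ × ℝ => mt p.1 p.2 ^ 2 + mθ p.1 p.2 ^ 2) (μ.prod ν) := by
    refine ⟨((hmt'.pow_const 2).add (hmθ'.pow_const 2)).aestronglyMeasurable, ?_⟩
    rw [hasFiniteIntegral_iff_ofReal (Eventually.of_forall (fun p => by positivity)), hEprod]
    exact fin
  have hWE : ∫ p, (mt p.1 p.2 ^ 2 + mθ p.1 p.2 ^ 2) ∂(μ.prod ν) =
      (∫⁻ t in Ioo 0 T, ∫⁻ θ in Ioo 0 (2 * Real.pi),
        (ENNReal.ofReal (mt t θ) ^ 2 + ENNReal.ofReal (mθ t θ) ^ 2)).toReal := by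
    rw [integral_eq_lintegral_of_nonneg_ae (Eventually.of_forall (fun p => by positivity))
      hW.aestronglyMeasurable, hEprod]
  have hmtI : Integrable (fun p : ℝ × ℝ => mt p.1 p.2) (μ.prod ν) := by
    refine ((integrable_const (1 : ℝ)).add hW).mono' hmt'.aestronglyMeasurable
      (Eventually.of_forall (fun p => ?_))
    rw [Real.norm_eq_abs, abs_of_nonneg (mt0 _ _)]
    simp only [Pi.add_apply]
    nlinarith [sq_nonneg (mt p.1 p.2 - 1), sq_nonneg (mθ p.1 p.2), sq_nonneg (mt p.1 p.2)]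
  have hmθI : Integrable (fun p : ℝ × ℝ => mθ p.1 p.2) (μ.prod ν) := by
    refine ((integrable_const (1 : ℝ)).add hW).mono' hmθ'.aestronglyMeasurable
      (Eventually.of_forall (fun p => ?_))
    rw [Real.norm_eq_abs, abs_of_nonneg (mθ0 _ _)]
    simp only [Pi.add_apply]
    nlinarith [sq_nonneg (mθ p.1 p.2 - 1), sq_nonneg (mθ p.1 p.2), sq_nonneg (mt p.1 p.2)]
  -- good lines
  have hTae : ∀ᵐ t ∂μ, t ∈ Tg := by
    have hTae1 : ∀ᵐ t : ℝ, t ∈ Ioo 0 T → t ∈ Tg := by
      rw [ae_iff]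
      refine measure_mono_null ?_ fT
      intro t ht
      simp only [Classical.not_imp, Set.mem_ofPred_eq] at ht
      exact ht
    exact (ae_restrict_iff' measurableSet_Ioo).2 hTae1
  have hΘae : ∀ᵐ θ ∂ν, θ ∈ Θg := ae_restrict_of_ae (by rw [ae_iff]; exact fΘ)
  have hmtθ : ∀ᵐ θ ∂ν, Integrable (fun s => mt s θ) μ := hmtI.prod_left_ae
  have hBν : Integrable (fun θ => |B θ|) ν := by
    have := (hBc.abs.intervalIntegrable (μ := volume) 0 (2 * Real.pi))
    rw [intervalIntegrable_iff_integrableOn_Ioo_of_le hπ.le] at this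
    exact this
  have hgI : Integrable (fun p : ℝ × ℝ => |B p.2| + ∫ s, mt s p.2 ∂μ) (μ.prod ν) := by
    have h5 : Integrable (fun θ => |B θ| + ∫ s, mt s θ ∂μ) ν := hBν.add hmtI.integral_prod_right
    exact h5.comp_snd μ
  have hfI : Integrable (fun p : ℝ × ℝ => f p.1 p.2) (μ.prod ν) := by
    refine hgI.mono' hf'.aestronglyMeasurable ?_
    have a1 : ∀ᵐ p ∂(μ.prod ν), p.1 ∈ Tg := Measure.quasiMeasurePreserving_fst.ae hTae
    have a2 : ∀ᵐ p ∂(μ.prod ν), p.2 ∈ Θg := Measure.quasiMeasurePreserving_snd.ae hΘae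
    have a3 : ∀ᵐ p ∂(μ.prod ν), Integrable (fun s => mt s p.2) μ :=
      Measure.quasiMeasurePreserving_snd.ae hmtθ
    filter_upwards [a1, a2, a3] with p p1 p2 p3
    have h5 := h3 p.2 p2 p.1 p1
    have h6 : ∫ s in (0 : ℝ)..p.1, mt s p.2 ≤ ∫ s, mt s p.2 ∂μ := by
      rw [intervalIntegral.integral_of_le (hTg p1).1.le]
      refine setIntegral_mono_set p3 (Eventually.of_forall (fun s => mt0 _ _)) ?_
      have hsub : Ioc 0 p.1 ⊆ Ioo 0 T := fun s hs => ⟨hs.1, lt_of_le_of_lt hs.2 (hTg p1).2⟩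
      exact hsub.eventuallyLE
    rw [Real.norm_eq_abs]
    have e1 : f p.1 p.2 = B p.2 + (f p.1 p.2 - B p.2) := by ring
    calc |f p.1 p.2| = |B p.2 + (f p.1 p.2 - B p.2)| := by rw [← e1]
      _ ≤ |B p.2| + |f p.1 p.2 - B p.2| := abs_add_le _ _
      _ ≤ _ := by linarith
  have hRf : Integrable (fun p : ℝ × ℝ => R p.1 p.2 * f p.1 p.2) (μ.prod ν) :=
    hmulI (fun p => R p.1 p.2) _ hR hfI
  have hQm : Integrable (fun p : ℝ × ℝ => |Q p.1 p.2| * mθ p.1 p.2) (μ.prod ν) :=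
    hmulI (fun p => |Q p.1 p.2|) _ hQ.abs hmθI
  have hPm : Integrable (fun p : ℝ × ℝ => |P p.1 p.2| * mt p.1 p.2) (μ.prod ν) :=
    hmulI (fun p => |P p.1 p.2|) _ hP.abs hmtI
  -- first family of lines
  have hQ0 : Integrable (fun t => Q t 0 * L) μ := by
    have hc : Continuous (fun t => Q t 0 * L) :=
      (hQ.comp (by fun_prop : Continuous (fun t : ℝ => (t, (0 : ℝ))))).mul continuous_const
    have := (hc.intervalIntegrable (μ := volume) 0 T)
    rw [intervalIntegrable_iff_integrableOn_Ioo_of_le hT.le] at this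
    exact this
  have hPB : Integrable (fun θ => P 0 θ * B θ) ν := by
    have hc : Continuous (fun θ => P 0 θ * B θ) :=
      (hP.comp (by fun_prop : Continuous (fun θ : ℝ => ((0 : ℝ), θ)))).mul hBc
    have := (hc.intervalIntegrable (μ := volume) 0 (2 * Real.pi))
    rw [intervalIntegrable_iff_integrableOn_Ioo_of_le hπ.le] at this
    exact this
  have A1 : ∫ t, (Q t 0 * L + ∫ θ, R t θ * f t θ ∂ν) ∂μ ≤
      ∫ t, ∫ θ, |Q t θ| * mθ t θ ∂ν ∂μ := by
    refine integral_mono_ae (hQ0.add hRf.integral_prod_left) hQm.integral_prod_left ?_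
    filter_upwards [hTae] with t ht
    have h5 := FB4b_line1 fΘ pΘ (m := mθ t) (f := f t) (L := L) (hf.of_uncurry_left)
      (iT t ht) (h1 t ht) (h4 t ht) (φ := fun θ => Q t θ) (hQ1 t) (hQp t)
    simp_rw [hQR] at h5
    have h6 := (abs_le.1 h5).2
    rw [ivπ, ivπ] at h6
    have e1 : ∫ x, -R t x * f t x ∂ν = - ∫ x, R t x * f t x ∂ν := by
      rw [← MeasureTheory.integral_neg]
      exact integral_congr_ae (Eventually.of_forall (fun x => by ring))
    rw [e1] at h6
    show Q t 0 * L + ∫ θ, R t θ * f t θ ∂ν ≤ ∫ θ, |Q t θ| * mθ t θ ∂ν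
    linarith
  have A2 : ∫ θ, (-(P 0 θ * B θ) - ∫ t, R t θ * f t θ ∂μ) ∂ν ≤
      ∫ θ, ∫ t, |P t θ| * mt t θ ∂μ ∂ν := by
    refine integral_mono_ae (hPB.neg.sub hRf.integral_prod_right) hPm.integral_prod_right ?_
    filter_upwards [hΘae, hmtθ] with θ hθ hint
    have hm : IntervalIntegrable (fun t => mt t θ) volume 0 T := by
      rw [intervalIntegrable_iff_integrableOn_Ioo_of_le hT.le]
      exact hint
    have h5 := FB4b_line2 hT hTg fT (m := fun t => mt t θ) (f := fun t => f t θ) (B θ) hm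
      (fun t => mt0 t θ) (h2 θ hθ) (h3 θ hθ) (φ := fun t => P t θ) (hP1 θ) (hPT θ)
    simp_rw [hPR] at h5
    have h6 := (abs_le.1 h5).2
    rw [ivT, ivT] at h6
    exact h6
  -- combine
  have F1 : ∫ t, (Q t 0 * L + ∫ θ, R t θ * f t θ ∂ν) ∂μ =
      ∫ t, Q t 0 * L ∂μ + ∫ t, ∫ θ, R t θ * f t θ ∂ν ∂μ :=
    integral_add hQ0 hRf.integral_prod_left
  have F2 : ∫ θ, (-(P 0 θ * B θ) - ∫ t, R t θ * f t θ ∂μ) ∂ν =
      (∫ θ, -(P 0 θ * B θ) ∂ν) - ∫ θ, ∫ t, R t θ * f t θ ∂μ ∂ν :=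
    integral_sub hPB.neg hRf.integral_prod_right
  have F3 : ∫ t, ∫ θ, R t θ * f t θ ∂ν ∂μ = ∫ θ, ∫ t, R t θ * f t θ ∂μ ∂ν :=
    integral_integral_swap (f := fun t θ => R t θ * f t θ) hRf
  have F4 : ∫ t, ∫ θ, |Q t θ| * mθ t θ ∂ν ∂μ = ∫ p, |Q p.1 p.2| * mθ p.1 p.2 ∂(μ.prod ν) :=
    (integral_prod _ hQm).symm
  have F5 : ∫ θ, ∫ t, |P t θ| * mt t θ ∂μ ∂ν = ∫ p, |P p.1 p.2| * mt p.1 p.2 ∂(μ.prod ν) :=
    (integral_prod_symm _ hPm).symm
  have hPQ : Integrable (fun p : ℝ × ℝ => P p.1 p.2 ^ 2 + Q p.1 p.2 ^ 2) (μ.prod ν) :=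
    hcI _ ((hP.pow 2).add (hQ.pow 2))
  have F6 : ∫ p, |Q p.1 p.2| * mθ p.1 p.2 ∂(μ.prod ν) + ∫ p, |P p.1 p.2| * mt p.1 p.2 ∂(μ.prod ν)
      ≤ (∫ p, (P p.1 p.2 ^ 2 + Q p.1 p.2 ^ 2) ∂(μ.prod ν)) / 2 +
        (∫ p, (mt p.1 p.2 ^ 2 + mθ p.1 p.2 ^ 2) ∂(μ.prod ν)) / 2 := by
    rw [← MeasureTheory.integral_add hQm hPm, ← MeasureTheory.integral_div,
      ← MeasureTheory.integral_div,
      ← MeasureTheory.integral_add (hPQ.div_const 2) (hW.div_const 2)]
    refine integral_mono (hQm.add hPm) ((hPQ.div_const 2).add (hW.div_const 2)) (fun p => ?_)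
    simp only []
    nlinarith [sq_nonneg (|Q p.1 p.2| - mθ p.1 p.2), sq_nonneg (|P p.1 p.2| - mt p.1 p.2),
      sq_abs (Q p.1 p.2), sq_abs (P p.1 p.2)]
  have F7 : ∫ p, (P p.1 p.2 ^ 2 + Q p.1 p.2 ^ 2) ∂(μ.prod ν) =
      ∫ t in (0 : ℝ)..T, ∫ θ in (0 : ℝ)..(2 * Real.pi), (P t θ ^ 2 + Q t θ ^ 2) := by
    rw [integral_prod _ hPQ, ivT]
    exact integral_congr_ae (Eventually.of_forall (fun t => (ivπ _).symm))
  have F8 : ∫ t, Q t 0 * L ∂μ = L * ∫ t in (0 : ℝ)..T, Q t 0 := by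
    rw [MeasureTheory.integral_mul_const, ivT, mul_comm]
  have F9 : ∫ θ, -(P 0 θ * B θ) ∂ν = -∫ θ in (0 : ℝ)..(2 * Real.pi), P 0 θ * B θ := by
    rw [MeasureTheory.integral_neg, ivπ]
  rw [F1, F4, F8] at A1
  rw [F2, F5, F9, ← F3] at A2
  rw [hWE, F7] at F6
  linarith

/-! ### the trigonometric test function -/

/-- `∂_t` of the test function -/
noncomputable def FB4b_P (T : ℝ) (a b : ℕ → ℝ) (N : ℕ) (t θ : ℝ) : ℝ :=
  ∑ n ∈ Finset.Icc 1 N, (a n * Real.cos (n * θ) + b n * Real.sin (n * θ)) *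
    (-(n * (Real.sinh (n * (T - t)) / Real.cosh (n * T))))

/-- `∂_θ` of the test function -/
noncomputable def FB4b_Q (T L : ℝ) (a b : ℕ → ℝ) (N : ℕ) (t θ : ℝ) : ℝ :=
  L / (2 * Real.pi) + ∑ n ∈ Finset.Icc 1 N, (n * b n * Real.cos (n * θ) +
    (-(n * a n)) * Real.sin (n * θ)) * (Real.cosh (n * (T - t)) / Real.cosh (n * T))

/-- `∂_t²` of the test function -/
noncomputable def FB4b_R (T : ℝ) (a b : ℕ → ℝ) (N : ℕ) (t θ : ℝ) : ℝ :=
  ∑ n ∈ Finset.Icc 1 N, (a n * Real.cos (n * θ) + b n * Real.sin (n * θ)) *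
    (n ^ 2 * (Real.cosh (n * (T - t)) / Real.cosh (n * T)))

lemma FB4b_c1 {F : ℝ → ℝ → ℝ} (h : Continuous (Function.uncurry F)) (θ : ℝ) :
    Continuous (fun t => F t θ) := h.comp (by fun_prop : Continuous (fun t : ℝ => (t, θ)))

lemma FB4b_c2 {F : ℝ → ℝ → ℝ} (h : Continuous (Function.uncurry F)) (t : ℝ) :
    Continuous (fun θ => F t θ) := h.comp (by fun_prop : Continuous (fun θ : ℝ => (t, θ)))

lemma FB4b_cosh_ne (x : ℝ) : Real.cosh x ≠ 0 := (Real.cosh_pos x).ne'

lemma FB4b_hP (T : ℝ) (a b : ℕ → ℝ) (N : ℕ) : Continuous (Function.uncurry (FB4b_P T a b N)) := by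
  unfold FB4b_P Function.uncurry
  refine continuous_finsetSum _ (fun n _ => ?_)
  have h1 : Continuous (fun p : ℝ × ℝ => Real.sinh (n * (T - p.1))) :=
    Real.continuous_sinh.comp (by fun_prop)
  exact (by fun_prop : Continuous (fun p : ℝ × ℝ => a n * Real.cos (n * p.2) +
    b n * Real.sin (n * p.2))).mul ((continuous_const.mul (h1.div_const _)).neg)

lemma FB4b_hQ (T L : ℝ) (a b : ℕ → ℝ) (N : ℕ) :
    Continuous (Function.uncurry (FB4b_Q T L a b N)) := by
  unfold FB4b_Q Function.uncurry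
  refine continuous_const.add (continuous_finsetSum _ (fun n _ => ?_))
  have h1 : Continuous (fun p : ℝ × ℝ => Real.cosh (n * (T - p.1))) :=
    Real.continuous_cosh.comp (by fun_prop)
  exact (by fun_prop : Continuous (fun p : ℝ × ℝ => n * b n * Real.cos (n * p.2) +
    (-(n * a n)) * Real.sin (n * p.2))).mul (h1.div_const _)

lemma FB4b_hR (T : ℝ) (a b : ℕ → ℝ) (N : ℕ) : Continuous (Function.uncurry (FB4b_R T a b N)) := by
  unfold FB4b_R Function.uncurry
  refine continuous_finsetSum _ (fun n _ => ?_)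
  have h1 : Continuous (fun p : ℝ × ℝ => Real.cosh (n * (T - p.1))) :=
    Real.continuous_cosh.comp (by fun_prop)
  exact (by fun_prop : Continuous (fun p : ℝ × ℝ => a n * Real.cos (n * p.2) +
    b n * Real.sin (n * p.2))).mul (continuous_const.mul (h1.div_const _))

lemma FB4b_dlin (n : ℕ) (T t : ℝ) : HasDerivAt (fun t : ℝ => (n : ℝ) * (T - t)) (-(n : ℝ)) t := by
  have h1 : HasDerivAt (fun t : ℝ => T - t) (-1) t := by
    simpa using (hasDerivAt_id t).const_sub T
  simpa using h1.const_mul (n : ℝ)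

lemma FB4b_dP (T : ℝ) (a b : ℕ → ℝ) (N : ℕ) (θ t : ℝ) :
    HasDerivAt (fun t => FB4b_P T a b N t θ) (FB4b_R T a b N t θ) t := by
  unfold FB4b_P FB4b_R
  refine HasDerivAt.fun_sum (fun n _ => ?_)
  have h1 := (FB4b_dlin n T t).sinh
  have h2 := (((h1.div_const (Real.cosh (n * T))).const_mul (n : ℝ)).neg).const_mul
    (a n * Real.cos (n * θ) + b n * Real.sin (n * θ))
  refine h2.congr_deriv ?_
  ring

lemma FB4b_dQ (T L : ℝ) (a b : ℕ → ℝ) (N : ℕ) (t θ : ℝ) :
    HasDerivAt (fun θ => FB4b_Q T L a b N t θ) (-FB4b_R T a b N t θ) θ := by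
  unfold FB4b_Q FB4b_R
  rw [← Finset.sum_neg_distrib]
  refine HasDerivAt.const_add _ (HasDerivAt.fun_sum (fun n _ => ?_))
  have h0 : HasDerivAt (fun θ : ℝ => (n : ℝ) * θ) (n : ℝ) θ := by
    simpa using (hasDerivAt_id θ).const_mul (n : ℝ)
  have h1 := h0.cos
  have h2 := h0.sin
  have h3 := ((h1.const_mul (n * b n)).add (h2.const_mul (-(n * a n)))).mul_const
    (Real.cosh (n * (T - t)) / Real.cosh (n * T))
  refine h3.congr_deriv ?_
  ring

lemma FB4b_cdP (T : ℝ) (a b : ℕ → ℝ) (N : ℕ) (θ : ℝ) :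
    ContDiff ℝ 1 (fun t => FB4b_P T a b N t θ) := by
  rw [contDiff_one_iff_deriv]
  refine ⟨fun t => (FB4b_dP T a b N θ t).differentiableAt, ?_⟩
  have e : deriv (fun t => FB4b_P T a b N t θ) = fun t => FB4b_R T a b N t θ := by
    funext t
    exact (FB4b_dP T a b N θ t).deriv
  rw [e]
  exact FB4b_c1 (FB4b_hR T a b N) θ

lemma FB4b_cdQ (T L : ℝ) (a b : ℕ → ℝ) (N : ℕ) (t : ℝ) :
    ContDiff ℝ 1 (fun θ => FB4b_Q T L a b N t θ) := by
  rw [contDiff_one_iff_deriv]
  refine ⟨fun θ => (FB4b_dQ T L a b N t θ).differentiableAt, ?_⟩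
  have e : deriv (fun θ => FB4b_Q T L a b N t θ) = fun θ => -FB4b_R T a b N t θ := by
    funext θ
    exact (FB4b_dQ T L a b N t θ).deriv
  rw [e]
  exact (FB4b_c2 (FB4b_hR T a b N) t).neg

lemma FB4b_PT (T : ℝ) (a b : ℕ → ℝ) (N : ℕ) (θ : ℝ) : FB4b_P T a b N T θ = 0 := by
  unfold FB4b_P
  simp

lemma FB4b_Qp (T L : ℝ) (a b : ℕ → ℝ) (N : ℕ) (t θ : ℝ) :
    FB4b_Q T L a b N t (θ + 2 * Real.pi) = FB4b_Q T L a b N t θ := by
  unfold FB4b_Q
  congr 1
  refine Finset.sum_congr rfl (fun n _ => ?_)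
  have e : (n : ℝ) * (θ + 2 * Real.pi) = n * θ + (n : ℕ) * (2 * Real.pi) := by ring
  rw [e, Real.cos_add_nat_mul_two_pi, Real.sin_add_nat_mul_two_pi]

/-! ### integrals in `t` -/

lemma FB4b_int_ch {n : ℕ} (hn : 1 ≤ n) (T : ℝ) :
    ∫ t in (0 : ℝ)..T, Real.cosh (n * (T - t)) / Real.cosh (n * T) = Real.tanh (n * T) / n := by
  have hn' : (n : ℝ) ≠ 0 := by
    have : n ≠ 0 := by omega
    exact_mod_cast this
  have hd : ∀ t ∈ Set.uIcc 0 T, HasDerivAt
      (fun t => -(Real.sinh (n * (T - t)) / (n * Real.cosh (n * T))))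
      (Real.cosh (n * (T - t)) / Real.cosh (n * T)) t := by
    intro t _
    have h1 := (((FB4b_dlin n T t).sinh).div_const (n * Real.cosh (n * T))).neg
    refine h1.congr_deriv ?_
    have := FB4b_cosh_ne (n * T)
    field_simp
  have hc : Continuous (fun t => Real.cosh (n * (T - t)) / Real.cosh (n * T)) :=
    (Real.continuous_cosh.comp (by fun_prop)).div_const _
  rw [intervalIntegral.integral_eq_sub_of_hasDerivAt hd (hc.intervalIntegrable _ _),
    Real.tanh_eq_sinh_div_cosh]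
  have := FB4b_cosh_ne (n * T)
  simp only [sub_self, mul_zero, Real.sinh_zero, zero_div, neg_zero, sub_zero, zero_sub, neg_neg]
  field_simp

lemma FB4b_int_sc {n : ℕ} (hn : 1 ≤ n) (T : ℝ) :
    ∫ t in (0 : ℝ)..T, ((Real.sinh (n * (T - t)) / Real.cosh (n * T)) ^ 2 +
      (Real.cosh (n * (T - t)) / Real.cosh (n * T)) ^ 2) = Real.tanh (n * T) / n := by
  have hn' : (n : ℝ) ≠ 0 := by
    have : n ≠ 0 := by omega
    exact_mod_cast this
  have hd : ∀ t ∈ Set.uIcc 0 T, HasDerivAt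
      (fun t => -(Real.sinh (n * (T - t)) * Real.cosh (n * (T - t)) / (n * Real.cosh (n * T) ^ 2)))
      ((Real.sinh (n * (T - t)) / Real.cosh (n * T)) ^ 2 +
      (Real.cosh (n * (T - t)) / Real.cosh (n * T)) ^ 2) t := by
    intro t _
    have h1 := ((((FB4b_dlin n T t).sinh).mul ((FB4b_dlin n T t).cosh)).div_const
      (n * Real.cosh (n * T) ^ 2)).neg
    refine h1.congr_deriv ?_
    have := FB4b_cosh_ne (n * T)
    field_simp
    ring
  have hs : Continuous (fun t => Real.sinh (n * (T - t)) / Real.cosh (n * T)) :=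
    (Real.continuous_sinh.comp (by fun_prop)).div_const _
  have hc : Continuous (fun t => Real.cosh (n * (T - t)) / Real.cosh (n * T)) :=
    (Real.continuous_cosh.comp (by fun_prop)).div_const _
  rw [intervalIntegral.integral_eq_sub_of_hasDerivAt hd
    (((hs.pow 2).add (hc.pow 2)).intervalIntegrable _ _), Real.tanh_eq_sinh_div_cosh]
  have := FB4b_cosh_ne (n * T)
  simp only [sub_self, mul_zero, Real.sinh_zero, zero_div, neg_zero, sub_zero, zero_sub, neg_neg,
    zero_mul]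
  field_simp

/-! ### the energy of the test function -/

lemma FB4b_energy (T L : ℝ) (a b : ℕ → ℝ) (N : ℕ) :
    ∫ t in (0 : ℝ)..T, ∫ θ in (0 : ℝ)..(2 * Real.pi),
      (FB4b_P T a b N t θ ^ 2 + FB4b_Q T L a b N t θ ^ 2) =
    L ^ 2 * T / (2 * Real.pi) +
      ∑ n ∈ Finset.Icc 1 N, Real.pi * n * Real.tanh (n * T) * (a n ^ 2 + b n ^ 2) := by
  have hπ : Real.pi ≠ 0 := Real.pi_ne_zero
  have e1 : ∀ t : ℝ, ∫ θ in (0 : ℝ)..(2 * Real.pi),
      (FB4b_P T a b N t θ ^ 2 + FB4b_Q T L a b N t θ ^ 2) =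
      L ^ 2 / (2 * Real.pi) + ∑ n ∈ Finset.Icc 1 N, (Real.pi * n ^ 2 * (a n ^ 2 + b n ^ 2)) *
        ((Real.sinh (n * (T - t)) / Real.cosh (n * T)) ^ 2 +
        (Real.cosh (n * (T - t)) / Real.cosh (n * T)) ^ 2) := by
    intro t
    have hP : ∀ θ : ℝ, FB4b_P T a b N t θ = 0 + ∑ n ∈ Finset.Icc 1 N,
        ((-(n * a n * (Real.sinh (n * (T - t)) / Real.cosh (n * T)))) * Real.cos (n * θ) +
        (-(n * b n * (Real.sinh (n * (T - t)) / Real.cosh (n * T)))) * Real.sin (n * θ)) := by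
      intro θ
      unfold FB4b_P
      rw [zero_add]
      refine Finset.sum_congr rfl (fun n _ => ?_)
      ring
    have hQ : ∀ θ : ℝ, FB4b_Q T L a b N t θ = L / (2 * Real.pi) + ∑ n ∈ Finset.Icc 1 N,
        ((n * b n * (Real.cosh (n * (T - t)) / Real.cosh (n * T))) * Real.cos (n * θ) +
        (-(n * a n * (Real.cosh (n * (T - t)) / Real.cosh (n * T)))) * Real.sin (n * θ)) := by
      intro θ
      unfold FB4b_Q
      congr 1
      refine Finset.sum_congr rfl (fun n _ => ?_)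
      ring
    have cP : Continuous (fun θ => FB4b_P T a b N t θ) := FB4b_c2 (FB4b_hP T a b N) t
    have cQ : Continuous (fun θ => FB4b_Q T L a b N t θ) := FB4b_c2 (FB4b_hQ T L a b N) t
    have cP2 : IntervalIntegrable (fun θ => FB4b_P T a b N t θ ^ 2) volume 0 (2 * Real.pi) :=
      (cP.pow 2).intervalIntegrable _ _
    have cQ2 : IntervalIntegrable (fun θ => FB4b_Q T L a b N t θ ^ 2) volume 0 (2 * Real.pi) :=
      (cQ.pow 2).intervalIntegrable _ _
    rw [intervalIntegral.integral_add cP2 cQ2]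
    have p1 := FB4b_parseval N 0
      (fun n => -(n * a n * (Real.sinh (n * (T - t)) / Real.cosh (n * T))))
      (fun n => -(n * b n * (Real.sinh (n * (T - t)) / Real.cosh (n * T))))
    have p2 := FB4b_parseval N (L / (2 * Real.pi))
      (fun n => n * b n * (Real.cosh (n * (T - t)) / Real.cosh (n * T)))
      (fun n => -(n * a n * (Real.cosh (n * (T - t)) / Real.cosh (n * T))))
    have q1 : ∫ θ in (0 : ℝ)..(2 * Real.pi), FB4b_P T a b N t θ ^ 2 =
        2 * Real.pi * 0 ^ 2 + ∑ n ∈ Finset.Icc 1 N, Real.pi *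
          ((-(n * a n * (Real.sinh (n * (T - t)) / Real.cosh (n * T)))) ^ 2 +
          (-(n * b n * (Real.sinh (n * (T - t)) / Real.cosh (n * T)))) ^ 2) := by
      rw [← p1]
      exact intervalIntegral.integral_congr (fun θ _ => by rw [hP θ])
    have q2 : ∫ θ in (0 : ℝ)..(2 * Real.pi), FB4b_Q T L a b N t θ ^ 2 =
        2 * Real.pi * (L / (2 * Real.pi)) ^ 2 + ∑ n ∈ Finset.Icc 1 N, Real.pi *
          ((n * b n * (Real.cosh (n * (T - t)) / Real.cosh (n * T))) ^ 2 +
          (-(n * a n * (Real.cosh (n * (T - t)) / Real.cosh (n * T)))) ^ 2) := by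
      rw [← p2]
      exact intervalIntegral.integral_congr (fun θ _ => by rw [hQ θ])
    rw [q1, q2]
    have e2 : 2 * Real.pi * (L / (2 * Real.pi)) ^ 2 = L ^ 2 / (2 * Real.pi) := by
      field_simp
    rw [e2]
    have e3 : ∑ n ∈ Finset.Icc 1 N, (Real.pi * n ^ 2 * (a n ^ 2 + b n ^ 2)) *
        ((Real.sinh (n * (T - t)) / Real.cosh (n * T)) ^ 2 +
        (Real.cosh (n * (T - t)) / Real.cosh (n * T)) ^ 2) =
        ∑ n ∈ Finset.Icc 1 N, Real.pi *
          ((-(n * a n * (Real.sinh (n * (T - t)) / Real.cosh (n * T)))) ^ 2 +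
          (-(n * b n * (Real.sinh (n * (T - t)) / Real.cosh (n * T)))) ^ 2) +
        ∑ n ∈ Finset.Icc 1 N, Real.pi *
          ((n * b n * (Real.cosh (n * (T - t)) / Real.cosh (n * T))) ^ 2 +
          (-(n * a n * (Real.cosh (n * (T - t)) / Real.cosh (n * T)))) ^ 2) := by
      rw [← Finset.sum_add_distrib]
      refine Finset.sum_congr rfl (fun n _ => ?_)
      ring
    rw [e3]
    ring
  simp_rw [e1]
  have hcn : ∀ n : ℕ, Continuous (fun t => (Real.pi * n ^ 2 * (a n ^ 2 + b n ^ 2)) *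
        ((Real.sinh (n * (T - t)) / Real.cosh (n * T)) ^ 2 +
        (Real.cosh (n * (T - t)) / Real.cosh (n * T)) ^ 2)) := by
    intro n
    have hs : Continuous (fun t => Real.sinh (n * (T - t)) / Real.cosh (n * T)) :=
      (Real.continuous_sinh.comp (by fun_prop)).div_const _
    have hc : Continuous (fun t => Real.cosh (n * (T - t)) / Real.cosh (n * T)) :=
      (Real.continuous_cosh.comp (by fun_prop)).div_const _
    exact continuous_const.mul ((hs.pow 2).add (hc.pow 2))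
  rw [intervalIntegral.integral_add (intervalIntegrable_const)
    ((continuous_finsetSum _ (fun n _ => hcn n)).intervalIntegrable _ _),
    intervalIntegral.integral_const,
    intervalIntegral.integral_finsetSum (fun n _ => (hcn n).intervalIntegrable _ _)]
  congr 1
  · rw [smul_eq_mul]; ring
  · refine Finset.sum_congr rfl (fun n hn => ?_)
    have hn1 := (Finset.mem_Icc.1 hn).1
    have hn' : (n : ℝ) ≠ 0 := by
      have : n ≠ 0 := by omega
      exact_mod_cast this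
    rw [intervalIntegral.integral_const_mul, FB4b_int_sc hn1]
    field_simp

/-! ### the boundary terms -/

lemma FB4b_bd1 (T L : ℝ) (a b : ℕ → ℝ) (N : ℕ) :
    ∫ t in (0 : ℝ)..T, FB4b_Q T L a b N t 0 =
      L * T / (2 * Real.pi) + ∑ n ∈ Finset.Icc 1 N, b n * Real.tanh (n * T) := by
  have e1 : ∀ t : ℝ, FB4b_Q T L a b N t 0 = L / (2 * Real.pi) + ∑ n ∈ Finset.Icc 1 N,
      (n * b n) * (Real.cosh (n * (T - t)) / Real.cosh (n * T)) := by
    intro t
    unfold FB4b_Q
    simp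
  simp_rw [e1]
  have hcn : ∀ n : ℕ, Continuous (fun t => (n * b n) *
      (Real.cosh (n * (T - t)) / Real.cosh (n * T))) := by
    intro n
    exact continuous_const.mul ((Real.continuous_cosh.comp (by fun_prop)).div_const _)
  rw [intervalIntegral.integral_add (intervalIntegrable_const)
    ((continuous_finsetSum _ (fun n _ => hcn n)).intervalIntegrable _ _),
    intervalIntegral.integral_const,
    intervalIntegral.integral_finsetSum (fun n _ => (hcn n).intervalIntegrable _ _)]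
  congr 1
  · rw [smul_eq_mul]; ring
  · refine Finset.sum_congr rfl (fun n hn => ?_)
    have hn1 := (Finset.mem_Icc.1 hn).1
    have hn' : (n : ℝ) ≠ 0 := by
      have : n ≠ 0 := by omega
      exact_mod_cast this
    rw [intervalIntegral.integral_const_mul, FB4b_int_ch hn1]
    field_simp

lemma FB4b_xcos {n : ℕ} (hn : 1 ≤ n) :
    ∫ θ in (0 : ℝ)..(2 * Real.pi), θ * Real.cos (n * θ) = 0 := by
  have hn' : (n : ℝ) ≠ 0 := by
    have : n ≠ 0 := by omega
    exact_mod_cast this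
  have hd : ∀ θ ∈ Set.uIcc 0 (2 * Real.pi), HasDerivAt
      (fun θ : ℝ => θ * (Real.sin (n * θ) / n) + Real.cos (n * θ) / n ^ 2)
      (θ * Real.cos (n * θ)) θ := by
    intro θ _
    have h0 : HasDerivAt (fun θ : ℝ => (n : ℝ) * θ) (n : ℝ) θ := by
      simpa using (hasDerivAt_id θ).const_mul (n : ℝ)
    have h1 := ((hasDerivAt_id θ).mul (h0.sin.div_const (n : ℝ))).add
      (h0.cos.div_const ((n : ℝ) ^ 2))
    refine h1.congr_deriv ?_
    simp only [id]
    field_simp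
    ring
  rw [intervalIntegral.integral_eq_sub_of_hasDerivAt hd
    ((by fun_prop : Continuous (fun θ : ℝ => θ * Real.cos (n * θ))).intervalIntegrable _ _)]
  have h1 := FB4b_sin_two_pi (n : ℤ)
  have h2 := FB4b_cos_two_pi (n : ℤ)
  rw [Int.cast_natCast] at h1 h2
  rw [h1, h2]
  simp

lemma FB4b_xsin {n : ℕ} (hn : 1 ≤ n) :
    ∫ θ in (0 : ℝ)..(2 * Real.pi), θ * Real.sin (n * θ) = -(2 * Real.pi / n) := by
  have hn' : (n : ℝ) ≠ 0 := by
    have : n ≠ 0 := by omega
    exact_mod_cast this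
  have hd : ∀ θ ∈ Set.uIcc 0 (2 * Real.pi), HasDerivAt
      (fun θ : ℝ => -(θ * (Real.cos (n * θ) / n)) + Real.sin (n * θ) / n ^ 2)
      (θ * Real.sin (n * θ)) θ := by
    intro θ _
    have h0 : HasDerivAt (fun θ : ℝ => (n : ℝ) * θ) (n : ℝ) θ := by
      simpa using (hasDerivAt_id θ).const_mul (n : ℝ)
    have h1 := (((hasDerivAt_id θ).mul (h0.cos.div_const (n : ℝ))).neg).add
      (h0.sin.div_const ((n : ℝ) ^ 2))
    refine h1.congr_deriv ?_
    simp only [id]
    field_simp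
    ring
  rw [intervalIntegral.integral_eq_sub_of_hasDerivAt hd
    ((by fun_prop : Continuous (fun θ : ℝ => θ * Real.sin (n * θ))).intervalIntegrable _ _)]
  have h1 := FB4b_sin_two_pi (n : ℤ)
  have h2 := FB4b_cos_two_pi (n : ℤ)
  rw [Int.cast_natCast] at h1 h2
  rw [h1, h2]
  simp
  ring

lemma FB4b_Bcos {L : ℝ} {B : ℝ → ℝ} (hB : Continuous B) {n : ℕ} (hn : 1 ≤ n) :
    ∫ θ in (0 : ℝ)..(2 * Real.pi), B θ * Real.cos (n * θ) = Real.pi * ac L B n := by
  have hπ : Real.pi ≠ 0 := Real.pi_ne_zero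
  have e : ∀ θ : ℝ, B θ * Real.cos (n * θ) = (B θ - L * θ / (2 * Real.pi)) * Real.cos (n * θ) +
      (L / (2 * Real.pi)) * (θ * Real.cos (n * θ)) := by
    intro θ; ring
  simp_rw [e]
  rw [intervalIntegral.integral_add (FB4b_ii (by fun_prop) _ _) (FB4b_ii (by fun_prop) _ _),
    intervalIntegral.integral_const_mul, FB4b_xcos hn]
  unfold ac
  rw [mul_zero, add_zero, ← mul_assoc, mul_one_div_cancel hπ, one_mul]

lemma FB4b_Bsin {L : ℝ} {B : ℝ → ℝ} (hB : Continuous B) {n : ℕ} (hn : 1 ≤ n) :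
    ∫ θ in (0 : ℝ)..(2 * Real.pi), B θ * Real.sin (n * θ) = Real.pi * bs L B n - L / n := by
  have hπ : Real.pi ≠ 0 := Real.pi_ne_zero
  have hn' : (n : ℝ) ≠ 0 := by
    have : n ≠ 0 := by omega
    exact_mod_cast this
  have e : ∀ θ : ℝ, B θ * Real.sin (n * θ) = (B θ - L * θ / (2 * Real.pi)) * Real.sin (n * θ) +
      (L / (2 * Real.pi)) * (θ * Real.sin (n * θ)) := by
    intro θ; ring
  simp_rw [e]
  rw [intervalIntegral.integral_add (FB4b_ii (by fun_prop) _ _) (FB4b_ii (by fun_prop) _ _),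
    intervalIntegral.integral_const_mul, FB4b_xsin hn]
  have e2 : L / (2 * Real.pi) * -(2 * Real.pi / n) = -(L / n) := by
    field_simp
  rw [e2]
  unfold bs
  rw [← mul_assoc, mul_one_div_cancel hπ, one_mul]
  ring

lemma FB4b_bd2 (T L : ℝ) {B : ℝ → ℝ} (hB : Continuous B) (N : ℕ) :
    ∫ θ in (0 : ℝ)..(2 * Real.pi), FB4b_P T (ac L B) (bs L B) N 0 θ * B θ =
      -∑ n ∈ Finset.Icc 1 N, (Real.pi * n * Real.tanh (n * T) * (ac L B n ^ 2 + bs L B n ^ 2) -
        L * (bs L B n * Real.tanh (n * T))) := by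
  have e : ∀ θ : ℝ, FB4b_P T (ac L B) (bs L B) N 0 θ * B θ = ∑ n ∈ Finset.Icc 1 N,
      ((-(n * Real.tanh (n * T)) * ac L B n) * (B θ * Real.cos (n * θ)) +
       (-(n * Real.tanh (n * T)) * bs L B n) * (B θ * Real.sin (n * θ))) := by
    intro θ
    unfold FB4b_P
    rw [Finset.sum_mul]
    refine Finset.sum_congr rfl (fun n _ => ?_)
    rw [sub_zero, Real.tanh_eq_sinh_div_cosh]
    ring
  simp_rw [e]
  rw [intervalIntegral.integral_finsetSum (fun n _ => FB4b_ii (by fun_prop) _ _),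
    ← Finset.sum_neg_distrib]
  refine Finset.sum_congr rfl (fun n hn => ?_)
  have hn1 := (Finset.mem_Icc.1 hn).1
  have hn' : (n : ℝ) ≠ 0 := by
    have : n ≠ 0 := by omega
    exact_mod_cast this
  rw [intervalIntegral.integral_add (FB4b_ii (by fun_prop) _ _) (FB4b_ii (by fun_prop) _ _),
    intervalIntegral.integral_const_mul, intervalIntegral.integral_const_mul,
    FB4b_Bcos (L := L) hB hn1, FB4b_Bsin (L := L) hB hn1]
  field_simp
  ring

theorem competitor {T L : ℝ} {B : ℝ → ℝ} (hT : 0 < T) (hB : QP L B) (mt mθ f : ℝ → ℝ → ℝ)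
    (hmt : Measurable (Function.uncurry mt)) (hmθ : Measurable (Function.uncurry mθ))
    (hf : Measurable (Function.uncurry f))
    (mt0 : ∀ t θ, 0 ≤ mt t θ) (mθ0 : ∀ t θ, 0 ≤ mθ t θ)
    (fin : (∫⁻ t in Ioo 0 T, ∫⁻ θ in Ioo 0 (2 * Real.pi),
      (ENNReal.ofReal (mt t θ) ^ 2 + ENNReal.ofReal (mθ t θ) ^ 2)) < ⊤)
    (Tg Θg : Set ℝ) (hTg : Tg ⊆ Ioo 0 T) (fT : volume (Ioo 0 T \ Tg) = 0)
    (fΘ : volume Θgᶜ = 0) (pΘ : ∀ θ, θ ∈ Θg ↔ θ + 2 * Real.pi ∈ Θg)
    (iT : ∀ t ∈ Tg, ∀ x y : ℝ, IntervalIntegrable (mθ t) volume x y)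
    (iΘ : ∀ θ ∈ Θg, ∀ x ∈ Ico 0 T, IntervalIntegrable (fun t => mt t θ) volume 0 x)
    (h1 : ∀ t ∈ Tg, ∀ x ∈ Θg, ∀ y ∈ Θg, x ≤ y → |f t y - f t x| ≤ ∫ s in x..y, mθ t s)
    (h2 : ∀ θ ∈ Θg, ∀ x ∈ Tg, ∀ y ∈ Tg, x ≤ y → |f y θ - f x θ| ≤ ∫ s in x..y, mt s θ)
    (h3 : ∀ θ ∈ Θg, ∀ x ∈ Tg, |f x θ - B θ| ≤ ∫ s in (0 : ℝ)..x, mt s θ)
    (h4 : ∀ t ∈ Tg, ∀ x ∈ Θg, f t (x + 2 * Real.pi) = f t x + L) (N : ℕ) :
    ENNReal.ofReal (L ^ 2 * T / (2 * Real.pi) +
      ∑ n ∈ Finset.Icc 1 N, Real.pi * n * Real.tanh (n * T) * mode L B n) ≤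
      ∫⁻ t in Ioo 0 T, ∫⁻ θ in Ioo 0 (2 * Real.pi),
        (ENNReal.ofReal (mt t θ) ^ 2 + ENNReal.ofReal (mθ t θ) ^ 2) := by
  have hmain := FB4b_main hT hB.cont mt mθ f hmt hmθ hf mt0 mθ0 fin Tg Θg hTg fT fΘ pΘ iT h1 h2 h3
    h4 (FB4b_P T (ac L B) (bs L B) N) (FB4b_Q T L (ac L B) (bs L B) N)
    (FB4b_R T (ac L B) (bs L B) N) (FB4b_hP _ _ _ _) (FB4b_hQ _ _ _ _ _) (FB4b_hR _ _ _ _)
    (FB4b_cdP _ _ _ _) (fun θ t => (FB4b_dP T (ac L B) (bs L B) N θ t).deriv)
    (FB4b_cdQ _ _ _ _ _) (fun t θ => (FB4b_dQ T L (ac L B) (bs L B) N t θ).deriv)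
    (FB4b_PT _ _ _ _) (FB4b_Qp _ _ _ _ _)
  rw [FB4b_energy, FB4b_bd1, FB4b_bd2 T L hB.cont, Finset.sum_sub_distrib, ← Finset.mul_sum] at hmain
  refine ENNReal.ofReal_le_of_le_toReal ?_
  unfold mode
  have e1 : L * (L * T / (2 * Real.pi) + ∑ n ∈ Finset.Icc 1 N, bs L B n * Real.tanh (n * T)) =
      L ^ 2 * T / (2 * Real.pi) + L * ∑ n ∈ Finset.Icc 1 N, bs L B n * Real.tanh (n * T) := by
    ring
  rw [e1] at hmain
  linarith

end CF6

end

section

/-! # Module F of MP_cf6b16_an, row FD : assembly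


-/

open Complex MeasureTheory Set Filter Topology Metric intervalIntegral
open scoped ENNReal

namespace CF6

theorem elam_le {T L : ℝ} {B : ℝ → ℝ} (hT : 0 < T) (hB : QP L B) (mt mθ : ℝ → ℝ → ℝ)
    (hmt : Measurable (Function.uncurry mt)) (hmθ : Measurable (Function.uncurry mθ))
    (mt0 : ∀ t θ, 0 ≤ mt t θ) (mθ0 : ∀ t θ, 0 ≤ mθ t θ)
    (mtp : ∀ t θ, mt t (θ + 2 * Real.pi) = mt t θ) (mθp : ∀ t θ, mθ t (θ + 2 * Real.pi) = mθ t θ)
    (Tg Θg : Set ℝ) (hTg : Tg ⊆ Ioo 0 T) (mTg : MeasurableSet Tg) (mΘg : MeasurableSet Θg)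
    (fT : volume (Ioo 0 T \ Tg) = 0) (fΘ : volume Θgᶜ = 0)
    (pΘ : ∀ θ, θ ∈ Θg ↔ θ + 2 * Real.pi ∈ Θg)
    (iT : ∀ t ∈ Tg, ∀ x y : ℝ, IntervalIntegrable (mθ t) volume x y)
    (iΘ : ∀ θ ∈ Θg, ∀ x ∈ Ico 0 T, IntervalIntegrable (fun t => mt t θ) volume 0 x)
    (P : ∀ (n : ℕ) (x : ℕ → ℝ × ℝ), (∀ i ≤ n, (x i).1 ∈ Tg ∧ (x i).2 ∈ Θg) →
      (∀ i < n, (x i).1 = (x (i + 1)).1 ∨ (x i).2 = (x (i + 1)).2) →
      |B (x n).2 - B (x 0).2| ≤ (∫ t in (0 : ℝ)..(x 0).1, mt t (x 0).2) +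
        (∑ i ∈ Finset.range n, segCost mt mθ (x i) (x (i + 1))) +
        ∫ t in (0 : ℝ)..(x n).1, mt t (x n).2) :
    elam T B 0 ≤ ∫⁻ t in Ioo 0 T, ∫⁻ θ in Ioo 0 (2 * Real.pi),
      (ENNReal.ofReal (mt t θ) ^ 2 + ENNReal.ofReal (mθ t θ) ^ 2) := by
  by_cases fin : (∫⁻ t in Ioo 0 T, ∫⁻ θ in Ioo 0 (2 * Real.pi),
      (ENNReal.ofReal (mt t θ) ^ 2 + ENNReal.ofReal (mθ t θ) ^ 2)) < ⊤
  swap
  · rw [not_lt, top_le_iff] at fin
    rw [fin]; exact le_top
  obtain ⟨f, h1, h2, h3, h4⟩ := mcshane (T := T) hB mt mθ mt0 mθ0 mtp mθp Tg Θg pΘ P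
  obtain ⟨f', hf', hff⟩ := mcshane_meas mt mθ Tg Θg hTg mTg mΘg iT iΘ f h1 h2
  have key := fun N => competitor hT hB mt mθ f' hmt hmθ hf' mt0 mθ0 fin Tg Θg hTg fT fΘ pΘ iT iΘ
    (fun t ht x hx y hy hxy => by rw [hff t ht x hx, hff t ht y hy]; exact h1 t ht x hx y hy hxy)
    (fun θ hθ x hx y hy hxy => by rw [hff x hx θ hθ, hff y hy θ hθ]; exact h2 θ hθ x hx y hy hxy)
    (fun θ hθ x hx => by rw [hff x hx θ hθ]; exact h3 θ hθ x hx)
    (fun t ht x hx => by rw [hff t ht x hx, hff t ht _ ((pΘ x).1 hx)]; exact h4 t ht x hx) N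
  rw [elam_eq hT hB]
  have hnn : ∀ n : ℕ, 0 ≤ Real.pi * n * Real.tanh (n * T) * mode L B n := by
    intro n
    have h1 : 0 ≤ Real.tanh (n * T) := by
      rw [Real.tanh_eq_sinh_div_cosh]
      exact div_nonneg (Real.sinh_nonneg_iff.2 (by positivity)) (Real.cosh_pos _).le
    have h2 : 0 ≤ mode L B n := by unfold mode; positivity
    have := Real.pi_pos
    positivity
  rw [ENNReal.tsum_eq_iSup_nat, ENNReal.add_iSup]
  refine iSup_le fun N => ?_
  refine le_trans ?_ (key N)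
  rw [ENNReal.ofReal_add (by have := Real.pi_pos; positivity)
    (Finset.sum_nonneg fun n _ => hnn n)]
  gcongr
  rw [ENNReal.ofReal_sum_of_nonneg (fun n _ => hnn n)]
  have : ∑ n ∈ Finset.range N, ENNReal.ofReal (Real.pi * n * Real.tanh (n * T) * mode L B n) ≤
      ∑ n ∈ Finset.range (N + 1), ENNReal.ofReal (Real.pi * n * Real.tanh (n * T) * mode L B n) :=
    Finset.sum_le_sum_of_subset (Finset.range_mono (Nat.le_succ N))
  refine this.trans ?_
  rw [Finset.sum_range_succ']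
  simp only [Nat.cast_zero, mul_zero, zero_mul, ENNReal.ofReal_zero, add_zero]
  rw [Finset.range_eq_Ico, Finset.sum_Ico_add' (fun n : ℕ => ENNReal.ofReal (Real.pi * n *
    Real.tanh (n * T) * mode L B n)) 0 N 1]
  apply Finset.sum_le_sum_of_subset
  intro n hn
  simp only [Finset.mem_Ico, Finset.mem_Icc] at hn ⊢
  omega

end CF6

end
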