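import Pool.Agent.Lib.MP_cf6b16_an.K1
import Pool.Agent.Lib.MP_cf6b16_an.DefsB
import Pool.Agent.Lib.MP_cf6b16_an.F2

section

/-! # Module G of MP_cf6b16_an (fill): definitions

Coordinates of the collar `below τ`: `u = cu τ xs s ζ = xs s + i τ(xs s) ζ`, `s ∈ ℝ`, `0 < ζ ≤ 1`, where
`xs' = τ ∘ xs`.  `gD` is the size of the derivatives of `(s,ζ) ↦ Φ (cu s ζ)`, `gA` the arc length along
the curve, `gM s` the energy of the radius `ζ ↦ Φ (cu s ζ)`. -/

open Complex MeasureTheory Set Filter Topology Metric intervalIntegral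
open scoped ENNReal

namespace CF6

/-- parametrisation of the real line with speed `τ` -/
structure Par (τ xs : ℝ → ℝ) (S : ℝ) : Prop where
  der : ∀ s, HasDerivAt xs (τ (xs s)) s
  zero : xs 0 = 0
  per : ∀ s, xs (s + S) = xs s + 2 * Real.pi
  Sge : 1 ≤ S
  mono : StrictMono xs
  surj : Function.Surjective xs

noncomputable def cu (τ xs : ℝ → ℝ) (s ζ : ℝ) : ℂ := xs s + τ (xs s) * ζ * I

noncomputable def gD (Φ : ℂ → ℂ) (τ xs : ℝ → ℝ) (s ζ : ℝ) : ℝ :=
  ‖deriv Φ (cu τ xs s ζ)‖ * τ (xs s)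

noncomputable def gA (Φ : ℂ → ℂ) (τ xs : ℝ → ℝ) (s : ℝ) : ℝ := arcA Φ τ (xs s)

noncomputable def gM (Φ : ℂ → ℂ) (τ xs : ℝ → ℝ) (s : ℝ) : ℝ≥0∞ :=
  ∫⁻ ζ in Ioo (0 : ℝ) 1, ENNReal.ofReal (gD Φ τ xs s ζ) ^ 2

/-- What the fill needs to know about the target: `W` = `gD s 1` (comparable to the distance to `K`),
`A` = arc length, `M` = energy of a radius. -/
structure Tgt (C S L : ℝ) (W A : ℝ → ℝ) (M : ℝ → ℝ≥0∞) : Prop where
  C1 : 1 ≤ C
  S1 : 1 ≤ S
  L0 : 0 < L
  Wpos : ∀ s, 0 < W s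
  Wdiff : Differentiable ℝ W
  Wder : ∀ s, |deriv W s| ≤ C * W s
  Wper : ∀ s, W (s + S) = W s
  A1 : ContDiff ℝ 1 A
  Alo : ∀ s, W s ≤ deriv A s
  Ahi : ∀ s, deriv A s ≤ 2 * W s
  Aper : ∀ s, A (s + S) = A s + L
  Mmeas : Measurable M
  Mper : ∀ s, M (s + S) = M s
  Mge : ∀ s, ENNReal.ofReal (W s) ^ 2 ≤ ENNReal.ofReal C * M s
  good : ∀ s δ : ℝ, 1 / 2 ≤ δ → δ ≤ 1 → ENNReal.ofReal (δ / 2) ≤
    volume {x | x ∈ Ioo s (s + δ) ∧ M x ≤ ENNReal.ofReal (C * W s ^ 2)}

/-- What the fill needs to know about the boundary function `B` of the last layer (width `σ`). -/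
structure Lay (T σ L : ℝ) (B : ℝ → ℝ) : Prop where
  σ0 : 0 < σ
  σT : σ ≤ T / 2
  L0 : 0 < L
  B1 : ContDiff ℝ 1 B
  per : ∀ θ, B (θ + 2 * Real.pi) = B θ + L
  pos : ∀ θ, 0 < deriv B θ
  harn : ∀ θ θ', |θ - θ'| ≤ T → deriv B θ ≤ 16 * deriv B θ'
  d2 : ∀ θ, DifferentiableAt ℝ (deriv B) θ ∧ |deriv (deriv B) θ| ≤ 8 / T * deriv B θ

/-- The new parametrisation `Sh` of the layer (monotone, near `S0`, spends its time at good radii). -/
structure Rep (C S T σ : ℝ) (W : ℝ → ℝ) (M : ℝ → ℝ≥0∞) (B S0 Sh : ℝ → ℝ) : Prop where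
  mono : StrictMono Sh
  lip : ∃ K : NNReal, LipschitzWith K Sh
  per : ∀ θ, Sh (θ + 2 * Real.pi) = Sh θ + S
  near : ∀ θ, |Sh θ - S0 θ| ≤ 1
  loc : ∀ θ, ∀ᶠ θ' in 𝓝 θ, |Sh θ' - Sh θ| ≤ C * (deriv B θ / W (S0 θ) + 1 / σ) * |θ' - θ|
  cost : (∫⁻ θ in Ioo 0 (2 * Real.pi), M (Sh θ) * ENNReal.ofReal (deriv B θ / W (S0 θ) + 1 / σ)) ≤
    ENNReal.ofReal C * ((∫⁻ s in Ioo (S0 0) (S0 0 + S), M s) + ENNReal.ofReal (1 / σ) *
      ∫⁻ θ in Ioo 0 (2 * Real.pi), ENNReal.ofReal (W (S0 θ)) ^ 2)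

/-- cutoff: `1` for `t ≤ T - σ`, `0` for `t ≥ T - σ/2` -/
noncomputable def kap (T σ t : ℝ) : ℝ := max 0 (min 1 (1 - 2 * (t - (T - σ)) / σ))

/-- arc length coordinate of the map: `B0` at `t = 0`, `lam` up to `T - σ`, then interpolation to `Bh`. -/
noncomputable def Lam (T σ : ℝ) (B0 Bh : ℝ → ℝ) (t θ : ℝ) : ℝ :=
  if t = 0 then B0 θ else
    lam T B0 (min t (T - σ)) θ + (1 - kap T σ t) * (Bh θ - lam T B0 (T - σ) θ)

/-- relative height -/
noncomputable def Zf (T c : ℝ) (hh : ℝ → ℝ) (t θ : ℝ) : ℝ :=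
  (1 - c) * min 1 ((T - t) / hh θ) + c * (T - t) / T

/-- All data of the fill. -/
structure FD (Φ : ℂ → ℂ) (τ xs : ℝ → ℝ) (S L C T σ c : ℝ) (B0 S0 Sh hh Ai : ℝ → ℝ) : Prop where
  Tpos : 0 < T
  dep : Depth (1 / 10) (1 / 10) τ
  par : Par τ xs S
  hol : DifferentiableOn ℂ Φ UHP
  der0 : ∀ s ζ : ℝ, 0 < ζ → ζ ≤ 1 → deriv Φ (cu τ xs s ζ) ≠ 0
  pder : ∀ u ∈ UHP, deriv Φ (u + 2 * Real.pi) = deriv Φ u
  tgt : Tgt C S L (fun s => gD Φ τ xs s 1) (gA Φ τ xs) (gM Φ τ xs)
  qp : QP L B0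
  lay : Lay T σ L (lam T B0 (T - σ))
  S0eq : ∀ θ, gA Φ τ xs (S0 θ) = lam T B0 (T - σ) θ
  rep : Rep C S T σ (fun s => gD Φ τ xs s 1) (gM Φ τ xs) (lam T B0 (T - σ)) S0 Sh
  hheq : ∀ θ, hh θ = 1 / (deriv (lam T B0 (T - σ)) θ / gD Φ τ xs (S0 θ) 1 + 2 / σ)
  Aieq : ∀ a, gA Φ τ xs (Ai a) = a
  c0 : 0 < c
  c1 : c ≤ 1 / 2
  near : ∀ s ζ : ℝ, 1 - c ≤ ζ → ζ ≤ 1 → gD Φ τ xs s ζ ≤ C * gD Φ τ xs s 1

/-- the arc length coordinate as a function on the strip -/
noncomputable def LamZ (T σ : ℝ) (B0 Bh : ℝ → ℝ) (z : ℂ) : ℝ := Lam T σ B0 Bh z.re z.im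

/-- the final map, first coordinate -/
noncomputable def XZ (Φ : ℂ → ℂ) (τ xs : ℝ → ℝ) (T σ : ℝ) (B0 Sh Ai : ℝ → ℝ) (z : ℂ) : ℝ :=
  Ai (Lam T σ B0 (fun θ => gA Φ τ xs (Sh θ)) z.re z.im)

/-- the final map, second coordinate -/
noncomputable def ZZ (T c : ℝ) (hh : ℝ → ℝ) (z : ℂ) : ℝ := Zf T c hh z.re z.im

/-- the final map -/
noncomputable def PsiG (Φ : ℂ → ℂ) (τ xs : ℝ → ℝ) (T σ c : ℝ) (B0 Sh hh Ai : ℝ → ℝ) (z : ℂ) : ℂ :=
  cu τ xs (XZ Φ τ xs T σ B0 Sh Ai z) (ZZ T c hh z)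

/-- locally Lipschitz on an open set -/
def LL {E F : Type*} [PseudoEMetricSpace E] [PseudoEMetricSpace F] (U : Set E) (f : E → F) : Prop :=
  ∀ z ∈ U, ∃ (K : NNReal), ∃ t ∈ 𝓝 z, LipschitzOnWith K f t

end CF6

end

section

/-! # G01: the parametrisation xs

Let `g x = ∫ t in 0..x, 1 / τ t`. `τ` is continuous and positive, so `g` has derivative `1/τ x > 0` everywhere (`intervalIntegral.integral_hasDerivAt_right` / `Continuous.deriv_integral`), it is strictly increasing;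
`1/τ ≥ 10` gives `g x ≥ 10 x` for `x ≥ 0`, `g x ≤ 10 x` for `x ≤ 0`, so `g` is surjective (continuous, tends to `±∞`). Let `xs` be its inverse (`StrictMono.orderIsoOfSurjective` or `Function.surjInv`); `xs` is continuous
(`OrderIso.continuous` / `OrderIso.toHomeomorph`), `HasDerivAt xs (τ (xs s)) s` by `HasDerivAt.of_local_left_inverse` (derivative `(1/τ)⁻¹`). `S := g (2π) ≥ 20 π ≥ 1`; `g (x + 2π) = g x + S` by periodicity of `τ`
(`Function.Periodic.intervalIntegral_add_eq`), hence `xs (s + S) = xs s + 2π`. -/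

open Complex MeasureTheory Set Filter Topology Metric intervalIntegral
open scoped ENNReal

namespace CF6

theorem exists_par {r : ℝ} {τ : ℝ → ℝ} (hr : r ≤ 1 / 10) (hτ : Depth (1 / 10) r τ) :
    ∃ (xs : ℝ → ℝ) (S : ℝ), Par τ xs S := by
  have hc : Continuous fun t => 1 / τ t :=
    continuous_const.div hτ.smooth.continuous fun x => (hτ.pos x).ne'
  set g : ℝ → ℝ := fun x => ∫ t in (0 : ℝ)..x, 1 / τ t with hg
  have hd : ∀ x, HasDerivAt g (1 / τ x) x := fun x =>
    intervalIntegral.integral_hasDerivAt_right (hc.intervalIntegrable _ _)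
      (hc.stronglyMeasurableAtFilter _ _) hc.continuousAt
  have hcont : Continuous g := continuous_iff_continuousAt.mpr fun x => (hd x).continuousAt
  have hmono : StrictMono g := strictMono_of_deriv_pos fun x => by
    rw [(hd x).deriv]
    exact one_div_pos.mpr (hτ.pos x)
  have hg0 : g 0 = 0 := by simp [hg]
  have h10 : ∀ x, 10 ≤ 1 / τ x := fun x => by
    rw [le_div_iff₀ (hτ.pos x)]
    linarith [hτ.le x]
  have hmono2 : Monotone fun x => g x - 10 * x := by
    have hd2 : ∀ x, HasDerivAt (fun x => g x - 10 * x) (1 / τ x - 10) x := fun x => by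
      have h1 := (hd x).sub ((hasDerivAt_id x).const_mul (10 : ℝ))
      rw [mul_one] at h1
      exact h1
    refine monotone_of_deriv_nonneg (fun x => (hd2 x).differentiableAt) fun x => ?_
    rw [(hd2 x).deriv]
    linarith [h10 x]
  have hge : ∀ x, 0 ≤ x → 10 * x ≤ g x := fun x hx => by
    have := hmono2 hx
    simp only [hg0] at this
    linarith
  have hle : ∀ x, x ≤ 0 → g x ≤ 10 * x := fun x hx => by
    have := hmono2 hx
    simp only [hg0] at this
    linarith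
  have htop : Tendsto g atTop atTop := by
    refine tendsto_atTop_mono' atTop ?_ (tendsto_id.const_mul_atTop (show (0 : ℝ) < 10 by norm_num))
    filter_upwards [eventually_ge_atTop (0 : ℝ)] with x hx
    exact hge x hx
  have hbot : Tendsto g atBot atBot := by
    refine tendsto_atBot_mono' atBot ?_ (tendsto_id.const_mul_atBot (show (0 : ℝ) < 10 by norm_num))
    filter_upwards [eventually_le_atBot (0 : ℝ)] with x hx
    exact hle x hx
  have hsurj : Function.Surjective g := hcont.surjective htop hbot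
  set e : ℝ ≃o ℝ := StrictMono.orderIsoOfSurjective g hmono hsurj with he
  have hex : ∀ x, e x = g x := fun x => rfl
  have hee : ∀ s, g (e.symm s) = s := fun s => by
    rw [← hex]
    exact e.apply_symm_apply s
  have hper : ∀ x, g (x + 2 * Real.pi) = g x + g (2 * Real.pi) := by
    intro x
    have hp : Function.Periodic (fun t => 1 / τ t) (2 * Real.pi) := fun t => by
      simp only
      rw [hτ.per t]
    have h1 := hp.intervalIntegral_add_eq x 0
    rw [zero_add] at h1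
    have h2 := intervalIntegral.integral_add_adjacent_intervals (μ := volume)
      (hc.intervalIntegrable 0 x) (hc.intervalIntegrable x (x + 2 * Real.pi))
    simp only [hg]
    rw [← h2, h1]
  refine ⟨e.symm, g (2 * Real.pi), ?_, ?_, ?_, ?_, e.symm.strictMono, e.symm.surjective⟩
  · intro s
    have h1 := HasDerivAt.of_local_left_inverse (f := g) (g := e.symm) (a := s)
      e.symm.continuous.continuousAt (hd (e.symm s)) (one_div_pos.mpr (hτ.pos _)).ne'
      (Filter.Eventually.of_forall hee)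
    simpa using h1
  · apply hmono.injective
    rw [hee, hg0]
  · intro s
    apply hmono.injective
    rw [hee, hper, hee]
  · have h1 := hge (2 * Real.pi) (by positivity)
    have h2 := Real.pi_gt_three
    linarith

end CF6

end

section

/-! # G02: Harnack inequality from the two sided Koebe estimate

`w v := infDist (Φ v) K`; `K` closed, `Φ v ∉ K`, so `w v > 0` (for `v ∈ UHP`; `K` nonempty by `hK.nontriv`). `koebe_ne`: `0 < w ≤ C0 (|Φ'| im u)`.
`koebe_harnack`: let `R = im u/(8 C0) ≤ im u/8`. On the closed ball `closedBall u R` (convex, inside UHP, heights in `[7/8,9/8] im u ≤ y1`) let `m` = maximum of the continuous function `w` (compactness), `|Φ'| ≤ C0 w/im ≤ (8/7) C0 m/im u`.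
Mean value inequality (`Convex.norm_image_sub_le_of_norm_deriv_le`): `‖Φ a - Φ b‖ ≤ (8/7) C0 (m/im u) ‖a-b‖`; `infDist` is 1-Lipschitz, so `|w a - w u| ≤ (8/7) C0 (m / im u) R = m/7`. Hence `m ≤ (7/6) w u` and `w u' ≥ w u - m/7 ≥ (5/6) w u`,
`w u' ≤ (7/6) w u`. `|Φ'(u')| ≤ C0 w u'/im u' ≤ C0 (7/6)(8/7) w u/im u ≤ (4/3) C0² |Φ'(u)|`, `|Φ'(u)| ≤ C0 w u/im u ≤ C0 (6/5)(9/8) w u'/im u' ≤ 2 C0² |Φ'(u')|`.
`koebe_deriv2`: Cauchy estimate for `Φ'` on the circle of radius `R` (`Complex.norm_deriv_le_of_forall_mem_sphere_norm_le`): `|Φ''(u)| ≤ 2 C0² |Φ'(u)| / R`. -/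

open Complex MeasureTheory Set Filter Topology Metric intervalIntegral
open scoped ENNReal

namespace CF6

theorem g02_pos {K : Set ℂ} {Φ ρ : ℂ → ℂ} (hK : Collar K Φ ρ) {u : ℂ} (h0 : 0 < u.im) :
    0 < infDist (Φ u) K :=
  (hK.closed.notMem_iff_infDist_pos hK.nontriv.nonempty).mp (hK.mem u h0)

theorem koebe_ne {C0 y1 : ℝ} {K : Set ℂ} {Φ ρ : ℂ → ℂ} (hK : Collar K Φ ρ)
    (hk : Koebe C0 y1 K Φ) {u : ℂ} (h0 : 0 < u.im) (h1 : u.im ≤ y1) : deriv Φ u ≠ 0 := by
  intro h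
  have h2 := (hk u h0 h1).2
  rw [h, norm_zero, zero_mul, mul_zero] at h2
  exact absurd (g02_pos hK h0) (not_lt.mpr h2)

theorem g02_im {u v : ℂ} {R : ℝ} (h : v ∈ closedBall u R) : u.im - R ≤ v.im ∧ v.im ≤ u.im + R := by
  rw [mem_closedBall, dist_eq_norm] at h
  have := (Complex.abs_im_le_norm (v - u)).trans h
  rw [Complex.sub_im, abs_le] at this
  constructor <;> linarith [this.1, this.2]

theorem koebe_harnack {C0 y1 : ℝ} (hC : 1 ≤ C0) {K : Set ℂ} {Φ ρ : ℂ → ℂ} (hK : Collar K Φ ρ)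
    (hk : Koebe C0 y1 K Φ) {u u' : ℂ} (h0 : 0 < u.im) (h1 : u.im ≤ y1 / 2)
    (h : ‖u' - u‖ ≤ u.im / (8 * C0)) :
    ‖deriv Φ u'‖ ≤ 2 * C0 ^ 2 * ‖deriv Φ u‖ ∧ ‖deriv Φ u‖ ≤ 2 * C0 ^ 2 * ‖deriv Φ u'‖ := by
  have hC0 : 0 < C0 := by linarith
  set R : ℝ := u.im / (8 * C0) with hR
  have hR0 : 0 < R := by positivity
  have hR8 : R ≤ u.im / 8 := by
    rw [hR]
    apply div_le_div_of_nonneg_left h0.le (by norm_num)
    linarith
  have him : ∀ v ∈ closedBall u R, 7 / 8 * u.im ≤ v.im ∧ v.im ≤ 9 / 8 * u.im := by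
    intro v hv
    have := g02_im hv
    constructor <;> linarith [this.1, this.2]
  have hpos : ∀ v ∈ closedBall u R, 0 < v.im := fun v hv => by linarith [(him v hv).1]
  have hle : ∀ v ∈ closedBall u R, v.im ≤ y1 := fun v hv => by linarith [(him v hv).2]
  have hUopen : IsOpen UHP := isOpen_lt continuous_const Complex.continuous_im
  have hdiff : ∀ v ∈ closedBall u R, DifferentiableAt ℂ Φ v := fun v hv =>
    hK.dPhi.differentiableAt (hUopen.mem_nhds (hpos v hv))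
  have hwc : ContinuousOn (fun v => infDist (Φ v) K) (closedBall u R) := fun v hv =>
    ((Metric.continuous_infDist_pt K).continuousAt.comp (hdiff v hv).continuousAt).continuousWithinAt
  obtain ⟨a, ha, hmax⟩ := (isCompact_closedBall u R).exists_isMaxOn
    ⟨u, mem_closedBall_self hR0.le⟩ hwc
  set m : ℝ := infDist (Φ a) K with hm
  have hmv : ∀ v ∈ closedBall u R, infDist (Φ v) K ≤ m := fun v hv => hmax hv
  have hm0 : 0 < m := g02_pos hK (hpos a ha)
  have hder : ∀ v ∈ closedBall u R, ‖deriv Φ v‖ ≤ 8 / 7 * C0 * m / u.im := by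
    intro v hv
    rw [le_div_iff₀ h0]
    have e1 := (hk v (hpos v hv) (hle v hv)).1
    have e2 := (him v hv).1
    have e3 : ‖deriv Φ v‖ * (7 / 8 * u.im) ≤ ‖deriv Φ v‖ * v.im :=
      mul_le_mul_of_nonneg_left e2 (norm_nonneg _)
    have e4 : C0 * infDist (Φ v) K ≤ C0 * m := mul_le_mul_of_nonneg_left (hmv v hv) hC0.le
    nlinarith
  have hlip : ∀ v ∈ closedBall u R, |infDist (Φ v) K - infDist (Φ u) K| ≤ m / 7 := by
    intro v hv
    have e1 := (convex_closedBall u R).norm_image_sub_le_of_norm_deriv_le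
      (fun x hx => hdiff x hx) hder (mem_closedBall_self hR0.le) hv
    have e2 : ‖v - u‖ ≤ R := by
      rw [← dist_eq_norm]; exact mem_closedBall.mp hv
    have e3 : |infDist (Φ v) K - infDist (Φ u) K| ≤ ‖Φ v - Φ u‖ := by
      rw [← dist_eq_norm, ← Real.dist_eq]
      exact (lipschitz_infDist_pt K).dist_le_mul (Φ v) (Φ u) |>.trans (by simp)
    have e4 : 8 / 7 * C0 * m / u.im * ‖v - u‖ ≤ 8 / 7 * C0 * m / u.im * R :=
      mul_le_mul_of_nonneg_left e2 (by positivity)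
    have e5 : 8 / 7 * C0 * m / u.im * R = m / 7 := by
      rw [hR]
      field_simp
    linarith
  have hwu0 : 0 < infDist (Φ u) K := g02_pos hK h0
  have hu' : u' ∈ closedBall u R := by
    rw [mem_closedBall, dist_eq_norm]; exact h
  have f1 := abs_le.mp (hlip a ha)
  have f2 := abs_le.mp (hlip u' hu')
  have hmu : m ≤ 7 / 6 * infDist (Φ u) K := by
    have := f1.2
    rw [← hm] at this
    linarith
  have g1 : infDist (Φ u') K ≤ 7 / 6 * infDist (Φ u) K := (hmv u' hu').trans hmu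
  have g2 : infDist (Φ u) K ≤ 6 / 5 * infDist (Φ u') K := by linarith [f2.1]
  have k1 := hk u h0 (by linarith)
  have k2 := hk u' (hpos u' hu') (hle u' hu')
  have i2 := him u' hu'
  constructor
  · -- upper bound
    have e1 : ‖deriv Φ u'‖ * (7 / 8 * u.im) ≤ C0 * (7 / 6 * (C0 * (‖deriv Φ u‖ * u.im))) := by
      calc ‖deriv Φ u'‖ * (7 / 8 * u.im) ≤ ‖deriv Φ u'‖ * u'.im :=
            mul_le_mul_of_nonneg_left i2.1 (norm_nonneg _)
        _ ≤ C0 * infDist (Φ u') K := k2.1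
        _ ≤ C0 * (7 / 6 * infDist (Φ u) K) := mul_le_mul_of_nonneg_left g1 hC0.le
        _ ≤ _ := by
            apply mul_le_mul_of_nonneg_left _ hC0.le
            linarith [k1.2]
    have e2 : (‖deriv Φ u'‖ - 4 / 3 * C0 ^ 2 * ‖deriv Φ u‖) * u.im ≤ 0 := by nlinarith
    have e3 : ‖deriv Φ u'‖ - 4 / 3 * C0 ^ 2 * ‖deriv Φ u‖ ≤ 0 := by
      by_contra hcon
      push Not at hcon
      exact absurd (mul_pos hcon h0) (not_lt.mpr e2)
    have e4 : 0 ≤ C0 ^ 2 * ‖deriv Φ u‖ := by positivity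
    linarith
  · have e1 : ‖deriv Φ u‖ * u.im ≤ C0 * (6 / 5 * (C0 * (‖deriv Φ u'‖ * (9 / 8 * u.im)))) := by
      calc ‖deriv Φ u‖ * u.im ≤ C0 * infDist (Φ u) K := k1.1
        _ ≤ C0 * (6 / 5 * infDist (Φ u') K) := mul_le_mul_of_nonneg_left g2 hC0.le
        _ ≤ C0 * (6 / 5 * (C0 * (‖deriv Φ u'‖ * u'.im))) := by
            apply mul_le_mul_of_nonneg_left _ hC0.le
            linarith [k2.2]
        _ ≤ _ := by
            have := mul_le_mul_of_nonneg_left i2.2 (norm_nonneg (deriv Φ u'))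
            gcongr
    have e2 : (‖deriv Φ u‖ - 27 / 20 * C0 ^ 2 * ‖deriv Φ u'‖) * u.im ≤ 0 := by nlinarith
    have e3 : ‖deriv Φ u‖ - 27 / 20 * C0 ^ 2 * ‖deriv Φ u'‖ ≤ 0 := by
      by_contra hcon
      push Not at hcon
      exact absurd (mul_pos hcon h0) (not_lt.mpr e2)
    have e4 : 0 ≤ C0 ^ 2 * ‖deriv Φ u'‖ := by positivity
    linarith

theorem koebe_deriv2 {C0 y1 : ℝ} (hC : 1 ≤ C0) {K : Set ℂ} {Φ ρ : ℂ → ℂ} (hK : Collar K Φ ρ)
    (hk : Koebe C0 y1 K Φ) {u : ℂ} (h0 : 0 < u.im) (h1 : u.im ≤ y1 / 2) :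
    ‖deriv (deriv Φ) u‖ ≤ 16 * C0 ^ 3 * ‖deriv Φ u‖ / u.im := by
  have hC0 : 0 < C0 := by linarith
  have hR0 : 0 < u.im / (8 * C0) := by positivity
  have hUopen : IsOpen UHP := isOpen_lt continuous_const Complex.continuous_im
  have hsub : closedBall u (u.im / (8 * C0)) ⊆ UHP := by
    intro v hv
    have h2 : u.im / (8 * C0) ≤ u.im / 8 :=
      div_le_div_of_nonneg_left h0.le (by norm_num) (by linarith)
    have := (g02_im hv).1
    show 0 < v.im
    linarith
  have h3 := Complex.norm_deriv_le_of_forall_mem_sphere_norm_le hR0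
    ((hK.dPhi.deriv hUopen).diffContOnCl_ball hsub) (C := 2 * C0 ^ 2 * ‖deriv Φ u‖) (fun v hv => by
      refine (koebe_harnack hC hK hk h0 h1 ?_).1
      rw [← dist_eq_norm]
      exact (mem_sphere.mp hv).le)
  refine h3.trans (le_of_eq ?_)
  field_simp
  ring

end CF6

end

section

/-! # G03a: periodicity, injectivity, the coordinates cu

`phi_per`: `ρ (Φ (u+2π)) = exp (I(u+2π)) = exp (I u) = ρ (Φ u)` and `ρ` is injective on `Kᶜ`; `deriv_per`: differentiate (`Φ = Φ(· + 2π)` near `u`).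
`Φ` injective modulo the period: `ρ (Φ u) = exp(I u)`, `Complex.exp_eq_exp_iff_exists_int`.
`cu_im`: `im (cu s ζ) = τ(xs s) ζ`. `hasDerivAt_cu`: chain rule with `xs' = τ(xs)`.
`gD_W`: `W s = ‖Φ'(cu s 1)‖ τ(xs s)`, `Φ' ≠ 0`, so the norm is differentiable (`HasDerivAt.norm_sq`, square root; or `HasStrictFDerivAt`/`DifferentiableAt.norm`), `(log W)' = Re (Φ''/Φ' · (cu s 1)') + τ'(xs s)`, with
`|(cu s 1)'| = τ ‖1 + τ' I‖ ≤ 1.01 τ`, `|Φ''/Φ'| ≤ 16 C0³/τ` (`koebe_deriv2`, height `τ(xs s) ≤ y1/10`): `|W'| ≤ (17 C0³ + 1/10) W`. Easier: `|d/ds ‖F s‖| ≤ ‖F' s‖` for `F s = Φ'(cu s 1)` (derivative of the norm bounded by the Lipschitz constant 1).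
`gA_facts`: `arcA Φ τ` has derivative `‖Φ'(x+iτx)‖ ‖1+τ'(x) I‖` (continuous integrand, fundamental theorem), composed with `xs`: derivative `W s ‖1 + τ'(xs s) I‖`, continuous; `1 ≤ ‖1+τ' I‖ ≤ 2`.
`gA (s+S) = gA s + gA S`: the derivative is `S`-periodic and `gA 0 = 0`; `gA S > 0` by positivity of the derivative. -/

open Complex MeasureTheory Set Filter Topology Metric intervalIntegral
open scoped ENNReal

namespace CF6

theorem g03a_add_mem {u : ℂ} (hu : u ∈ UHP) : u + 2 * Real.pi ∈ UHP := by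
  show 0 < (u + 2 * Real.pi).im
  have : (u + 2 * Real.pi).im = u.im := by simp
  rw [this]
  exact hu

theorem phi_per {K : Set ℂ} {Φ ρ : ℂ → ℂ} (hK : Collar K Φ ρ) {u : ℂ} (hu : u ∈ UHP) :
    Φ (u + 2 * Real.pi) = Φ u := by
  apply hK.inj (hK.mem _ (g03a_add_mem hu)) (hK.mem _ hu)
  rw [hK.left _ (g03a_add_mem hu), hK.left _ hu, mul_add, Complex.exp_add]
  have : exp (I * (2 * Real.pi)) = 1 := by
    rw [mul_comm]
    exact Complex.exp_two_pi_mul_I
  rw [this, mul_one]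

theorem phi_deriv_per {K : Set ℂ} {Φ ρ : ℂ → ℂ} (hK : Collar K Φ ρ) {u : ℂ} (hu : u ∈ UHP) :
    deriv Φ (u + 2 * Real.pi) = deriv Φ u := by
  have hUopen : IsOpen UHP := isOpen_lt continuous_const Complex.continuous_im
  have h1 : (fun z => Φ (z + 2 * Real.pi)) =ᶠ[𝓝 u] Φ := by
    filter_upwards [hUopen.mem_nhds hu] with z hz
    exact phi_per hK hz
  rw [← h1.deriv_eq, deriv_comp_add_const]

theorem phi_inj {K : Set ℂ} {Φ ρ : ℂ → ℂ} (hK : Collar K Φ ρ) {u v : ℂ} (hu : u ∈ UHP)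
    (hv : v ∈ UHP) (h : Φ u = Φ v) : ∃ n : ℤ, u = v + n * (2 * Real.pi) := by
  have h1 : exp (I * u) = exp (I * v) := by
    rw [← hK.left u hu, ← hK.left v hv, h]
  obtain ⟨n, hn⟩ := Complex.exp_eq_exp_iff_exists_int.mp h1
  refine ⟨n, ?_⟩
  have h2 : I * u = I * (v + n * (2 * Real.pi)) := by
    rw [hn]; ring
  exact mul_left_cancel₀ I_ne_zero h2

theorem cu_im (τ xs : ℝ → ℝ) (s ζ : ℝ) : (cu τ xs s ζ).im = τ (xs s) * ζ ∧ (cu τ xs s ζ).re = xs s := by
  have h : cu τ xs s ζ = (xs s : ℂ) + ((τ (xs s) * ζ : ℝ) : ℂ) * I := by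
    unfold cu
    push_cast
    ring
  rw [h]
  constructor <;> simp

theorem cu_per {τ xs : ℝ → ℝ} {S : ℝ} (hp : Par τ xs S) (hτ : ∀ x, τ (x + 2 * Real.pi) = τ x)
    (s ζ : ℝ) : cu τ xs (s + S) ζ = cu τ xs s ζ + 2 * Real.pi := by
  unfold cu
  rw [hp.per, hτ]
  push_cast
  ring

theorem hasDerivAt_cu {τ xs : ℝ → ℝ} {S : ℝ} (hp : Par τ xs S) (hτ : Differentiable ℝ τ) (s ζ : ℝ) :
    HasDerivAt (fun s => cu τ xs s ζ) (τ (xs s) * (1 + deriv τ (xs s) * ζ * I)) s ∧
      HasDerivAt (fun ζ => cu τ xs s ζ) (τ (xs s) * I) ζ := by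
  constructor
  · have h1 : HasDerivAt (fun s => (xs s : ℂ)) (τ (xs s) : ℂ) s := (hp.der s).ofReal_comp
    have h2 : HasDerivAt (fun s => τ (xs s)) (deriv τ (xs s) * τ (xs s)) s :=
      ((hτ (xs s)).hasDerivAt).comp s (hp.der s)
    have h3 : HasDerivAt (fun s => ((τ (xs s) : ℝ) : ℂ)) ((deriv τ (xs s) * τ (xs s) : ℝ) : ℂ) s :=
      h2.ofReal_comp
    have h4 := h1.add ((h3.mul_const (ζ : ℂ)).mul_const I)
    refine (h4.congr_deriv ?_)
    push_cast
    ring
  · have h1 : HasDerivAt (fun ζ : ℝ => (ζ : ℂ)) 1 ζ := (hasDerivAt_id ζ).ofReal_comp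
    have h2 := ((h1.const_mul (τ (xs s) : ℂ)).mul_const I).const_add (xs s : ℂ)
    refine h2.congr_deriv ?_
    ring

theorem gD_per {K : Set ℂ} {Φ ρ : ℂ → ℂ} (hK : Collar K Φ ρ) {c r S : ℝ} {τ xs : ℝ → ℝ}
    (hτ : Depth c r τ) (hp : Par τ xs S) (s : ℝ) {ζ : ℝ} (hζ : 0 < ζ) :
    gD Φ τ xs (s + S) ζ = gD Φ τ xs s ζ := by
  have hmem : cu τ xs s ζ ∈ UHP := by
    show 0 < (cu τ xs s ζ).im
    rw [(cu_im τ xs s ζ).1]
    exact mul_pos (hτ.pos _) hζ
  unfold gD
  rw [cu_per hp hτ.per, phi_deriv_per hK hmem, hp.per, hτ.per]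

end CF6

end

section

/-! # G03b: the functions W and A

`phi_per`: `ρ (Φ (u+2π)) = exp (I(u+2π)) = exp (I u) = ρ (Φ u)` and `ρ` is injective on `Kᶜ`; `deriv_per`: differentiate (`Φ = Φ(· + 2π)` near `u`).
`Φ` injective modulo the period: `ρ (Φ u) = exp(I u)`, `Complex.exp_eq_exp_iff_exists_int`.
`cu_im`: `im (cu s ζ) = τ(xs s) ζ`. `hasDerivAt_cu`: chain rule with `xs' = τ(xs)`.
`gD_W`: `W s = ‖Φ'(cu s 1)‖ τ(xs s)`, `Φ' ≠ 0`, so the norm is differentiable (`HasDerivAt.norm_sq`, square root; or `HasStrictFDerivAt`/`DifferentiableAt.norm`), `(log W)' = Re (Φ''/Φ' · (cu s 1)') + τ'(xs s)`, with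
`|(cu s 1)'| = τ ‖1 + τ' I‖ ≤ 1.01 τ`, `|Φ''/Φ'| ≤ 16 C0³/τ` (`koebe_deriv2`, height `τ(xs s) ≤ y1/10`): `|W'| ≤ (17 C0³ + 1/10) W`. Easier: `|d/ds ‖F s‖| ≤ ‖F' s‖` for `F s = Φ'(cu s 1)` (derivative of the norm bounded by the Lipschitz constant 1).
`gA_facts`: `arcA Φ τ` has derivative `‖Φ'(x+iτx)‖ ‖1+τ'(x) I‖` (continuous integrand, fundamental theorem), composed with `xs`: derivative `W s ‖1 + τ'(xs s) I‖`, continuous; `1 ≤ ‖1+τ' I‖ ≤ 2`.
`gA (s+S) = gA s + gA S`: the derivative is `S`-periodic and `gA 0 = 0`; `gA S > 0` by positivity of the derivative. -/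

open Complex MeasureTheory Set Filter Topology Metric intervalIntegral
open scoped ENNReal

namespace CF6

theorem g03b_mem {τ xs : ℝ → ℝ} (hpos : ∀ x, 0 < τ x) (s : ℝ) : cu τ xs s 1 ∈ UHP := by
  have h := (cu_im τ xs s 1).1
  show 0 < (cu τ xs s 1).im
  rw [h, mul_one]
  exact hpos _

theorem g03b_norm {a : ℝ} (ha : |a| ≤ 1 / 10) : 1 ≤ ‖(1 + a * I : ℂ)‖ ∧ ‖(1 + a * I : ℂ)‖ ≤ 11 / 10 := by
  constructor
  · have := abs_re_le_norm (1 + a * I : ℂ)
    simpa using this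
  · refine (norm_add_le _ _).trans ?_
    rw [norm_one, norm_mul, Complex.norm_I, mul_one, Complex.norm_real, Real.norm_eq_abs]
    linarith

theorem gD_W {C0 y1 : ℝ} (hC : 1 ≤ C0) {K : Set ℂ} {Φ ρ : ℂ → ℂ} (hK : Collar K Φ ρ)
    (hk : Koebe C0 y1 K Φ) {τ xs : ℝ → ℝ} {S : ℝ} (hτ : Depth (1 / 10) (y1 / 10) τ)
    (hp : Par τ xs S) (s : ℝ) :
    0 < gD Φ τ xs s 1 ∧ DifferentiableAt ℝ (fun s => gD Φ τ xs s 1) s ∧
      |deriv (fun s => gD Φ τ xs s 1) s| ≤ 20 * C0 ^ 3 * gD Φ τ xs s 1 := by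
  have hτd : Differentiable ℝ τ := hτ.smooth.differentiable (by norm_num)
  have hpos : 0 < τ (xs s) := hτ.pos _
  have him : (cu τ xs s 1).im = τ (xs s) := by rw [(cu_im τ xs s 1).1, mul_one]
  have hle : τ (xs s) ≤ y1 / 10 := hτ.le _
  have hmem := g03b_mem (xs := xs) hτ.pos s
  have hUo : IsOpen UHP := isOpen_lt continuous_const Complex.continuous_im
  have hne : deriv Φ (cu τ xs s 1) ≠ 0 := koebe_ne hK hk (by rw [him]; exact hpos) (by rw [him]; linarith)
  have hne' : 0 < ‖deriv Φ (cu τ xs s 1)‖ := norm_pos_iff.2 hne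
  -- derivative of F
  have h1 : HasDerivAt (deriv Φ) (deriv (deriv Φ) (cu τ xs s 1)) (cu τ xs s 1) :=
    ((hK.dPhi.deriv hUo).differentiableAt (hUo.mem_nhds hmem)).hasDerivAt
  have h2 := (hasDerivAt_cu hp hτd s 1).1
  have hF : HasDerivAt (fun s => deriv Φ (cu τ xs s 1))
      (deriv (deriv Φ) (cu τ xs s 1) * (τ (xs s) * (1 + deriv τ (xs s) * (1 : ℝ) * I))) s :=
    HasDerivAt.comp (h := fun s => cu τ xs s 1) s h1 h2
  set F' : ℂ := deriv (deriv Φ) (cu τ xs s 1) * (τ (xs s) * (1 + deriv τ (xs s) * (1 : ℝ) * I)) with hF'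
  have hF'b : ‖F'‖ ≤ (16 * C0 ^ 3 * ‖deriv Φ (cu τ xs s 1)‖ / τ (xs s)) * (τ (xs s) * (11 / 10)) := by
    rw [hF', norm_mul, norm_mul]
    have e1 := koebe_deriv2 hC hK hk (u := cu τ xs s 1) (by rw [him]; exact hpos) (by rw [him]; linarith)
    rw [him] at e1
    have e2 : ‖(τ (xs s) : ℂ)‖ = τ (xs s) := by
      rw [Complex.norm_real, Real.norm_of_nonneg hpos.le]
    have e3 : ‖(1 + deriv τ (xs s) * (1 : ℝ) * I : ℂ)‖ ≤ 11 / 10 := by
      rw [ofReal_one, mul_one]
      exact (g03b_norm (hτ.slope _)).2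
    rw [e2]
    have e4 : 0 ≤ 16 * C0 ^ 3 * ‖deriv Φ (cu τ xs s 1)‖ / τ (xs s) := by positivity
    apply mul_le_mul e1 _ (by positivity) e4
    exact mul_le_mul_of_nonneg_left e3 hpos.le
  -- derivative of the norm
  have hsq : HasDerivAt (fun s => ‖deriv Φ (cu τ xs s 1)‖ ^ 2)
      (2 * inner ℝ (deriv Φ (cu τ xs s 1)) F') s := hF.norm_sq
  have hn : HasDerivAt (fun s => ‖deriv Φ (cu τ xs s 1)‖)
      (2 * inner ℝ (deriv Φ (cu τ xs s 1)) F' / (2 * Real.sqrt (‖deriv Φ (cu τ xs s 1)‖ ^ 2))) s := by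
    have := hsq.sqrt (by positivity)
    refine this.congr_of_eventuallyEq (Filter.Eventually.of_forall fun x => ?_)
    simp only
    rw [Real.sqrt_sq (norm_nonneg _)]
  rw [Real.sqrt_sq (norm_nonneg _)] at hn
  set d : ℝ := 2 * inner ℝ (deriv Φ (cu τ xs s 1)) F' / (2 * ‖deriv Φ (cu τ xs s 1)‖) with hd
  have hdb : |d| ≤ ‖F'‖ := by
    rw [hd, mul_div_mul_left _ _ two_ne_zero, abs_div, abs_of_pos hne', div_le_iff₀ hne']
    have := abs_real_inner_le_norm (deriv Φ (cu τ xs s 1)) F'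
    linarith
  have hτx : HasDerivAt (fun s => τ (xs s)) (deriv τ (xs s) * τ (xs s)) s :=
    HasDerivAt.comp (h := xs) s (hτd (xs s)).hasDerivAt (hp.der s)
  have hW : HasDerivAt (fun s => gD Φ τ xs s 1)
      (d * τ (xs s) + ‖deriv Φ (cu τ xs s 1)‖ * (deriv τ (xs s) * τ (xs s))) s := hn.mul hτx
  refine ⟨mul_pos hne' hpos, hW.differentiableAt, ?_⟩
  rw [hW.deriv]
  have hW1 : gD Φ τ xs s 1 = ‖deriv Φ (cu τ xs s 1)‖ * τ (xs s) := rfl
  rw [hW1]
  set N : ℝ := ‖deriv Φ (cu τ xs s 1)‖ with hN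
  have hC3 : 1 ≤ C0 ^ 3 := one_le_pow₀ hC
  have a1 : |d * τ (xs s)| ≤ 16 * C0 ^ 3 * N * (11 / 10) * τ (xs s) := by
    rw [abs_mul, abs_of_pos hpos]
    apply mul_le_mul_of_nonneg_right _ hpos.le
    refine hdb.trans (hF'b.trans (le_of_eq ?_))
    field_simp
  have a2 : |N * (deriv τ (xs s) * τ (xs s))| ≤ N * (1 / 10 * τ (xs s)) := by
    rw [abs_mul, abs_mul, abs_of_pos hpos, abs_of_pos hne']
    apply mul_le_mul_of_nonneg_left _ hne'.le
    exact mul_le_mul_of_nonneg_right (hτ.slope _) hpos.le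
  have a3 : 0 < N * τ (xs s) := mul_pos hne' hpos
  refine (abs_add_le _ _).trans ((add_le_add a1 a2).trans ?_)
  nlinarith

theorem gA_facts {C0 y1 : ℝ} {K : Set ℂ} {Φ ρ : ℂ → ℂ} (hK : Collar K Φ ρ)
    (hk : Koebe C0 y1 K Φ) {τ xs : ℝ → ℝ} {S : ℝ} (hτ : Depth (1 / 10) (y1 / 10) τ)
    (hp : Par τ xs S) :
    ContDiff ℝ 1 (gA Φ τ xs) ∧ (∀ s, deriv (gA Φ τ xs) s =
      gD Φ τ xs s 1 * ‖(1 + deriv τ (xs s) * I : ℂ)‖) ∧
      (∀ s, gD Φ τ xs s 1 ≤ deriv (gA Φ τ xs) s ∧ deriv (gA Φ τ xs) s ≤ 2 * gD Φ τ xs s 1) ∧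
      (∀ s, gA Φ τ xs (s + S) = gA Φ τ xs s + gA Φ τ xs S) ∧ 0 < gA Φ τ xs S := by
  have hτd : Differentiable ℝ τ := hτ.smooth.differentiable (by norm_num)
  have hτ'c : Continuous (deriv τ) := hτ.smooth.continuous_deriv (by norm_num)
  have hUo : IsOpen UHP := isOpen_lt continuous_const Complex.continuous_im
  have hxc : Continuous xs := continuous_iff_continuousAt.2 fun s => (hp.der s).continuousAt
  have hdc : ContinuousOn (deriv Φ) UHP := (hK.dPhi.deriv hUo).continuousOn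
  have hcurve : Continuous fun x : ℝ => ((x : ℂ) + τ x * I) := by
    have := hτd.continuous
    fun_prop
  have hmem : ∀ x : ℝ, ((x : ℂ) + τ x * I) ∈ UHP := by
    intro x
    show 0 < ((x : ℂ) + τ x * I).im
    simpa using hτ.pos x
  have hint : Continuous fun x : ℝ => ‖deriv Φ (x + τ x * I)‖ * ‖(1 + deriv τ x * I : ℂ)‖ := by
    apply Continuous.mul
    · apply Continuous.norm
      exact hdc.comp_continuous hcurve hmem
    · fun_prop
  have harc : ∀ x, HasDerivAt (arcA Φ τ) (‖deriv Φ (x + τ x * I)‖ * ‖(1 + deriv τ x * I : ℂ)‖) x := by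
    intro x
    exact intervalIntegral.integral_hasDerivAt_right (hint.intervalIntegrable _ _)
      (hint.stronglyMeasurableAtFilter _ _) hint.continuousAt
  have hcu : ∀ s, cu τ xs s 1 = xs s + τ (xs s) * I := by
    intro s
    simp [cu]
  have hder : ∀ s, HasDerivAt (gA Φ τ xs) (gD Φ τ xs s 1 * ‖(1 + deriv τ (xs s) * I : ℂ)‖) s := by
    intro s
    have h1 : HasDerivAt (gA Φ τ xs)
        (‖deriv Φ (xs s + τ (xs s) * I)‖ * ‖(1 + deriv τ (xs s) * I : ℂ)‖ * τ (xs s)) s :=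
      HasDerivAt.comp (h := xs) s (harc (xs s)) (hp.der s)
    have e : gD Φ τ xs s 1 * ‖(1 + deriv τ (xs s) * I : ℂ)‖ =
        ‖deriv Φ (xs s + τ (xs s) * I)‖ * ‖(1 + deriv τ (xs s) * I : ℂ)‖ * τ (xs s) := by
      unfold gD
      rw [hcu]
      ring
    rw [e]
    exact h1
  have hderiv : ∀ s, deriv (gA Φ τ xs) s = gD Φ τ xs s 1 * ‖(1 + deriv τ (xs s) * I : ℂ)‖ :=
    fun s => (hder s).deriv
  have hgc : Continuous fun s => gD Φ τ xs s 1 := by
    unfold gD
    apply Continuous.mul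
    · apply Continuous.norm
      have h1 : Continuous fun s => cu τ xs s 1 := by
        have e : (fun s => cu τ xs s 1) = fun s => ((xs s : ℂ) + τ (xs s) * I) := funext hcu
        rw [e]
        exact hcurve.comp hxc
      exact hdc.comp_continuous h1 (fun s => g03b_mem hτ.pos s)
    · exact hτd.continuous.comp hxc
  have hpos : ∀ s, 0 < gD Φ τ xs s 1 := by
    intro s
    have him : (cu τ xs s 1).im = τ (xs s) := by rw [(cu_im τ xs s 1).1, mul_one]
    have h1 := hτ.pos (xs s)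
    have h2 := hτ.le (xs s)
    have hne : deriv Φ (cu τ xs s 1) ≠ 0 :=
      koebe_ne hK hk (by rw [him]; exact h1) (by rw [him]; linarith)
    exact mul_pos (norm_pos_iff.2 hne) h1
  have hbd : ∀ s, gD Φ τ xs s 1 ≤ deriv (gA Φ τ xs) s ∧ deriv (gA Φ τ xs) s ≤ 2 * gD Φ τ xs s 1 := by
    intro s
    rw [hderiv s]
    obtain ⟨n1, n2⟩ := g03b_norm (hτ.slope (xs s))
    have := hpos s
    constructor <;> nlinarith
  have hmono : StrictMono (gA Φ τ xs) := by
    apply strictMono_of_deriv_pos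
    intro s
    exact lt_of_lt_of_le (hpos s) (hbd s).1
  have h0 : gA Φ τ xs 0 = 0 := by
    unfold gA arcA
    rw [hp.zero, intervalIntegral.integral_same]
  have hτ'per : ∀ x, deriv τ (x + 2 * Real.pi) = deriv τ x := by
    intro x
    have h1 : (fun y => τ (y + 2 * Real.pi)) = τ := funext hτ.per
    have h2 := deriv_comp_add_const τ (2 * Real.pi) x
    rw [h1] at h2
    exact h2.symm
  refine ⟨?_, hderiv, hbd, ?_, ?_⟩
  · rw [contDiff_one_iff_deriv]
    refine ⟨fun s => (hder s).differentiableAt, ?_⟩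
    rw [funext hderiv]
    apply hgc.mul
    have := hτ'c.comp hxc
    simp only [Function.comp_def] at this
    fun_prop
  · intro s
    have hshift : ∀ s, HasDerivAt (fun s => gA Φ τ xs (s + S) - gA Φ τ xs s) 0 s := by
      intro s
      have h1 : HasDerivAt (fun s => gA Φ τ xs (s + S))
          (gD Φ τ xs (s + S) 1 * ‖(1 + deriv τ (xs (s + S)) * I : ℂ)‖) s :=
        (hder (s + S)).comp_add_const s S
      have h2 := h1.sub (hder s)
      rw [gD_per hK hτ hp s one_pos, hp.per, hτ'per, sub_self] at h2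
      exact h2
    have hconst : ∀ a b : ℝ, gA Φ τ xs (a + S) - gA Φ τ xs a = gA Φ τ xs (b + S) - gA Φ τ xs b :=
      is_const_of_deriv_eq_zero (fun s => (hshift s).differentiableAt) (fun s => (hshift s).deriv)
    have := hconst s 0
    rw [zero_add, h0] at this
    linarith
  · have := hmono (show (0 : ℝ) < S by linarith [hp.Sge])
    rwa [h0] at this

end CF6

end

section

/-! # G04b: measurability, arc length

`gD_near`: `‖cu s ζ - cu s 1‖ = τ(xs s)(1-ζ) ≤ τ(xs s)/(8 C0)`, `im (cu s 1) = τ(xs s) ≤ y1/10`: `koebe_harnack`.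
`gM_ge`: restrict the integral over `ζ` to `(1 - 1/(8C0), 1)`, there `gD s ζ ≥ W/(2C0²)`: `gM ≥ W²/(4 C0⁴) · 1/(8 C0)`.
`gM_meas`: `(s,ζ) ↦ gD s ζ` is continuous on `ℝ × (0,∞)` (measurable after multiplication with an indicator: `Measurable.lintegral_prod_right'`), `deriv Φ` is continuous on UHP.
`gD_w`: `Koebe` at `u = cu s 1`. `cu_dist`: for `s, s'` : `‖Φ(cu s 1) - Φ(cu s' 1)‖ ≤ |gA s - gA s'|` (mean value: the curve `s ↦ Φ(cu s 1)` has speed `deriv gA s`; e.g. `norm_image_sub_le_of_norm_deriv_le_segment'` against the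
increasing function `gA`: `image_norm_le_of_norm_deriv_right_le_deriv_boundary`, or integrate). -/

open Complex MeasureTheory Set Filter Topology Metric intervalIntegral
open scoped ENNReal

namespace CF6

theorem gM_meas {K : Set ℂ} {Φ ρ : ℂ → ℂ} (hK : Collar K Φ ρ) {c r S : ℝ} {τ xs : ℝ → ℝ}
    (hτ : Depth c r τ) (hp : Par τ xs S) :
    Measurable (gM Φ τ xs) ∧ ∀ s, gM Φ τ xs (s + S) = gM Φ τ xs s := by
  constructor
  · have hd : Continuous τ := hτ.smooth.continuous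
    have hxs : Continuous xs := continuous_iff_continuousAt.2 fun s => (hp.der s).continuousAt
    have hcu : Continuous (fun q : ℝ × ℝ => cu τ xs q.1 q.2) := by
      unfold cu
      fun_prop
    have hopen : IsOpen UHP := isOpen_lt continuous_const Complex.continuous_im
    have hmaps : MapsTo (fun q : ℝ × ℝ => cu τ xs q.1 q.2) (univ ×ˢ Ioo (0 : ℝ) 1) UHP := by
      rintro ⟨s, ζ⟩ ⟨_, hζ⟩
      show 0 < (cu τ xs s ζ).im
      rw [(cu_im τ xs s ζ).1]
      exact mul_pos (hτ.pos _) hζ.1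
    have hms : MeasurableSet ((univ : Set ℝ) ×ˢ Ioo (0 : ℝ) 1) :=
      MeasurableSet.univ.prod measurableSet_Ioo
    have h2 : ContinuousOn (fun q : ℝ × ℝ => gD Φ τ xs q.1 q.2) (univ ×ˢ Ioo (0 : ℝ) 1) := by
      unfold gD
      have hder : ContinuousOn (deriv Φ) UHP := (hK.dPhi.deriv hopen).continuousOn
      have h3 := (hder.comp hcu.continuousOn hmaps).norm
      exact h3.mul ((hd.comp (hxs.comp continuous_fst)).continuousOn)
    have h3 : ContinuousOn (fun q : ℝ × ℝ => ENNReal.ofReal (gD Φ τ xs q.1 q.2) ^ 2)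
        (univ ×ˢ Ioo (0 : ℝ) 1) :=
      (ENNReal.continuous_pow 2).comp_continuousOn (ENNReal.continuous_ofReal.comp_continuousOn h2)
    have h4 : Measurable (((univ : Set ℝ) ×ˢ Ioo (0 : ℝ) 1).indicator
        (fun q : ℝ × ℝ => ENNReal.ofReal (gD Φ τ xs q.1 q.2) ^ 2)) := by
      classical
      rw [← Set.piecewise_eq_indicator]
      exact h3.measurable_piecewise continuousOn_const hms
    have h5 := h4.lintegral_prod_right' (ν := (volume : Measure ℝ))
    have h6 : gM Φ τ xs = fun s => ∫⁻ ζ : ℝ, ((univ : Set ℝ) ×ˢ Ioo (0 : ℝ) 1).indicator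
        (fun q : ℝ × ℝ => ENNReal.ofReal (gD Φ τ xs q.1 q.2) ^ 2) (s, ζ) := by
      funext s
      unfold gM
      rw [← lintegral_indicator measurableSet_Ioo]
      refine lintegral_congr fun ζ => ?_
      by_cases hζ : ζ ∈ Ioo (0 : ℝ) 1
      · rw [indicator_of_mem hζ, indicator_of_mem (by exact ⟨mem_univ _, hζ⟩)]
      · rw [indicator_of_notMem hζ, indicator_of_notMem (fun h => hζ h.2)]
    rw [h6]
    exact h5
  · intro s
    unfold gM
    refine setLIntegral_congr_fun measurableSet_Ioo (fun ζ hζ => ?_)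
    rw [gD_per hK hτ hp s hζ.1]

theorem cu_dist {C0 y1 : ℝ} {K : Set ℂ} {Φ ρ : ℂ → ℂ} (hK : Collar K Φ ρ)
    (hk : Koebe C0 y1 K Φ) {τ xs : ℝ → ℝ} {S : ℝ} (hτ : Depth (1 / 10) (y1 / 10) τ)
    (hp : Par τ xs S) (s s' : ℝ) :
    ‖Φ (cu τ xs s 1) - Φ (cu τ xs s' 1)‖ ≤ |gA Φ τ xs s - gA Φ τ xs s'| := by
  obtain ⟨hA1, hA2, -, -, -⟩ := gA_facts hK hk hτ hp
  have hd : Differentiable ℝ τ := hτ.smooth.differentiable (by norm_num)
  have hAd : ∀ x, HasDerivAt (gA Φ τ xs) (deriv (gA Φ τ xs) x) x := fun x =>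
    ((hA1.differentiable (by norm_num)) x).hasDerivAt
  have hopen : IsOpen UHP := isOpen_lt continuous_const Complex.continuous_im
  have hfd : ∀ x, HasDerivAt (fun x => Φ (cu τ xs x 1))
      (deriv Φ (cu τ xs x 1) * (τ (xs x) * (1 + deriv τ (xs x) * I))) x := by
    intro x
    have hmem : cu τ xs x 1 ∈ UHP := by
      show 0 < (cu τ xs x 1).im
      rw [(cu_im τ xs x 1).1, mul_one]
      exact hτ.pos _
    have h1 : HasDerivAt Φ (deriv Φ (cu τ xs x 1)) (cu τ xs x 1) :=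
      ((hK.dPhi _ hmem).differentiableAt (hopen.mem_nhds hmem)).hasDerivAt
    have h2 := (hasDerivAt_cu hp hd x 1).1
    have h3 : HasDerivAt (fun x => Φ (cu τ xs x 1)) _ x := h1.comp x h2
    simpa using h3
  have hnorm : ∀ x, ‖deriv Φ (cu τ xs x 1) * (τ (xs x) * (1 + deriv τ (xs x) * I))‖ =
      deriv (gA Φ τ xs) x := by
    intro x
    rw [hA2, norm_mul, norm_mul, Complex.norm_real, Real.norm_eq_abs, abs_of_pos (hτ.pos _)]
    unfold gD
    ring
  have key : ∀ a b : ℝ, a ≤ b → ‖Φ (cu τ xs b 1) - Φ (cu τ xs a 1)‖ ≤ gA Φ τ xs b - gA Φ τ xs a := by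
    intro a b hab
    have h := image_norm_le_of_norm_deriv_right_le_deriv_boundary
      (f := fun x => Φ (cu τ xs x 1) - Φ (cu τ xs a 1))
      (f' := fun x => deriv Φ (cu τ xs x 1) * (τ (xs x) * (1 + deriv τ (xs x) * I)))
      (a := a) (b := b) (B := fun x => gA Φ τ xs x - gA Φ τ xs a)
      (B' := deriv (gA Φ τ xs))
      (fun x _ => ((hfd x).sub_const _).continuousAt.continuousWithinAt)
      (fun x _ => ((hfd x).sub_const _).hasDerivWithinAt)
      (by simp) (fun x => (hAd x).sub_const _) (fun x _ => (hnorm x).le)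
    exact h ⟨hab, le_refl b⟩
  rcases le_total s s' with h | h
  · rw [norm_sub_rev, abs_sub_comm]
    exact (key s s' h).trans (le_abs_self _)
  · exact (key s' s h).trans (le_abs_self _)

end CF6

end

section

/-! # G05: area formula in the coordinates (s,ζ)

Let `P : ℂ → ℂ`, `P z = Φ (cu τ xs z.re z.im)`, on the open rectangle `R = {a < re < b, 0 < im < 1}`. It is real differentiable on `R` with derivative `v ↦ Φ'(cu)·(τ (1 + τ' ζ I) v.re + τ I v.im)` (`hasDerivAt_cu`, or `HasFDerivAt`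
built from `xs' = τ(xs)`), determinant `‖Φ'‖² τ²` (det of `v ↦ p v.re + q v.im` is `re p im q - im p re q`; multiplication by a complex number `m` has determinant `|m|²`). Injective on `R`: `phi_inj`, the real parts of the two points differ by less than
`2π` because `xs b - xs a ≤ xs(a+S) - xs a = 2π`; then `xs` is injective and `τ > 0`. `MeasureTheory.lintegral_image_eq_lintegral_abs_det_fderiv_mul` gives `∫⁻ w in P '' R, F w = ∫⁻ z in R, |det| * F (P z)`; write the integral over `R` as an iterated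
integral (`Complex.volume_preserving_equiv_real_prod`, `lintegral_prod`/`setLIntegral_prod`; measurability: the integrand is continuous on `R` times a measurable function; use an indicator). -/

open Complex MeasureTheory Set Filter Topology Metric intervalIntegral
open scoped ENNReal

namespace CF6

/-- determinant of a real linear endomorphism of the plane -/
private lemma g05_det (A : ℂ →L[ℝ] ℂ) : A.det = (A 1).re * (A I).im - (A I).re * (A 1).im := by
  have h : A.det = LinearMap.det (A : ℂ →ₗ[ℝ] ℂ) := rfl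
  rw [h, ← LinearMap.det_toMatrix Complex.basisOneI, Matrix.det_fin_two]
  simp [LinearMap.toMatrix_apply]

private lemma g05_cu_fderiv {τ xs : ℝ → ℝ} {S : ℝ} (hp : Par τ xs S) (hτ : Differentiable ℝ τ)
    (z : ℂ) : HasFDerivAt (fun z : ℂ => cu τ xs z.re z.im)
      (reCLM.smulRight ((τ (xs z.re) : ℂ) * (1 + deriv τ (xs z.re) * z.im * I)) +
       imCLM.smulRight ((τ (xs z.re) : ℂ) * I)) z := by
  have h1 : HasFDerivAt (fun z : ℂ => ((xs z.re : ℝ) : ℂ)) _ z :=
    ((hp.der z.re).ofReal_comp).hasFDerivAt.comp z reCLM.hasFDerivAt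
  have h2 : HasFDerivAt (fun z : ℂ => ((τ (xs z.re) : ℝ) : ℂ)) _ z :=
    (((hτ (xs z.re)).hasDerivAt.comp z.re (hp.der z.re)).ofReal_comp).hasFDerivAt.comp z
      reCLM.hasFDerivAt
  have h3 : HasFDerivAt (fun z : ℂ => ((z.im : ℝ) : ℂ)) (ofRealCLM.comp imCLM) z :=
    ofRealCLM.hasFDerivAt.comp z imCLM.hasFDerivAt
  have h4 := h1.add ((h2.mul h3).mul_const I)
  refine (h4.congr_fderiv ?_)
  ext v
  simp
  ring

/-- the derivative of the parametrisation -/
private noncomputable def g05D (Φ : ℂ → ℂ) (τ xs : ℝ → ℝ) (z : ℂ) : ℂ →L[ℝ] ℂ :=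
  (((deriv Φ (cu τ xs z.re z.im)) • (ContinuousLinearMap.id ℂ ℂ)).restrictScalars ℝ).comp
    (reCLM.smulRight ((τ (xs z.re) : ℂ) * (1 + deriv τ (xs z.re) * z.im * I)) +
       imCLM.smulRight ((τ (xs z.re) : ℂ) * I))

private lemma g05_D_det (Φ : ℂ → ℂ) (τ xs : ℝ → ℝ) (z : ℂ) (hpos : 0 < τ (xs z.re)) :
    ENNReal.ofReal |(g05D Φ τ xs z).det| = ENNReal.ofReal (gD Φ τ xs z.re z.im) ^ 2 := by
  rw [← ENNReal.ofReal_pow (by unfold gD; positivity), g05_det]
  congr 1
  have h : (g05D Φ τ xs z 1).re * (g05D Φ τ xs z I).im -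
      (g05D Φ τ xs z I).re * (g05D Φ τ xs z 1).im = gD Φ τ xs z.re z.im ^ 2 := by
    unfold g05D gD
    rw [mul_pow, ← Complex.normSq_eq_norm_sq, Complex.normSq_apply]
    simp
    ring
  rw [h, abs_of_nonneg (sq_nonneg _)]

private lemma g05_fderiv {K : Set ℂ} {Φ ρ : ℂ → ℂ} (hK : Collar K Φ ρ) {c r S : ℝ}
    {τ xs : ℝ → ℝ} (hτ : Depth c r τ) (hp : Par τ xs S) {z : ℂ} (hz : 0 < z.im) :
    HasFDerivAt (fun z : ℂ => Φ (cu τ xs z.re z.im)) (g05D Φ τ xs z) z := by
  have hd : Differentiable ℝ τ := hτ.smooth.differentiable (by norm_num)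
  have hmem : cu τ xs z.re z.im ∈ UHP := by
    show 0 < (cu τ xs z.re z.im).im
    rw [(cu_im τ xs z.re z.im).1]
    exact mul_pos (hτ.pos _) hz
  have hopen : IsOpen UHP := isOpen_lt continuous_const Complex.continuous_im
  have h1 : HasDerivAt Φ (deriv Φ (cu τ xs z.re z.im)) (cu τ xs z.re z.im) :=
    ((hK.dPhi _ hmem).differentiableAt (hopen.mem_nhds hmem)).hasDerivAt
  have h2 := (h1.hasFDerivAt.restrictScalars ℝ).comp z (g05_cu_fderiv hp hd z)
  refine h2.congr_fderiv ?_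
  unfold g05D
  ext v
  simp
  ring

private lemma g05_injOn {K : Set ℂ} {Φ ρ : ℂ → ℂ} (hK : Collar K Φ ρ) {c r S : ℝ}
    {τ xs : ℝ → ℝ} (hτ : Depth c r τ) (hp : Par τ xs S) {a b : ℝ} (hb : b ≤ a + S) :
    InjOn (fun z : ℂ => Φ (cu τ xs z.re z.im)) {z | a < z.re ∧ z.re < b ∧ 0 < z.im ∧ z.im < 1} := by
  have hmem : ∀ z : ℂ, 0 < z.im → cu τ xs z.re z.im ∈ UHP := by
    intro z hz
    show 0 < (cu τ xs z.re z.im).im
    rw [(cu_im τ xs z.re z.im).1]
    exact mul_pos (hτ.pos _) hz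
  have hlt : ∀ s s' : ℝ, s' < s + S → xs s' < xs s + 2 * Real.pi := by
    intro s s' h
    rw [← hp.per]
    exact hp.mono h
  rintro z ⟨hz1, hz2, hz3, hz4⟩ w ⟨hw1, hw2, hw3, hw4⟩ h
  obtain ⟨n, hn⟩ := phi_inj hK (hmem z hz3) (hmem w hw3) h
  have hre := congrArg Complex.re hn
  have him := congrArg Complex.im hn
  have e1 : (n * (2 * (Real.pi : ℂ))).re = n * (2 * Real.pi) := by simp
  have e2 : (n * (2 * (Real.pi : ℂ))).im = 0 := by simp
  rw [Complex.add_re, e1, (cu_im _ _ _ _).2, (cu_im _ _ _ _).2] at hre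
  rw [Complex.add_im, e2, (cu_im _ _ _ _).1, (cu_im _ _ _ _).1, add_zero] at him
  have hpi := Real.pi_pos
  have h1 := hlt w.re z.re (by linarith)
  have h2 := hlt z.re w.re (by linarith)
  have hn0 : n = 0 := by
    have h3 : (n : ℝ) < 1 := by
      by_contra hc
      push Not at hc
      nlinarith
    have h4 : (-1 : ℝ) < n := by
      by_contra hc
      push Not at hc
      nlinarith
    have h5 : n < 1 := by exact_mod_cast h3
    have h6 : -1 < n := by exact_mod_cast h4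
    omega
  rw [hn0] at hre
  have hre' : z.re = w.re := hp.mono.injective (by simpa using hre)
  rw [hre'] at him
  exact Complex.ext hre' (mul_left_cancel₀ (hτ.pos _).ne' him)

theorem lintegral_cu {K : Set ℂ} {Φ ρ : ℂ → ℂ} (hK : Collar K Φ ρ) {c r S : ℝ} {τ xs : ℝ → ℝ}
    (hτ : Depth c r τ) (hp : Par τ xs S) {F : ℂ → ℝ≥0∞} (hF : Measurable F) {a b : ℝ}
    (hb : b ≤ a + S) :
    ∫⁻ s in Ioo a b, ∫⁻ ζ in Ioo (0 : ℝ) 1,
      F (Φ (cu τ xs s ζ)) * ENNReal.ofReal (gD Φ τ xs s ζ) ^ 2 =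
    ∫⁻ w in (fun z : ℂ => Φ (cu τ xs z.re z.im)) ''
      {z | a < z.re ∧ z.re < b ∧ 0 < z.im ∧ z.im < 1}, F w := by
  have hRm : MeasurableSet {z : ℂ | a < z.re ∧ z.re < b ∧ 0 < z.im ∧ z.im < 1} := by
    have h1 : MeasurableSet {z : ℂ | a < z.re} := measurableSet_lt measurable_const Complex.measurable_re
    have h2 : MeasurableSet {z : ℂ | z.re < b} := measurableSet_lt Complex.measurable_re measurable_const
    have h3 : MeasurableSet {z : ℂ | 0 < z.im} := measurableSet_lt measurable_const Complex.measurable_im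
    have h4 : MeasurableSet {z : ℂ | z.im < 1} := measurableSet_lt Complex.measurable_im measurable_const
    exact h1.inter (h2.inter (h3.inter h4))
  rw [lintegral_image_eq_lintegral_abs_det_fderiv_mul volume hRm
    (fun z hz => (g05_fderiv hK hτ hp hz.2.2.1).hasFDerivWithinAt) (g05_injOn hK hτ hp hb) F]
  have hRHS : ∫⁻ z in {z : ℂ | a < z.re ∧ z.re < b ∧ 0 < z.im ∧ z.im < 1},
      ENNReal.ofReal |(g05D Φ τ xs z).det| * F (Φ (cu τ xs z.re z.im)) =
      ∫⁻ z in measurableEquivRealProd ⁻¹' (Ioo a b ×ˢ Ioo (0 : ℝ) 1),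
        (fun q : ℝ × ℝ => F (Φ (cu τ xs q.1 q.2)) * ENNReal.ofReal (gD Φ τ xs q.1 q.2) ^ 2)
          (measurableEquivRealProd z) := by
    have hset : {z : ℂ | a < z.re ∧ z.re < b ∧ 0 < z.im ∧ z.im < 1} =
        measurableEquivRealProd ⁻¹' (Ioo a b ×ˢ Ioo (0 : ℝ) 1) := by
      ext z
      simp [measurableEquivRealProd_apply, and_assoc]
    rw [← hset]
    refine setLIntegral_congr_fun hRm (fun z hz => ?_)
    simp only [measurableEquivRealProd_apply]
    rw [g05_D_det Φ τ xs z (hτ.pos _), mul_comm]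
  rw [hRHS]
  have hcomp := volume_preserving_equiv_real_prod.setLIntegral_comp_preimage_emb
    measurableEquivRealProd.measurableEmbedding
    (fun q : ℝ × ℝ => F (Φ (cu τ xs q.1 q.2)) * ENNReal.ofReal (gD Φ τ xs q.1 q.2) ^ 2)
    (Ioo a b ×ˢ Ioo (0 : ℝ) 1)
  refine Eq.trans ?_ hcomp.symm
  have hmeas : AEMeasurable (fun q : ℝ × ℝ => F (Φ (cu τ xs q.1 q.2)) *
      ENNReal.ofReal (gD Φ τ xs q.1 q.2) ^ 2)
      (((volume : Measure ℝ).prod (volume : Measure ℝ)).restrict (Ioo a b ×ˢ Ioo (0 : ℝ) 1)) := by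
    have hd : Continuous τ := hτ.smooth.continuous
    have hxs : Continuous xs := continuous_iff_continuousAt.2 fun s => (hp.der s).continuousAt
    have hcu : Continuous (fun q : ℝ × ℝ => cu τ xs q.1 q.2) := by
      unfold cu
      fun_prop
    have hopen : IsOpen UHP := isOpen_lt continuous_const Complex.continuous_im
    have hmaps : MapsTo (fun q : ℝ × ℝ => cu τ xs q.1 q.2) (Ioo a b ×ˢ Ioo (0 : ℝ) 1) UHP := by
      rintro ⟨s, ζ⟩ ⟨_, hζ⟩
      show 0 < (cu τ xs s ζ).im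
      rw [(cu_im τ xs s ζ).1]
      exact mul_pos (hτ.pos _) hζ.1
    have hms : MeasurableSet (Ioo a b ×ˢ Ioo (0 : ℝ) 1) := measurableSet_Ioo.prod measurableSet_Ioo
    have h1 : ContinuousOn (fun q : ℝ × ℝ => Φ (cu τ xs q.1 q.2)) (Ioo a b ×ˢ Ioo (0 : ℝ) 1) :=
      hK.dPhi.continuousOn.comp hcu.continuousOn hmaps
    have h2 : ContinuousOn (fun q : ℝ × ℝ => gD Φ τ xs q.1 q.2) (Ioo a b ×ˢ Ioo (0 : ℝ) 1) := by
      unfold gD
      have hder : ContinuousOn (deriv Φ) UHP := (hK.dPhi.deriv hopen).continuousOn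
      have h3 := (hder.comp hcu.continuousOn hmaps).norm
      exact h3.mul ((hd.comp (hxs.comp continuous_fst)).continuousOn)
    exact (hF.comp_aemeasurable (h1.aemeasurable hms)).mul
      (((h2.aemeasurable hms).ennreal_ofReal).pow_const 2)
  rw [← setLIntegral_prod _ hmeas]
  rfl

/-- area: take `F = 1`; the image is contained in `Φ '' below τ` -/
theorem lintegral_gM {K : Set ℂ} {Φ ρ : ℂ → ℂ} (hK : Collar K Φ ρ) {c r S : ℝ} {τ xs : ℝ → ℝ}
    (hτ : Depth c r τ) (hp : Par τ xs S) (a : ℝ) :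
    ∫⁻ s in Ioo a (a + S), gM Φ τ xs s ≤ volume (Φ '' below τ) := by
  have h := lintegral_cu hK hτ hp (F := fun _ => 1) measurable_const (a := a) (b := a + S) le_rfl
  simp only [one_mul, lintegral_const, Measure.restrict_apply MeasurableSet.univ, univ_inter] at h
  unfold gM
  rw [h]
  apply measure_mono
  rintro _ ⟨z, ⟨_, _, hz3, hz4⟩, rfl⟩
  refine ⟨cu τ xs z.re z.im, ⟨?_, ?_⟩, rfl⟩
  · rw [(cu_im τ xs z.re z.im).1]
    exact mul_pos (hτ.pos _) hz3
  · rw [(cu_im τ xs z.re z.im).1, (cu_im τ xs z.re z.im).2]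
    exact mul_lt_of_lt_one_right (hτ.pos _) hz4

end CF6

end

section

/-! # G07a: one radius

`radius_bound` (one radius): `f ζ = log ‖Φ(cu s ζ) - k‖` on `(0,1]` (`k ∈ K`, so the norm is positive), `|f'| ≤ gD s ζ/‖Φ(cu s ζ) - k‖ =: g ζ` (derivative of `cu` in `ζ` is `τ I`). Hypothesis: `|f 1 - log w1| ≤ c1` and
`∫⁻ over {ζ : |f ζ - log w1| < N} of g² ≤ q`, `√q < N - c1`. Claim: `|f ζ - log w1| < N` for all `ζ ∈ (0,1]`, hence `M(s) = ∫ gD² ≤ (e^N w1)² q`. Proof: otherwise let `ζ2` be the largest `ζ ∈ (0,1]` with `|f ζ - log w1| ≥ N`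
(closed set below 1, `IsCompact.exists_isMaxOn` on `[ζ0,1]`); on `(ζ2,1]` we are inside the truncation and `N - c1 ≤ |f ζ2 - f 1| ≤ ∫_{ζ2}^1 g ≤ (∫ g²)^{1/2} ≤ √q`, contradiction.

`gD_good`: fix `s`, `δ`; `k ∈ K` nearest to `Φ(cu s 1)` (`IsClosed.exists_infDist_eq_dist`, ℂ proper), `w1 = ‖Φ(cu s 1) - k‖ = infDist ∈ [W s/C0, C0 W s]`. For `x ∈ (s, s+δ)`, `δ ≤ 1`: `‖Φ(cu x 1) - Φ(cu s 1)‖ ≤ gA x - gA s ≤ 2 max W ≤ 2 e^{20C0³} W s`
(`cu_dist`; `W x ≤ e^{20 C0³} W s` from `|W'| ≤ 20C0³ W`, Groenwall: `W s e^{-λ s}` is antitone), and `‖Φ(cu x 1) - k‖ ≥ infDist ≥ W x/C0 ≥ e^{-20C0³} W s/C0`. So `|f_x 1 - log w1| ≤ c1(C0)`. Let `N` with `N ≥ 2 c1`, `N ≥ 1000` and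
`m = e^{-N} w1`, `M' = e^N w1`: `lintegral_cu_log` over `(s,s+δ)`: `∫ (∫ g² over the truncation) dx ≤ 4 π N`; Chebyshev (`meas_ge_le_lintegral_div`): outside a set of measure `≤ 1/4 ≤ δ/2` we have `∫ g² ≤ q := 16 π N`, and `√(16πN) < N/2 ≤ N - c1` as `N ≥ 1000`.
(The width is allowed: `δ ≤ 1 ≤ S`.) For such `x`, `radius_bound` gives `M x ≤ e^{2N} w1² q ≤ C W(s)²`. The constant depends on `C0` only. -/

open Complex MeasureTheory Set Filter Topology Metric intervalIntegral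
open scoped ENNReal

namespace CF6

private lemma g07a_deriv {F F' : ℝ → ℂ} {k : ℂ} {ζ : ℝ} (hF : HasDerivAt F (F' ζ) ζ) (hk : F ζ ≠ k) :
    HasDerivAt (fun x => Real.log (‖F x - k‖ ^ 2) / 2) (inner ℝ (F ζ - k) (F' ζ) / ‖F ζ - k‖ ^ 2) ζ := by
  have h1 : HasDerivAt (fun x => F x - k) (F' ζ) ζ := hF.sub_const k
  have h2 := h1.norm_sq
  have h0 : ‖F ζ - k‖ ^ 2 ≠ 0 := by
    have : 0 < ‖F ζ - k‖ := norm_pos_iff.mpr (sub_ne_zero.mpr hk)
    positivity
  have h3 := (h2.log h0).div_const 2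
  refine h3.congr_deriv ?_
  ring

private lemma g07a_bound (z w : ℂ) : |inner ℝ z w / ‖z‖ ^ 2| ≤ ‖w‖ / ‖z‖ := by
  rcases eq_or_ne z 0 with h | h
  · simp [h]
  · have h0 : 0 < ‖z‖ := norm_pos_iff.mpr h
    rw [abs_div, abs_of_pos (show 0 < ‖z‖ ^ 2 by positivity), div_le_div_iff₀ (by positivity) h0]
    have h1 := abs_real_inner_le_norm z w
    calc |inner ℝ z w| * ‖z‖ ≤ (‖z‖ * ‖w‖) * ‖z‖ := mul_le_mul_of_nonneg_right h1 h0.le
      _ = ‖w‖ * ‖z‖ ^ 2 := by ring

private lemma g07a_iff {x w N : ℝ} (hx : 0 < x) (hw : 0 < w) :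
    |Real.log x - Real.log w| < N ↔ Real.exp (-N) * w < x ∧ x < Real.exp N * w := by
  rw [abs_lt]
  have e1 : Real.log (Real.exp (-N) * w) = -N + Real.log w := by
    rw [Real.log_mul (Real.exp_pos _).ne' hw.ne', Real.log_exp]
  have e2 : Real.log (Real.exp N * w) = N + Real.log w := by
    rw [Real.log_mul (Real.exp_pos _).ne' hw.ne', Real.log_exp]
  rw [← Real.log_lt_log_iff (by positivity) hx, ← Real.log_lt_log_iff hx (by positivity), e1, e2]
  constructor
  · rintro ⟨h1, h2⟩; constructor <;> linarith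
  · rintro ⟨h1, h2⟩; constructor <;> linarith

/-- abstract one radius estimate: `F` is the radius, `F'` its derivative -/
theorem radius_bound {F F' : ℝ → ℂ} {k : ℂ} {w1 c1 N q : ℝ} (hw : 0 < w1) (hq : 0 ≤ q)
    (hF : ∀ ζ : ℝ, 0 < ζ → ζ ≤ 1 → HasDerivAt F (F' ζ) ζ) (hF' : ContinuousOn F' (Ioc 0 1))
    (hk : ∀ ζ : ℝ, 0 < ζ → ζ ≤ 1 → F ζ ≠ k)
    (h1 : |Real.log ‖F 1 - k‖ - Real.log w1| ≤ c1) (hN : Real.sqrt q < N - c1)
    (hint : ∫⁻ ζ in Ioo (0 : ℝ) 1, indicator {ζ : ℝ | Real.exp (-N) * w1 < ‖F ζ - k‖ ∧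
      ‖F ζ - k‖ < Real.exp N * w1} (fun ζ => ENNReal.ofReal ((‖F' ζ‖ / ‖F ζ - k‖) ^ 2)) ζ ≤
      ENNReal.ofReal q) :
    (∀ ζ : ℝ, 0 < ζ → ζ ≤ 1 → Real.exp (-N) * w1 < ‖F ζ - k‖ ∧ ‖F ζ - k‖ < Real.exp N * w1) ∧
    ∫⁻ ζ in Ioo (0 : ℝ) 1, ENNReal.ofReal ‖F' ζ‖ ^ 2 ≤
      ENNReal.ofReal ((Real.exp N * w1) ^ 2 * q) := by
  have hpos : ∀ ζ : ℝ, 0 < ζ → ζ ≤ 1 → 0 < ‖F ζ - k‖ := fun ζ h0 h1' =>
    norm_pos_iff.mpr (sub_ne_zero.mpr (hk ζ h0 h1'))
  set f : ℝ → ℝ := fun x => Real.log (‖F x - k‖ ^ 2) / 2 with hf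
  have hfe : ∀ ζ, f ζ = Real.log ‖F ζ - k‖ := by
    intro ζ; rw [hf]; simp only []; rw [Real.log_pow]; push_cast; ring
  set df : ℝ → ℝ := fun ζ => inner ℝ (F ζ - k) (F' ζ) / ‖F ζ - k‖ ^ 2 with hdf
  set g : ℝ → ℝ := fun ζ => ‖F' ζ‖ / ‖F ζ - k‖ with hg
  have hfd : ∀ ζ : ℝ, 0 < ζ → ζ ≤ 1 → HasDerivAt f (df ζ) ζ := fun ζ h0 h1' =>
    g07a_deriv (hF ζ h0 h1') (hk ζ h0 h1')
  have hdg : ∀ ζ, |df ζ| ≤ g ζ := fun ζ => g07a_bound _ _
  have hFc : ContinuousOn F (Ioc 0 1) := fun ζ hζ => (hF ζ hζ.1 hζ.2).continuousAt.continuousWithinAt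
  have hDc : ContinuousOn (fun ζ => F ζ - k) (Ioc 0 1) := hFc.sub continuousOn_const
  have hdfc : ContinuousOn df (Ioc 0 1) := by
    apply ContinuousOn.div (hDc.inner hF') (hDc.norm.pow 2)
    intro ζ hζ
    exact pow_ne_zero 2 (hpos ζ hζ.1 hζ.2).ne'
  have hgc : ContinuousOn g (Ioc 0 1) := by
    apply ContinuousOn.div hF'.norm hDc.norm
    intro ζ hζ
    exact (hpos ζ hζ.1 hζ.2).ne'
  have hs0 : 0 ≤ Real.sqrt q := Real.sqrt_nonneg q
  have hfN : ∀ ζ : ℝ, 0 < ζ → ζ ≤ 1 → |f ζ - Real.log w1| < N := by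
    by_contra hcon
    push Not at hcon
    obtain ⟨ζ0, h00, h01, hN0⟩ := hcon
    have hsub : Icc ζ0 1 ⊆ Ioc 0 1 := fun x hx => ⟨lt_of_lt_of_le h00 hx.1, hx.2⟩
    have hfc : ContinuousOn (fun ζ => |f ζ - Real.log w1|) (Icc ζ0 1) := by
      intro ζ hζ
      exact (((hfd ζ (hsub hζ).1 (hsub hζ).2).continuousAt.sub continuousAt_const).abs).continuousWithinAt
    have hZcl : IsClosed (Icc ζ0 1 ∩ (fun ζ => |f ζ - Real.log w1|) ⁻¹' Ici N) :=
      hfc.preimage_isClosed_of_isClosed isClosed_Icc isClosed_Ici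
    have hZc : IsCompact (Icc ζ0 1 ∩ (fun ζ => |f ζ - Real.log w1|) ⁻¹' Ici N) :=
      isCompact_Icc.of_isClosed_subset hZcl inter_subset_left
    obtain ⟨ζ2, hζ2, hmax⟩ := hZc.exists_isGreatest ⟨ζ0, ⟨le_refl _, h01⟩, hN0⟩
    have h20 : 0 < ζ2 := (hsub hζ2.1).1
    have h21 : ζ2 ≤ 1 := hζ2.1.2
    have h2N : N ≤ |f ζ2 - Real.log w1| := hζ2.2
    have hin : ∀ ζ, ζ2 < ζ → ζ ≤ 1 → |f ζ - Real.log w1| < N := by
      intro ζ ha hb
      by_contra hc
      push Not at hc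
      have := hmax (show ζ ∈ Icc ζ0 1 ∩ (fun ζ => |f ζ - Real.log w1|) ⁻¹' Ici N from
        ⟨⟨hζ2.1.1.trans ha.le, hb⟩, hc⟩)
      linarith
    have hsub2 : Icc ζ2 1 ⊆ Ioc 0 1 := fun x hx => ⟨lt_of_lt_of_le h20 hx.1, hx.2⟩
    have hdi : IntervalIntegrable df volume ζ2 1 := by
      apply ContinuousOn.intervalIntegrable
      rw [uIcc_of_le h21]
      exact hdfc.mono hsub2
    have hgi : IntervalIntegrable (fun ζ => g ζ ^ 2) volume ζ2 1 := by
      apply ContinuousOn.intervalIntegrable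
      rw [uIcc_of_le h21]
      exact (hgc.mono hsub2).pow 2
    have hFTC : ∫ ζ in ζ2..1, df ζ = f 1 - f ζ2 := by
      apply intervalIntegral.integral_eq_sub_of_hasDerivAt _ hdi
      intro x hx
      rw [uIcc_of_le h21] at hx
      exact hfd x (hsub2 hx).1 (hsub2 hx).2
    have hg2 : ∫ ζ in ζ2..1, g ζ ^ 2 ≤ q := by
      rw [intervalIntegral.integral_of_le h21]
      have hgi' : IntegrableOn (fun ζ => g ζ ^ 2) (Ioc ζ2 1) :=
        (intervalIntegrable_iff_integrableOn_Ioc_of_le h21).mp hgi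
      rw [← ENNReal.ofReal_le_ofReal_iff hq]
      rw [ofReal_integral_eq_lintegral_ofReal hgi' (Filter.Eventually.of_forall fun x => sq_nonneg _)]
      refine le_trans ?_ hint
      rw [← restrict_Ioo_eq_restrict_Ioc]
      calc ∫⁻ ζ in Ioo ζ2 1, ENNReal.ofReal (g ζ ^ 2)
          = ∫⁻ ζ in Ioo ζ2 1, indicator {ζ : ℝ | Real.exp (-N) * w1 < ‖F ζ - k‖ ∧
              ‖F ζ - k‖ < Real.exp N * w1} (fun ζ => ENNReal.ofReal ((‖F' ζ‖ / ‖F ζ - k‖) ^ 2)) ζ := by
            apply setLIntegral_congr_fun measurableSet_Ioo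
            intro ζ hζ
            have h3 := hin ζ hζ.1 hζ.2.le
            rw [hfe, g07a_iff (hpos ζ (h20.trans hζ.1) hζ.2.le) hw] at h3
            exact (indicator_of_mem (show ζ ∈ {ζ : ℝ | Real.exp (-N) * w1 < ‖F ζ - k‖ ∧
              ‖F ζ - k‖ < Real.exp N * w1} from h3)
              (fun ζ => ENNReal.ofReal ((‖F' ζ‖ / ‖F ζ - k‖) ^ 2))).symm
        _ ≤ _ := lintegral_mono_set (Ioo_subset_Ioo_left h20.le)
    set l : ℝ := (Real.sqrt q + (N - c1)) / 2 with hl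
    have hl1 : Real.sqrt q < l := by rw [hl]; linarith
    have hl2 : l < N - c1 := by rw [hl]; linarith
    have hl0 : 0 < l := by linarith
    have hql : q ≤ l ^ 2 := by
      have := Real.sq_sqrt hq
      nlinarith
    have hI : |∫ ζ in ζ2..1, df ζ| ≤ l := by
      calc |∫ ζ in ζ2..1, df ζ| ≤ ∫ ζ in ζ2..1, |df ζ| := intervalIntegral.abs_integral_le_integral_abs h21
        _ ≤ ∫ ζ in ζ2..1, (g ζ ^ 2 * (1 / (2 * l)) + l / 2) := by
            apply intervalIntegral.integral_mono_on h21 hdi.abs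
              ((hgi.mul_const _).add intervalIntegrable_const)
            intro ζ _
            refine (hdg ζ).trans ?_
            have h4 : g ζ ^ 2 * (1 / (2 * l)) + l / 2 - g ζ = (g ζ - l) ^ 2 / (2 * l) := by
              field_simp; ring
            have h5 : 0 ≤ (g ζ - l) ^ 2 / (2 * l) := by positivity
            linarith
        _ = (∫ ζ in ζ2..1, g ζ ^ 2) * (1 / (2 * l)) + (1 - ζ2) * (l / 2) := by
            rw [intervalIntegral.integral_add (hgi.mul_const _) intervalIntegrable_const,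
              intervalIntegral.integral_mul_const, intervalIntegral.integral_const, smul_eq_mul]
        _ ≤ l ^ 2 * (1 / (2 * l)) + 1 * (l / 2) := by
            apply add_le_add
            · exact mul_le_mul_of_nonneg_right (hg2.trans hql) (by positivity)
            · exact mul_le_mul_of_nonneg_right (by linarith) (by positivity)
        _ = l := by field_simp; ring
    rw [hFTC] at hI
    have h6 : |f 1 - Real.log w1| ≤ c1 := by rw [hfe]; exact h1
    have h7 : |f ζ2 - Real.log w1| ≤ |f 1 - Real.log w1| + |f 1 - f ζ2| := by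
      have h8 : f ζ2 - Real.log w1 = (f 1 - Real.log w1) - (f 1 - f ζ2) := by ring
      rw [h8]
      exact abs_sub _ _
    linarith
  have hA : ∀ ζ : ℝ, 0 < ζ → ζ ≤ 1 → Real.exp (-N) * w1 < ‖F ζ - k‖ ∧ ‖F ζ - k‖ < Real.exp N * w1 := by
    intro ζ h0 h1'
    have h3 := hfN ζ h0 h1'
    rwa [hfe, g07a_iff (hpos ζ h0 h1') hw] at h3
  refine ⟨hA, ?_⟩
  calc ∫⁻ ζ in Ioo (0 : ℝ) 1, ENNReal.ofReal ‖F' ζ‖ ^ 2
      ≤ ∫⁻ ζ in Ioo (0 : ℝ) 1, ENNReal.ofReal ((Real.exp N * w1) ^ 2) *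
          indicator {ζ : ℝ | Real.exp (-N) * w1 < ‖F ζ - k‖ ∧
            ‖F ζ - k‖ < Real.exp N * w1} (fun ζ => ENNReal.ofReal ((‖F' ζ‖ / ‖F ζ - k‖) ^ 2)) ζ := by
        apply setLIntegral_mono' measurableSet_Ioo
        intro ζ hζ
        have h3 := hA ζ hζ.1 hζ.2.le
        rw [indicator_of_mem (show ζ ∈ {ζ : ℝ | Real.exp (-N) * w1 < ‖F ζ - k‖ ∧
              ‖F ζ - k‖ < Real.exp N * w1} from h3), ← ENNReal.ofReal_mul (by positivity),
          ← ENNReal.ofReal_pow (norm_nonneg _)]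
        apply ENNReal.ofReal_le_ofReal
        have h4 := hpos ζ hζ.1 hζ.2.le
        have h5 : ‖F' ζ‖ ^ 2 = ‖F ζ - k‖ ^ 2 * (‖F' ζ‖ / ‖F ζ - k‖) ^ 2 := by
          field_simp
        rw [h5]
        apply mul_le_mul_of_nonneg_right _ (by positivity)
        exact pow_le_pow_left₀ h4.le h3.2.le 2
    _ = ENNReal.ofReal ((Real.exp N * w1) ^ 2) * ∫⁻ ζ in Ioo (0 : ℝ) 1,
          indicator {ζ : ℝ | Real.exp (-N) * w1 < ‖F ζ - k‖ ∧
            ‖F ζ - k‖ < Real.exp N * w1} (fun ζ => ENNReal.ofReal ((‖F' ζ‖ / ‖F ζ - k‖) ^ 2)) ζ :=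
        lintegral_const_mul' _ _ ENNReal.ofReal_ne_top
    _ ≤ ENNReal.ofReal ((Real.exp N * w1) ^ 2) * ENNReal.ofReal q := by gcongr
    _ = ENNReal.ofReal ((Real.exp N * w1) ^ 2 * q) := (ENNReal.ofReal_mul (by positivity)).symm

end CF6

end

section

/-! # G10: inverse of a function with given density

`Th s := θ0 + ∫ x in s0..s, n x`. `n` is bounded and measurable so interval integrable; `a (s'-s) ≤ Th s' - Th s ≤ b (s'-s)` for `s ≤ s'`: continuous, strictly increasing, surjective. `Sh` = inverse, Lipschitz with constant `1/a`, strictly increasing.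
`Th (s+P) = Th s + Q` by `hP`, hence the quasi-periodicity of `Sh`.
Change of variables: the measures `μ1 E = ∫⁻ θ in Ioo (Th p) (Th q), 1_E (Sh θ)` (push forward of restricted Lebesgue measure by `Sh`) and `μ2 = (volume.restrict (Ioo p q)).withDensity (ofReal n)` agree on all intervals `Ioc c d`
(both give `Th d' - Th c'` with `c' = max c p`, `d' = min d q`; `ofReal_integral_eq_lintegral_ofReal`), hence are equal (`MeasureTheory.Measure.ext_of_Ioc` for locally finite / finite measures). Then `lintegral_map`, `lintegral_withDensity_eq_lintegral_mul`. -/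

open Complex MeasureTheory Set Filter Topology Metric intervalIntegral
open scoped ENNReal

namespace CF6

private lemma g10_int {n : ℝ → ℝ} (hn : Measurable n) {a b : ℝ} (hab : ∀ s, a ≤ n s ∧ n s ≤ b) (p q : ℝ) :
    IntervalIntegrable n volume p q := by
  apply IntervalIntegrable.mono_fun (g := n) (f := fun _ : ℝ => |a| + |b|) intervalIntegrable_const
    hn.aestronglyMeasurable
  refine Filter.Eventually.of_forall fun x => ?_
  show |n x| ≤ |(|a| + |b|)|
  rw [abs_of_nonneg (show 0 ≤ |a| + |b| by positivity), abs_le]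
  have h1 := neg_abs_le a
  have h2 := le_abs_self b
  have h3 := abs_nonneg a
  have h4 := abs_nonneg b
  constructor <;> linarith [(hab x).1, (hab x).2]

private lemma g10_bd {n : ℝ → ℝ} (hn : Measurable n) {a b : ℝ} (hab : ∀ s, a ≤ n s ∧ n s ≤ b) {p q : ℝ}
    (hpq : p ≤ q) : a * (q - p) ≤ ∫ x in p..q, n x ∧ ∫ x in p..q, n x ≤ b * (q - p) := by
  have h := g10_int hn hab p q
  constructor
  · have h1 := intervalIntegral.integral_mono_on hpq (intervalIntegrable_const (c := a)) h (fun x _ => (hab x).1)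
    rw [intervalIntegral.integral_const, smul_eq_mul] at h1
    linarith
  · have h1 := intervalIntegral.integral_mono_on hpq h (intervalIntegrable_const (c := b)) (fun x _ => (hab x).2)
    rw [intervalIntegral.integral_const, smul_eq_mul] at h1
    linarith

theorem exists_inverse_density {n : ℝ → ℝ} (hn : Measurable n) {a b P Q : ℝ} (ha : 0 < a)
    (hab : ∀ s, a ≤ n s ∧ n s ≤ b) (hP0 : 0 < P) (hP : ∀ s, ∫ x in s..(s + P), n x = Q)
    (s0 θ0 : ℝ) :
    ∃ Sh : ℝ → ℝ, StrictMono Sh ∧ (∃ K : NNReal, LipschitzWith K Sh) ∧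
      (∀ θ, Sh (θ + Q) = Sh θ + P) ∧
      (∀ s, Sh (θ0 + ∫ x in s0..s, n x) = s) ∧ (∀ θ, θ0 + ∫ x in s0..(Sh θ), n x = θ) ∧
      ∀ F : ℝ → ℝ≥0∞, Measurable F → ∀ p q : ℝ, p ≤ q →
        ∫⁻ θ in Ioo (θ0 + ∫ x in s0..p, n x) (θ0 + ∫ x in s0..q, n x), F (Sh θ) =
          ∫⁻ s in Ioo p q, F s * ENNReal.ofReal (n s) := by
  set Th : ℝ → ℝ := fun s => θ0 + ∫ x in s0..s, n x with hTh
  have hint := g10_int hn hab
  have hsub : ∀ p q, Th q - Th p = ∫ x in p..q, n x := by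
    intro p q
    have := intervalIntegral.integral_add_adjacent_intervals (hint s0 p) (hint p q)
    rw [hTh]; simp only []; linarith
  have hlo : ∀ p q, p ≤ q → a * (q - p) ≤ Th q - Th p := fun p q h => by
    rw [hsub]; exact (g10_bd hn hab h).1
  have hhi : ∀ p q, p ≤ q → Th q - Th p ≤ b * (q - p) := fun p q h => by
    rw [hsub]; exact (g10_bd hn hab h).2
  have hb : 0 < b := lt_of_lt_of_le ha ((hab 0).1.trans (hab 0).2)
  have hmono : StrictMono Th := by
    intro p q h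
    have := hlo p q h.le
    have : 0 < a * (q - p) := mul_pos ha (by linarith)
    linarith
  have hcont : Continuous Th := by
    have : LipschitzWith (Real.toNNReal b) Th := by
      apply LipschitzWith.of_dist_le_mul
      intro x y
      rw [Real.coe_toNNReal b hb.le, Real.dist_eq, Real.dist_eq]
      rcases le_total x y with h | h
      · rw [abs_sub_comm, abs_sub_comm x y, abs_of_nonneg (sub_nonneg.mpr (hmono.monotone h)),
          abs_of_nonneg (sub_nonneg.mpr h)]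
        exact hhi x y h
      · rw [abs_of_nonneg (sub_nonneg.mpr (hmono.monotone h)), abs_of_nonneg (sub_nonneg.mpr h)]
        exact hhi y x h
    exact this.continuous
  have htop : Tendsto Th atTop atTop := by
    have h1 : Tendsto (fun s : ℝ => Th 0 + a * s) atTop atTop :=
      tendsto_atTop_add_const_left _ _ (tendsto_id.const_mul_atTop ha)
    apply tendsto_atTop_mono' _ _ h1
    filter_upwards [eventually_ge_atTop (0 : ℝ)] with s hs
    have := hlo 0 s hs
    linarith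
  have hbot : Tendsto Th atBot atBot := by
    have h1 : Tendsto (fun s : ℝ => Th 0 + a * s) atBot atBot :=
      tendsto_atBot_add_const_left _ _ (tendsto_id.const_mul_atBot ha)
    apply tendsto_atBot_mono' _ _ h1
    filter_upwards [eventually_le_atBot (0 : ℝ)] with s hs
    have := hlo s 0 hs
    linarith
  have hsurj : Function.Surjective Th := hcont.surjective htop hbot
  set e : ℝ ≃o ℝ := hmono.orderIsoOfSurjective Th hsurj with he
  set Sh : ℝ → ℝ := fun θ => e.symm θ with hSh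
  have he1 : ∀ s, e s = Th s := fun s => rfl
  have hST : ∀ s, Sh (Th s) = s := fun s => by
    rw [hSh]; simp only []; rw [← he1]; exact e.symm_apply_apply s
  have hTS : ∀ θ, Th (Sh θ) = θ := fun θ => by
    rw [← he1]; exact e.apply_symm_apply θ
  have hShm : StrictMono Sh := e.symm.strictMono
  have hShL : LipschitzWith (Real.toNNReal (1 / a)) Sh := by
    apply LipschitzWith.of_dist_le_mul
    have key : ∀ x y, x ≤ y → Sh y - Sh x ≤ 1 / a * (y - x) := by
      intro x y h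
      have h1 := hlo (Sh x) (Sh y) (hShm.monotone h)
      rw [hTS, hTS] at h1
      rw [one_div, inv_mul_eq_div, le_div_iff₀ ha]
      linarith
    intro x y
    rw [Real.coe_toNNReal _ (by positivity), Real.dist_eq, Real.dist_eq]
    rcases le_total x y with h | h
    · rw [abs_sub_comm, abs_sub_comm x y, abs_of_nonneg (sub_nonneg.mpr (hShm.monotone h)),
        abs_of_nonneg (sub_nonneg.mpr h)]
      exact key x y h
    · rw [abs_of_nonneg (sub_nonneg.mpr (hShm.monotone h)), abs_of_nonneg (sub_nonneg.mpr h)]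
      exact key y x h
  have hper : ∀ θ, Sh (θ + Q) = Sh θ + P := by
    intro θ
    apply hmono.injective
    rw [hTS]
    have h1 := hsub (Sh θ) (Sh θ + P)
    rw [hP, hTS] at h1
    linarith
  refine ⟨Sh, hShm, ⟨_, hShL⟩, hper, hST, hTS, ?_⟩
  have hShmeas : Measurable Sh := hShL.continuous.measurable
  have hpre : ∀ c d, Sh ⁻¹' Ioc c d = Ioc (Th c) (Th d) := by
    intro c d
    ext θ
    rw [mem_preimage, mem_Ioc, mem_Ioc]
    constructor
    · rintro ⟨h1, h2⟩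
      have h3 := hmono h1
      have h4 := hmono.monotone h2
      rw [hTS] at h3 h4
      exact ⟨h3, h4⟩
    · rintro ⟨h1, h2⟩
      rw [← hTS θ] at h1 h2
      exact ⟨hmono.lt_iff_lt.mp h1, hmono.le_iff_le.mp h2⟩
  have hμ : Measure.map Sh volume = (volume : Measure ℝ).withDensity (fun s => ENNReal.ofReal (n s)) := by
    have h1 : ∀ c d, c < d → (Measure.map Sh volume) (Ioc c d) = ENNReal.ofReal (Th d - Th c) := by
      intro c d _
      rw [Measure.map_apply hShmeas measurableSet_Ioc, hpre, Real.volume_Ioc]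
    apply Measure.ext_of_Ioc'
    · intro c d h
      rw [h1 c d h]
      exact ENNReal.ofReal_ne_top
    · intro c d h
      rw [h1 c d h, withDensity_apply _ measurableSet_Ioc, hsub c d, intervalIntegral.integral_of_le h.le]
      apply ofReal_integral_eq_lintegral_ofReal
      · exact (intervalIntegrable_iff_integrableOn_Ioc_of_le h.le).mp (hint c d)
      · exact Filter.Eventually.of_forall fun x => (ha.le.trans (hab x).1)
  intro F hF p q hpq
  have hset : ∀ θ, (Ioo (Th p) (Th q)).indicator (fun θ => F (Sh θ)) θ = (Ioo p q).indicator F (Sh θ) := by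
    intro θ
    have : θ ∈ Ioo (Th p) (Th q) ↔ Sh θ ∈ Ioo p q := by
      rw [mem_Ioo, mem_Ioo, ← hmono.lt_iff_lt (a := p), ← hmono.lt_iff_lt (b := q), hTS]
    by_cases h : θ ∈ Ioo (Th p) (Th q)
    · rw [indicator_of_mem h, indicator_of_mem (this.mp h)]
    · rw [indicator_of_notMem h, indicator_of_notMem (fun h' => h (this.mpr h'))]
  show ∫⁻ θ in Ioo (Th p) (Th q), F (Sh θ) = _
  rw [← lintegral_indicator measurableSet_Ioo]
  simp_rw [hset]
  have hFi : Measurable ((Ioo p q).indicator F) := hF.indicator measurableSet_Ioo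
  rw [← lintegral_map hFi hShmeas, hμ, lintegral_withDensity_eq_lintegral_mul _ hn.ennreal_ofReal hFi,
    ← lintegral_indicator measurableSet_Ioo]
  apply lintegral_congr
  intro s
  by_cases h : s ∈ Ioo p q
  · simp only [Pi.mul_apply]
    rw [indicator_of_mem h, indicator_of_mem h, mul_comm]
  · simp only [Pi.mul_apply]
    rw [indicator_of_notMem h, indicator_of_notMem h, mul_zero]

end CF6

end

section

/-! # G11a: Harnack along intervals

`harnack_int`: `B q - B p = ∫_p^q v`, `v = deriv B` continuous. If `q - p ≤ T`: `v/16 ≤ v θ ≤ 16 v` for all pairs of points in `[p,q]`. If `T ≤ q - p`: an interval of length `T` inside `[p,q]` containing `θ` (`[θ,θ+T]` or `[θ-T,θ]` or in general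
`[max p (q-T) ...]`; take `J = [c, c+T] ⊆ [p,q]` with `θ ∈ J`), all its points are within `T` of `θ`, and `∫_J v ≤ B q - B p`.
`W_compare`: `|W'| ≤ C W`, so `e^{-C s} W` is antitone and `e^{C s} W` is monotone: `W s' ≤ e^{C |s-s'|} W s`.
`S0_facts`: `A` strictly increasing (`deriv A ≥ W > 0`), `A (S0 θ) = B θ`. `S0` is strictly increasing, continuous, `S0 (θ+2π) = S0 θ + S`, surjective, `HasDerivAt S0 (v θ / deriv A (S0 θ)) θ` (inverse function `Ai` of `A`: row statement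
`Ai_facts`; `S0 = Ai ∘ B`).
`arc_compare` (`ℓ = q-p`, `h = min ℓ σ`, `ΔA = B q - B p = A (S0 q) - A (S0 p)`, by `W_compare` and `W ≤ A' ≤ 2W`: `ΔA ∈ [e^{-C}/2, 2 e^C] W(S0 θ)` for every `θ ∈ [p,q]`, since `S0 θ ∈ [S0 p, S0 p + δ]`, `1/2 ≤ δ ≤ 1`).
 (ii) `v θ ≤ 16 ΔA/min(ℓ,T)` by `harnack_int`, `min(ℓ,T) ≥ min(ℓ,σ) = h`, so `v/W ≤ 32 e^C/h`; `1/σ ≤ 1/h`.
 (i) `1/h = max(1/ℓ,1/σ)`; if `ℓ ≤ T`: `1/ℓ ≤ 16 v θ/ΔA ≤ 32 e^C v θ/W`; if `ℓ > T ≥ σ`: `1/ℓ ≤ 1/σ`. -/

open Complex MeasureTheory Set Filter Topology Metric intervalIntegral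
open scoped ENNReal

namespace CF6

theorem harnack_int {T σ L : ℝ} {B : ℝ → ℝ} (hB : Lay T σ L B) {p q θ : ℝ} (hpq : p < q)
    (hθ : θ ∈ Icc p q) :
    deriv B θ ≤ 16 * (B q - B p) / min (q - p) T ∧
      (q - p ≤ T → (B q - B p) / (q - p) ≤ 16 * deriv B θ) := by
  have hT : 0 < T := by linarith [hB.σ0, hB.σT]
  have hd : Differentiable ℝ B := hB.B1.differentiable one_ne_zero
  have hBm : StrictMono B := strictMono_of_deriv_pos hB.pos
  obtain ⟨hθ1, hθ2⟩ := hθ
  constructor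
  · set m : ℝ := min (q - p) T with hm
    have hm0 : 0 < m := lt_min (by linarith) hT
    have hm1 : m ≤ q - p := min_le_left _ _
    have hm2 : m ≤ T := min_le_right _ _
    set c : ℝ := min θ (q - m) with hc
    have hc1 : c ≤ θ := min_le_left _ _
    have hc2 : c ≤ q - m := min_le_right _ _
    have hc3 : p ≤ c := le_min hθ1 (by linarith)
    have hc4 : θ ≤ c + m := by
      rcases min_choice θ (q - m) with h | h
      · rw [hc, h]; linarith
      · rw [hc, h]; linarith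
    obtain ⟨x, hx, hx2⟩ := exists_deriv_eq_slope B (show c < c + m by linarith)
      hd.continuous.continuousOn hd.differentiableOn
    have h1 : deriv B θ ≤ 16 * deriv B x := by
      apply hB.harn
      rw [abs_le]
      constructor <;> linarith [hx.1, hx.2]
    have h2 : B (c + m) - B c ≤ B q - B p := by
      have h3 : B (c + m) ≤ B q := hBm.monotone (by linarith)
      have h4 : B p ≤ B c := hBm.monotone hc3
      linarith
    rw [add_sub_cancel_left] at hx2
    rw [le_div_iff₀ hm0]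
    have h3 : deriv B x * m = B (c + m) - B c := by
      rw [hx2]; field_simp
    nlinarith [mul_le_mul_of_nonneg_right h1 hm0.le]
  · intro hT2
    obtain ⟨x, hx, hx2⟩ := exists_deriv_eq_slope B hpq hd.continuous.continuousOn
      hd.differentiableOn
    rw [← hx2]
    apply hB.harn
    rw [abs_le]
    constructor <;> linarith [hx.1, hx.2]

theorem W_compare {C S L : ℝ} {W A : ℝ → ℝ} {M : ℝ → ℝ≥0∞} (h : Tgt C S L W A M) (s s' : ℝ) :
    W s' ≤ Real.exp (C * |s' - s|) * W s := by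
  have hd : ∀ x, HasDerivAt (fun s => Real.log (W s)) (deriv W x / W x) x := fun x =>
    (h.Wdiff x).hasDerivAt.log (h.Wpos x).ne'
  have hb : ∀ x, ‖deriv W x / W x‖ ≤ C := by
    intro x
    rw [Real.norm_eq_abs, abs_div, abs_of_pos (h.Wpos x), div_le_iff₀ (h.Wpos x)]
    exact h.Wder x
  have h1 : ‖Real.log (W s') - Real.log (W s)‖ ≤ C * ‖s' - s‖ :=
    Convex.norm_image_sub_le_of_norm_hasDerivWithin_le (s := univ)
      (fun x _ => (hd x).hasDerivWithinAt) (fun x _ => hb x) convex_univ (mem_univ _) (mem_univ _)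
  rw [Real.norm_eq_abs, Real.norm_eq_abs] at h1
  have h2 : Real.log (W s') ≤ C * |s' - s| + Real.log (W s) := by
    linarith [(abs_le.mp h1).2]
  calc W s' = Real.exp (Real.log (W s')) := (Real.exp_log (h.Wpos s')).symm
    _ ≤ Real.exp (C * |s' - s| + Real.log (W s)) := Real.exp_le_exp.mpr h2
    _ = _ := by rw [Real.exp_add, Real.exp_log (h.Wpos s)]

end CF6

end

section

/-! # G11b: inverse of the arc length, S0

`harnack_int`: `B q - B p = ∫_p^q v`, `v = deriv B` continuous. If `q - p ≤ T`: `v/16 ≤ v θ ≤ 16 v` for all pairs of points in `[p,q]`. If `T ≤ q - p`: an interval of length `T` inside `[p,q]` containing `θ` (`[θ,θ+T]` or `[θ-T,θ]` or in general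
`[max p (q-T) ...]`; take `J = [c, c+T] ⊆ [p,q]` with `θ ∈ J`), all its points are within `T` of `θ`, and `∫_J v ≤ B q - B p`.
`W_compare`: `|W'| ≤ C W`, so `e^{-C s} W` is antitone and `e^{C s} W` is monotone: `W s' ≤ e^{C |s-s'|} W s`.
`S0_facts`: `A` strictly increasing (`deriv A ≥ W > 0`), `A (S0 θ) = B θ`. `S0` is strictly increasing, continuous, `S0 (θ+2π) = S0 θ + S`, surjective, `HasDerivAt S0 (v θ / deriv A (S0 θ)) θ` (inverse function `Ai` of `A`: row statement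
`Ai_facts`; `S0 = Ai ∘ B`).
`arc_compare` (`ℓ = q-p`, `h = min ℓ σ`, `ΔA = B q - B p = A (S0 q) - A (S0 p)`, by `W_compare` and `W ≤ A' ≤ 2W`: `ΔA ∈ [e^{-C}/2, 2 e^C] W(S0 θ)` for every `θ ∈ [p,q]`, since `S0 θ ∈ [S0 p, S0 p + δ]`, `1/2 ≤ δ ≤ 1`).
 (ii) `v θ ≤ 16 ΔA/min(ℓ,T)` by `harnack_int`, `min(ℓ,T) ≥ min(ℓ,σ) = h`, so `v/W ≤ 32 e^C/h`; `1/σ ≤ 1/h`.
 (i) `1/h = max(1/ℓ,1/σ)`; if `ℓ ≤ T`: `1/ℓ ≤ 16 v θ/ΔA ≤ 32 e^C v θ/W`; if `ℓ > T ≥ σ`: `1/ℓ ≤ 1/σ`. -/

open Complex MeasureTheory Set Filter Topology Metric intervalIntegral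
open scoped ENNReal

namespace CF6

/-- a continuous quasi-periodic function is surjective -/
theorem g11b_surj {f : ℝ → ℝ} {P L : ℝ} (hf : Continuous f) (hL : 0 < L) (hper : ∀ x, f (x + P) = f x + L) :
    Function.Surjective f := by
  have h1 : ∀ n : ℕ, f (n * P) = f 0 + n * L := by
    intro n
    induction n with
    | zero => simp
    | succ n ih =>
      have := hper (n * P)
      push_cast
      rw [show ((n : ℝ) + 1) * P = n * P + P by ring, this, ih]
      ring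
  have h2 : ∀ n : ℕ, f (-(n * P)) = f 0 - n * L := by
    intro n
    induction n with
    | zero => simp
    | succ n ih =>
      have := hper (-(((n : ℝ) + 1) * P))
      push_cast
      rw [show -(((n : ℝ) + 1) * P) + P = -(n * P) by ring, ih] at this
      linarith
  intro y
  obtain ⟨n, hn⟩ := exists_nat_ge ((y - f 0) / L)
  obtain ⟨m, hm⟩ := exists_nat_ge ((f 0 - y) / L)
  rw [div_le_iff₀ hL] at hn hm
  have h3 : y ∈ Icc (f (-(m * P))) (f (n * P)) := by
    rw [h1, h2]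
    constructor <;> linarith
  exact mem_range_of_exists_le_of_exists_ge hf ⟨_, h3.1⟩ ⟨_, h3.2⟩

theorem g11b_A {C S L : ℝ} {W A : ℝ → ℝ} {M : ℝ → ℝ≥0∞} (h : Tgt C S L W A M) : StrictMono A :=
  strictMono_of_deriv_pos (fun s => lt_of_lt_of_le (h.Wpos s) (h.Alo s))

theorem Ai_facts {C S L : ℝ} {W A : ℝ → ℝ} {M : ℝ → ℝ≥0∞} (h : Tgt C S L W A M) :
    ∃ Ai : ℝ → ℝ, (∀ a, A (Ai a) = a) ∧ (∀ s, Ai (A s) = s) ∧ StrictMono Ai ∧
      (∀ a, Ai (a + L) = Ai a + S) ∧ ∀ a, HasDerivAt Ai (1 / deriv A (Ai a)) a := by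
  have hm := g11b_A h
  have hs := g11b_surj h.A1.continuous h.L0 h.Aper
  let e := StrictMono.orderIsoOfSurjective A hm hs
  have he : ∀ s, e s = A s := fun s => rfl
  have h1 : ∀ a, A (e.symm a) = a := fun a => e.apply_symm_apply a
  have h2 : ∀ s, e.symm (A s) = s := fun s => e.symm_apply_apply s
  refine ⟨e.symm, h1, h2, e.symm.strictMono, ?_, ?_⟩
  · intro a
    apply hm.injective
    rw [h1, h.Aper, h1]
  · intro a
    rw [one_div]
    have hd : HasDerivAt A (deriv A (e.symm a)) (e.symm a) :=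
      ((h.A1.differentiable (by simp)) _).hasDerivAt
    exact hd.of_local_left_inverse e.symm.continuous.continuousAt
      (lt_of_lt_of_le (h.Wpos _) (h.Alo _)).ne' (Eventually.of_forall h1)

theorem S0_facts {C S L : ℝ} {W A : ℝ → ℝ} {M : ℝ → ℝ≥0∞} (h : Tgt C S L W A M) {T σ : ℝ}
    {B S0 : ℝ → ℝ} (hB : Lay T σ L B) (hS : ∀ θ, A (S0 θ) = B θ) :
    StrictMono S0 ∧ Function.Surjective S0 ∧ (∀ θ, S0 (θ + 2 * Real.pi) = S0 θ + S) ∧
      ∀ θ, HasDerivAt S0 (deriv B θ / deriv A (S0 θ)) θ := by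
  obtain ⟨Ai, h1, h2, h3, h4, h5⟩ := Ai_facts h
  have hS0 : S0 = fun θ => Ai (B θ) := by
    funext θ
    rw [← hS θ, h2]
  have hBm : StrictMono B := strictMono_of_deriv_pos hB.pos
  have hBs := g11b_surj hB.B1.continuous hB.L0 hB.per
  refine ⟨?_, ?_, ?_, ?_⟩
  · rw [hS0]
    exact h3.comp hBm
  · rw [hS0]
    have hAis : Function.Surjective Ai := fun s => ⟨A s, h2 s⟩
    exact hAis.comp hBs
  · intro θ
    rw [hS0]
    simp only [hB.per, h4]
  · intro θ
    have hd : HasDerivAt B (deriv B θ) θ := ((hB.B1.differentiable (by simp)) _).hasDerivAt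
    have h6 := (h5 (B θ)).comp θ hd
    rw [hS0]
    have h7 : deriv B θ / deriv A (Ai (B θ)) = 1 / deriv A (Ai (B θ)) * deriv B θ := by ring
    simp only []
    rw [h7]
    exact h6

end CF6

end

section

/-! # G14: the width of the layer

`s00 θ` is the `s` coordinate of the boundary value (`A (s00 θ) = B0 θ`), `w s` = distance to `K` of the curve point. `v = deriv B`. `|B θ - B0 θ| ≤ 4 T v θ` (hypothesis `hsub`). `w` is 1-Lipschitz with respect to `A`.
Points with `w(S0 θ) ≥ 8 T v θ`: `w(s00 θ) ≥ w(S0 θ) - |B θ - B0 θ| ≥ w(S0 θ)/2`, so `w(S0 θ)² ≤ 4 w(s00 θ)²`. Other points: `w(S0 θ)² ≤ 8 T v θ w(S0 θ) ≤ 8 T C v θ W(S0 θ)`. In all cases `w(S0 θ)² ≤ 4 w(s00 θ)² + 8 T C v θ W(S0 θ)`.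
`∫_0^{2π} v θ W(S0 θ) dθ = ∫_{S0 0}^{S0 0+S} W(s) A'(s) ds ≤ 2 ∫ W² ≤ 2 C ∫⁻ M` (substitution `s = S0 θ`, `S0' = v/A'(S0)`: `intervalIntegral.integral_comp_mul_deriv`, everything continuous). Finally `W ≤ C w`. -/

open Complex MeasureTheory Set Filter Topology Metric intervalIntegral
open scoped ENNReal

namespace CF6

theorem g14_point {C T v W1 w1 w0 b b0 : ℝ} (hC : 1 ≤ C) (hT : 0 < T) (hv : 0 < v)
    (hw1 : 0 ≤ w1) (hw0 : 0 ≤ w0) (hW : 0 ≤ W1) (h1 : W1 ≤ C * w1) (h2 : w1 ≤ C * W1)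
    (h3 : |w1 - w0| ≤ |b - b0|) (h4 : |b - b0| ≤ 4 * T * v) :
    W1 ^ 2 ≤ 4 * C ^ 2 * w0 ^ 2 + 8 * C ^ 3 * T * (v * W1) := by
  have hTv : 0 < T * v := mul_pos hT hv
  have h5 : w1 ^ 2 ≤ 4 * w0 ^ 2 + 8 * (T * v) * w1 := by
    rcases le_or_gt (8 * (T * v)) w1 with h | h
    · have h6 : w1 - w0 ≤ 4 * (T * v) := by
        have h7 := (abs_le.1 (h3.trans h4)).2
        linarith
      have h8 : w1 ≤ 2 * w0 := by linarith
      have h9 : w1 ^ 2 ≤ (2 * w0) ^ 2 := pow_le_pow_left₀ hw1 h8 2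
      nlinarith [mul_nonneg hTv.le hw1]
    · nlinarith [mul_le_mul_of_nonneg_right h.le hw1, sq_nonneg w0]
  have h10 : W1 ^ 2 ≤ C ^ 2 * w1 ^ 2 := by
    have h11 := pow_le_pow_left₀ hW h1 2
    rw [mul_pow] at h11
    exact h11
  have hC2 : 0 ≤ C ^ 2 := sq_nonneg C
  have h12 : C ^ 2 * (8 * (T * v) * w1) ≤ C ^ 2 * (8 * (T * v) * (C * W1)) := by
    gcongr
  nlinarith [mul_le_mul_of_nonneg_left h5 hC2]

theorem g14_subst {C S L : ℝ} {W A : ℝ → ℝ} {M : ℝ → ℝ≥0∞} (h : Tgt C S L W A M) {T σ : ℝ}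
    {B S0 : ℝ → ℝ} (hB : Lay T σ L B) (hS : ∀ θ, A (S0 θ) = B θ) :
    ∫⁻ θ in Ioo 0 (2 * Real.pi), ENNReal.ofReal (deriv B θ * W (S0 θ)) ≤
      ENNReal.ofReal (2 * C) * ∫⁻ s in Ioo (S0 0) (S0 0 + S), M s := by
  obtain ⟨hmono, -, hper, hder⟩ := S0_facts h hB hS
  have hA' : ∀ s, 0 < deriv A s := fun s => (h.Wpos s).trans_le (h.Alo s)
  have h1 := lintegral_image_eq_lintegral_abs_deriv_mul (s := Ioo 0 (2 * Real.pi)) (f := S0)
    (f' := fun θ => deriv B θ / deriv A (S0 θ)) measurableSet_Ioo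
    (fun x _ => (hder x).hasDerivWithinAt) (hmono.injective.injOn)
    (fun s => ENNReal.ofReal (W s * deriv A s))
  have h2 : ∀ θ, ENNReal.ofReal |deriv B θ / deriv A (S0 θ)| *
      ENNReal.ofReal (W (S0 θ) * deriv A (S0 θ)) = ENNReal.ofReal (deriv B θ * W (S0 θ)) := by
    intro θ
    rw [← ENNReal.ofReal_mul (abs_nonneg _), abs_of_pos (div_pos (hB.pos θ) (hA' _))]
    congr 1
    have := (hA' (S0 θ)).ne'
    field_simp
  simp only [h2] at h1
  rw [← h1]
  have hsub : S0 '' Ioo 0 (2 * Real.pi) ⊆ Ioo (S0 0) (S0 0 + S) := by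
    rintro _ ⟨θ, ⟨h3, h4⟩, rfl⟩
    refine ⟨hmono h3, ?_⟩
    have h5 := hmono h4
    have h6 := hper 0
    rw [zero_add] at h6
    rwa [h6] at h5
  calc ∫⁻ s in S0 '' Ioo 0 (2 * Real.pi), ENNReal.ofReal (W s * deriv A s)
      ≤ ∫⁻ s in Ioo (S0 0) (S0 0 + S), ENNReal.ofReal (W s * deriv A s) :=
        lintegral_mono_set hsub
    _ ≤ ∫⁻ s in Ioo (S0 0) (S0 0 + S), ENNReal.ofReal (2 * C) * M s := by
        refine lintegral_mono fun s => ?_
        have h7 : W s * deriv A s ≤ 2 * W s ^ 2 := by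
          nlinarith [mul_le_mul_of_nonneg_left (h.Ahi s) (h.Wpos s).le]
        calc ENNReal.ofReal (W s * deriv A s) ≤ ENNReal.ofReal (2 * W s ^ 2) :=
              ENNReal.ofReal_le_ofReal h7
          _ = ENNReal.ofReal 2 * ENNReal.ofReal (W s) ^ 2 := by
              rw [ENNReal.ofReal_mul (by norm_num), ENNReal.ofReal_pow (h.Wpos s).le]
          _ ≤ ENNReal.ofReal 2 * (ENNReal.ofReal C * M s) := by
              gcongr
              exact h.Mge s
          _ = ENNReal.ofReal (2 * C) * M s := by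
              rw [ENNReal.ofReal_mul (by norm_num), mul_assoc]
    _ = ENNReal.ofReal (2 * C) * ∫⁻ s in Ioo (S0 0) (S0 0 + S), M s :=
        lintegral_const_mul _ h.Mmeas

theorem layer_width (C : ℝ) : ∃ C' : ℝ, 1 ≤ C' ∧ ∀ (S L T σ : ℝ) (W A B B0 S0 s00 w : ℝ → ℝ)
    (M : ℝ → ℝ≥0∞), 0 < T → Tgt C S L W A M → Lay T σ L B → (∀ θ, A (S0 θ) = B θ) →
    (∀ θ, A (s00 θ) = B0 θ) → (∀ s, 0 ≤ w s) → (∀ s, W s ≤ C * w s ∧ w s ≤ C * W s) →
    (∀ s s', |w s - w s'| ≤ |A s - A s'|) → (∀ θ, |B θ - B0 θ| ≤ 4 * T * deriv B θ) →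
    Measurable s00 →
    ∀ X : ℝ≥0∞, (∫⁻ θ in Ioo 0 (2 * Real.pi), ENNReal.ofReal (w (s00 θ)) ^ 2) ≤
      ENNReal.ofReal T * X →
    ∫⁻ θ in Ioo 0 (2 * Real.pi), ENNReal.ofReal (W (S0 θ)) ^ 2 ≤
      ENNReal.ofReal (C' * T) * (X + ∫⁻ s in Ioo (S0 0) (S0 0 + S), M s) := by
  refine ⟨1 + 4 * C ^ 2 + 16 * C ^ 4, by nlinarith [sq_nonneg C, sq_nonneg (C ^ 2)], ?_⟩
  intro S L T σ W A B B0 S0 s00 w M hT h hB hS hS0 hw0 hwW hwA hBB _ X hX
  have hC := h.C1
  have hC0 : 0 ≤ C := by linarith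
  obtain ⟨hmono, -, hper, hder⟩ := S0_facts h hB hS
  have hS0c : Continuous S0 := continuous_iff_continuousAt.2 fun θ => (hder θ).continuousAt
  have hWc : Continuous W := h.Wdiff.continuous
  have hvc : Continuous (deriv B) := hB.B1.continuous_deriv le_rfl
  have hpt : ∀ θ, ENNReal.ofReal (W (S0 θ)) ^ 2 ≤
      ENNReal.ofReal (4 * C ^ 2) * ENNReal.ofReal (w (s00 θ)) ^ 2 +
      ENNReal.ofReal (8 * C ^ 3 * T) * ENNReal.ofReal (deriv B θ * W (S0 θ)) := by
    intro θ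
    have h1 := g14_point (b := B θ) (b0 := B0 θ) hC hT (hB.pos θ) (hw0 (S0 θ)) (hw0 (s00 θ))
      (h.Wpos (S0 θ)).le (hwW (S0 θ)).1 (hwW (S0 θ)).2 (by
        have h2 := hwA (S0 θ) (s00 θ)
        rwa [hS, hS0] at h2) (hBB θ)
    rw [← ENNReal.ofReal_pow (h.Wpos _).le, ← ENNReal.ofReal_pow (hw0 _),
      ← ENNReal.ofReal_mul (by positivity), ← ENNReal.ofReal_mul (by positivity),
      ← ENNReal.ofReal_add (by positivity)
        (mul_nonneg (by positivity) (mul_nonneg (hB.pos θ).le (h.Wpos _).le))]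
    exact ENNReal.ofReal_le_ofReal h1
  have hm : Measurable fun θ => ENNReal.ofReal (8 * C ^ 3 * T) *
      ENNReal.ofReal (deriv B θ * W (S0 θ)) :=
    ((hvc.mul (hWc.comp hS0c)).measurable.ennreal_ofReal).const_mul _
  calc ∫⁻ θ in Ioo 0 (2 * Real.pi), ENNReal.ofReal (W (S0 θ)) ^ 2
      ≤ ∫⁻ θ in Ioo 0 (2 * Real.pi), (ENNReal.ofReal (4 * C ^ 2) * ENNReal.ofReal (w (s00 θ)) ^ 2 +
      ENNReal.ofReal (8 * C ^ 3 * T) * ENNReal.ofReal (deriv B θ * W (S0 θ))) :=
        lintegral_mono hpt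
    _ = (∫⁻ θ in Ioo 0 (2 * Real.pi), ENNReal.ofReal (4 * C ^ 2) * ENNReal.ofReal (w (s00 θ)) ^ 2) +
      ∫⁻ θ in Ioo 0 (2 * Real.pi), ENNReal.ofReal (8 * C ^ 3 * T) *
        ENNReal.ofReal (deriv B θ * W (S0 θ)) := lintegral_add_right _ hm
    _ = ENNReal.ofReal (4 * C ^ 2) * (∫⁻ θ in Ioo 0 (2 * Real.pi),
        ENNReal.ofReal (w (s00 θ)) ^ 2) + ENNReal.ofReal (8 * C ^ 3 * T) *
        ∫⁻ θ in Ioo 0 (2 * Real.pi), ENNReal.ofReal (deriv B θ * W (S0 θ)) := by
        rw [lintegral_const_mul' _ _ ENNReal.ofReal_ne_top,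
          lintegral_const_mul' _ _ ENNReal.ofReal_ne_top]
    _ ≤ ENNReal.ofReal (4 * C ^ 2) * (ENNReal.ofReal T * X) + ENNReal.ofReal (8 * C ^ 3 * T) *
        (ENNReal.ofReal (2 * C) * ∫⁻ s in Ioo (S0 0) (S0 0 + S), M s) := by
        gcongr
        exact g14_subst h hB hS
    _ = ENNReal.ofReal (4 * C ^ 2 * T) * X + ENNReal.ofReal (16 * C ^ 4 * T) *
        ∫⁻ s in Ioo (S0 0) (S0 0 + S), M s := by
        rw [← mul_assoc, ← mul_assoc, ← ENNReal.ofReal_mul (by positivity),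
          ← ENNReal.ofReal_mul (by positivity)]
        congr 3
        ring
    _ ≤ ENNReal.ofReal ((1 + 4 * C ^ 2 + 16 * C ^ 4) * T) * X +
        ENNReal.ofReal ((1 + 4 * C ^ 2 + 16 * C ^ 4) * T) *
        ∫⁻ s in Ioo (S0 0) (S0 0 + S), M s := by
        have e1 : 4 * C ^ 2 * T ≤ (1 + 4 * C ^ 2 + 16 * C ^ 4) * T := by
          apply mul_le_mul_of_nonneg_right _ hT.le
          nlinarith [pow_nonneg hC0 4]
        have e2 : 16 * C ^ 4 * T ≤ (1 + 4 * C ^ 2 + 16 * C ^ 4) * T := by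
          apply mul_le_mul_of_nonneg_right _ hT.le
          nlinarith [pow_nonneg hC0 2]
        gcongr
    _ = _ := by rw [mul_add]

end CF6

end

section

/-! # G15: the height function of the layer

`hh = 1/(v/W(S0) + 2/σ)`, `v = deriv B`. With `r = W(S0)/v > 0`: `hh = r σ/(σ + 2 r)`, `hh' = r' σ²/(σ+2r)²`. `r' = W'(S0) S0'/v - W(S0) v'/v²`, `S0' = v/A'(S0) ≤ v/W(S0)` (`S0_facts`), `|W'| ≤ C W`, `|v'| ≤ (8/T) v`: `|r'| ≤ C + (8/T) r`.
`(8/T) r σ²/(σ+2r)² ≤ (8/T) σ²/(8σ) = σ/T ≤ 1` (`(σ+2r)² ≥ 8 σ r`). So `|hh'| ≤ C + 1`, `hh` is Lipschitz with this constant (`Convex.norm_image_sub_le_of_norm_deriv_le` or `lipschitzWith_of_nnnorm_deriv_le`). Differentiability of `v`: `Lay.d2`; of `W`: `Tgt.Wdiff`.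
`hh ≤ σ/2`, `hh > 0`; `2π`-periodic (`deriv B` is periodic, `W`, `S0`), so bounded below by a positive constant (compactness). -/

open Complex MeasureTheory Set Filter Topology Metric intervalIntegral
open scoped ENNReal

namespace CF6

/-- the elementary inequality: y = v/W, r = 2/σ -/
private lemma g15_ineq {y σ T C : ℝ} (hy : 0 < y) (hσ : 0 < σ) (hσT : σ ≤ T) (hC : 0 ≤ C) :
    8 / T * y + C * y ^ 2 ≤ (C + 1) * (y + 2 / σ) ^ 2 := by
  have hT : 0 < T := lt_of_lt_of_le hσ hσT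
  have hr : 0 < 2 / σ := by positivity
  have h1 : y ^ 2 ≤ (y + 2 / σ) ^ 2 := by
    apply pow_le_pow_left₀ hy.le; linarith
  have h2 : 8 / T * y ≤ (y + 2 / σ) ^ 2 := by
    have h3 : 8 / T ≤ 8 / σ := div_le_div_of_nonneg_left (by norm_num) hσ hσT
    have h4 : 8 / T * y ≤ 8 / σ * y := mul_le_mul_of_nonneg_right h3 hy.le
    have h5 : (y + 2 / σ) ^ 2 - 8 / σ * y = (y - 2 / σ) ^ 2 := by ring
    nlinarith [sq_nonneg (y - 2 / σ)]
  nlinarith

theorem hh_facts {C S L T σ : ℝ} {W A B S0 hh : ℝ → ℝ} {M : ℝ → ℝ≥0∞} (h : Tgt C S L W A M)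
    (hB : Lay T σ L B) (hS : ∀ θ, A (S0 θ) = B θ)
    (hhe : ∀ θ, hh θ = 1 / (deriv B θ / W (S0 θ) + 2 / σ)) :
    (∀ θ, 0 < hh θ ∧ hh θ ≤ σ / 2) ∧ (∀ θ, hh (θ + 2 * Real.pi) = hh θ) ∧
      (∀ θ θ', |hh θ - hh θ'| ≤ (C + 1) * |θ - θ'|) ∧ ∃ m > 0, ∀ θ, m ≤ hh θ := by
  obtain ⟨hmono, hsurj, hper, hder⟩ := S0_facts h hB hS
  have hσ := hB.σ0
  have hT : σ ≤ T := by have := hB.σT; linarith
  have hT0 : 0 < T := lt_of_lt_of_le hσ hT
  have hC := h.C1
  have hW : ∀ θ, 0 < W (S0 θ) := fun θ => h.Wpos _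
  have hv : ∀ θ, 0 < deriv B θ := hB.pos
  have hφ : ∀ θ, 0 < deriv B θ / W (S0 θ) + 2 / σ := fun θ => by
    have := hW θ; have := hv θ; positivity
  have hvp : ∀ θ, deriv B (θ + 2 * Real.pi) = deriv B θ := by
    intro θ
    rw [← deriv_comp_add_const, show (fun x => B (x + 2 * Real.pi)) = fun x => B x + L from funext hB.per,
      deriv_add_const]
  have hp : ∀ θ, hh (θ + 2 * Real.pi) = hh θ := by
    intro θ
    rw [hhe, hhe, hvp, hper, h.Wper]
  have hpos : ∀ θ, 0 < hh θ := fun θ => by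
    rw [hhe]; have := hφ θ; positivity
  set D : ℝ → ℝ := fun θ => -((deriv (deriv B) θ * W (S0 θ) -
    deriv B θ * (deriv W (S0 θ) * (deriv B θ / deriv A (S0 θ)))) / W (S0 θ) ^ 2) /
      (deriv B θ / W (S0 θ) + 2 / σ) ^ 2 with hD
  have hhd : ∀ θ, HasDerivAt hh (D θ) θ := by
    intro θ
    have h1 : HasDerivAt (deriv B) (deriv (deriv B) θ) θ := (hB.d2 θ).1.hasDerivAt
    have h2 : HasDerivAt (fun θ => W (S0 θ)) (deriv W (S0 θ) * (deriv B θ / deriv A (S0 θ))) θ :=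
      ((h.Wdiff (S0 θ)).hasDerivAt).comp θ (hder θ)
    have h3 := ((h1.div h2 (hW θ).ne').add_const (2 / σ)).inv (hφ θ).ne'
    refine (h3.congr_deriv ?_).congr_of_eventuallyEq (Filter.Eventually.of_forall fun x => ?_)
    · rw [hD]; rfl
    · rw [hhe, one_div]; rfl
  have hDb : ∀ θ, |D θ| ≤ C + 1 := by
    intro θ
    have hw := hW θ
    have hv' := hv θ
    have hA : W (S0 θ) ≤ deriv A (S0 θ) := h.Alo _
    have hA0 : 0 < deriv A (S0 θ) := lt_of_lt_of_le hw hA
    have hy : 0 < deriv B θ / W (S0 θ) := by positivity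
    have h1 := g15_ineq hy hσ hT (by linarith : (0 : ℝ) ≤ C)
    rw [hD]
    simp only []
    rw [abs_div, abs_neg, abs_of_pos (show 0 < (deriv B θ / W (S0 θ) + 2 / σ) ^ 2 by have := hφ θ; positivity),
      div_le_iff₀ (by have := hφ θ; positivity)]
    refine le_trans ?_ h1
    rw [abs_div, abs_of_pos (show 0 < W (S0 θ) ^ 2 by positivity), div_le_iff₀ (by positivity)]
    have h2 : |deriv (deriv B) θ| ≤ 8 / T * deriv B θ := (hB.d2 θ).2
    have h3 : |deriv W (S0 θ)| ≤ C * W (S0 θ) := h.Wder _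
    have h4 : deriv B θ / deriv A (S0 θ) ≤ deriv B θ / W (S0 θ) :=
      div_le_div_of_nonneg_left hv'.le hw hA
    calc |deriv (deriv B) θ * W (S0 θ) - deriv B θ * (deriv W (S0 θ) * (deriv B θ / deriv A (S0 θ)))|
        ≤ |deriv (deriv B) θ * W (S0 θ)| +
          |deriv B θ * (deriv W (S0 θ) * (deriv B θ / deriv A (S0 θ)))| := abs_sub _ _
      _ = |deriv (deriv B) θ| * W (S0 θ) + deriv B θ * (|deriv W (S0 θ)| * (deriv B θ / deriv A (S0 θ))) := by
          rw [abs_mul, abs_mul, abs_mul, abs_of_pos hw, abs_of_pos hv',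
            abs_of_pos (show 0 < deriv B θ / deriv A (S0 θ) by positivity)]
      _ ≤ (8 / T * deriv B θ) * W (S0 θ) + deriv B θ * ((C * W (S0 θ)) * (deriv B θ / W (S0 θ))) := by
          gcongr
      _ = (8 / T * (deriv B θ / W (S0 θ)) + C * (deriv B θ / W (S0 θ)) ^ 2) * W (S0 θ) ^ 2 := by
          field_simp
  have hlip : ∀ θ θ', |hh θ - hh θ'| ≤ (C + 1) * |θ - θ'| := by
    intro θ θ'
    have := convex_univ.norm_image_sub_le_of_norm_hasDerivWithin_le (f := hh) (f' := D) (C := C + 1)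
      (s := univ) (x := θ') (y := θ) (fun x _ => (hhd x).hasDerivWithinAt)
      (fun x _ => hDb x) (mem_univ _) (mem_univ _)
    rw [Real.norm_eq_abs, Real.norm_eq_abs] at this
    exact this
  refine ⟨fun θ => ⟨hpos θ, ?_⟩, hp, hlip, ?_⟩
  · rw [hhe]
    have h1 : 0 < 2 / σ := by positivity
    have h2 : 0 < deriv B θ / W (S0 θ) := by have := hW θ; have := hv θ; positivity
    calc 1 / (deriv B θ / W (S0 θ) + 2 / σ) ≤ 1 / (2 / σ) := one_div_le_one_div_of_le h1 (by linarith)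
      _ = σ / 2 := by rw [one_div_div]
  · have hc : Continuous hh := continuous_iff_continuousAt.mpr fun θ => (hhd θ).continuousAt
    obtain ⟨x, _, hx⟩ := isCompact_Icc.exists_isMinOn (nonempty_Icc.mpr (by positivity : (0 : ℝ) ≤ 2 * Real.pi))
      hc.continuousOn
    refine ⟨hh x, hpos x, fun θ => ?_⟩
    have hpp : Function.Periodic hh (2 * Real.pi) := hp
    obtain ⟨y, hy, he⟩ := hpp.exists_mem_Ico₀ (by positivity) θ
    rw [he]
    exact hx ⟨hy.1, hy.2.le⟩

end CF6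

end

section

/-! # G16a: continuity of an inverse

`contOn_inverse`: at `w ∈ V` take `N, L`; every cluster point `z` of `Q` along `𝓝[V] w` in the compact `L ⊆ U` satisfies `P z = w` (`P` continuous at `z`, `P (Q v) = v`), so `z = Q (P z) = Q w`. `IsCompact.tendsto_nhds_of_unique_mapClusterPt`.

`level_bij`: write `y = T - t ∈ (0,T)`. `Z = (1-c) min(1, y/hh θ) + c y/T` is strictly increasing in `y`, tends to `0` at `y = 0`, `Z = 1` at `y = T`; for `y ≥ hh θ` (in particular `y ≥ σ/2`) `Z = 1 - c + c y/T`.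
Let `z* = 1 - c + c σ/(2T)`. `Z ≥ z*` iff `y ≥ σ/2`.
Injective: same value `Z`. If one of the two points has `y ≥ σ/2` then both, and `y = y'`; then strict monotonicity of `X t`. Otherwise both have `t ≥ T - σ/2`, so `X (T-σ/2) θ = X (T-σ/2) θ'`, `θ = θ'`, then `y = y'`.
Surjective: given `(x, ζ)`. If `ζ ≥ z*`: `y` from `ζ = 1 - c + c y/T`, then `θ` with `X (T-y) θ = x` (continuous in `θ`, unbounded in both directions by quasi-periodicity; intermediate value theorem). If `ζ < z*`: `θ` with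
`X (T-σ/2) θ = x`, then `y ∈ (0,σ/2)` by the intermediate value theorem.
Define `Q` by choice. Continuity of `Q` with `contOn_inverse`: near `w0 = x0 + i ζ0` let `ζ ∈ [ζ1, ζ2] ⊂ (0,1)`, `|x - x0| ≤ 1`. Then `y` stays in a compact subset of `(0,T)`: `Z ≥ ζ1` gives `y ≥ y1 > 0` (`Z ≤ y (1/m + 1/T)` where `m > 0` is a lower bound of
`hh` - hypothesis `hhm`), `Z ≤ ζ2 < 1` gives `y ≤ y2 < T` (if `y ≥ σ/2` then `y = T (ζ-1+c)/c`, a bound `< T`). For `t ∈ [T-y2,T-y1]` and `|x| ≤ |x0|+1` the angle `θ` is bounded: `X t 0` is bounded for `t` in this compact interval and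
`X t (2π k) = X t 0 + S k`, `X t` increasing. -/

open Complex MeasureTheory Set Filter Topology Metric intervalIntegral
open scoped ENNReal

namespace CF6

theorem contOn_inverse {U V : Set ℂ} {P Q : ℂ → ℂ} (hP : ContinuousOn P U) (hQ : MapsTo Q V U)
    (hinv : InvOn Q P U V) (prop : ∀ w ∈ V, ∃ N ∈ 𝓝[V] w, ∃ L ⊆ U, IsCompact L ∧ ∀ v ∈ N, Q v ∈ L) :
    ContinuousOn Q V := by
  intro w hw
  obtain ⟨N, hN, L, hLU, hL, hNL⟩ := prop w hw
  refine hL.tendsto_nhds_of_unique_mapClusterPt (Filter.mem_of_superset hN hNL) ?_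
  intro z hz hcl
  obtain ⟨u, hu, hQu⟩ := mapClusterPt_iff_ultrafilter.1 hcl
  have hV : ∀ᶠ v in (u : Filter ℂ), v ∈ V := hu self_mem_nhdsWithin
  have hzU : z ∈ U := hLU hz
  have h1 : Tendsto Q (u : Filter ℂ) (𝓝[U] z) :=
    tendsto_nhdsWithin_iff.2 ⟨hQu, hV.mono fun v hv => hQ hv⟩
  have h2 : Tendsto (fun v => P (Q v)) (u : Filter ℂ) (𝓝 (P z)) := (hP z hzU).tendsto.comp h1
  have h3 : Tendsto (fun v : ℂ => v) (u : Filter ℂ) (𝓝 w) :=
    (tendsto_id'.2 (hu.trans nhdsWithin_le_nhds))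
  have h4 : Tendsto (fun v : ℂ => v) (u : Filter ℂ) (𝓝 (P z)) :=
    h2.congr' (hV.mono fun v hv => hinv.2 hv)
  have h5 : P z = w := tendsto_nhds_unique h4 h3
  rw [← h5]
  exact (hinv.1 hzU).symm

end CF6

end

section

/-! # G16b: the abstract homeomorphism of the strip -/

open Complex MeasureTheory Set Filter Topology Metric intervalIntegral
open scoped ENNReal

namespace CF6

/-- a continuous function which increases by `S > 0` over a period is surjective -/
theorem g16b_surj {g : ℝ → ℝ} {S : ℝ} (hS : 0 < S) (hg : Continuous g)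
    (per : ∀ θ, g (θ + 2 * Real.pi) = g θ + S) : Function.Surjective g := by
  have hk : ∀ k : ℕ, g (2 * Real.pi * k) = g 0 + k * S := by
    intro k
    induction k with
    | zero => simp
    | succ k ih =>
      have := per (2 * Real.pi * k)
      rw [ih] at this
      push_cast
      rw [mul_add, mul_one, this]
      ring
  have hk' : ∀ k : ℕ, g (-(2 * Real.pi * k)) = g 0 - k * S := by
    intro k
    induction k with
    | zero => simp
    | succ k ih =>
      have := per (-(2 * Real.pi * (k + 1)))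
      have e : -(2 * Real.pi * ((k : ℝ) + 1)) + 2 * Real.pi = -(2 * Real.pi * k) := by ring
      rw [e, ih] at this
      push_cast
      linarith
  intro x
  obtain ⟨n, hn⟩ := exists_nat_ge (|x - g 0| / S)
  rw [div_le_iff₀ hS] at hn
  refine mem_range_of_exists_le_of_exists_ge hg ⟨-(2 * Real.pi * n), ?_⟩ ⟨2 * Real.pi * n, ?_⟩
  · rw [hk']
    have := neg_abs_le (x - g 0)
    linarith
  · rw [hk]
    have := le_abs_self (x - g 0)
    linarith

/-- values at multiples of the period -/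
theorem g16b_mult {g : ℝ → ℝ} {S : ℝ} (per : ∀ θ, g (θ + 2 * Real.pi) = g θ + S) (k : ℕ) :
    g (2 * Real.pi * k) = g 0 + k * S ∧ g (-(2 * Real.pi * k)) = g 0 - k * S := by
  constructor
  · induction k with
    | zero => simp
    | succ k ih =>
      have := per (2 * Real.pi * k)
      rw [ih] at this
      push_cast
      rw [mul_add, mul_one, this]
      ring
  · induction k with
    | zero => simp
    | succ k ih =>
      have := per (-(2 * Real.pi * (k + 1)))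
      have e : -(2 * Real.pi * ((k : ℝ) + 1)) + 2 * Real.pi = -(2 * Real.pi * k) := by ring
      rw [e, ih] at this
      push_cast
      linarith

theorem g16b_pos {T c : ℝ} {hh : ℝ → ℝ} (hT : 0 < T) (hc : 0 < c) (hc1 : c < 1) {t θ : ℝ}
    (h0 : 0 < hh θ) (ht : t < T) : 0 < Zf T c hh t θ := by
  unfold Zf
  have h1 : 0 < (T - t) / hh θ := div_pos (by linarith) h0
  have h2 : 0 < min 1 ((T - t) / hh θ) := lt_min one_pos h1
  have h3 : 0 < c * (T - t) / T := div_pos (mul_pos hc (by linarith)) hT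
  have h4 : 0 < (1 - c) * min 1 ((T - t) / hh θ) := mul_pos (by linarith) h2
  linarith

theorem g16b_le {T c : ℝ} {hh : ℝ → ℝ} (hc1 : c < 1) (t θ : ℝ) :
    Zf T c hh t θ ≤ 1 - c + c * (T - t) / T := by
  unfold Zf
  have h2 : min 1 ((T - t) / hh θ) ≤ 1 := min_le_left _ _
  have h3 := mul_le_mul_of_nonneg_left h2 (by linarith : 0 ≤ 1 - c)
  linarith

theorem g16b_eq {T c : ℝ} {hh : ℝ → ℝ} {t θ : ℝ} (h0 : 0 < hh θ) (h : hh θ ≤ T - t) :
    Zf T c hh t θ = 1 - c + c * (T - t) / T := by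
  unfold Zf
  rw [min_eq_left]
  · ring
  · rw [le_div_iff₀ h0]; linarith

theorem g16b_anti {T c : ℝ} {hh : ℝ → ℝ} (hT : 0 < T) (hc : 0 < c) (hc1 : c < 1) {t t' θ : ℝ}
    (h0 : 0 < hh θ) (h : t < t') : Zf T c hh t' θ < Zf T c hh t θ := by
  unfold Zf
  have h1 : (T - t') / hh θ ≤ (T - t) / hh θ := div_le_div_of_nonneg_right (by linarith) h0.le
  have h2 : min 1 ((T - t') / hh θ) ≤ min 1 ((T - t) / hh θ) := min_le_min le_rfl h1
  have h3 : c * (T - t') / T < c * (T - t) / T :=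
    div_lt_div_of_pos_right (mul_lt_mul_of_pos_left (by linarith) hc) hT
  have h4 : (1 - c) * min 1 ((T - t') / hh θ) ≤ (1 - c) * min 1 ((T - t) / hh θ) :=
    mul_le_mul_of_nonneg_left h2 (by linarith)
  linarith

theorem level_bij {T σ c S : ℝ} {hh : ℝ → ℝ} {X : ℝ → ℝ → ℝ} (hT : 0 < T) (hσ : 0 < σ)
    (hσT : σ ≤ T) (hc : 0 < c) (hc1 : c < 1) (hS : 0 < S)
    (hh0 : ∀ θ, 0 < hh θ ∧ hh θ ≤ σ / 2) (hhc : Continuous hh) (hhm : ∃ m > 0, ∀ θ, m ≤ hh θ)
    (hX : ContinuousOn (fun z : ℂ => X z.re z.im) (strip T))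
    (mono : ∀ t, 0 < t → t < T → StrictMono (X t))
    (per : ∀ t, 0 < t → t < T → ∀ θ, X t (θ + 2 * Real.pi) = X t θ + S)
    (const : ∀ t, T - σ / 2 ≤ t → t < T → X t = X (T - σ / 2)) :
    MapsTo (fun z : ℂ => (X z.re z.im : ℂ) + Zf T c hh z.re z.im * I) (strip T)
      {w | 0 < w.im ∧ w.im < 1} ∧
    ∃ Q : ℂ → ℂ, ContinuousOn Q {w | 0 < w.im ∧ w.im < 1} ∧
      MapsTo Q {w | 0 < w.im ∧ w.im < 1} (strip T) ∧
      InvOn Q (fun z : ℂ => (X z.re z.im : ℂ) + Zf T c hh z.re z.im * I) (strip T)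
        {w | 0 < w.im ∧ w.im < 1} := by
  set P : ℂ → ℂ := fun z : ℂ => (X z.re z.im : ℂ) + Zf T c hh z.re z.im * I with hP
  have hPre : ∀ z, (P z).re = X z.re z.im := by intro z; simp [hP]
  have hPim : ∀ z, (P z).im = Zf T c hh z.re z.im := by intro z; simp [hP]
  have hσ2 : 0 < T - σ / 2 := by linarith
  have hσ3 : T - σ / 2 < T := by linarith
  -- the critical value
  set zs : ℝ := 1 - c + c * (σ / 2) / T with hzs
  have hbig : ∀ t θ, σ / 2 ≤ T - t → Zf T c hh t θ = 1 - c + c * (T - t) / T := fun t θ h =>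
    g16b_eq (hh0 θ).1 ((hh0 θ).2.trans h)
  have hge : ∀ t θ, σ / 2 ≤ T - t → zs ≤ Zf T c hh t θ := by
    intro t θ h
    rw [hbig t θ h, hzs]
    have : c * (σ / 2) / T ≤ c * (T - t) / T :=
      div_le_div_of_nonneg_right (mul_le_mul_of_nonneg_left h hc.le) hT.le
    linarith
  have hlt : ∀ t θ, T - t < σ / 2 → Zf T c hh t θ < zs := by
    intro t θ h
    refine lt_of_le_of_lt (g16b_le hc1 t θ) ?_
    have : c * (T - t) / T < c * (σ / 2) / T :=
      div_lt_div_of_pos_right (mul_lt_mul_of_pos_left h hc) hT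
    linarith
  have maps : MapsTo P (strip T) {w | 0 < w.im ∧ w.im < 1} := by
    intro z hz
    refine ⟨?_, ?_⟩
    · rw [hPim]; exact g16b_pos hT hc hc1 (hh0 _).1 hz.2
    · rw [hPim]
      refine lt_of_le_of_lt (g16b_le hc1 _ _) ?_
      have : c * (T - z.re) / T < c := by
        rw [div_lt_iff₀ hT]
        exact mul_lt_mul_of_pos_left (by linarith [hz.1]) hc
      linarith
  have inj : InjOn P (strip T) := by
    intro z hz z' hz' h
    have hre : X z.re z.im = X z'.re z'.im := by rw [← hPre, ← hPre, h]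
    have him : Zf T c hh z.re z.im = Zf T c hh z'.re z'.im := by rw [← hPim, ← hPim, h]
    rcases le_or_gt (σ / 2) (T - z.re) with h1 | h1
    · have h2 : σ / 2 ≤ T - z'.re := by
        by_contra hcon
        have := hlt z'.re z'.im (not_le.1 hcon)
        have := hge z.re z.im h1
        linarith
      rw [hbig _ _ h1, hbig _ _ h2] at him
      have e1 : z.re = z'.re := by
        have : c * (T - z.re) / T = c * (T - z'.re) / T := by linarith
        field_simp at this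
        linarith
      rw [← e1] at hre
      have e2 : z.im = z'.im := (mono z.re hz.1 hz.2).injective hre
      exact Complex.ext e1 e2
    · have h2 : T - z'.re < σ / 2 := by
        by_contra hcon
        have := hge z'.re z'.im (not_lt.1 hcon)
        have := hlt z.re z.im h1
        linarith
      rw [const z.re (by linarith) hz.2, const z'.re (by linarith) hz'.2] at hre
      have e2 : z.im = z'.im := (mono _ hσ2 hσ3).injective hre
      rw [← e2] at him
      have e1 : z.re = z'.re := by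
        rcases lt_trichotomy z.re z'.re with h3 | h3 | h3
        · have := g16b_anti hT hc hc1 (hh0 z.im).1 h3
          linarith
        · exact h3
        · have := g16b_anti hT hc hc1 (hh0 z.im).1 h3
          linarith
      exact Complex.ext e1 e2
  have contX : ∀ t, 0 < t → t < T → Continuous (X t) := by
    intro t h1 h2
    have h3 : ContinuousOn (fun θ : ℝ => X (⟨t, θ⟩ : ℂ).re (⟨t, θ⟩ : ℂ).im) univ := by
      refine hX.comp (t := strip T) (f := fun θ : ℝ => (⟨t, θ⟩ : ℂ)) ?_ ?_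
      · refine Continuous.continuousOn ?_
        have : (fun θ : ℝ => (⟨t, θ⟩ : ℂ)) = fun θ : ℝ => (t : ℂ) + θ * I := by
          funext θ
          apply Complex.ext <;> simp
        rw [this]
        fun_prop
      · intro θ _
        exact ⟨h1, h2⟩
    exact continuousOn_univ.1 h3
  have surj : SurjOn P (strip T) {w | 0 < w.im ∧ w.im < 1} := by
    intro w hw
    rcases le_or_gt zs w.im with h1 | h1
    · set y : ℝ := T * (w.im - 1 + c) / c with hy
      have hy1 : σ / 2 ≤ y := by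
        rw [hy, le_div_iff₀ hc]
        have h2 : c * (σ / 2) / T ≤ w.im - 1 + c := by rw [hzs] at h1; linarith
        rw [div_le_iff₀ hT] at h2
        linarith
      have hy2 : y < T := by
        rw [hy, div_lt_iff₀ hc]
        have : w.im - 1 + c < c := by linarith [hw.2]
        exact mul_lt_mul_of_pos_left this hT
      have ht0 : 0 < T - y := by linarith
      have ht1 : T - y < T := by linarith
      obtain ⟨θ, hθ⟩ := g16b_surj hS (contX _ ht0 ht1) (per _ ht0 ht1) w.re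
      refine ⟨⟨T - y, θ⟩, ⟨ht0, ht1⟩, ?_⟩
      apply Complex.ext
      · rw [hPre]; exact hθ
      · rw [hPim]
        show Zf T c hh (T - y) θ = w.im
        rw [hbig _ _ (by linarith)]
        have : T - (T - y) = y := by ring
        rw [this, hy]
        field_simp
        ring
    · obtain ⟨θ, hθ⟩ := g16b_surj hS (contX _ hσ2 hσ3) (per _ hσ2 hσ3) w.re
      have hcont : ContinuousOn (fun t => Zf T c hh t θ) (Icc (T - σ / 2) T) := by
        unfold Zf
        have : hh θ ≠ 0 := (hh0 θ).1.ne'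
        fun_prop
      have hiv := intermediate_value_Icc' (show T - σ / 2 ≤ T by linarith) hcont
      have hv0 : Zf T c hh T θ = 0 := by simp [Zf]
      have hv1 : Zf T c hh (T - σ / 2) θ = zs := by
        rw [hbig _ _ (by linarith), hzs]
        have : T - (T - σ / 2) = σ / 2 := by ring
        rw [this]
      obtain ⟨t, ht, hteq⟩ := hiv (show w.im ∈ Icc (Zf T c hh T θ) (Zf T c hh (T - σ / 2) θ) from
        ⟨by rw [hv0]; exact hw.1.le, by rw [hv1]; exact h1.le⟩)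
      simp only at hteq
      have ht1 : t < T := by
        rcases lt_or_eq_of_le ht.2 with h3 | h3
        · exact h3
        · exfalso
          rw [h3, hv0] at hteq
          have := hw.1
          linarith
      refine ⟨⟨t, θ⟩, ⟨by linarith [ht.1], ht1⟩, ?_⟩
      apply Complex.ext
      · rw [hPre]
        show X t θ = w.re
        rw [const t ht.1 ht1]; exact hθ
      · rw [hPim]; exact hteq
  have bij : BijOn P (strip T) {w | 0 < w.im ∧ w.im < 1} := ⟨maps, inj, surj⟩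
  refine ⟨maps, Function.invFunOn P (strip T), ?_, surj.mapsTo_invFunOn, bij.invOn_invFunOn⟩
  have hPc : ContinuousOn P (strip T) := by
    have h1 : ContinuousOn (fun z : ℂ => Zf T c hh z.re z.im) (strip T) := by
      refine Continuous.continuousOn ?_
      unfold Zf
      have h2 : Continuous fun z : ℂ => (T - z.re) / hh z.im :=
        (continuous_const.sub Complex.continuous_re).div (hhc.comp Complex.continuous_im)
          (fun z => (hh0 z.im).1.ne')
      exact (continuous_const.mul (continuous_const.min h2)).add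
        ((continuous_const.mul (continuous_const.sub Complex.continuous_re)).div_const _)
    exact (Complex.continuous_ofReal.comp_continuousOn hX).add
      ((Complex.continuous_ofReal.comp_continuousOn h1).mul continuousOn_const)
  refine contOn_inverse hPc surj.mapsTo_invFunOn bij.invOn_invFunOn ?_
  obtain ⟨m, hm, hmle⟩ := hhm
  intro w hw
  have hw0 := hw.1
  have hw1 := hw.2
  set ζ1 : ℝ := w.im / 2 with hζ1
  set ζ2 : ℝ := (1 + w.im) / 2 with hζ2
  set y1 : ℝ := ζ1 / (1 / m + 1 / T) with hy1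
  set y2 : ℝ := max (σ / 2) (T * (ζ2 - 1 + c) / c) with hy2
  have hden : 0 < 1 / m + 1 / T := by positivity
  have hζ1p : 0 < ζ1 := by rw [hζ1]; linarith
  have hy1p : 0 < y1 := div_pos hζ1p hden
  have hy2T : y2 < T := by
    rw [hy2]
    refine max_lt (by linarith) ?_
    rw [div_lt_iff₀ hc]
    exact mul_lt_mul_of_pos_left (by rw [hζ2]; linarith) hT
  have hIcc : ∀ t ∈ Icc (T - y2) (T - y1), 0 < t ∧ t < T := fun t ht =>
    ⟨by linarith [ht.1], by linarith [ht.2]⟩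
  have hcX0 : ContinuousOn (fun t : ℝ => X t 0) (Icc (T - y2) (T - y1)) := by
    have h3 : ContinuousOn (fun t : ℝ => X (⟨t, 0⟩ : ℂ).re (⟨t, 0⟩ : ℂ).im) (Icc (T - y2) (T - y1)) := by
      refine hX.comp (t := strip T) (f := fun t : ℝ => (⟨t, 0⟩ : ℂ)) ?_ ?_
      · refine Continuous.continuousOn ?_
        have : (fun t : ℝ => (⟨t, 0⟩ : ℂ)) = fun t : ℝ => (t : ℂ) := by
          funext t
          apply Complex.ext <;> simp
        rw [this]
        fun_prop
      · intro t ht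
        exact hIcc t ht
    exact h3
  obtain ⟨M, hM⟩ := isCompact_Icc.exists_bound_of_continuousOn hcX0
  obtain ⟨k, hk⟩ := exists_nat_ge ((M + |w.re| + 1) / S)
  rw [div_le_iff₀ hS] at hk
  refine ⟨{v | ζ1 < v.im ∧ v.im < ζ2 ∧ |v.re - w.re| < 1} ∩ {w | 0 < w.im ∧ w.im < 1}, ?_,
    (Icc (T - y2) (T - y1)) ×ℂ (Icc (-(2 * Real.pi * k)) (2 * Real.pi * k)), ?_, ?_, ?_⟩
  · refine inter_mem (mem_nhdsWithin_of_mem_nhds ?_) self_mem_nhdsWithin
    have ho : IsOpen {v : ℂ | ζ1 < v.im ∧ v.im < ζ2 ∧ |v.re - w.re| < 1} := by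
      refine (isOpen_lt continuous_const Complex.continuous_im).inter
        ((isOpen_lt Complex.continuous_im continuous_const).inter
          (isOpen_lt (Complex.continuous_re.sub continuous_const).abs continuous_const))
    refine ho.mem_nhds ⟨by rw [hζ1]; linarith, by rw [hζ2]; linarith, by simp⟩
  · intro z hz
    exact hIcc z.re hz.1
  · exact isCompact_Icc.reProdIm isCompact_Icc
  · rintro v ⟨⟨hv1, hv2, hv3⟩, hvV⟩
    have hz := surj.mapsTo_invFunOn hvV
    have hPz : P (Function.invFunOn P (strip T) v) = v := bij.invOn_invFunOn.2 hvV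
    set z := Function.invFunOn P (strip T) v with hzdef
    have hXe : X z.re z.im = v.re := by rw [← hPre, hPz]
    have hZe : Zf T c hh z.re z.im = v.im := by rw [← hPim, hPz]
    have hyp : 0 < T - z.re := by linarith [hz.2]
    have lo : y1 < T - z.re := by
      rw [hy1, div_lt_iff₀ hden]
      refine lt_of_lt_of_le hv1 ?_
      rw [← hZe]
      unfold Zf
      have a1 : min 1 ((T - z.re) / hh z.im) ≤ (T - z.re) / m :=
        (min_le_right _ _).trans (div_le_div_of_nonneg_left hyp.le hm (hmle _))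
      have a2 : 0 ≤ (T - z.re) / m := div_nonneg hyp.le hm.le
      have a3 : (1 - c) * min 1 ((T - z.re) / hh z.im) ≤ (T - z.re) / m := by
        have a4 : 0 ≤ min 1 ((T - z.re) / hh z.im) :=
          le_min zero_le_one (div_nonneg hyp.le (hh0 _).1.le)
        exact (mul_le_of_le_one_left a4 (by linarith)).trans a1
      have a5 : c * (T - z.re) / T ≤ (T - z.re) / T :=
        div_le_div_of_nonneg_right (mul_le_of_le_one_left hyp.le (by linarith)) hT.le
      calc (1 - c) * min 1 ((T - z.re) / hh z.im) + c * (T - z.re) / T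
          ≤ (T - z.re) / m + (T - z.re) / T := add_le_add a3 a5
        _ = (T - z.re) * (1 / m + 1 / T) := by ring
    have hi : T - z.re ≤ y2 := by
      rcases le_or_gt (σ / 2) (T - z.re) with h1 | h1
      · refine le_trans ?_ (le_max_right _ _)
        rw [hbig _ _ h1] at hZe
        have a1 : 1 - c + c * (T - z.re) / T ≤ ζ2 := by rw [hZe]; exact hv2.le
        have a2 : c * (T - z.re) / T ≤ ζ2 - 1 + c := by linarith
        rw [div_le_iff₀ hT] at a2
        rw [le_div_iff₀ hc]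
        linarith
      · exact h1.le.trans (le_max_left _ _)
    have htI : z.re ∈ Icc (T - y2) (T - y1) := ⟨by linarith, by linarith⟩
    have hMz := hM z.re htI
    rw [Real.norm_eq_abs] at hMz
    obtain ⟨m1, m2⟩ := g16b_mult (per z.re hz.1 hz.2) k
    have b1 := abs_le.1 hMz
    have b2 := abs_lt.1 hv3
    have b3 := neg_abs_le w.re
    have b4 := le_abs_self w.re
    refine ⟨htI, ⟨?_, ?_⟩⟩
    · have : X z.re (-(2 * Real.pi * k)) < X z.re z.im := by
        rw [m2, hXe]; linarith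
      exact ((mono z.re hz.1 hz.2).lt_iff_lt.1 this).le
    · have : X z.re z.im < X z.re (2 * Real.pi * k) := by
        rw [m1, hXe]; linarith
      exact ((mono z.re hz.1 hz.2).lt_iff_lt.1 this).le

end CF6

end

section

/-! # G17: the coordinates cu are a homeomorphism

`re (cu s ζ) = xs s`, `im (cu s ζ) = τ(xs s) ζ`. Inverse: `V u = xs⁻¹(re u) + i im u/τ(re u)`; `xs⁻¹` is continuous (strictly monotone surjective: `StrictMono.orderIsoOfSurjective`, `OrderIso.continuous`). -/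

open Complex MeasureTheory Set Filter Topology Metric intervalIntegral
open scoped ENNReal

namespace CF6

private theorem g17_cont {τ xs : ℝ → ℝ} {S : ℝ} (hp : Par τ xs S) : Continuous xs :=
  continuous_iff_continuousAt.2 fun s => (hp.der s).continuousAt

private theorem g17_C1 {τ xs : ℝ → ℝ} {c r S : ℝ} (hτ : Depth c r τ) (hp : Par τ xs S) :
    ContDiff ℝ 1 xs := by
  rw [contDiff_one_iff_deriv]
  refine ⟨fun s => (hp.der s).differentiableAt, ?_⟩
  have h : deriv xs = fun s => τ (xs s) := by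
    funext s
    exact (hp.der s).deriv
  rw [h]
  exact hτ.smooth.continuous.comp (g17_cont hp)

theorem cu_homeo {τ xs : ℝ → ℝ} {c r S : ℝ} (hτ : Depth c r τ) (hp : Par τ xs S) :
    Continuous (fun w : ℂ => cu τ xs w.re w.im) ∧
    MapsTo (fun w : ℂ => cu τ xs w.re w.im) {w | 0 < w.im ∧ w.im < 1} (below τ) ∧
    ∃ V : ℂ → ℂ, ContinuousOn V (below τ) ∧ MapsTo V (below τ) {w | 0 < w.im ∧ w.im < 1} ∧
      InvOn V (fun w : ℂ => cu τ xs w.re w.im) {w | 0 < w.im ∧ w.im < 1} (below τ) := by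
  have hxc : Continuous xs := g17_cont hp
  have hτc : Continuous τ := hτ.smooth.continuous
  refine ⟨?_, ?_, ?_⟩
  · unfold cu
    fun_prop
  · rintro w ⟨h0, h1⟩
    have hpos := hτ.pos (xs w.re)
    obtain ⟨him, hre⟩ := cu_im τ xs w.re w.im
    show 0 < (cu τ xs w.re w.im).im ∧ (cu τ xs w.re w.im).im < τ (cu τ xs w.re w.im).re
    rw [him, hre]
    exact ⟨mul_pos hpos h0, by nlinarith⟩
  · set e : ℝ ≃o ℝ := StrictMono.orderIsoOfSurjective xs hp.mono hp.surj with he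
    have hex : ∀ x, e x = xs x := fun x => rfl
    have hec : Continuous e.symm := e.symm.continuous
    have hxe : ∀ x, xs (e.symm x) = x := fun x => by
      rw [← hex]
      exact e.apply_symm_apply x
    have hexs : ∀ x, e.symm (xs x) = x := fun x => by
      rw [← hex]
      exact e.symm_apply_apply x
    have hre : ∀ a b : ℝ, (((a : ℂ) + (b : ℂ) * I)).re = a := fun a b => by simp
    have him : ∀ a b : ℝ, (((a : ℂ) + (b : ℂ) * I)).im = b := fun a b => by simp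
    refine ⟨fun u : ℂ => ((e.symm u.re : ℝ) : ℂ) + ((u.im / τ u.re : ℝ) : ℂ) * I, ?_, ?_, ?_, ?_⟩
    · have h1 : Continuous fun u : ℂ => u.im / τ u.re :=
        Complex.continuous_im.div (hτc.comp Complex.continuous_re) fun u => (hτ.pos _).ne'
      have h2 : Continuous fun u : ℂ => e.symm u.re := hec.comp Complex.continuous_re
      exact ((Complex.continuous_ofReal.comp h2).add
        ((Complex.continuous_ofReal.comp h1).mul continuous_const)).continuousOn
    · rintro u ⟨h0, h1⟩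
      have hpos := hτ.pos u.re
      show 0 < (((e.symm u.re : ℝ) : ℂ) + ((u.im / τ u.re : ℝ) : ℂ) * I).im ∧
        (((e.symm u.re : ℝ) : ℂ) + ((u.im / τ u.re : ℝ) : ℂ) * I).im < 1
      rw [him]
      exact ⟨div_pos h0 hpos, (div_lt_one hpos).2 h1⟩
    · rintro w ⟨h0, h1⟩
      have hpos := hτ.pos (xs w.re)
      obtain ⟨him', hre'⟩ := cu_im τ xs w.re w.im
      show ((e.symm (cu τ xs w.re w.im).re : ℝ) : ℂ) +
        (((cu τ xs w.re w.im).im / τ (cu τ xs w.re w.im).re : ℝ) : ℂ) * I = w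
      rw [him', hre', hexs, mul_div_cancel_left₀ _ hpos.ne']
      exact Complex.re_add_im w
    · rintro u ⟨h0, h1⟩
      have hpos := hτ.pos u.re
      show cu τ xs (((e.symm u.re : ℝ) : ℂ) + ((u.im / τ u.re : ℝ) : ℂ) * I).re
        (((e.symm u.re : ℝ) : ℂ) + ((u.im / τ u.re : ℝ) : ℂ) * I).im = u
      rw [hre, him]
      apply Complex.ext
      · rw [(cu_im τ xs _ _).2, hxe]
      · rw [(cu_im τ xs _ _).1, hxe, mul_div_cancel₀ _ hpos.ne']

/-- `cu` is locally Lipschitz as a function of both variables (`τ ∈ C²`, `xs' = τ ∘ xs`, so it is `C¹`) -/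
theorem cu_LL {τ xs : ℝ → ℝ} {c r S : ℝ} (hτ : Depth c r τ) (hp : Par τ xs S) :
    ContDiff ℝ 1 (fun w : ℂ => cu τ xs w.re w.im) := by
  have hx : ContDiff ℝ 1 xs := g17_C1 hτ hp
  have hτ1 : ContDiff ℝ 1 τ := hτ.smooth.of_le (by norm_num)
  have hre : ContDiff ℝ 1 (fun w : ℂ => w.re) := Complex.reCLM.contDiff
  have him : ContDiff ℝ 1 (fun w : ℂ => w.im) := Complex.imCLM.contDiff
  have hof : ContDiff ℝ 1 (fun x : ℝ => (x : ℂ)) := Complex.ofRealCLM.contDiff
  have h1 : ContDiff ℝ 1 (fun w : ℂ => ((xs w.re : ℝ) : ℂ)) := hof.comp (hx.comp hre)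
  have h2 : ContDiff ℝ 1 (fun w : ℂ => ((τ (xs w.re) : ℝ) : ℂ)) :=
    hof.comp (hτ1.comp (hx.comp hre))
  have h3 : ContDiff ℝ 1 (fun w : ℂ => ((w.im : ℝ) : ℂ)) := hof.comp him
  exact h1.add ((h2.mul h3).mul contDiff_const)

end CF6

end

section

/-! # G18a: calculus of locally Lipschitz functions

All on an open (or arbitrary) set `U` of `ℂ`, with neighbourhoods in the whole space.
`LL_comp`: restrict the neighbourhood by continuity of `f` at `z` (a locally Lipschitz function is continuous). `LL_of_contDiffAt`: `ContDiffAt.exists_lipschitzOnWith`. `LL_add`, `LL_mul` (bounded on a small neighbourhood), `LL_min`, `LL_max`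
(`LipschitzOnWith` versions: `|min a b - min a' b'| ≤ max |a-a'| |b-b'|`). `LL_prod`: pairs as complex numbers `X + i Z`. `LL_re`, `LL_im`: functions of one real variable composed with `re`/`im`.
`LL_inv`: `1/f`, `f > 0` continuous. `ae_diff`: Rademacher (real valued; same proof as `l1_ae_diff` in K/L1.lean). -/

open Complex MeasureTheory Set Filter Topology Metric intervalIntegral
open scoped ENNReal

namespace CF6

private lemma g18a_comp {E F G : Type*} [PseudoEMetricSpace E] [PseudoEMetricSpace F] [PseudoEMetricSpace G]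
    {f : E → F} {g : F → G} {z : E} (hf : ∃ K : NNReal, ∃ t ∈ 𝓝 z, LipschitzOnWith K f t)
    (hg : ∃ K : NNReal, ∃ t ∈ 𝓝 (f z), LipschitzOnWith K g t) :
    ∃ K : NNReal, ∃ t ∈ 𝓝 z, LipschitzOnWith K (fun x => g (f x)) t := by
  obtain ⟨K, t, ht, hL⟩ := hf
  obtain ⟨K', s, hs, hL'⟩ := hg
  have hc : ContinuousAt f z := hL.continuousOn.continuousAt ht
  exact ⟨K' * K, t ∩ f ⁻¹' s, inter_mem ht (hc hs), hL'.comp (hL.mono inter_subset_left) (fun x hx => hx.2)⟩

private lemma g18a_pair {U : Set ℂ} {f g : ℂ → ℝ} (hf : LL U f) (hg : LL U g) :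
    LL U (fun z => ((f z, g z) : ℝ × ℝ)) := by
  intro z hz
  obtain ⟨K, t, ht, hL⟩ := hf z hz
  obtain ⟨K', s, hs, hL'⟩ := hg z hz
  exact ⟨max K K', t ∩ s, inter_mem ht hs, (hL.mono inter_subset_left).prodMk (hL'.mono inter_subset_right)⟩

private lemma g18a_two {G : Type*} [PseudoEMetricSpace G] {U : Set ℂ} {f g : ℂ → ℝ} (hf : LL U f) (hg : LL U g)
    {h : ℝ × ℝ → G} (hh : ∀ p : ℝ × ℝ, ∃ K : NNReal, ∃ t ∈ 𝓝 p, LipschitzOnWith K h t) :
    LL U (fun z => h (f z, g z)) := by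
  intro z hz
  exact g18a_comp (f := fun z => ((f z, g z) : ℝ × ℝ)) (g := h) (g18a_pair hf hg z hz) (hh _)

theorem LL.continuousOn {U : Set ℂ} {f : ℂ → ℝ} (hf : LL U f) : ContinuousOn f U := by
  intro z hz
  obtain ⟨K, t, ht, hL⟩ := hf z hz
  exact (hL.continuousOn.continuousAt ht).continuousWithinAt

theorem LL_comp {U : Set ℂ} {f : ℂ → ℝ} {g : ℝ → ℝ} (hf : LL U f) (hg : LL univ g) :
    LL U (fun z => g (f z)) := by
  intro z hz
  exact g18a_comp (hf z hz) (hg (f z) (mem_univ _))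

theorem LL_compC {E : Type*} [NormedAddCommGroup E] [NormedSpace ℝ E] {U V : Set ℂ} {f : ℂ → ℂ}
    {g : ℂ → E} (hf : LL U f) (hg : LL V g) (hm : MapsTo f U V) : LL U (fun z => g (f z)) := by
  intro z hz
  exact g18a_comp (hf z hz) (hg (f z) (hm hz))

theorem LL_of_contDiffAt {E : Type*} [NormedAddCommGroup E] [NormedSpace ℝ E] {U : Set ℂ}
    {f : ℂ → E} (h : ∀ z ∈ U, ContDiffAt ℝ 1 f z) : LL U f := by
  intro z hz
  exact (h z hz).exists_lipschitzOnWith

theorem LL_real_of_contDiff {g : ℝ → ℝ} (h : ContDiff ℝ 1 g) : LL univ g := by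
  intro z _
  exact h.contDiffAt.exists_lipschitzOnWith

theorem LL_add {U : Set ℂ} {f g : ℂ → ℝ} (hf : LL U f) (hg : LL U g) :
    LL U (fun z => f z + g z) := by
  apply g18a_two hf hg (h := fun p : ℝ × ℝ => p.1 + p.2)
  intro p
  have h1 : ContDiff ℝ 1 (fun p : ℝ × ℝ => p.1 + p.2) := contDiff_fst.add contDiff_snd
  exact h1.contDiffAt.exists_lipschitzOnWith

theorem LL_mul {U : Set ℂ} {f g : ℂ → ℝ} (hf : LL U f) (hg : LL U g) :
    LL U (fun z => f z * g z) := by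
  apply g18a_two hf hg (h := fun p : ℝ × ℝ => p.1 * p.2)
  intro p
  have h1 : ContDiff ℝ 1 (fun p : ℝ × ℝ => p.1 * p.2) := contDiff_fst.mul contDiff_snd
  exact h1.contDiffAt.exists_lipschitzOnWith

theorem LL_min {U : Set ℂ} {f g : ℂ → ℝ} (hf : LL U f) (hg : LL U g) :
    LL U (fun z => min (f z) (g z)) := by
  apply g18a_two hf hg (h := fun p : ℝ × ℝ => min p.1 p.2)
  intro p
  exact ⟨1, univ, univ_mem, lipschitzWith_min.lipschitzOnWith⟩

theorem LL_max {U : Set ℂ} {f g : ℂ → ℝ} (hf : LL U f) (hg : LL U g) :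
    LL U (fun z => max (f z) (g z)) := by
  apply g18a_two hf hg (h := fun p : ℝ × ℝ => max p.1 p.2)
  intro p
  exact ⟨1, univ, univ_mem, lipschitzWith_max.lipschitzOnWith⟩

theorem LL_inv {U : Set ℂ} {f : ℂ → ℝ} (hf : LL U f) (h0 : ∀ z ∈ U, 0 < f z) :
    LL U (fun z => 1 / f z) := by
  intro z hz
  apply g18a_comp (g := fun x : ℝ => 1 / x) (hf z hz)
  have h1 : ContDiffAt ℝ 1 (fun x : ℝ => 1 / x) (f z) :=
    contDiffAt_const.div contDiffAt_id (h0 z hz).ne'
  exact h1.exists_lipschitzOnWith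

theorem LL_mk {U : Set ℂ} {f g : ℂ → ℝ} (hf : LL U f) (hg : LL U g) :
    LL U (fun z => (f z : ℂ) + g z * I) := by
  apply g18a_two hf hg (h := fun p : ℝ × ℝ => (p.1 : ℂ) + p.2 * I)
  intro p
  have h1 : ContDiff ℝ 1 (fun p : ℝ × ℝ => (p.1 : ℂ) + p.2 * I) := by
    have ha : ContDiff ℝ 1 (fun p : ℝ × ℝ => (p.1 : ℂ)) := ofRealCLM.contDiff.comp contDiff_fst
    have hb : ContDiff ℝ 1 (fun p : ℝ × ℝ => (p.2 : ℂ)) := ofRealCLM.contDiff.comp contDiff_snd
    exact ha.add (hb.mul contDiff_const)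
  exact h1.contDiffAt.exists_lipschitzOnWith

theorem LL_re {U : Set ℂ} {g : ℝ → ℝ} (hg : LL univ g) :
    LL U (fun z => g z.re) ∧ LL U (fun z => g z.im) := by
  constructor
  · intro z _
    refine g18a_comp (f := fun z : ℂ => z.re) (g := g) ⟨1, univ, univ_mem, ?_⟩ (hg _ (mem_univ _))
    have h1 : LipschitzWith 1 (fun z : ℂ => z.re) := by
      apply LipschitzWith.of_dist_le_mul
      intro x y
      rw [NNReal.coe_one, one_mul, Real.dist_eq, dist_eq_norm, ← sub_re]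
      exact abs_re_le_norm _
    exact h1.lipschitzOnWith
  · intro z _
    refine g18a_comp (f := fun z : ℂ => z.im) (g := g) ⟨1, univ, univ_mem, ?_⟩ (hg _ (mem_univ _))
    have h1 : LipschitzWith 1 (fun z : ℂ => z.im) := by
      apply LipschitzWith.of_dist_le_mul
      intro x y
      rw [NNReal.coe_one, one_mul, Real.dist_eq, dist_eq_norm, ← sub_im]
      exact abs_im_le_norm _
    exact h1.lipschitzOnWith

end CF6

end

section

/-! # G18b: Rademacher, directional bound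

All on an open (or arbitrary) set `U` of `ℂ`, with neighbourhoods in the whole space.
`LL_comp`: restrict the neighbourhood by continuity of `f` at `z` (a locally Lipschitz function is continuous). `LL_of_contDiffAt`: `ContDiffAt.exists_lipschitzOnWith`. `LL_add`, `LL_mul` (bounded on a small neighbourhood), `LL_min`, `LL_max`
(`LipschitzOnWith` versions: `|min a b - min a' b'| ≤ max |a-a'| |b-b'|`). `LL_prod`: pairs as complex numbers `X + i Z`. `LL_re`, `LL_im`: functions of one real variable composed with `re`/`im`.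
`LL_inv`: `1/f`, `f > 0` continuous. `ae_diff`: Rademacher (real valued; same proof as `l1_ae_diff` in K/L1.lean). -/

open Complex MeasureTheory Set Filter Topology Metric intervalIntegral
open scoped ENNReal

namespace CF6

theorem LL_ae_diff {U : Set ℂ} {f : ℂ → ℝ} (hf : LL U f) :
    ∀ᵐ z, z ∈ U → DifferentiableAt ℝ f z := by
  classical
  choose! K t ht hK using hf
  have hnhds : ∀ z ∈ U, interior (t z) ∈ 𝓝 z := fun z hz =>
    isOpen_interior.mem_nhds (mem_interior_iff_mem_nhds.mpr (ht z hz))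
  obtain ⟨c, hcU, hc, hcov⟩ := TopologicalSpace.countable_cover_nhdsWithin
    (f := fun z => interior (t z)) (s := U) (fun z hz => mem_nhdsWithin_of_mem_nhds (hnhds z hz))
  have hae : ∀ᵐ z, ∀ w ∈ c, z ∈ t w → DifferentiableWithinAt ℝ f (t w) z := by
    rw [ae_ball_iff hc]
    intro w hw
    exact (hK w (hcU hw)).ae_differentiableWithinAt_of_mem
  filter_upwards [hae] with z hz hzU
  obtain ⟨w, hw, hzw⟩ := mem_iUnion₂.mp (hcov hzU)
  exact (hz w hw (interior_subset hzw)).differentiableAt (mem_interior_iff_mem_nhds.mp hzw)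

/-- derivative bound in the direction `e` from a one sided Lipschitz bound at the point -/
theorem fderiv_dir_le {f : ℂ → ℝ} {z e : ℂ} {k : ℝ} (hf : DifferentiableAt ℝ f z)
    (h : ∀ᶠ r : ℝ in 𝓝 0, |f (z + r * e) - f z| ≤ k * |r|) : |fderiv ℝ f z e| ≤ k := by
  have hk : 0 ≤ k := by
    have h1 : ∀ᶠ r : ℝ in 𝓝[≠] 0, |f (z + r * e) - f z| ≤ k * |r| :=
      h.filter_mono nhdsWithin_le_nhds
    obtain ⟨r, hr, hr0⟩ := (h1.and self_mem_nhdsWithin).exists
    have h2 : 0 ≤ k * |r| := (abs_nonneg _).trans hr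
    exact nonneg_of_mul_nonneg_left h2 (abs_pos.mpr hr0)
  have h0 : HasDerivAt (fun r : ℝ => z + r * e) e 0 := by
    have := ((hasDerivAt_id (0 : ℝ)).ofReal_comp.mul_const e).const_add z
    simpa using this
  have hg : HasFDerivAt f (fderiv ℝ f z) ((fun r : ℝ => z + r * e) 0) := by
    simpa using hf.hasFDerivAt
  have h1 : HasDerivAt (fun r : ℝ => f (z + r * e)) (fderiv ℝ f z e) 0 :=
    hg.comp_hasDerivAt (0 : ℝ) h0
  have h2 := h1.le_of_lip' hk (by
    filter_upwards [h] with r hr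
    simpa using hr)
  simpa using h2

end CF6

end

section

/-! # G19a: the arc length coordinate Lam

`kap`: continuous, values in `[0,1]`, `1` for `t ≤ T-σ`, `0` for `t ≥ T - σ/2`, Lipschitz with constant `2/σ`.
`Lam_cont`: on `{0 ≤ re < T}`: the function `z ↦ if re = 0 then B0 im else lam T B0 re im` is continuous on `{0 ≤ re < 2T}` (`lam_continuousOn`); compose it with the continuous map `z ↦ min(re, T-σ) + i im` (the `if` conditions agree since `T - σ > 0`); for `re = 0` the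
second summand is `0` because `kap = 1` (the `if t = 0` is harmless).
`Lam_mono`: for `t ≤ T-σ` it is `lam_strictMono`; for `t ≥ T-σ` : `Lam = kap B + (1-kap) Bh`, `B = lam T B0 (T-σ)`, a convex combination of two strictly increasing functions. (`0 < L` from `Lay.L0`.)
`Lam_per`: `lam_per`. `Lam_last`: `kap = 0`, `min t (T-σ) = T-σ`.
`Lam_LL`: `(t,θ) ↦ lam T B0 t θ` is `C¹` on `0 < t < 2T` (`lam_eq_im`, `LcF_diff`), composed with the Lipschitz map `min(re,T-σ) + i im`; products and sums (G18).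
`Lam_der1`: near a point with `0 < re < T-σ` the function is `z ↦ lam T B0 re im = im LcF(im z - re z I)`, differentiable; compose with the lines (`lam_hasDerivAt_t`, `lam_hasDerivAt_theta`).
`Lam_der2`: for `re > T - σ` near `z`: `LamZ = B(im) + (1 - kap(re)) (Bh(im) - B(im))`; in direction `1` the increments are `≤ (2/σ)|r| |Bh - B|`; in direction `I`: `kap (B(θ')-B(θ)) + (1-kap)(Bh θ' - Bh θ)`. Use `fderiv_dir_le` (for the `B` part: bound `(v+η)|r|`
for every `η > 0`, then let `η → 0`). -/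

open Complex MeasureTheory Set Filter Topology Metric intervalIntegral
open scoped ENNReal

namespace CF6

theorem g19a_kap01 (T σ t : ℝ) : 0 ≤ kap T σ t ∧ kap T σ t ≤ 1 := by
  unfold kap
  constructor
  · exact le_max_left _ _
  · exact max_le (by norm_num) (min_le_left _ _)

theorem g19a_kap_one {T σ t : ℝ} (hσ : 0 < σ) (ht : t ≤ T - σ) : kap T σ t = 1 := by
  unfold kap
  have h : 2 * (t - (T - σ)) / σ ≤ 0 := div_nonpos_of_nonpos_of_nonneg (by linarith) hσ.le
  rw [min_eq_left (by linarith), max_eq_right (by norm_num)]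

theorem g19a_kap_zero {T σ t : ℝ} (hσ : 0 < σ) (ht : T - σ / 2 ≤ t) : kap T σ t = 0 := by
  unfold kap
  have h : 1 ≤ 2 * (t - (T - σ)) / σ := by rw [le_div_iff₀ hσ]; linarith
  exact max_eq_left ((min_le_right _ _).trans (by linarith))

theorem g19a_kap_cont (T σ : ℝ) : Continuous (kap T σ) := by
  unfold kap
  fun_prop

theorem g19a_late {T σ L : ℝ} {B0 Bh : ℝ → ℝ} (hT : 0 < T)
    (hl : Lay T σ L (lam T B0 (T - σ))) {t : ℝ} (θ : ℝ) (ht : T - σ ≤ t) :
    Lam T σ B0 Bh t θ = kap T σ t * lam T B0 (T - σ) θ + (1 - kap T σ t) * Bh θ := by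
  have h1 := hl.σT
  have h2 : t ≠ 0 := by
    intro h; rw [h] at ht; linarith
  unfold Lam
  rw [if_neg h2, min_eq_right ht]
  ring

theorem g19a_early {T σ L : ℝ} {B0 Bh : ℝ → ℝ}
    (hl : Lay T σ L (lam T B0 (T - σ))) {t : ℝ} (θ : ℝ) (h0 : t ≠ 0) (ht : t ≤ T - σ) :
    Lam T σ B0 Bh t θ = lam T B0 t θ := by
  unfold Lam
  rw [if_neg h0, min_eq_left ht, g19a_kap_one hl.σ0 ht]
  ring

theorem Lam_props {T σ L : ℝ} {B0 Bh : ℝ → ℝ} (hT : 0 < T) (hB : QP L B0)
    (hl : Lay T σ L (lam T B0 (T - σ))) (hc : Continuous Bh) (hm : StrictMono Bh)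
    (hp : ∀ θ, Bh (θ + 2 * Real.pi) = Bh θ + L) :
    ContinuousOn (LamZ T σ B0 Bh) {z | 0 ≤ z.re ∧ z.re < T} ∧
    (∀ t, 0 < t → t < T → StrictMono (Lam T σ B0 Bh t)) ∧
    (∀ t, 0 ≤ t → t < T → ∀ θ, Lam T σ B0 Bh t (θ + 2 * Real.pi) = Lam T σ B0 Bh t θ + L) ∧
    (∀ t, T - σ / 2 ≤ t → ∀ θ, Lam T σ B0 Bh t θ = Bh θ) := by
  have hσ0 := hl.σ0
  have hσT := hl.σT
  have hTσ : 0 < T - σ := by linarith
  refine ⟨?_, ?_, ?_, ?_⟩
  · have hG := lam_continuousOn hT hB
    set G : ℂ → ℝ := fun z : ℂ => if z.re = 0 then B0 z.im else lam T B0 z.re z.im with hGdef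
    have hm : Continuous fun z : ℂ => (((min z.re (T - σ) : ℝ) : ℂ) + z.im * I) := by fun_prop
    have hmre : ∀ z : ℂ, (((min z.re (T - σ) : ℝ) : ℂ) + z.im * I).re = min z.re (T - σ) := by
      intro z; simp
    have hmim : ∀ z : ℂ, (((min z.re (T - σ) : ℝ) : ℂ) + z.im * I).im = z.im := by
      intro z; simp
    have h1 : ContinuousOn (fun z : ℂ => G (((min z.re (T - σ) : ℝ) : ℂ) + z.im * I))
        {z | 0 ≤ z.re ∧ z.re < T} := by
      apply hG.comp hm.continuousOn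
      rintro z ⟨hz0, hz1⟩
      rw [Set.mem_ofPred_eq, hmre]
      exact ⟨le_min hz0 hTσ.le, lt_of_le_of_lt (min_le_left _ _) (by linarith)⟩
    have hB1 : Continuous (lam T B0 (T - σ)) := hl.B1.continuous
    have h2 : Continuous fun z : ℂ => (1 - kap T σ z.re) * (Bh z.im - lam T B0 (T - σ) z.im) := by
      have hk := (g19a_kap_cont T σ).comp Complex.continuous_re
      have hb := hc.comp Complex.continuous_im
      have hb' := hB1.comp Complex.continuous_im
      exact (continuous_const.sub hk).mul (hb.sub hb')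
    refine (h1.add h2.continuousOn).congr ?_
    rintro z ⟨hz0, hz1⟩
    unfold LamZ Lam
    simp only [hGdef, Pi.add_apply]
    rw [hmre, hmim]
    by_cases h0 : z.re = 0
    · rw [if_pos h0, h0, min_eq_left hTσ.le, if_pos rfl, g19a_kap_one hσ0 hTσ.le]
      ring
    · have hz0' : 0 < z.re := lt_of_le_of_ne hz0 (Ne.symm h0)
      have h3 : min z.re (T - σ) ≠ 0 := (lt_min hz0' hTσ).ne'
      rw [if_neg h0, if_neg h3]
  · intro t ht0 htT
    rcases le_or_gt t (T - σ) with h | h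
    · have e : Lam T σ B0 Bh t = lam T B0 t := by
        funext θ
        exact g19a_early hl θ ht0.ne' h
      rw [e]
      exact (lam_strictMono hT hl.L0 hB ht0 (by linarith)).1
    · intro θ θ' hθ
      rw [g19a_late hT hl θ h.le, g19a_late hT hl θ' h.le]
      have hBm := (lam_strictMono hT hl.L0 hB hTσ (by linarith)).1 hθ
      have hBhm := hm hθ
      obtain ⟨hk0, hk1⟩ := g19a_kap01 T σ t
      rcases eq_or_lt_of_le hk0 with hk | hk
      · rw [← hk]; linarith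
      · have e1 : kap T σ t * lam T B0 (T - σ) θ < kap T σ t * lam T B0 (T - σ) θ' :=
          mul_lt_mul_of_pos_left hBm hk
        have e2 : (1 - kap T σ t) * Bh θ ≤ (1 - kap T σ t) * Bh θ' :=
          mul_le_mul_of_nonneg_left hBhm.le (by linarith)
        linarith
  · intro t ht0 htT θ
    by_cases h0 : t = 0
    · unfold Lam
      rw [if_pos h0, if_pos h0, hB.per]
    · have ht0' : 0 < t := lt_of_le_of_ne ht0 (Ne.symm h0)
      unfold Lam
      rw [if_neg h0, if_neg h0, lam_per hT hB (lt_min ht0' hTσ)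
        (lt_of_le_of_lt (min_le_left _ _) (by linarith)), lam_per hT hB hTσ (by linarith), hp]
      ring
  · intro t ht θ
    rw [g19a_late hT hl θ (by linarith), g19a_kap_zero hσ0 ht]
    ring

/-- for `t ≥ T - σ` it lies between `B` and `Bh` -/
theorem Lam_between {T σ L : ℝ} {B0 Bh : ℝ → ℝ} (hT : 0 < T)
    (hl : Lay T σ L (lam T B0 (T - σ))) {t θ : ℝ} (ht : T - σ ≤ t) :
    min (lam T B0 (T - σ) θ) (Bh θ) ≤ Lam T σ B0 Bh t θ ∧
      Lam T σ B0 Bh t θ ≤ max (lam T B0 (T - σ) θ) (Bh θ) := by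
  rw [g19a_late hT hl θ ht]
  obtain ⟨hk0, hk1⟩ := g19a_kap01 T σ t
  set a := lam T B0 (T - σ) θ
  set b := Bh θ
  have h1 : min a b ≤ a := min_le_left _ _
  have h2 : min a b ≤ b := min_le_right _ _
  have h3 : a ≤ max a b := le_max_left _ _
  have h4 : b ≤ max a b := le_max_right _ _
  have h5 : 0 ≤ 1 - kap T σ t := by linarith
  constructor
  · have e1 := mul_le_mul_of_nonneg_left h1 hk0
    have e2 := mul_le_mul_of_nonneg_left h2 h5
    linarith
  · have e1 := mul_le_mul_of_nonneg_left h3 hk0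
    have e2 := mul_le_mul_of_nonneg_left h4 h5
    linarith

end CF6

end

section

/-! # G19b: Lam is locally Lipschitz, derivative for re < T - σ

`kap`: continuous, values in `[0,1]`, `1` for `t ≤ T-σ`, `0` for `t ≥ T - σ/2`, Lipschitz with constant `2/σ`.
`Lam_cont`: on `{0 ≤ re < T}`: the function `z ↦ if re = 0 then B0 im else lam T B0 re im` is continuous on `{0 ≤ re < 2T}` (`lam_continuousOn`); compose it with the continuous map `z ↦ min(re, T-σ) + i im` (the `if` conditions agree since `T - σ > 0`); for `re = 0` the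
second summand is `0` because `kap = 1` (the `if t = 0` is harmless).
`Lam_mono`: for `t ≤ T-σ` it is `lam_strictMono`; for `t ≥ T-σ` : `Lam = kap B + (1-kap) Bh`, `B = lam T B0 (T-σ)`, a convex combination of two strictly increasing functions. (`0 < L` from `Lay.L0`.)
`Lam_per`: `lam_per`. `Lam_last`: `kap = 0`, `min t (T-σ) = T-σ`.
`Lam_LL`: `(t,θ) ↦ lam T B0 t θ` is `C¹` on `0 < t < 2T` (`lam_eq_im`, `LcF_diff`), composed with the Lipschitz map `min(re,T-σ) + i im`; products and sums (G18).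
`Lam_der1`: near a point with `0 < re < T-σ` the function is `z ↦ lam T B0 re im = im LcF(im z - re z I)`, differentiable; compose with the lines (`lam_hasDerivAt_t`, `lam_hasDerivAt_theta`).
`Lam_der2`: for `re > T - σ` near `z`: `LamZ = B(im) + (1 - kap(re)) (Bh(im) - B(im))`; in direction `1` the increments are `≤ (2/σ)|r| |Bh - B|`; in direction `I`: `kap (B(θ')-B(θ)) + (1-kap)(Bh θ' - Bh θ)`. Use `fderiv_dir_le` (for the `B` part: bound `(v+η)|r|`
for every `η > 0`, then let `η → 0`). -/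

open Complex MeasureTheory Set Filter Topology Metric intervalIntegral
open scoped ENNReal

namespace CF6

private lemma g19b_congr {U : Set ℂ} (hU : IsOpen U) {f g : ℂ → ℝ} (h : ∀ z ∈ U, f z = g z)
    (hf : LL U f) : LL U g := by
  intro z hz
  obtain ⟨K, t, ht, hK⟩ := hf z hz
  refine ⟨K, t ∩ U, Filter.inter_mem ht (hU.mem_nhds hz), ?_⟩
  intro x hx y hy
  rw [← h x hx.2, ← h y hy.2]
  exact hK hx.1 hy.1

private lemma g19b_const {U : Set ℂ} (c : ℝ) : LL U (fun _ : ℂ => c) :=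
  LL_of_contDiffAt fun _ _ => contDiffAt_const

private lemma g19b_reC {U : Set ℂ} : LL U (fun z : ℂ => z.re) :=
  LL_of_contDiffAt fun _ _ => Complex.reCLM.contDiff.contDiffAt

private lemma g19b_imC {U : Set ℂ} : LL U (fun z : ℂ => z.im) :=
  LL_of_contDiffAt fun _ _ => Complex.imCLM.contDiff.contDiffAt

private lemma g19b_open (T : ℝ) : IsOpen (strip T) := by
  have h1 : IsOpen {z : ℂ | 0 < z.re} := isOpen_lt continuous_const Complex.continuous_re
  have h2 : IsOpen {z : ℂ | z.re < T} := isOpen_lt Complex.continuous_re continuous_const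
  exact h1.inter h2

private lemma g19b_openV (T : ℝ) : IsOpen {ζ : ℂ | -(2 * T) < ζ.im ∧ ζ.im < 0} := by
  have h1 : IsOpen {z : ℂ | -(2 * T) < z.im} := isOpen_lt continuous_const Complex.continuous_im
  have h2 : IsOpen {z : ℂ | z.im < 0} := isOpen_lt Complex.continuous_im continuous_const
  exact h1.inter h2

private lemma g19b_kap_one {T σ t : ℝ} (hσ : 0 < σ) (ht : t ≤ T - σ) : kap T σ t = 1 := by
  unfold kap
  have h1 : 2 * (t - (T - σ)) / σ ≤ 0 :=
    div_nonpos_of_nonpos_of_nonneg (by linarith) hσ.le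
  rw [min_eq_left (by linarith), max_eq_right zero_le_one]

theorem Lam_LL {T σ L : ℝ} {B0 Bh : ℝ → ℝ} (hT : 0 < T) (hB : QP L B0)
    (hl : Lay T σ L (lam T B0 (T - σ))) (hc : LL univ Bh) :
    LL (strip T) (LamZ T σ B0 Bh) := by
  have hσ0 := hl.σ0
  have hσT := hl.σT
  have hTσ : 0 < T - σ := by linarith
  -- the first summand
  have hw : LL (strip T) (fun z : ℂ => ((z.im : ℝ) : ℂ) + (((-1) * min z.re (T - σ) : ℝ) : ℂ) * I) :=
    LL_mk g19b_imC (LL_mul (g19b_const (-1)) (LL_min g19b_reC (g19b_const (T - σ))))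
  have hg : LL {ζ : ℂ | -(2 * T) < ζ.im ∧ ζ.im < 0} (fun ζ => (LcF T B0 ζ).im) := by
    apply LL_of_contDiffAt
    intro ζ hζ
    have h1 : ContDiffAt ℂ 1 (LcF T B0) ζ :=
      ((LcF_diff hT hB).contDiffOn (g19b_openV T)).contDiffAt ((g19b_openV T).mem_nhds hζ)
    have h2 : ContDiffAt ℝ 1 (LcF T B0) ζ := h1.restrict_scalars ℝ
    exact Complex.imCLM.contDiff.contDiffAt.comp ζ h2
  have h1 := LL_compC hw hg (by
    rintro z ⟨hz0, hz1⟩
    have him : (((z.im : ℝ) : ℂ) + (((-1) * min z.re (T - σ) : ℝ) : ℂ) * I).im =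
        -min z.re (T - σ) := by simp
    show -(2 * T) < _ ∧ _ < 0
    rw [him]
    have h3 : 0 < min z.re (T - σ) := lt_min hz0 hTσ
    have h4 : min z.re (T - σ) ≤ T - σ := min_le_right _ _
    constructor <;> linarith)
  -- kap
  have hk : LL (strip T) (fun z : ℂ => kap T σ z.re) := by
    unfold kap
    refine LL_max (g19b_const 0) (LL_min (g19b_const 1) ?_)
    apply LL_of_contDiffAt
    intro z _
    have : ContDiff ℝ 1 (fun z : ℂ => z.re) := Complex.reCLM.contDiff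
    exact (contDiff_const.sub ((contDiff_const.mul (this.sub contDiff_const)).div_const _)).contDiffAt
  have hBh : LL (strip T) (fun z : ℂ => Bh z.im) := (LL_re hc).2
  have hB1 : LL (strip T) (fun z : ℂ => lam T B0 (T - σ) z.im) :=
    (LL_re (LL_real_of_contDiff hl.B1)).2
  have h2 := LL_add h1 (LL_mul (LL_add (g19b_const 1) (LL_mul (g19b_const (-1)) hk))
    (LL_add hBh (LL_mul (g19b_const (-1)) hB1)))
  refine g19b_congr (g19b_open T) ?_ h2
  rintro z ⟨hz0, hz1⟩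
  unfold LamZ Lam
  rw [if_neg hz0.ne']
  have h3 : 0 < min z.re (T - σ) := lt_min hz0 hTσ
  have h4 : min z.re (T - σ) ≤ T - σ := min_le_right _ _
  rw [lam_eq_im hT hB h3 (by linarith)]
  have h5 : (((z.im : ℝ) : ℂ) + (((-1) * min z.re (T - σ) : ℝ) : ℂ) * I) =
      ((z.im : ℝ) : ℂ) - ((min z.re (T - σ) : ℝ) : ℂ) * I := by
    rw [neg_one_mul, Complex.ofReal_neg]
    ring
  rw [h5]
  ring

theorem Lam_der1 {T σ L : ℝ} {B0 Bh : ℝ → ℝ} (hT : 0 < T) (hB : QP L B0)
    (hl : Lay T σ L (lam T B0 (T - σ))) {z : ℂ} (h0 : 0 < z.re) (h1 : z.re < T - σ) :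
    DifferentiableAt ℝ (LamZ T σ B0 Bh) z ∧
      fderiv ℝ (LamZ T σ B0 Bh) z 1 = deriv (fun t => lam T B0 t z.im) z.re ∧
      fderiv ℝ (LamZ T σ B0 Bh) z I = deriv (fun θ => lam T B0 z.re θ) z.im := by
  have hσ0 := hl.σ0
  have hσT := hl.σT
  have hz2 : z.re < 2 * T := by linarith
  have hrot : ∀ w : ℂ, ((w.im : ℝ) : ℂ) - ((w.re : ℝ) : ℂ) * I = -I * w := by
    intro w
    conv_rhs => rw [← Complex.re_add_im w]
    ring_nf
    rw [Complex.I_sq]
    ring
  have heq : LamZ T σ B0 Bh =ᶠ[𝓝 z] fun w => (LcF T B0 (-I * w)).im := by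
    have h2 : ∀ᶠ w : ℂ in 𝓝 z, 0 < w.re ∧ w.re < T - σ := by
      have h3 : IsOpen {w : ℂ | 0 < w.re ∧ w.re < T - σ} :=
        (isOpen_lt continuous_const Complex.continuous_re).inter
          (isOpen_lt Complex.continuous_re continuous_const)
      exact h3.mem_nhds ⟨h0, h1⟩
    filter_upwards [h2] with w hw
    unfold LamZ Lam
    rw [if_neg hw.1.ne', g19b_kap_one hσ0 hw.2.le, min_eq_left hw.2.le, sub_self, zero_mul, add_zero,
      lam_eq_im hT hB hw.1 (by linarith [hw.2]), hrot]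
  set ζ : ℂ := -I * z with hζ
  have hζm : ζ ∈ {ζ : ℂ | -(2 * T) < ζ.im ∧ ζ.im < 0} := by
    have him : ζ.im = -z.re := by rw [hζ]; simp
    show -(2 * T) < ζ.im ∧ ζ.im < 0
    rw [him]
    constructor <;> linarith
  have hder : HasDerivAt (LcF T B0) (deriv (LcF T B0) ζ) ζ :=
    (((LcF_diff hT hB) ζ hζm).differentiableAt ((g19b_openV T).mem_nhds hζm)).hasDerivAt
  have hcomp : HasDerivAt (fun w : ℂ => LcF T B0 (-I * w)) (deriv (LcF T B0) ζ * (-I)) z := by
    have h3 : HasDerivAt (fun w : ℂ => -I * w) (-I) z := by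
      simpa using (hasDerivAt_id z).const_mul (-I)
    exact HasDerivAt.comp z hder h3
  have hfd := Complex.imCLM.hasFDerivAt.comp z ((hcomp.hasFDerivAt).restrictScalars ℝ)
  have hfd2 := hfd.congr_of_eventuallyEq heq
  have hζ' : ((z.im : ℝ) : ℂ) - ((z.re : ℝ) : ℂ) * I = ζ := hrot z
  refine ⟨hfd2.differentiableAt, ?_, ?_⟩
  · rw [hfd2.fderiv, (lam_hasDerivAt_t hT hB h0 hz2 z.im).deriv, hζ']
    simp
  · rw [hfd2.fderiv, (lam_hasDerivAt_theta hT hB h0 hz2 z.im).deriv, hζ']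
    simp

end CF6

end

section

/-! # G19c: derivative of Lam for re > T - σ

`kap`: continuous, values in `[0,1]`, `1` for `t ≤ T-σ`, `0` for `t ≥ T - σ/2`, Lipschitz with constant `2/σ`.
`Lam_cont`: on `{0 ≤ re < T}`: the function `z ↦ if re = 0 then B0 im else lam T B0 re im` is continuous on `{0 ≤ re < 2T}` (`lam_continuousOn`); compose it with the continuous map `z ↦ min(re, T-σ) + i im` (the `if` conditions agree since `T - σ > 0`); for `re = 0` the
second summand is `0` because `kap = 1` (the `if t = 0` is harmless).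
`Lam_mono`: for `t ≤ T-σ` it is `lam_strictMono`; for `t ≥ T-σ` : `Lam = kap B + (1-kap) Bh`, `B = lam T B0 (T-σ)`, a convex combination of two strictly increasing functions. (`0 < L` from `Lay.L0`.)
`Lam_per`: `lam_per`. `Lam_last`: `kap = 0`, `min t (T-σ) = T-σ`.
`Lam_LL`: `(t,θ) ↦ lam T B0 t θ` is `C¹` on `0 < t < 2T` (`lam_eq_im`, `LcF_diff`), composed with the Lipschitz map `min(re,T-σ) + i im`; products and sums (G18).
`Lam_der1`: near a point with `0 < re < T-σ` the function is `z ↦ lam T B0 re im = im LcF(im z - re z I)`, differentiable; compose with the lines (`lam_hasDerivAt_t`, `lam_hasDerivAt_theta`).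
`Lam_der2`: for `re > T - σ` near `z`: `LamZ = B(im) + (1 - kap(re)) (Bh(im) - B(im))`; in direction `1` the increments are `≤ (2/σ)|r| |Bh - B|`; in direction `I`: `kap (B(θ')-B(θ)) + (1-kap)(Bh θ' - Bh θ)`. Use `fderiv_dir_le` (for the `B` part: bound `(v+η)|r|`
for every `η > 0`, then let `η → 0`). -/

open Complex MeasureTheory Set Filter Topology Metric intervalIntegral
open scoped ENNReal

namespace CF6

theorem g19c_kap_lip {T σ : ℝ} (hσ : 0 < σ) (x y : ℝ) : |kap T σ x - kap T σ y| ≤ 2 / σ * |x - y| := by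
  unfold kap
  refine (abs_max_sub_max_le_max _ _ _ _).trans ?_
  rw [sub_self, abs_zero]
  refine max_le (by positivity) ?_
  refine (abs_min_sub_min_le_max _ _ _ _).trans ?_
  rw [sub_self, abs_zero]
  refine max_le (by positivity) ?_
  have e : 1 - 2 * (x - (T - σ)) / σ - (1 - 2 * (y - (T - σ)) / σ) = -(2 / σ * (x - y)) := by
    field_simp
    ring
  rw [e, abs_neg, abs_mul, abs_of_pos (by positivity : 0 < 2 / σ)]

theorem g19c_kap_mem (T σ x : ℝ) : 0 ≤ kap T σ x ∧ kap T σ x ≤ 1 := by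
  unfold kap
  exact ⟨le_max_left _ _, max_le (by norm_num) (min_le_left _ _)⟩

theorem g19c_kap_zero {T σ x : ℝ} (hσ : 0 < σ) (hx : T - σ / 2 < x) : kap T σ x = 0 := by
  unfold kap
  apply max_eq_left
  refine (min_le_right _ _).trans ?_
  have : 1 ≤ 2 * (x - (T - σ)) / σ := by
    rw [le_div_iff₀ hσ]
    linarith
  linarith

theorem Lam_der2 {T σ L : ℝ} {B0 Bh : ℝ → ℝ} (hT : 0 < T) (hB : QP L B0)
    (hl : Lay T σ L (lam T B0 (T - σ))) {z : ℂ} (h0 : T - σ < z.re) (h1 : z.re < T) {k : ℝ}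
    (hd : DifferentiableAt ℝ (LamZ T σ B0 Bh) z)
    (hk : ∀ᶠ θ' in 𝓝 z.im, |Bh θ' - Bh z.im| ≤ k * |θ' - z.im|) :
    |fderiv ℝ (LamZ T σ B0 Bh) z 1| ≤ 2 / σ * |Bh z.im - lam T B0 (T - σ) z.im| ∧
      |fderiv ℝ (LamZ T σ B0 Bh) z I| ≤ deriv (lam T B0 (T - σ)) z.im + k ∧
      (T - σ / 2 < z.re → fderiv ℝ (LamZ T σ B0 Bh) z 1 = 0) := by
  have hσ := hl.σ0
  have hσT := hl.σT
  set B : ℝ → ℝ := lam T B0 (T - σ) with hBdef
  have hval : ∀ z' : ℂ, T - σ < z'.re → LamZ T σ B0 Bh z' =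
      B z'.im + (1 - kap T σ z'.re) * (Bh z'.im - B z'.im) := by
    intro z' hz'
    unfold LamZ Lam
    rw [if_neg (show ¬ z'.re = 0 by intro h; linarith), min_eq_right hz'.le]
  -- small increments
  have hnear : ∀ᶠ r : ℝ in 𝓝 0, T - σ < z.re + r := by
    have : Tendsto (fun r : ℝ => z.re + r) (𝓝 0) (𝓝 (z.re + 0)) := by
      exact (continuous_const.add continuous_id).tendsto 0
    rw [add_zero] at this
    exact this.eventually (lt_mem_nhds h0)
  have hdir1 : ∀ᶠ r : ℝ in 𝓝 0, LamZ T σ B0 Bh (z + r * 1) - LamZ T σ B0 Bh z =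
      (kap T σ z.re - kap T σ (z.re + r)) * (Bh z.im - B z.im) := by
    filter_upwards [hnear] with r hr
    have hre : (z + r * 1 : ℂ).re = z.re + r := by simp
    have him : (z + r * 1 : ℂ).im = z.im := by simp
    rw [hval z h0, hval (z + r * 1) (by rw [hre]; exact hr), hre, him]
    ring
  refine ⟨?_, ?_, ?_⟩
  · apply fderiv_dir_le hd
    filter_upwards [hdir1] with r hr
    rw [hr, abs_mul]
    have h2 := g19c_kap_lip (T := T) hσ z.re (z.re + r)
    have h3 : |z.re - (z.re + r)| = |r| := by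
      rw [show z.re - (z.re + r) = -r by ring, abs_neg]
    rw [h3] at h2
    calc |kap T σ z.re - kap T σ (z.re + r)| * |Bh z.im - B z.im| ≤
        (2 / σ * |r|) * |Bh z.im - B z.im| := mul_le_mul_of_nonneg_right h2 (abs_nonneg _)
      _ = 2 / σ * |Bh z.im - B z.im| * |r| := by ring
  · -- direction I
    have hBd : HasDerivAt B (deriv B z.im) z.im :=
      (hl.B1.differentiable (by norm_num) z.im).hasDerivAt
    have hBpos := hl.pos z.im
    apply le_of_forall_pos_le_add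
    intro η hη
    apply fderiv_dir_le hd
    have hsm : Tendsto (fun r : ℝ => z.im + r) (𝓝 0) (𝓝 z.im) := by
      have : Tendsto (fun r : ℝ => z.im + r) (𝓝 0) (𝓝 (z.im + 0)) :=
        (continuous_const.add continuous_id).tendsto 0
      rwa [add_zero] at this
    have hk' : ∀ᶠ r : ℝ in 𝓝 0, |Bh (z.im + r) - Bh z.im| ≤ k * |r| := by
      have := hsm.eventually hk
      filter_upwards [this] with r hr
      rwa [add_sub_cancel_left] at hr
    have hB' : ∀ᶠ r : ℝ in 𝓝 0, |B (z.im + r) - B z.im| ≤ (deriv B z.im + η) * |r| := by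
      have h2 := hBd.isLittleO.def hη
      have h3 := hsm.eventually h2
      filter_upwards [h3] with r hr
      rw [add_sub_cancel_left, smul_eq_mul, Real.norm_eq_abs, Real.norm_eq_abs] at hr
      have h4 : B (z.im + r) - B z.im = (B (z.im + r) - B z.im - r * deriv B z.im) + r * deriv B z.im := by
        ring
      rw [h4]
      refine (abs_add_le _ _).trans ?_
      rw [abs_mul, abs_of_pos hBpos]
      linarith
    filter_upwards [hk', hB'] with r hr1 hr2
    have hre : (z + r * I : ℂ).re = z.re := by simp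
    have him : (z + r * I : ℂ).im = z.im + r := by simp
    obtain ⟨q0, q1⟩ := g19c_kap_mem T σ z.re
    rw [hval z h0, hval (z + r * I) (by rw [hre]; exact h0), hre, him]
    have e : B (z.im + r) + (1 - kap T σ z.re) * (Bh (z.im + r) - B (z.im + r)) -
        (B z.im + (1 - kap T σ z.re) * (Bh z.im - B z.im)) =
        kap T σ z.re * (B (z.im + r) - B z.im) + (1 - kap T σ z.re) * (Bh (z.im + r) - Bh z.im) := by
      ring
    rw [e]
    refine (abs_add_le _ _).trans ?_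
    rw [abs_mul, abs_mul, abs_of_nonneg q0, abs_of_nonneg (by linarith : 0 ≤ 1 - kap T σ z.re)]
    have p1 : kap T σ z.re * |B (z.im + r) - B z.im| ≤ |B (z.im + r) - B z.im| :=
      mul_le_of_le_one_left (abs_nonneg _) q1
    have p2 : (1 - kap T σ z.re) * |Bh (z.im + r) - Bh z.im| ≤ |Bh (z.im + r) - Bh z.im| :=
      mul_le_of_le_one_left (abs_nonneg _) (by linarith)
    nlinarith
  · intro hz
    have hnear2 : ∀ᶠ r : ℝ in 𝓝 0, T - σ / 2 < z.re + r := by
      have : Tendsto (fun r : ℝ => z.re + r) (𝓝 0) (𝓝 (z.re + 0)) :=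
        (continuous_const.add continuous_id).tendsto 0
      rw [add_zero] at this
      exact this.eventually (lt_mem_nhds hz)
    have : |fderiv ℝ (LamZ T σ B0 Bh) z 1| ≤ 0 := by
      apply fderiv_dir_le hd
      filter_upwards [hdir1, hnear2] with r hr1 hr2
      rw [hr1, g19c_kap_zero hσ hz, g19c_kap_zero hσ hr2]
      simp
    exact abs_nonpos_iff.1 this

end CF6

end

section

/-! # G20a: Ai and Bh -/

open Complex MeasureTheory Set Filter Topology Metric intervalIntegral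
open scoped ENNReal

namespace CF6

theorem g20a_strictMono {C S L : ℝ} {W A : ℝ → ℝ} {M : ℝ → ℝ≥0∞} (h : Tgt C S L W A M) :
    StrictMono A :=
  strictMono_of_deriv_pos fun s => lt_of_lt_of_le (h.Wpos s) (h.Alo s)

/-- increments of `A` on a unit ball -/
theorem g20a_near {C S L : ℝ} {W A : ℝ → ℝ} {M : ℝ → ℝ≥0∞} (h : Tgt C S L W A M) {x y : ℝ}
    (hxy : |x - y| ≤ 1) : |A x - A y| ≤ 2 * Real.exp C * W y := by
  have hC : 0 ≤ C := by linarith [h.C1]
  have hd : Differentiable ℝ A := h.A1.differentiable (by norm_num)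
  have hb : ∀ s ∈ closedBall y 1, ‖deriv A s‖ ≤ 2 * Real.exp C * W y := by
    intro s hs
    rw [mem_closedBall, Real.dist_eq] at hs
    have h1 := W_compare h y s
    have h2 : Real.exp (C * |s - y|) ≤ Real.exp C := Real.exp_le_exp.2 (by nlinarith)
    have h3 := h.Wpos y
    have h4 : 0 < deriv A s := lt_of_lt_of_le (h.Wpos s) (h.Alo s)
    rw [Real.norm_eq_abs, abs_of_pos h4]
    have h5 := h.Ahi s
    have h6 : Real.exp (C * |s - y|) * W y ≤ Real.exp C * W y :=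
      mul_le_mul_of_nonneg_right h2 h3.le
    linarith
  have hy : y ∈ closedBall y 1 := mem_closedBall_self zero_le_one
  have hx : x ∈ closedBall y 1 := by rw [mem_closedBall, Real.dist_eq]; exact hxy
  have := (convex_closedBall y 1).norm_image_sub_le_of_norm_deriv_le
    (fun s _ => hd s) hb hy hx
  rw [Real.norm_eq_abs, Real.norm_eq_abs] at this
  have h7 : 0 < 2 * Real.exp C * W y := by
    have := h.Wpos y
    positivity
  nlinarith

/-- local increments of `A` -/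
theorem g20a_loc {C S L : ℝ} {W A : ℝ → ℝ} {M : ℝ → ℝ≥0∞} (h : Tgt C S L W A M) (y : ℝ) :
    ∀ᶠ x in 𝓝 y, |A x - A y| ≤ 3 * W y * |x - y| := by
  have hd : HasDerivAt A (deriv A y) y := (h.A1.differentiable (by norm_num) y).hasDerivAt
  have h1 := (hasDerivAt_iff_isLittleO.1 hd).def (h.Wpos y)
  filter_upwards [h1] with x hx
  rw [Real.norm_eq_abs, Real.norm_eq_abs, smul_eq_mul] at hx
  have h2 := h.Ahi y
  have h3 : 0 < deriv A y := lt_of_lt_of_le (h.Wpos y) (h.Alo y)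
  have h4 : |(x - y) * deriv A y| ≤ 2 * W y * |x - y| := by
    rw [abs_mul, abs_of_pos h3, mul_comm]
    exact mul_le_mul_of_nonneg_right h2 (abs_nonneg _)
  have h5 : |A x - A y| ≤ |A x - A y - (x - y) * deriv A y| + |(x - y) * deriv A y| := by
    have := abs_add_le (A x - A y - (x - y) * deriv A y) ((x - y) * deriv A y)
    rwa [sub_add_cancel] at this
  linarith

section
variable {Φ : ℂ → ℂ} {τ xs : ℝ → ℝ} {S L C T σ c : ℝ} {B0 S0 Sh hh Ai : ℝ → ℝ}

theorem FD.Ai_facts (F : FD Φ τ xs S L C T σ c B0 S0 Sh hh Ai) :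
    (∀ s, Ai (gA Φ τ xs s) = s) ∧ StrictMono Ai ∧ (∀ a, Ai (a + L) = Ai a + S) ∧
      (∀ a, HasDerivAt Ai (1 / deriv (gA Φ τ xs) (Ai a)) a) ∧ ContDiff ℝ 1 Ai := by
  obtain ⟨Ai', h1, h2, h3, h4, h5⟩ := CF6.Ai_facts F.tgt
  have he : Ai = Ai' := by
    funext a
    have := h2 (Ai a)
    rw [F.Aieq a] at this
    exact this.symm
  rw [he]
  refine ⟨h2, h3, h4, h5, ?_⟩
  rw [contDiff_one_iff_deriv]
  have hd : Differentiable ℝ Ai' := fun a => (h5 a).differentiableAt
  refine ⟨hd, ?_⟩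
  have hder : deriv Ai' = fun a => 1 / deriv (gA Φ τ xs) (Ai' a) := by
    funext a
    exact (h5 a).deriv
  rw [hder]
  have hc : Continuous (deriv (gA Φ τ xs)) := F.tgt.A1.continuous_deriv le_rfl
  exact continuous_const.div (hc.comp hd.continuous)
    (fun a => (lt_of_lt_of_le (F.tgt.Wpos _) (F.tgt.Alo _)).ne')

theorem FD.Bh_facts (F : FD Φ τ xs S L C T σ c B0 S0 Sh hh Ai) :
    StrictMono (fun θ => gA Φ τ xs (Sh θ)) ∧ Continuous (fun θ => gA Φ τ xs (Sh θ)) ∧
      (∀ θ, gA Φ τ xs (Sh (θ + 2 * Real.pi)) = gA Φ τ xs (Sh θ) + L) ∧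
      LL univ (fun θ => gA Φ τ xs (Sh θ)) ∧
      (∀ θ, |gA Φ τ xs (Sh θ) - lam T B0 (T - σ) θ| ≤ 2 * Real.exp C * gD Φ τ xs (S0 θ) 1) ∧
      (∀ θ, ∀ᶠ θ' in 𝓝 θ, |gA Φ τ xs (Sh θ') - gA Φ τ xs (Sh θ)| ≤
        3 * C * Real.exp C * (deriv (lam T B0 (T - σ)) θ + gD Φ τ xs (S0 θ) 1 / σ) * |θ' - θ|) := by
  have hC1 := F.tgt.C1
  obtain ⟨K, hK⟩ := F.rep.lip
  have hShc : Continuous Sh := hK.continuous
  refine ⟨(g20a_strictMono F.tgt).comp F.rep.mono, F.tgt.A1.continuous.comp hShc, ?_, ?_, ?_, ?_⟩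
  · intro θ
    rw [F.rep.per, F.tgt.Aper]
  · intro θ _
    obtain ⟨K', t, ht, hL⟩ := LL_real_of_contDiff F.tgt.A1 (Sh θ) (mem_univ _)
    refine ⟨K' * K, Sh ⁻¹' t, hShc.continuousAt.preimage_mem_nhds ht, ?_⟩
    exact hL.comp hK.lipschitzOnWith (fun x hx => hx)
  · intro θ
    rw [← F.S0eq θ]
    exact g20a_near F.tgt (F.rep.near θ)
  · intro θ
    have h1 := hShc.continuousAt.eventually (g20a_loc F.tgt (Sh θ))
    have hW0 : 0 < gD Φ τ xs (S0 θ) 1 := F.tgt.Wpos (S0 θ)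
    have hv : 0 < deriv (lam T B0 (T - σ)) θ := F.lay.pos θ
    have hσ := F.lay.σ0
    have h2 : gD Φ τ xs (Sh θ) 1 ≤ Real.exp C * gD Φ τ xs (S0 θ) 1 := by
      have h3 := W_compare F.tgt (S0 θ) (Sh θ)
      have h4 : Real.exp (C * |Sh θ - S0 θ|) ≤ Real.exp C :=
        Real.exp_le_exp.2 (by nlinarith [F.rep.near θ])
      exact h3.trans (mul_le_mul_of_nonneg_right h4 hW0.le)
    filter_upwards [h1, F.rep.loc θ] with θ' h3 h4
    have h3 : |gA Φ τ xs (Sh θ') - gA Φ τ xs (Sh θ)| ≤ 3 * gD Φ τ xs (Sh θ) 1 * |Sh θ' - Sh θ| := h3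
    have h4 : |Sh θ' - Sh θ| ≤ C * (deriv (lam T B0 (T - σ)) θ / gD Φ τ xs (S0 θ) 1 + 1 / σ) *
        |θ' - θ| := h4
    have h5 : 0 ≤ |Sh θ' - Sh θ| := abs_nonneg _
    have h6 : 3 * gD Φ τ xs (Sh θ) 1 * |Sh θ' - Sh θ| ≤
        3 * (Real.exp C * gD Φ τ xs (S0 θ) 1) *
          (C * (deriv (lam T B0 (T - σ)) θ / gD Φ τ xs (S0 θ) 1 + 1 / σ) * |θ' - θ|) := by
      refine mul_le_mul (by linarith) h4 h5 (by positivity)
    refine h3.trans (h6.trans (le_of_eq ?_))
    field_simp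

end

end CF6

end

section

/-! # G20b: the coordinate XZ

`Ai` is the inverse of `gA` (`Ai_facts` gives one inverse, inverses are unique because `gA` is injective): strictly increasing, `C¹`, `HasDerivAt Ai (1/deriv gA (Ai a)) a`, `Ai (a+L) = Ai a + S`.
`Bh = gA ∘ Sh`: strictly increasing, continuous, `Bh (θ+2π) = Bh θ + L`, locally Lipschitz.
`Bh_loc`: `|Bh θ' - Bh θ| ≤ (deriv gA + η) |Sh θ' - Sh θ| ≤ 3 W(Sh θ) C (v/W(S0)+1/σ) |θ'-θ|` for `θ'` near `θ`, `W(Sh θ) ≤ e^C W(S0 θ)` (`W_compare`, `|Sh - S0| ≤ 1`): constant `3 C e^C`.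
`Bh_near`: `|Bh θ - B θ| = |gA (Sh θ) - gA (S0 θ)| ≤ 2 e^C W(S0 θ)`.
`XZ_near`: `Lam_between`, monotonicity of `Ai`, `Ai (B θ) = S0 θ`, `Ai (Bh θ) = Sh θ`, `|Sh θ - S0 θ| ≤ 1`.
`XZ_der`: `XZ = Ai ∘ LamZ`, chain rule; conversely `LamZ = gA ∘ XZ`, so `XZ` and `LamZ` are differentiable at the same points.
`ZZ_facts`: `hh` Lipschitz (constant `C+1`), `hh ≤ σ/2 ≤ T/4`. On the open set `T - re > hh(im)`: `ZZ = 1 - c + c (T-re)/T`. On `T - re ≤ hh(im)`: increments in direction 1 at most `((1-c)/hh + c/T)|r|`; in direction `I` at most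
`(1-c)(T-re)|1/hh θ' - 1/hh θ| ≤ (C+1)|r|/hh θ' ≤ 2(C+1)|r|/hh θ` (`min 1 ·` is 1-Lipschitz). -/

open Complex MeasureTheory Set Filter Topology Metric intervalIntegral
open scoped ENNReal

namespace CF6

section
variable {Φ : ℂ → ℂ} {τ xs : ℝ → ℝ} {S L C T σ c : ℝ} {B0 S0 Sh hh Ai : ℝ → ℝ}

theorem FD.XZ_facts (F : FD Φ τ xs S L C T σ c B0 S0 Sh hh Ai) :
    ContinuousOn (XZ Φ τ xs T σ B0 Sh Ai) {z | 0 ≤ z.re ∧ z.re < T} ∧
    LL (strip T) (XZ Φ τ xs T σ B0 Sh Ai) ∧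
    (∀ z : ℂ, 0 ≤ z.re → z.re < T →
      XZ Φ τ xs T σ B0 Sh Ai (z + 2 * Real.pi * I) = XZ Φ τ xs T σ B0 Sh Ai z + S) ∧
    (∀ z : ℂ, T - σ ≤ z.re → |XZ Φ τ xs T σ B0 Sh Ai z - S0 z.im| ≤ 1) ∧
    (∀ z : ℂ, T - σ / 2 ≤ z.re → XZ Φ τ xs T σ B0 Sh Ai z = Sh z.im) := by
  obtain ⟨hAi, Aimono, Aiper, -, AiC1⟩ := F.Ai_facts
  obtain ⟨Bm, Bc, Bp, BLL, -, -⟩ := F.Bh_facts
  obtain ⟨Lc, Lmono, Lper, Llast⟩ := Lam_props (Bh := fun θ => gA Φ τ xs (Sh θ)) F.Tpos F.qp
    F.lay Bc Bm Bp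
  have hLL := Lam_LL (Bh := fun θ => gA Φ τ xs (Sh θ)) F.Tpos F.qp F.lay BLL
  refine ⟨?_, ?_, ?_, ?_, ?_⟩
  · exact AiC1.continuous.comp_continuousOn Lc
  · exact LL_comp hLL (LL_real_of_contDiff AiC1)
  · intro z h0 h1
    unfold XZ
    have e1 : (z + 2 * Real.pi * I).re = z.re := by simp
    have e2 : (z + 2 * Real.pi * I).im = z.im + 2 * Real.pi := by simp
    rw [e1, e2, Lper z.re h0 h1, Aiper]
  · intro z hz
    obtain ⟨h1, h2⟩ := Lam_between (B0 := B0) (Bh := fun θ => gA Φ τ xs (Sh θ)) F.Tpos F.lay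
      (t := z.re) (θ := z.im) hz
    have e1 : Ai (lam T B0 (T - σ) z.im) = S0 z.im := by
      rw [← F.S0eq z.im]; exact hAi _
    have e2 : Ai (gA Φ τ xs (Sh z.im)) = Sh z.im := hAi _
    have h3 := Aimono.monotone h1
    have h4 := Aimono.monotone h2
    rw [Aimono.monotone.map_min, e1, e2] at h3
    rw [Aimono.monotone.map_max, e1, e2] at h4
    have h5 := abs_le.1 (F.rep.near z.im)
    have h6 : XZ Φ τ xs T σ B0 Sh Ai z =
      Ai (Lam T σ B0 (fun θ => gA Φ τ xs (Sh θ)) z.re z.im) := rfl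
    rw [← h6] at h3 h4
    rw [abs_le]
    constructor
    · rcases min_choice (S0 z.im) (Sh z.im) with h | h <;> rw [h] at h3 <;> linarith [h5.1, h5.2]
    · rcases max_choice (S0 z.im) (Sh z.im) with h | h <;> rw [h] at h4 <;> linarith [h5.1, h5.2]
  · intro z hz
    unfold XZ
    rw [Llast z.re hz z.im]
    exact hAi _

theorem FD.XZ_der (F : FD Φ τ xs S L C T σ c B0 S0 Sh hh Ai) {z : ℂ} (hz : z ∈ strip T)
    (hd : DifferentiableAt ℝ (XZ Φ τ xs T σ B0 Sh Ai) z) :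
    DifferentiableAt ℝ (LamZ T σ B0 (fun θ => gA Φ τ xs (Sh θ))) z ∧
    ∀ e : ℂ, fderiv ℝ (XZ Φ τ xs T σ B0 Sh Ai) z e =
      fderiv ℝ (LamZ T σ B0 (fun θ => gA Φ τ xs (Sh θ))) z e /
        deriv (gA Φ τ xs) (XZ Φ τ xs T σ B0 Sh Ai z) := by
  obtain ⟨hAi, Aimono, -, Aider, AiC1⟩ := F.Ai_facts
  have hg : ∀ s, DifferentiableAt ℝ (gA Φ τ xs) s := fun s =>
    (F.tgt.A1.differentiable one_ne_zero) s
  have hL : LamZ T σ B0 (fun θ => gA Φ τ xs (Sh θ)) =
      fun z => gA Φ τ xs (XZ Φ τ xs T σ B0 Sh Ai z) := by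
    funext w
    unfold XZ
    rw [F.Aieq]
    rfl
  have hdL : DifferentiableAt ℝ (LamZ T σ B0 (fun θ => gA Φ τ xs (Sh θ))) z := by
    rw [hL]
    exact (hg _).comp z hd
  refine ⟨hdL, ?_⟩
  intro e
  have hpos : 0 < deriv (gA Φ τ xs) (XZ Φ τ xs T σ B0 Sh Ai z) :=
    (F.tgt.Wpos _).trans_le (F.tgt.Alo _)
  have h1 : HasFDerivAt (fun z => gA Φ τ xs (XZ Φ τ xs T σ B0 Sh Ai z))
      (deriv (gA Φ τ xs) (XZ Φ τ xs T σ B0 Sh Ai z) • fderiv ℝ (XZ Φ τ xs T σ B0 Sh Ai) z) z :=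
    (hg _).hasDerivAt.comp_hasFDerivAt z hd.hasFDerivAt
  rw [hL, h1.fderiv]
  simp only [ContinuousLinearMap.smul_apply, smul_eq_mul]
  field_simp

end

end CF6

end

section

/-! # G20c: the coordinate ZZ

`Ai` is the inverse of `gA` (`Ai_facts` gives one inverse, inverses are unique because `gA` is injective): strictly increasing, `C¹`, `HasDerivAt Ai (1/deriv gA (Ai a)) a`, `Ai (a+L) = Ai a + S`.
`Bh = gA ∘ Sh`: strictly increasing, continuous, `Bh (θ+2π) = Bh θ + L`, locally Lipschitz.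
`Bh_loc`: `|Bh θ' - Bh θ| ≤ (deriv gA + η) |Sh θ' - Sh θ| ≤ 3 W(Sh θ) C (v/W(S0)+1/σ) |θ'-θ|` for `θ'` near `θ`, `W(Sh θ) ≤ e^C W(S0 θ)` (`W_compare`, `|Sh - S0| ≤ 1`): constant `3 C e^C`.
`Bh_near`: `|Bh θ - B θ| = |gA (Sh θ) - gA (S0 θ)| ≤ 2 e^C W(S0 θ)`.
`XZ_near`: `Lam_between`, monotonicity of `Ai`, `Ai (B θ) = S0 θ`, `Ai (Bh θ) = Sh θ`, `|Sh θ - S0 θ| ≤ 1`.
`XZ_der`: `XZ = Ai ∘ LamZ`, chain rule; conversely `LamZ = gA ∘ XZ`, so `XZ` and `LamZ` are differentiable at the same points.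
`ZZ_facts`: `hh` Lipschitz (constant `C+1`), `hh ≤ σ/2 ≤ T/4`. On the open set `T - re > hh(im)`: `ZZ = 1 - c + c (T-re)/T`. On `T - re ≤ hh(im)`: increments in direction 1 at most `((1-c)/hh + c/T)|r|`; in direction `I` at most
`(1-c)(T-re)|1/hh θ' - 1/hh θ| ≤ (C+1)|r|/hh θ' ≤ 2(C+1)|r|/hh θ` (`min 1 ·` is 1-Lipschitz). -/

open Complex MeasureTheory Set Filter Topology Metric intervalIntegral
open scoped ENNReal

namespace CF6

section
variable {Φ : ℂ → ℂ} {τ xs : ℝ → ℝ} {S L C T σ c : ℝ} {B0 S0 Sh hh Ai : ℝ → ℝ}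

theorem FD.hh_facts (F : FD Φ τ xs S L C T σ c B0 S0 Sh hh Ai) :
    (∀ θ, 0 < hh θ ∧ hh θ ≤ σ / 2) ∧ (∀ θ, hh (θ + 2 * Real.pi) = hh θ) ∧ Continuous hh ∧
      (∀ θ θ', |hh θ - hh θ'| ≤ (C + 1) * |θ - θ'|) ∧ ∃ m > 0, ∀ θ, m ≤ hh θ := by
  obtain ⟨h1, h2, h3, h4⟩ := CF6.hh_facts F.tgt F.lay F.S0eq F.hheq
  refine ⟨h1, h2, ?_, h3, h4⟩
  have hC : 0 ≤ C + 1 := by linarith [F.tgt.C1]
  have h5 : LipschitzWith (C + 1).toNNReal hh := by
    refine LipschitzWith.of_dist_le_mul fun θ θ' => ?_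
    rw [Real.coe_toNNReal _ hC, Real.dist_eq, Real.dist_eq]
    exact h3 θ θ'
  exact h5.continuous

theorem g20c_LL (F : FD Φ τ xs S L C T σ c B0 S0 Sh hh Ai) : LL univ hh := by
  intro θ _
  have hC : 0 ≤ C + 1 := by linarith [F.tgt.C1]
  refine ⟨(C + 1).toNNReal, univ, univ_mem, ?_⟩
  refine LipschitzOnWith.of_dist_le_mul fun x _ y _ => ?_
  rw [Real.coe_toNNReal _ hC, Real.dist_eq, Real.dist_eq]
  exact F.hh_facts.2.2.2.1 x y

theorem g20c_const (U : Set ℂ) (a : ℝ) : LL U (fun _ => a) :=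
  LL_of_contDiffAt fun _ _ => contDiffAt_const

theorem g20c_re (U : Set ℂ) (T : ℝ) : LL U (fun z => T - z.re) :=
  LL_of_contDiffAt fun _ _ => contDiffAt_const.sub Complex.reCLM.contDiff.contDiffAt

theorem g20c_one (F : FD Φ τ xs S L C T σ c B0 S0 Sh hh Ai) {z : ℂ}
    (h : hh z.im ≤ T - z.re) : ZZ T c hh z = 1 - c * z.re / T := by
  have hT := F.Tpos.ne'
  have h1 := (F.hh_facts.1 z.im).1
  rw [ZZ, Zf, min_eq_left ((one_le_div h1).2 h)]
  field_simp
  ring

theorem FD.ZZ_facts (F : FD Φ τ xs S L C T σ c B0 S0 Sh hh Ai) :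
    ContinuousOn (ZZ T c hh) {z | 0 ≤ z.re ∧ z.re < T} ∧ LL (strip T) (ZZ T c hh) ∧
    (∀ z ∈ strip T, 0 < ZZ T c hh z ∧ ZZ T c hh z < 1) ∧
    (∀ z : ℂ, z.re = 0 → ZZ T c hh z = 1) ∧
    (∀ z : ℂ, ZZ T c hh (z + 2 * Real.pi * I) = ZZ T c hh z) ∧
    (∀ z ∈ strip T, hh z.im ≤ T - z.re → ZZ T c hh z = 1 - c * z.re / T ∧ 1 - c ≤ ZZ T c hh z) := by
  obtain ⟨h1, h2, h3, -, -⟩ := F.hh_facts
  have hT := F.Tpos
  have hc0 := F.c0
  have hc1 := F.c1
  have hσ := F.lay.σT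
  refine ⟨?_, ?_, ?_, ?_, ?_, ?_⟩
  · refine Continuous.continuousOn ?_
    unfold ZZ Zf
    refine Continuous.add (continuous_const.mul (continuous_const.min (Continuous.div₀
      (continuous_const.sub Complex.continuous_re) (h3.comp Complex.continuous_im)
      fun z => (h1 z.im).1.ne'))) ?_
    exact (continuous_const.mul (continuous_const.sub Complex.continuous_re)).div_const T
  · have e1 : LL (strip T) (fun z => hh z.im) := (LL_re (g20c_LL F)).2
    have e2 := LL_inv e1 fun z _ => (h1 z.im).1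
    have e3 := LL_mul (g20c_re (strip T) T) e2
    have e4 := LL_mul (g20c_const (strip T) (1 - c)) (LL_min (g20c_const (strip T) 1) e3)
    have e5 := LL_mul (g20c_const (strip T) (c / T)) (g20c_re (strip T) T)
    have e6 := LL_add e4 e5
    have e7 : ZZ T c hh = fun z => (1 - c) * min 1 ((T - z.re) * (1 / hh z.im)) +
        c / T * (T - z.re) := by
      funext z
      rw [ZZ, Zf, mul_one_div, div_mul_eq_mul_div]
    rw [e7]
    exact e6
  · intro z hz
    have h4 := hz.1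
    have h5 := hz.2
    have h6 := (h1 z.im).1
    have h7 : 0 < (T - z.re) / hh z.im := div_pos (by linarith) h6
    have h8 : 0 < min 1 ((T - z.re) / hh z.im) := lt_min one_pos h7
    have h9 : min 1 ((T - z.re) / hh z.im) ≤ 1 := min_le_left _ _
    have h10 : 0 < c * (T - z.re) / T := div_pos (mul_pos hc0 (by linarith)) hT
    have h11 : c * (T - z.re) / T < c := by
      rw [div_lt_iff₀ hT]
      nlinarith
    rw [ZZ, Zf]
    constructor
    · nlinarith [mul_pos (by linarith : 0 < 1 - c) h8]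
    · nlinarith
  · intro z hz
    have h4 : hh z.im ≤ T - z.re := by
      rw [hz]
      have := (h1 z.im).2
      linarith
    rw [g20c_one F h4, hz]
    simp
  · intro z
    have e1 : (z + 2 * Real.pi * I).re = z.re := by simp
    have e2 : (z + 2 * Real.pi * I).im = z.im + 2 * Real.pi := by simp
    rw [ZZ, ZZ, e1, e2, Zf, Zf, h2]
  · intro z hz h4
    rw [g20c_one F h4]
    refine ⟨rfl, ?_⟩
    have h5 : c * z.re / T ≤ c := by
      rw [div_le_iff₀ hT]
      nlinarith [hz.2]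
    linarith

theorem g20c_min (a b : ℝ) : |min 1 a - min 1 b| ≤ |a - b| := by
  have h := abs_min_sub_min_le_max 1 a 1 b
  rwa [sub_self, abs_zero, max_eq_right (abs_nonneg _)] at h

theorem FD.ZZ_der (F : FD Φ τ xs S L C T σ c B0 S0 Sh hh Ai) {z : ℂ} (hz : z ∈ strip T)
    (hd : DifferentiableAt ℝ (ZZ T c hh) z) :
    (hh z.im < T - z.re → fderiv ℝ (ZZ T c hh) z 1 = -(c / T) ∧ fderiv ℝ (ZZ T c hh) z I = 0) ∧
    (T - z.re ≤ hh z.im → |fderiv ℝ (ZZ T c hh) z 1| ≤ 2 / hh z.im ∧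
      |fderiv ℝ (ZZ T c hh) z I| ≤ 2 * (C + 1) / hh z.im) := by
  obtain ⟨h1, h2, h3, h3', -⟩ := F.hh_facts
  have hT := F.Tpos
  have hc0 := F.c0
  have hc1 := F.c1
  have hσ := F.lay.σT
  have hC1 := F.tgt.C1
  constructor
  · intro h4
    have h5 : ∀ᶠ w in 𝓝 z, hh w.im < T - w.re := by
      have e1 : Continuous fun w : ℂ => hh w.im := h3.comp Complex.continuous_im
      have e2 : Continuous fun w : ℂ => T - w.re := continuous_const.sub Complex.continuous_re
      exact (isOpen_lt e1 e2).mem_nhds h4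
    have h6 : ZZ T c hh =ᶠ[𝓝 z] fun w => 1 - (c / T) * Complex.reCLM w := by
      filter_upwards [h5] with w hw
      rw [g20c_one F hw.le, Complex.reCLM_apply]
      ring
    have h7 : HasFDerivAt (fun w : ℂ => 1 - (c / T) * Complex.reCLM w)
        (-((c / T) • Complex.reCLM)) z :=
      (Complex.reCLM.hasFDerivAt.const_mul (c / T)).const_sub 1
    rw [h6.fderiv_eq, h7.fderiv]
    constructor
    · simp
    · simp
  · intro h4
    have h6 := (h1 z.im).1
    have h7 := (h1 z.im).2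
    have hTr : 0 < T - z.re := by linarith [hz.2]
    constructor
    · refine fderiv_dir_le hd (Filter.Eventually.of_forall fun r => ?_)
      have e1 : (z + (r : ℂ) * 1).re = z.re + r := by simp
      have e2 : (z + (r : ℂ) * 1).im = z.im := by simp
      rw [ZZ, ZZ, e1, e2, Zf, Zf]
      have e3 := g20c_min ((T - (z.re + r)) / hh z.im) ((T - z.re) / hh z.im)
      have e4 : (T - (z.re + r)) / hh z.im - (T - z.re) / hh z.im = -r / hh z.im := by ring
      rw [e4, abs_div, abs_neg, abs_of_pos h6] at e3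
      have e5 : (1 - c) * min 1 ((T - (z.re + r)) / hh z.im) + c * (T - (z.re + r)) / T -
          ((1 - c) * min 1 ((T - z.re) / hh z.im) + c * (T - z.re) / T) =
          (1 - c) * (min 1 ((T - (z.re + r)) / hh z.im) - min 1 ((T - z.re) / hh z.im)) +
          -(c / T) * r := by ring
      rw [e5]
      refine (abs_add_le _ _).trans ?_
      rw [abs_mul, abs_mul, abs_neg, abs_of_pos (by linarith : 0 < 1 - c),
        abs_of_pos (div_pos hc0 hT)]
      have e6 : c / T ≤ 1 / hh z.im := by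
        rw [div_le_div_iff₀ hT h6]
        nlinarith
      have e7 : (1 - c) * |min 1 ((T - (z.re + r)) / hh z.im) - min 1 ((T - z.re) / hh z.im)| ≤
          1 * (|r| / hh z.im) := by
        apply mul_le_mul (by linarith) e3 (abs_nonneg _) one_pos.le
      have e8 := mul_le_mul_of_nonneg_right e6 (abs_nonneg r)
      have e9 : 2 / hh z.im * |r| = 1 * (|r| / hh z.im) + 1 / hh z.im * |r| := by ring
      linarith
    · have h8 : ∀ᶠ r : ℝ in 𝓝 0, hh z.im / 2 < hh (z.im + r) := by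
        have e1 : Continuous fun r : ℝ => hh (z.im + r) := h3.comp (continuous_const.add continuous_id)
        have e2 : (fun r : ℝ => hh (z.im + r)) 0 ∈ Ioi (hh z.im / 2) := by
          simp only [add_zero, mem_Ioi]
          linarith
        exact e1.continuousAt.eventually_mem (isOpen_Ioi.mem_nhds e2)
      refine fderiv_dir_le hd ?_
      filter_upwards [h8] with r hr
      have e1 : (z + (r : ℂ) * I).re = z.re := by simp
      have e2 : (z + (r : ℂ) * I).im = z.im + r := by simp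
      rw [ZZ, ZZ, e1, e2, Zf, Zf]
      have hr0 : 0 < hh (z.im + r) := (h1 _).1
      have e3 := g20c_min ((T - z.re) / hh (z.im + r)) ((T - z.re) / hh z.im)
      have e4 : (T - z.re) / hh (z.im + r) - (T - z.re) / hh z.im =
          (T - z.re) * (hh z.im - hh (z.im + r)) / (hh z.im * hh (z.im + r)) := by
        field_simp
      rw [e4, abs_div, abs_mul, abs_of_pos hTr, abs_of_pos (mul_pos h6 hr0)] at e3
      have e5 : |hh z.im - hh (z.im + r)| ≤ (C + 1) * |r| := by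
        have := h3' z.im (z.im + r)
        rwa [show z.im - (z.im + r) = -r by ring, abs_neg] at this
      have e6 : (T - z.re) * |hh z.im - hh (z.im + r)| / (hh z.im * hh (z.im + r)) ≤
          2 * (C + 1) / hh z.im * |r| := by
        rw [div_mul_eq_mul_div, div_le_div_iff₀ (mul_pos h6 hr0) h6]
        have e7 : (T - z.re) * |hh z.im - hh (z.im + r)| ≤ hh z.im * ((C + 1) * |r|) :=
          mul_le_mul h4 e5 (abs_nonneg _) h6.le
        have e8 : 0 ≤ (C + 1) * |r| := mul_nonneg (by linarith) (abs_nonneg _)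
        have e9 : hh z.im * (hh z.im * ((C + 1) * |r|)) ≤
            hh z.im * (2 * hh (z.im + r) * ((C + 1) * |r|)) := by
          gcongr
          linarith
        calc (T - z.re) * |hh z.im - hh (z.im + r)| * hh z.im
            ≤ hh z.im * ((C + 1) * |r|) * hh z.im := mul_le_mul_of_nonneg_right e7 h6.le
          _ = hh z.im * (hh z.im * ((C + 1) * |r|)) := by ring
          _ ≤ _ := e9
          _ = _ := by ring
      have e10 : (1 - c) * min 1 ((T - z.re) / hh (z.im + r)) + c * (T - z.re) / T -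
          ((1 - c) * min 1 ((T - z.re) / hh z.im) + c * (T - z.re) / T) =
          (1 - c) * (min 1 ((T - z.re) / hh (z.im + r)) - min 1 ((T - z.re) / hh z.im)) := by ring
      rw [e10, abs_mul, abs_of_pos (by linarith : 0 < 1 - c)]
      have e11 := e3.trans e6
      have e12 : 0 ≤ |min 1 ((T - z.re) / hh (z.im + r)) - min 1 ((T - z.re) / hh z.im)| :=
        abs_nonneg _
      nlinarith

end

end CF6

end

section

/-! # G21a: chain rule

`chain`: derivative of `w ↦ cu τ xs w.re w.im` at `(s,ζ)` is `v ↦ τ (1 + τ' ζ I) v.re + τ I v.im` (`hasDerivAt_cu`, `cu_LL`), composed with `z ↦ X z + i Z z` and with the holomorphic `Φ` (`fderiv_comp_holo` in K/L1.lean).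
`chain_le`: `‖1 + τ' Z I‖ ≤ ‖1 + τ' I‖ ≤ 2` for `0 < Z ≤ 1`, `|τ'| ≤ 1/10`.
`PsiG_LL`: `XZ`, `ZZ` locally Lipschitz, `cu` is `C¹`, `Φ` is holomorphic on UHP (`C¹` over `ℝ` at each point of UHP: `DifferentiableOn.contDiffOn` then restrict scalars), `PsiG` maps the strip into UHP.
`f_per`: `PsiG (z + 2πI) = PsiG z + 2π` (`cu_per`), `Φ (u + 2π) = Φ u` is a hypothesis (`phi_per`). -/

open Complex MeasureTheory Set Filter Topology Metric intervalIntegral
open scoped ENNReal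

namespace CF6

section
variable {Φ : ℂ → ℂ} {τ xs : ℝ → ℝ} {S L C T σ c : ℝ} {B0 S0 Sh hh Ai : ℝ → ℝ}

theorem FD.chain (F : FD Φ τ xs S L C T σ c B0 S0 Sh hh Ai) {X Z : ℂ → ℝ} {z : ℂ}
    (hX : DifferentiableAt ℝ X z) (hZ : DifferentiableAt ℝ Z z) (h0 : 0 < Z z) (e : ℂ) :
    fderiv ℝ (fun z => Φ (cu τ xs (X z) (Z z))) z e = deriv Φ (cu τ xs (X z) (Z z)) *
      (τ (xs (X z)) * (1 + deriv τ (xs (X z)) * Z z * I) * (fderiv ℝ X z e : ℝ) +
        τ (xs (X z)) * I * (fderiv ℝ Z z e : ℝ)) := by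
  have hUo : IsOpen UHP := isOpen_lt continuous_const Complex.continuous_im
  have hτd : Differentiable ℝ τ := F.dep.smooth.differentiable (by norm_num)
  have h1 : HasFDerivAt (fun z => xs (X z)) (τ (xs (X z)) • fderiv ℝ X z) z :=
    (F.par.der (X z)).comp_hasFDerivAt z hX.hasFDerivAt
  have h2 : HasFDerivAt (fun z => τ (xs (X z)))
      (deriv τ (xs (X z)) • (τ (xs (X z)) • fderiv ℝ X z)) z :=
    ((hτd (xs (X z))).hasDerivAt).comp_hasFDerivAt z h1
  have h3 : HasFDerivAt (fun z => τ (xs (X z)) * Z z)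
      (τ (xs (X z)) • fderiv ℝ Z z +
        Z z • (deriv τ (xs (X z)) • (τ (xs (X z)) • fderiv ℝ X z))) z :=
    h2.mul hZ.hasFDerivAt
  have h4 : HasFDerivAt (fun z => ((xs (X z) : ℝ) : ℂ))
      (Complex.ofRealCLM.comp (τ (xs (X z)) • fderiv ℝ X z)) z :=
    Complex.ofRealCLM.hasFDerivAt.comp z h1
  have h5 : HasFDerivAt (fun z => ((τ (xs (X z)) * Z z : ℝ) : ℂ))
      (Complex.ofRealCLM.comp (τ (xs (X z)) • fderiv ℝ Z z +
        Z z • (deriv τ (xs (X z)) • (τ (xs (X z)) • fderiv ℝ X z)))) z :=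
    Complex.ofRealCLM.hasFDerivAt.comp z h3
  have h6 := h4.add (h5.mul_const I)
  have hcu : (fun z => cu τ xs (X z) (Z z)) =
      fun z => ((xs (X z) : ℝ) : ℂ) + ((τ (xs (X z)) * Z z : ℝ) : ℂ) * I := by
    funext w
    rw [cu]
    push_cast
    ring
  have hmem : cu τ xs (X z) (Z z) ∈ UHP := by
    have hp := F.dep.pos (xs (X z))
    have : 0 < (cu τ xs (X z) (Z z)).im := by
      have e : (cu τ xs (X z) (Z z)).im = τ (xs (X z)) * Z z := by
        simp [cu]
      rw [e]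
      positivity
    exact this
  have h7 := h6.congr_of_eventuallyEq (f₁ := fun z => cu τ xs (X z) (Z z))
    (Filter.Eventually.of_forall fun w => congrFun hcu w)
  have hΦ : DifferentiableAt ℂ Φ (cu τ xs (X z) (Z z)) :=
    F.hol.differentiableAt (hUo.mem_nhds hmem)
  have h8 := (hΦ.hasFDerivAt.restrictScalars ℝ).comp z h7
  have h8' : fderiv ℝ (fun w => Φ (cu τ xs (X w) (Z w))) z = _ := h8.fderiv
  rw [h8']
  have h9 : ∀ v : ℂ, fderiv ℂ Φ (cu τ xs (X z) (Z z)) v = deriv Φ (cu τ xs (X z) (Z z)) * v := by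
    intro v
    have : fderiv ℂ Φ (cu τ xs (X z) (Z z)) (v • (1 : ℂ)) =
        v • fderiv ℂ Φ (cu τ xs (X z) (Z z)) 1 := map_smul _ _ _
    rw [smul_eq_mul, mul_one] at this
    rw [this, fderiv_apply_one_eq_deriv, smul_eq_mul, mul_comm]
  rw [ContinuousLinearMap.comp_apply, ContinuousLinearMap.coe_restrictScalars', h9]
  congr 1
  simp only [_root_.add_apply, ContinuousLinearMap.comp_apply,
    _root_.smul_apply, Complex.ofRealCLM_apply, smul_eq_mul]
  push_cast
  ring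

theorem FD.chain_le (F : FD Φ τ xs S L C T σ c B0 S0 Sh hh Ai) {X Z : ℂ → ℝ} {z : ℂ}
    (hX : DifferentiableAt ℝ X z) (hZ : DifferentiableAt ℝ Z z) (h0 : 0 < Z z) (h1 : Z z ≤ 1)
    (e : ℂ) :
    ‖fderiv ℝ (fun z => Φ (cu τ xs (X z) (Z z))) z e‖ ≤ gD Φ τ xs (X z) (Z z) *
      (‖(1 + deriv τ (xs (X z)) * I : ℂ)‖ * |fderiv ℝ X z e| + |fderiv ℝ Z z e|) ∧
    ‖(1 + deriv τ (xs (X z)) * I : ℂ)‖ ≤ 2 := by
  have hp := F.dep.pos (xs (X z))
  have hs := F.dep.slope (xs (X z))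
  constructor
  · rw [F.chain hX hZ h0 e, gD, norm_mul,
      mul_assoc ‖deriv Φ (cu τ xs (X z) (Z z))‖ (τ (xs (X z)))]
    apply mul_le_mul_of_nonneg_left _ (norm_nonneg _)
    have h2 : ‖(1 + deriv τ (xs (X z)) * Z z * I : ℂ)‖ ≤
        ‖(1 + deriv τ (xs (X z)) * I : ℂ)‖ := by
      have e1 : (1 + deriv τ (xs (X z)) * Z z * I : ℂ) =
          ((1 : ℝ) : ℂ) + ((deriv τ (xs (X z)) * Z z : ℝ) : ℂ) * I := by push_cast; ring
      have e2 : (1 + deriv τ (xs (X z)) * I : ℂ) =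
          ((1 : ℝ) : ℂ) + ((deriv τ (xs (X z)) : ℝ) : ℂ) * I := by push_cast; ring
      rw [e1, e2, Complex.norm_add_mul_I, Complex.norm_add_mul_I]
      apply Real.sqrt_le_sqrt
      rw [mul_pow]
      have h3 : Z z ^ 2 ≤ 1 := by nlinarith
      nlinarith [sq_nonneg (deriv τ (xs (X z)))]
    refine (norm_add_le _ _).trans ?_
    have e3 : ‖(τ (xs (X z)) : ℂ) * (1 + deriv τ (xs (X z)) * Z z * I) *
        ((fderiv ℝ X z e : ℝ) : ℂ)‖ = τ (xs (X z)) *
        ‖(1 + deriv τ (xs (X z)) * Z z * I : ℂ)‖ * |fderiv ℝ X z e| := by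
      rw [norm_mul, norm_mul, Complex.norm_real, Complex.norm_real, Real.norm_eq_abs,
        Real.norm_eq_abs, abs_of_pos hp]
    have e4 : ‖(τ (xs (X z)) : ℂ) * I * ((fderiv ℝ Z z e : ℝ) : ℂ)‖ = τ (xs (X z)) *
        |fderiv ℝ Z z e| := by
      rw [norm_mul, norm_mul, Complex.norm_real, Complex.norm_real, Real.norm_eq_abs,
        Real.norm_eq_abs, abs_of_pos hp, Complex.norm_I, mul_one]
    rw [e3, e4, mul_add]
    apply add_le_add _ le_rfl
    rw [mul_assoc]
    apply mul_le_mul_of_nonneg_left _ hp.le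
    exact mul_le_mul_of_nonneg_right h2 (abs_nonneg _)
  · refine (norm_add_le _ _).trans ?_
    rw [norm_one, norm_mul, Complex.norm_real, Complex.norm_I, mul_one, Real.norm_eq_abs]
    linarith

end

end CF6

end

section

/-! # G22a: rectangles, FD.mono, ratio

`FD.mono`: only the fields `c0, c1, near` involve `c`.
`lintegral_rect`: `Complex.volume_preserving_equiv_real_prod`, Tonelli.
`ratio`: the function `(s,ζ) ↦ gD s ζ/gD s 1` is continuous on the compact set `[0,S] × [1/2,1]` (`deriv Φ` continuous on UHP, `Φ' ≠ 0`), equal to `1` for `ζ = 1`, and `S`-periodic in `s`: uniformly close to 1 for `ζ` near 1. `W` is bounded.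
`energy1`: let `η' = ε/10`. For `z` in the region, `hh ≤ σ/2 < T - re`, so `ZZ = 1 - c re/T ∈ [1-c,1]`, `ZZ_t = -c/T`, `ZZ_θ = 0` (`ZZ_der`); `XZ_der`, `Lam_der1`: `|X_e| = |λ_e|/(W(X) ‖1+τ' I‖)` (`deriv gA = gD · 1 · ‖1 + τ' I‖`, hypothesis `hA`). `chain_le`:
`|f_t| ≤ (gD X Z/gD X 1) |λ_t| + gD X Z c/T ≤ (1+η')(|λ_t| + Wmax c/T)`, `|f_θ| ≤ (1+η')|λ_θ|`. `(a+b)² ≤ (1+η')a² + (1+1/η')b²`, `(1+η')³ ≤ 1+ε`. The remaining term is `≤ (1+η')²(1+1/η')(Wmax c/T)² · 2πT ≤ η` for small `c`.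
At points where `XZ` or `ZZ` is not differentiable (null set, `LL_ae_diff`) nothing is needed. -/

open Complex MeasureTheory Set Filter Topology Metric intervalIntegral
open scoped ENNReal

namespace CF6

theorem lintegral_rect {f : ℂ → ℝ≥0∞} (hf : Measurable f) {a b c d : ℝ} :
    ∫⁻ z in {z : ℂ | a < z.re ∧ z.re < b ∧ c < z.im ∧ z.im < d}, f z =
      ∫⁻ t in Ioo a b, ∫⁻ θ in Ioo c d, f (t + θ * I) := by
  have hmp := Complex.volume_preserving_equiv_real_prod.symm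
  have hS : {z : ℂ | a < z.re ∧ z.re < b ∧ c < z.im ∧ z.im < d} =
      Complex.measurableEquivRealProd ⁻¹' (Ioo a b ×ˢ Ioo c d) := by
    ext z
    simp only [Set.mem_ofPred_eq, Set.mem_preimage, Set.mem_prod, Set.mem_Ioo,
      Complex.measurableEquivRealProd_apply]
    tauto
  have h1 : ∫⁻ z in {z : ℂ | a < z.re ∧ z.re < b ∧ c < z.im ∧ z.im < d}, f z =
      ∫⁻ p in Ioo a b ×ˢ Ioo c d, f (Complex.measurableEquivRealProd.symm p) := by
    rw [hS]
    have h2 := Complex.volume_preserving_equiv_real_prod.setLIntegral_comp_preimage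
      (measurableSet_Ioo.prod measurableSet_Ioo (s := Ioo a b) (t := Ioo c d))
      (hf.comp Complex.measurableEquivRealProd.symm.measurable)
    have h3 : ∫⁻ p in Ioo a b ×ˢ Ioo c d, f (Complex.measurableEquivRealProd.symm p) =
        ∫⁻ p in Ioo a b ×ˢ Ioo c d, (f ∘ Complex.measurableEquivRealProd.symm) p := rfl
    rw [h3, ← h2]
    refine lintegral_congr fun z => ?_
    simp
  have h4 : AEMeasurable (fun p : ℝ × ℝ => f (Complex.measurableEquivRealProd.symm p))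
      ((volume.restrict (Ioo a b)).prod (volume.restrict (Ioo c d))) :=
    (hf.comp Complex.measurableEquivRealProd.symm.measurable).aemeasurable
  rw [h1, Measure.volume_eq_prod, ← Measure.prod_restrict,
    lintegral_prod _ h4]
  refine lintegral_congr fun t => lintegral_congr fun θ => ?_
  congr 1
  apply Complex.ext
  · simp
  · simp

section
variable {Φ : ℂ → ℂ} {τ xs : ℝ → ℝ} {S L C T σ c : ℝ} {B0 S0 Sh hh Ai : ℝ → ℝ}

theorem FD.mono (F : FD Φ τ xs S L C T σ c B0 S0 Sh hh Ai) {c' : ℝ} (h0 : 0 < c') (h1 : c' ≤ c) :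
    FD Φ τ xs S L C T σ c' B0 S0 Sh hh Ai :=
  { F with
    c0 := h0
    c1 := h1.trans F.c1
    near := fun s ζ hζ hζ1 => F.near s ζ (by linarith) hζ1 }

theorem g22a_mem (F : FD Φ τ xs S L C T σ c B0 S0 Sh hh Ai) (s ζ : ℝ) (hζ : 0 < ζ) :
    cu τ xs s ζ ∈ UHP := by
  show 0 < (cu τ xs s ζ).im
  rw [(cu_im τ xs s ζ).1]
  exact mul_pos (F.dep.pos _) hζ

theorem g22a_per (F : FD Φ τ xs S L C T σ c B0 S0 Sh hh Ai) (ζ : ℝ) (hζ : 0 < ζ) :
    Function.Periodic (fun s => gD Φ τ xs s ζ) S := by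
  intro s
  unfold gD
  simp only
  rw [cu_per F.par F.dep.per, F.pder _ (g22a_mem F s ζ hζ), F.par.per, F.dep.per]

theorem g22a_cont (F : FD Φ τ xs S L C T σ c B0 S0 Sh hh Ai) :
    ContinuousOn (fun p : ℝ × ℝ => gD Φ τ xs p.1 p.2) {p | 0 < p.2} := by
  have hUo : IsOpen UHP := isOpen_lt continuous_const Complex.continuous_im
  have hd : ContinuousOn (deriv Φ) UHP := (F.hol.deriv hUo).continuousOn
  have hxs : Continuous xs := continuous_iff_continuousAt.2 fun s => (F.par.der s).continuousAt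
  have hτ : Continuous τ := F.dep.smooth.continuous
  have hcu : Continuous fun p : ℝ × ℝ => cu τ xs p.1 p.2 := by
    unfold cu
    have h1 : Continuous fun p : ℝ × ℝ => xs p.1 := hxs.comp continuous_fst
    have h2 : Continuous fun p : ℝ × ℝ => τ (xs p.1) := hτ.comp h1
    fun_prop
  unfold gD
  apply ContinuousOn.mul
  · exact (hd.comp hcu.continuousOn fun p hp => g22a_mem F p.1 p.2 hp).norm
  · exact ((hτ.comp (hxs.comp continuous_fst))).continuousOn

theorem g22a_red (F : FD Φ τ xs S L C T σ c B0 S0 Sh hh Ai) (s : ℝ) :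
    ∃ s' ∈ Icc 0 S, ∀ ζ : ℝ, 0 < ζ → gD Φ τ xs s ζ = gD Φ τ xs s' ζ := by
  have hS : 0 < S := by linarith [F.par.Sge]
  refine ⟨s - ⌊s / S⌋ * S, ⟨?_, ?_⟩, ?_⟩
  · have := Int.floor_le (s / S)
    rw [le_div_iff₀ hS] at this
    linarith
  · have := Int.lt_floor_add_one (s / S)
    rw [div_lt_iff₀ hS] at this
    nlinarith
  · intro ζ hζ
    exact ((g22a_per F ζ hζ).sub_int_mul_eq ⌊s / S⌋).symm

theorem FD.ratio (F : FD Φ τ xs S L C T σ c B0 S0 Sh hh Ai) (η : ℝ) (hη : 0 < η) :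
    (∃ r > 0, ∀ s ζ : ℝ, 1 - r ≤ ζ → ζ ≤ 1 → gD Φ τ xs s ζ ≤ (1 + η) * gD Φ τ xs s 1) ∧
      ∃ Wm : ℝ, ∀ s, gD Φ τ xs s 1 ≤ Wm := by
  have hS : 0 < S := by linarith [F.par.Sge]
  have hW : ∀ s, 0 < gD Φ τ xs s 1 := F.tgt.Wpos
  have hcont := g22a_cont F
  have hc1 : Continuous fun s => gD Φ τ xs s 1 := by
    have h : Continuous fun s : ℝ => (s, (1 : ℝ)) := by fun_prop
    have := hcont.comp_continuous h (fun s => by show (0 : ℝ) < 1; norm_num)
    exact this
  constructor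
  · set K : Set (ℝ × ℝ) := Icc 0 S ×ˢ Icc (1 / 2) 1 with hK
    have hKc : IsCompact K := isCompact_Icc.prod isCompact_Icc
    have hq : ContinuousOn (fun p : ℝ × ℝ => gD Φ τ xs p.1 p.2 / gD Φ τ xs p.1 1) K := by
      apply ContinuousOn.div
      · apply hcont.mono
        rintro ⟨s, ζ⟩ ⟨-, h2⟩
        show 0 < ζ
        linarith [h2.1]
      · exact (hc1.comp continuous_fst).continuousOn
      · intro p _
        exact (hW p.1).ne'
    have hu := hKc.uniformContinuousOn_of_continuous hq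
    rw [Metric.uniformContinuousOn_iff] at hu
    obtain ⟨r, hr, hr2⟩ := hu η hη
    refine ⟨min (r / 2) (1 / 2), by positivity, ?_⟩
    intro s ζ h1 h2
    obtain ⟨s', hs', hs'2⟩ := g22a_red F s
    have hr1 : min (r / 2) (1 / 2) ≤ r / 2 := min_le_left _ _
    have hr3 : min (r / 2) (1 / 2) ≤ 1 / 2 := min_le_right _ _
    have hζ0 : 0 < ζ := by linarith
    rw [hs'2 ζ hζ0, hs'2 1 one_pos]
    have h3 := hr2 (s', ζ) ⟨hs', ⟨by linarith, h2⟩⟩ (s', 1) ⟨hs', ⟨by norm_num, le_rfl⟩⟩ (by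
      rw [Prod.dist_eq, dist_self, Real.dist_eq]
      rw [max_lt_iff]
      refine ⟨hr, ?_⟩
      rw [abs_lt]; constructor <;> linarith)
    simp only at h3
    rw [div_self (hW s').ne', Real.dist_eq] at h3
    have h4 := (abs_lt.1 h3).2
    have h5 : gD Φ τ xs s' ζ / gD Φ τ xs s' 1 ≤ 1 + η := by linarith
    rwa [div_le_iff₀ (hW s')] at h5
  · obtain ⟨M, hM⟩ := (isCompact_Icc (a := (0 : ℝ)) (b := S)).exists_bound_of_continuousOn
      hc1.continuousOn
    refine ⟨M, fun s => ?_⟩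
    obtain ⟨s', hs', hs'2⟩ := g22a_red F s
    rw [hs'2 1 one_pos]
    exact (le_abs_self _).trans (hM s' hs')

end

end CF6

end
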