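import Pool.Agent.Lib.MP_cf6b16_an.G1

section

/-! # G23a: energy density, middle region

`e2_point`: `z ∈ strip`, `T - σ < re`, `hh(im) < T - re`. `ZZ ≥ 1 - c`, so `gD X Z ≤ C W(X)`; `|X - S0| ≤ 1` (`XZ_facts`), so `W(X) ≤ e^C W(S0)` (`W_compare`). `deriv gA (X) ≥ W(X)`. `Lam_der2` with `k = 3 C e^C (v + W(S0)/σ)` (`Bh_facts`), `|Bh - B| ≤ 2 e^C W(S0)`.
`|f_t| ≤ C W(X) (2 (2/σ) 2 e^C W(S0)/W(X) + c/T) ≤ 9 C e^C W(S0)/σ` (`c/T ≤ 1/σ`), `|f_θ| ≤ 2 C (v + k)`. So `|f_t|² + |f_θ|² ≤ C' (v² + W(S0)²/σ²)`.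
`energy2`: integrate over `t ∈ (T-σ,T)` (length `σ`): `lintegral_rect` for the measurable bound. -/

open Complex MeasureTheory Set Filter Topology Metric intervalIntegral
open scoped ENNReal

namespace CF6

theorem e2_point (C : ℝ) : ∃ C' : ℝ, 1 ≤ C' ∧ ∀ (Φ : ℂ → ℂ) (τ xs : ℝ → ℝ) (S L T σ c : ℝ)
    (B0 S0 Sh hh Ai : ℝ → ℝ), FD Φ τ xs S L C T σ c B0 S0 Sh hh Ai → ∀ z ∈ strip T, T - σ < z.re →
    hh z.im < T - z.re → DifferentiableAt ℝ (XZ Φ τ xs T σ B0 Sh Ai) z →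
    DifferentiableAt ℝ (ZZ T c hh) z →
    ‖fderiv ℝ (fun z => Φ (PsiG Φ τ xs T σ c B0 Sh hh Ai z)) z 1‖ ^ 2 +
      ‖fderiv ℝ (fun z => Φ (PsiG Φ τ xs T σ c B0 Sh hh Ai z)) z I‖ ^ 2 ≤
      C' * (deriv (lam T B0 (T - σ)) z.im ^ 2 + (gD Φ τ xs (S0 z.im) 1 / σ) ^ 2) := by
  refine ⟨1 + (9 * C * Real.exp C) ^ 2 + 2 * (2 * C * (1 + 3 * C * Real.exp C)) ^ 2, ?_, ?_⟩
  · have h1 := sq_nonneg (9 * C * Real.exp C)
    have h2 := sq_nonneg (2 * C * (1 + 3 * C * Real.exp C))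
    linarith
  intro Φ τ xs S L T σ c B0 S0 Sh hh Ai F z hz hz1 hz2 hd1 hd2
  have hC1 : 1 ≤ C := F.tgt.C1
  have hC0 : 0 < C := by linarith
  have hσ0 := F.lay.σ0
  have hσT := F.lay.σT
  have hT := F.Tpos
  have hE0 : 0 < Real.exp C := Real.exp_pos C
  obtain ⟨-, -, -, hX4, -⟩ := F.XZ_facts
  obtain ⟨-, -, hZ3, -, -, hZ6⟩ := F.ZZ_facts
  obtain ⟨hLd, hXe⟩ := F.XZ_der hz hd1
  obtain ⟨hZder, -⟩ := F.ZZ_der hz hd2
  obtain ⟨hZ1, hZI⟩ := hZder hz2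
  obtain ⟨-, -, -, -, hBn, hBl⟩ := F.Bh_facts
  obtain ⟨hL1, hLI, -⟩ := Lam_der2 hT F.qp F.lay hz1 hz.2 hLd (hBl z.im)
  obtain ⟨hZ0, hZlt⟩ := hZ3 z hz
  obtain ⟨-, hZc⟩ := hZ6 z hz hz2.le
  set X : ℝ := XZ Φ τ xs T σ B0 Sh Ai z with hX
  set Z : ℝ := ZZ T c hh z with hZ
  set v : ℝ := deriv (lam T B0 (T - σ)) z.im with hv
  set W0 : ℝ := gD Φ τ xs (S0 z.im) 1 with hW0
  set WX : ℝ := gD Φ τ xs X 1 with hWX
  have hv0 : 0 < v := F.lay.pos z.im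
  have hW0pos : 0 < W0 := F.tgt.Wpos _
  have hWXpos : 0 < WX := F.tgt.Wpos _
  have hgA : WX ≤ deriv (gA Φ τ xs) X := F.tgt.Alo X
  have hgD : gD Φ τ xs X Z ≤ C * WX := F.near X Z hZc hZlt.le
  have hgD0 : 0 ≤ gD Φ τ xs X Z := by
    unfold gD
    exact mul_nonneg (norm_nonneg _) (F.dep.pos _).le
  have hcomp : WX ≤ Real.exp C * W0 := by
    have h1 := W_compare F.tgt (S0 z.im) X
    have h2 := hX4 z hz1.le
    have h3 : Real.exp (C * |X - S0 z.im|) ≤ Real.exp C := by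
      apply Real.exp_le_exp.2
      exact mul_le_of_le_one_right hC0.le h2
    exact h1.trans (mul_le_mul_of_nonneg_right h3 hW0pos.le)
  obtain ⟨hch1, hch2⟩ := F.chain_le hd1 hd2 hZ0 hZlt.le 1
  obtain ⟨hchI, -⟩ := F.chain_le hd1 hd2 hZ0 hZlt.le I
  have hXdiv : ∀ e : ℂ, |fderiv ℝ (XZ Φ τ xs T σ B0 Sh Ai) z e| ≤
      |fderiv ℝ (LamZ T σ B0 (fun θ => gA Φ τ xs (Sh θ))) z e| / WX := by
    intro e
    rw [hXe e, abs_div, abs_of_pos (hWXpos.trans_le hgA)]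
    exact div_le_div_of_nonneg_left (abs_nonneg _) hWXpos hgA
  have hPsi : (fun z => Φ (PsiG Φ τ xs T σ c B0 Sh hh Ai z)) =
      fun z => Φ (cu τ xs (XZ Φ τ xs T σ B0 Sh Ai z) (ZZ T c hh z)) := rfl
  rw [hPsi]
  set w : ℝ := W0 / σ with hw
  have hw0 : 0 < w := by rw [hw]; positivity
  have hT0 : c / T ≤ 1 / σ := by
    rw [div_le_div_iff₀ hT hσ0]
    have k1 := F.c1
    have k2 := F.c0
    have k3 : c * σ ≤ 1 * σ := mul_le_mul_of_nonneg_right (by linarith only [k1]) hσ0.le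
    linarith only [k3, hσT, hσ0, hT]
  have hcT0 : 0 ≤ c / T := div_nonneg F.c0.le hT.le
  -- direction 1
  have hf1 : ‖fderiv ℝ (fun z => Φ (cu τ xs (XZ Φ τ xs T σ B0 Sh Ai z) (ZZ T c hh z))) z 1‖ ≤
      9 * C * Real.exp C * w := by
    have e1 : |fderiv ℝ (XZ Φ τ xs T σ B0 Sh Ai) z 1| ≤ (2 / σ * (2 * Real.exp C * W0)) / WX := by
      refine (hXdiv 1).trans (div_le_div_of_nonneg_right ?_ hWXpos.le)
      exact hL1.trans (mul_le_mul_of_nonneg_left (hBn z.im) (by positivity))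
    have e2 : |fderiv ℝ (ZZ T c hh) z 1| = c / T := by
      rw [hZ1, abs_neg, abs_of_nonneg hcT0]
    rw [e2] at hch1
    have hX0 := abs_nonneg (fderiv ℝ (XZ Φ τ xs T σ B0 Sh Ai) z 1)
    refine hch1.trans ?_
    calc gD Φ τ xs X Z * (‖(1 + deriv τ (xs X) * I : ℂ)‖ *
          |fderiv ℝ (XZ Φ τ xs T σ B0 Sh Ai) z 1| + c / T)
        ≤ (C * WX) * (2 * ((2 / σ * (2 * Real.exp C * W0)) / WX) + 1 / σ) := by
          apply mul_le_mul hgD _ (by positivity) (by positivity)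
          apply add_le_add _ hT0
          exact mul_le_mul hch2 e1 hX0 (by norm_num)
      _ = C * (8 * Real.exp C * W0 / σ) + C * (WX / σ) := by field_simp; ring
      _ ≤ C * (8 * Real.exp C * W0 / σ) + C * (Real.exp C * W0 / σ) := by
          have : C * (WX / σ) ≤ C * (Real.exp C * W0 / σ) :=
            mul_le_mul_of_nonneg_left (div_le_div_of_nonneg_right hcomp hσ0.le) hC0.le
          linarith
      _ = 9 * C * Real.exp C * w := by rw [hw]; ring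
  have hfI : ‖fderiv ℝ (fun z => Φ (cu τ xs (XZ Φ τ xs T σ B0 Sh Ai z) (ZZ T c hh z))) z I‖ ≤
      2 * C * (1 + 3 * C * Real.exp C) * (v + w) := by
    have e1 : |fderiv ℝ (XZ Φ τ xs T σ B0 Sh Ai) z I| ≤
        (v + 3 * C * Real.exp C * (v + w)) / WX :=
      (hXdiv I).trans (div_le_div_of_nonneg_right hLI hWXpos.le)
    have e2 : |fderiv ℝ (ZZ T c hh) z I| = 0 := by rw [hZI, abs_zero]
    rw [e2, add_zero] at hchI
    have hX0 := abs_nonneg (fderiv ℝ (XZ Φ τ xs T σ B0 Sh Ai) z I)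
    refine hchI.trans ?_
    calc gD Φ τ xs X Z * (‖(1 + deriv τ (xs X) * I : ℂ)‖ *
          |fderiv ℝ (XZ Φ τ xs T σ B0 Sh Ai) z I|)
        ≤ (C * WX) * (2 * ((v + 3 * C * Real.exp C * (v + w)) / WX)) := by
          apply mul_le_mul hgD _ (by positivity) (by positivity)
          exact mul_le_mul hch2 e1 hX0 (by norm_num)
      _ = 2 * C * (v + 3 * C * Real.exp C * (v + w)) := by field_simp
      _ ≤ 2 * C * ((v + w) + 3 * C * Real.exp C * (v + w)) := by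
          apply mul_le_mul_of_nonneg_left _ (by positivity)
          linarith
      _ = _ := by ring
  have h1 := pow_le_pow_left₀ (norm_nonneg _) hf1 2
  have h2 := pow_le_pow_left₀ (norm_nonneg _) hfI 2
  have h3 : (v + w) ^ 2 ≤ 2 * (v ^ 2 + w ^ 2) := by
    have h30 : (v + w) ^ 2 = 2 * (v ^ 2 + w ^ 2) - (v - w) ^ 2 := by ring
    have h31 := sq_nonneg (v - w)
    linarith only [h30, h31]
  have h4 : (2 * C * (1 + 3 * C * Real.exp C) * (v + w)) ^ 2 ≤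
      (2 * C * (1 + 3 * C * Real.exp C)) ^ 2 * (2 * (v ^ 2 + w ^ 2)) := by
    rw [mul_pow]
    exact mul_le_mul_of_nonneg_left h3 (sq_nonneg _)
  have h5 : 0 ≤ (9 * C * Real.exp C) ^ 2 * v ^ 2 := by positivity
  have h6 : 0 ≤ v ^ 2 + w ^ 2 := by positivity
  calc _ ≤ (9 * C * Real.exp C * w) ^ 2 + (2 * C * (1 + 3 * C * Real.exp C) * (v + w)) ^ 2 :=
        add_le_add h1 h2
    _ ≤ (9 * C * Real.exp C) ^ 2 * (v ^ 2 + w ^ 2) +
        (2 * C * (1 + 3 * C * Real.exp C)) ^ 2 * (2 * (v ^ 2 + w ^ 2)) := by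
        have : (9 * C * Real.exp C * w) ^ 2 ≤ (9 * C * Real.exp C) ^ 2 * (v ^ 2 + w ^ 2) := by
          rw [mul_pow, mul_add]; linarith
        linarith
    _ ≤ _ := by
        have h7 : (1 + (9 * C * Real.exp C) ^ 2 + 2 * (2 * C * (1 + 3 * C * Real.exp C)) ^ 2) *
            (v ^ 2 + w ^ 2) = (v ^ 2 + w ^ 2) + ((9 * C * Real.exp C) ^ 2 * (v ^ 2 + w ^ 2) +
            (2 * C * (1 + 3 * C * Real.exp C)) ^ 2 * (2 * (v ^ 2 + w ^ 2))) := by ring
        rw [h7]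
        exact le_add_of_nonneg_left h6

end CF6

end

section

/-! # G23b: energy of the middle region

`e2_point`: `z ∈ strip`, `T - σ < re`, `hh(im) < T - re`. `ZZ ≥ 1 - c`, so `gD X Z ≤ C W(X)`; `|X - S0| ≤ 1` (`XZ_facts`), so `W(X) ≤ e^C W(S0)` (`W_compare`). `deriv gA (X) ≥ W(X)`. `Lam_der2` with `k = 3 C e^C (v + W(S0)/σ)` (`Bh_facts`), `|Bh - B| ≤ 2 e^C W(S0)`.
`|f_t| ≤ C W(X) (2 (2/σ) 2 e^C W(S0)/W(X) + c/T) ≤ 9 C e^C W(S0)/σ` (`c/T ≤ 1/σ`), `|f_θ| ≤ 2 C (v + k)`. So `|f_t|² + |f_θ|² ≤ C' (v² + W(S0)²/σ²)`.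
`energy2`: integrate over `t ∈ (T-σ,T)` (length `σ`): `lintegral_rect` for the measurable bound. -/

open Complex MeasureTheory Set Filter Topology Metric intervalIntegral
open scoped ENNReal

namespace CF6

theorem energy2 (C : ℝ) : ∃ C' : ℝ, 1 ≤ C' ∧ ∀ (Φ : ℂ → ℂ) (τ xs : ℝ → ℝ) (S L T σ c : ℝ)
    (B0 S0 Sh hh Ai : ℝ → ℝ), FD Φ τ xs S L C T σ c B0 S0 Sh hh Ai →
    en {z | T - σ < z.re ∧ z.re < T ∧ hh z.im < T - z.re ∧ 0 < z.im ∧ z.im < 2 * Real.pi}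
        (fun z => fderiv ℝ (fun z => Φ (PsiG Φ τ xs T σ c B0 Sh hh Ai z)) z 1)
        (fun z => fderiv ℝ (fun z => Φ (PsiG Φ τ xs T σ c B0 Sh hh Ai z)) z I) ≤
      ENNReal.ofReal C' * (ENNReal.ofReal σ * (∫⁻ θ in Ioo 0 (2 * Real.pi),
        ENNReal.ofReal (deriv (lam T B0 (T - σ)) θ) ^ 2) + ENNReal.ofReal (1 / σ) *
        ∫⁻ θ in Ioo 0 (2 * Real.pi), ENNReal.ofReal (gD Φ τ xs (S0 θ) 1) ^ 2) := by
  obtain ⟨C', hC', hpt⟩ := e2_point C
  refine ⟨C', hC', ?_⟩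
  intro Φ τ xs S L T σ c B0 S0 Sh hh Ai F
  have hT := F.Tpos
  have hσ0 := F.lay.σ0
  have hσT := F.lay.σT
  obtain ⟨hh0, -, hhc, -, -⟩ := F.hh_facts
  obtain ⟨-, LX, -, -, -⟩ := F.XZ_facts
  obtain ⟨-, LZ, -, -, -, -⟩ := F.ZZ_facts
  obtain ⟨v, hv⟩ : ∃ v : ℝ → ℝ, v = deriv (lam T B0 (T - σ)) := ⟨_, rfl⟩
  obtain ⟨W, hW⟩ : ∃ W : ℝ → ℝ, W = fun θ => gD Φ τ xs (S0 θ) 1 := ⟨_, rfl⟩
  have hvpos : ∀ θ, 0 < v θ := by rw [hv]; exact F.lay.pos
  have hvm : Measurable v := by rw [hv]; exact measurable_deriv _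
  have hS0m : Continuous S0 := by
    have h1 : ∀ θ, S0 θ = Ai (lam T B0 (T - σ) θ) := by
      intro θ
      rw [← F.S0eq θ, F.Ai_facts.1]
    have h2 : S0 = fun θ => Ai (lam T B0 (T - σ) θ) := funext h1
    rw [h2]
    exact F.Ai_facts.2.2.2.2.continuous.comp F.lay.B1.continuous
  have hWc : Continuous W := by
    rw [hW]
    exact F.tgt.Wdiff.continuous.comp hS0m
  have hWpos : ∀ θ, 0 < W θ := by intro θ; rw [hW]; exact F.tgt.Wpos _
  have hv' : ∀ z : ℂ, deriv (lam T B0 (T - σ)) z.im = v z.im := by intro z; rw [hv]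
  have hms : MeasurableSet {z : ℂ | T - σ < z.re ∧ z.re < T ∧ hh z.im < T - z.re ∧ 0 < z.im ∧
      z.im < 2 * Real.pi} := by
    apply IsOpen.measurableSet
    exact ((isOpen_lt continuous_const Complex.continuous_re).inter
      ((isOpen_lt Complex.continuous_re continuous_const).inter
      ((isOpen_lt (hhc.comp Complex.continuous_im) (continuous_const.sub Complex.continuous_re)).inter
      ((isOpen_lt continuous_const Complex.continuous_im).inter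
      (isOpen_lt Complex.continuous_im continuous_const)))))
  -- the bound
  obtain ⟨g, hg⟩ : ∃ g : ℝ → ℝ≥0∞, g = fun θ => ENNReal.ofReal C' *
      (ENNReal.ofReal (v θ) ^ 2 + ENNReal.ofReal (W θ / σ) ^ 2) := ⟨_, rfl⟩
  have hgm : Measurable g := by
    rw [hg]
    exact ((hvm.ennreal_ofReal.pow_const 2).add
      ((hWc.measurable.div_const σ).ennreal_ofReal.pow_const 2)).const_mul _
  have key : ∀ᵐ z : ℂ, z ∈ {z : ℂ | T - σ < z.re ∧ z.re < T ∧ hh z.im < T - z.re ∧ 0 < z.im ∧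
      z.im < 2 * Real.pi} →
      ‖fderiv ℝ (fun z => Φ (PsiG Φ τ xs T σ c B0 Sh hh Ai z)) z 1‖ₑ ^ 2 +
      ‖fderiv ℝ (fun z => Φ (PsiG Φ τ xs T σ c B0 Sh hh Ai z)) z I‖ₑ ^ 2 ≤ g z.im := by
    filter_upwards [LL_ae_diff LX, LL_ae_diff LZ] with z h1 h2 hz
    obtain ⟨z0, z1, z2, z3, z4⟩ := hz
    have hzs : z ∈ strip T := ⟨by linarith, z1⟩
    have h := hpt Φ τ xs S L T σ c B0 S0 Sh hh Ai F z hzs z0 z2 (h1 hzs) (h2 hzs)
    rw [hv'] at h
    have h' : C' * (v z.im ^ 2 + (gD Φ τ xs (S0 z.im) 1 / σ) ^ 2) =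
        C' * (v z.im ^ 2 + (W z.im / σ) ^ 2) := by rw [hW]
    rw [h'] at h
    have hWσ : 0 ≤ W z.im / σ := div_nonneg (hWpos _).le hσ0.le
    rw [hg]
    dsimp only
    rw [← ofReal_norm, ← ofReal_norm, ← ENNReal.ofReal_pow (norm_nonneg _),
      ← ENNReal.ofReal_pow (norm_nonneg _), ← ENNReal.ofReal_pow (hvpos _).le,
      ← ENNReal.ofReal_pow hWσ, ← ENNReal.ofReal_add (sq_nonneg _) (sq_nonneg _),
      ← ENNReal.ofReal_add (sq_nonneg _) (sq_nonneg _), ← ENNReal.ofReal_mul (by linarith)]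
    exact ENNReal.ofReal_le_ofReal h
  unfold en
  calc ∫⁻ z in {z : ℂ | T - σ < z.re ∧ z.re < T ∧ hh z.im < T - z.re ∧ 0 < z.im ∧
      z.im < 2 * Real.pi},
      (‖fderiv ℝ (fun z => Φ (PsiG Φ τ xs T σ c B0 Sh hh Ai z)) z 1‖ₑ ^ 2 +
      ‖fderiv ℝ (fun z => Φ (PsiG Φ τ xs T σ c B0 Sh hh Ai z)) z I‖ₑ ^ 2)
      ≤ ∫⁻ z in {z : ℂ | T - σ < z.re ∧ z.re < T ∧ hh z.im < T - z.re ∧ 0 < z.im ∧
        z.im < 2 * Real.pi}, g z.im := by
        refine lintegral_mono_ae ?_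
        rw [ae_restrict_iff' hms]
        exact key
    _ ≤ ∫⁻ z in {z : ℂ | T - σ < z.re ∧ z.re < T ∧ 0 < z.im ∧ z.im < 2 * Real.pi}, g z.im := by
        refine lintegral_mono_set ?_
        intro z hz
        exact ⟨hz.1, hz.2.1, hz.2.2.2.1, hz.2.2.2.2⟩
    _ = ∫⁻ t in Ioo (T - σ) T, ∫⁻ θ in Ioo 0 (2 * Real.pi), g ((t : ℂ) + θ * I).im :=
        lintegral_rect (hgm.comp Complex.measurable_im)
    _ = ∫⁻ t in Ioo (T - σ) T, ∫⁻ θ in Ioo 0 (2 * Real.pi), g θ := by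
        refine setLIntegral_congr_fun measurableSet_Ioo ?_
        intro t ht
        refine setLIntegral_congr_fun measurableSet_Ioo ?_
        intro θ hθ
        dsimp only
        congr 1
        simp
    _ = (∫⁻ θ in Ioo 0 (2 * Real.pi), g θ) * ENNReal.ofReal σ := by
        rw [setLIntegral_const, Real.volume_Ioo]
        congr 2
        ring
    _ = ENNReal.ofReal C' * ((∫⁻ θ in Ioo 0 (2 * Real.pi), ENNReal.ofReal (v θ) ^ 2) +
        ∫⁻ θ in Ioo 0 (2 * Real.pi), ENNReal.ofReal (W θ / σ) ^ 2) * ENNReal.ofReal σ := by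
        rw [hg]
        rw [lintegral_const_mul' _ _ ENNReal.ofReal_ne_top, lintegral_add_left
          (hvm.ennreal_ofReal.pow_const 2)]
    _ = ENNReal.ofReal C' * (ENNReal.ofReal σ * (∫⁻ θ in Ioo 0 (2 * Real.pi),
        ENNReal.ofReal (v θ) ^ 2) + ENNReal.ofReal σ * ∫⁻ θ in Ioo 0 (2 * Real.pi),
          ENNReal.ofReal (W θ / σ) ^ 2) := by ring
    _ = _ := by
        rw [hv, hW]
        congr 2
        rw [← lintegral_const_mul' _ _ ENNReal.ofReal_ne_top,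
          ← lintegral_const_mul' _ _ ENNReal.ofReal_ne_top]
        refine lintegral_congr ?_
        intro θ
        have hWθ : 0 ≤ gD Φ τ xs (S0 θ) 1 := (F.tgt.Wpos _).le
        rw [← ENNReal.ofReal_pow (div_nonneg hWθ hσ0.le), ← ENNReal.ofReal_pow hWθ,
          ← ENNReal.ofReal_mul hσ0.le, ← ENNReal.ofReal_mul (by positivity)]
        congr 1
        field_simp

end CF6

end

section

/-! # G24a: last part, pointwise and inner integral

`e3_point`: here `re ≥ T - σ/2`; `XZ = Sh(im)`. If `re > T - σ/2`: `X_t = 0` (`Lam_der2`, `XZ_der`), `|X_θ| ≤ C (v/W(S0) + 1/σ) ≤ C/hh` (`Rep.loc`, `fderiv_dir_le`; `1/hh = v/W(S0) + 2/σ`). `ZZ_der`: `|Z_t| ≤ 2/hh`, `|Z_θ| ≤ 2(C+1)/hh`. `chain_le`: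
`|f_t| ≤ gD X Z · 2/hh`, `|f_θ| ≤ gD X Z (2 C + 2 (C+1))/hh`. (The line `re = T - σ/2` is excluded by hypothesis; it is a null set.)
`e3_inner`: for fixed `θ`, `k = (1-c)/hh + c/T ≥ 1/(2 hh)`, for `T - hh ≤ t < T`: `Zf = k (T-t)`, `k hh ≤ 1`; substitution `ζ = k (T-t)`: `∫⁻_t gD(Sh, Zf)² = (1/k) ∫⁻_{(0,k hh)} gD(Sh,ζ)² ≤ 2 hh M(Sh θ)`.
`energy3`: Tonelli (`θ` outside): `∫⁻ θ, C'/hh² · 2 hh M(Sh θ) = 2 C' ∫⁻ M(Sh θ)/hh`, and `1/hh ≤ 2 (v/W(S0) + 1/σ)`. Measurability: replace `gD` by an indicator times a continuous function on `ζ > 0`. -/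

open Complex MeasureTheory Set Filter Topology Metric intervalIntegral
open scoped ENNReal

namespace CF6

theorem g24a_mem {Φ : ℂ → ℂ} {τ xs : ℝ → ℝ} {S L C T σ c : ℝ} {B0 S0 Sh hh Ai : ℝ → ℝ}
    (F : FD Φ τ xs S L C T σ c B0 S0 Sh hh Ai) (s ζ : ℝ) : 0 ≤ gD Φ τ xs s ζ := by
  unfold gD
  exact mul_nonneg (norm_nonneg _) (F.dep.pos _).le

theorem e3_point {Φ : ℂ → ℂ} {τ xs : ℝ → ℝ} {S L C T σ c : ℝ} {B0 S0 Sh hh Ai : ℝ → ℝ}
    (F : FD Φ τ xs S L C T σ c B0 S0 Sh hh Ai) {z : ℂ} (hz : z ∈ strip T)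
    (h1 : T - z.re ≤ hh z.im) (h2 : T - σ / 2 < z.re)
    (hd1 : DifferentiableAt ℝ (XZ Φ τ xs T σ B0 Sh Ai) z) (hd2 : DifferentiableAt ℝ (ZZ T c hh) z) :
    ‖fderiv ℝ (fun z => Φ (PsiG Φ τ xs T σ c B0 Sh hh Ai z)) z 1‖ ^ 2 +
      ‖fderiv ℝ (fun z => Φ (PsiG Φ τ xs T σ c B0 Sh hh Ai z)) z I‖ ^ 2 ≤
      (4 + (4 * C + 2) ^ 2) * (gD Φ τ xs (Sh z.im) (ZZ T c hh z) / hh z.im) ^ 2 := by
  have hC1 : 1 ≤ C := F.tgt.C1
  have hC0 : 0 < C := by linarith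
  have hσ0 := F.lay.σ0
  have hσT := F.lay.σT
  have hT := F.Tpos
  obtain ⟨-, -, -, -, hX5⟩ := F.XZ_facts
  obtain ⟨-, -, hZ3, -, -, -⟩ := F.ZZ_facts
  obtain ⟨hLd, hXe⟩ := F.XZ_der hz hd1
  obtain ⟨-, hZder⟩ := F.ZZ_der hz hd2
  obtain ⟨hZ1, hZI⟩ := hZder h1
  obtain ⟨-, -, -, -, -, hBl⟩ := F.Bh_facts
  obtain ⟨-, -, hL1⟩ := Lam_der2 hT F.qp F.lay (by linarith) hz.2 hLd (hBl z.im)
  obtain ⟨hZ0, hZlt⟩ := hZ3 z hz
  have hhpos : 0 < hh z.im := (F.hh_facts.1 z.im).1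
  have hXeq : XZ Φ τ xs T σ B0 Sh Ai z = Sh z.im := hX5 z h2.le
  have hX1 : |fderiv ℝ (XZ Φ τ xs T σ B0 Sh Ai) z 1| = 0 := by
    rw [hXe 1, hL1 h2, zero_div, abs_zero]
  have hW0pos : 0 < gD Φ τ xs (S0 z.im) 1 := F.tgt.Wpos _
  have hXI : |fderiv ℝ (XZ Φ τ xs T σ B0 Sh Ai) z I| ≤ C / hh z.im := by
    have hloc := F.rep.loc z.im
    set k : ℝ := C * (deriv (lam T B0 (T - σ)) z.im / gD Φ τ xs (S0 z.im) 1 + 1 / σ) with hk
    have h3 : |fderiv ℝ (XZ Φ τ xs T σ B0 Sh Ai) z I| ≤ k := by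
      apply fderiv_dir_le hd1
      have ht : Tendsto (fun r : ℝ => z.im + r) (𝓝 0) (𝓝 z.im) := by
        have : Tendsto (fun r : ℝ => z.im + r) (𝓝 0) (𝓝 (z.im + 0)) :=
          (continuous_const.add continuous_id).tendsto 0
        rwa [add_zero] at this
      filter_upwards [ht.eventually hloc] with r hr
      have e1 : (z + r * I).re = z.re := by simp
      have e2 : (z + r * I).im = z.im + r := by simp
      rw [hX5 (z + r * I) (by rw [e1]; exact h2.le), hX5 z h2.le, e2]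
      have e3 : z.im + r - z.im = r := by ring
      rw [e3] at hr
      exact hr
    have h4 : k ≤ C / hh z.im := by
      rw [hk, F.hheq z.im, div_div_eq_mul_div, div_one]
      apply mul_le_mul_of_nonneg_left _ hC0.le
      have : 1 / σ ≤ 2 / σ := div_le_div_of_nonneg_right (by norm_num) hσ0.le
      linarith
    exact h3.trans h4
  obtain ⟨hch1, hch2⟩ := F.chain_le hd1 hd2 hZ0 hZlt.le 1
  obtain ⟨hchI, -⟩ := F.chain_le hd1 hd2 hZ0 hZlt.le I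
  have hPsi : (fun z => Φ (PsiG Φ τ xs T σ c B0 Sh hh Ai z)) =
      fun z => Φ (cu τ xs (XZ Φ τ xs T σ B0 Sh Ai z) (ZZ T c hh z)) := rfl
  rw [hPsi]
  rw [hX1, mul_zero, zero_add, hXeq] at hch1
  rw [hXeq] at hchI hch2
  set g : ℝ := gD Φ τ xs (Sh z.im) (ZZ T c hh z) with hg
  have hg0 : 0 ≤ g := g24a_mem F _ _
  have hf1 : ‖fderiv ℝ (fun z => Φ (cu τ xs (XZ Φ τ xs T σ B0 Sh Ai z) (ZZ T c hh z))) z 1‖ ≤
      2 * (g / hh z.im) := by
    refine hch1.trans ?_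
    calc g * |fderiv ℝ (ZZ T c hh) z 1| ≤ g * (2 / hh z.im) :=
          mul_le_mul_of_nonneg_left hZ1 hg0
      _ = 2 * (g / hh z.im) := by ring
  have hfI : ‖fderiv ℝ (fun z => Φ (cu τ xs (XZ Φ τ xs T σ B0 Sh Ai z) (ZZ T c hh z))) z I‖ ≤
      (4 * C + 2) * (g / hh z.im) := by
    refine hchI.trans ?_
    have hX0 := abs_nonneg (fderiv ℝ (XZ Φ τ xs T σ B0 Sh Ai) z I)
    calc g * (‖(1 + deriv τ (xs (Sh z.im)) * I : ℂ)‖ *
          |fderiv ℝ (XZ Φ τ xs T σ B0 Sh Ai) z I| + |fderiv ℝ (ZZ T c hh) z I|)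
        ≤ g * (2 * (C / hh z.im) + 2 * (C + 1) / hh z.im) := by
          apply mul_le_mul_of_nonneg_left _ hg0
          apply add_le_add _ hZI
          exact mul_le_mul hch2 hXI hX0 (by norm_num)
      _ = (4 * C + 2) * (g / hh z.im) := by ring
  have e1 := pow_le_pow_left₀ (norm_nonneg _) hf1 2
  have e2 := pow_le_pow_left₀ (norm_nonneg _) hfI 2
  calc _ ≤ (2 * (g / hh z.im)) ^ 2 + ((4 * C + 2) * (g / hh z.im)) ^ 2 := add_le_add e1 e2
    _ = _ := by ring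

theorem e3_inner {Φ : ℂ → ℂ} {τ xs : ℝ → ℝ} {S L C T σ c : ℝ} {B0 S0 Sh hh Ai : ℝ → ℝ}
    (F : FD Φ τ xs S L C T σ c B0 S0 Sh hh Ai) (θ : ℝ) :
    ∫⁻ t in Ioo (T - hh θ) T, ENNReal.ofReal (gD Φ τ xs (Sh θ) (Zf T c hh t θ)) ^ 2 ≤
      ENNReal.ofReal (2 * hh θ) * gM Φ τ xs (Sh θ) := by
  have hσ0 := F.lay.σ0
  have hσT := F.lay.σT
  have hT := F.Tpos
  obtain ⟨hh0, hhσ⟩ := F.hh_facts.1 θ
  have hc0 := F.c0
  have hc1 := F.c1
  set k : ℝ := (1 - c) / hh θ + c / T with hk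
  have hk1 : 1 / (2 * hh θ) ≤ k := by
    have h1 : 1 / (2 * hh θ) ≤ (1 - c) / hh θ := by
      rw [div_le_div_iff₀ (by positivity) hh0]
      nlinarith
    have h2 : 0 ≤ c / T := by positivity
    linarith
  have hk0 : 0 < k := lt_of_lt_of_le (by positivity) hk1
  have hkh : k * hh θ ≤ 1 := by
    have h1 : k * hh θ = (1 - c) + c * (hh θ / T) := by rw [hk]; field_simp
    have h2 : hh θ / T ≤ 1 := by rw [div_le_one hT]; linarith
    rw [h1]
    nlinarith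
  set f : ℝ → ℝ := fun t => k * (T - t) with hf
  set G : ℝ → ℝ≥0∞ := fun ζ => ENNReal.ofReal (gD Φ τ xs (Sh θ) ζ) ^ 2 with hG
  have hZf : ∀ t ∈ Ioo (T - hh θ) T, ENNReal.ofReal (gD Φ τ xs (Sh θ) (Zf T c hh t θ)) ^ 2 =
      G (f t) := by
    rintro t ⟨ht1, ht2⟩
    simp only [hG, hf]
    congr 3
    unfold Zf
    have : (T - t) / hh θ ≤ 1 := by rw [div_le_one hh0]; linarith
    rw [min_eq_right this, hk]
    field_simp
  rw [setLIntegral_congr_fun measurableSet_Ioo hZf]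
  have hder : ∀ t ∈ Ioo (T - hh θ) T, HasDerivWithinAt f (-k) (Ioo (T - hh θ) T) t := by
    intro t _
    have h1 : HasDerivAt f (k * (0 - 1)) t :=
      ((hasDerivAt_const t T).sub (hasDerivAt_id t)).const_mul k
    have h2 : k * (0 - 1) = -k := by ring
    rw [h2] at h1
    exact h1.hasDerivWithinAt
  have hinj : InjOn f (Ioo (T - hh θ) T) := by
    intro a _ b _ hab
    simp only [hf] at hab
    have := mul_left_cancel₀ hk0.ne' hab
    linarith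
  have hcv := lintegral_image_eq_lintegral_abs_deriv_mul measurableSet_Ioo hder hinj G
  rw [abs_neg, abs_of_pos hk0] at hcv
  rw [lintegral_const_mul' _ _ ENNReal.ofReal_ne_top] at hcv
  have himg : f '' Ioo (T - hh θ) T ⊆ Ioo 0 1 := by
    rintro _ ⟨t, ⟨ht1, ht2⟩, rfl⟩
    refine ⟨mul_pos hk0 (by linarith), ?_⟩
    simp only [hf]
    nlinarith
  have hle : ENNReal.ofReal k * ∫⁻ t in Ioo (T - hh θ) T, G (f t) ≤ gM Φ τ xs (Sh θ) := by
    rw [← hcv]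
    exact lintegral_mono_set himg
  have hone : ENNReal.ofReal (1 / k) * ENNReal.ofReal k = 1 := by
    rw [← ENNReal.ofReal_mul (by positivity), one_div, inv_mul_cancel₀ hk0.ne', ENNReal.ofReal_one]
  calc ∫⁻ t in Ioo (T - hh θ) T, G (f t)
      = ENNReal.ofReal (1 / k) * (ENNReal.ofReal k * ∫⁻ t in Ioo (T - hh θ) T, G (f t)) := by
        rw [← mul_assoc, hone, one_mul]
    _ ≤ ENNReal.ofReal (1 / k) * gM Φ τ xs (Sh θ) := mul_le_mul_right hle _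
    _ ≤ ENNReal.ofReal (2 * hh θ) * gM Φ τ xs (Sh θ) := by
        apply mul_le_mul_left
        apply ENNReal.ofReal_le_ofReal
        rw [div_le_iff₀ hk0]
        rw [div_le_iff₀ (by positivity)] at hk1
        linarith

end CF6

end

section

/-! # G24b: energy of the last part

`e3_point`: here `re ≥ T - σ/2`; `XZ = Sh(im)`. If `re > T - σ/2`: `X_t = 0` (`Lam_der2`, `XZ_der`), `|X_θ| ≤ C (v/W(S0) + 1/σ) ≤ C/hh` (`Rep.loc`, `fderiv_dir_le`; `1/hh = v/W(S0) + 2/σ`). `ZZ_der`: `|Z_t| ≤ 2/hh`, `|Z_θ| ≤ 2(C+1)/hh`. `chain_le`: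
`|f_t| ≤ gD X Z · 2/hh`, `|f_θ| ≤ gD X Z (2 C + 2 (C+1))/hh`. (The line `re = T - σ/2` is excluded by hypothesis; it is a null set.)
`e3_inner`: for fixed `θ`, `k = (1-c)/hh + c/T ≥ 1/(2 hh)`, for `T - hh ≤ t < T`: `Zf = k (T-t)`, `k hh ≤ 1`; substitution `ζ = k (T-t)`: `∫⁻_t gD(Sh, Zf)² = (1/k) ∫⁻_{(0,k hh)} gD(Sh,ζ)² ≤ 2 hh M(Sh θ)`.
`energy3`: Tonelli (`θ` outside): `∫⁻ θ, C'/hh² · 2 hh M(Sh θ) = 2 C' ∫⁻ M(Sh θ)/hh`, and `1/hh ≤ 2 (v/W(S0) + 1/σ)`. Measurability: replace `gD` by an indicator times a continuous function on `ζ > 0`. -/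

open Complex MeasureTheory Set Filter Topology Metric intervalIntegral
open scoped ENNReal

namespace CF6

theorem g24b_line (a : ℝ) : volume {z : ℂ | z.re = a} = 0 := by
  have h1 : {z : ℂ | z.re = a} = Complex.measurableEquivRealProd ⁻¹' ({a} ×ˢ univ) := by
    ext z
    simp [Complex.measurableEquivRealProd_apply]
  have hm : MeasurableSet (({a} : Set ℝ) ×ˢ (univ : Set ℝ)) :=
    (measurableSet_singleton a).prod MeasurableSet.univ
  rw [h1, Complex.volume_preserving_equiv_real_prod.measure_preimage hm.nullMeasurableSet,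
    Measure.volume_eq_prod, Measure.prod_prod, Real.volume_singleton, zero_mul]

section
variable {Φ : ℂ → ℂ} {τ xs : ℝ → ℝ} {S L C T σ c : ℝ} {B0 S0 Sh hh Ai : ℝ → ℝ}

/-- the region -/
def g24b_U (T : ℝ) (hh : ℝ → ℝ) : Set ℂ := {z | T - hh z.im ≤ z.re ∧ z.re < T}

open Classical in
/-- the measurable majorant -/
noncomputable def g24b_g (Φ : ℂ → ℂ) (τ xs : ℝ → ℝ) (T c : ℝ) (Sh hh : ℝ → ℝ) : ℂ → ℝ≥0∞ :=
  (g24b_U T hh).piecewise
    (fun z => ENNReal.ofReal (gD Φ τ xs (Sh z.im) (Zf T c hh z.re z.im)) ^ 2 *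
      ENNReal.ofReal (1 / hh z.im) ^ 2) (fun _ => 0)

theorem g24b_Zf_pos (F : FD Φ τ xs S L C T σ c B0 S0 Sh hh Ai) {t θ : ℝ} (ht : t < T) :
    0 < Zf T c hh t θ := by
  have h0 := (F.hh_facts.1 θ).1
  have hc := F.c1
  have h1 : 0 < min 1 ((T - t) / hh θ) := lt_min one_pos (div_pos (by linarith) h0)
  have h2 : 0 ≤ c * (T - t) / T := by
    have := F.Tpos
    have := F.c0
    have : 0 < T - t := by linarith
    positivity
  have h3 : 0 < (1 - c) * min 1 ((T - t) / hh θ) := mul_pos (by linarith) h1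
  unfold Zf
  linarith

theorem g24b_meas (F : FD Φ τ xs S L C T σ c B0 S0 Sh hh Ai) :
    Measurable (g24b_g Φ τ xs T c Sh hh) := by
  have hhc : Continuous hh := F.hh_facts.2.2.1
  have hh0 : ∀ θ, 0 < hh θ := fun θ => (F.hh_facts.1 θ).1
  have hU : MeasurableSet (g24b_U T hh) := by
    have e : g24b_U T hh = {z : ℂ | T - hh z.im ≤ z.re} ∩ {z : ℂ | z.re < T} := rfl
    rw [e]
    exact (isClosed_le (by fun_prop) continuous_re).measurableSet.inter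
      (isOpen_lt continuous_re continuous_const).measurableSet
  obtain ⟨K, hK⟩ := F.rep.lip
  have hSh : Continuous Sh := hK.continuous
  have hxs : Continuous xs := by
    rw [continuous_iff_continuousAt]
    exact fun s => (F.par.der s).continuousAt
  have hτ : Continuous τ := F.dep.smooth.continuous
  have hopen : IsOpen UHP := isOpen_lt continuous_const continuous_im
  have hd : ContinuousOn (deriv Φ) UHP := (F.hol.deriv hopen).continuousOn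
  have hZ : ContinuousOn (fun z : ℂ => Zf T c hh z.re z.im) (g24b_U T hh) := by
    have : Continuous (fun z : ℂ => Zf T c hh z.re z.im) := by
      unfold Zf
      have h1 : Continuous (fun z : ℂ => (T - z.re) / hh z.im) :=
        Continuous.div (by fun_prop) (by fun_prop) (fun z => (hh0 _).ne')
      have h2 : Continuous (fun z : ℂ => min 1 ((T - z.re) / hh z.im)) := continuous_const.min h1
      exact (continuous_const.mul h2).add (by fun_prop)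
    exact this.continuousOn
  have hcu : ContinuousOn (fun z : ℂ => cu τ xs (Sh z.im) (Zf T c hh z.re z.im))
      (g24b_U T hh) := by
    unfold cu
    have h1 : ContinuousOn (fun z : ℂ => ((Zf T c hh z.re z.im : ℝ) : ℂ)) (g24b_U T hh) :=
      continuous_ofReal.comp_continuousOn hZ
    have h2 : Continuous (fun z : ℂ => ((xs (Sh z.im) : ℝ) : ℂ)) := by fun_prop
    have h3 : Continuous (fun z : ℂ => ((τ (xs (Sh z.im)) : ℝ) : ℂ)) := by fun_prop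
    exact h2.continuousOn.add ((h3.continuousOn.mul h1).mul continuousOn_const)
  have hmaps : MapsTo (fun z : ℂ => cu τ xs (Sh z.im) (Zf T c hh z.re z.im))
      (g24b_U T hh) UHP := by
    intro z hz
    have h1 : 0 < Zf T c hh z.re z.im := g24b_Zf_pos F hz.2
    have h2 := F.dep.pos (xs (Sh z.im))
    show 0 < (cu τ xs (Sh z.im) (Zf T c hh z.re z.im)).im
    unfold cu
    simp
    exact mul_pos h2 h1
  have hgD : ContinuousOn (fun z : ℂ => gD Φ τ xs (Sh z.im) (Zf T c hh z.re z.im))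
      (g24b_U T hh) := by
    unfold gD
    exact (hd.comp hcu hmaps).norm.mul
      (by fun_prop : Continuous (fun z : ℂ => τ (xs (Sh z.im)))).continuousOn
  unfold g24b_g
  classical
  refine ContinuousOn.measurable_piecewise ?_ continuousOn_const hU
  have h1 : ContinuousOn (fun z : ℂ =>
      ENNReal.ofReal ((gD Φ τ xs (Sh z.im) (Zf T c hh z.re z.im)) ^ 2 * (1 / hh z.im) ^ 2))
      (g24b_U T hh) := by
    refine ENNReal.continuous_ofReal.comp_continuousOn ?_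
    refine (hgD.pow 2).mul ?_
    have : Continuous (fun z : ℂ => (1 / hh z.im) ^ 2) :=
      (Continuous.div continuous_const (by fun_prop) (fun z => (hh0 _).ne')).pow 2
    exact this.continuousOn
  refine h1.congr ?_
  intro z hz
  have g0 : 0 ≤ gD Φ τ xs (Sh z.im) (Zf T c hh z.re z.im) :=
    mul_nonneg (norm_nonneg _) (F.dep.pos _).le
  beta_reduce
  rw [ENNReal.ofReal_mul (sq_nonneg _), ENNReal.ofReal_pow g0,
    ENNReal.ofReal_pow (by have := hh0 z.im; positivity)]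

theorem g24b_point (F : FD Φ τ xs S L C T σ c B0 S0 Sh hh Ai) {z : ℂ} (hz : z ∈ g24b_U T hh)
    {a b : ℂ} (h : ‖a‖ ^ 2 + ‖b‖ ^ 2 ≤
      (4 + (4 * C + 2) ^ 2) * (gD Φ τ xs (Sh z.im) (ZZ T c hh z) / hh z.im) ^ 2) :
    ‖a‖ₑ ^ 2 + ‖b‖ₑ ^ 2 ≤ ENNReal.ofReal (4 + (4 * C + 2) ^ 2) * g24b_g Φ τ xs T c Sh hh z := by
  classical
  have g0 : 0 ≤ gD Φ τ xs (Sh z.im) (Zf T c hh z.re z.im) :=
    mul_nonneg (norm_nonneg _) (F.dep.pos _).le
  have h0 := (F.hh_facts.1 z.im).1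
  unfold g24b_g
  rw [piecewise_eq_of_mem _ _ _ hz, ← ENNReal.ofReal_pow g0, ← ENNReal.ofReal_pow (by positivity),
    ← ENNReal.ofReal_mul (sq_nonneg _), ← ENNReal.ofReal_mul (by positivity),
    ← ofReal_norm, ← ofReal_norm, ← ENNReal.ofReal_pow (norm_nonneg _),
    ← ENNReal.ofReal_pow (norm_nonneg _), ← ENNReal.ofReal_add (sq_nonneg _) (sq_nonneg _)]
  refine ENNReal.ofReal_le_ofReal (h.trans (le_of_eq ?_))
  unfold ZZ
  rw [div_eq_mul_one_div, mul_pow]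

theorem g24b_inner (F : FD Φ τ xs S L C T σ c B0 S0 Sh hh Ai) (θ : ℝ) :
    ∫⁻ t in Ioo (T - σ) T, g24b_g Φ τ xs T c Sh hh (t + θ * I) ≤
      gM Φ τ xs (Sh θ) * ENNReal.ofReal (4 * (deriv (lam T B0 (T - σ)) θ / gD Φ τ xs (S0 θ) 1
        + 1 / σ)) := by
  classical
  have h0 := (F.hh_facts.1 θ).1
  have e : ∀ t : ℝ, g24b_g Φ τ xs T c Sh hh (t + θ * I) =
      (Ico (T - hh θ) T).indicator (fun t => ENNReal.ofReal (gD Φ τ xs (Sh θ) (Zf T c hh t θ)) ^ 2 *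
        ENNReal.ofReal (1 / hh θ) ^ 2) t := by
    intro t
    unfold g24b_g
    have hre : ((t : ℂ) + θ * I).re = t := by simp
    have him : ((t : ℂ) + θ * I).im = θ := by simp
    by_cases ht : t ∈ Ico (T - hh θ) T
    · rw [indicator_of_mem ht, piecewise_eq_of_mem]
      · rw [hre, him]
      · show T - hh ((t : ℂ) + θ * I).im ≤ ((t : ℂ) + θ * I).re ∧ ((t : ℂ) + θ * I).re < T
        rw [hre, him]
        exact ht
    · rw [indicator_of_notMem ht, piecewise_eq_of_notMem]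
      intro hcon
      apply ht
      have : T - hh ((t : ℂ) + θ * I).im ≤ ((t : ℂ) + θ * I).re ∧
          ((t : ℂ) + θ * I).re < T := hcon
      rwa [hre, him] at this
  calc ∫⁻ t in Ioo (T - σ) T, g24b_g Φ τ xs T c Sh hh (t + θ * I)
      = ∫⁻ t in Ioo (T - σ) T, (Ico (T - hh θ) T).indicator
          (fun t => ENNReal.ofReal (gD Φ τ xs (Sh θ) (Zf T c hh t θ)) ^ 2 *
            ENNReal.ofReal (1 / hh θ) ^ 2) t := by
        exact lintegral_congr fun t => e t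
    _ ≤ ∫⁻ t, (Ico (T - hh θ) T).indicator
          (fun t => ENNReal.ofReal (gD Φ τ xs (Sh θ) (Zf T c hh t θ)) ^ 2 *
            ENNReal.ofReal (1 / hh θ) ^ 2) t := setLIntegral_le_lintegral _ _
    _ = ∫⁻ t in Ico (T - hh θ) T, ENNReal.ofReal (gD Φ τ xs (Sh θ) (Zf T c hh t θ)) ^ 2 *
            ENNReal.ofReal (1 / hh θ) ^ 2 := lintegral_indicator measurableSet_Ico _
    _ = ∫⁻ t in Ioo (T - hh θ) T, ENNReal.ofReal (gD Φ τ xs (Sh θ) (Zf T c hh t θ)) ^ 2 *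
            ENNReal.ofReal (1 / hh θ) ^ 2 := by
        rw [restrict_Ioo_eq_restrict_Ico]
    _ = (∫⁻ t in Ioo (T - hh θ) T, ENNReal.ofReal (gD Φ τ xs (Sh θ) (Zf T c hh t θ)) ^ 2) *
            ENNReal.ofReal (1 / hh θ) ^ 2 := by
        rw [lintegral_mul_const' _ _ (ENNReal.pow_ne_top ENNReal.ofReal_ne_top)]
    _ ≤ (ENNReal.ofReal (2 * hh θ) * gM Φ τ xs (Sh θ)) * ENNReal.ofReal (1 / hh θ) ^ 2 :=
        mul_le_mul_left (e3_inner F θ) _
    _ = gM Φ τ xs (Sh θ) * ENNReal.ofReal (2 * (1 / hh θ)) := by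
        rw [mul_comm (ENNReal.ofReal (2 * hh θ)), mul_assoc, ← ENNReal.ofReal_pow (by positivity),
          ← ENNReal.ofReal_mul (by positivity)]
        congr 2
        field_simp
    _ ≤ _ := by
        refine mul_le_mul_right (ENNReal.ofReal_le_ofReal ?_) _
        have hW : 0 < gD Φ τ xs (S0 θ) 1 := F.tgt.Wpos (S0 θ)
        have hv : 0 < deriv (lam T B0 (T - σ)) θ := F.lay.pos θ
        have hσ : 0 < σ := F.lay.σ0
        rw [F.hheq θ, one_div_one_div]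
        have h1 : 0 ≤ deriv (lam T B0 (T - σ)) θ / gD Φ τ xs (S0 θ) 1 := by positivity
        have h2 : 2 / σ = 2 * (1 / σ) := by ring
        rw [h2]
        linarith

end

theorem energy3 (C : ℝ) : ∃ C' : ℝ, 1 ≤ C' ∧ ∀ (Φ : ℂ → ℂ) (τ xs : ℝ → ℝ) (S L T σ c : ℝ)
    (B0 S0 Sh hh Ai : ℝ → ℝ), FD Φ τ xs S L C T σ c B0 S0 Sh hh Ai →
    en {z | T - σ < z.re ∧ z.re < T ∧ T - z.re ≤ hh z.im ∧ 0 < z.im ∧ z.im < 2 * Real.pi}
        (fun z => fderiv ℝ (fun z => Φ (PsiG Φ τ xs T σ c B0 Sh hh Ai z)) z 1)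
        (fun z => fderiv ℝ (fun z => Φ (PsiG Φ τ xs T σ c B0 Sh hh Ai z)) z I) ≤
      ENNReal.ofReal C' * ∫⁻ θ in Ioo 0 (2 * Real.pi), gM Φ τ xs (Sh θ) *
        ENNReal.ofReal (deriv (lam T B0 (T - σ)) θ / gD Φ τ xs (S0 θ) 1 + 1 / σ) := by
  refine ⟨(4 + (4 * C + 2) ^ 2) * 4, by nlinarith [sq_nonneg (4 * C + 2)], ?_⟩
  intro Φ τ xs S L T σ c B0 S0 Sh hh Ai F
  set R : Set ℂ := {z | T - σ < z.re ∧ z.re < T ∧ T - z.re ≤ hh z.im ∧ 0 < z.im ∧
    z.im < 2 * Real.pi} with hR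
  set R' : Set ℂ := {z : ℂ | T - σ < z.re ∧ z.re < T ∧ 0 < z.im ∧ z.im < 2 * Real.pi} with hR'
  have hK0 : 0 ≤ 4 + (4 * C + 2) ^ 2 := by positivity
  have hhc : Continuous hh := F.hh_facts.2.2.1
  have hRm : MeasurableSet R := by
    have e : R = {z : ℂ | T - σ < z.re} ∩ ({z : ℂ | z.re < T} ∩ ({z : ℂ | T - z.re ≤ hh z.im} ∩
      ({z : ℂ | 0 < z.im} ∩ {z : ℂ | z.im < 2 * Real.pi}))) := rfl
    rw [e]
    exact (isOpen_lt continuous_const continuous_re).measurableSet.inter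
      ((isOpen_lt continuous_re continuous_const).measurableSet.inter
      ((isClosed_le (by fun_prop) (by fun_prop)).measurableSet.inter
      ((isOpen_lt continuous_const continuous_im).measurableSet.inter
      (isOpen_lt continuous_im continuous_const).measurableSet)))
  have hsub : R ⊆ R' := fun z hz => ⟨hz.1, hz.2.1, hz.2.2.2.1, hz.2.2.2.2⟩
  have hline : ∀ᵐ z : ℂ, z.re ≠ T - σ / 2 := by
    rw [ae_iff]
    simpa using g24b_line (T - σ / 2)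
  have hXd := LL_ae_diff F.XZ_facts.2.1
  have hZd := LL_ae_diff F.ZZ_facts.2.1
  have hT := F.Tpos
  have hσT := F.lay.σT
  have hσ := F.lay.σ0
  have hg := g24b_meas F
  calc en R _ _
      ≤ ∫⁻ z in R, ENNReal.ofReal (4 + (4 * C + 2) ^ 2) * g24b_g Φ τ xs T c Sh hh z := by
        unfold en
        refine lintegral_mono_ae ?_
        rw [ae_restrict_iff' hRm]
        filter_upwards [hline, hXd, hZd] with z h1 h2 h3 hz
        have hs : z ∈ strip T := ⟨by linarith [hz.1], hz.2.1⟩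
        have h4 : T - σ / 2 < z.re := by
          have := (F.hh_facts.1 z.im).2
          have h5 : T - σ / 2 ≤ z.re := by linarith [hz.2.2.1]
          exact lt_of_le_of_ne h5 (Ne.symm h1)
        exact g24b_point F ⟨by linarith [hz.2.2.1], hz.2.1⟩
          (e3_point F hs hz.2.2.1 h4 (h2 hs) (h3 hs))
    _ ≤ ∫⁻ z in R', ENNReal.ofReal (4 + (4 * C + 2) ^ 2) * g24b_g Φ τ xs T c Sh hh z :=
        lintegral_mono_set hsub
    _ = ENNReal.ofReal (4 + (4 * C + 2) ^ 2) * ∫⁻ z in R', g24b_g Φ τ xs T c Sh hh z :=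
        lintegral_const_mul _ hg
    _ = ENNReal.ofReal (4 + (4 * C + 2) ^ 2) * ∫⁻ t in Ioo (T - σ) T,
          ∫⁻ θ in Ioo 0 (2 * Real.pi), g24b_g Φ τ xs T c Sh hh (t + θ * I) := by
        rw [hR', lintegral_rect hg]
    _ = ENNReal.ofReal (4 + (4 * C + 2) ^ 2) * ∫⁻ θ in Ioo 0 (2 * Real.pi),
          ∫⁻ t in Ioo (T - σ) T, g24b_g Φ τ xs T c Sh hh (t + θ * I) := by
        congr 1
        refine lintegral_lintegral_swap ?_
        exact (hg.comp (by fun_prop : Measurable fun p : ℝ × ℝ =>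
          ((p.1 : ℂ) + (p.2 : ℂ) * I))).aemeasurable
    _ ≤ ENNReal.ofReal (4 + (4 * C + 2) ^ 2) * ∫⁻ θ in Ioo 0 (2 * Real.pi),
          gM Φ τ xs (Sh θ) * ENNReal.ofReal (4 * (deriv (lam T B0 (T - σ)) θ /
            gD Φ τ xs (S0 θ) 1 + 1 / σ)) := by
        refine mul_le_mul_right (lintegral_mono fun θ => g24b_inner F θ) _
    _ = ENNReal.ofReal ((4 + (4 * C + 2) ^ 2) * 4) * ∫⁻ θ in Ioo 0 (2 * Real.pi),
          gM Φ τ xs (Sh θ) * ENNReal.ofReal (deriv (lam T B0 (T - σ)) θ /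
            gD Φ τ xs (S0 θ) 1 + 1 / σ) := by
        rw [ENNReal.ofReal_mul hK0, mul_assoc]
        congr 1
        rw [← lintegral_const_mul' _ _ ENNReal.ofReal_ne_top]
        refine lintegral_congr fun θ => ?_
        rw [ENNReal.ofReal_mul (by norm_num : (0 : ℝ) ≤ 4)]
        ring

end CF6

end
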