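import Pool.Agent.Lib.MP_cf6b16_an.K1
import Pool.Agent.Lib.MP_cf6b16_an.G1

section

/-! # G04a: radii near the curve

`gD_near`: `‖cu s ζ - cu s 1‖ = τ(xs s)(1-ζ) ≤ τ(xs s)/(8 C0)`, `im (cu s 1) = τ(xs s) ≤ y1/10`: `koebe_harnack`.
`gM_ge`: restrict the integral over `ζ` to `(1 - 1/(8C0), 1)`, there `gD s ζ ≥ W/(2C0²)`: `gM ≥ W²/(4 C0⁴) · 1/(8 C0)`.
`gM_meas`: `(s,ζ) ↦ gD s ζ` is continuous on `ℝ × (0,∞)` (measurable after multiplication with an indicator: `Measurable.lintegral_prod_right'`), `deriv Φ` is continuous on UHP.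
`gD_w`: `Koebe` at `u = cu s 1`. `cu_dist`: for `s, s'` : `‖Φ(cu s 1) - Φ(cu s' 1)‖ ≤ |gA s - gA s'|` (mean value: the curve `s ↦ Φ(cu s 1)` has speed `deriv gA s`; e.g. `norm_image_sub_le_of_norm_deriv_le_segment'` against the
increasing function `gA`: `image_norm_le_of_norm_deriv_right_le_deriv_boundary`, or integrate). -/

open Complex MeasureTheory Set Filter Topology Metric intervalIntegral
open scoped ENNReal

namespace CF6

theorem gD_near {C0 y1 : ℝ} (hC : 1 ≤ C0) {K : Set ℂ} {Φ ρ : ℂ → ℂ} (hK : Collar K Φ ρ)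
    (hk : Koebe C0 y1 K Φ) {τ xs : ℝ → ℝ} {S : ℝ} (hτ : Depth (1 / 10) (y1 / 10) τ)
    (hp : Par τ xs S) (s : ℝ) {ζ : ℝ} (h0 : 1 - 1 / (8 * C0) ≤ ζ) (h1 : ζ ≤ 1) :
    gD Φ τ xs s ζ ≤ 2 * C0 ^ 2 * gD Φ τ xs s 1 ∧ gD Φ τ xs s 1 ≤ 2 * C0 ^ 2 * gD Φ τ xs s ζ := by
  have hC0 : 0 < C0 := by linarith
  have hpos := hτ.pos (xs s)
  have hle := hτ.le (xs s)
  obtain ⟨hi, _⟩ := cu_im τ xs s 1
  rw [mul_one] at hi
  have h2 : ‖cu τ xs s ζ - cu τ xs s 1‖ ≤ (cu τ xs s 1).im / (8 * C0) := by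
    have e1 : cu τ xs s ζ - cu τ xs s 1 = ((τ (xs s) * (ζ - 1) : ℝ) : ℂ) * I := by
      unfold cu
      push_cast
      ring
    rw [e1, norm_mul, norm_I, mul_one, norm_real, Real.norm_eq_abs, abs_mul, abs_of_pos hpos, hi]
    have h3 : abs (ζ - 1) ≤ 1 / (8 * C0) := by
      rw [abs_le]
      constructor
      · linarith
      · have : 0 < 1 / (8 * C0) := by positivity
        linarith
    calc τ (xs s) * abs (ζ - 1) ≤ τ (xs s) * (1 / (8 * C0)) :=
          mul_le_mul_of_nonneg_left h3 hpos.le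
      _ = τ (xs s) / (8 * C0) := by ring
  have h4 := koebe_harnack hC hK hk (u := cu τ xs s 1) (u' := cu τ xs s ζ) (by rw [hi]; exact hpos)
    (by rw [hi]; linarith) h2
  unfold gD
  constructor
  · calc ‖deriv Φ (cu τ xs s ζ)‖ * τ (xs s) ≤
          (2 * C0 ^ 2 * ‖deriv Φ (cu τ xs s 1)‖) * τ (xs s) :=
          mul_le_mul_of_nonneg_right h4.1 hpos.le
      _ = 2 * C0 ^ 2 * (‖deriv Φ (cu τ xs s 1)‖ * τ (xs s)) := by ring
  · calc ‖deriv Φ (cu τ xs s 1)‖ * τ (xs s) ≤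
          (2 * C0 ^ 2 * ‖deriv Φ (cu τ xs s ζ)‖) * τ (xs s) :=
          mul_le_mul_of_nonneg_right h4.2 hpos.le
      _ = 2 * C0 ^ 2 * (‖deriv Φ (cu τ xs s ζ)‖ * τ (xs s)) := by ring

theorem gM_ge {C0 y1 : ℝ} (hC : 1 ≤ C0) {K : Set ℂ} {Φ ρ : ℂ → ℂ} (hK : Collar K Φ ρ)
    (hk : Koebe C0 y1 K Φ) {τ xs : ℝ → ℝ} {S : ℝ} (hτ : Depth (1 / 10) (y1 / 10) τ)
    (hp : Par τ xs S) (s : ℝ) :
    ENNReal.ofReal (gD Φ τ xs s 1) ^ 2 ≤ ENNReal.ofReal (32 * C0 ^ 5) * gM Φ τ xs s := by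
  have hC0 : 0 < C0 := by linarith
  have hW : 0 ≤ gD Φ τ xs s 1 := by
    unfold gD
    exact mul_nonneg (norm_nonneg _) (hτ.pos _).le
  have h1 : 1 / (8 * C0) ≤ 1 := by
    rw [div_le_one (by positivity)]
    linarith
  have h2 : ENNReal.ofReal (gD Φ τ xs s 1 ^ 2 / (4 * C0 ^ 4)) *
      ENNReal.ofReal (1 / (8 * C0)) ≤ gM Φ τ xs s := by
    have e1 : ENNReal.ofReal (1 / (8 * C0)) = volume (Ioo (1 - 1 / (8 * C0)) 1) := by
      rw [Real.volume_Ioo]
      congr 1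
      ring
    rw [e1, ← setLIntegral_const]
    unfold gM
    calc ∫⁻ _ in Ioo (1 - 1 / (8 * C0)) 1, ENNReal.ofReal (gD Φ τ xs s 1 ^ 2 / (4 * C0 ^ 4)) ≤
          ∫⁻ ζ in Ioo (1 - 1 / (8 * C0)) 1, ENNReal.ofReal (gD Φ τ xs s ζ) ^ 2 := by
          apply setLIntegral_mono' measurableSet_Ioo
          intro ζ hζ
          have h3 := (gD_near hC hK hk hτ hp s hζ.1.le hζ.2.le).2
          have h4 : 0 ≤ gD Φ τ xs s ζ := by
            unfold gD
            exact mul_nonneg (norm_nonneg _) (hτ.pos _).le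
          rw [← ENNReal.ofReal_pow h4]
          apply ENNReal.ofReal_le_ofReal
          rw [div_le_iff₀ (by positivity)]
          calc gD Φ τ xs s 1 ^ 2 ≤ (2 * C0 ^ 2 * gD Φ τ xs s ζ) ^ 2 :=
                pow_le_pow_left₀ hW h3 2
            _ = gD Φ τ xs s ζ ^ 2 * (4 * C0 ^ 4) := by ring
      _ ≤ ∫⁻ ζ in Ioo (0 : ℝ) 1, ENNReal.ofReal (gD Φ τ xs s ζ) ^ 2 := by
          apply lintegral_mono_set
          intro ζ hζ
          exact ⟨by linarith [hζ.1], hζ.2⟩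
  calc ENNReal.ofReal (gD Φ τ xs s 1) ^ 2 = ENNReal.ofReal (32 * C0 ^ 5) *
        (ENNReal.ofReal (gD Φ τ xs s 1 ^ 2 / (4 * C0 ^ 4)) * ENNReal.ofReal (1 / (8 * C0))) := by
        rw [← ENNReal.ofReal_mul (by positivity), ← ENNReal.ofReal_mul (by positivity),
          ← ENNReal.ofReal_pow hW]
        congr 1
        field_simp
        ring
    _ ≤ ENNReal.ofReal (32 * C0 ^ 5) * gM Φ τ xs s := by gcongr

theorem gD_w {C0 y1 : ℝ} {K : Set ℂ} {Φ : ℂ → ℂ}
    (hk : Koebe C0 y1 K Φ) {τ xs : ℝ → ℝ} (hτ : Depth (1 / 10) (y1 / 10) τ) (hy : 0 < y1) (s : ℝ) :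
    gD Φ τ xs s 1 ≤ C0 * infDist (Φ (cu τ xs s 1)) K ∧
      infDist (Φ (cu τ xs s 1)) K ≤ C0 * gD Φ τ xs s 1 := by
  have hpos := hτ.pos (xs s)
  have hle := hτ.le (xs s)
  obtain ⟨hi, _⟩ := cu_im τ xs s 1
  rw [mul_one] at hi
  have h1 := hk (cu τ xs s 1) (by rw [hi]; exact hpos) (by rw [hi]; linarith)
  rw [hi] at h1
  exact h1

end CF6

end

section

/-! # G06: logarithmic area

`lintegral_log`: translate by `k` (`lintegral_sub_right_eq_self`), polar coordinates `Complex.lintegral_comp_polarCoord_symm` : the integral is `∫⁻ (r,φ) in (0,∞)×(-π,π), ofReal r * ...= 2π ∫_m^M' dr/r = 2π log (M'/m)`.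
`lintegral_cu_log`: `lintegral_cu` with `F w = indicator {m < ‖w-k‖ < M'} (1/‖w-k‖²)`, and the integral over the image is at most the one over `ℂ`. -/

open Complex MeasureTheory Set Filter Topology Metric intervalIntegral
open scoped ENNReal

namespace CF6

private theorem g06_radial {m M' : ℝ} (hm : 0 < m) (hM : m < M') :
    ∫⁻ r in Ioi (0 : ℝ), indicator (Ioo m M') (fun r => ENNReal.ofReal (1 / r)) r =
      ENNReal.ofReal (Real.log (M' / m)) := by
  rw [setLIntegral_indicator measurableSet_Ioo]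
  have hI : Ioo m M' ∩ Ioi (0 : ℝ) = Ioo m M' :=
    inter_eq_left.2 fun r hr => lt_trans hm hr.1
  rw [hI]
  have hcont : ContinuousOn (fun r : ℝ => 1 / r) (Icc m M') := by
    refine continuousOn_const.div continuousOn_id fun r hr => ?_
    exact (lt_of_lt_of_le hm hr.1).ne'
  have hint : IntegrableOn (fun r : ℝ => 1 / r) (Ioo m M') :=
    (hcont.integrableOn_Icc).mono_set Ioo_subset_Icc_self
  rw [← ofReal_integral_eq_lintegral_ofReal hint]
  · congr 1
    rw [← integral_Ioc_eq_integral_Ioo, ← intervalIntegral.integral_of_le hM.le,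
      integral_one_div_of_pos hm (lt_trans hm hM)]
  · rw [Filter.EventuallyLE, ae_restrict_iff' measurableSet_Ioo]
    refine ae_of_all _ fun r hr => ?_
    exact one_div_nonneg.2 (lt_trans hm hr.1).le

theorem lintegral_log (k : ℂ) {m M' : ℝ} (hm : 0 < m) (hM : m < M') :
    ∫⁻ w : ℂ, indicator {w : ℂ | m < ‖w - k‖ ∧ ‖w - k‖ < M'}
      (fun w => ENNReal.ofReal (1 / ‖w - k‖ ^ 2)) w ≤
      ENNReal.ofReal (2 * Real.pi * Real.log (M' / m)) := by
  set G : ℂ → ℝ≥0∞ := fun u => indicator {u : ℂ | m < ‖u‖ ∧ ‖u‖ < M'}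
      (fun u => ENNReal.ofReal (1 / ‖u‖ ^ 2)) u with hG
  have h1 : ∀ w : ℂ, indicator {w : ℂ | m < ‖w - k‖ ∧ ‖w - k‖ < M'}
      (fun w => ENNReal.ofReal (1 / ‖w - k‖ ^ 2)) w = G (w - k) := by
    intro w
    rw [hG]
    by_cases hw : m < ‖w - k‖ ∧ ‖w - k‖ < M'
    · rw [indicator_of_mem (show w ∈ {w : ℂ | m < ‖w - k‖ ∧ ‖w - k‖ < M'} from hw)]
      show _ = indicator {u : ℂ | m < ‖u‖ ∧ ‖u‖ < M'} (fun u => ENNReal.ofReal (1 / ‖u‖ ^ 2)) (w - k)
      rw [indicator_of_mem (show w - k ∈ {u : ℂ | m < ‖u‖ ∧ ‖u‖ < M'} from hw)]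
    · rw [indicator_of_notMem (show w ∉ {w : ℂ | m < ‖w - k‖ ∧ ‖w - k‖ < M'} from hw)]
      show _ = indicator {u : ℂ | m < ‖u‖ ∧ ‖u‖ < M'} (fun u => ENNReal.ofReal (1 / ‖u‖ ^ 2)) (w - k)
      rw [indicator_of_notMem (show w - k ∉ {u : ℂ | m < ‖u‖ ∧ ‖u‖ < M'} from hw)]
  rw [lintegral_congr h1, lintegral_sub_right_eq_self G k, ← Complex.lintegral_comp_polarCoord_symm G]
  set g : ℝ → ℝ≥0∞ := indicator (Ioo m M') (fun r => ENNReal.ofReal (1 / r)) with hg
  have hgm : Measurable g := by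
    refine Measurable.indicator ?_ measurableSet_Ioo
    exact ENNReal.measurable_ofReal.comp (measurable_const.div measurable_id)
  have hmeasT : MeasurableSet (Ioi (0 : ℝ) ×ˢ Ioo (-Real.pi) Real.pi) :=
    measurableSet_Ioi.prod measurableSet_Ioo
  have h2 : ∫⁻ p in Ioi (0 : ℝ) ×ˢ Ioo (-Real.pi) Real.pi,
      ENNReal.ofReal p.1 • G (Complex.polarCoord.symm p) =
      ∫⁻ p in Ioi (0 : ℝ) ×ˢ Ioo (-Real.pi) Real.pi, g p.1 := by
    refine setLIntegral_congr_fun hmeasT fun p hp => ?_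
    have hp0 : 0 < p.1 := hp.1
    show ENNReal.ofReal p.1 * indicator {u : ℂ | m < ‖u‖ ∧ ‖u‖ < M'}
      (fun u => ENNReal.ofReal (1 / ‖u‖ ^ 2)) (Complex.polarCoord.symm p) = g p.1
    have hn : ‖Complex.polarCoord.symm p‖ = p.1 := by
      rw [Complex.norm_polarCoord_symm, abs_of_pos hp0]
    by_cases hh : m < p.1 ∧ p.1 < M'
    · have hmem : Complex.polarCoord.symm p ∈ {u : ℂ | m < ‖u‖ ∧ ‖u‖ < M'} := by
        show m < ‖Complex.polarCoord.symm p‖ ∧ ‖Complex.polarCoord.symm p‖ < M'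
        rw [hn]; exact hh
      rw [indicator_of_mem hmem, hn, hg, indicator_of_mem (show p.1 ∈ Ioo m M' from hh),
        ← ENNReal.ofReal_mul hp0.le]
      congr 1
      field_simp
    · have hmem : Complex.polarCoord.symm p ∉ {u : ℂ | m < ‖u‖ ∧ ‖u‖ < M'} := by
        show ¬ (m < ‖Complex.polarCoord.symm p‖ ∧ ‖Complex.polarCoord.symm p‖ < M')
        rw [hn]; exact hh
      rw [indicator_of_notMem hmem, hg, indicator_of_notMem (show p.1 ∉ Ioo m M' from hh), mul_zero]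
  have h3 : ∫⁻ p in Ioi (0 : ℝ) ×ˢ Ioo (-Real.pi) Real.pi, g p.1 =
      ENNReal.ofReal (Real.log (M' / m)) * ENNReal.ofReal (2 * Real.pi) := by
    rw [Measure.volume_eq_prod, ← Measure.prod_restrict,
      lintegral_prod (fun p : ℝ × ℝ => g p.1) (hgm.comp measurable_fst).aemeasurable]
    have h4 : ∀ r : ℝ, ∫⁻ (_ : ℝ) in Ioo (-Real.pi) Real.pi, g r =
        g r * ENNReal.ofReal (2 * Real.pi) := by
      intro r
      rw [lintegral_const, Measure.restrict_apply_univ, Real.volume_Ioo]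
      congr 2
      ring
    simp only [h4]
    rw [lintegral_mul_const _ hgm, g06_radial hm hM]
  refine le_of_eq ?_
  have hlog : 0 ≤ Real.log (M' / m) := by
    apply Real.log_nonneg
    rw [le_div_iff₀ hm]
    linarith
  calc _ = ∫⁻ p in Ioi (0 : ℝ) ×ˢ Ioo (-Real.pi) Real.pi,
      ENNReal.ofReal p.1 • G (Complex.polarCoord.symm p) := rfl
    _ = ENNReal.ofReal (Real.log (M' / m)) * ENNReal.ofReal (2 * Real.pi) := by rw [h2, h3]
    _ = ENNReal.ofReal (2 * Real.pi * Real.log (M' / m)) := by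
      rw [← ENNReal.ofReal_mul hlog, mul_comm]

theorem lintegral_cu_log {K : Set ℂ} {Φ ρ : ℂ → ℂ} (hK : Collar K Φ ρ) {c r S : ℝ} {τ xs : ℝ → ℝ}
    (hτ : Depth c r τ) (hp : Par τ xs S) (k : ℂ) {m M' : ℝ} (hm : 0 < m) (hM : m < M') {a b : ℝ}
    (hb : b ≤ a + S) :
    ∫⁻ s in Ioo a b, ∫⁻ ζ in Ioo (0 : ℝ) 1,
      indicator {ζ : ℝ | m < ‖Φ (cu τ xs s ζ) - k‖ ∧ ‖Φ (cu τ xs s ζ) - k‖ < M'}
        (fun ζ => ENNReal.ofReal ((gD Φ τ xs s ζ / ‖Φ (cu τ xs s ζ) - k‖) ^ 2)) ζ ≤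
      ENNReal.ofReal (2 * Real.pi * Real.log (M' / m)) := by
  set F : ℂ → ℝ≥0∞ := fun w => indicator {w : ℂ | m < ‖w - k‖ ∧ ‖w - k‖ < M'}
      (fun w => ENNReal.ofReal (1 / ‖w - k‖ ^ 2)) w with hF
  have hnm : Measurable fun w : ℂ => ‖w - k‖ := (measurable_id.sub_const k).norm
  have hFm : Measurable F := by
    refine Measurable.indicator ?_ ?_
    · exact ENNReal.measurable_ofReal.comp (measurable_const.div (hnm.pow_const 2))
    · exact (measurableSet_lt measurable_const hnm).inter (measurableSet_lt hnm measurable_const)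
  have h1 := lintegral_cu hK hτ hp hFm hb
  have h2 : ∀ s ζ : ℝ,
      indicator {ζ : ℝ | m < ‖Φ (cu τ xs s ζ) - k‖ ∧ ‖Φ (cu τ xs s ζ) - k‖ < M'}
        (fun ζ => ENNReal.ofReal ((gD Φ τ xs s ζ / ‖Φ (cu τ xs s ζ) - k‖) ^ 2)) ζ =
      F (Φ (cu τ xs s ζ)) * ENNReal.ofReal (gD Φ τ xs s ζ) ^ 2 := by
    intro s ζ
    have hD : 0 ≤ gD Φ τ xs s ζ := mul_nonneg (norm_nonneg _) (hτ.pos _).le
    show _ = indicator {w : ℂ | m < ‖w - k‖ ∧ ‖w - k‖ < M'}
      (fun w => ENNReal.ofReal (1 / ‖w - k‖ ^ 2)) (Φ (cu τ xs s ζ)) * _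
    by_cases hh : m < ‖Φ (cu τ xs s ζ) - k‖ ∧ ‖Φ (cu τ xs s ζ) - k‖ < M'
    · rw [indicator_of_mem
        (show ζ ∈ {ζ : ℝ | m < ‖Φ (cu τ xs s ζ) - k‖ ∧ ‖Φ (cu τ xs s ζ) - k‖ < M'} from hh),
        indicator_of_mem (show Φ (cu τ xs s ζ) ∈ {w : ℂ | m < ‖w - k‖ ∧ ‖w - k‖ < M'} from hh),
        ← ENNReal.ofReal_pow hD, ← ENNReal.ofReal_mul (by positivity)]
      congr 1
      rw [div_pow]
      ring
    · rw [indicator_of_notMem
        (show ζ ∉ {ζ : ℝ | m < ‖Φ (cu τ xs s ζ) - k‖ ∧ ‖Φ (cu τ xs s ζ) - k‖ < M'} from hh),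
        indicator_of_notMem (show Φ (cu τ xs s ζ) ∉ {w : ℂ | m < ‖w - k‖ ∧ ‖w - k‖ < M'} from hh),
        zero_mul]
  simp only [h2]
  rw [h1]
  exact (setLIntegral_le_lintegral _ _).trans (lintegral_log k hm hM)

end CF6

end

section

/-! # G07b: good radii

`radius_bound` (one radius): `f ζ = log ‖Φ(cu s ζ) - k‖` on `(0,1]` (`k ∈ K`, so the norm is positive), `|f'| ≤ gD s ζ/‖Φ(cu s ζ) - k‖ =: g ζ` (derivative of `cu` in `ζ` is `τ I`). Hypothesis: `|f 1 - log w1| ≤ c1` and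
`∫⁻ over {ζ : |f ζ - log w1| < N} of g² ≤ q`, `√q < N - c1`. Claim: `|f ζ - log w1| < N` for all `ζ ∈ (0,1]`, hence `M(s) = ∫ gD² ≤ (e^N w1)² q`. Proof: otherwise let `ζ2` be the largest `ζ ∈ (0,1]` with `|f ζ - log w1| ≥ N`
(closed set below 1, `IsCompact.exists_isMaxOn` on `[ζ0,1]`); on `(ζ2,1]` we are inside the truncation and `N - c1 ≤ |f ζ2 - f 1| ≤ ∫_{ζ2}^1 g ≤ (∫ g²)^{1/2} ≤ √q`, contradiction.

`gD_good`: fix `s`, `δ`; `k ∈ K` nearest to `Φ(cu s 1)` (`IsClosed.exists_infDist_eq_dist`, ℂ proper), `w1 = ‖Φ(cu s 1) - k‖ = infDist ∈ [W s/C0, C0 W s]`. For `x ∈ (s, s+δ)`, `δ ≤ 1`: `‖Φ(cu x 1) - Φ(cu s 1)‖ ≤ gA x - gA s ≤ 2 max W ≤ 2 e^{20C0³} W s`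
(`cu_dist`; `W x ≤ e^{20 C0³} W s` from `|W'| ≤ 20C0³ W`, Groenwall: `W s e^{-λ s}` is antitone), and `‖Φ(cu x 1) - k‖ ≥ infDist ≥ W x/C0 ≥ e^{-20C0³} W s/C0`. So `|f_x 1 - log w1| ≤ c1(C0)`. Let `N` with `N ≥ 2 c1`, `N ≥ 1000` and
`m = e^{-N} w1`, `M' = e^N w1`: `lintegral_cu_log` over `(s,s+δ)`: `∫ (∫ g² over the truncation) dx ≤ 4 π N`; Chebyshev (`meas_ge_le_lintegral_div`): outside a set of measure `≤ 1/4 ≤ δ/2` we have `∫ g² ≤ q := 16 π N`, and `√(16πN) < N/2 ≤ N - c1` as `N ≥ 1000`.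
(The width is allowed: `δ ≤ 1 ≤ S`.) For such `x`, `radius_bound` gives `M x ≤ e^{2N} w1² q ≤ C W(s)²`. The constant depends on `C0` only. -/

open Complex MeasureTheory Set Filter Topology Metric intervalIntegral
open scoped ENNReal

namespace CF6

theorem g07b_gron {W : ℝ → ℝ} {l : ℝ} (hd : Differentiable ℝ W)
    (hl : ∀ s, |deriv W s| ≤ l * W s) {s x : ℝ} (h : s ≤ x) :
    W x ≤ Real.exp (l * (x - s)) * W s ∧ W s ≤ Real.exp (l * (x - s)) * W x := by
  have he1 : ∀ y, HasDerivAt (fun y => W y * Real.exp (-(l * y)))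
      (deriv W y * Real.exp (-(l * y)) + W y * (Real.exp (-(l * y)) * (-(l * 1)))) y := by
    intro y
    exact (hd y).hasDerivAt.mul (((hasDerivAt_id y).const_mul l).neg.exp)
  have he2 : ∀ y, HasDerivAt (fun y => W y * Real.exp (l * y))
      (deriv W y * Real.exp (l * y) + W y * (Real.exp (l * y) * (l * 1))) y := by
    intro y
    exact (hd y).hasDerivAt.mul (((hasDerivAt_id y).const_mul l).exp)
  have ha : Antitone fun y => W y * Real.exp (-(l * y)) := by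
    refine antitone_of_deriv_nonpos (fun y => (he1 y).differentiableAt) fun y => ?_
    rw [(he1 y).deriv]
    have h1 := (abs_le.1 (hl y)).2
    nlinarith [Real.exp_pos (-(l * y))]
  have hm : Monotone fun y => W y * Real.exp (l * y) := by
    refine monotone_of_deriv_nonneg (fun y => (he2 y).differentiableAt) fun y => ?_
    rw [(he2 y).deriv]
    have h1 := (abs_le.1 (hl y)).1
    nlinarith [Real.exp_pos (l * y)]
  have h3 := ha h
  have h4 := hm h
  simp only at h3 h4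
  constructor
  · have h5 := mul_le_mul_of_nonneg_right h3 (Real.exp_pos (l * x)).le
    rw [mul_assoc, ← Real.exp_add, neg_add_cancel, Real.exp_zero, mul_one, mul_assoc,
      ← Real.exp_add] at h5
    rw [mul_comm (Real.exp _), show l * (x - s) = -(l * s) + l * x by ring]
    exact h5
  · have h5 := mul_le_mul_of_nonneg_right h4 (Real.exp_pos (-(l * s))).le
    rw [mul_assoc, ← Real.exp_add, add_neg_cancel, Real.exp_zero, mul_one, mul_assoc,
      ← Real.exp_add] at h5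
    rw [mul_comm (Real.exp _), show l * (x - s) = l * x + -(l * s) by ring]
    exact h5

/-- the distance of the points of the curve to `k` -/
theorem g07b_dist {C0 y1 : ℝ} (hC : 1 ≤ C0) {K : Set ℂ} {Φ ρ : ℂ → ℂ} (hK : Collar K Φ ρ)
    (hk : Koebe C0 y1 K Φ) {τ xs : ℝ → ℝ} {S : ℝ} (hτ : Depth (1 / 10) (y1 / 10) τ)
    (hp : Par τ xs S) {s x : ℝ} (h0 : s ≤ x) (h1 : x ≤ s + 1) {k : ℂ} (hkK : k ∈ K)
    (hkd : infDist (Φ (cu τ xs s 1)) K = ‖Φ (cu τ xs s 1) - k‖) :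
    0 < ‖Φ (cu τ xs s 1) - k‖ ∧
    ‖Φ (cu τ xs x 1) - k‖ ≤
      (2 * Real.exp (20 * C0 ^ 3) * C0 ^ 2 + 1) * ‖Φ (cu τ xs s 1) - k‖ ∧
    ‖Φ (cu τ xs s 1) - k‖ ≤
      (2 * Real.exp (20 * C0 ^ 3) * C0 ^ 2 + 1) * ‖Φ (cu τ xs x 1) - k‖ := by
  have hy : 0 < y1 := by
    have h2 := hτ.pos 0
    have h3 := hτ.le 0
    linarith
  have hW := gD_W hC hK hk hτ hp
  obtain ⟨hA1, hA2, hA3, -, -⟩ := gA_facts hK hk hτ hp
  have hl0 : 0 ≤ 20 * C0 ^ 3 := by positivity
  have hgr : ∀ y, s ≤ y → y ≤ s + 1 → gD Φ τ xs y 1 ≤ Real.exp (20 * C0 ^ 3) * gD Φ τ xs s 1 ∧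
      gD Φ τ xs s 1 ≤ Real.exp (20 * C0 ^ 3) * gD Φ τ xs y 1 := by
    intro y hy1 hy2
    have h4 := g07b_gron (W := fun s => gD Φ τ xs s 1) (fun s => (hW s).2.1)
      (fun s => (hW s).2.2) hy1
    have h5 : Real.exp (20 * C0 ^ 3 * (y - s)) ≤ Real.exp (20 * C0 ^ 3) := by
      apply Real.exp_le_exp.2
      nlinarith
    exact ⟨h4.1.trans (mul_le_mul_of_nonneg_right h5 (hW s).1.le),
      h4.2.trans (mul_le_mul_of_nonneg_right h5 (hW y).1.le)⟩
  obtain ⟨hg1, hg2⟩ := gD_w hk hτ hy s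
  obtain ⟨hx1, -⟩ := gD_w hk hτ hy x
  have hWs := (hW s).1
  have hWx := (hW x).1
  set w1 := ‖Φ (cu τ xs s 1) - k‖ with hw1
  rw [hkd] at hg1 hg2
  have hw1pos : 0 < w1 := by
    by_contra hcon
    have h6 : w1 ≤ 0 := not_lt.1 hcon
    nlinarith
  have hA : |gA Φ τ xs x - gA Φ τ xs s| ≤ 2 * (Real.exp (20 * C0 ^ 3) * gD Φ τ xs s 1) := by
    have h7 := Convex.norm_image_sub_le_of_norm_deriv_le (f := gA Φ τ xs) (s := Icc s x)
      (C := 2 * (Real.exp (20 * C0 ^ 3) * gD Φ τ xs s 1)) (x := s) (y := x)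
      (fun y _ => (hA1.differentiable one_ne_zero) y) (fun y hy => by
        rw [Real.norm_eq_abs, abs_of_nonneg ((hW y).1.le.trans (hA3 y).1)]
        refine (hA3 y).2.trans ?_
        have := (hgr y hy.1 (hy.2.trans h1)).1
        linarith) (convex_Icc s x) ⟨le_rfl, h0⟩ ⟨h0, le_rfl⟩
    rw [Real.norm_eq_abs, Real.norm_eq_abs] at h7
    refine h7.trans ?_
    have h8 : |x - s| ≤ 1 := by
      rw [abs_of_nonneg (by linarith)]
      linarith
    have h9 : 0 ≤ 2 * (Real.exp (20 * C0 ^ 3) * gD Φ τ xs s 1) := by positivity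
    nlinarith
  have hd := (cu_dist hK hk hτ hp x s).trans hA
  have hexp := Real.exp_pos (20 * C0 ^ 3)
  refine ⟨hw1pos, ?_, ?_⟩
  · have h10 : ‖Φ (cu τ xs x 1) - k‖ ≤ ‖Φ (cu τ xs x 1) - Φ (cu τ xs s 1)‖ + w1 := by
      rw [hw1]
      have h11 := norm_add_le (Φ (cu τ xs x 1) - Φ (cu τ xs s 1)) (Φ (cu τ xs s 1) - k)
      rwa [sub_add_sub_cancel] at h11
    have h12 : gD Φ τ xs s 1 ≤ C0 ^ 2 * w1 := by
      refine hg1.trans (mul_le_mul_of_nonneg_right ?_ hw1pos.le)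
      nlinarith
    have h13 := mul_le_mul_of_nonneg_left h12 hexp.le
    nlinarith
  · have h14 : infDist (Φ (cu τ xs x 1)) K ≤ ‖Φ (cu τ xs x 1) - k‖ := by
      rw [← dist_eq_norm]
      exact infDist_le_dist_of_mem hkK
    have h15 : gD Φ τ xs x 1 ≤ C0 * ‖Φ (cu τ xs x 1) - k‖ :=
      hx1.trans (mul_le_mul_of_nonneg_left h14 (by linarith))
    have h16 : w1 ≤ C0 * (Real.exp (20 * C0 ^ 3) * (C0 * ‖Φ (cu τ xs x 1) - k‖)) :=
      hg2.trans (mul_le_mul_of_nonneg_left ((hgr x h0 h1).2.trans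
        (mul_le_mul_of_nonneg_left h15 hexp.le)) (by linarith))
    have h17 : 0 ≤ ‖Φ (cu τ xs x 1) - k‖ := norm_nonneg _
    have h18 : 0 ≤ Real.exp (20 * C0 ^ 3) * C0 ^ 2 * ‖Φ (cu τ xs x 1) - k‖ := by positivity
    calc w1 ≤ C0 * (Real.exp (20 * C0 ^ 3) * (C0 * ‖Φ (cu τ xs x 1) - k‖)) := h16
      _ = Real.exp (20 * C0 ^ 3) * C0 ^ 2 * ‖Φ (cu τ xs x 1) - k‖ := by ring
      _ ≤ _ := by nlinarith

theorem g07b_log {R a b : ℝ} (hR : 1 ≤ R) (ha : 0 < a) (hb : 0 < b) (h1 : a ≤ R * b)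
    (h2 : b ≤ R * a) : |Real.log a - Real.log b| ≤ Real.log R := by
  have hR0 : R ≠ 0 := by linarith
  have h3 := Real.log_le_log ha h1
  have h4 := Real.log_le_log hb h2
  rw [Real.log_mul hR0 hb.ne'] at h3
  rw [Real.log_mul hR0 ha.ne'] at h4
  rw [abs_le]
  constructor <;> linarith

/-- a radius where the logarithmic energy is small -/
theorem g07b_one {C0 y1 : ℝ} (hC : 1 ≤ C0) {K : Set ℂ} {Φ ρ : ℂ → ℂ} (hK : Collar K Φ ρ)
    (hk : Koebe C0 y1 K Φ) {τ xs : ℝ → ℝ} {S : ℝ} (hτ : Depth (1 / 10) (y1 / 10) τ)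
    (hp : Par τ xs S) {s x : ℝ} (h0 : s ≤ x) (h1 : x ≤ s + 1) {k : ℂ} (hkK : k ∈ K)
    (hkd : infDist (Φ (cu τ xs s 1)) K = ‖Φ (cu τ xs s 1) - k‖) {N : ℝ}
    (hN : N = 2 * Real.log (2 * Real.exp (20 * C0 ^ 3) * C0 ^ 2 + 1) + 1000)
    (hint : ∫⁻ ζ in Ioo (0 : ℝ) 1, indicator {ζ : ℝ | Real.exp (-N) * ‖Φ (cu τ xs s 1) - k‖ <
      ‖Φ (cu τ xs x ζ) - k‖ ∧ ‖Φ (cu τ xs x ζ) - k‖ < Real.exp N * ‖Φ (cu τ xs s 1) - k‖}
        (fun ζ => ENNReal.ofReal ((gD Φ τ xs x ζ / ‖Φ (cu τ xs x ζ) - k‖) ^ 2)) ζ ≤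
      ENNReal.ofReal (16 * Real.pi * N)) :
    gM Φ τ xs x ≤ ENNReal.ofReal (((Real.exp N * C0) ^ 2 * (16 * Real.pi * N)) *
      gD Φ τ xs s 1 ^ 2) := by
  have hy : 0 < y1 := by
    have h2 := hτ.pos 0
    have h3 := hτ.le 0
    linarith
  obtain ⟨hw1, hd1, hd2⟩ := g07b_dist hC hK hk hτ hp h0 h1 hkK hkd
  obtain ⟨-, hg2⟩ := gD_w hk hτ hy s
  rw [hkd] at hg2
  set w1 := ‖Φ (cu τ xs s 1) - k‖ with hw1def
  set R := 2 * Real.exp (20 * C0 ^ 3) * C0 ^ 2 + 1 with hRdef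
  have hR : 1 ≤ R := by
    have : 0 ≤ 2 * Real.exp (20 * C0 ^ 3) * C0 ^ 2 := by positivity
    linarith
  have hlR : 0 ≤ Real.log R := Real.log_nonneg hR
  have hN0 : 1000 ≤ N := by linarith
  have hU : ∀ ζ : ℝ, 0 < ζ → cu τ xs x ζ ∈ UHP := by
    intro ζ hζ
    rw [UHP, mem_ofPred_eq, (cu_im τ xs x ζ).1]
    exact mul_pos (hτ.pos _) hζ
  have hUo : IsOpen UHP := isOpen_lt continuous_const Complex.continuous_im
  have hτd : Differentiable ℝ τ := hτ.smooth.differentiable (by norm_num)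
  have hxpos : 0 < ‖Φ (cu τ xs x 1) - k‖ := by
    rw [norm_pos_iff, sub_ne_zero]
    intro h5
    exact hK.mem _ (hU 1 one_pos) (h5 ▸ hkK)
  have hnorm : ∀ ζ : ℝ, ‖deriv Φ (cu τ xs x ζ) * (τ (xs x) * I)‖ = gD Φ τ xs x ζ := by
    intro ζ
    rw [norm_mul, norm_mul, norm_I, mul_one, Complex.norm_real, Real.norm_eq_abs,
      abs_of_pos (hτ.pos _), gD]
  have hmain := radius_bound (F := fun ζ => Φ (cu τ xs x ζ))
    (F' := fun ζ => deriv Φ (cu τ xs x ζ) * (τ (xs x) * I)) (k := k) (w1 := w1)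
    (c1 := Real.log R) (N := N) (q := 16 * Real.pi * N) hw1 (by positivity)
    (fun ζ hζ _ => ((hK.dPhi.differentiableAt (hUo.mem_nhds (hU ζ hζ))).hasDerivAt.comp ζ
      (hasDerivAt_cu hp hτd x ζ).2))
    (by
      refine ContinuousOn.mul ?_ continuousOn_const
      refine ContinuousOn.comp (t := UHP) ((hK.dPhi.deriv hUo).continuousOn) ?_
        (fun ζ hζ => hU ζ hζ.1)
      exact fun ζ _ => (hasDerivAt_cu hp hτd x ζ).2.continuousAt.continuousWithinAt)
    (fun ζ hζ _ h6 => hK.mem _ (hU ζ hζ) (by rw [h6]; exact hkK))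
    (g07b_log hR hxpos hw1 hd1 hd2) ?_ ?_
  · obtain ⟨-, hmain⟩ := hmain
    simp only [hnorm] at hmain
    rw [gM]
    refine hmain.trans (ENNReal.ofReal_le_ofReal ?_)
    have h7 : Real.exp N * w1 ≤ Real.exp N * C0 * gD Φ τ xs s 1 := by
      rw [mul_assoc]
      exact mul_le_mul_of_nonneg_left hg2 (Real.exp_pos N).le
    have h8 : (Real.exp N * w1) ^ 2 ≤ (Real.exp N * C0 * gD Φ τ xs s 1) ^ 2 :=
      pow_le_pow_left₀ (by positivity) h7 2
    have h9 : 0 ≤ 16 * Real.pi * N := by positivity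
    calc (Real.exp N * w1) ^ 2 * (16 * Real.pi * N) ≤
        (Real.exp N * C0 * gD Φ τ xs s 1) ^ 2 * (16 * Real.pi * N) :=
          mul_le_mul_of_nonneg_right h8 h9
      _ = _ := by ring
  · rw [Real.sqrt_lt' (by linarith)]
    have hpi := Real.pi_lt_d2
    have h10 : N - Real.log R = N / 2 + 500 := by linarith
    rw [h10]
    nlinarith [sq_nonneg (N / 2 - 500)]
  · simp only [hnorm]
    exact hint

theorem gD_good (C0 : ℝ) (hC : 1 ≤ C0) : ∃ C : ℝ, 1 ≤ C ∧ ∀ (y1 : ℝ) (K : Set ℂ) (Φ ρ : ℂ → ℂ),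
    Collar K Φ ρ → Koebe C0 y1 K Φ → ∀ (τ xs : ℝ → ℝ) (S : ℝ), Depth (1 / 10) (y1 / 10) τ →
    Par τ xs S → ∀ s δ : ℝ, 1 / 2 ≤ δ → δ ≤ 1 → ENNReal.ofReal (δ / 2) ≤
      volume {x | x ∈ Ioo s (s + δ) ∧ gM Φ τ xs x ≤ ENNReal.ofReal (C * gD Φ τ xs s 1 ^ 2)} := by
  obtain ⟨N, hN⟩ : ∃ N, N = 2 * Real.log (2 * Real.exp (20 * C0 ^ 3) * C0 ^ 2 + 1) + 1000 :=
    ⟨_, rfl⟩
  have hlR : 0 ≤ Real.log (2 * Real.exp (20 * C0 ^ 3) * C0 ^ 2 + 1) := by
    apply Real.log_nonneg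
    have : 0 ≤ 2 * Real.exp (20 * C0 ^ 3) * C0 ^ 2 := by positivity
    linarith
  have hN0 : 1000 ≤ N := by linarith
  have hpi := Real.pi_gt_three
  refine ⟨(Real.exp N * C0) ^ 2 * (16 * Real.pi * N), ?_, ?_⟩
  · have h1 : 1 ≤ Real.exp N := Real.one_le_exp (by linarith)
    have h2 : 1 ≤ Real.exp N * C0 := by nlinarith
    have h3 : 1 ≤ (Real.exp N * C0) ^ 2 := one_le_pow₀ h2
    have h4 : 1 ≤ 16 * Real.pi * N := by nlinarith
    nlinarith
  · intro y1 K Φ ρ hK hk τ xs S hτ hp s δ hδ1 hδ2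
    obtain ⟨k, hkK, hkd⟩ := hK.closed.exists_infDist_eq_dist hK.conn.nonempty (Φ (cu τ xs s 1))
    rw [dist_eq_norm] at hkd
    obtain ⟨hw1, -, -⟩ := g07b_dist hC hK hk hτ hp le_rfl (by linarith : s ≤ s + 1) hkK hkd
    set Q := (Real.exp N * C0) ^ 2 * (16 * Real.pi * N) with hQ
    have hMm := (gM_meas hK hτ hp).1
    set G : Set ℝ := {x | gM Φ τ xs x ≤ ENNReal.ofReal (Q * gD Φ τ xs s 1 ^ 2)} with hG
    have hGm : MeasurableSet G := measurableSet_le hMm measurable_const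
    have hset : {x | x ∈ Ioo s (s + δ) ∧ gM Φ τ xs x ≤ ENNReal.ofReal (Q * gD Φ τ xs s 1 ^ 2)} =
        Ioo s (s + δ) ∩ G := rfl
    rw [hset]
    have hlog := lintegral_cu_log hK hτ hp k (m := Real.exp (-N) * ‖Φ (cu τ xs s 1) - k‖)
      (M' := Real.exp N * ‖Φ (cu τ xs s 1) - k‖) (by positivity)
      (mul_lt_mul_of_pos_right (Real.exp_lt_exp.2 (by linarith)) hw1) (a := s) (b := s + δ)
      (by linarith [hp.Sge])
    have h5 : Real.exp N * ‖Φ (cu τ xs s 1) - k‖ / (Real.exp (-N) * ‖Φ (cu τ xs s 1) - k‖) =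
        Real.exp (2 * N) := by
      rw [mul_div_mul_right _ _ hw1.ne', ← Real.exp_sub]
      congr 1
      ring
    rw [h5, Real.log_exp] at hlog
    set F : ℝ → ℝ≥0∞ := fun x => ∫⁻ ζ in Ioo (0 : ℝ) 1,
      indicator {ζ : ℝ | Real.exp (-N) * ‖Φ (cu τ xs s 1) - k‖ < ‖Φ (cu τ xs x ζ) - k‖ ∧
        ‖Φ (cu τ xs x ζ) - k‖ < Real.exp N * ‖Φ (cu τ xs s 1) - k‖}
        (fun ζ => ENNReal.ofReal ((gD Φ τ xs x ζ / ‖Φ (cu τ xs x ζ) - k‖) ^ 2)) ζ with hF
    have hbad : ∀ x ∈ Ioo s (s + δ) \ G, ENNReal.ofReal (16 * Real.pi * N) ≤ F x := by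
      intro x hx
      by_contra hcon
      refine hx.2 ?_
      exact g07b_one hC hK hk hτ hp hx.1.1.le (by linarith [hx.1.2]) hkK hkd hN
        (not_le.1 hcon).le
    have hm : MeasurableSet (Ioo s (s + δ) \ G) := measurableSet_Ioo.diff hGm
    have h6 : ENNReal.ofReal (16 * Real.pi * N) * volume (Ioo s (s + δ) \ G) ≤
        ENNReal.ofReal (2 * Real.pi * (2 * N)) := by
      calc ENNReal.ofReal (16 * Real.pi * N) * volume (Ioo s (s + δ) \ G)
          = ∫⁻ _ in Ioo s (s + δ) \ G, ENNReal.ofReal (16 * Real.pi * N) := by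
            rw [setLIntegral_const]
        _ ≤ ∫⁻ x in Ioo s (s + δ) \ G, F x := setLIntegral_mono' hm hbad
        _ ≤ ∫⁻ x in Ioo s (s + δ), F x := lintegral_mono_set sdiff_subset
        _ ≤ _ := hlog
    have h7 : volume (Ioo s (s + δ) \ G) ≤ ENNReal.ofReal (δ / 2) := by
      have h8 : ENNReal.ofReal (2 * Real.pi * (2 * N)) =
          ENNReal.ofReal (16 * Real.pi * N) * ENNReal.ofReal (1 / 4) := by
        rw [← ENNReal.ofReal_mul (by positivity)]
        congr 1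
        ring
      rw [h8] at h6
      have h9 := (ENNReal.mul_le_mul_iff_right (by
        rw [ne_eq, ENNReal.ofReal_eq_zero, not_le]
        positivity) ENNReal.ofReal_ne_top).1 h6
      exact h9.trans (ENNReal.ofReal_le_ofReal (by linarith))
    have h10 := measure_inter_add_sdiff (μ := volume) (Ioo s (s + δ)) hGm
    rw [Real.volume_Ioo, show s + δ - s = δ / 2 + δ / 2 by ring,
      ENNReal.ofReal_add (by linarith) (by linarith)] at h10
    have h11 : ENNReal.ofReal (δ / 2) + ENNReal.ofReal (δ / 2) ≤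
        volume (Ioo s (s + δ) ∩ G) + ENNReal.ofReal (δ / 2) := by
      rw [← h10]
      gcongr
    exact (ENNReal.add_le_add_iff_right ENNReal.ofReal_ne_top).1 h11

end CF6

end

section

/-! # G11c: comparison of the speed along arcs

`harnack_int`: `B q - B p = ∫_p^q v`, `v = deriv B` continuous. If `q - p ≤ T`: `v/16 ≤ v θ ≤ 16 v` for all pairs of points in `[p,q]`. If `T ≤ q - p`: an interval of length `T` inside `[p,q]` containing `θ` (`[θ,θ+T]` or `[θ-T,θ]` or in general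
`[max p (q-T) ...]`; take `J = [c, c+T] ⊆ [p,q]` with `θ ∈ J`), all its points are within `T` of `θ`, and `∫_J v ≤ B q - B p`.
`W_compare`: `|W'| ≤ C W`, so `e^{-C s} W` is antitone and `e^{C s} W` is monotone: `W s' ≤ e^{C |s-s'|} W s`.
`S0_facts`: `A` strictly increasing (`deriv A ≥ W > 0`), `A (S0 θ) = B θ`. `S0` is strictly increasing, continuous, `S0 (θ+2π) = S0 θ + S`, surjective, `HasDerivAt S0 (v θ / deriv A (S0 θ)) θ` (inverse function `Ai` of `A`: row statement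
`Ai_facts`; `S0 = Ai ∘ B`).
`arc_compare` (`ℓ = q-p`, `h = min ℓ σ`, `ΔA = B q - B p = A (S0 q) - A (S0 p)`, by `W_compare` and `W ≤ A' ≤ 2W`: `ΔA ∈ [e^{-C}/2, 2 e^C] W(S0 θ)` for every `θ ∈ [p,q]`, since `S0 θ ∈ [S0 p, S0 p + δ]`, `1/2 ≤ δ ≤ 1`).
 (ii) `v θ ≤ 16 ΔA/min(ℓ,T)` by `harnack_int`, `min(ℓ,T) ≥ min(ℓ,σ) = h`, so `v/W ≤ 32 e^C/h`; `1/σ ≤ 1/h`.
 (i) `1/h = max(1/ℓ,1/σ)`; if `ℓ ≤ T`: `1/ℓ ≤ 16 v θ/ΔA ≤ 32 e^C v θ/W`; if `ℓ > T ≥ σ`: `1/ℓ ≤ 1/σ`. -/

open Complex MeasureTheory Set Filter Topology Metric intervalIntegral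
open scoped ENNReal

namespace CF6

theorem arc_compare (C : ℝ) : ∃ C' : ℝ, 1 ≤ C' ∧ ∀ (S L T σ : ℝ) (W A B S0 : ℝ → ℝ)
    (M : ℝ → ℝ≥0∞), Tgt C S L W A M → Lay T σ L B → (∀ θ, A (S0 θ) = B θ) →
    ∀ p q δ : ℝ, p < q → 1 / 2 ≤ δ → δ ≤ 1 → S0 q = S0 p + δ → ∀ θ ∈ Icc p q,
    1 / min (q - p) σ ≤ C' * (deriv B θ / W (S0 θ) + 1 / σ) ∧
    deriv B θ / W (S0 θ) + 1 / σ ≤ C' / min (q - p) σ ∧
    W (S0 p) ≤ C' * W (S0 θ) ∧ W (S0 θ) ≤ C' * W (S0 p) := by
  refine ⟨33 * Real.exp |C|, ?_, ?_⟩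
  · have := Real.one_le_exp (abs_nonneg C)
    linarith
  intro S L T σ W A B S0 M h hB hS p q δ hpq hδ1 hδ2 hSq θ hθ
  have hC1 := h.C1
  have hCabs : |C| = C := abs_of_pos (by linarith)
  rw [hCabs]
  set E := Real.exp C with hE
  have hE1 : 1 ≤ E := Real.one_le_exp (by linarith)
  have hE0 : 0 < E := by linarith
  obtain ⟨hmono, -, -, -⟩ := S0_facts h hB hS
  have hσ := hB.σ0
  have hT : 0 < T := by linarith [hB.σT]
  have hcomp : ∀ x y, S0 p ≤ x → x ≤ S0 q → S0 p ≤ y → y ≤ S0 q → W y ≤ E * W x := by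
    intro x y hx1 hx2 hy1 hy2
    refine (W_compare h x y).trans (mul_le_mul_of_nonneg_right ?_ (h.Wpos x).le)
    apply Real.exp_le_exp.mpr
    have h1 : |y - x| ≤ 1 := by
      rw [abs_le]
      constructor <;> linarith
    exact mul_le_of_le_one_right (by linarith) h1
  have hθ1 : S0 p ≤ S0 θ := hmono.monotone hθ.1
  have hθ2 : S0 θ ≤ S0 q := hmono.monotone hθ.2
  have hpq' : S0 p < S0 q := hmono hpq
  have hAd : Differentiable ℝ A := h.A1.differentiable one_ne_zero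
  obtain ⟨x, hx, hx2⟩ := exists_deriv_eq_slope A hpq' hAd.continuous.continuousOn
    hAd.differentiableOn
  have hΔ : A (S0 q) - A (S0 p) = B q - B p := by rw [hS, hS]
  rw [hΔ] at hx2
  set D := B q - B p with hD
  have hδ : S0 q - S0 p = δ := by linarith
  rw [hδ] at hx2
  have hδ0 : 0 < δ := by linarith
  have hDx : D = δ * deriv A x := by
    rw [hx2]; field_simp
  set w := W (S0 θ) with hw
  have hw0 : 0 < w := h.Wpos _
  have hWx := h.Wpos x
  have hDle : D ≤ 2 * E * w := by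
    have h1 := h.Ahi x
    have h2 := hcomp (S0 θ) x hθ1 hθ2 hx.1.le hx.2.le
    have h3 : deriv A x ≤ 2 * (E * w) := by linarith
    have h4 : 0 ≤ deriv A x := by linarith [h.Alo x]
    rw [hDx]
    refine (mul_le_of_le_one_left h4 hδ2).trans (h3.trans_eq ?_)
    ring
  have hDge : w ≤ 2 * E * D := by
    have h1 := h.Alo x
    have h2 := hcomp x (S0 θ) hx.1.le hx.2.le hθ1 hθ2
    have h3 : deriv A x ≤ 2 * D := by
      have h4 : 0 ≤ deriv A x := by linarith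
      have h6 := mul_le_mul_of_nonneg_right hδ1 h4
      rw [hDx]
      linarith only [h6]
    have h5 : E * W x ≤ E * (2 * D) := mul_le_mul_of_nonneg_left (by linarith) hE0.le
    linarith
  have hD0 : 0 < D := by
    by_contra hcon
    have h1 : 2 * E * D ≤ 0 :=
      mul_nonpos_of_nonneg_of_nonpos (by linarith only [hE0]) (not_lt.1 hcon)
    linarith only [h1, hDge, hw0]
  obtain ⟨hh1, hh2⟩ := harnack_int hB hpq hθ
  have hℓ : 0 < q - p := by linarith
  have hv0 := hB.pos θ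
  have hm0 : 0 < min (q - p) σ := lt_min hℓ hσ
  refine ⟨?_, ?_, ?_, ?_⟩
  · rcases le_total (q - p) σ with hcase | hcase
    · rw [min_eq_left hcase]
      have h1 : D / (q - p) ≤ 16 * deriv B θ := hh2 (by linarith [hB.σT])
      rw [div_le_iff₀ hℓ] at h1
      have h2 : 1 / (q - p) ≤ 32 * E * (deriv B θ / w) := by
        rw [div_le_iff₀ hℓ]
        have h3 : w ≤ 32 * E * deriv B θ * (q - p) := by
          have h7 := mul_le_mul_of_nonneg_left h1 hE0.le
          linarith only [h7, hDge]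
        have h4 : 32 * E * (deriv B θ / w) * (q - p) = 32 * E * deriv B θ * (q - p) / w := by
          ring
        rw [h4, le_div_iff₀ hw0]
        linarith
      have h5 : 0 ≤ E * (deriv B θ / w) := by positivity
      have h6 : 0 ≤ 33 * E * (1 / σ) := by positivity
      rw [mul_add]
      linarith only [h2, h5, h6]
    · rw [min_eq_right hcase]
      have h5 : 0 ≤ 33 * E * (deriv B θ / w) := by positivity
      have h6 : 0 < 1 / σ := by positivity
      have h7 : 1 / σ ≤ E * (1 / σ) := le_mul_of_one_le_left h6.le hE1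
      rw [mul_add]
      linarith only [h5, h6, h7]
  · have h1 : deriv B θ ≤ 16 * D / min (q - p) σ := by
      refine hh1.trans ?_
      apply div_le_div_of_nonneg_left (by positivity) hm0
      exact min_le_min_left _ (by linarith [hB.σT])
    have h2 : deriv B θ / w ≤ 32 * E / min (q - p) σ := by
      rw [div_le_iff₀ hw0]
      refine h1.trans ?_
      rw [div_mul_eq_mul_div, div_le_div_iff_of_pos_right hm0]
      linarith only [hDle]
    have h3 : 1 / σ ≤ E / min (q - p) σ := by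
      apply div_le_div₀ hE0.le hE1 hm0 (min_le_right _ _)
    have h4 : 33 * E / min (q - p) σ = 32 * E / min (q - p) σ + E / min (q - p) σ := by ring
    rw [h4]
    linarith
  · have h1 := hcomp (S0 θ) (S0 p) hθ1 hθ2 le_rfl hpq'.le
    have h2 := mul_pos hE0 hw0
    linarith only [h1, h2]
  · have h1 := hcomp (S0 p) (S0 θ) le_rfl hpq'.le hθ1 hθ2
    have h2 := mul_pos hE0 (h.Wpos (S0 p))
    linarith only [h1, h2]

end CF6

end

section

/-! # G12a: the partition into arcs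

`N := ⌈S⌉₊ ≥ 1`, `δ := S/N ∈ [1/2,1]` (`S ≥ 1`, `N < S+1 ≤ 2S`). `S0` is a strictly increasing bijection with `S0 (θ+2π) = S0 θ + S` (`S0_facts`). `th j` := the point with `S0 (th j) = S0 0 + j δ`: strictly increasing, `th 0 = 0` (injectivity),
`S0 (th j + 2π) = S0 (th j) + N δ`, so `th (j + N) = th j + 2π`. -/

open Complex MeasureTheory Set Filter Topology Metric intervalIntegral
open scoped ENNReal

namespace CF6

theorem exists_arcs {C S L T σ : ℝ} {W A B S0 : ℝ → ℝ} {M : ℝ → ℝ≥0∞} (h : Tgt C S L W A M)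
    (hB : Lay T σ L B) (hS : ∀ θ, A (S0 θ) = B θ) :
    ∃ (N : ℕ) (δ : ℝ) (th : ℤ → ℝ), 1 ≤ N ∧ 1 / 2 ≤ δ ∧ δ ≤ 1 ∧ N * δ = S ∧
      StrictMono th ∧ th 0 = 0 ∧ (∀ j, th (j + N) = th j + 2 * Real.pi) ∧
      ∀ j, S0 (th j) = S0 0 + j * δ := by
  obtain ⟨hmono, hsurj, hper, -⟩ := S0_facts h hB hS
  have hS1 := h.S1
  set N : ℕ := ⌈S⌉₊ with hN
  have hN1 : (S : ℝ) ≤ N := Nat.le_ceil S
  have hN2 : (N : ℝ) < S + 1 := Nat.ceil_lt_add_one (by linarith)
  have hN0 : (1 : ℝ) ≤ N := by linarith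
  have hNpos : (0 : ℝ) < N := by linarith
  have hNδ : (N : ℝ) * (S / N) = S := by field_simp
  refine ⟨N, S / N, fun j => Function.surjInv hsurj (S0 0 + j * (S / N)), by exact_mod_cast hN0,
    ?_, ?_, hNδ, ?_, ?_, ?_, ?_⟩
  · rw [le_div_iff₀ hNpos]; linarith
  · rw [div_le_one hNpos]; exact hN1
  · intro j k hjk
    rw [← hmono.lt_iff_lt]
    simp only
    rw [Function.surjInv_eq hsurj, Function.surjInv_eq hsurj]
    have h1 : (j : ℝ) < k := by exact_mod_cast hjk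
    have h2 : 0 < S / N := by positivity
    nlinarith
  · apply hmono.injective
    simp only
    rw [Function.surjInv_eq hsurj]
    push_cast
    ring
  · intro j
    apply hmono.injective
    simp only
    rw [Function.surjInv_eq hsurj, hper, Function.surjInv_eq hsurj]
    push_cast
    linarith
  · intro j
    exact Function.surjInv_eq hsurj _

end CF6

end

section

/-! # G12b: the density

`a j := s0 + j δ`, `j : ℤ`, `ℓ j := th (j+1) - th j > 0`, `h j := min (ℓ j) σ > 0`; `G j := {x | x ∈ Ioo (a j) (a j + δ) ∧ M x ≤ ofReal (C W(a j)²)}` measurable, `ofReal (δ/2) ≤ volume (G j) ≤ ofReal δ` (`Tgt.good`); `g j := (volume (G j)).toReal ∈ [δ/2, δ]`.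
`n s := h j/(2δ) + (ℓ j - h j/2)/g j * indicator (G j) 1 s`, with `j = ⌊(s - s0)/δ⌋` (so `a j ≤ s < a (j+1)`). All data are invariant under `j ↦ j + N`, `s ↦ s + S` (`N δ = S`, `M`, `W` are `S`-periodic; `⌊(s+S-s0)/δ⌋ = j + N`), so `n (s+S) = n s`.
Measurable: countable pieces (`measurable_from_...`, or `n s = ∑' j, indicator (Ico (a j) (a (j+1))) ..`; or `Measurable` of a function of the form `F ⌊.⌋ s` with countable first argument: `measurable_from_prod_countable`). Bounds: `ℓ j`, `h j`, `g j` take finitely many values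
(periodicity), `a := min_j h j/(2δ)`, `b := max`. Simpler: every `ℓ j ≤ 2π` (as `th (j+N) = th j + 2π`, `th` increasing), `g j ≥ δ/2`, so `n ≤ 2π/(2δ) + 2π/(δ/2)`; lower bound: minimum of `h` over `Finset.range N` and `Int.emod`.
Integral over an arc: `h j/2 + (ℓ j - h j/2)/g j · g j = ℓ j` (the integrand agrees with the formula on `Ioo (a j) (a (j+1))`, `intervalIntegral.integral_congr_ae` or `Ico`).
cost: on the arc `∫⁻ M n = h j/(2δ) ∫⁻ M + (ℓ j - h j/2)/g j ∫⁻_{G j} M`, and `∫⁻_{G j} M ≤ C W(a j)² g j`. -/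

open Complex MeasureTheory Set Filter Topology Metric intervalIntegral
open scoped ENNReal

namespace CF6

/-- the good radii in the `j`-th arc -/
private def g12b_G (C : ℝ) (W : ℝ → ℝ) (M : ℝ → ℝ≥0∞) (δ s0 : ℝ) (j : ℤ) : Set ℝ :=
  {x | x ∈ Ioo (s0 + j * δ) (s0 + j * δ + δ) ∧ M x ≤ ENNReal.ofReal (C * W (s0 + j * δ) ^ 2)}

private theorem g12b_floor {δ s0 s : ℝ} (hδ : 0 < δ) {j : ℤ} (h1 : s0 + j * δ ≤ s)
    (h2 : s < s0 + (j + 1) * δ) : ⌊(s - s0) / δ⌋ = j := by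
  rw [Int.floor_eq_iff]
  constructor
  · rw [le_div_iff₀ hδ]; linarith
  · rw [div_lt_iff₀ hδ]; linarith

theorem exists_parts {C S L σ : ℝ} {W A : ℝ → ℝ} {M : ℝ → ℝ≥0∞} (h : Tgt C S L W A M)
    (hσ : 0 < σ) {N : ℕ} {δ : ℝ} {th : ℤ → ℝ} (hN : 1 ≤ N) (h1 : 1 / 2 ≤ δ) (h2 : δ ≤ 1)
    (hNδ : N * δ = S) (hth : StrictMono th) (hper : ∀ j, th (j + N) = th j + 2 * Real.pi)
    (s0 : ℝ) :
    ∃ (n : ℝ → ℝ) (a b : ℝ), Measurable n ∧ 0 < a ∧ (∀ s, a ≤ n s ∧ n s ≤ b) ∧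
      (∀ s, n (s + S) = n s) ∧
      (∀ j : ℤ, ∫ x in (s0 + j * δ)..(s0 + (j + 1) * δ), n x = th (j + 1) - th j) ∧
      (∀ j : ℤ, ∀ s, s0 + j * δ ≤ s → s < s0 + (j + 1) * δ →
        min (th (j + 1) - th j) σ / (2 * δ) ≤ n s) ∧
      ∀ j : ℤ, ∫⁻ s in Ioo (s0 + j * δ) (s0 + (j + 1) * δ), M s * ENNReal.ofReal (n s) ≤
        ENNReal.ofReal (min (th (j + 1) - th j) σ / (2 * δ)) *
          (∫⁻ s in Ioo (s0 + j * δ) (s0 + (j + 1) * δ), M s) +
        ENNReal.ofReal ((th (j + 1) - th j) * (C * W (s0 + j * δ) ^ 2)) := by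
  classical
  have hδ : 0 < δ := by linarith
  set ℓ : ℤ → ℝ := fun j => th (j + 1) - th j with hℓ
  have hℓ0 : ∀ j, 0 < ℓ j := fun j => sub_pos.2 (hth (by omega))
  have hℓper : Function.Periodic ℓ (N : ℤ) := by
    intro j
    show th (j + N + 1) - th (j + N) = th (j + 1) - th j
    rw [show j + (N : ℤ) + 1 = (j + 1) + N by ring, hper, hper]
    ring
  have hℓπ : ∀ j, ℓ j ≤ 2 * Real.pi := by
    intro j
    have e1 : th (j + 1) ≤ th (j + N) := hth.monotone (by omega)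
    rw [hper] at e1
    show th (j + 1) - th j ≤ 2 * Real.pi
    linarith
  set hh : ℤ → ℝ := fun j => min (ℓ j) σ with hhh
  have hh0 : ∀ j, 0 < hh j := fun j => lt_min (hℓ0 j) hσ
  have hhℓ : ∀ j, hh j ≤ ℓ j := fun j => min_le_left _ _
  have hhper : Function.Periodic hh (N : ℤ) := by
    intro j
    show min (ℓ (j + N)) σ = min (ℓ j) σ
    rw [hℓper j]
  set G : ℤ → Set ℝ := g12b_G C W M δ s0 with hG
  have hGmem : ∀ j x, x ∈ G j ↔ (x ∈ Ioo (s0 + j * δ) (s0 + j * δ + δ) ∧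
      M x ≤ ENNReal.ofReal (C * W (s0 + j * δ) ^ 2)) := fun j x => Iff.rfl
  have hGm : ∀ j, MeasurableSet (G j) := by
    intro j
    exact measurableSet_Ioo.inter (measurableSet_le h.Mmeas measurable_const)
  have hGlo : ∀ j, ENNReal.ofReal (δ / 2) ≤ volume (G j) := fun j => h.good (s0 + j * δ) δ h1 h2
  have hGsub : ∀ j : ℤ, G j ⊆ Ioo (s0 + j * δ) (s0 + (j + 1) * δ) := by
    intro j x hx
    have e1 := ((hGmem j x).1 hx).1
    exact ⟨e1.1, by have := e1.2; linarith⟩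
  have hGhi : ∀ j, volume (G j) ≤ ENNReal.ofReal δ := by
    intro j
    refine (measure_mono (hGsub j)).trans ?_
    rw [Real.volume_Ioo]
    exact ENNReal.ofReal_le_ofReal (by linarith)
  have hGfin : ∀ j, volume (G j) ≠ ⊤ := fun j => ((hGhi j).trans_lt ENNReal.ofReal_lt_top).ne
  set g : ℤ → ℝ := fun j => (volume (G j)).toReal with hg
  have hglo : ∀ j, δ / 2 ≤ g j := by
    intro j
    have := ENNReal.toReal_mono (hGfin j) (hGlo j)
    rwa [ENNReal.toReal_ofReal (by positivity)] at this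
  have hg0 : ∀ j, 0 < g j := fun j => lt_of_lt_of_le (by positivity) (hglo j)
  have hgof : ∀ j, ENNReal.ofReal (g j) = volume (G j) := fun j => ENNReal.ofReal_toReal (hGfin j)
  -- periodicity of the good sets
  have hGper : ∀ j x, x + S ∈ G (j + N) ↔ x ∈ G j := by
    intro j x
    have e1 : s0 + ((j + N : ℤ) : ℝ) * δ = (s0 + j * δ) + S := by
      push_cast; rw [← hNδ]; ring
    rw [hGmem, hGmem, e1, h.Mper, h.Wper]
    constructor
    · rintro ⟨⟨a, b⟩, c⟩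
      exact ⟨⟨by linarith, by linarith⟩, c⟩
    · rintro ⟨⟨a, b⟩, c⟩
      exact ⟨⟨by linarith, by linarith⟩, c⟩
  have hgper : ∀ j, g (j + N) = g j := by
    intro j
    have e1 : (fun x => x + S) ⁻¹' (G (j + N)) = G j := by
      ext x; exact hGper j x
    show (volume (G (j + N))).toReal = (volume (G j)).toReal
    rw [← e1, measure_preimage_add_right]
  set c : ℤ → ℝ := fun j => (ℓ j - hh j / 2) / g j with hc
  have hc0 : ∀ j, 0 ≤ c j := by
    intro j
    refine div_nonneg ?_ (hg0 j).le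
    have := hhℓ j; have := hh0 j; linarith
  have hcg : ∀ j, c j * g j = ℓ j - hh j / 2 := fun j => div_mul_cancel₀ _ (hg0 j).ne'
  set k : ℝ → ℤ := fun s => ⌊(s - s0) / δ⌋ with hk
  set f : ℤ → ℝ → ℝ := fun j s => hh j / (2 * δ) + c j * (G j).indicator (fun _ => (1 : ℝ)) s with hf
  have hfm : ∀ j, Measurable (f j) := by
    intro j
    exact measurable_const.add (measurable_const.mul (measurable_const.indicator (hGm j)))
  have hind : ∀ j s, 0 ≤ (G j).indicator (fun _ => (1 : ℝ)) s ∧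
      (G j).indicator (fun _ => (1 : ℝ)) s ≤ 1 := by
    intro j s
    by_cases hs : s ∈ G j
    · rw [indicator_of_mem hs]; norm_num
    · rw [indicator_of_notMem hs]; norm_num
  have hflo : ∀ j s, hh j / (2 * δ) ≤ f j s := by
    intro j s
    have := mul_nonneg (hc0 j) (hind j s).1
    simp only [hf]; linarith
  refine ⟨fun s => f (k s) s, ?_⟩
  obtain ⟨i0, hi0, hmin⟩ := Finset.exists_min_image (Finset.range N) (fun i => hh (i : ℤ))
    ⟨0, Finset.mem_range.2 (by omega)⟩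
  have hN0 : (0 : ℤ) < (N : ℤ) := by exact_mod_cast hN
  have hhmin : ∀ j, hh (i0 : ℤ) ≤ hh j := by
    intro j
    obtain ⟨y, hy, hyj⟩ := hhper.exists_mem_Ico₀ hN0 j
    rw [hyj]
    have e1 := hmin y.toNat (Finset.mem_range.2 (by have := hy.1; have := hy.2; omega))
    rwa [Int.toNat_of_nonneg hy.1] at e1
  have hkj : ∀ (j : ℤ) (s : ℝ), s0 + j * δ ≤ s → s < s0 + (j + 1) * δ → k s = j :=
    fun j s a b => g12b_floor hδ a b
  refine ⟨hh (i0 : ℤ) / (2 * δ), 2 * Real.pi / (2 * δ) + 2 * Real.pi / (δ / 2), ?_, ?_, ?_, ?_, ?_,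
    ?_, ?_⟩
  · -- measurable
    have e1 : Measurable (fun p : ℤ × ℝ => f p.1 p.2) :=
      measurable_from_prod_countable_right (fun j => hfm j)
    have e2 : Measurable k := by
      have : Measurable (fun s : ℝ => (s - s0) / δ) := by fun_prop
      exact Int.measurable_floor.comp this
    exact e1.comp (e2.prodMk measurable_id)
  · exact div_pos (hh0 _) (by positivity)
  · intro s
    constructor
    · refine le_trans ?_ (hflo (k s) s)
      exact div_le_div_of_nonneg_right (hhmin _) (by positivity)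
    · have e1 : c (k s) * (G (k s)).indicator (fun _ => (1 : ℝ)) s ≤ 2 * Real.pi / (δ / 2) := by
        refine (mul_le_of_le_one_right (hc0 _) (hind _ _).2).trans ?_
        refine div_le_div₀ (by positivity) ?_ (by positivity) (hglo _)
        have := hℓπ (k s); have := hh0 (k s); linarith
      have e2 : hh (k s) / (2 * δ) ≤ 2 * Real.pi / (2 * δ) :=
        div_le_div_of_nonneg_right ((hhℓ _).trans (hℓπ _)) (by positivity)
      show hh (k s) / (2 * δ) + c (k s) * (G (k s)).indicator (fun _ => (1 : ℝ)) s ≤ _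
      exact add_le_add e2 e1
  · intro s
    have e1 : k (s + S) = k s + N := by
      show ⌊(s + S - s0) / δ⌋ = ⌊(s - s0) / δ⌋ + N
      rw [← Int.floor_add_natCast]
      congr 1
      rw [← hNδ]; field_simp; ring
    show f (k (s + S)) (s + S) = f (k s) s
    have e2 : (G (k s + N)).indicator (fun _ => (1 : ℝ)) (s + S)
        = (G (k s)).indicator (fun _ => (1 : ℝ)) s := by
      by_cases hs : s ∈ G (k s)
      · rw [indicator_of_mem hs, indicator_of_mem ((hGper _ _).2 hs)]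
      · rw [indicator_of_notMem hs, indicator_of_notMem (fun hh => hs ((hGper _ _).1 hh))]
    have e3 : c (k s + N) = c (k s) := by
      show (ℓ (k s + N) - hh (k s + N) / 2) / g (k s + N) = _
      rw [hℓper, hhper, hgper]
    rw [e1]
    simp only [hf]
    rw [hhper, e3, e2]
  · intro j
    have hle : s0 + (j : ℝ) * δ ≤ s0 + (j + 1) * δ := by linarith
    rw [intervalIntegral.integral_of_le hle, integral_Ioc_eq_integral_Ioo]
    have e1 : ∫ x in Ioo (s0 + (j : ℝ) * δ) (s0 + (j + 1) * δ), f (k x) x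
        = ∫ x in Ioo (s0 + (j : ℝ) * δ) (s0 + (j + 1) * δ), f j x := by
      refine setIntegral_congr_fun measurableSet_Ioo fun x hx => ?_
      show f (k x) x = f j x
      rw [hkj j x hx.1.le hx.2]
    rw [e1]
    have hI : IntegrableOn (fun x => (G j).indicator (fun _ => (1 : ℝ)) x)
        (Ioo (s0 + (j : ℝ) * δ) (s0 + (j + 1) * δ)) := by
      refine Integrable.indicator ?_ (hGm j)
      refine integrableOn_const ?_
      rw [Real.volume_Ioo]; exact ENNReal.ofReal_ne_top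
    have hI0 : IntegrableOn (fun _ : ℝ => hh j / (2 * δ))
        (Ioo (s0 + (j : ℝ) * δ) (s0 + (j + 1) * δ)) := by
      refine integrableOn_const ?_
      rw [Real.volume_Ioo]; exact ENNReal.ofReal_ne_top
    simp only [hf]
    rw [MeasureTheory.integral_add hI0 (hI.const_mul _), MeasureTheory.integral_const_mul, setIntegral_const,
      setIntegral_indicator (hGm j), setIntegral_const, inter_eq_self_of_subset_right (hGsub j)]
    have e4 : volume.real (Ioo (s0 + (j : ℝ) * δ) (s0 + (j + 1) * δ)) = δ := by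
      rw [Real.volume_real_Ioo_of_le hle]; ring
    have e5 : volume.real (G j) = g j := rfl
    rw [e4, e5]
    simp only [smul_eq_mul, mul_one]
    rw [hcg j]
    show δ * (hh j / (2 * δ)) + (ℓ j - hh j / 2) = ℓ j
    field_simp
    ring
  · intro j s ha hb
    show _ ≤ f (k s) s
    rw [hkj j s ha hb]
    exact hflo j s
  · intro j
    have e1 : ∫⁻ s in Ioo (s0 + (j : ℝ) * δ) (s0 + (j + 1) * δ), M s * ENNReal.ofReal (f (k s) s)
        = ∫⁻ s in Ioo (s0 + (j : ℝ) * δ) (s0 + (j + 1) * δ),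
          (ENNReal.ofReal (hh j / (2 * δ)) * M s + ENNReal.ofReal (c j) * (G j).indicator M s) := by
      refine setLIntegral_congr_fun measurableSet_Ioo fun s hs => ?_
      show M s * ENNReal.ofReal (f (k s) s) = _
      rw [hkj j s hs.1.le hs.2]
      simp only [hf]
      rw [ENNReal.ofReal_add (by have := hh0 j; positivity) (mul_nonneg (hc0 j) (hind j s).1),
        ENNReal.ofReal_mul (hc0 j)]
      by_cases hs' : s ∈ G j
      · rw [indicator_of_mem hs', indicator_of_mem hs', ENNReal.ofReal_one, mul_one]; ring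
      · rw [indicator_of_notMem hs', indicator_of_notMem hs', ENNReal.ofReal_zero, mul_zero,
          add_zero, add_zero, mul_comm]
    have e2 : ∫⁻ s in Ioo (s0 + (j : ℝ) * δ) (s0 + (j + 1) * δ), (G j).indicator M s
        ≤ ENNReal.ofReal (C * W (s0 + j * δ) ^ 2) * volume (G j) := by
      calc ∫⁻ s in Ioo (s0 + (j : ℝ) * δ) (s0 + (j + 1) * δ), (G j).indicator M s
          ≤ ∫⁻ s, (G j).indicator M s := setLIntegral_le_lintegral _ _
        _ = ∫⁻ s in G j, M s := lintegral_indicator (hGm j) _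
        _ ≤ ∫⁻ s in G j, ENNReal.ofReal (C * W (s0 + j * δ) ^ 2) :=
            setLIntegral_mono measurable_const (fun x hx => ((hGmem j x).1 hx).2)
        _ = _ := by rw [setLIntegral_const]
    show ∫⁻ s in Ioo (s0 + (j : ℝ) * δ) (s0 + (j + 1) * δ), M s * ENNReal.ofReal (f (k s) s) ≤ _
    rw [e1, lintegral_add_left (h.Mmeas.const_mul _),
      lintegral_const_mul _ h.Mmeas, lintegral_const_mul _ (h.Mmeas.indicator (hGm j))]
    refine add_le_add le_rfl ?_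
    have hCW : 0 ≤ C * W (s0 + j * δ) ^ 2 := by
      have := h.C1; positivity
    calc ENNReal.ofReal (c j) *
          ∫⁻ s in Ioo (s0 + (j : ℝ) * δ) (s0 + (j + 1) * δ), (G j).indicator M s
        ≤ ENNReal.ofReal (c j) * (ENNReal.ofReal (C * W (s0 + j * δ) ^ 2) * volume (G j)) := by
          gcongr
      _ = ENNReal.ofReal ((ℓ j - hh j / 2) * (C * W (s0 + j * δ) ^ 2)) := by
          rw [← hgof j, ← ENNReal.ofReal_mul hCW, ← ENNReal.ofReal_mul (hc0 j), ← hcg j]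
          congr 1; ring
      _ ≤ _ := by
          refine ENNReal.ofReal_le_ofReal (mul_le_mul_of_nonneg_right ?_ hCW)
          have := hh0 j
          show ℓ j - hh j / 2 ≤ ℓ j
          linarith

end CF6

end

section

/-! # G13a: cost of one arc

`ℓ = q - p`, `h = min ℓ σ`, `arc_compare` (constant `C1`): `v/W(S0) + 1/σ ≤ C1/h` on the arc, so the left side is `≤ C1/h ∫⁻ M(Sh) ≤ C1/h [h/(2δ) ∫⁻ M + ℓ C W(S0 p)²] ≤ C1 ∫⁻ M + C1 C (ℓ/h) W(S0 p)²`, `ℓ/h ≤ 1 + ℓ/σ`.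
`W(S0 p)² ≤ 2 e^{2C} C ∫⁻_{arc} M`: for `s` in the arc `W(S0 p) ≤ e^{C} W s` (`W_compare`), `ofReal (W s)² ≤ C M s` (`Mge`), length of the arc `δ ≥ 1/2`. `ℓ W(S0 p)² ≤ C1² ∫⁻_{Ioo p q} ofReal (W(S0 θ))²` (`arc_compare`, third item).
Constants depend on `C` only. -/

open Complex MeasureTheory Set Filter Topology Metric intervalIntegral
open scoped ENNReal

namespace CF6

theorem arc_cost (C : ℝ) : ∃ C' : ℝ, 1 ≤ C' ∧ ∀ (S L T σ : ℝ) (W A B S0 Sh n : ℝ → ℝ)
    (M : ℝ → ℝ≥0∞), Tgt C S L W A M → Lay T σ L B → (∀ θ, A (S0 θ) = B θ) →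
    ∀ p q δ : ℝ, p < q → 1 / 2 ≤ δ → δ ≤ 1 → S0 q = S0 p + δ →
    (∫⁻ θ in Ioo p q, M (Sh θ)) =
      (∫⁻ s in Ioo (S0 p) (S0 p + δ), M s * ENNReal.ofReal (n s)) →
    (∫⁻ s in Ioo (S0 p) (S0 p + δ), M s * ENNReal.ofReal (n s)) ≤
      ENNReal.ofReal (min (q - p) σ / (2 * δ)) * (∫⁻ s in Ioo (S0 p) (S0 p + δ), M s) +
        ENNReal.ofReal ((q - p) * (C * W (S0 p) ^ 2)) →
    (∫⁻ θ in Ioo p q, M (Sh θ) * ENNReal.ofReal (deriv B θ / W (S0 θ) + 1 / σ)) ≤
      ENNReal.ofReal C' * ((∫⁻ s in Ioo (S0 p) (S0 p + δ), M s) +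
        ENNReal.ofReal (1 / σ) * ∫⁻ θ in Ioo p q, ENNReal.ofReal (W (S0 θ)) ^ 2) := by
  obtain ⟨C1, hC1, hcomp⟩ := arc_compare C
  refine ⟨C1 + 2 * C1 * C ^ 2 * Real.exp (2 * C) + C1 ^ 3 * |C|, ?_, ?_⟩
  · have h1 : 0 ≤ 2 * C1 * C ^ 2 * Real.exp (2 * C) := by positivity
    have h2 : 0 ≤ C1 ^ 3 * |C| := by positivity
    linarith
  intro S L T σ W A B S0 Sh n M hTgt hLay hA p q δ hpq hδ0 hδ1 hq hcov hcost
  have hC := hTgt.C1
  have hC0 : 0 < C := by linarith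
  have hC10 : 0 < C1 := by linarith
  have hσ := hLay.σ0
  have hℓ : 0 < q - p := by linarith
  have hh : 0 < min (q - p) σ := lt_min hℓ hσ
  have hcmp := hcomp S L T σ W A B S0 M hTgt hLay hA p q δ hpq hδ0 hδ1 hq
  set w : ℝ≥0∞ := ENNReal.ofReal (W (S0 p)) with hw
  set Im : ℝ≥0∞ := ∫⁻ s in Ioo (S0 p) (S0 p + δ), M s with hIm
  set J : ℝ≥0∞ := ∫⁻ θ in Ioo p q, ENNReal.ofReal (W (S0 θ)) ^ 2 with hJ
  have hWp : 0 < W (S0 p) := hTgt.Wpos _
  -- left side
  have hL : (∫⁻ θ in Ioo p q, M (Sh θ) * ENNReal.ofReal (deriv B θ / W (S0 θ) + 1 / σ)) ≤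
      ENNReal.ofReal (C1 / min (q - p) σ) * ∫⁻ θ in Ioo p q, M (Sh θ) := by
    rw [mul_comm, ← lintegral_mul_const' _ _ ENNReal.ofReal_ne_top]
    refine setLIntegral_mono' measurableSet_Ioo fun θ hθ => ?_
    exact mul_le_mul_right (ENNReal.ofReal_le_ofReal (hcmp θ ⟨hθ.1.le, hθ.2.le⟩).2.1) _
  -- bound by the arc
  have hI : w ^ 2 ≤ ENNReal.ofReal (2 * (Real.exp (2 * C) * C)) * Im := by
    have h1 : ∀ s ∈ Ioo (S0 p) (S0 p + δ), w ^ 2 ≤ ENNReal.ofReal (Real.exp (2 * C) * C) * M s := by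
      intro s hs
      have h2 := W_compare hTgt s (S0 p)
      have h3 : |S0 p - s| ≤ 1 := by
        rw [abs_le]; constructor <;> linarith [hs.1, hs.2]
      have h4 : W (S0 p) ≤ Real.exp C * W s := by
        refine h2.trans (mul_le_mul_of_nonneg_right ?_ (hTgt.Wpos s).le)
        apply Real.exp_le_exp.mpr
        nlinarith
      have h5 : w ≤ ENNReal.ofReal (Real.exp C) * ENNReal.ofReal (W s) := by
        rw [← ENNReal.ofReal_mul (Real.exp_pos _).le]
        exact ENNReal.ofReal_le_ofReal h4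
      calc w ^ 2 ≤ (ENNReal.ofReal (Real.exp C) * ENNReal.ofReal (W s)) ^ 2 :=
            pow_le_pow_left' h5 2
        _ = ENNReal.ofReal (Real.exp C) ^ 2 * ENNReal.ofReal (W s) ^ 2 := mul_pow _ _ _
        _ ≤ ENNReal.ofReal (Real.exp C) ^ 2 * (ENNReal.ofReal C * M s) :=
            mul_le_mul_right (hTgt.Mge s) _
        _ = ENNReal.ofReal (Real.exp (2 * C) * C) * M s := by
            rw [← ENNReal.ofReal_pow (Real.exp_pos _).le, ← mul_assoc,
              ← ENNReal.ofReal_mul (by positivity)]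
            congr 3
            rw [← Real.exp_nat_mul]
            norm_num
    have h6 : w ^ 2 * ENNReal.ofReal δ ≤ ENNReal.ofReal (Real.exp (2 * C) * C) * Im := by
      calc w ^ 2 * ENNReal.ofReal δ = ∫⁻ s in Ioo (S0 p) (S0 p + δ), w ^ 2 := by
            rw [setLIntegral_const, Real.volume_Ioo]
            congr 2
            ring
        _ ≤ ∫⁻ s in Ioo (S0 p) (S0 p + δ), ENNReal.ofReal (Real.exp (2 * C) * C) * M s :=
            setLIntegral_mono' measurableSet_Ioo h1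
        _ = _ := lintegral_const_mul' _ _ ENNReal.ofReal_ne_top
    have h7 : w ^ 2 ≤ ENNReal.ofReal 2 * (w ^ 2 * ENNReal.ofReal δ) := by
      calc w ^ 2 = w ^ 2 * ENNReal.ofReal 1 := by rw [ENNReal.ofReal_one, mul_one]
        _ ≤ w ^ 2 * ENNReal.ofReal (2 * δ) :=
            mul_le_mul_right (ENNReal.ofReal_le_ofReal (by linarith)) _
        _ = _ := by
            rw [ENNReal.ofReal_mul (by norm_num)]
            ring
    calc w ^ 2 ≤ ENNReal.ofReal 2 * (w ^ 2 * ENNReal.ofReal δ) := h7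
      _ ≤ ENNReal.ofReal 2 * (ENNReal.ofReal (Real.exp (2 * C) * C) * Im) := mul_le_mul_right h6 _
      _ = _ := by rw [← mul_assoc, ← ENNReal.ofReal_mul (by norm_num)]
  have hJ2 : ENNReal.ofReal (q - p) * w ^ 2 ≤ ENNReal.ofReal (C1 ^ 2) * J := by
    have h1 : ∀ θ ∈ Ioo p q, w ^ 2 ≤ ENNReal.ofReal (C1 ^ 2) * ENNReal.ofReal (W (S0 θ)) ^ 2 := by
      intro θ hθ
      have h2 := (hcmp θ ⟨hθ.1.le, hθ.2.le⟩).2.2.1
      rw [hw, ← ENNReal.ofReal_pow hWp.le, ← ENNReal.ofReal_pow (hTgt.Wpos _).le,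
        ← ENNReal.ofReal_mul (by positivity), ← mul_pow]
      exact ENNReal.ofReal_le_ofReal (pow_le_pow_left₀ hWp.le h2 2)
    calc ENNReal.ofReal (q - p) * w ^ 2 = ∫⁻ θ in Ioo p q, w ^ 2 := by
          rw [setLIntegral_const, Real.volume_Ioo, mul_comm]
      _ ≤ ∫⁻ θ in Ioo p q, ENNReal.ofReal (C1 ^ 2) * ENNReal.ofReal (W (S0 θ)) ^ 2 :=
          setLIntegral_mono' measurableSet_Ioo h1
      _ = _ := lintegral_const_mul' _ _ ENNReal.ofReal_ne_top
  -- assemble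
  have hfirst : ENNReal.ofReal (C1 / min (q - p) σ) * (ENNReal.ofReal (min (q - p) σ / (2 * δ)) * Im) ≤
      ENNReal.ofReal C1 * Im := by
    rw [← mul_assoc, ← ENNReal.ofReal_mul (by positivity)]
    refine mul_le_mul_left (ENNReal.ofReal_le_ofReal ?_) _
    have h1 : C1 / min (q - p) σ * (min (q - p) σ / (2 * δ)) = C1 / (2 * δ) := by
      field_simp
    rw [h1]
    exact div_le_self hC10.le (by linarith)
  have hsecond : ENNReal.ofReal (C1 / min (q - p) σ) *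
      ENNReal.ofReal ((q - p) * (C * W (S0 p) ^ 2)) ≤
      ENNReal.ofReal (2 * C1 * C ^ 2 * Real.exp (2 * C)) * Im +
        ENNReal.ofReal (C1 ^ 3 * |C|) * (ENNReal.ofReal (1 / σ) * J) := by
    have h1 : (q - p) / min (q - p) σ ≤ 1 + (q - p) / σ := by
      have h3 : 0 ≤ (q - p) / σ := by positivity
      rcases min_choice (q - p) σ with h2 | h2
      · rw [h2, div_self hℓ.ne']
        linarith
      · rw [h2]
        linarith
    have h2 : C1 / min (q - p) σ * ((q - p) * (C * W (S0 p) ^ 2)) ≤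
        C1 * C * W (S0 p) ^ 2 + (C1 * C) * ((1 / σ) * ((q - p) * W (S0 p) ^ 2)) := by
      have h3 : C1 / min (q - p) σ * ((q - p) * (C * W (S0 p) ^ 2)) =
          (C1 * C * W (S0 p) ^ 2) * ((q - p) / min (q - p) σ) := by
        field_simp
      have h4 : C1 * C * W (S0 p) ^ 2 + (C1 * C) * ((1 / σ) * ((q - p) * W (S0 p) ^ 2)) =
          (C1 * C * W (S0 p) ^ 2) * (1 + (q - p) / σ) := by
        field_simp
      rw [h3, h4]
      exact mul_le_mul_of_nonneg_left h1 (by positivity)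
    rw [← ENNReal.ofReal_mul (by positivity)]
    refine (ENNReal.ofReal_le_ofReal h2).trans ?_
    rw [ENNReal.ofReal_add (by positivity) (by positivity)]
    refine add_le_add ?_ ?_
    · rw [ENNReal.ofReal_mul (by positivity), ENNReal.ofReal_pow hWp.le]
      refine (mul_le_mul_right hI _).trans (le_of_eq ?_)
      rw [← mul_assoc, ← ENNReal.ofReal_mul (by positivity)]
      congr 2
      ring
    · rw [ENNReal.ofReal_mul (p := C1 * C) (by positivity),
        ENNReal.ofReal_mul (p := 1 / σ) (by positivity),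
        ENNReal.ofReal_mul (p := q - p) hℓ.le, ENNReal.ofReal_pow hWp.le]
      calc ENNReal.ofReal (C1 * C) * (ENNReal.ofReal (1 / σ) * (ENNReal.ofReal (q - p) * w ^ 2))
          ≤ ENNReal.ofReal (C1 * C) * (ENNReal.ofReal (1 / σ) * (ENNReal.ofReal (C1 ^ 2) * J)) :=
            mul_le_mul_right (mul_le_mul_right hJ2 _) _
        _ = (ENNReal.ofReal (C1 * C) * ENNReal.ofReal (C1 ^ 2)) * (ENNReal.ofReal (1 / σ) * J) := by
            ring
        _ = _ := by
            rw [← ENNReal.ofReal_mul (by positivity), abs_of_pos hC0]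
            congr 2
            ring
  calc (∫⁻ θ in Ioo p q, M (Sh θ) * ENNReal.ofReal (deriv B θ / W (S0 θ) + 1 / σ))
      ≤ ENNReal.ofReal (C1 / min (q - p) σ) * ∫⁻ θ in Ioo p q, M (Sh θ) := hL
    _ ≤ ENNReal.ofReal (C1 / min (q - p) σ) * (ENNReal.ofReal (min (q - p) σ / (2 * δ)) * Im +
        ENNReal.ofReal ((q - p) * (C * W (S0 p) ^ 2))) := by
        rw [hcov]
        exact mul_le_mul_right hcost _
    _ ≤ ENNReal.ofReal C1 * Im + (ENNReal.ofReal (2 * C1 * C ^ 2 * Real.exp (2 * C)) * Im +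
        ENNReal.ofReal (C1 ^ 3 * |C|) * (ENNReal.ofReal (1 / σ) * J)) := by
        rw [mul_add]
        exact add_le_add hfirst hsecond
    _ ≤ _ := by
        rw [ENNReal.ofReal_add (by positivity) (by positivity),
          ENNReal.ofReal_add (by positivity) (by positivity), mul_add, add_mul, add_mul]
        have h1 : ENNReal.ofReal (C1 ^ 3 * |C|) * (ENNReal.ofReal (1 / σ) * J) ≤
            (ENNReal.ofReal C1 + ENNReal.ofReal (2 * C1 * C ^ 2 * Real.exp (2 * C)) +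
              ENNReal.ofReal (C1 ^ 3 * |C|)) * (ENNReal.ofReal (1 / σ) * J) :=
          mul_le_mul_left le_add_self _
        calc ENNReal.ofReal C1 * Im + (ENNReal.ofReal (2 * C1 * C ^ 2 * Real.exp (2 * C)) * Im +
              ENNReal.ofReal (C1 ^ 3 * |C|) * (ENNReal.ofReal (1 / σ) * J))
            = (ENNReal.ofReal C1 * Im + ENNReal.ofReal (2 * C1 * C ^ 2 * Real.exp (2 * C)) * Im) +
              ENNReal.ofReal (C1 ^ 3 * |C|) * (ENNReal.ofReal (1 / σ) * J) := by ring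
          _ ≤ _ := add_le_add le_self_add h1

end CF6

end

section

/-! # G13b: the new parametrisation

Take `exists_arcs`, `exists_parts` with `s0 = S0 0`, and `exists_inverse_density` with `P = S`, `Q = 2π`, `s0 = S0 0`, `θ0 = 0` (`∫ x in s..(s+S), n x = 2π` : by `S`-periodicity it does not depend on `s`, and for `s = S0 0` it is the sum over the `N` arcs
`= th N - th 0 = 2π`). Write `a j = S0 0 + j δ`, `Th s = ∫ x in S0 0..s, n x`, `Th (a j) = th j` (induction over `j : ℤ`, both directions), so `Sh (th j) = a j = S0 (th j)`.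
near: for `θ ∈ [th j, th (j+1)]` both `Sh θ` and `S0 θ` are in `[a j, a (j+1)]`, `δ ≤ 1`; every `θ` is in such an interval with `θ < th (j+1)`: `j = ⌊(S0 θ - S0 0)/δ⌋`.
loc: for `θ, θ' ∈ [th j, th (j+1)]`: `|θ' - θ| = |∫_{Sh θ}^{Sh θ'} n| ≥ h j/(2δ) |Sh θ' - Sh θ|`, so `|Sh θ' - Sh θ| ≤ 2 δ/h j |θ'-θ| ≤ 2 C1 (v/W + 1/σ) |θ'-θ|` (`arc_compare`, `(v/W+1/σ)` evaluated at `θ`). If `th j < θ < th (j+1)` the neighbouring
points are in the same arc; if `θ = th j` the points to the left are in the arc `j-1`, to the right in the arc `j`, and `arc_compare` at `θ` holds for both arcs.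
cost: `∫⁻ over Ioo 0 (2π)` = sum over `j < N` of the integrals over `Ioo (th j) (th (j+1))` (up to finitely many points; induction on the number of arcs: `∫⁻ over Ioo (th 0) (th k)`), each bounded by `arc_cost` (first hypothesis from the change of variables of
`exists_inverse_density`, `Mmeas`); the right sides add up (`∫⁻ M` over `Ioo (S0 0) (S0 0 + N δ)`). -/

open Complex MeasureTheory Set Filter Topology Metric intervalIntegral
open scoped ENNReal

namespace CF6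

private theorem g13b_split {f : ℝ → ℝ≥0∞} {a b c : ℝ} (hab : a ≤ b) (hbc : b ≤ c) :
    ∫⁻ x in Ioo a c, f x = (∫⁻ x in Ioo a b, f x) + ∫⁻ x in Ioo b c, f x := by
  rw [setLIntegral_congr (Ioo_ae_eq_Ioc (a := a) (b := c)),
    setLIntegral_congr (Ioo_ae_eq_Ioc (a := a) (b := b)),
    setLIntegral_congr (Ioo_ae_eq_Ioc (a := b) (b := c)), ← Ioc_union_Ioc_eq_Ioc hab hbc,
    lintegral_union measurableSet_Ioc]
  rw [Set.disjoint_left]
  intro x hx hx'
  exact absurd hx.2 (not_le.2 hx'.1)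

private theorem g13b_int {n : ℝ → ℝ} (hnm : Measurable n) {a b : ℝ}
    (hab : ∀ s, a ≤ n s ∧ n s ≤ b) (p q : ℝ) : IntervalIntegrable n volume p q := by
  rw [intervalIntegrable_iff]
  refine Measure.integrableOn_of_bounded (M := max |a| |b|) ?_ hnm.aestronglyMeasurable ?_
  · exact (measure_Ioc_lt_top (μ := volume)).ne
  · refine Filter.Eventually.of_forall fun x => ?_
    rw [Real.norm_eq_abs]
    exact abs_le_max_abs_abs (hab x).1 (hab x).2

theorem exists_rep (C : ℝ) : ∃ C' : ℝ, 1 ≤ C' ∧ ∀ (S L T σ : ℝ) (W A B S0 : ℝ → ℝ)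
    (M : ℝ → ℝ≥0∞), Tgt C S L W A M → Lay T σ L B → (∀ θ, A (S0 θ) = B θ) →
    ∃ Sh : ℝ → ℝ, Rep C' S T σ W M B S0 Sh := by
  obtain ⟨C1, hC1, H1⟩ := arc_compare C
  obtain ⟨C2, hC2, H2⟩ := arc_cost C
  refine ⟨2 * C1 + C2, by linarith, ?_⟩
  intro S L T σ W A B S0 M h hB hS
  obtain ⟨N, δ, th, hN, hδ1, hδ2, hNδ, hth, hth0, hthper, hS0th⟩ := exists_arcs h hB hS
  obtain ⟨n, a, b, hnm, ha, hab, hnper, hnint, hnlow, hncost⟩ :=
    exists_parts h hB.σ0 hN hδ1 hδ2 hNδ hth hthper (S0 0)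
  obtain ⟨hS0mono, hS0surj, hS0per, hS0der⟩ := S0_facts h hB hS
  have hδ0 : 0 < δ := by linarith
  have hσ := hB.σ0
  have hII : ∀ p q, IntervalIntegrable n volume p q := g13b_int hnm hab
  have hTh : ∀ j : ℤ, ∫ x in (S0 0)..(S0 0 + j * δ), n x = th j := by
    intro j
    induction j using Int.induction_on with
    | zero => simp [hth0]
    | succ i ih =>
      have e1 := hnint (i : ℤ)
      rw [← integral_add_adjacent_intervals (hII _ (S0 0 + ((i : ℤ) : ℝ) * δ)) (hII _ _)]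
      rw [ih]
      push_cast at e1 ⊢
      rw [e1]
      ring
    | pred i ih =>
      have e1 := hnint (-(i : ℤ) - 1)
      rw [← integral_add_adjacent_intervals (hII _ (S0 0 + ((-(i : ℤ) : ℤ) : ℝ) * δ)) (hII _ _)]
      rw [ih]
      have e2 : ∫ x in (S0 0 + ((-(i : ℤ) : ℤ) : ℝ) * δ)..(S0 0 + ((-(i : ℤ) - 1 : ℤ) : ℝ) * δ), n x =
          -(th (-(i : ℤ)) - th (-(i : ℤ) - 1)) := by
        rw [integral_symm]
        congr 1
        have e3 : ((-(i : ℤ) : ℤ) : ℝ) = ((-(i : ℤ) - 1 : ℤ) : ℝ) + 1 := by push_cast; ring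
        rw [e3, e1]
        congr 2
        ring
      rw [e2]
      ring
  have hSS : 0 < S := by linarith [h.S1]
  have hP : ∀ s, ∫ x in s..(s + S), n x = 2 * Real.pi := by
    intro s
    rw [Function.Periodic.intervalIntegral_add_eq (f := n) (T := S) hnper s (S0 0)]
    have e := hTh (N : ℤ)
    have e' := hthper 0
    rw [zero_add, hth0, zero_add] at e'
    rw [e'] at e
    rw [← e, ← hNδ]
    push_cast
    rfl
  obtain ⟨Sh, hmono, hlip, hShper, hSh1, hSh2, hcov⟩ :=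
    exists_inverse_density hnm ha hab hSS hP (S0 0) 0
  have hShth : ∀ j : ℤ, Sh (th j) = S0 0 + j * δ := by
    intro j
    have := hSh1 (S0 0 + j * δ)
    rwa [hTh j, zero_add] at this
  have hcell : ∀ θ, ∃ j : ℤ, th j ≤ θ ∧ θ < th (j + 1) := by
    intro θ
    refine ⟨⌊(S0 θ - S0 0) / δ⌋, ?_, ?_⟩
    · rw [← hS0mono.le_iff_le, hS0th]
      have := Int.floor_le ((S0 θ - S0 0) / δ)
      rw [le_div_iff₀ hδ0] at this
      linarith
    · rw [← hS0mono.lt_iff_lt, hS0th]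
      have := Int.lt_floor_add_one ((S0 θ - S0 0) / δ)
      rw [div_lt_iff₀ hδ0] at this
      push_cast
      linarith
  have hstep : ∀ j : ℤ, S0 (th (j + 1)) = S0 (th j) + δ := by
    intro j
    rw [hS0th, hS0th]
    push_cast
    ring
  have hhpos : ∀ j : ℤ, 0 < min (th (j + 1) - th j) σ := by
    intro j
    exact lt_min (by linarith [hth (show j < j + 1 by omega)]) hσ
  -- the key estimate inside one arc, ordered version
  have key0 : ∀ (j : ℤ) (θ θ' : ℝ), th j ≤ θ → θ ≤ θ' → θ' ≤ th (j + 1) →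
      min (th (j + 1) - th j) σ / (2 * δ) * (Sh θ' - Sh θ) ≤ θ' - θ := by
    intro j θ θ' h1 h2 h3
    have e : θ' - θ = ∫ x in (Sh θ)..(Sh θ'), n x := by
      have a1 := hSh2 θ
      have a2 := hSh2 θ'
      have a3 := integral_add_adjacent_intervals (hII (S0 0) (Sh θ)) (hII (Sh θ) (Sh θ'))
      linarith
    have l1 : S0 0 + j * δ ≤ Sh θ := by rw [← hShth]; exact hmono.monotone h1
    have l2 : Sh θ' ≤ S0 0 + (j + 1) * δ := by
      have := hShth (j + 1)
      push_cast at this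
      rw [← this]
      exact hmono.monotone h3
    have l3 : Sh θ ≤ Sh θ' := hmono.monotone h2
    rw [e]
    calc min (th (j + 1) - th j) σ / (2 * δ) * (Sh θ' - Sh θ)
        = ∫ x in (Sh θ)..(Sh θ'), (min (th (j + 1) - th j) σ / (2 * δ)) := by
          rw [intervalIntegral.integral_const, smul_eq_mul, mul_comm]
      _ ≤ ∫ x in (Sh θ)..(Sh θ'), n x := by
          refine integral_mono_on_of_le_Ioo l3 intervalIntegrable_const (hII _ _) ?_
          intro x hx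
          exact hnlow j x (by linarith [hx.1]) (by linarith [hx.2])
  have key : ∀ (j : ℤ) (θ θ' : ℝ), θ ∈ Icc (th j) (th (j + 1)) → θ' ∈ Icc (th j) (th (j + 1)) →
      |Sh θ' - Sh θ| ≤ (2 * C1) * (deriv B θ / W (S0 θ) + 1 / σ) * |θ' - θ| := by
    intro j θ θ' h1 h2
    have c1 : min (th (j + 1) - th j) σ / (2 * δ) * |Sh θ' - Sh θ| ≤ |θ' - θ| := by
      rcases le_total θ θ' with hle | hle
      · rw [abs_of_nonneg (sub_nonneg.2 (hmono.monotone hle)), abs_of_nonneg (sub_nonneg.2 hle)]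
        exact key0 j θ θ' h1.1 hle h2.2
      · rw [abs_sub_comm, abs_sub_comm θ', abs_of_nonneg (sub_nonneg.2 (hmono.monotone hle)),
          abs_of_nonneg (sub_nonneg.2 hle)]
        exact key0 j θ' θ h2.1 hle h1.2
    have c2 := (H1 S L T σ W A B S0 M h hB hS (th j) (th (j + 1)) δ (hth (by omega)) hδ1 hδ2
      (hstep j) θ h1).1
    set m := min (th (j + 1) - th j) σ with hm
    have hm0 : 0 < m := hhpos j
    set Q := deriv B θ / W (S0 θ) + 1 / σ with hQ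
    have c3 : 1 ≤ C1 * Q * m := by
      rw [div_le_iff₀ hm0] at c2
      exact c2
    have c4 : |Sh θ' - Sh θ| * m ≤ 2 * δ * |θ' - θ| := by
      rw [div_mul_eq_mul_div, div_le_iff₀ (by positivity)] at c1
      linarith
    have habs : 0 ≤ |Sh θ' - Sh θ| := abs_nonneg _
    have habs' : 0 ≤ |θ' - θ| := abs_nonneg _
    have hCQ : 0 < C1 * Q := by
      by_contra hcon
      push Not at hcon
      nlinarith
    calc |Sh θ' - Sh θ| = |Sh θ' - Sh θ| * 1 := by ring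
      _ ≤ |Sh θ' - Sh θ| * (C1 * Q * m) := mul_le_mul_of_nonneg_left c3 habs
      _ = C1 * Q * (|Sh θ' - Sh θ| * m) := by ring
      _ ≤ C1 * Q * (2 * δ * |θ' - θ|) := mul_le_mul_of_nonneg_left c4 hCQ.le
      _ ≤ C1 * Q * (2 * 1 * |θ' - θ|) := by
          refine mul_le_mul_of_nonneg_left ?_ hCQ.le
          nlinarith
      _ = 2 * C1 * Q * |θ' - θ| := by ring
  have hQpos : ∀ θ, 0 < deriv B θ / W (S0 θ) + 1 / σ := by
    intro θ
    have := hB.pos θ
    have := h.Wpos (S0 θ)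
    positivity
  have key' : ∀ (j : ℤ) (θ θ' : ℝ), θ ∈ Icc (th j) (th (j + 1)) → θ' ∈ Icc (th j) (th (j + 1)) →
      |Sh θ' - Sh θ| ≤ (2 * C1 + C2) * (deriv B θ / W (S0 θ) + 1 / σ) * |θ' - θ| := by
    intro j θ θ' h1 h2
    refine (key j θ θ' h1 h2).trans ?_
    refine mul_le_mul_of_nonneg_right ?_ (abs_nonneg _)
    exact mul_le_mul_of_nonneg_right (by linarith) (hQpos θ).le
  refine ⟨Sh, ⟨hmono, hlip, ?_, ?_, ?_, ?_⟩⟩
  · intro θ
    exact hShper θ
  · intro θ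
    obtain ⟨j, hj1, hj2⟩ := hcell θ
    have a1 : S0 0 + j * δ ≤ Sh θ := by rw [← hShth]; exact hmono.monotone hj1
    have a2 : Sh θ ≤ S0 0 + (j + 1) * δ := by
      have := hShth (j + 1)
      push_cast at this
      rw [← this]
      exact hmono.monotone hj2.le
    have a3 : S0 0 + j * δ ≤ S0 θ := by rw [← hS0th]; exact hS0mono.monotone hj1
    have a4 : S0 θ ≤ S0 0 + (j + 1) * δ := by
      have := hS0th (j + 1)
      push_cast at this
      rw [← this]
      exact hS0mono.monotone hj2.le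
    rw [abs_le]
    constructor <;> nlinarith
  · intro θ
    obtain ⟨j, hj1, hj2⟩ := hcell θ
    rcases hj1.lt_or_eq with hlt | heq
    · filter_upwards [Ioo_mem_nhds hlt hj2] with θ' hθ'
      exact key' j θ θ' ⟨hj1, hj2.le⟩ ⟨hθ'.1.le, hθ'.2.le⟩
    · have hprev : th (j - 1) < θ := by rw [← heq]; exact hth (by omega)
      filter_upwards [Ioo_mem_nhds hprev hj2] with θ' hθ'
      rcases le_total θ θ' with hle | hle
      · exact key' j θ θ' ⟨hj1, hj2.le⟩ ⟨hj1.trans hle, hθ'.2.le⟩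
      · refine key' (j - 1) θ θ' ⟨hprev.le, ?_⟩ ⟨hθ'.1.le, ?_⟩
        · rw [sub_add_cancel, heq]
        · rw [sub_add_cancel, heq]; exact hle
  · have hind : ∀ k : ℕ,
        (∫⁻ θ in Ioo 0 (th k), M (Sh θ) * ENNReal.ofReal (deriv B θ / W (S0 θ) + 1 / σ)) ≤
        ENNReal.ofReal C2 * ((∫⁻ s in Ioo (S0 0) (S0 0 + k * δ), M s) +
          ENNReal.ofReal (1 / σ) * ∫⁻ θ in Ioo 0 (th k), ENNReal.ofReal (W (S0 θ)) ^ 2) := by
      intro k
      induction k with
      | zero =>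
        have : th ((0 : ℕ) : ℤ) = 0 := by simpa using hth0
        rw [this]
        simp
      | succ k ih =>
        have t0 : (0 : ℝ) ≤ th (k : ℤ) := by
          rw [← hth0]
          exact hth.monotone (by omega)
        have t1 : th (k : ℤ) < th ((k : ℤ) + 1) := hth (by omega)
        have tk : th ((k + 1 : ℕ) : ℤ) = th ((k : ℤ) + 1) := by push_cast; rfl
        have s1 : S0 0 + ((k + 1 : ℕ) : ℝ) * δ = S0 (th k) + δ := by
          rw [hS0th]
          push_cast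
          ring
        have s2 : S0 0 + (k : ℝ) * δ = S0 (th k) := by
          rw [hS0th]
          push_cast
          ring
        have s3 : S0 0 ≤ S0 (th k) := hS0mono.monotone t0
        have hc1 : (∫⁻ θ in Ioo (th k) (th ((k : ℤ) + 1)), M (Sh θ)) =
            (∫⁻ s in Ioo (S0 (th k)) (S0 (th k) + δ), M s * ENNReal.ofReal (n s)) := by
          have := hcov M h.Mmeas (S0 0 + ((k : ℤ) : ℝ) * δ) (S0 0 + (((k : ℤ) + 1 : ℤ) : ℝ) * δ)
            (by push_cast; nlinarith)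
          rw [hTh, hTh, zero_add, zero_add] at this
          rw [this, hS0th, show S0 0 + (((k : ℤ) + 1 : ℤ) : ℝ) * δ = S0 0 + ((k : ℤ) : ℝ) * δ + δ by
            push_cast; ring]
        have hc2 : (∫⁻ s in Ioo (S0 (th k)) (S0 (th k) + δ), M s * ENNReal.ofReal (n s)) ≤
            ENNReal.ofReal (min (th ((k : ℤ) + 1) - th k) σ / (2 * δ)) *
              (∫⁻ s in Ioo (S0 (th k)) (S0 (th k) + δ), M s) +
            ENNReal.ofReal ((th ((k : ℤ) + 1) - th k) * (C * W (S0 (th k)) ^ 2)) := by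
          have := hncost (k : ℤ)
          have e1 : S0 0 + ((k : ℤ) : ℝ) * δ = S0 (th k) := by rw [hS0th]
          have e2 : S0 0 + (((k : ℤ) : ℝ) + 1) * δ = S0 (th k) + δ := by rw [hS0th]; ring
          rw [e1, e2] at this
          exact this
        have hc3 := H2 S L T σ W A B S0 Sh n M h hB hS (th k) (th ((k : ℤ) + 1)) δ t1 hδ1 hδ2
          (hstep k) hc1 hc2
        rw [tk, g13b_split t0 t1.le, g13b_split (f := fun θ => ENNReal.ofReal (W (S0 θ)) ^ 2) t0 t1.le,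
          s1, g13b_split (f := M) s3 (by linarith : S0 (th k) ≤ S0 (th k) + δ)]
        rw [s2] at ih
        refine (add_le_add ih hc3).trans (le_of_eq ?_)
        ring
    have e := hthper 0
    rw [zero_add, hth0, zero_add] at e
    have := hind N
    rw [e] at this
    rw [show S0 0 + (N : ℝ) * δ = S0 0 + S by rw [hNδ]] at this
    refine this.trans ?_
    gcongr
    linarith

end CF6

end

section

/-! # G21b: PsiG is locally Lipschitz

`chain`: derivative of `w ↦ cu τ xs w.re w.im` at `(s,ζ)` is `v ↦ τ (1 + τ' ζ I) v.re + τ I v.im` (`hasDerivAt_cu`, `cu_LL`), composed with `z ↦ X z + i Z z` and with the holomorphic `Φ` (`fderiv_comp_holo` in K/L1.lean).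
`chain_le`: `‖1 + τ' Z I‖ ≤ ‖1 + τ' I‖ ≤ 2` for `0 < Z ≤ 1`, `|τ'| ≤ 1/10`.
`PsiG_LL`: `XZ`, `ZZ` locally Lipschitz, `cu` is `C¹`, `Φ` is holomorphic on UHP (`C¹` over `ℝ` at each point of UHP: `DifferentiableOn.contDiffOn` then restrict scalars), `PsiG` maps the strip into UHP.
`f_per`: `PsiG (z + 2πI) = PsiG z + 2π` (`cu_per`), `Φ (u + 2π) = Φ u` is a hypothesis (`phi_per`). -/

open Complex MeasureTheory Set Filter Topology Metric intervalIntegral
open scoped ENNReal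

namespace CF6

section
variable {Φ : ℂ → ℂ} {τ xs : ℝ → ℝ} {S L C T σ c : ℝ} {B0 S0 Sh hh Ai : ℝ → ℝ}

theorem FD.PsiG_LL (F : FD Φ τ xs S L C T σ c B0 S0 Sh hh Ai) :
    LL (strip T) (PsiG Φ τ xs T σ c B0 Sh hh Ai) ∧
    LL (strip T) (fun z => Φ (PsiG Φ τ xs T σ c B0 Sh hh Ai z)) ∧
    ∀ z : ℂ, 0 ≤ z.re → z.re < T → PsiG Φ τ xs T σ c B0 Sh hh Ai (z + 2 * Real.pi * I) =
      PsiG Φ τ xs T σ c B0 Sh hh Ai z + 2 * Real.pi := by
  obtain ⟨_, hXL, hXper, _, _⟩ := F.XZ_facts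
  obtain ⟨_, hZL, hZpos, _, hZper, _⟩ := F.ZZ_facts
  have h1 : LL (strip T) (fun z => (XZ Φ τ xs T σ B0 Sh Ai z : ℂ) + ZZ T c hh z * I) :=
    LL_mk hXL hZL
  have h2 : LL univ (fun w : ℂ => cu τ xs w.re w.im) :=
    LL_of_contDiffAt fun z _ => (cu_LL F.dep F.par).contDiffAt
  have h3 : LL (strip T) (PsiG Φ τ xs T σ c B0 Sh hh Ai) := by
    have h4 := LL_compC h1 h2 (Set.mapsTo_univ _ _)
    have h5 : (fun z => (fun w : ℂ => cu τ xs w.re w.im)
        ((XZ Φ τ xs T σ B0 Sh Ai z : ℂ) + ZZ T c hh z * I)) = PsiG Φ τ xs T σ c B0 Sh hh Ai := by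
      funext z
      simp [PsiG]
    rw [← h5]
    exact h4
  have hUo : IsOpen UHP := isOpen_lt continuous_const Complex.continuous_im
  have h6 : LL UHP Φ := by
    refine LL_of_contDiffAt fun u hu => ?_
    have h7 : ContDiffAt ℂ 1 Φ u := (F.hol.contDiffOn hUo).contDiffAt (hUo.mem_nhds hu)
    exact h7.restrict_scalars ℝ
  have h8 : MapsTo (PsiG Φ τ xs T σ c B0 Sh hh Ai) (strip T) UHP := by
    intro z hz
    show 0 < (PsiG Φ τ xs T σ c B0 Sh hh Ai z).im
    unfold PsiG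
    rw [(cu_im τ xs _ _).1]
    exact mul_pos (F.dep.pos _) (hZpos z hz).1
  refine ⟨h3, LL_compC h3 h6 h8, ?_⟩
  intro z hz0 hzT
  unfold PsiG
  rw [hXper z hz0 hzT, hZper z, cu_per F.par F.dep.per]

end

end CF6

end

section

/-! # G22b: energy on 0 < t < T - σ

`FD.mono`: only the fields `c0, c1, near` involve `c`.
`lintegral_rect`: `Complex.volume_preserving_equiv_real_prod`, Tonelli.
`ratio`: the function `(s,ζ) ↦ gD s ζ/gD s 1` is continuous on the compact set `[0,S] × [1/2,1]` (`deriv Φ` continuous on UHP, `Φ' ≠ 0`), equal to `1` for `ζ = 1`, and `S`-periodic in `s`: uniformly close to 1 for `ζ` near 1. `W` is bounded.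
`energy1`: let `η' = ε/10`. For `z` in the region, `hh ≤ σ/2 < T - re`, so `ZZ = 1 - c re/T ∈ [1-c,1]`, `ZZ_t = -c/T`, `ZZ_θ = 0` (`ZZ_der`); `XZ_der`, `Lam_der1`: `|X_e| = |λ_e|/(W(X) ‖1+τ' I‖)` (`deriv gA = gD · 1 · ‖1 + τ' I‖`, hypothesis `hA`). `chain_le`:
`|f_t| ≤ (gD X Z/gD X 1) |λ_t| + gD X Z c/T ≤ (1+η')(|λ_t| + Wmax c/T)`, `|f_θ| ≤ (1+η')|λ_θ|`. `(a+b)² ≤ (1+η')a² + (1+1/η')b²`, `(1+η')³ ≤ 1+ε`. The remaining term is `≤ (1+η')²(1+1/η')(Wmax c/T)² · 2πT ≤ η` for small `c`.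
At points where `XZ` or `ZZ` is not differentiable (null set, `LL_ae_diff`) nothing is needed. -/

open Complex MeasureTheory Set Filter Topology Metric intervalIntegral
open scoped ENNReal

namespace CF6

theorem g22b_lin {D W n l X1 Z1 f q Wm b : ℝ} (hD0 : 0 ≤ D) (hD : D ≤ q * W) (hW : 0 < W)
    (hWm : W ≤ Wm) (hn : 0 < n) (hX : X1 = l / (W * n)) (hZ : |Z1| ≤ b) (hq : 0 ≤ q) (hb : 0 ≤ b)
    (hf : f ≤ D * (n * |X1| + |Z1|)) : f ≤ q * (|l| + Wm * b) := by
  have h1 : n * |X1| = |l| / W := by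
    rw [hX, abs_div, abs_of_pos (mul_pos hW hn)]
    field_simp
  rw [h1] at hf
  have h2 : D * (|l| / W + |Z1|) ≤ q * W * (|l| / W + b) := by
    have h3 : 0 ≤ |l| / W := by positivity
    gcongr
  have h4 : q * W * (|l| / W + b) = q * (|l| + W * b) := by
    field_simp
  rw [h4] at h2
  refine hf.trans (h2.trans ?_)
  gcongr

theorem g22b_sq {f g l m q ε B : ℝ} (hε : 0 < ε) (hε1 : ε < 1) (hq : q = 1 + ε / 10)
    (hf0 : 0 ≤ f) (hg0 : 0 ≤ g) (hB : 0 ≤ B)
    (hf : f ≤ q * (|l| + B)) (hg : g ≤ q * (|m| + 0)) :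
    f ^ 2 + g ^ 2 ≤ (1 + ε) * (l ^ 2 + m ^ 2) + q ^ 2 * (1 + 10 / ε) * B ^ 2 := by
  have hq0 : 0 < q := by rw [hq]; positivity
  have h1 : f ^ 2 ≤ q ^ 2 * (|l| + B) ^ 2 := by
    rw [← mul_pow]; exact pow_le_pow_left₀ hf0 hf 2
  have h2 : g ^ 2 ≤ q ^ 2 * m ^ 2 := by
    have := pow_le_pow_left₀ hg0 hg 2
    rw [add_zero, mul_pow, sq_abs] at this
    exact this
  have h3 : (|l| + B) ^ 2 ≤ q * l ^ 2 + (1 + 10 / ε) * B ^ 2 := by
    have h4 : 2 * |l| * B ≤ (ε / 10) * l ^ 2 + (10 / ε) * B ^ 2 := by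
      have h5 : 0 ≤ (ε / 10) * (|l| - (10 / ε) * B) ^ 2 := by positivity
      have h6 : (ε / 10) * (|l| - (10 / ε) * B) ^ 2 =
          (ε / 10) * l ^ 2 - 2 * |l| * B + (10 / ε) * B ^ 2 := by
        rw [← sq_abs l]
        field_simp
        ring
      linarith
    have h7 : |l| ^ 2 = l ^ 2 := sq_abs l
    rw [hq]
    nlinarith
  have h8 : q ^ 3 ≤ 1 + ε := by
    rw [hq]
    nlinarith [mul_pos hε hε, mul_pos (mul_pos hε hε) hε]
  have h9 : q ^ 2 ≤ q ^ 3 := by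
    have : 1 ≤ q := by rw [hq]; linarith
    nlinarith [sq_nonneg q]
  have hl2 := sq_nonneg l
  have hm2 := sq_nonneg m
  calc f ^ 2 + g ^ 2 ≤ q ^ 2 * (|l| + B) ^ 2 + q ^ 2 * m ^ 2 := add_le_add h1 h2
    _ ≤ q ^ 2 * (q * l ^ 2 + (1 + 10 / ε) * B ^ 2) + q ^ 2 * m ^ 2 := by gcongr
    _ = q ^ 3 * l ^ 2 + q ^ 2 * m ^ 2 + q ^ 2 * (1 + 10 / ε) * B ^ 2 := by ring
    _ ≤ (1 + ε) * l ^ 2 + (1 + ε) * m ^ 2 + q ^ 2 * (1 + 10 / ε) * B ^ 2 := by
        gcongr
        exact h9.trans h8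
    _ = _ := by ring

theorem g22b_enn {a b l m k B : ℝ} (ha : 0 ≤ a) (hb : 0 ≤ b) (hk : 0 ≤ k) (hB : 0 ≤ B)
    (h : a ^ 2 + b ^ 2 ≤ k * (l ^ 2 + m ^ 2) + B) :
    ENNReal.ofReal a ^ 2 + ENNReal.ofReal b ^ 2 ≤
      ENNReal.ofReal k * (‖l‖ₑ ^ 2 + ‖m‖ₑ ^ 2) + ENNReal.ofReal B := by
  have e1 : ‖l‖ₑ ^ 2 = ENNReal.ofReal (l ^ 2) := by
    rw [Real.enorm_eq_ofReal_abs, ← ENNReal.ofReal_pow (abs_nonneg _), sq_abs]
  have e2 : ‖m‖ₑ ^ 2 = ENNReal.ofReal (m ^ 2) := by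
    rw [Real.enorm_eq_ofReal_abs, ← ENNReal.ofReal_pow (abs_nonneg _), sq_abs]
  rw [e1, e2, ← ENNReal.ofReal_pow ha, ← ENNReal.ofReal_pow hb,
    ← ENNReal.ofReal_add (sq_nonneg _) (sq_nonneg _), ← ENNReal.ofReal_add (sq_nonneg _) (sq_nonneg _),
    ← ENNReal.ofReal_mul hk, ← ENNReal.ofReal_add (by positivity) hB]
  exact ENNReal.ofReal_le_ofReal h

section
variable {Φ : ℂ → ℂ} {τ xs : ℝ → ℝ} {S L C T σ c : ℝ} {B0 S0 Sh hh Ai : ℝ → ℝ}

theorem FD.energy1 (F : FD Φ τ xs S L C T σ c B0 S0 Sh hh Ai)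
    (hA : ∀ s, deriv (gA Φ τ xs) s = gD Φ τ xs s 1 * ‖(1 + deriv τ (xs s) * I : ℂ)‖)
    (ε η : ℝ) (hε : 0 < ε) (hε1 : ε < 1) (hη : 0 < η) :
    ∃ c0 > 0, c0 ≤ c ∧ ∀ c', 0 < c' → c' ≤ c0 →
      en {z | 0 < z.re ∧ z.re < T - σ ∧ 0 < z.im ∧ z.im < 2 * Real.pi}
        (fun z => fderiv ℝ (fun z => Φ (PsiG Φ τ xs T σ c' B0 Sh hh Ai z)) z 1)
        (fun z => fderiv ℝ (fun z => Φ (PsiG Φ τ xs T σ c' B0 Sh hh Ai z)) z I) ≤
      (1 + ENNReal.ofReal ε) * elam T B0 0 + ENNReal.ofReal η := by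
  obtain ⟨⟨r, hr, hratio⟩, Wm, hWm⟩ := F.ratio (ε / 10) (by positivity)
  have hT := F.Tpos
  have hσ0 := F.lay.σ0
  have hσT := F.lay.σT
  have hW0 : 0 < gD Φ τ xs 0 1 := F.tgt.Wpos 0
  have hWm0 : 0 < Wm := hW0.trans_le (hWm 0)
  have hpi := Real.pi_pos
  obtain ⟨q, hq⟩ : ∃ q : ℝ, q = 1 + ε / 10 := ⟨_, rfl⟩
  have hq0 : 0 < q := by rw [hq]; positivity
  rw [← hq] at hratio
  set K0 : ℝ := q ^ 2 * (1 + 10 / ε) * (Wm / T) ^ 2 * (T * (2 * Real.pi)) with hK0
  have hK0' : 0 ≤ K0 := by positivity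
  have hc := F.c0
  refine ⟨min (min c r) (min 1 (η / (K0 + 1))), by positivity,
    (min_le_left _ _).trans (min_le_left _ _), ?_⟩
  intro c' h0 hc'
  have hc'c : c' ≤ c := hc'.trans ((min_le_left _ _).trans (min_le_left _ _))
  have hc'r : c' ≤ r := hc'.trans ((min_le_left _ _).trans (min_le_right _ _))
  have hc'1 : c' ≤ 1 := hc'.trans ((min_le_right _ _).trans (min_le_left _ _))
  have hc'η : c' ≤ η / (K0 + 1) := hc'.trans ((min_le_right _ _).trans (min_le_right _ _))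
  have F' := F.mono h0 hc'c
  obtain ⟨hh0, -, -, -, -⟩ := F.hh_facts
  obtain ⟨-, LX, -, -, -⟩ := F.XZ_facts
  obtain ⟨-, LZ, Z01, -, -, Zf⟩ := F'.ZZ_facts
  set Lz : ℂ → ℝ := LamZ T σ B0 (fun θ => gA Φ τ xs (Sh θ)) with hLz
  set b' : ℝ := q ^ 2 * (1 + 10 / ε) * (Wm * (c' / T)) ^ 2 with hb'
  have hb'0 : 0 ≤ b' := by positivity
  -- pointwise bound
  have key : ∀ᵐ z, z ∈ {z : ℂ | 0 < z.re ∧ z.re < T - σ ∧ 0 < z.im ∧ z.im < 2 * Real.pi} →
      ‖fderiv ℝ (fun z => Φ (PsiG Φ τ xs T σ c' B0 Sh hh Ai z)) z 1‖ₑ ^ 2 +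
      ‖fderiv ℝ (fun z => Φ (PsiG Φ τ xs T σ c' B0 Sh hh Ai z)) z I‖ₑ ^ 2 ≤
      ENNReal.ofReal (1 + ε) * (‖fderiv ℝ Lz z 1‖ₑ ^ 2 + ‖fderiv ℝ Lz z I‖ₑ ^ 2) +
        ENNReal.ofReal b' := by
    filter_upwards [LL_ae_diff LX, LL_ae_diff LZ] with z h1 h2 hz
    obtain ⟨z0, z1, z2, z3⟩ := hz
    have hzs : z ∈ strip T := ⟨z0, by linarith⟩
    have hdX := h1 hzs
    have hdZ := h2 hzs
    have hhz : hh z.im < T - z.re := by
      have := (hh0 z.im).2
      linarith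
    obtain ⟨dL, hXe⟩ := F.XZ_der hzs hdX
    obtain ⟨hZ1, hZI⟩ := (F'.ZZ_der hzs hdZ).1 hhz
    obtain ⟨hZv, hZl⟩ := Zf z hzs hhz.le
    have hZ0 := (Z01 z hzs).1
    have hZ1' := (Z01 z hzs).2.le
    set x := XZ Φ τ xs T σ B0 Sh Ai z with hx
    set zt := ZZ T c' hh z with hzt
    have hn1 : 0 < ‖(1 + deriv τ (xs x) * I : ℂ)‖ := by
      have : (1 + deriv τ (xs x) * I : ℂ) ≠ 0 := by
        intro h
        have := congrArg Complex.re h
        simp at this
      exact norm_pos_iff.2 this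
    have hD0 : 0 ≤ gD Φ τ xs x zt := mul_nonneg (norm_nonneg _) (F.dep.pos _).le
    have hD : gD Φ τ xs x zt ≤ q * gD Φ τ xs x 1 := by
      refine hratio x zt ?_ hZ1'
      linarith
    have hWx : 0 < gD Φ τ xs x 1 := F.tgt.Wpos x
    have hAx := hA x
    obtain ⟨c1, -⟩ := F'.chain_le hdX hdZ hZ0 hZ1' 1
    obtain ⟨c2, -⟩ := F'.chain_le hdX hdZ hZ0 hZ1' I
    have hcT : 0 ≤ c' / T := by positivity
    have e1 := g22b_lin (q := q) (Wm := Wm) (b := c' / T) (l := fderiv ℝ Lz z 1) hD0 hD hWx (hWm x)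
      hn1 (by rw [hXe 1, hAx]) (by rw [hZ1, abs_neg, abs_of_nonneg hcT]) hq0.le hcT c1
    have e2 := g22b_lin (q := q) (Wm := Wm) (b := 0) (l := fderiv ℝ Lz z I) hD0 hD hWx (hWm x)
      hn1 (by rw [hXe I, hAx]) (by rw [hZI, abs_zero]) hq0.le le_rfl c2
    rw [mul_zero] at e2
    have e3 := g22b_sq hε hε1 hq (norm_nonneg _) (norm_nonneg _) (by positivity) e1 e2
    have e4 := g22b_enn (norm_nonneg _) (norm_nonneg _) (by positivity) hb'0 e3
    rw [ofReal_norm_eq_enorm, ofReal_norm_eq_enorm] at e4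
    exact e4
  have hmeas : Measurable (fun z : ℂ => ENNReal.ofReal (1 + ε) * (‖fderiv ℝ Lz z 1‖ₑ ^ 2 +
      ‖fderiv ℝ Lz z I‖ₑ ^ 2) + ENNReal.ofReal b') := by
    have m1 := (measurable_fderiv_apply_const ℝ Lz 1).enorm
    have m2 := (measurable_fderiv_apply_const ℝ Lz I).enorm
    exact ((m1.pow_const 2).add (m2.pow_const 2)).const_mul _ |>.add_const _
  have hms : MeasurableSet {z : ℂ | 0 < z.re ∧ z.re < T - σ ∧ 0 < z.im ∧ z.im < 2 * Real.pi} := by
    apply IsOpen.measurableSet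
    exact ((isOpen_lt continuous_const Complex.continuous_re).inter
      ((isOpen_lt Complex.continuous_re continuous_const).inter
      ((isOpen_lt continuous_const Complex.continuous_im).inter
      (isOpen_lt Complex.continuous_im continuous_const))))
  unfold en
  calc ∫⁻ z in {z : ℂ | 0 < z.re ∧ z.re < T - σ ∧ 0 < z.im ∧ z.im < 2 * Real.pi},
      (‖fderiv ℝ (fun z => Φ (PsiG Φ τ xs T σ c' B0 Sh hh Ai z)) z 1‖ₑ ^ 2 +
      ‖fderiv ℝ (fun z => Φ (PsiG Φ τ xs T σ c' B0 Sh hh Ai z)) z I‖ₑ ^ 2)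
      ≤ ∫⁻ z in {z : ℂ | 0 < z.re ∧ z.re < T - σ ∧ 0 < z.im ∧ z.im < 2 * Real.pi},
        (ENNReal.ofReal (1 + ε) * (‖fderiv ℝ Lz z 1‖ₑ ^ 2 + ‖fderiv ℝ Lz z I‖ₑ ^ 2) +
        ENNReal.ofReal b') := by
        refine lintegral_mono_ae ?_
        rw [ae_restrict_iff' hms]
        exact key
    _ = ∫⁻ t in Ioo 0 (T - σ), ∫⁻ θ in Ioo 0 (2 * Real.pi),
        (ENNReal.ofReal (1 + ε) * (‖fderiv ℝ Lz (t + θ * I) 1‖ₑ ^ 2 +
          ‖fderiv ℝ Lz (t + θ * I) I‖ₑ ^ 2) + ENNReal.ofReal b') := lintegral_rect hmeas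
    _ = ∫⁻ t in Ioo 0 (T - σ), (ENNReal.ofReal (1 + ε) * (∫⁻ θ in Ioo 0 (2 * Real.pi),
        (‖deriv (fun t => lam T B0 t θ) t‖ₑ ^ 2 + ‖deriv (fun θ => lam T B0 t θ) θ‖ₑ ^ 2)) +
        ENNReal.ofReal b' * ENNReal.ofReal (2 * Real.pi)) := by
        refine setLIntegral_congr_fun measurableSet_Ioo ?_
        intro t ht
        dsimp only
        rw [lintegral_add_right _ measurable_const, lintegral_const_mul' _ _ ENNReal.ofReal_ne_top,
          setLIntegral_const, Real.volume_Ioo, sub_zero]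
        congr 2
        refine setLIntegral_congr_fun measurableSet_Ioo ?_
        intro θ hθ
        have hre : ((t : ℂ) + θ * I).re = t := by simp
        have him : ((t : ℂ) + θ * I).im = θ := by simp
        obtain ⟨-, d1, d2⟩ := Lam_der1 (z := (t : ℂ) + θ * I) (Bh := fun θ => gA Φ τ xs (Sh θ))
          F.Tpos F.qp F.lay (by rw [hre]; exact ht.1) (by rw [hre]; exact ht.2)
        rw [hre, him] at d1 d2
        dsimp only
        rw [hLz, d1, d2]
    _ = ENNReal.ofReal (1 + ε) * (∫⁻ t in Ioo 0 (T - σ), ∫⁻ θ in Ioo 0 (2 * Real.pi),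
        (‖deriv (fun t => lam T B0 t θ) t‖ₑ ^ 2 + ‖deriv (fun θ => lam T B0 t θ) θ‖ₑ ^ 2)) +
        ENNReal.ofReal b' * ENNReal.ofReal (2 * Real.pi) * ENNReal.ofReal (T - σ) := by
        rw [lintegral_add_right _ measurable_const, lintegral_const_mul' _ _ ENNReal.ofReal_ne_top,
          setLIntegral_const, Real.volume_Ioo, sub_zero]
    _ ≤ (1 + ENNReal.ofReal ε) * elam T B0 0 + ENNReal.ofReal η := by
        refine add_le_add ?_ ?_
        · rw [ENNReal.ofReal_add zero_le_one hε.le, ENNReal.ofReal_one]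
          refine mul_le_mul_right ?_ _
          exact lintegral_mono_set (Ioo_subset_Ioo_right (by linarith))
        · rw [← ENNReal.ofReal_mul hb'0, ← ENNReal.ofReal_mul (by positivity)]
          refine ENNReal.ofReal_le_ofReal ?_
          have e1 : b' * (2 * Real.pi) * (T - σ) ≤ b' * (2 * Real.pi) * T := by
            gcongr; linarith
          have e2 : b' * (2 * Real.pi) * T = K0 * c' ^ 2 := by
            rw [hb', hK0]; ring
          have e3 : c' ^ 2 ≤ c' := by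
            rw [pow_two]
            exact mul_le_of_le_one_left (by linarith) (by linarith)
          have e4 : K0 * c' ^ 2 ≤ K0 * (η / (K0 + 1)) := by
            gcongr
            exact e3.trans hc'η
          have e5 : K0 * (η / (K0 + 1)) ≤ η := by
            rw [mul_div_assoc', div_le_iff₀ (by positivity)]
            have e6 : η * (K0 + 1) = K0 * η + η := by ring
            rw [e6]
            linarith
          linarith

end

end CF6

end

section

/-! # G25b: behaviour at both ends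

`level_bij` with `X t θ := XZ (t + θ I)` (i.e. `Ai (Lam ..)`, strictly increasing in `θ` by `Lam_props` and monotonicity of `Ai`; constant in `t ≥ T - σ/2`), composed with `cu_homeo`.
`end0`: at `re = 0`: `PsiG (θ I) = cu (Ai (B0 θ)) 1`. If `B0 θ = arcA Φ τ (α0 θ)` then `gA (xs⁻¹(α0 θ)) = B0 θ`, so `xs (Ai (B0 θ)) = α0 θ`.
`endT`: `im PsiG = τ Z ≤ Z ≤ (T - re)(1/m + 1/T)`, `m` the lower bound of `hh` (`τ ≤ 1/10`). -/

open Complex MeasureTheory Set Filter Topology Metric intervalIntegral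
open scoped ENNReal

namespace CF6

section
variable {Φ : ℂ → ℂ} {τ xs : ℝ → ℝ} {S L C T σ c : ℝ} {B0 S0 Sh hh Ai : ℝ → ℝ}

theorem FD.end0 (F : FD Φ τ xs S L C T σ c B0 S0 Sh hh Ai) {α0 : ℝ → ℝ}
    (h : ∀ θ, B0 θ = arcA Φ τ (α0 θ)) (θ : ℝ) :
    PsiG Φ τ xs T σ c B0 Sh hh Ai (θ * I) = α0 θ + τ (α0 θ) * I := by
  obtain ⟨s, hs⟩ := F.par.surj (α0 θ)
  have hre : ((θ : ℂ) * I).re = 0 := by simp
  have him : ((θ : ℂ) * I).im = θ := by simp
  have hX : XZ Φ τ xs T σ B0 Sh Ai (θ * I) = s := by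
    have h1 : gA Φ τ xs s = B0 θ := by
      rw [h θ, ← hs]
      rfl
    rw [XZ, hre, him, Lam, if_pos rfl, ← h1]
    exact F.Ai_facts.1 s
  have hZ : ZZ T c hh (θ * I) = 1 := F.ZZ_facts.2.2.2.1 _ hre
  rw [PsiG, hX, hZ, cu, hs]
  simp

theorem FD.endT (F : FD Φ τ xs S L C T σ c B0 S0 Sh hh Ai) :
    ∀ η > (0 : ℝ), ∃ d > (0 : ℝ), ∀ z : ℂ, T - d < z.re → z.re < T →
      (PsiG Φ τ xs T σ c B0 Sh hh Ai z).im < η := by
  intro η hη
  obtain ⟨hpos, -, -, -, m, hm, hmle⟩ := F.hh_facts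
  have hT := F.Tpos
  have hk : 0 < 1 / m + 1 / T := by positivity
  refine ⟨η / (1 / m + 1 / T), by positivity, fun z hz1 hz2 => ?_⟩
  have hd : (T - z.re) * (1 / m + 1 / T) < η := by
    have : T - z.re < η / (1 / m + 1 / T) := by linarith
    rwa [lt_div_iff₀ hk] at this
  have ht0 : 0 < T - z.re := by linarith
  have hh0 := (hpos z.im).1
  have hc0 := F.c0
  have hc1 := F.c1
  have hZ0 : 0 ≤ ZZ T c hh z := by
    rw [ZZ, Zf]
    have h1 : 0 ≤ min 1 ((T - z.re) / hh z.im) := le_min zero_le_one (by positivity)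
    have h2 : 0 ≤ c * (T - z.re) / T := by positivity
    have h3 : 0 ≤ 1 - c := by linarith
    have := mul_nonneg h3 h1
    linarith
  have hZ1 : ZZ T c hh z ≤ (T - z.re) * (1 / m + 1 / T) := by
    rw [ZZ, Zf]
    have h0 : 0 ≤ min 1 ((T - z.re) / hh z.im) := le_min zero_le_one (by positivity)
    have h1 : min 1 ((T - z.re) / hh z.im) ≤ (T - z.re) * (1 / m) := by
      refine (min_le_right _ _).trans ?_
      rw [mul_one_div]
      exact div_le_div_of_nonneg_left ht0.le hm (hmle _)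
    have h2 : c * (T - z.re) / T ≤ (T - z.re) * (1 / T) := by
      rw [mul_one_div]
      apply div_le_div_of_nonneg_right _ hT.le
      nlinarith
    have h3 : (1 - c) * min 1 ((T - z.re) / hh z.im) ≤ min 1 ((T - z.re) / hh z.im) := by
      nlinarith
    rw [mul_add]
    linarith
  have him : (PsiG Φ τ xs T σ c B0 Sh hh Ai z).im =
      τ (xs (XZ Φ τ xs T σ B0 Sh Ai z)) * ZZ T c hh z := by
    rw [PsiG, cu]
    simp
  rw [him]
  have ht1 := F.dep.pos (xs (XZ Φ τ xs T σ B0 Sh Ai z))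
  have ht2 := F.dep.le (xs (XZ Φ τ xs T σ B0 Sh Ai z))
  have h4 : τ (xs (XZ Φ τ xs T σ B0 Sh Ai z)) * ZZ T c hh z ≤ 1 * ZZ T c hh z :=
    mul_le_mul_of_nonneg_right (by linarith) hZ0
  linarith

end

end CF6

end

section

/-! # G25c: ACL property

`f z = Φ (PsiG z)` is locally Lipschitz on the strip (`FD.PsiG_LL`), so by `acl2_of_locallyLipschitz` (K/L1.lean) on the open set `strip T ∩ {|im| < R}` it is enough that the energy on this set is finite. `f (z + 2πI) = f z` on the strip (`FD.PsiG_LL`, third item, and `hper`;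
`PsiG z ∈ UHP` because `τ > 0`, `ZZ > 0`), so `fderiv ℝ f (z + 2πI) = fderiv ℝ f z` for `z` in the strip, and the energy over each translate `per1 (strip T) + 2πI n` is the same (translation invariance of the measure). `strip T ∩ {|im| < R}` is covered by finitely many
translates (`-N ≤ n ≤ N`, `2π N ≥ R`) and finitely many horizontal lines `im = 2π n` (null sets). -/

open Complex MeasureTheory Set Filter Topology Metric intervalIntegral
open scoped ENNReal

namespace CF6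

section
variable {Φ : ℂ → ℂ} {τ xs : ℝ → ℝ} {S L C T σ c : ℝ} {B0 S0 Sh hh Ai : ℝ → ℝ}

/-- the real line is a null set -/
theorem g25c_null : volume {z : ℂ | z.im = 0} = 0 := by
  have h1 : {z : ℂ | z.im = 0} = Complex.measurableEquivRealProd ⁻¹' (univ ×ˢ {(0 : ℝ)}) := by
    ext z
    simp [Complex.measurableEquivRealProd]
  rw [h1, Complex.volume_preserving_equiv_real_prod.measure_preimage
    ((MeasurableSet.univ.prod (measurableSet_singleton 0)).nullMeasurableSet)]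
  rw [Measure.volume_eq_prod, Measure.prod_prod]
  simp

/-- period strips -/
def g25cA (T : ℝ) (n : ℤ) : Set ℂ :=
  strip T ∩ {z | 2 * Real.pi * n ≤ z.im ∧ z.im < 2 * Real.pi * (n + 1)}

theorem g25c_shift {T : ℝ} {D : ℂ → ℝ≥0∞}
    (hD : ∀ z ∈ strip T, D (z + 2 * Real.pi * I) = D z) (n : ℤ) :
    ∀ z ∈ strip T, D (z + n * (2 * Real.pi * I)) = D z := by
  have hmem : ∀ (z : ℂ) (m : ℤ), z ∈ strip T → z + m * (2 * Real.pi * I) ∈ strip T := by
    intro z m hz
    have : (z + m * (2 * Real.pi * I)).re = z.re := by simp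
    unfold strip at hz ⊢
    simp only [mem_setOf_eq] at hz ⊢
    rw [this]
    exact hz
  induction n using Int.induction_on with
  | zero => intro z _; simp
  | succ i ih =>
    intro z hz
    have h1 := hD _ (hmem z i hz)
    rw [ih z hz] at h1
    rw [← h1]
    congr 1
    push_cast
    ring
  | pred i ih =>
    intro z hz
    have h1 := hD _ (hmem z (-(i : ℤ) - 1) hz)
    rw [← h1, ← ih z hz]
    congr 1
    push_cast
    ring

theorem g25c_piece {T : ℝ} {D : ℂ → ℝ≥0∞}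
    (hD : ∀ z ∈ strip T, D (z + 2 * Real.pi * I) = D z) (n : ℤ) :
    ∫⁻ z in g25cA T n, D z = ∫⁻ z in g25cA T 0, D z := by
  have hst : IsOpen (strip T) := by
    unfold strip
    exact (isOpen_lt continuous_const continuous_re).inter (isOpen_lt continuous_re continuous_const)
  have hm : ∀ m : ℤ, MeasurableSet (g25cA T m) := by
    intro m
    unfold g25cA
    apply hst.measurableSet.inter
    exact (measurableSet_le measurable_const measurable_im).inter
      (measurableSet_lt measurable_im measurable_const)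
  rw [← lintegral_indicator (hm n), ← lintegral_indicator (hm 0),
    ← lintegral_add_right_eq_self _ ((n : ℂ) * (2 * Real.pi * I))]
  congr 1
  ext z
  have hre : (z + n * (2 * Real.pi * I)).re = z.re := by simp
  have him : (z + n * (2 * Real.pi * I)).im = z.im + 2 * Real.pi * n := by
    simp
    ring
  have hiff : z + n * (2 * Real.pi * I) ∈ g25cA T n ↔ z ∈ g25cA T 0 := by
    unfold g25cA strip
    simp only [mem_inter_iff, mem_setOf_eq, hre, him]
    push_cast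
    constructor
    · rintro ⟨h1, h2, h3⟩
      exact ⟨h1, by linarith, by linarith⟩
    · rintro ⟨h1, h2, h3⟩
      exact ⟨h1, by linarith, by linarith⟩
  by_cases hz : z ∈ g25cA T 0
  · rw [indicator_of_mem (hiff.2 hz), indicator_of_mem hz, g25c_shift hD n z hz.1]
  · rw [indicator_of_notMem (fun h => hz (hiff.1 h)), indicator_of_notMem hz]

theorem g25c_fin {T : ℝ} {D : ℂ → ℝ≥0∞}
    (hD : ∀ z ∈ strip T, D (z + 2 * Real.pi * I) = D z)
    (hf : ∫⁻ z in per1 (strip T), D z < ⊤) (R : ℝ) :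
    ∫⁻ z in strip T ∩ {z | |z.im| < R}, D z < ⊤ := by
  have h0 : ∫⁻ z in g25cA T 0, D z < ⊤ := by
    have hsub : g25cA T 0 ⊆ per1 (strip T) ∪ {z : ℂ | z.im = 0} := by
      rintro z ⟨h1, h2, h3⟩
      push_cast at h2 h3
      rcases eq_or_lt_of_le h2 with h4 | h4
      · right
        show z.im = 0
        linarith
      · left
        exact ⟨h1, by linarith, by linarith⟩
    have h1 : ∫⁻ z in {z : ℂ | z.im = 0}, D z = 0 := setLIntegral_measure_zero _ _ g25c_null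
    calc ∫⁻ z in g25cA T 0, D z ≤ ∫⁻ z in per1 (strip T) ∪ {z : ℂ | z.im = 0}, D z :=
          lintegral_mono_set hsub
      _ ≤ (∫⁻ z in per1 (strip T), D z) + ∫⁻ z in {z : ℂ | z.im = 0}, D z :=
          lintegral_union_le _ _ _
      _ = ∫⁻ z in per1 (strip T), D z := by rw [h1, add_zero]
      _ < ⊤ := hf
  have hA : ∀ n : ℤ, ∫⁻ z in g25cA T n, D z < ⊤ := fun n => by
    rw [g25c_piece hD n]
    exact h0
  have key : ∀ N : ℕ, ∫⁻ z in strip T ∩ {z | -(2 * Real.pi * N) ≤ z.im ∧ z.im < 2 * Real.pi * N},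
      D z < ⊤ := by
    intro N
    induction N with
    | zero =>
      have : strip T ∩ {z : ℂ | -(2 * Real.pi * ((0 : ℕ) : ℝ)) ≤ z.im ∧
          z.im < 2 * Real.pi * ((0 : ℕ) : ℝ)} = ∅ := by
        ext z
        simp only [Nat.cast_zero, mul_zero, neg_zero, mem_inter_iff, mem_setOf_eq,
          mem_empty_iff_false, iff_false, not_and, not_lt]
        intro _ h
        exact h
      rw [this]
      simp
    | succ N ih =>
      have hsub : strip T ∩ {z : ℂ | -(2 * Real.pi * ((N + 1 : ℕ) : ℝ)) ≤ z.im ∧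
          z.im < 2 * Real.pi * ((N + 1 : ℕ) : ℝ)} ⊆
          (strip T ∩ {z | -(2 * Real.pi * N) ≤ z.im ∧ z.im < 2 * Real.pi * N}) ∪
          (g25cA T N ∪ g25cA T (-(N + 1 : ℕ))) := by
        rintro z ⟨h1, h2, h3⟩
        push_cast at h2 h3
        by_cases h4 : z.im < 2 * Real.pi * N
        · by_cases h5 : -(2 * Real.pi * N) ≤ z.im
          · left
            exact ⟨h1, h5, h4⟩
          · right
            right
            push Not at h5
            refine ⟨h1, ?_, ?_⟩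
            · push_cast
              linarith
            · push_cast
              linarith
        · right
          left
          push Not at h4
          refine ⟨h1, ?_, ?_⟩
          · push_cast
            exact h4
          · push_cast
            exact h3
      refine lt_of_le_of_lt (lintegral_mono_set hsub) ?_
      refine lt_of_le_of_lt (lintegral_union_le _ _ _) ?_
      refine ENNReal.add_lt_top.2 ⟨ih, ?_⟩
      refine lt_of_le_of_lt (lintegral_union_le _ _ _) ?_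
      exact ENNReal.add_lt_top.2 ⟨hA _, hA _⟩
  obtain ⟨N, hN⟩ := exists_nat_ge (R / (2 * Real.pi))
  refine lt_of_le_of_lt (lintegral_mono_set ?_) (key N)
  rintro z ⟨h1, h2⟩
  rw [div_le_iff₀ (by positivity)] at hN
  have h3 := abs_lt.1 (show |z.im| < R from h2)
  exact ⟨h1, by linarith [h3.1], by linarith [h3.2]⟩

/-- `ACL2` on bounded pieces of the strip from the energy over one period -/
theorem FD.en_top (F : FD Φ τ xs S L C T σ c B0 S0 Sh hh Ai)
    (hper : ∀ u ∈ UHP, Φ (u + 2 * Real.pi) = Φ u)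
    (hf : en (per1 (strip T))
      (fun z => fderiv ℝ (fun z => Φ (PsiG Φ τ xs T σ c B0 Sh hh Ai z)) z 1)
      (fun z => fderiv ℝ (fun z => Φ (PsiG Φ τ xs T σ c B0 Sh hh Ai z)) z I) < ⊤) (R : ℝ) :
    ACL2 (strip T ∩ {z | |z.im| < R})
      (fun z => Φ (PsiG Φ τ xs T σ c B0 Sh hh Ai z))
      (fun z => fderiv ℝ (fun z => Φ (PsiG Φ τ xs T σ c B0 Sh hh Ai z)) z 1)
      (fun z => fderiv ℝ (fun z => Φ (PsiG Φ τ xs T σ c B0 Sh hh Ai z)) z I) := by
  obtain ⟨-, hLL, hP⟩ := F.PsiG_LL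
  have hst : IsOpen (strip T) := by
    unfold strip
    exact (isOpen_lt continuous_const continuous_re).inter (isOpen_lt continuous_re continuous_const)
  have hU : IsOpen (strip T ∩ {z : ℂ | |z.im| < R}) :=
    hst.inter (isOpen_lt (continuous_abs.comp continuous_im) continuous_const)
  refine acl2_of_locallyLipschitz hU (fun z hz => hLL z hz.1) ?_
  set f : ℂ → ℂ := fun z => Φ (PsiG Φ τ xs T σ c B0 Sh hh Ai z) with hfdef
  have hmemU : ∀ z ∈ strip T, PsiG Φ τ xs T σ c B0 Sh hh Ai z ∈ UHP := by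
    intro z hz
    have h1 := (F.ZZ_facts.2.2.1 z hz).1
    have h2 := F.dep.pos (xs (XZ Φ τ xs T σ B0 Sh Ai z))
    have h3 : (PsiG Φ τ xs T σ c B0 Sh hh Ai z).im =
        τ (xs (XZ Φ τ xs T σ B0 Sh Ai z)) * ZZ T c hh z := by
      unfold PsiG cu
      simp [mul_assoc]
    show 0 < (PsiG Φ τ xs T σ c B0 Sh hh Ai z).im
    rw [h3]
    positivity
  have hfper : ∀ z ∈ strip T, f (z + 2 * Real.pi * I) = f z := by
    intro z hz
    rw [hfdef]
    simp only
    rw [hP z hz.1.le hz.2]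
    exact hper _ (hmemU z hz)
  have hfd : ∀ z ∈ strip T, fderiv ℝ f (z + 2 * Real.pi * I) = fderiv ℝ f z := by
    intro z hz
    rw [← fderiv_comp_add_right]
    apply Filter.EventuallyEq.fderiv_eq
    filter_upwards [hst.mem_nhds hz] with w hw
    exact hfper w hw
  exact g25c_fin (D := fun z => ‖fderiv ℝ f z 1‖ₑ ^ 2 + ‖fderiv ℝ f z I‖ₑ ^ 2)
    (fun z hz => by simp only [hfd z hz]) hf R

end

end CF6

end
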