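import Pool.Agent.Lib.MP_cf6b16_an.F2
import Pool.Agent.Lib.MP_cf6b16_an.G1
import Pool.Agent.Lib.MP_cf6b16_an.G2
import Pool.Agent.Lib.MP_cf6b16_an.G3
import Pool.Agent.Lib.MP_cf6b16_an.F3

section

/-! # G08: the target data

Collect G03, G04, G07. -/

open Complex MeasureTheory Set Filter Topology Metric intervalIntegral
open scoped ENNReal

namespace CF6

theorem exists_tgt (C0 : ℝ) (hC : 1 ≤ C0) : ∃ C : ℝ, 1 ≤ C ∧ ∀ (y1 : ℝ) (K : Set ℂ) (Φ ρ : ℂ → ℂ),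
    0 < y1 → Collar K Φ ρ → Koebe C0 y1 K Φ → ∀ (τ xs : ℝ → ℝ) (S : ℝ),
    Depth (1 / 10) (y1 / 10) τ → Par τ xs S →
    Tgt C S (gA Φ τ xs S) (fun s => gD Φ τ xs s 1) (gA Φ τ xs) (gM Φ τ xs) ∧
    (∀ s ζ : ℝ, 1 - 1 / C ≤ ζ → ζ ≤ 1 → gD Φ τ xs s ζ ≤ C * gD Φ τ xs s 1) ∧
    (∀ s, gD Φ τ xs s 1 ≤ C * infDist (Φ (cu τ xs s 1)) K ∧
      infDist (Φ (cu τ xs s 1)) K ≤ C * gD Φ τ xs s 1) ∧
    (∀ s s', |infDist (Φ (cu τ xs s 1)) K - infDist (Φ (cu τ xs s' 1)) K| ≤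
      |gA Φ τ xs s - gA Φ τ xs s'|) := by
  obtain ⟨Cg, hCg, good⟩ := gD_good C0 hC
  obtain ⟨C, hCdef⟩ : ∃ C : ℝ, C = max Cg (max (32 * C0 ^ 5) (max (20 * C0 ^ 3)
    (max (8 * C0) (2 * C0 ^ 2)))) := ⟨_, rfl⟩
  have c1 : Cg ≤ C := by rw [hCdef]; exact le_max_left _ _
  have c2 : 32 * C0 ^ 5 ≤ C := by
    rw [hCdef]; exact (le_max_left _ _).trans (le_max_right _ _)
  have c3 : 20 * C0 ^ 3 ≤ C := by
    rw [hCdef]; exact (le_max_left _ _).trans ((le_max_right _ _).trans (le_max_right _ _))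
  have c4 : 8 * C0 ≤ C := by
    rw [hCdef]
    exact (le_max_left _ _).trans ((le_max_right _ _).trans ((le_max_right _ _).trans
      (le_max_right _ _)))
  have c5 : 2 * C0 ^ 2 ≤ C := by
    rw [hCdef]
    exact (le_max_right _ _).trans ((le_max_right _ _).trans ((le_max_right _ _).trans
      (le_max_right _ _)))
  have hC0 : 0 < C0 := by linarith
  have hC1 : 1 ≤ C := hCg.trans c1
  have c6 : C0 ≤ C := by linarith
  refine ⟨C, hC1, ?_⟩
  intro y1 K Φ ρ hy hK hk τ xs S hτ hp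
  obtain ⟨gA1, gA2, gA3, gA4, gA5⟩ := gA_facts hK hk hτ hp
  obtain ⟨m1, m2⟩ := gM_meas hK hτ hp
  refine ⟨?_, ?_, ?_, ?_⟩
  · refine ⟨hC1, hp.Sge, gA5, fun s => (gD_W hC hK hk hτ hp s).1,
      fun s => (gD_W hC hK hk hτ hp s).2.1, ?_, ?_, gA1, fun s => (gA3 s).1, fun s => (gA3 s).2,
      gA4, m1, m2, ?_, ?_⟩
    · intro s
      obtain ⟨w1, -, w3⟩ := gD_W hC hK hk hτ hp s
      exact w3.trans (mul_le_mul_of_nonneg_right c3 w1.le)
    · intro s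
      exact gD_per hK hτ hp s one_pos
    · intro s
      refine (gM_ge hC hK hk hτ hp s).trans ?_
      gcongr
    · intro s δ h1 h2
      refine (good y1 K Φ ρ hK hk τ xs S hτ hp s δ h1 h2).trans ?_
      refine measure_mono ?_
      intro x hx
      refine ⟨hx.1, hx.2.trans ?_⟩
      refine ENNReal.ofReal_le_ofReal ?_
      gcongr
  · intro s ζ h1 h2
    have h3 : 1 - 1 / (8 * C0) ≤ ζ := by
      have : 1 / C ≤ 1 / (8 * C0) := by
        apply one_div_le_one_div_of_le (by positivity) c4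
      linarith
    refine (gD_near hC hK hk hτ hp s h3 h2).1.trans ?_
    have w1 := (gD_W hC hK hk hτ hp s).1
    gcongr
  · intro s
    obtain ⟨w1, w2⟩ := gD_w hk hτ hy s
    constructor
    · refine w1.trans ?_
      exact mul_le_mul_of_nonneg_right c6 infDist_nonneg
    · refine w2.trans ?_
      exact mul_le_mul_of_nonneg_right c6 (gD_W hC hK hk hτ hp s).1.le
  · intro s s'
    have h1 : |infDist (Φ (cu τ xs s 1)) K - infDist (Φ (cu τ xs s' 1)) K| ≤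
        ‖Φ (cu τ xs s 1) - Φ (cu τ xs s' 1)‖ := by
      have h2 := (Metric.lipschitz_infDist_pt K).dist_le_mul (Φ (cu τ xs s 1)) (Φ (cu τ xs s' 1))
      rw [NNReal.coe_one, one_mul, Real.dist_eq, dist_eq_norm] at h2
      exact h2
    exact h1.trans (cu_dist hK hk hτ hp s s')

end CF6

end

section

/-! # G09: the layer function

`B := lam T B0 (T - σ)`, `t := T - σ ∈ [T/2, T)`. `pos`: `lam_strictMono`; `harn`: `lam_harnack`; `d2`: `lam_deriv2`; `per`: `lam_per`; `B1`: `lam T B0 t θ = im (LcF (θ - t I))` with `LcF` holomorphic (`LcF_diff`), so `B` is real differentiable with continuous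
derivative (`DifferentiableOn.analyticAt`/`contDiffOn`; or: `B` is differentiable by `lam_hasDerivAt_theta`, its derivative is differentiable by `lam_deriv2`, hence continuous: `contDiff_one_iff_deriv`). -/

open Complex MeasureTheory Set Filter Topology Metric intervalIntegral
open scoped ENNReal

namespace CF6

theorem lay_lam {T L σ : ℝ} {B0 : ℝ → ℝ} (hT : 0 < T) (hL : 0 < L) (hB : QP L B0) (h0 : 0 < σ)
    (h1 : σ ≤ T / 2) : Lay T σ L (lam T B0 (T - σ)) := by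
  have ht0 : T / 2 ≤ T - σ := by linarith
  have ht1 : T - σ ≤ T := by linarith
  have ht2 : 0 < T - σ := by linarith
  have ht3 : T - σ < 2 * T := by linarith
  refine ⟨h0, h1, hL, ?_, fun θ => lam_per hT hB ht2 ht3 θ, (lam_strictMono hT hL hB ht2 ht3).2,
    fun θ θ' h => lam_harnack hT hB ht0 ht1 θ θ' h, fun θ => lam_deriv2 hT hB ht0 ht1 θ⟩
  rw [contDiff_one_iff_deriv]
  refine ⟨fun θ => (lam_hasDerivAt_theta hT hB ht2 ht3 θ).differentiableAt, ?_⟩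
  exact (show Differentiable ℝ (deriv (lam T B0 (T - σ))) from
    fun θ => (lam_deriv2 hT hB ht0 ht1 θ).1).continuous

end CF6

end

section

/-! # G25a: PsiG is a homeomorphism of the strip onto the collar

`level_bij` with `X t θ := XZ (t + θ I)` (i.e. `Ai (Lam ..)`, strictly increasing in `θ` by `Lam_props` and monotonicity of `Ai`; constant in `t ≥ T - σ/2`), composed with `cu_homeo`.
`end0`: at `re = 0`: `PsiG (θ I) = cu (Ai (B0 θ)) 1`. If `B0 θ = arcA Φ τ (α0 θ)` then `gA (xs⁻¹(α0 θ)) = B0 θ`, so `xs (Ai (B0 θ)) = α0 θ`.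
`endT`: `im PsiG = τ Z ≤ Z ≤ (T - re)(1/m + 1/T)`, `m` the lower bound of `hh` (`τ ≤ 1/10`). -/

open Complex MeasureTheory Set Filter Topology Metric intervalIntegral
open scoped ENNReal

namespace CF6

section
variable {Φ : ℂ → ℂ} {τ xs : ℝ → ℝ} {S L C T σ c : ℝ} {B0 S0 Sh hh Ai : ℝ → ℝ}

theorem FD.homeo (F : FD Φ τ xs S L C T σ c B0 S0 Sh hh Ai) :
    ContinuousOn (PsiG Φ τ xs T σ c B0 Sh hh Ai) {z | 0 ≤ z.re ∧ z.re < T} ∧
    MapsTo (PsiG Φ τ xs T σ c B0 Sh hh Ai) (strip T) (below τ) ∧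
    ∃ Q : ℂ → ℂ, ContinuousOn Q (below τ) ∧ MapsTo Q (below τ) (strip T) ∧
      InvOn Q (PsiG Φ τ xs T σ c B0 Sh hh Ai) (strip T) (below τ) := by
  have hT := F.Tpos
  have hσ := F.lay.σ0
  have hσT := F.lay.σT
  obtain ⟨-, hAi, -, -, -⟩ := F.Ai_facts
  obtain ⟨hBm, hBc, hBp, -, -, -⟩ := F.Bh_facts
  obtain ⟨hXc, -, hXp, -, hXe⟩ := F.XZ_facts
  obtain ⟨hh1, -, hh3, -, hh5⟩ := F.hh_facts
  obtain ⟨hZc, -, hZ1, hZ0, -, -⟩ := F.ZZ_facts
  obtain ⟨-, hLm, -, -⟩ := Lam_props hT F.qp F.lay hBc hBm hBp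
  obtain ⟨hcu, hcum, V, hVc, hVm, hV⟩ := cu_homeo F.dep F.par
  have hstrip : strip T ⊆ {z : ℂ | 0 ≤ z.re ∧ z.re < T} := fun z hz => ⟨hz.1.le, hz.2⟩
  have hlev := level_bij (T := T) (σ := σ) (c := c) (S := S) (hh := hh)
    (X := fun t θ => XZ Φ τ xs T σ B0 Sh Ai ⟨t, θ⟩) hT hσ (by linarith) F.c0
    (by linarith [F.c1]) (by linarith [F.par.Sge]) hh1 hh3 hh5 (hXc.mono hstrip)
    (fun t h0 h1 => hAi.comp (hLm t h0 h1))
    (fun t h0 h1 θ => by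
      have e := hXp ⟨t, θ⟩ h0.le h1
      rw [← e]
      congr 1
      apply Complex.ext <;> simp)
    (fun t h0 h1 => by
      funext θ
      rw [hXe ⟨t, θ⟩ h0, hXe ⟨T - σ / 2, θ⟩ le_rfl])
  obtain ⟨hPm, Q, hQc, hQm, hQ⟩ := hlev
  have hfac : PsiG Φ τ xs T σ c B0 Sh hh Ai = (fun w : ℂ => cu τ xs w.re w.im) ∘
      (fun z : ℂ => (XZ Φ τ xs T σ B0 Sh Ai ⟨z.re, z.im⟩ : ℂ) + Zf T c hh z.re z.im * I) := by
    funext z
    simp only [Function.comp, PsiG]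
    congr 1 <;> simp [ZZ]
  refine ⟨?_, ?_, Q ∘ V, hQc.comp hVc hVm, hQm.comp hVm, ?_⟩
  · rw [hfac]
    refine hcu.comp_continuousOn ?_
    exact (Complex.continuous_ofReal.comp_continuousOn hXc).add
      ((Complex.continuous_ofReal.comp_continuousOn hZc).mul continuousOn_const)
  · rw [hfac]
    exact hcum.comp hPm
  · rw [hfac]
    exact hQ.comp hV hPm hVm

end

end CF6

end

section

/-! # G26a: all data of the fill

Replace `C0` by `max C0 1` (`Koebe` is monotone in the constant, since `‖deriv Φ u‖ * u.im ≥ 0`, `infDist ≥ 0`). `exists_par` (`y1/10 ≤ 1/10`), `exists_tgt` (constant `C1`), `L := gA S`, `B0 := arcA ∘ α0`: `QP L B0` (continuous, monotone: `arcA` has nonnegative derivative;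
`arcA (x + 2π) = arcA x + arcA (2π)`, `arcA (2π) = gA S` because `xs S = 2π`; or use `gA (s+S) = gA s + gA S` and `arcA x = gA (xs⁻¹ x)`). `lay_lam`. `Ai_facts` gives `Ai`; `S0 := Ai ∘ lam T B0 (T-σ)`. `exists_rep` for `C1`: constant `C2`. `layer_width` with
`s00 := Ai ∘ B0` (continuous), `w s := infDist (Φ (cu τ xs s 1)) K` (`exists_tgt`, last two items; `lam_sub_le`): `cu τ xs (s00 θ) 1 = α0 θ + τ(α0 θ) I` since `gA (s00 θ) = arcA (α0 θ)` and `arcA` is injective. `lintegral_gM` for the integral of `gM`.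
All constants `≤ C := ` a maximum; `Tgt` and `Rep` are monotone in `C` (lemmas `Tgt.mono_C`, `Rep.mono_C`). `c := min (1/2) (1/C)`. `der0`: `koebe_ne`; `pder`: `phi_deriv_per`. -/

open Complex MeasureTheory Set Filter Topology Metric intervalIntegral
open scoped ENNReal

namespace CF6

theorem Tgt.mono_C {C C' S L : ℝ} {W A : ℝ → ℝ} {M : ℝ → ℝ≥0∞} (h : Tgt C S L W A M) (hC : C ≤ C') :
    Tgt C' S L W A M where
  C1 := h.C1.trans hC
  S1 := h.S1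
  L0 := h.L0
  Wpos := h.Wpos
  Wdiff := h.Wdiff
  Wder := fun s => (h.Wder s).trans (mul_le_mul_of_nonneg_right hC (h.Wpos s).le)
  Wper := h.Wper
  A1 := h.A1
  Alo := h.Alo
  Ahi := h.Ahi
  Aper := h.Aper
  Mmeas := h.Mmeas
  Mper := h.Mper
  Mge := fun s => (h.Mge s).trans (mul_le_mul_left (ENNReal.ofReal_le_ofReal hC) _)
  good := fun s δ h1 h2 => (h.good s δ h1 h2).trans (measure_mono (fun x hx =>
    ⟨hx.1, hx.2.trans (ENNReal.ofReal_le_ofReal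
      (mul_le_mul_of_nonneg_right hC (sq_nonneg _)))⟩))

theorem g26a_rep_mono {C C' S L T σ : ℝ} {W : ℝ → ℝ} {M : ℝ → ℝ≥0∞} {B S0 Sh : ℝ → ℝ}
    (h : Rep C S T σ W M B S0 Sh) (hC : C ≤ C') (hW : ∀ s, 0 < W s)
    (hB : Lay T σ L B) : Rep C' S T σ W M B S0 Sh where
  mono := h.mono
  lip := h.lip
  per := h.per
  near := h.near
  loc := fun θ => by
    filter_upwards [h.loc θ] with θ' hθ'
    have h1 : 0 ≤ deriv B θ / W (S0 θ) + 1 / σ :=
      add_nonneg (div_nonneg (hB.pos θ).le (hW _).le) (one_div_nonneg.mpr hB.σ0.le)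
    exact hθ'.trans (mul_le_mul_of_nonneg_right (mul_le_mul_of_nonneg_right hC h1) (abs_nonneg _))
  cost := h.cost.trans (mul_le_mul_left (ENNReal.ofReal_le_ofReal hC) _)

theorem Rep.mono_C {C C' S L T σ : ℝ} {W A : ℝ → ℝ} {M : ℝ → ℝ≥0∞} {B S0 Sh : ℝ → ℝ}
    (h : Rep C S T σ W M B S0 Sh) (hC : C ≤ C') (hC0 : 0 ≤ C) (ht : Tgt C S L W A M)
    (hB : Lay T σ L B) : Rep C' S T σ W M B S0 Sh :=
  g26a_rep_mono h hC ht.Wpos hB

theorem g26a_koebe {C0 y1 : ℝ} {K : Set ℂ} {Φ : ℂ → ℂ} (h : Koebe C0 y1 K Φ) :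
    Koebe (max C0 1) y1 K Φ := by
  intro u h0 h1
  obtain ⟨h2, h3⟩ := h u h0 h1
  exact ⟨h2.trans (mul_le_mul_of_nonneg_right (le_max_left _ _) infDist_nonneg),
    h3.trans (mul_le_mul_of_nonneg_right (le_max_left _ _) (mul_nonneg (norm_nonneg _) h0.le))⟩

theorem g26a_qp {C S L : ℝ} {Φ : ℂ → ℂ} {τ xs : ℝ → ℝ} (hp : Par τ xs S)
    (ht : Tgt C S L (fun s => gD Φ τ xs s 1) (gA Φ τ xs) (gM Φ τ xs))
    {α0 : ℝ → ℝ} (hc : Continuous α0) (hm : Monotone α0)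
    (hper : ∀ θ, α0 (θ + 2 * Real.pi) = α0 θ + 2 * Real.pi) :
    QP L (fun θ => arcA Φ τ (α0 θ)) := by
  let e : ℝ ≃o ℝ := StrictMono.orderIsoOfSurjective xs hp.mono hp.surj
  have he : ∀ x, xs (e.symm x) = x := fun x => e.apply_symm_apply x
  have hA : ∀ x, arcA Φ τ x = gA Φ τ xs (e.symm x) := by
    intro x
    unfold gA
    rw [he]
  have hmonoA : Monotone (gA Φ τ xs) := by
    apply monotone_of_deriv_nonneg (ht.A1.differentiable one_ne_zero)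
    intro s
    exact (ht.Wpos s).le.trans (ht.Alo s)
  refine ⟨?_, ?_, ?_⟩
  · have : (fun θ => arcA Φ τ (α0 θ)) = fun θ => gA Φ τ xs (e.symm (α0 θ)) := by
      funext θ; rw [hA]
    rw [this]
    exact ht.A1.continuous.comp (e.symm.continuous.comp hc)
  · intro θ θ' h
    show arcA Φ τ (α0 θ) ≤ arcA Φ τ (α0 θ')
    rw [hA, hA]
    exact hmonoA (e.symm.monotone (hm h))
  · intro θ
    show arcA Φ τ (α0 (θ + 2 * Real.pi)) = arcA Φ τ (α0 θ) + L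
    rw [hper]
    obtain ⟨s, hs⟩ := hp.surj (α0 θ)
    rw [← hs, ← hp.per s]
    exact ht.Aper s

theorem exists_FD (C0 : ℝ) : ∃ C : ℝ, 1 ≤ C ∧ ∀ (K : Set ℂ) (Φ ρ : ℂ → ℂ), Collar K Φ ρ →
    ∀ y1 > 0, y1 ≤ 1 → Koebe C0 y1 K Φ → ∀ τ : ℝ → ℝ, Depth (1 / 10) (y1 / 10) τ →
    ∀ T : ℝ, 0 < T → ∀ α0 : ℝ → ℝ, Continuous α0 → Monotone α0 →
    (∀ θ, α0 (θ + 2 * Real.pi) = α0 θ + 2 * Real.pi) →
    ∀ X : ℝ≥0∞, (∫⁻ θ in Ioo 0 (2 * Real.pi),
      ENNReal.ofReal (infDist (Φ (α0 θ + τ (α0 θ) * I)) K) ^ 2) ≤ ENNReal.ofReal T * X →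
    ∀ σ : ℝ, 0 < σ → σ ≤ T / 2 →
    ∃ (xs : ℝ → ℝ) (S L c : ℝ) (S0 Sh hh Ai : ℝ → ℝ),
      FD Φ τ xs S L C T σ c (fun θ => arcA Φ τ (α0 θ)) S0 Sh hh Ai ∧
      (∀ s, deriv (gA Φ τ xs) s = gD Φ τ xs s 1 * ‖(1 + deriv τ (xs s) * I : ℂ)‖) ∧
      (∫⁻ s in Ioo (S0 0) (S0 0 + S), gM Φ τ xs s) ≤ volume (Φ '' below τ) ∧
      (∫⁻ θ in Ioo 0 (2 * Real.pi), ENNReal.ofReal (gD Φ τ xs (S0 θ) 1) ^ 2) ≤
        ENNReal.ofReal (C * T) * (X + volume (Φ '' below τ)) := by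
  obtain ⟨C1, hC1, hspec1⟩ := exists_tgt (max C0 1) (le_max_right _ _)
  obtain ⟨C2, hC2, hspec2⟩ := exists_rep C1
  obtain ⟨C3, hC3, hspec3⟩ := layer_width C1
  have hCC1 : C1 ≤ max C1 (max C2 C3) := le_max_left _ _
  have hCC2 : C2 ≤ max C1 (max C2 C3) := (le_max_left _ _).trans (le_max_right _ _)
  have hCC3 : C3 ≤ max C1 (max C2 C3) := (le_max_right _ _).trans (le_max_right _ _)
  refine ⟨max C1 (max C2 C3), hC1.trans hCC1, ?_⟩
  intro K Φ ρ hK y1 hy1 hy1' hk τ hτ T hT α0 hα1 hα2 hα3 X hX σ hσ hσT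
  have hk' := g26a_koebe hk
  obtain ⟨xs, S, hp⟩ := exists_par (r := y1 / 10) (by linarith) hτ
  obtain ⟨ht, hnear, hw, hlip⟩ := hspec1 y1 K Φ ρ hy1 hK hk' τ xs S hτ hp
  have hqp := g26a_qp hp ht hα1 hα2 hα3
  have hlay := lay_lam hT ht.L0 hqp hσ hσT
  obtain ⟨Ai, hAi1, hAi2, hAi3, -, hAi5⟩ := Ai_facts ht
  set B0 : ℝ → ℝ := fun θ => arcA Φ τ (α0 θ) with hB0
  set B : ℝ → ℝ := lam T B0 (T - σ) with hB
  let S0 : ℝ → ℝ := fun θ => Ai (B θ)
  have hS0 : ∀ θ, gA Φ τ xs (S0 θ) = B θ := fun θ => hAi1 _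
  obtain ⟨Sh, hrep⟩ := hspec2 S (gA Φ τ xs S) T σ (fun s => gD Φ τ xs s 1) (gA Φ τ xs) B S0
    (gM Φ τ xs) ht hlay hS0
  have hC0 : 0 < max C1 (max C2 C3) := by linarith
  have hτpos := hτ.pos
  refine ⟨xs, S, gA Φ τ xs S, min (1 / 2) (1 / max C1 (max C2 C3)), S0, Sh,
    fun θ => 1 / (deriv B θ / gD Φ τ xs (S0 θ) 1 + 2 / σ), Ai, ?_, ?_, ?_, ?_⟩
  · refine ⟨hT, ⟨hτ.smooth, hτ.per, hτ.pos, fun x => (hτ.le x).trans (by linarith), hτ.slope⟩,
      hp, hK.dPhi, ?_, fun u hu => phi_deriv_per hK hu, ht.mono_C hCC1, hqp, hlay, hS0,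
      g26a_rep_mono hrep hCC2 ht.Wpos hlay, fun θ => rfl, hAi1, ?_, min_le_left _ _, ?_⟩
    · intro s ζ h0 h1
      have him := (cu_im τ xs s ζ).1
      apply koebe_ne hK hk'
      · rw [him]
        exact mul_pos (hτ.pos _) h0
      · rw [him]
        have h2 : τ (xs s) * ζ ≤ τ (xs s) * 1 := mul_le_mul_of_nonneg_left h1 (hτ.pos _).le
        have h3 := hτ.le (xs s)
        linarith
    · exact lt_min (by norm_num) (by positivity)
    · intro s ζ h0 h1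
      have h2 : min (1 / 2) (1 / max C1 (max C2 C3)) ≤ 1 / C1 :=
        (min_le_right _ _).trans (one_div_le_one_div_of_le (by linarith) hCC1)
      exact (hnear s ζ (by linarith) h1).trans
        (mul_le_mul_of_nonneg_right hCC1 (ht.Wpos s).le)
  · exact (gA_facts hK hk' hτ hp).2.1
  · exact lintegral_gM hK hτ hp (S0 0)
  · have hs00 : ∀ θ, xs (Ai (B0 θ)) = α0 θ := by
      intro θ
      obtain ⟨s, hs⟩ := hp.surj (α0 θ)
      have h1 : gA Φ τ xs s = B0 θ := by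
        show arcA Φ τ (xs s) = arcA Φ τ (α0 θ)
        rw [hs]
      rw [← h1, hAi2, hs]
    have hAic : Continuous Ai := continuous_iff_continuousAt.mpr (fun a => (hAi5 a).continuousAt)
    have h3 := hspec3 S (gA Φ τ xs S) T σ (fun s => gD Φ τ xs s 1) (gA Φ τ xs) B B0 S0
      (fun θ => Ai (B0 θ)) (fun s => infDist (Φ (cu τ xs s 1)) K) (gM Φ τ xs) hT ht hlay hS0
      (fun θ => hAi1 _) (fun s => infDist_nonneg) hw hlip
      (fun θ => lam_sub_le hT hqp (by linarith) (by linarith) θ)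
      (hAic.comp hqp.cont).measurable X (by
        refine le_trans (le_of_eq ?_) hX
        congr 1
        funext θ
        have : cu τ xs (Ai (B0 θ)) 1 = (α0 θ : ℂ) + τ (α0 θ) * I := by
          unfold cu
          rw [hs00]
          push_cast
          ring
        rw [this])
    refine h3.trans ?_
    have h4 : ENNReal.ofReal (C3 * T) ≤ ENNReal.ofReal (max C1 (max C2 C3) * T) :=
      ENNReal.ofReal_le_ofReal (mul_le_mul_of_nonneg_right hCC3 hT.le)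
    exact mul_le_mul' h4 (add_le_add le_rfl (lintegral_gM hK hτ hp (S0 0)))

end CF6

end

section

/-! # G26b: assembly of `exists_fill`

`σ := ε T ≤ T/2`. `exists_FD` gives the data with a constant `C`. `η > 0` with `ofReal η ≤ volume (Φ '' below τ)` (positive: it is the image of a nonempty open set, or `≥ ∫⁻ gM > 0` by `Mge`). `energy1` with `ε, η` gives `c0`; take `c' := c0`, `FD.mono`; `Ψ := PsiG` with `c'`.
Homeomorphism: `FD.homeo` (), `end0`, `endT`, `PsiG_LL` (periodicity), ACL: `en_top` (energy finite by the bound below).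
Energy: the period strip is, up to the null line `re = T-σ`, the union of the three regions of `energy1`, `energy2`, `energy3`. `∫⁻ v² ≤ ofReal (1/(T-σ)) elam` (`energy_density_le` at `t = T-σ`, drop the `t` derivative; `‖x‖ₑ = ofReal |x|`), `σ/(T-σ) ≤ 2ε`;
`(1/σ) ∫⁻ W(S0)² ≤ (C/ε)(X + vol)`; `Rep.cost`. Sum: `(1 + ε + 2 C' ε) elam + C''/ε (X + vol)`. -/

open Complex MeasureTheory Set Filter Topology Metric intervalIntegral
open scoped ENNReal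

namespace CF6

theorem g26b_line_null (a : ℝ) : volume {z : ℂ | z.re = a} = 0 := by
  have h := Complex.volume_preserving_equiv_real_prod.measure_preimage
    (s := ({a} : Set ℝ) ×ˢ (univ : Set ℝ))
    ((measurableSet_singleton a).prod MeasurableSet.univ).nullMeasurableSet
  have h2 : Complex.measurableEquivRealProd ⁻¹' (({a} : Set ℝ) ×ˢ (univ : Set ℝ)) =
      {z : ℂ | z.re = a} := by
    ext z
    simp [Complex.measurableEquivRealProd]
  rw [h2] at h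
  rw [h, Measure.volume_eq_prod, Measure.prod_prod]
  simp

theorem g26b_split {T σ : ℝ} (hh : ℝ → ℝ) (fx fy : ℂ → ℂ) :
    en {z | 0 < z.re ∧ z.re < T ∧ 0 < z.im ∧ z.im < 2 * Real.pi} fx fy ≤
      en {z | 0 < z.re ∧ z.re < T - σ ∧ 0 < z.im ∧ z.im < 2 * Real.pi} fx fy +
      en {z | T - σ < z.re ∧ z.re < T ∧ hh z.im < T - z.re ∧ 0 < z.im ∧ z.im < 2 * Real.pi} fx fy +
      en {z | T - σ < z.re ∧ z.re < T ∧ T - z.re ≤ hh z.im ∧ 0 < z.im ∧ z.im < 2 * Real.pi}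
        fx fy := by
  have hsub : {z : ℂ | 0 < z.re ∧ z.re < T ∧ 0 < z.im ∧ z.im < 2 * Real.pi} ⊆
      (({z : ℂ | 0 < z.re ∧ z.re < T - σ ∧ 0 < z.im ∧ z.im < 2 * Real.pi} ∪
      {z : ℂ | T - σ < z.re ∧ z.re < T ∧ hh z.im < T - z.re ∧ 0 < z.im ∧ z.im < 2 * Real.pi}) ∪
      {z : ℂ | T - σ < z.re ∧ z.re < T ∧ T - z.re ≤ hh z.im ∧ 0 < z.im ∧ z.im < 2 * Real.pi}) ∪
      {z : ℂ | z.re = T - σ} := by
    rintro z ⟨h1, h2, h3, h4⟩
    rcases lt_trichotomy z.re (T - σ) with h | h | h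
    · exact Or.inl (Or.inl (Or.inl ⟨h1, h, h3, h4⟩))
    · exact Or.inr h
    · rcases lt_or_ge (hh z.im) (T - z.re) with h5 | h5
      · exact Or.inl (Or.inl (Or.inr ⟨h, h2, h5, h3, h4⟩))
      · exact Or.inl (Or.inr ⟨h, h2, h5, h3, h4⟩)
  unfold en
  refine (lintegral_mono_set hsub).trans ?_
  refine (lintegral_union_le _ _ _).trans ?_
  rw [setLIntegral_measure_zero _ _ (g26b_line_null (T - σ)), add_zero]
  refine (lintegral_union_le _ _ _).trans ?_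
  exact add_le_add (lintegral_union_le _ _ _) le_rfl

theorem g26b_arith {E Y V : ℝ≥0∞} {C C2 C3 M ε η : ℝ} (hC : 1 ≤ C) (hCM : C ≤ M) (hC2 : 1 ≤ C2)
    (hC3 : 1 ≤ C3) (hε : 0 < ε) (hε2 : ε < 1 / 2) (hη : ENNReal.ofReal η ≤ V) (hVY : V ≤ Y) :
    ((1 + ENNReal.ofReal ε) * E + ENNReal.ofReal η) +
      ENNReal.ofReal C2 * (ENNReal.ofReal (2 * ε) * E + ENNReal.ofReal (C / ε) * Y) +
      ENNReal.ofReal C3 * (ENNReal.ofReal C * (V + ENNReal.ofReal (C / ε) * Y)) ≤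
    (1 + ENNReal.ofReal ((2 + 2 * C2 + C2 * M + C3 * M + C3 * M ^ 2) * ε)) * E +
      ENNReal.ofReal ((2 + 2 * C2 + C2 * M + C3 * M + C3 * M ^ 2) / ε) * Y := by
  have hM : 1 ≤ M := hC.trans hCM
  have hηY : ENNReal.ofReal η ≤ Y := hη.trans hVY
  have hE : (1 + ENNReal.ofReal ε) + ENNReal.ofReal C2 * ENNReal.ofReal (2 * ε) ≤
      1 + ENNReal.ofReal ((2 + 2 * C2 + C2 * M + C3 * M + C3 * M ^ 2) * ε) := by
    rw [← ENNReal.ofReal_mul (by linarith), add_assoc, ← ENNReal.ofReal_add hε.le (by positivity)]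
    refine add_le_add le_rfl (ENNReal.ofReal_le_ofReal ?_)
    have h1 : 0 ≤ (1 + C2 * M + C3 * M + C3 * M ^ 2) * ε := by positivity
    nlinarith
  have hY : 1 + ENNReal.ofReal C2 * ENNReal.ofReal (C / ε) + ENNReal.ofReal C3 * ENNReal.ofReal C +
      ENNReal.ofReal C3 * (ENNReal.ofReal C * ENNReal.ofReal (C / ε)) ≤
      ENNReal.ofReal ((2 + 2 * C2 + C2 * M + C3 * M + C3 * M ^ 2) / ε) := by
    rw [← ENNReal.ofReal_mul (by linarith), ← ENNReal.ofReal_mul (by linarith),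
      ← ENNReal.ofReal_mul (by linarith), ← ENNReal.ofReal_mul (by linarith),
      ← ENNReal.ofReal_one, ← ENNReal.ofReal_add (by norm_num) (by positivity),
      ← ENNReal.ofReal_add (by positivity) (by positivity),
      ← ENNReal.ofReal_add (by positivity) (by positivity)]
    apply ENNReal.ofReal_le_ofReal
    rw [le_div_iff₀ hε]
    have e1 : (1 + C2 * (C / ε) + C3 * C + C3 * (C * (C / ε))) * ε =
        ε + C2 * C + C3 * C * ε + C3 * (C * C) := by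
      field_simp
    rw [e1]
    have h1 : C2 * C ≤ C2 * M := mul_le_mul_of_nonneg_left hCM (by linarith)
    have h2 : C3 * C * ε ≤ C3 * M := by
      have h3 : C3 * C ≤ C3 * M := mul_le_mul_of_nonneg_left hCM (by linarith)
      have h4 : 0 ≤ C3 * C := by positivity
      nlinarith
    have h3 : C3 * (C * C) ≤ C3 * M ^ 2 := by
      apply mul_le_mul_of_nonneg_left _ (by linarith)
      nlinarith
    linarith
  calc ((1 + ENNReal.ofReal ε) * E + ENNReal.ofReal η) +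
      ENNReal.ofReal C2 * (ENNReal.ofReal (2 * ε) * E + ENNReal.ofReal (C / ε) * Y) +
      ENNReal.ofReal C3 * (ENNReal.ofReal C * (V + ENNReal.ofReal (C / ε) * Y))
      ≤ ((1 + ENNReal.ofReal ε) * E + Y) +
      ENNReal.ofReal C2 * (ENNReal.ofReal (2 * ε) * E + ENNReal.ofReal (C / ε) * Y) +
      ENNReal.ofReal C3 * (ENNReal.ofReal C * (Y + ENNReal.ofReal (C / ε) * Y)) := by
        gcongr
    _ = ((1 + ENNReal.ofReal ε) + ENNReal.ofReal C2 * ENNReal.ofReal (2 * ε)) * E +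
        (1 + ENNReal.ofReal C2 * ENNReal.ofReal (C / ε) + ENNReal.ofReal C3 * ENNReal.ofReal C +
      ENNReal.ofReal C3 * (ENNReal.ofReal C * ENNReal.ofReal (C / ε))) * Y := by ring
    _ ≤ _ := add_le_add (mul_le_mul_left hE E) (mul_le_mul_left hY Y)

/-- sum of the three energies -/
theorem energy_sum (C : ℝ) : ∃ C' : ℝ, 1 ≤ C' ∧ ∀ (Φ : ℂ → ℂ) (τ xs : ℝ → ℝ) (S L T ε c : ℝ)
    (B0 S0 Sh hh Ai : ℝ → ℝ) (X V : ℝ≥0∞), 0 < ε → ε < 1 / 2 →
    FD Φ τ xs S L C T (ε * T) c B0 S0 Sh hh Ai →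
    (∀ s, deriv (gA Φ τ xs) s = gD Φ τ xs s 1 * ‖(1 + deriv τ (xs s) * I : ℂ)‖) →
    (∫⁻ s in Ioo (S0 0) (S0 0 + S), gM Φ τ xs s) ≤ V → 0 < V →
    (∫⁻ θ in Ioo 0 (2 * Real.pi), ENNReal.ofReal (gD Φ τ xs (S0 θ) 1) ^ 2) ≤
      ENNReal.ofReal (C * T) * (X + V) →
    ∃ c' > 0, c' ≤ c ∧
      en {z | 0 < z.re ∧ z.re < T ∧ 0 < z.im ∧ z.im < 2 * Real.pi}
        (fun z => fderiv ℝ (fun z => Φ (PsiG Φ τ xs T (ε * T) c' B0 Sh hh Ai z)) z 1)
        (fun z => fderiv ℝ (fun z => Φ (PsiG Φ τ xs T (ε * T) c' B0 Sh hh Ai z)) z I) ≤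
      (1 + ENNReal.ofReal (C' * ε)) * elam T B0 0 + ENNReal.ofReal (C' / ε) * (X + V) := by
  obtain ⟨C2, hC2, h2⟩ := energy2 C
  obtain ⟨C3, hC3, h3⟩ := energy3 C
  refine ⟨2 + 2 * C2 + C2 * max C 1 + C3 * max C 1 + C3 * (max C 1) ^ 2, ?_, ?_⟩
  · have : 0 ≤ max C 1 := zero_le_one.trans (le_max_right _ _)
    have : 0 ≤ C2 * max C 1 := by positivity
    have : 0 ≤ C3 * max C 1 := by positivity
    have : 0 ≤ C3 * (max C 1) ^ 2 := by positivity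
    linarith
  intro Φ τ xs S L T ε c B0 S0 Sh hh Ai X V hε hε2 F hA hM hV hW
  have hC : 1 ≤ C := F.tgt.C1
  have hT : 0 < T := F.Tpos
  have hσ : 0 < ε * T := mul_pos hε hT
  have hTσ : 0 < T - ε * T := by nlinarith
  obtain ⟨η, hη0, hηV⟩ : ∃ η : ℝ, 0 < η ∧ ENNReal.ofReal η ≤ V := by
    have h1 : min V 1 ≠ ⊤ := (lt_of_le_of_lt (min_le_right _ _) ENNReal.one_lt_top).ne
    refine ⟨(min V 1).toReal, ENNReal.toReal_pos (lt_min hV one_pos).ne' h1, ?_⟩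
    rw [ENNReal.ofReal_toReal h1]
    exact min_le_left _ _
  obtain ⟨c0, hc0, hc0c, h1⟩ := F.energy1 hA ε η hε (by linarith) hη0
  refine ⟨c0, hc0, hc0c, ?_⟩
  have F' := F.mono hc0 hc0c
  have e1 := h1 c0 hc0 le_rfl
  have e2 := h2 Φ τ xs S L T (ε * T) c0 B0 S0 Sh hh Ai F'
  have e3 := h3 Φ τ xs S L T (ε * T) c0 B0 S0 Sh hh Ai F'
  have hv2 : (∫⁻ θ in Ioo 0 (2 * Real.pi), ENNReal.ofReal (deriv (lam T B0 (T - ε * T)) θ) ^ 2) ≤
      ENNReal.ofReal (1 / (T - ε * T)) * elam T B0 0 := by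
    refine le_trans ?_ (energy_density_le hT F.qp hTσ (by linarith))
    refine lintegral_mono (fun θ => ?_)
    refine le_trans ?_ le_add_self
    exact pow_le_pow_left' (Real.ofReal_le_enorm _) 2
  have hv3 : ENNReal.ofReal (ε * T) *
      (∫⁻ θ in Ioo 0 (2 * Real.pi), ENNReal.ofReal (deriv (lam T B0 (T - ε * T)) θ) ^ 2) ≤
      ENNReal.ofReal (2 * ε) * elam T B0 0 := by
    calc ENNReal.ofReal (ε * T) *
        (∫⁻ θ in Ioo 0 (2 * Real.pi), ENNReal.ofReal (deriv (lam T B0 (T - ε * T)) θ) ^ 2)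
        ≤ ENNReal.ofReal (ε * T) * (ENNReal.ofReal (1 / (T - ε * T)) * elam T B0 0) := by gcongr
      _ = ENNReal.ofReal (ε * T * (1 / (T - ε * T))) * elam T B0 0 := by
          rw [← mul_assoc, ← ENNReal.ofReal_mul hσ.le]
      _ ≤ ENNReal.ofReal (2 * ε) * elam T B0 0 := by
          refine mul_le_mul_left (ENNReal.ofReal_le_ofReal ?_) _
          rw [mul_one_div, div_le_iff₀ hTσ]
          nlinarith [mul_pos hε hσ]
  have hw2 : ENNReal.ofReal (1 / (ε * T)) *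
      (∫⁻ θ in Ioo 0 (2 * Real.pi), ENNReal.ofReal (gD Φ τ xs (S0 θ) 1) ^ 2) ≤
      ENNReal.ofReal (C / ε) * (X + V) := by
    calc ENNReal.ofReal (1 / (ε * T)) *
        (∫⁻ θ in Ioo 0 (2 * Real.pi), ENNReal.ofReal (gD Φ τ xs (S0 θ) 1) ^ 2)
        ≤ ENNReal.ofReal (1 / (ε * T)) * (ENNReal.ofReal (C * T) * (X + V)) := by gcongr
      _ = ENNReal.ofReal (1 / (ε * T) * (C * T)) * (X + V) := by
          rw [← mul_assoc, ← ENNReal.ofReal_mul (by positivity)]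
      _ = ENNReal.ofReal (C / ε) * (X + V) := by
          congr 2
          field_simp
  have hcost : (∫⁻ θ in Ioo 0 (2 * Real.pi), gM Φ τ xs (Sh θ) *
        ENNReal.ofReal (deriv (lam T B0 (T - ε * T)) θ / gD Φ τ xs (S0 θ) 1 + 1 / (ε * T))) ≤
      ENNReal.ofReal C * (V + ENNReal.ofReal (C / ε) * (X + V)) := by
    refine F.rep.cost.trans ?_
    gcongr
  refine (g26b_split (σ := ε * T) hh _ _).trans ?_
  refine le_trans ?_ (g26b_arith (M := max C 1) hC (le_max_left _ _) hC2 hC3 hε hε2 hηV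
    (le_add_self : V ≤ X + V))
  refine add_le_add (add_le_add e1 (e2.trans ?_)) (e3.trans ?_)
  · gcongr
  · gcongr

/-- G: homeomorphism of the half open strip onto the collar below the curve `τ`. -/
theorem exists_fill (C0 : ℝ) : ∃ C : ℝ, 1 ≤ C ∧ ∀ (K : Set ℂ) (Φ ρ : ℂ → ℂ), Collar K Φ ρ →
    ∀ y1 > 0, y1 ≤ 1 → Koebe C0 y1 K Φ → ∀ τ : ℝ → ℝ, Depth (1 / 10) (y1 / 10) τ →
    ∀ (T : ℝ), 0 < T → ∀ α0 : ℝ → ℝ, Continuous α0 → Monotone α0 →
    (∀ θ, α0 (θ + 2 * Real.pi) = α0 θ + 2 * Real.pi) → elam T (fun θ => arcA Φ τ (α0 θ)) 0 < ⊤ →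
    volume (collar Φ τ) < ⊤ →
    ∀ X : ℝ≥0∞, X < ⊤ →
    (∫⁻ θ in Ioo 0 (2 * Real.pi), ENNReal.ofReal (infDist (Φ (α0 θ + τ (α0 θ) * I)) K) ^ 2) ≤
      ENNReal.ofReal T * X → ∀ ε : ℝ, 0 < ε → ε < 1 / 2 →
    ∃ Ψ Ψ' fx fy : ℂ → ℂ,
      ContinuousOn Ψ {z | 0 ≤ z.re ∧ z.re < T} ∧
      (∀ θ : ℝ, Ψ (θ * I) = α0 θ + τ (α0 θ) * I) ∧
      (∀ z : ℂ, 0 ≤ z.re → z.re < T → Ψ (z + 2 * Real.pi * I) = Ψ z + 2 * Real.pi) ∧
      MapsTo Ψ (strip T) (below τ) ∧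
      MapsTo Ψ' (below τ) (strip T) ∧
      InvOn Ψ' Ψ (strip T) (below τ) ∧
      ContinuousOn Ψ' (below τ) ∧
      (∀ η > (0 : ℝ), ∃ d > (0 : ℝ), ∀ z : ℂ, T - d < z.re → z.re < T → (Ψ z).im < η) ∧
      (∀ R : ℝ, ACL2 (strip T ∩ {z | |z.im| < R}) (fun z => Φ (Ψ z)) fx fy) ∧
      en (per1 (strip T)) fx fy ≤
        (1 + ENNReal.ofReal (C * ε)) * elam T (fun θ => arcA Φ τ (α0 θ)) 0 +
          ENNReal.ofReal (C / ε) * (X + volume (collar Φ τ)) := by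
  obtain ⟨C, hC, hFD⟩ := exists_FD C0
  obtain ⟨C', hC', hsum⟩ := energy_sum C
  refine ⟨C', hC', ?_⟩
  intro K Φ ρ hcol y1 hy0 hy1 hkoe τ hdep T hT α0 hα0 hα1 hα2 hel hvol X hX hint ε hε hε2
  obtain ⟨xs, S, L, c, S0, Sh, hh, Ai, F, hA, hgM, hW⟩ := hFD K Φ ρ hcol y1 hy0 hy1 hkoe τ hdep T
    hT α0 hα0 hα1 hα2 X hint (ε * T) (mul_pos hε hT) (by nlinarith)
  have hMpos : ∀ s, gM Φ τ xs s ≠ 0 := by
    intro s h0
    have h1 := F.tgt.Mge s
    rw [h0, mul_zero] at h1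
    have h2 := F.tgt.Wpos s
    have h3 : 0 < ENNReal.ofReal (gD Φ τ xs s 1) ^ 2 :=
      ENNReal.pow_pos (ENNReal.ofReal_pos.2 h2) 2
    exact absurd h1 (not_le.2 h3)
  have hVpos : 0 < volume (Φ '' below τ) := by
    refine lt_of_lt_of_le ?_ hgM
    rw [setLIntegral_pos_iff F.tgt.Mmeas]
    have h1 : Function.support (gM Φ τ xs) = univ := by
      rw [Set.eq_univ_iff_forall]
      intro s
      exact hMpos s
    rw [h1, univ_inter, Real.volume_Ioo]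
    apply ENNReal.ofReal_pos.2
    have := F.tgt.S1
    linarith
  obtain ⟨c', hc'0, hc'c, hen⟩ := hsum Φ τ xs S L T ε c (fun θ => arcA Φ τ (α0 θ)) S0 Sh hh Ai X
    (volume (Φ '' below τ)) hε hε2 F hA hgM hVpos hW
  have F' := F.mono hc'0 hc'c
  obtain ⟨hcont, hmaps, Q, hQc, hQm, hQinv⟩ := F'.homeo
  have hper : ∀ u ∈ UHP, Φ (u + 2 * Real.pi) = Φ u := fun u hu => phi_per hcol hu
  have hset : {z : ℂ | 0 < z.re ∧ z.re < T ∧ 0 < z.im ∧ z.im < 2 * Real.pi} = per1 (strip T) := by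
    ext z
    simp only [per1, strip, mem_ofPred_eq, mem_inter_iff, and_assoc]
  rw [hset] at hen
  have hlt : en (per1 (strip T))
        (fun z => fderiv ℝ (fun z => Φ (PsiG Φ τ xs T (ε * T) c' (fun θ => arcA Φ τ (α0 θ))
          Sh hh Ai z)) z 1)
        (fun z => fderiv ℝ (fun z => Φ (PsiG Φ τ xs T (ε * T) c' (fun θ => arcA Φ τ (α0 θ))
          Sh hh Ai z)) z I) < ⊤ := by
    refine lt_of_le_of_lt hen ?_
    refine ENNReal.add_lt_top.2 ⟨ENNReal.mul_lt_top ?_ hel, ENNReal.mul_lt_top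
      ENNReal.ofReal_lt_top (ENNReal.add_lt_top.2 ⟨hX, hvol⟩)⟩
    exact ENNReal.add_lt_top.2 ⟨ENNReal.one_lt_top, ENNReal.ofReal_lt_top⟩
  exact ⟨PsiG Φ τ xs T (ε * T) c' (fun θ => arcA Φ τ (α0 θ)) Sh hh Ai, Q, _, _, hcont,
    fun θ => F'.end0 (α0 := α0) (fun _ => rfl) θ, fun z h0 h1 => F'.PsiG_LL.2.2 z h0 h1, hmaps, hQm,
    hQinv, hQc, F'.endT, fun R => F'.en_top hper hlt R, hen⟩

end CF6

end
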