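import Pool.Agent.Lib.MP_cf6b16_an.DefsB

section

/-! # Module N, row CB: collars stay bounded, tend to `K`, have small area

* `Collar.bounded`: if `Kᶜ` is bounded: clear (`Collar.mem`). If `K` is bounded: `K ⊆ ball 0 R0`. The function `f ζ = ρ (1/ζ)` is holomorphic and bounded by `1` on `{0 < |ζ| < 1/R0}`, so it extends to a holomorphic `F` on `ball 0 (1/R0)`
  (`Complex.differentiableOn_update_limUnder_of_bddAbove` or similar removable singularity theorem). `|F 0| < 1`: `|F| ≤ 1` and if `|F 0| = 1` the maximum principle makes `F` constant, but `ρ` is injective (`Collar.inj`; also `|F ζ| < 1` for `ζ ≠ 0` by `maps`). By continuity there are `r1 > 0`, `c < 1` with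
  `|F ζ| ≤ c` for `|ζ| < r1`, i.e. `|ρ w| ≤ c` for `|w| > 1/r1`. If `0 < im u < y` with `exp (-y) > c` then `|ρ (Φ u)| = exp (-im u) > c` (`Collar.left`), so `|Φ u| ≤ 1/r1`.
* `Collar.finArea`: from `bounded`: contained in a closed ball.
* `Collar.tend`: otherwise there are `u n` with `im (u n) → 0`, `infDist (Φ (u n)) K ≥ η`. By `bounded` a subsequence of `Φ (u n)` converges to `w`, `infDist w K ≥ η`, so `w ∉ K` (`K` closed nonempty), `ρ` is continuous at `w` (`dRho`, `Kᶜ` open), so `|ρ w| = lim exp (-im (u n)) = 1`, contradiction to `maps`.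
* `Collar.facts`: `Φ (u + 2π) = Φ u` (`ρ (Φ (u + 2π)) = exp (I u) = ρ (Φ u)`, `inj`), `Φ u = Φ v → v = u + 2π m` (`exp (I u) = exp (I v)`, `Complex.exp_eq_exp_iff_exists_int`), the image of an open subset of `UHP` is open (`Φ` is injective on small balls, open mapping theorem `AnalyticOnNhd.is_constant_or_isOpen`, or: `Φ '' V = {w ∈ Kᶜ | ρ w ∈ exp (I V)}` locally).
* `collar_small`: `U n = Φ '' {0 < im < 1/(n+1)}` is open, decreasing, with empty intersection (`w = Φ u`: `|ρ w| = exp (-im u)`, so `w ∈ U n` for all `n` gives `|ρ w| ≥ 1`). `volume (U n) → 0` by `finArea` (`tendsto_measure_iInter_atTop`); `E ↦ ∫⁻ z in E, ..` restricted to `Ω` is a finite measure (`ha.fin`), the sets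
  `{x ∈ Ω | h x ∈ U n}` are Borel (open, `h` continuous on the open `Ω`), decreasing with empty intersection. `collar Φ τ ⊆ U n` if `r ≤ 1/(n+1)`. -/

open Complex MeasureTheory Set Filter Topology Metric
open scoped ENNReal

namespace CF6

private theorem cb_norm_rho {K : Set ℂ} {Φ ρ : ℂ → ℂ} (hK : Collar K Φ ρ) {u : ℂ} (hu : 0 < u.im) :
    ‖ρ (Φ u)‖ = Real.exp (-u.im) := by
  rw [hK.left u hu, Complex.norm_exp]
  simp

theorem Collar.facts {K : Set ℂ} {Φ ρ : ℂ → ℂ} (hK : Collar K Φ ρ) :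
    (∀ u ∈ UHP, Φ (u + 2 * Real.pi) = Φ u) ∧
    (∀ u ∈ UHP, ∀ v ∈ UHP, Φ u = Φ v → ∃ m : ℤ, v = u + 2 * Real.pi * m) ∧
    (∀ V ⊆ UHP, IsOpen V → IsOpen (Φ '' V)) := by
  refine ⟨fun u hu => ?_, fun u hu v hv huv => ?_, fun V hV hVo => ?_⟩
  · have hu' : u + 2 * Real.pi ∈ UHP := by
      have h1 : 0 < u.im := hu
      simpa [UHP] using h1
    refine hK.inj (hK.mem _ hu') (hK.mem _ hu) ?_
    rw [hK.left _ hu', hK.left _ hu, mul_add, Complex.exp_add]
    have : I * (2 * Real.pi) = 2 * Real.pi * I := by ring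
    rw [this, Complex.exp_two_pi_mul_I, mul_one]
  · have h1 : exp (I * v) = exp (I * u) := by rw [← hK.left v hv, ← hK.left u hu, huv]
    obtain ⟨n, hn⟩ := Complex.exp_eq_exp_iff_exists_int.1 h1
    refine ⟨n, ?_⟩
    have h2 : I * v = I * (u + 2 * Real.pi * n) := by
      rw [hn]
      ring
    exact mul_left_cancel₀ I_ne_zero h2
  · have h1 : Φ '' V = Kᶜ ∩ ρ ⁻¹' ((fun u => exp (I * u)) '' V) := by
      ext w
      constructor
      · rintro ⟨u, hu, rfl⟩
        exact ⟨hK.mem u (hV hu), u, hu, (hK.left u (hV hu)).symm⟩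
      · rintro ⟨hw, u, hu, huw⟩
        refine ⟨u, hu, ?_⟩
        refine hK.inj (hK.mem u (hV hu)) hw ?_
        rw [hK.left u (hV hu)]
        exact huw
    rw [h1]
    refine hK.dRho.continuousOn.isOpen_inter_preimage hK.closed.isOpen_compl ?_
    have h2 : (fun u => exp (I * u)) '' V = exp '' ((fun u => I * u) '' V) := by
      rw [image_image]
    rw [h2]
    refine Complex.isOpenMap_exp _ ?_
    exact (Homeomorph.mulLeft₀ I I_ne_zero).isOpenMap _ hVo

theorem Collar.bounded {K : Set ℂ} {Φ ρ : ℂ → ℂ} (hK : Collar K Φ ρ)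
    (hb : Bornology.IsBounded K ∨ Bornology.IsBounded Kᶜ) :
    ∃ R : ℝ, ∃ y > (0 : ℝ), ∀ u : ℂ, 0 < u.im → u.im < y → ‖Φ u‖ ≤ R := by
  rcases hb with hb | hb
  · obtain ⟨R0, hR0, hKR⟩ := hb.subset_closedBall_lt 0 0
    set s : Set ℂ := ball 0 (1 / R0) with hs
    have hs0 : s ∈ 𝓝 (0 : ℂ) := ball_mem_nhds _ (by positivity)
    set F : ℂ → ℂ := fun ζ => ρ ζ⁻¹ with hF
    have hinvK : ∀ ζ ∈ s \ {0}, ζ⁻¹ ∉ K := by
      rintro ζ ⟨hζ, hζ0⟩ hmem
      have h1 := hKR hmem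
      rw [mem_closedBall_zero_iff, norm_inv] at h1
      rw [hs, mem_ball_zero_iff, lt_div_iff₀ hR0] at hζ
      have h2 : 0 < ‖ζ‖ := norm_pos_iff.2 hζ0
      rw [inv_le_iff_one_le_mul₀ h2] at h1
      nlinarith
    have hFd : DifferentiableOn ℂ F (s \ {0}) := by
      intro ζ hζ
      have h1 : DifferentiableAt ℂ ρ ζ⁻¹ :=
        hK.dRho.differentiableAt (hK.closed.isOpen_compl.mem_nhds (hinvK ζ hζ))
      exact (h1.comp ζ (differentiableAt_inv hζ.2)).differentiableWithinAt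
    have hF1 : ∀ ζ ∈ s \ {0}, ‖F ζ‖ < 1 := fun ζ hζ => by
      have := hK.maps (hinvK ζ hζ)
      rwa [mem_ball_zero_iff] at this
    have hFb : BddAbove (norm ∘ F '' (s \ {0})) := by
      refine ⟨1, ?_⟩
      rintro _ ⟨ζ, hζ, rfl⟩
      exact (hF1 ζ hζ).le
    have hGd := Complex.differentiableOn_update_limUnder_of_bddAbove hs0 hFd hFb
    set G : ℂ → ℂ := Function.update F 0 (limUnder (𝓝[≠] 0) F) with hG
    have hGF : ∀ ζ : ℂ, ζ ≠ 0 → G ζ = F ζ := fun ζ hζ => by rw [hG, Function.update_of_ne hζ]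
    have hGc : ContinuousAt G 0 := (hGd.differentiableAt hs0).continuousAt
    have hev : ∀ᶠ ζ in 𝓝[≠] (0 : ℂ), ‖G ζ‖ < 1 := by
      rw [eventually_nhdsWithin_iff]
      filter_upwards [hs0] with ζ hζ hζ0
      rw [hGF ζ hζ0]
      exact hF1 ζ ⟨hζ, hζ0⟩
    have hG0 : ‖G 0‖ ≤ 1 := by
      have h1 : Tendsto (fun ζ => ‖G ζ‖) (𝓝[≠] 0) (𝓝 ‖G 0‖) :=
        (hGc.norm.tendsto).mono_left nhdsWithin_le_nhds
      exact le_of_tendsto h1 (hev.mono fun ζ h => h.le)
    have hG1 : ‖G 0‖ < 1 := by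
      rcases lt_or_eq_of_le hG0 with h | h
      · exact h
      · exfalso
        have hmax : IsLocalMax (norm ∘ G) 0 := by
          filter_upwards [hs0] with ζ hζ
          by_cases hζ0 : ζ = 0
          · rw [hζ0]
          · simp only [Function.comp_apply]
            rw [hGF ζ hζ0, h]
            exact (hF1 ζ ⟨hζ, hζ0⟩).le
        have hd : ∀ᶠ z in 𝓝 (0 : ℂ), DifferentiableAt ℂ G z := by
          filter_upwards [eventually_mem_nhds_iff.2 hs0] with z hz
          exact hGd.differentiableAt hz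
        have h2 := Complex.norm_eventually_eq_of_isLocalMax hd hmax
        have h3 : ∀ᶠ ζ in 𝓝[≠] (0 : ℂ), False := by
          filter_upwards [hev, h2.filter_mono nhdsWithin_le_nhds] with ζ h4 h5
          rw [h5, h] at h4
          exact lt_irrefl _ h4
        rw [eventually_false_iff_eq_bot] at h3
        exact (NormedField.nhdsNE_neBot (0 : ℂ)).ne h3
    set c : ℝ := (‖G 0‖ + 1) / 2 with hc
    have hc0 : 0 < c := by have := norm_nonneg (G 0); rw [hc]; linarith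
    have hc1 : c < 1 := by rw [hc]; linarith
    have hGc' : ∀ᶠ ζ in 𝓝 (0 : ℂ), ‖G ζ‖ < c :=
      (hGc.norm.tendsto).eventually_lt_const (by rw [hc]; linarith)
    obtain ⟨r1, hr1, hr1'⟩ := Metric.eventually_nhds_iff_ball.1 hGc'
    refine ⟨max (1 / r1) R0, -Real.log c, neg_pos.2 (Real.log_neg hc0 hc1), fun u hu hu' => ?_⟩
    by_contra hcon
    push Not at hcon
    have h1 : 1 / r1 < ‖Φ u‖ := lt_of_le_of_lt (le_max_left _ _) hcon
    have h2 : 0 < ‖Φ u‖ := lt_trans (by positivity) h1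
    have h3 : Φ u ≠ 0 := norm_pos_iff.1 h2
    have h4 := hr1' (Φ u)⁻¹ (by
      rw [mem_ball_zero_iff, norm_inv, inv_lt_comm₀ h2 hr1, ← one_div]
      exact h1)
    rw [hGF _ (inv_ne_zero h3), hF] at h4
    simp only [inv_inv] at h4
    rw [cb_norm_rho hK hu] at h4
    have h5 : Real.exp (Real.log c) < Real.exp (-u.im) := Real.exp_lt_exp.2 (by linarith)
    rw [Real.exp_log hc0] at h5
    linarith
  · obtain ⟨R, hR⟩ := hb.exists_norm_le
    exact ⟨R, 1, one_pos, fun u hu _ => hR _ (hK.mem u hu)⟩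

theorem Collar.finArea {K : Set ℂ} {Φ ρ : ℂ → ℂ} (hK : Collar K Φ ρ)
    (hb : Bornology.IsBounded K ∨ Bornology.IsBounded Kᶜ) :
    ∃ y > (0 : ℝ), volume (Φ '' {u : ℂ | 0 < u.im ∧ u.im < y}) < ⊤ := by
  obtain ⟨R, y, hy, h⟩ := hK.bounded hb
  refine ⟨y, hy, lt_of_le_of_lt (measure_mono ?_) (measure_closedBall_lt_top (x := (0 : ℂ)) (r := R))⟩
  rintro _ ⟨u, hu, rfl⟩
  rw [mem_closedBall_zero_iff]
  exact h u hu.1 hu.2

theorem Collar.tend {K : Set ℂ} {Φ ρ : ℂ → ℂ} (hK : Collar K Φ ρ)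
    (hb : Bornology.IsBounded K ∨ Bornology.IsBounded Kᶜ) :
    ∀ η > (0 : ℝ), ∃ y > (0 : ℝ), ∀ u : ℂ, 0 < u.im → u.im < y → infDist (Φ u) K < η := by
  intro η hη
  obtain ⟨R, y0, hy0, hR⟩ := hK.bounded hb
  set Q : Set ℂ := closedBall 0 R ∩ {w | η ≤ infDist w K} with hQ
  have hQc : IsCompact Q :=
    (isCompact_closedBall _ _).inter_right (isClosed_le continuous_const (continuous_infDist_pt K))
  have hQK : Q ⊆ Kᶜ := by
    rintro w ⟨_, hw⟩ hwK
    have h1 : η ≤ infDist w K := hw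
    rw [infDist_zero_of_mem hwK] at h1
    linarith
  obtain ⟨c, hc0, hc1, hc⟩ : ∃ c : ℝ, 0 < c ∧ c < 1 ∧ ∀ w ∈ Q, ‖ρ w‖ ≤ c := by
    rcases Q.eq_empty_or_nonempty with h | h
    · exact ⟨1 / 2, by norm_num, by norm_num, fun w hw => by rw [h] at hw; exact hw.elim⟩
    · obtain ⟨w0, hw0, hmax⟩ := hQc.exists_isMaxOn h (hK.dRho.continuousOn.mono hQK).norm
      have h1 : ‖ρ w0‖ < 1 := by
        have := hK.maps (hQK hw0)
        rwa [mem_ball_zero_iff] at this
      refine ⟨max (1 / 2) ‖ρ w0‖, lt_max_of_lt_left (by norm_num), max_lt (by norm_num) h1,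
        fun w hw => (hmax hw).trans (le_max_right _ _)⟩
  refine ⟨min y0 (-Real.log c), lt_min hy0 (neg_pos.2 (Real.log_neg hc0 hc1)), fun u hu hu' => ?_⟩
  by_contra hcon
  push Not at hcon
  have h1 : Φ u ∈ Q := by
    refine ⟨?_, hcon⟩
    rw [mem_closedBall_zero_iff]
    exact hR u hu (hu'.trans_le (min_le_left _ _))
  have h2 := hc _ h1
  rw [cb_norm_rho hK hu] at h2
  have h3 : u.im < -Real.log c := hu'.trans_le (min_le_right _ _)
  have h5 : Real.exp (Real.log c) < Real.exp (-u.im) := Real.exp_lt_exp.2 (by linarith)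
  rw [Real.exp_log hc0] at h5
  linarith

theorem collar_small_en {Ω K : Set ℂ} {Φ ρ h hx hy : ℂ → ℂ} (hK : Collar K Φ ρ)
    (hb : Bornology.IsBounded K ∨ Bornology.IsBounded Kᶜ) (hO : IsOpen Ω)
    (ha : ACL2 Ω h hx hy) (δ : ℝ) (hδ : 0 < δ) :
    ∃ y > (0 : ℝ), ∀ (c r : ℝ) (τ : ℝ → ℝ), r ≤ y → Depth c r τ →
      volume (collar Φ τ) ≤ ENNReal.ofReal δ ∧
      en {x | x ∈ Ω ∧ h x ∈ collar Φ τ} hx hy ≤ ENNReal.ofReal δ := by
  set V : ℕ → Set ℂ := fun n => {u : ℂ | 0 < u.im ∧ u.im < 1 / ((n : ℝ) + 1)} with hV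
  set U : ℕ → Set ℂ := fun n => Φ '' V n with hU
  have hVU : ∀ n, V n ⊆ UHP := fun n u hu => hu.1
  have hVo : ∀ n, IsOpen (V n) := fun n =>
    (isOpen_lt continuous_const continuous_im).inter (isOpen_lt continuous_im continuous_const)
  have hUo : ∀ n, IsOpen (U n) := fun n => hK.facts.2.2 (V n) (hVU n) (hVo n)
  have hVanti : Antitone V := by
    intro m n hmn u hu
    refine ⟨hu.1, hu.2.trans_le ?_⟩
    exact one_div_le_one_div_of_le (by positivity) (by exact_mod_cast Nat.succ_le_succ hmn)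
  have hUanti : Antitone U := fun m n hmn => image_mono (hVanti hmn)
  have hUempty : ⋂ n, U n = ∅ := by
    rw [eq_empty_iff_forall_notMem]
    intro w hw
    rw [mem_iInter] at hw
    obtain ⟨u0, hu0, hu0'⟩ := hw 0
    obtain ⟨n, hn⟩ := exists_nat_one_div_lt hu0.1
    obtain ⟨u1, hu1, hu1'⟩ := hw n
    have h1 := cb_norm_rho hK hu0.1
    have h2 := cb_norm_rho hK hu1.1
    rw [hu0'] at h1
    rw [hu1', h1] at h2
    have h3 := Real.exp_injective h2
    have h4 := hu1.2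
    linarith
  have hlim1 : Tendsto (volume ∘ U) atTop (𝓝 0) := by
    have h1 := tendsto_measure_iInter_atTop (μ := (volume : Measure ℂ)) (s := U)
      (fun n => (hUo n).measurableSet.nullMeasurableSet) hUanti (by
        obtain ⟨y, hy, hfin⟩ := hK.finArea hb
        obtain ⟨n, hn⟩ := exists_nat_one_div_lt hy
        refine ⟨n, ((measure_mono ?_).trans_lt hfin).ne⟩
        exact image_mono fun u hu => ⟨hu.1, hu.2.trans hn⟩)
    rwa [hUempty, measure_empty] at h1
  -- the energy measure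
  set S : ℕ → Set ℂ := fun n => Ω ∩ h ⁻¹' U n with hS
  have hSo : ∀ n, IsOpen (S n) := fun n => ha.cont.isOpen_inter_preimage hO (hUo n)
  set ν : Measure ℂ := (volume.restrict Ω).withDensity fun z => (‖hx z‖ₑ ^ 2 + ‖hy z‖ₑ ^ 2) with hν
  have hνS : ∀ E : Set ℂ, MeasurableSet E → E ⊆ Ω → ν E = en E hx hy := by
    intro E hE hEO
    rw [hν, withDensity_apply _ hE, Measure.restrict_restrict hE, inter_eq_left.2 hEO, en]
  have hlim2 : Tendsto (ν ∘ S) atTop (𝓝 0) := by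
    have h1 := tendsto_measure_iInter_atTop (μ := ν) (s := S)
      (fun n => (hSo n).measurableSet.nullMeasurableSet)
      (fun m n hmn => inter_subset_inter_right _ (preimage_mono (hUanti hmn))) (by
        refine ⟨0, ne_of_lt ?_⟩
        rw [hνS _ (hSo 0).measurableSet inter_subset_left]
        exact (lintegral_mono_set inter_subset_left).trans_lt ha.fin)
    have h2 : ⋂ n, S n = ∅ := by
      rw [eq_empty_iff_forall_notMem]
      intro x hx'
      rw [mem_iInter] at hx'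
      have : h x ∈ ⋂ n, U n := mem_iInter.2 fun n => (hx' n).2
      rw [hUempty] at this
      exact this
    rwa [h2, measure_empty] at h1
  have hδ' : (0 : ℝ≥0∞) < ENNReal.ofReal δ := ENNReal.ofReal_pos.2 hδ
  obtain ⟨n, hn1, hn2⟩ := ((hlim1.eventually_lt_const hδ').and (hlim2.eventually_lt_const hδ')).exists
  refine ⟨1 / ((n : ℝ) + 1), by positivity, fun c r τ hr hτ => ?_⟩
  have hsub : collar Φ τ ⊆ U n := by
    rintro _ ⟨u, hu, rfl⟩
    exact ⟨u, ⟨hu.1, hu.2.trans_le ((hτ.le _).trans hr)⟩, rfl⟩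
  refine ⟨(measure_mono hsub).trans hn1.le, ?_⟩
  have h1 : en {x | x ∈ Ω ∧ h x ∈ collar Φ τ} hx hy ≤ en (S n) hx hy :=
    lintegral_mono_set fun x hx' => ⟨hx'.1, hsub hx'.2⟩
  refine h1.trans ?_
  rw [← hνS _ (hSo n).measurableSet inter_subset_left]
  exact hn2.le

end CF6

end

section

/-! # Module N, row N2: good lines of a periodic ACL2 function on a strip

The exceptional sets: `hor`/`ver` of `ACL2` for `R = 1, 2, 3, ...` (countable union of null sets) and Fubini for the square integrability over one period (here direction 1 = increasing `re`, direction I = increasing `im`):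
`∫∫ ‖Ht‖² < ∞` over `0 < re < T, 0 < im < 2π` gives for a.e. `θ` that `t ↦ Ht (t + θ I)` is square integrable, hence integrable, on `(0,T)`; `∫ ‖Hs (t + θ I)‖²` over a period is finite for a.e. `t`, periodicity gives all bounded intervals.
Replace the sets of good `t`, `θ` by Borel subsets of full measure (complement of a measurable null superset: `toMeasurable`), and make `Θg` invariant: `⋂ n : ℤ, Θ + 2πn`. -/

open Complex MeasureTheory Set Filter Topology Metric intervalIntegral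
open scoped ENNReal

namespace CF6

theorem n2_enn_le (x : ℝ≥0∞) : x ≤ 1 + x ^ 2 := by
  rcases le_total x 1 with h | h
  · exact h.trans le_self_add
  · exact (le_self_pow₀ h two_ne_zero).trans le_add_self

theorem n2_mk (t θ : ℝ) : (⟨t, θ⟩ : ℂ) = t + θ * I := Complex.mk_eq_add_mul_I t θ

/-- almost all horizontal slices are square integrable -/
theorem n2_slice {T : ℝ} (hT0 : 0 ≤ T) {Ht Hs : ℂ → ℂ} (mt : Measurable Ht) (ms : Measurable Hs) (n : ℕ)
    (hfin : ∫⁻ z in strip T ∩ {z | |z.im| < n}, (‖Ht z‖ₑ ^ 2 + ‖Hs z‖ₑ ^ 2) < ⊤) :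
    ∀ᵐ θ : ℝ, |θ| < n → IntervalIntegrable (fun t : ℝ => Ht (t + θ * I)) volume 0 T := by
  have hU : MeasurableSet (strip T ∩ {z : ℂ | |z.im| < n}) := by
    refine ((isOpen_lt continuous_const Complex.continuous_re).inter
      (isOpen_lt Complex.continuous_re continuous_const)).measurableSet.inter ?_
    exact (isOpen_lt (Complex.continuous_im.abs) continuous_const).measurableSet
  set F : ℂ → ℝ≥0∞ := (strip T ∩ {z : ℂ | |z.im| < n}).indicator
    (fun z => ‖Ht z‖ₑ ^ 2 + ‖Hs z‖ₑ ^ 2) with hF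
  have hFm : Measurable F := (((mt.enorm).pow_const 2).add ((ms.enorm).pow_const 2)).indicator hU
  have hFfin : ∫⁻ z, F z < ⊤ := by
    rw [hF, lintegral_indicator hU]
    exact hfin
  have hP : MeasurePreserving (fun p : ℝ × ℝ => (⟨p.2, p.1⟩ : ℂ)) (volume.prod volume) volume :=
    (Complex.volume_preserving_equiv_real_prod.symm).comp
      (Measure.measurePreserving_swap (μ := (volume : Measure ℝ)) (ν := (volume : Measure ℝ)))
  have h1 : ∫⁻ z, F z = ∫⁻ θ : ℝ, ∫⁻ t : ℝ, F ⟨t, θ⟩ := by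
    rw [← hP.lintegral_comp hFm]
    exact lintegral_prod (fun p : ℝ × ℝ => F ⟨p.2, p.1⟩) (hFm.comp hP.measurable).aemeasurable
  rw [h1] at hFfin
  have hm2 : Measurable fun θ : ℝ => ∫⁻ t : ℝ, F ⟨t, θ⟩ :=
    (hFm.comp hP.measurable).lintegral_prod_right'
  filter_upwards [ae_lt_top hm2 hFfin.ne] with θ hθ hθn
  rw [intervalIntegrable_iff_integrableOn_Ioo_of_le hT0]
  have hm : Measurable fun t : ℝ => Ht (t + θ * I) := mt.comp (by fun_prop)
  refine ⟨hm.aestronglyMeasurable, ?_⟩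
  have h2 : ∫⁻ t in Ioo 0 T, ‖Ht (t + θ * I)‖ₑ ≤ ∫⁻ t in Ioo 0 T, (1 + F ⟨t, θ⟩) := by
    refine setLIntegral_mono' measurableSet_Ioo fun t ht => ?_
    refine (n2_enn_le _).trans (add_le_add le_rfl ?_)
    have hmem : (⟨t, θ⟩ : ℂ) ∈ strip T ∩ {z : ℂ | |z.im| < n} := ⟨⟨ht.1, ht.2⟩, hθn⟩
    rw [hF, indicator_of_mem hmem, n2_mk]
    exact le_self_add
  refine lt_of_le_of_lt h2 ?_
  rw [lintegral_add_left measurable_const, setLIntegral_const, one_mul, Real.volume_Ioo]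
  refine ENNReal.add_lt_top.mpr ⟨ENNReal.ofReal_lt_top, ?_⟩
  exact lt_of_le_of_lt (setLIntegral_le_lintegral _ _) hθ

/-- a Borel subset of full measure -/
theorem n2_borel {P : ℝ → Prop} (h : ∀ᵐ x : ℝ, P x) :
    ∃ S : Set ℝ, MeasurableSet S ∧ volume Sᶜ = 0 ∧ ∀ x ∈ S, P x := by
  refine ⟨(toMeasurable volume {x | ¬ P x})ᶜ, (measurableSet_toMeasurable _ _).compl, ?_, ?_⟩
  · rw [compl_compl, measure_toMeasurable]
    exact ae_iff.mp h
  · intro x hx
    by_contra hP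
    exact hx (subset_toMeasurable _ _ hP)

/-- the good lines -/
structure GoodLines (T : ℝ) (H Ht Hs : ℂ → ℂ) (Tg Θg : Set ℝ) : Prop where
  subT : Tg ⊆ Ioo 0 T
  mT : MeasurableSet Tg
  mΘ : MeasurableSet Θg
  fT : volume (Ioo 0 T \ Tg) = 0
  fΘ : volume Θgᶜ = 0
  pΘ : ∀ θ, θ ∈ Θg ↔ θ + 2 * Real.pi ∈ Θg
  iT : ∀ t ∈ Tg, ∀ x y : ℝ, IntervalIntegrable (fun θ : ℝ => Hs (t + θ * I)) volume x y
  iΘ : ∀ θ ∈ Θg, IntervalIntegrable (fun t : ℝ => Ht (t + θ * I)) volume 0 T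
  hT : ∀ t ∈ Tg, ∀ x y : ℝ, H (t + y * I) - H (t + x * I) = ∫ θ in x..y, Hs (t + θ * I)
  hΘ : ∀ θ ∈ Θg, ∀ x ∈ Ioo 0 T, ∀ y ∈ Ioo 0 T,
    H (y + θ * I) - H (x + θ * I) = ∫ t in x..y, Ht (t + θ * I)

theorem exists_goodLines {T : ℝ} (hT : 0 < T) {A : Set ℂ} {ψ f fx fy H Ht Hs : ℂ → ℂ}
    (hp : Pull (strip T) A ψ f fx fy H Ht Hs) : ∃ Tg Θg : Set ℝ, GoodLines T H Ht Hs Tg Θg := by
  -- vertical lines
  have hv : ∀ᵐ t : ℝ, t ∈ Ioo 0 T → ∀ x y : ℝ, x ≤ y →
      IntervalIntegrable (fun θ : ℝ => Hs (t + θ * I)) volume x y ∧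
      H (t + y * I) - H (t + x * I) = ∫ θ in x..y, Hs (t + θ * I) := by
    have h1 : ∀ᵐ t : ℝ, ∀ n : ℕ, ∀ a b : ℝ, a ≤ b →
        (∀ θ ∈ Icc a b, (⟨t, θ⟩ : ℂ) ∈ strip T ∩ {z | |z.im| < n}) →
        IntervalIntegrable (fun θ => Hs ⟨t, θ⟩) volume a b ∧
          H ⟨t, b⟩ - H ⟨t, a⟩ = ∫ θ in a..b, Hs ⟨t, θ⟩ := by
      rw [ae_all_iff]
      intro n
      exact (hp.acl n).ver
    filter_upwards [h1] with t ht htT x y hxy
    obtain ⟨n, hn⟩ := exists_nat_gt (max |x| |y|)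
    have h2 := ht n x y hxy (by
      intro θ hθ
      refine ⟨⟨htT.1, htT.2⟩, ?_⟩
      change |θ| < n
      refine lt_of_le_of_lt ?_ hn
      rw [abs_le]
      constructor
      · have := (neg_abs_le x).trans hθ.1
        have h3 := le_max_left |x| |y|
        linarith
      · exact hθ.2.trans ((le_abs_self y).trans (le_max_right _ _)))
    simpa only [n2_mk] using h2
  -- horizontal lines
  have hh : ∀ᵐ θ : ℝ, IntervalIntegrable (fun t : ℝ => Ht (t + θ * I)) volume 0 T ∧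
      ∀ x ∈ Ioo 0 T, ∀ y ∈ Ioo 0 T, x ≤ y →
      H (y + θ * I) - H (x + θ * I) = ∫ t in x..y, Ht (t + θ * I) := by
    have h1 : ∀ᵐ θ : ℝ, ∀ n : ℕ, ∀ a b : ℝ, a ≤ b →
        (∀ t ∈ Icc a b, (⟨t, θ⟩ : ℂ) ∈ strip T ∩ {z | |z.im| < n}) →
        IntervalIntegrable (fun t => Ht ⟨t, θ⟩) volume a b ∧
          H ⟨b, θ⟩ - H ⟨a, θ⟩ = ∫ t in a..b, Ht ⟨t, θ⟩ := by
      rw [ae_all_iff]
      intro n
      exact (hp.acl n).hor
    have h2 : ∀ᵐ θ : ℝ, ∀ n : ℕ, |θ| < n →
        IntervalIntegrable (fun t : ℝ => Ht (t + θ * I)) volume 0 T := by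
      rw [ae_all_iff]
      intro n
      exact n2_slice hT.le hp.mt hp.ms n (hp.acl n).fin
    filter_upwards [h1, h2] with θ hθ1 hθ2
    obtain ⟨n, hn⟩ := exists_nat_gt |θ|
    refine ⟨hθ2 n hn, ?_⟩
    intro x hx y hy hxy
    have h3 := (hθ1 n x y hxy (by
      intro t ht
      exact ⟨⟨lt_of_lt_of_le hx.1 ht.1, lt_of_le_of_lt ht.2 hy.2⟩, hn⟩)).2
    simpa only [n2_mk] using h3
  obtain ⟨S, hSm, hS0, hS⟩ := n2_borel hv
  obtain ⟨R, hRm, hR0, hR⟩ := n2_borel hh
  have hsh : ∀ n : ℤ, Measurable fun θ : ℝ => θ + 2 * Real.pi * n := fun n => by fun_prop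
  refine ⟨Ioo 0 T ∩ S, ⋂ n : ℤ, (fun θ : ℝ => θ + 2 * Real.pi * n) ⁻¹' R, ?_⟩
  have hsub : ∀ θ ∈ ⋂ n : ℤ, (fun θ : ℝ => θ + 2 * Real.pi * n) ⁻¹' R, θ ∈ R := by
    intro θ hθ
    have := mem_iInter.mp hθ 0
    simpa using this
  refine ⟨inter_subset_left, measurableSet_Ioo.inter hSm,
    MeasurableSet.iInter fun n => hsh n hRm, ?_, ?_, ?_, ?_, ?_, ?_, ?_⟩
  · refine measure_mono_null ?_ hS0
    rintro x ⟨hx1, hx2⟩ hxS
    exact hx2 ⟨hx1, hxS⟩
  · rw [compl_iInter]
    refine measure_iUnion_null fun n => ?_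
    rw [← preimage_compl]
    exact (measurePreserving_add_right volume (2 * Real.pi * n : ℝ)).quasiMeasurePreserving.preimage_null hR0
  · intro θ
    simp only [mem_iInter, mem_preimage]
    constructor
    · intro h n
      have h1 := h (n + 1)
      have h2 : θ + 2 * Real.pi + 2 * Real.pi * n = θ + 2 * Real.pi * ((n + 1 : ℤ) : ℝ) := by
        push_cast
        ring
      rw [h2]
      exact h1
    · intro h n
      have h1 := h (n - 1)
      have h2 : θ + 2 * Real.pi + 2 * Real.pi * ((n - 1 : ℤ) : ℝ) = θ + 2 * Real.pi * n := by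
        push_cast
        ring
      rw [h2] at h1
      exact h1
  · intro t ht x y
    rcases le_total x y with hxy | hxy
    · exact (hS t ht.2 ht.1 x y hxy).1
    · exact (hS t ht.2 ht.1 y x hxy).1.symm
  · intro θ hθ
    exact (hR θ (hsub θ hθ)).1
  · intro t ht x y
    rcases le_total x y with hxy | hxy
    · exact (hS t ht.2 ht.1 x y hxy).2
    · have h1 := (hS t ht.2 ht.1 y x hxy).2
      rw [intervalIntegral.integral_symm, ← h1]
      ring
  · intro θ hθ x hx y hy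
    rcases le_total x y with hxy | hxy
    · exact (hR θ (hsub θ hθ)).2 x hx y hy hxy
    · have h1 := (hR θ (hsub θ hθ)).2 y hy x hx hxy
      rw [intervalIntegral.integral_symm, ← h1]
      ring

end CF6

end

section

/-! # Module N, row N3a: the polygonal path of a chain of good points

Points `P 0 = θ_0 I` (on the line `re = 0`), `P 1 = x_0, ..., P (n+1) = x_n`, `P (n+2) = θ_n I`. `γ s = P j + (s - j)(P (j+1) - P j)` for `s ∈ [j, j+1]` (e.g. `γ s = P ⌊s⌋₊ + ...`, continuous on `[0, n+2]`).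
`m s = ‖P (j+1) - P j‖ * ‖Ht (γ s)‖` on the pieces where the imaginary part is constant, `‖P (j+1) - P j‖ * ‖Hs (γ s)‖` on the others, for `j < s < j+1`. -/

open Complex MeasureTheory Set Filter Topology Metric intervalIntegral
open scoped ENNReal

namespace CF6

/-- a path from `P` to `Q` inside the strip (end points possibly on the boundary) with control of the
weighted length of its image -/
def N3aP (T : ℝ) (H : ℂ → ℂ) (P Q : ℂ) (cost : (ℂ → ℝ) → ℝ) : Prop :=
  ∃ (N : ℝ) (γ : ℝ → ℂ) (m : ℝ → ℝ), 0 < N ∧ ContinuousOn γ (Icc 0 N) ∧ γ 0 = P ∧ γ N = Q ∧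
    (∀ s ∈ Ioo 0 N, γ s ∈ strip T) ∧ (∀ s, 0 ≤ m s) ∧ IntervalIntegrable m volume 0 N ∧
    (∀ s s', 0 ≤ s → s ≤ s' → s' ≤ N → γ s ∈ strip T → γ s' ∈ strip T →
      ‖H (γ s') - H (γ s)‖ ≤ ∫ r in s..s', m r) ∧
    ∀ om : ℂ → ℝ, Measurable om → (∀ z, 0 ≤ om z) → (∃ M, ∀ z, om z ≤ M) →
      (∫ s in (0 : ℝ)..N, om (γ s) * m s) ≤ cost om

theorem n3a_mono {T : ℝ} {H : ℂ → ℂ} {P Q : ℂ} {c c' : (ℂ → ℝ) → ℝ} (h : N3aP T H P Q c)
    (hc : ∀ om : ℂ → ℝ, Measurable om → (∀ z, 0 ≤ om z) → (∃ M, ∀ z, om z ≤ M) → c om ≤ c' om) :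
    N3aP T H P Q c' := by
  obtain ⟨N, γ, m, h1, h2, h3, h4, h5, h6, h7, h8, h9⟩ := h
  exact ⟨N, γ, m, h1, h2, h3, h4, h5, h6, h7, h8, fun om a b c => (h9 om a b c).trans (hc om a b c)⟩

theorem n3a_int {N : ℝ} (hN : 0 < N) {γ : ℝ → ℂ} (hγ : ContinuousOn γ (Icc 0 N)) {m : ℝ → ℝ}
    (hm : IntervalIntegrable m volume 0 N) {om : ℂ → ℝ} (ho : Measurable om) (h0 : ∀ z, 0 ≤ om z)
    {M : ℝ} (hM : ∀ z, om z ≤ M) : IntervalIntegrable (fun s => om (γ s) * m s) volume 0 N := by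
  rw [intervalIntegrable_iff_integrableOn_Ioc_of_le hN.le] at hm ⊢
  have h1 : AEMeasurable γ (volume.restrict (Icc 0 N)) := hγ.aemeasurable measurableSet_Icc
  have h2 : AEMeasurable γ (volume.restrict (Ioc 0 N)) :=
    h1.mono_measure (Measure.restrict_mono Ioc_subset_Icc_self le_rfl)
  refine Integrable.bdd_mul (c := M) hm (ho.comp_aemeasurable h2).aestronglyMeasurable ?_
  refine Filter.Eventually.of_forall (fun s => ?_)
  rw [Real.norm_eq_abs, abs_of_nonneg (h0 _)]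
  exact hM _

theorem n3a_concat {T : ℝ} {H : ℂ → ℂ} {P Q R : ℂ} {c1 c2 : (ℂ → ℝ) → ℝ}
    (hQ : Q ∈ strip T) (h1 : N3aP T H P Q c1) (h2 : N3aP T H Q R c2) :
    N3aP T H P R (fun om => c1 om + c2 om) := by
  obtain ⟨N1, γ1, m1, a1, a2, a3, a4, a5, a6, a7, a8, a9⟩ := h1
  obtain ⟨N2, γ2, m2, b1, b2, b3, b4, b5, b6, b7, b8, b9⟩ := h2
  set γ : ℝ → ℂ := fun s => if s ≤ N1 then γ1 s else γ2 (s - N1) with hγ
  set m : ℝ → ℝ := fun s => if s ≤ N1 then m1 s else m2 (s - N1) with hm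
  have hγ1 : ∀ s, s ≤ N1 → γ s = γ1 s := fun s hs => if_pos hs
  have hγ2 : ∀ s, N1 ≤ s → γ s = γ2 (s - N1) := by
    intro s hs
    rcases hs.eq_or_lt with h | h
    · rw [← h, hγ1 N1 le_rfl, sub_self, a4, b3]
    · exact if_neg (not_le.mpr h)
  have hm1 : ∀ s, s ≤ N1 → m s = m1 s := fun s hs => if_pos hs
  have hm2 : ∀ s, N1 < s → m s = m2 (s - N1) := fun s hs => if_neg (not_le.mpr hs)
  have hmi1 : IntervalIntegrable m volume 0 N1 := by
    refine (intervalIntegrable_congr (fun s hs => ?_)).mp a7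
    rw [uIoc_of_le a1.le] at hs
    exact (hm1 s hs.2).symm
  have hsh : IntervalIntegrable (fun s => m2 (s - N1)) volume N1 (N1 + N2) := by
    have := b7.comp_sub_right N1
    rw [zero_add, add_comm N2] at this
    exact this
  have hmi2 : IntervalIntegrable m volume N1 (N1 + N2) := by
    refine (intervalIntegrable_congr (fun s hs => ?_)).mp hsh
    rw [uIoc_of_le (by linarith)] at hs
    exact (hm2 s hs.1).symm
  have hmi : IntervalIntegrable m volume 0 (N1 + N2) := hmi1.trans hmi2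
  have hc1 : ContinuousOn γ (Icc 0 N1) := a2.congr (fun s hs => hγ1 s hs.2)
  have hc2 : ContinuousOn γ (Icc N1 (N1 + N2)) := by
    have h3 : ContinuousOn (fun s => γ2 (s - N1)) (Icc N1 (N1 + N2)) := by
      refine b2.comp (by fun_prop) (fun s hs => ?_)
      exact ⟨by linarith [hs.1], by linarith [hs.2]⟩
    exact h3.congr (fun s hs => hγ2 s hs.1)
  have hc : ContinuousOn γ (Icc 0 (N1 + N2)) := by
    rw [← Icc_union_Icc_eq_Icc a1.le (by linarith : N1 ≤ N1 + N2)]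
    exact hc1.union_of_isClosed hc2 isClosed_Icc isClosed_Icc
  have hint1 : ∀ s s', s ≤ s' → s' ≤ N1 → ∫ r in s..s', m r = ∫ r in s..s', m1 r := by
    intro s s' hs hs'
    refine intervalIntegral.integral_congr (fun r hr => ?_)
    rw [uIcc_of_le hs] at hr
    exact hm1 r (hr.2.trans hs')
  have hint2 : ∀ s s', N1 ≤ s → s ≤ s' → ∫ r in s..s', m r = ∫ r in (s - N1)..(s' - N1), m2 r := by
    intro s s' hs hs'
    rw [← intervalIntegral.integral_comp_sub_right]
    refine intervalIntegral.integral_congr_ae (Filter.Eventually.of_forall (fun r hr => ?_))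
    rw [uIoc_of_le hs'] at hr
    exact hm2 r (lt_of_le_of_lt hs hr.1)
  refine ⟨N1 + N2, γ, m, by linarith, hc, ?_, ?_, ?_, ?_, hmi, ?_, ?_⟩
  · rw [hγ1 0 a1.le, a3]
  · rw [hγ2 _ (by linarith), add_sub_cancel_left, b4]
  · intro s hs
    rcases lt_trichotomy s N1 with h | h | h
    · rw [hγ1 s h.le]; exact a5 s ⟨hs.1, h⟩
    · rw [h, hγ1 N1 le_rfl, a4]; exact hQ
    · rw [hγ2 s h.le]; exact b5 _ ⟨by linarith, by linarith [hs.2]⟩
  · intro s
    by_cases h : s ≤ N1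
    · rw [hm1 s h]; exact a6 s
    · rw [hm2 s (not_le.mp h)]; exact b6 _
  · intro s s' h0 hss hs' hin hin'
    by_cases h1 : s' ≤ N1
    · rw [hγ1 s' h1, hγ1 s (hss.trans h1), hint1 s s' hss h1]
      rw [hγ1 s' h1] at hin'
      rw [hγ1 s (hss.trans h1)] at hin
      exact a8 s s' h0 hss h1 hin hin'
    · have h1' := (not_le.mp h1).le
      by_cases h2 : N1 ≤ s
      · rw [hγ2 s' h1', hγ2 s h2, hint2 s s' h2 hss]
        rw [hγ2 s' h1'] at hin'
        rw [hγ2 s h2] at hin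
        exact b8 _ _ (by linarith) (by linarith) (by linarith) hin hin'
      · have h2' := (not_le.mp h2).le
        have e1 : ‖H (γ N1) - H (γ s)‖ ≤ ∫ r in s..N1, m r := by
          rw [hγ1 N1 le_rfl, hγ1 s h2', hint1 s N1 h2' le_rfl]
          rw [hγ1 s h2'] at hin
          exact a8 s N1 h0 h2' le_rfl hin (by rw [a4]; exact hQ)
        have e2 : ‖H (γ s') - H (γ N1)‖ ≤ ∫ r in N1..s', m r := by
          rw [hγ2 s' h1', hγ2 N1 le_rfl, hint2 N1 s' le_rfl h1']
          rw [hγ2 s' h1'] at hin'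
          refine b8 _ _ (by linarith) (by linarith) (by linarith) ?_ hin'
          rw [sub_self, b3]; exact hQ
        have e3 : ∫ r in s..s', m r = (∫ r in s..N1, m r) + ∫ r in N1..s', m r := by
          rw [intervalIntegral.integral_add_adjacent_intervals]
          · exact hmi.mono_set (by
              rw [uIcc_of_le h2', uIcc_of_le (by linarith)]
              exact Icc_subset_Icc h0 (by linarith))
          · exact hmi.mono_set (by
              rw [uIcc_of_le h1', uIcc_of_le (by linarith)]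
              exact Icc_subset_Icc a1.le hs')
        rw [e3]
        calc ‖H (γ s') - H (γ s)‖ = ‖(H (γ N1) - H (γ s)) + (H (γ s') - H (γ N1))‖ := by
              congr 1; ring
          _ ≤ _ := (norm_add_le _ _).trans (add_le_add e1 e2)
  · intro om ho h0 hM
    obtain ⟨M, hM⟩ := hM
    have f1 : IntervalIntegrable (fun s => om (γ s) * m s) volume 0 N1 :=
      n3a_int a1 hc1 hmi1 ho h0 hM
    have f0 : IntervalIntegrable (fun s => om (γ s) * m s) volume 0 (N1 + N2) :=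
      n3a_int (by linarith) hc hmi ho h0 hM
    have f2 : IntervalIntegrable (fun s => om (γ s) * m s) volume N1 (N1 + N2) :=
      f0.mono_set (by
        rw [uIcc_of_le (by linarith : N1 ≤ N1 + N2), uIcc_of_le (by linarith : (0 : ℝ) ≤ N1 + N2)]
        exact Icc_subset_Icc a1.le le_rfl)
    rw [← intervalIntegral.integral_add_adjacent_intervals f1 f2]
    have e1 : ∫ s in (0 : ℝ)..N1, om (γ s) * m s = ∫ s in (0 : ℝ)..N1, om (γ1 s) * m1 s := by
      refine intervalIntegral.integral_congr (fun r hr => ?_)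
      rw [uIcc_of_le a1.le] at hr
      simp only [hγ1 r hr.2, hm1 r hr.2]
    have e2 : ∫ s in N1..(N1 + N2), om (γ s) * m s = ∫ s in (0 : ℝ)..N2, om (γ2 s) * m2 s := by
      have e3 : ∫ s in N1..(N1 + N2), om (γ2 (s - N1)) * m2 (s - N1)
          = ∫ s in (0 : ℝ)..N2, om (γ2 s) * m2 s := by
        rw [intervalIntegral.integral_comp_sub_right (fun s => om (γ2 s) * m2 s) N1, sub_self,
          add_sub_cancel_left]
      rw [← e3]
      refine intervalIntegral.integral_congr_ae (Filter.Eventually.of_forall (fun r hr => ?_))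
      rw [uIoc_of_le (by linarith)] at hr
      simp only [hγ2 r hr.1.le, hm2 r hr.1]
    rw [e1, e2]
    exact add_le_add (a9 om ho h0 ⟨M, hM⟩) (b9 om ho h0 ⟨M, hM⟩)

/-- one segment -/
theorem n3a_seg {T : ℝ} {H : ℂ → ℂ} (F : ℝ → ℂ) (k : ℝ → ℂ) (a b : ℝ) (hF : Continuous F)
    (hin : ∀ s ∈ Ioo (0 : ℝ) 1, F (a + (b - a) * s) ∈ strip T) (hk : IntervalIntegrable k volume a b)
    (hH : ∀ u ∈ uIcc a b, ∀ v ∈ uIcc a b, F u ∈ strip T → F v ∈ strip T →
      H (F v) - H (F u) = ∫ t in u..v, k t) :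
    N3aP T H (F a) (F b) (fun om => |∫ t in a..b, om (F t) * ‖k t‖|) := by
  set c := b - a with hc
  have hb : a + c = b := by rw [hc]; ring
  have hki : IntervalIntegrable (fun s => k (a + c * s)) volume 0 1 := by
    by_cases hc0 : c = 0
    · simp only [hc0, zero_mul, add_zero]
      exact intervalIntegrable_const
    · have h1 : IntervalIntegrable (fun t => k (a + t)) volume (a - a) (b - a) := hk.comp_add_left a
      have h2 := h1.comp_mul_left (c := c)
      rw [sub_self, zero_div, ← hc, div_self hc0] at h2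
      exact h2
  refine ⟨1, fun s => F (a + c * s), fun s => |c| * ‖k (a + c * s)‖, one_pos, ?_, ?_, ?_, hin, ?_,
    ?_, ?_, ?_⟩
  · exact (hF.comp (by fun_prop)).continuousOn
  · simp
  · simp only [mul_one, hb]
  · intro s; positivity
  · exact (hki.norm).const_mul _
  · intro s s' h0 hss hs' hu hv
    have hmem : ∀ r, 0 ≤ r → r ≤ 1 → a + c * r ∈ uIcc a b := by
      intro r h0 h1
      rw [mem_uIcc]
      rcases le_total 0 c with hc0 | hc0
      · left; constructor <;> nlinarith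
      · right; constructor <;> nlinarith
    rw [hH _ (hmem s h0 (hss.trans hs')) _ (hmem s' (h0.trans hss) hs') hu hv]
    rw [← intervalIntegral.smul_integral_comp_add_mul, ← intervalIntegral.integral_smul]
    refine (intervalIntegral.norm_integral_le_integral_norm hss).trans (le_of_eq ?_)
    refine intervalIntegral.integral_congr (fun r _ => ?_)
    simp only [norm_smul, Real.norm_eq_abs]
  · intro om ho h0 _
    have h1 : ∫ t in a..b, om (F t) * ‖k t‖
        = c • ∫ s in (0 : ℝ)..1, om (F (a + c * s)) * ‖k (a + c * s)‖ := by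
      rw [intervalIntegral.smul_integral_comp_add_mul (fun t => om (F t) * ‖k t‖)]
      rw [mul_zero, add_zero, mul_one, hb]
    have h2 : 0 ≤ ∫ s in (0 : ℝ)..1, om (F (a + c * s)) * ‖k (a + c * s)‖ :=
      intervalIntegral.integral_nonneg zero_le_one
        (fun s _ => mul_nonneg (h0 _) (norm_nonneg _))
    show (∫ s in (0 : ℝ)..1, om (F (a + c * s)) * (|c| * ‖k (a + c * s)‖)) ≤
      |∫ t in a..b, om (F t) * ‖k t‖|
    rw [h1, smul_eq_mul, abs_mul, abs_of_nonneg h2, ← intervalIntegral.integral_const_mul]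
    refine le_of_eq (intervalIntegral.integral_congr (fun r _ => ?_))
    ring

theorem n3a_hor {T : ℝ} {H Ht Hs : ℂ → ℂ} {Tg Θg : Set ℝ} (gl : GoodLines T H Ht Hs Tg Θg)
    {θ a b : ℝ} (hθ : θ ∈ Θg) (ha : a ∈ Ico 0 T) (hb : b ∈ Ico 0 T) (hab : 0 < a ∨ 0 < b) :
    N3aP T H (a + θ * I) (b + θ * I)
      (fun om => |∫ t in a..b, om (t + θ * I) * ‖Ht (t + θ * I)‖|) := by
  have hst : ∀ t : ℝ, ((t : ℂ) + θ * I) ∈ strip T ↔ 0 < t ∧ t < T := by
    intro t
    simp [strip]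
  refine n3a_seg (fun t : ℝ => (t : ℂ) + θ * I) (fun t => Ht (t + θ * I)) a b (by fun_prop) ?_ ?_ ?_
  · intro s hs
    rw [hst]
    have e : a + (b - a) * s = a * (1 - s) + b * s := by ring
    have hs1 := hs.1
    have hs2 : 0 < 1 - s := by linarith [hs.2]
    have ha0 := ha.1
    have hb0 := hb.1
    rw [e]
    constructor
    · rcases hab with h | h
      · have h3 : 0 < a * (1 - s) := mul_pos h hs2
        have h4 : 0 ≤ b * s := mul_nonneg hb0 hs1.le
        linarith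
      · have h3 : 0 < b * s := mul_pos h hs1
        have h4 : 0 ≤ a * (1 - s) := mul_nonneg ha0 hs2.le
        linarith
    · have h3 : a * (1 - s) < T * (1 - s) := mul_lt_mul_of_pos_right ha.2 hs2
      have h4 : b * s < T * s := mul_lt_mul_of_pos_right hb.2 hs1
      nlinarith
  · refine (gl.iΘ θ hθ).mono_set ?_
    rw [uIcc_of_le (ha.1.trans ha.2.le)]
    exact uIcc_subset_Icc ⟨ha.1, ha.2.le⟩ ⟨hb.1, hb.2.le⟩
  · intro u _ v _ hu hv
    exact gl.hΘ θ hθ u ((hst u).mp hu) v ((hst v).mp hv)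

theorem n3a_ver {T : ℝ} {H Ht Hs : ℂ → ℂ} {Tg Θg : Set ℝ} (gl : GoodLines T H Ht Hs Tg Θg)
    {t : ℝ} (ht : t ∈ Tg) (a b : ℝ) :
    N3aP T H (t + a * I) (t + b * I)
      (fun om => |∫ θ in a..b, om (t + θ * I) * ‖Hs (t + θ * I)‖|) := by
  have hst : ∀ θ : ℝ, ((t : ℂ) + θ * I) ∈ strip T := by
    intro θ
    have := gl.subT ht
    simpa [strip] using this
  refine n3a_seg (fun θ : ℝ => (t : ℂ) + θ * I) (fun θ => Hs (t + θ * I)) a b (by fun_prop) ?_ ?_ ?_
  · intro s _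
    exact hst _
  · exact gl.iT t ht a b
  · intro u _ v _ _ _
    exact gl.hT t ht u v

theorem n3a_chain {T : ℝ} {H Ht Hs : ℂ → ℂ} {Tg Θg : Set ℝ} (gl : GoodLines T H Ht Hs Tg Θg)
    (n : ℕ) (x : ℕ → ℝ × ℝ) (hx : ∀ i ≤ n, (x i).1 ∈ Tg ∧ (x i).2 ∈ Θg)
    (hc : ∀ i < n, (x i).1 = (x (i + 1)).1 ∨ (x i).2 = (x (i + 1)).2) (j : ℕ) (hj : j ≤ n) :
    N3aP T H (0 + (x 0).2 * I) ((x j).1 + (x j).2 * I)
      (fun om => (∫ t in (0 : ℝ)..(x 0).1, om (t + (x 0).2 * I) * ‖Ht (t + (x 0).2 * I)‖) +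
        ∑ i ∈ Finset.range j, segCost (fun t θ => om (t + θ * I) * ‖Ht (t + θ * I)‖)
          (fun t θ => om (t + θ * I) * ‖Hs (t + θ * I)‖) (x i) (x (i + 1))) := by
  have hpos : ∀ i ≤ n, (x i).1 ∈ Ioo 0 T := fun i hi => gl.subT (hx i hi).1
  induction j with
  | zero =>
    have h1 := hpos 0 (Nat.zero_le _)
    have h2 := n3a_hor gl (hx 0 (Nat.zero_le _)).2 (a := 0) (b := (x 0).1)
      ⟨le_rfl, h1.1.trans h1.2⟩ ⟨h1.1.le, h1.2⟩ (Or.inr h1.1)
    rw [Complex.ofReal_zero] at h2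
    refine n3a_mono h2 (fun om _ h0 _ => ?_)
    rw [abs_of_nonneg, Finset.range_zero, Finset.sum_empty, add_zero]
    exact intervalIntegral.integral_nonneg h1.1.le
      (fun s _ => mul_nonneg (h0 _) (norm_nonneg _))
  | succ j ih =>
    have h1 := ih (by omega)
    have hj1 := hpos j (by omega)
    have hj2 := hpos (j + 1) hj
    have hQ : ((x j).1 : ℂ) + (x j).2 * I ∈ strip T := by
      simpa [strip] using hj1
    have h2 : N3aP T H ((x j).1 + (x j).2 * I) ((x (j + 1)).1 + (x (j + 1)).2 * I)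
        (fun om => segCost (fun t θ => om (t + θ * I) * ‖Ht (t + θ * I)‖)
          (fun t θ => om (t + θ * I) * ‖Hs (t + θ * I)‖) (x j) (x (j + 1))) := by
      by_cases he : (x j).2 = (x (j + 1)).2
      · have h3 := n3a_hor gl (hx j (by omega)).2 (a := (x j).1) (b := (x (j + 1)).1)
          ⟨hj1.1.le, hj1.2⟩ ⟨hj2.1.le, hj2.2⟩ (Or.inl hj1.1)
        rw [← he]
        refine n3a_mono h3 (fun om _ _ _ => ?_)
        rw [segCost, if_pos he]
      · have he1 : (x j).1 = (x (j + 1)).1 := (hc j (by omega)).resolve_right he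
        have h3 := n3a_ver gl (hx j (by omega)).1 (x j).2 (x (j + 1)).2
        rw [← he1]
        refine n3a_mono h3 (fun om _ _ _ => ?_)
        rw [segCost, if_neg he]
    refine n3a_mono (n3a_concat hQ h1 h2) (fun om _ _ _ => le_of_eq ?_)
    rw [Finset.sum_range_succ]
    ring

theorem chain_path {T : ℝ} {H Ht Hs : ℂ → ℂ} {Tg Θg : Set ℝ} (gl : GoodLines T H Ht Hs Tg Θg)
    (n : ℕ) (x : ℕ → ℝ × ℝ) (hx : ∀ i ≤ n, (x i).1 ∈ Tg ∧ (x i).2 ∈ Θg)
    (hc : ∀ i < n, (x i).1 = (x (i + 1)).1 ∨ (x i).2 = (x (i + 1)).2) :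
    ∃ (N : ℝ) (γ : ℝ → ℂ) (m : ℝ → ℝ), 0 < N ∧ ContinuousOn γ (Icc 0 N) ∧
      γ 0 = (x 0).2 * I ∧ γ N = (x n).2 * I ∧ (∀ s ∈ Ioo 0 N, γ s ∈ strip T) ∧
      (∀ s, 0 ≤ m s) ∧ IntervalIntegrable m volume 0 N ∧
      (∀ s s', 0 < s → s ≤ s' → s' < N → ‖H (γ s') - H (γ s)‖ ≤ ∫ r in s..s', m r) ∧
      ∀ om : ℂ → ℝ, Measurable om → (∀ z, 0 ≤ om z) → (∃ M, ∀ z, om z ≤ M) →
        (∫ s in (0 : ℝ)..N, om (γ s) * m s) ≤
        (∫ t in (0 : ℝ)..(x 0).1, om (t + (x 0).2 * I) * ‖Ht (t + (x 0).2 * I)‖) +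
        (∑ i ∈ Finset.range n, segCost (fun t θ => om (t + θ * I) * ‖Ht (t + θ * I)‖)
          (fun t θ => om (t + θ * I) * ‖Hs (t + θ * I)‖) (x i) (x (i + 1))) +
        ∫ t in (0 : ℝ)..(x n).1, om (t + (x n).2 * I) * ‖Ht (t + (x n).2 * I)‖ := by
  have hn := gl.subT (hx n le_rfl).1
  have h1 := n3a_chain gl n x hx hc n le_rfl
  have hQ : ((x n).1 : ℂ) + (x n).2 * I ∈ strip T := by
    simpa [strip] using hn
  have h2 := n3a_hor gl (hx n le_rfl).2 (a := (x n).1) (b := 0) ⟨hn.1.le, hn.2⟩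
    ⟨le_rfl, hn.1.trans hn.2⟩ (Or.inl hn.1)
  obtain ⟨N, γ, m, a1, a2, a3, a4, a5, a6, a7, a8, a9⟩ := n3a_concat hQ h1 h2
  refine ⟨N, γ, m, a1, a2, ?_, ?_, a5, a6, a7, ?_, ?_⟩
  · rw [a3, zero_add]
  · rw [a4, Complex.ofReal_zero, zero_add]
  · intro s s' h0 hss hs'
    exact a8 s s' h0.le hss hs'.le (a5 s ⟨h0, lt_of_le_of_lt hss hs'⟩)
      (a5 s' ⟨lt_of_lt_of_le h0 hss, hs'⟩)
  · intro om ho h0 hM
    refine (a9 om ho h0 hM).trans (le_of_eq ?_)
    simp only
    congr 1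
    rw [intervalIntegral.integral_symm, abs_neg, abs_of_nonneg]
    exact intervalIntegral.integral_nonneg hn.1.le
      (fun s _ => mul_nonneg (h0 _) (norm_nonneg _))

end CF6

end

section

/-! # Module N, row N3b: path data of a path in the strip

`u s = G (γ s)`, `q s = ht (ψ (γ s))` for `0 < s < N`, `q s = Φ (u s)` for `s = 0, N`, `Oγ = {s ∈ (0,N) | ψ (γ s) ∈ O}`.
`inner`: for `0 < s < N` with `im u s > 0`: `exp (I u s) = g (ψ γ s)` has norm `< 1`, so `h (ψ γ s) ∉ K`, `ρ (h (ψ γ s)) = g (ψ γ s) = exp (I u s) = ρ (Φ (u s))` (LimData.basic, Collar.left), so `h (ψ γ s) = Φ (u s)` (Collar.inj); and `ψ γ s ∉ O` (on `O` `‖g‖ = 1`), so `ht = h` there.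
Continuity of `q` at the end points: near `s = 0`, `im u s` is close to `τ > 0`, so `q s = Φ (u s)`.
`approx`: `ψ (γ s)`, `0 < s < N`, stays in a compact subset `Q'` of `Ω` (`StripG.cpt` near the ends, continuity elsewhere). `ρ (hj n ·)/g → 1` uniformly on `Q' ∩ {g ≠ 0}`: `|g| ≥ c` there since `|g| = exp (- im u)` and `im u < τ` is bounded.
Put `un n s = u s - I * χ s * log (ρ (hj n (ψ γ s)) / g (ψ γ s))` with a continuous cut-off `χ` (`0` near the ends where `im u > 0`, `1` on the rest; choose `0 < a1 < a2`, `χ = 0` on `[0,a1]`, `1` on `[a2, N - a2]`, `im u > c` on `[0,a2]`) and principal logarithm (for `n` large the quotient is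
within `1/2` of `1`; for the finitely many small `n` take `un n = u + I`-type constants, e.g. reindex the sequence). `im (un n s) = (1-χ) im u + χ (-log |ρ (hj n ..)|) > 0`.
Where `χ = 1`: `exp (I un) = ρ (hj n ..) = ρ (Φ (un))`, so `Φ (un n s) = hj n (ψ γ s)`, and `hj n → h` uniformly on `Q'`, `h = ht` off `O`: for `s n → s`: `Φ (un n (s n)) → h (ψ γ s) = q s`. Where `im u s > 0`: `un → u` uniformly and `Φ` continuous at `u s` gives `Φ (un n (s n)) → Φ (u s) = q s`. -/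

open Complex MeasureTheory Set Filter Topology Metric intervalIntegral
open scoped ENNReal

namespace CF6

theorem n3b_psi {T : ℝ} {A : Set ℂ} {ψ : ℂ → ℂ} (h : Chart (strip T) A ψ) :
    ContinuousOn ψ (strip T) := by
  rcases h.conf with h1 | h1
  · exact h1.continuousOn
  · have h2 := h1.continuousOn
    have h3 : ContinuousOn (fun z => (fun z => ψ ((starRingEnd ℂ) z)) ((starRingEnd ℂ) z))
        (strip T) :=
      h2.comp (Complex.continuous_conj.continuousOn) (fun z hz => ⟨z, hz, rfl⟩)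
    refine h3.congr (fun z _ => ?_)
    simp

theorem n3b_eqPhi {K : Set ℂ} {Φ ρ : ℂ → ℂ} (hK : Collar K Φ ρ) {w u : ℂ} (hw : w ∉ K)
    (hu : u ∈ UHP) (h : ρ w = exp (I * u)) : w = Φ u :=
  hK.inj hw (hK.mem u hu) (by rw [h, hK.left u hu])

theorem n3b_norm (u : ℂ) : ‖exp (I * u)‖ = Real.exp (-u.im) := by
  rw [Complex.norm_exp]
  simp

theorem n3b_UHPopen : IsOpen UHP := isOpen_lt continuous_const Complex.continuous_im

theorem n3b_PhiCont {K : Set ℂ} {Φ ρ : ℂ → ℂ} (hK : Collar K Φ ρ) {u : ℂ} (hu : u ∈ UHP) :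
    ContinuousAt Φ u :=
  hK.dPhi.continuousOn.continuousAt (n3b_UHPopen.mem_nhds hu)

theorem n3b_exp_log {a u : ℂ} (ha : a ≠ 0) :
    exp (I * (u - I * log (a / exp (I * u)))) = a := by
  have he : exp (I * u) ≠ 0 := Complex.exp_ne_zero _
  have e1 : I * (u - I * log (a / exp (I * u))) = I * u + log (a / exp (I * u)) := by
    have : I * I = -1 := Complex.I_mul_I
    linear_combination (-log (a / exp (I * u))) * this
  rw [e1, Complex.exp_add, Complex.exp_log (div_ne_zero ha he)]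
  field_simp

theorem n3b_inner {Ω K : Set ℂ} {Φ ρ h g : ℂ → ℂ} {hj : ℕ → ℂ → ℂ} (hK : Collar K Φ ρ)
    (lim : LimData Ω K ρ h g hj) {x u0 : ℂ} (hx : x ∈ Ω) (hu : u0 ∈ UHP)
    (hg : g x = exp (I * u0)) : h x = Φ u0 := by
  have he : exp (I * u0) ≠ 0 := Complex.exp_ne_zero _
  have h1 : Tendsto (fun j => ρ (hj j x)) atTop (𝓝 (exp (I * u0))) := by
    rw [← hg]
    exact lim.glim.tendsto_at hx
  have h2 : Tendsto (fun j => hj j x) atTop (𝓝 (h x)) := lim.lim.tendsto_at hx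
  have h3 : Tendsto (fun j => ρ (hj j x) / exp (I * u0)) atTop (𝓝 1) := by
    have := h1.div_const (exp (I * u0))
    rwa [div_self he] at this
  have h4 : Tendsto (fun j => u0 - I * log (ρ (hj j x) / exp (I * u0))) atTop (𝓝 u0) := by
    have h5 := ((continuousAt_clog Complex.one_mem_slitPlane).tendsto.comp h3)
    have h6 := (h5.const_mul I).const_sub u0
    simpa using h6
  have h5 : ∀ᶠ j in atTop, hj j x = Φ (u0 - I * log (ρ (hj j x) / exp (I * u0))) := by
    have ev1 : ∀ᶠ j in atTop, u0 - I * log (ρ (hj j x) / exp (I * u0)) ∈ UHP :=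
      h4.eventually (n3b_UHPopen.mem_nhds hu)
    have ev2 : ∀ᶠ j in atTop, ρ (hj j x) ≠ 0 := h1.eventually_ne he
    filter_upwards [ev1, ev2] with j p1 p2
    exact n3b_eqPhi hK (lim.avoid j hx) p1 (n3b_exp_log p2).symm
  have h6 : Tendsto (fun j => Φ (u0 - I * log (ρ (hj j x) / exp (I * u0)))) atTop (𝓝 (Φ u0)) :=
    (n3b_PhiCont hK hu).tendsto.comp h4
  exact tendsto_nhds_unique h2 (h6.congr' (h5.mono (fun j hj => hj.symm)))

theorem n3b_log_bound {a e : ℂ} {ε : ℝ} (he : e ≠ 0) (h : ‖a - e‖ ≤ ε * ‖e‖) (hε : ε ≤ 1 / 2) :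
    ‖log (a / e)‖ ≤ 3 / 2 * ε ∧ a / e ∈ slitPlane := by
  have hn : ‖a / e - 1‖ ≤ ε := by
    have e1 : a / e - 1 = (a - e) / e := by field_simp
    rw [e1, norm_div, div_le_iff₀ (norm_pos_iff.2 he)]
    exact h
  have h1 : a / e = 1 + (a / e - 1) := by ring
  constructor
  · rw [h1]
    have := Complex.norm_log_one_add_half_le_self (z := a / e - 1) (hn.trans hε)
    exact this.trans (mul_le_mul_of_nonneg_left hn (by norm_num))
  · left
    have h2 := (abs_le.1 ((Complex.abs_re_le_norm (a / e - 1)).trans hn)).1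
    rw [Complex.sub_re, Complex.one_re] at h2
    linarith

theorem n3b_near {N : ℝ} {f : ℝ → ℝ} {c : ℝ} (hf : ContinuousOn f (Icc 0 N))
    {s : ℝ} (hs : s ∈ Icc 0 N) (h : c < f s) : ∀ᶠ r in 𝓝[Icc 0 N] s, c < f r :=
  (hf s hs).eventually (lt_mem_nhds h)

theorem pathData_of_strip {Ω K O A L : Set ℂ} {Φ ρ h g ht ψ G : ℂ → ℂ} {hj : ℕ → ℂ → ℂ}
    {τ α0 : ℝ → ℝ} {T : ℝ} (hK : Collar K Φ ρ) (lim : LimData Ω K ρ h g hj)
    (hn : Normal Ω K O h g ht) (hS : StripG Ω A L g τ T ψ G α0) (hAO : A ⊆ Ω) {c r : ℝ}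
    (hτ : Depth c r τ) {N : ℝ} {γ : ℝ → ℂ}
    (hN : 0 < N) (hγ : ContinuousOn γ (Icc 0 N)) (h0 : (γ 0).re = 0) (h1 : (γ N).re = 0)
    (hin : ∀ s ∈ Ioo 0 N, γ s ∈ strip T) :
    PathData Φ 0 N (fun s => G (γ s))
      (fun s => if 0 < s ∧ s < N then ht (ψ (γ s)) else Φ (G (γ s)))
      {s | s ∈ Ioo 0 N ∧ ψ (γ s) ∈ O} := by
  classical
  -- basic facts
  have hψ := n3b_psi hS.chart
  have hπ : (0 : ℝ) < 2 * Real.pi := by positivity
  have hψΩ : ∀ z ∈ strip T, ψ z ∈ Ω := by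
    intro z hz
    apply hAO
    rw [← hS.chart.image]
    exact ⟨z, hz, rfl⟩
  have hcl : ∀ s ∈ Icc 0 N, 0 ≤ (γ s).re ∧ (γ s).re < T := by
    intro s hs
    rcases eq_or_lt_of_le hs.1 with h | h
    · rw [← h, h0]; exact ⟨le_refl _, hS.Tpos⟩
    · rcases eq_or_lt_of_le hs.2 with h' | h'
      · rw [h', h1]; exact ⟨le_refl _, hS.Tpos⟩
      · exact ⟨(hin s ⟨h, h'⟩).1.le, (hin s ⟨h, h'⟩).2⟩
  have cu : ContinuousOn (fun s => G (γ s)) (Icc 0 N) :=
    hS.Gcont.comp hγ (fun s hs => hcl s hs)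
  have cim : ContinuousOn (fun s => (G (γ s)).im) (Icc 0 N) :=
    Complex.continuous_im.comp_continuousOn cu
  have hend : ∀ z : ℂ, z.re = 0 → 0 < (G z).im := by
    intro z hz
    have e1 : z = (z.im : ℂ) * I := by
      apply Complex.ext <;> simp [hz]
    rw [e1, hS.Gbd]
    have := hτ.pos (α0 z.im)
    simpa using this
  have m0 : (0 : ℝ) ∈ Icc 0 N := ⟨le_refl _, hN.le⟩
  have mN : N ∈ Icc 0 N := ⟨hN.le, le_refl _⟩
  have im00 : 0 < (G (γ 0)).im := hend _ h0
  have imN0 : 0 < (G (γ N)).im := hend _ h1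
  have im0 : ∀ s ∈ Icc 0 N, 0 ≤ (G (γ s)).im := by
    intro s hs
    rcases eq_or_lt_of_le hs.1 with h | h
    · rw [← h]; exact im00.le
    · rcases eq_or_lt_of_le hs.2 with h' | h'
      · rw [h']; exact imN0.le
      · exact hS.G0 _ (hin s ⟨h, h'⟩)
  have hIoo : ∀ s ∈ Icc 0 N, (G (γ s)).im = 0 → s ∈ Ioo 0 N := by
    intro s hs hz
    refine ⟨lt_of_le_of_ne hs.1 ?_, lt_of_le_of_ne hs.2 ?_⟩
    · rintro rfl; exact absurd hz im00.ne'
    · rintro rfl; exact absurd hz imN0.ne'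
  have hgexp : ∀ s ∈ Ioo 0 N, exp (I * G (γ s)) = g (ψ (γ s)) := fun s hs => hS.Gexp _ (hin s hs)
  have hwΩ : ∀ s ∈ Ioo 0 N, ψ (γ s) ∈ Ω := fun s hs => hψΩ _ (hin s hs)
  have cw : ContinuousOn (fun s => ψ (γ s)) (Ioo 0 N) :=
    hψ.comp (hγ.mono Ioo_subset_Icc_self) hin
  set q : ℝ → ℂ := fun s => if 0 < s ∧ s < N then ht (ψ (γ s)) else Φ (G (γ s)) with hq
  have q_in : ∀ s ∈ Ioo 0 N, q s = ht (ψ (γ s)) := fun s hs => if_pos hs
  have hON : ∀ s ∈ Ioo 0 N, 0 < (G (γ s)).im → ψ (γ s) ∉ O := by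
    intro s hs hp hO
    have e1 := hn.Og _ hO
    rw [← hgexp s hs, n3b_norm, Real.exp_eq_one_iff] at e1
    linarith
  have inner : ∀ s ∈ Icc 0 N, 0 < (G (γ s)).im → q s = Φ (G (γ s)) := by
    intro s hs hp
    by_cases hs' : 0 < s ∧ s < N
    · rw [q_in s hs', hn.eqh _ (hwΩ s hs') (hON s hs' hp)]
      exact n3b_inner hK lim (hwΩ s hs') hp (hgexp s hs').symm
    · exact if_neg hs'
  have hup : ∀ s ∈ Icc 0 N, 0 < (G (γ s)).im → ∀ᶠ r in 𝓝[Icc 0 N] s, q r = Φ (G (γ r)) := by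
    intro s hs hp
    filter_upwards [n3b_near cim hs hp, self_mem_nhdsWithin] with r hr hr'
    exact inner r hr' hr
  have cq : ContinuousOn q (Icc 0 N) := by
    intro s hs
    by_cases hp : 0 < (G (γ s)).im
    · have c1 : ContinuousWithinAt (fun r => Φ (G (γ r))) (Icc 0 N) s :=
        ContinuousAt.comp_continuousWithinAt (f := fun s => G (γ s)) (n3b_PhiCont hK hp) (cu s hs)
      exact c1.congr_of_eventuallyEq (hup s hs hp) (inner s hs hp)
    · have hs' := hIoo s hs (le_antisymm (not_lt.1 hp) (im0 s hs))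
      have c1 : ContinuousAt (fun r => ht (ψ (γ r))) s := by
        have c2 : ContinuousAt ht (ψ (γ s)) :=
          hn.cont.continuousAt (lim.Oopen.mem_nhds (hwΩ s hs'))
        exact ContinuousAt.comp (f := fun r => ψ (γ r)) c2
          (cw.continuousAt (isOpen_Ioo.mem_nhds hs'))
      have c3 : ContinuousAt q s := c1.congr (by
        filter_upwards [isOpen_Ioo.mem_nhds hs'] with r hr
        exact (q_in r hr).symm)
      exact c3.continuousWithinAt
  have hOopen : IsOpen {s | s ∈ Ioo 0 N ∧ ψ (γ s) ∈ O} :=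
    cw.isOpen_inter_preimage isOpen_Ioo hn.Oopen
  have hOu : ∀ s ∈ {s | s ∈ Ioo 0 N ∧ ψ (γ s) ∈ O}, (G (γ s)).im = 0 := by
    rintro s ⟨hs, hO⟩
    by_contra hne
    exact hON s hs (lt_of_le_of_ne (im0 s (Ioo_subset_Icc_self hs)) (Ne.symm hne)) hO
  have hOconst : ∀ s ∈ {s | s ∈ Ioo 0 N ∧ ψ (γ s) ∈ O}, ∀ᶠ s' in 𝓝 s,
      (fun s => G (γ s)) s' = (fun s => G (γ s)) s ∧ q s' = q s := by
    rintro s ⟨hs, hO⟩
    have cws : ContinuousAt (fun r => ψ (γ r)) s := cw.continuousAt (isOpen_Ioo.mem_nhds hs)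
    have ev1 : ∀ᶠ s' in 𝓝 s, g (ψ (γ s')) = g (ψ (γ s)) ∧ ht (ψ (γ s')) = ht (ψ (γ s)) :=
      cws.eventually (hn.Oconst _ hO)
    have cus : ContinuousAt (fun r => G (γ r)) s :=
      cu.continuousAt (Icc_mem_nhds hs.1 hs.2)
    have ev2 : ∀ᶠ s' in 𝓝 s, dist (G (γ s')) (G (γ s)) < 2 * Real.pi :=
      cus.eventually (Metric.ball_mem_nhds _ hπ)
    filter_upwards [ev1, ev2, isOpen_Ioo.mem_nhds hs] with r hr1 hr2 hr3
    refine ⟨?_, ?_⟩
    · have e1 : exp (I * G (γ r)) = exp (I * G (γ s)) := by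
        rw [hgexp r hr3, hgexp s hs, hr1.1]
      rw [Complex.exp_eq_exp_iff_exists_int] at e1
      obtain ⟨k, hk⟩ := e1
      have e2 : G (γ r) = G (γ s) + k * (2 * Real.pi) := by
        have hI : I ≠ 0 := Complex.I_ne_zero
        have : I * G (γ r) = I * (G (γ s) + k * (2 * Real.pi)) := by
          rw [hk]; ring
        exact mul_left_cancel₀ hI this
      have e3 : k = 0 := by
        rw [e2, dist_eq_norm, add_sub_cancel_left, norm_mul] at hr2
        have e4 : ‖(2 * (Real.pi : ℂ))‖ = 2 * Real.pi := by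
          rw [norm_mul]
          simp [abs_of_pos Real.pi_pos]
        rw [e4] at hr2
        have e5 : ‖(k : ℂ)‖ < 1 := by
          by_contra hge
          rw [not_lt] at hge
          nlinarith
        rw [Complex.norm_intCast] at e5
        have e6 : |k| < 1 := by exact_mod_cast e5
        rwa [Int.abs_lt_one_iff] at e6
      show G (γ r) = G (γ s)
      rw [e2, e3]
      simp
    · rw [q_in r hr3, q_in s hs, hr1.2]
  refine ⟨hN.le, cu, cq, im0, inner, hOopen, fun s hs => hs.1, hOu, hOconst, ?_⟩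
  -- the compact set
  obtain ⟨Q, hQΩ, hQc, d, hd, hQ⟩ := hS.cpt
  obtain ⟨Q', hQ'Ω, hQ'c, hQ'⟩ : ∃ Q' ⊆ Ω, IsCompact Q' ∧ ∀ s ∈ Ioo 0 N, ψ (γ s) ∈ Q' := by
    have cre : ContinuousOn (fun s => (γ s).re) (Icc 0 N) :=
      Complex.continuous_re.comp_continuousOn hγ
    have ev0 : ∀ᶠ r in 𝓝[Icc 0 N] 0, (γ r).re < d :=
      (cre 0 m0).eventually (gt_mem_nhds (by show (γ 0).re < d; rw [h0]; exact hd))
    have evN : ∀ᶠ r in 𝓝[Icc 0 N] N, (γ r).re < d :=
      (cre N mN).eventually (gt_mem_nhds (by show (γ N).re < d; rw [h1]; exact hd))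
    rw [eventually_nhdsWithin_iff, Metric.eventually_nhds_iff] at ev0 evN
    obtain ⟨δ0, hδ0, hd0⟩ := ev0
    obtain ⟨δN, hδN, hdN⟩ := evN
    have hsub : Icc (min (δ0 / 2) (N / 2)) (N - min (δN / 2) (N / 2)) ⊆ Ioo 0 N := by
      intro s hs
      have p1 : 0 < min (δ0 / 2) (N / 2) := lt_min (by linarith) (by linarith)
      have p2 : 0 < min (δN / 2) (N / 2) := lt_min (by linarith) (by linarith)
      exact ⟨lt_of_lt_of_le p1 hs.1, lt_of_le_of_lt hs.2 (by linarith)⟩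
    refine ⟨Q ∪ (fun s => ψ (γ s)) '' Icc (min (δ0 / 2) (N / 2)) (N - min (δN / 2) (N / 2)), ?_,
      hQc.union (isCompact_Icc.image_of_continuousOn (cw.mono hsub)), ?_⟩
    · refine Set.union_subset hQΩ ?_
      rintro _ ⟨s, hs, rfl⟩
      exact hwΩ s (hsub hs)
    · intro s hs
      have hsI : s ∈ Icc 0 N := Ioo_subset_Icc_self hs
      by_cases ha : s < min (δ0 / 2) (N / 2)
      · left
        refine hQ _ (hin s hs) (hd0 ?_ hsI)
        rw [Real.dist_eq, sub_zero, abs_of_pos hs.1]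
        have := min_le_left (δ0 / 2) (N / 2)
        linarith
      · by_cases hb : N - min (δN / 2) (N / 2) < s
        · left
          refine hQ _ (hin s hs) (hdN ?_ hsI)
          rw [Real.dist_eq, abs_sub_comm, abs_of_pos (by linarith [hs.2])]
          have := min_le_left (δN / 2) (N / 2)
          linarith
        · right
          exact ⟨s, ⟨not_lt.1 ha, not_lt.1 hb⟩, rfl⟩
  have ulim : TendstoUniformlyOn hj h atTop Q' :=
    (tendstoLocallyUniformlyOn_iff_forall_isCompact lim.Oopen).1 lim.lim Q' hQ'Ω hQ'c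
  have uglim : TendstoUniformlyOn (fun j x => ρ (hj j x)) g atTop Q' :=
    (tendstoLocallyUniformlyOn_iff_forall_isCompact lim.Oopen).1 lim.glim Q' hQ'Ω hQ'c
  -- lower bound for the values of `g`
  obtain ⟨M, hM⟩ := isCompact_Icc.exists_bound_of_continuousOn cim
  have hlow : ∀ s ∈ Icc 0 N, Real.exp (-M) ≤ ‖exp (I * G (γ s))‖ := by
    intro s hs
    rw [n3b_norm]
    apply Real.exp_le_exp.2
    have := hM s hs
    rw [Real.norm_eq_abs, abs_of_nonneg (im0 s hs)] at this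
    linarith
  -- the quotients
  have hclose : ∀ ε > (0 : ℝ), ∀ᶠ n in atTop, ∀ s ∈ Ioo 0 N,
      ‖ρ (hj n (ψ (γ s))) - exp (I * G (γ s))‖ ≤ ε * ‖exp (I * G (γ s))‖ := by
    intro ε hε
    have h5 := (Metric.tendstoUniformlyOn_iff.1 uglim) (ε * Real.exp (-M)) (by positivity)
    filter_upwards [h5] with n hn5 s hs
    have h6 := (hn5 _ (hQ' s hs)).le
    rw [dist_comm, dist_eq_norm, ← hgexp s hs] at h6
    exact h6.trans (mul_le_mul_of_nonneg_left (hlow s (Ioo_subset_Icc_self hs)) hε.le)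
  obtain ⟨n0, hn0⟩ := eventually_atTop.1 (hclose (1 / 2) (by norm_num))
  set c0 : ℝ := min (G (γ 0)).im (G (γ N)).im / 2 with hc0
  have hc0pos : 0 < c0 := half_pos (lt_min im00 imN0)
  have hc00 : c0 < (G (γ 0)).im := by
    have := min_le_left (G (γ 0)).im (G (γ N)).im
    have := lt_min im00 imN0
    linarith
  have hc0N : c0 < (G (γ N)).im := by
    have := min_le_right (G (γ 0)).im (G (γ N)).im
    have := lt_min im00 imN0
    linarith
  let χ : ℝ → ℝ := fun s => max 0 (min 1 (2 - 2 * (G (γ s)).im / c0))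
  have χ0 : ∀ s, 0 ≤ χ s := fun s => le_max_left _ _
  have χ1 : ∀ s, χ s ≤ 1 := fun s => max_le (by norm_num) (min_le_left _ _)
  have χzero : ∀ s, c0 ≤ (G (γ s)).im → χ s = 0 := by
    intro s hs
    have h5 : 2 * (G (γ s)).im / c0 ≥ 2 := by
      rw [ge_iff_le, le_div_iff₀ hc0pos]; linarith
    exact max_eq_left ((min_le_right _ _).trans (by linarith))
  have χone : ∀ s, (G (γ s)).im ≤ c0 / 2 → χ s = 1 := by
    intro s hs
    have h5 : 2 * (G (γ s)).im / c0 ≤ 1 := by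
      rw [div_le_iff₀ hc0pos]; linarith
    show max 0 (min 1 (2 - 2 * (G (γ s)).im / c0)) = 1
    rw [min_eq_left (by linarith)]
    norm_num
  have χpos : ∀ s ∈ Icc 0 N, χ s = 0 → 0 < (G (γ s)).im := by
    intro s hs h5
    by_contra hp
    rw [χone s (by linarith)] at h5
    exact one_ne_zero h5
  have cχ : ContinuousOn χ (Icc 0 N) := by
    show ContinuousOn (fun s => max 0 (min 1 (2 - 2 * (G (γ s)).im / c0))) (Icc 0 N)
    have c1 : ContinuousOn (fun s => 2 - 2 * (G (γ s)).im / c0) (Icc 0 N) :=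
      continuousOn_const.sub ((continuousOn_const.mul cim).div_const _)
    exact continuousOn_const.sup (continuousOn_const.inf c1)
  let R : ℕ → ℝ → ℂ := fun n s => log (ρ (hj n (ψ (γ s))) / exp (I * G (γ s)))
  let un : ℕ → ℝ → ℂ := fun n s => if n < n0 then G (γ s) + I else G (γ s) - I * (χ s * R n s)
  have un_ge : ∀ n, n0 ≤ n → ∀ s, un n s = G (γ s) - I * (χ s * R n s) :=
    fun n hn5 s => if_neg (not_lt.2 hn5)
  have un_lt : ∀ n, n < n0 → ∀ s, un n s = G (γ s) + I := fun n hn5 s => if_pos hn5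
  have hρball : ∀ n, ∀ s ∈ Ioo 0 N, ‖ρ (hj n (ψ (γ s)))‖ < 1 := by
    intro n s hs
    have := hK.maps (lim.avoid n (hwΩ s hs))
    rwa [mem_ball_zero_iff] at this
  have hρne : ∀ n, n0 ≤ n → ∀ s ∈ Ioo 0 N, ρ (hj n (ψ (γ s))) ≠ 0 := by
    intro n hn5 s hs hz
    have h6 := hn0 n hn5 s hs
    rw [hz, zero_sub, norm_neg] at h6
    have h7 : 0 < ‖exp (I * G (γ s))‖ := norm_pos_iff.2 (Complex.exp_ne_zero _)
    linarith
  have hRre : ∀ n, n0 ≤ n → ∀ s ∈ Ioo 0 N,
      (R n s).re = Real.log ‖ρ (hj n (ψ (γ s)))‖ + (G (γ s)).im := by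
    intro n hn5 s hs
    show (log (ρ (hj n (ψ (γ s))) / exp (I * G (γ s)))).re = _
    rw [Complex.log_re, norm_div, Real.log_div (norm_ne_zero_iff.2 (hρne n hn5 s hs))
      (norm_ne_zero_iff.2 (Complex.exp_ne_zero _)), n3b_norm, Real.log_exp]
    ring
  have un_im : ∀ n, n0 ≤ n → ∀ s, (un n s).im = (G (γ s)).im - χ s * (R n s).re := by
    intro n hn5 s
    rw [un_ge n hn5 s]
    simp
  have un_pos : ∀ n, ∀ s ∈ Icc 0 N, 0 < (un n s).im := by
    intro n s hs
    by_cases hn5 : n < n0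
    · rw [un_lt n hn5 s]
      have := im0 s hs
      simp only [Complex.add_im, Complex.I_im]
      linarith
    · rw [not_lt] at hn5
      rw [un_im n hn5 s]
      by_cases hχ : χ s = 0
      · rw [hχ, zero_mul, sub_zero]
        exact χpos s hs hχ
      · have hsIoo : s ∈ Ioo 0 N := by
          refine ⟨lt_of_le_of_ne hs.1 ?_, lt_of_le_of_ne hs.2 ?_⟩
          · rintro rfl; exact hχ (χzero _ hc00.le)
          · rintro rfl; exact hχ (χzero _ hc0N.le)
        rw [hRre n hn5 s hsIoo]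
        have h7 : Real.log ‖ρ (hj n (ψ (γ s)))‖ < 0 :=
          Real.log_neg (norm_pos_iff.2 (hρne n hn5 s hsIoo)) (hρball n s hsIoo)
        have h8 : 0 < χ s := lt_of_le_of_ne (χ0 s) (Ne.symm hχ)
        have h9 := im0 s hs
        have h10 := χ1 s
        nlinarith [mul_nonneg (sub_nonneg.2 h10) h9, mul_pos h8 (neg_pos.2 h7)]
  have hRbd : ∀ ε > (0 : ℝ), ε ≤ 1 / 2 → ∀ᶠ n in atTop, ∀ s ∈ Ioo 0 N, ‖R n s‖ ≤ 3 / 2 * ε := by
    intro ε hε hε2
    filter_upwards [hclose ε hε] with n hn5 s hs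
    exact (n3b_log_bound (Complex.exp_ne_zero _) (hn5 s hs) hε2).1
  have hunif : TendstoUniformlyOn un (fun s => G (γ s)) atTop (Icc 0 N) := by
    rw [Metric.tendstoUniformlyOn_iff]
    intro ε hε
    have hε' : 0 < min (ε / 2) (1 / 2) := lt_min (by linarith) (by norm_num)
    filter_upwards [hRbd _ hε' (min_le_right _ _), eventually_ge_atTop n0] with n hn5 hn6 s hs
    rw [un_ge n hn6 s, dist_eq_norm]
    have e1 : G (γ s) - (G (γ s) - I * (χ s * R n s)) = I * (χ s * R n s) := by ring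
    rw [e1, norm_mul, Complex.norm_I, one_mul, norm_mul, Complex.norm_real, Real.norm_eq_abs,
      abs_of_nonneg (χ0 s)]
    by_cases hsIoo : s ∈ Ioo 0 N
    · have h7 := hn5 s hsIoo
      have h8 := min_le_left (ε / 2) (1 / 2)
      have h9 := χ1 s
      have h10 := χ0 s
      have h11 := norm_nonneg (R n s)
      nlinarith
    · have hsc : c0 < (G (γ s)).im := by
        by_cases h5 : 0 < s
        · have h6 : s = N := by
            by_contra hne
            exact hsIoo ⟨h5, lt_of_le_of_ne hs.2 hne⟩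
          rw [h6]; exact hc0N
        · have h6 : s = 0 := le_antisymm (not_lt.1 h5) hs.1
          rw [h6]; exact hc00
      rw [χzero s hsc.le, zero_mul]
      exact hε
  have hhc : ContinuousOn h Ω :=
    lim.lim.continuousOn (Frequently.of_forall lim.chj)
  refine ⟨un, ?_, ?_, ?_⟩
  · intro n
    refine ⟨?_, un_pos n⟩
    by_cases hn5 : n < n0
    · have e1 : un n = fun s => G (γ s) + I := by
        funext s; exact un_lt n hn5 s
      rw [e1]
      exact cu.add continuousOn_const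
    · rw [not_lt] at hn5
      intro s hs
      by_cases hsIoo : s ∈ Ioo 0 N
      · have cR : ContinuousAt (R n) s := by
          have c1 : ContinuousAt (fun r => ψ (γ r)) s := cw.continuousAt (isOpen_Ioo.mem_nhds hsIoo)
          have c2 : ContinuousAt (hj n) (ψ (γ s)) :=
            (lim.chj n).continuousAt (lim.Oopen.mem_nhds (hwΩ s hsIoo))
          have c3 : ContinuousAt ρ (hj n (ψ (γ s))) :=
            hK.dRho.continuousOn.continuousAt
              (hK.closed.isOpen_compl.mem_nhds (lim.avoid n (hwΩ s hsIoo)))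
          have c4 : ContinuousAt (fun r => hj n (ψ (γ r))) s :=
            ContinuousAt.comp (f := fun r => ψ (γ r)) c2 c1
          have c5 : ContinuousAt (fun r => ρ (hj n (ψ (γ r)))) s :=
            ContinuousAt.comp (f := fun r => hj n (ψ (γ r))) c3 c4
          have c6 : ContinuousAt (fun r => G (γ r)) s :=
            cu.continuousAt (Icc_mem_nhds hsIoo.1 hsIoo.2)
          have c7 : ContinuousAt (fun r => exp (I * G (γ r))) s :=
            (continuousAt_const.mul c6).cexp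
          have c8 := c5.div c7 (Complex.exp_ne_zero _)
          exact c8.clog (n3b_log_bound (Complex.exp_ne_zero _) (hn0 n hn5 s hsIoo) (le_refl _)).2
        have c9 : ContinuousWithinAt (fun s => G (γ s) - I * (χ s * R n s)) (Icc 0 N) s :=
          (cu s hs).sub (continuousWithinAt_const.mul
            ((Complex.continuous_ofReal.continuousAt.comp_continuousWithinAt (cχ s hs)).mul
              cR.continuousWithinAt))
        have e1 : un n = fun s => G (γ s) - I * (χ s * R n s) := by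
          funext s; exact un_ge n hn5 s
        rw [e1]
        exact c9
      · have hsc : c0 < (G (γ s)).im := by
          by_cases h5 : 0 < s
          · have h6 : s = N := by
              by_contra hne
              exact hsIoo ⟨h5, lt_of_le_of_ne hs.2 hne⟩
            rw [h6]; exact hc0N
          · have h6 : s = 0 := le_antisymm (not_lt.1 h5) hs.1
            rw [h6]; exact hc00
        refine (cu s hs).congr_of_eventuallyEq ?_ ?_
        · filter_upwards [n3b_near cim hs hsc] with r hr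
          rw [un_ge n hn5 r, χzero r hr.le]
          simp
        · rw [un_ge n hn5 s, χzero s hsc.le]
          simp
  · exact hunif
  · intro s hs hsO sn hsn hlim
    have hw : Tendsto sn atTop (𝓝[Icc 0 N] s) :=
      tendsto_nhdsWithin_iff.2 ⟨hlim, Eventually.of_forall hsn⟩
    by_cases hp : 0 < (G (γ s)).im
    · rw [inner s hs hp]
      exact (n3b_PhiCont hK hp).tendsto.comp (hunif.tendsto_comp (cu s hs) hw)
    · have him : (G (γ s)).im = 0 := le_antisymm (not_lt.1 hp) (im0 s hs)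
      have hs' := hIoo s hs him
      have hsO' : ψ (γ s) ∉ O := fun hO => hsO ⟨hs', hO⟩
      rw [q_in s hs', hn.eqh _ (hwΩ s hs') hsO']
      have ev1 : ∀ᶠ n in atTop, sn n ∈ Ioo 0 N := hlim.eventually (isOpen_Ioo.mem_nhds hs')
      have ev2 : ∀ᶠ n in atTop, (G (γ (sn n))).im < c0 / 2 := by
        have c1 := (cim s hs).tendsto.comp hw
        have h5 : (G (γ s)).im < c0 / 2 := by rw [him]; linarith
        exact c1.eventually (gt_mem_nhds h5)
      have hwlim : Tendsto (fun n => ψ (γ (sn n))) atTop (𝓝[Q'] (ψ (γ s))) := by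
        refine tendsto_nhdsWithin_iff.2 ⟨?_, ?_⟩
        · exact (cw.continuousAt (isOpen_Ioo.mem_nhds hs')).tendsto.comp hlim
        · filter_upwards [ev1] with n h5
          exact hQ' _ h5
      have hfin : Tendsto (fun n => hj n (ψ (γ (sn n)))) atTop (𝓝 (h (ψ (γ s)))) :=
        ulim.tendsto_comp ((hhc.mono hQ'Ω) _ (hQ' s hs')) hwlim
      refine hfin.congr' ?_
      filter_upwards [ev1, ev2, eventually_ge_atTop n0] with n h5 h6 h7
      refine n3b_eqPhi hK (lim.avoid n (hwΩ _ h5)) (un_pos n _ (hsn n)) ?_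
      rw [un_ge n h7, χone _ h6.le]
      have h8 := n3b_exp_log (u := G (γ (sn n))) (hρne n h7 _ h5)
      rw [← h8]
      simp only [Complex.ofReal_one, one_mul]
      rw [h8]

end CF6

end

section

/-! # Module N, row N3c: the chain inequality (hypothesis `P` of `elam_le`)

Apply `PushIneq` to the path of N3a with the path data of N3b, `q` as there; `‖q s' - q s‖ ≤ ∫ m` for `0 < s ≤ s' < N` from N3a (`H = ht ∘ ψ` on the strip), for the end points by continuity of `q` and of the integral.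
`om s` of `PushIneq` is `om (γ s)` with `om z = if im (G z) = 0 ∧ re (G z) ∈ E ∧ ψ z ∉ O then 1 + C ε else C` (at `s = 0, N`: `im (G (γ s)) = τ > 0`; there the value is `C` in both definitions). The condition on `p`: `im (u s) = 0`, `re (u s) ∈ E`: `g (ψ γ s) = exp (I re (u s))`, use `hp`.
Then N3a bounds `∫ om m`. (`PushIneq` wants the inequality for the function `om s` on all of `ℝ`; outside `[0,N]` define it by the case distinction.) Measurability of `om`: replace `om` by a Borel function on the strip: the set `{z ∈ strip | im (G z) = 0 ∧ re (G z) ∈ E ∧ ψ z ∉ O}` is Borel. -/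

open Complex MeasureTheory Set Filter Topology Metric intervalIntegral
open scoped ENNReal

namespace CF6

open Classical in
/-- the weight on the strip -/
noncomputable def omz (T : ℝ) (G ψ : ℂ → ℂ) (E : Set ℝ) (O : Set ℂ) (C ε : ℝ) (z : ℂ) : ℝ :=
  if z ∈ strip T ∧ (G z).im = 0 ∧ (G z).re ∈ E ∧ ψ z ∉ O then 1 + C * ε else C

theorem n3c_continuousOn {X A : Set ℂ} {ψ : ℂ → ℂ} (h : Chart X A ψ) : ContinuousOn ψ X := by
  rcases h.conf with h1 | h1
  · exact h1.continuousOn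
  · have h2 : ContinuousOn (fun z => (fun z => ψ ((starRingEnd ℂ) z)) ((starRingEnd ℂ) z)) X :=
      h1.continuousOn.comp Complex.continuous_conj.continuousOn (fun z hz => ⟨z, hz, rfl⟩)
    simpa using h2

theorem n3c_isOpen_strip (T : ℝ) : IsOpen (strip T) :=
  (isOpen_lt continuous_const Complex.continuous_re).inter
    (isOpen_lt Complex.continuous_re continuous_const)

theorem n3c_measurableSet {X Y : Set ℂ} {f : ℂ → ℂ} (hX : IsOpen X) (hf : ContinuousOn f X)
    (hY : IsClosed Y) : MeasurableSet (X ∩ f ⁻¹' Y) := by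
  have h1 : IsOpen (X ∩ f ⁻¹' Yᶜ) := hf.isOpen_inter_preimage hX hY.isOpen_compl
  have h2 : X ∩ f ⁻¹' Y = X \ (X ∩ f ⁻¹' Yᶜ) := by
    ext z
    simp only [mem_inter_iff, mem_preimage, Set.mem_sdiff, mem_compl_iff, not_and, not_not]
    tauto
  rw [h2]
  exact hX.measurableSet.diff h1.measurableSet

theorem measurable_omz {Ω A L : Set ℂ} {g ψ G : ℂ → ℂ} {τ α0 : ℝ → ℝ} {T : ℝ}
    (hS : StripG Ω A L g τ T ψ G α0) {E : Set ℝ} (hE : IsClosed E)
    (pE : ∀ x, x ∈ E ↔ x + 2 * Real.pi ∈ E) {O : Set ℂ} (hO : IsOpen O) (C ε : ℝ) :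
    Measurable (omz T G ψ E O C ε) ∧
      ∀ z, omz T G ψ E O C ε (z + 2 * Real.pi * I) = omz T G ψ E O C ε z := by
  classical
  constructor
  · have hGc : ContinuousOn G (strip T) := hS.Gcont.mono fun z hz => ⟨hz.1.le, hz.2⟩
    have hψc : ContinuousOn ψ (strip T) := n3c_continuousOn hS.chart
    have h1 : MeasurableSet (strip T ∩ G ⁻¹' {w | w.im = 0 ∧ w.re ∈ E}) :=
      n3c_measurableSet (n3c_isOpen_strip T) hGc
        ((isClosed_eq Complex.continuous_im continuous_const).inter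
          (hE.preimage Complex.continuous_re))
    have h2 : MeasurableSet (strip T ∩ ψ ⁻¹' Oᶜ) :=
      n3c_measurableSet (n3c_isOpen_strip T) hψc hO.isClosed_compl
    have h3 : MeasurableSet {z | z ∈ strip T ∧ (G z).im = 0 ∧ (G z).re ∈ E ∧ ψ z ∉ O} := by
      convert h1.inter h2 using 1
      ext z
      simp only [mem_ofPred_eq, mem_inter_iff, mem_preimage, mem_compl_iff]
      tauto
    exact Measurable.ite h3 measurable_const measurable_const
  · intro z
    unfold omz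
    have hre : (z + 2 * Real.pi * I).re = z.re := by simp
    have h1 : z + 2 * Real.pi * I ∈ strip T ↔ z ∈ strip T := by
      simp only [strip, mem_ofPred_eq, hre]
    by_cases hz : z ∈ strip T
    · have h2 : G (z + 2 * Real.pi * I) = G z + 2 * Real.pi := hS.Gper z hz.1.le hz.2
      have h3 : ψ (z + 2 * Real.pi * I) = ψ z := hS.chart.per z hz
      have h4 : (G (z + 2 * Real.pi * I)).im = (G z).im := by rw [h2]; simp
      have h5 : (G (z + 2 * Real.pi * I)).re = (G z).re + 2 * Real.pi := by rw [h2]; simp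
      have h6 : (z + 2 * Real.pi * I ∈ strip T ∧ (G (z + 2 * Real.pi * I)).im = 0 ∧
          (G (z + 2 * Real.pi * I)).re ∈ E ∧ ψ (z + 2 * Real.pi * I) ∉ O) ↔
          (z ∈ strip T ∧ (G z).im = 0 ∧ (G z).re ∈ E ∧ ψ z ∉ O) := by
        rw [h1, h3, h4, h5, ← pE]
      exact if_congr h6 rfl rfl
    · rw [if_neg (fun h => hz (h1.mp h.1)), if_neg (fun h => hz h.1)]

theorem n3c_limit {N : ℝ} {q : ℝ → ℂ} {m : ℝ → ℝ} (hq : ContinuousOn q (Icc 0 N))
    (hN : 0 < N) (hm : IntervalIntegrable m volume 0 N)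
    (h : ∀ s s', 0 < s → s ≤ s' → s' < N → ‖q s' - q s‖ ≤ ∫ t in s..s', m t)
    (s s' : ℝ) (h0 : 0 ≤ s) (hss : s ≤ s') (hs' : s' ≤ N) :
    ‖q s' - q s‖ ≤ ∫ t in s..s', m t := by
  rcases hss.eq_or_lt with rfl | hlt
  · simp
  set F : ℝ → ℝ := fun b => ∫ t in (0 : ℝ)..b, m t with hF
  have hFc : ContinuousOn F (Icc 0 N) := by
    have := intervalIntegral.continuousOn_primitive_interval' (μ := volume) hm
      (left_mem_uIcc : (0 : ℝ) ∈ uIcc 0 N)
    rwa [uIcc_of_le hN.le] at this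
  have hsub : ∀ a b, a ∈ Icc 0 N → b ∈ Icc 0 N → ∫ t in a..b, m t = F b - F a := by
    intro a b ha hb
    rw [hF]
    rw [intervalIntegral.integral_interval_sub_left]
    · exact hm.mono_set (by rw [uIcc_of_le hN.le, uIcc_of_le hb.1]; exact Icc_subset_Icc_right hb.2)
    · exact hm.mono_set (by rw [uIcc_of_le hN.le, uIcc_of_le ha.1]; exact Icc_subset_Icc_right ha.2)
  have hsI : s ∈ Icc 0 N := ⟨h0, hss.trans hs'⟩
  have hsI' : s' ∈ Icc 0 N := ⟨h0.trans hss, hs'⟩
  set d : ℝ := s' - s with hd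
  have hd0 : 0 < d := by linarith
  set a : ℕ → ℝ := fun k => s + d / 2 * (1 / ((k : ℝ) + 1)) with ha
  set b : ℕ → ℝ := fun k => s' - d / 2 * (1 / ((k : ℝ) + 1)) with hb
  have hk : ∀ k : ℕ, 0 < 1 / ((k : ℝ) + 1) ∧ 1 / ((k : ℝ) + 1) ≤ 1 := by
    intro k
    refine ⟨by positivity, ?_⟩
    rw [div_le_one (by positivity)]
    have : (0 : ℝ) ≤ k := Nat.cast_nonneg k
    linarith
  have ha1 : ∀ k, 0 < a k ∧ a k ≤ b k ∧ b k < N := by
    intro k
    obtain ⟨h1, h2⟩ := hk k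
    have h3 : 0 < d / 2 * (1 / ((k : ℝ) + 1)) := by positivity
    have h4 : d / 2 * (1 / ((k : ℝ) + 1)) ≤ d / 2 := by nlinarith
    refine ⟨?_, ?_, ?_⟩
    · simp only [ha]; linarith
    · simp only [ha, hb]; linarith
    · simp only [hb]; linarith
  have haI : ∀ k, a k ∈ Icc 0 N := fun k => ⟨(ha1 k).1.le, ((ha1 k).2.1.trans (ha1 k).2.2.le)⟩
  have hbI : ∀ k, b k ∈ Icc 0 N := fun k => ⟨((ha1 k).1.le.trans (ha1 k).2.1), (ha1 k).2.2.le⟩
  have hz : Tendsto (fun k : ℕ => d / 2 * (1 / ((k : ℝ) + 1))) atTop (𝓝 (d / 2 * 0)) :=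
    tendsto_const_nhds.mul tendsto_one_div_add_atTop_nhds_zero_nat
  have hat : Tendsto a atTop (𝓝 s) := by
    have := tendsto_const_nhds (x := s) |>.add hz
    simpa [ha] using this
  have hbt : Tendsto b atTop (𝓝 s') := by
    have := tendsto_const_nhds (x := s') |>.sub hz
    simpa [hb] using this
  have hat' : Tendsto a atTop (𝓝[Icc 0 N] s) :=
    tendsto_nhdsWithin_iff.mpr ⟨hat, Eventually.of_forall haI⟩
  have hbt' : Tendsto b atTop (𝓝[Icc 0 N] s') :=
    tendsto_nhdsWithin_iff.mpr ⟨hbt, Eventually.of_forall hbI⟩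
  have hq1 : Tendsto (fun k => ‖q (b k) - q (a k)‖) atTop (𝓝 ‖q s' - q s‖) :=
    (((hq s' hsI').tendsto.comp hbt').sub ((hq s hsI).tendsto.comp hat')).norm
  have hF1 : Tendsto (fun k => F (b k) - F (a k)) atTop (𝓝 (F s' - F s)) :=
    ((hFc s' hsI').tendsto.comp hbt').sub ((hFc s hsI).tendsto.comp hat')
  rw [hsub s s' hsI hsI']
  refine le_of_tendsto_of_tendsto' hq1 hF1 fun k => ?_
  rw [← hsub _ _ (haI k) (hbI k)]
  exact h _ _ (ha1 k).1 (ha1 k).2.1 (ha1 k).2.2

theorem chain_push {Ω K O A L : Set ℂ} {Φ ρ h g ht ψ G H Ht Hs fx fy : ℂ → ℂ} {hj : ℕ → ℂ → ℂ}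
    {τ α0 : ℝ → ℝ} {T : ℝ} (hK : Collar K Φ ρ) (lim : LimData Ω K ρ h g hj)
    (hn : Normal Ω K O h g ht) (hS : StripG Ω A L g τ T ψ G α0) (hAO : A ⊆ Ω) {c r : ℝ}
    (hτ : Depth c r τ) (hP : Pull (strip T) A ψ ht fx fy H Ht Hs) {Tg Θg : Set ℝ}
    (gl : GoodLines T H Ht Hs Tg Θg) {E : Set ℝ} (hE : IsClosed E)
    (pE : ∀ x, x ∈ E ↔ x + 2 * Real.pi ∈ E) {p : ℝ → ℂ}
    (hp : ∀ z ∈ Ω, ∀ x ∈ E, g z = exp (I * x) → ht z = p x) {C ε : ℝ} (hC : 1 ≤ C) (hε : 0 < ε)
    (push : PushIneq Φ E p τ C ε) (n : ℕ) (x : ℕ → ℝ × ℝ)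
    (hx : ∀ i ≤ n, (x i).1 ∈ Tg ∧ (x i).2 ∈ Θg)
    (hc : ∀ i < n, (x i).1 = (x (i + 1)).1 ∨ (x i).2 = (x (i + 1)).2) :
    |arcA Φ τ (α0 (x n).2) - arcA Φ τ (α0 (x 0).2)| ≤
      (∫ t in (0 : ℝ)..(x 0).1, omz T G ψ E O C ε (t + (x 0).2 * I) * ‖Ht (t + (x 0).2 * I)‖) +
      (∑ i ∈ Finset.range n, segCost (fun t θ => omz T G ψ E O C ε (t + θ * I) * ‖Ht (t + θ * I)‖)
        (fun t θ => omz T G ψ E O C ε (t + θ * I) * ‖Hs (t + θ * I)‖) (x i) (x (i + 1))) +
      ∫ t in (0 : ℝ)..(x n).1, omz T G ψ E O C ε (t + (x n).2 * I) * ‖Ht (t + (x n).2 * I)‖ := by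
  classical
  obtain ⟨N, γ, m, hN, hγ, hγ0, hγN, hin, hm0, hmi, hH, hom⟩ := chain_path gl n x hx hc
  have hCε : 0 < 1 + C * ε := by positivity
  have hfin := hom (omz T G ψ E O C ε) (measurable_omz hS hE pE hn.Oopen C ε).1
    (fun z => by
      unfold omz
      split_ifs
      · exact hCε.le
      · linarith)
    ⟨max (1 + C * ε) C, fun z => by
      unfold omz
      split_ifs
      · exact le_max_left _ _
      · exact le_max_right _ _⟩
  refine le_trans ?_ hfin
  have hG0 : G (γ 0) = α0 (x 0).2 + τ (α0 (x 0).2) * I := by rw [hγ0, hS.Gbd]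
  have hGN : G (γ N) = α0 (x n).2 + τ (α0 (x n).2) * I := by rw [hγN, hS.Gbd]
  have hre0 : (G (γ 0)).re = α0 (x 0).2 := by rw [hG0]; simp
  have him0 : (G (γ 0)).im = τ (α0 (x 0).2) := by rw [hG0]; simp
  have hreN : (G (γ N)).re = α0 (x n).2 := by rw [hGN]; simp
  have himN : (G (γ N)).im = τ (α0 (x n).2) := by rw [hGN]; simp
  have PD := pathData_of_strip hK lim hn hS hAO hτ hN hγ (by rw [hγ0]; simp) (by rw [hγN]; simp) hin
  set u : ℝ → ℂ := fun s => G (γ s) with hu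
  set q : ℝ → ℂ := fun s => if 0 < s ∧ s < N then ht (ψ (γ s)) else Φ (G (γ s)) with hq
  have hends : ∀ s ∈ Icc 0 N, s ∈ Ioo 0 N ∨ s = 0 ∨ s = N := by
    rintro s ⟨h1, h2⟩
    rcases h1.eq_or_lt with h3 | h3
    · exact Or.inr (Or.inl h3.symm)
    · rcases h2.eq_or_lt with h4 | h4
      · exact Or.inr (Or.inr h4)
      · exact Or.inl ⟨h3, h4⟩
  have hqH : ∀ s, 0 < s → s < N → q s = H (γ s) := by
    intro s h1 h2
    rw [hP.eq _ (hin s ⟨h1, h2⟩)]
    simp only [hq]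
    rw [if_pos ⟨h1, h2⟩]
  have hp1 := push 0 N u q {s | s ∈ Ioo 0 N ∧ ψ (γ s) ∈ O} m PD ?_ ?_ ?_ hmi hm0 ?_ ?_
    (fun s => if (u s).im = 0 ∧ (u s).re ∈ E ∧ s ∉ {s | s ∈ Ioo 0 N ∧ ψ (γ s) ∈ O} then
      1 + C * ε else C) (fun s hs => if_pos hs) (fun s hs => if_neg hs)
  · have hl : |arcA Φ τ (α0 (x n).2) - arcA Φ τ (α0 (x 0).2)| =
        |arcA Φ τ (u N).re - arcA Φ τ (u 0).re| := by
      simp only [hu]
      rw [hreN, hre0]
    rw [hl]
    refine hp1.trans_eq ?_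
    refine intervalIntegral.integral_congr_ae ?_
    filter_upwards [compl_mem_ae_iff.mpr (measure_singleton N)] with s hsN hsI
    rw [uIoc_of_le hN.le] at hsI
    have hsN' : s ≠ N := hsN
    have hs2 : s ∈ Ioo 0 N := ⟨hsI.1, lt_of_le_of_ne hsI.2 hsN'⟩
    have hcond : ((u s).im = 0 ∧ (u s).re ∈ E ∧ s ∉ {s | s ∈ Ioo 0 N ∧ ψ (γ s) ∈ O}) ↔
        (γ s ∈ strip T ∧ (G (γ s)).im = 0 ∧ (G (γ s)).re ∈ E ∧ ψ (γ s) ∉ O) := by
      simp only [mem_ofPred_eq, hu]
      have := hin s hs2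
      tauto
    unfold omz
    exact congrArg (fun t => t * m s) (if_congr hcond rfl rfl)
  · intro s hs
    rcases hends s hs with h1 | rfl | rfl
    · exact (hS.Glt _ (hin s h1)).le
    · simp only [hu]
      rw [him0, hre0]
    · simp only [hu]
      rw [himN, hreN]
  · simp only [hu]
    rw [him0, hre0]
  · simp only [hu]
    rw [himN, hreN]
  · intro s s' h0 hss hs'
    refine n3c_limit PD.cq hN hmi ?_ s s' h0 hss hs'
    intro a b ha hab hb
    rw [hqH a ha (hab.trans_lt hb), hqH b (ha.trans_le hab) hb]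
    exact hH a b ha hab hb
  · intro s hs hsO him hre
    rcases hends s hs with h1 | rfl | rfl
    · have hst := hin s h1
      have h2 : ψ (γ s) ∈ A := by
        rw [← hS.chart.image]
        exact ⟨_, hst, rfl⟩
      have h3 : g (ψ (γ s)) = exp (I * ((u s).re : ℂ)) := by
        rw [← hS.Gexp _ hst]
        congr 2
        apply Complex.ext
        · simp [hu]
        · simpa [hu] using him
      have h4 := hp _ (hAO h2) _ hre h3
      simp only [hq]
      rw [if_pos (And.intro h1.1 h1.2)]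
      exact h4
    · exfalso
      simp only [hu] at him
      rw [him0] at him
      exact (hτ.pos _).ne' him
    · exfalso
      simp only [hu] at him
      rw [himN] at him
      exact (hτ.pos _).ne' him

end CF6

end
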