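import Pool.Agent.Lib.MP_cf6b16_an.DefsB
import Pool.Agent.Lib.MP_cf6b16_an.N1
import Pool.Agent.Lib.MP_cf6b16_an.F2

section

/-! # Module H of MP_cf6b16_an (the cell of a point component): definitions -/

open Complex MeasureTheory Set Filter Topology Metric
open scoped ENNReal

namespace CF6

/-- the strip `0 < re z < T` (`e0 = exp (-T)`) or the right half plane (`e0 = 0`) -/
def pX (e0 : ℝ) : Set ℂ := {z | 0 < z.re ∧ e0 < Real.exp (-z.re)}

/-- the competitor: `im z + c` far from the circle, the (clamped) angle near the circle -/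
noncomputable def ptf (q : ℂ) (ρ0 c : ℝ) (Hb : ℂ → ℂ) (α : ℂ → ℝ) (z : ℂ) : ℝ :=
  min 1 (max 0 (2 * ‖Hb z - q‖ / ρ0 - 1)) *
      max (z.im + c - 2 * Real.pi) (min (z.im + c + 2 * Real.pi) (α z)) +
    (1 - min 1 (max 0 (2 * ‖Hb z - q‖ / ρ0 - 1))) * (z.im + c)

/-- the radial profile -/
noncomputable def prr (e0 t : ℝ) : ℝ := (Real.exp (-t) - e0) / (1 - e0)

/-- the cell map in strip coordinates -/
noncomputable def pF (q : ℂ) (ρ0 e0 T1 : ℝ) (α0 : ℝ → ℝ) (z : ℂ) : ℂ :=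
  q + ((ρ0 * prr e0 z.re : ℝ) : ℂ) * exp (I * ((lam T1 α0 (min z.re T1) z.im : ℝ) : ℂ))

end CF6

end

section

/-! # Module H, row H3a: continuous argument of a limit of nonvanishing functions

If `X'` is empty take `α = 0`. Fix `z0 ∈ X'`. `X` is open and convex, so simply connected: `Complex.exists_continuousOn_eqOn_exp_comp` (or a similar Mathlib theorem on continuous logarithms on simply connected, locally path connected spaces; it is used in A/A18b_ContLog.lean) gives continuous `u j` on `X` with `exp (u j z) = w j z`.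
Subtract a multiple of `2πi`: `|im (u j z0) - arg (W z0)| ≤ π + ...`; more precisely choose `m j : ℤ` such that `v j = u j - 2πi m j` satisfies `v j z0 → log (W z0)` (principal value; `w j z0 → W z0 ≠ 0`; e.g. `v j z0 = log (W z0) + log (w j z0 / W z0)` for large `j`).
Let `E = {z ∈ X' | v j z converges}`. For `z ∈ X'` there is a ball `B` around `z`, `B ⊆ X'`, with `‖W y - W z‖ < ‖W z‖/8` on `B` and `j0` with `‖w j y - W y‖ < ‖W z‖/8` for `y ∈ B`, `j ≥ j0` (local uniform convergence, shrink `B`). So `‖w j y / w j z - 1‖ < 1`... (all values are within `‖W z‖/4` of `W z`, the quotient is within `2/3` of `1`),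
and `v j y - v j z = log (w j y / w j z)` (principal value) for `y ∈ B`: the difference of both sides is continuous on `B` with values in `2πi ℤ`, `0` at `y = z`, `B` connected. The right hand side converges to `log (W y / W z)`. So `B ⊆ E` or `B ∩ E = ∅`: `E` is relatively clopen in `X'`, contains `z0`: `E = X'`
(`IsPreconnected` ...). `V z = lim v j z` satisfies `exp (V z) = W z` and `V y = V z + log (W y / W z)` on `B`, so `V` is continuous. `α = im V`: `W z = exp (V z) = exp (re V z) exp (I α z)`, `‖W z‖ = exp (re V z)`. -/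

open Complex MeasureTheory Set Filter Topology Metric
open scoped ENNReal

namespace CF6

private lemma h3a_const {B : Set ℂ} (hB : IsPreconnected B) {φ : ℂ → ℂ} (hc : ContinuousOn φ B)
    (h1 : ∀ y ∈ B, exp (φ y) = 1) {x y : ℂ} (hx : x ∈ B) (hy : y ∈ B) : φ x = φ y := by
  apply hB.induction₂ (fun x y => φ x = φ y) _ _ _ hx hy
  · intro x hx
    have h2 : ∀ᶠ y in 𝓝[B] x, dist (φ y) (φ x) < 1 := (hc x hx) (ball_mem_nhds _ one_pos)
    filter_upwards [h2, self_mem_nhdsWithin] with y hy hyB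
    obtain ⟨n, hn⟩ := exp_eq_one_iff.mp (h1 x hx)
    obtain ⟨m, hm⟩ := exp_eq_one_iff.mp (h1 y hyB)
    rw [hn, hm, dist_eq_norm, ← sub_mul, norm_mul] at hy
    have h3 : ‖(2 * Real.pi * I : ℂ)‖ = 2 * Real.pi := by
      rw [norm_mul, norm_I, mul_one, norm_mul, norm_real, Real.norm_of_nonneg Real.pi_pos.le]
      norm_num
    have h4 : ‖((m : ℂ) - n)‖ = |((m - n : ℤ) : ℝ)| := by
      rw [← Int.cast_sub, norm_intCast]
    rw [h3, h4] at hy
    have h5 : |((m - n : ℤ) : ℝ)| < 1 := by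
      have h6 := abs_nonneg ((m - n : ℤ) : ℝ)
      have h7 := Real.pi_gt_three
      nlinarith
    have h8 : m - n = 0 := by
      rw [← Int.cast_abs] at h5
      have h9 : |m - n| < 1 := by exact_mod_cast h5
      exact Int.abs_lt_one_iff.mp h9
    have h10 : m = n := by omega
    rw [hn, hm, h10]
  · intro x y z _ _ _ h2 h3; exact h2.trans h3
  · intro x y _ _ h2; exact h2.symm

/-- the local comparison -/
private lemma h3a_loc {X : Set ℂ} (hX : IsOpen X) {w v : ℕ → ℂ → ℂ} {W : ℂ → ℂ}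
    (cW : ContinuousOn W X) (cw : ∀ j, ContinuousOn (w j) X) (cv : ∀ j, ContinuousOn (v j) X)
    (hv : ∀ j, ∀ z ∈ X, exp (v j z) = w j z)
    (lim : TendstoLocallyUniformlyOn w W atTop X) {z : ℂ} (hz : z ∈ X) (hWz : W z ≠ 0) :
    ∃ r > 0, ball z r ⊆ X ∧ (∀ y ∈ ball z r, ‖W y - W z‖ < ‖W z‖ / 8) ∧
      ∀ᶠ j in atTop, ∀ y ∈ ball z r, v j y - v j z = log (w j y / w j z) := by
  have hW0 : 0 < ‖W z‖ := norm_pos_iff.mpr hWz
  have he : 0 < ‖W z‖ / 8 := by positivity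
  obtain ⟨t, ht, hlim⟩ := (Metric.tendstoLocallyUniformlyOn_iff.mp lim) (‖W z‖ / 8) he z hz
  rw [hX.nhdsWithin_eq hz] at ht
  have hc : ∀ᶠ y in 𝓝 z, dist (W y) (W z) < ‖W z‖ / 8 :=
    (cW.continuousAt (hX.mem_nhds hz)) (ball_mem_nhds _ he)
  obtain ⟨r, hr, hsub⟩ := Metric.mem_nhds_iff.mp (inter_mem (inter_mem ht (hX.mem_nhds hz)) hc)
  have hBX : ball z r ⊆ X := fun y hy => (hsub hy).1.2
  refine ⟨r, hr, hBX, fun y hy => ?_, ?_⟩
  · have := (hsub hy).2
    rwa [← dist_eq_norm]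
  · filter_upwards [hlim] with j hj
    have hzB : z ∈ ball z r := mem_ball_self hr
    have hclose : ∀ y ∈ ball z r, ‖w j y - W z‖ < ‖W z‖ / 4 := by
      intro y hy
      have h1 := hj y (hsub hy).1.1
      have h2 : dist (W y) (W z) < ‖W z‖ / 8 := (hsub hy).2
      rw [dist_comm, dist_eq_norm] at h1
      rw [dist_eq_norm] at h2
      calc ‖w j y - W z‖ = ‖(w j y - W y) + (W y - W z)‖ := by congr 1; ring
        _ ≤ ‖w j y - W y‖ + ‖W y - W z‖ := norm_add_le _ _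
        _ < ‖W z‖ / 4 := by linarith
    have hwz : 3 / 4 * ‖W z‖ ≤ ‖w j z‖ := by
      have h1 := hclose z hzB
      have h2 := norm_sub_norm_le (W z) (W z - w j z)
      rw [sub_sub_cancel, norm_sub_rev] at h2
      linarith
    have hwz0 : w j z ≠ 0 := by
      rw [← norm_pos_iff]; linarith
    have hq : ∀ y ∈ ball z r, ‖w j y / w j z - 1‖ < 1 := by
      intro y hy
      have h1 : w j y / w j z - 1 = (w j y - w j z) / w j z := by field_simp
      rw [h1, norm_div, div_lt_one (by linarith)]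
      have h2 := hclose y hy
      have h3 := hclose z hzB
      calc ‖w j y - w j z‖ = ‖(w j y - W z) - (w j z - W z)‖ := by congr 1; ring
        _ ≤ ‖w j y - W z‖ + ‖w j z - W z‖ := norm_sub_le _ _
        _ < ‖w j z‖ := by linarith
    have hsl : ∀ y ∈ ball z r, w j y / w j z ∈ slitPlane := by
      intro y hy
      have h1 := hq y hy
      left
      have h2 := (abs_le.mp ((abs_re_le_norm (w j y / w j z - 1)).trans h1.le)).1
      have h3 := abs_re_le_norm (w j y / w j z - 1)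
      rw [sub_re, one_re] at h3
      have h4 := (abs_lt.mp (lt_of_le_of_lt h3 h1)).1
      linarith
    set φ : ℂ → ℂ := fun y => v j y - v j z - log (w j y / w j z) with hφ
    have hcont : ContinuousOn φ (ball z r) := by
      apply ContinuousOn.sub
      · exact ((cv j).mono hBX).sub continuousOn_const
      · apply ContinuousOn.clog
        · exact ((cw j).mono hBX).div_const _
        · exact hsl
    have hone : ∀ y ∈ ball z r, exp (φ y) = 1 := by
      intro y hy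
      have h0 : w j y / w j z ≠ 0 := slitPlane_ne_zero (hsl y hy)
      have h1 : w j y ≠ 0 := fun h => h0 (by rw [h, zero_div])
      rw [hφ]
      simp only []
      rw [exp_sub, exp_sub, exp_log h0, hv j y (hBX hy), hv j z hz]
      exact div_self h0
    intro y hy
    have h1 := h3a_const (convex_ball z r).isPreconnected hcont hone hy hzB
    have h2 : φ z = 0 := by
      rw [hφ]; simp only []; rw [sub_self, div_self hwz0, log_one, sub_zero]
    rw [h2] at h1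
    exact sub_eq_zero.mp h1

theorem limit_arg {X X' : Set ℂ} (hX : IsOpen X) (cX : Convex ℝ X) (hX' : IsOpen X')
    (sub : X' ⊆ X) (conn : IsPreconnected X') {w : ℕ → ℂ → ℂ} {W : ℂ → ℂ}
    (cw : ∀ j, ContinuousOn (w j) X) (w0 : ∀ j, ∀ z ∈ X, w j z ≠ 0)
    (lim : TendstoLocallyUniformlyOn w W atTop X) (W0 : ∀ z ∈ X', W z ≠ 0) :
    ∃ α : ℂ → ℝ, ContinuousOn α X' ∧ ∀ z ∈ X', W z = ‖W z‖ * exp (I * α z) := by
  classical
  rcases X'.eq_empty_or_nonempty with hE | ⟨z0, hz0⟩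
  · exact ⟨fun _ => 0, continuousOn_const, fun z hz => by rw [hE] at hz; exact absurd hz (notMem_empty z)⟩
  have hz0X := sub hz0
  have hWc : ContinuousOn W X := lim.continuousOn (Frequently.of_forall cw)
  have hlimp : ∀ z ∈ X, Tendsto (fun j => w j z) atTop (𝓝 (W z)) := fun z hz => lim.tendsto_at hz
  -- logarithms
  have hex : ∀ j, ∃ u : ℂ → ℂ, ContinuousOn u X ∧ ∀ z ∈ X, exp (u z) = w j z := by
    intro j
    have hc : ContractibleSpace X := cX.contractibleSpace ⟨z0, hz0X⟩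
    have hs : IsSimplyConnected X := inferInstanceAs (SimplyConnectedSpace X)
    obtain ⟨u, hu, he⟩ := exists_continuousOn_eqOn_exp_comp hs hX (cw j) (by
      rintro ⟨y, hy, h0⟩; exact w0 j y hy h0)
    exact ⟨u, hu, fun z hz => he hz⟩
  choose u hu hue using hex
  set l : ℕ → ℂ := fun j => log (W z0) + log (w j z0 / W z0) with hl
  set v : ℕ → ℂ → ℂ := fun j z => u j z - u j z0 + l j with hv
  have hlexp : ∀ j, exp (l j) = w j z0 := by
    intro j
    have h1 : W z0 ≠ 0 := W0 z0 hz0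
    have h2 : w j z0 / W z0 ≠ 0 := div_ne_zero (w0 j z0 hz0X) h1
    rw [hl]; simp only []
    rw [exp_add, exp_log h1, exp_log h2]
    field_simp
  have hvc : ∀ j, ContinuousOn (v j) X := fun j => ((hu j).sub continuousOn_const).add continuousOn_const
  have hve : ∀ j, ∀ z ∈ X, exp (v j z) = w j z := by
    intro j z hz
    rw [hv]; simp only []
    rw [exp_add, exp_sub, hlexp, hue j z hz, hue j z0 hz0X]
    have := w0 j z0 hz0X
    field_simp
  have hl0 : Tendsto l atTop (𝓝 (log (W z0))) := by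
    have h1 : W z0 ≠ 0 := W0 z0 hz0
    have h2 : Tendsto (fun j => w j z0 / W z0) atTop (𝓝 1) := by
      have := (hlimp z0 hz0X).div_const (W z0)
      rwa [div_self h1] at this
    have h3 : Tendsto (fun j => log (w j z0 / W z0)) atTop (𝓝 0) := by
      have := (continuousAt_clog one_mem_slitPlane).tendsto.comp h2
      rwa [log_one] at this
    have := h3.const_add (log (W z0))
    rwa [add_zero] at this
  -- local differences
  have hloc : ∀ z ∈ X', ∀ᶠ y in 𝓝[X'] z, Tendsto (fun j => v j y - v j z) atTop (𝓝 (log (W y / W z))) := by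
    intro z hz
    obtain ⟨r, hr, hB, hBW, hj⟩ := h3a_loc hX hWc cw hvc hve lim (sub hz) (W0 z hz)
    have hr' : ball z r ∈ 𝓝[X'] z := mem_nhdsWithin_of_mem_nhds (ball_mem_nhds z hr)
    filter_upwards [hr'] with y hy
    have h1 : Tendsto (fun j => w j y / w j z) atTop (𝓝 (W y / W z)) :=
      (hlimp y (hB hy)).div (hlimp z (sub hz)) (W0 z hz)
    have h2 : W y / W z ∈ slitPlane := by
      left
      have h3 : W y / W z - 1 = (W y - W z) / W z := by
        have := W0 z hz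
        field_simp
      have h4 : ‖W y / W z - 1‖ < 1 := by
        have h5 : 0 < ‖W z‖ := norm_pos_iff.mpr (W0 z hz)
        rw [h3, norm_div, div_lt_one h5]
        linarith [hBW y hy]
      have h6 := abs_re_le_norm (W y / W z - 1)
      rw [sub_re, one_re] at h6
      have h7 := (abs_lt.mp (lt_of_le_of_lt h6 h4)).1
      linarith
    have h3 := (continuousAt_clog h2).tendsto.comp h1
    apply h3.congr'
    filter_upwards [hj] with j hj'
    exact (hj' y hy).symm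
  have hall : ∀ z ∈ X', ∃ d, Tendsto (fun j => v j z - v j z0) atTop (𝓝 d) := by
    intro z hz
    apply conn.induction₂ (fun x y => ∃ d, Tendsto (fun j => v j y - v j x) atTop (𝓝 d)) _ _ _ hz0 hz
    · intro x hx
      filter_upwards [hloc x hx] with y hy
      exact ⟨_, hy⟩
    · rintro x y z _ _ _ ⟨d, hd⟩ ⟨e, he⟩
      refine ⟨d + e, (hd.add he).congr fun j => ?_⟩
      ring
    · rintro x y _ _ ⟨d, hd⟩
      refine ⟨-d, hd.neg.congr fun j => ?_⟩
      ring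
  have hvz0 : Tendsto (fun j => v j z0) atTop (𝓝 (log (W z0))) := by
    refine hl0.congr fun j => ?_
    rw [hv]; simp only []; ring
  have hV : ∀ z ∈ X', ∃ V, Tendsto (fun j => v j z) atTop (𝓝 V) := by
    intro z hz
    obtain ⟨d, hd⟩ := hall z hz
    refine ⟨d + log (W z0), (hd.add hvz0).congr fun j => ?_⟩
    ring
  set V : ℂ → ℂ := fun z => if h : z ∈ X' then (hV z h).choose else 0 with hVd
  have hVt : ∀ z ∈ X', Tendsto (fun j => v j z) atTop (𝓝 (V z)) := by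
    intro z hz
    rw [hVd]
    simp only [hz, dite_true]
    exact (hV z hz).choose_spec
  have hVexp : ∀ z ∈ X', exp (V z) = W z := by
    intro z hz
    have h1 := (continuous_exp.tendsto (V z)).comp (hVt z hz)
    apply tendsto_nhds_unique h1
    refine (hlimp z (sub hz)).congr fun j => ?_
    exact (hve j z (sub hz)).symm
  have hVdiff : ∀ z ∈ X', ∀ᶠ y in 𝓝[X'] z, V y = V z + log (W y / W z) := by
    intro z hz
    filter_upwards [hloc z hz, self_mem_nhdsWithin] with y hy hyX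
    have h1 := (hVt y hyX).sub (hVt z hz)
    have h2 := tendsto_nhds_unique h1 hy
    rw [← h2]; ring
  have hVc : ContinuousOn V X' := by
    intro z hz
    have h1 : ContinuousWithinAt (fun y => V z + log (W y / W z)) X' z := by
      apply ContinuousWithinAt.add continuousWithinAt_const
      have h2 : ContinuousWithinAt (fun y => W y / W z) X' z :=
        ((hWc z (sub hz)).mono sub).div_const _
      apply ContinuousWithinAt.clog h2
      rw [div_self (W0 z hz)]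
      exact one_mem_slitPlane
    apply h1.congr_of_eventuallyEq (hVdiff z hz)
    rw [div_self (W0 z hz), log_one, add_zero]
  refine ⟨fun z => (V z).im, continuous_im.comp_continuousOn hVc, fun z hz => ?_⟩
  rw [← hVexp z hz, norm_exp, ofReal_exp, ← exp_add]
  congr 1
  conv_lhs => rw [← re_add_im (V z)]
  show ((V z).re : ℂ) + (V z).im * I = (V z).re + I * ((V z).im : ℂ)
  ring

end CF6

end

section

/-! # Module H, row H4a: the competitor, local estimate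

`χ z = min 1 (max 0 (2‖Hb z - q‖/ρ0 - 1))`, `k z = max (im z + c - 2π) (min (im z + c + 2π) (α z))`, `f = ptf .. = χ k + (1-χ)(im + c)`.
If `‖Hb z - q‖ < ρ0/2`: near `z` (in `D`) `χ = 0`, so `|f z1 - f z2| = |im z1 - im z2|`.
If `‖Hb z - q‖ ≥ ρ0/2`: for `z1, z2 ∈ D` near `z`: `‖Hb zj - q‖ ≥ ρ0/4` and (continuity of `α` at `z` within `D ∩ {Hb ≠ q}`) `|α z1 - α z2| ≤ π`. With `Rj = ‖Hb zj - q‖`, `aj = α zj`:
`‖R1 e^{i a1} - R2 e^{i a2}‖² = (R1 - R2)² + R1 R2 ‖e^{i a1} - e^{i a2}‖²`, so `‖Hb z1 - Hb z2‖ ≥ min R1 R2 * 2 |sin((a1 - a2)/2)| ≥ (ρ0/4) (2/π) |a1 - a2|` (Jordan: `Real.mul_le_sin`), i.e. `|a1 - a2| ≤ (2π/ρ0) ‖Hb z1 - Hb z2‖`.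
`|k z1 - k z2| ≤ |a1 - a2| + |im z1 - im z2|` (max, min are 1-Lipschitz: `|max a b - max a' b'| ≤ max ..`), `|χ z1 - χ z2| ≤ (2/ρ0)‖Hb z1 - Hb z2‖`, `|k z2 - (im z2 + c)| ≤ 2π`, `0 ≤ χ ≤ 1`.
`f z1 - f z2 = χ1 (k1 - k2) + (1 - χ1)(im z1 - im z2) + (χ1 - χ2)(k2 - im z2 - c)`, so `|f z1 - f z2| ≤ |im z1 - im z2| + (2π/ρ0 + 4π/ρ0) ‖Hb z1 - Hb z2‖` and `6π < 20`. -/

open Complex MeasureTheory Set Filter Topology Metric
open scoped ENNReal

namespace CF6

theorem h4a_polar {ρ0 R1 R2 a1 a2 : ℝ} (hρ : 0 < ρ0) (h1 : ρ0 / 4 ≤ R1) (h2 : ρ0 / 4 ≤ R2)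
    (ha : |a1 - a2| ≤ Real.pi) :
    |a1 - a2| ≤ 2 * Real.pi / ρ0 *
      ‖(R1 : ℂ) * exp (I * a1) - (R2 : ℂ) * exp (I * a2)‖ := by
  have hpi := Real.pi_pos
  have hsq : ‖(R1 : ℂ) * exp (I * a1) - (R2 : ℂ) * exp (I * a2)‖ ^ 2
      = (R1 - R2) ^ 2 + 2 * R1 * R2 * (1 - Real.cos (a1 - a2)) := by
    rw [mul_comm I (a1 : ℂ), mul_comm I (a2 : ℂ), ← Complex.normSq_eq_norm_sq,
      Complex.normSq_apply]
    simp only [Complex.sub_re, Complex.sub_im, Complex.mul_re, Complex.mul_im,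
      Complex.ofReal_re, Complex.ofReal_im, Complex.exp_ofReal_mul_I_re,
      Complex.exp_ofReal_mul_I_im, zero_mul, sub_zero, add_zero]
    rw [Real.cos_sub]
    have e1 := Real.sin_sq_add_cos_sq a1
    have e2 := Real.sin_sq_add_cos_sq a2
    linear_combination R1 ^ 2 * e1 + R2 ^ 2 * e2
  have hcos := Real.cos_le_one_sub_mul_cos_sq ha
  have hR1 : 0 < R1 := by linarith [div_pos hρ (by norm_num : (0 : ℝ) < 4)]
  have hR2 : 0 < R2 := by linarith [div_pos hρ (by norm_num : (0 : ℝ) < 4)]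
  have hprod : (ρ0 / 4) * (ρ0 / 4) ≤ R1 * R2 :=
    mul_le_mul h1 h2 (by positivity) hR1.le
  have hlow : (ρ0 / (2 * Real.pi)) ^ 2 * (a1 - a2) ^ 2 ≤
      ‖(R1 : ℂ) * exp (I * a1) - (R2 : ℂ) * exp (I * a2)‖ ^ 2 := by
    rw [hsq]
    have hd : 2 / Real.pi ^ 2 * (a1 - a2) ^ 2 ≤ 1 - Real.cos (a1 - a2) := by linarith
    have hd0 : 0 ≤ 2 / Real.pi ^ 2 * (a1 - a2) ^ 2 := by positivity
    have h3 : 2 * (ρ0 / 4 * (ρ0 / 4)) * (2 / Real.pi ^ 2 * (a1 - a2) ^ 2) ≤
        2 * (R1 * R2) * (1 - Real.cos (a1 - a2)) :=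
      mul_le_mul (by linarith) hd hd0 (by positivity)
    have h4 : 2 * (ρ0 / 4 * (ρ0 / 4)) * (2 / Real.pi ^ 2 * (a1 - a2) ^ 2) =
        (ρ0 / (2 * Real.pi)) ^ 2 * (a1 - a2) ^ 2 := by
      field_simp
      ring
    nlinarith [sq_nonneg (R1 - R2)]
  have h5 : ρ0 / (2 * Real.pi) * |a1 - a2| ≤
      ‖(R1 : ℂ) * exp (I * a1) - (R2 : ℂ) * exp (I * a2)‖ := by
    apply le_of_sq_le_sq _ (norm_nonneg _)
    rw [mul_pow, sq_abs]
    exact hlow
  have h6 : |a1 - a2| = 2 * Real.pi / ρ0 * (ρ0 / (2 * Real.pi) * |a1 - a2|) := by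
    field_simp
  rw [h6]
  exact mul_le_mul_of_nonneg_left h5 (by positivity)

theorem ptf_local {D : Set ℂ} {q : ℂ} {ρ0 : ℝ} (hρ : 0 < ρ0) {Hb : ℂ → ℂ} {α : ℂ → ℝ}
    (cH : ContinuousOn Hb D) (cα : ContinuousOn α {z | z ∈ D ∧ Hb z ≠ q})
    (hα : ∀ z ∈ D, Hb z ≠ q → Hb z = q + ‖Hb z - q‖ * exp (I * α z)) (c : ℝ) {z : ℂ}
    (hz : z ∈ D) :
    ∃ δ > (0 : ℝ), ∀ z1 ∈ D, ∀ z2 ∈ D, dist z1 z < δ → dist z2 z < δ →
      |ptf q ρ0 c Hb α z1 - ptf q ρ0 c Hb α z2| ≤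
        20 / ρ0 * ‖Hb z1 - Hb z2‖ + |z1.im - z2.im| := by
  have hpi := Real.pi_pos
  rcases lt_or_ge ‖Hb z - q‖ (ρ0 / 2) with hlt | hge
  · obtain ⟨δ, hδ, hδ'⟩ := Metric.continuousWithinAt_iff.1 (cH z hz)
      (ρ0 / 2 - ‖Hb z - q‖) (by linarith)
    refine ⟨δ, hδ, ?_⟩
    intro z1 h1 z2 h2 d1 d2
    have key : ∀ w ∈ D, dist w z < δ → ptf q ρ0 c Hb α w = w.im + c := by
      intro w hw dw
      have hd := hδ' hw dw
      rw [dist_eq_norm] at hd
      have hn : ‖Hb w - q‖ ≤ ‖Hb w - Hb z‖ + ‖Hb z - q‖ := by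
        have : Hb w - q = (Hb w - Hb z) + (Hb z - q) := by ring
        rw [this]; exact norm_add_le _ _
      have hn2 : ‖Hb w - q‖ < ρ0 / 2 := by linarith
      have hle : 2 * ‖Hb w - q‖ / ρ0 - 1 ≤ 0 := by
        rw [sub_nonpos, div_le_one hρ]
        linarith
      unfold ptf
      rw [max_eq_left hle, min_eq_right zero_le_one]
      ring
    rw [key z1 h1 d1, key z2 h2 d2]
    have : z1.im + c - (z2.im + c) = z1.im - z2.im := by ring
    rw [this]
    have : 0 ≤ 20 / ρ0 * ‖Hb z1 - Hb z2‖ := by positivity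
    linarith
  · have hzq : Hb z ≠ q := by
      intro h
      rw [h, sub_self, norm_zero] at hge
      linarith
    obtain ⟨δ1, hδ1, hδ1'⟩ := Metric.continuousWithinAt_iff.1 (cH z hz)
      (ρ0 / 4) (by linarith)
    obtain ⟨δ2, hδ2, hδ2'⟩ := Metric.continuousWithinAt_iff.1 (cα z ⟨hz, hzq⟩)
      (Real.pi / 2) (by linarith)
    refine ⟨min δ1 δ2, lt_min hδ1 hδ2, ?_⟩
    intro z1 h1 z2 h2 d1 d2
    have keyR : ∀ w ∈ D, dist w z < min δ1 δ2 → ρ0 / 4 ≤ ‖Hb w - q‖ := by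
      intro w hw dw
      have hd := hδ1' hw (lt_of_lt_of_le dw (min_le_left _ _))
      rw [dist_eq_norm] at hd
      have hn : ‖Hb z - q‖ ≤ ‖Hb w - Hb z‖ + ‖Hb w - q‖ := by
        have : Hb z - q = -(Hb w - Hb z) + (Hb w - q) := by ring
        rw [this]
        refine (norm_add_le _ _).trans ?_
        rw [norm_neg]
      linarith
    have keyq : ∀ w ∈ D, dist w z < min δ1 δ2 → Hb w ≠ q := by
      intro w hw dw h
      have := keyR w hw dw
      rw [h, sub_self, norm_zero] at this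
      linarith
    have keya : ∀ w ∈ D, dist w z < min δ1 δ2 → |α w - α z| < Real.pi / 2 := by
      intro w hw dw
      have hd := hδ2' (⟨hw, keyq w hw dw⟩ : w ∈ {z | z ∈ D ∧ Hb z ≠ q})
        (lt_of_lt_of_le dw (min_le_right _ _))
      rwa [Real.dist_eq] at hd
    have hR1 := keyR z1 h1 d1
    have hR2 := keyR z2 h2 d2
    have ha1 := keya z1 h1 d1
    have ha2 := keya z2 h2 d2
    have ha : |α z1 - α z2| ≤ Real.pi := by
      rw [abs_lt] at ha1 ha2
      rw [abs_le]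
      constructor <;> linarith [ha1.1, ha1.2, ha2.1, ha2.2]
    have hpol := h4a_polar hρ hR1 hR2 ha
    have hE : Hb z1 - Hb z2 = (‖Hb z1 - q‖ : ℂ) * exp (I * α z1)
        - (‖Hb z2 - q‖ : ℂ) * exp (I * α z2) := by
      have e1 := hα z1 h1 (keyq z1 h1 d1)
      have e2 := hα z2 h2 (keyq z2 h2 d2)
      linear_combination e1 - e2
    rw [← hE] at hpol
    -- notation
    set N : ℝ := ‖Hb z1 - Hb z2‖ with hN
    have hN0 : 0 ≤ N := norm_nonneg _
    have hRR : |‖Hb z1 - q‖ - ‖Hb z2 - q‖| ≤ N := by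
      have := abs_norm_sub_norm_le (Hb z1 - q) (Hb z2 - q)
      have h' : Hb z1 - q - (Hb z2 - q) = Hb z1 - Hb z2 := by ring
      rwa [h'] at this
    unfold ptf
    set x1 : ℝ := min 1 (max 0 (2 * ‖Hb z1 - q‖ / ρ0 - 1)) with hx1
    set x2 : ℝ := min 1 (max 0 (2 * ‖Hb z2 - q‖ / ρ0 - 1)) with hx2
    set k1 : ℝ := max (z1.im + c - 2 * Real.pi) (min (z1.im + c + 2 * Real.pi) (α z1)) with hk1
    set k2 : ℝ := max (z2.im + c - 2 * Real.pi) (min (z2.im + c + 2 * Real.pi) (α z2)) with hk2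
    have hx10 : 0 ≤ x1 := le_min zero_le_one (le_max_left _ _)
    have hx11 : x1 ≤ 1 := min_le_left _ _
    have hxx : |x1 - x2| ≤ 2 / ρ0 * N := by
      have e1 : |x1 - x2| ≤ |max 0 (2 * ‖Hb z1 - q‖ / ρ0 - 1) - max 0 (2 * ‖Hb z2 - q‖ / ρ0 - 1)| := by
        have := abs_min_sub_min_le_max 1 (max 0 (2 * ‖Hb z1 - q‖ / ρ0 - 1)) 1
          (max 0 (2 * ‖Hb z2 - q‖ / ρ0 - 1))
        rw [sub_self, abs_zero] at this
        exact this.trans (max_le (abs_nonneg _) le_rfl)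
      have e2 : |max 0 (2 * ‖Hb z1 - q‖ / ρ0 - 1) - max 0 (2 * ‖Hb z2 - q‖ / ρ0 - 1)| ≤
          |(2 * ‖Hb z1 - q‖ / ρ0 - 1) - (2 * ‖Hb z2 - q‖ / ρ0 - 1)| := by
        have := abs_max_sub_max_le_max 0 (2 * ‖Hb z1 - q‖ / ρ0 - 1) 0
          (2 * ‖Hb z2 - q‖ / ρ0 - 1)
        rw [sub_self, abs_zero] at this
        exact this.trans (max_le (abs_nonneg _) le_rfl)
      have e3 : (2 * ‖Hb z1 - q‖ / ρ0 - 1) - (2 * ‖Hb z2 - q‖ / ρ0 - 1)
          = 2 / ρ0 * (‖Hb z1 - q‖ - ‖Hb z2 - q‖) := by ring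
      rw [e3, abs_mul, abs_of_pos (by positivity : 0 < 2 / ρ0)] at e2
      exact e1.trans (e2.trans (mul_le_mul_of_nonneg_left hRR (by positivity)))
    have hkk : |k1 - k2| ≤ max |z1.im - z2.im| |α z1 - α z2| := by
      have e1 := abs_max_sub_max_le_max (z1.im + c - 2 * Real.pi)
        (min (z1.im + c + 2 * Real.pi) (α z1)) (z2.im + c - 2 * Real.pi)
        (min (z2.im + c + 2 * Real.pi) (α z2))
      have e2 := abs_min_sub_min_le_max (z1.im + c + 2 * Real.pi) (α z1)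
        (z2.im + c + 2 * Real.pi) (α z2)
      have e3 : z1.im + c - 2 * Real.pi - (z2.im + c - 2 * Real.pi) = z1.im - z2.im := by ring
      have e4 : z1.im + c + 2 * Real.pi - (z2.im + c + 2 * Real.pi) = z1.im - z2.im := by ring
      rw [e3] at e1
      rw [e4] at e2
      exact e1.trans (max_le (le_max_left _ _) e2)
    have hkk' : |k1 - k2| ≤ |z1.im - z2.im| + |α z1 - α z2| := by
      refine hkk.trans (max_le ?_ ?_)
      · linarith [abs_nonneg (α z1 - α z2)]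
      · linarith [abs_nonneg (z1.im - z2.im)]
    have hk2' : |k2 - (z2.im + c)| ≤ 2 * Real.pi := by
      rw [abs_le]
      constructor
      · have : z2.im + c - 2 * Real.pi ≤ k2 := le_max_left _ _
        linarith
      · have : k2 ≤ z2.im + c + 2 * Real.pi := by
          refine max_le (by linarith) (min_le_left _ _)
        linarith
    have hdec : x1 * k1 + (1 - x1) * (z1.im + c) - (x2 * k2 + (1 - x2) * (z2.im + c)) =
        x1 * (k1 - k2) + (1 - x1) * (z1.im - z2.im) + (x1 - x2) * (k2 - (z2.im + c)) := by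
      ring
    rw [hdec]
    have t1 : |x1 * (k1 - k2)| ≤ x1 * (|z1.im - z2.im| + |α z1 - α z2|) := by
      rw [abs_mul, abs_of_nonneg hx10]
      exact mul_le_mul_of_nonneg_left hkk' hx10
    have t2 : |(1 - x1) * (z1.im - z2.im)| = (1 - x1) * |z1.im - z2.im| := by
      rw [abs_mul, abs_of_nonneg (by linarith)]
    have t3 : |(x1 - x2) * (k2 - (z2.im + c))| ≤ (2 / ρ0 * N) * (2 * Real.pi) := by
      rw [abs_mul]
      exact mul_le_mul hxx hk2' (abs_nonneg _) (by positivity)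
    have t4 : |x1 * (k1 - k2) + (1 - x1) * (z1.im - z2.im) + (x1 - x2) * (k2 - (z2.im + c))| ≤
        |x1 * (k1 - k2)| + |(1 - x1) * (z1.im - z2.im)| + |(x1 - x2) * (k2 - (z2.im + c))| :=
      abs_add_three _ _ _
    have t5 : x1 * (|z1.im - z2.im| + |α z1 - α z2|) + (1 - x1) * |z1.im - z2.im| =
        |z1.im - z2.im| + x1 * |α z1 - α z2| := by ring
    have t6 : x1 * |α z1 - α z2| ≤ |α z1 - α z2| := by
      have := mul_le_mul_of_nonneg_right hx11 (abs_nonneg (α z1 - α z2))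
      rwa [one_mul] at this
    have t7 : 2 * Real.pi / ρ0 * N + (2 / ρ0 * N) * (2 * Real.pi) ≤ 20 / ρ0 * N := by
      have e : 2 * Real.pi / ρ0 * N + (2 / ρ0 * N) * (2 * Real.pi) = (6 * Real.pi) / ρ0 * N := by
        ring
      rw [e]
      have h6 : 6 * Real.pi ≤ 20 := by linarith [Real.pi_lt_d2]
      exact mul_le_mul_of_nonneg_right (div_le_div_of_nonneg_right h6 hρ.le) hN0
    linarith

end CF6

end

section

/-! # Module H, row H4b: the competitor on good lines -/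

open Complex MeasureTheory Set Filter Topology Metric intervalIntegral
open scoped ENNReal

namespace CF6

/-- a function which is locally dominated by the increments of a continuous function -/
theorem h4b_dom {a b : ℝ} (hab : a ≤ b) {f P : ℝ → ℝ} (hP : ContinuousOn P (Icc a b))
    (hloc : ∀ s ∈ Icc a b, ∃ δ > (0 : ℝ), ∀ x ∈ Icc a b, ∀ y ∈ Icc a b, x ≤ y → |x - s| < δ →
      |y - s| < δ → |f y - f x| ≤ P y - P x) : |f b - f a| ≤ P b - P a := by
  have hf : ContinuousOn f (Icc a b) := by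
    intro s hs
    obtain ⟨δ, hδ, h⟩ := hloc s hs
    have hPs : Tendsto (fun x => |P x - P s|) (𝓝[Icc a b] s) (𝓝 0) := by
      have h1 : Tendsto (fun x => |P x - P s|) (𝓝[Icc a b] s) (𝓝 |P s - P s|) :=
        ((hP s hs).tendsto.sub_const (P s)).abs
      simpa using h1
    show Tendsto f (𝓝[Icc a b] s) (𝓝 (f s))
    rw [tendsto_iff_dist_tendsto_zero]
    refine squeeze_zero' (Eventually.of_forall fun x => dist_nonneg) ?_ hPs
    have hev : ∀ᶠ x in 𝓝[Icc a b] s, |x - s| < δ := by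
      apply mem_nhdsWithin_of_mem_nhds
      have := Metric.ball_mem_nhds s hδ
      filter_upwards [this] with x hx
      rwa [Metric.mem_ball, Real.dist_eq] at hx
    filter_upwards [hev, self_mem_nhdsWithin] with x hx hxI
    have h0 : |s - s| < δ := by simpa using hδ
    rw [Real.dist_eq]
    rcases le_total x s with hxs | hxs
    · have h1 := h x hxI s hs hxs hx h0
      rw [abs_sub_comm (f x), abs_sub_comm (P x)]
      exact h1.trans (le_abs_self _)
    · have h1 := h s hs x hxI hxs h0 hx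
      exact h1.trans (le_abs_self _)
  have hclosed : IsClosed ({s | |f s - f a| ≤ P s - P a} ∩ Icc a b) := by
    have h1 : IsClosed {s ∈ Icc a b | |f s - f a| ≤ P s - P a} :=
      isClosed_Icc.isClosed_le ((hf.sub continuousOn_const).abs) (hP.sub continuousOn_const)
    have e : {s | |f s - f a| ≤ P s - P a} ∩ Icc a b = {s ∈ Icc a b | |f s - f a| ≤ P s - P a} := by
      ext s
      constructor
      · rintro ⟨h2, h3⟩
        exact ⟨h3, h2⟩
      · rintro ⟨h2, h3⟩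
        exact ⟨h3, h2⟩
    rw [e]
    exact h1
  have hsub := hclosed.Icc_subset_of_forall_exists_gt (by simp) (by
    rintro x ⟨hx, hxa, hxb⟩ y hy
    have hxI : x ∈ Icc a b := ⟨hxa, hxb.le⟩
    obtain ⟨δ, hδ, h⟩ := hloc x hxI
    have hy' : x < y := hy
    set z : ℝ := min (x + δ / 2) (min y b) with hz
    have hxz : x < z := lt_min (by linarith) (lt_min hy' hxb)
    have hzδ : z ≤ x + δ / 2 := min_le_left _ _
    have hzy : z ≤ y := (min_le_right _ _).trans (min_le_left _ _)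
    have hzb : z ≤ b := (min_le_right _ _).trans (min_le_right _ _)
    have hzI : z ∈ Icc a b := ⟨hxa.trans hxz.le, hzb⟩
    have h1 := h x hxI z hzI hxz.le (by simpa using hδ) (by
      rw [abs_of_pos (by linarith)]
      linarith)
    refine ⟨z, ?_, hxz, hzy⟩
    have hx' : |f x - f a| ≤ P x - P a := hx
    show |f z - f a| ≤ P z - P a
    have h2 := abs_add_le (f z - f x) (f x - f a)
    rw [sub_add_sub_cancel] at h2
    linarith)
  exact hsub ⟨hab, le_rfl⟩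

theorem local_to_global {a b : ℝ} (hab : a ≤ b) {f m : ℝ → ℝ}
    (hm : IntervalIntegrable m volume a b)
    (hloc : ∀ s ∈ Icc a b, ∃ δ > (0 : ℝ), ∀ x ∈ Icc a b, ∀ y ∈ Icc a b, x ≤ y → |x - s| < δ →
      |y - s| < δ → |f y - f x| ≤ ∫ t in x..y, m t) : |f b - f a| ≤ ∫ t in a..b, m t := by
  have hP : ContinuousOn (fun s => ∫ t in a..s, m t) (Icc a b) := by
    have h1 := intervalIntegral.continuousOn_primitive_interval' hm (left_mem_uIcc (a := a) (b := b))
    rwa [uIcc_of_le hab] at h1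
  have hint : ∀ x ∈ Icc a b, IntervalIntegrable m volume a x := by
    intro x hx
    apply hm.mono_set
    rw [uIcc_of_le hab, uIcc_of_le hx.1]
    exact Icc_subset_Icc_right hx.2
  have h := h4b_dom (f := f) hab hP (by
    intro s hs
    obtain ⟨δ, hδ, h⟩ := hloc s hs
    refine ⟨δ, hδ, fun x hx y hy hxy h1 h2 => ?_⟩
    have h3 := h x hx y hy hxy h1 h2
    have h4 := intervalIntegral.integral_interval_sub_left (hint y hy) (hint x hx)
    rw [h4]
    exact h3)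
  simpa using h

theorem ptf_continuousOn {D : Set ℂ} {q : ℂ} {ρ0 : ℝ} (hρ : 0 < ρ0) {Hb : ℂ → ℂ} {α : ℂ → ℝ}
    (cH : ContinuousOn Hb D) (cα : ContinuousOn α {z | z ∈ D ∧ Hb z ≠ q})
    (hα : ∀ z ∈ D, Hb z ≠ q → Hb z = q + ‖Hb z - q‖ * exp (I * α z)) (c : ℝ) :
    ContinuousOn (ptf q ρ0 c Hb α) D := by
  intro z hz
  obtain ⟨δ, hδ, h⟩ := ptf_local hρ cH cα hα c hz
  show Tendsto (ptf q ρ0 c Hb α) (𝓝[D] z) (𝓝 (ptf q ρ0 c Hb α z))
  rw [tendsto_iff_dist_tendsto_zero]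
  have hlim : Tendsto (fun w => 20 / ρ0 * ‖Hb w - Hb z‖ + |w.im - z.im|) (𝓝[D] z) (𝓝 0) := by
    have h1 : Tendsto (fun w => 20 / ρ0 * ‖Hb w - Hb z‖) (𝓝[D] z) (𝓝 (20 / ρ0 * ‖Hb z - Hb z‖)) :=
      (((cH z hz).tendsto.sub_const (Hb z)).norm).const_mul _
    have h2 : Tendsto (fun w : ℂ => |w.im - z.im|) (𝓝[D] z) (𝓝 |z.im - z.im|) := by
      have h3 : Continuous fun w : ℂ => |w.im - z.im| := (Complex.continuous_im.sub continuous_const).abs
      exact (h3.tendsto z).mono_left nhdsWithin_le_nhds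
    have h3 := h1.add h2
    simpa using h3
  refine squeeze_zero' (Eventually.of_forall fun x => dist_nonneg) ?_ hlim
  filter_upwards [self_mem_nhdsWithin, mem_nhdsWithin_of_mem_nhds (Metric.ball_mem_nhds z hδ)]
    with w hw hwδ
  rw [Real.dist_eq]
  exact h w hw z hz hwδ (by simpa using hδ)

/-- the value on the imaginary axis -/
theorem h4b_zero {q : ℂ} {ρ0 c : ℝ} (hρ : 0 < ρ0) {Hb : ℂ → ℂ} {α : ℂ → ℝ} {z : ℂ} {A : ℝ}
    (h1 : ‖Hb z - q‖ = ρ0) (h2 : α z = A) (h3 : |A - z.im - c| ≤ 2 * Real.pi) :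
    ptf q ρ0 c Hb α z = A := by
  have h4 := abs_le.mp h3
  have e1 : 2 * ‖Hb z - q‖ / ρ0 - 1 = 1 := by
    rw [h1]
    field_simp
    norm_num
  unfold ptf
  rw [e1, h2, max_eq_right (zero_le_one), min_self, min_eq_right (by linarith),
    max_eq_right (by linarith)]
  ring

theorem ptf_lines {q : ℂ} {ρ0 T1 c : ℝ} (hρ : 0 < ρ0) (hT : 0 < T1) {Hb H Ht Hs : ℂ → ℂ}
    {α : ℂ → ℝ} {α0 : ℝ → ℝ} {Tg Θg : Set ℝ}
    (cH : ContinuousOn Hb {z | 0 ≤ z.re ∧ z.re < T1})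
    (cα : ContinuousOn α {z | z ∈ {z : ℂ | 0 ≤ z.re ∧ z.re < T1} ∧ Hb z ≠ q})
    (hα : ∀ z ∈ {z : ℂ | 0 ≤ z.re ∧ z.re < T1}, Hb z ≠ q →
      Hb z = q + ‖Hb z - q‖ * exp (I * α z))
    (hbd : ∀ θ : ℝ, ‖Hb (θ * I) - q‖ = ρ0 ∧ α (θ * I) = α0 θ)
    (hc : ∀ θ : ℝ, |α0 θ - θ - c| ≤ 2 * Real.pi)
    (gl : GoodLines T1 H Ht Hs Tg Θg) (hH : ∀ z ∈ strip T1, H z = Hb z) :
    (∀ t ∈ Tg, ∀ x y : ℝ, x ≤ y →
      |ptf q ρ0 c Hb α (t + y * I) - ptf q ρ0 c Hb α (t + x * I)| ≤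
        ∫ s in x..y, (20 / ρ0 * ‖Hs (t + s * I)‖ + 1)) ∧
    (∀ θ ∈ Θg, ∀ x ∈ Ioo 0 T1, ∀ y ∈ Ioo 0 T1, x ≤ y →
      |ptf q ρ0 c Hb α (y + θ * I) - ptf q ρ0 c Hb α (x + θ * I)| ≤
        ∫ s in x..y, 20 / ρ0 * ‖Ht (s + θ * I)‖) ∧
    (∀ θ ∈ Θg, ∀ x ∈ Ioo 0 T1,
      |ptf q ρ0 c Hb α (x + θ * I) - α0 θ| ≤ ∫ s in (0 : ℝ)..x, 20 / ρ0 * ‖Ht (s + θ * I)‖) := by
  have hre : ∀ t s : ℝ, ((t : ℂ) + s * I).re = t := fun t s => by simp
  have him : ∀ t s : ℝ, ((t : ℂ) + s * I).im = s := fun t s => by simp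
  have hρ' : 0 ≤ 20 / ρ0 := by positivity
  have hcont := ptf_continuousOn hρ cH cα hα c
  have part2 : ∀ θ ∈ Θg, ∀ x ∈ Ioo 0 T1, ∀ y ∈ Ioo 0 T1, x ≤ y →
      |ptf q ρ0 c Hb α (y + θ * I) - ptf q ρ0 c Hb α (x + θ * I)| ≤
        ∫ s in x..y, 20 / ρ0 * ‖Ht (s + θ * I)‖ := by
    intro θ hθ x hx y hy hxy
    have hmem : ∀ s ∈ Icc x y, s ∈ Ioo 0 T1 := fun s hs => ⟨hx.1.trans_le hs.1, hs.2.trans_lt hy.2⟩
    have hint : ∀ u ∈ Icc x y, ∀ w ∈ Icc x y, u ≤ w →
        IntervalIntegrable (fun t : ℝ => Ht (t + θ * I)) volume u w := by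
      intro u hu w hw huw
      apply (gl.iΘ θ hθ).mono_set
      rw [uIcc_of_le huw, uIcc_of_le hT.le]
      exact Icc_subset_Icc (hmem u hu).1.le (hmem w hw).2.le
    refine local_to_global (f := fun s : ℝ => ptf q ρ0 c Hb α (s + θ * I)) hxy
      ((hint x ⟨le_rfl, hxy⟩ y ⟨hxy, le_rfl⟩ hxy).norm.const_mul _) ?_
    intro s hs
    have hsD : ((s : ℂ) + θ * I) ∈ {z : ℂ | 0 ≤ z.re ∧ z.re < T1} := by
      refine ⟨?_, ?_⟩
      · rw [hre]
        exact (hmem s hs).1.le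
      · rw [hre]
        exact (hmem s hs).2
    obtain ⟨δ, hδ, h⟩ := ptf_local hρ cH cα hα c hsD
    refine ⟨δ, hδ, fun u hu w hw huw h1 h2 => ?_⟩
    have hdist : ∀ r : ℝ, |r - s| < δ → dist ((r : ℂ) + θ * I) ((s : ℂ) + θ * I) < δ := by
      intro r hr
      rw [dist_add_right, dist_eq_norm, ← Complex.ofReal_sub, Complex.norm_real, Real.norm_eq_abs]
      exact hr
    have hD : ∀ r ∈ Icc x y, ((r : ℂ) + θ * I) ∈ {z : ℂ | 0 ≤ z.re ∧ z.re < T1} := by
      intro r hr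
      refine ⟨?_, ?_⟩
      · rw [hre]
        exact (hmem r hr).1.le
      · rw [hre]
        exact (hmem r hr).2
    have hst : ∀ r ∈ Icc x y, ((r : ℂ) + θ * I) ∈ strip T1 := by
      intro r hr
      refine ⟨?_, ?_⟩
      · rw [hre]
        exact (hmem r hr).1
      · rw [hre]
        exact (hmem r hr).2
    have h3 := h _ (hD w hw) _ (hD u hu) (hdist w h2) (hdist u h1)
    rw [him, him, sub_self, abs_zero, add_zero, ← hH _ (hst w hw), ← hH _ (hst u hu),
      gl.hΘ θ hθ u (hmem u hu) w (hmem w hw)] at h3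
    refine h3.trans ?_
    rw [intervalIntegral.integral_const_mul]
    exact mul_le_mul_of_nonneg_left (intervalIntegral.norm_integral_le_integral_norm huw) hρ'
  refine ⟨?_, part2, ?_⟩
  · intro t ht x y hxy
    have htI := gl.subT ht
    refine local_to_global (f := fun s : ℝ => ptf q ρ0 c Hb α (t + s * I)) hxy
      (((gl.iT t ht x y).norm.const_mul _).add intervalIntegrable_const) ?_
    intro s hs
    have hD : ∀ r : ℝ, ((t : ℂ) + r * I) ∈ {z : ℂ | 0 ≤ z.re ∧ z.re < T1} := by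
      intro r
      refine ⟨?_, ?_⟩
      · rw [hre]
        exact htI.1.le
      · rw [hre]
        exact htI.2
    have hst : ∀ r : ℝ, ((t : ℂ) + r * I) ∈ strip T1 := by
      intro r
      refine ⟨?_, ?_⟩
      · rw [hre]
        exact htI.1
      · rw [hre]
        exact htI.2
    obtain ⟨δ, hδ, h⟩ := ptf_local hρ cH cα hα c (hD s)
    refine ⟨δ, hδ, fun u hu w hw huw h1 h2 => ?_⟩
    have hdist : ∀ r : ℝ, |r - s| < δ → dist ((t : ℂ) + r * I) ((t : ℂ) + s * I) < δ := by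
      intro r hr
      rw [dist_add_left, dist_eq_norm, ← sub_mul, ← Complex.ofReal_sub, norm_mul, Complex.norm_I,
        mul_one, Complex.norm_real, Real.norm_eq_abs]
      exact hr
    have h3 := h _ (hD w) _ (hD u) (hdist w h2) (hdist u h1)
    rw [him, him, ← hH _ (hst w), ← hH _ (hst u), gl.hT t ht u w,
      abs_of_nonneg (sub_nonneg.mpr huw)] at h3
    refine h3.trans ?_
    rw [intervalIntegral.integral_add ((gl.iT t ht u w).norm.const_mul _) intervalIntegrable_const,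
      intervalIntegral.integral_const_mul, intervalIntegral.integral_const, smul_eq_mul, mul_one]
    exact add_le_add_left (mul_le_mul_of_nonneg_left
      (intervalIntegral.norm_integral_le_integral_norm huw) hρ') _
  · intro θ hθ x hx
    have hzero : ptf q ρ0 c Hb α (θ * I) = α0 θ := by
      apply h4b_zero hρ (hbd θ).1 (hbd θ).2
      have e : ((θ : ℂ) * I).im = θ := by simp
      rw [e]
      exact hc θ
    have h0D : ((θ : ℂ) * I) ∈ {z : ℂ | 0 ≤ z.re ∧ z.re < T1} := by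
      refine ⟨?_, ?_⟩
      · simp
      · simpa using hT
    have hm : IntervalIntegrable (fun t : ℝ => 20 / ρ0 * ‖Ht (t + θ * I)‖) volume 0 x := by
      refine IntervalIntegrable.const_mul (IntervalIntegrable.norm ?_) _
      apply (gl.iΘ θ hθ).mono_set
      rw [uIcc_of_le hx.1.le, uIcc_of_le hT.le]
      exact Icc_subset_Icc_right hx.2.le
    have hL : Tendsto (fun s : ℝ => |ptf q ρ0 c Hb α (x + θ * I) - ptf q ρ0 c Hb α (s + θ * I)|)
        (𝓝[>] 0) (𝓝 |ptf q ρ0 c Hb α (x + θ * I) - α0 θ|) := by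
      have h1 : Tendsto (fun s : ℝ => ((s : ℂ) + θ * I)) (𝓝[>] 0)
          (𝓝[{z : ℂ | 0 ≤ z.re ∧ z.re < T1}] ((θ : ℂ) * I)) := by
        apply tendsto_nhdsWithin_of_tendsto_nhds_of_eventually_within
        · have h2 : Continuous fun s : ℝ => ((s : ℂ) + θ * I) := by fun_prop
          have h3 := h2.tendsto 0
          simp only [Complex.ofReal_zero, zero_add] at h3
          exact h3.mono_left nhdsWithin_le_nhds
        · have h4 : Ioo (0 : ℝ) T1 ∈ 𝓝[>] (0 : ℝ) := Ioo_mem_nhdsGT hT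
          filter_upwards [h4] with s hs
          refine ⟨?_, ?_⟩
          · rw [hre]
            exact hs.1.le
          · rw [hre]
            exact hs.2
      have h5 := (hcont _ h0D).tendsto.comp h1
      rw [hzero] at h5
      exact (h5.const_sub _).abs
    have hR : Tendsto (fun s : ℝ => ∫ t in s..x, 20 / ρ0 * ‖Ht (t + θ * I)‖) (𝓝[>] 0)
        (𝓝 (∫ t in (0 : ℝ)..x, 20 / ρ0 * ‖Ht (t + θ * I)‖)) := by
      have h1 := intervalIntegral.continuousOn_primitive_interval' hm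
        (left_mem_uIcc (a := (0 : ℝ)) (b := x))
      rw [uIcc_of_le hx.1.le] at h1
      have h2 := (h1 0 ⟨le_rfl, hx.1.le⟩).tendsto
      have h3 : Tendsto (fun s : ℝ => (∫ t in (0 : ℝ)..x, 20 / ρ0 * ‖Ht (t + θ * I)‖) -
          ∫ t in (0 : ℝ)..s, 20 / ρ0 * ‖Ht (t + θ * I)‖) (𝓝[Icc 0 x] 0)
          (𝓝 ((∫ t in (0 : ℝ)..x, 20 / ρ0 * ‖Ht (t + θ * I)‖) -
            ∫ t in (0 : ℝ)..0, 20 / ρ0 * ‖Ht (t + θ * I)‖)) := h2.const_sub _
      rw [intervalIntegral.integral_same, sub_zero] at h3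
      have h4 : 𝓝[>] (0 : ℝ) ≤ 𝓝[Icc 0 x] 0 := by
        rw [← nhdsWithin_Ioo_eq_nhdsGT hx.1]
        exact nhdsWithin_mono _ Ioo_subset_Icc_self
      refine (h3.mono_left h4).congr' ?_
      have h6 : Ioo (0 : ℝ) x ∈ 𝓝[>] (0 : ℝ) := Ioo_mem_nhdsGT hx.1
      filter_upwards [h6] with s hs
      have hs1 : IntervalIntegrable (fun t : ℝ => 20 / ρ0 * ‖Ht (t + θ * I)‖) volume 0 s := by
        apply hm.mono_set
        rw [uIcc_of_le hx.1.le, uIcc_of_le hs.1.le]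
        exact Icc_subset_Icc_right hs.2.le
      exact intervalIntegral.integral_interval_sub_left hm hs1
    refine le_of_tendsto_of_tendsto hL hR ?_
    have h6 : Ioo (0 : ℝ) x ∈ 𝓝[>] (0 : ℝ) := Ioo_mem_nhdsGT hx.1
    filter_upwards [h6] with s hs
    exact part2 θ hθ s ⟨hs.1, hs.2.trans hx.2⟩ x hx hs.2.le

end CF6

end

section

/-! # Module H, row H6a: the cell map of a point component, topological part

`r t = prr e0 t = (exp (-t) - e0)/(1 - e0)` is continuous, strictly decreasing, `r 0 = 1`, `0 < r t < 1` for `0 < t`, `e0 < exp (-t)`. `μ t θ = lam T1 α0 (min t T1) θ`: for `t > 0` strictly increasing and continuous in `θ` with `μ t (θ + 2π) = μ t θ + 2π` (`lam_strictMono`, `lam_per` in FA3 with `L = 2π`; `0 < min t T1 < 2 T1`), so a bijection of `ℝ`.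
`pF z = q + ρ0 r(re z) exp (I μ (re z) (im z))`.
* continuity on `{0 ≤ re z}`: `lam_continuousOn` (FA4) composed with the continuous map `z ↦ (min (re z) T1) + im z I` (values with real part in `[0, T1] ⊆ [0, 2 T1)`; real part `0` iff `re z = 0`), `r 0 = 1`.
* maps: `‖pF z - q‖ = ρ0 r(re z) ∈ (0, ρ0)`. * injective mod `2πi`: `‖pF z - q‖` gives `re z = re w` (`r` strictly decreasing), then `exp (I μ z) = exp (I μ w)`: `μ t (im w) = μ t (im z) + 2π n = μ t (im z + 2π n)`, strict monotonicity.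
* surjective: `y = q + s exp (I φ)`, `0 < s < ρ0`: `exp (-t) = e0 + (1 - e0) s/ρ0 ∈ (e0, 1)` defines `t > 0`; `θ` with `μ t θ = φ` by the intermediate value theorem (`μ t` is continuous, unbounded in both directions by quasi-periodicity).
* end: if `e0 > 0`: `a → -log e0` from below, if `e0 = 0`: `a → ∞`; `‖pF z - q‖ = ρ0 r(re z) ≤ ρ0 r(a)`; choose `a > 0` with `exp (-a) = e0 + (1-e0) min(η/(2ρ0), 1/2)`. -/

open Complex MeasureTheory Set Filter Topology Metric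
open scoped ENNReal

namespace CF6

lemma h6a_min_pos {t T1 : ℝ} (ht : 0 < t) (h1 : 0 < T1) : 0 < min t T1 := lt_min ht h1

lemma h6a_min_lt {t T1 : ℝ} (h1 : 0 < T1) : min t T1 < 2 * T1 :=
  lt_of_le_of_lt (min_le_right _ _) (by linarith)

lemma h6a_prr_pos {e0 t : ℝ} (he1 : e0 < 1) (h : e0 < Real.exp (-t)) : 0 < prr e0 t := by
  unfold prr
  exact div_pos (by linarith) (by linarith)

lemma h6a_prr_lt {e0 t : ℝ} (he1 : e0 < 1) (h : 0 < t) : prr e0 t < 1 := by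
  unfold prr
  rw [div_lt_one (by linarith)]
  have : Real.exp (-t) < 1 := by
    have h' := Real.exp_lt_exp.mpr (show -t < 0 by linarith)
    rwa [Real.exp_zero] at h'
  linarith

lemma h6a_prr_anti {e0 s t : ℝ} (he1 : e0 < 1) (h : s < t) : prr e0 t < prr e0 s := by
  unfold prr
  apply div_lt_div_of_pos_right _ (by linarith)
  have : Real.exp (-t) < Real.exp (-s) := Real.exp_lt_exp.mpr (by linarith)
  linarith

lemma h6a_prr_inj {e0 s t : ℝ} (he1 : e0 < 1) (h : prr e0 s = prr e0 t) : s = t := by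
  rcases lt_trichotomy s t with h' | h' | h'
  · exact absurd h (h6a_prr_anti he1 h').ne'
  · exact h'
  · exact absurd h (h6a_prr_anti he1 h').ne

lemma h6a_norm_sub {q : ℂ} {ρ0 e0 T1 : ℝ} {α0 : ℝ → ℝ} (hρ : 0 < ρ0) (he1 : e0 < 1)
    {z : ℂ} (hz : z ∈ pX e0) : ‖pF q ρ0 e0 T1 α0 z - q‖ = ρ0 * prr e0 z.re := by
  unfold pF
  rw [add_sub_cancel_left, norm_mul, Complex.norm_real, mul_comm I, Complex.norm_exp_ofReal_mul_I,
    mul_one, Real.norm_eq_abs, abs_of_pos (mul_pos hρ (h6a_prr_pos he1 hz.2))]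

lemma h6a_per_int {T1 : ℝ} {α0 : ℝ → ℝ} (h1 : 0 < T1) (hB : QP (2 * Real.pi) α0) {t : ℝ}
    (h0 : 0 < t) (ht : t < 2 * T1) (n : ℤ) (θ : ℝ) :
    lam T1 α0 t (θ + n * (2 * Real.pi)) = lam T1 α0 t θ + n * (2 * Real.pi) := by
  induction n with
  | zero => simp
  | succ n ih =>
    have e : θ + ((n : ℤ) + 1 : ℤ) * (2 * Real.pi) = (θ + ((n : ℤ) : ℝ) * (2 * Real.pi)) + 2 * Real.pi := by
      push_cast; ring
    rw [e, lam_per h1 hB h0 ht, ih]
    push_cast; ring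
  | pred n ih =>
    have e : θ + ((-(n : ℤ) : ℤ) : ℝ) * (2 * Real.pi)
        = (θ + ((-(n : ℤ) - 1 : ℤ) : ℝ) * (2 * Real.pi)) + 2 * Real.pi := by
      push_cast; ring
    rw [e, lam_per h1 hB h0 ht] at ih
    push_cast at ih ⊢
    linarith

lemma h6a_lam_cont {T1 : ℝ} {α0 : ℝ → ℝ} (h1 : 0 < T1) (hB : QP (2 * Real.pi) α0) {t : ℝ}
    (h0 : 0 < t) (ht : t < 2 * T1) : Continuous (fun θ => lam T1 α0 t θ) := by
  rw [continuous_iff_continuousAt]
  intro θ
  exact (lam_hasDerivAt_theta h1 hB h0 ht θ).continuousAt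

theorem pF_cont {q : ℂ} {ρ0 e0 T1 : ℝ} {α0 : ℝ → ℝ} (h1 : 0 < T1) (he1 : e0 < 1)
    (hB : QP (2 * Real.pi) α0) :
    ContinuousOn (fun z : ℂ => if z.re = 0 then q + ρ0 * exp (I * α0 z.im)
      else pF q ρ0 e0 T1 α0 z) {z | 0 ≤ z.re} := by
  have hc := lam_continuousOn h1 hB
  have c1 : Continuous (fun z : ℂ => ((min z.re T1 : ℝ) : ℂ) + (z.im : ℂ) * I) := by
    have a1 : Continuous (fun z : ℂ => min z.re T1) := Complex.continuous_re.min continuous_const
    have a2 : Continuous (fun z : ℂ => ((min z.re T1 : ℝ) : ℂ)) :=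
      Complex.continuous_ofReal.comp a1
    exact a2.add ((Complex.continuous_ofReal.comp Complex.continuous_im).mul continuous_const)
  have hm : MapsTo (fun z : ℂ => ((min z.re T1 : ℝ) : ℂ) + (z.im : ℂ) * I) {z | 0 ≤ z.re}
      {z | 0 ≤ z.re ∧ z.re < 2 * T1} := by
    intro z hz
    have e : (((min z.re T1 : ℝ) : ℂ) + (z.im : ℂ) * I).re = min z.re T1 := by simp
    have hz' : 0 ≤ z.re := hz
    refine ⟨?_, ?_⟩
    · rw [e]; exact le_min hz' h1.le
    · rw [e]; exact h6a_min_lt h1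
  have hg := hc.comp c1.continuousOn hm
  have hr : Continuous (fun z : ℂ => ((ρ0 * prr e0 z.re : ℝ) : ℂ)) := by
    apply Complex.continuous_ofReal.comp
    apply continuous_const.mul
    unfold prr
    exact ((Real.continuous_exp.comp Complex.continuous_re.neg).sub continuous_const).div_const _
  have hF : ContinuousOn (fun z : ℂ => q + ((ρ0 * prr e0 z.re : ℝ) : ℂ) *
      exp (I * ((((fun z : ℂ => if z.re = 0 then α0 z.im else lam T1 α0 z.re z.im) ∘
        (fun z : ℂ => ((min z.re T1 : ℝ) : ℂ) + (z.im : ℂ) * I)) z : ℝ) : ℂ))) {z | 0 ≤ z.re} := by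
    apply continuousOn_const.add
    apply hr.continuousOn.mul
    apply Complex.continuous_exp.comp_continuousOn
    apply continuousOn_const.mul
    exact Complex.continuous_ofReal.comp_continuousOn hg
  apply hF.congr
  intro z hz
  have hz' : 0 ≤ z.re := hz
  have e : (((min z.re T1 : ℝ) : ℂ) + (z.im : ℂ) * I).re = min z.re T1 := by simp
  have e' : (((min z.re T1 : ℝ) : ℂ) + (z.im : ℂ) * I).im = z.im := by simp
  simp only [Function.comp]
  rw [e, e']
  by_cases h0 : z.re = 0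
  · rw [if_pos h0, if_pos (by rw [h0]; exact min_eq_left h1.le)]
    have : prr e0 z.re = 1 := by
      unfold prr
      rw [h0, neg_zero, Real.exp_zero, div_self (by linarith)]
    rw [this, mul_one]
  · rw [if_neg h0, if_neg (ne_of_gt (h6a_min_pos (lt_of_le_of_ne hz' (Ne.symm h0)) h1))]
    rfl

theorem pF_per {q : ℂ} {ρ0 e0 T1 : ℝ} {α0 : ℝ → ℝ} (h1 : 0 < T1)
    (hB : QP (2 * Real.pi) α0) {z : ℂ} (hz : 0 < z.re) :
    pF q ρ0 e0 T1 α0 (z + 2 * Real.pi * I) = pF q ρ0 e0 T1 α0 z := by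
  have e1 : (z + 2 * Real.pi * I).re = z.re := by simp
  have e2 : (z + 2 * Real.pi * I).im = z.im + 2 * Real.pi := by simp
  unfold pF
  rw [e1, e2, lam_per h1 hB (h6a_min_pos hz h1) (h6a_min_lt h1)]
  congr 2
  rw [Complex.exp_eq_exp_iff_exists_int]
  refine ⟨1, ?_⟩
  push_cast
  ring

theorem pF_maps {q : ℂ} {ρ0 e0 T1 : ℝ} {α0 : ℝ → ℝ} (hρ : 0 < ρ0) (he : 0 ≤ e0) (he1 : e0 < 1)
    {z : ℂ} (hz : z ∈ pX e0) : pF q ρ0 e0 T1 α0 z ∈ ball q ρ0 \ {q} := by
  have hn := h6a_norm_sub (q := q) (T1 := T1) (α0 := α0) hρ he1 hz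
  have hp := h6a_prr_pos he1 hz.2
  have hl := h6a_prr_lt he1 hz.1
  refine ⟨?_, ?_⟩
  · rw [mem_ball, dist_eq_norm, hn]
    calc ρ0 * prr e0 z.re < ρ0 * 1 := mul_lt_mul_of_pos_left hl hρ
      _ = ρ0 := mul_one _
  · intro h
    have h' : pF q ρ0 e0 T1 α0 z = q := h
    rw [h', sub_self, norm_zero] at hn
    have := mul_pos hρ hp
    linarith

theorem pF_inj {q : ℂ} {ρ0 e0 T1 : ℝ} {α0 : ℝ → ℝ} (hρ : 0 < ρ0) (he : 0 ≤ e0) (he1 : e0 < 1)
    (h1 : 0 < T1) (hB : QP (2 * Real.pi) α0) {z w : ℂ} (hz : z ∈ pX e0) (hw : w ∈ pX e0)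
    (h : pF q ρ0 e0 T1 α0 z = pF q ρ0 e0 T1 α0 w) : ∃ n : ℤ, w = z + n * (2 * Real.pi * I) := by
  have hn := h6a_norm_sub (q := q) (T1 := T1) (α0 := α0) hρ he1 hz
  have hn' := h6a_norm_sub (q := q) (T1 := T1) (α0 := α0) hρ he1 hw
  have hre : z.re = w.re := by
    apply h6a_prr_inj he1
    rw [h, hn'] at hn
    exact (mul_left_cancel₀ hρ.ne' hn).symm
  have hp := h6a_prr_pos he1 hz.2
  unfold pF at h
  rw [← hre] at h
  have h2 := add_left_cancel h
  have hne : ((ρ0 * prr e0 z.re : ℝ) : ℂ) ≠ 0 := by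
    exact_mod_cast (mul_pos hρ hp).ne'
  have h3 := mul_left_cancel₀ hne h2
  rw [Complex.exp_eq_exp_iff_exists_int] at h3
  obtain ⟨n, hn3⟩ := h3
  have h4 : lam T1 α0 (min z.re T1) z.im
      = lam T1 α0 (min z.re T1) w.im + n * (2 * Real.pi) := by
    have := congrArg Complex.im hn3
    simpa using this
  have ht0 := h6a_min_pos hz.1 h1
  have ht1 : min z.re T1 < 2 * T1 := h6a_min_lt h1
  rw [← h6a_per_int h1 hB ht0 ht1] at h4
  have h5 := (lam_strictMono h1 (by positivity) hB ht0 ht1).1.injective h4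
  refine ⟨-n, ?_⟩
  apply Complex.ext
  · simp [hre]
  · simp
    linarith

theorem pF_surj {q : ℂ} {ρ0 e0 T1 : ℝ} {α0 : ℝ → ℝ} (hρ : 0 < ρ0) (he : 0 ≤ e0) (he1 : e0 < 1)
    (h1 : 0 < T1) (hB : QP (2 * Real.pi) α0) {y : ℂ} (hy : y ∈ ball q ρ0 \ {q}) :
    ∃ z ∈ pX e0, pF q ρ0 e0 T1 α0 z = y := by
  have hs0 : 0 < ‖y - q‖ := by
    rw [norm_pos_iff, sub_ne_zero]
    exact hy.2
  have hs1 : ‖y - q‖ < ρ0 := by
    have := hy.1
    rwa [mem_ball, dist_eq_norm] at this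
  set s := ‖y - q‖ with hs
  have hd : 0 < 1 - e0 := by linarith
  have hsr0 : 0 < s / ρ0 := div_pos hs0 hρ
  have hsr1 : s / ρ0 < 1 := by rwa [div_lt_one hρ]
  set E := e0 + (1 - e0) * (s / ρ0) with hE
  have hE0 : e0 < E := by
    have := mul_pos hd hsr0
    linarith
  have hE1 : E < 1 := by
    have := mul_lt_mul_of_pos_left hsr1 hd
    linarith
  have hEp : 0 < E := lt_of_le_of_lt he hE0
  have ht : 0 < -Real.log E := by
    have := Real.log_neg hEp hE1
    linarith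
  have hexp : Real.exp (-(-Real.log E)) = E := by
    rw [neg_neg, Real.exp_log hEp]
  have ht0 := h6a_min_pos ht h1
  have ht1 : min (-Real.log E) T1 < 2 * T1 := h6a_min_lt h1
  obtain ⟨θ, hθ⟩ : Complex.arg (y - q) ∈ Set.range (fun θ => lam T1 α0 (min (-Real.log E) T1) θ) := by
    have hpi := Real.pi_pos
    apply mem_range_of_exists_le_of_exists_ge (h6a_lam_cont h1 hB ht0 ht1)
    · obtain ⟨n, hn⟩ := exists_int_lt ((Complex.arg (y - q)
        - lam T1 α0 (min (-Real.log E) T1) 0) / (2 * Real.pi))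
      refine ⟨0 + n * (2 * Real.pi), ?_⟩
      rw [h6a_per_int h1 hB ht0 ht1]
      rw [lt_div_iff₀ (by positivity)] at hn
      linarith
    · obtain ⟨n, hn⟩ := exists_int_gt ((Complex.arg (y - q)
        - lam T1 α0 (min (-Real.log E) T1) 0) / (2 * Real.pi))
      refine ⟨0 + n * (2 * Real.pi), ?_⟩
      rw [h6a_per_int h1 hB ht0 ht1]
      rw [div_lt_iff₀ (by positivity)] at hn
      linarith
  have e1 : (((-Real.log E : ℝ) : ℂ) + (θ : ℂ) * I).re = -Real.log E := by simp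
  have e2 : (((-Real.log E : ℝ) : ℂ) + (θ : ℂ) * I).im = θ := by simp
  refine ⟨((-Real.log E : ℝ) : ℂ) + (θ : ℂ) * I, ⟨?_, ?_⟩, ?_⟩
  · rw [e1]; exact ht
  · rw [e1, hexp]; exact hE0
  · have hθ' : lam T1 α0 (min (-Real.log E) T1) θ = Complex.arg (y - q) := hθ
    unfold pF
    rw [e1, e2, hθ']
    have hr : ρ0 * prr e0 (-Real.log E) = s := by
      unfold prr
      rw [hexp, hE, add_sub_cancel_left, mul_div_cancel_left₀ _ hd.ne', mul_div_cancel₀ _ hρ.ne']
    rw [hr, hs, mul_comm I, Complex.norm_mul_exp_arg_mul_I]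
    ring

theorem pF_end {q : ℂ} {ρ0 e0 T1 : ℝ} {α0 : ℝ → ℝ} (hρ : 0 < ρ0) (he : 0 ≤ e0) (he1 : e0 < 1)
    {η : ℝ} (hη : 0 < η) :
    ∃ a : ℝ, (a : ℂ) ∈ pX e0 ∧ ∀ z ∈ pX e0, a < z.re → dist (pF q ρ0 e0 T1 α0 z) q < η := by
  have hd : 0 < 1 - e0 := by linarith
  set m := min (η / (2 * ρ0)) (1 / 2) with hm
  have hm0 : 0 < m := lt_min (by positivity) (by norm_num)
  have hm1 : m < 1 := lt_of_le_of_lt (min_le_right _ _) (by norm_num)
  set E := e0 + (1 - e0) * m with hE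
  have hE0 : e0 < E := by
    have := mul_pos hd hm0
    linarith
  have hE1 : E < 1 := by
    have := mul_lt_mul_of_pos_left hm1 hd
    linarith
  have hEp : 0 < E := lt_of_le_of_lt he hE0
  have ht : 0 < -Real.log E := by
    have := Real.log_neg hEp hE1
    linarith
  have hexp : Real.exp (-(-Real.log E)) = E := by
    rw [neg_neg, Real.exp_log hEp]
  refine ⟨-Real.log E, ⟨?_, ?_⟩, ?_⟩
  · rw [Complex.ofReal_re]; exact ht
  · rw [Complex.ofReal_re, hexp]; exact hE0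
  · intro z hz hlt
    rw [dist_eq_norm, h6a_norm_sub hρ he1 hz]
    have h2 := h6a_prr_anti he1 hlt
    have h3 : prr e0 (-Real.log E) = m := by
      unfold prr
      rw [hexp, hE, add_sub_cancel_left, mul_div_cancel_left₀ _ hd.ne']
    rw [h3] at h2
    have h4 : m ≤ η / (2 * ρ0) := min_le_left _ _
    calc ρ0 * prr e0 z.re < ρ0 * m := mul_lt_mul_of_pos_left h2 hρ
      _ ≤ ρ0 * (η / (2 * ρ0)) := mul_le_mul_of_nonneg_left h4 hρ.le
      _ = η / 2 := by field_simp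
      _ < η := by linarith

end CF6

end

section

/-! # Module H, row H6b: the cell map of a point component, derivatives

`lam T1 α0 (re z) (im z) = im (LcF T1 α0 (-I z))` for `0 < re z < 2 T1` (`lam_eq_im`: `-I (t + iθ) = θ - i t`), `LcF` is holomorphic (`LcF_diff`), so `z ↦ lam T1 α0 (re z) (im z)` is `C^∞` on `{0 < re z < 2 T1}` (real sense), locally Lipschitz.
`pF_lip`: `z ↦ (min (re z) T1) + im z I` is 1-Lipschitz with values in `{0 < re ≤ T1}` for `0 < re z`, so `pF` is locally Lipschitz on `{0 < re z}` (products, `exp`, `prr` smooth).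
`pF_deriv`: for `0 < re z`, `re z ≠ T1`, the function `pF` is differentiable at `z` and with `t = re z`, `r = prr e0 t`, `r' = -exp (-t)/(1-e0)`, `λ = lam T1 α0 (min t T1) (im z)`, `λ_t` (replaced by `0` if `t > T1`), `λ_θ` the two derivatives of `lam`:
`fderiv pF z 1 = ρ0 (r' + i r λ_t) e^{iλ}`, `fderiv pF z I = ρ0 r i λ_θ e^{iλ}`, so `‖·‖² = ρ0² (r'² + r² λ_t²)` and `ρ0² r² λ_θ²`; `0 ≤ r ≤ exp (-t) ≤ 1`, `r'² = exp(-2t)/(1-e0)²`. -/

open Complex MeasureTheory Set Filter Topology Metric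
open scoped ENNReal

namespace CF6

private lemma h6b_line {f : ℂ → ℂ} {z v D : ℂ} (h : HasDerivAt (fun s : ℝ => f (z + s * v)) D 0)
    (hd : DifferentiableAt ℝ f z) : fderiv ℝ f z v = D := by
  have h1 : HasDerivAt (fun s : ℝ => z + (s : ℂ) * v) v 0 := by
    have h2 : HasDerivAt (fun s : ℝ => (s : ℂ)) 1 0 := ofRealCLM.hasDerivAt
    have h3 := (h2.mul_const v).const_add z
    rwa [one_mul] at h3
  have h4 : z + ((0 : ℝ) : ℂ) * v = z := by simp
  have h5 : HasFDerivAt f (fderiv ℝ f z) (z + ((0 : ℝ) : ℂ) * v) := by rw [h4]; exact hd.hasFDerivAt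
  have h6 := h5.comp_hasDerivAt (0 : ℝ) h1
  exact h6.unique h

private lemma h6b_der {q : ℂ} {a b : ℝ → ℝ} {a' b' x : ℝ} (ha : HasDerivAt a a' x) (hb : HasDerivAt b b' x) :
    HasDerivAt (fun s => q + ((a s : ℝ) : ℂ) * exp (I * ((b s : ℝ) : ℂ)))
      (((a' : ℝ) + ((a x * b' : ℝ) : ℂ) * I) * exp (((b x : ℝ) : ℂ) * I)) x := by
  have h1 := ha.ofReal_comp
  have h2 := (hb.ofReal_comp.const_mul I).cexp
  have h3 := (h1.mul h2).const_add q
  refine h3.congr_deriv ?_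
  rw [mul_comm ((b x : ℝ) : ℂ) I]
  push_cast
  ring

private lemma h6b_norm (a b c : ℝ) : ‖(((a : ℝ) : ℂ) + ((b : ℝ) : ℂ) * I) * exp (((c : ℝ) : ℂ) * I)‖ ^ 2 =
    a ^ 2 + b ^ 2 := by
  rw [norm_mul, norm_exp_ofReal_mul_I, mul_one, ← normSq_eq_norm_sq, normSq_add_mul_I]

private lemma h6b_prr {e0 : ℝ} (t : ℝ) :
    HasDerivAt (prr e0) (-Real.exp (-t) / (1 - e0)) t := by
  have h1 : HasDerivAt (fun t : ℝ => Real.exp (-t)) (-Real.exp (-t)) t := by
    have := (hasDerivAt_neg t).exp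
    simpa using this
  exact ((h1.sub_const e0).div_const (1 - e0))

private lemma h6b_prr_bd {e0 t : ℝ} (he : 0 ≤ e0) (he1 : e0 < 1) (ht : 0 < t) (hte : e0 < Real.exp (-t)) :
    0 ≤ prr e0 t ∧ prr e0 t ≤ Real.exp (-t) := by
  have h0 : 0 < 1 - e0 := by linarith
  have h1 : Real.exp (-t) ≤ 1 := Real.exp_le_one_iff.mpr (by linarith)
  unfold prr
  constructor
  · apply div_nonneg _ h0.le
    linarith
  · rw [div_le_iff₀ h0]
    nlinarith

/-- the derivative bound, given the two derivatives of the angle along the lines -/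
private lemma h6b_main {q : ℂ} {ρ0 e0 T1 : ℝ} {α0 : ℝ → ℝ} (he : 0 ≤ e0) (he1 : e0 < 1)
    {z : ℂ} (hz : z ∈ pX e0) {b1 b2 : ℝ}
    (h1 : HasDerivAt (fun s : ℝ => lam T1 α0 (min (z.re + s) T1) z.im) b1 0)
    (h2 : HasDerivAt (fun s : ℝ => lam T1 α0 (min z.re T1) (z.im + s)) b2 0) :
    ‖fderiv ℝ (pF q ρ0 e0 T1 α0) z 1‖ ^ 2 + ‖fderiv ℝ (pF q ρ0 e0 T1 α0) z I‖ ^ 2 ≤
      ρ0 ^ 2 * (Real.exp (-2 * z.re) / (1 - e0) ^ 2 + Real.exp (-2 * z.re) * (b1 ^ 2 + b2 ^ 2)) := by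
  have h0 : 0 < 1 - e0 := by linarith
  obtain ⟨hr0, hr1⟩ := h6b_prr_bd he he1 hz.1 hz.2
  have hee : Real.exp (-2 * z.re) = Real.exp (-z.re) ^ 2 := by
    rw [← Real.exp_nat_mul]; congr 1; push_cast; ring
  by_cases hd : DifferentiableAt ℝ (pF q ρ0 e0 T1 α0) z
  · have d1 : HasDerivAt (fun s : ℝ => ρ0 * prr e0 (z.re + s)) (ρ0 * (-Real.exp (-z.re) / (1 - e0))) 0 := by
      have h3 : HasDerivAt (prr e0) (-Real.exp (-z.re) / (1 - e0)) (z.re + 0) := by
        rw [add_zero]; exact h6b_prr z.re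
      exact (h3.comp_const_add z.re 0).const_mul ρ0
    have e1 : (fun s : ℝ => pF q ρ0 e0 T1 α0 (z + s * 1)) = fun s : ℝ =>
        q + ((ρ0 * prr e0 (z.re + s) : ℝ) : ℂ) * exp (I * ((lam T1 α0 (min (z.re + s) T1) z.im : ℝ) : ℂ)) := by
      funext s
      unfold pF
      have r1 : (z + (s : ℂ) * 1).re = z.re + s := by simp
      have r2 : (z + (s : ℂ) * 1).im = z.im := by simp
      rw [r1, r2]
    have e2 : (fun s : ℝ => pF q ρ0 e0 T1 α0 (z + s * I)) = fun s : ℝ =>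
        q + ((ρ0 * prr e0 z.re : ℝ) : ℂ) * exp (I * ((lam T1 α0 (min z.re T1) (z.im + s) : ℝ) : ℂ)) := by
      funext s
      unfold pF
      have r1 : (z + (s : ℂ) * I).re = z.re := by simp
      have r2 : (z + (s : ℂ) * I).im = z.im + s := by simp
      rw [r1, r2]
    have k1 := h6b_der (q := q) d1 h1
    have k2 := h6b_der (q := q) (hasDerivAt_const (0 : ℝ) (ρ0 * prr e0 z.re)) h2
    rw [← e1] at k1
    rw [← e2] at k2
    rw [h6b_line k1 hd, h6b_line k2 hd, h6b_norm, h6b_norm, hee]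
    simp only [add_zero]
    have hr2 : prr e0 z.re ^ 2 ≤ Real.exp (-z.re) ^ 2 := pow_le_pow_left₀ hr0 hr1 2
    have t1 : (ρ0 * (-Real.exp (-z.re) / (1 - e0))) ^ 2 = ρ0 ^ 2 * (Real.exp (-z.re) ^ 2 / (1 - e0) ^ 2) := by
      field_simp
    have t2 : (ρ0 * prr e0 z.re * b1) ^ 2 ≤ ρ0 ^ 2 * (Real.exp (-z.re) ^ 2 * b1 ^ 2) := by
      have : (ρ0 * prr e0 z.re * b1) ^ 2 = ρ0 ^ 2 * (prr e0 z.re ^ 2 * b1 ^ 2) := by ring
      rw [this]
      gcongr
    have t3 : (ρ0 * prr e0 z.re * b2) ^ 2 ≤ ρ0 ^ 2 * (Real.exp (-z.re) ^ 2 * b2 ^ 2) := by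
      have : (ρ0 * prr e0 z.re * b2) ^ 2 = ρ0 ^ 2 * (prr e0 z.re ^ 2 * b2 ^ 2) := by ring
      rw [this]
      gcongr
    have t4 : ((0 : ℝ)) ^ 2 = 0 := by norm_num
    rw [t1, t4]
    have t5 : ρ0 ^ 2 * (Real.exp (-z.re) ^ 2 / (1 - e0) ^ 2 + Real.exp (-z.re) ^ 2 * (b1 ^ 2 + b2 ^ 2)) =
        ρ0 ^ 2 * (Real.exp (-z.re) ^ 2 / (1 - e0) ^ 2) + ρ0 ^ 2 * (Real.exp (-z.re) ^ 2 * b1 ^ 2) +
        ρ0 ^ 2 * (Real.exp (-z.re) ^ 2 * b2 ^ 2) := by ring
    rw [t5]
    linarith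
  · rw [fderiv_zero_of_not_differentiableAt hd]
    simp only [zero_apply, norm_zero]
    have : 0 ≤ ρ0 ^ 2 * (Real.exp (-2 * z.re) / (1 - e0) ^ 2 + Real.exp (-2 * z.re) * (b1 ^ 2 + b2 ^ 2)) := by
      positivity
    linarith

private lemma h6b_comp {E F G : Type*} [PseudoEMetricSpace E] [PseudoEMetricSpace F] [PseudoEMetricSpace G]
    {f : E → F} {g : F → G} {z : E} (hf : ∃ K : NNReal, ∃ t ∈ 𝓝 z, LipschitzOnWith K f t)
    (hg : ∃ K : NNReal, ∃ t ∈ 𝓝 (f z), LipschitzOnWith K g t) :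
    ∃ K : NNReal, ∃ t ∈ 𝓝 z, LipschitzOnWith K (fun x => g (f x)) t := by
  obtain ⟨K, t, ht, hL⟩ := hf
  obtain ⟨K', s, hs, hL'⟩ := hg
  have hc : ContinuousAt f z := hL.continuousOn.continuousAt ht
  exact ⟨K' * K, t ∩ f ⁻¹' s, inter_mem ht (hc hs), hL'.comp (hL.mono inter_subset_left) (fun x hx => hx.2)⟩

private lemma h6b_pair {F G : Type*} [PseudoEMetricSpace F] [PseudoEMetricSpace G] {f : ℂ → F} {g : ℂ → G}
    {z : ℂ} (hf : ∃ K : NNReal, ∃ t ∈ 𝓝 z, LipschitzOnWith K f t)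
    (hg : ∃ K : NNReal, ∃ t ∈ 𝓝 z, LipschitzOnWith K g t) :
    ∃ K : NNReal, ∃ t ∈ 𝓝 z, LipschitzOnWith K (fun x => (f x, g x)) t := by
  obtain ⟨K, t, ht, hL⟩ := hf
  obtain ⟨K', s, hs, hL'⟩ := hg
  exact ⟨max K K', t ∩ s, inter_mem ht hs, (hL.mono inter_subset_left).prodMk (hL'.mono inter_subset_right)⟩

/-- the angle is smooth on the open strip -/
private lemma h6b_lam_smooth {T1 : ℝ} {α0 : ℝ → ℝ} (h1 : 0 < T1) (hB : QP (2 * Real.pi) α0) {w : ℂ}
    (hw : 0 < w.re) (hw2 : w.re < 2 * T1) :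
    ContDiffAt ℝ 1 (fun z : ℂ => ((lam T1 α0 z.re z.im : ℝ) : ℂ)) w := by
  have hopen : IsOpen {ζ : ℂ | -(2 * T1) < ζ.im ∧ ζ.im < 0} :=
    (isOpen_lt continuous_const continuous_im).inter (isOpen_lt continuous_im continuous_const)
  have him : ∀ z : ℂ, (-I * z).im = -z.re := by intro z; simp
  have hmem : -I * w ∈ {ζ : ℂ | -(2 * T1) < ζ.im ∧ ζ.im < 0} := by
    refine ⟨?_, ?_⟩
    · rw [him]; linarith
    · rw [him]; linarith
  have hG : ContDiffAt ℂ 1 (LcF T1 α0) (-I * w) :=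
    ((LcF_diff h1 hB).contDiffOn hopen).contDiffAt (hopen.mem_nhds hmem)
  have hG' : ContDiffAt ℝ 1 (fun z : ℂ => LcF T1 α0 (-I * z)) w := by
    have h2 : ContDiffAt ℝ 1 (fun z : ℂ => -I * z) w := contDiffAt_const.mul contDiffAt_id
    exact (hG.restrict_scalars ℝ).comp w h2
  have him2 : ContDiffAt ℝ 1 (fun z : ℂ => (((LcF T1 α0 (-I * z)).im : ℝ) : ℂ)) w :=
    (ofRealCLM.contDiff.contDiffAt).comp w ((imCLM.contDiff.contDiffAt).comp w hG')
  apply him2.congr_of_eventuallyEq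
  have hev : ∀ᶠ z : ℂ in 𝓝 w, 0 < z.re ∧ z.re < 2 * T1 :=
    (continuous_re.continuousAt.eventually (lt_mem_nhds hw)).and
      (continuous_re.continuousAt.eventually (gt_mem_nhds hw2))
  filter_upwards [hev] with z hz
  rw [lam_eq_im h1 hB hz.1 hz.2]
  congr 3
  apply Complex.ext <;> simp

theorem pF_lip {q : ℂ} {ρ0 e0 T1 : ℝ} {α0 : ℝ → ℝ} (h1 : 0 < T1) (he1 : e0 < 1)
    (hB : QP (2 * Real.pi) α0) {z : ℂ} (hz : 0 < z.re) :
    ∃ K : NNReal, ∃ t ∈ 𝓝 z, LipschitzOnWith K (pF q ρ0 e0 T1 α0) t := by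
  have hm : LipschitzWith 1 (fun z : ℂ => ((min z.re T1 : ℝ) : ℂ) + z.im * I) := by
    apply LipschitzWith.of_dist_le_mul
    intro x y
    rw [NNReal.coe_one, one_mul, dist_eq_norm, dist_eq_norm]
    have h2 : ((min x.re T1 : ℝ) : ℂ) + x.im * I - (((min y.re T1 : ℝ) : ℂ) + y.im * I) =
        ((min x.re T1 - min y.re T1 : ℝ) : ℂ) + ((x.im - y.im : ℝ) : ℂ) * I := by
      push_cast; ring
    have h3 : x - y = ((x.re - y.re : ℝ) : ℂ) + ((x.im - y.im : ℝ) : ℂ) * I := by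
      apply Complex.ext <;> simp
    rw [h2, h3]
    have h4 : ‖((min x.re T1 - min y.re T1 : ℝ) : ℂ) + ((x.im - y.im : ℝ) : ℂ) * I‖ ^ 2 ≤
        ‖((x.re - y.re : ℝ) : ℂ) + ((x.im - y.im : ℝ) : ℂ) * I‖ ^ 2 := by
      rw [← normSq_eq_norm_sq, ← normSq_eq_norm_sq, normSq_add_mul_I, normSq_add_mul_I]
      have h5 : |min x.re T1 - min y.re T1| ≤ |x.re - y.re| := by
        have := abs_min_sub_min_le_max x.re T1 y.re T1
        rw [sub_self, abs_zero, max_eq_left (abs_nonneg _)] at this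
        exact this
      have h6 : (min x.re T1 - min y.re T1) ^ 2 ≤ (x.re - y.re) ^ 2 := sq_le_sq.mpr h5
      linarith
    exact (pow_le_pow_iff_left₀ (norm_nonneg _) (norm_nonneg _) (by norm_num)).mp h4
  have hre : (((min z.re T1 : ℝ) : ℂ) + z.im * I).re = min z.re T1 := by simp
  have hw : 0 < (((min z.re T1 : ℝ) : ℂ) + z.im * I).re := by rw [hre]; exact lt_min hz h1
  have hw2 : (((min z.re T1 : ℝ) : ℂ) + z.im * I).re < 2 * T1 := by
    rw [hre]; exact lt_of_le_of_lt (min_le_right _ _) (by linarith)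
  have hsm := h6b_lam_smooth h1 hB hw hw2
  have hf2 : ContDiffAt ℝ 1 (fun w : ℂ => exp (I * ((lam T1 α0 w.re w.im : ℝ) : ℂ)))
      (((min z.re T1 : ℝ) : ℂ) + z.im * I) := (contDiffAt_const.mul hsm).cexp
  have hA : ∃ K : NNReal, ∃ t ∈ 𝓝 z, LipschitzOnWith K
      (fun z : ℂ => exp (I * ((lam T1 α0 (((min z.re T1 : ℝ) : ℂ) + z.im * I).re
        (((min z.re T1 : ℝ) : ℂ) + z.im * I).im : ℝ) : ℂ))) t :=
    h6b_comp (f := fun z : ℂ => ((min z.re T1 : ℝ) : ℂ) + z.im * I)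
      (g := fun w : ℂ => exp (I * ((lam T1 α0 w.re w.im : ℝ) : ℂ)))
      ⟨1, univ, univ_mem, hm.lipschitzOnWith⟩ hf2.exists_lipschitzOnWith
  have hP : ContDiffAt ℝ 1 (fun z : ℂ => (((ρ0 * prr e0 z.re : ℝ)) : ℂ)) z := by
    have h2 : ContDiffAt ℝ 1 (fun z : ℂ => ρ0 * prr e0 z.re) z := by
      have h3 : ContDiff ℝ 1 (fun z : ℂ => z.re) := reCLM.contDiff
      have h4 : ContDiff ℝ 1 (fun z : ℂ => ρ0 * ((Real.exp (-z.re) - e0) / (1 - e0))) :=
        contDiff_const.mul (((h3.neg.exp).sub contDiff_const).div_const _)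
      exact h4.contDiffAt
    exact (ofRealCLM.contDiff.contDiffAt).comp z h2
  have hC : ContDiff ℝ 1 (fun p : ℂ × ℂ => q + p.1 * p.2) :=
    contDiff_const.add (contDiff_fst.mul contDiff_snd)
  have hfin := h6b_comp (g := fun p : ℂ × ℂ => q + p.1 * p.2) (h6b_pair hP.exists_lipschitzOnWith hA)
    hC.contDiffAt.exists_lipschitzOnWith
  obtain ⟨K, t, ht, hL⟩ := hfin
  refine ⟨K, t, ht, ?_⟩
  have heq : pF q ρ0 e0 T1 α0 = fun z : ℂ => q + (((ρ0 * prr e0 z.re : ℝ)) : ℂ) *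
      exp (I * ((lam T1 α0 (((min z.re T1 : ℝ) : ℂ) + z.im * I).re
        (((min z.re T1 : ℝ) : ℂ) + z.im * I).im : ℝ) : ℂ)) := by
    funext x
    unfold pF
    have r1 : (((min x.re T1 : ℝ) : ℂ) + x.im * I).re = min x.re T1 := by simp
    have r2 : (((min x.re T1 : ℝ) : ℂ) + x.im * I).im = x.im := by simp
    rw [r1, r2]
  rw [heq]
  exact hL

/-- `t < T1` -/
theorem pF_deriv1 {q : ℂ} {ρ0 e0 T1 : ℝ} {α0 : ℝ → ℝ} (hρ : 0 < ρ0) (he : 0 ≤ e0) (he1 : e0 < 1)
    (h1 : 0 < T1) (hB : QP (2 * Real.pi) α0) {z : ℂ} (hz : z ∈ pX e0) (h : z.re < T1) :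
    ‖fderiv ℝ (pF q ρ0 e0 T1 α0) z 1‖ ^ 2 + ‖fderiv ℝ (pF q ρ0 e0 T1 α0) z I‖ ^ 2 ≤
      ρ0 ^ 2 * (Real.exp (-2 * z.re) / (1 - e0) ^ 2 +
        (deriv (fun t => lam T1 α0 t z.im) z.re ^ 2 +
          deriv (fun θ => lam T1 α0 z.re θ) z.im ^ 2)) := by
  have hz1 := hz.1
  have hT : z.re < 2 * T1 := by linarith
  have d1 := lam_hasDerivAt_t h1 hB hz1 hT z.im
  have d2 := lam_hasDerivAt_theta h1 hB hz1 hT z.im
  have k1 : HasDerivAt (fun s : ℝ => lam T1 α0 (min (z.re + s) T1) z.im)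
      (-(deriv (LcF T1 α0) (z.im - z.re * I)).re) 0 := by
    have h3 : HasDerivAt (fun t => lam T1 α0 t z.im) (-(deriv (LcF T1 α0) (z.im - z.re * I)).re) (z.re + 0) := by
      rw [add_zero]; exact d1
    apply (h3.comp_const_add z.re 0).congr_of_eventuallyEq
    have hev : ∀ᶠ s : ℝ in 𝓝 0, s < T1 - z.re := gt_mem_nhds (by linarith)
    filter_upwards [hev] with s hs
    rw [min_eq_left (by linarith)]
  have k2 : HasDerivAt (fun s : ℝ => lam T1 α0 (min z.re T1) (z.im + s))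
      ((deriv (LcF T1 α0) (z.im - z.re * I)).im) 0 := by
    rw [min_eq_left h.le]
    have h3 : HasDerivAt (fun θ => lam T1 α0 z.re θ) ((deriv (LcF T1 α0) (z.im - z.re * I)).im) (z.im + 0) := by
      rw [add_zero]; exact d2
    exact h3.comp_const_add z.im 0
  have hmain := h6b_main (q := q) (ρ0 := ρ0) he he1 hz k1 k2
  refine hmain.trans ?_
  rw [d1.deriv, d2.deriv]
  have he2 : Real.exp (-2 * z.re) ≤ 1 := Real.exp_le_one_iff.mpr (by linarith)
  apply mul_le_mul_of_nonneg_left _ (sq_nonneg ρ0)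
  have h4 : 0 ≤ (-(deriv (LcF T1 α0) (z.im - z.re * I)).re) ^ 2 + ((deriv (LcF T1 α0) (z.im - z.re * I)).im) ^ 2 := by
    positivity
  have h5 := mul_le_mul_of_nonneg_right he2 h4
  linarith

/-- `t > T1` -/
theorem pF_deriv2 {q : ℂ} {ρ0 e0 T1 : ℝ} {α0 : ℝ → ℝ} (hρ : 0 < ρ0) (he : 0 ≤ e0) (he1 : e0 < 1)
    (h1 : 0 < T1) (hB : QP (2 * Real.pi) α0) {z : ℂ} (hz : z ∈ pX e0) (h : T1 < z.re) :
    ‖fderiv ℝ (pF q ρ0 e0 T1 α0) z 1‖ ^ 2 + ‖fderiv ℝ (pF q ρ0 e0 T1 α0) z I‖ ^ 2 ≤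
      ρ0 ^ 2 * (Real.exp (-2 * z.re) / (1 - e0) ^ 2 +
        Real.exp (-2 * z.re) * deriv (fun θ => lam T1 α0 T1 θ) z.im ^ 2) := by
  have hz1 := hz.1
  have hT : T1 < 2 * T1 := by linarith
  have d2 := lam_hasDerivAt_theta h1 hB h1 hT z.im
  have k1 : HasDerivAt (fun s : ℝ => lam T1 α0 (min (z.re + s) T1) z.im) 0 0 := by
    apply (hasDerivAt_const (0 : ℝ) (lam T1 α0 T1 z.im)).congr_of_eventuallyEq
    have hev : ∀ᶠ s : ℝ in 𝓝 0, T1 - z.re < s := lt_mem_nhds (by linarith)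
    filter_upwards [hev] with s hs
    rw [min_eq_right (by linarith)]
  have k2 : HasDerivAt (fun s : ℝ => lam T1 α0 (min z.re T1) (z.im + s))
      ((deriv (LcF T1 α0) (z.im - T1 * I)).im) 0 := by
    rw [min_eq_right h.le]
    have h3 : HasDerivAt (fun θ => lam T1 α0 T1 θ) ((deriv (LcF T1 α0) (z.im - T1 * I)).im) (z.im + 0) := by
      rw [add_zero]; exact d2
    exact h3.comp_const_add z.im 0
  have hmain := h6b_main (q := q) (ρ0 := ρ0) he he1 hz k1 k2
  refine hmain.trans (le_of_eq ?_)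
  rw [d2.deriv]
  ring

end CF6

end
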