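import Pool.Agent.Lib.MP_cf6b16_an.K1

section

set_option autoImplicit false

open MeasureTheory Metric Set Filter Topology
open scoped ContDiff ENNReal ComplexConjugate

namespace CF6

theorem j1_locHomeo {u : ℂ → ℂ} (hu : ContDiffOn ℝ 1 u (ball 0 1))
    (hi : ∀ z ∈ ball (0 : ℂ) 1, Function.Injective (fderiv ℝ u z)) :
    IsLocalHomeomorphOn u (ball 0 1) := by
  refine IsLocalHomeomorphOn.mk _ _ fun z hz => ?_
  have hca : ContDiffAt ℝ 1 u z := hu.contDiffAt (isOpen_ball.mem_nhds hz)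
  obtain ⟨e, he⟩ : ∃ e : ℂ ≃L[ℝ] ℂ, (e : ℂ →L[ℝ] ℂ) = fderiv ℝ u z := by
    refine ⟨(LinearEquiv.ofInjectiveEndo ((fderiv ℝ u z : ℂ →L[ℝ] ℂ) : ℂ →ₗ[ℝ] ℂ)
      (hi z hz)).toContinuousLinearEquiv, ?_⟩
    refine ContinuousLinearMap.ext fun w => ?_
    rfl
  have hfd : HasFDerivAt u (e : ℂ →L[ℝ] ℂ) z := by
    rw [he]
    exact (hca.differentiableAt one_ne_zero).hasFDerivAt
  refine ⟨hca.toOpenPartialHomeomorph u hfd one_ne_zero, ?_, ?_⟩
  · exact hca.mem_toOpenPartialHomeomorph_source hfd one_ne_zero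
  · rw [hca.toOpenPartialHomeomorph_coe hfd one_ne_zero]
    exact fun _ _ => rfl

/-- J1. A proper local diffeomorphism between discs is bijective.
PROOF. Work with the restriction `f : ball 0 1 → ball c r` (subtypes). It is continuous, a local homeomorphism (inverse function theorem, `ContDiffAt.toOpenPartialHomeomorph`; injective linear maps `ℂ → ℂ` are invertible by dimension), a closed map (proper), with finite fibres (compact and discrete). Hence it is a covering map
(`IsClosedMap.isCoveringMapOn_of_isLocalHomeomorphOn` or `IsProperMap`-version in Mathlib.Topology.Covering.Basic). Surjective: the image is open and closed in the connected `ball c r` and not empty. Injective: `ball c r` is simply connected and locally path connected; for `x` in the disc lift the identity of `ball c r` to a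
continuous section `s` with `s (f x) = x` (`IsCoveringMap.existsUnique_continuousMap_lifts`); `s '' (ball c r)` is open and closed in the connected disc (`s` is a section of a local homeomorphism; closed because it is the set `{y | s (f y) = y}`), so it is everything, and `f` is injective. -/
theorem bijOn_of_local {c : ℂ} {r : ℝ} (hr : 0 < r) {u : ℂ → ℂ} (hu : ContDiffOn ℝ 1 u (ball 0 1))
    (hm : MapsTo u (ball 0 1) (ball c r))
    (hp : ∀ K, K ⊆ ball c r → IsCompact K → IsCompact (ball 0 1 ∩ u ⁻¹' K))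
    (hi : ∀ z ∈ ball (0 : ℂ) 1, Function.Injective (fderiv ℝ u z)) :
    BijOn u (ball 0 1) (ball c r) := by
  have hcu : ContinuousOn u (ball 0 1) := hu.continuousOn
  obtain ⟨f, hf⟩ : ∃ f : ball (0 : ℂ) 1 → ball c r, f = hm.restrict := ⟨_, rfl⟩
  have hfv : ∀ e, ((f e : ball c r) : ℂ) = u e := by
    intro e
    rw [hf]
    rfl
  have hfc : Continuous f := by
    rw [hf]
    exact hcu.mapsToRestrict hm
  have hloc : IsLocalHomeomorph f := by
    have h1 : IsLocalHomeomorph ((Subtype.val : ball c r → ℂ) ∘ f) := by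
      have h2 : (Subtype.val : ball c r → ℂ) ∘ f = u ∘ (Subtype.val : ball (0 : ℂ) 1 → ℂ) := by
        funext e
        exact hfv e
      rw [h2, isLocalHomeomorph_iff_isLocalHomeomorphOn_univ]
      refine (j1_locHomeo hu hi).comp (isLocalHomeomorph_iff_isLocalHomeomorphOn_univ.mp
        isOpen_ball.isOpenEmbedding_subtypeVal.isLocalHomeomorph) ?_
      intro e _
      exact e.2
    exact IsLocalHomeomorph.of_comp h1
      isOpen_ball.isOpenEmbedding_subtypeVal.isLocalHomeomorph hfc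
  have hcp : ∀ ⦃K : Set (ball c r)⦄, IsCompact K → IsCompact (f ⁻¹' K) := by
    intro K hK
    rw [Subtype.isCompact_iff]
    have h1 : IsCompact ((Subtype.val : ball c r → ℂ) '' K) := hK.image continuous_subtype_val
    have h2 := hp _ (by rintro _ ⟨x, _, rfl⟩; exact x.2) h1
    have h3 : (Subtype.val : ball (0 : ℂ) 1 → ℂ) '' (f ⁻¹' K) =
        ball 0 1 ∩ u ⁻¹' ((Subtype.val : ball c r → ℂ) '' K) := by
      ext z
      constructor
      · rintro ⟨e, he, rfl⟩
        exact ⟨e.2, f e, he, hfv e⟩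
      · rintro ⟨hz, x, hx, hxz⟩
        refine ⟨⟨z, hz⟩, ?_, rfl⟩
        have h4 : f ⟨z, hz⟩ = x := Subtype.ext ((hfv _).trans hxz.symm)
        show f ⟨z, hz⟩ ∈ K
        rw [h4]
        exact hx
    rw [h3]
    exact h2
  have hlc : LocallyCompactSpace (ball c r) :=
    isOpen_ball.isOpenEmbedding_subtypeVal.locallyCompactSpace
  have hprop : IsProperMap f := isProperMap_iff_isCompact_preimage.mpr ⟨hfc, hcp⟩
  have hfib : ∀ x ∈ (univ : Set (ball c r)), (f ⁻¹' {x}).Finite := by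
    intro x _
    refine (hcp isCompact_singleton).finite (IsDiscrete.of_openPartialHomeomorph f subset_rfl ?_)
    intro e _
    obtain ⟨φ, h1, h2⟩ := hloc e
    exact ⟨φ, h1, h2.symm⟩
  have hcov : IsCoveringMap f := by
    rw [isCoveringMap_iff_isCoveringMapOn_univ]
    refine hprop.isClosedMap.isCoveringMapOn_of_isLocalHomeomorphOn hfib ?_
    rw [preimage_univ]
    exact isLocalHomeomorph_iff_isLocalHomeomorphOn_univ.mp hloc
  have h1 : ContractibleSpace (ball c r) :=
    (convex_ball c r).contractibleSpace ⟨c, mem_ball_self hr⟩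
  have h2 : LocallyPathConnectedSpace (ball c r) := isOpen_ball.locallyPathConnectedSpace
  have h3 : PreconnectedSpace (ball (0 : ℂ) 1) :=
    isPreconnected_iff_preconnectedSpace.mp (convex_ball (0 : ℂ) 1).isPreconnected
  have hsec : ∀ e : ball (0 : ℂ) 1, ∃ F : ball c r → ball (0 : ℂ) 1,
      (∀ e', F (f e') = e') ∧ ∀ x, f (F x) = x := by
    intro e
    obtain ⟨F, ⟨hF1, hF2⟩, _⟩ := hcov.existsUnique_continuousMap_lifts
      (ContinuousMap.id (ball c r)) (f e) e rfl
    have h4 : ∀ x, f (F x) = x := fun x => congrFun hF2 x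
    refine ⟨F, ?_, h4⟩
    have h5 : (F ∘ f) = id := by
      refine hcov.eq_of_comp_eq (F.continuous.comp hfc) continuous_id ?_ e hF1
      funext e'
      exact h4 (f e')
    exact fun e' => congrFun h5 e'
  obtain ⟨F, hF1, hF2⟩ := hsec ⟨0, mem_ball_self one_pos⟩
  refine ⟨hm, ?_, ?_⟩
  · intro z hz z' hz' h
    have h4 : f ⟨z, hz⟩ = f ⟨z', hz'⟩ := Subtype.ext
      ((hfv ⟨z, hz⟩).trans (h.trans (hfv ⟨z', hz'⟩).symm))
    have h5 := congrArg F h4
    rw [hF1, hF1] at h5
    exact congrArg Subtype.val h5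
  · intro w hw
    refine ⟨F ⟨w, hw⟩, (F ⟨w, hw⟩).2, ?_⟩
    rw [← hfv, hF2]

end CF6

end

section

set_option autoImplicit false

open MeasureTheory Metric Set Filter Topology
open scoped ContDiff ENNReal ComplexConjugate

namespace CF6

variable {E : Type*} [NormedAddCommGroup E] [NormedSpace ℝ E]

/-- integral of a product with a continuous function with compact support in `U` -/
theorem s01_int_of_cont {U : Set ℂ} {f : ℂ → E} (hf : ContinuousOn f U) {g : ℂ → ℝ}
    (hg : Continuous g) (hc : HasCompactSupport g) (hU : tsupport g ⊆ U) :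
    Integrable (fun z => g z • f z) := by
  have hK : IsCompact (tsupport g) := hc
  have h1 : IntegrableOn (fun z => g z • f z) (tsupport g) :=
    (hg.continuousOn.smul (hf.mono hU)).integrableOn_compact hK
  refine h1.integrable_of_forall_notMem_eq_zero ?_
  intro z hz
  rw [image_eq_zero_of_notMem_tsupport hz, zero_smul]

theorem s01_fderiv {φ : ℂ → ℝ} (h1 : ContDiff ℝ ∞ φ) (h2 : HasCompactSupport φ) {U : Set ℂ}
    (h3 : tsupport φ ⊆ U) (e : ℂ) :
    Continuous (fun z => fderiv ℝ φ z e) ∧ HasCompactSupport (fun z => fderiv ℝ φ z e) ∧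
      tsupport (fun z => fderiv ℝ φ z e) ⊆ U := by
  have hs : tsupport (fun z => fderiv ℝ φ z e) ⊆ tsupport φ :=
    tsupport_fderiv_apply_subset ℝ e
  refine ⟨?_, ?_, hs.trans h3⟩
  · exact (h1.continuous_fderiv (by simp)).clm_apply continuous_const
  · exact h2.of_isClosed_subset (isClosed_tsupport _) hs

theorem s01_parts {U : Set ℂ} {f : ℂ → E} (hU : IsOpen U) (hf : ContDiffOn ℝ 1 f U)
    {φ : ℂ → ℝ} (h1 : ContDiff ℝ ∞ φ) (h2 : HasCompactSupport φ) (h3 : tsupport φ ⊆ U) (e : ℂ) :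
    ∫ z, (fderiv ℝ φ z e) • f z = - ∫ z, φ z • fderiv ℝ f z e := by
  obtain ⟨c1, c2, c3⟩ := s01_fderiv h1 h2 h3 e
  have hc : ContinuousOn (fun z => fderiv ℝ f z e) U :=
    (hf.continuousOn_fderiv_of_isOpen hU le_rfl).clm_apply continuousOn_const
  have := integral_smul_fderiv_eq_neg_fderiv_smul_of_integrable (μ := (volume : Measure ℂ))
    (f := φ) (g := f) (v := e) (s01_int_of_cont hf.continuousOn c1 c2 c3)
    (s01_int_of_cont hc h1.continuous h2 h3) (s01_int_of_cont hf.continuousOn h1.continuous h2 h3)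
    (fun x _ => (h1.differentiable (by simp)) x)
    (fun x hx => (hf.differentiableOn one_ne_zero).differentiableAt (hU.mem_nhds (h3 hx)))
  rw [this, neg_neg]

theorem s01_lp {U : Set ℂ} {f : ℂ → E} (hU : IsOpen U) (hf : ContDiffOn ℝ 1 f U) (e : ℂ) :
    ∀ K, K ⊆ U → IsCompact K → MemLp (fun z => fderiv ℝ f z e) 2 (volume.restrict K) := by
  intro K hK hc
  have hcont : ContinuousOn (fun z => fderiv ℝ f z e) K :=
    ((hf.continuousOn_fderiv_of_isOpen hU le_rfl).clm_apply continuousOn_const).mono hK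
  have hfin : IsFiniteMeasure ((volume : Measure ℂ).restrict K) :=
    ⟨by rw [Measure.restrict_apply_univ]; exact hc.measure_lt_top⟩
  obtain ⟨C, hC⟩ := hc.exists_bound_of_continuousOn hcont
  refine MemLp.of_bound (hcont.aestronglyMeasurable hc.measurableSet) C ?_
  rw [ae_restrict_iff' hc.measurableSet]
  exact Eventually.of_forall hC

/-- S01. A `C^1` function is in the class `Sob`, with its classical partial derivatives.
PROOF. `cont` is clear. `lx`, `ly`: `z ↦ fderiv ℝ f z 1` is continuous on the open set `U`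
(`ContDiffOn.continuousOn_fderiv_of_isOpen`), hence bounded and measurable on the compact `K`
(`ContinuousOn.memLp...` or `MemLp.of_bound`).
`wx`: let `φ` be a test function, `S = tsupport φ` compact in `U`. Take a smooth `χ`, `χ = 1` on a
neighbourhood of `S`, compact support in `U` (`exists_contDiff_tsupport_subset` gives `χ` for points; use
`exists_smooth_one_nhds_of_subset_interior`-like lemmas or `exists_contMDiff_support_eq_...`; or avoid `χ`: the function `ψ z = φ z • f z`, extended by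
`0` outside of `U`, is `C^1` with compact support, and the integral of its derivative in the direction `1` is `0`
(`integral_fderiv_eq_zero`-like: `integral_bilinear_hasLineDerivAt_right_eq_neg_left_of_integrable` with one function constant `1`,
or `integral_eq_zero_of_hasDerivAt...` on lines + Fubini); `fderiv ψ z 1 = φ z • fderiv f z 1 + (fderiv φ z 1) • f z` everywhere). -/
theorem sob_of_contDiffOn [CompleteSpace E] {U : Set ℂ} {f : ℂ → E} (hU : IsOpen U)
    (hf : ContDiffOn ℝ 1 f U) :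
    Sob U f (fun z => fderiv ℝ f z 1) (fun z => fderiv ℝ f z Complex.I) := by
  refine ⟨hf.continuousOn, s01_lp hU hf 1, s01_lp hU hf Complex.I, ?_, ?_⟩
  · intro φ h1 h2 h3
    exact s01_parts hU hf h1 h2 h3 1
  · intro φ h1 h2 h3
    exact s01_parts hU hf h1 h2 h3 Complex.I

end CF6

end

section

set_option autoImplicit false

open MeasureTheory Metric Set Filter Topology
open scoped ContDiff ENNReal ComplexConjugate

namespace CF6

variable {E : Type*} [NormedAddCommGroup E] [NormedSpace ℝ E]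

/-- integral of a product with a continuous function with compact support in `U` -/
theorem s02_int_of_cont {U : Set ℂ} {f : ℂ → E} (hf : ContinuousOn f U) {g : ℂ → ℝ}
    (hg : Continuous g) (hc : HasCompactSupport g) (hU : tsupport g ⊆ U) :
    Integrable (fun z => g z • f z) := by
  have hK : IsCompact (tsupport g) := hc
  have h1 : IntegrableOn (fun z => g z • f z) (tsupport g) :=
    (hg.continuousOn.smul (hf.mono hU)).integrableOn_compact hK
  refine h1.integrable_of_forall_notMem_eq_zero ?_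
  intro z hz
  rw [image_eq_zero_of_notMem_tsupport hz, zero_smul]

theorem s02_int_of_lp {U : Set ℂ} {f : ℂ → E}
    (hf : ∀ K, K ⊆ U → IsCompact K → MemLp f 2 (volume.restrict K)) {g : ℂ → ℝ}
    (hg : Continuous g) (hc : HasCompactSupport g) (hU : tsupport g ⊆ U) :
    Integrable (fun z => g z • f z) := by
  have hK : IsCompact (tsupport g) := hc
  have hfin : IsFiniteMeasure ((volume : Measure ℂ).restrict (tsupport g)) :=
    ⟨by rw [Measure.restrict_apply_univ]; exact hK.measure_lt_top⟩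
  have h0 : IntegrableOn f (tsupport g) := by
    have := (hf _ hU hK).mono_exponent (p := 1) (by norm_num)
    exact memLp_one_iff_integrable.1 this
  have h1 : IntegrableOn (fun z => g z • f z) (tsupport g) :=
    h0.continuousOn_smul hg.continuousOn hK
  refine h1.integrable_of_forall_notMem_eq_zero ?_
  intro z hz
  rw [image_eq_zero_of_notMem_tsupport hz, zero_smul]

theorem s02_fderiv {φ : ℂ → ℝ} (h1 : ContDiff ℝ ∞ φ) (h2 : HasCompactSupport φ) {U : Set ℂ}
    (h3 : tsupport φ ⊆ U) (e : ℂ) :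
    Continuous (fun z => fderiv ℝ φ z e) ∧ HasCompactSupport (fun z => fderiv ℝ φ z e) ∧
      tsupport (fun z => fderiv ℝ φ z e) ⊆ U := by
  have hs : tsupport (fun z => fderiv ℝ φ z e) ⊆ tsupport φ :=
    tsupport_fderiv_apply_subset ℝ e
  refine ⟨?_, ?_, hs.trans h3⟩
  · exact (h1.continuous_fderiv (by simp)).clm_apply continuous_const
  · exact h2.of_isClosed_subset (isClosed_tsupport _) hs

/-- S02a. restriction -/
theorem Sob.mono {U V : Set ℂ} {f fx fy : ℂ → E} (h : Sob U f fx fy) (hVU : V ⊆ U) :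
    Sob V f fx fy :=
  ⟨h.cont.mono hVU, fun K hK hc => h.lx K (hK.trans hVU) hc,
    fun K hK hc => h.ly K (hK.trans hVU) hc,
    fun φ h1 h2 h3 => h.wx φ h1 h2 (h3.trans hVU), fun φ h1 h2 h3 => h.wy φ h1 h2 (h3.trans hVU)⟩

/-- S02b. change of `f` off `U` -/
theorem Sob.congr {U : Set ℂ} {f g fx fy : ℂ → E} (h : Sob U f fx fy) (hg : ∀ z ∈ U, g z = f z) :
    Sob U g fx fy := by
  have key : ∀ φ : ℂ → ℝ, ContDiff ℝ ∞ φ → HasCompactSupport φ → tsupport φ ⊆ U → ∀ e : ℂ,
      ∫ z, (fderiv ℝ φ z e) • g z = ∫ z, (fderiv ℝ φ z e) • f z := by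
    intro φ h1 h2 h3 e
    have hs := (s02_fderiv h1 h2 h3 e).2.2
    refine integral_congr_ae (Eventually.of_forall fun z => ?_)
    by_cases hz : z ∈ U
    · simp only [hg z hz]
    · have : fderiv ℝ φ z e = 0 := image_eq_zero_of_notMem_tsupport
        (f := fun z => fderiv ℝ φ z e) (fun hh => hz (hs hh))
      simp only [this, zero_smul]
  exact ⟨h.cont.congr hg, h.lx, h.ly,
    fun φ h1 h2 h3 => by rw [key φ h1 h2 h3]; exact h.wx φ h1 h2 h3,
    fun φ h1 h2 h3 => by rw [key φ h1 h2 h3]; exact h.wy φ h1 h2 h3⟩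

theorem s02_congr_int {U : Set ℂ} {f g : ℂ → E} (hx : ∀ᵐ z, z ∈ U → g z = f z) {φ : ℂ → ℝ}
    (h3 : tsupport φ ⊆ U) : ∫ z, φ z • g z = ∫ z, φ z • f z := by
  refine integral_congr_ae ?_
  filter_upwards [hx] with z hz
  by_cases hzU : z ∈ U
  · simp only [hz hzU]
  · have : φ z = 0 := image_eq_zero_of_notMem_tsupport (fun hh => hzU (h3 hh))
    simp only [this, zero_smul]

omit [NormedSpace ℝ E] in
theorem s02_congr_lp {U : Set ℂ} {f g : ℂ → E} (hx : ∀ᵐ z, z ∈ U → g z = f z)
    (hf : ∀ K, K ⊆ U → IsCompact K → MemLp f 2 (volume.restrict K)) :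
    ∀ K, K ⊆ U → IsCompact K → MemLp g 2 (volume.restrict K) := by
  intro K hK hc
  refine (hf K hK hc).ae_eq ?_
  rw [EventuallyEq, ae_restrict_iff' hc.measurableSet]
  filter_upwards [hx] with z hz hzK
  exact (hz (hK hzK)).symm

/-- S02c. change of the derivatives on a null set -/
theorem Sob.congr_ae {U : Set ℂ} {f fx fy gx gy : ℂ → E} (h : Sob U f fx fy)
    (hx : ∀ᵐ z, z ∈ U → gx z = fx z) (hy : ∀ᵐ z, z ∈ U → gy z = fy z) :
    Sob U f gx gy :=
  ⟨h.cont, s02_congr_lp hx h.lx, s02_congr_lp hy h.ly,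
    fun φ h1 h2 h3 => by rw [s02_congr_int hx h3]; exact h.wx φ h1 h2 h3,
    fun φ h1 h2 h3 => by rw [s02_congr_int hy h3]; exact h.wy φ h1 h2 h3⟩

/-- S02d. sums, differences -/
theorem Sob.sub {U : Set ℂ} {f fx fy g gx gy : ℂ → E} (h : Sob U f fx fy) (h' : Sob U g gx gy) :
    Sob U (fun z => f z - g z) (fun z => fx z - gx z) (fun z => fy z - gy z) := by
  refine ⟨h.cont.sub h'.cont, fun K hK hc => (h.lx K hK hc).sub (h'.lx K hK hc),
    fun K hK hc => (h.ly K hK hc).sub (h'.ly K hK hc), ?_, ?_⟩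
  · intro φ h1 h2 h3
    obtain ⟨c1, c2, c3⟩ := s02_fderiv h1 h2 h3 1
    simp only [smul_sub]
    rw [integral_sub (s02_int_of_cont h.cont c1 c2 c3) (s02_int_of_cont h'.cont c1 c2 c3),
      integral_sub (s02_int_of_lp h.lx h1.continuous h2 h3)
        (s02_int_of_lp h'.lx h1.continuous h2 h3), h.wx φ h1 h2 h3, h'.wx φ h1 h2 h3]
    abel
  · intro φ h1 h2 h3
    obtain ⟨c1, c2, c3⟩ := s02_fderiv h1 h2 h3 Complex.I
    simp only [smul_sub]
    rw [integral_sub (s02_int_of_cont h.cont c1 c2 c3) (s02_int_of_cont h'.cont c1 c2 c3),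
      integral_sub (s02_int_of_lp h.ly h1.continuous h2 h3)
        (s02_int_of_lp h'.ly h1.continuous h2 h3), h.wy φ h1 h2 h3, h'.wy φ h1 h2 h3]
    abel

theorem Sob.add {U : Set ℂ} {f fx fy g gx gy : ℂ → E} (h : Sob U f fx fy) (h' : Sob U g gx gy) :
    Sob U (fun z => f z + g z) (fun z => fx z + gx z) (fun z => fy z + gy z) := by
  refine ⟨h.cont.add h'.cont, fun K hK hc => (h.lx K hK hc).add (h'.lx K hK hc),
    fun K hK hc => (h.ly K hK hc).add (h'.ly K hK hc), ?_, ?_⟩
  · intro φ h1 h2 h3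
    obtain ⟨c1, c2, c3⟩ := s02_fderiv h1 h2 h3 1
    simp only [smul_add]
    rw [integral_add (s02_int_of_cont h.cont c1 c2 c3) (s02_int_of_cont h'.cont c1 c2 c3),
      integral_add (s02_int_of_lp h.lx h1.continuous h2 h3)
        (s02_int_of_lp h'.lx h1.continuous h2 h3), h.wx φ h1 h2 h3, h'.wx φ h1 h2 h3]
    abel
  · intro φ h1 h2 h3
    obtain ⟨c1, c2, c3⟩ := s02_fderiv h1 h2 h3 Complex.I
    simp only [smul_add]
    rw [integral_add (s02_int_of_cont h.cont c1 c2 c3) (s02_int_of_cont h'.cont c1 c2 c3),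
      integral_add (s02_int_of_lp h.ly h1.continuous h2 h3)
        (s02_int_of_lp h'.ly h1.continuous h2 h3), h.wy φ h1 h2 h3, h'.wy φ h1 h2 h3]
    abel

theorem s02_clm_int {F : Type*} [NormedAddCommGroup F] [NormedSpace ℝ F] [CompleteSpace E]
    [CompleteSpace F] (L : E →L[ℝ] F) {g : ℂ → ℝ} {f : ℂ → E}
    (hi : Integrable (fun z => g z • f z)) : ∫ z, g z • L (f z) = L (∫ z, g z • f z) := by
  rw [← L.integral_comp_comm hi]
  simp only [map_smul]

/-- S02e. continuous linear maps -/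
theorem Sob.clm {F : Type*} [NormedAddCommGroup F] [NormedSpace ℝ F] [CompleteSpace E]
    [CompleteSpace F] {U : Set ℂ}
    {f fx fy : ℂ → E} (h : Sob U f fx fy) (L : E →L[ℝ] F) :
    Sob U (fun z => L (f z)) (fun z => L (fx z)) (fun z => L (fy z)) := by
  refine ⟨L.continuous.comp_continuousOn h.cont, fun K hK hc => ?_, fun K hK hc => ?_, ?_, ?_⟩
  · exact L.comp_memLp' (h.lx K hK hc)
  · exact L.comp_memLp' (h.ly K hK hc)
  · intro φ h1 h2 h3
    obtain ⟨c1, c2, c3⟩ := s02_fderiv h1 h2 h3 1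
    rw [s02_clm_int L (s02_int_of_cont h.cont c1 c2 c3),
      s02_clm_int L (s02_int_of_lp h.lx h1.continuous h2 h3), h.wx φ h1 h2 h3, map_neg]
  · intro φ h1 h2 h3
    obtain ⟨c1, c2, c3⟩ := s02_fderiv h1 h2 h3 Complex.I
    rw [s02_clm_int L (s02_int_of_cont h.cont c1 c2 c3),
      s02_clm_int L (s02_int_of_lp h.ly h1.continuous h2 h3), h.wy φ h1 h2 h3, map_neg]

theorem s02_unique [CompleteSpace E] {U : Set ℂ} {f g : ℂ → E} (hU : IsOpen U)
    (hf : ∀ K, K ⊆ U → IsCompact K → MemLp f 2 (volume.restrict K))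
    (hg : ∀ K, K ⊆ U → IsCompact K → MemLp g 2 (volume.restrict K))
    (h : ∀ φ : ℂ → ℝ, ContDiff ℝ ∞ φ → HasCompactSupport φ → tsupport φ ⊆ U →
      ∫ z, φ z • f z = ∫ z, φ z • g z) : ∀ᵐ z, z ∈ U → f z = g z := by
  have h1 : LocallyIntegrableOn (fun z => f z - g z) U := by
    rw [locallyIntegrableOn_iff hU.isLocallyClosed]
    intro K hK hc
    have hfin : IsFiniteMeasure ((volume : Measure ℂ).restrict K) :=
      ⟨by rw [Measure.restrict_apply_univ]; exact hc.measure_lt_top⟩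
    have := ((hf K hK hc).sub (hg K hK hc)).mono_exponent (p := 1) (by norm_num)
    exact memLp_one_iff_integrable.1 this
  have h2 := hU.ae_eq_zero_of_integral_contDiff_smul_eq_zero h1 (fun φ a b c => by
    simp only [smul_sub]
    rw [integral_sub (s02_int_of_lp hf a.continuous b c) (s02_int_of_lp hg a.continuous b c),
      h φ a b c, sub_self])
  filter_upwards [h2] with z hz hzU
  exact sub_eq_zero.1 (hz hzU)

/-- S02f. uniqueness of weak derivatives
(`IsOpen.ae_eq_zero_of_integral_contDiff_smul_eq_zero`; local integrability from `lx`, `ly`: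
`L²` on a compact set implies `L¹`). -/
theorem Sob.ae_unique [CompleteSpace E] {U : Set ℂ} {f fx fy gx gy : ℂ → E} (hU : IsOpen U)
    (h : Sob U f fx fy) (h' : Sob U f gx gy) :
    (∀ᵐ z, z ∈ U → fx z = gx z) ∧ (∀ᵐ z, z ∈ U → fy z = gy z) := by
  refine ⟨s02_unique hU h.lx h'.lx fun φ a b c => ?_, s02_unique hU h.ly h'.ly fun φ a b c => ?_⟩
  · have := h.wx φ a b c
    rw [h'.wx φ a b c] at this
    exact (neg_injective this).symm
  · have := h.wy φ a b c
    rw [h'.wy φ a b c] at this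
    exact (neg_injective this).symm

end CF6

end

section

set_option autoImplicit false

open MeasureTheory Metric Set Filter Topology
open scoped ContDiff ENNReal ComplexConjugate

namespace CF6

variable {E : Type*} [NormedAddCommGroup E] [NormedSpace ℝ E]

omit [NormedSpace ℝ E] in
/-- `L²` on a finite union -/
theorem s03_memLp {ι : Type*} (t : Finset ι) (K : ι → Set ℂ) {g : ℂ → E}
    (h : ∀ i ∈ t, MemLp g 2 (volume.restrict (K i))) :
    MemLp g 2 (volume.restrict (⋃ i ∈ t, K i)) := by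
  classical
  induction t using Finset.induction_on with
  | empty => simp
  | insert a t ha ih =>
    have h1 := h a (Finset.mem_insert_self a t)
    have h2 := ih fun i hi => h i (Finset.mem_insert_of_mem hi)
    rw [Finset.set_biUnion_insert]
    have h3 : AEStronglyMeasurable g (volume.restrict (K a ∪ ⋃ i ∈ t, K i)) :=
      aestronglyMeasurable_union_iff.2 ⟨h1.1, h2.1⟩
    rw [memLp_two_iff_integrable_sq_norm h3]
    exact IntegrableOn.union ((memLp_two_iff_integrable_sq_norm h1.1).1 h1)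
      ((memLp_two_iff_integrable_sq_norm h2.1).1 h2)

/-- localisation of the weak derivative -/
theorem s03_w {U : Set ℂ} {f g : ℂ → E} (v : ℂ)
    (h : ∀ z ∈ U, ∃ V, IsOpen V ∧ z ∈ V ∧ ContinuousOn f V ∧
      (∀ K, K ⊆ V → IsCompact K → MemLp g 2 (volume.restrict K)) ∧
      ∀ φ : ℂ → ℝ, ContDiff ℝ ∞ φ → HasCompactSupport φ → tsupport φ ⊆ V →
        ∫ z, (fderiv ℝ φ z v) • f z = - ∫ z, φ z • g z) (φ : ℂ → ℝ) (hφ : ContDiff ℝ ∞ φ)
    (hc : HasCompactSupport φ) (hs : tsupport φ ⊆ U) :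
    ∫ z, (fderiv ℝ φ z v) • f z = - ∫ z, φ z • g z := by
  choose! V hVo hzV hfV hgV hV using h
  obtain ⟨t, ht⟩ := (show IsCompact (tsupport φ) from hc).elim_finite_subcover
    (fun z : U => V z) (fun z => hVo z z.2) (fun z hz => mem_iUnion.2 ⟨⟨z, hs hz⟩, hzV z (hs hz)⟩)
  obtain ⟨ρ, hρ⟩ := SmoothPartitionOfUnity.exists_isSubordinate (modelWithCornersSelf ℝ ℂ)
    (isClosed_tsupport φ) (fun i : t => V i.1) (fun i => hVo _ i.1.2) (by
      intro z hz
      obtain ⟨i, hi, hzi⟩ := mem_iUnion₂.1 (ht hz)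
      exact mem_iUnion.2 ⟨⟨i, hi⟩, hzi⟩)
  obtain ⟨ψ, hψ⟩ : ∃ ψ : t → ℂ → ℝ, ∀ i z, ψ i z = ρ i z * φ z := ⟨_, fun _ _ => rfl⟩
  have hψ' : ∀ i, ψ i = fun z => ρ i z * φ z := fun i => funext (hψ i)
  have hcd : ∀ i, ContDiff ℝ ∞ (ψ i) := by
    intro i
    rw [hψ']
    exact (ρ i).contMDiff.contDiff.mul hφ
  have hts1 : ∀ i, tsupport (ψ i) ⊆ tsupport φ := by
    intro i
    rw [hψ']
    exact closure_mono (fun z hz => by
      rw [Function.mem_support] at hz ⊢
      exact right_ne_zero_of_mul hz)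
  have hts2 : ∀ i, tsupport (ψ i) ⊆ V i.1 := by
    intro i
    rw [hψ']
    refine Subset.trans (closure_mono (fun z hz => ?_)) (hρ i)
    rw [Function.mem_support] at hz ⊢
    exact left_ne_zero_of_mul hz
  have hcs : ∀ i, HasCompactSupport (ψ i) := fun i =>
    hc.of_isClosed_subset (isClosed_tsupport _) (hts1 i)
  have hsum : ∀ z, φ z = ∑ i, ψ i z := by
    intro z
    simp only [hψ]
    rw [← Finset.sum_mul]
    by_cases hz : z ∈ tsupport φ
    · have h1 := ρ.sum_eq_one hz
      rw [finsum_eq_sum_of_fintype] at h1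
      rw [h1, one_mul]
    · rw [image_eq_zero_of_notMem_tsupport hz, mul_zero]
  have hsum' : φ = fun z => ∑ i, ψ i z := funext hsum
  have hfd : ∀ z, fderiv ℝ φ z v = ∑ i, fderiv ℝ (ψ i) z v := by
    intro z
    rw [hsum', fderiv_fun_sum fun i _ => ((hcd i).differentiable (by simp)) z]
    simp
  have hint1 : ∀ i, Integrable fun z => (fderiv ℝ (ψ i) z v) • f z := by
    intro i
    have hK : IsCompact (tsupport (ψ i)) := hcs i
    have hsub : (Function.support fun z => (fderiv ℝ (ψ i) z v) • f z) ⊆ tsupport (ψ i) := by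
      intro z hz
      rw [Function.mem_support] at hz
      by_contra hn
      apply hz
      have : fderiv ℝ (ψ i) z = 0 := by
        have h1 := support_fderiv_subset ℝ (f := ψ i)
        by_contra h2
        exact hn (h1 (Function.mem_support.2 h2))
      rw [this]
      simp
    rw [← integrableOn_iff_integrable_of_support_subset hsub]
    refine ContinuousOn.integrableOn_compact hK ?_
    refine ContinuousOn.smul ?_ ((hfV i.1 i.1.2).mono (hts2 i))
    exact (((hcd i).continuous_fderiv (by simp)).clm_apply continuous_const).continuousOn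
  have hint2 : ∀ i, Integrable fun z => ψ i z • g z := by
    intro i
    have hK : IsCompact (tsupport (ψ i)) := hcs i
    have hsub : (Function.support fun z => ψ i z • g z) ⊆ tsupport (ψ i) := by
      intro z hz
      rw [Function.mem_support] at hz
      by_contra hn
      apply hz
      rw [image_eq_zero_of_notMem_tsupport hn, zero_smul]
    rw [← integrableOn_iff_integrable_of_support_subset hsub]
    have hgK := hgV i.1 i.1.2 _ (hts2 i) hK
    have hfin : IsFiniteMeasure (volume.restrict (tsupport (ψ i))) :=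
      ⟨by rw [Measure.restrict_apply_univ]; exact hK.measure_lt_top⟩
    have hgI : IntegrableOn g (tsupport (ψ i)) :=
      memLp_one_iff_integrable.1 (hgK.mono_exponent (by norm_num))
    exact hgI.continuousOn_smul (hcd i).continuous.continuousOn hK
  calc ∫ z, (fderiv ℝ φ z v) • f z = ∫ z, ∑ i, (fderiv ℝ (ψ i) z v) • f z := by
        refine integral_congr_ae (Eventually.of_forall fun z => ?_)
        simp only
        rw [hfd z, Finset.sum_smul]
    _ = ∑ i, ∫ z, (fderiv ℝ (ψ i) z v) • f z := integral_finsetSum _ fun i _ => hint1 i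
    _ = ∑ i, - ∫ z, ψ i z • g z :=
        Finset.sum_congr rfl fun i _ => hV i.1 i.1.2 (ψ i) (hcd i) (hcs i) (hts2 i)
    _ = - ∑ i, ∫ z, ψ i z • g z := by rw [Finset.sum_neg_distrib]
    _ = - ∫ z, ∑ i, ψ i z • g z := by rw [integral_finsetSum _ fun i _ => hint2 i]
    _ = - ∫ z, φ z • g z := by
        congr 1
        refine integral_congr_ae (Eventually.of_forall fun z => ?_)
        simp only
        rw [hsum z, Finset.sum_smul]

/-- `L²` on compact subsets is a local property -/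
theorem s03_lp {U : Set ℂ} {g : ℂ → E}
    (h : ∀ z ∈ U, ∃ V, IsOpen V ∧ z ∈ V ∧
      ∀ K, K ⊆ V → IsCompact K → MemLp g 2 (volume.restrict K)) (K : Set ℂ) (hKU : K ⊆ U)
    (hK : IsCompact K) : MemLp g 2 (volume.restrict K) := by
  choose! V hVo hzV hgV using h
  obtain ⟨t, ht⟩ := hK.elim_finite_subcover
    (fun z : U => V z) (fun z => hVo z z.2)
    (fun z hz => mem_iUnion.2 ⟨⟨z, hKU hz⟩, hzV z (hKU hz)⟩)
  obtain ⟨C, hC1, hC2, hC3⟩ := hK.finite_compact_cover t (fun z : U => V z)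
    (fun z _ => hVo z z.2) ht
  rw [hC3]
  exact s03_memLp t C fun i _ => hgV i i.2 _ (hC2 i) (hC1 i)

/-- S03. The class `Sob` is local.
PROOF. `cont`: clear. `lx`: cover the compact `K` by finitely many compact sets, each in one of the `V`'s
(closed balls in `V`); `MemLp` on a finite union of compact sets (`MemLp` with respect to `volume.restrict (A ∪ B)`
follows from `A`, `B`: `memLp_... ` / restrict_union_le, `MemLp.mono_measure`, `MemLp.add_measure`-like; or use
`AEStronglyMeasurable.union`-like and finiteness of the integral of the square).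
`wx`: partition of unity: `tsupport φ` is compact and covered by the `V`'s; `φ = ∑ ρ_i φ` with smooth `ρ_i`, `tsupport (ρ_i φ) ⊆ V_i`
(`SmoothPartitionOfUnity.exists_isSubordinate` for the closed set `tsupport φ`), finitely many `ρ_i` do not vanish on
`tsupport φ`; add the identities. An alternative without partitions of unity: induction on compact sets
(`IsCompact.induction_on`): the property of a compact set `S`: there is an open `O ⊇ S` such that the identity holds for all
`φ` with `tsupport φ ⊆ O ∩ U`; for a union split `φ` with one smooth Urysohn function. -/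
theorem sob_of_local {U : Set ℂ} {f fx fy : ℂ → E} (hU : IsOpen U)
    (h : ∀ z ∈ U, ∃ V, IsOpen V ∧ z ∈ V ∧ Sob V f fx fy) : Sob U f fx fy where
  cont := by
    intro z hz
    obtain ⟨V, hV, hzV, hS⟩ := h z hz
    exact (hS.cont.continuousAt (hV.mem_nhds hzV)).continuousWithinAt
  lx := s03_lp fun z hz => by
    obtain ⟨V, hV, hzV, hS⟩ := h z hz
    exact ⟨V, hV, hzV, hS.lx⟩
  ly := s03_lp fun z hz => by
    obtain ⟨V, hV, hzV, hS⟩ := h z hz
    exact ⟨V, hV, hzV, hS.ly⟩
  wx := s03_w 1 fun z hz => by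
    obtain ⟨V, hV, hzV, hS⟩ := h z hz
    exact ⟨V, hV, hzV, hS.cont, hS.lx, hS.wx⟩
  wy := s03_w Complex.I fun z hz => by
    obtain ⟨V, hV, hzV, hS⟩ := h z hz
    exact ⟨V, hV, hzV, hS.cont, hS.ly, hS.wy⟩

end CF6

end

section

set_option autoImplicit false

open MeasureTheory Metric Set Filter Topology
open scoped ContDiff ENNReal ComplexConjugate

namespace CF6

variable {E : Type*} [NormedAddCommGroup E] [NormedSpace ℝ E] [CompleteSpace E]

open scoped Convolution in
/-- S04b. mollifications of a locally integrable function are smooth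
(`HasCompactSupport.contDiff_convolution_left`, `moll r hr u = (normed bump) ⋆[lsmul] u` after a change of variables;
or use convolution_def / `convolution_eq_swap`). -/
theorem moll_contDiff {u : ℂ → E} (hu : LocallyIntegrable u) (r : ℝ) (hr : 0 < r) :
    ContDiff ℝ ∞ (moll r hr u) := by
  have h1 : moll r hr u =
      ((bump r hr).normed volume ⋆[ContinuousLinearMap.lsmul ℝ ℝ, volume] u) := by
    funext x
    rw [MeasureTheory.convolution_eq_swap]
    rfl
  rw [h1]
  exact (bump r hr).hasCompactSupport_normed.contDiff_convolution_left _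
    (bump r hr).contDiff_normed hu

end CF6

end

section

set_option autoImplicit false

open MeasureTheory Metric Set Filter Topology
open scoped ContDiff ENNReal ComplexConjugate

namespace CF6

variable {E : Type*} [NormedAddCommGroup E] [NormedSpace ℝ E] [CompleteSpace E]

open scoped Convolution in
/-- derivative of a mollification, the kernel is differentiated -/
theorem s05a_deriv {u : ℂ → E} (hu : LocallyIntegrable u) (r : ℝ) (hr : 0 < r) (x v : ℂ) :
    fderiv ℝ (moll r hr u) x v =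
      ∫ y, (fderiv ℝ ((bump r hr).normed volume) (x - y) v) • u y := by
  have h1 : moll r hr u =
      ((bump r hr).normed volume ⋆[ContinuousLinearMap.lsmul ℝ ℝ, volume] u) := by
    funext x
    rw [MeasureTheory.convolution_eq_swap]
    rfl
  have hcs : HasCompactSupport ((bump r hr).normed volume) := (bump r hr).hasCompactSupport_normed
  have hcd : ContDiff ℝ 1 ((bump r hr).normed volume) := (bump r hr).contDiff_normed
  have h2 := hcs.hasFDerivAt_convolution_left (ContinuousLinearMap.lsmul ℝ ℝ) hcd hu x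
  rw [← h1] at h2
  rw [h2.fderiv, MeasureTheory.convolution_eq_swap]
  have h3 : ConvolutionExists (fderiv ℝ ((bump r hr).normed volume)) u
      ((ContinuousLinearMap.lsmul ℝ ℝ).precompL ℂ) volume :=
    (hcs.fderiv ℝ).convolutionExists_left _ (hcd.continuous_fderiv (by norm_num)) hu
  rw [ContinuousLinearMap.integral_apply (h3 x).integrable_swap]
  rfl

/-- S05a. the derivative of a mollification: at a point `x` with `closedBall x r ⊆ L` and `L ⊆ U` compact,
the mollification of `L.indicator f` has the partial derivatives `moll r (L.indicator fx) x`, `moll r (L.indicator fy) x`.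
PROOF. `fderiv (moll r u) x v = ∫ (fderiv ρ_r (x - y) v) • u y dy` (differentiate under the integral sign /
`HasCompactSupport.hasFDerivAt_convolution_left`) `= - ∫ (fderiv (y ↦ ρ_r (x-y)) y v) • u y dy`; the test function `φ y = ρ_r (x - y)` has
`tsupport φ ⊆ closedBall x r ⊆ L ⊆ U`; use `h.wx`. -/
theorem moll_fderiv {U L : Set ℂ} {f fx fy : ℂ → E} (h : Sob U f fx fy) (hL : IsCompact L)
    (hLU : L ⊆ U) (r : ℝ) (hr : 0 < r) {x : ℂ} (hx : closedBall x r ⊆ L) :
    fderiv ℝ (moll r hr (L.indicator f)) x 1 = moll r hr (L.indicator fx) x ∧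
    fderiv ℝ (moll r hr (L.indicator f)) x Complex.I = moll r hr (L.indicator fy) x := by
  have hint : LocallyIntegrable (L.indicator f) := by
    have h1 : IntegrableOn f L := (h.cont.mono hLU).integrableOn_compact hL
    exact ((integrable_indicator_iff hL.measurableSet).2 h1).locallyIntegrable
  set ρ : ℂ → ℝ := (bump r hr).normed volume with hρ
  set φ : ℂ → ℝ := fun y => ρ (x - y) with hφ
  have hφd : ContDiff ℝ ∞ φ :=
    (bump r hr).contDiff_normed.comp (contDiff_const.sub contDiff_id)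
  have hsupp : Function.support φ ⊆ closedBall x r := by
    intro y hy
    have h1 : x - y ∈ Function.support ρ := hy
    rw [hρ, (bump r hr).support_normed_eq, mem_ball, dist_zero_right] at h1
    rw [mem_closedBall, dist_comm, dist_eq_norm]
    exact h1.le
  have hts : tsupport φ ⊆ closedBall x r := closure_minimal hsupp isClosed_closedBall
  have hφc : HasCompactSupport φ :=
    IsCompact.of_isClosed_subset (isCompact_closedBall x r) (isClosed_tsupport φ) hts
  have hderiv : ∀ y v : ℂ, fderiv ℝ φ y v = - fderiv ℝ ρ (x - y) v := by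
    intro y v
    have h1 : HasFDerivAt ρ (fderiv ℝ ρ (x - y)) (x - y) :=
      (((bump r hr).contDiff_normed (n := 1)).differentiable (by norm_num) _).hasFDerivAt
    have h2 : HasFDerivAt (fun y : ℂ => x - y) (-(ContinuousLinearMap.id ℝ ℂ)) y :=
      (hasFDerivAt_id y).const_sub x
    have h3 := h1.comp y h2
    have h4 : fderiv ℝ φ y = (fderiv ℝ ρ (x - y)).comp (-(ContinuousLinearMap.id ℝ ℂ)) := h3.fderiv
    rw [h4]
    simp
  have hnotin : ∀ y, y ∉ L → φ y = 0 ∧ fderiv ℝ φ y = 0 := by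
    intro y hy
    have h1 : y ∉ tsupport φ := fun h => hy (hx (hts h))
    refine ⟨image_eq_zero_of_notMem_tsupport h1, ?_⟩
    by_contra h2
    exact h1 (support_fderiv_subset ℝ h2)
  have main : ∀ (v : ℂ) (g : ℂ → E), (∫ z, (fderiv ℝ φ z v) • f z = - ∫ z, φ z • g z) →
      fderiv ℝ (moll r hr (L.indicator f)) x v = moll r hr (L.indicator g) x := by
    intro v g hg
    rw [s05a_deriv hint]
    have e1 : ∫ y, (fderiv ℝ ρ (x - y) v) • L.indicator f y =
        - ∫ z, (fderiv ℝ φ z v) • f z := by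
      rw [← integral_neg]
      refine integral_congr_ae (Filter.Eventually.of_forall (fun y => ?_))
      by_cases hy : y ∈ L
      · simp only [indicator_of_mem hy, hderiv, neg_smul, neg_neg]
      · have h1 := hderiv y v
        rw [(hnotin y hy).2] at h1
        simp only [indicator_of_notMem hy, (hnotin y hy).2]
        simp
    have e2 : moll r hr (L.indicator g) x = ∫ z, φ z • g z := by
      unfold moll
      refine integral_congr_ae (Filter.Eventually.of_forall (fun y => ?_))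
      by_cases hy : y ∈ L
      · simp only [indicator_of_mem hy, hφ, hρ]
      · have h1 := (hnotin y hy).1
        simp only [indicator_of_notMem hy, h1]
        simp
    rw [e2]
    rw [hg, neg_neg] at e1
    exact e1
  exact ⟨main 1 fx (h.wx φ hφd hφc (hts.trans (hx.trans hLU))),
    main Complex.I fy (h.wy φ hφd hφc (hts.trans (hx.trans hLU)))⟩

end CF6

end

section

set_option autoImplicit false

open MeasureTheory Metric Set Filter Topology
open scoped ContDiff ENNReal ComplexConjugate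

namespace CF6

variable {E : Type*} [NormedAddCommGroup E] [NormedSpace ℝ E] [CompleteSpace E]

/-- one step of the approximation -/
theorem s05b_step {U : Set ℂ} {f fx fy : ℂ → E} (hU : IsOpen U) (h : Sob U f fx fy)
    {K : Set ℂ} (hK : IsCompact K) (hKU : K ⊆ U) {η : ℝ} (hη : 0 < η) :
    ∃ g : ℂ → E, ContDiff ℝ ∞ g ∧ (∀ z ∈ K, ‖g z - f z‖ ≤ η) ∧
      (∫⁻ z in K, ‖fderiv ℝ g z 1 - fx z‖ₑ ^ 2) ≤ ENNReal.ofReal η ∧
      (∫⁻ z in K, ‖fderiv ℝ g z Complex.I - fy z‖ₑ ^ 2) ≤ ENNReal.ofReal η := by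
  obtain ⟨δ, hδ, hδU⟩ := hK.exists_cthickening_subset_open hU hKU
  set L := cthickening δ K with hL
  have hLc : IsCompact L := hK.cthickening
  have hKL : K ⊆ L := self_subset_cthickening K
  have hLm : MeasurableSet L := hLc.measurableSet
  have hint : Integrable (L.indicator f) volume := by
    rw [integrable_indicator_iff hLm]
    exact (h.cont.mono hδU).integrableOn_compact hLc
  have hu : LocallyIntegrable (L.indicator f) volume := hint.locallyIntegrable
  have hmx : MemLp (L.indicator fx) 2 volume :=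
    (memLp_indicator_iff_restrict hLm).2 (h.lx L hδU hLc)
  have hmy : MemLp (L.indicator fy) 2 volume :=
    (memLp_indicator_iff_restrict hLm).2 (h.ly L hδU hLc)
  have hηE : 0 < ENNReal.ofReal η := ENNReal.ofReal_pos.2 hη
  have hcont : ContinuousOn (L.indicator f) (thickening δ K) := by
    have h1 : ContinuousOn f (thickening δ K) :=
      h.cont.mono ((thickening_subset_cthickening δ K).trans hδU)
    refine h1.congr (fun z hz => ?_)
    exact Set.indicator_of_mem (thickening_subset_cthickening δ K hz) f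
  obtain ⟨r1, hr1, h1⟩ := moll_tendsto_L2 hmx hηE
  obtain ⟨r2, hr2, h2⟩ := moll_tendsto_L2 hmy hηE
  obtain ⟨r3, hr3, h3⟩ := moll_tendsto_unif hu isOpen_thickening hcont hK
    (self_subset_thickening hδ K) hη
  set r := min (min r1 r2) (min r3 δ) / 2 with hr
  have hm : 0 < min (min r1 r2) (min r3 δ) := lt_min (lt_min hr1 hr2) (lt_min hr3 hδ)
  have hr0 : 0 < r := by rw [hr]; linarith
  have hrm : r < min (min r1 r2) (min r3 δ) := by rw [hr]; linarith
  have hrr1 : r < r1 := lt_of_lt_of_le hrm ((min_le_left _ _).trans (min_le_left _ _))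
  have hrr2 : r < r2 := lt_of_lt_of_le hrm ((min_le_left _ _).trans (min_le_right _ _))
  have hrr3 : r < r3 := lt_of_lt_of_le hrm ((min_le_right _ _).trans (min_le_left _ _))
  have hrδ : r < δ := lt_of_lt_of_le hrm ((min_le_right _ _).trans (min_le_right _ _))
  have hball : ∀ z ∈ K, closedBall z r ⊆ L := fun z hz =>
    (closedBall_subset_closedBall hrδ.le).trans (closedBall_subset_cthickening hz δ)
  refine ⟨moll r hr0 (L.indicator f), moll_contDiff hu r hr0, ?_, ?_, ?_⟩
  · intro z hz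
    have h4 := h3 r hr0 hrr3 z hz
    rwa [Set.indicator_of_mem (hKL hz)] at h4
  · calc (∫⁻ z in K, ‖fderiv ℝ (moll r hr0 (L.indicator f)) z 1 - fx z‖ₑ ^ 2)
        = ∫⁻ z in K, ‖moll r hr0 (L.indicator fx) z - L.indicator fx z‖ₑ ^ 2 := by
          refine setLIntegral_congr_fun hK.measurableSet (fun z hz => ?_)
          rw [(moll_fderiv h hLc hδU r hr0 (hball z hz)).1, Set.indicator_of_mem (hKL hz)]
      _ ≤ ∫⁻ z, ‖moll r hr0 (L.indicator fx) z - L.indicator fx z‖ₑ ^ 2 :=
          setLIntegral_le_lintegral _ _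
      _ ≤ ENNReal.ofReal η := h1 r hr0 hrr1
  · calc (∫⁻ z in K, ‖fderiv ℝ (moll r hr0 (L.indicator f)) z Complex.I - fy z‖ₑ ^ 2)
        = ∫⁻ z in K, ‖moll r hr0 (L.indicator fy) z - L.indicator fy z‖ₑ ^ 2 := by
          refine setLIntegral_congr_fun hK.measurableSet (fun z hz => ?_)
          rw [(moll_fderiv h hLc hδU r hr0 (hball z hz)).2, Set.indicator_of_mem (hKL hz)]
      _ ≤ ∫⁻ z, ‖moll r hr0 (L.indicator fy) z - L.indicator fy z‖ₑ ^ 2 :=
          setLIntegral_le_lintegral _ _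
      _ ≤ ENNReal.ofReal η := h2 r hr0 hrr2

/-- S05b. APPROXIMATION by smooth functions on a compact set.
PROOF. `L` = closed `δ`-neighbourhood of `K`, compact in `U` (`IsCompact.exists_cthickening_subset_open`, cthickening of a compact set is compact),
`g n = moll r_n (L.indicator f)` with `r_n → 0`, S04 and S05a. -/
theorem Sob.exists_approx {U : Set ℂ} {f fx fy : ℂ → E} (hU : IsOpen U) (h : Sob U f fx fy)
    {K : Set ℂ} (hK : IsCompact K) (hKU : K ⊆ U) :
    ∃ g : ℕ → ℂ → E, (∀ n, ContDiff ℝ ∞ (g n)) ∧ TendstoUniformlyOn g f atTop K ∧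
      Tendsto (fun n => ∫⁻ z in K, ‖fderiv ℝ (g n) z 1 - fx z‖ₑ ^ 2) atTop (𝓝 0) ∧
      Tendsto (fun n => ∫⁻ z in K, ‖fderiv ℝ (g n) z Complex.I - fy z‖ₑ ^ 2) atTop (𝓝 0) := by
  have hex : ∀ n : ℕ, ∃ g : ℂ → E, ContDiff ℝ ∞ g ∧ (∀ z ∈ K, ‖g z - f z‖ ≤ 1 / ((n : ℝ) + 1)) ∧
      (∫⁻ z in K, ‖fderiv ℝ g z 1 - fx z‖ₑ ^ 2) ≤ ENNReal.ofReal (1 / ((n : ℝ) + 1)) ∧
      (∫⁻ z in K, ‖fderiv ℝ g z Complex.I - fy z‖ₑ ^ 2) ≤ ENNReal.ofReal (1 / ((n : ℝ) + 1)) :=
    fun n => s05b_step hU h hK hKU (by positivity)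
  choose g hg0 hg1 hg2 hg3 using hex
  have hlim : Tendsto (fun n : ℕ => ENNReal.ofReal (1 / ((n : ℝ) + 1))) atTop (𝓝 0) := by
    have h1 : Tendsto (fun n : ℕ => 1 / ((n : ℝ) + 1)) atTop (𝓝 0) :=
      tendsto_one_div_add_atTop_nhds_zero_nat
    have h2 := ENNReal.tendsto_ofReal h1
    rwa [ENNReal.ofReal_zero] at h2
  refine ⟨g, hg0, ?_, ?_, ?_⟩
  · rw [Metric.tendstoUniformlyOn_iff]
    intro ε hε
    obtain ⟨N, hN⟩ := exists_nat_one_div_lt hε
    filter_upwards [eventually_ge_atTop N] with n hn z hz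
    have h3 : 1 / ((n : ℝ) + 1) ≤ 1 / ((N : ℝ) + 1) := by
      apply one_div_le_one_div_of_le (by positivity)
      have h4 : (N : ℝ) ≤ n := by exact_mod_cast hn
      linarith
    rw [dist_comm, dist_eq_norm]
    exact lt_of_le_of_lt ((hg1 n z hz).trans h3) hN
  · exact tendsto_of_tendsto_of_tendsto_of_le_of_le tendsto_const_nhds hlim
      (fun n => bot_le) hg2
  · exact tendsto_of_tendsto_of_tendsto_of_le_of_le tendsto_const_nhds hlim
      (fun n => bot_le) hg3

end CF6

end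

section

set_option autoImplicit false

open MeasureTheory Metric Set Filter Topology
open scoped ContDiff ENNReal ComplexConjugate

namespace CF6

variable {E : Type*} [NormedAddCommGroup E] [NormedSpace ℝ E]

/-- a product of a continuous function and a function which is square integrable on its support -/
theorem s06a_integrable {φ : ℂ → ℝ} {K : Set ℂ} (hφ : Continuous φ) (hK : IsCompact K)
    (hs : ∀ z, z ∉ K → φ z = 0) {f : ℂ → E} (hf : MemLp f 2 (volume.restrict K)) :
    Integrable (fun z => φ z • f z) := by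
  have h1 : MemLp f 1 (volume.restrict K) := by
    have : IsFiniteMeasure (volume.restrict K) := ⟨by
      rw [Measure.restrict_apply_univ]; exact hK.measure_lt_top⟩
    exact hf.mono_exponent (by norm_num)
  have h2 : Integrable (fun z => φ z • f z) (volume.restrict K) := by
    have h3 : Integrable f (volume.restrict K) := memLp_one_iff_integrable.1 h1
    obtain ⟨C, hC⟩ := hK.exists_bound_of_continuousOn hφ.continuousOn
    refine Integrable.bdd_smul h3 C hφ.aestronglyMeasurable ?_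
    filter_upwards [ae_restrict_mem hK.measurableSet] with z hz
    exact hC z hz
  have h4 : IntegrableOn (fun z => φ z • f z) K := h2
  rw [← integrableOn_univ]
  refine h4.of_forall_sdiff_eq_zero MeasurableSet.univ ?_
  intro z hz
  rw [hs z hz.2, zero_smul]

theorem s06a_tendsto {φ : ℂ → ℝ} {K : Set ℂ} (hφ : Continuous φ) (hK : IsCompact K)
    (hs : ∀ z, z ∉ K → φ z = 0) {g : ℕ → ℂ → E} {f : ℂ → E}
    (hg : ∀ n, MemLp (g n) 2 (volume.restrict K)) (hf : MemLp f 2 (volume.restrict K))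
    (h : Tendsto (fun n => ∫⁻ z in K, ‖g n z - f z‖ₑ ^ 2) atTop (𝓝 0)) :
    Tendsto (fun n => ∫ z, φ z • g n z) atTop (𝓝 (∫ z, φ z • f z)) := by
  have : IsFiniteMeasure (volume.restrict K) := ⟨by
    rw [Measure.restrict_apply_univ]; exact hK.measure_lt_top⟩
  refine tendsto_integral_of_L1 _ (s06a_integrable hφ hK hs hf).1
    (Eventually.of_forall fun n => s06a_integrable hφ hK hs (hg n)) ?_
  obtain ⟨C, hC⟩ := hK.exists_bound_of_continuousOn hφ.continuousOn
  have hM : (∫⁻ z in K, ‖φ z‖ₑ ^ (2 : ℝ)) ^ (1 / (2 : ℝ)) ≠ ⊤ := by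
    apply ENNReal.rpow_ne_top_of_nonneg (by norm_num)
    have h1 : (∫⁻ z in K, ‖φ z‖ₑ ^ (2 : ℝ)) ≤ ∫⁻ _z in K, (ENNReal.ofReal C) ^ (2 : ℝ) := by
      refine setLIntegral_mono' hK.measurableSet (fun z hz => ?_)
      refine ENNReal.rpow_le_rpow ?_ (by norm_num)
      rw [← ofReal_norm]
      exact ENNReal.ofReal_le_ofReal (hC z hz)
    refine ne_top_of_le_ne_top ?_ h1
    rw [lintegral_const]
    refine ENNReal.mul_ne_top ?_ (measure_ne_top _ _)
    exact ENNReal.rpow_ne_top_of_nonneg (by norm_num) ENNReal.ofReal_ne_top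
  have hle : ∀ n, ∫⁻ z, ‖φ z • g n z - φ z • f z‖ₑ ≤
      (∫⁻ z in K, ‖φ z‖ₑ ^ (2 : ℝ)) ^ (1 / (2 : ℝ)) *
        (∫⁻ z in K, ‖g n z - f z‖ₑ ^ 2) ^ (1 / (2 : ℝ)) := by
    intro n
    have h1 : ∫⁻ z, ‖φ z • g n z - φ z • f z‖ₑ = ∫⁻ z in K, ‖φ z • g n z - φ z • f z‖ₑ := by
      rw [← lintegral_indicator hK.measurableSet]
      congr 1
      ext z
      by_cases hz : z ∈ K
      · rw [indicator_of_mem hz]
      · rw [indicator_of_notMem hz, hs z hz, zero_smul, zero_smul, sub_zero, enorm_zero]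
    rw [h1]
    have h2 := ENNReal.lintegral_mul_le_Lp_mul_Lq (volume.restrict K)
      (Real.HolderConjugate.two_two) (f := fun z => ‖φ z‖ₑ) (g := fun z => ‖g n z - f z‖ₑ)
      hφ.measurable.enorm.aemeasurable ((hg n).1.sub hf.1).enorm
    have h3 : ∫⁻ z in K, ‖φ z • g n z - φ z • f z‖ₑ =
        ∫⁻ z in K, ((fun z => ‖φ z‖ₑ) * (fun z => ‖g n z - f z‖ₑ)) z := by
      refine lintegral_congr (fun z => ?_)
      rw [← smul_sub, enorm_smul]
      rfl
    rw [h3]
    refine h2.trans (le_of_eq ?_)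
    congr 2
    refine lintegral_congr (fun z => ?_)
    exact ENNReal.rpow_two _
  have h0 : Tendsto (fun n => (∫⁻ z in K, ‖φ z‖ₑ ^ (2 : ℝ)) ^ (1 / (2 : ℝ)) *
        (∫⁻ z in K, ‖g n z - f z‖ₑ ^ 2) ^ (1 / (2 : ℝ))) atTop (𝓝 0) := by
    have h1 : Tendsto (fun n => (∫⁻ z in K, ‖g n z - f z‖ₑ ^ 2) ^ (1 / (2 : ℝ))) atTop
        (𝓝 0) := by
      have h2 := ((ENNReal.continuous_rpow_const (y := 1 / (2 : ℝ))).tendsto 0).comp h
      rw [ENNReal.zero_rpow_of_pos (by norm_num)] at h2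
      exact h2
    have h3 := ENNReal.Tendsto.const_mul (a := (∫⁻ z in K, ‖φ z‖ₑ ^ (2 : ℝ)) ^ (1 / (2 : ℝ))) h1
      (Or.inr hM)
    simpa using h3
  exact tendsto_of_tendsto_of_tendsto_of_le_of_le tendsto_const_nhds h0 (fun n => bot_le) hle

omit [NormedSpace ℝ E] in
theorem s06a_memLp {f : ℂ → E} {K : Set ℂ} (hK : IsCompact K) (hf : ContinuousOn f K) :
    MemLp f 2 (volume.restrict K) := by
  have : IsFiniteMeasure (volume.restrict K) := ⟨by
    rw [Measure.restrict_apply_univ]; exact hK.measure_lt_top⟩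
  obtain ⟨C, hC⟩ := hK.exists_bound_of_continuousOn hf
  refine MemLp.of_bound (hf.aestronglyMeasurable_of_isCompact hK hK.measurableSet) C ?_
  filter_upwards [ae_restrict_mem hK.measurableSet] with z hz
  exact hC z hz

omit [NormedSpace ℝ E] in
theorem s06a_unif {K : Set ℂ} (hK : IsCompact K) {g : ℕ → ℂ → E} {f : ℂ → E}
    (h : TendstoUniformlyOn g f atTop K) :
    Tendsto (fun n => ∫⁻ z in K, ‖g n z - f z‖ₑ ^ 2) atTop (𝓝 0) := by
  have hv : volume K ≠ ⊤ := hK.measure_lt_top.ne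
  have hb : ∀ ε : ℝ, 0 < ε → ∀ᶠ n in atTop,
      ∫⁻ z in K, ‖g n z - f z‖ₑ ^ 2 ≤ ENNReal.ofReal ε ^ 2 * volume K := by
    intro ε hε
    filter_upwards [(Metric.tendstoUniformlyOn_iff.1 h) ε hε] with n hn
    rw [← setLIntegral_const]
    refine setLIntegral_mono' hK.measurableSet (fun z hz => ?_)
    refine pow_le_pow_left' ?_ 2
    rw [← ofReal_norm]
    refine ENNReal.ofReal_le_ofReal ?_
    have := hn z hz
    rw [dist_comm, dist_eq_norm] at this
    exact this.le
  rw [ENNReal.tendsto_nhds_zero]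
  intro δ hδ
  have hlim : Tendsto (fun ε : ℝ => ENNReal.ofReal ε ^ 2 * volume K) (𝓝[>] 0) (𝓝 0) := by
    have h1 : Tendsto (fun ε : ℝ => ENNReal.ofReal ε ^ 2) (𝓝 0) (𝓝 0) := by
      have h2 : Tendsto (fun ε : ℝ => ENNReal.ofReal ε) (𝓝 0) (𝓝 0) := by
        have := ENNReal.continuous_ofReal.tendsto 0
        simpa using this
      have h3 := ENNReal.Tendsto.pow (n := 2) h2
      simpa using h3
    have h4 := ENNReal.Tendsto.mul_const (b := volume K) h1 (Or.inr hv)
    rw [zero_mul] at h4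
    exact h4.mono_left nhdsWithin_le_nhds
  have h5 := (ENNReal.tendsto_nhds_zero.1 hlim) δ hδ
  obtain ⟨ε, h6, h7⟩ := (h5.and self_mem_nhdsWithin).exists
  filter_upwards [hb ε h7] with n hn
  exact hn.trans h6

theorem s06a_fderiv_cont {φ : ℂ → ℝ} (hφ : ContDiff ℝ ∞ φ) (e : ℂ) :
    Continuous (fun z => fderiv ℝ φ z e) :=
  (hφ.continuous_fderiv (by simp)).clm_apply continuous_const

theorem s06a_fderiv_zero {φ : ℂ → ℝ} (e : ℂ) (z : ℂ) (hz : z ∉ tsupport φ) :
    fderiv ℝ φ z e = 0 := by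
  have h1 : z ∉ tsupport (fderiv ℝ φ) := fun h => hz (tsupport_fderiv_subset ℝ h)
  rw [image_eq_zero_of_notMem_tsupport h1]
  rfl

/-- S06a. LIMITS. PROOF: pass to the limit in the weak identities: `∂φ` is bounded with compact support in `U`, `g n → f` uniformly there;
`∫ φ • (gx n - fx)` is at most `‖φ‖_2 (∫_{tsupport φ} ‖gx n - fx‖²)^{1/2}` (Cauchy-Schwarz, `ENNReal.lintegral_mul_le_Lp_mul_Lq` or
`MemLp.integral_mul_le...`). Continuity of the uniform limit on compact subsets (locally uniform limit). -/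
theorem sob_of_tendsto {U : Set ℂ} (hU : IsOpen U) {g gx gy : ℕ → ℂ → E} {f fx fy : ℂ → E}
    (hg : ∀ n, Sob U (g n) (gx n) (gy n))
    (hlim : ∀ K, K ⊆ U → IsCompact K → TendstoUniformlyOn g f atTop K)
    (hx : ∀ K, K ⊆ U → IsCompact K → MemLp fx 2 (volume.restrict K))
    (hy : ∀ K, K ⊆ U → IsCompact K → MemLp fy 2 (volume.restrict K))
    (hx' : ∀ K, K ⊆ U → IsCompact K →
      Tendsto (fun n => ∫⁻ z in K, ‖gx n z - fx z‖ₑ ^ 2) atTop (𝓝 0))
    (hy' : ∀ K, K ⊆ U → IsCompact K →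
      Tendsto (fun n => ∫⁻ z in K, ‖gy n z - fy z‖ₑ ^ 2) atTop (𝓝 0)) :
    Sob U f fx fy := by
  have hcont : ContinuousOn f U := by
    have h1 : TendstoLocallyUniformlyOn g f atTop U :=
      (tendstoLocallyUniformlyOn_iff_forall_isCompact hU).2 hlim
    exact h1.continuousOn (Eventually.of_forall fun n => (hg n).cont).frequently
  have key : ∀ (e : ℂ) (hx hy : ℂ → E) (gn : ℕ → ℂ → E),
      (∀ K, K ⊆ U → IsCompact K → MemLp hx 2 (volume.restrict K)) →
      (∀ n K, K ⊆ U → IsCompact K → MemLp (gn n) 2 (volume.restrict K)) →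
      (∀ K, K ⊆ U → IsCompact K →
        Tendsto (fun n => ∫⁻ z in K, ‖gn n z - hx z‖ₑ ^ 2) atTop (𝓝 0)) →
      ∀ φ : ℂ → ℝ, ContDiff ℝ ∞ φ → HasCompactSupport φ → tsupport φ ⊆ U →
      (∀ n, ∫ z, (fderiv ℝ φ z e) • g n z = - ∫ z, φ z • gn n z) →
      ∫ z, (fderiv ℝ φ z e) • f z = - ∫ z, φ z • hx z := by
    intro e hx hy gn h1 h2 h3 φ hφ hc hs h4
    have hK : IsCompact (tsupport φ) := hc
    have hL := s06a_tendsto (s06a_fderiv_cont hφ e) hK (s06a_fderiv_zero e)
      (fun n => s06a_memLp hK ((hg n).cont.mono hs)) (s06a_memLp hK (hcont.mono hs))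
      (s06a_unif hK (hlim _ hs hK))
    have hR := s06a_tendsto hφ.continuous hK (fun z hz => image_eq_zero_of_notMem_tsupport hz)
      (fun n => h2 n _ hs hK) (h1 _ hs hK) (h3 _ hs hK)
    refine tendsto_nhds_unique hL ?_
    refine (hR.neg).congr (fun n => ?_)
    rw [h4 n]
  exact
    { cont := hcont
      lx := hx
      ly := hy
      wx := fun φ hφ hc hs => key 1 fx fy gx hx (fun n => (hg n).lx) hx' φ hφ hc hs
        (fun n => (hg n).wx φ hφ hc hs)
      wy := fun φ hφ hc hs => key Complex.I fy fx gy hy (fun n => (hg n).ly) hy' φ hφ hc hs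
        (fun n => (hg n).wy φ hφ hc hs) }

end CF6

end

section

set_option autoImplicit false

open MeasureTheory Metric Set Filter Topology
open scoped ContDiff ENNReal ComplexConjugate

namespace CF6

variable {E : Type*} [NormedAddCommGroup E] [NormedSpace ℝ E]
variable {F : Type*} [NormedAddCommGroup F] [NormedSpace ℝ F] [CompleteSpace E] [CompleteSpace F]

omit [CompleteSpace E] in
theorem s06b_unif {X : Type*} [PseudoMetricSpace X] [FiniteDimensional ℝ E] {K : Set ℂ}
    (hK : IsCompact K) {f : ℂ → E} (hf : ContinuousOn f K) {g : ℕ → ℂ → E}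
    (hgu : TendstoUniformlyOn g f atTop K) {Ψ : E → X} (hΨ : Continuous Ψ) :
    TendstoUniformlyOn (fun n z => Ψ (g n z)) (fun z => Ψ (f z)) atTop K := by
  have : ProperSpace E := FiniteDimensional.proper_real E
  have hC : IsCompact (cthickening 1 (f '' K)) := (hK.image_of_continuousOn hf).cthickening
  have huc : UniformContinuousOn Ψ (cthickening 1 (f '' K)) :=
    hC.uniformContinuousOn_of_continuous hΨ.continuousOn
  rw [Metric.tendstoUniformlyOn_iff] at hgu ⊢
  intro ε hε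
  obtain ⟨δ, hδ, hδ'⟩ := Metric.uniformContinuousOn_iff.1 huc ε hε
  filter_upwards [hgu (min δ 1) (lt_min hδ one_pos)] with n hn z hz
  have h1 := hn z hz
  have hf1 : f z ∈ cthickening 1 (f '' K) := self_subset_cthickening _ (mem_image_of_mem f hz)
  have hg1 : g n z ∈ cthickening 1 (f '' K) :=
    mem_cthickening_of_dist_le (g n z) (f z) 1 _ (mem_image_of_mem f hz)
      (by rw [dist_comm]; exact (h1.trans_le (min_le_right _ _)).le)
  exact hδ' _ hf1 _ hg1 (h1.trans_le (min_le_left _ _))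

omit [CompleteSpace E] [CompleteSpace F] in
theorem s06b_aux [FiniteDimensional ℝ E] {K : Set ℂ} (hK : IsCompact K) {f fx : ℂ → E}
    (hf : ContinuousOn f K) (hfx : MemLp fx 2 (volume.restrict K)) {g gx : ℕ → ℂ → E}
    (hgu : TendstoUniformlyOn g f atTop K)
    (hgx : Tendsto (fun n => ∫⁻ z in K, ‖gx n z - fx z‖ₑ ^ 2) atTop (𝓝 0))
    {Φ : E → F} (hΦ : ContDiff ℝ 1 Φ) :
    MemLp (fun z => fderiv ℝ Φ (f z) (fx z)) 2 (volume.restrict K) ∧
    Tendsto (fun n => ∫⁻ z in K, ‖fderiv ℝ Φ (g n z) (gx n z) - fderiv ℝ Φ (f z) (fx z)‖ₑ ^ 2)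
      atTop (𝓝 0) := by
  have hDc : Continuous (fderiv ℝ Φ) := hΦ.continuous_fderiv one_ne_zero
  have hAc : ContinuousOn (fun z => fderiv ℝ Φ (f z)) K := hDc.comp_continuousOn hf
  obtain ⟨M, hM⟩ := hK.exists_bound_of_continuousOn hAc
  have hM0 : ∀ z ∈ K, ‖fderiv ℝ Φ (f z)‖ ≤ |M| := fun z hz => (hM z hz).trans (le_abs_self M)
  have hAm : AEStronglyMeasurable (fun z => fderiv ℝ Φ (f z)) (volume.restrict K) :=
    hAc.aestronglyMeasurable_of_isCompact hK hK.measurableSet
  have hmem : MemLp (fun z => fderiv ℝ Φ (f z) (fx z)) 2 (volume.restrict K) := by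
    refine MemLp.of_le_mul (c := |M|) hfx ?_ ?_
    · exact (ContinuousLinearMap.id ℝ (E →L[ℝ] F)).aestronglyMeasurable_comp₂ hAm hfx.1
    · refine (ae_restrict_iff' hK.measurableSet).2 (Eventually.of_forall (fun z hz => ?_))
      exact ((fderiv ℝ Φ (f z)).le_opNorm _).trans
        (mul_le_mul_of_nonneg_right (hM0 z hz) (norm_nonneg _))
  refine ⟨hmem, ?_⟩
  have hunif := s06b_unif hK hf hgu hDc
  have hI : ∫⁻ z in K, ‖fx z‖ₑ ^ 2 ≠ ⊤ := by
    have h1 := hfx.eLpNorm_lt_top
    rw [eLpNorm_eq_lintegral_rpow_enorm_toReal (by norm_num) (by norm_num)] at h1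
    have h2 := (ENNReal.rpow_lt_top_iff_of_pos (by norm_num)).1 h1
    have h3 : ∀ z, ‖fx z‖ₑ ^ (2 : ℝ≥0∞).toReal = ‖fx z‖ₑ ^ 2 := by
      intro z
      rw [ENNReal.toReal_ofNat, ← ENNReal.rpow_natCast]
      norm_num
    simp_rw [h3] at h2
    exact h2.ne
  -- pointwise estimate
  have hpt : ∀ ε : ℝ, 0 < ε → ε ≤ 1 → ∀ᶠ n in atTop, ∀ z ∈ K,
      ‖fderiv ℝ Φ (g n z) (gx n z) - fderiv ℝ Φ (f z) (fx z)‖ₑ ^ 2 ≤
        ENNReal.ofReal (2 * (|M| + 1) ^ 2) * ‖gx n z - fx z‖ₑ ^ 2 +
          ENNReal.ofReal (2 * ε ^ 2) * ‖fx z‖ₑ ^ 2 := by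
    intro ε hε hε1
    rw [Metric.tendstoUniformlyOn_iff] at hunif
    filter_upwards [hunif ε hε] with n hn z hz
    have h1 : ‖fderiv ℝ Φ (g n z) - fderiv ℝ Φ (f z)‖ ≤ ε := by
      have := hn z hz
      rw [dist_comm, dist_eq_norm] at this
      exact this.le
    have h2 : ‖fderiv ℝ Φ (g n z)‖ ≤ |M| + 1 := by
      calc ‖fderiv ℝ Φ (g n z)‖ = ‖fderiv ℝ Φ (f z) + (fderiv ℝ Φ (g n z) - fderiv ℝ Φ (f z))‖ := by
            congr 1; abel
        _ ≤ ‖fderiv ℝ Φ (f z)‖ + ‖fderiv ℝ Φ (g n z) - fderiv ℝ Φ (f z)‖ := norm_add_le _ _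
        _ ≤ |M| + 1 := add_le_add (hM0 z hz) (h1.trans hε1)
    have h3 : fderiv ℝ Φ (g n z) (gx n z) - fderiv ℝ Φ (f z) (fx z) =
        fderiv ℝ Φ (g n z) (gx n z - fx z) + (fderiv ℝ Φ (g n z) - fderiv ℝ Φ (f z)) (fx z) := by
      rw [map_sub, _root_.sub_apply]; abel
    have h4 : ‖fderiv ℝ Φ (g n z) (gx n z) - fderiv ℝ Φ (f z) (fx z)‖ ≤
        (|M| + 1) * ‖gx n z - fx z‖ + ε * ‖fx z‖ := by
      rw [h3]
      refine (norm_add_le _ _).trans (add_le_add ?_ ?_)
      · exact ((fderiv ℝ Φ (g n z)).le_opNorm _).trans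
          (mul_le_mul_of_nonneg_right h2 (norm_nonneg _))
      · exact ((fderiv ℝ Φ (g n z) - fderiv ℝ Φ (f z)).le_opNorm _).trans
          (mul_le_mul_of_nonneg_right h1 (norm_nonneg _))
    have h5 : ‖fderiv ℝ Φ (g n z) (gx n z) - fderiv ℝ Φ (f z) (fx z)‖ ^ 2 ≤
        2 * (|M| + 1) ^ 2 * ‖gx n z - fx z‖ ^ 2 + 2 * ε ^ 2 * ‖fx z‖ ^ 2 := by
      have h6 := pow_le_pow_left₀ (norm_nonneg _) h4 2
      nlinarith [sq_nonneg ((|M| + 1) * ‖gx n z - fx z‖ - ε * ‖fx z‖)]
    have e1 : ∀ {G : Type _} [NormedAddCommGroup G] (x : G), ‖x‖ₑ ^ 2 = ENNReal.ofReal (‖x‖ ^ 2) := by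
      intro G _ x
      rw [ENNReal.ofReal_pow (norm_nonneg _), ofReal_norm]
    have e2 : ‖fderiv ℝ Φ (g n z) (gx n z) - fderiv ℝ Φ (f z) (fx z)‖ₑ ^ 2 =
        ENNReal.ofReal (‖fderiv ℝ Φ (g n z) (gx n z) - fderiv ℝ Φ (f z) (fx z)‖ ^ 2) := by
      rw [ENNReal.ofReal_pow (norm_nonneg _), ofReal_norm]
    have hp1 : (0 : ℝ) ≤ 2 * (|M| + 1) ^ 2 := by positivity
    have hp2 : (0 : ℝ) ≤ 2 * ε ^ 2 := by positivity
    rw [e2, e1 (gx n z - fx z), e1 (fx z), ← ENNReal.ofReal_mul hp1, ← ENNReal.ofReal_mul hp2,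
      ← ENNReal.ofReal_add (by positivity) (by positivity)]
    exact ENNReal.ofReal_le_ofReal h5
  -- integrate
  have hint : ∀ ε : ℝ, 0 < ε → ε ≤ 1 → ∀ᶠ n in atTop,
      ∫⁻ z in K, ‖fderiv ℝ Φ (g n z) (gx n z) - fderiv ℝ Φ (f z) (fx z)‖ₑ ^ 2 ≤
        ENNReal.ofReal (2 * (|M| + 1) ^ 2) * (∫⁻ z in K, ‖gx n z - fx z‖ₑ ^ 2) +
          ENNReal.ofReal (2 * ε ^ 2) * ∫⁻ z in K, ‖fx z‖ₑ ^ 2 := by
    intro ε hε hε1
    filter_upwards [hpt ε hε hε1] with n hn
    have hmeas : AEMeasurable (fun z => ENNReal.ofReal (2 * ε ^ 2) * ‖fx z‖ₑ ^ 2)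
        (volume.restrict K) := (hfx.1.enorm.pow_const 2).const_mul _
    calc ∫⁻ z in K, ‖fderiv ℝ Φ (g n z) (gx n z) - fderiv ℝ Φ (f z) (fx z)‖ₑ ^ 2
        ≤ ∫⁻ z in K, (ENNReal.ofReal (2 * (|M| + 1) ^ 2) * ‖gx n z - fx z‖ₑ ^ 2 +
          ENNReal.ofReal (2 * ε ^ 2) * ‖fx z‖ₑ ^ 2) := setLIntegral_mono' hK.measurableSet hn
      _ = (∫⁻ z in K, ENNReal.ofReal (2 * (|M| + 1) ^ 2) * ‖gx n z - fx z‖ₑ ^ 2) +
          ∫⁻ z in K, ENNReal.ofReal (2 * ε ^ 2) * ‖fx z‖ₑ ^ 2 := lintegral_add_right' _ hmeas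
      _ = _ := by
          rw [lintegral_const_mul' _ _ ENNReal.ofReal_ne_top,
            lintegral_const_mul' _ _ ENNReal.ofReal_ne_top]
  rw [ENNReal.tendsto_nhds_zero]
  intro η hη
  -- choose ε
  obtain ⟨ε, hε, hε1, hεη⟩ : ∃ ε : ℝ, 0 < ε ∧ ε ≤ 1 ∧
      ENNReal.ofReal (2 * ε ^ 2) * ∫⁻ z in K, ‖fx z‖ₑ ^ 2 ≤ η / 2 := by
    have ht : Tendsto (fun ε : ℝ => ENNReal.ofReal (2 * ε ^ 2) * ∫⁻ z in K, ‖fx z‖ₑ ^ 2)
        (𝓝[>] 0) (𝓝 (ENNReal.ofReal (2 * 0 ^ 2) * ∫⁻ z in K, ‖fx z‖ₑ ^ 2)) := by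
      refine ENNReal.Tendsto.mul_const ?_ (Or.inr hI)
      refine ENNReal.tendsto_ofReal ?_
      have : Continuous (fun ε : ℝ => 2 * ε ^ 2) := by fun_prop
      exact (this.tendsto 0).mono_left nhdsWithin_le_nhds
    rw [show ENNReal.ofReal (2 * 0 ^ 2) * ∫⁻ z in K, ‖fx z‖ₑ ^ 2 = 0 by simp] at ht
    have h1 := (ENNReal.tendsto_nhds_zero.1 ht) (η / 2) (ENNReal.half_pos hη.ne')
    have h2 : ∀ᶠ ε : ℝ in 𝓝[>] 0, ε ≤ 1 := by
      have := Ioc_mem_nhdsGT (show (0 : ℝ) < 1 by norm_num)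
      filter_upwards [this] with ε h using h.2
    obtain ⟨ε, h3, h4, h5⟩ := (h1.and (h2.and self_mem_nhdsWithin)).exists
    exact ⟨ε, h5, h4, h3⟩
  have h6 : Tendsto (fun n => ENNReal.ofReal (2 * (|M| + 1) ^ 2) *
      ∫⁻ z in K, ‖gx n z - fx z‖ₑ ^ 2) atTop (𝓝 0) := by
    have := ENNReal.Tendsto.const_mul (a := ENNReal.ofReal (2 * (|M| + 1) ^ 2)) hgx
      (Or.inr ENNReal.ofReal_ne_top)
    rwa [mul_zero] at this
  have h7 := (ENNReal.tendsto_nhds_zero.1 h6) (η / 2) (ENNReal.half_pos hη.ne')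
  filter_upwards [hint ε hε hε1, h7] with n h8 h9
  refine h8.trans ((add_le_add h9 hεη).trans ?_)
  rw [ENNReal.add_halves]

/-- S06b. CHAIN RULE with a `C^1` function `Φ`.
PROOF. By S03 it is enough to do it on small balls `V = ball z₀ r`, `closedBall z₀ r ⊆ U`. Approximate: S05b on `K = closedBall z₀ r` gives `g n`;
`Φ ∘ g n` is `C^1` (S01), converges uniformly to `Φ ∘ f` on `K`, and `fderiv Φ (g n z) (∂ g n z) - fderiv Φ (f z) (fx z)` `=
fderiv Φ (g n z) (∂ g n z - fx z) + (fderiv Φ (g n z) - fderiv Φ (f z)) (fx z)`; the values of `g n` (n large) and `f` on `K` stay in a compact set (`E` finite dimensional), on which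
`fderiv Φ` is bounded and uniformly continuous. Use S06a. -/
theorem Sob.comp_contDiff [FiniteDimensional ℝ E] {U : Set ℂ} {f fx fy : ℂ → E} (hU : IsOpen U) (h : Sob U f fx fy)
    {Φ : E → F} (hΦ : ContDiff ℝ 1 Φ) :
    Sob U (fun z => Φ (f z)) (fun z => fderiv ℝ Φ (f z) (fx z)) (fun z => fderiv ℝ Φ (f z) (fy z)) := by
  refine sob_of_local hU (fun z0 hz0 => ?_)
  obtain ⟨r, hr, hball⟩ := Metric.nhds_basis_closedBall.mem_iff.1 (hU.mem_nhds hz0)
  refine ⟨ball z0 r, isOpen_ball, mem_ball_self hr, ?_⟩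
  have hK : IsCompact (closedBall z0 r) := isCompact_closedBall _ _
  obtain ⟨g, hg, hgu, hgx, hgy⟩ := h.exists_approx hU hK hball
  have hVK : ball z0 r ⊆ closedBall z0 r := ball_subset_closedBall
  have hfK : ContinuousOn f (closedBall z0 r) := h.cont.mono hball
  obtain ⟨hmx, htx⟩ := s06b_aux hK hfK (h.lx _ hball hK) hgu hgx hΦ
  obtain ⟨hmy, hty⟩ := s06b_aux hK hfK (h.ly _ hball hK) hgu hgy hΦ
  have hchain : ∀ n z (v : ℂ), fderiv ℝ (fun z => Φ (g n z)) z v =
      fderiv ℝ Φ (g n z) (fderiv ℝ (g n) z v) := by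
    intro n z v
    have h1 : DifferentiableAt ℝ Φ (g n z) := hΦ.contDiffAt.differentiableAt one_ne_zero
    have h2 : DifferentiableAt ℝ (g n) z := (hg n).contDiffAt.differentiableAt (by simp)
    have h3 := fderiv_comp z h1 h2
    have h4 : (fun z => Φ (g n z)) = Φ ∘ (g n) := rfl
    rw [h4, h3]
    rfl
  have hmono : ∀ {K' : Set ℂ} {G : ℕ → ℂ → ℝ≥0∞}, K' ⊆ ball z0 r →
      Tendsto (fun n => ∫⁻ z in closedBall z0 r, G n z) atTop (𝓝 0) →
      Tendsto (fun n => ∫⁻ z in K', G n z) atTop (𝓝 0) := by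
    intro K' G hK' hG
    refine tendsto_of_tendsto_of_tendsto_of_le_of_le tendsto_const_nhds hG (fun _ => zero_le) ?_
    intro n
    exact lintegral_mono_set (hK'.trans hVK)
  refine sob_of_tendsto isOpen_ball (g := fun n z => Φ (g n z))
    (gx := fun n z => fderiv ℝ (fun z => Φ (g n z)) z 1)
    (gy := fun n z => fderiv ℝ (fun z => Φ (g n z)) z Complex.I) ?_ ?_ ?_ ?_ ?_ ?_
  · intro n
    refine sob_of_contDiffOn isOpen_ball ?_
    exact (hΦ.comp ((hg n).of_le (by exact_mod_cast le_top))).contDiffOn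
  · intro K' hK' _
    exact (s06b_unif hK hfK hgu hΦ.continuous).mono (hK'.trans hVK)
  · intro K' hK' _
    exact hmx.mono_measure (Measure.restrict_mono (hK'.trans hVK) le_rfl)
  · intro K' hK' _
    exact hmy.mono_measure (Measure.restrict_mono (hK'.trans hVK) le_rfl)
  · intro K' hK' _
    simp_rw [hchain]
    exact hmono hK' htx
  · intro K' hK' _
    simp_rw [hchain]
    exact hmono hK' hty

end CF6

end

section

set_option autoImplicit false

open MeasureTheory Metric Set Filter Topology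
open scoped ContDiff ENNReal ComplexConjugate

namespace CF6

theorem s07b_det (c : ℂ) :
    ((c • (1 : ℂ →L[ℂ] ℂ)).restrictScalars ℝ : ℂ →L[ℝ] ℂ).det = ‖c‖ ^ 2 := by
  have h : (((c • (1 : ℂ →L[ℂ] ℂ)).restrictScalars ℝ : ℂ →L[ℝ] ℂ) : ℂ →ₗ[ℝ] ℂ) =
      Algebra.lmul ℝ ℂ c := by
    apply LinearMap.ext
    intro x
    simp
  rw [ContinuousLinearMap.det, h, ← Algebra.norm_apply, Algebra.norm_complex_apply,
    Complex.normSq_eq_norm_sq]

theorem s07b_real {E : Type*} [NormedAddCommGroup E] [InnerProductSpace ℝ E] (a b : ℝ) (u v : E) :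
    ‖a • u + b • v‖ ^ 2 + ‖(-b) • u + a • v‖ ^ 2 = (a ^ 2 + b ^ 2) * (‖u‖ ^ 2 + ‖v‖ ^ 2) := by
  rw [norm_add_sq_real, norm_add_sq_real]
  simp only [norm_smul, inner_smul_left, inner_smul_right, mul_pow, Real.norm_eq_abs, sq_abs,
    norm_neg, neg_smul, inner_neg_left, conj_trivial]
  ring

theorem s07b_enorm {E : Type*} [NormedAddCommGroup E] (x : E) :
    ‖x‖ₑ ^ 2 = ENNReal.ofReal (‖x‖ ^ 2) := by
  rw [ENNReal.ofReal_pow (norm_nonneg _), ofReal_norm]

theorem s07b_point {E : Type*} [NormedAddCommGroup E] [InnerProductSpace ℝ E] (c : ℂ) (u v : E) :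
    ‖c.re • u + c.im • v‖ₑ ^ 2 + ‖(-c.im) • u + c.re • v‖ₑ ^ 2 =
      ENNReal.ofReal |‖c‖ ^ 2| * (‖u‖ₑ ^ 2 + ‖v‖ₑ ^ 2) := by
  have h1 : ‖c‖ ^ 2 = c.re ^ 2 + c.im ^ 2 := by
    rw [← Complex.normSq_eq_norm_sq, Complex.normSq_apply]
    ring
  rw [s07b_enorm, s07b_enorm, s07b_enorm, s07b_enorm, ← ENNReal.ofReal_add (by positivity) (by positivity),
    ← ENNReal.ofReal_add (by positivity) (by positivity), abs_of_nonneg (by positivity),
    ← ENNReal.ofReal_mul (by positivity), s07b_real, h1]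

/-- S07b. the energy is conformally invariant
(`MeasureTheory.lintegral_image_eq_lintegral_abs_det_fderiv_mul`; `det (fderiv ℝ ψ z) = ‖deriv ψ z‖²`;
`‖a u + b v‖² + ‖-b u + a v‖² = (a²+b²)(‖u‖²+‖v‖²)` in an inner product space). -/
theorem en_comp_conf {E : Type*} [NormedAddCommGroup E] [InnerProductSpace ℝ E] {V A : Set ℂ} {fx fy : ℂ → E} {ψ : ℂ → ℂ}
    (hV : IsOpen V) (hd : DifferentiableOn ℂ ψ V) (hi : InjOn ψ V) (hA : MeasurableSet A) (hAV : A ⊆ V) :
    enE A (pbx ψ fx fy) (pby ψ fx fy) = enE (ψ '' A) fx fy := by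
  unfold enE
  have hder : ∀ z ∈ A, HasFDerivWithinAt ψ
      (((deriv ψ z) • (1 : ℂ →L[ℂ] ℂ)).restrictScalars ℝ : ℂ →L[ℝ] ℂ) A z := by
    intro z hz
    have h1 : HasDerivAt ψ (deriv ψ z) z :=
      ((hd z (hAV hz)).differentiableAt (hV.mem_nhds (hAV hz))).hasDerivAt
    have h2 : HasFDerivAt ψ ((deriv ψ z) • (1 : ℂ →L[ℂ] ℂ)) z := by
      have h3 := h1.hasFDerivAt
      have h4 : (ContinuousLinearMap.toSpanSingleton ℂ (deriv ψ z) : ℂ →L[ℂ] ℂ) =
          (deriv ψ z) • (1 : ℂ →L[ℂ] ℂ) := by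
        ext
        simp
      exact h4 ▸ h3
    exact (h2.restrictScalars ℝ).hasFDerivWithinAt
  rw [MeasureTheory.lintegral_image_eq_lintegral_abs_det_fderiv_mul volume hA hder (hi.mono hAV)]
  refine lintegral_congr (fun z => ?_)
  rw [s07b_det, ← s07b_point]
  rfl

end CF6

end

section

set_option autoImplicit false

open MeasureTheory Metric Set Filter Topology
open scoped ContDiff ENNReal ComplexConjugate

namespace CF6

/-- images of relatively closed sets are relatively closed -/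
theorem t1_closed {U V : Set ℂ} {F : ℂ → ℂ} (h : PMap U V F) {S : Set ℂ}
    (hSV : S ⊆ V) {C : Set ℂ} (hC : IsClosed C) {y : ℂ} (hy : y ∈ S)
    (hcl : y ∈ closure (F '' ((U ∩ F ⁻¹' S) ∩ C))) : ∃ x ∈ U, F x = y ∧ x ∈ C := by
  obtain ⟨yn, hyn, hlim⟩ := mem_closure_iff_seq_limit.1 hcl
  choose xn hxn hxy using hyn
  have hK : IsCompact (insert y (range yn)) := hlim.isCompact_insert_range
  have hKV : insert y (range yn) ⊆ V := by
    rintro z (rfl | ⟨n, rfl⟩)
    · exact hSV hy
    · rw [← hxy n]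
      exact hSV (hxn n).1.2
  have hKU := h.proper _ hKV hK
  have hmem : ∀ n, xn n ∈ U ∩ F ⁻¹' (insert y (range yn)) := by
    intro n
    refine ⟨(hxn n).1.1, ?_⟩
    have h1 : F (xn n) ∈ insert y (range yn) := by
      rw [hxy n]
      exact Or.inr ⟨n, rfl⟩
    exact h1
  obtain ⟨x, hx, φ, hφ, hφlim⟩ := hKU.tendsto_subseq hmem
  refine ⟨x, hx.1, ?_, ?_⟩
  · have h1 : Tendsto (fun n => F (xn (φ n))) atTop (𝓝 (F x)) := by
      have h2 : ContinuousWithinAt F U x := h.cont x hx.1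
      have h3 : Tendsto (xn ∘ φ) atTop (𝓝[U] x) :=
        tendsto_nhdsWithin_iff.2 ⟨hφlim, Eventually.of_forall (fun n => (hxn (φ n)).1.1)⟩
      exact h2.tendsto.comp h3
    have h4 : Tendsto (fun n => F (xn (φ n))) atTop (𝓝 y) := by
      have h5 := hlim.comp hφ.tendsto_atTop
      refine h5.congr (fun n => ?_)
      exact (hxy (φ n)).symm
    exact tendsto_nhds_unique h1 h4
  · exact hC.mem_of_tendsto hφlim (Eventually.of_forall (fun n => (hxn (φ n)).2))

/-- T1. Preimages of connected sets under a proper map with connected fibres are connected.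
PROOF. Nonempty: fibres are not empty. Let `T = U ∩ F ⁻¹' S`, `C₁`, `C₂` closed in `ℂ`, `T ⊆ C₁ ∪ C₂`, `T ∩ C₁ ∩ C₂ = ∅` (use `isPreconnected_closed_iff`); suppose both `T ∩ C₁`, `T ∩ C₂` are not empty. Every fibre over `y ∈ S` is connected and contained in
`C₁ ∪ C₂`, so it is contained in exactly one of them. `S₁ = {y ∈ S | U ∩ F ⁻¹' {y} ⊆ C₁}`, `S₂` similarly: `S = S₁ ∪ S₂`, disjoint, nonempty. `S₁` is closed in `S`: if `y_n ∈ S₁`, `y_n → y ∈ S`, then `{y_n} ∪ {y}` is a compact subset of `V`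
(`Filter.Tendsto.isCompact_insert_range`), so the points `x_n` of the fibres over `y_n` stay in a compact subset of `U`; a subsequence converges to `x ∈ U ∩ C₁` with `F x = y`; so `y ∈ S₁`. Same for `S₂`. Contradiction to the connectedness of `S`. -/
theorem PMap.preimage_connected {U V : Set ℂ} {F : ℂ → ℂ} (h : PMap U V F) {S : Set ℂ}
    (hS : IsConnected S) (hSV : S ⊆ V) : IsConnected (U ∩ F ⁻¹' S) := by
  refine ⟨?_, ?_⟩
  · obtain ⟨y, hy⟩ := hS.nonempty
    obtain ⟨x, hx⟩ := (h.fib y (hSV hy)).nonempty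
    refine ⟨x, hx.1, ?_⟩
    have h1 : F x = y := hx.2
    have h2 : F x ∈ S := h1 ▸ hy
    exact h2
  · rw [isPreconnected_closed_iff]
    intro C1 C2 hC1 hC2 hT hn1 hn2
    have hSpre := isPreconnected_closed_iff.1 hS.isPreconnected
      (closure (F '' ((U ∩ F ⁻¹' S) ∩ C1))) (closure (F '' ((U ∩ F ⁻¹' S) ∩ C2)))
      isClosed_closure isClosed_closure ?_ ?_ ?_
    · obtain ⟨y, hy, hy1, hy2⟩ := hSpre
      obtain ⟨x1, hx1U, hx1y, hx1C⟩ := t1_closed h hSV hC1 hy hy1
      obtain ⟨x2, hx2U, hx2y, hx2C⟩ := t1_closed h hSV hC2 hy hy2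
      have hfib := isPreconnected_closed_iff.1 (h.fib y (hSV hy)).isPreconnected C1 C2 hC1 hC2
        (fun x hx => hT ⟨hx.1, by
          have h1 : F x = y := hx.2
          have h2 : F x ∈ S := h1 ▸ hy
          exact h2⟩) ⟨x1, ⟨hx1U, hx1y⟩, hx1C⟩ ⟨x2, ⟨hx2U, hx2y⟩, hx2C⟩
      obtain ⟨x, hx, hxC⟩ := hfib
      refine ⟨x, ⟨hx.1, ?_⟩, hxC⟩
      have h1 : F x = y := hx.2
      have h2 : F x ∈ S := h1 ▸ hy
      exact h2
    · intro y hy
      obtain ⟨x, hx⟩ := (h.fib y (hSV hy)).nonempty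
      have h1 : F x = y := hx.2
      have h2 : F x ∈ S := h1 ▸ hy
      rcases hT ⟨hx.1, h2⟩ with h3 | h3
      · exact Or.inl (subset_closure ⟨x, ⟨⟨hx.1, h2⟩, h3⟩, h1⟩)
      · exact Or.inr (subset_closure ⟨x, ⟨⟨hx.1, h2⟩, h3⟩, h1⟩)
    · obtain ⟨x, hx, hxC⟩ := hn1
      exact ⟨F x, hx.2, subset_closure ⟨x, ⟨hx, hxC⟩, rfl⟩⟩
    · obtain ⟨x, hx, hxC⟩ := hn2
      exact ⟨F x, hx.2, subset_closure ⟨x, ⟨hx, hxC⟩, rfl⟩⟩

end CF6

end

section

set_option autoImplicit false

open MeasureTheory Metric Set Filter Topology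
open scoped ContDiff ENNReal ComplexConjugate

namespace CF6

/-- T2. A domain minus an open disc (whose closure is contained in the domain) is connected.
PROOF. The circle `sphere c r` is connected (`isConnected_sphere`, real dimension 2) and contained in `V \ ball c r`. Every `x ∈ V \ ball c r` is in a connected subset of `V \ ball c r` which meets the circle: take a path `γ` in `V` from `x` to `c`
(`IsOpen.isConnected_iff_isPathConnected`), the first time `t₀` with `γ t₀ ∈ closedBall c r` (a minimum of a compact set); `γ [0,t₀]` is connected, in `V`, and does not meet the open ball; `γ t₀` is on the circle. (`isConnected_of_forall...`: `isPreconnected_of_forall`.) -/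
theorem isConnected_diff_ball {V : Set ℂ} (hV : IsOpen V) (hc : IsConnected V) {c : ℂ} {r : ℝ}
    (hr : 0 < r) (hQ : closedBall c r ⊆ V) : IsConnected (V \ ball c r) := by
  have hrank : 1 < Module.rank ℝ ℂ := by
    rw [Complex.rank_real_complex]
    exact Cardinal.one_lt_two
  have hsph : IsConnected (sphere c r) := isConnected_sphere hrank c hr.le
  obtain ⟨x0, hx0⟩ := hsph.nonempty
  have hss : sphere c r ⊆ V \ ball c r := fun y hy =>
    ⟨hQ (sphere_subset_closedBall hy), fun h => by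
      rw [mem_sphere] at hy; rw [mem_ball] at h; linarith⟩
  refine ⟨⟨x0, hss hx0⟩, isPreconnected_of_forall x0 fun x hx => ?_⟩
  have hpc := (hV.isConnected_iff_isPathConnected).1 hc
  obtain ⟨γ, hγ⟩ := hpc.joinedIn x hx.1 c (hQ (mem_closedBall_self hr.le))
  have hg : Continuous (fun t : ℝ => γ.extend t) := γ.continuous_extend
  have hgV : ∀ t, γ.extend t ∈ V := fun t => by
    exact hγ (projIcc 0 1 zero_le_one t)
  have hS : IsCompact (Icc (0 : ℝ) 1 ∩ (fun t : ℝ => γ.extend t) ⁻¹' closedBall c r) :=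
    isCompact_Icc.inter_right (isClosed_closedBall.preimage hg)
  have hSne : (Icc (0 : ℝ) 1 ∩ (fun t : ℝ => γ.extend t) ⁻¹' closedBall c r).Nonempty :=
    ⟨1, ⟨by norm_num, by norm_num⟩, by simp [hr.le]⟩
  obtain ⟨t0, ht0, hmin⟩ := hS.exists_isLeast hSne
  have h0t0 : 0 ≤ t0 := ht0.1.1
  have hlt : ∀ t ∈ Ico 0 t0, r < dist (γ.extend t) c := by
    intro t ht
    by_contra h
    have := hmin ⟨⟨ht.1, (ht.2.trans_le ht0.1.2).le⟩, not_lt.1 h⟩
    exact absurd ht.2 (not_lt.2 this)
  have ht0s : γ.extend t0 ∈ sphere c r := by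
    rw [mem_sphere]
    refine le_antisymm ht0.2 ?_
    rcases h0t0.eq_or_lt with h | h
    · rw [← h, Path.extend_zero]
      exact not_lt.1 hx.2
    · have hcl : closure (Ico 0 t0) = Icc 0 t0 := closure_Ico h.ne
      have hmem : t0 ∈ closure (Ico 0 t0) := by rw [hcl]; exact ⟨h.le, le_rfl⟩
      have hcd : IsClosed {t : ℝ | r ≤ dist (γ.extend t) c} :=
        isClosed_le continuous_const (hg.dist continuous_const)
      exact closure_minimal (fun t ht => (hlt t ht).le) hcd hmem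
  refine ⟨(fun t : ℝ => γ.extend t) '' Icc 0 t0 ∪ sphere c r, ?_, Or.inr hx0,
    Or.inl ⟨0, ⟨le_rfl, h0t0⟩, by simp⟩, ?_⟩
  · rintro y (⟨t, ht, rfl⟩ | hy)
    · refine ⟨hgV t, fun hb => ?_⟩
      rw [mem_ball] at hb
      rcases ht.2.eq_or_lt with h | h
      · subst h
        rw [mem_sphere] at ht0s
        linarith
      · have := hlt t ⟨ht.1, h⟩
        linarith
    · exact hss hy
  · exact IsPreconnected.union (γ.extend t0) ⟨t0, ⟨h0t0, le_rfl⟩, rfl⟩ ht0s
      (isPreconnected_Icc.image _ hg.continuousOn) hsph.isPreconnected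

end CF6

end
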