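import Pool.Agent.Lib.MP_cf6b16_an.K1
import Pool.Agent.Lib.MP_cf6b16_an.K2

section

set_option autoImplicit false

open MeasureTheory Metric Set Filter Topology
open scoped ContDiff ENNReal ComplexConjugate

namespace CF6

theorem br1_piece_real {f g φ : ℝ → ℝ} {a b : ℝ} (hab : a ≤ b) (hφ : ContDiff ℝ 1 φ)
    (hg : IntervalIntegrable g volume a b)
    (hf : ∀ x ∈ Icc a b, f x - f a = ∫ t in a..x, g t) :
    φ b * f b - φ a * f a = ∫ t in a..b, (deriv φ t * f t + φ t * g t) := by
  have hac : AbsolutelyContinuousOnInterval (fun x => ∫ t in a..x, g t) a b :=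
    hg.absolutelyContinuousOnInterval_intervalIntegral left_mem_uIcc
  have hφac : AbsolutelyContinuousOnInterval φ a b := by
    have := (hφ.contDiffOn (s := uIcc a b)).absolutelyContinuousOnInterval
    exact this
  have hfac : AbsolutelyContinuousOnInterval (fun x => f a + ∫ t in a..x, g t) a b := by
    have hc : AbsolutelyContinuousOnInterval (fun _ : ℝ => f a) a b :=
      (contDiff_const (c := f a) (n := 1) (𝕜 := ℝ)).contDiffOn.absolutelyContinuousOnInterval
    exact hc.add hac
  have h1 := hφac.integral_deriv_mul_eq_sub hfac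
  have h2 : ∀ x ∈ Icc a b, f a + ∫ t in a..x, g t = f x := by
    intro x hx
    have := hf x hx
    linarith
  rw [h2 b (right_mem_Icc.2 hab), h2 a (left_mem_Icc.2 hab)] at h1
  rw [← h1]
  refine intervalIntegral.integral_congr_ae ?_
  filter_upwards [hg.ae_hasDerivAt_integral] with x hx hxm
  have hx' : x ∈ uIcc a b := uIoc_subset_uIcc hxm
  have hd : HasDerivAt (fun x => f a + ∫ t in a..x, g t) (g x) x := by
    have := (hx hx' a left_mem_uIcc).const_add (f a)
    exact this
  rw [hd.deriv, h2 x (by rwa [uIcc_of_le hab] at hx')]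

theorem br1_piece {f g : ℝ → ℂ} {φ : ℝ → ℝ} {a b : ℝ} (hab : a ≤ b) (hφ : ContDiff ℝ 1 φ)
    (hg : IntervalIntegrable g volume a b) (hfc : ContinuousOn f (Icc a b))
    (hf : ∀ x ∈ Icc a b, f x - f a = ∫ t in a..x, g t) :
    φ b • f b - φ a • f a = ∫ t in a..b, (deriv φ t • f t + φ t • g t) := by
  have hsub : ∀ x ∈ Icc a b, IntervalIntegrable g volume a x := by
    intro x hx
    exact hg.mono_set (by rw [uIcc_of_le hx.1, uIcc_of_le hab]; exact Icc_subset_Icc_right hx.2)
  have hI : IntervalIntegrable (fun t => deriv φ t • f t + φ t • g t) volume a b := by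
    have h1 : IntervalIntegrable (fun t => deriv φ t • f t) volume a b := by
      refine ContinuousOn.intervalIntegrable ?_
      rw [uIcc_of_le hab]
      exact (hφ.continuous_deriv le_rfl).continuousOn.smul hfc
    have h2 : IntervalIntegrable (fun t => φ t • g t) volume a b := by
      have := hg.continuousOn_smul (f := φ) hφ.continuous.continuousOn
      exact this
    exact h1.add h2
  have key : ∀ L : ℂ →L[ℝ] ℝ, L (φ b • f b - φ a • f a) =
      L (∫ t in a..b, (deriv φ t • f t + φ t • g t)) := by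
    intro L
    rw [← L.intervalIntegral_comp_comm hI]
    simp only [map_sub, map_smul, map_add, smul_eq_mul]
    refine br1_piece_real (f := fun t => L (f t)) (g := fun t => L (g t)) hab hφ ?_ ?_
    · exact ⟨L.integrable_comp hg.1, L.integrable_comp hg.2⟩
    · intro x hx
      rw [← map_sub, hf x hx]
      exact (L.intervalIntegral_comp_comm (hsub x hx)).symm
  refine Complex.ext ?_ ?_
  · exact key Complex.reCLM
  · exact key Complex.imCLM

theorem br1_line {V : Set ℝ} (hV : IsOpen V) {f g : ℝ → ℂ} {φ : ℝ → ℝ} (hφ : ContDiff ℝ 1 φ)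
    (hc : HasCompactSupport φ) (hs : tsupport φ ⊆ V) (hfc : ContinuousOn f V)
    (h : ∀ a b, a ≤ b → Icc a b ⊆ V →
      IntervalIntegrable g volume a b ∧ f b - f a = ∫ t in a..b, g t) :
    ∫ t, (deriv φ t) • f t = - ∫ t, φ t • g t := by
  have hdc : Continuous (deriv φ) := hφ.continuous_deriv le_rfl
  have hds : tsupport (deriv φ) ⊆ tsupport φ := closure_minimal
    (support_deriv_subset) (isClosed_tsupport _)
  have hK : IsCompact (tsupport φ) := hc
  have i1 : Integrable (fun t => deriv φ t • f t) := by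
    have h1 : IntegrableOn (fun t => deriv φ t • f t) (tsupport φ) :=
      (hdc.continuousOn.smul (hfc.mono hs)).integrableOn_compact hK
    refine h1.integrable_of_forall_notMem_eq_zero ?_
    intro z hz
    rw [image_eq_zero_of_notMem_tsupport (fun hh => hz (hds hh)), zero_smul]
  have hgl : LocallyIntegrableOn g V := by
    intro x hx
    obtain ⟨δ, hδ, hb⟩ := Metric.isOpen_iff.1 hV x hx
    have hsub : Icc (x - δ / 2) (x + δ / 2) ⊆ V := by
      intro t ht
      refine hb ?_
      rw [Metric.mem_ball, Real.dist_eq, abs_lt]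
      constructor <;> linarith [ht.1, ht.2]
    refine ⟨Icc (x - δ / 2) (x + δ / 2), ?_, ?_⟩
    · exact mem_nhdsWithin_of_mem_nhds (Icc_mem_nhds (by linarith) (by linarith))
    · have := (h (x - δ / 2) (x + δ / 2) (by linarith) hsub).1
      rwa [intervalIntegrable_iff_integrableOn_Icc_of_le (by linarith)] at this
  have i2 : Integrable (fun t => φ t • g t) := by
    have h0 : IntegrableOn g (tsupport φ) := hgl.integrableOn_compact_subset hs hK
    have h1 : IntegrableOn (fun z => φ z • g z) (tsupport φ) :=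
      h0.continuousOn_smul hφ.continuous.continuousOn hK
    refine h1.integrable_of_forall_notMem_eq_zero ?_
    intro z hz
    rw [image_eq_zero_of_notMem_tsupport hz, zero_smul]
  have i3 : Integrable (fun t => deriv φ t • f t + φ t • g t) := i1.add i2
  -- the defect is locally constant
  have hloc : IsLocallyConstant
      (fun x => φ x • f x - ∫ t in (0 : ℝ)..x, (deriv φ t • f t + φ t • g t)) := by
    rw [IsLocallyConstant.iff_eventually_eq]
    intro x
    by_cases hx : x ∈ V
    · obtain ⟨δ, hδ, hb⟩ := Metric.isOpen_iff.1 hV x hx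
      filter_upwards [Metric.ball_mem_nhds x hδ] with y hy
      have aux : ∀ p q : ℝ, p ≤ q → p ∈ Metric.ball x δ → q ∈ Metric.ball x δ →
          φ q • f q - φ p • f p = ∫ t in p..q, (deriv φ t • f t + φ t • g t) := by
        intro p q hpq hp hq
        have hsub : Icc p q ⊆ V := fun t ht => hb (by
          rw [Metric.mem_ball, Real.dist_eq, abs_lt] at hp hq ⊢
          constructor <;> linarith [ht.1, ht.2])
        refine br1_piece hpq hφ (h p q hpq hsub).1 (hfc.mono hsub) ?_
        intro t ht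
        exact (h p t ht.1 ((Icc_subset_Icc_right ht.2).trans hsub)).2
      have hxx : x ∈ Metric.ball x δ := Metric.mem_ball_self hδ
      have hint : ∀ p q : ℝ, IntervalIntegrable
          (fun t => deriv φ t • f t + φ t • g t) volume p q := fun p q => i3.intervalIntegrable
      rcases le_total x y with hxy | hxy
      · have h1 := aux x y hxy hxx hy
        have h2 := intervalIntegral.integral_add_adjacent_intervals (hint 0 x) (hint x y)
        rw [← h2, ← h1]
        abel
      · have h1 := aux y x hxy hy hxx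
        have h2 := intervalIntegral.integral_add_adjacent_intervals (hint 0 y) (hint y x)
        rw [← h2, ← h1]
        abel
    · have hx' : x ∉ tsupport φ := fun hh => hx (hs hh)
      have hO : IsOpen (tsupport φ)ᶜ := (isClosed_tsupport φ).isOpen_compl
      obtain ⟨δ, hδ, hb⟩ := Metric.isOpen_iff.1 hO x hx'
      filter_upwards [Metric.ball_mem_nhds x hδ] with y hy
      have hz : ∀ t ∈ Metric.ball x δ, φ t = 0 ∧ deriv φ t = 0 := fun t ht =>
        ⟨image_eq_zero_of_notMem_tsupport (hb ht),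
          image_eq_zero_of_notMem_tsupport (fun hh => hb ht (hds hh))⟩
      have hint : ∀ p q : ℝ, IntervalIntegrable
          (fun t => deriv φ t • f t + φ t • g t) volume p q := fun p q => i3.intervalIntegrable
      have h2 := intervalIntegral.integral_add_adjacent_intervals (hint 0 x) (hint x y)
      have h3 : ∫ t in x..y, (deriv φ t • f t + φ t • g t) = 0 := by
        refine intervalIntegral.integral_zero_ae (Eventually.of_forall fun t ht => ?_)
        have htb : t ∈ Metric.ball x δ := by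
          rw [Metric.mem_ball, Real.dist_eq, abs_lt] at hy ⊢
          have := uIoc_subset_uIcc ht
          rw [mem_uIcc] at this
          rcases this with h | h <;> constructor <;> linarith [h.1, h.2]
        rw [(hz t htb).1, (hz t htb).2, zero_smul, zero_smul, add_zero]
      rw [← h2, h3, (hz y hy).1, (hz x (Metric.mem_ball_self hδ)).1]
      simp
  -- far away
  obtain ⟨R, hR⟩ := hK.isBounded.subset_ball 0
  have hR0 : ∀ t, R ≤ |t| → φ t = 0 ∧ deriv φ t = 0 := by
    intro t ht
    have : t ∉ tsupport φ := fun hh => by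
      have := hR hh
      rw [Metric.mem_ball, dist_zero_right, Real.norm_eq_abs] at this
      linarith
    exact ⟨image_eq_zero_of_notMem_tsupport this,
      image_eq_zero_of_notMem_tsupport (fun hh => this (hds hh))⟩
  set S := max R 1 with hSdef
  have hS1 : (1 : ℝ) ≤ S := le_max_right _ _
  have hSR : R ≤ S := le_max_left _ _
  have e1 := hloc.apply_eq_of_preconnectedSpace S (-S)
  have hS2 : φ S = 0 := (hR0 S (by rw [abs_of_pos (by linarith)]; exact hSR)).1
  have hS3 : φ (-S) = 0 := (hR0 (-S) (by rw [abs_neg, abs_of_pos (by linarith)]; exact hSR)).1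
  simp only [hS2, hS3, zero_smul, zero_sub, neg_inj] at e1
  have hint : ∀ p q : ℝ, IntervalIntegrable
      (fun t => deriv φ t • f t + φ t • g t) volume p q := fun p q => i3.intervalIntegrable
  have e2 : ∫ t in (-S)..S, (deriv φ t • f t + φ t • g t) = 0 := by
    have := intervalIntegral.integral_add_adjacent_intervals (hint 0 (-S)) (hint (-S) S)
    rw [e1] at this
    exact add_eq_left.1 this
  have e3 : ∫ t in (-S)..S, (deriv φ t • f t + φ t • g t) =
      ∫ t, (deriv φ t • f t + φ t • g t) := by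
    refine intervalIntegral.integral_eq_integral_of_support_subset ?_
    intro t ht
    by_contra hcon
    apply ht
    have : R ≤ |t| := by
      by_contra h4
      push Not at h4
      have h5 := abs_lt.1 h4
      exact hcon ⟨by linarith, by linarith⟩
    simp only [(hR0 t this).1, (hR0 t this).2, zero_smul, add_zero]
  rw [e2] at e3
  rw [integral_add i1 i2] at e3
  exact eq_neg_of_add_eq_zero_left e3.symm

theorem br1_lp {U : Set ℂ} {g : ℂ → ℂ} (hm : AEStronglyMeasurable g (volume.restrict U))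
    (hfin : (∫⁻ z in U, ‖g z‖ₑ ^ 2) < ⊤) :
    ∀ K, K ⊆ U → IsCompact K → MemLp g 2 (volume.restrict K) := by
  intro K hK _
  have h1 : MemLp g 2 (volume.restrict U) := by
    refine ⟨hm, ?_⟩
    rw [eLpNorm_lt_top_iff_lintegral_rpow_enorm_lt_top (by norm_num) (by norm_num)]
    simpa using hfin
  exact h1.mono_measure (Measure.restrict_mono hK le_rfl)

theorem br1_fubini1 {F : ℂ → ℂ} (hF : Integrable F) :
    ∫ z, F z = ∫ y : ℝ, ∫ x : ℝ, F ⟨x, y⟩ := by
  rw [← (Complex.volume_preserving_equiv_real_prod.symm).integral_comp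
    Complex.measurableEquivRealProd.symm.measurableEmbedding]
  have h2 : Integrable (fun p : ℝ × ℝ => F (Complex.measurableEquivRealProd.symm p)) :=
    (Complex.volume_preserving_equiv_real_prod.symm).integrable_comp_of_integrable hF
  rw [Measure.volume_eq_prod] at h2 ⊢
  rw [integral_prod_symm _ h2]
  rfl

theorem br1_fubini2 {F : ℂ → ℂ} (hF : Integrable F) :
    ∫ z, F z = ∫ x : ℝ, ∫ y : ℝ, F ⟨x, y⟩ := by
  rw [← (Complex.volume_preserving_equiv_real_prod.symm).integral_comp
    Complex.measurableEquivRealProd.symm.measurableEmbedding]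
  have h2 : Integrable (fun p : ℝ × ℝ => F (Complex.measurableEquivRealProd.symm p)) :=
    (Complex.volume_preserving_equiv_real_prod.symm).integrable_comp_of_integrable hF
  rw [Measure.volume_eq_prod] at h2 ⊢
  rw [integral_prod _ h2]
  rfl

/-- the weak identity along the lines `s ↦ l s` with direction `e` -/
theorem br1_slice {U : Set ℂ} (hU : IsOpen U) {f fe : ℂ → ℂ} (hf : ContinuousOn f U)
    {φ : ℂ → ℝ} (h1 : ContDiff ℝ ∞ φ) (h2 : HasCompactSupport φ) (h3 : tsupport φ ⊆ U)
    {l : ℝ → ℂ} {e : ℂ} (hl : ∀ t, HasDerivAt l e t) (hle : IsClosedEmbedding l)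
    (hlc : ContDiff ℝ 1 l)
    (h : ∀ a b : ℝ, a ≤ b → (∀ t ∈ Icc a b, l t ∈ U) →
      IntervalIntegrable (fun t => fe (l t)) volume a b ∧
      f (l b) - f (l a) = ∫ t in a..b, fe (l t)) :
    ∫ t, (fderiv ℝ φ (l t) e) • f (l t) = - ∫ t, φ (l t) • fe (l t) := by
  have hd : ∀ t, deriv (fun t => φ (l t)) t = fderiv ℝ φ (l t) e := by
    intro t
    have hφ : HasFDerivAt φ (fderiv ℝ φ (l t)) (l t) :=
      ((h1.differentiable (by simp)) (l t)).hasFDerivAt
    exact (hφ.comp_hasDerivAt t (hl t)).deriv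
  have := br1_line (V := l ⁻¹' U) (hU.preimage hle.continuous) (f := fun t => f (l t))
    (g := fun t => fe (l t)) (φ := fun t => φ (l t)) ((h1.of_le (by simp)).comp hlc)
    (h2.comp_isClosedEmbedding hle)
    ((tsupport_comp_subset_preimage φ hle.continuous).trans (preimage_mono h3))
    (hf.comp hle.continuous.continuousOn (fun t ht => ht)) (fun a b hab hs => h a b hab hs)
  simp only [hd] at this
  exact this

theorem br1_hor (y t : ℝ) : HasDerivAt (fun t : ℝ => (⟨t, y⟩ : ℂ)) 1 t := by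
  have h : (fun t : ℝ => (⟨t, y⟩ : ℂ)) = fun t : ℝ => (t : ℂ) + y * Complex.I := by
    funext s
    exact Complex.mk_eq_add_mul_I s y
  rw [h]
  exact (Complex.ofRealCLM.hasDerivAt (x := t)).add_const _

theorem br1_ver (x t : ℝ) : HasDerivAt (fun t : ℝ => (⟨x, t⟩ : ℂ)) Complex.I t := by
  have h : (fun t : ℝ => (⟨x, t⟩ : ℂ)) = fun t : ℝ => (x : ℂ) + t * Complex.I := by
    funext s
    exact Complex.mk_eq_add_mul_I x s
  rw [h]
  have := ((Complex.ofRealCLM.hasDerivAt (x := t)).mul_const Complex.I).const_add (x : ℂ)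
  simpa using this

theorem br1_hor_emb (y : ℝ) : IsClosedEmbedding (fun t : ℝ => (⟨t, y⟩ : ℂ)) := by
  refine Topology.IsClosedEmbedding.of_continuous_injective_isClosedMap ?_ ?_ ?_
  · exact continuous_iff_continuousAt.2 fun t => (br1_hor y t).continuousAt
  · intro s t hst
    exact congrArg Complex.re hst
  · intro C hC
    have : (fun t : ℝ => (⟨t, y⟩ : ℂ)) '' C = Complex.re ⁻¹' C ∩ Complex.im ⁻¹' {y} := by
      ext z
      constructor
      · rintro ⟨t, ht, rfl⟩
        exact ⟨ht, rfl⟩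
      · rintro ⟨h1, h2⟩
        exact ⟨z.re, h1, Complex.ext rfl (by simpa using h2.symm)⟩
    rw [this]
    exact (hC.preimage Complex.continuous_re).inter (isClosed_singleton.preimage
      Complex.continuous_im)

theorem br1_ver_emb (x : ℝ) : IsClosedEmbedding (fun t : ℝ => (⟨x, t⟩ : ℂ)) := by
  refine Topology.IsClosedEmbedding.of_continuous_injective_isClosedMap ?_ ?_ ?_
  · exact continuous_iff_continuousAt.2 fun t => (br1_ver x t).continuousAt
  · intro s t hst
    exact congrArg Complex.im hst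
  · intro C hC
    have : (fun t : ℝ => (⟨x, t⟩ : ℂ)) '' C = Complex.im ⁻¹' C ∩ Complex.re ⁻¹' {x} := by
      ext z
      constructor
      · rintro ⟨t, ht, rfl⟩
        exact ⟨ht, rfl⟩
      · rintro ⟨h1, h2⟩
        exact ⟨z.im, h1, Complex.ext (by simpa using h2.symm) rfl⟩
    rw [this]
    exact (hC.preimage Complex.continuous_im).inter (isClosed_singleton.preimage
      Complex.continuous_re)

theorem br1_hor_cd (y : ℝ) : ContDiff ℝ 1 (fun t : ℝ => (⟨t, y⟩ : ℂ)) := by
  rw [contDiff_one_iff_deriv]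
  refine ⟨fun t => (br1_hor y t).differentiableAt, ?_⟩
  have : deriv (fun t : ℝ => (⟨t, y⟩ : ℂ)) = fun _ => 1 := funext fun t => (br1_hor y t).deriv
  rw [this]
  exact continuous_const

theorem br1_ver_cd (x : ℝ) : ContDiff ℝ 1 (fun t : ℝ => (⟨x, t⟩ : ℂ)) := by
  rw [contDiff_one_iff_deriv]
  refine ⟨fun t => (br1_ver x t).differentiableAt, ?_⟩
  have : deriv (fun t : ℝ => (⟨x, t⟩ : ℂ)) = fun _ => Complex.I :=
    funext fun t => (br1_ver x t).deriv
  rw [this]
  exact continuous_const

/-- BR1. `ACL2 → Sob`. PROOF. `lx`, `ly`: `L²` on `U` (`fin`), so on every compact subset. `wx`: let `φ` be a test function with support in `U`. Fubini (`Complex.volume_preserving_equiv_real_prod` or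
`Complex.measurableEquivRealProd`): it is enough that for a.e. `y`: `∫ (∂ₓφ)(t,y) f(t,y) dt = - ∫ φ(t,y) fx(t,y) dt`. The support of `φ(·,y)` is a compact subset of the open set `U_y = {t | (t,y) ∈ U}`, so it is contained in
finitely many disjoint compact intervals `[a_i,b_i] ⊆ U_y` with `φ(a_i,y) = φ(b_i,y) = 0` (cover the support by finitely many closed intervals in `U_y`; or: Lebesgue number `δ`: cut a big interval into pieces of length `< δ`; on each piece either the
piece is in `U_y` or `φ = 0` on the piece; telescoping: on each piece `∫ (φ f)' = φ f | `, where `φ f` (extended by 0 off `U_y`) is a function whose increments are the integrals of `∂ₓφ f + φ fx`). Integration by parts on a piece `[a,b] ⊆ U_y`: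
`f(b) = f(a) + ∫_a^b fx` for all sub-intervals, `φ` is `C^1`: `φ(b) f(b) - φ(a) f(a) = ∫_a^b (∂ₓφ f + φ fx)` (real and imaginary parts, `AbsolutelyContinuousOnInterval.integral_mul_deriv_eq_deriv_mul`, or Fubini on the triangle). Integrability of `(∂φ) f`, `φ fx` over the plane is clear. -/
theorem ACL2.sob {U : Set ℂ} (hU : IsOpen U) {f fx fy : ℂ → ℂ} (h : ACL2 U f fx fy) : Sob U f fx fy := by
  have fx2 : (∫⁻ z in U, ‖fx z‖ₑ ^ 2) < ⊤ :=
    lt_of_le_of_lt (lintegral_mono fun z => le_self_add) h.fin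
  have fy2 : (∫⁻ z in U, ‖fy z‖ₑ ^ 2) < ⊤ :=
    lt_of_le_of_lt (lintegral_mono fun z => le_add_self) h.fin
  have lx := br1_lp h.mx fx2
  have ly := br1_lp h.my fy2
  refine ⟨h.cont, lx, ly, ?_, ?_⟩
  · intro φ h1 h2 h3
    obtain ⟨c1, c2, c3⟩ := s02_fderiv h1 h2 h3 1
    rw [br1_fubini1 (s02_int_of_cont h.cont c1 c2 c3),
      br1_fubini1 (s02_int_of_lp lx h1.continuous h2 h3), ← integral_neg]
    refine integral_congr_ae ?_
    filter_upwards [h.hor] with y hy
    exact br1_slice hU h.cont h1 h2 h3 (l := fun t : ℝ => (⟨t, y⟩ : ℂ)) (br1_hor y)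
      (br1_hor_emb y) (br1_hor_cd y) hy
  · intro φ h1 h2 h3
    obtain ⟨c1, c2, c3⟩ := s02_fderiv h1 h2 h3 Complex.I
    rw [br1_fubini2 (s02_int_of_cont h.cont c1 c2 c3),
      br1_fubini2 (s02_int_of_lp ly h1.continuous h2 h3), ← integral_neg]
    refine integral_congr_ae ?_
    filter_upwards [h.ver] with x hx
    exact br1_slice hU h.cont h1 h2 h3 (l := fun t : ℝ => (⟨x, t⟩ : ℂ)) (br1_ver x)
      (br1_ver_emb x) (br1_ver_cd x) hx

end CF6

end

section

set_option autoImplicit false

open MeasureTheory Metric Set Filter Topology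
open scoped ContDiff ENNReal ComplexConjugate

namespace CF6

/-- scale -/
noncomputable def co1_s (l : ℕ) : ℝ := (1 / 2 : ℝ) ^ l

theorem co1_s_pos (l : ℕ) : 0 < co1_s l := by
  unfold co1_s; positivity

theorem co1_s_anti {l m : ℕ} (h : l ≤ m) : co1_s m ≤ co1_s l := by
  unfold co1_s
  exact pow_le_pow_of_le_one (by norm_num) (by norm_num) h

theorem co1_s_succ (l : ℕ) : co1_s l = 2 * co1_s (l + 1) := by
  unfold co1_s; rw [pow_succ]; ring

theorem co1_s_le_one (l : ℕ) : co1_s l ≤ 1 := by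
  unfold co1_s
  exact pow_le_one₀ (by norm_num) (by norm_num)

theorem co1_s_three {l m : ℕ} (h : l + 3 ≤ m) : 8 * co1_s m ≤ co1_s l := by
  have h1 := co1_s_anti h
  have h2 : co1_s l = 8 * co1_s (l + 3) := by
    rw [co1_s_succ l, co1_s_succ (l + 1), co1_s_succ (l + 2)]; ring
  linarith

theorem co1_s_small {e : ℝ} (he : 0 < e) : ∃ l, co1_s l < e := by
  unfold co1_s
  exact exists_pow_lt_of_lt_one he (by norm_num)

/-- grid point -/
noncomputable def co1_g (x : ℕ × ℤ × ℤ) : ℂ :=
  ⟨co1_s x.1 * (x.2.1 : ℝ), co1_s x.1 * (x.2.2 : ℝ)⟩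

/-- colour -/
def co1_col (x : ℕ × ℤ × ℤ) : ℕ := x.1 % 3 + 3 * ((x.2.1 % 4).toNat + 4 * (x.2.2 % 4).toNat)

theorem co1_col_lt (x : ℕ × ℤ × ℤ) : co1_col x < 48 := by
  unfold co1_col
  omega

theorem co1_col_eq {x y : ℕ × ℤ × ℤ} (h : co1_col x = co1_col y) :
    x.1 % 3 = y.1 % 3 ∧ x.2.1 % 4 = y.2.1 % 4 ∧ x.2.2 % 4 = y.2.2 % 4 := by
  unfold co1_col at h
  omega

theorem co1_int_far {m n : ℤ} (h : m % 4 = n % 4) (hne : m ≠ n) : (4 : ℝ) ≤ |(m : ℝ) - n| := by
  have h1 : (4 : ℤ) ≤ |m - n| := by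
    rcases lt_or_gt_of_ne hne with h2 | h2
    · rw [abs_of_neg (by omega)]; omega
    · rw [abs_of_pos (by omega)]; omega
  have h2 : ((4 : ℤ) : ℝ) ≤ ((|m - n| : ℤ) : ℝ) := by exact_mod_cast h1
  simpa using h2

/-- condition on the index -/
def co1_P (V : Set ℂ) (l0 k : ℕ) (x : ℕ × ℤ × ℤ) : Prop :=
  l0 ≤ x.1 ∧ 8 * co1_s x.1 ≤ infDist (co1_g x) Vᶜ ∧
    (l0 < x.1 → infDist (co1_g x) Vᶜ < 32 * co1_s x.1) ∧ co1_col x = k

theorem co1_sep {V : Set ℂ} {l0 k : ℕ} {x y : ℕ × ℤ × ℤ} (hx : co1_P V l0 k x) (hy : co1_P V l0 k y)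
    (hne : x ≠ y) : co1_s x.1 + co1_s y.1 < dist (co1_g x) (co1_g y) := by
  wlog hle : x.1 ≤ y.1 generalizing x y
  · have := this hy hx (Ne.symm hne) (by omega)
    rw [dist_comm, add_comm]; exact this
  obtain ⟨hc1, hc2, hc3⟩ := co1_col_eq (hx.2.2.2.trans hy.2.2.2.symm)
  rcases Nat.lt_or_ge x.1 y.1 with hlt | hge
  · have h3 : x.1 + 3 ≤ y.1 := by omega
    have h8 := co1_s_three h3
    have hyl : infDist (co1_g y) Vᶜ < 32 * co1_s y.1 := hy.2.2.1 (lt_of_le_of_lt hx.1 hlt)
    have hxl := hx.2.1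
    have hL : infDist (co1_g x) Vᶜ ≤ infDist (co1_g y) Vᶜ + dist (co1_g x) (co1_g y) :=
      infDist_le_infDist_add_dist
    have p1 := co1_s_pos x.1
    have p2 := co1_s_pos y.1
    linarith
  · have he : x.1 = y.1 := le_antisymm hle hge
    have p1 := co1_s_pos x.1
    have hre : |(co1_g x - co1_g y).re| ≤ dist (co1_g x) (co1_g y) := by
      rw [dist_eq_norm]; exact Complex.abs_re_le_norm _
    have him : |(co1_g x - co1_g y).im| ≤ dist (co1_g x) (co1_g y) := by
      rw [dist_eq_norm]; exact Complex.abs_im_le_norm _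
    have hreq : (co1_g x - co1_g y).re = co1_s x.1 * ((x.2.1 : ℝ) - y.2.1) := by
      simp [co1_g, ← he]; ring
    have himq : (co1_g x - co1_g y).im = co1_s x.1 * ((x.2.2 : ℝ) - y.2.2) := by
      simp [co1_g, ← he]; ring
    rw [hreq, abs_mul, abs_of_pos p1] at hre
    rw [himq, abs_mul, abs_of_pos p1] at him
    rw [← he]
    by_cases hm : x.2.1 = y.2.1
    · have hn : x.2.2 ≠ y.2.2 := by
        intro hn
        exact hne (Prod.ext he (Prod.ext hm hn))
      have := co1_int_far hc3 hn
      nlinarith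
    · have := co1_int_far hc2 hm
      nlinarith

theorem co1_norm_re (x : ℕ × ℤ × ℤ) : co1_s x.1 * |(x.2.1 : ℝ)| ≤ ‖co1_g x‖ := by
  have h := Complex.abs_re_le_norm (co1_g x)
  have h2 : (co1_g x).re = co1_s x.1 * (x.2.1 : ℝ) := rfl
  rwa [h2, abs_mul, abs_of_pos (co1_s_pos _)] at h

theorem co1_norm_im (x : ℕ × ℤ × ℤ) : co1_s x.1 * |(x.2.2 : ℝ)| ≤ ‖co1_g x‖ := by
  have h := Complex.abs_im_le_norm (co1_g x)
  have h2 : (co1_g x).im = co1_s x.1 * (x.2.2 : ℝ) := rfl
  rwa [h2, abs_mul, abs_of_pos (co1_s_pos _)] at h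

theorem co1_near (y : ℂ) (l : ℕ) : ∃ m n : ℤ, dist y (co1_g (l, m, n)) < co1_s l := by
  have p := co1_s_pos l
  refine ⟨round (y.re / co1_s l), round (y.im / co1_s l), ?_⟩
  have h1 := abs_sub_round (y.re / co1_s l)
  have h2 := abs_sub_round (y.im / co1_s l)
  have e1 : |y.re - co1_s l * (round (y.re / co1_s l) : ℝ)| ≤ co1_s l / 2 := by
    have : y.re - co1_s l * (round (y.re / co1_s l) : ℝ) =
        co1_s l * (y.re / co1_s l - (round (y.re / co1_s l) : ℝ)) := by
      field_simp
    rw [this, abs_mul, abs_of_pos p]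
    nlinarith
  have e2 : |y.im - co1_s l * (round (y.im / co1_s l) : ℝ)| ≤ co1_s l / 2 := by
    have : y.im - co1_s l * (round (y.im / co1_s l) : ℝ) =
        co1_s l * (y.im / co1_s l - (round (y.im / co1_s l) : ℝ)) := by
      field_simp
    rw [this, abs_mul, abs_of_pos p]
    nlinarith
  rw [dist_eq_norm]
  have hsq : ‖y - co1_g (l, round (y.re / co1_s l), round (y.im / co1_s l))‖ ^ 2 < co1_s l ^ 2 := by
    rw [Complex.sq_norm, Complex.normSq_apply]
    have r1 : (y - co1_g (l, round (y.re / co1_s l), round (y.im / co1_s l))).re =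
      y.re - co1_s l * (round (y.re / co1_s l) : ℝ) := rfl
    have r2 : (y - co1_g (l, round (y.re / co1_s l), round (y.im / co1_s l))).im =
      y.im - co1_s l * (round (y.im / co1_s l) : ℝ) := rfl
    rw [r1, r2]
    rw [abs_le] at e1 e2
    nlinarith [mul_pos p p]
  exact lt_of_pow_lt_pow_left₀ 2 p.le hsq

theorem exists_coloring {V : Set ℂ} (hV : IsOpen V) (hVb : Bornology.IsBounded V) {η : ℝ} (hη : 0 < η) :
    ∃ (N : ℕ) (ι : ℕ → Type) (c : ∀ k, ι k → ℂ) (r : ∀ k, ι k → ℝ), N ≤ 48 ∧ (∀ k, Countable (ι k)) ∧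
      (∀ k, DiscFam V (c k) (r k)) ∧ (∀ k i, 2 * r k i ≤ η) ∧
      ∀ y ∈ V, ∃ k < N, ∃ i, y ∈ ball (c k i) (r k i) := by
  have hne : (Vᶜ).Nonempty := by
    by_contra h
    rw [not_nonempty_iff_eq_empty, compl_empty_iff] at h
    rw [h] at hVb
    exact NormedSpace.unbounded_univ ℝ ℂ hVb
  have hcl : IsClosed (Vᶜ) := hV.isClosed_compl
  have hpos : ∀ w, w ∈ V ↔ 0 < infDist w Vᶜ := by
    intro w
    rw [← hcl.notMem_iff_infDist_pos hne]
    simp
  obtain ⟨l0, hl0⟩ := co1_s_small (half_pos hη)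
  refine ⟨48, fun k => {x : ℕ × ℤ × ℤ // co1_P V l0 k x}, fun k i => co1_g i.1, fun k i => co1_s i.1.1,
    le_rfl, fun k => inferInstance, ?_, ?_, ?_⟩
  · intro k
    refine ⟨fun i => co1_s_pos _, ?_, ?_, ?_⟩
    · rintro ⟨x, hx⟩ w hw
      rw [hpos]
      have h1 : infDist (co1_g x) Vᶜ ≤ infDist w Vᶜ + dist (co1_g x) w := infDist_le_infDist_add_dist
      have h2 := hx.2.1
      have h3 := co1_s_pos x.1
      rw [mem_closedBall, dist_comm] at hw
      simp only at hw
      linarith
    · rintro ⟨x, hx⟩ ⟨y, hy⟩ hxy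
      apply closedBall_disjoint_closedBall
      apply co1_sep hx hy
      intro h
      exact hxy (Subtype.ext h)
    · intro K hK hKc
      rcases K.eq_empty_or_nonempty with h | hKne
      · subst h; simp
      obtain ⟨w0, hw0, hmin⟩ := hKc.exists_isMinOn hKne (continuous_infDist_pt (Vᶜ)).continuousOn
      have hd : 0 < infDist w0 Vᶜ := (hpos w0).1 (hK hw0)
      obtain ⟨L0, hL0⟩ := co1_s_small (show 0 < infDist w0 Vᶜ / 33 by positivity)
      set L := max L0 l0 with hLdef
      have hL : co1_s L < infDist w0 Vᶜ / 33 := lt_of_le_of_lt (co1_s_anti (le_max_left _ _)) hL0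
      obtain ⟨R, hR⟩ := hKc.isBounded.subset_closedBall 0
      obtain ⟨M, hM⟩ := exists_nat_ge ((R + 1) / co1_s L)
      have hfin : (Set.Iic L ×ˢ (Set.Icc (-(M : ℤ)) M ×ˢ Set.Icc (-(M : ℤ)) M)).Finite :=
        (Set.finite_Iic L).prod ((Set.finite_Icc _ _).prod (Set.finite_Icc _ _))
      refine (hfin.preimage (f := Subtype.val) Subtype.val_injective.injOn).subset ?_
      rintro ⟨x, hx⟩ ⟨w, hw, hwK⟩
      have hwK' : infDist w0 Vᶜ ≤ infDist w Vᶜ := hmin hwK
      simp only at hw
      rw [mem_closedBall] at hw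
      have p := co1_s_pos x.1
      have hxL : x.1 ≤ L := by
        rcases Nat.lt_or_ge l0 x.1 with h | h
        · by_contra hcon
          push Not at hcon
          have h1 := hx.2.2.1 h
          have h2 : infDist w Vᶜ ≤ infDist (co1_g x) Vᶜ + dist w (co1_g x) :=
            infDist_le_infDist_add_dist
          have h3 := co1_s_anti hcon.le
          linarith
        · exact le_trans h (le_max_right _ _)
      have hnorm : ‖co1_g x‖ ≤ R + 1 := by
        have h1 : dist (co1_g x) 0 ≤ dist (co1_g x) w + dist w 0 := dist_triangle _ _ _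
        have h2 : dist w 0 ≤ R := by simpa using hR hwK
        have h3 := co1_s_le_one x.1
        rw [dist_comm (co1_g x) w] at h1
        rw [dist_zero_right] at h1
        linarith
      have hsL : co1_s L ≤ co1_s x.1 := co1_s_anti hxL
      have pL := co1_s_pos L
      have key : ∀ a : ℤ, co1_s x.1 * |(a : ℝ)| ≤ ‖co1_g x‖ → a ∈ Set.Icc (-(M : ℤ)) M := by
        intro a ha
        have h1 : co1_s L * |(a : ℝ)| ≤ R + 1 := by
          have := mul_le_mul_of_nonneg_right hsL (abs_nonneg (a : ℝ))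
          linarith
        have h2 : |(a : ℝ)| ≤ (R + 1) / co1_s L := by
          rw [le_div_iff₀ pL]; linarith
        have h3 : |(a : ℝ)| ≤ M := h2.trans hM
        rw [abs_le] at h3
        refine ⟨?_, ?_⟩
        · have := h3.1
          exact_mod_cast this
        · have := h3.2
          exact_mod_cast this
      exact ⟨hxL, key _ (co1_norm_re x), key _ (co1_norm_im x)⟩
  · rintro k ⟨x, hx⟩
    have h1 := co1_s_anti hx.1
    simp only
    linarith
  · intro y hy
    have hd : 0 < infDist y Vᶜ := (hpos y).1 hy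
    have hex : ∃ l, l0 ≤ l ∧ 10 * co1_s l ≤ infDist y Vᶜ := by
      obtain ⟨l1, hl1⟩ := co1_s_small (show 0 < infDist y Vᶜ / 10 by positivity)
      refine ⟨max l0 l1, le_max_left _ _, ?_⟩
      have := co1_s_anti (le_max_right l0 l1)
      linarith
    classical
    obtain ⟨hl1, hl2⟩ := Nat.find_spec hex
    set l := Nat.find hex with hldef
    obtain ⟨m, n, hmn⟩ := co1_near y l
    have h1 : infDist y Vᶜ ≤ infDist (co1_g (l, m, n)) Vᶜ + dist y (co1_g (l, m, n)) :=
      infDist_le_infDist_add_dist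
    have h2 : infDist (co1_g (l, m, n)) Vᶜ ≤ infDist y Vᶜ + dist (co1_g (l, m, n)) y :=
      infDist_le_infDist_add_dist
    rw [dist_comm (co1_g (l, m, n)) y] at h2
    have p := co1_s_pos l
    have hP : co1_P V l0 (co1_col (l, m, n)) (l, m, n) := by
      refine ⟨hl1, ?_, ?_, rfl⟩
      · simp only; linarith
      · intro hlt
        simp only at hlt ⊢
        have hnot : ¬ (l0 ≤ l - 1 ∧ 10 * co1_s (l - 1) ≤ infDist y Vᶜ) :=
          Nat.find_min hex (by omega)
        have h3 : infDist y Vᶜ < 10 * co1_s (l - 1) := by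
          by_contra hcon
          push Not at hcon
          exact hnot ⟨by omega, hcon⟩
        have h4 : co1_s (l - 1) = 2 * co1_s l := by
          have := co1_s_succ (l - 1)
          rwa [show l - 1 + 1 = l by omega] at this
        linarith
    refine ⟨co1_col (l, m, n), co1_col_lt _, ⟨(l, m, n), hP⟩, ?_⟩
    rw [mem_ball]
    exact hmn

end CF6

end

section

set_option autoImplicit false

open MeasureTheory Metric Set Filter Topology
open scoped ContDiff ENNReal ComplexConjugate

namespace CF6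

open Classical in
theorem s10b_memLp {U : Set ℂ} {v w : ℂ → ℝ} (hv : ContinuousOn v U)
    {K : Set ℂ} (hKU : K ⊆ U) (hK : IsCompact K) (hw : MemLp w 2 (volume.restrict K)) :
    MemLp (fun z => if v z = 0 then 0 else w z) 2 (volume.restrict K) := by
  have hcl : IsClosed (K ∩ v ⁻¹' {0}) :=
    (hv.mono hKU).preimage_isClosed_of_isClosed hK.isClosed isClosed_singleton
  have hm : MeasurableSet (K ∩ v ⁻¹' {0}) := hcl.measurableSet
  have h1 : MemLp ((K ∩ v ⁻¹' {0})ᶜ.indicator w) 2 (volume.restrict K) :=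
    hw.indicator hm.compl
  refine h1.ae_eq ?_
  filter_upwards [ae_restrict_mem hK.measurableSet] with z hz
  by_cases hz0 : v z = 0
  · rw [if_pos hz0, Set.indicator_of_notMem]
    intro h2
    exact h2 ⟨hz, hz0⟩
  · rw [if_neg hz0, Set.indicator_of_mem]
    intro h2
    exact hz0 h2.2

theorem s10b_fin {K : Set ℂ} {w : ℂ → ℝ} (hw : MemLp w 2 (volume.restrict K)) :
    ∫⁻ z in K, ‖w z‖ₑ ^ 2 ≠ ⊤ := by
  have h1 := (eLpNorm_lt_top_iff_lintegral_rpow_enorm_lt_top (two_ne_zero) (ENNReal.ofNat_ne_top)).1 hw.2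
  have h2 : (2 : ℝ≥0∞).toReal = ((2 : ℕ) : ℝ) := by norm_num
  simp only [h2, ENNReal.rpow_natCast] at h1
  exact h1.ne

open Classical in
theorem s10b_lim {U : Set ℂ} {v w : ℂ → ℝ} (hv : ContinuousOn v U) (T : ℕ → ℝ → ℝ)
    (hT1 : ∀ n t, 0 ≤ deriv (T n) t ∧ deriv (T n) t ≤ 1)
    (hT2 : ∀ (n : ℕ) (t : ℝ), 1 / ((n : ℝ) + 1) ≤ |t| → deriv (T n) t = 1)
    (hT3 : ∀ n, deriv (T n) 0 = 0)
    {K : Set ℂ} (hKU : K ⊆ U) (hK : IsCompact K) (hw : MemLp w 2 (volume.restrict K))
    (hm : ∀ n, MemLp (fun z => fderiv ℝ (T n) (v z) (w z)) 2 (volume.restrict K)) :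
    Tendsto (fun n => ∫⁻ z in K, ‖fderiv ℝ (T n) (v z) (w z) - (if v z = 0 then 0 else w z)‖ₑ ^ 2)
      atTop (𝓝 0) := by
  have hfd : ∀ n z, fderiv ℝ (T n) (v z) (w z) = deriv (T n) (v z) * w z := by
    intro n z
    have h1 : fderiv ℝ (T n) (v z) (w z) = (w z) • fderiv ℝ (T n) (v z) 1 := by
      rw [← map_smul]; simp
    rw [h1, fderiv_apply_one_eq_deriv, smul_eq_mul, mul_comm]
  have hkey := tendsto_lintegral_of_dominated_convergence' (μ := volume.restrict K)
    (F := fun n z => ‖fderiv ℝ (T n) (v z) (w z) - (if v z = 0 then 0 else w z)‖ₑ ^ 2)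
    (f := fun _ => 0) (fun z => ‖w z‖ₑ ^ 2) ?_ ?_ (s10b_fin hw) ?_
  · simpa using hkey
  · intro n
    have h1 := (hm n).1.sub (s10b_memLp hv hKU hK hw).1
    exact (h1.enorm).pow_const 2
  · intro n
    refine Filter.Eventually.of_forall (fun z => ?_)
    simp only
    refine pow_le_pow_left' ?_ 2
    rw [← ofReal_norm, ← ofReal_norm]
    refine ENNReal.ofReal_le_ofReal ?_
    rw [hfd]
    by_cases hz : v z = 0
    · rw [if_pos hz, sub_zero, norm_mul, Real.norm_of_nonneg (hT1 n _).1]
      calc deriv (T n) (v z) * ‖w z‖ ≤ 1 * ‖w z‖ :=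
            mul_le_mul_of_nonneg_right (hT1 n _).2 (norm_nonneg _)
        _ = ‖w z‖ := one_mul _
    · rw [if_neg hz]
      have h1 : deriv (T n) (v z) * w z - w z = (deriv (T n) (v z) - 1) * w z := by ring
      rw [h1, norm_mul]
      have h2 : ‖deriv (T n) (v z) - 1‖ ≤ 1 := by
        rw [Real.norm_eq_abs, abs_le]
        have h3 := hT1 n (v z)
        constructor <;> linarith [h3.1, h3.2]
      calc ‖deriv (T n) (v z) - 1‖ * ‖w z‖ ≤ 1 * ‖w z‖ :=
            mul_le_mul_of_nonneg_right h2 (norm_nonneg _)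
        _ = ‖w z‖ := one_mul _
  · refine Filter.Eventually.of_forall (fun z => ?_)
    by_cases hz : v z = 0
    · have h1 : ∀ n, ‖fderiv ℝ (T n) (v z) (w z) - (if v z = 0 then 0 else w z)‖ₑ ^ 2 = 0 := by
        intro n
        rw [hfd, if_pos hz, hz, hT3 n]
        simp
      simp only [h1]
      exact tendsto_const_nhds
    · have hpos : 0 < |v z| := abs_pos.2 hz
      obtain ⟨N, hN⟩ := exists_nat_one_div_lt hpos
      refine tendsto_const_nhds.congr' ?_
      filter_upwards [eventually_ge_atTop N] with n hn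
      have h2 : 1 / ((n : ℝ) + 1) ≤ |v z| := by
        have h3 : 1 / ((n : ℝ) + 1) ≤ 1 / ((N : ℝ) + 1) := by
          apply one_div_le_one_div_of_le (by positivity)
          have h4 : (N : ℝ) ≤ n := by exact_mod_cast hn
          linarith
        linarith
      rw [hfd, if_neg hz, hT2 n _ h2]
      simp

open Classical in
/-- S10b. the weak derivatives vanish a.e. on the zero set (real valued).
PROOF. `T_n` = truncation with `ε = 1/(n+1)`. `T_n ∘ v → v` uniformly, and by the chain rule (S06b) its derivatives are `T_n'(v) vx → 1_{v ≠ 0} vx` in `L²(K)`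
(dominated convergence). By S06a `1_{v≠0} vx` is the weak derivative of `v`, by uniqueness (S02f) it is equal to `vx` a.e. -/
theorem Sob.ae_zero {U : Set ℂ} {v vx vy : ℂ → ℝ} (hU : IsOpen U) (h : Sob U v vx vy) :
    ∀ᵐ z, z ∈ U → v z = 0 → vx z = 0 ∧ vy z = 0 := by
  have hex : ∀ n : ℕ, ∃ T : ℝ → ℝ, ContDiff ℝ ∞ T ∧
      (∀ t, |t| ≤ (1 / ((n : ℝ) + 1)) / 2 → T t = 0) ∧
      (∀ t, 0 ≤ deriv T t ∧ deriv T t ≤ 1) ∧ (∀ t, |T t - t| ≤ 1 / ((n : ℝ) + 1)) ∧
      (∀ t, 1 / ((n : ℝ) + 1) ≤ |t| → deriv T t = 1) ∧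
      (∀ t, |t| ≤ (1 / ((n : ℝ) + 1)) / 2 → deriv T t = 0) := fun n => exists_trunc (by positivity)
  choose T hT0 hTz hT1 hTa hT2 hT3 using hex
  have hT3' : ∀ n, deriv (T n) 0 = 0 := fun n => hT3 n 0 (by rw [abs_zero]; positivity)
  have hg : ∀ n, Sob U (fun z => T n (v z)) (fun z => fderiv ℝ (T n) (v z) (vx z))
      (fun z => fderiv ℝ (T n) (v z) (vy z)) := fun n =>
    h.comp_contDiff hU ((hT0 n).of_le (by exact_mod_cast le_top))
  have hS : Sob U v (fun z => if v z = 0 then 0 else vx z) (fun z => if v z = 0 then 0 else vy z) := by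
    refine sob_of_tendsto hU hg ?_ ?_ ?_ ?_ ?_
    · intro K _ _
      rw [Metric.tendstoUniformlyOn_iff]
      intro ε hε
      obtain ⟨N, hN⟩ := exists_nat_one_div_lt hε
      filter_upwards [eventually_ge_atTop N] with n hn z _
      have h3 : 1 / ((n : ℝ) + 1) ≤ 1 / ((N : ℝ) + 1) := by
        apply one_div_le_one_div_of_le (by positivity)
        have h4 : (N : ℝ) ≤ n := by exact_mod_cast hn
        linarith
      rw [dist_comm, Real.dist_eq]
      exact lt_of_le_of_lt ((hTa n (v z)).trans h3) hN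
    · exact fun K hKU hK => s10b_memLp h.cont hKU hK (h.lx K hKU hK)
    · exact fun K hKU hK => s10b_memLp h.cont hKU hK (h.ly K hKU hK)
    · exact fun K hKU hK => s10b_lim h.cont T hT1 hT2 hT3' hKU hK (h.lx K hKU hK)
        (fun n => (hg n).lx K hKU hK)
    · exact fun K hKU hK => s10b_lim h.cont T hT1 hT2 hT3' hKU hK (h.ly K hKU hK)
        (fun n => (hg n).ly K hKU hK)
  obtain ⟨hu1, hu2⟩ := Sob.ae_unique hU h hS
  filter_upwards [hu1, hu2] with z h1 h2 hzU hz0
  have h3 := h1 hzU
  have h4 := h2 hzU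
  rw [if_pos hz0] at h3 h4
  exact ⟨h3, h4⟩

end CF6

end

section

set_option autoImplicit false

open MeasureTheory Metric Set Filter Topology
open scoped ContDiff ENNReal ComplexConjugate

namespace CF6

/-- a smooth function equal to `1` near the compact set `C`, with compact support in `W` -/
theorem s10c_cutoff {C W : Set ℂ} (hC : IsCompact C) (hW : IsOpen W) (hCW : C ⊆ W) :
    ∃ χ : ℂ → ℝ, ContDiff ℝ ∞ χ ∧ HasCompactSupport χ ∧ tsupport χ ⊆ W ∧
      ∀ z ∈ C, ∀ᶠ w in 𝓝 z, χ w = 1 := by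
  obtain ⟨t, ht, hCt, htW⟩ := exists_compact_between hC hW hCW
  obtain ⟨f, hf1, hf0, -⟩ := exists_contMDiffMap_one_nhds_of_subset_interior
    (I := modelWithCornersSelf ℝ ℂ) (n := (⊤ : ℕ∞)) hC.isClosed hCt
  have hs : tsupport (f : ℂ → ℝ) ⊆ t := by
    refine closure_minimal ?_ ht.isClosed
    intro x hx
    by_contra hxt
    exact hx (hf0 x hxt)
  refine ⟨f, f.contMDiff.contDiff, HasCompactSupport.of_support_subset_isCompact ht
    ((subset_tsupport _).trans hs), hs.trans htW, ?_⟩
  intro z hz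
  exact (eventually_nhdsSet_iff_forall.mp hf1) z hz

/-- product of a continuous function with compact support in `U` and a function continuous on `U` -/
theorem s10c_cont {U : Set ℂ} (hU : IsOpen U) {ψ g : ℂ → ℝ} (hψ : Continuous ψ)
    (hs : tsupport ψ ⊆ U) (hg : ContinuousOn g U) : Continuous (fun z => ψ z * g z) := by
  rw [continuous_iff_continuousAt]
  intro z
  by_cases hz : z ∈ U
  · exact hψ.continuousAt.mul (hg.continuousAt (hU.mem_nhds hz))
  · have hz' : z ∉ tsupport ψ := fun h => hz (hs h)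
    have h1 : (fun z => ψ z * g z) =ᶠ[𝓝 z] fun _ => 0 := by
      filter_upwards [(isClosed_tsupport ψ).isOpen_compl.mem_nhds hz'] with w hw
      rw [image_eq_zero_of_notMem_tsupport hw, zero_mul]
    exact continuousAt_const.congr h1.symm

theorem s10c_dir {U W : Set ℂ} {v g : ℂ → ℝ} (e : ℂ) (hU : IsOpen U) (hW : IsOpen W)
    (hc : ContinuousOn v U) (h0 : ∀ z ∈ U, z ∉ W → v z = 0)
    (hl : ∀ K, K ⊆ U → IsCompact K → MemLp (W.indicator g) 2 (volume.restrict K))
    (hT : ∀ T : ℝ → ℝ, ContDiff ℝ ∞ T → ∀ φ : ℂ → ℝ, ContDiff ℝ ∞ φ → HasCompactSupport φ →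
      tsupport φ ⊆ W → ∫ z, (fderiv ℝ φ z e) • T (v z) = - ∫ z, φ z • fderiv ℝ T (v z) (g z))
    (hz : ∀ᵐ z, z ∈ W → v z = 0 → g z = 0)
    (φ : ℂ → ℝ) (hφ : ContDiff ℝ ∞ φ) (hφc : HasCompactSupport φ) (hφU : tsupport φ ⊆ U) :
    ∫ z, (fderiv ℝ φ z e) • v z = - ∫ z, φ z • W.indicator g z := by
  have hφ1 : ContDiff ℝ 1 φ := hφ.of_le (by exact_mod_cast le_top)
  have hdc : Continuous (fun z => fderiv ℝ φ z e) :=
    (hφ.continuous_fderiv (by simp)).clm_apply continuous_const
  have hds : tsupport (fun z => fderiv ℝ φ z e) ⊆ tsupport φ := tsupport_fderiv_apply_subset ℝ e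
  have hdcs : HasCompactSupport (fun z => fderiv ℝ φ z e) :=
    hφc.of_isClosed_subset (isClosed_tsupport _) hds
  have hε : ∀ n : ℕ, (0 : ℝ) < 1 / ((n : ℝ) + 1) := fun n => by positivity
  choose T hT1 hT2 hT3 hT4 hT5 hT6 using fun n : ℕ => exists_trunc (hε n)
  -- the identity for each truncation
  have key : ∀ n, ∫ z, (fderiv ℝ φ z e) * T n (v z)
      = - ∫ z, φ z * (deriv (T n) (v z) * W.indicator g z) := by
    intro n
    set S := tsupport φ with hS
    have hSc : IsCompact S := hφc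
    set C := S ∩ {z | 1 / ((n : ℝ) + 1) / 2 ≤ |v z|} with hCdef
    have hCc : IsCompact C := by
      have h1 : ContinuousOn (fun z => |v z|) S := (hc.mono hφU).abs
      have h2 : IsClosed C := h1.preimage_isClosed_of_isClosed hSc.isClosed isClosed_Ici
      exact hSc.of_isClosed_subset h2 inter_subset_left
    have hCW : C ⊆ W := by
      intro z hzC
      by_contra hzW
      have h1 := h0 z (hφU hzC.1) hzW
      have h2 : 1 / ((n : ℝ) + 1) / 2 ≤ |v z| := hzC.2
      rw [h1, abs_zero] at h2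
      have := hε n
      linarith
    obtain ⟨χ, hχ1, hχ2, hχ3, hχ4⟩ := s10c_cutoff hCc hW hCW
    have hp1 : ContDiff ℝ ∞ (fun z => χ z * φ z) := hχ1.mul hφ
    have hp2 : HasCompactSupport (fun z => χ z * φ z) := hχ2.mul_right
    have hp3 : tsupport (fun z => χ z * φ z) ⊆ W := (tsupport_mul_subset_left).trans hχ3
    have h1 := hT (T n) (hT1 n) _ hp1 hp2 hp3
    have e1 : ∀ z, (fderiv ℝ φ z e) * T n (v z)
        = (fderiv ℝ (fun z => χ z * φ z) z e) • T n (v z) := by
      intro z
      by_cases hzS : z ∈ S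
      · by_cases hv : |v z| ≤ 1 / ((n : ℝ) + 1) / 2
        · rw [hT2 n _ hv]; simp
        · have hzC : z ∈ C := ⟨hzS, (not_le.mp hv).le⟩
          have h2 : (fun z => χ z * φ z) =ᶠ[𝓝 z] φ := by
            filter_upwards [hχ4 z hzC] with w hw
            rw [hw, one_mul]
          rw [h2.fderiv_eq, smul_eq_mul]
      · have h2 : fderiv ℝ φ z e = 0 := by
          have : z ∉ tsupport (fun z => fderiv ℝ φ z e) := fun h => hzS (hds h)
          exact image_eq_zero_of_notMem_tsupport (f := fun z => fderiv ℝ φ z e) this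
        have h3 : (fun z => χ z * φ z) =ᶠ[𝓝 z] fun _ => 0 := by
          filter_upwards [(isClosed_tsupport φ).isOpen_compl.mem_nhds hzS] with w hw
          rw [image_eq_zero_of_notMem_tsupport hw, mul_zero]
        rw [h3.fderiv_eq, h2]
        simp
    have e2 : ∀ z, (χ z * φ z) • fderiv ℝ (T n) (v z) (g z)
        = φ z * (deriv (T n) (v z) * W.indicator g z) := by
      intro z
      rw [fderiv_eq_smul_deriv]
      by_cases hzS : z ∈ S
      · by_cases hv : |v z| ≤ 1 / ((n : ℝ) + 1) / 2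
        · rw [hT6 n _ hv]; simp
        · have hzC : z ∈ C := ⟨hzS, (not_le.mp hv).le⟩
          rw [(hχ4 z hzC).self_of_nhds, indicator_of_mem (hCW hzC)]
          simp only [smul_eq_mul]
          ring
      · rw [image_eq_zero_of_notMem_tsupport hzS]
        simp
    rw [integral_congr_ae (Eventually.of_forall e1), h1, integral_congr_ae (Eventually.of_forall e2)]
  -- limits
  have lim1 : Tendsto (fun n => ∫ z, (fderiv ℝ φ z e) * T n (v z)) atTop
      (𝓝 (∫ z, (fderiv ℝ φ z e) * v z)) := by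
    have hcn : ∀ n, Continuous (fun z => (fderiv ℝ φ z e) * T n (v z)) := fun n =>
      s10c_cont hU hdc (hds.trans hφU) ((hT1 n).continuous.comp_continuousOn hc)
    have hcv : Continuous (fun z => (fderiv ℝ φ z e) * v z) :=
      s10c_cont hU hdc (hds.trans hφU) hc
    refine tendsto_integral_of_dominated_convergence
      (fun z => |(fderiv ℝ φ z e) * v z| + |fderiv ℝ φ z e|) (fun n => (hcn n).aestronglyMeasurable)
      ?_ ?_ ?_
    · exact ((hcv.integrable_of_hasCompactSupport hdcs.mul_right).abs).add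
        ((hdc.integrable_of_hasCompactSupport hdcs).abs)
    · intro n
      refine Eventually.of_forall (fun z => ?_)
      have h1 := hT4 n (v z)
      have h2 : (1 : ℝ) / ((n : ℝ) + 1) ≤ 1 := by
        rw [div_le_one (by positivity)]
        linarith [(Nat.cast_nonneg n : (0 : ℝ) ≤ n)]
      have h3 : |T n (v z)| ≤ |v z| + 1 := by
        have : T n (v z) = v z + (T n (v z) - v z) := by ring
        rw [this]
        exact (abs_add_le _ _).trans (by linarith)
      rw [Real.norm_eq_abs, abs_mul, abs_mul]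
      calc |fderiv ℝ φ z e| * |T n (v z)| ≤ |fderiv ℝ φ z e| * (|v z| + 1) :=
            mul_le_mul_of_nonneg_left h3 (abs_nonneg _)
        _ = _ := by ring
    · refine Eventually.of_forall (fun z => ?_)
      refine Tendsto.const_mul _ ?_
      rw [tendsto_iff_dist_tendsto_zero]
      refine squeeze_zero (fun n => dist_nonneg) (fun n => ?_) tendsto_one_div_add_atTop_nhds_zero_nat
      rw [Real.dist_eq]
      exact hT4 n (v z)
  have hφI : Integrable (fun z => φ z * W.indicator g z) := by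
    have h1 : MemLp (W.indicator g) 2 (volume.restrict (tsupport φ)) := hl _ hφU hφc
    have h2 : IntegrableOn (fun z => φ z * W.indicator g z) (tsupport φ) := by
      have h3 : Integrable (W.indicator g) (volume.restrict (tsupport φ)) := by
        haveI : IsFiniteMeasure (volume.restrict (tsupport φ)) :=
          ⟨by rw [Measure.restrict_apply_univ]; exact hφc.measure_lt_top⟩
        exact h1.integrable (by norm_num)
      obtain ⟨B, hB⟩ := hφ.continuous.bounded_above_of_compact_support hφc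
      exact h3.bdd_mul hφ.continuous.aestronglyMeasurable (Eventually.of_forall hB)
    refine (integrableOn_iff_integrable_of_support_subset ?_).mp h2
    intro z hz1
    by_contra hz2
    exact hz1 (by simp only [image_eq_zero_of_notMem_tsupport hz2, zero_mul])
  have lim2 : Tendsto (fun n => ∫ z, φ z * (deriv (T n) (v z) * W.indicator g z)) atTop
      (𝓝 (∫ z, φ z * W.indicator g z)) := by
    refine tendsto_integral_of_dominated_convergence
      (fun z => |φ z * W.indicator g z|) (fun n => ?_) hφI.abs ?_ ?_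
    · have e1 : (fun z => φ z * (deriv (T n) (v z) * W.indicator g z))
          = (tsupport φ).indicator (fun z => deriv (T n) (v z) * (φ z * W.indicator g z)) := by
        funext z
        by_cases hz1 : z ∈ tsupport φ
        · rw [indicator_of_mem hz1]; ring
        · rw [indicator_of_notMem hz1, image_eq_zero_of_notMem_tsupport hz1, zero_mul]
      rw [e1, aestronglyMeasurable_indicator_iff (isClosed_tsupport φ).measurableSet]
      have h4 : Continuous (deriv (T n)) := (hT1 n).continuous_deriv (by simp)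
      exact ((h4.comp_continuousOn (hc.mono hφU)).aestronglyMeasurable
        (isClosed_tsupport φ).measurableSet).mul hφI.aestronglyMeasurable.restrict
    · intro n
      refine Eventually.of_forall (fun z => ?_)
      rw [Real.norm_eq_abs]
      have h5 : φ z * (deriv (T n) (v z) * W.indicator g z)
          = deriv (T n) (v z) * (φ z * W.indicator g z) := by ring
      rw [h5, abs_mul, abs_of_nonneg (hT3 n (v z)).1]
      calc deriv (T n) (v z) * |φ z * W.indicator g z| ≤ 1 * |φ z * W.indicator g z| :=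
            mul_le_mul_of_nonneg_right (hT3 n (v z)).2 (abs_nonneg _)
        _ = _ := one_mul _
    · filter_upwards [hz] with z hz1
      refine Tendsto.const_mul _ ?_
      by_cases hzW : z ∈ W
      · rw [indicator_of_mem hzW]
        by_cases hv : v z = 0
        · rw [hz1 hzW hv]; simp
        · have h6 : ∀ᶠ n : ℕ in atTop, deriv (T n) (v z) = 1 := by
            have h7 : ∀ᶠ n : ℕ in atTop, (1 : ℝ) / ((n : ℝ) + 1) < |v z| :=
              tendsto_one_div_add_atTop_nhds_zero_nat.eventually (gt_mem_nhds (abs_pos.mpr hv))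
            filter_upwards [h7] with n hn
            exact hT5 n _ hn.le
          refine tendsto_const_nhds.congr' ?_
          filter_upwards [h6] with n hn
          rw [hn, one_mul]
      · rw [indicator_of_notMem hzW]; simp
  have lim3 : Tendsto (fun n => ∫ z, (fderiv ℝ φ z e) * T n (v z)) atTop
      (𝓝 (- ∫ z, φ z * W.indicator g z)) := by
    refine lim2.neg.congr (fun n => (key n).symm)
  simpa only [smul_eq_mul] using tendsto_nhds_unique lim1 lim3

theorem s10c_meas {W : Set ℂ} {g : ℂ → ℝ} (hW : IsOpen W)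
    (hl : ∀ K, K ⊆ W → IsCompact K → MemLp g 2 (volume.restrict K)) :
    AEStronglyMeasurable (W.indicator g) volume := by
  rw [aestronglyMeasurable_indicator_iff hW.measurableSet]
  obtain ⟨F, hF1, hF2, hF3, -⟩ := hW.exists_iUnion_isClosed
  have h1 : W = ⋃ n : ℕ × ℕ, (F n.1 ∩ closedBall 0 n.2) := by
    ext z
    simp only [mem_iUnion, mem_inter_iff, mem_closedBall, dist_zero_right, Prod.exists]
    constructor
    · intro hz
      rw [← hF3] at hz
      obtain ⟨n, hn⟩ := mem_iUnion.mp hz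
      obtain ⟨m, hm⟩ := exists_nat_ge ‖z‖
      exact ⟨n, m, hn, hm⟩
    · rintro ⟨n, m, hn, -⟩
      exact hF2 n hn
  rw [h1, aestronglyMeasurable_iUnion_iff]
  intro n
  exact (hl _ (inter_subset_left.trans (hF2 _))
    ((isCompact_closedBall _ _).inter_left (hF1 _))).aestronglyMeasurable

theorem s10c_memLp {W K : Set ℂ} {g : ℂ → ℝ} (hW : IsOpen W) (hm : AEStronglyMeasurable (W.indicator g) volume)
    (hf : ∫⁻ z in W ∩ K, ‖g z‖ₑ ^ 2 < ⊤) : MemLp (W.indicator g) 2 (volume.restrict K) := by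
  refine ⟨hm.restrict, ?_⟩
  rw [eLpNorm_lt_top_iff_lintegral_rpow_enorm_lt_top (by norm_num) (by norm_num)]
  have h1 : (∫⁻ z, ‖W.indicator g z‖ₑ ^ (2 : ℝ≥0∞).toReal ∂(volume.restrict K))
      = ∫⁻ z in W ∩ K, ‖g z‖ₑ ^ 2 := by
    rw [← Measure.restrict_restrict hW.measurableSet, ← lintegral_indicator hW.measurableSet]
    refine lintegral_congr (fun z => ?_)
    by_cases hz : z ∈ W
    · rw [indicator_of_mem hz, indicator_of_mem hz]; norm_num
    · rw [indicator_of_notMem hz, indicator_of_notMem hz]; simp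
  rw [h1]
  exact hf

/-- S10c. GLUING (real valued). PROOF. Measurability: `W` is a countable union of compact sets, so `vx` is a.e. strongly measurable on `W`; with `hen` the function
`W.indicator vx` is in `L²` of the compact subsets of `U`. Let `φ` be a test function in `U`, `S` its support. `T_n ∘ v` vanishes on a neighbourhood (in `U`) of `U \ W`: `{z ∈ S : |v z| ≥ 1/(4n+4)}`
is compact and contained in `W`. Let `χ` be smooth with compact support in `W` and `= 1` near this set. Then `∫ (∂φ) T_n(v) = ∫ ∂(χ φ) T_n(v) = - ∫ χ φ T_n'(v) vx = - ∫_W φ T_n'(v) vx` (S06b on `W`). Let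
`n → ∞` (dominated convergence). (`vx = 0` a.e. on `{v = 0} ∩ W` by S10b.) -/
theorem Sob.glue_zero {U W : Set ℂ} {v vx vy : ℂ → ℝ} (hU : IsOpen U) (hW : IsOpen W) (hWU : W ⊆ U)
    (hc : ContinuousOn v U) (h0 : ∀ z ∈ U, z ∉ W → v z = 0) (h : Sob W v vx vy)
    (hen : ∀ K, K ⊆ U → IsCompact K → enE (W ∩ K) vx vy < ⊤) :
    Sob U v (W.indicator vx) (W.indicator vy) := by
  have hlx : ∀ K, K ⊆ U → IsCompact K → MemLp (W.indicator vx) 2 (volume.restrict K) := by
    intro K hK hKc
    refine s10c_memLp hW (s10c_meas hW h.lx) (lt_of_le_of_lt ?_ (hen K hK hKc))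
    exact lintegral_mono (fun z => le_self_add)
  have hly : ∀ K, K ⊆ U → IsCompact K → MemLp (W.indicator vy) 2 (volume.restrict K) := by
    intro K hK hKc
    refine s10c_memLp hW (s10c_meas hW h.ly) (lt_of_le_of_lt ?_ (hen K hK hKc))
    exact lintegral_mono (fun z => le_add_self)
  have hz := h.ae_zero hW
  refine ⟨hc, hlx, hly, ?_, ?_⟩
  · refine s10c_dir 1 hU hW hc h0 hlx ?_ ?_
    · intro T hT φ h1 h2 h3
      exact (h.comp_contDiff hW (hT.of_le (by exact_mod_cast le_top))).wx φ h1 h2 h3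
    · filter_upwards [hz] with z hz1 hz2 hz3 using (hz1 hz2 hz3).1
  · refine s10c_dir Complex.I hU hW hc h0 hly ?_ ?_
    · intro T hT φ h1 h2 h3
      exact (h.comp_contDiff hW (hT.of_le (by exact_mod_cast le_top))).wy φ h1 h2 h3
    · filter_upwards [hz] with z hz1 hz2 hz3 using (hz1 hz2 hz3).2

end CF6

end

section

set_option autoImplicit false

open MeasureTheory Metric Set Filter Topology
open scoped ContDiff ENNReal ComplexConjugate

namespace CF6

theorem s10d_sq_sub (a b : ℂ) : ‖a - b‖ₑ ^ 2 ≤ 2 * (‖a‖ₑ ^ 2 + ‖b‖ₑ ^ 2) := by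
  have h1 : ‖a - b‖ ^ 2 ≤ 2 * (‖a‖ ^ 2 + ‖b‖ ^ 2) := by
    have := norm_sub_le a b
    nlinarith [sq_nonneg (‖a‖ - ‖b‖), norm_nonneg a, norm_nonneg b, norm_nonneg (a - b)]
  have h2 : ∀ c : ℂ, ‖c‖ₑ = ENNReal.ofReal ‖c‖ := fun c => (ofReal_norm_eq_enorm c).symm
  rw [h2, h2, h2, ← ENNReal.ofReal_pow (norm_nonneg _), ← ENNReal.ofReal_pow (norm_nonneg _),
    ← ENNReal.ofReal_pow (norm_nonneg _), ← ENNReal.ofReal_add (by positivity) (by positivity),
    show (2 : ℝ≥0∞) = ENNReal.ofReal 2 by simp, ← ENNReal.ofReal_mul (by norm_num)]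
  exact ENNReal.ofReal_le_ofReal h1

open Classical in
/-- one real component of S10d -/
theorem s10d_part {U W : Set ℂ} {F Fx Fy u ux uy : ℂ → ℂ} (hU : IsOpen U) (hW : IsOpen W) (hWU : W ⊆ U)
    (hF : Sob U F Fx Fy) (hu : Sob W u ux uy) (hc : ContinuousOn (W.piecewise u F) U)
    (hen : ∀ K, K ⊆ U → IsCompact K → en (W ∩ K) ux uy < ⊤) (L : ℂ →L[ℝ] ℝ) (hL : ∀ z, ‖L z‖ ≤ ‖z‖) :
    Sob U (fun z => L (W.piecewise u F z - F z)) (W.indicator (fun z => L (ux z - Fx z)))
      (W.indicator (fun z => L (uy z - Fy z))) := by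
  refine Sob.glue_zero hU hW hWU ?_ ?_ ?_ ?_
  · exact L.continuous.comp_continuousOn (hc.sub hF.cont)
  · intro z _ hz
    rw [piecewise_eq_of_notMem _ _ _ hz, sub_self, map_zero]
  · refine ((hu.sub (hF.mono hWU)).clm L).congr ?_
    intro z hz
    rw [piecewise_eq_of_mem _ _ _ hz]
  · intro K hK hKc
    have h1 : ∀ z, ‖L (ux z - Fx z)‖ₑ ^ 2 + ‖L (uy z - Fy z)‖ₑ ^ 2
        ≤ 2 * ((‖ux z‖ₑ ^ 2 + ‖uy z‖ₑ ^ 2) + (‖Fx z‖ₑ ^ 2 + ‖Fy z‖ₑ ^ 2)) := by
      intro z
      have hL' : ∀ w, ‖L w‖ₑ ≤ ‖w‖ₑ := fun w => by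
        rw [← ofReal_norm_eq_enorm, ← ofReal_norm_eq_enorm]
        exact ENNReal.ofReal_le_ofReal (hL w)
      calc ‖L (ux z - Fx z)‖ₑ ^ 2 + ‖L (uy z - Fy z)‖ₑ ^ 2
          ≤ ‖ux z - Fx z‖ₑ ^ 2 + ‖uy z - Fy z‖ₑ ^ 2 := by gcongr <;> exact hL' _
        _ ≤ 2 * (‖ux z‖ₑ ^ 2 + ‖Fx z‖ₑ ^ 2) + 2 * (‖uy z‖ₑ ^ 2 + ‖Fy z‖ₑ ^ 2) :=
            add_le_add (s10d_sq_sub _ _) (s10d_sq_sub _ _)
        _ = _ := by ring
    have h2 : enE (W ∩ K) (fun z => L (ux z - Fx z)) (fun z => L (uy z - Fy z))
        ≤ ∫⁻ z in W ∩ K, 2 * ((‖ux z‖ₑ ^ 2 + ‖uy z‖ₑ ^ 2) + (‖Fx z‖ₑ ^ 2 + ‖Fy z‖ₑ ^ 2)) :=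
      lintegral_mono h1
    refine lt_of_le_of_lt h2 ?_
    have hx := (hF.lx K hK hKc).mono_measure (Measure.restrict_mono_set volume (inter_subset_right : W ∩ K ⊆ K))
    have hy := (hF.ly K hK hKc).mono_measure (Measure.restrict_mono_set volume (inter_subset_right : W ∩ K ⊆ K))
    rw [lintegral_const_mul' _ _ (by norm_num), lintegral_add_right']
    · refine ENNReal.mul_lt_top (by norm_num) (ENNReal.add_lt_top.mpr ⟨hen K hK hKc, ?_⟩)
      rw [lintegral_add_left' (hx.aestronglyMeasurable.enorm.pow_const 2)]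
      refine ENNReal.add_lt_top.mpr ⟨?_, ?_⟩
      · have := (eLpNorm_lt_top_iff_lintegral_rpow_enorm_lt_top (by norm_num) (by norm_num)).mp hx.2
        simpa using this
      · have := (eLpNorm_lt_top_iff_lintegral_rpow_enorm_lt_top (by norm_num) (by norm_num)).mp hy.2
        simpa using this
    · exact (hx.aestronglyMeasurable.enorm.pow_const 2).add (hy.aestronglyMeasurable.enorm.pow_const 2)

open Classical in
/-- S10d. REPLACEMENT on the open set `W` (complex valued).
PROOF. Real and imaginary parts (`Sob.clm` with `Complex.reCLM`, `Complex.imCLM`) of `v = W.piecewise u F - F` satisfy the hypotheses of S10c (`Sob.glue_zero`) with derivatives `ux - Fx`, ... on `W` (`Sob.sub`, `Sob.congr`)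
(finiteness of the energy on `W ∩ K`: `hen` and `Fx ∈ L²(K)`); reassemble with `Complex.ofRealCLM`, `I • ofRealCLM` (`Sob.clm`, `Sob.add`), add `F`, and use `Sob.congr`, `Sob.congr_ae`. -/
theorem Sob.replace {U W : Set ℂ} {F Fx Fy u ux uy : ℂ → ℂ} (hU : IsOpen U) (hW : IsOpen W) (hWU : W ⊆ U)
    (hF : Sob U F Fx Fy) (hu : Sob W u ux uy) (hc : ContinuousOn (W.piecewise u F) U)
    (hen : ∀ K, K ⊆ U → IsCompact K → en (W ∩ K) ux uy < ⊤) :
    Sob U (W.piecewise u F) (W.piecewise ux Fx) (W.piecewise uy Fy) := by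
  have h1 := (s10d_part hU hW hWU hF hu hc hen Complex.reCLM
    (fun z => by simpa using Complex.abs_re_le_norm z)).clm Complex.ofRealCLM
  have h2 := (s10d_part hU hW hWU hF hu hc hen Complex.imCLM
    (fun z => by simpa using Complex.abs_im_le_norm z)).clm
    ((1 : ℝ →L[ℝ] ℝ).smulRight Complex.I)
  have h3 := (hF.add h1).add h2
  have key : ∀ w : ℂ, ((w.re : ℝ) : ℂ) + w.im * Complex.I = w := Complex.re_add_im
  refine (h3.congr (g := W.piecewise u F) ?_).congr_ae ?_ ?_
  · intro z _
    have := key (W.piecewise u F z - F z)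
    simp only [Complex.reCLM_apply, Complex.imCLM_apply, Complex.ofRealCLM_apply,
      ContinuousLinearMap.smulRight_apply, ContinuousLinearMap.one_apply, Complex.real_smul]
    rw [add_assoc, this]
    ring
  · refine Eventually.of_forall (fun z _ => ?_)
    by_cases hz : z ∈ W
    · have := key (ux z - Fx z)
      simp only [piecewise_eq_of_mem _ _ _ hz, indicator_of_mem hz, Complex.reCLM_apply,
        Complex.imCLM_apply, Complex.ofRealCLM_apply, ContinuousLinearMap.smulRight_apply,
        ContinuousLinearMap.one_apply, Complex.real_smul]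
      rw [add_assoc, this]
      ring
    · simp [piecewise_eq_of_notMem _ _ _ hz, indicator_of_notMem hz]
  · refine Eventually.of_forall (fun z _ => ?_)
    by_cases hz : z ∈ W
    · have := key (uy z - Fy z)
      simp only [piecewise_eq_of_mem _ _ _ hz, indicator_of_mem hz, Complex.reCLM_apply,
        Complex.imCLM_apply, Complex.ofRealCLM_apply, ContinuousLinearMap.smulRight_apply,
        ContinuousLinearMap.one_apply, Complex.real_smul]
      rw [add_assoc, this]
      ring
    · simp [piecewise_eq_of_notMem _ _ _ hz, indicator_of_notMem hz]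

end CF6

end
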