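import Pool.Agent.Lib.MP_cf6b16_an.K1
import Pool.Agent.Lib.MP_cf6b16_an.K2

section

set_option autoImplicit false

open MeasureTheory Metric Set Filter Topology
open scoped ContDiff ENNReal ComplexConjugate

namespace CF6

/-- polar coordinates around `ζ` -/
theorem s12a_polar (ζ : ℂ) {H : ℂ → ℝ≥0∞} (hH : Measurable H) :
    ∫⁻ ρ in Ioi (0 : ℝ), ENNReal.ofReal ρ * ∫⁻ θ in Ioo (-Real.pi) Real.pi, H (circleMap ζ ρ θ)
      = ∫⁻ z, H z := by
  have h1 := Complex.lintegral_comp_polarCoord_symm (fun z => H (ζ + z))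
  rw [lintegral_add_left_eq_self H ζ] at h1
  rw [← h1, polarCoord_target, Measure.volume_eq_prod, ← Measure.prod_restrict]
  have hm : Measurable (fun p : ℝ × ℝ => H (circleMap ζ p.1 p.2)) := by
    refine hH.comp ?_
    unfold circleMap
    fun_prop
  have e : (fun p : ℝ × ℝ => ENNReal.ofReal p.1 • H (ζ + Complex.polarCoord.symm p))
      = fun p : ℝ × ℝ => ENNReal.ofReal p.1 * H (circleMap ζ p.1 p.2) := by
    funext p
    rw [smul_eq_mul, Complex.polarCoord_symm_apply]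
    congr 2
    unfold circleMap
    rw [Complex.exp_mul_I, Complex.ofReal_cos, Complex.ofReal_sin]
  rw [e, lintegral_prod]
  · refine lintegral_congr (fun ρ => ?_)
    change _ = ∫⁻ (y : ℝ) in Ioo (-Real.pi) Real.pi, ENNReal.ofReal ρ * H (circleMap ζ ρ y)
    rw [lintegral_const_mul]
    exact hm.comp (measurable_const.prodMk measurable_id)
  · exact ((ENNReal.measurable_ofReal.comp measurable_fst).mul hm).aemeasurable

/-- integrals over a period -/
theorem s12a_period (ζ : ℂ) (ρ : ℝ) (H : ℂ → ℝ≥0∞) {θ₁ θ₂ : ℝ} (h2 : θ₂ ≤ θ₁ + 2 * Real.pi) :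
    ∫⁻ θ in Icc θ₁ θ₂, H (circleMap ζ ρ θ) ≤ ∫⁻ θ in Ioo (-Real.pi) Real.pi, H (circleMap ζ ρ θ) := by
  have hpi := Real.pi_pos
  have hd : ∀ t, IsAddFundamentalDomain (AddSubgroup.zmultiples (2 * Real.pi)) (Ioc t (t + 2 * Real.pi))
      (volume : Measure ℝ) := fun t => isAddFundamentalDomain_Ioc Real.two_pi_pos t
  have h3 := (hd θ₁).setLIntegral_eq (hd (-Real.pi)) (fun θ => H (circleMap ζ ρ θ)) (by
    rintro ⟨g, hg⟩ x
    obtain ⟨n, rfl⟩ := AddSubgroup.mem_zmultiples_iff.mp hg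
    have : circleMap ζ ρ ((⟨n • (2 * Real.pi), hg⟩ : AddSubgroup.zmultiples (2 * Real.pi)) +ᵥ x)
        = circleMap ζ ρ x := by
      have h5 := (periodic_circleMap ζ ρ).int_mul n x
      have h6 : ((⟨n • (2 * Real.pi), hg⟩ : AddSubgroup.zmultiples (2 * Real.pi)) +ᵥ x)
          = x + n * (2 * Real.pi) := by
        change n • (2 * Real.pi) + x = _
        rw [zsmul_eq_mul]; ring
      rw [h6, h5]
    simp only [this])
  calc ∫⁻ θ in Icc θ₁ θ₂, H (circleMap ζ ρ θ)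
      = ∫⁻ θ in Ioc θ₁ θ₂, H (circleMap ζ ρ θ) := setLIntegral_congr Ioc_ae_eq_Icc.symm
    _ ≤ ∫⁻ θ in Ioc θ₁ (θ₁ + 2 * Real.pi), H (circleMap ζ ρ θ) :=
        lintegral_mono_set (Ioc_subset_Ioc_right h2)
    _ = ∫⁻ θ in Ioc (-Real.pi) (-Real.pi + 2 * Real.pi), H (circleMap ζ ρ θ) := h3
    _ = ∫⁻ θ in Ioo (-Real.pi) Real.pi, H (circleMap ζ ρ θ) := by
        rw [show -Real.pi + 2 * Real.pi = Real.pi by ring]
        exact setLIntegral_congr Ioo_ae_eq_Ioc.symm

/-- null sets on circles -/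
theorem s12a_null (ζ : ℂ) {N : Set ℂ} (hN : volume N = 0) :
    ∀ᵐ ρ : ℝ, 0 < ρ → ∀ θ₁ θ₂ : ℝ, θ₂ ≤ θ₁ + 2 * Real.pi →
      ∀ᵐ θ ∂(volume.restrict (Icc θ₁ θ₂)), circleMap ζ ρ θ ∉ N := by
  set N' := toMeasurable volume N with hN'
  have hNm : MeasurableSet N' := measurableSet_toMeasurable _ _
  have hN0 : volume N' = 0 := by rw [hN', measure_toMeasurable, hN]
  have h1 := s12a_polar ζ (measurable_one.indicator hNm : Measurable (N'.indicator (1 : ℂ → ℝ≥0∞)))
  rw [lintegral_indicator_one hNm, hN0] at h1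
  have hm : Measurable (fun ρ : ℝ => ENNReal.ofReal ρ *
      ∫⁻ θ in Ioo (-Real.pi) Real.pi, (N'.indicator (1 : ℂ → ℝ≥0∞)) (circleMap ζ ρ θ)) := by
    refine ENNReal.measurable_ofReal.mul ?_
    refine Measurable.lintegral_prod_right' (f := fun p : ℝ × ℝ => (N'.indicator (1 : ℂ → ℝ≥0∞)) (circleMap ζ p.1 p.2)) ?_
    refine (measurable_one.indicator hNm).comp ?_
    unfold circleMap
    fun_prop
  rw [lintegral_eq_zero_iff hm, EventuallyEq, ae_restrict_iff' measurableSet_Ioi] at h1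
  filter_upwards [h1] with ρ hρ hρ0 θ₁ θ₂ h2
  have h3 := hρ hρ0
  simp only [Pi.zero_apply, mul_eq_zero, ENNReal.ofReal_eq_zero, not_le.mpr hρ0, false_or] at h3
  have h4 := s12a_period ζ ρ (N'.indicator (1 : ℂ → ℝ≥0∞)) h2
  rw [h3, nonpos_iff_eq_zero, lintegral_eq_zero_iff] at h4
  · filter_upwards [h4] with θ hθ hmem
    have : circleMap ζ ρ θ ∈ N' := subset_toMeasurable _ _ hmem
    rw [indicator_of_mem this] at hθ
    simp at hθ
  · refine (measurable_one.indicator hNm).comp ?_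
    unfold circleMap
    fun_prop

variable {E : Type*} [NormedAddCommGroup E] [NormedSpace ℝ E]

theorem s12a_q (a b : E) : (‖a‖ₑ ^ 2 + ‖b‖ₑ ^ 2) ^ (1 / 2 : ℝ)
    = ENNReal.ofReal (Real.sqrt (‖a‖ ^ 2 + ‖b‖ ^ 2)) := by
  rw [← ofReal_norm_eq_enorm, ← ofReal_norm_eq_enorm, ← ENNReal.ofReal_pow (norm_nonneg _),
    ← ENNReal.ofReal_pow (norm_nonneg _), ← ENNReal.ofReal_add (by positivity) (by positivity),
    ENNReal.ofReal_rpow_of_nonneg (by positivity) (by norm_num), Real.sqrt_eq_rpow]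

theorem s12a_tri (a b a' b' : E) : (‖a‖ₑ ^ 2 + ‖b‖ₑ ^ 2) ^ (1 / 2 : ℝ)
    ≤ (‖a'‖ₑ ^ 2 + ‖b'‖ₑ ^ 2) ^ (1 / 2 : ℝ) + (‖a - a'‖ₑ ^ 2 + ‖b - b'‖ₑ ^ 2) ^ (1 / 2 : ℝ) := by
  rw [s12a_q, s12a_q, s12a_q, ← ENNReal.ofReal_add (by positivity) (by positivity)]
  refine ENNReal.ofReal_le_ofReal ?_
  set p := ‖a'‖
  set q := ‖b'‖
  set r := ‖a - a'‖
  set s := ‖b - b'‖
  have hp : 0 ≤ p := norm_nonneg _
  have hq : 0 ≤ q := norm_nonneg _
  have hr : 0 ≤ r := norm_nonneg _
  have hs : 0 ≤ s := norm_nonneg _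
  have ha : ‖a‖ ≤ p + r := by
    have : a = a' + (a - a') := by abel
    calc ‖a‖ = ‖a' + (a - a')‖ := by rw [← this]
      _ ≤ _ := norm_add_le _ _
  have hb : ‖b‖ ≤ q + s := by
    have : b = b' + (b - b') := by abel
    calc ‖b‖ = ‖b' + (b - b')‖ := by rw [← this]
      _ ≤ _ := norm_add_le _ _
  have hX := Real.sqrt_nonneg (p ^ 2 + q ^ 2)
  have hY := Real.sqrt_nonneg (r ^ 2 + s ^ 2)
  have hX2 := Real.sq_sqrt (show 0 ≤ p ^ 2 + q ^ 2 by positivity)
  have hY2 := Real.sq_sqrt (show 0 ≤ r ^ 2 + s ^ 2 by positivity)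
  have hXY : p * r + q * s ≤ Real.sqrt (p ^ 2 + q ^ 2) * Real.sqrt (r ^ 2 + s ^ 2) := by
    rw [← Real.sqrt_mul (by positivity)]
    refine Real.le_sqrt_of_sq_le ?_
    nlinarith [sq_nonneg (p * s - q * r)]
  rw [Real.sqrt_le_left (by positivity)]
  have h1 : ‖a‖ ^ 2 ≤ (p + r) ^ 2 := pow_le_pow_left₀ (norm_nonneg _) ha 2
  have h2 : ‖b‖ ^ 2 ≤ (q + s) ^ 2 := pow_le_pow_left₀ (norm_nonneg _) hb 2
  nlinarith

/-- the smooth case -/
theorem s12a_smooth [CompleteSpace E] {g : ℂ → E} (hg : ContDiff ℝ ∞ g) (ζ : ℂ) {ρ : ℝ} (hρ : 0 < ρ) {θ₁ θ₂ : ℝ}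
    (h12 : θ₁ ≤ θ₂) :
    ‖g (circleMap ζ ρ θ₂) - g (circleMap ζ ρ θ₁)‖ₑ ≤ ENNReal.ofReal ρ * ∫⁻ θ in Icc θ₁ θ₂,
      (‖fderiv ℝ g (circleMap ζ ρ θ) 1‖ₑ ^ 2 + ‖fderiv ℝ g (circleMap ζ ρ θ) Complex.I‖ₑ ^ 2) ^ (1 / 2 : ℝ) := by
  have hd : ∀ θ, HasDerivAt (fun θ => g (circleMap ζ ρ θ))
      (fderiv ℝ g (circleMap ζ ρ θ) (circleMap 0 ρ θ * Complex.I)) θ := by
    intro θ
    exact ((hg.differentiable (by simp)) _).hasFDerivAt.comp_hasDerivAt θ (hasDerivAt_circleMap ζ ρ θ)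
  have hcont : Continuous (fun θ => fderiv ℝ g (circleMap ζ ρ θ) (circleMap 0 ρ θ * Complex.I)) :=
    ((hg.continuous_fderiv (by simp)).comp (continuous_circleMap ζ ρ)).clm_apply
      ((continuous_circleMap 0 ρ).mul continuous_const)
  have h1 := intervalIntegral.integral_eq_sub_of_hasDerivAt (fun θ _ => hd θ)
    (hcont.intervalIntegrable θ₁ θ₂)
  rw [← h1, intervalIntegral.integral_of_le h12]
  refine (enorm_integral_le_lintegral_enorm _).trans ?_
  rw [← setLIntegral_congr Ioc_ae_eq_Icc, ← lintegral_const_mul' _ _ ENNReal.ofReal_ne_top]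
  refine lintegral_mono (fun θ => ?_)
  have e1 : circleMap 0 ρ θ * Complex.I = (-(ρ * Real.sin θ)) • (1 : ℂ) + (ρ * Real.cos θ) • Complex.I := by
    unfold circleMap
    rw [Complex.exp_mul_I]
    simp only [Complex.real_smul, Complex.ofReal_neg, Complex.ofReal_mul, Complex.ofReal_sin,
      Complex.ofReal_cos]
    linear_combination (ρ * Complex.sin θ) * Complex.I_sq
  simp only []
  rw [s12a_q, ← ENNReal.ofReal_mul hρ.le, e1, map_add, map_smul, map_smul, ← ofReal_norm_eq_enorm]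
  refine ENNReal.ofReal_le_ofReal ?_
  set a := fderiv ℝ g (circleMap ζ ρ θ) 1
  set b := fderiv ℝ g (circleMap ζ ρ θ) Complex.I
  refine (norm_add_le _ _).trans ?_
  rw [norm_smul, norm_smul, Real.norm_eq_abs, Real.norm_eq_abs, abs_neg, abs_mul, abs_mul, abs_of_pos hρ]
  have h3 : |Real.sin θ| * ‖a‖ + |Real.cos θ| * ‖b‖ ≤ Real.sqrt (‖a‖ ^ 2 + ‖b‖ ^ 2) := by
    refine Real.le_sqrt_of_sq_le ?_
    have h4 : |Real.sin θ| ^ 2 + |Real.cos θ| ^ 2 = 1 := by
      rw [sq_abs, sq_abs, Real.sin_sq_add_cos_sq]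
    nlinarith [sq_nonneg (|Real.sin θ| * ‖b‖ - |Real.cos θ| * ‖a‖)]
  nlinarith

theorem s12a_K [CompleteSpace E] {U : Set ℂ} {f fx fy : ℂ → E} (hU : IsOpen U) (h : Sob U f fx fy) (ζ : ℂ)
    {K : Set ℂ} (hK : IsCompact K) (hKU : K ⊆ U) :
    ∀ᵐ ρ : ℝ, 0 < ρ → ∀ θ₁ θ₂ : ℝ, θ₁ ≤ θ₂ → θ₂ ≤ θ₁ + 2 * Real.pi →
      (∀ θ ∈ Icc θ₁ θ₂, circleMap ζ ρ θ ∈ K) →
      ‖f (circleMap ζ ρ θ₂) - f (circleMap ζ ρ θ₁)‖ₑ ≤
        ENNReal.ofReal ρ * ∫⁻ θ in Icc θ₁ θ₂, (‖fx (circleMap ζ ρ θ)‖ₑ ^ 2 + ‖fy (circleMap ζ ρ θ)‖ₑ ^ 2) ^ (1 / 2 : ℝ) := by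
  obtain ⟨g, hg, hgu, hgx, hgy⟩ := h.exists_approx hU hK hKU
  have hmx := (h.lx K hKU hK).aestronglyMeasurable
  have hmy := (h.ly K hKU hK).aestronglyMeasurable
  obtain ⟨Fx, hFx, hFx'⟩ := hmx
  obtain ⟨Fy, hFy, hFy'⟩ := hmy
  have hmc : ∀ ρ : ℝ, Measurable (fun θ => circleMap ζ ρ θ) := fun ρ => (continuous_circleMap ζ ρ).measurable
  -- the null set
  have hN : volume {z | z ∈ K ∧ ¬ (fx z = Fx z ∧ fy z = Fy z)} = 0 := by
    have h1 : ∀ᵐ z ∂(volume.restrict K), fx z = Fx z ∧ fy z = Fy z := hFx'.and hFy'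
    rw [ae_restrict_iff' hK.measurableSet] at h1
    rw [ae_iff] at h1
    simpa only [Classical.not_imp] using h1
  -- the differences
  have hdm : ∀ n (e : ℂ), StronglyMeasurable (fun z => fderiv ℝ (g n) z e) := fun n e =>
    (((hg n).continuous_fderiv (by simp)).clm_apply continuous_const).stronglyMeasurable
  set H : ℕ → ℂ → ℝ≥0∞ := fun n => K.indicator (fun z => ‖fderiv ℝ (g n) z 1 - Fx z‖ₑ ^ 2 +
    ‖fderiv ℝ (g n) z Complex.I - Fy z‖ₑ ^ 2) with hHdef
  have hHm : ∀ n, Measurable (H n) := fun n =>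
    (((((hdm n 1).sub hFx).enorm.pow_const 2)).add (((hdm n Complex.I).sub hFy).enorm.pow_const 2)).indicator
      hK.measurableSet
  have hH0 : Tendsto (fun n => ∫⁻ z, H n z) atTop (𝓝 0) := by
    have h1 := hgx.add hgy
    rw [add_zero] at h1
    refine h1.congr (fun n => ?_)
    rw [hHdef]
    simp only []
    have hm1 : Measurable (fun z => ‖fderiv ℝ (g n) z 1 - Fx z‖ₑ ^ 2) :=
      ((hdm n 1).sub hFx).enorm.pow_const 2
    rw [lintegral_indicator hK.measurableSet, lintegral_add_left hm1]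
    congr 1
    · refine lintegral_congr_ae ?_
      filter_upwards [hFx'] with z hz
      rw [hz]
    · refine lintegral_congr_ae ?_
      filter_upwards [hFy'] with z hz
      rw [hz]
  -- a fast subsequence
  have hsub : ∀ k : ℕ, ∃ n, k ≤ n ∧ ∫⁻ z, H n z ≤ (2⁻¹ : ℝ≥0∞) ^ k := by
    intro k
    have h1 : (0 : ℝ≥0∞) < (2⁻¹ : ℝ≥0∞) ^ k := ENNReal.pow_pos (by simp) k
    obtain ⟨N, hN⟩ := ENNReal.tendsto_atTop_zero.mp hH0 _ h1
    exact ⟨max N k, le_max_right _ _, hN _ (le_max_left _ _)⟩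
  choose ψ hψ1 hψ2 using hsub
  have hψt : Tendsto ψ atTop atTop := tendsto_atTop_mono hψ1 tendsto_id
  have hBm : ∀ k, Measurable (fun ρ : ℝ => ENNReal.ofReal ρ *
      ∫⁻ θ in Ioo (-Real.pi) Real.pi, H (ψ k) (circleMap ζ ρ θ)) := by
    intro k
    refine ENNReal.measurable_ofReal.mul ?_
    refine Measurable.lintegral_prod_right' (f := fun p : ℝ × ℝ => H (ψ k) (circleMap ζ p.1 p.2)) ?_
    refine (hHm _).comp ?_
    unfold circleMap
    fun_prop
  have hB : ∀ᵐ ρ ∂(volume.restrict (Ioi (0 : ℝ))), ∑' k, (ENNReal.ofReal ρ *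
      ∫⁻ θ in Ioo (-Real.pi) Real.pi, H (ψ k) (circleMap ζ ρ θ)) < ⊤ := by
    refine ae_lt_top (Measurable.ennreal_tsum hBm) ?_
    rw [lintegral_tsum (fun k => (hBm k).aemeasurable)]
    refine ne_of_lt (lt_of_le_of_lt (ENNReal.tsum_le_tsum (g := fun k => (2⁻¹ : ℝ≥0∞) ^ k) ?_) ?_)
    · intro k
      rw [s12a_polar ζ (hHm _)]
      exact hψ2 k
    · rw [ENNReal.tsum_geometric]
      simp
  rw [ae_restrict_iff' measurableSet_Ioi] at hB
  filter_upwards [hB, s12a_null ζ hN] with ρ hρ1 hρ2 hρ θ₁ θ₂ h12 hper harc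
  have hρr : ENNReal.ofReal ρ ≠ 0 := by simpa using hρ
  have hJ : Tendsto (fun k => ∫⁻ θ in Ioo (-Real.pi) Real.pi, H (ψ k) (circleMap ζ ρ θ)) atTop (𝓝 0) := by
    have h1 := ENNReal.tendsto_atTop_zero_of_tsum_ne_top (hρ1 hρ).ne
    have h2 := ENNReal.Tendsto.const_mul (a := (ENNReal.ofReal ρ)⁻¹) h1 (Or.inr (by simpa using hρ))
    rw [mul_zero] at h2
    refine h2.congr (fun k => ?_)
    rw [← mul_assoc, ENNReal.inv_mul_cancel hρr ENNReal.ofReal_ne_top, one_mul]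
  -- the integral with `Fx`, `Fy`
  have hI : ∫⁻ θ in Icc θ₁ θ₂, (‖Fx (circleMap ζ ρ θ)‖ₑ ^ 2 + ‖Fy (circleMap ζ ρ θ)‖ₑ ^ 2) ^ (1 / 2 : ℝ)
      = ∫⁻ θ in Icc θ₁ θ₂, (‖fx (circleMap ζ ρ θ)‖ₑ ^ 2 + ‖fy (circleMap ζ ρ θ)‖ₑ ^ 2) ^ (1 / 2 : ℝ) := by
    refine lintegral_congr_ae ?_
    filter_upwards [hρ2 hρ θ₁ θ₂ hper, ae_restrict_mem measurableSet_Icc] with θ h1 h2
    have h3 : fx (circleMap ζ ρ θ) = Fx (circleMap ζ ρ θ) ∧ fy (circleMap ζ ρ θ) = Fy (circleMap ζ ρ θ) := by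
      by_contra h4
      exact h1 ⟨harc θ h2, h4⟩
    rw [h3.1, h3.2]
  rw [← hI]
  have hFxm : Measurable (fun θ => ‖Fx (circleMap ζ ρ θ)‖ₑ) := hFx.enorm.comp (hmc ρ)
  have hFym : Measurable (fun θ => ‖Fy (circleMap ζ ρ θ)‖ₑ) := hFy.enorm.comp (hmc ρ)
  -- the estimate for `g (ψ k)`
  have hest : ∀ k, ‖g (ψ k) (circleMap ζ ρ θ₂) - g (ψ k) (circleMap ζ ρ θ₁)‖ₑ ≤ ENNReal.ofReal ρ *
      ((∫⁻ θ in Icc θ₁ θ₂, (‖Fx (circleMap ζ ρ θ)‖ₑ ^ 2 + ‖Fy (circleMap ζ ρ θ)‖ₑ ^ 2) ^ (1 / 2 : ℝ)) +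
        (∫⁻ θ in Ioo (-Real.pi) Real.pi, H (ψ k) (circleMap ζ ρ θ)) ^ (1 / 2 : ℝ) *
          (volume (Icc θ₁ θ₂)) ^ (1 / 2 : ℝ)) := by
    intro k
    refine (s12a_smooth (hg _) ζ hρ h12).trans ?_
    refine mul_le_mul_right ?_ _
    have h1 : ∫⁻ θ in Icc θ₁ θ₂, (‖fderiv ℝ (g (ψ k)) (circleMap ζ ρ θ) 1‖ₑ ^ 2 +
        ‖fderiv ℝ (g (ψ k)) (circleMap ζ ρ θ) Complex.I‖ₑ ^ 2) ^ (1 / 2 : ℝ)
        ≤ ∫⁻ θ in Icc θ₁ θ₂, ((‖Fx (circleMap ζ ρ θ)‖ₑ ^ 2 + ‖Fy (circleMap ζ ρ θ)‖ₑ ^ 2) ^ (1 / 2 : ℝ) +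
          (H (ψ k) (circleMap ζ ρ θ)) ^ (1 / 2 : ℝ)) := by
      refine setLIntegral_mono' measurableSet_Icc (fun θ hθ => ?_)
      rw [hHdef]
      simp only []
      rw [indicator_of_mem (harc θ hθ)]
      exact s12a_tri _ _ _ _
    refine h1.trans ?_
    have hm2 : Measurable (fun θ => (‖Fx (circleMap ζ ρ θ)‖ₑ ^ 2 + ‖Fy (circleMap ζ ρ θ)‖ₑ ^ 2) ^ (1 / 2 : ℝ)) :=
      ((hFxm.pow_const 2).add (hFym.pow_const 2)).pow_const _
    rw [lintegral_add_left hm2]
    refine add_le_add_right ?_ _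
    have hHc : Measurable (fun θ => (H (ψ k) (circleMap ζ ρ θ)) ^ (1 / 2 : ℝ)) :=
      ((hHm _).comp (hmc ρ)).pow_const _
    have h2 := ENNReal.lintegral_mul_le_Lp_mul_Lq (volume.restrict (Icc θ₁ θ₂)) Real.HolderConjugate.two_two
      (f := fun θ => (H (ψ k) (circleMap ζ ρ θ)) ^ (1 / 2 : ℝ)) (g := fun _ => 1) hHc.aemeasurable
      aemeasurable_const
    simp only [Pi.mul_apply, mul_one, ENNReal.one_rpow, lintegral_const, one_mul,
      Measure.restrict_apply_univ] at h2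
    refine h2.trans (mul_le_mul_left (ENNReal.rpow_le_rpow ?_ (by norm_num)) _)
    have h3 : ∀ x : ℝ≥0∞, (x ^ (1 / 2 : ℝ)) ^ (2 : ℝ) = x := fun x => by
      rw [← ENNReal.rpow_mul]; norm_num
    simp only [h3]
    exact s12a_period ζ ρ (H (ψ k)) hper
  have hl : Tendsto (fun k => ‖g (ψ k) (circleMap ζ ρ θ₂) - g (ψ k) (circleMap ζ ρ θ₁)‖ₑ) atTop
      (𝓝 ‖f (circleMap ζ ρ θ₂) - f (circleMap ζ ρ θ₁)‖ₑ) := by
    have h1 := (hgu.tendsto_at (harc θ₂ (right_mem_Icc.mpr h12))).comp hψt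
    have h2 := (hgu.tendsto_at (harc θ₁ (left_mem_Icc.mpr h12))).comp hψt
    exact (h1.sub h2).enorm
  have hr : Tendsto (fun k => ENNReal.ofReal ρ *
      ((∫⁻ θ in Icc θ₁ θ₂, (‖Fx (circleMap ζ ρ θ)‖ₑ ^ 2 + ‖Fy (circleMap ζ ρ θ)‖ₑ ^ 2) ^ (1 / 2 : ℝ)) +
        (∫⁻ θ in Ioo (-Real.pi) Real.pi, H (ψ k) (circleMap ζ ρ θ)) ^ (1 / 2 : ℝ) *
          (volume (Icc θ₁ θ₂)) ^ (1 / 2 : ℝ))) atTop
      (𝓝 (ENNReal.ofReal ρ * (∫⁻ θ in Icc θ₁ θ₂, (‖Fx (circleMap ζ ρ θ)‖ₑ ^ 2 +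
        ‖Fy (circleMap ζ ρ θ)‖ₑ ^ 2) ^ (1 / 2 : ℝ)))) := by
    have h1 : Tendsto (fun k => (∫⁻ θ in Ioo (-Real.pi) Real.pi, H (ψ k) (circleMap ζ ρ θ)) ^ (1 / 2 : ℝ))
        atTop (𝓝 0) := by
      have := (ENNReal.continuous_rpow_const (y := (1 / 2 : ℝ))).continuousAt.tendsto.comp hJ
      rw [ENNReal.zero_rpow_of_pos (by norm_num)] at this
      exact this
    have h2 := ENNReal.Tendsto.mul_const (b := (volume (Icc θ₁ θ₂)) ^ (1 / 2 : ℝ)) h1
      (Or.inr (by rw [Real.volume_Icc]; exact ENNReal.rpow_ne_top_of_nonneg (by norm_num) ENNReal.ofReal_ne_top))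
    rw [zero_mul] at h2
    have h3 := ENNReal.Tendsto.const_mul (a := ENNReal.ofReal ρ) (h2.const_add (∫⁻ θ in Icc θ₁ θ₂,
      (‖Fx (circleMap ζ ρ θ)‖ₑ ^ 2 + ‖Fy (circleMap ζ ρ θ)‖ₑ ^ 2) ^ (1 / 2 : ℝ)))
      (Or.inr ENNReal.ofReal_ne_top)
    rw [add_zero] at h3
    exact h3
  exact le_of_tendsto_of_tendsto' hl hr hest

/-- compact exhaustion of an open set -/
theorem s12a_exh {U : Set ℂ} (hU : IsOpen U) : ∃ K : ℕ → Set ℂ, (∀ n, IsCompact (K n)) ∧ (∀ n, K n ⊆ U) ∧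
    ∀ A, IsCompact A → A ⊆ U → ∃ n, A ⊆ K n := by
  haveI : LocallyCompactSpace U := hU.locallyCompactSpace
  refine ⟨fun n => Subtype.val '' ((CompactExhaustion.choice U) n),
    fun n => ((CompactExhaustion.choice U).isCompact n).image continuous_subtype_val,
    fun n => ?_, ?_⟩
  · rintro _ ⟨x, -, rfl⟩
    exact x.2
  · intro A hA hAU
    have h1 : IsCompact ((Subtype.val : U → ℂ) ⁻¹' A) := by
      rw [Subtype.isCompact_iff, Subtype.image_preimage_coe, inter_eq_self_of_subset_right hAU]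
      exact hA
    obtain ⟨n, hn⟩ := (CompactExhaustion.choice U).exists_superset_of_isCompact h1
    exact ⟨n, fun a ha => ⟨⟨a, hAU ha⟩, hn ha, rfl⟩⟩

/-- S12a. absolute continuity on almost all circles.
PROOF. Exhaust `U` by compact sets `K_m` with `K_m ⊆ interior K_{m+1}`, `U = ⋃ K_m` (`CompactExhaustion` of the locally compact space `U`, or explicit: `{z : infDist z Uᶜ ≥ 1/m} ∩ closedBall 0 m`). Fix `m`
and take `g n` of S05b on `K_m`. Polar coordinates around `ζ` (`Complex.integral_comp_polarCoord_symm` / `lintegral_comp_polarCoord_symm`): `∫_ρ ρ ∫_θ 1_{K_m} ‖D g n - D f‖² dθ dρ → 0`, so for a subsequence the inner integrals converge to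
`0` for a.e. `ρ` (convergence in L¹ implies a.e. convergence of a subsequence, `TendstoInMeasure.exists_seq_tendsto_ae` or a fast subsequence and `ae_tendsto_of_summable`-like argument).
For such `ρ` (all `m`) and an arc `θ₁ ≤ θ ≤ θ₂` in `U` (compact, so contained in some `K_m`): `‖g n (θ₂) - g n (θ₁)‖ ≤ ρ ∫ (‖∂₁ g n‖ + ‖∂₂ g n‖)`... use `‖a cos + b sin‖ ≤ (‖a‖²+‖b‖²)^{1/2}` and pass to the limit. -/
theorem Sob.ae_circle [CompleteSpace E] {U : Set ℂ} {f fx fy : ℂ → E} (hU : IsOpen U) (h : Sob U f fx fy) (ζ : ℂ) :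
    ∀ᵐ ρ : ℝ, 0 < ρ → ∀ θ₁ θ₂ : ℝ, θ₁ ≤ θ₂ → θ₂ ≤ θ₁ + 2 * Real.pi →
      (∀ θ ∈ Icc θ₁ θ₂, circleMap ζ ρ θ ∈ U) →
      ENNReal.ofReal ‖f (circleMap ζ ρ θ₂) - f (circleMap ζ ρ θ₁)‖ ≤
        ENNReal.ofReal ρ * ∫⁻ θ in Icc θ₁ θ₂, (‖fx (circleMap ζ ρ θ)‖ₑ ^ 2 + ‖fy (circleMap ζ ρ θ)‖ₑ ^ 2) ^ (1 / 2 : ℝ) := by
  obtain ⟨K, hK1, hK2, hK3⟩ := s12a_exh hU
  have h1 := ae_all_iff.mpr (fun n => s12a_K hU h ζ (hK1 n) (hK2 n))
  filter_upwards [h1] with ρ hρ1 hρ θ₁ θ₂ h12 hper harc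
  obtain ⟨n, hn⟩ := hK3 (circleMap ζ ρ '' Icc θ₁ θ₂) (isCompact_Icc.image (continuous_circleMap ζ ρ))
    (by rintro _ ⟨θ, hθ, rfl⟩; exact harc θ hθ)
  rw [ofReal_norm_eq_enorm]
  exact hρ1 n hρ θ₁ θ₂ h12 hper (fun θ hθ => hn ⟨θ, hθ, rfl⟩)

end CF6

end

section

set_option autoImplicit false

open MeasureTheory Metric Set Filter Topology
open scoped ContDiff ENNReal ComplexConjugate

namespace CF6

variable {E : Type*} [NormedAddCommGroup E] [NormedSpace ℝ E] [CompleteSpace E]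

/-- measurability on an open set -/
theorem s12b_meas {U : Set ℂ} (hU : IsOpen U) {g : ℂ → E}
    (hl : ∀ K, K ⊆ U → IsCompact K → MemLp g 2 (volume.restrict K)) :
    AEStronglyMeasurable g (volume.restrict U) := by
  obtain ⟨K, hK1, hK2, hK3⟩ := s12a_exh hU
  have h1 : U = ⋃ n, K n := by
    refine subset_antisymm ?_ (iUnion_subset hK2)
    intro z hz
    obtain ⟨n, hn⟩ := hK3 {z} isCompact_singleton (by simpa using hz)
    exact mem_iUnion.mpr ⟨n, hn rfl⟩
  rw [h1, aestronglyMeasurable_iUnion_iff]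
  intro n
  exact (hl _ (hK2 n) (hK1 n)).aestronglyMeasurable

/-- S12b. COURANT-LEBESGUE. PROOF. S12a and Cauchy-Schwarz: `‖Δf‖² ≤ ρ² 2π ∫_θ 1_U (‖fx‖²+‖fy‖²) =: 2π ρ² e(ρ)` and `∫_0^δ ρ e(ρ) dρ ≤ en U` (polar coordinates). If for all `ρ` in `(0,δ)` of full measure
there were a bad arc, then `ε² < 2π ρ² e(ρ)`, so `ε² / ρ < 2π ρ e(ρ)` for a.e. `ρ < δ`, and `∫_0^δ dρ/ρ = ∞`: contradiction. -/
theorem courant_lebesgue {U : Set ℂ} {f fx fy : ℂ → E} (hU : IsOpen U) (h : Sob U f fx fy)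
    (hen : enE U fx fy < ⊤) (ζ : ℂ) {ε δ : ℝ} (hε : 0 < ε) (hδ : 0 < δ) :
    ∃ ρ ∈ Ioo 0 δ, ∀ θ₁ θ₂ : ℝ, θ₁ ≤ θ₂ → θ₂ ≤ θ₁ + 2 * Real.pi →
      (∀ θ ∈ Icc θ₁ θ₂, circleMap ζ ρ θ ∈ U) →
      ‖f (circleMap ζ ρ θ₂) - f (circleMap ζ ρ θ₁)‖ ≤ ε := by
  obtain ⟨Fx, hFx, hFx'⟩ := s12b_meas hU h.lx
  obtain ⟨Fy, hFy, hFy'⟩ := s12b_meas hU h.ly
  have hmc : ∀ ρ : ℝ, Measurable (fun θ => circleMap ζ ρ θ) := fun ρ => (continuous_circleMap ζ ρ).measurable
  have hN : volume {z | z ∈ U ∧ ¬ (fx z = Fx z ∧ fy z = Fy z)} = 0 := by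
    have h1 : ∀ᵐ z ∂(volume.restrict U), fx z = Fx z ∧ fy z = Fy z := hFx'.and hFy'
    rw [ae_restrict_iff' hU.measurableSet] at h1
    rw [ae_iff] at h1
    simpa only [Classical.not_imp] using h1
  set H : ℂ → ℝ≥0∞ := U.indicator (fun z => ‖Fx z‖ₑ ^ 2 + ‖Fy z‖ₑ ^ 2) with hHdef
  have hHm : Measurable H :=
    ((hFx.enorm.pow_const 2).add (hFy.enorm.pow_const 2)).indicator hU.measurableSet
  have hHen : ∫⁻ z, H z = enE U fx fy := by
    rw [hHdef, lintegral_indicator hU.measurableSet]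
    refine lintegral_congr_ae ?_
    filter_upwards [hFx', hFy'] with z h1 h2
    rw [h1, h2]
  have hpol := s12a_polar ζ hHm
  rw [hHen] at hpol
  by_contra hcon
  push Not at hcon
  -- lower bound
  have hlow : ∀ᵐ ρ : ℝ, ρ ∈ Ioo 0 δ → ENNReal.ofReal (ε ^ 2 / (2 * Real.pi) * ρ⁻¹) ≤
      ENNReal.ofReal ρ * ∫⁻ θ in Ioo (-Real.pi) Real.pi, H (circleMap ζ ρ θ) := by
    filter_upwards [h.ae_circle hU ζ, s12a_null ζ hN] with ρ h1 h2 hρ
    obtain ⟨θ₁, θ₂, h12, hper, harc, hbad⟩ := hcon ρ hρ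
    have h3 := h1 hρ.1 θ₁ θ₂ h12 hper harc
    have h4 := h2 hρ.1 θ₁ θ₂ hper
    have hI : ∫⁻ θ in Icc θ₁ θ₂, (‖fx (circleMap ζ ρ θ)‖ₑ ^ 2 + ‖fy (circleMap ζ ρ θ)‖ₑ ^ 2) ^ (1 / 2 : ℝ)
        = ∫⁻ θ in Icc θ₁ θ₂, (H (circleMap ζ ρ θ)) ^ (1 / 2 : ℝ) := by
      refine lintegral_congr_ae ?_
      filter_upwards [h4, ae_restrict_mem measurableSet_Icc] with θ h5 h6
      have h7 : fx (circleMap ζ ρ θ) = Fx (circleMap ζ ρ θ) ∧ fy (circleMap ζ ρ θ) = Fy (circleMap ζ ρ θ) := by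
        by_contra h8
        exact h5 ⟨harc θ h6, h8⟩
      rw [hHdef, indicator_of_mem (harc θ h6), h7.1, h7.2]
    have hHc : Measurable (fun θ => (H (circleMap ζ ρ θ)) ^ (1 / 2 : ℝ)) :=
      (hHm.comp (hmc ρ)).pow_const _
    have h8 := ENNReal.lintegral_mul_le_Lp_mul_Lq (volume.restrict (Icc θ₁ θ₂)) Real.HolderConjugate.two_two
      (f := fun θ => (H (circleMap ζ ρ θ)) ^ (1 / 2 : ℝ)) (g := fun _ => 1) hHc.aemeasurable
      aemeasurable_const
    have h9 : ∀ x : ℝ≥0∞, (x ^ (1 / 2 : ℝ)) ^ (2 : ℝ) = x := fun x => by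
      rw [← ENNReal.rpow_mul]; norm_num
    simp only [Pi.mul_apply, mul_one, ENNReal.one_rpow, lintegral_const, one_mul,
      Measure.restrict_apply_univ, h9] at h8
    set e := ∫⁻ θ in Ioo (-Real.pi) Real.pi, H (circleMap ζ ρ θ) with he
    have h10 : ∫⁻ θ in Icc θ₁ θ₂, (H (circleMap ζ ρ θ)) ^ (1 / 2 : ℝ)
        ≤ e ^ (1 / 2 : ℝ) * (ENNReal.ofReal (2 * Real.pi)) ^ (1 / 2 : ℝ) := by
      refine h8.trans (mul_le_mul' (ENNReal.rpow_le_rpow (s12a_period ζ ρ H hper) (by norm_num))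
        (ENNReal.rpow_le_rpow ?_ (by norm_num)))
      rw [Real.volume_Icc]
      exact ENNReal.ofReal_le_ofReal (by linarith)
    have h11 : ENNReal.ofReal ε ≤ ENNReal.ofReal ρ * (e ^ (1 / 2 : ℝ) *
        (ENNReal.ofReal (2 * Real.pi)) ^ (1 / 2 : ℝ)) := by
      refine (ENNReal.ofReal_le_ofReal hbad.le).trans (h3.trans ?_)
      rw [hI]
      exact mul_le_mul_right h10 _
    have h12' : ENNReal.ofReal ε ^ 2 ≤ ENNReal.ofReal ρ ^ 2 * (e * ENNReal.ofReal (2 * Real.pi)) := by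
      calc ENNReal.ofReal ε ^ 2 ≤ (ENNReal.ofReal ρ * (e ^ (1 / 2 : ℝ) *
            (ENNReal.ofReal (2 * Real.pi)) ^ (1 / 2 : ℝ))) ^ 2 := pow_le_pow_left₀ (by positivity) h11 2
        _ = ENNReal.ofReal ρ ^ 2 * ((e ^ (1 / 2 : ℝ)) ^ 2 * ((ENNReal.ofReal (2 * Real.pi)) ^ (1 / 2 : ℝ)) ^ 2) := by
            ring
        _ = _ := by
            have h13 : ∀ x : ℝ≥0∞, (x ^ (1 / 2 : ℝ)) ^ (2 : ℕ) = x := fun x => by
              rw [← ENNReal.rpow_natCast, ← ENNReal.rpow_mul]; norm_num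
            rw [h13, h13]
    by_cases het : e = ⊤
    · rw [het, ENNReal.mul_top (by simpa using hρ.1)]
      exact le_top
    · lift e to NNReal using het with e'
      have h14 : (e' : ℝ≥0∞) = ENNReal.ofReal (e' : ℝ) := by simp
      rw [h14, ← ENNReal.ofReal_pow hε.le, ← ENNReal.ofReal_pow hρ.1.le, ← ENNReal.ofReal_mul (by positivity),
        ← ENNReal.ofReal_mul (by positivity)] at h12'
      rw [ENNReal.ofReal_le_ofReal_iff (by positivity)] at h12'
      rw [h14, ← ENNReal.ofReal_mul hρ.1.le]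
      refine ENNReal.ofReal_le_ofReal ?_
      rw [← div_eq_mul_inv, div_div, div_le_iff₀ (by have := hρ.1; positivity)]
      linarith
  -- integrate
  have hfin : ∫⁻ ρ in Ioo 0 δ, ENNReal.ofReal (ε ^ 2 / (2 * Real.pi) * ρ⁻¹) < ⊤ := by
    calc ∫⁻ ρ in Ioo 0 δ, ENNReal.ofReal (ε ^ 2 / (2 * Real.pi) * ρ⁻¹)
        ≤ ∫⁻ ρ in Ioo 0 δ, ENNReal.ofReal ρ * ∫⁻ θ in Ioo (-Real.pi) Real.pi, H (circleMap ζ ρ θ) := by
          refine lintegral_mono_ae ?_
          rw [ae_restrict_iff' measurableSet_Ioo]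
          exact hlow
      _ ≤ ∫⁻ ρ in Ioi 0, ENNReal.ofReal ρ * ∫⁻ θ in Ioo (-Real.pi) Real.pi, H (circleMap ζ ρ θ) :=
          lintegral_mono_set Ioo_subset_Ioi_self
      _ < ⊤ := by rw [hpol]; exact hen
  have hint : IntegrableOn (fun ρ : ℝ => ε ^ 2 / (2 * Real.pi) * ρ⁻¹) (Ioo 0 δ) := by
    refine (lintegral_ofReal_ne_top_iff_integrable ?_ ?_).mp hfin.ne
    · exact (measurable_inv.const_mul _).aestronglyMeasurable
    · rw [EventuallyLE, ae_restrict_iff' measurableSet_Ioo]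
      refine Eventually.of_forall (fun ρ hρ => ?_)
      have := hρ.1
      simp only [Pi.zero_apply]
      positivity
  have hc : ε ^ 2 / (2 * Real.pi) ≠ 0 := by positivity
  have hint2 : IntegrableOn (fun ρ : ℝ => ρ⁻¹) (Ioo 0 δ) := by
    have := hint.const_mul (ε ^ 2 / (2 * Real.pi))⁻¹
    refine this.congr (Eventually.of_forall (fun ρ => ?_))
    simp only []
    rw [← mul_assoc, inv_mul_cancel₀ hc, one_mul]
  have hint3 : IntervalIntegrable (fun ρ : ℝ => ρ⁻¹) volume 0 δ := by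
    rw [intervalIntegrable_iff_integrableOn_Ioo_of_le hδ.le]
    exact hint2
  rcases intervalIntegrable_inv_iff.mp hint3 with h1 | h1
  · exact hδ.ne h1
  · exact h1 left_mem_uIcc

end CF6

end

section

set_option autoImplicit false

open MeasureTheory Metric Set Filter Topology
open scoped ContDiff ENNReal ComplexConjugate

namespace CF6

/-- circle points seen from the centre on the unit circle -/
private theorem be1_normSq (ρ s : ℝ) (ζ : ℂ) (hζ : ‖ζ‖ = 1) :
    ‖ζ * (1 - ρ * Complex.exp (s * Complex.I))‖ ^ 2 = 1 - 2 * ρ * Real.cos s + ρ ^ 2 := by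
  rw [norm_mul, hζ, one_mul, ← Complex.normSq_eq_norm_sq, Complex.normSq_apply]
  have h1 : (1 - (ρ : ℂ) * Complex.exp (s * Complex.I)).re = 1 - ρ * Real.cos s := by
    rw [Complex.sub_re, Complex.one_re, Complex.re_ofReal_mul, Complex.exp_ofReal_mul_I_re]
  have h2 : (1 - (ρ : ℂ) * Complex.exp (s * Complex.I)).im = - (ρ * Real.sin s) := by
    rw [Complex.sub_im, Complex.one_im, Complex.im_ofReal_mul, Complex.exp_ofReal_mul_I_im]
    ring
  rw [h1, h2]
  have h3 := Real.sin_sq_add_cos_sq s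
  nlinarith [h3]

private theorem be1_circle {ζ : ℂ} (hζ : ‖ζ‖ = 1) (ρ s : ℝ) :
    circleMap ζ ρ (Complex.arg ζ + Real.pi + s) = ζ * (1 - ρ * Complex.exp (s * Complex.I)) := by
  have h1 : Complex.exp (Complex.arg ζ * Complex.I) = ζ := by
    have := Complex.norm_mul_exp_arg_mul_I ζ
    rwa [hζ, Complex.ofReal_one, one_mul] at this
  rw [circleMap]
  have h2 : Complex.exp (((Complex.arg ζ + Real.pi + s : ℝ) : ℂ) * Complex.I) =
      - (ζ * Complex.exp (s * Complex.I)) := by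
    have : (((Complex.arg ζ + Real.pi + s : ℝ) : ℂ) * Complex.I) =
        Complex.arg ζ * Complex.I + Real.pi * Complex.I + s * Complex.I := by
      push_cast; ring
    rw [this, Complex.exp_add, Complex.exp_add, Complex.exp_pi_mul_I, h1]
    ring
  rw [h2]
  ring

/-- every point of the circle about `ζ` has the form `ζ (1 - ρ e^{is})` with `|s| ≤ π` -/
private theorem be1_param {ζ z : ℂ} (hζ : ‖ζ‖ = 1) {ρ : ℝ} (hρ : 0 < ρ) (hz : dist z ζ = ρ) :
    ∃ s : ℝ, |s| ≤ Real.pi ∧ z = ζ * (1 - ρ * Complex.exp (s * Complex.I)) := by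
  have hζ0 : ζ ≠ 0 := by
    intro h
    rw [h, norm_zero] at hζ
    exact zero_ne_one hζ
  have hρ0 : (ρ : ℂ) ≠ 0 := by exact_mod_cast hρ.ne'
  set v : ℂ := (ζ - z) / (ρ * ζ) with hv
  have hnv : ‖v‖ = 1 := by
    rw [hv, norm_div, norm_mul, hζ, mul_one, Complex.norm_real, Real.norm_eq_abs, abs_of_pos hρ,
      ← dist_eq_norm, dist_comm, hz, div_self hρ.ne']
  have h1 : Complex.exp (Complex.arg v * Complex.I) = v := by
    have := Complex.norm_mul_exp_arg_mul_I v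
    rwa [hnv, Complex.ofReal_one, one_mul] at this
  refine ⟨Complex.arg v, Complex.abs_arg_le_pi v, ?_⟩
  rw [h1, hv]
  field_simp
  ring

/-- BE1. A proper monotone map of finite energy of the disc onto a disc has limits at the boundary points.
PROOF. Let `ζ ∈ sphere 0 1`. Cauchy criterion (`cauchy_map_iff`, `cauchySeq`-like; `ℂ` complete): for every `η > 0` there is `ρ > 0` such that the values of `H` on `ball 0 1 ∩ ball ζ ρ` are at mutual distance `≤ η`.
Let `e > 0` be small (`4 √(r e) < η/2`, `2 e < r/2`...). Let `x₀ ∈ ball 0 1` with `H x₀ = c`. Courant-Lebesgue (S12b, `courant_lebesgue`) gives `0 < ρ < min (dist x₀ ζ) 1` such that `‖H z - H w‖ ≤ e` for all `z, w` on the arc `C = sphere ζ ρ ∩ ball 0 1` (this is one open arc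
`{ζ + ρ e^{iθ} : θ ∈ (θ', θ'')}`, `θ'' - θ' < 2π`: `‖ζ + ρ e^{iθ}‖² < 1 ⟺ 2 Re(conj ζ e^{iθ}) < - ρ`, i.e. `cos(θ - arg ζ) < -ρ/2`). The arc goes to the unit circle at its ends, where `dist (H z) c → r` (properness: `H⁻¹(closedBall c r')` is compact for `r' < r`). So there is a unit vector `n` with
`(conj n * (H z - c)).re ≥ r - 2 e` for all `z ∈ C`. `L = {y ∈ ball c r | (conj n * (y - c)).re < r - 2e}` is convex, contains `c`; `H⁻¹ L` is connected (T1), contains `x₀`, and does not meet `C`; so it does not meet `ball ζ ρ` (it is a connected subset of `ball 0 1 \ sphere ζ ρ`, `dist(·,ζ) - ρ` has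
constant sign on it). Hence all values of `H` on `ball 0 1 ∩ ball ζ ρ` are in the cap `{y ∈ ball c r | (conj n * (y - c)).re ≥ r - 2e}`, whose diameter is at most `4 √(r e)`: `‖y - c - r n‖² = ‖y-c‖² - 2 r Re(..) + r² ≤ 2 r² - 2 r (r - 2e) = 4 r e`. -/
theorem PMap.tendsto_bdry {c : ℂ} {r : ℝ} (hr : 0 < r) {H Hx Hy : ℂ → ℂ}
    (h : PMap (ball 0 1) (ball c r) H) (hS : Sob (ball 0 1) H Hx Hy)
    (hen : en (ball 0 1) Hx Hy < ⊤) {ζ : ℂ} (hζ : ζ ∈ sphere (0 : ℂ) 1) :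
    ∃ y : ℂ, Tendsto H (𝓝[ball 0 1] ζ) (𝓝 y) := by
  have hζ1 : ‖ζ‖ = 1 := by simpa using hζ
  set D : Set ℂ := ball 0 1 with hD
  have hζcl : ζ ∈ closure D := by
    rw [hD, closure_ball _ one_ne_zero, mem_closedBall, dist_zero_right, hζ1]
  have hne : (𝓝[D] ζ).NeBot := mem_closure_iff_nhdsWithin_neBot.mp hζcl
  rw [← cauchy_map_iff_exists_tendsto, Metric.cauchy_iff]
  refine ⟨hne.map H, fun η hη => ?_⟩
  -- the base point
  obtain ⟨x₀, hx₀D, hx₀⟩ := (h.fib c (mem_ball_self hr)).nonempty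
  have hx₀c : H x₀ = c := hx₀
  have hx₀ζ : 0 < dist x₀ ζ := by
    rw [dist_pos]
    rintro rfl
    rw [hD, mem_ball, dist_zero_right, hζ1] at hx₀D
    exact lt_irrefl _ hx₀D
  -- the small number
  set e : ℝ := min (r / 4) (η ^ 2 / (64 * r)) with he
  have he0 : 0 < e := lt_min (by positivity) (by positivity)
  have he1 : e ≤ r / 4 := min_le_left _ _
  have he2 : 4 * r * e ≤ (η / 4) ^ 2 := by
    have h1 : e ≤ η ^ 2 / (64 * r) := min_le_right _ _
    have h2 : e * (64 * r) ≤ η ^ 2 := by rwa [le_div_iff₀ (by positivity)] at h1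
    nlinarith [h2]
  obtain ⟨ρ, hρ, harc⟩ := courant_lebesgue isOpen_ball hS (show enE D Hx Hy < ⊤ from hen) ζ he0
    (lt_min hx₀ζ one_pos)
  have hρ0 : 0 < ρ := hρ.1
  have hρ1 : ρ < 1 := lt_of_lt_of_le hρ.2 (min_le_right _ _)
  have hρx : ρ < dist x₀ ζ := lt_of_lt_of_le hρ.2 (min_le_left _ _)
  -- membership in the disc
  have hmemD : ∀ s : ℝ, ζ * (1 - ρ * Complex.exp (s * Complex.I)) ∈ D ↔ ρ / 2 < Real.cos s := by
    intro s
    rw [hD, mem_ball, dist_zero_right, ← sq_lt_one_iff₀ (norm_nonneg _), be1_normSq ρ s ζ hζ1]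
    constructor
    · intro h1
      nlinarith
    · intro h1
      nlinarith
  -- oscillation on the arc
  have hosc1 : ∀ s s' : ℝ, |s| ≤ Real.pi → |s'| ≤ Real.pi → ρ / 2 < Real.cos s →
      ρ / 2 < Real.cos s' → s ≤ s' →
      ‖H (ζ * (1 - ρ * Complex.exp (s' * Complex.I))) -
        H (ζ * (1 - ρ * Complex.exp (s * Complex.I)))‖ ≤ e := by
    intro s s' hs hs' hc1 hc2 hss
    have h1 := harc (Complex.arg ζ + Real.pi + s) (Complex.arg ζ + Real.pi + s') (by linarith)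
      (by linarith [abs_le.mp hs, abs_le.mp hs', (abs_le.mp hs).1, (abs_le.mp hs').2]) ?_
    · rwa [be1_circle hζ1, be1_circle hζ1] at h1
    · intro θ hθ
      have h2 : θ = Complex.arg ζ + Real.pi + (θ - Complex.arg ζ - Real.pi) := by ring
      rw [h2, be1_circle hζ1]
      refine (hmemD _).mpr ?_
      set t := θ - Complex.arg ζ - Real.pi with ht
      have ht1 : s ≤ t := by linarith [hθ.1]
      have ht2 : t ≤ s' := by linarith [hθ.2]
      have habs : |t| ≤ |s| ∨ |t| ≤ |s'| := by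
        rcases le_total 0 t with h0 | h0
        · right
          rw [abs_of_nonneg h0]
          exact ht2.trans (le_abs_self _)
        · left
          rw [abs_of_nonpos h0]
          exact (neg_le_neg ht1).trans (neg_le_abs _)
      rw [← Real.cos_abs t]
      rcases habs with h3 | h3
      · refine lt_of_lt_of_le ?_ (Real.cos_le_cos_of_nonneg_of_le_pi (abs_nonneg _) hs h3)
        rwa [Real.cos_abs]
      · refine lt_of_lt_of_le ?_ (Real.cos_le_cos_of_nonneg_of_le_pi (abs_nonneg _) hs' h3)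
        rwa [Real.cos_abs]
  have hosc : ∀ z ∈ D, ∀ w ∈ D, dist z ζ = ρ → dist w ζ = ρ → ‖H z - H w‖ ≤ e := by
    intro z hz w hw hzρ hwρ
    obtain ⟨s, hs, rfl⟩ := be1_param hζ1 hρ0 hzρ
    obtain ⟨s', hs', rfl⟩ := be1_param hζ1 hρ0 hwρ
    rcases le_total s s' with h1 | h1
    · rw [norm_sub_rev]
      exact hosc1 s s' hs hs' ((hmemD _).mp hz) ((hmemD _).mp hw) h1
    · exact hosc1 s' s hs' hs ((hmemD _).mp hw) ((hmemD _).mp hz) h1
  have hdistρ : ∀ s : ℝ, dist (ζ * (1 - ρ * Complex.exp (s * Complex.I))) ζ = ρ := by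
    intro s
    rw [dist_eq_norm]
    have h1 : ζ * (1 - ρ * Complex.exp (s * Complex.I)) - ζ = -(ζ * ρ * Complex.exp (s * Complex.I)) := by
      ring
    rw [h1, norm_neg, norm_mul, norm_mul, hζ1, Complex.norm_exp_ofReal_mul_I, Complex.norm_real,
      Real.norm_eq_abs, abs_of_pos hρ0]
    ring
  -- a point of the arc with value near the boundary
  obtain ⟨z₁, hz₁D, hz₁ρ, hz₁⟩ : ∃ z₁ ∈ D, dist z₁ ζ = ρ ∧ r - e < ‖H z₁ - c‖ := by
    by_contra hcon
    push Not at hcon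
    have hsub : closedBall c (r - e) ⊆ ball c r := closedBall_subset_ball (by linarith)
    have hQ := h.proper (closedBall c (r - e)) hsub (isCompact_closedBall _ _)
    set β : ℝ := Real.arccos (ρ / 2) with hβ
    have hβcos : Real.cos β = ρ / 2 := Real.cos_arccos (by linarith) (by linarith)
    have hβ0 : 0 < β := Real.arccos_pos.mpr (by linarith)
    have hβπ : β ≤ Real.pi := Real.arccos_le_pi _
    let γ : ℝ → ℂ := fun s => ζ * (1 - ρ * Complex.exp (s * Complex.I))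
    have hγ : Continuous γ := by fun_prop
    have hcl : IsClosed (γ ⁻¹' (ball 0 1 ∩ H ⁻¹' closedBall c (r - e))) := hQ.isClosed.preimage hγ
    have hIco : Ico 0 β ⊆ γ ⁻¹' (ball 0 1 ∩ H ⁻¹' closedBall c (r - e)) := by
      intro s hs
      have h1 : γ s ∈ D := by
        refine (hmemD s).mpr ?_
        rw [← hβcos]
        exact Real.cos_lt_cos_of_nonneg_of_le_pi hs.1 hβπ hs.2
      refine ⟨h1, ?_⟩
      show H (γ s) ∈ closedBall c (r - e)
      rw [mem_closedBall, dist_eq_norm]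
      exact hcon _ h1 (hdistρ s)
    have h2 : β ∈ γ ⁻¹' (ball 0 1 ∩ H ⁻¹' closedBall c (r - e)) := by
      refine hcl.closure_subset_iff.mpr hIco ?_
      rw [closure_Ico hβ0.ne]
      exact ⟨hβ0.le, le_rfl⟩
    have h3 : γ β ∈ D := h2.1
    have h4 := (hmemD β).mp h3
    rw [hβcos] at h4
    exact lt_irrefl _ h4
  have hz₁0 : 0 < ‖H z₁ - c‖ := by linarith
  set n : ℂ := (H z₁ - c) / (‖H z₁ - c‖ : ℂ) with hn
  have hn1 : ‖n‖ = 1 := by
    rw [hn, norm_div, Complex.norm_real, norm_norm, div_self hz₁0.ne']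
  have hnz : (conj n * (H z₁ - c)).re = ‖H z₁ - c‖ := by
    rw [hn, map_div₀, Complex.conj_ofReal, div_mul_eq_mul_div, ← Complex.normSq_eq_conj_mul_self,
      Complex.normSq_eq_norm_sq, ← Complex.ofReal_div, Complex.ofReal_re, sq, mul_div_assoc,
      div_self hz₁0.ne', mul_one]
  have hcap : ∀ z ∈ D, dist z ζ = ρ → r - 2 * e ≤ (conj n * (H z - c)).re := by
    intro z hz hzρ
    have h1 : (conj n * (H z - c)).re = (conj n * (H z₁ - c)).re + (conj n * (H z - H z₁)).re := by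
      rw [← Complex.add_re]
      ring_nf
    have h2 : |(conj n * (H z - H z₁)).re| ≤ e := by
      refine (Complex.abs_re_le_norm _).trans ?_
      rw [norm_mul, Complex.norm_conj, hn1, one_mul]
      exact hosc z hz z₁ hz₁D hzρ hz₁ρ
    rw [h1, hnz]
    linarith [(abs_le.mp h2).1]
  set L : Set ℂ := ball c r ∩ {y | (conj n * (y - c)).re < r - 2 * e} with hL
  have hLconv : Convex ℝ L := by
    refine (convex_ball c r).inter ?_
    intro x hx y hy a b ha hb hab
    have h1 : (conj n * (a • x + b • y - c)).re = a * (conj n * (x - c)).re + b * (conj n * (y - c)).re := by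
      have h2 : conj n * (a • x + b • y - c) = a * (conj n * (x - c)) + b * (conj n * (y - c)) := by
        have h3 : (a : ℂ) + b = 1 := by exact_mod_cast hab
        rw [Complex.real_smul, Complex.real_smul]
        linear_combination ((conj n) * c) * h3
      rw [h2, Complex.add_re, Complex.re_ofReal_mul, Complex.re_ofReal_mul]
    show (conj n * (a • x + b • y - c)).re < r - 2 * e
    rw [h1]
    have hx' : (conj n * (x - c)).re < r - 2 * e := hx
    have hy' : (conj n * (y - c)).re < r - 2 * e := hy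
    rcases ha.lt_or_eq with ha' | ha'
    · nlinarith [mul_lt_mul_of_pos_left hx' ha', mul_le_mul_of_nonneg_left hy'.le hb]
    · have hb1 : b = 1 := by linarith
      rw [← ha', hb1]
      linarith
  have hcL : c ∈ L := by
    refine ⟨mem_ball_self hr, ?_⟩
    show (conj n * (c - c)).re < r - 2 * e
    rw [sub_self, mul_zero, Complex.zero_re]
    linarith
  have hLconn : IsConnected L := ⟨⟨c, hcL⟩, hLconv.isPreconnected⟩
  have hpre := h.preimage_connected hLconn (inter_subset_left)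
  have hx₀A : x₀ ∈ ball 0 1 ∩ H ⁻¹' L := ⟨hx₀D, by show H x₀ ∈ L; rw [hx₀c]; exact hcL⟩
  have hA : ball 0 1 ∩ H ⁻¹' L ⊆ {z | ρ < dist z ζ} := by
    have hu : IsOpen {z : ℂ | dist z ζ < ρ} := isOpen_lt (by fun_prop) continuous_const
    have hv : IsOpen {z : ℂ | ρ < dist z ζ} := isOpen_lt continuous_const (by fun_prop)
    refine hpre.isPreconnected.subset_right_of_subset_union hu hv ?_ ?_ ⟨x₀, hx₀A, hρx⟩
    · rw [Set.disjoint_left]
      intro z hz1 hz2
      exact lt_asymm (show dist z ζ < ρ from hz1) hz2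
    · intro z hz
      rcases lt_trichotomy (dist z ζ) ρ with h1 | h1 | h1
      · exact Or.inl h1
      · exfalso
        have h2 := hcap z hz.1 h1
        have h3 : (conj n * (H z - c)).re < r - 2 * e := hz.2.2
        linarith
      · exact Or.inr h1
  have hnear : ∀ z ∈ D, dist z ζ < ρ → dist (H z) (c + r * n) ≤ η / 4 := by
    intro z hz hzρ
    have hHz : H z ∈ ball c r := h.maps hz
    have h1 : r - 2 * e ≤ (conj n * (H z - c)).re := by
      by_contra hlt
      push Not at hlt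
      have h2 := hA ⟨hz, hHz, hlt⟩
      exact lt_asymm hzρ h2
    have h3 : ‖H z - c‖ ≤ r := by
      rw [← dist_eq_norm]
      exact (mem_ball.mp hHz).le
    have h4 : ‖H z - (c + r * n)‖ ^ 2 = ‖H z - c‖ ^ 2 - 2 * r * (conj n * (H z - c)).re + r ^ 2 := by
      have h5 : H z - (c + r * n) = (H z - c) - r * n := by ring
      have h6 : Complex.normSq n = 1 := by rw [Complex.normSq_eq_norm_sq, hn1, one_pow]
      rw [h5, ← Complex.normSq_eq_norm_sq, ← Complex.normSq_eq_norm_sq, Complex.normSq_apply,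
        Complex.normSq_apply]
      rw [Complex.normSq_apply] at h6
      simp only [Complex.sub_re, Complex.sub_im, Complex.mul_re, Complex.mul_im, Complex.ofReal_re,
        Complex.ofReal_im, Complex.conj_re, Complex.conj_im, zero_mul, sub_zero, add_zero]
      linear_combination (r ^ 2) * h6
    have h7 : ‖H z - (c + r * n)‖ ^ 2 ≤ (η / 4) ^ 2 := by
      rw [h4]
      have h8 : ‖H z - c‖ ^ 2 ≤ r ^ 2 := pow_le_pow_left₀ (norm_nonneg _) h3 2
      nlinarith [mul_le_mul_of_nonneg_left h1 hr.le]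
    rw [dist_eq_norm]
    exact (pow_le_pow_iff_left₀ (norm_nonneg _) (by positivity) two_ne_zero).mp h7
  refine ⟨H '' (D ∩ ball ζ ρ), ?_, ?_⟩
  · exact image_mem_map (inter_mem_nhdsWithin D (ball_mem_nhds ζ hρ0))
  · rintro _ ⟨z, ⟨hz, hz'⟩, rfl⟩ _ ⟨w, ⟨hw, hw'⟩, rfl⟩
    have h1 := hnear z hz (mem_ball.mp hz')
    have h2 := hnear w hw (mem_ball.mp hw')
    rw [dist_comm] at h2
    have h3 := dist_triangle (H z) (c + r * n) (H w)
    linarith

end CF6

end

section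

set_option autoImplicit false

open MeasureTheory Metric Set Filter Topology
open scoped ContDiff ENNReal ComplexConjugate

namespace CF6

/-- BE2. Continuous extension to the closed disc.
PROOF. `Hb = extendFrom (ball 0 1) H` (`continuousOn_extendFrom`; `closure (ball 0 1) = closedBall 0 1`; at points of the ball the limit is `H z`, at the circle BE1). `Hb ζ ∈ sphere c r` for `ζ` on the circle: `H z` leaves every compact subset `closedBall c r'` (properness), so `dist (H z) c → r`.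
Surjective: `Hb '' closedBall 0 1` is compact and contains `ball c r` (fibres nonempty), hence contains `closedBall c r`; the points of `sphere c r` are not in `H '' ball 0 1 ⊆ ball c r`. -/
theorem PMap.exists_ext {c : ℂ} {r : ℝ} (hr : 0 < r) {H Hx Hy : ℂ → ℂ}
    (h : PMap (ball 0 1) (ball c r) H) (hS : Sob (ball 0 1) H Hx Hy)
    (hen : en (ball 0 1) Hx Hy < ⊤) :
    ∃ Hb : ℂ → ℂ, ContinuousOn Hb (closedBall 0 1) ∧ (∀ z ∈ ball (0 : ℂ) 1, Hb z = H z) ∧
      MapsTo Hb (sphere 0 1) (sphere c r) ∧ SurjOn Hb (sphere 0 1) (sphere c r) := by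
  have hcl : closure (ball (0 : ℂ) 1) = closedBall 0 1 := closure_ball 0 one_ne_zero
  have hcl' : closure (ball c r) = closedBall c r := closure_ball c hr.ne'
  have hball : ∀ z ∈ ball (0 : ℂ) 1, Tendsto H (𝓝[ball 0 1] z) (𝓝 (H z)) := fun z hz => h.cont z hz
  have hsph : ∀ z ∈ sphere (0 : ℂ) 1, ∃ y : ℂ, Tendsto H (𝓝[ball 0 1] z) (𝓝 y) :=
    fun z hz => h.tendsto_bdry hr hS hen hz
  have hlim : ∀ z ∈ closedBall (0 : ℂ) 1, ∃ y : ℂ, Tendsto H (𝓝[ball 0 1] z) (𝓝 y) := by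
    intro z hz
    rcases (mem_closedBall.1 hz).lt_or_eq with h1 | h1
    · exact ⟨H z, hball z (mem_ball.2 h1)⟩
    · exact hsph z (mem_sphere.2 h1)
  have hcont : ContinuousOn (extendFrom (ball (0 : ℂ) 1) H) (closedBall 0 1) :=
    continuousOn_extendFrom hcl.symm.subset hlim
  have heq : ∀ z ∈ ball (0 : ℂ) 1, extendFrom (ball (0 : ℂ) 1) H z = H z := fun z hz =>
    extendFrom_eq (subset_closure hz) (hball z hz)
  refine ⟨extendFrom (ball (0 : ℂ) 1) H, hcont, heq, ?_, ?_⟩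
  · intro ζ hζ
    have hζcl : ζ ∈ closure (ball (0 : ℂ) 1) := by
      rw [hcl]
      exact sphere_subset_closedBall hζ
    obtain ⟨y, hy⟩ := hsph ζ hζ
    rw [extendFrom_eq hζcl hy, mem_sphere]
    have : NeBot (𝓝[ball (0 : ℂ) 1] ζ) := mem_closure_iff_nhdsWithin_neBot.1 hζcl
    have hle : dist y c ≤ r := by
      refine le_of_tendsto (hy.dist tendsto_const_nhds) ?_
      filter_upwards [self_mem_nhdsWithin] with z hz
      exact (mem_ball.1 (h.maps hz)).le
    refine le_antisymm hle ?_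
    by_contra hlt
    push Not at hlt
    obtain ⟨r', hr1, hr2⟩ := exists_between hlt
    have hK : IsCompact (ball (0 : ℂ) 1 ∩ H ⁻¹' closedBall c r') :=
      h.proper _ (closedBall_subset_ball hr2) (isCompact_closedBall c r')
    have hζK : ζ ∉ ball (0 : ℂ) 1 ∩ H ⁻¹' closedBall c r' := by
      intro h1
      have h2 := mem_ball.1 h1.1
      rw [mem_sphere.1 hζ] at h2
      exact lt_irrefl _ h2
    have hev1 : ∀ᶠ z in 𝓝[ball (0 : ℂ) 1] ζ, z ∉ ball (0 : ℂ) 1 ∩ H ⁻¹' closedBall c r' :=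
      nhdsWithin_le_nhds (hK.isClosed.isOpen_compl.mem_nhds hζK)
    have hev2 : ∀ᶠ z in 𝓝[ball (0 : ℂ) 1] ζ, dist (H z) c < r' :=
      (hy.dist tendsto_const_nhds).eventually_lt_const hr1
    obtain ⟨z, ⟨h1, h2⟩, h3⟩ := ((hev1.and hev2).and self_mem_nhdsWithin).exists
    exact h1 ⟨h3, h2.le⟩
  · intro y hy
    have hcomp : IsCompact (extendFrom (ball (0 : ℂ) 1) H '' closedBall 0 1) :=
      (isCompact_closedBall (0 : ℂ) 1).image_of_continuousOn hcont
    have hsub : ball c r ⊆ extendFrom (ball (0 : ℂ) 1) H '' closedBall 0 1 := by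
      intro y' hy'
      obtain ⟨z, hz, hzy⟩ := (h.fib y' hy').nonempty
      exact ⟨z, ball_subset_closedBall hz, (heq z hz).trans hzy⟩
    have hsub' : closedBall c r ⊆ extendFrom (ball (0 : ℂ) 1) H '' closedBall 0 1 := by
      rw [← hcl']
      exact closure_minimal hsub hcomp.isClosed
    obtain ⟨z, hz, hzy⟩ := hsub' (sphere_subset_closedBall hy)
    refine ⟨z, ?_, hzy⟩
    rcases (mem_closedBall.1 hz).lt_or_eq with h1 | h1
    · exfalso
      have h2 := mem_ball.1 (h.maps (mem_ball.2 h1))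
      rw [← heq z (mem_ball.2 h1), hzy, mem_sphere.1 hy] at h2
      exact lt_irrefl _ h2
    · exact mem_sphere.2 h1

end CF6

end

section

set_option autoImplicit false

open MeasureTheory Metric Set Filter Topology
open scoped ContDiff ENNReal ComplexConjugate

namespace CF6

theorem po1_kernel {w : ℂ} (hw : w ∈ ball (0 : ℂ) 1) :
    ContinuousOn (poissonKernel 0 w) (sphere 0 1) := by
  rw [poissonKernel_eq_re_herglotzRieszKernel]
  have h1 := continuousOn_herglotzRieszKernel_sphere (c := 0) (R := 1) hw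
  rw [abs_one] at h1
  exact Complex.continuous_re.comp_continuousOn h1

theorem po1_int {E : Type*} [NormedAddCommGroup E] [NormedSpace ℝ E] {b : ℂ → E}
    (hb : ContinuousOn b (sphere 0 1)) {w : ℂ} (hw : w ∈ ball (0 : ℂ) 1) :
    CircleIntegrable (fun z => poissonKernel 0 w z • b z) 0 1 :=
  ((po1_kernel hw).smul hb).circleIntegrable zero_le_one

theorem po1_clm {E F : Type*} [NormedAddCommGroup E] [NormedSpace ℝ E] [CompleteSpace E]
    [NormedAddCommGroup F] [NormedSpace ℝ F] [CompleteSpace F] {b : ℂ → E} (hb : ContinuousOn b (sphere 0 1))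
    {w : ℂ} (hw : w ∈ ball (0 : ℂ) 1) (L : E →L[ℝ] F) :
    L (poi b w) = poi (fun z => L (b z)) w := by
  unfold poi
  rw [← L.circleAverage_comp_comm (po1_int hb hw)]
  congr 1
  funext z
  simp

/-- PO1. The Poisson integral of a real function is the real part of a holomorphic function.
PROOF. `G w = circleAverage (fun z => herglotzRieszKernel 0 w z • (b z : ℂ)) 0 1` (Mathlib: `hasDerivAt_circleAverage_herglotzRieszKernel_smul`,
`poissonKernel_eq_re_herglotzRieszKernel`); `deriv G 0 = circleAverage (2 z / z ^ 2 * b z)`; `2 z / z ^ 2 = 2 / z` on the circle. -/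
theorem poi_eq_re {b : ℂ → ℝ} (hb : ContinuousOn b (sphere 0 1)) :
    ∃ G : ℂ → ℂ, DifferentiableOn ℂ G (ball 0 1) ∧ (∀ w ∈ ball (0 : ℂ) 1, poi b w = (G w).re) ∧
      deriv G 0 = Real.circleAverage (fun z => 2 / z * (b z : ℂ)) 0 1 := by
  have hbI : CircleIntegrable b 0 1 := hb.circleIntegrable zero_le_one
  have hbc : ContinuousOn (fun z => (b z : ℂ)) (sphere 0 1) :=
    Complex.continuous_ofReal.comp_continuousOn hb
  have hbI2 : CircleIntegrable (fun z => (b z : ℂ)) 0 1 := hbc.circleIntegrable zero_le_one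
  refine ⟨fun w => Real.circleAverage (fun ζ => herglotzRieszKernel 0 w ζ • (b ζ : ℂ)) 0 1,
    differentiableOn_circleAverage_herglotzRieszKernel_smul hbI2, ?_, ?_⟩
  · intro w hw
    rw [re_circleAverage_herglotzRieszKernel_smul hbI hw]
    unfold poi
    rw [poissonKernel_eq_re_herglotzRieszKernel]
    rfl
  · have h0 : (0 : ℂ) ∈ ball (0 : ℂ) 1 := by simp
    rw [(hasDerivAt_circleAverage_herglotzRieszKernel_smul hbI2 h0).deriv]
    refine Real.circleAverage_congr_sphere ?_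
    intro z hz
    rw [abs_one] at hz
    have hz0 : z ≠ 0 := by
      rintro rfl
      simp at hz
    simp only [sub_zero, smul_eq_mul]
    field_simp

/-- PO1b. components. -/
theorem poi_re {b : ℂ → ℂ} (hb : ContinuousOn b (sphere 0 1)) {w : ℂ} (hw : w ∈ ball (0 : ℂ) 1) :
    (poi b w).re = poi (fun z => (b z).re) w ∧ (poi b w).im = poi (fun z => (b z).im) w :=
  ⟨po1_clm hb hw Complex.reCLM, po1_clm hb hw Complex.imCLM⟩

/-- PO1c. linearity in the form needed later: `Re (conj ν * poi b w) = poi (Re (conj ν * b)) w`. -/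
theorem poi_lin {b : ℂ → ℂ} (hb : ContinuousOn b (sphere 0 1)) (ν : ℂ) {w : ℂ} (hw : w ∈ ball (0 : ℂ) 1) :
    (conj ν * poi b w).re = poi (fun z => (conj ν * b z).re) w :=
  po1_clm hb hw (Complex.reCLM.comp (ContinuousLinearMap.mul ℝ ℂ (conj ν)))

/-- PO1d. smoothness -/
theorem poi_contDiffOn {b : ℂ → ℂ} (hb : ContinuousOn b (sphere 0 1)) :
    ContDiffOn ℝ ∞ (poi b) (ball 0 1) := by
  obtain ⟨G1, hG1, e1, _⟩ := poi_eq_re (b := fun z => (b z).re)
    (Complex.continuous_re.comp_continuousOn hb)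
  obtain ⟨G2, hG2, e2, _⟩ := poi_eq_re (b := fun z => (b z).im)
    (Complex.continuous_im.comp_continuousOn hb)
  have c1 : ContDiffOn ℝ ∞ G1 (ball 0 1) :=
    (hG1.contDiffOn isOpen_ball).restrict_scalars ℝ
  have c2 : ContDiffOn ℝ ∞ G2 (ball 0 1) :=
    (hG2.contDiffOn isOpen_ball).restrict_scalars ℝ
  have r1 : ContDiffOn ℝ ∞ (fun w => (((G1 w).re : ℝ) : ℂ)) (ball 0 1) :=
    Complex.ofRealCLM.contDiff.comp_contDiffOn (Complex.reCLM.contDiff.comp_contDiffOn c1)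
  have r2 : ContDiffOn ℝ ∞ (fun w => (((G2 w).re : ℝ) : ℂ)) (ball 0 1) :=
    Complex.ofRealCLM.contDiff.comp_contDiffOn (Complex.reCLM.contDiff.comp_contDiffOn c2)
  have r3 : ContDiffOn ℝ ∞ (fun w => (((G1 w).re : ℝ) : ℂ) + (((G2 w).re : ℝ) : ℂ) * Complex.I)
      (ball 0 1) := r1.add (r2.mul contDiffOn_const)
  refine r3.congr ?_
  intro w hw
  rw [← e1 w hw, ← e2 w hw, ← (poi_re hb hw).1, ← (poi_re hb hw).2, Complex.re_add_im]

end CF6

end

section

set_option autoImplicit false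

open MeasureTheory Metric Set Filter Topology
open scoped ContDiff ENNReal ComplexConjugate

namespace CF6

private theorem po2_pk {w z : ℂ} (hz : z ∈ sphere (0 : ℂ) 1) :
    poissonKernel 0 w z = (1 - ‖w‖ ^ 2) / ‖z - w‖ ^ 2 := by
  rw [poissonKernel_def, sub_zero, sub_zero, mem_sphere_zero_iff_norm.1 hz, one_pow]

private theorem po2_ne {w z : ℂ} (hw : w ∈ ball (0 : ℂ) 1) (hz : z ∈ sphere (0 : ℂ) 1) :
    0 < ‖z - w‖ := by
  rw [norm_pos_iff, sub_ne_zero]
  rintro rfl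
  rw [mem_ball_zero_iff] at hw
  rw [mem_sphere_zero_iff_norm] at hz
  linarith

private theorem po2_pos {w z : ℂ} (hw : w ∈ ball (0 : ℂ) 1) (hz : z ∈ sphere (0 : ℂ) 1) :
    0 < poissonKernel 0 w z := by
  rw [po2_pk hz]
  have h1 := po2_ne hw hz
  rw [mem_ball_zero_iff] at hw
  have h2 : 0 < 1 - ‖w‖ ^ 2 := by nlinarith [norm_nonneg w]
  positivity

private theorem po2_cont {w : ℂ} (hw : w ∈ ball (0 : ℂ) 1) :
    ContinuousOn (fun z => poissonKernel 0 w z) (sphere (0 : ℂ) 1) := by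
  have h1 : ContinuousOn (fun z : ℂ => (1 - ‖w‖ ^ 2) / ‖z - w‖ ^ 2) (sphere (0 : ℂ) 1) := by
    refine ContinuousOn.div continuousOn_const (by fun_prop) fun z hz => ?_
    exact (pow_pos (po2_ne hw hz) 2).ne'
  exact h1.congr fun z hz => po2_pk hz

/-- circle integrability from continuity on the unit circle -/
private theorem po2_ci {E : Type*} [NormedAddCommGroup E] {f : ℂ → E}
    (hf : ContinuousOn f (sphere (0 : ℂ) 1)) : CircleIntegrable f 0 1 :=
  hf.circleIntegrable zero_le_one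

private theorem po2_const {w : ℂ} (hw : w ∈ ball (0 : ℂ) 1) (a : ℂ) :
    Real.circleAverage (fun z => poissonKernel 0 w z • a) 0 1 = a :=
  DiffContOnCl.circleAverage_poissonKernel_smul (f := fun _ => a) diffContOnCl_const hw

private theorem po2_constR {w : ℂ} (hw : w ∈ ball (0 : ℂ) 1) (a : ℝ) :
    Real.circleAverage (fun z => poissonKernel 0 w z * a) 0 1 = a := by
  have h1 := po2_const hw (a : ℂ)
  have h2 := ContinuousLinearMap.circleAverage_comp_comm (c := 0) (R := 1) Complex.reCLM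
    (f := fun z => poissonKernel 0 w z • (a : ℂ))
    (po2_ci ((po2_cont hw).smul continuousOn_const))
  rw [h1] at h2
  have h3 : (Complex.reCLM ∘ fun z => poissonKernel 0 w z • (a : ℂ)) =
      fun z => poissonKernel 0 w z * a := by
    funext z
    simp
  rw [h3] at h2
  rw [h2]
  simp

private theorem po2_norm {f : ℂ → ℂ} :
    ‖Real.circleAverage f 0 1‖ ≤ Real.circleAverage (fun z => ‖f z‖) 0 1 := by
  rw [Real.circleAverage, Real.circleAverage, norm_smul, smul_eq_mul]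
  have h1 : ‖(2 * Real.pi)⁻¹‖ = (2 * Real.pi)⁻¹ := by
    rw [Real.norm_eq_abs, abs_of_pos (by positivity)]
  rw [h1]
  exact mul_le_mul_of_nonneg_left
    (intervalIntegral.norm_integral_le_integral_norm (by positivity)) (by positivity)

/-- PO2. Boundary values of the Poisson integral.
PROOF. `circleAverage (poissonKernel 0 w) 0 1 = 1` (Poisson formula for the constant `1`, `HarmonicContOnCl.circleAverage_poissonKernel_smul` or `DiffContOnCl...`), `poissonKernel 0 w z = (1 - ‖w‖²)/‖z - w‖² ≥ 0` on the unit circle.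
Given `η`, let `δ` be such that `‖b z - b ζ‖ ≤ η` for `z` on the circle, `‖z - ζ‖ ≤ δ`; for `‖w - ζ‖ < δ/2` the kernel is `≤ 4 (1 - ‖w‖²)/δ²` where `‖z - ζ‖ ≥ δ`. So `‖poi b w - b ζ‖ ≤ η + 2 M 4 (1 - ‖w‖²)/δ²`. -/
theorem poi_tendsto {b : ℂ → ℂ} (hb : ContinuousOn b (sphere 0 1)) {ζ : ℂ}
    (hζ : ζ ∈ sphere (0 : ℂ) 1) : Tendsto (poi b) (𝓝[ball 0 1] ζ) (𝓝 (b ζ)) := by
  rw [Metric.tendsto_nhds]
  intro η hη
  obtain ⟨M, hM⟩ := (isCompact_sphere (0 : ℂ) 1).exists_bound_of_continuousOn hb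
  have hM0 : 0 ≤ M := (norm_nonneg _).trans (hM ζ hζ)
  obtain ⟨δ, hδ, hδ2⟩ := Metric.continuousWithinAt_iff.1 (hb ζ hζ) (η / 2) (by positivity)
  have hζ1 : ‖ζ‖ = 1 := mem_sphere_zero_iff_norm.1 hζ
  -- the error term
  have hlim : Tendsto (fun w : ℂ => 8 * M * (1 - ‖w‖ ^ 2) / δ ^ 2) (𝓝[ball 0 1] ζ) (𝓝 0) := by
    have h1 : Continuous fun w : ℂ => 8 * M * (1 - ‖w‖ ^ 2) / δ ^ 2 := by fun_prop
    have h2 := h1.tendsto ζ
    rw [hζ1] at h2
    simp only [one_pow, sub_self, mul_zero, zero_div] at h2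
    exact h2.mono_left nhdsWithin_le_nhds
  have e1 : ∀ᶠ w in 𝓝[ball 0 1] ζ, 8 * M * (1 - ‖w‖ ^ 2) / δ ^ 2 < η / 2 :=
    hlim.eventually (gt_mem_nhds (by positivity))
  have e2 : ∀ᶠ w in 𝓝[ball 0 1] ζ, dist w ζ < δ / 2 :=
    nhdsWithin_le_nhds (ball_mem_nhds ζ (by positivity))
  have e3 : ∀ᶠ w in 𝓝[ball 0 1] ζ, w ∈ ball (0 : ℂ) 1 := eventually_mem_nhdsWithin
  filter_upwards [e1, e2, e3] with w h1 h2 hw
  have hw1 : ‖w‖ < 1 := mem_ball_zero_iff.1 hw
  have hw2 : 0 ≤ 1 - ‖w‖ ^ 2 := by nlinarith [norm_nonneg w]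
  have hpc := po2_cont hw
  have hsub : poi b w - b ζ =
      Real.circleAverage (fun z => poissonKernel 0 w z • (b z - b ζ)) 0 1 := by
    have h3 := Real.circleAverage_fun_sub (c := 0) (R := 1)
      (f₁ := fun z => poissonKernel 0 w z • b z) (f₂ := fun z => poissonKernel 0 w z • b ζ)
      (po2_ci (hpc.smul hb)) (po2_ci (hpc.smul continuousOn_const))
    rw [po2_const hw (b ζ)] at h3
    rw [poi, ← h3]
    congr 1
    funext z
    rw [smul_sub]
  rw [dist_eq_norm, hsub]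
  have hbs : ContinuousOn (fun z => poissonKernel 0 w z • (b z - b ζ)) (sphere (0 : ℂ) 1) :=
    hpc.smul (hb.sub continuousOn_const)
  have hpt : ∀ z ∈ sphere (0 : ℂ) |1|, ‖poissonKernel 0 w z • (b z - b ζ)‖ ≤
      poissonKernel 0 w z * (η / 2) + 8 * M * (1 - ‖w‖ ^ 2) / δ ^ 2 := by
    intro z hz
    rw [abs_one] at hz
    have hp := po2_pos hw hz
    rw [norm_smul, Real.norm_eq_abs, abs_of_pos hp]
    have herr : 0 ≤ 8 * M * (1 - ‖w‖ ^ 2) / δ ^ 2 := by positivity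
    by_cases hzζ : dist z ζ < δ
    · have h4 := hδ2 hz hzζ
      rw [dist_eq_norm] at h4
      have h5 : poissonKernel 0 w z * ‖b z - b ζ‖ ≤ poissonKernel 0 w z * (η / 2) :=
        mul_le_mul_of_nonneg_left h4.le hp.le
      linarith
    · rw [not_lt] at hzζ
      have h4 : δ / 2 ≤ ‖z - w‖ := by
        have h5 := dist_triangle z w ζ
        rw [dist_eq_norm z w] at h5
        linarith
      have h5 : poissonKernel 0 w z ≤ 4 * (1 - ‖w‖ ^ 2) / δ ^ 2 := by
        rw [po2_pk hz]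
        rw [div_le_div_iff₀ (pow_pos (po2_ne hw hz) 2) (by positivity)]
        have h6 : δ ^ 2 ≤ 4 * ‖z - w‖ ^ 2 := by nlinarith
        nlinarith
      have h6 : ‖b z - b ζ‖ ≤ 2 * M := by
        have h7 := norm_sub_le (b z) (b ζ)
        have h8 := hM z hz
        have h9 := hM ζ hζ
        linarith
      have h7 : poissonKernel 0 w z * ‖b z - b ζ‖ ≤ 4 * (1 - ‖w‖ ^ 2) / δ ^ 2 * (2 * M) :=
        mul_le_mul h5 h6 (norm_nonneg _) (by positivity)
      have h8 : 4 * (1 - ‖w‖ ^ 2) / δ ^ 2 * (2 * M) = 8 * M * (1 - ‖w‖ ^ 2) / δ ^ 2 := by ring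
      have h9 : 0 ≤ poissonKernel 0 w z * (η / 2) := by positivity
      linarith
  have hci1 : CircleIntegrable (fun z => ‖poissonKernel 0 w z • (b z - b ζ)‖) 0 1 :=
    po2_ci hbs.norm
  have hcp : ContinuousOn (fun z => poissonKernel 0 w z * (η / 2)) (sphere (0 : ℂ) 1) :=
    hpc.mul continuousOn_const
  have hci2 : CircleIntegrable (fun z => poissonKernel 0 w z * (η / 2) +
      8 * M * (1 - ‖w‖ ^ 2) / δ ^ 2) 0 1 := po2_ci (hcp.add continuousOn_const)
  have h3 := Real.circleAverage_mono hci1 hci2 hpt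
  have h4 : Real.circleAverage (fun z => poissonKernel 0 w z * (η / 2) +
      8 * M * (1 - ‖w‖ ^ 2) / δ ^ 2) 0 1 = η / 2 + 8 * M * (1 - ‖w‖ ^ 2) / δ ^ 2 := by
    rw [Real.circleAverage_fun_add (po2_ci hcp) (po2_ci continuousOn_const), po2_constR hw,
      Real.circleAverage_const]
  rw [h4] at h3
  have h5 := po2_norm (f := fun z => poissonKernel 0 w z • (b z - b ζ))
  linarith

open Classical in
/-- PO2b. -/
theorem poi_continuousOn {b : ℂ → ℂ} (hb : ContinuousOn b (sphere 0 1)) :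
    ContinuousOn ((ball (0 : ℂ) 1).piecewise (poi b) b) (closedBall 0 1) := by
  intro x hx
  by_cases hxb : x ∈ ball (0 : ℂ) 1
  · have h1 : ContinuousAt (poi b) x :=
      (poi_contDiffOn hb).continuousOn.continuousAt (isOpen_ball.mem_nhds hxb)
    have h2 : (ball (0 : ℂ) 1).piecewise (poi b) b =ᶠ[𝓝 x] poi b := by
      filter_upwards [isOpen_ball.mem_nhds hxb] with y hy
      exact Set.piecewise_eq_of_mem _ _ _ hy
    exact (h1.congr h2.symm).continuousWithinAt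
  · have hxs : x ∈ sphere (0 : ℂ) 1 := by
      rw [mem_sphere_zero_iff_norm]
      rw [mem_closedBall_zero_iff] at hx
      rw [mem_ball_zero_iff, not_lt] at hxb
      exact le_antisymm hx hxb
    rw [ContinuousWithinAt, Set.piecewise_eq_of_notMem _ _ _ hxb, ← ball_union_sphere,
      nhdsWithin_union]
    refine Tendsto.sup ?_ ?_
    · refine (poi_tendsto hb hxs).congr' ?_
      filter_upwards [self_mem_nhdsWithin] with y hy
      exact (Set.piecewise_eq_of_mem _ _ _ hy).symm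
    · refine Tendsto.congr' ?_ (hb x hxs)
      filter_upwards [self_mem_nhdsWithin] with y hy
      have hyb : y ∉ ball (0 : ℂ) 1 := by
        rw [mem_ball_zero_iff, mem_sphere_zero_iff_norm.1 hy]
        exact lt_irrefl _
      exact (Set.piecewise_eq_of_notMem _ _ _ hyb).symm

/-- the average of a nonnegative continuous function which is positive somewhere is positive -/
private theorem po2_avg_pos {f : ℂ → ℝ} (hf : ContinuousOn f (sphere (0 : ℂ) 1))
    (h0 : ∀ z ∈ sphere (0 : ℂ) 1, 0 ≤ f z) (h1 : ∃ z ∈ sphere (0 : ℂ) 1, 0 < f z) :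
    0 < Real.circleAverage f 0 1 := by
  rw [Real.circleAverage, smul_eq_mul]
  refine mul_pos (by positivity) ?_
  have hmem : ∀ θ : ℝ, circleMap (0 : ℂ) 1 θ ∈ sphere (0 : ℂ) 1 := fun θ =>
    circleMap_mem_sphere 0 zero_le_one θ
  refine intervalIntegral.integral_pos (by positivity) ?_ (fun θ _ => h0 _ (hmem θ)) ?_
  · exact hf.comp (continuous_circleMap 0 1).continuousOn (fun θ _ => hmem θ)
  · obtain ⟨z, hz, hz2⟩ := h1
    have h2 : z ∈ circleMap (0 : ℂ) 1 '' Ioc 0 (2 * Real.pi) := by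
      rw [image_circleMap_Ioc, abs_one]
      exact hz
    obtain ⟨θ, hθ, rfl⟩ := h2
    exact ⟨θ, Ioc_subset_Icc_self hθ, hz2⟩

/-- a vector of norm `r` with component `r` in the direction of the unit vector `n` is `r n` -/
private theorem po2_eq {n v : ℂ} {r : ℝ} (hn : ‖n‖ = 1) (hv : ‖v‖ = r)
    (h : (conj n * v).re = r) : v = r * n := by
  have h1 : ‖conj n * v‖ = r := by
    rw [norm_mul, RCLike.norm_conj, hn, one_mul, hv]
  have h2 : conj n * v = r := by
    have h3 : (conj n * v).re ^ 2 + (conj n * v).im ^ 2 = r ^ 2 := by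
      rw [← h1, Complex.sq_norm, Complex.normSq_apply]
      ring
    rw [h] at h3
    have h4 : (conj n * v).im = 0 := by
      have h5 : (conj n * v).im ^ 2 = 0 := by linarith
      exact pow_eq_zero_iff (two_ne_zero) |>.1 h5
    apply Complex.ext
    · rw [h, Complex.ofReal_re]
    · rw [h4, Complex.ofReal_im]
  have h3 : n * conj n = 1 := by
    rw [Complex.mul_conj, Complex.normSq_eq_norm_sq, hn]
    simp
  calc v = (n * conj n) * v := by rw [h3, one_mul]
    _ = (conj n * v) * n := by ring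
    _ = r * n := by rw [h2]

/-- PO2c. If `b` has values in the sphere `sphere c r` and takes two different values then `poi b` has values in the open ball.
PROOF. Otherwise, for some `w` and a unit vector `n`, `(conj n * (poi b w - c)).re ≥ r`, so the average of the nonnegative continuous function `P (r - (conj n (b - c)).re)` is `≤ 0`, hence `(conj n (b - c)).re = r` on the circle, `b = c + r n` constant. -/
theorem poi_mem_ball {b : ℂ → ℂ} {c : ℂ} {r : ℝ} (hb : ContinuousOn b (sphere 0 1)) (hm : MapsTo b (sphere 0 1) (sphere c r))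
    (hn : ∃ z ∈ sphere (0 : ℂ) 1, ∃ z' ∈ sphere (0 : ℂ) 1, b z ≠ b z') {w : ℂ} (hw : w ∈ ball (0 : ℂ) 1) :
    poi b w ∈ ball c r := by
  obtain ⟨z1, hz1, z2, hz2, hne⟩ := hn
  have hbr : ∀ z ∈ sphere (0 : ℂ) 1, ‖b z - c‖ = r := fun z hz => by
    have := hm hz
    rwa [mem_sphere, dist_eq_norm] at this
  have hr0 : 0 ≤ r := by
    rw [← hbr z1 hz1]
    exact norm_nonneg _
  have hr : 0 < r := by
    refine lt_of_le_of_ne hr0 fun h0 => hne ?_
    have h1 := hbr z1 hz1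
    have h2 := hbr z2 hz2
    rw [← h0, norm_eq_zero, sub_eq_zero] at h1 h2
    rw [h1, h2]
  rw [mem_ball, dist_eq_norm]
  by_contra hge
  rw [not_lt] at hge
  set v : ℂ := poi b w - c with hv
  have hvpos : 0 < ‖v‖ := hr.trans_le hge
  set n : ℂ := v / ‖v‖ with hndef
  have hn1 : ‖n‖ = 1 := by
    rw [hndef, norm_div, Complex.norm_real, norm_norm, div_self hvpos.ne']
  have hnv : (conj n * v).re = ‖v‖ := by
    have h1 : conj n * v = (‖v‖ : ℂ) := by
      have h2 : conj n = conj v / ‖v‖ := by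
        rw [hndef, map_div₀, Complex.conj_ofReal]
      rw [h2, div_mul_eq_mul_div, mul_comm (conj v) v, Complex.mul_conj, Complex.normSq_eq_norm_sq]
      have h3 : (‖v‖ : ℂ) ≠ 0 := by exact_mod_cast hvpos.ne'
      push_cast
      field_simp
    rw [h1, Complex.ofReal_re]
  have hlin := poi_lin hb n hw
  have hpc := po2_cont hw
  have hcb : ContinuousOn (fun z => (conj n * b z).re) (sphere (0 : ℂ) 1) :=
    Complex.continuous_re.comp_continuousOn (continuousOn_const.mul hb)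
  have hc1 : ContinuousOn (fun z => poissonKernel 0 w z * (conj n * b z).re) (sphere (0 : ℂ) 1) :=
    hpc.mul hcb
  have hc2 : ContinuousOn (fun z => poissonKernel 0 w z * (r + (conj n * c).re)) (sphere (0 : ℂ) 1) :=
    hpc.mul continuousOn_const
  have havg : Real.circleAverage (fun z => poissonKernel 0 w z * (r + (conj n * c).re) -
      poissonKernel 0 w z * (conj n * b z).re) 0 1 = r - ‖v‖ := by
    rw [Real.circleAverage_fun_sub (po2_ci hc2) (po2_ci hc1), po2_constR hw]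
    have h1 : Real.circleAverage (fun z => poissonKernel 0 w z * (conj n * b z).re) 0 1 =
        (conj n * poi b w).re := by
      rw [hlin, poi]
      rfl
    rw [h1, ← hnv, hv, mul_sub, Complex.sub_re]
    ring
  have hpos : 0 < Real.circleAverage (fun z => poissonKernel 0 w z * (r + (conj n * c).re) -
      poissonKernel 0 w z * (conj n * b z).re) 0 1 := by
    have hform : ∀ z, poissonKernel 0 w z * (r + (conj n * c).re) -
        poissonKernel 0 w z * (conj n * b z).re =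
          poissonKernel 0 w z * (r - (conj n * (b z - c)).re) := by
      intro z
      have h1 : (conj n * (b z - c)).re = (conj n * b z).re - (conj n * c).re := by
        rw [mul_sub, Complex.sub_re]
      rw [h1]
      ring
    have hle : ∀ z ∈ sphere (0 : ℂ) 1, (conj n * (b z - c)).re ≤ r := by
      intro z hz
      refine (Complex.re_le_norm _).trans ?_
      rw [norm_mul, RCLike.norm_conj, hn1, one_mul, hbr z hz]
    refine po2_avg_pos (hc2.sub hc1) (fun z hz => ?_) ?_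
    · rw [hform]
      exact mul_nonneg (po2_pos hw hz).le (by linarith [hle z hz])
    · by_contra hno
      push Not at hno
      have hconst : ∀ z ∈ sphere (0 : ℂ) 1, b z - c = r * n := by
        intro z hz
        have h1 := hno z hz
        rw [hform] at h1
        have h2 := po2_pos hw hz
        have h3 : r - (conj n * (b z - c)).re ≤ 0 := by
          by_contra h4
          rw [not_le] at h4
          exact absurd h1 (not_le.2 (mul_pos h2 h4))
        exact po2_eq hn1 (hbr z hz) (le_antisymm (hle z hz) (by linarith))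
      apply hne
      have h1 := hconst z1 hz1
      have h2 := hconst z2 hz2
      rw [← h2] at h1
      exact sub_left_injective h1
  rw [havg] at hpos
  linarith

end CF6

end

section

set_option autoImplicit false

open MeasureTheory Metric Set Filter Topology
open scoped ContDiff ENNReal ComplexConjugate

namespace CF6

/-- shift of the interval of integration -/
theorem rk1_shift {f : ℝ → ℝ} (hper : ∀ t, f (t + 2 * Real.pi) = f t) (a : ℝ) :
    ∫ t in a..(a + 2 * Real.pi), f t = ∫ t in (0 : ℝ)..(2 * Real.pi), f t := by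
  have h : Function.Periodic f (2 * Real.pi) := hper
  have := h.intervalIntegral_add_eq a 0
  rwa [zero_add] at this

theorem rk1_l (p q t : ℝ) : Real.sin ((t - p) / 2) * Real.sin ((q - t) / 2) =
    (Real.cos t * Real.cos ((p + q) / 2) + Real.sin t * Real.sin ((p + q) / 2)
      - Real.cos ((q - p) / 2)) / 2 := by
  have h1 : Real.cos (t - (p + q) / 2) = Real.cos t * Real.cos ((p + q) / 2) +
      Real.sin t * Real.sin ((p + q) / 2) := Real.cos_sub _ _
  rw [← h1]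
  have h2 : t - (p + q) / 2 = (t - p) / 2 - (q - t) / 2 := by ring
  have h3 : (q - p) / 2 = (t - p) / 2 + (q - t) / 2 := by ring
  rw [h2, h3, Real.cos_sub, Real.cos_add]
  ring

/-- RK1. A continuous `2π`-periodic function, orthogonal to `1`, `cos`, `sin`, with at most two sign changes, is `0`. -/
theorem sign_lemma {φ : ℝ → ℝ} (hφ : Continuous φ) (hper : ∀ t, φ (t + 2 * Real.pi) = φ t)
    (h1 : ∫ t in (0 : ℝ)..(2 * Real.pi), φ t = 0)
    (hc : ∫ t in (0 : ℝ)..(2 * Real.pi), φ t * Real.cos t = 0)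
    (hs : ∫ t in (0 : ℝ)..(2 * Real.pi), φ t * Real.sin t = 0)
    (halt : ∀ θ₁ θ₂ θ₃ θ₄ : ℝ, θ₁ < θ₂ → θ₂ < θ₃ → θ₃ < θ₄ → θ₄ < θ₁ + 2 * Real.pi →
      0 < φ θ₁ → φ θ₂ < 0 → 0 < φ θ₃ → φ θ₄ < 0 → False) : ∀ t, φ t = 0 := by
  by_contra hcon
  push Not at hcon
  obtain ⟨t0, ht0⟩ := hcon
  have hpi : 0 < 2 * Real.pi := by positivity
  -- a negative value
  obtain ⟨a, ha⟩ : ∃ a, φ a < 0 := by
    by_contra h
    push Not at h
    have hp : 0 < φ t0 := lt_of_le_of_ne (h t0) (Ne.symm ht0)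
    have := intervalIntegral.integral_pos (a := t0) (b := t0 + 2 * Real.pi) (f := φ) (by linarith)
      hφ.continuousOn (fun x _ => h x) ⟨t0, ⟨le_rfl, by linarith⟩, hp⟩
    rw [rk1_shift hper t0, h1] at this
    exact lt_irrefl _ this
  set b := a + 2 * Real.pi with hb
  have hφb : φ b < 0 := by rw [hb, hper]; exact ha
  have hab : a < b := by linarith
  obtain ⟨x0, hx0, hx0p⟩ : ∃ x ∈ Ioo a b, 0 < φ x := by
    by_contra h
    push Not at h
    have hle : ∀ x ∈ Ioc a b, 0 ≤ -φ x := by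
      intro x hx
      rcases hx.2.lt_or_eq with h2 | h2
      · linarith [h x ⟨hx.1, h2⟩]
      · rw [h2]; linarith
    have := intervalIntegral.integral_pos (a := a) (b := b) (f := fun x => -φ x) hab
      hφ.neg.continuousOn hle ⟨a, ⟨le_rfl, hab.le⟩, by simpa using ha⟩
    rw [intervalIntegral.integral_neg, hb, rk1_shift hper a, h1] at this
    simp at this
  set A : Set ℝ := {t | t ∈ Ioo a b ∧ 0 < φ t} with hA
  have hAne : A.Nonempty := ⟨x0, hx0, hx0p⟩
  have hAbb : BddBelow A := ⟨a, fun t ht => ht.1.1.le⟩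
  have hAba : BddAbove A := ⟨b, fun t ht => ht.1.2.le⟩
  set p := sInf A with hp
  set q := sSup A with hq
  have hap : a ≤ p := le_csInf hAne fun t ht => ht.1.1.le
  have hqb : q ≤ b := csSup_le hAne fun t ht => ht.1.2.le
  have hAo : IsOpen A := isOpen_Ioo.inter (isOpen_lt continuous_const hφ)
  obtain ⟨e, he, heA⟩ := Metric.isOpen_iff.1 hAo x0 ⟨hx0, hx0p⟩
  have hpx : p < x0 := by
    have : x0 - e / 2 ∈ A := heA (by rw [Metric.mem_ball, Real.dist_eq, abs_lt]; constructor <;> linarith)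
    have := csInf_le hAbb this
    linarith
  have hxq : x0 < q := by
    have : x0 + e / 2 ∈ A := heA (by rw [Metric.mem_ball, Real.dist_eq, abs_lt]; constructor <;> linarith)
    have := le_csSup hAba this
    linarith
  have hlow : ∀ t, a < t → t < b → t < p → φ t ≤ 0 := by
    intro t h2 h3 h4
    by_contra h5
    push Not at h5
    have := csInf_le hAbb (show t ∈ A from ⟨⟨h2, h3⟩, h5⟩)
    linarith
  have hhigh : ∀ t, a < t → t < b → q < t → φ t ≤ 0 := by
    intro t h2 h3 h4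
    by_contra h5
    push Not at h5
    have := le_csSup hAba (show t ∈ A from ⟨⟨h2, h3⟩, h5⟩)
    linarith
  have hmid : ∀ t, p < t → t < q → 0 ≤ φ t := by
    intro t h2 h3
    by_contra h5
    push Not at h5
    obtain ⟨a1, ha1, h6⟩ := exists_lt_of_csInf_lt hAne h2
    obtain ⟨a2, ha2, h7⟩ := exists_lt_of_lt_csSup hAne h3
    exact halt a1 t a2 b h6 h7 ha2.1.2 (by linarith [ha1.1.1]) ha1.2 h5 ha2.2 hφb
  -- the trigonometric factor
  set L : ℝ → ℝ := fun t => Real.sin ((t - p) / 2) * Real.sin ((q - t) / 2) with hL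
  have hLpos : ∀ t, p < t → t < q → 0 < L t := by
    intro t h2 h3
    apply mul_pos
    · apply Real.sin_pos_of_pos_of_lt_pi
      · linarith
      · linarith
    · apply Real.sin_pos_of_pos_of_lt_pi
      · linarith
      · linarith
  have hLlow : ∀ t, a < t → t < p → L t ≤ 0 := by
    intro t h2 h3
    apply mul_nonpos_of_nonpos_of_nonneg
    · have : 0 ≤ Real.sin (-((t - p) / 2)) := by
        apply Real.sin_nonneg_of_nonneg_of_le_pi
        · linarith
        · linarith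
      rw [Real.sin_neg] at this
      linarith
    · apply Real.sin_nonneg_of_nonneg_of_le_pi
      · linarith
      · linarith
  have hLhigh : ∀ t, t ≤ b → q < t → L t ≤ 0 := by
    intro t h2 h3
    apply mul_nonpos_of_nonneg_of_nonpos
    · apply Real.sin_nonneg_of_nonneg_of_le_pi
      · linarith
      · linarith
    · have : 0 ≤ Real.sin (-((q - t) / 2)) := by
        apply Real.sin_nonneg_of_nonneg_of_le_pi
        · linarith
        · linarith
      rw [Real.sin_neg] at this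
      linarith
  have hLp : L p = 0 := by simp [hL]
  have hLq : L q = 0 := by simp [hL]
  have hnn : ∀ t ∈ Ioc a b, 0 ≤ φ t * L t := by
    intro t ht
    rcases lt_trichotomy t p with h2 | h2 | h2
    · exact mul_nonneg_of_nonpos_of_nonpos (hlow t ht.1 (by linarith) h2) (hLlow t ht.1 h2)
    · rw [h2, hLp, mul_zero]
    · rcases lt_trichotomy t q with h3 | h3 | h3
      · exact mul_nonneg (hmid t h2 h3) (hLpos t h2 h3).le
      · rw [h3, hLq, mul_zero]
      · have h4 : φ t ≤ 0 := by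
          rcases ht.2.lt_or_eq with h5 | h5
          · exact hhigh t ht.1 h5 h3
          · rw [h5]; exact hφb.le
        exact mul_nonneg_of_nonpos_of_nonpos h4 (hLhigh t ht.2 h3)
  have hLc : Continuous L := by
    simp only [hL]
    fun_prop
  have hpos := intervalIntegral.integral_pos (a := a) (b := b) (f := fun x => φ x * L x) hab
      (hφ.mul hLc).continuousOn hnn ⟨x0, ⟨hx0.1.le, hx0.2.le⟩, mul_pos hx0p (hLpos x0 hpx hxq)⟩
  have hzero : ∫ x in a..b, φ x * L x = 0 := by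
    have e1 : ∀ x, φ x * L x = (Real.cos ((p + q) / 2) / 2) * (φ x * Real.cos x) +
        (Real.sin ((p + q) / 2) / 2) * (φ x * Real.sin x) - (Real.cos ((q - p) / 2) / 2) * φ x := by
      intro x
      rw [hL]
      simp only
      rw [rk1_l]
      ring
    simp_rw [e1]
    rw [hb, rk1_shift (f := fun x => (Real.cos ((p + q) / 2) / 2) * (φ x * Real.cos x) +
        (Real.sin ((p + q) / 2) / 2) * (φ x * Real.sin x) - (Real.cos ((q - p) / 2) / 2) * φ x)]
    · rw [intervalIntegral.integral_sub, intervalIntegral.integral_add,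
        intervalIntegral.integral_const_mul, intervalIntegral.integral_const_mul,
        intervalIntegral.integral_const_mul, h1, hc, hs]
      · simp
      · exact (continuous_const.mul (hφ.mul Real.continuous_cos)).intervalIntegrable _ _
      · exact (continuous_const.mul (hφ.mul Real.continuous_sin)).intervalIntegrable _ _
      · exact ((continuous_const.mul (hφ.mul Real.continuous_cos)).add
          (continuous_const.mul (hφ.mul Real.continuous_sin))).intervalIntegrable _ _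
      · exact (continuous_const.mul hφ).intervalIntegrable _ _
    · intro t
      simp only [hper, Real.cos_add_two_pi, Real.sin_add_two_pi]
  rw [hzero] at hpos
  exact lt_irrefl _ hpos

end CF6

end
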