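import Pool.Agent.Lib.MP_cf6b16_an.K1
import Pool.Agent.Lib.MP_cf6b16_an.DefsB
import Pool.Agent.Lib.MP_cf6b16_an.K2
import Pool.Agent.Lib.MP_cf6b16_an.K3
import Pool.Agent.Lib.MP_cf6b16_an.K4

section

/-!
# The annulus cell: data in strip coordinates (the definitions are in Defs4)
-/

end

section

set_option autoImplicit false

open MeasureTheory Metric Set Filter Topology
open scoped ContDiff ENNReal ComplexConjugate

namespace CF6

theorem ba1_shift (x : ℝ) : ∃ n : ℤ, x + n * (2 * Real.pi) ∈ Icc (0 : ℝ) (2 * Real.pi) := by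
  have hπ := Real.pi_pos
  refine ⟨-⌊x / (2 * Real.pi)⌋, ?_⟩
  have h1 := Int.floor_le (x / (2 * Real.pi))
  have h2 := Int.lt_floor_add_one (x / (2 * Real.pi))
  rw [le_div_iff₀ (by positivity)] at h1
  rw [div_lt_iff₀ (by positivity)] at h2
  push_cast
  constructor <;> nlinarith

theorem ba1_min {Φ : ℂ → ℂ} {τ : ℝ → ℝ} (h : CurveData Φ τ) : ∃ m > (0 : ℝ), ∀ x, m ≤ τ x := by
  have hne : (Icc (0 : ℝ) (2 * Real.pi)).Nonempty := ⟨0, le_rfl, by positivity⟩
  obtain ⟨x0, _, hx0⟩ := isCompact_Icc.exists_isMinOn hne h.cτ.continuousOn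
  refine ⟨τ x0, h.pos x0, fun x => ?_⟩
  obtain ⟨n, hn⟩ := ba1_shift x
  have hper : Function.Periodic τ (2 * Real.pi) := h.per
  have h1 : τ (x + n * (2 * Real.pi)) = τ x := hper.int_mul n x
  rw [← h1]
  exact hx0 hn

theorem ba1_perτ {Φ : ℂ → ℂ} {τ : ℝ → ℝ} (h : CurveData Φ τ) (n : ℤ) (x : ℝ) :
    τ (x + n * (2 * Real.pi)) = τ x := by
  have hper : Function.Periodic τ (2 * Real.pi) := h.per
  exact hper.int_mul n x

theorem ba1_perΦ {Φ : ℂ → ℂ} {τ : ℝ → ℝ} (h : CurveData Φ τ) (n : ℤ) {u : ℂ} (hu : u ∈ UHP) :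
    Φ (u + n * (2 * Real.pi)) = Φ u := by
  have hper : Function.Periodic (fun x : ℝ => Φ ((x : ℂ) + u.im * Complex.I)) (2 * Real.pi) := by
    intro x
    simp only
    have hx : (x : ℂ) + u.im * Complex.I ∈ UHP := by
      have h1 : ((x : ℂ) + u.im * Complex.I).im = u.im := by simp
      have h2 : 0 < ((x : ℂ) + u.im * Complex.I).im := by rw [h1]; exact hu
      exact h2
    rw [← h.perΦ _ hx]
    congr 1
    push_cast
    ring
  have h1 := hper.int_mul n u.re
  have h2 : ((u.re + n * (2 * Real.pi) : ℝ) : ℂ) + u.im * Complex.I =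
      u + n * (2 * Real.pi) := by
    apply Complex.ext <;> simp
  have h3 : (u.re : ℂ) + u.im * Complex.I = u := Complex.re_add_im u
  rw [h2, h3] at h1
  exact h1

/-- the depth below the curve -/
theorem ba1_depth {Φ : ℂ → ℂ} {τ : ℝ → ℝ} (h : CurveData Φ τ) (u v : ℂ) (m : ℤ) :
    |(τ u.re - u.im) - (τ v.re - v.im)| ≤ 2 * ‖u - v - 2 * Real.pi * m‖ := by
  have h1 : (u - v - 2 * Real.pi * m).re = u.re - (v.re + m * (2 * Real.pi)) := by
    simp; ring
  have h2 : (u - v - 2 * Real.pi * m).im = u.im - v.im := by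
    simp
  have h3 := Complex.abs_re_le_norm (u - v - 2 * Real.pi * m)
  have h4 := Complex.abs_im_le_norm (u - v - 2 * Real.pi * m)
  rw [h1] at h3
  rw [h2] at h4
  have h5 := h.lip u.re (v.re + m * (2 * Real.pi))
  rw [ba1_perτ h m v.re] at h5
  calc |(τ u.re - u.im) - (τ v.re - v.im)| = |(τ u.re - τ v.re) - (u.im - v.im)| := by
        congr 1; ring
    _ ≤ |τ u.re - τ v.re| + |u.im - v.im| := abs_sub _ _
    _ ≤ 2 * ‖u - v - 2 * Real.pi * m‖ := by linarith

/-- claim (B) -/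
theorem ba1_claim {Φ : ℂ → ℂ} {τ : ℝ → ℝ} (h : CurveData Φ τ) {m0 : ℝ}
    (hτ : ∀ x, m0 ≤ τ x) {η0 : ℝ} (hη : η0 < m0) {ε : ℝ} (hε : 0 < ε) :
    ∃ δ > (0 : ℝ), ∀ u v : ℂ, 0 ≤ τ u.re - u.im → τ u.re - u.im ≤ η0 →
      0 ≤ τ v.re - v.im → τ v.re - v.im ≤ η0 → ‖Φ u - Φ v‖ ≤ δ →
      ∃ m : ℤ, ‖u - v - 2 * Real.pi * m‖ ≤ ε := by
  set N0 : Set ℂ := (fun p : ℝ × ℝ => (p.1 : ℂ) + ((τ p.1 - p.2 : ℝ) : ℂ) * Complex.I) ''
    (Icc 0 (2 * Real.pi) ×ˢ Icc 0 η0) with hN0
  have hN0c : IsCompact N0 := by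
    refine (isCompact_Icc.prod isCompact_Icc).image ?_
    have h1 : Continuous (fun p : ℝ × ℝ => τ p.1 - p.2) :=
      (h.cτ.comp continuous_fst).sub continuous_snd
    exact (Complex.continuous_ofReal.comp continuous_fst).add
      ((Complex.continuous_ofReal.comp h1).mul continuous_const)
  have hmem : ∀ u : ℂ, u.re ∈ Icc 0 (2 * Real.pi) → 0 ≤ τ u.re - u.im → τ u.re - u.im ≤ η0 →
      u ∈ N0 := by
    intro u h1 h2 h3
    refine ⟨(u.re, τ u.re - u.im), ⟨h1, h2, h3⟩, ?_⟩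
    apply Complex.ext <;> simp
  have hN0U : N0 ⊆ UHP := by
    rintro _ ⟨p, ⟨_, hp2⟩, rfl⟩
    have h1 : ((p.1 : ℂ) + ((τ p.1 - p.2 : ℝ) : ℂ) * Complex.I).im = τ p.1 - p.2 := by simp
    have h2 : 0 < ((p.1 : ℂ) + ((τ p.1 - p.2 : ℝ) : ℂ) * Complex.I).im := by
      rw [h1]
      have h3 := hτ p.1
      have h4 : p.2 ≤ η0 := hp2.2
      linarith
    exact h2
  set Kc : Set (ℂ × ℂ) := (N0 ×ˢ N0) ∩ ⋂ m : ℤ, {p | ε ≤ ‖p.1 - p.2 - 2 * Real.pi * m‖} with hKc
  have hKcc : IsCompact Kc := by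
    refine (hN0c.prod hN0c).inter_right (isClosed_iInter (fun m => ?_))
    refine isClosed_le continuous_const ?_
    exact ((continuous_fst.sub continuous_snd).sub continuous_const).norm
  have hcont : ContinuousOn (fun p : ℂ × ℂ => ‖Φ p.1 - Φ p.2‖) Kc := by
    have h1 : ContinuousOn (fun p : ℂ × ℂ => Φ p.1) Kc :=
      h.cΦ.comp continuous_fst.continuousOn (fun p hp => hN0U hp.1.1)
    have h2 : ContinuousOn (fun p : ℂ × ℂ => Φ p.2) Kc :=
      h.cΦ.comp continuous_snd.continuousOn (fun p hp => hN0U hp.1.2)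
    exact (h1.sub h2).norm
  have hpos : ∀ p ∈ Kc, 0 < ‖Φ p.1 - Φ p.2‖ := by
    intro p hp
    rw [norm_pos_iff]
    intro h0
    obtain ⟨m, hm⟩ := h.injΦ p.1 (hN0U hp.1.1) p.2 (hN0U hp.1.2) (sub_eq_zero.1 h0)
    have h1 := mem_iInter.1 hp.2 (-m)
    have h2 : ε ≤ ‖p.1 - p.2 - 2 * Real.pi * ((-m : ℤ) : ℂ)‖ := h1
    rw [hm] at h2
    have h3 : p.1 - (p.1 + 2 * Real.pi * m) - 2 * Real.pi * ((-m : ℤ) : ℂ) = 0 := by
      push_cast; ring
    rw [h3, norm_zero] at h2
    linarith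
  obtain ⟨δ, hδ, hδK⟩ : ∃ δ > (0 : ℝ), ∀ p ∈ Kc, δ < ‖Φ p.1 - Φ p.2‖ := by
    rcases Kc.eq_empty_or_nonempty with he | hne
    · exact ⟨1, one_pos, fun p hp => absurd hp (he ▸ notMem_empty p)⟩
    · obtain ⟨p0, hp0, hmin⟩ := hKcc.exists_isMinOn hne hcont
      refine ⟨‖Φ p0.1 - Φ p0.2‖ / 2, by have := hpos p0 hp0; positivity, fun p hp => ?_⟩
      have h1 : ‖Φ p0.1 - Φ p0.2‖ ≤ ‖Φ p.1 - Φ p.2‖ := hmin hp
      have h2 := hpos p0 hp0
      linarith
  refine ⟨δ, hδ, ?_⟩
  intro u v hu1 hu2 hv1 hv2 huv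
  by_contra hno
  push Not at hno
  obtain ⟨a, ha⟩ := ba1_shift u.re
  obtain ⟨b, hb⟩ := ba1_shift v.re
  have huU : u ∈ UHP := by
    have h2 : 0 < u.im := by have := hτ u.re; linarith
    exact h2
  have hvU : v ∈ UHP := by
    have h2 : 0 < v.im := by have := hτ v.re; linarith
    exact h2
  have hure : (u + a * (2 * Real.pi)).re = u.re + a * (2 * Real.pi) := by simp
  have huim : (u + a * (2 * Real.pi)).im = u.im := by simp
  have hvre : (v + b * (2 * Real.pi)).re = v.re + b * (2 * Real.pi) := by simp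
  have hvim : (v + b * (2 * Real.pi)).im = v.im := by simp
  have hu' : u + a * (2 * Real.pi) ∈ N0 := by
    refine hmem _ (by rw [hure]; exact ha) ?_ ?_
    · rw [hure, huim, ba1_perτ h a]; exact hu1
    · rw [hure, huim, ba1_perτ h a]; exact hu2
  have hv' : v + b * (2 * Real.pi) ∈ N0 := by
    refine hmem _ (by rw [hvre]; exact hb) ?_ ?_
    · rw [hvre, hvim, ba1_perτ h b]; exact hv1
    · rw [hvre, hvim, ba1_perτ h b]; exact hv2
  have hK : ((u + a * (2 * Real.pi), v + b * (2 * Real.pi)) : ℂ × ℂ) ∈ Kc := by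
    refine ⟨⟨hu', hv'⟩, mem_iInter.2 (fun m => ?_)⟩
    have h1 := hno (m + b - a)
    have h2 : u + a * (2 * Real.pi) - (v + b * (2 * Real.pi)) - 2 * Real.pi * m =
        u - v - 2 * Real.pi * ((m + b - a : ℤ) : ℂ) := by
      push_cast; ring
    have h3 : ε ≤ ‖u + a * (2 * Real.pi) - (v + b * (2 * Real.pi)) - 2 * Real.pi * m‖ := by
      rw [h2]; exact h1.le
    exact h3
  have h4 := hδK _ hK
  simp only at h4
  rw [ba1_perΦ h a huU, ba1_perΦ h b hvU] at h4
  linarith

/-- BA1. A connected set below the curve, touching the curve, with small `Φ`-diameter has small diameter.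
PROOF. `m = min τ > 0` (continuous, periodic), `η₀ = m/4`. `N = {u | τ u.re - η₀ ≤ u.im ≤ τ u.re}`, `N ∩ {0 ≤ re ≤ 2π}` is compact in `UHP`.
(A) there is `δ₁ > 0` with `‖Φ u - Φ v‖ ≥ δ₁` for all `u ∈ N` with `τ u.re - u.im ≤ η₀/2` and `v` with `τ v.re - v.im = η₀`: by periodicity one may take both real parts in `[0,2π]`; compactness, and `Φ u ≠ Φ v` (otherwise `v = u + 2π m`, and the depths `τ - im` would be equal).
(B) for `ε' = min ε 1` there is `δ₂ > 0` such that `u, v ∈ N`, `‖Φ u - Φ v‖ ≤ δ₂` imply `∃ m : ℤ, ‖u - v - 2π m‖ ≤ ε'` (compactness, injectivity modulo `2π`; real parts in `[0, 2π]`, the limit pair satisfies `v = u + 2π m`).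
`δ = min (δ₁/2) δ₂`. `S` contains `u₀` with `τ - im < η₀/2`. If some point of `S` is not in `N`, the continuous function `u ↦ τ u.re - u.im` takes the value `η₀` on the connected `S` at some `v`, `v.im > 0` (`η₀ < τ`), contradiction to (A). So `S ⊆ N`. Let `u ∈ S`: the sets `{v | ‖u - v - 2π m‖ ≤ ε'}`, `m ∈ ℤ`, are closed, pairwise disjoint
and locally finite, and cover `S` by (B), so the connected `S` is contained in the one with `m = 0` which contains `u`. -/
theorem ba_diam {Φ : ℂ → ℂ} {τ : ℝ → ℝ} (h : CurveData Φ τ) {ε : ℝ} (hε : 0 < ε) :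
    ∃ δ > (0 : ℝ), ∀ S : Set ℂ, IsPreconnected S → (∀ u ∈ S, 0 ≤ u.im ∧ u.im < τ u.re) →
      (∀ η > (0 : ℝ), ∃ u ∈ S, τ u.re - u.im < η) →
      (∀ u ∈ S, ∀ v ∈ S, 0 < u.im → 0 < v.im → ‖Φ u - Φ v‖ ≤ δ) →
      ∀ u ∈ S, ∀ v ∈ S, ‖u - v‖ ≤ ε := by
  obtain ⟨m0, hm0, hτ⟩ := ba1_min h
  set η0 : ℝ := m0 / 4 with hη0
  have hη0pos : 0 < η0 := by rw [hη0]; linarith
  set ε' : ℝ := min (min ε 1) (η0 / 8) with hε'
  have hε'pos : 0 < ε' := lt_min (lt_min hε one_pos) (by positivity)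
  have hε'1 : ε' ≤ ε := (min_le_left _ _).trans (min_le_left _ _)
  have hε'2 : ε' ≤ 1 := (min_le_left _ _).trans (min_le_right _ _)
  have hε'3 : ε' ≤ η0 / 8 := min_le_right _ _
  obtain ⟨δ, hδ, hB⟩ := ba1_claim h hτ (by rw [hη0]; linarith : η0 < m0) hε'pos
  refine ⟨δ, hδ, ?_⟩
  intro S hS hlo htop hdiam
  have hDc : Continuous (fun u : ℂ => τ u.re - u.im) :=
    (h.cτ.comp Complex.continuous_re).sub Complex.continuous_im
  obtain ⟨u0, hu0, hu0D⟩ := htop (η0 / 2) (by positivity)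
  -- all of `S` is near the curve
  have hnear : ∀ u ∈ S, τ u.re - u.im < η0 := by
    intro u1 hu1
    by_contra hge
    push Not at hge
    have hivt := hS.intermediate_value hu0 hu1 hDc.continuousOn
    obtain ⟨v, hv, hvD⟩ := hivt (show η0 ∈ Icc (τ u0.re - u0.im) (τ u1.re - u1.im) from
      ⟨by linarith, hge⟩)
    have hvD' : τ v.re - v.im = η0 := hvD
    have hvim : 0 < v.im := by have := hτ v.re; linarith
    have hu0im : 0 < u0.im := by have := hτ u0.re; linarith
    obtain ⟨m, hm⟩ := hB u0 v (by have := (hlo u0 hu0).2; linarith) (by linarith)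
      (by linarith) (by linarith) (hdiam u0 hu0 v hv hu0im hvim)
    have h1 := ba1_depth h u0 v m
    rw [hvD'] at h1
    have h2 := abs_le.1 h1
    linarith [h2.1]
  have hcl : ∀ u ∈ S, ∀ v ∈ S, ∃ m : ℤ, ‖u - v - 2 * Real.pi * m‖ ≤ ε' := by
    intro u hu v hv
    have hu1 := hnear u hu
    have hv1 := hnear v hv
    have hu2 := (hlo u hu).2
    have hv2 := (hlo v hv).2
    have huim : 0 < u.im := by have := hτ u.re; linarith
    have hvim : 0 < v.im := by have := hτ v.re; linarith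
    exact hB u v (by linarith) hu1.le (by linarith) hv1.le (hdiam u hu v hv huim hvim)
  have hfar : ∀ u v : ℂ, ∀ m : ℤ, m ≠ 0 → ‖u - v - 2 * Real.pi * m‖ ≤ 1 → 2 < ‖u - v‖ := by
    intro u v m hm h1
    have h2 : ‖(2 * Real.pi * m : ℂ)‖ = 2 * Real.pi * |(m : ℝ)| := by
      rw [norm_mul, norm_mul, Complex.norm_real, Complex.norm_intCast,
        Real.norm_of_nonneg Real.pi_pos.le]
      simp
    have h3 : (1 : ℝ) ≤ |(m : ℝ)| := by
      have h4 : (1 : ℤ) ≤ |m| := Int.one_le_abs hm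
      exact_mod_cast h4
    have h5 : ‖(2 * Real.pi * m : ℂ)‖ ≤ ‖u - v‖ + ‖u - v - 2 * Real.pi * m‖ := by
      calc ‖(2 * Real.pi * m : ℂ)‖ = ‖(u - v) - (u - v - 2 * Real.pi * m)‖ := by congr 1; ring
        _ ≤ _ := norm_sub_le _ _
    have h6 := Real.pi_gt_three
    rw [h2] at h5
    have h7 : 2 * Real.pi * 1 ≤ 2 * Real.pi * |(m : ℝ)| :=
      mul_le_mul_of_nonneg_left h3 (by positivity)
    linarith
  intro u hu v hv
  obtain ⟨m, hm⟩ := hcl u hu v hv
  by_cases hm0' : m = 0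
  · rw [hm0'] at hm
    simp only [Int.cast_zero, mul_zero, sub_zero] at hm
    linarith
  · exfalso
    have h1 := hfar u v m hm0' (hm.trans hε'2)
    have hgc : Continuous (fun w : ℂ => ‖u - w‖) := (continuous_const.sub continuous_id).norm
    have hivt := hS.intermediate_value hu hv hgc.continuousOn
    obtain ⟨w, hw, hw2⟩ := hivt (show (2 : ℝ) ∈ Icc ‖u - u‖ ‖u - v‖ from
      ⟨by rw [sub_self, norm_zero]; norm_num, h1.le⟩)
    have hw2' : ‖u - w‖ = 2 := hw2
    obtain ⟨k, hk⟩ := hcl u hu w hw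
    by_cases hk0 : k = 0
    · rw [hk0] at hk
      simp only [Int.cast_zero, mul_zero, sub_zero] at hk
      linarith
    · have h2 := hfar u w k hk0 (hk.trans hε'2)
      linarith

end CF6

end

section

set_option autoImplicit false

open MeasureTheory Metric Set Filter Topology
open scoped ContDiff ENNReal ComplexConjugate

namespace CF6

/-- the set of real numbers at distance more than `s` from `a + 2π ℤ` is open -/
theorem ba2a_open (a s : ℝ) : IsOpen {x : ℝ | ∀ m : ℤ, s < |x - a - 2 * Real.pi * m|} := by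
  rw [Metric.isOpen_iff]
  intro x hx
  have hp : (0 : ℝ) < 2 * Real.pi := by positivity
  set m0 : ℤ := round ((x - a) / (2 * Real.pi)) with hm0
  have hmin : ∀ m : ℤ, |x - a - 2 * Real.pi * m0| ≤ |x - a - 2 * Real.pi * m| := by
    intro m
    have h1 := round_le ((x - a) / (2 * Real.pi)) m
    have h2 : ∀ k : ℤ, |x - a - 2 * Real.pi * k| = 2 * Real.pi * |(x - a) / (2 * Real.pi) - k| := by
      intro k
      rw [← abs_of_pos hp, ← abs_mul, abs_of_pos hp]
      congr 1
      field_simp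
    rw [h2, h2]
    exact mul_le_mul_of_nonneg_left h1 hp.le
  refine ⟨|x - a - 2 * Real.pi * m0| - s, sub_pos.2 (hx m0), ?_⟩
  intro y hy m
  rw [Metric.mem_ball, Real.dist_eq] at hy
  have h3 := hmin m
  have h4 : |x - a - 2 * Real.pi * m| ≤ |y - a - 2 * Real.pi * m| + |y - x| := by
    have : x - a - 2 * Real.pi * m = (y - a - 2 * Real.pi * m) - (y - x) := by ring
    rw [this]; exact abs_sub _ _
  linarith

/-- BA2a. The U-shaped set around a boundary point and its properties. -/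
theorem ba_ushape {τ : ℝ → ℝ} (cτ : Continuous τ) (per : ∀ x, τ (x + 2 * Real.pi) = τ x) {a s : ℝ}
    (hs : 0 < s) (hs1 : s < 1) (hs2 : ∀ x, 2 * s < τ x) :
    IsOpen {u : ℂ | τ u.re - 2 * s < u.im ∧ u.im < τ u.re ∧
      ((∀ m : ℤ, s < |u.re - a - 2 * Real.pi * m|) ∨ u.im < τ u.re - s)} ∧
    (∀ u : ℂ, u ∈ {u : ℂ | τ u.re - 2 * s < u.im ∧ u.im < τ u.re ∧
      ((∀ m : ℤ, s < |u.re - a - 2 * Real.pi * m|) ∨ u.im < τ u.re - s)} ↔
      u + 2 * Real.pi ∈ {u : ℂ | τ u.re - 2 * s < u.im ∧ u.im < τ u.re ∧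
      ((∀ m : ℤ, s < |u.re - a - 2 * Real.pi * m|) ∨ u.im < τ u.re - s)}) ∧
    IsConnected ((fun u => Complex.exp (Complex.I * u)) '' {u : ℂ | τ u.re - 2 * s < u.im ∧
      u.im < τ u.re ∧ ((∀ m : ℤ, s < |u.re - a - 2 * Real.pi * m|) ∨ u.im < τ u.re - s)}) := by
  have hpi : (3 : ℝ) < Real.pi := Real.pi_gt_three
  have hτ : Continuous fun u : ℂ => τ u.re := cτ.comp Complex.continuous_re
  refine ⟨?_, ?_, ?_⟩
  · refine (isOpen_lt (hτ.sub continuous_const) Complex.continuous_im).inter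
      ((isOpen_lt Complex.continuous_im hτ).inter (IsOpen.union ?_ ?_))
    · exact (ba2a_open a s).preimage Complex.continuous_re
    · exact isOpen_lt Complex.continuous_im (hτ.sub continuous_const)
  · intro u
    have hre : (u + 2 * Real.pi).re = u.re + 2 * Real.pi := by simp
    have him : (u + 2 * Real.pi).im = u.im := by simp
    simp only [mem_ofPred_eq, hre, him, per]
    have hsh : (∀ m : ℤ, s < |u.re - a - 2 * Real.pi * m|) ↔
        (∀ m : ℤ, s < |u.re + 2 * Real.pi - a - 2 * Real.pi * m|) := by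
      constructor
      · intro h m
        have := h (m - 1)
        push_cast at this
        have e : u.re + 2 * Real.pi - a - 2 * Real.pi * m = u.re - a - 2 * Real.pi * (m - 1) := by ring
        rwa [e]
      · intro h m
        have := h (m + 1)
        push_cast at this
        have e : u.re + 2 * Real.pi - a - 2 * Real.pi * (m + 1) = u.re - a - 2 * Real.pi * m := by ring
        rwa [e] at this
    rw [hsh]
  · set G : ℝ × ℝ → ℂ := fun p => Complex.exp (Complex.I * ((p.1 : ℂ) + ((τ p.1 - p.2 : ℝ) : ℂ) * Complex.I)) with hG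
    have cG : Continuous G := by
      rw [hG]; fun_prop
    have hEG : ∀ u : ℂ, G (u.re, τ u.re - u.im) = Complex.exp (Complex.I * u) := by
      intro u
      simp only [hG]
      congr 2
      rw [sub_sub_cancel]
      exact Complex.re_add_im u
    have hper : ∀ (x y : ℝ) (m : ℤ), G (x - 2 * Real.pi * m, y) = G (x, y) := by
      intro x y m
      simp only [hG]
      have hτm : τ (x - 2 * Real.pi * m) = τ x := by
        have hp : Function.Periodic τ (2 * Real.pi) := per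
        have := hp.sub_int_mul_eq (x := x) m
        rwa [mul_comm (m : ℝ)] at this
      rw [hτm]
      rw [Complex.exp_eq_exp_iff_exists_int]
      refine ⟨-m, ?_⟩
      push_cast
      ring
    have himg : ((fun u => Complex.exp (Complex.I * u)) '' {u : ℂ | τ u.re - 2 * s < u.im ∧
        u.im < τ u.re ∧ ((∀ m : ℤ, s < |u.re - a - 2 * Real.pi * m|) ∨ u.im < τ u.re - s)}) =
        G '' (Ioo (a + s) (a + 2 * Real.pi - s) ×ˢ Ioo 0 (2 * s)) ∪ G '' (univ ×ˢ Ioo s (2 * s)) := by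
      ext w
      constructor
      · rintro ⟨u, ⟨h1, h2, h3⟩, rfl⟩
        rcases h3 with h3 | h3
        · left
          set m : ℤ := ⌊(u.re - a) / (2 * Real.pi)⌋ with hm
          have hp : (0 : ℝ) < 2 * Real.pi := by positivity
          have f1 : (m : ℝ) ≤ (u.re - a) / (2 * Real.pi) := Int.floor_le _
          have f2 : (u.re - a) / (2 * Real.pi) < m + 1 := Int.lt_floor_add_one _
          rw [le_div_iff₀ hp] at f1
          rw [div_lt_iff₀ hp] at f2
          have g1 := h3 m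
          have g2 := h3 (m + 1)
          push_cast at g2
          rw [abs_of_nonneg (by linarith)] at g1
          rw [abs_of_neg (by linarith)] at g2
          refine ⟨(u.re - 2 * Real.pi * m, τ u.re - u.im), ⟨⟨?_, ?_⟩, ⟨?_, ?_⟩⟩, ?_⟩
          · show a + s < u.re - 2 * Real.pi * m
            linarith
          · show u.re - 2 * Real.pi * m < a + 2 * Real.pi - s
            linarith
          · show 0 < τ u.re - u.im
            linarith
          · show τ u.re - u.im < 2 * s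
            linarith
          · rw [hper, hEG]
        · right
          exact ⟨(u.re, τ u.re - u.im), ⟨mem_univ _, ⟨by show s < τ u.re - u.im; linarith,
            by show τ u.re - u.im < 2 * s; linarith⟩⟩, hEG u⟩
      · have key : ∀ x y : ℝ, G (x, y) = Complex.exp (Complex.I * (⟨x, τ x - y⟩ : ℂ)) := by
          intro x y
          rw [← hEG]
          simp
        rintro (⟨⟨x, y⟩, ⟨⟨h1, h2⟩, ⟨h3, h4⟩⟩, rfl⟩ | ⟨⟨x, y⟩, ⟨-, ⟨h3, h4⟩⟩, rfl⟩)
        · simp only at h1 h2 h3 h4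
          refine ⟨⟨x, τ x - y⟩, ⟨?_, ?_, Or.inl ?_⟩, (key x y).symm⟩
          · show τ x - 2 * s < τ x - y
            linarith
          · show τ x - y < τ x
            linarith
          · intro m
            show s < |x - a - 2 * Real.pi * m|
            rcases le_or_gt m 0 with hm | hm
            · have hm' : (m : ℝ) ≤ 0 := by exact_mod_cast hm
              have : 2 * Real.pi * m ≤ 0 := mul_nonpos_of_nonneg_of_nonpos (by positivity) hm'
              rw [abs_of_pos (by linarith)]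
              linarith
            · have hm' : (1 : ℝ) ≤ m := by exact_mod_cast hm
              have : 2 * Real.pi * 1 ≤ 2 * Real.pi * m := mul_le_mul_of_nonneg_left hm' (by positivity)
              rw [abs_of_neg (by linarith)]
              linarith
        · simp only at h3 h4
          refine ⟨⟨x, τ x - y⟩, ⟨?_, ?_, Or.inr ?_⟩, (key x y).symm⟩
          · show τ x - 2 * s < τ x - y
            linarith
          · show τ x - y < τ x
            linarith
          · show τ x - y < τ x - s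
            linarith
    rw [himg]
    refine IsConnected.union ?_ ?_ ?_
    · refine ⟨G (a + Real.pi, 3 * s / 2), ⟨_, ⟨⟨?_, ?_⟩, ⟨?_, ?_⟩⟩, rfl⟩, ⟨_, ⟨mem_univ _, ⟨?_, ?_⟩⟩, rfl⟩⟩
      · show a + s < a + Real.pi
        linarith
      · show a + Real.pi < a + 2 * Real.pi - s
        linarith
      · show 0 < 3 * s / 2
        linarith
      · show 3 * s / 2 < 2 * s
        linarith
      · show s < 3 * s / 2
        linarith
      · show 3 * s / 2 < 2 * s
        linarith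
    · refine IsConnected.image ?_ G cG.continuousOn
      exact (isConnected_Ioo (by linarith)).prod (isConnected_Ioo (by linarith))
    · refine IsConnected.image ?_ G cG.continuousOn
      exact isConnected_univ.prod (isConnected_Ioo (by linarith))

end CF6

end

section

set_option autoImplicit false

open MeasureTheory Metric Set Filter Topology
open scoped ContDiff ENNReal ComplexConjugate

namespace CF6

/-- compact exhaustion of an open set -/
def br2K (U : Set ℂ) (m : ℕ) : Set ℂ :=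
  closedBall 0 (m : ℝ) ∩ {z | ((m : ℝ≥0∞) + 1)⁻¹ ≤ infEDist z Uᶜ}

theorem br2K_compact (U : Set ℂ) (m : ℕ) : IsCompact (br2K U m) :=
  (isCompact_closedBall 0 (m : ℝ)).inter_right (isClosed_le continuous_const continuous_infEDist)

theorem br2K_subset (U : Set ℂ) (m : ℕ) : br2K U m ⊆ U := by
  intro z hz
  by_contra hzU
  have h1 : infEDist z Uᶜ = 0 := infEDist_zero_of_mem hzU
  have h2 := hz.2
  rw [mem_ofPred_eq, h1, nonpos_iff_eq_zero, ENNReal.inv_eq_zero] at h2
  exact ENNReal.add_ne_top.2 ⟨ENNReal.natCast_ne_top m, ENNReal.one_ne_top⟩ h2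

theorem br2K_exists {U : Set ℂ} (hU : IsOpen U) {S : Set ℂ} (hS : IsCompact S) (hSU : S ⊆ U) :
    ∃ m, S ⊆ br2K U m := by
  rcases S.eq_empty_or_nonempty with rfl | hne
  · exact ⟨0, empty_subset _⟩
  obtain ⟨z0, hz0, hmin⟩ := hS.exists_isMinOn hne
    (continuous_infEDist (s := Uᶜ)).continuousOn
  have hpos : 0 < infEDist z0 Uᶜ := by
    rw [infEDist_pos_iff_notMem_closure, hU.isClosed_compl.closure_eq]
    exact fun h => h (hSU hz0)
  obtain ⟨n1, hn1⟩ := ENNReal.exists_inv_nat_lt hpos.ne'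
  obtain ⟨R, hR⟩ := hS.isBounded.subset_closedBall 0
  obtain ⟨n2, hn2⟩ := exists_nat_ge R
  refine ⟨max n1 n2, fun z hz => ⟨?_, ?_⟩⟩
  · refine closedBall_subset_closedBall ?_ (hR hz)
    refine hn2.trans ?_
    exact_mod_cast le_max_right n1 n2
  · refine le_trans ?_ (isMinOn_iff.1 hmin z hz)
    refine le_trans ?_ hn1.le
    refine ENNReal.inv_le_inv.2 ?_
    refine le_trans ?_ le_self_add
    exact_mod_cast le_max_left n1 n2

/-- almost every slice converges along a subsequence -/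
theorem br2_slice {P : ℝ × ℝ → ℂ} (hP : MeasurePreserving P (volume.prod volume) volume)
    (hPe : MeasurableEmbedding P) {F : ℕ → ℂ → ℝ≥0∞} (hF : ∀ n, AEMeasurable (F n))
    (h0 : Tendsto (fun n => ∫⁻ z, F n z) atTop (𝓝 0)) :
    ∃ σ : ℕ → ℕ, StrictMono σ ∧ ∀ᵐ s : ℝ,
      Tendsto (fun k => ∫⁻ t, F (σ k) (P (s, t))) atTop (𝓝 0) := by
  have h1 : ∀ k : ℕ, ∀ᶠ n in atTop, ∫⁻ z, F n z ≤ (2⁻¹ : ℝ≥0∞) ^ k := by
    intro k
    have : (0 : ℝ≥0∞) < 2⁻¹ ^ k := by
      apply ENNReal.pow_pos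
      simp
    exact h0.eventually_le_const this
  obtain ⟨σ, hσ, hσ2⟩ := extraction_forall_of_eventually h1
  refine ⟨σ, hσ, ?_⟩
  have hm : ∀ k, AEMeasurable (fun p : ℝ × ℝ => F (σ k) (P p)) (volume.prod volume) :=
    fun k => (hF (σ k)).comp_quasiMeasurePreserving hP.quasiMeasurePreserving
  have hG : ∀ k, AEMeasurable (fun s : ℝ => ∫⁻ t, F (σ k) (P (s, t))) :=
    fun k => (hm k).lintegral_prod_right'
  have e1 : ∀ k, ∫⁻ s : ℝ, ∫⁻ t : ℝ, F (σ k) (P (s, t)) = ∫⁻ z, F (σ k) z := by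
    intro k
    rw [← hP.lintegral_comp_emb hPe, lintegral_prod _ (hm k)]
  have e2 : ∫⁻ s : ℝ, ∑' k, ∫⁻ t : ℝ, F (σ k) (P (s, t)) ≠ ⊤ := by
    rw [lintegral_tsum hG]
    simp only [e1]
    refine ne_top_of_le_ne_top ?_ (ENNReal.tsum_le_tsum hσ2)
    rw [ENNReal.tsum_geometric]
    simp
  filter_upwards [ae_lt_top' (AEMeasurable.tsum hG) e2] with s hs
  exact ENNReal.tendsto_atTop_zero_of_tsum_ne_top hs.ne

/-- one line -/
theorem br2_line {h : ℝ → ℂ} {u : ℕ → ℝ → ℂ} {a b : ℝ} (hab : a ≤ b)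
    (hu : ∀ k, Continuous (u k)) (hm : AEStronglyMeasurable h (volume.restrict (Ioc a b)))
    (hc : Tendsto (fun k => ∫⁻ t in Ioc a b, ‖u k t - h t‖ₑ ^ 2) atTop (𝓝 0)) :
    IntervalIntegrable h volume a b ∧
      Tendsto (fun k => ∫ t in a..b, u k t) atTop (𝓝 (∫ t in a..b, h t)) := by
  set μ : Measure ℝ := volume.restrict (Ioc a b) with hμ
  have hfin : IsFiniteMeasure μ := ⟨by
    rw [hμ, Measure.restrict_apply_univ, Real.volume_Ioc]; exact ENNReal.ofReal_lt_top⟩
  have hui : ∀ k, MemLp (u k) 2 μ := by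
    intro k
    obtain ⟨C, hC⟩ := (isCompact_Icc (a := a) (b := b)).exists_bound_of_continuousOn
      (hu k).continuousOn
    refine MemLp.of_bound (hu k).aestronglyMeasurable C ?_
    rw [hμ, ae_restrict_iff' measurableSet_Ioc]
    exact Eventually.of_forall fun t ht => hC t (Ioc_subset_Icc_self ht)
  have hd : ∀ k, AEStronglyMeasurable (fun t => u k t - h t) μ :=
    fun k => (hu k).aestronglyMeasurable.sub hm
  have e2 : ∀ k, eLpNorm (fun t => u k t - h t) 2 μ =
      (∫⁻ t in Ioc a b, ‖u k t - h t‖ₑ ^ 2) ^ (1 / 2 : ℝ) := by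
    intro k
    rw [eLpNorm_eq_lintegral_rpow_enorm_toReal (by norm_num) (by norm_num)]
    simp [hμ]
  have hl2 : Tendsto (fun k => eLpNorm (fun t => u k t - h t) 2 μ) atTop (𝓝 0) := by
    simp only [e2]
    have := (ENNReal.continuous_rpow_const (y := (1 / 2 : ℝ))).tendsto 0
    have h3 := this.comp hc
    rw [ENNReal.zero_rpow_of_pos (by norm_num)] at h3
    exact h3
  have hl1 : Tendsto (fun k => ∫⁻ t, ‖u k t - h t‖ₑ ∂μ) atTop (𝓝 0) := by
    have h4 : Tendsto (fun k => eLpNorm (fun t => u k t - h t) 2 μ *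
        μ Set.univ ^ (1 / (1 : ℝ≥0∞).toReal - 1 / (2 : ℝ≥0∞).toReal)) atTop (𝓝 (0 *
        μ Set.univ ^ (1 / (1 : ℝ≥0∞).toReal - 1 / (2 : ℝ≥0∞).toReal))) := by
      refine ENNReal.Tendsto.mul_const hl2 (Or.inr ?_)
      refine ENNReal.rpow_ne_top_of_nonneg (by norm_num) (measure_ne_top _ _)
    rw [zero_mul] at h4
    refine tendsto_of_tendsto_of_tendsto_of_le_of_le tendsto_const_nhds h4
      (fun _ => zero_le) (fun k => ?_)
    have := eLpNorm_le_eLpNorm_mul_rpow_measure_univ (μ := μ) (p := 1) (q := 2) (by norm_num)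
      (hd k)
    rwa [eLpNorm_one_eq_lintegral_enorm] at this
  have hI : Integrable h μ := by
    obtain ⟨k, hk⟩ := (hl2.eventually_lt_const (u := 1) (by norm_num)).exists
    have h5 : MemLp (fun t => u k t - h t) 2 μ := ⟨hd k, hk.trans ENNReal.one_lt_top⟩
    have h6 : MemLp (fun t => u k t - (u k t - h t)) 2 μ := (hui k).sub h5
    have h7 : MemLp h 2 μ := by
      refine h6.ae_eq (Eventually.of_forall fun t => ?_)
      simp
    exact memLp_one_iff_integrable.1 (h7.mono_exponent (by norm_num))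
  refine ⟨?_, ?_⟩
  · rw [intervalIntegrable_iff_integrableOn_Ioc_of_le hab]
    exact hI
  · simp only [intervalIntegral.integral_of_le hab]
    exact tendsto_integral_of_L1 h hm
      (Eventually.of_forall fun k => memLp_one_iff_integrable.1 ((hui k).mono_exponent
        (by norm_num))) hl1

/-- both families of lines -/
theorem br2_gen {U : Set ℂ} (hU : IsOpen U) {f fe : ℂ → ℂ} {e : ℂ}
    (hlp : ∀ K, K ⊆ U → IsCompact K → MemLp fe 2 (volume.restrict K))
    (H : ∀ K, K ⊆ U → IsCompact K → ∃ g : ℕ → ℂ → ℂ, (∀ n, ContDiff ℝ ∞ (g n)) ∧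
      TendstoUniformlyOn g f atTop K ∧
      Tendsto (fun n => ∫⁻ z in K, ‖fderiv ℝ (g n) z e - fe z‖ₑ ^ 2) atTop (𝓝 0))
    {P : ℝ × ℝ → ℂ} (hP : MeasurePreserving P (volume.prod volume) volume)
    (hPe : MeasurableEmbedding P) (hPd : ∀ s t, HasDerivAt (fun t => P (s, t)) e t) :
    ∀ᵐ s : ℝ, ∀ a b : ℝ, a ≤ b → (∀ t ∈ Icc a b, P (s, t) ∈ U) →
      IntervalIntegrable (fun t => fe (P (s, t))) volume a b ∧
        f (P (s, b)) - f (P (s, a)) = ∫ t in a..b, fe (P (s, t)) := by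
  have key : ∀ m : ℕ, ∀ᵐ s : ℝ, ∀ a b : ℝ, a ≤ b → (∀ t ∈ Icc a b, P (s, t) ∈ br2K U m) →
      IntervalIntegrable (fun t => fe (P (s, t))) volume a b ∧
        f (P (s, b)) - f (P (s, a)) = ∫ t in a..b, fe (P (s, t)) := by
    intro m
    obtain ⟨g, hg1, hg2, hg3⟩ := H _ (br2K_subset U m) (br2K_compact U m)
    have hKm : MeasurableSet (br2K U m) := (br2K_compact U m).measurableSet
    have hfm : AEStronglyMeasurable ((br2K U m).indicator fe) volume :=
      (aestronglyMeasurable_indicator_iff hKm).2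
        (hlp _ (br2K_subset U m) (br2K_compact U m)).1
    have hfs : ∀ᵐ s : ℝ, AEStronglyMeasurable
        (fun t => (br2K U m).indicator fe (P (s, t))) volume :=
      (hfm.comp_measurePreserving hP).prodMk_left
    have hcont : ∀ n, Continuous (fun z => fderiv ℝ (g n) z e) := fun n =>
      ((hg1 n).continuous_fderiv (by simp)).clm_apply continuous_const
    set F : ℕ → ℂ → ℝ≥0∞ := fun n =>
      (br2K U m).indicator (fun z => ‖fderiv ℝ (g n) z e - fe z‖ₑ ^ 2) with hF
    have hFm : ∀ n, AEMeasurable (F n) := by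
      intro n
      rw [hF, aemeasurable_indicator_iff hKm]
      have h1 : AEStronglyMeasurable (fun z => fderiv ℝ (g n) z e - fe z)
          (volume.restrict (br2K U m)) :=
        (hcont n).aestronglyMeasurable.sub (hlp _ (br2K_subset U m) (br2K_compact U m)).1
      exact h1.enorm.pow_const 2
    have hF0 : Tendsto (fun n => ∫⁻ z, F n z) atTop (𝓝 0) := by
      simp only [hF, lintegral_indicator hKm]
      exact hg3
    obtain ⟨σ, hσ, hσ2⟩ := br2_slice hP hPe hFm hF0
    filter_upwards [hfs, hσ2] with s hs1 hs2 a b hab hseg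
    have hPc : Continuous (fun t => P (s, t)) :=
      continuous_iff_continuousAt.2 fun t => (hPd s t).continuousAt
    have hl := br2_line (h := fun t => fe (P (s, t)))
      (u := fun k t => fderiv ℝ (g (σ k)) (P (s, t)) e) hab
      (fun k => (hcont (σ k)).comp hPc) ?_ ?_
    · refine ⟨hl.1, ?_⟩
      have e1 : ∀ k, ∫ t in a..b, fderiv ℝ (g (σ k)) (P (s, t)) e =
          g (σ k) (P (s, b)) - g (σ k) (P (s, a)) := by
        intro k
        refine intervalIntegral.integral_eq_sub_of_hasDerivAt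
          (f := fun t => g (σ k) (P (s, t))) (fun t _ => ?_) ?_
        · have hφ : HasFDerivAt (g (σ k)) (fderiv ℝ (g (σ k)) (P (s, t))) (P (s, t)) :=
            (((hg1 (σ k)).differentiable (by simp)) (P (s, t))).hasFDerivAt
          exact hφ.comp_hasDerivAt t (hPd s t)
        · exact ((hcont (σ k)).comp hPc).intervalIntegrable a b
      have h2 := hl.2
      simp only [e1] at h2
      have h3 : ∀ t ∈ Icc a b, Tendsto (fun k => g (σ k) (P (s, t))) atTop (𝓝 (f (P (s, t)))) :=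
        fun t ht => (hg2.tendsto_at (hseg t ht)).comp hσ.tendsto_atTop
      exact tendsto_nhds_unique ((h3 b (right_mem_Icc.2 hab)).sub (h3 a (left_mem_Icc.2 hab))) h2
    · refine (hs1.restrict (s := Ioc a b)).congr ?_
      rw [EventuallyEq, ae_restrict_iff' measurableSet_Ioc]
      refine Eventually.of_forall fun t ht => ?_
      exact indicator_of_mem (hseg t (Ioc_subset_Icc_self ht)) fe
    · refine tendsto_of_tendsto_of_tendsto_of_le_of_le tendsto_const_nhds hs2
        (fun _ => zero_le) (fun k => ?_)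
      rw [← lintegral_indicator measurableSet_Ioc]
      refine lintegral_mono fun t => ?_
      by_cases ht : t ∈ Ioc a b
      · rw [indicator_of_mem ht, hF]
        simp only
        rw [indicator_of_mem (hseg t (Ioc_subset_Icc_self ht))]
      · rw [indicator_of_notMem ht]
        exact zero_le
  filter_upwards [ae_all_iff.2 key] with s hs a b hab hseg
  have hPc : Continuous (fun t => P (s, t)) :=
    continuous_iff_continuousAt.2 fun t => (hPd s t).continuousAt
  obtain ⟨m, hm⟩ := br2K_exists hU ((isCompact_Icc (a := a) (b := b)).image hPc)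
    (by rintro _ ⟨t, ht, rfl⟩; exact hseg t ht)
  exact hs m a b hab (fun t ht => hm ⟨t, ht, rfl⟩)

theorem br2_meas {U : Set ℂ} (hU : IsOpen U) {g : ℂ → ℂ}
    (hlp : ∀ K, K ⊆ U → IsCompact K → MemLp g 2 (volume.restrict K)) :
    AEStronglyMeasurable g (volume.restrict U) := by
  have : LocallyIntegrableOn g U := by
    rw [locallyIntegrableOn_iff hU.isLocallyClosed]
    intro K hK hc
    have hfin : IsFiniteMeasure ((volume : Measure ℂ).restrict K) :=
      ⟨by rw [Measure.restrict_apply_univ]; exact hc.measure_lt_top⟩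
    exact memLp_one_iff_integrable.1 ((hlp K hK hc).mono_exponent (p := 1) (by norm_num))
  exact this.aestronglyMeasurable

theorem br2_hor (y t : ℝ) : HasDerivAt (fun t : ℝ => (⟨t, y⟩ : ℂ)) 1 t := by
  have h : (fun t : ℝ => (⟨t, y⟩ : ℂ)) = fun t : ℝ => (t : ℂ) + y * Complex.I := by
    funext s
    exact Complex.mk_eq_add_mul_I s y
  rw [h]
  exact (Complex.ofRealCLM.hasDerivAt (x := t)).add_const _

theorem br2_ver (x t : ℝ) : HasDerivAt (fun t : ℝ => (⟨x, t⟩ : ℂ)) Complex.I t := by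
  have h : (fun t : ℝ => (⟨x, t⟩ : ℂ)) = fun t : ℝ => (x : ℂ) + t * Complex.I := by
    funext s
    exact Complex.mk_eq_add_mul_I x s
  rw [h]
  have := ((Complex.ofRealCLM.hasDerivAt (x := t)).mul_const Complex.I).const_add (x : ℂ)
  simpa using this

/-- BR2. `Sob → ACL2`. PROOF. `mx`, `my`: `U` is a countable union of compact sets `K_m`, `K_m ⊆ interior K_{m+1}`. `hor`: fix `m`, take the smooth `g n` of S05b (`Sob.exists_approx`) on `K_m`. By Fubini
`∫_y ∫_t 1_{K_m} ‖∂₁ g n - fx‖² → 0`, so for a subsequence and a.e. `y` the inner integrals tend to `0` (for all `m` at the same time: countably many null sets). For such `y` and a segment `[a,b] × {y} ⊆ U` (compact, so contained in some `K_m`):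
`g n (b,y) - g n (a,y) = ∫_a^b ∂₁ g n`, and both sides converge (Cauchy-Schwarz on the bounded interval). `ver` in the same way. -/
theorem Sob.acl2 {U : Set ℂ} (hU : IsOpen U) {f fx fy : ℂ → ℂ} (h : Sob U f fx fy) (hen : en U fx fy < ⊤) :
    ACL2 U f fx fy := by
  refine ⟨h.cont, br2_meas hU h.lx, br2_meas hU h.ly, hen, ?_, ?_⟩
  · have hP : MeasurePreserving (fun p : ℝ × ℝ => (⟨p.2, p.1⟩ : ℂ)) (volume.prod volume) volume :=
      (Complex.volume_preserving_equiv_real_prod.symm).comp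
        (Measure.measurePreserving_swap (μ := (volume : Measure ℝ)) (ν := (volume : Measure ℝ)))
    have hPe : MeasurableEmbedding (fun p : ℝ × ℝ => (⟨p.2, p.1⟩ : ℂ)) :=
      Complex.measurableEquivRealProd.symm.measurableEmbedding.comp
        MeasurableEquiv.prodComm.measurableEmbedding
    exact br2_gen hU h.lx (fun K hK hc => by
      obtain ⟨g, g1, g2, g3, -⟩ := h.exists_approx hU hc hK
      exact ⟨g, g1, g2, g3⟩) hP hPe (fun s t => br2_hor s t)
  · have hP : MeasurePreserving (fun p : ℝ × ℝ => (⟨p.1, p.2⟩ : ℂ)) (volume.prod volume) volume :=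
      Complex.volume_preserving_equiv_real_prod.symm
    have hPe : MeasurableEmbedding (fun p : ℝ × ℝ => (⟨p.1, p.2⟩ : ℂ)) :=
      Complex.measurableEquivRealProd.symm.measurableEmbedding
    exact br2_gen hU h.ly (fun K hK hc => by
      obtain ⟨g, g1, g2, -, g4⟩ := h.exists_approx hU hc hK
      exact ⟨g, g1, g2, g4⟩) hP hPe (fun s t => br2_ver s t)

end CF6

end

section

set_option autoImplicit false

open MeasureTheory Metric Set Filter Topology
open scoped ContDiff ENNReal ComplexConjugate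

namespace CF6

/-- S07c. the Jacobian: `jac (pbx ψ fx fy) (pby ψ fx fy) z = ‖deriv ψ z‖ ^ 2 * jac fx fy (ψ z)` -/
theorem jac_pb (ψ : ℂ → ℂ) (fx fy : ℂ → ℂ) (z : ℂ) :
    jac (pbx ψ fx fy) (pby ψ fx fy) z = ‖deriv ψ z‖ ^ 2 * jac fx fy (ψ z) := by
  unfold jac pbx pby
  rw [Complex.sq_norm, Complex.normSq_apply]
  simp only [Complex.mul_im, Complex.conj_re, Complex.conj_im, Complex.add_re, Complex.add_im,
    Complex.smul_re, Complex.smul_im, smul_eq_mul]
  ring

/-- S07d. preimages of null sets. PROOF. `N = {w ∈ ψ '' V | ¬ P w}` is null, contained in a measurable null set `N'`; area formula (`lintegral_image_eq_lintegral_abs_det_fderiv_mul`) for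
`A = V ∩ ψ ⁻¹' N'`: `∫_A ‖ψ'‖² = volume (ψ '' A) = 0`, so `ψ' = 0` a.e. on `A`. -/
theorem ae_comp_conf {V : Set ℂ} {ψ : ℂ → ℂ} (hV : IsOpen V) (hd : DifferentiableOn ℂ ψ V) (hi : InjOn ψ V)
    {P : ℂ → Prop} (hP : ∀ᵐ w, w ∈ ψ '' V → P w) : ∀ᵐ z, z ∈ V → deriv ψ z ≠ 0 → P (ψ z) := by
  have hN : volume {w | ¬ (w ∈ ψ '' V → P w)} = 0 := ae_iff.1 hP
  set N' : Set ℂ := toMeasurable volume {w | ¬ (w ∈ ψ '' V → P w)} with hN'
  have hN'0 : volume N' = 0 := by rw [hN', measure_toMeasurable]; exact hN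
  have hN'm : MeasurableSet N' := measurableSet_toMeasurable _ _
  set A : Set ℂ := V ∩ ψ ⁻¹' N' with hA
  have hAm : MeasurableSet A := by
    have h1 : MeasurableSet ((V.domRestrict ψ) ⁻¹' N') :=
      (continuousOn_iff_continuous_domRestrict.1 hd.continuousOn).measurable hN'm
    have h2 : A = Subtype.val '' ((V.domRestrict ψ) ⁻¹' N') := by
      ext z
      constructor
      · rintro ⟨hz, hz'⟩
        exact ⟨⟨z, hz⟩, hz', rfl⟩
      · rintro ⟨⟨y, hy⟩, hy', rfl⟩
        exact ⟨hy, hy'⟩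
    rw [h2]
    exact hV.measurableSet.subtype_image h1
  have hAV : A ⊆ V := inter_subset_left
  have hf' : ∀ x ∈ A, HasFDerivWithinAt ψ ((fderiv ℂ ψ x).restrictScalars ℝ) A x := by
    intro x hx
    have h1 : HasFDerivAt ψ (fderiv ℂ ψ x) x :=
      ((hd x (hAV hx)).differentiableAt (hV.mem_nhds (hAV hx))).hasFDerivAt
    exact (h1.restrictScalars ℝ).hasFDerivWithinAt
  have harea := lintegral_abs_det_fderiv_eq_addHaar_image volume hAm hf' (hi.mono hAV)
  have himg : volume (ψ '' A) = 0 := by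
    refine measure_mono_null ?_ hN'0
    rintro _ ⟨z, hz, rfl⟩
    exact hz.2
  rw [himg] at harea
  have hae := (lintegral_eq_zero_iff' (aemeasurable_ofReal_abs_det_fderivWithin volume hAm hf')).1
    harea
  have hae2 := (ae_restrict_iff' hAm).1 hae
  filter_upwards [hae2] with z hz hzV hz0
  by_contra hPz
  have hzA : z ∈ A := by
    refine ⟨hzV, subset_toMeasurable _ _ ?_⟩
    intro h
    exact hPz (h ⟨z, hzV, rfl⟩)
  have h3 := hz hzA
  have h4 : ((fderiv ℂ ψ z).restrictScalars ℝ).det = 0 := by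
    have h5 : ENNReal.ofReal |((fderiv ℂ ψ z).restrictScalars ℝ).det| = 0 := h3
    rw [ENNReal.ofReal_eq_zero] at h5
    exact abs_eq_zero.1 (le_antisymm h5 (abs_nonneg _))
  have h6 := LinearMap.bot_lt_ker_of_det_eq_zero
    (f := (((fderiv ℂ ψ z).restrictScalars ℝ : ℂ →L[ℝ] ℂ) : ℂ →ₗ[ℝ] ℂ)) h4
  obtain ⟨v, hv, hv0⟩ := (Submodule.ne_bot_iff _).1 h6.ne'
  have h7 : fderiv ℂ ψ z v = 0 := hv
  rw [fderiv_eq_smul_deriv] at h7
  have h8 : v * deriv ψ z = 0 := h7
  rcases mul_eq_zero.1 h8 with h | h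
  · exact hv0 h
  · exact hz0 h

end CF6

end

section

set_option autoImplicit false

open MeasureTheory Metric Set Filter Topology
open scoped ContDiff ENNReal ComplexConjugate

namespace CF6

section s07a

variable {E : Type*} [NormedAddCommGroup E] [InnerProductSpace ℝ E]

/-- a real linear map on `ℂ` from its values at `1` and `I` -/
theorem s07a_clm (L : ℂ →L[ℝ] E) (w : ℂ) : L w = w.re • L 1 + w.im • L Complex.I := by
  have h : w = w.re • (1 : ℂ) + w.im • Complex.I := by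
    apply Complex.ext <;> simp
  conv_lhs => rw [h]
  rw [map_add, map_smul, map_smul]

theorem s07a_chain {g : ℂ → E} {ψ : ℂ → ℂ} {z : ℂ} (hg : ContDiff ℝ ∞ g) (hψ : DifferentiableAt ℂ ψ z) :
    fderiv ℝ (fun x => g (ψ x)) z 1
      = pbx ψ (fun w => fderiv ℝ g w 1) (fun w => fderiv ℝ g w Complex.I) z ∧
    fderiv ℝ (fun x => g (ψ x)) z Complex.I
      = pby ψ (fun w => fderiv ℝ g w 1) (fun w => fderiv ℝ g w Complex.I) z := by
  have h1 : HasFDerivAt ψ (deriv ψ z • (1 : ℂ →L[ℝ] ℂ)) z := hψ.hasDerivAt.complexToReal_fderiv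
  have h2 : HasFDerivAt g (fderiv ℝ g (ψ z)) (ψ z) :=
    ((hg.differentiable (by simp)) (ψ z)).hasFDerivAt
  have h3 := h2.comp z h1
  have h4 : fderiv ℝ (fun x => g (ψ x)) z = (fderiv ℝ g (ψ z)).comp (deriv ψ z • (1 : ℂ →L[ℝ] ℂ)) :=
    h3.fderiv
  rw [h4]
  constructor
  · have e : ((fderiv ℝ g (ψ z)).comp (deriv ψ z • (1 : ℂ →L[ℝ] ℂ))) 1 = fderiv ℝ g (ψ z) (deriv ψ z) := by
      simp
    rw [e, s07a_clm]
    rfl
  · have e : ((fderiv ℝ g (ψ z)).comp (deriv ψ z • (1 : ℂ →L[ℝ] ℂ))) Complex.I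
        = fderiv ℝ g (ψ z) (deriv ψ z * Complex.I) := by
      simp
    rw [e, s07a_clm]
    simp [pby]

omit [InnerProductSpace ℝ E] in
theorem s07a_memLp_iff {f : ℂ → E} {μ : Measure ℂ} :
    MemLp f 2 μ ↔ AEStronglyMeasurable f μ ∧ ∫⁻ z, ‖f z‖ₑ ^ 2 ∂μ < ⊤ := by
  unfold MemLp
  rw [eLpNorm_lt_top_iff_lintegral_rpow_enorm_lt_top (by norm_num) (by norm_num)]
  simp

/-- measurability of the composition -/
theorem s07a_aesm {V K : Set ℂ} {fx fy : ℂ → E} {ψ : ℂ → ℂ} (hV : IsOpen V)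
    (hd : DifferentiableOn ℂ ψ V) (hi : InjOn ψ V) (hK : IsCompact K) (hKV : K ⊆ V)
    (hx : AEStronglyMeasurable fx (volume.restrict (ψ '' K)))
    (hy : AEStronglyMeasurable fy (volume.restrict (ψ '' K))) :
    AEStronglyMeasurable (pbx ψ fx fy) (volume.restrict K) ∧
    AEStronglyMeasurable (pby ψ fx fy) (volume.restrict K) := by
  have hψK : IsCompact (ψ '' K) := hK.image_of_continuousOn (hd.continuousOn.mono hKV)
  have hKm : MeasurableSet K := hK.measurableSet
  have hψm : MeasurableSet (ψ '' K) := hψK.measurableSet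
  have hψ : AEMeasurable ψ (volume.restrict K) := (hd.continuousOn.mono hKV).aemeasurable hKm
  have hdψ : AEStronglyMeasurable (deriv ψ) (volume.restrict K) := (measurable_deriv ψ).aestronglyMeasurable
  obtain ⟨fx', hfx', hex⟩ := hx
  obtain ⟨fy', hfy', hey⟩ := hy
  have cx : ∀ᵐ w, w ∈ ψ '' V → (w ∈ ψ '' K → fx w = fx' w) := by
    have := (ae_restrict_iff' hψm).mp hex
    exact this.mono fun w hw _ => hw
  have cy : ∀ᵐ w, w ∈ ψ '' V → (w ∈ ψ '' K → fy w = fy' w) := by
    have := (ae_restrict_iff' hψm).mp hey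
    exact this.mono fun w hw _ => hw
  have dx := ae_comp_conf hV hd hi cx
  have dy := ae_comp_conf hV hd hi cy
  have kx : AEStronglyMeasurable (fun z => fx' (ψ z)) (volume.restrict K) :=
    (hfx'.aestronglyMeasurable).comp_aemeasurable hψ
  have ky : AEStronglyMeasurable (fun z => fy' (ψ z)) (volume.restrict K) :=
    (hfy'.aestronglyMeasurable).comp_aemeasurable hψ
  have hre : AEStronglyMeasurable (fun z => (deriv ψ z).re) (volume.restrict K) :=
    Complex.continuous_re.comp_aestronglyMeasurable hdψ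
  have him : AEStronglyMeasurable (fun z => (deriv ψ z).im) (volume.restrict K) :=
    Complex.continuous_im.comp_aestronglyMeasurable hdψ
  constructor
  · have h1 : AEStronglyMeasurable (pbx ψ fx' fy') (volume.restrict K) :=
      (hre.smul kx).add (him.smul ky)
    refine h1.congr ?_
    rw [Filter.EventuallyEq, ae_restrict_iff' hKm]
    filter_upwards [dx, dy] with z hzx hzy hzK
    unfold pbx
    by_cases h0 : deriv ψ z = 0
    · rw [h0]; simp
    · rw [hzx (hKV hzK) h0 (mem_image_of_mem ψ hzK), hzy (hKV hzK) h0 (mem_image_of_mem ψ hzK)]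
  · have h1 : AEStronglyMeasurable (pby ψ fx' fy') (volume.restrict K) :=
      (him.neg.smul kx).add (hre.smul ky)
    refine h1.congr ?_
    rw [Filter.EventuallyEq, ae_restrict_iff' hKm]
    filter_upwards [dx, dy] with z hzx hzy hzK
    unfold pby
    by_cases h0 : deriv ψ z = 0
    · rw [h0]; simp
    · rw [hzx (hKV hzK) h0 (mem_image_of_mem ψ hzK), hzy (hKV hzK) h0 (mem_image_of_mem ψ hzK)]

/-- the energy bound -/
theorem s07a_energy {V K : Set ℂ} {fx fy : ℂ → E} {ψ : ℂ → ℂ} (hV : IsOpen V)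
    (hd : DifferentiableOn ℂ ψ V) (hi : InjOn ψ V) (hK : IsCompact K) (hKV : K ⊆ V)
    (hx : AEStronglyMeasurable fx (volume.restrict (ψ '' K))) :
    (∫⁻ z in K, ‖pbx ψ fx fy z‖ₑ ^ 2) ≤ (∫⁻ z in ψ '' K, ‖fx z‖ₑ ^ 2) + ∫⁻ z in ψ '' K, ‖fy z‖ₑ ^ 2 ∧
    (∫⁻ z in K, ‖pby ψ fx fy z‖ₑ ^ 2) ≤ (∫⁻ z in ψ '' K, ‖fx z‖ₑ ^ 2) + ∫⁻ z in ψ '' K, ‖fy z‖ₑ ^ 2 := by
  have h1 := en_comp_conf (fx := fx) (fy := fy) hV hd hi hK.measurableSet hKV
  have h2 : enE (ψ '' K) fx fy = (∫⁻ z in ψ '' K, ‖fx z‖ₑ ^ 2) + ∫⁻ z in ψ '' K, ‖fy z‖ₑ ^ 2 := by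
    unfold enE
    rw [lintegral_add_left' (hx.enorm.pow_const 2)]
  rw [← h2, ← h1]
  unfold enE
  constructor
  · exact lintegral_mono fun z => le_self_add
  · exact lintegral_mono fun z => le_add_self

theorem s07a_memLp {V K : Set ℂ} {fx fy : ℂ → E} {ψ : ℂ → ℂ} (hV : IsOpen V)
    (hd : DifferentiableOn ℂ ψ V) (hi : InjOn ψ V) (hK : IsCompact K) (hKV : K ⊆ V)
    (hx : MemLp fx 2 (volume.restrict (ψ '' K))) (hy : MemLp fy 2 (volume.restrict (ψ '' K))) :
    MemLp (pbx ψ fx fy) 2 (volume.restrict K) ∧ MemLp (pby ψ fx fy) 2 (volume.restrict K) := by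
  have h1 := s07a_aesm hV hd hi hK hKV hx.1 hy.1
  have h2 := s07a_energy (fy := fy) hV hd hi hK hKV hx.1
  have h3 : (∫⁻ z in ψ '' K, ‖fx z‖ₑ ^ 2) + ∫⁻ z in ψ '' K, ‖fy z‖ₑ ^ 2 < ⊤ :=
    ENNReal.add_lt_top.mpr ⟨(s07a_memLp_iff.mp hx).2, (s07a_memLp_iff.mp hy).2⟩
  exact ⟨s07a_memLp_iff.mpr ⟨h1.1, h2.1.trans_lt h3⟩, s07a_memLp_iff.mpr ⟨h1.2, h2.2.trans_lt h3⟩⟩

end s07a

/-- S07a. CONFORMAL CHANGE OF VARIABLES.
PROOF. On balls `B` with closure in `V` (S03). `ψ` is injective and holomorphic, so `ψ' ≠ 0` on `V` (`Complex...deriv_ne_zero_of_injOn`-like lemma; if it is not in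
Mathlib: an injective holomorphic function has nonzero derivative) - it is not even needed: only bounds of `ψ'` on compact sets are used.
`K = closure B`, `ψ '' K` compact in `U`; S05b: smooth `g n → f` on `ψ '' K`. `g n ∘ ψ` is smooth on `V` near `K`, with partial derivatives `pbx ψ (∂₁ g n) (∂₂ g n)`, ... (chain rule,
`deriv ψ z * 1`, `deriv ψ z * I`). Convergence: `∫_K |ψ'|² ‖(∂g n - fx) ∘ ψ‖² = ∫_{ψ(K)} ‖∂ g n - fx‖²` (S07b: change of variables, `ψ` injective). S06a. -/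
theorem Sob.comp_conf {E : Type*} [NormedAddCommGroup E] [InnerProductSpace ℝ E] [CompleteSpace E]
    {U V : Set ℂ} {f fx fy : ℂ → E} {ψ : ℂ → ℂ} (hU : IsOpen U) (hV : IsOpen V) (h : Sob U f fx fy)
    (hd : DifferentiableOn ℂ ψ V) (hi : InjOn ψ V) (hm : MapsTo ψ V U) :
    Sob V (fun z => f (ψ z)) (pbx ψ fx fy) (pby ψ fx fy) := by
  apply sob_of_local hV
  intro z hz
  obtain ⟨r, hr, hrV⟩ : ∃ r > 0, closedBall z r ⊆ V :=
    Metric.nhds_basis_closedBall.mem_iff.mp (hV.mem_nhds hz)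
  refine ⟨ball z r, isOpen_ball, mem_ball_self hr, ?_⟩
  have hKc : IsCompact (closedBall z r) := isCompact_closedBall z r
  have hψK : IsCompact (ψ '' closedBall z r) := hKc.image_of_continuousOn (hd.continuousOn.mono hrV)
  have hKU : ψ '' closedBall z r ⊆ U := image_subset_iff.mpr (fun x hx => hm (hrV hx))
  have hballV : ball z r ⊆ V := ball_subset_closedBall.trans hrV
  obtain ⟨g, hg, hgu, hgx, hgy⟩ := h.exists_approx hU hψK hKU
  have hdr : ContDiffOn ℝ 1 ψ (ball z r) := by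
    have h1 : ContDiffOn ℂ 1 ψ V := hd.contDiffOn hV
    exact (h1.restrict_scalars ℝ).mono hballV
  have hG : ∀ n, Sob (ball z r) (fun x => g n (ψ x))
      (pbx ψ (fun w => fderiv ℝ (g n) w 1) (fun w => fderiv ℝ (g n) w Complex.I))
      (pby ψ (fun w => fderiv ℝ (g n) w 1) (fun w => fderiv ℝ (g n) w Complex.I)) := by
    intro n
    have hc : ContDiffOn ℝ 1 (fun x => g n (ψ x)) (ball z r) :=
      ((hg n).of_le (by exact_mod_cast le_top)).comp_contDiffOn hdr
    have h1 := sob_of_contDiffOn isOpen_ball hc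
    refine h1.congr_ae (ae_of_all _ fun x hx => ?_) (ae_of_all _ fun x hx => ?_)
    · exact ((s07a_chain (hg n) (hd.differentiableAt (hV.mem_nhds (hballV hx)))).1).symm
    · exact ((s07a_chain (hg n) (hd.differentiableAt (hV.mem_nhds (hballV hx)))).2).symm
  have hmx : MemLp fx 2 (volume.restrict (ψ '' closedBall z r)) := h.lx _ hKU hψK
  have hmy : MemLp fy 2 (volume.restrict (ψ '' closedBall z r)) := h.ly _ hKU hψK
  have hM := s07a_memLp hV hd hi hKc hrV hmx hmy
  have hcx : ∀ n, Continuous (fun w => fderiv ℝ (g n) w 1) := fun n =>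
    ((hg n).continuous_fderiv (by simp)).clm_apply continuous_const
  have hcy : ∀ n, Continuous (fun w => fderiv ℝ (g n) w Complex.I) := fun n =>
    ((hg n).continuous_fderiv (by simp)).clm_apply continuous_const
  have hax : ∀ n, AEStronglyMeasurable (fun w => fderiv ℝ (g n) w 1 - fx w)
      (volume.restrict (ψ '' closedBall z r)) := fun n =>
    ((hcx n).aestronglyMeasurable).sub hmx.1
  have hsum : Tendsto (fun n => (∫⁻ w in ψ '' closedBall z r, ‖fderiv ℝ (g n) w 1 - fx w‖ₑ ^ 2)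
      + ∫⁻ w in ψ '' closedBall z r, ‖fderiv ℝ (g n) w Complex.I - fy w‖ₑ ^ 2) atTop (𝓝 0) := by
    have := hgx.add hgy
    rwa [add_zero] at this
  refine sob_of_tendsto isOpen_ball hG ?_ ?_ ?_ ?_ ?_
  · intro K₀ hK₀ _
    have h1 : TendstoUniformlyOn (fun n => g n ∘ ψ) (f ∘ ψ) atTop (ψ ⁻¹' (ψ '' closedBall z r)) :=
      hgu.comp ψ
    exact h1.mono fun x hx => mem_image_of_mem ψ (ball_subset_closedBall (hK₀ hx))
  · intro K₀ hK₀ _
    exact hM.1.mono_measure (Measure.restrict_mono (hK₀.trans ball_subset_closedBall) le_rfl)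
  · intro K₀ hK₀ _
    exact hM.2.mono_measure (Measure.restrict_mono (hK₀.trans ball_subset_closedBall) le_rfl)
  · intro K₀ hK₀ _
    refine tendsto_of_tendsto_of_tendsto_of_le_of_le tendsto_const_nhds hsum (fun _ => zero_le) fun n => ?_
    refine le_trans ?_ (s07a_energy (fx := fun w => fderiv ℝ (g n) w 1 - fx w)
      (fy := fun w => fderiv ℝ (g n) w Complex.I - fy w) hV hd hi hKc hrV (hax n)).1
    refine le_trans (le_of_eq ?_) (lintegral_mono_set (hK₀.trans ball_subset_closedBall))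
    refine lintegral_congr fun x => ?_
    congr 2
    simp only [pbx, smul_sub]
    abel
  · intro K₀ hK₀ _
    refine tendsto_of_tendsto_of_tendsto_of_le_of_le tendsto_const_nhds hsum (fun _ => zero_le) fun n => ?_
    refine le_trans ?_ (s07a_energy (fx := fun w => fderiv ℝ (g n) w 1 - fx w)
      (fy := fun w => fderiv ℝ (g n) w Complex.I - fy w) hV hd hi hKc hrV (hax n)).2
    refine le_trans (le_of_eq ?_) (lintegral_mono_set (hK₀.trans ball_subset_closedBall))
    refine lintegral_congr fun x => ?_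
    congr 2
    simp only [pby, smul_sub]
    abel

end CF6

end

section

set_option autoImplicit false

open MeasureTheory Metric Set Filter Topology
open scoped ContDiff ENNReal ComplexConjugate

namespace CF6

theorem br3_setIntegral {U : Set ℂ} {g : ℂ → ℂ} (hg : ∀ z, z ∉ U → g z = 0) :
    ∫ z in U, g z = ∫ z, g z :=
  setIntegral_eq_integral_of_forall_compl_eq_zero hg

theorem br3_phi {U : Set ℂ} {φ : ℂ → ℝ} (hφU : tsupport φ ⊆ U) {z : ℂ} (hz : z ∉ U) :
    φ z = 0 := by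
  by_contra h
  exact hz (hφU (subset_tsupport φ h))

theorem br3_dphi {U : Set ℂ} {φ : ℂ → ℝ} (hφU : tsupport φ ⊆ U) {z : ℂ} (hz : z ∉ U) :
    fderiv ℝ φ z = 0 :=
  Function.notMem_support.1 (fun h => hz (hφU (support_fderiv_subset ℝ h)))

theorem br3_memLp {K U : Set ℂ} (hKU : K ⊆ U) {g : ℂ → ℂ}
    (hm : AEStronglyMeasurable g (volume.restrict K)) (hfin : ∫⁻ z in U, ‖g z‖ₑ ^ 2 < ⊤) :
    MemLp g 2 (volume.restrict K) := by
  refine ⟨hm, ?_⟩
  rw [eLpNorm_lt_top_iff_lintegral_rpow_enorm_lt_top (by norm_num) (by norm_num)]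
  have h1 : ∫⁻ z in K, ‖g z‖ₑ ^ (2 : ℝ≥0∞).toReal = ∫⁻ z in K, ‖g z‖ₑ ^ 2 := by
    refine lintegral_congr fun z => ?_
    norm_num
  rw [h1]
  exact lt_of_le_of_lt (lintegral_mono_set hKU) hfin

/-- BR3. -/
theorem W12.sob {U : Set ℂ} (hU : IsOpen U) {f : ℂ → ℂ} {D : ℂ → ℂ →L[ℝ] ℂ} (hc : ContinuousOn f U)
    (h : W12 U f D) : Sob U f (fun z => D z 1) (fun z => D z Complex.I) := by
  obtain ⟨⟨-, hD, hw⟩, -, hen⟩ := h
  have hm : ∀ K, K ⊆ U → IsCompact K → ∀ e : ℂ,
      AEStronglyMeasurable (fun z => D z e) (volume.restrict K) := fun K hKU hK e =>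
    ((hD.integrableOn_compact_subset hKU hK).aestronglyMeasurable).apply_continuousLinearMap e
  have hf1 : ∫⁻ z in U, ‖D z 1‖ₑ ^ 2 < ⊤ :=
    lt_of_le_of_lt (lintegral_mono fun z => le_self_add) hen
  have hf2 : ∫⁻ z in U, ‖D z Complex.I‖ₑ ^ 2 < ⊤ :=
    lt_of_le_of_lt (lintegral_mono fun z => le_add_self) hen
  have hwe : ∀ φ : ℂ → ℝ, ContDiff ℝ ∞ φ → HasCompactSupport φ → tsupport φ ⊆ U → ∀ e : ℂ,
      ∫ z, (fderiv ℝ φ z e) • f z = - ∫ z, φ z • D z e := by
    intro φ hφ hφc hφU e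
    have h1 := hw φ hφ hφc hφU e
    rw [br3_setIntegral (fun z hz => by rw [br3_dphi hφU hz]; simp),
      br3_setIntegral (fun z hz => by rw [br3_phi hφU hz]; simp)] at h1
    exact h1
  exact ⟨hc, fun K hKU hK => br3_memLp hKU (hm K hKU hK 1) hf1,
    fun K hKU hK => br3_memLp hKU (hm K hKU hK Complex.I) hf2,
    fun φ hφ hφc hφU => hwe φ hφ hφc hφU 1, fun φ hφ hφc hφU => hwe φ hφ hφc hφU Complex.I⟩

theorem br3_integrable {U K : Set ℂ} {ψ : ℂ → ℝ} {g : ℂ → ℂ} (hψ : Continuous ψ)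
    (hK : IsCompact K) (hKU : K ⊆ U) (h0 : ∀ z, z ∉ K → ψ z = 0)
    (hg : ∀ K, K ⊆ U → IsCompact K → IntegrableOn g K volume) :
    Integrable (fun z => ψ z • g z) volume := by
  have h1 : IntegrableOn (fun z => ψ z • g z) K volume :=
    (hg K hKU hK).continuousOn_smul hψ.continuousOn hK
  refine (integrableOn_iff_integrable_of_support_subset ?_).1 h1
  intro z hz
  by_contra hzK
  apply hz
  simp [h0 z hzK]

/-- BR4. `D z = reCLM.smulRight (fx z) + imCLM.smulRight (fy z)`. -/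
theorem Sob.w12 {U : Set ℂ} (hU : IsOpen U) (hb : Bornology.IsBounded U) {f fx fy : ℂ → ℂ}
    (hf : ∃ M : ℝ, ∀ z ∈ U, ‖f z‖ ≤ M) (h : Sob U f fx fy) (hen : en U fx fy < ⊤) :
    ∃ D : ℂ → ℂ →L[ℝ] ℂ, W12 U f D ∧ energy U D = en U fx fy ∧
      ∀ z, D z 1 = fx z ∧ D z Complex.I = fy z := by
  set D : ℂ → ℂ →L[ℝ] ℂ := fun z =>
    Complex.reCLM.smulRight (fx z) + Complex.imCLM.smulRight (fy z) with hD
  have hDe : ∀ z e, D z e = e.re • fx z + e.im • fy z := by
    intro z e
    rw [hD]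
    simp
  have hD1 : ∀ z, D z 1 = fx z := by
    intro z
    rw [hDe]
    simp
  have hDI : ∀ z, D z Complex.I = fy z := by
    intro z
    rw [hDe]
    simp
  have hE : energy U D = en U fx fy := by
    unfold energy en
    refine lintegral_congr fun z => ?_
    rw [hD1, hDI]
  have hix : ∀ K, K ⊆ U → IsCompact K → IntegrableOn fx K volume := by
    intro K hKU hK
    have hfin : IsFiniteMeasure (volume.restrict K) :=
      ⟨by rw [Measure.restrict_apply_univ]; exact hK.measure_lt_top⟩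
    exact (h.lx K hKU hK).integrable (by norm_num)
  have hiy : ∀ K, K ⊆ U → IsCompact K → IntegrableOn fy K volume := by
    intro K hKU hK
    have hfin : IsFiniteMeasure (volume.restrict K) :=
      ⟨by rw [Measure.restrict_apply_univ]; exact hK.measure_lt_top⟩
    exact (h.ly K hKU hK).integrable (by norm_num)
  have hif : ∀ K, K ⊆ U → IsCompact K → IntegrableOn f K volume := fun K hKU hK =>
    (h.cont.mono hKU).integrableOn_compact hK
  refine ⟨D, ⟨⟨?_, ?_, ?_⟩, ?_, ?_⟩, hE, fun z => ⟨hD1 z, hDI z⟩⟩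
  · exact (locallyIntegrableOn_iff hU.isLocallyClosed).2 hif
  · refine (locallyIntegrableOn_iff hU.isLocallyClosed).2 fun K hKU hK => ?_
    have h1 : IntegrableOn (fun z => ContinuousLinearMap.smulRightL ℝ ℂ ℂ Complex.reCLM (fx z)) K
        volume := (ContinuousLinearMap.smulRightL ℝ ℂ ℂ Complex.reCLM).integrable_comp (hix K hKU hK)
    have h2 : IntegrableOn (fun z => ContinuousLinearMap.smulRightL ℝ ℂ ℂ Complex.imCLM (fy z)) K
        volume := (ContinuousLinearMap.smulRightL ℝ ℂ ℂ Complex.imCLM).integrable_comp (hiy K hKU hK)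
    exact h1.add h2
  · intro φ hφ hφc hφU e
    have hK : IsCompact (tsupport φ) := hφc
    have hd : Continuous (fderiv ℝ φ) := hφ.continuous_fderiv (by simp)
    have hdz : ∀ z, z ∉ tsupport φ → fderiv ℝ φ z = 0 := fun z hz =>
      br3_dphi (subset_refl _) hz
    have hpz : ∀ z, z ∉ tsupport φ → φ z = 0 := fun z hz => br3_phi (subset_refl _) hz
    rw [br3_setIntegral (fun z hz => by rw [br3_dphi hφU hz]; simp),
      br3_setIntegral (fun z hz => by rw [br3_phi hφU hz]; simp)]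
    have i1 : Integrable (fun z => (fderiv ℝ φ z 1) • f z) volume :=
      br3_integrable (hd.clm_apply continuous_const) hK hφU
        (fun z hz => by rw [hdz z hz]; rfl) hif
    have i2 : Integrable (fun z => (fderiv ℝ φ z Complex.I) • f z) volume :=
      br3_integrable (hd.clm_apply continuous_const) hK hφU
        (fun z hz => by rw [hdz z hz]; rfl) hif
    have i3 : Integrable (fun z => φ z • fx z) volume :=
      br3_integrable hφ.continuous hK hφU hpz hix
    have i4 : Integrable (fun z => φ z • fy z) volume :=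
      br3_integrable hφ.continuous hK hφU hpz hiy
    have e1 : ∀ z, (fderiv ℝ φ z e) • f z =
        e.re • ((fderiv ℝ φ z 1) • f z) + e.im • ((fderiv ℝ φ z Complex.I) • f z) := by
      intro z
      have h1 : e = e.re • (1 : ℂ) + e.im • Complex.I := by
        apply Complex.ext <;> simp
      conv_lhs => rw [h1]
      rw [map_add, map_smul, map_smul, add_smul, smul_eq_mul, smul_eq_mul, mul_smul, mul_smul]
    have e2 : ∀ z, φ z • D z e = e.re • (φ z • fx z) + e.im • (φ z • fy z) := by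
      intro z
      rw [hDe, smul_add, smul_comm (φ z) e.re, smul_comm (φ z) e.im]
    have j1 : Integrable (fun z => e.re • ((fderiv ℝ φ z 1) • f z)) volume := i1.smul e.re
    have j2 : Integrable (fun z => e.im • ((fderiv ℝ φ z Complex.I) • f z)) volume :=
      i2.smul e.im
    have j3 : Integrable (fun z => e.re • (φ z • fx z)) volume := i3.smul e.re
    have j4 : Integrable (fun z => e.im • (φ z • fy z)) volume := i4.smul e.im
    calc ∫ z, (fderiv ℝ φ z e) • f z
        = ∫ z, (e.re • ((fderiv ℝ φ z 1) • f z) + e.im • ((fderiv ℝ φ z Complex.I) • f z)) :=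
          integral_congr_ae (Eventually.of_forall e1)
      _ = e.re • (∫ z, (fderiv ℝ φ z 1) • f z) + e.im • ∫ z, (fderiv ℝ φ z Complex.I) • f z := by
          rw [integral_add j1 j2, integral_smul, integral_smul]
      _ = -(e.re • (∫ z, φ z • fx z) + e.im • ∫ z, φ z • fy z) := by
          rw [h.wx φ hφ hφc hφU, h.wy φ hφ hφc hφU, smul_neg, smul_neg, neg_add]
      _ = -∫ z, (e.re • (φ z • fx z) + e.im • (φ z • fy z)) := by
          rw [integral_add j3 j4, integral_smul, integral_smul]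
      _ = -∫ z, φ z • D z e := by
          rw [integral_congr_ae (Eventually.of_forall e2)]
  · obtain ⟨M, hM⟩ := hf
    have hle : ∀ z ∈ U, ‖f z‖ₑ ^ 2 ≤ ENNReal.ofReal (M ^ 2) := by
      intro z hz
      rw [← ofReal_norm, ← ENNReal.ofReal_pow (norm_nonneg _)]
      exact ENNReal.ofReal_le_ofReal (pow_le_pow_left₀ (norm_nonneg _) (hM z hz) 2)
    calc ∫⁻ z in U, ‖f z‖ₑ ^ 2 ≤ ∫⁻ z in U, ENNReal.ofReal (M ^ 2) :=
          setLIntegral_mono' hU.measurableSet hle
      _ = ENNReal.ofReal (M ^ 2) * volume U := by rw [setLIntegral_const]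
      _ < ⊤ := ENNReal.mul_lt_top ENNReal.ofReal_lt_top hb.measure_lt_top
  · rw [hE]
    exact hen

/-- conformal change of variables, line form -/
theorem ACL2.comp_conf {U V : Set ℂ} {f fx fy : ℂ → ℂ} {ψ : ℂ → ℂ} (hU : IsOpen U) (hV : IsOpen V)
    (h : ACL2 U f fx fy) (hd : DifferentiableOn ℂ ψ V) (hi : InjOn ψ V) (hm : MapsTo ψ V U) :
    ACL2 V (fun z => f (ψ z)) (pbx ψ fx fy) (pby ψ fx fy) ∧
      en V (pbx ψ fx fy) (pby ψ fx fy) = en (ψ '' V) fx fy := by
  have h1 : enE V (pbx ψ fx fy) (pby ψ fx fy) = enE (ψ '' V) fx fy :=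
    en_comp_conf hV hd hi hV.measurableSet (subset_refl V)
  have h2 : enE (ψ '' V) fx fy < ⊤ :=
    lt_of_le_of_lt (lintegral_mono_set (mapsTo_iff_image_subset.mp hm)) h.fin
  refine ⟨(((h.sob hU).comp_conf hU hV hd hi hm)).acl2 hV ?_, h1⟩
  rw [show en V (pbx ψ fx fy) (pby ψ fx fy) = enE V (pbx ψ fx fy) (pby ψ fx fy) from rfl, h1]
  exact h2

open Classical in
/-- gluing, line form -/
theorem ACL2.replace {U W : Set ℂ} {F Fx Fy u ux uy : ℂ → ℂ} (hU : IsOpen U) (hW : IsOpen W) (hWU : W ⊆ U)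
    (hF : ACL2 U F Fx Fy) (hu : ACL2 W u ux uy) (hc : ContinuousOn (W.piecewise u F) U) :
    ACL2 U (W.piecewise u F) (W.piecewise ux Fx) (W.piecewise uy Fy) ∧
      en U (W.piecewise ux Fx) (W.piecewise uy Fy) = en W ux uy + en (U \ W) Fx Fy := by
  have h3 : en U (W.piecewise ux Fx) (W.piecewise uy Fy) = en W ux uy + en (U \ W) Fx Fy := by
    unfold en
    rw [← lintegral_inter_add_diff _ U hW.measurableSet, inter_eq_self_of_subset_right hWU]
    congr 1
    · exact setLIntegral_congr_fun hW.measurableSet (fun z hz => by simp [hz])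
    · exact setLIntegral_congr_fun (hU.measurableSet.diff hW.measurableSet) (fun z hz => by simp [hz.2])
  refine ⟨((hF.sob hU).replace hU hW hWU (hu.sob hW) hc ?_).acl2 hU ?_, h3⟩
  · intro K _ _
    exact lt_of_le_of_lt (lintegral_mono_set inter_subset_left) hu.fin
  · rw [h3]
    exact ENNReal.add_lt_top.mpr ⟨hu.fin, lt_of_le_of_lt (lintegral_mono_set diff_subset) hF.fin⟩

/-- Courant-Lebesgue, line form -/
theorem ACL2.courant_lebesgue {U : Set ℂ} {f fx fy : ℂ → ℂ} (hU : IsOpen U) (h : ACL2 U f fx fy)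
    (ζ : ℂ) {ε δ : ℝ} (hε : 0 < ε) (hδ : 0 < δ) :
    ∃ ρ ∈ Ioo 0 δ, ∀ θ₁ θ₂ : ℝ, θ₁ ≤ θ₂ → θ₂ ≤ θ₁ + 2 * Real.pi →
      (∀ θ ∈ Icc θ₁ θ₂, circleMap ζ ρ θ ∈ U) →
      ‖f (circleMap ζ ρ θ₂) - f (circleMap ζ ρ θ₁)‖ ≤ ε :=
  CF6.courant_lebesgue hU (h.sob hU) h.fin ζ hε hδ

end CF6

end
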