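import Pool.Agent.Lib.MP_cf6b16_an.A1
import Pool.Agent.Lib.MP_cf6b16_an.DefsB
import Pool.Agent.Lib.MP_cf6b16_an.N1
import Pool.Agent.Lib.MP_cf6b16_an.K5

section

/-! # Module N, row N0: charts, pull back and push forward of ACL2 functions

`Chart.conj`: formal (conjugation is an involution, commutes with `z ↦ z + 2πi` up to sign; for `Xper` of the conjugate set use both directions of the equivalence).

`acl2_conj` (reflection): `x`-lines at height `y` of `f ∘ conj` are the lines at height `-y` of `f`; `y`-derivative changes sign; measure preserving map.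

`exists_pull`: choose Borel measurable `fx', fy'` equal to `fx, fy` a.e. on `A` (ACL2 for `fx', fy'`: on a.e. line they agree a.e., Fubini). If `ψ` is holomorphic put `Ht = pbx ψ fx' fy'` on `X`, `0` off `X`
(`deriv ψ` is `2πi`-periodic on `X`), `Hs = pby ψ fx' fy'`. `X ∩ {|im z| < R}` is covered by finitely many translates of sets on which `ψ` is injective, e.g. `X ∩ {a < im z < a + 6}`: `ACL2.comp_conf` on each of them; then glue:
`ACL2` is local if the total energy is finite (a segment in the union of finitely many open bands is a finite union of segments in bands; for `hor` a horizontal segment lies in one band). `en`: on `per1 X ∩ ψ⁻¹ E` the map `ψ` is injective, the image is `A ∩ E` up to the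
null set `ψ '' (X ∩ {im z = 0})` (change of variables `lintegral_image_eq_lintegral_abs_det_fderiv_mul`, as in `ACL2.comp_conf`). If `ψ ∘ conj` is holomorphic apply the first case to the conjugate chart and reflect.

`exists_push`: locally on `A` the map `ψ` has a holomorphic inverse branch with values in `X`; `f = F ∘ ψ⁻¹` is locally `ACL2` by `comp_conf`; the derivatives do not depend on the branch (periodicity); locality of ACL2 (`Sob` version: partition of unity,
or lines: a segment in `A` is a finite union of short segments). The energy is computed on `per1 X`. -/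

open Complex MeasureTheory Set Filter Topology Metric
open scoped ENNReal

namespace CF6

/-! ## auxiliary facts -/

theorem n0_mem_conj {X : Set ℂ} {z : ℂ} :
    z ∈ (starRingEnd ℂ) '' X ↔ (starRingEnd ℂ) z ∈ X := by
  constructor
  · rintro ⟨w, hw, rfl⟩
    rwa [Complex.conj_conj]
  · intro h
    exact ⟨_, h, Complex.conj_conj z⟩

theorem n0_image_conj (X : Set ℂ) : (starRingEnd ℂ) '' X = (starRingEnd ℂ) ⁻¹' X := by
  ext z
  exact n0_mem_conj

theorem n0_open_conj {X : Set ℂ} (hX : IsOpen X) : IsOpen ((starRingEnd ℂ) '' X) := by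
  rw [n0_image_conj]
  exact hX.preimage Complex.continuous_conj

theorem n0_mp : MeasurePreserving (fun z : ℂ => (starRingEnd ℂ) z) volume volume :=
  Complex.conjLIE.measurePreserving

theorem n0_emb : MeasurableEmbedding (fun z : ℂ => (starRingEnd ℂ) z) :=
  Complex.conjLIE.toHomeomorph.measurableEmbedding

theorem n0_conj_period (n : ℤ) : (starRingEnd ℂ) (n * (2 * Real.pi * I)) = -(n * (2 * Real.pi * I)) := by
  apply Complex.ext <;> simp

theorem n0_conj_period' : (starRingEnd ℂ) (2 * Real.pi * I) = -(2 * Real.pi * I) := by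
  apply Complex.ext <;> simp

theorem Chart.conj {X A : Set ℂ} {ψ : ℂ → ℂ} (h : Chart X A ψ) :
    Chart ((starRingEnd ℂ) '' X) A (fun z => ψ ((starRingEnd ℂ) z)) := by
  have hshift : ∀ z : ℂ, (starRingEnd ℂ) z ∈ X →
      (starRingEnd ℂ) (z + 2 * Real.pi * I) ∈ X ∧
      (starRingEnd ℂ) (z + 2 * Real.pi * I) + 2 * Real.pi * I = (starRingEnd ℂ) z := by
    intro z hz
    have h1 : (starRingEnd ℂ) (z + 2 * Real.pi * I) + 2 * Real.pi * I = (starRingEnd ℂ) z := by
      rw [map_add, n0_conj_period']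
      ring
    exact ⟨(h.Xper _).mpr (h1 ▸ hz), h1⟩
  refine ⟨n0_open_conj h.Xopen, ?_, ?_, ?_, ?_, ?_⟩
  · intro z
    rw [n0_mem_conj, n0_mem_conj]
    refine ⟨fun hz => (hshift z hz).1, fun hz => ?_⟩
    have h1 : (starRingEnd ℂ) (z + 2 * Real.pi * I) + 2 * Real.pi * I = (starRingEnd ℂ) z := by
      rw [map_add, n0_conj_period']
      ring
    rw [← h1]
    exact (h.Xper _).mp hz
  · rcases h.conf with hc | hc
    · right
      have h1 : (fun z => ψ ((starRingEnd ℂ) ((starRingEnd ℂ) z))) = ψ := by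
        funext z
        rw [Complex.conj_conj]
      have h2 : (starRingEnd ℂ) '' ((starRingEnd ℂ) '' X) = X := by
        ext z
        rw [n0_mem_conj, n0_mem_conj, Complex.conj_conj]
      change DifferentiableOn ℂ (fun z => ψ ((starRingEnd ℂ) ((starRingEnd ℂ) z))) _
      rw [h1, h2]
      exact hc
    · left
      exact hc
  · intro z hz
    rw [n0_mem_conj] at hz
    obtain ⟨h1, h2⟩ := hshift z hz
    have h3 := h.per _ h1
    rw [h2] at h3
    exact h3.symm
  · intro z hz w hw hzw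
    rw [n0_mem_conj] at hz hw
    obtain ⟨n, hn⟩ := h.inj _ hz _ hw hzw
    refine ⟨-n, ?_⟩
    have h1 := congrArg (starRingEnd ℂ) hn
    rw [Complex.conj_conj, map_add, Complex.conj_conj, n0_conj_period] at h1
    rw [h1]
    push_cast
    ring
  · rw [← h.image]
    ext w
    constructor
    · rintro ⟨z, hz, rfl⟩
      rw [n0_mem_conj] at hz
      exact ⟨_, hz, rfl⟩
    · rintro ⟨z, hz, rfl⟩
      exact ⟨(starRingEnd ℂ) z, ⟨z, hz, rfl⟩, by simp only [Complex.conj_conj]⟩

/-- translations by multiples of the period -/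
theorem n0_shift_mem {X A : Set ℂ} {ψ : ℂ → ℂ} (h : Chart X A ψ) (n : ℕ) (z : ℂ) :
    (z ∈ X ↔ z + n * (2 * Real.pi * I) ∈ X) := by
  induction n with
  | zero => simp
  | succ n ih =>
    rw [ih, h.Xper]
    have : z + n * (2 * Real.pi * I) + 2 * Real.pi * I =
        z + ((n + 1 : ℕ) : ℂ) * (2 * Real.pi * I) := by
      push_cast
      ring
    rw [this]

theorem n0_shift_mem' {X A : Set ℂ} {ψ : ℂ → ℂ} (h : Chart X A ψ) (n : ℤ) (z : ℂ) :
    (z ∈ X ↔ z + n * (2 * Real.pi * I) ∈ X) := by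
  rcases le_total 0 n with hn | hn
  · obtain ⟨m, rfl⟩ := Int.eq_ofNat_of_zero_le hn
    have := n0_shift_mem h m z
    simpa using this
  · obtain ⟨m, hm⟩ := Int.eq_ofNat_of_zero_le (neg_nonneg.mpr hn)
    have h1 := n0_shift_mem h m (z + n * (2 * Real.pi * I))
    have h2 : (n : ℂ) = -(m : ℂ) := by
      have : n = -(m : ℤ) := by omega
      rw [this]
      push_cast
      ring
    have h3 : z + n * (2 * Real.pi * I) + m * (2 * Real.pi * I) = z := by
      rw [h2]
      ring
    rw [h3] at h1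
    exact h1.symm

theorem n0_shift_eq {X A : Set ℂ} {ψ : ℂ → ℂ} (h : Chart X A ψ) (n : ℕ) {z : ℂ} (hz : z ∈ X) :
    ψ (z + n * (2 * Real.pi * I)) = ψ z := by
  induction n with
  | zero => simp
  | succ n ih =>
    have h1 := h.per _ ((n0_shift_mem h n z).mp hz)
    have : z + n * (2 * Real.pi * I) + 2 * Real.pi * I =
        z + ((n + 1 : ℕ) : ℂ) * (2 * Real.pi * I) := by
      push_cast
      ring
    rw [← this, h1, ih]

theorem n0_shift_eq' {X A : Set ℂ} {ψ : ℂ → ℂ} (h : Chart X A ψ) (n : ℤ) {z : ℂ} (hz : z ∈ X) :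
    ψ (z + n * (2 * Real.pi * I)) = ψ z := by
  rcases le_total 0 n with hn | hn
  · obtain ⟨m, rfl⟩ := Int.eq_ofNat_of_zero_le hn
    have := n0_shift_eq h m hz
    simpa using this
  · obtain ⟨m, hm⟩ := Int.eq_ofNat_of_zero_le (neg_nonneg.mpr hn)
    have h1 := n0_shift_eq h m ((n0_shift_mem' h n z).mp hz)
    have h2 : (n : ℂ) = -(m : ℂ) := by
      have : n = -(m : ℤ) := by omega
      rw [this]
      push_cast
      ring
    have h3 : z + n * (2 * Real.pi * I) + m * (2 * Real.pi * I) = z := by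
      rw [h2]
      ring
    rw [h3] at h1
    exact h1.symm

theorem n0_im_shift (z : ℂ) (n : ℤ) :
    (z + n * (2 * Real.pi * I)).im = z.im + 2 * Real.pi * n := by
  simp
  ring

/-- the chart is injective on strips of height `2π` -/
theorem n0_inj {X A : Set ℂ} {ψ : ℂ → ℂ} (h : Chart X A ψ) {V : Set ℂ} (hV : V ⊆ X)
    (hd : ∀ z ∈ V, ∀ w ∈ V, |w.im - z.im| < 2 * Real.pi) : InjOn ψ V := by
  intro z hz w hw hzw
  obtain ⟨n, hn⟩ := h.inj z (hV hz) w (hV hw) hzw
  have h1 := hd z hz w hw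
  have h2 : w.im - z.im = 2 * Real.pi * n := by
    rw [hn, n0_im_shift]
    ring
  rw [h2, abs_mul, abs_of_pos Real.two_pi_pos] at h1
  have h3 : n = 0 := by
    by_contra hne
    have h4 : (1 : ℝ) ≤ |(n : ℝ)| := by exact_mod_cast Int.one_le_abs hne
    nlinarith [Real.two_pi_pos]
  rw [hn, h3]
  simp

theorem n0_inj_strip {X A : Set ℂ} {ψ : ℂ → ℂ} (h : Chart X A ψ) (a : ℝ) :
    InjOn ψ (X ∩ {z | a < z.im ∧ z.im < a + 2 * Real.pi}) := by
  refine n0_inj h inter_subset_left ?_
  rintro z ⟨-, hz1, hz2⟩ w ⟨-, hw1, hw2⟩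
  rw [abs_lt]
  constructor <;> linarith

/-- small balls on which the chart is injective -/
theorem n0_ball {X A : Set ℂ} {ψ : ℂ → ℂ} (h : Chart X A ψ) {V : Set ℂ} (hV : IsOpen V)
    (hVX : V ⊆ X) {z : ℂ} (hz : z ∈ V) : ∃ r > 0, ball z r ⊆ V ∧ InjOn ψ (ball z r) := by
  obtain ⟨r, hr, hrV⟩ := Metric.isOpen_iff.mp hV z hz
  have hsub : ball z (min r 1) ⊆ V := (ball_subset_ball (min_le_left _ _)).trans hrV
  refine ⟨min r 1, lt_min hr one_pos, hsub, n0_inj h (hsub.trans hVX) ?_⟩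
  intro a ha b hb
  have h1 : dist b a < 2 := by
    calc dist b a ≤ dist b z + dist a z := dist_triangle_right _ _ _
      _ < min r 1 + min r 1 := add_lt_add hb ha
      _ ≤ 1 + 1 := add_le_add (min_le_right _ _) (min_le_right _ _)
      _ = 2 := by norm_num
  rw [dist_eq_norm] at h1
  have h2 : |b.im - a.im| ≤ ‖b - a‖ := by
    rw [← Complex.sub_im]
    exact Complex.abs_im_le_norm _
  linarith [Real.pi_gt_three]

theorem n0_open_holo {X A : Set ℂ} {ψ : ℂ → ℂ} (h : Chart X A ψ) (hd : DifferentiableOn ℂ ψ X)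
    {V : Set ℂ} (hVX : V ⊆ X) (hV : IsOpen V) : IsOpen (ψ '' V) := by
  rw [isOpen_iff_mem_nhds]
  rintro _ ⟨s, hs, rfl⟩
  obtain ⟨r, hr, hsub, hinj⟩ := n0_ball h hV hVX hs
  have han : AnalyticOnNhd ℂ ψ (ball s r) :=
    (hd.mono (hsub.trans hVX)).analyticOnNhd isOpen_ball
  have hopen : IsOpen (ψ '' ball s r) := by
    rcases han.is_constant_or_isOpen (convex_ball s r).isPreconnected with ⟨w, hw⟩ | h1
    · exfalso
      have h2 : s + (r / 2 : ℝ) ∈ ball s r := by
        rw [mem_ball, dist_eq_norm, add_sub_cancel_left, Complex.norm_real, Real.norm_eq_abs,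
          abs_of_pos (by positivity)]
        linarith
      have h3 := hinj (mem_ball_self hr) h2 (by rw [hw _ (mem_ball_self hr), hw _ h2])
      have h4 : ((r / 2 : ℝ) : ℂ) = 0 := by linear_combination -h3
      have h5 : r / 2 = 0 := by exact_mod_cast h4
      linarith
    · exact h1 _ subset_rfl isOpen_ball
  exact Filter.mem_of_superset (hopen.mem_nhds (mem_image_of_mem ψ (mem_ball_self hr)))
    (image_mono hsub)

theorem Chart.cont {X A : Set ℂ} {ψ : ℂ → ℂ} (h : Chart X A ψ) :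
    ContinuousOn ψ X ∧ ∀ V ⊆ X, IsOpen V → IsOpen (ψ '' V) := by
  rcases h.conf with hc | hc
  · exact ⟨hc.continuousOn, fun V hVX hV => n0_open_holo h hc hVX hV⟩
  · constructor
    · have h1 : ContinuousOn (fun z => ψ ((starRingEnd ℂ) ((starRingEnd ℂ) z))) X := by
        refine hc.continuousOn.comp (f := fun z => (starRingEnd ℂ) z)
          Complex.continuous_conj.continuousOn ?_
        intro z hz
        exact mem_image_of_mem _ hz
      simpa only [Complex.conj_conj] using h1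
    · intro V hVX hV
      have h1 := n0_open_holo h.conj hc (image_mono hVX) (n0_open_conj hV)
      have h2 : (fun z => ψ ((starRingEnd ℂ) z)) '' ((starRingEnd ℂ) '' V) = ψ '' V := by
        rw [image_image]
        simp only [Complex.conj_conj]
      rwa [h2] at h1

theorem acl2_conj {U : Set ℂ} {f fx fy : ℂ → ℂ} (hU : IsOpen U) (h : ACL2 U f fx fy) :
    ACL2 ((starRingEnd ℂ) '' U) (fun z => f ((starRingEnd ℂ) z)) (fun z => fx ((starRingEnd ℂ) z))
      (fun z => -fy ((starRingEnd ℂ) z)) := by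
  have hmp : MeasurePreserving (fun z : ℂ => (starRingEnd ℂ) z)
      (volume.restrict ((starRingEnd ℂ) '' U)) (volume.restrict U) := by
    rw [n0_image_conj]
    exact n0_mp.restrict_preimage_emb n0_emb U
  have hline : ∀ a b : ℝ, (starRingEnd ℂ) (⟨a, b⟩ : ℂ) = ⟨a, -b⟩ := fun a b => rfl
  refine ⟨?_, ?_, ?_, ?_, ?_, ?_⟩
  · refine h.cont.comp Complex.continuous_conj.continuousOn ?_
    intro z hz
    exact n0_mem_conj.mp hz
  · exact h.mx.comp_measurePreserving hmp
  · exact (h.my.comp_measurePreserving hmp).neg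
  · have h1 := hmp.lintegral_comp_emb n0_emb (fun z => ‖fx z‖ₑ ^ 2 + ‖fy z‖ₑ ^ 2)
    have h2 := h.fin
    rw [← h1] at h2
    simpa only [enorm_neg] using h2
  · have h1 := (Measure.measurePreserving_neg (volume : Measure ℝ)).quasiMeasurePreserving.ae h.hor
    filter_upwards [h1] with y hy a b hab hseg
    have h2 := hy a b hab (fun t ht => by
      have := n0_mem_conj.mp (hseg t ht)
      rwa [hline] at this)
    simp only [hline]
    exact h2
  · filter_upwards [h.ver] with x hx a b hab hseg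
    have h2 := hx (-b) (-a) (by linarith) (fun t ht => by
      have := n0_mem_conj.mp (hseg (-t) ⟨by linarith [ht.2], by linarith [ht.1]⟩)
      rwa [hline, neg_neg] at this)
    simp only [hline]
    obtain ⟨h3, h4⟩ := h2
    constructor
    · have h5 := (IntervalIntegrable.iff_comp_neg (by simp)).mp h3
      rw [neg_neg, neg_neg] at h5
      exact h5.symm.neg
    · rw [intervalIntegral.integral_neg, intervalIntegral.integral_comp_neg
        (fun t => fy ⟨x, t⟩), ← h4]
      ring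

/-- change of variables for one period: the exceptional set is null -/
theorem n0_null {X A : Set ℂ} {ψ : ℂ → ℂ} (h : Chart X A ψ) (hd : DifferentiableOn ℂ ψ X) :
    volume (A \ ψ '' per1 X) = 0 := by
  have h1 : A \ ψ '' per1 X ⊆ ψ '' (X ∩ {z | z.im = 0}) := by
    rintro w ⟨hwA, hw⟩
    rw [← h.image] at hwA
    obtain ⟨z, hz, rfl⟩ := hwA
    set n : ℤ := -⌊z.im / (2 * Real.pi)⌋ with hn
    have hpi := Real.two_pi_pos
    have h2 := Int.floor_le (z.im / (2 * Real.pi))
    have h3 := Int.lt_floor_add_one (z.im / (2 * Real.pi))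
    rw [le_div_iff₀ hpi] at h2
    rw [div_lt_iff₀ hpi] at h3
    have h4 : (z + n * (2 * Real.pi * I)).im = z.im - 2 * Real.pi * ⌊z.im / (2 * Real.pi)⌋ := by
      rw [n0_im_shift, hn]
      push_cast
      ring
    have h5 : z + n * (2 * Real.pi * I) ∈ X := (n0_shift_mem' h n z).mp hz
    have h6 : ψ (z + n * (2 * Real.pi * I)) = ψ z := n0_shift_eq' h n hz
    refine ⟨z + n * (2 * Real.pi * I), ⟨h5, ?_⟩, h6⟩
    by_contra hne
    apply hw
    refine ⟨z + n * (2 * Real.pi * I), ⟨h5, ?_, ?_⟩, h6⟩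
    · have h7 : 0 ≤ (z + n * (2 * Real.pi * I)).im := by
        rw [h4]
        linarith
      exact lt_of_le_of_ne h7 (Ne.symm hne)
    · rw [h4]
      linarith
  refine measure_mono_null h1 ?_
  refine addHaar_image_eq_zero_of_differentiableOn_of_addHaar_eq_zero volume ?_ ?_
  · exact (hd.restrictScalars ℝ).mono inter_subset_left
  · refine measure_mono_null (inter_subset_right) ?_
    have h2 : {z : ℂ | z.im = 0} = ((LinearMap.ker Complex.imLm : Submodule ℝ ℂ) : Set ℂ) := by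
      ext z
      simp
    rw [h2]
    refine Measure.addHaar_submodule volume _ ?_
    intro htop
    have h3 : (I : ℂ) ∈ (LinearMap.ker Complex.imLm : Submodule ℝ ℂ) := htop ▸ Submodule.mem_top
    simp at h3

theorem n0_per1_open {X : Set ℂ} (hX : IsOpen X) : IsOpen (per1 X) :=
  hX.inter ((isOpen_lt continuous_const Complex.continuous_im).inter
    (isOpen_lt Complex.continuous_im continuous_const))

end CF6

end

section

/-! # Module N, row N0b: pull back.  See the header of N0.lean for the proof. -/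

open Complex MeasureTheory Set Filter Topology Metric
open scoped ENNReal

namespace CF6

theorem n0b_en_mono {U V : Set ℂ} (h : U ⊆ V) (fx fy : ℂ → ℂ) : en U fx fy ≤ en V fx fy :=
  lintegral_mono_set h

theorem n0b_en_congr {U : Set ℂ} (hU : MeasurableSet U) {fx fy gx gy : ℂ → ℂ}
    (hx : ∀ z ∈ U, fx z = gx z) (hy : ∀ z ∈ U, fy z = gy z) : en U fx fy = en U gx gy := by
  unfold en
  refine setLIntegral_congr_fun hU fun z hz => ?_
  simp only [hx z hz, hy z hz]

theorem n0b_conf {X A : Set ℂ} {ψ : ℂ → ℂ} (h : Chart X A ψ) (hd : DifferentiableOn ℂ ψ X)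
    {gx gy : ℂ → ℂ} {V S : Set ℂ} (hV : IsOpen V) (hVX : V ⊆ X) (hi : InjOn ψ V)
    (hS : MeasurableSet S) (hSV : S ⊆ V) :
    en S (X.indicator (pbx ψ gx gy)) (X.indicator (pby ψ gx gy)) = en (ψ '' S) gx gy := by
  rw [n0b_en_congr hS (gx := pbx ψ gx gy) (gy := pby ψ gx gy)
    (fun z hz => indicator_of_mem (hVX (hSV hz)) _) (fun z hz => indicator_of_mem (hVX (hSV hz)) _)]
  exact en_comp_conf hV (hd.mono hVX) hi hS hSV

theorem n0b_union {ι : Type} (t : Finset ι) (V : ι → Set ℂ) (F : ℂ → ℝ≥0∞)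
    (h : ∀ j ∈ t, ∫⁻ z in V j, F z < ⊤) : ∫⁻ z in ⋃ j ∈ t, V j, F z < ⊤ := by
  classical
  induction t using Finset.induction_on with
  | empty => simp
  | insert a t ha ih =>
    rw [Finset.set_biUnion_insert]
    refine lt_of_le_of_lt (lintegral_union_le _ _ _) (ENNReal.add_lt_top.mpr ⟨?_, ?_⟩)
    · exact h a (Finset.mem_insert_self _ _)
    · exact ih fun j hj => h j (Finset.mem_insert_of_mem hj)

/-- finite energy on bounded pieces of the strip -/
theorem n0b_fin {X A : Set ℂ} {ψ : ℂ → ℂ} (h : Chart X A ψ) (hd : DifferentiableOn ℂ ψ X)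
    {gx gy : ℂ → ℂ} (hfin : en A gx gy < ⊤) (R : ℝ) :
    en (X ∩ {z | |z.im| < R}) (X.indicator (pbx ψ gx gy)) (X.indicator (pby ψ gx gy)) < ⊤ := by
  set V : ℤ → Set ℂ := fun j => X ∩ {z | Real.pi * j < z.im ∧ z.im < Real.pi * j + 2 * Real.pi}
    with hVdef
  have hVo : ∀ j, IsOpen (V j) := fun j => h.Xopen.inter
    ((isOpen_lt continuous_const Complex.continuous_im).inter
      (isOpen_lt Complex.continuous_im continuous_const))
  obtain ⟨N, hN⟩ := exists_nat_ge (R / Real.pi + 2)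
  have hcover : X ∩ {z | |z.im| < R} ⊆ ⋃ j ∈ Finset.Icc (-(N : ℤ)) N, V j := by
    rintro z ⟨hz, hzR⟩
    have hpi := Real.pi_pos
    have hzR' : |z.im| < R := hzR
    rw [abs_lt] at hzR'
    set j : ℤ := ⌈z.im / Real.pi⌉ - 1 with hj
    have h1 := Int.le_ceil (z.im / Real.pi)
    have h2 := Int.ceil_lt_add_one (z.im / Real.pi)
    have hN' : R + 2 * Real.pi ≤ N * Real.pi := by
      have := mul_le_mul_of_nonneg_right hN hpi.le
      rw [add_mul, div_mul_cancel₀ _ hpi.ne'] at this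
      exact this
    rw [div_le_iff₀ hpi] at h1
    have h2' : (⌈z.im / Real.pi⌉ : ℝ) * Real.pi < z.im + Real.pi := by
      have := mul_lt_mul_of_pos_right h2 hpi
      rw [add_mul, div_mul_cancel₀ _ hpi.ne', one_mul] at this
      exact this
    have hjr : (j : ℝ) = ⌈z.im / Real.pi⌉ - 1 := by
      rw [hj]
      push_cast
      ring
    simp only [mem_iUnion, Finset.mem_Icc, exists_prop]
    refine ⟨j, ⟨?_, ?_⟩, hz, ?_, ?_⟩
    · have : -(N : ℝ) < j := by
        rw [hjr]
        by_contra hcon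
        push Not at hcon
        nlinarith
      exact_mod_cast this.le
    · have : (j : ℝ) < N := by
        rw [hjr]
        by_contra hcon
        push Not at hcon
        nlinarith
      exact_mod_cast this.le
    · rw [hjr]
      nlinarith
    · rw [hjr]
      nlinarith
  refine lt_of_le_of_lt (n0b_en_mono hcover _ _) ?_
  refine n0b_union _ _ _ fun j _ => ?_
  have h1 := n0b_conf h hd (gx := gx) (gy := gy) (hVo j) inter_subset_left
    (n0_inj_strip h (Real.pi * j)) (hVo j).measurableSet subset_rfl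
  have h2 : en (ψ '' V j) gx gy ≤ en A gx gy := by
    refine n0b_en_mono ?_ _ _
    rw [← h.image]
    exact image_mono inter_subset_left
  exact lt_of_le_of_lt (h1.le.trans h2) hfin

/-- the holomorphic case -/
theorem n0b_holo {X A : Set ℂ} {ψ f fx fy : ℂ → ℂ} (h : Chart X A ψ) (hA : IsOpen A)
    (hd : DifferentiableOn ℂ ψ X) (hf : ACL2 A f fx fy) :
    ∃ H Ht Hs : ℂ → ℂ, Pull X A ψ f fx fy H Ht Hs := by
  classical
  set gx := hf.mx.mk fx with hgx
  set gy := hf.my.mk fy with hgy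
  have hgxm : Measurable gx := hf.mx.stronglyMeasurable_mk.measurable
  have hgym : Measurable gy := hf.my.stronglyMeasurable_mk.measurable
  have hgxe : fx =ᵐ[volume.restrict A] gx := hf.mx.ae_eq_mk
  have hgye : fy =ᵐ[volume.restrict A] gy := hf.my.ae_eq_mk
  have hxe : ∀ᵐ z, z ∈ A → gx z = fx z := by
    filter_upwards [(ae_restrict_iff' hA.measurableSet).mp hgxe] with z hz hzA
    exact (hz hzA).symm
  have hye : ∀ᵐ z, z ∈ A → gy z = fy z := by
    filter_upwards [(ae_restrict_iff' hA.measurableSet).mp hgye] with z hz hzA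
    exact (hz hzA).symm
  have hSob : Sob A f gx gy := (hf.sob hA).congr_ae hxe hye
  have hen : ∀ S ⊆ A, MeasurableSet S → en S gx gy = en S fx fy := by
    intro S hSA hS
    unfold en
    refine setLIntegral_congr_fun_ae hS ?_
    filter_upwards [hxe, hye] with z h1 h2 hz
    rw [h1 (hSA hz), h2 (hSA hz)]
  have hfin : en A gx gy < ⊤ := by
    rw [hen A subset_rfl hA.measurableSet]
    exact hf.fin
  have hXm : MeasurableSet X := h.Xopen.measurableSet
  set ψ' : ℂ → ℂ := X.piecewise ψ (fun _ => 0) with hψ'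
  have hψ'm : Measurable ψ' :=
    hd.continuousOn.measurable_piecewise continuousOn_const hXm
  have hψ'e : ∀ z ∈ X, ψ' z = ψ z := fun z hz => piecewise_eq_of_mem _ _ _ hz
  have hdm : Measurable (deriv ψ) := measurable_deriv ψ
  have hHt : X.indicator (pbx ψ gx gy) = X.indicator
      (fun z => (deriv ψ z).re • gx (ψ' z) + (deriv ψ z).im • gy (ψ' z)) := by
    refine indicator_congr fun z hz => ?_
    rw [hψ'e z hz]
    rfl
  have hHs : X.indicator (pby ψ gx gy) = X.indicator
      (fun z => (-(deriv ψ z).im) • gx (ψ' z) + (deriv ψ z).re • gy (ψ' z)) := by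
    refine indicator_congr fun z hz => ?_
    rw [hψ'e z hz]
    rfl
  have hre : Measurable fun z => (deriv ψ z).re := Complex.measurable_re.comp hdm
  have him : Measurable fun z => (deriv ψ z).im := Complex.measurable_im.comp hdm
  have hmt : Measurable (X.indicator (pbx ψ gx gy)) := by
    rw [hHt]
    exact ((hre.smul (hgxm.comp hψ'm)).add (him.smul (hgym.comp hψ'm))).indicator hXm
  have hms : Measurable (X.indicator (pby ψ gx gy)) := by
    rw [hHs]
    exact ((him.neg.smul (hgxm.comp hψ'm)).add (hre.smul (hgym.comp hψ'm))).indicator hXm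
  have hderper : ∀ z ∈ X, deriv ψ (z + 2 * Real.pi * I) = deriv ψ z := by
    intro z hz
    rw [← deriv_comp_add_const]
    refine Filter.EventuallyEq.deriv_eq ?_
    filter_upwards [h.Xopen.mem_nhds hz] with w hw
    exact h.per w hw
  have hpt : ∀ z, X.indicator (pbx ψ gx gy) (z + 2 * Real.pi * I) =
      X.indicator (pbx ψ gx gy) z := by
    intro z
    by_cases hz : z ∈ X
    · rw [indicator_of_mem hz, indicator_of_mem ((h.Xper z).mp hz)]
      unfold pbx
      rw [hderper z hz, h.per z hz]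
    · rw [indicator_of_notMem hz, indicator_of_notMem fun h1 => hz ((h.Xper z).mpr h1)]
  have hps : ∀ z, X.indicator (pby ψ gx gy) (z + 2 * Real.pi * I) =
      X.indicator (pby ψ gx gy) z := by
    intro z
    by_cases hz : z ∈ X
    · rw [indicator_of_mem hz, indicator_of_mem ((h.Xper z).mp hz)]
      unfold pby
      rw [hderper z hz, h.per z hz]
    · rw [indicator_of_notMem hz, indicator_of_notMem fun h1 => hz ((h.Xper z).mpr h1)]
  have hSobX : Sob X (fun z => f (ψ z)) (X.indicator (pbx ψ gx gy))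
      (X.indicator (pby ψ gx gy)) := by
    refine sob_of_local h.Xopen fun z hz => ?_
    obtain ⟨r, hr, hsub, hinj⟩ := n0_ball h h.Xopen subset_rfl hz
    refine ⟨ball z r, isOpen_ball, mem_ball_self hr, ?_⟩
    have h1 := hSob.comp_conf hA isOpen_ball (hd.mono hsub) hinj (by
      intro w hw
      rw [← h.image]
      exact mem_image_of_mem ψ (hsub hw))
    refine h1.congr_ae ?_ ?_
    · exact Filter.Eventually.of_forall fun w hw => indicator_of_mem (hsub hw) _
    · exact Filter.Eventually.of_forall fun w hw => indicator_of_mem (hsub hw) _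
  refine ⟨fun z => f (ψ z), X.indicator (pbx ψ gx gy), X.indicator (pby ψ gx gy),
    fun z _ => rfl, hmt, hms, hpt, hps, ?_, ?_⟩
  · intro R
    have hopen : IsOpen (X ∩ {z | |z.im| < R}) :=
      h.Xopen.inter (isOpen_lt (Complex.continuous_im.abs) continuous_const)
    exact (hSobX.mono inter_subset_left).acl2 hopen (n0b_fin h hd hfin R)
  · intro E hE
    have hV : IsOpen (per1 X) := n0_per1_open h.Xopen
    have hVX : per1 X ⊆ X := inter_subset_left
    have hi : InjOn ψ (per1 X) := by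
      have h0 := n0_inj_strip h 0
      simp only [zero_add] at h0
      exact h0
    have hSm : MeasurableSet (per1 X ∩ ψ ⁻¹' E) := by
      have h1 : per1 X ∩ ψ ⁻¹' E = per1 X ∩ ψ' ⁻¹' E := by
        ext z
        constructor
        · rintro ⟨hz, hzE⟩
          exact ⟨hz, by rw [mem_preimage, hψ'e z (hVX hz)]; exact hzE⟩
        · rintro ⟨hz, hzE⟩
          refine ⟨hz, ?_⟩
          rw [mem_preimage, hψ'e z (hVX hz)] at hzE
          exact hzE
      rw [h1]
      exact hV.measurableSet.inter (hψ'm hE)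
    rw [n0b_conf h hd hV hVX hi hSm inter_subset_left, image_inter_preimage]
    have hsub : ψ '' per1 X ∩ E ⊆ A ∩ E := by
      refine inter_subset_inter_left _ ?_
      rw [← h.image]
      exact image_mono hVX
    have hopen := n0_open_holo h hd hVX hV
    have h1 : en (A ∩ E) fx fy = en (ψ '' per1 X ∩ E) fx fy := by
      unfold en
      refine setLIntegral_congr ?_
      refine Filter.EventuallyEq.symm ?_
      refine (LE.le.eventuallyLE hsub).antisymm ?_
      rw [ae_le_set]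
      refine measure_mono_null ?_ (n0_null h hd)
      rintro z ⟨⟨hzA, hzE⟩, hz⟩
      exact ⟨hzA, fun h1 => hz ⟨h1, hzE⟩⟩
    rw [h1]
    exact hen _ (hsub.trans inter_subset_left) (hopen.measurableSet.inter hE)

theorem exists_pull {X A : Set ℂ} {ψ f fx fy : ℂ → ℂ} (h : Chart X A ψ) (hA : IsOpen A)
    (hf : ACL2 A f fx fy) : ∃ H Ht Hs : ℂ → ℂ, Pull X A ψ f fx fy H Ht Hs := by
  rcases h.conf with hd | hd
  · exact n0b_holo h hA hd hf
  · obtain ⟨H, Ht, Hs, hp⟩ := n0b_holo h.conj hA hd hf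
    have hXX : (starRingEnd ℂ) '' ((starRingEnd ℂ) '' X) = X := by
      ext z
      rw [n0_mem_conj, n0_mem_conj, Complex.conj_conj]
    have hshift : ∀ z : ℂ, (starRingEnd ℂ) (z + 2 * Real.pi * I) + 2 * Real.pi * I =
        (starRingEnd ℂ) z := by
      intro z
      rw [map_add, n0_conj_period']
      ring
    refine ⟨fun z => H ((starRingEnd ℂ) z), fun z => Ht ((starRingEnd ℂ) z),
      fun z => -Hs ((starRingEnd ℂ) z), ?_, ?_, ?_, ?_, ?_, ?_, ?_⟩
    · intro z hz
      have h1 := hp.eq ((starRingEnd ℂ) z) (mem_image_of_mem _ hz)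
      simp only [Complex.conj_conj] at h1
      exact h1
    · exact hp.mt.comp n0_mp.measurable
    · exact (hp.ms.comp n0_mp.measurable).neg
    · intro z
      have h1 := hp.pt ((starRingEnd ℂ) (z + 2 * Real.pi * I))
      rw [hshift] at h1
      exact h1.symm
    · intro z
      have h1 := hp.ps ((starRingEnd ℂ) (z + 2 * Real.pi * I))
      rw [hshift] at h1
      simp only [h1]
    · intro R
      have hopen : IsOpen (((starRingEnd ℂ) '' X) ∩ {z | |z.im| < R}) :=
        (n0_open_conj h.Xopen).inter (isOpen_lt (Complex.continuous_im.abs) continuous_const)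
      have h1 := acl2_conj hopen (hp.acl R)
      have h2 : (starRingEnd ℂ) '' (((starRingEnd ℂ) '' X) ∩ {z | |z.im| < R}) =
          X ∩ {z | |z.im| < R} := by
        ext z
        rw [n0_mem_conj, mem_inter_iff, n0_mem_conj, Complex.conj_conj]
        simp
      rwa [h2] at h1
    · intro E hE
      rw [← hp.en E hE]
      set F : ℂ → ℝ≥0∞ := fun z => ‖Ht z‖ₑ ^ 2 + ‖Hs z‖ₑ ^ 2 with hF
      have hmp : MeasurePreserving (fun z : ℂ => (starRingEnd ℂ) z + 2 * Real.pi * I)
          volume volume :=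
        (measurePreserving_add_right volume (2 * Real.pi * I : ℂ)).comp n0_mp
      have hme : MeasurableEmbedding (fun z : ℂ => (starRingEnd ℂ) z + 2 * Real.pi * I) :=
        (measurableEmbedding_addRight (2 * Real.pi * I : ℂ)).comp n0_emb
      have h1 := hmp.setLIntegral_comp_preimage_emb hme F
        (per1 ((starRingEnd ℂ) '' X) ∩ (fun z => ψ ((starRingEnd ℂ) z)) ⁻¹' E)
      have h2 : (fun z : ℂ => (starRingEnd ℂ) z + 2 * Real.pi * I) ⁻¹'
          (per1 ((starRingEnd ℂ) '' X) ∩ (fun z => ψ ((starRingEnd ℂ) z)) ⁻¹' E) =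
          per1 X ∩ ψ ⁻¹' E := by
        ext z
        have h3 : (starRingEnd ℂ) ((starRingEnd ℂ) z + 2 * Real.pi * I) + 2 * Real.pi * I = z := by
          rw [hshift, Complex.conj_conj]
        have h4 : (starRingEnd ℂ) ((starRingEnd ℂ) z + 2 * Real.pi * I) ∈ X ↔ z ∈ X := by
          rw [h.Xper, h3]
        have h5 : ((starRingEnd ℂ) z + 2 * Real.pi * I).im = 2 * Real.pi - z.im := by
          simp
          ring
        simp only [mem_preimage, mem_inter_iff, per1, n0_mem_conj, mem_ofPred_eq, h5]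
        constructor
        · rintro ⟨⟨hz, hz1, hz2⟩, hzE⟩
          have hz' := h4.mp hz
          have h6 := h.per _ hz
          rw [h3] at h6
          refine ⟨⟨hz', by linarith, by linarith⟩, ?_⟩
          rw [h6]
          exact hzE
        · rintro ⟨⟨hz, hz1, hz2⟩, hzE⟩
          have hz' := h4.mpr hz
          have h6 := h.per _ hz'
          rw [h3] at h6
          refine ⟨⟨hz', by linarith, by linarith⟩, ?_⟩
          rw [← h6]
          exact hzE
      rw [h2] at h1
      unfold en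
      rw [← h1]
      refine lintegral_congr fun z => ?_
      simp only [hF, enorm_neg, hp.pt, hp.ps]

end CF6

end

section

/-! # Module N, row N0c: push forward.  See the header of N0.lean for the proof. -/

open Complex MeasureTheory Set Filter Topology Metric
open scoped ENNReal

namespace CF6

/-- the weak derivatives of a periodic function are periodic almost everywhere -/
theorem n0c_per {X A : Set ℂ} {ψ F Fx Fy : ℂ → ℂ} (h : Chart X A ψ) (hS : Sob X F Fx Fy)
    (hF : ∀ z ∈ X, F (z + 2 * Real.pi * I) = F z) :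
    ∀ᵐ z, z ∈ X → Fx (z + 2 * Real.pi * I) = Fx z ∧ Fy (z + 2 * Real.pi * I) = Fy z := by
  have hd : DifferentiableOn ℂ (fun z : ℂ => z + 2 * Real.pi * I) X := by fun_prop
  have hi : InjOn (fun z : ℂ => z + 2 * Real.pi * I) X := fun a _ b _ hab => add_right_cancel hab
  have hder : ∀ z : ℂ, deriv (fun z : ℂ => z + 2 * Real.pi * I) z = 1 := by
    intro z
    rw [deriv_add_const]
    exact deriv_id z
  have h1 := hS.comp_conf h.Xopen h.Xopen hd hi fun z hz => (h.Xper z).mp hz
  have h2 : Sob X F (pbx (fun z : ℂ => z + 2 * Real.pi * I) Fx Fy)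
      (pby (fun z : ℂ => z + 2 * Real.pi * I) Fx Fy) :=
    h1.congr fun z hz => (hF z hz).symm
  obtain ⟨h3, h4⟩ := h2.ae_unique h.Xopen hS
  filter_upwards [h3, h4] with z hz3 hz4 hz
  have h5 := hz3 hz
  have h6 := hz4 hz
  unfold pbx at h5
  unfold pby at h6
  rw [hder] at h5 h6
  constructor
  · simpa using h5
  · simpa using h6

theorem n0c_add_null {N : Set ℂ} (hN : volume N = 0) (a : ℂ) : volume {z | z + a ∈ N} = 0 := by
  have := (measurePreserving_add_right volume a).quasiMeasurePreserving.preimage_null hN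
  exact this

/-- periodicity for all multiples of the period at once -/
theorem n0c_per_all {X A : Set ℂ} {ψ F Fx Fy : ℂ → ℂ} (h : Chart X A ψ) (hS : Sob X F Fx Fy)
    (hF : ∀ z ∈ X, F (z + 2 * Real.pi * I) = F z) :
    ∀ᵐ z, z ∈ X → ∀ n : ℤ, Fx (z + n * (2 * Real.pi * I)) = Fx z ∧
      Fy (z + n * (2 * Real.pi * I)) = Fy z := by
  have h1 := n0c_per h hS hF
  set N : Set ℂ := {z | ¬ (z ∈ X → Fx (z + 2 * Real.pi * I) = Fx z ∧
    Fy (z + 2 * Real.pi * I) = Fy z)} with hN
  have hN0 : volume N = 0 := ae_iff.mp h1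
  have h2 : ∀ᵐ z, ∀ m : ℤ, z + m * (2 * Real.pi * I) ∉ N := by
    rw [ae_all_iff]
    intro m
    rw [ae_iff]
    simpa using n0c_add_null hN0 (m * (2 * Real.pi * I))
  filter_upwards [h2] with z hz hzX
  have hstep : ∀ m : ℤ, Fx (z + (m + 1 : ℤ) * (2 * Real.pi * I)) =
      Fx (z + m * (2 * Real.pi * I)) ∧
      Fy (z + (m + 1 : ℤ) * (2 * Real.pi * I)) = Fy (z + m * (2 * Real.pi * I)) := by
    intro m
    have h3 := hz m
    rw [hN, mem_ofPred_eq, not_not] at h3
    have h4 := h3 ((n0_shift_mem' h m z).mp hzX)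
    have h5 : z + m * (2 * Real.pi * I) + 2 * Real.pi * I =
        z + (m + 1 : ℤ) * (2 * Real.pi * I) := by
      push_cast
      ring
    rw [h5] at h4
    exact h4
  have hpos : ∀ n : ℕ, Fx (z + (n : ℤ) * (2 * Real.pi * I)) = Fx z ∧
      Fy (z + (n : ℤ) * (2 * Real.pi * I)) = Fy z := by
    intro n
    induction n with
    | zero => simp
    | succ n ih =>
      have h3 := hstep n
      have h4 : ((n + 1 : ℕ) : ℤ) = (n : ℤ) + 1 := by push_cast; rfl
      rw [h4]
      exact ⟨h3.1.trans ih.1, h3.2.trans ih.2⟩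
  have hneg : ∀ n : ℕ, Fx (z + (-(n : ℤ) : ℤ) * (2 * Real.pi * I)) = Fx z ∧
      Fy (z + (-(n : ℤ) : ℤ) * (2 * Real.pi * I)) = Fy z := by
    intro n
    induction n with
    | zero => simp
    | succ n ih =>
      have h3 := hstep (-((n : ℤ) + 1))
      have h4 : -((n : ℤ) + 1) + 1 = -(n : ℤ) := by ring
      rw [h4] at h3
      have h5 : (-((n + 1 : ℕ) : ℤ)) = -((n : ℤ) + 1) := by push_cast; rfl
      rw [h5]
      exact ⟨h3.1.symm.trans ih.1, h3.2.symm.trans ih.2⟩
  intro n
  rcases le_total 0 n with hn | hn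
  · obtain ⟨m, rfl⟩ := Int.eq_ofNat_of_zero_le hn
    exact hpos m
  · obtain ⟨m, hm⟩ := Int.eq_ofNat_of_zero_le (neg_nonneg.mpr hn)
    have h3 := hneg m
    have h4 : -(m : ℤ) = n := by omega
    rw [h4] at h3
    exact h3

/-- local inverse of a holomorphic injective chart -/
theorem n0c_inverse {V : Set ℂ} {ψ : ℂ → ℂ} (hV : IsOpen V) (hd : DifferentiableOn ℂ ψ V)
    (hi : InjOn ψ V) : ∃ g : ℂ → ℂ, IsOpen (ψ '' V) ∧ DifferentiableOn ℂ g (ψ '' V) ∧
      (∀ z ∈ V, g (ψ z) = z) ∧ (∀ w ∈ ψ '' V, g w ∈ V ∧ ψ (g w) = w) ∧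
      (∀ z ∈ V, deriv ψ z ≠ 0) ∧ ∀ z ∈ V, deriv g (ψ z) = (deriv ψ z)⁻¹ := by
  obtain ⟨g, hg, hgl, hgr⟩ := univ_inverse hV hd hi
  have hopen : IsOpen (ψ '' V) := univ_open hV subset_rfl hV hd hi
  refine ⟨g, hopen, hg, hgl, hgr, fun z hz => univ_deriv hV hd hi hz, fun z hz => ?_⟩
  have h1 : HasDerivAt ψ (deriv ψ z) z := (hd.differentiableAt (hV.mem_nhds hz)).hasDerivAt
  have h2 : HasDerivAt g (deriv g (ψ z)) (ψ z) :=
    (hg.differentiableAt (hopen.mem_nhds (mem_image_of_mem ψ hz))).hasDerivAt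
  have h3 : HasDerivAt (fun x => g (ψ x)) (deriv g (ψ z) * deriv ψ z) z :=
    HasDerivAt.comp z h2 h1
  have h4 : HasDerivAt (fun x => g (ψ x)) 1 z := by
    refine (hasDerivAt_id z).congr_of_eventuallyEq ?_
    filter_upwards [hV.mem_nhds hz] with x hx
    exact hgl x hx
  have h5 := h3.unique h4
  exact eq_inv_of_mul_eq_one_left h5

theorem n0c_holo {X A : Set ℂ} {ψ f F Fx Fy : ℂ → ℂ} (h : Chart X A ψ) (hA : IsOpen A)
    (hd : DifferentiableOn ℂ ψ X) (hf : ∀ z ∈ X, f (ψ z) = F z)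
    (ha : ∀ R : ℝ, ACL2 (X ∩ {z | |z.im| < R}) F Fx Fy) :
    ∃ fx fy : ℂ → ℂ, ACL2 A f fx fy ∧ en A fx fy = en (per1 X) Fx Fy := by
  classical
  have hopenR : ∀ R : ℝ, IsOpen (X ∩ {z : ℂ | |z.im| < R}) := fun R =>
    h.Xopen.inter (isOpen_lt (Complex.continuous_im.abs) continuous_const)
  have hS : Sob X F Fx Fy := by
    refine sob_of_local h.Xopen fun z hz => ?_
    refine ⟨X ∩ {w | |w.im| < |z.im| + 1}, hopenR _, ⟨hz, ?_⟩, (ha _).sob (hopenR _)⟩
    change |z.im| < |z.im| + 1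
    linarith
  have hF : ∀ z ∈ X, F (z + 2 * Real.pi * I) = F z := by
    intro z hz
    rw [← hf z hz, ← hf _ ((h.Xper z).mp hz), h.per z hz]
  have hall := n0c_per_all h hS hF
  set N : Set ℂ := {z | ¬ (z ∈ X → ∀ n : ℤ, Fx (z + n * (2 * Real.pi * I)) = Fx z ∧
      Fy (z + n * (2 * Real.pi * I)) = Fy z)} with hN
  have hN0 : volume N = 0 := ae_iff.mp hall
  have hNX : N ⊆ X := by
    intro z hz
    by_contra hzX
    exact hz fun h1 => absurd h1 hzX
  have hψN : volume (ψ '' N) = 0 :=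
    addHaar_image_eq_zero_of_differentiableOn_of_addHaar_eq_zero volume
      ((hd.restrictScalars ℝ).mono hNX) hN0
  have hsec : ∀ w, w ∈ A → ∃ z ∈ X, ψ z = w := by
    intro w hw
    rw [← h.image] at hw
    exact hw
  choose! s hsX hsψ using hsec
  have hderper : ∀ (n : ℤ) (z : ℂ), z ∈ X → deriv ψ (z + n * (2 * Real.pi * I)) = deriv ψ z := by
    intro n z hz
    rw [← deriv_comp_add_const]
    refine Filter.EventuallyEq.deriv_eq ?_
    filter_upwards [h.Xopen.mem_nhds hz] with w hw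
    exact n0_shift_eq' h n hw
  set fx : ℂ → ℂ := fun w => ((deriv ψ (s w))⁻¹).re • Fx (s w) + ((deriv ψ (s w))⁻¹).im • Fy (s w)
    with hfx
  set fy : ℂ → ℂ := fun w => (-((deriv ψ (s w))⁻¹).im) • Fx (s w) +
    ((deriv ψ (s w))⁻¹).re • Fy (s w) with hfy
  -- comparison with a local inverse
  have hcomp : ∀ (V : Set ℂ) (g : ℂ → ℂ), V ⊆ X → (∀ w ∈ ψ '' V, g w ∈ V ∧ ψ (g w) = w) →
      (∀ z ∈ V, deriv g (ψ z) = (deriv ψ z)⁻¹) →
      ∀ᵐ w, w ∈ ψ '' V → fx w = pbx g Fx Fy w ∧ fy w = pby g Fx Fy w := by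
    intro V g hVX hg hgd
    have h1 : ∀ᵐ w, w ∉ ψ '' N := compl_mem_ae_iff.mpr hψN
    filter_upwards [h1] with w hw hwV
    obtain ⟨hgw, hψg⟩ := hg w hwV
    have hgX := hVX hgw
    have hwA : w ∈ A := by
      rw [← h.image, ← hψg]
      exact mem_image_of_mem ψ hgX
    obtain ⟨n, hn⟩ := h.inj _ hgX _ (hsX w hwA) (by rw [hψg, hsψ w hwA])
    have hgN : g w ∉ N := fun h2 => hw ⟨g w, h2, hψg⟩
    rw [hN, mem_ofPred_eq, not_not] at hgN
    have h2 := hgN hgX n
    have h3 : deriv g w = (deriv ψ (g w))⁻¹ := by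
      have := hgd _ hgw
      rwa [hψg] at this
    have h4 : deriv ψ (s w) = deriv ψ (g w) := by
      rw [hn]
      exact hderper n _ hgX
    constructor
    · simp only [hfx, pbx]
      rw [h4, h3, hn, h2.1, h2.2]
    · simp only [hfy, pby]
      rw [h4, h3, hn, h2.1, h2.2]
  have hSA : Sob A f fx fy := by
    refine sob_of_local hA fun w hw => ?_
    obtain ⟨z, hz, hzw⟩ : ∃ z ∈ X, ψ z = w := ⟨s w, hsX w hw, hsψ w hw⟩
    obtain ⟨r, hr, hsub, hinj⟩ := n0_ball h h.Xopen subset_rfl hz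
    obtain ⟨g, hopen, hgd, hgl, hgr, -, hgder⟩ :=
      n0c_inverse isOpen_ball (hd.mono hsub) hinj
    refine ⟨ψ '' ball z r, hopen, hzw ▸ mem_image_of_mem ψ (mem_ball_self hr), ?_⟩
    have hgi : InjOn g (ψ '' ball z r) := by
      intro a ha' b hb' hab
      rw [← (hgr a ha').2, ← (hgr b hb').2, hab]
    have h1 := hS.comp_conf h.Xopen hopen hgd hgi fun w hw => hsub (hgr w hw).1
    have h2 : Sob (ψ '' ball z r) f (pbx g Fx Fy) (pby g Fx Fy) := by
      refine h1.congr fun w hw => ?_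
      rw [← hf _ (hsub (hgr w hw).1), (hgr w hw).2]
    have h3 := hcomp _ g hsub hgr hgder
    refine h2.congr_ae ?_ ?_
    · filter_upwards [h3] with w hw hwV
      exact (hw hwV).1
    · filter_upwards [h3] with w hw hwV
      exact (hw hwV).2
  have hV : IsOpen (per1 X) := n0_per1_open h.Xopen
  have hVX : per1 X ⊆ X := inter_subset_left
  have hi : InjOn ψ (per1 X) := by
    have h0 := n0_inj_strip h 0
    simp only [zero_add] at h0
    exact h0
  obtain ⟨g, hopen, hgd, hgl, hgr, -, hgder⟩ := n0c_inverse hV (hd.mono hVX) hi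
  have hgi : InjOn g (ψ '' per1 X) := by
    intro a ha' b hb' hab
    rw [← (hgr a ha').2, ← (hgr b hb').2, hab]
  have himg : g '' (ψ '' per1 X) = per1 X := by
    ext z
    constructor
    · rintro ⟨w, hw, rfl⟩
      exact (hgr w hw).1
    · intro hz
      exact ⟨ψ z, mem_image_of_mem ψ hz, hgl z hz⟩
  have h3 := hcomp _ g hVX hgr hgder
  have hsubA : ψ '' per1 X ⊆ A := by
    rw [← h.image]
    exact image_mono hVX
  have hen : en A fx fy = en (per1 X) Fx Fy := by
    have e1 : en A fx fy = en (ψ '' per1 X) fx fy := by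
      unfold en
      refine setLIntegral_congr ?_
      refine Filter.EventuallyEq.symm ?_
      refine (LE.le.eventuallyLE hsubA).antisymm ?_
      rw [ae_le_set]
      exact n0_null h hd
    have e2 : en (ψ '' per1 X) fx fy = en (ψ '' per1 X) (pbx g Fx Fy) (pby g Fx Fy) := by
      unfold en
      refine setLIntegral_congr_fun_ae hopen.measurableSet ?_
      filter_upwards [h3] with w hw hwV
      rw [(hw hwV).1, (hw hwV).2]
    have e3 : en (ψ '' per1 X) (pbx g Fx Fy) (pby g Fx Fy) = en (g '' (ψ '' per1 X)) Fx Fy :=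
      en_comp_conf hopen hgd hgi hopen.measurableSet subset_rfl
    rw [e1, e2, e3, himg]
  refine ⟨fx, fy, hSA.acl2 hA ?_, hen⟩
  rw [hen]
  refine lt_of_le_of_lt (lintegral_mono_set ?_) (ha 7).fin
  rintro z ⟨hz, hz1, hz2⟩
  refine ⟨hz, ?_⟩
  change |z.im| < 7
  have h4 := Real.pi_lt_d2
  rw [abs_of_pos hz1]
  linarith

theorem exists_push {X A : Set ℂ} {ψ f F Fx Fy : ℂ → ℂ} (h : Chart X A ψ) (hA : IsOpen A)
    (hf : ∀ z ∈ X, f (ψ z) = F z)
    (ha : ∀ R : ℝ, ACL2 (X ∩ {z | |z.im| < R}) F Fx Fy) :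
    ∃ fx fy : ℂ → ℂ, ACL2 A f fx fy ∧ en A fx fy = en (per1 X) Fx Fy := by
  rcases h.conf with hd | hd
  · exact n0c_holo h hA hd hf ha
  · have hopenR : ∀ R : ℝ, IsOpen (X ∩ {z : ℂ | |z.im| < R}) := fun R =>
      h.Xopen.inter (isOpen_lt (Complex.continuous_im.abs) continuous_const)
    have hset : ∀ R : ℝ, (starRingEnd ℂ) '' (X ∩ {z : ℂ | |z.im| < R}) =
        ((starRingEnd ℂ) '' X) ∩ {z : ℂ | |z.im| < R} := by
      intro R
      ext z
      rw [n0_mem_conj, mem_inter_iff, mem_inter_iff, n0_mem_conj]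
      simp
    obtain ⟨fx, fy, h1, h2⟩ := n0c_holo (f := f) (F := fun z => F ((starRingEnd ℂ) z))
      (Fx := fun z => Fx ((starRingEnd ℂ) z)) (Fy := fun z => -Fy ((starRingEnd ℂ) z))
      h.conj hA hd (by
        intro z hz
        exact hf _ (n0_mem_conj.mp hz)) (by
        intro R
        rw [← hset R]
        exact acl2_conj (hopenR R) (ha R))
    refine ⟨fx, fy, h1, ?_⟩
    rw [h2]
    -- periodicity of the derivatives
    have hS : Sob X F Fx Fy := by
      refine sob_of_local h.Xopen fun z hz => ?_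
      refine ⟨X ∩ {w | |w.im| < |z.im| + 1}, hopenR _, ⟨hz, ?_⟩, (ha _).sob (hopenR _)⟩
      change |z.im| < |z.im| + 1
      linarith
    have hF : ∀ z ∈ X, F (z + 2 * Real.pi * I) = F z := by
      intro z hz
      rw [← hf z hz, ← hf _ ((h.Xper z).mp hz), h.per z hz]
    have hper := n0c_per h hS hF
    set G : ℂ → ℝ≥0∞ := fun z => ‖Fx z‖ₑ ^ 2 + ‖Fy z‖ₑ ^ 2 with hG
    -- first reflect, then translate
    have hset2 : (starRingEnd ℂ) ⁻¹' (X ∩ {z : ℂ | -(2 * Real.pi) < z.im ∧ z.im < 0}) =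
        per1 ((starRingEnd ℂ) '' X) := by
      ext z
      simp only [mem_preimage, mem_inter_iff, per1, n0_mem_conj, mem_ofPred_eq, Complex.conj_im]
      constructor
      · rintro ⟨h3, h4, h5⟩
        exact ⟨h3, by linarith, by linarith⟩
      · rintro ⟨h3, h4, h5⟩
        exact ⟨h3, by linarith, by linarith⟩
    have e1 := n0_mp.setLIntegral_comp_preimage_emb n0_emb G
      (X ∩ {z : ℂ | -(2 * Real.pi) < z.im ∧ z.im < 0})
    rw [show (fun z : ℂ => (starRingEnd ℂ) z) ⁻¹' (X ∩ {z : ℂ | -(2 * Real.pi) < z.im ∧ z.im < 0}) =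
      per1 ((starRingEnd ℂ) '' X) from hset2] at e1
    have hmp := measurePreserving_add_right volume (2 * Real.pi * I : ℂ)
    have hme := measurableEmbedding_addRight (2 * Real.pi * I : ℂ)
    have e2 := hmp.setLIntegral_comp_preimage_emb hme G (per1 X)
    have hset3 : (fun z : ℂ => z + 2 * Real.pi * I) ⁻¹' (per1 X) =
        X ∩ {z : ℂ | -(2 * Real.pi) < z.im ∧ z.im < 0} := by
      ext z
      have h5 : (z + 2 * Real.pi * I).im = z.im + 2 * Real.pi := by simp
      simp only [mem_preimage, mem_inter_iff, per1, mem_ofPred_eq, h5]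
      rw [← h.Xper z]
      constructor
      · rintro ⟨h3, h4, h6⟩
        exact ⟨h3, by linarith, by linarith⟩
      · rintro ⟨h3, h4, h6⟩
        exact ⟨h3, by linarith, by linarith⟩
    rw [hset3] at e2
    have hm : MeasurableSet (X ∩ {z : ℂ | -(2 * Real.pi) < z.im ∧ z.im < 0}) :=
      (h.Xopen.inter ((isOpen_lt continuous_const Complex.continuous_im).inter
        (isOpen_lt Complex.continuous_im continuous_const))).measurableSet
    have e3 : ∫⁻ z in X ∩ {z : ℂ | -(2 * Real.pi) < z.im ∧ z.im < 0}, G (z + 2 * Real.pi * I) =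
        ∫⁻ z in X ∩ {z : ℂ | -(2 * Real.pi) < z.im ∧ z.im < 0}, G z := by
      refine setLIntegral_congr_fun_ae hm ?_
      filter_upwards [hper] with z hz hz1
      obtain ⟨h3, h4⟩ := hz hz1.1
      simp only [hG, h3, h4]
    unfold en
    simp only [enorm_neg]
    rw [← hG, ← e2, e3, ← e1]

end CF6

end

section

/-! # Module N, row N6: vertical lines

For `θ ∈ Θg`: let `t* = inf {t ∈ (0,T) | im (G (t + iθ)) = 0}` (`t* = T` if empty). On `(0,t*)`: `h (ψ (t + iθ)) = Φ (G (t+iθ))`, it tends to `Φ (α0 θ + i τ)` as `t → 0`, and `infDist (h ψ) K → 0` as `t → t*`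
(if `t* < T`: `h (ψ (t* + iθ)) ∈ K` by continuity of `h` and of `G` and closedness; if `t* = T`: `infDist (ψ z) L → 0` by `tendL`, so `infDist (h (ψ z)) K → 0` by `hnear`). So `infDist (Φ (α0 θ + τ(α0 θ) I)) K ≤ ∫_0^{t*} ‖Ht‖`
(`infDist · K` is 1-Lipschitz), and by Cauchy-Schwarz `infDist² ≤ T ∫_0^T ‖Ht (t+iθ)‖² 1_{h ψ ∈ collar}`. Integrate over `θ ∈ (0,2π)`, Tonelli, `Pull.en` with the Borel set `{x ∈ Ω | h x ∈ collar Φ τ}` (relatively open).
The derivatives of `ht` are `indicator Oᶜ hx`, `≤ hx` in norm. -/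

open Complex MeasureTheory Set Filter Topology Metric intervalIntegral
open scoped ENNReal

namespace CF6

theorem n6_mono {U V : Set ℂ} {f fx fy : ℂ → ℂ} (h : ACL2 U f fx fy) (hVU : V ⊆ U) :
    ACL2 V f fx fy :=
  ⟨h.cont.mono hVU, h.mx.mono_set hVU, h.my.mono_set hVU,
    lt_of_le_of_lt (lintegral_mono_set hVU) h.fin,
    h.hor.mono fun _ hy a b hab hs => hy a b hab fun t ht => hVU (hs t ht),
    h.ver.mono fun _ hx a b hab hs => hx a b hab fun t ht => hVU (hs t ht)⟩

theorem n6_open {f : ℂ → ℂ} {V : Set ℂ} (hd : DifferentiableOn ℂ f V)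
    (hi : ∀ z ∈ V, ∃ r > 0, ball z r ⊆ V ∧ InjOn f (ball z r)) : IsOpen (f '' V) := by
  rw [isOpen_iff_mem_nhds]
  rintro _ ⟨s, hs, rfl⟩
  obtain ⟨r, hr, hsub, hinj⟩ := hi s hs
  have han : AnalyticOnNhd ℂ f (ball s r) := (hd.mono hsub).analyticOnNhd isOpen_ball
  have hopen : IsOpen (f '' ball s r) := by
    rcases han.is_constant_or_isOpen (convex_ball s r).isPreconnected with ⟨w, hw⟩ | h1
    · exfalso
      have h2 : s + (r / 2 : ℝ) ∈ ball s r := by
        rw [mem_ball, dist_eq_norm, add_sub_cancel_left, Complex.norm_real, Real.norm_eq_abs,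
          abs_of_pos (by positivity)]
        linarith
      have h3 := hinj (mem_ball_self hr) h2 (by rw [hw _ (mem_ball_self hr), hw _ h2])
      have h4 : ((r / 2 : ℝ) : ℂ) = 0 := by linear_combination -h3
      have h5 : r / 2 = 0 := by exact_mod_cast h4
      linarith
    · exact h1 _ subset_rfl isOpen_ball
  exact Filter.mem_of_superset (hopen.mem_nhds (mem_image_of_mem f (mem_ball_self hr)))
    (image_mono hsub)

theorem n6_collar_open {K : Set ℂ} {Φ ρ : ℂ → ℂ} (hK : Collar K Φ ρ) {τ : ℝ → ℝ}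
    (hτ : Continuous τ) : IsOpen (collar Φ τ) := by
  have hb : IsOpen (below τ) :=
    (isOpen_lt continuous_const Complex.continuous_im).inter
      (isOpen_lt Complex.continuous_im (hτ.comp Complex.continuous_re))
  have hsub : below τ ⊆ UHP := fun u hu => hu.1
  refine n6_open (hK.dPhi.mono hsub) fun z hz => ?_
  obtain ⟨r, hr, hrV⟩ := Metric.isOpen_iff.mp hb z hz
  refine ⟨min r 1, lt_min hr one_pos, (ball_subset_ball (min_le_left _ _)).trans hrV, ?_⟩
  intro a ha b hb' hab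
  have ha1 := hrV (ball_subset_ball (min_le_left _ _) ha)
  have hb1 := hrV (ball_subset_ball (min_le_left _ _) hb')
  have h1 : exp (I * a) = exp (I * b) := by
    rw [← hK.left a (hsub ha1), ← hK.left b (hsub hb1), hab]
  obtain ⟨n, hn⟩ := Complex.exp_eq_exp_iff_exists_int.mp h1
  have h2 : a - b = 2 * Real.pi * n := by
    have h3 : I * (a - b - 2 * Real.pi * n) = 0 := by linear_combination hn
    rcases mul_eq_zero.mp h3 with h4 | h4
    · exact absurd h4 I_ne_zero
    · linear_combination h4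
  have h3 : dist a b < 2 := by
    calc dist a b ≤ dist a z + dist b z := dist_triangle_right _ _ _
      _ < min r 1 + min r 1 := add_lt_add ha hb'
      _ ≤ 1 + 1 := add_le_add (min_le_right _ _) (min_le_right _ _)
      _ = 2 := by norm_num
  rw [dist_eq_norm, h2] at h3
  have h4 : ‖(2 * Real.pi * n : ℂ)‖ = 2 * Real.pi * |(n : ℝ)| := by
    rw [norm_mul, norm_mul, Complex.norm_real, Real.norm_eq_abs, abs_of_pos Real.pi_pos,
      Complex.norm_intCast]
    simp
  rw [h4] at h3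
  have h5 : n = 0 := by
    by_contra hne
    have h6 : (1 : ℝ) ≤ |(n : ℝ)| := by exact_mod_cast Int.one_le_abs hne
    have h7 := Real.pi_gt_three
    nlinarith
  rw [h5] at h2
  have : a - b = 0 := by simpa using h2
  exact sub_eq_zero.mp this

/-- Cauchy-Schwarz on an interval -/
theorem n6_cs {T : ℝ} {W : ℝ → ℝ≥0∞} (hW : Measurable W) :
    (∫⁻ t in Ioo 0 T, W t) ^ 2 ≤ ENNReal.ofReal T * ∫⁻ t in Ioo 0 T, W t ^ 2 := by
  have hpq : (2 : ℝ).HolderConjugate 2 := Real.HolderConjugate.two_two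
  have h1 := ENNReal.lintegral_mul_le_Lp_mul_Lq (volume.restrict (Ioo 0 T)) hpq
    (f := W) (g := fun _ => 1) hW.aemeasurable measurable_const.aemeasurable
  have h2 : (∫⁻ t in Ioo 0 T, (W * (fun _ => 1 : ℝ → ℝ≥0∞)) t) = ∫⁻ t in Ioo 0 T, W t := by
    refine lintegral_congr fun t => ?_
    rw [Pi.mul_apply, mul_one]
  rw [h2] at h1
  simp only [ENNReal.one_rpow, lintegral_const, one_mul, Measure.restrict_apply_univ,
    Real.volume_Ioo, sub_zero] at h1
  have h3 := ENNReal.rpow_le_rpow h1 (show (0 : ℝ) ≤ 2 by norm_num)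
  rw [ENNReal.mul_rpow_of_nonneg _ _ (show (0 : ℝ) ≤ 2 by norm_num), ← ENNReal.rpow_mul,
    ← ENNReal.rpow_mul] at h3
  norm_num at h3
  rw [mul_comm]
  exact h3

/-- Fubini for one period of the strip -/
theorem n6_fubini {T : ℝ} {V : ℂ → ℝ≥0∞} (hV : Measurable V) :
    ∫⁻ θ in Ioo 0 (2 * Real.pi), ∫⁻ t in Ioo 0 T, V (t + θ * I) ≤
      ∫⁻ z in per1 (strip T), V z := by
  have hS : IsOpen (strip T) := (isOpen_lt continuous_const Complex.continuous_re).inter
    (isOpen_lt Complex.continuous_re continuous_const)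
  have hP1 : MeasurableSet (per1 (strip T)) := (n0_per1_open hS).measurableSet
  set F : ℂ → ℝ≥0∞ := (per1 (strip T)).indicator V with hF
  have hFm : Measurable F := hV.indicator hP1
  have hP : MeasurePreserving (fun p : ℝ × ℝ => (⟨p.2, p.1⟩ : ℂ)) (volume.prod volume) volume :=
    (Complex.volume_preserving_equiv_real_prod.symm).comp
      (Measure.measurePreserving_swap (μ := (volume : Measure ℝ)) (ν := (volume : Measure ℝ)))
  have h1 : ∫⁻ z, F z = ∫⁻ θ : ℝ, ∫⁻ t : ℝ, F ⟨t, θ⟩ := by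
    rw [← hP.lintegral_comp hFm]
    exact lintegral_prod (fun p : ℝ × ℝ => F ⟨p.2, p.1⟩) (hFm.comp hP.measurable).aemeasurable
  have h2 : ∫⁻ z in per1 (strip T), V z = ∫⁻ z, F z := by
    rw [hF, lintegral_indicator hP1]
  rw [h2, h1]
  calc ∫⁻ θ in Ioo 0 (2 * Real.pi), ∫⁻ t in Ioo 0 T, V (t + θ * I)
      ≤ ∫⁻ θ in Ioo 0 (2 * Real.pi), ∫⁻ t : ℝ, F ⟨t, θ⟩ := by
        refine setLIntegral_mono' measurableSet_Ioo fun θ hθ => ?_
        refine le_trans ?_ (setLIntegral_le_lintegral (Ioo 0 T) _)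
        refine setLIntegral_mono' measurableSet_Ioo fun t ht => ?_
        have hmem : (⟨t, θ⟩ : ℂ) ∈ per1 (strip T) := ⟨⟨ht.1, ht.2⟩, hθ.1, hθ.2⟩
        rw [hF, indicator_of_mem hmem, n2_mk]
    _ ≤ ∫⁻ θ : ℝ, ∫⁻ t : ℝ, F ⟨t, θ⟩ := setLIntegral_le_lintegral _ _

theorem vertical_lines {Ω K O L : Set ℂ} {Φ ρ h g ht ψ G hx hy : ℂ → ℂ} {hj : ℕ → ℂ → ℂ}
    {τ α0 : ℝ → ℝ} {T : ℝ} (hK : Collar K Φ ρ) (lim : LimData Ω K ρ h g hj)
    (hn : Normal Ω K O h g ht) (ha : ACL2 Ω h hx hy)
    (hb : ACL2 Ω ht (indicator Oᶜ hx) (indicator Oᶜ hy))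
    (hS : StripG Ω (dom Ω (collar Φ τ) K h) L g τ T ψ G α0) {c r : ℝ} (hτ : Depth c r τ)
    (hnear : ∀ η > (0 : ℝ), ∃ κ > (0 : ℝ), ∀ x ∈ Ω, infDist x L < κ → infDist (h x) K < η) :
    (∫⁻ θ in Ioo 0 (2 * Real.pi),
      ENNReal.ofReal (infDist (Φ (α0 θ + τ (α0 θ) * I)) K) ^ 2) ≤
      ENNReal.ofReal T * en {x | x ∈ Ω ∧ h x ∈ collar Φ τ} hx hy := by
  classical
  have hSo : IsOpen (strip T) := hS.chart.Xopen
  set A : Set ℂ := dom Ω (collar Φ τ) K h with hA
  have hAo : IsOpen A := by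
    rw [← hS.chart.image]
    exact hS.chart.cont.2 _ subset_rfl hSo
  have hAΩ : A ⊆ Ω := fun x hx => hx.1
  have hψA : ∀ z ∈ strip T, ψ z ∈ A := fun z hz => hS.chart.image ▸ mem_image_of_mem ψ hz
  have hψΩ : ∀ z ∈ strip T, ψ z ∈ Ω := fun z hz => hAΩ (hψA z hz)
  obtain ⟨H, Ht, Hs, hp⟩ := exists_pull hS.chart hAo (n6_mono ha hAΩ)
  obtain ⟨Tg, Θg, hgl⟩ := exists_goodLines hS.Tpos hp
  have hτc : Continuous τ := hτ.smooth.continuous
  set E : Set ℂ := {x | x ∈ Ω ∧ h x ∈ collar Φ τ} with hE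
  have hEo : IsOpen E := ha.cont.isOpen_inter_preimage lim.Oopen (n6_collar_open hK hτc)
  have hEA : A ∩ E = E := by
    refine inter_eq_right.mpr ?_
    rintro x ⟨hx1, hx2⟩
    exact ⟨hx1, Or.inl hx2⟩
  -- the relation between `h` and `g`
  have hin : ∀ x ∈ Ω, ‖g x‖ < 1 → h x ∉ K ∧ ρ (h x) = g x := by
    intro x hx hgx
    have hxO : x ∉ O := fun h1 => absurd (hn.Og x h1) hgx.ne
    have h1 : h x ∉ K := by
      intro h2
      rw [← hn.eqh x hx hxO, hn.fib' x hx] at h2
      exact hgx.ne h2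
    refine ⟨h1, ?_⟩
    have hc : ContinuousAt ρ (h x) :=
      (hK.dRho.differentiableAt (hK.closed.isOpen_compl.mem_nhds h1)).continuousAt
    exact tendsto_nhds_unique (hc.tendsto.comp (lim.lim.tendsto_at hx)) (lim.glim.tendsto_at hx)
  have hout : ∀ x ∈ Ω, ‖g x‖ = 1 → h x ∈ K := by
    intro x hx hgx
    by_contra h1
    have hc : ContinuousAt ρ (h x) :=
      (hK.dRho.differentiableAt (hK.closed.isOpen_compl.mem_nhds h1)).continuousAt
    have h2 : ρ (h x) = g x :=
      tendsto_nhds_unique (hc.tendsto.comp (lim.lim.tendsto_at hx)) (lim.glim.tendsto_at hx)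
    have h3 := hK.maps h1
    rw [mem_ball_zero_iff, h2, hgx] at h3
    exact lt_irrefl _ h3
  have hgn : ∀ z ∈ strip T, ‖g (ψ z)‖ = Real.exp (-(G z).im) := by
    intro z hz
    rw [← hS.Gexp z hz, Complex.norm_exp]
    congr 1
    simp
  have hpos : ∀ z ∈ strip T, 0 < (G z).im → h (ψ z) = Φ (G z) ∧ ψ z ∈ E := by
    intro z hz hG
    have h1 : ‖g (ψ z)‖ < 1 := by
      rw [hgn z hz, ← Real.exp_zero]
      exact Real.exp_lt_exp.mpr (by linarith)
    obtain ⟨h2, h3⟩ := hin _ (hψΩ z hz) h1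
    have h4 : h (ψ z) = Φ (G z) := by
      refine hK.inj h2 (hK.mem _ hG) ?_
      rw [h3, hK.left _ hG, hS.Gexp z hz]
    refine ⟨h4, hψΩ z hz, ?_⟩
    rw [h4]
    exact mem_image_of_mem Φ ⟨hG, hS.Glt z hz⟩
  have hzero : ∀ z ∈ strip T, (G z).im = 0 → h (ψ z) ∈ K := by
    intro z hz hG
    apply hout _ (hψΩ z hz)
    rw [hgn z hz, hG, neg_zero, Real.exp_zero]
  -- the weight
  have hmS : MeasurableSet (strip T ∩ ψ ⁻¹' E) :=
    (hS.chart.cont.1.isOpen_inter_preimage hSo hEo).measurableSet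
  set W : ℂ → ℝ≥0∞ := (strip T ∩ ψ ⁻¹' E).indicator (fun z => ‖Ht z‖ₑ) with hW
  have hWm : Measurable W := hp.mt.enorm.indicator hmS
  have hline : ∀ θ : ℝ, Continuous fun t : ℝ => (t + θ * I : ℂ) := fun θ => by fun_prop
  have hmemS : ∀ θ t : ℝ, t ∈ Ioo 0 T → (t + θ * I : ℂ) ∈ strip T := by
    intro θ t ht
    have h1 : (t + θ * I : ℂ).re = t := by simp
    exact ⟨by rw [h1]; exact ht.1, by rw [h1]; exact ht.2⟩
  -- the main estimate on a good line
  have hmain : ∀ θ ∈ Θg, ENNReal.ofReal (infDist (Φ (α0 θ + τ (α0 θ) * I)) K) ≤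
      ∫⁻ t in Ioo 0 T, W (t + θ * I) := by
    intro θ hθ
    have hGc : ContinuousOn (fun t : ℝ => G (t + θ * I)) (Ico 0 T) := by
      refine hS.Gcont.comp (hline θ).continuousOn ?_
      intro t ht
      have h1 : (t + θ * I : ℂ).re = t := by simp
      exact ⟨by rw [h1]; exact ht.1, by rw [h1]; exact ht.2⟩
    have hG0 : G ((0 : ℝ) + θ * I) = α0 θ + τ (α0 θ) * I := by
      rw [← hS.Gbd θ]
      congr 1
      simp
    have hG0im : (G ((0 : ℝ) + θ * I)).im = τ (α0 θ) := by
      rw [hG0]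
      simp
    have hG0pos : 0 < (G ((0 : ℝ) + θ * I)).im := by
      rw [hG0im]
      exact hτ.pos _
    have hGim : ContinuousOn (fun t : ℝ => (G (t + θ * I)).im) (Ico 0 T) :=
      Complex.continuous_im.comp_continuousOn hGc
    -- the endpoint `s`
    have hend : ∀ ε > (0 : ℝ), ∃ s ∈ Ioo 0 T, infDist (h (ψ (s + θ * I))) K ≤ ε ∧
        ∀ t ∈ Ioo 0 s, 0 < (G (t + θ * I)).im := by
      intro ε hε
      by_cases hZ : ∃ t ∈ Ioo 0 T, (G (t + θ * I)).im = 0
      · obtain ⟨t1, ht1, hGt1⟩ := hZ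
        set Z : Set ℝ := Icc 0 t1 ∩ (fun t : ℝ => (G (t + θ * I)).im) ⁻¹' {0} with hZdef
        have hcl : IsClosed Z := by
          refine ContinuousOn.preimage_isClosed_of_isClosed ?_ isClosed_Icc isClosed_singleton
          exact hGim.mono fun t ht => ⟨ht.1, lt_of_le_of_lt ht.2 ht1.2⟩
        have hcomp : IsCompact Z := isCompact_Icc.of_isClosed_subset hcl inter_subset_left
        obtain ⟨s, hsZ, hsmin⟩ := hcomp.exists_isLeast ⟨t1, ⟨ht1.1.le, le_rfl⟩, hGt1⟩
        have hs0 : 0 < s := by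
          refine lt_of_le_of_ne hsZ.1.1 ?_
          rintro rfl
          exact hG0pos.ne' hsZ.2
        have hsT : s < T := lt_of_le_of_lt hsZ.1.2 ht1.2
        refine ⟨s, ⟨hs0, hsT⟩, ?_, ?_⟩
        · rw [infDist_zero_of_mem (hzero _ (hmemS θ s ⟨hs0, hsT⟩) hsZ.2)]
          exact hε.le
        · intro t ht
          have h1 := hS.G0 _ (hmemS θ t ⟨ht.1, ht.2.trans hsT⟩)
          refine lt_of_le_of_ne h1 fun h2 => ?_
          have h3 : t ∈ Z := ⟨⟨ht.1.le, (ht.2.le.trans hsZ.1.2)⟩, h2.symm⟩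
          exact absurd (hsmin h3) (not_le.mpr ht.2)
      · push Not at hZ
        obtain ⟨κ, hκ, hκ1⟩ := hnear ε hε
        obtain ⟨d, hd, hd1⟩ := hS.tendL κ hκ
        set s : ℝ := max (T - d / 2) (T / 2) with hs
        have hTpos := hS.Tpos
        have hs0 : 0 < s := lt_of_lt_of_le (by linarith) (le_max_right _ _)
        have hsT : s < T := max_lt (by linarith) (by linarith)
        have hsd : T - d < s := lt_of_lt_of_le (by linarith) (le_max_left _ _)
        have hmem := hmemS θ s ⟨hs0, hsT⟩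
        refine ⟨s, ⟨hs0, hsT⟩, ?_, ?_⟩
        · refine (hκ1 _ (hψΩ _ hmem) (hd1 _ hmem ?_)).le
          have h1 : (s + θ * I : ℂ).re = s := by simp
          rw [h1]
          exact hsd
        · intro t ht
          have h1 := hS.G0 _ (hmemS θ t ⟨ht.1, ht.2.trans hsT⟩)
          exact lt_of_le_of_ne h1 fun h2 => hZ t ⟨ht.1, ht.2.trans hsT⟩ h2.symm
    -- the estimate up to `ε`
    have heps : ∀ ε > (0 : ℝ), ENNReal.ofReal (infDist (Φ (α0 θ + τ (α0 θ) * I)) K) ≤
        ENNReal.ofReal ε + ∫⁻ t in Ioo 0 T, W (t + θ * I) := by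
      intro ε hε
      obtain ⟨s, hs, hs1, hs2⟩ := hend ε hε
      have hint : IntervalIntegrable (fun t : ℝ => Ht (t + θ * I)) volume 0 s := by
        refine (hgl.iΘ θ hθ).mono_set ?_
        rw [uIcc_of_le hs.1.le, uIcc_of_le hS.Tpos.le]
        exact Icc_subset_Icc_right hs.2.le
      set J : ℝ := ∫ t in (0 : ℝ)..s, ‖Ht (t + θ * I)‖ with hJ
      have h1 : ∀ t ∈ Ioo 0 s, infDist (Φ (G (t + θ * I))) K ≤ ε + J := by
        intro t ht
        have htT : t ∈ Ioo 0 T := ⟨ht.1, ht.2.trans hs.2⟩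
        rw [← (hpos _ (hmemS θ t htT) (hs2 t ht)).1]
        have h2 := hgl.hΘ θ hθ t htT s hs
        rw [hp.eq _ (hmemS θ s hs), hp.eq _ (hmemS θ t htT)] at h2
        have h3 : ‖h (ψ (s + θ * I)) - h (ψ (t + θ * I))‖ ≤ J := by
          rw [h2]
          refine (intervalIntegral.norm_integral_le_integral_norm ht.2.le).trans ?_
          rw [hJ]
          refine intervalIntegral.integral_mono_interval ht.1.le ht.2.le le_rfl ?_ hint.norm
          exact Filter.Eventually.of_forall fun t => norm_nonneg _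
        calc infDist (h (ψ (t + θ * I))) K
            ≤ infDist (h (ψ (s + θ * I))) K + dist (h (ψ (t + θ * I))) (h (ψ (s + θ * I))) :=
              infDist_le_infDist_add_dist
          _ ≤ ε + J := by
              rw [dist_comm, dist_eq_norm]
              exact add_le_add hs1 h3
      have h2 : infDist (Φ (α0 θ + τ (α0 θ) * I)) K ≤ ε + J := by
        have hc1 : ContinuousWithinAt (fun t : ℝ => G (t + θ * I)) (Ioo 0 s) 0 :=
          (hGc 0 ⟨le_rfl, hS.Tpos⟩).mono fun t ht => ⟨ht.1.le, ht.2.trans hs.2⟩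
        have hc2 : ContinuousAt Φ (G ((0 : ℝ) + θ * I)) := by
          have hU : IsOpen UHP := isOpen_lt continuous_const Complex.continuous_im
          exact (hK.dPhi.differentiableAt (hU.mem_nhds hG0pos)).continuousAt
        have hc3 : Tendsto (fun t : ℝ => infDist (Φ (G (t + θ * I))) K) (𝓝[Ioo 0 s] 0)
            (𝓝 (infDist (Φ (G ((0 : ℝ) + θ * I))) K)) :=
          ((continuous_infDist_pt K).tendsto _).comp (hc2.tendsto.comp hc1)
        rw [hG0] at hc3
        have hne : (𝓝[Ioo 0 s] (0 : ℝ)).NeBot := left_nhdsWithin_Ioo_neBot hs.1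
        refine le_of_tendsto hc3 ?_
        filter_upwards [self_mem_nhdsWithin] with t ht
        exact h1 t ht
      have hJ0 : 0 ≤ J := intervalIntegral.integral_nonneg hs.1.le fun t _ => norm_nonneg _
      refine (ENNReal.ofReal_le_ofReal h2).trans ?_
      rw [ENNReal.ofReal_add hε.le hJ0]
      refine add_le_add le_rfl ?_
      rw [hJ, intervalIntegral.integral_of_le hs.1.le, integral_Ioc_eq_integral_Ioo,
        ofReal_integral_norm_eq_lintegral_enorm]
      · calc ∫⁻ t in Ioo 0 s, ‖Ht (t + θ * I)‖ₑ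
            ≤ ∫⁻ t in Ioo 0 s, W (t + θ * I) := by
              refine setLIntegral_mono' measurableSet_Ioo fun t ht => ?_
              have htT : t ∈ Ioo 0 T := ⟨ht.1, ht.2.trans hs.2⟩
              have hmem : (t + θ * I : ℂ) ∈ strip T ∩ ψ ⁻¹' E :=
                ⟨hmemS θ t htT, (hpos _ (hmemS θ t htT) (hs2 t ht)).2⟩
              rw [hW, indicator_of_mem hmem]
          _ ≤ ∫⁻ t in Ioo 0 T, W (t + θ * I) :=
              lintegral_mono_set (Ioo_subset_Ioo_right hs.2.le)
      · have h3 := hint.norm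
        have h4 := hint
        rw [intervalIntegrable_iff_integrableOn_Ioo_of_le hs.1.le] at h4
        exact h4
    refine ENNReal.le_of_forall_pos_le_add fun ε hε _ => ?_
    have h1 := heps ε (by exact_mod_cast hε)
    refine h1.trans (le_of_eq ?_)
    rw [ENNReal.ofReal_coe_nnreal, add_comm]
  have hWT : ∀ θ : ℝ, Measurable fun t : ℝ => W (t + θ * I) := fun θ => hWm.comp (hline θ).measurable
  have hsq : ∀ θ ∈ Θg, ENNReal.ofReal (infDist (Φ (α0 θ + τ (α0 θ) * I)) K) ^ 2 ≤
      ENNReal.ofReal T * ∫⁻ t in Ioo 0 T, W (t + θ * I) ^ 2 := fun θ hθ =>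
    (pow_le_pow_left' (hmain θ hθ) 2).trans (n6_cs (hWT θ))
  have haeΘ : ∀ᵐ θ : ℝ, θ ∈ Θg := by
    have := hgl.fΘ
    exact (compl_compl Θg) ▸ compl_mem_ae_iff.mpr this
  calc ∫⁻ θ in Ioo 0 (2 * Real.pi), ENNReal.ofReal (infDist (Φ (α0 θ + τ (α0 θ) * I)) K) ^ 2
      ≤ ∫⁻ θ in Ioo 0 (2 * Real.pi), ENNReal.ofReal T * ∫⁻ t in Ioo 0 T, W (t + θ * I) ^ 2 := by
        refine lintegral_mono_ae ?_
        filter_upwards [ae_restrict_of_ae haeΘ] with θ hθ
        exact hsq θ hθ
    _ = ENNReal.ofReal T * ∫⁻ θ in Ioo 0 (2 * Real.pi), ∫⁻ t in Ioo 0 T, W (t + θ * I) ^ 2 := by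
        rw [lintegral_const_mul' _ _ ENNReal.ofReal_ne_top]
    _ ≤ ENNReal.ofReal T * ∫⁻ z in per1 (strip T), W z ^ 2 :=
        mul_le_mul_right (n6_fubini (V := fun z => W z ^ 2) (hWm.pow_const 2)) _
    _ ≤ ENNReal.ofReal T * en {x | x ∈ Ω ∧ h x ∈ collar Φ τ} hx hy := by
        refine mul_le_mul_right ?_ _
        have h1 := hp.en E hEo.measurableSet
        rw [hEA] at h1
        change _ ≤ en E hx hy
        rw [← h1]
        have hm1 : MeasurableSet (per1 (strip T)) := (n0_per1_open hSo).measurableSet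
        have h2 : ∀ z, W z ^ 2 = (strip T ∩ ψ ⁻¹' E).indicator (fun z => ‖Ht z‖ₑ ^ 2) z := by
          intro z
          by_cases hz : z ∈ strip T ∩ ψ ⁻¹' E
          · rw [hW, indicator_of_mem hz, indicator_of_mem hz]
          · rw [hW, indicator_of_notMem hz, indicator_of_notMem hz]
            simp
        simp only [h2]
        rw [setLIntegral_indicator hmS]
        unfold en
        have h3 : strip T ∩ ψ ⁻¹' E ∩ per1 (strip T) ⊆ per1 (strip T) ∩ ψ ⁻¹' E :=
          fun z hz => ⟨hz.2, hz.1.2⟩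
        refine (lintegral_mono_set h3).trans (lintegral_mono fun z => le_self_add)

end CF6

end

section

/-! # Module N, row N7a: the two ends of a chart

`chart_near`: let `c = infDist x L > 0` (`L` closed, nonempty, `x ∉ L`). `tendL` with `η = c/2`: `a` with `infDist (ψ z) L < c/2` for `re z > a`, so `‖ψ z - x‖ > c/2` there. The set `ψ '' {z | d ≤ re z ≤ a, 0 ≤ im z ≤ 2π}` is compact, contained in `A`, does not contain `x`, so it has positive distance to `x`
(if `d > a` it is empty); by periodicity (`Xper`, `per`, both directions, integer translations) it contains `ψ z` for all `z ∈ X` with `d ≤ re z ≤ a` (`X` is `strip T` or `rhp`, `(a : ℂ) ∈ X`).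
`chart_far`: `cpt`: the compact `Q ⊆ Ω` is disjoint from the closed `L`: positive distance `κ1`; the compact set `ψ '' {z | min d a ≤ re z ≤ a, 0 ≤ im ≤ 2π} ⊆ A ⊆ Ω` has positive distance `κ2` to `L`. `κ = min`. -/

open Complex MeasureTheory Set Filter Topology Metric
open scoped ENNReal

namespace CF6

theorem n7a_cont {A X : Set ℂ} {ψ : ℂ → ℂ} (ch : Chart X A ψ) : ContinuousOn ψ X := by
  rcases ch.conf with h | h
  · exact h.continuousOn
  · have h1 : ContinuousOn (fun z => ψ ((starRingEnd ℂ) ((starRingEnd ℂ) z))) X :=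
      h.continuousOn.comp Complex.continuous_conj.continuousOn (fun z hz => ⟨z, hz, rfl⟩)
    refine h1.congr (fun z _ => ?_)
    show ψ z = ψ ((starRingEnd ℂ) ((starRingEnd ℂ) z))
    rw [Complex.conj_conj]

theorem n7a_per {A X : Set ℂ} {ψ : ℂ → ℂ} (hre : ∀ z w : ℂ, z.re = w.re → (z ∈ X ↔ w ∈ X))
    (ch : Chart X A ψ) (z : ℂ) (hz : z ∈ X) (n : ℤ) : ψ (z + n * (2 * Real.pi * I)) = ψ z := by
  have hmem : ∀ m : ℤ, z + m * (2 * Real.pi * I) ∈ X := by
    intro m
    refine (hre _ _ ?_).mpr hz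
    simp
  induction n using Int.induction_on with
  | zero => simp
  | succ k ih =>
    have h1 := ch.per _ (hmem k)
    rw [← ih, ← h1]
    congr 1
    push_cast
    ring
  | pred k ih =>
    have h1 := ch.per _ (hmem (-(k : ℤ) - 1))
    rw [← ih, ← h1]
    congr 1
    push_cast
    ring

theorem n7a_box {A X : Set ℂ} {ψ : ℂ → ℂ} (hX : (∃ T > (0 : ℝ), X = strip T) ∨ X = rhp)
    (ch : Chart X A ψ) (d a : ℝ) (hd : 0 < d) (ha : (a : ℂ) ∈ X) :
    ∃ K : Set ℂ, IsCompact K ∧ K ⊆ A ∧ ∀ z ∈ X, d ≤ z.re → z.re ≤ a → ψ z ∈ K := by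
  have hre : ∀ z w : ℂ, z.re = w.re → (z ∈ X ↔ w ∈ X) := by
    intro z w h
    rcases hX with ⟨T, _, rfl⟩ | rfl
    · show (0 < z.re ∧ z.re < T) ↔ (0 < w.re ∧ w.re < T)
      rw [h]
    · show (0 < z.re) ↔ (0 < w.re)
      rw [h]
  have hin : ∀ z : ℂ, 0 < z.re → z.re ≤ a → z ∈ X := by
    intro z h1 h2
    rcases hX with ⟨T, _, rfl⟩ | rfl
    · exact ⟨h1, h2.trans_lt (by simpa using ha.2)⟩
    · exact h1
  have hbox : IsCompact (Icc d a ×ℂ Icc 0 (2 * Real.pi)) := isCompact_Icc.reProdIm isCompact_Icc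
  have hsub : (Icc d a ×ℂ Icc 0 (2 * Real.pi)) ⊆ X := by
    intro z hz
    rw [Complex.mem_reProdIm] at hz
    exact hin z (hd.trans_le hz.1.1) hz.1.2
  refine ⟨ψ '' (Icc d a ×ℂ Icc 0 (2 * Real.pi)),
    hbox.image_of_continuousOn ((n7a_cont ch).mono hsub), ?_, ?_⟩
  · rw [← ch.image]
    exact image_mono hsub
  · intro z hz h1 h2
    have hpi := Real.two_pi_pos
    let n : ℤ := ⌊z.im / (2 * Real.pi)⌋
    have hn1 : (n : ℝ) * (2 * Real.pi) ≤ z.im := by
      have := Int.floor_le (z.im / (2 * Real.pi))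
      rwa [le_div_iff₀ hpi] at this
    have hn2 : z.im < ((n : ℝ) + 1) * (2 * Real.pi) := by
      have := Int.lt_floor_add_one (z.im / (2 * Real.pi))
      rwa [div_lt_iff₀ hpi] at this
    have him : (z + ((-n : ℤ) : ℂ) * (2 * Real.pi * I)).im = z.im - n * (2 * Real.pi) := by
      have : ((-n : ℤ) : ℂ) * (2 * Real.pi * I) = ((-(n : ℝ) * (2 * Real.pi) : ℝ) : ℂ) * I := by
        push_cast; ring
      rw [this, Complex.add_im, Complex.im_ofReal_mul, Complex.I_im]
      ring
    refine ⟨z + ((-n : ℤ) : ℂ) * (2 * Real.pi * I), ?_, n7a_per hre ch z hz (-n)⟩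
    rw [Complex.mem_reProdIm, him]
    refine ⟨?_, ?_, ?_⟩
    · have : (z + ((-n : ℤ) : ℂ) * (2 * Real.pi * I)).re = z.re := by simp
      rw [this]
      exact ⟨h1, h2⟩
    · linarith
    · linarith

theorem n7a_gap {Q L : Set ℂ} (hQ : IsCompact Q) (Lcl : IsClosed L) (Lne : L.Nonempty)
    (hd : ∀ q ∈ Q, q ∉ L) : ∃ κ > (0 : ℝ), ∀ q ∈ Q, κ ≤ infDist q L := by
  rcases Q.eq_empty_or_nonempty with h | h
  · exact ⟨1, one_pos, fun q hq => by rw [h] at hq; exact absurd hq (notMem_empty q)⟩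
  · obtain ⟨q0, hq0, hmin⟩ := hQ.exists_isMinOn h (Metric.continuous_infDist_pt L).continuousOn
    exact ⟨infDist q0 L, (Lcl.notMem_iff_infDist_pos Lne).mp (hd q0 hq0), fun q hq => hmin hq⟩

theorem chart_near {A L X : Set ℂ} {ψ : ℂ → ℂ} (hX : (∃ T > (0 : ℝ), X = strip T) ∨ X = rhp)
    (ch : Chart X A ψ) (Lcl : IsClosed L) (Lne : L.Nonempty)
    (tendL : ∀ η > (0 : ℝ), ∃ a : ℝ, (a : ℂ) ∈ X ∧ ∀ z ∈ X, a < z.re → infDist (ψ z) L < η)
    {x : ℂ} (hxA : x ∉ A) (hxL : x ∉ L) (d : ℝ) (hd : 0 < d) :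
    ∃ δ > (0 : ℝ), ∀ z ∈ X, ‖ψ z - x‖ < δ → z.re < d := by
  have hc : 0 < infDist x L := (Lcl.notMem_iff_infDist_pos Lne).mp hxL
  obtain ⟨a, haX, ha⟩ := tendL (infDist x L / 2) (by positivity)
  obtain ⟨K, hK, hKA, hKz⟩ := n7a_box hX ch d a hd haX
  obtain ⟨δ, hδ, hδs⟩ := Metric.isOpen_iff.mp hK.isClosed.isOpen_compl x (fun h => hxA (hKA h))
  refine ⟨min (infDist x L / 2) δ, lt_min (by positivity) hδ, fun z hz hlt => ?_⟩
  by_contra hcon
  push Not at hcon
  rcases lt_or_ge a z.re with h | h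
  · have h1 := ha z hz h
    have h2 : infDist x L ≤ infDist (ψ z) L + dist x (ψ z) := infDist_le_infDist_add_dist
    have h3 : dist x (ψ z) < infDist x L / 2 := by
      rw [dist_comm, dist_eq_norm]
      exact hlt.trans_le (min_le_left _ _)
    linarith
  · refine hδs ?_ (hKz z hz hcon h)
    rw [mem_ball, dist_eq_norm]
    exact hlt.trans_le (min_le_right _ _)

theorem chart_far {Ω A L X : Set ℂ} {ψ : ℂ → ℂ} (hX : (∃ T > (0 : ℝ), X = strip T) ∨ X = rhp)
    (ch : Chart X A ψ) (hAO : A ⊆ Ω) (Lcl : IsClosed L) (Lne : L.Nonempty) (LO : Disjoint L Ω)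
    (cpt : ∃ Q ⊆ Ω, IsCompact Q ∧ ∃ d > (0 : ℝ), ∀ z ∈ X, z.re < d → ψ z ∈ Q)
    (a : ℝ) (ha : (a : ℂ) ∈ X) :
    ∃ κ > (0 : ℝ), ∀ z ∈ X, infDist (ψ z) L < κ → a < z.re := by
  obtain ⟨Q, hQO, hQ, d, hd, hz⟩ := cpt
  obtain ⟨K, hK, hKA, hKz⟩ := n7a_box hX ch d a hd ha
  have hnot : ∀ q ∈ Ω, q ∉ L := fun q hq hqL => (Set.disjoint_left.mp LO) hqL hq
  obtain ⟨κ1, hκ1, h1⟩ := n7a_gap hQ Lcl Lne (fun q hq => hnot q (hQO hq))
  obtain ⟨κ2, hκ2, h2⟩ := n7a_gap hK Lcl Lne (fun q hq => hnot q (hAO (hKA hq)))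
  refine ⟨min κ1 κ2, lt_min hκ1 hκ2, fun z hzX hlt => ?_⟩
  by_contra hcon
  push Not at hcon
  rcases lt_or_ge z.re d with h | h
  · exact absurd (h1 _ (hz z hzX h)) (not_le.mpr (hlt.trans_le (min_le_left _ _)))
  · exact absurd (h2 _ (hKz z hzX h hcon)) (not_le.mpr (hlt.trans_le (min_le_right _ _)))

end CF6

end
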