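import Pool.Agent.Lib.MP_cf6b16_an.K1
import Pool.Agent.Lib.MP_cf6b16_an.K2
import Pool.Agent.Lib.MP_cf6b16_an.K5
import Pool.Agent.Lib.MP_cf6b16_an.A2

section

set_option autoImplicit false

open MeasureTheory Metric Set Filter Topology
open scoped ContDiff ENNReal ComplexConjugate

namespace CF6

private theorem BA2_min {τ : ℝ → ℝ} (cτ : Continuous τ) (per : ∀ x, τ (x + 2 * Real.pi) = τ x)
    (pos : ∀ x, 0 < τ x) : ∃ m > (0 : ℝ), ∀ x, m ≤ τ x := by
  obtain ⟨x0, -, hx0⟩ := (isCompact_Icc (a := (0 : ℝ)) (b := 2 * Real.pi)).exists_isMinOn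
    ⟨0, ⟨le_rfl, by positivity⟩⟩ cτ.continuousOn
  refine ⟨τ x0, pos x0, fun x => ?_⟩
  obtain ⟨y, hy, hxy⟩ := Function.Periodic.exists_mem_Ico₀ (f := τ) per (by positivity) x
  rw [hxy]
  exact hx0 ⟨hy.1, hy.2.le⟩

private theorem BA2_tau {τ : ℝ → ℝ} (per : ∀ x, τ (x + 2 * Real.pi) = τ x) (x : ℝ) (m : ℤ) :
    τ (x + 2 * Real.pi * m) = τ x := by
  have hp : Function.Periodic τ (2 * Real.pi) := per
  have := hp.int_mul m x
  rw [mul_comm]
  exact this

private theorem BA2_strip {T : ℝ} {z : ℂ} (hz : z ∈ strip T) (r : ℝ) :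
    z + r * Complex.I ∈ strip T := by
  obtain ⟨h1, h2⟩ := hz
  constructor <;> simpa using (by assumption)

private theorem BA2_per {τ : ℝ → ℝ} {T : ℝ} {U : ℂ → ℂ} (h : CellData τ T U) {z : ℂ}
    (hz : z ∈ strip T) (m : ℤ) : U (z + (2 * Real.pi * m : ℝ) * Complex.I) = U z + (2 * Real.pi * m : ℝ) := by
  have hnat : ∀ (n : ℕ) (z : ℂ), z ∈ strip T →
      U (z + (2 * Real.pi * n : ℝ) * Complex.I) = U z + (2 * Real.pi * n : ℝ) := by
    intro n
    induction n with
    | zero => intro z _; simp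
    | succ n ih =>
      intro z hz
      have h1 := h.per (z + (2 * Real.pi * n : ℝ) * Complex.I) (BA2_strip hz _)
      rw [ih z hz] at h1
      have e1 : z + ((2 * Real.pi * ((n + 1 : ℕ) : ℝ) : ℝ) : ℂ) * Complex.I
          = z + (2 * Real.pi * n : ℝ) * Complex.I + 2 * Real.pi * Complex.I := by
        push_cast; ring
      rw [e1, h1]
      push_cast; ring
  rcases Int.eq_nat_or_neg m with ⟨n, rfl | rfl⟩
  · exact_mod_cast hnat n z hz
  · have h1 := hnat n (z + ((-(2 * Real.pi * n) : ℝ) : ℂ) * Complex.I) (BA2_strip hz _)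
    have e1 : z + ((-(2 * Real.pi * n) : ℝ) : ℂ) * Complex.I + (2 * Real.pi * n : ℝ) * Complex.I = z := by
      push_cast; ring
    rw [e1] at h1
    have e2 : ((2 * Real.pi * ((-(n : ℤ) : ℤ) : ℝ) : ℝ) : ℂ) = ((-(2 * Real.pi * n) : ℝ) : ℂ) := by
      push_cast; ring
    rw [e2, h1]
    push_cast; ring

private theorem BA2_arg (z : ℂ) : ((Complex.arg (Complex.exp (-conj z)) : ℝ) : Real.Angle)
    = (z.im : Real.Angle) := by
  rw [Complex.exp_eq_exp_re_mul_sin_add_cos]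
  have h1 : ((-conj z).re : ℝ) = -z.re := by simp
  have h2 : ((-conj z).im : ℝ) = z.im := by simp
  rw [h1, h2]
  have h3 := Complex.arg_mul_cos_add_sin_mul_I_coe_angle (r := Real.exp (-z.re)) (Real.exp_pos _)
    (z.im : Real.Angle)
  rw [← h3]
  congr 2
  simp

/-- squared distance to `θ₀ I + 2 π i ℤ` as a function of `exp (- conj z)` -/
private noncomputable def BA2_G (θ₀ : ℝ) (w : ℂ) : ℝ :=
  (Real.log ‖w‖) ^ 2 + ‖((Complex.arg w : ℝ) : Real.Angle) - (θ₀ : Real.Angle)‖ ^ 2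

private theorem BA2_G_exp (θ₀ : ℝ) (z : ℂ) : ∃ m : ℤ,
    BA2_G θ₀ (Complex.exp (-conj z)) = z.re ^ 2 + (z.im - θ₀ - 2 * Real.pi * m) ^ 2 ∧
    ∀ n : ℤ, |z.im - θ₀ - 2 * Real.pi * m| ≤ |z.im - θ₀ - 2 * Real.pi * n| := by
  refine ⟨round ((2 * Real.pi)⁻¹ * (z.im - θ₀)), ?_, ?_⟩
  · rw [BA2_G, BA2_arg, Complex.norm_exp, Real.log_exp, ← Real.Angle.coe_sub]
    have h1 : ‖((z.im - θ₀ : ℝ) : Real.Angle)‖
        = |(z.im - θ₀) - round ((2 * Real.pi)⁻¹ * (z.im - θ₀)) * (2 * Real.pi)| := AddCircle.norm_eq _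
    rw [h1, sq_abs]
    have h2 : ((-conj z).re : ℝ) = -z.re := by simp
    rw [h2]
    ring
  · intro n
    have h1 := round_le ((2 * Real.pi)⁻¹ * (z.im - θ₀)) n
    have h2 : ∀ k : ℤ, |z.im - θ₀ - 2 * Real.pi * k| = 2 * Real.pi * |(2 * Real.pi)⁻¹ * (z.im - θ₀) - k| := by
      intro k
      have hp : (0 : ℝ) < 2 * Real.pi := by positivity
      rw [← abs_of_pos hp, ← abs_mul, abs_of_pos hp]
      congr 1
      field_simp
    rw [h2, h2]
    exact mul_le_mul_of_nonneg_left h1 (by positivity)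

private theorem BA2_G_cont (θ₀ : ℝ) : ContinuousOn (BA2_G θ₀) {w | w ≠ 0} := by
  intro w hw
  have hw' : w ≠ 0 := hw
  have h1 : ContinuousAt (fun w : ℂ => Real.log ‖w‖) w :=
    continuous_norm.continuousAt.log (norm_ne_zero_iff.2 hw')
  have h2 : ContinuousAt (fun w : ℂ => ((Complex.arg w : ℝ) : Real.Angle)) w :=
    Complex.continuousAt_arg_coe_angle hw'
  exact ((h1.pow 2).add ((h2.sub continuousAt_const).norm.pow 2)).continuousWithinAt

/-- BA2. Boundary Cauchy property of the cell map.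
PROOF. Let `s > 0` be small: `s < 1`, `2 s < min τ`, `8 s ≤ ε`. Let `δ` be from BA1 (`ba_diam`) for `s/8`. Let `t₁ < min(T, 1)` with `t₁ < d(2 s)` (from `h.bd` with `η = 2 s`, and also for `η = s/8`). Courant-Lebesgue (`ACL2.courant_lebesgue` on `{z ∈ strip T, |im| < R}`, `R = |θ₀| + 2`, centre `θ₀ I`): `0 < ρ < t₁` such that `‖H z - H z'‖ ≤ δ` for all
`z, z'` on the half circle `C = {|z - θ₀ I| = ρ, re > 0}` (one arc). `S = U '' C` satisfies the hypotheses of BA1 (near the end points of the arc `re z → 0`, use `h.bd`), so `diam S ≤ s/8`; pick `u₀ ∈ S` with `τ - im < s/8`, `a = u₀.re`. Then `S ∩ B = ∅` for the set `B` of BA2a (points of `S`: `|re - a| ≤ s/8`, `τ(re) - im ≤ s/8 + 2 s/8 < s`, `τ` is 1-Lipschitz).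
`Q = {z ∈ strip T | U z ∈ B}`: by `h.mc` and BA2a its image under `e z = exp(-conj z)` is connected. `e '' C` does not meet it. `R = strip T ∩ ball (θ₀ I) ρ`. The set `e '' R` is open and closed in `e '' (strip T) \ e '' C` (`ρ < π`: `e` is injective modulo `2π i`; `e '' (strip T \ closedBall ..)` is the complement), so `e '' Q` is contained in `e '' R` or disjoint from it.
There is a point of `Q` with `re z = t₁' < t₁`, `t₁' > ρ`: on the line `re z = t₁'` the continuous function `θ ↦ (U (t₁' + θ I)).re` increases by `2π` over a period, so it takes the value `a + π + 2π m`-like, at which point `U z ∈ B` (depth `< 2s` by `bd`). Its image under `e` has modulus `e^{-t₁'} < e^{-ρ}`, so it is not in `e '' R`. So `U '' R ∩ B = ∅`.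
`U '' R` is connected (`R` is convex), contained in `{0 ≤ im < τ} \ B = ⋃_m {|re - a - 2π m| ≤ s, τ - im ≤ s} ∪ {im ≤ τ - 2 s}`: closed (relatively) pairwise disjoint locally finite sets; it contains points with `τ - im < s` (`h.bd`), so it is contained in one box `{|re - a - 2π m| ≤ s, 0 < τ - im ≤ s}`, whose diameter is `≤ 2 s + 3 s ≤ 8 s ≤ ε`. -/
theorem ba_cauchy {Φ : ℂ → ℂ} {τ : ℝ → ℝ} {T : ℝ} {U H Hx Hy : ℂ → ℂ} (hΦ : CurveData Φ τ)
    (h : CellData τ T U) (hHU : ∀ z ∈ strip T, 0 < (U z).im → H z = Φ (U z))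
    (hS : ∀ R : ℝ, ACL2 {z | z ∈ strip T ∧ |z.im| < R} H Hx Hy) (θ₀ : ℝ) {ε : ℝ} (hε : 0 < ε) :
    ∃ ρ > (0 : ℝ), ∀ z ∈ strip T, ∀ z' ∈ strip T, dist z (θ₀ * Complex.I) < ρ →
      dist z' (θ₀ * Complex.I) < ρ → ‖U z - U z'‖ ≤ ε := by
  classical
  have hπ : (3 : ℝ) < Real.pi := Real.pi_gt_three
  obtain ⟨m0', hm0', hτm'⟩ := BA2_min hΦ.cτ hΦ.per hΦ.pos
  obtain ⟨s0, hs00, hmc⟩ := h.mc
  obtain ⟨m0, hm0, hτm, hms⟩ : ∃ m0 > (0 : ℝ), (∀ x, m0 ≤ τ x) ∧ m0 ≤ s0 :=
    ⟨min m0' s0, lt_min hm0' hs00, fun x => (min_le_left _ _).trans (hτm' x), min_le_right _ _⟩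
  -- the scale `s`
  obtain ⟨s, hs0, hs1, hs2, hs3⟩ : ∃ s : ℝ, 0 < s ∧ s < 1 ∧ 2 * s < m0 ∧ 8 * s ≤ ε := by
    refine ⟨min (1 / 2) (min (m0 / 4) (ε / 8)), by positivity, ?_, ?_, ?_⟩
    · exact lt_of_le_of_lt (min_le_left _ _) (by norm_num)
    · have : min (1 / 2) (min (m0 / 4) (ε / 8)) ≤ m0 / 4 := (min_le_right _ _).trans (min_le_left _ _)
      linarith
    · have : min (1 / 2) (min (m0 / 4) (ε / 8)) ≤ ε / 8 := (min_le_right _ _).trans (min_le_right _ _)
      linarith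
  have hs2' : ∀ x, 2 * s < τ x := fun x => lt_of_lt_of_le hs2 (hτm x)
  obtain ⟨δ, hδ, hdiam⟩ := ba_diam hΦ (ε := s / 8) (by positivity)
  obtain ⟨d1, hd1, hbd1⟩ := h.bd (s / 8) (by positivity)
  have hT := h.T0
  -- the radius
  set t1 : ℝ := min (min d1 T) 1 / 2 with ht1
  have ht1p : 0 < t1 := by rw [ht1]; positivity
  have ht1d : t1 < d1 := by
    have : min (min d1 T) 1 ≤ d1 := (min_le_left _ _).trans (min_le_left _ _)
    rw [ht1]; linarith
  have ht1T : t1 < T := by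
    have : min (min d1 T) 1 ≤ T := (min_le_left _ _).trans (min_le_right _ _)
    rw [ht1]; linarith
  have ht11 : t1 < 1 := by
    have : min (min d1 T) 1 ≤ 1 := min_le_right _ _
    rw [ht1]; linarith
  set R : ℝ := |θ₀| + 2 with hR
  have hUo : IsOpen {z : ℂ | z ∈ strip T ∧ |z.im| < R} := by
    have h1 : {z : ℂ | z ∈ strip T ∧ |z.im| < R}
        = {z : ℂ | 0 < z.re} ∩ {z : ℂ | z.re < T} ∩ {z : ℂ | |z.im| < R} := by
      ext z; simp [strip]
    rw [h1]
    exact ((isOpen_lt continuous_const Complex.continuous_re).inter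
      (isOpen_lt Complex.continuous_re continuous_const)).inter
      (isOpen_lt (continuous_abs.comp Complex.continuous_im) continuous_const)
  obtain ⟨ρ, ⟨hρ0, hρt⟩, hCL⟩ := (hS R).courant_lebesgue hUo (θ₀ * Complex.I) hδ ht1p
  have hcre : ∀ θ : ℝ, (circleMap (θ₀ * Complex.I) ρ θ).re = ρ * Real.cos θ := by
    intro θ; simp [circleMap, Complex.exp_mul_I, ← Complex.ofReal_cos, ← Complex.ofReal_sin]
  have hcim : ∀ θ : ℝ, (circleMap (θ₀ * Complex.I) ρ θ).im = θ₀ + ρ * Real.sin θ := by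
    intro θ; simp [circleMap, Complex.exp_mul_I, ← Complex.ofReal_cos, ← Complex.ofReal_sin]
  have hcpos : ∀ θ ∈ Ioo (-(Real.pi / 2)) (Real.pi / 2), 0 < Real.cos θ := fun θ hθ =>
    Real.cos_pos_of_mem_Ioo hθ
  have hcs : ∀ θ ∈ Ioo (-(Real.pi / 2)) (Real.pi / 2), circleMap (θ₀ * Complex.I) ρ θ ∈ strip T := by
    intro θ hθ
    refine ⟨?_, ?_⟩
    · rw [hcre]; exact mul_pos hρ0 (hcpos θ hθ)
    · rw [hcre]
      have := Real.cos_le_one θ
      exact lt_of_le_of_lt (mul_le_of_le_one_right hρ0.le this) (by linarith)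
  have hcR : ∀ θ : ℝ, |(circleMap (θ₀ * Complex.I) ρ θ).im| < R := by
    intro θ
    rw [hcim, hR]
    have h1 : |ρ * Real.sin θ| ≤ ρ := by
      rw [abs_mul, abs_of_pos hρ0]
      have := Real.abs_sin_le_one θ
      exact mul_le_of_le_one_right hρ0.le this
    calc |θ₀ + ρ * Real.sin θ| ≤ |θ₀| + |ρ * Real.sin θ| := abs_add_le _ _
      _ < |θ₀| + 2 := by linarith
  -- the arc
  set C : Set ℂ := (circleMap (θ₀ * Complex.I) ρ) '' Ioo (-(Real.pi / 2)) (Real.pi / 2) with hC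
  have hCstrip : C ⊆ strip T := by rintro z ⟨θ, hθ, rfl⟩; exact hcs θ hθ
  have hCpre : IsPreconnected C :=
    isPreconnected_Ioo.image _ (continuous_circleMap _ _).continuousOn
  have hSpre : IsPreconnected (U '' C) := hCpre.image _ (h.cU.mono hCstrip)
  have hlo : ∀ u ∈ U '' C, 0 ≤ u.im ∧ u.im < τ u.re := by
    rintro u ⟨z, hz, rfl⟩; exact h.lo z (hCstrip hz)
  have htouch : ∀ η > (0 : ℝ), ∃ u ∈ U '' C, τ u.re - u.im < η := by
    intro η hη
    obtain ⟨d, hd, hbd⟩ := h.bd η hη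
    have hcont : Tendsto (fun θ : ℝ => ρ * Real.cos θ) (𝓝[<] (Real.pi / 2)) (𝓝 0) := by
      have h1 : Tendsto (fun θ : ℝ => ρ * Real.cos θ) (𝓝 (Real.pi / 2)) (𝓝 (ρ * Real.cos (Real.pi / 2))) :=
        (continuous_const.mul Real.continuous_cos).tendsto _
      rw [Real.cos_pi_div_two, mul_zero] at h1
      exact h1.mono_left nhdsWithin_le_nhds
    have h2 : ∀ᶠ θ in 𝓝[<] (Real.pi / 2), ρ * Real.cos θ < d := hcont.eventually (gt_mem_nhds hd)
    have h3 : ∀ᶠ θ in 𝓝[<] (Real.pi / 2), θ ∈ Ioo (-(Real.pi / 2)) (Real.pi / 2) :=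
      Ioo_mem_nhdsLT (by linarith)
    obtain ⟨θ, h4, h5⟩ := (h2.and h3).exists
    refine ⟨U (circleMap (θ₀ * Complex.I) ρ θ), ⟨_, ⟨θ, h5, rfl⟩, rfl⟩, hbd _ (hcs θ h5) ?_⟩
    rw [hcre]; exact h4
  have hΦS : ∀ u ∈ U '' C, ∀ v ∈ U '' C, 0 < u.im → 0 < v.im → ‖Φ u - Φ v‖ ≤ δ := by
    have key : ∀ θ ∈ Ioo (-(Real.pi / 2)) (Real.pi / 2), ∀ θ' ∈ Ioo (-(Real.pi / 2)) (Real.pi / 2),
        θ ≤ θ' → ‖H (circleMap (θ₀ * Complex.I) ρ θ') - H (circleMap (θ₀ * Complex.I) ρ θ)‖ ≤ δ := by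
      intro θ hθ θ' hθ' hle
      refine hCL θ θ' hle (by linarith [hθ.1, hθ'.2]) (fun x hx => ?_)
      have hx' : x ∈ Ioo (-(Real.pi / 2)) (Real.pi / 2) := ⟨by linarith [hθ.1, hx.1], by linarith [hθ'.2, hx.2]⟩
      exact ⟨hcs x hx', hcR x⟩
    rintro u ⟨z, ⟨θ, hθ, rfl⟩, rfl⟩ v ⟨z', ⟨θ', hθ', rfl⟩, rfl⟩ hu hv
    rw [← hHU _ (hcs θ hθ) hu, ← hHU _ (hcs θ' hθ') hv]
    rcases le_total θ θ' with hle | hle
    · rw [norm_sub_rev]; exact key θ hθ θ' hθ' hle
    · exact key θ' hθ' θ hθ hle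
  have hSd := hdiam (U '' C) hSpre hlo htouch hΦS
  -- the base point `a`
  have h0mem : (0 : ℝ) ∈ Ioo (-(Real.pi / 2)) (Real.pi / 2) := ⟨by linarith, by linarith⟩
  set a : ℝ := (U (circleMap (θ₀ * Complex.I) ρ 0)).re with ha
  have hSa : ∀ z ∈ C, |(U z).re - a| ≤ s / 8 := by
    intro z hz
    have h1 := hSd (U z) ⟨z, hz, rfl⟩ (U (circleMap (θ₀ * Complex.I) ρ 0)) ⟨_, ⟨0, h0mem, rfl⟩, rfl⟩
    have h2 := Complex.abs_re_le_norm (U z - U (circleMap (θ₀ * Complex.I) ρ 0))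
    rw [Complex.sub_re] at h2
    exact h2.trans h1
  obtain ⟨hBo, hBp, hBc⟩ := ba_ushape (a := a) hΦ.cτ hΦ.per hs0 hs1 hs2'
  set B : Set ℂ := {u : ℂ | τ u.re - 2 * s < u.im ∧ u.im < τ u.re ∧
      ((∀ m : ℤ, s < |u.re - a - 2 * Real.pi * m|) ∨ u.im < τ u.re - s)} with hB
  have hBin : ∀ u ∈ B, 0 < u.im ∧ τ u.re - s0 < u.im ∧ u.im < τ u.re := by
    rintro u ⟨h1, h2, -⟩
    exact ⟨by linarith [hs2' u.re], by linarith, h2⟩
  have hQc := hmc B hBo hBp hBin hBc
  -- translates of the arc do not meet `Q`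
  have hCB : ∀ z ∈ C, ∀ m : ℤ, U z + (2 * Real.pi * m : ℝ) ∉ B := by
    rintro z hz m ⟨-, -, h3⟩
    have e1 : (U z + ((2 * Real.pi * m : ℝ) : ℂ)).re = (U z).re + 2 * Real.pi * m := by simp
    have e2 : (U z + ((2 * Real.pi * m : ℝ) : ℂ)).im = (U z).im := by simp
    rw [e1, e2, BA2_tau hΦ.per] at h3
    rcases h3 with h3 | h3
    · have h4 := h3 m
      have h5 := hSa z hz
      have e3 : (U z).re + 2 * Real.pi * m - a - 2 * Real.pi * m = (U z).re - a := by ring
      rw [e3] at h4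
      linarith
    · obtain ⟨θ, hθ, rfl⟩ := hz
      have h4 := hbd1 _ (hcs θ hθ) (by
        rw [hcre]
        exact lt_of_le_of_lt (mul_le_of_le_one_right hρ0.le (Real.cos_le_one θ)) (by linarith))
      linarith
  -- a point of `Q` with real part `t1`
  obtain ⟨z2, hz2s, hz2r, hz2B⟩ : ∃ z2 ∈ strip T, z2.re = t1 ∧ U z2 ∈ B := by
    have hline : ∀ θ : ℝ, ((t1 : ℂ) + θ * Complex.I) ∈ strip T := by
      intro θ; exact ⟨by simpa using ht1p, by simpa using ht1T⟩
    have hfc : Continuous (fun θ : ℝ => (U ((t1 : ℂ) + θ * Complex.I)).re) := by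
      have h1 : Continuous (fun θ : ℝ => U ((t1 : ℂ) + θ * Complex.I)) :=
        h.cU.comp_continuous (by fun_prop) hline
      exact Complex.continuous_re.comp h1
    have hft : ∀ m : ℤ, (U ((t1 : ℂ) + ((2 * Real.pi * m : ℝ) : ℂ) * Complex.I)).re
        = (U (t1 : ℂ)).re + 2 * Real.pi * m := by
      intro m
      have h1 := BA2_per h (z := (t1 : ℂ)) (by simpa using hline 0) m
      rw [h1]; simp
    obtain ⟨n, hn⟩ := exists_nat_gt (|(U (t1 : ℂ)).re - (a + Real.pi)| / (2 * Real.pi))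
    have hn' : |(U (t1 : ℂ)).re - (a + Real.pi)| < n * (2 * Real.pi) := by
      rwa [div_lt_iff₀ (by positivity)] at hn
    obtain ⟨hn1, hn2⟩ := abs_lt.1 hn'
    obtain ⟨θ, hθ⟩ := mem_range_of_exists_le_of_exists_ge (c := a + Real.pi) hfc
      ⟨2 * Real.pi * ((-(n : ℤ) : ℤ) : ℝ), by rw [hft]; push_cast; linarith⟩
      ⟨2 * Real.pi * ((n : ℤ) : ℝ), by rw [hft]; push_cast; linarith⟩
    refine ⟨(t1 : ℂ) + θ * Complex.I, hline θ, by simp, ?_, (h.lo _ (hline θ)).2, Or.inl ?_⟩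
    · have := hbd1 _ (hline θ) (by simpa using ht1d)
      linarith
    · intro m
      have hθ' : (U ((t1 : ℂ) + θ * Complex.I)).re = a + Real.pi := hθ
      rw [hθ']
      have e1 : a + Real.pi - a - 2 * Real.pi * m = Real.pi * (1 - 2 * m) := by ring
      rw [e1, abs_mul, abs_of_pos (by linarith)]
      have h2 : (1 : ℝ) ≤ |1 - 2 * (m : ℝ)| := by
        have h3 : (1 : ℤ) ≤ |1 - 2 * m| := Int.one_le_abs (by omega)
        exact_mod_cast h3
      have h4 := mul_le_mul_of_nonneg_left h2 Real.pi_pos.le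
      linarith
  -- no point of the half disc is in `Q`
  have hDB : ∀ z ∈ strip T, dist z (θ₀ * Complex.I) < ρ → U z ∉ B := by
    intro z1 hz1 hz1d hz1B
    have hw1 : Complex.exp (-conj z1) ∈ (fun z => Complex.exp (-conj z)) '' {z | z ∈ strip T ∧ U z ∈ B} :=
      ⟨z1, ⟨hz1, hz1B⟩, rfl⟩
    have hw2 : Complex.exp (-conj z2) ∈ (fun z => Complex.exp (-conj z)) '' {z | z ∈ strip T ∧ U z ∈ B} :=
      ⟨z2, ⟨hz2s, hz2B⟩, rfl⟩
    have hGc : ContinuousOn (BA2_G θ₀) ((fun z => Complex.exp (-conj z)) '' {z | z ∈ strip T ∧ U z ∈ B}) := by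
      refine (BA2_G_cont θ₀).mono ?_
      rintro w ⟨z, -, rfl⟩
      exact Complex.exp_ne_zero _
    have hG1 : BA2_G θ₀ (Complex.exp (-conj z1)) ≤ ρ ^ 2 := by
      obtain ⟨m, hm, hmin⟩ := BA2_G_exp θ₀ z1
      rw [hm]
      have h1 := hmin 0
      rw [Int.cast_zero, mul_zero, sub_zero] at h1
      have h2 : (z1.im - θ₀ - 2 * Real.pi * m) ^ 2 ≤ (z1.im - θ₀) ^ 2 := sq_le_sq.2 h1
      have h3 : dist z1 (θ₀ * Complex.I) ^ 2 = z1.re ^ 2 + (z1.im - θ₀) ^ 2 := by
        rw [Complex.dist_eq, ← Complex.normSq_eq_norm_sq, Complex.normSq_apply]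
        simp; ring
      have h4 : dist z1 (θ₀ * Complex.I) ^ 2 ≤ ρ ^ 2 := pow_le_pow_left₀ dist_nonneg hz1d.le 2
      linarith
    have hG2 : ρ ^ 2 ≤ BA2_G θ₀ (Complex.exp (-conj z2)) := by
      obtain ⟨m, hm, -⟩ := BA2_G_exp θ₀ z2
      rw [hm, hz2r]
      have h1 : ρ ^ 2 ≤ t1 ^ 2 := pow_le_pow_left₀ hρ0.le hρt.le 2
      have h2 := sq_nonneg (z2.im - θ₀ - 2 * Real.pi * m)
      linarith
    obtain ⟨w, ⟨z, ⟨hzs, hzB⟩, rfl⟩, hwG⟩ := hQc.isPreconnected.intermediate_value hw1 hw2 hGc ⟨hG1, hG2⟩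
    obtain ⟨m, hm, -⟩ := BA2_G_exp θ₀ z
    have hwG' : BA2_G θ₀ (Complex.exp (-conj z)) = ρ ^ 2 := hwG
    rw [hm] at hwG'
    -- translate `z` to the arc
    set z' : ℂ := z + ((2 * Real.pi * ((-m : ℤ) : ℝ) : ℝ) : ℂ) * Complex.I with hz'
    have hz's : z' ∈ strip T := BA2_strip hzs _
    have hre : z'.re = z.re := by rw [hz']; simp
    have him : z'.im = z.im - 2 * Real.pi * m := by rw [hz']; simp; ring
    set v : ℂ := z' - θ₀ * Complex.I with hv
    have hvre : v.re = z.re := by rw [hv, Complex.sub_re, hre]; simp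
    have hvim : v.im = z.im - θ₀ - 2 * Real.pi * m := by rw [hv, Complex.sub_im, him]; simp; ring
    have hvn : ‖v‖ = ρ := by
      have h1 : ‖v‖ ^ 2 = ρ ^ 2 := by
        rw [← Complex.normSq_eq_norm_sq, Complex.normSq_apply, hvre, hvim, ← hwG']; ring
      exact (pow_left_inj₀ (norm_nonneg _) hρ0.le (by norm_num)).1 h1
    have harg : |Complex.arg v| < Real.pi / 2 :=
      Complex.abs_arg_lt_pi_div_two_iff.2 (Or.inl (by rw [hvre]; exact hzs.1))
    have hzC : z' ∈ C := by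
      refine ⟨Complex.arg v, ⟨(abs_lt.1 harg).1, (abs_lt.1 harg).2⟩, ?_⟩
      have h1 := Complex.norm_mul_exp_arg_mul_I v
      rw [hvn] at h1
      rw [circleMap, h1, hv]; ring
    have h1 := hCB z' hzC m
    rw [hz', BA2_per h hzs (-m)] at h1
    have e1 : U z + ((2 * Real.pi * ((-m : ℤ) : ℝ) : ℝ) : ℂ) + ((2 * Real.pi * m : ℝ) : ℂ) = U z := by
      push_cast; ring
    rw [e1] at h1
    exact h1 hzB
  -- the half disc
  set Dd : Set ℂ := {z : ℂ | 0 < z.re} ∩ {z : ℂ | z.re < T} ∩ ball (θ₀ * Complex.I) ρ with hDd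
  have hDpre : IsPreconnected Dd := by
    refine Convex.isPreconnected ?_
    exact ((convex_halfSpace_re_gt 0).inter (convex_halfSpace_re_lt T)).inter (convex_ball _ _)
  have hDs : Dd ⊆ strip T := fun z hz => ⟨hz.1.1, hz.1.2⟩
  have hDdep : ∀ z ∈ Dd, τ (U z).re - (U z).im < s / 8 := by
    intro z hz
    refine hbd1 z (hDs hz) ?_
    have h1 : dist z (θ₀ * Complex.I) < ρ := hz.2
    have h2 := Complex.abs_re_le_norm (z - θ₀ * Complex.I)
    rw [← Complex.dist_eq] at h2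
    have h3 : (z - θ₀ * Complex.I).re = z.re := by simp
    rw [h3] at h2
    have h4 := le_abs_self z.re
    linarith
  have hDm : ∀ z ∈ Dd, ∃ m : ℤ, |(U z).re - a - 2 * Real.pi * m| ≤ s := by
    intro z hz
    by_contra hcon
    push Not at hcon
    refine hDB z (hDs hz) hz.2 ⟨?_, (h.lo z (hDs hz)).2, Or.inl hcon⟩
    linarith [hDdep z hz]
  have hfD : ContinuousOn (fun z => (U z).re) Dd :=
    Complex.continuous_re.comp_continuousOn (h.cU.mono hDs)
  have hkey : ∀ z ∈ Dd, ∀ z' ∈ Dd, (U z').re - (U z).re ≤ 2 * s := by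
    intro z hz z' hz'
    obtain ⟨m, hm⟩ := hDm z hz
    have hm' := abs_le.1 hm
    by_contra hcon
    push Not at hcon
    set c : ℝ := a + 2 * Real.pi * m with hc
    have hlt : c + s < (U z').re := by rw [hc]; linarith
    set v : ℝ := min (U z').re (c + Real.pi) with hv
    have hv1 : c + s < v := lt_min hlt (by linarith)
    have hv2 : v ≤ c + Real.pi := min_le_right _ _
    have hv3 : v ≤ (U z').re := min_le_left _ _
    have hv4 : (U z).re ≤ v := by rw [hc] at hv1; linarith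
    obtain ⟨z'', hz'', hz''v⟩ := hDpre.intermediate_value hz hz' hfD ⟨hv4, hv3⟩
    have hz''v' : (U z'').re = v := hz''v
    obtain ⟨n, hn⟩ := hDm z'' hz''
    rw [hz''v'] at hn
    have hn' := abs_le.1 hn
    rcases le_or_gt n m with hnm | hnm
    · have h1 : (n : ℝ) ≤ m := by exact_mod_cast hnm
      have h2 : 2 * Real.pi * n ≤ 2 * Real.pi * m := by
        exact mul_le_mul_of_nonneg_left h1 (by positivity)
      rw [hc] at hv1
      linarith
    · have h1 : (m : ℝ) + 1 ≤ n := by exact_mod_cast hnm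
      have h2 : 2 * Real.pi * (m + 1) ≤ 2 * Real.pi * n := by
        exact mul_le_mul_of_nonneg_left h1 (by positivity)
      rw [hc] at hv2
      linarith
  refine ⟨ρ, hρ0, fun z hz z' hz' hzd hz'd => ?_⟩
  have hzD : z ∈ Dd := ⟨⟨hz.1, hz.2⟩, hzd⟩
  have hz'D : z' ∈ Dd := ⟨⟨hz'.1, hz'.2⟩, hz'd⟩
  have h1 := hkey z hzD z' hz'D
  have h2 := hkey z' hz'D z hzD
  have hre : |(U z).re - (U z').re| ≤ 2 * s := abs_le.2 ⟨by linarith, by linarith⟩
  have hlip := hΦ.lip (U z).re (U z').re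
  have h3 := hDdep z hzD
  have h4 := hDdep z' hz'D
  have h5 := (h.lo z hz).2
  have h6 := (h.lo z' hz').2
  have h7 := abs_le.1 (hlip.trans hre)
  have him : |(U z).im - (U z').im| ≤ 3 * s := abs_le.2 ⟨by linarith [h7.1, h7.2], by linarith [h7.1, h7.2]⟩
  calc ‖U z - U z'‖ ≤ |(U z - U z').re| + |(U z - U z').im| := Complex.norm_le_abs_re_add_abs_im _
    _ ≤ 2 * s + 3 * s := by rw [Complex.sub_re, Complex.sub_im]; exact add_le_add hre him
    _ ≤ ε := by linarith

end CF6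

end

section

set_option autoImplicit false

open MeasureTheory Metric Set Filter Topology
open scoped ContDiff ENNReal ComplexConjugate

namespace CF6

theorem ba3_neBot {T : ℝ} (hT : 0 < T) (θ : ℝ) : (𝓝[strip T] ((θ : ℂ) * Complex.I)).NeBot := by
  rw [← mem_closure_iff_nhdsWithin_neBot, Metric.mem_closure_iff]
  intro ε hε
  have hm : 0 < min ε T := lt_min hε hT
  refine ⟨(θ : ℂ) * Complex.I + ((min ε T / 2 : ℝ) : ℂ), ?_, ?_⟩
  · have hre : ((θ : ℂ) * Complex.I + ((min ε T / 2 : ℝ) : ℂ)).re = min ε T / 2 := by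
      rw [Complex.add_re, Complex.ofReal_re]
      simp
    constructor
    · rw [hre]; linarith
    · rw [hre]
      have := min_le_right ε T
      linarith
  · rw [dist_eq_norm, sub_add_cancel_left, norm_neg, Complex.norm_real, Real.norm_of_nonneg (by linarith)]
    have := min_le_left ε T
    linarith

/-- BA3. Continuous extension of the cell map to `re z = 0`.
PROOF. By BA2 and completeness `U` has a limit at every `θ I` within `strip T` (the filter `𝓝[strip T] (θ I)` is not trivial). By `h.bd` the limit is of the form `x + τ x I`; `α₀ θ := x`. Continuity of `α₀`: by BA2 (pass to the limit: `|α₀ θ - α₀ θ'| ≤ ε` for `|θ - θ'| < ρ`). Quasi-periodicity: `h.per` and uniqueness of limits. -/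
theorem cell_ext {Φ : ℂ → ℂ} {τ : ℝ → ℝ} {T : ℝ} {U H Hx Hy : ℂ → ℂ} (hΦ : CurveData Φ τ)
    (h : CellData τ T U) (hHU : ∀ z ∈ strip T, 0 < (U z).im → H z = Φ (U z))
    (hS : ∀ R : ℝ, ACL2 {z | z ∈ strip T ∧ |z.im| < R} H Hx Hy) :
    ∃ α₀ : ℝ → ℝ, Continuous α₀ ∧ (∀ θ, α₀ (θ + 2 * Real.pi) = α₀ θ + 2 * Real.pi) ∧
      ∀ θ : ℝ, Tendsto U (𝓝[strip T] (θ * Complex.I)) (𝓝 (α₀ θ + τ (α₀ θ) * Complex.I)) := by
  have hC := fun (θ₀ : ℝ) (ε : ℝ) (hε : 0 < ε) => ba_cauchy hΦ h hHU hS θ₀ hε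
  have hex : ∀ θ : ℝ, ∃ L : ℂ, Tendsto U (𝓝[strip T] ((θ : ℂ) * Complex.I)) (𝓝 L) := by
    intro θ
    have := ba3_neBot h.T0 θ
    rw [← cauchy_map_iff_exists_tendsto, Metric.cauchy_iff]
    refine ⟨inferInstance, fun ε hε => ?_⟩
    obtain ⟨ρ, hρ, hρ'⟩ := hC θ (ε / 2) (by linarith)
    refine ⟨U '' (strip T ∩ ball ((θ : ℂ) * Complex.I) ρ), image_mem_map
      (inter_mem_nhdsWithin _ (ball_mem_nhds _ hρ)), ?_⟩
    rintro _ ⟨z, ⟨hz, hzb⟩, rfl⟩ _ ⟨z', ⟨hz', hzb'⟩, rfl⟩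
    rw [dist_eq_norm]
    exact (hρ' z hz z' hz' hzb hzb').trans_lt (by linarith)
  choose L hL using hex
  have him : ∀ θ, (L θ).im = τ (L θ).re := by
    intro θ
    have := ba3_neBot h.T0 θ
    have him' : Tendsto (fun z => (U z).im) (𝓝[strip T] ((θ : ℂ) * Complex.I)) (𝓝 (L θ).im) :=
      (Complex.continuous_im.tendsto _).comp (hL θ)
    have hre' : Tendsto (fun z => τ (U z).re) (𝓝[strip T] ((θ : ℂ) * Complex.I))
        (𝓝 (τ (L θ).re)) :=
      ((hΦ.cτ.comp Complex.continuous_re).tendsto _).comp (hL θ)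
    apply le_antisymm
    · refine le_of_tendsto_of_tendsto him' hre' ?_
      filter_upwards [self_mem_nhdsWithin] with z hz
      exact (h.lo z hz).2.le
    · apply le_of_forall_pos_le_add
      intro η hη
      obtain ⟨d, hd, hd'⟩ := h.bd η hη
      have h1 : Tendsto (fun z => (U z).im + η) (𝓝[strip T] ((θ : ℂ) * Complex.I))
          (𝓝 ((L θ).im + η)) := him'.add_const η
      refine le_of_tendsto_of_tendsto hre' h1 ?_
      have h2 : ∀ᶠ z : ℂ in 𝓝[strip T] ((θ : ℂ) * Complex.I), z.re < d := by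
        apply mem_nhdsWithin_of_mem_nhds
        apply (isOpen_lt Complex.continuous_re continuous_const).mem_nhds
        simpa using hd
      filter_upwards [self_mem_nhdsWithin, h2] with z hz hzd
      have := hd' z hz hzd
      linarith
  refine ⟨fun θ => (L θ).re, ?_, ?_, ?_⟩
  · rw [Metric.continuous_iff]
    intro θ₀ ε hε
    obtain ⟨ρ, hρ, hρ'⟩ := hC θ₀ (ε / 2) (by linarith)
    refine ⟨ρ, hρ, fun θ hθ => ?_⟩
    have n1 := ba3_neBot h.T0 θ
    have n0 := ba3_neBot h.T0 θ₀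
    have h1 : ∀ z ∈ strip T, dist z ((θ₀ : ℂ) * Complex.I) < ρ → ‖U z - L θ₀‖ ≤ ε / 2 := by
      intro z hz hzb
      have h2 : Tendsto (fun z' => ‖U z - U z'‖) (𝓝[strip T] ((θ₀ : ℂ) * Complex.I))
          (𝓝 ‖U z - L θ₀‖) := (tendsto_const_nhds.sub (hL θ₀)).norm
      refine le_of_tendsto h2 ?_
      filter_upwards [self_mem_nhdsWithin, mem_nhdsWithin_of_mem_nhds
        (ball_mem_nhds ((θ₀ : ℂ) * Complex.I) hρ)] with z' hz' hz'b
      exact hρ' z hz z' hz' hzb hz'b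
    have h3 : ‖L θ - L θ₀‖ ≤ ε / 2 := by
      have h2 : Tendsto (fun z => ‖U z - L θ₀‖) (𝓝[strip T] ((θ : ℂ) * Complex.I))
          (𝓝 ‖L θ - L θ₀‖) := ((hL θ).sub tendsto_const_nhds).norm
      refine le_of_tendsto h2 ?_
      have h4 : (θ : ℂ) * Complex.I ∈ ball ((θ₀ : ℂ) * Complex.I) ρ := by
        rw [mem_ball, dist_eq_norm, ← sub_mul, norm_mul, Complex.norm_I, mul_one,
          ← Complex.ofReal_sub, Complex.norm_real, ← dist_eq_norm]
        exact hθ
      filter_upwards [self_mem_nhdsWithin, mem_nhdsWithin_of_mem_nhds (isOpen_ball.mem_nhds h4)]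
        with z hz hzb
      exact h1 z hz hzb
    rw [Real.dist_eq]
    have h5 : |(L θ).re - (L θ₀).re| ≤ ‖L θ - L θ₀‖ := by
      rw [← Complex.sub_re]
      exact Complex.abs_re_le_norm _
    linarith
  · intro θ
    have n0 := ba3_neBot h.T0 θ
    have h1 : Tendsto (fun z : ℂ => z + 2 * Real.pi * Complex.I)
        (𝓝[strip T] ((θ : ℂ) * Complex.I))
        (𝓝[strip T] (((θ + 2 * Real.pi : ℝ) : ℂ) * Complex.I)) := by
      apply tendsto_nhdsWithin_of_tendsto_nhds_of_eventually_within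
      · have e : ((θ + 2 * Real.pi : ℝ) : ℂ) * Complex.I =
            (θ : ℂ) * Complex.I + 2 * Real.pi * Complex.I := by
          push_cast; ring
        rw [e]
        exact ((continuous_id.add continuous_const).tendsto _).mono_left nhdsWithin_le_nhds
      · filter_upwards [self_mem_nhdsWithin] with z hz
        have hre : (z + 2 * Real.pi * Complex.I).re = z.re := by simp
        constructor
        · rw [hre]; exact hz.1
        · rw [hre]; exact hz.2
    have h2 := (hL (θ + 2 * Real.pi)).comp h1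
    have h3 : Tendsto (U ∘ fun z : ℂ => z + 2 * Real.pi * Complex.I)
        (𝓝[strip T] ((θ : ℂ) * Complex.I)) (𝓝 (L θ + 2 * Real.pi)) := by
      refine ((hL θ).add_const (2 * Real.pi : ℂ)).congr' ?_
      filter_upwards [self_mem_nhdsWithin] with z hz
      exact (h.per z hz).symm
    have h4 := tendsto_nhds_unique h2 h3
    change (L (θ + 2 * Real.pi)).re = (L θ).re + 2 * Real.pi
    rw [h4]
    simp
  · intro θ
    have e : L θ = ((L θ).re : ℂ) + (τ (L θ).re : ℂ) * Complex.I := by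
      rw [← him θ, Complex.re_add_im]
    have := hL θ
    rw [e] at this
    exact this

end CF6

end

section

set_option autoImplicit false

open MeasureTheory Metric Set Filter Topology
open scoped ContDiff ENNReal ComplexConjugate

namespace CF6

/-- a continuous function on the interval whose exponential is constant is constant -/
theorem cr1_const {D : ℝ → ℂ} {c : ℂ} (hD : ContinuousOn D (Icc 0 1))
    (h : ∀ t ∈ Icc (0 : ℝ) 1, Complex.exp (D t) = c) : (D 1).im = (D 0).im := by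
  have h0 : (0 : ℝ) ∈ Icc (0 : ℝ) 1 := by simp
  have h1 : (1 : ℝ) ∈ Icc (0 : ℝ) 1 := by simp
  have hcont : ContinuousOn (fun t => (D t).im - (D 0).im) (Icc 0 1) :=
    (Complex.continuous_im.comp_continuousOn hD).sub continuousOn_const
  have hmaps : MapsTo (fun t => (D t).im - (D 0).im) (Icc 0 1)
      (AddSubgroup.zmultiples (2 * Real.pi) : Set ℝ) := by
    intro t ht
    have he : Complex.exp (D t) = Complex.exp (D 0) := by rw [h t ht, h 0 h0]
    obtain ⟨n, hn⟩ := Complex.exp_eq_exp_iff_exists_int.1 he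
    refine ⟨n, ?_⟩
    have := congrArg Complex.im hn
    simp at this
    simp [this]
  obtain ⟨y, -, hy⟩ := isPreconnected_Icc.eqOn_const_of_mapsTo
    (isDiscrete_iff_discreteTopology.2 (inferInstanceAs
      (DiscreteTopology (AddSubgroup.zmultiples (2 * Real.pi))))) hcont hmaps ⟨0, by simp⟩
  have e0 := hy h0
  have e1 := hy h1
  simp at e0 e1
  linarith

/-- the argument of `1 - exp (i x)` -/
theorem cr1_arg {x : ℝ} (h0 : 0 < x) (h1 : x < 2 * Real.pi) :
    Complex.arg (1 - Complex.exp (x * Complex.I)) = (x - Real.pi) / 2 := by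
  have hs : 0 < 2 * Real.sin (x / 2) :=
    mul_pos two_pos (Real.sin_pos_of_pos_of_lt_pi (by linarith) (by linarith))
  have hx : (1 : ℂ) - Complex.exp (x * Complex.I) = ((2 * Real.sin (x / 2) : ℝ) : ℂ) *
      (Complex.cos (((x - Real.pi) / 2 : ℝ) : ℂ) + Complex.sin (((x - Real.pi) / 2 : ℝ) : ℂ) * Complex.I) := by
    have a1 : Real.cos ((x - Real.pi) / 2) = Real.sin (x / 2) := by
      rw [← Real.cos_sub_pi_div_two]; congr 1; ring
    have a2 : Real.sin ((x - Real.pi) / 2) = - Real.cos (x / 2) := by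
      rw [show (x - Real.pi) / 2 = x / 2 - Real.pi / 2 by ring, Real.sin_sub_pi_div_two]
    have b1 : Real.cos x = 1 - 2 * Real.sin (x / 2) ^ 2 := by
      have := Real.cos_two_mul (x / 2)
      rw [show 2 * (x / 2) = x by ring] at this
      have h2 := Real.sin_sq_add_cos_sq (x / 2)
      linarith
    have b2 : Real.sin x = 2 * Real.sin (x / 2) * Real.cos (x / 2) := by
      have := Real.sin_two_mul (x / 2)
      rwa [show 2 * (x / 2) = x by ring] at this
    rw [← Complex.ofReal_cos, ← Complex.ofReal_sin, a1, a2, Complex.exp_mul_I,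
      ← Complex.ofReal_cos, ← Complex.ofReal_sin, b1, b2]
    push_cast
    ring
  rw [hx, Complex.arg_mul_cos_add_sin_mul_I hs ⟨by linarith [Real.pi_pos], by linarith [Real.pi_pos]⟩]

/-- the change of the argument of `q - exp (i θ)` -/
theorem cr1_claim {θ α β : ℝ} (a1 : θ < α) (a2 : α < θ + 2 * Real.pi) (b1 : θ < β)
    (b2 : β < θ + 2 * Real.pi) {q L : ℝ → ℂ} (hq : ContinuousOn q (Icc 0 1))
    (hqb : MapsTo q (Icc 0 1) (closedBall 0 1))
    (hne : ∀ t ∈ Icc (0 : ℝ) 1, q t ≠ Complex.exp (θ * Complex.I))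
    (q0 : q 0 = Complex.exp (α * Complex.I)) (q1 : q 1 = Complex.exp (β * Complex.I))
    (hL : ContinuousOn L (Icc 0 1))
    (hLe : ∀ t ∈ Icc (0 : ℝ) 1, Complex.exp (L t) = q t - Complex.exp (θ * Complex.I)) :
    (L 1).im - (L 0).im = (β - α) / 2 := by
  set m : ℝ → ℂ := fun t => 1 - Complex.exp (-(θ * Complex.I)) * q t with hm
  have hee : Complex.exp (-(θ * Complex.I)) * Complex.exp (θ * Complex.I) = 1 := by
    rw [← Complex.exp_add]; simp
  have hnorm : ‖Complex.exp (-(θ * Complex.I))‖ = 1 := by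
    rw [← neg_mul, ← Complex.ofReal_neg]
    exact Complex.norm_exp_ofReal_mul_I _
  have hslit : ∀ t ∈ Icc (0 : ℝ) 1, m t ∈ Complex.slitPlane := by
    intro t ht
    left
    have h1 : ‖Complex.exp (-(θ * Complex.I)) * q t‖ ≤ 1 := by
      rw [norm_mul, hnorm, one_mul]
      have := hqb ht
      rwa [mem_closedBall, dist_zero_right] at this
    set w := Complex.exp (-(θ * Complex.I)) * q t with hw
    have h2 : w.re ≤ 1 := (Complex.re_le_norm w).trans h1
    have h3 : w.re ≠ 1 := by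
      intro h
      have h4 : w.im = 0 := by
        have h5 : w.re ^ 2 + w.im ^ 2 ≤ 1 := by
          have := Complex.sq_norm w
          rw [Complex.normSq_apply] at this
          nlinarith [norm_nonneg w]
        rw [h] at h5
        nlinarith [sq_nonneg w.im]
      have h6 : w = 1 := Complex.ext (by simpa using h) (by simpa using h4)
      apply hne t ht
      calc q t = (Complex.exp (-(θ * Complex.I)) * Complex.exp (θ * Complex.I)) * q t := by
            rw [hee, one_mul]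
        _ = Complex.exp (θ * Complex.I) * w := by rw [hw]; ring
        _ = Complex.exp (θ * Complex.I) := by rw [h6, mul_one]
    simp only [hm, Complex.sub_re, Complex.one_re]
    have := lt_of_le_of_ne h2 h3
    linarith
  have hmc : ContinuousOn m (Icc 0 1) := continuousOn_const.sub (continuousOn_const.mul hq)
  have hlog : ContinuousOn (fun t => Complex.log (m t)) (Icc 0 1) := hmc.clog hslit
  have hD : ContinuousOn (fun t => L t - Complex.log (m t)) (Icc 0 1) := hL.sub hlog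
  have hc : ∀ t ∈ Icc (0 : ℝ) 1, Complex.exp (L t - Complex.log (m t))
      = - Complex.exp (θ * Complex.I) := by
    intro t ht
    have h0 : m t ≠ 0 := Complex.slitPlane_ne_zero (hslit t ht)
    rw [Complex.exp_sub, Complex.exp_log h0, hLe t ht, div_eq_iff h0]
    simp only [hm]
    linear_combination (-(q t)) * hee
  have key := cr1_const hD hc
  have k0 : (Complex.log (m 0)).im = (α - θ - Real.pi) / 2 := by
    rw [Complex.log_im, ← cr1_arg (x := α - θ) (by linarith) (by linarith)]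
    congr 1
    simp only [hm]
    rw [q0, ← Complex.exp_add]
    congr 2
    push_cast
    ring
  have k1 : (Complex.log (m 1)).im = (β - θ - Real.pi) / 2 := by
    rw [Complex.log_im, ← cr1_arg (x := β - θ) (by linarith) (by linarith)]
    congr 1
    simp only [hm]
    rw [q1, ← Complex.exp_add]
    congr 2
    push_cast
    ring
  rw [Complex.sub_im, Complex.sub_im, k0, k1] at key
  linarith

theorem cr1_per (a : ℝ) :
    Complex.exp (((a + 2 * Real.pi : ℝ) : ℂ) * Complex.I) = Complex.exp (a * Complex.I) := by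
  have : ((a + 2 * Real.pi : ℝ) : ℂ) * Complex.I = a * Complex.I + 2 * Real.pi * Complex.I := by
    push_cast; ring
  rw [this, Complex.exp_add, Complex.exp_two_pi_mul_I, mul_one]

/-- CR1. Two paths in the closed disc with interlaced end points on the circle meet.
PROOF. Suppose not. `g (s,t) = p (s) - r (t)` (clamp `s`, `t` to `[0,1]`, so `g` is continuous on `ℝ × ℝ`, without zeros) has a continuous logarithm `ℓ` (`Complex.exists_continuousOn_eqOn_exp_comp` with `U = univ`, simply connected).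
Claim: let `θ` be an angle, `q : [0,1] → closedBall 0 1` a path which never takes the value `exp(iθ)`, from `exp(iα)` to `exp(iβ)`, `θ < α, β < θ + 2π`. Every continuous logarithm of `q - exp(iθ)` changes its imaginary part by `(β - α)/2`.
Proof of the claim: `-(exp(-iθ) q - 1)` has real part `≥ 0` and is not `0`, so it is in `Complex.slitPlane`, and `Complex.log` of it is a continuous logarithm, up to a constant; `1 - exp(ix)` `= 2 sin(x/2) exp(i(x-π)/2)`, `0 < x < 2π`, has argument `(x - π)/2`.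
The four sides of the square: (t=0, s: 0→1) `p - exp(iθ₂)` from `exp(iθ₁) = exp(i(θ₁+2π))` to `exp(iθ₃)`: change `(θ₃ - θ₁ - 2π)/2`. (s=1, t: 0→1) `exp(iθ₃) - r = -(r - exp(iθ₃))`, `r` from `exp(i(θ₂+2π))` to `exp(iθ₄)`: `(θ₄ - θ₂ - 2π)/2`.
(t=1, s: 1→0) `p - exp(iθ₄)` from `exp(iθ₃)` to `exp(iθ₁)`; relative to `θ₄`: angles `θ₃ + 2π`, `θ₁ + 2π`: `(θ₁ - θ₃)/2`. (s=0, t: 1→0) `-(r - exp(iθ₁))`, from `θ₄` to `θ₂`: `(θ₂ - θ₄)/2`. The sum is `-2π`, but it must be `0`. -/
theorem crossing_paths {θ₁ θ₂ θ₃ θ₄ : ℝ} (h12 : θ₁ < θ₂) (h23 : θ₂ < θ₃) (h34 : θ₃ < θ₄)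
    (h41 : θ₄ < θ₁ + 2 * Real.pi) {p r : ℝ → ℂ} (hp : ContinuousOn p (Icc 0 1))
    (hr : ContinuousOn r (Icc 0 1)) (hpb : MapsTo p (Icc 0 1) (closedBall 0 1))
    (hrb : MapsTo r (Icc 0 1) (closedBall 0 1)) (p0 : p 0 = Complex.exp (θ₁ * Complex.I))
    (p1 : p 1 = Complex.exp (θ₃ * Complex.I)) (r0 : r 0 = Complex.exp (θ₂ * Complex.I))
    (r1 : r 1 = Complex.exp (θ₄ * Complex.I)) :
    ∃ s ∈ Icc (0 : ℝ) 1, ∃ t ∈ Icc (0 : ℝ) 1, p s = r t := by
  by_contra hcon
  push Not at hcon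
  have m0 : (0 : ℝ) ∈ Icc (0 : ℝ) 1 := by simp
  have m1 : (1 : ℝ) ∈ Icc (0 : ℝ) 1 := by simp
  set cl : ℝ → ℝ := fun t => max 0 (min t 1) with hcl
  have hclc : Continuous cl := by fun_prop
  have hclm : ∀ t, cl t ∈ Icc (0 : ℝ) 1 := fun t =>
    ⟨le_max_left _ _, max_le zero_le_one (min_le_right _ _)⟩
  have hcle : ∀ t ∈ Icc (0 : ℝ) 1, cl t = t := by
    intro t ht
    simp only [hcl, min_eq_left ht.2, max_eq_right ht.1]
  have hP : Continuous (fun t => p (cl t)) := hp.comp_continuous hclc hclm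
  have hR : Continuous (fun t => r (cl t)) := hr.comp_continuous hclc hclm
  have hg : Continuous (fun x : ℝ × ℝ => p (cl x.1) - r (cl x.2)) :=
    (hP.comp continuous_fst).sub (hR.comp continuous_snd)
  have hne : (0 : ℂ) ∉ (fun x : ℝ × ℝ => p (cl x.1) - r (cl x.2)) '' univ := by
    rintro ⟨x, -, hx⟩
    exact hcon _ (hclm x.1) _ (hclm x.2) (sub_eq_zero.1 hx)
  have hsc : IsSimplyConnected (univ : Set (ℝ × ℝ)) := by
    have : ContractibleSpace (univ : Set (ℝ × ℝ)) :=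
      convex_univ.contractibleSpace univ_nonempty
    exact inferInstanceAs (SimplyConnectedSpace (univ : Set (ℝ × ℝ)))
  obtain ⟨l, hl, hle⟩ := Complex.exists_continuousOn_eqOn_exp_comp hsc isOpen_univ
    hg.continuousOn hne
  have hlc : Continuous l := by rwa [continuousOn_univ] at hl
  have hlv : ∀ s ∈ Icc (0 : ℝ) 1, ∀ t ∈ Icc (0 : ℝ) 1, Complex.exp (l (s, t)) = p s - r t := by
    intro s hs t ht
    have := hle (mem_univ (s, t))
    simp only [Function.comp] at this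
    rw [this, hcle s hs, hcle t ht]
  -- side 1
  have s1 := cr1_claim (θ := θ₂) (α := θ₁ + 2 * Real.pi) (β := θ₃) (by linarith) (by linarith)
    h23 (by linarith) (q := p) (L := fun s => l (s, 0)) hp hpb
    (fun t ht h => hcon t ht 0 m0 (by rw [h, r0])) (by rw [cr1_per, p0]) p1
    ((hlc.comp (by fun_prop : Continuous fun s : ℝ => (s, (0 : ℝ)))).continuousOn)
    (fun t ht => by rw [hlv t ht 0 m0, r0])
  -- side 3
  have s3 := cr1_claim (θ := θ₄) (α := θ₁ + 2 * Real.pi) (β := θ₃ + 2 * Real.pi) (by linarith)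
    (by linarith) (by linarith) (by linarith) (q := p) (L := fun s => l (s, 1)) hp hpb
    (fun t ht h => hcon t ht 1 m1 (by rw [h, r1])) (by rw [cr1_per, p0]) (by rw [cr1_per, p1])
    ((hlc.comp (by fun_prop : Continuous fun s : ℝ => (s, (1 : ℝ)))).continuousOn)
    (fun t ht => by rw [hlv t ht 1 m1, r1])
  -- side 2
  have s2 := cr1_claim (θ := θ₃) (α := θ₂ + 2 * Real.pi) (β := θ₄) (by linarith)
    (by linarith) h34 (by linarith) (q := r) (L := fun t => l (1, t) + Real.pi * Complex.I) hr hrb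
    (fun t ht h => hcon 1 m1 t ht (by rw [h, p1])) (by rw [cr1_per, r0]) r1
    (((hlc.comp (by fun_prop : Continuous fun t : ℝ => ((1 : ℝ), t))).continuousOn).add
      continuousOn_const)
    (fun t ht => by
      rw [Complex.exp_add, Complex.exp_pi_mul_I, hlv 1 m1 t ht, p1]; ring)
  -- side 4
  have s4 := cr1_claim (θ := θ₁) (α := θ₂) (β := θ₄) h12
    (by linarith) (by linarith) h41 (q := r) (L := fun t => l (0, t) + Real.pi * Complex.I) hr hrb
    (fun t ht h => hcon 0 m0 t ht (by rw [h, p0])) r0 r1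
    (((hlc.comp (by fun_prop : Continuous fun t : ℝ => ((0 : ℝ), t))).continuousOn).add
      continuousOn_const)
    (fun t ht => by
      rw [Complex.exp_add, Complex.exp_pi_mul_I, hlv 0 m0 t ht, p0]; ring)
  simp only [Complex.add_im] at s1 s2 s3 s4
  have := Real.pi_pos
  linarith

end CF6

end

section

set_option autoImplicit false

open MeasureTheory Metric Set Filter Topology
open scoped ContDiff ENNReal ComplexConjugate

namespace CF6

theorem cr2_seg {a : ℂ} (ha : ‖a‖ = 1) {P : Set ℂ} {ε δ : ℝ} (hδ : 0 < δ) (hδε : δ < ε)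
    (hδ1 : δ < 1) (h1 : ball a ε ∩ ball 0 1 ⊆ P) :
    ∀ x ∈ segment ℝ a (((1 - δ : ℝ) : ℂ) * a), x = a ∨ x ∈ P := by
  intro x hx
  rw [segment_eq_image'] at hx
  obtain ⟨t, ht, rfl⟩ := hx
  have e : a + t • (((1 - δ : ℝ) : ℂ) * a - a) = ((1 - t * δ : ℝ) : ℂ) * a := by
    rw [Complex.real_smul]; push_cast; ring
  simp only [e]
  rcases eq_or_lt_of_le ht.1 with h | h
  · left
    rw [← h]; simp
  · right
    have hp : 0 < t * δ := mul_pos h hδ
    have hle : t * δ ≤ δ := by nlinarith [ht.2]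
    apply h1
    constructor
    · rw [mem_ball, dist_eq_norm, show ((1 - t * δ : ℝ) : ℂ) * a - a = (-(t * δ) : ℝ) * a by
        push_cast; ring, norm_mul, ha, mul_one, Complex.norm_real, Real.norm_eq_abs, abs_neg,
        abs_of_pos hp]
      linarith
    · rw [mem_ball_zero_iff, norm_mul, ha, mul_one, Complex.norm_real, Real.norm_eq_abs,
        abs_of_pos (by linarith)]
      linarith

/-- a path in `P` with end points on the circle -/
theorem cr2_path {a b : ℂ} (ha : ‖a‖ = 1) (hb : ‖b‖ = 1) {P : Set ℂ} (hP : IsOpen P)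
    (hPc : IsPreconnected P) {ε : ℝ} (hε : 0 < ε) (h1 : ball a ε ∩ ball 0 1 ⊆ P)
    (h3 : ball b ε ∩ ball 0 1 ⊆ P) :
    ∃ p : ℝ → ℂ, Continuous p ∧ p 0 = a ∧ p 1 = b ∧ ∀ t, p t = a ∨ p t = b ∨ p t ∈ P := by
  obtain ⟨δ, hδ, hδ'⟩ : ∃ δ : ℝ, 0 < δ ∧ δ < min ε 1 := exists_between (lt_min hε one_pos)
  have hδε : δ < ε := hδ'.trans_le (min_le_left _ _)
  have hδ1 : δ < 1 := hδ'.trans_le (min_le_right _ _)
  have mem : ∀ c : ℂ, ‖c‖ = 1 → ball c ε ∩ ball 0 1 ⊆ P → ((1 - δ : ℝ) : ℂ) * c ∈ P := by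
    intro c hc h
    apply h
    constructor
    · rw [mem_ball, dist_eq_norm, show ((1 - δ : ℝ) : ℂ) * c - c = (-δ : ℝ) * c by
        push_cast; ring, norm_mul, hc, mul_one, Complex.norm_real, Real.norm_eq_abs, abs_neg,
        abs_of_pos hδ]
      exact hδε
    · rw [mem_ball_zero_iff, norm_mul, hc, mul_one, Complex.norm_real, Real.norm_eq_abs,
        abs_of_pos (by linarith)]
      linarith
  have ma := mem a ha h1
  have mb := mem b hb h3
  have hpc : IsPathConnected P := (hP.isConnected_iff_isPathConnected).1 ⟨⟨_, ma⟩, hPc⟩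
  set S : Set ℂ := {x | x = a ∨ x = b ∨ x ∈ P} with hS
  have hPS : P ⊆ S := fun x hx => Or.inr (Or.inr hx)
  have j1 : JoinedIn S a (((1 - δ : ℝ) : ℂ) * a) := by
    apply JoinedIn.of_segment_subset
    intro x hx
    rcases cr2_seg ha hδ hδε hδ1 h1 x hx with h | h
    · exact Or.inl h
    · exact hPS h
  have j2 : JoinedIn S (((1 - δ : ℝ) : ℂ) * a) (((1 - δ : ℝ) : ℂ) * b) :=
    (hpc.joinedIn _ ma _ mb).mono hPS
  have j3 : JoinedIn S b (((1 - δ : ℝ) : ℂ) * b) := by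
    apply JoinedIn.of_segment_subset
    intro x hx
    rcases cr2_seg hb hδ hδε hδ1 h3 x hx with h | h
    · exact Or.inr (Or.inl h)
    · exact hPS h
  obtain ⟨γ, hγ⟩ := (j1.trans j2).trans j3.symm
  refine ⟨γ.extend, γ.continuous_extend, γ.extend_zero, γ.extend_one, fun t => ?_⟩
  have : γ.extend t ∈ range γ := by
    rw [← γ.extend_range]; exact mem_range_self t
  obtain ⟨s, hs⟩ := this
  rw [← hs]
  exact hγ s

theorem cr2_ne {α β : ℝ} (h : α < β) (h' : β < α + 2 * Real.pi) :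
    Complex.exp (α * Complex.I) ≠ Complex.exp (β * Complex.I) := by
  intro he
  obtain ⟨n, hn⟩ := Complex.exp_eq_exp_iff_exists_int.1 he
  have h2 := congrArg Complex.im hn
  simp at h2
  have hpi := Real.pi_pos
  have h3 : (n : ℝ) * (2 * Real.pi) < 0 := by linarith
  have h4 : -(2 * Real.pi) < (n : ℝ) * (2 * Real.pi) := by linarith
  have h5 : (n : ℝ) < 0 := by
    by_contra hc
    push Not at hc
    have := mul_nonneg hc (by positivity : (0 : ℝ) ≤ 2 * Real.pi)
    linarith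
  have h6 : (-1 : ℝ) < n := by
    by_contra hc
    push Not at hc
    nlinarith
  have h7 : n < 0 := by exact_mod_cast h5
  have h8 : -1 < n := by exact_mod_cast h6
  omega

/-- CR2. Crossing lemma for sets.
PROOF. Suppose `P ∩ R = ∅`. `P` is open and connected, so path connected; take the path from `(1 - ε/2) exp(iθ₁)` to `(1 - ε/2) exp(iθ₃)` in `P` (wlog `ε < 1`), and add the radial segments to `exp(iθ₁)`, `exp(iθ₃)`: all their points except the end points are in `P`. Same for `R`. The two paths do not meet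
(`P ∩ R = ∅`, the four end points are different and not in the open disc): contradiction to CR1. -/
theorem crossing_sets {θ₁ θ₂ θ₃ θ₄ : ℝ} (h12 : θ₁ < θ₂) (h23 : θ₂ < θ₃) (h34 : θ₃ < θ₄)
    (h41 : θ₄ < θ₁ + 2 * Real.pi) {P R : Set ℂ} (hP : IsOpen P) (hPc : IsPreconnected P)
    (hPb : P ⊆ ball 0 1) (hR : IsOpen R) (hRc : IsPreconnected R) (hRb : R ⊆ ball 0 1) {ε : ℝ}
    (hε : 0 < ε) (h1 : ball (Complex.exp (θ₁ * Complex.I)) ε ∩ ball 0 1 ⊆ P)
    (h3 : ball (Complex.exp (θ₃ * Complex.I)) ε ∩ ball 0 1 ⊆ P)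
    (h2 : ball (Complex.exp (θ₂ * Complex.I)) ε ∩ ball 0 1 ⊆ R)
    (h4 : ball (Complex.exp (θ₄ * Complex.I)) ε ∩ ball 0 1 ⊆ R) : (P ∩ R).Nonempty := by
  have n : ∀ θ : ℝ, ‖Complex.exp (θ * Complex.I)‖ = 1 := Complex.norm_exp_ofReal_mul_I
  have bP : ∀ θ : ℝ, Complex.exp (θ * Complex.I) ∉ P := fun θ h => by
    have := hPb h
    rw [mem_ball_zero_iff, n] at this
    exact lt_irrefl _ this
  have bR : ∀ θ : ℝ, Complex.exp (θ * Complex.I) ∉ R := fun θ h => by
    have := hRb h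
    rw [mem_ball_zero_iff, n] at this
    exact lt_irrefl _ this
  obtain ⟨p, pc, p0, p1, hp⟩ := cr2_path (n θ₁) (n θ₃) hP hPc hε h1 h3
  obtain ⟨r, rc, r0, r1, hr⟩ := cr2_path (n θ₂) (n θ₄) hR hRc hε h2 h4
  have hb : ∀ {x : ℂ} {a b : ℝ} {Q : Set ℂ}, Q ⊆ ball 0 1 →
      (x = Complex.exp (a * Complex.I) ∨ x = Complex.exp (b * Complex.I) ∨ x ∈ Q) →
      x ∈ closedBall (0 : ℂ) 1 := by
    intro x a b Q hQ h
    rcases h with h | h | h
    · rw [mem_closedBall_zero_iff, h, n]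
    · rw [mem_closedBall_zero_iff, h, n]
    · exact ball_subset_closedBall (hQ h)
  obtain ⟨s, -, t, -, hst⟩ := crossing_paths h12 h23 h34 h41 pc.continuousOn rc.continuousOn
    (fun t _ => hb hPb (hp t)) (fun t _ => hb hRb (hr t)) p0 p1 r0 r1
  rcases hp s with h | h | h
  · rcases hr t with h' | h' | h'
    · exact absurd (h.symm.trans (hst.trans h')) (cr2_ne h12 (by linarith))
    · exact absurd (h.symm.trans (hst.trans h')) (cr2_ne (by linarith) h41)
    · exact absurd (by rw [← h, hst]; exact h') (bR θ₁)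
  · rcases hr t with h' | h' | h'
    · exact absurd (h'.symm.trans (hst.symm.trans h)) (cr2_ne h23 (by linarith))
    · exact absurd (h.symm.trans (hst.trans h')) (cr2_ne h34 (by linarith))
    · exact absurd (by rw [← h, hst]; exact h') (bR θ₃)
  · rcases hr t with h' | h' | h'
    · exact absurd (by rw [← h', ← hst]; exact h) (bP θ₂)
    · exact absurd (by rw [← h', ← hst]; exact h) (bP θ₄)
    · exact ⟨p s, h, by rw [hst]; exact h'⟩

end CF6

end

section

set_option autoImplicit false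

open MeasureTheory Metric Set Filter Topology
open scoped ContDiff ENNReal ComplexConjugate

namespace CF6


/-- the covering map of the row -/
theorem ba4_e_open : IsOpenMap (fun z : ℂ => Complex.exp (-conj z)) := by
  have h1 : IsOpenMap (fun z : ℂ => -conj z) := by
    have : (fun z : ℂ => -conj z) = (Homeomorph.neg ℂ) ∘ Complex.conjCLE.toHomeomorph := by
      ext z
      simp
    rw [this]
    exact (Homeomorph.neg ℂ).isOpenMap.comp Complex.conjCLE.toHomeomorph.isOpenMap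
  exact Complex.isOpenMap_exp.comp h1

theorem ba4_e_norm (z : ℂ) : ‖Complex.exp (-conj z)‖ = Real.exp (-z.re) := by
  rw [Complex.norm_exp]
  simp

theorem ba4_e_eq {z z' : ℂ} (h : Complex.exp (-conj z) = Complex.exp (-conj z')) :
    ∃ m : ℤ, z' = z + 2 * Real.pi * Complex.I * m := by
  obtain ⟨n, hn⟩ := Complex.exp_eq_exp_iff_exists_int.mp h
  have h1 : -z = -z' + n * (2 * Real.pi * (-Complex.I)) := by
    have h2 : conj (2 : ℂ) = 2 := by
      apply Complex.ext <;> simp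
    have := congrArg conj hn
    simpa [h2] using this
  refine ⟨-n, ?_⟩
  push_cast
  linear_combination h1

/-- the set of the row -/
def ba4B (τ : ℝ → ℝ) (s a b : ℝ) : Set ℂ :=
  {u | τ u.re - 2 * s < u.im ∧ u.im < τ u.re ∧
    ∃ m : ℤ, a + 2 * Real.pi * m < u.re ∧ u.re < b + 2 * Real.pi * m}

theorem ba4B_open {τ : ℝ → ℝ} (cτ : Continuous τ) (s a b : ℝ) : IsOpen (ba4B τ s a b) := by
  have h3 : IsOpen {u : ℂ | ∃ m : ℤ, a + 2 * Real.pi * m < u.re ∧ u.re < b + 2 * Real.pi * m} := by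
    simp only [Set.ofPred_exists]
    refine isOpen_iUnion fun m => ?_
    exact (isOpen_lt continuous_const Complex.continuous_re).inter
      (isOpen_lt Complex.continuous_re continuous_const)
  exact (isOpen_lt ((cτ.comp Complex.continuous_re).sub continuous_const)
    Complex.continuous_im).inter ((isOpen_lt Complex.continuous_im
    (cτ.comp Complex.continuous_re)).inter h3)

theorem ba4_per {τ : ℝ → ℝ} (pτ : ∀ x, τ (x + 2 * Real.pi) = τ x) (x : ℝ) (m : ℤ) :
    τ (x + 2 * Real.pi * m) = τ x := by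
  have h : Function.Periodic τ (2 * Real.pi) := pτ
  have := h.int_mul m x
  rw [← this]
  congr 1
  ring

theorem ba4B_add {τ : ℝ → ℝ} (pτ : ∀ x, τ (x + 2 * Real.pi) = τ x) (s a b : ℝ) (u : ℂ) (k : ℤ)
    (h : u ∈ ba4B τ s a b) : u + 2 * Real.pi * k ∈ ba4B τ s a b := by
  obtain ⟨h1, h2, m, h3, h4⟩ := h
  have e1 : (u + 2 * Real.pi * k).re = u.re + 2 * Real.pi * k := by
    simp
  have e2 : (u + 2 * Real.pi * k).im = u.im := by
    simp
  refine ⟨?_, ?_, m + k, ?_, ?_⟩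
  · rw [e1, e2, ba4_per pτ]
    exact h1
  · rw [e1, e2, ba4_per pτ]
    exact h2
  · rw [e1]
    push_cast
    linarith
  · rw [e1]
    push_cast
    linarith

theorem ba4B_per {τ : ℝ → ℝ} (pτ : ∀ x, τ (x + 2 * Real.pi) = τ x) (s a b : ℝ) (u : ℂ) :
    u ∈ ba4B τ s a b ↔ u + 2 * Real.pi ∈ ba4B τ s a b := by
  constructor
  · intro h
    have := ba4B_add pτ s a b u 1 h
    simpa using this
  · intro h
    have := ba4B_add pτ s a b _ (-1) h
    have e : u + 2 * Real.pi + 2 * Real.pi * ((-1 : ℤ) : ℂ) = u := by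
      push_cast
      ring
    rwa [e] at this

theorem ba4B_conn {τ : ℝ → ℝ} (cτ : Continuous τ) (pτ : ∀ x, τ (x + 2 * Real.pi) = τ x)
    {s a b : ℝ} (hs : 0 < s) (hab : a < b) :
    IsConnected ((fun u => Complex.exp (Complex.I * u)) '' ba4B τ s a b) := by
  have h1 : IsConnected (Ioo a b ×ˢ Ioo (0 : ℝ) (2 * s)) := by
    refine IsConnected.prod ?_ ?_
    · exact isConnected_Ioo hab
    · exact isConnected_Ioo (by linarith)
  have h2 : Continuous (fun p : ℝ × ℝ => Complex.exp (Complex.I * ((p.1 : ℂ) +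
      ((τ p.1 - p.2 : ℝ) : ℂ) * Complex.I))) := by
    refine Complex.continuous_exp.comp (continuous_const.mul ?_)
    refine (Complex.continuous_ofReal.comp continuous_fst).add ?_
    refine (Complex.continuous_ofReal.comp ?_).mul continuous_const
    exact (cτ.comp continuous_fst).sub continuous_snd
  have h3 := h1.image _ h2.continuousOn
  convert h3 using 1
  ext w
  constructor
  · rintro ⟨u, ⟨hu1, hu2, m, hu3, hu4⟩, rfl⟩
    refine ⟨(u.re - 2 * Real.pi * m, τ u.re - u.im), ⟨⟨?_, ?_⟩, ⟨?_, ?_⟩⟩, ?_⟩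
    · show a < u.re - 2 * Real.pi * m
      linarith
    · show u.re - 2 * Real.pi * m < b
      linarith
    · show 0 < τ u.re - u.im
      linarith
    · show τ u.re - u.im < 2 * s
      linarith
    · show Complex.exp (Complex.I * (((u.re - 2 * Real.pi * m : ℝ) : ℂ) +
        ((τ (u.re - 2 * Real.pi * m) - (τ u.re - u.im) : ℝ) : ℂ) * Complex.I)) =
        Complex.exp (Complex.I * u)
      have e1 : τ (u.re - 2 * Real.pi * m) = τ u.re := by
        have := ba4_per pτ (u.re - 2 * Real.pi * m) m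
        rw [← this]
        congr 1
        ring
      rw [e1]
      refine Complex.exp_eq_exp_iff_exists_int.mpr ⟨-m, ?_⟩
      have e2 : (u : ℂ) = (u.re : ℂ) + (u.im : ℂ) * Complex.I := (Complex.re_add_im u).symm
      conv_rhs => rw [e2]
      push_cast
      ring
  · rintro ⟨⟨x, y⟩, ⟨⟨hx1, hx2⟩, ⟨hy1, hy2⟩⟩, rfl⟩
    refine ⟨(x : ℂ) + ((τ x - y : ℝ) : ℂ) * Complex.I, ?_, rfl⟩
    have e1 : ((x : ℂ) + ((τ x - y : ℝ) : ℂ) * Complex.I).re = x := by simp
    have e2 : ((x : ℂ) + ((τ x - y : ℝ) : ℂ) * Complex.I).im = τ x - y := by simp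
    refine ⟨?_, ?_, 0, ?_, ?_⟩
    · rw [e1, e2]
      simp only at hy2
      linarith
    · rw [e1, e2]
      simp only at hy1
      linarith
    · rw [e1]
      push_cast
      simp only at hx1
      linarith
    · rw [e1]
      push_cast
      simp only at hx2
      linarith

theorem ba4_strip_add {T : ℝ} {z : ℂ} (hz : z ∈ strip T) (m : ℤ) :
    z + 2 * Real.pi * Complex.I * m ∈ strip T := by
  have e : (z + 2 * Real.pi * Complex.I * m).re = z.re := by simp
  exact ⟨by rw [e]; exact hz.1, by rw [e]; exact hz.2⟩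

theorem ba4_strip_open (T : ℝ) : IsOpen (strip T) :=
  (isOpen_lt continuous_const Complex.continuous_re).inter
    (isOpen_lt Complex.continuous_re continuous_const)

theorem ba4_U_nat {τ : ℝ → ℝ} {T : ℝ} {U : ℂ → ℂ} (h : CellData τ T U) (n : ℕ) :
    ∀ z ∈ strip T, U (z + 2 * Real.pi * Complex.I * n) = U z + 2 * Real.pi * n := by
  induction n with
  | zero =>
    intro z _
    simp
  | succ n ih =>
    intro z hz
    have h1 : z + 2 * Real.pi * Complex.I * ((n : ℤ) : ℂ) ∈ strip T := ba4_strip_add hz n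
    have h2 := h.per _ h1
    have e : z + 2 * Real.pi * Complex.I * ((n + 1 : ℕ) : ℂ) =
        z + 2 * Real.pi * Complex.I * ((n : ℤ) : ℂ) + 2 * Real.pi * Complex.I := by
      push_cast
      ring
    rw [e, h2]
    have h3 := ih z hz
    push_cast
    rw [h3]
    ring

theorem ba4_U_int {τ : ℝ → ℝ} {T : ℝ} {U : ℂ → ℂ} (h : CellData τ T U) (n : ℤ) :
    ∀ z ∈ strip T, U (z + 2 * Real.pi * Complex.I * n) = U z + 2 * Real.pi * n := by
  obtain ⟨k, rfl | rfl⟩ := n.eq_nat_or_neg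
  · intro z hz
    have := ba4_U_nat h k z hz
    exact_mod_cast this
  · intro z hz
    have h1 : z + 2 * Real.pi * Complex.I * ((-(k : ℤ) : ℤ) : ℂ) ∈ strip T := ba4_strip_add hz _
    have h2 := ba4_U_nat h k _ h1
    have e : z + 2 * Real.pi * Complex.I * ((-(k : ℤ) : ℤ) : ℂ) + 2 * Real.pi * Complex.I * (k : ℂ)
        = z := by
      push_cast
      ring
    rw [e] at h2
    rw [h2]
    push_cast
    ring

/-- near boundary points the image contains all points of the disc -/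
theorem ba4_near {τ : ℝ → ℝ} {T : ℝ} {U : ℂ → ℂ} (cτ : Continuous τ) (h : CellData τ T U)
    {s a b : ℝ} (hs : 0 < s) {θ v : ℝ}
    (ht : Tendsto U (𝓝[strip T] (θ * Complex.I)) (𝓝 (v + τ v * Complex.I)))
    (hv : ∃ m : ℤ, a + 2 * Real.pi * m < v ∧ v < b + 2 * Real.pi * m) :
    ∃ ε > (0 : ℝ), ball (Complex.exp (θ * Complex.I)) ε ∩ ball 0 1 ⊆
      (fun z => Complex.exp (-conj z)) '' {z | z ∈ strip T ∧ U z ∈ ba4B τ s a b} := by
  have h3 : IsOpen {u : ℂ | ∃ m : ℤ, a + 2 * Real.pi * m < u.re ∧ u.re < b + 2 * Real.pi * m} := by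
    simp only [Set.ofPred_exists]
    refine isOpen_iUnion fun m => ?_
    exact (isOpen_lt continuous_const Complex.continuous_re).inter
      (isOpen_lt Complex.continuous_re continuous_const)
  have h4 : IsOpen {u : ℂ | τ u.re - 2 * s < u.im} :=
    isOpen_lt ((cτ.comp Complex.continuous_re).sub continuous_const) Complex.continuous_im
  have e1 : ((v : ℂ) + τ v * Complex.I).re = v := by simp
  have e2 : ((v : ℂ) + τ v * Complex.I).im = τ v := by simp
  have h5 : (v + τ v * Complex.I : ℂ) ∈ {u : ℂ | τ u.re - 2 * s < u.im} ∩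
      {u : ℂ | ∃ m : ℤ, a + 2 * Real.pi * m < u.re ∧ u.re < b + 2 * Real.pi * m} := by
    refine ⟨?_, ?_⟩
    · show τ ((v : ℂ) + τ v * Complex.I).re - 2 * s < ((v : ℂ) + τ v * Complex.I).im
      rw [e1, e2]
      linarith
    · obtain ⟨m, hm⟩ := hv
      refine ⟨m, ?_⟩
      rw [e1]
      exact hm
  have h6 := ht ((h4.inter h3).mem_nhds h5)
  rw [Filter.mem_map, Metric.mem_nhdsWithin_iff] at h6
  obtain ⟨r, hr, h7⟩ := h6
  have hr' : 0 < min r T := lt_min hr h.T0
  have h8 : IsOpen ((fun z : ℂ => Complex.exp (-conj z)) '' ball (θ * Complex.I) (min r T)) :=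
    ba4_e_open _ isOpen_ball
  have h9 : Complex.exp (θ * Complex.I) ∈
      (fun z : ℂ => Complex.exp (-conj z)) '' ball (θ * Complex.I) (min r T) := by
    refine ⟨θ * Complex.I, mem_ball_self hr', ?_⟩
    simp
  obtain ⟨ε, hε, h10⟩ := Metric.isOpen_iff.mp h8 _ h9
  refine ⟨ε, hε, ?_⟩
  rintro w ⟨hw1, hw2⟩
  obtain ⟨z, hz1, hz2⟩ := h10 hw1
  have hz3 : ‖z - θ * Complex.I‖ < min r T := by
    rw [← dist_eq_norm]
    exact mem_ball.mp hz1
  have hz4 : |z.re| < min r T := by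
    have := Complex.abs_re_le_norm (z - θ * Complex.I)
    simp only [Complex.sub_re, Complex.mul_re, Complex.ofReal_re, Complex.I_re, mul_zero,
      Complex.ofReal_im, Complex.I_im, mul_one, sub_zero] at this
    linarith
  have hz5 : 0 < z.re := by
    have h11 : ‖w‖ < 1 := by simpa using hw2
    rw [← hz2] at h11
    simp only [ba4_e_norm] at h11
    have := Real.exp_lt_one_iff.mp h11
    linarith
  have hz6 : z.re < T := lt_of_lt_of_le (lt_of_abs_lt hz4) (min_le_right _ _)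
  have hz7 : z ∈ strip T := ⟨hz5, hz6⟩
  have hz8 := h7 ⟨mem_ball.mpr (lt_of_lt_of_le (mem_ball.mp hz1) (min_le_left _ _)), hz7⟩
  exact ⟨z, ⟨hz7, hz8.1, (h.lo z hz7).2, hz8.2⟩, hz2⟩

theorem ba4_min {τ : ℝ → ℝ} (cτ : Continuous τ) (pτ : ∀ x, τ (x + 2 * Real.pi) = τ x)
    (h0 : ∀ x, 0 < τ x) : ∃ s > (0 : ℝ), ∀ x, 2 * s < τ x := by
  obtain ⟨x0, _, hx0⟩ := (isCompact_Icc (a := (0 : ℝ)) (b := 2 * Real.pi)).exists_isMinOn
    ⟨0, by constructor <;> [exact le_rfl; positivity]⟩ cτ.continuousOn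
  refine ⟨τ x0 / 4, by have := h0 x0; positivity, fun x => ?_⟩
  have hp : Function.Periodic τ (2 * Real.pi) := pτ
  obtain ⟨y, hy1, hy2⟩ := hp.exists_mem_Ico₀ Real.two_pi_pos x
  have h1 := hx0 (Ico_subset_Icc_self hy1)
  have h2 : τ x0 ≤ τ y := h1
  rw [hy2]
  have := h0 x0
  linarith

/-- BA4. The boundary map is nondecreasing.
PROOF. Suppose `θ₁ < θ₂`, `α₀ θ₁ > α₀ θ₂`; by quasi-periodicity one may assume `θ₂ < θ₁ + 2π` (if `θ₂ - θ₁ ≥ 2π n`, replace `θ₂` by `θ₂ - 2π n`: `α₀` decreases further). Let `p = α₀ θ₁ > q = α₀ θ₂`. Choose `x` with `max q (p - π) < x < p` and `ε' > 0` small: `x + 2 ε' < p`, `x - 2 ε' > q`, `ε' < π/4`.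
On `[θ₂ - 2π, θ₁]` the function `α₀` goes from `q - 2π < x` to `p > x`: there is `s_x` in it with `α₀ s_x = x`, `s_x < θ₁`. On `[θ₁, θ₂]` there is `t_x` with `α₀ t_x = x`, and after it, on `[t_x, θ₂]`, some `t_y` with `α₀ t_y = y`, where `max q (x - 1) < y < x - ε'`... (any `y` with `q ≤ y < x - ε'`, `x - y < π`).
So `s_x < θ₁ < t_x < t_y < s_x + 2π` (`t_y ≤ θ₂ ≤ s_x + 2π`; strict because `α₀ (s_x + 2π) = x + 2π`). Let `2 s < min τ`, `P = {z ∈ strip T | U z ∈ B_P}`, `B_P = {τ - 2s < im < τ, ∃ m, |re - x - 2π m| < ε'}`, `B_R = {τ - 2 s < im < τ, ∀ m, |re - x - 2π m| > ε'}`: open, periodic, with connected images under `exp(I ·)` (images of rectangles, as in BA2a).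
By `h.mc` the images `P'`, `R'` of `P`, `R` under `e z = exp(-conj z)` are connected; they are open (`e` is a local homeomorphism), disjoint (`e z = e z'` implies `z' = z + 2π i m`, `U z' = U z + 2π m`), contained in the unit disc. Near `e (s_x I) = exp(i s_x)` all points of the disc are in `P'` (the limit of `U` there is `x + τ x I`), same for `exp(i t_x)`; near `exp(i θ₁)`, `exp(i t_y)` they are in `R'`
(`p`, `y` are at distance `> ε'` from `x + 2π ℤ`). Contradiction to CR2 (`crossing_sets`). -/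
theorem cell_mono {τ : ℝ → ℝ} {T : ℝ} {U : ℂ → ℂ} (cτ : Continuous τ)
    (pτ : ∀ x, τ (x + 2 * Real.pi) = τ x) (h0 : ∀ x, 0 < τ x) (h : CellData τ T U) {α₀ : ℝ → ℝ}
    (hc : Continuous α₀) (hp : ∀ θ, α₀ (θ + 2 * Real.pi) = α₀ θ + 2 * Real.pi)
    (ht : ∀ θ : ℝ, Tendsto U (𝓝[strip T] (θ * Complex.I)) (𝓝 (α₀ θ + τ (α₀ θ) * Complex.I))) :
    Monotone α₀ := by
  intro θ₁ θ₂' h12'
  by_contra hcon
  push Not at hcon
  have hpi := Real.pi_pos
  have hquasi : ∀ (θ : ℝ) (n : ℕ), α₀ (θ - 2 * Real.pi * n) = α₀ θ - 2 * Real.pi * n := by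
    intro θ n
    induction n with
    | zero => simp
    | succ n ih =>
      have := hp (θ - 2 * Real.pi * (n + 1 : ℕ))
      have e : θ - 2 * Real.pi * ((n + 1 : ℕ) : ℝ) + 2 * Real.pi = θ - 2 * Real.pi * n := by
        push_cast
        ring
      rw [e, ih] at this
      push_cast at this ⊢
      linarith
  -- reduction to `θ₂ < θ₁ + 2π`
  obtain ⟨θ₂, h12, h12b, hlt⟩ : ∃ θ₂, θ₁ < θ₂ ∧ θ₂ < θ₁ + 2 * Real.pi ∧ α₀ θ₂ < α₀ θ₁ := by
    have hk0 : 0 ≤ (θ₂' - θ₁) / (2 * Real.pi) := div_nonneg (by linarith) (by linarith)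
    have hk1 := Nat.floor_le hk0
    have hk2 := Nat.lt_floor_add_one ((θ₂' - θ₁) / (2 * Real.pi))
    set n := ⌊(θ₂' - θ₁) / (2 * Real.pi)⌋₊
    rw [le_div_iff₀ (by linarith)] at hk1
    rw [div_lt_iff₀ (by linarith)] at hk2
    have h1 := hquasi θ₂' n
    have h2 : (0 : ℝ) ≤ 2 * Real.pi * n := by positivity
    have h3 : α₀ (θ₂' - 2 * Real.pi * n) < α₀ θ₁ := by
      rw [h1]
      linarith
    refine ⟨θ₂' - 2 * Real.pi * n, ?_, ?_, h3⟩
    · refine lt_of_le_of_ne (by linarith) ?_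
      intro h4
      rw [← h4] at h3
      exact lt_irrefl _ h3
    · linarith
  obtain ⟨d, hd0, hd1, hd2⟩ : ∃ d : ℝ, 0 < d ∧ d ≤ Real.pi ∧ d ≤ α₀ θ₁ - α₀ θ₂ :=
    ⟨min Real.pi (α₀ θ₁ - α₀ θ₂), lt_min hpi (by linarith), min_le_left _ _, min_le_right _ _⟩
  set p := α₀ θ₁ with hpdef
  set x := p - d / 2 with hx
  set y := p - d with hy
  -- the three points
  have h2m : α₀ (θ₂ - 2 * Real.pi) = α₀ θ₂ - 2 * Real.pi := by
    have := hquasi θ₂ 1
    simpa using this
  obtain ⟨sx, hsx1, hsx2⟩ : ∃ sx ∈ Icc (θ₂ - 2 * Real.pi) θ₁, α₀ sx = x := by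
    have h1 := intermediate_value_Icc (f := α₀) (a := θ₂ - 2 * Real.pi) (b := θ₁) (by linarith)
      hc.continuousOn
    have h2 : x ∈ Icc (α₀ (θ₂ - 2 * Real.pi)) (α₀ θ₁) := by
      rw [h2m]
      constructor <;> linarith
    obtain ⟨t, ht1, ht2⟩ := h1 h2
    exact ⟨t, ht1, ht2⟩
  obtain ⟨tx, htx1, htx2⟩ : ∃ tx ∈ Icc θ₁ θ₂, α₀ tx = x := by
    have h1 := intermediate_value_Icc' (f := α₀) (a := θ₁) (b := θ₂) h12.le hc.continuousOn
    have h2 : x ∈ Icc (α₀ θ₂) (α₀ θ₁) := by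
      constructor <;> linarith
    obtain ⟨t, ht1, ht2⟩ := h1 h2
    exact ⟨t, ht1, ht2⟩
  obtain ⟨ty, hty1, hty2⟩ : ∃ ty ∈ Icc tx θ₂, α₀ ty = y := by
    have h1 := intermediate_value_Icc' (f := α₀) (a := tx) (b := θ₂) htx1.2 hc.continuousOn
    have h2 : y ∈ Icc (α₀ θ₂) (α₀ tx) := by
      rw [htx2]
      constructor <;> linarith
    obtain ⟨t, ht1, ht2⟩ := h1 h2
    exact ⟨t, ht1, ht2⟩
  have l1 : sx < θ₁ := by
    refine lt_of_le_of_ne hsx1.2 ?_
    intro h1
    rw [h1] at hsx2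
    linarith
  have l2 : θ₁ < tx := by
    refine lt_of_le_of_ne htx1.1 ?_
    intro h1
    rw [← h1] at htx2
    linarith
  have l3 : tx < ty := by
    refine lt_of_le_of_ne hty1.1 ?_
    intro h1
    rw [← h1] at hty2
    linarith
  have l4 : ty < sx + 2 * Real.pi := by
    refine lt_of_le_of_ne (by linarith [hty1.2, hsx1.1]) ?_
    intro h1
    rw [h1, hp sx] at hty2
    linarith
  -- the sets
  obtain ⟨s', hs', hsτ'⟩ := ba4_min cτ pτ h0
  obtain ⟨s0, hs00, hmc⟩ := h.mc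
  obtain ⟨s, hs, hsτ, hss0⟩ : ∃ s > (0 : ℝ), (∀ x, 2 * s < τ x) ∧ 2 * s < s0 := by
    refine ⟨min s' (s0 / 4), lt_min hs' (by positivity), fun x => ?_, ?_⟩
    · have h1 := min_le_left s' (s0 / 4)
      linarith [hsτ' x]
    · have h1 := min_le_right s' (s0 / 4)
      linarith
  set BP := ba4B τ s (x - d / 4) (x + d / 4) with hBP
  set BR := ba4B τ s (x + d / 4) (x + 2 * Real.pi - d / 4) with hBR
  have cont : ∀ a b : ℝ, IsOpen {z | z ∈ strip T ∧ U z ∈ ba4B τ s a b} := by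
    intro a b
    exact h.cU.isOpen_inter_preimage (ba4_strip_open T) (ba4B_open cτ s a b)
  have hPo : IsOpen ((fun z => Complex.exp (-conj z)) '' {z | z ∈ strip T ∧ U z ∈ BP}) :=
    ba4_e_open _ (cont _ _)
  have hRo : IsOpen ((fun z => Complex.exp (-conj z)) '' {z | z ∈ strip T ∧ U z ∈ BR}) :=
    ba4_e_open _ (cont _ _)
  have hsub : ∀ B : Set ℂ, (fun z => Complex.exp (-conj z)) '' {z | z ∈ strip T ∧ U z ∈ B} ⊆
      ball 0 1 := by
    rintro B _ ⟨z, ⟨hz1, _⟩, rfl⟩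
    rw [mem_ball, dist_zero_right]
    show ‖Complex.exp (-conj z)‖ < 1
    rw [ba4_e_norm]
    have := hz1.1
    exact Real.exp_lt_one_iff.mpr (by linarith)
  have him : ∀ a b : ℝ, ∀ u ∈ ba4B τ s a b, 0 < u.im ∧ τ u.re - s0 < u.im ∧ u.im < τ u.re := by
    intro a b u hu
    have := hsτ u.re
    exact ⟨by linarith [hu.1], by linarith [hu.1], hu.2.1⟩
  have hPc := hmc BP (ba4B_open cτ s _ _) (ba4B_per pτ s _ _) (him _ _)
    (ba4B_conn cτ pτ hs (by linarith))
  have hRc := hmc BR (ba4B_open cτ s _ _) (ba4B_per pτ s _ _) (him _ _)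
    (ba4B_conn cτ pτ hs (by linarith))
  obtain ⟨ε₁, hε₁, n1⟩ := ba4_near (a := x - d / 4) (b := x + d / 4) cτ h hs (ht sx)
    ⟨0, by rw [hsx2]; push_cast; linarith, by rw [hsx2]; push_cast; linarith⟩
  obtain ⟨ε₃, hε₃, n3⟩ := ba4_near (a := x - d / 4) (b := x + d / 4) cτ h hs (ht tx)
    ⟨0, by rw [htx2]; push_cast; linarith, by rw [htx2]; push_cast; linarith⟩
  obtain ⟨ε₂, hε₂, n2⟩ := ba4_near (a := x + d / 4) (b := x + 2 * Real.pi - d / 4) cτ h hs (ht θ₁)
    ⟨0, by rw [← hpdef]; push_cast; linarith, by rw [← hpdef]; push_cast; linarith⟩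
  obtain ⟨ε₄, hε₄, n4⟩ := ba4_near (a := x + d / 4) (b := x + 2 * Real.pi - d / 4) cτ h hs (ht ty)
    ⟨-1, by rw [hty2]; push_cast; linarith, by rw [hty2]; push_cast; linarith⟩
  have hmin : 0 < min (min ε₁ ε₂) (min ε₃ ε₄) := lt_min (lt_min hε₁ hε₂) (lt_min hε₃ hε₄)
  have mono : ∀ {c : ℂ} {e1 e2 : ℝ} {S : Set ℂ}, e1 ≤ e2 → ball c e2 ∩ ball 0 1 ⊆ S →
      ball c e1 ∩ ball 0 1 ⊆ S := by
    intro c e1 e2 S h1 h2 w hw
    exact h2 ⟨ball_subset_ball h1 hw.1, hw.2⟩
  obtain ⟨w, ⟨z, ⟨hz1, hz2⟩, hz3⟩, ⟨z', ⟨hz1', hz2'⟩, hz3'⟩⟩ := crossing_sets l1 l2 l3 l4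
    hPo hPc.isPreconnected (hsub _) hRo hRc.isPreconnected (hsub _) hmin
    (mono (le_trans (min_le_left _ _) (min_le_left _ _)) n1)
    (mono (le_trans (min_le_right _ _) (min_le_left _ _)) n3)
    (mono (le_trans (min_le_left _ _) (min_le_right _ _)) n2)
    (mono (le_trans (min_le_right _ _) (min_le_right _ _)) n4)
  have h13 : Complex.exp (-conj z) = Complex.exp (-conj z') := by
    have h14 : (fun z => Complex.exp (-conj z)) z = (fun z => Complex.exp (-conj z)) z' := by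
      rw [hz3, hz3']
    exact h14
  obtain ⟨m, hm⟩ := ba4_e_eq h13
  have h15 := ba4_U_int h m z hz1
  rw [← hm] at h15
  have h16 : U z' ∈ BP := by
    rw [h15]
    exact ba4B_add pτ s _ _ _ m hz2
  obtain ⟨_, _, k, hk1, hk2⟩ := h16
  obtain ⟨_, _, l, hl1, hl2⟩ := hz2'
  -- `x - d/4 + 2πk < r < x + d/4 + 2πk`, `x + d/4 + 2πl < r < x + 2π - d/4 + 2πl`
  have h17 : (l : ℝ) < k := by
    have : 2 * Real.pi * (l : ℝ) < 2 * Real.pi * k := by linarith
    exact lt_of_mul_lt_mul_left this (by linarith)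
  have h18 : (k : ℝ) < l + 1 := by
    have : 2 * Real.pi * (k : ℝ) < 2 * Real.pi * (l + 1) := by linarith
    exact lt_of_mul_lt_mul_left this (by linarith)
  have h19 : l < k := by exact_mod_cast h17
  have h20 : k < l + 1 := by exact_mod_cast h18
  omega

end CF6

end

section

/-!
# Continuous monotone extension of the cell map to the line `re z = 0`
-/

open Complex MeasureTheory Set Filter Topology Metric
open scoped ENNReal ComplexConjugate

namespace CF6

/-- module BA: continuous monotone extension to `re z = 0`. -/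
theorem cell_ext_mono {Φ : ℂ → ℂ} {τ : ℝ → ℝ} {T : ℝ} {U H Hx Hy : ℂ → ℂ} (hΦ : CurveData Φ τ)
    (h : CellData τ T U) (hHU : ∀ z ∈ strip T, 0 < (U z).im → H z = Φ (U z))
    (hS : ∀ R : ℝ, ACL2 (strip T ∩ {z | |z.im| < R}) H Hx Hy) :
    ∃ α0 : ℝ → ℝ, Continuous α0 ∧ Monotone α0 ∧
      (∀ θ, α0 (θ + 2 * Real.pi) = α0 θ + 2 * Real.pi) ∧
      ∀ θ : ℝ, Tendsto U (𝓝[strip T] (θ * I)) (𝓝 (α0 θ + τ (α0 θ) * I)) := by
  have hS' : ∀ R : ℝ, ACL2 {z | z ∈ strip T ∧ |z.im| < R} H Hx Hy := fun R => hS R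
  obtain ⟨α, h1, h2, h3⟩ := cell_ext hΦ h hHU hS'
  exact ⟨α, h1, cell_mono hΦ.cτ hΦ.per hΦ.pos h h1 h2 h3, h2, h3⟩

end CF6

end

section

set_option autoImplicit false

open MeasureTheory Metric Set Filter Topology
open scoped ContDiff ENNReal ComplexConjugate

namespace CF6

/-- Riemann mapping theorem (module A), in the form used by module K. -/
theorem rmt_ext {W : Set ℂ} (hW : IsOpen W) (hc : IsConnected W)
    (hn : ∀ A B : Set ℂ, IsCompact B → IsClosed A → Disjoint A B → A ∪ B = Wᶜ → B = ∅)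
    (hne : W ≠ univ) {z₀ : ℂ} (hz₀ : z₀ ∈ W) :
    ∃ ψ : ℂ → ℂ, DifferentiableOn ℂ ψ (ball 0 1) ∧ InjOn ψ (ball 0 1) ∧ ψ '' ball 0 1 = W ∧
      ψ 0 = z₀ := by
  exact rmt hW hc (fun A B hA hB hd hu => hn A B hB hA hd hu) hne hz₀

end CF6

end

section

set_option autoImplicit false

open MeasureTheory Metric Set Filter Topology
open scoped ContDiff ENNReal ComplexConjugate

namespace CF6

theorem s08b_integrable {U : Set ℂ} {A φ : ℂ → ℝ} {K : Set ℂ} (hA : ContinuousOn A U)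
    (hφ : Continuous φ) (hK : IsCompact K) (hKU : K ⊆ U) (h0 : ∀ z, z ∉ K → φ z = 0) :
    Integrable (fun z => A z * φ z) volume := by
  have h1 : IntegrableOn (fun z => A z * φ z) K volume :=
    ((hA.mono hKU).mul hφ.continuousOn).integrableOn_compact hK
  refine (integrableOn_iff_integrable_of_support_subset ?_).1 h1
  intro z hz
  by_contra hzK
  apply hz
  simp [h0 z hzK]

theorem s08b_memLp {A : ℂ → ℝ} {K : Set ℂ} (hA : ContinuousOn A K) (hK : IsCompact K) :
    MemLp A 2 (volume.restrict K) := by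
  have hfin : IsFiniteMeasure (volume.restrict K) :=
    ⟨by rw [Measure.restrict_apply_univ]; exact hK.measure_lt_top⟩
  obtain ⟨C, hC⟩ := hK.exists_bound_of_continuousOn hA
  refine MemLp.of_bound (hA.aestronglyMeasurable hK.measurableSet) C ?_
  rw [ae_restrict_iff' hK.measurableSet]
  exact Eventually.of_forall fun z hz => hC z hz

/-- S08b. gradients of harmonic functions are divergence free. Here the gradient of `Re G`, `G' = p` holomorphic: `(Re p, -Im p)`.
PROOF. S01 for `Re p` and `Im p`; Cauchy-Riemann equations for `p`. -/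
theorem divFree_of_holo {U : Set ℂ} (hU : IsOpen U) {p : ℂ → ℂ} (hp : DifferentiableOn ℂ p U) :
    DivFree U (fun z => (p z).re) (fun z => -(p z).im) := by
  have hpc : ContDiffOn ℝ 1 p U := (hp.contDiffOn (n := 1) hU).restrict_scalars ℝ
  have hc1 : ContDiffOn ℝ 1 (fun z => (p z).re) U := Complex.reCLM.contDiff.comp_contDiffOn hpc
  have hc2 : ContDiffOn ℝ 1 (fun z => -(p z).im) U :=
    (Complex.imCLM.contDiff.comp_contDiffOn hpc).neg
  have hs1 := sob_of_contDiffOn hU hc1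
  have hs2 := sob_of_contDiffOn hU hc2
  refine ⟨fun K hKU hK => s08b_memLp (hc1.continuousOn.mono hKU) hK,
    fun K hKU hK => s08b_memLp (hc2.continuousOn.mono hKU) hK, ?_⟩
  intro φ hφ hφc hφU
  have hK : IsCompact (tsupport φ) := hφc
  have hd : Continuous (fderiv ℝ φ) := hφ.continuous_fderiv (by simp)
  have hd0 : ∀ z, z ∉ tsupport φ → fderiv ℝ φ z = 0 := by
    intro z hz
    exact Function.notMem_support.1 (fun h => hz (support_fderiv_subset ℝ h))
  have hi1 : Integrable (fun z => (p z).re * fderiv ℝ φ z 1) volume :=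
    s08b_integrable hc1.continuousOn (hd.clm_apply continuous_const) hK hφU
      (fun z hz => by rw [hd0 z hz]; rfl)
  have hi2 : Integrable (fun z => -(p z).im * fderiv ℝ φ z Complex.I) volume :=
    s08b_integrable hc2.continuousOn (hd.clm_apply continuous_const) hK hφU
      (fun z hz => by rw [hd0 z hz]; rfl)
  rw [integral_add hi1 hi2]
  have hw1 := hs1.wx φ hφ hφc hφU
  have hw2 := hs2.wy φ hφ hφc hφU
  simp only [smul_eq_mul] at hw1 hw2
  have e1 : ∫ z, (p z).re * fderiv ℝ φ z 1 = ∫ z, fderiv ℝ φ z 1 * (p z).re :=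
    integral_congr_ae (Eventually.of_forall fun z => mul_comm _ _)
  have e2 : ∫ z, -(p z).im * fderiv ℝ φ z Complex.I =
      ∫ z, fderiv ℝ φ z Complex.I * -(p z).im :=
    integral_congr_ae (Eventually.of_forall fun z => mul_comm _ _)
  rw [e1, e2, hw1, hw2, ← neg_add, neg_eq_zero]
  have e3 : ∫ z, φ z * fderiv ℝ (fun z => -(p z).im) z Complex.I =
      ∫ z, -(φ z * fderiv ℝ (fun z => (p z).re) z 1) := by
    refine integral_congr_ae (Eventually.of_forall fun z => ?_)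
    change φ z * fderiv ℝ (fun z => -(p z).im) z Complex.I =
      -(φ z * fderiv ℝ (fun z => (p z).re) z 1)
    by_cases hz : z ∈ U
    · have hpz : HasDerivAt p (deriv p z) z :=
        (hp.differentiableAt (hU.mem_nhds hz)).hasDerivAt
      have hf := hpz.hasFDerivAt.restrictScalars ℝ
      have h1 : HasFDerivAt (fun z => (p z).re) _ z := Complex.reCLM.hasFDerivAt.comp z hf
      have h2 : HasFDerivAt (fun z => -(p z).im) _ z := (Complex.imCLM.hasFDerivAt.comp z hf).neg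
      rw [h1.fderiv, h2.fderiv]
      simp
    · have : φ z = 0 := by
        by_contra h
        exact hz (hφU (subset_tsupport φ h))
      rw [this]
      simp
  rw [e3, integral_neg, add_neg_cancel]

end CF6

end
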