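import Pool.Agent.Lib.MP_cf6b16_an.DefsB
import Pool.Agent.Lib.MP_cf6b16_an.N2
import Pool.Agent.Lib.MP_cf6b16_an.K6

section

/-! # Module N, row N1b: boundary values of the cell maps

`cell_ext` (module BA, helper55) is stated here as a hypothesis `BE`-free theorem; `stripG_of_cell` and `pointG_of_cell` apply it.

`stripG_of_cell`: `CurveData Φ τ`: `cΦ` from `Collar.dPhi`; `perΦ`: `ρ (Φ (u + 2π)) = exp (I u) = ρ (Φ u)`, `Collar.inj`; `injΦ`: `exp (I u) = exp (I v)`; `lip`: mean value inequality with `Depth.slope`, `c ≤ 1`.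
`Pull` of `h` (`exists_pull`, restricted to `A`: `ACL2` is monotone in the open set) gives `H = h ∘ ψ` with `ACL2` on `strip T ∩ {|im| < R}`. `cell_ext` gives `α0`. Put `G' z = G z` for `0 < re z`, `G' z = α0 (im z) + τ (α0 (im z)) I` for `re z ≤ 0`.
Continuity on `{0 ≤ re < T}`: at points with `re > 0` clear; at `θ I`: for `z → θ I` in the strip by `Tendsto`, along the line by continuity of `α0`, `τ`.
`pointG_of_cell`: `Φ = pol q`, `τ = const ρ0`, `T = d`; `Hb z = h (ψ z)` on `X`, `Hb z = q + ρ0 exp (I α0 (im z))` for `re z ≤ 0`; `Hb = pol q ∘ U` near the line and `pol q` is continuous. -/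

open Complex MeasureTheory Set Filter Topology Metric
open scoped ENNReal ComplexConjugate

namespace CF6

private theorem n1b_mono {U V : Set ℂ} {f fx fy : ℂ → ℂ} (h : ACL2 U f fx fy) (hVU : V ⊆ U) :
    ACL2 V f fx fy :=
  ⟨h.cont.mono hVU, h.mx.mono_measure (Measure.restrict_mono hVU le_rfl),
    h.my.mono_measure (Measure.restrict_mono hVU le_rfl), (lintegral_mono_set hVU).trans_lt h.fin,
    h.hor.mono fun _ hy a b hab hs => hy a b hab fun t ht => hVU (hs t ht),
    h.ver.mono fun _ hy a b hab hs => hy a b hab fun t ht => hVU (hs t ht)⟩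

private theorem n1b_curve {K : Set ℂ} {Φ ρ : ℂ → ℂ} {τ : ℝ → ℝ} {c r : ℝ}
    (hK : Collar K Φ ρ) (hτ : Depth c r τ) (hc : c ≤ 1) : CurveData Φ τ := by
  refine ⟨hτ.smooth.continuous, hτ.per, hτ.pos, fun x y => ?_, hK.dPhi.continuousOn,
    fun u hu => ?_, fun u hu v hv huv => ?_⟩
  · have hd : Differentiable ℝ τ := hτ.smooth.differentiable (by norm_num)
    have := Convex.norm_image_sub_le_of_norm_deriv_le (f := τ) (C := c) (s := univ)
      (fun x _ => hd x) (fun x _ => hτ.slope x) convex_univ (mem_univ y) (mem_univ x)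
    simp only [Real.norm_eq_abs] at this
    nlinarith [abs_nonneg (x - y)]
  · have hu' : u + 2 * Real.pi ∈ UHP := by
      have h1 : 0 < u.im := hu
      simpa [UHP] using h1
    refine hK.inj (hK.mem _ hu') (hK.mem _ hu) ?_
    rw [hK.left _ hu', hK.left _ hu, mul_add, Complex.exp_add]
    have : I * (2 * Real.pi) = 2 * Real.pi * I := by ring
    rw [this, Complex.exp_two_pi_mul_I, mul_one]
  · have h1 : exp (I * v) = exp (I * u) := by rw [← hK.left v hv, ← hK.left u hu, huv]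
    obtain ⟨n, hn⟩ := Complex.exp_eq_exp_iff_exists_int.1 h1
    refine ⟨n, ?_⟩
    have h2 : I * v = I * (u + 2 * Real.pi * n) := by
      rw [hn]
      ring
    exact mul_left_cancel₀ I_ne_zero h2

theorem stripG_of_cell {Ω A L K : Set ℂ} {Φ ρ h g ψ G hx hy : ℂ → ℂ} {τ : ℝ → ℝ} {c r T : ℝ}
    (hK : Collar K Φ ρ) (hτ : Depth c r τ) (hc : c ≤ 1) (hO : IsOpen Ω) (hA : IsOpen A)
    (hAO : A ⊆ Ω) (ha : ACL2 Ω h hx hy) (ch : Chart (strip T) A ψ) (hG : CellData τ T G)
    (hg : ∀ z ∈ strip T, exp (I * G z) = g (ψ z))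
    (hh : ∀ z ∈ strip T, 0 < (G z).im → h (ψ z) = Φ (G z))
    (tendL : ∀ η > (0 : ℝ), ∃ d > (0 : ℝ), ∀ z ∈ strip T, T - d < z.re → infDist (ψ z) L < η)
    (cpt : ∃ Q ⊆ Ω, IsCompact Q ∧ ∃ d > (0 : ℝ), ∀ z ∈ strip T, z.re < d → ψ z ∈ Q) :
    ∃ (G' : ℂ → ℂ) (α0 : ℝ → ℝ), StripG Ω A L g τ T ψ G' α0 := by
  obtain ⟨H, Ht, Hs, hP⟩ := exists_pull ch hA (n1b_mono ha hAO)
  obtain ⟨α0, hαc, hαm, hαp, hαt⟩ := cell_ext_mono (n1b_curve hK hτ hc) hG
    (fun z hz hz' => by rw [hP.eq z hz]; exact hh z hz hz') hP.acl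
  set G' : ℂ → ℂ := fun z => if 0 < z.re then G z else α0 z.im + τ (α0 z.im) * I with hG'
  have e1 : ∀ z ∈ strip T, G' z = G z := fun z hz => if_pos hz.1
  have e2 : ∀ z : ℂ, z.re = 0 → G' z = α0 z.im + τ (α0 z.im) * I := fun z hz => by
    simp only [hG']
    rw [if_neg (by rw [hz]; exact lt_irrefl _)]
  have hop : IsOpen (strip T) :=
    (isOpen_lt continuous_const continuous_re).inter (isOpen_lt continuous_re continuous_const)
  have hcb : Continuous fun z : ℂ => ((α0 z.im : ℝ) : ℂ) + ((τ (α0 z.im) : ℝ) : ℂ) * I := by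
    have h1 : Continuous fun z : ℂ => α0 z.im := hαc.comp continuous_im
    exact (continuous_ofReal.comp h1).add
      ((continuous_ofReal.comp (hτ.smooth.continuous.comp h1)).mul continuous_const)
  refine ⟨G', α0, hG.T0, ch, ?_, ?_, ?_, ?_, ?_, ?_, hαc, hαm, hαp, tendL, cpt⟩
  · rintro z ⟨hz0, hzT⟩
    rcases hz0.eq_or_lt with h0 | h0
    · -- boundary point
      have hz : z = (z.im : ℝ) * I := by
        apply Complex.ext
        · simp [← h0]
        · simp
      have hsub : {w : ℂ | 0 ≤ w.re ∧ w.re < T} ⊆ strip T ∪ {w : ℂ | w.re = 0} := by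
        rintro w ⟨hw0, hwT⟩
        rcases hw0.eq_or_lt with h | h
        · exact Or.inr h.symm
        · exact Or.inl ⟨h, hwT⟩
      refine Tendsto.mono_left ?_ (nhdsWithin_mono z hsub)
      rw [nhdsWithin_union, tendsto_sup]
      have hv : G' z = α0 z.im + τ (α0 z.im) * I := e2 z h0.symm
      constructor
      · rw [hv]
        have h3 := hαt z.im
        rw [← hz] at h3
        refine h3.congr' ?_
        filter_upwards [self_mem_nhdsWithin] with w hw
        exact (e1 w hw).symm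
      · rw [hv]
        have h3 : Tendsto (fun z : ℂ => ((α0 z.im : ℝ) : ℂ) + ((τ (α0 z.im) : ℝ) : ℂ) * I)
          (𝓝[{w : ℂ | w.re = 0}] z) (𝓝 (((α0 z.im : ℝ) : ℂ) + ((τ (α0 z.im) : ℝ) : ℂ) * I)) :=
          hcb.continuousAt.tendsto.mono_left nhdsWithin_le_nhds
        refine h3.congr' ?_
        filter_upwards [self_mem_nhdsWithin] with w hw
        exact (e2 w hw).symm
    · have hzs : z ∈ strip T := ⟨h0, hzT⟩
      have h1 : ContinuousAt G z := hG.cU.continuousAt (hop.mem_nhds hzs)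
      refine (h1.congr ?_).continuousWithinAt
      filter_upwards [hop.mem_nhds hzs] with w hw
      exact (e1 w hw).symm
  · intro z hz
    rw [e1 z hz]
    exact hg z hz
  · intro z hz
    rw [e1 z hz]
    exact (hG.lo z hz).1
  · intro z hz
    rw [e1 z hz]
    exact (hG.lo z hz).2
  · intro z hz0 hzT
    have hre : (z + 2 * Real.pi * I).re = z.re := by simp
    have him : (z + 2 * Real.pi * I).im = z.im + 2 * Real.pi := by simp
    rcases hz0.eq_or_lt with h0 | h0
    · rw [e2 z h0.symm, e2 _ (by rw [hre]; exact h0.symm), him, hαp, hτ.per]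
      push_cast
      ring
    · have hzs : z ∈ strip T := ⟨h0, hzT⟩
      have hzs' : z + 2 * Real.pi * I ∈ strip T := by
        refine ⟨?_, ?_⟩
        · rw [hre]; exact h0
        · rw [hre]; exact hzT
      rw [e1 z hzs, e1 _ hzs', hG.per z hzs]
  · intro θ
    have hre : ((θ : ℂ) * I).re = 0 := by simp
    have him : ((θ : ℂ) * I).im = θ := by simp
    rw [e2 _ hre, him]

private theorem n1b_polcurve {q : ℂ} {ρ0 : ℝ} (hρ : 0 < ρ0) : CurveData (pol q) (fun _ => ρ0) := by
  refine ⟨continuous_const, fun _ => rfl, fun _ => hρ, fun x y => by simp, ?_,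
    fun u _ => ?_, fun u hu v hv huv => ?_⟩
  · apply Continuous.continuousOn
    unfold pol
    fun_prop
  · unfold pol
    have h1 : (u + 2 * Real.pi).im = u.im := by simp
    have h2 : (u + 2 * Real.pi).re = u.re + 2 * Real.pi := by simp
    rw [h1, h2]
    push_cast
    rw [mul_add, Complex.exp_add]
    have : I * (2 * Real.pi) = 2 * Real.pi * I := by ring
    rw [this, Complex.exp_two_pi_mul_I, mul_one]
  · unfold pol at huv
    have h1 : (u.im : ℂ) * exp (I * u.re) = v.im * exp (I * v.re) := add_left_cancel huv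
    have hn : ∀ x : ℝ, ‖exp (I * (x : ℂ))‖ = 1 := fun x => by
      rw [Complex.norm_exp]
      simp
    have hu' : 0 < u.im := hu
    have hv' : 0 < v.im := hv
    have h2 : u.im = v.im := by
      have := congrArg norm h1
      rwa [norm_mul, norm_mul, hn, hn, mul_one, mul_one, Complex.norm_real, Complex.norm_real,
        Real.norm_eq_abs, Real.norm_eq_abs, abs_of_pos hu', abs_of_pos hv'] at this
    rw [← h2] at h1
    have h3 : exp (I * (v.re : ℂ)) = exp (I * (u.re : ℂ)) :=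
      (mul_left_cancel₀ (by exact_mod_cast hu'.ne') h1).symm
    obtain ⟨n, hn⟩ := Complex.exp_eq_exp_iff_exists_int.1 h3
    refine ⟨n, ?_⟩
    have h4 : (v.re : ℂ) = u.re + 2 * Real.pi * n := by
      have h5 : I * (v.re : ℂ) = I * (u.re + 2 * Real.pi * n) := by
        rw [hn]
        ring
      exact mul_left_cancel₀ I_ne_zero h5
    have h6 : v.re = u.re + 2 * Real.pi * n := by exact_mod_cast h4
    apply Complex.ext
    · simp [h6]
    · simp [h2]

theorem pointG_of_cell {Ω A L : Set ℂ} {q : ℂ} {ρ0 : ℝ} {X : Set ℂ} {h hx hy ψ : ℂ → ℂ}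
    (hρ : 0 < ρ0) (hO : IsOpen Ω) (hA : IsOpen A) (hAO : A ⊆ Ω) (ha : ACL2 Ω h hx hy)
    (hlt : ∀ x ∈ A, dist (h x) q < ρ0)
    (hX : (∃ T > (0 : ℝ), X = strip T) ∨ X = rhp) (ch : Chart X A ψ) {d : ℝ} {U : ℂ → ℂ}
    (hd : 0 < d) (hdX : strip d ⊆ X) (hU : CellData (fun _ => ρ0) d U)
    (hh : ∀ z ∈ strip d, 0 < (U z).im ∧ h (ψ z) = pol q (U z))
    (tendL : ∀ η > (0 : ℝ), ∃ a : ℝ, (a : ℂ) ∈ X ∧ ∀ z ∈ X, a < z.re → infDist (ψ z) L < η)
    (cpt : ∃ Q ⊆ Ω, IsCompact Q ∧ ∃ d > (0 : ℝ), ∀ z ∈ X, z.re < d → ψ z ∈ Q) :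
    ∃ (Hb : ℂ → ℂ) (α0 : ℝ → ℝ), PointG Ω A L q ρ0 X h ψ Hb α0 := by
  obtain ⟨H, Ht, Hs, hP⟩ := exists_pull ch hA (n1b_mono ha hAO)
  obtain ⟨α0, hαc, hαm, hαp, hαt⟩ := cell_ext_mono (n1b_polcurve (q := q) hρ) hU
    (fun z hz hz' => by rw [hP.eq z (hdX hz)]; exact (hh z hz).2)
    (fun R => n1b_mono (hP.acl R) (inter_subset_inter_left _ hdX))
  have hXpos : ∀ z ∈ X, 0 < z.re := by
    intro z hz
    rcases hX with ⟨T, hT, rfl⟩ | rfl
    · exact hz.1
    · exact hz
  set Hb : ℂ → ℂ := fun z => if 0 < z.re then h (ψ z) else q + ρ0 * exp (I * α0 z.im) with hHb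
  have e1 : ∀ z ∈ X, Hb z = h (ψ z) := fun z hz => if_pos (hXpos z hz)
  have e2 : ∀ z : ℂ, z.re = 0 → Hb z = q + ρ0 * exp (I * α0 z.im) := fun z hz => by
    simp only [hHb]
    rw [if_neg (by rw [hz]; exact lt_irrefl _)]
  have hψA : ∀ z ∈ X, ψ z ∈ A := fun z hz => ch.image ▸ mem_image_of_mem ψ hz
  have hcomp : ContinuousOn (fun z => h (ψ z)) X :=
    (ha.cont.mono hAO).comp ch.cont.1 hψA
  have hcb : Continuous fun z : ℂ => q + ρ0 * exp (I * ((α0 z.im : ℝ) : ℂ)) := by
    have h1 : Continuous fun z : ℂ => α0 z.im := hαc.comp continuous_im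
    have h2 : Continuous fun z : ℂ => ((α0 z.im : ℝ) : ℂ) := continuous_ofReal.comp h1
    fun_prop
  have hpolc : Continuous (pol q) := by
    unfold pol
    fun_prop
  refine ⟨Hb, α0, hρ, hX, ch, ?_, e1, ?_, ?_, hαc, hαm, hαp, tendL, cpt⟩
  · rintro z hz
    rcases hz with hzX | h0
    · have h1 : ContinuousAt (fun z => h (ψ z)) z := hcomp.continuousAt (ch.Xopen.mem_nhds hzX)
      refine (h1.congr ?_).continuousWithinAt
      filter_upwards [ch.Xopen.mem_nhds hzX] with w hw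
      exact (e1 w hw).symm
    · have h0' : z.re = 0 := h0
      have hz : z = (z.im : ℝ) * I := by
        apply Complex.ext
        · simp [h0']
        · simp
      have hset : {w : ℂ | w ∈ X ∨ w.re = 0} = X ∪ {w : ℂ | w.re = 0} := rfl
      change Tendsto Hb (𝓝[{w : ℂ | w ∈ X ∨ w.re = 0}] z) (𝓝 (Hb z))
      rw [hset, nhdsWithin_union, tendsto_sup]
      have hv : Hb z = q + ρ0 * exp (I * α0 z.im) := e2 z h0'
      constructor
      · rw [hv]
        have h3 := hαt z.im
        rw [← hz] at h3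
        have h4 : Tendsto (fun w => pol q (U w)) (𝓝[strip d] z)
            (𝓝 (pol q (α0 z.im + ρ0 * I))) := (hpolc.tendsto _).comp h3
        have h5 : pol q (α0 z.im + ρ0 * I) = q + ρ0 * exp (I * α0 z.im) := by
          unfold pol
          simp
        rw [h5] at h4
        have h6 : 𝓝[X] z ≤ 𝓝[strip d] z := by
          rw [nhdsWithin_le_iff]
          have h7 : ∀ᶠ w in 𝓝 z, w.re < d :=
            (continuous_re.tendsto z).eventually_lt_const (by rw [h0']; exact hd)
          filter_upwards [self_mem_nhdsWithin, h7.filter_mono nhdsWithin_le_nhds] with w hw hw'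
          exact ⟨hXpos w hw, hw'⟩
        have h8 : ∀ᶠ w in 𝓝[strip d] z, pol q (U w) = Hb w := by
          filter_upwards [self_mem_nhdsWithin] with w hw
          rw [e1 w (hdX hw), (hh w hw).2]
        exact (h4.congr' h8).mono_left h6
      · rw [hv]
        have h3 : Tendsto (fun z : ℂ => q + ρ0 * exp (I * ((α0 z.im : ℝ) : ℂ)))
          (𝓝[{w : ℂ | w.re = 0}] z) (𝓝 (q + ρ0 * exp (I * ((α0 z.im : ℝ) : ℂ)))) :=
          hcb.continuousAt.tendsto.mono_left nhdsWithin_le_nhds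
        refine h3.congr' ?_
        filter_upwards [self_mem_nhdsWithin] with w hw
        exact (e2 w hw).symm
  · intro θ
    have hre : ((θ : ℂ) * I).re = 0 := by simp
    have him : ((θ : ℂ) * I).im = θ := by simp
    rw [e2 _ hre, him]
  · intro z hz
    rw [e1 z hz]
    exact hlt _ (hψA z hz)

end CF6

end
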