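import Pool.Agent.Lib.MP_cf6b16_an.A1
import Pool.Agent.Lib.MP_cf6b16_an.DefsB
import Pool.Agent.Lib.MP_cf6b16_an.A2
import Pool.Agent.Lib.MP_cf6b16_an.C1

section

/-!
# T1: the degree of a lift is ±1

PROOF. (1) `ℓ '' X` is open: let `z ∈ X`, `u = ℓ z`. Take `r > 0` with `ball z r ⊆ X` and `‖ℓ z' - ℓ z‖ < 1` on it. `F '' ball z r` is open and contains `exp u`, so for `u'` close to `u` (`‖u' - u‖ < 1`)
there is `z' ∈ ball z r` with `F z' = exp u'`, `exp (ℓ z') = exp u'`, `‖ℓ z' - u'‖ < 2 < 2π`, so `ℓ z' = u'` (`Complex.exp_eq_exp_iff_exists_int`).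
(2) `O l = {u | u - 2π l I ∈ ℓ '' X}` (`l : ℤ`) is open. `D ⊆ ⋃ O l`: `u ∈ D`, `exp u = F z = exp (ℓ z)`, so `ℓ z = u + 2π n I`, `u ∈ O (-n)`.
(3) `ℓ (z + 2π n I) = ℓ z + 2π m n I` for `n : ℤ`, `z ∈ X` (induction in both directions, `hXp`).
(4) If `u ∈ O l ∩ O l'` then `ℓ z + 2π l I = ℓ z' + 2π l' I`, `F z = F z'`, `z' = z + 2π n I`, so `l = m n + l'`: `m ∣ l ↔ m ∣ l'`.
(5) Suppose `m ≠ 1`, `m ≠ -1`. `P = ⋃_{m ∣ l} O l`, `Q = ⋃_{¬ m ∣ l} O l` are open and disjoint and cover `D`. Some `u ∈ D` is in some `O l`; `D` is invariant under `2π I`-translations, so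
`u - 2π l I ∈ D ∩ O 0 ⊆ P` and `u - 2π (l - 1) I ∈ D ∩ O 1 ⊆ Q` (`¬ m ∣ 1`). Contradiction to `IsPreconnected D`.
-/

open Complex Set Filter Topology Metric

namespace CF6

theorem T1_two_pi_ne : (2 * (Real.pi : ℂ) * I) ≠ 0 := by
  simp [Real.pi_ne_zero]

theorem T1_trans {X : Set ℂ} {ℓ : ℂ → ℂ} {m : ℤ}
    (hXp : ∀ z, z ∈ X ↔ z + 2 * Real.pi * I ∈ X)
    (per : ∀ z ∈ X, ℓ (z + 2 * Real.pi * I) = ℓ z + 2 * Real.pi * m * I) (n : ℤ) :
    ∀ z ∈ X, z + 2 * Real.pi * n * I ∈ X ∧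
      ℓ (z + 2 * Real.pi * n * I) = ℓ z + 2 * Real.pi * (m * n) * I := by
  induction n using Int.induction_on with
  | zero => intro z hz; simp [hz]
  | succ n ih =>
    intro z hz
    obtain ⟨h1, h2⟩ := ih z hz
    have e : z + 2 * Real.pi * ((n : ℤ) + 1 : ℤ) * I = z + 2 * Real.pi * ((n : ℤ) : ℂ) * I +
        2 * Real.pi * I := by
      push_cast
      ring
    rw [e]
    refine ⟨(hXp _).1 h1, ?_⟩
    rw [per _ h1, h2]
    push_cast
    ring
  | pred n ih =>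
    intro z hz
    obtain ⟨h1, h2⟩ := ih z hz
    have e : z + 2 * Real.pi * ((-(n : ℤ) : ℤ) : ℂ) * I = (z + 2 * Real.pi *
        ((-(n : ℤ) - 1 : ℤ) : ℂ) * I) + 2 * Real.pi * I := by
      push_cast
      ring
    rw [e] at h1 h2
    have h3 := (hXp _).2 h1
    refine ⟨h3, ?_⟩
    rw [per _ h3] at h2
    have h4 : ℓ (z + 2 * Real.pi * ((-(n : ℤ) - 1 : ℤ) : ℂ) * I) = ℓ z + 2 * Real.pi *
        (m * ((-(n : ℤ) : ℤ) : ℂ)) * I - 2 * Real.pi * m * I := by
      rw [← h2]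
      ring
    rw [h4]
    push_cast
    ring

theorem T1_transD {D : Set ℂ} (hDp : ∀ z, z ∈ D ↔ z + 2 * Real.pi * I ∈ D) (n : ℤ) :
    ∀ z ∈ D, z + 2 * Real.pi * n * I ∈ D := fun z hz =>
  (T1_trans (ℓ := fun _ => 0) (m := 0) hDp (fun z _ => by simp) n z hz).1

theorem T1_image_open {X : Set ℂ} {F ℓ : ℂ → ℂ} (hX : IsOpen X) (cℓ : ContinuousOn ℓ X)
    (he : ∀ z ∈ X, exp (ℓ z) = F z) (opn : ∀ V ⊆ X, IsOpen V → IsOpen (F '' V)) :
    IsOpen (ℓ '' X) := by
  rw [isOpen_iff_mem_nhds]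
  rintro _ ⟨z, hz, rfl⟩
  have hV : IsOpen (X ∩ ℓ ⁻¹' ball (ℓ z) 1) := cℓ.isOpen_inter_preimage hX isOpen_ball
  have hFV := opn _ inter_subset_left hV
  have hmem : exp ⁻¹' (F '' (X ∩ ℓ ⁻¹' ball (ℓ z) 1)) ∩ ball (ℓ z) 1 ∈ 𝓝 (ℓ z) :=
    inter_mem ((hFV.preimage continuous_exp).mem_nhds
      ⟨z, ⟨hz, mem_ball_self one_pos⟩, (he z hz).symm⟩) (ball_mem_nhds _ one_pos)
  refine mem_of_superset hmem ?_
  rintro u' ⟨⟨z', ⟨hz'X, hz'b⟩, hz'⟩, hu'⟩
  have h1 : exp (ℓ z') = exp u' := (he z' hz'X).trans hz'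
  obtain ⟨n, hn⟩ := Complex.exp_eq_exp_iff_exists_int.1 h1
  have hz'b' : dist (ℓ z') (ℓ z) < 1 := hz'b
  have hu'' : dist u' (ℓ z) < 1 := hu'
  have hd : ‖ℓ z' - u'‖ < 2 := by
    rw [← dist_eq_norm]
    have := dist_triangle_right (ℓ z') u' (ℓ z)
    linarith
  have hn0 : n = 0 := by
    by_contra hne
    rw [hn, add_sub_cancel_left, norm_mul] at hd
    have h2 : ‖(2 * (Real.pi : ℂ) * I)‖ = 2 * Real.pi := by
      rw [norm_mul, norm_mul, norm_I, norm_real, Real.norm_of_nonneg Real.pi_pos.le]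
      simp
    rw [h2, Complex.norm_intCast] at hd
    have h3 : (1 : ℝ) ≤ |(n : ℝ)| := by exact_mod_cast Int.one_le_abs hne
    have := Real.pi_gt_three
    nlinarith
  refine ⟨z', hz'X, ?_⟩
  rw [hn, hn0]
  simp

theorem degree_one {X D : Set ℂ} {F ℓ : ℂ → ℂ} {m : ℤ} (hX : IsOpen X)
    (hXp : ∀ z, z ∈ X ↔ z + 2 * Real.pi * I ∈ X) (cℓ : ContinuousOn ℓ X)
    (he : ∀ z ∈ X, exp (ℓ z) = F z) (per : ∀ z ∈ X, ℓ (z + 2 * Real.pi * I) = ℓ z + 2 * Real.pi * m * I)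
    (inj : ∀ z ∈ X, ∀ w ∈ X, F z = F w → ∃ n : ℤ, w = z + 2 * Real.pi * n * I)
    (opn : ∀ V ⊆ X, IsOpen V → IsOpen (F '' V)) (hD : IsPreconnected D) (nD : D.Nonempty)
    (hDp : ∀ z, z ∈ D ↔ z + 2 * Real.pi * I ∈ D) (cov : exp '' D ⊆ F '' X) : m = 1 ∨ m = -1 := by
  by_contra hcon
  have hm1 : ¬ m ∣ 1 := fun h => hcon (Int.isUnit_iff.1 (isUnit_of_dvd_one h))
  have hop := T1_image_open hX cℓ he opn
  obtain ⟨O, hO⟩ : ∃ O : ℤ → Set ℂ, O = fun l : ℤ => {u | u - 2 * Real.pi * l * I ∈ ℓ '' X} :=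
    ⟨_, rfl⟩
  have hOo : ∀ l, IsOpen (O l) := by
    intro l
    rw [hO]
    exact hop.preimage (by fun_prop)
  have hOm : ∀ l u, u ∈ O l ↔ u - 2 * Real.pi * l * I ∈ ℓ '' X := by
    intro l u
    rw [hO]
    exact Iff.rfl
  have hcov : ∀ u ∈ D, ∃ l, u ∈ O l := by
    intro u hu
    obtain ⟨z, hz, hz'⟩ := cov ⟨u, hu, rfl⟩
    rw [← he z hz] at hz'
    obtain ⟨n, hn⟩ := Complex.exp_eq_exp_iff_exists_int.1 hz'
    refine ⟨-n, (hOm _ _).2 ⟨z, hz, ?_⟩⟩
    rw [hn]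
    push_cast
    ring
  have hdis : ∀ l l' u, u ∈ O l → u ∈ O l' → m ∣ l → m ∣ l' := by
    intro l l' u h1 h2 hml
    rw [hOm] at h1 h2
    obtain ⟨z, hz, hz1⟩ := h1
    obtain ⟨z', hz', hz2⟩ := h2
    have e1 : F z = F z' := by
      rw [← he z hz, ← he z' hz', hz1, hz2, Complex.exp_eq_exp_iff_exists_int]
      refine ⟨l' - l, ?_⟩
      push_cast
      ring
    obtain ⟨n, hn⟩ := inj z hz z' hz' e1
    have e2 := (T1_trans hXp per n z hz).2
    rw [← hn, hz2, hz1] at e2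
    have e3 : (2 * (Real.pi : ℂ) * I) * ((l : ℂ) - (m * n + l')) = 0 := by
      linear_combination (1 : ℂ) * e2
    have e4 := (mul_eq_zero.1 e3).resolve_left T1_two_pi_ne
    have e5 : l = m * n + l' := by
      have := sub_eq_zero.1 e4
      exact_mod_cast this
    rw [e5] at hml
    exact (dvd_add_right (dvd_mul_right m n)).1 hml
  obtain ⟨P, hP⟩ : ∃ P : Set ℂ, P = ⋃ l : ℤ, ⋃ _ : m ∣ l, O l := ⟨_, rfl⟩
  obtain ⟨Q, hQ⟩ : ∃ Q : Set ℂ, Q = ⋃ l : ℤ, ⋃ _ : ¬ m ∣ l, O l := ⟨_, rfl⟩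
  have hPo : IsOpen P := by
    rw [hP]
    exact isOpen_iUnion fun l => isOpen_iUnion fun _ => hOo l
  have hQo : IsOpen Q := by
    rw [hQ]
    exact isOpen_iUnion fun l => isOpen_iUnion fun _ => hOo l
  have hPm : ∀ u, u ∈ P ↔ ∃ l, m ∣ l ∧ u ∈ O l := by
    intro u
    rw [hP]
    simp only [mem_iUnion, exists_prop]
  have hQm : ∀ u, u ∈ Q ↔ ∃ l, ¬ m ∣ l ∧ u ∈ O l := by
    intro u
    rw [hQ]
    simp only [mem_iUnion, exists_prop]
  obtain ⟨u, hu⟩ := nD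
  obtain ⟨l, hl⟩ := hcov u hu
  rw [hOm] at hl
  have a1 := T1_transD hDp (-l) u hu
  have a2 := T1_transD hDp (-(l - 1)) u hu
  have b1 : u + 2 * Real.pi * ((-l : ℤ) : ℂ) * I ∈ P := by
    rw [hPm]
    refine ⟨0, dvd_zero m, (hOm _ _).2 ?_⟩
    have : u + 2 * Real.pi * ((-l : ℤ) : ℂ) * I - 2 * Real.pi * ((0 : ℤ) : ℂ) * I =
        u - 2 * Real.pi * l * I := by
      push_cast
      ring
    rw [this]
    exact hl
  have b2 : u + 2 * Real.pi * ((-(l - 1) : ℤ) : ℂ) * I ∈ Q := by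
    rw [hQm]
    refine ⟨1, hm1, (hOm _ _).2 ?_⟩
    have : u + 2 * Real.pi * ((-(l - 1) : ℤ) : ℂ) * I - 2 * Real.pi * ((1 : ℤ) : ℂ) * I =
        u - 2 * Real.pi * l * I := by
      push_cast
      ring
    rw [this]
    exact hl
  obtain ⟨v, -, hvP, hvQ⟩ := hD P Q hPo hQo (fun v hv => by
    obtain ⟨k, hk⟩ := hcov v hv
    by_cases hmk : m ∣ k
    · exact Or.inl ((hPm v).2 ⟨k, hmk, hk⟩)
    · exact Or.inr ((hQm v).2 ⟨k, hmk, hk⟩)) ⟨_, a1, b1⟩ ⟨_, a2, b2⟩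
  obtain ⟨k, hk, hk'⟩ := (hPm v).1 hvP
  obtain ⟨k', hk2, hk2'⟩ := (hQm v).1 hvQ
  exact hk2 (hdis k k' v hk' hk2' hk)

end CF6

end

section

/-!
# T2: points of the chart with bounded real part are far from `L`

PROOF. Otherwise `zn ∈ strip T`, `zn.re ≤ t`, `infDist (ψ zn) L → 0`; by periodicity (`per`, both directions) `0 ≤ zn.im ≤ 2π`. `ψ zn ∈ A` is bounded. Subsequence: `zn → z`, `ψ zn → x`, `0 ≤ z.re ≤ t < T`. `x ∈ L` (closed, nonempty).
If `z.re = 0`: `infDist (ψ zn) M → 0` (`endM`), so `x ∈ M`, contradiction to disjointness. If `z.re > 0`: `x = ψ z ∈ A`, contradiction to `L ⊆ Aᶜ`.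
`conn_image`: `F'` from `StripChart.descend`; the set is `F' '' Y`.
`real_log`: the strip is convex, hence simply connected: Mathlib `Complex.exists_continuousOn_eqOn_exp_comp` (the strip `{a < re z < b}` is open, convex, nonempty; `Convex.contractibleSpace`/`IsSimplyConnected`), see how `cont_log` (A18b) does it for the ball; or use
`cont_log` with `noHole_of_conn`-type argument. `int_period`: `(ℓ (z + 2πI) - ℓ z)/(2πI)` is continuous and integer valued on the connected strip.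
-/

open Complex Set Filter Topology Metric

namespace CF6

theorem T2_shift {T : ℝ} {ψ : ℂ → ℂ} (per : ∀ s ∈ strip T, ψ (s + 2 * Real.pi * I) = ψ s) {z : ℂ}
    (hz : z ∈ strip T) : ∃ w ∈ strip T, w.re = z.re ∧ 0 ≤ w.im ∧ w.im ≤ 2 * Real.pi ∧ ψ w = ψ z := by
  have hp : (0 : ℝ) < 2 * Real.pi := by positivity
  set n : ℤ := -⌊z.im / (2 * Real.pi)⌋ with hn
  have hre : (z + 2 * Real.pi * n * I).re = z.re := by simp
  have him : (z + 2 * Real.pi * n * I).im = z.im + 2 * Real.pi * n := by simp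
  have h3 := Int.floor_le (z.im / (2 * Real.pi))
  have h4 := Int.lt_floor_add_one (z.im / (2 * Real.pi))
  have h5 : z.im = 2 * Real.pi * (z.im / (2 * Real.pi)) := by field_simp
  refine ⟨z + 2 * Real.pi * n * I, a28a_strip_per T z hz n, hre, ?_, ?_,
    a28a_per (a28a_strip_per T) per n z hz⟩
  · rw [him, hn]
    push_cast
    have := mul_le_mul_of_nonneg_left h3 hp.le
    linarith
  · rw [him, hn]
    push_cast
    have := mul_lt_mul_of_pos_left h4 hp
    linarith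

theorem T2_log {S : Set ℂ} (hS : IsOpen S) (hc : Convex ℝ S) (hne : S.Nonempty) {g : ℂ → ℂ}
    (hg : ContinuousOn g S) (h0 : ∀ z ∈ S, g z ≠ 0) :
    ∃ ℓ : ℂ → ℂ, ContinuousOn ℓ S ∧ ∀ z ∈ S, exp (ℓ z) = g z := by
  have hcon : ContractibleSpace S := hc.contractibleSpace hne
  have hsc : IsSimplyConnected S := by
    show SimplyConnectedSpace S
    infer_instance
  obtain ⟨ℓ, h1, h2⟩ := Complex.exists_continuousOn_eqOn_exp_comp hsc hS hg (by
    rintro ⟨z, hz, h⟩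
    exact h0 z hz h)
  exact ⟨ℓ, h1, fun z hz => h2 hz⟩

/-- a continuous function on a preconnected set whose values are integers is constant -/
theorem T2_int {X : Type*} [TopologicalSpace X] {S : Set X} (hS : IsPreconnected S) {g : X → ℝ}
    (hg : ContinuousOn g S) (hi : ∀ x ∈ S, ∃ n : ℤ, g x = n) {x y : X} (hx : x ∈ S) (hy : y ∈ S) :
    g x = g y := by
  have key : ∀ a ∈ S, ∀ b ∈ S, ¬ g a < g b := by
    intro a ha b hb hab
    obtain ⟨m, hm⟩ := hi a ha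
    obtain ⟨n, hn⟩ := hi b hb
    have hmn : m < n := by
      rw [hm, hn] at hab
      exact_mod_cast hab
    have hmn' : (m : ℝ) + 1 ≤ n := by exact_mod_cast hmn
    have h1 : (m : ℝ) + 1 / 2 ∈ Icc (g a) (g b) := by
      rw [hm, hn]
      constructor <;> linarith
    obtain ⟨c, hc, hgc⟩ := hS.intermediate_value ha hb hg h1
    obtain ⟨k, hk⟩ := hi c hc
    rw [hk] at hgc
    have h2 : (2 * k : ℝ) = 2 * m + 1 := by linarith
    have h3 : 2 * k = 2 * m + 1 := by exact_mod_cast h2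
    omega
  exact le_antisymm (not_lt.mp (key y hy x hx)) (not_lt.mp (key x hx y hy))

theorem StripChart.far_L {A L M : Set ℂ} {T : ℝ} {ψ : ℂ → ℂ} (h : StripChart A L M T ψ)
    (bA : Bornology.IsBounded A) (hL : IsClosed L) (nL : L.Nonempty) (hM : IsClosed M)
    (nM : M.Nonempty) (dis : Disjoint L M) (un : L ∪ M = Aᶜ) {t : ℝ} (ht : t < T) :
    ∃ κ > (0 : ℝ), ∀ z ∈ strip T, z.re ≤ t → κ ≤ infDist (ψ z) L := by
  by_contra hcon
  push Not at hcon
  have hex : ∀ n : ℕ, ∃ w : ℂ, w ∈ strip T ∧ w.re ≤ t ∧ 0 ≤ w.im ∧ w.im ≤ 2 * Real.pi ∧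
      infDist (ψ w) L < 1 / ((n : ℝ) + 1) := by
    intro n
    obtain ⟨z, hz, hzt, hzd⟩ := hcon (1 / ((n : ℝ) + 1)) (by positivity)
    obtain ⟨w, hw, h1, h2, h3, h4⟩ := T2_shift h.per hz
    exact ⟨w, hw, by rw [h1]; exact hzt, h2, h3, by rw [h4]; exact hzd⟩
  choose w hw hwt hw0 hw1 hwd using hex
  have hcpt : IsCompact ((Icc 0 t ×ℂ Icc 0 (2 * Real.pi)) ×ˢ closure A) :=
    (isCompact_Icc.reProdIm isCompact_Icc).prod bA.isCompact_closure
  have hmem : ∀ n, (w n, ψ (w n)) ∈ (Icc 0 t ×ℂ Icc 0 (2 * Real.pi)) ×ˢ closure A := by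
    intro n
    refine ⟨⟨⟨(hw n).1.le, hwt n⟩, ⟨hw0 n, hw1 n⟩⟩, subset_closure ?_⟩
    rw [← h.image]
    exact mem_image_of_mem ψ (hw n)
  obtain ⟨⟨z, x⟩, hzx, φ, hφ, hlim⟩ := hcpt.tendsto_subseq hmem
  have hz1 : Tendsto (fun n => w (φ n)) atTop (𝓝 z) :=
    (continuous_fst.tendsto _).comp hlim
  have hx1 : Tendsto (fun n => ψ (w (φ n))) atTop (𝓝 x) :=
    (continuous_snd.tendsto _).comp hlim
  have hdist : Tendsto (fun n : ℕ => 1 / ((n : ℝ) + 1)) atTop (𝓝 0) :=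
    tendsto_one_div_add_atTop_nhds_zero_nat
  have hxL : x ∈ L := by
    have h1 : Tendsto (fun n => infDist (ψ (w (φ n))) L) atTop (𝓝 (infDist x L)) :=
      ((continuous_infDist_pt L).tendsto x).comp hx1
    have h2 : Tendsto (fun n => infDist (ψ (w (φ n))) L) atTop (𝓝 0) := by
      refine squeeze_zero (fun n => infDist_nonneg) (fun n => (hwd (φ n)).le) ?_
      exact hdist.comp hφ.tendsto_atTop
    have h3 := tendsto_nhds_unique h1 h2
    exact (hL.mem_iff_infDist_zero nL).mpr h3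
  have hre : Tendsto (fun n => (w (φ n)).re) atTop (𝓝 z.re) :=
    (Complex.continuous_re.tendsto z).comp hz1
  have hz0 : 0 ≤ z.re := hzx.1.1.1
  have hzt : z.re ≤ t := hzx.1.1.2
  rcases hz0.eq_or_lt with h0 | h0
  · -- the limit is on the boundary
    have hxM : x ∈ M := by
      have h1 : Tendsto (fun n => infDist (ψ (w (φ n))) M) atTop (𝓝 (infDist x M)) :=
        ((continuous_infDist_pt M).tendsto x).comp hx1
      have h2 : Tendsto (fun n => infDist (ψ (w (φ n))) M) atTop (𝓝 0) := by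
        rw [Metric.tendsto_nhds]
        intro ε hε
        obtain ⟨η, hη, hη1⟩ := h.endM ε hε
        rw [← h0] at hre
        filter_upwards [hre.eventually (gt_mem_nhds hη)] with n hn
        rw [Real.dist_0_eq_abs, abs_of_nonneg infDist_nonneg]
        exact hη1 _ (hw _) hn
      have h3 := tendsto_nhds_unique h1 h2
      exact (hM.mem_iff_infDist_zero nM).mpr h3
    exact (Set.disjoint_left.mp dis hxL) hxM
  · have hzs : z ∈ strip T := ⟨h0, lt_of_le_of_lt hzt ht⟩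
    have h1 : Tendsto (fun n => ψ (w (φ n))) atTop (𝓝 (ψ z)) :=
      ((h.diff.differentiableAt ((a28a_strip_open T).mem_nhds hzs)).continuousAt.tendsto).comp hz1
    have h2 : x = ψ z := tendsto_nhds_unique hx1 h1
    have h3 : x ∈ A := by
      rw [h2, ← h.image]
      exact mem_image_of_mem ψ hzs
    have h4 : x ∈ Aᶜ := by
      rw [← un]
      exact Or.inl hxL
    exact h4 h3

theorem StripChart.conn_image {A L M : Set ℂ} {T : ℝ} {ψ : ℂ → ℂ} (h : StripChart A L M T ψ)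
    {F : ℂ → ℂ} (hF : ContinuousOn F (strip T)) (per : ∀ s ∈ strip T, F (s + 2 * Real.pi * I) = F s)
    {Y : Set ℂ} (hY : Y ⊆ A) (cY : IsConnected Y) :
    IsConnected (F '' {z | z ∈ strip T ∧ ψ z ∈ Y}) := by
  obtain ⟨F', hF', hval⟩ := h.descend hF per
  have e : F '' {z | z ∈ strip T ∧ ψ z ∈ Y} = F' '' Y := by
    ext v
    constructor
    · rintro ⟨z, ⟨hz, hzY⟩, rfl⟩
      exact ⟨ψ z, hzY, hval z hz⟩
    · rintro ⟨y, hy, rfl⟩
      have hyA := hY hy
      rw [← h.image] at hyA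
      obtain ⟨z, hz, rfl⟩ := hyA
      exact ⟨z, ⟨hz, hy⟩, (hval z hz).symm⟩
  rw [e]
  exact cY.image F' (hF'.mono hY)

/-- the vertical strip `a < re z < b` -/
def vstrip (a b : ℝ) : Set ℂ := {z | a < z.re ∧ z.re < b}

theorem T2_open (a b : ℝ) : IsOpen (vstrip a b) :=
  (isOpen_lt continuous_const Complex.continuous_re).inter
    (isOpen_lt Complex.continuous_re continuous_const)

theorem T2_convex (a b : ℝ) : Convex ℝ (vstrip a b) :=
  (convex_halfSpace_re_gt a).inter (convex_halfSpace_re_lt b)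

theorem strip_log {a b : ℝ} (hab : a < b) {f : ℂ → ℂ} (hf : ContinuousOn f (vstrip a b))
    (h0 : ∀ z ∈ vstrip a b, f z ≠ 0) :
    ∃ ℓ : ℂ → ℂ, ContinuousOn ℓ (vstrip a b) ∧ ∀ z ∈ vstrip a b, exp (ℓ z) = f z := by
  refine T2_log (T2_open a b) (T2_convex a b) ⟨(((a + b) / 2 : ℝ) : ℂ), ?_, ?_⟩ hf h0
  · show a < (((a + b) / 2 : ℝ) : ℂ).re
    rw [Complex.ofReal_re]
    linarith
  · show (((a + b) / 2 : ℝ) : ℂ).re < b
    rw [Complex.ofReal_re]
    linarith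

theorem strip_int_period {a b : ℝ} (hab : a < b) {f ℓ : ℂ → ℂ} (cℓ : ContinuousOn ℓ (vstrip a b))
    (he : ∀ z ∈ vstrip a b, exp (ℓ z) = f z)
    (per : ∀ z ∈ vstrip a b, f (z + 2 * Real.pi * I) = f z) :
    ∃ m : ℤ, ∀ z ∈ vstrip a b, ℓ (z + 2 * Real.pi * I) = ℓ z + 2 * Real.pi * m * I := by
  have hsh : ∀ z ∈ vstrip a b, z + 2 * Real.pi * I ∈ vstrip a b := by
    rintro z ⟨h1, h2⟩
    have : (z + 2 * Real.pi * I).re = z.re := by simp
    exact ⟨by rw [this]; exact h1, by rw [this]; exact h2⟩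
  have hint : ∀ z ∈ vstrip a b, ∃ n : ℤ, ℓ (z + 2 * Real.pi * I) = ℓ z + 2 * Real.pi * n * I := by
    intro z hz
    have h1 : exp (ℓ (z + 2 * Real.pi * I)) = exp (ℓ z) := by
      rw [he _ (hsh z hz), he z hz, per z hz]
    obtain ⟨n, hn⟩ := Complex.exp_eq_exp_iff_exists_int.mp h1
    refine ⟨n, ?_⟩
    rw [hn]
    ring
  have hz0 : (((a + b) / 2 : ℝ) : ℂ) ∈ vstrip a b := by
    refine ⟨?_, ?_⟩
    · show a < (((a + b) / 2 : ℝ) : ℂ).re
      rw [Complex.ofReal_re]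
      linarith
    · show (((a + b) / 2 : ℝ) : ℂ).re < b
      rw [Complex.ofReal_re]
      linarith
  set g : ℂ → ℝ := fun z => (ℓ (z + 2 * Real.pi * I) - ℓ z).im / (2 * Real.pi) with hg
  have hgn : ∀ z ∈ vstrip a b, ∀ n : ℤ, ℓ (z + 2 * Real.pi * I) = ℓ z + 2 * Real.pi * n * I →
      g z = n := by
    intro z hz n hn
    have h1 : (ℓ z + 2 * Real.pi * n * I - ℓ z).im = 2 * Real.pi * n := by
      rw [add_sub_cancel_left]
      simp
    have h2 : (2 * Real.pi : ℝ) ≠ 0 := by positivity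
    simp only [hg]
    rw [hn, h1]
    field_simp
  have hgc : ContinuousOn g (vstrip a b) := by
    have h1 : ContinuousOn (fun z => ℓ (z + 2 * Real.pi * I)) (vstrip a b) :=
      cℓ.comp (by fun_prop) hsh
    exact (Complex.continuous_im.comp_continuousOn (h1.sub cℓ)).div_const _
  obtain ⟨m, hm⟩ := hint _ hz0
  refine ⟨m, fun z hz => ?_⟩
  obtain ⟨n, hn⟩ := hint z hz
  have h1 := T2_int (T2_convex a b).isPreconnected hgc
    (fun x hx => by
      obtain ⟨k, hk⟩ := hint x hx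
      exact ⟨k, hgn x hx k hk⟩) hz hz0
  rw [hgn z hz n hn, hgn _ hz0 m hm] at h1
  have h2 : n = m := by exact_mod_cast h1
  rw [hn, h2]

end CF6

end

section

/-!
# T3a: near `K`, `ρ` is close to the circle, and conversely

* `Comps.alt`: exactly one component is unbounded (`Comps.unbdd`); if `K i` is unbounded then `(K i)ᶜ = Ωs ∪ ⋃_{m ≠ i} K m` is bounded (finite union of bounded sets); otherwise `K i` is compact.
* `rho_near`: otherwise `wn ∉ K`, `infDist wn K → 0`, `‖ρ wn‖ ≤ c`. In both cases `wn` is bounded, `‖wn‖ ≤ R` (`K` bounded: close to `K`). `rho_proper` : the set `{w ∉ K, ‖w‖ ≤ R, ‖ρ w‖ ≤ c}` is compact and disjoint from the closed `K`, so it has positive distance from `K`.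
* `phi_near`: `K` bounded: `collar_near`. `Kᶜ` bounded: `Q = {w | d ≤ infDist w K}` is contained in `Kᶜ`, closed, bounded: compact, `‖ρ‖ ≤ c < 1` on `Q`; choose `exp (-y1) > c`.
* `phi_near'`: from `rho_near`: if `c < ‖ρ w‖`...: for `w ∉ K` with `infDist w K < δ`: `w = Φ u` with `0 < u.im < y`: `ρ w ≠ 0` (`right`), `exp (- u.im) = ‖ρ w‖ > exp (-y)`.
-/

open Complex Set Filter Topology Metric

namespace CF6

theorem Comps.alt {k : ℕ} {Ω : Set ℂ} {L : Fin k → Set ℂ} (H : Comps Ω L) (i : Fin k) :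
    Bornology.IsBounded (L i) ∨ Bornology.IsBounded (L i)ᶜ := by
  by_cases hb : Bornology.IsBounded (L i)
  · exact Or.inl hb
  · right
    obtain ⟨i0, hi0, hc⟩ := H.unbdd
    have hii : i = i0 := by
      by_contra hne
      exact hb (hc i hne).isBounded
    have h1 : Bornology.IsBounded (Ω ∪ ⋃ m ∈ {m : Fin k | m ≠ i}, L m) := by
      rw [Bornology.isBounded_union, Bornology.isBounded_biUnion (Set.toFinite _)]
      refine ⟨H.bdd, fun m hm => ?_⟩
      have hm' : m ≠ i0 := by rw [← hii]; exact hm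
      exact (hc m hm').isBounded
    refine h1.subset ?_
    intro z hz
    by_cases hzO : z ∈ Ω
    · exact Or.inl hzO
    · right
      have h2 : z ∈ ⋃ m, L m := by rw [H.union]; exact hzO
      obtain ⟨m, hm⟩ := mem_iUnion.1 h2
      refine mem_iUnion₂.2 ⟨m, ?_, hm⟩
      intro hmi
      rw [hmi] at hm
      exact hz hm

theorem T3a_radius {K : Set ℂ} (hn : K.Nonempty)
    (hb : Bornology.IsBounded K ∨ Bornology.IsBounded Kᶜ) :
    ∃ R : ℝ, ∀ w, w ∉ K → infDist w K < 1 → ‖w‖ ≤ R := by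
  rcases hb with hb | hb
  · obtain ⟨R0, hR0⟩ := hb.subset_closedBall (0 : ℂ)
    refine ⟨R0 + 1, fun w _ hw => ?_⟩
    obtain ⟨y, hy, hwy⟩ := (infDist_lt_iff hn).1 hw
    have h1 : ‖y‖ ≤ R0 := by
      have := hR0 hy
      rwa [mem_closedBall, dist_zero_right] at this
    have h2 : ‖w‖ ≤ ‖y‖ + dist w y := by
      have h3 := dist_triangle w y 0
      rw [dist_zero_right, dist_zero_right] at h3
      linarith
    linarith
  · obtain ⟨R0, hR0⟩ := hb.subset_closedBall (0 : ℂ)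
    refine ⟨R0, fun w hw _ => ?_⟩
    have := hR0 hw
    rwa [mem_closedBall, dist_zero_right] at this

theorem rho_near {K : Set ℂ} {Φ ρ : ℂ → ℂ} (hK : Collar K Φ ρ)
    (hb : Bornology.IsBounded K ∨ Bornology.IsBounded Kᶜ) {c : ℝ} (hc : c < 1) :
    ∃ δ > (0 : ℝ), ∀ w, w ∉ K → infDist w K < δ → c < ‖ρ w‖ := by
  obtain ⟨R, hR⟩ := T3a_radius hK.conn.nonempty hb
  have hdis : Disjoint {w | w ∉ K ∧ ‖w‖ ≤ R ∧ ‖ρ w‖ ≤ c} K := by
    rw [Set.disjoint_left]
    intro w hw hwK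
    exact hw.1 hwK
  obtain ⟨δ, hδ, hδ'⟩ := a02_pair (rho_proper hK hc R) hK.closed hK.conn.nonempty hdis
  refine ⟨min 1 δ, lt_min one_pos hδ, fun w hw hwd => ?_⟩
  by_contra hcon
  push Not at hcon
  have h1 : ‖w‖ ≤ R := hR w hw (lt_of_lt_of_le hwd (min_le_left _ _))
  have h2 : δ ≤ infDist w K :=
    (le_infDist hK.conn.nonempty).2 (fun y hy => hδ' w ⟨hw, h1, hcon⟩ y hy)
  exact absurd (lt_of_lt_of_le hwd (min_le_right _ _)) (not_lt.2 h2)

theorem T3a_exp {c : ℝ} (hc : c < 1) : ∃ y > (0 : ℝ), c < Real.exp (-y) := by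
  rcases le_or_gt c 0 with h | h
  · exact ⟨1, one_pos, lt_of_le_of_lt h (Real.exp_pos _)⟩
  · have h1 : Real.log c < 0 := Real.log_neg h hc
    refine ⟨-(Real.log c / 2), by linarith, ?_⟩
    rw [neg_neg]
    calc c = Real.exp (Real.log c) := (Real.exp_log h).symm
      _ < Real.exp (Real.log c / 2) := Real.exp_lt_exp.2 (by linarith)

theorem phi_near {K : Set ℂ} {Φ ρ : ℂ → ℂ} (hK : Collar K Φ ρ)
    (hb : Bornology.IsBounded K ∨ Bornology.IsBounded Kᶜ) {d : ℝ} (hd : 0 < d) :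
    ∃ y1 > (0 : ℝ), ∀ u : ℂ, 0 < u.im → u.im ≤ y1 → infDist (Φ u) K < d := by
  rcases hb with hb | hb
  · exact collar_near hK hb hd
  · have hQK : {w | d ≤ infDist w K} ⊆ Kᶜ := by
      intro w hw hwK
      have h1 : infDist w K = 0 := infDist_zero_of_mem hwK
      have h2 : d ≤ infDist w K := hw
      rw [h1] at h2
      exact absurd hd (not_lt.2 h2)
    have hQc : IsCompact {w | d ≤ infDist w K} :=
      Metric.isCompact_of_isClosed_isBounded
        (isClosed_le continuous_const (continuous_infDist_pt K)) (hb.subset hQK)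
    obtain ⟨c, hc, hcQ⟩ : ∃ c : ℝ, c < 1 ∧ ∀ w, d ≤ infDist w K → ‖ρ w‖ ≤ c := by
      rcases ({w | d ≤ infDist w K} : Set ℂ).eq_empty_or_nonempty with h0 | h0
      · refine ⟨0, one_pos, fun w hw => ?_⟩
        have : w ∈ {w | d ≤ infDist w K} := hw
        rw [h0] at this
        exact absurd this (Set.notMem_empty w)
      · have hcont : ContinuousOn (fun w => ‖ρ w‖) {w | d ≤ infDist w K} :=
          (hK.dRho.continuousOn.mono hQK).norm
        obtain ⟨w0, hw0, hmax⟩ := hQc.exists_isMaxOn h0 hcont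
        refine ⟨‖ρ w0‖, ?_, fun w hw => hmax hw⟩
        have := hK.maps (hQK hw0)
        rwa [mem_ball, dist_zero_right] at this
    obtain ⟨y, hy, hcy⟩ := T3a_exp hc
    refine ⟨y, hy, fun u hu0 hu1 => ?_⟩
    by_contra hcon
    push Not at hcon
    have h1 := hcQ _ hcon
    rw [hK.left u hu0, c7_norm_exp] at h1
    have h2 : Real.exp (-y) ≤ Real.exp (-u.im) := Real.exp_le_exp.2 (by linarith)
    linarith

theorem phi_near' {K : Set ℂ} {Φ ρ : ℂ → ℂ} (hK : Collar K Φ ρ)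
    (hb : Bornology.IsBounded K ∨ Bornology.IsBounded Kᶜ) {y : ℝ} (hy : 0 < y) :
    ∃ δ > (0 : ℝ), ∀ w, w ∉ K → infDist w K < δ → ∃ u : ℂ, 0 < u.im ∧ u.im < y ∧ Φ u = w := by
  have hc : Real.exp (-y) < 1 := Real.exp_lt_one_iff.2 (by linarith)
  obtain ⟨δ, hδ, h⟩ := rho_near hK hb hc
  refine ⟨δ, hδ, fun w hw hwd => ?_⟩
  have h1 := h w hw hwd
  have h2 : ρ w ≠ 0 := by
    intro h0
    rw [h0, norm_zero] at h1
    exact absurd h1 (not_lt.2 (Real.exp_pos _).le)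
  obtain ⟨u, hu, huw⟩ := hK.right w hw h2
  refine ⟨u, hu, ?_, huw⟩
  rw [← huw, hK.left u hu, c7_norm_exp] at h1
  have := Real.exp_lt_exp.1 h1
  linarith

end CF6

end

section

/-!
# T3b: the region below the curve

* `below_conn`: `below τ` is the image of `ℝ × (0,1)` under `(x,s) ↦ x + s τ x I`; `{u | τ u.re ≤ u.im}` is the image of `ℝ × [0,∞)` under `(x,s) ↦ x + (τ x + s) I`.
* `depth_min`: `τ` continuous, periodic, positive: minimum over `[0, 2π]`.
* `mem_collar_iff`: if `Φ u' = w` with `u' ∈ below τ` and `Φ u = w` then `exp (I u') = exp (I u)`, `u = u' + 2π n`, `τ` periodic. (For `u ∈ UHP`: `Φ u ∈ collar Φ τ ↔ u.im < τ u.re`.)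
-/

open Complex Set Filter Topology Metric

namespace CF6

theorem below_conn {τ : ℝ → ℝ} (cτ : Continuous τ) (pos : ∀ x, 0 < τ x) :
    IsOpen (below τ) ∧ IsConnected (below τ) ∧ IsConnected {u : ℂ | τ u.re ≤ u.im} := by
  refine ⟨?_, ?_, ?_⟩
  · exact (isOpen_lt continuous_const Complex.continuous_im).inter
      (isOpen_lt Complex.continuous_im (cτ.comp Complex.continuous_re))
  · have hc : Continuous fun p : ℝ × ℝ => (⟨p.1, p.2 * τ p.1⟩ : ℂ) := by
      have : Continuous fun p : ℝ × ℝ => ((p.1 : ℝ) : ℂ) + ((p.2 * τ p.1 : ℝ) : ℂ) * I :=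
        (Complex.continuous_ofReal.comp continuous_fst).add
          ((Complex.continuous_ofReal.comp
            (continuous_snd.mul (cτ.comp continuous_fst))).mul continuous_const)
      exact this.congr fun p => (Complex.mk_eq_add_mul_I _ _).symm
    have hI : IsConnected ((univ : Set ℝ) ×ˢ Ioo (0 : ℝ) 1) :=
      isConnected_univ.prod (isConnected_Ioo one_pos)
    have himg := hI.image (fun p : ℝ × ℝ => (⟨p.1, p.2 * τ p.1⟩ : ℂ)) hc.continuousOn
    have heq : (fun p : ℝ × ℝ => (⟨p.1, p.2 * τ p.1⟩ : ℂ)) '' ((univ : Set ℝ) ×ˢ Ioo (0 : ℝ) 1) =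
        below τ := by
      ext u
      constructor
      · rintro ⟨⟨x, s⟩, ⟨-, hs⟩, rfl⟩
        have hs1 : 0 < s := hs.1
        have hs2 : s < 1 := hs.2
        have hx := pos x
        refine ⟨mul_pos hs1 hx, ?_⟩
        show s * τ x < τ x
        nlinarith
      · rintro ⟨h1, h2⟩
        have hx := pos u.re
        refine ⟨(u.re, u.im / τ u.re), ⟨mem_univ _, ⟨div_pos h1 hx, ?_⟩⟩, ?_⟩
        · show u.im / τ u.re < 1
          rw [div_lt_one hx]
          exact h2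
        · apply Complex.ext
          · rfl
          · show u.im / τ u.re * τ u.re = u.im
            field_simp
    rwa [heq] at himg
  · have hc : Continuous fun p : ℝ × ℝ => (⟨p.1, τ p.1 + p.2⟩ : ℂ) := by
      have : Continuous fun p : ℝ × ℝ => ((p.1 : ℝ) : ℂ) + ((τ p.1 + p.2 : ℝ) : ℂ) * I :=
        (Complex.continuous_ofReal.comp continuous_fst).add
          ((Complex.continuous_ofReal.comp
            ((cτ.comp continuous_fst).add continuous_snd)).mul continuous_const)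
      exact this.congr fun p => (Complex.mk_eq_add_mul_I _ _).symm
    have hI : IsConnected ((univ : Set ℝ) ×ˢ Ici (0 : ℝ)) :=
      isConnected_univ.prod isConnected_Ici
    have himg := hI.image (fun p : ℝ × ℝ => (⟨p.1, τ p.1 + p.2⟩ : ℂ)) hc.continuousOn
    have heq : (fun p : ℝ × ℝ => (⟨p.1, τ p.1 + p.2⟩ : ℂ)) '' ((univ : Set ℝ) ×ˢ Ici (0 : ℝ)) =
        {u : ℂ | τ u.re ≤ u.im} := by
      ext u
      constructor
      · rintro ⟨⟨x, s⟩, ⟨-, hs⟩, rfl⟩
        have hs1 : 0 ≤ s := hs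
        show τ x ≤ τ x + s
        linarith
      · intro h
        have h' : τ u.re ≤ u.im := h
        refine ⟨(u.re, u.im - τ u.re), ⟨mem_univ _, ?_⟩, ?_⟩
        · show 0 ≤ u.im - τ u.re
          linarith
        · apply Complex.ext
          · rfl
          · show τ u.re + (u.im - τ u.re) = u.im
            ring
    rwa [heq] at himg

theorem depth_min {c r : ℝ} {τ : ℝ → ℝ} (hτ : Depth c r τ) : ∃ m > (0 : ℝ), ∀ x, m ≤ τ x := by
  have h2 : (0 : ℝ) < 2 * Real.pi := Real.two_pi_pos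
  have hcont : Continuous τ := hτ.smooth.continuous
  obtain ⟨x0, _, hx0⟩ := (isCompact_Icc (a := (0 : ℝ)) (b := 2 * Real.pi)).exists_isMinOn
    (nonempty_Icc.2 h2.le) hcont.continuousOn
  refine ⟨τ x0, hτ.pos x0, fun x => ?_⟩
  obtain ⟨y, hy, hxy⟩ := Function.Periodic.exists_mem_Ico₀ (f := τ) hτ.per h2 x
  rw [hxy]
  exact hx0 ⟨hy.1, hy.2.le⟩

theorem mem_collar_iff {K : Set ℂ} {Φ ρ : ℂ → ℂ} (hK : Collar K Φ ρ) {c r : ℝ} {τ : ℝ → ℝ}
    (hτ : Depth c r τ) {u : ℂ} (hu : 0 < u.im) : Φ u ∈ collar Φ τ ↔ u.im < τ u.re := by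
  constructor
  · rintro ⟨u', hu', he⟩
    have h1 := hK.left u' hu'.1
    have h2 := hK.left u hu
    rw [he, h2] at h1
    obtain ⟨n, hn⟩ := Complex.exp_eq_exp_iff_exists_int.1 h1
    have h3 : u = u' + ((n * (2 * Real.pi) : ℝ) : ℂ) := by
      have h4 : I * u = I * (u' + ((n * (2 * Real.pi) : ℝ) : ℂ)) := by
        rw [hn]
        push_cast
        ring
      exact mul_left_cancel₀ I_ne_zero h4
    have hre : u.re = u'.re + n * (2 * Real.pi) := by
      have := congrArg Complex.re h3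
      rwa [Complex.add_re, Complex.ofReal_re] at this
    have him : u.im = u'.im := by
      have := congrArg Complex.im h3
      rwa [Complex.add_im, Complex.ofReal_im, add_zero] at this
    have hper : τ u.re = τ u'.re := by
      rw [hre]
      have hp : Function.Periodic τ (2 * Real.pi) := hτ.per
      exact hp.int_mul n u'.re
    rw [him, hper]
    exact hu'.2
  · intro h
    exact ⟨u, ⟨hu, h⟩, rfl⟩

end CF6

end

section

/-!
# T3c: topology of the collar `S = Φ '' below τ`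

* `collar_facts`: OPEN: `Φ` maps open subsets of `UHP` to open sets (holomorphic, locally injective: `Φ u = Φ u'` and `‖u - u'‖ < 2π` imply `u = u'` by `left`; `univ_open` on small balls). `S ∪ K` OPEN: `m = min τ`; `phi_near'` with `y = m`: `{w | infDist w K < δ} ⊆ S ∪ K`.
  CONNECTED: `S` is the continuous image of `below τ`. `S ∪ K`: `frontier K` is nonempty (`K` closed, nonempty, `≠ univ`, `ℂ` connected); a point of it is in `K ∩ closure S`. Complement: `(S ∪ K)ᶜ = Φ '' {u | τ u.re ≤ u.im} ∪ {w | w ∉ K ∧ ρ w = 0}`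
  (`right`, `mem_collar_iff`). The first set is connected; the second is empty or a single point `w0` (`inj`), which is the limit of `Φ (y I)`, `y → ∞` (the inverse of `ρ` is continuous at `0 = ρ w0`, `univ_inverse`; `ρ (Φ (y I)) = exp (-y) → 0`).
  Disjoint from `K`: `mem`.
-/

open Complex Set Filter Topology Metric

namespace CF6

theorem t3c_uhp_open : IsOpen UHP := isOpen_lt continuous_const Complex.continuous_im

/-- `Φ` is an open map. -/
theorem t3c_open {K : Set ℂ} {Φ ρ : ℂ → ℂ} (hK : Collar K Φ ρ) {V : Set ℂ} (hV : IsOpen V)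
    (hs : V ⊆ UHP) : IsOpen (Φ '' V) := by
  rw [isOpen_iff_mem_nhds]
  rintro _ ⟨u, hu, rfl⟩
  obtain ⟨r, hr, hball⟩ := Metric.isOpen_iff.1 hV u hu
  set s := min r 1 with hsdef
  have hs0 : 0 < s := lt_min hr one_pos
  have hsV : ball u s ⊆ V := (ball_subset_ball (min_le_left _ _)).trans hball
  have hinj : InjOn Φ (ball u s) := by
    intro a ha b hb hab
    have h1 := hK.left a (hs (hsV ha))
    have h2 := hK.left b (hs (hsV hb))
    rw [hab, h2] at h1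
    obtain ⟨n, hn⟩ := Complex.exp_eq_exp_iff_exists_int.1 h1
    have h3 : b = a + n * (2 * Real.pi) := by
      have h4 : I * (b - (a + n * (2 * Real.pi))) = 0 := by linear_combination hn
      rcases mul_eq_zero.1 h4 with h5 | h5
      · exact absurd h5 I_ne_zero
      · exact sub_eq_zero.1 h5
    have h4 : ‖b - a‖ < 2 := by
      have h5 : dist b a ≤ dist b u + dist a u := dist_triangle_right b a u
      have h6 : dist b u < s := hb
      have h7 : dist a u < s := ha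
      have h8 : s ≤ 1 := min_le_right _ _
      rw [dist_eq_norm] at h5
      linarith
    have h5 : ‖b - a‖ = |(n : ℝ)| * (2 * Real.pi) := by
      rw [h3, add_sub_cancel_left]
      have h6 : ((n : ℂ) * (2 * Real.pi)) = (((n : ℝ) * (2 * Real.pi) : ℝ) : ℂ) := by push_cast; ring
      rw [h6, Complex.norm_real, Real.norm_eq_abs, abs_mul,
        abs_of_pos (by positivity : (0 : ℝ) < 2 * Real.pi)]
    have h6 : n = 0 := by
      by_contra hn0
      have h7 : (1 : ℝ) ≤ |(n : ℝ)| := by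
        have : (1 : ℤ) ≤ |n| := Int.one_le_abs hn0
        exact_mod_cast this
      have h8 := Real.pi_gt_three
      nlinarith
    rw [h3, h6]
    simp
  have h1 : IsOpen (Φ '' ball u s) :=
    univ_open isOpen_ball Subset.rfl isOpen_ball
      (hK.dPhi.mono (hsV.trans hs)) hinj
  exact Filter.mem_of_superset (h1.mem_nhds ⟨u, mem_ball_self hs0, rfl⟩) (image_mono hsV)

theorem t3c_cont {K : Set ℂ} {Φ ρ : ℂ → ℂ} (hK : Collar K Φ ρ) {V : Set ℂ}
    (hs : V ⊆ UHP) : ContinuousOn Φ V :=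
  hK.dPhi.continuousOn.mono hs

theorem t3c_below_sub (τ : ℝ → ℝ) : below τ ⊆ UHP := fun _ hu => hu.1

/-- a neighbourhood of `K` is contained in the collar -/
theorem t3c_near {K : Set ℂ} {Φ ρ : ℂ → ℂ} (hK : Collar K Φ ρ)
    (hb : Bornology.IsBounded K ∨ Bornology.IsBounded Kᶜ) {c r : ℝ} {τ : ℝ → ℝ}
    (hτ : Depth c r τ) :
    ∃ δ > (0 : ℝ), ∀ w, w ∉ K → infDist w K < δ → w ∈ collar Φ τ := by
  obtain ⟨m, hm, hmin⟩ := depth_min hτ
  obtain ⟨δ, hδ, hn⟩ := phi_near' hK hb hm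
  refine ⟨δ, hδ, fun w hw hd => ?_⟩
  obtain ⟨u, hu0, hum, hu⟩ := hn w hw hd
  exact ⟨u, ⟨hu0, lt_of_lt_of_le hum (hmin _)⟩, hu⟩

theorem t3c_open_union {K : Set ℂ} {Φ ρ : ℂ → ℂ} (hK : Collar K Φ ρ)
    (hb : Bornology.IsBounded K ∨ Bornology.IsBounded Kᶜ) {c r : ℝ} {τ : ℝ → ℝ}
    (hτ : Depth c r τ) (hS : IsOpen (collar Φ τ)) : IsOpen (collar Φ τ ∪ K) := by
  obtain ⟨δ, hδ, hn⟩ := t3c_near hK hb hτ
  have h1 : collar Φ τ ∪ K = collar Φ τ ∪ {w | infDist w K < δ} := by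
    apply Subset.antisymm
    · apply union_subset_union_right
      intro w hw
      show infDist w K < δ
      rw [infDist_zero_of_mem hw]
      exact hδ
    · rintro w (hw | hw)
      · exact Or.inl hw
      · by_cases hwK : w ∈ K
        · exact Or.inr hwK
        · exact Or.inl (hn w hwK hw)
  rw [h1]
  exact hS.union (isOpen_lt (continuous_infDist_pt K) continuous_const)

theorem t3c_conn_union {K : Set ℂ} {Φ ρ : ℂ → ℂ} (hK : Collar K Φ ρ)
    (hb : Bornology.IsBounded K ∨ Bornology.IsBounded Kᶜ) {c r : ℝ} {τ : ℝ → ℝ}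
    (hτ : Depth c r τ) (hS : IsConnected (collar Φ τ)) : IsConnected (collar Φ τ ∪ K) := by
  obtain ⟨δ, hδ, hn⟩ := t3c_near hK hb hτ
  have hne : K ≠ univ := by
    intro h
    have h1 : (I : ℂ) ∈ UHP := by
      show (0 : ℝ) < (I : ℂ).im
      rw [I_im]; exact one_pos
    exact hK.mem I h1 (by rw [h]; trivial)
  obtain ⟨p, hp⟩ := nonempty_frontier_iff.2 ⟨hK.nontriv.nonempty, hne⟩
  have hpK : p ∈ K := hK.closed.frontier_subset hp
  have hpS : p ∈ closure (collar Φ τ) := by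
    rw [frontier_eq_closure_inter_closure] at hp
    rw [Metric.mem_closure_iff]
    intro ε hε
    obtain ⟨w, hw, hd⟩ := Metric.mem_closure_iff.1 hp.2 (min ε δ) (lt_min hε hδ)
    refine ⟨w, hn w hw ?_, lt_of_lt_of_le hd (min_le_left _ _)⟩
    have h1 : infDist w K ≤ dist w p := infDist_le_dist_of_mem hpK
    rw [dist_comm] at h1
    exact lt_of_le_of_lt h1 (lt_of_lt_of_le hd (min_le_right _ _))
  have h1 : IsConnected (insert p (collar Φ τ)) :=
    hS.subset_closure (subset_insert _ _) (insert_subset hpS subset_closure)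
  have h2 : collar Φ τ ∪ K = insert p (collar Φ τ) ∪ K := by
    rw [insert_union, insert_eq_of_mem]
    exact Or.inr hpK
  rw [h2]
  exact IsConnected.union ⟨p, mem_insert _ _, hpK⟩ h1 hK.conn

theorem t3c_disj {K : Set ℂ} {Φ ρ : ℂ → ℂ} (hK : Collar K Φ ρ) (τ : ℝ → ℝ) :
    Disjoint (collar Φ τ) K := by
  rw [Set.disjoint_left]
  rintro _ ⟨u, hu, rfl⟩
  exact hK.mem u hu.1

theorem t3c_compl {K : Set ℂ} {Φ ρ : ℂ → ℂ} (hK : Collar K Φ ρ) {c r : ℝ} {τ : ℝ → ℝ}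
    (hτ : Depth c r τ) :
    (collar Φ τ ∪ K)ᶜ = Φ '' {u | τ u.re ≤ u.im} ∪ {w | w ∉ K ∧ ρ w = 0} := by
  have hup : ∀ u : ℂ, τ u.re ≤ u.im → u ∈ UHP := fun u hu => lt_of_lt_of_le (hτ.pos _) hu
  apply Subset.antisymm
  · intro w hw
    rw [mem_compl_iff, mem_union, not_or] at hw
    by_cases h0 : ρ w = 0
    · exact Or.inr ⟨hw.2, h0⟩
    · obtain ⟨u, hu, rfl⟩ := hK.right w hw.2 h0
      refine Or.inl ⟨u, ?_, rfl⟩
      have h1 := hw.1
      rw [mem_collar_iff hK hτ hu] at h1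
      exact not_lt.1 h1
  · rintro _ (⟨u, hu, rfl⟩ | ⟨hwK, h0⟩)
    · rw [mem_compl_iff, mem_union, not_or]
      refine ⟨?_, hK.mem u (hup u hu)⟩
      rw [mem_collar_iff hK hτ (hup u hu)]
      exact not_lt.2 hu
    · rw [mem_compl_iff, mem_union, not_or]
      refine ⟨?_, hwK⟩
      rintro ⟨u, hu, rfl⟩
      rw [hK.left u hu.1] at h0
      exact exp_ne_zero _ h0

/-- the point over `0` is a limit of points over the upper end -/
theorem t3c_limit {K : Set ℂ} {Φ ρ : ℂ → ℂ} (hK : Collar K Φ ρ) {c r : ℝ} {τ : ℝ → ℝ}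
    (hτ : Depth c r τ) {w0 : ℂ} (hw : w0 ∉ K) (h0 : ρ w0 = 0) :
    w0 ∈ closure (Φ '' {u | τ u.re ≤ u.im}) := by
  rw [_root_.mem_closure_iff]
  intro V hV hwV
  have hU : IsOpen Kᶜ := hK.closed.isOpen_compl
  have h1 : IsOpen (ρ '' (V ∩ Kᶜ)) :=
    univ_open (hV.inter hU) inter_subset_right hU hK.dRho hK.inj
  have h2 : (0 : ℂ) ∈ ρ '' (V ∩ Kᶜ) := ⟨w0, ⟨hwV, hw⟩, h0⟩
  obtain ⟨ε, hε, hball⟩ := Metric.isOpen_iff.1 h1 0 h2
  have h3 : Tendsto (fun y : ℝ => Real.exp (-y)) atTop (𝓝 0) := Real.tendsto_exp_neg_atTop_nhds_zero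
  obtain ⟨y, hy1, hy2⟩ := ((h3.eventually (gt_mem_nhds hε)).and
    (eventually_ge_atTop (τ 0))).exists
  have hy0 : 0 < y := lt_of_lt_of_le (hτ.pos 0) hy2
  have hyU : (y * I : ℂ) ∈ UHP := by
    show (0 : ℝ) < (y * I : ℂ).im
    simpa using hy0
  have h4 : ρ (Φ (y * I)) = (Real.exp (-y) : ℂ) := by
    rw [hK.left _ hyU, Complex.ofReal_exp]
    congr 1
    push_cast
    linear_combination (y : ℂ) * I_mul_I
  have h5 : ρ (Φ (y * I)) ∈ ρ '' (V ∩ Kᶜ) := by
    apply hball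
    rw [h4, mem_ball_zero_iff, Complex.norm_real, Real.norm_eq_abs, abs_of_pos (Real.exp_pos _)]
    exact hy1
  obtain ⟨w, ⟨hwV', hwK⟩, hw2⟩ := h5
  have h6 : w = Φ (y * I) := hK.inj hwK (hK.mem _ hyU) hw2
  refine ⟨w, hwV', y * I, ?_, h6.symm⟩
  show τ (y * I : ℂ).re ≤ (y * I : ℂ).im
  simpa using hy2

theorem t3c_conn_compl {K : Set ℂ} {Φ ρ : ℂ → ℂ} (hK : Collar K Φ ρ) {c r : ℝ} {τ : ℝ → ℝ}
    (hτ : Depth c r τ) : IsConnected (collar Φ τ ∪ K)ᶜ := by
  have hup : {u : ℂ | τ u.re ≤ u.im} ⊆ UHP := fun u hu => lt_of_lt_of_le (hτ.pos _) hu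
  have hA : IsConnected (Φ '' {u | τ u.re ≤ u.im}) :=
    (below_conn hτ.smooth.continuous hτ.pos).2.2.image Φ (t3c_cont hK hup)
  rw [t3c_compl hK hτ]
  refine hA.subset_closure subset_union_left (union_subset subset_closure ?_)
  rintro w ⟨hw, h0⟩
  exact t3c_limit hK hτ hw h0

theorem collar_facts {K : Set ℂ} {Φ ρ : ℂ → ℂ} (hK : Collar K Φ ρ)
    (hb : Bornology.IsBounded K ∨ Bornology.IsBounded Kᶜ) {c r : ℝ} {τ : ℝ → ℝ}
    (hτ : Depth c r τ) :
    IsOpen (collar Φ τ) ∧ IsOpen (collar Φ τ ∪ K) ∧ IsConnected (collar Φ τ) ∧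
      IsConnected (collar Φ τ ∪ K) ∧ IsConnected (collar Φ τ ∪ K)ᶜ ∧ Disjoint (collar Φ τ) K := by
  have hbelow := below_conn hτ.smooth.continuous hτ.pos
  have h1 : IsOpen (collar Φ τ) := t3c_open hK hbelow.1 (t3c_below_sub τ)
  have h2 : IsConnected (collar Φ τ) :=
    hbelow.2.1.image Φ (t3c_cont hK (t3c_below_sub τ))
  exact ⟨h1, t3c_open_union hK hb hτ h1, h2, t3c_conn_union hK hb hτ h2, t3c_conn_compl hK hτ,
    t3c_disj hK τ⟩

end CF6

end

section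

/-! # T3d: small collars -/

open Complex Set Filter Topology Metric

namespace CF6

/-- a point at distance less than `d0 / 2` from `K i` has distance at least `d0 / 2` from `K m`. -/
theorem T3d_CollarSmall_far {k : ℕ} {Ωs : Set ℂ} {K : Fin k → Set ℂ} (H' : Comps Ωs K) {i : Fin k}
    {d0 : ℝ} (hsep : ∀ i j, i ≠ j → ∀ x ∈ K i, ∀ y ∈ K j, d0 ≤ dist x y) {w : ℂ}
    (hw : infDist w (K i) < d0 / 2) {m : Fin k} (hm : m ≠ i) : d0 / 2 ≤ infDist w (K m) := by
  rw [le_infDist (H'.cconn m).nonempty]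
  obtain ⟨x, hx, hxw⟩ := (infDist_lt_iff (H'.cconn i).nonempty).1 hw
  intro y hy
  have h1 := hsep i m (Ne.symm hm) x hx y hy
  have h2 := dist_triangle x w y
  rw [dist_comm x w] at h2
  linarith

/-- such a point not in `K i` lies in `Ωs`. -/
theorem T3d_CollarSmall_mem {k : ℕ} {Ωs : Set ℂ} {K : Fin k → Set ℂ} (H' : Comps Ωs K) {i : Fin k}
    {d0 : ℝ} (hd0 : 0 < d0) (hsep : ∀ i j, i ≠ j → ∀ x ∈ K i, ∀ y ∈ K j, d0 ≤ dist x y) {w : ℂ}
    (hw : infDist w (K i) < d0 / 2) (hwi : w ∉ K i) : w ∈ Ωs := by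
  by_contra hno
  have h1 : w ∈ ⋃ j, K j := by
    rw [H'.union]
    exact hno
  obtain ⟨j, hj⟩ := Set.mem_iUnion.1 h1
  by_cases hji : j = i
  · rw [hji] at hj
    exact hwi hj
  · have h2 := T3d_CollarSmall_far H' hsep hw hji
    have h3 : infDist w (K j) = 0 := infDist_zero_of_mem hj
    linarith

/-- For small `y2`: the collars are contained in `Ωs`, close to `K i`, away from the other components.
`d` from `Comps.sep` for `K`; `phi_near` with `min (d/2) r0`: `y2 = y1 / 2`, `Φ u ∉ K i`, `infDist (Φ u) (K i) < d/2`, so `Φ u ∉ K m`. `nontrivial`: the points `Φ (y I)`, `y2 < y < 2 y2`, are in `(S ∪ K i)ᶜ ∩ Ωs`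
(`mem_collar_iff`, `le`), different by `left`. -/
theorem collar_small {k : ℕ} {Ωs : Set ℂ} {K : Fin k → Set ℂ} (H' : Comps Ωs K) {i : Fin k}
    {Φ ρ : ℂ → ℂ} (hK : Collar (K i) Φ ρ) {r0 : ℝ} (hr0 : 0 < r0) :
    ∃ y2 > (0 : ℝ), ∃ d > (0 : ℝ), ∀ (c r : ℝ) (τ : ℝ → ℝ), Depth c r τ → r ≤ y2 →
      collar Φ τ ⊆ Ωs ∧ (∀ w ∈ collar Φ τ, infDist w (K i) < r0) ∧
      (∀ w ∈ collar Φ τ ∪ K i, ∀ m, m ≠ i → d ≤ infDist w (K m)) ∧
      ((collar Φ τ ∪ K i)ᶜ ∩ Ωs).Nontrivial := by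
  obtain ⟨d0, hd0, hsep⟩ := H'.sep
  obtain ⟨y1, hy1, hnear⟩ := phi_near hK (H'.alt i) (lt_min (half_pos hd0) hr0)
  have hU : ∀ u : ℂ, 0 < u.im → u ∈ UHP := fun u hu => hu
  have key : ∀ u : ℂ, 0 < u.im → u.im ≤ y1 →
      Φ u ∉ K i ∧ infDist (Φ u) (K i) < d0 / 2 ∧ infDist (Φ u) (K i) < r0 ∧ Φ u ∈ Ωs := by
    intro u hu hu1
    have h1 := hnear u hu hu1
    have h2 := lt_of_lt_of_le h1 (min_le_left _ _)
    have h3 := lt_of_lt_of_le h1 (min_le_right _ _)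
    have h4 := hK.mem u (hU u hu)
    exact ⟨h4, h2, h3, T3d_CollarSmall_mem H' hd0 hsep h2 h4⟩
  refine ⟨y1 / 2, half_pos hy1, d0 / 2, half_pos hd0, ?_⟩
  intro c r τ hτ hr
  have hsub : ∀ u ∈ below τ, 0 < u.im ∧ u.im ≤ y1 := by
    intro u hu
    refine ⟨hu.1, ?_⟩
    have h1 := hu.2
    have h2 := hτ.le u.re
    linarith
  refine ⟨?_, ?_, ?_, ?_⟩
  · rintro w ⟨u, hu, rfl⟩
    exact (key u (hsub u hu).1 (hsub u hu).2).2.2.2
  · rintro w ⟨u, hu, rfl⟩
    exact (key u (hsub u hu).1 (hsub u hu).2).2.2.1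
  · intro w hw m hm
    refine T3d_CollarSmall_far H' hsep ?_ hm
    rcases hw with ⟨u, hu, rfl⟩ | hw
    · exact (key u (hsub u hu).1 (hsub u hu).2).2.1
    · rw [infDist_zero_of_mem hw]
      exact half_pos hd0
  · have hout : ∀ y : ℝ, y1 / 2 ≤ y → y ≤ y1 → Φ (y * I) ∈ (collar Φ τ ∪ K i)ᶜ ∩ Ωs := by
      intro y h1 h2
      have him : ((y : ℂ) * I).im = y := by simp
      have hpos : 0 < ((y : ℂ) * I).im := by
        rw [him]
        linarith
      have h3 := key ((y : ℂ) * I) hpos (by rw [him]; exact h2)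
      refine ⟨?_, h3.2.2.2⟩
      rintro (h4 | h4)
      · have h5 := (mem_collar_iff hK hτ hpos).1 h4
        rw [him] at h5
        have h6 := hτ.le ((y : ℂ) * I).re
        linarith
      · exact h3.1 h4
    refine ⟨Φ ((y1 : ℝ) * I), hout y1 (by linarith) le_rfl, Φ (((y1 / 2 : ℝ) : ℂ) * I),
      hout (y1 / 2) le_rfl (by linarith), ?_⟩
    intro heq
    have e1 := hK.left ((y1 : ℂ) * I) (hU _ (by simpa using hy1))
    have e2 := hK.left (((y1 / 2 : ℝ) : ℂ) * I) (hU _ (by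
      rw [Complex.mul_I_im, Complex.ofReal_re]
      exact half_pos hy1))
    rw [heq, e2] at e1
    have n1 := congrArg norm e1
    rw [Complex.norm_exp, Complex.norm_exp, Real.exp_eq_exp] at n1
    have m1 : (I * (((y1 / 2 : ℝ) : ℂ) * I)).re = - (y1 / 2) := by
      rw [Complex.I_mul_re, Complex.mul_I_im, Complex.ofReal_re]
    have m2 : (I * ((y1 : ℂ) * I)).re = - y1 := by
      rw [Complex.I_mul_re, Complex.mul_I_im, Complex.ofReal_re]
    rw [m1, m2] at n1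
    linarith

end CF6

end

section

/-!
# T4: the lift `G` of `g ∘ ψ`

`A = dom Ω S (K i) h`, `S = collar Φ τ`. For `x ∈ A`: if `h x ∈ K`: `‖g x‖ = 1`; if `h x ∈ S`: `g x = ρ (h x) = exp (I u) ≠ 0`, `h x = Φ u`, `u ∈ below τ` (`limData_basic_thm`, `left`). So `g ∘ ψ` is continuous and nonvanishing on the strip;
`strip_log` (`strip T = vstrip 0 T`): `ℓ`, `G = -I * ℓ`. `im G z = - log ‖g (ψ z)‖ ≥ 0`. If `im G z > 0` then `‖g‖ < 1`, `h (ψ z) ∉ K`, `h (ψ z) = Φ u`, `u ∈ below τ`, `exp (I u) = exp (I G z)`, `G z = u + 2π n`: `im G z < τ (re G z)`, and `h (ψ z) = Φ (G z)`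
(`phi_of_rho`). If `im G z = 0` clear (`τ > 0`). `strip_int_period` gives `m`.
-/

open Complex Set Filter Topology Metric

namespace CF6

theorem T4_LiftG_norm (u : ℂ) : ‖exp (I * u)‖ = Real.exp (-u.im) := by
  rw [Complex.norm_exp]
  simp

theorem exists_liftG {Ω K L M : Set ℂ} {Φ ρ h g ψ : ℂ → ℂ} {hj : ℕ → ℂ → ℂ} {τ : ℝ → ℝ} {c r T : ℝ}
    (hK : Collar K Φ ρ) (lim : LimData Ω K ρ h g hj) (hτ : Depth c r τ)
    (ch : StripChart (dom Ω (collar Φ τ) K h) L M T ψ) :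
    ∃ G : ℂ → ℂ, ContinuousOn G (strip T) ∧ (∀ z ∈ strip T, exp (I * G z) = g (ψ z)) ∧
      (∀ z ∈ strip T, 0 ≤ (G z).im ∧ (G z).im < τ (G z).re) ∧
      (∀ z ∈ strip T, 0 < (G z).im → h (ψ z) = Φ (G z)) ∧
      (∀ z ∈ strip T, (G z).im = 0 → h (ψ z) ∈ K) ∧
      ∃ m : ℤ, ∀ z ∈ strip T, G (z + 2 * Real.pi * I) = G z + 2 * Real.pi * m := by
  obtain ⟨_, cg, hle, hiff, hrho⟩ := limData_basic_thm hK lim
  have hA : ∀ z ∈ strip T, ψ z ∈ Ω ∧ h (ψ z) ∈ collar Φ τ ∪ K := by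
    intro z hz
    have h1 : ψ z ∈ dom Ω (collar Φ τ) K h := by
      rw [← ch.image]
      exact ⟨z, hz, rfl⟩
    exact h1
  have hS : ∀ z ∈ strip T, h (ψ z) ∉ K → ∃ u ∈ below τ, Φ u = h (ψ z) ∧ exp (I * u) = g (ψ z) := by
    intro z hz hn
    obtain ⟨h1, h2⟩ := hA z hz
    rcases h2 with h2 | h2
    · obtain ⟨u, hu, hu2⟩ := h2
      refine ⟨u, hu, hu2, ?_⟩
      rw [← hrho _ h1 hn, ← hu2]
      exact (hK.left u hu.1).symm
    · exact absurd h2 hn
  have h0 : ∀ z ∈ vstrip 0 T, g (ψ z) ≠ 0 := by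
    intro z hz
    by_cases hn : h (ψ z) ∈ K
    · have h1 := (hiff _ (hA z hz).1).1 hn
      intro h2
      rw [h2, norm_zero] at h1
      exact zero_ne_one h1
    · obtain ⟨u, _, _, hu⟩ := hS z hz hn
      rw [← hu]
      exact exp_ne_zero _
  have hcont : ContinuousOn (fun z => g (ψ z)) (vstrip 0 T) :=
    cg.comp ch.diff.continuousOn (fun z hz => (hA z hz).1)
  obtain ⟨ℓ, cℓ, hℓ⟩ := strip_log ch.pos hcont h0
  obtain ⟨m, hm⟩ := strip_int_period ch.pos cℓ hℓ (fun z hz => by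
    rw [ch.per z hz])
  have hG : ∀ z ∈ strip T, exp (I * (-I * ℓ z)) = g (ψ z) := by
    intro z hz
    rw [← hℓ z hz]
    congr 1
    rw [← mul_assoc, mul_neg, I_mul_I, neg_neg, one_mul]
  have hn1 : ∀ z ∈ strip T, ‖g (ψ z)‖ = Real.exp (-(-I * ℓ z).im) := by
    intro z hz
    rw [← hG z hz, T4_LiftG_norm]
  have him : ∀ z ∈ strip T, 0 ≤ (-I * ℓ z).im := by
    intro z hz
    have h1 := hle _ (hA z hz).1
    rw [hn1 z hz, Real.exp_le_one_iff] at h1
    linarith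
  have hKc : ∀ z ∈ strip T, h (ψ z) ∈ K → (-I * ℓ z).im = 0 := by
    intro z hz hk
    have h1 := (hiff _ (hA z hz).1).1 hk
    rw [hn1 z hz, Real.exp_eq_one_iff] at h1
    linarith
  have hnK : ∀ z ∈ strip T, h (ψ z) ∉ K → 0 < (-I * ℓ z).im ∧ (-I * ℓ z).im < τ (-I * ℓ z).re := by
    intro z hz hn
    obtain ⟨u, hu, _, hu2⟩ := hS z hz hn
    rw [← hG z hz, exp_eq_exp_iff_exists_int] at hu2
    obtain ⟨n, hn2⟩ := hu2
    have h1 : u = -I * ℓ z + ((n * (2 * Real.pi) : ℝ) : ℂ) := by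
      apply mul_left_cancel₀ I_ne_zero
      rw [hn2]
      push_cast
      ring
    have h2 : u.im = (-I * ℓ z).im := by
      rw [h1, add_im, ofReal_im, add_zero]
    have h3 : u.re = (-I * ℓ z).re + n * (2 * Real.pi) := by
      rw [h1, add_re, ofReal_re]
    have hper : Function.Periodic τ (2 * Real.pi) := hτ.per
    have h4 : τ u.re = τ (-I * ℓ z).re := by
      rw [h3]
      exact hper.int_mul n _
    rw [← h2, ← h4]
    exact hu
  refine ⟨fun z => -I * ℓ z, continuousOn_const.mul cℓ, hG, ?_, ?_, ?_, m, ?_⟩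
  · intro z hz
    refine ⟨him z hz, ?_⟩
    by_cases hn : h (ψ z) ∈ K
    · have h1 := hKc z hz hn
      change (-I * ℓ z).im < τ (-I * ℓ z).re
      rw [h1]
      exact hτ.pos _
    · exact (hnK z hz hn).2
  · intro z hz hpos
    have hn : h (ψ z) ∉ K := by
      intro hn
      have h1 := hKc z hz hn
      change 0 < (-I * ℓ z).im at hpos
      linarith
    exact (phi_of_rho hK hn ((hG z hz).trans (hrho _ (hA z hz).1 hn).symm) hpos).symm
  · intro z hz hzero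
    by_contra hn
    have h1 := (hnK z hz hn).1
    change (-I * ℓ z).im = 0 at hzero
    linarith
  · intro z hz
    change -I * ℓ (z + 2 * Real.pi * I) = -I * ℓ z + 2 * Real.pi * m
    rw [hm z hz]
    linear_combination (-(2 * Real.pi * m) : ℂ) * I_mul_I

end CF6

end

section

/-!
# T5: the degree of the lift `G` is ±1

The lift `G` of `g ∘ ψ` is compared near `L i` with the logarithm of `ρ ∘ hj j ∘ ψ` for one large `j`; the latter is
injective modulo the period and covers a strip, so `degree_one` applies.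
-/

open Complex Set Filter Topology Metric

namespace CF6

/-- a continuous function on the line with values in the multiples of `2πi` is constant -/
theorem t5_const {D : ℝ → ℂ} (hD : Continuous D) (h : ∀ y, exp (D y) = 1) (a b : ℝ) :
    D a = D b := by
  have h1 : ∀ y, ∃ n : ℤ, D y = n * (2 * Real.pi * I) := fun y => Complex.exp_eq_one_iff.mp (h y)
  choose n hn using h1
  have hn' : ∀ y, ((n y : ℤ) : ℝ) = (D y).im / (2 * Real.pi) := by
    intro y
    have hpi := Real.pi_pos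
    rw [hn y]
    have e : ((n y : ℂ) * (2 * Real.pi * I)).im = (n y : ℝ) * (2 * Real.pi) := by
      simp [Complex.mul_im]
    rw [e]
    field_simp
  have hc : Continuous n := by
    rw [Int.isClosedEmbedding_coe_real.isEmbedding.continuous_iff]
    have e : ((fun k : ℤ => (k : ℝ)) ∘ n) = fun y => (D y).im / (2 * Real.pi) := by
      funext y
      exact hn' y
    rw [e]
    exact (Complex.continuous_im.comp hD).div_const _
  have h2 : n a = n b := isPreconnected_univ.constant hc.continuousOn (mem_univ a) (mem_univ b)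
  rw [hn a, hn b, h2]

/-- the two degrees agree -/
theorem t5_deg {T t0 t1 : ℝ} (h01 : t0 < t1) (h1T : t1 < T) (h0 : 0 ≤ t0) {f ℓ gψ G : ℂ → ℂ}
    (cf : ContinuousOn f (vstrip t0 T)) (cℓ : ContinuousOn ℓ (vstrip t0 T))
    (he : ∀ z ∈ vstrip t0 T, exp (ℓ z) = f z) (cg : ContinuousOn gψ (strip T))
    (cG : ContinuousOn G (strip T)) (eG : ∀ z ∈ strip T, exp (I * G z) = gψ z)
    (near : ∀ z : ℂ, z.re = t1 → ‖f z / gψ z - 1‖ < 1 / 2)
    (fper : ∀ z ∈ vstrip t0 T, f (z + 2 * Real.pi * I) = f z)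
    (gper : ∀ z ∈ strip T, gψ (z + 2 * Real.pi * I) = gψ z) {m m' : ℤ}
    (per : ∀ z ∈ strip T, G (z + 2 * Real.pi * I) = G z + 2 * Real.pi * m)
    (per' : ∀ z ∈ vstrip t0 T, ℓ (z + 2 * Real.pi * I) = ℓ z + 2 * Real.pi * m' * I) : m' = m := by
  set z : ℝ → ℂ := fun y => t1 + y * I with hz
  have zre : ∀ y, (z y).re = t1 := fun y => by simp [hz]
  have zc : Continuous z := by fun_prop
  have zv : ∀ y, z y ∈ vstrip t0 T := fun y => ⟨by rw [zre]; exact h01, by rw [zre]; exact h1T⟩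
  have zs : ∀ y, z y ∈ strip T := fun y => ⟨by rw [zre]; linarith, by rw [zre]; exact h1T⟩
  have g0 : ∀ y, gψ (z y) ≠ 0 := fun y => by
    rw [← eG _ (zs y)]
    exact Complex.exp_ne_zero _
  have f0 : ∀ y, f (z y) ≠ 0 := fun y => by
    rw [← he _ (zv y)]
    exact Complex.exp_ne_zero _
  have cfz : Continuous (fun y => f (z y)) :=
    continuousOn_univ.mp (cf.comp zc.continuousOn fun y _ => zv y)
  have cgz : Continuous (fun y => gψ (z y)) :=
    continuousOn_univ.mp (cg.comp zc.continuousOn fun y _ => zs y)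
  have cℓz : Continuous (fun y => ℓ (z y)) :=
    continuousOn_univ.mp (cℓ.comp zc.continuousOn fun y _ => zv y)
  have cGz : Continuous (fun y => G (z y)) :=
    continuousOn_univ.mp (cG.comp zc.continuousOn fun y _ => zs y)
  have hslit : ∀ y, f (z y) / gψ (z y) ∈ slitPlane := by
    intro y
    left
    have h1 := near (z y) (zre y)
    have h2 := (Complex.abs_re_le_norm (f (z y) / gψ (z y) - 1)).trans_lt h1
    rw [Complex.sub_re, Complex.one_re] at h2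
    have := (abs_lt.mp h2).1
    linarith
  have cq : Continuous (fun y => f (z y) / gψ (z y)) := cfz.div cgz g0
  have clog : Continuous (fun y => Complex.log (f (z y) / gψ (z y))) := cq.clog hslit
  have cD : Continuous (fun y => ℓ (z y) - I * G (z y) - Complex.log (f (z y) / gψ (z y))) :=
    (cℓz.sub (continuous_const.mul cGz)).sub clog
  have hD : ∀ y, exp (ℓ (z y) - I * G (z y) - Complex.log (f (z y) / gψ (z y))) = 1 := by
    intro y
    rw [Complex.exp_sub, Complex.exp_sub, he _ (zv y), eG _ (zs y),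
      Complex.exp_log (div_ne_zero (f0 y) (g0 y))]
    exact div_self (div_ne_zero (f0 y) (g0 y))
  have hconst := t5_const cD hD 0 (2 * Real.pi)
  have hz2 : z (2 * Real.pi) = z 0 + 2 * Real.pi * I := by
    simp only [hz]
    push_cast
    ring
  rw [hz2, per _ (zs 0), per' _ (zv 0), fper _ (zv 0), gper _ (zs 0)] at hconst
  have h3 : (2 * Real.pi * m' * I : ℂ) = 2 * Real.pi * m * I := by
    linear_combination -hconst
  have hpi : (2 * Real.pi * I : ℂ) ≠ 0 := Complex.two_pi_I_ne_zero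
  have h4 : (m' : ℂ) = (m : ℂ) := by
    apply mul_left_cancel₀ hpi
    linear_combination h3
  exact_mod_cast h4

theorem deg_liftG {k : ℕ} {Ω Ωs : Set ℂ} {L K : Fin k → Set ℂ} {h g Φ ρ : ℂ → ℂ}
    {hj : ℕ → ℂ → ℂ} (H : Approx Ω Ωs L K h hj) (i : Fin k) (hK : Collar (K i) Φ ρ)
    (lim : LimData Ω (K i) ρ h g hj) {τ : ℝ → ℝ} {c r T : ℝ} {ψ : ℂ → ℂ} (hτ : Depth c r τ)
    (hS : collar Φ τ ⊆ Ωs)
    (ch : StripChart (dom Ω (collar Φ τ) (K i) h) (L i) (dom Ω (collar Φ τ) (K i) h ∪ L i)ᶜ T ψ)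
    (nM : (dom Ω (collar Φ τ) (K i) h ∪ L i)ᶜ.Nonempty) {G : ℂ → ℂ}
    (cG : ContinuousOn G (strip T)) (eG : ∀ z ∈ strip T, exp (I * G z) = g (ψ z)) {m : ℤ}
    (per : ∀ z ∈ strip T, G (z + 2 * Real.pi * I) = G z + 2 * Real.pi * m) :
    m = 1 ∨ m = -1 := by
  set A := dom Ω (collar Φ τ) (K i) h with hA
  have alt := Comps.alt H.tgt i
  obtain ⟨-, oS, -, -, -, -⟩ := collar_facts hK alt hτ
  have hAeq : A = Ω ∩ h ⁻¹' (collar Φ τ ∪ K i) := rfl
  obtain ⟨oA, oAL⟩ := H.collar_isOpen i hS oS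
  rw [← hAeq] at oA oAL
  have hAΩ : A ⊆ Ω := fun x hx => hx.1
  have bA : Bornology.IsBounded A := H.dom.bdd.subset hAΩ
  have hLΩ : L i ⊆ Ωᶜ := a02_sub H.dom i
  have nL : (L i).Nonempty := (H.dom.cconn i).nonempty
  have dis : Disjoint (L i) (A ∪ L i)ᶜ := by
    rw [Set.disjoint_left]
    intro x hx hx'
    exact hx' (Or.inr hx)
  have un : L i ∪ (A ∪ L i)ᶜ = Aᶜ := by
    ext x
    constructor
    · rintro (hx | hx)
      · exact fun hxA => hLΩ hx (hAΩ hxA)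
      · exact fun hxA => hx (Or.inl hxA)
    · intro hx
      by_cases hxL : x ∈ L i
      · exact Or.inl hxL
      · right
        rintro (h1 | h1)
        · exact hx h1
        · exact hxL h1
  have hψA : ∀ z ∈ strip T, ψ z ∈ A := fun z hz => ch.image ▸ mem_image_of_mem ψ hz
  have hψΩ : ∀ z ∈ strip T, ψ z ∈ Ω := fun z hz => hAΩ (hψA z hz)
  have cψ : ContinuousOn ψ (strip T) := ch.diff.continuousOn
  have hT := ch.pos
  -- part (a)
  obtain ⟨δ, hδ, hδρ⟩ := rho_near hK alt (c := 1 / 2) (by norm_num)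
  obtain ⟨κ0, hκ0, j0, hends⟩ := H.ends δ hδ
  obtain ⟨η, hη, hηL⟩ := ch.endL κ0 hκ0
  set t0 : ℝ := max (T / 2) (T - η / 2) with ht0
  have ht0pos : 0 < t0 := lt_of_lt_of_le (by linarith) (le_max_left _ _)
  have ht0T : t0 < T := max_lt (by linarith) (by linarith)
  have ht0η : T - η < t0 := lt_of_lt_of_le (by linarith) (le_max_right _ _)
  have hvs : ∀ z ∈ vstrip t0 T, z ∈ strip T := fun z hz => ⟨ht0pos.trans hz.1, hz.2⟩
  have hne : ∀ j ≥ j0, ∀ z ∈ vstrip t0 T, ρ (hj j (ψ z)) ≠ 0 := by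
    intro j hj1 z hz
    have hzs := hvs z hz
    have h1 := hηL z hzs (ht0η.trans hz.1)
    have h2 := (hends i (ψ z) (hψΩ z hzs) h1).1 j hj1
    have h3 := hδρ _ (lim.avoid j (hψΩ z hzs)) h2
    intro h0
    rw [h0, norm_zero] at h3
    linarith
  -- part (b)
  set t1 : ℝ := (t0 + T) / 2 with ht1
  have h01 : t0 < t1 := by rw [ht1]; linarith
  have h1T : t1 < T := by rw [ht1]; linarith
  obtain ⟨-, cg, -, -, -⟩ := limData_basic_thm hK lim
  have hg0 : ∀ z ∈ strip T, g (ψ z) ≠ 0 := fun z hz => by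
    rw [← eG z hz]
    exact Complex.exp_ne_zero _
  set Z1 : Set ℂ := (fun y : ℝ => (t1 + y * I : ℂ)) '' Icc 0 (2 * Real.pi) with hZ1
  have cZ1 : IsCompact Z1 := isCompact_Icc.image (by fun_prop)
  have hZs : Z1 ⊆ strip T := by
    rintro _ ⟨y, -, rfl⟩
    constructor
    · simp only [add_re, ofReal_re, mul_re, I_re, mul_zero, ofReal_im, I_im, mul_one, sub_self,
        add_zero]
      linarith
    · simp only [add_re, ofReal_re, mul_re, I_re, mul_zero, ofReal_im, I_im, mul_one, sub_self,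
        add_zero]
      exact h1T
  have cQ : IsCompact (ψ '' Z1) := cZ1.image_of_continuousOn (cψ.mono hZs)
  have hQΩ : ψ '' Z1 ⊆ Ω := by
    rintro _ ⟨z, hz, rfl⟩
    exact hψΩ z (hZs hz)
  have nQ : (ψ '' Z1).Nonempty := by
    refine ⟨ψ ((t1 : ℂ) + ((0 : ℝ) : ℂ) * I), mem_image_of_mem ψ ⟨0, ⟨le_rfl, by positivity⟩, rfl⟩⟩
  obtain ⟨x0, hx0, hmin⟩ := cQ.exists_isMinOn nQ (cg.mono hQΩ).norm
  have hc1 : 0 < ‖g x0‖ := by
    obtain ⟨z, hz, rfl⟩ := hx0
    exact norm_pos_iff.mpr (hg0 z (hZs hz))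
  have hunif : TendstoUniformlyOn (fun j x => ρ (hj j x)) g atTop (ψ '' Z1) :=
    (tendstoLocallyUniformlyOn_iff_forall_isCompact H.dom.isOpen).mp lim.glim _ hQΩ cQ
  rw [Metric.tendstoUniformlyOn_iff] at hunif
  obtain ⟨j, hjQ, hjj0⟩ :=
    ((hunif (‖g x0‖ / 2) (by positivity)).and (eventually_ge_atTop j0)).exists
  have hperψ : ∀ z ∈ strip T, ∀ n : ℤ, ψ (z + 2 * Real.pi * n * I) = ψ z :=
    fun z hz n => a28a_per (a28a_strip_per T) ch.per n z hz
  have near : ∀ z : ℂ, z.re = t1 → ‖ρ (hj j (ψ z)) / g (ψ z) - 1‖ < 1 / 2 := by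
    intro z hz
    have hzs : z ∈ strip T := ⟨by rw [hz]; linarith, by rw [hz]; exact h1T⟩
    have hpi := Real.two_pi_pos
    obtain ⟨n, hn1, hn2⟩ : ∃ n : ℤ, 0 ≤ z.im + 2 * Real.pi * n ∧ z.im + 2 * Real.pi * n ≤ 2 * Real.pi := by
      refine ⟨-⌊z.im / (2 * Real.pi)⌋, ?_, ?_⟩
      · have h1 := Int.floor_le (z.im / (2 * Real.pi))
        rw [le_div_iff₀ hpi] at h1
        push_cast
        linarith
      · have h1 := (Int.lt_floor_add_one (z.im / (2 * Real.pi))).le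
        rw [div_le_iff₀ hpi] at h1
        push_cast
        linarith
    have hmem : z + 2 * Real.pi * n * I ∈ Z1 := by
      refine ⟨z.im + 2 * Real.pi * n, ⟨hn1, hn2⟩, ?_⟩
      apply Complex.ext
      · simp [hz]
      · simp
    have e := hperψ z hzs n
    have hQ : ψ z ∈ ψ '' Z1 := by
      rw [← e]
      exact mem_image_of_mem ψ hmem
    have h1 := hjQ (ψ z) hQ
    have h2 : ‖g x0‖ ≤ ‖g (ψ z)‖ := hmin hQ
    have hg := hg0 z hzs
    have hgp : 0 < ‖g (ψ z)‖ := norm_pos_iff.mpr hg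
    rw [dist_eq_norm, norm_sub_rev] at h1
    have e2 : ρ (hj j (ψ z)) / g (ψ z) - 1 = (ρ (hj j (ψ z)) - g (ψ z)) / g (ψ z) := by
      field_simp
    rw [e2, norm_div, div_lt_iff₀ hgp]
    linarith
  -- part (c)
  have hΩsK : Ωs ⊆ (K i)ᶜ := by
    intro w hw hwK
    exact a02_sub H.tgt i hwK hw
  obtain ⟨chj, bij, inv, cinv, hinv⟩ := H.homeo j
  have cf : ContinuousOn (fun z => ρ (hj j (ψ z))) (vstrip t0 T) := by
    have h1 : ContinuousOn (fun z => hj j (ψ z)) (vstrip t0 T) :=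
      chj.comp (cψ.mono hvs) fun z hz => hψΩ z (hvs z hz)
    exact hK.dRho.continuousOn.comp h1 fun z hz => lim.avoid j (hψΩ z (hvs z hz))
  obtain ⟨ℓ, cℓ, hℓ⟩ := strip_log ht0T cf (hne j hjj0)
  have fper : ∀ z ∈ vstrip t0 T, (fun z => ρ (hj j (ψ z))) (z + 2 * Real.pi * I) =
      (fun z => ρ (hj j (ψ z))) z := by
    intro z hz
    simp only
    rw [ch.per z (hvs z hz)]
  obtain ⟨m', hm'⟩ := strip_int_period ht0T cℓ hℓ fper
  have cgψ : ContinuousOn (fun z => g (ψ z)) (strip T) := cg.comp cψ hψΩ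
  have hmm : m' = m := t5_deg h01 h1T ht0pos.le cf cℓ hℓ cgψ cG eG near fper
    (fun z hz => by rw [ch.per z hz]) per hm'
  rw [← hmm]
  -- part (e)
  obtain ⟨κ1, hκ1, hfar⟩ := ch.far_L bA (H.dom.closed i) nL oAL.isClosed_compl nM dis un ht0T
  obtain ⟨κ2, hκ2, hnear⟩ := H.near i hS oS
  obtain ⟨κ3, hκ3, hback⟩ := H.back j i (min κ1 κ2) (lt_min hκ1 hκ2)
  obtain ⟨d, hd, hsep⟩ := H.tgt.sep
  obtain ⟨y1, hy1, hphi⟩ := phi_near hK alt (lt_min hκ3 hd)
  refine degree_one (X := vstrip t0 T) (D := {u : ℂ | -y1 < u.re ∧ u.re < 0})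
    (F := fun z => ρ (hj j (ψ z))) (ℓ := ℓ) ?_ ?_ cℓ hℓ hm' ?_ ?_ ?_ ?_ ?_ ?_
  · exact (isOpen_lt continuous_const Complex.continuous_re).inter
      (isOpen_lt Complex.continuous_re continuous_const)
  · intro z
    simp [vstrip]
  · intro z hz w hw hzw
    have h1 := hK.inj (lim.avoid j (hψΩ z (hvs z hz))) (lim.avoid j (hψΩ w (hvs w hw))) hzw
    have h2 := bij.injOn (hψΩ z (hvs z hz)) (hψΩ w (hvs w hw)) h1
    exact ch.inj z (hvs z hz) w (hvs w hw) h2
  · intro V hV oV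
    have hVs : V ⊆ strip T := fun z hz => hvs z (hV hz)
    have oψV := ch.local.2.2 V hVs oV
    have hψVΩ : ψ '' V ⊆ Ω := by
      rintro _ ⟨z, hz, rfl⟩
      exact hψΩ z (hVs hz)
    have e1 : hj j '' (ψ '' V) = Ωs ∩ inv ⁻¹' (ψ '' V) := by
      ext y
      constructor
      · rintro ⟨x, hx, rfl⟩
        refine ⟨bij.mapsTo (hψVΩ hx), ?_⟩
        show inv (hj j x) ∈ ψ '' V
        rw [hinv.1 (hψVΩ hx)]
        exact hx
      · rintro ⟨hy, hy'⟩
        exact ⟨inv y, hy', hinv.2 hy⟩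
    have o1 : IsOpen (hj j '' (ψ '' V)) := by
      rw [e1]
      exact cinv.isOpen_inter_preimage H.tgt.isOpen oψV
    have hs1 : hj j '' (ψ '' V) ⊆ (K i)ᶜ := by
      rw [e1]
      exact fun y hy => hΩsK hy.1
    have o2 := univ_open o1 hs1 hK.closed.isOpen_compl hK.dRho hK.inj
    have e2 : (fun z => ρ (hj j (ψ z))) '' V = ρ '' (hj j '' (ψ '' V)) := by
      rw [image_image, image_image]
    rw [e2]
    exact o2
  · apply Convex.isPreconnected
    exact (convex_halfSpace_re_gt (-y1)).inter (convex_halfSpace_re_lt 0)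
  · refine ⟨((-y1 / 2 : ℝ) : ℂ), ?_, ?_⟩
    · rw [Complex.ofReal_re]
      linarith
    · rw [Complex.ofReal_re]
      linarith
  · intro z
    simp
  · rintro _ ⟨u, ⟨hu1, hu2⟩, rfl⟩
    set v : ℂ := -I * u with hv
    have hvim : v.im = -u.re := by
      rw [hv]
      simp
    have hexp : exp (I * v) = exp u := by
      congr 1
      rw [hv, ← mul_assoc, mul_neg, I_mul_I, neg_neg, one_mul]
    have hv0 : 0 < v.im := by rw [hvim]; linarith
    have hvU : v ∈ UHP := hv0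
    have hw1 := hphi v hv0 (by rw [hvim]; linarith)
    have hwK := hK.mem v hvU
    have hwΩ : Φ v ∈ Ωs := by
      by_contra hnot
      have h1 : Φ v ∈ ⋃ m, K m := by
        rw [H.tgt.union]
        exact hnot
      rw [mem_iUnion] at h1
      obtain ⟨m2, hm2⟩ := h1
      have hne2 : m2 ≠ i := by
        rintro rfl
        exact hwK hm2
      have h2 : d ≤ infDist (Φ v) (K i) := by
        rw [Metric.le_infDist hK.conn.nonempty]
        intro y hy
        exact hsep m2 i hne2 _ hm2 y hy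
      have h3 := lt_of_lt_of_le hw1 (min_le_right κ3 d)
      linarith
    obtain ⟨x, hxΩ, hx⟩ := bij.surjOn hwΩ
    have h3 : infDist (hj j x) (K i) < κ3 := by
      rw [hx]
      exact lt_of_lt_of_le hw1 (min_le_left _ _)
    have h4 := hback x hxΩ h3
    have hxA : x ∈ A := ⟨hxΩ, hnear x hxΩ (lt_of_lt_of_le h4 (min_le_right _ _))⟩
    rw [← ch.image] at hxA
    obtain ⟨z, hz, rfl⟩ := hxA
    have hzt : t0 < z.re := by
      by_contra hle
      rw [not_lt] at hle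
      have h5 := hfar z hz hle
      have h6 := lt_of_lt_of_le h4 (min_le_left κ1 κ2)
      linarith
    refine ⟨z, ⟨hzt, hz.2⟩, ?_⟩
    simp only
    rw [hx, hK.left v hvU, hexp]

end CF6

end

section

/-!
# T6a: Bd

* `cell_bd`: otherwise `zn ∈ strip T`, `zn.re → 0`, `τ (re G) - im G ≥ η` at `zn`. Write `G zn = vn + 2π kn`, `0 ≤ re vn ≤ 2π`; `0 ≤ im vn ≤ sup τ`: subsequence `vn → v`, `0 ≤ v.im ≤ τ v.re - η`. `bdry_M` (A28b): `infDist (h (ψ zn)) (S ∪ K i)ᶜ → 0`. If `v.im > 0`: for large `n`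
  `h (ψ zn) = Φ (G zn) = Φ vn → Φ v ∈ S` (`mem_collar_iff`), `S` open: positive distance to the closed nonempty `(S ∪ K i)ᶜ`; contradiction. If `v.im = 0`: `infDist (h (ψ zn)) (K i) → 0` (either `h (ψ zn) ∈ K i`, or `= Φ (G zn)` with `im G zn → 0`, `phi_near`), but `K i` and `(S ∪ K i)ᶜ` have positive
  distance (`sepT`); contradiction.
-/

open Complex Set Filter Topology Metric

namespace CF6

theorem cell_bd {k : ℕ} {Ω Ωs : Set ℂ} {L K : Fin k → Set ℂ} {h g Φ ρ : ℂ → ℂ}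
    {hj : ℕ → ℂ → ℂ} (H : Approx Ω Ωs L K h hj) (i : Fin k) (hK : Collar (K i) Φ ρ)
    {τ : ℝ → ℝ} {c r T : ℝ} {ψ : ℂ → ℂ} (hτ : Depth c r τ) (hS : collar Φ τ ⊆ Ωs)
    (ch : StripChart (dom Ω (collar Φ τ) (K i) h) (L i) (dom Ω (collar Φ τ) (K i) h ∪ L i)ᶜ T ψ)
    (nM : (dom Ω (collar Φ τ) (K i) h ∪ L i)ᶜ.Nonempty) {G : ℂ → ℂ}
    (lo : ∀ z ∈ strip T, 0 ≤ (G z).im ∧ (G z).im < τ (G z).re)
    (h1 : ∀ z ∈ strip T, 0 < (G z).im → h (ψ z) = Φ (G z))
    (h2 : ∀ z ∈ strip T, (G z).im = 0 → h (ψ z) ∈ K i) {η : ℝ} (hη : 0 < η) :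
    ∃ d > (0 : ℝ), ∀ z ∈ strip T, z.re < d → τ (G z).re - (G z).im < η := by
  have hi := Comps.alt H.tgt i
  obtain ⟨-, oSK, -, -, -, -⟩ := collar_facts hK hi hτ
  obtain ⟨d0, hd0, hsep⟩ := sepT H.tgt i hS oSK
  have perΦ : ∀ u : ℂ, 0 < u.im → ∀ n : ℤ, Φ (u - 2 * Real.pi * n) = Φ u := by
    intro u hu n
    have hu' : 0 < (u - 2 * Real.pi * n).im := by
      have : (u - 2 * Real.pi * n).im = u.im := by
        simp
      rw [this]
      exact hu
    apply phi_of_rho hK (hK.mem u hu) _ hu'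
    rw [hK.left u hu]
    have h3 : I * (u - 2 * Real.pi * n) = I * u - n * (2 * Real.pi * I) := by ring
    rw [h3, Complex.exp_sub, Complex.exp_int_mul_two_pi_mul_I, div_one]
  have perτ : ∀ (x : ℝ) (n : ℤ), τ (x - 2 * Real.pi * n) = τ x := by
    intro x n
    have hp : Function.Periodic τ (2 * Real.pi) := hτ.per
    have h3 := hp.sub_int_mul_eq (x := x) n
    rw [← h3]
    congr 1
    ring
  -- near `K i`
  obtain ⟨y1, hy1, hnear⟩ := phi_near hK hi (show 0 < d0 / 2 by positivity)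
  -- the compact part
  set Q : Set ℂ := {v | 0 ≤ v.re ∧ v.re ≤ 2 * Real.pi ∧ y1 ≤ v.im ∧ v.im ≤ τ v.re - η} with hQ
  have hτc : Continuous τ := hτ.smooth.continuous
  have hQc : IsCompact Q := by
    apply Metric.isCompact_of_isClosed_isBounded
    · have c1 : IsClosed {v : ℂ | 0 ≤ v.re} := isClosed_le continuous_const continuous_re
      have c2 : IsClosed {v : ℂ | v.re ≤ 2 * Real.pi} := isClosed_le continuous_re continuous_const
      have c3 : IsClosed {v : ℂ | y1 ≤ v.im} := isClosed_le continuous_const continuous_im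
      have c4 : IsClosed {v : ℂ | v.im ≤ τ v.re - η} :=
        isClosed_le continuous_im ((hτc.comp continuous_re).sub continuous_const)
      exact c1.inter (c2.inter (c3.inter c4))
    · rw [isBounded_iff_forall_norm_le]
      refine ⟨2 * Real.pi + r, fun v hv => ?_⟩
      obtain ⟨q1, q2, q3, q4⟩ := hv
      have q5 := hτ.le v.re
      refine (norm_le_abs_re_add_abs_im v).trans ?_
      rw [abs_of_nonneg q1, abs_of_nonneg (by linarith)]
      linarith
  have hQb : Q ⊆ below τ := fun v hv => ⟨by linarith [hv.2.2.1], by linarith [hv.2.2.2]⟩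
  have hQU : Q ⊆ UHP := fun v hv => (hQb hv).1
  have hΦQ : IsCompact (Φ '' Q) := hQc.image_of_continuousOn (hK.dPhi.continuousOn.mono hQU)
  have hTc : IsClosed (collar Φ τ ∪ K i)ᶜ := oSK.isClosed_compl
  have hTn : (collar Φ τ ∪ K i)ᶜ.Nonempty := by
    by_contra hcon
    rw [not_nonempty_iff_eq_empty, compl_empty_iff] at hcon
    obtain ⟨x, hx⟩ := nM
    have hx1 : x ∉ Ω := fun hxO => hx (Or.inl ⟨hxO, by rw [hcon]; trivial⟩)
    have hx2 : x ∈ ⋃ m, L m := by rw [H.dom.union]; exact hx1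
    obtain ⟨m, hm⟩ := mem_iUnion.mp hx2
    have hmi : m ≠ i := fun hmi => hx (Or.inr (hmi ▸ hm))
    obtain ⟨y, hy⟩ := (H.tgt.cconn m).nonempty
    have hy1' : y ∈ Ωsᶜ := by rw [← H.tgt.union]; exact mem_iUnion.mpr ⟨m, hy⟩
    have hy2 : y ∈ collar Φ τ ∪ K i := by rw [hcon]; trivial
    rcases hy2 with hy2 | hy2
    · exact hy1' (hS hy2)
    · exact (disjoint_left.mp (H.tgt.disj m i hmi)) hy hy2
  obtain ⟨d1, hd1, hfar⟩ := a02_pair hΦQ hTc hTn (by
    rw [disjoint_left]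
    rintro w ⟨v, hv, rfl⟩ hw
    exact hw (Or.inl ⟨v, hQb hv, rfl⟩))
  have hε : 0 < min (d0 / 2) d1 := lt_min (by positivity) hd1
  obtain ⟨d, hd, hbd⟩ := H.bdry_M i hS oSK ch nM hε
  refine ⟨d, hd, fun z hz hzd => ?_⟩
  by_contra hcon
  rw [not_lt] at hcon
  have hlt := hbd z hz hzd
  obtain ⟨lo1, lo2⟩ := lo z hz
  -- lower bound for the distance
  have hsmall : infDist (h (ψ z)) (K i) < d0 / 2 →
      d0 / 2 ≤ infDist (h (ψ z)) (collar Φ τ ∪ K i)ᶜ := by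
    intro hk
    obtain ⟨x, hx, hxd⟩ := (infDist_lt_iff (H.tgt.cconn i).nonempty).mp hk
    rw [le_infDist hTn]
    intro y hy
    have h3 := hsep x hx y hy
    have h4 := dist_triangle x (h (ψ z)) y
    rw [dist_comm x (h (ψ z))] at h4
    linarith
  rcases le_or_gt (G z).im y1 with him | him
  · have hk : infDist (h (ψ z)) (K i) < d0 / 2 := by
      rcases lo1.eq_or_lt with h0 | h0
      · rw [infDist_zero_of_mem (h2 z hz h0.symm)]
        positivity
      · rw [h1 z hz h0]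
        exact hnear _ h0 him
    have h3 := hsmall hk
    have h4 := min_le_left (d0 / 2) d1
    linarith
  · have hpos : 0 < (G z).im := by linarith
    set n : ℤ := ⌊(G z).re / (2 * Real.pi)⌋ with hn
    have hpi : 0 < 2 * Real.pi := by positivity
    have hn1 : (n : ℝ) * (2 * Real.pi) ≤ (G z).re := by
      have := Int.floor_le ((G z).re / (2 * Real.pi))
      rwa [le_div_iff₀ hpi] at this
    have hn2 : (G z).re < ((n : ℝ) + 1) * (2 * Real.pi) := by
      have := Int.lt_floor_add_one ((G z).re / (2 * Real.pi))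
      rwa [div_lt_iff₀ hpi] at this
    have hre : (G z - 2 * Real.pi * n).re = (G z).re - 2 * Real.pi * n := by
      simp
    have him2 : (G z - 2 * Real.pi * n).im = (G z).im := by
      simp
    have hvQ : G z - 2 * Real.pi * n ∈ Q := by
      refine ⟨?_, ?_, ?_, ?_⟩
      · rw [hre]; linarith
      · rw [hre]; linarith
      · rw [him2]; exact him.le
      · rw [him2, hre, perτ]; linarith
    have h3 : h (ψ z) = Φ (G z - 2 * Real.pi * n) := by
      rw [perΦ _ hpos, h1 z hz hpos]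
    have h4 : d1 ≤ infDist (h (ψ z)) (collar Φ τ ∪ K i)ᶜ := by
      rw [le_infDist hTn]
      intro y hy
      exact hfar _ (by rw [h3]; exact mem_image_of_mem _ hvQ) y hy
    have h5 := min_le_right (d0 / 2) d1
    linarith

end CF6

end

section

/-!
# T6b: Cpt

* `cell_cpt`: first: there are `ε, c > 0` with: `w ∈ closure Ωs`, `w ∈ S ∪ K i`, `infDist w (S ∪ K i)ᶜ < ε` imply `c ≤ infDist w Ωsᶜ`. Otherwise `wn` with `infDist wn (S ∪ K i)ᶜ → 0`, `infDist wn Ωsᶜ → 0`, bounded: `wn → w ∈ (S ∪ K i)ᶜ ∩ Ωsᶜ`, so `w ∈ K m`, `m ≠ i`, contradicting `d ≤ infDist wn (K m)`.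
  `bdry_M` with this `ε`: `η`. `core` (A07a) for `c`: `κ`. `Q = {x | κ ≤ infDist x Ωᶜ}` (`Comps.core`). For `z.re < η`: `h (ψ z) ∈ closure Ωs` (`maps`), `c ≤ infDist (h (ψ z)) Ωsᶜ`, so `κ ≤ infDist (ψ z) Ωᶜ` (contrapositive of `core`).
-/

open Complex Set Filter Topology Metric

namespace CF6

theorem cell_cpt {k : ℕ} {Ω Ωs : Set ℂ} {L K : Fin k → Set ℂ} {h : ℂ → ℂ}
    {hj : ℕ → ℂ → ℂ} (H : Approx Ω Ωs L K h hj) (i : Fin k) {S : Set ℂ} {T : ℝ} {ψ : ℂ → ℂ}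
    (hS : S ⊆ Ωs) (oS : IsOpen (S ∪ K i)) {d : ℝ} (hd : 0 < d)
    (hfar : ∀ w ∈ S ∪ K i, ∀ m, m ≠ i → d ≤ infDist w (K m))
    (ch : StripChart (dom Ω S (K i) h) (L i) (dom Ω S (K i) h ∪ L i)ᶜ T ψ)
    (nM : (dom Ω S (K i) h ∪ L i)ᶜ.Nonempty) :
    ∃ Q ⊆ Ω, IsCompact Q ∧ ∃ d > (0 : ℝ), ∀ z ∈ strip T, z.re < d → ψ z ∈ Q := by
  have hTc : IsClosed (S ∪ K i)ᶜ := oS.isClosed_compl
  have hTn : (S ∪ K i)ᶜ.Nonempty := by
    by_contra hcon
    rw [not_nonempty_iff_eq_empty, compl_empty_iff] at hcon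
    obtain ⟨x, hx⟩ := nM
    have hx1 : x ∉ Ω := fun hxO => hx (Or.inl ⟨hxO, by rw [hcon]; trivial⟩)
    have hx2 : x ∈ ⋃ m, L m := by rw [H.dom.union]; exact hx1
    obtain ⟨m, hm⟩ := mem_iUnion.mp hx2
    have hmi : m ≠ i := fun hmi => hx (Or.inr (hmi ▸ hm))
    obtain ⟨y, hy⟩ := (H.tgt.cconn m).nonempty
    have hy1' : y ∈ Ωsᶜ := by rw [← H.tgt.union]; exact mem_iUnion.mpr ⟨m, hy⟩
    have hy2 : y ∈ S ∪ K i := by rw [hcon]; trivial
    rcases hy2 with hy2 | hy2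
    · exact hy1' (hS hy2)
    · exact (disjoint_left.mp (H.tgt.disj m i hmi)) hy hy2
  have hOc : IsClosed Ωsᶜ := H.tgt.isOpen.isClosed_compl
  have hOn : Ωsᶜ.Nonempty := by
    obtain ⟨y, hy⟩ := (H.tgt.cconn i).nonempty
    exact ⟨y, by rw [← H.tgt.union]; exact mem_iUnion.mpr ⟨i, hy⟩⟩
  set Z : Set ℂ := closure Ωs ∩ {w | ∀ m, m ≠ i → d ≤ infDist w (K m)} with hZ
  have hZc : IsCompact Z := by
    have h1 : IsCompact (closure Ωs) := H.tgt.bdd.isCompact_closure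
    apply h1.inter_right
    have h2 : {w : ℂ | ∀ m, m ≠ i → d ≤ infDist w (K m)} =
        ⋂ m : Fin k, ⋂ _ : m ≠ i, {w : ℂ | d ≤ infDist w (K m)} := by
      ext w
      simp
    rw [h2]
    exact isClosed_iInter fun m => isClosed_iInter fun _ =>
      isClosed_le continuous_const (continuous_infDist_pt _)
  set f : ℂ → ℝ := fun w => infDist w (S ∪ K i)ᶜ + infDist w Ωsᶜ with hf
  have hfc : Continuous f := (continuous_infDist_pt _).add (continuous_infDist_pt _)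
  have hfpos : ∀ w ∈ Z, 0 < f w := by
    intro w hw
    by_contra hcon
    rw [not_lt] at hcon
    have h1 : infDist w (S ∪ K i)ᶜ = 0 := by
      have := infDist_nonneg (x := w) (s := (S ∪ K i)ᶜ)
      have := infDist_nonneg (x := w) (s := Ωsᶜ)
      simp only [hf] at hcon
      linarith
    have h2 : infDist w Ωsᶜ = 0 := by
      have := infDist_nonneg (x := w) (s := (S ∪ K i)ᶜ)
      have := infDist_nonneg (x := w) (s := Ωsᶜ)
      simp only [hf] at hcon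
      linarith
    have h3 : w ∈ (S ∪ K i)ᶜ := (hTc.mem_iff_infDist_zero hTn).mpr h1
    have h4 : w ∈ Ωsᶜ := (hOc.mem_iff_infDist_zero hOn).mpr h2
    rw [← H.tgt.union] at h4
    obtain ⟨m, hm⟩ := mem_iUnion.mp h4
    have hmi : m ≠ i := fun hmi => h3 (Or.inr (hmi ▸ hm))
    have h5 := hw.2 m hmi
    rw [infDist_zero_of_mem hm] at h5
    linarith
  obtain ⟨c, hc, hcf⟩ : ∃ c > (0 : ℝ), ∀ w ∈ Z, c ≤ f w := by
    rcases Z.eq_empty_or_nonempty with hZe | hZn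
    · exact ⟨1, one_pos, fun w hw => by rw [hZe] at hw; exact hw.elim⟩
    · obtain ⟨w0, hw0, hmin⟩ := hZc.exists_isMinOn hZn hfc.continuousOn
      exact ⟨f w0, hfpos w0 hw0, fun w hw => hmin hw⟩
  have hc2 : 0 < c / 2 := by positivity
  obtain ⟨η, hη, hbd⟩ := H.bdry_M i hS oS ch nM hc2
  obtain ⟨κ, hκ, j0, hcore⟩ := H.core hc2
  obtain ⟨hQc, hQs⟩ := H.dom.core hκ
  refine ⟨{x | κ ≤ infDist x Ωᶜ}, hQs, hQc, η, hη, fun z hz hzη => ?_⟩
  have hmem : ψ z ∈ dom Ω S (K i) h := by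
    rw [← ch.image]
    exact mem_image_of_mem _ hz
  have h1 := hbd z hz hzη
  have hZm : h (ψ z) ∈ Z := ⟨H.maps hmem.1, fun m hm => hfar _ hmem.2 m hm⟩
  have h2 := hcf _ hZm
  simp only [hf] at h2
  show κ ≤ infDist (ψ z) Ωᶜ
  by_contra hcon
  rw [not_le] at hcon
  have h3 := (hcore _ hmem.1 hcon).1
  linarith

end CF6

end

section

/-!
# T6c: Mc

* `cell_mc`: `B' = Φ '' B` is open (see T3b), contained in `S ⊆ Ωs`, and connected: it is the image of the connected `exp (I ·) '' B ⊆ ball 0 1 \ {0}` under the inverse of `ρ` (`univ_inverse`, `phi_of_rho`). `Y = {x ∈ Ω | h x ∈ B'}` is preconnected (`Approx.mc`), nonempty (`Approx.surj`), contained in `A`.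
  `{z ∈ strip T | G z ∈ B} = {z ∈ strip T | ψ z ∈ Y}`: if `G z ∈ B`, `im G z > 0`, `h (ψ z) = Φ (G z) ∈ B'`; conversely `h (ψ z) = Φ u`, `u ∈ B`: not in `K`, `exp (I G z) = g (ψ z) = ρ (Φ u) = exp (I u)`, `G z = u + 2π n ∈ B`. `StripChart.conn_image` (T2) for `F`.
-/

open Complex Set Filter Topology Metric

namespace CF6

theorem T6c_open_exp {B : Set ℂ} (hB : IsOpen B) : IsOpen ((fun u => exp (I * u)) '' B) := by
  have h1 : IsOpenMap (fun u : ℂ => exp (I * u)) := by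
    have h2 : IsOpenMap (fun u : ℂ => I * u) :=
      (Homeomorph.mulLeft₀ I Complex.I_ne_zero).isOpenMap
    exact Complex.isOpenMap_exp.comp h2
  exact h1 B hB

theorem T6c_per_nat {B : Set ℂ} (pB : ∀ u, u ∈ B ↔ u + 2 * Real.pi ∈ B) (n : ℕ) :
    ∀ u, u ∈ B ↔ u + 2 * Real.pi * n ∈ B := by
  induction n with
  | zero => intro u; simp
  | succ n ih =>
    intro u
    rw [ih u, pB (u + 2 * Real.pi * n)]
    have h1 : u + 2 * (Real.pi : ℂ) * n + 2 * Real.pi = u + 2 * Real.pi * (n + 1 : ℕ) := by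
      push_cast; ring
    rw [h1]

theorem T6c_per_int {B : Set ℂ} (pB : ∀ u, u ∈ B ↔ u + 2 * Real.pi ∈ B) (n : ℤ) (u : ℂ)
    (hu : u ∈ B) : u + 2 * Real.pi * n ∈ B := by
  obtain ⟨m, rfl | rfl⟩ := n.eq_nat_or_neg
  · have := (T6c_per_nat pB m u).1 hu
    exact_mod_cast this
  · apply (T6c_per_nat pB m _).2
    have h1 : u + 2 * (Real.pi : ℂ) * ((-(m : ℤ) : ℤ) : ℂ) + 2 * Real.pi * m = u := by
      push_cast; ring
    rw [h1]
    exact hu

theorem T6c_image {K : Set ℂ} {Φ ρ : ℂ → ℂ} (hK : Collar K Φ ρ) {B : Set ℂ}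
    (h0 : ∀ u ∈ B, 0 < u.im) : Φ '' B = Kᶜ ∩ ρ ⁻¹' ((fun u => exp (I * u)) '' B) := by
  ext w
  constructor
  · rintro ⟨u, hu, rfl⟩
    exact ⟨hK.mem u (h0 u hu), u, hu, (hK.left u (h0 u hu)).symm⟩
  · rintro ⟨h1, u, hu, h2⟩
    exact ⟨u, hu, phi_of_rho hK h1 h2 (h0 u hu)⟩

theorem T6c_image_open {K : Set ℂ} {Φ ρ : ℂ → ℂ} (hK : Collar K Φ ρ) {B : Set ℂ}
    (hB : IsOpen B) (h0 : ∀ u ∈ B, 0 < u.im) : IsOpen (Φ '' B) := by
  rw [T6c_image hK h0]
  exact hK.dRho.continuousOn.isOpen_inter_preimage hK.closed.isOpen_compl (T6c_open_exp hB)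

theorem T6c_image_conn {K : Set ℂ} {Φ ρ : ℂ → ℂ} (hK : Collar K Φ ρ) {B : Set ℂ}
    (h0 : ∀ u ∈ B, 0 < u.im) (cB : IsConnected ((fun u => exp (I * u)) '' B)) :
    IsConnected (Φ '' B) := by
  obtain ⟨φ, hφ, h1, -⟩ := univ_inverse hK.closed.isOpen_compl hK.dRho hK.inj
  have h2 : Φ '' B = φ '' ((fun u => exp (I * u)) '' B) := by
    rw [Set.image_image]
    apply Set.image_congr
    intro u hu
    rw [← hK.left u (h0 u hu), h1 _ (hK.mem u (h0 u hu))]
  rw [h2]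
  apply cB.image
  apply hφ.continuousOn.mono
  rintro _ ⟨u, hu, rfl⟩
  exact ⟨Φ u, hK.mem u (h0 u hu), hK.left u (h0 u hu)⟩

theorem cell_mc {k : ℕ} {Ω Ωs : Set ℂ} {L K : Fin k → Set ℂ} {h g Φ ρ : ℂ → ℂ}
    {hj : ℕ → ℂ → ℂ} (H : Approx Ω Ωs L K h hj) (i : Fin k) (hK : Collar (K i) Φ ρ)
    (lim : LimData Ω (K i) ρ h g hj) {τ : ℝ → ℝ} {c r T : ℝ} {ψ : ℂ → ℂ} (hτ : Depth c r τ)
    (hS : collar Φ τ ⊆ Ωs) {M : Set ℂ}
    (ch : StripChart (dom Ω (collar Φ τ) (K i) h) (L i) M T ψ) {G : ℂ → ℂ}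
    (eG : ∀ z ∈ strip T, exp (I * G z) = g (ψ z))
    (h1 : ∀ z ∈ strip T, 0 < (G z).im → h (ψ z) = Φ (G z)) {B : Set ℂ} (hB : IsOpen B)
    (pB : ∀ u, u ∈ B ↔ u + 2 * Real.pi ∈ B) (sB : ∀ u ∈ B, 0 < u.im ∧ u.im < τ u.re)
    (cB : IsConnected ((fun u => exp (I * u)) '' B)) {F : ℂ → ℂ} (hF : ContinuousOn F (strip T))
    (per : ∀ s ∈ strip T, F (s + 2 * Real.pi * I) = F s) :
    IsConnected (F '' {z | z ∈ strip T ∧ G z ∈ B}) := by
  have _ := hτ
  have h0 : ∀ u ∈ B, 0 < u.im := fun u hu => (sB u hu).1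
  have hsub : Φ '' B ⊆ collar Φ τ := by
    rintro _ ⟨u, hu, rfl⟩
    exact ⟨u, sB u hu, rfl⟩
  have hopen := T6c_image_open hK hB h0
  have hconn := T6c_image_conn hK h0 cB
  have hY : IsPreconnected (Ω ∩ h ⁻¹' (Φ '' B)) :=
    H.mc hopen hconn.isPreconnected (hsub.trans hS)
  have hYn : (Ω ∩ h ⁻¹' (Φ '' B)).Nonempty := by
    obtain ⟨q, hq⟩ := hconn.nonempty
    obtain ⟨x, hx, hxq⟩ := H.surj (hS (hsub hq))
    exact ⟨x, hx, by rw [Set.mem_preimage, hxq]; exact hq⟩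
  have hYA : Ω ∩ h ⁻¹' (Φ '' B) ⊆ dom Ω (collar Φ τ) (K i) h := by
    rintro x ⟨hx, hx2⟩
    exact ⟨hx, Or.inl (hsub hx2)⟩
  have hset : {z | z ∈ strip T ∧ G z ∈ B} = {z | z ∈ strip T ∧ ψ z ∈ Ω ∩ h ⁻¹' (Φ '' B)} := by
    ext z
    constructor
    · rintro ⟨hz, hz2⟩
      have h2 : ψ z ∈ dom Ω (collar Φ τ) (K i) h := by
        rw [← ch.image]
        exact ⟨z, hz, rfl⟩
      refine ⟨hz, h2.1, ?_⟩
      rw [Set.mem_preimage, h1 z hz (h0 _ hz2)]
      exact ⟨G z, hz2, rfl⟩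
    · rintro ⟨hz, hz1, u, hu, hz2⟩
      refine ⟨hz, ?_⟩
      have h3 : h (ψ z) ∉ K i := by
        rw [← hz2]
        exact hK.mem u (h0 u hu)
      have h4 := (limData_basic_thm hK lim).2.2.2.2 (ψ z) hz1 h3
      have h5 : exp (I * G z) = exp (I * u) := by
        rw [eG z hz, ← h4, ← hz2, hK.left u (h0 u hu)]
      obtain ⟨n, hn⟩ := Complex.exp_eq_exp_iff_exists_int.1 h5
      have h6 : G z = u + 2 * Real.pi * n := by
        have h7 : I * (G z - (u + 2 * Real.pi * n)) = 0 := by linear_combination hn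
        rcases mul_eq_zero.1 h7 with h8 | h8
        · exact absurd h8 Complex.I_ne_zero
        · exact sub_eq_zero.1 h8
      rw [h6]
      exact T6c_per_int pB n u hu
  rw [hset]
  exact ch.conn_image hF per hYA ⟨hYn, hY⟩

end CF6

end

section

/-!
# T8a: charts over a strip or over the half plane, in common notation

* `of_strip`: `endL`: `a = max (T - η) (T/2)`. `of_punct`: `endL`: `a = max R 1`, `infDist x {p} = dist x p`.
* `basic`: `X` is open, convex, connected, invariant under `z ↦ z + 2πI` and under conjugation, `0 < z.re` on `X`, and `X` is upward closed below its points: `z ∈ X`, `0 < t ≤ z.re` implies `t + s I ∈ X`.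
* `opn`: as `StripChart.local` / `PunctChart.local` (locally injective, `univ_open`).
* `conn_image`: `F` descends to a continuous function on `A` (see `StripChart.descend`, `PunctChart.descend`; or do it directly), the set is the image of `Y`.
* `gen_log`: `X` is open and convex, nonempty: Mathlib `Complex.exists_continuousOn_eqOn_exp_comp` (see `strip_log`, A18b). `gen_int_period`: see `strip_int_period`.
* `toChart`, `toChart_conj`: `Chart` of Defs3 for `ψ` and for `fun z => ψ (conj z)`.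
-/

open Complex Set Filter Topology Metric

namespace CF6

/-- chart of the doubly connected `A` over `X = strip T` or `X = rhp`; `re = 0` is the end `M`. -/
structure GenChart (A L M X : Set ℂ) (ψ : ℂ → ℂ) : Prop where
  Xf : (∃ T > (0 : ℝ), X = strip T) ∨ X = rhp
  diff : DifferentiableOn ℂ ψ X
  per : ∀ s ∈ X, ψ (s + 2 * Real.pi * I) = ψ s
  inj : ∀ s ∈ X, ∀ s' ∈ X, ψ s = ψ s' → ∃ n : ℤ, s' = s + 2 * Real.pi * n * I
  image : ψ '' X = A
  endM : ∀ ε > (0 : ℝ), ∃ η > (0 : ℝ), ∀ s ∈ X, s.re < η → infDist (ψ s) M < ε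
  endL : ∀ ε > (0 : ℝ), ∃ a : ℝ, (a : ℂ) ∈ X ∧ ∀ z ∈ X, a < z.re → infDist (ψ z) L < ε

theorem T8a_strip_max {T η : ℝ} (hT : 0 < T) (hη : 0 < η) :
    ((max (T - η) (T / 2) : ℝ) : ℂ) ∈ strip T := by
  refine ⟨?_, ?_⟩
  · rw [Complex.ofReal_re]
    exact lt_of_lt_of_le (by positivity) (le_max_right _ _)
  · rw [Complex.ofReal_re]
    exact max_lt (by linarith) (by linarith)

theorem GenChart.of_strip {A L M : Set ℂ} {T : ℝ} {ψ : ℂ → ℂ} (h : StripChart A L M T ψ) :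
    GenChart A L M (strip T) ψ := by
  refine ⟨Or.inl ⟨T, h.pos, rfl⟩, h.diff, h.per, h.inj, h.image, h.endM, ?_⟩
  intro ε hε
  obtain ⟨η, hη, h1⟩ := h.endL ε hε
  refine ⟨max (T - η) (T / 2), T8a_strip_max h.pos hη, fun z hz hlt => ?_⟩
  exact h1 z hz (lt_of_le_of_lt (le_max_left _ _) hlt)

theorem GenChart.of_punct {A M : Set ℂ} {p : ℂ} {ψ : ℂ → ℂ} (h : PunctChart A M p ψ) :
    GenChart A {p} M rhp ψ := by
  refine ⟨Or.inr rfl, h.diff, h.per, h.inj, h.image, h.endM, ?_⟩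
  intro ε hε
  obtain ⟨R, h1⟩ := h.endL ε hε
  refine ⟨max R 1, ?_, fun z _ hlt => ?_⟩
  · show 0 < ((max R 1 : ℝ) : ℂ).re
    rw [Complex.ofReal_re]
    exact lt_of_lt_of_le one_pos (le_max_right _ _)
  · rw [infDist_singleton]
    exact h1 z (lt_of_le_of_lt (le_max_left _ _) hlt)

theorem T8a_open {X : Set ℂ} (hX : (∃ T > (0 : ℝ), X = strip T) ∨ X = rhp) : IsOpen X := by
  rcases hX with ⟨T, _, rfl⟩ | rfl
  · exact a28a_strip_open T
  · exact a28a_rhp_open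

theorem T8a_perZ {X : Set ℂ} (hX : (∃ T > (0 : ℝ), X = strip T) ∨ X = rhp) :
    ∀ s ∈ X, ∀ n : ℤ, s + 2 * Real.pi * n * I ∈ X := by
  rcases hX with ⟨T, _, rfl⟩ | rfl
  · exact a28a_strip_per T
  · exact a28a_rhp_per

theorem T8a_convex {X : Set ℂ} (hX : (∃ T > (0 : ℝ), X = strip T) ∨ X = rhp) : Convex ℝ X := by
  rcases hX with ⟨T, _, rfl⟩ | rfl
  · exact (convex_halfSpace_re_gt 0).inter (convex_halfSpace_re_lt T)
  · exact convex_halfSpace_re_gt 0

theorem T8a_nonempty {X : Set ℂ} (hX : (∃ T > (0 : ℝ), X = strip T) ∨ X = rhp) : X.Nonempty := by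
  rcases hX with ⟨T, hT, rfl⟩ | rfl
  · exact ⟨_, T8a_strip_max hT one_pos⟩
  · refine ⟨1, ?_⟩
    show 0 < (1 : ℂ).re
    simp

/-- membership depends only on the real part -/
theorem T8a_re {X : Set ℂ} (hX : (∃ T > (0 : ℝ), X = strip T) ∨ X = rhp) {z w : ℂ} (hz : z ∈ X)
    (h0 : 0 < w.re) (hw : w.re ≤ z.re) : w ∈ X := by
  rcases hX with ⟨T, hT, rfl⟩ | rfl
  · exact ⟨h0, lt_of_le_of_lt hw hz.2⟩
  · exact h0

theorem T8a_pos {X : Set ℂ} (hX : (∃ T > (0 : ℝ), X = strip T) ∨ X = rhp) {z : ℂ} (hz : z ∈ X) :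
    0 < z.re := by
  rcases hX with ⟨T, hT, rfl⟩ | rfl
  · exact hz.1
  · exact hz

theorem gen_basic {X : Set ℂ} (hX : (∃ T > (0 : ℝ), X = strip T) ∨ X = rhp) :
    IsOpen X ∧ Convex ℝ X ∧ X.Nonempty ∧ (∀ z, z ∈ X ↔ z + 2 * Real.pi * I ∈ X) ∧
      (starRingEnd ℂ) '' X = X ∧ (∀ z ∈ X, 0 < z.re) ∧
      ∀ z ∈ X, ∀ t s : ℝ, 0 < t → t ≤ z.re → (t + s * I : ℂ) ∈ X := by
  have hre : ∀ z : ℂ, (z + 2 * Real.pi * I).re = z.re := by
    intro z
    simp
  refine ⟨T8a_open hX, T8a_convex hX, T8a_nonempty hX, ?_, ?_, fun z hz => T8a_pos hX hz, ?_⟩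
  · intro z
    constructor
    · intro hz
      exact T8a_re hX hz (by rw [hre]; exact T8a_pos hX hz) (hre z).le
    · intro hz
      have h1 := T8a_pos hX hz
      rw [hre] at h1
      exact T8a_re hX hz h1 (hre z).ge
  · ext z
    constructor
    · rintro ⟨w, hw, rfl⟩
      refine T8a_re hX hw ?_ ?_
      · rw [Complex.conj_re]
        exact T8a_pos hX hw
      · rw [Complex.conj_re]
    · intro hz
      refine ⟨(starRingEnd ℂ) z, T8a_re hX hz ?_ ?_, Complex.conj_conj z⟩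
      · rw [Complex.conj_re]
        exact T8a_pos hX hz
      · rw [Complex.conj_re]
  · intro z hz t s ht htz
    have h1 : (t + s * I : ℂ).re = t := by simp
    exact T8a_re hX hz (by rw [h1]; exact ht) (by rw [h1]; exact htz)

theorem GenChart.opn {A L M X : Set ℂ} {ψ : ℂ → ℂ} (h : GenChart A L M X ψ) :
    ∀ V ⊆ X, IsOpen V → IsOpen (ψ '' V) :=
  (a28a_local (T8a_open h.Xf) h.diff h.inj).2.2

theorem GenChart.conn_image {A L M X : Set ℂ} {ψ : ℂ → ℂ} (h : GenChart A L M X ψ)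
    {F : ℂ → ℂ} (hF : ContinuousOn F X) (per : ∀ s ∈ X, F (s + 2 * Real.pi * I) = F s)
    {Y : Set ℂ} (hY : Y ⊆ A) (cY : IsConnected Y) :
    IsConnected (F '' {z | z ∈ X ∧ ψ z ∈ Y}) := by
  obtain ⟨F', cF', hF'⟩ := a28a_descend (T8a_open h.Xf) (T8a_perZ h.Xf) h.diff h.inj h.image hF per
  have h1 : F '' {z | z ∈ X ∧ ψ z ∈ Y} = F' '' Y := by
    ext w
    constructor
    · rintro ⟨z, ⟨hz, hzY⟩, rfl⟩
      exact ⟨ψ z, hzY, hF' z hz⟩
    · rintro ⟨y, hy, rfl⟩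
      have hyA := hY hy
      rw [← h.image] at hyA
      obtain ⟨z, hz, rfl⟩ := hyA
      exact ⟨z, ⟨hz, hy⟩, (hF' z hz).symm⟩
  rw [h1]
  exact cY.image F' (cF'.mono hY)

/-- a continuous integer valued function on a preconnected set is constant -/
theorem T8a_int {X : Set ℂ} (hX : IsPreconnected X) {f : ℂ → ℂ} (hf : ContinuousOn f X)
    (hi : ∀ z ∈ X, ∃ n : ℤ, f z = n) {a : ℂ} (ha : a ∈ X) : ∀ z ∈ X, f z = f a := by
  have h1 : IsPreconnected (f '' X) := hX.image f hf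
  have h2 : ∀ x ∈ f '' X, ∀ y ∈ f '' X, x ≠ y → 1 ≤ dist x y := by
    rintro _ ⟨z, hz, rfl⟩ _ ⟨w, hw, rfl⟩ hne
    obtain ⟨n, hn⟩ := hi z hz
    obtain ⟨m, hm⟩ := hi w hw
    rw [hn, hm] at hne ⊢
    have h3 : n ≠ m := fun h => hne (by rw [h])
    have h4 : (1 : ℤ) ≤ |n - m| := Int.one_le_abs (sub_ne_zero.mpr h3)
    rw [Complex.dist_eq]
    have h5 : ((n : ℂ) - (m : ℂ)) = ((((n - m : ℤ) : ℝ)) : ℂ) := by push_cast; ring
    rw [h5, Complex.norm_real, Real.norm_eq_abs]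
    exact_mod_cast h4
  have h3 : (f '' X).Subsingleton := by
    by_contra hns
    rw [Set.not_subsingleton_iff] at hns
    obtain ⟨x, hx, y, hy, hxy⟩ := hns
    obtain ⟨z, hz, hz1, hz2⟩ := h1 (ball x (1 / 2)) (closedBall x (1 / 2))ᶜ isOpen_ball
      isClosed_closedBall.isOpen_compl (by
        intro w hw
        by_cases hwx : w = x
        · left
          rw [hwx]
          exact mem_ball_self (by norm_num)
        · right
          intro h
          rw [mem_closedBall] at h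
          have := h2 w hw x hx hwx
          linarith) ⟨x, hx, mem_ball_self (by norm_num)⟩ ⟨y, hy, by
            intro h
            rw [mem_closedBall] at h
            have := h2 y hy x hx (Ne.symm hxy)
            linarith⟩
    exact hz2 (ball_subset_closedBall hz1)
  intro z hz
  exact h3 (mem_image_of_mem f hz) (mem_image_of_mem f ha)

theorem gen_log {X : Set ℂ} (hX : (∃ T > (0 : ℝ), X = strip T) ∨ X = rhp) {f : ℂ → ℂ}
    (hf : ContinuousOn f X) (h0 : ∀ z ∈ X, f z ≠ 0)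
    (per : ∀ z ∈ X, f (z + 2 * Real.pi * I) = f z) :
    ∃ ℓ : ℂ → ℂ, ContinuousOn ℓ X ∧ (∀ z ∈ X, exp (ℓ z) = f z) ∧
      ∃ m : ℤ, ∀ z ∈ X, ℓ (z + 2 * Real.pi * I) = ℓ z + 2 * Real.pi * m * I := by
  obtain ⟨ho, hc, hne, hper, -⟩ := gen_basic hX
  obtain ⟨ℓ, cℓ, hℓ⟩ := a18b_convex ho hc hne hf h0
  refine ⟨ℓ, cℓ, hℓ, ?_⟩
  obtain ⟨a, ha⟩ := hne
  have hpi : (2 * Real.pi * I : ℂ) ≠ 0 := Complex.two_pi_I_ne_zero
  have hcont : ContinuousOn (fun z => (ℓ (z + 2 * Real.pi * I) - ℓ z) / (2 * Real.pi * I)) X := by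
    refine ContinuousOn.div_const (ContinuousOn.sub ?_ cℓ) _
    exact cℓ.comp (continuous_id.add continuous_const).continuousOn (fun z hz => (hper z).mp hz)
  have hint : ∀ z ∈ X, ∃ n : ℤ, (ℓ (z + 2 * Real.pi * I) - ℓ z) / (2 * Real.pi * I) = n := by
    intro z hz
    have h1 : exp (ℓ (z + 2 * Real.pi * I)) = exp (ℓ z) := by
      rw [hℓ _ ((hper z).mp hz), hℓ z hz, per z hz]
    obtain ⟨n, hn⟩ := Complex.exp_eq_exp_iff_exists_int.mp h1
    refine ⟨n, ?_⟩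
    rw [hn, add_sub_cancel_left, mul_div_assoc, div_self hpi, mul_one]
  obtain ⟨m, hm⟩ := hint a ha
  refine ⟨m, fun z hz => ?_⟩
  have h1 := T8a_int hc.isPreconnected hcont hint ha z hz
  rw [hm] at h1
  have h2 := (div_eq_iff hpi).mp h1
  have h3 : ℓ (z + 2 * Real.pi * I) = ℓ z + (ℓ (z + 2 * Real.pi * I) - ℓ z) := by ring
  rw [h3, h2]
  ring

theorem GenChart.toChart {A L M X : Set ℂ} {ψ : ℂ → ℂ} (h : GenChart A L M X ψ) :
    Chart X A ψ ∧ Chart X A (fun z => ψ ((starRingEnd ℂ) z)) := by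
  obtain ⟨ho, hc, hne, hper, hconj, -⟩ := gen_basic h.Xf
  have hcm : ∀ z ∈ X, (starRingEnd ℂ) z ∈ X := by
    intro z hz
    have h1 : (starRingEnd ℂ) z ∈ (starRingEnd ℂ) '' X := mem_image_of_mem _ hz
    rwa [hconj] at h1
  refine ⟨⟨ho, hper, Or.inl h.diff, h.per, ?_, h.image⟩, ⟨ho, hper, Or.inr ?_, ?_, ?_, ?_⟩⟩
  · intro z hz w hw hzw
    obtain ⟨n, hn⟩ := h.inj z hz w hw hzw
    exact ⟨n, by rw [hn]; ring⟩
  · rw [hconj]
    refine h.diff.congr fun z _ => ?_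
    simp only [Complex.conj_conj]
  · intro z hz
    have h1 : (starRingEnd ℂ) (z + 2 * Real.pi * I) + 2 * Real.pi * I = (starRingEnd ℂ) z := by
      simp only [map_add, map_mul, Complex.conj_I, Complex.conj_ofReal, map_ofNat]
      ring
    have h2 := h.per _ (hcm _ ((hper z).mp hz))
    rw [h1] at h2
    exact h2.symm
  · intro z hz w hw hzw
    obtain ⟨n, hn⟩ := h.inj _ (hcm z hz) _ (hcm w hw) hzw
    refine ⟨-n, ?_⟩
    have h1 := congrArg (starRingEnd ℂ) hn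
    simp only [map_add, map_mul, Complex.conj_I, Complex.conj_ofReal, map_ofNat, Complex.conj_conj,
      map_intCast] at h1
    rw [h1]
    push_cast
    ring
  · ext x
    constructor
    · rintro ⟨z, hz, rfl⟩
      rw [← h.image]
      exact mem_image_of_mem ψ (hcm z hz)
    · intro hx
      rw [← h.image] at hx
      obtain ⟨z, hz, rfl⟩ := hx
      exact ⟨(starRingEnd ℂ) z, hcm z hz, by simp only [Complex.conj_conj]⟩

end CF6

end

section

/-!
# T8b: the polar coordinate `pol q u = q + u.im * exp (I * u.re)`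

`c w = exp (-‖w - q‖) * ((w - q)/‖w - q‖)` is continuous on `{w ≠ q}` and for `u.im > 0`: `c (pol q u) = exp (I * u)` (`‖pol q u - q‖ = u.im`). Conversely `c w = exp (I u)`, `u.im > 0` implies `‖w - q‖ = u.im` (moduli) and then `w = pol q u`.
* `pol_inj`: apply `c`: `exp (I u) = exp (I u')`.
* `pol_open`: `pol q '' B = {w ≠ q | c w ∈ (exp (I ·)) '' B}`; `exp (I ·)` is an open map (holomorphic, locally injective; or `Complex.isOpenMap_exp`-type lemma / covering map), so this is open.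
* `pol_conn`: `pol q '' B` is the image of `(exp (I ·)) '' B` under the continuous map `ζ ↦ q + (- log ‖ζ‖) * (ζ/‖ζ‖)` on `{0 < ‖ζ‖ < 1}`.
-/

open Complex Set Filter Topology Metric

namespace CF6

theorem norm_pol (q : ℂ) {u : ℂ} (hu : 0 ≤ u.im) : ‖pol q u - q‖ = u.im := by
  have h1 : pol q u - q = u.im * exp (I * u.re) := by
    unfold pol; ring
  rw [h1, norm_mul, mul_comm I, Complex.norm_exp_ofReal_mul_I, mul_one, Complex.norm_real,
    Real.norm_eq_abs, abs_of_nonneg hu]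

/-- the coordinate `c` -/
noncomputable def T8b_c (q : ℂ) (w : ℂ) : ℂ := (Real.exp (-‖w - q‖) : ℂ) * ((w - q) / ‖w - q‖)

theorem T8b_exp (u : ℂ) : exp (I * u) = (Real.exp (-u.im) : ℂ) * exp (I * u.re) := by
  rw [Complex.ofReal_exp, ← Complex.exp_add]
  congr 1
  apply Complex.ext <;> simp

theorem T8b_c_pol (q : ℂ) {u : ℂ} (hu : 0 < u.im) : T8b_c q (pol q u) = exp (I * u) := by
  have h1 := norm_pol q hu.le
  have h2 : pol q u - q = u.im * exp (I * u.re) := by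
    unfold pol; ring
  have h3 : (u.im : ℂ) ≠ 0 := by exact_mod_cast hu.ne'
  unfold T8b_c
  rw [h1, h2, mul_div_cancel_left₀ _ h3, T8b_exp u]

theorem T8b_norm_exp (u : ℂ) : ‖exp (I * u)‖ = Real.exp (-u.im) := by
  rw [Complex.norm_exp]
  congr 1
  simp

theorem T8b_eq_pol (q : ℂ) {w u : ℂ} (hw : w ≠ q) (h : T8b_c q w = exp (I * u)) :
    w = pol q u := by
  have h0 : w - q ≠ 0 := sub_ne_zero.2 hw
  have h0' : ‖w - q‖ ≠ 0 := norm_ne_zero_iff.2 h0
  have h1 : ‖w - q‖ = u.im := by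
    have h2 := congrArg norm h
    unfold T8b_c at h2
    rw [T8b_norm_exp, norm_mul, norm_div, Complex.norm_real, Complex.norm_real, norm_norm,
      div_self h0', mul_one, Real.norm_eq_abs, abs_of_pos (Real.exp_pos _)] at h2
    have h3 := Real.exp_injective h2
    linarith
  unfold T8b_c at h
  rw [T8b_exp, h1] at h
  have h4 : (Real.exp (-u.im) : ℂ) ≠ 0 := by exact_mod_cast (Real.exp_pos _).ne'
  have h5 := mul_left_cancel₀ h4 h
  have h6 : (u.im : ℂ) ≠ 0 := by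
    rw [← h1]; exact_mod_cast h0'
  rw [div_eq_iff h6] at h5
  unfold pol
  linear_combination h5

theorem pol_inj (q : ℂ) {u u' : ℂ} (hu : 0 < u.im) (hu' : 0 < u'.im) (h : pol q u = pol q u') :
    ∃ n : ℤ, u' = u + 2 * Real.pi * n := by
  have h1 : exp (I * u') = exp (I * u) := by
    rw [← T8b_c_pol q hu, ← T8b_c_pol q hu', h]
  obtain ⟨n, hn⟩ := Complex.exp_eq_exp_iff_exists_int.1 h1
  refine ⟨n, ?_⟩
  have h2 : I * (u' - (u + 2 * Real.pi * n)) = 0 := by linear_combination hn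
  rcases mul_eq_zero.1 h2 with h3 | h3
  · exact absurd h3 Complex.I_ne_zero
  · exact sub_eq_zero.1 h3

theorem pol_per (q : ℂ) (u : ℂ) (n : ℤ) : pol q (u + 2 * Real.pi * n) = pol q u := by
  have h1 : (u + 2 * Real.pi * n).im = u.im := by
    simp
  have h2 : (u + 2 * Real.pi * n).re = u.re + 2 * Real.pi * n := by
    simp
  unfold pol
  rw [h1, h2]
  congr 2
  rw [Complex.exp_eq_exp_iff_exists_int]
  exact ⟨n, by push_cast; ring⟩

theorem T8b_c_cont (q : ℂ) : ContinuousOn (T8b_c q) {w | w ≠ q} := by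
  unfold T8b_c
  apply ContinuousOn.mul
  · apply Continuous.continuousOn
    fun_prop
  · apply ContinuousOn.div
    · fun_prop
    · apply Continuous.continuousOn
      fun_prop
    · intro w hw
      have : ‖w - q‖ ≠ 0 := norm_ne_zero_iff.2 (sub_ne_zero.2 hw)
      exact_mod_cast this

theorem T8b_open_exp {B : Set ℂ} (hB : IsOpen B) : IsOpen ((fun u => exp (I * u)) '' B) := by
  have h1 : IsOpenMap (fun u : ℂ => exp (I * u)) := by
    have h2 : IsOpenMap (fun u : ℂ => I * u) :=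
      (Homeomorph.mulLeft₀ I Complex.I_ne_zero).isOpenMap
    exact Complex.isOpenMap_exp.comp h2
  exact h1 B hB

theorem pol_open (q : ℂ) {B : Set ℂ} (hB : IsOpen B) (h0 : ∀ u ∈ B, 0 < u.im) :
    IsOpen (pol q '' B) := by
  have h1 : pol q '' B = {w | w ≠ q} ∩ T8b_c q ⁻¹' ((fun u => exp (I * u)) '' B) := by
    ext w
    constructor
    · rintro ⟨u, hu, rfl⟩
      refine ⟨?_, u, hu, (T8b_c_pol q (h0 u hu)).symm⟩
      intro h
      have h2 := norm_pol q (h0 u hu).le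
      rw [h, sub_self, norm_zero] at h2
      exact absurd h2.symm (h0 u hu).ne'
    · rintro ⟨h2, u, hu, h3⟩
      exact ⟨u, hu, (T8b_eq_pol q h2 h3.symm).symm⟩
  rw [h1]
  have h2 : IsOpen {w : ℂ | w ≠ q} := isOpen_ne
  exact (T8b_c_cont q).isOpen_inter_preimage h2 (T8b_open_exp hB)

theorem pol_conn (q : ℂ) {B : Set ℂ} (h0 : ∀ u ∈ B, 0 < u.im)
    (hc : IsConnected ((fun u => exp (I * u)) '' B)) : IsConnected (pol q '' B) := by
  have h1 : pol q '' B = (fun ζ : ℂ => q + ((-Real.log ‖ζ‖ : ℝ) : ℂ) * (ζ / ‖ζ‖)) ''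
      ((fun u => exp (I * u)) '' B) := by
    rw [Set.image_image]
    apply Set.image_congr
    intro u hu
    have h2 : (Real.exp (-u.im) : ℂ) ≠ 0 := by exact_mod_cast (Real.exp_pos _).ne'
    rw [T8b_norm_exp, Real.log_exp, neg_neg, T8b_exp, mul_div_cancel_left₀ _ h2]
    rfl
  rw [h1]
  apply hc.image
  have h3 : ∀ ζ ∈ ((fun u => exp (I * u)) '' B), ‖ζ‖ ≠ 0 := by
    rintro _ ⟨u, hu, rfl⟩
    exact norm_ne_zero_iff.2 (exp_ne_zero _)
  apply ContinuousOn.add continuousOn_const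
  apply ContinuousOn.mul
  · apply Complex.continuous_ofReal.comp_continuousOn
    apply ContinuousOn.neg
    apply ContinuousOn.log
    · fun_prop
    · exact h3
  · apply ContinuousOn.div
    · fun_prop
    · apply Continuous.continuousOn
      fun_prop
    · intro ζ hζ
      exact_mod_cast h3 ζ hζ

end CF6

end

section

/-!
# T9a: the collar of a point component `K i = {q}`, basic facts

`S = ball q ρ0 \ {q}`, `S ∪ K i = ball q ρ0`, `A = dom Ω S (K i) h = {x ∈ Ω | dist (h x) q < ρ0}`.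
* `point_small`: `d` from `Comps.sep`; `y2 = d/4`: `closedBall q (2 ρ0) \ {q} ⊆ Ωs` (a point `w` of it is not in `K i = {q}` and not in `K m`: distance `≥ d` from `q`; `Ωsᶜ = ⋃ K m`).
* `point_chart`: `ball q ρ0` is open, connected; its complement is connected (`{ρ0 ≤ ‖w - q‖}`: Mathlib `isConnected_compl_ball`-type lemma for rank `> 1`, or closure of `(closedBall)ᶜ`); `nT`: the points `q + s`, `ρ0 ≤ s ≤ 2 ρ0`. If `L i` is nontrivial: `Approx.strip_chart`, `GenChart.of_strip`;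
  otherwise `L i = {p}` (nonempty, connected): `Approx.punct_chart`, `GenChart.of_punct`.
-/

open Complex Set Filter Topology Metric

namespace CF6

theorem t9a_compl_conn (q : ℂ) {r : ℝ} (hr : 0 < r) : IsConnected (ball q r)ᶜ := by
  have h1 : (ball q r)ᶜ = (fun p : ℝ × ℝ => q + (p.1 : ℂ) * exp ((p.2 : ℂ) * I)) ''
      (Ici r ×ˢ univ) := by
    ext w
    constructor
    · intro hw
      have hw' : r ≤ ‖w - q‖ := by
        rw [mem_compl_iff, mem_ball, not_lt, dist_eq_norm] at hw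
        exact hw
      refine ⟨(‖w - q‖, (w - q).arg), ⟨hw', mem_univ _⟩, ?_⟩
      show q + (‖w - q‖ : ℂ) * exp (((w - q).arg : ℂ) * I) = w
      rw [Complex.norm_mul_exp_arg_mul_I]
      ring
    · rintro ⟨⟨s, θ⟩, ⟨hs, -⟩, rfl⟩
      rw [mem_compl_iff, mem_ball, not_lt, dist_eq_norm]
      show r ≤ ‖q + (s : ℂ) * exp ((θ : ℂ) * I) - q‖
      rw [add_sub_cancel_left, norm_mul, Complex.norm_exp_ofReal_mul_I, mul_one,
        Complex.norm_real, Real.norm_eq_abs]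
      exact (mem_Ici.mp hs).trans (le_abs_self s)
  rw [h1]
  refine (isConnected_Ici.prod isConnected_univ).image _ ?_
  exact Continuous.continuousOn (by fun_prop)

theorem t9a_union {q : ℂ} {r : ℝ} (hr : 0 < r) : (ball q r \ {q}) ∪ {q} = ball q r := by
  rw [sdiff_union_self, union_eq_self_of_subset_right]
  exact singleton_subset_iff.mpr (mem_ball_self hr)

section

variable {k : ℕ} {Ω Ωs : Set ℂ} {L K : Fin k → Set ℂ} {h : ℂ → ℂ} {hj : ℕ → ℂ → ℂ}

theorem point_small (H' : Comps Ωs K) {i : Fin k} {q : ℂ} (hq : K i = {q}) :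
    ∃ y2 > (0 : ℝ), ∀ ρ0 : ℝ, 0 < ρ0 → ρ0 ≤ y2 → closedBall q (2 * ρ0) \ {q} ⊆ Ωs := by
  obtain ⟨d, hd, hsep⟩ := H'.sep
  refine ⟨d / 4, by positivity, fun ρ0 h0 h1 w hw => ?_⟩
  by_contra hcon
  have hw2 : w ∈ ⋃ m, K m := by
    rw [H'.union]
    exact hcon
  obtain ⟨m, hm⟩ := mem_iUnion.mp hw2
  have hqi : q ∈ K i := by rw [hq]; exact mem_singleton q
  by_cases hmi : i = m
  · rw [← hmi, hq] at hm
    exact hw.2 hm
  · have h2 := hsep i m hmi q hqi w hm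
    have h3 := mem_closedBall.mp hw.1
    rw [dist_comm] at h3
    linarith

theorem point_chart (H : Approx Ω Ωs L K h hj) (i : Fin k) {q : ℂ} (hq : K i = {q}) {ρ0 : ℝ}
    (h0 : 0 < ρ0) (hs : closedBall q (2 * ρ0) \ {q} ⊆ Ωs) :
    ∃ X ψ, GenChart (dom Ω (ball q ρ0 \ {q}) (K i) h) (L i)
      (dom Ω (ball q ρ0 \ {q}) (K i) h ∪ L i)ᶜ X ψ := by
  have hU : (ball q ρ0 \ {q}) ∪ K i = ball q ρ0 := by
    rw [hq]
    exact t9a_union h0
  have hS : ball q ρ0 \ {q} ⊆ Ωs := by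
    refine Subset.trans (sdiff_subset_sdiff_left ?_) hs
    exact (ball_subset_ball (by linarith)).trans ball_subset_closedBall
  have oS : IsOpen ((ball q ρ0 \ {q}) ∪ K i) := by rw [hU]; exact isOpen_ball
  have cS : IsConnected ((ball q ρ0 \ {q}) ∪ K i) := by rw [hU]; exact isConnected_ball h0
  have cT : IsConnected ((ball q ρ0 \ {q}) ∪ K i)ᶜ := by rw [hU]; exact t9a_compl_conn q h0
  have hpt : ∀ s : ℝ, ρ0 ≤ s → s ≤ 2 * ρ0 → q + (s : ℂ) ∈ ((ball q ρ0 \ {q}) ∪ K i)ᶜ ∩ Ωs := by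
    intro s h1 h2
    have hsp : 0 < s := h0.trans_le h1
    have hdist : dist (q + (s : ℂ)) q = s := by
      rw [dist_eq_norm, add_sub_cancel_left, Complex.norm_real, Real.norm_eq_abs, abs_of_pos hsp]
    refine ⟨?_, hs ⟨?_, ?_⟩⟩
    · rw [hU, mem_compl_iff, mem_ball, hdist, not_lt]
      exact h1
    · rw [mem_closedBall, hdist]
      exact h2
    · intro h3
      rw [mem_singleton_iff] at h3
      rw [h3, dist_self] at hdist
      exact hsp.ne hdist
  have nT : (((ball q ρ0 \ {q}) ∪ K i)ᶜ ∩ Ωs).Nontrivial := by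
    refine ⟨q + (ρ0 : ℂ), hpt ρ0 le_rfl (by linarith), q + ((2 * ρ0 : ℝ) : ℂ),
      hpt (2 * ρ0) (by linarith) le_rfl, ?_⟩
    intro h1
    have h2 := add_left_cancel h1
    have h3 : ρ0 = 2 * ρ0 := by exact_mod_cast h2
    linarith
  by_cases hL : (L i).Nontrivial
  · obtain ⟨T, ψ, hψ⟩ := H.strip_chart i hS oS cS cT nT hL
    exact ⟨strip T, ψ, GenChart.of_strip hψ⟩
  · rw [Set.not_nontrivial_iff] at hL
    obtain ⟨p, hp⟩ := (H.dom.cconn i).nonempty
    have hLp : L i = {p} := hL.eq_singleton_of_mem hp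
    obtain ⟨ψ, hψ⟩ := H.punct_chart i hS oS cS cT hLp
    refine ⟨rhp, ψ, ?_⟩
    have h1 := GenChart.of_punct hψ
    have h2 : GenChart (Ω ∩ h ⁻¹' ((ball q ρ0 \ {q}) ∪ K i)) (L i)
      ((Ω ∩ h ⁻¹' ((ball q ρ0 \ {q}) ∪ K i)) ∪ L i)ᶜ rhp ψ := by
      rw [← hLp] at h1
      exact h1
    exact h2

end

end CF6

end

section

/-!
# T9b: the collar of a point component `K i = {q}`, basic facts

`S = ball q ρ0 \ {q}`, `S ∪ K i = ball q ρ0`, `A = dom Ω S (K i) h = {x ∈ Ω | dist (h x) q < ρ0}`.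
* `point_bdry`: `bdry_M` (strip) resp. `bdry_M_punct` restated for `GenChart` (same proof; you may also carry out the argument of A28b for `GenChart` directly): `infDist (h (ψ z)) (ball q ρ0)ᶜ < ε` and `infDist w (ball q ρ0)ᶜ ≥ ρ0 - dist w q`.
* `point_layer`: otherwise `zn ∈ X`, `d ≤ zn.re`, `dist (h (ψ zn)) q → ρ0`; `0 ≤ zn.im ≤ 2π` by periodicity. If `zn.re` is bounded by some `a`, `(a : ℂ) ∈ X`, on a subsequence: `zn → z ∈ X`, `ψ z ∈ A`, `dist (h (ψ z)) q = ρ0`, contradiction. Otherwise `zn.re` exceeds every `a` with `(a : ℂ) ∈ X` (subsequence), `infDist (ψ zn) (L i) → 0`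
  (`endL`), so `infDist (h (ψ zn)) (K i) → 0` (`ends`), i.e. `dist (h (ψ zn)) q → 0`; contradiction.
* `point_cpt`: `d` from `point_bdry` with `ε = ρ0/2`: for `z.re < d`, `h (ψ z) ∈ closedBall q ρ0 \ ball q (ρ0/2)`, a compact subset of `Ωs`; `Q = Ω ∩ h⁻¹' (..)` (`Approx.compact_preimage`).
-/

open Complex Set Filter Topology Metric

namespace CF6

section

variable {k : ℕ} {Ω Ωs : Set ℂ} {L K : Fin k → Set ℂ} {h : ℂ → ℂ} {hj : ℕ → ℂ → ℂ}

theorem T9b_union {q : ℂ} {ρ0 : ℝ} (h0 : 0 < ρ0) : (ball q ρ0 \ {q}) ∪ {q} = ball q ρ0 := by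
  ext w
  constructor
  · rintro (hw | hw)
    · exact hw.1
    · rw [mem_singleton_iff.mp hw]
      exact mem_ball_self h0
  · intro hw
    by_cases h : w = q
    · exact Or.inr h
    · exact Or.inl ⟨hw, h⟩

theorem T9b_far {q : ℂ} {ρ0 : ℝ} (h0 : 0 < ρ0) : dist (q + ((3 / 2 * ρ0 : ℝ) : ℂ)) q = 3 / 2 * ρ0 := by
  rw [dist_eq_norm, add_sub_cancel_left, Complex.norm_real, Real.norm_of_nonneg (by positivity)]

theorem T9b_infDist {q : ℂ} {ρ0 : ℝ} (h0 : 0 < ρ0) (w : ℂ) :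
    ρ0 - dist w q ≤ infDist w (ball q ρ0)ᶜ := by
  have hne : ((ball q ρ0)ᶜ : Set ℂ).Nonempty := by
    refine ⟨q + ((3 / 2 * ρ0 : ℝ) : ℂ), fun hc => ?_⟩
    rw [mem_ball, T9b_far h0] at hc
    linarith
  rw [le_infDist hne]
  intro y hy
  rw [mem_compl_iff, mem_ball, not_lt] at hy
  have := dist_triangle y w q
  rw [dist_comm y w] at this
  linarith

theorem T9b_per {X : Set ℂ} (hX : (∃ T > (0 : ℝ), X = strip T) ∨ X = rhp) :
    ∀ s ∈ X, ∀ n : ℤ, s + 2 * Real.pi * n * I ∈ X := by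
  rcases hX with ⟨T, _, rfl⟩ | rfl
  · exact a28a_strip_per T
  · exact a28a_rhp_per

theorem T9b_shift {X : Set ℂ} (hX : (∃ T > (0 : ℝ), X = strip T) ∨ X = rhp) {ψ : ℂ → ℂ}
    (per : ∀ s ∈ X, ψ (s + 2 * Real.pi * I) = ψ s) {z : ℂ} (hz : z ∈ X) :
    ∃ w ∈ X, w.re = z.re ∧ 0 ≤ w.im ∧ w.im ≤ 2 * Real.pi ∧ ψ w = ψ z := by
  have hp : (0 : ℝ) < 2 * Real.pi := by positivity
  set n : ℤ := -⌊z.im / (2 * Real.pi)⌋ with hn
  have hre : (z + 2 * Real.pi * n * I).re = z.re := by simp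
  have him : (z + 2 * Real.pi * n * I).im = z.im + 2 * Real.pi * n := by simp
  have h3 := Int.floor_le (z.im / (2 * Real.pi))
  have h4 := Int.lt_floor_add_one (z.im / (2 * Real.pi))
  have h5 : z.im = 2 * Real.pi * (z.im / (2 * Real.pi)) := by field_simp
  refine ⟨z + 2 * Real.pi * n * I, T9b_per hX z hz n, hre, ?_, ?_,
    a28a_per (T9b_per hX) per n z hz⟩
  · rw [him, hn]
    push_cast
    have := mul_le_mul_of_nonneg_left h3 hp.le
    linarith
  · rw [him, hn]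
    push_cast
    have := mul_lt_mul_of_pos_left h4 hp
    linarith

theorem T9b_mem {i : Fin k} {q : ℂ} (hq : K i = {q}) {ρ0 : ℝ} (h0 : 0 < ρ0) {X : Set ℂ}
    {ψ : ℂ → ℂ} (ch : GenChart (dom Ω (ball q ρ0 \ {q}) (K i) h) (L i)
      (dom Ω (ball q ρ0 \ {q}) (K i) h ∪ L i)ᶜ X ψ) {z : ℂ} (hz : z ∈ X) :
    ψ z ∈ Ω ∧ dist (h (ψ z)) q < ρ0 := by
  have h1 : ψ z ∈ dom Ω (ball q ρ0 \ {q}) (K i) h := by
    rw [← ch.image]
    exact mem_image_of_mem ψ hz
  obtain ⟨h2, h3⟩ := h1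
  rw [hq, T9b_union h0] at h3
  exact ⟨h2, h3⟩

theorem point_bdry (H : Approx Ω Ωs L K h hj) (i : Fin k) {q : ℂ} (hq : K i = {q}) {ρ0 : ℝ}
    (h0 : 0 < ρ0) (hs : closedBall q (2 * ρ0) \ {q} ⊆ Ωs) {X : Set ℂ} {ψ : ℂ → ℂ}
    (ch : GenChart (dom Ω (ball q ρ0 \ {q}) (K i) h) (L i)
      (dom Ω (ball q ρ0 \ {q}) (K i) h ∪ L i)ᶜ X ψ) {ε : ℝ} (hε : 0 < ε) :
    ∃ η > (0 : ℝ), ∀ z ∈ X, z.re < η → ρ0 - ε < dist (h (ψ z)) q := by
  have hSK : (ball q ρ0 \ {q}) ∪ K i = ball q ρ0 := by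
    rw [hq]
    exact T9b_union h0
  have hS : ball q ρ0 \ {q} ⊆ Ωs := by
    rintro w ⟨hw, hwq⟩
    refine hs ⟨?_, hwq⟩
    rw [mem_ball] at hw
    rw [mem_closedBall]
    linarith
  have oS : IsOpen ((ball q ρ0 \ {q}) ∪ K i) := by
    rw [hSK]
    exact isOpen_ball
  have nM : ((Ω ∩ h ⁻¹' ((ball q ρ0 \ {q}) ∪ K i)) ∪ L i)ᶜ.Nonempty := by
    have hw : q + ((3 / 2 * ρ0 : ℝ) : ℂ) ∈ Ωs := by
      refine hs ⟨?_, ?_⟩
      · rw [mem_closedBall, T9b_far h0]
        linarith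
      · intro hc
        have h1 := T9b_far (q := q) h0
        rw [mem_singleton_iff.mp hc, dist_self] at h1
        linarith
    obtain ⟨x, hx, hxw⟩ := H.surj hw
    refine ⟨x, ?_⟩
    rintro (hc | hc)
    · have h1 : h x ∈ (ball q ρ0 \ {q}) ∪ K i := hc.2
      rw [hSK, hxw, mem_ball, T9b_far h0] at h1
      linarith
    · have h1 : x ∈ ⋃ m, L m := mem_iUnion.mpr ⟨i, hc⟩
      rw [H.dom.union] at h1
      exact h1 hx
  obtain ⟨δ, hδ, h1⟩ := a28b_M H i hS oS nM hε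
  obtain ⟨η, hη, h2⟩ := ch.endM δ hδ
  refine ⟨η, hη, fun z hz hzη => ?_⟩
  have hmem : ψ z ∈ Ω ∩ h ⁻¹' ((ball q ρ0 \ {q}) ∪ K i) := by
    have h3 : ψ z ∈ dom Ω (ball q ρ0 \ {q}) (K i) h := by
      rw [← ch.image]
      exact mem_image_of_mem ψ hz
    exact h3
  have h4 := h1 _ hmem (h2 z hz hzη)
  rw [hSK] at h4
  have h5 := T9b_infDist (q := q) h0 (h (ψ z))
  linarith

theorem point_layer (H : Approx Ω Ωs L K h hj) (i : Fin k) {q : ℂ} (hq : K i = {q}) {ρ0 : ℝ}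
    (h0 : 0 < ρ0) {X : Set ℂ} {ψ : ℂ → ℂ}
    (ch : GenChart (dom Ω (ball q ρ0 \ {q}) (K i) h) (L i)
      (dom Ω (ball q ρ0 \ {q}) (K i) h ∪ L i)ᶜ X ψ) {d : ℝ} (hd : 0 < d) :
    ∃ κ > (0 : ℝ), ∀ z ∈ X, d ≤ z.re → dist (h (ψ z)) q ≤ ρ0 - κ := by
  obtain ⟨κ1, hκ1, hL⟩ := a28b_L H i (ε := ρ0 / 2) (by positivity)
  obtain ⟨a, haX, ha⟩ := ch.endL κ1 hκ1
  have hfar : ∀ z ∈ X, a < z.re → dist (h (ψ z)) q ≤ ρ0 - ρ0 / 2 := by
    intro z hz hza
    have h1 := hL (ψ z) (T9b_mem hq h0 ch hz).1 (ha z hz hza)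
    rw [hq, infDist_singleton] at h1
    linarith
  have hbox : (Icc d a ×ℂ Icc 0 (2 * Real.pi)) ⊆ X := by
    intro z hz
    have h1 := (gen_basic ch.Xf).2.2.2.2.2.2 _ haX z.re z.im (lt_of_lt_of_le hd hz.1.1) (by
      rw [Complex.ofReal_re]
      exact hz.1.2)
    rwa [Complex.re_add_im] at h1
  have hcpt : IsCompact (Icc d a ×ℂ Icc 0 (2 * Real.pi)) := isCompact_Icc.reProdIm isCompact_Icc
  have hcont : ContinuousOn (fun z => dist (h (ψ z)) q) (Icc d a ×ℂ Icc 0 (2 * Real.pi)) := by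
    have h1 : ContinuousOn (fun z => h (ψ z)) X :=
      H.cont.comp ch.diff.continuousOn (fun z hz => (T9b_mem hq h0 ch hz).1)
    exact (continuous_dist.comp_continuousOn ((h1.mono hbox).prodMk continuousOn_const) : _)
  rcases (Icc d a ×ℂ Icc 0 (2 * Real.pi)).eq_empty_or_nonempty with hem | hne
  · refine ⟨ρ0 / 2, by positivity, fun z hz hdz => ?_⟩
    by_cases hza : a < z.re
    · exact hfar z hz hza
    · exfalso
      obtain ⟨w, hw, h1, h2, h3, h4⟩ := T9b_shift ch.Xf ch.per hz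
      have h5 : w ∈ (Icc d a ×ℂ Icc 0 (2 * Real.pi)) :=
        ⟨⟨by rw [h1]; exact hdz, by rw [h1]; exact not_lt.mp hza⟩, ⟨h2, h3⟩⟩
      rw [hem] at h5
      exact h5
  · obtain ⟨m, hm, hmax⟩ := hcpt.exists_isMaxOn hne hcont
    have hmlt := (T9b_mem hq h0 ch (hbox hm)).2
    refine ⟨min (ρ0 / 2) (ρ0 - dist (h (ψ m)) q), lt_min (by positivity) (by linarith),
      fun z hz hdz => ?_⟩
    by_cases hza : a < z.re
    · have h1 := hfar z hz hza
      have h2 := min_le_left (ρ0 / 2) (ρ0 - dist (h (ψ m)) q)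
      linarith
    · obtain ⟨w, hw, h1, h2, h3, h4⟩ := T9b_shift ch.Xf ch.per hz
      have h5 : w ∈ (Icc d a ×ℂ Icc 0 (2 * Real.pi)) :=
        ⟨⟨by rw [h1]; exact hdz, by rw [h1]; exact not_lt.mp hza⟩, ⟨h2, h3⟩⟩
      have h6 : dist (h (ψ w)) q ≤ dist (h (ψ m)) q := hmax h5
      have h7 := min_le_right (ρ0 / 2) (ρ0 - dist (h (ψ m)) q)
      rw [h4] at h6
      linarith

theorem point_cpt (H : Approx Ω Ωs L K h hj) (i : Fin k) {q : ℂ} (hq : K i = {q}) {ρ0 : ℝ}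
    (h0 : 0 < ρ0) (hs : closedBall q (2 * ρ0) \ {q} ⊆ Ωs) {X : Set ℂ} {ψ : ℂ → ℂ}
    (ch : GenChart (dom Ω (ball q ρ0 \ {q}) (K i) h) (L i)
      (dom Ω (ball q ρ0 \ {q}) (K i) h ∪ L i)ᶜ X ψ) :
    ∃ Q ⊆ Ω, IsCompact Q ∧ ∃ d > (0 : ℝ), ∀ z ∈ X, z.re < d → ψ z ∈ Q := by
  obtain ⟨d, hd, h1⟩ := point_bdry H i hq h0 hs ch (ε := ρ0 / 2) (by positivity)
  have hQ : IsCompact (closedBall q ρ0 ∩ (ball q (ρ0 / 2))ᶜ) :=
    (isCompact_closedBall q ρ0).inter_right isOpen_ball.isClosed_compl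
  have hQs : closedBall q ρ0 ∩ (ball q (ρ0 / 2))ᶜ ⊆ Ωs := by
    rintro w ⟨hw1, hw2⟩
    refine hs ⟨?_, ?_⟩
    · rw [mem_closedBall] at hw1 ⊢
      linarith
    · intro hc
      rw [mem_singleton_iff.mp hc] at hw2
      exact hw2 (mem_ball_self (by positivity))
  refine ⟨Ω ∩ h ⁻¹' (closedBall q ρ0 ∩ (ball q (ρ0 / 2))ᶜ), inter_subset_left,
    H.compact_preimage hQ hQs, d, hd, fun z hz hzd => ?_⟩
  obtain ⟨h2, h3⟩ := T9b_mem hq h0 ch hz
  have h4 := h1 z hz hzd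
  refine ⟨h2, ?_, ?_⟩
  · rw [mem_closedBall]
    exact h3.le
  · rw [mem_compl_iff, mem_ball, not_lt]
    linarith

end

end CF6

end

section

/-!
# T9c: the polar lift near `re z = 0`, its degree

* `point_lift`: on `strip d ⊆ X` the function `h ∘ ψ - q` is continuous, nonvanishing, periodic. `gen_log` for `strip d`: `ℓ`, `m`. `U z = (ℓ z).im + ‖h (ψ z) - q‖ * I`. `exp (ℓ z) = h (ψ z) - q`, so `‖h (ψ z) - q‖ = exp (re ℓ)`, `pol q (U z) = q + ‖..‖ exp (I im ℓ) = h (ψ z)`. Continuous; `(ℓ (z + 2πI)).im = (ℓ z).im + 2π m`.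
* `point_deg`: `m = ±1`. For one large `j` let `f z = hj j (ψ z) - q` on `X`: continuous, periodic, nonvanishing (`hj j` maps into `Ωs`, `q ∈ K i ⊆ Ωsᶜ`). `gen_log`: `ℓj`, `m'`. `m' = m`: on the line `re z = d/2` (compact segment `0 ≤ im ≤ 2π`, `ψ` of it is compact in `Ω`, `hj → h` uniformly there, `‖h (ψ z) - q‖ ≥ c1 > 0`): for `j` large
  `‖f z/(h (ψ z) - q) - 1‖ < 1/2` on the whole line by periodicity; `(ℓj z - I * (U z).re - log ‖h (ψ z) - q‖ - log (f z / (h (ψ z) - q)))/(2πI)` is continuous and integer valued on the line, so constant: `2π m' I = 2π m I`.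
  `degree_one` with `F = f`, `D = {u | u.re < log c'}`. `inj`: `hj j` injective, `ψ` injective modulo periods. `opn`: `GenChart.opn`, homeomorphism `hj j` (open sets to open sets: preimage under the continuous inverse), translation. `cov`: `near` (A08a, `S = ball q ρ0 \ {q}`): `κ2` with `x ∈ Ω`, `infDist x (L i) < κ2 → h x ∈ S ∪ K i`, so `x ∈ A`; `back` for `j, i`, `η = κ2`:
  `κ3`; `c' = min κ3 ρ0`. For `u ∈ D`: `w = q + exp u`, `0 < ‖w - q‖ < c'`, so `w ∈ Ωs` (`hs`), `w = hj j x`, `infDist w (K i) = ‖w - q‖ < κ3`, `infDist x (L i) < κ2`, `x ∈ A = ψ '' X`, `x = ψ z`, `f z = exp u`.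
-/

open Complex Set Filter Topology Metric

namespace CF6

section

variable {k : ℕ} {Ω Ωs : Set ℂ} {L K : Fin k → Set ℂ} {h : ℂ → ℂ} {hj : ℕ → ℂ → ℂ}

private theorem t9c_cpsi {A L' M X : Set ℂ} {ψ : ℂ → ℂ} (ch : GenChart A L' M X ψ) :
    ContinuousOn ψ X := ch.diff.continuousOn

private theorem t9c_polar (w : ℂ) (l : ℂ) (h : exp l = w) :
    (‖w‖ : ℂ) * exp (I * (l.im : ℂ)) = w := by
  have h1 : ‖w‖ = Real.exp l.re := by rw [← h, Complex.norm_exp]
  rw [h1, Complex.ofReal_exp, ← Complex.exp_add, ← h]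
  congr 1
  rw [mul_comm I]
  exact Complex.re_add_im l

theorem point_lift (H : Approx Ω Ωs L K h hj) (i : Fin k) {q : ℂ} {ρ0 : ℝ} {X : Set ℂ}
    {ψ : ℂ → ℂ} (ch : GenChart (dom Ω (ball q ρ0 \ {q}) (K i) h) (L i)
      (dom Ω (ball q ρ0 \ {q}) (K i) h ∪ L i)ᶜ X ψ) {d : ℝ} (hd : 0 < d) (hdX : strip d ⊆ X)
    (hne : ∀ z ∈ strip d, h (ψ z) ≠ q) :
    ∃ U : ℂ → ℂ, ContinuousOn U (strip d) ∧ (∀ z ∈ strip d, 0 < (U z).im ∧ h (ψ z) = pol q (U z)) ∧
      ∃ m : ℤ, ∀ z ∈ strip d, U (z + 2 * Real.pi * I) = U z + 2 * Real.pi * m := by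
  have hψΩ : ∀ z ∈ X, ψ z ∈ Ω := by
    intro z hz
    have : ψ z ∈ dom Ω (ball q ρ0 \ {q}) (K i) h := ch.image ▸ mem_image_of_mem ψ hz
    exact this.1
  have cf : ContinuousOn (fun z => h (ψ z) - q) (strip d) := by
    refine ContinuousOn.sub ?_ continuousOn_const
    exact H.cont.comp ((t9c_cpsi ch).mono hdX) (fun z hz => hψΩ z (hdX hz))
  have f0 : ∀ z ∈ strip d, h (ψ z) - q ≠ 0 := fun z hz => sub_ne_zero.mpr (hne z hz)
  have fper : ∀ z ∈ strip d, h (ψ (z + 2 * Real.pi * I)) - q = h (ψ z) - q := by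
    intro z hz
    rw [ch.per z (hdX hz)]
  obtain ⟨l, cl, el, m, hm⟩ := gen_log (Or.inl ⟨d, hd, rfl⟩) cf f0 fper
  refine ⟨fun z => ((l z).im : ℂ) + (‖h (ψ z) - q‖ : ℂ) * I, ?_, ?_, m, ?_⟩
  · refine ContinuousOn.add ?_ (ContinuousOn.mul ?_ continuousOn_const)
    · exact Complex.continuous_ofReal.comp_continuousOn
        (Complex.continuous_im.comp_continuousOn cl)
    · exact Complex.continuous_ofReal.comp_continuousOn cf.norm
  · intro z hz
    have hre : (((l z).im : ℂ) + (‖h (ψ z) - q‖ : ℂ) * I).re = (l z).im := by simp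
    have him : (((l z).im : ℂ) + (‖h (ψ z) - q‖ : ℂ) * I).im = ‖h (ψ z) - q‖ := by simp
    refine ⟨?_, ?_⟩
    · show 0 < (((l z).im : ℂ) + (‖h (ψ z) - q‖ : ℂ) * I).im
      rw [him]
      exact norm_pos_iff.mpr (f0 z hz)
    · show h (ψ z) = pol q (((l z).im : ℂ) + (‖h (ψ z) - q‖ : ℂ) * I)
      unfold pol
      rw [hre, him, t9c_polar _ _ (el z hz)]
      ring
  · intro z hz
    show ((l (z + 2 * Real.pi * I)).im : ℂ) + (‖h (ψ (z + 2 * Real.pi * I)) - q‖ : ℂ) * I = _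
    rw [hm z hz, fper z hz]
    have h1 : (l z + 2 * Real.pi * m * I).im = (l z).im + 2 * Real.pi * m := by
      simp [mul_assoc]
    rw [h1]
    push_cast
    ring

private theorem t9c_const (D : ℝ → ℂ) (hc : Continuous D)
    (hint : ∀ t, ∃ n : ℤ, D t = n * (2 * Real.pi * I)) (s t : ℝ) : D s = D t := by
  have hpi := Real.pi_pos
  have key : ∀ (s t : ℝ) (n n' : ℤ), D s = n * (2 * Real.pi * I) →
      D t = n' * (2 * Real.pi * I) → ¬ n < n' := by
    intro s t n n' hn hn' hlt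
    have cν : Continuous (fun x => (D x).im / (2 * Real.pi)) :=
      (Complex.continuous_im.comp hc).div_const _
    have him : ∀ (x : ℝ) (a : ℤ), D x = a * (2 * Real.pi * I) →
        (D x).im / (2 * Real.pi) = a := by
      intro x a ha
      have h1 : (D x).im = a * (2 * Real.pi) := by
        rw [ha]
        simp
      rw [h1]
      field_simp
    have h1 : (D s).im / (2 * Real.pi) ≤ (n : ℝ) + 1 / 2 := by
      rw [him s n hn]; linarith
    have h2 : (n : ℝ) + 1 / 2 ≤ (D t).im / (2 * Real.pi) := by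
      rw [him t n' hn']
      have : (n : ℝ) + 1 ≤ n' := by exact_mod_cast hlt
      linarith
    obtain ⟨x, hx⟩ := mem_range_of_exists_le_of_exists_ge cν ⟨s, h1⟩ ⟨t, h2⟩
    obtain ⟨a, ha⟩ := hint x
    have h3 : (a : ℝ) = (n : ℝ) + 1 / 2 := by
      rw [← him x a ha]; exact hx
    have h4 : (2 * a : ℤ) = 2 * n + 1 := by
      have : (2 * (a : ℝ)) = 2 * n + 1 := by rw [h3]; ring
      exact_mod_cast this
    omega
  obtain ⟨n, hn⟩ := hint s
  obtain ⟨n', hn'⟩ := hint t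
  have h1 := key s t n n' hn hn'
  have h2 := key t s n' n hn' hn
  have h3 : n = n' := by omega
  rw [hn, hn', h3]

private theorem t9c_open {f : ℂ → ℂ} {Ω' Ωs' V : Set ℂ} (hf : IsHomeoOnto f Ω' Ωs')
    (oΩs : IsOpen Ωs') (hV : V ⊆ Ω') (oV : IsOpen V) : IsOpen (f '' V) := by
  obtain ⟨g, hg, hinv, hgm⟩ := hf.inverse
  have h1 : f '' V = Ωs' ∩ g ⁻¹' V := by
    ext y
    constructor
    · rintro ⟨x, hx, rfl⟩
      refine ⟨hf.2.1.mapsTo (hV hx), ?_⟩
      show g (f x) ∈ V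
      rw [hinv.1 (hV hx)]
      exact hx
    · rintro ⟨hy, hy'⟩
      exact ⟨g y, hy', hinv.2 hy⟩
  rw [h1]
  exact hg.1.isOpen_inter_preimage oΩs oV

theorem point_deg (H : Approx Ω Ωs L K h hj) (i : Fin k) {q : ℂ} (hq : K i = {q}) {ρ0 : ℝ}
    (h0 : 0 < ρ0) (hs : closedBall q (2 * ρ0) \ {q} ⊆ Ωs) {X : Set ℂ} {ψ : ℂ → ℂ}
    (ch : GenChart (dom Ω (ball q ρ0 \ {q}) (K i) h) (L i)
      (dom Ω (ball q ρ0 \ {q}) (K i) h ∪ L i)ᶜ X ψ) {d : ℝ} (hd : 0 < d) (hdX : strip d ⊆ X)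
    {U : ℂ → ℂ} (cU : ContinuousOn U (strip d))
    (hU : ∀ z ∈ strip d, 0 < (U z).im ∧ h (ψ z) = pol q (U z)) {m : ℤ}
    (per : ∀ z ∈ strip d, U (z + 2 * Real.pi * I) = U z + 2 * Real.pi * m) : m = 1 ∨ m = -1 := by
  have hpi := Real.pi_pos
  have hψA : ∀ z ∈ X, ψ z ∈ dom Ω (ball q ρ0 \ {q}) (K i) h := fun z hz =>
    ch.image ▸ mem_image_of_mem ψ hz
  have hψΩ : ∀ z ∈ X, ψ z ∈ Ω := fun z hz => (hψA z hz).1
  have hqs : q ∉ Ωs := by
    have h1 : q ∈ ⋃ i, K i := mem_iUnion.mpr ⟨i, by rw [hq]; exact mem_singleton q⟩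
    rw [H.tgt.union] at h1
    exact h1
  -- the line
  set ln : ℝ → ℂ := fun t => ((d / 2 : ℝ) : ℂ) + t * I with hln
  have cln : Continuous ln := by rw [hln]; fun_prop
  have hlnm : ∀ t, ln t ∈ strip d := by
    intro t
    have : (ln t).re = d / 2 := by simp [hln]
    constructor <;> rw [this] <;> linarith
  have hlnp : ∀ t, ln (t + 2 * Real.pi) = ln t + 2 * Real.pi * I := by
    intro t
    simp only [hln]
    push_cast
    ring
  have hhU : ∀ z ∈ strip d, h (ψ z) - q = (U z).im * exp (I * (U z).re) := by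
    intro z hz
    rw [(hU z hz).2]
    unfold pol
    ring
  have cUl : Continuous (fun t => U (ln t)) := by
    rw [← continuousOn_univ]
    exact cU.comp cln.continuousOn (fun t _ => hlnm t)
  have cV : Continuous (fun t => (U (ln t)).im) := Complex.continuous_im.comp cUl
  have cR : Continuous (fun t => (U (ln t)).re) := Complex.continuous_re.comp cUl
  have hV0 : ∀ t, 0 < (U (ln t)).im := fun t => (hU _ (hlnm t)).1
  obtain ⟨t1, _, ht1⟩ := (isCompact_Icc (a := (0 : ℝ)) (b := 2 * Real.pi)).exists_isMinOn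
    (nonempty_Icc.mpr (by positivity)) cV.continuousOn
  set c1 : ℝ := (U (ln t1)).im with hc1
  have hc10 : 0 < c1 := hV0 t1
  have hQc : IsCompact ((fun t => ψ (ln t)) '' Icc (0 : ℝ) (2 * Real.pi)) := by
    refine isCompact_Icc.image_of_continuousOn ?_
    exact (t9c_cpsi ch).comp cln.continuousOn (fun t _ => hdX (hlnm t))
  have hQs : ((fun t => ψ (ln t)) '' Icc (0 : ℝ) (2 * Real.pi)) ⊆ Ω := by
    rintro _ ⟨t, _, rfl⟩
    exact hψΩ _ (hdX (hlnm t))
  obtain ⟨j0, hj0⟩ := H.unif hQc hQs (half_pos hc10)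
  have hjc := hj0 j0 le_rfl
  set f : ℂ → ℂ := fun z => hj j0 (ψ z) - q with hf
  have hjm : ∀ z ∈ X, hj j0 (ψ z) ∈ Ωs := fun z hz => (H.homeo j0).2.1.mapsTo (hψΩ z hz)
  have cf : ContinuousOn f X := by
    refine ContinuousOn.sub ?_ continuousOn_const
    exact (H.homeo j0).1.comp (t9c_cpsi ch) hψΩ
  have f0 : ∀ z ∈ X, f z ≠ 0 := by
    intro z hz h1
    have h2 : hj j0 (ψ z) = q := sub_eq_zero.mp h1
    exact hqs (h2 ▸ hjm z hz)
  have fper : ∀ z ∈ X, f (z + 2 * Real.pi * I) = f z := by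
    intro z hz
    simp only [hf]
    rw [ch.per z hz]
  obtain ⟨l, cl, el, m', hm'⟩ := gen_log ch.Xf cf f0 fper
  -- the quotient
  set r : ℝ → ℂ := fun t => f (ln t) / (h (ψ (ln t)) - q) with hr
  have hden : ∀ t, h (ψ (ln t)) - q ≠ 0 := by
    intro t
    rw [hhU _ (hlnm t)]
    refine mul_ne_zero ?_ (Complex.exp_ne_zero _)
    exact_mod_cast (hV0 t).ne'
  have hnorm : ∀ t, ‖h (ψ (ln t)) - q‖ = (U (ln t)).im := by
    intro t
    rw [hhU _ (hlnm t), norm_mul, mul_comm I, Complex.norm_exp_ofReal_mul_I, mul_one,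
      Complex.norm_real, Real.norm_of_nonneg (hV0 t).le]
  have rper : Function.Periodic r (2 * Real.pi) := by
    intro t
    simp only [hr]
    rw [hlnp, fper _ (hdX (hlnm t)), ch.per _ (hdX (hlnm t))]
  have hr1 : ∀ t, ‖r t - 1‖ < 1 / 2 := by
    intro t
    obtain ⟨y, hy, hty⟩ := rper.exists_mem_Ico₀ (by positivity) t
    rw [hty]
    have hyI : y ∈ Icc (0 : ℝ) (2 * Real.pi) := ⟨hy.1, hy.2.le⟩
    have h1 : r y - 1 = (hj j0 (ψ (ln y)) - h (ψ (ln y))) / (h (ψ (ln y)) - q) := by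
      simp only [hr, hf]
      rw [div_sub_one (hden y)]
      congr 1
      ring
    rw [h1, norm_div, hnorm y]
    have h2 : dist (hj j0 (ψ (ln y))) (h (ψ (ln y))) < c1 / 2 :=
      hjc _ ⟨y, hyI, rfl⟩
    rw [dist_eq_norm] at h2
    have h3 : c1 ≤ (U (ln y)).im := ht1 hyI
    rw [div_lt_iff₀ (hV0 y)]
    linarith
  have hsl : ∀ t, r t ∈ slitPlane := by
    intro t
    left
    have h1 : |(r t - 1).re| ≤ ‖r t - 1‖ := Complex.abs_re_le_norm _
    have h2 := hr1 t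
    have h3 := (abs_le.mp h1).1
    rw [Complex.sub_re, Complex.one_re] at h3
    linarith
  have cr : Continuous r := by
    refine Continuous.div ?_ ?_ hden
    · rw [← continuousOn_univ]
      exact cf.comp cln.continuousOn (fun t _ => hdX (hlnm t))
    · refine Continuous.sub ?_ continuous_const
      rw [← continuousOn_univ]
      exact H.cont.comp ((t9c_cpsi ch).comp cln.continuousOn (fun t _ => hdX (hlnm t)))
        (fun t _ => hψΩ _ (hdX (hlnm t)))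
  have clogr : Continuous (fun t => Complex.log (r t)) :=
    cr.clog hsl
  have cll : Continuous (fun t => l (ln t)) := by
    rw [← continuousOn_univ]
    exact cl.comp cln.continuousOn (fun t _ => hdX (hlnm t))
  have clogV : Continuous (fun t => Real.log (U (ln t)).im) :=
    cV.log (fun t => (hV0 t).ne')
  set D : ℝ → ℂ := fun t => l (ln t) - ((Real.log (U (ln t)).im : ℝ) + I * ((U (ln t)).re : ℂ)) -
    Complex.log (r t) with hD
  have cD : Continuous D := by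
    refine (cll.sub ?_).sub clogr
    exact (Complex.continuous_ofReal.comp clogV).add
      (continuous_const.mul (Complex.continuous_ofReal.comp cR))
  have hDint : ∀ t, ∃ n : ℤ, D t = n * (2 * Real.pi * I) := by
    intro t
    rw [← Complex.exp_eq_one_iff]
    have hr0 : r t ≠ 0 := Complex.slitPlane_ne_zero (hsl t)
    simp only [hD]
    rw [Complex.exp_sub, Complex.exp_sub, Complex.exp_log hr0, el _ (hdX (hlnm t)),
      Complex.exp_add, ← Complex.ofReal_exp, Real.exp_log (hV0 t), ← hhU _ (hlnm t)]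
    have h1 : r t = f (ln t) / (h (ψ (ln t)) - q) := rfl
    rw [← h1, div_self hr0]
  have hconst := t9c_const D cD hDint (0 + 2 * Real.pi) 0
  have hmm : m' = m := by
    simp only [hD] at hconst
    rw [rper 0, hlnp 0, hm' _ (hdX (hlnm 0)), per _ (hlnm 0)] at hconst
    have h1 : (U (ln 0) + 2 * Real.pi * m).im = (U (ln 0)).im := by simp
    have h2 : (U (ln 0) + 2 * Real.pi * m).re = (U (ln 0)).re + 2 * Real.pi * m := by simp
    rw [h1, h2] at hconst
    push_cast at hconst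
    have h3 : (2 * Real.pi * I : ℂ) * (m' - m) = 0 := by linear_combination hconst
    have h4 : (2 * Real.pi * I : ℂ) ≠ 0 := Complex.two_pi_I_ne_zero
    have h5 := (mul_eq_zero.mp h3).resolve_left h4
    have h6 : (m' : ℂ) = m := sub_eq_zero.mp h5
    exact_mod_cast h6
  rw [← hmm]
  -- the constants
  have hS : ball q ρ0 \ {q} ⊆ Ωs := by
    refine subset_trans ?_ hs
    intro x hx
    refine ⟨?_, hx.2⟩
    have h1 := hx.1
    rw [mem_ball] at h1
    rw [mem_closedBall]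
    linarith
  have hSK : (ball q ρ0 \ {q}) ∪ K i = ball q ρ0 := by
    rw [hq, sdiff_union_self, union_eq_left, singleton_subset_iff]
    exact mem_ball_self h0
  obtain ⟨κ2, hκ2, hnear⟩ := H.near i hS (by rw [hSK]; exact isOpen_ball)
  obtain ⟨κ3, hκ3, hback⟩ := H.back j0 i κ2 hκ2
  set c' : ℝ := min κ3 ρ0 with hc'
  have hc'0 : 0 < c' := lt_min hκ3 h0
  obtain ⟨oX, _, _, pX, _⟩ := gen_basic ch.Xf
  refine degree_one (X := X) (D := {u : ℂ | u.re < Real.log c'}) (F := f) (ℓ := l) oX pX cl el hm'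
    ?_ ?_ ?_ ?_ ?_ ?_
  · intro z hz w hw hzw
    have h1 : hj j0 (ψ z) = hj j0 (ψ w) := by
      have h2 : hj j0 (ψ z) - q = hj j0 (ψ w) - q := hzw
      exact sub_left_injective h2
    exact ch.inj z hz w hw ((H.homeo j0).2.1.injOn (hψΩ z hz) (hψΩ w hw) h1)
  · intro V hV oV
    have h1 : IsOpen (ψ '' V) := ch.opn V hV oV
    have h2 : IsOpen (hj j0 '' (ψ '' V)) := by
      refine t9c_open (H.homeo j0) H.tgt.isOpen ?_ h1
      rintro _ ⟨z, hz, rfl⟩
      exact hψΩ z (hV hz)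
    have h3 : f '' V = (fun w => w - q) '' (hj j0 '' (ψ '' V)) := by
      rw [image_image, image_image]
    rw [h3]
    exact (Homeomorph.subRight q).isOpenMap _ h2
  · exact (convex_halfSpace_re_lt _).isPreconnected
  · refine ⟨((Real.log c' - 1 : ℝ) : ℂ), ?_⟩
    show (((Real.log c' - 1 : ℝ) : ℂ)).re < Real.log c'
    rw [Complex.ofReal_re]
    linarith
  · intro z
    show z.re < Real.log c' ↔ (z + 2 * Real.pi * I).re < Real.log c'
    have h1 : (z + 2 * Real.pi * I).re = z.re := by simp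
    rw [h1]
  · rintro _ ⟨u, hu, rfl⟩
    have hu' : u.re < Real.log c' := hu
    have hn : ‖exp u‖ < c' := by
      rw [Complex.norm_exp]
      calc Real.exp u.re < Real.exp (Real.log c') := Real.exp_lt_exp.mpr hu'
        _ = c' := Real.exp_log hc'0
    have hws : q + exp u ∈ Ωs := by
      apply hs
      refine ⟨?_, ?_⟩
      · rw [mem_closedBall, dist_eq_norm, add_sub_cancel_left]
        have h1 : c' ≤ ρ0 := min_le_right _ _
        linarith
      · intro h1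
        have h2 : q + exp u = q := h1
        simp at h2
    obtain ⟨x, hx, hxw⟩ := (H.homeo j0).2.1.surjOn hws
    have h1 : infDist (hj j0 x) (K i) < κ3 := by
      rw [hxw, hq, infDist_singleton, dist_eq_norm, add_sub_cancel_left]
      exact lt_of_lt_of_le hn (min_le_left _ _)
    have h2 := hnear x hx (hback x hx h1)
    have h3 : x ∈ dom Ω (ball q ρ0 \ {q}) (K i) h := ⟨hx, h2⟩
    rw [← ch.image] at h3
    obtain ⟨z, hz, rfl⟩ := h3
    refine ⟨z, hz, ?_⟩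
    show hj j0 (ψ z) - q = exp u
    rw [hxw]
    ring

end

end CF6

end

section

/-!
# T9d: monotonicity of the polar lift

PROOF. `B' = pol q '' B` is open (`pol_open`), connected (`pol_conn`), contained in `ball q ρ0 \ {q} ⊆ Ωs` (`norm_pol`). `Y = {x ∈ Ω | h x ∈ B'}` is preconnected (`Approx.mc`), nonempty (`Approx.surj`), contained in `A = dom ..`.
`{z ∈ strip d | U z ∈ B} = {z ∈ X | ψ z ∈ Y}`: if `U z ∈ B`: `h (ψ z) = pol q (U z) ∈ B'`, `ψ z ∈ A ⊆ Ω`. Conversely `z ∈ X`, `h (ψ z) = pol q u`, `u ∈ B`: `dist (h (ψ z)) q = u.im > ρ0 - κ`, so `z.re < d` (`hκ`), `z ∈ strip d` (`gen_basic`: `0 < z.re`), `h (ψ z) = pol q (U z)`, `U z = u + 2π n` (`pol_inj`), `∈ B` (`pB`,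
both directions, induction). `GenChart.conn_image`.
-/

open Complex Set Filter Topology Metric

namespace CF6

theorem T9d_per_nat {B : Set ℂ} (pB : ∀ u, u ∈ B ↔ u + 2 * Real.pi ∈ B) (n : ℕ) :
    ∀ u, u ∈ B ↔ u + 2 * Real.pi * n ∈ B := by
  induction n with
  | zero => intro u; simp
  | succ n ih =>
    intro u
    rw [ih u, pB (u + 2 * Real.pi * n)]
    have h1 : u + 2 * (Real.pi : ℂ) * n + 2 * Real.pi = u + 2 * Real.pi * (n + 1 : ℕ) := by
      push_cast; ring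
    rw [h1]

theorem T9d_per_int {B : Set ℂ} (pB : ∀ u, u ∈ B ↔ u + 2 * Real.pi ∈ B) (n : ℤ) (u : ℂ)
    (hu : u ∈ B) : u + 2 * Real.pi * n ∈ B := by
  obtain ⟨m, rfl | rfl⟩ := n.eq_nat_or_neg
  · have := (T9d_per_nat pB m u).1 hu
    exact_mod_cast this
  · apply (T9d_per_nat pB m _).2
    have h1 : u + 2 * (Real.pi : ℂ) * ((-(m : ℤ) : ℤ) : ℂ) + 2 * Real.pi * m = u := by
      push_cast; ring
    rw [h1]
    exact hu

theorem point_mc {k : ℕ} {Ω Ωs : Set ℂ} {L K : Fin k → Set ℂ} {h : ℂ → ℂ} {hj : ℕ → ℂ → ℂ}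
    (H : Approx Ω Ωs L K h hj) (i : Fin k) {q : ℂ} (hq : K i = {q}) {ρ0 : ℝ}
    (h0 : 0 < ρ0) (hs : closedBall q (2 * ρ0) \ {q} ⊆ Ωs) {X : Set ℂ} {ψ : ℂ → ℂ}
    (ch : GenChart (dom Ω (ball q ρ0 \ {q}) (K i) h) (L i)
      (dom Ω (ball q ρ0 \ {q}) (K i) h ∪ L i)ᶜ X ψ) {d κ : ℝ} (hd : 0 < d) (hdX : strip d ⊆ X)
    (hκ : ∀ z ∈ X, d ≤ z.re → dist (h (ψ z)) q ≤ ρ0 - κ) {U : ℂ → ℂ}
    (hU : ∀ z ∈ strip d, 0 < (U z).im ∧ h (ψ z) = pol q (U z)) {B : Set ℂ} (hB : IsOpen B)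
    (pB : ∀ u, u ∈ B ↔ u + 2 * Real.pi ∈ B)
    (sB : ∀ u ∈ B, 0 < u.im ∧ ρ0 - κ < u.im ∧ u.im < ρ0)
    (cB : IsConnected ((fun u => exp (I * u)) '' B)) {F : ℂ → ℂ} (hF : ContinuousOn F X)
    (per : ∀ s ∈ X, F (s + 2 * Real.pi * I) = F s) :
    IsConnected (F '' {z | z ∈ strip d ∧ U z ∈ B}) := by
  have _ := h0
  have _ := hq
  have _ := hd
  have p0 : ∀ u ∈ B, 0 < u.im := fun u hu => (sB u hu).1
  have hsub : pol q '' B ⊆ ball q ρ0 \ {q} := by
    rintro _ ⟨u, hu, rfl⟩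
    have h1 := norm_pol q (p0 u hu).le
    refine ⟨?_, ?_⟩
    · rw [mem_ball, dist_eq_norm, h1]
      exact (sB u hu).2.2
    · intro h2
      rw [Set.mem_singleton_iff] at h2
      rw [h2, sub_self, norm_zero] at h1
      exact absurd h1.symm (p0 u hu).ne'
  have hsub2 : pol q '' B ⊆ Ωs := by
    intro w hw
    have h1 := hsub hw
    apply hs
    refine ⟨?_, h1.2⟩
    have h2 := mem_ball.1 h1.1
    rw [mem_closedBall]
    linarith
  have hopen := pol_open q hB p0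
  have hconn := pol_conn q p0 cB
  have hY : IsPreconnected (Ω ∩ h ⁻¹' (pol q '' B)) :=
    H.mc hopen hconn.isPreconnected hsub2
  have hYn : (Ω ∩ h ⁻¹' (pol q '' B)).Nonempty := by
    obtain ⟨p, hp⟩ := hconn.nonempty
    obtain ⟨x, hx, hxp⟩ := H.surj (hsub2 hp)
    exact ⟨x, hx, by rw [Set.mem_preimage, hxp]; exact hp⟩
  have hYA : Ω ∩ h ⁻¹' (pol q '' B) ⊆ dom Ω (ball q ρ0 \ {q}) (K i) h := by
    rintro x ⟨hx, hx2⟩
    exact ⟨hx, Or.inl (hsub hx2)⟩
  have hset : {z | z ∈ strip d ∧ U z ∈ B} = {z | z ∈ X ∧ ψ z ∈ Ω ∩ h ⁻¹' (pol q '' B)} := by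
    ext z
    constructor
    · rintro ⟨hz, hz2⟩
      have h2 : ψ z ∈ dom Ω (ball q ρ0 \ {q}) (K i) h := by
        rw [← ch.image]
        exact ⟨z, hdX hz, rfl⟩
      refine ⟨hdX hz, h2.1, ?_⟩
      rw [Set.mem_preimage, (hU z hz).2]
      exact ⟨U z, hz2, rfl⟩
    · rintro ⟨hz, -, u, hu, hz2⟩
      have h3 : dist (h (ψ z)) q = u.im := by
        rw [← hz2, dist_eq_norm, norm_pol q (p0 u hu).le]
      have h4 : z.re < d := by
        by_contra hcon
        have h5 := hκ z hz (not_lt.1 hcon)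
        rw [h3] at h5
        linarith [(sB u hu).2.1]
      have h5 : z ∈ strip d := ⟨(gen_basic ch.Xf).2.2.2.2.2.1 z hz, h4⟩
      refine ⟨h5, ?_⟩
      obtain ⟨hU1, hU2⟩ := hU z h5
      obtain ⟨n, hn⟩ := pol_inj q (p0 u hu) hU1 (hz2.trans hU2)
      rw [hn]
      exact T9d_per_int pB n u hu
  rw [hset]
  exact ch.conn_image hF per hYA ⟨hYn, hY⟩

end CF6

end
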