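import Pool.Agent.Lib.MP_cf6b16_an.DefsB
import Pool.Agent.Lib.MP_cf6b16_an.N1
import Pool.Agent.Lib.MP_cf6b16_an.N2
import Pool.Agent.Lib.MP_cf6b16_an.A2
import Pool.Agent.Lib.MP_cf6b16_an.F3
import Pool.Agent.Lib.MP_cf6b16_an.T1

section

/-! # Module N, row N1a (owner helper88): the cell of a nondegenerate component

Everything of `StripG` except the boundary values, plus `CellData`. `H` and `lim` are for the same sequence `hj`.

PROOF. `y2, d` from `collar_small`. For `τ`: `S = collar Φ τ`; `collar_facts` (with `Comps.alt`) gives open, connected, complement connected; `Approx.strip_chart` (A27, `dom Ω S (K i) h = Ω ∩ h⁻¹' (S ∪ K i)` as sets) gives `T, ψ0` (`StripChart`); `M = (dom ∪ L i)ᶜ` is nonempty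
(`collar_compl_conn`). `exists_liftG`: `G0`, `m`; `deg_liftG`: `m = ±1`.
Case `m = 1`: `ψ = ψ0`, `G = G0`. `Chart`: `Xopen`, `Xper` for the strip, `conf` left. `CellData`: `lo`, `bd` (`cell_bd`), `mc` with `κ = 1` (`cell_mc` with `F z = exp (-conj z)`, periodic). `tendL`: `endL`. `cpt`: `cell_cpt`.
Case `m = -1`: `ψ z = ψ0 (conj z)`, `G z = G0 (conj z)` (`strip T` is invariant under conjugation): `G (z + 2πI) = G0 (conj z - 2πI) = G0 (conj z) + 2π` (apply the period at `conj z - 2πI`). `Chart`: `conf` right: `fun z => ψ (conj z) = ψ0` on `conj '' strip T = strip T`. `mc`: the image of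
`{z | G z ∈ B} = conj '' {z | G0 z ∈ B}` under `exp (-conj z)` is the image of `{z | G0 z ∈ B}` under `F z = exp (-z)`. `tendL`, `cpt`, `bd`: the real part is unchanged. -/

open Complex MeasureTheory Set Filter Topology Metric
open scoped ENNReal ComplexConjugate

namespace CF6

theorem n1a_strip_conj {T : ℝ} {z : ℂ} : (starRingEnd ℂ) z ∈ strip T ↔ z ∈ strip T := by
  simp only [strip, Set.mem_ofPred_eq, conj_re]

theorem n1a_strip_per {T : ℝ} {z : ℂ} : z + 2 * Real.pi * I ∈ strip T ↔ z ∈ strip T := by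
  have : (z + 2 * Real.pi * I).re = z.re := by simp
  simp only [strip, Set.mem_ofPred_eq, this]

theorem n1a_strip_per' {T : ℝ} {z : ℂ} : z - 2 * Real.pi * I ∈ strip T ↔ z ∈ strip T := by
  have : (z - 2 * Real.pi * I).re = z.re := by simp
  simp only [strip, Set.mem_ofPred_eq, this]

theorem n1a_conj_per (z : ℂ) :
    (starRingEnd ℂ) (z + 2 * Real.pi * I) = (starRingEnd ℂ) z - 2 * Real.pi * I := by
  rw [map_add, map_mul, map_mul, conj_I, conj_ofReal, map_ofNat]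
  ring

theorem n1a_conj_image {T : ℝ} : (starRingEnd ℂ) '' strip T = strip T := by
  ext z
  constructor
  · rintro ⟨w, hw, rfl⟩
    exact n1a_strip_conj.2 hw
  · intro hz
    exact ⟨(starRingEnd ℂ) z, n1a_strip_conj.2 hz, Complex.conj_conj z⟩

theorem n1a_strip_open (T : ℝ) : IsOpen (strip T) :=
  (isOpen_lt continuous_const Complex.continuous_re).inter
    (isOpen_lt Complex.continuous_re continuous_const)

theorem n1a_chart {A L M : Set ℂ} {T : ℝ} {ψ : ℂ → ℂ} (ch : StripChart A L M T ψ) :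
    Chart (strip T) A ψ where
  Xopen := n1a_strip_open T
  Xper := fun z => n1a_strip_per.symm
  conf := Or.inl ch.diff
  per := ch.per
  inj := by
    intro z hz w hw h
    obtain ⟨n, hn⟩ := ch.inj z hz w hw h
    exact ⟨n, by rw [hn]; ring⟩
  image := ch.image

theorem n1a_chart' {A L M : Set ℂ} {T : ℝ} {ψ : ℂ → ℂ} (ch : StripChart A L M T ψ) :
    Chart (strip T) A (fun z => ψ ((starRingEnd ℂ) z)) where
  Xopen := n1a_strip_open T
  Xper := fun z => n1a_strip_per.symm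
  conf := by
    right
    rw [n1a_conj_image]
    simp only [Complex.conj_conj]
    exact ch.diff
  per := by
    intro z hz
    show ψ ((starRingEnd ℂ) (z + 2 * Real.pi * I)) = ψ ((starRingEnd ℂ) z)
    rw [n1a_conj_per]
    have h1 : (starRingEnd ℂ) z - 2 * Real.pi * I ∈ strip T :=
      n1a_strip_per'.2 (n1a_strip_conj.2 hz)
    have h2 := ch.per _ h1
    rw [sub_add_cancel] at h2
    exact h2.symm
  inj := by
    intro z hz w hw h
    obtain ⟨n, hn⟩ := ch.inj _ (n1a_strip_conj.2 hz) _ (n1a_strip_conj.2 hw) h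
    refine ⟨-n, ?_⟩
    have h1 := congrArg (starRingEnd ℂ) hn
    rw [Complex.conj_conj, map_add, map_mul, map_mul, map_mul, conj_I, conj_ofReal, map_ofNat,
      Complex.conj_conj, map_intCast] at h1
    rw [h1]
    push_cast
    ring
  image := by
    rw [← ch.image]
    ext x
    constructor
    · rintro ⟨z, hz, rfl⟩
      exact ⟨_, n1a_strip_conj.2 hz, rfl⟩
    · rintro ⟨z, hz, rfl⟩
      exact ⟨(starRingEnd ℂ) z, n1a_strip_conj.2 hz, by simp only [Complex.conj_conj]⟩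

theorem approx_cell_nondeg {k : ℕ} {Ω Ωs : Set ℂ} {L K : Fin k → Set ℂ} {h g : ℂ → ℂ}
    {hj : ℕ → ℂ → ℂ} (H : Approx Ω Ωs L K h hj) (i : Fin k) {Φ ρ : ℂ → ℂ}
    (hK : Collar (K i) Φ ρ) (lim : LimData Ω (K i) ρ h g hj) (nL : (L i).Nontrivial)
    (r0 : ℝ) (hr0 : 0 < r0) :
    ∃ y2 > (0 : ℝ), ∀ (c r : ℝ) (τ : ℝ → ℝ), c ≤ 1 → r ≤ y2 → Depth c r τ →
      IsOpen (collar Φ τ) ∧ collar Φ τ ⊆ Ωs ∧ IsOpen (collar Φ τ ∪ K i) ∧
      (∀ w ∈ collar Φ τ, infDist w (K i) < r0) ∧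
      ∃ (T : ℝ) (ψ G : ℂ → ℂ), Chart (strip T) (dom Ω (collar Φ τ) (K i) h) ψ ∧
        CellData τ T G ∧ (∀ z ∈ strip T, exp (I * G z) = g (ψ z)) ∧
        (∀ η > (0 : ℝ), ∃ d > (0 : ℝ), ∀ z ∈ strip T, T - d < z.re →
          infDist (ψ z) (L i) < η) ∧
        (∃ Q ⊆ Ω, IsCompact Q ∧ ∃ d > (0 : ℝ), ∀ z ∈ strip T, z.re < d → ψ z ∈ Q) := by
  have alt := H.tgt.alt i
  obtain ⟨y2, hy2, d, hd, hsm⟩ := collar_small H.tgt hK hr0
  refine ⟨y2, hy2, fun c r τ _ hr hτ => ?_⟩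
  obtain ⟨oC, oS, cC, cS, cT, dis⟩ := collar_facts hK alt hτ
  obtain ⟨hS, hnear, hfar, nT⟩ := hsm c r τ hτ hr
  refine ⟨oC, hS, oS, hnear, ?_⟩
  obtain ⟨T, ψ, ch0⟩ := H.strip_chart i hS oS cS cT nT nL
  have ch : StripChart (dom Ω (collar Φ τ) (K i) h) (L i)
    (dom Ω (collar Φ τ) (K i) h ∪ L i)ᶜ T ψ := ch0
  have nM : (dom Ω (collar Φ τ) (K i) h ∪ L i)ᶜ.Nonempty :=
    (H.collar_compl_conn i hS oS cT).nonempty
  obtain ⟨G, cG, eG, lo, h1, h2, m, per⟩ := exists_liftG hK lim hτ ch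
  have hm := deg_liftG H i hK lim hτ hS ch nM cG eG per
  obtain ⟨Q, hQ, cQ, dQ, hdQ, hQd⟩ := cell_cpt H i hS oS hd hfar ch nM
  have bd : ∀ η > (0 : ℝ), ∃ d > (0 : ℝ), ∀ z ∈ strip T, z.re < d →
      τ (G z).re - (G z).im < η :=
    fun η hη => cell_bd (g := g) H i hK hτ hS ch nM lo h1 h2 hη
  rcases hm with rfl | rfl
  · refine ⟨T, ψ, G, n1a_chart ch, ?_, eG, ch.endL, ⟨Q, hQ, cQ, dQ, hdQ, hQd⟩⟩
    refine ⟨ch.pos, cG, ?_, lo, bd, 1, one_pos, ?_⟩
    · intro z hz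
      have := per z hz
      rw [this]
      push_cast
      ring
    · intro B hB pB sB cB
      refine cell_mc H i hK lim hτ hS ch eG h1 hB pB (fun u hu => ⟨(sB u hu).1, (sB u hu).2.2⟩) cB
        ?_ ?_
      · exact (Complex.continuous_exp.comp Complex.continuous_conj.neg).continuousOn
      · intro s _
        show exp (-(starRingEnd ℂ) (s + 2 * Real.pi * I)) = exp (-(starRingEnd ℂ) s)
        rw [n1a_conj_per, neg_sub, sub_eq_add_neg, add_comm, Complex.exp_periodic]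
  · refine ⟨T, fun z => ψ ((starRingEnd ℂ) z), fun z => G ((starRingEnd ℂ) z), n1a_chart' ch, ?_,
      fun z hz => eG _ (n1a_strip_conj.2 hz), ?_, ⟨Q, hQ, cQ, dQ, hdQ, ?_⟩⟩
    · refine ⟨ch.pos, ?_, ?_, fun z hz => lo _ (n1a_strip_conj.2 hz), ?_, 1, one_pos, ?_⟩
      · exact cG.comp Complex.continuous_conj.continuousOn (fun z hz => n1a_strip_conj.2 hz)
      · intro z hz
        show G ((starRingEnd ℂ) (z + 2 * Real.pi * I)) = G ((starRingEnd ℂ) z) + 2 * Real.pi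
        rw [n1a_conj_per]
        have h3 : (starRingEnd ℂ) z - 2 * Real.pi * I ∈ strip T :=
          n1a_strip_per'.2 (n1a_strip_conj.2 hz)
        have h4 := per _ h3
        rw [sub_add_cancel] at h4
        rw [h4]
        push_cast
        ring
      · intro η hη
        obtain ⟨d', hd', h3⟩ := bd η hη
        exact ⟨d', hd', fun z hz hz' => h3 _ (n1a_strip_conj.2 hz) (by rw [conj_re]; exact hz')⟩
      · intro B hB pB sB cB
        have key := cell_mc H i hK lim hτ hS ch eG h1 hB pB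
          (fun u hu => ⟨(sB u hu).1, (sB u hu).2.2⟩) cB (F := fun z => exp (-z))
          (Complex.continuous_exp.comp continuous_neg).continuousOn
          (by
            intro s _
            show exp (-(s + 2 * Real.pi * I)) = exp (-s)
            rw [neg_add, ← sub_eq_add_neg, Complex.exp_periodic.sub_eq])
        convert key using 1
        ext x
        constructor
        · rintro ⟨z, ⟨hz, hz'⟩, rfl⟩
          exact ⟨(starRingEnd ℂ) z, ⟨n1a_strip_conj.2 hz, hz'⟩, rfl⟩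
        · rintro ⟨z, ⟨hz, hz'⟩, rfl⟩
          refine ⟨(starRingEnd ℂ) z, ⟨n1a_strip_conj.2 hz, ?_⟩, ?_⟩
          · show G ((starRingEnd ℂ) ((starRingEnd ℂ) z)) ∈ B
            rw [Complex.conj_conj]
            exact hz'
          · show exp (-(starRingEnd ℂ) ((starRingEnd ℂ) z)) = exp (-z)
            rw [Complex.conj_conj]
    · intro η hη
      obtain ⟨d', hd', h3⟩ := ch.endL η hη
      exact ⟨d', hd', fun z hz hz' => h3 _ (n1a_strip_conj.2 hz) (by rw [conj_re]; exact hz')⟩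
    · intro z hz hz'
      exact hQd _ (n1a_strip_conj.2 hz) (by rw [conj_re]; exact hz')

end CF6

end

section

/-! # Module N, row N1c (owner helper88): the cell of a point component

PROOF. `y2` from `point_small`; `ρ0 ≤ y2`: `closedBall q ρ0 \ {q} ⊆ closedBall q (2 ρ0) \ {q} ⊆ Ωs`. `point_chart`: `X, ψ0`. `point_bdry` with `ε = ρ0/2`: `η`; `d = min η (b/2)` with `(b : ℂ) ∈ X`, so that `strip d ⊆ X` (`gen_basic`) and `h (ψ0 z) ≠ q` on `strip d`. `point_lift`: `U0`, `m`; `point_deg`: `m = ±1`.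
`κ` from `point_layer` for `d`. `CellData (fun _ => ρ0) d U`: `T0`, `cU`, `per`; `lo`: `(U z).im = dist (h (ψ z)) q < ρ0` (`norm_pol`, `image ⊆ A`); `bd`: `point_bdry`; `mc`: `point_mc`.
Case `m = 1`: `ψ = ψ0`, `U = U0`, `F z = exp (-conj z)`. Case `m = -1`: `ψ z = ψ0 (conj z)`, `U z = U0 (conj z)`: `U (z + 2πI) = U z + 2π`; the set `{z | U z ∈ B}` is the conjugate of `{z | U0 z ∈ B}`: use `F z = exp (-z)`. `Chart`: `GenChart.toChart`. `tendL`: `endL`; `cpt`: `point_cpt` (real parts are unchanged by conjugation).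
-/

open Complex MeasureTheory Set Filter Topology Metric
open scoped ENNReal ComplexConjugate

namespace CF6

private theorem n1c_exp1 (s : ℂ) : exp (-conj (s + 2 * Real.pi * I)) = exp (-conj s) := by
  have e : -conj (s + 2 * Real.pi * I) = -conj s + 2 * Real.pi * I := by
    rw [map_add, map_mul, map_mul, conj_I, conj_ofReal]
    have : conj (2 : ℂ) = 2 := Complex.conj_ofNat 2
    rw [this]; ring
  rw [e, Complex.exp_add, Complex.exp_two_pi_mul_I, mul_one]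

private theorem n1c_exp2 (s : ℂ) : exp (-(s + 2 * Real.pi * I)) = exp (-s) := by
  rw [neg_add, Complex.exp_add, Complex.exp_neg (2 * Real.pi * I), Complex.exp_two_pi_mul_I,
    inv_one, mul_one]

private theorem n1c_conj_shift (z : ℂ) :
    conj (z + 2 * Real.pi * I) + 2 * Real.pi * I = conj z := by
  rw [map_add, map_mul, map_mul, conj_I, conj_ofReal]
  have : conj (2 : ℂ) = 2 := Complex.conj_ofNat 2
  rw [this]; ring

private theorem n1c_strip_conj {d : ℝ} {z : ℂ} (hz : z ∈ strip d) : conj z ∈ strip d := by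
  refine ⟨?_, ?_⟩
  · rw [Complex.conj_re]; exact hz.1
  · rw [Complex.conj_re]; exact hz.2

theorem approx_cell_point {k : ℕ} {Ω Ωs : Set ℂ} {L K : Fin k → Set ℂ} {h : ℂ → ℂ}
    {hj : ℕ → ℂ → ℂ} (H : Approx Ω Ωs L K h hj) (i : Fin k) {q : ℂ} (hq : K i = {q}) :
    ∃ y2 > (0 : ℝ), ∀ ρ0 : ℝ, 0 < ρ0 → ρ0 ≤ y2 → closedBall q ρ0 \ {q} ⊆ Ωs ∧
      ∃ (X : Set ℂ) (ψ : ℂ → ℂ), ((∃ T > (0 : ℝ), X = strip T) ∨ X = rhp) ∧
        Chart X (dom Ω (ball q ρ0 \ {q}) (K i) h) ψ ∧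
        (∃ (d : ℝ) (U : ℂ → ℂ), 0 < d ∧ strip d ⊆ X ∧ CellData (fun _ => ρ0) d U ∧
          ∀ z ∈ strip d, 0 < (U z).im ∧ h (ψ z) = pol q (U z)) ∧
        (∀ η > (0 : ℝ), ∃ a : ℝ, (a : ℂ) ∈ X ∧ ∀ z ∈ X, a < z.re → infDist (ψ z) (L i) < η) ∧
        (∃ Q ⊆ Ω, IsCompact Q ∧ ∃ d > (0 : ℝ), ∀ z ∈ X, z.re < d → ψ z ∈ Q) := by
  obtain ⟨y2, hy2, hsmall⟩ := point_small H.tgt hq
  refine ⟨y2, hy2, fun ρ0 h0 hρ => ?_⟩
  have hs := hsmall ρ0 h0 hρ
  refine ⟨fun w hw => hs ⟨closedBall_subset_closedBall (by linarith) hw.1, hw.2⟩, ?_⟩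
  obtain ⟨X, ψ0, ch⟩ := point_chart H i hq h0 hs
  obtain ⟨Xo, -, -, Xper, Xconj, Xpos, Xdown⟩ := gen_basic ch.Xf
  obtain ⟨chart1, chart2⟩ := ch.toChart
  obtain ⟨b, hbX, -⟩ := ch.endL 1 one_pos
  have hb0 : 0 < b := by simpa using Xpos _ hbX
  obtain ⟨η, hη, hbd⟩ := point_bdry H i hq h0 hs ch (half_pos h0)
  obtain ⟨d, hd, hdη, hdb⟩ : ∃ d : ℝ, 0 < d ∧ d ≤ η ∧ d ≤ b :=
    ⟨min η b, lt_min hη hb0, min_le_left _ _, min_le_right _ _⟩
  have hdX : strip d ⊆ X := by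
    intro z hz
    have h1 := Xdown _ hbX z.re z.im hz.1 (by rw [ofReal_re]; exact (hz.2.trans_le hdb).le)
    rwa [Complex.re_add_im] at h1
  have hne : ∀ z ∈ strip d, h (ψ0 z) ≠ q := by
    intro z hz he
    have h1 := hbd z (hdX hz) (hz.2.trans_le hdη)
    rw [he, dist_self] at h1
    linarith
  obtain ⟨U0, cU0, hU0, m, hm⟩ := point_lift H i ch hd hdX hne
  obtain ⟨κ, hκ, hlayer⟩ := point_layer H i hq h0 ch hd
  have hdist : ∀ z ∈ strip d, dist (h (ψ0 z)) q = (U0 z).im := by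
    intro z hz
    rw [(hU0 z hz).2, dist_eq_norm, norm_pol q (hU0 z hz).1.le]
  have hlt : ∀ z ∈ strip d, (U0 z).im < ρ0 := by
    intro z hz
    rw [← hdist z hz]
    have h1 : ψ0 z ∈ dom Ω (ball q ρ0 \ {q}) (K i) h := by
      rw [← ch.image]; exact mem_image_of_mem ψ0 (hdX hz)
    rcases h1.2 with h2 | h2
    · exact h2.1
    · rw [hq, mem_singleton_iff] at h2
      rw [h2, dist_self]; exact h0
  have hbd' : ∀ ε > (0 : ℝ), ∃ d' > (0 : ℝ), ∀ z ∈ strip d, z.re < d' → ρ0 - (U0 z).im < ε := by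
    intro ε hε
    obtain ⟨d', hd', h1⟩ := point_bdry H i hq h0 hs ch hε
    refine ⟨d', hd', fun z hz hzd => ?_⟩
    have h2 := h1 z (hdX hz) hzd
    rw [hdist z hz] at h2
    linarith
  have hconjX : ∀ z ∈ X, conj z ∈ X := by
    intro z hz
    rw [← Xconj]; exact mem_image_of_mem _ hz
  obtain ⟨Q, hQ, hQc, d1, hd1, hQd⟩ := point_cpt H i hq h0 hs ch
  rcases point_deg H i hq h0 hs ch hd hdX cU0 hU0 hm with h1 | h1
  · refine ⟨X, ψ0, ch.Xf, chart1, ⟨d, U0, hd, hdX, ?_, hU0⟩, ch.endL, ⟨Q, hQ, hQc, d1, hd1, hQd⟩⟩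
    refine ⟨hd, cU0, ?_, fun z hz => ⟨(hU0 z hz).1.le, hlt z hz⟩, hbd', ?_⟩
    · intro z hz
      rw [hm z hz, h1]; push_cast; ring
    · refine ⟨κ, hκ, fun B hB pB sB cB => ?_⟩
      exact point_mc H i hq h0 hs ch hd hdX hlayer hU0 hB pB sB cB
        (F := fun z => exp (-conj z)) (by fun_prop) (fun s _ => n1c_exp1 s)
  · refine ⟨X, fun z => ψ0 (conj z), ch.Xf, chart2,
      ⟨d, fun z => U0 (conj z), hd, hdX, ?_, fun z hz => hU0 _ (n1c_strip_conj hz)⟩, ?_,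
      ⟨Q, hQ, hQc, d1, hd1, ?_⟩⟩
    · refine ⟨hd, ?_, ?_, fun z hz => ⟨(hU0 _ (n1c_strip_conj hz)).1.le,
        hlt _ (n1c_strip_conj hz)⟩, ?_, ?_⟩
      · exact cU0.comp continuous_conj.continuousOn (fun z hz => n1c_strip_conj hz)
      · intro z hz
        have hz' : conj (z + 2 * Real.pi * I) ∈ strip d := by
          refine n1c_strip_conj ?_
          refine ⟨?_, ?_⟩
          · have := hz.1; simpa using this
          · have := hz.2; simpa using this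
        have h2 := hm _ hz'
        rw [n1c_conj_shift, h1] at h2
        show U0 (conj (z + 2 * Real.pi * I)) = U0 (conj z) + 2 * Real.pi
        rw [h2]; push_cast; ring
      · intro ε hε
        obtain ⟨d', hd', h2⟩ := hbd' ε hε
        refine ⟨d', hd', fun z hz hzd => h2 _ (n1c_strip_conj hz) ?_⟩
        rw [Complex.conj_re]; exact hzd
      · refine ⟨κ, hκ, fun B hB pB sB cB => ?_⟩
        have h2 := point_mc H i hq h0 hs ch hd hdX hlayer hU0 hB pB sB cB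
          (F := fun z => exp (-z)) (by fun_prop) (fun s _ => n1c_exp2 s)
        have h3 : (fun z => exp (-conj z)) '' {z | z ∈ strip d ∧ U0 (conj z) ∈ B}
            = (fun z => exp (-z)) '' {z | z ∈ strip d ∧ U0 z ∈ B} := by
          ext w
          constructor
          · rintro ⟨z, ⟨hz, hzB⟩, rfl⟩
            exact ⟨conj z, ⟨n1c_strip_conj hz, hzB⟩, rfl⟩
          · rintro ⟨z, ⟨hz, hzB⟩, rfl⟩
            refine ⟨conj z, ⟨n1c_strip_conj hz, ?_⟩, ?_⟩
            · show U0 (conj (conj z)) ∈ B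
              rw [Complex.conj_conj]; exact hzB
            · show exp (-conj (conj z)) = exp (-z)
              rw [Complex.conj_conj]
        rw [h3]; exact h2
    · intro ε hε
      obtain ⟨a, ha, h2⟩ := ch.endL ε hε
      exact ⟨a, ha, fun z hz hza => h2 _ (hconjX z hz) (by rw [Complex.conj_re]; exact hza)⟩
    · intro z hz hzd
      exact hQd _ (hconjX z hz) (by rw [Complex.conj_re]; exact hzd)

end CF6

end

section

/-! # Module N, row N5: energy of the minimiser of the cell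

`elam_le` with `B = arcA Φ τ ∘ α0` (continuous, monotone: `arcA` is increasing and continuous; `L = arcA Φ τ (2π)`, `arcA (x + 2π) = arcA x + L` because the integrand is periodic), `mt t θ = omz ‖Ht‖`, `mθ = omz ‖Hs‖`, `P` = `chain_push`.
The right hand side: split the strip into `Z = {im G = 0, re G ∈ E, ψ ∉ O}` (weight `1 + Cε`) and the rest (weight `C`): by `Pull.en` (derivatives of `ht`: `indicator Oᶜ hx`) with the sets (in `A = dom Ω (collar Φ τ) K h`)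
`Z' = {x | ‖g x‖ = 1, g x = exp(iα) for some α ∈ E} \ O` and the complement: `A \ Z' ⊆ {‖g‖ = 1, g x ∉ exp(iE)} ∪ {h x ∈ collar Φ τ} ∪ O`, the indicator vanishes on `O`.
(`h x ∈ K ↔ ‖g x‖ = 1` by `LimData.basic`. Borel sets: `g` is continuous on `Ω`, `exp(iE)` is compact.) Conversion of the iterated integral over `t, θ` into the integral over `per1 (strip T)`: `Complex.volume_preserving_equiv_real_prod`, Tonelli. -/

open Complex MeasureTheory Set Filter Topology Metric intervalIntegral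
open scoped ENNReal

namespace CF6

theorem n5_UHP_open : IsOpen UHP := isOpen_lt continuous_const Complex.continuous_im

theorem n5_per {K : Set ℂ} {Φ ρ : ℂ → ℂ} (hK : Collar K Φ ρ) {u : ℂ} (hu : u ∈ UHP) :
    Φ (u + 2 * Real.pi) = Φ u := by
  have hu' : u + 2 * Real.pi ∈ UHP := by
    have h1 : (u + 2 * Real.pi : ℂ).im = u.im := by simp
    show 0 < (u + 2 * Real.pi : ℂ).im
    rw [h1]; exact hu
  refine hK.inj (hK.mem _ hu') (hK.mem _ hu) ?_
  rw [hK.left _ hu', hK.left _ hu]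
  rw [Complex.exp_eq_exp_iff_exists_int]
  exact ⟨1, by push_cast; ring⟩

theorem n5_deriv_ne {K : Set ℂ} {Φ ρ : ℂ → ℂ} (hK : Collar K Φ ρ) {u : ℂ} (hu : u ∈ UHP) :
    deriv Φ u ≠ 0 := by
  intro h0
  have h1 : HasDerivAt Φ (deriv Φ u) u :=
    ((hK.dPhi u hu).differentiableAt (n5_UHP_open.mem_nhds hu)).hasDerivAt
  have h2 : HasDerivAt ρ (deriv ρ (Φ u)) (Φ u) :=
    ((hK.dRho _ (hK.mem u hu)).differentiableAt
      (hK.closed.isOpen_compl.mem_nhds (hK.mem u hu))).hasDerivAt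
  have h3 : HasDerivAt (ρ ∘ Φ) (deriv ρ (Φ u) * deriv Φ u) u := h2.comp u h1
  have h4 : HasDerivAt (fun v : ℂ => exp (I * v)) (exp (I * u) * (I * 1)) u :=
    ((hasDerivAt_id u).const_mul I).cexp
  have h5 : (ρ ∘ Φ) =ᶠ[𝓝 u] fun v => exp (I * v) := by
    filter_upwards [n5_UHP_open.mem_nhds hu] with v hv
    exact hK.left v hv
  have h6 := h3.unique (h4.congr_of_eventuallyEq h5)
  rw [h0, mul_zero] at h6
  have h7 : exp (I * u) * (I * 1) ≠ 0 := by
    simp [Complex.exp_ne_zero]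
  exact h7 h6.symm

/-- the integrand of `arcA` -/
noncomputable def n5_w (Φ : ℂ → ℂ) (τ : ℝ → ℝ) (s : ℝ) : ℝ :=
  ‖deriv Φ (s + τ s * I)‖ * ‖(1 + deriv τ s * I : ℂ)‖

theorem n5_mem {c r : ℝ} {τ : ℝ → ℝ} (hτ : Depth c r τ) (s : ℝ) : ((s : ℂ) + τ s * I) ∈ UHP := by
  show 0 < ((s : ℂ) + τ s * I).im
  simpa using hτ.pos s

theorem n5_w_cont {K : Set ℂ} {Φ ρ : ℂ → ℂ} (hK : Collar K Φ ρ) {c r : ℝ} {τ : ℝ → ℝ}
    (hτ : Depth c r τ) : Continuous (n5_w Φ τ) := by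
  have h1 : Continuous (fun s : ℝ => deriv Φ (s + τ s * I)) := by
    have h2 : ContinuousOn (deriv Φ) UHP := (hK.dPhi.deriv n5_UHP_open).continuousOn
    have h3 : Continuous (fun s : ℝ => (s : ℂ) + τ s * I) := by
      have := hτ.smooth.continuous
      fun_prop
    exact h2.comp_continuous h3 (fun s => n5_mem hτ s)
  have h4 : Continuous (deriv τ) := hτ.smooth.continuous_deriv (by norm_num)
  unfold n5_w
  have h5 : Continuous (fun s : ℝ => (1 + deriv τ s * I : ℂ)) := by fun_prop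
  exact h1.norm.mul h5.norm

theorem n5_w_pos {K : Set ℂ} {Φ ρ : ℂ → ℂ} (hK : Collar K Φ ρ) {c r : ℝ} {τ : ℝ → ℝ}
    (hτ : Depth c r τ) (s : ℝ) : 0 < n5_w Φ τ s := by
  refine mul_pos (norm_pos_iff.mpr (n5_deriv_ne hK (n5_mem hτ s))) (norm_pos_iff.mpr ?_)
  intro h
  have := congrArg Complex.re h
  simp at this

theorem n5_w_per {K : Set ℂ} {Φ ρ : ℂ → ℂ} (hK : Collar K Φ ρ) {c r : ℝ} {τ : ℝ → ℝ}
    (hτ : Depth c r τ) : Function.Periodic (n5_w Φ τ) (2 * Real.pi) := by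
  intro s
  have h1 : deriv Φ (((s + 2 * Real.pi : ℝ) : ℂ) + τ (s + 2 * Real.pi) * I)
      = deriv Φ (s + τ s * I) := by
    have h2 : (((s + 2 * Real.pi : ℝ) : ℂ) + τ (s + 2 * Real.pi) * I)
        = ((s : ℂ) + τ s * I) + 2 * Real.pi := by
      rw [hτ.per]; push_cast; ring
    rw [h2]
    have h3 : (fun u => Φ (u + 2 * Real.pi)) =ᶠ[𝓝 ((s : ℂ) + τ s * I)] Φ := by
      filter_upwards [n5_UHP_open.mem_nhds (n5_mem hτ s)] with u hu
      exact n5_per hK hu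
    rw [← h3.deriv_eq, deriv_comp_add_const]
  have h4 : deriv τ (s + 2 * Real.pi) = deriv τ s := by
    have h5 : (fun x => τ (x + 2 * Real.pi)) = τ := funext hτ.per
    rw [← deriv_comp_add_const, h5]
  unfold n5_w
  rw [h1, h4]

theorem n5_mono {A Ω : Set ℂ} (hAO : A ⊆ Ω) {f fx fy : ℂ → ℂ} (h : ACL2 Ω f fx fy) :
    ACL2 A f fx fy where
  cont := h.cont.mono hAO
  mx := h.mx.mono_measure (Measure.restrict_mono hAO le_rfl)
  my := h.my.mono_measure (Measure.restrict_mono hAO le_rfl)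
  fin := lt_of_le_of_lt (lintegral_mono_set hAO) h.fin
  hor := by
    filter_upwards [h.hor] with y hy a b hab hs
    exact hy a b hab (fun t ht => hAO (hs t ht))
  ver := by
    filter_upwards [h.ver] with y hy a b hab hs
    exact hy a b hab (fun t ht => hAO (hs t ht))

theorem n5_meas {X Z : Set ℂ} (hX : MeasurableSet X) (hZ : MeasurableSet Z) {ψ : ℂ → ℂ}
    (hψ : ContinuousOn ψ X) : MeasurableSet (X ∩ ψ ⁻¹' Z) := by
  have h1 : Measurable (X.domRestrict ψ) := (continuousOn_iff_continuous_domRestrict.mp hψ).measurable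
  have h2 : MeasurableSet ((X.domRestrict ψ) ⁻¹' Z) := h1 hZ
  have h3 := MeasurableSet.subtype_image hX h2
  convert h3 using 1
  ext z
  simp only [mem_inter_iff, mem_preimage, mem_image, Subtype.exists]
  constructor
  · rintro ⟨h4, h5⟩
    exact ⟨z, h4, h5, rfl⟩
  · rintro ⟨w, h4, h5, rfl⟩
    exact ⟨h4, h5⟩

theorem n5_fubini {T : ℝ} (f : ℂ → ℝ≥0∞) (hf : Measurable f) :
    ∫⁻ t in Ioo 0 T, ∫⁻ θ in Ioo 0 (2 * Real.pi), f ((t : ℂ) + θ * I)
      = ∫⁻ z in per1 (strip T), f z := by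
  have hm : Measurable (fun p : ℝ × ℝ => f ((p.1 : ℂ) + p.2 * I)) := by
    refine hf.comp ?_
    fun_prop
  have h1 : ∫⁻ p in Ioo 0 T ×ˢ Ioo 0 (2 * Real.pi), f ((p.1 : ℂ) + p.2 * I)
      ∂((volume : Measure ℝ).prod (volume : Measure ℝ))
      = ∫⁻ t in Ioo 0 T, ∫⁻ θ in Ioo 0 (2 * Real.pi), f ((t : ℂ) + θ * I) :=
    setLIntegral_prod (fun p : ℝ × ℝ => f ((p.1 : ℂ) + p.2 * I)) hm.aemeasurable
  have h2 := Complex.volume_preserving_equiv_real_prod.setLIntegral_comp_preimage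
    (s := Ioo 0 T ×ˢ Ioo 0 (2 * Real.pi)) (measurableSet_Ioo.prod measurableSet_Ioo) hm
  rw [← h1]
  have h3 : (volume : Measure (ℝ × ℝ)) = (volume : Measure ℝ).prod (volume : Measure ℝ) := rfl
  rw [← h3, ← h2]
  have h4 : Complex.measurableEquivRealProd ⁻¹' (Ioo 0 T ×ˢ Ioo 0 (2 * Real.pi))
      = per1 (strip T) := by
    ext z
    simp [per1, strip, Complex.measurableEquivRealProd_apply, and_assoc]
  rw [h4]
  refine setLIntegral_congr_fun ?_ (fun z _ => ?_)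
  · rw [← h4]
    exact Complex.measurableEquivRealProd.measurable (measurableSet_Ioo.prod measurableSet_Ioo)
  · simp only [Complex.measurableEquivRealProd_apply]
    rw [Complex.re_add_im]

theorem n5_bdd {f : ℝ → ℝ} {g : ℝ → ℂ} {x y M : ℝ} (hf : Measurable f) (h0 : ∀ t, 0 ≤ f t)
    (hM : ∀ t, f t ≤ M) (hg : IntervalIntegrable g volume x y) :
    IntervalIntegrable (fun t => f t * ‖g t‖) volume x y := by
  have h1 := hg.norm
  rw [intervalIntegrable_iff] at h1 ⊢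
  refine Integrable.bdd_mul (c := M) h1 hf.aestronglyMeasurable ?_
  refine Filter.Eventually.of_forall (fun s => ?_)
  rw [Real.norm_eq_abs, abs_of_nonneg (h0 _)]
  exact hM _

theorem arcA_QP {K : Set ℂ} {Φ ρ : ℂ → ℂ} (hK : Collar K Φ ρ) {c r : ℝ} {τ α0 : ℝ → ℝ}
    (hτ : Depth c r τ) (ac : Continuous α0) (am : Monotone α0)
    (ap : ∀ θ, α0 (θ + 2 * Real.pi) = α0 θ + 2 * Real.pi) :
    0 < arcA Φ τ (2 * Real.pi) ∧ QP (arcA Φ τ (2 * Real.pi)) (fun θ => arcA Φ τ (α0 θ)) := by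
  have hwc := n5_w_cont hK hτ
  have hwp := n5_w_pos hK hτ
  have hwper := n5_w_per hK hτ
  have harc : ∀ x, arcA Φ τ x = ∫ s in (0 : ℝ)..x, n5_w Φ τ s := fun x => rfl
  have hi : ∀ a b, IntervalIntegrable (n5_w Φ τ) volume a b := fun a b => hwc.intervalIntegrable a b
  have hpi : (0 : ℝ) < 2 * Real.pi := by positivity
  have hmono : Monotone (arcA Φ τ) := by
    intro x y hxy
    rw [harc, harc, ← intervalIntegral.integral_add_adjacent_intervals (hi 0 x) (hi x y)]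
    have : 0 ≤ ∫ s in x..y, n5_w Φ τ s :=
      intervalIntegral.integral_nonneg hxy (fun s _ => (hwp s).le)
    linarith
  refine ⟨?_, ?_, hmono.comp am, ?_⟩
  · rw [harc]
    exact intervalIntegral.intervalIntegral_pos_of_pos_on (hi _ _) (fun s _ => hwp s) hpi
  · have h1 : Continuous (fun x => ∫ s in (0 : ℝ)..x, n5_w Φ τ s) :=
      intervalIntegral.continuous_primitive hi 0
    exact h1.comp ac
  · intro θ
    show arcA Φ τ (α0 (θ + 2 * Real.pi)) = arcA Φ τ (α0 θ) + arcA Φ τ (2 * Real.pi)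
    rw [ap, harc, harc, harc]
    rw [← intervalIntegral.integral_add_adjacent_intervals (hi 0 (α0 θ)) (hi _ _)]
    congr 1
    have := hwper.intervalIntegral_add_eq (α0 θ) 0
    rw [zero_add] at this
    exact this

theorem cell_energy {Ω K O L : Set ℂ} {Φ ρ h g ht ψ G hx hy : ℂ → ℂ} {hj : ℕ → ℂ → ℂ}
    {τ α0 : ℝ → ℝ} {T : ℝ} (hK : Collar K Φ ρ) (lim : LimData Ω K ρ h g hj)
    (hn : Normal Ω K O h g ht) (ha : ACL2 Ω h hx hy)
    (hb : ACL2 Ω ht (indicator Oᶜ hx) (indicator Oᶜ hy))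
    (hS : StripG Ω (dom Ω (collar Φ τ) K h) L g τ T ψ G α0) {c r : ℝ}
    (hτ : Depth c r τ) {E : Set ℝ} (hE : IsClosed E)
    (pE : ∀ x, x ∈ E ↔ x + 2 * Real.pi ∈ E) {p : ℝ → ℂ}
    (hp : ∀ z ∈ Ω, ∀ x ∈ E, g z = exp (I * x) → ht z = p x) {C ε : ℝ} (hC : 1 ≤ C) (hε : 0 < ε)
    (push : PushIneq Φ E p τ C ε) :
    elam T (fun θ => arcA Φ τ (α0 θ)) 0 ≤
      ENNReal.ofReal ((1 + C * ε) ^ 2) * en {x | x ∈ Ω ∧ h x ∈ K} hx hy +
      ENNReal.ofReal (C ^ 2) * (en ({z | z ∈ Ω ∧ ‖g z‖ = 1 ∧ ∀ x ∈ E, g z ≠ exp (I * x)} \ O) hx hy +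
        en {x | x ∈ Ω ∧ h x ∈ collar Φ τ} hx hy) := by
  classical
  have hAO : dom Ω (collar Φ τ) K h ⊆ Ω := fun x hx => hx.1
  set A : Set ℂ := dom Ω (collar Φ τ) K h with hAdef
  have hstO : IsOpen (strip T) := hS.chart.Xopen
  have hψc : ContinuousOn ψ (strip T) := hS.chart.cont.1
  have hAo : IsOpen A := by
    rw [← hS.chart.image]
    exact hS.chart.cont.2 _ (Subset.refl _) hstO
  obtain ⟨H, Ht, Hs, hP⟩ := exists_pull hS.chart hAo (n5_mono hAO hb)
  obtain ⟨Tg, Θg, gl⟩ := exists_goodLines hS.Tpos hP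
  obtain ⟨hL, hQP⟩ := arcA_QP hK hτ hS.acont hS.amono hS.aper
  obtain ⟨hom, homp⟩ := measurable_omz hS hE pE hn.Oopen C ε
  have hCε : 0 ≤ C * ε := mul_nonneg (by linarith) hε.le
  have hom0 : ∀ z, 0 ≤ omz T G ψ E O C ε z := by
    intro z; unfold omz; split_ifs <;> linarith
  have homM : ∀ z, omz T G ψ E O C ε z ≤ 1 + C * ε + C := by
    intro z; unfold omz; split_ifs <;> linarith
  have hcont : Continuous (fun p : ℝ × ℝ => (p.1 : ℂ) + p.2 * I) := by fun_prop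
  have key := elam_le hS.Tpos hQP
    (fun t θ => omz T G ψ E O C ε (t + θ * I) * ‖Ht (t + θ * I)‖)
    (fun t θ => omz T G ψ E O C ε (t + θ * I) * ‖Hs (t + θ * I)‖)
    (by
      have h1 : Measurable (fun p : ℝ × ℝ => omz T G ψ E O C ε ((p.1 : ℂ) + p.2 * I) *
          ‖Ht ((p.1 : ℂ) + p.2 * I)‖) :=
        (hom.comp hcont.measurable).mul (hP.mt.comp hcont.measurable).norm
      exact h1)
    (by
      have h1 : Measurable (fun p : ℝ × ℝ => omz T G ψ E O C ε ((p.1 : ℂ) + p.2 * I) *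
          ‖Hs ((p.1 : ℂ) + p.2 * I)‖) :=
        (hom.comp hcont.measurable).mul (hP.ms.comp hcont.measurable).norm
      exact h1)
    (fun t θ => mul_nonneg (hom0 _) (norm_nonneg _))
    (fun t θ => mul_nonneg (hom0 _) (norm_nonneg _))
    (by
      intro t θ
      have h1 : ((t : ℂ) + ((θ + 2 * Real.pi : ℝ) : ℂ) * I) = ((t : ℂ) + θ * I) + 2 * Real.pi * I := by
        push_cast; ring
      simp only [h1, homp, hP.pt])
    (by
      intro t θ
      have h1 : ((t : ℂ) + ((θ + 2 * Real.pi : ℝ) : ℂ) * I) = ((t : ℂ) + θ * I) + 2 * Real.pi * I := by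
        push_cast; ring
      simp only [h1, homp, hP.ps])
    Tg Θg gl.subT gl.mT gl.mΘ gl.fT gl.fΘ gl.pΘ
    (by
      intro t ht x y
      refine n5_bdd (M := 1 + C * ε + C) (hom.comp (by fun_prop)) (fun θ => hom0 _)
        (fun θ => homM _) (gl.iT t ht x y))
    (by
      intro θ hθ x hx
      refine n5_bdd (M := 1 + C * ε + C) (hom.comp (by fun_prop)) (fun θ => hom0 _)
        (fun θ => homM _) ?_
      refine (gl.iΘ θ hθ).mono_set ?_
      rw [uIcc_of_le hx.1, uIcc_of_le (hx.1.trans hx.2.le)]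
      exact Icc_subset_Icc le_rfl hx.2.le)
    (fun n x hx' hc => chain_push hK lim hn hS hAO hτ hP gl hE pE hp hC hε push n x hx' hc)
  refine key.trans ?_
  -- Fubini
  set F : ℂ → ℝ≥0∞ := fun z => ENNReal.ofReal (omz T G ψ E O C ε z * ‖Ht z‖) ^ 2 +
    ENNReal.ofReal (omz T G ψ E O C ε z * ‖Hs z‖) ^ 2 with hF
  have hFm : Measurable F :=
    ((ENNReal.measurable_ofReal.comp (hom.mul hP.mt.norm)).pow_const 2).add
      ((ENNReal.measurable_ofReal.comp (hom.mul hP.ms.norm)).pow_const 2)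
  have hfub := n5_fubini (T := T) F hFm
  have hFe : ∀ z, F z = ENNReal.ofReal (omz T G ψ E O C ε z ^ 2) * (‖Ht z‖ₑ ^ 2 + ‖Hs z‖ₑ ^ 2) := by
    intro z
    simp only [hF]
    rw [ENNReal.ofReal_mul (hom0 z), ENNReal.ofReal_mul (hom0 z), ofReal_norm,
      ofReal_norm, mul_pow, mul_pow, ENNReal.ofReal_pow (hom0 z), mul_add]
  have hkey2 : (∫⁻ t in Ioo 0 T, ∫⁻ θ in Ioo 0 (2 * Real.pi),
      (ENNReal.ofReal (omz T G ψ E O C ε (t + θ * I) * ‖Ht (t + θ * I)‖) ^ 2 +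
        ENNReal.ofReal (omz T G ψ E O C ε (t + θ * I) * ‖Hs (t + θ * I)‖) ^ 2))
      = ∫⁻ z in per1 (strip T), F z := hfub
  rw [hkey2]
  -- the Borel set
  have hgc : ContinuousOn g Ω := by
    refine lim.glim.continuousOn (Filter.Eventually.frequently (Filter.Eventually.of_forall ?_))
    intro j
    exact hK.dRho.continuousOn.comp (lim.chj j) (lim.avoid j)
  set Ce : Set ℂ := (fun x : ℝ => exp (I * x)) '' (E ∩ Icc 0 (2 * Real.pi)) with hCe
  have hCec : IsCompact Ce := by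
    refine IsCompact.image ?_ (by fun_prop)
    exact isCompact_Icc.inter_left hE
  have hpEz : ∀ (n : ℤ) (x : ℝ), x ∈ E → x + n * (2 * Real.pi) ∈ E := by
    intro n x hx
    have hnat : ∀ (k : ℕ) (y : ℝ), y ∈ E ↔ y + k * (2 * Real.pi) ∈ E := by
      intro k
      induction k with
      | zero => intro y; simp
      | succ k ih =>
        intro y
        rw [ih y, pE (y + k * (2 * Real.pi))]
        have : y + k * (2 * Real.pi) + 2 * Real.pi = y + ((k + 1 : ℕ) : ℝ) * (2 * Real.pi) := by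
          push_cast; ring
        rw [this]
    rcases Int.eq_nat_or_neg n with ⟨k, hk | hk⟩
    · rw [hk]
      have := (hnat k x).mp hx
      push_cast
      exact this
    · rw [hk, hnat k]
      have : x + ((-(k : ℤ) : ℤ) : ℝ) * (2 * Real.pi) + k * (2 * Real.pi) = x := by
        push_cast; ring
      rw [this]; exact hx
  have hCe' : ∀ w : ℂ, w ∈ Ce ↔ ∃ x ∈ E, w = exp (I * x) := by
    intro w
    constructor
    · rintro ⟨x, hx, rfl⟩
      exact ⟨x, hx.1, rfl⟩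
    · rintro ⟨x, hx, rfl⟩
      have hpi : (0 : ℝ) < 2 * Real.pi := by positivity
      obtain ⟨n, hn1, _⟩ := existsUnique_sub_zsmul_mem_Ico hpi x 0
      rw [zero_add, zsmul_eq_mul] at hn1
      refine ⟨x - n * (2 * Real.pi), ⟨?_, ⟨hn1.1, hn1.2.le⟩⟩, ?_⟩
      · have := hpEz (-n) x hx
        have e1 : x + ((-n : ℤ) : ℝ) * (2 * Real.pi) = x - n * (2 * Real.pi) := by
          push_cast; ring
        rw [e1] at this; exact this
      · simp only
        rw [Complex.exp_eq_exp_iff_exists_int]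
        refine ⟨-n, ?_⟩
        push_cast; ring
  obtain ⟨U, hU, hUe⟩ := continuousOn_iff_isClosed.mp hgc Ce hCec.isClosed
  set Z : Set ℂ := (U ∩ Ω) \ O with hZ
  have hZm : MeasurableSet Z :=
    (hU.measurableSet.inter lim.Oopen.measurableSet).diff hn.Oopen.measurableSet
  have hZiff : ∀ x ∈ Ω, x ∈ Z ↔ g x ∈ Ce ∧ x ∉ O := by
    intro x hx
    have h1 : x ∈ g ⁻¹' Ce ∩ Ω ↔ x ∈ U ∩ Ω := by rw [hUe]
    constructor
    · rintro ⟨h2, h3⟩
      exact ⟨(h1.mpr h2).1, h3⟩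
    · rintro ⟨h2, h3⟩
      exact ⟨h1.mp ⟨h2, hx⟩, h3⟩
  -- points of the strip
  have hψA : ∀ z ∈ strip T, ψ z ∈ A := fun z hz => by
    rw [← hS.chart.image]; exact mem_image_of_mem _ hz
  have hnorm : ∀ z ∈ strip T, ‖g (ψ z)‖ = Real.exp (-(G z).im) := by
    intro z hz
    rw [← hS.Gexp z hz, Complex.norm_exp]
    congr 1
    simp
  have hcond : ∀ z ∈ strip T, ψ z ∈ Z ↔ ((G z).im = 0 ∧ (G z).re ∈ E ∧ ψ z ∉ O) := by
    intro z hz
    rw [hZiff _ (hAO (hψA z hz)), hCe']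
    constructor
    · rintro ⟨⟨x, hx, hgx⟩, hO⟩
      have h1 : ‖g (ψ z)‖ = 1 := by rw [hgx, Complex.norm_exp]; simp
      have h2 : (G z).im = 0 := by
        rw [hnorm z hz] at h1
        have := Real.exp_eq_one_iff _ |>.mp h1
        linarith
      refine ⟨h2, ?_, hO⟩
      have h3 : exp (I * G z) = exp (I * x) := by rw [hS.Gexp z hz, hgx]
      rw [Complex.exp_eq_exp_iff_exists_int] at h3
      obtain ⟨n, hn'⟩ := h3
      have h4 : G z = x + n * (2 * Real.pi) := by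
        have h5 : I * G z = I * (x + n * (2 * Real.pi)) := by rw [hn']; ring
        exact mul_left_cancel₀ Complex.I_ne_zero h5
      have h6 : (G z).re = x + n * (2 * Real.pi) := by
        rw [h4]; simp
      rw [h6]; exact hpEz n x hx
    · rintro ⟨h1, h2, hO⟩
      refine ⟨⟨(G z).re, h2, ?_⟩, hO⟩
      rw [← hS.Gexp z hz]
      congr 2
      apply Complex.ext <;> simp [h1]
  -- split
  have hper : per1 (strip T) ⊆ strip T := inter_subset_left
  have hperm : MeasurableSet (per1 (strip T)) := by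
    refine (hstO.inter ?_).measurableSet
    exact (isOpen_lt continuous_const Complex.continuous_im).inter
      (isOpen_lt Complex.continuous_im continuous_const)
  have hψc' : ContinuousOn ψ (per1 (strip T)) := hψc.mono hper
  have hm1 := n5_meas hperm hZm hψc'
  have hm2 := n5_meas hperm hZm.compl hψc'
  have hsplit : per1 (strip T) = (per1 (strip T) ∩ ψ ⁻¹' Z) ∪ (per1 (strip T) ∩ ψ ⁻¹' Zᶜ) := by
    rw [← inter_union_distrib_left, preimage_compl, union_compl_self, inter_univ]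
  rw [hsplit]
  refine (lintegral_union_le _ _ _).trans ?_
  have hI1 : ∫⁻ z in per1 (strip T) ∩ ψ ⁻¹' Z, F z
      = ENNReal.ofReal ((1 + C * ε) ^ 2) * en (per1 (strip T) ∩ ψ ⁻¹' Z) Ht Hs := by
    rw [en, ← lintegral_const_mul' _ _ ENNReal.ofReal_ne_top]
    refine setLIntegral_congr_fun hm1 (fun z hz => ?_)
    have h1 : omz T G ψ E O C ε z = 1 + C * ε := by
      unfold omz
      rw [if_pos ⟨hper hz.1, (hcond z (hper hz.1)).mp hz.2⟩]
    simp only [hFe, h1]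
  have hI2 : ∫⁻ z in per1 (strip T) ∩ ψ ⁻¹' Zᶜ, F z
      = ENNReal.ofReal (C ^ 2) * en (per1 (strip T) ∩ ψ ⁻¹' Zᶜ) Ht Hs := by
    rw [en, ← lintegral_const_mul' _ _ ENNReal.ofReal_ne_top]
    refine setLIntegral_congr_fun hm2 (fun z hz => ?_)
    have h1 : omz T G ψ E O C ε z = C := by
      unfold omz
      rw [if_neg]
      rintro ⟨_, h2⟩
      exact hz.2 ((hcond z (hper hz.1)).mpr h2)
    simp only [hFe, h1]
  rw [hI1, hI2, hP.en Z hZm, hP.en Zᶜ hZm.compl]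
  refine add_le_add (mul_le_mul_right ?_ _) (mul_le_mul_right ?_ _)
  · -- the good part
    have hAZm : MeasurableSet (A ∩ Z) := hAo.measurableSet.inter hZm
    have h1 : en (A ∩ Z) (indicator Oᶜ hx) (indicator Oᶜ hy) = en (A ∩ Z) hx hy := by
      unfold en
      refine setLIntegral_congr_fun hAZm (fun x hxx => ?_)
      have h2 : x ∈ Oᶜ := hxx.2.2
      simp only [indicator_of_mem h2]
    rw [h1]
    refine lintegral_mono_set ?_
    intro x hxx
    have hxO : x ∈ Ω := hAO hxx.1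
    refine ⟨hxO, ?_⟩
    obtain ⟨h2, h3⟩ := (hZiff x hxO).mp hxx.2
    rw [hCe'] at h2
    obtain ⟨a, _, ha'⟩ := h2
    have h4 : ‖g x‖ = 1 := by rw [ha', Complex.norm_exp]; simp
    have h5 := (hn.fib' x hxO).mpr h4
    rw [hn.eqh x hxO h3] at h5
    exact h5
  · -- the rest
    have hAZm : MeasurableSet (A ∩ Zᶜ) := hAo.measurableSet.inter hZm.compl
    have h1 : en (A ∩ Zᶜ) (indicator Oᶜ hx) (indicator Oᶜ hy) ≤ en ((A ∩ Zᶜ) \ O) hx hy := by
      unfold en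
      have h2 : ∫⁻ z in A ∩ Zᶜ, (‖indicator Oᶜ hx z‖ₑ ^ 2 + ‖indicator Oᶜ hy z‖ₑ ^ 2)
          = ∫⁻ z in A ∩ Zᶜ, indicator Oᶜ (fun z => ‖hx z‖ₑ ^ 2 + ‖hy z‖ₑ ^ 2) z := by
        refine setLIntegral_congr_fun hAZm (fun x _ => ?_)
        by_cases hxO : x ∈ Oᶜ
        · simp only [indicator_of_mem hxO]
        · simp only [indicator_of_notMem hxO]
          simp
      rw [h2, lintegral_indicator hn.Oopen.measurableSet.compl,
        Measure.restrict_restrict hn.Oopen.measurableSet.compl]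
      refine lintegral_mono_set ?_
      intro x hxx
      exact ⟨hxx.2, hxx.1⟩
    refine h1.trans ?_
    have h3 : (A ∩ Zᶜ) \ O ⊆ ({z | z ∈ Ω ∧ ‖g z‖ = 1 ∧ ∀ x ∈ E, g z ≠ exp (I * x)} \ O) ∪
        {x | x ∈ Ω ∧ h x ∈ collar Φ τ} := by
      rintro x ⟨⟨hxA, hxZ⟩, hxO⟩
      have hxΩ : x ∈ Ω := hAO hxA
      rcases hxA.2 with h4 | h4
      · right; exact ⟨hxΩ, h4⟩
      · left
        refine ⟨⟨hxΩ, ?_, ?_⟩, hxO⟩
        · rw [← hn.fib' x hxΩ, hn.eqh x hxΩ hxO]; exact h4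
        · intro a ha' hga
          apply hxZ
          rw [hZiff x hxΩ, hCe']
          exact ⟨⟨a, ha', hga⟩, hxO⟩
    unfold en
    exact (lintegral_mono_set h3).trans (lintegral_union_le _ _ _)

end CF6

end

section

/-! # Module N, row N7: the cell map

`h (ψ z) = Φ (G z)` if `z ∈ strip T`, `im (G z) > 0`: `‖g (ψ z)‖ = exp (- im G) < 1`, so `h (ψ z) ∉ K`, `ρ (h (ψ z)) = g (ψ z) = exp (I G z) = ρ (Φ (G z))` (hypothesis `bas`, `Collar.left`), `Collar.inj`.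
`F x = Φ (Ψ z)` for a chosen `z ∈ strip T` with `ψ z = x` (`Chart.image`), so `F (ψ z) = Φ (Ψ z)` for all `z ∈ strip T` (`Chart.inj`, `Ψ (z + 2πi n) = Ψ z + 2π n` by induction, `Collar.facts`). `exists_push` gives `Fx, Fy`, `ACL2` and the energy identity.
`bij`: maps: `Ψ z ∈ below τ`. Injective: `F x = F x'` → `Φ (Ψ z) = Φ (Ψ z')` → `Ψ z' = Ψ z + 2π n = Ψ (z + 2πi n)` → `z' = z + 2πi n` (left inverse `Ψ'` on the strip) → `x = x'`. Surjective: `w = Φ u`, `u ∈ below τ`, `z = Ψ' u`.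
`glue`: `x ∈ Ω`, `h x ∉ S ∪ K`: `x ∉ A`, `x ∉ L` (`LO`). On `{0 ≤ re z < T}` the functions `Ψ` and `G` are continuous and agree on `re z = 0`, where they have imaginary part `τ > 0`; so near every point `θ I` both are in `UHP` and `‖Φ (Ψ z) - Φ (G z)‖` is small; by periodicity and compactness of `[0, 2π]`
there is `d > 0` such that for `0 < re z < d`: `im (G z) > 0` and `‖Φ (Ψ z) - Φ (G z)‖ < η`, i.e. `‖F (ψ z) - h (ψ z)‖ < η`. `chart_near` gives `δ`.
`proper`: `Collar.tend` gives `y` with `infDist (Φ u) K < η` for `im u < y`; `hend` gives `a = T - d` (take it positive) with `im (Ψ z) < y` for `re z > a`; `chart_far`. -/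

open Complex MeasureTheory Set Filter Topology Metric
open scoped ENNReal

namespace CF6

private theorem n7_strip_shift {T : ℝ} {z : ℂ} (hz : z ∈ strip T) (n : ℤ) :
    z + 2 * Real.pi * n * I ∈ strip T := by
  have h : (z + 2 * Real.pi * n * I).re = z.re := by simp
  exact ⟨by rw [h]; exact hz.1, by rw [h]; exact hz.2⟩

/-- integer translations for a quasi-periodic lift -/
private theorem n7_lift {T : ℝ} {Ψ : ℂ → ℂ}
    (Ψper : ∀ z : ℂ, 0 ≤ z.re → z.re < T → Ψ (z + 2 * Real.pi * I) = Ψ z + 2 * Real.pi)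
    {z : ℂ} (h0 : 0 ≤ z.re) (h1 : z.re < T) (n : ℤ) :
    Ψ (z + 2 * Real.pi * n * I) = Ψ z + 2 * Real.pi * n := by
  have hnat : ∀ (n : ℕ) (z : ℂ), 0 ≤ z.re → z.re < T →
      Ψ (z + 2 * Real.pi * n * I) = Ψ z + 2 * Real.pi * n := by
    intro n
    induction n with
    | zero => intro z _ _; simp
    | succ n ih =>
      intro z h0 h1
      have e : z + 2 * Real.pi * ((n + 1 : ℕ) : ℂ) * I
          = (z + 2 * Real.pi * n * I) + 2 * Real.pi * I := by push_cast; ring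
      have hr : (z + 2 * Real.pi * n * I).re = z.re := by simp
      rw [e, Ψper _ (by rw [hr]; exact h0) (by rw [hr]; exact h1), ih z h0 h1]
      push_cast; ring
  rcases Int.eq_nat_or_neg n with ⟨m, rfl | rfl⟩
  · exact_mod_cast hnat m z h0 h1
  · have hr : (z + 2 * Real.pi * ((-(m : ℤ) : ℤ) : ℂ) * I).re = z.re := by simp
    have h2 := hnat m (z + 2 * Real.pi * ((-(m : ℤ) : ℤ) : ℂ) * I) (by rw [hr]; exact h0)
      (by rw [hr]; exact h1)
    have e : z + 2 * Real.pi * ((-(m : ℤ) : ℤ) : ℂ) * I + 2 * Real.pi * m * I = z := by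
      push_cast; ring
    rw [e] at h2
    rw [h2]; push_cast; ring

private theorem n7_phi {Φ : ℂ → ℂ} (hper : ∀ u ∈ UHP, Φ (u + 2 * Real.pi) = Φ u) {u : ℂ}
    (hu : 0 < u.im) (n : ℤ) : Φ (u + 2 * Real.pi * n) = Φ u := by
  have hnat : ∀ (n : ℕ) (u : ℂ), 0 < u.im → Φ (u + 2 * Real.pi * n) = Φ u := by
    intro n
    induction n with
    | zero => intro u _; simp
    | succ n ih =>
      intro u hu
      have e : u + 2 * Real.pi * ((n + 1 : ℕ) : ℂ) = (u + 2 * Real.pi * n) + 2 * Real.pi := by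
        push_cast; ring
      have hi : (u + 2 * Real.pi * n).im = u.im := by simp
      rw [e, hper _ (show (0 : ℝ) < (u + 2 * Real.pi * n).im by rw [hi]; exact hu), ih u hu]
  rcases Int.eq_nat_or_neg n with ⟨m, rfl | rfl⟩
  · exact_mod_cast hnat m u hu
  · have hi : (u + 2 * Real.pi * ((-(m : ℤ) : ℤ) : ℂ)).im = u.im := by simp
    have h2 := hnat m (u + 2 * Real.pi * ((-(m : ℤ) : ℤ) : ℂ)) (by rw [hi]; exact hu)
    have e : u + 2 * Real.pi * ((-(m : ℤ) : ℤ) : ℂ) + 2 * Real.pi * m = u := by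
      push_cast; ring
    rw [e] at h2
    exact h2.symm

private theorem n7_psi {T : ℝ} {A : Set ℂ} {ψ : ℂ → ℂ} (ch : Chart (strip T) A ψ) {z : ℂ}
    (hz : z ∈ strip T) (n : ℤ) : ψ (z + 2 * Real.pi * n * I) = ψ z := by
  have hnat : ∀ (n : ℕ) (z : ℂ), z ∈ strip T → ψ (z + 2 * Real.pi * n * I) = ψ z := by
    intro n
    induction n with
    | zero => intro z _; simp
    | succ n ih =>
      intro z hz
      have e : z + 2 * Real.pi * ((n + 1 : ℕ) : ℂ) * I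
          = (z + 2 * Real.pi * n * I) + 2 * Real.pi * I := by push_cast; ring
      rw [e, ch.per _ (by exact_mod_cast n7_strip_shift hz (n : ℤ)), ih z hz]
  rcases Int.eq_nat_or_neg n with ⟨m, rfl | rfl⟩
  · exact_mod_cast hnat m z hz
  · have h2 := hnat m (z + 2 * Real.pi * ((-(m : ℤ) : ℤ) : ℂ) * I) (n7_strip_shift hz _)
    have e : z + 2 * Real.pi * ((-(m : ℤ) : ℤ) : ℂ) * I + 2 * Real.pi * m * I = z := by
      push_cast; ring
    rw [e] at h2
    exact h2.symm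

/-- uniform closeness near the boundary `re z = 0` -/
private theorem n7_near {Φ Ψ G : ℂ → ℂ} {τ α0 : ℝ → ℝ} {T : ℝ} (T0 : 0 < T)
    (cΦ : ContinuousOn Φ UHP) (hper : ∀ u ∈ UHP, Φ (u + 2 * Real.pi) = Φ u)
    (τpos : ∀ x, 0 < τ x)
    (cΨ : ContinuousOn Ψ {z | 0 ≤ z.re ∧ z.re < T}) (cG : ContinuousOn G {z | 0 ≤ z.re ∧ z.re < T})
    (Ψbd : ∀ θ : ℝ, Ψ (θ * I) = α0 θ + τ (α0 θ) * I)
    (Gbd : ∀ θ : ℝ, G (θ * I) = α0 θ + τ (α0 θ) * I)
    (Ψper : ∀ z : ℂ, 0 ≤ z.re → z.re < T → Ψ (z + 2 * Real.pi * I) = Ψ z + 2 * Real.pi)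
    (Gper : ∀ z : ℂ, 0 ≤ z.re → z.re < T → G (z + 2 * Real.pi * I) = G z + 2 * Real.pi)
    {η : ℝ} (hη : 0 < η) :
    ∃ d > (0 : ℝ), ∀ z ∈ strip T, z.re < d → 0 < (G z).im ∧ ‖Φ (Ψ z) - Φ (G z)‖ < η := by
  have hU : IsOpen UHP := isOpen_lt continuous_const Complex.continuous_im
  have hloc : ∀ θ : ℝ, ∀ᶠ p : ℝ × ℝ in 𝓝 ((0 : ℝ), θ), 0 ≤ p.1 → p.1 < T →
      0 < (G (p.1 + p.2 * I)).im ∧ 0 < (Ψ (p.1 + p.2 * I)).im ∧
        ‖Φ (Ψ (p.1 + p.2 * I)) - Φ (G (p.1 + p.2 * I))‖ < η := by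
    intro θ
    have hmem : (θ * I : ℂ) ∈ {z : ℂ | 0 ≤ z.re ∧ z.re < T} := by
      show 0 ≤ (θ * I : ℂ).re ∧ (θ * I : ℂ).re < T
      simp [T0]
    have hw : (α0 θ + τ (α0 θ) * I : ℂ) ∈ UHP := by
      show (0 : ℝ) < (α0 θ + τ (α0 θ) * I : ℂ).im
      simp [τpos]
    have h1 : ContinuousWithinAt Ψ {z | 0 ≤ z.re ∧ z.re < T} (θ * I) := cΨ _ hmem
    have h2 : ContinuousWithinAt G {z | 0 ≤ z.re ∧ z.re < T} (θ * I) := cG _ hmem
    have hΦ : ContinuousAt Φ (α0 θ + τ (α0 θ) * I) := cΦ.continuousAt (hU.mem_nhds hw)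
    have h3 : Tendsto (fun z => Φ (Ψ z)) (𝓝[{z | 0 ≤ z.re ∧ z.re < T}] (θ * I))
        (𝓝 (Φ (α0 θ + τ (α0 θ) * I))) := by
      have := h1.tendsto
      rw [Ψbd] at this
      exact hΦ.tendsto.comp this
    have h4 : Tendsto (fun z => Φ (G z)) (𝓝[{z | 0 ≤ z.re ∧ z.re < T}] (θ * I))
        (𝓝 (Φ (α0 θ + τ (α0 θ) * I))) := by
      have := h2.tendsto
      rw [Gbd] at this
      exact hΦ.tendsto.comp this
    have h5 : ∀ᶠ z in 𝓝[{z | 0 ≤ z.re ∧ z.re < T}] (θ * I : ℂ), ‖Φ (Ψ z) - Φ (G z)‖ < η := by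
      have := (h3.sub h4).norm
      rw [sub_self, norm_zero] at this
      exact this.eventually (gt_mem_nhds hη)
    have h6 : ∀ᶠ z in 𝓝[{z | 0 ≤ z.re ∧ z.re < T}] (θ * I : ℂ), Ψ z ∈ UHP := by
      have := h1.tendsto
      rw [Ψbd] at this
      exact this.eventually (hU.mem_nhds hw)
    have h7 : ∀ᶠ z in 𝓝[{z | 0 ≤ z.re ∧ z.re < T}] (θ * I : ℂ), G z ∈ UHP := by
      have := h2.tendsto
      rw [Gbd] at this
      exact this.eventually (hU.mem_nhds hw)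
    have h8 := eventually_nhdsWithin_iff.1 (h5.and (h6.and h7))
    have hc : Tendsto (fun p : ℝ × ℝ => ((p.1 : ℂ) + p.2 * I)) (𝓝 ((0 : ℝ), θ)) (𝓝 (θ * I)) := by
      have : Continuous (fun p : ℝ × ℝ => ((p.1 : ℂ) + p.2 * I)) := by fun_prop
      have h9 := this.tendsto ((0 : ℝ), θ)
      simpa using h9
    filter_upwards [hc.eventually h8] with p hp hp0 hpT
    have hr : ((p.1 : ℂ) + p.2 * I).re = p.1 := by simp
    obtain ⟨a, b, c⟩ := hp (by show 0 ≤ _ ∧ _ < T; rw [hr]; exact ⟨hp0, hpT⟩)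
    exact ⟨c, b, a⟩
  have hcomp := (isCompact_Icc (a := (0 : ℝ)) (b := 2 * Real.pi)).eventually_forall_of_forall_eventually
    (x₀ := (0 : ℝ)) (P := fun t θ => 0 ≤ t → t < T →
      0 < (G (t + θ * I)).im ∧ 0 < (Ψ (t + θ * I)).im ∧
        ‖Φ (Ψ (t + θ * I)) - Φ (G (t + θ * I))‖ < η) (fun θ _ => hloc θ)
  obtain ⟨d, hd, hball⟩ := Metric.eventually_nhds_iff.1 hcomp
  refine ⟨d, hd, ?_⟩
  intro z hz hzd
  -- reduce to one period
  set n : ℤ := ⌊z.im / (2 * Real.pi)⌋ with hn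
  have hpi : (0 : ℝ) < 2 * Real.pi := by positivity
  have hθ0 : 0 ≤ z.im - 2 * Real.pi * n := by
    have h1 := Int.floor_le (z.im / (2 * Real.pi))
    rw [← hn, le_div_iff₀ hpi] at h1
    linarith
  have hθ1 : z.im - 2 * Real.pi * n ≤ 2 * Real.pi := by
    have h1 := (Int.lt_floor_add_one (z.im / (2 * Real.pi))).le
    rw [← hn, div_le_iff₀ hpi] at h1
    linarith
  obtain ⟨h1, h2, h3⟩ := hball (y := z.re)
    (by rw [Real.dist_eq, sub_zero, abs_of_pos hz.1]; exact hzd)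
    (z.im - 2 * Real.pi * n) ⟨hθ0, hθ1⟩ hz.1.le hz.2
  set z0 : ℂ := (z.re : ℂ) + ((z.im - 2 * Real.pi * n : ℝ) : ℂ) * I with hz0
  have hz0r : z0.re = z.re := by rw [hz0]; simp
  have hzz : z = z0 + 2 * Real.pi * n * I := by
    apply Complex.ext
    · simp [hz0]
    · simp [hz0]
  have hG := n7_lift Gper (z := z0) (by rw [hz0r]; exact hz.1.le) (by rw [hz0r]; exact hz.2) n
  have hΨ := n7_lift Ψper (z := z0) (by rw [hz0r]; exact hz.1.le) (by rw [hz0r]; exact hz.2) n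
  rw [← hzz] at hG hΨ
  rw [hG, hΨ, n7_phi hper h1, n7_phi hper h2]
  refine ⟨?_, h3⟩
  have : (G z0 + 2 * Real.pi * n).im = (G z0).im := by simp
  rw [this]; exact h1

theorem cellOut_of_fill {Ω Ωs K L : Set ℂ} {Φ ρ h g ψ G Ψ Ψ' fx fy : ℂ → ℂ} {τ α0 : ℝ → ℝ}
    {c r T : ℝ} (hK : Collar K Φ ρ) (hb : Bornology.IsBounded K ∨ Bornology.IsBounded Kᶜ)
    (hO : IsOpen Ω) (Lcl : IsClosed L) (Lne : L.Nonempty) (LO : Disjoint L Ω)
    (hτ : Depth c r τ) (hcont : ContinuousOn h Ω)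
    (bas : (∀ x ∈ Ω, h x ∈ K ↔ ‖g x‖ = 1) ∧ (∀ x ∈ Ω, h x ∉ K → ρ (h x) = g x))
    (So : IsOpen (collar Φ τ)) (Ss : collar Φ τ ⊆ Ωs) (SKo : IsOpen (collar Φ τ ∪ K))
    (hS : StripG Ω (dom Ω (collar Φ τ) K h) L g τ T ψ G α0)
    (cΨ : ContinuousOn Ψ {z | 0 ≤ z.re ∧ z.re < T})
    (Ψbd : ∀ θ : ℝ, Ψ (θ * I) = α0 θ + τ (α0 θ) * I)
    (Ψper : ∀ z : ℂ, 0 ≤ z.re → z.re < T → Ψ (z + 2 * Real.pi * I) = Ψ z + 2 * Real.pi)
    (Ψm : MapsTo Ψ (strip T) (below τ)) (Ψm' : MapsTo Ψ' (below τ) (strip T))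
    (inv : InvOn Ψ' Ψ (strip T) (below τ)) (cΨ' : ContinuousOn Ψ' (below τ))
    (hend : ∀ η > (0 : ℝ), ∃ d > (0 : ℝ), ∀ z : ℂ, T - d < z.re → z.re < T → (Ψ z).im < η)
    (acl : ∀ R : ℝ, ACL2 (strip T ∩ {z | |z.im| < R}) (fun z => Φ (Ψ z)) fx fy) :
    ∃ F Fx Fy : ℂ → ℂ,
      CellOut Ω Ωs K L h (en (per1 (strip T)) fx fy) (collar Φ τ) F Fx Fy := by
  classical
  obtain ⟨Φper, Φinj, Φopen⟩ := hK.facts
  have T0 := hS.Tpos
  set A : Set ℂ := dom Ω (collar Φ τ) K h with hAdef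
  have ch := hS.chart
  have hAO : A ⊆ Ω := fun x hx => hx.1
  have hAopen : IsOpen A := by
    have : A = Ω ∩ h ⁻¹' (collar Φ τ ∪ K) := by ext x; rfl
    rw [this]
    exact hcont.isOpen_inter_preimage hO SKo
  have hψA : ∀ z ∈ strip T, ψ z ∈ A := fun z hz => by rw [← ch.image]; exact mem_image_of_mem ψ hz
  -- `h ∘ ψ = Φ ∘ G` where `im G > 0`
  have hhG : ∀ z ∈ strip T, 0 < (G z).im → h (ψ z) = Φ (G z) := by
    intro z hz hG
    have h1 := hAO (hψA z hz)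
    have h2 : ‖g (ψ z)‖ < 1 := by
      rw [← hS.Gexp z hz, Complex.norm_exp]
      have : (I * G z).re = -(G z).im := by simp
      rw [this, Real.exp_lt_one_iff]
      linarith
    have h3 : h (ψ z) ∉ K := fun h4 => by
      have := (bas.1 (ψ z) h1).1 h4
      linarith
    refine hK.inj h3 (hK.mem _ hG) ?_
    rw [bas.2 _ h1 h3, hK.left _ hG, hS.Gexp z hz]
  -- the map `F`
  have hch : ∀ x : ℂ, ∃ z : ℂ, x ∈ A → z ∈ strip T ∧ ψ z = x := by
    intro x
    by_cases hx : x ∈ A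
    · have hx' := hx
      rw [← ch.image] at hx'
      obtain ⟨z, hz, rfl⟩ := hx'
      exact ⟨z, fun _ => ⟨hz, rfl⟩⟩
    · exact ⟨0, fun h => absurd h hx⟩
  choose ζ hζ using hch
  set F : ℂ → ℂ := fun x => Φ (Ψ (ζ x)) with hF
  have hΨU : ∀ z ∈ strip T, 0 < (Ψ z).im := fun z hz => (Ψm hz).1
  have hshift : ∀ z w : ℂ, z ∈ strip T → w ∈ strip T → ψ z = ψ w → Φ (Ψ z) = Φ (Ψ w) := by
    intro z w hz hw he
    obtain ⟨n, hn⟩ := ch.inj z hz w hw he
    have hn' : w = z + 2 * Real.pi * n * I := by rw [hn]; ring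
    rw [hn', n7_lift Ψper hz.1.le hz.2 n, n7_phi Φper (hΨU z hz)]
  have hFψ : ∀ z ∈ strip T, F (ψ z) = Φ (Ψ z) := by
    intro z hz
    obtain ⟨h1, h2⟩ := hζ (ψ z) (hψA z hz)
    exact hshift _ _ h1 hz h2
  obtain ⟨Fx, Fy, hacl, hen⟩ := exists_push (F := fun z => Φ (Ψ z)) (f := F) ch hAopen hFψ acl
  refine ⟨F, Fx, Fy, So, Ss, SKo, ⟨?_, ?_, ?_⟩, hacl, hen.le, ?_, ?_⟩
  · -- maps
    intro x hx
    have hx' : x ∈ A := hx
    obtain ⟨h1, h2⟩ := hζ x hx'
    exact ⟨Ψ (ζ x), Ψm h1, rfl⟩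
  · -- injective
    intro x hx x' hx' he
    obtain ⟨h1, h2⟩ := hζ x hx
    obtain ⟨h1', h2'⟩ := hζ x' hx'
    have he' : Φ (Ψ (ζ x)) = Φ (Ψ (ζ x')) := he
    obtain ⟨m, hm⟩ := Φinj _ (hΨU _ h1) _ (hΨU _ h1') he'
    rw [← n7_lift Ψper h1.1.le h1.2 m] at hm
    have hs := n7_strip_shift h1 m
    have hz : ζ x' = ζ x + 2 * Real.pi * m * I := by
      rw [← inv.1 h1', ← inv.1 hs, hm]
    rw [← h2, ← h2', hz, n7_psi ch h1]
  · -- surjective
    rintro w ⟨u, hu, rfl⟩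
    refine ⟨ψ (Ψ' u), hψA _ (Ψm' hu), ?_⟩
    rw [hFψ _ (Ψm' hu), inv.2 hu]
  · -- glue
    intro x hx hxn η hη
    have hxA : x ∉ A := fun h => hxn h.2
    have hxL : x ∉ L := fun h => (Set.disjoint_left.1 LO) h hx
    obtain ⟨d, hd, hnear⟩ := n7_near T0 hK.dPhi.continuousOn Φper hτ.pos cΨ hS.Gcont Ψbd hS.Gbd
      Ψper hS.Gper hη
    have htL : ∀ η > (0 : ℝ), ∃ a : ℝ, (a : ℂ) ∈ strip T ∧
        ∀ z ∈ strip T, a < z.re → infDist (ψ z) L < η := by
      intro η hη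
      obtain ⟨d', hd', h'⟩ := hS.tendL η hη
      refine ⟨max (T - d') (T / 2), ⟨?_, ?_⟩, fun z hz hza => h' z hz ?_⟩
      · have := le_max_right (T - d') (T / 2)
        rw [Complex.ofReal_re]; linarith
      · rw [Complex.ofReal_re]; exact max_lt (by linarith) (by linarith)
      · exact lt_of_le_of_lt (le_max_left _ _) hza
    obtain ⟨δ, hδ, hδ'⟩ := chart_near (Or.inl ⟨T, T0, rfl⟩) ch Lcl Lne htL hxA hxL d hd
    refine ⟨δ, hδ, ?_⟩
    intro y hy hyx
    obtain ⟨h1, h2⟩ := hζ y hy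
    have h3 : (ζ y).re < d := hδ' _ h1 (by rw [h2]; exact hyx)
    obtain ⟨h4, h5⟩ := hnear _ h1 h3
    rw [← h2, hFψ _ h1, hhG _ h1 h4]
    exact h5
  · -- proper
    intro η hη
    obtain ⟨y, hy, hty⟩ := hK.tend hb η hη
    obtain ⟨d, hd, hd'⟩ := hend y hy
    have ha : ((max (T - d) (T / 2) : ℝ) : ℂ) ∈ strip T := by
      refine ⟨?_, ?_⟩
      · have := le_max_right (T - d) (T / 2)
        rw [Complex.ofReal_re]; linarith
      · rw [Complex.ofReal_re]; exact max_lt (by linarith) (by linarith)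
    obtain ⟨κ, hκ, hκ'⟩ := chart_far (Or.inl ⟨T, T0, rfl⟩) ch hAO Lcl Lne LO hS.cpt _ ha
    refine ⟨κ, hκ, ?_⟩
    intro x hx hxL
    obtain ⟨h1, h2⟩ := hζ x hx
    have h3 := hκ' _ h1 (by rw [h2]; exact hxL)
    exact hty _ (hΨU _ h1) (hd' _ (lt_of_le_of_lt (le_max_left _ _) h3) h1.2)

end CF6

end
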