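import Pool.Agent.Lib.MP_cf6b16_an.K1
import Pool.Agent.Lib.MP_cf6b16_an.N1
import Pool.Agent.Lib.MP_cf6b16_an.K3
import Pool.Agent.Lib.MP_cf6b16_an.K5
import Pool.Agent.Lib.MP_cf6b16_an.N2
import Pool.Agent.Lib.MP_cf6b16_an.A2
import Pool.Agent.Lib.MP_cf6b16_an.N3
import Pool.Agent.Lib.MP_cf6b16_an.F3
import Pool.Agent.Lib.MP_cf6b16_an.N5
import Pool.Agent.Lib.MP_cf6b16_an.H1

section

/-! # Module H, row H0a: the image of a small circle around a point component

Let `D = ball p r \ {p} ⊆ Ω`, `f = hj j` (homeomorphism `Ω → Ωs`), `V = f '' D ∪ K i`.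
1. `V` is open. `f '' D` is open: `f '' D = Ωs ∩ g⁻¹' D` with the continuous inverse `g` (`H.homeo j`, `H.tgt.isOpen`). Near `K i`: `Ωs ∪ K i` is open (`H.tgt.union_conn {i}`, `Comps.union_conn`);
   `H.back j i r`: `κ > 0` with `infDist (f x) (K i) < κ → infDist x (L i) = dist x p < r` for `x ∈ Ω` (`L i = {p}`, `infDist_singleton`). So `(Ωs ∪ K i) ∩ {w | infDist w (K i) < κ} ⊆ V`, an open set containing `K i`
   (every point of `Ωs` is `f x`, `x ∈ Ω`, `x ≠ p` since `p ∈ L i ⊆ Ωᶜ`).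
2. `V ∪ f '' sphere p r` is closed: let `w n → w` be in it. If `w n ∈ K i` infinitely often: `w ∈ K i`. Otherwise `w n = f (x n)`, `x n ∈ closedBall p r \ {p}`; a subsequence converges to `x ∈ closedBall p r`. If `x ≠ p`: `x ∈ Ω`, `w = f x` by continuity.
   If `x = p`: `infDist (x n) (L i) → 0`; so `infDist (f (x n)) (K i) → 0`: use `H.ends`?  (`H.ends` only gives this for `j ≥ j0`.) For a fixed `j` use: `f` is proper: if `w ∉ K i` then `w ∈ Ωs` or `w ∈ K m`, `m ≠ i`. If `w ∈ Ωs` then `g (w n) → g w ∈ Ω` (`g` continuous, `Ωs` open) but `g (w n) = x n → p ∉ Ω`.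
   If `w ∈ K m`: `H.back j m`: `infDist (x n) (L m) → 0`, so `p ∈ L m` (`L m` closed), contradiction to `H.dom.disj` (`p ∈ L i`). So `w ∈ K i ⊆ V`.
3. `O = (closedBall w δ)ᶜ` is connected (`isConnected_compl_closedBall`-type: `ℂ` has real dimension 2, `Complex.rank_real_complex`; if `δ < 0` the ball is empty; there is `isConnected_compl_of_..`/`IsConnected` of the complement of a closed ball, e.g.
   `Metric.isPreconnected_compl_closedBall`, or as image of `{z | δ < ‖z‖}`, path connectedness by polar coordinates).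
   `O ∩ V` is open and `O ∩ V = O ∩ (V ∪ f '' sphere p r)` is relatively closed. So `O ⊆ V` or `O ∩ V = ∅`. `O ⊆ V` is impossible: `f x0 ∈ O` (`hw0`), `f x0 ∉ f '' D` (injectivity, `x0 ∉ ball p r`), `f x0 ∉ K i` (`f x0 ∈ Ωs`, `K i ⊆ Ωsᶜ`). So `O ∩ V = ∅`, `K i ⊆ closedBall w δ`. -/

open Complex MeasureTheory Set Filter Topology Metric

namespace CF6

theorem h0a_outer (w : ℂ) (δ : ℝ) : IsPreconnected (closedBall w δ)ᶜ := by
  rcases lt_or_ge δ 0 with h | h
  · rw [closedBall_eq_empty.mpr h, compl_empty]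
    exact isPreconnected_univ
  · have h1 : (closedBall w δ)ᶜ =
        (fun s : ℝ × ℝ => w + ((δ + s.1 : ℝ) : ℂ) * exp ((s.2 : ℂ) * I)) ''
          (Ioi (0 : ℝ) ×ˢ univ) := by
      ext z
      constructor
      · intro hz
        rw [mem_compl_iff, mem_closedBall, not_le, dist_eq] at hz
        refine ⟨(‖z - w‖ - δ, arg (z - w)), ⟨by simpa using hz, mem_univ _⟩, ?_⟩
        have e1 : δ + (‖z - w‖ - δ) = ‖z - w‖ := by ring
        change w + ((δ + (‖z - w‖ - δ) : ℝ) : ℂ) * exp ((arg (z - w) : ℂ) * I) = z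
        rw [e1, norm_mul_exp_arg_mul_I]
        ring
      · rintro ⟨⟨ρ, τ⟩, ⟨hρ, -⟩, rfl⟩
        have hρ' : 0 < ρ := hρ
        rw [mem_compl_iff, mem_closedBall, not_le, dist_eq]
        change δ < ‖w + ((δ + ρ : ℝ) : ℂ) * exp ((τ : ℂ) * I) - w‖
        rw [add_sub_cancel_left, norm_mul, norm_exp_ofReal_mul_I, mul_one, norm_real,
          Real.norm_eq_abs, abs_of_pos (by linarith)]
        linarith
    rw [h1]
    refine IsPreconnected.image ?_ _ (Continuous.continuousOn (by fun_prop))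
    exact isPreconnected_Ioi.prod isPreconnected_univ

theorem circle_image_large {k : ℕ} {Ω Ωs : Set ℂ} {L K : Fin k → Set ℂ} {h : ℂ → ℂ}
    {hj : ℕ → ℂ → ℂ} (H : Approx Ω Ωs L K h hj) (i : Fin k) {p : ℂ} (hp : L i = {p}) (j : ℕ)
    {r : ℝ} (hr : 0 < r) (hD : closedBall p r \ {p} ⊆ Ω) {w : ℂ} {δ : ℝ}
    (hδ : ∀ x ∈ sphere p r, hj j x ∈ closedBall w δ) {x0 : ℂ} (hx0 : x0 ∈ Ω)
    (hx0' : r < dist x0 p) (hw0 : hj j x0 ∉ closedBall w δ) : K i ⊆ closedBall w δ := by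
  obtain ⟨g, hg, hinv, hgm⟩ := (H.homeo j).inverse
  have hgc : ContinuousOn g Ωs := hg.1
  have hgf : ∀ x ∈ Ω, g (hj j x) = x := fun x hx => hinv.1 hx
  have hfg : ∀ y ∈ Ωs, hj j (g y) = y := fun y hy => hinv.2 hy
  have hfm : ∀ x ∈ Ω, hj j x ∈ Ωs := fun x hx => (H.homeo j).2.1.mapsTo hx
  have hΩs : IsOpen Ωs := H.tgt.isOpen
  have hLΩ : ∀ m, ∀ x ∈ L m, x ∉ Ω := by
    intro m x hx
    have h1 : x ∈ ⋃ i, L i := mem_iUnion.mpr ⟨m, hx⟩
    rw [H.dom.union] at h1
    exact h1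
  have hKΩ : ∀ m, ∀ x ∈ K m, x ∉ Ωs := by
    intro m x hx
    have h1 : x ∈ ⋃ i, K i := mem_iUnion.mpr ⟨m, hx⟩
    rw [H.tgt.union] at h1
    exact h1
  have hpL : p ∈ L i := by rw [hp]; exact mem_singleton p
  have hpΩ : p ∉ Ω := hLΩ i p hpL
  -- the open set `V`
  have hD1 : ball p r \ {p} ⊆ Ω := fun x hx => hD ⟨ball_subset_closedBall hx.1, hx.2⟩
  have himg : hj j '' (ball p r \ {p}) = Ωs ∩ g ⁻¹' (ball p r \ {p}) := by
    ext y
    constructor
    · rintro ⟨x, hx, rfl⟩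
      refine ⟨hfm x (hD1 hx), ?_⟩
      rw [mem_preimage, hgf x (hD1 hx)]
      exact hx
    · rintro ⟨hy, hy'⟩
      exact ⟨g y, hy', hfg y hy⟩
  have hVo1 : IsOpen (hj j '' (ball p r \ {p})) := by
    rw [himg]
    exact hgc.isOpen_inter_preimage hΩs (isOpen_ball.sdiff isClosed_singleton)
  obtain ⟨κ, hκ, hκ'⟩ := H.back j i r hr
  have hWo : IsOpen ((Ωs ∪ K i) ∩ {y | infDist y (K i) < κ}) := by
    have h1 := (H.tgt.union_conn {i}).1
    rw [biUnion_singleton] at h1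
    exact h1.inter (isOpen_lt (continuous_infDist_pt _) continuous_const)
  have hV : IsOpen (hj j '' (ball p r \ {p}) ∪ K i) := by
    have h1 : hj j '' (ball p r \ {p}) ∪ K i = hj j '' (ball p r \ {p}) ∪
        ((Ωs ∪ K i) ∩ {y | infDist y (K i) < κ}) := by
      apply Subset.antisymm
      · apply union_subset_union_right
        intro y hy
        refine ⟨Or.inr hy, ?_⟩
        change infDist y (K i) < κ
        rw [infDist_zero_of_mem hy]
        exact hκ
      · rintro y (hy | ⟨hy | hy, hy'⟩)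
        · exact Or.inl hy
        · left
          refine ⟨g y, ⟨?_, ?_⟩, hfg y hy⟩
          · have h2 := hκ' (g y) (hgm hy) (by rw [hfg y hy]; exact hy')
            rw [hp, infDist_singleton] at h2
            exact h2
          · intro h3
            rw [mem_singleton_iff] at h3
            exact hpΩ (h3 ▸ hgm hy)
        · exact Or.inr hy
    rw [h1]
    exact hVo1.union hWo
  -- the closed set
  have hC : IsClosed (hj j '' (closedBall p r \ {p}) ∪ K i) := by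
    rw [← isOpen_compl_iff, isOpen_iff_mem_nhds]
    intro y hy
    rw [mem_compl_iff, mem_union, not_or] at hy
    by_cases hyΩ : y ∈ Ωs
    · have h1 : IsOpen (Ωs ∩ g ⁻¹' (closedBall p r)ᶜ) :=
        hgc.isOpen_inter_preimage hΩs isClosed_closedBall.isOpen_compl
      have h2 : y ∈ Ωs ∩ g ⁻¹' (closedBall p r)ᶜ := by
        refine ⟨hyΩ, fun h3 => hy.1 ⟨g y, ⟨h3, ?_⟩, hfg y hyΩ⟩⟩
        intro h4
        rw [mem_singleton_iff] at h4
        exact hpΩ (h4 ▸ hgm hyΩ)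
      filter_upwards [h1.mem_nhds h2] with y' hy'
      rintro (⟨x, hx, rfl⟩ | h3)
      · have h4 := hy'.2
        rw [mem_preimage, hgf x (hD hx)] at h4
        exact h4 hx.1
      · exact hKΩ i y' h3 hy'.1
    · have h0 : y ∈ ⋃ i, K i := by
        rw [H.tgt.union]
        exact hyΩ
      obtain ⟨m, hm⟩ := mem_iUnion.mp h0
      have hmi : m ≠ i := by
        rintro rfl
        exact hy.2 hm
      -- the distance of the closed disc to `L m`
      have hne : (L m).Nonempty := (H.dom.cconn m).nonempty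
      have hpos : ∀ x ∈ closedBall p r, 0 < infDist x (L m) := by
        intro x hx
        rw [← (H.dom.closed m).notMem_iff_infDist_pos hne]
        intro h1
        by_cases hxp : x = p
        · exact (disjoint_left.mp (H.dom.disj m i hmi)) h1 (by rw [hxp]; exact hpL)
        · exact hLΩ m x h1 (hD ⟨hx, hxp⟩)
      obtain ⟨x1, hx1, hmin⟩ := (isCompact_closedBall p r).exists_isMinOn
        ⟨p, mem_closedBall_self hr.le⟩ (continuous_infDist_pt (L m)).continuousOn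
      obtain ⟨κ', hκ0, hκ1⟩ := H.back j m (infDist x1 (L m)) (hpos x1 hx1)
      have h1 : IsOpen ({y | infDist y (K m) < κ'} ∩ (K i)ᶜ) :=
        (isOpen_lt (continuous_infDist_pt _) continuous_const).inter
          (H.tgt.closed i).isOpen_compl
      have h2 : y ∈ {y | infDist y (K m) < κ'} ∩ (K i)ᶜ := by
        refine ⟨?_, hy.2⟩
        change infDist y (K m) < κ'
        rw [infDist_zero_of_mem hm]
        exact hκ0
      filter_upwards [h1.mem_nhds h2] with y' hy'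
      rintro (⟨x, hx, rfl⟩ | h3)
      · have h4 := hκ1 x (hD hx) hy'.1
        have h5 := (isMinOn_iff.mp hmin) x hx.1
        linarith
      · exact hy'.2 h3
  -- conclusion
  intro c hc
  by_contra hcO
  have hfx0 : hj j x0 ∉ hj j '' (closedBall p r \ {p}) ∪ K i := by
    rintro (⟨x, hx, hx'⟩ | h3)
    · have h4 : x = x0 := by
        rw [← hgf x (hD hx), hx', hgf x0 hx0]
      rw [h4] at hx
      have h5 := mem_closedBall.mp hx.1
      linarith
    · exact hKΩ i _ h3 (hfm x0 hx0)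
  have hcov : (closedBall w δ)ᶜ ⊆ (hj j '' (ball p r \ {p}) ∪ K i) ∪
      (hj j '' (closedBall p r \ {p}) ∪ K i)ᶜ := by
    intro y hy
    by_cases h1 : y ∈ hj j '' (closedBall p r \ {p}) ∪ K i
    · left
      rcases h1 with ⟨x, hx, rfl⟩ | h1
      · left
        refine ⟨x, ⟨?_, hx.2⟩, rfl⟩
        rw [mem_ball]
        rcases (mem_closedBall.mp hx.1).lt_or_eq with h2 | h2
        · exact h2
        · exact absurd (hδ x (mem_sphere.mpr h2)) hy
      · exact Or.inr h1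
    · exact Or.inr h1
  obtain ⟨y, -, hy1, hy2⟩ := h0a_outer w δ _ _ hV hC.isOpen_compl hcov
    ⟨c, hcO, Or.inr hc⟩ ⟨hj j x0, hw0, hfx0⟩
  apply hy2
  rcases hy1 with ⟨x, hx, rfl⟩ | hy1
  · exact Or.inl ⟨x, ⟨ball_subset_closedBall hx.1, hx.2⟩, rfl⟩
  · exact Or.inr hy1

end CF6

end

section

/-! # Module H, row H0b: a nondegenerate component corresponds to a nondegenerate component

Suppose `L i` is not nontrivial: `L i = {p}` (`H.dom.cconn i` nonempty, `Set.not_nontrivial_iff`, subsingleton). `Ωs` is open and nonempty, so it has two points `a ≠ b`; `H.surj` gives `x1, x2 ∈ Ω` with `h x1 = a`, `h x2 = b`.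
`K i` has two points `c ≠ d`. Let `δ > 0` with `8 δ < ‖a - b‖`, `8 δ < ‖c - d‖`.
`Ω ∪ L i` is open (`Comps.union_conn {i}`), so `closedBall p r0 \ {p} ⊆ Ω` for some `r0 > 0`; take `r0 < dist x1 p, dist x2 p`. `ha.courant_lebesgue` (`U = Ω`, `ζ = p`, `ε = δ`, `δ = r0`): `ρ ∈ (0, r0)` with
`‖h x - h x'‖ ≤ δ` for all `x, x' ∈ sphere p ρ` (`x = circleMap p ρ θ`, `θ₁ = 0`, `θ₂ ∈ [0, 2π]`; compare both with `circleMap p ρ 0`: `≤ 2 δ`). Let `w = h (circleMap p ρ 0)`: `h '' sphere ⊆ closedBall w δ`.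
`H.unif` for the compact set `sphere p ρ ∪ {x1, x2}`: `j` with `dist (hj j x) (h x) < δ` there. So `hj j '' sphere p ρ ⊆ closedBall w (2 δ)`. One of `hj j x1`, `hj j x2` is not in `closedBall w (2 δ)` (their distance is `≥ 8δ - 2δ > 4δ`).
`circle_image_large` gives `K i ⊆ closedBall w (2 δ)`: contradiction to `‖c - d‖ > 4 δ`. -/

open Complex MeasureTheory Set Filter Topology Metric

namespace CF6

theorem no_point {k : ℕ} {Ω Ωs : Set ℂ} {L K : Fin k → Set ℂ} {h hx hy : ℂ → ℂ}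
    {hj : ℕ → ℂ → ℂ} (H : Approx Ω Ωs L K h hj) (ha : ACL2 Ω h hx hy) (i : Fin k)
    (hK : (K i).Nontrivial) : (L i).Nontrivial := by
  by_contra hn
  rw [Set.not_nontrivial_iff] at hn
  obtain ⟨p, hp⟩ := (H.dom.cconn i).nonempty
  have hLp : L i = {p} := hn.eq_singleton_of_mem hp
  have hpΩ : p ∉ Ω := by
    intro hpo
    have : p ∈ Ωᶜ := by
      rw [← H.dom.union]
      exact mem_iUnion.2 ⟨i, hp⟩
    exact this hpo
  -- two points of the target
  obtain ⟨a, haΩ⟩ := H.tgt.conn.nonempty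
  obtain ⟨ε, hε, hεs⟩ := Metric.isOpen_iff.1 H.tgt.isOpen a haΩ
  set b : ℂ := a + (ε / 2 : ℝ) with hb
  have hab : dist a b = ε / 2 := by
    rw [hb, dist_comm, dist_eq_norm, add_sub_cancel_left, Complex.norm_real, Real.norm_eq_abs,
      abs_of_pos (by linarith)]
  have hbΩ : b ∈ Ωs := by
    apply hεs
    rw [mem_ball, dist_comm, hab]
    linarith
  obtain ⟨x1, hx1, e1⟩ := H.surj haΩ
  obtain ⟨x2, hx2, e2⟩ := H.surj hbΩ
  obtain ⟨c, hc, d, hd, hcd⟩ := hK
  have hcd0 : 0 < dist c d := dist_pos.2 hcd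
  have hab0 : 0 < dist a b := by rw [hab]; linarith
  obtain ⟨δ, hδ, hδ1, hδ2⟩ : ∃ δ > (0 : ℝ), 8 * δ < dist a b ∧ 8 * δ < dist c d := by
    refine ⟨min (dist a b) (dist c d) / 9, by positivity, ?_, ?_⟩
    · have := min_le_left (dist a b) (dist c d)
      have h0 : 0 < min (dist a b) (dist c d) := lt_min hab0 hcd0
      linarith
    · have := min_le_right (dist a b) (dist c d)
      have h0 : 0 < min (dist a b) (dist c d) := lt_min hab0 hcd0
      linarith
  -- a punctured disc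
  have hop : IsOpen (Ω ∪ L i) := by
    have := (H.dom.union_conn {i}).1
    simpa using this
  obtain ⟨r1, hr1, hr1s⟩ := Metric.isOpen_iff.1 hop p (Or.inr hp)
  have hx1p : 0 < dist x1 p := dist_pos.2 (fun e => hpΩ (e ▸ hx1))
  have hx2p : 0 < dist x2 p := dist_pos.2 (fun e => hpΩ (e ▸ hx2))
  have hr0 : 0 < min r1 (min (dist x1 p) (dist x2 p)) := lt_min hr1 (lt_min hx1p hx2p)
  obtain ⟨ρ, ⟨hρ0, hρr⟩, hCL⟩ := ha.courant_lebesgue H.dom.isOpen p hδ hr0
  have hρ1 : ρ < r1 := lt_of_lt_of_le hρr (min_le_left _ _)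
  have hρ2 : ρ < dist x1 p := lt_of_lt_of_le hρr ((min_le_right _ _).trans (min_le_left _ _))
  have hρ3 : ρ < dist x2 p := lt_of_lt_of_le hρr ((min_le_right _ _).trans (min_le_right _ _))
  have hD : closedBall p ρ \ {p} ⊆ Ω := by
    rintro x ⟨hx, hxp⟩
    have hx' : x ∈ ball p r1 := lt_of_le_of_lt hx hρ1
    rcases hr1s hx' with h1 | h1
    · exact h1
    · rw [hLp] at h1
      exact absurd h1 hxp
  have hcir : ∀ θ : ℝ, circleMap p ρ θ ∈ Ω := by
    intro θ
    apply hD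
    refine ⟨?_, ?_⟩
    · exact sphere_subset_closedBall (circleMap_mem_sphere p hρ0.le θ)
    · exact circleMap_ne_center hρ0.ne'
  set w : ℂ := h (circleMap p ρ 0) with hw
  have hsph : ∀ x ∈ sphere p ρ, dist (h x) w ≤ δ := by
    intro x hx
    have hx' : x ∈ sphere p |ρ| := by rwa [abs_of_pos hρ0]
    rw [← image_circleMap_Ioc p ρ] at hx'
    obtain ⟨θ, hθ, rfl⟩ := hx'
    rw [dist_eq_norm, hw]
    exact hCL 0 θ hθ.1.le (by linarith [hθ.2]) (fun t _ => hcir t)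
  have hsΩ : sphere p ρ ⊆ Ω := by
    intro x hx
    apply hD
    refine ⟨sphere_subset_closedBall hx, ?_⟩
    intro hxp
    rw [mem_singleton_iff] at hxp
    rw [hxp, mem_sphere, dist_self] at hx
    exact hρ0.ne hx
  have hQc : IsCompact (sphere p ρ ∪ {x1, x2}) :=
    (isCompact_sphere p ρ).union (Set.toFinite {x1, x2}).isCompact
  have hQs : sphere p ρ ∪ {x1, x2} ⊆ Ω := by
    apply union_subset hsΩ
    rintro x (rfl | rfl)
    · exact hx1
    · exact hx2
  obtain ⟨j0, hj0⟩ := H.unif hQc hQs hδ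
  have hun := hj0 j0 le_rfl
  have hδs : ∀ x ∈ sphere p ρ, hj j0 x ∈ closedBall w (2 * δ) := by
    intro x hx
    rw [mem_closedBall]
    have h1 := hun x (Or.inl hx)
    have h2 := hsph x hx
    have h3 := dist_triangle (hj j0 x) (h x) w
    linarith
  have h1 := hun x1 (Or.inr (Or.inl rfl))
  have h2 := hun x2 (Or.inr (Or.inr rfl))
  rw [e1] at h1
  rw [e2] at h2
  have key : K i ⊆ closedBall w (2 * δ) := by
    by_cases hin : hj j0 x1 ∈ closedBall w (2 * δ)
    · by_cases hin2 : hj j0 x2 ∈ closedBall w (2 * δ)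
      · exfalso
        rw [mem_closedBall] at hin hin2
        have t1 := dist_triangle a (hj j0 x1) b
        have t2 := dist_triangle (hj j0 x1) w b
        have t3 := dist_triangle w (hj j0 x2) b
        rw [dist_comm a (hj j0 x1)] at t1
        rw [dist_comm w (hj j0 x2)] at t3
        linarith
      · exact circle_image_large H i hLp j0 hρ0 hD hδs hx2 hρ3 hin2
    · exact circle_image_large H i hLp j0 hρ0 hD hδs hx1 hρ2 hin
  have hc' := key hc
  have hd' := key hd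
  rw [mem_closedBall] at hc' hd'
  have t := dist_triangle c w d
  rw [dist_comm w d] at t
  linarith

end CF6

end

section

/-! # Module H, row H1: the chart and its boundary values

`approx_cell_point` (N1c) + `pointG_of_cell` (N1b) with `A = dom Ω (ball q ρ0 \ {q}) (K i) h`. `A` is open: `A = Ω ∩ h⁻¹' (ball q ρ0)` (`K i = {q}`, `dom` is defined in I/IDefs), `h` is continuous on the open set `Ω` (`H.cont`, `H.dom.isOpen`). `A ⊆ Ω` clear; `hlt`: `h x ∈ ball q ρ0 \ {q} ∪ {q}`. -/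

open Complex MeasureTheory Set Filter Topology Metric

namespace CF6

theorem exists_pointG {k : ℕ} {Ω Ωs : Set ℂ} {L K : Fin k → Set ℂ} {h hx hy : ℂ → ℂ}
    {hj : ℕ → ℂ → ℂ} (H : Approx Ω Ωs L K h hj) (ha : ACL2 Ω h hx hy) (i : Fin k) {q : ℂ}
    (hq : K i = {q}) :
    ∃ y2 > (0 : ℝ), ∀ ρ0 : ℝ, 0 < ρ0 → ρ0 ≤ y2 → closedBall q ρ0 \ {q} ⊆ Ωs ∧
      ∃ (X : Set ℂ) (ψ Hb : ℂ → ℂ) (α0 : ℝ → ℝ),
        PointG Ω (dom Ω (ball q ρ0 \ {q}) (K i) h) (L i) q ρ0 X h ψ Hb α0 := by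
  obtain ⟨y2, hy2, hcell⟩ := approx_cell_point H i hq
  refine ⟨y2, hy2, fun ρ0 hρ0 hρ2 => ?_⟩
  obtain ⟨hsub, X, ψ, hX, ch, ⟨d, U, hd, hdX, hU, hh⟩, tendL, cpt⟩ := hcell ρ0 hρ0 hρ2
  have hA : dom Ω (ball q ρ0 \ {q}) (K i) h = Ω ∩ h ⁻¹' (ball q ρ0) := by
    ext x
    simp only [dom, hq, mem_setOf_eq, mem_inter_iff, mem_preimage, mem_union, mem_diff,
      mem_singleton_iff]
    constructor
    · rintro ⟨hx, ⟨h1, _⟩ | h1⟩
      · exact ⟨hx, h1⟩
      · exact ⟨hx, by rw [h1]; exact mem_ball_self hρ0⟩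
    · rintro ⟨hx, h1⟩
      by_cases h2 : h x = q
      · exact ⟨hx, Or.inr h2⟩
      · exact ⟨hx, Or.inl ⟨h1, h2⟩⟩
  have hAo : IsOpen (dom Ω (ball q ρ0 \ {q}) (K i) h) := by
    rw [hA]
    exact H.cont.isOpen_inter_preimage H.dom.isOpen isOpen_ball
  have hAO : dom Ω (ball q ρ0 \ {q}) (K i) h ⊆ Ω := fun x hx => hx.1
  have hlt : ∀ x ∈ dom Ω (ball q ρ0 \ {q}) (K i) h, dist (h x) q < ρ0 := by
    intro x hx
    rw [hA] at hx
    exact hx.2
  obtain ⟨Hb, α0, hP⟩ := pointG_of_cell hρ0 H.dom.isOpen hAo hAO ha hlt hX ch hd hdX hU hh tendL cpt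
  exact ⟨hsub, X, ψ, Hb, α0, hP⟩

end CF6

end

section

/-! # Module H, row H2: the part of the strip where `Hb ≠ q` is connected

`pt_near`: `Hb` is continuous on `{z | z ∈ X ∨ z.re = 0}` and `‖Hb z - q‖ = ρ0` for `re z = 0`. `X` is `strip T` or `rhp`. For every `θ ∈ [0, 2π]` there is `δ > 0` with `‖Hb z - q‖ > ρ0/2` for `z ∈ X`, `dist z (θ I) < δ`; by compactness of `{θ I | θ ∈ [0,2π]}` there is one
`d > 0` (`d ≤ T` if `X = strip T`) with this property for all `z ∈ X`, `re z < d`, `im z ∈ [0, 2π]`. `Hb` is `2πi`-periodic on `X` (`Heq`, `chart.per`): it holds for all `z ∈ X` with `re z < d` (translate by integer multiples, `chart.Xper` in both directions).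
`pt_conn`: `X' = {z ∈ X | Hb z ≠ q}` is open (`X` open, `Hb` continuous on `X`), invariant under `z ↦ z ± 2πi`. `S = strip d ⊆ X'` is convex, nonempty. `Y` = connected component of `X'` containing `z0 = d/2` (`connectedComponentIn X' z0`), open (`IsOpen.connectedComponentIn`), contains `S`; `Y + 2πi` is connected, contained in `X'` and
meets `S`, so `Y + 2πi ⊆ Y`; the same for `-2πi`. `Z = X' \ Y` is open (union of components). `ψ '' Y`, `ψ '' Z` are open (`Chart.cont`) with union `{x ∈ A | h x ≠ q}` (`Heq`, `chart.image`), disjoint: `ψ y = ψ z` gives `z = y + 2πi n` (`chart.inj`) `∈ Y`. By `hA`: `ψ '' Z = ∅`, `X' = Y` is connected. -/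

open Complex MeasureTheory Set Filter Topology Metric
open scoped ENNReal

namespace CF6

theorem h2_trans {X A : Set ℂ} {ψ : ℂ → ℂ} (hc : Chart X A ψ) (n : ℤ) :
    ∀ z ∈ X, z + n * (2 * Real.pi * I) ∈ X ∧ ψ (z + n * (2 * Real.pi * I)) = ψ z := by
  induction n using Int.induction_on with
  | zero => intro z hz; simpa using hz
  | succ k ih =>
    intro z hz
    obtain ⟨h1, h2⟩ := ih z hz
    have e : z + ((k + 1 : ℤ) : ℂ) * (2 * Real.pi * I) =
        (z + (k : ℤ) * (2 * Real.pi * I)) + 2 * Real.pi * I := by push_cast; ring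
    rw [e]
    exact ⟨(hc.Xper _).1 h1, by rw [hc.per _ h1, h2]⟩
  | pred k ih =>
    intro z hz
    obtain ⟨h1, h2⟩ := ih z hz
    have e : (z + ((-k - 1 : ℤ) : ℂ) * (2 * Real.pi * I)) + 2 * Real.pi * I =
        z + ((-k : ℤ) : ℂ) * (2 * Real.pi * I) := by push_cast; ring
    have h3 : z + ((-k - 1 : ℤ) : ℂ) * (2 * Real.pi * I) ∈ X := by
      rw [hc.Xper, e]; exact h1
    refine ⟨h3, ?_⟩
    rw [← hc.per _ h3, e, h2]

theorem pt_near {Ω A L : Set ℂ} {q : ℂ} {ρ0 : ℝ} {X : Set ℂ} {h ψ Hb : ℂ → ℂ} {α0 : ℝ → ℝ}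
    (hP : PointG Ω A L q ρ0 X h ψ Hb α0) :
    ∃ d > (0 : ℝ), strip d ⊆ X ∧ ∀ z ∈ X, z.re < d → ρ0 / 2 < ‖Hb z - q‖ := by
  have hpos := hP.pos
  have hre : ∀ z ∈ X, 0 < z.re := by
    intro z hz
    rcases hP.Xf with ⟨T, _, hT⟩ | hX
    · rw [hT] at hz; exact hz.1
    · rw [hX] at hz; exact hz
  -- the open set
  have hg : ContinuousOn (fun z => ‖Hb z - q‖) {z | z ∈ X ∨ z.re = 0} :=
    (hP.Hcont.sub continuousOn_const).norm
  obtain ⟨U, hU, hUe⟩ := (_root_.continuousOn_iff'.1 hg) (Ioi (ρ0 / 2)) isOpen_Ioi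
  have hK : IsCompact ((fun θ : ℝ => (θ : ℂ) * I) '' Icc 0 (2 * Real.pi)) :=
    isCompact_Icc.image (by fun_prop)
  have hKU : (fun θ : ℝ => (θ : ℂ) * I) '' Icc 0 (2 * Real.pi) ⊆ U := by
    rintro _ ⟨θ, _, rfl⟩
    have h1 : (θ : ℂ) * I ∈ {z : ℂ | z ∈ X ∨ z.re = 0} := by
      right; simp
    have h2 : (θ : ℂ) * I ∈ (fun z => ‖Hb z - q‖) ⁻¹' Ioi (ρ0 / 2) ∩ {z : ℂ | z ∈ X ∨ z.re = 0} := by
      refine ⟨?_, h1⟩
      show ρ0 / 2 < ‖Hb ((θ : ℂ) * I) - q‖
      rw [hP.Hbd θ, add_sub_cancel_left, norm_mul, mul_comm I, Complex.norm_exp_ofReal_mul_I,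
        Complex.norm_real, mul_one, Real.norm_eq_abs, abs_of_pos hpos]
      linarith
    rw [hUe] at h2
    exact h2.1
  obtain ⟨δ, hδ, hδU⟩ := hK.exists_thickening_subset_open hU hKU
  have key : ∀ z ∈ X, z.re < δ → z.im ∈ Icc 0 (2 * Real.pi) → ρ0 / 2 < ‖Hb z - q‖ := by
    intro z hz hzd hzi
    have h1 : z ∈ thickening δ ((fun θ : ℝ => (θ : ℂ) * I) '' Icc 0 (2 * Real.pi)) := by
      rw [mem_thickening_iff]
      refine ⟨(z.im : ℂ) * I, ⟨z.im, hzi, rfl⟩, ?_⟩
      rw [Complex.dist_eq]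
      have : z - (z.im : ℂ) * I = (z.re : ℂ) := by
        apply Complex.ext <;> simp
      rw [this, Complex.norm_real, Real.norm_eq_abs, abs_of_pos (hre z hz)]
      exact hzd
    have h2 : z ∈ U ∩ {z : ℂ | z ∈ X ∨ z.re = 0} := ⟨hδU h1, Or.inl hz⟩
    rw [← hUe] at h2
    exact h2.1
  have key2 : ∀ z ∈ X, z.re < δ → ρ0 / 2 < ‖Hb z - q‖ := by
    intro z hz hzd
    set n : ℤ := -⌊z.im / (2 * Real.pi)⌋ with hn
    obtain ⟨h1, h2⟩ := h2_trans hP.chart n z hz
    have hpi : 0 < 2 * Real.pi := by positivity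
    have him : (z + n * (2 * Real.pi * I)).im = z.im + n * (2 * Real.pi) := by
      simp
    have hre' : (z + n * (2 * Real.pi * I)).re = z.re := by
      simp
    have hm : (z + n * (2 * Real.pi * I)).im ∈ Icc 0 (2 * Real.pi) := by
      rw [him, hn]
      push_cast
      have f1 := Int.floor_le (z.im / (2 * Real.pi))
      have f2 := Int.lt_floor_add_one (z.im / (2 * Real.pi))
      rw [le_div_iff₀ hpi] at f1
      rw [div_lt_iff₀ hpi] at f2
      constructor
      · linarith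
      · linarith
    have h3 := key _ h1 (by rw [hre']; exact hzd) hm
    rwa [hP.Heq _ h1, h2, ← hP.Heq z hz] at h3
  rcases hP.Xf with ⟨T, hT, hX⟩ | hX
  · refine ⟨min δ T, lt_min hδ hT, ?_, ?_⟩
    · rw [hX]
      intro z hz
      exact ⟨hz.1, lt_of_lt_of_le hz.2 (min_le_right _ _)⟩
    · intro z hz hzd
      exact key2 z hz (lt_of_lt_of_le hzd (min_le_left _ _))
  · refine ⟨δ, hδ, ?_, key2⟩
    rw [hX]
    intro z hz
    exact hz.1

theorem pt_conn {Ω A L : Set ℂ} {q : ℂ} {ρ0 : ℝ} {X : Set ℂ} {h ψ Hb : ℂ → ℂ} {α0 : ℝ → ℝ}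
    (hP : PointG Ω A L q ρ0 X h ψ Hb α0) (hA : IsPreconnected {x | x ∈ A ∧ h x ≠ q}) :
    IsPreconnected {z | z ∈ X ∧ Hb z ≠ q} := by
  obtain ⟨d, hd, hdX, hdn⟩ := pt_near hP
  have hpos := hP.pos
  have hXo := hP.chart.Xopen
  obtain ⟨hψc, hψo⟩ := hP.chart.cont
  have hbc : ContinuousOn Hb X := hP.Hcont.mono fun z hz => Or.inl hz
  have hX'o : IsOpen {z | z ∈ X ∧ Hb z ≠ q} := by
    have := hbc.isOpen_inter_preimage hXo (isOpen_compl_singleton (x := q))
    exact this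
  have hX'X : {z | z ∈ X ∧ Hb z ≠ q} ⊆ X := fun z hz => hz.1
  have hSX' : strip d ⊆ {z | z ∈ X ∧ Hb z ≠ q} := by
    intro z hz
    refine ⟨hdX hz, fun he => ?_⟩
    have := hdn z (hdX hz) hz.2
    rw [he, sub_self, norm_zero] at this
    linarith
  have hSconv : Convex ℝ (strip d) := by
    have e : strip d = (Complex.reLm ⁻¹' Ioi 0) ∩ (Complex.reLm ⁻¹' Iio d) := by
      ext z; rfl
    rw [e]
    exact ((convex_Ioi 0).linear_preimage _).inter ((convex_Iio d).linear_preimage _)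
  have hz0 : ((d / 2 : ℝ) : ℂ) ∈ strip d := by
    constructor
    · rw [Complex.ofReal_re]; linarith
    · rw [Complex.ofReal_re]; linarith
  set z0 : ℂ := ((d / 2 : ℝ) : ℂ) with hz0d
  set X' : Set ℂ := {z | z ∈ X ∧ Hb z ≠ q} with hX'd
  set Y : Set ℂ := connectedComponentIn X' z0 with hYd
  have hSY : strip d ⊆ Y := hSconv.isPreconnected.subset_connectedComponentIn hz0 hSX'
  have hYX' : Y ⊆ X' := connectedComponentIn_subset _ _
  have hYo : IsOpen Y := hX'o.connectedComponentIn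
  have hYp : IsPreconnected Y := isPreconnected_connectedComponentIn
  have hX't : ∀ n : ℤ, ∀ z ∈ X', z + n * (2 * Real.pi * I) ∈ X' := by
    intro n z hz
    obtain ⟨h1, h2⟩ := h2_trans hP.chart n z hz.1
    refine ⟨h1, ?_⟩
    rw [hP.Heq _ h1, h2, ← hP.Heq z hz.1]
    exact hz.2
  have hYt : ∀ n : ℤ, ∀ z ∈ Y, z + n * (2 * Real.pi * I) ∈ Y := by
    intro n z hz
    have h1 : IsPreconnected ((fun w => w + n * (2 * Real.pi * I)) '' Y) :=
      hYp.image _ (by fun_prop)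
    have h2 : (fun w => w + n * (2 * Real.pi * I)) '' Y ⊆ X' := by
      rintro _ ⟨w, hw, rfl⟩
      exact hX't n w (hYX' hw)
    have h3 : z0 + n * (2 * Real.pi * I) ∈ Y := by
      apply hSY
      constructor
      · have : (z0 + n * (2 * Real.pi * I)).re = z0.re := by simp
        rw [this]; exact hz0.1
      · have : (z0 + n * (2 * Real.pi * I)).re = z0.re := by simp
        rw [this]; exact hz0.2
    have h4 := h1.subset_connectedComponentIn (x := z0 + n * (2 * Real.pi * I))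
      ⟨z0, hSY hz0, rfl⟩ h2
    rw [← connectedComponentIn_eq h3] at h4
    exact h4 ⟨z, hz, rfl⟩
  have hZo : IsOpen (X' \ Y) := by
    have e : X' \ Y = ⋃ z ∈ X' \ Y, connectedComponentIn X' z := by
      apply Subset.antisymm
      · intro z hz
        simp only [mem_iUnion]
        exact ⟨z, hz, mem_connectedComponentIn hz.1⟩
      · intro w hw
        simp only [mem_iUnion] at hw
        obtain ⟨z, hz, hw⟩ := hw
        refine ⟨connectedComponentIn_subset _ _ hw, fun hwY => hz.2 ?_⟩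
        have e1 := connectedComponentIn_eq hw
        have e2 := connectedComponentIn_eq hwY
        have : z ∈ connectedComponentIn X' z := mem_connectedComponentIn hz.1
        rw [e1, ← e2] at this
        exact this
    rw [e]
    exact isOpen_biUnion fun z _ => hX'o.connectedComponentIn
  have hO1 : IsOpen (ψ '' Y) := hψo Y (hYX'.trans hX'X) hYo
  have hO2 : IsOpen (ψ '' (X' \ Y)) := hψo _ (fun z hz => hz.1.1) hZo
  have hcov : {x | x ∈ A ∧ h x ≠ q} ⊆ ψ '' Y ∪ ψ '' (X' \ Y) := by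
    rintro x ⟨hxA, hxq⟩
    rw [← hP.chart.image] at hxA
    obtain ⟨z, hz, rfl⟩ := hxA
    have hz' : z ∈ X' := ⟨hz, by rw [hP.Heq z hz]; exact hxq⟩
    by_cases hzY : z ∈ Y
    · exact Or.inl ⟨z, hzY, rfl⟩
    · exact Or.inr ⟨z, ⟨hz', hzY⟩, rfl⟩
  have hin : ∀ z ∈ X', ψ z ∈ {x | x ∈ A ∧ h x ≠ q} := by
    intro z hz
    refine ⟨?_, ?_⟩
    · rw [← hP.chart.image]; exact ⟨z, hz.1, rfl⟩
    · rw [← hP.Heq z hz.1]; exact hz.2
  have hZe : X' \ Y = ∅ := by
    by_contra hne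
    obtain ⟨w, hw⟩ := nonempty_iff_ne_empty.2 hne
    obtain ⟨x, hx, ⟨y, hy, hyx⟩, ⟨v, hv, hvx⟩⟩ := hA (ψ '' Y) (ψ '' (X' \ Y)) hO1 hO2 hcov
      ⟨ψ z0, hin z0 (hYX' (hSY hz0)), ⟨z0, hSY hz0, rfl⟩⟩ ⟨ψ w, hin w hw.1, ⟨w, hw, rfl⟩⟩
    obtain ⟨n, hn⟩ := hP.chart.inj y (hYX' hy).1 v hv.1.1 (by rw [hyx, hvx])
    exact hv.2 (hn ▸ hYt n y hy)
  have : X' = Y := Subset.antisymm (sdiff_eq_empty.1 hZe) hYX'
  rw [this]
  exact hYp

end CF6

end

section

/-! # Module H, row H3b: the angle of `Hb - q`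

`X` is convex and open (`strip T` or `rhp`). Apply `limit_arg` with `X' = {z ∈ X | Hb z ≠ q}` (open), `w j z = hj j (ψ z) - q` (continuous: `ψ` maps `X` continuously (`Chart.cont`) into `A ⊆ Ω`), `W z = h (ψ z) - q = Hb z - q` on `X`; `TendstoLocallyUniformlyOn` of the composition with the continuous `ψ`. It gives `α1` on `X'`.
Boundary: `d` from `pt_near`. On the convex set `N = {z | 0 ≤ re z ∧ re z < d}` the function `Hb - q` is continuous and nonvanishing; a continuous argument `β` exists there (continuous logarithm on a convex set; e.g. apply the continuous logarithm theorem to `z ↦ Hb (max (re z) 0 + im z I) - q` on the convex open set `{re z < d}`).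
On the line `re z = 0`: `ρ0 exp (I α0 θ) = Hb (θ I) - q = ρ0 exp (I β (θ I))`, so `β (θ I) - α0 θ ∈ 2π ℤ`, continuous, hence constant; subtract it: `β (θ I) = α0 θ`. On `strip d ⊆ X'` (connected): `α1 - β ∈ 2πℤ` is a constant `2π m`. Define `α z = α1 z - 2π m` if `0 < re z` and `α z = β z` otherwise (so `α = β` on `N`).
`α` is continuous on `{z | (z ∈ X ∨ re z = 0) ∧ Hb z ≠ q}` (near points with `re z = 0` it is `β`). Shift: `Hb (z + 2πi) = Hb z` on `X` (`Heq`, `chart.per`), so `α (z + 2πi) - α z ∈ 2πℤ` on the connected set `X'`, continuous, hence constant; `α = β` on `strip d` and `β (z + 2πi) - β z` is constant `= 2π` on `N` (value on the line: `aper`). -/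

open Complex MeasureTheory Set Filter Topology Metric
open scoped ENNReal

namespace CF6

theorem h3b_convex_log {S : Set ℂ} (hS : IsOpen S) (hc : Convex ℝ S) (hne : S.Nonempty)
    {g : ℂ → ℂ} (hg : ContinuousOn g S) (h0 : ∀ z ∈ S, g z ≠ 0) :
    ∃ ℓ : ℂ → ℂ, ContinuousOn ℓ S ∧ ∀ z ∈ S, exp (ℓ z) = g z := by
  have hcon : ContractibleSpace S := hc.contractibleSpace hne
  have hsc : IsSimplyConnected S := by
    show SimplyConnectedSpace S
    infer_instance
  obtain ⟨ℓ, h1, h2⟩ := Complex.exists_continuousOn_eqOn_exp_comp hsc hS hg (by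
    rintro ⟨z, hz, h⟩
    exact h0 z hz h)
  exact ⟨ℓ, h1, fun z hz => h2 hz⟩

/-- a continuous function with values in `2πℤ` on a preconnected set is constant -/
theorem h3b_const {X : Type*} [TopologicalSpace X] {S : Set X} (hS : IsPreconnected S)
    {f : X → ℝ} (hf : ContinuousOn f S) (hz : ∀ x ∈ S, ∃ n : ℤ, f x = n * (2 * Real.pi)) :
    ∀ x ∈ S, ∀ y ∈ S, f x = f y := by
  have hpi := Real.pi_pos
  have key : ∀ x ∈ S, ∀ y ∈ S, ¬ f x < f y := by
    intro x hx y hy hlt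
    obtain ⟨n, hn⟩ := hz x hx
    obtain ⟨m, hm⟩ := hz y hy
    have hnm : n < m := by
      rw [hn, hm] at hlt
      have := lt_of_mul_lt_mul_right hlt (by positivity)
      exact_mod_cast this
    have hnm1 : (n : ℝ) + 1 ≤ m := by exact_mod_cast hnm
    have hmem : f x + Real.pi ∈ Icc (f x) (f y) := by
      refine ⟨by linarith, ?_⟩
      rw [hn, hm]
      nlinarith
    obtain ⟨z, hzS, hzv⟩ := hS.intermediate_value hx hy hf hmem
    obtain ⟨k, hk⟩ := hz z hzS
    rw [hk, hn] at hzv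
    have h1 : (k : ℝ) * 2 = n * 2 + 1 := by
      have : ((k : ℝ) * 2 - n * 2 - 1) * Real.pi = 0 := by linarith
      rcases mul_eq_zero.mp this with h | h
      · linarith
      · exact absurd h hpi.ne'
    have h2 : k * 2 = n * 2 + 1 := by exact_mod_cast h1
    omega
  intro x hx y hy
  rcases lt_trichotomy (f x) (f y) with h | h | h
  · exact absurd h (key x hx y hy)
  · exact h
  · exact absurd h (key y hy x hx)

theorem h3b_exp_int {a b : ℝ} (h : exp (I * a) = exp (I * b)) : ∃ n : ℤ, a - b = n * (2 * Real.pi) := by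
  rw [Complex.exp_eq_exp_iff_exists_int] at h
  obtain ⟨n, hn⟩ := h
  refine ⟨n, ?_⟩
  have := congrArg Complex.im hn
  simp at this
  linarith

theorem h3b_exp_shift (a : ℝ) (n : ℤ) :
    exp (I * ((a - n * (2 * Real.pi) : ℝ) : ℂ)) = exp (I * a) := by
  rw [Complex.exp_eq_exp_iff_exists_int]
  refine ⟨-n, ?_⟩
  push_cast
  ring

theorem pt_angle {Ω A L : Set ℂ} {q : ℂ} {ρ0 : ℝ} {X : Set ℂ} {h ψ Hb : ℂ → ℂ} {α0 : ℝ → ℝ}
    {hj : ℕ → ℂ → ℂ} (hP : PointG Ω A L q ρ0 X h ψ Hb α0) (hAO : A ⊆ Ω)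
    (conn : IsPreconnected {z | z ∈ X ∧ Hb z ≠ q}) (chj : ∀ j, ContinuousOn (hj j) Ω)
    (hjq : ∀ j, ∀ x ∈ Ω, hj j x ≠ q) (lim : TendstoLocallyUniformlyOn hj h atTop Ω) :
    ∃ α : ℂ → ℝ, ContinuousOn α {z | (z ∈ X ∨ z.re = 0) ∧ Hb z ≠ q} ∧
      (∀ z, (z ∈ X ∨ z.re = 0) → Hb z ≠ q → Hb z = q + ‖Hb z - q‖ * exp (I * α z)) ∧
      (∀ θ : ℝ, α (θ * I) = α0 θ) ∧
      ∀ z ∈ X, Hb z ≠ q → α (z + 2 * Real.pi * I) = α z + 2 * Real.pi := by
  have hpi := Real.pi_pos
  have cX : Convex ℝ X := by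
    rcases hP.Xf with ⟨T, _, rfl⟩ | rfl
    · exact (convex_halfSpace_re_gt 0).inter (convex_halfSpace_re_lt T)
    · exact convex_halfSpace_re_gt 0
  have Xre : ∀ z ∈ X, 0 < z.re := by
    intro z hz
    rcases hP.Xf with ⟨T, _, rfl⟩ | rfl
    · exact hz.1
    · exact hz
  have hXo : IsOpen X := hP.chart.Xopen
  have hHX : ContinuousOn Hb X := hP.Hcont.mono (fun z hz => Or.inl hz)
  have hX'o : IsOpen {z | z ∈ X ∧ Hb z ≠ q} :=
    hHX.isOpen_inter_preimage hXo isOpen_compl_singleton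
  have hψm : MapsTo ψ X Ω := fun z hz => hAO (hP.chart.image ▸ mem_image_of_mem ψ hz)
  have hψc : ContinuousOn ψ X := hP.chart.cont.1
  have limX : TendstoLocallyUniformlyOn (fun j z => hj j (ψ z) - q) (fun z => Hb z - q) atTop X := by
    rw [Metric.tendstoLocallyUniformlyOn_iff] at lim ⊢
    intro ε hε z hz
    obtain ⟨t, ht, hev⟩ := lim ε hε (ψ z) (hψm hz)
    have ht' : ψ ⁻¹' t ∈ 𝓝[X] z := (hψc z hz).tendsto_nhdsWithin hψm ht
    refine ⟨ψ ⁻¹' t ∩ X, Filter.inter_mem ht' self_mem_nhdsWithin, ?_⟩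
    filter_upwards [hev] with n hn y hy
    rw [hP.Heq y hy.2, dist_sub_right]
    exact hn _ hy.1
  obtain ⟨α1, cα1, eα1⟩ := limit_arg (X := X) (X' := {z | z ∈ X ∧ Hb z ≠ q}) hXo cX hX'o
    (fun z hz => hz.1) conn (w := fun j z => hj j (ψ z) - q) (W := fun z => Hb z - q)
    (fun j => ((chj j).comp hψc hψm).sub continuousOn_const)
    (fun j z hz => sub_ne_zero.mpr (hjq j _ (hψm hz))) limX (fun z hz => sub_ne_zero.mpr hz.2)
  obtain ⟨d, hd, hdX, hdq⟩ := pt_near hP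
  -- the map onto the closed half plane
  set c : ℂ → ℂ := fun z => ((max z.re 0 : ℝ) : ℂ) + (z.im : ℂ) * I with hc
  have cre : ∀ z, (c z).re = max z.re 0 := by intro z; simp [hc]
  have cim : ∀ z, (c z).im = z.im := by intro z; simp [hc]
  have ccont : Continuous c := by
    have a1 : Continuous (fun z : ℂ => max z.re 0) := Complex.continuous_re.max continuous_const
    exact (Complex.continuous_ofReal.comp a1).add
      ((Complex.continuous_ofReal.comp Complex.continuous_im).mul continuous_const)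
  have cpos : ∀ z : ℂ, 0 ≤ z.re → c z = z := by
    intro z hz
    apply Complex.ext
    · rw [cre, max_eq_left hz]
    · rw [cim]
  have cneg : ∀ z : ℂ, z.re ≤ 0 → c z = (z.im : ℂ) * I := by
    intro z hz
    apply Complex.ext
    · rw [cre, max_eq_right hz]; simp
    · rw [cim]; simp
  set N : Set ℂ := {z | z.re < d} with hN
  have Nconv : Convex ℝ N := convex_halfSpace_re_lt d
  have Nopen : IsOpen N := isOpen_lt Complex.continuous_re continuous_const
  have N0 : (0 : ℂ) ∈ N := by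
    show (0 : ℂ).re < d
    simpa using hd
  have cX' : ∀ z ∈ N, 0 < z.re → z ∈ X := fun z hz hz0 => hdX ⟨hz0, hz⟩
  have cmaps : MapsTo c N {z | z ∈ X ∨ z.re = 0} := by
    intro z hz
    rcases lt_or_ge 0 z.re with h0 | h0
    · left
      rw [cpos z h0.le]
      exact cX' z hz h0
    · right
      rw [cre, max_eq_right h0]
  have lineN : ∀ θ : ℝ, ‖Hb (θ * I) - q‖ = ρ0 := by
    intro θ
    rw [hP.Hbd, add_sub_cancel_left, norm_mul, Complex.norm_real, mul_comm I,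
      Complex.norm_exp_ofReal_mul_I, mul_one, Real.norm_eq_abs, abs_of_pos hP.pos]
  have Fne : ∀ z ∈ N, Hb (c z) - q ≠ 0 := by
    intro z hz
    rw [← norm_pos_iff]
    rcases lt_or_ge 0 z.re with h0 | h0
    · rw [cpos z h0.le]
      have := hdq z (cX' z hz h0) hz
      have := hP.pos
      linarith
    · rw [cneg z h0, lineN]
      exact hP.pos
  have Fcont : ContinuousOn (fun z => Hb (c z) - q) N :=
    (hP.Hcont.comp ccont.continuousOn cmaps).sub continuousOn_const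
  obtain ⟨u, cu, eu⟩ := h3b_convex_log Nopen Nconv ⟨0, N0⟩ Fcont Fne
  have eF : ∀ z ∈ N, Hb (c z) - q = ‖Hb (c z) - q‖ * exp (I * ((u z).im : ℝ)) := by
    intro z hz
    have h1 := eu z hz
    have h2 : ‖Hb (c z) - q‖ = Real.exp (u z).re := by
      rw [← h1, Complex.norm_exp]
    rw [h2, Complex.ofReal_exp, ← Complex.exp_add, ← h1]
    congr 1
    apply Complex.ext <;> simp
  -- adjust on the line
  have hline : ∀ θ : ℝ, ∃ n : ℤ, (u (θ * I)).im - α0 θ = n * (2 * Real.pi) := by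
    intro θ
    have hm : ((θ : ℂ) * I) ∈ N := by
      show ((θ : ℂ) * I).re < d
      simpa using hd
    have h1 := eF _ hm
    have hcz : c ((θ : ℂ) * I) = (θ : ℂ) * I := cpos _ (by simp)
    rw [hcz, lineN, hP.Hbd, add_sub_cancel_left] at h1
    have h2 := mul_left_cancel₀ (by exact_mod_cast hP.pos.ne') h1
    exact h3b_exp_int h2.symm
  obtain ⟨k, hk⟩ := hline 0
  have hline2 : ∀ θ : ℝ, (u (θ * I)).im = α0 θ + k * (2 * Real.pi) := by
    intro θ
    have cm : MapsTo (fun θ : ℝ => (θ : ℂ) * I) univ N := by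
      intro θ _
      show ((θ : ℂ) * I).re < d
      simpa using hd
    have cf : ContinuousOn (fun θ : ℝ => (u (θ * I)).im - α0 θ) univ := by
      apply ContinuousOn.sub _ hP.acont.continuousOn
      apply Complex.continuous_im.comp_continuousOn
      apply cu.comp _ cm
      exact (Complex.continuous_ofReal.mul continuous_const).continuousOn
    have := h3b_const isPreconnected_univ cf (fun θ _ => hline θ) θ (mem_univ _) 0 (mem_univ _)
    rw [hk] at this
    linarith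
  set β : ℂ → ℝ := fun z => (u z).im - k * (2 * Real.pi) with hβ
  have cβ : ContinuousOn β N := (Complex.continuous_im.comp_continuousOn cu).sub continuousOn_const
  have eβ : ∀ z ∈ N, Hb (c z) - q = ‖Hb (c z) - q‖ * exp (I * (β z : ℝ)) := by
    intro z hz
    rw [hβ, h3b_exp_shift]
    exact eF z hz
  have βline : ∀ θ : ℝ, β (θ * I) = α0 θ := by
    intro θ
    rw [hβ]
    simp only
    rw [hline2]
    ring
  -- compare on the strip
  have hstripX' : ∀ z ∈ strip d, z ∈ X ∧ Hb z ≠ q := by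
    intro z hz
    refine ⟨hdX hz, ?_⟩
    have h1 := hdq z (hdX hz) hz.2
    have h2 := hP.pos
    intro h3
    rw [h3, sub_self, norm_zero] at h1
    linarith
  have hstripN : ∀ z ∈ strip d, z ∈ N := fun z hz => hz.2
  have hcomp : ∀ z ∈ strip d, ∃ n : ℤ, α1 z - β z = n * (2 * Real.pi) := by
    intro z hz
    have h1 := eα1 z (hstripX' z hz)
    have h2 := eβ z (hstripN z hz)
    rw [cpos z hz.1.le] at h2
    rw [h1] at h2
    have h3 : ‖((‖Hb z - q‖ : ℝ) : ℂ) * exp (I * (α1 z : ℝ))‖ = ‖Hb z - q‖ := by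
      rw [← h1]
    rw [h3] at h2
    have hne : ((‖Hb z - q‖ : ℝ) : ℂ) ≠ 0 := by
      have := sub_ne_zero.mpr (hstripX' z hz).2
      exact_mod_cast (norm_pos_iff.mpr this).ne'
    exact h3b_exp_int (mul_left_cancel₀ hne h2)
  have strip_conv : Convex ℝ (strip d) :=
    (convex_halfSpace_re_gt 0).inter (convex_halfSpace_re_lt d)
  have hmid : (((d / 2 : ℝ) : ℂ)) ∈ strip d := by
    refine ⟨?_, ?_⟩
    · rw [Complex.ofReal_re]; linarith
    · rw [Complex.ofReal_re]; linarith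
  obtain ⟨m, hm⟩ := hcomp _ hmid
  have hcomp2 : ∀ z ∈ strip d, α1 z = β z + m * (2 * Real.pi) := by
    intro z hz
    have cf : ContinuousOn (fun z => α1 z - β z) (strip d) :=
      (cα1.mono (fun z hz => hstripX' z hz)).sub (cβ.mono (fun z hz => hstripN z hz))
    have := h3b_const strip_conv.isPreconnected cf hcomp z hz _ hmid
    rw [hm] at this
    linarith
  -- shift of β
  have hshiftc : ∀ z ∈ N, Hb (c (z + 2 * Real.pi * I)) = Hb (c z) := by
    intro z hz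
    rcases lt_or_ge 0 z.re with h0 | h0
    · have h1 : 0 ≤ (z + 2 * Real.pi * I).re := by simpa using h0.le
      rw [cpos z h0.le, cpos _ h1]
      have hzX := cX' z hz h0
      rw [hP.Heq _ ((hP.chart.Xper z).mp hzX), hP.Heq _ hzX, hP.chart.per z hzX]
    · have h1 : (z + 2 * Real.pi * I).re ≤ 0 := by simpa using h0
      rw [cneg z h0, cneg _ h1]
      have h2 : (((z + 2 * Real.pi * I).im : ℝ) : ℂ) * I = ((z.im + 2 * Real.pi : ℝ) : ℂ) * I := by
        simp
      rw [h2, hP.Hbd, hP.Hbd, hP.aper]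
      congr 2
      rw [Complex.exp_eq_exp_iff_exists_int]
      refine ⟨1, ?_⟩
      push_cast
      ring
  have hshiftN : ∀ z ∈ N, z + 2 * Real.pi * I ∈ N := by
    intro z hz
    have hz' : z.re < d := hz
    show (z + 2 * Real.pi * I).re < d
    simpa using hz'
  have hshiftβ : ∀ z ∈ N, β (z + 2 * Real.pi * I) = β z + 2 * Real.pi := by
    intro z hz
    have cadd : Continuous (fun z : ℂ => z + 2 * Real.pi * I) := by fun_prop
    have cf : ContinuousOn (fun z => β (z + 2 * Real.pi * I) - β z) N :=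
      (cβ.comp cadd.continuousOn hshiftN).sub cβ
    have hint : ∀ z ∈ N, ∃ n : ℤ, β (z + 2 * Real.pi * I) - β z = n * (2 * Real.pi) := by
      intro z hz
      have h1 := eβ z hz
      have h2 := eβ _ (hshiftN z hz)
      rw [hshiftc z hz] at h2
      have hne : ((‖Hb (c z) - q‖ : ℝ) : ℂ) ≠ 0 := by
        exact_mod_cast (norm_pos_iff.mpr (Fne z hz)).ne'
      exact h3b_exp_int (mul_left_cancel₀ hne (h2.symm.trans h1))
    have h3 := h3b_const Nconv.isPreconnected cf hint z hz 0 N0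
    have h4 := βline 0
    have h5 := βline (0 + 2 * Real.pi)
    rw [hP.aper, ← h4] at h5
    have h6 : (((0 + 2 * Real.pi : ℝ) : ℂ)) * I = 0 + 2 * Real.pi * I := by push_cast; ring
    have h7 : (((0 : ℝ) : ℂ)) * I = 0 := by simp
    rw [h6, h7] at h5
    linarith
  -- the angle
  refine ⟨fun z => if 0 < z.re then α1 z - m * (2 * Real.pi) else β z, ?_, ?_, ?_, ?_⟩
  · intro z hz
    rcases hz with ⟨hz1, hz2⟩
    by_cases h0 : 0 < z.re
    · have hzX : z ∈ X := by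
        rcases hz1 with h | h
        · exact h
        · rw [h] at h0; exact absurd h0 (lt_irrefl _)
      have hnb : {z | z ∈ X ∧ Hb z ≠ q} ∈ 𝓝 z := hX'o.mem_nhds ⟨hzX, hz2⟩
      have c1 : ContinuousAt (fun z => α1 z - m * (2 * Real.pi)) z :=
        (cα1.continuousAt hnb).sub continuousAt_const
      have hev : (fun z => if 0 < z.re then α1 z - m * (2 * Real.pi) else β z)
          =ᶠ[𝓝 z] (fun z => α1 z - m * (2 * Real.pi)) := by
        filter_upwards [hnb] with w hw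
        rw [if_pos (Xre w hw.1)]
      exact (c1.congr hev.symm).continuousWithinAt
    · have hzN : z ∈ N := by
        show z.re < d
        push Not at h0
        linarith
      have c1 : ContinuousAt β z := cβ.continuousAt (Nopen.mem_nhds hzN)
      have hre0 : z.re = 0 := by
        rcases hz1 with h | h
        · exact absurd (Xre z h) h0
        · exact h
      have hev : (fun z => if 0 < z.re then α1 z - m * (2 * Real.pi) else β z)
          =ᶠ[𝓝[{z | (z ∈ X ∨ z.re = 0) ∧ Hb z ≠ q}] z] β := by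
        filter_upwards [mem_nhdsWithin_of_mem_nhds (Nopen.mem_nhds hzN)] with w hw
        by_cases h1 : 0 < w.re
        · rw [if_pos h1, hcomp2 w ⟨h1, hw⟩]
          ring
        · rw [if_neg h1]
      refine c1.continuousWithinAt.congr_of_eventuallyEq hev ?_
      rw [if_neg h0]
  · intro z hz1 hz2
    simp only
    by_cases h0 : 0 < z.re
    · have hzX : z ∈ X := by
        rcases hz1 with h | h
        · exact h
        · rw [h] at h0; exact absurd h0 (lt_irrefl _)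
      rw [if_pos h0, h3b_exp_shift]
      have h1 := eα1 z ⟨hzX, hz2⟩
      linear_combination h1
    · have hre0 : z.re = 0 := by
        rcases hz1 with h | h
        · exact absurd (Xre z h) h0
        · exact h
      have hzN : z ∈ N := by
        show z.re < d
        linarith
      rw [if_neg h0]
      have h1 := eβ z hzN
      rw [cpos z hre0.ge] at h1
      linear_combination h1
  · intro θ
    simp only
    rw [if_neg (by simp)]
    exact βline θ
  · intro z hzX hzq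
    have hzX2 : z + 2 * Real.pi * I ∈ X := (hP.chart.Xper z).mp hzX
    simp only
    rw [if_pos (Xre z hzX), if_pos (Xre _ hzX2)]
    have hper : ∀ z ∈ X, Hb (z + 2 * Real.pi * I) = Hb z := by
      intro z hz
      rw [hP.Heq _ ((hP.chart.Xper z).mp hz), hP.Heq _ hz, hP.chart.per z hz]
    have hmapsX' : MapsTo (fun z : ℂ => z + 2 * Real.pi * I) {z | z ∈ X ∧ Hb z ≠ q}
        {z | z ∈ X ∧ Hb z ≠ q} := by
      intro z hz
      refine ⟨(hP.chart.Xper z).mp hz.1, ?_⟩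
      simp only
      rw [hper z hz.1]
      exact hz.2
    have cadd : Continuous (fun z : ℂ => z + 2 * Real.pi * I) := by fun_prop
    have cf : ContinuousOn (fun z => α1 (z + 2 * Real.pi * I) - α1 z) {z | z ∈ X ∧ Hb z ≠ q} :=
      (cα1.comp cadd.continuousOn hmapsX').sub cα1
    have hint : ∀ z ∈ {z | z ∈ X ∧ Hb z ≠ q},
        ∃ n : ℤ, α1 (z + 2 * Real.pi * I) - α1 z = n * (2 * Real.pi) := by
      intro z hz
      have h1 := eα1 z hz
      have h2 := eα1 _ (hmapsX' hz)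
      simp only at h1 h2
      rw [hper z hz.1] at h2
      have hne : ((‖Hb z - q‖ : ℝ) : ℂ) ≠ 0 := by
        exact_mod_cast (norm_pos_iff.mpr (sub_ne_zero.mpr hz.2)).ne'
      exact h3b_exp_int (mul_left_cancel₀ hne (h2.symm.trans h1))
    have h3 := h3b_const conn cf hint z ⟨hzX, hzq⟩ _ (hstripX' _ hmid)
    have hmid2 : (((d / 2 : ℝ) : ℂ)) + 2 * Real.pi * I ∈ strip d := by
      refine ⟨?_, ?_⟩
      · simpa using hd
      · have := hmid.2
        simp only [Complex.ofReal_re] at this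
        simpa using this
    rw [hcomp2 _ hmid, hcomp2 _ hmid2, hshiftβ _ (hstripN _ hmid)] at h3
    linarith

end CF6

end

section

/-! # Module H, row H4c: bound of the energy of the minimiser

`Chart.restrict`: `ψ` restricted to `strip T1` is a chart of `A1 = ψ '' strip T1 ⊆ A` (open by `Chart.cont`).
`pt_elam`: `exists_pull` for this chart and `ha.mono` (`ACL2` restricted to `A1`; monotonicity in the open set is immediate from the definition, or in BR1/BR3/N-files) gives `H, Ht, Hs` with `H z = h (ψ z) = Hb z` on `strip T1`; `exists_goodLines` gives `Tg, Θg`. `c = α0 0`: `|α0 θ - θ - c| ≤ 2π` (periodic + monotone: for `θ ∈ [0,2π]`: `α0 0 ≤ α0 θ ≤ α0 0 + 2π`).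
`f t θ = ptf q ρ0 c Hb α (t + θ I)` for `0 < t < T1`, `0` otherwise (measurable: continuous on the open strip), `mt t θ = 20/ρ0 ‖Ht (t + θ I)‖`, `mθ t θ = 20/ρ0 ‖Hs (t + θ I)‖ + 1`. `ptf_lines` gives h1, h2, h3 of `competitor` (F/FB4b) and h4 is `pt_angle` (shift of `α`, of `im z`, periodicity of `Hb`; where `Hb = q` the function is `im z + c`).
`competitor` with `B = α0`, `L = 2π` for all `N`, then `elam_eq` and the supremum over `N` exactly as at the end of the proof of `elam_le` in F/FD.lean (copy it).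
Right hand side: `(20/ρ0 a + 1)² ≤ 800/ρ0² a² + 2`, so the integral over `(0,T1) × (0,2π)` is at most `800/ρ0² ∫∫ (‖Ht‖² + ‖Hs‖²) + 4π T1`; `∫∫ = en (per1 (strip T1)) Ht Hs` (Tonelli, `Complex.volume_preserving_equiv_real_prod`) `= en A1 hx hy ≤ en A hx hy` (`Pull.en` with `E = univ`). If the integral is infinite the right hand side is `⊤`: no, `ha.fin` makes it finite. -/

open Complex MeasureTheory Set Filter Topology Metric intervalIntegral
open scoped ENNReal

namespace CF6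

theorem h4c_strip_open (T : ℝ) : IsOpen (strip T) :=
  (isOpen_lt continuous_const Complex.continuous_re).inter
    (isOpen_lt Complex.continuous_re continuous_const)

theorem Chart.restrict {X A : Set ℂ} {ψ : ℂ → ℂ} (h : Chart X A ψ) {T1 : ℝ}
    (h1 : strip T1 ⊆ X) : Chart (strip T1) (ψ '' strip T1) ψ where
  Xopen := h4c_strip_open T1
  Xper := by
    intro z
    simp [strip]
  conf := by
    rcases h.conf with h2 | h2
    · exact Or.inl (h2.mono h1)
    · exact Or.inr (h2.mono (Set.image_mono h1))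
  per := fun z hz => h.per z (h1 hz)
  inj := fun z hz w hw => h.inj z (h1 hz) w (h1 hw)
  image := rfl

theorem h4c_mono {U V : Set ℂ} {f fx fy : ℂ → ℂ} (hVU : V ⊆ U) (h : ACL2 U f fx fy) :
    ACL2 V f fx fy where
  cont := h.cont.mono hVU
  mx := h.mx.mono_set hVU
  my := h.my.mono_set hVU
  fin := lt_of_le_of_lt (lintegral_mono_set hVU) h.fin
  hor := by
    filter_upwards [h.hor] with y hy a b hab ht
    exact hy a b hab fun t h => hVU (ht t h)
  ver := by
    filter_upwards [h.ver] with y hy a b hab ht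
    exact hy a b hab fun t h => hVU (ht t h)

theorem h4c_bound {α0 : ℝ → ℝ} (am : Monotone α0)
    (ap : ∀ θ, α0 (θ + 2 * Real.pi) = α0 θ + 2 * Real.pi) (θ : ℝ) :
    |α0 θ - θ - α0 0| ≤ 2 * Real.pi := by
  have hp : Function.Periodic (fun θ => α0 θ - θ) (2 * Real.pi) := by
    intro x
    simp only
    rw [ap]; ring
  obtain ⟨y, hy, h2⟩ := hp.exists_mem_Ico₀ Real.two_pi_pos θ
  rw [h2]
  have h3 := am hy.1
  have h4 := am hy.2.le
  have h5 := ap 0
  rw [zero_add] at h5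
  have h6 := hy.1
  have h7 := hy.2
  rw [abs_le]
  constructor <;> linarith

theorem h4c_energy {T1 : ℝ} {Ht Hs : ℂ → ℂ} (mt : Measurable Ht) (ms : Measurable Hs) :
    (∫⁻ t in Ioo 0 T1, ∫⁻ θ in Ioo 0 (2 * Real.pi),
      (‖Ht ((t : ℂ) + (θ : ℂ) * I)‖ₑ ^ 2 + ‖Hs ((t : ℂ) + (θ : ℂ) * I)‖ₑ ^ 2)) =
    en (per1 (strip T1)) Ht Hs := by
  have hmeas : Measurable fun z : ℂ => ‖Ht z‖ₑ ^ 2 + ‖Hs z‖ₑ ^ 2 :=
    (mt.enorm.pow_const 2).add (ms.enorm.pow_const 2)
  have hset : per1 (strip T1) = Complex.measurableEquivRealProd ⁻¹'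
      (Ioo (0 : ℝ) T1 ×ˢ Ioo (0 : ℝ) (2 * Real.pi)) := by
    ext z
    simp [per1, strip, Complex.measurableEquivRealProd_apply]
  unfold en
  rw [hset]
  have hmp := Complex.volume_preserving_equiv_real_prod
  have e1 : ∀ z : ℂ, ‖Ht z‖ₑ ^ 2 + ‖Hs z‖ₑ ^ 2 =
      (fun p : ℝ × ℝ => ‖Ht ((p.1 : ℂ) + (p.2 : ℂ) * I)‖ₑ ^ 2 +
        ‖Hs ((p.1 : ℂ) + (p.2 : ℂ) * I)‖ₑ ^ 2) (Complex.measurableEquivRealProd z) := by
    intro z
    simp [Complex.measurableEquivRealProd_apply, Complex.re_add_im]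
  rw [lintegral_congr e1]
  have hcm : Measurable (fun p : ℝ × ℝ => ‖Ht ((p.1 : ℂ) + (p.2 : ℂ) * I)‖ₑ ^ 2 +
        ‖Hs ((p.1 : ℂ) + (p.2 : ℂ) * I)‖ₑ ^ 2) := hmeas.comp (by fun_prop : Measurable
      fun p : ℝ × ℝ => ((p.1 : ℂ) + (p.2 : ℂ) * I))
  have h3 := hmp.setLIntegral_comp_preimage (measurableSet_Ioo.prod measurableSet_Ioo :
    MeasurableSet (Ioo (0 : ℝ) T1 ×ˢ Ioo (0 : ℝ) (2 * Real.pi))) hcm
  refine Eq.trans ?_ h3.symm
  rw [Measure.volume_eq_prod, setLIntegral_prod _ hcm.aemeasurable]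

theorem h4c_pointwise {r a b : ℝ} (hr : 0 < r) (ha : 0 ≤ a) (hb : 0 ≤ b) :
    ENNReal.ofReal (20 / r * a) ^ 2 + ENNReal.ofReal (20 / r * b + 1) ^ 2 ≤
      ENNReal.ofReal (800 / r ^ 2) * (ENNReal.ofReal a ^ 2 + ENNReal.ofReal b ^ 2) + 2 := by
  have h0 : (0 : ℝ) ≤ 20 / r * a := by positivity
  have h1 : (0 : ℝ) ≤ 20 / r * b + 1 := by positivity
  rw [← ENNReal.ofReal_pow h0, ← ENNReal.ofReal_pow h1, ← ENNReal.ofReal_pow ha,
    ← ENNReal.ofReal_pow hb, ← ENNReal.ofReal_add (by positivity) (by positivity),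
    ← ENNReal.ofReal_add (by positivity) (by positivity), ← ENNReal.ofReal_mul (by positivity)]
  have h2 : (2 : ℝ≥0∞) = ENNReal.ofReal 2 := by norm_num
  rw [h2, ← ENNReal.ofReal_add (by positivity) (by positivity)]
  apply ENNReal.ofReal_le_ofReal
  have e1 : (20 / r * a) ^ 2 = 400 * (a / r) ^ 2 := by ring
  have e2 : (20 / r * b + 1) ^ 2 = 400 * (b / r) ^ 2 + 40 * (b / r) + 1 := by ring
  have e3 : 800 / r ^ 2 * (a ^ 2 + b ^ 2) = 800 * (a / r) ^ 2 + 800 * (b / r) ^ 2 := by ring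
  rw [e1, e2, e3]
  nlinarith [sq_nonneg (20 * (b / r) - 1), sq_nonneg (a / r)]

theorem pt_elam {Ω A L : Set ℂ} {q : ℂ} {ρ0 : ℝ} {X : Set ℂ} {h hx hy ψ Hb : ℂ → ℂ}
    {α0 : ℝ → ℝ} {α : ℂ → ℝ} (hP : PointG Ω A L q ρ0 X h ψ Hb α0) (hA : IsOpen A) (hAO : A ⊆ Ω)
    (ha : ACL2 Ω h hx hy) (cα : ContinuousOn α {z | (z ∈ X ∨ z.re = 0) ∧ Hb z ≠ q})
    (hα : ∀ z, (z ∈ X ∨ z.re = 0) → Hb z ≠ q → Hb z = q + ‖Hb z - q‖ * exp (I * α z))
    (hα0 : ∀ θ : ℝ, α (θ * I) = α0 θ)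
    (hαp : ∀ z ∈ X, Hb z ≠ q → α (z + 2 * Real.pi * I) = α z + 2 * Real.pi)
    {T1 : ℝ} (hT : 0 < T1) (h1 : strip T1 ⊆ X) :
    elam T1 α0 0 ≤ ENNReal.ofReal (800 / ρ0 ^ 2) * en A hx hy +
      ENNReal.ofReal (4 * Real.pi * T1) := by
  have hρ := hP.pos
  have hA1 : ψ '' strip T1 ⊆ A := by
    rw [← hP.chart.image]; exact Set.image_mono h1
  have oA1 : IsOpen (ψ '' strip T1) := hP.chart.cont.2 _ h1 (h4c_strip_open T1)
  obtain ⟨H, Ht, Hs, hp⟩ := exists_pull (hP.chart.restrict h1) oA1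
    (h4c_mono (hA1.trans hAO) ha)
  obtain ⟨Tg, Θg, gl⟩ := exists_goodLines hT hp
  set c : ℝ := α0 0 with hc
  have hsub : ∀ z ∈ {z : ℂ | 0 ≤ z.re ∧ z.re < T1}, z ∈ X ∨ z.re = 0 := by
    intro z hz
    rcases hz.1.eq_or_lt with h2 | h2
    · exact Or.inr h2.symm
    · exact Or.inl (h1 ⟨h2, hz.2⟩)
  have cH : ContinuousOn Hb {z | 0 ≤ z.re ∧ z.re < T1} := hP.Hcont.mono hsub
  have cα' : ContinuousOn α {z | z ∈ {z : ℂ | 0 ≤ z.re ∧ z.re < T1} ∧ Hb z ≠ q} :=
    cα.mono fun z hz => ⟨hsub z hz.1, hz.2⟩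
  have hα' : ∀ z ∈ {z : ℂ | 0 ≤ z.re ∧ z.re < T1}, Hb z ≠ q →
      Hb z = q + ‖Hb z - q‖ * exp (I * α z) := fun z hz => hα z (hsub z hz)
  have hbd : ∀ θ : ℝ, ‖Hb (θ * I) - q‖ = ρ0 ∧ α (θ * I) = α0 θ := by
    intro θ
    refine ⟨?_, hα0 θ⟩
    rw [hP.Hbd, add_sub_cancel_left, norm_mul, mul_comm I, Complex.norm_exp_ofReal_mul_I, mul_one,
      Complex.norm_real, Real.norm_of_nonneg hρ.le]
  have hcb : ∀ θ : ℝ, |α0 θ - θ - c| ≤ 2 * Real.pi := h4c_bound hP.amono hP.aper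
  have hH : ∀ z ∈ strip T1, H z = Hb z := by
    intro z hz
    rw [hp.eq z hz, hP.Heq z (h1 hz)]
  obtain ⟨l1, l2, l3⟩ := ptf_lines hρ hT cH cα' hα' hbd hcb gl hH
  have cptf := ptf_continuousOn hρ cH cα' hα' c
  have hB : QP (2 * Real.pi) α0 := ⟨hP.acont, hP.amono, hP.aper⟩
  set mt : ℝ → ℝ → ℝ := fun t θ => 20 / ρ0 * ‖Ht (t + θ * I)‖ with hmtdef
  set mθ : ℝ → ℝ → ℝ := fun t θ => 20 / ρ0 * ‖Hs (t + θ * I)‖ + 1 with hmθdef
  have cmap : Measurable fun p : ℝ × ℝ => ((p.1 : ℂ) + (p.2 : ℂ) * I) := by fun_prop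
  have hmt : Measurable (Function.uncurry mt) := by
    have : Function.uncurry mt = fun p : ℝ × ℝ => 20 / ρ0 * ‖Ht (p.1 + p.2 * I)‖ := rfl
    rw [this]
    exact ((hp.mt.comp cmap).norm).const_mul _
  have hmθ : Measurable (Function.uncurry mθ) := by
    have : Function.uncurry mθ = fun p : ℝ × ℝ => 20 / ρ0 * ‖Hs (p.1 + p.2 * I)‖ + 1 := rfl
    rw [this]
    exact (((hp.ms.comp cmap).norm).const_mul _).add_const _
  have mt0 : ∀ t θ, 0 ≤ mt t θ := fun t θ => by simp only [hmtdef]; positivity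
  have mθ0 : ∀ t θ, 0 ≤ mθ t θ := fun t θ => by simp only [hmθdef]; positivity
  -- the function
  classical
  set S : Set (ℝ × ℝ) := Ioo 0 T1 ×ˢ univ with hS
  set F : ℝ × ℝ → ℝ := S.piecewise (fun p => ptf q ρ0 c Hb α ((p.1 : ℂ) + (p.2 : ℂ) * I))
    (fun _ => 0) with hF
  have hFm : Measurable F := by
    apply ContinuousOn.measurable_piecewise
    · refine cptf.comp (by fun_prop) ?_
      rintro ⟨t, θ⟩ ⟨ht, -⟩
      simp only [mem_ofPred_eq, add_re, ofReal_re, mul_re, I_re, mul_zero, ofReal_im, I_im, mul_one,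
        sub_self, add_zero]
      exact ⟨ht.1.le, ht.2⟩
    · exact continuousOn_const
    · exact measurableSet_Ioo.prod MeasurableSet.univ
  set f : ℝ → ℝ → ℝ := fun t θ => F (t, θ) with hf
  have hfeq : ∀ t ∈ Ioo 0 T1, ∀ θ, f t θ = ptf q ρ0 c Hb α ((t : ℂ) + (θ : ℂ) * I) := by
    intro t ht θ
    simp only [hf, hF]
    rw [Set.piecewise_eq_of_mem]
    exact ⟨ht, mem_univ _⟩
  -- the energy bound
  have hE : (∫⁻ t in Ioo 0 T1, ∫⁻ θ in Ioo 0 (2 * Real.pi),
      (ENNReal.ofReal (mt t θ) ^ 2 + ENNReal.ofReal (mθ t θ) ^ 2)) ≤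
      ENNReal.ofReal (800 / ρ0 ^ 2) * en A hx hy + ENNReal.ofReal (4 * Real.pi * T1) := by
    have hmeas : Measurable fun z : ℂ => ‖Ht z‖ₑ ^ 2 + ‖Hs z‖ₑ ^ 2 :=
      (hp.mt.enorm.pow_const 2).add (hp.ms.enorm.pow_const 2)
    have hm2 : ∀ t : ℝ, Measurable fun θ : ℝ => ‖Ht ((t : ℂ) + (θ : ℂ) * I)‖ₑ ^ 2 +
        ‖Hs ((t : ℂ) + (θ : ℂ) * I)‖ₑ ^ 2 := fun t =>
      hmeas.comp (by fun_prop : Measurable fun θ : ℝ => ((t : ℂ) + (θ : ℂ) * I))
    have hm3 : Measurable fun t : ℝ => ∫⁻ θ in Ioo 0 (2 * Real.pi),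
        (‖Ht ((t : ℂ) + (θ : ℂ) * I)‖ₑ ^ 2 + ‖Hs ((t : ℂ) + (θ : ℂ) * I)‖ₑ ^ 2) :=
      Measurable.lintegral_prod_right' (f := fun p : ℝ × ℝ => ‖Ht ((p.1 : ℂ) + (p.2 : ℂ) * I)‖ₑ ^ 2 +
        ‖Hs ((p.1 : ℂ) + (p.2 : ℂ) * I)‖ₑ ^ 2) (hmeas.comp cmap)
    calc (∫⁻ t in Ioo 0 T1, ∫⁻ θ in Ioo 0 (2 * Real.pi),
        (ENNReal.ofReal (mt t θ) ^ 2 + ENNReal.ofReal (mθ t θ) ^ 2))
        ≤ ∫⁻ t in Ioo 0 T1, ∫⁻ θ in Ioo 0 (2 * Real.pi),
          (ENNReal.ofReal (800 / ρ0 ^ 2) * (‖Ht ((t : ℂ) + (θ : ℂ) * I)‖ₑ ^ 2 +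
            ‖Hs ((t : ℂ) + (θ : ℂ) * I)‖ₑ ^ 2) + 2) := by
          refine lintegral_mono fun t => lintegral_mono fun θ => ?_
          have := h4c_pointwise hρ (norm_nonneg (Ht ((t : ℂ) + (θ : ℂ) * I)))
            (norm_nonneg (Hs ((t : ℂ) + (θ : ℂ) * I)))
          simpa only [ofReal_norm] using this
      _ = ENNReal.ofReal (800 / ρ0 ^ 2) * en (per1 (strip T1)) Ht Hs +
          ENNReal.ofReal (4 * Real.pi * T1) := by
          rw [← h4c_energy hp.mt hp.ms]
          have e1 : ∀ t : ℝ, (∫⁻ θ in Ioo 0 (2 * Real.pi),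
              (ENNReal.ofReal (800 / ρ0 ^ 2) * (‖Ht ((t : ℂ) + (θ : ℂ) * I)‖ₑ ^ 2 +
            ‖Hs ((t : ℂ) + (θ : ℂ) * I)‖ₑ ^ 2) + 2)) =
              ENNReal.ofReal (800 / ρ0 ^ 2) * (∫⁻ θ in Ioo 0 (2 * Real.pi),
                (‖Ht ((t : ℂ) + (θ : ℂ) * I)‖ₑ ^ 2 + ‖Hs ((t : ℂ) + (θ : ℂ) * I)‖ₑ ^ 2)) +
              ENNReal.ofReal (4 * Real.pi) := by
            intro t
            rw [lintegral_add_right _ measurable_const, lintegral_const_mul _ (hm2 t),
              setLIntegral_const, Real.volume_Ioo, sub_zero]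
            congr 1
            rw [show (2 : ℝ≥0∞) = ENNReal.ofReal 2 by norm_num, ← ENNReal.ofReal_mul (by norm_num)]
            congr 1; ring
          simp only [e1]
          rw [lintegral_add_right _ measurable_const, lintegral_const_mul _ hm3,
              setLIntegral_const, Real.volume_Ioo, sub_zero,
              ← ENNReal.ofReal_mul (by have := Real.pi_pos; positivity)]
      _ ≤ _ := by
          gcongr
          have h2 := hp.en univ MeasurableSet.univ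
          rw [preimage_univ, inter_univ, inter_univ] at h2
          rw [h2]
          exact lintegral_mono_set hA1
  have hAfin : en A hx hy < ⊤ := lt_of_le_of_lt (lintegral_mono_set hAO) ha.fin
  have hfin : (∫⁻ t in Ioo 0 T1, ∫⁻ θ in Ioo 0 (2 * Real.pi),
      (ENNReal.ofReal (mt t θ) ^ 2 + ENNReal.ofReal (mθ t θ) ^ 2)) < ⊤ :=
    lt_of_le_of_lt hE (ENNReal.add_lt_top.2
      ⟨ENNReal.mul_lt_top ENNReal.ofReal_lt_top hAfin, ENNReal.ofReal_lt_top⟩)
  have hHbp : ∀ z ∈ X, Hb (z + 2 * Real.pi * I) = Hb z := by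
    intro z hz
    rw [hP.Heq z hz, hP.Heq _ ((hP.chart.Xper z).1 hz), hP.chart.per z hz]
  have key := fun N => competitor hT hB mt mθ f hmt hmθ (by have e0 : Function.uncurry f = F := (by ext ⟨a, b⟩; rfl); rw [e0]; exact hFm) mt0 mθ0 hfin Tg Θg
    gl.subT gl.fT gl.fΘ gl.pΘ
    (fun t ht x y => ((gl.iT t ht x y).norm.const_mul _).add intervalIntegrable_const)
    (fun θ hθ x hx => by
      refine IntervalIntegrable.const_mul ?_ _
      refine (gl.iΘ θ hθ).norm.mono_set ?_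
      rw [uIcc_of_le hx.1, uIcc_of_le hT.le]
      exact Icc_subset_Icc_right hx.2.le)
    (fun t ht x hx y hy hxy => by
      rw [hfeq t (gl.subT ht), hfeq t (gl.subT ht)]; exact l1 t ht x y hxy)
    (fun θ hθ x hx y hy hxy => by
      rw [hfeq x (gl.subT hx), hfeq y (gl.subT hy)]
      exact l2 θ hθ x (gl.subT hx) y (gl.subT hy) hxy)
    (fun θ hθ x hx => by
      rw [hfeq x (gl.subT hx)]
      exact l3 θ hθ x (gl.subT hx))
    (fun t ht x hx => by
      rw [hfeq t (gl.subT ht), hfeq t (gl.subT ht)]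
      have ht' := gl.subT ht
      have hz : ((t : ℂ) + (x : ℂ) * I) ∈ X := h1 (by simp [strip, ht'.1, ht'.2])
      have e1 : ((t : ℂ) + ((x + 2 * Real.pi : ℝ) : ℂ) * I) =
          ((t : ℂ) + (x : ℂ) * I) + 2 * Real.pi * I := by push_cast; ring
      rw [e1]
      set z : ℂ := ((t : ℂ) + (x : ℂ) * I) with hzdef
      have him : (z + 2 * Real.pi * I).im = z.im + 2 * Real.pi := by simp
      unfold ptf
      rw [hHbp z hz, him]
      by_cases hq : Hb z = q
      · rw [hq]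
        simp only [sub_self, norm_zero, mul_zero, zero_div, zero_sub]
        have : min (1 : ℝ) (max 0 (-1)) = 0 := by norm_num
        rw [this]; ring
      · rw [hαp z hz hq]
        have e2 : max (z.im + 2 * Real.pi + c - 2 * Real.pi)
            (min (z.im + 2 * Real.pi + c + 2 * Real.pi) (α z + 2 * Real.pi)) =
            max (z.im + c - 2 * Real.pi) (min (z.im + c + 2 * Real.pi) (α z)) + 2 * Real.pi := by
          rw [← max_add_add_right, ← min_add_add_right]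
          congr 1
          · ring
          · congr 1; ring
        rw [e2]; ring) N
  rw [elam_eq hT hB]
  have hnn : ∀ n : ℕ, 0 ≤ Real.pi * n * Real.tanh (n * T1) * mode (2 * Real.pi) α0 n := by
    intro n
    have h1 : 0 ≤ Real.tanh (n * T1) := by
      rw [Real.tanh_eq_sinh_div_cosh]
      exact div_nonneg (Real.sinh_nonneg_iff.2 (by positivity)) (Real.cosh_pos _).le
    have h2 : 0 ≤ mode (2 * Real.pi) α0 n := by unfold mode; positivity
    have := Real.pi_pos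
    positivity
  rw [ENNReal.tsum_eq_iSup_nat, ENNReal.add_iSup]
  refine iSup_le fun N => ?_
  refine le_trans ?_ ((key N).trans hE)
  rw [ENNReal.ofReal_add (by have := Real.pi_pos; positivity)
    (Finset.sum_nonneg fun n _ => hnn n)]
  gcongr
  rw [ENNReal.ofReal_sum_of_nonneg (fun n _ => hnn n)]
  have : ∑ n ∈ Finset.range N, ENNReal.ofReal (Real.pi * n * Real.tanh (n * T1) *
      mode (2 * Real.pi) α0 n) ≤
      ∑ n ∈ Finset.range (N + 1), ENNReal.ofReal (Real.pi * n * Real.tanh (n * T1) *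
        mode (2 * Real.pi) α0 n) :=
    Finset.sum_le_sum_of_subset (Finset.range_mono (Nat.le_succ N))
  refine this.trans ?_
  rw [Finset.sum_range_succ']
  simp only [Nat.cast_zero, mul_zero, zero_mul, ENNReal.ofReal_zero, add_zero]
  rw [Finset.range_eq_Ico, Finset.sum_Ico_add' (fun n : ℕ => ENNReal.ofReal (Real.pi * n *
    Real.tanh (n * T1) * mode (2 * Real.pi) α0 n)) 0 N 1]
  apply Finset.sum_le_sum_of_subset
  intro n hn
  simp only [Finset.mem_Ico, Finset.mem_Icc] at hn ⊢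
  omega

end CF6

end

section

/-! # Module H, row H5: vertical lines reach the point

`exists_pull` (chart `hP.chart`, `ha` restricted to the open set `A ⊆ Ω`; `ACL2` is monotone in the open set) gives `H = h ∘ ψ = Hb` on `strip T`, `exists_goodLines` the good lines. Let `θ ∈ Θg`. For `0 < x < y < T`: `‖H (y + θI) - H (x + θI)‖ ≤ ∫ x..y ‖Ht (t + θI)‖ ≤ ∫ 0..T ‖Ht (t+θI)‖`.
`x → 0`: `H (x + θI) = Hb (x + θ I) → Hb (θI)`, `‖Hb (θI) - q‖ = ρ0`. `y → T`: `infDist (ψ (y + θI)) L → 0` (`hP.tendL`: `a` with `(a : ℂ) ∈ strip T`, so `a < T`), so `dist (h (ψ (y + θI))) q → 0` (`hnear`). So `ρ0 ≤ ∫ 0..T ‖Ht (t + θI)‖`, `ρ0² ≤ T ∫_0^T ‖Ht (t+θI)‖² dt` (Cauchy-Schwarz / Jensen in `ENNReal`).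
Integrate over `θ ∈ (0, 2π)` (a.e. `θ` is good): `2π ρ0² ≤ T ∫∫ ‖Ht‖² ≤ T en (per1 (strip T)) Ht Hs = T en A hx hy` (`Pull.en`, `E = univ`; Tonelli with `Complex.volume_preserving_equiv_real_prod`). -/

open Complex MeasureTheory Set Filter Topology Metric intervalIntegral
open scoped ENNReal

namespace CF6

theorem h5_mono {U V : Set ℂ} (hV : V ⊆ U) {f fx fy : ℂ → ℂ} (h : ACL2 U f fx fy) :
    ACL2 V f fx fy where
  cont := h.cont.mono hV
  mx := h.mx.mono_measure (Measure.restrict_mono hV le_rfl)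
  my := h.my.mono_measure (Measure.restrict_mono hV le_rfl)
  fin := (lintegral_mono_set hV).trans_lt h.fin
  hor := h.hor.mono fun _ hy a b hab hm => hy a b hab fun t ht => hV (hm t ht)
  ver := h.ver.mono fun _ hy a b hab hm => hy a b hab fun t ht => hV (hm t ht)

/-- Cauchy-Schwarz on an interval -/
theorem h5_cs {T : ℝ} {g : ℝ → ℂ} (hg : AEStronglyMeasurable g (volume.restrict (Ioo 0 T))) :
    (∫⁻ t in Ioo 0 T, ‖g t‖ₑ) ^ 2 ≤ ENNReal.ofReal T * ∫⁻ t in Ioo 0 T, ‖g t‖ₑ ^ 2 := by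
  have h := ENNReal.lintegral_mul_le_Lp_mul_Lq (volume.restrict (Ioo (0 : ℝ) T))
    Real.HolderConjugate.two_two (f := fun _ => (1 : ℝ≥0∞)) (g := fun t => ‖g t‖ₑ)
    aemeasurable_const hg.enorm
  simp only [Pi.mul_apply, one_mul, ENNReal.one_rpow, lintegral_const, Measure.restrict_apply,
    MeasurableSet.univ, univ_inter, Real.volume_Ioo, sub_zero] at h
  have h2 : (∫⁻ t in Ioo 0 T, ‖g t‖ₑ) ^ 2 ≤ (ENNReal.ofReal T ^ (1 / 2 : ℝ) *
      (∫⁻ t in Ioo 0 T, ‖g t‖ₑ ^ (2 : ℝ)) ^ (1 / 2 : ℝ)) ^ 2 := pow_le_pow_left' h 2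
  refine h2.trans (le_of_eq ?_)
  rw [mul_pow, ← ENNReal.rpow_natCast, ← ENNReal.rpow_natCast, ← ENNReal.rpow_mul,
    ← ENNReal.rpow_mul]
  norm_num

theorem h5_tonelli {T : ℝ} {F : ℂ → ℝ≥0∞} (hF : Measurable F) :
    ∫⁻ z in per1 (strip T), F z
      = ∫⁻ θ in Ioo 0 (2 * Real.pi), ∫⁻ t in Ioo 0 T, F (t + θ * I) := by
  have he : MeasurePreserving (fun p : ℝ × ℝ => (⟨p.1, p.2⟩ : ℂ)) volume volume :=
    Complex.volume_preserving_equiv_real_prod.symm
  have hpre : (fun p : ℝ × ℝ => (⟨p.1, p.2⟩ : ℂ)) ⁻¹' (per1 (strip T))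
      = Ioo 0 T ×ˢ Ioo 0 (2 * Real.pi) := by
    ext ⟨x, y⟩
    simp [per1, strip]
  have hm : MeasurableSet (per1 (strip T)) := by
    have h1 : MeasurableSet {z : ℂ | 0 < z.re} := measurableSet_lt measurable_const measurable_re
    have h2 : MeasurableSet {z : ℂ | z.re < T} := measurableSet_lt measurable_re measurable_const
    have h3 : MeasurableSet {z : ℂ | 0 < z.im} := measurableSet_lt measurable_const measurable_im
    have h4 : MeasurableSet {z : ℂ | z.im < 2 * Real.pi} :=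
      measurableSet_lt measurable_im measurable_const
    exact (h1.inter h2).inter (h3.inter h4)
  rw [← he.setLIntegral_comp_preimage hm hF, hpre, Measure.volume_eq_prod,
    setLIntegral_prod_symm]
  · refine lintegral_congr fun θ => lintegral_congr fun t => ?_
    congr 1
    exact mk_eq_add_mul_I t θ
  · exact (hF.comp he.measurable).aemeasurable

theorem h5_line {T : ℝ} (hT : 0 < T) {g : ℝ → ℂ} (hg : IntervalIntegrable g volume 0 T) {x y : ℝ}
    (hx : 0 < x) (hxy : x ≤ y) (hy : y < T) :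
    ‖∫ t in x..y, g t‖ ≤ ∫ t in (0 : ℝ)..T, ‖g t‖ := by
  refine (intervalIntegral.norm_integral_le_integral_norm hxy).trans ?_
  refine integral_mono_interval hx.le hxy hy.le ?_ hg.norm
  exact Eventually.of_forall fun t => norm_nonneg _

theorem pt_vertical {Ω A L : Set ℂ} {q : ℂ} {ρ0 T : ℝ} {h hx hy ψ Hb : ℂ → ℂ} {α0 : ℝ → ℝ}
    (hT : 0 < T) (hP : PointG Ω A L q ρ0 (strip T) h ψ Hb α0) (hA : IsOpen A) (hAO : A ⊆ Ω)
    (ha : ACL2 Ω h hx hy)
    (hnear : ∀ η > (0 : ℝ), ∃ κ > (0 : ℝ), ∀ x ∈ Ω, infDist x L < κ → dist (h x) q < η) :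
    ENNReal.ofReal (2 * Real.pi * ρ0 ^ 2) ≤ ENNReal.ofReal T * en A hx hy := by
  obtain ⟨H, Ht, Hs, hp⟩ := exists_pull hP.chart hA (h5_mono hAO ha)
  obtain ⟨Tg, Θg, hg⟩ := exists_goodLines hT hp
  have hpi := Real.pi_pos
  have hmem : ∀ t ∈ Ioo 0 T, ∀ θ : ℝ, ((t : ℂ) + θ * I) ∈ strip T := by
    intro t ht θ
    simpa [strip] using ht
  -- one line
  have hline : ∀ θ ∈ Θg, ρ0 ≤ ∫ t in (0 : ℝ)..T, ‖Ht (t + θ * I)‖ := by
    intro θ hθ
    have hint := hg.iΘ θ hθ
    have h1 : ∀ x ∈ Ioo 0 T, ∀ y ∈ Ioo 0 T, x ≤ y →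
        ‖H (y + θ * I) - H (x + θ * I)‖ ≤ ∫ t in (0 : ℝ)..T, ‖Ht (t + θ * I)‖ := by
      intro x hx y hy hxy
      rw [hg.hΘ θ hθ x hx y hy]
      exact h5_line hT hint hx.1 hxy hy.2
    have h2 : ∀ y ∈ Ioo 0 T,
        ‖H (y + θ * I) - Hb (θ * I)‖ ≤ ∫ t in (0 : ℝ)..T, ‖Ht (t + θ * I)‖ := by
      intro y hy
      have hc : Tendsto (fun x : ℝ => Hb (x + θ * I)) (𝓝[>] 0) (𝓝 (Hb (θ * I))) := by
        have h3 : ContinuousWithinAt Hb {z | z ∈ strip T ∨ z.re = 0} (θ * I) :=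
          hP.Hcont _ (by right; simp)
        refine h3.tendsto.comp ?_
        refine tendsto_nhdsWithin_iff.2 ⟨?_, ?_⟩
        · have h4 : Continuous fun x : ℝ => (x : ℂ) + θ * I := by fun_prop
          have h5 := (h4.tendsto 0).mono_left (nhdsWithin_le_nhds (s := Ioi 0))
          simpa using h5
        · have h5 : Ioo 0 T ∈ 𝓝[>] (0 : ℝ) := Ioo_mem_nhdsGT hT
          filter_upwards [h5] with x hx
          left
          exact hmem x hx θ
      have h6 : Tendsto (fun x : ℝ => ‖H (y + θ * I) - Hb (x + θ * I)‖) (𝓝[>] 0)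
          (𝓝 ‖H (y + θ * I) - Hb (θ * I)‖) := (tendsto_const_nhds.sub hc).norm
      refine le_of_tendsto h6 ?_
      have h7 : Ioo 0 y ∈ 𝓝[>] (0 : ℝ) := Ioo_mem_nhdsGT hy.1
      filter_upwards [h7] with x hx
      have hxT : x ∈ Ioo 0 T := ⟨hx.1, hx.2.trans hy.2⟩
      rw [hP.Heq _ (hmem x hxT θ), ← hp.eq _ (hmem x hxT θ)]
      exact h1 x hxT y hy hx.2.le
    have hρ : ‖Hb (θ * I) - q‖ = ρ0 := by
      rw [hP.Hbd θ, add_sub_cancel_left, norm_mul, mul_comm I, norm_exp_ofReal_mul_I, mul_one,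
        norm_real, Real.norm_eq_abs, abs_of_pos hP.pos]
    refine le_of_forall_pos_le_add fun η hη => ?_
    obtain ⟨κ, hκ, hκ2⟩ := hnear η hη
    obtain ⟨a, ha1, ha2⟩ := hP.tendL κ hκ
    have ha3 : 0 < a ∧ a < T := by simpa [strip] using ha1
    set y := (a + T) / 2 with hy
    have hyT : y ∈ Ioo 0 T := ⟨by rw [hy]; linarith [ha3.1], by rw [hy]; linarith [ha3.2]⟩
    have hyS := hmem y hyT θ
    have h8 : infDist (ψ (y + θ * I)) L < κ := by
      refine ha2 _ hyS ?_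
      have : ((y : ℂ) + θ * I).re = y := by simp
      rw [this, hy]
      linarith [ha3.2]
    have h9 : ψ (y + θ * I) ∈ Ω := by
      apply hAO
      rw [← hP.chart.image]
      exact mem_image_of_mem _ hyS
    have h10 := hκ2 _ h9 h8
    rw [← hp.eq _ hyS, dist_eq_norm] at h10
    have h11 : Hb (θ * I) - q = (H (y + θ * I) - q) - (H (y + θ * I) - Hb (θ * I)) := by ring
    rw [← hρ, h11]
    refine (norm_sub_le _ _).trans ?_
    rw [add_comm]
    exact add_le_add (h2 y hyT) h10.le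
  have hae : ∀ᵐ θ : ℝ, ENNReal.ofReal (ρ0 ^ 2)
      ≤ ENNReal.ofReal T * ∫⁻ t in Ioo 0 T, ‖Ht (t + θ * I)‖ₑ ^ 2 := by
    have h1 : ∀ᵐ θ : ℝ, θ ∈ Θg := by
      rw [ae_iff]
      exact hg.fΘ
    filter_upwards [h1] with θ hθ
    have h2 := hline θ hθ
    have hint := hg.iΘ θ hθ
    have h3 : ENNReal.ofReal ρ0 ≤ ∫⁻ t in Ioo 0 T, ‖Ht (t + θ * I)‖ₑ := by
      refine (ENNReal.ofReal_le_ofReal h2).trans (le_of_eq ?_)
      rw [integral_of_le hT.le, integral_Ioc_eq_integral_Ioo,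
        ofReal_integral_norm_eq_lintegral_enorm]
      exact ((intervalIntegrable_iff_integrableOn_Ioo_of_le hT.le).1 hint)
    have hm : AEStronglyMeasurable (fun t : ℝ => Ht (t + θ * I)) (volume.restrict (Ioo 0 T)) := by
      have h4 : Measurable fun t : ℝ => (t : ℂ) + θ * I := by fun_prop
      exact (hp.mt.comp h4).aestronglyMeasurable
    calc ENNReal.ofReal (ρ0 ^ 2) = ENNReal.ofReal ρ0 ^ 2 := ENNReal.ofReal_pow hP.pos.le 2
      _ ≤ (∫⁻ t in Ioo 0 T, ‖Ht (t + θ * I)‖ₑ) ^ 2 := pow_le_pow_left' h3 2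
      _ ≤ _ := h5_cs hm
  have hen : ∫⁻ z in per1 (strip T), ‖Ht z‖ₑ ^ 2 ≤ en A hx hy := by
    have h1 := hp.en univ MeasurableSet.univ
    rw [preimage_univ, inter_univ, inter_univ] at h1
    rw [← h1]
    unfold en
    exact lintegral_mono fun z => le_self_add
  rw [h5_tonelli (hp.mt.enorm.pow_const 2)] at hen
  calc ENNReal.ofReal (2 * Real.pi * ρ0 ^ 2)
      = ∫⁻ _ in Ioo 0 (2 * Real.pi), ENNReal.ofReal (ρ0 ^ 2) := by
        rw [lintegral_const, Measure.restrict_apply MeasurableSet.univ, univ_inter,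
          Real.volume_Ioo, sub_zero, mul_comm, ENNReal.ofReal_mul (sq_nonneg ρ0)]
    _ ≤ ∫⁻ θ in Ioo 0 (2 * Real.pi),
          ENNReal.ofReal T * ∫⁻ t in Ioo 0 T, ‖Ht (t + θ * I)‖ₑ ^ 2 :=
        lintegral_mono_ae (ae_restrict_of_ae hae)
    _ = ENNReal.ofReal T * ∫⁻ θ in Ioo 0 (2 * Real.pi),
          ∫⁻ t in Ioo 0 T, ‖Ht (t + θ * I)‖ₑ ^ 2 := by
        rw [lintegral_const_mul' _ _ ENNReal.ofReal_ne_top]
    _ ≤ ENNReal.ofReal T * en A hx hy := by gcongr

end CF6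

end

section

/-! # Module H, row H6c: the cell map of a point component, energy

`Fx z = fderiv ℝ pF z 1`, `Fy z = fderiv ℝ pF z I`. Tonelli on `per1 (pX e0)` = `{t + iθ | 0 < t, e0 < exp (-t), 0 < θ < 2π}` (`Complex.volume_preserving_equiv_real_prod`; the line `re z = T1` is a null set):
part `t < T1` (`pF_deriv1`): at most `ρ0² (2π ∫ exp(-2t)/(1-e0)² + elam T1 α0 0)`; part `t > T1` (`pF_deriv2`): `ρ0² (2π ∫ exp(-2t)/(1-e0)² + ∫_{T1}^∞ exp(-2t) dt * ∫_0^{2π} λ_θ(T1,θ)² dθ)`; the last term occurs only if `T1 = 1` (if `e0 = exp (-T1)` this part is empty)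
and is at most `(1/2) elam T1 α0 0` (`energy_density_le` with `t = T1 = 1`). `∫ exp(-2t)/(1-e0)² dt` over `{0 < t, e0 < exp(-t)}` `= (1 - e0²)/(2 (1-e0)²) = (1+e0)/(2(1-e0)) ≤ 1/(1-e0) ≤ 2/T1`: if `e0 = exp (-T1)`, `T1 ≤ 1`: `1 - exp (-T1) ≥ T1/2` (`exp(-x) ≤ 1 - x + x²/2`, or convexity);
if `T1 = 1`: `e0 ≤ exp (-1) ≤ 1/2` (`he2`). Total `≤ 2 ρ0² elam + 4π ρ0²/T1 ≤ 2 ρ0² elam + 13 ρ0²/T1`.
`ACL2` on `pX e0 ∩ {|im| < R}`: `acl2_of_locallyLipschitz` (K/L1.lean), `pF_lip`; the energy there is finite: the set is covered by finitely many translates of `per1` (and null lines), the density is `2πi`-periodic (`pF (z + 2πi) = pF z` for `re z > 0` by `lam_per`, so `fderiv` is periodic); or repeat the computation with `θ ∈ (-R, R)`, `R ≤ 2π n`. -/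

open Complex MeasureTheory Set Filter Topology Metric
open scoped ENNReal

namespace CF6

private lemma h6c_enn (a b : ℂ) : ‖a‖ₑ ^ 2 + ‖b‖ₑ ^ 2 = ENNReal.ofReal (‖a‖ ^ 2 + ‖b‖ ^ 2) := by
  rw [ENNReal.ofReal_add (by positivity) (by positivity), ENNReal.ofReal_pow (norm_nonneg _),
    ENNReal.ofReal_pow (norm_nonneg _), ofReal_norm, ofReal_norm]

private lemma h6c_enr (a b : ℝ) : ‖a‖ₑ ^ 2 + ‖b‖ₑ ^ 2 = ENNReal.ofReal (a ^ 2 + b ^ 2) := by
  rw [ENNReal.ofReal_add (by positivity) (by positivity), ← sq_abs a, ← sq_abs b,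
    ENNReal.ofReal_pow (abs_nonneg _), ENNReal.ofReal_pow (abs_nonneg _), ← Real.norm_eq_abs, ← Real.norm_eq_abs,
    ofReal_norm, ofReal_norm]

private lemma h6c_tonelli (g : ℂ → ℝ≥0∞) : ∫⁻ z, g z ≤ ∫⁻ t : ℝ, ∫⁻ θ : ℝ, g ⟨t, θ⟩ := by
  have h := (Complex.volume_preserving_equiv_real_prod.symm).lintegral_comp_emb
    Complex.measurableEquivRealProd.symm.measurableEmbedding g
  rw [← h]
  exact lintegral_prod_le _

/-- the inner integral -/
private lemma h6c_inner {q : ℂ} {ρ0 e0 T1 : ℝ} {α0 : ℝ → ℝ} (hρ : 0 < ρ0) (he : 0 ≤ e0) (he1 : e0 < 1)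
    (h1 : 0 < T1) (hB : QP (2 * Real.pi) α0) (E : ℝ → ℝ≥0∞)
    (hE : ∀ t, E t = ∫⁻ θ in Ioo 0 (2 * Real.pi), (‖deriv (fun t => lam T1 α0 t θ) t‖ₑ ^ 2 +
      ‖deriv (fun θ => lam T1 α0 t θ) θ‖ₑ ^ 2)) {t : ℝ} (ht : 0 < t) (hte : e0 < Real.exp (-t)) (htT : t ≠ T1) :
    ∫⁻ θ in Ioo 0 (2 * Real.pi), (‖fderiv ℝ (pF q ρ0 e0 T1 α0) ⟨t, θ⟩ 1‖ₑ ^ 2 +
        ‖fderiv ℝ (pF q ρ0 e0 T1 α0) ⟨t, θ⟩ I‖ₑ ^ 2) ≤
      ENNReal.ofReal (ρ0 ^ 2) * (ENNReal.ofReal (Real.exp (-2 * t) / (1 - e0) ^ 2 * (2 * Real.pi)) +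
        ((Ioi T1).indicator (fun t => ENNReal.ofReal (Real.exp (-2 * t)) * E T1) t +
          (Ioo 0 T1).indicator E t)) := by
  have h0 : 0 < 1 - e0 := by linarith
  have hpi := Real.pi_pos
  have hvol : (volume : Measure ℝ) (Ioo 0 (2 * Real.pi)) = ENNReal.ofReal (2 * Real.pi) := by
    rw [Real.volume_Ioo, sub_zero]
  have hconst : ∀ c : ℝ, 0 ≤ c → ∫⁻ _ in Ioo (0 : ℝ) (2 * Real.pi), ENNReal.ofReal c =
      ENNReal.ofReal (c * (2 * Real.pi)) := by
    intro c hc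
    rw [setLIntegral_const, hvol, ← ENNReal.ofReal_mul hc]
  rcases lt_or_gt_of_ne htT with hlt | hgt
  · have hnot : t ∉ Ioi T1 := fun h => absurd h (not_lt.mpr hlt.le)
    rw [indicator_of_notMem hnot, indicator_of_mem (show t ∈ Ioo 0 T1 from ⟨ht, hlt⟩), zero_add, hE t]
    calc ∫⁻ θ in Ioo 0 (2 * Real.pi), (‖fderiv ℝ (pF q ρ0 e0 T1 α0) ⟨t, θ⟩ 1‖ₑ ^ 2 +
        ‖fderiv ℝ (pF q ρ0 e0 T1 α0) ⟨t, θ⟩ I‖ₑ ^ 2)
        ≤ ∫⁻ θ in Ioo 0 (2 * Real.pi), ENNReal.ofReal (ρ0 ^ 2) * (ENNReal.ofReal (Real.exp (-2 * t) / (1 - e0) ^ 2) +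
            (‖deriv (fun t => lam T1 α0 t θ) t‖ₑ ^ 2 + ‖deriv (fun θ => lam T1 α0 t θ) θ‖ₑ ^ 2)) := by
          apply lintegral_mono
          intro θ
          beta_reduce
          rw [h6c_enn, h6c_enr, ← ENNReal.ofReal_add (by positivity) (by positivity),
            ← ENNReal.ofReal_mul (by positivity)]
          apply ENNReal.ofReal_le_ofReal
          exact pF_deriv1 hρ he he1 h1 hB (z := ⟨t, θ⟩) ⟨ht, hte⟩ hlt
      _ = ENNReal.ofReal (ρ0 ^ 2) * (ENNReal.ofReal (Real.exp (-2 * t) / (1 - e0) ^ 2 * (2 * Real.pi)) +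
            ∫⁻ θ in Ioo 0 (2 * Real.pi), (‖deriv (fun t => lam T1 α0 t θ) t‖ₑ ^ 2 +
              ‖deriv (fun θ => lam T1 α0 t θ) θ‖ₑ ^ 2)) := by
          rw [lintegral_const_mul' _ _ ENNReal.ofReal_ne_top, lintegral_add_left measurable_const,
            hconst _ (by positivity)]
  · have hnot : t ∉ Ioo 0 T1 := fun h => absurd h.2 (not_lt.mpr hgt.le)
    rw [indicator_of_notMem hnot, indicator_of_mem (show t ∈ Ioi T1 from hgt), add_zero, hE T1]
    calc ∫⁻ θ in Ioo 0 (2 * Real.pi), (‖fderiv ℝ (pF q ρ0 e0 T1 α0) ⟨t, θ⟩ 1‖ₑ ^ 2 +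
        ‖fderiv ℝ (pF q ρ0 e0 T1 α0) ⟨t, θ⟩ I‖ₑ ^ 2)
        ≤ ∫⁻ θ in Ioo 0 (2 * Real.pi), ENNReal.ofReal (ρ0 ^ 2) * (ENNReal.ofReal (Real.exp (-2 * t) / (1 - e0) ^ 2) +
            ENNReal.ofReal (Real.exp (-2 * t)) * (‖deriv (fun t => lam T1 α0 t θ) T1‖ₑ ^ 2 +
              ‖deriv (fun θ => lam T1 α0 T1 θ) θ‖ₑ ^ 2)) := by
          apply lintegral_mono
          intro θ
          beta_reduce
          rw [h6c_enn, h6c_enr, ← ENNReal.ofReal_mul (by positivity), ← ENNReal.ofReal_add (by positivity) (by positivity),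
            ← ENNReal.ofReal_mul (by positivity)]
          apply ENNReal.ofReal_le_ofReal
          refine (pF_deriv2 hρ he he1 h1 hB (z := ⟨t, θ⟩) ⟨ht, hte⟩ hgt).trans ?_
          show ρ0 ^ 2 * (Real.exp (-2 * t) / (1 - e0) ^ 2 + Real.exp (-2 * t) *
            deriv (fun θ => lam T1 α0 T1 θ) θ ^ 2) ≤ _
          gcongr
          exact le_add_of_nonneg_left (sq_nonneg _)
      _ = ENNReal.ofReal (ρ0 ^ 2) * (ENNReal.ofReal (Real.exp (-2 * t) / (1 - e0) ^ 2 * (2 * Real.pi)) +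
            ENNReal.ofReal (Real.exp (-2 * t)) * ∫⁻ θ in Ioo 0 (2 * Real.pi),
              (‖deriv (fun t => lam T1 α0 t θ) T1‖ₑ ^ 2 + ‖deriv (fun θ => lam T1 α0 T1 θ) θ‖ₑ ^ 2)) := by
          rw [lintegral_const_mul' _ _ ENNReal.ofReal_ne_top, lintegral_add_left measurable_const,
            hconst _ (by positivity), lintegral_const_mul' _ _ ENNReal.ofReal_ne_top]

private lemma h6c_a {e0 T1 : ℝ} (he : 0 ≤ e0) (he2 : e0 ≤ Real.exp (-T1)) (h1 : 0 < T1) (h2 : T1 ≤ 1)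
    (hT : T1 = 1 ∨ e0 = Real.exp (-T1)) :
    ∫⁻ t in {t : ℝ | 0 < t ∧ e0 < Real.exp (-t)}, ENNReal.ofReal (Real.exp (-2 * t) / (1 - e0) ^ 2 * (2 * Real.pi)) ≤
      ENNReal.ofReal (13 / T1) := by
  have hpi := Real.pi_pos
  have hpi2 := Real.pi_lt_d2
  rcases hT with h | h
  · subst h
    have he3 : Real.exp (-1) ≤ 1 / 2 := by
      rw [Real.exp_neg, one_div]
      apply inv_anti₀ (by norm_num)
      linarith [Real.add_one_le_exp (1 : ℝ)]
    have h3 : 1 / 2 ≤ 1 - e0 := by linarith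
    calc ∫⁻ t in {t : ℝ | 0 < t ∧ e0 < Real.exp (-t)}, ENNReal.ofReal (Real.exp (-2 * t) / (1 - e0) ^ 2 * (2 * Real.pi))
        ≤ ∫⁻ t in Ioi (0 : ℝ), ENNReal.ofReal (Real.exp (-2 * t) / (1 - e0) ^ 2 * (2 * Real.pi)) :=
          lintegral_mono_set (fun t ht => ht.1)
      _ ≤ ∫⁻ t in Ioi (0 : ℝ), ENNReal.ofReal (Real.exp (-2 * t) * (8 * Real.pi)) := by
          apply lintegral_mono
          intro t
          apply ENNReal.ofReal_le_ofReal
          have h4 : 1 / (1 - e0) ^ 2 ≤ 4 := by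
            rw [div_le_iff₀ (by positivity)]
            nlinarith
          calc Real.exp (-2 * t) / (1 - e0) ^ 2 * (2 * Real.pi) =
                Real.exp (-2 * t) * (2 * Real.pi) * (1 / (1 - e0) ^ 2) := by ring
            _ ≤ Real.exp (-2 * t) * (2 * Real.pi) * 4 := mul_le_mul_of_nonneg_left h4 (by positivity)
            _ = Real.exp (-2 * t) * (8 * Real.pi) := by ring
      _ = ENNReal.ofReal (∫ t in Ioi (0 : ℝ), Real.exp (-2 * t) * (8 * Real.pi)) := by
          symm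
          apply ofReal_integral_eq_lintegral_ofReal
          · exact (integrableOn_exp_mul_Ioi (by norm_num) 0).mul_const _
          · exact Filter.Eventually.of_forall fun t => by positivity
      _ ≤ ENNReal.ofReal (13 / 1) := by
          apply ENNReal.ofReal_le_ofReal
          rw [integral_mul_const, integral_exp_mul_Ioi (by norm_num)]
          simp
          linarith
  · have h3 : T1 / 2 ≤ 1 - e0 := by
      rw [h]
      have h4 : Real.exp (-T1) ≤ 1 / (1 + T1) := by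
        rw [Real.exp_neg, one_div]
        apply inv_anti₀ (by positivity)
        linarith [Real.add_one_le_exp T1]
      have h5 : 1 / (1 + T1) ≤ 1 - T1 / 2 := by
        rw [div_le_iff₀ (by positivity)]
        nlinarith
      linarith
    have h30 : 0 < 1 - e0 := by linarith
    calc ∫⁻ t in {t : ℝ | 0 < t ∧ e0 < Real.exp (-t)}, ENNReal.ofReal (Real.exp (-2 * t) / (1 - e0) ^ 2 * (2 * Real.pi))
        ≤ ∫⁻ t in Ioc (0 : ℝ) T1, ENNReal.ofReal (Real.exp (-2 * t) / (1 - e0) ^ 2 * (2 * Real.pi)) := by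
          apply lintegral_mono_set
          intro t ht
          have h6 := ht.2
          rw [h, Real.exp_lt_exp] at h6
          exact ⟨ht.1, by linarith⟩
      _ ≤ ∫⁻ t in Ioc (0 : ℝ) T1, ENNReal.ofReal (Real.exp (-t) * (2 * Real.pi / (1 - e0) ^ 2)) := by
          apply setLIntegral_mono' measurableSet_Ioc
          intro t ht
          apply ENNReal.ofReal_le_ofReal
          have h6 : Real.exp (-2 * t) ≤ Real.exp (-t) := Real.exp_le_exp.mpr (by linarith [ht.1])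
          calc Real.exp (-2 * t) / (1 - e0) ^ 2 * (2 * Real.pi) =
                Real.exp (-2 * t) * (2 * Real.pi / (1 - e0) ^ 2) := by ring
            _ ≤ Real.exp (-t) * (2 * Real.pi / (1 - e0) ^ 2) := mul_le_mul_of_nonneg_right h6 (by positivity)
      _ = ENNReal.ofReal (∫ t in Ioc (0 : ℝ) T1, Real.exp (-t) * (2 * Real.pi / (1 - e0) ^ 2)) := by
          symm
          apply ofReal_integral_eq_lintegral_ofReal
          · have : Continuous fun t : ℝ => Real.exp (-t) * (2 * Real.pi / (1 - e0) ^ 2) := by fun_prop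
            exact this.integrableOn_Icc.mono_set Ioc_subset_Icc_self
          · exact Filter.Eventually.of_forall fun t => by positivity
      _ ≤ ENNReal.ofReal (13 / T1) := by
          apply ENNReal.ofReal_le_ofReal
          rw [integral_mul_const, ← intervalIntegral.integral_of_le h1.le]
          have h7 : ∫ t in (0 : ℝ)..T1, Real.exp (-t) = 1 - e0 := by
            have h8 : ∀ t ∈ uIcc (0 : ℝ) T1, HasDerivAt (fun t : ℝ => -Real.exp (-t)) (Real.exp (-t)) t := by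
              intro t _
              have h81 := ((hasDerivAt_neg t).exp).neg
              exact (h81.congr_deriv (by simp)).congr_of_eventuallyEq (Filter.Eventually.of_forall fun z => by simp)
            rw [intervalIntegral.integral_eq_sub_of_hasDerivAt h8
              ((by fun_prop : Continuous fun t : ℝ => Real.exp (-t)).intervalIntegrable _ _), h]
            simp; ring
          rw [h7]
          have h9 : (1 - e0) * (2 * Real.pi / (1 - e0) ^ 2) = 2 * Real.pi / (1 - e0) := by field_simp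
          rw [h9, div_le_div_iff₀ h30 h1]
          nlinarith

theorem pF_energy {q : ℂ} {ρ0 e0 T1 : ℝ} {α0 : ℝ → ℝ} (hρ : 0 < ρ0) (he : 0 ≤ e0)
    (he2 : e0 ≤ Real.exp (-T1)) (h1 : 0 < T1) (h2 : T1 ≤ 1)
    (hT : T1 = 1 ∨ e0 = Real.exp (-T1)) (hB : QP (2 * Real.pi) α0) (hfin : elam T1 α0 0 < ⊤) :
    ∃ Fx Fy : ℂ → ℂ, (∀ R : ℝ, ACL2 (pX e0 ∩ {z | |z.im| < R}) (pF q ρ0 e0 T1 α0) Fx Fy) ∧
      en (per1 (pX e0)) Fx Fy ≤ ENNReal.ofReal (2 * ρ0 ^ 2) * elam T1 α0 0 +
        ENNReal.ofReal (13 * ρ0 ^ 2 / T1) := by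
  have hpi := Real.pi_pos
  have he1 : e0 < 1 := lt_of_le_of_lt he2 (by
    rw [← Real.exp_zero]; exact Real.exp_lt_exp.mpr (by linarith))
  set f : ℂ → ℂ := pF q ρ0 e0 T1 α0 with hf
  set D : ℂ → ℝ≥0∞ := fun z => ‖fderiv ℝ f z 1‖ₑ ^ 2 + ‖fderiv ℝ f z I‖ₑ ^ 2 with hD
  set E : ℝ → ℝ≥0∞ := fun t => ∫⁻ θ in Ioo 0 (2 * Real.pi), (‖deriv (fun t => lam T1 α0 t θ) t‖ₑ ^ 2 +
      ‖deriv (fun θ => lam T1 α0 t θ) θ‖ₑ ^ 2) with hE
  have hXo : IsOpen (pX e0) :=
    (isOpen_lt continuous_const continuous_re).inter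
      (isOpen_lt continuous_const (Real.continuous_exp.comp continuous_re.neg))
  have hXm := hXo.measurableSet
  have hstrip : ∀ a b : ℝ, MeasurableSet (pX e0 ∩ {z : ℂ | a < z.im ∧ z.im ≤ b}) := fun a b =>
    hXm.inter ((measurableSet_lt measurable_const measurable_im).inter
      (measurableSet_le measurable_im measurable_const))
  set P0 : Set ℂ := pX e0 ∩ {z : ℂ | 0 < z.im ∧ z.im ≤ 2 * Real.pi} with hP0d
  have hP0m : MeasurableSet P0 := hstrip 0 (2 * Real.pi)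
  have hI0m : MeasurableSet {t : ℝ | 0 < t ∧ e0 < Real.exp (-t)} :=
    (measurableSet_lt measurable_const measurable_id).inter
      (measurableSet_lt measurable_const (Real.measurable_exp.comp measurable_neg))
  have hET : E T1 ≤ ENNReal.ofReal (1 / T1) * elam T1 α0 0 := energy_density_le h1 hB h1 le_rfl
  have hP0 : ∫⁻ z in P0, D z ≤ ENNReal.ofReal (2 * ρ0 ^ 2) * elam T1 α0 0 +
      ENNReal.ofReal (13 * ρ0 ^ 2 / T1) := by
    rw [← lintegral_indicator hP0m]
    refine (h6c_tonelli _).trans ?_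
    set A : ℝ → ℝ≥0∞ := {t : ℝ | 0 < t ∧ e0 < Real.exp (-t)}.indicator
      (fun t => ENNReal.ofReal (Real.exp (-2 * t) / (1 - e0) ^ 2 * (2 * Real.pi))) with hA
    set Cc : ℝ → ℝ≥0∞ := (Ioi T1 ∩ {t : ℝ | 0 < t ∧ e0 < Real.exp (-t)}).indicator
      (fun t => ENNReal.ofReal (Real.exp (-2 * t)) * E T1) with hCc
    set B : ℝ → ℝ≥0∞ := (Ioo 0 T1).indicator E with hBd
    have hin : ∀ t : ℝ, t ≠ T1 → ∫⁻ θ : ℝ, P0.indicator D ⟨t, θ⟩ ≤
        ENNReal.ofReal (ρ0 ^ 2) * (A t + (Cc t + B t)) := by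
      intro t ht
      by_cases hI : t ∈ {t : ℝ | 0 < t ∧ e0 < Real.exp (-t)}
      · have h3 : ∀ θ : ℝ, P0.indicator D ⟨t, θ⟩ =
            (Ioc 0 (2 * Real.pi)).indicator (fun θ => D ⟨t, θ⟩) θ := by
          intro θ
          by_cases hθ : θ ∈ Ioc 0 (2 * Real.pi)
          · rw [indicator_of_mem hθ, indicator_of_mem (show (⟨t, θ⟩ : ℂ) ∈ P0 from ⟨hI, hθ⟩)]
          · rw [indicator_of_notMem hθ, indicator_of_notMem (fun h => hθ h.2)]
        simp_rw [h3]
        rw [lintegral_indicator measurableSet_Ioc, ← restrict_Ioo_eq_restrict_Ioc]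
        refine (h6c_inner hρ he he1 h1 hB E (fun t => rfl) hI.1 hI.2 ht).trans (le_of_eq ?_)
        rw [hA, hCc, hBd, indicator_of_mem hI]
        congr 3
        by_cases hT1 : t ∈ Ioi T1
        · rw [indicator_of_mem hT1, indicator_of_mem (show t ∈ Ioi T1 ∩ {t : ℝ | 0 < t ∧ e0 < Real.exp (-t)} from
            ⟨hT1, hI⟩)]
        · rw [indicator_of_notMem hT1, indicator_of_notMem (fun h => hT1 h.1)]
      · have h3 : ∀ θ : ℝ, P0.indicator D ⟨t, θ⟩ = 0 := fun θ => indicator_of_notMem (fun h => hI h.1) _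
        simp_rw [h3]
        rw [lintegral_zero]
        exact bot_le
    have hAm : Measurable A := by
      apply Measurable.indicator _ hI0m
      apply Measurable.ennreal_ofReal
      fun_prop
    have hCm : Measurable Cc := by
      apply Measurable.indicator _ (measurableSet_Ioi.inter hI0m)
      apply Measurable.mul_const
      apply Measurable.ennreal_ofReal
      fun_prop
    have hae : ∀ᵐ t : ℝ, t ≠ T1 := by
      have := (countable_singleton T1).ae_notMem (volume : Measure ℝ)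
      filter_upwards [this] with t ht h
      exact ht h
    have hIA : ∫⁻ t, A t ≤ ENNReal.ofReal (13 / T1) := by
      rw [hA, lintegral_indicator hI0m]
      exact h6c_a he he2 h1 h2 hT
    have hIB : ∫⁻ t, B t = elam T1 α0 0 := by
      rw [hBd, lintegral_indicator measurableSet_Ioo]
      rfl
    have hIC : ∫⁻ t, Cc t ≤ elam T1 α0 0 := by
      rw [hCc, lintegral_indicator (measurableSet_Ioi.inter hI0m)]
      rcases hT with h | h
      · have h5 : ∫⁻ t in Ioi T1 ∩ {t : ℝ | 0 < t ∧ e0 < Real.exp (-t)}, ENNReal.ofReal (Real.exp (-2 * t)) ≤ 1 := by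
          calc ∫⁻ t in Ioi T1 ∩ {t : ℝ | 0 < t ∧ e0 < Real.exp (-t)}, ENNReal.ofReal (Real.exp (-2 * t))
              ≤ ∫⁻ t in Ioi (0 : ℝ), ENNReal.ofReal (Real.exp (-2 * t)) :=
                lintegral_mono_set (fun t ht => ht.2.1)
            _ = ENNReal.ofReal (∫ t in Ioi (0 : ℝ), Real.exp (-2 * t)) := by
                symm
                apply ofReal_integral_eq_lintegral_ofReal
                · exact integrableOn_exp_mul_Ioi (by norm_num) 0
                · exact Filter.Eventually.of_forall fun t => by positivity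
            _ ≤ 1 := by
                rw [integral_exp_mul_Ioi (by norm_num), ← ENNReal.ofReal_one]
                apply ENNReal.ofReal_le_ofReal
                simp
                norm_num
        rw [lintegral_mul_const _ (by fun_prop)]
        calc (∫⁻ t in Ioi T1 ∩ {t : ℝ | 0 < t ∧ e0 < Real.exp (-t)}, ENNReal.ofReal (Real.exp (-2 * t))) * E T1
            ≤ 1 * (ENNReal.ofReal (1 / T1) * elam T1 α0 0) := mul_le_mul' h5 hET
          _ = elam T1 α0 0 := by rw [h]; simp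
      · have h5 : Ioi T1 ∩ {t : ℝ | 0 < t ∧ e0 < Real.exp (-t)} = ∅ := by
          ext t
          constructor
          · rintro ⟨ha, _, hb⟩
            rw [h, Real.exp_lt_exp] at hb
            have : T1 < t := ha
            linarith
          · intro hx; exact absurd hx (notMem_empty t)
        rw [h5]; simp
    calc ∫⁻ t : ℝ, ∫⁻ θ : ℝ, P0.indicator D ⟨t, θ⟩
        ≤ ∫⁻ t : ℝ, ENNReal.ofReal (ρ0 ^ 2) * (A t + (Cc t + B t)) := by
          apply lintegral_mono_ae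
          filter_upwards [hae] with t ht
          exact hin t ht
      _ = ENNReal.ofReal (ρ0 ^ 2) * ((∫⁻ t, A t) + ((∫⁻ t, Cc t) + ∫⁻ t, B t)) := by
          rw [lintegral_const_mul' _ _ ENNReal.ofReal_ne_top, lintegral_add_left hAm, lintegral_add_left hCm]
      _ ≤ ENNReal.ofReal (ρ0 ^ 2) * (ENNReal.ofReal (13 / T1) + (elam T1 α0 0 + elam T1 α0 0)) := by
          rw [hIB]
          gcongr
      _ = ENNReal.ofReal (2 * ρ0 ^ 2) * elam T1 α0 0 + ENNReal.ofReal (13 * ρ0 ^ 2 / T1) := by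
          rw [mul_add, ← ENNReal.ofReal_mul (by positivity), add_comm, ← two_mul, ← mul_assoc,
            mul_comm (ENNReal.ofReal (ρ0 ^ 2)) 2, ← ENNReal.ofReal_ofNat 2,
            ← ENNReal.ofReal_mul (by norm_num)]
          congr 2
          ring
  have hfin0 : ∫⁻ z in P0, D z < ⊤ := by
    refine lt_of_le_of_lt hP0 ?_
    exact ENNReal.add_lt_top.mpr ⟨ENNReal.mul_lt_top ENNReal.ofReal_lt_top hfin, ENNReal.ofReal_lt_top⟩
  -- periodicity
  have hper : ∀ z : ℂ, 0 < z.re → f (z + 2 * Real.pi * I) = f z := by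
    intro z hz
    have r1 : (z + 2 * Real.pi * I).re = z.re := by simp
    have r2 : (z + 2 * Real.pi * I).im = z.im + 2 * Real.pi := by simp
    rw [hf]
    unfold pF
    rw [r1, r2, lam_per h1 hB (lt_min hz h1) (lt_of_le_of_lt (min_le_right _ _) (by linarith))]
    congr 2
    have h3 : I * ((lam T1 α0 (min z.re T1) z.im + 2 * Real.pi : ℝ) : ℂ) =
        I * ((lam T1 α0 (min z.re T1) z.im : ℝ) : ℂ) + 2 * Real.pi * I := by
      push_cast; ring
    rw [h3, exp_periodic]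
  have hDper : ∀ z : ℂ, 0 < z.re → D (z + 2 * Real.pi * I) = D z := by
    intro z hz
    have h3 : fderiv ℝ f (z + 2 * Real.pi * I) = fderiv ℝ f z := by
      rw [← fderiv_comp_add_right]
      apply Filter.EventuallyEq.fderiv_eq
      have hev : ∀ᶠ w : ℂ in 𝓝 z, 0 < w.re := continuous_re.continuousAt.eventually (lt_mem_nhds hz)
      filter_upwards [hev] with w hw
      exact hper w hw
    rw [hD]; simp only []
    rw [h3]
  have htr : ∀ S : Set ℂ, MeasurableSet S → (∀ z ∈ S, 0 < z.re) →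
      ∫⁻ z in (fun z : ℂ => z + 2 * Real.pi * I) ⁻¹' S, D z = ∫⁻ z in S, D z := by
    intro S hS hSr
    have hSm : MeasurableSet ((fun z : ℂ => z + 2 * Real.pi * I) ⁻¹' S) :=
      (measurable_add_const _) hS
    rw [← lintegral_indicator hSm, ← lintegral_indicator hS,
      ← lintegral_add_right_eq_self (S.indicator D) (2 * Real.pi * I)]
    apply lintegral_congr
    intro z
    by_cases hz : z + 2 * Real.pi * I ∈ S
    · have h4 : 0 < z.re := by
        have := hSr _ hz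
        simpa using this
      rw [indicator_of_mem hz, indicator_of_mem (show z ∈ (fun z : ℂ => z + 2 * Real.pi * I) ⁻¹' S from hz),
        hDper z h4]
    · rw [indicator_of_notMem hz, indicator_of_notMem
        (show z ∉ (fun z : ℂ => z + 2 * Real.pi * I) ⁻¹' S from hz)]
  have hpXt : ∀ z : ℂ, z ∈ pX e0 ↔ z + 2 * Real.pi * I ∈ pX e0 := by
    intro z
    have r1 : (z + 2 * Real.pi * I).re = z.re := by simp
    unfold pX
    simp only [mem_ofPred_eq, r1]
  have hpXt' : ∀ z : ℂ, z ∈ pX e0 ↔ z - 2 * Real.pi * I ∈ pX e0 := by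
    intro z
    have := hpXt (z - 2 * Real.pi * I)
    rw [sub_add_cancel] at this
    exact this.symm
  have hSN : ∀ N : ℕ, ∫⁻ z in pX e0 ∩ {z : ℂ | -(2 * Real.pi * (N + 1)) < z.im ∧ z.im ≤ 2 * Real.pi * (N + 1)},
      D z < ⊤ := by
    intro N
    induction N with
    | zero =>
      have hsub : pX e0 ∩ {z : ℂ | -(2 * Real.pi * ((0 : ℕ) + 1)) < z.im ∧ z.im ≤ 2 * Real.pi * ((0 : ℕ) + 1)} ⊆
          P0 ∪ (fun z : ℂ => z + 2 * Real.pi * I) ⁻¹' P0 := by
        rintro z ⟨hz1, hz2, hz3⟩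
        rw [Nat.cast_zero, zero_add, mul_one] at hz2 hz3
        by_cases h : 0 < z.im
        · left; exact ⟨hz1, h, hz3⟩
        · right
          have r2 : (z + 2 * Real.pi * I).im = z.im + 2 * Real.pi := by simp
          push Not at h
          refine ⟨(hpXt z).mp hz1, ?_, ?_⟩
          · rw [r2]; linarith
          · rw [r2]; linarith
      refine lt_of_le_of_lt (lintegral_mono_set hsub) (lt_of_le_of_lt (lintegral_union_le _ _ _) ?_)
      rw [htr P0 hP0m (fun z hz => hz.1.1)]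
      exact ENNReal.add_lt_top.mpr ⟨hfin0, hfin0⟩
    | succ N ih =>
      set S : Set ℂ := pX e0 ∩ {z : ℂ | -(2 * Real.pi * (N + 1)) < z.im ∧ z.im ≤ 2 * Real.pi * (N + 1)} with hS
      have hSm : MeasurableSet S := hstrip _ _
      set S' : Set ℂ := (fun z : ℂ => z - 2 * Real.pi * I) ⁻¹' S with hS'
      have hS'm : MeasurableSet S' := (measurable_sub_const _) hSm
      have hSS : (fun z : ℂ => z + 2 * Real.pi * I) ⁻¹' S' = S := by
        rw [hS', ← preimage_comp]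
        convert preimage_id using 2
        funext z
        simp
      have hN : (0 : ℝ) ≤ N := Nat.cast_nonneg N
      have hsub : pX e0 ∩ {z : ℂ | -(2 * Real.pi * ((N + 1 : ℕ) + 1)) < z.im ∧
          z.im ≤ 2 * Real.pi * ((N + 1 : ℕ) + 1)} ⊆
          (S ∪ (fun z : ℂ => z + 2 * Real.pi * I) ⁻¹' S) ∪ S' := by
        rintro z ⟨hz1, hz2, hz3⟩
        push_cast at hz2 hz3
        have r2 : (z + 2 * Real.pi * I).im = z.im + 2 * Real.pi := by simp
        have r3 : (z - 2 * Real.pi * I).im = z.im - 2 * Real.pi := by simp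
        by_cases ha : z.im ≤ -(2 * Real.pi * (N + 1))
        · left; right
          refine ⟨(hpXt z).mp hz1, ?_, ?_⟩
          · rw [r2]; nlinarith
          · rw [r2]; nlinarith
        · push Not at ha
          by_cases hb : z.im ≤ 2 * Real.pi * (N + 1)
          · left; left; exact ⟨hz1, ha, hb⟩
          · push Not at hb
            right
            refine ⟨(hpXt' z).mp hz1, ?_, ?_⟩
            · rw [r3]; nlinarith
            · rw [r3]; nlinarith
      refine lt_of_le_of_lt (lintegral_mono_set hsub) (lt_of_le_of_lt (lintegral_union_le _ _ _) ?_)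
      have h5 : ∫⁻ z in S', D z = ∫⁻ z in S, D z := by
        rw [← htr S' hS'm (fun z hz => by
          have : 0 < (z - 2 * Real.pi * I).re := hz.1.1
          simpa using this), hSS]
      rw [h5]
      refine ENNReal.add_lt_top.mpr ⟨lt_of_le_of_lt (lintegral_union_le _ _ _) ?_, ih⟩
      rw [htr S hSm (fun z hz => hz.1.1)]
      exact ENNReal.add_lt_top.mpr ⟨ih, ih⟩
  refine ⟨fun z => fderiv ℝ f z 1, fun z => fderiv ℝ f z I, fun R => ?_, ?_⟩
  · apply acl2_of_locallyLipschitz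
    · exact hXo.inter (isOpen_lt continuous_im.abs continuous_const)
    · intro z hz
      exact pF_lip h1 he1 hB hz.1.1
    · obtain ⟨N, hN⟩ := exists_nat_gt R
      have hsub : pX e0 ∩ {z : ℂ | |z.im| < R} ⊆
          pX e0 ∩ {z : ℂ | -(2 * Real.pi * (N + 1)) < z.im ∧ z.im ≤ 2 * Real.pi * (N + 1)} := by
        rintro z ⟨hz1, hz2⟩
        have h3 := abs_lt.mp (show |z.im| < R from hz2)
        have h4 : (N : ℝ) ≤ 2 * Real.pi * (N + 1) := by
          have h5 : (0 : ℝ) ≤ N := Nat.cast_nonneg N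
          nlinarith [Real.pi_gt_three]
        exact ⟨hz1, by linarith, by linarith⟩
      exact lt_of_le_of_lt (lintegral_mono_set hsub) (hSN N)
  · refine le_trans ?_ hP0
    apply lintegral_mono_set
    rintro z ⟨hz1, hz2, hz3⟩
    exact ⟨hz1, hz2, hz3.le⟩

end CF6

end

section

/-! # Module H, row H7: from the strip map to the cell

`A = dom Ω (ball q ρ0 \ {q}) {q} h = {x ∈ Ω | h x ∈ ball q ρ0}`, `S = ball q ρ0 \ {q}`, `S ∪ {q} = ball q ρ0`. `F x = Fh z` for a chosen `z ∈ X` with `ψ z = x` (`chart.image`); `F (ψ z) = Fh z` for all `z ∈ X` (`chart.inj`, `per` iterated over `ℤ`: `Xper`). `exists_push` gives `fx, fy` and the energy.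
`bij`: maps, injective (`Fh z = Fh w → w = z + 2πi n → ψ z = ψ w`), surjective.
`glue`: `x ∈ Ω`, `h x ∉ ball q ρ0`: `x ∉ A`, `x ∉ L`. The functions `Hb` and `G z = if re z = 0 then q + ρ0 exp (I α0 (im z)) else Fh z` are continuous on `{z | z ∈ X ∨ re z = 0}` and agree on `re z = 0` (`Hbd`), both are `2πi`-periodic on `X`; by compactness of `{θ I | 0 ≤ θ ≤ 2π}` there is `d > 0` with `‖Fh z - Hb z‖ < η` for `z ∈ X`, `re z < d`
(cf. `pt_near`). `chart_near` gives `δ` with: `z ∈ X`, `‖ψ z - x‖ < δ` imply `re z < d`; then `‖F (ψ z) - h (ψ z)‖ = ‖Fh z - Hb z‖ < η`.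
`proper`: `hend` gives `a` with `dist (Fh z) q < η` for `re z > a`; `chart_far` gives `κ` (`infDist w {q} = dist w q`). -/

open Complex MeasureTheory Set Filter Topology Metric
open scoped ENNReal

namespace CF6

theorem h7_trans {X A : Set ℂ} {ψ Fh : ℂ → ℂ} (hc : Chart X A ψ)
    (per : ∀ z ∈ X, Fh (z + 2 * Real.pi * I) = Fh z) (n : ℤ) :
    ∀ z ∈ X, Fh (z + n * (2 * Real.pi * I)) = Fh z := by
  induction n using Int.induction_on with
  | zero => intro z hz; simp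
  | succ k ih =>
    intro z hz
    have e : z + ((k + 1 : ℤ) : ℂ) * (2 * Real.pi * I) =
        (z + (k : ℤ) * (2 * Real.pi * I)) + 2 * Real.pi * I := by push_cast; ring
    rw [e, per _ (h2_trans hc k z hz).1, ih z hz]
  | pred k ih =>
    intro z hz
    have e : (z + ((-k - 1 : ℤ) : ℂ) * (2 * Real.pi * I)) + 2 * Real.pi * I =
        z + ((-k : ℤ) : ℂ) * (2 * Real.pi * I) := by push_cast; ring
    have h3 : z + ((-k - 1 : ℤ) : ℂ) * (2 * Real.pi * I) ∈ X := (h2_trans hc (-k - 1) z hz).1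
    rw [← per _ h3, e, ih z hz]

theorem h7_near {Ω A L : Set ℂ} {q : ℂ} {ρ0 : ℝ} {X : Set ℂ} {h ψ Hb Fh : ℂ → ℂ} {α0 : ℝ → ℝ}
    (hP : PointG Ω A L q ρ0 X h ψ Hb α0)
    (cF : ContinuousOn (fun z : ℂ => if z.re = 0 then q + ρ0 * exp (I * α0 z.im) else Fh z)
      {z | z ∈ X ∨ z.re = 0})
    (per : ∀ z ∈ X, Fh (z + 2 * Real.pi * I) = Fh z) {η : ℝ} (hη : 0 < η) :
    ∃ d > (0 : ℝ), ∀ z ∈ X, z.re < d → ‖Fh z - Hb z‖ < η := by
  have hre : ∀ z ∈ X, 0 < z.re := by
    intro z hz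
    rcases hP.Xf with ⟨T, _, hT⟩ | hX
    · rw [hT] at hz; exact hz.1
    · rw [hX] at hz; exact hz
  set G : ℂ → ℂ := fun z => if z.re = 0 then q + ρ0 * exp (I * α0 z.im) else Fh z with hG
  have hg : ContinuousOn (fun z => ‖G z - Hb z‖) {z | z ∈ X ∨ z.re = 0} :=
    (cF.sub hP.Hcont).norm
  obtain ⟨U, hU, hUe⟩ := (_root_.continuousOn_iff'.1 hg) (Iio η) isOpen_Iio
  have hK : IsCompact ((fun θ : ℝ => (θ : ℂ) * I) '' Icc 0 (2 * Real.pi)) :=
    isCompact_Icc.image (by fun_prop)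
  have hKU : (fun θ : ℝ => (θ : ℂ) * I) '' Icc 0 (2 * Real.pi) ⊆ U := by
    rintro _ ⟨θ, _, rfl⟩
    have h0 : ((θ : ℂ) * I).re = 0 := by simp
    have h0' : ((θ : ℂ) * I).im = θ := by simp
    have h2 : (θ : ℂ) * I ∈ (fun z => ‖G z - Hb z‖) ⁻¹' Iio η ∩ {z : ℂ | z ∈ X ∨ z.re = 0} := by
      refine ⟨?_, Or.inr h0⟩
      show ‖G ((θ : ℂ) * I) - Hb ((θ : ℂ) * I)‖ < η
      have h3 : G ((θ : ℂ) * I) = q + ρ0 * exp (I * α0 θ) := by
        rw [hG]
        simp only [h0, h0', if_true]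
      rw [hP.Hbd θ, h3, sub_self, norm_zero]
      exact hη
    rw [hUe] at h2
    exact h2.1
  obtain ⟨δ, hδ, hδU⟩ := hK.exists_thickening_subset_open hU hKU
  have key : ∀ z ∈ X, z.re < δ → z.im ∈ Icc 0 (2 * Real.pi) → ‖Fh z - Hb z‖ < η := by
    intro z hz hzd hzi
    have h1 : z ∈ thickening δ ((fun θ : ℝ => (θ : ℂ) * I) '' Icc 0 (2 * Real.pi)) := by
      rw [mem_thickening_iff]
      refine ⟨(z.im : ℂ) * I, ⟨z.im, hzi, rfl⟩, ?_⟩
      rw [Complex.dist_eq]
      have : z - (z.im : ℂ) * I = (z.re : ℂ) := by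
        apply Complex.ext <;> simp
      rw [this, Complex.norm_real, Real.norm_eq_abs, abs_of_pos (hre z hz)]
      exact hzd
    have h2 : z ∈ U ∩ {z : ℂ | z ∈ X ∨ z.re = 0} := ⟨hδU h1, Or.inl hz⟩
    rw [← hUe] at h2
    have h3 : ‖G z - Hb z‖ < η := h2.1
    have h4 : G z = Fh z := by
      rw [hG]; simp only [(hre z hz).ne', if_false]
    rwa [h4] at h3
  refine ⟨δ, hδ, fun z hz hzd => ?_⟩
  set n : ℤ := -⌊z.im / (2 * Real.pi)⌋ with hn
  have hpi : (0 : ℝ) < 2 * Real.pi := by positivity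
  obtain ⟨h1, h2⟩ := h2_trans hP.chart n z hz
  have h3 := h7_trans hP.chart per n z hz
  have hr : (z + n * (2 * Real.pi * I)).re = z.re := by simp
  have hi : (z + n * (2 * Real.pi * I)).im = z.im + n * (2 * Real.pi) := by simp
  have hb : (z + n * (2 * Real.pi * I)).im ∈ Icc 0 (2 * Real.pi) := by
    rw [hi, hn]
    push_cast
    have e1 := Int.floor_le (z.im / (2 * Real.pi))
    have e2 := (Int.lt_floor_add_one (z.im / (2 * Real.pi))).le
    rw [le_div_iff₀ hpi] at e1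
    rw [div_le_iff₀ hpi] at e2
    constructor <;> linarith
  have h4 := key _ h1 (by rw [hr]; exact hzd) hb
  rw [h3, hP.Heq _ h1, h2, ← hP.Heq _ hz] at h4
  exact h4

theorem cellOut_point {Ω Ωs L : Set ℂ} {q : ℂ} {ρ0 : ℝ} {X : Set ℂ} {h ψ Hb Fh Fx Fy : ℂ → ℂ}
    {α0 : ℝ → ℝ} (hP : PointG Ω (dom Ω (ball q ρ0 \ {q}) {q} h) L q ρ0 X h ψ Hb α0)
    (hO : IsOpen Ω) (Lcl : IsClosed L) (Lne : L.Nonempty) (LO : Disjoint L Ω)
    (hcont : ContinuousOn h Ω) (Ss : ball q ρ0 \ {q} ⊆ Ωs)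
    (cF : ContinuousOn (fun z : ℂ => if z.re = 0 then q + ρ0 * exp (I * α0 z.im) else Fh z)
      {z | z ∈ X ∨ z.re = 0})
    (per : ∀ z ∈ X, Fh (z + 2 * Real.pi * I) = Fh z)
    (maps : ∀ z ∈ X, Fh z ∈ ball q ρ0 \ {q})
    (inj : ∀ z ∈ X, ∀ w ∈ X, Fh z = Fh w → ∃ n : ℤ, w = z + n * (2 * Real.pi * I))
    (surj : ∀ y ∈ ball q ρ0 \ {q}, ∃ z ∈ X, Fh z = y)
    (hend : ∀ η > (0 : ℝ), ∃ a : ℝ, (a : ℂ) ∈ X ∧ ∀ z ∈ X, a < z.re → dist (Fh z) q < η)
    (acl : ∀ R : ℝ, ACL2 (X ∩ {z | |z.im| < R}) Fh Fx Fy) :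
    ∃ F fx fy : ℂ → ℂ,
      CellOut Ω Ωs {q} L h (en (per1 X) Fx Fy) (ball q ρ0 \ {q}) F fx fy := by
  classical
  set A : Set ℂ := dom Ω (ball q ρ0 \ {q}) {q} h with hAdef
  have ch := hP.chart
  have hAO : A ⊆ Ω := fun x hx => hx.1
  have hSq : (ball q ρ0 \ {q}) ∪ {q} = ball q ρ0 := by
    ext w
    constructor
    · rintro (hw | hw)
      · exact hw.1
      · rw [mem_singleton_iff.1 hw]; exact mem_ball_self hP.pos
    · intro hw
      by_cases hq : w = q
      · exact Or.inr hq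
      · exact Or.inl ⟨hw, hq⟩
  have hSo : IsOpen (ball q ρ0 \ {q}) := isOpen_ball.sdiff isClosed_singleton
  have hAopen : IsOpen A := by
    have : A = Ω ∩ h ⁻¹' ((ball q ρ0 \ {q}) ∪ {q}) := by ext x; rfl
    rw [this, hSq]
    exact hcont.isOpen_inter_preimage hO isOpen_ball
  have hψA : ∀ z ∈ X, ψ z ∈ A := fun z hz => by rw [← ch.image]; exact mem_image_of_mem ψ hz
  have hch : ∀ x : ℂ, ∃ z : ℂ, x ∈ A → z ∈ X ∧ ψ z = x := by
    intro x
    by_cases hx : x ∈ A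
    · have hx' := hx
      rw [← ch.image] at hx'
      obtain ⟨z, hz, rfl⟩ := hx'
      exact ⟨z, fun _ => ⟨hz, rfl⟩⟩
    · exact ⟨0, fun h => absurd h hx⟩
  choose ζ hζ using hch
  set F : ℂ → ℂ := fun x => Fh (ζ x) with hF
  have hshift : ∀ z w : ℂ, z ∈ X → w ∈ X → ψ z = ψ w → Fh z = Fh w := by
    intro z w hz hw he
    obtain ⟨n, hn⟩ := ch.inj z hz w hw he
    rw [hn, h7_trans ch per n z hz]
  have hFψ : ∀ z ∈ X, F (ψ z) = Fh z := by
    intro z hz
    obtain ⟨h1, h2⟩ := hζ (ψ z) (hψA z hz)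
    exact hshift _ _ h1 hz h2
  obtain ⟨fx, fy, hacl, hen⟩ := exists_push (F := Fh) (f := F) ch hAopen hFψ acl
  refine ⟨F, fx, fy, hSo, Ss, by rw [hSq]; exact isOpen_ball, ⟨?_, ?_, ?_⟩, hacl, hen.le, ?_, ?_⟩
  · intro x hx
    obtain ⟨h1, h2⟩ := hζ x hx
    exact maps _ h1
  · intro x hx x' hx' he
    obtain ⟨h1, h2⟩ := hζ x hx
    obtain ⟨h1', h2'⟩ := hζ x' hx'
    have he' : Fh (ζ x) = Fh (ζ x') := he
    obtain ⟨m, hm⟩ := inj _ h1 _ h1' he'
    rw [← h2, ← h2', hm, (h2_trans ch m _ h1).2]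
  · intro w hw
    obtain ⟨z, hz, hzw⟩ := surj w hw
    exact ⟨ψ z, hψA _ hz, by rw [hFψ _ hz, hzw]⟩
  · intro x hx hxn η hη
    have hxA : x ∉ A := fun h => hxn h.2
    have hxL : x ∉ L := fun h => (Set.disjoint_left.1 LO) h hx
    obtain ⟨d, hd, hnear⟩ := h7_near hP cF per hη
    obtain ⟨δ, hδ, hδ'⟩ := chart_near hP.Xf ch Lcl Lne hP.tendL hxA hxL d hd
    refine ⟨δ, hδ, ?_⟩
    intro y hy hyx
    obtain ⟨h1, h2⟩ := hζ y hy
    have h3 : (ζ y).re < d := hδ' _ h1 (by rw [h2]; exact hyx)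
    have h4 := hnear _ h1 h3
    rw [hP.Heq _ h1, h2] at h4
    exact h4
  · intro η hη
    obtain ⟨a, ha, hae⟩ := hend η hη
    obtain ⟨κ, hκ, hκ'⟩ := chart_far hP.Xf ch hAO Lcl Lne LO hP.cpt a ha
    refine ⟨κ, hκ, ?_⟩
    intro x hx hxL
    obtain ⟨h1, h2⟩ := hζ x hx
    have h3 := hκ' _ h1 (by rw [h2]; exact hxL)
    rw [infDist_singleton]
    exact hae _ h1 h3

end CF6

end

section

/-! # Module H, row H8: the energy near a fibre is small

`en_fibre_zero`: `Sob.ae_zero` (K/S10b.lean, real valued functions) for `re (h - q)` and `im (h - q)` (`ACL2.sob`, composition with the continuous linear maps `re`, `im` and subtraction of a constant: see the `Sob` lemmas in K, e.g. `Sob.clm`/`Sob.sub`): a.e. on `{h = q}` all derivatives vanish, so `hx = hy = 0` a.e. there.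
`en_ball_small`: the sets `E n = {x ∈ Ω | h x ∈ ball q (1/(n+1))}` are measurable (open), decreasing, with intersection `{x ∈ Ω | h x = q}`; the measure `E ↦ ∫⁻ z in E ∩ Ω, (‖hx z‖ₑ² + ‖hy z‖ₑ²)` (`volume.restrict Ω`.withDensity, finite by `ha.fin`) is continuous from above: `en (E n) hx hy → en {h = q} hx hy = 0`. -/

open Complex MeasureTheory Set Filter Topology Metric
open scoped ENNReal

namespace CF6

theorem h8_meas {Ω : Set ℂ} {h : ℂ → ℂ} (hO : IsOpen Ω) (hc : ContinuousOn h Ω) (q : ℂ) :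
    MeasurableSet {x | x ∈ Ω ∧ h x = q} := by
  have h1 : {x | x ∈ Ω ∧ h x = q} = Ω \ (Ω ∩ h ⁻¹' {q}ᶜ) := by
    ext x
    simp only [mem_setOf_eq, mem_diff, mem_inter_iff, mem_preimage, mem_compl_iff,
      mem_singleton_iff, not_and, not_not]
    constructor
    · rintro ⟨a, b⟩
      exact ⟨a, fun _ => b⟩
    · rintro ⟨a, b⟩
      exact ⟨a, b a⟩
  rw [h1]
  exact hO.measurableSet.diff (hc.isOpen_inter_preimage hO isOpen_compl_singleton).measurableSet

theorem en_fibre_zero {Ω : Set ℂ} {h hx hy : ℂ → ℂ} (hO : IsOpen Ω) (ha : ACL2 Ω h hx hy)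
    (q : ℂ) : en {x | x ∈ Ω ∧ h x = q} hx hy = 0 := by
  have hs : Sob Ω h hx hy := ha.sob hO
  have hq0 : Sob Ω (fun _ : ℂ => q) (fun z => fderiv ℝ (fun _ : ℂ => q) z 1)
      (fun z => fderiv ℝ (fun _ : ℂ => q) z Complex.I) :=
    sob_of_contDiffOn hO contDiffOn_const
  have hsub := hs.sub hq0
  have hre := (hsub.clm Complex.reCLM).ae_zero hO
  have him := (hsub.clm Complex.imCLM).ae_zero hO
  have hm := h8_meas hO ha.cont q
  unfold en
  have hz : ∀ᵐ z ∂(volume.restrict {x | x ∈ Ω ∧ h x = q}),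
      (‖hx z‖ₑ ^ 2 + ‖hy z‖ₑ ^ 2 : ℝ≥0∞) = 0 := by
    rw [ae_restrict_iff' hm]
    filter_upwards [hre, him] with z h1 h2 hz
    obtain ⟨hzO, hzq⟩ := hz
    simp only [Complex.reCLM_apply, Complex.imCLM_apply, fderiv_fun_const, Pi.zero_apply,
      ContinuousLinearMap.zero_apply, sub_zero, Complex.sub_re, Complex.sub_im] at h1 h2
    rw [hzq, sub_self] at h1 h2
    obtain ⟨a1, a2⟩ := h1 hzO rfl
    obtain ⟨b1, b2⟩ := h2 hzO rfl
    have e1 : hx z = 0 := Complex.ext a1 b1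
    have e2 : hy z = 0 := Complex.ext a2 b2
    rw [e1, e2]
    simp
  rw [lintegral_congr_ae hz]
  simp

theorem en_ball_small {Ω : Set ℂ} {h hx hy : ℂ → ℂ} (hO : IsOpen Ω) (ha : ACL2 Ω h hx hy)
    (q : ℂ) {δ : ℝ} (hδ : 0 < δ) :
    ∃ y > (0 : ℝ), ∀ ρ0 : ℝ, ρ0 ≤ y →
      en {x | x ∈ Ω ∧ h x ∈ ball q ρ0} hx hy ≤ ENNReal.ofReal δ := by
  set g : ℂ → ℝ≥0∞ := fun z => ‖hx z‖ₑ ^ 2 + ‖hy z‖ₑ ^ 2 with hg
  set E : ℕ → Set ℂ := fun n => {x | x ∈ Ω ∧ h x ∈ ball q (1 / ((n : ℝ) + 1))} with hE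
  set ν : Measure ℂ := volume.withDensity g with hν
  have hEm : ∀ n, MeasurableSet (E n) := by
    intro n
    have h1 : E n = Ω ∩ h ⁻¹' ball q (1 / ((n : ℝ) + 1)) := rfl
    rw [h1]
    exact (ha.cont.isOpen_inter_preimage hO isOpen_ball).measurableSet
  have hνE : ∀ n, ν (E n) = en (E n) hx hy := fun n => withDensity_apply g (hEm n)
  have hanti : Antitone E := by
    intro m n hmn x hx'
    refine ⟨hx'.1, ball_subset_ball ?_ hx'.2⟩
    apply one_div_le_one_div_of_le (by positivity)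
    have : (m : ℝ) ≤ n := by exact_mod_cast hmn
    linarith
  have hfin : ν (E 0) ≠ ⊤ := by
    rw [hνE]
    apply ne_of_lt
    calc en (E 0) hx hy ≤ en Ω hx hy := lintegral_mono_set (fun x hx' => hx'.1)
      _ < ⊤ := ha.fin
  have hint : ⋂ n, E n = {x | x ∈ Ω ∧ h x = q} := by
    ext x
    simp only [mem_iInter, mem_setOf_eq]
    constructor
    · intro hx'
      refine ⟨(hx' 0).1, ?_⟩
      by_contra hne
      have hpos : 0 < dist (h x) q := dist_pos.2 hne
      obtain ⟨N, hN⟩ := exists_nat_one_div_lt hpos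
      have h2 : dist (h x) q < 1 / ((N : ℝ) + 1) := (hx' N).2
      linarith
    · rintro ⟨h1, h2⟩ n
      refine ⟨h1, ?_⟩
      rw [h2]
      exact mem_ball_self (by positivity)
  have htend := tendsto_measure_iInter_atTop (μ := ν) (fun n => (hEm n).nullMeasurableSet) hanti
    ⟨0, hfin⟩
  rw [hint] at htend
  have hz : ν {x | x ∈ Ω ∧ h x = q} = 0 := by
    have h1 : ν {x | x ∈ Ω ∧ h x = q} = en {x | x ∈ Ω ∧ h x = q} hx hy :=
      withDensity_apply g (h8_meas hO ha.cont q)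
    rw [h1]
    exact en_fibre_zero hO ha q
  rw [hz] at htend
  have hδ' : (0 : ℝ≥0∞) < ENNReal.ofReal δ := ENNReal.ofReal_pos.2 hδ
  have hev := (htend.eventually (gt_mem_nhds hδ')).exists
  obtain ⟨n, hn⟩ := hev
  refine ⟨1 / ((n : ℝ) + 1), by positivity, ?_⟩
  intro ρ0 hρ
  have h3 : en {x | x ∈ Ω ∧ h x ∈ ball q ρ0} hx hy ≤ en (E n) hx hy :=
    lintegral_mono_set (fun x hx' => ⟨hx'.1, ball_subset_ball hρ hx'.2⟩)
  refine h3.trans ?_
  rw [← hνE]
  exact hn.le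

end CF6

end

section

/-! # Module H: the cell of a point component (assembly) -/

open Complex MeasureTheory Set Filter Topology Metric
open scoped ENNReal

namespace CF6

theorem punct_ball_conn (q : ℂ) (ρ0 : ℝ) : IsPreconnected (ball q ρ0 \ {q}) := by
  have h1 : ball q ρ0 \ {q} = pol q '' {u : ℂ | 0 < u.im ∧ u.im < ρ0} := by
    ext y
    constructor
    · rintro ⟨hy, hyq⟩
      have hyq' : y - q ≠ 0 := sub_ne_zero.2 hyq
      have hn : 0 < ‖y - q‖ := norm_pos_iff.2 hyq'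
      refine ⟨⟨(y - q).arg, ‖y - q‖⟩, ⟨hn, ?_⟩, ?_⟩
      · rw [mem_ball, dist_eq_norm] at hy
        exact hy
      · unfold pol
        have := Complex.norm_mul_exp_arg_mul_I (y - q)
        change q + (‖y - q‖ : ℂ) * exp (I * ((y - q).arg : ℂ)) = y
        rw [mul_comm I, this]
        ring
    · rintro ⟨u, ⟨h0, h1⟩, rfl⟩
      have hn : ‖(u.im : ℂ) * exp (I * u.re)‖ = u.im := by
        rw [norm_mul, Complex.norm_real, Real.norm_of_nonneg h0.le, mul_comm I,
          Complex.norm_exp_ofReal_mul_I, mul_one]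
      constructor
      · rw [mem_ball, dist_eq_norm]
        unfold pol
        rw [add_sub_cancel_left, hn]
        exact h1
      · intro h
        rw [mem_singleton_iff] at h
        unfold pol at h
        have : (u.im : ℂ) * exp (I * u.re) = 0 := by
          have := congrArg (fun z => z - q) h
          simpa using this
        rw [this, norm_zero] at hn
        exact h0.ne hn
  rw [h1]
  have hc : Convex ℝ {u : ℂ | 0 < u.im ∧ u.im < ρ0} := by
    have e : {u : ℂ | 0 < u.im ∧ u.im < ρ0} = Complex.imLm ⁻¹' Ioo 0 ρ0 := rfl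
    rw [e]
    exact (convex_Ioo 0 ρ0).linear_preimage _
  refine hc.isPreconnected.image _ ?_
  unfold pol
  fun_prop

theorem pX_strip {T : ℝ} : pX (Real.exp (-T)) = strip T := by
  ext z
  simp only [pX, strip, mem_setOf_eq, Real.exp_lt_exp, neg_lt_neg_iff]

theorem pX_rhp : pX 0 = rhp := by
  ext z
  simp only [pX, rhp, mem_setOf_eq, Real.exp_pos, and_true]

theorem cell_point {k : ℕ} {Ω Ωs : Set ℂ} {L K : Fin k → Set ℂ} {h hx hy : ℂ → ℂ}
    {hj : ℕ → ℂ → ℂ} (H : Approx Ω Ωs L K h hj) (ha : ACL2 Ω h hx hy) (i : Fin k) {q : ℂ}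
    (hq : K i = {q}) (ε : ℝ) (hε : 0 < ε) (r : ℝ) (hr : 0 < r) :
    ∃ (S : Set ℂ) (F fx fy : ℂ → ℂ),
      CellOut Ω Ωs (K i) (L i) h (ENNReal.ofReal ε) S F fx fy ∧ ∀ w ∈ S, infDist w (K i) < r := by
  have hO := H.dom.isOpen
  have hcont := H.cont
  obtain ⟨y2, hy2, key⟩ := exists_pointG H ha i hq
  obtain ⟨y, hy0, hysm⟩ := en_ball_small hO ha q (δ := ε / 4000) (by positivity)
  obtain ⟨ρ0, hρ, hρ1, hρ2, hρ3, hρ4, hρ5⟩ : ∃ ρ0 : ℝ, 0 < ρ0 ∧ ρ0 ≤ y2 ∧ ρ0 ≤ y ∧ ρ0 ≤ r ∧ ρ0 ≤ 1 ∧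
      ρ0 ≤ ε / 200 := by
    refine ⟨min y2 (min y (min r (min 1 (ε / 200)))), by positivity, min_le_left _ _, ?_, ?_, ?_, ?_⟩
    · exact (min_le_right _ _).trans (min_le_left _ _)
    · exact (min_le_right _ _).trans ((min_le_right _ _).trans (min_le_left _ _))
    · exact (min_le_right _ _).trans ((min_le_right _ _).trans ((min_le_right _ _).trans
        (min_le_left _ _)))
    · exact (min_le_right _ _).trans ((min_le_right _ _).trans ((min_le_right _ _).trans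
        (min_le_right _ _)))
  obtain ⟨hball, X, ψ, Hb, α0, hP⟩ := key ρ0 hρ hρ1
  rw [hq] at hP
  set A := dom Ω (ball q ρ0 \ {q}) {q} h with hAdef
  have hAeq : A = {x | x ∈ Ω ∧ h x ∈ ball q ρ0} := by
    ext x
    simp only [hAdef, dom, mem_setOf_eq]
    rw [diff_union_self, union_eq_left.2 (singleton_subset_iff.2 (mem_ball_self hρ))]
  have hAO : A ⊆ Ω := fun x hx => hx.1
  have hAopen : IsOpen A := by
    rw [hAeq]
    exact hcont.isOpen_inter_preimage hO isOpen_ball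
  have hSs : ball q ρ0 \ {q} ⊆ Ωs := fun w hw => hball ⟨ball_subset_closedBall hw.1, hw.2⟩
  have hqs : q ∉ Ωs := by
    have h1 : q ∈ ⋃ i, K i := mem_iUnion.2 ⟨i, by rw [hq]; rfl⟩
    rw [H.tgt.union] at h1
    exact h1
  have hconnA : IsPreconnected {x | x ∈ A ∧ h x ≠ q} := by
    have h1 := H.mc (B := ball q ρ0 \ {q}) (isOpen_ball.sdiff isClosed_singleton)
      (punct_ball_conn q ρ0) hSs
    convert h1 using 1
    ext x
    rw [hAeq]
    constructor
    · rintro ⟨⟨h1, h2⟩, h3⟩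
      exact ⟨h1, h2, h3⟩
    · rintro ⟨h1, h2, h3⟩
      exact ⟨⟨h1, h2⟩, h3⟩
  have conn := pt_conn hP hconnA
  obtain ⟨α, cα, hα, hα0, hαp⟩ := pt_angle hP hAO conn (fun j => (H.homeo j).1)
    (fun j x hx e => hqs (e ▸ (H.homeo j).2.1.mapsTo hx)) H.lim
  have hB : QP (2 * Real.pi) α0 := ⟨hP.acont, hP.amono, hP.aper⟩
  have henA : en A hx hy ≤ ENNReal.ofReal (ε / 4000) := by
    rw [hAeq]
    exact hysm ρ0 hρ2
  -- the parameters
  have hnear : ∀ η > (0 : ℝ), ∃ κ > (0 : ℝ), ∀ x ∈ Ω, infDist x (L i) < κ → dist (h x) q < η := by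
    intro η hη
    obtain ⟨κ, hκ, j0, h1⟩ := H.ends (η / 2) (by positivity)
    refine ⟨κ, hκ, fun x hx hxL => ?_⟩
    have := (h1 i x hx hxL).2
    rw [hq, infDist_singleton] at this
    linarith
  obtain ⟨e0, T1, he, hX, he2, h1, h2, hT, hsub, hbound⟩ : ∃ e0 T1 : ℝ, 0 ≤ e0 ∧ X = pX e0 ∧
      e0 ≤ Real.exp (-T1) ∧ 0 < T1 ∧ T1 ≤ 1 ∧ (T1 = 1 ∨ e0 = Real.exp (-T1)) ∧ strip T1 ⊆ X ∧
      ENNReal.ofReal (13 * ρ0 ^ 2 / T1) ≤ ENNReal.ofReal (13 * ρ0 ^ 2) + 3 * en A hx hy := by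
    rcases hP.Xf with ⟨T, hT, hXT⟩ | hXr
    · rcases le_or_gt T 1 with hT1 | hT1
      · refine ⟨Real.exp (-T), T, (Real.exp_pos _).le, by rw [hXT, pX_strip], le_rfl, hT, hT1,
          Or.inr rfl, by rw [hXT], ?_⟩
        rw [hXT] at hP
        have h5 := pt_vertical hT hP hAopen hAO ha hnear
        have hpi := Real.pi_gt_three
        have h6 : ENNReal.ofReal (13 * ρ0 ^ 2 / T) ≤ ENNReal.ofReal (3 / T) *
            ENNReal.ofReal (2 * Real.pi * ρ0 ^ 2) := by
          rw [← ENNReal.ofReal_mul (by positivity)]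
          apply ENNReal.ofReal_le_ofReal
          rw [div_mul_eq_mul_div, div_le_div_iff_of_pos_right hT]
          nlinarith [sq_nonneg ρ0, hpi]
        have h7 : ENNReal.ofReal (3 / T) * (ENNReal.ofReal T * en A hx hy) = 3 * en A hx hy := by
          rw [← mul_assoc, ← ENNReal.ofReal_mul (by positivity)]
          congr 1
          rw [div_mul_cancel₀ _ hT.ne']
          norm_num
        calc ENNReal.ofReal (13 * ρ0 ^ 2 / T) ≤ ENNReal.ofReal (3 / T) *
            ENNReal.ofReal (2 * Real.pi * ρ0 ^ 2) := h6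
          _ ≤ ENNReal.ofReal (3 / T) * (ENNReal.ofReal T * en A hx hy) := by gcongr
          _ = 3 * en A hx hy := h7
          _ ≤ _ := le_add_self
      · refine ⟨Real.exp (-T), 1, (Real.exp_pos _).le, by rw [hXT, pX_strip], ?_, one_pos, le_rfl,
          Or.inl rfl, ?_, ?_⟩
        · exact Real.exp_le_exp.2 (by linarith)
        · rw [hXT]
          exact fun z hz => ⟨hz.1, hz.2.trans hT1⟩
        · rw [div_one]
          exact le_self_add
    · refine ⟨0, 1, le_rfl, by rw [hXr, pX_rhp], (Real.exp_pos _).le, one_pos, le_rfl,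
          Or.inl rfl, ?_, ?_⟩
      · rw [hXr]
        exact fun z hz => hz.1
      · rw [div_one]
        exact le_self_add
  have he1 : e0 < 1 := lt_of_le_of_lt he2 (by rw [Real.exp_lt_one_iff]; linarith)
  have helam := pt_elam hP hAopen hAO ha cα hα hα0 hαp h1 hsub
  have hfin : elam T1 α0 0 < ⊤ := by
    refine lt_of_le_of_lt helam ?_
    refine ENNReal.add_lt_top.2 ⟨ENNReal.mul_lt_top ENNReal.ofReal_lt_top
      (lt_of_le_of_lt henA ENNReal.ofReal_lt_top), ENNReal.ofReal_lt_top⟩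
  obtain ⟨Fx, Fy, hacl, hen⟩ := pF_energy (q := q) hρ he he2 h1 h2 hT hB hfin
  have hLe := H.dom.closed i
  have hLn := (H.dom.cconn i).nonempty
  have hLO : Disjoint (L i) Ω := by
    rw [Set.disjoint_left]
    intro x hx hxO
    have h1 : x ∈ ⋃ i, L i := mem_iUnion.2 ⟨i, hx⟩
    rw [H.dom.union] at h1
    exact h1 hxO
  obtain ⟨F, fx, fy, hF⟩ := cellOut_point (Ωs := Ωs) (Fh := pF q ρ0 e0 T1 α0) (Fx := Fx) (Fy := Fy)
    hP hO hLe hLn hLO hcont hSs ((pF_cont h1 he1 hB).mono (by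
      rintro z (hz | hz)
      · rw [hX] at hz
        exact hz.1.le
      · exact hz.ge))
    (fun z hz => pF_per h1 hB (by rw [hX] at hz; exact hz.1))
    (fun z hz => pF_maps hρ he he1 (by rw [hX] at hz; exact hz))
    (fun z hz w hw => pF_inj hρ he he1 h1 hB (by rw [hX] at hz; exact hz) (by rw [hX] at hw; exact hw))
    (fun y hy' => by rw [hX]; exact pF_surj hρ he he1 h1 hB hy')
    (fun η hη => by rw [hX]; exact pF_end hρ he he1 hη)
    (fun R => by rw [hX]; exact hacl R)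
  refine ⟨ball q ρ0 \ {q}, F, fx, fy, ?_, ?_⟩
  · rw [hq]
    refine ⟨hF.Sopen, hF.Ssub, hF.SK, hF.bij, hF.acl, hF.energy.trans ?_, hF.glue, hF.proper⟩
    rw [hX]
    refine hen.trans ?_
    have hpi := Real.pi_lt_d2
    have h40 : ENNReal.ofReal (2 * ρ0 ^ 2) * elam T1 α0 0 ≤ 1600 * en A hx hy +
        ENNReal.ofReal (26 * ρ0 ^ 2) := by
      calc ENNReal.ofReal (2 * ρ0 ^ 2) * elam T1 α0 0 ≤ ENNReal.ofReal (2 * ρ0 ^ 2) *
          (ENNReal.ofReal (800 / ρ0 ^ 2) * en A hx hy + ENNReal.ofReal (4 * Real.pi * T1)) := by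
            gcongr
        _ = ENNReal.ofReal (2 * ρ0 ^ 2) * ENNReal.ofReal (800 / ρ0 ^ 2) * en A hx hy +
            ENNReal.ofReal (2 * ρ0 ^ 2) * ENNReal.ofReal (4 * Real.pi * T1) := by ring
        _ = 1600 * en A hx hy + ENNReal.ofReal (8 * Real.pi * ρ0 ^ 2 * T1) := by
            rw [← ENNReal.ofReal_mul (by positivity), ← ENNReal.ofReal_mul (by positivity)]
            congr 2
            · have : 2 * ρ0 ^ 2 * (800 / ρ0 ^ 2) = 1600 := by
                field_simp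
                norm_num
              rw [this]
              norm_num
            · ring_nf
        _ ≤ _ := by
            refine add_le_add le_rfl (ENNReal.ofReal_le_ofReal ?_)
            have h8 : 8 * Real.pi * T1 ≤ 26 := by nlinarith [Real.pi_pos]
            nlinarith [mul_le_mul_of_nonneg_left h8 (sq_nonneg ρ0)]
    calc ENNReal.ofReal (2 * ρ0 ^ 2) * elam T1 α0 0 + ENNReal.ofReal (13 * ρ0 ^ 2 / T1) ≤
        (1600 * en A hx hy + ENNReal.ofReal (26 * ρ0 ^ 2)) +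
          (ENNReal.ofReal (13 * ρ0 ^ 2) + 3 * en A hx hy) := add_le_add h40 hbound
      _ = 1603 * en A hx hy + (ENNReal.ofReal (26 * ρ0 ^ 2) + ENNReal.ofReal (13 * ρ0 ^ 2)) := by
          ring
      _ ≤ 1603 * ENNReal.ofReal (ε / 4000) +
          (ENNReal.ofReal (26 * ρ0 ^ 2) + ENNReal.ofReal (13 * ρ0 ^ 2)) := by gcongr
      _ = ENNReal.ofReal (1603 * (ε / 4000) + (26 * ρ0 ^ 2 + 13 * ρ0 ^ 2)) := by
          rw [ENNReal.ofReal_add (by positivity) (by positivity),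
            ENNReal.ofReal_add (by positivity) (by positivity),
            ENNReal.ofReal_mul (p := 1603) (by norm_num)]
          norm_num
      _ ≤ ENNReal.ofReal ε := by
          apply ENNReal.ofReal_le_ofReal
          nlinarith
  · intro w hw
    rw [hq, infDist_singleton]
    exact lt_of_lt_of_le hw.1 hρ3
end CF6

end
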