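import Pool.Agent.Lib.MP_cf6b16_an.K1
import Pool.Agent.Lib.MP_cf6b16_an.K2
import Pool.Agent.Lib.MP_cf6b16_an.K3
import Pool.Agent.Lib.MP_cf6b16_an.K4
import Pool.Agent.Lib.MP_cf6b16_an.K5
import Pool.Agent.Lib.MP_cf6b16_an.K6

section

set_option autoImplicit false

open MeasureTheory Metric Set Filter Topology
open scoped ContDiff ENNReal ComplexConjugate

namespace CF6

/-- T3. The preimage of a disc has no holes. -/
theorem PMap.noHole {U V : Set ℂ} {F : ℂ → ℂ} (h : PMap U V F) (hU : IsOpen U) (hV : IsOpen V)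
    (hVc : IsConnected V) {c : ℂ} {r : ℝ} (hr : 0 < r) (hQ : closedBall c r ⊆ V) :
    ∀ A B : Set ℂ, IsCompact B → IsClosed A → Disjoint A B → A ∪ B = (U ∩ F ⁻¹' ball c r)ᶜ → B = ∅ := by
  intro A B hB hA hdis hAB
  have hZ : IsCompact (U ∩ F ⁻¹' closedBall c r) := h.proper _ hQ (isCompact_closedBall c r)
  set W : Set ℂ := U ∩ F ⁻¹' ball c r with hW
  have hWZ : closure W ⊆ U ∩ F ⁻¹' closedBall c r := by
    apply closure_minimal _ hZ.isClosed
    rintro x ⟨hx, hx2⟩
    exact ⟨hx, ball_subset_closedBall hx2⟩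
  have hclWc : IsCompact (closure W) := hZ.of_isClosed_subset isClosed_closure hWZ
  have hDeq : U \ W = U ∩ F ⁻¹' (V \ ball c r) := by
    ext x
    constructor
    · rintro ⟨hx, hx2⟩
      exact ⟨hx, h.maps hx, fun hb => hx2 ⟨hx, hb⟩⟩
    · rintro ⟨hx, -, hx2⟩
      exact ⟨hx, fun hw => hx2 hw.2⟩
  have hDconn : IsPreconnected (U \ W) := by
    rw [hDeq]
    exact (h.preimage_connected (isConnected_diff_ball hV hVc hr hQ) sdiff_subset).isPreconnected
  have hDsub : U \ W ⊆ A ∪ B := by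
    rw [hAB]
    exact fun x hx => hx.2
  have hAW : Disjoint A W := by
    rw [Set.disjoint_left]
    intro x hx hxw
    have : x ∈ Wᶜ := hAB ▸ Or.inl hx
    exact this hxw
  have hBW : Disjoint B W := by
    rw [Set.disjoint_left]
    intro x hx hxw
    have : x ∈ Wᶜ := hAB ▸ Or.inr hx
    exact this hxw
  have hcover : ∀ x, x ∈ A ∨ x ∈ B ∨ x ∈ W := by
    intro x
    by_cases hx : x ∈ W
    · exact Or.inr (Or.inr hx)
    · have : x ∈ A ∪ B := hAB ▸ hx
      rcases this with h1 | h1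
      · exact Or.inl h1
      · exact Or.inr (Or.inl h1)
  have key : ∀ C : Set ℂ, U \ W ⊆ C → C ∪ W = C ∪ closure W := by
    intro C hC
    apply Subset.antisymm
    · exact union_subset_union_right _ subset_closure
    · rintro x (hx | hx)
      · exact Or.inl hx
      · by_cases hxw : x ∈ W
        · exact Or.inr hxw
        · exact Or.inl (hC ⟨(hWZ hx).1, hxw⟩)
  rcases (isPreconnected_iff_subset_of_disjoint_closed.1 hDconn) A B hA hB.isClosed hDsub
    (by rw [Set.disjoint_iff_inter_eq_empty.1 hdis, inter_empty]) with h1 | h1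
  · have hcl : IsClosed (A ∪ W) := by
      rw [key A h1]
      exact hA.union isClosed_closure
    have hBo : IsOpen B := by
      have : B = (A ∪ W)ᶜ := by
        ext x
        constructor
        · intro hx
          rintro (h2 | h2)
          · exact (Set.disjoint_left.1 hdis h2) hx
          · exact (Set.disjoint_left.1 hBW hx) h2
        · intro hx
          rcases hcover x with h2 | h2 | h2
          · exact absurd (Or.inl h2) hx
          · exact h2
          · exact absurd (Or.inr h2) hx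
      rw [this]
      exact hcl.isOpen_compl
    rcases isClopen_iff.1 ⟨hB.isClosed, hBo⟩ with h2 | h2
    · exact h2
    · exact absurd (h2 ▸ hB) (noncompact_univ ℂ)
  · have hcl : IsClosed (B ∪ W) := by
      rw [key B h1]
      exact hB.isClosed.union isClosed_closure
    have hAo : IsOpen A := by
      have : A = (B ∪ W)ᶜ := by
        ext x
        constructor
        · intro hx
          rintro (h2 | h2)
          · exact (Set.disjoint_left.1 hdis hx) h2
          · exact (Set.disjoint_left.1 hAW hx) h2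
        · intro hx
          rcases hcover x with h2 | h2 | h2
          · exact h2
          · exact absurd (Or.inl h2) hx
          · exact absurd (Or.inr h2) hx
      rw [this]
      exact hcl.isOpen_compl
    rcases isClopen_iff.1 ⟨hA, hAo⟩ with h2 | h2
    · exfalso
      have huniv : (Set.univ : Set ℂ) = B ∪ closure W := by
        rw [← key B h1]
        apply Subset.antisymm _ (subset_univ _)
        intro x _
        rcases hcover x with h3 | h3 | h3
        · rw [h2] at h3; exact absurd h3 (notMem_empty x)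
        · exact Or.inl h3
        · exact Or.inr h3
      apply noncompact_univ ℂ
      rw [huniv]
      exact hB.union hclWc
    · rw [h2] at hdis
      rwa [univ_disjoint] at hdis

end CF6

end

section

set_option autoImplicit false

open MeasureTheory Metric Set Filter Topology
open scoped ContDiff ENNReal ComplexConjugate

namespace CF6

theorem t4_an {U : Set ℂ} (hU : IsOpen U) {f : ℂ → ℂ} (hd : DifferentiableOn ℂ f U) {z : ℂ}
    (hz : z ∈ U) : AnalyticAt ℂ f z :=
  hd.analyticAt (hU.mem_nhds hz)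

theorem t4_not_const {U : Set ℂ} (hU : IsOpen U) {f : ℂ → ℂ} (hi : InjOn f U) {z : ℂ}
    (hz : z ∈ U) : ¬ ∀ᶠ z' in 𝓝 z, f z' = f z := by
  intro h
  have h1 : ∀ᶠ z' in 𝓝[≠] z, f z' = f z ∧ z' ∈ U ∧ z' ≠ z := by
    filter_upwards [h.filter_mono nhdsWithin_le_nhds,
      mem_nhdsWithin_of_mem_nhds (hU.mem_nhds hz),
      (self_mem_nhdsWithin : {z}ᶜ ∈ 𝓝[≠] z)] with z' a b c
    exact ⟨a, b, c⟩
  obtain ⟨z', h2, h3, h4⟩ := h1.exists
  exact h4 (hi h3 hz h2)

theorem t4_univ_open {U V : Set ℂ} (hV : IsOpen V) (hs : V ⊆ U) (hU : IsOpen U) {f : ℂ → ℂ}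
    (hd : DifferentiableOn ℂ f U) (hi : InjOn f U) : IsOpen (f '' V) := by
  rw [isOpen_iff_mem_nhds]
  rintro _ ⟨z, hz, rfl⟩
  rcases (t4_an hU hd (hs hz)).eventually_constant_or_nhds_le_map_nhds with h | h
  · exact absurd h (t4_not_const hU hi (hs hz))
  · exact h (image_mem_map (hV.mem_nhds hz))

theorem t4_deriv_ne {U : Set ℂ} (hU : IsOpen U) {f : ℂ → ℂ} (hd : DifferentiableOn ℂ f U)
    (hi : InjOn f U) {z : ℂ} (hz : z ∈ U) : ∀ᶠ z' in 𝓝[≠] z, deriv f z' ≠ 0 := by
  rcases (t4_an hU hd hz).deriv.eventually_eq_zero_or_eventually_ne_zero with h | h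
  · exfalso
    apply t4_not_const hU hi hz
    obtain ⟨r, hr, hball⟩ := Metric.eventually_nhds_iff_ball.1
      (h.and (hU.mem_nhds hz : ∀ᶠ z' in 𝓝 z, z' ∈ U))
    filter_upwards [ball_mem_nhds z hr] with z' hz'
    have hdb : DifferentiableOn ℂ f (ball z r) := hd.mono fun y hy => (hball y hy).2
    exact isOpen_ball.is_const_of_deriv_eq_zero (convex_ball z r).isPreconnected hdb
      (fun y hy => (hball y hy).1) hz' (mem_ball_self hr)
  · exact h

theorem t4_univ_inverse {U : Set ℂ} (hU : IsOpen U) {f : ℂ → ℂ} (hd : DifferentiableOn ℂ f U)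
    (hi : InjOn f U) :
    ∃ g : ℂ → ℂ, DifferentiableOn ℂ g (f '' U) ∧ (∀ z ∈ U, g (f z) = z) ∧
      (∀ w ∈ f '' U, g w ∈ U ∧ f (g w) = w) := by
  let g := Function.invFunOn f U
  have hl : ∀ z ∈ U, g (f z) = z := fun z hz => hi.leftInvOn_invFunOn hz
  have hr : ∀ w ∈ f '' U, g w ∈ U ∧ f (g w) = w := fun w hw =>
    ⟨Function.invFunOn_mem hw, Function.invFunOn_eq hw⟩
  have hopen : IsOpen (f '' U) := t4_univ_open hU Subset.rfl hU hd hi
  have hcont : ∀ w ∈ f '' U, ContinuousAt g w := by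
    rintro _ ⟨z, hz, rfl⟩
    intro N hN
    rw [hl z hz] at hN
    have h1 : f '' (interior N ∩ U) ∈ 𝓝 (f z) :=
      (t4_univ_open (isOpen_interior.inter hU) inter_subset_right hU hd hi).mem_nhds
        ⟨z, ⟨mem_interior_iff_mem_nhds.2 hN, hz⟩, rfl⟩
    rw [mem_map]
    filter_upwards [h1]
    rintro _ ⟨y, ⟨hy1, hy2⟩, rfl⟩
    rw [mem_preimage, hl y hy2]
    exact interior_subset hy1
  refine ⟨g, ?_, hl, hr⟩
  intro w hw
  have hz0 := (hr w hw).1
  have htend : Tendsto g (𝓝[≠] w) (𝓝[≠] (g w)) := by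
    apply tendsto_nhdsWithin_of_tendsto_nhds_of_eventually_within
    · exact (hcont w hw).tendsto.mono_left nhdsWithin_le_nhds
    · filter_upwards [mem_nhdsWithin_of_mem_nhds (hopen.mem_nhds hw),
        (self_mem_nhdsWithin : {w}ᶜ ∈ 𝓝[≠] w)] with w' h1 h2 h3
      apply h2
      rw [mem_singleton_iff] at h3 ⊢
      rw [← (hr w' h1).2, h3, (hr w hw).2]
  have hpd : ∀ᶠ w' in 𝓝[≠] w, DifferentiableAt ℂ g w' := by
    filter_upwards [htend.eventually (t4_deriv_ne hU hd hi hz0),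
      mem_nhdsWithin_of_mem_nhds (hopen.mem_nhds hw)]
      with w' h1 h2
    have h3 : HasDerivAt f (deriv f (g w')) (g w') :=
      (t4_an hU hd (hr w' h2).1).differentiableAt.hasDerivAt
    refine (h3.of_local_left_inverse (hcont w' h2) h1 ?_).differentiableAt
    filter_upwards [hopen.mem_nhds h2] with y hy
    exact (hr y hy).2
  exact (Complex.analyticAt_of_differentiable_on_punctured_nhds_of_continuousAt hpd
    (hcont w hw)).differentiableAt.differentiableWithinAt

theorem t4_univ_deriv {U : Set ℂ} (hU : IsOpen U) {f : ℂ → ℂ} (hd : DifferentiableOn ℂ f U)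
    (hi : InjOn f U) {z : ℂ} (hz : z ∈ U) : deriv f z ≠ 0 := by
  obtain ⟨g, hg, hl, hr⟩ := t4_univ_inverse hU hd hi
  have hopen : IsOpen (f '' U) := t4_univ_open hU Subset.rfl hU hd hi
  have h1 : HasDerivAt g (deriv g (f z)) (f z) :=
    (hg.differentiableAt (hopen.mem_nhds ⟨z, hz, rfl⟩)).hasDerivAt
  have h2 : HasDerivAt f (deriv f z) z := (hd.differentiableAt (hU.mem_nhds hz)).hasDerivAt
  have h3 : HasDerivAt (g ∘ f) (deriv g (f z) * deriv f z) z := h1.comp z h2
  have h4 : HasDerivAt (g ∘ f) 1 z := by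
    refine (hasDerivAt_id z).congr_of_eventuallyEq ?_
    filter_upwards [hU.mem_nhds hz] with y hy
    exact hl y hy
  have h5 := h3.unique h4
  intro h0
  rw [h0, mul_zero] at h5
  exact zero_ne_one h5

/-- T4a. The inverse of an injective holomorphic function on the disc is continuous and holomorphic.
PROOF. Open mapping theorem: `ψ` is not locally constant (injective), so `ψ` is an open map on `ball 0 1` (`AnalyticOnNhd.is_constant_or_isOpen`), the inverse is continuous. Holomorphic: `deriv ψ z ≠ 0` (injective holomorphic functions have nonzero derivative;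
if this is not in Mathlib: if `ψ' (a) = 0` then `ψ z - ψ a = (z-a)^n g(z)`, `n ≥ 2`, `g a ≠ 0`, `= (φ z)^n` with `φ = (z-a) g^{1/n}` a local homeomorphism (inverse function theorem), so `ψ` is not injective) and `HasDerivAt.of_local_left_inverse`. -/
theorem exists_conf_inverse {W : Set ℂ} {ψ : ℂ → ℂ} (h : ConfMap (ball 0 1) W ψ) :
    IsOpen W ∧ (∀ z ∈ ball (0 : ℂ) 1, deriv ψ z ≠ 0) ∧ ∃ χ : ℂ → ℂ, DifferentiableOn ℂ χ W ∧ MapsTo χ W (ball 0 1) ∧
      (∀ z ∈ ball (0 : ℂ) 1, χ (ψ z) = z) ∧ ∀ w ∈ W, ψ (χ w) = w := by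
  have hB : IsOpen (ball (0 : ℂ) 1) := isOpen_ball
  obtain ⟨g, hg, hl, hr⟩ := t4_univ_inverse hB h.diff h.inj
  rw [h.image] at hg hr
  refine ⟨?_, fun z hz => t4_univ_deriv hB h.diff h.inj hz, g, hg, fun w hw => (hr w hw).1, hl,
    fun w hw => (hr w hw).2⟩
  rw [← h.image]
  exact t4_univ_open hB Subset.rfl hB h.diff h.inj

/-- T4b. Uniformisation of a cell.
PROOF. `W = U ∩ F ⁻¹' ball c r` is open, connected (T1), bounded (contained in the compact set `U ∩ F ⁻¹' closedBall c r`), so `≠ univ`, and has no holes (T3): `rmt_ext`. `F ∘ ψ` is proper: for compact `K ⊆ ball c r` the set `U ∩ F ⁻¹' K` is compact, contained in `W`, and its image under the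
continuous inverse `χ` of `ψ` (T4a) is `ball 0 1 ∩ (F ∘ ψ) ⁻¹' K`. Same for the fibres. -/
theorem PMap.exists_conf {U V : Set ℂ} {F : ℂ → ℂ} (h : PMap U V F) (hU : IsOpen U) (hV : IsOpen V)
    (hVc : IsConnected V) {c : ℂ} {r : ℝ} (hr : 0 < r) (hQ : closedBall c r ⊆ V) :
    ∃ ψ : ℂ → ℂ, ConfMap (ball 0 1) (U ∩ F ⁻¹' ball c r) ψ ∧
      PMap (ball 0 1) (ball c r) (fun z => F (ψ z)) := by
  have hbV : ball c r ⊆ V := ball_subset_closedBall.trans hQ
  have hWo : IsOpen (U ∩ F ⁻¹' ball c r) := h.cont.isOpen_inter_preimage hU isOpen_ball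
  have hbc : IsConnected (ball c r) := (convex_ball c r).isConnected ⟨c, mem_ball_self hr⟩
  have hWc : IsConnected (U ∩ F ⁻¹' ball c r) := h.preimage_connected hbc hbV
  have hZ : IsCompact (U ∩ F ⁻¹' closedBall c r) := h.proper _ hQ (isCompact_closedBall c r)
  have hWZ : U ∩ F ⁻¹' ball c r ⊆ U ∩ F ⁻¹' closedBall c r :=
    fun z hz => ⟨hz.1, ball_subset_closedBall hz.2⟩
  have hne : U ∩ F ⁻¹' ball c r ≠ univ := by
    intro hu
    rw [hu] at hWZ
    have h1 : U ∩ F ⁻¹' closedBall c r = univ := univ_subset_iff.1 hWZ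
    rw [h1] at hZ
    exact noncompact_univ ℂ hZ
  obtain ⟨z₀, hz₀⟩ := hWc.nonempty
  obtain ⟨ψ, hψd, hψi, hψim, -⟩ := rmt_ext hWo hWc (h.noHole hU hV hVc hr hQ) hne hz₀
  have hC : ConfMap (ball 0 1) (U ∩ F ⁻¹' ball c r) ψ := ⟨hψd, hψi, hψim⟩
  obtain ⟨-, -, χ, hχd, hχm, hχl, hχr⟩ := exists_conf_inverse hC
  have hψm : ∀ z ∈ ball (0 : ℂ) 1, ψ z ∈ U ∩ F ⁻¹' ball c r := fun z hz => by
    rw [← hψim]
    exact mem_image_of_mem ψ hz
  have key : ∀ S ⊆ ball c r, ball (0 : ℂ) 1 ∩ (fun z => F (ψ z)) ⁻¹' S = χ '' (U ∩ F ⁻¹' S) := by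
    intro S hS
    ext z
    constructor
    · rintro ⟨hz1, hz2⟩
      exact ⟨ψ z, ⟨(hψm z hz1).1, hz2⟩, hχl z hz1⟩
    · rintro ⟨w, ⟨hw1, hw2⟩, rfl⟩
      have hwW : w ∈ U ∩ F ⁻¹' ball c r := ⟨hw1, hS hw2⟩
      refine ⟨hχm hwW, ?_⟩
      show F (ψ (χ w)) ∈ S
      rw [hχr w hwW]
      exact hw2
  have hsub : ∀ S ⊆ ball c r, U ∩ F ⁻¹' S ⊆ U ∩ F ⁻¹' ball c r :=
    fun S hS z hz => ⟨hz.1, hS hz.2⟩
  refine ⟨ψ, hC, ?_, ?_, ?_, ?_⟩
  · exact h.cont.comp hψd.continuousOn (fun z hz => (hψm z hz).1)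
  · intro z hz
    exact (hψm z hz).2
  · intro K hK hKc
    rw [key K hK]
    exact (h.proper K (hK.trans hbV) hKc).image_of_continuousOn
      (hχd.continuousOn.mono (hsub K hK))
  · intro y hy
    have hys : ({y} : Set ℂ) ⊆ ball c r := singleton_subset_iff.2 hy
    rw [key {y} hys]
    exact (h.fib y (hbV hy)).image χ (hχd.continuousOn.mono (hsub {y} hys))

end CF6

end

section

set_option autoImplicit false

open MeasureTheory Metric Set Filter Topology
open scoped ContDiff ENNReal ComplexConjugate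

namespace CF6

theorem rk2_integrals {s : ℂ → ℝ} (hs : ContinuousOn s (sphere 0 1))
    (h0 : Real.circleAverage (fun z => 2 / z * (s z : ℂ)) 0 1 = 0) :
    (∫ t in (0 : ℝ)..(2 * Real.pi), s (Complex.exp (t * Complex.I)) * Real.cos t) = 0 ∧
      (∫ t in (0 : ℝ)..(2 * Real.pi), s (Complex.exp (t * Complex.I)) * Real.sin t) = 0 := by
  have hcont : Continuous (fun t : ℝ => s (Complex.exp (t * Complex.I))) := by
    refine hs.comp_continuous (by fun_prop) ?_
    intro t
    simp [Complex.norm_exp_ofReal_mul_I]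
  rw [Real.circleAverage_def] at h0
  have hpi : (2 * Real.pi)⁻¹ ≠ 0 := by positivity
  have h1 := (smul_eq_zero.1 h0).resolve_left hpi
  have h2 : ∀ t : ℝ, (2 / circleMap 0 1 t * (s (circleMap 0 1 t) : ℂ)) =
      ((2 * (s (Complex.exp (t * Complex.I)) * Real.cos t) : ℝ) : ℂ) -
        ((2 * (s (Complex.exp (t * Complex.I)) * Real.sin t) : ℝ) : ℂ) * Complex.I := by
    intro t
    have h3 : circleMap 0 1 t = Complex.exp (t * Complex.I) := by simp [circleMap]
    rw [h3, div_eq_mul_inv, ← Complex.exp_neg, ← neg_mul, Complex.exp_mul_I, Complex.cos_neg,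
      Complex.sin_neg]
    push_cast
    ring
  simp only [h2] at h1
  have c1 : Continuous (fun t : ℝ => 2 * (s (Complex.exp (t * Complex.I)) * Real.cos t)) :=
    continuous_const.mul (hcont.mul Real.continuous_cos)
  have c2 : Continuous (fun t : ℝ => 2 * (s (Complex.exp (t * Complex.I)) * Real.sin t)) :=
    continuous_const.mul (hcont.mul Real.continuous_sin)
  have j1 : IntervalIntegrable (fun t : ℝ =>
      ((2 * (s (Complex.exp (t * Complex.I)) * Real.cos t) : ℝ) : ℂ)) volume 0 (2 * Real.pi) :=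
    (Complex.continuous_ofReal.comp c1).intervalIntegrable _ _
  have j2 : IntervalIntegrable (fun t : ℝ =>
      ((2 * (s (Complex.exp (t * Complex.I)) * Real.sin t) : ℝ) : ℂ) * Complex.I)
      volume 0 (2 * Real.pi) :=
    ((Complex.continuous_ofReal.comp c2).mul continuous_const).intervalIntegrable _ _
  rw [intervalIntegral.integral_sub j1 j2,
    intervalIntegral.integral_mul_const, intervalIntegral.integral_ofReal,
    intervalIntegral.integral_ofReal, intervalIntegral.integral_const_mul,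
    intervalIntegral.integral_const_mul] at h1
  constructor
  · have := congrArg Complex.re h1
    simpa using this
  · have := congrArg Complex.im h1
    simpa using this

theorem rk2_deriv {b G : ℂ → ℂ} (hb : ContinuousOn b (sphere 0 1))
    (hG : DifferentiableOn ℂ G (ball 0 1)) {ν : ℂ}
    (hw : ∀ w ∈ ball (0 : ℂ) 1, (conj ν * poi b w).re = (G w).re)
    (h : ∀ v : ℂ, (conj ν * fderiv ℝ (poi b) 0 v).re = 0) : deriv G 0 = 0 := by
  have hball : ball (0 : ℂ) 1 ∈ 𝓝 (0 : ℂ) := ball_mem_nhds _ one_pos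
  have hd : DifferentiableAt ℝ (poi b) 0 :=
    ((poi_contDiffOn hb).contDiffAt hball).differentiableAt (by simp)
  have hdG : HasDerivAt G (deriv G 0) 0 := (hG.differentiableAt hball).hasDerivAt
  have h1 : HasFDerivAt (fun w => (conj ν * poi b w).re)
      (Complex.reCLM.comp ((ContinuousLinearMap.mul ℝ ℂ (conj ν)).comp (fderiv ℝ (poi b) 0))) 0 := by
    have := (ContinuousLinearMap.hasFDerivAt (ContinuousLinearMap.mul ℝ ℂ (conj ν))).comp
      (0 : ℂ) hd.hasFDerivAt
    exact (Complex.reCLM.hasFDerivAt).comp (0 : ℂ) this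
  have h2 : HasFDerivAt (fun w => (G w).re)
      (Complex.reCLM.comp ((ContinuousLinearMap.toSpanSingleton ℂ (deriv G 0)).restrictScalars ℝ))
      0 := by
    have := (hdG.hasFDerivAt.restrictScalars ℝ)
    exact (Complex.reCLM.hasFDerivAt).comp (0 : ℂ) this
  have h3 : (fun w => (conj ν * poi b w).re) =ᶠ[𝓝 0] (fun w => (G w).re) := by
    filter_upwards [hball] with w hww using hw w hww
  have h4 := h1.unique (h2.congr_of_eventuallyEq h3)
  have h5 := congrArg (fun L : ℂ →L[ℝ] ℝ => L (conj (deriv G 0))) h4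
  have h6 := h (conj (deriv G 0))
  simp only [ContinuousLinearMap.comp_apply, ContinuousLinearMap.mul_apply', Complex.reCLM_apply,
    ContinuousLinearMap.coe_restrictScalars', ContinuousLinearMap.toSpanSingleton_apply,
    smul_eq_mul] at h5
  rw [h6, mul_comm, Complex.mul_conj, Complex.ofReal_re] at h5
  exact Complex.normSq_eq_zero.1 h5.symm

/-- RK2. Rado-Kneser-Choquet at the centre.
PROOF. `s z = (conj ν * b z).re` real, `poi s w = (conj ν * poi b w).re` (PO1c) `= (G w).re` (PO1). If the derivative of `poi s` at `0` vanishes then `deriv G 0 = 0` (`fderiv` of `Re G` is `v ↦ (G' v).re`), so `circleAverage (2/z * s z) 0 1 = 0`: `∫ s cos = ∫ s sin = 0`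
(`s` at `circleMap 0 1 t = exp (t I)`). Let `κ = poi s 0 = circleAverage s` and `φ t = s (exp (t I)) - κ`. RK1 gives `φ = 0`, so `(conj ν * b).re` is constant on the circle: contradiction, because `b` takes all values of the sphere, e.g. `c ± r ν/‖ν‖`. -/
theorem rkc_zero {c : ℂ} {r : ℝ} (hr : 0 < r) {b : ℂ → ℂ} (hb : ContinuousOn b (sphere 0 1))
    (hs : SurjOn b (sphere 0 1) (sphere c r))
    (hM : ∀ (ν : ℂ) (κ θ₁ θ₂ θ₃ θ₄ : ℝ), θ₁ < θ₂ → θ₂ < θ₃ → θ₃ < θ₄ → θ₄ < θ₁ + 2 * Real.pi →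
      κ < (conj ν * b (Complex.exp (θ₁ * Complex.I))).re →
      (conj ν * b (Complex.exp (θ₂ * Complex.I))).re < κ →
      κ < (conj ν * b (Complex.exp (θ₃ * Complex.I))).re →
      (conj ν * b (Complex.exp (θ₄ * Complex.I))).re < κ → False) {ν : ℂ} (hν : ν ≠ 0) :
    ∃ v : ℂ, (conj ν * fderiv ℝ (poi b) 0 v).re ≠ 0 := by
  by_contra hcon
  push Not at hcon
  have hsc : ContinuousOn (fun z => (conj ν * b z).re) (sphere 0 1) :=
    Complex.continuous_re.comp_continuousOn (continuousOn_const.mul hb)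
  obtain ⟨G, hG, hGw, hG0⟩ := poi_eq_re hsc
  have hd0 : deriv G 0 = 0 := rk2_deriv hb hG
    (fun w hw => by rw [poi_lin hb ν hw, hGw w hw]) hcon
  rw [hd0] at hG0
  obtain ⟨i1, i2⟩ := rk2_integrals hsc hG0.symm
  have hcont : Continuous (fun t : ℝ => (conj ν * b (Complex.exp (t * Complex.I))).re) := by
    refine hsc.comp_continuous (by fun_prop) ?_
    intro t
    simp [Complex.norm_exp_ofReal_mul_I]
  obtain ⟨κ, hκ⟩ : ∃ κ : ℝ, κ = (2 * Real.pi)⁻¹ *
      ∫ t in (0 : ℝ)..(2 * Real.pi), (conj ν * b (Complex.exp (t * Complex.I))).re := ⟨_, rfl⟩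
  have hpi : (2 * Real.pi) ≠ 0 := by positivity
  have j1 : IntervalIntegrable (fun t : ℝ => (conj ν * b (Complex.exp (t * Complex.I))).re *
      Real.cos t) volume 0 (2 * Real.pi) :=
    (hcont.mul Real.continuous_cos).intervalIntegrable _ _
  have j2 : IntervalIntegrable (fun t : ℝ => (conj ν * b (Complex.exp (t * Complex.I))).re *
      Real.sin t) volume 0 (2 * Real.pi) :=
    (hcont.mul Real.continuous_sin).intervalIntegrable _ _
  have j3 : IntervalIntegrable (fun t : ℝ => κ * Real.cos t) volume 0 (2 * Real.pi) :=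
    (continuous_const.mul Real.continuous_cos).intervalIntegrable _ _
  have j4 : IntervalIntegrable (fun t : ℝ => κ * Real.sin t) volume 0 (2 * Real.pi) :=
    (continuous_const.mul Real.continuous_sin).intervalIntegrable _ _
  have key := sign_lemma (φ := fun t => (conj ν * b (Complex.exp (t * Complex.I))).re - κ)
    (hcont.sub continuous_const)
    (fun t => by
      have : Complex.exp (((t + 2 * Real.pi : ℝ) : ℂ) * Complex.I) = Complex.exp (t * Complex.I) := by
        push_cast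
        rw [add_mul, Complex.exp_add, Complex.exp_two_pi_mul_I, mul_one]
      simp only [this])
    (by
      rw [intervalIntegral.integral_sub (hcont.intervalIntegrable _ _)
        (continuous_const.intervalIntegrable _ _), intervalIntegral.integral_const, hκ]
      simp only [sub_zero, smul_eq_mul]
      rw [← mul_assoc, mul_inv_cancel₀ hpi, one_mul, sub_self])
    (by
      simp only [sub_mul]
      rw [intervalIntegral.integral_sub j1 j3, i1,
        intervalIntegral.integral_const_mul, integral_cos]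
      simp)
    (by
      simp only [sub_mul]
      rw [intervalIntegral.integral_sub j2 j4, i2,
        intervalIntegral.integral_const_mul, integral_sin]
      simp)
    (fun θ₁ θ₂ θ₃ θ₄ a1 a2 a3 a4 b1 b2 b3 b4 => hM ν κ θ₁ θ₂ θ₃ θ₄ a1 a2 a3 a4
      (by simpa using b1) (by simpa using b2) (by simpa using b3) (by simpa using b4))
  have hν' : (0 : ℝ) < ‖ν‖ := norm_pos_iff.2 hν
  have val : ∀ z ∈ sphere (0 : ℂ) 1, (conj ν * b z).re = κ := by
    intro z hz
    have h1 := key (Complex.arg z)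
    have h2 : Complex.exp (Complex.arg z * Complex.I) = z := by
      have := Complex.norm_mul_exp_arg_mul_I z
      rw [mem_sphere_zero_iff_norm] at hz
      rw [hz] at this
      simpa using this
    simp only [h2] at h1
    linarith
  have hmul : conj ν * (ν / (‖ν‖ : ℂ)) = (‖ν‖ : ℂ) := by
    have h3 : (‖ν‖ : ℂ) ≠ 0 := by exact_mod_cast hν'.ne'
    rw [mul_div_assoc', mul_comm, Complex.mul_conj, Complex.normSq_eq_norm_sq, div_eq_iff h3]
    push_cast
    ring
  have hnorm : ‖ν / (‖ν‖ : ℂ)‖ = 1 := by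
    rw [norm_div, Complex.norm_real, norm_norm, div_self hν'.ne']
  obtain ⟨z1, hz1, e1⟩ := hs (show c + r * (ν / (‖ν‖ : ℂ)) ∈ sphere c r by
    rw [mem_sphere_iff_norm, add_sub_cancel_left, norm_mul, hnorm, Complex.norm_real,
      Real.norm_of_nonneg hr.le, mul_one])
  obtain ⟨z2, hz2, e2⟩ := hs (show c - r * (ν / (‖ν‖ : ℂ)) ∈ sphere c r by
    rw [mem_sphere_iff_norm, sub_sub_cancel_left, norm_neg, norm_mul, hnorm, Complex.norm_real,
      Real.norm_of_nonneg hr.le, mul_one])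
  have v1 := val z1 hz1
  have v2 := val z2 hz2
  rw [e1, mul_add, mul_left_comm, hmul, Complex.add_re, ← Complex.ofReal_mul,
    Complex.ofReal_re] at v1
  rw [e2, mul_sub, mul_left_comm, hmul, Complex.sub_re, ← Complex.ofReal_mul,
    Complex.ofReal_re] at v2
  have : 0 < r * ‖ν‖ := by positivity
  linarith

end CF6

end

section

set_option autoImplicit false

open MeasureTheory Metric Set Filter Topology
open scoped ContDiff ENNReal ComplexConjugate

namespace CF6

/-- the Moebius transformation of the disc with `0 ↦ a` -/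
noncomputable def kmob (a z : ℂ) : ℂ := (z + a) / (1 + conj a * z)

theorem po3_den {a z : ℂ} (ha : ‖a‖ < 1) (hz : ‖z‖ ≤ 1) : 1 + conj a * z ≠ 0 := by
  intro h
  have h1 : conj a * z = -1 := by linear_combination h
  have h2 : ‖conj a * z‖ = 1 := by rw [h1]; simp
  rw [norm_mul, RCLike.norm_conj] at h2
  have h3 : ‖a‖ * ‖z‖ ≤ ‖a‖ * 1 := mul_le_mul_of_nonneg_left hz (norm_nonneg a)
  linarith

theorem po3_id (a z : ℂ) : ‖1 + conj a * z‖ ^ 2 - ‖z + a‖ ^ 2 = (1 - ‖a‖ ^ 2) * (1 - ‖z‖ ^ 2) := by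
  simp only [Complex.sq_norm, Complex.normSq_apply]
  simp
  ring

/-- PO3a. elementary facts -/
theorem kmob_facts {a : ℂ} (ha : a ∈ ball (0 : ℂ) 1) :
    kmob a 0 = a ∧ MapsTo (kmob a) (ball 0 1) (ball 0 1) ∧ MapsTo (kmob a) (sphere 0 1) (sphere 0 1) ∧
      (∀ z ∈ closedBall (0 : ℂ) 1, kmob a (kmob (-a) z) = z ∧ kmob (-a) (kmob a z) = z) ∧
      ContinuousOn (kmob a) (closedBall 0 1) ∧ DifferentiableOn ℂ (kmob a) (ball 0 1) ∧
      deriv (kmob a) 0 ≠ 0 := by
  have ha' : ‖a‖ < 1 := by simpa using ha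
  have ha2 : 0 < 1 - ‖a‖ ^ 2 := by nlinarith [norm_nonneg a]
  have hinv : ∀ (b : ℂ), ‖b‖ < 1 → ∀ z : ℂ, ‖z‖ ≤ 1 → kmob b (kmob (-b) z) = z := by
    intro b hb z hz
    have hd : 1 + conj (-b) * z ≠ 0 := po3_den (by simpa using hb) hz
    have hn : (1 - b * conj b) ≠ 0 := by
      intro h
      have h1 : b * conj b = 1 := by linear_combination -h
      have h2 : ‖b * conj b‖ = 1 := by rw [h1]; simp
      rw [norm_mul, RCLike.norm_conj] at h2
      nlinarith [norm_nonneg b]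
    unfold kmob
    have e1 : (z + -b) / (1 + conj (-b) * z) + b = z * (1 - b * conj b) / (1 + conj (-b) * z) := by
      rw [eq_div_iff hd, add_mul, div_mul_cancel₀ _ hd]
      simp only [map_neg]
      ring
    have e2 : 1 + conj b * ((z + -b) / (1 + conj (-b) * z)) = (1 - b * conj b) / (1 + conj (-b) * z) := by
      rw [eq_div_iff hd, add_mul, mul_assoc, div_mul_cancel₀ _ hd]
      simp only [map_neg]
      ring
    rw [e1, e2, div_div_div_cancel_right₀ hd, mul_div_assoc, div_self hn, mul_one]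
  refine ⟨by simp [kmob], ?_, ?_, ?_, ?_, ?_, ?_⟩
  · intro z hz
    have hz' : ‖z‖ < 1 := by simpa using hz
    have hd := po3_den ha' hz'.le
    rw [mem_ball_zero_iff, kmob, norm_div, div_lt_one (norm_pos_iff.2 hd)]
    have h := po3_id a z
    have hz2 : 0 < 1 - ‖z‖ ^ 2 := by nlinarith [norm_nonneg z]
    have h2 : ‖z + a‖ ^ 2 < ‖1 + conj a * z‖ ^ 2 := by nlinarith [mul_pos ha2 hz2]
    exact lt_of_pow_lt_pow_left₀ 2 (norm_nonneg _) h2
  · intro z hz
    have hz' : ‖z‖ = 1 := by simpa using hz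
    have hd := po3_den ha' hz'.le
    rw [mem_sphere_zero_iff_norm, kmob, norm_div, div_eq_one_iff_eq (norm_ne_zero_iff.2 hd)]
    have h := po3_id a z
    rw [hz'] at h
    have h2 : ‖z + a‖ ^ 2 = ‖1 + conj a * z‖ ^ 2 := by nlinarith
    exact (pow_left_inj₀ (norm_nonneg _) (norm_nonneg _) two_ne_zero).1 h2
  · intro z hz
    have hz' : ‖z‖ ≤ 1 := by simpa using hz
    refine ⟨hinv a ha' z hz', ?_⟩
    have := hinv (-a) (by simpa using ha') z hz'
    rwa [neg_neg] at this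
  · intro z hz
    have hz' : ‖z‖ ≤ 1 := by simpa using hz
    have hd := po3_den ha' hz'
    unfold kmob
    apply ContinuousWithinAt.div
    · fun_prop
    · fun_prop
    · exact hd
  · intro z hz
    have hz' : ‖z‖ < 1 := by simpa using hz
    have hd := po3_den ha' hz'.le
    unfold kmob
    apply DifferentiableWithinAt.div
    · fun_prop
    · fun_prop
    · exact hd
  · have hd : HasDerivAt (kmob a) ((1 * (1 + conj a * 0) - (0 + a) * (conj a * 1)) / (1 + conj a * 0) ^ 2) 0 := by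
      have h1 : HasDerivAt (fun z : ℂ => z + a) 1 0 := (hasDerivAt_id' (0 : ℂ)).add_const a
      have h2 : HasDerivAt (fun z : ℂ => 1 + conj a * z) (conj a * 1) 0 :=
        ((hasDerivAt_id' (0 : ℂ)).const_mul (conj a)).const_add 1
      exact h1.div h2 (by simp)
    rw [hd.deriv]
    simp only [mul_zero, add_zero, zero_add, mul_one, one_pow, div_one]
    intro h
    have h1 : a * conj a = 1 := by linear_combination -h
    have h2 : ‖a * conj a‖ = 1 := by rw [h1]; simp
    rw [norm_mul, RCLike.norm_conj] at h2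
    nlinarith [norm_nonneg a]

open Classical in
theorem po3_real {β : ℂ → ℝ} (hb : ContinuousOn β (sphere 0 1)) {a w : ℂ} (ha : a ∈ ball (0 : ℂ) 1)
    (hw : w ∈ ball (0 : ℂ) 1) : poi β (kmob a w) = poi (fun z => β (kmob a z)) w := by
  obtain ⟨-, hmb, hms, -, hmc, hmd, -⟩ := kmob_facts ha
  have hbC : ContinuousOn (fun z => (β z : ℂ)) (sphere 0 1) :=
    Complex.continuous_ofReal.comp_continuousOn hb
  have hcont := poi_continuousOn hbC
  obtain ⟨G, hG, hGre, -⟩ := poi_eq_re hb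
  have hmcl : MapsTo (kmob a) (closedBall 0 1) (closedBall 0 1) := by
    intro z hz
    rcases (mem_closedBall.1 hz).lt_or_eq with h | h
    · exact ball_subset_closedBall (hmb (mem_ball.2 h))
    · exact sphere_subset_closedBall (hms (mem_sphere.2 h))
  set F : ℂ → ℝ := fun z => (((ball (0 : ℂ) 1).piecewise (poi (fun z => (β z : ℂ))) (fun z => (β z : ℂ))) (kmob a z)).re with hF
  have hFc : ContinuousOn F (closedBall 0 1) :=
    Complex.continuous_re.comp_continuousOn (hcont.comp hmc hmcl)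
  have hFb : ∀ z ∈ ball (0 : ℂ) 1, F z = poi β (kmob a z) := by
    intro z hz
    simp only [hF]
    rw [Set.piecewise_eq_of_mem _ _ _ (hmb hz), (poi_re hbC (hmb hz)).1]
    simp
  have hFs : ∀ z ∈ sphere (0 : ℂ) 1, F z = β (kmob a z) := by
    intro z hz
    simp only [hF]
    rw [Set.piecewise_eq_of_notMem]
    · simp
    · intro hcon
      have h1 := hms hz
      rw [mem_sphere] at h1
      rw [mem_ball] at hcon
      linarith
  have hFG : ∀ z ∈ ball (0 : ℂ) 1, F z = (G (kmob a z)).re := by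
    intro z hz
    rw [hFb z hz, hGre _ (hmb hz)]
  have hGm : DifferentiableOn ℂ (fun z => G (kmob a z)) (ball 0 1) := hG.comp hmd hmb
  have hharm : InnerProductSpace.HarmonicOnNhd F (ball 0 1) := by
    intro z hz
    have h1 : AnalyticAt ℂ (fun z => G (kmob a z)) z :=
      hGm.analyticAt (isOpen_ball.mem_nhds hz)
    have h2 := h1.harmonicAt_re
    refine (InnerProductSpace.harmonicAt_congr_nhds ?_).2 h2
    filter_upwards [isOpen_ball.mem_nhds hz] with y hy
    exact hFG y hy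
  have hcl : InnerProductSpace.HarmonicContOnCl F (ball 0 1) :=
    InnerProductSpace.HarmonicContOnCl.mk_ball hharm hFc
  have key := hcl.circleAverage_poissonKernel_smul hw
  rw [hFb w hw] at key
  rw [← key, poi]
  apply Real.circleAverage_congr_sphere
  intro z hz
  rw [abs_one] at hz
  simp only [Pi.smul_apply', smul_eq_mul]
  rw [hFs z hz]

/-- PO3b. Moebius invariance of the Poisson integral. -/
theorem poi_mob {b : ℂ → ℂ} (hb : ContinuousOn b (sphere 0 1)) {a w : ℂ} (ha : a ∈ ball (0 : ℂ) 1)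
    (hw : w ∈ ball (0 : ℂ) 1) : poi b (kmob a w) = poi (fun z => b (kmob a z)) w := by
  obtain ⟨-, hmb, hms, -, hmc, -, -⟩ := kmob_facts ha
  have hbm : ContinuousOn (fun z => b (kmob a z)) (sphere 0 1) :=
    hb.comp (hmc.mono sphere_subset_closedBall) hms
  apply Complex.ext
  · rw [(poi_re hb (hmb hw)).1, (poi_re hbm hw).1]
    exact po3_real (Complex.continuous_re.comp_continuousOn hb) ha hw
  · rw [(poi_re hb (hmb hw)).2, (poi_re hbm hw).2]
    exact po3_real (Complex.continuous_im.comp_continuousOn hb) ha hw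

end CF6

end

section

set_option autoImplicit false

open MeasureTheory Metric Set Filter Topology
open scoped ContDiff ENNReal ComplexConjugate

namespace CF6

theorem m1_nhd {H : ℂ → ℂ} (hc : ContinuousOn H (closedBall 0 1)) {g : ℂ → ℝ} (hg : Continuous g)
    {θ : ℝ} (k : 0 < g (H (Complex.exp (θ * Complex.I)))) :
    ∃ ε > (0 : ℝ), ∀ z ∈ ball (Complex.exp (θ * Complex.I)) ε ∩ ball 0 1, 0 < g (H z) := by
  have hmem : Complex.exp (θ * Complex.I) ∈ closedBall (0 : ℂ) 1 := by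
    simp [Complex.norm_exp_ofReal_mul_I]
  have hcc : ContinuousWithinAt (fun z => g (H z)) (closedBall 0 1) (Complex.exp (θ * Complex.I)) :=
    (hg.comp_continuousOn hc) _ hmem
  have h1 : ∀ᶠ z in 𝓝[closedBall 0 1] (Complex.exp (θ * Complex.I)), 0 < g (H z) :=
    hcc.eventually (lt_mem_nhds k)
  rw [eventually_nhdsWithin_iff, Metric.eventually_nhds_iff] at h1
  obtain ⟨ε, hε, h2⟩ := h1
  exact ⟨ε, hε, fun z hz => h2 hz.1 (ball_subset_closedBall hz.2)⟩

theorem m1_conn {c : ℂ} {r : ℝ} {H : ℂ → ℂ} (h : PMap (ball 0 1) (ball c r) H) {g : ℂ → ℝ}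
    (hg : Continuous g) (hconv : Convex ℝ {y | 0 < g y}) :
    IsOpen (ball 0 1 ∩ H ⁻¹' (ball c r ∩ {y | 0 < g y})) ∧
      IsPreconnected (ball 0 1 ∩ H ⁻¹' (ball c r ∩ {y | 0 < g y})) := by
  constructor
  · exact h.cont.isOpen_inter_preimage isOpen_ball
      (isOpen_ball.inter (isOpen_lt continuous_const hg))
  · by_cases hne : (ball c r ∩ {y | 0 < g y}).Nonempty
    · exact (h.preimage_connected
        ⟨hne, ((convex_ball c r).inter hconv).isPreconnected⟩ inter_subset_left).isPreconnected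
    · rw [not_nonempty_iff_eq_empty] at hne
      rw [hne, preimage_empty, inter_empty]
      exact isPreconnected_empty

/-- M1. The boundary values of a proper monotone map of the disc onto a disc do not alternate.
PROOF. `P = {z ∈ ball 0 1 | κ < (conj ν * H z).re}` `= ball 0 1 ∩ H ⁻¹' (ball c r ∩ {y | κ < (conj ν * y).re})` is open and connected (T1; the second set is convex and not empty, because `P` is not empty), `R` similarly with `<` reversed. By continuity of `H` on the closed disc `P` contains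
a neighbourhood (in the open disc) of `exp(iθ₁)`, `exp(iθ₃)`, and `R` of `exp(iθ₂)`, `exp(iθ₄)`. CR2: `P ∩ R ≠ ∅`, absurd. -/
theorem PMap.no_alt {c : ℂ} {r : ℝ} {H : ℂ → ℂ} (hc : ContinuousOn H (closedBall 0 1))
    (h : PMap (ball 0 1) (ball c r) H) (ν : ℂ) (κ : ℝ) {θ₁ θ₂ θ₃ θ₄ : ℝ} (h12 : θ₁ < θ₂)
    (h23 : θ₂ < θ₃) (h34 : θ₃ < θ₄) (h41 : θ₄ < θ₁ + 2 * Real.pi)
    (k1 : κ < (conj ν * H (Complex.exp (θ₁ * Complex.I))).re)
    (k2 : (conj ν * H (Complex.exp (θ₂ * Complex.I))).re < κ)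
    (k3 : κ < (conj ν * H (Complex.exp (θ₃ * Complex.I))).re)
    (k4 : (conj ν * H (Complex.exp (θ₄ * Complex.I))).re < κ) : False := by
  have hg1 : Continuous (fun y : ℂ => (conj ν * y).re - κ) := by fun_prop
  have hg2 : Continuous (fun y : ℂ => κ - (conj ν * y).re) := by fun_prop
  have hlin : IsLinearMap ℝ (fun y : ℂ => (conj ν * y).re) := by
    constructor
    · intro x y; simp only [mul_add, Complex.add_re]
    · intro a x; simp only [mul_smul_comm, Complex.smul_re]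
  have cv1 : Convex ℝ {y : ℂ | 0 < (conj ν * y).re - κ} := by
    have := convex_halfSpace_gt hlin κ
    simpa only [sub_pos] using this
  have cv2 : Convex ℝ {y : ℂ | 0 < κ - (conj ν * y).re} := by
    have := convex_halfSpace_lt hlin κ
    simpa only [sub_pos] using this
  obtain ⟨o1, c1⟩ := m1_conn h hg1 cv1
  obtain ⟨o2, c2⟩ := m1_conn h hg2 cv2
  obtain ⟨e1, he1, n1⟩ := m1_nhd hc hg1 (sub_pos.2 k1)
  obtain ⟨e2, he2, n2⟩ := m1_nhd hc hg2 (sub_pos.2 k2)
  obtain ⟨e3, he3, n3⟩ := m1_nhd hc hg1 (sub_pos.2 k3)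
  obtain ⟨e4, he4, n4⟩ := m1_nhd hc hg2 (sub_pos.2 k4)
  have hmin : 0 < min (min e1 e2) (min e3 e4) := lt_min (lt_min he1 he2) (lt_min he3 he4)
  have sub1 : ball (Complex.exp (θ₁ * Complex.I)) (min (min e1 e2) (min e3 e4)) ⊆
      ball (Complex.exp (θ₁ * Complex.I)) e1 :=
    ball_subset_ball ((min_le_left _ _).trans (min_le_left _ _))
  have sub2 : ball (Complex.exp (θ₂ * Complex.I)) (min (min e1 e2) (min e3 e4)) ⊆
      ball (Complex.exp (θ₂ * Complex.I)) e2 :=
    ball_subset_ball ((min_le_left _ _).trans (min_le_right _ _))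
  have sub3 : ball (Complex.exp (θ₃ * Complex.I)) (min (min e1 e2) (min e3 e4)) ⊆
      ball (Complex.exp (θ₃ * Complex.I)) e3 :=
    ball_subset_ball ((min_le_right _ _).trans (min_le_left _ _))
  have sub4 : ball (Complex.exp (θ₄ * Complex.I)) (min (min e1 e2) (min e3 e4)) ⊆
      ball (Complex.exp (θ₄ * Complex.I)) e4 :=
    ball_subset_ball ((min_le_right _ _).trans (min_le_right _ _))
  obtain ⟨z, ⟨hz1, hz2, hz3⟩, hz4, hz5, hz6⟩ := crossing_sets h12 h23 h34 h41 o1 c1
    inter_subset_left o2 c2 inter_subset_left hmin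
    (fun z hz => ⟨hz.2, h.maps hz.2, n1 z ⟨sub1 hz.1, hz.2⟩⟩)
    (fun z hz => ⟨hz.2, h.maps hz.2, n3 z ⟨sub3 hz.1, hz.2⟩⟩)
    (fun z hz => ⟨hz.2, h.maps hz.2, n2 z ⟨sub2 hz.1, hz.2⟩⟩)
    (fun z hz => ⟨hz.2, h.maps hz.2, n4 z ⟨sub4 hz.1, hz.2⟩⟩)
  rw [mem_ofPred_eq, sub_pos] at hz3 hz6
  exact lt_asymm hz3 hz6

end CF6

end

section

set_option autoImplicit false

open MeasureTheory Metric Set Filter Topology
open scoped ContDiff ENNReal ComplexConjugate

namespace CF6

theorem rk3_ball {a : ℂ} (ha : a ∈ ball (0 : ℂ) 1) : -a ∈ ball (0 : ℂ) 1 := by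
  simpa [mem_ball, dist_zero_right] using ha

theorem rk3_closed {a : ℂ} (ha : a ∈ ball (0 : ℂ) 1) : MapsTo (kmob a) (closedBall 0 1) (closedBall 0 1) := by
  obtain ⟨-, h1, h2, -⟩ := kmob_facts ha
  intro z hz
  rcases lt_or_eq_of_le (mem_closedBall.mp hz) with h3 | h3
  · exact ball_subset_closedBall (h1 h3)
  · exact sphere_subset_closedBall (h2 h3)

theorem rk3_image {a : ℂ} (ha : a ∈ ball (0 : ℂ) 1) (H : ℂ → ℂ) (S : Set ℂ) :
    ball 0 1 ∩ (fun z => H (kmob a z)) ⁻¹' S = kmob (-a) '' (ball 0 1 ∩ H ⁻¹' S) := by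
  obtain ⟨-, h1, -, h4, -⟩ := kmob_facts ha
  obtain ⟨-, h1', -, h4', -⟩ := kmob_facts (rk3_ball ha)
  ext z
  constructor
  · rintro ⟨hz1, hz2⟩
    exact ⟨kmob a z, ⟨h1 hz1, hz2⟩, (h4 z (ball_subset_closedBall hz1)).2⟩
  · rintro ⟨w, ⟨hw1, hw2⟩, rfl⟩
    refine ⟨h1' hw1, ?_⟩
    simp only [mem_preimage]
    rw [(h4 w (ball_subset_closedBall hw1)).1]
    exact hw2

theorem rk3_pmap {c : ℂ} {r : ℝ} {H : ℂ → ℂ} (h : PMap (ball 0 1) (ball c r) H) {a : ℂ}
    (ha : a ∈ ball (0 : ℂ) 1) : PMap (ball 0 1) (ball c r) (fun z => H (kmob a z)) := by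
  obtain ⟨-, h1, -, h4, h5, -⟩ := kmob_facts ha
  obtain ⟨-, h1', -, h4', h5', -⟩ := kmob_facts (rk3_ball ha)
  have hc' : ContinuousOn (kmob (-a)) (ball 0 1) := h5'.mono ball_subset_closedBall
  refine ⟨h.cont.comp (h5.mono ball_subset_closedBall) h1, fun z hz => h.maps (h1 hz), ?_, ?_⟩
  · intro K hK hKc
    rw [rk3_image ha]
    exact (h.proper K hK hKc).image_of_continuousOn (hc'.mono inter_subset_left)
  · intro y hy
    rw [rk3_image ha]
    exact (h.fib y hy).image _ (hc'.mono inter_subset_left)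

/-- RK3. Rado-Kneser-Choquet: the differential of the Poisson integral of `H` is injective at every point.
PROOF. `H ∘ kmob z₀` satisfies the same hypotheses (`kmob z₀` is a homeomorphism of the closed disc, PO3a: preimages of compact / connected sets under `kmob z₀` are their images under `kmob (-z₀)`), so M1 (`PMap.no_alt`) gives the hypothesis `hM` of RK2 for `b = H ∘ kmob z₀`. By PO3b
`poi (H ∘ kmob z₀) = poi H ∘ kmob z₀` on the disc; `fderiv (poi (H ∘ kmob z₀)) 0 v = fderiv (poi H) z₀ (deriv (kmob z₀) 0 * v)`. RK2 says: for every `ν ≠ 0` the linear form `v ↦ Re (conj ν * L v)` is not zero, `L = fderiv (poi H) z₀`; so the range of `L` is not contained in a line, `L` is surjective, hence injective (dimension). -/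
theorem rkc {c : ℂ} {r : ℝ} (hr : 0 < r) {H : ℂ → ℂ} (hc : ContinuousOn H (closedBall 0 1))
    (h : PMap (ball 0 1) (ball c r) H) (hs : SurjOn H (sphere 0 1) (sphere c r)) {z₀ : ℂ}
    (hz₀ : z₀ ∈ ball (0 : ℂ) 1) : Function.Injective (fderiv ℝ (poi H) z₀) := by
  obtain ⟨m0, h1, h2, h4, h5, h6, -⟩ := kmob_facts hz₀
  obtain ⟨-, h1', h2', h4', h5', -⟩ := kmob_facts (rk3_ball hz₀)
  have hcS : ContinuousOn H (sphere 0 1) := hc.mono sphere_subset_closedBall
  have hcb : ContinuousOn (fun z => H (kmob z₀ z)) (closedBall 0 1) := hc.comp h5 (rk3_closed hz₀)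
  have hbS : ContinuousOn (fun z => H (kmob z₀ z)) (sphere 0 1) := hcb.mono sphere_subset_closedBall
  have hsb : SurjOn (fun z => H (kmob z₀ z)) (sphere 0 1) (sphere c r) := by
    intro y hy
    obtain ⟨ζ, hζ, rfl⟩ := hs hy
    refine ⟨kmob (-z₀) ζ, h2' hζ, ?_⟩
    simp only []
    rw [(h4 ζ (sphere_subset_closedBall hζ)).1]
  have key : ∀ ν : ℂ, ν ≠ 0 → ∃ v : ℂ, (conj ν * fderiv ℝ (poi (fun z => H (kmob z₀ z))) 0 v).re ≠ 0 := by
    intro ν hν
    refine rkc_zero hr hbS hsb ?_ hν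
    intro ν κ θ₁ θ₂ θ₃ θ₄ a1 a2 a3 a4 k1 k2 k3 k4
    exact (rk3_pmap h hz₀).no_alt hcb ν κ a1 a2 a3 a4 k1 k2 k3 k4
  -- derivative of the composition
  have hd1 : DifferentiableAt ℝ (poi H) (kmob z₀ 0) := by
    rw [m0]
    exact ((poi_contDiffOn hcS).differentiableOn (by simp)).differentiableAt (isOpen_ball.mem_nhds hz₀)
  have hd2 : HasDerivAt (kmob z₀) (deriv (kmob z₀) 0) 0 :=
    (h6.differentiableAt (isOpen_ball.mem_nhds (mem_ball_self one_pos))).hasDerivAt
  have hd3 : HasFDerivAt (kmob z₀) ((ContinuousLinearMap.toSpanSingleton ℂ (deriv (kmob z₀) 0)).restrictScalars ℝ) 0 :=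
    hd2.hasFDerivAt.restrictScalars ℝ
  have hd4 := hd1.hasFDerivAt.comp 0 hd3
  have he : poi (fun z => H (kmob z₀ z)) =ᶠ[𝓝 0] (poi H ∘ kmob z₀) := by
    filter_upwards [isOpen_ball.mem_nhds (mem_ball_self (one_pos : (0 : ℝ) < 1))] with w hw
    exact (poi_mob hcS hz₀ hw).symm
  have hfd : ∀ v, fderiv ℝ (poi (fun z => H (kmob z₀ z))) 0 v = fderiv ℝ (poi H) z₀ (v * deriv (kmob z₀) 0) := by
    intro v
    rw [he.fderiv_eq, hd4.fderiv, m0]
    simp
  -- surjectivity
  set L := fderiv ℝ (poi H) z₀ with hL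
  have hsurj : Function.Surjective (L : ℂ →ₗ[ℝ] ℂ) := by
    rw [← LinearMap.range_eq_top]
    by_contra hne
    have h7 : (LinearMap.range (L : ℂ →ₗ[ℝ] ℂ))ᗮ ≠ ⊥ := fun h8 =>
      hne ((Submodule.orthogonal_eq_bot_iff).mp h8)
    obtain ⟨ν, hν1, hν2⟩ := Submodule.exists_mem_ne_zero_of_ne_bot h7
    obtain ⟨v, hv⟩ := key ν hν2
    rw [hfd] at hv
    apply hv
    have h9 := (Submodule.mem_orthogonal' _ _).mp hν1 (L (v * deriv (kmob z₀) 0)) ⟨_, rfl⟩
    rw [Complex.inner] at h9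
    rw [mul_comm] at h9
    exact h9
  exact (LinearMap.injective_iff_surjective (f := (L : ℂ →ₗ[ℝ] ℂ))).mpr hsurj

end CF6

end

section

set_option autoImplicit false

open MeasureTheory Metric Set Filter Topology
open scoped ContDiff ENNReal ComplexConjugate

namespace CF6

variable {E : Type*} [NormedAddCommGroup E] [NormedSpace ℝ E] [CompleteSpace E]

/-- the integrals tend to zero -/
theorem s05c_int {L L₂ : Set ℂ} {f fx : ℂ → E} (hL : IsCompact L) (hLL : L ⊆ L₂)
    (hL₂ : IsCompact L₂) (hf : MemLp fx 2 (volume.restrict L₂)) {r : ℕ → ℝ} (hr : ∀ n, 0 < r n)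
    (hr0 : Tendsto r atTop (𝓝 0)) (v : ℂ)
    (hder : ∀ n, ∀ x ∈ L, fderiv ℝ (moll (r n) (hr n) f) x v =
      moll (r n) (hr n) (L₂.indicator fx) x) :
    Tendsto (fun n => ∫⁻ z in L, ‖fderiv ℝ (moll (r n) (hr n) f) z v - fx z‖ₑ ^ 2) atTop (𝓝 0) := by
  have hu : MemLp (L₂.indicator fx) 2 volume :=
    (memLp_indicator_iff_restrict hL₂.measurableSet).2 hf
  rw [ENNReal.tendsto_nhds_zero]
  intro η hη
  rcases eq_or_ne η ⊤ with hη' | hη'
  · exact Eventually.of_forall fun n => hη' ▸ le_top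
  · lift η to NNReal using hη'
    obtain ⟨r₀, hr₀, h⟩ := moll_tendsto_L2 hu hη
    filter_upwards [hr0.eventually (gt_mem_nhds hr₀)] with n hn
    refine le_trans ?_ (h (r n) (hr n) hn)
    refine le_trans (le_of_eq ?_) (setLIntegral_le_lintegral L _)
    refine setLIntegral_congr_fun hL.measurableSet fun z hz => ?_
    rw [hder n z hz, indicator_of_mem (hLL hz)]

/-- S05c. APPROXIMATION with compact supports: if `f` vanishes off a compact subset `K` of `U` then the smooth functions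
can be taken with support in a fixed compact set `L ⊆ U`.
PROOF. `L` = closed `δ`-neighbourhood of `K`, `g n = moll r_n f'` with `f' = K.indicator f = f`, `r_n < δ/2`. On `L \ K` one has `fx = 0` a.e. (`Sob.ae_unique` on
`U \ K` with `f = 0`). Apply the argument of S05b to a bigger compact set. -/
theorem Sob.exists_approx_compact {U : Set ℂ} {f fx fy : ℂ → E} (hU : IsOpen U) (h : Sob U f fx fy)
    {K : Set ℂ} (hK : IsCompact K) (hKU : K ⊆ U) (h0 : ∀ z, z ∉ K → f z = 0) :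
    ∃ (g : ℕ → ℂ → E) (L : Set ℂ), IsCompact L ∧ L ⊆ U ∧ K ⊆ L ∧ (∀ n, ContDiff ℝ ∞ (g n)) ∧
      (∀ n, tsupport (g n) ⊆ L) ∧ TendstoUniformly g f atTop ∧
      Tendsto (fun n => ∫⁻ z in L, ‖fderiv ℝ (g n) z 1 - fx z‖ₑ ^ 2) atTop (𝓝 0) ∧
      Tendsto (fun n => ∫⁻ z in L, ‖fderiv ℝ (g n) z Complex.I - fy z‖ₑ ^ 2) atTop (𝓝 0) := by
  obtain ⟨δ, hδ, hδU⟩ := hK.exists_cthickening_subset_open hU hKU
  have hδ2 : 0 < δ / 2 := half_pos hδ
  obtain ⟨L, hLdef⟩ : ∃ L, L = cthickening (δ / 2) K := ⟨_, rfl⟩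
  obtain ⟨L₂, hL₂def⟩ : ∃ L₂, L₂ = cthickening δ K := ⟨_, rfl⟩
  have hL : IsCompact L := by rw [hLdef]; exact hK.cthickening
  have hL₂ : IsCompact L₂ := by rw [hL₂def]; exact hK.cthickening
  have hLL : L ⊆ L₂ := by rw [hLdef, hL₂def]; exact cthickening_mono (by linarith) K
  have hL₂U : L₂ ⊆ U := by rw [hL₂def]; exact hδU
  have hKL : K ⊆ L := by rw [hLdef]; exact self_subset_cthickening K
  -- continuity of `f`
  have hfc : Continuous f := by
    rw [continuous_iff_continuousAt]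
    intro z
    by_cases hz : z ∈ U
    · exact h.cont.continuousAt (hU.mem_nhds hz)
    · have hz' : z ∈ Kᶜ := fun hzK => hz (hKU hzK)
      have hev : f =ᶠ[𝓝 z] fun _ => 0 := by
        filter_upwards [hK.isClosed.isOpen_compl.mem_nhds hz'] with y hy
        exact h0 y hy
      exact continuousAt_const.congr hev.symm
  have hli : LocallyIntegrable f := hfc.locallyIntegrable
  have hind : L₂.indicator f = f := by
    funext z
    by_cases hz : z ∈ L₂
    · rw [indicator_of_mem hz]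
    · rw [indicator_of_notMem hz, h0 z fun hzK => hz (hLL (hKL hzK))]
  obtain ⟨r, hrdef⟩ : ∃ r : ℕ → ℝ, ∀ n, r n = δ / 2 / ((n : ℝ) + 1) := ⟨_, fun _ => rfl⟩
  have hr : ∀ n, 0 < r n := fun n => by rw [hrdef]; positivity
  have hrle : ∀ n, r n ≤ δ / 2 := fun n => by
    rw [hrdef]
    refine div_le_self hδ2.le ?_
    have : (0 : ℝ) ≤ n := Nat.cast_nonneg n
    linarith
  have hr0 : Tendsto r atTop (𝓝 0) := by
    have h1 : Tendsto (fun n : ℕ => δ / 2 * (1 / ((n : ℝ) + 1))) atTop (𝓝 (δ / 2 * 0)) :=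
      tendsto_one_div_add_atTop_nhds_zero_nat.const_mul _
    rw [mul_zero] at h1
    refine h1.congr fun n => ?_
    rw [hrdef, mul_one_div]
  have hball : ∀ n, ∀ x ∈ L, closedBall x (r n) ⊆ L₂ := by
    intro n x hx y hy
    have h1 : y ∈ cthickening (δ / 2) (cthickening (δ / 2) K) := by
      rw [← hLdef]
      exact mem_cthickening_of_dist_le y x _ _ hx ((mem_closedBall.1 hy).trans (hrle n))
    have h2 := cthickening_cthickening_subset hδ2.le hδ2.le K h1
    rw [add_halves] at h2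
    rw [hL₂def]
    exact h2
  have hder : ∀ n, ∀ x ∈ L,
      fderiv ℝ (moll (r n) (hr n) f) x 1 = moll (r n) (hr n) (L₂.indicator fx) x ∧
      fderiv ℝ (moll (r n) (hr n) f) x Complex.I = moll (r n) (hr n) (L₂.indicator fy) x := by
    intro n x hx
    have := moll_fderiv h hL₂ hL₂U (r n) (hr n) (hball n x hx)
    rwa [hind] at this
  have hzero : ∀ n z, z ∉ L → moll (r n) (hr n) f z = 0 := by
    intro n z hz
    unfold moll
    refine integral_eq_zero_of_ae (Eventually.of_forall fun y => ?_)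
    simp only [Pi.zero_apply]
    by_cases hy : y ∈ K
    · have hdist : δ / 2 < dist z y := by
        by_contra hcon
        apply hz
        rw [hLdef]
        exact mem_cthickening_of_dist_le z y _ _ hy (not_lt.1 hcon)
      have hn : z - y ∉ Function.support ((bump (r n) (hr n)).normed volume) := by
        rw [ContDiffBump.support_normed_eq, mem_ball_zero_iff, ← dist_eq_norm]
        have h1 : (bump (r n) (hr n)).rOut = r n := rfl
        rw [h1]
        exact not_lt.2 ((hrle n).trans hdist.le)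
      rw [Function.notMem_support.1 hn, zero_smul]
    · rw [h0 y hy, smul_zero]
  refine ⟨fun n => moll (r n) (hr n) f, L, hL, hLL.trans hL₂U, hKL,
    fun n => moll_contDiff hli (r n) (hr n), fun n => ?_, ?_, ?_, ?_⟩
  · refine closure_minimal (fun z hz => ?_) hL.isClosed
    by_contra hcon
    exact hz (hzero n z hcon)
  · rw [Metric.tendstoUniformly_iff]
    intro ε hε
    obtain ⟨r₀, hr₀, h1⟩ := moll_tendsto_unif hli hU h.cont hL (hLL.trans hL₂U) (half_pos hε)
    filter_upwards [hr0.eventually (gt_mem_nhds hr₀)] with n hn z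
    by_cases hz : z ∈ L
    · have h2 := h1 (r n) (hr n) hn z hz
      rw [dist_comm, dist_eq_norm]
      linarith
    · rw [hzero n z hz, h0 z fun hzK => hz (hKL hzK), dist_self]
      exact hε
  · exact s05c_int hL hLL hL₂ (h.lx L₂ hL₂U hL₂) hr hr0 1 fun n x hx => (hder n x hx).1
  · exact s05c_int hL hLL hL₂ (h.ly L₂ hL₂U hL₂) hr hr0 Complex.I
      fun n x hx => (hder n x hx).2

end CF6

end

section

set_option autoImplicit false

open MeasureTheory Metric Set Filter Topology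
open scoped ContDiff ENNReal ComplexConjugate

namespace CF6

/-- Cauchy-Schwarz -/
theorem s08a_cs {μ : Measure ℂ} {A D : ℂ → ℝ} (hA : AEStronglyMeasurable A μ)
    (hD : AEStronglyMeasurable D μ) : ‖∫ z, A z * D z ∂μ‖ₑ ≤
      (∫⁻ z, ‖A z‖ₑ ^ 2 ∂μ) ^ (1 / 2 : ℝ) * (∫⁻ z, ‖D z‖ₑ ^ 2 ∂μ) ^ (1 / 2 : ℝ) := by
  refine (enorm_integral_le_lintegral_enorm _).trans ?_
  have h := ENNReal.lintegral_mul_le_Lp_mul_Lq μ Real.HolderConjugate.two_two hA.enorm hD.enorm
  simp only [ENNReal.rpow_two] at h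
  refine le_trans (le_of_eq ?_) h
  refine lintegral_congr fun z => ?_
  rw [Pi.mul_apply, enorm_mul]

/-- the gradient of a function vanishing off `K` vanishes off `K` -/
theorem s08a_zero {U : Set ℂ} (hU : IsOpen U) {g gx gy : ℂ → ℝ} (hg : Sob U g gx gy) {K : Set ℂ}
    (hK : IsCompact K) (h0 : ∀ z, z ∉ K → g z = 0) :
    (∀ᵐ z, z ∈ U \ K → gx z = 0) ∧ (∀ᵐ z, z ∈ U \ K → gy z = 0) := by
  have hw : ∀ (v : ℂ) (φ : ℂ → ℝ), tsupport φ ⊆ U \ K →
      ∫ z, (fderiv ℝ φ z v) • g z = - ∫ z, φ z • (0 : ℝ) := by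
    intro v φ hs
    have h1 : ∀ z, (fderiv ℝ φ z v) • g z = 0 := by
      intro z
      by_cases hz : z ∈ K
      · have hn : z ∉ tsupport φ := fun h => (hs h).2 hz
        have : fderiv ℝ φ z = 0 := by
          by_contra h2
          exact hn (support_fderiv_subset ℝ (f := φ) (Function.mem_support.2 h2))
        rw [this]
        simp
      · rw [h0 z hz, smul_zero]
    have h2 : ∫ z, (fderiv ℝ φ z v) • g z = 0 :=
      integral_eq_zero_of_ae (Eventually.of_forall h1)
    rw [h2]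
    simp
  have hS : Sob (U \ K) g (fun _ => 0) (fun _ => 0) :=
    { cont := hg.cont.mono sdiff_subset
      lx := fun _ _ _ => MemLp.zero'
      ly := fun _ _ _ => MemLp.zero'
      wx := fun φ _ _ hs => hw 1 φ hs
      wy := fun φ _ _ hs => hw Complex.I φ hs }
  exact (hg.mono sdiff_subset).ae_unique (hU.sdiff hK.isClosed) hS

/-- S08a. a weakly divergence free field is orthogonal to the gradients of the compactly supported `Sob` functions.
PROOF. S05c, Cauchy-Schwarz on the compact `L`. `gx = gy = 0` a.e. on `U \ K` (S02f). -/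
theorem DivFree.test {U : Set ℂ} (hU : IsOpen U) {A B : ℂ → ℝ} (hAB : DivFree U A B) {g gx gy : ℂ → ℝ}
    (hg : Sob U g gx gy) {K : Set ℂ} (hK : IsCompact K) (hKU : K ⊆ U) (h0 : ∀ z, z ∉ K → g z = 0) :
    ∫ z in U, (A z * gx z + B z * gy z) = 0 := by
  obtain ⟨φ, L, hL, hLU, hKL, hφ, hφL, -, hx, hy⟩ := hg.exists_approx_compact hU hK hKU h0
  have hA := hAB.lA L hLU hL
  have hB := hAB.lB L hLU hL
  have hgx := hg.lx L hLU hL
  have hgy := hg.ly L hLU hL
  have hcs : ∀ n, HasCompactSupport (φ n) := fun n =>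
    hL.of_isClosed_subset (isClosed_tsupport _) (hφL n)
  have hfin : IsFiniteMeasure (volume.restrict L) :=
    ⟨by rw [Measure.restrict_apply_univ]; exact hL.measure_lt_top⟩
  have hcont : ∀ (n : ℕ) (v : ℂ), Continuous fun z => fderiv ℝ (φ n) z v := fun n v =>
    ((hφ n).continuous_fderiv (by simp)).clm_apply continuous_const
  have hφm : ∀ (n : ℕ) (v : ℂ), MemLp (fun z => fderiv ℝ (φ n) z v) 2 (volume.restrict L) := by
    intro n v
    obtain ⟨C, hC⟩ := hL.exists_bound_of_continuousOn (hcont n v).continuousOn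
    exact MemLp.of_bound (hcont n v).aestronglyMeasurable C
      ((ae_restrict_iff' hL.measurableSet).2 (Eventually.of_forall hC))
  -- restriction to `L`
  obtain ⟨z1, z2⟩ := s08a_zero hU hg hK h0
  have hUL : ∫ z in U, (A z * gx z + B z * gy z) = ∫ z in L, (A z * gx z + B z * gy z) := by
    refine setIntegral_eq_of_subset_of_ae_sdiff_eq_zero hU.measurableSet.nullMeasurableSet hLU ?_
    filter_upwards [z1, z2] with z h1 h2 hz
    have hz' : z ∈ U \ K := ⟨hz.1, fun h => hz.2 (hKL h)⟩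
    rw [h1 hz', h2 hz', mul_zero, mul_zero, add_zero]
  rw [hUL]
  have hφ0 : ∀ n, ∫ z in L, (A z * fderiv ℝ (φ n) z 1 + B z * fderiv ℝ (φ n) z Complex.I) = 0 := by
    intro n
    rw [← hAB.w (φ n) (hφ n) (hcs n) ((hφL n).trans hLU)]
    refine setIntegral_eq_integral_of_forall_compl_eq_zero fun z hz => ?_
    have : fderiv ℝ (φ n) z = 0 := by
      by_contra h2
      exact hz (hφL n (support_fderiv_subset ℝ (f := φ n) (Function.mem_support.2 h2)))
    rw [this]
    simp
  have i1 : ∀ (n : ℕ), Integrable (fun z => A z * (fderiv ℝ (φ n) z 1 - gx z))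
      (volume.restrict L) := fun n => MemLp.integrable_mul hA ((hφm n 1).sub hgx)
  have i2 : ∀ (n : ℕ), Integrable (fun z => B z * (fderiv ℝ (φ n) z Complex.I - gy z))
      (volume.restrict L) := fun n => MemLp.integrable_mul hB ((hφm n Complex.I).sub hgy)
  have i3 : Integrable (fun z => A z * gx z + B z * gy z) (volume.restrict L) :=
    (MemLp.integrable_mul hA hgx).add (MemLp.integrable_mul hB hgy)
  have hkey : ∀ n, ∫ z in L, (A z * gx z + B z * gy z) =
      -((∫ z in L, A z * (fderiv ℝ (φ n) z 1 - gx z)) +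
        ∫ z in L, B z * (fderiv ℝ (φ n) z Complex.I - gy z)) := by
    intro n
    have e : ∫ z in L, (A z * fderiv ℝ (φ n) z 1 + B z * fderiv ℝ (φ n) z Complex.I) =
        (∫ z in L, (A z * gx z + B z * gy z)) +
          ((∫ z in L, A z * (fderiv ℝ (φ n) z 1 - gx z)) +
          ∫ z in L, B z * (fderiv ℝ (φ n) z Complex.I - gy z)) := by
      have i4 : Integrable (fun z => A z * (fderiv ℝ (φ n) z 1 - gx z) +
          B z * (fderiv ℝ (φ n) z Complex.I - gy z)) (volume.restrict L) := (i1 n).add (i2 n)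
      rw [← integral_add (i1 n) (i2 n), ← integral_add i3 i4]
      refine integral_congr_ae (Eventually.of_forall fun z => ?_)
      simp only
      ring
    rw [hφ0 n] at e
    linarith
  have hbound : ∀ n, ‖∫ z in L, (A z * gx z + B z * gy z)‖ₑ ≤
      (∫⁻ z in L, ‖A z‖ₑ ^ 2) ^ (1 / 2 : ℝ) *
        (∫⁻ z in L, ‖fderiv ℝ (φ n) z 1 - gx z‖ₑ ^ 2) ^ (1 / 2 : ℝ) +
      (∫⁻ z in L, ‖B z‖ₑ ^ 2) ^ (1 / 2 : ℝ) *
        (∫⁻ z in L, ‖fderiv ℝ (φ n) z Complex.I - gy z‖ₑ ^ 2) ^ (1 / 2 : ℝ) := by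
    intro n
    rw [hkey n, enorm_neg]
    exact (enorm_add_le _ _).trans (add_le_add (s08a_cs hA.1 ((hφm n 1).sub hgx).1)
      (s08a_cs hB.1 ((hφm n Complex.I).sub hgy).1))
  have hfinA : (∫⁻ z in L, ‖A z‖ₑ ^ 2) ≠ ⊤ := by
    have := (memLp_two_iff_integrable_sq_norm hA.1).1 hA
    have h2 := this.2.ne
    intro htop
    apply h2
    rw [← htop]
    refine lintegral_congr fun z => ?_
    rw [enorm_pow, enorm_norm]
  have hfinB : (∫⁻ z in L, ‖B z‖ₑ ^ 2) ≠ ⊤ := by
    have := (memLp_two_iff_integrable_sq_norm hB.1).1 hB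
    have h2 := this.2.ne
    intro htop
    apply h2
    rw [← htop]
    refine lintegral_congr fun z => ?_
    rw [enorm_pow, enorm_norm]
  have hlim : Tendsto (fun n => (∫⁻ z in L, ‖A z‖ₑ ^ 2) ^ (1 / 2 : ℝ) *
        (∫⁻ z in L, ‖fderiv ℝ (φ n) z 1 - gx z‖ₑ ^ 2) ^ (1 / 2 : ℝ) +
      (∫⁻ z in L, ‖B z‖ₑ ^ 2) ^ (1 / 2 : ℝ) *
        (∫⁻ z in L, ‖fderiv ℝ (φ n) z Complex.I - gy z‖ₑ ^ 2) ^ (1 / 2 : ℝ)) atTop (𝓝 0) := by
    have h1 := hx.ennrpow_const (1 / 2 : ℝ)
    have h2 := hy.ennrpow_const (1 / 2 : ℝ)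
    rw [ENNReal.zero_rpow_of_pos (by norm_num)] at h1 h2
    have hA' : (∫⁻ z in L, ‖A z‖ₑ ^ 2) ^ (1 / 2 : ℝ) ≠ ⊤ :=
      ENNReal.rpow_ne_top_of_nonneg (by norm_num) hfinA
    have hB' : (∫⁻ z in L, ‖B z‖ₑ ^ 2) ^ (1 / 2 : ℝ) ≠ ⊤ :=
      ENNReal.rpow_ne_top_of_nonneg (by norm_num) hfinB
    have h3 := ENNReal.Tendsto.const_mul h1 (Or.inr hA')
    have h4 := ENNReal.Tendsto.const_mul h2 (Or.inr hB')
    have h5 := h3.add h4
    rwa [mul_zero, mul_zero, add_zero] at h5
  have hle := ge_of_tendsto' hlim hbound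
  exact enorm_eq_zero.1 (le_antisymm hle bot_le)

end CF6

end

section

set_option autoImplicit false

open MeasureTheory Metric Set Filter Topology
open scoped ContDiff ENNReal ComplexConjugate

namespace CF6

theorem dp1_enorm (a b : ℝ) : ‖a‖ₑ ^ 2 + ‖b‖ₑ ^ 2 = ENNReal.ofReal (a ^ 2 + b ^ 2) := by
  rw [Real.enorm_eq_ofReal_abs, Real.enorm_eq_ofReal_abs, ← ENNReal.ofReal_pow (abs_nonneg _),
    ← ENNReal.ofReal_pow (abs_nonneg _), sq_abs, sq_abs,
    ← ENNReal.ofReal_add (sq_nonneg _) (sq_nonneg _)]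

theorem dp1_key {D K : Set ℂ} (hD : IsOpen D) {v vx vy A B W : ℂ → ℝ} {ε : ℝ}
    (hK : IsCompact K) (hv : ContinuousOn v D) (hW : ContinuousOn W K)
    (W01 : ∀ z, 0 ≤ W z ∧ W z ≤ 1) (W0 : ∀ z ∈ D, z ∉ K → W z = 0)
    (W0' : ∀ z ∈ D, v z = 0 → W z = 0) (W1 : ∀ z ∈ D, ε ≤ |v z| → W z = 1)
    (lA : MemLp A 2 (volume.restrict K)) (lB : MemLp B 2 (volume.restrict K))
    (lvx : MemLp vx 2 (volume.restrict K)) (lvy : MemLp vy 2 (volume.restrict K))
    (h0 : ∫ z in D, (A z * (W z * vx z) + B z * (W z * vy z)) = 0) :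
    ∫⁻ z in D ∩ {z | ε ≤ |v z|}, (‖A z‖ₑ ^ 2 + ‖B z‖ₑ ^ 2) ≤
      ∫⁻ z in D ∩ {z | v z ≠ 0}, (‖A z + vx z‖ₑ ^ 2 + ‖B z + vy z‖ₑ ^ 2) := by
  have hDm : MeasurableSet D := hD.measurableSet
  have hext : ∀ H : ℂ → ℝ, IntegrableOn H K → IntegrableOn (fun z => W z * H z) D := by
    intro H hH
    refine IntegrableOn.of_forall_sdiff_eq_zero (hH.continuousOn_mul hW hK) hDm ?_
    intro z hz
    simp only [W0 z hz.1 hz.2, zero_mul]
  have iA : IntegrableOn (fun z => A z ^ 2) K := lA.integrable_sq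
  have iB : IntegrableOn (fun z => B z ^ 2) K := lB.integrable_sq
  have iF1 : IntegrableOn (fun z => (A z + vx z) ^ 2) K := (lA.add lvx).integrable_sq
  have iF2 : IntegrableOn (fun z => (B z + vy z) ^ 2) K := (lB.add lvy).integrable_sq
  have iX : IntegrableOn (fun z => A z * vx z) K := lA.integrable_mul lvx
  have iY : IntegrableOn (fun z => B z * vy z) K := lB.integrable_mul lvy
  have iU : IntegrableOn (fun z => W z * (A z ^ 2 + B z ^ 2)) D := hext _ (iA.add iB)
  have iF : IntegrableOn (fun z => W z * ((A z + vx z) ^ 2 + (B z + vy z) ^ 2)) D :=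
    hext _ (iF1.add iF2)
  have iI : IntegrableOn (fun z => W z * (A z * vx z + B z * vy z)) D := hext _ (iX.add iY)
  have h1 : ∫ z in D, W z * (A z ^ 2 + B z ^ 2) ≤
      ∫ z in D, W z * ((A z + vx z) ^ 2 + (B z + vy z) ^ 2) := by
    have h2 : ∫ z in D, W z * (A z * vx z + B z * vy z) = 0 := by
      rw [← h0]
      refine integral_congr_ae (Eventually.of_forall fun z => ?_)
      show W z * (A z * vx z + B z * vy z) = A z * (W z * vx z) + B z * (W z * vy z)
      ring
    have h3 : ∫ z in D, (W z * (A z ^ 2 + B z ^ 2) + 2 * (W z * (A z * vx z + B z * vy z))) =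
        ∫ z in D, W z * (A z ^ 2 + B z ^ 2) := by
      rw [integral_add iU (iI.const_mul 2), integral_const_mul, h2, mul_zero, add_zero]
    rw [← h3]
    refine integral_mono (iU.add (iI.const_mul 2)) iF fun z => ?_
    show W z * (A z ^ 2 + B z ^ 2) + 2 * (W z * (A z * vx z + B z * vy z)) ≤
      W z * ((A z + vx z) ^ 2 + (B z + vy z) ^ 2)
    have h4 : 0 ≤ W z * (vx z ^ 2 + vy z ^ 2) := mul_nonneg (W01 z).1 (by positivity)
    nlinarith
  have h2 : ∫⁻ z in D, ENNReal.ofReal (W z * (A z ^ 2 + B z ^ 2)) ≤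
      ∫⁻ z in D, ENNReal.ofReal (W z * ((A z + vx z) ^ 2 + (B z + vy z) ^ 2)) := by
    rw [← ofReal_integral_eq_lintegral_ofReal iU
        (Eventually.of_forall fun z => mul_nonneg (W01 z).1 (by positivity)),
      ← ofReal_integral_eq_lintegral_ofReal iF
        (Eventually.of_forall fun z => mul_nonneg (W01 z).1 (by positivity))]
    exact ENNReal.ofReal_le_ofReal h1
  have hopen : ∀ s : Set ℝ, IsOpen s → IsOpen (D ∩ v ⁻¹' s) := fun s hs =>
    hv.isOpen_inter_preimage hD hs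
  have hm1 : MeasurableSet (D ∩ {z | ε ≤ |v z|}) := by
    have h3 : D ∩ {z | ε ≤ |v z|} = D \ (D ∩ v ⁻¹' {t | |t| < ε}) := by
      ext z
      constructor
      · rintro ⟨h4, h5⟩
        refine ⟨h4, fun h6 => ?_⟩
        have h7 : |v z| < ε := h6.2
        have h8 : ε ≤ |v z| := h5
        linarith
      · rintro ⟨h4, h5⟩
        refine ⟨h4, ?_⟩
        show ε ≤ |v z|
        by_contra h6
        exact h5 ⟨h4, (not_le.mp h6 : |v z| < ε)⟩
    rw [h3]
    exact hDm.diff (hopen _ (isOpen_lt continuous_abs continuous_const)).measurableSet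
  have hm2 : MeasurableSet (D ∩ {z | v z ≠ 0}) :=
    (hopen {t | t ≠ 0} isOpen_ne).measurableSet
  calc ∫⁻ z in D ∩ {z | ε ≤ |v z|}, (‖A z‖ₑ ^ 2 + ‖B z‖ₑ ^ 2)
      = ∫⁻ z in D ∩ {z | ε ≤ |v z|}, ENNReal.ofReal (W z * (A z ^ 2 + B z ^ 2)) := by
        refine setLIntegral_congr_fun hm1 fun z hz => ?_
        show ‖A z‖ₑ ^ 2 + ‖B z‖ₑ ^ 2 = _
        rw [dp1_enorm, W1 z hz.1 hz.2, one_mul]
    _ ≤ ∫⁻ z in D, ENNReal.ofReal (W z * (A z ^ 2 + B z ^ 2)) :=
        lintegral_mono_set inter_subset_left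
    _ ≤ ∫⁻ z in D, ENNReal.ofReal (W z * ((A z + vx z) ^ 2 + (B z + vy z) ^ 2)) := h2
    _ ≤ ∫⁻ z in D, (D ∩ {z | v z ≠ 0}).indicator
          (fun z => ‖A z + vx z‖ₑ ^ 2 + ‖B z + vy z‖ₑ ^ 2) z := by
        refine setLIntegral_mono' hDm fun z hz => ?_
        by_cases h4 : v z = 0
        · rw [W0' z hz h4, zero_mul, ENNReal.ofReal_zero]
          exact bot_le
        · rw [indicator_of_mem (show z ∈ D ∩ {z | v z ≠ 0} from ⟨hz, h4⟩), dp1_enorm]
          refine ENNReal.ofReal_le_ofReal ?_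
          have h5 := (W01 z).2
          have h6 : 0 ≤ (A z + vx z) ^ 2 + (B z + vy z) ^ 2 := by positivity
          nlinarith
    _ ≤ ∫⁻ z, (D ∩ {z | v z ≠ 0}).indicator
          (fun z => ‖A z + vx z‖ₑ ^ 2 + ‖B z + vy z‖ₑ ^ 2) z := setLIntegral_le_lintegral _ _
    _ = ∫⁻ z in D ∩ {z | v z ≠ 0}, (‖A z + vx z‖ₑ ^ 2 + ‖B z + vy z‖ₑ ^ 2) :=
        lintegral_indicator hm2 _

theorem dp1_sob {u : ℂ → ℝ} {G : ℂ → ℂ} (hG : DifferentiableOn ℂ G (ball 0 1))
    (hu : ∀ z ∈ ball (0 : ℂ) 1, u z = (G z).re) :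
    Sob (ball 0 1) u (fun z => (deriv G z).re) (fun z => -(deriv G z).im) := by
  have h1 : ContDiffOn ℝ 1 G (ball 0 1) := (hG.contDiffOn isOpen_ball).restrict_scalars ℝ
  have h2 : ContDiffOn ℝ 1 (fun z => (G z).re) (ball 0 1) :=
    Complex.reCLM.contDiff.comp_contDiffOn h1
  have h3 := sob_of_contDiffOn isOpen_ball h2
  have h4 : ∀ z ∈ ball (0 : ℂ) 1, ∀ e : ℂ, fderiv ℝ (fun z => (G z).re) z e =
      (deriv G z * e).re := by
    intro z hz e
    have h5 : HasFDerivAt G ((ContinuousLinearMap.toSpanSingleton ℂ (deriv G z)).restrictScalars ℝ :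
        ℂ →L[ℝ] ℂ) z :=
      (hG.differentiableAt (isOpen_ball.mem_nhds hz)).hasDerivAt.hasFDerivAt.restrictScalars ℝ
    have h6 := (Complex.reCLM.hasFDerivAt.comp z h5).fderiv
    have h7 : fderiv ℝ (fun z => (G z).re) z = Complex.reCLM.comp
      ((ContinuousLinearMap.toSpanSingleton ℂ (deriv G z)).restrictScalars ℝ : ℂ →L[ℝ] ℂ) := h6
    rw [h7]
    show (e • deriv G z).re = _
    rw [smul_eq_mul, mul_comm]
  refine (h3.congr_ae (Eventually.of_forall fun z hz => ?_)
    (Eventually.of_forall fun z hz => ?_)).congr hu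
  · rw [h4 z hz, mul_one]
  · rw [h4 z hz]
    simp

/-- DP1. Dirichlet principle, real valued.
PROOF. `u` harmonic, `u = (G ·).re` on the disc, `p = deriv G` holomorphic, `ux = (p ·).re`, `uy = -(p ·).im` (classical derivatives of `u`; S01 gives `Sob (ball 0 1) u ux uy`). `v = f - u` is in `Sob` (S02) with derivatives `fx - ux`, `fy - uy`; continuous on the closed disc, `0` on the circle.
For `ε > 0` let `T` be the truncation (S10a). `T ∘ v` (set `= 0` off the disc) has compact support in the disc (`{|v| ≥ ε/2}` is compact in the open disc by continuity on the closed disc) and is in `Sob` with derivatives `T'(v) vx`, `T'(v) vy` (S06b). By S08a, S08b: `∫ T'(v) (ux vx + uy vy) = 0`. Since `|∇f|² = |∇u|² + 2 ∇u·∇v + |∇v|²`: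
`∫ T'(v) |∇u|² ≤ ∫ T'(v) |∇f|² ≤ ∫_{v ≠ 0} |∇f|²` (all functions are integrable: `T'(v)` has compact support in the disc). Let `ε → 0` (Fatou / monotone): `∫_{v ≠ 0} |∇u|² ≤ ∫_{v≠0} |∇f|²`. On `{v = 0}`: `∇u = ∇f` a.e. by S10b. Add. -/
theorem dirichlet_real {f fx fy u : ℂ → ℝ} {G : ℂ → ℂ} (hf : Sob (ball 0 1) f fx fy)
    (hen : enE (ball (0 : ℂ) 1) fx fy < ⊤) (hG : DifferentiableOn ℂ G (ball 0 1))
    (hu : ∀ z ∈ ball (0 : ℂ) 1, u z = (G z).re) (hc : ContinuousOn (fun z => f z - u z) (closedBall 0 1))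
    (h0 : ∀ z ∈ sphere (0 : ℂ) 1, f z = u z) :
    enE (ball (0 : ℂ) 1) (fun z => (deriv G z).re) (fun z => -(deriv G z).im) ≤
      enE (ball (0 : ℂ) 1) fx fy := by
  classical
  have hD : IsOpen (ball (0 : ℂ) 1) := isOpen_ball
  have hDm : MeasurableSet (ball (0 : ℂ) 1) := hD.measurableSet
  have hp : DifferentiableOn ℂ (deriv G) (ball 0 1) := hG.deriv hD
  have hu' := dp1_sob hG hu
  have hv := hf.sub hu'
  have hdiv := divFree_of_holo hD hp
  have hvc : ContinuousOn (fun z => f z - u z) (ball 0 1) := hv.cont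
  obtain ⟨v, hvdef⟩ : ∃ v : ℂ → ℝ, v = fun z => f z - u z := ⟨_, rfl⟩
  rw [← hvdef] at hvc hv hc
  have hvs : ∀ z ∈ sphere (0 : ℂ) 1, v z = 0 := by
    intro z hz
    rw [hvdef]
    show f z - u z = 0
    rw [h0 z hz, sub_self]
  have key : ∀ ε : ℝ, 0 < ε → ∫⁻ z in ball (0 : ℂ) 1 ∩ {z | ε ≤ |v z|},
      (‖(deriv G z).re‖ₑ ^ 2 + ‖-(deriv G z).im‖ₑ ^ 2) ≤
      ∫⁻ z in ball (0 : ℂ) 1 ∩ {z | v z ≠ 0}, (‖fx z‖ₑ ^ 2 + ‖fy z‖ₑ ^ 2) := by
    intro ε hε
    obtain ⟨T, hT, T0, T1, _, T3, T4⟩ := exists_trunc hε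
    have hK0 : IsClosed (closedBall (0 : ℂ) 1 ∩ v ⁻¹' {t | ε / 2 ≤ |t|}) :=
      hc.preimage_isClosed_of_isClosed isClosed_closedBall
        (isClosed_le continuous_const continuous_abs)
    obtain ⟨K, hKdef⟩ : ∃ K : Set ℂ, K = closedBall (0 : ℂ) 1 ∩ v ⁻¹' {t | ε / 2 ≤ |t|} :=
      ⟨_, rfl⟩
    rw [← hKdef] at hK0
    have hK : IsCompact K := by
      refine (isCompact_closedBall (0 : ℂ) 1).of_isClosed_subset hK0 ?_
      rw [hKdef]
      exact inter_subset_left
    have hKD : K ⊆ ball 0 1 := by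
      intro z hz
      rw [hKdef] at hz
      have h1 : ‖z‖ ≤ 1 := by simpa using hz.1
      rw [mem_ball_zero_iff]
      refine lt_of_le_of_ne h1 fun h2 => ?_
      have h3 := hvs z (by simpa using h2)
      have h4 : ε / 2 ≤ |v z| := hz.2
      rw [h3, abs_zero] at h4
      linarith
    have hKout : ∀ z ∈ ball (0 : ℂ) 1, z ∉ K → |v z| ≤ ε / 2 := by
      intro z hz hzK
      by_contra h1
      push Not at h1
      apply hzK
      rw [hKdef]
      exact ⟨ball_subset_closedBall hz, h1.le⟩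
    have hT1 : ContDiff ℝ 1 T := hT.of_le (by simp)
    have hTv := (hv.comp_contDiff hD hT1).congr
      (g := fun z => if z ∈ ball (0 : ℂ) 1 then T (v z) else 0)
      (fun z hz => if_pos hz)
    have htest := hdiv.test hD hTv hK hKD (by
      intro z hz
      by_cases h1 : z ∈ ball (0 : ℂ) 1
      · show (if z ∈ ball (0 : ℂ) 1 then T (v z) else 0) = 0
        rw [if_pos h1]
        exact T0 _ (hKout z h1 hz)
      · exact if_neg h1)
    have hres := dp1_key (D := ball (0 : ℂ) 1) (K := K) (v := v) (vx := fun z => fx z -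
        (deriv G z).re) (vy := fun z => fy z - -(deriv G z).im) (A := fun z => (deriv G z).re)
      (B := fun z => -(deriv G z).im) (W := fun z => deriv T (v z)) hD hK hvc
      ((hT1.continuous_deriv le_rfl).comp_continuousOn (hvc.mono hKD)) (fun z => T1 _)
      (fun z hz hzK => T4 _ (hKout z hz hzK))
      (fun z hz h1 => T4 _ (by rw [h1, abs_zero]; positivity))
      (fun z hz h1 => T3 _ h1) (hu'.lx K hKD hK) (hu'.ly K hKD hK) (hv.lx K hKD hK)
      (hv.ly K hKD hK) (by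
        rw [← htest]
        refine integral_congr_ae (Eventually.of_forall fun z => ?_)
        simp only [fderiv_eq_smul_deriv, smul_eq_mul]
        ring)
    refine hres.trans (le_of_eq ?_)
    refine lintegral_congr fun z => ?_
    congr 3 <;> ring
  have hopen : IsOpen (ball (0 : ℂ) 1 ∩ {z | v z ≠ 0}) :=
    hvc.isOpen_inter_preimage hD isOpen_ne
  have hpart1 : ∫⁻ z in ball (0 : ℂ) 1 ∩ {z | v z ≠ 0},
      (‖(deriv G z).re‖ₑ ^ 2 + ‖-(deriv G z).im‖ₑ ^ 2) ≤
      ∫⁻ z in ball (0 : ℂ) 1 ∩ {z | v z ≠ 0}, (‖fx z‖ₑ ^ 2 + ‖fy z‖ₑ ^ 2) := by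
    have h1 : ball (0 : ℂ) 1 ∩ {z | v z ≠ 0} =
        ⋃ n : ℕ, (ball (0 : ℂ) 1 ∩ {z | 1 / ((n : ℝ) + 1) ≤ |v z|}) := by
      ext z
      simp only [mem_iUnion]
      constructor
      · rintro ⟨h2, h3⟩
        obtain ⟨n, hn⟩ := exists_nat_one_div_lt (abs_pos.mpr h3)
        exact ⟨n, h2, hn.le⟩
      · rintro ⟨n, h2, h3⟩
        refine ⟨h2, fun h4 => ?_⟩
        have h5 : (0 : ℝ) < 1 / ((n : ℝ) + 1) := by positivity
        have h6 : 1 / ((n : ℝ) + 1) ≤ |v z| := h3
        rw [h4, abs_zero] at h6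
        linarith
    rw [h1, setLIntegral_iUnion_of_directed, ← h1]
    · exact iSup_le fun n => key _ (by positivity)
    · refine Monotone.directed_le ?_
      intro n m hnm z hz
      refine ⟨hz.1, ?_⟩
      have h2 : (n : ℝ) ≤ m := by exact_mod_cast hnm
      have h3 : 1 / ((n : ℝ) + 1) ≤ |v z| := hz.2
      show 1 / ((m : ℝ) + 1) ≤ |v z|
      exact (one_div_le_one_div_of_le (by positivity) (by linarith)).trans h3
  have hpart2 : ∫⁻ z in ball (0 : ℂ) 1 \ (ball (0 : ℂ) 1 ∩ {z | v z ≠ 0}),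
      (‖(deriv G z).re‖ₑ ^ 2 + ‖-(deriv G z).im‖ₑ ^ 2) =
      ∫⁻ z in ball (0 : ℂ) 1 \ (ball (0 : ℂ) 1 ∩ {z | v z ≠ 0}),
        (‖fx z‖ₑ ^ 2 + ‖fy z‖ₑ ^ 2) := by
    refine setLIntegral_congr_fun_ae (hDm.diff hopen.measurableSet) ?_
    filter_upwards [hv.ae_zero hD] with z hz hzD
    have h1 : v z = 0 := by
      by_contra h2
      exact hzD.2 ⟨hzD.1, h2⟩
    obtain ⟨h2, h3⟩ := hz hzD.1 h1
    rw [← sub_eq_zero.mp h2, ← sub_eq_zero.mp h3]
  unfold enE
  have hsplit : ∀ H : ℂ → ℝ≥0∞, ∫⁻ z in ball (0 : ℂ) 1, H z =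
      (∫⁻ z in ball (0 : ℂ) 1 ∩ {z | v z ≠ 0}, H z) +
        ∫⁻ z in ball (0 : ℂ) 1 \ (ball (0 : ℂ) 1 ∩ {z | v z ≠ 0}), H z := by
    intro H
    have h1 := lintegral_inter_add_sdiff (μ := volume) H (ball (0 : ℂ) 1) hopen.measurableSet
    rw [← inter_assoc, inter_self] at h1
    exact h1.symm
  rw [hsplit, hsplit (fun z => ‖fx z‖ₑ ^ 2 + ‖fy z‖ₑ ^ 2), hpart2]
  exact add_le_add hpart1 le_rfl

end CF6

end

section

set_option autoImplicit false

open MeasureTheory Metric Set Filter Topology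
open scoped ContDiff ENNReal ComplexConjugate

namespace CF6

theorem dp2_norm (z : ℂ) : ‖z‖ₑ ^ 2 = ‖z.re‖ₑ ^ 2 + ‖z.im‖ₑ ^ 2 := by
  rw [← ofReal_norm, ← ofReal_norm, ← ofReal_norm, ← ENNReal.ofReal_pow (norm_nonneg _),
    ← ENNReal.ofReal_pow (norm_nonneg _), ← ENNReal.ofReal_pow (norm_nonneg _),
    ← ENNReal.ofReal_add (by positivity) (by positivity)]
  congr 1
  rw [Complex.sq_norm, Complex.normSq_apply, Real.norm_eq_abs, Real.norm_eq_abs, sq_abs, sq_abs]
  ring

/-- one component -/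
theorem dp2_comp {F Fx Fy : ℂ → ℂ} (hc : ContinuousOn F (closedBall 0 1))
    (hF : Sob (ball 0 1) F Fx Fy) (hen : en (ball 0 1) Fx Fy < ⊤) (L : ℂ →L[ℝ] ℝ)
    (hL : ∀ z, ‖L z‖ ≤ ‖z‖) (hp : ∀ w ∈ ball (0 : ℂ) 1, L (poi F w) = poi (fun z => L (F z)) w) :
    ∃ G : ℂ → ℂ, DifferentiableOn ℂ G (ball 0 1) ∧
      (∀ w ∈ ball (0 : ℂ) 1, L (fderiv ℝ (poi F) w 1) = (deriv G w).re) ∧
      (∀ w ∈ ball (0 : ℂ) 1, L (fderiv ℝ (poi F) w Complex.I) = -(deriv G w).im) ∧
      enE (ball (0 : ℂ) 1) (fun z => (deriv G z).re) (fun z => -(deriv G z).im) ≤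
        enE (ball (0 : ℂ) 1) (fun z => L (Fx z)) (fun z => L (Fy z)) := by
  classical
  have hcs : ContinuousOn F (sphere 0 1) := hc.mono sphere_subset_closedBall
  have hLs : ContinuousOn (fun z => L (F z)) (sphere 0 1) := L.continuous.comp_continuousOn hcs
  obtain ⟨G, hG, hGw, -⟩ := poi_eq_re hLs
  have hen' : enE (ball (0 : ℂ) 1) (fun z => L (Fx z)) (fun z => L (Fy z)) < ⊤ := by
    refine lt_of_le_of_lt (lintegral_mono fun z => ?_) hen
    have e : ∀ w : ℂ, ‖L w‖ₑ ≤ ‖w‖ₑ := by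
      intro w
      rw [← ofReal_norm, ← ofReal_norm]
      exact ENNReal.ofReal_le_ofReal (hL w)
    exact add_le_add (pow_le_pow_left' (e _) 2) (pow_le_pow_left' (e _) 2)
  have hu : ∀ z ∈ ball (0 : ℂ) 1, L ((ball (0 : ℂ) 1).piecewise (poi F) F z) = (G z).re := by
    intro z hz
    rw [piecewise_eq_of_mem _ _ _ hz, hp z hz, hGw z hz]
  have hmain := dirichlet_real (f := fun z => L (F z)) (u := fun z =>
    L ((ball (0 : ℂ) 1).piecewise (poi F) F z)) (hF.clm L) hen' hG hu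
    ((L.continuous.comp_continuousOn hc).sub
      (L.continuous.comp_continuousOn (poi_continuousOn hcs)))
    (fun z hz => by
      have : z ∉ ball (0 : ℂ) 1 := by
        intro h
        rw [mem_ball_zero_iff] at h
        rw [mem_sphere_zero_iff_norm] at hz
        exact h.ne hz
      simp only [piecewise_eq_of_notMem _ _ _ this])
  have hder : ∀ w ∈ ball (0 : ℂ) 1, ∀ v : ℂ, L (fderiv ℝ (poi F) w v) = (deriv G w * v).re := by
    intro w hw v
    have hball : ball (0 : ℂ) 1 ∈ 𝓝 w := isOpen_ball.mem_nhds hw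
    have hd : DifferentiableAt ℝ (poi F) w :=
      ((poi_contDiffOn hcs).contDiffAt hball).differentiableAt (by simp)
    have hdG : HasDerivAt G (deriv G w) w := (hG.differentiableAt hball).hasDerivAt
    have h1 : HasFDerivAt (fun w => L (poi F w)) (L.comp (fderiv ℝ (poi F) w)) w :=
      (L.hasFDerivAt).comp w hd.hasFDerivAt
    have h2 : HasFDerivAt (fun w => (G w).re)
        (Complex.reCLM.comp ((ContinuousLinearMap.toSpanSingleton ℂ (deriv G w)).restrictScalars ℝ))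
        w := by
      have := (hdG.hasFDerivAt.restrictScalars ℝ)
      exact (Complex.reCLM.hasFDerivAt).comp w this
    have h3 : (fun w => L (poi F w)) =ᶠ[𝓝 w] (fun w => (G w).re) := by
      filter_upwards [hball] with x hx
      rw [hp x hx, hGw x hx]
    have h4 := h1.unique (h2.congr_of_eventuallyEq h3)
    have h5 := congrArg (fun L : ℂ →L[ℝ] ℝ => L v) h4
    simp only [ContinuousLinearMap.comp_apply, Complex.reCLM_apply,
      ContinuousLinearMap.coe_restrictScalars', ContinuousLinearMap.toSpanSingleton_apply,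
      smul_eq_mul] at h5
    rw [h5, mul_comm]
  refine ⟨G, hG, fun w hw => ?_, fun w hw => ?_, hmain⟩
  · rw [hder w hw, mul_one]
  · rw [hder w hw]
    simp

/-- DP2. Dirichlet principle for the Poisson integral, complex valued.
PROOF. DP1 for real and imaginary parts of `F` (`Sob.clm`), with `u = ` real (imaginary) part of `poi F` in the disc, `= F` on the circle (PO1, PO1b, PO2b); add the two inequalities (`‖z‖ₑ² = ` sum of the squares of the components). -/
theorem dirichlet_principle {F Fx Fy : ℂ → ℂ} (hc : ContinuousOn F (closedBall 0 1))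
    (hF : Sob (ball 0 1) F Fx Fy) (hen : en (ball 0 1) Fx Fy < ⊤) :
    en (ball 0 1) (fun z => fderiv ℝ (poi F) z 1) (fun z => fderiv ℝ (poi F) z Complex.I) ≤
      en (ball 0 1) Fx Fy := by
  have hcs : ContinuousOn F (sphere 0 1) := hc.mono sphere_subset_closedBall
  obtain ⟨G1, d1, x1, y1, m1⟩ := dp2_comp hc hF hen Complex.reCLM
    (fun z => by simpa using Complex.abs_re_le_norm z)
    (fun w hw => by simpa using (poi_re hcs hw).1)
  obtain ⟨G2, -, x2, y2, m2⟩ := dp2_comp hc hF hen Complex.imCLM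
    (fun z => by simpa using Complex.abs_im_le_norm z)
    (fun w hw => by simpa using (poi_re hcs hw).2)
  simp only [Complex.reCLM_apply] at x1 y1 m1
  simp only [Complex.imCLM_apply] at x2 y2 m2
  have hmeas : AEMeasurable (fun z => ‖(deriv G1 z).re‖ₑ ^ 2 + ‖-(deriv G1 z).im‖ₑ ^ 2)
      ((volume : Measure ℂ).restrict (ball 0 1)) := by
    have hcont : ContinuousOn (deriv G1) (ball 0 1) :=
      (d1.deriv isOpen_ball).continuousOn
    have hm : AEMeasurable (deriv G1) ((volume : Measure ℂ).restrict (ball 0 1)) :=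
      hcont.aemeasurable measurableSet_ball
    exact ((Complex.measurable_re.comp_aemeasurable hm).enorm.pow_const 2).add
      ((Complex.measurable_im.comp_aemeasurable hm).neg.enorm.pow_const 2)
  calc en (ball 0 1) (fun z => fderiv ℝ (poi F) z 1) (fun z => fderiv ℝ (poi F) z Complex.I)
      = ∫⁻ z in ball (0 : ℂ) 1, ((‖(deriv G1 z).re‖ₑ ^ 2 + ‖-(deriv G1 z).im‖ₑ ^ 2) +
          (‖(deriv G2 z).re‖ₑ ^ 2 + ‖-(deriv G2 z).im‖ₑ ^ 2)) := by
        refine setLIntegral_congr_fun measurableSet_ball fun z hz => ?_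
        simp only
        rw [dp2_norm, dp2_norm (fderiv ℝ (poi F) z Complex.I), x1 z hz, x2 z hz, y1 z hz, y2 z hz]
        ring
    _ = enE (ball (0 : ℂ) 1) (fun z => (deriv G1 z).re) (fun z => -(deriv G1 z).im) +
          enE (ball (0 : ℂ) 1) (fun z => (deriv G2 z).re) (fun z => -(deriv G2 z).im) :=
        lintegral_add_left' hmeas _
    _ ≤ enE (ball (0 : ℂ) 1) (fun z => (Fx z).re) (fun z => (Fy z).re) +
          enE (ball (0 : ℂ) 1) (fun z => (Fx z).im) (fun z => (Fy z).im) := add_le_add m1 m2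
    _ ≤ ∫⁻ z in ball (0 : ℂ) 1, ((‖(Fx z).re‖ₑ ^ 2 + ‖(Fy z).re‖ₑ ^ 2) +
          (‖(Fx z).im‖ₑ ^ 2 + ‖(Fy z).im‖ₑ ^ 2)) := le_lintegral_add _ _
    _ = en (ball 0 1) Fx Fy := by
        refine lintegral_congr fun z => ?_
        rw [dp2_norm (Fx z), dp2_norm (Fy z)]
        ring

end CF6

end

section

set_option autoImplicit false

open MeasureTheory Metric Set Filter Topology
open scoped ContDiff ENNReal ComplexConjugate

namespace CF6

/-- uniform closeness to the boundary values -/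
theorem ce1_unif {D : ℂ → ℝ} (hD : ContinuousOn D (closedBall (0 : ℂ) 1))
    (h0 : ∀ z ∈ sphere (0 : ℂ) 1, D z = 0) {η : ℝ} (hη : 0 < η) :
    ∃ ρ < (1 : ℝ), ∀ z ∈ ball (0 : ℂ) 1, ρ < ‖z‖ → D z ≤ η := by
  set C : Set ℂ := closedBall (0 : ℂ) 1 ∩ D ⁻¹' Ici η with hC
  have hCcl : IsClosed C := hD.preimage_isClosed_of_isClosed isClosed_closedBall isClosed_Ici
  have hCc : IsCompact C := (isCompact_closedBall (0 : ℂ) 1).of_isClosed_subset hCcl
    inter_subset_left
  rcases C.eq_empty_or_nonempty with he | hne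
  · refine ⟨0, by norm_num, fun z hz _ => ?_⟩
    by_contra hlt
    push Not at hlt
    have : z ∈ C := ⟨ball_subset_closedBall hz, hlt.le⟩
    rw [he] at this
    exact this
  · obtain ⟨z0, hz0, hmax⟩ := hCc.exists_isMaxOn hne continuous_norm.continuousOn
    have hz1 : ‖z0‖ ≤ 1 := by
      have := hz0.1
      rwa [mem_closedBall_zero_iff] at this
    have hz2 : ‖z0‖ ≠ 1 := by
      intro h1
      have h2 := h0 z0 (by rwa [mem_sphere_zero_iff_norm])
      have h3 : η ≤ D z0 := hz0.2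
      rw [h2] at h3
      exact absurd h3 (not_le.mpr hη)
    refine ⟨‖z0‖, lt_of_le_of_ne hz1 hz2, fun z hz hlt => ?_⟩
    by_contra hgt
    push Not at hgt
    have h4 : ‖z‖ ≤ ‖z0‖ := hmax (show z ∈ C from ⟨ball_subset_closedBall hz, hgt.le⟩)
    linarith

/-- CE1. The harmonic replacement on the disc.
PROOF. `Hb` from BE2; `u = poi Hb`. `u` maps the disc into `ball c r` (PO2c; `Hb` is onto the circle `sphere c r`, so not constant), is smooth (PO1d), has injective differential (RK3 for `Hb`, which is a `PMap` because it is equal to `H` on the open disc), is proper (`(ball 0 1).piecewise u Hb` is continuous on the closed disc (PO2b) and maps the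
circle to `sphere c r`, so `{z ∈ ball | u z ∈ K}` is closed in the closed disc), so bijective (J1). Energy: DP2 for `F = Hb` (`Sob.congr`). `Sob`: S01. `u - H → 0` uniformly at the circle: uniform continuity of `piecewise u Hb - Hb` on the compact closed disc, which is `0` on the circle. -/
theorem disc_replace {c : ℂ} {r : ℝ} (hr : 0 < r) {H Hx Hy : ℂ → ℂ}
    (h : PMap (ball 0 1) (ball c r) H) (hS : Sob (ball 0 1) H Hx Hy)
    (hen : en (ball 0 1) Hx Hy < ⊤) :
    ∃ u ux uy : ℂ → ℂ, BijOn u (ball 0 1) (ball c r) ∧ Sob (ball 0 1) u ux uy ∧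
      en (ball 0 1) ux uy ≤ en (ball 0 1) Hx Hy ∧
      ∀ η > (0 : ℝ), ∃ ρ < (1 : ℝ), ∀ z ∈ ball (0 : ℂ) 1, ρ < ‖z‖ → ‖u z - H z‖ ≤ η := by
  classical
  obtain ⟨Hb, hHc, hHe, hHm, hHs⟩ := h.exists_ext hr hS hen
  have hb : ContinuousOn Hb (sphere 0 1) := hHc.mono sphere_subset_closedBall
  have hfib : ∀ S : Set ℂ, ball (0 : ℂ) 1 ∩ Hb ⁻¹' S = ball (0 : ℂ) 1 ∩ H ⁻¹' S := by
    intro S
    ext z
    constructor
    · rintro ⟨h1, h2⟩
      refine ⟨h1, ?_⟩
      rw [mem_preimage, hHe z h1] at h2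
      exact h2
    · rintro ⟨h1, h2⟩
      refine ⟨h1, ?_⟩
      rw [mem_preimage, hHe z h1]
      exact h2
  have hP : PMap (ball 0 1) (ball c r) Hb := by
    refine ⟨hHc.mono ball_subset_closedBall, fun z hz => ?_, fun K hK hKc => ?_, fun y hy => ?_⟩
    · rw [hHe z hz]
      exact h.maps hz
    · rw [hfib]
      exact h.proper K hK hKc
    · rw [hfib]
      exact h.fib y hy
  have hn : ∃ z ∈ sphere (0 : ℂ) 1, ∃ z' ∈ sphere (0 : ℂ) 1, Hb z ≠ Hb z' := by
    have m1 : c + (r : ℂ) ∈ sphere c r := by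
      rw [mem_sphere_iff_norm, add_sub_cancel_left, Complex.norm_real, Real.norm_of_nonneg hr.le]
    have m2 : c - (r : ℂ) ∈ sphere c r := by
      rw [mem_sphere_iff_norm, sub_sub_cancel_left, norm_neg, Complex.norm_real,
        Real.norm_of_nonneg hr.le]
    obtain ⟨z, hz, e1⟩ := hHs m1
    obtain ⟨z', hz', e2⟩ := hHs m2
    refine ⟨z, hz, z', hz', ?_⟩
    rw [e1, e2]
    intro h5
    have h6 : (r : ℂ) = 0 := by
      have : (2 : ℂ) * r = 0 := by linear_combination h5
      simpa using this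
    exact hr.ne' (by exact_mod_cast h6)
  have hmap : MapsTo (poi Hb) (ball 0 1) (ball c r) := fun w hw =>
    poi_mem_ball hb (fun z hz => hHm hz) hn hw
  have hsm : ContDiffOn ℝ 1 (poi Hb) (ball 0 1) := (poi_contDiffOn hb).of_le (by simp)
  have hpc := poi_continuousOn hb
  have hprop : ∀ K, K ⊆ ball c r → IsCompact K → IsCompact (ball 0 1 ∩ poi Hb ⁻¹' K) := by
    intro K hK hKc
    have h1 : ball (0 : ℂ) 1 ∩ poi Hb ⁻¹' K =
        closedBall 0 1 ∩ ((ball (0 : ℂ) 1).piecewise (poi Hb) Hb) ⁻¹' K := by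
      ext z
      constructor
      · rintro ⟨h2, h3⟩
        refine ⟨ball_subset_closedBall h2, ?_⟩
        rw [mem_preimage, piecewise_eq_of_mem _ _ _ h2]
        exact h3
      · rintro ⟨h2, h3⟩
        by_cases h4 : z ∈ ball (0 : ℂ) 1
        · refine ⟨h4, ?_⟩
          rw [mem_preimage, piecewise_eq_of_mem _ _ _ h4] at h3
          exact h3
        · exfalso
          rw [mem_preimage, piecewise_eq_of_notMem _ _ _ h4] at h3
          have h5 : z ∈ sphere (0 : ℂ) 1 := by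
            rw [mem_ball_zero_iff, not_lt] at h4
            rw [mem_closedBall_zero_iff] at h2
            rw [mem_sphere_zero_iff_norm]
            exact le_antisymm h2 h4
          have h6 := hHm h5
          have h7 := hK h3
          rw [mem_sphere] at h6
          rw [mem_ball] at h7
          linarith
    rw [h1]
    exact (isCompact_closedBall (0 : ℂ) 1).of_isClosed_subset
      (hpc.preimage_isClosed_of_isClosed isClosed_closedBall hKc.isClosed) inter_subset_left
  have hbij := bijOn_of_local hr hsm hmap hprop fun z hz => rkc hr hHc hP (fun y hy => hHs hy) hz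
  refine ⟨poi Hb, fun z => fderiv ℝ (poi Hb) z 1, fun z => fderiv ℝ (poi Hb) z Complex.I, hbij,
    sob_of_contDiffOn isOpen_ball hsm, dirichlet_principle hHc (hS.congr hHe) hen, fun η hη => ?_⟩
  obtain ⟨ρ, hρ, hρ2⟩ := ce1_unif
    (D := fun z => ‖((ball (0 : ℂ) 1).piecewise (poi Hb) Hb) z - Hb z‖)
    ((hpc.sub hHc).norm) (fun z hz => by
      have h4 : z ∉ ball (0 : ℂ) 1 := by
        rw [mem_sphere_zero_iff_norm] at hz
        rw [mem_ball_zero_iff, hz]
        exact lt_irrefl _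
      rw [piecewise_eq_of_notMem _ _ _ h4, sub_self, norm_zero]) hη
  refine ⟨ρ, hρ, fun z hz hlt => ?_⟩
  have h8 := hρ2 z hz hlt
  rwa [piecewise_eq_of_mem _ _ _ hz, hHe z hz] at h8

end CF6

end

section

set_option autoImplicit false

open MeasureTheory Metric Set Filter Topology
open scoped ContDiff ENNReal ComplexConjugate

namespace CF6

/-- CE2. The harmonic replacement on a cell.
PROOF. T4b: `ψ` (with inverse `χ`, T4a: holomorphic, `deriv χ ≠ 0`); `H = F ∘ ψ` is a `PMap` of the disc onto `ball c r`, in `Sob` with derivatives `pbx ψ Fx Fy`, `pby ψ Fx Fy` (S07a, S02 mono), energy `= en W Fx Fy < ⊤` (S07b). CE1 gives `u₀`. `u = u₀ ∘ χ` on `W`: `Sob W u` by S07a for `χ` (injective holomorphic on `W`, maps `W` onto the disc), energy `=` energy of `u₀`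
(S07b). Bijective. Boundary behaviour: let `z₀ ∈ U \ W` (or any point), `η > 0`, `ρ` as in CE1: the set `ψ '' closedBall 0 ρ` is compact in `W`, so it does not contain points of a neighbourhood of `z₀ ∉ W`; for `w ∈ W` near `z₀`: `‖χ w‖ > ρ`, so `‖u w - F w‖ = ‖u₀ (χ w) - H (χ w)‖ ≤ η`. -/
theorem cell_replace {U V : Set ℂ} {F Fx Fy : ℂ → ℂ} (h : PMap U V F) (hU : IsOpen U) (hV : IsOpen V)
    (hVc : IsConnected V) (hS : Sob U F Fx Fy) (hen : en U Fx Fy < ⊤) {c : ℂ} {r : ℝ} (hr : 0 < r)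
    (hQ : closedBall c r ⊆ V) :
    ∃ u ux uy : ℂ → ℂ, BijOn u (U ∩ F ⁻¹' ball c r) (ball c r) ∧ Sob (U ∩ F ⁻¹' ball c r) u ux uy ∧
      en (U ∩ F ⁻¹' ball c r) ux uy ≤ en (U ∩ F ⁻¹' ball c r) Fx Fy ∧
      ∀ z₀ ∈ U, z₀ ∉ F ⁻¹' ball c r →
        Tendsto (fun w => u w - F w) (𝓝[U ∩ F ⁻¹' ball c r] z₀) (𝓝 0) := by
  obtain ⟨ψ, hC, hP⟩ := h.exists_conf hU hV hVc hr hQ
  obtain ⟨hWo, -, χ, hχd, hχm, hχl, hχr⟩ := exists_conf_inverse hC
  have hψm : ∀ z ∈ ball (0 : ℂ) 1, ψ z ∈ U ∩ F ⁻¹' ball c r := fun z hz => by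
    rw [← hC.image]
    exact mem_image_of_mem ψ hz
  have hSW : Sob (U ∩ F ⁻¹' ball c r) F Fx Fy := hS.mono inter_subset_left
  have hSH : Sob (ball (0 : ℂ) 1) (fun z => F (ψ z)) (pbx ψ Fx Fy) (pby ψ Fx Fy) :=
    Sob.comp_conf hWo isOpen_ball hSW hC.diff hC.inj hψm
  have hE1 : en (ball (0 : ℂ) 1) (pbx ψ Fx Fy) (pby ψ Fx Fy) = en (U ∩ F ⁻¹' ball c r) Fx Fy := by
    have h1 := en_comp_conf (fx := Fx) (fy := Fy) isOpen_ball hC.diff hC.inj
      (measurableSet_ball (x := (0 : ℂ)) (ε := 1)) Subset.rfl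
    rw [hC.image] at h1
    exact h1
  have hfin : en (ball (0 : ℂ) 1) (pbx ψ Fx Fy) (pby ψ Fx Fy) < ⊤ := by
    rw [hE1]
    exact lt_of_le_of_lt (lintegral_mono_set inter_subset_left) hen
  obtain ⟨u₀, ux, uy, hbij, hS0, hen0, hbd⟩ := disc_replace hr hP hSH hfin
  have hχi : InjOn χ (U ∩ F ⁻¹' ball c r) := by
    intro w hw w' hw' he
    rw [← hχr w hw, ← hχr w' hw', he]
  have hχim : χ '' (U ∩ F ⁻¹' ball c r) = ball 0 1 := by
    apply Subset.antisymm
    · rintro _ ⟨w, hw, rfl⟩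
      exact hχm hw
    · intro z hz
      exact ⟨ψ z, hψm z hz, hχl z hz⟩
  have hχb : BijOn χ (U ∩ F ⁻¹' ball c r) (ball 0 1) := ⟨hχm, hχi, by rw [SurjOn, hχim]⟩
  refine ⟨fun w => u₀ (χ w), pbx χ ux uy, pby χ ux uy, hbij.comp hχb,
    Sob.comp_conf isOpen_ball hWo hS0 hχd hχi hχm, ?_, ?_⟩
  · have h1 := en_comp_conf (fx := ux) (fy := uy) hWo hχd hχi hWo.measurableSet Subset.rfl
    rw [hχim] at h1
    rw [← hE1]
    refine le_trans (le_of_eq ?_) hen0
    exact h1
  · intro z₀ hz₀ hz₀'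
    rw [Metric.tendsto_nhds]
    intro η hη
    obtain ⟨ρ, hρ, hb⟩ := hbd (η / 2) (by linarith)
    have hsub : closedBall (0 : ℂ) ρ ⊆ ball 0 1 := closedBall_subset_ball hρ
    have hcl : IsClosed (ψ '' closedBall (0 : ℂ) ρ) :=
      ((isCompact_closedBall (0 : ℂ) ρ).image_of_continuousOn
        (hC.diff.continuousOn.mono hsub)).isClosed
    have hnot : z₀ ∉ ψ '' closedBall (0 : ℂ) ρ := by
      rintro ⟨z, hz, rfl⟩
      exact hz₀' (hψm z (hsub hz)).2
    have hev : ∀ᶠ w in 𝓝[U ∩ F ⁻¹' ball c r] z₀, w ∉ ψ '' closedBall (0 : ℂ) ρ :=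
      mem_nhdsWithin_of_mem_nhds (hcl.isOpen_compl.mem_nhds hnot)
    filter_upwards [hev, self_mem_nhdsWithin] with w hw1 hw2
    have hχw : χ w ∈ ball (0 : ℂ) 1 := hχm hw2
    have hρw : ρ < ‖χ w‖ := by
      by_contra hcon
      push Not at hcon
      exact hw1 ⟨χ w, by simpa using hcon, hχr w hw2⟩
    have h1 := hb (χ w) hχw hρw
    rw [hχr w hw2] at h1
    rw [dist_zero_right]
    linarith

end CF6

end

section

set_option autoImplicit false

open MeasureTheory Metric Set Filter Topology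
open scoped ContDiff ENNReal ComplexConjugate

namespace CF6

open Classical in
/-- choice between the functions `v i` on the sets `W i` and `f` elsewhere -/
noncomputable def fa1_sel {ι : Type} (W : ι → Set ℂ) (v : ι → ℂ → ℂ) (f : ℂ → ℂ) (z : ℂ) : ℂ :=
  if h : ∃ i, z ∈ W i then v h.choose z else f z

theorem fa1_sel_mem {ι : Type} {W : ι → Set ℂ} (hd : ∀ i j z, z ∈ W i → z ∈ W j → i = j)
    (v : ι → ℂ → ℂ) (f : ℂ → ℂ) {i : ι} {z : ℂ} (hz : z ∈ W i) : fa1_sel W v f z = v i z := by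
  have h : ∃ i, z ∈ W i := ⟨i, hz⟩
  have h1 : h.choose = i := hd _ _ z h.choose_spec hz
  unfold fa1_sel
  rw [dif_pos h, h1]

theorem fa1_sel_notMem {ι : Type} {W : ι → Set ℂ} (v : ι → ℂ → ℂ) (f : ℂ → ℂ) {z : ℂ}
    (hz : ∀ i, z ∉ W i) : fa1_sel W v f z = f z := by
  have h : ¬ ∃ i, z ∈ W i := fun ⟨i, hi⟩ => hz i hi
  unfold fa1_sel
  rw [dif_neg h]

/-- continuity of the replacement -/
theorem fa1_cont {U V : Set ℂ} {F : ℂ → ℂ} (hF : ContinuousOn F U) (hm : MapsTo F U V)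
    (hU : IsOpen U) {ι : Type} {c : ι → ℂ} {r : ι → ℝ} (hD : DiscFam V c r)
    {u : ι → ℂ → ℂ} (hu : ∀ i, ContinuousOn (u i) (U ∩ F ⁻¹' ball (c i) (r i)))
    (hd : ∀ i j z, z ∈ U ∩ F ⁻¹' ball (c i) (r i) → z ∈ U ∩ F ⁻¹' ball (c j) (r j) → i = j)
    (ht : ∀ i, ∀ z₀ ∈ U, z₀ ∉ F ⁻¹' ball (c i) (r i) →
        Tendsto (fun w => u i w - F w) (𝓝[U ∩ F ⁻¹' ball (c i) (r i)] z₀) (𝓝 0)) :
    ContinuousOn (fa1_sel (fun i => U ∩ F ⁻¹' ball (c i) (r i)) u F) U := by
  have hWo : ∀ i, IsOpen (U ∩ F ⁻¹' ball (c i) (r i)) := fun i =>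
    hF.isOpen_inter_preimage hU isOpen_ball
  intro z₀ hz₀
  by_cases hz : ∃ i, z₀ ∈ U ∩ F ⁻¹' ball (c i) (r i)
  · obtain ⟨i, hi⟩ := hz
    have h1 : ContinuousAt (u i) z₀ := (hu i).continuousAt ((hWo i).mem_nhds hi)
    refine ContinuousAt.continuousWithinAt (h1.congr ?_)
    filter_upwards [(hWo i).mem_nhds hi] with z hz
    exact (fa1_sel_mem hd u F hz).symm
  · push Not at hz
    have hG0 : fa1_sel (fun i => U ∩ F ⁻¹' ball (c i) (r i)) u F z₀ = F z₀ :=
      fa1_sel_notMem u F hz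
    have key : Tendsto (fun z => fa1_sel (fun i => U ∩ F ⁻¹' ball (c i) (r i)) u F z - F z)
        (𝓝 z₀) (𝓝 0) := by
      rw [Metric.tendsto_nhds]
      intro ε hε
      obtain ⟨N, hNn, hNU, hNc⟩ := local_compact_nhds (hU.mem_nhds hz₀)
      have hFN : IsCompact (F '' N) := hNc.image_of_continuousOn (hF.mono hNU)
      have hFNV : F '' N ⊆ V := by
        rintro _ ⟨z, hz, rfl⟩
        exact hm (hNU hz)
      have hfin := hD.fin _ hFNV hFN
      have h1 : ∀ᶠ z in 𝓝 z₀, ∀ i ∈ {i | (closedBall (c i) (r i) ∩ F '' N).Nonempty},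
          z ∈ U ∩ F ⁻¹' ball (c i) (r i) → dist (u i z - F z) 0 < ε := by
        rw [Filter.eventually_all_finite hfin]
        intro i _
        have h2 := ht i z₀ hz₀ (fun h => hz i ⟨hz₀, h⟩)
        rw [Metric.tendsto_nhds] at h2
        exact eventually_nhdsWithin_iff.1 (h2 ε hε)
      filter_upwards [h1, hNn] with z hz1 hzN
      by_cases hzW : ∃ i, z ∈ U ∩ F ⁻¹' ball (c i) (r i)
      · obtain ⟨i, hi⟩ := hzW
        rw [fa1_sel_mem hd u F hi]
        exact hz1 i ⟨F z, ball_subset_closedBall hi.2, ⟨z, hzN, rfl⟩⟩ hi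
      · push Not at hzW
        rw [fa1_sel_notMem u F hzW, sub_self, dist_self]
        exact hε
    have h3 : Tendsto (fun z => (fa1_sel (fun i => U ∩ F ⁻¹' ball (c i) (r i)) u F z - F z) + F z)
        (𝓝[U] z₀) (𝓝 (0 + F z₀)) := (key.mono_left nhdsWithin_le_nhds).add (hF z₀ hz₀)
    show Tendsto _ _ _
    rw [hG0]
    rw [zero_add] at h3
    refine h3.congr (fun z => ?_)
    ring

/-- energy on the union -/
theorem fa1_energy {ι : Type} [Countable ι] {W : ι → Set ℂ} (hW : ∀ i, MeasurableSet (W i))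
    (hd : ∀ i j z, z ∈ W i → z ∈ W j → i = j) (vx vy : ι → ℂ → ℂ) (fx fy : ℂ → ℂ)
    (h : ∀ i, en (W i) (vx i) (vy i) ≤ en (W i) fx fy) :
    en (⋃ i, W i) (fa1_sel W vx fx) (fa1_sel W vy fy) ≤ en (⋃ i, W i) fx fy := by
  have hpd : Pairwise (Function.onFun Disjoint W) := by
    intro i j hij
    rw [Function.onFun, Set.disjoint_left]
    intro z h1 h2
    exact hij (hd i j z h1 h2)
  unfold en
  rw [lintegral_iUnion hW hpd, lintegral_iUnion hW hpd]
  refine ENNReal.tsum_le_tsum (fun i => ?_)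
  refine le_trans (le_of_eq ?_) (h i)
  refine setLIntegral_congr_fun (hW i) (fun z hz => ?_)
  simp only [fa1_sel_mem hd vx fx hz, fa1_sel_mem hd vy fy hz]

open Classical in
/-- FA1. Simultaneous replacement on a locally finite family of cells.
PROOF. `W i = U ∩ F ⁻¹' ball (c i) (r i)` open, pairwise disjoint, `u i` from CE2 (`choose`). `G z = u i z` if `z ∈ W i`, `= F z` otherwise (`if h : ∃ i, z ∈ W i then u (choose h) z else F z`), `Gx`, `Gy` similarly.
Local finiteness: every `z₀ ∈ U` has a compact neighbourhood `N ⊆ U`, `F '' N` is compact in `V`, so `N` meets only finitely many `W i`.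
Continuity on `U`: at `z₀ ∈ W i` clear (`Sob.cont`). At `z₀` in no `W i`: `G - F → 0` along each of the finitely many `W i` which meet `N` (CE2), and `G = F` elsewhere.
`Sob`: `W = ⋃ W i`; `Sob W G Gx Gy` by S03 (local) and `Sob.congr`, `congr_ae`; then S10d (`Sob.replace`) with `W`, finiteness from the energy inequality below. `W.piecewise G F = G`.
Energy: `en U Gx Gy = ∑' i, en (W i) (ux i) (uy i) + en (U \ W) Fx Fy ≤ ∑' i, en (W i) Fx Fy + en (U \ W) Fx Fy = en U Fx Fy` (countable additivity, `lintegral_iUnion`).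
Closeness: `G z, F z ∈ ball (c i) (r i)` on `W i`. Fibres: over `y ∈ ball (c i) (r i)`: `G z = y` implies `z ∈ W i` (if `z` is in `W j` then `G z ∈ ball (c j) (r j)`, disjoint for `j ≠ i`; if `z` is in no `W j` then `G z = F z ∉ ball (c i) (r i)`), and `u i` is bijective. Over the other `y`: `G z = y ⟺ F z = y`.
`PMap`: maps into `V`: clear. Proper: for `K ⊆ V` compact, `K' = K ∪ ⋃ {closedBall (c i) (r i) | meets K}` is compact in `V` (finite union), `U ∩ G ⁻¹' K ⊆ U ∩ F ⁻¹' K'`, which is compact in `U`; and `U ∩ G ⁻¹' K` is closed in it (`G` continuous on `U`). Fibres connected: a point or an `F`-fibre. -/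
theorem family_step {U V : Set ℂ} {F Fx Fy : ℂ → ℂ} (h : PMap U V F) (hU : IsOpen U) (hV : IsOpen V)
    (hVc : IsConnected V) (hS : Sob U F Fx Fy) (hen : en U Fx Fy < ⊤) {ι : Type} [Countable ι]
    {c : ι → ℂ} {r : ι → ℝ} (hD : DiscFam V c r) {η : ℝ} (hη0 : 0 ≤ η) (hη : ∀ i, 2 * r i ≤ η) :
    ∃ G Gx Gy : ℂ → ℂ, PMap U V G ∧ Sob U G Gx Gy ∧ en U Gx Gy ≤ en U Fx Fy ∧
      (∀ z ∈ U, ‖G z - F z‖ ≤ η) ∧
      (∀ i, ∀ y ∈ ball (c i) (r i), (U ∩ G ⁻¹' {y}).Subsingleton) ∧
      ∀ y ∈ V, (∀ i, y ∉ ball (c i) (r i)) → U ∩ G ⁻¹' {y} = U ∩ F ⁻¹' {y} := by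
  have hWo : ∀ i, IsOpen (U ∩ F ⁻¹' ball (c i) (r i)) := fun i =>
    h.cont.isOpen_inter_preimage hU isOpen_ball
  have hbd : ∀ i j y, y ∈ ball (c i) (r i) → y ∈ ball (c j) (r j) → i = j := by
    intro i j y h1 h2
    by_contra hij
    exact Set.disjoint_left.1 (hD.disj i j hij) (ball_subset_closedBall h1)
      (ball_subset_closedBall h2)
  have hd : ∀ i j z, z ∈ U ∩ F ⁻¹' ball (c i) (r i) → z ∈ U ∩ F ⁻¹' ball (c j) (r j) → i = j :=
    fun i j z h1 h2 => hbd i j (F z) h1.2 h2.2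
  have hcell := fun i => cell_replace h hU hV hVc hS hen (hD.pos i) (hD.sub i)
  choose u ux uy hbij hsob henle htend using hcell
  set Wf : ι → Set ℂ := fun i => U ∩ F ⁻¹' ball (c i) (r i) with hWf
  set W : Set ℂ := ⋃ i, Wf i with hWdef
  have hWopen : IsOpen W := isOpen_iUnion hWo
  have hWU : W ⊆ U := iUnion_subset (fun i => inter_subset_left)
  set G : ℂ → ℂ := fa1_sel Wf u F with hG
  have hGi : ∀ i z, z ∈ Wf i → G z = u i z := fun i z hz => fa1_sel_mem hd u F hz
  have hGn : ∀ z, (∀ i, z ∉ Wf i) → G z = F z := fun z hz => fa1_sel_notMem u F hz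
  have hGc : ContinuousOn G U :=
    fa1_cont h.cont h.maps hU hD (fun i => (hsob i).cont) hd htend
  have hGball : ∀ i z, z ∈ Wf i → G z ∈ ball (c i) (r i) := by
    intro i z hz
    rw [hGi i z hz]
    exact (hbij i).mapsTo hz
  have hpw : W.piecewise G F = G := by
    funext z
    by_cases hz : z ∈ W
    · rw [Set.piecewise_eq_of_mem _ _ _ hz]
    · rw [Set.piecewise_eq_of_notMem _ _ _ hz]
      exact (hGn z (fun i hi => hz (mem_iUnion.2 ⟨i, hi⟩))).symm
  have hsobW : Sob W G (fa1_sel Wf ux Fx) (fa1_sel Wf uy Fy) := by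
    refine sob_of_local hWopen (fun z hz => ?_)
    obtain ⟨i, hi⟩ := mem_iUnion.1 hz
    refine ⟨Wf i, hWo i, hi, ?_⟩
    refine ((hsob i).congr (fun z hz => hGi i z hz)).congr_ae ?_ ?_
    · exact Eventually.of_forall (fun z hz => fa1_sel_mem hd ux Fx hz)
    · exact Eventually.of_forall (fun z hz => fa1_sel_mem hd uy Fy hz)
  have henW : en W (fa1_sel Wf ux Fx) (fa1_sel Wf uy Fy) ≤ en W Fx Fy :=
    fa1_energy (fun i => (hWo i).measurableSet) hd ux uy Fx Fy henle
  have henWU : en W Fx Fy ≤ en U Fx Fy := lintegral_mono_set hWU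
  have hSob : Sob U (W.piecewise G F) (W.piecewise (fa1_sel Wf ux Fx) Fx)
      (W.piecewise (fa1_sel Wf uy Fy) Fy) := by
    refine Sob.replace hU hWopen hWU hS hsobW ?_ ?_
    · rw [hpw]; exact hGc
    · intro K _ _
      refine lt_of_le_of_lt ?_ hen
      refine le_trans (lintegral_mono_set inter_subset_left) ?_
      exact henW.trans henWU
  rw [hpw] at hSob
  have hsub : ∀ i, ∀ y ∈ ball (c i) (r i), (U ∩ G ⁻¹' {y}).Subsingleton := by
    intro i y hy
    have hin : ∀ z, z ∈ U → G z = y → z ∈ Wf i := by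
      intro z hzU hz
      by_cases hzW : ∃ j, z ∈ Wf j
      · obtain ⟨j, hj⟩ := hzW
        have h1 := hGball j z hj
        rw [hz] at h1
        rw [hbd i j y hy h1]
        exact hj
      · push Not at hzW
        have h1 := hGn z hzW
        refine ⟨hzU, ?_⟩
        show F z ∈ ball (c i) (r i)
        rw [← h1, hz]
        exact hy
    intro z hz z' hz'
    have h1 := hin z hz.1 hz.2
    have h2 := hin z' hz'.1 hz'.2
    apply (hbij i).injOn h1 h2
    rw [← hGi i z h1, ← hGi i z' h2]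
    exact (hz.2 : G z = y).trans (hz'.2 : G z' = y).symm
  have hfibeq : ∀ y ∈ V, (∀ i, y ∉ ball (c i) (r i)) → U ∩ G ⁻¹' {y} = U ∩ F ⁻¹' {y} := by
    intro y _ hy
    ext z
    constructor
    · rintro ⟨hzU, hz⟩
      have hz' : G z = y := hz
      refine ⟨hzU, ?_⟩
      show F z = y
      rw [← hz']
      refine (hGn z (fun i hi => ?_)).symm
      have := hGball i z hi
      rw [hz'] at this
      exact hy i this
    · rintro ⟨hzU, hz⟩
      have hz' : F z = y := hz
      refine ⟨hzU, ?_⟩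
      show G z = y
      rw [← hz']
      refine hGn z (fun i hi => ?_)
      have : F z ∈ ball (c i) (r i) := hi.2
      rw [hz'] at this
      exact hy i this
  refine ⟨G, W.piecewise (fa1_sel Wf ux Fx) Fx, W.piecewise (fa1_sel Wf uy Fy) Fy, ?_, hSob, ?_,
    ?_, hsub, hfibeq⟩
  · refine ⟨hGc, ?_, ?_, ?_⟩
    · intro z hz
      by_cases hzW : ∃ i, z ∈ Wf i
      · obtain ⟨i, hi⟩ := hzW
        exact hD.sub i (ball_subset_closedBall (hGball i z hi))
      · push Not at hzW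
        rw [hGn z hzW]
        exact h.maps hz
    · intro K hKV hK
      have hfin := hD.fin K hKV hK
      set J := {i | (closedBall (c i) (r i) ∩ K).Nonempty} with hJ
      have hK' : IsCompact (K ∪ ⋃ i ∈ J, closedBall (c i) (r i)) :=
        hK.union (hfin.isCompact_biUnion (fun i _ => isCompact_closedBall _ _))
      have hK'V : K ∪ ⋃ i ∈ J, closedBall (c i) (r i) ⊆ V :=
        union_subset hKV (iUnion₂_subset (fun i _ => hD.sub i))
      have hC := h.proper _ hK'V hK'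
      have hsubC : U ∩ G ⁻¹' K ⊆ U ∩ F ⁻¹' (K ∪ ⋃ i ∈ J, closedBall (c i) (r i)) := by
        rintro z ⟨hzU, hz⟩
        have hz' : G z ∈ K := hz
        refine ⟨hzU, ?_⟩
        show F z ∈ K ∪ ⋃ i ∈ J, closedBall (c i) (r i)
        by_cases hzW : ∃ i, z ∈ Wf i
        · obtain ⟨i, hi⟩ := hzW
          refine Or.inr (mem_iUnion₂.2 ⟨i, ?_, ball_subset_closedBall hi.2⟩)
          exact ⟨G z, ball_subset_closedBall (hGball i z hi), hz'⟩
        · push Not at hzW
          rw [← hGn z hzW]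
          exact Or.inl hz'
      have heq : U ∩ G ⁻¹' K =
          (U ∩ F ⁻¹' (K ∪ ⋃ i ∈ J, closedBall (c i) (r i))) ∩ G ⁻¹' K := by
        ext z
        constructor
        · intro hz
          exact ⟨hsubC hz, hz.2⟩
        · intro hz
          exact ⟨hz.1.1, hz.2⟩
      have hcl : IsClosed ((U ∩ F ⁻¹' (K ∪ ⋃ i ∈ J, closedBall (c i) (r i))) ∩ G ⁻¹' K) :=
        (hGc.mono inter_subset_left).preimage_isClosed_of_isClosed hC.isClosed hK.isClosed
      rw [heq]
      exact hC.of_isClosed_subset hcl inter_subset_left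
    · intro y hy
      by_cases hyb : ∃ i, y ∈ ball (c i) (r i)
      · obtain ⟨i, hi⟩ := hyb
        obtain ⟨z, hz, hzy⟩ := (hbij i).surjOn hi
        have hzm : z ∈ U ∩ G ⁻¹' {y} := ⟨hz.1, by
          show G z = y
          rw [hGi i z hz]
          exact hzy⟩
        have : U ∩ G ⁻¹' {y} = {z} := (hsub i y hi).eq_singleton_of_mem hzm
        rw [this]
        exact isConnected_singleton
      · push Not at hyb
        rw [hfibeq y hy hyb]
        exact h.fib y hy
  · -- energy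
    have hWm : MeasurableSet W := hWopen.measurableSet
    unfold en
    rw [← lintegral_inter_add_sdiff (μ := (volume : Measure ℂ)) _ U hWm,
      ← lintegral_inter_add_sdiff (μ := (volume : Measure ℂ)) (fun z => ‖Fx z‖ₑ ^ 2 + ‖Fy z‖ₑ ^ 2)
        U hWm]
    have hUW : U ∩ W = W := inter_eq_right.2 hWU
    rw [hUW]
    refine add_le_add ?_ ?_
    · refine le_trans (le_of_eq ?_) henW
      refine setLIntegral_congr_fun hWm (fun z hz => ?_)
      simp only [Set.piecewise_eq_of_mem _ _ _ hz]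
    · refine le_of_eq ?_
      refine setLIntegral_congr_fun (hU.measurableSet.diff hWm) (fun z hz => ?_)
      simp only [Set.piecewise_eq_of_notMem _ _ _ hz.2]
  · intro z _
    by_cases hzW : ∃ i, z ∈ Wf i
    · obtain ⟨i, hi⟩ := hzW
      have h1 : dist (G z) (c i) < r i := hGball i z hi
      have h2 : dist (F z) (c i) < r i := hi.2
      have h3 : dist (G z) (F z) ≤ dist (G z) (c i) + dist (F z) (c i) :=
        dist_triangle_right _ _ _
      rw [← dist_eq_norm]
      have := hη i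
      linarith
    · push Not at hzW
      rw [hGn z hzW, sub_self, norm_zero]
      exact hη0


end CF6

end

section

set_option autoImplicit false

open MeasureTheory Metric Set Filter Topology
open scoped ContDiff ENNReal ComplexConjugate

namespace CF6

/-- KM1. Iteration over the colours. -/
theorem iterate_families {U V : Set ℂ} {F Fx Fy : ℂ → ℂ} (h : PMap U V F) (hU : IsOpen U) (hV : IsOpen V)
    (hVc : IsConnected V) (hS : Sob U F Fx Fy) (hen : en U Fx Fy < ⊤) (N : ℕ) (ι : ℕ → Type)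
    (c : ∀ k, ι k → ℂ) (r : ∀ k, ι k → ℝ) (hcount : ∀ k, Countable (ι k))
    (hD : ∀ k, DiscFam V (c k) (r k)) {η : ℝ} (hη0 : 0 ≤ η) (hη : ∀ k i, 2 * r k i ≤ η) :
    ∃ G Gx Gy : ℂ → ℂ, PMap U V G ∧ Sob U G Gx Gy ∧ en U Gx Gy ≤ en U Fx Fy ∧
      (∀ z ∈ U, ‖G z - F z‖ ≤ N * η) ∧
      ∀ k < N, ∀ i, ∀ y ∈ ball (c k i) (r k i), (U ∩ G ⁻¹' {y}).Subsingleton := by
  induction N with
  | zero => exact ⟨F, Fx, Fy, h, hS, le_rfl, fun z _ => by simp, fun k hk => absurd hk (by omega)⟩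
  | succ n ih =>
    obtain ⟨G, Gx, Gy, hG, hGS, hGe, hGc, hGf⟩ := ih
    have := hcount n
    obtain ⟨G', Gx', Gy', hG', hGS', hGe', hGc', hGf', hGo⟩ :=
      family_step hG hU hV hVc hGS (lt_of_le_of_lt hGe hen) (hD n) hη0 (hη n)
    refine ⟨G', Gx', Gy', hG', hGS', hGe'.trans hGe, fun z hz => ?_, fun k hk i y hy => ?_⟩
    · calc ‖G' z - F z‖ = ‖(G' z - G z) + (G z - F z)‖ := by ring_nf
        _ ≤ ‖G' z - G z‖ + ‖G z - F z‖ := norm_add_le _ _
        _ ≤ η + n * η := add_le_add (hGc' z hz) (hGc z hz)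
        _ = ((n + 1 : ℕ) : ℝ) * η := by push_cast; ring
    · by_cases hyn : ∃ j, y ∈ ball (c n j) (r n j)
      · obtain ⟨j, hj⟩ := hyn
        exact hGf' j y hj
      · push Not at hyn
        have hkn : k ≠ n := by
          rintro rfl
          exact hyn i hy
        have hyV : y ∈ V := (hD k).sub i (ball_subset_closedBall hy)
        rw [hGo y hyV hyn]
        exact hGf k (by omega) i y hy

/-- KM2. REGULARISATION (interface statement of module K). -/
theorem regularise {Ω Ωs : Set ℂ} (hO : IsOpen Ω) (hO' : IsOpen Ωs) (hc' : IsConnected Ωs)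
    (hb' : Bornology.IsBounded Ωs) (F Fx Fy : ℂ → ℂ) (hF : ContinuousOn F Ω)
    (hm : MapsTo F Ω Ωs) (hs : SurjOn F Ω Ωs)
    (hp : ∀ Q ⊆ Ωs, IsCompact Q → IsCompact (Ω ∩ F ⁻¹' Q))
    (hf : ∀ y ∈ Ωs, IsPreconnected (Ω ∩ F ⁻¹' {y})) (ha : ACL2 Ω F Fx Fy) (η : ℝ) (hη : 0 < η) :
    ∃ f fx fy : ℂ → ℂ, IsHomeoOnto f Ω Ωs ∧ ACL2 Ω f fx fy ∧ en Ω fx fy ≤ en Ω Fx Fy ∧
      ∀ z ∈ Ω, ‖f z - F z‖ ≤ η := by
  have hP : PMap Ω Ωs F := by
    refine ⟨hF, hm, hp, fun y hy => ⟨?_, hf y hy⟩⟩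
    obtain ⟨x, hx, hxy⟩ := hs hy
    exact ⟨x, hx, hxy⟩
  obtain ⟨N, ι, c, r, hN, hcount, hD, hη', hcov⟩ := exists_coloring hO' hb' (η := η / 48) (by positivity)
  obtain ⟨G, Gx, Gy, hG, hGS, hGe, hGc, hGf⟩ := iterate_families hP hO hO' hc' (ha.sob hO) ha.fin N ι c r
    hcount hD (by positivity : (0 : ℝ) ≤ η / 48) hη'
  have hfin : en Ω Gx Gy < ⊤ := lt_of_le_of_lt hGe ha.fin
  have hinj : InjOn G Ω := by
    intro x hx x' hx' hxx
    obtain ⟨k, hk, i, hi⟩ := hcov (G x) (hG.maps hx)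
    exact hGf k hk i (G x) hi ⟨hx, rfl⟩ ⟨hx', hxx.symm⟩
  have hsurj : SurjOn G Ω Ωs := by
    intro y hy
    obtain ⟨x, hx, hxy⟩ := (hG.fib y hy).nonempty
    exact ⟨x, hx, hxy⟩
  have hbij : BijOn G Ω Ωs := ⟨hG.maps, hinj, hsurj⟩
  refine ⟨G, Gx, Gy, ⟨hG.cont, hbij, ?_⟩, hGS.acl2 hO hfin, hGe, fun z hz => (hGc z hz).trans ?_⟩
  · classical
    refine ⟨Function.invFunOn G Ω, ?_, hbij.invOn_invFunOn⟩
    -- the inverse is continuous: `G` is proper
    have hinv : ∀ y ∈ Ωs, Function.invFunOn G Ω y ∈ Ω ∧ G (Function.invFunOn G Ω y) = y := fun y hy =>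
      Function.invFunOn_pos (hsurj hy)
    intro y hy
    rw [ContinuousWithinAt, tendsto_iff_seq_tendsto]
    intro yn hyn
    have hyn1 : Tendsto yn atTop (𝓝 y) := tendsto_nhdsWithin_iff.mp hyn |>.1
    have hyn2 : ∀ᶠ n in atTop, yn n ∈ Ωs := tendsto_nhdsWithin_iff.mp hyn |>.2
    -- a compact neighbourhood
    obtain ⟨K, hK, hKn, hKs⟩ : ∃ K, IsCompact K ∧ K ∈ 𝓝 y ∧ K ⊆ Ωs := by
      obtain ⟨K, hK1, hK2, hK3⟩ := exists_mem_nhds_isCompact_mapsTo (f := id) continuous_id
        (hO'.mem_nhds hy)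
      exact ⟨K, hK2, hK1, hK3⟩
    have hZ : IsCompact (Ω ∩ G ⁻¹' K) := hG.proper K hKs hK
    refine hZ.tendsto_nhds_of_unique_mapClusterPt (l := atTop) (f := fun n => Function.invFunOn G Ω (yn n)) ?_ ?_
    · filter_upwards [hyn1.eventually hKn, hyn2] with n h1 h2
      refine ⟨(hinv _ h2).1, ?_⟩
      have h1' : yn n ∈ K := h1
      simpa [(hinv _ h2).2] using h1'
    · intro x hx hcl
      have hx1 : x ∈ Ω := hx.1
      have h1 : Tendsto (fun n => G (Function.invFunOn G Ω (yn n))) atTop (𝓝 y) := by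
        refine hyn1.congr' ?_
        filter_upwards [hyn2] with n hn
        exact (hinv _ hn).2.symm
      have hcG : ContinuousAt G x := hG.cont.continuousAt (hO.mem_nhds hx1)
      have h2 : MapClusterPt (G x) atTop (fun n => G (Function.invFunOn G Ω (yn n))) :=
        hcl.continuousAt_comp hcG
      have h3 : G x = y := by
        by_contra hne'
        obtain ⟨A, B, hA, hB, hxA, hyB, hAB⟩ := t2_separation hne'
        have e1 : ∀ᶠ n in atTop, G (Function.invFunOn G Ω (yn n)) ∈ B := h1.eventually (hB.mem_nhds hyB)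
        have e2 : ∃ᶠ n in atTop, G (Function.invFunOn G Ω (yn n)) ∈ A := h2.frequently (hA.mem_nhds hxA)
        obtain ⟨n, hn1, hn2⟩ := (e2.and_eventually e1).exists
        exact (Set.disjoint_left.mp hAB hn1) hn2
      exact hinj hx1 (hinv y hy).1 (h3.trans (hinv y hy).2.symm)
  · have : (N : ℝ) ≤ 48 := by exact_mod_cast hN
    calc (N : ℝ) * (η / 48) ≤ 48 * (η / 48) := by gcongr
      _ = η := by ring

end CF6

end
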