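import Pool.Agent.Lib.MP_cf6b16_an.Defs
import Pool.Agent.Lib.MP_cf6b16_an.K5

section

/-!
# Module L of MP_cf6b16_an: definitions (winding numbers, partial derivatives, good sets)
-/

open Complex MeasureTheory Set Filter Topology Metric
open scoped ENNReal

namespace CF6

/-- the real linear map with partial derivatives `a`, `b` -/
noncomputable def pd (a b : ℂ) : ℂ →L[ℝ] ℂ :=
  Complex.reCLM.smulRight a + Complex.imCLM.smulRight b

/-- maximal difference quotient over rational increments `0 < |t| < 1/(n+1)` in the direction `e` -/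
noncomputable def dq (f g : ℂ → ℂ) (e : ℂ) (n : ℕ) (z : ℂ) : ℝ≥0∞ :=
  ⨆ t : ℚ, ⨆ _ : t ≠ 0 ∧ |(t : ℝ)| < 1 / (n + 1),
    ENNReal.ofReal (‖f (z + (t : ℝ) * e) - f z - (t : ℝ) * g z‖ / |(t : ℝ)|)

/-- `E` is a compact subset of `Ω` on which the partial derivatives are continuous and the
difference quotients converge uniformly. -/
structure GoodE (Ω : Set ℂ) (f fx fy : ℂ → ℂ) (E : Set ℂ) : Prop where
  cpt : IsCompact E
  sub : E ⊆ Ω
  cx : ContinuousOn fx E
  cy : ContinuousOn fy E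
  ux : ∀ ε > (0 : ℝ), ∃ δ > (0 : ℝ), ∀ z ∈ E, ∀ t : ℝ, |t| < δ →
    ‖f (z + t * 1) - f z - t * fx z‖ ≤ ε * |t|
  uy : ∀ ε > (0 : ℝ), ∃ δ > (0 : ℝ), ∀ z ∈ E, ∀ t : ℝ, |t| < δ →
    ‖f (z + t * I) - f z - t * fy z‖ ≤ ε * |t|

/-- `E` is dense at `z` at all small scales -/
def DensePt (E : Set ℂ) (z : ℂ) : Prop :=
  ∀ ε > (0 : ℝ), ∃ r > (0 : ℝ), ∀ ρ : ℝ, 0 < ρ → ρ < r → ∀ p : ℂ, ‖p - z‖ ≤ 2 * ρ →
    ∃ q ∈ E, ‖q - p‖ ≤ ε * ρ

/-- gauge of the rectangle `[-a1,a2] × [-b1,b2]` -/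
noncomputable def gau (a1 a2 b1 b2 : ℝ) (v : ℂ) : ℝ :=
  max (max (v.re / a2) (-v.re / a1)) (max (v.im / b2) (-v.im / b1))

/-- the boundary of the rectangle, radially parametrised -/
noncomputable def rl (a1 a2 b1 b2 : ℝ) (t : ℝ) : ℂ :=
  exp (2 * Real.pi * t * I) / (gau a1 a2 b1 b2 (exp (2 * Real.pi * t * I)) : ℂ)

end CF6

end

section

/-! # Module L, row G1: difference quotients on lines -/

open Complex MeasureTheory Set Filter Topology Metric
open scoped ENNReal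

namespace CF6

/-- G1a. Countable supremum of measurable functions. -/
theorem measurable_dq {f g : ℂ → ℂ} (hf : Measurable f) (hg : Measurable g) (e : ℂ) (n : ℕ) :
    Measurable (dq f g e n) := by
  unfold dq
  refine Measurable.iSup fun t => Measurable.iSup fun _ => ?_
  refine ENNReal.measurable_ofReal.comp ?_
  refine Measurable.div_const ?_ _
  refine Measurable.norm ?_
  exact ((hf.comp (measurable_id.add_const _)).sub hf).sub (hg.const_mul _)

/-- G1b. -/
theorem dq_tendsto {f g : ℂ → ℂ} {e z : ℂ}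
    (h : HasDerivAt (fun t : ℝ => f (z + t * e)) (g z) 0) :
    Tendsto (fun n => dq f g e n z) atTop (𝓝 0) := by
  rw [ENNReal.tendsto_nhds_zero]
  intro ε hε
  obtain ⟨ε', hε', hle⟩ : ∃ ε' > (0 : ℝ), ENNReal.ofReal ε' ≤ ε := by
    rcases eq_or_ne ε ⊤ with h1 | h1
    · exact ⟨1, one_pos, by rw [h1]; exact le_top⟩
    · exact ⟨ε.toReal, ENNReal.toReal_pos hε.ne' h1, by rw [ENNReal.ofReal_toReal h1]⟩
  have h1 := (hasDerivAt_iff_isLittleO.1 h).def hε'
  obtain ⟨δ, hδ, hball⟩ := Metric.eventually_nhds_iff.1 h1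
  obtain ⟨N, hN⟩ := exists_nat_one_div_lt hδ
  filter_upwards [eventually_ge_atTop N] with n hn
  refine le_trans ?_ hle
  unfold dq
  refine iSup_le fun t => iSup_le fun ht => ?_
  apply ENNReal.ofReal_le_ofReal
  have ht0 : 0 < |(t : ℝ)| := abs_pos.2 (by exact_mod_cast ht.1)
  rw [div_le_iff₀ ht0]
  have h2 : |(t : ℝ)| < δ := by
    refine ht.2.trans (lt_of_le_of_lt ?_ hN)
    apply one_div_le_one_div_of_le (by positivity)
    have : (N : ℝ) ≤ n := by exact_mod_cast hn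
    linarith
  have h3 := @hball (t : ℝ) (by rw [Real.dist_eq, sub_zero]; exact h2)
  rw [← Real.norm_eq_abs]
  simpa using h3

/-- G1c. One variable: almost everywhere differentiability of an indefinite integral on an open set. -/
theorem line_deriv {U : Set ℝ} (hU : IsOpen U) {f f' : ℝ → ℂ}
    (h : ∀ a b : ℝ, a ≤ b → Icc a b ⊆ U → IntervalIntegrable f' volume a b ∧
      f b - f a = ∫ t in a..b, f' t) :
    ∀ᵐ t : ℝ, t ∈ U → HasDerivAt f (f' t) t := by
  have h1 : ∀ q : ℚ × ℚ, ∀ᵐ t : ℝ, Icc (q.1 : ℝ) q.2 ⊆ U → t ∈ Ioo (q.1 : ℝ) q.2 →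
      HasDerivAt f (f' t) t := by
    intro q
    by_cases hq : Icc (q.1 : ℝ) q.2 ⊆ U
    · by_cases hle : (q.1 : ℝ) ≤ q.2
      · obtain ⟨hi, -⟩ := h q.1 q.2 hle hq
        filter_upwards [hi.ae_hasDerivAt_integral] with t ht _ htI
        have h2 := ht (by rw [uIcc_of_le hle]; exact Ioo_subset_Icc_self htI) (q.1 : ℝ)
          (by rw [uIcc_of_le hle]; exact left_mem_Icc.2 hle)
        have h3 : HasDerivAt (fun x => f q.1 + ∫ t in (q.1 : ℝ)..x, f' t) (f' t) t :=
          h2.const_add _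
        refine h3.congr_of_eventuallyEq ?_
        filter_upwards [Ioo_mem_nhds htI.1 htI.2] with x hx
        have h4 := (h q.1 x hx.1.le ((Icc_subset_Icc_right hx.2.le).trans hq)).2
        rw [← h4]
        ring
      · exact Eventually.of_forall (fun t _ ht => absurd (ht.1.trans ht.2).le hle)
    · exact Eventually.of_forall (fun t h' => absurd h' hq)
  rw [← ae_all_iff] at h1
  filter_upwards [h1] with t ht htU
  obtain ⟨ε, hε, hball⟩ := Metric.isOpen_iff.1 hU t htU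
  obtain ⟨q1, hq1, hq1'⟩ := exists_rat_btwn (show t - ε < t by linarith)
  obtain ⟨q2, hq2, hq2'⟩ := exists_rat_btwn (show t < t + ε by linarith)
  refine ht (q1, q2) ?_ ⟨hq1', hq2⟩
  intro x hx
  apply hball
  rw [Metric.mem_ball, Real.dist_eq, abs_lt]
  constructor
  · have := hx.1
    simp only at this
    linarith
  · have := hx.2
    simp only at this
    linarith

theorem g1_null {N : Set ℂ} (hN : MeasurableSet N) (e : ℝ × ℝ → ℂ)
    (he : MeasurePreserving e volume volume)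
    (hs : ∀ᵐ y : ℝ, ∀ᵐ t : ℝ, e (y, t) ∉ N) : volume N = 0 := by
  rw [← he.measure_preimage hN.nullMeasurableSet]
  rw [Measure.volume_eq_prod]
  rw [Measure.measure_prod_null (he.measurable hN)]
  filter_upwards [hs] with y hy
  have h1 := measure_eq_zero_iff_ae_notMem.2 (show ∀ᵐ t : ℝ, t ∉ Prod.mk y ⁻¹' (e ⁻¹' N) from hy)
  exact h1

theorem g1_mp1 : MeasurePreserving (fun p : ℝ × ℝ => (⟨p.1, p.2⟩ : ℂ)) volume volume :=
  Complex.volume_preserving_equiv_real_prod.symm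

theorem g1_mp2 : MeasurePreserving (fun p : ℝ × ℝ => (⟨p.2, p.1⟩ : ℂ)) volume volume :=
  g1_mp1.comp (Measure.measurePreserving_swap (μ := volume) (ν := volume))

/-- G1d. Fubini for a measurable set and the coordinates `(y,x)` or `(x,y)` of the plane. -/
theorem plane_null {N : Set ℂ} (hN : MeasurableSet N)
    (hs : (∀ᵐ y : ℝ, ∀ᵐ t : ℝ, (⟨t, y⟩ : ℂ) ∉ N) ∨ (∀ᵐ x : ℝ, ∀ᵐ t : ℝ, (⟨x, t⟩ : ℂ) ∉ N)) :
    volume N = 0 := by
  rcases hs with hs | hs
  · exact g1_null hN (fun p : ℝ × ℝ => (⟨p.2, p.1⟩ : ℂ)) g1_mp2 hs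
  · exact g1_null hN (fun p : ℝ × ℝ => (⟨p.1, p.2⟩ : ℂ)) g1_mp1 hs

theorem plane_ae {P : ℂ → Prop} (h : ∀ᵐ z : ℂ, P z) :
    (∀ᵐ y : ℝ, ∀ᵐ t : ℝ, P ⟨t, y⟩) ∧ (∀ᵐ x : ℝ, ∀ᵐ t : ℝ, P ⟨x, t⟩) := by
  constructor
  · have h2 : ∀ᵐ q : ℝ × ℝ, P ((fun p : ℝ × ℝ => (⟨p.2, p.1⟩ : ℂ)) q) :=
      g1_mp2.quasiMeasurePreserving.ae h
    rw [Measure.volume_eq_prod] at h2
    exact Measure.ae_ae_of_ae_prod h2
  · have h2 : ∀ᵐ q : ℝ × ℝ, P ((fun p : ℝ × ℝ => (⟨p.1, p.2⟩ : ℂ)) q) :=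
      g1_mp1.quasiMeasurePreserving.ae h
    rw [Measure.volume_eq_prod] at h2
    exact Measure.ae_ae_of_ae_prod h2

end CF6

end

section

/-! # Module L, row G2: the difference quotients of an ACL function converge almost everywhere -/

open Complex MeasureTheory Set Filter Topology Metric
open scoped ENNReal

namespace CF6

theorem g2_measurable {Ω : Set ℂ} (hO : IsOpen Ω) {f : ℂ → ℂ} (hf : ContinuousOn f Ω) :
    Measurable (indicator Ω f) := by
  classical
  have h1 := ContinuousOn.measurable_piecewise (g := fun _ => (0 : ℂ)) hf continuousOn_const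
    hO.measurableSet
  have h2 : Ω.piecewise f (fun _ => (0 : ℂ)) = indicator Ω f := by
    funext z
    by_cases hz : z ∈ Ω
    · rw [piecewise_eq_of_mem _ _ _ hz, indicator_of_mem hz]
    · rw [piecewise_eq_of_notMem _ _ _ hz, indicator_of_notMem hz]
  rwa [h2] at h1

theorem g2_lines {Ω : Set ℂ} (hO : IsOpen Ω) {f h g : ℂ → ℂ} (e : ℂ) (P : ℝ → ℝ → ℂ)
    (hP : ∀ y t s, P y (t + s) = P y t + s * e) (hPc : ∀ y, Continuous (P y))
    (hline : ∀ᵐ y : ℝ, ∀ a b : ℝ, a ≤ b → (∀ t ∈ Icc a b, P y t ∈ Ω) →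
      IntervalIntegrable (fun t => h (P y t)) volume a b ∧
        f (P y b) - f (P y a) = ∫ t in a..b, h (P y t))
    (hgh : ∀ᵐ y : ℝ, ∀ᵐ t : ℝ, P y t ∈ Ω → h (P y t) = g (P y t)) :
    ∀ᵐ y : ℝ, ∀ᵐ t : ℝ, P y t ∈ Ω →
      Tendsto (fun n => dq (indicator Ω f) g e n (P y t)) atTop (𝓝 0) := by
  filter_upwards [hline, hgh] with y hy hgy
  have hU : IsOpen {t : ℝ | P y t ∈ Ω} := hO.preimage (hPc y)
  have h1 := line_deriv hU (f := fun t => f (P y t)) (f' := fun t => h (P y t))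
    (fun a b hab hs => hy a b hab hs)
  filter_upwards [h1, hgy] with t ht hgt hz
  have h2 : HasDerivAt (fun t => f (P y t)) (g (P y t)) t := by
    have := ht hz
    rwa [hgt hz] at this
  refine dq_tendsto ?_
  have h3 : HasDerivAt (fun s : ℝ => f (P y (t + s))) (g (P y t)) 0 := by
    refine HasDerivAt.comp_const_add (f := fun t => f (P y t)) t 0 ?_
    rwa [add_zero]
  refine h3.congr_of_eventuallyEq ?_
  have h4 : ContinuousAt (fun s : ℝ => P y (t + s)) 0 :=
    ((hPc y).comp (by fun_prop : Continuous fun s : ℝ => t + s)).continuousAt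
  have h5 : ∀ᶠ s : ℝ in 𝓝 0, P y (t + s) ∈ Ω := by
    refine h4.eventually_mem (hO.mem_nhds ?_)
    rwa [add_zero]
  filter_upwards [h5] with s hs
  rw [← hP y t s, indicator_of_mem hs]

theorem g2_bad {Ω : Set ℂ} (hO : IsOpen Ω) {f g : ℂ → ℂ} (hf : ContinuousOn f Ω)
    (hg : Measurable g) (e : ℂ) :
    MeasurableSet {z | z ∈ Ω ∧ ¬ Tendsto (fun n => dq (indicator Ω f) g e n z) atTop (𝓝 0)} := by
  have h1 : MeasurableSet {z | Tendsto (fun n => dq (indicator Ω f) g e n z) atTop (𝓝 0)} :=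
    measurableSet_tendsto _ (fun n => measurable_dq (g2_measurable hO hf) hg e n)
  exact hO.measurableSet.inter h1.compl

/-- G2a. Let `F = indicator Ω f` (measurable: `f` is continuous on the open set `Ω`), `g` measurable with `g = fx` a.e. on `Ω`. The set
`N = {z ∈ Ω | ¬ dq F g 1 n z → 0}` is measurable (`measurableSet_tendsto` or `measurableSet_of_tendsto..`, G1a). By `plane_null` it is enough
to look at lines: `ha.hor`, `line_deriv` for `U = {t | ⟨t,y⟩ ∈ Ω}`, `fx = g` a.e. on a.e. line (`plane_ae`), so a.e. `t ∈ U`: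
`HasDerivAt (fun s => f ⟨s,y⟩) (g ⟨t,y⟩) t`, hence `HasDerivAt (fun s => F (⟨t,y⟩ + s * 1)) (g ⟨t,y⟩) 0` (`F = f` near `⟨t,y⟩`),
`dq_tendsto`. -/
theorem dq_ae_x {Ω : Set ℂ} (hO : IsOpen Ω) {f fx fy g : ℂ → ℂ} (ha : ACL2 Ω f fx fy)
    (hg : Measurable g) (hgx : fx =ᵐ[volume.restrict Ω] g) :
    ∀ᵐ z ∂(volume.restrict Ω), Tendsto (fun n => dq (indicator Ω f) g 1 n z) atTop (𝓝 0) := by
  have hae := plane_ae ((ae_restrict_iff' hO.measurableSet).1 hgx)
  have h1 := g2_lines hO (f := f) (h := fx) (g := g) 1 (fun y t => (⟨t, y⟩ : ℂ))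
    (by
      intro y t s
      apply Complex.ext <;> simp)
    (by
      intro y
      have : (fun t : ℝ => (⟨t, y⟩ : ℂ)) = fun t : ℝ => (t : ℂ) + y * I := by
        funext t
        apply Complex.ext <;> simp
      rw [this]
      fun_prop) ha.hor hae.1
  have h2 := plane_null (g2_bad hO ha.cont hg 1) (Or.inl (by
    filter_upwards [h1] with y hy
    filter_upwards [hy] with t ht
    rintro ⟨hz, hz2⟩
    exact hz2 (ht hz)))
  rw [ae_restrict_iff' hO.measurableSet]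
  have h3 := measure_eq_zero_iff_ae_notMem.1 h2
  filter_upwards [h3] with z hz hzO
  by_contra hcon
  exact hz ⟨hzO, hcon⟩

/-- G2b. The same for vertical lines. -/
theorem dq_ae_y {Ω : Set ℂ} (hO : IsOpen Ω) {f fx fy g : ℂ → ℂ} (ha : ACL2 Ω f fx fy)
    (hg : Measurable g) (hgy : fy =ᵐ[volume.restrict Ω] g) :
    ∀ᵐ z ∂(volume.restrict Ω), Tendsto (fun n => dq (indicator Ω f) g I n z) atTop (𝓝 0) := by
  have hae := plane_ae ((ae_restrict_iff' hO.measurableSet).1 hgy)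
  have h1 := g2_lines hO (f := f) (h := fy) (g := g) I (fun x t => (⟨x, t⟩ : ℂ))
    (by
      intro y t s
      apply Complex.ext <;> simp)
    (by
      intro x
      have : (fun t : ℝ => (⟨x, t⟩ : ℂ)) = fun t : ℝ => (x : ℂ) + t * I := by
        funext t
        apply Complex.ext <;> simp
      rw [this]
      fun_prop) ha.ver hae.2
  have h2 := plane_null (g2_bad hO ha.cont hg I) (Or.inr (by
    filter_upwards [h1] with y hy
    filter_upwards [hy] with t ht
    rintro ⟨hz, hz2⟩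
    exact hz2 (ht hz)))
  rw [ae_restrict_iff' hO.measurableSet]
  have h3 := measure_eq_zero_iff_ae_notMem.1 h2
  filter_upwards [h3] with z hz hzO
  by_contra hcon
  exact hz ⟨hzO, hcon⟩

end CF6

end

section

/-! # Module L, row G3a -/

open Complex MeasureTheory Set Filter Topology Metric
open scoped ENNReal

namespace CF6

/-- G3a. Lusin. Proof: `B n` a countable basis of open sets of `ℂ`. For every `n` choose an open set `U n ⊇ A ∩ g⁻¹ (B n)` with
`volume (U n \ (A ∩ g⁻¹ (B n))) < ε n` (outer regularity, finite measure), `∑ ε n < ε / 2`. On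
`A' = A \ ⋃ n, (U n \ (A ∩ g⁻¹ (B n)))` the function `g` is continuous (`A' ∩ g⁻¹ (B n) = A' ∩ U n`), and `A'` contains a compact set `K` with
`volume (A' \ K) < ε / 2` (inner regularity). -/
theorem lusin {g : ℂ → ℂ} (hg : Measurable g) {A : Set ℂ} (hA : MeasurableSet A)
    (hfin : volume A ≠ ⊤) {ε : ℝ≥0∞} (hε : 0 < ε) :
    ∃ K ⊆ A, IsCompact K ∧ ContinuousOn g K ∧ volume (A \ K) ≤ ε := by
  have hε2 : ε / 2 ≠ 0 := (ENNReal.div_pos hε.ne' (by norm_num)).ne'
  have hcount : Countable (TopologicalSpace.countableBasis ℂ) :=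
    (TopologicalSpace.countable_countableBasis ℂ).to_subtype
  obtain ⟨δ, hδpos, hδsum⟩ := ENNReal.exists_pos_sum_of_countable hε2
    (TopologicalSpace.countableBasis ℂ)
  have hbm : ∀ s : TopologicalSpace.countableBasis ℂ, MeasurableSet (A ∩ g ⁻¹' (s : Set ℂ)) :=
    fun s => hA.inter (hg (TopologicalSpace.isOpen_of_mem_countableBasis s.2).measurableSet)
  have hU : ∀ s : TopologicalSpace.countableBasis ℂ, ∃ U : Set ℂ, A ∩ g ⁻¹' (s : Set ℂ) ⊆ U ∧
      IsOpen U ∧ volume (U \ (A ∩ g ⁻¹' (s : Set ℂ))) < δ s := by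
    intro s
    obtain ⟨U, hU1, hU2, -, hU3⟩ := (hbm s).exists_isOpen_sdiff_lt
      (ne_top_of_le_ne_top hfin (measure_mono inter_subset_left))
      (show ((δ s : ℝ≥0∞)) ≠ 0 by exact_mod_cast (hδpos s).ne')
    exact ⟨U, hU1, hU2, hU3⟩
  choose U hUs hUo hUμ using hU
  have hbadm : MeasurableSet (⋃ s, U s \ (A ∩ g ⁻¹' (s : Set ℂ))) :=
    MeasurableSet.iUnion (fun s => (hUo s).measurableSet.diff (hbm s))
  have hA'm : MeasurableSet (A \ ⋃ s, U s \ (A ∩ g ⁻¹' (s : Set ℂ))) := hA.diff hbadm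
  obtain ⟨K, hKA, hKc, hKμ⟩ := hA'm.exists_isCompact_sdiff_lt
    (ne_top_of_le_ne_top hfin (measure_mono sdiff_subset)) hε2
  refine ⟨K, hKA.trans sdiff_subset, hKc, ?_, ?_⟩
  · intro x hx
    rw [ContinuousWithinAt, tendsto_def]
    intro V hV
    obtain ⟨s, hsb, hxs, hsV⟩ := (TopologicalSpace.isBasis_countableBasis ℂ).mem_nhds_iff.1 hV
    have hxA : x ∈ A := (hKA hx).1
    have hxU : x ∈ U ⟨s, hsb⟩ := hUs ⟨s, hsb⟩ ⟨hxA, hxs⟩
    filter_upwards [mem_nhdsWithin_of_mem_nhds ((hUo ⟨s, hsb⟩).mem_nhds hxU),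
      self_mem_nhdsWithin] with y hyU hyK
    have hy := (hKA hyK).2
    by_contra hcon
    apply hy
    refine mem_iUnion.2 ⟨⟨s, hsb⟩, hyU, fun h => hcon (hsV h.2)⟩
  · have hsub : A \ K ⊆ (⋃ s, U s \ (A ∩ g ⁻¹' (s : Set ℂ))) ∪
        ((A \ ⋃ s, U s \ (A ∩ g ⁻¹' (s : Set ℂ))) \ K) := by
      intro x hx
      by_cases h1 : x ∈ ⋃ s, U s \ (A ∩ g ⁻¹' (s : Set ℂ))
      · exact Or.inl h1
      · exact Or.inr ⟨⟨hx.1, h1⟩, hx.2⟩
    calc volume (A \ K) ≤ volume (⋃ s, U s \ (A ∩ g ⁻¹' (s : Set ℂ))) +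
          volume ((A \ ⋃ s, U s \ (A ∩ g ⁻¹' (s : Set ℂ))) \ K) :=
          (measure_mono hsub).trans (measure_union_le _ _)
      _ ≤ ε / 2 + ε / 2 := by
          refine add_le_add ?_ hKμ.le
          refine (measure_iUnion_le _).trans ?_
          exact (ENNReal.tsum_le_tsum (fun s => (hUμ s).le)).trans hδsum.le
      _ = ε := ENNReal.add_halves ε

end CF6

end

section

/-! # Module L, row G3b -/

open Complex MeasureTheory Set Filter Topology Metric
open scoped ENNReal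

namespace CF6

/-- G3b. Egorov for decreasing sequences of functions with values in `[0,∞]`. (Not `Metric`: for every `k` the sets
`{z ∈ A | 1/(k+1) < q N z}` decrease to a null set, `tendsto_measure_iInter_atTop`; see DE/D3g.lean, `hbad`, for the same argument.) -/
theorem egorov_dq {q : ℕ → ℂ → ℝ≥0∞} (hq : ∀ n, Measurable (q n)) (hanti : ∀ z, Antitone fun n => q n z)
    {A : Set ℂ} (hA : MeasurableSet A) (hfin : volume A ≠ ⊤)
    (h : ∀ᵐ z ∂(volume.restrict A), Tendsto (fun n => q n z) atTop (𝓝 0)) {ε : ℝ≥0∞}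
    (hε : 0 < ε) :
    ∃ A' ⊆ A, MeasurableSet A' ∧ volume (A \ A') ≤ ε ∧
      ∀ η > (0 : ℝ≥0∞), ∃ N : ℕ, ∀ n ≥ N, ∀ z ∈ A', q n z ≤ η := by
  obtain ⟨δ, hδpos, hδsum⟩ := ENNReal.exists_pos_sum_of_countable hε.ne' ℕ
  have hfm : IsFiniteMeasure (volume.restrict A) :=
    ⟨by rw [Measure.restrict_apply_univ]; exact hfin.lt_top⟩
  have hbad : ∀ k : ℕ, ∃ N : ℕ,
      volume.restrict A {z | ((k : ℝ≥0∞) + 1)⁻¹ < q N z} ≤ δ k := by
    intro k
    have hηpos : (0 : ℝ≥0∞) < ((k : ℝ≥0∞) + 1)⁻¹ := ENNReal.inv_pos.2 (by finiteness)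
    have hm : ∀ N, MeasurableSet {z | ((k : ℝ≥0∞) + 1)⁻¹ < q N z} := fun N =>
      measurableSet_lt measurable_const (hq N)
    have hanti' : Antitone (fun N => {z | ((k : ℝ≥0∞) + 1)⁻¹ < q N z}) := by
      intro n m hnm x hx
      exact lt_of_lt_of_le (show ((k : ℝ≥0∞) + 1)⁻¹ < q m x from hx) (hanti x hnm)
    have h0 : volume.restrict A (⋂ N, {z | ((k : ℝ≥0∞) + 1)⁻¹ < q N z}) = 0 := by
      refine measure_eq_zero_iff_ae_notMem.2 ?_
      filter_upwards [h] with x hx hmem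
      obtain ⟨N, hN⟩ := (hx.eventually (gt_mem_nhds hηpos)).exists
      exact absurd (Set.mem_iInter.1 hmem N) (not_lt.2 hN.le)
    have hlim := tendsto_measure_iInter_atTop (μ := volume.restrict A)
      (fun N => (hm N).nullMeasurableSet) hanti' ⟨0, measure_ne_top _ _⟩
    rw [h0] at hlim
    have hδq : (0 : ℝ≥0∞) < δ k := by exact_mod_cast hδpos k
    obtain ⟨N, hN⟩ := (hlim.eventually (gt_mem_nhds hδq)).exists
    exact ⟨N, hN.le⟩
  choose N hN using hbad
  have hm : ∀ k : ℕ, MeasurableSet {z | ((k : ℝ≥0∞) + 1)⁻¹ < q (N k) z} := fun k =>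
    measurableSet_lt measurable_const (hq (N k))
  refine ⟨A ∩ (⋃ k : ℕ, {z | ((k : ℝ≥0∞) + 1)⁻¹ < q (N k) z})ᶜ, inter_subset_left,
    hA.inter (MeasurableSet.iUnion hm).compl, ?_, ?_⟩
  · have h1 : A \ (A ∩ (⋃ k : ℕ, {z | ((k : ℝ≥0∞) + 1)⁻¹ < q (N k) z})ᶜ) ⊆
        (⋃ k : ℕ, {z | ((k : ℝ≥0∞) + 1)⁻¹ < q (N k) z}) ∩ A := by
      rintro z ⟨hz, hz2⟩
      refine ⟨?_, hz⟩
      by_contra h3
      exact hz2 ⟨hz, h3⟩
    calc volume (A \ (A ∩ (⋃ k : ℕ, {z | ((k : ℝ≥0∞) + 1)⁻¹ < q (N k) z})ᶜ))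
        ≤ volume ((⋃ k : ℕ, {z | ((k : ℝ≥0∞) + 1)⁻¹ < q (N k) z}) ∩ A) := measure_mono h1
      _ = volume.restrict A (⋃ k : ℕ, {z | ((k : ℝ≥0∞) + 1)⁻¹ < q (N k) z}) :=
          (Measure.restrict_apply (MeasurableSet.iUnion hm)).symm
      _ ≤ ∑' k : ℕ, volume.restrict A {z | ((k : ℝ≥0∞) + 1)⁻¹ < q (N k) z} := measure_iUnion_le _
      _ ≤ ∑' k : ℕ, (δ k : ℝ≥0∞) := ENNReal.tsum_le_tsum hN
      _ ≤ ε := hδsum.le
  · intro η hη
    obtain ⟨k, hk⟩ := ENNReal.exists_inv_nat_lt hη.ne'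
    refine ⟨N k, fun n hn z hz => ?_⟩
    have h2 : q (N k) z ≤ ((k : ℝ≥0∞) + 1)⁻¹ := by
      by_contra h3
      exact hz.2 (mem_iUnion.2 ⟨k, not_le.1 h3⟩)
    calc q n z ≤ q (N k) z := hanti z hn
      _ ≤ ((k : ℝ≥0∞) + 1)⁻¹ := h2
      _ ≤ ((k : ℝ≥0∞))⁻¹ := ENNReal.inv_le_inv.2 le_self_add
      _ ≤ η := hk.le

end CF6

end

section



end

section

/-! # Module L, row G4a -/

open Complex MeasureTheory Set Filter Topology Metric
open scoped ENNReal

namespace CF6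

/-- G4a. `dq` is decreasing in `n`. -/
theorem dq_antitone (f g : ℂ → ℂ) (e z : ℂ) : Antitone fun n => dq f g e n z := by
  intro n m hnm
  show dq f g e m z ≤ dq f g e n z
  unfold dq
  refine iSup₂_le fun t ht => ?_
  refine le_iSup₂_of_le t ⟨ht.1, ht.2.trans_le ?_⟩ le_rfl
  have h1 : (0 : ℝ) < (n : ℝ) + 1 := by positivity
  have h2 : (n : ℝ) ≤ m := by exact_mod_cast hnm
  apply one_div_le_one_div_of_le h1
  linarith

/-- G4b. From rational to real increments: if `K ⊆ Ω` is compact, `f` continuous on the open set `Ω`, and `dq (indicator Ω f) g e n z ≤ ε` for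
`z ∈ K`, then for all real `t` with `|t| < 1/(n+1)` and `|t| < d`, `d` = distance of `K` to `Ωᶜ`: `‖f (z + t e) - f z - t g z‖ ≤ ε |t|`
(limit of rational increments `t' → t`, continuity of `f` at `z + t e ∈ Ω`; `t = 0` is trivial). -/
theorem dq_real {Ω K : Set ℂ} (hO : IsOpen Ω) (hK : IsCompact K) (hKO : K ⊆ Ω) {f g : ℂ → ℂ}
    (hf : ContinuousOn f Ω) {e : ℂ} (he : ‖e‖ = 1)
    (h : ∀ η > (0 : ℝ≥0∞), ∃ N : ℕ, ∀ n ≥ N, ∀ z ∈ K, dq (indicator Ω f) g e n z ≤ η) :
    ∀ ε > (0 : ℝ), ∃ δ > (0 : ℝ), ∀ z ∈ K, ∀ t : ℝ, |t| < δ →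
      ‖f (z + t * e) - f z - t * g z‖ ≤ ε * |t| := by
  intro ε hε
  obtain ⟨N, hN⟩ := h (ENNReal.ofReal ε) (ENNReal.ofReal_pos.mpr hε)
  obtain ⟨δ₁, hδ₁, hth⟩ := hK.exists_cthickening_subset_open hO hKO
  have hN0 : (0 : ℝ) < 1 / ((N : ℝ) + 1) := by positivity
  refine ⟨min (1 / ((N : ℝ) + 1)) δ₁, lt_min hN0 hδ₁, fun z hz t ht => ?_⟩
  have hin : ∀ s : ℝ, |s| < min (1 / ((N : ℝ) + 1)) δ₁ → z + s * e ∈ Ω := by
    intro s hs
    apply hth
    apply closedBall_subset_cthickening hz δ₁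
    rw [mem_closedBall, dist_eq_norm, add_sub_cancel_left, norm_mul, he, mul_one, Complex.norm_real,
      Real.norm_eq_abs]
    exact (hs.trans_le (min_le_right _ _)).le
  by_cases ht0 : t = 0
  · rw [ht0]
    simp
  by_contra hcon
  push Not at hcon
  -- continuity at `t`
  have hcont : ContinuousAt (fun s : ℝ => f (z + s * e)) t := by
    have h1 : ContinuousAt f (z + t * e) := hf.continuousAt (hO.mem_nhds (hin t ht))
    have h2 : ContinuousAt (fun s : ℝ => z + (s : ℂ) * e) t := by fun_prop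
    exact ContinuousAt.comp (f := fun s : ℝ => z + (s : ℂ) * e) h1 h2
  have hL : ContinuousAt (fun s : ℝ => ‖f (z + s * e) - f z - s * g z‖) t := by
    refine ContinuousAt.norm ((hcont.sub continuousAt_const).sub ?_)
    fun_prop
  have hR : ContinuousAt (fun s : ℝ => ε * |s|) t := by fun_prop
  have hev : ∀ᶠ s : ℝ in 𝓝 t, ε * |s| < ‖f (z + s * e) - f z - s * g z‖ := hR.eventually_lt hL hcon
  have hev2 : ∀ᶠ s : ℝ in 𝓝 t, |s| < min (1 / ((N : ℝ) + 1)) δ₁ :=
    (continuous_abs.continuousAt).eventually_lt continuousAt_const ht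
  have hev3 : ∀ᶠ s : ℝ in 𝓝 t, s ≠ 0 := isOpen_ne.mem_nhds ht0
  obtain ⟨q, hq⟩ := Rat.denseRange_cast.mem_nhds (hev.and (hev2.and hev3))
  obtain ⟨hq1, hq2, hq3⟩ := hq
  have hq0 : q ≠ 0 := by
    intro h0
    apply hq3
    rw [h0, Rat.cast_zero]
  have h1 := hN N le_rfl z hz
  have h2 : ENNReal.ofReal (‖indicator Ω f (z + (q : ℝ) * e) - indicator Ω f z - (q : ℝ) * g z‖
      / |(q : ℝ)|) ≤ ENNReal.ofReal ε := by
    refine le_trans ?_ h1
    unfold dq
    exact le_iSup₂_of_le q ⟨hq0, hq2.trans_le (min_le_left _ _)⟩ le_rfl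
  rw [indicator_of_mem (hin q hq2), indicator_of_mem (hKO hz), ENNReal.ofReal_le_ofReal_iff hε.le,
    div_le_iff₀ (abs_pos.mpr hq3)] at h2
  exact absurd hq1 (not_lt.mpr h2)

end CF6

end

section

/-! # Module L, row G4c -/

open Complex MeasureTheory Set Filter Topology Metric
open scoped ENNReal

namespace CF6

/-- G4c. Good sets. Proof: `gx, gy` measurable representatives of `fx, fy` (`ha.mx.mk`). `A = {z ∈ Ω | fx z = gx z, fy z = gy z}` up to a null set
(take a measurable set `A ⊆ Ω` with `volume (Ω \ A) = 0` on which the two equalities hold: `Ω \ toMeasurable` of the exceptional set).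
G2, G3b (twice), G3a (twice), `dq_real`. Finally `fx = gx`, `fy = gy` on `E`. -/
theorem exists_goodE {Ω : Set ℂ} (hO : IsOpen Ω) (hfin : volume Ω ≠ ⊤) {f fx fy : ℂ → ℂ}
    (ha : ACL2 Ω f fx fy) {κ : ℝ≥0∞} (hκ : 0 < κ) :
    ∃ E : Set ℂ, GoodE Ω f fx fy E ∧ volume (Ω \ E) ≤ κ := by
  set gx := ha.mx.mk fx with hgx
  set gy := ha.my.mk fy with hgy
  have mx : Measurable gx := ha.mx.stronglyMeasurable_mk.measurable
  have my : Measurable gy := ha.my.stronglyMeasurable_mk.measurable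
  have ex : fx =ᵐ[volume.restrict Ω] gx := ha.mx.ae_eq_mk
  have ey : fy =ᵐ[volume.restrict Ω] gy := ha.my.ae_eq_mk
  have hF : Measurable (indicator Ω f) := by
    have h1 : AEStronglyMeasurable f (volume.restrict Ω) :=
      ha.cont.aestronglyMeasurable hO.measurableSet
    refine measurable_of_isOpen fun U hU => ?_
    by_cases h0 : (0 : ℂ) ∈ U
    · have : indicator Ω f ⁻¹' U = (Ω ∩ f ⁻¹' U) ∪ Ωᶜ := by
        ext z
        by_cases hz : z ∈ Ω
        · simp [hz]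
        · simp [hz, h0]
      rw [this]
      exact (ha.cont.isOpen_inter_preimage hO hU).measurableSet.union hO.measurableSet.compl
    · have : indicator Ω f ⁻¹' U = Ω ∩ f ⁻¹' U := by
        ext z
        by_cases hz : z ∈ Ω
        · simp [hz]
        · simp [hz, h0]
      rw [this]
      exact (ha.cont.isOpen_inter_preimage hO hU).measurableSet
  -- the measurable set where the representatives agree
  set N : Set ℂ := {z | ¬ (fx z = gx z ∧ fy z = gy z)} with hN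
  have hN0 : (volume.restrict Ω) N = 0 := ae_iff.1 (ex.and ey)
  set M := toMeasurable (volume.restrict Ω) N with hM
  have hMm : MeasurableSet M := measurableSet_toMeasurable _ _
  have hM0 : (volume.restrict Ω) M = 0 := by rw [hM, measure_toMeasurable]; exact hN0
  have hNM : N ⊆ M := subset_toMeasurable _ _
  set A : Set ℂ := Ω \ M with hA
  have hAm : MeasurableSet A := hO.measurableSet.diff hMm
  have hAO : A ⊆ Ω := sdiff_subset
  have hAfin : volume A ≠ ⊤ := ne_top_of_le_ne_top hfin (measure_mono hAO)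
  have hOA : volume (Ω \ A) = 0 := by
    rw [Measure.restrict_apply hMm] at hM0
    refine measure_mono_null ?_ hM0
    intro z hz
    refine ⟨?_, hz.1⟩
    by_contra hc
    exact hz.2 ⟨hz.1, hc⟩
  have hAe : ∀ z ∈ A, fx z = gx z ∧ fy z = gy z := fun z hz => by
    by_contra hc
    exact hz.2 (hNM hc)
  have hle : volume.restrict A ≤ volume.restrict Ω := Measure.restrict_mono hAO le_rfl
  have dx : ∀ᵐ z ∂(volume.restrict A), Tendsto (fun n => dq (indicator Ω f) gx 1 n z) atTop (𝓝 0) :=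
    ae_mono hle (dq_ae_x hO ha mx ex)
  have hκ4 : 0 < κ / 4 := ENNReal.div_pos hκ.ne' ENNReal.ofNat_ne_top
  obtain ⟨A1, hA1, hA1m, hv1, hu1⟩ := egorov_dq (q := fun n z => dq (indicator Ω f) gx 1 n z)
    (fun n => measurable_dq hF mx 1 n) (fun z => dq_antitone _ _ _ z) hAm hAfin dx hκ4
  have hA1fin : volume A1 ≠ ⊤ := ne_top_of_le_ne_top hAfin (measure_mono hA1)
  have dy : ∀ᵐ z ∂(volume.restrict A1), Tendsto (fun n => dq (indicator Ω f) gy I n z) atTop (𝓝 0) :=
    ae_mono (Measure.restrict_mono (hA1.trans hAO) le_rfl) (dq_ae_y hO ha my ey)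
  obtain ⟨A2, hA2, hA2m, hv2, hu2⟩ := egorov_dq (q := fun n z => dq (indicator Ω f) gy I n z)
    (fun n => measurable_dq hF my I n) (fun z => dq_antitone _ _ _ z) hA1m hA1fin dy hκ4
  have hA2fin : volume A2 ≠ ⊤ := ne_top_of_le_ne_top hA1fin (measure_mono hA2)
  obtain ⟨K1, hK1, hK1c, hc1, hv3⟩ := lusin mx hA2m hA2fin hκ4
  have hK1fin : volume K1 ≠ ⊤ := ne_top_of_le_ne_top hA2fin (measure_mono hK1)
  obtain ⟨K2, hK2, hK2c, hc2, hv4⟩ := lusin my hK1c.measurableSet hK1fin hκ4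
  have s1 : K2 ⊆ A2 := hK2.trans hK1
  have s2 : K2 ⊆ A1 := s1.trans hA2
  have s3 : K2 ⊆ A := s2.trans hA1
  have s4 : K2 ⊆ Ω := s3.trans hAO
  refine ⟨K2, ⟨hK2c, s4, ?_, ?_, ?_, ?_⟩, ?_⟩
  · exact (hc1.mono hK2).congr fun z hz => (hAe z (s3 hz)).1
  · exact hc2.congr fun z hz => (hAe z (s3 hz)).2
  · intro ε hε
    obtain ⟨δ, hδ, h⟩ := dq_real hO hK2c s4 (g := gx) ha.cont (e := 1) norm_one (fun η hη => by
      obtain ⟨n, hn⟩ := hu1 η hη
      exact ⟨n, fun m hm z hz => hn m hm z (s2 hz)⟩) ε hε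
    refine ⟨δ, hδ, fun z hz t ht => ?_⟩
    rw [(hAe z (s3 hz)).1]
    exact h z hz t ht
  · intro ε hε
    obtain ⟨δ, hδ, h⟩ := dq_real hO hK2c s4 (g := gy) ha.cont (e := I) norm_I (fun η hη => by
      obtain ⟨n, hn⟩ := hu2 η hη
      exact ⟨n, fun m hm z hz => hn m hm z (s1 hz)⟩) ε hε
    refine ⟨δ, hδ, fun z hz t ht => ?_⟩
    rw [(hAe z (s3 hz)).2]
    exact h z hz t ht
  · have hsub : Ω \ K2 ⊆ (Ω \ A) ∪ ((A \ A1) ∪ ((A1 \ A2) ∪ ((A2 \ K1) ∪ (K1 \ K2)))) := by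
      intro z hz
      by_cases h1 : z ∈ A
      · by_cases h2 : z ∈ A1
        · by_cases h3 : z ∈ A2
          · by_cases h4 : z ∈ K1
            · exact Or.inr (Or.inr (Or.inr (Or.inr ⟨h4, hz.2⟩)))
            · exact Or.inr (Or.inr (Or.inr (Or.inl ⟨h3, h4⟩)))
          · exact Or.inr (Or.inr (Or.inl ⟨h2, h3⟩))
        · exact Or.inr (Or.inl ⟨h1, h2⟩)
      · exact Or.inl ⟨hz.1, h1⟩
    calc volume (Ω \ K2) ≤ volume ((Ω \ A) ∪ ((A \ A1) ∪ ((A1 \ A2) ∪ ((A2 \ K1) ∪ (K1 \ K2))))) :=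
          measure_mono hsub
      _ ≤ volume (Ω \ A) + (volume (A \ A1) + (volume (A1 \ A2) +
            (volume (A2 \ K1) + volume (K1 \ K2)))) := by
          refine (measure_union_le _ _).trans (add_le_add le_rfl ?_)
          refine (measure_union_le _ _).trans (add_le_add le_rfl ?_)
          refine (measure_union_le _ _).trans (add_le_add le_rfl ?_)
          exact measure_union_le _ _
      _ ≤ 0 + (κ / 4 + (κ / 4 + (κ / 4 + κ / 4))) := by
          gcongr
          exact hOA.le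
      _ = κ := by
          rw [zero_add]
          have : κ / 4 + (κ / 4 + (κ / 4 + κ / 4)) = 4 * (κ / 4) := by ring
          rw [this, ENNReal.mul_div_cancel (by norm_num) ENNReal.ofNat_ne_top]

end CF6

end

section



end

section

/-! # Module L, row G5a -/

open Complex MeasureTheory Set Filter Topology Metric
open scoped ENNReal

namespace CF6

theorem pd_apply (a b v : ℂ) : pd a b v = v.re * a + v.im * b := by
  simp [pd]

/-- G5a. For `z, w ∈ E`, `w = z + s + t I`: `f w - f z = (f w - f (z + s)) + (f (z + s) - f z)`, and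
`z + s = w + (-t) I`: by `H.uy` at `w`, `f w - f (z+s) = t fy w + O(ε |t|)`, by `H.ux` at `z`, `f (z+s) - f z = s fx z + O(ε |s|)`; `fy w → fy z`
for `w → z`, `w ∈ E`. -/
theorem GoodE.hasFDeriv {Ω E : Set ℂ} {f fx fy : ℂ → ℂ} (H : GoodE Ω f fx fy E) {z : ℂ}
    (hz : z ∈ E) : HasFDerivWithinAt f (pd (fx z) (fy z)) E z := by
  rw [hasFDerivWithinAt_iff_isLittleO, Asymptotics.isLittleO_iff]
  intro c hc
  have hε : 0 < c / 3 := by positivity
  obtain ⟨δx, hδx, hux⟩ := H.ux (c / 3) hε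
  obtain ⟨δy, hδy, huy⟩ := H.uy (c / 3) hε
  obtain ⟨δ3, hδ3, h3⟩ := Metric.continuousWithinAt_iff.1 (H.cy z hz) (c / 3) hε
  rw [eventually_nhdsWithin_iff, Metric.eventually_nhds_iff]
  refine ⟨min δx (min δy δ3), by positivity, ?_⟩
  intro w hw hwE
  have hd : ‖w - z‖ < min δx (min δy δ3) := by rwa [dist_eq_norm] at hw
  have hs : |(w - z).re| ≤ ‖w - z‖ := Complex.abs_re_le_norm _
  have ht : |(w - z).im| ≤ ‖w - z‖ := Complex.abs_im_le_norm _
  have e1 := hux z hz (w - z).re (lt_of_le_of_lt hs (hd.trans_le (min_le_left _ _)))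
  have e2 := huy w hwE (-(w - z).im) (by
    rw [abs_neg]
    exact lt_of_le_of_lt ht (hd.trans_le ((min_le_right _ _).trans (min_le_left _ _))))
  have e3 : ‖fy w - fy z‖ ≤ c / 3 := by
    rw [← dist_eq_norm]
    exact (h3 hwE (hw.trans_le ((min_le_right _ _).trans (min_le_right _ _)))).le
  have e4 : z + ((w - z).re : ℂ) * 1 = w + ((-(w - z).im : ℝ) : ℂ) * I := by
    apply Complex.ext <;> simp
  rw [e4] at e1
  have e5 : f w - f z - pd (fx z) (fy z) (w - z) =
      (f (w + ((-(w - z).im : ℝ) : ℂ) * I) - f z - ((w - z).re : ℂ) * fx z) -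
      (f (w + ((-(w - z).im : ℝ) : ℂ) * I) - f w - ((-(w - z).im : ℝ) : ℂ) * fy w) +
      (((w - z).im : ℝ) : ℂ) * (fy w - fy z) := by
    rw [pd_apply]
    push_cast
    ring
  rw [e5]
  have e6 : ‖(((w - z).im : ℝ) : ℂ) * (fy w - fy z)‖ ≤ ‖w - z‖ * (c / 3) := by
    rw [norm_mul, Complex.norm_real, Real.norm_eq_abs]
    exact mul_le_mul ht e3 (norm_nonneg _) (norm_nonneg _)
  have e7 : c / 3 * |(w - z).re| ≤ c / 3 * ‖w - z‖ := mul_le_mul_of_nonneg_left hs hε.le
  have e8 : c / 3 * |-(w - z).im| ≤ c / 3 * ‖w - z‖ := by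
    rw [abs_neg]
    exact mul_le_mul_of_nonneg_left ht hε.le
  refine (norm_add_le _ _).trans ?_
  refine (add_le_add (norm_sub_le _ _) e6).trans ?_
  linarith

/-- G5b. `lintegral_abs_det_fderiv_eq_addHaar_image`. -/
theorem GoodE.area {Ω Ωs E : Set ℂ} {f fx fy : ℂ → ℂ} (H : GoodE Ω f fx fy E)
    (hi : InjOn f Ω) (hm : MapsTo f Ω Ωs) :
    ∫⁻ z in E, ENNReal.ofReal |(pd (fx z) (fy z)).det| ≤ volume Ωs := by
  rw [lintegral_abs_det_fderiv_eq_addHaar_image volume H.cpt.measurableSet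
    (fun x hx => H.hasFDeriv hx) (hi.mono H.sub)]
  refine measure_mono ?_
  rintro y ⟨x, hx, rfl⟩
  exact hm (H.sub hx)

end CF6

end

section

/-! # Module L, row G5c -/

open Complex MeasureTheory Set Filter Topology Metric
open scoped ENNReal

namespace CF6

/-- G5c. Density points: `Besicovitch.ae_tendsto_measure_inter_div`. If `ball p (ε ρ)` does not meet `E`, `‖p - z‖ ≤ 2 ρ` (wlog `ε ≤ 1`), then
`volume (E ∩ closedBall z (3 ρ)) ≤ volume (closedBall z (3ρ)) (1 - (ε/3)^2)`. -/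
theorem ae_densePt {E : Set ℂ} (hE : MeasurableSet E) :
    ∀ᵐ z ∂(volume.restrict E), DensePt E z := by
  filter_upwards [Besicovitch.ae_tendsto_measure_inter_div (volume : Measure ℂ) E] with z hz
  intro ε hε
  set a : ℝ := min ε 1 with ha
  have ha0 : 0 < a := lt_min hε one_pos
  have ha1 : a ≤ 1 := min_le_right _ _
  have hc0 : 0 < ENNReal.ofReal ((a / 3) ^ 2) := ENNReal.ofReal_pos.mpr (by positivity)
  have hlt : 1 - ENNReal.ofReal ((a / 3) ^ 2) < 1 :=
    ENNReal.sub_lt_self ENNReal.one_ne_top one_ne_zero hc0.ne'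
  have hev := hz.eventually (lt_mem_nhds hlt)
  obtain ⟨r₀, hr₀, hr⟩ := (mem_nhdsGT_iff_exists_Ioo_subset).mp hev
  have hr₀' : 0 < r₀ := hr₀
  refine ⟨r₀ / 3, by positivity, fun ρ hρ hρr p hp => ?_⟩
  by_contra hcon
  push Not at hcon
  have h1 : 1 - ENNReal.ofReal ((a / 3) ^ 2)
      < volume (E ∩ closedBall z (3 * ρ)) / volume (closedBall z (3 * ρ)) :=
    hr ⟨by positivity, by linarith⟩
  have hdisj : Disjoint (E ∩ closedBall z (3 * ρ)) (closedBall p (a * ρ)) := by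
    rw [Set.disjoint_left]
    rintro q ⟨hqE, -⟩ hq
    rw [mem_closedBall, dist_eq_norm] at hq
    have h2 := hcon q hqE
    have h3 : a * ρ ≤ ε * ρ := by
      gcongr
      exact min_le_left _ _
    linarith
  have hsub : (E ∩ closedBall z (3 * ρ)) ∪ closedBall p (a * ρ) ⊆ closedBall z (3 * ρ) := by
    apply union_subset inter_subset_right
    intro q hq
    rw [mem_closedBall, dist_eq_norm] at hq ⊢
    have h2 : q - z = (q - p) + (p - z) := by ring
    rw [h2]
    refine (norm_add_le _ _).trans ?_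
    nlinarith
  have h2 : volume (E ∩ closedBall z (3 * ρ)) + volume (closedBall p (a * ρ))
      ≤ volume (closedBall z (3 * ρ)) := by
    rw [← measure_union hdisj isClosed_closedBall.measurableSet]
    exact measure_mono hsub
  have hV0 : volume (closedBall z (3 * ρ)) ≠ 0 :=
    (measure_closedBall_pos volume z (by positivity)).ne'
  have hVt : volume (closedBall z (3 * ρ)) ≠ ⊤ := measure_closedBall_lt_top.ne
  have h3 : volume (closedBall p (a * ρ))
      = ENNReal.ofReal ((a / 3) ^ 2) * volume (closedBall z (3 * ρ)) := by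
    rw [Complex.volume_closedBall, Complex.volume_closedBall, ← mul_assoc,
      ← ENNReal.ofReal_pow (by positivity), ← ENNReal.ofReal_pow (by positivity),
      ← ENNReal.ofReal_mul (by positivity)]
    congr 2
    ring
  have h4 : volume (E ∩ closedBall z (3 * ρ)) / volume (closedBall z (3 * ρ))
      + ENNReal.ofReal ((a / 3) ^ 2) ≤ 1 := by
    have h5 := ENNReal.div_le_div_right h2 (volume (closedBall z (3 * ρ)))
    rw [ENNReal.div_self hV0 hVt, ENNReal.add_div, h3, ENNReal.mul_div_cancel_right hV0 hVt] at h5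
    exact h5
  have h5 := ENNReal.le_sub_of_add_le_right ENNReal.ofReal_ne_top h4
  exact absurd h1 (not_lt.mpr h5)

end CF6

end

section



end

section

/-! # Module L, row G6: rectangles around density points -/

open Complex MeasureTheory Set Filter Topology Metric
open scoped ENNReal

namespace CF6

/-- uniform estimate for increments along the axes, starting at points of `E` -/
theorem g6_core {Ω E : Set ℂ} {f fx fy : ℂ → ℂ} (H : GoodE Ω f fx fy E) {z : ℂ}
    (hz : z ∈ E) {ε : ℝ} (hε : 0 < ε) :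
    ∃ r > (0 : ℝ), ∀ ρ : ℝ, 0 < ρ → ρ < r → ∀ q ∈ E, ‖q - z‖ ≤ 2 * ρ → ∀ t : ℝ, |t| ≤ 4 * ρ →
      ‖f (q + t * 1) - f z - pd (fx z) (fy z) (q + t * 1 - z)‖ ≤ ε * ρ ∧
      ‖f (q + t * I) - f z - pd (fx z) (fy z) (q + t * I - z)‖ ≤ ε * ρ := by
  have hε' : 0 < ε / 12 := by positivity
  obtain ⟨δx, hδx, hux⟩ := H.ux (ε / 12) hε'
  obtain ⟨δy, hδy, huy⟩ := H.uy (ε / 12) hε'
  -- differentiability along E
  have hd := (H.hasFDeriv hz).isLittleO.def hε'
  rw [eventually_nhdsWithin_iff] at hd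
  obtain ⟨δ1, hδ1, h1⟩ := Metric.eventually_nhds_iff.1 hd
  obtain ⟨δ2, hδ2, h2⟩ := Metric.continuousWithinAt_iff.1 (H.cx z hz) (ε / 12) hε'
  obtain ⟨δ3, hδ3, h3⟩ := Metric.continuousWithinAt_iff.1 (H.cy z hz) (ε / 12) hε'
  refine ⟨min (min (δx / 5) (δy / 5)) (min (δ1 / 3) (min (δ2 / 3) (δ3 / 3))), by positivity, ?_⟩
  intro ρ hρ hρr q hq hqz t ht
  have r1 : ρ < δx / 5 := hρr.trans_le ((min_le_left _ _).trans (min_le_left _ _))
  have r2 : ρ < δy / 5 := hρr.trans_le ((min_le_left _ _).trans (min_le_right _ _))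
  have r3 : ρ < δ1 / 3 := hρr.trans_le ((min_le_right _ _).trans (min_le_left _ _))
  have r4 : ρ < δ2 / 3 := hρr.trans_le ((min_le_right _ _).trans
    ((min_le_right _ _).trans (min_le_left _ _)))
  have r5 : ρ < δ3 / 3 := hρr.trans_le ((min_le_right _ _).trans
    ((min_le_right _ _).trans (min_le_right _ _)))
  have hdist : dist q z ≤ 2 * ρ := by rw [dist_eq_norm]; exact hqz
  have e1 : ‖f q - f z - pd (fx z) (fy z) (q - z)‖ ≤ ε / 12 * ‖q - z‖ :=
    h1 (lt_of_le_of_lt hdist (by linarith)) hq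
  have e1' : ‖f q - f z - pd (fx z) (fy z) (q - z)‖ ≤ ε / 12 * (2 * ρ) :=
    e1.trans (mul_le_mul_of_nonneg_left hqz hε'.le)
  have e2 : ‖fx q - fx z‖ ≤ ε / 12 := by
    rw [← dist_eq_norm]
    exact (h2 hq (lt_of_le_of_lt hdist (by linarith))).le
  have e3 : ‖fy q - fy z‖ ≤ ε / 12 := by
    rw [← dist_eq_norm]
    exact (h3 hq (lt_of_le_of_lt hdist (by linarith))).le
  have habs : 0 ≤ |t| := abs_nonneg t
  have key : ∀ (e : ℂ) (g : ℂ → ℂ), ‖f (q + t * e) - f q - t * g q‖ ≤ ε / 12 * |t| →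
      ‖g q - g z‖ ≤ ε / 12 → pd (fx z) (fy z) (t * e) = t * g z →
      ‖f (q + t * e) - f z - pd (fx z) (fy z) (q + t * e - z)‖ ≤ ε * ρ := by
    intro e g k1 k2 k3
    have k4 : f (q + t * e) - f z - pd (fx z) (fy z) (q + t * e - z) =
        (f (q + t * e) - f q - t * g q) + (f q - f z - pd (fx z) (fy z) (q - z)) +
          t * (g q - g z) := by
      have : q + t * e - z = (q - z) + t * e := by ring
      rw [this, map_add, k3]
      ring
    have k5 : ‖(t : ℂ) * (g q - g z)‖ ≤ 4 * ρ * (ε / 12) := by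
      rw [norm_mul, Complex.norm_real, Real.norm_eq_abs]
      exact mul_le_mul ht k2 (norm_nonneg _) (by linarith)
    have k6 : ε / 12 * |t| ≤ ε / 12 * (4 * ρ) := mul_le_mul_of_nonneg_left ht hε'.le
    rw [k4]
    refine (norm_add₃_le).trans ?_
    have : ε / 12 * (4 * ρ) + ε / 12 * (2 * ρ) + 4 * ρ * (ε / 12) ≤ ε * ρ := by
      have k7 : 0 < ε * ρ := mul_pos hε hρ
      have k8 : ε / 12 * (4 * ρ) + ε / 12 * (2 * ρ) + 4 * ρ * (ε / 12) = 10 / 12 * (ε * ρ) := by
        ring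
      rw [k8]
      linarith only [k7]
    linarith only [this, k1, e1', k5, k6]
  constructor
  · refine key 1 fx (hux q hq t (lt_of_le_of_lt ht (by linarith))) e2 ?_
    rw [pd_apply]
    simp
  · refine key I fy (huy q hq t (lt_of_le_of_lt ht (by linarith))) e3 ?_
    rw [pd_apply]
    simp

/-- G6a. Let `L = pd (fx z) (fy z)`. For small `ρ` choose `qR, qL, qT, qB ∈ E` within `ρ/8` (or less) of `z + ρ, z - ρ, z + ρ I, z - ρ I` (`DensePt`), and
`a2 = Re (qR - z)`, `a1 = Re (z - qL)`, `b2 = Im (qT - z)`, `b1 = Im (z - qB)`. A point `v` with `Re v = a2`, `-b1 ≤ Im v ≤ b2`: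
`z + v = qR + t I`, `|t| ≤ 4 ρ`; `f (z + v) = f qR + t fy qR + O(ε t)` (`H.uy`), `f qR = f z + L (qR - z) + O(ε ρ)` (`GoodE.hasFDeriv`), `fy qR = fy z + O(ε)`
(`H.cy`). Sum: `f z + L v + O(20 ε ρ)`. The other three sides are similar. -/
theorem rect_good {Ω E : Set ℂ} {f fx fy : ℂ → ℂ} (H : GoodE Ω f fx fy E) {z : ℂ}
    (hz : z ∈ E) (hd : DensePt E z) {ε r0 : ℝ} (hε : 0 < ε) (hr0 : 0 < r0) :
    ∃ ρ a1 a2 b1 b2 : ℝ, 0 < ρ ∧ ρ < r0 ∧ (ρ / 2 ≤ a1 ∧ a1 ≤ 2 * ρ) ∧ (ρ / 2 ≤ a2 ∧ a2 ≤ 2 * ρ) ∧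
      (ρ / 2 ≤ b1 ∧ b1 ≤ 2 * ρ) ∧ (ρ / 2 ≤ b2 ∧ b2 ≤ 2 * ρ) ∧
      ∀ v : ℂ, -a1 ≤ v.re → v.re ≤ a2 → -b1 ≤ v.im → v.im ≤ b2 →
        (v.re = a2 ∨ v.re = -a1 ∨ v.im = b2 ∨ v.im = -b1) →
        ‖f (z + v) - f z - pd (fx z) (fy z) v‖ ≤ ε * ρ := by
  obtain ⟨r1, hr1, hcore⟩ := g6_core H hz hε
  obtain ⟨r2, hr2, hdense⟩ := hd (1 / 8) (by norm_num)
  obtain ⟨ρ, hρ0, hρ⟩ := exists_between (show 0 < min r0 (min r1 r2) by positivity)
  have hρr0 : ρ < r0 := hρ.trans_le (min_le_left _ _)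
  have hρr1 : ρ < r1 := hρ.trans_le ((min_le_right _ _).trans (min_le_left _ _))
  have hρr2 : ρ < r2 := hρ.trans_le ((min_le_right _ _).trans (min_le_right _ _))
  have hpt : ∀ e : ℂ, ‖e‖ = 1 → ∃ q ∈ E, ‖q - (z + ρ * e)‖ ≤ 1 / 8 * ρ := by
    intro e he
    refine hdense ρ hρ0 hρr2 (z + ρ * e) ?_
    rw [add_sub_cancel_left, norm_mul, he, Complex.norm_real, Real.norm_eq_abs, abs_of_pos hρ0]
    linarith
  obtain ⟨qR, hqR, eR⟩ := hpt 1 (by simp)
  obtain ⟨qL, hqL, eL⟩ := hpt (-1) (by simp)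
  obtain ⟨qT, hqT, eT⟩ := hpt I (by simp)
  obtain ⟨qB, hqB, eB⟩ := hpt (-I) (by simp)
  have hre : ∀ w : ℂ, ‖w‖ ≤ 1 / 8 * ρ → |w.re| ≤ 1 / 8 * ρ ∧ |w.im| ≤ 1 / 8 * ρ := fun w hw =>
    ⟨(Complex.abs_re_le_norm w).trans hw, (Complex.abs_im_le_norm w).trans hw⟩
  have bR := hre _ eR
  have bL := hre _ eL
  have bT := hre _ eT
  have bB := hre _ eB
  simp only [Complex.sub_re, Complex.add_re, Complex.mul_re, Complex.ofReal_re, Complex.one_re,
    Complex.ofReal_im, Complex.one_im, Complex.sub_im, Complex.add_im, Complex.mul_im,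
    Complex.neg_re, Complex.neg_im, Complex.I_re, Complex.I_im, abs_le] at bR bL bT bB
  have hclose : ∀ q e : ℂ, ‖e‖ = 1 → ‖q - (z + ρ * e)‖ ≤ 1 / 8 * ρ → ‖q - z‖ ≤ 2 * ρ := by
    intro q e he hq
    have h1 : q - z = (q - (z + ρ * e)) + ρ * e := by ring
    rw [h1]
    refine (norm_add_le _ _).trans ?_
    rw [norm_mul, he, Complex.norm_real, Real.norm_eq_abs, abs_of_pos hρ0]
    linarith
  have nR := hclose qR 1 (by simp) eR
  have nL := hclose qL (-1) (by simp) eL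
  have nT := hclose qT I (by simp) eT
  have nB := hclose qB (-I) (by simp) eB
  refine ⟨ρ, z.re - qL.re, qR.re - z.re, z.im - qB.im, qT.im - z.im, hρ0, hρr0,
    ⟨by linarith only [bL.1.1, bL.1.2, hρ0], by linarith only [bL.1.1, bL.1.2, hρ0]⟩,
    ⟨by linarith only [bR.1.1, bR.1.2, hρ0], by linarith only [bR.1.1, bR.1.2, hρ0]⟩,
    ⟨by linarith only [bB.2.1, bB.2.2, hρ0], by linarith only [bB.2.1, bB.2.2, hρ0]⟩,
    ⟨by linarith only [bT.2.1, bT.2.2, hρ0], by linarith only [bT.2.1, bT.2.2, hρ0]⟩, ?_⟩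
  intro v v1 v2 v3 v4 hv
  rcases hv with hv | hv | hv | hv
  · have h1 : z + v = qR + ((z.im + v.im - qR.im : ℝ) : ℂ) * I := by
      apply Complex.ext
      · simp
        linarith only [hv]
      · simp
    have h2 := (hcore ρ hρ0 hρr1 qR hqR nR (z.im + v.im - qR.im) (by
      rw [abs_le]
      constructor <;> linarith only [bR.2.1, bR.2.2, bB.2.1, bB.2.2, bT.2.1, bT.2.2, v1, v2, v3, v4, hρ0])).2
    rw [← h1, add_sub_cancel_left] at h2
    exact h2
  · have h1 : z + v = qL + ((z.im + v.im - qL.im : ℝ) : ℂ) * I := by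
      apply Complex.ext
      · simp
        linarith only [hv]
      · simp
    have h2 := (hcore ρ hρ0 hρr1 qL hqL nL (z.im + v.im - qL.im) (by
      rw [abs_le]
      constructor <;> linarith only [bL.2.1, bL.2.2, bB.2.1, bB.2.2, bT.2.1, bT.2.2, v1, v2, v3, v4, hρ0])).2
    rw [← h1, add_sub_cancel_left] at h2
    exact h2
  · have h1 : z + v = qT + ((z.re + v.re - qT.re : ℝ) : ℂ) * 1 := by
      apply Complex.ext
      · simp
      · simp
        linarith only [hv]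
    have h2 := (hcore ρ hρ0 hρr1 qT hqT nT (z.re + v.re - qT.re) (by
      rw [abs_le]
      constructor <;> linarith only [bT.1.1, bT.1.2, bL.1.1, bL.1.2, bR.1.1, bR.1.2, v1, v2, v3, v4, hρ0])).1
    rw [← h1, add_sub_cancel_left] at h2
    exact h2
  · have h1 : z + v = qB + ((z.re + v.re - qB.re : ℝ) : ℂ) * 1 := by
      apply Complex.ext
      · simp
      · simp
        linarith only [hv]
    have h2 := (hcore ρ hρ0 hρr1 qB hqB nB (z.re + v.re - qB.re) (by
      rw [abs_le]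
      constructor <;> linarith only [bB.1.1, bB.1.2, bL.1.1, bL.1.2, bR.1.1, bR.1.2, v1, v2, v3, v4, hρ0])).1
    rw [← h1, add_sub_cancel_left] at h2
    exact h2

end CF6

end

section

/-! # Module L, row G7a -/

open Complex MeasureTheory Set Filter Topology Metric
open scoped ENNReal

namespace CF6

/-- G7a. -/
theorem gau_pos {a1 a2 b1 b2 : ℝ} (h1 : 0 < a1) (h2 : 0 < a2) (h3 : 0 < b1) (h4 : 0 < b2) {v : ℂ}
    (hv : v ≠ 0) : 0 < gau a1 a2 b1 b2 v := by
  unfold gau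
  by_cases hre : v.re = 0
  · have him : v.im ≠ 0 := fun h => hv (Complex.ext hre h)
    rcases lt_or_gt_of_ne him with h | h
    · exact lt_max_of_lt_right (lt_max_of_lt_right (div_pos (by linarith) h3))
    · exact lt_max_of_lt_right (lt_max_of_lt_left (div_pos h h4))
  · rcases lt_or_gt_of_ne hre with h | h
    · exact lt_max_of_lt_left (lt_max_of_lt_right (div_pos (by linarith) h1))
    · exact lt_max_of_lt_left (lt_max_of_lt_left (div_pos h h2))

theorem gau_cont (a1 a2 b1 b2 : ℝ) : Continuous (gau a1 a2 b1 b2) := by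
  unfold gau
  exact ((Complex.continuous_re.div_const _).max ((Complex.continuous_re.neg).div_const _)).max
    ((Complex.continuous_im.div_const _).max ((Complex.continuous_im.neg).div_const _))

/-- G7b. The loop `rl`: continuous, closed, on the boundary of the rectangle, norm bounds. (`gau` is positively homogeneous, so
`gau (rl t) = 1`.) -/
theorem rl_facts {ρ a1 a2 b1 b2 : ℝ} (hρ : 0 < ρ) (h1 : ρ / 2 ≤ a1 ∧ a1 ≤ 2 * ρ)
    (h2 : ρ / 2 ≤ a2 ∧ a2 ≤ 2 * ρ) (h3 : ρ / 2 ≤ b1 ∧ b1 ≤ 2 * ρ) (h4 : ρ / 2 ≤ b2 ∧ b2 ≤ 2 * ρ) :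
    Continuous (rl a1 a2 b1 b2) ∧ rl a1 a2 b1 b2 0 = rl a1 a2 b1 b2 1 ∧
    ∀ t : ℝ, ρ / 2 ≤ ‖rl a1 a2 b1 b2 t‖ ∧ ‖rl a1 a2 b1 b2 t‖ ≤ 4 * ρ ∧
      -a1 ≤ (rl a1 a2 b1 b2 t).re ∧ (rl a1 a2 b1 b2 t).re ≤ a2 ∧
      -b1 ≤ (rl a1 a2 b1 b2 t).im ∧ (rl a1 a2 b1 b2 t).im ≤ b2 ∧
      ((rl a1 a2 b1 b2 t).re = a2 ∨ (rl a1 a2 b1 b2 t).re = -a1 ∨
        (rl a1 a2 b1 b2 t).im = b2 ∨ (rl a1 a2 b1 b2 t).im = -b1) := by
  have p1 : 0 < a1 := by linarith [h1.1]
  have p2 : 0 < a2 := by linarith [h2.1]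
  have p3 : 0 < b1 := by linarith [h3.1]
  have p4 : 0 < b2 := by linarith [h4.1]
  have hg : ∀ t : ℝ, 0 < gau a1 a2 b1 b2 (exp (2 * Real.pi * t * I)) := fun t =>
    gau_pos p1 p2 p3 p4 (Complex.exp_ne_zero _)
  have hec : Continuous (fun t : ℝ => exp (2 * Real.pi * t * I)) := by fun_prop
  refine ⟨?_, ?_, ?_⟩
  · unfold rl
    refine hec.div (Complex.continuous_ofReal.comp ((gau_cont _ _ _ _).comp hec)) ?_
    intro t
    exact_mod_cast (hg t).ne'
  · unfold rl
    have e1 : exp (2 * Real.pi * ((0 : ℝ) : ℂ) * I) = exp (2 * Real.pi * ((1 : ℝ) : ℂ) * I) := by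
      simp only [Complex.ofReal_zero, Complex.ofReal_one, mul_zero, zero_mul, mul_one,
        Complex.exp_zero, Complex.exp_two_pi_mul_I]
    rw [e1]
  · intro t
    set e := exp (2 * Real.pi * t * I) with he
    set g := gau a1 a2 b1 b2 e with hgdef
    have hgt : 0 < g := hg t
    have hrl : rl a1 a2 b1 b2 t = e / (g : ℂ) := rfl
    have hre : (rl a1 a2 b1 b2 t).re = e.re / g := by
      rw [hrl, Complex.div_ofReal_re]
    have him : (rl a1 a2 b1 b2 t).im = e.im / g := by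
      rw [hrl, Complex.div_ofReal_im]
    have k1 : e.re / a2 ≤ g := (le_max_left _ _).trans (le_max_left _ _)
    have k2 : -e.re / a1 ≤ g := (le_max_right _ _).trans (le_max_left _ _)
    have k3 : e.im / b2 ≤ g := (le_max_left _ _).trans (le_max_right _ _)
    have k4 : -e.im / b1 ≤ g := (le_max_right _ _).trans (le_max_right _ _)
    have m1 : (rl a1 a2 b1 b2 t).re ≤ a2 := by
      rw [hre, div_le_iff₀ hgt, mul_comm, ← div_le_iff₀ p2]
      exact k1
    have m2 : -a1 ≤ (rl a1 a2 b1 b2 t).re := by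
      rw [hre, le_div_iff₀ hgt]
      rw [div_le_iff₀ p1] at k2
      linarith
    have m3 : (rl a1 a2 b1 b2 t).im ≤ b2 := by
      rw [him, div_le_iff₀ hgt, mul_comm, ← div_le_iff₀ p4]
      exact k3
    have m4 : -b1 ≤ (rl a1 a2 b1 b2 t).im := by
      rw [him, le_div_iff₀ hgt]
      rw [div_le_iff₀ p3] at k4
      linarith
    have m5 : (rl a1 a2 b1 b2 t).re = a2 ∨ (rl a1 a2 b1 b2 t).re = -a1 ∨
        (rl a1 a2 b1 b2 t).im = b2 ∨ (rl a1 a2 b1 b2 t).im = -b1 := by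
      rw [hre, him]
      have hmax : g = max (max (e.re / a2) (-e.re / a1)) (max (e.im / b2) (-e.im / b1)) := rfl
      rcases max_choice (max (e.re / a2) (-e.re / a1)) (max (e.im / b2) (-e.im / b1)) with c | c
      · rcases max_choice (e.re / a2) (-e.re / a1) with c' | c'
        · left
          rw [c, c'] at hmax
          rw [div_eq_iff hgt.ne', hmax]
          field_simp
        · right; left
          rw [c, c'] at hmax
          rw [div_eq_iff hgt.ne', hmax]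
          field_simp
      · rcases max_choice (e.im / b2) (-e.im / b1) with c' | c'
        · right; right; left
          rw [c, c'] at hmax
          rw [div_eq_iff hgt.ne', hmax]
          field_simp
        · right; right; right
          rw [c, c'] at hmax
          rw [div_eq_iff hgt.ne', hmax]
          field_simp
    refine ⟨?_, ?_, m2, m1, m4, m3, m5⟩
    · have n1 := Complex.abs_re_le_norm (rl a1 a2 b1 b2 t)
      have n2 := Complex.abs_im_le_norm (rl a1 a2 b1 b2 t)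
      rcases m5 with c | c | c | c
      · rw [c, abs_of_pos p2] at n1
        linarith [h2.1]
      · rw [c, abs_neg, abs_of_pos p1] at n1
        linarith [h1.1]
      · rw [c, abs_of_pos p4] at n2
        linarith [h4.1]
      · rw [c, abs_neg, abs_of_pos p3] at n2
        linarith [h3.1]
    · have n3 := Complex.norm_le_abs_re_add_abs_im (rl a1 a2 b1 b2 t)
      have n4 : |(rl a1 a2 b1 b2 t).re| ≤ 2 * ρ := by
        rw [abs_le]
        constructor <;> linarith [h1.2, h2.2]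
      have n5 : |(rl a1 a2 b1 b2 t).im| ≤ 2 * ρ := by
        rw [abs_le]
        constructor <;> linarith [h3.2, h4.2]
      linarith

end CF6

end

section

/-! # Module L, row W1: winding numbers, existence and uniqueness -/

open Complex MeasureTheory Set Filter Topology Metric
open scoped ENNReal

namespace CF6

/-- W1a. Continuous logarithm. Mathlib: `Complex.exists_continuousOn_eqOn_exp_comp` with `U = univ`
(`ℝ × ℝ` is contractible, hence simply connected). -/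
theorem w_log (g : ℝ × ℝ → ℂ) (hg : Continuous g) (h0 : ∀ p, g p ≠ 0) :
    ∃ l : ℝ × ℝ → ℂ, Continuous l ∧ ∀ p, exp (l p) = g p := by
  have hcs : ContractibleSpace (univ : Set (ℝ × ℝ)) :=
    (convex_univ : Convex ℝ (univ : Set (ℝ × ℝ))).contractibleSpace ⟨(0, 0), mem_univ _⟩
  have hsc : IsSimplyConnected (univ : Set (ℝ × ℝ)) :=
    SimplyConnectedSpace.ofContractible (univ : Set (ℝ × ℝ))
  obtain ⟨l, hl, hl2⟩ := Complex.exists_continuousOn_eqOn_exp_comp hsc isOpen_univ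
    hg.continuousOn (by
      rintro ⟨p, -, hp⟩
      exact h0 p hp)
  exact ⟨l, continuousOn_univ.1 hl, fun p => hl2 (mem_univ p)⟩

/-- the retraction of the line onto the unit interval -/
noncomputable def w1k (t : ℝ) : ℝ := (projIcc (0 : ℝ) 1 zero_le_one t : ℝ)

theorem w1k_cont : Continuous w1k := continuous_subtype_val.comp continuous_projIcc

theorem w1k_mem (t : ℝ) : w1k t ∈ Icc (0 : ℝ) 1 := (projIcc (0 : ℝ) 1 zero_le_one t).2

theorem w1k_eq {t : ℝ} (ht : t ∈ Icc (0 : ℝ) 1) : w1k t = t := by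
  unfold w1k
  rw [projIcc_of_mem zero_le_one ht]

/-- a continuous integer valued function on the unit interval has equal values at the ends -/
theorem w1_int_const {u : ℝ → ℝ} (hu : ContinuousOn u (Icc 0 1))
    (hint : ∀ t ∈ Icc (0 : ℝ) 1, ∃ k : ℤ, u t = k) {t1 t2 : ℝ} (h1 : t1 ∈ Icc (0 : ℝ) 1)
    (h2 : t2 ∈ Icc (0 : ℝ) 1) : u t1 = u t2 := by
  obtain ⟨k0, hk0⟩ := hint t1 h1
  obtain ⟨k1, hk1⟩ := hint t2 h2
  by_contra hne
  have hsub : uIcc t1 t2 ⊆ Icc (0 : ℝ) 1 := by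
    intro x hx
    rcases le_total t1 t2 with h | h
    · rw [uIcc_of_le h] at hx
      exact ⟨h1.1.trans hx.1, hx.2.trans h2.2⟩
    · rw [uIcc_of_ge h] at hx
      exact ⟨h2.1.trans hx.1, hx.2.trans h1.2⟩
  have hiv := intermediate_value_uIcc (hu.mono hsub)
  have hnek : k0 ≠ k1 := fun h => hne (by rw [hk0, hk1, h])
  have hmem : (min (k0 : ℝ) k1 + 1 / 2) ∈ uIcc (u t1) (u t2) := by
    rw [hk0, hk1, mem_uIcc]
    rcases lt_or_gt_of_ne hnek with h | h
    · have h3 : (k0 : ℝ) + 1 ≤ k1 := by exact_mod_cast h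
      left
      rw [min_eq_left (by linarith)]
      constructor <;> linarith
    · have h3 : (k1 : ℝ) + 1 ≤ k0 := by exact_mod_cast h
      right
      rw [min_eq_right (by linarith)]
      constructor <;> linarith
  obtain ⟨x, hx, hxe⟩ := hiv hmem
  obtain ⟨k, hk⟩ := hint x (hsub hx)
  rw [hk] at hxe
  have h4 : (2 : ℝ) * k = 2 * min (k0 : ℝ) k1 + 1 := by linarith
  rcases le_total k0 k1 with h | h
  · rw [min_eq_left (by exact_mod_cast h)] at h4
    have h5 : (2 : ℤ) * k = 2 * k0 + 1 := by exact_mod_cast h4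
    omega
  · rw [min_eq_right (by exact_mod_cast h)] at h4
    have h5 : (2 : ℤ) * k = 2 * k1 + 1 := by exact_mod_cast h4
    omega

/-- polar form of the exponential -/
theorem w1_polar (z : ℂ) : exp z = ‖exp z‖ * exp (z.im * I) := by
  rw [Complex.norm_exp, Complex.ofReal_exp, ← Complex.exp_add, Complex.re_add_im]

/-- W1b. Existence of the winding number. Proof: `g p = c (projIcc p.1) - w`, `w_log`, `θ t = (l (t, 0)).im`;
`exp (l (1,0)) = exp (l (0,0))` gives the integer (`Complex.exp_eq_exp_iff_exists_int`). -/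
theorem exists_winds {c : ℝ → ℂ} {w : ℂ} (hc : ContinuousOn c (Icc 0 1)) (h01 : c 0 = c 1)
    (hw : ∀ t ∈ Icc (0 : ℝ) 1, c t ≠ w) : ∃ n : ℤ, Winds c w n := by
  have hgc : Continuous (fun p : ℝ × ℝ => c (w1k p.1) - w) := by
    have h1 : Continuous (fun t : ℝ => c (w1k t)) := hc.comp_continuous w1k_cont w1k_mem
    exact (h1.comp continuous_fst).sub continuous_const
  obtain ⟨l, hl, hle⟩ := w_log _ hgc (fun p => sub_ne_zero.2 (hw _ (w1k_mem p.1)))
  have hl0 : Continuous (fun t : ℝ => l (t, 0)) := hl.comp (by fun_prop)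
  have hle' : ∀ t ∈ Icc (0 : ℝ) 1, exp (l (t, 0)) = c t - w := by
    intro t ht
    rw [hle (t, 0)]
    simp only
    rw [w1k_eq ht]
  have h0 : (0 : ℝ) ∈ Icc (0 : ℝ) 1 := ⟨le_rfl, zero_le_one⟩
  have h1 : (1 : ℝ) ∈ Icc (0 : ℝ) 1 := ⟨zero_le_one, le_rfl⟩
  have hexp : exp (l (1, 0)) = exp (l (0, 0)) := by
    rw [hle' 1 h1, hle' 0 h0, h01]
  obtain ⟨n, hn⟩ := Complex.exp_eq_exp_iff_exists_int.1 hexp
  refine ⟨n, fun t => (l (t, 0)).im, (Complex.continuous_im.comp hl0).continuousOn, ?_, ?_⟩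
  · intro t ht
    refine ⟨hw t ht, ?_⟩
    have h2 := w1_polar (l (t, 0))
    rw [hle' t ht] at h2
    exact h2
  · have h3 := congrArg Complex.im hn
    simp only [Complex.add_im, Complex.mul_im, Complex.intCast_re, Complex.intCast_im,
      Complex.mul_re, Complex.ofReal_re, Complex.ofReal_im, Complex.I_re, Complex.I_im] at h3
    simp at h3
    show (l (1, 0)).im = (l (0, 0)).im + 2 * Real.pi * n
    rw [h3]
    ring

/-- W1c. Uniqueness. Proof: `θ - θ'` is continuous on `[0,1]` with values in `2πℤ`, so constant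
(`exp (θ I) = exp (θ' I)` because `‖c t - w‖ ≠ 0`; the image of `[0,1]` is connected). -/
theorem Winds.unique {c : ℝ → ℂ} {w : ℂ} {n m : ℤ} (h : Winds c w n) (h' : Winds c w m) :
    n = m := by
  obtain ⟨θ, hθ, h1, h2⟩ := h
  obtain ⟨θ', hθ', h1', h2'⟩ := h'
  have hpi : (2 * Real.pi) ≠ 0 := by positivity
  have hint : ∀ t ∈ Icc (0 : ℝ) 1, ∃ k : ℤ, (θ t - θ' t) / (2 * Real.pi) = k := by
    intro t ht
    obtain ⟨hne, e1⟩ := h1 t ht
    obtain ⟨-, e2⟩ := h1' t ht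
    have hnorm : ((‖c t - w‖ : ℝ) : ℂ) ≠ 0 := by
      exact_mod_cast norm_ne_zero_iff.2 (sub_ne_zero.2 hne)
    have e3 : exp (θ t * I) = exp (θ' t * I) := mul_left_cancel₀ hnorm (e1.symm.trans e2)
    obtain ⟨k, hk⟩ := Complex.exp_eq_exp_iff_exists_int.1 e3
    refine ⟨k, ?_⟩
    have h3 := congrArg Complex.im hk
    simp at h3
    rw [h3]
    field_simp
    ring
  have hu : ContinuousOn (fun t => (θ t - θ' t) / (2 * Real.pi)) (Icc 0 1) :=
    (hθ.sub hθ').div_const _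
  have h4 := w1_int_const hu hint (t1 := 0) (t2 := 1) ⟨le_rfl, zero_le_one⟩ ⟨zero_le_one, le_rfl⟩
  simp only [h2, h2'] at h4
  have h5 : (θ 0 - θ' 0) = θ 0 + 2 * Real.pi * n - (θ' 0 + 2 * Real.pi * m) :=
    (div_left_inj' hpi).1 h4
  have h6 : 2 * Real.pi * (n : ℝ) = 2 * Real.pi * m := by linarith
  exact_mod_cast mul_left_cancel₀ hpi h6

/-- W1d. Shift: `Winds` only depends on `c t - w`. -/
theorem Winds.sub {c : ℝ → ℂ} {w : ℂ} {n : ℤ} (h : Winds c w n) :
    Winds (fun t => c t - w) 0 n := by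
  obtain ⟨θ, hθ, h1, h2⟩ := h
  refine ⟨θ, hθ, fun t ht => ⟨sub_ne_zero.2 (h1 t ht).1, ?_⟩, h2⟩
  simp only [sub_zero]
  exact (h1 t ht).2

theorem Winds.of_sub {c : ℝ → ℂ} {w : ℂ} {n : ℤ} (h : Winds (fun t => c t - w) 0 n) :
    Winds c w n := by
  obtain ⟨θ, hθ, h1, h2⟩ := h
  refine ⟨θ, hθ, fun t ht => ⟨sub_ne_zero.1 (h1 t ht).1, ?_⟩, h2⟩
  have h3 := (h1 t ht).2
  simp only [sub_zero] at h3
  exact h3

/-- W1e. -/
theorem Winds.congr {c c' : ℝ → ℂ} {w : ℂ} {n : ℤ} (h : Winds c w n)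
    (he : ∀ t ∈ Icc (0 : ℝ) 1, c t = c' t) : Winds c' w n := by
  obtain ⟨θ, hθ, h1, h2⟩ := h
  refine ⟨θ, hθ, fun t ht => ?_, h2⟩
  rw [← he t ht]
  exact h1 t ht

end CF6

end

section

/-! # Module L, row W2a -/

open Complex MeasureTheory Set Filter Topology Metric
open scoped ENNReal

namespace CF6

/-- W2a. Homotopy invariance. Proof: `g (s,t) = H (projIcc s) (projIcc t) - w (projIcc s)` is continuous and not zero on
`ℝ × ℝ`; `w_log`: `l`. `(l (s,1) - l (s,0)) / (2πi)` is an integer (as `H s 0 = H s 1`) and continuous in `s`, hence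
constant on `[0,1]`. For `s = 0` it is `n` (`Winds.unique` with the lift `t ↦ (l (0,t)).im`), and `t ↦ (l (1,t)).im` is the lift
for `s = 1`. -/
theorem Winds.homotopy {H : ℝ → ℝ → ℂ} {w : ℝ → ℂ}
    (hH : ContinuousOn (fun p : ℝ × ℝ => H p.1 p.2) (Icc 0 1 ×ˢ Icc 0 1))
    (hw : ContinuousOn w (Icc 0 1)) (h01 : ∀ s ∈ Icc (0 : ℝ) 1, H s 0 = H s 1)
    (hne : ∀ s ∈ Icc (0 : ℝ) 1, ∀ t ∈ Icc (0 : ℝ) 1, H s t ≠ w s) {n : ℤ}
    (h : Winds (H 0) (w 0) n) : Winds (H 1) (w 1) n := by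
  have h0 : (0 : ℝ) ∈ Icc (0 : ℝ) 1 := ⟨le_rfl, zero_le_one⟩
  have h1 : (1 : ℝ) ∈ Icc (0 : ℝ) 1 := ⟨zero_le_one, le_rfl⟩
  have hgc : Continuous (fun p : ℝ × ℝ => H (w1k p.1) (w1k p.2) - w (w1k p.1)) := by
    have c1 : Continuous (fun p : ℝ × ℝ => (w1k p.1, w1k p.2)) :=
      (w1k_cont.comp continuous_fst).prodMk (w1k_cont.comp continuous_snd)
    have c2 : Continuous (fun p : ℝ × ℝ => H (w1k p.1) (w1k p.2)) :=
      hH.comp_continuous c1 (fun p => ⟨w1k_mem p.1, w1k_mem p.2⟩)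
    have c3 : Continuous (fun t : ℝ => w (w1k t)) := hw.comp_continuous w1k_cont w1k_mem
    exact c2.sub (c3.comp continuous_fst)
  obtain ⟨l, hl, hle⟩ := w_log _ hgc
    (fun p => sub_ne_zero.2 (hne _ (w1k_mem p.1) _ (w1k_mem p.2)))
  have hle' : ∀ s ∈ Icc (0 : ℝ) 1, ∀ t ∈ Icc (0 : ℝ) 1, exp (l (s, t)) = H s t - w s := by
    intro s hs t ht
    rw [hle (s, t)]
    simp only
    rw [w1k_eq hs, w1k_eq ht]
  have hlift : ∀ s ∈ Icc (0 : ℝ) 1, ∀ m : ℤ, (l (s, 1)).im = (l (s, 0)).im + 2 * Real.pi * m →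
      Winds (H s) (w s) m := by
    intro s hs m hm
    have hls : Continuous (fun t : ℝ => l (s, t)) := hl.comp (by fun_prop)
    refine ⟨fun t => (l (s, t)).im, (Complex.continuous_im.comp hls).continuousOn, ?_, hm⟩
    intro t ht
    refine ⟨hne s hs t ht, ?_⟩
    have h2 := w1_polar (l (s, t))
    rw [hle' s hs t ht] at h2
    exact h2
  have hpi : (2 * Real.pi) ≠ 0 := by positivity
  have hint : ∀ s ∈ Icc (0 : ℝ) 1, ∃ k : ℤ, ((l (s, 1)).im - (l (s, 0)).im) / (2 * Real.pi) = k := by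
    intro s hs
    have e1 : exp (l (s, 1)) = exp (l (s, 0)) := by
      rw [hle' s hs 1 h1, hle' s hs 0 h0, h01 s hs]
    obtain ⟨k, hk⟩ := Complex.exp_eq_exp_iff_exists_int.1 e1
    refine ⟨k, ?_⟩
    have h3 := congrArg Complex.im hk
    simp at h3
    rw [h3]
    field_simp
    ring
  have hu : ContinuousOn (fun s : ℝ => ((l (s, 1)).im - (l (s, 0)).im) / (2 * Real.pi)) (Icc 0 1) := by
    have c1 : Continuous (fun s : ℝ => l (s, 1)) := hl.comp (by fun_prop)
    have c2 : Continuous (fun s : ℝ => l (s, 0)) := hl.comp (by fun_prop)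
    exact (((Complex.continuous_im.comp c1).sub (Complex.continuous_im.comp c2)).div_const
      _).continuousOn
  obtain ⟨k, hk⟩ := hint 0 h0
  have hconst : ∀ s ∈ Icc (0 : ℝ) 1, (l (s, 1)).im = (l (s, 0)).im + 2 * Real.pi * k := by
    intro s hs
    have h4 := w1_int_const hu hint hs h0
    rw [hk, div_eq_iff hpi] at h4
    linarith
  have hkn : k = n := (hlift 0 h0 k (hconst 0 h0)).unique h
  have h5 := hlift 1 h1 k (hconst 1 h1)
  rwa [hkn] at h5

end CF6

end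

section

/-! # Module L, row W2b -/

open Complex MeasureTheory Set Filter Topology Metric
open scoped ENNReal

namespace CF6

/-- W2b. Rouche. Proof: let `θ` be the lift of `c - w`. `(c' t - w') exp (-θ t I) = ‖c t - w‖ (1 + δ)` with `|δ| < 1` has positive real
part, so its `arg` is continuous in `t` (`Complex.continuousAt_arg`, slit plane), and `θ' t = θ t + arg (..)` is a lift of `c' - w'`;
`θ' 1 - θ' 0 = θ 1 - θ 0` because `exp (-θ 1 I) = exp (-θ 0 I)` and `c' 0 = c' 1`. (No continuity of `c` is needed.) -/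
theorem Winds.rouche {c c' : ℝ → ℂ} {w w' : ℂ} {n : ℤ} (h : Winds c w n)
    (hc' : ContinuousOn c' (Icc 0 1)) (h01 : c' 0 = c' 1)
    (hcl : ∀ t ∈ Icc (0 : ℝ) 1, ‖(c' t - w') - (c t - w)‖ < ‖c t - w‖) : Winds c' w' n := by
  obtain ⟨θ, hθ, h1, h2⟩ := h
  have h0 : (0 : ℝ) ∈ Icc (0 : ℝ) 1 := ⟨le_rfl, zero_le_one⟩
  have h1' : (1 : ℝ) ∈ Icc (0 : ℝ) 1 := ⟨zero_le_one, le_rfl⟩
  let u : ℝ → ℂ := fun t => (c' t - w') * exp (-(θ t * I))
  have hu : ContinuousOn u (Icc 0 1) := by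
    refine (hc'.sub continuousOn_const).mul ?_
    refine Complex.continuous_exp.comp_continuousOn ?_
    exact ((Complex.continuous_ofReal.comp_continuousOn hθ).mul continuousOn_const).neg
  have hnexp : ∀ t : ℝ, ‖exp (-(θ t * I))‖ = 1 := by
    intro t
    rw [Complex.norm_exp]
    simp
  have hure : ∀ t ∈ Icc (0 : ℝ) 1, 0 < (u t).re := by
    intro t ht
    obtain ⟨-, e1⟩ := h1 t ht
    have e2 : (c t - w) * exp (-(θ t * I)) = ‖c t - w‖ := by
      conv_lhs => rw [e1]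
      rw [mul_assoc, ← Complex.exp_add, add_neg_cancel, Complex.exp_zero, mul_one]
    have e3 : ‖u t - ((‖c t - w‖ : ℝ) : ℂ)‖ < ‖c t - w‖ := by
      rw [← e2]
      simp only [u]
      rw [← sub_mul, norm_mul, hnexp, mul_one]
      exact hcl t ht
    have e4 := (Complex.abs_re_le_norm (u t - ((‖c t - w‖ : ℝ) : ℂ))).trans_lt e3
    rw [Complex.sub_re, Complex.ofReal_re, abs_lt] at e4
    linarith [e4.1]
  have hslit : ∀ t ∈ Icc (0 : ℝ) 1, u t ∈ Complex.slitPlane := fun t ht => Or.inl (hure t ht)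
  have harg : ContinuousOn (fun t => Complex.arg (u t)) (Icc 0 1) := by
    intro t ht
    exact (Complex.continuousAt_arg (hslit t ht)).comp_continuousWithinAt (hu t ht)
  have hback : ∀ t, c' t - w' = u t * exp (θ t * I) := by
    intro t
    simp only [u]
    rw [mul_assoc, ← Complex.exp_add, neg_add_cancel, Complex.exp_zero, mul_one]
  refine ⟨fun t => θ t + Complex.arg (u t), hθ.add harg, ?_, ?_⟩
  · intro t ht
    have hune : u t ≠ 0 := fun h => by
      have := hure t ht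
      rw [h] at this
      simp at this
    constructor
    · intro h
      have h3 := hback t
      rw [h, sub_self] at h3
      exact (mul_ne_zero hune (Complex.exp_ne_zero _)) h3.symm
    · have h3 : ‖c' t - w'‖ = ‖u t‖ := by
        rw [hback t, norm_mul, Complex.norm_exp_ofReal_mul_I, mul_one]
      have h4 : u t = ‖u t‖ * exp (Complex.arg (u t) * I) := (Complex.norm_mul_exp_arg_mul_I (u t)).symm
      rw [h3, hback t]
      conv_lhs => rw [h4]
      push_cast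
      rw [mul_assoc, ← Complex.exp_add]
      congr 2
      ring
  · have h5 : u 1 = u 0 := by
      simp only [u]
      rw [h01, h2]
      congr 1
      push_cast
      rw [show -((θ 0 + 2 * Real.pi * n : ℂ) * I) = -(θ 0 * I) + (-n : ℤ) * (2 * Real.pi * I) by
        push_cast; ring]
      rw [Complex.exp_add, Complex.exp_int_mul_two_pi_mul_I, mul_one]
    simp only [h5, h2]
    ring

/-- W2c. `t ↦ a (t) exp (2 π n t I)`, `a t > 0`, has winding number `n` about `0`. -/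
theorem winds_exp {a : ℝ → ℝ} (ha : ∀ t ∈ Icc (0 : ℝ) 1, 0 < a t) (n : ℤ) (B : ℂ) (hB : B ≠ 0) :
    Winds (fun t => B * (a t * exp (2 * Real.pi * n * t * I))) 0 n := by
  refine ⟨fun t => Complex.arg B + 2 * Real.pi * n * t, by fun_prop, ?_, ?_⟩
  · intro t ht
    have hat : ((a t : ℝ) : ℂ) ≠ 0 := by exact_mod_cast (ha t ht).ne'
    refine ⟨mul_ne_zero hB (mul_ne_zero hat (Complex.exp_ne_zero _)), ?_⟩
    have hn : ‖exp (2 * Real.pi * n * t * I)‖ = 1 := by
      have : (2 * Real.pi * n * t * I : ℂ) = ((2 * Real.pi * n * t : ℝ) : ℂ) * I := by push_cast; ring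
      rw [this, Complex.norm_exp_ofReal_mul_I]
    simp only [sub_zero]
    rw [norm_mul, norm_mul, hn, mul_one, Complex.norm_real, Real.norm_eq_abs, abs_of_pos (ha t ht)]
    conv_lhs => rw [← Complex.norm_mul_exp_arg_mul_I B]
    push_cast
    rw [show ((Complex.arg B : ℂ) + 2 * Real.pi * n * t) * I =
      Complex.arg B * I + 2 * Real.pi * n * t * I by ring, Complex.exp_add]
    ring
  · ring

end CF6

end

section



end

section

/-! # Module L, row G7c -/

open Complex MeasureTheory Set Filter Topology Metric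
open scoped ENNReal

namespace CF6

/-- G7c. From the circle to the rectangle: `Winds.homotopy` with
`H s t = f (z + ((1-s) r + s / gau (e t)) e t)`, `e t = exp (2 π t I)`, `w = f z`, `r = ρ`. -/
theorem winds_rect {Ω : Set ℂ} {f : ℂ → ℂ} (hf : ContinuousOn f Ω) (hi : InjOn f Ω)
    (hs : SensePreserving f Ω) {z : ℂ} {ρ a1 a2 b1 b2 : ℝ} (hρ : 0 < ρ)
    (hB : closedBall z (4 * ρ) ⊆ Ω) (h1 : ρ / 2 ≤ a1 ∧ a1 ≤ 2 * ρ) (h2 : ρ / 2 ≤ a2 ∧ a2 ≤ 2 * ρ)
    (h3 : ρ / 2 ≤ b1 ∧ b1 ≤ 2 * ρ) (h4 : ρ / 2 ≤ b2 ∧ b2 ≤ 2 * ρ) :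
    Winds (fun t => f (z + rl a1 a2 b1 b2 t)) (f z) 1 := by
  obtain ⟨-, -, hrl⟩ := rl_facts hρ h1 h2 h3 h4
  have hE : Continuous (fun t : ℝ => exp (2 * Real.pi * t * I)) := by fun_prop
  have hEn : ∀ t : ℝ, ‖exp (2 * Real.pi * t * I)‖ = 1 := by
    intro t
    have := Complex.norm_exp_ofReal_mul_I (2 * Real.pi * t)
    push_cast at this
    exact this
  have hgp : ∀ t : ℝ, 0 < gau a1 a2 b1 b2 (exp (2 * Real.pi * t * I)) := fun t =>
    gau_pos (by linarith [h1.1]) (by linarith [h2.1]) (by linarith [h3.1]) (by linarith [h4.1])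
      (exp_ne_zero _)
  have hgc : Continuous (fun t : ℝ => gau a1 a2 b1 b2 (exp (2 * Real.pi * t * I))) :=
    (gau_cont a1 a2 b1 b2).comp hE
  have hnrl : ∀ t : ℝ, ‖rl a1 a2 b1 b2 t‖ = 1 / gau a1 a2 b1 b2 (exp (2 * Real.pi * t * I)) := by
    intro t
    rw [rl, norm_div, hEn, norm_real, Real.norm_of_nonneg (hgp t).le]
  obtain ⟨q, hq⟩ : ∃ q : ℝ → ℝ → ℝ, q = fun s t : ℝ => (1 - s) * ρ +
    s * (1 / gau a1 a2 b1 b2 (exp (2 * Real.pi * t * I))) := ⟨_, rfl⟩
  have hqb : ∀ s ∈ Icc (0 : ℝ) 1, ∀ t, 0 < q s t ∧ q s t ≤ 4 * ρ := by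
    intro s hs t
    obtain ⟨b1', b2', -⟩ := hrl t
    rw [hnrl] at b1' b2'
    have e1 : 0 ≤ 1 - s := by linarith [hs.2]
    have e2 := hs.1
    rw [hq]
    simp only
    constructor
    · nlinarith
    · nlinarith
  have hqc : Continuous (fun p : ℝ × ℝ => q p.1 p.2) := by
    rw [hq]
    simp only
    have h5 : Continuous (fun p : ℝ × ℝ => gau a1 a2 b1 b2 (exp (2 * Real.pi * p.2 * I))) :=
      hgc.comp continuous_snd
    exact ((continuous_const.sub continuous_fst).mul continuous_const).add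
      (continuous_fst.mul (continuous_const.div h5 fun p => (hgp p.2).ne'))
  have hmem : ∀ s ∈ Icc (0 : ℝ) 1, ∀ t : ℝ,
      z + (q s t : ℂ) * exp (2 * Real.pi * t * I) ∈ Ω := by
    intro s hs t
    refine hB ?_
    rw [mem_closedBall_iff_norm, add_sub_cancel_left, norm_mul, hEn, mul_one, norm_real,
      Real.norm_of_nonneg (hqb s hs t).1.le]
    exact (hqb s hs t).2
  have hz : z ∈ Ω := hB (mem_closedBall_self (by positivity))
  have key := Winds.homotopy (H := fun s t => f (z + (q s t : ℂ) * exp (2 * Real.pi * t * I)))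
    (w := fun _ => f z) (n := 1) ?_ continuousOn_const ?_ ?_ ?_
  · refine Winds.congr key fun t _ => ?_
    congr 2
    rw [hq, rl]
    push_cast
    ring
  · refine hf.comp ?_ ?_
    · refine Continuous.continuousOn ?_
      exact continuous_const.add ((Complex.continuous_ofReal.comp hqc).mul
        (hE.comp continuous_snd))
    · rintro ⟨s, t⟩ ⟨hs, -⟩
      exact hmem s hs t
  · intro s _
    have e1 : exp (2 * (Real.pi : ℂ) * ((0 : ℝ) : ℂ) * I) =
        exp (2 * (Real.pi : ℂ) * ((1 : ℝ) : ℂ) * I) := by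
      rw [ofReal_zero, ofReal_one, mul_zero, zero_mul, Complex.exp_zero, mul_one,
        Complex.exp_two_pi_mul_I]
    have e2 : q s 0 = q s 1 := by
      rw [hq]
      simp only [e1]
    rw [e1, e2]
  · intro s hs t _ heq
    have h5 := hi (hmem s hs t) hz heq
    have h6 : (q s t : ℂ) * exp (2 * Real.pi * t * I) = 0 := by
      have := congrArg (fun x => x - z) h5
      simpa using this
    rcases mul_eq_zero.1 h6 with h7 | h7
    · have := (hqb s hs t).1
      rw [ofReal_eq_zero] at h7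
      linarith
    · exact exp_ne_zero _ h7
  · refine Winds.congr (hs z hz ρ hρ ((closedBall_subset_closedBall (by linarith)).trans hB))
      fun t _ => ?_
    simp only [circ]
    rw [hq]
    simp

end CF6

end

section

/-! # Module L, row G7d -/

open Complex MeasureTheory Set Filter Topology Metric
open scoped ENNReal

namespace CF6

private theorem G7d_apply (a b v : ℂ) : pd a b v = v.re * a + v.im * b := by
  simp [pd]

/-- G7d. `A = (a - I b)/2`, `B = (a + I b)/2`, `det (pd a b) = ‖A‖^2 - ‖B‖^2` (the determinant of a real linear map of `ℂ`: matrix in the basis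
`Complex.basisOneI`; `det (pd a b) = a.re * b.im - a.im * b.re`). -/
theorem pd_det (a b : ℂ) : (pd a b).det = a.re * b.im - a.im * b.re := by
  rw [ContinuousLinearMap.det, ← LinearMap.det_toMatrix Complex.basisOneI, Matrix.det_fin_two]
  simp only [LinearMap.toMatrix_apply, Complex.coe_basisOneI, Complex.coe_basisOneI_repr,
    ContinuousLinearMap.coe_coe, G7d_apply, Matrix.cons_val_zero, Matrix.cons_val_one]
  simp
  ring

theorem pd_split {a b : ℂ} (h : (pd a b).det < 0) :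
    ∃ A B : ℂ, ‖A‖ < ‖B‖ ∧ ∀ v : ℂ, pd a b v = A * v + B * (starRingEnd ℂ) v := by
  rw [pd_det] at h
  refine ⟨(a - I * b) / 2, (a + I * b) / 2, ?_, fun v => ?_⟩
  · have h1 : ‖(a - I * b) / 2‖ ^ 2 < ‖(a + I * b) / 2‖ ^ 2 := by
      rw [← Complex.normSq_eq_norm_sq, ← Complex.normSq_eq_norm_sq, Complex.normSq_apply,
        Complex.normSq_apply]
      have e1 : ((a - I * b) / 2).re = (a.re + b.im) / 2 := by
        rw [show (a - I * b) / 2 = ((1/2 : ℝ) : ℂ) * (a - I * b) by push_cast; ring]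
        rw [Complex.re_ofReal_mul]
        simp
        ring
      have e2 : ((a - I * b) / 2).im = (a.im - b.re) / 2 := by
        rw [show (a - I * b) / 2 = ((1/2 : ℝ) : ℂ) * (a - I * b) by push_cast; ring]
        rw [Complex.im_ofReal_mul]
        simp
        ring
      have e3 : ((a + I * b) / 2).re = (a.re - b.im) / 2 := by
        rw [show (a + I * b) / 2 = ((1/2 : ℝ) : ℂ) * (a + I * b) by push_cast; ring]
        rw [Complex.re_ofReal_mul]
        simp
        ring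
      have e4 : ((a + I * b) / 2).im = (a.im + b.re) / 2 := by
        rw [show (a + I * b) / 2 = ((1/2 : ℝ) : ℂ) * (a + I * b) by push_cast; ring]
        rw [Complex.im_ofReal_mul]
        simp
        ring
      rw [e1, e2, e3, e4]
      nlinarith
    exact lt_of_pow_lt_pow_left₀ 2 (norm_nonneg _) h1
  · rw [G7d_apply]
    have hv : v = v.re + v.im * I := (Complex.re_add_im v).symm
    have hc : (starRingEnd ℂ) v = v.re - v.im * I := by
      apply Complex.ext <;> simp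
    rw [hc]
    conv_rhs => rw [hv]
    simp only [add_re, mul_re, ofReal_re, ofReal_im, I_re, I_im, mul_zero, mul_one, sub_self,
      add_zero, add_im, mul_im, zero_add]
    have hI : I * I = -1 := Complex.I_mul_I
    linear_combination ((v.im : ℂ) * b) * hI

/-- any real linear map is `pd` of its values at `1` and `I` -/
theorem det_eq_pd (D : ℂ →L[ℝ] ℂ) : D.det = (pd (D 1) (D I)).det := by
  have h : D = pd (D 1) (D I) := by
    refine ContinuousLinearMap.ext fun v => ?_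
    rw [G7d_apply]
    have hv : v = v.re • (1 : ℂ) + v.im • I := by
      apply Complex.ext <;> simp
    conv_lhs => rw [hv]
    rw [map_add, map_smul, map_smul, Complex.real_smul, Complex.real_smul]
  rw [← h]

end CF6

end

section



end

section

/-! # Module L, row G8a -/

open Complex MeasureTheory Set Filter Topology Metric
open scoped ENNReal

namespace CF6

/-- G8a. Suppose `det < 0`: `pd_split`: `A, B`, `ε = (‖B‖ - ‖A‖)/4`; `rect_good` with `4 r0` less than the distance to `Ωᶜ`; `v = rl t`: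
`‖(f (z + v) - f z) - B conj v‖ ≤ ‖A‖ ‖v‖ + ε ρ < ‖B‖ ‖v‖` as `ρ ≤ 2 ‖v‖`. `conj v = (1/gau) exp (-2 π t I)`: `winds_exp` with `n = -1` and `Winds.rouche`
give `Winds (fun t => f (z + rl t)) (f z) (-1)`, but it is `1` by `winds_rect`: `Winds.unique`. -/
theorem det_nonneg_of_dense {Ω E : Set ℂ} (hO : IsOpen Ω) {f fx fy : ℂ → ℂ} (hf : ContinuousOn f Ω)
    (hi : InjOn f Ω) (hs : SensePreserving f Ω) (H : GoodE Ω f fx fy E) {z : ℂ} (hz : z ∈ E)
    (hd : DensePt E z) : 0 ≤ (pd (fx z) (fy z)).det := by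
  by_contra hneg
  push Not at hneg
  obtain ⟨A, B, hAB, hpd⟩ := pd_split hneg
  have hzO : z ∈ Ω := H.sub hz
  obtain ⟨δ, hδ, hball⟩ := Metric.isOpen_iff.1 hO z hzO
  set ε : ℝ := (‖B‖ - ‖A‖) / 4 with hε
  have hε0 : 0 < ε := by rw [hε]; linarith
  obtain ⟨ρ, a1, a2, b1, b2, hρ, hρδ, h1, h2, h3, h4, hrect⟩ :=
    rect_good H hz hd hε0 (show (0:ℝ) < δ / 8 by positivity)
  have hB4 : closedBall z (4 * ρ) ⊆ Ω := (closedBall_subset_ball (by linarith)).trans hball
  obtain ⟨rc, r01, rf⟩ := rl_facts hρ h1 h2 h3 h4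
  have pa1 : 0 < a1 := by linarith [h1.1]
  have pa2 : 0 < a2 := by linarith [h2.1]
  have pb1 : 0 < b1 := by linarith [h3.1]
  have pb2 : 0 < b2 := by linarith [h4.1]
  have hBne : B ≠ 0 := by
    rintro rfl
    rw [norm_zero] at hAB
    exact absurd hAB (not_lt.2 (norm_nonneg _))
  have hw1 := winds_rect hf hi hs hρ hB4 h1 h2 h3 h4
  have hwe := winds_exp (a := fun t => 1 / gau a1 a2 b1 b2 (exp (2 * Real.pi * t * I)))
    (fun t _ => one_div_pos.2 (gau_pos pa1 pa2 pb1 pb2 (exp_ne_zero _))) (-1) B hBne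
  have hmem : ∀ t : ℝ, z + rl a1 a2 b1 b2 t ∈ Ω := fun t => hB4 (by
    rw [mem_closedBall, dist_eq_norm, add_sub_cancel_left]
    exact (rf t).2.1)
  have hconj : ∀ t : ℝ, ((1 / gau a1 a2 b1 b2 (exp (2 * Real.pi * t * I)) : ℝ) : ℂ) *
      exp (2 * Real.pi * ((-1 : ℤ) : ℂ) * t * I) = (starRingEnd ℂ) (rl a1 a2 b1 b2 t) := by
    intro t
    unfold rl
    rw [map_div₀, ← Complex.exp_conj, Complex.conj_ofReal]
    have e1 : (starRingEnd ℂ) (2 * Real.pi * t * I) = 2 * Real.pi * ((-1 : ℤ) : ℂ) * t * I := by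
      simp only [map_mul, Complex.conj_ofReal, Complex.conj_I, Int.cast_neg, Int.cast_one]
      have : (starRingEnd ℂ) 2 = 2 := by
        rw [show (2:ℂ) = ((2:ℝ):ℂ) by push_cast; rfl, Complex.conj_ofReal]
      rw [this]
      ring
    rw [e1]
    push_cast
    ring
  have hwr : Winds (fun t => f (z + rl a1 a2 b1 b2 t)) (f z) (-1) := by
    refine Winds.rouche hwe ?_ ?_ ?_
    · refine hf.comp (Continuous.continuousOn (by fun_prop)) fun t _ => hmem t
    · simp only [r01]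
    · intro t _
      simp only [hconj, sub_zero]
      set v := rl a1 a2 b1 b2 t with hv
      obtain ⟨n1, n2, n3, n4, n5, n6, n7⟩ := rf t
      have hg := hrect v n3 n4 n5 n6 n7
      rw [hpd] at hg
      have hvpos : 0 < ‖v‖ := by linarith
      have e2 : f (z + v) - f z - B * (starRingEnd ℂ) v =
          (f (z + v) - f z - (A * v + B * (starRingEnd ℂ) v)) + A * v := by ring
      calc ‖f (z + v) - f z - B * (starRingEnd ℂ) v‖
          ≤ ‖f (z + v) - f z - (A * v + B * (starRingEnd ℂ) v)‖ + ‖A * v‖ := by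
            rw [e2]; exact norm_add_le _ _
        _ ≤ ε * ρ + ‖A‖ * ‖v‖ := by rw [norm_mul A v]; gcongr
        _ ≤ ε * (2 * ‖v‖) + ‖A‖ * ‖v‖ := by gcongr; linarith
        _ < ‖B‖ * ‖v‖ := by
            rw [hε]
            nlinarith
        _ = ‖B * (starRingEnd ℂ) v‖ := by rw [norm_mul, RCLike.norm_conj]
  have := Winds.unique hw1 hwr
  norm_num at this

end CF6

end

section

/-! # Module L, row G8b -/

open Complex MeasureTheory Set Filter Topology Metric
open scoped ENNReal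

namespace CF6

/-- G8b. Good sets `E n` with `volume (Ω \ E n) ≤ 1/(n+1)`; a.e. `z ∈ Ω` is in some `E n` and a `DensePt` of it (`ae_densePt`). -/
theorem det_nonneg_ae {Ω : Set ℂ} (hO : IsOpen Ω) (hfin : volume Ω ≠ ⊤) {f fx fy : ℂ → ℂ}
    (hi : InjOn f Ω) (hs : SensePreserving f Ω) (ha : ACL2 Ω f fx fy) :
    ∀ᵐ z ∂(volume.restrict Ω), 0 ≤ (pd (fx z) (fy z)).det := by
  have hE : ∀ n : ℕ, ∃ E : Set ℂ, GoodE Ω f fx fy E ∧ volume (Ω \ E) ≤ ((n : ℝ≥0∞) + 1)⁻¹ :=
    fun n => exists_goodE hO hfin ha (ENNReal.inv_pos.2 (by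
      exact ENNReal.add_ne_top.2 ⟨ENNReal.natCast_ne_top n, ENNReal.one_ne_top⟩))
  choose E hG hv using hE
  have hd : ∀ n, ∀ᵐ z, z ∈ E n → DensePt (E n) z := fun n =>
    (ae_restrict_iff' (hG n).cpt.measurableSet).1 (ae_densePt (hG n).cpt.measurableSet)
  have hU : volume (Ω \ ⋃ n, E n) = 0 := by
    have hlim : Tendsto (fun n : ℕ => ((n : ℝ≥0∞) + 1)⁻¹) atTop (𝓝 0) := by
      have h1 := ENNReal.tendsto_inv_nat_nhds_zero.comp (tendsto_add_atTop_nat 1)
      refine h1.congr fun n => ?_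
      simp
    refine le_antisymm (ge_of_tendsto' hlim fun n => ?_) (zero_le)
    refine (measure_mono ?_).trans (hv n)
    exact sdiff_subset_sdiff_right (subset_iUnion E n)
  have hU' : ∀ᵐ z, z ∈ Ω → z ∈ ⋃ n, E n := by
    rw [ae_iff]
    convert hU using 2
    ext z
    simp
  rw [ae_restrict_iff' hO.measurableSet]
  filter_upwards [ae_all_iff.2 hd, hU'] with z h1 h2 hz
  obtain ⟨n, hn⟩ := mem_iUnion.1 (h2 hz)
  exact det_nonneg_of_dense hO ha.cont hi hs (hG n) hn (h1 n hn)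

/-- G8c. Good sets `E n` with `volume (Ω \ E n) ≤ 2^{-n}`: almost every `z ∈ Ω` lies in `E n` for all large `n` (Borel-Cantelli,
`measure_limsup_atTop_eq_zero` or `ae_eventually_notMem`); Fatou's lemma and `GoodE.area`. (`ENNReal.ofReal x ≤ ENNReal.ofReal |x|`.) -/
theorem area_le {Ω Ωs : Set ℂ} (hO : IsOpen Ω) (hfin : volume Ω ≠ ⊤) {f fx fy : ℂ → ℂ}
    (hi : InjOn f Ω) (hm : MapsTo f Ω Ωs) (ha : ACL2 Ω f fx fy) :
    ∫⁻ z in Ω, ENNReal.ofReal (pd (fx z) (fy z)).det ≤ volume Ωs := by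
  have hE : ∀ n : ℕ, ∃ E : Set ℂ, GoodE Ω f fx fy E ∧ volume (Ω \ E) ≤ (2⁻¹ : ℝ≥0∞) ^ n :=
    fun n => exists_goodE hO hfin ha (by
      apply ENNReal.pow_pos
      exact ENNReal.inv_pos.2 ENNReal.ofNat_ne_top)
  choose E hG hv using hE
  have hsum : ∑' n, volume (Ω \ E n) ≠ ⊤ := by
    refine ne_top_of_le_ne_top ?_ (ENNReal.tsum_le_tsum hv)
    rw [ENNReal.tsum_geometric]
    rw [ENNReal.one_sub_inv_two, inv_inv]
    exact ENNReal.ofNat_ne_top
  have hev := ae_eventually_notMem hsum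
  set g : ℂ → ℝ≥0∞ := fun z => ENNReal.ofReal (pd (fx z) (fy z)).det with hg
  have hgm : AEMeasurable g (volume.restrict Ω) := by
    have h1 : AEMeasurable fx (volume.restrict Ω) := ha.mx.aemeasurable
    have h2 : AEMeasurable fy (volume.restrict Ω) := ha.my.aemeasurable
    have h3 : g = fun z => ENNReal.ofReal ((fx z).re * (fy z).im - (fx z).im * (fy z).re) := by
      funext z
      simp only [hg, pd_det]
    rw [h3]
    have m1 : AEMeasurable (fun z => (fx z).re) (volume.restrict Ω) :=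
      Complex.measurable_re.comp_aemeasurable h1
    have m2 : AEMeasurable (fun z => (fx z).im) (volume.restrict Ω) :=
      Complex.measurable_im.comp_aemeasurable h1
    have m3 : AEMeasurable (fun z => (fy z).re) (volume.restrict Ω) :=
      Complex.measurable_re.comp_aemeasurable h2
    have m4 : AEMeasurable (fun z => (fy z).im) (volume.restrict Ω) :=
      Complex.measurable_im.comp_aemeasurable h2
    exact ((m1.mul m4).sub (m2.mul m3)).ennreal_ofReal
  have hfatou : ∫⁻ z in Ω, liminf (fun n => (E n).indicator g z) atTop ≤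
      liminf (fun n => ∫⁻ z in Ω, (E n).indicator g z) atTop :=
    lintegral_liminf_le' (fun n => hgm.indicator (hG n).cpt.measurableSet)
  have hle : ∫⁻ z in Ω, g z ≤ ∫⁻ z in Ω, liminf (fun n => (E n).indicator g z) atTop := by
    refine lintegral_mono_ae ?_
    rw [ae_restrict_iff' hO.measurableSet]
    filter_upwards [hev] with z hz hzO
    have h4 : ∀ᶠ n in atTop, (E n).indicator g z = g z := by
      filter_upwards [hz] with n hn
      have : z ∈ E n := by
        by_contra hc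
        exact hn ⟨hzO, hc⟩
      exact indicator_of_mem this g
    have h5 : Tendsto (fun n => (E n).indicator g z) atTop (𝓝 (g z)) :=
      tendsto_const_nhds.congr' (h4.mono fun n hn => hn.symm)
    rw [h5.liminf_eq]
  refine hle.trans (hfatou.trans ?_)
  refine liminf_le_of_le (by isBoundedDefault) fun b hb => ?_
  obtain ⟨n, hn⟩ := hb.exists
  refine hn.trans ?_
  rw [lintegral_indicator (hG n).cpt.measurableSet, Measure.restrict_restrict
    (hG n).cpt.measurableSet, inter_eq_left.2 (hG n).sub]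
  refine (lintegral_mono fun z => ?_).trans ((hG n).area hi hm)
  exact ENNReal.ofReal_le_ofReal (le_abs_self _)

end CF6

end

section



end

section

/-! # Module L, row G9: `ED ≤ EH` -/

open Complex MeasureTheory Set Filter Topology Metric
open scoped ENNReal

namespace CF6

/-- G9. `f` is a deformation (constant sequence). `W12.sob`, `Sob.acl2` give `ACL2 Ω f (fun z => D z 1) (fun z => D z I)`; `det_eq_pd`. -/
theorem ED_le_EH' {k : ℕ} {Ω Ωs : Set ℂ} (h : KDomain k Ω) (h' : KDomain k Ωs) :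
    ED Ω Ωs ≤ EH Ω Ωs := by
  unfold EH
  refine le_sInf ?_
  rintro e ⟨f, D, hh, hs, hW, rfl⟩
  refine sInf_le ⟨f, D, ?_, rfl⟩
  obtain ⟨hO, hc, hb, -⟩ := h
  have hfin : volume Ω ≠ ⊤ := hb.measure_lt_top.ne
  have hacl : ACL2 Ω f (fun z => D z 1) (fun z => D z I) := by
    refine Sob.acl2 hO (W12.sob hO hh.1 hW) ?_
    exact hW.2.2
  have hm : MapsTo f Ω Ωs := hh.2.1.mapsTo
  have hi : InjOn f Ω := hh.2.1.injOn
  refine ⟨fun z hz => subset_closure (hm hz), hW, ?_, ?_, fun _ => f, fun _ => ⟨hh, hs⟩, ?_, ?_⟩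
  · filter_upwards [det_nonneg_ae hO hfin hi hs hacl] with z hz
    rw [det_eq_pd]
    exact hz
  · have h1 := area_le hO hfin hi hm hacl
    simp only [← det_eq_pd] at h1
    exact h1
  · refine TendstoUniformlyOn.tendstoLocallyUniformlyOn ?_
    rw [Metric.tendstoUniformlyOn_iff]
    intro ε hε
    exact Eventually.of_forall fun n x _ => by rw [dist_self]; exact hε
  · rw [Metric.tendstoUniformlyOn_iff]
    intro ε hε
    exact Eventually.of_forall fun n x _ => by rw [dist_self]; exact hε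

end CF6

end

section

/-! # Module L, row O1: the orientation of an injective map is constant -/

open Complex MeasureTheory Set Filter Topology Metric
open scoped ENNReal

namespace CF6

theorem O1_circ_mem (z : ℂ) {r : ℝ} (hr : 0 ≤ r) (t : ℝ) : circ z r t ∈ closedBall z r := by
  rw [mem_closedBall, dist_eq_norm, circ, add_sub_cancel_left, norm_mul, Complex.norm_real,
    Real.norm_eq_abs, abs_of_nonneg hr]
  have : ‖exp (2 * Real.pi * t * I)‖ = 1 := by
    have e := Complex.norm_exp_ofReal_mul_I (2 * Real.pi * t)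
    push_cast at e
    exact e
  rw [this, mul_one]

theorem O1_circ_ne (z : ℂ) {r : ℝ} (hr : 0 < r) (t : ℝ) : circ z r t ≠ z := by
  intro h
  rw [circ, add_eq_left] at h
  rcases mul_eq_zero.mp h with h | h
  · exact hr.ne' (by exact_mod_cast h)
  · exact exp_ne_zero _ h

theorem O1_seg {z p p' : ℂ} {ρ : ℝ} (hp : dist p z ≤ ρ) (hp' : dist p' z ≤ ρ) {s : ℝ}
    (hs : s ∈ Icc (0 : ℝ) 1) : dist (p + s * (p' - p)) z ≤ ρ := by
  have h := (convex_closedBall z ρ) (mem_closedBall.mpr hp) (mem_closedBall.mpr hp')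
    (sub_nonneg.mpr hs.2) hs.1 (by ring)
  rw [mem_closedBall] at h
  have e : p + s * (p' - p) = (1 - s) • p + s • p' := by
    rw [Complex.real_smul, Complex.real_smul]
    push_cast
    ring
  rw [e]
  exact h

/-- O1a. Moving the centre: `Winds.homotopy` with `H s t = f (circ (z + s (z' - z)) (r + s (r' - r)) t)`,
`w s = f (z + s (z' - z))`. -/
theorem winds_move {Ω : Set ℂ} {f : ℂ → ℂ} (hf : ContinuousOn f Ω) (hi : InjOn f Ω) {z z' : ℂ}
    {r r' : ℝ} (hr : 0 < r) (hr' : 0 < r')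
    (hB : ∀ s ∈ Icc (0 : ℝ) 1, closedBall (z + s * (z' - z)) (r + s * (r' - r)) ⊆ Ω)
    (h : Winds (fun t => f (circ z r t)) (f z) 1) :
    Winds (fun t => f (circ z' r' t)) (f z') 1 := by
  have hrad : ∀ s ∈ Icc (0 : ℝ) 1, 0 < r + s * (r' - r) := by
    intro s hs
    have e : r + s * (r' - r) = (1 - s) * r + s * r' := by ring
    rw [e]
    rcases hs.1.eq_or_lt with h0 | h0
    · rw [← h0]; simpa using hr
    · have := mul_pos h0 hr'
      have := mul_nonneg (sub_nonneg.mpr hs.2) hr.le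
      linarith
  have hc : Continuous (fun p : ℝ × ℝ =>
      circ (z + (p.1 : ℂ) * (z' - z)) (r + p.1 * (r' - r)) p.2) := by
    unfold circ
    fun_prop
  have hH : ContinuousOn (fun p : ℝ × ℝ =>
      f (circ (z + (p.1 : ℂ) * (z' - z)) (r + p.1 * (r' - r)) p.2)) (Icc 0 1 ×ˢ Icc 0 1) :=
    hf.comp hc.continuousOn (fun p hp => hB p.1 hp.1 (O1_circ_mem _ (hrad _ hp.1).le _))
  have hw : ContinuousOn (fun s : ℝ => f (z + (s : ℂ) * (z' - z))) (Icc 0 1) := by
    refine hf.comp (by fun_prop) (fun s hs => hB s hs (mem_closedBall_self (hrad s hs).le))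
  have hend : ∀ s ∈ Icc (0 : ℝ) 1,
      f (circ (z + (s : ℂ) * (z' - z)) (r + s * (r' - r)) 0) =
        f (circ (z + (s : ℂ) * (z' - z)) (r + s * (r' - r)) 1) := by
    intro s _
    congr 1
    simp [circ]
  have hne : ∀ s ∈ Icc (0 : ℝ) 1, ∀ t ∈ Icc (0 : ℝ) 1,
      f (circ (z + (s : ℂ) * (z' - z)) (r + s * (r' - r)) t) ≠ f (z + (s : ℂ) * (z' - z)) := by
    intro s hs t _ h0
    exact O1_circ_ne _ (hrad s hs) t (hi (hB s hs (O1_circ_mem _ (hrad s hs).le _))
      (hB s hs (mem_closedBall_self (hrad s hs).le)) h0)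
  have h0 : Winds (fun t => f (circ (z + ((0 : ℝ) : ℂ) * (z' - z)) (r + 0 * (r' - r)) t))
      (f (z + ((0 : ℝ) : ℂ) * (z' - z))) 1 := by
    simpa using h
  have h1 := Winds.homotopy (H := fun s t =>
    f (circ (z + (s : ℂ) * (z' - z)) (r + s * (r' - r)) t))
    (w := fun s => f (z + (s : ℂ) * (z' - z))) hH hw hend hne h0
  simpa using h1

/-- O1b. Proof: the set `A` of the `z ∈ Ω` such that the winding number is `1` for some `r > 0` with `closedBall z r ⊆ Ω`; by O1a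
(`z' = z`) it is then `1` for all such `r`. For `z ∈ Ω` with `closedBall z (3 r) ⊆ Ω` and `‖z' - z‖ < r`:
`z ∈ A ↔ z' ∈ A` by O1a with radii `r`. So `A` and `Ω \ A` are open; `Ω` is connected and `z0 ∈ A`. -/
theorem sense_of_one {Ω : Set ℂ} (hO : IsOpen Ω) (hc : IsConnected Ω) {f : ℂ → ℂ}
    (hf : ContinuousOn f Ω) (hi : InjOn f Ω) {z0 : ℂ} {r0 : ℝ} (hr : 0 < r0)
    (hB : closedBall z0 r0 ⊆ Ω) (h : Winds (fun t => f (circ z0 r0 t)) (f z0) 1) :
    SensePreserving f Ω := by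
  -- independence of the radius
  have claim1 : ∀ z : ℂ, ∀ r r' : ℝ, 0 < r → 0 < r' → closedBall z r ⊆ Ω → closedBall z r' ⊆ Ω →
      Winds (fun t => f (circ z r t)) (f z) 1 → Winds (fun t => f (circ z r' t)) (f z) 1 := by
    intro z r r' h1 h2 hs1 hs2 hw
    refine winds_move hf hi h1 h2 (fun s hs => ?_) hw
    rw [sub_self, mul_zero, add_zero]
    rcases le_total r r' with hle | hle
    · refine (closedBall_subset_closedBall ?_).trans hs2
      have := mul_le_mul_of_nonneg_right hs.2 (sub_nonneg.mpr hle)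
      linarith
    · refine (closedBall_subset_closedBall ?_).trans hs1
      have := mul_nonneg hs.1 (sub_nonneg.mpr hle)
      have e : s * (r' - r) = -(s * (r - r')) := by ring
      rw [e]
      linarith
  -- moving the centre
  have claim2 : ∀ z p p' : ℂ, ∀ ρ : ℝ, 0 < ρ → closedBall z (2 * ρ) ⊆ Ω → dist p z ≤ ρ →
      dist p' z ≤ ρ → Winds (fun t => f (circ p ρ t)) (f p) 1 →
      Winds (fun t => f (circ p' ρ t)) (f p') 1 := by
    intro z p p' ρ hρ hs hp hp' hw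
    refine winds_move hf hi hρ hρ (fun s hs' => ?_) hw
    rw [sub_self, mul_zero, add_zero]
    refine (closedBall_subset_closedBall' ?_).trans hs
    have := O1_seg hp hp' hs'
    linarith
  let A : Set ℂ := {z | ∃ r > 0, closedBall z r ⊆ Ω ∧ Winds (fun t => f (circ z r t)) (f z) 1}
  have hloc : ∀ z ∈ Ω, ∃ ρ > 0, ∀ p p' : ℂ, dist p z ≤ ρ → dist p' z ≤ ρ → p ∈ A → p' ∈ A := by
    intro z hz
    obtain ⟨r, hr, hrs⟩ := Metric.isOpen_iff.mp hO z hz
    refine ⟨r / 3, by positivity, fun p p' hp hp' hpA => ?_⟩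
    have hs : closedBall z (2 * (r / 3)) ⊆ Ω := fun x hx =>
      hrs (lt_of_le_of_lt (mem_closedBall.mp hx) (by linarith))
    have hsp : ∀ q : ℂ, dist q z ≤ r / 3 → closedBall q (r / 3) ⊆ Ω := fun q hq =>
      (closedBall_subset_closedBall' (by linarith)).trans hs
    obtain ⟨r1, hr1, hr1s, hw⟩ := hpA
    have hw1 := claim1 p r1 (r / 3) hr1 (by positivity) hr1s (hsp p hp) hw
    exact ⟨r / 3, by positivity, hsp p' hp', claim2 z p p' (r / 3) (by positivity) hs hp hp' hw1⟩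
  have hAO : A ⊆ Ω := fun z hz => by
    obtain ⟨r, hr, hrs, -⟩ := hz
    exact hrs (mem_closedBall_self hr.le)
  have hAopen : IsOpen A := by
    rw [Metric.isOpen_iff]
    intro z hz
    obtain ⟨ρ, hρ, hρs⟩ := hloc z (hAO hz)
    exact ⟨ρ, hρ, fun p hp => hρs z p (by simpa using hρ.le) (mem_ball.mp hp).le hz⟩
  have hsub : Ω ⊆ A := by
    refine hc.isPreconnected.subset_of_closure_inter_subset hAopen
      ⟨z0, hB (mem_closedBall_self hr.le), ⟨r0, hr, hB, h⟩⟩ ?_
    rintro z ⟨hz1, hz2⟩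
    obtain ⟨ρ, hρ, hρs⟩ := hloc z hz2
    obtain ⟨p, hp, hpz⟩ := Metric.mem_closure_iff.mp hz1 ρ hρ
    exact hρs p z (by rw [dist_comm]; exact hpz.le) (by simpa using hρ.le) hp
  intro z hz r hr' hrs
  obtain ⟨r1, hr1, hr1s, hw⟩ := hsub hz
  exact claim1 z r1 r hr1 hr' hr1s hrs hw

end CF6

end

section

/-! # Module L, row O2a -/

open Complex MeasureTheory Set Filter Topology Metric
open scoped ENNReal

namespace CF6

/-- O2a. Loops in a punctured disc with winding number one. `f1`, `g1` inverse homeomorphisms, `x0 = g1 y0`. There is `r > 0` such that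
`c t = f1 (circ x0 r t)` lies in `closedBall y0 R`, `Winds c y0 1` (lift `θ`). Homotopy
`P s t = y0 + ((1-s) ‖c t - y0‖ + s ρ) exp (((1-s) θ t + s (θ 0 + 2 π t)) I)`, closed for every `s` (since `θ 1 = θ 0 + 2π`), with
values in `closedBall y0 R \ {y0}`. `H s t = f (g1 (P s t))`, `w = f x0`: `Winds.homotopy` (from `s = 1` to `s = 0`, i.e. with `s` replaced by
`1 - s`). `H 0 t = f (circ x0 r t)`; `H 1 t = f (g1 (y0 + ρ exp ((θ 0 + 2 π t) I)))`. -/
theorem winds_transfer {Ω Ωs : Set ℂ} (hO : IsOpen Ω) {f1 f : ℂ → ℂ}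
    (h1 : IsHomeoOnto f1 Ω Ωs) (s1 : SensePreserving f1 Ω) (hf : ContinuousOn f Ω)
    (hi : InjOn f Ω) {y0 : ℂ} {R ρ : ℝ} (hρ : 0 < ρ) (hρR : ρ ≤ R) (hB : closedBall y0 R ⊆ Ωs)
    {g1 : ℂ → ℂ} (hg : ContinuousOn g1 Ωs) (hinv : InvOn g1 f1 Ω Ωs) {n : ℤ}
    (h : ∀ τ : ℝ, Winds (fun t => f (g1 (y0 + ρ * exp ((τ + 2 * Real.pi * t) * I))))
      (f (g1 y0)) n) :
    ∃ r > (0 : ℝ), closedBall (g1 y0) r ⊆ Ω ∧
      Winds (fun t => f (circ (g1 y0) r t)) (f (g1 y0)) n := by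
  have hR : 0 < R := hρ.trans_le hρR
  have hy0 : y0 ∈ Ωs := hB (mem_closedBall_self hR.le)
  have hgm : ∀ y ∈ Ωs, g1 y ∈ Ω := by
    intro y hy
    obtain ⟨x, hx, rfl⟩ := h1.2.1.surjOn hy
    rw [hinv.1 hx]
    exact hx
  have hx0 : g1 y0 ∈ Ω := hgm y0 hy0
  have hfx0 : f1 (g1 y0) = y0 := hinv.2 hy0
  obtain ⟨r1, hr1, hr1s⟩ := Metric.isOpen_iff.mp hO _ hx0
  have hcont : ContinuousAt f1 (g1 y0) := h1.1.continuousAt (hO.mem_nhds hx0)
  obtain ⟨r2, hr2, hr2s⟩ := Metric.continuousAt_iff.mp hcont R hR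
  obtain ⟨r, hr, hrlt⟩ : ∃ r > 0, r < min r1 r2 := ⟨min r1 r2 / 2, by positivity, by
    have : 0 < min r1 r2 := lt_min hr1 hr2
    linarith⟩
  have hsub : closedBall (g1 y0) r ⊆ Ω := fun x hx =>
    hr1s (lt_of_le_of_lt (mem_closedBall.mp hx) (hrlt.trans_le (min_le_left _ _)))
  have hball : ∀ x ∈ closedBall (g1 y0) r, ‖f1 x - y0‖ ≤ R := by
    intro x hx
    have := hr2s (lt_of_le_of_lt (mem_closedBall.mp hx) (hrlt.trans_le (min_le_right _ _)))
    rw [hfx0, dist_eq_norm] at this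
    exact this.le
  have hcirc : ∀ t : ℝ, circ (g1 y0) r t ∈ closedBall (g1 y0) r := by
    intro t
    rw [mem_closedBall, dist_eq_norm, circ, add_sub_cancel_left, norm_mul, Complex.norm_real,
      Real.norm_eq_abs, abs_of_pos hr]
    have : ‖exp (2 * Real.pi * t * I)‖ = 1 := by
      have e := Complex.norm_exp_ofReal_mul_I (2 * Real.pi * t)
      push_cast at e
      exact e
    rw [this, mul_one]
  refine ⟨r, hr, hsub, ?_⟩
  have hW := s1 (g1 y0) hx0 r hr hsub
  rw [hfx0] at hW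
  obtain ⟨θ, hθc, hθ, hθ1⟩ := hW
  set c : ℝ → ℂ := fun t => f1 (circ (g1 y0) r t) with hc
  have hcc : ContinuousOn c (Icc 0 1) := by
    apply h1.1.comp _ (fun t _ => hsub (hcirc t))
    unfold circ
    fun_prop
  have hc01 : c 1 = c 0 := by
    simp only [hc, circ]
    congr 3
    simp
  -- the homotopy
  let A : ℝ → ℝ → ℝ := fun s t => s * ‖c t - y0‖ + (1 - s) * ρ
  let B : ℝ → ℝ → ℝ := fun s t => s * θ t + (1 - s) * (θ 0 + 2 * Real.pi * t)
  let P : ℝ → ℝ → ℂ := fun s t => y0 + (A s t : ℂ) * exp ((B s t : ℂ) * I)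
  have hApos : ∀ s ∈ Icc (0 : ℝ) 1, ∀ t ∈ Icc (0 : ℝ) 1, 0 < A s t ∧ A s t ≤ R := by
    intro s hs t ht
    have e1 : 0 < ‖c t - y0‖ := norm_pos_iff.mpr (sub_ne_zero.mpr (hθ t ht).1)
    have e2 : ‖c t - y0‖ ≤ R := hball _ (hcirc t)
    constructor
    · show 0 < s * ‖c t - y0‖ + (1 - s) * ρ
      rcases hs.1.eq_or_lt with h0 | h0
      · rw [← h0]; simpa using hρ
      · have := mul_pos h0 e1
        have := mul_nonneg (sub_nonneg.mpr hs.2) hρ.le
        linarith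
    · show s * ‖c t - y0‖ + (1 - s) * ρ ≤ R
      have := mul_le_mul_of_nonneg_left e2 hs.1
      have := mul_le_mul_of_nonneg_left hρR (sub_nonneg.mpr hs.2)
      linarith
  have hPn : ∀ s t : ℝ, 0 ≤ A s t → ‖P s t - y0‖ = A s t := by
    intro s t hA
    show ‖y0 + (A s t : ℂ) * exp ((B s t : ℂ) * I) - y0‖ = A s t
    rw [add_sub_cancel_left, norm_mul, Complex.norm_exp_ofReal_mul_I, mul_one, Complex.norm_real,
      Real.norm_eq_abs, abs_of_nonneg hA]
  have hPm : ∀ s ∈ Icc (0 : ℝ) 1, ∀ t ∈ Icc (0 : ℝ) 1, P s t ∈ Ωs ∧ P s t ≠ y0 := by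
    intro s hs t ht
    have e1 := hApos s hs t ht
    have e2 := hPn s t e1.1.le
    refine ⟨hB ?_, fun h0 => ?_⟩
    · rw [mem_closedBall, dist_eq_norm, e2]
      exact e1.2
    · rw [h0, sub_self, norm_zero] at e2
      exact e1.1.ne e2
  have hAc : ContinuousOn (fun p : ℝ × ℝ => A p.1 p.2) (Icc 0 1 ×ˢ Icc 0 1) := by
    have e1 : ContinuousOn (fun p : ℝ × ℝ => ‖c p.2 - y0‖) (Icc 0 1 ×ˢ Icc 0 1) :=
      ((hcc.comp continuousOn_snd (fun p hp => hp.2)).sub continuousOn_const).norm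
    exact (continuousOn_fst.mul e1).add ((continuousOn_const.sub continuousOn_fst).mul
      continuousOn_const)
  have hBc : ContinuousOn (fun p : ℝ × ℝ => B p.1 p.2) (Icc 0 1 ×ˢ Icc 0 1) := by
    have e1 : ContinuousOn (fun p : ℝ × ℝ => θ p.2) (Icc 0 1 ×ˢ Icc 0 1) :=
      hθc.comp continuousOn_snd (fun p hp => hp.2)
    exact (continuousOn_fst.mul e1).add ((continuousOn_const.sub continuousOn_fst).mul
      (continuousOn_const.add (continuousOn_const.mul continuousOn_snd)))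
  have hPc : ContinuousOn (fun p : ℝ × ℝ => P p.1 p.2) (Icc 0 1 ×ˢ Icc 0 1) := by
    refine continuousOn_const.add (ContinuousOn.mul ?_ ?_)
    · exact Complex.continuous_ofReal.comp_continuousOn hAc
    · exact ((Complex.continuous_ofReal.comp_continuousOn hBc).mul continuousOn_const).cexp
  have hgP : ContinuousOn (fun p : ℝ × ℝ => g1 (P p.1 p.2)) (Icc 0 1 ×ˢ Icc 0 1) :=
    hg.comp hPc (fun p hp => (hPm p.1 hp.1 p.2 hp.2).1)
  have hH : ContinuousOn (fun p : ℝ × ℝ => f (g1 (P p.1 p.2))) (Icc 0 1 ×ˢ Icc 0 1) :=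
    hf.comp hgP (fun p hp => hgm _ (hPm p.1 hp.1 p.2 hp.2).1)
  have hend : ∀ s ∈ Icc (0 : ℝ) 1, f (g1 (P s 0)) = f (g1 (P s 1)) := by
    intro s _
    have : P s 0 = P s 1 := by
      have eA : A s 0 = A s 1 := by
        show s * ‖c 0 - y0‖ + (1 - s) * ρ = s * ‖c 1 - y0‖ + (1 - s) * ρ
        rw [hc01]
      have eB : B s 1 = B s 0 + 2 * Real.pi := by
        show s * θ 1 + (1 - s) * (θ 0 + 2 * Real.pi * 1) =
          s * θ 0 + (1 - s) * (θ 0 + 2 * Real.pi * 0) + 2 * Real.pi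
        rw [hθ1]
        push_cast
        ring
      show y0 + (A s 0 : ℂ) * exp ((B s 0 : ℂ) * I) = y0 + (A s 1 : ℂ) * exp ((B s 1 : ℂ) * I)
      rw [eA, eB]
      push_cast
      rw [add_mul, Complex.exp_add, Complex.exp_two_pi_mul_I, mul_one]
    rw [this]
  have hne : ∀ s ∈ Icc (0 : ℝ) 1, ∀ t ∈ Icc (0 : ℝ) 1, f (g1 (P s t)) ≠ f (g1 y0) := by
    intro s hs t ht h0
    have e1 := hPm s hs t ht
    have e2 := hi (hgm _ e1.1) hx0 h0
    apply e1.2
    rw [← hinv.2 e1.1, e2, hfx0]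
  have hstart : Winds (fun t => f (g1 (P 0 t))) (f (g1 y0)) n := by
    refine (h (θ 0)).congr (fun t _ => ?_)
    show f (g1 (y0 + ρ * exp ((θ 0 + 2 * Real.pi * t) * I))) =
      f (g1 (y0 + ((0 * ‖c t - y0‖ + (1 - 0) * ρ : ℝ) : ℂ) *
        exp (((0 * θ t + (1 - 0) * (θ 0 + 2 * Real.pi * t) : ℝ) : ℂ) * I)))
    push_cast
    simp only [zero_mul, sub_zero, one_mul, zero_add]
  have hfin := Winds.homotopy (H := fun s t => f (g1 (P s t))) (w := fun _ => f (g1 y0)) hH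
    continuousOn_const hend hne hstart
  refine hfin.congr (fun t ht => ?_)
  have e1 : P 1 t = c t := by
    show y0 + ((1 * ‖c t - y0‖ + (1 - 1) * ρ : ℝ) : ℂ) *
      exp (((1 * θ t + (1 - 1) * (θ 0 + 2 * Real.pi * t) : ℝ) : ℂ) * I) = c t
    have := (hθ t ht).2
    have e3 : (((1 * ‖c t - y0‖ + (1 - 1) * ρ : ℝ)) : ℂ) = (‖c t - y0‖ : ℂ) := by
      push_cast; ring
    have e4 : (((1 * θ t + (1 - 1) * (θ 0 + 2 * Real.pi * t) : ℝ)) : ℂ) = (θ t : ℂ) := by
      push_cast; ring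
    rw [e3, e4, ← this]
    ring
  show f (g1 (P 1 t)) = f (circ (g1 y0) r t)
  rw [e1, hc]
  show f (g1 (f1 (circ (g1 y0) r t))) = _
  rw [hinv.1 (hsub (hcirc t))]

end CF6

end

section

/-! # Module L, row O2b -/

open Complex MeasureTheory Set Filter Topology Metric
open scoped ENNReal

namespace CF6

/-- O2b. Proof: `h1` gives `g1`. `ρ = 3R/4`. For `y = y0 + ρ e^{iφ}`: `‖f (g1 y) - y‖ < R/4` and `‖f (g1 y0) - y0‖ < R/4` (`hcl` for `x = g1 y`,
`f1 x = y`). So `‖(f (g1 y) - f (g1 y0)) - (y - y0)‖ < R/2 < ρ = ‖y - y0‖`: Rouche (`Winds.rouche`, `winds_exp`) gives winding number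
one, O2a and `sense_of_one`. -/
theorem orient' {Ω Ωs : Set ℂ} (hO : IsOpen Ω) (hc : IsConnected Ω) {f1 f : ℂ → ℂ}
    (h1 : IsHomeoOnto f1 Ω Ωs) (s1 : SensePreserving f1 Ω) (hf : IsHomeoOnto f Ω Ωs) {y0 : ℂ}
    {R : ℝ} (hR : 0 < R) (hB : closedBall y0 R ⊆ Ωs)
    (hcl : ∀ x ∈ Ω, f1 x ∈ closedBall y0 R → ‖f x - f1 x‖ < R / 4) : SensePreserving f Ω := by
  obtain ⟨hf1c, hf1b, g1, hg1, hinv⟩ := h1
  obtain ⟨hfc, hfb, -⟩ := hf
  have hg1m : ∀ y ∈ Ωs, g1 y ∈ Ω := by
    intro y hy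
    obtain ⟨x, hx, rfl⟩ := hf1b.surjOn hy
    rw [hinv.1 hx]
    exact hx
  have hy0 : y0 ∈ Ωs := hB (mem_closedBall_self hR.le)
  have hest : ∀ y ∈ closedBall y0 R, ‖f (g1 y) - y‖ < R / 4 := by
    intro y hy
    have h2 := hcl (g1 y) (hg1m y (hB hy)) (by rw [hinv.2 (hB hy)]; exact hy)
    rwa [hinv.2 (hB hy)] at h2
  have hnorm : ∀ τ t : ℝ, ‖((3 * R / 4 : ℝ) : ℂ) * exp ((τ + 2 * Real.pi * t) * I)‖ = 3 * R / 4 := by
    intro τ t
    have e1 : ((τ + 2 * Real.pi * t) * I : ℂ) = ((τ + 2 * Real.pi * t : ℝ) : ℂ) * I := by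
      push_cast
      ring
    rw [norm_mul, e1, Complex.norm_exp_ofReal_mul_I, mul_one, Complex.norm_real, Real.norm_eq_abs,
      abs_of_pos (by positivity)]
  have hmem : ∀ τ t : ℝ, y0 + ((3 * R / 4 : ℝ) : ℂ) * exp ((τ + 2 * Real.pi * t) * I) ∈
      closedBall y0 R := by
    intro τ t
    rw [mem_closedBall, dist_eq_norm, add_sub_cancel_left, hnorm]
    linarith
  obtain ⟨r, hr, hb, hw⟩ := winds_transfer (n := 1) hO ⟨hf1c, hf1b, g1, hg1, hinv⟩ s1 hfc hfb.injOn
    (ρ := 3 * R / 4) (by positivity) (by linarith) hB hg1 hinv (by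
    intro τ
    have hbase : Winds (fun t => exp (τ * I) * (((3 * R / 4 : ℝ) : ℝ) *
        exp (2 * Real.pi * (1 : ℤ) * t * I))) 0 1 :=
      winds_exp (a := fun _ => 3 * R / 4) (fun t _ => by positivity) 1 _ (Complex.exp_ne_zero _)
    refine hbase.rouche ?_ ?_ ?_
    · refine hfc.comp (hg1.comp (Continuous.continuousOn (by fun_prop))
        (fun t _ => hB (hmem τ t))) (fun t _ => hg1m _ (hB (hmem τ t)))
    · have e2 : exp ((τ + 2 * Real.pi * ((1 : ℝ) : ℂ)) * I) =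
          exp ((τ + 2 * Real.pi * ((0 : ℝ) : ℂ)) * I) := by
        rw [show ((τ + 2 * Real.pi * ((1 : ℝ) : ℂ)) * I : ℂ) =
          (τ + 2 * Real.pi * ((0 : ℝ) : ℂ)) * I + 2 * Real.pi * I by push_cast; ring,
          Complex.exp_add, Complex.exp_two_pi_mul_I, mul_one]
      simp only [e2]
    · intro t _
      have e3 : exp (τ * I) * (((3 * R / 4 : ℝ) : ℝ) * exp (2 * Real.pi * (1 : ℤ) * t * I)) =
          ((3 * R / 4 : ℝ) : ℂ) * exp ((τ + 2 * Real.pi * t) * I) := by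
        rw [show ((τ + 2 * Real.pi * t) * I : ℂ) = τ * I + 2 * Real.pi * (1 : ℤ) * t * I by
          push_cast; ring, Complex.exp_add]
        ring
      rw [e3, sub_zero, hnorm]
      have e4 := hest _ (hmem τ t)
      have e5 := hest y0 (mem_closedBall_self hR.le)
      have e6 : (f (g1 (y0 + ((3 * R / 4 : ℝ) : ℂ) * exp ((τ + 2 * Real.pi * t) * I))) -
          f (g1 y0)) - ((3 * R / 4 : ℝ) : ℂ) * exp ((τ + 2 * Real.pi * t) * I) =
          (f (g1 (y0 + ((3 * R / 4 : ℝ) : ℂ) * exp ((τ + 2 * Real.pi * t) * I))) -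
            (y0 + ((3 * R / 4 : ℝ) : ℂ) * exp ((τ + 2 * Real.pi * t) * I))) -
          (f (g1 y0) - y0) := by ring
      rw [e6]
      refine lt_of_le_of_lt (norm_sub_le _ _) ?_
      linarith)
  exact sense_of_one hO hc hfc hfb.injOn hr hb hw

end CF6

end
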