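import Pool.Agent.Lib.MP_cf6b16_an.I1
import Pool.Agent.Lib.MP_cf6b16_an.K5
import Pool.Agent.Lib.MP_cf6b16_an.L1
import Pool.Agent.Lib.MP_cf6b16_an.K7

section

/-! # Module I, row I1: gluing the cells

Let `A i = dom Ω (S i) (Ks i) h` (open: `h` is continuous on the open set `Ω` and `S i ∪ Ks i` is open), pairwise disjoint by `hdis`.
For a Finset `s` of indices let `F_s = F i` on `A i` for `i ∈ s`, `F_s = h` elsewhere. Claim by Finset induction: `F_s` is `ACL2` on `Ω` with derivatives defined in the same way, and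
`en Ω = ∑_{i ∈ s} en (A i) (fx i) (fy i) + en (Ω \ ⋃_{i ∈ s} A i) hx hy`. Step: `ACL2.replace` with `W = A i` (`F_s = h` on `A i` for `i ∉ s`; the set `Ω \ W` splits as
`⋃_{s} A i` and the rest). Continuity of `F_s` on `Ω` directly: at a point `x` of `A i`, `i ∈ s`, clear (`A i` open); at a point `x ∉ ⋃_s A i`: for `y → x` either `F_s y = h y → h x` or `y ∈ A i`,
`‖F i y - h y‖ → 0` by `glue` (applicable if `h x ∉ S i ∪ Ks i`, which is the case since `x ∉ A i`). Finally take `s = univ`.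
Energy: `en (Ω \ ⋃ A i) hx hy + ∑ e i`. -/

open Complex MeasureTheory Set Filter Topology Metric
open scoped ENNReal

namespace CF6

open Classical in
/-- choice between the functions `v i`, `i ∈ s`, on the sets `A i` and `f` elsewhere -/
noncomputable def i1_sel {k : ℕ} (A : Fin k → Set ℂ) (v : Fin k → ℂ → ℂ) (f : ℂ → ℂ)
    (s : Finset (Fin k)) (z : ℂ) : ℂ :=
  if h : ∃ i, i ∈ s ∧ z ∈ A i then v h.choose z else f z

theorem i1_sel_mem {k : ℕ} {A : Fin k → Set ℂ} (hd : ∀ i j z, z ∈ A i → z ∈ A j → i = j)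
    (v : Fin k → ℂ → ℂ) (f : ℂ → ℂ) {s : Finset (Fin k)} {i : Fin k} (hi : i ∈ s) {z : ℂ}
    (hz : z ∈ A i) : i1_sel A v f s z = v i z := by
  have h : ∃ i, i ∈ s ∧ z ∈ A i := ⟨i, hi, hz⟩
  have h1 : h.choose = i := hd _ _ z h.choose_spec.2 hz
  unfold i1_sel
  rw [dif_pos h, h1]

theorem i1_sel_notMem {k : ℕ} {A : Fin k → Set ℂ} (v : Fin k → ℂ → ℂ) (f : ℂ → ℂ)
    {s : Finset (Fin k)} {z : ℂ} (hz : ∀ i ∈ s, z ∉ A i) : i1_sel A v f s z = f z := by
  have h : ¬ ∃ i, i ∈ s ∧ z ∈ A i := fun ⟨i, hi, hi'⟩ => hz i hi hi'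
  unfold i1_sel
  rw [dif_neg h]

open Classical in
theorem i1_sel_insert {k : ℕ} {A : Fin k → Set ℂ} (hd : ∀ i j z, z ∈ A i → z ∈ A j → i = j)
    (v : Fin k → ℂ → ℂ) (f : ℂ → ℂ) (s : Finset (Fin k)) (i : Fin k) :
    i1_sel A v f (insert i s) = (A i).piecewise (v i) (i1_sel A v f s) := by
  funext z
  by_cases hz : z ∈ A i
  · rw [Set.piecewise_eq_of_mem _ _ _ hz]
    exact i1_sel_mem hd v f (Finset.mem_insert_self i s) hz
  · rw [Set.piecewise_eq_of_notMem _ _ _ hz]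
    by_cases hs : ∃ j, j ∈ s ∧ z ∈ A j
    · obtain ⟨j, hj, hzj⟩ := hs
      rw [i1_sel_mem hd v f hj hzj, i1_sel_mem hd v f (Finset.mem_insert_of_mem hj) hzj]
    · rw [i1_sel_notMem v f (fun j hj hzj => hs ⟨j, hj, hzj⟩), i1_sel_notMem v f]
      intro j hj hzj
      rcases Finset.mem_insert.1 hj with rfl | hj
      · exact hz hzj
      · exact hs ⟨j, hj, hzj⟩

theorem i1_cont {k : ℕ} {Ω : Set ℂ} {A : Fin k → Set ℂ} {h : ℂ → ℂ} {F : Fin k → ℂ → ℂ}
    (hh : ContinuousOn h Ω) (hA : ∀ i, IsOpen (A i))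
    (hd : ∀ i j z, z ∈ A i → z ∈ A j → i = j) (hF : ∀ i, ContinuousOn (F i) (A i))
    (hg : ∀ i, ∀ x ∈ Ω, x ∉ A i → ∀ η > (0 : ℝ), ∃ δ > (0 : ℝ), ∀ y ∈ A i,
      ‖y - x‖ < δ → ‖F i y - h y‖ < η) (s : Finset (Fin k)) :
    ContinuousOn (i1_sel A F h s) Ω := by
  intro x hx
  by_cases hxs : ∃ i, i ∈ s ∧ x ∈ A i
  · obtain ⟨i, hi, hxi⟩ := hxs
    have h1 : ContinuousAt (F i) x := (hF i).continuousAt ((hA i).mem_nhds hxi)
    refine ContinuousAt.continuousWithinAt (h1.congr ?_)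
    filter_upwards [(hA i).mem_nhds hxi] with z hz
    exact (i1_sel_mem hd F h hi hz).symm
  · push Not at hxs
    have hG0 : i1_sel A F h s x = h x := i1_sel_notMem F h hxs
    have key : Tendsto (fun z => i1_sel A F h s z - h z) (𝓝 x) (𝓝 0) := by
      rw [Metric.tendsto_nhds]
      intro ε hε
      have h1 : ∀ᶠ z in 𝓝 x, ∀ i ∈ (s : Set (Fin k)), z ∈ A i → ‖F i z - h z‖ < ε := by
        rw [Filter.eventually_all_finite s.finite_toSet]
        intro i hi
        obtain ⟨δ, hδ, hδ'⟩ := hg i x hx (hxs i hi) ε hε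
        filter_upwards [Metric.ball_mem_nhds x hδ] with z hz hzi
        refine hδ' z hzi ?_
        rw [← dist_eq_norm]
        exact hz
      filter_upwards [h1] with z hz1
      rw [dist_zero_right]
      by_cases hzs : ∃ i, i ∈ s ∧ z ∈ A i
      · obtain ⟨i, hi, hzi⟩ := hzs
        rw [i1_sel_mem hd F h hi hzi]
        exact hz1 i hi hzi
      · push Not at hzs
        rw [i1_sel_notMem F h hzs, sub_self, norm_zero]
        exact hε
    have h3 : Tendsto (fun z => (i1_sel A F h s z - h z) + h z)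
        (𝓝[Ω] x) (𝓝 (0 + h x)) := (key.mono_left nhdsWithin_le_nhds).add (hh x hx)
    show Tendsto _ _ _
    rw [hG0]
    rw [zero_add] at h3
    refine h3.congr (fun z => ?_)
    ring

theorem glue_cells {k : ℕ} {Ω Ωs : Set ℂ} {Ks L : Fin k → Set ℂ} {h hx hy : ℂ → ℂ}
    (hO : IsOpen Ω) (ha : ACL2 Ω h hx hy) {e : Fin k → ℝ≥0∞} {S : Fin k → Set ℂ}
    {F fx fy : Fin k → ℂ → ℂ}
    (hc : ∀ i, CellOut Ω Ωs (Ks i) (L i) h (e i) (S i) (F i) (fx i) (fy i))
    (hdis : ∀ i j, i ≠ j → Disjoint (S i ∪ Ks i) (S j ∪ Ks j)) (he : ∀ i, e i < ⊤) :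
    ∃ G gx gy : ℂ → ℂ, ACL2 Ω G gx gy ∧
      (∀ i, ∀ x ∈ dom Ω (S i) (Ks i) h, G x = F i x) ∧
      (∀ x ∈ Ω, (∀ i, h x ∉ S i ∪ Ks i) → G x = h x) ∧
      en Ω gx gy ≤ en {x | x ∈ Ω ∧ ∀ i, h x ∉ S i ∪ Ks i} hx hy + ∑ i, e i := by
  have hcont : ContinuousOn h Ω := ha.cont
  have hAo : ∀ i, IsOpen (dom Ω (S i) (Ks i) h) := fun i =>
    hcont.isOpen_inter_preimage hO (hc i).SK
  have hd : ∀ i j z, z ∈ dom Ω (S i) (Ks i) h → z ∈ dom Ω (S j) (Ks j) h → i = j := by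
    intro i j z h1 h2
    by_contra hij
    exact Set.disjoint_left.1 (hdis i j hij) h1.2 h2.2
  have hgl : ∀ i, ∀ x ∈ Ω, x ∉ dom Ω (S i) (Ks i) h → ∀ η > (0 : ℝ), ∃ δ > (0 : ℝ),
      ∀ y ∈ dom Ω (S i) (Ks i) h, ‖y - x‖ < δ → ‖F i y - h y‖ < η := by
    intro i x hx hxi η hη
    exact (hc i).glue x hx (fun hh => hxi ⟨hx, hh⟩) η hη
  have hcs : ∀ s : Finset (Fin k),
      ContinuousOn (i1_sel (fun i => dom Ω (S i) (Ks i) h) F h s) Ω := fun s =>
    i1_cont hcont hAo hd (fun i => (hc i).acl.cont) hgl s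
  have hacl : ∀ s : Finset (Fin k), ACL2 Ω (i1_sel (fun i => dom Ω (S i) (Ks i) h) F h s)
      (i1_sel (fun i => dom Ω (S i) (Ks i) h) fx hx s)
      (i1_sel (fun i => dom Ω (S i) (Ks i) h) fy hy s) := by
    classical
    intro s
    induction s using Finset.induction_on with
    | empty =>
      have e : ∀ (v : Fin k → ℂ → ℂ) (f : ℂ → ℂ),
          i1_sel (fun i => dom Ω (S i) (Ks i) h) v f ∅ = f := by
        intro v f
        funext z
        exact i1_sel_notMem v f (fun i hi => absurd hi (Finset.notMem_empty i))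
      rw [e, e, e]
      exact ha
    | insert i s _ ih =>
      have hci := hcs (insert i s)
      rw [i1_sel_insert hd] at hci ⊢
      rw [i1_sel_insert hd, i1_sel_insert hd]
      have := (ACL2.replace hO (hAo i) (fun x hx => hx.1) ih (hc i).acl
        (by convert hci using 2)).1
      convert this using 2
  refine ⟨_, _, _, hacl Finset.univ, ?_, ?_, ?_⟩
  · intro i x hx
    exact i1_sel_mem hd F h (Finset.mem_univ i) hx
  · intro x hx hxi
    exact i1_sel_notMem F h (fun i _ hxm => hxi i hxm.2)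
  · set W : Set ℂ := ⋃ i, dom Ω (S i) (Ks i) h with hW
    have hWo : IsOpen W := isOpen_iUnion hAo
    have hWU : W ⊆ Ω := iUnion_subset (fun i x hx => hx.1)
    have hset : Ω \ W = {x | x ∈ Ω ∧ ∀ i, h x ∉ S i ∪ Ks i} := by
      ext x
      constructor
      · rintro ⟨hx, hxW⟩
        exact ⟨hx, fun i hi => hxW (mem_iUnion.2 ⟨i, hx, hi⟩)⟩
      · rintro ⟨hx, hxi⟩
        refine ⟨hx, fun hxW => ?_⟩
        obtain ⟨i, hi⟩ := mem_iUnion.1 hxW
        exact hxi i hi.2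
    have hpd : Pairwise (Function.onFun Disjoint (fun i => dom Ω (S i) (Ks i) h)) := by
      intro i j hij
      rw [Function.onFun, Set.disjoint_left]
      intro z h1 h2
      exact hij (hd i j z h1 h2)
    have h1 : en W (i1_sel (fun i => dom Ω (S i) (Ks i) h) fx hx Finset.univ)
        (i1_sel (fun i => dom Ω (S i) (Ks i) h) fy hy Finset.univ) ≤ ∑ i, e i := by
      unfold en
      rw [hW, lintegral_iUnion (fun i => (hAo i).measurableSet) hpd, tsum_fintype]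
      refine Finset.sum_le_sum (fun i _ => ?_)
      refine le_trans (le_of_eq ?_) (hc i).energy
      refine setLIntegral_congr_fun (hAo i).measurableSet (fun z hz => ?_)
      simp only [i1_sel_mem hd fx hx (Finset.mem_univ i) hz,
        i1_sel_mem hd fy hy (Finset.mem_univ i) hz]
    have h2 : en (Ω \ W) (i1_sel (fun i => dom Ω (S i) (Ks i) h) fx hx Finset.univ)
        (i1_sel (fun i => dom Ω (S i) (Ks i) h) fy hy Finset.univ) =
        en {x | x ∈ Ω ∧ ∀ i, h x ∉ S i ∪ Ks i} hx hy := by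
      rw [hset]
      unfold en
      refine setLIntegral_congr_fun (by rw [← hset]; exact hO.measurableSet.diff hWo.measurableSet)
        (fun z hz => ?_)
      have h3 : ∀ i ∈ (Finset.univ : Finset (Fin k)), z ∉ dom Ω (S i) (Ks i) h :=
        fun i _ hzi => hz.2 i hzi.2
      simp only [i1_sel_notMem fx hx h3, i1_sel_notMem fy hy h3]
    have h3 : en Ω (i1_sel (fun i => dom Ω (S i) (Ks i) h) fx hx Finset.univ)
        (i1_sel (fun i => dom Ω (S i) (Ks i) h) fy hy Finset.univ) =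
        en W (i1_sel (fun i => dom Ω (S i) (Ks i) h) fx hx Finset.univ)
        (i1_sel (fun i => dom Ω (S i) (Ks i) h) fy hy Finset.univ) +
        en (Ω \ W) (i1_sel (fun i => dom Ω (S i) (Ks i) h) fx hx Finset.univ)
        (i1_sel (fun i => dom Ω (S i) (Ks i) h) fy hy Finset.univ) := by
      unfold en
      rw [← lintegral_inter_add_sdiff (μ := (volume : Measure ℂ)) _ Ω hWo.measurableSet,
        inter_eq_right.2 hWU]
    rw [h3, h2, add_comm]
    exact add_le_add le_rfl h1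


end CF6

end

section

/-! # Module I, row I3: from cells to homeomorphisms -/

open Complex MeasureTheory Set Filter Topology Metric
open scoped ENNReal

namespace CF6

/-- module K, bundled -/
theorem regulariseP {Ω Ωs : Set ℂ} (hO : IsOpen Ω) (hO' : IsOpen Ωs) (hc' : IsConnected Ωs)
    (hb' : Bornology.IsBounded Ωs) (F Fx Fy : ℂ → ℂ) (hF : PMap Ω Ωs F) (ha : ACL2 Ω F Fx Fy)
    (η : ℝ) (hη : 0 < η) :
    ∃ f fx fy : ℂ → ℂ, IsHomeoOnto f Ω Ωs ∧ ACL2 Ω f fx fy ∧ en Ω fx fy ≤ en Ω Fx Fy ∧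
      ∀ z ∈ Ω, ‖f z - F z‖ ≤ η :=
  regularise hO hO' hc' hb' F Fx Fy hF.cont hF.maps
    (fun y hy => by obtain ⟨x, hx, hxy⟩ := (hF.fib y hy).nonempty; exact ⟨x, hx, hxy⟩)
    (fun Q hQ hQc => hF.proper Q hQ hQc) (fun y hy => (hF.fib y hy).isPreconnected) ha η hη

private theorem I3_outer (M : ℝ) (hM : 0 ≤ M) : IsPreconnected {z : ℂ | M < ‖z‖} := by
  have h1 : IsPreconnected (Ioi M ×ˢ (univ : Set ℝ)) := isPreconnected_Ioi.prod isPreconnected_univ
  have h2 : ContinuousOn (fun p : ℝ × ℝ => (p.1 : ℂ) * exp (p.2 * I)) (Ioi M ×ˢ (univ : Set ℝ)) := by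
    fun_prop
  have h3 := h1.image _ h2
  have h4 : (fun p : ℝ × ℝ => (p.1 : ℂ) * exp (p.2 * I)) '' (Ioi M ×ˢ (univ : Set ℝ))
      = {z : ℂ | M < ‖z‖} := by
    ext z
    constructor
    · rintro ⟨⟨a, b⟩, ⟨ha, -⟩, rfl⟩
      have ha' : M < a := ha
      show M < ‖(a : ℂ) * exp (b * I)‖
      rw [norm_mul, Complex.norm_exp_ofReal_mul_I, mul_one, Complex.norm_real, Real.norm_eq_abs,
        abs_of_pos (by linarith)]
      exact ha'
    · intro hz
      have hz' : M < ‖z‖ := hz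
      exact ⟨(‖z‖, arg z), ⟨hz', mem_univ _⟩, Complex.norm_mul_exp_arg_mul_I z⟩
  rwa [h4] at h3

private theorem I3_bdd {k : ℕ} {Ωs : Set ℂ} {Ks : Fin k → Set ℂ} (hb : Bornology.IsBounded Ωs)
    (Kcl : ∀ i, IsClosed (Ks i)) (Kun : ⋃ i, Ks i = Ωsᶜ)
    (Kdis : ∀ i j, i ≠ j → Disjoint (Ks i) (Ks j)) (i j : Fin k) (hij : i ≠ j) :
    Bornology.IsBounded (Ks i) ∨ Bornology.IsBounded (Ks j) := by
  by_contra hcon
  push Not at hcon
  obtain ⟨M, hM⟩ := hb.subset_closedBall (0 : ℂ)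
  set M' : ℝ := max M 0 with hM'
  have hM0 : 0 ≤ M' := le_max_right _ _
  have hout : {z : ℂ | M' < ‖z‖} ⊆ ⋃ i, Ks i := by
    intro z hz
    rw [Kun]
    intro hcl
    have h1 := hM hcl
    rw [mem_closedBall_zero_iff] at h1
    have h2 : M' < ‖z‖ := hz
    have h3 : M ≤ M' := le_max_left _ _
    linarith
  have key : ∀ l : Fin k, ¬ Bornology.IsBounded (Ks l) → {z : ℂ | M' < ‖z‖} ⊆ Ks l := by
    intro l hl
    obtain ⟨z, hzl, hz⟩ : ∃ z ∈ Ks l, M' < ‖z‖ := by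
      by_contra hno
      push Not at hno
      exact hl ((Metric.isBounded_closedBall (x := (0 : ℂ)) (r := M')).subset
        (fun z hz => by rw [mem_closedBall_zero_iff]; exact hno z hz))
    have hrest : IsClosed (⋃ m ∈ {m : Fin k | m ≠ l}, Ks m) :=
      (Set.toFinite _).isClosed_biUnion (fun m _ => Kcl m)
    have hsub : {z : ℂ | M' < ‖z‖} ⊆ Ks l ∪ ⋃ m ∈ {m : Fin k | m ≠ l}, Ks m := by
      intro w hw
      obtain ⟨m, hm⟩ := mem_iUnion.1 (hout hw)
      by_cases hml : m = l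
      · left; rw [← hml]; exact hm
      · right; exact mem_biUnion (show m ∈ {m : Fin k | m ≠ l} from hml) hm
    have hdj : Ks l ∩ (⋃ m ∈ {m : Fin k | m ≠ l}, Ks m) = ∅ := by
      rw [Set.eq_empty_iff_forall_notMem]
      rintro w ⟨hw1, hw2⟩
      obtain ⟨m, hm, hwm⟩ := mem_iUnion₂.1 hw2
      exact (Set.disjoint_left.1 (Kdis l m (Ne.symm hm))) hw1 hwm
    rcases isPreconnected_iff_subset_of_disjoint_closed.1 (I3_outer M' hM0) _ _ (Kcl l) hrest hsub
      (by rw [hdj, inter_empty]) with h | h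
    · exact h
    · have : z ∈ Ks l ∩ (⋃ m ∈ {m : Fin k | m ≠ l}, Ks m) := ⟨hzl, h hz⟩
      rw [hdj] at this
      exact absurd this (Set.notMem_empty z)
  have hpt : ((M' + 1 : ℝ) : ℂ) ∈ {z : ℂ | M' < ‖z‖} := by
    show M' < ‖((M' + 1 : ℝ) : ℂ)‖
    rw [Complex.norm_real, Real.norm_eq_abs, abs_of_pos (by linarith)]
    linarith
  exact (Set.disjoint_left.1 (Kdis i j hij)) (key i hcon.1 hpt) (key j hcon.2 hpt)

private theorem I3_small {A B : Set ℂ} (hA : IsClosed A) (hB : IsClosed B) (hd : Disjoint A B)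
    (hb : Bornology.IsBounded A ∨ Bornology.IsBounded B) :
    ∀ᶠ r in 𝓝[>] (0 : ℝ), Disjoint (thickening r A) (thickening r B) := by
  have hex : ∃ δ, 0 < δ ∧ Disjoint (thickening δ A) (thickening δ B) := by
    rcases hb with h | h
    · exact hd.exists_thickenings (Metric.isCompact_of_isClosed_isBounded hA h) hB
    · obtain ⟨δ, h1, h2⟩ := hd.symm.exists_thickenings (Metric.isCompact_of_isClosed_isBounded hB h) hA
      exact ⟨δ, h1, h2.symm⟩
  obtain ⟨δ, hδ, h⟩ := hex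
  filter_upwards [Ioc_mem_nhdsGT hδ] with r hr
  exact h.mono (thickening_mono hr.2 _) (thickening_mono hr.2 _)

private theorem I3_pre {Ω A : Set ℂ} {h : ℂ → ℂ} (hO : IsOpen Ω) (hc : ContinuousOn h Ω)
    (hA : IsClosed A) : MeasurableSet {x | x ∈ Ω ∧ h x ∈ A} := by
  have h1 : IsOpen (Ω ∩ h ⁻¹' Aᶜ) := hc.isOpen_inter_preimage hO hA.isOpen_compl
  have h2 : {x | x ∈ Ω ∧ h x ∈ A} = Ω \ (Ω ∩ h ⁻¹' Aᶜ) := by
    ext x
    simp only [mem_ofPred_eq, Set.mem_sdiff, mem_inter_iff, mem_preimage, mem_compl_iff]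
    tauto
  rw [h2]
  exact hO.measurableSet.diff h1.measurableSet

/-- energies of disjoint parts -/
private theorem I3_energy {k : ℕ} {Ω A : Set ℂ} {B : Fin k → Set ℂ} {hx hy : ℂ → ℂ}
    (hAO : A ⊆ Ω) (hBO : ∀ i, B i ⊆ Ω) (hBm : ∀ i, MeasurableSet (B i))
    (hAB : ∀ i, Disjoint A (B i)) (hBB : ∀ i j, i ≠ j → Disjoint (B i) (B j)) :
    en A hx hy + ∑ i, en (B i) hx hy ≤ en Ω hx hy := by
  have h1 : en (⋃ i, B i) hx hy = ∑ i, en (B i) hx hy := by
    unfold en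
    rw [lintegral_iUnion hBm (fun i j hij => hBB i j hij), tsum_fintype]
  rw [← h1]
  unfold en
  rw [← lintegral_union (MeasurableSet.iUnion hBm) (Set.disjoint_iUnion_right.2 hAB)]
  exact lintegral_mono_set (union_subset hAO (iUnion_subset hBO))

/-- I3. Choose `r` with `2 r < ` all distances between different `Ks i`, `Ks j` and `r <` distance of the ball
`closedBall y0 (2R) ⊆ Ωs` to `Ωsᶜ`; take the cells for this `r`; I1 + I2 give `G`; regularise with `η = R/16`; the homeomorphism `hj j` with `‖hj j x - h x‖ < R/16` whenever `hj j x ∈ closedBall y0 R`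
(`D.close`): then `h x ∈ closedBall y0 (2R)`, so `h x` is in no collar (collars are within `r` of `Ks`), `G x = h x` and `‖f x - hj j x‖ < R/4`. `orient`. Energy: the sets
`{h x ∈ Ks i}` and `{h x ∉ ⋃ S i ∪ Ks i}` are disjoint. -/
theorem homeo_of_cells {k : ℕ} {Ω Ωs : Set ℂ} {Ks L : Fin k → Set ℂ} {h hx hy : ℂ → ℂ}
    {hj : ℕ → ℂ → ℂ} (D : Deform Ω Ωs L Ks h hx hy hj) (ε : ℝ) (hε : 0 < ε)
    (cells : ∀ i, ∀ r > (0 : ℝ), ∃ (S : Set ℂ) (F fx fy : ℂ → ℂ),
      CellOut Ω Ωs (Ks i) (L i) h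
        ((1 + ENNReal.ofReal ε) * en {x | x ∈ Ω ∧ h x ∈ Ks i} hx hy + ENNReal.ofReal ε) S F fx fy ∧
      ∀ w ∈ S, infDist w (Ks i) < r) :
    ∃ f fx fy : ℂ → ℂ, IsHomeoOnto f Ω Ωs ∧ SensePreserving f Ω ∧ ACL2 Ω f fx fy ∧
      en Ω fx fy ≤ (1 + ENNReal.ofReal ε) * en Ω hx hy + k * ENNReal.ofReal ε := by
  classical
  -- the test ball
  obtain ⟨y0, hy0⟩ := D.Oconn'.nonempty
  obtain ⟨R', hR', hball'⟩ := Metric.nhds_basis_closedBall.mem_iff.1 (D.Oopen'.mem_nhds hy0)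
  set R : ℝ := R' / 2 with hRdef
  have hR : 0 < R := by positivity
  have hball2 : closedBall y0 (2 * R) ⊆ Ωs := by
    have : 2 * R = R' := by rw [hRdef]; ring
    rw [this]; exact hball'
  have hballR : closedBall y0 R ⊆ Ωs := (closedBall_subset_closedBall (by linarith)).trans hball2
  -- the parameter `r`
  have hKO : ∀ i, Ks i ⊆ Ωsᶜ := fun i => by rw [← D.Kun]; exact subset_iUnion _ i
  have e1 : ∀ᶠ r in 𝓝[>] (0 : ℝ), ∀ i j, i ≠ j → Disjoint (thickening r (Ks i)) (thickening r (Ks j)) := by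
    rw [eventually_all]
    intro i
    rw [eventually_all]
    intro j
    by_cases hij : i = j
    · exact Eventually.of_forall (fun r h => absurd hij h)
    · filter_upwards [I3_small (D.Kcl i) (D.Kcl j) (D.Kdis i j hij)
        (I3_bdd D.Obdd' D.Kcl D.Kun D.Kdis i j hij)] with r hr _
      exact hr
  have e2 : ∀ᶠ r in 𝓝[>] (0 : ℝ), Disjoint (thickening r (closedBall y0 (2 * R))) (thickening r Ωsᶜ) :=
    I3_small isClosed_closedBall D.Oopen'.isClosed_compl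
      (Set.disjoint_left.2 (fun z hz hz' => hz' (hball2 hz))) (Or.inl Metric.isBounded_closedBall)
  obtain ⟨r, ⟨hr1, hr2⟩, hr0⟩ := ((e1.and e2).and self_mem_nhdsWithin).exists
  have hr : 0 < r := hr0
  -- the cells
  choose S F fx fy hcell hnear using fun i => cells i r hr
  have hSK : ∀ i, S i ∪ Ks i ⊆ thickening r (Ks i) := by
    intro i
    refine union_subset (fun w hw => ?_) (self_subset_thickening hr _)
    rw [mem_thickening_iff_infDist_lt (D.Kconn i).nonempty]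
    exact hnear i w hw
  have hdis : ∀ i j, i ≠ j → Disjoint (S i ∪ Ks i) (S j ∪ Ks j) :=
    fun i j hij => (hr1 i j hij).mono (hSK i) (hSK j)
  have hsep : ∀ i j, i ≠ j → ∃ c > (0 : ℝ), ∀ w ∈ S i ∪ Ks i, c ≤ infDist w (Ks j) := by
    intro i j hij
    refine ⟨r, hr, fun w hw => ?_⟩
    by_contra hlt
    push Not at hlt
    exact (Set.disjoint_left.1 (hr1 i j hij)) (hSK i hw)
      ((mem_thickening_iff_infDist_lt (D.Kconn j).nonempty).2 hlt)
  have hbd : ∀ x, h x ∈ closedBall y0 (2 * R) → ∀ i, h x ∉ S i ∪ Ks i := by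
    intro x hx i hxi
    exact (Set.disjoint_left.1 hr2) (self_subset_thickening hr _ hx)
      (thickening_subset_of_subset r (hKO i) (hSK i hxi))
  have hcont : ContinuousOn h Ω := D.acl.cont
  have hfin : en Ω hx hy < ⊤ := D.acl.fin
  have hsubi : ∀ i, {x | x ∈ Ω ∧ h x ∈ Ks i} ⊆ Ω := fun i x hx => hx.1
  have he : ∀ i, (1 + ENNReal.ofReal ε) * en {x | x ∈ Ω ∧ h x ∈ Ks i} hx hy + ENNReal.ofReal ε < ⊤ := by
    intro i
    have h1 : en {x | x ∈ Ω ∧ h x ∈ Ks i} hx hy < ⊤ :=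
      lt_of_le_of_lt (lintegral_mono_set (hsubi i)) hfin
    exact ENNReal.add_lt_top.2 ⟨ENNReal.mul_lt_top
      (ENNReal.add_lt_top.2 ⟨ENNReal.one_lt_top, ENNReal.ofReal_lt_top⟩) h1, ENNReal.ofReal_lt_top⟩
  obtain ⟨G, gx, gy, hGa, hG1, hG2, hGe⟩ := glue_cells D.Oopen D.acl hcell hdis he
  have hP : PMap Ω Ωs G := pmap_glue D hcell hdis hsep hGa.cont hG1 hG2
  obtain ⟨f, fx', fy', hf, hfa, hfe, hfG⟩ := regulariseP D.Oopen D.Oopen' D.Oconn'
    D.Obdd' G gx gy hP hGa (R / 16) (by positivity)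
  obtain ⟨j, hj1⟩ := D.close (closedBall y0 R) hballR (isCompact_closedBall _ _) (R / 16) (by positivity)
  refine ⟨f, fx', fy', hf, ?_, hfa, ?_⟩
  · refine orient' D.Oopen D.Oconn (D.homeo j) (D.sense j) hf hR hballR (fun x hx hxR => ?_)
    have h1 := hj1 x hx hxR
    have h2 : h x ∈ closedBall y0 (2 * R) := by
      rw [mem_closedBall, dist_eq_norm] at hxR ⊢
      calc ‖h x - y0‖ = ‖(hj j x - y0) - (hj j x - h x)‖ := by congr 1; ring
        _ ≤ ‖hj j x - y0‖ + ‖hj j x - h x‖ := norm_sub_le _ _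
        _ ≤ 2 * R := by linarith
    have h3 := hG2 x hx (hbd x h2)
    have h4 := hfG x hx
    rw [h3] at h4
    calc ‖f x - hj j x‖ = ‖(f x - h x) - (hj j x - h x)‖ := by congr 1; ring
      _ ≤ ‖f x - h x‖ + ‖hj j x - h x‖ := norm_sub_le _ _
      _ < R / 4 := by linarith
  · set A : Set ℂ := {x | x ∈ Ω ∧ ∀ i, h x ∉ S i ∪ Ks i} with hA
    have hen : en A hx hy + ∑ i, en {x | x ∈ Ω ∧ h x ∈ Ks i} hx hy ≤ en Ω hx hy := by
      refine I3_energy (fun x hx => hx.1) hsubi (fun i => I3_pre D.Oopen hcont (D.Kcl i)) ?_ ?_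
      · intro i
        rw [Set.disjoint_left]
        rintro x ⟨-, hx1⟩ ⟨-, hx2⟩
        exact hx1 i (Or.inr hx2)
      · intro i j hij
        rw [Set.disjoint_left]
        rintro x ⟨-, hx1⟩ ⟨-, hx2⟩
        exact (Set.disjoint_left.1 (D.Kdis i j hij)) hx1 hx2
    calc en Ω fx' fy' ≤ en Ω gx gy := hfe
      _ ≤ en A hx hy + ∑ i, ((1 + ENNReal.ofReal ε) * en {x | x ∈ Ω ∧ h x ∈ Ks i} hx hy + ENNReal.ofReal ε) := hGe
      _ = en A hx hy + ((1 + ENNReal.ofReal ε) * ∑ i, en {x | x ∈ Ω ∧ h x ∈ Ks i} hx hy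
            + k * ENNReal.ofReal ε) := by
          rw [Finset.sum_add_distrib, ← Finset.mul_sum, Finset.sum_const, Finset.card_univ,
            Fintype.card_fin, nsmul_eq_mul]
      _ ≤ (1 + ENNReal.ofReal ε) * en A hx hy + ((1 + ENNReal.ofReal ε) *
            ∑ i, en {x | x ∈ Ω ∧ h x ∈ Ks i} hx hy + k * ENNReal.ofReal ε) := by
          refine add_le_add ?_ le_rfl
          calc en A hx hy = 1 * en A hx hy := (one_mul _).symm
            _ ≤ (1 + ENNReal.ofReal ε) * en A hx hy := mul_le_mul_left le_self_add _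
      _ = (1 + ENNReal.ofReal ε) * (en A hx hy + ∑ i, en {x | x ∈ Ω ∧ h x ∈ Ks i} hx hy)
            + k * ENNReal.ofReal ε := by rw [mul_add, add_assoc]
      _ ≤ (1 + ENNReal.ofReal ε) * en Ω hx hy + k * ENNReal.ofReal ε :=
          add_le_add (mul_le_mul_right hen _) le_rfl

end CF6

end
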