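import Pool.Agent.Lib.MP_cf6b16_an.DefsB
import Pool.Agent.Lib.MP_cf6b16_an.A2

section

/-! # Module N, N8a: small lemmas for the choice of the parameters -/

open Complex MeasureTheory Set Filter Topology Metric
open scoped ENNReal

namespace CF6

theorem Comps.bdd_or {k : ℕ} {Ω : Set ℂ} {L : Fin k → Set ℂ} (H : Comps Ω L) (i : Fin k) :
    Bornology.IsBounded (L i) ∨ Bornology.IsBounded (L i)ᶜ := by
  obtain ⟨i0, h0, h1⟩ := H.unbdd
  by_cases hi : i = i0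
  · right
    have hsub : (L i)ᶜ ⊆ Ω ∪ ⋃ m ∈ {m | m ≠ i0}, L m := by
      intro x hx
      by_cases hxO : x ∈ Ω
      · exact Or.inl hxO
      · right
        have : x ∈ ⋃ i, L i := by rw [H.union]; exact hxO
        obtain ⟨m, hm⟩ := mem_iUnion.1 this
        refine mem_biUnion (x := m) ?_ hm
        rintro rfl
        exact hx (hi ▸ hm)
    refine Bornology.IsBounded.subset ?_ hsub
    refine H.bdd.union ?_
    refine (Bornology.isBounded_biUnion (Set.toFinite _)).2 fun m hm => (h1 m hm).isBounded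
  · exact Or.inl (h1 i hi).isBounded

theorem Approx.subseq' {k : ℕ} {Ω Ωs : Set ℂ} {L K : Fin k → Set ℂ} {h : ℂ → ℂ}
    {hj : ℕ → ℂ → ℂ} (H : Approx Ω Ωs L K h hj) {s : ℕ → ℕ} (hs : StrictMono s) :
    Approx Ω Ωs L K h (fun j => hj (s j)) where
  dom := H.dom
  tgt := H.tgt
  homeo := fun j => H.homeo (s j)
  maps := H.maps
  lim := by
    intro u hu x hx
    obtain ⟨t, ht, hev⟩ := H.lim u hu x hx
    exact ⟨t, ht, hs.tendsto_atTop.eventually hev⟩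
  ends := by
    intro η hη
    obtain ⟨κ, hκ, j0, hh⟩ := H.ends η hη
    refine ⟨κ, hκ, j0, fun i x hx hd => ⟨fun j hj => (hh i x hx hd).1 (s j) ?_, (hh i x hx hd).2⟩⟩
    exact le_trans hj (hs.id_le j)
  back := fun j i η hη => H.back (s j) i η hη

theorem Approx.near_h {k : ℕ} {Ω Ωs : Set ℂ} {L K : Fin k → Set ℂ} {h : ℂ → ℂ}
    {hj : ℕ → ℂ → ℂ} (H : Approx Ω Ωs L K h hj) (i : Fin k) :
    ∀ η > (0 : ℝ), ∃ κ > (0 : ℝ), ∀ x ∈ Ω, infDist x (L i) < κ → infDist (h x) (K i) < η := by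
  intro η hη
  obtain ⟨κ, hκ, j0, hh⟩ := H.ends (η / 2) (by linarith)
  exact ⟨κ, hκ, fun x hx hd => lt_of_le_of_lt (hh i x hx hd).2 (by linarith)⟩

/-- choice of the small parameters -/
theorem param_choice {C1 C2 ε : ℝ} (hC1 : 1 ≤ C1) (hC2 : 1 ≤ C2) (hε : 0 < ε) :
    ∃ ε2 > (0 : ℝ), C1 * ε2 < 1 ∧ ε2 ≤ 1 / 10 ∧ (1 + C2 * ε2) * (1 + C1 * ε2) ^ 2 ≤ 1 + ε ∧
      C2 * ε2 ≤ 1 := by
  set C := max C1 C2 with hC
  have hC1' : C1 ≤ C := le_max_left _ _
  have hC2' : C2 ≤ C := le_max_right _ _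
  have hCpos : 0 < C := by linarith
  set x := min (1 / 10) (ε / 7) with hx
  have hx0 : 0 < x := by positivity
  have hx1 : x ≤ 1 / 10 := min_le_left _ _
  have hx2 : x ≤ ε / 7 := min_le_right _ _
  refine ⟨x / C, by positivity, ?_, ?_, ?_, ?_⟩
  · have : C1 * (x / C) ≤ x := by
      rw [← mul_div_assoc, div_le_iff₀ hCpos]; nlinarith
    linarith
  · have : x / C ≤ x := by rw [div_le_iff₀ hCpos]; nlinarith
    linarith
  · have h1 : C1 * (x / C) ≤ x := by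
      rw [← mul_div_assoc, div_le_iff₀ hCpos]; nlinarith
    have h2 : C2 * (x / C) ≤ x := by
      rw [← mul_div_assoc, div_le_iff₀ hCpos]; nlinarith
    have h3 : 0 ≤ C1 * (x / C) := by positivity
    have h4 : 0 ≤ C2 * (x / C) := by positivity
    calc (1 + C2 * (x / C)) * (1 + C1 * (x / C)) ^ 2 ≤ (1 + x) * (1 + x) ^ 2 := by gcongr
      _ ≤ 1 + 7 * x := by nlinarith [mul_nonneg hx0.le hx0.le, mul_nonneg hx0.le (mul_nonneg hx0.le hx0.le)]
      _ ≤ 1 + ε := by linarith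
  · have : C2 * (x / C) ≤ x := by
      rw [← mul_div_assoc, div_le_iff₀ hCpos]; nlinarith
    linarith

/-- the final estimate of the energy of the cell -/
theorem param_energy {C1 C2 ε ε1 ε2 δ : ℝ} (hC1 : 1 ≤ C1) (hC2 : 1 ≤ C2) (hε : 0 < ε)
    (hε2 : 0 < ε2) (h1 : (1 + C2 * ε2) * (1 + C1 * ε2) ^ 2 ≤ 1 + ε) (h2 : C2 * ε2 ≤ 1)
    (hε1 : ε1 = ε / (8 * C1 ^ 2)) (hδ0 : 0 < δ) (hδ1 : δ ≤ ε / (8 * C1 ^ 2))
    (hδ2 : δ ≤ ε * ε2 / (8 * C2)) {EK Ebad Ecol vol el : ℝ≥0∞} (hEK : EK < ⊤)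
    (hbad : Ebad ≤ ENNReal.ofReal ε1) (hcol : Ecol ≤ ENNReal.ofReal δ)
    (hvol : vol ≤ ENNReal.ofReal δ)
    (hel : el ≤ ENNReal.ofReal ((1 + C1 * ε2) ^ 2) * EK + ENNReal.ofReal (C1 ^ 2) * (Ebad + Ecol)) :
    (1 + ENNReal.ofReal (C2 * ε2)) * el + ENNReal.ofReal (C2 / ε2) * (Ecol + vol) ≤
      (1 + ENNReal.ofReal ε) * EK + ENNReal.ofReal ε := by
  have hC1p : 0 < C1 := by linarith
  have hC2p : 0 < C2 := by linarith
  have hε1p : 0 ≤ ε1 := by rw [hε1]; positivity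
  lift EK to NNReal using hEK.ne
  set a : ℝ := (EK : ℝ) with ha
  have ha0 : 0 ≤ a := EK.2
  have hEKa : (EK : ℝ≥0∞) = ENNReal.ofReal a := by rw [ha, ENNReal.ofReal_coe_nnreal]
  have hel' : el ≤ ENNReal.ofReal ((1 + C1 * ε2) ^ 2 * a + C1 ^ 2 * (ε1 + δ)) := by
    refine hel.trans ?_
    rw [ENNReal.ofReal_add (by positivity) (by positivity), ENNReal.ofReal_mul (by positivity),
      ENNReal.ofReal_mul (by positivity), ENNReal.ofReal_add hε1p hδ0.le, hEKa]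
    gcongr
  have hone : (1 : ℝ≥0∞) = ENNReal.ofReal 1 := by simp
  calc (1 + ENNReal.ofReal (C2 * ε2)) * el + ENNReal.ofReal (C2 / ε2) * (Ecol + vol)
      ≤ ENNReal.ofReal (1 + C2 * ε2) *
          ENNReal.ofReal ((1 + C1 * ε2) ^ 2 * a + C1 ^ 2 * (ε1 + δ)) +
          ENNReal.ofReal (C2 / ε2) * (ENNReal.ofReal δ + ENNReal.ofReal δ) := by
        rw [ENNReal.ofReal_add (by norm_num) (by positivity), ← hone]
        gcongr
    _ = ENNReal.ofReal ((1 + C2 * ε2) * ((1 + C1 * ε2) ^ 2 * a + C1 ^ 2 * (ε1 + δ)) +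
          C2 / ε2 * (δ + δ)) := by
        rw [← ENNReal.ofReal_mul (by positivity), ← ENNReal.ofReal_add hδ0.le hδ0.le,
          ← ENNReal.ofReal_mul (by positivity), ← ENNReal.ofReal_add (by positivity) (by positivity)]
    _ ≤ ENNReal.ofReal ((1 + ε) * a + ε) := by
        apply ENNReal.ofReal_le_ofReal
        have e1 : (1 + C2 * ε2) * (C1 ^ 2 * (ε1 + δ)) ≤ ε / 2 := by
          have : C1 ^ 2 * (ε1 + δ) ≤ ε / 4 := by
            have h3 : C1 ^ 2 * (ε / (8 * C1 ^ 2)) = ε / 8 := by field_simp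
            have h4 : C1 ^ 2 * δ ≤ C1 ^ 2 * (ε / (8 * C1 ^ 2)) := by gcongr
            rw [mul_add, hε1]; linarith
          have h5 : 0 ≤ C1 ^ 2 * (ε1 + δ) := by positivity
          have h6 : 0 ≤ C2 * ε2 := by positivity
          nlinarith
        have e2 : C2 / ε2 * (δ + δ) ≤ ε / 4 := by
          have h3 : C2 / ε2 * (ε * ε2 / (8 * C2)) = ε / 8 := by field_simp
          have h4 : C2 / ε2 * δ ≤ C2 / ε2 * (ε * ε2 / (8 * C2)) := by gcongr
          rw [mul_add]; linarith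
        have e3 : (1 + C2 * ε2) * ((1 + C1 * ε2) ^ 2 * a) ≤ (1 + ε) * a := by
          rw [← mul_assoc]; gcongr
        rw [mul_add]; linarith
    _ = (1 + ENNReal.ofReal ε) * EK + ENNReal.ofReal ε := by
        rw [ENNReal.ofReal_add (by positivity) hε.le, ENNReal.ofReal_mul (by positivity),
          ENNReal.ofReal_add (by norm_num) hε.le, hEKa]
        simp

end CF6

end
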