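import Pool.Agent.Lib.MP_cf6b16_an.N2
import Pool.Agent.Lib.MP_cf6b16_an.A2
import Pool.Agent.Lib.MP_cf6b16_an.N3
import Pool.Agent.Lib.MP_cf6b16_an.N4
import Pool.Agent.Lib.MP_cf6b16_an.G4
import Pool.Agent.Lib.MP_cf6b16_an.N5
import Pool.Agent.Lib.MP_cf6b16_an.C2
import Pool.Agent.Lib.MP_cf6b16_an.DE5
import Pool.Agent.Lib.MP_cf6b16_an.DE10
import Pool.Agent.Lib.MP_cf6b16_an.H2

section

/-! # Module N, N8: the cell of a nondegenerate component, and the cells theorem -/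

open Complex MeasureTheory Set Filter Topology Metric
open scoped ENNReal

namespace CF6

theorem CellOut.mono {Ω Ωs K L : Set ℂ} {h : ℂ → ℂ} {e e' : ℝ≥0∞} {S : Set ℂ} {F fx fy : ℂ → ℂ}
    (H : CellOut Ω Ωs K L h e S F fx fy) (hee : e ≤ e') : CellOut Ω Ωs K L h e' S F fx fy :=
  ⟨H.Sopen, H.Ssub, H.SK, H.bij, H.acl, H.energy.trans hee, H.glue, H.proper⟩

theorem Depth.mono {c r c' r' : ℝ} {τ : ℝ → ℝ} (h : Depth c r τ) (hc : c ≤ c') (hr : r ≤ r') :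
    Depth c' r' τ :=
  ⟨h.smooth, h.per, h.pos, fun x => (h.le x).trans hr, fun x => (h.slope x).trans hc⟩

theorem Koebe.mono {C0 y1 y : ℝ} {K : Set ℂ} {Φ : ℂ → ℂ} (h : Koebe C0 y1 K Φ) (hy : y ≤ y1) :
    Koebe C0 y K Φ := fun u h0 h1 => h u h0 (h1.trans hy)

theorem cell_nondeg {k : ℕ} {Ω Ωs : Set ℂ} {L K : Fin k → Set ℂ} {h hx hy : ℂ → ℂ}
    {hj : ℕ → ℂ → ℂ} (H : Approx Ω Ωs L K h hj) (ha : ACL2 Ω h hx hy) (i : Fin k)
    (nK : (K i).Nontrivial) (ε : ℝ) (hε : 0 < ε) (r : ℝ) (hr : 0 < r) :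
    ∃ (S : Set ℂ) (F fx fy : ℂ → ℂ), CellOut Ω Ωs (K i) (L i) h
      ((1 + ENNReal.ofReal ε) * en {x | x ∈ Ω ∧ h x ∈ K i} hx hy + ENNReal.ofReal ε) S F fx fy ∧
      ∀ w ∈ S, infDist w (K i) < r := by
  -- the collar of `K i`
  obtain ⟨Φ, ρ, hK⟩ := exists_collar (H.tgt.closed i) (H.tgt.cconn i) nK (H.tgt.compl_conn i).2
  have hbd := H.tgt.bdd_or i
  have hO : IsOpen Ω := H.dom.isOpen
  have hΩs : ∀ x ∈ Ωs, x ∉ K i := by
    intro x hx hxK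
    have : x ∈ Ωsᶜ := by rw [← H.tgt.union]; exact mem_iUnion.2 ⟨i, hxK⟩
    exact this hx
  -- limit data
  have nc : ∃ x ∈ Ω, h x ∉ K i := by
    obtain ⟨y, hy⟩ := H.tgt.conn.nonempty
    obtain ⟨x, hx, hxy⟩ := H.surj hy
    exact ⟨x, hx, by rw [hxy]; exact hΩs y hy⟩
  obtain ⟨s, g, hs, lim⟩ := exists_limData_thm hK hO H.dom.conn h hj (fun j => (H.homeo j).1)
    (fun j x hx => hΩs _ ((H.homeo j).2.1.mapsTo hx)) H.lim nc (fun R => wolff hK R)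
  have H' : Approx Ω Ωs L K h (fun j => hj (s j)) := H.subseq' hs
  obtain ⟨hcont, gcont, gle, bas1, bas2⟩ := lim.basic hK
  have nL : (L i).Nontrivial := no_point H ha i nK
  -- constants
  obtain ⟨C0, hC0, koebe⟩ := exists_koebe
  obtain ⟨y0, hy0, hko0⟩ := koebe (K i) Φ ρ hK
  obtain ⟨y1, hy1, hy1', hko⟩ : ∃ y1 > (0 : ℝ), y1 ≤ 1 ∧ Koebe C0 y1 (K i) Φ :=
    ⟨min y0 1, lt_min hy0 one_pos, min_le_right _ _, hko0.mono (min_le_left _ _)⟩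
  obtain ⟨C1, hC1, curve⟩ := exists_curve C0
  obtain ⟨C2, hC2, fill⟩ := exists_fill C0
  obtain ⟨ht, O, hn, hb⟩ := exists_normal_thm hK lim hx hy ha
  obtain ⟨ε2, hε2, hC1ε2, hε2', hpar, hC2ε2⟩ := param_choice hC1 hC2 hε
  set ε1 : ℝ := ε / (8 * C1 ^ 2) with hε1
  have hC1p : 0 < C1 := by linarith
  have hC2p : 0 < C2 := by linarith
  have hε1p : 0 < ε1 := by positivity
  obtain ⟨E, p, e, Ecl, Eint, Eper, enorm, Eiso, Ep, Een⟩ :=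
    exists_goodSet hK (hK.finArea hbd) lim hx hy ha hn ε1 hε1p
  set δ : ℝ := min (ε / (8 * C1 ^ 2)) (ε * ε2 / (8 * C2)) with hδ
  have hδ0 : 0 < δ := by positivity
  obtain ⟨y3, hy3, small⟩ := collar_small_en (h := h) hK hbd hO ha δ hδ0
  obtain ⟨y2, hy2, nd⟩ := approx_cell_nondeg H' i hK lim nL r hr
  set r' : ℝ := min (y1 / 10) (min y2 y3) with hr'
  have hr'0 : 0 < r' := by positivity
  obtain ⟨τ, hτ, push⟩ := curve (K i) Φ ρ hK y1 hy1 hko E p e Ecl Eint Eper enorm Eiso ε2 hε2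
    hC1ε2 r' hr'0
  obtain ⟨So, Ss, SKo, Sr, T, ψ, G, ch, hG, hGg, tendL, cpt⟩ := nd ε2 r' τ (by linarith)
    (le_trans (min_le_right _ _) (min_le_left _ _)) hτ
  obtain ⟨hvol, hcol⟩ := small ε2 r' τ (le_trans (min_le_right _ _) (min_le_right _ _)) hτ
  have hAO : dom Ω (collar Φ τ) (K i) h ⊆ Ω := fun x hx => hx.1
  have hA : IsOpen (dom Ω (collar Φ τ) (K i) h) := hcont.isOpen_inter_preimage hO SKo
  have hh : ∀ z ∈ strip T, 0 < (G z).im → h (ψ z) = Φ (G z) := by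
    intro z hz him
    have hψ : ψ z ∈ dom Ω (collar Φ τ) (K i) h := by rw [← ch.image]; exact mem_image_of_mem _ hz
    have hg1 : ‖g (ψ z)‖ < 1 := by
      rw [← hGg z hz, Complex.norm_exp]
      have : (I * G z).re = -(G z).im := by simp
      rw [this]
      exact Real.exp_lt_one_iff.2 (by linarith)
    have hnK : h (ψ z) ∉ K i := fun hmem => hg1.ne ((bas1 _ hψ.1).1 hmem)
    have h1 := bas2 _ hψ.1 hnK
    have h2 := hK.left (G z) him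
    exact hK.inj hnK (hK.mem _ him) (by rw [h1, h2, hGg z hz])
  obtain ⟨G', α0, hS⟩ := stripG_of_cell hK hτ (by linarith) hO hA hAO ha ch hG hGg hh tendL cpt
  have hEK : en {x | x ∈ Ω ∧ h x ∈ K i} hx hy < ⊤ :=
    lt_of_le_of_lt (lintegral_mono_set fun x hx => hx.1) ha.fin
  have hel := cell_energy hK lim hn ha hb hS hτ Ecl Eper Ep hC1 hε2 push
  have hX : en {x | x ∈ Ω ∧ h x ∈ collar Φ τ} hx hy < ⊤ := lt_of_le_of_lt hcol ENNReal.ofReal_lt_top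
  have helfin : elam T (fun θ => arcA Φ τ (α0 θ)) 0 < ⊤ := by
    refine lt_of_le_of_lt hel ?_
    refine ENNReal.add_lt_top.2 ⟨ENNReal.mul_lt_top ENNReal.ofReal_lt_top hEK,
      ENNReal.mul_lt_top ENNReal.ofReal_lt_top (ENNReal.add_lt_top.2 ⟨?_, hX⟩)⟩
    exact lt_of_le_of_lt Een ENNReal.ofReal_lt_top
  have hvl := vertical_lines hK lim hn ha hb hS hτ (H.near_h i)
  obtain ⟨Ψ, Ψ', fx, fy, cΨ, Ψbd, Ψper, Ψm, Ψm', inv, cΨ', hend, acl, hen⟩ :=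
    fill (K i) Φ ρ hK y1 hy1 hy1' hko τ (hτ.mono hε2' (min_le_left _ _)) T hS.Tpos α0 hS.acont hS.amono
      hS.aper helfin (lt_of_le_of_lt hvol ENNReal.ofReal_lt_top) _ hX hvl ε2 hε2 (by linarith)
  obtain ⟨F, Fx, Fy, hF⟩ := cellOut_of_fill hK hbd hO (H.dom.closed i) nL.nonempty
    (Set.disjoint_left.2 fun x hxL hxO => by
      have : x ∈ Ωᶜ := by rw [← H.dom.union]; exact mem_iUnion.2 ⟨i, hxL⟩
      exact this hxO) hτ hcont ⟨bas1, bas2⟩ So Ss SKo hS cΨ Ψbd Ψper Ψm Ψm' inv cΨ' hend acl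
  refine ⟨collar Φ τ, F, Fx, Fy, hF.mono ?_, Sr⟩
  exact hen.trans (param_energy hC1 hC2 hε hε2 hpar hC2ε2 hε1 hδ0 (min_le_left _ _)
    (min_le_right _ _) hEK Een hcol hvol hel)

/-- the cells theorem -/
theorem cells_thm {k : ℕ} {Ω Ωs : Set ℂ} {L K : Fin k → Set ℂ} {h hx hy : ℂ → ℂ}
    {hj : ℕ → ℂ → ℂ} (H : Approx Ω Ωs L K h hj) (ha : ACL2 Ω h hx hy) (i : Fin k)
    (ε : ℝ) (hε : 0 < ε) (r : ℝ) (hr : 0 < r) :
    ∃ (S : Set ℂ) (F fx fy : ℂ → ℂ), CellOut Ω Ωs (K i) (L i) h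
      ((1 + ENNReal.ofReal ε) * en {x | x ∈ Ω ∧ h x ∈ K i} hx hy + ENNReal.ofReal ε) S F fx fy ∧
      ∀ w ∈ S, infDist w (K i) < r := by
  rcases (K i).subsingleton_or_nontrivial with hsub | hnt
  · obtain ⟨q, hq⟩ := (H.tgt.cconn i).nonempty
    have hq' : K i = {q} := Set.eq_singleton_iff_unique_mem.2 ⟨hq, fun y hy => hsub hy hq⟩
    obtain ⟨S, F, fx, fy, hF, hS⟩ := cell_point H ha i hq' ε hε r hr
    exact ⟨S, F, fx, fy, hF.mono le_add_self, hS⟩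
  · exact cell_nondeg H ha i hnt ε hε r hr

end CF6

end
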