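import Pool.Agent.Lib.MP_cf6b16_an.K5
import Pool.Agent.Lib.MP_cf6b16_an.A2
import Pool.Agent.Lib.MP_cf6b16_an.N6
import Pool.Agent.Lib.MP_cf6b16_an.L1
import Pool.Agent.Lib.MP_cf6b16_an.I2

section

/-! # Module I, final assembly -/

open Complex MeasureTheory Set Filter Topology Metric
open scoped ENNReal

namespace CF6

theorem deform_of_approx {k : ℕ} {Ω Ωs : Set ℂ} {L K : Fin k → Set ℂ} {h hx hy : ℂ → ℂ}
    {hj : ℕ → ℂ → ℂ} (H : Approx Ω Ωs L K h hj) (ha : ACL2 Ω h hx hy)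
    (hs : ∀ j, SensePreserving (hj j) Ω) : Deform Ω Ωs L K h hx hy hj where
  Oopen := H.dom.isOpen
  Oconn := H.dom.conn
  Obdd := H.dom.bdd
  Oopen' := H.tgt.isOpen
  Oconn' := H.tgt.conn
  Obdd' := H.tgt.bdd
  Lcl := H.dom.closed
  Lconn := H.dom.cconn
  Lun := H.dom.union
  Ldis := H.dom.disj
  Kcl := H.tgt.closed
  Kconn := H.tgt.cconn
  Kun := H.tgt.union
  Kdis := H.tgt.disj
  acl := ha
  maps := H.maps
  fib := fun y hy => H.mc_compact isCompact_singleton isConnected_singleton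
    (singleton_subset_iff.2 hy)
  pre := fun B hB oB cB => H.mc oB cB hB
  near := H.near_h
  homeo := H.homeo
  sense := hs
  lim := H.lim
  close := by
    intro Q hQ hQc η hη
    rcases Q.eq_empty_or_nonempty with rfl | hne
    · exact ⟨0, fun x _ hx => absurd hx (notMem_empty _)⟩
    rcases (Ωsᶜ).eq_empty_or_nonempty with he | hne'
    · exfalso
      have : Ωs = univ := by rw [← compl_compl Ωs, he, compl_empty]
      have hb := H.tgt.bdd
      rw [this] at hb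
      exact NoncompactSpace.noncompact_univ (X := ℂ) (Metric.isCompact_of_isClosed_isBounded isClosed_univ hb)
    -- positive distance
    have hpos : ∃ c > (0 : ℝ), ∀ y ∈ Q, c ≤ infDist y Ωsᶜ := by
      obtain ⟨y0, hy0, hmin⟩ := hQc.exists_isMinOn hne (continuous_infDist_pt Ωsᶜ).continuousOn
      refine ⟨infDist y0 Ωsᶜ, ?_, fun y hy => hmin hy⟩
      have hcl : IsClosed Ωsᶜ := H.tgt.isOpen.isClosed_compl
      exact (hcl.notMem_iff_infDist_pos hne').1 (fun hh => hh (hQ hy0))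
    obtain ⟨c, hc, hcQ⟩ := hpos
    obtain ⟨κ, hκ, j0, hcore⟩ := H.core hc
    obtain ⟨hcomp, hsub⟩ := H.dom.core hκ
    obtain ⟨j1, hj1⟩ := H.unif hcomp hsub hη
    refine ⟨max j0 j1, fun x hx hxQ => ?_⟩
    have hxκ : κ ≤ infDist x Ωᶜ := by
      by_contra hlt
      have := (hcore x hx (not_le.1 hlt)).2 (max j0 j1) (le_max_left _ _)
      exact absurd (hcQ _ hxQ) (not_le.2 this)
    have := hj1 (max j0 j1) (le_max_right _ _) x hxκ
    rwa [dist_eq_norm] at this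

theorem EH_le_ED {k : ℕ} {Ω Ωs : Set ℂ} (h1 : KDomain k Ω) (h2 : KDomain k Ωs) :
    EH Ω Ωs ≤ ED Ω Ωs := by
  refine le_sInf ?_
  rintro e ⟨h, D, hD, rfl⟩
  obtain ⟨hm, hW, hdet, hvol, hj, hhj, hd⟩ := hD
  obtain ⟨L, K, s, hs, H⟩ := exists_approx h1 h2 (fun j => (hhj j).1) hm hd
  have hO : IsOpen Ω := h1.1
  have hsob := hW.sob hO H.cont
  have henD : en Ω (fun z => D z 1) (fun z => D z I) = energy Ω D := rfl
  have ha : ACL2 Ω h (fun z => D z 1) (fun z => D z I) := hsob.acl2 hO hW.2.2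
  have HD := deform_of_approx H ha (fun j => (hhj (s j)).2)
  have hfin : energy Ω D < ⊤ := hW.2.2
  have key : ∀ ε : ℝ, 0 < ε → EH Ω Ωs ≤
      (1 + ENNReal.ofReal ε) * energy Ω D + k * ENNReal.ofReal ε := by
    intro ε hε
    obtain ⟨f, fx, fy, hf, hsp, hfa, hen⟩ := homeo_of_cells HD ε hε
      (fun i r hr => cells_thm H ha i ε hε r hr)
    have hfin' : en Ω fx fy < ⊤ := hfa.fin
    have hbound : ∃ M : ℝ, ∀ z ∈ Ω, ‖f z‖ ≤ M := by
      obtain ⟨M, hM⟩ := h2.2.2.1.exists_norm_le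
      exact ⟨M, fun z hz => hM _ (hf.2.1.mapsTo hz)⟩
    obtain ⟨Df, hDf, hDe, -⟩ := (hfa.sob hO).w12 hO h1.2.2.1 hbound hfin'
    refine le_trans (sInf_le ⟨f, Df, hf, hsp, hDf, rfl⟩) ?_
    rw [hDe]
    exact hen
  -- let `ε → 0`
  lift energy Ω D to NNReal using hfin.ne with E hE
  refine ENNReal.le_of_forall_pos_le_add fun δ hδ _ => ?_
  obtain ⟨ε, hε, hεδ⟩ : ∃ ε : ℝ, 0 < ε ∧ ε * (E + k) ≤ δ := by
    refine ⟨δ / (E + k + 1), by positivity, ?_⟩
    have h3 : (0 : ℝ) < E + k + 1 := by positivity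
    rw [div_mul_eq_mul_div, div_le_iff₀ h3]
    have : (0 : ℝ) ≤ δ := δ.2
    nlinarith
  refine (key ε hε).trans ?_
  have hE' : (E : ℝ≥0∞) = ENNReal.ofReal E := by rw [ENNReal.ofReal_coe_nnreal]
  have hk' : (k : ℝ≥0∞) = ENNReal.ofReal k := by rw [ENNReal.ofReal_natCast]
  have hδ' : (δ : ℝ≥0∞) = ENNReal.ofReal δ := by rw [ENNReal.ofReal_coe_nnreal]
  rw [add_mul, one_mul, add_assoc]
  gcongr
  rw [hE', hk', hδ', ← ENNReal.ofReal_mul hε.le, ← ENNReal.ofReal_mul (by positivity),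
    ← ENNReal.ofReal_add (by positivity) (by positivity)]
  apply ENNReal.ofReal_le_ofReal
  linarith [mul_comm (k : ℝ) ε, mul_add ε (E : ℝ) k]

/-- the main theorem -/
theorem EH_eq_ED {k : ℕ} {Ω Ωs : Set ℂ} (h1 : KDomain k Ω) (h2 : KDomain k Ωs) :
    EH Ω Ωs = ED Ω Ωs :=
  le_antisymm (EH_le_ED h1 h2) (ED_le_EH' h1 h2)

end CF6

end
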